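import Mathlib
import Pool.Agent.MP_4fffd4_nt.Stick

section

/- Comparison of the discriminants of two members of the family `1 + B (C + S ^ N)`. -/

set_option autoImplicit false

namespace Pool.Agent.MP_4fffd4_nt

open Polynomial Finset

theorem cmp_ring {R : Type*} [CommRing R] {N n : ℕ} (hN : (N : R) = 0) (B D S₁ S₂ U V : R[X])
    (hB : B.Monic) (hV : V.Monic) (a₁ a₂ : Fin n → R)
    (h₁ : 1 + B * (D + S₁ ^ N) = ∏ j, (X - C (a₁ j)))
    (h₂ : 1 + B * (D + S₂ ^ N) = ∏ j, (X - C (a₂ j)))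
    (hW : B ^ 2 * derivative D - derivative B = U * V) (hd : V ∣ S₁ ^ N - S₂ ^ N) :
    (∏ j, (derivative (1 + B * (D + S₁ ^ N))).eval (a₁ j)) * ∏ j, U.eval (a₂ j) =
      (∏ j, (derivative (1 + B * (D + S₂ ^ N))).eval (a₂ j)) * ∏ j, U.eval (a₁ j) := by
  have key : ∀ (S : R[X]) (a : Fin n → R), 1 + B * (D + S ^ N) = ∏ j, (X - C (a j)) →
      IsUnit (∏ j, B.eval (a j)) ∧
      (∏ j, B.eval (a j)) * (∏ j, (derivative (1 + B * (D + S ^ N))).eval (a j)) =
        (∏ j, U.eval (a j)) * ∏ j, V.eval (a j) := by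
    intro S a h
    have h0 : ∀ j, (1 + B * (D + S ^ N)).eval (a j) = 0 := by
      intro j
      rw [h, eval_prod]
      exact Finset.prod_eq_zero (mem_univ j) (by simp)
    constructor
    · refine IsUnit.prod_univ_iff.2 fun j => ?_
      have := h0 j
      rw [eval_add, eval_one, eval_mul] at this
      exact IsUnit.of_mul_eq_one (-(D + S ^ N).eval (a j)) (by linear_combination -this)
    · rw [← Finset.prod_mul_distrib, ← Finset.prod_mul_distrib]
      refine Finset.prod_congr rfl fun j _ => ?_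
      have e : B * derivative (1 + B * (D + S ^ N)) =
          derivative B * (1 + B * (D + S ^ N)) + U * V := by
        rw [← hW]
        simp only [derivative_add, derivative_one, derivative_mul, derivative_pow, hN, map_zero]
        ring
      rw [← eval_mul, e, eval_add, eval_mul, h0, mul_zero, zero_add, eval_mul]
  obtain ⟨hu, e₁⟩ := key S₁ a₁ h₁
  obtain ⟨-, e₂⟩ := key S₂ a₂ h₂
  have hsub : (∏ j, (X - C (a₁ j))) - ∏ j, (X - C (a₂ j)) = B * (S₁ ^ N - S₂ ^ N) := by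
    rw [← h₁, ← h₂]; ring
  have hB' := prod_eval_eq_of_dvd a₁ a₂ B hB (hsub ▸ dvd_mul_right _ _)
  have hV' := prod_eval_eq_of_dvd a₁ a₂ V hV (hsub ▸ hd.mul_left _)
  rw [← hB', ← hV'] at e₂
  apply hu.mul_left_cancel
  linear_combination (∏ j, U.eval (a₂ j)) * e₁ - (∏ j, U.eval (a₁ j)) * e₂

variable {p : ℕ} [Fact p.Prime] {F K A O : Type*} [Field F] [Fintype F] [Field K] [Algebra F K]
  [CharP K p] [CommRing A] [CommRing O] [IsDomain O] (L : LiftData p F K A O)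

omit [IsDomain O] in
include L in
theorem LiftData.two_unit (h2 : p ≠ 2) : IsUnit (2 : O) := by
  apply L.unit_O
  rw [map_ofNat]
  intro h
  have h' : ((2 : ℕ) : K) = 0 := by exact_mod_cast h
  rw [CharP.cast_eq_zero_iff K p] at h'
  exact h2 ((Nat.prime_dvd_prime_iff_eq Fact.out Nat.prime_two).1 h')

theorem LiftData.sign_detect {κ : ℕ} (hκ : 1 ≤ κ) (h2 : p = 2 → κ = 3) (a c : O)
    (ha : L.π a ≠ 0) (h : (p : O) ^ κ ∣ a ^ 2 - c ^ 2) {ε₁ ε₂ : ℤ}
    (h₁ : ε₁ = 1 ∨ ε₁ = -1) (h₂ : ε₂ = 1 ∨ ε₂ = -1)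
    (ha' : (2 * p : O) ∣ L.φ a - ε₁ * a) (hc' : (2 * p : O) ∣ L.φ c - ε₂ * c) : ε₁ = ε₂ := by
  have two_ne : (2 : O) ≠ 0 := by
    by_cases hp : p = 2
    · have := L.p_ne
      rw [hp] at this
      exact_mod_cast this
    · exact (L.two_unit hp).ne_zero
  have hp0 : L.π (a ^ 2 - c ^ 2) = 0 :=
    (L.ker_π _).2 ((dvd_pow_self _ (by omega)).trans h)
  have step : ∃ η : O, (η = 1 ∨ η = -1) ∧ (2 * p : O) ∣ a - η * c := by
    by_cases hp : p = 2
    · have hk := h2 hp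
      subst hp
      subst hk
      have h2K : (2 : K) = 0 := by exact_mod_cast CharP.cast_eq_zero K 2
      have e1 : L.π (a - c) = 0 := by
        have : L.π (a - c) ^ 2 = 0 := by
          rw [map_sub, map_pow, map_pow] at hp0
          rw [map_sub]
          linear_combination hp0 + (L.π c ^ 2 - L.π a * L.π c) * h2K
        exact pow_eq_zero_iff (two_ne_zero) |>.1 this
      obtain ⟨w, hw⟩ := (L.ker_π _).1 e1
      obtain ⟨z, hz⟩ := h
      push_cast at hw hz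
      have e2 : w * (c + w) = 2 * z := by
        apply mul_left_cancel₀ (pow_ne_zero 2 two_ne)
        have : a = c + 2 * w := by linear_combination hw
        rw [this] at hz
        linear_combination hz
      have e3 : L.π (w * (c + w)) = 0 := by rw [e2, map_mul, map_ofNat, h2K, zero_mul]
      rw [map_mul, mul_eq_zero] at e3
      rcases e3 with e3 | e3
      · obtain ⟨y, hy⟩ := (L.ker_π _).1 e3
        refine ⟨1, Or.inl rfl, y, ?_⟩
        push_cast at hy ⊢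
        linear_combination hw + 2 * hy
      · obtain ⟨y, hy⟩ := (L.ker_π _).1 e3
        refine ⟨-1, Or.inr rfl, y, ?_⟩
        push_cast at hy ⊢
        linear_combination hw + 2 * hy
    · have hu := L.two_unit hp
      have e : L.π (a - c) * L.π (a + c) = 0 := by
        rw [← map_mul, ← hp0]; congr 1; ring
      rcases mul_eq_zero.1 e with e | e
      · exact ⟨1, Or.inl rfl, hu.mul_left_dvd.2 (by simpa using (L.ker_π _).1 e)⟩
      · exact ⟨-1, Or.inr rfl, hu.mul_left_dvd.2 (by simpa using (L.ker_π _).1 e)⟩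
  obtain ⟨η, hη, hd⟩ := step
  have hφη : L.φ η = η := by rcases hη with rfl | rfl <;> simp
  have hd' : (2 * p : O) ∣ L.φ a - η * L.φ c := by
    have := map_dvd L.φ hd
    simpa [map_ofNat, hφη] using this
  have hfin : (2 * p : O) ∣ (ε₁ - ε₂ : O) * a := by
    have : (ε₁ - ε₂ : O) * a = (L.φ a - η * L.φ c) - (L.φ a - ε₁ * a) + η * (L.φ c - ε₂ * c)
        - ε₂ * (a - η * c) := by ring
    rw [this]
    exact dvd_sub (dvd_add (dvd_sub hd' ha') (hc'.mul_left _)) (hd.mul_left _)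
  by_contra hne
  apply ha
  rw [L.ker_π]
  obtain ⟨z, hz⟩ := hfin
  rcases h₁ with rfl | rfl <;> rcases h₂ with rfl | rfl
  · exact absurd rfl hne
  · refine ⟨z, mul_left_cancel₀ two_ne ?_⟩
    push_cast at hz
    linear_combination hz
  · refine ⟨-z, mul_left_cancel₀ two_ne ?_⟩
    push_cast at hz
    linear_combination -hz
  · exact absurd rfl hne

variable [IsAlgClosed K]

omit [Fact p.Prime] [CharP K p] in
theorem LiftData.cmp {κ n : ℕ} (B D S₁ S₂ : A[X]) (hB : B.Monic)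
    (hM₁ : (1 + B * (D + S₁ ^ p ^ κ)).Monic) (hM₂ : (1 + B * (D + S₂ ^ p ^ κ)).Monic)
    (hn₁ : (1 + B * (D + S₁ ^ p ^ κ)).natDegree = n)
    (hn₂ : (1 + B * (D + S₂ ^ p ^ κ)).natDegree = n)
    (hs₁ : ((1 + B * (D + S₁ ^ p ^ κ)).map L.ρ).Separable)
    (hs₂ : ((1 + B * (D + S₂ ^ p ^ κ)).map L.ρ).Separable)
    {R : Type*} [CommRing R] (μ : O →+* R) (hμ : ((p ^ κ : ℕ) : R) = 0)
    (U V : R[X]) (hV : V.Monic)
    (hW : (B ^ 2 * derivative D - derivative B).map (μ.comp L.ι) = U * V)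
    (hd : V ∣ (S₁.map (μ.comp L.ι)) ^ p ^ κ - (S₂.map (μ.comp L.ι)) ^ p ^ κ) :
    ∃ (α₁ α₂ : Fin n → O) (δ₁ δ₂ : O),
      (1 + B * (D + S₁ ^ p ^ κ)).map L.ι = ∏ i, (X - C (α₁ i)) ∧
      (1 + B * (D + S₂ ^ p ^ κ)).map L.ι = ∏ i, (X - C (α₂ i)) ∧
      L.π δ₁ ≠ 0 ∧ L.π δ₂ ≠ 0 ∧
      L.φ δ₁ = (((-1) ^ n * liou ((1 + B * (D + S₁ ^ p ^ κ)).map L.ρ) : ℤ) : O) * δ₁ ∧
      L.φ δ₂ = (((-1) ^ n * liou ((1 + B * (D + S₂ ^ p ^ κ)).map L.ρ) : ℤ) : O) * δ₂ ∧
      μ δ₁ ^ 2 * ∏ j, U.eval (μ (α₂ j)) = μ δ₂ ^ 2 * ∏ j, U.eval (μ (α₁ j)) := by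
  obtain ⟨α₁, δ₁, e₁, u₁, f₁, d₁⟩ := L.stick hM₁ hs₁ hn₁
  obtain ⟨α₂, δ₂, e₂, u₂, f₂, d₂⟩ := L.stick hM₂ hs₂ hn₂
  refine ⟨α₁, α₂, δ₁, δ₂, e₁, e₂, u₁, u₂, f₁, f₂, ?_⟩
  have tr : ∀ (S : A[X]) (α : Fin n → O) (δ : O),
      (1 + B * (D + S ^ p ^ κ)).map L.ι = ∏ i, (X - C (α i)) →
      ∏ i, (derivative ((1 + B * (D + S ^ p ^ κ)).map L.ι)).eval (α i) = (sgn n : O) * δ ^ 2 →
      1 + B.map (μ.comp L.ι) * (D.map (μ.comp L.ι) + (S.map (μ.comp L.ι)) ^ p ^ κ) =
        ∏ i, (X - C (μ (α i))) ∧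
      ∏ i, (derivative (1 + B.map (μ.comp L.ι) *
        (D.map (μ.comp L.ι) + (S.map (μ.comp L.ι)) ^ p ^ κ))).eval (μ (α i)) =
        (sgn n : R) * μ δ ^ 2 := by
    intro S α δ e d
    have e0 : 1 + B.map (μ.comp L.ι) * (D.map (μ.comp L.ι) + (S.map (μ.comp L.ι)) ^ p ^ κ) =
        ((1 + B * (D + S ^ p ^ κ)).map L.ι).map μ := by
      rw [Polynomial.map_map]
      simp only [Polynomial.map_add, Polynomial.map_one, Polynomial.map_mul, Polynomial.map_pow]
    constructor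
    · rw [e0, e, Polynomial.map_prod]
      simp
    · have := congrArg μ d
      rw [map_prod, map_mul, map_pow, map_intCast] at this
      rw [← this, e0]
      refine Finset.prod_congr rfl fun i _ => ?_
      rw [derivative_map, eval_map, eval₂_hom]
  obtain ⟨g₁, k₁⟩ := tr S₁ α₁ δ₁ e₁ d₁
  obtain ⟨g₂, k₂⟩ := tr S₂ α₂ δ₂ e₂ d₂
  have := cmp_ring hμ _ _ _ _ U V (hB.map _) hV _ _ g₁ g₂ (by
    rw [← hW]
    simp only [Polynomial.map_sub, Polynomial.map_mul, Polynomial.map_pow, derivative_map]) hd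
  rw [k₁, k₂] at this
  have hs : (sgn n : R) * sgn n = 1 := by rw [← Int.cast_mul, sgn_sq, Int.cast_one]
  linear_combination (sgn n : R) * this -
    (μ δ₁ ^ 2 * ∏ j, U.eval (μ (α₂ j)) - μ δ₂ ^ 2 * ∏ j, U.eval (μ (α₁ j))) * hs

end Pool.Agent.MP_4fffd4_nt

end

section

/- Lifting lemmas and elementary facts on the family `1 + B (D + S ^ N)`. -/

set_option autoImplicit false

namespace Pool.Agent.MP_4fffd4_nt

open Polynomial Finset

section Ring

variable {R : Type*} [CommRing R]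

theorem W_factor (B D Q Y : R[X]) (h : 1 + B * D = B * (Q ^ 2 + Q ^ 3) + Q ^ 4 * Y) :
    B ^ 2 * derivative D - derivative B =
      Q * (B ^ 2 * derivative Q * (2 + 3 * Q) +
        Q ^ 2 * (Q * (B * derivative Y - derivative B * Y) + 4 * (derivative Q * Y * B))) := by
  have h' := congrArg derivative h
  simp only [derivative_add, derivative_one, derivative_mul, derivative_pow, map_natCast] at h'
  push_cast at h'
  linear_combination B * h' - derivative B * h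

theorem monic_W [Nontrivial R] {B D : R[X]} (hB : B.Monic) (hD : D.Monic)
    (hd : (D.natDegree : R) = 1) : (B ^ 2 * derivative D - derivative B).Monic := by
  have h0 : D.natDegree ≠ 0 := by
    intro h; rw [h] at hd; simp at hd
  have hD' : (derivative D).Monic := by
    refine monic_of_natDegree_le_of_coeff_eq_one (D.natDegree - 1)
      (natDegree_derivative_le D) ?_
    rw [coeff_derivative, Nat.sub_add_cancel (Nat.pos_of_ne_zero h0), hD.coeff_natDegree, one_mul]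
    obtain ⟨k, hk⟩ := Nat.exists_eq_succ_of_ne_zero h0
    rw [hk] at hd ⊢
    simpa using hd
  refine Monic.sub_of_left ((hB.pow 2).mul hD') ?_
  refine (degree_derivative_lt hB.ne_zero).trans_le ?_
  rw [sq, mul_assoc, (hB.mul hD').degree_mul]
  exact le_add_of_nonneg_right (zero_le_degree_iff.2 (hB.mul hD').ne_zero)

theorem fam_monic [Nontrivial R] {B D S : R[X]} {N : ℕ} (hB : B.Monic) (hS : S.Monic)
    (h : D.natDegree < N * S.natDegree) :
    (1 + B * (D + S ^ N)).Monic ∧ (1 + B * (D + S ^ N)).natDegree = B.natDegree + N * S.natDegree := by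
  have h1 : (S ^ N).natDegree = N * S.natDegree := hS.natDegree_pow N
  have h2 : (D + S ^ N).Monic :=
    (hS.pow N).add_of_right (degree_lt_degree (by omega))
  have h3 : (D + S ^ N).natDegree = N * S.natDegree := by
    rw [natDegree_add_eq_right_of_natDegree_lt (by omega), h1]
  have h4 : (B * (D + S ^ N)).natDegree = B.natDegree + N * S.natDegree := by
    rw [hB.natDegree_mul h2, h3]
  refine ⟨(hB.mul h2).add_of_right (degree_lt_degree (by rw [h4, natDegree_one]; omega)), ?_⟩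
  rw [natDegree_add_eq_right_of_natDegree_lt (by rw [h4, natDegree_one]; omega), h4]

theorem fam_separable {N : ℕ} (hN : (N : R) = 0) (B D S : R[X])
    (h : IsCoprime (1 + B * (D + S ^ N)) (B ^ 2 * derivative D - derivative B)) :
    (1 + B * (D + S ^ N)).Separable := by
  have e : B ^ 2 * derivative D - derivative B = B * derivative (1 + B * (D + S ^ N)) +
      (1 + B * (D + S ^ N)) * (-derivative B) := by
    simp only [derivative_add, derivative_one, derivative_mul, derivative_pow, hN, map_zero]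
    ring
  rw [e] at h
  exact h.of_add_mul_left_right.of_mul_right_right

theorem dvd_of_map_eq_zero {S : Type*} [CommRing S] (ν : R →+* S) {p : ℕ}
    (hν : ∀ x, ν x = 0 → (p : R) ∣ x) {G : R[X]} (hG : G.map ν = 0) : (p : R[X]) ∣ G := by
  rw [← map_natCast (C : R →+* R[X]), C_dvd_iff_dvd_coeff]
  intro i
  apply hν
  rw [← coeff_map, hG, coeff_zero]

end Ring

variable {p : ℕ} {F K A O : Type*} [Field F] [Fintype F] [Field K] [Algebra F K]
  [CommRing A] [CommRing O] (L : LiftData p F K A O)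

theorem LiftData.lift_monic {g : F[X]} (hg : g.Monic) :
    ∃ G : A[X], G.Monic ∧ G.map L.ρ = g ∧ G.natDegree = g.natDegree := by
  obtain ⟨G, h1, h2, h3⟩ := lifts_and_natDegree_eq_and_monic
    (Polynomial.map_surjective L.ρ L.ρ_surj g) hg
  exact ⟨G, h3, h1, h2⟩

theorem LiftData.exists_lifts {β c P : F[X]} (hβ : β.Monic) (hc : c.Monic) (hP : P.Monic)
    (hPi : Irreducible P) (hPβ : ¬ P ∣ β) (hcong : P ^ 4 ∣ 1 + β * c - β * (P ^ 2 + P ^ 3))
    (hdeg : 4 * P.natDegree < c.natDegree) :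
    ∃ B D Q Y : A[X], B.Monic ∧ D.Monic ∧ Q.Monic ∧ B.map L.ρ = β ∧ D.map L.ρ = c ∧
      Q.map L.ρ = P ∧ 1 + B * D = B * (Q ^ 2 + Q ^ 3) + Q ^ 4 * Y := by
  have : Nontrivial A := L.ρ.domain_nontrivial
  obtain ⟨B, hB, hBβ, hBd⟩ := L.lift_monic hβ
  obtain ⟨D₀, hD₀, hD₀c, hD₀d⟩ := L.lift_monic hc
  obtain ⟨Q, hQ, hQP, hQd⟩ := L.lift_monic hP
  obtain ⟨r, hr⟩ := hcong
  obtain ⟨Y₀, rfl⟩ := Polynomial.map_surjective L.ρ L.ρ_surj r
  have h1 : (1 + B * D₀ - B * (Q ^ 2 + Q ^ 3) - Q ^ 4 * Y₀).map L.ρ = 0 := by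
    simp only [Polynomial.map_sub, Polynomial.map_add, Polynomial.map_mul, Polynomial.map_pow,
      Polynomial.map_one, hBβ, hD₀c, hQP]
    rw [hr, sub_self]
  obtain ⟨E, hE⟩ := dvd_of_map_eq_zero L.ρ (fun x hx => (L.ker_ρ x).1 hx) h1
  have hcop : IsCoprime (Q ^ 4) B := by
    rw [← isUnit_resultant_iff_isCoprime (hQ.pow 4)]
    apply L.unit_A
    rw [← resultant_map_map, Polynomial.map_pow, hQP, hBβ, hBd, (hQ.natDegree_pow 4), hQd,
      ← hP.natDegree_pow 4]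
    exact resultant_ne_zero _ _ ((hPi.coprime_iff_not_dvd.2 hPβ).pow_left)
  obtain ⟨V, U, hUV⟩ := hcop
  have hQ4 : (Q ^ 4).Monic := hQ.pow 4
  set Δ := (U * E) %ₘ Q ^ 4 with hΔ
  have hΔ' : Δ + Q ^ 4 * ((U * E) /ₘ Q ^ 4) = U * E := modByMonic_add_div _ _
  have hΔd : ((p : A[X]) * Δ).degree < D₀.degree := by
    have a1 : Δ.degree < (Q ^ 4).degree := degree_modByMonic_lt _ hQ4
    have a2 : (Q ^ 4).degree ≤ D₀.degree := by
      rw [degree_eq_natDegree hQ4.ne_zero, degree_eq_natDegree hD₀.ne_zero, hQ.natDegree_pow,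
        hQd, hD₀d]
      exact_mod_cast hdeg.le
    rw [← nsmul_eq_mul]
    exact ((degree_smul_le _ _).trans_lt a1).trans_le a2
  refine ⟨B, D₀ - p * Δ, Q, Y₀ + p * (V * E + B * ((U * E) /ₘ Q ^ 4)), hB,
    hD₀.sub_of_left hΔd, hQ, hBβ, ?_, hQP, ?_⟩
  · have hp : ((p : A[X]).map L.ρ) = 0 := by
      rw [Polynomial.map_natCast, ← map_natCast (C : F →+* F[X]), ← map_natCast L.ρ,
        (L.ker_ρ _).2 dvd_rfl, map_zero]
    rw [Polynomial.map_sub, Polynomial.map_mul, hp, zero_mul, sub_zero, hD₀c]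
  · linear_combination hE - (p : A[X]) * B * hΔ' - (p : A[X]) * E * hUV

theorem LiftData.pow_congr {κ : ℕ} {R : Type*} [CommRing R] (μ : O →+* R) (ν : R →+* K)
    (hνμ : ∀ x, ν (μ x) = L.π x) (hν : ∀ x, ν x = 0 → (p : R) ∣ x) (hμ : ((p ^ κ : ℕ) : R) = 0)
    (S₁ S₂ : A[X]) (V : R[X]) (v : F[X]) (hV : V.map ν = v.map (algebraMap F K))
    (hd : v ∣ S₁.map L.ρ - S₂.map L.ρ) :
    V ∣ (S₁.map (μ.comp L.ι)) ^ p ^ κ - (S₂.map (μ.comp L.ι)) ^ p ^ κ := by
  obtain ⟨y, hy⟩ := hd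
  obtain ⟨Y, rfl⟩ := Polynomial.map_surjective L.ρ L.ρ_surj y
  have hm : ∀ G : A[X], (G.map (μ.comp L.ι)).map ν = (G.map L.ρ).map (algebraMap F K) := by
    intro G
    rw [Polynomial.map_map, Polynomial.map_map]
    congr 1
    ext a
    simp [hνμ, L.πι]
  have h1 : (S₁.map (μ.comp L.ι) - (S₂.map (μ.comp L.ι) + V * Y.map (μ.comp L.ι))).map ν = 0 := by
    rw [Polynomial.map_sub, Polynomial.map_add, Polynomial.map_mul, hm, hm, hm, hV,
      ← Polynomial.map_mul, ← hy, ← Polynomial.map_add, ← Polynomial.map_sub]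
    simp
  have h2 := dvd_sub_pow_of_dvd_sub (dvd_of_map_eq_zero ν hν h1) κ
  have h3 : ((p : R[X]) ^ (κ + 1)) = 0 := by
    rw [pow_succ, ← Nat.cast_pow, ← map_natCast (C : R →+* R[X]), hμ, map_zero, zero_mul]
  rw [h3, zero_dvd_iff, sub_eq_zero] at h2
  rw [h2]
  refine Dvd.dvd.trans ?_ (sub_dvd_pow_sub_pow _ _ _)
  rw [add_sub_cancel_left]
  exact dvd_mul_right _ _

end Pool.Agent.MP_4fffd4_nt

end
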