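import Mathlib
import Pool.Agent.MP_4fffd4_nt.Stick

section

/- Residues modulo an irreducible polynomial with prescribed norm or trace. -/

set_option autoImplicit false

namespace Pool.Agent.MP_4fffd4_nt

open Polynomial Finset

variable {F K : Type*} [Field F] [Fintype F] [Field K] [Algebra F K]

theorem mem_range_of_pow_card {z : K} (hz : z ^ Fintype.card F = z) :
    ∃ a : F, algebraMap F K a = z := by
  classical
  have h1 : 1 < Fintype.card F := Fintype.one_lt_card
  have hm : (X ^ Fintype.card F - X : F[X]).Monic := by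
    apply Monic.sub_of_left (monic_X_pow _)
    rw [degree_X_pow, degree_X]
    exact_mod_cast h1
  have h2 := prod_multiset_X_sub_C_of_monic_of_roots_card_eq hm (by
    rw [FiniteField.roots_X_pow_card_sub_X, FiniteField.X_pow_card_sub_X_natDegree_eq F h1]
    simp)
  rw [FiniteField.roots_X_pow_card_sub_X] at h2
  have h3 : aeval z (∏ a : F, (X - C a)) = 0 := by
    rw [Finset.prod_eq_multiset_prod, h2]
    simp [hz]
  rw [map_prod, Finset.prod_eq_zero_iff] at h3
  obtain ⟨a, -, ha⟩ := h3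
  exact ⟨a, Eq.symm (by simpa [sub_eq_zero] using ha)⟩

variable [IsAlgClosed K]

theorem exists_embeddings {P : F[X]} [Fact (Irreducible P)] {d : ℕ} (t : Fin d → K)
    (ht : Function.Injective t) (hP : P.map (algebraMap F K) = ∏ j, (X - C (t j))) :
    ∃ e : Fin d → (AdjoinRoot P →ₐ[F] K), Function.Bijective e ∧
      ∀ j y, e j (AdjoinRoot.mk P y) = aeval (t j) y := by
  have hroot : ∀ j, P.eval₂ (Algebra.ofId F K) (t j) = 0 := by
    intro j
    have : (P.map (algebraMap F K)).eval (t j) = 0 := by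
      rw [hP, eval_prod]
      exact Finset.prod_eq_zero (mem_univ j) (by simp)
    rwa [eval_map] at this
  refine ⟨fun j => AdjoinRoot.liftAlgHom P (Algebra.ofId F K) (t j) (hroot j), ⟨?_, ?_⟩, ?_⟩
  · intro i j h
    apply ht
    have := congrArg (fun σ : AdjoinRoot P →ₐ[F] K => σ (AdjoinRoot.root P)) h
    simpa using this
  · intro σ
    have h1 : (P.map (algebraMap F K)).eval (σ (AdjoinRoot.root P)) = 0 := by
      rw [eval_map_algebraMap, aeval_algHom_apply, AdjoinRoot.aeval_eq, AdjoinRoot.mk_self,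
        map_zero]
    rw [hP, eval_prod, Finset.prod_eq_zero_iff] at h1
    obtain ⟨j, -, hj⟩ := h1
    refine ⟨j, AdjoinRoot.algHom_ext ?_⟩
    rw [AdjoinRoot.liftAlgHom_root]
    exact (by simpa [sub_eq_zero] using hj : σ (AdjoinRoot.root P) = t j).symm
  · intro j y
    rw [AdjoinRoot.liftAlgHom_mk]
    rfl

theorem odd_residue (h2 : ringChar F ≠ 2) {P : F[X]} (hP : Irreducible P) {d : ℕ} (t : Fin d → K)
    (ht : Function.Injective t) (hPt : P.map (algebraMap F K) = ∏ j, (X - C (t j))) :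
    ∃ (y : F[X]) (η : K), ¬ P ∣ y ∧ η ^ Fintype.card F = -η ∧ η ^ 2 = ∏ j, aeval (t j) y := by
  have : Fact (Irreducible P) := ⟨hP⟩
  have : FiniteDimensional F (AdjoinRoot P) := (AdjoinRoot.powerBasis hP.ne_zero).finite
  have : Finite (AdjoinRoot P) := Module.finite_of_finite F
  obtain ⟨e, he, hey⟩ := exists_embeddings t ht hPt
  obtain ⟨ν, hν⟩ := FiniteField.exists_nonsquare h2
  obtain ⟨u, hu⟩ := FiniteField.norm_surjective F (AdjoinRoot P) ν
  obtain ⟨y, rfl⟩ := AdjoinRoot.mk_surjective u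
  obtain ⟨η, hη⟩ := IsAlgClosed.exists_pow_nat_eq (algebraMap F K ν) two_pos
  refine ⟨y, η, ?_, ?_, ?_⟩
  · intro h
    rw [AdjoinRoot.mk_eq_zero.2 h, Algebra.norm_zero] at hu
    exact hν (hu ▸ IsSquare.zero)
  · have h1 : (η ^ Fintype.card F) ^ 2 = η ^ 2 := by
      rw [← pow_mul, mul_comm, pow_mul, hη, ← map_pow, FiniteField.pow_card]
    rcases sq_eq_sq_iff_eq_or_eq_neg.1 h1 with h | h
    · obtain ⟨a, rfl⟩ := mem_range_of_pow_card h
      rw [← map_pow] at hη
      exact absurd ⟨a, by rw [← (algebraMap F K).injective hη, sq]⟩ hν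
    · exact h
  · rw [hη, ← hu, Algebra.norm_eq_prod_embeddings]
    exact (Fintype.prod_bijective e he _ _ fun j => (hey j y).symm).symm

theorem even_residue [CharP F 2] {P : F[X]} (hP : Irreducible P) (hX : ¬ P ∣ X)
    (hX1 : ¬ P ∣ X - 1) {d : ℕ} (t : Fin d → K)
    (ht : Function.Injective t) (hPt : P.map (algebraMap F K) = ∏ j, (X - C (t j))) :
    ∃ (y₁ y₂ : F[X]) (z : K), ¬ P ∣ y₁ ∧ ¬ P ∣ y₂ ∧ z ^ Fintype.card F = z + 1 ∧
      z ^ 2 + z = ∑ j, ((aeval (t j) y₁)⁻¹ + (aeval (t j) y₂)⁻¹) := by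
  have : Fact (Irreducible P) := ⟨hP⟩
  have : FiniteDimensional F (AdjoinRoot P) := (AdjoinRoot.powerBasis hP.ne_zero).finite
  have : Finite (AdjoinRoot P) := Module.finite_of_finite F
  have : CharP K 2 := charP_of_injective_algebraMap (algebraMap F K).injective 2
  have h2K : (2 : K) = 0 := by exact_mod_cast CharP.cast_eq_zero K 2
  have h2F : (2 : F) = 0 := by exact_mod_cast CharP.cast_eq_zero F 2
  obtain ⟨e, he, hey⟩ := exists_embeddings t ht hPt
  obtain ⟨ν, hν⟩ : ∃ ν : F, ∀ a : F, a ^ 2 + a ≠ ν := by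
    by_contra h
    push Not at h
    have hs : Function.Surjective fun a : F => a ^ 2 + a := h
    have := Finite.injective_iff_surjective.2 hs (a₁ := 0) (a₂ := 1) (by
      linear_combination -h2F)
    exact zero_ne_one this
  obtain ⟨z, hz⟩ : ∃ z : K, z ^ 2 + z = algebraMap F K ν := by
    obtain ⟨z, hz⟩ := IsAlgClosed.exists_root (X ^ 2 + X - C (algebraMap F K ν)) (by
      have : (X ^ 2 + X - C (algebraMap F K ν)).degree = 2 := by compute_degree!
      rw [this]; decide)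
    exact ⟨z, by simpa [sub_eq_zero] using hz⟩
  obtain ⟨u, hu⟩ := Algebra.trace_surjective F (AdjoinRoot P) ν
  obtain ⟨w, hw0, hwu⟩ : ∃ w : AdjoinRoot P, w ≠ 0 ∧ w ≠ u := by
    by_cases h : u = 1
    · refine ⟨AdjoinRoot.mk P X, fun h' => hX (AdjoinRoot.mk_eq_zero.1 h'), fun h' => hX1 ?_⟩
      rw [← AdjoinRoot.mk_eq_zero, map_sub, h', h, map_one, sub_self]
    · exact ⟨1, one_ne_zero, fun h' => h h'.symm⟩
  obtain ⟨y₁, hy₁⟩ := AdjoinRoot.mk_surjective (u - w)⁻¹
  obtain ⟨y₂, hy₂⟩ := AdjoinRoot.mk_surjective w⁻¹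
  refine ⟨y₁, y₂, z, ?_, ?_, ?_, ?_⟩
  · intro h
    rw [AdjoinRoot.mk_eq_zero.2 h, eq_comm, inv_eq_zero, sub_eq_zero] at hy₁
    exact hwu hy₁.symm
  · intro h
    rw [AdjoinRoot.mk_eq_zero.2 h, eq_comm, inv_eq_zero] at hy₂
    exact hw0 hy₂
  · have h1 : (z ^ Fintype.card F) ^ 2 + z ^ Fintype.card F = z ^ 2 + z := by
      have := congrArg (FiniteField.frobeniusAlgHom F K) hz
      rw [map_add, map_pow, AlgHom.commutes, ← hz] at this
      exact this
    have h3 : (z ^ Fintype.card F - z) * (z ^ Fintype.card F - (z + 1)) = 0 := by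
      linear_combination h1 + (z ^ 2 + z - z * z ^ Fintype.card F - z ^ Fintype.card F) * h2K
    rcases mul_eq_zero.1 h3 with h | h
    · obtain ⟨a, rfl⟩ := mem_range_of_pow_card (sub_eq_zero.1 h)
      rw [← map_pow, ← map_add] at hz
      exact absurd ((algebraMap F K).injective hz) (hν a)
    · exact sub_eq_zero.1 h
  · rw [hz, ← hu, trace_eq_sum_embeddings K]
    refine (Fintype.sum_bijective e he _ _ fun j => ?_).symm
    rw [← hey, ← hey, hy₁, hy₂, map_inv₀, map_inv₀, inv_inv, inv_inv, map_sub, sub_add_cancel]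

end Pool.Agent.MP_4fffd4_nt

end

section

/- Van der Corput differencing on finite abelian groups, and complete sums in
characteristic two. -/

set_option autoImplicit false

namespace Pool.Agent.MP_4fffd4_nt

open Polynomial Finset
open scoped BigOperators

open Classical in
/-- The indicator of a proposition. -/
noncomputable def ind (P : Prop) : ℝ := if P then 1 else 0

theorem ind_nonneg (P : Prop) : 0 ≤ ind P := by unfold ind; split_ifs <;> norm_num

theorem ind_le_one (P : Prop) : ind P ≤ 1 := by unfold ind; split_ifs <;> norm_num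

theorem ind_pos {P : Prop} (h : P) : ind P = 1 := by unfold ind; rw [if_pos h]

theorem ind_neg {P : Prop} (h : ¬ P) : ind P = 0 := by unfold ind; rw [if_neg h]

theorem ind_mono {P Q : Prop} (h : P → Q) : ind P ≤ ind Q := by
  by_cases hP : P
  · rw [ind_pos hP, ind_pos (h hP)]
  · rw [ind_neg hP]; exact ind_nonneg _

theorem ind_le_sum {ι : Type*} {P : Prop} {s : Finset ι} {Q : ι → Prop} (h : P → ∃ i ∈ s, Q i) :
    ind P ≤ ∑ i ∈ s, ind (Q i) := by
  by_cases hP : P
  · obtain ⟨i, hi, hQ⟩ := h hP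
    rw [ind_pos hP, ← ind_pos hQ]
    exact Finset.single_le_sum (f := fun i => ind (Q i)) (fun _ _ => ind_nonneg _) hi
  · rw [ind_neg hP]; exact Finset.sum_nonneg fun _ _ => ind_nonneg _

theorem ind_le_add {P Q R : Prop} (h : P → Q ∨ R) : ind P ≤ ind Q + ind R := by
  by_cases hP : P
  · rw [ind_pos hP]
    rcases h hP with h | h
    · rw [ind_pos h]; linarith [ind_nonneg R]
    · rw [ind_pos h]; linarith [ind_nonneg Q]
  · rw [ind_neg hP]; exact add_nonneg (ind_nonneg _) (ind_nonneg _)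

theorem sum_ind_le {α β : Type*} [Fintype α] {P : α → Prop} (S : Finset β) (f : α → β)
    (hf : ∀ x y, P x → P y → f x = f y → x = y) (h : ∀ x, P x → f x ∈ S) :
    ∑ x, ind (P x) ≤ S.card := by
  classical
  have : ∑ x, ind (P x) = (univ.filter P).card := by
    rw [Finset.card_filter]
    push_cast
    exact Finset.sum_congr rfl fun x _ => by unfold ind; congr
  rw [this, Nat.cast_le]
  exact Finset.card_le_card_of_injOn f (fun x hx => h x (by simpa using hx))
    fun x hx y hy => hf x y (by simpa using hx) (by simpa using hy)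

theorem expect_ind_le {α : Type*} [Fintype α] {P : α → Prop} (S : Finset α)
    (h : ∀ x, P x → x ∈ S) : 𝔼 x, ind (P x) ≤ S.card / Fintype.card α := by
  rw [Fintype.expect_eq_sum_div_card]
  exact div_le_div_of_nonneg_right (sum_ind_le S id (fun _ _ _ _ e => e) h) (Nat.cast_nonneg _)

section Group

variable {V H : Type*} [AddCommGroup V] [Fintype V] [AddCommGroup H] [Fintype H]

theorem expect_shift (g : V → ℝ) (v : V) : 𝔼 x, g (x + v) = 𝔼 x, g x :=
  Fintype.expect_equiv (Equiv.addRight v) _ _ fun _ => rfl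

omit [AddCommGroup H] in
theorem expect_avg [Nonempty H] (g : V → ℝ) (θ : H → V) :
    𝔼 x, g x = 𝔼 x, 𝔼 u, g (x + θ u) := by
  rw [Finset.expect_comm]
  simp only [expect_shift]
  rw [Fintype.expect_const]

theorem expect_surj (f : V →+ H) (hf : Function.Surjective f) (g : H → ℝ) :
    𝔼 x, g (f x) = 𝔼 y, g y := by
  obtain ⟨r, hr⟩ := hf.hasRightInverse
  rw [expect_avg (fun x => g (f x)) r]
  simp only [map_add, hr _, add_comm (f _), expect_shift]
  rw [Fintype.expect_const]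

theorem sq_expect_le {α : Type*} [Fintype α] [Nonempty α] (g : α → ℝ) :
    (𝔼 x, g x) ^ 2 ≤ 𝔼 x, g x ^ 2 := by
  simpa using Finset.expect_mul_sq_le_sq_mul_sq univ g (fun _ => 1)

theorem vdc_step (g : V → ℝ) (θ : H →+ V) :
    (𝔼 x, g x) ^ 2 ≤ 𝔼 u, 𝔼 x, g x * g (x + θ u) := by
  rw [expect_avg g θ]
  refine (sq_expect_le _).trans_eq ?_
  simp only [sq, Fintype.expect_mul_expect]
  rw [Finset.expect_comm]
  have : ∀ u, 𝔼 x, 𝔼 u', g (x + θ u) * g (x + θ u') = 𝔼 u', 𝔼 x, g x * g (x + θ u') := by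
    intro u
    rw [Finset.expect_comm, ← expect_shift (fun u' => 𝔼 x, g (x + θ u) * g (x + θ u')) u]
    refine Finset.expect_congr rfl fun u' _ => ?_
    rw [← expect_shift (fun x => g x * g (x + θ u')) (θ u)]
    simp only [map_add, add_assoc, add_comm (θ u)]
  simp only [this]
  rw [Fintype.expect_const]

end Group

section Cube

variable {V K ι : Type*} [AddCommGroup V] [AddCommMonoid K] [DecidableEq ι]

/-- The iterated sum of `φ` over the cube spanned by the shifts `h j`, `j ∈ s`. -/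
def cube (s : Finset ι) (h : ι → V) (φ : V → K) (x : V) : K :=
  ∑ ω ∈ s.powerset, φ (x + ∑ j ∈ ω, h j)

omit [DecidableEq ι] in
theorem cube_empty (h : ι → V) (φ : V → K) (x : V) : cube ∅ h φ x = φ x := by simp [cube]

theorem cube_insert {s : Finset ι} {a : ι} (ha : a ∉ s) (h : ι → V) (φ : V → K) (x : V) :
    cube (insert a s) h φ x = cube s h φ x + cube s h φ (x + h a) := by
  unfold cube
  rw [Finset.sum_powerset_insert ha]
  congr 1
  refine Finset.sum_congr rfl fun ω hω => ?_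
  rw [Finset.sum_insert (fun e => ha (mem_powerset.1 hω e)), add_assoc]

omit [DecidableEq ι] in
theorem cube_congr {s : Finset ι} {h h' : ι → V} (e : ∀ j ∈ s, h j = h' j) (φ : V → K) (x : V) :
    cube s h φ x = cube s h' φ x :=
  Finset.sum_congr rfl fun ω hω => by
    rw [Finset.sum_congr rfl fun j hj => e j (mem_powerset.1 hω hj)]

theorem cube_eq_zero {s t : Finset ι} (hts : t ⊆ s) (h : ι → V) (φ : V → K)
    (ht : ∀ x, cube t h φ x = 0) : ∀ x, cube s h φ x = 0 := by
  rw [← Finset.union_eq_right.2 hts]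
  clear hts
  induction s using Finset.induction with
  | empty => simpa using ht
  | insert a s _ IH =>
    intro x
    rw [Finset.union_insert]
    by_cases ha : a ∈ t ∪ s
    · rw [Finset.insert_eq_of_mem ha, IH]
    · rw [cube_insert ha, IH, IH, add_zero]

theorem vdc {H : Type*} [Fintype V] [AddCommGroup H] [Fintype H] [Fintype ι] (e : K → ℝ)
    (he : ∀ a b, e (a + b) = e a * e b) (θ : ι → H →+ V) (φ : V → K) (s : Finset ι) :
    |𝔼 x, e (φ x)| ^ 2 ^ s.card ≤ 𝔼 y : ι → H, |𝔼 x, e (cube s (fun j => θ j (y j)) φ x)| := by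
  induction s using Finset.induction with
  | empty => simp [cube_empty]
  | insert a s ha IH =>
    rw [card_insert_of_notMem ha, pow_succ, pow_mul]
    refine (pow_le_pow_left₀ (by positivity) IH 2).trans ((sq_expect_le _).trans ?_)
    rw [expect_avg (fun y : ι → H => |𝔼 x, e (cube (insert a s) (fun j => θ j (y j)) φ x)|)
      (fun u : H => Pi.single a u)]
    refine Finset.expect_le_expect fun y _ => ?_
    rw [sq_abs]
    refine (vdc_step _ (θ a)).trans ?_
    rw [← expect_shift (fun u => 𝔼 x, e (cube s (fun j => θ j (y j)) φ x) *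
      e (cube s (fun j => θ j (y j)) φ (x + θ a u))) (y a)]
    refine Finset.expect_le_expect fun u _ => le_trans (le_of_eq ?_) (le_abs_self _)
    refine Finset.expect_congr rfl fun x _ => ?_
    have hc : ∀ x, cube s (fun j => θ j ((y + Pi.single a u : ι → H) j)) φ x =
        cube s (fun j => θ j (y j)) φ x := fun x => cube_congr (fun j hj => by
      rw [Pi.add_apply, Pi.single_eq_of_ne (fun e : j = a => ha (e ▸ hj)), add_zero]) φ x
    rw [cube_insert ha, he, hc, hc, Pi.add_apply, Pi.single_eq_same, add_comm u]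

end Cube

section Field

variable {k : Type*} [Field k] [Fintype k]

theorem expect_root_le (p : k[X]) (hp : p ≠ 0) {N : ℕ} (hN : p.natDegree ≤ N) :
    𝔼 z, ind (p.eval z = 0) ≤ N / Fintype.card k := by
  classical
  refine (expect_ind_le p.roots.toFinset fun z hz => by simpa [hp] using hz).trans ?_
  gcongr
  exact (Multiset.toFinset_card_le _).trans ((card_roots' p).trans hN)

theorem expect_pole_le {J : Type*} (T : Finset J) (κ a ε : J → k) (ha : ∀ j ∈ T, a j ≠ 0)
    {j₀ : J} (hj₀ : j₀ ∈ T) (hκ : κ j₀ ≠ 0) {z₀ : k} (h₀ : a j₀ * z₀ + ε j₀ = 0)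
    (h₁ : ∀ j ∈ T, j ≠ j₀ → a j * z₀ + ε j ≠ 0) :
    𝔼 z, ind (∑ j ∈ T, κ j / (a j * z + ε j) ^ 2 = 0) ≤ 3 * T.card / Fintype.card k := by
  classical
  set p : k[X] := (∑ j ∈ T, C (κ j) * ∏ j' ∈ T.erase j, (C (a j') * X + C (ε j')) ^ 2) *
    ∏ j ∈ T, (C (a j) * X + C (ε j)) with hp
  have hl : ∀ j, (C (a j) * X + C (ε j)).natDegree ≤ 1 := fun j => by compute_degree
  have hd : p.natDegree ≤ 3 * T.card := by
    refine natDegree_mul_le.trans ?_
    have h1 : (∑ j ∈ T, C (κ j) * ∏ j' ∈ T.erase j, (C (a j') * X + C (ε j')) ^ 2).natDegree ≤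
        2 * T.card := by
      refine natDegree_sum_le_of_forall_le _ _ fun j _ => (natDegree_C_mul_le _ _).trans ?_
      refine (natDegree_prod_le _ _).trans ((Finset.sum_le_card_nsmul _ _ 2 fun j' _ => ?_).trans ?_)
      · exact natDegree_pow_le.trans (by have := hl j'; omega)
      · have := card_erase_le (s := T) (a := j)
        rw [smul_eq_mul]; omega
    have h2 : (∏ j ∈ T, (C (a j) * X + C (ε j))).natDegree ≤ T.card :=
      (natDegree_prod_le _ _).trans ((Finset.sum_le_card_nsmul _ _ 1 fun j _ => hl j).trans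
        (by simp))
    omega
  have h0 : p ≠ 0 := by
    refine mul_ne_zero (fun h => ?_) (Finset.prod_ne_zero_iff.2 fun j hj h => ?_)
    · have := congrArg (eval z₀) h
      simp only [eval_finset_sum, eval_mul, eval_C, eval_prod, eval_pow, eval_add, eval_X,
        eval_zero] at this
      rw [Finset.sum_eq_single_of_mem j₀ hj₀] at this
      · refine mul_ne_zero hκ (Finset.prod_ne_zero_iff.2 fun j hj => pow_ne_zero _ ?_) this
        exact h₁ j (mem_of_mem_erase hj) (ne_of_mem_erase hj)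
      · intro j _ hj
        rw [Finset.prod_eq_zero (mem_erase.2 ⟨hj.symm, hj₀⟩) (by rw [h₀]; simp), mul_zero]
    · have := congrArg (fun q => q.coeff 1) h
      simp [coeff_C, coeff_X] at this
      exact ha j hj this
  refine le_trans (Finset.expect_le_expect fun z _ => ind_mono fun hz => ?_)
    ((expect_root_le p h0 hd).trans_eq (by push_cast; rfl))
  simp only [hp, eval_finset_sum, eval_mul, eval_C, eval_prod, eval_pow, eval_add, eval_X]
  by_cases hz' : ∏ j ∈ T, (a j * z + ε j) = 0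
  · rw [hz', mul_zero]
  refine mul_eq_zero_of_left ?_ _
  rw [← mul_zero (∏ j ∈ T, (a j * z + ε j) ^ 2), ← hz, Finset.mul_sum]
  refine Finset.sum_congr rfl fun j hj => ?_
  rw [← Finset.mul_prod_erase _ _ hj]
  rw [mul_right_comm, mul_div_cancel₀ _ (pow_ne_zero 2 (Finset.prod_ne_zero_iff.1 hz' j hj))]

variable [CharP k 2] {ψ : k → ℝ} (hadd : ∀ a b, ψ (a + b) = ψ a * ψ b)
  (hle : ∀ a, |ψ a| ≤ 1) (hsq : ∀ a, ψ (a ^ 2) = ψ a) (hν : ∃ ν, ψ ν = -1)

include hadd hν in
theorem expect_char_eq_zero {κ : k} (hκ : κ ≠ 0) : 𝔼 Y, ψ (κ * Y ^ 2) = 0 := by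
  obtain ⟨ν, hν⟩ := hν
  obtain ⟨y, hy⟩ := (bijective_frobenius k 2).2 (ν / κ)
  rw [frobenius_def] at hy
  have := expect_shift (fun Y => ψ (κ * Y ^ 2)) y
  simp only [CharTwo.add_sq, mul_add, hadd, hy, mul_div_cancel₀ _ hκ, hν, mul_neg, mul_one,
    Finset.expect_neg_distrib] at this
  linarith

include hadd hle hsq hν in
theorem expect_cubic_le {c₃ : k} (hc : c₃ ≠ 0) (c₂ c₁ c₀ : k) {η : ℝ} (hη : 0 ≤ η)
    (hη' : 4 / Fintype.card k ≤ η ^ 2) :
    |𝔼 Y, ψ (c₃ * (Y ^ 2) ^ 3 + c₂ * (Y ^ 2) ^ 2 + c₁ * Y ^ 2 + c₀)| ≤ η := by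
  have h2 : (2 : k) = 0 := by exact_mod_cast CharP.cast_eq_zero k 2
  rw [Fintype.expect_bijective (frobenius k 2) (bijective_frobenius k 2)
    (fun Y => ψ (c₃ * (Y ^ 2) ^ 3 + c₂ * (Y ^ 2) ^ 2 + c₁ * Y ^ 2 + c₀))
    (fun Y => ψ (c₃ * Y ^ 3 + c₂ * Y ^ 2 + c₁ * Y + c₀)) (fun _ => rfl)]
  refine abs_le_of_sq_le_sq' ((vdc_step _ (AddMonoidHom.id k)).trans (le_trans ?_ hη')) hη |>
    abs_le.2
  have hp : (C c₃ * X + C (c₃ ^ 2) * X ^ 4 : k[X]) ≠ 0 := by
    intro h
    have := congrArg (fun q => q.coeff 1) h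
    simp only [coeff_add, coeff_C_mul, coeff_X_one, coeff_X_pow, coeff_zero] at this
    exact hc (by simpa using this)
  refine le_trans (Finset.expect_le_expect fun z _ => ?_)
    ((expect_root_le _ hp (N := 4) (by compute_degree)).trans_eq (by push_cast; rfl))
  have : ∀ Y, ψ (c₃ * Y ^ 3 + c₂ * Y ^ 2 + c₁ * Y + c₀) *
      ψ (c₃ * (Y + z) ^ 3 + c₂ * (Y + z) ^ 2 + c₁ * (Y + z) + c₀) =
      ψ (c₃ * z ^ 3 + c₂ * z ^ 2 + c₁ * z) * ψ ((c₃ * z + c₃ ^ 2 * z ^ 4) * Y ^ 2) := by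
    intro Y
    rw [add_mul, hadd (c₃ * z * Y ^ 2),
      show c₃ ^ 2 * z ^ 4 * Y ^ 2 = (c₃ * z ^ 2 * Y) ^ 2 by ring, hsq, ← hadd, ← hadd, ← hadd]
    congr 1
    linear_combination (c₃ * Y ^ 3 + c₂ * Y ^ 2 + c₁ * Y + c₀ + c₃ * Y ^ 2 * z + c₃ * Y * z ^ 2 +
      c₂ * Y * z) * h2
  simp only [AddMonoidHom.id_apply, this, ← Finset.mul_expect, eval_add, eval_mul, eval_C, eval_X,
    eval_pow]
  by_cases hz : c₃ * z + c₃ ^ 2 * z ^ 4 = 0
  · rw [ind_pos hz]
    refine (le_abs_self _).trans ?_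
    rw [abs_mul]
    exact mul_le_one₀ (hle _) (abs_nonneg _) ((Finset.abs_expect_le _ _).trans
      (Finset.expect_le univ_nonempty fun Y _ => hle _))
  · rw [expect_char_eq_zero hadd hν hz, mul_zero, ind_neg hz]

include hadd hle hsq hν in
theorem local_bound {V H W ι I : Type*} [AddCommGroup V] [Fintype V] [AddCommGroup H] [Fintype H]
    [AddCommGroup W] [Fintype W] [Fintype ι] [DecidableEq ι] (Θ Θ' : V →+ k)
    (hΘ : Function.Surjective Θ) (θ : ι → H →+ V)
    (hθ : ∀ j, Function.Surjective (Θ.comp (θ j))) (ϑ : W →+ V) (hϑ : ∀ r, Θ (ϑ r) = 0)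
    (hϑ' : Function.Surjective (Θ'.comp ϑ)) (T : Finset I) (g : I → k → k) (a b c : I → k)
    (ha : ∀ i ∈ T, a i ≠ 0) {i₀ : I} (hi₀ : i₀ ∈ T) (hb : b i₀ ≠ 0) {z₀ : k}
    (h₀ : a i₀ * z₀ + c i₀ = 0) (h₁ : ∀ i ∈ T, i ≠ i₀ → a i * z₀ + c i ≠ 0) {η : ℝ} (hη : 0 ≤ η)
    (hη' : 4 / Fintype.card k ≤ η ^ 2) :
    𝔼 y : ι → H, |𝔼 x, ψ (cube univ (fun j => θ j (y j)) (fun x => ∑ i ∈ T,
      (g i (Θ x) + a i ^ 2 * Θ' x ^ 2) ^ 3 / (b i * (a i * Θ x + c i) ^ 2)) x)| ≤
      4 * (2 ^ Fintype.card ι * T.card) / Fintype.card k + η := by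
  classical
  set J : Finset (Finset ι × I) := (univ : Finset ι).powerset ×ˢ T with hJ
  have hJc : (J.card : ℝ) = 2 ^ Fintype.card ι * T.card := by
    rw [hJ, card_product, card_powerset, card_univ]; push_cast; rfl
  have key : ∀ h : ι → V, |𝔼 x, ψ (cube univ h (fun x => ∑ i ∈ T,
      (g i (Θ x) + a i ^ 2 * Θ' x ^ 2) ^ 3 / (b i * (a i * Θ x + c i) ^ 2)) x)| ≤
      ∑ j ∈ J, ind (j.1 ≠ ∅ ∧ a j.2 * (z₀ + Θ (∑ l ∈ j.1, h l)) + c j.2 = 0) +
        (3 * J.card / Fintype.card k + η) := by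
    intro h
    by_cases hbad : ∃ j ∈ J, j.1 ≠ ∅ ∧ a j.2 * (z₀ + Θ (∑ l ∈ j.1, h l)) + c j.2 = 0
    · refine le_trans ?_ (add_le_add ((ind_pos trivial).symm.le.trans (ind_le_sum fun _ => hbad))
        (show 0 ≤ _ by positivity))
      rw [add_zero]
      exact (Finset.abs_expect_le _ _).trans (Finset.expect_le univ_nonempty fun Y _ => hle _)
    refine le_trans ?_ (le_add_of_nonneg_left (Finset.sum_nonneg fun _ _ => ind_nonneg _))
    rw [expect_avg _ ϑ]
    refine (Finset.abs_expect_le _ _).trans ?_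
    have hpole := expect_pole_le J (fun j => a j.2 ^ 6 / b j.2) (fun j => a j.2)
      (fun j => a j.2 * Θ (∑ l ∈ j.1, h l) + c j.2) (fun j hj => ha _ (mem_product.1 hj).2)
      (j₀ := (∅, i₀)) (by simp [hJ, hi₀]) (div_ne_zero (pow_ne_zero _ (ha _ hi₀)) hb) (z₀ := z₀)
      (by simpa using h₀) (by
        rintro ⟨ω, i⟩ hj hne h0
        by_cases hω : ω = ∅
        · subst hω
          refine h₁ i (mem_product.1 hj).2 (fun e => hne (by rw [e])) (by simpa using h0)
        · exact hbad ⟨(ω, i), hj, hω, by linear_combination h0⟩)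
    rw [← expect_surj Θ hΘ] at hpole
    refine le_trans (Finset.expect_le_expect (g := fun x => ind (∑ j ∈ J, a j.2 ^ 6 / b j.2 /
      (a j.2 * Θ x + (a j.2 * Θ (∑ l ∈ j.1, h l) + c j.2)) ^ 2 = 0) + η) fun x _ => ?_) (by
      rw [Finset.expect_add_distrib, Fintype.expect_const]
      gcongr)
    by_cases hz : ∑ j ∈ J, a j.2 ^ 6 / b j.2 /
      (a j.2 * Θ x + (a j.2 * Θ (∑ l ∈ j.1, h l) + c j.2)) ^ 2 = 0
    · rw [ind_pos hz]
      refine le_trans ?_ (le_add_of_nonneg_right hη)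
      exact (Finset.abs_expect_le _ _).trans (Finset.expect_le univ_nonempty fun Y _ => hle _)
    rw [ind_neg hz, zero_add]
    set G : Finset ι × I → k := fun j => g j.2 (Θ (x + ∑ l ∈ j.1, h l)) +
      a j.2 ^ 2 * Θ' (x + ∑ l ∈ j.1, h l) ^ 2 with hG
    set D : Finset ι × I → k := fun j =>
      b j.2 * (a j.2 * Θ x + (a j.2 * Θ (∑ l ∈ j.1, h l) + c j.2)) ^ 2 with hD
    refine le_trans (le_of_eq ?_) (expect_cubic_le hadd hle hsq hν hz
      (∑ j ∈ J, 3 * G j * a j.2 ^ 4 / D j) (∑ j ∈ J, 3 * G j ^ 2 * a j.2 ^ 2 / D j)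
      (∑ j ∈ J, G j ^ 3 / D j) hη hη')
    rw [← expect_surj _ hϑ']
    congr 1
    refine Finset.expect_congr rfl fun r _ => ?_
    congr 1
    simp only [cube, Finset.sum_mul, ← Finset.sum_add_distrib]
    rw [hJ, Finset.sum_product]
    refine Finset.sum_congr rfl fun ω _ => Finset.sum_congr rfl fun i _ => ?_
    have e1 : Θ (x + ϑ r + ∑ l ∈ ω, h l) = Θ (x + ∑ l ∈ ω, h l) := by
      rw [add_right_comm, map_add, hϑ, add_zero]
    have e2 : Θ' (x + ϑ r + ∑ l ∈ ω, h l) ^ 2 = Θ' (x + ∑ l ∈ ω, h l) ^ 2 + Θ' (ϑ r) ^ 2 := by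
      rw [add_right_comm, map_add, CharTwo.add_sq]
    rw [e1, e2]
    simp only [hG, hD, AddMonoidHom.comp_apply, div_div]
    rw [map_add Θ x]
    ring
  refine (Finset.expect_le_expect fun y _ => key _).trans ?_
  rw [Finset.expect_add_distrib, Fintype.expect_const, Finset.expect_sum_comm, ← hJc]
  have : ∀ j ∈ J, 𝔼 y : ι → H, ind (j.1 ≠ ∅ ∧ a j.2 * (z₀ + Θ (∑ l ∈ j.1, θ l (y l))) +
      c j.2 = 0) ≤ 1 / Fintype.card k := by
    rintro ⟨ω, i⟩ hj
    by_cases hω : ω = ∅
    · simp only [hω, ne_eq, not_true, false_and, ind_neg, not_false_iff, expect_const_zero]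
      positivity
    obtain ⟨l₀, hl₀⟩ := Finset.nonempty_iff_ne_empty.2 hω
    have hs : Function.Surjective (∑ l ∈ ω, (Θ.comp (θ l)).comp (Pi.evalAddMonoidHom _ l) :
        (ι → H) →+ k) := by
      intro z
      obtain ⟨u, hu⟩ := hθ l₀ z
      refine ⟨Pi.single l₀ u, ?_⟩
      rw [AddMonoidHom.finset_sum_apply, Finset.sum_eq_single_of_mem l₀ hl₀]
      · simpa using hu
      · intro l _ hl
        simp [Pi.single_eq_of_ne hl]
    have := expect_surj _ hs fun z => ind (ω ≠ ∅ ∧ a i * (z₀ + z) + c i = 0)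
    simp only [AddMonoidHom.finset_sum_apply, AddMonoidHom.comp_apply,
      Pi.evalAddMonoidHom_apply, ← map_sum] at this
    rw [this]
    refine (expect_ind_le {-c i / a i - z₀} fun z hz => ?_).trans (by simp)
    have hai := ha i (mem_product.1 hj).2
    rw [mem_singleton]
    field_simp
    linear_combination hz.2
  refine (add_le_add (Finset.sum_le_card_nsmul _ _ _ this) le_rfl).trans_eq ?_
  rw [nsmul_eq_mul]
  ring

end Field

end Pool.Agent.MP_4fffd4_nt

end
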