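import Mathlib
import Pool.Agent.Mg.F43e117.G14919d

/- The sign change in characteristic two. -/

set_option autoImplicit false

namespace Pool.Agent.MP_4fffd4_nt

open Polynomial Finset

theorem prod_one_add_four {R ι : Type*} [CommRing R] (h8 : (8 : R) = 0) (s : Finset ι)
    (u : ι → R) : ∏ j ∈ s, (1 + 4 * u j) = 1 + 4 * ∑ j ∈ s, u j := by
  classical
  induction s using Finset.induction with
  | empty => simp
  | insert a s has IH =>
    rw [Finset.prod_insert has, Finset.sum_insert has, IH]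
    linear_combination (2 * u a * ∑ j ∈ s, u j) * h8

variable {F K A O : Type*} [Field F] [Fintype F] [CharP F 2] [Field K]
  [Algebra F K] [CharP K 2] [IsAlgClosed K] [CommRing A] [CommRing O] [IsDomain O]
  (L : LiftData 2 F K A O)

include L in
theorem LiftData.flip_even {β c P : F[X]}
    (hβ : β.Monic) (hc : c.Monic) (hP : P.Monic) (hPi : Irreducible P) (hPβ : ¬ P ∣ β)
    (hX : ¬ P ∣ X) (hX1 : ¬ P ∣ X - 1)
    (hcong : P ^ 4 ∣ 1 + β * c - β * (P ^ 2 + P ^ 3)) (hdegP : 4 * P.natDegree < c.natDegree)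
    (hmod : c.natDegree % 2 ^ 3 = 1) :
    ∃ v y₁ y₂ : F[X], β ^ 2 * derivative c - derivative β = P ^ 2 * v ∧
      ¬ P ∣ v ∧ ¬ P ∣ y₁ ∧ ¬ P ∣ y₂ ∧ ∀ s₁ s₂ : F[X], s₁.Monic → s₂.Monic →
      s₁.natDegree = s₂.natDegree → c.natDegree < 2 ^ 3 * s₁.natDegree →
      IsCoprime (1 + β * (c + s₁ ^ 2 ^ 3)) (β ^ 2 * derivative c - derivative β) →
      IsCoprime (1 + β * (c + s₂ ^ 2 ^ 3)) (β ^ 2 * derivative c - derivative β) →
      v ∣ s₁ - s₂ → P ∣ s₁ - y₁ → P ∣ s₂ - y₂ →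
      liou (1 + β * (c + s₁ ^ 2 ^ 3)) = -liou (1 + β * (c + s₂ ^ 2 ^ 3)) := by
  have : Nontrivial A := L.ρ.domain_nontrivial
  obtain ⟨B, D, Q, Y, hB, hD, hQ, hBβ, hDc, hQP, hY⟩ :=
    L.exists_lifts hβ hc hP hPi hPβ hcong hdegP
  have hsep : P.Separable := PerfectField.separable_of_irreducible hPi
  have h2K : (2 : K) = 0 := by exact_mod_cast CharP.cast_eq_zero K 2
  have h2F : (2 : F[X]) = 0 := by exact_mod_cast CharP.cast_eq_zero F[X] 2
  obtain ⟨t, ht, hPt⟩ := exists_roots (K := K) hP hsep rfl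
  obtain ⟨y₁, y₂, z, hy₁', hy₂', hz₁, hz₂⟩ := even_residue hPi hX hX1 t ht hPt
  set H := B * derivative Y - derivative B * Y with hH
  set J := derivative Q * Y * B with hJ
  set V₂ := 3 * B ^ 2 * derivative Q + (Q ^ 2 - 6 * Q + 36) * H + 4 * Q * J with hV₂
  have hW : B ^ 2 * derivative D - derivative B = Q * (Q + 6) * V₂ +
      8 * (Q * (-2 * B ^ 2 * derivative Q - 27 * H - 3 * Q * J)) := by
    rw [W_factor B D Q Y hY, hV₂, hH, hJ]; ring
  have hroot : ∀ j, aeval (t j) P = 0 := by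
    intro j
    rw [← eval_map_algebraMap, hPt, eval_prod]
    exact Finset.prod_eq_zero (mem_univ j) (by simp)
  have hQd : Q.natDegree = P.natDegree := by rw [← hQP, hQ.natDegree_map]
  have hPd : 0 < P.natDegree := hPi.natDegree_pos
  have hlt6 : (6 : A[X]).natDegree < Q.natDegree := by
    rw [natDegree_ofNat, hQd]; exact hPd
  have hQ6 : (Q + 6).Monic := hQ.add_of_left (degree_lt_degree hlt6)
  have hQ6d : (Q + 6).natDegree = P.natDegree := by
    rw [natDegree_add_eq_left_of_natDegree_lt hlt6, hQd]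
  have hQ6P : (Q + 6).map L.ρ = P := by
    rw [Polynomial.map_add, hQP, Polynomial.map_ofNat]
    linear_combination 3 * h2F
  obtain ⟨τ, σ, hτ, hQτ, hσ⟩ := L.lift_roots_of hQ (hQP ▸ hsep) hQd t ht (hQP ▸ hPt)
  obtain ⟨τ', -, hτ', hQτ', -⟩ := L.lift_roots_of hQ6 (hQ6P.symm ▸ hsep) hQ6d t ht
    (hQ6P.symm ▸ hPt)
  refine ⟨V₂.map L.ρ, y₁, y₂, ?_, ?_, hy₁', hy₂', ?_⟩
  · have := congrArg (Polynomial.map L.ρ) hW
    generalize Q * (-2 * B ^ 2 * derivative Q - 27 * H - 3 * Q * J) = G at this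
    rw [Polynomial.map_add, Polynomial.map_mul, Polynomial.map_mul, Polynomial.map_mul, hQ6P,
      hQP] at this
    simp only [Polynomial.map_sub, Polynomial.map_mul, Polynomial.map_pow, ← derivative_map,
          hBβ, hDc, Polynomial.map_ofNat] at this
    linear_combination this + 4 * G.map L.ρ * h2F
  · intro h
    have e : V₂.map L.ρ = β ^ 2 * derivative P + P * (P * H.map L.ρ) := by
      rw [hV₂]
      generalize H = H'
      generalize J = J'
      simp only [Polynomial.map_add, Polynomial.map_sub, Polynomial.map_mul, Polynomial.map_pow,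
        ← derivative_map, hBβ, hQP, Polynomial.map_ofNat]
      linear_combination (β ^ 2 * derivative P + (18 - 3 * P) * H'.map L.ρ +
        2 * P * J'.map L.ρ) * h2F
    rw [e, dvd_add_left (dvd_mul_right _ _)] at h
    rcases hPi.prime.dvd_or_dvd h with h | h
    · exact hPβ (hPi.prime.dvd_of_dvd_pow h)
    · exact hPi.not_isUnit (IsCoprime.isUnit_of_dvd hsep h)
  intro s₁ s₂ hs₁ hs₂ hdeg hlt hc₁ hc₂ hv hy₁ hy₂
  obtain ⟨ν, hνμ, hν, hμ⟩ := L.quot_data (κ := 3) (by norm_num)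
  set μ := Ideal.Quotient.mk (Ideal.span {((2 : ℕ) : O) ^ 3}) with hμdef
  have h8 : (8 : O ⧸ Ideal.span {((2 : ℕ) : O) ^ 3}) = 0 := by exact_mod_cast hμ
  obtain ⟨n, S₁, S₂, α₁, α₂, δ₁, δ₂, e₁, e₂, g₁, g₂, u₁, u₂, f₁, f₂, h⟩ :=
    L.cmp' (κ := 3) (by norm_num) hB hD hBβ hDc hmod hs₁ hs₂ hdeg hlt hc₁ hc₂ μ ν hνμ hν hμ
      ((Q * (Q + 6)).map (μ.comp L.ι)) (V₂.map (μ.comp L.ι)) ((hQ.mul hQ6).map _)
      (by
        rw [hW, Polynomial.map_add, Polynomial.map_mul, Polynomial.map_mul (p := 8),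
          Polynomial.map_ofNat, ← map_ofNat C 8, h8, map_zero, zero_mul, add_zero])
      (L.map_map _ ν hνμ V₂) hv
  have hQ0 : ∀ j, (Q.map L.ι).eval (τ j) = 0 := by
    intro j
    rw [hQτ, eval_prod]
    exact Finset.prod_eq_zero (mem_univ j) (by simp)
  have hQ0' : ∀ j, (Q.map L.ι).eval (τ' j) = -6 := by
    intro j
    have : ((Q + 6).map L.ι).eval (τ' j) = 0 := by
      rw [hQτ', eval_prod]
      exact Finset.prod_eq_zero (mem_univ j) (by simp)
    rw [Polynomial.map_add, Polynomial.map_ofNat, eval_add, eval_ofNat] at this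
    linear_combination this
  have hYι := congrArg (Polynomial.map L.ι) hY
  simp only [Polynomial.map_add, Polynomial.map_one, Polynomial.map_mul, Polynomial.map_pow] at hYι
  have tr : ∀ (S : A[X]) (α : Fin n → O) (y : F[X]), ¬ P ∣ y → P ∣ S.map L.ρ - y →
      (1 + B * (D + S ^ 2 ^ 3)).map L.ι = ∏ i, (X - C (α i)) →
      ∃ (x : O) (w : Fin P.natDegree → O), L.φ x = x ∧ L.π x ≠ 0 ∧
        (∀ j, L.π (w j) = (aeval (t j) y)⁻¹ ^ 2 ^ 3) ∧
        ∏ j, ((Q * (Q + 6)).map (μ.comp L.ι)).eval (μ (α j)) =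
        μ (∏ j, (B.map L.ι).eval (τ j) * (B.map L.ι).eval (τ' j)) *
          (μ x ^ 2 * (1 + 4 * μ (∑ j, w j))) := by
    intro S α y hy hSy g
    have hx : ∀ j, L.π ((S.map L.ι).eval (τ j)) = aeval (t j) y := by
      intro j
      rw [L.π_eval, hτ, aeval_eq_of_dvd (hroot j) hSy]
    have hx0 : ∀ j, L.π ((S.map L.ι).eval (τ j)) ≠ 0 := fun j => by
      rw [hx]; exact aeval_ne_zero_of_not_dvd hPi (hroot j) hy
    have hex : ∀ j, ∃ w : O, (S.map L.ι).eval (τ j) * w = 1 := fun j =>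
      (L.unit_O _ (hx0 j)).exists_right_inv
    choose w hw using hex
    refine ⟨(∏ j, (S.map L.ι).eval (τ j)) ^ 8, fun j => w j ^ 8, ?_, ?_, ?_, ?_⟩
    · rw [map_pow, map_prod]
      simp only [L.φ_eval, hσ]
      rw [Equiv.prod_comp σ (fun j => (S.map L.ι).eval (τ j))]
    · rw [map_pow, map_prod]
      exact pow_ne_zero _ (Finset.prod_ne_zero_iff.2 fun j _ => hx0 j)
    · intro j
      have := congrArg L.π (hw j)
      rw [map_mul, hx, map_one] at this
      rw [map_pow, eq_inv_of_mul_eq_one_right this]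
      norm_num
    have e : ∀ j, ((Q * (Q + 6)).map (μ.comp L.ι)).eval (μ (α j)) =
        μ ((Q.map L.ι).eval (α j)) * μ (((Q + 6).map L.ι).eval (α j)) := by
      intro j
      rw [← Polynomial.map_map, eval_map μ, eval₂_hom, Polynomial.map_mul, eval_mul, map_mul]
    simp only [e]
    rw [Finset.prod_mul_distrib, ← map_prod, ← map_prod, hQτ, hQτ', prod_eval_swap α τ,
      prod_eval_swap α τ', ← g, ← map_mul, mul_mul_mul_comm, ← mul_pow, neg_one_mul, neg_neg, one_pow,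
      one_mul, ← Finset.prod_mul_distrib, map_sum, ← prod_one_add_four h8, map_prod, map_prod,
      map_pow, map_prod, ← pow_mul, ← Finset.prod_pow, ← Finset.prod_mul_distrib,
      ← Finset.prod_mul_distrib]
    refine Finset.prod_congr rfl fun j _ => ?_
    have a₁ := congrArg (eval (τ j)) hYι
    have a₂ := congrArg (eval (τ' j)) hYι
    simp only [eval_add, eval_mul, eval_pow, eval_one, hQ0, hQ0'] at a₁ a₂
    obtain ⟨k, hk⟩ := dvd_sub_pow_of_dvd_sub (p := 2)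
      (a := (S.map L.ι).eval (τ' j)) (b := (S.map L.ι).eval (τ j))
      (by rw [← L.ker_π, map_sub, L.π_eval, L.π_eval, hτ, hτ', sub_self]) 3
    have hw' := hw j
    simp only [Polynomial.map_add, Polynomial.map_one, Polynomial.map_mul, Polynomial.map_pow,
      eval_add, eval_mul, eval_pow, eval_one]
    generalize (S.map L.ι).eval (τ j) = x at *
    generalize (S.map L.ι).eval (τ' j) = x' at *
    generalize (B.map L.ι).eval (τ j) = b at *
    generalize (B.map L.ι).eval (τ' j) = b' at *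
    generalize (D.map L.ι).eval (τ j) = d at *
    generalize (D.map L.ι).eval (τ' j) = d' at *
    generalize (Y.map L.ι).eval (τ' j) = yy at *
    have b₁ : 1 + b * (d + x ^ 2 ^ 3) = b * x ^ 8 := by linear_combination a₁
    have b₂ : 1 + b' * (d' + x' ^ 2 ^ 3) = b' * (4 + x ^ 8) + 8 * (2 * b' * k - 23 * b' + 162 * yy) := by
      push_cast at hk
      linear_combination a₂ + b' * hk
    have b₃ : x ^ 8 * w j ^ 8 = 1 := by rw [← mul_pow, hw', one_pow]
    have b₄ := congrArg μ b₃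
    rw [b₁, b₂]
    simp only [map_mul, map_add, map_pow, map_ofNat, h8, map_one] at b₄ ⊢
    linear_combination (-4 * μ b * μ b' * μ x ^ 8) * b₄
  obtain ⟨x₁, w₁, φ₁, π₁, hw₁, k₁⟩ := tr S₁ α₁ y₁ hy₁' (e₁ ▸ hy₁) g₁
  obtain ⟨x₂, w₂, φ₂, π₂, hw₂, k₂⟩ := tr S₂ α₂ y₂ hy₂' (e₂ ▸ hy₂) g₂
  have hbu : IsUnit (μ (∏ j, (B.map L.ι).eval (τ j) * (B.map L.ι).eval (τ' j))) := by
    refine (L.unit_O _ ?_).map μ
    rw [map_prod]
    refine Finset.prod_ne_zero_iff.2 fun j _ => ?_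
    rw [map_mul, L.π_eval, L.π_eval, hτ, hτ', hBβ]
    exact mul_ne_zero (aeval_ne_zero_of_not_dvd hPi (hroot j) hPβ)
      (aeval_ne_zero_of_not_dvd hPi (hroot j) hPβ)
  rw [k₁, k₂, mul_left_comm, mul_left_comm (μ δ₂ ^ 2)] at h
  have h' := hbu.mul_left_cancel h
  obtain ⟨Z, hZ⟩ := L.π_surj (z ^ 2 ^ 3)
  obtain ⟨r, hr⟩ : ((2 : ℕ) : O) ∣ Z ^ 2 + Z - (∑ j, w₁ j + ∑ j, w₂ j) := by
    rw [← L.ker_π]
    simp only [map_sub, map_add, map_pow, map_sum, hw₁, hw₂, hZ]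
    have := congrArg (· ^ 2 ^ 3) hz₂
    simp only [add_pow_char_pow, sum_pow_char_pow, Finset.sum_add_distrib] at this
    linear_combination this
  obtain ⟨r', hr'⟩ : ((2 : ℕ) : O) ∣ 1 + L.φ Z + Z := by
    rw [← L.ker_π]
    simp only [map_add, map_one, L.πφ, hZ]
    rw [← pow_mul, mul_comm, pow_mul, hz₁, add_pow_char_pow]
    linear_combination (1 + z ^ 2 ^ 3) * h2K
  have := L.sign_detect (κ := 3) (by norm_num) (fun _ => rfl) (δ₁ * x₂) (δ₂ * x₁ * (1 + 2 * Z))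
    (by rw [map_mul]; exact mul_ne_zero u₁ π₂)
    (by
      rw [← Ideal.mem_span_singleton, ← Ideal.Quotient.eq_zero_iff_mem, ← hμdef]
      have hr2 := congrArg μ hr
      simp only [map_sub, map_add, map_mul, map_pow, map_ofNat, map_one, Nat.cast_ofNat] at hr2 ⊢
      generalize μ (∑ j, w₁ j) = T₁ at *
      generalize μ (∑ j, w₂ j) = T₂ at *
      linear_combination (1 + 4 * T₂) * h' - 4 * (μ δ₂ * μ x₁) ^ 2 * hr2 +
        (-(μ δ₁ * μ x₂) ^ 2 * (T₂ + 2 * T₂ ^ 2) + (μ δ₂ * μ x₁) ^ 2 * (2 * T₁ * T₂ - μ r)) * h8)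
    (eps_cases n (1 + β * (c + s₁ ^ 2 ^ 3)))
    (ε₂ := -((-1) ^ n * liou (1 + β * (c + s₂ ^ 2 ^ 3))))
    (by rcases eps_cases n (1 + β * (c + s₂ ^ 2 ^ 3)) with h | h <;> rw [h] <;> simp)
    (by rw [map_mul, f₁, φ₂, mul_assoc, sub_self]; exact dvd_zero _)
    (by
      refine ⟨(((-1) ^ n * liou (1 + β * (c + s₂ ^ 2 ^ 3)) : ℤ) : O) * δ₂ * x₁ * r', ?_⟩
      rw [map_mul, map_mul, f₂, φ₁, map_add, map_one, map_mul, map_ofNat, Int.cast_neg]
      linear_combination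
        (2 * (((-1) ^ n * liou (1 + β * (c + s₂ ^ 2 ^ 3)) : ℤ) : O) * δ₂ * x₁) * hr')
  apply mul_left_cancel₀ (pow_ne_zero n (by norm_num : (-1 : ℤ) ≠ 0))
  linear_combination this

end Pool.Agent.MP_4fffd4_nt
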