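import Mathlib
import Pool.Agent.Mg.F43e117.G14919d

/- Hensel factorisation, and the local computation at a simple root of `w` of the discriminant
of a lift of `s ^ 2 + X * w ^ 2` modulo `8`. -/

set_option autoImplicit false

namespace Pool.Agent.MP_4fffd4_nt

open Polynomial Finset

variable {R k : Type*} [CommRing R] [Field k]

theorem hensel_factor (ν : R →+* k) (hs : Function.Surjective ν) {p : ℕ}
    (hν : ∀ x, ν x = 0 → (p : R) ∣ x) (hp : (p : k) = 0) {W : R[X]} {a b : k[X]} (ha : a.Monic)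
    (hab : IsCoprime a b) (hW : W.map ν = a * b) (j : ℕ) :
    ∃ U Z : R[X], U.Monic ∧ U.map ν = a ∧ Z.map ν = b ∧ (p : R[X]) ^ (j + 1) ∣ W - U * Z := by
  have : Nontrivial R := ν.domain_nontrivial
  induction j with
  | zero =>
    obtain ⟨U, h1, -, h3⟩ := lifts_and_natDegree_eq_and_monic
      (Polynomial.map_surjective ν hs a) ha
    obtain ⟨Z, hZ⟩ := Polynomial.map_surjective ν hs b
    refine ⟨U, Z, h3, h1, hZ, ?_⟩
    rw [zero_add, pow_one]
    apply dvd_of_map_eq_zero ν hν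
    rw [Polynomial.map_sub, Polynomial.map_mul, h1, hZ, hW, sub_self]
  | succ j IH =>
    obtain ⟨U, Z, hU, hUa, hZb, E, hE⟩ := IH
    obtain ⟨x, y, hxy⟩ := hab
    set y' := (y * E.map ν) %ₘ a with hy'
    have hy'' : y' + a * ((y * E.map ν) /ₘ a) = y * E.map ν := modByMonic_add_div _ _
    obtain ⟨Y, hY, hYd⟩ := exists_degree_eq_of_mem_lifts (Polynomial.map_surjective ν hs y')
    obtain ⟨X', hX'⟩ := Polynomial.map_surjective ν hs (x * E.map ν + b * ((y * E.map ν) /ₘ a))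
    have hp' : ((p : R[X]) ^ (j + 1)).map ν = 0 := by
      rw [Polynomial.map_pow, Polynomial.map_natCast, ← map_natCast (C : k →+* k[X]), hp,
        map_zero, zero_pow (by omega)]
    obtain ⟨E', hE'⟩ : (p : R[X]) ∣ E - U * X' - Z * Y := by
      apply dvd_of_map_eq_zero ν hν
      simp only [Polynomial.map_sub, Polynomial.map_mul, hUa, hZb, hX', hY]
      linear_combination (-E.map ν) * hxy - b * hy''
    refine ⟨U + p ^ (j + 1) * Y, Z + p ^ (j + 1) * X', ?_, ?_, ?_, E' - p ^ j * X' * Y, ?_⟩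
    · refine hU.add_of_left ?_
      rw [← Nat.cast_pow, ← nsmul_eq_mul]
      refine (degree_smul_le _ _).trans_lt ?_
      rw [hYd, ← hU.degree_map ν, hUa]
      exact degree_modByMonic_lt _ ha
    · rw [Polynomial.map_add, Polynomial.map_mul, hp', zero_mul, add_zero, hUa]
    · rw [Polynomial.map_add, Polynomial.map_mul, hp', zero_mul, add_zero, hZb]
    · linear_combination hE + (p : R[X]) ^ (j + 1) * hE'

theorem hensel_quad (ν : R →+* k) (hs : Function.Surjective ν)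
    (hν : ∀ x, ν x = 0 → ((2 : ℕ) : R) ∣ x) (hp : ((2 : ℕ) : k) = 0) (h8 : (8 : R) = 0)
    {ι : Type*} (t : ι → k) (ht : Function.Injective t) (s : Finset ι) {W : R[X]} (hW : W.Monic)
    (hWt : W.map ν = ∏ j ∈ s, (X - C (t j)) ^ 2) :
    ∃ Z : ι → R[X], (∀ j ∈ s, (Z j).Monic ∧ (Z j).map ν = (X - C (t j)) ^ 2) ∧
      W = ∏ j ∈ s, Z j := by
  classical
  have : Nontrivial R := ν.domain_nontrivial
  induction s using Finset.induction generalizing W with
  | empty =>
    refine ⟨fun _ => 1, by simp, ?_⟩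
    rw [Finset.prod_empty] at hWt ⊢
    rw [← hW.natDegree_eq_zero, ← hW.natDegree_map ν, hWt, natDegree_one]
  | insert a s has IH =>
    rw [Finset.prod_insert has] at hWt
    obtain ⟨U, Z, hU, hUa, hZ, hd⟩ := hensel_factor ν hs hν hp ((monic_X_sub_C (t a)).pow 2)
      (IsCoprime.prod_right fun j hj => (pairwise_coprime_X_sub_C ht
        (fun e : a = j => has (e ▸ hj))).pow) hWt 2
    have h0 : (((2 : ℕ) : R[X])) ^ (2 + 1) = 0 := by
      rw [← map_natCast (C : R →+* R[X]), ← map_pow,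
        show ((2 : ℕ) : R) ^ (2 + 1) = 0 by rw [← h8]; norm_num, map_zero]
    rw [h0, zero_dvd_iff, sub_eq_zero] at hd
    obtain ⟨Z', hZ', e⟩ := IH (hU.of_mul_monic_left (hd ▸ hW)) hZ
    refine ⟨Function.update Z' a U, fun j hj => ?_, ?_⟩
    · rcases Finset.mem_insert.1 hj with rfl | hj
      · rw [Function.update_self]; exact ⟨hU, hUa⟩
      · rw [Function.update_of_ne (fun e : j = a => has (e ▸ hj))]; exact hZ' j hj
    · rw [Finset.prod_insert has, Function.update_self, hd, e]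
      congr 1
      exact Finset.prod_congr rfl fun j hj =>
        (Function.update_of_ne (fun e : j = a => has (e ▸ hj)) _ _).symm

theorem lin_form (τ : R) {E : R[X]} (h : E.degree < 2) :
    ∃ a b : R, E = C a * (X - C τ) + C b := by
  refine ⟨E.coeff 1, E.coeff 0 + E.coeff 1 * τ, ?_⟩
  have := eq_X_add_C_of_degree_le_one (p := E) (Order.le_of_lt_succ h)
  rw [map_add, map_mul]
  linear_combination this

theorem lin_eq_zero {τ a b : R} (h : C a * (X - C τ) + C b = 0) : a = 0 ∧ b = 0 := by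
  have h1 := congrArg (fun q => q.coeff 1) h
  have h2 := congrArg (eval τ) h
  simp [coeff_C, coeff_X] at h1 h2
  exact ⟨h1, h2⟩

theorem norm_quad {ι : Type*} (τ a b : R) (s : Finset ι) (β : ι → R) :
    ∃ (A B : R) (Q : R[X]), ∏ i ∈ s, (X - C (β i)) =
        ((X - C τ) ^ 2 + C a * (X - C τ) + C b) * Q + C B * (X - C τ) + C A ∧
      ∏ i ∈ s, ((β i - τ) ^ 2 + a * (β i - τ) + b) = A ^ 2 - a * A * B + b * B ^ 2 := by
  classical
  induction s using Finset.induction with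
  | empty => exact ⟨1, 0, 0, by simp, by simp⟩
  | insert i s hi IH =>
    obtain ⟨A, B, Q, h1, h2⟩ := IH
    refine ⟨-(β i - τ) * A - b * B, A - (β i - τ) * B - a * B, (X - C (β i)) * Q + C B, ?_, ?_⟩
    · rw [Finset.prod_insert hi, h1]
      simp only [map_sub, map_mul, map_neg]
      ring
    · rw [Finset.prod_insert hi, h2]
      ring

theorem expand_two (t : R) (s : R[X]) : ∃ s₂ : R[X],
    s = C (s.eval t) + C (s.derivative.eval t) * (X - C t) + (X - C t) ^ 2 * s₂ := by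
  obtain ⟨s₁, h₁⟩ := X_sub_C_dvd_sub_C_eval (a := t) (p := s)
  obtain ⟨s₂, h₂⟩ := X_sub_C_dvd_sub_C_eval (a := t) (p := s₁)
  have h3 := congrArg (fun q => (derivative q).eval t) h₁
  simp only [derivative_sub, derivative_C, derivative_mul, derivative_X, sub_zero, one_mul,
    eval_add, eval_mul, eval_sub, eval_X, eval_C, sub_self, zero_mul, add_zero] at h3
  refine ⟨s₂, ?_⟩
  rw [h3]
  linear_combination h₁ + (X - C t) * h₂

theorem cubic_eq_zero {t a₀ a₁ a₂ a₃ : k} {Q : k[X]}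
    (h : C a₀ + C a₁ * (X - C t) + C a₂ * (X - C t) ^ 2 + C a₃ * (X - C t) ^ 3 +
      (X - C t) ^ 4 * Q = 0) : a₀ = 0 ∧ a₂ = 0 ∧ a₃ = 0 := by
  have hπ : (X - C t) ≠ 0 := X_sub_C_ne_zero t
  have e0 : a₀ = 0 := by simpa using congrArg (eval t) h
  have h1 : C a₁ + C a₂ * (X - C t) + C a₃ * (X - C t) ^ 2 + (X - C t) ^ 3 * Q = 0 := by
    apply mul_left_cancel₀ hπ
    rw [e0, map_zero] at h
    linear_combination h
  have e1 : a₁ = 0 := by simpa using congrArg (eval t) h1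
  have h2 : C a₂ + C a₃ * (X - C t) + (X - C t) ^ 2 * Q = 0 := by
    apply mul_left_cancel₀ hπ
    rw [e1, map_zero] at h1
    linear_combination h1
  have e2 : a₂ = 0 := by simpa using congrArg (eval t) h2
  have h3 : C a₃ + (X - C t) * Q = 0 := by
    apply mul_left_cancel₀ hπ
    rw [e2, map_zero] at h2
    linear_combination h2
  exact ⟨e0, e2, by simpa using congrArg (eval t) h3⟩

theorem local_norm (ν : R →+* k) (hν : ∀ x, ν x = 0 → ((2 : ℕ) : R) ∣ x) (hp : (2 : k) = 0)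
    (h8 : (8 : R) = 0) (h2 : ∀ x : R, 2 * x = 0 → ν x = 0) {ι : Type*} [Fintype ι] (β : ι → R)
    {G Z : R[X]} (hG : G = ∏ i, (X - C (β i))) (τ r y : R) (hZ : Z.Monic)
    (hZt : Z.map ν = (X - C (ν τ)) ^ 2) (hd : Z ∣ derivative G) {s w : k[X]}
    (hGs : G.map ν = s ^ 2 + X * w ^ 2) (hw : w.eval (ν τ) = 0) (hs0 : s.eval (ν τ) ≠ 0)
    (hw0 : w.derivative.eval (ν τ) ≠ 0)
    (hr : ν r = (s.derivative.eval (ν τ) ^ 2 + ν τ * w.derivative.eval (ν τ) ^ 2) /
      w.derivative.eval (ν τ) ^ 2)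
    (hy : ν y = (s.derivative.eval (ν τ) ^ 2 + ν τ * w.derivative.eval (ν τ) ^ 2) ^ 3 /
      (w.derivative.eval (ν τ) ^ 4 * s.eval (ν τ) ^ 2)) :
    ∏ i, Z.eval (β i) = (G.eval τ - G.derivative.eval τ * r) ^ 2 * (1 + 4 * y) := by
  have : Nontrivial R := ν.domain_nontrivial
  have hZd : Z.degree = 2 := by
    rw [← hZ.degree_map ν, hZt, degree_pow, degree_X_sub_C]; rfl
  obtain ⟨a, b, hab⟩ := lin_form τ (E := Z - (X - C τ) ^ 2) (by
    rw [← hZd]
    refine degree_sub_lt ?_ hZ.ne_zero ?_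
    · rw [hZd, degree_eq_natDegree ((monic_X_sub_C τ).pow 2).ne_zero,
        (monic_X_sub_C τ).natDegree_pow, natDegree_X_sub_C]; rfl
    · rw [hZ.leadingCoeff, ((monic_X_sub_C τ).pow 2).leadingCoeff])
  have hab' := congrArg (Polynomial.map ν) hab
  simp only [Polynomial.map_sub, Polynomial.map_add, Polynomial.map_mul, Polynomial.map_pow,
    map_X, map_C, hZt, sub_self] at hab'
  obtain ⟨ha0, hb0⟩ := lin_eq_zero hab'.symm
  obtain ⟨c, rfl⟩ := hν a ha0
  obtain ⟨d, rfl⟩ := hν b hb0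
  push_cast at hab
  have hZe : Z = (X - C τ) ^ 2 + C (2 * c) * (X - C τ) + C (2 * d) := by linear_combination hab
  obtain ⟨A, B, Q, h₁, h₃⟩ := norm_quad τ (2 * c) (2 * d) univ β
  rw [← hG, ← hZe] at h₁
  obtain ⟨q₁, q₀, hq⟩ := lin_form τ (E := Q %ₘ Z) (hZd ▸ degree_modByMonic_lt _ hZ)
  have hQ : Q = Z * (Q /ₘ Z) + C q₁ * (X - C τ) + C q₀ := by
    linear_combination hq - modByMonic_add_div Q Z
  generalize Q /ₘ Z = Q₂ at hQ
  subst hQ
  have hZ' : derivative Z = 2 * (X - C τ) + C (2 * c) := by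
    rw [hZe]
    simp only [derivative_add, derivative_mul, derivative_C, derivative_X_sub_C_sq, derivative_sub,
      derivative_X, map_ofNat]
    ring
  have hG' : derivative G = derivative Z * (Z * Q₂ + C q₁ * (X - C τ) + C q₀) +
      Z * (derivative Z * Q₂ + Z * derivative Q₂ + C q₁) + C B := by
    rw [h₁]
    simp only [derivative_add, derivative_mul, derivative_C, derivative_sub, derivative_X]
    ring
  have hlin : C (2 * q₀ - 2 * c * q₁) * (X - C τ) + C (2 * c * q₀ + B - 4 * d * q₁) = 0 := by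
    by_contra h0
    refine hZ.not_dvd_of_degree_lt h0 ?_ ?_
    · rw [hZd]
      compute_degree!
    · have : C (2 * q₀ - 2 * c * q₁) * (X - C τ) + C (2 * c * q₀ + B - 4 * d * q₁) =
          derivative G - Z * (2 * derivative Z * Q₂ + Z * derivative Q₂ + 3 * C q₁) := by
        rw [hG', hZ']
        simp only [map_sub, map_add, map_mul, map_ofNat] at hZe ⊢
        linear_combination (2 * C q₁) * hZe
      rw [this]
      exact dvd_sub hd (dvd_mul_right _ _)
  obtain ⟨e₁, e₂⟩ := lin_eq_zero hlin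
  obtain ⟨s₂, hs₂⟩ := expand_two (ν τ) s
  obtain ⟨w₂, hw₂⟩ := expand_two (ν τ) w
  rw [hw, map_zero, zero_add] at hw₂
  have hred := congrArg (Polynomial.map ν) h₁
  simp only [Polynomial.map_sub, Polynomial.map_add, Polynomial.map_mul, map_X, map_C, hZt,
    hGs] at hred
  generalize s.eval (ν τ) = s₀ at *
  generalize s.derivative.eval (ν τ) = s₁ at *
  generalize w.derivative.eval (ν τ) = w₁ at *
  have hp' : (2 : k[X]) = 0 := by rw [← map_ofNat C 2, hp, map_zero]
  obtain ⟨f₀, f₂, f₃⟩ := cubic_eq_zero (t := ν τ) (a₀ := ν A - s₀ ^ 2) (a₁ := ν B)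
    (a₂ := ν q₀ - (s₁ ^ 2 + ν τ * w₁ ^ 2)) (a₃ := ν q₁ - w₁ ^ 2)
    (Q := Q₂.map ν - s₂ ^ 2 - X * w₂ ^ 2) (by
      rw [hs₂, hw₂] at hred
      simp only [map_sub, map_add, map_mul, map_pow]
      linear_combination -hred + (C s₀ * C s₁ * (X - C (ν τ)) + C s₀ * s₂ * (X - C (ν τ)) ^ 2 +
        C s₁ * s₂ * (X - C (ν τ)) ^ 3 + X * C w₁ * w₂ * (X - C (ν τ)) ^ 3) * hp')
  rw [sub_eq_zero] at f₀ f₂ f₃
  have hc : ν q₀ = ν c * ν q₁ := by
    have := h2 (q₀ - c * q₁) (by linear_combination e₁)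
    rwa [map_sub, map_mul, sub_eq_zero] at this
  obtain ⟨u₁, hu₁⟩ := hν (q₀ - q₁ * r) (by
    rw [map_sub, map_mul, hr, f₂, f₃]; field_simp; ring)
  obtain ⟨u₂, hu₂⟩ := hν (c ^ 2 * q₀ - A * y) (by
    have : ν c = (s₁ ^ 2 + ν τ * w₁ ^ 2) / w₁ ^ 2 := by
      rw [← f₂, hc, f₃]; field_simp
    rw [map_sub, map_mul, map_mul, map_pow, hy, this, f₀, f₂]; field_simp; ring)
  have hx : G.eval τ - G.derivative.eval τ * r = A + 4 * (d * u₁ - d * q₁ * r +
      d ^ 2 * Q₂.eval τ - d ^ 2 * Q₂.derivative.eval τ * r - 2 * c * d * Q₂.eval τ * r) := by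
    have z₀ : Z.eval τ = 2 * d := by rw [hZe]; simp
    rw [hG', hZ', h₁]
    simp only [eval_add, eval_mul, eval_sub, eval_X, eval_C, sub_self, z₀, eval_ofNat]
    push_cast at hu₁
    linear_combination (2 * d) * hu₁ - r * e₂
  have hl : ∏ i, Z.eval (β i) = A ^ 2 - 2 * c * A * B + 2 * d * B ^ 2 := by
    rw [← h₃, hZe]
    simp only [eval_add, eval_mul, eval_sub, eval_X, eval_C, eval_pow]
  rw [hl, hx]
  generalize d * u₁ - d * q₁ * r +
      d ^ 2 * Q₂.eval τ - d ^ 2 * Q₂.derivative.eval τ * r - 2 * c * d * Q₂.eval τ * r = m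
  have hB : B = 4 * d * q₁ - 2 * c * q₀ := by linear_combination e₂
  subst hB
  push_cast at hu₂
  linear_combination (4 * A) * hu₂ + (A * u₂ - c * A * d * q₁ + d * (2 * d * q₁ - c * q₀) ^ 2 -
    (A * m + 2 * m ^ 2) * (1 + 4 * y)) * h8

end Pool.Agent.MP_4fffd4_nt
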