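import Mathlib
import Pool.Agent.Mg.F43e117.G33a1a2
import Pool.Agent.Mg.F43e117.G87b341
import Pool.Agent.Mg.F43e117.Gbea719

section

/- The Liouville function of `s ^ 2 + X * w ^ 2` in characteristic two as an additive
character sum over the simple roots of `w`. -/

set_option autoImplicit false

namespace Pool.Agent.MP_4fffd4_nt

open Polynomial Finset

/-- A character of `K` extending `(-1) ^ trace` on `F`. -/
structure IsChar (F : Type*) [Fintype F] {K : Type*} [Field K] (e : K → ℝ) : Prop where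
  add : ∀ a b, e (a + b) = e a * e b
  sign : ∀ a, e a = 1 ∨ e a = -1
  pos : ∀ z, z ^ Fintype.card F = z → e (z ^ 2 + z) = 1
  neg : ∀ z, z ^ Fintype.card F = z + 1 → e (z ^ 2 + z) = -1

theorem exists_isChar (F K : Type*) [Field F] [Fintype F] [CharP F 2] [Field K] [CharP K 2] :
    ∃ e : K → ℝ, IsChar F e := by
  letI := ZMod.algebra K 2
  obtain ⟨n, -, hn⟩ := FiniteField.card F 2
  obtain ⟨l, hl⟩ := Module.Projective.exists_dual_eq_one (ZMod 2) (one_ne_zero (α := K))
  have h2K : (2 : K) = 0 := by exact_mod_cast CharP.cast_eq_zero K 2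
  let T : K → K := fun c => ∑ i ∈ range n, c ^ 2 ^ i
  have hT : ∀ z, T (z ^ 2 + z) = z ^ Fintype.card F + z := by
    intro z
    rw [hn]
    simp only [T]
    generalize (n : ℕ) = m
    induction m with
    | zero => simp only [range_zero, sum_empty, pow_zero, pow_one]; linear_combination -z * h2K
    | succ m IH =>
      rw [Finset.sum_range_succ, IH, add_pow_char_pow, ← pow_mul, pow_succ' 2 m]
      linear_combination z ^ 2 ^ m * h2K
  have h01 : ∀ x : ZMod 2, x = 0 ∨ x = 1 := by decide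
  refine ⟨fun c => if l (T c) = 0 then 1 else -1, fun a b => ?_, fun a => ?_, fun z hz => ?_,
    fun z hz => ?_⟩
  · have : T (a + b) = T a + T b := by
      simp only [T, add_pow_char_pow, Finset.sum_add_distrib]
    rw [this, map_add]
    rcases h01 (l (T a)) with h | h <;> rcases h01 (l (T b)) with h' | h' <;> rw [h, h'] <;>
      simp [show (1 : ZMod 2) + 1 = 0 by decide]
  · split_ifs <;> simp
  · rw [hT, hz, ← two_mul, h2K, zero_mul, map_zero, if_pos rfl]
  · rw [hT, hz, add_right_comm, ← two_mul, h2K, zero_mul, zero_add, hl, if_neg one_ne_zero]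

namespace IsChar

variable {F K : Type*} [Fintype F] [Field K] {e : K → ℝ} (he : IsChar F e)
include he

theorem mul_self (a : K) : e a * e a = 1 := by rcases he.sign a with h | h <;> simp [h]

theorem zero : e 0 = 1 := by
  have := he.add 0 0
  rw [add_zero, he.mul_self] at this
  exact this

theorem abs_le (a : K) : |e a| ≤ 1 := by rcases he.sign a with h | h <;> simp [h]

end IsChar

/-- The local phase. -/
noncomputable def ph {F K : Type*} [Field F] [Field K] [Algebra F K] (s w : F[X]) (t : K) : K :=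
  (aeval t (derivative s) ^ 2 + t * aeval t (derivative w) ^ 2) ^ 3 /
    (aeval t (derivative w) ^ 4 * aeval t s ^ 2)

theorem map_ph {F K K' : Type*} [Field F] [Field K] [Algebra F K] [Field K'] [Algebra F K']
    (σ : K →ₐ[F] K') (s w : F[X]) (t : K) : σ (ph s w t) = ph s w (σ t) := by
  simp only [ph, map_div₀, map_pow, map_add, map_mul, aeval_algHom_apply]

theorem dvd_prod_sub_prod {R ι : Type*} [CommRing R] (c : R) (s : Finset ι) (a b : ι → R)
    (h : ∀ j, c ∣ a j - b j) : c ∣ ∏ j ∈ s, a j - ∏ j ∈ s, b j := by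
  classical
  induction s using Finset.induction with
  | empty => simp
  | insert i s hi IH =>
    rw [Finset.prod_insert hi, Finset.prod_insert hi]
    have : a i * ∏ j ∈ s, a j - b i * ∏ j ∈ s, b j =
        a i * (∏ j ∈ s, a j - ∏ j ∈ s, b j) + (a i - b i) * ∏ j ∈ s, b j := by ring
    rw [this]
    exact dvd_add (IH.mul_left _) ((h i).mul_right _)

theorem aeval_ne_zero_of_isCoprime {F K : Type*} [Field F] [Field K] [Algebra F K] {a b : F[X]}
    (h : IsCoprime a b) {t : K} (ht : aeval t b = 0) : aeval t a ≠ 0 := by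
  obtain ⟨x, y, hxy⟩ := h
  intro h0
  have := congrArg (aeval t) hxy
  simp [ht, h0] at this

theorem odd_monic {F : Type*} [Field F] {s w : F[X]} (hw : w.Monic)
    (hd : s.natDegree ≤ w.natDegree) :
    (s ^ 2 + X * w ^ 2).Monic ∧ (s ^ 2 + X * w ^ 2).natDegree = 2 * w.natDegree + 1 := by
  have h1 : (X * w ^ 2).natDegree = 2 * w.natDegree + 1 := by
    rw [monic_X.natDegree_mul (hw.pow 2), natDegree_X, hw.natDegree_pow, add_comm]
  have h2 : (s ^ 2).natDegree < (X * w ^ 2).natDegree := by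
    rw [h1, natDegree_pow]; omega
  exact ⟨(monic_X.mul (hw.pow 2)).add_of_right (degree_lt_degree h2),
    by rw [natDegree_add_eq_right_of_natDegree_lt h2, h1]⟩

theorem derivative_odd {F : Type*} [Field F] [CharP F 2] (s w : F[X]) :
    derivative (s ^ 2 + X * w ^ 2) = w ^ 2 := by
  have h2F : (2 : F[X]) = 0 := by exact_mod_cast CharP.cast_eq_zero F[X] 2
  simp only [derivative_add, derivative_mul, derivative_X, derivative_sq, map_ofNat]
  linear_combination (s * derivative s + X * w * derivative w) * h2F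

variable {F K A O : Type*} [Field F] [Fintype F] [CharP F 2] [Field K]
  [Algebra F K] [CharP K 2] [IsAlgClosed K] [CommRing A] [CommRing O] [IsDomain O]
  (L : LiftData 2 F K A O)

theorem LiftData.side {R : Type*} [CommRing R] (μ : O →+* R) (ν : R →+* K)
    (hνμ : ∀ x, ν (μ x) = L.π x) (hν : ∀ x, ν x = 0 → ((2 : ℕ) : R) ∣ x) (h8 : (8 : R) = 0)
    (h2 : ∀ x : R, 2 * x = 0 → ν x = 0) {u v s : F[X]} (hu : u.Monic) (hv : v.Monic)
    (hsep : v.Separable) (huv : IsCoprime u v) (hd : s.natDegree ≤ (u * v).natDegree)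
    (hc : IsCoprime s (u * v)) {d : ℕ} (τ : Fin d → O) (σ : Equiv.Perm (Fin d))
    (hσ : ∀ j, L.φ (τ j) = τ (σ j)) (ht : Function.Injective fun j => L.π (τ j))
    (hvt : v.map (algebraMap F K) = ∏ j, (X - C (L.π (τ j)))) {G U Z : A[X]} (hG : G.Monic)
    (hGs : G.map L.ρ = s ^ 2 + X * (u * v) ^ 2) (hU : U.Monic) (hUu : U.map L.ρ = u ^ 2)
    (hZ : ((2 : ℕ) : A[X]) ^ (2 + 1) ∣ derivative G - U * Z) {n : ℕ}
    (hn : n = 2 * (u * v).natDegree + 1) :
    ∃ (α : Fin n → O) (δ x y : O), G.map L.ι = ∏ i, (X - C (α i)) ∧ L.π δ ≠ 0 ∧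
      L.φ δ = (((-1) ^ n * liou (s ^ 2 + X * (u * v) ^ 2) : ℤ) : O) * δ ∧ L.π x ≠ 0 ∧
      (4 : O) ∣ L.φ x - x ∧ L.π y = ∑ j, ph s (u * v) (L.π (τ j)) ∧
      (sgn n : R) * μ δ ^ 2 = (∏ i, (U.map (μ.comp L.ι)).eval (μ (α i))) * (n : R) ^ n *
        (μ x ^ 2 * (1 + 4 * μ y)) := by
  have : Nontrivial A := L.ρ.domain_nontrivial
  have : Nontrivial R := ν.domain_nontrivial
  have h2K : (2 : K) = 0 := by exact_mod_cast CharP.cast_eq_zero K 2
  have h2F : (2 : F[X]) = 0 := by exact_mod_cast CharP.cast_eq_zero F[X] 2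
  set w := u * v with hw
  have hGd : G.natDegree = n := by
    rw [← hG.natDegree_map L.ρ, hGs, (odd_monic (hu.mul hv) hd).2, hn]
  have hGsep : (G.map L.ρ).Separable := by
    rw [hGs, Polynomial.separable_def, derivative_odd]
    exact (hc.pow (m := 2) (n := 2)).add_mul_right_left X
  obtain ⟨α, δ, e₁, u₁, f₁, d₁⟩ := L.stick hG hGsep hGd
  rw [hGs] at f₁
  set t : Fin d → K := fun j => L.π (τ j) with htdef
  have hvr : ∀ j, aeval (t j) v = 0 := by
    intro j
    rw [← eval_map_algebraMap, hvt, eval_prod]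
    exact Finset.prod_eq_zero (mem_univ j) (by simp [htdef])
  have hwr : ∀ j, aeval (t j) w = 0 := fun j => by rw [hw, map_mul, hvr, mul_zero]
  have hw' : ∀ j, aeval (t j) (derivative w) ≠ 0 := by
    intro j
    rw [hw, derivative_mul, map_add, map_mul, map_mul, hvr, mul_zero, zero_add]
    exact mul_ne_zero (aeval_ne_zero_of_isCoprime huv (hvr j))
      (hsep.aeval_derivative_ne_zero (hvr j))
  have hs' : ∀ j, aeval (t j) s ≠ 0 := fun j => aeval_ne_zero_of_isCoprime hc (hwr j)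
  choose r hr using fun j => L.π_surj ((aeval (t j) (derivative s) ^ 2 +
    t j * aeval (t j) (derivative w) ^ 2) / aeval (t j) (derivative w) ^ 2)
  choose y hy using fun j => L.π_surj (ph s w (t j))
  set a : Fin d → O := fun j => (G.map L.ι).eval (τ j) -
    ((derivative G).map L.ι).eval (τ j) * r j with ha
  have hG' : ∀ j, L.π (((derivative G).map L.ι).eval (τ j)) = 0 := by
    intro j
    rw [L.π_eval, ← derivative_map, hGs, derivative_odd, map_pow]
    exact (congrArg (· ^ 2) (hwr j)).trans (by simp)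
  have htσ : ∀ j, t (σ j) = FiniteField.frobeniusAlgHom F K (t j) := by
    intro j
    simp only [htdef, ← hσ, L.πφ]
    rfl
  refine ⟨α, δ, ∏ j, a j, ∑ j, y j, e₁, u₁, f₁, ?_, ?_, by simp only [map_sum, hy, htdef], ?_⟩
  · rw [map_prod]
    refine Finset.prod_ne_zero_iff.2 fun j _ => ?_
    simp only [ha, map_sub, map_mul, hG', zero_mul, sub_zero]
    rw [L.π_eval, hGs, map_add, map_mul, map_pow, map_pow]
    have := hwr j
    simp only [htdef] at this
    rw [this]
    simpa using hs' j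
  · rw [map_prod, ← Equiv.prod_comp σ a]
    refine dvd_prod_sub_prod _ _ _ _ fun j => ?_
    obtain ⟨b, hb⟩ := (L.ker_π _).1 (hG' (σ j))
    obtain ⟨c, hc'⟩ := (L.ker_π (L.φ (r j) - r (σ j))).1 (by
      rw [map_sub, L.πφ, hr, hr, htσ, sub_eq_zero]
      change FiniteField.frobeniusAlgHom F K _ = _
      simp only [map_div₀, map_pow, map_add, map_mul, aeval_algHom_apply])
    refine ⟨-(b * c), ?_⟩
    simp only [ha, map_sub, map_mul, L.φ_eval, hσ]
    push_cast at hb hc'
    rw [hb]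
    linear_combination (-2 * b) * hc'
  set G₀ := G.map (μ.comp L.ι) with hG₀
  set U₀ := U.map (μ.comp L.ι) with hU₀
  set Z₀ := Z.map (μ.comp L.ι) with hZ₀
  have g₁ : G₀ = ∏ i, (X - C (μ (α i))) := by
    rw [hG₀, ← Polynomial.map_map, e₁, Polynomial.map_prod]
    simp
  have g₂ : derivative G₀ = U₀ * Z₀ := by
    have := Polynomial.map_dvd (μ.comp L.ι) hZ
    rw [Polynomial.map_pow, Polynomial.map_natCast, ← map_natCast (C : R →+* R[X]), ← map_pow,
      show ((2 : ℕ) : R) ^ (2 + 1) = 0 by rw [← h8]; norm_num, map_zero, zero_dvd_iff,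
      Polynomial.map_sub, Polynomial.map_mul, sub_eq_zero, ← derivative_map] at this
    exact this
  have hnn : (n : R) * n = 1 := by
    obtain ⟨c, hc⟩ := Nat.even_mul_succ_self w.natDegree
    have hc' := congrArg (Nat.cast : ℕ → R) hc
    rw [hn]
    push_cast at hc' ⊢
    linear_combination 4 * hc' + (c : R) * h8
  have hnK : (n : K) = 1 := by
    rw [hn]; push_cast; linear_combination (w.natDegree : K) * h2K
  have g₃ : (C (n : R) * Z₀).Monic := by
    refine (hU.map (μ.comp L.ι)).of_mul_monic_left ?_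
    rw [← hU₀, mul_left_comm, ← g₂]
    have hG₀d : G₀.natDegree = n := by rw [hG₀, hG.natDegree_map, hGd]
    refine monic_of_natDegree_le_of_coeff_eq_one (2 * w.natDegree) ?_ ?_
    · refine (natDegree_C_mul_le _ _).trans ((natDegree_derivative_le _).trans ?_)
      omega
    · rw [coeff_C_mul, coeff_derivative, ← hn, ← hG₀d, (hG.map _).coeff_natDegree, hG₀d, one_mul]
      refine Eq.trans ?_ hnn
      rw [hn]
      push_cast
      ring
  have g₄ : G₀.map ν = (s.map (algebraMap F K)) ^ 2 + X * (w.map (algebraMap F K)) ^ 2 := by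
    rw [hG₀, L.map_map μ ν hνμ, hGs]
    simp only [Polynomial.map_add, Polynomial.map_mul, Polynomial.map_pow, map_X]
  have g₅ : (C (n : R) * Z₀).map ν = ∏ j ∈ univ, (X - C (t j)) ^ 2 := by
    have h1 := congrArg (Polynomial.map ν) g₂
    rw [← derivative_map, g₄, derivative_odd, Polynomial.map_mul ν, hU₀, L.map_map μ ν hνμ, hUu,
      hw, Polynomial.map_mul, mul_pow, Polynomial.map_pow] at h1
    rw [Polynomial.map_mul, map_C, map_natCast, hnK, map_one, one_mul, Finset.prod_pow, ← hvt]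
    exact (mul_left_cancel₀ (pow_ne_zero 2 (hu.map _).ne_zero) h1).symm
  obtain ⟨Q, hQ, g₆⟩ := hensel_quad ν (fun z => by
    obtain ⟨x, rfl⟩ := L.π_surj z
    exact ⟨μ x, hνμ x⟩) hν (by exact_mod_cast h2K) h8 t ht univ g₃ g₅
  have g₇ : derivative G₀ = U₀ * C (n : R) * ∏ j, Q j := by
    rw [← g₆, g₂, mul_assoc, ← mul_assoc (C _), ← map_mul, hnn, map_one, one_mul]
  have g₈ : ∀ j, ∏ i, (Q j).eval (μ (α i)) = μ (a j) ^ 2 * (1 + 4 * μ (y j)) := by
    intro j
    have hτ : ν (μ (τ j)) = t j := hνμ _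
    rw [local_norm ν hν h2K h8 h2 (fun i => μ (α i)) g₁ (μ (τ j)) (μ (r j)) (μ (y j))
      (hQ j (mem_univ j)).1 (hτ ▸ (hQ j (mem_univ j)).2)
      (g₇ ▸ (Finset.dvd_prod_of_mem Q (mem_univ j)).mul_left _) g₄]
    · congr 2
      simp only [ha, map_sub, map_mul, hG₀, ← Polynomial.map_map, derivative_map, eval_map μ,
        eval₂_hom]
    all_goals simp only [hτ, hνμ, derivative_map, eval_map_algebraMap]
    exacts [hwr j, hs' j, hw' j, hr j, hy j]
  have d₂ := congrArg μ d₁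
  rw [map_prod, map_mul, map_pow, map_intCast] at d₂
  rw [← d₂]
  have d₃ : ∀ i, μ ((derivative (G.map L.ι)).eval (α i)) =
      U₀.eval (μ (α i)) * n * ∏ j, (Q j).eval (μ (α i)) := by
    intro i
    rw [← eval_prod, ← eval_C (a := (n : R)) (x := μ (α i)), ← eval_mul, ← eval_mul, ← g₇, hG₀,
      ← Polynomial.map_map, derivative_map (G.map L.ι) μ, eval_map μ, eval₂_hom]
  simp only [d₃]
  rw [Finset.prod_mul_distrib, Finset.prod_mul_distrib, Finset.prod_comm, Finset.prod_const,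
    card_univ, Fintype.card_fin]
  simp only [g₈]
  rw [Finset.prod_mul_distrib, prod_one_add_four h8, map_prod, map_sum, Finset.prod_pow]

include L in
theorem LiftData.cmp_two {e : K → ℝ} (he : IsChar F e) {u v s₁ s₂ : F[X]} (hu : u.Monic)
    (hv : v.Monic) (hsep : v.Separable) (huv : IsCoprime u v)
    (hd₁ : s₁.natDegree ≤ (u * v).natDegree) (hd₂ : s₂.natDegree ≤ (u * v).natDegree)
    (hc₁ : IsCoprime s₁ (u * v)) (hc₂ : IsCoprime s₂ (u * v)) (hdvd : u ^ 2 ∣ s₁ - s₂)
    {d : ℕ} (t : Fin d → K) (ht : Function.Injective t)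
    (hvt : v.map (algebraMap F K) = ∏ j, (X - C (t j))) :
    (liou (s₁ ^ 2 + X * (u * v) ^ 2) : ℝ) * liou (s₂ ^ 2 + X * (u * v) ^ 2) =
      e (∑ j, ph s₁ (u * v) (t j) + ∑ j, ph s₂ (u * v) (t j)) := by
  have : Nontrivial A := L.ρ.domain_nontrivial
  have h2K : (2 : K) = 0 := by exact_mod_cast CharP.cast_eq_zero K 2
  have h2F : (2 : F[X]) = 0 := by exact_mod_cast CharP.cast_eq_zero F[X] 2
  obtain ⟨V, hV, hVv, hVd⟩ := L.lift_monic hv
  have hvd : v.natDegree = d := by
    rw [← hv.natDegree_map (algebraMap F K), hvt,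
      natDegree_prod_of_monic _ _ (fun i _ => monic_X_sub_C _)]
    simp
  obtain ⟨τ, σ, hτ, -, hσ⟩ := L.lift_roots_of hV (hVv ▸ hsep) (hVd.trans hvd) t ht (hVv ▸ hvt)
  obtain rfl : t = fun j => L.π (τ j) := funext fun j => (hτ j).symm
  obtain ⟨m₁, n₁⟩ := odd_monic (hu.mul hv) hd₁
  obtain ⟨m₂, n₂⟩ := odd_monic (hu.mul hv) hd₂
  obtain ⟨G₂, hG₂, hG₂s, hG₂d⟩ := L.lift_monic m₂
  obtain ⟨U, Z, hU, hUu, -, hZ⟩ := hensel_factor L.ρ L.ρ_surj (fun x => (L.ker_ρ x).1)
    (CharP.cast_eq_zero F 2) (W := derivative G₂) (b := v ^ 2) (hu.pow 2) huv.pow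
    (by rw [← derivative_map, hG₂s, derivative_odd, mul_pow]) 2
  obtain ⟨g, hg⟩ := hdvd
  obtain ⟨H, hH, hHd⟩ := exists_degree_eq_of_mem_lifts
    (Polynomial.map_surjective L.ρ L.ρ_surj (g ^ 2))
  have hG₁ : (G₂ + H * U ^ 2).Monic := by
    refine hG₂.add_of_left ?_
    rw [(hU.pow 2).degree_mul, hHd, ← (hU.pow 2).degree_map L.ρ, Polynomial.map_pow, hUu,
      ← ((hu.pow 2).pow 2).degree_mul, ← mul_pow, mul_comm g, ← hg,
      degree_eq_natDegree hG₂.ne_zero, hG₂d, n₂]
    refine degree_le_natDegree.trans_lt ?_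
    have := natDegree_sub_le s₁ s₂
    rw [natDegree_pow]
    exact_mod_cast (by omega)
  have hG₁s : (G₂ + H * U ^ 2).map L.ρ = s₁ ^ 2 + X * (u * v) ^ 2 := by
    rw [Polynomial.map_add, Polynomial.map_mul, Polynomial.map_pow, hG₂s, hH, hUu]
    have : s₁ = s₂ + u ^ 2 * g := by linear_combination hg
    rw [this]
    linear_combination (-(s₂ * u ^ 2 * g)) * h2F
  obtain ⟨ν, hνμ, hν, hμ⟩ := L.quot_data (κ := 3) (by norm_num)
  set μ := Ideal.Quotient.mk (Ideal.span {((2 : ℕ) : O) ^ 3}) with hμdef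
  have h8 : (8 : O ⧸ Ideal.span {((2 : ℕ) : O) ^ 3}) = 0 := by exact_mod_cast hμ
  have h2 : ∀ x : O ⧸ Ideal.span {((2 : ℕ) : O) ^ 3}, 2 * x = 0 → ν x = 0 := by
    intro x hx
    obtain ⟨x, rfl⟩ := Ideal.Quotient.mk_surjective x
    rw [← map_ofNat μ 2, ← map_mul, Ideal.Quotient.eq_zero_iff_mem,
      Ideal.mem_span_singleton] at hx
    obtain ⟨c, hc⟩ := hx
    rw [hνμ, L.ker_π]
    refine ⟨2 * c, mul_left_cancel₀ L.p_ne ?_⟩
    push_cast at hc ⊢
    linear_combination hc
  obtain ⟨n, hn⟩ : ∃ n, n = 2 * (u * v).natDegree + 1 := ⟨_, rfl⟩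
  obtain ⟨α₁, δ₁, x₁, y₁, g₁, u₁, f₁, π₁, φ₁, hy₁, k₁⟩ := L.side μ ν hνμ hν h8 h2 hu hv hsep huv
    hd₁ hc₁ τ σ hσ ht hvt hG₁ hG₁s hU hUu
    (Z := Z + (derivative H * U + 2 * H * derivative U)) (by
      convert hZ using 1
      simp only [derivative_add, derivative_mul, derivative_sq, map_ofNat]
      ring) hn
  obtain ⟨α₂, δ₂, x₂, y₂, g₂, u₂, f₂, π₂, φ₂, hy₂, k₂⟩ := L.side μ ν hνμ hν h8 h2 hu hv hsep huv
    hd₂ hc₂ τ σ hσ ht hvt hG₂ hG₂s hU hUu hZ hn
  have hUU := prod_eval_eq_of_dvd (fun i => μ (α₁ i)) (fun i => μ (α₂ i)) (U.map (μ.comp L.ι))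
    (hU.map _) (by
      have a₁ := congrArg (Polynomial.map μ) g₁
      have a₂ := congrArg (Polynomial.map μ) g₂
      simp only [Polynomial.map_prod, Polynomial.map_sub, map_X, map_C,
        Polynomial.map_map] at a₁ a₂
      rw [← a₁, ← a₂, Polynomial.map_add, add_sub_cancel_left, Polynomial.map_mul,
        Polynomial.map_pow]
      exact (dvd_pow_self _ two_ne_zero).mul_left _)
  rw [hUU] at k₁
  have hs : (sgn n : O ⧸ Ideal.span {((2 : ℕ) : O) ^ 3}) * sgn n = 1 := by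
    rw [← Int.cast_mul, sgn_sq, Int.cast_one]
  have h' : μ δ₁ ^ 2 * (μ x₂ ^ 2 * (1 + 4 * μ y₂)) = μ δ₂ ^ 2 * (μ x₁ ^ 2 * (1 + 4 * μ y₁)) := by
    linear_combination (sgn n * (μ x₂ ^ 2 * (1 + 4 * μ y₂))) * k₁ -
      (sgn n * (μ x₁ ^ 2 * (1 + 4 * μ y₁))) * k₂ -
      (μ δ₁ ^ 2 * (μ x₂ ^ 2 * (1 + 4 * μ y₂)) - μ δ₂ ^ 2 * (μ x₁ ^ 2 * (1 + 4 * μ y₁))) * hs
  rw [← hy₁, ← hy₂]
  obtain ⟨z, hz⟩ : ∃ z : K, z ^ 2 + z = L.π y₁ + L.π y₂ := by
    obtain ⟨z, hz⟩ := IsAlgClosed.exists_root (X ^ 2 + X - C (L.π y₁ + L.π y₂)) (by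
      have : (X ^ 2 + X - C (L.π y₁ + L.π y₂)).degree = 2 := by compute_degree!
      rw [this]; decide)
    exact ⟨z, by simpa [sub_eq_zero] using hz⟩
  have hfix : ∀ s : F[X], FiniteField.frobeniusAlgHom F K (∑ j, ph s (u * v) (L.π (τ j))) =
      ∑ j, ph s (u * v) (L.π (τ j)) := by
    intro s
    rw [map_sum, ← Equiv.sum_comp σ (fun j => ph s (u * v) (L.π (τ j)))]
    refine Finset.sum_congr rfl fun j _ => ?_
    rw [map_ph, ← hσ, L.πφ]
    rfl
  have hzq : ∃ η : ℤ, (η = 1 ∨ η = -1) ∧ e (z ^ 2 + z) = η ∧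
      ∀ Z' : O, L.π Z' = z → (4 : O) ∣ (1 + 2 * L.φ Z') - η * (1 + 2 * Z') := by
    have h1 : (z ^ Fintype.card F) ^ 2 + z ^ Fintype.card F = z ^ 2 + z := by
      have := congrArg (FiniteField.frobeniusAlgHom F K) hz
      rw [map_add, map_pow, map_add, hy₁, hy₂, hfix, hfix, ← hy₁, ← hy₂, ← hz] at this
      exact this
    have h3 : (z ^ Fintype.card F - z) * (z ^ Fintype.card F - (z + 1)) = 0 := by
      linear_combination h1 + (z ^ 2 + z - z * z ^ Fintype.card F - z ^ Fintype.card F) * h2K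
    rcases mul_eq_zero.1 h3 with h | h
    · refine ⟨1, Or.inl rfl, by rw [he.pos z (sub_eq_zero.1 h)]; simp, fun Z' hZ' => ?_⟩
      obtain ⟨r, hr⟩ := (L.ker_π (L.φ Z' - Z')).1 (by rw [map_sub, L.πφ, hZ', h])
      refine ⟨r, ?_⟩
      push_cast at hr ⊢
      linear_combination 2 * hr
    · refine ⟨-1, Or.inr rfl, by rw [he.neg z (sub_eq_zero.1 h)]; simp, fun Z' hZ' => ?_⟩
      obtain ⟨r, hr⟩ := (L.ker_π (1 + L.φ Z' + Z')).1 (by
        rw [map_add, map_add, map_one, L.πφ, hZ']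
        linear_combination h + (1 + z) * h2K)
      refine ⟨r, ?_⟩
      push_cast at hr ⊢
      linear_combination 2 * hr
  obtain ⟨η, hη, hηe, hη'⟩ := hzq
  obtain ⟨Z', hZ'⟩ := L.π_surj z
  obtain ⟨r', hr'⟩ := hη' Z' hZ'
  obtain ⟨r, hr⟩ : ((2 : ℕ) : O) ∣ Z' ^ 2 + Z' - (y₁ + y₂) := by
    rw [← L.ker_π]
    simp only [map_sub, map_add, map_pow, hZ', hz, sub_self]
  obtain ⟨c₁, hc₁'⟩ := φ₁
  obtain ⟨c₂, hc₂'⟩ := φ₂
  have := L.sign_detect (κ := 3) (by norm_num) (fun _ => rfl) (δ₁ * x₂) (δ₂ * x₁ * (1 + 2 * Z'))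
    (by rw [map_mul]; exact mul_ne_zero u₁ π₂)
    (by
      rw [← Ideal.mem_span_singleton, ← Ideal.Quotient.eq_zero_iff_mem, ← hμdef]
      have hr2 := congrArg μ hr
      simp only [map_sub, map_add, map_mul, map_pow, map_ofNat, map_one, Nat.cast_ofNat] at hr2 ⊢
      generalize μ y₁ = T₁ at *
      generalize μ y₂ = T₂ at *
      linear_combination (1 + 4 * T₂) * h' - 4 * (μ δ₂ * μ x₁) ^ 2 * hr2 +
        (-(μ δ₁ * μ x₂) ^ 2 * (T₂ + 2 * T₂ ^ 2) + (μ δ₂ * μ x₁) ^ 2 * (2 * T₁ * T₂ - μ r)) * h8)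
    (eps_cases n (s₁ ^ 2 + X * (u * v) ^ 2))
    (ε₂ := η * ((-1) ^ n * liou (s₂ ^ 2 + X * (u * v) ^ 2)))
    (by
      rcases eps_cases n (s₂ ^ 2 + X * (u * v) ^ 2) with h | h <;> rcases hη with h' | h' <;>
        rw [h, h'] <;> simp)
    (by
      refine ⟨L.φ δ₁ * c₂, ?_⟩
      rw [map_mul, ← mul_assoc, ← f₁]
      push_cast
      linear_combination L.φ δ₁ * hc₂')
    (by
      refine ⟨L.φ δ₂ * (c₁ * (1 + 2 * L.φ Z') + x₁ * r'), ?_⟩
      rw [map_mul, map_mul, map_add, map_one, map_mul, map_ofNat, Int.cast_mul]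
      push_cast at f₂ ⊢
      linear_combination (L.φ δ₂ * (1 + 2 * L.φ Z')) * hc₁' + (L.φ δ₂ * x₁) * hr' +
        (η * x₁ * (1 + 2 * Z')) * f₂)
  have h5 : liou (s₁ ^ 2 + X * (u * v) ^ 2) = η * liou (s₂ ^ 2 + X * (u * v) ^ 2) := by
    apply mul_left_cancel₀ (pow_ne_zero n (by norm_num : (-1 : ℤ) ≠ 0))
    linear_combination this
  rw [← hz, hηe, h5]
  rcases liou_cases (s₂ ^ 2 + X * (u * v) ^ 2) with h | h <;> simp [h]

end Pool.Agent.MP_4fffd4_nt

end

section

/- Cancellation in the short variable. -/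

set_option autoImplicit false

namespace Pool.Agent.MP_4fffd4_nt

open Polynomial Finset
open scoped BigOperators

noncomputable instance fintypeDegreeLT {F : Type*} [Field F] [Fintype F] (n : ℕ) :
    Fintype (degreeLT F n) := Fintype.ofEquiv _ (degreeLTEquiv F n).toEquiv.symm

theorem card_degreeLT {F : Type*} [Field F] [Fintype F] (n : ℕ) :
    Fintype.card (degreeLT F n) = Fintype.card F ^ n := by
  rw [Fintype.card_congr (degreeLTEquiv F n).toEquiv, Fintype.card_fun, Fintype.card_fin]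

theorem abs_expect_le_of_good {V : Type*} [Fintype V] [Nonempty V] (Λ Φ : V → ℝ) (bad : V → Prop)
    (hΛ : ∀ x, Λ x = 1 ∨ Λ x = -1) (hΦ : ∀ x, Φ x = 1 ∨ Φ x = -1)
    (h : ∀ x y, ¬ bad x → ¬ bad y → Λ x * Λ y = Φ x * Φ y) :
    |𝔼 x, Λ x| ≤ 2 * 𝔼 x, ind (bad x) + |𝔼 x, Φ x| := by
  by_cases hg : ∃ y, ¬ bad y
  · obtain ⟨y, hy⟩ := hg
    have h1 : 𝔼 x, Λ x = 𝔼 x, (Λ x - Λ y * Φ y * Φ x) + Λ y * Φ y * 𝔼 x, Φ x := by
      rw [Finset.expect_sub_distrib, Finset.mul_expect]; ring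
    have h2 : |Λ y * Φ y| = 1 := by
      rcases hΛ y with a | a <;> rcases hΦ y with b | b <;> simp [a, b]
    rw [h1]
    refine (abs_add_le _ _).trans (add_le_add ?_ (by rw [abs_mul, h2, one_mul]))
    rw [Finset.mul_expect]
    refine (Finset.abs_expect_le _ _).trans (Finset.expect_le_expect fun x _ => ?_)
    by_cases hx : bad x
    · rw [ind_pos hx]
      rcases hΛ y with a | a <;> rcases hΦ y with b | b <;> rcases hΛ x with c | c <;>
        rcases hΦ x with d | d <;> rw [a, b, c, d] <;> norm_num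
    · have := h x y hx hy
      rw [ind_neg hx, mul_zero, abs_nonpos_iff]
      rcases hΛ y with a | a <;> rw [a] at this ⊢ <;> linarith
  · push Not at hg
    simp only [ind_pos (hg _), Fintype.expect_const]
    refine le_trans ?_ (le_add_of_nonneg_right (abs_nonneg _))
    refine (Finset.abs_expect_le _ _).trans (Finset.expect_le univ_nonempty fun x _ => ?_)
    rcases hΛ x with a | a <;> rw [a] <;> norm_num

theorem cube_three {V K ι : Type*} [AddCommGroup V] [Field K] [CharP K 2] [DecidableEq ι]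
    (Θ Θ' : V →+ K) (h : ι → V) {i j l : ι} (hij : i ≠ j) (hil : i ≠ l) (hjl : j ≠ l)
    (hi : Θ (h i) = 0) (hj : Θ (h j) = 0) (hl : Θ (h l) = 0) (g D : K → K) (a : K) (x : V) :
    cube {i, j, l} h (fun x => (g (Θ x) + a ^ 2 * Θ' x ^ 2) ^ 3 / D (Θ x)) x = 0 := by
  have h2 : (2 : K) = 0 := by exact_mod_cast CharP.cast_eq_zero K 2
  rw [cube_insert (by simp [hij, hil]), cube_insert (by simp [hjl]), cube_insert (by simp [hjl]),
    ← insert_empty_eq]
  simp only [cube_insert (notMem_empty _), cube_empty, map_add, hi, hj, hl, add_zero,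
    CharTwo.add_sq, mul_add, ← add_assoc, ← add_div]
  generalize g (Θ x) + a ^ 2 * Θ' x ^ 2 = A
  generalize a ^ 2 * Θ' (h i) ^ 2 = p
  generalize a ^ 2 * Θ' (h j) ^ 2 = q
  generalize a ^ 2 * Θ' (h l) ^ 2 = r
  rw [div_eq_zero_iff]
  left
  linear_combination (4 * A ^ 3 + 6 * A ^ 2 * (p + q + r) +
    6 * A * (p ^ 2 + q ^ 2 + r ^ 2 + p * q + p * r + q * r) + 2 * (p ^ 3 + q ^ 3 + r ^ 3) +
    3 * (p ^ 2 * q + p ^ 2 * r + q ^ 2 * p + q ^ 2 * r + r ^ 2 * p + r ^ 2 * q) +
    3 * p * q * r) * h2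

variable {F : Type*} [Field F]

theorem ph_eq {K : Type*} [Field K] [Algebra F K] [CharP K 2] (α σ w x : F[X]) (t : K) :
    ph (α * x + σ) w t = (((aeval t (derivative α) * aeval t x + aeval t (derivative σ)) ^ 2 +
      t * aeval t (derivative w) ^ 2) + aeval t α ^ 2 * aeval t (derivative x) ^ 2) ^ 3 /
      (aeval t (derivative w) ^ 4 * (aeval t α * aeval t x + aeval t σ) ^ 2) := by
  simp only [ph, derivative_add, derivative_mul, map_add, map_mul, CharTwo.add_sq, mul_pow]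
  congr 2
  ring

/-- Value at `t`. -/
noncomputable def evLT {K : Type*} [Field K] [Algebra F K] (n : ℕ) (t : K) : degreeLT F n →+ K :=
  (aeval t : F[X] →ₐ[F] K).toLinearMap.toAddMonoidHom.comp (degreeLT F n).subtype.toAddMonoidHom

/-- Value of the derivative at `t`. -/
noncomputable def dvLT {K : Type*} [Field K] [Algebra F K] (n : ℕ) (t : K) : degreeLT F n →+ K :=
  ((aeval t : F[X] →ₐ[F] K).toLinearMap.comp derivative).toAddMonoidHom.comp
    (degreeLT F n).subtype.toAddMonoidHom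

theorem mul_mem_degreeLT {Q : F[X]} {ρ n : ℕ} (h : Q.natDegree + ρ ≤ n) (y : degreeLT F ρ) :
    Q * y ∈ degreeLT F n := by
  rw [mem_degreeLT]
  by_cases hy : (y : F[X]) = 0
  · rw [hy, mul_zero, degree_zero]; exact WithBot.bot_lt_coe _
  have h1 := (natDegree_lt_iff_degree_lt hy).2 (mem_degreeLT.1 y.2)
  refine degree_le_natDegree.trans_lt ?_
  have := natDegree_mul_le (p := Q) (q := y)
  exact_mod_cast (by omega)

/-- Multiplication by `Q`. -/
noncomputable def mulLT (Q : F[X]) {ρ n : ℕ} (h : Q.natDegree + ρ ≤ n) :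
    degreeLT F ρ →+ degreeLT F n where
  toFun y := ⟨Q * y, mul_mem_degreeLT h y⟩
  map_zero' := Subtype.ext (by simp)
  map_add' a b := Subtype.ext (by simp [mul_add])

theorem evLT_apply {K : Type*} [Field K] [Algebra F K] (n : ℕ) (t : K) (x : degreeLT F n) :
    evLT n t x = aeval t (x : F[X]) := rfl

theorem dvLT_apply {K : Type*} [Field K] [Algebra F K] (n : ℕ) (t : K) (x : degreeLT F n) :
    dvLT n t x = aeval t (derivative (x : F[X])) := rfl

theorem mulLT_apply (Q : F[X]) {ρ n : ℕ} (h : Q.natDegree + ρ ≤ n) (y : degreeLT F ρ) :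
    (mulLT Q h y : F[X]) = Q * y := rfl

theorem exists_rep {P : F[X]} [Fact (Irreducible P)] (hP : P.Monic) {ρ : ℕ}
    (h : P.natDegree ≤ ρ) {c : AdjoinRoot P} (hc : c ≠ 0) (z : AdjoinRoot P) :
    ∃ y : degreeLT F ρ, c * aeval (AdjoinRoot.root P) (y : F[X]) = z := by
  obtain ⟨y, hy⟩ := AdjoinRoot.mk_surjective (z / c)
  refine ⟨⟨y %ₘ P, mem_degreeLT.2 ((degree_modByMonic_lt _ hP).trans_le
    (degree_le_natDegree.trans (by exact_mod_cast h)))⟩, ?_⟩
  rw [AdjoinRoot.aeval_eq, ← mul_div_cancel₀ z hc, ← hy]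
  congr 1
  exact AdjoinRoot.mk_eq_mk.2 ⟨-(y /ₘ P), by linear_combination modByMonic_add_div y P⟩

open Classical in
/-- The set of roots. -/
noncomputable def rts (K : Type*) [Field K] [Algebra F K] (v : F[X]) : Finset K :=
  (v.aroots K).toFinset

open Classical in
theorem mem_rts {K : Type*} [Field K] [Algebra F K] {v : F[X]} (hv : v ≠ 0) {t : K} :
    t ∈ rts K v ↔ aeval t v = 0 := by
  unfold rts
  rw [Multiset.mem_toFinset, mem_aroots]
  exact and_iff_right hv

theorem sum_rts {K M : Type*} [Field K] [Algebra F K] [AddCommMonoid M] {v : F[X]} (hv : v ≠ 0)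
    {d : ℕ} (t : Fin d → K) (ht : Function.Injective t)
    (hvt : v.map (algebraMap F K) = ∏ j, (X - C (t j))) (g : K → M) :
    ∑ j, g (t j) = ∑ z ∈ rts K v, g z := by
  have : ∀ z, z ∈ rts K v ↔ ∃ j, t j = z := by
    intro z
    rw [mem_rts hv, ← eval_map_algebraMap, hvt, eval_prod, Finset.prod_eq_zero_iff]
    simp [sub_eq_zero, eq_comm]
  exact Finset.sum_bij (fun j _ => t j) (fun j _ => (this _).2 ⟨j, rfl⟩) (fun _ _ _ _ h => ht h)
    (fun z hz => by obtain ⟨j, hj⟩ := (this z).1 hz; exact ⟨j, mem_univ _, hj⟩) fun _ _ => rfl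

variable [Fintype F] [CharP F 2] {K : Type*} [Field K] [Algebra F K] [CharP K 2] [IsAlgClosed K]
  {e : K → ℝ} (he : IsChar F e)

omit [CharP F 2] [CharP K 2] in
theorem sum_rts_eq_trace {P : F[X]} [Fact (Irreducible P)] (s w : F[X]) :
    ∑ z ∈ rts K P, ph s w z =
      algebraMap F K (Algebra.trace F (AdjoinRoot P) (ph s w (AdjoinRoot.root P))) := by
  have hP : Irreducible P := Fact.out
  have : FiniteDimensional F (AdjoinRoot P) := (AdjoinRoot.powerBasis hP.ne_zero).finite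
  rw [trace_eq_sum_embeddings K]
  symm
  refine Finset.sum_bij (fun σ _ => σ (AdjoinRoot.root P)) (fun σ _ => ?_)
    (fun _ _ _ _ h => AdjoinRoot.algHom_ext h) (fun z hz => ?_) fun σ _ => map_ph σ _ _ _
  · rw [mem_rts hP.ne_zero, aeval_algHom_apply, AdjoinRoot.aeval_eq, AdjoinRoot.mk_self, map_zero]
  · exact ⟨AdjoinRoot.liftAlgHom P (Algebra.ofId F K) z ((mem_rts hP.ne_zero).1 hz), mem_univ _,
      AdjoinRoot.liftAlgHom_root _ _ _ _⟩

omit [Field F] [CharP F 2] [Algebra F K] [CharP K 2] [IsAlgClosed K] in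
include he in
theorem IsChar.sum {I : Type*} (s : Finset I) (g : I → K) :
    e (∑ i ∈ s, g i) = ∏ i ∈ s, e (g i) := by
  classical
  induction s using Finset.induction with
  | empty => simpa using he.zero
  | insert a s ha IH => rw [Finset.sum_insert ha, Finset.prod_insert ha, he.add, IH]

omit [CharP F 2] [CharP K 2] [IsAlgClosed K] in
include he in
theorem IsChar.sq_algebraMap (a : F) : e (algebraMap F K (a ^ 2)) = e (algebraMap F K a) := by
  have h1 := he.pos (algebraMap F K a) (by rw [← map_pow, FiniteField.pow_card])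
  rw [he.add, ← map_pow] at h1
  have h2 := he.mul_self (algebraMap F K a)
  linear_combination e (algebraMap F K a) * h1 - e (algebraMap F K (a ^ 2)) * h2

include he in
theorem IsChar.exists_neg : ∃ ν : F, e (algebraMap F K ν) = -1 := by
  have h2K : (2 : K) = 0 := by exact_mod_cast CharP.cast_eq_zero K 2
  have h2F : (2 : F) = 0 := by exact_mod_cast CharP.cast_eq_zero F 2
  obtain ⟨ν, hν⟩ : ∃ ν : F, ∀ a : F, a ^ 2 + a ≠ ν := by
    by_contra h
    push Not at h
    have hs : Function.Surjective fun a : F => a ^ 2 + a := h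
    have := Finite.injective_iff_surjective.2 hs (a₁ := 0) (a₂ := 1) (by
      linear_combination -h2F)
    exact zero_ne_one this
  obtain ⟨z, hz⟩ : ∃ z : K, z ^ 2 + z = algebraMap F K ν := by
    obtain ⟨z, hz⟩ := IsAlgClosed.exists_root (X ^ 2 + X - C (algebraMap F K ν)) (by
      have : (X ^ 2 + X - C (algebraMap F K ν)).degree = 2 := by compute_degree!
      rw [this]; decide)
    exact ⟨z, by simpa [sub_eq_zero] using hz⟩
  refine ⟨ν, hz ▸ he.neg z ?_⟩
  have h1 : (z ^ Fintype.card F) ^ 2 + z ^ Fintype.card F = z ^ 2 + z := by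
    have := congrArg (FiniteField.frobeniusAlgHom F K) hz
    rw [map_add, map_pow, AlgHom.commutes, ← hz] at this
    exact this
  have h3 : (z ^ Fintype.card F - z) * (z ^ Fintype.card F - (z + 1)) = 0 := by
    linear_combination h1 + (z ^ 2 + z - z * z ^ Fintype.card F - z ^ Fintype.card F) * h2K
  rcases mul_eq_zero.1 h3 with h | h
  · obtain ⟨a, rfl⟩ := mem_range_of_pow_card (sub_eq_zero.1 h)
    rw [← map_pow, ← map_add] at hz
    exact absurd ((algebraMap F K).injective hz) (hν a)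
  · exact sub_eq_zero.1 h

omit [Fintype F] [CharP F 2] in
theorem liou_sq_mul {δ g : F[X]} (hδ : δ ≠ 0) (hg : g ≠ 0) : liou (δ ^ 2 * g) = liou g := by
  rw [liou_mul (pow_ne_zero _ hδ) hg, sq, liou_mul hδ hδ]
  rcases liou_cases δ with h | h <;> simp [h]

include he in
theorem cmp_three {α σ u v : F[X]} (hu : u.Monic) (hv : v.Monic) (hsep : v.Separable)
    (huv : IsCoprime u v) (hα : u ^ 2 ∣ α) :
    ∃ δ α' σ' u' : F[X], α = δ * α' ∧ σ = δ * σ' ∧ u = δ * u' ∧ ∀ x y : F[X],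
      (α * x + σ).natDegree ≤ (u * v).natDegree → (α * y + σ).natDegree ≤ (u * v).natDegree →
      IsCoprime (α * x + σ) v → IsCoprime (α * y + σ) v →
      (liou ((α * x + σ) ^ 2 + X * (u * v) ^ 2) : ℝ) * liou ((α * y + σ) ^ 2 + X * (u * v) ^ 2) =
        e (∑ z ∈ rts K v, ph (α' * x + σ') (u' * v) z) *
          e (∑ z ∈ rts K v, ph (α' * y + σ') (u' * v) z) := by
  classical
  obtain ⟨L⟩ := nonempty_liftData 2 F K
  obtain ⟨σ', u', hσ, hu', hc⟩ := extract_gcd σ u
  have hδ : (gcd σ u).Monic := (normalize_eq_self_iff_monic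
    (fun h => hu.ne_zero ((gcd_eq_zero_iff _ _).1 h).2)).1 (normalize_gcd _ _)
  rw [gcd_isUnit_iff] at hc
  generalize gcd σ u = δ at hσ hu' hδ
  obtain ⟨g, rfl⟩ := hα
  subst hσ hu'
  have hu'' : u'.Monic := hδ.of_mul_monic_left hu
  obtain ⟨t, ht, hvt⟩ := exists_roots (K := K) hv hsep rfl
  refine ⟨δ, δ * u' ^ 2 * g, σ', u', by ring, rfl, rfl, fun x y hx hy cx cy => ?_⟩
  have key : ∀ x : F[X], ((δ * u') ^ 2 * g * x + δ * σ').natDegree ≤ (δ * u' * v).natDegree →
      IsCoprime ((δ * u') ^ 2 * g * x + δ * σ') v →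
      (δ * u' ^ 2 * g * x + σ').natDegree ≤ (u' * v).natDegree ∧
      IsCoprime (δ * u' ^ 2 * g * x + σ') (u' * v) ∧
      liou (((δ * u') ^ 2 * g * x + δ * σ') ^ 2 + X * (δ * u' * v) ^ 2) =
        liou ((δ * u' ^ 2 * g * x + σ') ^ 2 + X * (u' * v) ^ 2) := by
    intro x hx cx
    have e1 : (δ * u') ^ 2 * g * x + δ * σ' = δ * (δ * u' ^ 2 * g * x + σ') := by ring
    rw [e1] at hx cx ⊢
    have h1 : (δ * u' ^ 2 * g * x + σ').natDegree ≤ (u' * v).natDegree := by
      by_cases h0 : δ * u' ^ 2 * g * x + σ' = 0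
      · rw [h0, natDegree_zero]; exact Nat.zero_le _
      rw [hδ.natDegree_mul' h0, mul_assoc δ u' v, hδ.natDegree_mul (hu''.mul hv)] at hx
      omega
    refine ⟨h1, IsCoprime.mul_right ?_ cx.of_mul_left_right, ?_⟩
    · rw [show δ * u' ^ 2 * g * x + σ' = σ' + u' * (δ * u' * g * x) by ring]
      exact hc.add_mul_left_left _
    · rw [← liou_sq_mul hδ.ne_zero (odd_monic (hu''.mul hv) h1).1.ne_zero]
      congr 1
      ring
  obtain ⟨a₁, b₁, c₁⟩ := key x hx cx
  obtain ⟨a₂, b₂, c₂⟩ := key y hy cy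
  rw [c₁, c₂, L.cmp_two he hu'' hv hsep huv.of_mul_left_right a₁ a₂ b₁ b₂
    ⟨δ * g * (x - y), by ring⟩ t ht hvt, he.add, sum_rts hv.ne_zero t ht hvt,
    sum_rts hv.ne_zero t ht hvt]

include he in
theorem phase_bound {I J : Type*} [Fintype I] [Fintype J] (α σ w v : I → F[X])
    (hv : ∀ i, v i ≠ 0) {P : F[X]} (hP : P.Monic) (hPi : Irreducible P) {i₀ : I}
    (hi₀ : P ∣ v i₀) (hw : ¬ P ∣ derivative (w i₀)) (hα : ∀ i, ¬ P ∣ α i)
    (hασ : ∀ i, i ≠ i₀ → P ∣ v i → ¬ P ∣ α i * σ i₀ - α i₀ * σ i) (Q : J → F[X])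
    (hQ : ∀ j, ¬ P ∣ Q j) {ρ n : ℕ} (hQn : ∀ j, (Q j).natDegree + ρ ≤ n)
    (hρ : P.natDegree ≤ ρ) (hn : P.natDegree + ρ ≤ n)
    (hcov : ∀ i, ∀ t : K, aeval t (v i) = 0 → aeval t P ≠ 0 → ∃ j, aeval t (Q j) = 0)
    {L : ℕ} (hL : L ≤ P.natDegree) {η : ℝ} (hη : 0 ≤ η) (hη' : 4 / 2 ^ L ≤ η ^ 2) :
    |𝔼 x : degreeLT F n, e (∑ i, ∑ z ∈ rts K (v i), ph (α i * x.1 + σ i) (w i) z)| ^
        2 ^ (Fintype.card J * 3) ≤
      4 * (2 ^ (Fintype.card J * 3) * Fintype.card I) / 2 ^ L + η := by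
  classical
  have : Fact (Irreducible P) := ⟨hPi⟩
  have : FiniteDimensional F (AdjoinRoot P) := (AdjoinRoot.powerBasis hP.ne_zero).finite
  have : Finite (AdjoinRoot P) := Module.finite_of_finite F
  letI : Fintype (AdjoinRoot P) := Fintype.ofFinite _
  have : CharP (AdjoinRoot P) 2 :=
    charP_of_injective_algebraMap (algebraMap F (AdjoinRoot P)).injective 2
  have hcard : (2 : ℝ) ^ L ≤ Fintype.card (AdjoinRoot P) := by
    rw [Module.card_eq_pow_finrank (K := F), (AdjoinRoot.powerBasis hP.ne_zero).finrank,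
      AdjoinRoot.powerBasis_dim]
    exact_mod_cast (Nat.pow_le_pow_right two_pos hL).trans
      (Nat.pow_le_pow_left Fintype.one_lt_card _)
  set τ := AdjoinRoot.root P with hτ
  have hev : ∀ g : F[X], aeval τ g = 0 ↔ P ∣ g := fun g => by
    rw [hτ, AdjoinRoot.aeval_eq, AdjoinRoot.mk_eq_zero]
  set θ : J × Fin 3 → degreeLT F ρ →+ degreeLT F n := fun j => mulLT (Q j.1) (hQn j.1) with hθ
  set T : Finset I := univ.filter fun i => P ∣ v i with hT
  set ψ : AdjoinRoot P → ℝ := fun z => e (algebraMap F K (Algebra.trace F (AdjoinRoot P) z))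
    with hψ
  have h1 := vdc e he.add θ
    (fun x : degreeLT F n => ∑ i, ∑ z ∈ rts K (v i), ph (α i * x.1 + σ i) (w i) z) univ
  rw [card_univ, Fintype.card_prod, Fintype.card_fin] at h1
  have hα₀ : aeval τ (α i₀) ≠ 0 := fun h => hα i₀ ((hev _).1 h)
  have h2 := local_bound (ψ := ψ) (fun a b => by simp only [hψ, map_add, he.add])
    (fun a => he.abs_le _)
    (fun a => by
      simp only [hψ]
      rw [← he.sq_algebraMap (Algebra.trace F _ a), map_pow (algebraMap F K),
        trace_eq_sum_embeddings K, trace_eq_sum_embeddings K, CharTwo.sum_sq]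
      simp only [map_pow])
    (by
      obtain ⟨ν, hν⟩ := he.exists_neg
      obtain ⟨z, rfl⟩ := Algebra.trace_surjective F (AdjoinRoot P) ν
      exact ⟨z, hν⟩)
    (evLT n τ) (dvLT n τ)
    (fun z => by
      obtain ⟨y, hy⟩ := exists_rep hP (ρ := n) (by omega) one_ne_zero z
      exact ⟨y, by rw [evLT_apply, ← hy, one_mul]⟩)
    θ (fun j z => by
      obtain ⟨y, hy⟩ := exists_rep hP hρ (c := aeval τ (Q j.1)) (fun h => hQ _ ((hev _).1 h)) z
      exact ⟨y, by rw [AddMonoidHom.comp_apply, evLT_apply, hθ, mulLT_apply, map_mul, hy]⟩)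
    (mulLT P hn) (fun r => by rw [evLT_apply, mulLT_apply, hev]; exact dvd_mul_right _ _)
    (fun z => by
      obtain ⟨y, hy⟩ := exists_rep hP hρ (c := aeval τ (derivative P)) (fun h => hPi.not_isUnit
        (IsCoprime.isUnit_of_dvd (PerfectField.separable_of_irreducible hPi) ((hev _).1 h))) z
      refine ⟨y, ?_⟩
      rw [AddMonoidHom.comp_apply, dvLT_apply, mulLT_apply, derivative_mul, map_add, map_mul,
        map_mul, (hev P).2 dvd_rfl, zero_mul, add_zero, hy])
    T (fun i z => (aeval τ (derivative (α i)) * z + aeval τ (derivative (σ i))) ^ 2 +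
      τ * aeval τ (derivative (w i)) ^ 2) (fun i => aeval τ (α i))
    (fun i => aeval τ (derivative (w i)) ^ 4) (fun i => aeval τ (σ i))
    (fun i _ h => hα i ((hev _).1 h)) (i₀ := i₀) (by simpa [hT] using hi₀)
    (pow_ne_zero _ fun h => hw ((hev _).1 h)) (z₀ := -aeval τ (σ i₀) / aeval τ (α i₀))
    (by field_simp; ring)
    (fun i hi hne h => hασ i hne (by simpa [hT] using hi) (by
      rw [← hev, map_sub, map_mul, map_mul]
      field_simp at h
      linear_combination -h))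
    hη (le_trans (by gcongr) hη')
  refine h1.trans (le_trans (le_of_eq ?_) (h2.trans ?_))
  · refine Finset.expect_congr rfl fun y _ => ?_
    congr 1
    refine Finset.expect_congr rfl fun x _ => ?_
    simp only [hψ]
    congr 1
    have e1 : ∀ (s : Finset (J × Fin 3)) (φ : I → K → degreeLT F n → K),
        cube s (fun j => θ j (y j)) (fun x => ∑ i, ∑ z ∈ rts K (v i), φ i z x) x =
        ∑ i, ∑ z ∈ rts K (v i), cube s (fun j => θ j (y j)) (φ i z) x := by
      intro s φ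
      unfold cube
      rw [Finset.sum_comm]
      exact Finset.sum_congr rfl fun i _ => Finset.sum_comm
    rw [e1 univ fun i z x => ph (α i * x.1 + σ i) (w i) z]
    have e2 : ∀ i, ∑ z ∈ rts K (v i), cube univ (fun j => θ j (y j))
        (fun x : degreeLT F n => ph (α i * x.1 + σ i) (w i) z) x =
        if P ∣ v i then ∑ z ∈ rts K P, cube univ (fun j => θ j (y j))
          (fun x : degreeLT F n => ph (α i * x.1 + σ i) (w i) z) x else 0 := by
      intro i
      have kill : ∀ z ∈ rts K (v i), aeval z P ≠ 0 → cube univ (fun j => θ j (y j))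
          (fun x : degreeLT F n => ph (α i * x.1 + σ i) (w i) z) x = 0 := by
        intro z hz hzP
        obtain ⟨j, hj⟩ := hcov i z ((mem_rts (hv i)).1 hz) hzP
        refine cube_eq_zero (subset_univ {(j, 0), (j, 1), (j, 2)}) _ _ (fun x => ?_) x
        have hz0 : ∀ l, evLT n z (θ (j, l) (y (j, l))) = 0 := fun l => by
          rw [evLT_apply, hθ, mulLT_apply, map_mul, hj, zero_mul]
        simp only [ph_eq]
        exact cube_three (evLT n z) (dvLT n z) (fun j => θ j (y j)) (i := (j, 0)) (j := (j, 1))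
          (l := (j, 2)) (by simp) (by simp) (by simp) (hz0 0) (hz0 1)
          (hz0 2) (fun a => (aeval z (derivative (α i)) * a + aeval z (derivative (σ i))) ^ 2 +
            z * aeval z (derivative (w i)) ^ 2)
          (fun a => aeval z (derivative (w i)) ^ 4 * (aeval z (α i) * a + aeval z (σ i)) ^ 2) _ x
      split_ifs with h
      · symm
        refine Finset.sum_subset (fun z hz => ?_) fun z hz hz' =>
          kill z hz fun h0 => hz' ((mem_rts hP.ne_zero).2 h0)
        obtain ⟨c, hc⟩ := h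
        rw [mem_rts (hv i), hc, map_mul, (mem_rts hP.ne_zero).1 hz, zero_mul]
      · exact Finset.sum_eq_zero fun z hz => kill z hz fun h0 =>
          aeval_ne_zero_of_not_dvd hPi h0 h ((mem_rts (hv i)).1 hz)
    simp only [e2]
    rw [← Finset.sum_filter, ← hT]
    unfold cube
    simp only [map_sum]
    rw [Finset.sum_comm (s := powerset univ)]
    refine Finset.sum_congr rfl fun i _ => ?_
    rw [Finset.sum_comm]
    refine Finset.sum_congr rfl fun ω _ => ?_
    rw [sum_rts_eq_trace, ph_eq]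
    rfl
  · rw [Fintype.card_prod, Fintype.card_fin]
    have : (T.card : ℝ) ≤ Fintype.card I := by exact_mod_cast card_le_univ T
    gcongr

theorem key {I J : Type*} [Fintype I] [Fintype J] (α σ u v : I → F[X]) (hu : ∀ i, (u i).Monic)
    (hv : ∀ i, (v i).Monic) (hsep : ∀ i, (v i).Separable) (huv : ∀ i, IsCoprime (u i) (v i))
    (huα : ∀ i, u i ^ 2 ∣ α i) {P : F[X]} (hP : P.Monic) (hPi : Irreducible P) {i₀ : I}
    (hi₀ : P ∣ v i₀) (hα : ∀ i, ¬ P ∣ α i)
    (hασ : ∀ i, i ≠ i₀ → P ∣ v i → ¬ P ∣ α i * σ i₀ - α i₀ * σ i) (Q : J → F[X])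
    (hQ : ∀ j, ¬ P ∣ Q j) {ρ n : ℕ} (hQn : ∀ j, (Q j).natDegree + ρ ≤ n)
    (hρ : P.natDegree ≤ ρ) (hn : P.natDegree + ρ ≤ n)
    (hcov : ∀ i, ∀ R, Irreducible R → R ∣ v i → R ∣ P ∨ ∃ j, R ∣ Q j)
    (hd : ∀ i, ∀ x : degreeLT F n, (α i * x.1 + σ i).natDegree ≤ (u i * v i).natDegree)
    {L : ℕ} (hL : L ≤ P.natDegree) {η B : ℝ} (hη : 0 ≤ η) (hη' : 4 / 2 ^ L ≤ η ^ 2) (hB : 0 ≤ B)
    (hB' : 4 * (2 ^ (Fintype.card J * 3) * Fintype.card I) / 2 ^ L + η ≤
      B ^ 2 ^ (Fintype.card J * 3)) :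
    |𝔼 x : degreeLT F n, ∏ i, (liou ((α i * x.1 + σ i) ^ 2 + X * (u i * v i) ^ 2) : ℝ)| ≤
      2 * 𝔼 x : degreeLT F n, ind (∃ i, ¬ IsCoprime (α i * x.1 + σ i) (v i)) + B := by
  obtain ⟨e, he⟩ := exists_isChar F (AlgebraicClosure F)
  choose δ α' σ' u' h₁ h₂ h₃ h₄ using fun i =>
    cmp_three he (σ := σ i) (hu i) (hv i) (hsep i) (huv i) (huα i)
  have h5 := phase_bound he α' σ' (fun i => u' i * v i) v (fun i => (hv i).ne_zero) hP hPi hi₀
    (fun h => by
      rw [derivative_mul, dvd_add_right (hi₀.mul_left _)] at h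
      rcases hPi.prime.dvd_or_dvd h with h | h
      · exact hPi.not_isUnit ((huv i₀).isUnit_of_dvd' (h₃ i₀ ▸ h.mul_left _) hi₀)
      · exact hPi.not_isUnit (IsCoprime.isUnit_of_dvd' (hsep i₀) hi₀ h))
    (fun i h => hα i (h₁ i ▸ h.mul_left _))
    (fun i hi hvi h => hασ i hi hvi (by
      rw [h₁ i, h₁ i₀, h₂ i, h₂ i₀]
      convert h.mul_left (δ i * δ i₀) using 1
      ring))
    Q hQ hQn hρ hn
    (fun i t ht htP => by
      have hint : IsIntegral F t := ⟨v i, hv i, ht⟩
      rcases hcov i _ (minpoly.irreducible hint) (minpoly.dvd F t ht) with h | ⟨j, h⟩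
      · exact absurd (minpoly.dvd_iff.1 h) htP
      · exact ⟨j, minpoly.dvd_iff.1 h⟩)
    hL hη hη'
  refine (abs_expect_le_of_good _ (fun x : degreeLT F n => e (∑ i, ∑ z ∈ rts _ (v i),
    ph (α' i * x.1 + σ' i) (u' i * v i) z)) _ (fun x => ?_) (fun x => he.sign _)
    (fun x y hx hy => ?_)).trans (add_le_add le_rfl ?_)
  · refine Finset.prod_induction _ (fun a : ℝ => a = 1 ∨ a = -1) ?_ (Or.inl rfl) fun i _ => ?_
    · rintro a b (rfl | rfl) (rfl | rfl) <;> simp
    · exact_mod_cast liou_cases _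
  · push Not at hx hy
    rw [he.sum, he.sum, ← Finset.prod_mul_distrib, ← Finset.prod_mul_distrib]
    refine Finset.prod_congr rfl fun i _ => ?_
    exact h₄ i x y (hd i x) (hd i y) (hx i) (hy i)
  · exact (pow_le_pow_iff_left₀ (abs_nonneg _) hB (by positivity)).1 (h5.trans hB')

end Pool.Agent.MP_4fffd4_nt

end

section

/- Counting polynomials with exceptional factorisations. -/

set_option autoImplicit false

namespace Pool.Agent.MP_4fffd4_nt

open Polynomial Finset
open scoped BigOperators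

variable {F : Type*} [Field F] [Fintype F]

variable (F) in
/-- Polynomials of degree less than `n`. -/
noncomputable def ltF (n : ℕ) : Finset F[X] :=
  univ.map ⟨fun y : degreeLT F n => y.1, Subtype.val_injective⟩

variable (F) in
/-- Monic polynomials of degree `n`. -/
noncomputable def monF (n : ℕ) : Finset F[X] :=
  univ.map ⟨fun y : degreeLT F n => X ^ n + y.1, fun _ _ h => Subtype.ext (add_left_cancel h)⟩

theorem card_ltF (n : ℕ) : (ltF F n).card = Fintype.card F ^ n := by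
  rw [ltF, card_map, card_univ, card_degreeLT]

theorem card_monF (n : ℕ) : (monF F n).card = Fintype.card F ^ n := by
  rw [monF, card_map, card_univ, card_degreeLT]

theorem mem_ltF {n : ℕ} {g : F[X]} : g ∈ ltF F n ↔ g.degree < n := by
  simp only [ltF, mem_map, mem_univ, true_and, Function.Embedding.coeFn_mk]
  exact ⟨fun ⟨y, hy⟩ => hy ▸ mem_degreeLT.1 y.2, fun h => ⟨⟨g, mem_degreeLT.2 h⟩, rfl⟩⟩

omit [Fintype F] in
theorem monic_add_LT {n : ℕ} (y : degreeLT F n) :
    (X ^ n + y.1).Monic ∧ (X ^ n + y.1).natDegree = n := by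
  have hd := mem_degreeLT.1 y.2
  exact ⟨monic_X_pow_add hd, by
    rw [natDegree_add_eq_left_of_degree_lt (by rwa [degree_X_pow]), natDegree_X_pow]⟩

theorem mem_monF {n : ℕ} {g : F[X]} : g ∈ monF F n ↔ g.Monic ∧ g.natDegree = n := by
  simp only [monF, mem_map, mem_univ, true_and, Function.Embedding.coeFn_mk]
  refine ⟨fun ⟨y, hy⟩ => hy ▸ monic_add_LT y, fun ⟨h1, h2⟩ => ⟨⟨g - X ^ n, mem_degreeLT.2 ?_⟩, by
    simp⟩⟩
  have h3 : g.degree = n := by rw [degree_eq_natDegree h1.ne_zero, h2]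
  rw [← h3]
  exact degree_sub_lt (by rw [h3, degree_X_pow]) h1.ne_zero (by simp [h1])

theorem sum_monF {M : Type*} [AddCommMonoid M] (n : ℕ) (G : F[X] → M) :
    ∑ g ∈ monF F n, G g = ∑ y : degreeLT F n, G (X ^ n + y.1) := Finset.sum_map _ _ _

theorem two_le_card : (2 : ℝ) ≤ Fintype.card F := by exact_mod_cast Fintype.one_lt_card

theorem card_pos' : (0 : ℝ) < Fintype.card F := two_pos.trans_le two_le_card

theorem geom_tail (L M : ℕ) : ∑ d ∈ Ico (L + 1) M, (1 / (Fintype.card F : ℝ) ^ d) ≤ 1 / 2 ^ L := by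
  refine (Finset.sum_le_sum (g := fun d => (1 / 2 : ℝ) ^ d) fun d _ => ?_).trans
    ((geom_sum_Ico_le_of_lt_one (by norm_num) (by norm_num)).trans_eq ?_)
  · rw [one_div_pow]
    have := two_le_card (F := F)
    gcongr
  · rw [one_div_pow, pow_succ]
    field_simp
    norm_num

variable {α : Type*} [Fintype α]

theorem sum_dvd_monic (W : α → F[X]) (hinj : Function.Injective W) {m : ℕ}
    (hW : ∀ x, (W x).Monic ∧ (W x).natDegree = m) {δ : F[X]} (hδ : δ.Monic) :
    ∑ x, ind (δ ∣ W x) ≤ (Fintype.card F : ℝ) ^ m / Fintype.card F ^ δ.natDegree := by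
  have hq := card_pos' (F := F)
  by_cases h : δ.natDegree ≤ m
  · refine (sum_ind_le (monF F (m - δ.natDegree)) (fun x => W x /ₘ δ) ?_ ?_).trans_eq ?_
    · rintro x y ⟨g, hg⟩ ⟨g', hg'⟩ e
      apply hinj
      rw [hg, hg', mul_divByMonic_cancel_left _ hδ, mul_divByMonic_cancel_left _ hδ] at e
      rw [hg, hg', e]
    · rintro x ⟨g, hg⟩
      rw [mem_monF, hg, mul_divByMonic_cancel_left _ hδ]
      have hg' := hδ.of_mul_monic_left (hg ▸ (hW x).1)
      exact ⟨hg', by rw [← (hW x).2, hg, hδ.natDegree_mul hg']; omega⟩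
    · rw [card_monF, Nat.cast_pow, pow_sub₀ _ hq.ne' h, div_eq_mul_inv]
  · rw [Finset.sum_eq_zero fun x _ => ind_neg fun hx =>
      h ((hW x).2 ▸ natDegree_le_of_dvd hx (hW x).1.ne_zero)]
    positivity

theorem sum_dvd_lt (S : α → F[X]) (hinj : Function.Injective S) {n : ℕ}
    (hS : ∀ x, (S x).degree < n) {δ : F[X]} (hδ : δ.Monic) (h : δ.natDegree ≤ n) :
    ∑ x, ind (δ ∣ S x) ≤ (Fintype.card F : ℝ) ^ n / Fintype.card F ^ δ.natDegree := by
  have hq := card_pos' (F := F)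
  refine (sum_ind_le (ltF F (n - δ.natDegree)) (fun x => S x /ₘ δ) ?_ ?_).trans_eq ?_
  · rintro x y ⟨g, hg⟩ ⟨g', hg'⟩ e
    apply hinj
    rw [hg, hg', mul_divByMonic_cancel_left _ hδ, mul_divByMonic_cancel_left _ hδ] at e
    rw [hg, hg', e]
  · rintro x ⟨g, hg⟩
    rw [mem_ltF, hg, mul_divByMonic_cancel_left _ hδ]
    by_cases h0 : g = 0
    · rw [h0, degree_zero]; exact WithBot.bot_lt_coe _
    have := (natDegree_lt_iff_degree_lt (mul_ne_zero hδ.ne_zero h0)).2 (hg ▸ hS x)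
    rw [hδ.natDegree_mul' h0] at this
    exact (natDegree_lt_iff_degree_lt h0).1 (by omega)
  · rw [card_ltF, Nat.cast_pow, pow_sub₀ _ hq.ne' h, div_eq_mul_inv]

theorem sum_sq_dvd (W : α → F[X]) (hinj : Function.Injective W) {m : ℕ}
    (hW : ∀ x, (W x).Monic ∧ (W x).natDegree = m) (L : ℕ) :
    ∑ x, ind (∃ δ : F[X], δ.Monic ∧ L < δ.natDegree ∧ δ ^ 2 ∣ W x) ≤
      (Fintype.card F : ℝ) ^ m / 2 ^ L := by
  have hq := card_pos' (F := F)
  calc _ ≤ ∑ x, ∑ d ∈ Ico (L + 1) (m + 1), ∑ δ ∈ monF F d, ind (δ ^ 2 ∣ W x) := by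
        refine Finset.sum_le_sum fun x _ => ?_
        rw [Finset.sum_sigma']
        refine ind_le_sum ?_
        rintro ⟨δ, h1, h2, h3⟩
        have := natDegree_le_of_dvd h3 (hW x).1.ne_zero
        rw [h1.natDegree_pow, (hW x).2] at this
        exact ⟨⟨δ.natDegree, δ⟩, by simp [mem_monF, h1]; omega, h3⟩
    _ ≤ ∑ d ∈ Ico (L + 1) (m + 1), (Fintype.card F : ℝ) ^ m * (1 / Fintype.card F ^ d) := by
        rw [Finset.sum_comm]
        refine Finset.sum_le_sum fun d _ => ?_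
        rw [Finset.sum_comm]
        refine (Finset.sum_le_card_nsmul _ _ ((Fintype.card F : ℝ) ^ m / Fintype.card F ^ (2 * d))
          fun δ hδ => ?_).trans_eq ?_
        · obtain ⟨h1, h2⟩ := mem_monF.1 hδ
          have := sum_dvd_monic W hinj hW (h1.pow 2)
          rwa [h1.natDegree_pow, h2] at this
        · rw [card_monF, nsmul_eq_mul]
          push_cast
          field_simp
          ring
    _ ≤ _ := by
        rw [← Finset.mul_sum, div_eq_mul_one_div]
        exact mul_le_mul_of_nonneg_left (geom_tail _ _) (by positivity)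

theorem sum_common_dvd {β : Type*} [Fintype β] (W : α → F[X]) (hinj : Function.Injective W) {m : ℕ}
    (hW : ∀ x, (W x).Monic ∧ (W x).natDegree = m) (S : β → F[X]) (hinj' : Function.Injective S)
    (hS : ∀ y, (S y).degree < (m + 1 : ℕ)) (L : ℕ) :
    ∑ x, ∑ y, ind (∃ δ : F[X], δ.Monic ∧ L < δ.natDegree ∧ δ ∣ W x ∧ δ ∣ S y) ≤
      (Fintype.card F : ℝ) ^ m * Fintype.card F ^ (m + 1) / 2 ^ L := by
  have hq := card_pos' (F := F)
  calc _ ≤ ∑ x, ∑ y, ∑ d ∈ Ico (L + 1) (m + 1), ∑ δ ∈ monF F d,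
          ind (δ ∣ W x) * ind (δ ∣ S y) := by
        refine Finset.sum_le_sum fun x _ => Finset.sum_le_sum fun y _ => ?_
        rw [Finset.sum_sigma']
        refine (ind_le_sum (s := (Ico (L + 1) (m + 1)).sigma (monF F))
          (Q := fun δ => δ.2 ∣ W x ∧ δ.2 ∣ S y) ?_).trans (Finset.sum_le_sum fun δ _ => ?_)
        · rintro ⟨δ, h1, h2, h3, h4⟩
          have := natDegree_le_of_dvd h3 (hW x).1.ne_zero
          rw [(hW x).2] at this
          exact ⟨⟨δ.natDegree, δ⟩, by simp [mem_monF, h1]; omega, h3, h4⟩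
        · by_cases h : δ.2 ∣ W x ∧ δ.2 ∣ S y
          · rw [ind_pos h, ind_pos h.1, ind_pos h.2, one_mul]
          · rw [ind_neg h]; exact mul_nonneg (ind_nonneg _) (ind_nonneg _)
    _ = ∑ d ∈ Ico (L + 1) (m + 1), ∑ δ ∈ monF F d,
          (∑ x, ind (δ ∣ W x)) * ∑ y, ind (δ ∣ S y) := by
        simp only [Finset.sum_mul_sum]
        rw [Finset.sum_congr rfl fun x _ => Finset.sum_comm, Finset.sum_comm]
        refine Finset.sum_congr rfl fun d _ => ?_
        rw [Finset.sum_congr rfl fun x _ => Finset.sum_comm, Finset.sum_comm]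
    _ ≤ ∑ d ∈ Ico (L + 1) (m + 1), (Fintype.card F : ℝ) ^ m * Fintype.card F ^ (m + 1) *
          (1 / Fintype.card F ^ d) := by
        refine Finset.sum_le_sum fun d hd => ?_
        refine (Finset.sum_le_card_nsmul _ _ ((Fintype.card F : ℝ) ^ m / Fintype.card F ^ d *
          ((Fintype.card F : ℝ) ^ (m + 1) / Fintype.card F ^ d)) fun δ hδ => ?_).trans_eq ?_
        · obtain ⟨h1, rfl⟩ := mem_monF.1 hδ
          exact mul_le_mul (sum_dvd_monic W hinj hW h1)
            (sum_dvd_lt S hinj' hS h1 (mem_Ico.1 hd).2.le)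
            (Finset.sum_nonneg fun _ _ => ind_nonneg _) (by positivity)
        · rw [card_monF, nsmul_eq_mul]
          push_cast
          field_simp
    _ ≤ _ := by
        rw [← Finset.mul_sum, div_eq_mul_one_div]
        exact mul_le_mul_of_nonneg_left (geom_tail _ _) (by positivity)

/-- All irreducible factors have degree larger than `L`. -/
def Rough (L : ℕ) (v : F[X]) : Prop :=
  ∀ P : F[X], P.Monic → Irreducible P → P ∣ v → L < P.natDegree

variable (F) in
/-- The product of the monic polynomials of degree at most `L`. -/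
noncomputable def smallProd (L : ℕ) : F[X] := ∏ d ∈ range (L + 1), ∏ g ∈ monF F d, g

theorem monic_smallProd (L : ℕ) : (smallProd F L).Monic :=
  monic_prod_of_monic _ _ fun _ _ => monic_prod_of_monic _ _ fun _ hg => (mem_monF.1 hg).1

theorem dvd_smallProd {L : ℕ} {g : F[X]} (hg : g.Monic) (h : g.natDegree ≤ L) :
    g ∣ smallProd F L :=
  (Finset.dvd_prod_of_mem (fun g => g) (mem_monF.2 ⟨hg, rfl⟩)).trans
    (Finset.dvd_prod_of_mem (fun d => ∏ g ∈ monF F d, g) (mem_range.2 (by omega)))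

theorem le_of_dvd_smallProd {L : ℕ} {P : F[X]} (hP : Irreducible P) (h : P ∣ smallProd F L) :
    P.natDegree ≤ L := by
  obtain ⟨d, hd, h⟩ := (hP.prime.dvd_finset_prod_iff _).1 h
  obtain ⟨g, hg, h⟩ := (hP.prime.dvd_finset_prod_iff _).1 h
  obtain ⟨h1, h2⟩ := mem_monF.1 hg
  have := natDegree_le_of_dvd h h1.ne_zero
  have := mem_range.1 hd
  omega

omit [Fintype F] in
theorem isCoprime_of_monic {a b : F[X]} (hb : b ≠ 0)
    (h : ∀ P : F[X], P.Monic → Irreducible P → P ∣ a → ¬ P ∣ b) : IsCoprime a b := by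
  refine isCoprime_of_irreducible_dvd (fun h => hb h.2) fun z hz ha hb => ?_
  obtain ⟨P, h1, h2, h3⟩ := exists_monic_irreducible_factor z hz.not_isUnit
  exact h P h1 h2 (h3.trans ha) (h3.trans hb)

theorem rough_count (L : ℕ) : ∃ j₀ : ℕ, ∀ j, j₀ ≤ j →
    ∑ v ∈ monF F j, ind (Rough L v) ≤ (Fintype.card F : ℝ) ^ j / (L + 1) := by
  classical
  have hq := card_pos' (F := F)
  set M := smallProd F L with hM
  have hMm : M.Monic := monic_smallProd L
  have := hMm.finite_adjoinRoot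
  have : Finite (AdjoinRoot M) := Module.finite_of_finite F
  letI : Fintype (AdjoinRoot M) := Fintype.ofFinite _
  set r : ℝ := 𝔼 z : AdjoinRoot M, ind (∃ v, AdjoinRoot.mk M v = z ∧ Rough L v) with hr
  have h1 : ∀ j, M.natDegree ≤ j → ∑ v ∈ monF F j, ind (Rough L v) = Fintype.card F ^ j * r := by
    intro j hj
    rw [sum_monF, ← Fintype.card_mul_expect, card_degreeLT, Nat.cast_pow, hr,
      ← expect_shift _ (AdjoinRoot.mk M (X ^ j)),
      ← expect_surj ((AdjoinRoot.mk M).toAddMonoidHom.comp (degreeLT F j).subtype.toAddMonoidHom)]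
    · congr 1
      refine Finset.expect_congr rfl fun y _ => congrArg ind (propext ⟨fun h => ⟨_, ?_, h⟩, ?_⟩)
      · rw [map_add, add_comm]; rfl
      · rintro ⟨v, hv, h⟩ P hP hPi hd
        by_contra hL
        refine hL (h P hP hPi ?_)
        have h2 : M ∣ v - (X ^ j + y.1) := AdjoinRoot.mk_eq_mk.1 (by
          rw [hv, map_add, add_comm]; rfl)
        simpa using dvd_add ((dvd_smallProd hP (not_lt.1 hL)).trans h2) hd
    · intro z
      obtain ⟨y, rfl⟩ := AdjoinRoot.mk_surjective z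
      exact ⟨⟨y %ₘ M, mem_degreeLT.2 ((degree_modByMonic_lt _ hMm).trans_le
        (degree_le_natDegree.trans (by exact_mod_cast hj)))⟩,
        AdjoinRoot.mk_eq_mk.2 (show M ∣ y %ₘ M - y from
          ⟨-(y /ₘ M), by linear_combination modByMonic_add_div y M⟩)⟩
  refine ⟨M.natDegree, fun j hj => ?_⟩
  rw [h1 j hj, div_eq_mul_one_div]
  refine mul_le_mul_of_nonneg_left ?_ (by positivity)
  set n := M.natDegree + L with hn
  have h2 : ((range (L + 1)).sigma fun d => monF F d ×ˢ (monF F (n - d)).filter (Rough L)).card ≤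
      (monF F n).card := by
    refine Finset.card_le_card_of_injOn (fun x => x.2.1 * x.2.2) ?_ ?_
    · rintro ⟨d, g, v⟩ hx
      simp only [coe_sigma, Set.mem_sigma_iff, mem_coe, mem_range, mem_product, mem_filter,
        mem_monF] at hx ⊢
      obtain ⟨a, ⟨b, c⟩, ⟨e, f⟩, -⟩ := hx
      exact ⟨b.mul e, by rw [b.natDegree_mul e]; omega⟩
    · rintro ⟨d, g, v⟩ hx ⟨d', g', v'⟩ hx' e
      simp only [coe_sigma, Set.mem_sigma_iff, mem_coe, mem_range, mem_product, mem_filter,
        mem_monF] at hx hx' e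
      obtain ⟨a, ⟨b, c⟩, ⟨e₁, -⟩, f⟩ := hx
      obtain ⟨a', ⟨b', c'⟩, ⟨e₁', -⟩, f'⟩ := hx'
      have k : ∀ g v : F[X], g.Monic → g.natDegree < L + 1 → v.Monic → Rough L v →
          IsCoprime g v := fun g v hg hgd hv hr => isCoprime_of_monic hv.ne_zero
        fun P hP hPi h1 h2 => by
          have := natDegree_le_of_dvd h1 hg.ne_zero
          have := hr P hP hPi h2
          omega
      have hgg : g = g' := eq_of_monic_of_associated b b' (associated_of_dvd_dvd
        ((k g v' b (c ▸ a) e₁' f').dvd_of_dvd_mul_right (e ▸ dvd_mul_right _ _))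
        ((k g' v b' (c' ▸ a') e₁ f).dvd_of_dvd_mul_right (e ▸ dvd_mul_right _ _)))
      subst hgg c c'
      rw [mul_left_cancel₀ b.ne_zero e]
  rw [card_sigma, card_monF, ← Nat.cast_le (α := ℝ), Nat.cast_sum, Nat.cast_pow,
    Finset.sum_congr rfl (g := fun _ => (Fintype.card F : ℝ) ^ n * r)] at h2
  · rw [Finset.sum_const, card_range, nsmul_eq_mul] at h2
    push_cast at h2
    rw [le_div_iff₀ (by positivity)]
    refine le_of_mul_le_mul_left (a := (Fintype.card F : ℝ) ^ n) ?_ (by positivity)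
    linarith
  · intro d hd
    have := mem_range.1 hd
    have h3 := h1 (n - d) (by omega)
    have h4 : (((monF F (n - d)).filter (Rough L)).card : ℝ) =
        ∑ v ∈ monF F (n - d), ind (Rough L v) := by
      rw [Finset.card_filter]
      push_cast
      exact Finset.sum_congr rfl fun x _ => by unfold ind; congr
    rw [card_product, card_monF, Nat.cast_mul, h4, h3, Nat.cast_pow, ← mul_assoc, ← pow_add]
    congr 2
    omega

theorem sum_almost_rough (L D : ℕ) : ∃ j₀ : ℕ, ∀ m, j₀ ≤ m → ∀ {α : Type*} [Fintype α]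
    (W : α → F[X]), Function.Injective W → (∀ x, (W x).Monic ∧ (W x).natDegree = m) →
    ∑ x, ind (∃ g v : F[X], g.Monic ∧ g.natDegree ≤ D ∧ W x = g * v ∧ Rough L v) ≤
      (Fintype.card F : ℝ) ^ m * ((D + 1) / (L + 1)) := by
  classical
  have hq := card_pos' (F := F)
  obtain ⟨j₀, hj₀⟩ := rough_count (F := F) L
  refine ⟨j₀ + D, fun m hm α _ W hinj hW => ?_⟩
  calc _ ≤ ∑ x, ∑ d ∈ range (D + 1), ∑ g ∈ monF F d, ind (∃ v, W x = g * v ∧ Rough L v) := by
        refine Finset.sum_le_sum fun x _ => ?_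
        rw [Finset.sum_sigma']
        refine ind_le_sum ?_
        rintro ⟨g, v, h1, h2, h3⟩
        exact ⟨⟨g.natDegree, g⟩, by simp [mem_monF, h1]; omega, v, h3⟩
    _ ≤ ∑ d ∈ range (D + 1), (Fintype.card F : ℝ) ^ m / (L + 1) := by
        rw [Finset.sum_comm]
        refine Finset.sum_le_sum fun d hd => ?_
        have hd' := mem_range.1 hd
        rw [Finset.sum_comm]
        refine (Finset.sum_le_card_nsmul _ _ ((Fintype.card F : ℝ) ^ (m - d) / (L + 1))
          fun g hg => ?_).trans_eq ?_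
        · obtain ⟨h1, h2⟩ := mem_monF.1 hg
          refine (sum_ind_le ((monF F (m - d)).filter (Rough L)) (fun x => W x /ₘ g) ?_ ?_).trans
            (le_trans (le_of_eq ?_) (hj₀ (m - d) (by omega)))
          · rintro x y ⟨v, hv, -⟩ ⟨v', hv', -⟩ e
            apply hinj
            rw [hv, hv', mul_divByMonic_cancel_left _ h1, mul_divByMonic_cancel_left _ h1] at e
            rw [hv, hv', e]
          · rintro x ⟨v, hv, hr⟩
            rw [mem_filter, mem_monF, hv, mul_divByMonic_cancel_left _ h1]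
            have hv' := h1.of_mul_monic_left (hv ▸ (hW x).1)
            exact ⟨⟨hv', by rw [← (hW x).2, hv, h1.natDegree_mul hv']; omega⟩, hr⟩
          · rw [Finset.card_filter]
            push_cast
            exact Finset.sum_congr rfl fun x _ => by unfold ind; congr
        · rw [card_monF, nsmul_eq_mul, Nat.cast_pow, ← mul_div_assoc, ← pow_add]
          congr 2
          omega
    _ = _ := by
        rw [Finset.sum_const, card_range, nsmul_eq_mul]
        push_cast
        ring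

end Pool.Agent.MP_4fffd4_nt

end
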