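import Mathlib
import Pool.Agent.Mg.F43e117.Gf80e43

/- Primes in short intervals of `F[X]`, characteristic two: definitions and basic facts. -/

set_option autoImplicit false

namespace Pool.Agent.MP_c853c5_nt

open Polynomial Finset Pool.Agent.MP_4fffd4_nt
open scoped BigOperators

/-- A character with values `1, -1` of an additive group. -/
structure Sgn {A : Type*} [Add A] (ψ : A → ℝ) : Prop where
  add : ∀ a b, ψ (a + b) = ψ a * ψ b
  sign : ∀ a, ψ a = 1 ∨ ψ a = -1

namespace Sgn

variable {A : Type*}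

theorem mul_self [Add A] {ψ : A → ℝ} (h : Sgn ψ) (a : A) : ψ a * ψ a = 1 := by
  rcases h.sign a with e | e <;> simp [e]

theorem abs_eq [Add A] {ψ : A → ℝ} (h : Sgn ψ) (a : A) : |ψ a| = 1 := by
  rcases h.sign a with e | e <;> simp [e]

theorem zero [AddZeroClass A] {ψ : A → ℝ} (h : Sgn ψ) : ψ 0 = 1 := by
  have := h.add 0 0
  rw [add_zero, h.mul_self] at this
  exact this

theorem comp {B : Type*} [Add A] [Add B] {ψ : A → ℝ} (h : Sgn ψ) (L : B → A)
    (hL : ∀ a b, L (a + b) = L a + L b) : Sgn fun b => ψ (L b) :=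
  ⟨fun a b => by rw [hL, h.add], fun _ => h.sign _⟩

theorem expect_eq_zero [AddCommGroup A] [Fintype A] {ψ : A → ℝ} (h : Sgn ψ) {a : A}
    (ha : ψ a ≠ 1) : 𝔼 x, ψ x = 0 := by
  have h1 := expect_shift ψ a
  simp only [h.add, (h.sign a).resolve_left ha, mul_neg, mul_one,
    Finset.expect_neg_distrib] at h1
  linarith

theorem expect_eq_ind [AddCommGroup A] [Fintype A] {ψ : A → ℝ} (h : Sgn ψ) :
    𝔼 x, ψ x = ind (∀ x, ψ x = 1) := by
  by_cases h1 : ∀ x, ψ x = 1
  · simp only [h1, Fintype.expect_const]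
    exact (ind_pos fun _ => trivial).symm
  · rw [ind_neg h1]
    push Not at h1
    obtain ⟨a, ha⟩ := h1
    exact h.expect_eq_zero ha

end Sgn

variable {F : Type*} [Field F] [Fintype F]

/-- The character `(-1) ^ trace` of `F`. -/
structure Chr (e : F → ℝ) : Prop extends Sgn e where
  sq : ∀ c, e (c ^ 2) = e c
  neg : ∃ c, e c = -1

omit [Fintype F] in
theorem Chr.eq_zero {e : F → ℝ} (he : Chr e) {a : F} (h : ∀ c, e (c * a) = 1) : a = 0 := by
  by_contra ha
  obtain ⟨c, hc⟩ := he.neg
  have := h (c / a)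
  rw [div_mul_cancel₀ _ ha, hc] at this
  norm_num at this

open Classical in
/-- The Moebius function. -/
noncomputable def mu (g : F[X]) : ℝ := if Squarefree g then (liou g : ℝ) else 0

open Classical in
/-- The von Mangoldt function. -/
noncomputable def vm (g : F[X]) : ℝ :=
  if h : ∃ P : F[X], P.Monic ∧ Irreducible P ∧ ∃ a, 0 < a ∧ g = P ^ a then h.choose.natDegree
  else 0

open Classical in
/-- The monic divisors. -/
noncomputable def divs (g : F[X]) : Finset F[X] :=
  ((range (g.natDegree + 1)).biUnion (monF F)).filter (· ∣ g)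

variable (F) in
open Classical in
/-- The monic irreducible polynomials of degree `n`. -/
noncomputable def irrF (n : ℕ) : Finset F[X] := (monF F n).filter Irreducible

/-- The number of ways to write `W` as an element of `T` times a monic of degree `r`. -/
noncomputable def gw (T : Finset F[X]) (r : ℕ) (W : F[X]) : ℝ :=
  ∑ v ∈ T, ∑ s ∈ monF F r, ind (v * s = W)

variable (F) in
open Classical in
/-- Products of irreducibles of degrees `d, d + 1, ..., d + u`. -/
noncomputable def goodV (d u : ℕ) : Finset F[X] :=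
  (Fintype.piFinset fun i : Fin (u + 1) => irrF F (d + i)).image fun P => ∏ i, P i

/-- A multiplicative function of the top `K` coefficients below the leading one. -/
structure IsDepth (K : ℕ) (χ : F[X] → ℂ) : Prop where
  mul : ∀ g h : F[X], g.Monic → h.Monic → χ (g * h) = χ g * χ h
  norm : ∀ g : F[X], g.Monic → ‖χ g‖ = 1
  X : χ X = 1
  inv : ∀ g z : F[X], g.Monic → z.degree + K < g.degree → χ (g + z) = χ g

omit [Fintype F] in
theorem abs_mu_le (g : F[X]) : |mu g| ≤ 1 := by
  unfold mu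
  split_ifs
  · rcases liou_cases g with h | h <;> simp [h]
  · simp

theorem mem_divs {g d : F[X]} (hg : g ≠ 0) : d ∈ divs g ↔ d.Monic ∧ d ∣ g := by
  classical
  simp only [divs, mem_filter, mem_biUnion, mem_range, mem_monF]
  exact ⟨fun ⟨⟨_, _, h, _⟩, h'⟩ => ⟨h, h'⟩, fun ⟨h, h'⟩ =>
    ⟨⟨_, Nat.lt_succ_of_le (natDegree_le_of_dvd h' hg), h, rfl⟩, h'⟩⟩

theorem mem_irrF {n : ℕ} {g : F[X]} :
    g ∈ irrF F n ↔ g.Monic ∧ g.natDegree = n ∧ Irreducible g := by
  classical
  simp only [irrF, mem_filter, mem_monF, and_assoc]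

theorem mem_goodV {d u : ℕ} {v : F[X]} : v ∈ goodV F d u ↔ ∃ P : Fin (u + 1) → F[X],
    (∀ i, (P i).Monic ∧ (P i).natDegree = d + i ∧ Irreducible (P i)) ∧ ∏ i, P i = v := by
  classical
  simp only [goodV, mem_image, Fintype.mem_piFinset, mem_irrF]

theorem gw_nonneg (T : Finset F[X]) (r : ℕ) (W : F[X]) : 0 ≤ gw T r W :=
  Finset.sum_nonneg fun _ _ => Finset.sum_nonneg fun _ _ => ind_nonneg _

theorem expect_LT (n : ℕ) (G : degreeLT F n → ℝ) :
    𝔼 x, G x = (∑ x, G x) / (Fintype.card F : ℝ) ^ n := by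
  rw [Fintype.expect_eq_sum_div_card, card_degreeLT, Nat.cast_pow]

variable [CharP F 2]

theorem exists_chr : ∃ e : F → ℝ, Chr e := by
  obtain ⟨e, he⟩ := exists_isChar F (AlgebraicClosure F)
  exact ⟨fun c => e (algebraMap F _ c), ⟨⟨fun a b => by rw [map_add, he.add], fun _ => he.sign _⟩,
    he.sq_algebraMap, he.exists_neg⟩⟩

theorem exists_sq_add' (h : F[X]) : ∃ η σ : F[X], h = σ ^ 2 + X * η ^ 2 := by
  induction h using Polynomial.induction_on' with
  | add p q hp hq =>
    obtain ⟨η, σ, rfl⟩ := hp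
    obtain ⟨η', σ', rfl⟩ := hq
    exact ⟨η + η', σ + σ', by rw [CharTwo.add_sq, CharTwo.add_sq]; ring⟩
  | monomial n a =>
    obtain ⟨c, rfl⟩ := (bijective_frobenius F 2).2 a
    rw [frobenius_def, ← C_mul_X_pow_eq_monomial, map_pow]
    obtain ⟨j, rfl | rfl⟩ := Nat.even_or_odd' n
    · exact ⟨0, C c * X ^ j, by ring⟩
    · exact ⟨C c * X ^ j, 0, by ring⟩

/-- The odd part: `g = σ ^ 2 + X * od g ^ 2`. -/
noncomputable def od (g : F[X]) : F[X] := (exists_sq_add' g).choose

theorem exists_od (g : F[X]) : ∃ σ : F[X], g = σ ^ 2 + X * od g ^ 2 :=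
  (exists_sq_add' g).choose_spec

theorem od_sq (g : F[X]) : od g ^ 2 = derivative g := by
  obtain ⟨σ, h⟩ := exists_od g
  conv_rhs => rw [h, derivative_odd]

omit [Fintype F] in
theorem sq_inj {a b : F[X]} (h : a ^ 2 = b ^ 2) : a = b :=
  frobenius_inj F[X] 2 h

theorem od_eq {g η : F[X]} (h : derivative g = η ^ 2) : od g = η := sq_inj ((od_sq g).trans h)

theorem od_add (a b : F[X]) : od (a + b) = od a + od b :=
  od_eq (by rw [derivative_add, CharTwo.add_sq, od_sq, od_sq])

theorem od_zero : od (0 : F[X]) = 0 := od_eq (by simp)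

theorem od_sq_mul (x g : F[X]) : od (x ^ 2 * g) = x * od g := by
  have h2F : (2 : F[X]) = 0 := by exact_mod_cast CharP.cast_eq_zero F[X] 2
  refine od_eq ?_
  rw [derivative_mul, derivative_sq, mul_pow, od_sq, map_ofNat, h2F]
  ring

theorem od_of_sq (x : F[X]) : od (x ^ 2) = 0 := by
  have := od_sq_mul x 1
  rwa [mul_one, od_eq (g := 1) (η := 0) (by simp), mul_zero] at this

/-- The odd part as an additive map. -/
noncomputable def odHom : F[X] →+ F[X] where
  toFun := od
  map_zero' := od_zero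
  map_add' := od_add

theorem odHom_apply (g : F[X]) : odHom g = od g := rfl

omit [Fintype F] in
theorem coeff_sq_two_mul (x : F[X]) (l : ℕ) : (x ^ 2).coeff (2 * l) = x.coeff l ^ 2 := by
  rw [← map_frobenius_expand 2 x, coeff_map, coeff_expand_mul' two_pos, frobenius_def]

theorem coeff_od (g : F[X]) (l : ℕ) : (od g).coeff l ^ 2 = g.coeff (2 * l + 1) := by
  have h2 : (2 : F) = 0 := by exact_mod_cast CharP.cast_eq_zero F 2
  rw [← coeff_sq_two_mul, od_sq, coeff_derivative]
  push_cast
  rw [h2, zero_mul, zero_add, mul_one]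

theorem degree_od_lt {g : F[X]} {n : ℕ} (h : g.degree < n) : (od g).degree < (n / 2 : ℕ) := by
  rw [degree_lt_iff_coeff_zero] at h ⊢
  intro m hm
  have := coeff_od g m
  rw [h _ (by omega)] at this
  exact pow_eq_zero_iff two_ne_zero |>.1 this

theorem monic_od {g : F[X]} (hg : g.Monic) {N : ℕ} (h : g.natDegree = 2 * N + 1) :
    (od g).Monic ∧ (od g).natDegree = N := by
  have h1 : (od g).degree < (N + 1 : ℕ) := by
    have := degree_od_lt (g := g) (n := 2 * N + 2) (by
      rw [degree_eq_natDegree hg.ne_zero, h]; exact_mod_cast Nat.lt_succ_self _)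
    rwa [show (2 * N + 2) / 2 = N + 1 by omega] at this
  have h2 : (od g).coeff N = 1 := by
    have := coeff_od g N
    rw [← h, hg.coeff_natDegree] at this
    exact frobenius_inj F 2 (by simpa [frobenius_def] using this)
  have h3 : (od g).natDegree ≤ N := by
    by_cases h0 : od g = 0
    · simp [h0]
    exact Nat.lt_succ_iff.1 ((natDegree_lt_iff_degree_lt h0).2 h1)
  exact ⟨monic_of_natDegree_le_of_coeff_eq_one N h3 h2,
    natDegree_eq_of_le_of_coeff_ne_zero h3 (by rw [h2]; exact one_ne_zero)⟩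

theorem dvd_od {P g : F[X]} (h : P ^ 2 ∣ g) : P ∣ od g := by
  obtain ⟨c, rfl⟩ := h
  rw [od_sq_mul]
  exact dvd_mul_right _ _

end Pool.Agent.MP_c853c5_nt
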