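import Mathlib
import Pool.Agent.Mg.F43e117.Gf80e43

section

/- Cancellation for a modulus with a typical factorisation. -/

set_option autoImplicit false

namespace Pool.Agent.MP_4fffd4_nt

open Polynomial Finset
open scoped BigOperators

variable {F : Type*} [Field F]

theorem split_three {v P : F[X]} (hv : v ≠ 0) (hP : Irreducible P) (hsq : ¬ P * P ∣ v) {D : ℕ}
    (h1 : ∀ R : F[X], R.Monic → Irreducible R → R ∣ v → R.natDegree ≤ D)
    (h2 : v.natDegree ≤ 2 * D) :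
    ∃ Q : Fin 3 → F[X], (∀ l, ¬ P ∣ Q l) ∧ (∀ l, (Q l).natDegree ≤ D) ∧
      ∀ R, Irreducible R → R ∣ v → R ∣ P ∨ ∃ l, R ∣ Q l := by
  classical
  obtain ⟨v', hv', hP', hcov⟩ : ∃ v' : F[X], v' ∣ v ∧ ¬ P ∣ v' ∧ v ∣ P * v' := by
    by_cases h : P ∣ v
    · obtain ⟨c, rfl⟩ := h
      exact ⟨c, dvd_mul_left _ _, fun h => hsq (mul_dvd_mul_left _ h), dvd_rfl⟩
    · exact ⟨v, dvd_rfl, h, dvd_mul_left _ _⟩
  have hv'0 : v' ≠ 0 := ne_zero_of_dvd_ne_zero hv hv'
  have hd' := natDegree_le_of_dvd hv' hv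
  suffices ∃ a b c : F[X], v' = a * b * c ∧ a.natDegree ≤ D ∧ b.natDegree ≤ D ∧
      c.natDegree ≤ D by
    obtain ⟨a, b, c, rfl, ha, hb, hc⟩ := this
    refine ⟨![a, b, c], fun l h => hP' ?_, fun l => ?_, fun R hR hRv => ?_⟩
    · fin_cases l
      · exact (Dvd.dvd.mul_right h _).mul_right _
      · exact (Dvd.dvd.mul_left h _).mul_right _
      · exact Dvd.dvd.mul_left h _
    · fin_cases l
      exacts [ha, hb, hc]
    · rcases hR.prime.dvd_or_dvd (hRv.trans hcov) with h | h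
      · exact Or.inl h
      rcases hR.prime.dvd_or_dvd h with h | h
      · rcases hR.prime.dvd_or_dvd h with h | h
        · exact Or.inr ⟨0, h⟩
        · exact Or.inr ⟨1, h⟩
      · exact Or.inr ⟨2, h⟩
  obtain ⟨g, ⟨h, hgh⟩, hg⟩ := Nat.findGreatest_spec (P := fun d => ∃ g : F[X], g ∣ v' ∧
    g.natDegree = d) (Nat.zero_le D) ⟨1, one_dvd _, natDegree_one⟩
  have hgD : g.natDegree ≤ D := hg ▸ Nat.findGreatest_le D
  by_cases hu : IsUnit h
  · exact ⟨g, h, 1, by rw [mul_one, hgh], hgD, by rw [natDegree_eq_zero_of_isUnit hu]; omega,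
      by simp⟩
  obtain ⟨R, hRm, hR, h', rfl⟩ := exists_monic_irreducible_factor h hu
  have hg0 : g ≠ 0 := left_ne_zero_of_mul (hgh ▸ hv'0)
  have hh0 : h' ≠ 0 := right_ne_zero_of_mul (right_ne_zero_of_mul (hgh ▸ hv'0))
  have e1 : (g * R).natDegree = g.natDegree + R.natDegree := natDegree_mul hg0 hR.ne_zero
  have e2 : v'.natDegree = (g * R).natDegree + h'.natDegree := by
    rw [hgh, ← mul_assoc, natDegree_mul (mul_ne_zero hg0 hR.ne_zero) hh0]
  have e3 := hR.natDegree_pos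
  have e4 : D < (g * R).natDegree := by
    by_contra h
    exact Nat.findGreatest_is_greatest (P := fun d => ∃ g : F[X], g ∣ v' ∧ g.natDegree = d)
      (k := (g * R).natDegree) (by omega) (not_lt.1 h) ⟨g * R, ⟨h', by rw [hgh, mul_assoc]⟩, rfl⟩
  exact ⟨g, R, h', by rw [hgh, mul_assoc], hgD,
    h1 R hRm hR (Dvd.dvd.trans ⟨g * h', by rw [hgh]; ring⟩ hv'), by omega⟩

variable [Fintype F]

theorem exists_split {W : F[X]} (hW : W.Monic) {L : ℕ}
    (g1 : ¬ ∃ δ : F[X], δ.Monic ∧ L < δ.natDegree ∧ δ ^ 2 ∣ W) :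
    ∃ u v : F[X], u.Monic ∧ v.Monic ∧ W = u * v ∧ u ∣ smallProd F L ^ (2 * L + 2) ∧ Rough L v ∧
      Squarefree v := by
  classical
  obtain ⟨v, m, hv, hm, hc⟩ := extract_gcd W (smallProd F L ^ (2 * L + 2))
  have hu : (gcd W (smallProd F L ^ (2 * L + 2))).Monic := (normalize_eq_self_iff_monic
    (fun h => hW.ne_zero ((gcd_eq_zero_iff _ _).1 h).1)).1 (normalize_gcd _ _)
  rw [gcd_isUnit_iff] at hc
  generalize gcd W (smallProd F L ^ (2 * L + 2)) = u at hv hm hu
  have hvm : v.Monic := hu.of_mul_monic_left (hv ▸ hW)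
  have hr : Rough L v := by
    intro P hP hPi hd
    by_contra hL
    have h1 : P ^ (2 * L + 2) ∣ u * m := hm ▸ pow_dvd_pow_of_dvd (dvd_smallProd hP (not_lt.1 hL)) _
    have h2 : P ^ (2 * L + 2) ∣ u :=
      (hc.of_isCoprime_of_dvd_left hd).pow_left.dvd_of_dvd_mul_right h1
    refine g1 ⟨P ^ (L + 1), hP.pow _, ?_, ?_⟩
    · have := hPi.natDegree_pos
      rw [hP.natDegree_pow]
      nlinarith
    · rw [← pow_mul, hv, show (L + 1) * 2 = 2 * L + 2 by ring]
      exact h2.mul_right _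
  refine ⟨u, v, hu, hvm, hv, ⟨m, hm⟩, hr,
    (squarefree_iff_irreducible_sq_not_dvd_of_ne_zero hvm.ne_zero).2 fun z hz h => ?_⟩
  obtain ⟨P, h1, h2, h3⟩ := exists_monic_irreducible_factor z hz.not_isUnit
  refine g1 ⟨P, h1, hr P h1 h2 (h3.trans ((dvd_mul_right _ _).trans h)), ?_⟩
  rw [sq, hv]
  exact ((mul_dvd_mul h3 h3).trans h).mul_left _

variable [CharP F 2]

theorem good_bound {I : Type*} [Fintype I] (α σ W : I → F[X]) (hW : ∀ i, (W i).Monic) (i₀ : I)
    {L L' L'' D D₁ D₂ n₀ : ℕ} (hα0 : ∀ i, α i ≠ 0) (hαL : ∀ i, (α i).natDegree ≤ L)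
    (hcross : ∀ i, i ≠ i₀ → ∀ P, Irreducible P → L < P.natDegree → P ∣ W i → P ∣ W i₀ →
      ¬ P ∣ α i * σ i₀ - α i₀ * σ i)
    (hD₁ : (smallProd F L ^ (2 * L + 2)).natDegree = D₁)
    (g1 : ∀ i, ¬ ∃ δ : F[X], δ.Monic ∧ L < δ.natDegree ∧ δ ^ 2 ∣ W i)
    (g2 : ¬ ∃ g v : F[X], g.Monic ∧ g.natDegree ≤ D₁ ∧ W i₀ = g * v ∧ Rough L' v)
    (g3 : ∀ i, ¬ ∃ g v : F[X], g.Monic ∧ g.natDegree ≤ D₂ ∧ W i = g * v ∧ Rough L'' v)
    (hn : 2 * D₁ + (D + L') ≤ n₀) (h1 : L'' ≤ D) (h2 : ∀ i, (W i).natDegree ≤ D + D₂)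
    (h3 : ∀ i, (W i).natDegree ≤ 2 * D) (h4 : L' ≤ D)
    (hd : ∀ i, ∀ x : degreeLT F n₀, (α i * x.1 + σ i).natDegree ≤ (W i).natDegree)
    {η B : ℝ} (hη : 0 ≤ η) (hη' : 4 / 2 ^ L ≤ η ^ 2) (hB : 0 ≤ B)
    (hB' : 4 * (2 ^ (Fintype.card I * 3 * 3) * Fintype.card I) / 2 ^ L + η ≤
      B ^ 2 ^ (Fintype.card I * 3 * 3)) :
    |𝔼 x : degreeLT F n₀, ∏ i, (liou ((α i * x.1 + σ i) ^ 2 + X * W i ^ 2) : ℝ)| ≤
      2 * 𝔼 x : degreeLT F n₀, ind (∃ i, ∃ δ : F[X], δ.Monic ∧ L < δ.natDegree ∧ δ ∣ W i ∧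
        δ ∣ α i * x.1 + σ i) + B := by
  choose u v hu hv huv hud hr hsq using fun i => exists_split (hW i) (g1 i)
  set M := smallProd F L ^ (2 * L + 2) with hM
  have hMm : M.Monic := (monic_smallProd L).pow _
  have hPM : ∀ P, Irreducible P → P ∣ M → P.natDegree ≤ L := fun P hP h =>
    le_of_dvd_smallProd hP (hP.prime.dvd_of_dvd_pow h)
  obtain ⟨P, hP, hPi, hPv, hPL'⟩ : ∃ P : F[X], P.Monic ∧ Irreducible P ∧ P ∣ v i₀ ∧
      P.natDegree ≤ L' := by
    by_contra h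
    refine g2 ⟨u i₀, v i₀, hu i₀, hD₁ ▸ natDegree_le_of_dvd (hud i₀) hMm.ne_zero, huv i₀,
      fun P a b c => ?_⟩
    by_contra h'
    exact h ⟨P, a, b, c, not_lt.1 h'⟩
  have hPL : L < P.natDegree := hr i₀ P hP hPi hPv
  have hvW : ∀ i, v i ∣ W i := fun i => huv i ▸ dvd_mul_left _ _
  have hex := fun i => split_three (D := D) (hv i).ne_zero hPi
    (fun h => hPi.not_isUnit (hsq i P h)) (fun R hR hRi hd => by
      obtain ⟨g, hg⟩ := hd.trans (hvW i)
      have hgm : g.Monic := hR.of_mul_monic_left (hg ▸ hW i)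
      by_contra hD
      have e := h2 i
      rw [hg, hR.natDegree_mul hgm] at e
      refine g3 i ⟨g, R, hgm, by omega, by rw [hg, mul_comm], fun P' a b c => ?_⟩
      rw [eq_of_monic_of_associated a hR (b.associated_of_dvd hRi c)]
      omega) ((natDegree_le_of_dvd (hvW i) (hW i).ne_zero).trans (h3 i))
  choose Q hQ₁ hQ₂ hQ₃ using hex
  have hN : (M ^ 2).natDegree + (D + L') ≤ n₀ := by rw [hMm.natDegree_pow, hD₁]; exact hn
  have hPN : ¬ P ∣ M ^ 2 := fun h => by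
    have := hPM P hPi (hPi.prime.dvd_of_dvd_pow h)
    omega
  rw [expect_avg _ (mulLT (M ^ 2) hN), expect_avg (fun x : degreeLT F n₀ => ind _)
    (mulLT (M ^ 2) hN), Finset.mul_expect, ← Fintype.expect_const (ι := degreeLT F n₀) B,
    ← Finset.expect_add_distrib]
  refine (Finset.abs_expect_le _ _).trans (Finset.expect_le_expect fun r _ => ?_)
  have e : ∀ i (x : degreeLT F (D + L')), α i * (r + mulLT (M ^ 2) hN x).1 + σ i =
      α i * M ^ 2 * x.1 + (α i * r.1 + σ i) := by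
    intro i x
    rw [Submodule.coe_add, mulLT_apply]
    ring
  have := key (J := I × Fin 3) (fun i => α i * M ^ 2) (fun i => α i * r.1 + σ i) u v hu hv
    (fun i => PerfectField.separable_iff_squarefree.2 (hsq i))
    (fun i => isCoprime_of_monic (hv i).ne_zero fun R hR hRi a b => by
      have := hPM R hRi (a.trans (hud i))
      have := hr i R hR hRi b
      omega)
    (fun i => (pow_dvd_pow_of_dvd (hud i) 2).mul_left _) hP hPi hPv
    (fun i h => by
      rcases hPi.prime.dvd_or_dvd h with h | h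
      · have := natDegree_le_of_dvd h (hα0 i)
        have := hαL i
        omega
      · exact hPN h)
    (fun i hi hvi h => by
      rw [show α i * M ^ 2 * (α i₀ * r.1 + σ i₀) - α i₀ * M ^ 2 * (α i * r.1 + σ i) =
        M ^ 2 * (α i * σ i₀ - α i₀ * σ i) by ring] at h
      rcases hPi.prime.dvd_or_dvd h with h | h
      · exact hPN h
      · exact hcross i hi P hPi hPL (hvi.trans (hvW i)) (hPv.trans (hvW i₀)) h)
    (fun j => Q j.1 j.2) (fun j => hQ₁ _ _) (ρ := L') (n := D + L')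
    (fun j => by have := hQ₂ j.1 j.2; omega) hPL' (by omega)
    (fun i R hR hd => (hQ₃ i R hR hd).imp_right fun ⟨l, hl⟩ => ⟨(i, l), hl⟩)
    (fun i x => by rw [← e, ← huv]; exact hd i _) hPL.le hη hη' hB
    (by rwa [Fintype.card_prod, Fintype.card_fin])
  simp only [e, ← huv] at this ⊢
  refine this.trans (add_le_add (mul_le_mul_of_nonneg_left
    (Finset.expect_le_expect fun x _ => ind_mono ?_) two_pos.le) le_rfl)
  rintro ⟨i, hi⟩
  by_contra h
  exact hi (isCoprime_of_monic (hv i).ne_zero fun R hR hRi a b =>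
    h ⟨i, R, hR, hr i R hR hRi b, b.trans (hvW i), a⟩)

end Pool.Agent.MP_4fffd4_nt

end

section

/- Cancellation on average over both variables. -/

set_option autoImplicit false

namespace Pool.Agent.MP_4fffd4_nt

open Polynomial Finset Filter Topology
open scoped BigOperators

theorem eventually_div_two_pow (c : ℝ) {ε : ℝ} (hε : 0 < ε) : ∀ᶠ L : ℕ in atTop, c / 2 ^ L ≤ ε :=
  ((tendsto_pow_atTop_atTop_of_one_lt one_lt_two).const_div_atTop c).eventually
    (eventually_le_nhds hε)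

theorem exists_div_succ (c : ℝ) {ε : ℝ} (hε : 0 < ε) : ∃ L : ℕ, c / (L + 1) ≤ ε :=
  (((tendsto_natCast_atTop_atTop (R := ℝ)).atTop_add tendsto_const_nhds).const_div_atTop
    c).eventually (eventually_le_nhds hε) |>.exists

variable {F : Type*} [Field F] [Fintype F]

theorem expect_le_of_sum {m m' A : ℕ} (h : m' ≤ m + A) {G : degreeLT F m → ℝ} {c : ℝ}
    (hc : 0 ≤ c) (hG : ∑ y, G y ≤ (Fintype.card F : ℝ) ^ m' * c) :
    𝔼 y, G y ≤ (Fintype.card F : ℝ) ^ A * c := by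
  have hq := card_pos' (F := F)
  have hq1 : (1 : ℝ) ≤ Fintype.card F := one_le_two.trans two_le_card
  rw [Fintype.expect_eq_sum_div_card, card_degreeLT, Nat.cast_pow, div_le_iff₀ (by positivity)]
  refine hG.trans ?_
  rw [mul_right_comm, ← pow_add, add_comm]
  gcongr

omit [Fintype F] in
theorem abs_prod_liou_le {I : Type*} (s : Finset I) (g : I → F[X]) :
    |∏ i ∈ s, (liou (g i) : ℝ)| ≤ 1 := by
  rw [Finset.abs_prod]
  refine Finset.prod_le_one (fun _ _ => abs_nonneg _) fun i _ => ?_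
  rcases liou_cases (g i) with h | h <;> simp [h]

variable [CharP F 2]

theorem avg_bound {I : Type*} [Fintype I] (i₀ : I) (a α σ η : I → F[X]) (ha : ∀ i, (a i).Monic)
    (b : ℕ) (hα0 : ∀ i, α i ≠ 0) (hαd : ∀ i, (α i).natDegree = (a i).natDegree + b)
    (hnd : ∀ i, i ≠ i₀ → α i * σ i₀ - α i₀ * σ i ≠ 0 ∨ a i * η i₀ - a i₀ * η i ≠ 0)
    {ε : ℝ} (hε : 0 < ε) : ∃ m₀ : ℕ, ∀ m n₀ : ℕ, m₀ ≤ m → n₀ + b = m + 1 →
      |𝔼 y : degreeLT F m, 𝔼 x : degreeLT F n₀,
        ∏ i, (liou ((α i * x.1 + σ i) ^ 2 + X * (a i * (X ^ m + y.1) + η i) ^ 2) : ℝ)| ≤ 5 * ε := by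
  have hq := card_pos' (F := F)
  obtain ⟨A, hA⟩ : ∃ A, ∀ i, (α i).natDegree ≤ A ∧ (σ i).natDegree ≤ A ∧ (η i).natDegree ≤ A ∧
      (α i * σ i₀ - α i₀ * σ i).natDegree ≤ A ∧ (a i * η i₀ - a i₀ * η i).natDegree ≤ A := by
    obtain ⟨A, hA⟩ := (Set.finite_range fun i => (α i).natDegree + (σ i).natDegree +
      (η i).natDegree + (α i * σ i₀ - α i₀ * σ i).natDegree +
      (a i * η i₀ - a i₀ * η i).natDegree).bddAbove
    refine ⟨A, fun i => ?_⟩
    have := hA ⟨i, rfl⟩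
    simp only at this
    omega
  set q : ℝ := (Fintype.card F : ℝ) with hqdef
  set k : ℝ := (Fintype.card I : ℝ) with hk
  have hθ : 0 < ε ^ 2 ^ (Fintype.card I * 3 * 3) / 2 := by positivity
  obtain ⟨L, hL₀, hL₁, hL₂, hL₃, hL₄⟩ := ((eventually_ge_atTop A).and
    ((eventually_div_two_pow (k * q ^ A) hε).and
    ((eventually_div_two_pow (2 * (k * (q ^ A * q ^ A))) hε).and
    ((eventually_div_two_pow 4 (pow_pos hθ 2)).and
    (eventually_div_two_pow (4 * (2 ^ (Fintype.card I * 3 * 3) * k)) hθ))))).exists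
  obtain ⟨D₁, hD₁⟩ : ∃ D₁, (smallProd F L ^ (2 * L + 2)).natDegree = D₁ := ⟨_, rfl⟩
  obtain ⟨L', hL'⟩ := exists_div_succ (q ^ A * (D₁ + 1)) hε
  obtain ⟨D₂, hD₂⟩ : ∃ D₂, D₂ = A + 2 * D₁ + L' := ⟨_, rfl⟩
  obtain ⟨L'', hL''⟩ := exists_div_succ (k * (q ^ A * (D₂ + 1))) hε
  obtain ⟨j₁, hj₁⟩ := sum_almost_rough (F := F) L' D₁
  obtain ⟨j₂, hj₂⟩ := sum_almost_rough (F := F) L'' D₂
  refine ⟨j₁ + j₂ + A + 1 + (b + 2 * D₁ + L' + L'' + D₂ + L'), fun m n₀ hm hn => ?_⟩
  set W : I → degreeLT F m → F[X] := fun i y => a i * (X ^ m + y.1) + η i with hWdef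
  have hW : ∀ i y, (W i y).Monic ∧ (W i y).natDegree = m + (a i).natDegree := by
    intro i y
    obtain ⟨h1, h2⟩ := monic_add_LT y
    have h3 : (a i * (X ^ m + y.1)).natDegree = m + (a i).natDegree := by
      rw [(ha i).natDegree_mul h1, h2, add_comm]
    have h4 : (η i).natDegree < (a i * (X ^ m + y.1)).natDegree := by
      have := hA i
      omega
    exact ⟨((ha i).mul h1).add_of_left (degree_lt_degree h4),
      by rw [hWdef, natDegree_add_eq_left_of_natDegree_lt h4, h3]⟩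
  have hWi : ∀ i, Function.Injective (W i) := fun i y y' h =>
    Subtype.ext (add_left_cancel (mul_left_cancel₀ (ha i).ne_zero (add_right_cancel h)))
  have hS : ∀ i (x : degreeLT F n₀),
      (α i * x.1 + σ i).degree < (m + (a i).natDegree + 1 : ℕ) := by
    intro i x
    have h1 := hA i
    have h2 := hαd i
    rw [← mem_degreeLT]
    refine add_mem (mul_mem_degreeLT (by omega) x) (mem_degreeLT.2 ?_)
    exact degree_le_natDegree.trans_lt (by exact_mod_cast (by omega))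
  have hSi : ∀ i, Function.Injective fun x : degreeLT F n₀ => α i * x.1 + σ i := fun i y y' h =>
    Subtype.ext (mul_left_cancel₀ (hα0 i) (add_right_cancel h))
  have hmA : ∀ i, m + (a i).natDegree ≤ m + A := fun i => by
    have h1 := hA i
    have h2 := hαd i
    omega
  have main : ∀ y, |𝔼 x : degreeLT F n₀,
      ∏ i, (liou ((α i * x.1 + σ i) ^ 2 + X * W i y ^ 2) : ℝ)| ≤
      ∑ i, ind (∃ δ : F[X], δ.Monic ∧ L < δ.natDegree ∧ δ ^ 2 ∣ W i y) +
      ind (∃ g v : F[X], g.Monic ∧ g.natDegree ≤ D₁ ∧ W i₀ y = g * v ∧ Rough L' v) +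
      ∑ i, ind (∃ g v : F[X], g.Monic ∧ g.natDegree ≤ D₂ ∧ W i y = g * v ∧ Rough L'' v) +
      (2 * ∑ i, 𝔼 x : degreeLT F n₀, ind (∃ δ : F[X], δ.Monic ∧ L < δ.natDegree ∧ δ ∣ W i y ∧
        δ ∣ α i * x.1 + σ i) + ε) := by
    intro y
    have p1 : 0 ≤ ∑ i, ind (∃ δ : F[X], δ.Monic ∧ L < δ.natDegree ∧ δ ^ 2 ∣ W i y) :=
      Finset.sum_nonneg fun _ _ => ind_nonneg _
    have p2 := ind_nonneg
      (∃ g v : F[X], g.Monic ∧ g.natDegree ≤ D₁ ∧ W i₀ y = g * v ∧ Rough L' v)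
    have p3 : 0 ≤ ∑ i,
        ind (∃ g v : F[X], g.Monic ∧ g.natDegree ≤ D₂ ∧ W i y = g * v ∧ Rough L'' v) :=
      Finset.sum_nonneg fun _ _ => ind_nonneg _
    have p4 : 0 ≤ ∑ i, 𝔼 x : degreeLT F n₀, ind (∃ δ : F[X], δ.Monic ∧ L < δ.natDegree ∧
        δ ∣ W i y ∧ δ ∣ α i * x.1 + σ i) :=
      Finset.sum_nonneg fun _ _ => Finset.expect_nonneg fun _ _ => ind_nonneg _
    have p0 : |𝔼 x : degreeLT F n₀,
        ∏ i, (liou ((α i * x.1 + σ i) ^ 2 + X * W i y ^ 2) : ℝ)| ≤ 1 :=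
      (Finset.abs_expect_le _ _).trans
        (Finset.expect_le univ_nonempty fun _ _ => abs_prod_liou_le _ _)
    by_cases g1 : ∃ i ∈ (univ : Finset I),
        ∃ δ : F[X], δ.Monic ∧ L < δ.natDegree ∧ δ ^ 2 ∣ W i y
    · have := (ind_pos trivial).symm.le.trans (ind_le_sum fun _ => g1)
      linarith
    by_cases g2 : ∃ g v : F[X], g.Monic ∧ g.natDegree ≤ D₁ ∧ W i₀ y = g * v ∧ Rough L' v
    · have := ind_pos g2
      linarith
    by_cases g3 : ∃ i ∈ (univ : Finset I),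
        ∃ g v : F[X], g.Monic ∧ g.natDegree ≤ D₂ ∧ W i y = g * v ∧ Rough L'' v
    · have := (ind_pos trivial).symm.le.trans (ind_le_sum fun _ => g3)
      linarith
    have := good_bound α σ (fun i => W i y) (fun i => (hW i y).1) i₀ (L := L) (L' := L')
      (L'' := L'') (D := n₀ - 2 * D₁ - L') (D₂ := D₂) (n₀ := n₀) hα0
      (fun i => (hA i).1.trans hL₀)
      (fun i hi P hP hPL h1 h2 h3 => by
        have h4 := hA i
        rcases hnd i hi with h | h
        · have := natDegree_le_of_dvd h3 h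
          omega
        · have h5 : P ∣ a i * η i₀ - a i₀ * η i := by
            convert dvd_sub (h2.mul_left (a i)) (h1.mul_left (a i₀)) using 1
            simp only [hWdef]
            ring
          have := natDegree_le_of_dvd h5 h
          omega)
      hD₁ (fun i h => g1 ⟨i, mem_univ i, h⟩) g2 (fun i h => g3 ⟨i, mem_univ i, h⟩)
      (by omega) (by omega)
      (fun i => by have := hA i; have := hαd i; rw [(hW i y).2]; omega)
      (fun i => by have := hA i; have := hαd i; rw [(hW i y).2]; omega) (by omega)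
      (fun i x => by
        rw [(hW i y).2]
        exact natDegree_le_of_degree_le (Order.le_of_lt_succ (hS i x)))
      hθ.le hL₃ hε.le (by linarith)
    have h6 : 𝔼 x : degreeLT F n₀, ind (∃ i, ∃ δ : F[X], δ.Monic ∧ L < δ.natDegree ∧ δ ∣ W i y ∧
        δ ∣ α i * x.1 + σ i) ≤ ∑ i, 𝔼 x : degreeLT F n₀, ind (∃ δ : F[X], δ.Monic ∧
        L < δ.natDegree ∧ δ ∣ W i y ∧ δ ∣ α i * x.1 + σ i) := by
      rw [← Finset.expect_sum_comm]
      exact Finset.expect_le_expect fun x _ => ind_le_sum fun ⟨i, h⟩ => ⟨i, mem_univ i, h⟩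
    linarith
  refine (Finset.abs_expect_le _ _).trans ((Finset.expect_le_expect fun y _ => main y).trans ?_)
  simp only [Finset.expect_add_distrib, Fintype.expect_const, ← Finset.mul_expect,
    Finset.expect_sum_comm]
  have b1 : ∑ i, 𝔼 y, ind (∃ δ : F[X], δ.Monic ∧ L < δ.natDegree ∧ δ ^ 2 ∣ W i y) ≤ ε := by
    refine (Finset.sum_le_card_nsmul _ _ (q ^ A * (1 / 2 ^ L)) fun i _ => ?_).trans ?_
    · exact expect_le_of_sum (hmA i) (by positivity)
        ((sum_sq_dvd (W i) (hWi i) (hW i) L).trans_eq (div_eq_mul_one_div _ _))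
    · rw [nsmul_eq_mul, card_univ]
      exact le_trans (le_of_eq (by ring)) hL₁
  have b2 : 𝔼 y, ind (∃ g v : F[X], g.Monic ∧ g.natDegree ≤ D₁ ∧ W i₀ y = g * v ∧ Rough L' v) ≤
      ε := (expect_le_of_sum (hmA i₀) (by positivity)
        (hj₁ _ (by omega) (W i₀) (hWi i₀) (hW i₀))).trans (le_trans (le_of_eq (by ring)) hL')
  have b3 : ∑ i, 𝔼 y,
      ind (∃ g v : F[X], g.Monic ∧ g.natDegree ≤ D₂ ∧ W i y = g * v ∧ Rough L'' v) ≤ ε := by
    refine (Finset.sum_le_card_nsmul _ _ (q ^ A * ((D₂ + 1) / (L'' + 1))) fun i _ => ?_).trans ?_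
    · exact expect_le_of_sum (hmA i) (by positivity) (hj₂ _ (by omega) (W i) (hWi i) (hW i))
    · rw [nsmul_eq_mul, card_univ]
      exact le_trans (le_of_eq (by ring)) hL''
  have b4 : 2 * ∑ i, 𝔼 y, 𝔼 x : degreeLT F n₀, ind (∃ δ : F[X], δ.Monic ∧ L < δ.natDegree ∧
      δ ∣ W i y ∧ δ ∣ α i * x.1 + σ i) ≤ ε := by
    refine (mul_le_mul_of_nonneg_left (Finset.sum_le_card_nsmul _ _ (q ^ A * (q ^ A * (1 / 2 ^ L)))
      fun i _ => ?_) two_pos.le).trans ?_
    · refine expect_le_of_sum (hmA i) (by positivity) ?_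
      rw [← Finset.expect_sum_comm, mul_left_comm]
      refine expect_le_of_sum (m' := m + (a i).natDegree + 1)
        (by have := hA i; have := hαd i; omega) (by positivity) ?_
      rw [Finset.sum_comm]
      exact (sum_common_dvd (W i) (hWi i) (hW i) _ (hSi i) (hS i) L).trans_eq (by ring)
    · rw [nsmul_eq_mul, card_univ]
      exact le_trans (le_of_eq (by ring)) hL₂
  linarith

end Pool.Agent.MP_4fffd4_nt

end

section

/- The Chowla conjecture for the Liouville function of `F[X]` in characteristic two. -/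

set_option autoImplicit false

namespace Pool.Agent.MP_4fffd4_nt

open Polynomial Finset Filter Topology
open scoped BigOperators

variable {F : Type*} [Field F] [Fintype F]

omit [Fintype F] in
theorem liou_C_mul {c : F} (hc : c ≠ 0) (g : F[X]) : liou (C c * g) = liou g := by
  by_cases hg : g = 0
  · rw [hg, mul_zero]
  rw [liou_mul (C_ne_zero.2 hc) hg, liou,
    UniqueFactorizationMonoid.factors_of_isUnit (isUnit_C.2 (IsUnit.mk0 _ hc))]
  simp

omit [Fintype F] in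
theorem lin_ne_zero {a h f : F[X]} (ha : a ≠ 0) (hf : f.Monic) (hd : h.natDegree < f.natDegree) :
    a * f + h ≠ 0 := by
  intro e
  have := congrArg natDegree (eq_neg_of_add_eq_zero_left e)
  rw [natDegree_neg, natDegree_mul ha hf.ne_zero] at this
  omega

variable [CharP F 2]

theorem exists_sq_add (h : F[X]) : ∃ σ η : F[X], h = σ ^ 2 + X * η ^ 2 := by
  induction h using Polynomial.induction_on' with
  | add p q hp hq =>
    obtain ⟨σ, η, rfl⟩ := hp
    obtain ⟨σ', η', rfl⟩ := hq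
    exact ⟨σ + σ', η + η', by rw [CharTwo.add_sq, CharTwo.add_sq]; ring⟩
  | monomial n a =>
    obtain ⟨c, rfl⟩ := (bijective_frobenius F 2).2 a
    rw [frobenius_def, ← C_mul_X_pow_eq_monomial, map_pow]
    obtain ⟨j, rfl | rfl⟩ := Nat.even_or_odd' n
    · exact ⟨C c * X ^ j, 0, by ring⟩
    · exact ⟨0, C c * X ^ j, by ring⟩

theorem sum_monF_eq {m n₀ b c : ℕ} (hbc : b + c = 1) (hn : n₀ + b = m + 1) (G : F[X] → ℝ) :
    ∑ f ∈ monF F (m + n₀), G f = ∑ y : degreeLT F m, ∑ x : degreeLT F n₀,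
      G (X ^ b * x.1 ^ 2 + X ^ c * (X ^ m + y.1) ^ 2) := by
  classical
  have h2 : (2 : F[X]) = 0 := by exact_mod_cast CharP.cast_eq_zero F[X] 2
  have hX : (X : F[X]) ^ b * X ^ c = X := by rw [← pow_add, hbc, pow_one]
  have hb : (X : F[X]) ^ b ≠ 0 := pow_ne_zero _ X_ne_zero
  set Φ : degreeLT F m × degreeLT F n₀ → F[X] :=
    fun z => X ^ b * z.2.1 ^ 2 + X ^ c * (X ^ m + z.1.1) ^ 2 with hΦ
  have e : ∀ z, X ^ b * Φ z = (X ^ b * z.2.1) ^ 2 + X * (X ^ m + z.1.1) ^ 2 := fun z => by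
    simp only [hΦ]
    linear_combination (X ^ m + z.1.1) ^ 2 * hX
  have sq_inj : ∀ s t : F[X], s ^ 2 = t ^ 2 → s = t := fun s t h =>
    frobenius_inj F[X] 2 h
  have hinj : Function.Injective Φ := by
    intro z z' h
    have h1 := e z
    rw [h, e z'] at h1
    have h3 := congrArg derivative h1
    rw [derivative_odd, derivative_odd] at h3
    rw [h3] at h1
    exact Prod.ext (Subtype.ext (add_left_cancel (sq_inj _ _ h3)).symm)
      (Subtype.ext (mul_left_cancel₀ hb (sq_inj _ _ (add_right_cancel h1))).symm)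
  have him : univ.image Φ = monF F (m + n₀) := by
    refine Finset.eq_of_subset_of_card_le (fun f hf => ?_) ?_
    · obtain ⟨z, -, rfl⟩ := mem_image.1 hf
      obtain ⟨h1, h3⟩ := monic_add_LT z.1
      obtain ⟨h4, h5⟩ := odd_monic (s := X ^ b * z.2.1) h1 (by
        rw [h3]
        exact natDegree_le_of_degree_le (Order.le_of_lt_succ (mem_degreeLT.1
          (mul_mem_degreeLT (n := m + 1) (by rw [natDegree_X_pow]; omega) z.2))))
      rw [← e] at h4 h5
      have h6 := (monic_X_pow b).of_mul_monic_left h4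
      rw [(monic_X_pow b).natDegree_mul h6, natDegree_X_pow, h3] at h5
      exact mem_monF.2 ⟨h6, by omega⟩
    · rw [card_image_of_injective _ hinj, card_univ, Fintype.card_prod, card_degreeLT,
        card_degreeLT, card_monF, pow_add]
  rw [← him, Finset.sum_image fun _ _ _ _ h => hinj h, Fintype.sum_prod_type]

theorem chowla_monic {I : Type*} [Fintype I] (i₀ : I) (a h : I → F[X]) (ha : ∀ i, (a i).Monic)
    (hind : ∀ i, i ≠ i₀ → a i * h i₀ ≠ a i₀ * h i) {b c : ℕ} (hbc : b + c = 1) {ε : ℝ}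
    (hε : 0 < ε) : ∃ m₀ : ℕ, ∀ m n₀ : ℕ, m₀ ≤ m → n₀ + b = m + 1 →
      |(∑ f ∈ monF F (m + n₀), ∏ i, (liou (a i * f + h i) : ℝ)) / Fintype.card F ^ (m + n₀)| ≤
        5 * ε := by
  have h2 : (2 : F[X]) = 0 := by exact_mod_cast CharP.cast_eq_zero F[X] 2
  have hX : (X : F[X]) ^ b * X ^ c = X := by rw [← pow_add, hbc, pow_one]
  have hb : (X : F[X]) ^ b ≠ 0 := pow_ne_zero _ X_ne_zero
  have hα0 : ∀ i, a i * X ^ b ≠ 0 := fun i => mul_ne_zero (ha i).ne_zero hb
  choose σ η hση using fun i => exists_sq_add (a i * X ^ b * h i)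
  obtain ⟨m₀, hm₀⟩ := avg_bound i₀ a (fun i => a i * X ^ b) σ η ha b hα0
    (fun i => natDegree_mul_X_pow _ (ha i).ne_zero)
    (fun i hi => by
      by_contra hc
      push Not at hc
      obtain ⟨h3, h4⟩ := hc
      have h5 : a i * σ i₀ - a i₀ * σ i = 0 := by
        apply mul_left_cancel₀ hb
        linear_combination h3
      apply hind i hi
      apply mul_left_cancel₀ (mul_ne_zero (hα0 i) (ha i₀).ne_zero)
      linear_combination a i ^ 2 * hση i₀ - a i₀ ^ 2 * hση i +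
        (a i * σ i₀ + a i₀ * σ i) * h5 + X * (a i * η i₀ + a i₀ * η i) * h4) hε
  refine ⟨m₀ + ∑ i, (h i).natDegree + 1, fun m n₀ hm hn => ?_⟩
  refine le_trans (le_of_eq ?_) (hm₀ m n₀ (by omega) hn)
  have hγ : |∏ i, (liou (a i * X ^ b) : ℝ)| = 1 := by
    rw [Finset.abs_prod]
    refine Finset.prod_eq_one fun i _ => ?_
    rcases liou_cases (a i * X ^ b) with h | h <;> simp [h]
  rw [← one_mul |_ / _|, ← hγ, ← abs_mul, ← mul_div_assoc, Finset.mul_sum]
  congr 1
  rw [Finset.sum_congr rfl (g := fun f => ∏ i, (liou (a i * X ^ b * (a i * f + h i)) : ℝ)),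
    sum_monF_eq hbc hn]
  · simp only [Fintype.expect_eq_sum_div_card, card_degreeLT, ← Finset.sum_div, div_div]
    push_cast
    rw [← pow_add, add_comm n₀]
    congr 1
    refine Finset.sum_congr rfl fun y _ => Finset.sum_congr rfl fun x _ =>
      Finset.prod_congr rfl fun i _ => ?_
    congr 2
    linear_combination hση i + (a i ^ 2 * (X ^ m + y.1) ^ 2) * hX -
      (a i * X ^ b * x.1 * σ i + X * a i * (X ^ m + y.1) * η i) * h2
  · intro f hf
    obtain ⟨h3, h4⟩ := mem_monF.1 hf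
    rw [← Finset.prod_mul_distrib]
    refine Finset.prod_congr rfl fun i _ => ?_
    have := Finset.single_le_sum (f := fun i => (h i).natDegree) (fun _ _ => Nat.zero_le _)
      (mem_univ i)
    rw [liou_mul (hα0 i) (lin_ne_zero (ha i).ne_zero h3 (by omega)), Int.cast_mul]

set_option maxHeartbeats 400000 in
theorem chowla {I : Type*} [Fintype I] (i₀ : I) (a h : I → F[X]) (ha : ∀ i, a i ≠ 0)
    (hind : ∀ i, i ≠ i₀ → a i * h i₀ ≠ a i₀ * h i) :
    Tendsto (fun n : ℕ => (∑ f ∈ monF F n, ∏ i, (liou (a i * f + h i) : ℝ)) / Fintype.card F ^ n)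
      atTop (𝓝 0) := by
  have hc : ∀ i, (a i).leadingCoeff⁻¹ ≠ 0 := fun i => inv_ne_zero (leadingCoeff_ne_zero.2 (ha i))
  have hm : ∀ i, (C (a i).leadingCoeff⁻¹ * a i).Monic := fun i => by
    rw [mul_comm]; exact monic_mul_leadingCoeff_inv (ha i)
  have hind' : ∀ i, i ≠ i₀ → C (a i).leadingCoeff⁻¹ * a i * (C (a i₀).leadingCoeff⁻¹ * h i₀) ≠
      C (a i₀).leadingCoeff⁻¹ * a i₀ * (C (a i).leadingCoeff⁻¹ * h i) := by
    intro i hi e
    apply hind i hi
    apply mul_left_cancel₀ (mul_ne_zero (C_ne_zero.2 (hc i)) (C_ne_zero.2 (hc i₀)))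
    linear_combination e
  rw [Metric.tendsto_atTop]
  intro ε hε
  obtain ⟨m₀, hm₀⟩ := chowla_monic i₀ (fun i => C (a i).leadingCoeff⁻¹ * a i)
    (fun i => C (a i).leadingCoeff⁻¹ * h i) hm hind' (b := 0) (c := 1) rfl (ε := ε / 6)
    (by positivity)
  obtain ⟨m₁, hm₁⟩ := chowla_monic i₀ (fun i => C (a i).leadingCoeff⁻¹ * a i)
    (fun i => C (a i).leadingCoeff⁻¹ * h i) hm hind' (b := 1) (c := 0) rfl (ε := ε / 6)
    (by positivity)
  have e : ∀ i f, liou (C (a i).leadingCoeff⁻¹ * a i * f + C (a i).leadingCoeff⁻¹ * h i) =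
      liou (a i * f + h i) := fun i f => by rw [mul_assoc, ← mul_add, liou_C_mul (hc i)]
  simp only [e] at hm₀ hm₁
  refine ⟨2 * (m₀ + m₁), fun n hn => ?_⟩
  rw [Real.dist_eq, sub_zero]
  obtain ⟨j, rfl | rfl⟩ := Nat.even_or_odd' n
  · have := hm₁ j j (by omega) rfl
    rw [← two_mul] at this
    linarith
  · have := hm₀ j (j + 1) (by omega) rfl
    rw [← add_assoc, ← two_mul] at this
    linarith

theorem pattern_density {I : Type*} [Fintype I] (a h : I → F[X]) (ha : ∀ i, a i ≠ 0)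
    (hind : ∀ i j, i ≠ j → a i * h j ≠ a j * h i) (ε : I → ℤ) (hε : ∀ i, ε i = 1 ∨ ε i = -1) :
    Tendsto (fun n : ℕ => (Set.ncard {f : F[X] | f.Monic ∧ f.natDegree = n ∧
      ∀ i, a i * f + h i ≠ 0 ∧ liou (a i * f + h i) = ε i} : ℝ) / Fintype.card F ^ n)
      atTop (𝓝 (1 / 2 ^ Fintype.card I)) := by
  classical
  have hq := card_pos' (F := F)
  have h1 : Tendsto (fun n : ℕ => 1 / 2 ^ Fintype.card I * ∑ S ∈ (univ : Finset I).powerset,
      (∏ i ∈ S, (ε i : ℝ)) *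
        ((∑ f ∈ monF F n, ∏ i ∈ S, (liou (a i * f + h i) : ℝ)) / Fintype.card F ^ n)) atTop
      (𝓝 (1 / 2 ^ Fintype.card I * ∑ S ∈ (univ : Finset I).powerset,
        if S = ∅ then 1 else 0)) := by
    refine (tendsto_finset_sum _ fun S _ => ?_).const_mul _
    split_ifs with hS
    · subst hS
      refine tendsto_const_nhds.congr fun n => ?_
      simp only [Finset.prod_empty, Finset.sum_const, card_monF, nsmul_eq_mul]
      push_cast
      field_simp
    · obtain ⟨i₀, hi₀⟩ := Finset.nonempty_iff_ne_empty.2 hS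
      have := (chowla (I := S) ⟨i₀, hi₀⟩ (fun i => a i) (fun i => h i) (fun i => ha i)
        (fun i hi => hind _ _ fun e => hi (Subtype.ext e))).const_mul (∏ i ∈ S, (ε i : ℝ))
      rw [mul_zero] at this
      refine this.congr fun n => ?_
      congr 2
      exact Finset.sum_congr rfl fun f _ =>
        Finset.prod_coe_sort S fun i => (liou (a i * f + h i) : ℝ)
  rw [Finset.sum_ite_eq', if_pos (empty_mem_powerset _), mul_one] at h1
  refine h1.congr' ?_
  filter_upwards [eventually_gt_atTop (∑ i, (h i).natDegree)] with n hn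
  have h2 : {f : F[X] | f.Monic ∧ f.natDegree = n ∧
      ∀ i, a i * f + h i ≠ 0 ∧ liou (a i * f + h i) = ε i} =
      ((monF F n).filter fun f => ∀ i, liou (a i * f + h i) = ε i : Finset F[X]) := by
    ext f
    simp only [Set.mem_setOf_eq, coe_filter, mem_monF]
    refine ⟨fun ⟨x, y, z⟩ => ⟨⟨x, y⟩, fun i => (z i).2⟩, fun ⟨⟨x, y⟩, z⟩ =>
      ⟨x, y, fun i => ⟨lin_ne_zero (ha i) x ?_, z i⟩⟩⟩
    have := Finset.single_le_sum (f := fun i => (h i).natDegree) (fun _ _ => Nat.zero_le _)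
      (mem_univ i)
    omega
  rw [h2, Set.ncard_coe_finset, Finset.card_filter]
  simp only [← mul_div_assoc, ← Finset.sum_div, Finset.mul_sum, ← Finset.prod_mul_distrib]
  congr 1
  rw [Finset.sum_comm]
  push_cast
  refine Finset.sum_congr rfl fun f _ => ?_
  rw [← Finset.mul_sum, ← Finset.prod_one_add]
  split_ifs with hf
  · rw [Finset.prod_congr rfl (g := fun _ => 2), Finset.prod_const, card_univ]
    · field_simp
    · intro i _
      rw [hf i]
      rcases hε i with e | e <;> rw [e] <;> norm_num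
  · push Not at hf
    obtain ⟨i, hi⟩ := hf
    rw [Finset.prod_eq_zero (mem_univ i), mul_zero]
    rcases hε i with e | e <;> rcases liou_cases (a i * f + h i) with e' | e' <;>
      rw [e, e'] at hi ⊢ <;> simp at hi ⊢

end Pool.Agent.MP_4fffd4_nt

end
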