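import Mathlib
import Pool.Agent.Mg.F43e117.Gdbd69a

/- Long intervals without irreducible polynomials, with a constant growing with the field. -/

set_option autoImplicit false

namespace Pool.Agent.MP_c853c5_nt

open Polynomial Finset Pool.Agent.MP_4fffd4_nt Filter

variable {F : Type*} [Field F] [Fintype F]

theorem natDegree_carl_eq (j : ℕ) :
    (carl F j).natDegree = ∑ i ∈ Icc 1 j, Fintype.card F ^ i := by
  rw [carl, natDegree_prod_of_monic _ _ fun _ hi => monic_aux (mem_Icc.1 hi).1]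
  exact Finset.sum_congr rfl fun i hi => FiniteField.X_pow_card_pow_sub_X_natDegree_eq F
    (by have := (mem_Icc.1 hi).1; omega) Fintype.one_lt_card

theorem natDegree_carl_bounds (j : ℕ) :
    j + 1 < (carl F (j + 1)).natDegree ∧
      (carl F (j + 1)).natDegree ≤ 2 * Fintype.card F ^ (j + 1) := by
  have h1 := Nat.geomSum_lt (s := Icc 1 j) (n := j + 1) (Fintype.one_lt_card (α := F))
    fun i hi => by have := (mem_Icc.1 hi).2; omega
  have h2 : j + 1 < Fintype.card F ^ (j + 1) := Nat.lt_pow_self Fintype.one_lt_card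
  rw [natDegree_carl_eq, Finset.sum_Icc_succ_top (by omega)]
  omega

theorem gap_two_const [CharP F 2] : ∃ᶠ n : ℕ in atTop, ∃ (f : F[X]) (h : ℕ), f.Monic ∧
    f.natDegree = n ∧ h < n ∧ Fintype.card F * n ^ 2 ≤ 1024 * Fintype.card F ^ h ∧
      ∀ y : F[X], y.degree < h → ¬ Irreducible (f + y) := by
  rw [frequently_atTop]
  intro m
  obtain ⟨h1, h2⟩ := natDegree_carl_bounds (F := F) (8 * m + 7)
  obtain ⟨h3, h4, h5, h6⟩ := gap_core (p := 2) (r := 0) (m := m + 1) (monic_carl (F := F) (8 * m + 7 + 1))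
    (by omega) (by omega)
    (Finset.prod_dvd_prod_of_subset _ _ _ (Icc_subset_Icc_right (by omega))) fun g hg hd => by
      obtain ⟨h1, h2⟩ := wr_ne_zero (p := 2) hg hd
      obtain ⟨a, b, hab⟩ := exists_sq_add (X ^ 0 * g)
      have h3 := congrArg derivative hab
      rw [derivative_odd, derivative_mul, add_comm, ← CharTwo.sub_eq_add] at h3
      rw [h3] at h1 h2 ⊢
      rw [natDegree_pow] at h2
      exact pow_dvd_pow_of_dvd (dvd_carl b (fun h => h1.ne_zero (by simp [h])) (by omega)) 2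
  refine ⟨_, by omega, _, _, h3, h4, h5, ?_, h6⟩
  have h7 : 0 + 8 * 2 * (carl F (8 * m + 7 + 1)).natDegree ≤
      32 * Fintype.card F ^ (8 * m + 7 + 1) := by omega
  refine (Nat.mul_le_mul_left _ (Nat.pow_le_pow_left h7 2)).trans_eq ?_
  ring

end Pool.Agent.MP_c853c5_nt
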