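import Mathlib
import Pool.Agent.Mg.F43e117.G723cb3
import Pool.Agent.MP_644200_nt.Defs
import Pool.Agent.Mg.F43e117.G191fe6

section

/- Parity of the number of prime factors of `s ^ 4 + g` in characteristic two. -/

set_option autoImplicit false

namespace Pool.Agent.MP_644200_nt

open Polynomial Finset Pool.Agent.MP_4fffd4_nt Pool.Agent.MP_c853c5_nt

section Ring

variable {R : Type*} [CommRing R]

theorem prod_eval_scal {n d : ℕ} (hdn : d ≤ n) (a : Fin n → R) (b : Fin d → R) (γ : R)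
    (V : R[X]) (hV : V.Monic) (hev : Even V.natDegree)
    (h : V ∣ (∏ i, (X - C (a i))) - C γ * ∏ j, (X - C (b j))) :
    ∏ i, V.eval (a i) = γ ^ V.natDegree * ∏ j, V.eval (b j) := by
  nontriviality R
  obtain ⟨Y, hY⟩ := h
  have ha : (∏ i, (X - C (a i))).natDegree = n := by
    rw [natDegree_prod_of_monic _ _ (fun i _ => monic_X_sub_C _)]
    simp
  have hb : (∏ j, (X - C (b j))).natDegree = d := by
    rw [natDegree_prod_of_monic _ _ (fun i _ => monic_X_sub_C _)]
    simp
  have hb' : (C γ * ∏ j, (X - C (b j))).natDegree ≤ d := (natDegree_C_mul_le _ _).trans hb.le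
  rw [← resultant_prod_X_sub_C a V V.natDegree le_rfl,
    ← resultant_prod_X_sub_C b V V.natDegree le_rfl, Fintype.card_fin, Fintype.card_fin,
    ← resultant_C_mul_left]
  have h1 := resultant_add_left_deg (C γ * ∏ j, (X - C (b j))) V d V.natDegree (n - d) hb'
  rw [Nat.add_sub_cancel' hdn, hV.coeff_natDegree, one_pow, mul_one, pow_mul, hev.neg_one_pow,
    one_pow, one_mul] at h1
  rw [← h1]
  by_cases hY0 : Y = 0
  · rw [hY0, mul_zero, sub_eq_zero] at hY
    rw [hY]
  have e : (∏ i, (X - C (a i))) = (C γ * ∏ j, (X - C (b j))) + V * Y := by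
    rw [← hY]; ring
  rw [e, resultant_add_mul_left _ _ _ _ _ _ le_rfl]
  have : (V * Y).natDegree ≤ n := by
    rw [← hY]
    exact (natDegree_sub_le _ _).trans (max_le ha.le (hb'.trans hdn))
  rw [hV.natDegree_mul' hY0] at this
  omega

theorem prod_pert {K : Type*} [Field K] (ν : R →+* K) (hν : ∀ x, ν x = 0 → (2 : R) ∣ x)
    (hu : ∀ x, ν x ≠ 0 → IsUnit x) (h8 : (8 : R) = 0) {n : ℕ} (a : Fin n → R) (V Z : R[X])
    (hne : ν (∏ i, (derivative (∏ j, (X - C (a j)))).eval (a i)) ≠ 0)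
    (hV : derivative (∏ j, (X - C (a j))) = V + 4 * Z) (hZ : (Z.map ν).degree < (n - 1 : ℕ)) :
    ∏ i, (derivative (∏ j, (X - C (a j)))).eval (a i) = ∏ i, V.eval (a i) := by
  classical
  have hev : ∀ i, (derivative (∏ j, (X - C (a j)))).eval (a i) =
      ∏ j ∈ univ.erase i, (a i - a j) := fun i => by
    have := Lagrange.eval_nodal_derivative_eval_node_eq (s := univ) (v := a) (mem_univ i)
    rwa [Lagrange.eval_nodal] at this
  rw [map_prod, Finset.prod_ne_zero_iff] at hne
  have hne' : ∀ i, ∏ j ∈ univ.erase i, (ν (a i) - ν (a j)) ≠ 0 := fun i => by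
    have := hne i (mem_univ i)
    rwa [hev, map_prod, Finset.prod_congr rfl fun j _ => map_sub ν (a i) (a j)] at this
  have hinj : Set.InjOn (fun i => ν (a i)) (univ : Finset (Fin n)) := fun i _ j _ hij => by
    by_contra hc
    exact hne' i (Finset.prod_eq_zero (mem_erase.2 ⟨Ne.symm hc, mem_univ j⟩) (sub_eq_zero.2 hij))
  have hsum := Lagrange.coeff_eq_sum hinj (P := Z.map ν) (by
    rw [card_univ, Fintype.card_fin]
    exact hZ.trans_le (by exact_mod_cast Nat.sub_le n 1))
  rw [card_univ, Fintype.card_fin, coeff_eq_zero_of_degree_lt hZ] at hsum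
  choose v hv using fun i => (hu _ (hne i (mem_univ i))).exists_right_inv
  have h1 : ∀ i, V.eval (a i) = (derivative (∏ j, (X - C (a j)))).eval (a i) *
      (1 + 4 * (-(Z.eval (a i) * v i))) := fun i => by
    have h2 := congrArg (eval (a i)) hV
    rw [eval_add, eval_mul, show eval (a i) (4 : R[X]) = 4 by simp] at h2
    linear_combination -h2 + 4 * Z.eval (a i) * hv i
  rw [Finset.prod_congr rfl fun i _ => h1 i, Finset.prod_mul_distrib, prod_one_add_four h8]
  obtain ⟨y, hy⟩ := hν (∑ i, -(Z.eval (a i) * v i)) (by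
    rw [map_sum, ← neg_eq_zero, ← Finset.sum_neg_distrib, hsum]
    refine Finset.sum_congr rfl fun i _ => ?_
    have h3 := congrArg ν (hv i)
    rw [map_mul, map_one, hev, map_prod,
      Finset.prod_congr rfl fun j _ => map_sub ν (a i) (a j)] at h3
    rw [map_neg, neg_neg, map_mul, eval_map, eval₂_hom, eq_div_iff (hne' i)]
    linear_combination ν (Z.eval (a i)) * h3)
  rw [hy]
  linear_combination (-(∏ i, (derivative (∏ j, (X - C (a j)))).eval (a i)) * y) * h8

theorem monic_deriv [Nontrivial R] {G : R[X]} (hG : G.Monic) {k : ℕ} (hd : G.natDegree = k + 1)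
    (hk : (k : R) = 0) : (derivative G).Monic ∧ (derivative G).natDegree = k := by
  simpa using monic_wr hG (r := 0) (k := k) (by omega) hk

end Ring

variable {F : Type*} [Field F] [Fintype F] [CharP F 2]

theorem liou_flip_four {m : ℕ} {w t g : F[X]} {c : F} (hc : c ≠ 0) (hw : w.Monic) (ht : t.Monic)
    (hg : g.Monic) (hsep : g.Separable) (hd : g.natDegree = 8 * m + 1)
    (hgw : derivative g = w ^ 2) (hev : Even (w * t).natDegree)
    (hlt : 8 * m + 1 < 4 * (w * t).natDegree) :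
    liou ((w * t) ^ 4 + C c * g) = -liou g := by
  obtain ⟨L⟩ := nonempty_liftData 2 F (AlgebraicClosure F)
  have : CharP (AlgebraicClosure F) 2 :=
    charP_of_injective_algebraMap (algebraMap F (AlgebraicClosure F)).injective 2
  have h2F : (2 : F) = 0 := by exact_mod_cast CharP.cast_eq_zero F 2
  have h4F : (4 : F) = 0 := by linear_combination 2 * h2F
  have hwd : 2 * w.natDegree = 8 * m := by
    have := (monic_deriv hg hd (by push_cast; linear_combination 4 * (m : F) * h2F)).2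
    rwa [hgw, hw.natDegree_pow] at this
  obtain ⟨W, hW, hWw, hWd⟩ := L.lift_monic hw
  obtain ⟨T, hT, hTt, hTd⟩ := L.lift_monic ht
  obtain ⟨G, hG, hGg, hGd⟩ := L.lift_monic hg
  obtain ⟨γ, hγ⟩ := L.ρ_surj c
  obtain ⟨γ', hγ'⟩ := (L.unit_A γ (hγ ▸ hc)).exists_right_inv
  obtain ⟨H, hH⟩ : C (2 : WittVector 2 F) ∣ derivative G - W ^ 2 := by
    rw [C_dvd_iff_dvd_coeff]
    intro i
    have h1 : (derivative G - W ^ 2).map L.ρ = 0 := by
      rw [Polynomial.map_sub, ← derivative_map, Polynomial.map_pow, hGg, hWw, hgw, sub_self]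
    have h2 := congrArg (fun P => coeff P i) h1
    simp only [coeff_map, coeff_zero] at h2
    exact_mod_cast (L.ker_ρ _).1 h2
  have hW2 : (W ^ 2).Monic := hW.pow 2
  have hW2d : (W ^ 2).natDegree = 8 * m := by rw [hW.natDegree_pow, hWd, hwd]
  set Y := (H ^ 2 * T ^ 4) %ₘ W ^ 2 with hYdef
  have hYQ := modByMonic_add_div (H ^ 2 * T ^ 4) (W ^ 2)
  rw [← hYdef] at hYQ
  have hYd : Y.degree < (8 * m : ℕ) := by
    have := degree_modByMonic_lt (H ^ 2 * T ^ 4) hW2
    rwa [degree_eq_natDegree hW2.ne_zero, hW2d] at this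
  have hYn : Y.natDegree ≤ 8 * m := natDegree_le_of_degree_le hYd.le
  have hsm : (C (4 * γ') * Y).natDegree < G.natDegree :=
    (natDegree_C_mul_le _ _).trans_lt (by omega)
  have hG₁ : (G + C (4 * γ') * Y).Monic := hG.add_of_left (degree_lt_degree hsm)
  have hG₁d : (G + C (4 * γ') * Y).natDegree = 8 * m + 1 := by
    rw [natDegree_add_eq_left_of_natDegree_lt hsm, hGd, hd]
  have hG₁g : (G + C (4 * γ') * Y).map L.ρ = g := by
    rw [Polynomial.map_add, Polynomial.map_mul, map_C, map_mul, hGg, map_ofNat, h4F]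
    simp
  have hS : (W * T).Monic := hW.mul hT
  have hSd : (W * T).natDegree = (w * t).natDegree := by
    rw [hW.natDegree_mul hT, hw.natDegree_mul ht, hWd, hTd]
  generalize hD : (w * t).natDegree = D at hev hlt hSd
  have hsm' : (C γ * G).natDegree < ((W * T) ^ 4).natDegree := by
    rw [hS.natDegree_pow, hSd]
    exact (natDegree_C_mul_le _ _).trans_lt (by omega)
  have hF : ((W * T) ^ 4 + C γ * G).Monic := (hS.pow 4).add_of_left (degree_lt_degree hsm')
  have hFd : ((W * T) ^ 4 + C γ * G).natDegree = 4 * D := by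
    rw [natDegree_add_eq_left_of_natDegree_lt hsm', hS.natDegree_pow, hSd]
  have hFf : ((W * T) ^ 4 + C γ * G).map L.ρ = (w * t) ^ 4 + C c * g := by
    simp only [Polynomial.map_add, Polynomial.map_mul, Polynomial.map_pow, map_C, hWw, hTt, hGg,
      hγ]
  have hfsep : ((w * t) ^ 4 + C c * g).Separable := by
    have h0 : derivative ((w * t) ^ 4 + C c * g) = C c * w ^ 2 := by
      rw [derivative_add, derivative_pow, derivative_C_mul, hgw, Nat.cast_ofNat, h4F]
      simp
    have hcu : IsUnit (C c) := isUnit_C.2 hc.isUnit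
    rw [Separable, h0, isCoprime_mul_unit_left_right hcu, add_comm,
      show (w * t) ^ 4 = w ^ 2 * (w ^ 2 * t ^ 4) by ring]
    refine IsCoprime.add_mul_left_left ?_ _
    rw [isCoprime_mul_unit_left_left hcu, ← hgw]
    exact hsep
  obtain ⟨α, δ₁, e₁, u₁, f₁, d₁⟩ := L.stick hF (hFf ▸ hfsep) hFd
  obtain ⟨β, δ₂, e₂, u₂, f₂, d₂⟩ := L.stick hG₁ (hG₁g ▸ hsep) hG₁d
  rw [hFf] at f₁
  rw [hG₁g] at f₂
  obtain ⟨ν, hνμ, hν, hμ⟩ := L.quot_data (κ := 3) (by norm_num)
  set μ := Ideal.Quotient.mk (Ideal.span {((2 : ℕ) : WittVector 2 (AlgebraicClosure F)) ^ 3})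
    with hμdef
  have hu : ∀ x, ν x ≠ 0 → IsUnit x := fun x hx => by
    obtain ⟨x, rfl⟩ := Ideal.Quotient.mk_surjective x
    exact (L.unit_O x (by rwa [← hνμ])).map μ
  have hmm := L.map_map μ ν hνμ
  have t₁ := congrArg μ d₁
  have t₂ := congrArg μ d₂
  rw [map_prod, map_mul μ, map_pow μ, map_intCast μ] at t₁ t₂
  have ev : ∀ (H : (WittVector 2 F)[X]) (x : WittVector 2 (AlgebraicClosure F)),
      μ ((derivative (H.map L.ι)).eval x) = (derivative (H.map (μ.comp L.ι))).eval (μ x) := by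
    intro H x
    rw [← Polynomial.map_map, derivative_map (H.map L.ι) μ, eval_map μ, eval₂_hom]
  simp only [ev] at t₁ t₂
  have g₁ : ((W * T) ^ 4 + C γ * G).map (μ.comp L.ι) = ∏ i, (X - C (μ (α i))) := by
    have := congrArg (Polynomial.map μ) e₁
    simpa only [Polynomial.map_prod, Polynomial.map_sub, map_C, map_X, Polynomial.map_map]
      using this
  have g₂ : (G + C (4 * γ') * Y).map (μ.comp L.ι) = ∏ i, (X - C (μ (β i))) := by
    have := congrArg (Polynomial.map μ) e₂
    simpa only [Polynomial.map_prod, Polynomial.map_sub, map_C, map_X, Polynomial.map_map]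
      using this
  have s₁ : sgn (4 * D) = 1 := by
    rw [← zero_add (4 * D), sgn_add_four_mul]; rfl
  have s₂ : sgn (8 * m + 1) = 1 := by
    rw [show 8 * m + 1 = 1 + 4 * (2 * m) by ring, sgn_add_four_mul]; simp [sgn]
  rw [s₁, Int.cast_one, one_mul, g₁] at t₁
  rw [s₂, Int.cast_one, one_mul, g₂] at t₂
  generalize hθ : μ.comp L.ι = θ at g₁ g₂ hmm
  have hθγ : μ (L.ι γ) = θ γ := by rw [← hθ]; rfl
  have h8R : (8 : WittVector 2 (AlgebraicClosure F) ⧸
      Ideal.span {((2 : ℕ) : WittVector 2 (AlgebraicClosure F)) ^ 3}) = 0 := by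
    exact_mod_cast hμ
  have h8X := congrArg C h8R
  rw [map_ofNat, map_zero] at h8X
  have : Nontrivial (WittVector 2 (AlgebraicClosure F) ⧸
    Ideal.span {((2 : ℕ) : WittVector 2 (AlgebraicClosure F)) ^ 3}) := ν.domain_nontrivial
  obtain ⟨w₁, w₂⟩ := monic_deriv (hG.map θ) (k := 8 * m) (by rw [hG.natDegree_map, hGd, hd])
    (by push_cast; rw [h8R, zero_mul])
  have hν' : ∀ x, ν x = 0 → 2 ∣ x := fun x hx => by exact_mod_cast hν x hx
  have p₁ := prod_pert ν hν' hu h8R (fun i => μ (α i)) (C (θ γ) * derivative (G.map θ))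
    (((W * T) ^ 3 * derivative (W * T)).map θ)
    (by rw [t₁, map_pow, hνμ]; exact pow_ne_zero _ u₁)
    (by
      rw [← g₁, derivative_map, derivative_map, derivative_add, derivative_pow, derivative_C_mul]
      simp only [Polynomial.map_add, Polynomial.map_mul, Polynomial.map_pow, map_C, map_natCast,
        Polynomial.map_natCast]
      push_cast
      ring)
    (by
      rw [hmm, Polynomial.map_mul L.ρ, Polynomial.map_pow L.ρ, ← derivative_map,
        Polynomial.map_mul L.ρ, hWw, hTt]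
      refine (degree_map_le).trans_lt ?_
      have hs := hw.mul ht
      have h1 : (derivative (w * t)).degree < (D - 1 : ℕ) := by
        rw [degree_lt_iff_coeff_zero]
        intro i hi
        rw [coeff_derivative]
        rcases Nat.eq_or_lt_of_le (show D ≤ i + 1 by omega) with h | h
        · obtain ⟨k, hk⟩ := hev
          have : ((i : F) + 1) = 0 := by
            have h3 : ((i + 1 : ℕ) : F) = ((k + k : ℕ) : F) := by rw [← h, hk]
            push_cast at h3
            linear_combination h3 + (k : F) * h2F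
          rw [this, mul_zero]
        · rw [coeff_eq_zero_of_natDegree_lt (by omega), zero_mul]
      rw [degree_mul, degree_eq_natDegree (hs.pow 3).ne_zero, hs.natDegree_pow, hD,
        show 4 * D - 1 = 3 * D + (D - 1) by omega, Nat.cast_add]
      exact WithBot.add_lt_add_left (WithBot.coe_ne_bot) h1)
  have p₂ := prod_pert ν hν' hu h8R (fun i => μ (β i)) (derivative (G.map θ))
    ((C γ' * derivative Y).map θ)
    (by rw [t₂, map_pow, hνμ]; exact pow_ne_zero _ u₂)
    (by
      rw [← g₂, derivative_map, derivative_map, derivative_add, derivative_C_mul]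
      simp only [Polynomial.map_add, Polynomial.map_mul, map_C, map_mul, map_ofNat,
        Polynomial.map_ofNat]
      ring)
    (by
      refine degree_map_le.trans_lt (degree_map_le.trans_lt ?_)
      rw [Nat.add_sub_cancel]
      rw [← smul_eq_C_mul]
      exact ((degree_smul_le _ _).trans degree_derivative_le).trans_lt hYd)
  have p₃ := prod_eval_scal hlt.le (fun i => μ (α i)) (fun i => μ (β i)) (θ γ) _ w₁
    (by rw [w₂]; exact ⟨4 * m, by ring⟩)
    (by
      rw [← g₁, ← g₂]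
      refine ⟨((derivative G - 4 * H) * T ^ 4 + 4 * (H ^ 2 * T ^ 4 /ₘ W ^ 2)).map θ, ?_⟩
      have a1 := congrArg (Polynomial.map θ) hH
      have a2 := congrArg (Polynomial.map θ) hYQ
      have a3 := congrArg (fun x => C (θ x)) hγ'
      generalize H ^ 2 * T ^ 4 /ₘ W ^ 2 = Q at a2 ⊢
      simp only [Polynomial.map_add, Polynomial.map_mul, Polynomial.map_pow, Polynomial.map_sub,
        map_C, map_mul, map_ofNat, map_one, Polynomial.map_ofNat, ← derivative_map] at a1 a2 a3 ⊢
      have a4 : derivative (G.map θ) = W.map θ ^ 2 + 2 * H.map θ := by linear_combination a1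
      rw [a4]
      linear_combination (-4 * Y.map θ) * a3 - 4 * a2 - (H.map θ * Q.map θ) * h8X)
  simp only [eval_mul, eval_C, Finset.prod_mul_distrib, Finset.prod_const, card_univ,
    Fintype.card_fin] at p₁
  rw [t₁, p₃, ← p₂, t₂, w₂] at p₁
  have := L.sign_detect (κ := 3) (by norm_num) (fun _ => rfl) δ₁ (L.ι γ ^ (2 * D + 4 * m) * δ₂) u₁
    (by
      rw [← Ideal.mem_span_singleton, ← Ideal.Quotient.eq_zero_iff_mem, ← hμdef, map_sub, map_pow,
        map_pow, map_mul, map_pow, hθγ, p₁]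
      ring)
    (eps_cases _ _) (eps_cases (8 * m + 1) g)
    (by rw [f₁, sub_self]; exact dvd_zero _)
    (by rw [map_mul, map_pow, L.φι, f₂, mul_left_comm, sub_self]; exact dvd_zero _)
  rw [Even.neg_one_pow ⟨2 * D, by ring⟩, Odd.neg_one_pow ⟨4 * m, by ring⟩] at this
  linear_combination this

end Pool.Agent.MP_644200_nt

end

section

/- A long run of reducible polynomials just above a power of `X`. -/

set_option autoImplicit false

namespace Pool.Agent.MP_644200_nt

open Polynomial Finset Pool.Agent.MP_4fffd4_nt Pool.Agent.MP_c853c5_nt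

variable {F : Type*} [Field F] [Fintype F] [CharP F 2]

theorem gap_four {m : ℕ} {s : F[X]} (hs : s.Monic) (hL : carl F (4 * m) ∣ s)
    (hev : Even s.natDegree) (hlt : 8 * m + 1 < 4 * s.natDegree) (y : F[X]) (hy : y ≠ 0)
    (hd : y.natDegree = 8 * m + 1) : ¬ Irreducible (s ^ 4 + y) := by
  intro hirr
  have hc : y.leadingCoeff ≠ 0 := leadingCoeff_ne_zero.2 hy
  have hg : (y * C y.leadingCoeff⁻¹).Monic := monic_mul_leadingCoeff_inv hy
  have hgd : (y * C y.leadingCoeff⁻¹).natDegree = 8 * m + 1 := by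
    rw [natDegree_mul_leadingCoeff_inv _ hy, hd]
  have hyg : y = C y.leadingCoeff * (y * C y.leadingCoeff⁻¹) := by
    rw [mul_left_comm, ← C_mul, mul_inv_cancel₀ hc, C_1, mul_one]
  generalize y * C y.leadingCoeff⁻¹ = g at hg hgd hyg
  generalize y.leadingCoeff = c at hc hyg
  have h2F : (2 : F) = 0 := by exact_mod_cast CharP.cast_eq_zero F 2
  by_cases hgi : Irreducible g
  · obtain ⟨h1, h2⟩ := monic_deriv hg hgd (by push_cast; linear_combination (4 * m : F) * h2F)
    obtain ⟨a, w, haw⟩ := exists_sq_add g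
    have h3 : derivative g = w ^ 2 := by rw [haw, derivative_odd]
    rw [h3] at h1 h2
    have hw : w.Monic := by
      have h4 : w.leadingCoeff ^ 2 = 1 := by rw [← leadingCoeff_pow]; exact h1
      have h5 : (w.leadingCoeff - 1) ^ 2 = 0 := by
        linear_combination h4 + (1 - w.leadingCoeff) * h2F
      exact sub_eq_zero.1 (pow_eq_zero_iff two_ne_zero |>.1 h5)
    rw [natDegree_pow] at h2
    obtain ⟨t, rfl⟩ := (dvd_carl (j := 4 * m) w hw.ne_zero (by omega)).trans hL
    have := liou_flip_four hc hw (hw.of_mul_monic_left hs) hg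
      (PerfectField.separable_of_irreducible hgi) hgd h3 hev hlt
    unfold liou at this
    rw [← hyg, UniqueFactorizationMonoid.card_factors_of_irreducible hgi,
      UniqueFactorizationMonoid.card_factors_of_irreducible hirr] at this
    norm_num at this
  · rw [hg.irreducible_iff_lt_natDegree_lt (fun h => by rw [h, natDegree_one] at hgd; omega)] at hgi
    push Not at hgi
    obtain ⟨u, hu, hud, hug⟩ := hgi
    have h2 : (s ^ 4).natDegree = 4 * s.natDegree := hs.natDegree_pow 4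
    have h3 : (s ^ 4 + y).Monic := (hs.pow 4).add_of_left (degree_lt_degree (by omega))
    have h4 : (s ^ 4 + y).natDegree = 4 * s.natDegree := by
      rw [natDegree_add_eq_left_of_natDegree_lt (by omega), h2]
    rw [h3.irreducible_iff_lt_natDegree_lt (fun h => by rw [h, natDegree_one] at h4; omega)] at hirr
    rw [mem_Ioc, hgd] at hud
    refine hirr u hu (mem_Ioc.2 ⟨hud.1, by omega⟩) (dvd_add ?_ (hyg ▸ hug.mul_left _))
    exact ((dvd_carl u hu.ne_zero (by omega)).trans hL).trans (dvd_pow_self s (by omega))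

theorem exists_centre (m : ℕ) (hm : 1 ≤ m) : ∃ (f : F[X]) (d : ℕ), f.Monic ∧ f.natDegree = d ∧
    16 * m + 8 ≤ d ∧
    (Fintype.card F - 1 : ℝ) * d = 4 * (Fintype.card F : ℝ) ^ (4 * m + 1) + 4 * Fintype.card F - 8 ∧
    f.coeff (8 * m + 1) = 0 ∧ (∀ i, d - 8 ≤ i → i < d → f.coeff i = 0) ∧
    ∀ y : F[X], y ≠ 0 → y.natDegree = 8 * m + 1 → ¬ Irreducible (f + y) := by
  have h2F : (2 : F) = 0 := by exact_mod_cast CharP.cast_eq_zero F 2
  have h2X : (2 : F[X]) = 0 := by exact_mod_cast CharP.cast_eq_zero F[X] 2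
  have hL := monic_carl (F := F) (4 * m)
  have hD := natDegree_carl_eq (F := F) (4 * m)
  have hD1 : 4 * m < (carl F (4 * m)).natDegree := by
    have := (natDegree_carl_bounds (F := F) (4 * m - 1)).1
    rwa [Nat.sub_add_cancel (by omega)] at this
  have hev : Even (carl F (4 * m)).natDegree := by
    rw [hD]
    refine Finset.even_sum _ fun i hi => Nat.even_pow.2 ⟨?_, by have := (mem_Icc.1 hi).1; omega⟩
    exact (FiniteField.even_card_iff_char_two.1 (ringChar.eq F 2)) |> Nat.even_iff.2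
  have hr : (X ^ ((carl F (4 * m)).natDegree + 2) %ₘ carl F (4 * m)).natDegree <
      (carl F (4 * m)).natDegree :=
    natDegree_modByMonic_lt _ hL fun h => by rw [h, natDegree_one] at hD1; omega
  have hdv : carl F (4 * m) ∣ X ^ ((carl F (4 * m)).natDegree + 2) -
      X ^ ((carl F (4 * m)).natDegree + 2) %ₘ carl F (4 * m) :=
    ⟨_, by rw [sub_eq_iff_eq_add', modByMonic_add_div]⟩
  have hgeo : (Fintype.card F - 1 : ℝ) * (carl F (4 * m)).natDegree =
      (Fintype.card F : ℝ) ^ (4 * m + 1) - Fintype.card F := by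
    rw [hD]
    push_cast
    generalize 4 * m = k
    induction k with
    | zero => simp
    | succ k IH => rw [Finset.sum_Icc_succ_top (by omega), mul_add, IH]; ring
  generalize X ^ ((carl F (4 * m)).natDegree + 2) %ₘ carl F (4 * m) = r at hr hdv
  generalize (carl F (4 * m)).natDegree = D at hD1 hev hr hdv hgeo
  have hlt : r.degree < (X ^ (D + 2) : F[X]).degree :=
    degree_lt_degree (by rw [natDegree_X_pow]; omega)
  have hs : (X ^ (D + 2) - r).Monic := (monic_X_pow _).sub_of_left hlt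
  have hsd : (X ^ (D + 2) - r).natDegree = D + 2 := by
    rw [natDegree_sub_eq_left_of_natDegree_lt (by rw [natDegree_X_pow]; omega), natDegree_X_pow]
  refine ⟨(X ^ (D + 2) - r) ^ 4, 4 * (D + 2), hs.pow 4, by rw [hs.natDegree_pow, hsd], by omega,
    by push_cast; linear_combination 4 * hgeo, ?_, fun i h1 h2 => ?_,
    gap_four hs hdv (by rw [hsd]; exact hev.add even_two) (by omega)⟩
  · have h1 : derivative ((X ^ (D + 2) - r) ^ 4) = 0 := by
      rw [derivative_pow]
      simp only [Nat.cast_ofNat, map_ofNat]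
      linear_combination (2 * (X ^ (D + 2) - r) ^ (4 - 1) * derivative (X ^ (D + 2) - r)) * h2X
    have h2 := congrArg (coeff · (8 * m)) h1
    simp only [coeff_derivative, coeff_zero] at h2
    push_cast at h2
    linear_combination h2 - (4 * m * ((X ^ (D + 2) - r) ^ 4).coeff (8 * m + 1)) * h2F
  · have h3 : (X ^ (D + 2) - r) ^ 4 = X ^ (4 * (D + 2)) + r ^ 4 := by
      rw [mul_comm, pow_mul]
      generalize (X ^ (D + 2) : F[X]) = a
      linear_combination (-2 * a ^ 3 * r + 3 * a ^ 2 * r ^ 2 - 2 * a * r ^ 3) * h2X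
    rw [h3, coeff_add, coeff_X_pow, if_neg h2.ne, zero_add]
    exact coeff_eq_zero_of_natDegree_lt (natDegree_pow_le.trans_lt (by omega))

end Pool.Agent.MP_644200_nt

end

section

/- Digits, positions and the number of monic irreducible polynomials below a position. -/

set_option autoImplicit false

namespace Pool.Agent.MP_644200_nt

open Polynomial Finset Pool.Agent.MP_4fffd4_nt Pool.Agent.MP_c853c5_nt

theorem sum_dig_lt {q : ℕ} {c : ℕ → ℕ} (hc : ∀ i, c i < q) (k : ℕ) :
    ∑ j ∈ range k, c j * q ^ j < q ^ k := by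
  induction k with
  | zero => simp
  | succ k IH =>
    rw [sum_range_succ, pow_succ]
    have := Nat.mul_le_mul_right (q ^ k) (Nat.succ_le_of_lt (hc k))
    nlinarith

theorem sum_dig_div {q : ℕ} {c : ℕ → ℕ} (hc : ∀ i, c i < q) {i k : ℕ} (h : i < k) :
    (∑ j ∈ range k, c j * q ^ j) / q ^ i % q = c i := by
  obtain ⟨r, rfl⟩ : ∃ r, k = i + (1 + r) := ⟨k - i - 1, by omega⟩
  have hq : 0 < q := (Nat.zero_le _).trans_lt (hc 0)
  have e : ∑ j ∈ range (1 + r), c (i + j) * q ^ (i + j) =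
      q ^ i * (c i + q * ∑ j ∈ range r, c (i + (1 + j)) * q ^ j) := by
    rw [sum_range_add, mul_add, mul_sum, mul_sum, sum_range_one]
    congr 1
    · simp [mul_comm]
    · exact sum_congr rfl fun j _ => by ring
  rw [sum_range_add, e, Nat.add_mul_div_left _ _ (pow_pos hq i),
    Nat.div_eq_of_lt (sum_dig_lt hc i), zero_add, Nat.add_mul_mod_self_left,
    Nat.mod_eq_of_lt (hc i)]

variable {F : Type*} [Field F] [Fintype F] (dig : F ≃ Fin (Fintype.card F))

/-- The lower `k` coefficients read as a number. -/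
def val (f : F[X]) (k : ℕ) : ℕ :=
  ∑ i ∈ range k, (dig (f.coeff i) : ℕ) * Fintype.card F ^ i

variable (F) in
/-- The first position in degree `k`. -/
def base (k : ℕ) : ℕ := 1 + ∑ i ∈ range k, Fintype.card F ^ i

theorem base_succ (k : ℕ) : base F (k + 1) = base F k + Fintype.card F ^ k := by
  rw [base, base, sum_range_succ, add_assoc]

theorem base_mono : StrictMono (base F) := strictMono_nat_of_lt_succ fun k => by
  rw [base_succ]
  exact Nat.lt_add_of_pos_right (pow_pos Fintype.card_pos k)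

theorem pos_eq (f : F[X]) : pos dig f = base F f.natDegree + val dig f f.natDegree := by
  simp only [pos, base, val, add_mul, one_mul, sum_add_distrib]
  ring

theorem val_lt (f : F[X]) (k : ℕ) : val dig f k < Fintype.card F ^ k :=
  sum_dig_lt (fun i => (dig (f.coeff i)).2) k

theorem val_div (f : F[X]) {i k : ℕ} (h : i < k) :
    val dig f k / Fintype.card F ^ i % Fintype.card F = dig (f.coeff i) :=
  sum_dig_div (fun i => (dig (f.coeff i)).2) h

theorem pos_lt (f : F[X]) : pos dig f < base F (f.natDegree + 1) := by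
  rw [pos_eq, base_succ]
  exact Nat.add_lt_add_left (val_lt dig f _) _

theorem natDegree_of_pos {f : F[X]} {k : ℕ} (h1 : base F k ≤ pos dig f)
    (h2 : pos dig f < base F (k + 1)) : f.natDegree = k := by
  have a := base_mono.lt_iff_lt.1 (h1.trans_lt (pos_lt dig f))
  have b := base_mono.lt_iff_lt.1 (((pos_eq dig f).ge.trans' (Nat.le_add_right _ _)).trans_lt h2)
  omega

theorem coeff_eq_of_div {f g : F[X]} (hf : f.Monic) (hg : g.Monic) {d h : ℕ}
    (hfd : f.natDegree = d) (hgd : g.natDegree = d)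
    (e : val dig f d / Fintype.card F ^ h = val dig g d / Fintype.card F ^ h) {i : ℕ}
    (hi : h ≤ i) : f.coeff i = g.coeff i := by
  rcases lt_trichotomy i d with hid | hid | hid
  · apply dig.injective
    apply Fin.ext
    obtain ⟨r, rfl⟩ := Nat.exists_eq_add_of_le hi
    rw [← val_div dig f hid, ← val_div dig g hid, pow_add, ← Nat.div_div_eq_div_mul,
      ← Nat.div_div_eq_div_mul, e]
  · rw [hid, ← hfd, hf.coeff_natDegree, hfd, ← hgd, hg.coeff_natDegree]
  · rw [coeff_eq_zero_of_natDegree_lt (hfd ▸ hid), coeff_eq_zero_of_natDegree_lt (hgd ▸ hid)]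

theorem pos_inj {f g : F[X]} (hf : f.Monic) (hg : g.Monic) (h : pos dig f = pos dig g) :
    f = g := by
  have hd : f.natDegree = g.natDegree :=
    natDegree_of_pos dig (h ▸ (pos_eq dig g).ge.trans' (Nat.le_add_right _ _)) (h ▸ pos_lt dig g)
  rw [pos_eq, pos_eq, hd, add_right_inj] at h
  ext i
  exact coeff_eq_of_div dig hf hg hd rfl (h := 0) (by rw [h]) (Nat.zero_le i)

/-- The positions of the monic irreducible polynomials. -/
def S (m : ℕ) : Prop := ∃ f : F[X], f.Monic ∧ Irreducible f ∧ pos dig f = m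

theorem infinite_S : (setOf (S dig)).Infinite := by
  refine Set.infinite_of_forall_exists_gt fun a => ?_
  have h := card_irrF (F := F) (n := a + 4) (by omega)
  have hq := card_pos' (F := F)
  have : 0 < (irrF F (a + 4)).card := by
    exact_mod_cast (show (0 : ℝ) < _ by positivity).trans_le h
  obtain ⟨f, hf⟩ := card_pos.1 this
  obtain ⟨h1, h2, h3⟩ := mem_irrF.1 hf
  refine ⟨_, ⟨f, h1, h3, rfl⟩, ?_⟩
  have := base_mono (F := F).id_le (a + 4)
  rw [pos_eq, h2]
  simp only [id] at this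
  omega

theorem not_S (h0 : (dig 0 : ℕ) = 0) {f₀ : F[X]} (hf₀ : f₀.Monic) {d h : ℕ}
    (hd : f₀.natDegree = d) (hh : h < d) (hc : f₀.coeff h = 0)
    (H : ∀ y : F[X], y ≠ 0 → y.natDegree = h → ¬ Irreducible (f₀ + y)) {m : ℕ}
    (h1 : base F d + Fintype.card F ^ (h + 1) * (val dig f₀ d / Fintype.card F ^ (h + 1)) +
      Fintype.card F ^ h ≤ m)
    (h2 : m < base F d + Fintype.card F ^ (h + 1) * (val dig f₀ d / Fintype.card F ^ (h + 1)) +
      Fintype.card F ^ (h + 1)) : ¬ S dig m := by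
  rintro ⟨f, hf, hi, rfl⟩
  have hq : 0 < Fintype.card F := Fintype.card_pos
  generalize hM : val dig f₀ d / Fintype.card F ^ (h + 1) = M at h1 h2
  have hMlt : Fintype.card F ^ (h + 1) * (M + 1) ≤ Fintype.card F ^ d := by
    obtain ⟨r, rfl⟩ : ∃ r, d = h + 1 + r := ⟨d - h - 1, by omega⟩
    rw [pow_add _ (h + 1) r]
    refine Nat.mul_le_mul_left _ (Nat.succ_le_of_lt ?_)
    rw [← hM, Nat.div_lt_iff_lt_mul (pow_pos hq _), mul_comm, ← pow_add]
    exact val_lt dig f₀ _
  have hfd : f.natDegree = d := natDegree_of_pos dig (by omega) (by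
    rw [base_succ]; rw [mul_add] at hMlt; omega)
  rw [pos_eq, hfd] at h1 h2
  have e1 : val dig f d / Fintype.card F ^ (h + 1) = M := by
    rw [Nat.div_eq_iff (pow_pos hq _), mul_comm]
    omega
  have e2 : f.coeff h ≠ 0 := fun h3 => by
    have h4 := val_div dig f hh
    rw [h3, h0] at h4
    have h5 := Nat.mod_add_div (val dig f d / Fintype.card F ^ h) (Fintype.card F)
    rw [h4, zero_add, Nat.div_div_eq_div_mul, ← pow_succ, e1] at h5
    have h6 := Nat.lt_mul_div_succ (val dig f d) (pow_pos hq h)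
    rw [← h5, mul_add, ← mul_assoc, ← pow_succ] at h6
    omega
  have e3 : (f - f₀).coeff h ≠ 0 := by rwa [coeff_sub, hc, sub_zero]
  refine H (f - f₀) (fun h3 => e3 (by rw [h3, coeff_zero]))
    (le_antisymm (natDegree_le_iff_coeff_eq_zero.2 fun i hi => ?_) (le_natDegree_of_ne_zero e3))
    (by rwa [add_sub_cancel])
  rw [coeff_sub, coeff_eq_of_div dig hf hf₀ hfd hd (e1.trans hM.symm) hi, sub_self]

open SConv in
theorem card_irrF_ge {n : ℕ} (hn : 1 ≤ n) :
    (Fintype.card F : ℝ) ^ n - 2 * (Fintype.card F : ℝ) ^ (n / 2) ≤ n * (irrF F n).card := by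
  classical
  have h0 : ∑ e ∈ monF F n, vm e = (Fintype.card F : ℝ) ^ n := by
    obtain ⟨m, rfl⟩ : ∃ m, n = m + 1 := ⟨n - 1, by omega⟩
    exact sum_vm_succ m
  have h1 : ∀ g ∈ monF F n, vm g ≤ (if Irreducible g then (n : ℝ) else 0) +
      ∑ d ∈ range (n / 2 + 1), ∑ P ∈ irrF F d, if g = P ^ (n / d) then (d : ℝ) else 0 := by
    intro g hg
    have a1 : (0 : ℝ) ≤ if Irreducible g then (n : ℝ) else 0 := by positivity
    have a2 : ∀ d, ∀ P ∈ irrF F d, (0 : ℝ) ≤ if g = P ^ (n / d) then (d : ℝ) else 0 :=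
      fun d P _ => by positivity
    have a3 : ∀ d ∈ range (n / 2 + 1),
        (0 : ℝ) ≤ ∑ P ∈ irrF F d, if g = P ^ (n / d) then (d : ℝ) else 0 :=
      fun d _ => sum_nonneg (a2 d)
    rcases vm_cases g with h | ⟨P, b1, b2, a, ha, e, h⟩
    · rw [h]; exact add_nonneg a1 (sum_nonneg a3)
    have b3 := (mem_monF.1 hg).2
    rw [e, b1.natDegree_pow] at b3
    rcases Nat.eq_or_lt_of_le (Nat.succ_le_of_lt ha) with h2 | h2
    · rw [← h2] at e b3
      simp only [Nat.succ_eq_add_one, zero_add, pow_one, one_mul] at e b3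
      rw [h, b3, if_pos (e ▸ b2)]
      exact le_add_of_nonneg_right (sum_nonneg a3)
    · have b4 := b2.natDegree_pos
      have b5 : P.natDegree ∈ range (n / 2 + 1) := by
        rw [mem_range, Nat.lt_succ_iff, Nat.le_div_iff_mul_le two_pos, ← b3, mul_comm]
        exact Nat.mul_le_mul_right _ h2
      refine le_add_of_nonneg_of_le a1 (le_trans ?_ (single_le_sum a3 b5))
      refine le_trans ?_ (single_le_sum (a2 _) (mem_irrF.2 ⟨b1, rfl, b2⟩))
      rw [h, if_pos (by rw [← b3, Nat.mul_div_cancel _ b4, e])]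
  have h2 := sum_le_sum h1
  rw [h0, sum_add_distrib, ← sum_filter, sum_const, nsmul_eq_mul, sum_comm] at h2
  have h3 : ∑ d ∈ range (n / 2 + 1), ∑ g ∈ monF F n, ∑ P ∈ irrF F d,
      (if g = P ^ (n / d) then (d : ℝ) else 0) ≤ 2 * (Fintype.card F : ℝ) ^ (n / 2) := by
    refine (sum_le_sum fun d _ => ?_).trans (geom _)
    rw [sum_comm]
    refine (sum_le_card_nsmul _ _ (d : ℝ) fun P _ => ?_).trans ?_
    · rw [sum_ite_eq']
      split_ifs
      · exact le_rfl
      · positivity
    · rw [nsmul_eq_mul, mul_comm]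
      exact card_irrF_le d
  have h5 : ((monF F n).filter Irreducible).card = (irrF F n).card := by
    unfold irrF; congr
  rw [h5] at h2
  linarith

open Classical in
theorem sum_le_count {d a : ℕ} (h : base F d ≤ a) :
    ∑ k ∈ range d, (irrF F k).card ≤ Nat.count (S dig) a := by
  rw [Nat.count_eq_card_filter_range, ← card_biUnion fun i _ j _ hij =>
    disjoint_left.2 fun f h1 h2 => hij ((mem_irrF.1 h1).2.1.symm.trans (mem_irrF.1 h2).2.1)]
  refine card_le_card_of_injOn (pos dig) (fun f hf => ?_) fun f hf g hg e => ?_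
  · obtain ⟨k, hk, hf⟩ := mem_biUnion.1 (mem_coe.1 hf)
    obtain ⟨h1, h2, h3⟩ := mem_irrF.1 hf
    refine mem_coe.2 (mem_filter.2 ⟨mem_range.2 ?_, f, h1, h3, rfl⟩)
    exact (pos_lt dig f).trans_le ((base_mono.monotone (by have := mem_range.1 hk; omega)).trans h)
  · obtain ⟨k, -, hf⟩ := mem_biUnion.1 (mem_coe.1 hf)
    obtain ⟨l, -, hg⟩ := mem_biUnion.1 (mem_coe.1 hg)
    exact pos_inj dig (mem_irrF.1 hf).1 (mem_irrF.1 hg).1 e

end Pool.Agent.MP_644200_nt

end

section

/- The real inequality behind the violation. -/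

set_option autoImplicit false

namespace Pool.Agent.MP_644200_nt

theorem log_le_lin {q : ℝ} (hq : 8 ≤ q) : 201 / 10 * q * Real.log q ≤ (q - 1) ^ 3 := by
  have h1 : Real.log (q / 8) ≤ q / 8 - 1 := Real.log_le_sub_one_of_pos (by positivity)
  have h2 : Real.log 8 = 3 * Real.log 2 := by
    rw [show (8 : ℝ) = 2 ^ 3 by norm_num, Real.log_pow]; norm_num
  rw [Real.log_div (by positivity) (by norm_num), h2] at h1
  have h3 := Real.log_two_lt_d9
  have h4 : Real.log q ≤ q / 8 + 108 / 100 := by linarith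
  have h5 : 201 / 10 * q * Real.log q ≤ 201 / 10 * q * (q / 8 + 108 / 100) := by gcongr
  obtain ⟨x, rfl⟩ : ∃ x, q = 8 + x := ⟨q - 8, by ring⟩
  have hx : 0 ≤ x := by linarith
  nlinarith [pow_nonneg hx 3, pow_nonneg hx 2]

theorem final_ineq {q N a g p p' : ℝ} {d : ℕ} (hq : 8 ≤ q) (hd : 0 < d) (hp : 1 ≤ p)
    (hpa : p ≤ a) (hp' : a + g ≤ p') (hb : a + g ≤ q ^ d) (hNa : N ≤ a) (hN : 1000 ≤ N)
    (hg : 0 < g) (h1 : 998 / 1000 * (a + g) ≤ N * d)
    (h2 : (q - 1) ^ 3 * d ^ 2 ≤ 1601 / 100 * q * g) :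
    1 + Real.log N / (4 * N ^ 2) < p' ^ (1 / (N + 1)) / p ^ (1 / N) := by
  have hd' : (0 : ℝ) < d := by exact_mod_cast hd
  have ha : 0 < a := by linarith
  have hq0 : 0 < q := by linarith
  have hlq : 0 < Real.log q := Real.log_pos (by linarith)
  rw [Real.rpow_def_of_pos (by linarith), Real.rpow_def_of_pos (by linarith), ← Real.exp_sub]
  refine lt_of_lt_of_le ?_ ((add_comm _ _).trans_le (Real.add_one_le_exp _))
  have l1 : Real.log p ≤ Real.log a := Real.log_le_log (by linarith) hpa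
  have l2 : Real.log (a + g) ≤ Real.log p' := Real.log_le_log (by linarith) hp'
  have l3 : Real.log a ≤ d * Real.log q := by
    rw [← Real.log_pow]; exact Real.log_le_log ha (by linarith)
  have l4 : Real.log N ≤ Real.log a := Real.log_le_log (by linarith) hNa
  have l5 : g / (a + g) ≤ Real.log (a + g) - Real.log a := by
    have := Real.log_le_sub_one_of_pos (show 0 < a / (a + g) by positivity)
    rw [Real.log_div ha.ne' (by positivity)] at this
    have e : a / (a + g) - 1 = -(g / (a + g)) := by field_simp; ring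
    linarith
  have l6 : 998 / 1000 * g / d ≤ N * (g / (a + g)) := by
    rw [← mul_div_assoc, div_le_div_iff₀ hd' (by positivity)]
    nlinarith
  have l7 : 1252 / 1000 * (d * Real.log q) ≤ 998 / 1000 * g / d := by
    rw [le_div_iff₀ hd']
    have h3 := mul_le_mul_of_nonneg_right (log_le_lin hq) (sq_nonneg (d : ℝ))
    have h4 : q * (201 / 10 * Real.log q * d ^ 2) ≤ q * (1601 / 100 * g) := by linarith
    have h5 := le_of_mul_le_mul_left h4 hq0
    nlinarith [mul_pos hlq (pow_pos hd' 2)]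
  have hE : 252 / 1000 * (d * Real.log q) ≤ N * Real.log p' - (N + 1) * Real.log p := by
    have := mul_le_mul_of_nonneg_left (l5.trans (sub_le_sub l2 le_rfl)) (show 0 ≤ N by linarith)
    nlinarith
  have hL : 0 < d * Real.log q := by positivity
  have e : Real.log p' * (1 / (N + 1)) - Real.log p * (1 / N) =
      (N * Real.log p' - (N + 1) * Real.log p) / (N * (N + 1)) := by
    field_simp
  rw [add_lt_add_iff_left, e, div_lt_div_iff₀ (by positivity) (by positivity)]
  have m1 : Real.log N * (N * (N + 1)) ≤ d * Real.log q * (N * (N + 1)) := by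
    gcongr; linarith
  have m2 : 252 / 1000 * (d * Real.log q) * (4 * N ^ 2) ≤
      (N * Real.log p' - (N + 1) * Real.log p) * (4 * N ^ 2) := by gcongr
  have m3 : 0 < d * Real.log q * (N * (8 / 1000 * N - 1)) := by
    have : 0 < 8 / 1000 * N - 1 := by linarith
    positivity
  nlinarith

end Pool.Agent.MP_644200_nt

end

section

/- The violation of the inequality just before the long run. -/

set_option autoImplicit false

namespace Pool.Agent.MP_644200_nt

open Polynomial Finset Pool.Agent.MP_4fffd4_nt Pool.Agent.MP_c853c5_nt Filter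

variable {F : Type*} [Field F] [Fintype F] (dig : F ≃ Fin (Fintype.card F))

theorem val_lt_of_zero (h0 : (dig 0 : ℕ) = 0) {f : F[X]} {e k : ℕ}
    (h : ∀ i, e ≤ i → i < e + k → f.coeff i = 0) : val dig f (e + k) < Fintype.card F ^ e := by
  have : val dig f (e + k) = val dig f e := by
    rw [val, sum_range_add, sum_eq_zero (s := range k), add_zero, val]
    intro i hi
    rw [h _ (by omega) (by have := mem_range.1 hi; omega), h0, zero_mul]
  rw [this]
  exact val_lt dig f e

theorem base_le (hq : 8 ≤ Fintype.card F) (k : ℕ) : 7 * base F k ≤ Fintype.card F ^ k + 6 := by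
  induction k with
  | zero => simp [base]
  | succ k IH =>
    rw [base_succ, pow_succ]
    have := Nat.mul_le_mul_left (Fintype.card F ^ k) hq
    omega

theorem sq_le_pow {q e : ℕ} (hq : 8 ≤ q) (he : 16 ≤ e) : (e + 8) ^ 2 ≤ q ^ e := by
  have h1 : e ≤ 2 ^ e := Nat.lt_two_pow_self.le
  calc (e + 8) ^ 2 ≤ (2 * e) ^ 2 := Nat.pow_le_pow_left (by omega) 2
    _ = 4 * e ^ 2 := by ring
    _ ≤ e * e ^ 2 := Nat.mul_le_mul_right _ (by omega)
    _ = e ^ 3 := by ring
    _ ≤ (2 ^ e) ^ 3 := Nat.pow_le_pow_left h1 3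
    _ = 8 ^ e := by rw [← pow_mul, mul_comm, pow_mul]; norm_num
    _ ≤ q ^ e := Nat.pow_le_pow_left hq e

open Classical in
theorem count_ge {e a : ℕ} (he : 8 ≤ e) (h : base F (e + 8) ≤ a) :
    (Fintype.card F : ℝ) ^ (e + 5) + (Fintype.card F : ℝ) ^ (e + 6) +
      (Fintype.card F : ℝ) ^ (e + 7) - 6 * (Fintype.card F : ℝ) ^ e ≤
      Nat.count (S dig) a * (e + 8 : ℕ) := by
  have h1 := sum_le_count dig h
  rw [sum_range_succ, sum_range_succ, sum_range_succ] at h1
  have hq : (1 : ℝ) ≤ Fintype.card F := by exact_mod_cast Fintype.card_pos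
  have key : ∀ j, 1 ≤ j → j ≤ 8 → (Fintype.card F : ℝ) ^ (e + j) - 2 * (Fintype.card F : ℝ) ^ e ≤
      (irrF F (e + j)).card * (e + 8 : ℕ) := fun j h1 h2 => by
    have h3 := card_irrF_ge (F := F) (n := e + j) (by omega)
    have h4 : (Fintype.card F : ℝ) ^ ((e + j) / 2) ≤ (Fintype.card F : ℝ) ^ e :=
      pow_le_pow_right₀ hq (by omega)
    have h5 : ((e + j : ℕ) : ℝ) * (irrF F (e + j)).card ≤ (irrF F (e + j)).card * (e + 8 : ℕ) := by
      rw [mul_comm]
      gcongr
    linarith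
  have h2 : ((irrF F (e + 5)).card + (irrF F (e + 6)).card + (irrF F (e + 7)).card : ℝ) ≤
      Nat.count (S dig) a := by exact_mod_cast le_trans (by omega) h1
  have h3 := mul_le_mul_of_nonneg_right h2 (Nat.cast_nonneg (α := ℝ) (e + 8))
  linarith [key 5 (by omega) (by omega), key 6 (by omega) (by omega), key 7 (by omega) (by omega)]

theorem arith {x₀ x₁ x₂ x₃ x₄ x₅ x₆ x₇ x₈ B B' M Q N d : ℝ} (s0 : 8 * x₀ ≤ x₁) (s1 : 8 * x₁ ≤ x₂)
    (s2 : 8 * x₂ ≤ x₃) (s3 : 8 * x₃ ≤ x₄) (s4 : 8 * x₄ ≤ x₅) (s5 : 8 * x₅ ≤ x₆)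
    (s6 : 8 * x₆ ≤ x₇) (s7 : 8 * x₇ ≤ x₈) (hB : 7 * B ≤ x₅ + 6) (hB' : B' = B + x₅ + x₆ + x₇)
    (hM : M ≤ x₀) (hQ : Q ≤ x₀) (hx : d ^ 2 ≤ x₀) (hx' : 1 ≤ x₀) (hd : 0 < d)
    (hN : x₅ + x₆ + x₇ - 6 * x₀ ≤ N * d) :
    1000 * d ≤ N ∧ B' + M + Q ≤ x₈ ∧ 998 / 1000 * (B' + M + Q) ≤ N * d :=
  ⟨le_of_mul_le_mul_right (by linarith) hd, by linarith, by linarith⟩

theorem arith' {q Z d : ℝ} (hq : 8 ≤ q) (hZ : 4096 * q ≤ Z) (h : (q - 1) * d = 4 * Z + 4 * q - 8) :
    (q - 1) ^ 3 * d ^ 2 ≤ 1601 / 100 * ((q - 1) * Z ^ 2) := by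
  rw [show (q - 1) ^ 3 * d ^ 2 = (q - 1) * ((q - 1) * d) ^ 2 by ring, h, mul_left_comm]
  refine mul_le_mul_of_nonneg_left ?_ (by linarith)
  nlinarith

theorem main_step [CharP F 2] (hq : 8 ≤ Fintype.card F) (h0 : (dig 0 : ℕ) = 0) (m : ℕ)
    (hm : 1 ≤ m) : ∃ n : ℕ, m ≤ n ∧ 1 + Real.log n / (4 * (n : ℝ) ^ 2) <
      (pr dig (n + 1) : ℝ) ^ (1 / ((n : ℝ) + 1)) / (pr dig n : ℝ) ^ (1 / (n : ℝ)) := by
  classical
  obtain ⟨f, d, hf, hd, hmd, hdq, hc, hz, H⟩ := exists_centre (F := F) m hm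
  obtain ⟨e, rfl⟩ : ∃ e, d = e + 8 := ⟨d - 8, by omega⟩
  have hnS := fun a => not_S dig h0 hf hd (h := 8 * m + 1) (by omega) hc H (m := a)
  have hv := val_lt_of_zero dig h0 (f := f) (e := e) (k := 8) fun i h1 h2 => hz i (by omega) h2
  have hM := Nat.mul_div_le (val dig f (e + 8)) (Fintype.card F ^ (8 * m + 1 + 1))
  generalize Fintype.card F ^ (8 * m + 1 + 1) * (val dig f (e + 8) /
    Fintype.card F ^ (8 * m + 1 + 1)) = M at hnS hM
  have hB := base_le (F := F) hq (e + 5)
  have hB' : base F (e + 8) = base F (e + 5) + Fintype.card F ^ (e + 5) +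
      Fintype.card F ^ (e + 6) + Fintype.card F ^ (e + 7) := by
    rw [base_succ, base_succ, base_succ]
  have hN := count_ge dig (e := e) (a := base F (e + 8) + M + Fintype.card F ^ (8 * m + 1))
    (by omega) (by omega)
  have hNa := Nat.count_le (p := S dig) (n := base F (e + 8) + M + Fintype.card F ^ (8 * m + 1))
  have hp := fun k => Nat.nth_lt_of_lt_count (p := S dig) (k := k)
    (n := base F (e + 8) + M + Fintype.card F ^ (8 * m + 1))
  have hp' := Nat.le_nth_count (infinite_S dig) (base F (e + 8) + M + Fintype.card F ^ (8 * m + 1))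
  generalize Nat.count (S dig) (base F (e + 8) + M + Fintype.card F ^ (8 * m + 1)) = N at *
  have hp'' : base F (e + 8) + M + Fintype.card F ^ (8 * m + 1 + 1) ≤ Nat.nth (S dig) N :=
    not_lt.1 fun h => hnS _ hp' h (Nat.nth_mem_of_infinite (infinite_S dig) N)
  have hh : Fintype.card F ^ (8 * m + 1 + 1) ≤ Fintype.card F ^ e :=
    Nat.pow_le_pow_right (by omega) (by omega)
  have hX := sq_le_pow hq (show 16 ≤ e by omega)
  have hq' : (8 : ℝ) ≤ Fintype.card F := by exact_mod_cast hq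
  have hB₁ : (7 * base F (e + 5) : ℝ) ≤ (Fintype.card F : ℝ) ^ (e + 5) + 6 := by exact_mod_cast hB
  have hB₂ : (base F (e + 8) : ℝ) = base F (e + 5) + (Fintype.card F : ℝ) ^ (e + 5) +
      (Fintype.card F : ℝ) ^ (e + 6) + (Fintype.card F : ℝ) ^ (e + 7) := by exact_mod_cast hB'
  have hM₁ : (M : ℝ) ≤ (Fintype.card F : ℝ) ^ e := by exact_mod_cast hM.trans hv.le
  have hh₁ : (Fintype.card F : ℝ) ^ (8 * m + 1 + 1) ≤ (Fintype.card F : ℝ) ^ e := by
    exact_mod_cast hh
  have hX₁ : ((e + 8 : ℕ) : ℝ) ^ 2 ≤ (Fintype.card F : ℝ) ^ e := by exact_mod_cast hX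
  have hNa₁ : (N : ℝ) ≤ base F (e + 8) + M + (Fintype.card F : ℝ) ^ (8 * m + 1) := by
    exact_mod_cast hNa
  have hp₂ : (base F (e + 8) + M + (Fintype.card F : ℝ) ^ (8 * m + 1 + 1) : ℝ) ≤
      pr dig (N + 1) := by exact_mod_cast hp''
  have hd₁ : (24 : ℝ) ≤ (e + 8 : ℕ) := by exact_mod_cast (by omega : 24 ≤ e + 8)
  have hm₁ : (m : ℝ) ≤ (e + 8 : ℕ) := by exact_mod_cast (by omega : m ≤ e + 8)
  have hstep : ∀ k, 8 * (Fintype.card F : ℝ) ^ k ≤ (Fintype.card F : ℝ) ^ (k + 1) := fun k => by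
    rw [pow_succ, mul_comm]
    gcongr
  obtain ⟨a₁, a₂, a₃⟩ := arith (hstep e) (hstep (e + 1)) (hstep (e + 2)) (hstep (e + 3))
    (hstep (e + 4)) (hstep (e + 5)) (hstep (e + 6)) (hstep (e + 7)) hB₁ hB₂ hM₁ hh₁ hX₁
    (one_le_pow₀ (le_trans (by norm_num) hq')) (lt_of_lt_of_le (by norm_num) hd₁) hN
  have hN₁ : (1000 : ℝ) ≤ N := by linarith only [a₁, hd₁]
  have hN₂ : 0 < N := by exact_mod_cast (show (0 : ℝ) < N by linarith only [hN₁])
  have hp₁ : (pr dig N : ℝ) ≤ base F (e + 8) + M + (Fintype.card F : ℝ) ^ (8 * m + 1) := by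
    exact_mod_cast (hp (N - 1) (by omega)).le
  have hp₀ : (1 : ℝ) ≤ pr dig N := by
    obtain ⟨g, -, -, hg⟩ := Nat.nth_mem_of_infinite (infinite_S dig) (N - 1)
    exact_mod_cast (show 1 ≤ Nat.nth (S dig) (N - 1) from hg ▸ Nat.le_add_right _ _)
  have hQ : (0 : ℝ) < (Fintype.card F : ℝ) ^ (8 * m + 1) := by positivity
  have hZ : 4096 * (Fintype.card F : ℝ) ≤ (Fintype.card F : ℝ) ^ (4 * m + 1) := by
    rw [pow_succ]
    gcongr
    calc (4096 : ℝ) = 8 ^ 4 := by norm_num
      _ ≤ (Fintype.card F : ℝ) ^ 4 := by gcongr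
      _ ≤ _ := pow_le_pow_right₀ (le_trans (by norm_num) hq') (by omega)
  refine ⟨N, by exact_mod_cast (show (m : ℝ) ≤ N by linarith only [a₁, hm₁, hd₁]), final_ineq
    (g := (Fintype.card F : ℝ) ^ (8 * m + 1 + 1) - (Fintype.card F : ℝ) ^ (8 * m + 1))
    (d := e + 8) hq' (by omega) hp₀ hp₁ (by linarith only [hp₂]) (by linarith only [a₂]) hNa₁ hN₁
    (by linarith only [hQ, hstep (8 * m + 1)]) (by linarith only [a₃])
    ((arith' hq' hZ hdq).trans_eq (by ring))⟩

theorem main [CharP F 2] (hq : 8 ≤ Fintype.card F) (h0 : (dig 0 : ℕ) = 0) :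
    ∃ᶠ n : ℕ in atTop, 1 + Real.log n / (4 * (n : ℝ) ^ 2) <
      (pr dig (n + 1) : ℝ) ^ (1 / ((n : ℝ) + 1)) / (pr dig n : ℝ) ^ (1 / (n : ℝ)) := by
  refine frequently_atTop.2 fun m => ?_
  obtain ⟨n, h1, h2⟩ := main_step dig hq h0 (m + 1) (by omega)
  exact ⟨n, by omega, h2⟩

end Pool.Agent.MP_644200_nt

end
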