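import Mathlib
import Pool.Agent.Mg.F43e117.G31b336

/- Parseval on a finite abelian group, progressions, and the group of top coefficients. -/

set_option autoImplicit false

namespace Pool.Agent.MP_c853c5_nt.SVar

open Polynomial Finset Pool.Agent.MP_4fffd4_nt
open scoped BigOperators

theorem ind_congr {P Q : Prop} (h : P ↔ Q) : ind P = ind Q := congrArg ind (propext h)

theorem ind_and (P Q : Prop) : ind (P ∧ Q) = ind P * ind Q := by
  by_cases hP : P
  · rw [ind_pos hP, one_mul]; exact ind_congr (and_iff_right hP)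
  · rw [ind_neg hP, zero_mul, ind_neg fun h => hP h.1]

theorem ind_mul_congr {P : Prop} {a b : ℝ} (h : P → a = b) : ind P * a = ind P * b := by
  by_cases hP : P
  · rw [h hP]
  · rw [ind_neg hP, zero_mul, zero_mul]

theorem sum_ind_eq {α : Type*} {s : Finset α} {a : α} (ha : a ∈ s) (f : α → ℝ) :
    ∑ x ∈ s, ind (a = x) * f x = f a := by
  rw [Finset.sum_eq_single_of_mem a ha fun x _ hx => by rw [ind_neg hx.symm, zero_mul],
    ind_pos rfl, one_mul]

theorem sum_ind_eq_le {α : Type*} (s : Finset α) (a : α) : ∑ x ∈ s, ind (x = a) ≤ 1 := by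
  by_cases ha : a ∈ s
  · rw [Finset.sum_eq_single_of_mem a ha fun x _ hx => ind_neg hx]
    exact ind_le_one _
  · rw [Finset.sum_eq_zero fun x hx => ind_neg fun e : x = a => ha (e ▸ hx)]
    exact zero_le_one

theorem sum_ind_unique {α : Type*} [Fintype α] {P : α → Prop} (a : α) (h : ∀ x, P x ↔ x = a) :
    ∑ x, ind (P x) = 1 := by
  rw [Finset.sum_eq_single_of_mem a (mem_univ _) fun x _ hx => ind_neg (mt (h x).1 hx),
    ind_pos ((h a).2 rfl)]

section Fourier

variable {A : Type*} [AddCommGroup A] [Fintype A]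

theorem parseval {ι : Type*} (s : Finset ι) (w : ι → ℝ) (g : ι → A) :
    ∑ ψ : AddChar A ℂ, ‖∑ i ∈ s, (w i : ℂ) * ψ (g i)‖ ^ 2 =
      Fintype.card A * ∑ i ∈ s, ∑ j ∈ s, w i * w j * ind (g i = g j) := by
  classical
  apply Complex.ofReal_injective
  push_cast
  have : ∀ ψ : AddChar A ℂ, ((‖∑ i ∈ s, (w i : ℂ) * ψ (g i)‖ : ℝ) : ℂ) ^ 2 =
      ∑ i ∈ s, ∑ j ∈ s, (w i : ℂ) * w j * ψ (g i - g j) := by
    intro ψ
    rw [← Complex.mul_conj', map_sum, Finset.sum_mul_sum]
    refine Finset.sum_congr rfl fun i _ => Finset.sum_congr rfl fun j _ => ?_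
    rw [sub_eq_add_neg, AddChar.map_add_eq_mul, AddChar.map_neg_eq_conj, map_mul,
      Complex.conj_ofReal]
    ring
  simp only [this]
  rw [Finset.sum_comm, Finset.mul_sum]
  refine Finset.sum_congr rfl fun i _ => ?_
  rw [Finset.sum_comm, Finset.mul_sum]
  refine Finset.sum_congr rfl fun j _ => ?_
  rw [← Finset.mul_sum, AddChar.sum_apply_eq_ite]
  by_cases h : g i = g j
  · rw [ind_pos h, if_pos (sub_eq_zero.2 h)]; push_cast; ring
  · rw [ind_neg h, if_neg (mt sub_eq_zero.1 h)]; simp

theorem conv_le {ι : Type*} (s : Finset ι) (w : ι → ℝ) (g : ι → A) (c : A → ℝ) {S : ℝ}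
    (hc : ∀ ψ : AddChar A ℂ, ‖∑ t, (c t : ℂ) * ψ t‖ ≤ S) :
    ∑ t, (∑ i ∈ s, w i * c (t - g i)) ^ 2 ≤
      S ^ 2 * ∑ i ∈ s, ∑ j ∈ s, w i * w j * ind (g i = g j) := by
  have hA : (0 : ℝ) < Fintype.card A := by exact_mod_cast Fintype.card_pos
  refine le_of_mul_le_mul_left ?_ hA
  have h1 := parseval univ (fun t => ∑ i ∈ s, w i * c (t - g i)) (fun t : A => t)
  have h2 : ∀ F : A → ℝ, ∑ i, ∑ j, F i * F j * ind (i = j) = ∑ t, F t ^ 2 := fun F =>
    Finset.sum_congr rfl fun i _ => by
      simp only [mul_comm _ (ind _)]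
      rw [sum_ind_eq (mem_univ i), sq]
  rw [h2] at h1
  rw [← h1, mul_left_comm, ← parseval, Finset.mul_sum]
  refine Finset.sum_le_sum fun ψ _ => ?_
  have h3 : ∑ t, ((∑ i ∈ s, w i * c (t - g i) : ℝ) : ℂ) * ψ t =
      (∑ t, (c t : ℂ) * ψ t) * ∑ i ∈ s, (w i : ℂ) * ψ (g i) := by
    push_cast
    simp only [Finset.sum_mul]
    rw [Finset.sum_comm, ← Finset.sum_mul, Finset.mul_sum]
    refine Finset.sum_congr rfl fun i _ => ?_
    rw [Finset.sum_mul, ← Equiv.sum_comp (Equiv.addRight (g i))]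
    refine Finset.sum_congr rfl fun t _ => ?_
    rw [Equiv.coe_addRight, add_sub_cancel_right, AddChar.map_add_eq_mul]
    ring
  rw [h3, norm_mul, mul_pow]
  exact mul_le_mul_of_nonneg_right (pow_le_pow_left₀ (norm_nonneg _) (hc ψ) 2) (by positivity)

end Fourier

variable {F : Type*} [Field F]

/-- A map to an abelian group recording the top `K` coefficients below the leading one. -/
structure Cls (K : ℕ) {A : Type*} [AddCommGroup A] (cls : F[X] → A) : Prop where
  mul : ∀ g h : F[X], g.Monic → h.Monic → cls (g * h) = cls g + cls h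
  X : cls X = 0
  iff : ∀ g h : F[X], g.Monic → h.Monic → g.natDegree = h.natDegree →
    (cls g = cls h ↔ ∀ m, g.natDegree ≤ m + K → g.coeff m = h.coeff m)
  surj : ∀ a, ∃ g : F[X], g.Monic ∧ cls g = a

theorem mk_reverse_eq_iff (K : ℕ) {g h : F[X]} (e : g.natDegree = h.natDegree) :
    AdjoinRoot.mk (X ^ (K + 1) : F[X]) g.reverse = AdjoinRoot.mk (X ^ (K + 1)) h.reverse ↔
      ∀ m, g.natDegree ≤ m + K → g.coeff m = h.coeff m := by
  rw [AdjoinRoot.mk_eq_mk, X_pow_dvd_iff]
  simp only [coeff_sub, sub_eq_zero, coeff_reverse, ← e]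
  constructor
  · intro H m hm
    by_cases h1 : m ≤ g.natDegree
    · have := H (g.natDegree - m) (by omega)
      rwa [revAt_le (Nat.sub_le _ _), Nat.sub_sub_self h1] at this
    · rw [coeff_eq_zero_of_natDegree_lt (by omega), coeff_eq_zero_of_natDegree_lt (by omega)]
  · intro H i hi
    apply H
    by_cases h1 : i ≤ g.natDegree
    · rw [revAt_le h1]; omega
    · rw [revAt_eq_self_of_lt (by omega)]; omega

universe u

theorem exists_cls (F : Type u) [Field F] [Fintype F] (K : ℕ) :
    ∃ (A : Type u) (_ : AddCommGroup A) (_ : Fintype A) (cls : F[X] → A), Cls K cls := by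
  classical
  have hM : (X ^ (K + 1) : F[X]).Monic := monic_X_pow _
  have := hM.finite_adjoinRoot
  have : Finite (AdjoinRoot (X ^ (K + 1) : F[X])) := Module.finite_of_finite F
  let φ : F[X] → AdjoinRoot (X ^ (K + 1) : F[X]) := fun g => AdjoinRoot.mk _ g.reverse
  have hφ : ∀ g h, φ (g * h) = φ g * φ h := fun g h => by
    simp only [φ, reverse_mul_of_domain, map_mul]
  have hφ1 : φ 1 = 1 := by
    simp only [φ]; rw [← C_1, reverse_C, C_1, map_one]
  let H : Submonoid (AdjoinRoot (X ^ (K + 1) : F[X])) :=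
    { carrier := {a | ∃ g : F[X], g.Monic ∧ φ g = a}
      mul_mem' := by
        rintro _ _ ⟨g, hg, rfl⟩ ⟨h, hh, rfl⟩
        exact ⟨g * h, hg.mul hh, hφ g h⟩
      one_mem' := ⟨1, monic_one, hφ1⟩ }
  have hu : ∀ a : H, IsUnit a := by
    rintro ⟨_, g, hg, rfl⟩
    have h1 : IsCoprime g.reverse (X ^ (K + 1)) := by
      refine IsCoprime.pow_right (IsCoprime.symm ?_)
      rw [irreducible_X.coprime_iff_not_dvd, X_dvd_iff, coeff_zero_reverse, hg.leadingCoeff]
      exact one_ne_zero
    obtain ⟨a, b, hab⟩ := h1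
    have h2 : IsUnit (φ g) := by
      refine IsUnit.of_mul_eq_one_right (AdjoinRoot.mk _ a) ?_
      have := congrArg (AdjoinRoot.mk (X ^ (K + 1) : F[X])) hab
      rwa [map_add, map_mul, map_mul, AdjoinRoot.mk_self, mul_zero, add_zero, map_one] at this
    obtain ⟨n, hn, h3⟩ := isOfFinOrder_iff_pow_eq_one.1 (isOfFinOrder_of_finite h2.unit)
    refine IsUnit.of_pow_eq_one (n := n) (Subtype.ext ?_) hn.ne'
    have := congrArg Units.val h3
    simpa using this
  let _ : CommGroup H := commGroupOfIsUnit hu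
  refine ⟨Additive H, inferInstance, Fintype.ofFinite _,
    fun g => if h : g.Monic then Additive.ofMul ⟨φ g, g, h, rfl⟩ else 0, ?_, ?_, ?_, ?_⟩
  · intro g h hg hh
    simp only [dif_pos hg, dif_pos hh, dif_pos (hg.mul hh)]
    exact congrArg Additive.ofMul (Subtype.ext (hφ g h))
  · simp only [dif_pos (monic_X (R := F))]
    refine congrArg Additive.ofMul (Subtype.ext ?_)
    have := reverse_mul_X (1 : F[X])
    rw [one_mul] at this
    show φ X = 1
    rw [← hφ1]
    simp only [φ, this]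
  · intro g h hg hh e
    simp only [dif_pos hg, dif_pos hh]
    rw [← mk_reverse_eq_iff K e]
    exact ⟨fun h => congrArg (fun a : Additive H => (Additive.toMul a).1) h,
      fun h => congrArg Additive.ofMul (Subtype.ext h)⟩
  · rintro ⟨_, g, hg, rfl⟩
    exact ⟨g, hg, by simp only [dif_pos hg]; rfl⟩

namespace Cls

variable {K : ℕ} {A : Type*} [AddCommGroup A] {cls : F[X] → A} (h : Cls K cls)
include h

theorem iff_degree {g g' : F[X]} (hg : g.Monic) (hg' : g'.Monic) {n : ℕ}
    (e : g.natDegree = n + K) (e' : g'.natDegree = n + K) :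
    cls g = cls g' ↔ (g - g').degree < n := by
  rw [h.iff g g' hg hg' (e.trans e'.symm), degree_lt_iff_coeff_zero, e]
  simp only [coeff_sub, sub_eq_zero, add_le_add_iff_right]

theorem inv {g z : F[X]} (hg : g.Monic) (hz : z.degree + K < g.degree) : cls (g + z) = cls g := by
  have h1 : z.degree < g.degree :=
    lt_of_le_of_lt (le_add_of_nonneg_right (by exact_mod_cast Nat.zero_le K)) hz
  have h2 := natDegree_add_eq_left_of_degree_lt h1
  rw [h.iff _ _ (hg.add_of_left h1) hg h2, h2]
  intro m hm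
  rw [coeff_add, coeff_eq_zero_of_degree_lt (p := z), add_zero]
  refine lt_of_not_ge fun h3 => absurd hz (not_lt.2 ?_)
  rw [degree_eq_natDegree hg.ne_zero]
  exact le_trans (by exact_mod_cast hm) (add_le_add_left h3 (K : WithBot ℕ))

theorem X_pow (n : ℕ) : cls (Polynomial.X ^ n) = 0 := by
  induction n with
  | zero =>
    have := h.mul 1 1 monic_one monic_one
    rw [mul_one] at this
    rw [pow_zero]
    exact left_eq_add.1 this
  | succ n ih => rw [pow_succ, h.mul _ _ (monic_X_pow n) monic_X, ih, h.X, add_zero]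

theorem isDepth [Finite A] (ψ : AddChar A ℂ) : IsDepth K fun g => ψ (cls g) where
  mul g g' hg hg' := by rw [h.mul g g' hg hg', AddChar.map_add_eq_mul]
  norm g _ := ψ.norm_apply _
  X := by rw [h.X, AddChar.map_zero_eq_one]
  inv g z hg hz := by rw [h.inv hg hz]

theorem card [Fintype F] [Fintype A] : Fintype.card A = Fintype.card F ^ K := by
  rw [← card_degreeLT]
  refine (Fintype.card_of_bijective (f := fun y : degreeLT F K => cls (Polynomial.X ^ K + y.1))
    ⟨fun y y' e => ?_, fun a => ?_⟩).symm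
  · have := (h.iff_degree (n := 0) (monic_add_LT y).1 (monic_add_LT y').1
      (by rw [(monic_add_LT y).2, zero_add]) (by rw [(monic_add_LT y').2, zero_add])).1 e
    rw [add_sub_add_left_eq_sub, Nat.cast_zero, Nat.WithBot.lt_zero_iff, degree_eq_bot,
      sub_eq_zero] at this
    exact Subtype.ext this
  · obtain ⟨g, hg, rfl⟩ := h.surj a
    set n := g.natDegree with hn
    have hG : (g * Polynomial.X ^ K).Monic := hg.mul (monic_X_pow K)
    have hGd : (g * Polynomial.X ^ K).natDegree = n + K := by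
      rw [hg.natDegree_mul (monic_X_pow K), natDegree_X_pow]
    have hX : (Polynomial.X ^ n : F[X]).Monic := monic_X_pow n
    set p := g * Polynomial.X ^ K /ₘ Polynomial.X ^ n with hp
    have hpd : p.natDegree = K := by
      rw [hp, natDegree_divByMonic _ hX, hGd, natDegree_X_pow, Nat.add_sub_cancel_left]
    have hpm : p.Monic := by
      rw [Monic, hp, leadingCoeff_divByMonic_of_monic hX, hG.leadingCoeff]
      rw [degree_eq_natDegree hG.ne_zero, hGd, degree_X_pow]
      exact_mod_cast Nat.le_add_right _ _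
    have : p ∈ monF F K := mem_monF.2 ⟨hpm, hpd⟩
    obtain ⟨y, -, hy⟩ := mem_map.1 this
    refine ⟨y, ?_⟩
    have hy' : Polynomial.X ^ K + y.1 = p := hy
    have h1 : cls (g * Polynomial.X ^ K) = cls (Polynomial.X ^ n * p) := by
      rw [h.iff_degree hG (hX.mul hpm) hGd (by rw [hX.natDegree_mul hpm, natDegree_X_pow, hpd]),
        hp, ← modByMonic_eq_sub_mul_div]
      exact (degree_modByMonic_lt _ hX).trans_eq (degree_X_pow n)
    rw [h.mul _ _ hg (monic_X_pow K), h.mul _ _ hX hpm, h.X_pow, h.X_pow, add_zero,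
      zero_add] at h1
    simp only [hy', h1]

end Cls

end Pool.Agent.MP_c853c5_nt.SVar
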