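import Mathlib
import Pool.Agent.Mg.F43e117.G31b336

/- Cancellation along a line, twisted by an additive character. -/

set_option autoImplicit false

namespace Pool.Agent.MP_c853c5_nt

open Polynomial Finset Pool.Agent.MP_4fffd4_nt
open scoped BigOperators

theorem vdc_tw {V K ι H : Type*} [AddCommGroup V] [AddCommMonoid K] [DecidableEq ι] [Fintype V]
    [AddCommGroup H] [Fintype H] [Fintype ι] [Nonempty ι] (e : K → ℝ)
    (he : ∀ a b, e (a + b) = e a * e b) {χ : V → ℝ} (hχ : Sgn χ) (θ : ι → H →+ V) (φ : V → K) :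
    |𝔼 x, e (φ x) * χ x| ^ 2 ^ Fintype.card ι ≤
      𝔼 y : ι → H, |𝔼 x, e (cube univ (fun j => θ j (y j)) φ x)| := by
  have h1 := vdc (K := K × V) (fun p => e p.1 * χ p.2) (fun a b => by
    rw [Prod.fst_add, Prod.snd_add, he, hχ.add]; ring) θ (fun x => (φ x, x)) univ
  rw [card_univ] at h1
  refine h1.trans_eq (Finset.expect_congr rfl fun y _ => ?_)
  have h2 : ∀ (s : Finset ι) (h : ι → V) (x : V),
      cube s h (fun x => (φ x, x)) x = (cube s h φ x, cube s h id x) := by
    intro s h x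
    unfold cube
    exact Prod.ext (Prod.fst_sum ..) (Prod.snd_sum ..)
  have h3 : ∀ (s : Finset ι) (h : ι → V), ∃ c : V → V, (∀ x, cube s h id x = c x) ∧
      ∀ x y, χ (c (x + y)) = χ (c x) * χ y ∧ s = ∅ ∨ χ (c (x + y)) = χ (c x) := by
    intro s h
    refine ⟨_, fun _ => rfl, ?_⟩
    induction s using Finset.induction with
    | empty => exact fun x y => Or.inl ⟨by simp [cube_empty, hχ.add], rfl⟩
    | insert a s ha IH =>
      intro x y
      right
      rw [cube_insert ha, cube_insert ha, hχ.add, hχ.add, add_right_comm x y]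
      rcases IH x y with ⟨h1, hs⟩ | h1
      · subst hs
        simp only [cube_empty, id, hχ.add]
        linear_combination (χ x * χ x * χ (h a)) * hχ.mul_self y
      · rcases IH (x + h a) y with ⟨h2, hs⟩ | h2
        · subst hs
          simp only [cube_empty, id, hχ.add]
          linear_combination (χ x * χ x * χ (h a)) * hχ.mul_self y
        · rw [h1, h2]
  obtain ⟨c, hc, hc'⟩ := h3 univ fun j => θ j (y j)
  have h4 : ∀ x, χ (c x) = χ (c 0) := fun x => by
    rcases hc' 0 x with ⟨-, h⟩ | h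
    · exact absurd h univ_nonempty.ne_empty
    · rwa [zero_add] at h
  simp only [h2, hc, h4]
  rw [← Finset.expect_mul, abs_mul, hχ.abs_eq, mul_one]

variable {F : Type*} [Field F] [Fintype F] [CharP F 2]

section

variable {K : Type*} [Field K] [Algebra F K] [CharP K 2] [IsAlgClosed K]
  {e : K → ℝ} (he : IsChar F e)

include he in
theorem phase_tw {I J : Type*} [Fintype I] [Fintype J] (α σ w v : I → F[X])
    (hv : ∀ i, v i ≠ 0) {P : F[X]} (hP : P.Monic) (hPi : Irreducible P) {i₀ : I}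
    (hi₀ : P ∣ v i₀) (hw : ¬ P ∣ derivative (w i₀)) (hα : ∀ i, ¬ P ∣ α i)
    (hασ : ∀ i, i ≠ i₀ → P ∣ v i → ¬ P ∣ α i * σ i₀ - α i₀ * σ i) (Q : J → F[X])
    (hQ : ∀ j, ¬ P ∣ Q j) {ρ n : ℕ} (hQn : ∀ j, (Q j).natDegree + ρ ≤ n)
    (hρ : P.natDegree ≤ ρ) (hn : P.natDegree + ρ ≤ n)
    (hcov : ∀ i, ∀ t : K, aeval t (v i) = 0 → aeval t P ≠ 0 → ∃ j, aeval t (Q j) = 0)
    {η : ℝ} (hη : 0 ≤ η) (hη' : 4 / (Fintype.card F : ℝ) ^ P.natDegree ≤ η ^ 2) [Nonempty J]
    {χ : degreeLT F n → ℝ} (hχ : Sgn χ) :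
    |𝔼 x : degreeLT F n, e (∑ i, ∑ z ∈ rts K (v i), ph (α i * x.1 + σ i) (w i) z) * χ x| ^
        2 ^ (Fintype.card J * 3) ≤
      4 * (2 ^ (Fintype.card J * 3) * Fintype.card I) / (Fintype.card F : ℝ) ^ P.natDegree + η := by
  classical
  have : Fact (Irreducible P) := ⟨hPi⟩
  have : FiniteDimensional F (AdjoinRoot P) := (AdjoinRoot.powerBasis hP.ne_zero).finite
  have : Finite (AdjoinRoot P) := Module.finite_of_finite F
  let : Fintype (AdjoinRoot P) := Fintype.ofFinite _
  have : CharP (AdjoinRoot P) 2 :=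
    charP_of_injective_algebraMap (algebraMap F (AdjoinRoot P)).injective 2
  have hcard : (Fintype.card F : ℝ) ^ P.natDegree ≤ Fintype.card (AdjoinRoot P) := by
    rw [Module.card_eq_pow_finrank (K := F) (V := AdjoinRoot P),
      (AdjoinRoot.powerBasis hP.ne_zero).finrank,
      AdjoinRoot.powerBasis_dim]
    exact_mod_cast le_rfl
  have hq := card_pos' (F := F)
  set τ := AdjoinRoot.root P with hτ
  have hev : ∀ g : F[X], aeval τ g = 0 ↔ P ∣ g := fun g => by
    rw [hτ, AdjoinRoot.aeval_eq, AdjoinRoot.mk_eq_zero]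
  set θ : J × Fin 3 → degreeLT F ρ →+ degreeLT F n := fun j => mulLT (Q j.1) (hQn j.1) with hθ
  set T : Finset I := univ.filter fun i => P ∣ v i with hT
  set ψ : AdjoinRoot P → ℝ := fun z => e (algebraMap F K (Algebra.trace F (AdjoinRoot P) z))
    with hψ
  have h1 := vdc_tw e he.add hχ θ
    (fun x : degreeLT F n => ∑ i, ∑ z ∈ rts K (v i), ph (α i * x.1 + σ i) (w i) z)
  rw [Fintype.card_prod, Fintype.card_fin] at h1
  have hα₀ : aeval τ (α i₀) ≠ 0 := fun h => hα i₀ ((hev _).1 h)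
  have h2 := local_bound (ψ := ψ) (fun a b => by simp only [hψ, map_add, he.add])
    (fun a => he.abs_le _)
    (fun a => by
      simp only [hψ]
      rw [← he.sq_algebraMap (Algebra.trace F _ a), map_pow (algebraMap F K),
        trace_eq_sum_embeddings K, trace_eq_sum_embeddings K, CharTwo.sum_sq]
      simp only [map_pow])
    (by
      obtain ⟨ν, hν⟩ := he.exists_neg
      obtain ⟨z, rfl⟩ := Algebra.trace_surjective F (AdjoinRoot P) ν
      exact ⟨z, hν⟩)
    (evLT n τ) (dvLT n τ)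
    (fun z => by
      obtain ⟨y, hy⟩ := exists_rep hP (ρ := n) (by omega) one_ne_zero z
      exact ⟨y, by rw [evLT_apply, ← hy, one_mul]⟩)
    θ (fun j z => by
      obtain ⟨y, hy⟩ := exists_rep hP hρ (c := aeval τ (Q j.1)) (fun h => hQ _ ((hev _).1 h)) z
      exact ⟨y, by rw [AddMonoidHom.comp_apply, evLT_apply, hθ, mulLT_apply, map_mul, hy]⟩)
    (mulLT P hn) (fun r => by rw [evLT_apply, mulLT_apply, hev]; exact dvd_mul_right _ _)
    (fun z => by
      obtain ⟨y, hy⟩ := exists_rep hP hρ (c := aeval τ (derivative P)) (fun h => hPi.not_isUnit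
        (IsCoprime.isUnit_of_dvd (PerfectField.separable_of_irreducible hPi) ((hev _).1 h))) z
      refine ⟨y, ?_⟩
      rw [AddMonoidHom.comp_apply, dvLT_apply, mulLT_apply, derivative_mul, map_add, map_mul,
        map_mul, (hev P).2 dvd_rfl, zero_mul, add_zero, hy])
    T (fun i z => (aeval τ (derivative (α i)) * z + aeval τ (derivative (σ i))) ^ 2 +
      τ * aeval τ (derivative (w i)) ^ 2) (fun i => aeval τ (α i))
    (fun i => aeval τ (derivative (w i)) ^ 4) (fun i => aeval τ (σ i))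
    (fun i _ h => hα i ((hev _).1 h)) (i₀ := i₀) (by simpa [hT] using hi₀)
    (pow_ne_zero _ fun h => hw ((hev _).1 h)) (z₀ := -aeval τ (σ i₀) / aeval τ (α i₀))
    (by field_simp; ring)
    (fun i hi hne h => hασ i hne (by simpa [hT] using hi) (by
      rw [← hev, map_sub, map_mul, map_mul]
      field_simp at h
      linear_combination -h))
    hη (le_trans (by gcongr) hη')
  refine h1.trans (le_trans (le_of_eq ?_) (h2.trans ?_))
  · refine Finset.expect_congr rfl fun y _ => ?_
    congr 1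
    refine Finset.expect_congr rfl fun x _ => ?_
    simp only [hψ]
    congr 1
    have e1 : ∀ (s : Finset (J × Fin 3)) (φ : I → K → degreeLT F n → K),
        cube s (fun j => θ j (y j)) (fun x => ∑ i, ∑ z ∈ rts K (v i), φ i z x) x =
        ∑ i, ∑ z ∈ rts K (v i), cube s (fun j => θ j (y j)) (φ i z) x := by
      intro s φ
      unfold cube
      rw [Finset.sum_comm]
      exact Finset.sum_congr rfl fun i _ => Finset.sum_comm
    rw [e1 univ fun i z x => ph (α i * x.1 + σ i) (w i) z]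
    have e2 : ∀ i, ∑ z ∈ rts K (v i), cube univ (fun j => θ j (y j))
        (fun x : degreeLT F n => ph (α i * x.1 + σ i) (w i) z) x =
        if P ∣ v i then ∑ z ∈ rts K P, cube univ (fun j => θ j (y j))
          (fun x : degreeLT F n => ph (α i * x.1 + σ i) (w i) z) x else 0 := by
      intro i
      have kill : ∀ z ∈ rts K (v i), aeval z P ≠ 0 → cube univ (fun j => θ j (y j))
          (fun x : degreeLT F n => ph (α i * x.1 + σ i) (w i) z) x = 0 := by
        intro z hz hzP
        obtain ⟨j, hj⟩ := hcov i z ((mem_rts (hv i)).1 hz) hzP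
        refine cube_eq_zero (subset_univ {(j, 0), (j, 1), (j, 2)}) _ _ (fun x => ?_) x
        have hz0 : ∀ l, evLT n z (θ (j, l) (y (j, l))) = 0 := fun l => by
          rw [evLT_apply, hθ, mulLT_apply, map_mul, hj, zero_mul]
        simp only [ph_eq]
        exact cube_three (evLT n z) (dvLT n z) (fun j => θ j (y j)) (i := (j, 0)) (j := (j, 1))
          (l := (j, 2)) (by simp) (by simp) (by simp) (hz0 0) (hz0 1)
          (hz0 2) (fun a => (aeval z (derivative (α i)) * a + aeval z (derivative (σ i))) ^ 2 +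
            z * aeval z (derivative (w i)) ^ 2)
          (fun a => aeval z (derivative (w i)) ^ 4 * (aeval z (α i) * a + aeval z (σ i)) ^ 2) _ x
      split_ifs with h
      · symm
        refine Finset.sum_subset (fun z hz => ?_) fun z hz hz' =>
          kill z hz fun h0 => hz' ((mem_rts hP.ne_zero).2 h0)
        obtain ⟨c, hc⟩ := h
        rw [mem_rts (hv i), hc, map_mul, (mem_rts hP.ne_zero).1 hz, zero_mul]
      · exact Finset.sum_eq_zero fun z hz => kill z hz fun h0 =>
          aeval_ne_zero_of_not_dvd hPi h0 h ((mem_rts (hv i)).1 hz)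
    simp only [e2]
    rw [← Finset.sum_filter, ← hT]
    unfold cube
    simp only [map_sum]
    rw [Finset.sum_comm (s := powerset univ)]
    refine Finset.sum_congr rfl fun i _ => ?_
    rw [Finset.sum_comm]
    refine Finset.sum_congr rfl fun ω _ => ?_
    rw [sum_rts_eq_trace, ph_eq]
    rfl
  · rw [Fintype.card_prod, Fintype.card_fin]
    have : (T.card : ℝ) ≤ Fintype.card I := by exact_mod_cast card_le_univ T
    gcongr

end

theorem key_tw {J : Type*} [Fintype J] [Nonempty J] {α σ u v : F[X]} (hu : u.Monic)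
    (hv : v.Monic) (hsep : v.Separable) (huv : IsCoprime u v)
    (huα : u ^ 2 ∣ α) {P : F[X]} (hP : P.Monic) (hPi : Irreducible P)
    (hi₀ : P ∣ v) (hα : ¬ P ∣ α) (Q : J → F[X])
    (hQ : ∀ j, ¬ P ∣ Q j) {ρ n : ℕ} (hQn : ∀ j, (Q j).natDegree + ρ ≤ n)
    (hρ : P.natDegree ≤ ρ) (hn : P.natDegree + ρ ≤ n)
    (hcov : ∀ R, Irreducible R → R ∣ v → R ∣ P ∨ ∃ j, R ∣ Q j)
    (hd : ∀ x : degreeLT F n, (α * x.1 + σ).natDegree ≤ (u * v).natDegree)
    {η B : ℝ} (hη : 0 ≤ η) (hη' : 4 / (Fintype.card F : ℝ) ^ P.natDegree ≤ η ^ 2) (hB : 0 ≤ B)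
    (hB' : 4 * 2 ^ (Fintype.card J * 3) / (Fintype.card F : ℝ) ^ P.natDegree + η ≤
      B ^ 2 ^ (Fintype.card J * 3)) {χ : degreeLT F n → ℝ} (hχ : Sgn χ) :
    |𝔼 x : degreeLT F n, (liou ((α * x.1 + σ) ^ 2 + X * (u * v) ^ 2) : ℝ) * χ x| ≤
      2 * 𝔼 x : degreeLT F n, ind (¬ IsCoprime (α * x.1 + σ) v) + B := by
  obtain ⟨e, he⟩ := exists_isChar F (AlgebraicClosure F)
  obtain ⟨δ, α', σ', u', h₁, h₂, h₃, h₄⟩ := cmp_three he (σ := σ) hu hv hsep huv huα
  have h5 := phase_tw (I := Unit) he (fun _ => α') (fun _ => σ') (fun _ => u' * v) (fun _ => v)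
    (fun _ => hv.ne_zero) hP hPi (i₀ := ()) hi₀
    (fun h => by
      rw [derivative_mul, dvd_add_right (hi₀.mul_left _)] at h
      rcases hPi.prime.dvd_or_dvd h with h | h
      · exact hPi.not_isUnit (huv.isUnit_of_dvd' (h₃ ▸ h.mul_left _) hi₀)
      · exact hPi.not_isUnit (IsCoprime.isUnit_of_dvd' hsep hi₀ h))
    (fun _ h => hα (h₁ ▸ h.mul_left _)) (fun _ hi => absurd rfl hi)
    Q hQ hQn hρ hn
    (fun _ t ht htP => by
      have hint : IsIntegral F t := ⟨v, hv, ht⟩
      rcases hcov _ (minpoly.irreducible hint) (minpoly.dvd F t ht) with h | ⟨j, h⟩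
      · exact absurd (minpoly.dvd_iff.1 h) htP
      · exact ⟨j, minpoly.dvd_iff.1 h⟩)
    hη hη' hχ
  simp only [Fintype.sum_unique, Fintype.card_unique, Nat.cast_one, mul_one] at h5
  refine (abs_expect_le_of_good _ (fun x : degreeLT F n => e (∑ z ∈ rts _ v,
    ph (α' * x.1 + σ') (u' * v) z) * χ x) _ (fun x => ?_) (fun x => ?_)
    (fun x y hx hy => ?_)).trans (add_le_add le_rfl ?_)
  · rcases liou_cases ((α * x.1 + σ) ^ 2 + X * (u * v) ^ 2) with h | h <;>
      rcases hχ.sign x with h' | h' <;> simp [h, h']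
  · rcases he.sign (∑ z ∈ rts _ v, ph (α' * x.1 + σ') (u' * v) z) with h | h <;>
      rcases hχ.sign x with h' | h' <;> simp [h, h']
  · push Not at hx hy
    linear_combination (χ x * χ y) * h₄ x y (hd x) (hd y) hx hy
  · exact (pow_le_pow_iff_left₀ (abs_nonneg _) hB (by positivity)).1 (h5.trans hB')

end Pool.Agent.MP_c853c5_nt
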