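import Mathlib
import Pool.Agent.Mg.F43e117.G191fe6
import Pool.Agent.Mg.F43e117.G0bbc6d

section

set_option autoImplicit false

namespace Pool.Agent.MP_c853c5_nt

open Polynomial Finset Pool.Agent.MP_4fffd4_nt
open scoped BigOperators

variable {F : Type*} [Field F] [Fintype F]

namespace SDiv

open UniqueFactorizationMonoid

theorem eventually_pow_le (L c : ℕ) (hL : 0 < L) :
    ∃ k₀ : ℕ, ∀ k, k₀ ≤ k → (L * (k + 1)) ^ c ≤ 2 ^ k := by
  have h := isLittleO_pow_const_const_pow_of_one_lt (R := ℝ) c (r := 2) one_lt_two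
  have hL' : (0 : ℝ) < L := by exact_mod_cast hL
  have hε : (0 : ℝ) < 1 / (2 * (L : ℝ) ^ c) := by positivity
  obtain ⟨k₀, hk⟩ := Filter.eventually_atTop.1 (h.bound hε)
  refine ⟨k₀, fun k hk' => ?_⟩
  have h1 := hk (k + 1) (by omega)
  rw [Real.norm_of_nonneg (by positivity), Real.norm_of_nonneg (by positivity)] at h1
  have h2 : ((L : ℝ) * (k + 1)) ^ c ≤ 2 ^ k := by
    rw [mul_pow]
    push_cast at h1
    calc (L : ℝ) ^ c * (k + 1) ^ c ≤ (L : ℝ) ^ c * (1 / (2 * (L : ℝ) ^ c) * 2 ^ (k + 1)) := by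
          gcongr
      _ = 2 ^ k := by field_simp; ring
  exact_mod_cast h2

theorem card_divs_le {g : F[X]} (hg : g ≠ 0) (L : ℕ) (hL : 0 < L) {n : ℕ} (hn : g.natDegree ≤ n) :
    (divs g).card ≤ (n + 1) ^ (Fintype.card F ^ L) * 2 ^ (n / L) := by
  classical
  set s := normalizedFactors g with hs
  have hmem : ∀ P ∈ s, Irreducible P ∧ P.Monic ∧ P ∣ g := fun P hP =>
    (Polynomial.mem_normalizedFactors_iff hg).1 hP
  have h1 : (divs g).card ≤ (Finset.Iic s).card := by
    refine Finset.card_le_card_of_injOn normalizedFactors (fun d hd => ?_) fun d hd e he hde => ?_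
    · obtain ⟨hm, hdv⟩ := (mem_divs hg).1 (Finset.mem_coe.1 hd)
      exact Finset.mem_coe.2 (Finset.mem_Iic.2
        ((dvd_iff_normalizedFactors_le_normalizedFactors hm.ne_zero hg).1 hdv))
    · obtain ⟨hm, -⟩ := (mem_divs hg).1 (Finset.mem_coe.1 hd)
      obtain ⟨hm', -⟩ := (mem_divs hg).1 (Finset.mem_coe.1 he)
      have e1 := prod_normalizedFactors_eq hm.ne_zero
      have e2 := prod_normalizedFactors_eq hm'.ne_zero
      rw [hm.normalize_eq_self] at e1
      rw [hm'.normalize_eq_self] at e2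
      rw [← e1, ← e2, hde]
  have hdeg : ∑ P ∈ s.toFinset, s.count P * P.natDegree ≤ n := by
    have e1 := prod_normalizedFactors_eq hg
    have e2 := natDegree_multiset_prod_of_monic s fun P hP => (hmem P hP).2.1
    rw [Finset.sum_multiset_map_count, e1,
      natDegree_eq_of_degree_eq (degree_normalize (p := g))] at e2
    simpa [← e2] using hn.trans' (by rw [e2]; simp)
  rw [Multiset.card_Iic,
    ← Finset.prod_filter_mul_prod_filter_not s.toFinset (fun P => P.natDegree < L)] at h1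
  refine h1.trans (Nat.mul_le_mul ?_ ?_)
  · refine (Finset.prod_le_pow_card _ _ (n + 1) fun P hP => ?_).trans
      (Nat.pow_le_pow_right (Nat.succ_pos _) ?_)
    · have hP' := (Finset.mem_filter.1 hP).1
      have h2 := Finset.single_le_sum (f := fun P => s.count P * P.natDegree)
        (fun _ _ => Nat.zero_le _) hP'
      have h3 := (hmem P (Multiset.mem_toFinset.1 hP')).1.natDegree_pos
      have h4 : s.count P ≤ s.count P * P.natDegree := Nat.le_mul_of_pos_right _ h3
      omega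
    · rw [← card_ltF]
      refine Finset.card_le_card fun P hP => ?_
      obtain ⟨hP1, hP2⟩ := Finset.mem_filter.1 hP
      rw [mem_ltF]
      exact (natDegree_lt_iff_degree_lt
        (hmem P (Multiset.mem_toFinset.1 hP1)).1.ne_zero).1 hP2
  · calc ∏ P ∈ s.toFinset with ¬ P.natDegree < L, (s.count P + 1)
        ≤ ∏ P ∈ s.toFinset with ¬ P.natDegree < L, 2 ^ s.count P :=
          Finset.prod_le_prod' fun P _ => Nat.lt_two_pow_self
      _ = 2 ^ ∑ P ∈ s.toFinset with ¬ P.natDegree < L, s.count P := Finset.prod_pow_eq_pow_sum _ _ _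
      _ ≤ 2 ^ (n / L) := by
          refine Nat.pow_le_pow_right two_pos ((Nat.le_div_iff_mul_le hL).2 ?_)
          rw [Finset.sum_mul]
          refine le_trans ?_ hdeg
          refine (Finset.sum_le_sum fun P hP => ?_).trans
            (Finset.sum_le_sum_of_subset (Finset.filter_subset (fun P : F[X] => ¬ P.natDegree < L) _))
          exact Nat.mul_le_mul_left _ (not_lt.1 (Finset.mem_filter.1 hP).2)

omit [Fintype F] in
theorem good_inj {d u : ℕ} {P P' : Fin (u + 1) → F[X]}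
    (hP : ∀ i, (P i).Monic ∧ (P i).natDegree = d + i ∧ Irreducible (P i))
    (hP' : ∀ i, (P' i).Monic ∧ (P' i).natDegree = d + i ∧ Irreducible (P' i))
    {s s' : F[X]} (hs' : s' ≠ 0) (hd : s'.natDegree < d)
    (h : (∏ i, P i) * s = (∏ i, P' i) * s') : P = P' := by
  funext i
  obtain ⟨hm, hdeg, hi⟩ := hP i
  have h1 : P i ∣ (∏ i, P' i) * s' :=
    h ▸ (Finset.dvd_prod_of_mem P (Finset.mem_univ i)).mul_right s
  rcases hi.prime.dvd_or_dvd h1 with h2 | h2
  · obtain ⟨j, -, hj⟩ := (Prime.dvd_finsetProd_iff hi.prime _).1 h2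
    obtain ⟨hm', hdeg', hi'⟩ := hP' j
    have e := eq_of_monic_of_associated hm hm' (hi.associated_of_dvd hi' hj)
    have hij : i = j := by
      rw [e, hdeg'] at hdeg
      exact Fin.ext (by omega)
    rw [e, hij]
  · have := natDegree_le_of_dvd h2 hs'
    omega

end SDiv

open Pool.Agent.MP_c853c5_nt.SDiv

theorem divs_bound (M : ℕ) (hM : 0 < M) : ∃ n₀ : ℕ, ∀ n, n₀ ≤ n → ∀ g : F[X], g ≠ 0 →
    g.natDegree ≤ n → ((divs g).card : ℝ) ≤ (Fintype.card F : ℝ) ^ (n / M) := by
  have hL : 0 < 2 * M := by omega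
  obtain ⟨k₀, hk⟩ := eventually_pow_le (2 * M) (Fintype.card F ^ (2 * M)) hL
  refine ⟨k₀ * (2 * M), fun n hn g hg hdeg => ?_⟩
  have h1 := card_divs_le hg (2 * M) hL hdeg
  have h2 := hk (n / (2 * M)) ((Nat.le_div_iff_mul_le hL).2 hn)
  have h3 : n + 1 ≤ 2 * M * (n / (2 * M) + 1) := Nat.lt_mul_div_succ n hL
  have h4 : n / (2 * M) + n / (2 * M) ≤ n / M := by
    rw [Nat.le_div_iff_mul_le hM]
    have := Nat.div_mul_le_self n (2 * M)
    nlinarith
  have h5 : (divs g).card ≤ Fintype.card F ^ (n / M) :=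
    calc (divs g).card ≤ 2 ^ (n / (2 * M)) * 2 ^ (n / (2 * M)) :=
          h1.trans (Nat.mul_le_mul_right _ ((Nat.pow_le_pow_left h3 _).trans h2))
      _ ≤ 2 ^ (n / M) := by rw [← pow_add]; exact Nat.pow_le_pow_right two_pos h4
      _ ≤ Fintype.card F ^ (n / M) := Nat.pow_le_pow_left Fintype.one_lt_card _
  exact_mod_cast h5

theorem goodV_spec {d u : ℕ} {v : F[X]} (hv : v ∈ goodV F d u) :
    v.Monic ∧ v.natDegree = ∑ i : Fin (u + 1), (d + i) ∧
      ∀ Δ : F[X], Δ ≠ 0 → Δ.natDegree < d → IsCoprime v Δ := by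
  obtain ⟨P, hP, rfl⟩ := mem_goodV.1 hv
  refine ⟨monic_prod_of_monic _ _ fun i _ => (hP i).1, ?_, fun Δ hΔ hd => ?_⟩
  · rw [natDegree_prod_of_monic _ _ fun i _ => (hP i).1]
    exact Finset.sum_congr rfl fun i _ => (hP i).2.1
  · refine IsCoprime.prod_left fun i _ => ((hP i).2.2.coprime_iff_not_dvd).2 fun h => ?_
    have h1 := natDegree_le_of_dvd h hΔ
    have h2 := (hP i).2.1
    omega

theorem card_goodV {d u : ℕ} (hd : 4 ≤ d) :
    (Fintype.card F : ℝ) ^ (∑ i : Fin (u + 1), (d + i)) / (2 * (d + u)) ^ (u + 1) ≤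
      (goodV F d u).card := by
  classical
  have h1 : (goodV F d u).card = ∏ i : Fin (u + 1), (irrF F (d + i)).card := by
    rw [goodV, Finset.card_image_of_injOn, Fintype.card_piFinset]
    intro P hP P' hP' h
    simp only [Finset.mem_coe, Fintype.mem_piFinset, mem_irrF] at hP hP'
    exact good_inj hP hP' (s := 1) one_ne_zero (by simp; omega) (by simpa using h)
  rw [h1, ← Finset.prod_pow_eq_pow_sum]
  push_cast
  have h2 : (2 * ((d : ℝ) + u)) ^ (u + 1) = ∏ _i : Fin (u + 1), (2 * ((d : ℝ) + u)) := by simp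
  rw [h2, ← Finset.prod_div_distrib]
  have hd' : (0 : ℝ) < d := by exact_mod_cast (by omega : 0 < d)
  refine Finset.prod_le_prod (fun i _ => by positivity) fun i _ => ?_
  refine le_trans ?_ (card_irrF (F := F) (n := d + i) (by omega))
  have h3 : ((i : ℕ) : ℝ) ≤ u := by exact_mod_cast Nat.lt_succ_iff.1 i.2
  push_cast
  gcongr

theorem gw_le_one {d u r : ℕ} (hr : r < d) (W : F[X]) : gw (goodV F d u) r W ≤ 1 := by
  unfold gw
  by_cases h : ∃ v ∈ goodV F d u, ∃ s ∈ monF F r, v * s = W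
  · obtain ⟨v, hv, s, hs, e⟩ := h
    rw [Finset.sum_eq_single_of_mem v hv, Finset.sum_eq_single_of_mem s hs]
    · exact ind_le_one _
    · intro s' _ hne
      refine ind_neg fun e' => hne ?_
      exact mul_left_cancel₀ (goodV_spec hv).1.ne_zero (e'.trans e.symm)
    · intro v' hv' hne
      refine Finset.sum_eq_zero fun s' _ => ind_neg fun e' => hne ?_
      obtain ⟨P, hP, rfl⟩ := mem_goodV.1 hv
      obtain ⟨P', hP', rfl⟩ := mem_goodV.1 hv'
      obtain ⟨hm, hdeg⟩ := mem_monF.1 hs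
      rw [good_inj hP' hP hm.ne_zero (by omega) (e'.trans e.symm)]
  · push Not at h
    rw [Finset.sum_eq_zero fun v hv => Finset.sum_eq_zero fun s hs => ind_neg (h v hv s hs)]
    exact zero_le_one

namespace SDiv

theorem sum_sq_le [CharP F 2] (h : ℕ) (f : F[X]) :
    ∑ y : degreeLT F h, ind (∃ s : F[X], f + y.1 = s ^ 2) ≤
      (Fintype.card F : ℝ) ^ ((h + 1) / 2) := by
  by_cases h0 : ∃ y : degreeLT F h, ∃ s : F[X], f + y.1 = s ^ 2
  · obtain ⟨y₀, s₀, e₀⟩ := h0
    have hc : ∀ y : degreeLT F h, ∃ σ : F[X], (∃ s : F[X], f + y.1 = s ^ 2) → f + y.1 = σ ^ 2 := by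
      intro y
      by_cases hy : ∃ s : F[X], f + y.1 = s ^ 2
      · exact ⟨hy.choose, fun _ => hy.choose_spec⟩
      · exact ⟨0, fun h' => absurd h' hy⟩
    choose σ hσ using hc
    have h1 := sum_ind_le (P := fun y : degreeLT F h => ∃ s : F[X], f + y.1 = s ^ 2)
      (ltF F ((h + 1) / 2)) (fun y => σ y + s₀) (fun x y hx hy e => ?_) fun y hy => ?_
    · rw [card_ltF] at h1
      exact_mod_cast h1
    · have e1 : σ x = σ y := add_right_cancel e
      have e2 := hσ x hx
      rw [e1, ← hσ y hy] at e2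
      exact Subtype.ext (add_left_cancel e2)
    · rw [mem_ltF]
      by_cases hz : σ y + s₀ = 0
      · rw [hz, degree_zero]
        exact WithBot.bot_lt_coe _
      have e1 : (σ y + s₀) ^ 2 = (y + y₀).1 := by
        rw [CharTwo.add_sq, ← hσ y hy, ← e₀, add_add_add_comm, CharTwo.add_self_eq_zero, zero_add]
        rfl
      have e2 := mem_degreeLT.1 (y + y₀).2
      rw [← e1, ← natDegree_lt_iff_degree_lt (pow_ne_zero 2 hz), natDegree_pow] at e2
      exact (natDegree_lt_iff_degree_lt hz).1 (by omega)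
  · push Not at h0
    rw [Finset.sum_eq_zero fun y _ => ind_neg fun ⟨s, hs⟩ => h0 y s hs]
    positivity

theorem sum_cube_le {n h : ℕ} (f : F[X]) (hn : ∀ y : degreeLT F h, (f + y.1).natDegree = n) :
    ∑ y : degreeLT F h,
      ind (∃ P : F[X], P.Monic ∧ Irreducible P ∧ ∃ a, 3 ≤ a ∧ f + y.1 = P ^ a) ≤
      (n + 1) * (Fintype.card F : ℝ) ^ (n / 3) := by
  classical
  have hc : ∀ y : degreeLT F h, ∃ π : F[X],
      (∃ P : F[X], P.Monic ∧ Irreducible P ∧ ∃ a, 3 ≤ a ∧ f + y.1 = P ^ a) →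
      π.Monic ∧ Irreducible π ∧ ∃ a, 3 ≤ a ∧ f + y.1 = π ^ a := by
    intro y
    by_cases hy : ∃ P : F[X], P.Monic ∧ Irreducible P ∧ ∃ a, 3 ≤ a ∧ f + y.1 = P ^ a
    · exact ⟨hy.choose, fun _ => hy.choose_spec⟩
    · exact ⟨0, fun h' => absurd h' hy⟩
  choose π hπ using hc
  have h1 := sum_ind_le (P := fun y : degreeLT F h =>
      ∃ P : F[X], P.Monic ∧ Irreducible P ∧ ∃ a, 3 ≤ a ∧ f + y.1 = P ^ a)
    ((range (n / 3 + 1)).biUnion (monF F)) π (fun x y hx hy e => ?_) fun y hy => ?_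
  · refine h1.trans ?_
    have h2 : ((range (n / 3 + 1)).biUnion (monF F)).card ≤ (n + 1) * Fintype.card F ^ (n / 3) := by
      refine (Finset.card_biUnion_le_card_mul _ _ (Fintype.card F ^ (n / 3)) fun i hi => ?_).trans
        (Nat.mul_le_mul_right _ ?_)
      · rw [card_monF]
        exact Nat.pow_le_pow_right Fintype.card_pos (Nat.lt_succ_iff.1 (Finset.mem_range.1 hi))
      · rw [Finset.card_range]
        omega
    exact_mod_cast h2
  · obtain ⟨-, hi, a, -, ea⟩ := hπ x hx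
    obtain ⟨-, -, b, -, eb⟩ := hπ y hy
    have d1 := hn x
    have d2 := hn y
    rw [ea, natDegree_pow] at d1
    rw [eb, natDegree_pow, ← e] at d2
    have hab : a = b := Nat.eq_of_mul_eq_mul_right hi.natDegree_pos (d1.trans d2.symm)
    rw [e, hab, ← eb] at ea
    exact Subtype.ext (add_left_cancel ea)
  · obtain ⟨hm, -, a, ha, ea⟩ := hπ y hy
    have d1 := hn y
    rw [ea, natDegree_pow] at d1
    refine Finset.mem_biUnion.2 ⟨(π y).natDegree, Finset.mem_range.2 (Nat.lt_succ_iff.2 ?_),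
      mem_monF.2 ⟨hm, rfl⟩⟩
    rw [Nat.le_div_iff_mul_le (by norm_num)]
    nlinarith

theorem pointwise {g : F[X]} (hg : g.Monic) :
    |(g.natDegree : ℝ) * ind (Irreducible g) - vm g| ≤
      g.natDegree * (ind (∃ s : F[X], g = s ^ 2) +
        ind (∃ P : F[X], P.Monic ∧ Irreducible P ∧ ∃ a, 3 ≤ a ∧ g = P ^ a)) := by
  have hnn := mul_nonneg (Nat.cast_nonneg (α := ℝ) g.natDegree)
    (add_nonneg (ind_nonneg (∃ s : F[X], g = s ^ 2))
      (ind_nonneg (∃ P : F[X], P.Monic ∧ Irreducible P ∧ ∃ a, 3 ≤ a ∧ g = P ^ a)))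
  by_cases hi : Irreducible g
  · have := vm_pow hg hi one_pos
    rw [pow_one] at this
    rwa [ind_pos hi, this, mul_one, sub_self, abs_zero]
  rw [ind_neg hi, mul_zero, zero_sub, abs_neg, abs_of_nonneg (vm_nonneg g)]
  by_cases hP : ∃ P : F[X], P.Monic ∧ Irreducible P ∧ ∃ a, 0 < a ∧ g = P ^ a
  · obtain ⟨P, hm, hPi, a, ha, e⟩ := hP
    have h1 : (1 : ℝ) ≤ ind (∃ s : F[X], g = s ^ 2) +
        ind (∃ P : F[X], P.Monic ∧ Irreducible P ∧ ∃ a, 3 ≤ a ∧ g = P ^ a) := by
      rw [← ind_pos (P := True) trivial]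
      refine ind_le_add fun _ => ?_
      rcases (by omega : a = 1 ∨ a = 2 ∨ 3 ≤ a) with rfl | rfl | h3
      · exact absurd (by rwa [e, pow_one]) hi
      · exact Or.inl ⟨P, e⟩
      · exact Or.inr ⟨P, hm, hPi, a, h3, e⟩
    exact (vm_le g).trans (le_mul_of_one_le_right (Nat.cast_nonneg _) h1)
  · rwa [vm, dif_neg hP]

end SDiv

theorem prime_of_psi [CharP F 2] {n h : ℕ} {f : F[X]} (hf : f.Monic) (hn : f.natDegree = n)
    (hh : h ≤ n) :
    |(n : ℝ) * ∑ y : degreeLT F h, ind (Irreducible (f + y.1)) - ∑ y : degreeLT F h, vm (f + y.1)| ≤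
      n * ((Fintype.card F : ℝ) ^ ((h + 1) / 2) + (n + 1) * (Fintype.card F : ℝ) ^ (n / 3)) := by
  have hd : ∀ y : degreeLT F h, y.1.degree < f.degree := fun y => by
    rw [degree_eq_natDegree hf.ne_zero, hn]
    exact (mem_degreeLT.1 y.2).trans_le (by exact_mod_cast hh)
  have hm : ∀ y : degreeLT F h, (f + y.1).Monic := fun y => hf.add_of_left (hd y)
  have hdeg : ∀ y : degreeLT F h, (f + y.1).natDegree = n := fun y => by
    rw [natDegree_add_eq_left_of_degree_lt (hd y), hn]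
  rw [Finset.mul_sum, ← Finset.sum_sub_distrib]
  refine (Finset.abs_sum_le_sum_abs _ _).trans ?_
  refine (Finset.sum_le_sum fun y _ => (hdeg y) ▸ pointwise (hm y)).trans ?_
  rw [← Finset.mul_sum, Finset.sum_add_distrib]
  exact mul_le_mul_of_nonneg_left (add_le_add (sum_sq_le h f) (sum_cube_le f hdeg))
    (Nat.cast_nonneg _)

end Pool.Agent.MP_c853c5_nt

end

section

/- The Moebius function along lines `F + x ^ 2 * A`. -/

set_option autoImplicit false

namespace Pool.Agent.MP_c853c5_nt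

open Polynomial Finset Pool.Agent.MP_4fffd4_nt
open scoped BigOperators

variable {F : Type*} [Field F] [Fintype F]

namespace SLine

theorem expect_dvd (F₀ : F[X]) {δ : F[X]} (hδ : δ.Monic) {l : ℕ} (h : δ.natDegree ≤ l) :
    𝔼 g : degreeLT F l, ind (δ ∣ F₀ + g.1) ≤ 1 / (Fintype.card F : ℝ) ^ δ.natDegree := by
  have hq := card_pos' (F := F)
  have h1 := sum_dvd_lt (fun g : degreeLT F l => F₀ %ₘ δ + g.1)
    (fun a b e => Subtype.ext (add_left_cancel e)) (n := l) (fun g => (degree_add_le _ _).trans_lt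
      (max_lt ((degree_modByMonic_lt _ hδ).trans_le (degree_le_natDegree.trans
        (by exact_mod_cast h))) (mem_degreeLT.1 g.2))) hδ h
  rw [expect_LT, div_le_iff₀ (by positivity), one_div_mul_eq_div]
  refine le_trans (Finset.sum_le_sum fun g _ => ind_mono fun ⟨c, hc⟩ => ⟨c - F₀ /ₘ δ, ?_⟩) h1
  linear_combination hc + modByMonic_add_div F₀ δ

omit [Fintype F] in
theorem card_le_natDegree {A : F[X]} (hA : A ≠ 0) (S : Finset F[X])
    (hS : ∀ P ∈ S, P.Monic ∧ Irreducible P ∧ P ∣ A) : S.card ≤ A.natDegree := by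
  have h1 : ∏ P ∈ S, P ∣ A := by
    refine Finset.prod_dvd_of_coprime (fun P hP Q hQ hne => ?_) fun P hP => (hS P hP).2.2
    refine (hS P hP).2.1.coprime_iff_not_dvd.2 fun h => hne ?_
    exact eq_of_monic_of_associated (hS P hP).1 (hS Q hQ).1
      ((hS P hP).2.1.associated_of_dvd (hS Q hQ).2.1 h)
  refine le_trans ?_ (natDegree_le_of_dvd h1 hA)
  rw [natDegree_prod_of_monic _ _ fun P hP => (hS P hP).1, Finset.card_eq_sum_ones]
  exact Finset.sum_le_sum fun P hP => (hS P hP).2.1.natDegree_pos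

/-- A square of a prime of medium degree divides `g`. -/
def Bad (d u : ℕ) (g : F[X]) : Prop :=
  ∃ P : F[X], P.Monic ∧ Irreducible P ∧ d ≤ P.natDegree ∧ P.natDegree ≤ d + u ∧ P ^ 2 ∣ g

variable [CharP F 2]

theorem expect_bad {d u l : ℕ} {A B : F[X]} (F₀ : F[X]) (hA : A ≠ 0) (hB : od (A * B) = 1)
    (hl : 2 * (d + u) ≤ l) : 𝔼 g : degreeLT F l, ind (Bad d u ((F₀ + g.1) * A)) ≤
      (u + 1 + A.natDegree) / (Fintype.card F : ℝ) ^ d := by
  classical
  have hq := card_pos' (F := F)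
  have hq1 : (1 : ℝ) ≤ Fintype.card F := one_le_two.trans two_le_card
  set S := (divs A).filter fun P => Irreducible P ∧ d ≤ P.natDegree ∧ P.natDegree ≤ d + u with hS
  have hSc : (S.card : ℝ) ≤ A.natDegree := by
    exact_mod_cast card_le_natDegree hA S fun P hP => by
      rw [hS, mem_filter, mem_divs hA] at hP
      exact ⟨hP.1.1, hP.2.1, hP.1.2⟩
  calc _ ≤ 𝔼 g : degreeLT F l, (∑ j ∈ range (u + 1), ∑ P ∈ monF F (d + j), ind (P ^ 2 ∣ F₀ + g.1) +
        ∑ P ∈ S, ind (P ∣ F₀ + g.1)) := by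
        refine Finset.expect_le_expect fun g _ => ?_
        rw [Finset.sum_sigma']
        refine le_trans (ind_le_add (Q := ∃ p ∈ (range (u + 1)).sigma fun j => monF F (d + j),
          p.2 ^ 2 ∣ F₀ + g.1) (R := ∃ P ∈ S, P ∣ F₀ + g.1) ?_)
          (add_le_add (ind_le_sum id) (ind_le_sum id))
        rintro ⟨P, h1, h2, h3, h4, h5⟩
        by_cases hPA : P ∣ A
        · right
          refine ⟨P, by rw [hS, mem_filter, mem_divs hA]; exact ⟨⟨h1, hPA⟩, h2, h3, h4⟩, ?_⟩
          by_contra hPF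
          have := (h2.coprime_iff_not_dvd.2 hPF).pow_left (m := 2) |>.dvd_of_dvd_mul_left h5
          exact h2.not_isUnit (isUnit_of_dvd_one (hB ▸ dvd_od (this.mul_right B)))
        · left
          exact ⟨⟨P.natDegree - d, P⟩, by simp [mem_monF, h1]; omega,
            (h2.coprime_iff_not_dvd.2 hPA).pow_left (m := 2) |>.dvd_of_dvd_mul_right h5⟩
    _ ≤ ∑ _j ∈ range (u + 1), 1 / (Fintype.card F : ℝ) ^ d +
        ∑ _P ∈ S, 1 / (Fintype.card F : ℝ) ^ d := by
        rw [Finset.expect_add_distrib, Finset.expect_sum_comm, Finset.expect_sum_comm]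
        refine add_le_add (Finset.sum_le_sum fun j hj => ?_) (Finset.sum_le_sum fun P hP => ?_)
        · rw [Finset.expect_sum_comm]
          refine (Finset.sum_le_card_nsmul _ _ (1 / (Fintype.card F : ℝ) ^ (2 * (d + j)))
            fun P hP => ?_).trans ?_
          · obtain ⟨h1, h2⟩ := mem_monF.1 hP
            have := expect_dvd F₀ (h1.pow 2) (l := l) (by
              rw [h1.natDegree_pow, h2]; have := mem_range.1 hj; omega)
            rwa [h1.natDegree_pow, h2] at this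
          · rw [card_monF, nsmul_eq_mul, mul_one_div, div_le_div_iff₀ (by positivity)
              (by positivity), one_mul]
            push_cast
            rw [← pow_add]
            exact pow_le_pow_right₀ hq1 (by omega)
        · rw [hS, mem_filter, mem_divs hA] at hP
          refine (expect_dvd F₀ hP.1.1 (by omega)).trans ?_
          exact one_div_le_one_div_of_le (by positivity) (pow_le_pow_right₀ hq1 hP.2.2.1)
    _ ≤ _ := by
        rw [Finset.sum_const, Finset.sum_const, card_range, nsmul_eq_mul, nsmul_eq_mul, ← add_mul,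
          mul_one_div]
        push_cast
        gcongr

theorem local_line {d u r b i : ℕ} {A G v s : F[X]} (hu : 1 ≤ u) (hr : r < d) (hA : A.Monic)
    (hG : G.Monic) (hi : G.natDegree = i) (hv : v ∈ goodV F d u) (hs : s ∈ monF F r)
    (hN : i + A.natDegree = 2 * (v.natDegree + r) + 1) (hW : v * s = od (G * A))
    (hl : A.natDegree + 4 * r + 4 * (d + u) ≤ i) (hb : 2 * b * 8 ^ u + 3 * u + 4 ≤ d)
    {χ : degreeLT F (2 * (d + u)) → ℝ} (hχ : Sgn χ) :
    |𝔼 x : degreeLT F (2 * (d + u)), mu (G + (s ^ 2 * x.1) ^ 2 * A) * χ x| ≤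
      4 * 𝔼 x : degreeLT F (2 * (d + u)), ind (Bad d u ((G + (s ^ 2 * x.1) ^ 2 * A) * A)) +
        1 / (Fintype.card F : ℝ) ^ b := by
  have hq := card_pos' (F := F)
  have hq2 := two_le_card (F := F)
  have hq1 : (1 : ℝ) ≤ Fintype.card F := one_le_two.trans hq2
  obtain ⟨hvm, -, -⟩ := goodV_spec hv
  obtain ⟨P, hP, hPv⟩ := mem_goodV.1 hv
  obtain ⟨hs1, hs2⟩ := mem_monF.1 hs
  obtain ⟨σ, hσ⟩ := exists_od (G * A)
  rw [← hW] at hσ
  have e1 : ∀ x : F[X], (G + (s ^ 2 * x) ^ 2 * A) * A =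
      (s ^ 2 * A * x + σ) ^ 2 + X * (s * v) ^ 2 := fun x => by
    rw [add_mul, hσ, CharTwo.add_sq]; ring
  have hPd : ∀ j, P j ∣ v := fun j => hPv ▸ Finset.dvd_prod_of_mem _ (mem_univ j)
  have hbad : ∀ (x : F[X]) j, P j ∣ s ^ 2 * A * x + σ →
      Bad d u ((G + (s ^ 2 * x) ^ 2 * A) * A) := fun x j h =>
    ⟨P j, (hP j).1, (hP j).2.2, by rw [(hP j).2.1]; omega, by rw [(hP j).2.1]; omega, by
      rw [e1]
      exact dvd_add (pow_dvd_pow_of_dvd h 2)
        ((pow_dvd_pow_of_dvd ((hPd j).mul_left s) 2).mul_left _)⟩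
  have hle : ∀ x : degreeLT F (2 * (d + u)), |mu (G + (s ^ 2 * x.1) ^ 2 * A) * χ x| ≤ 1 :=
    fun x => by rw [abs_mul, hχ.abs_eq, mul_one]; exact abs_mu_le _
  by_cases h0 : P 0 ∣ A
  · have : ∀ x : degreeLT F (2 * (d + u)),
        ind (Bad d u ((G + (s ^ 2 * x.1) ^ 2 * A) * A)) = 1 := fun x => by
      refine ind_pos (hbad x.1 0 ((hP 0).2.2.prime.dvd_of_dvd_pow (n := 2) ?_))
      have h1 : P 0 ∣ (G + (s ^ 2 * x.1) ^ 2 * A) * A := h0.mul_left _
      rw [e1] at h1
      exact (dvd_add_left ((dvd_pow ((hPd 0).mul_left s) two_ne_zero).mul_left _)).1 h1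
    simp only [this, Fintype.expect_const]
    refine ((Finset.abs_expect_le _ _).trans (Finset.expect_le univ_nonempty
      fun x _ => hle x)).trans ?_
    have : 0 ≤ 1 / (Fintype.card F : ℝ) ^ b := by positivity
    linarith
  have hns : ∀ j, ¬ P j ∣ s := fun j h => by
    have := natDegree_le_of_dvd h hs1.ne_zero
    rw [(hP j).2.1] at this
    omega
  have hne : ∀ j j', P j ∣ P j' → j = j' := fun j j' h => by
    have := eq_of_monic_of_associated (hP j).1 (hP j').1
      ((hP j).2.2.associated_of_dvd (hP j').2.2 h)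
    have := congrArg natDegree this
    rw [(hP j).2.1, (hP j').2.1] at this
    exact Fin.ext (by omega)
  have hmon : ∀ x : degreeLT F (2 * (d + u)), (G + (s ^ 2 * x.1) ^ 2 * A).Monic ∧
      (G + (s ^ 2 * x.1) ^ 2 * A).natDegree = i := fun x => by
    have : ((s ^ 2 * x.1) ^ 2 * A).degree < G.degree := by
      by_cases hx : x.1 = 0
      · rw [hx, mul_zero, zero_pow two_ne_zero, zero_mul, degree_zero]
        exact bot_lt_iff_ne_bot.2 (degree_ne_bot.2 hG.ne_zero)
      have h1 := (natDegree_lt_iff_degree_lt hx).2 (mem_degreeLT.1 x.2)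
      refine degree_lt_degree ?_
      rw [mul_comm _ A, hA.natDegree_mul' (pow_ne_zero _
        (mul_ne_zero (pow_ne_zero _ hs1.ne_zero) hx)), natDegree_pow,
        (hs1.pow 2).natDegree_mul' hx, natDegree_pow]
      omega
    exact ⟨hG.add_of_left this, by rw [natDegree_add_eq_left_of_degree_lt this, hi]⟩
  have h8 : 2 ^ (Fintype.card (Fin u) * 3) = 8 ^ u := by
    rw [Fintype.card_fin, mul_comm, pow_mul]; norm_num
  have : Nonempty (Fin u) := ⟨⟨0, hu⟩⟩
  have hk := key_tw (J := Fin u) (α := s ^ 2 * A) (σ := σ) hs1 hvm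
    (hPv ▸ separable_prod (fun j j' h => (hP j).2.2.coprime_iff_not_dvd.2 fun e => h (hne _ _ e))
      fun j => PerfectField.separable_of_irreducible (hP j).2.2)
    (hPv ▸ IsCoprime.prod_right fun j _ => ((hP j).2.2.coprime_iff_not_dvd.2 (hns j)).symm)
    (dvd_mul_right _ _) (hP 0).1 (hP 0).2.2 (hPd 0)
    (fun h => ((hP 0).2.2.prime.dvd_or_dvd h).elim
      (fun h => hns 0 ((hP 0).2.2.prime.dvd_of_dvd_pow h)) h0)
    (fun j => P j.succ) (fun j h => Fin.succ_ne_zero j (hne _ _ h).symm) (ρ := d + u)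
    (n := 2 * (d + u)) (fun j => by rw [(hP _).2.1]; have := j.succ.2; omega)
    (by rw [(hP 0).2.1]; simp) (by rw [(hP 0).2.1]; simp; omega)
    (fun R hR h => by
      rw [← hPv, Fin.prod_univ_succ] at h
      refine (hR.prime.dvd_or_dvd h).imp_right fun h => ?_
      obtain ⟨j, -, hj⟩ := (hR.prime.dvd_finsetProd_iff _).1 h
      exact ⟨j, hj⟩)
    (fun x => by
      have h1 : (s ^ 2 * A * x.1 + σ) ^ 2 =
          (G + (s ^ 2 * x.1) ^ 2 * A) * A - X * (s * v) ^ 2 := by rw [e1]; ring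
      have h2 := natDegree_sub_le ((G + (s ^ 2 * x.1) ^ 2 * A) * A) (X * (s * v) ^ 2)
      rw [← h1, natDegree_pow, (hmon x).1.natDegree_mul hA, (hmon x).2,
        monic_X.natDegree_mul ((hs1.mul hvm).pow 2), natDegree_X, natDegree_pow,
        hs1.natDegree_mul hvm] at h2
      rw [hs1.natDegree_mul hvm]
      omega)
    (η := 1 / (2 * (Fintype.card F : ℝ) ^ (b * 8 ^ u))) (B := 1 / (Fintype.card F : ℝ) ^ b)
    (by positivity)
    (by
      rw [(hP 0).2.1, div_pow, div_le_div_iff₀ (by positivity) (by positivity), mul_pow, ← pow_mul]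
      calc _ = 2 ^ 4 * (Fintype.card F : ℝ) ^ (b * 8 ^ u * 2) := by ring
        _ ≤ (Fintype.card F : ℝ) ^ 4 * (Fintype.card F : ℝ) ^ (b * 8 ^ u * 2) := by gcongr
        _ ≤ _ := by
          rw [← pow_add, one_pow, one_mul]
          exact pow_le_pow_right₀ hq1 (by simp; nlinarith))
    (by positivity)
    (by
      rw [h8, (hP 0).2.1, Fintype.card_fin, one_div_pow, ← pow_mul]
      have : 4 * 2 ^ (u * 3) / (Fintype.card F : ℝ) ^ (d + ((0 : Fin (u + 1)) : ℕ)) ≤
          1 / (2 * (Fintype.card F : ℝ) ^ (b * 8 ^ u)) := by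
        rw [div_le_div_iff₀ (by positivity) (by positivity)]
        calc _ = 2 ^ (u * 3 + 3) * (Fintype.card F : ℝ) ^ (b * 8 ^ u) := by ring
          _ ≤ (Fintype.card F : ℝ) ^ (u * 3 + 3) * (Fintype.card F : ℝ) ^ (b * 8 ^ u) := by gcongr
          _ ≤ _ := by
            rw [← pow_add, one_mul]
            rw [mul_assoc] at hb
            exact pow_le_pow_right₀ hq1 (by simp; omega)
      refine (add_le_add this le_rfl).trans_eq ?_
      field_simp
      norm_num)
    hχ
  have hcop : ∀ x : degreeLT F (2 * (d + u)), ind (¬ IsCoprime (s ^ 2 * A * x.1 + σ) v) ≤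
      ind (Bad d u ((G + (s ^ 2 * x.1) ^ 2 * A) * A)) := fun x => ind_mono fun h => by
    by_contra hb
    exact h (hPv ▸ IsCoprime.prod_right fun j _ =>
      ((hP j).2.2.coprime_iff_not_dvd.2 fun e => hb (hbad _ j e)).symm)
  set c : ℝ := ind (∀ R : F[X], Irreducible R → R ∣ s → ¬ R * R ∣ G) * liou A with hc
  have hc1 : |c| ≤ 1 := by
    rw [hc, abs_mul, abs_of_nonneg (ind_nonneg _)]
    refine mul_le_one₀ (ind_le_one _) (abs_nonneg _) ?_
    rcases liou_cases A with h | h <;> simp [h]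
  clear_value c
  have hpt : ∀ x : degreeLT F (2 * (d + u)), |mu (G + (s ^ 2 * x.1) ^ 2 * A) * χ x -
      c * ((liou ((s ^ 2 * A * x.1 + σ) ^ 2 + X * (s * v) ^ 2) : ℝ) * χ x)| ≤
      2 * ind (¬ IsCoprime (s ^ 2 * A * x.1 + σ) v) := fun x => by
    by_cases hx : IsCoprime (s ^ 2 * A * x.1 + σ) v
    · rw [ind_neg (not_not.2 hx), mul_zero, abs_nonpos_iff, ← e1,
        liou_mul (hmon x).1.ne_zero hA.ne_zero, hc, mu]
      have h1 : Squarefree (G + (s ^ 2 * x.1) ^ 2 * A) ↔
          ∀ R : F[X], Irreducible R → R ∣ s → ¬ R * R ∣ G := by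
        rw [squarefree_iff_irreducible_sq_not_dvd_of_ne_zero (hmon x).1.ne_zero]
        have h2 : ∀ R : F[X], R ∣ s → R * R ∣ (s ^ 2 * x.1) ^ 2 * A := fun R h =>
          (mul_dvd_mul h h).trans ⟨s ^ 2 * x.1 ^ 2 * A, by ring⟩
        refine ⟨fun h R hR hRs hRG => h R hR (dvd_add hRG (h2 R hRs)), fun h R hR hRG => ?_⟩
        have h3 : R ^ 2 ∣ (G + (s ^ 2 * x.1) ^ 2 * A) * A := sq R ▸ hRG.mul_right A
        have h4 : R ∣ v * s := by
          have := dvd_od h3
          rwa [e1, od_eq (derivative_odd _ _), mul_comm] at this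
        have h5 : R ∣ s ^ 2 * A * x.1 + σ := by
          rw [e1, mul_comm s v] at h3
          exact hR.prime.dvd_of_dvd_pow (n := 2) ((dvd_add_left
            ((dvd_pow h4 two_ne_zero).mul_left _)).1 ((dvd_pow_self R two_ne_zero).trans h3))
        rcases hR.prime.dvd_or_dvd h4 with h6 | h6
        · exact hR.not_isUnit (hx.isUnit_of_dvd' h5 h6)
        · exact h R hR h6 ((dvd_add_left (h2 R h6)).1 hRG)
      split_ifs with h
      · rw [ind_pos (h1.1 h)]
        rcases liou_cases A with h | h <;> simp [h]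
      · rw [ind_neg (mt h1.2 h)]
        simp
    · rw [ind_pos hx]
      refine (abs_sub _ _).trans ?_
      have : |c * ((liou ((s ^ 2 * A * x.1 + σ) ^ 2 + X * (s * v) ^ 2) : ℝ) * χ x)| ≤ 1 := by
        rw [abs_mul c, abs_mul, hχ.abs_eq, mul_one]
        refine mul_le_one₀ hc1 (abs_nonneg _) ?_
        rcases liou_cases ((s ^ 2 * A * x.1 + σ) ^ 2 + X * (s * v) ^ 2) with h | h <;> simp [h]
      linarith [hle x]
  have h1 := (Finset.abs_expect_le _ _).trans
    (Finset.expect_le_expect (s := univ) fun x _ => hpt x)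
  rw [Finset.expect_sub_distrib, ← Finset.mul_expect, ← Finset.mul_expect] at h1
  have h2 := Finset.expect_le_expect (s := univ) fun x _ => hcop x
  have h3 := abs_sub_abs_le_abs_sub
    (𝔼 x : degreeLT F (2 * (d + u)), mu (G + (s ^ 2 * x.1) ^ 2 * A) * χ x)
    (c * 𝔼 x : degreeLT F (2 * (d + u)),
      (liou ((s ^ 2 * A * x.1 + σ) ^ 2 + X * (s * v) ^ 2) : ℝ) * χ x)
  rw [abs_mul] at h3
  have h4 := mul_le_of_le_one_left (abs_nonneg (𝔼 x : degreeLT F (2 * (d + u)),
      (liou ((s ^ 2 * A * x.1 + σ) ^ 2 + X * (s * v) ^ 2) : ℝ) * χ x)) hc1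
  linarith

end SLine

open SLine in
theorem line [CharP F 2] {d u r b i l : ℕ} {A B F₀ : F[X]} (hu : 1 ≤ u) (hr : r < d) (hA : A.Monic)
    (hB : od (A * B) = 1) (hF : F₀.Monic) (hi : F₀.natDegree = i)
    (hN : i + A.natDegree = 2 * (∑ j : Fin (u + 1), (d + j) + r) + 1) (hl : l ≤ i)
    (hl' : A.natDegree + 4 * r + 4 * (d + u) ≤ l) (hb : 2 * b * 8 ^ u + 3 * u + 4 ≤ d)
    {ψ : F[X] → ℝ} (hψ : Sgn ψ) :
    |𝔼 g : degreeLT F l, mu (F₀ + g.1) * ψ g.1 * gw (goodV F d u) r (od ((F₀ + g.1) * A))| ≤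
      4 * (u + 1 + A.natDegree) / (Fintype.card F : ℝ) ^ d + 1 / (Fintype.card F : ℝ) ^ b := by
  have hq := card_pos' (F := F)
  have key : ∀ v ∈ goodV F d u, ∀ s ∈ monF F r,
      |𝔼 g : degreeLT F l, mu (F₀ + g.1) * ψ g.1 * ind (v * s = od ((F₀ + g.1) * A))| ≤
      𝔼 g : degreeLT F l, ind (v * s = od ((F₀ + g.1) * A)) *
        (4 * ind (Bad d u ((F₀ + g.1) * A)) + 1 / (Fintype.card F : ℝ) ^ b) := by
    intro v hv s hs
    obtain ⟨hs1, hs2⟩ := mem_monF.1 hs
    have hmem : ∀ x : degreeLT F (2 * (d + u)), (s ^ 2 * x.1) ^ 2 * A ∈ degreeLT F l := fun x => by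
      rw [mem_degreeLT]
      by_cases hx : x.1 = 0
      · rw [hx, mul_zero, zero_pow two_ne_zero, zero_mul, degree_zero]
        exact WithBot.bot_lt_coe _
      have h1 := (natDegree_lt_iff_degree_lt hx).2 (mem_degreeLT.1 x.2)
      refine degree_le_natDegree.trans_lt (Nat.cast_lt.2 ?_)
      rw [mul_comm _ A, hA.natDegree_mul' (pow_ne_zero _
        (mul_ne_zero (pow_ne_zero _ hs1.ne_zero) hx)), natDegree_pow,
        (hs1.pow 2).natDegree_mul' hx, natDegree_pow]
      omega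
    have hod : ∀ g x : F[X], od ((F₀ + (g + (s ^ 2 * x) ^ 2 * A)) * A) = od ((F₀ + g) * A) := by
      intro g x
      rw [show (F₀ + (g + (s ^ 2 * x) ^ 2 * A)) * A = (F₀ + g) * A + (s ^ 2 * x * A) ^ 2 by ring,
        od_add, od_of_sq, add_zero]
    rw [expect_avg _ fun x : degreeLT F (2 * (d + u)) => (⟨_, hmem x⟩ : degreeLT F l),
      expect_avg (fun g : degreeLT F l => ind (v * s = od ((F₀ + g.1) * A)) *
        (4 * ind (Bad d u ((F₀ + g.1) * A)) + 1 / (Fintype.card F : ℝ) ^ b))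
        fun x : degreeLT F (2 * (d + u)) => (⟨_, hmem x⟩ : degreeLT F l)]
    refine (Finset.abs_expect_le _ _).trans (Finset.expect_le_expect fun g _ => ?_)
    simp only [Submodule.coe_add, hod, hψ.add]
    by_cases hW : v * s = od ((F₀ + g.1) * A)
    · have hg : g.1.degree < F₀.degree := by
        rw [degree_eq_natDegree hF.ne_zero, hi]
        exact (mem_degreeLT.1 g.2).trans_le (by exact_mod_cast hl)
      have h1 := local_line (b := b) hu hr hA (hF.add_of_left hg)
        ((natDegree_add_eq_left_of_degree_lt hg).trans hi) hv hs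
        (by rw [(goodV_spec hv).2.1]; exact hN) hW (by omega) hb
        (χ := fun x => ψ ((s ^ 2 * x.1) ^ 2 * A))
        (hψ.comp _ fun x y => by rw [Submodule.coe_add, mul_add, CharTwo.add_sq, add_mul])
      simp only [ind_pos hW, mul_one, one_mul, ← add_assoc]
      rw [Finset.expect_add_distrib, Fintype.expect_const, ← Finset.mul_expect]
      refine le_trans (le_of_eq ?_) h1
      rw [← mul_one |𝔼 x : degreeLT F (2 * (d + u)), mu (F₀ + g.1 + (s ^ 2 * x.1) ^ 2 * A) *
        ψ ((s ^ 2 * x.1) ^ 2 * A)|, ← hψ.abs_eq g.1, ← abs_mul, Finset.expect_mul]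
      congr 1
      exact Finset.expect_congr rfl fun x _ => by ring
    · simp [ind_neg hW]
  simp only [gw, Finset.mul_sum, Finset.expect_sum_comm]
  refine (Finset.abs_sum_le_sum_abs _ _).trans ((Finset.sum_le_sum fun v hv =>
    (Finset.abs_sum_le_sum_abs _ _).trans (Finset.sum_le_sum fun s hs => key v hv s hs)).trans ?_)
  simp only [← Finset.expect_sum_comm, ← Finset.sum_mul]
  refine (Finset.expect_le_expect (g := fun g : degreeLT F l =>
    4 * ind (Bad d u ((F₀ + g.1) * A)) + 1 / (Fintype.card F : ℝ) ^ b) fun g _ =>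
      mul_le_of_le_one_left (by have := ind_nonneg (Bad d u ((F₀ + g.1) * A)); positivity)
        (gw_le_one hr _)).trans ?_
  rw [Finset.expect_add_distrib, Fintype.expect_const, ← Finset.mul_expect, mul_div_assoc]
  gcongr
  exact expect_bad F₀ hA.ne_zero hB (by omega)

end Pool.Agent.MP_c853c5_nt

end
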