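import Mathlib
import Pool.Agent.Mg.F43e117.G31b336
import Pool.Agent.Mg.F43e117.G191fe6

section

set_option autoImplicit false

namespace Pool.Agent.MP_c853c5_nt

open Polynomial Finset Pool.Agent.MP_4fffd4_nt
open scoped BigOperators

variable {F : Type*} [Field F] [Fintype F]

variable [CharP F 2]

theorem od_surj {A B : F[X]} (hA : A.Monic) (hB : od (A * B) = 1) {l : ℕ} (hl : A.natDegree ≤ l)
    {w : F[X]} (hw : w.degree < ((l + A.natDegree) / 2 : ℕ)) :
    ∃ g : F[X], g.degree < l ∧ od (g * A) = w := by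
  have key : ∀ g : F[X], od (g * A) = w → ∃ g' : F[X], g'.degree < l ∧ od (g' * A) = w := by
    intro g
    induction g using degree_lt_wf.induction with
    | _ g ih =>
    intro hg
    by_cases hlt : g.degree < l
    · exact ⟨g, hlt, hg⟩
    have hg0 : g ≠ 0 := by
      rintro rfl
      exact hlt (by rw [degree_zero]; exact WithBot.bot_lt_coe _)
    have hD : l ≤ g.natDegree := by
      rw [degree_eq_natDegree hg0, not_lt] at hlt
      exact_mod_cast hlt
    obtain ⟨k, hk | hk⟩ := Nat.even_or_odd' (g.natDegree - A.natDegree)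
    · obtain ⟨c, hc⟩ := (bijective_frobenius F 2).2 g.leadingCoeff
      rw [frobenius_def] at hc
      have hc0 : c ^ 2 ≠ 0 := by rw [hc]; exact leadingCoeff_ne_zero.2 hg0
      have e : (C c * X ^ k) ^ 2 * A = C (c ^ 2) * (X ^ (2 * k) * A) := by
        rw [map_pow]; ring
      have hm : (X ^ (2 * k) * A : F[X]).Monic := (monic_X_pow _).mul hA
      refine ih (g - (C c * X ^ k) ^ 2 * A) (degree_sub_lt_left ?_ hg0 ?_) ?_
      · rw [e, degree_C_mul hc0, degree_eq_natDegree hg0, degree_eq_natDegree hm.ne_zero,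
          (monic_X_pow _).natDegree_mul hA, natDegree_X_pow]
        congr 1
        omega
      · rw [e, leadingCoeff_mul, leadingCoeff_C, hm.leadingCoeff, mul_one, hc]
      · rw [CharTwo.sub_eq_add, add_mul, od_add, hg, mul_assoc, ← sq, ← mul_pow, od_of_sq,
          add_zero]
    · exfalso
      have h1 := coeff_od (g * A) (A.natDegree + k)
      rw [show 2 * (A.natDegree + k) + 1 = g.natDegree + A.natDegree by omega,
        coeff_mul_degree_add_degree, hA.leadingCoeff, mul_one, hg,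
        (degree_lt_iff_coeff_zero _ _).1 hw _ (by omega)] at h1
      exact leadingCoeff_ne_zero.2 hg0 (by rw [← h1]; simp)
  exact key (w ^ 2 * B) (by rw [mul_assoc, od_sq_mul, mul_comm B, hB, mul_one])

theorem expect_od {A B : F[X]} (hA : A.Monic) (hB : od (A * B) = 1) {l : ℕ} (hl : A.natDegree ≤ l)
    (G : F[X] → ℝ) : 𝔼 g : degreeLT F l, G (od (g.1 * A)) =
      𝔼 w : degreeLT F ((l + A.natDegree) / 2), G w.1 := by
  let f : degreeLT F l →+ degreeLT F ((l + A.natDegree) / 2) :=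
    { toFun := fun g => ⟨od (g.1 * A), mem_degreeLT.2 (degree_od_lt (by
        rw [mul_comm]
        exact mem_degreeLT.1 (mul_mem_degreeLT (Q := A) (le_of_eq (add_comm _ _)) g)))⟩
      map_zero' := Subtype.ext (by simp [od_zero])
      map_add' := fun a b => Subtype.ext (by simp [add_mul, od_add]) }
  refine expect_surj f (fun w => ?_) fun w => G w.1
  obtain ⟨g, h1, h2⟩ := od_surj hA hB hl (mem_degreeLT.1 w.2)
  exact ⟨⟨g, mem_degreeLT.2 h1⟩, Subtype.ext h2⟩

theorem exists_comp {A : F[X]} (hA : A.Monic) (hi : Irreducible A) :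
    ∃ B : F[X], B.degree < A.degree ∧ od (B * A) = 1 := by
  have h2 : (2 : F[X]) = 0 := by exact_mod_cast CharP.cast_eq_zero F[X] 2
  have hs : IsCoprime A (derivative A) := PerfectField.separable_of_irreducible hi
  obtain ⟨s, hσ⟩ := exists_od A
  rw [← od_sq] at hs
  obtain ⟨u, v, huv⟩ : IsCoprime s (od A) := by
    have h1 : IsCoprime (s ^ 2 + od A * (X * od A)) (od A) := by
      rw [show s ^ 2 + od A * (X * od A) = A by linear_combination -hσ]
      exact (IsCoprime.pow_right_iff two_pos).1 hs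
    exact (IsCoprime.pow_left_iff two_pos).1 h1.of_add_mul_left_left
  have hB : od (A * (v ^ 2 + X * u ^ 2)) = 1 := by
    refine od_eq ?_
    rw [derivative_mul, derivative_odd, ← od_sq, ← huv]
    linear_combination u ^ 2 * hσ + (X * u ^ 2 * od A ^ 2 - u * s * v * od A) * h2
  have hpos := hi.natDegree_pos
  obtain ⟨g, h1, h3⟩ := od_surj hA hB le_rfl (w := 1) (by
    rw [degree_one]
    exact_mod_cast (by omega))
  exact ⟨g, by rwa [degree_eq_natDegree hA.ne_zero], h3⟩

theorem eq_zero_of_od {A B g : F[X]} (hB : od (A * B) = 1) (hg : g.degree < A.degree)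
    (h : od (g * A) = 0) : g = 0 := by
  have h1 := od_sq (A * B)
  have h2 := od_sq (g * A)
  rw [hB, derivative_mul] at h1
  rw [h, derivative_mul] at h2
  have h3 : IsCoprime A (derivative A) := ⟨derivative B, B, by linear_combination -h1⟩
  exact eq_zero_of_dvd_of_degree_lt
    (h3.dvd_of_dvd_mul_right ⟨-derivative g, by linear_combination -h2⟩) hg

namespace SBox

theorem abs_le_sq {x θ : ℝ} (hθ : 0 < θ) : |x| ≤ θ + x ^ 2 / θ := by
  rw [← sq_abs, ← sub_le_iff_le_add', le_div_iff₀ hθ]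
  nlinarith [sq_nonneg (|x| - θ), abs_nonneg x]

theorem expect_diag {Y : Type*} [Fintype Y] [Nonempty Y] :
    𝔼 y : Y, 𝔼 y' : Y, ind (y = y') = 1 / Fintype.card Y := by
  classical
  have : ∀ y : Y, 𝔼 y' : Y, ind (y = y') = 1 / Fintype.card Y := by
    intro y
    rw [Fintype.expect_eq_sum_div_card, Finset.sum_eq_single_of_mem y (mem_univ y)
      fun y' _ h => ind_neg (Ne.symm h), ind_pos rfl]
  simp only [this, Fintype.expect_const]

omit [Fintype F] [CharP F 2] in
theorem sq_mul_mem {A : F[X]} {l L : ℕ} (hl : A.natDegree + 2 * L ≤ l) (x : degreeLT F L) :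
    x.1 ^ 2 * A ∈ degreeLT F l := by
  rw [mem_degreeLT]
  by_cases hx : (x : F[X]) = 0
  · rw [hx, zero_pow two_ne_zero, zero_mul, degree_zero]; exact WithBot.bot_lt_coe _
  have h1 := (natDegree_lt_iff_degree_lt hx).2 (mem_degreeLT.1 x.2)
  refine degree_le_natDegree.trans_lt ?_
  have h2 := natDegree_mul_le (p := x.1 ^ 2) (q := A)
  have h3 := natDegree_pow_le (p := x.1) (n := 2)
  exact_mod_cast (by omega)

theorem cross {A A' B' : F[X]} (hA' : A'.Monic) (hB' : od (A' * B') = 1) {l L : ℕ}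
    (hl : A.natDegree + 2 * L ≤ l) (hl' : A'.natDegree ≤ l) (w : F[X] → ℝ)
    (hw : ∀ W, 0 ≤ w W ∧ w W ≤ 1) {ρ : ℝ} (hρ : 0 ≤ ρ) (hρ' : ρ ≤ 1) (F₀ : F[X]) :
    𝔼 g : degreeLT F l, (w (od ((F₀ + g.1) * A)) - ρ) * (w (od ((F₀ + g.1) * A')) - ρ) ≤
      𝔼 z : degreeLT F ((l + A'.natDegree) / 2),
        |𝔼 x : degreeLT F L, w (od (F₀ * A') + z.1 + od (A * A') * x.1) - ρ| := by
  rw [← expect_od hA' hB' hl' fun z =>
      |𝔼 x : degreeLT F L, w (od (F₀ * A') + z + od (A * A') * x.1) - ρ|,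
    expect_avg _ fun x : degreeLT F L => (⟨x.1 ^ 2 * A, sq_mul_mem hl x⟩ : degreeLT F l)]
  refine Finset.expect_le_expect fun g _ => ?_
  have e1 : ∀ x : F[X], od ((F₀ + (g.1 + x ^ 2 * A)) * A) = od ((F₀ + g.1) * A) := fun x => by
    rw [← add_assoc, add_mul, od_add, mul_assoc, ← sq, ← mul_pow, od_of_sq, add_zero]
  have e2 : ∀ x : F[X], od ((F₀ + (g.1 + x ^ 2 * A)) * A') =
      od (F₀ * A') + od (g.1 * A') + od (A * A') * x := fun x => by
    rw [← add_assoc, add_mul, add_mul, od_add, od_add, mul_assoc, od_sq_mul, mul_comm x]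
  simp only [Submodule.coe_add, e1, e2]
  rw [← Finset.mul_expect, Finset.expect_sub_distrib, Fintype.expect_const]
  refine (le_abs_self _).trans ?_
  rw [abs_mul]
  refine mul_le_of_le_one_left (abs_nonneg _) (abs_le.2 ?_)
  obtain ⟨h1, h2⟩ := hw (od ((F₀ + g.1) * A))
  constructor <;> linarith

end SBox

theorem box {Y : Type*} [Fintype Y] [Nonempty Y] (A B : Y → F[X]) (Δ : Y → Y → F[X]) {a l L : ℕ}
    (hA : ∀ y, (A y).Monic ∧ (A y).natDegree = a ∧ od (A y * B y) = 1)
    (hΔ : ∀ y y', od (A y * A y') = Δ y y') (hl : a + 2 * L ≤ l) (φ w : F[X] → ℝ)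
    (hφ : ∀ g, |φ g| ≤ 1) (hw : ∀ W, 0 ≤ w W ∧ w W ≤ 1) {ρ ε θ : ℝ} (hρ : 0 ≤ ρ) (hρ' : ρ ≤ 1)
    (hθ : 0 < θ) (F₀ : F[X])
    (hline : ∀ y, |𝔼 g : degreeLT F l, φ g.1 * w (od ((F₀ + g.1) * A y))| ≤ ε) :
    ρ * |𝔼 g : degreeLT F l, φ g.1| ≤ ε + θ + (1 / Fintype.card Y + 𝔼 y, 𝔼 y', ind (y ≠ y') *
      𝔼 z : degreeLT F ((l + a) / 2),
        |𝔼 x : degreeLT F L, w (od (F₀ * A y') + z.1 + Δ y y' * x.1) - ρ|) / θ := by
  set W : Y → degreeLT F l → ℝ := fun y g => w (od ((F₀ + g.1) * A y)) with hW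
  have h1 : ρ * 𝔼 g : degreeLT F l, φ g.1 = 𝔼 y, 𝔼 g : degreeLT F l, φ g.1 * W y g +
      𝔼 g : degreeLT F l, φ g.1 * (ρ - 𝔼 y, W y g) := by
    rw [Finset.expect_comm, ← Finset.expect_add_distrib, Finset.mul_expect]
    refine Finset.expect_congr rfl fun g _ => ?_
    rw [← Finset.mul_expect]
    ring
  have h2 : |𝔼 y, 𝔼 g : degreeLT F l, φ g.1 * W y g| ≤ ε :=
    (Finset.abs_expect_le _ _).trans (Finset.expect_le univ_nonempty fun y _ => hline y)
  have h3 : |𝔼 g : degreeLT F l, φ g.1 * (ρ - 𝔼 y, W y g)| ≤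
      θ + (𝔼 g : degreeLT F l, (𝔼 y, (W y g - ρ)) ^ 2) / θ := by
    refine (Finset.abs_expect_le _ _).trans ((Finset.expect_le_expect
      (g := fun g => θ + (𝔼 y, (W y g - ρ)) ^ 2 / θ) fun g _ => ?_).trans_eq ?_)
    · rw [abs_mul, Finset.expect_sub_distrib, Fintype.expect_const, abs_sub_comm]
      exact (mul_le_of_le_one_left (abs_nonneg _) (hφ _)).trans (SBox.abs_le_sq hθ)
    · rw [Finset.expect_add_distrib, Fintype.expect_const, Finset.expect_div]
  have h4 : 𝔼 g : degreeLT F l, (𝔼 y, (W y g - ρ)) ^ 2 ≤ 1 / Fintype.card Y +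
      𝔼 y, 𝔼 y', ind (y ≠ y') * 𝔼 z : degreeLT F ((l + a) / 2),
        |𝔼 x : degreeLT F L, w (od (F₀ * A y') + z.1 + Δ y y' * x.1) - ρ| := by
    simp only [sq, Fintype.expect_mul_expect]
    rw [Finset.expect_comm, ← SBox.expect_diag, ← Finset.expect_add_distrib]
    refine Finset.expect_le_expect fun y _ => ?_
    rw [Finset.expect_comm, ← Finset.expect_add_distrib]
    refine Finset.expect_le_expect fun y' _ => ?_
    by_cases e : y = y'
    · rw [ind_pos e, ind_neg (not_not.2 e), zero_mul, add_zero]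
      refine Finset.expect_le univ_nonempty fun g _ => ?_
      obtain ⟨h5, h6⟩ := hw (od ((F₀ + g.1) * A y))
      obtain ⟨h7, h8⟩ := hw (od ((F₀ + g.1) * A y'))
      refine (le_abs_self _).trans ?_
      rw [abs_mul]
      exact mul_le_one₀ (abs_le.2 ⟨by simp only [hW]; linarith, by simp only [hW]; linarith⟩)
        (abs_nonneg _) (abs_le.2 ⟨by simp only [hW]; linarith, by simp only [hW]; linarith⟩)
    · rw [ind_neg e, ind_pos e, one_mul, zero_add, ← hΔ, ← (hA y').2.1]
      exact SBox.cross (hA y').1 (hA y').2.2 (by rw [(hA y).2.1]; exact hl)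
        (by rw [(hA y').2.1]; omega) w hw hρ hρ' F₀
  rw [← abs_of_nonneg hρ, ← abs_mul, abs_of_nonneg hρ, h1, add_assoc]
  refine (abs_add_le _ _).trans (add_le_add h2 (h3.trans ?_))
  gcongr

end Pool.Agent.MP_c853c5_nt

end

section

set_option autoImplicit false

namespace Pool.Agent.MP_c853c5_nt

open Polynomial Finset Pool.Agent.MP_4fffd4_nt
open scoped BigOperators

variable {F : Type*} [Field F] [Fintype F]

omit [Fintype F] in
theorem SFour.degree_mul_lt {a b : F[X]} {m n : ℕ} (ha : a.degree < m) (hb : b.degree < n) :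
    (a * b).degree < (m + n - 1 : ℕ) := by
  by_cases h1 : a = 0
  · rw [h1, zero_mul, degree_zero]; exact WithBot.bot_lt_coe _
  by_cases h2 : b = 0
  · rw [h2, mul_zero, degree_zero]; exact WithBot.bot_lt_coe _
  have h3 := (natDegree_lt_iff_degree_lt h1).2 ha
  have h4 := (natDegree_lt_iff_degree_lt h2).2 hb
  rw [← natDegree_lt_iff_degree_lt (mul_ne_zero h1 h2), natDegree_mul h1 h2]
  omega

theorem expect_chr {e : F → ℝ} (he : Chr e) {l k : ℕ} {u : F[X]} (hu : u.degree < (l + k : ℕ)) :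
    𝔼 y : degreeLT F k, e ((y.1 * u).coeff (l + k - 1)) = ind (u.degree < l) := by
  by_cases h : u.degree < l
  · rw [ind_pos h]
    have : ∀ y : degreeLT F k, e ((y.1 * u).coeff (l + k - 1)) = 1 := fun y => by
      rw [coeff_eq_zero_of_degree_lt (add_comm k l ▸ SFour.degree_mul_lt (mem_degreeLT.1 y.2) h),
        he.toSgn.zero]
    simp only [this, Fintype.expect_const]
  · rw [ind_neg h]
    have h0 : u ≠ 0 := fun e => h (by rw [e, degree_zero]; exact WithBot.bot_lt_coe _)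
    have h1 := (natDegree_lt_iff_degree_lt h0).2 hu
    have h2 := mt (natDegree_lt_iff_degree_lt h0).1 h
    obtain ⟨c, hc⟩ := he.neg
    refine (he.toSgn.comp (fun y : degreeLT F k => (y.1 * u).coeff (l + k - 1)) fun a b => by
      rw [Submodule.coe_add, add_mul, coeff_add]).expect_eq_zero
      (a := ⟨C (c / u.leadingCoeff) * X ^ (l + k - 1 - u.natDegree), mem_degreeLT.2
        ((degree_C_mul_X_pow_le _ _).trans_lt (by exact_mod_cast (by omega)))⟩) ?_
    rw [mul_assoc, coeff_C_mul, coeff_X_pow_mul', if_pos (by omega),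
      show l + k - 1 - (l + k - 1 - u.natDegree) = u.natDegree by omega, coeff_natDegree,
      div_mul_cancel₀ _ (leadingCoeff_ne_zero.2 h0), hc]
    norm_num

theorem card_ann [CharP F 2] {G : F[X]} (hG : G.Monic) {k t₁ t₂ : ℕ} (h : t₂ ≤ k) :
    ∑ y : degreeLT F k, ind (∀ t, t₁ ≤ t → t < t₂ →
      (y.1 ^ 2 * G).coeff (2 * t + G.natDegree) = 0) ≤
      (Fintype.card F : ℝ) ^ k / (Fintype.card F : ℝ) ^ (t₂ - t₁) := by
  have hq := card_pos' (F := F)
  have h1 := sum_ind_le (α := degreeLT F k × degreeLT F (t₂ - t₁))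
    (P := fun p => ∀ t, t₁ ≤ t → t < t₂ → (p.1.1 ^ 2 * G).coeff (2 * t + G.natDegree) = 0)
    (ltF F k) (fun p => p.1.1 + X ^ t₁ * p.2.1) ?_ ?_
  · rw [Fintype.sum_prod_type, card_ltF] at h1
    simp only [Finset.sum_const, card_univ, card_degreeLT, nsmul_eq_mul, ← Finset.mul_sum] at h1
    rw [le_div_iff₀ (by positivity), mul_comm]
    exact_mod_cast h1
  · rintro ⟨y, z⟩ ⟨y', z'⟩ hy hy' e
    dsimp only at hy hy' e
    have e1 : y.1 + y'.1 = X ^ t₁ * (z.1 + z'.1) := by
      have h2 : (2 : F[X]) = 0 := by exact_mod_cast CharP.cast_eq_zero F[X] 2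
      linear_combination e + (y'.1 - X ^ t₁ * z.1) * h2
    have e2 : z.1 + z'.1 = 0 := by
      by_contra h0
      have h2 := (natDegree_lt_iff_degree_lt h0).2 (mem_degreeLT.1 (z + z').2)
      have h3 : (y.1 + y'.1).natDegree = t₁ + (z.1 + z'.1).natDegree := by
        rw [e1, (monic_X_pow _).natDegree_mul' h0, natDegree_X_pow]
      have h4 : ((y.1 + y'.1) ^ 2 * G).coeff (2 * (y.1 + y'.1).natDegree + G.natDegree) = 0 := by
        rw [CharTwo.add_sq, add_mul, coeff_add, hy _ (by omega) (by omega),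
          hy' _ (by omega) (by omega), add_zero]
      rw [← natDegree_pow, coeff_mul_degree_add_degree, hG.leadingCoeff, mul_one, leadingCoeff_pow,
        pow_eq_zero_iff two_ne_zero, leadingCoeff_eq_zero, e1] at h4
      exact mul_ne_zero (monic_X_pow _).ne_zero h0 h4
    rw [e2, mul_zero] at e1
    exact Prod.ext (Subtype.ext (CharTwo.add_eq_zero.1 e1)) (Subtype.ext (CharTwo.add_eq_zero.1 e2))
  · rintro ⟨y, z⟩ -
    rw [mem_ltF]
    refine (degree_add_le _ _).trans_lt (max_lt (mem_degreeLT.1 y.2) ?_)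
    by_cases h0 : z.1 = 0
    · rw [h0, mul_zero, degree_zero]; exact WithBot.bot_lt_coe _
    have h2 := (natDegree_lt_iff_degree_lt h0).2 (mem_degreeLT.1 z.2)
    rw [← natDegree_lt_iff_degree_lt (mul_ne_zero (monic_X_pow _).ne_zero h0),
      (monic_X_pow _).natDegree_mul' h0, natDegree_X_pow]
    omega

theorem chr_od [CharP F 2] {e : F → ℝ} (he : Chr e) (y u : F[X]) (s : ℕ) :
    e ((y * od u).coeff s) = e ((y ^ 2 * u).coeff (2 * s + 1)) := by
  rw [← he.sq, ← od_sq_mul, coeff_od]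

namespace SFour

omit [Fintype F]

/-- The coefficient of `1 / X` in `a / b`. -/
noncomputable def res (a b : F[X]) : F := (a %ₘ b).coeff (b.natDegree - 1)

theorem res_add (a a' b : F[X]) : res (a + a') b = res a b + res a' b := by
  rw [res, add_modByMonic, coeff_add]; rfl

theorem res_of_lt {a b : F[X]} (hb : b.Monic) (h : a.degree < b.degree) :
    res a b = a.coeff (b.natDegree - 1) := by
  rw [res, (modByMonic_eq_self_iff hb).2 h]

theorem res_congr {a a' b : F[X]} (hb : b.Monic) (h : b ∣ a - a') : res a b = res a' b := by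
  rw [res, res, modByMonic_eq_of_dvd_sub hb h]

theorem res_mul (a : F[X]) {b g : F[X]} (hb : b.Monic) (hg : g.Monic) :
    res (a * g) (b * g) = res a b := by
  have h1 := degree_modByMonic_lt a hb
  rw [res_congr (a' := a %ₘ b * g) (hb.mul hg) ⟨a /ₘ b, by
    linear_combination -g * modByMonic_add_div a b⟩, res_of_lt (hb.mul hg) (by
      rw [degree_mul, degree_mul]
      exact WithBot.add_lt_add_right (degree_ne_bot.2 hg.ne_zero) h1), res]
  by_cases h0 : b.natDegree = 0
  · have : a %ₘ b = 0 := by rw [eq_one_of_monic_natDegree_zero hb h0, modByMonic_one]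
    simp [this]
  rw [hb.natDegree_mul hg, show b.natDegree + g.natDegree - 1 = b.natDegree - 1 + g.natDegree by
    omega, coeff_mul_add_eq_of_natDegree_le _ le_rfl, hg.coeff_natDegree, mul_one]
  by_cases h2 : a %ₘ b = 0
  · simp [h2]
  have := natDegree_lt_natDegree h2 h1
  omega

theorem res_eq_zero {a b : F[X]} (hb : b.Monic) (h : a.degree < (b.natDegree - 1 : ℕ)) :
    res a b = 0 := by
  rw [res_of_lt hb (h.trans_le (by
    rw [degree_eq_natDegree hb.ne_zero]; exact_mod_cast Nat.sub_le _ _)),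
    coeff_eq_zero_of_degree_lt h]

theorem expect_res [Fintype F] {e : F → ℝ} (he : Chr e) (f : F[X]) {b : F[X]} (hb : b.Monic)
    {h t : ℕ} (hd : b.natDegree = h + t) :
    𝔼 a : degreeLT F t, e (res (a.1 * f) b) = ind ((f %ₘ b).degree < h) := by
  have h1 : ∀ a : F[X], res (a * f) b = res (a * (f %ₘ b)) b := fun a =>
    res_congr hb ⟨a * (f /ₘ b), by linear_combination -a * modByMonic_add_div f b⟩
  have hu := degree_modByMonic_lt f hb
  simp only [h1]
  generalize f %ₘ b = u at hu ⊢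
  by_cases h2 : u.degree < h
  · rw [ind_pos h2]
    have : ∀ a : degreeLT F t, e (res (a.1 * u) b) = 1 := fun a => by
      rw [res_eq_zero hb (by
        rw [hd, add_comm]; exact SFour.degree_mul_lt (mem_degreeLT.1 a.2) h2), he.toSgn.zero]
    simp only [this, Fintype.expect_const]
  · rw [ind_neg h2]
    have h0 : u ≠ 0 := fun e => h2 (by rw [e, degree_zero]; exact WithBot.bot_lt_coe _)
    have h3 := natDegree_lt_natDegree h0 hu
    have h4 := mt (natDegree_lt_iff_degree_lt h0).1 h2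
    obtain ⟨c, hc⟩ := he.neg
    refine (he.toSgn.comp (fun y : degreeLT F t => res (y.1 * u) b) fun a b => by
      rw [Submodule.coe_add, add_mul, res_add]).expect_eq_zero
      (a := ⟨C (c / u.leadingCoeff) * X ^ (h + t - 1 - u.natDegree), mem_degreeLT.2
        ((degree_C_mul_X_pow_le _ _).trans_lt (by exact_mod_cast (by omega)))⟩) ?_
    rw [res_of_lt hb (degree_lt_degree (natDegree_mul_le.trans_lt (by
      have := natDegree_C_mul_X_pow_le (c / u.leadingCoeff) (h + t - 1 - u.natDegree)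
      dsimp only
      omega))), hd, mul_assoc, coeff_C_mul, coeff_X_pow_mul', if_pos (by omega),
      show h + t - 1 - (h + t - 1 - u.natDegree) = u.natDegree by omega, coeff_natDegree,
      div_mul_cancel₀ _ (leadingCoeff_ne_zero.2 h0), hc]
    norm_num

theorem res_shift [CharP F 2] {β c d y : F[X]} (hc : c.Monic) (hd : d.Monic) (hy : (d + y).Monic)
    (h : (β * y ^ 3).degree < (((d + y) * c * d ^ 3).natDegree - 1 : ℕ)) :
    res β ((d + y) * c) = res (β * d ^ 2) (c * d ^ 3) + res (β * (d * y + y ^ 2)) (c * d ^ 3) := by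
  have h2 : (2 : F[X]) = 0 := by exact_mod_cast CharP.cast_eq_zero F[X] 2
  rw [← res_mul β (hy.mul hc) (hd.pow 3), show β * d ^ 3 =
    β * (d ^ 2 + (d * y + y ^ 2)) * (d + y) + β * y ^ 3 by
      linear_combination -β * (d ^ 2 * y + d * y ^ 2 + y ^ 3) * h2, res_add,
    res_eq_zero ((hy.mul hc).mul (hd.pow 3)) h, add_zero,
    show (d + y) * c * d ^ 3 = c * d ^ 3 * (d + y) by ring, res_mul _ (hc.mul (hd.pow 3)) hy,
    mul_add, res_add]

end SFour

open SFour in
theorem long_to_sum [CharP F 2] {n h i l : ℕ} {f c : F[X]} (hf : f.Monic) (hn : f.natDegree = n)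
    (hc : c.Monic) (hh : h ≤ i + c.natDegree) (hl : l ≤ i) (h3 : 3 * l + n ≤ 3 * i + h + 2) {σ : ℝ}
    (H : ∀ ψ : F[X] → F[X] → ℝ, (∀ g, Sgn (ψ g)) →
      𝔼 g : degreeLT F i, |𝔼 y : degreeLT F l, mu (X ^ i + g.1 + y.1) * ψ g.1 y.1| ≤ σ) :
    |∑ d ∈ monF F i, mu d * ind ((f %ₘ (d * c)).degree < h)| ≤ (Fintype.card F : ℝ) ^ i * σ := by
  have hq := card_pos' (F := F)
  obtain ⟨e, he⟩ := exists_chr (F := F)
  obtain ⟨t, ht⟩ := Nat.exists_eq_add_of_le hh
  rw [sum_monF, ← div_le_iff₀' (by positivity), ← abs_of_pos (pow_pos hq i), ← abs_div,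
    ← expect_LT]
  have h1 : ∀ g : degreeLT F i, ind ((f %ₘ ((X ^ i + g.1) * c)).degree < h) =
      𝔼 a : degreeLT F t, e (res (a.1 * f) ((X ^ i + g.1) * c)) := fun g =>
    (expect_res he f ((monic_add_LT g).1.mul hc) (by
      rw [(monic_add_LT g).1.natDegree_mul hc, (monic_add_LT g).2, ht])).symm
  simp only [h1, Finset.mul_expect]
  rw [Finset.expect_comm]
  refine (Finset.abs_expect_le _ _).trans (Finset.expect_le univ_nonempty fun a _ => ?_)
  have hm : ∀ y : degreeLT F l, y.1 ∈ degreeLT F i := fun y =>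
    mem_degreeLT.2 ((mem_degreeLT.1 y.2).trans_le (by exact_mod_cast hl))
  rw [expect_avg _ fun y : degreeLT F l => (⟨y.1, hm y⟩ : degreeLT F i)]
  refine (Finset.abs_expect_le _ _).trans (le_trans (Finset.expect_le_expect fun g _ => ?_)
    (H (fun g y => e (res (a.1 * f * ((X ^ i + g) * y + y ^ 2)) (c * (X ^ i + g) ^ 3)))
      fun g => he.toSgn.comp _ fun y y' => by
        rw [← res_add, CharTwo.add_sq]; congr 1; ring))
  have h2 : ∀ y : degreeLT F l, e (res (a.1 * f) ((X ^ i + g.1 + y.1) * c)) =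
      e (res (a.1 * f * (X ^ i + g.1) ^ 2) (c * (X ^ i + g.1) ^ 3)) *
      e (res (a.1 * f * ((X ^ i + g.1) * y.1 + y.1 ^ 2)) (c * (X ^ i + g.1) ^ 3)) := fun y => by
    obtain ⟨m1, m2⟩ := monic_add_LT (g + ⟨y.1, hm y⟩)
    rw [Submodule.coe_add, ← add_assoc] at m1 m2
    rw [res_shift hc (monic_add_LT g).1 m1, he.add]
    rw [(m1.mul hc).natDegree_mul ((monic_add_LT g).1.pow 3), m1.natDegree_mul hc, m2,
      natDegree_pow, (monic_add_LT g).2]
    by_cases ha : a.1 = 0
    · rw [ha, zero_mul, zero_mul, degree_zero]; exact WithBot.bot_lt_coe _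
    by_cases hy : y.1 = 0
    · rw [hy, zero_pow three_ne_zero, mul_zero, degree_zero]; exact WithBot.bot_lt_coe _
    have a1 := (natDegree_lt_iff_degree_lt ha).2 (mem_degreeLT.1 a.2)
    have a2 := (natDegree_lt_iff_degree_lt hy).2 (mem_degreeLT.1 y.2)
    rw [← natDegree_lt_iff_degree_lt (mul_ne_zero (mul_ne_zero ha hf.ne_zero) (pow_ne_zero _ hy)),
      natDegree_mul (mul_ne_zero ha hf.ne_zero) (pow_ne_zero _ hy), natDegree_mul ha hf.ne_zero,
      natDegree_pow]
    omega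
  simp only [Submodule.coe_add, ← add_assoc, h2, mul_left_comm (mu _), ← Finset.mul_expect,
    abs_mul, he.toSgn.abs_eq, one_mul, le_refl]

end Pool.Agent.MP_c853c5_nt

end

section

set_option autoImplicit false

namespace Pool.Agent.MP_c853c5_nt

open Polynomial Finset Pool.Agent.MP_4fffd4_nt
open scoped BigOperators

variable {F : Type*} [Field F] [Fintype F]

namespace SEquiA

theorem sum_LT (n : ℕ) (G : F[X] → ℝ) : ∑ g ∈ ltF F n, G g = ∑ y : degreeLT F n, G y.1 :=
  Finset.sum_map _ _ _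

theorem sum_ind_LT {l N : ℕ} (h : l ≤ N) (G : F[X] → ℝ) :
    ∑ W : degreeLT F N, G W.1 * ind (W.1.degree < l) = ∑ z : degreeLT F l, G z.1 := by
  rw [← sum_LT N fun W => G W * ind (W.degree < l), ← sum_LT l G]
  refine (Finset.sum_subset (s₁ := ltF F l) (fun g hg => mem_ltF.2 ((mem_ltF.1 hg).trans_le
    (by exact_mod_cast h))) fun g _ hg => ?_).symm.trans (Finset.sum_congr rfl fun g hg => ?_)
  · rw [ind_neg fun h' => hg (mem_ltF.2 h'), mul_zero]
  · rw [ind_pos (mem_ltF.1 hg), mul_one]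

theorem expand [CharP F 2] {e : F → ℝ} (he : Chr e) (l k : ℕ) (v : F[X] → ℝ)
    (w : degreeLT F (l + k)) :
    𝔼 z : degreeLT F l, v (w.1 + z.1) = 𝔼 W : degreeLT F (l + k), v W.1 *
      ∑ y : degreeLT F k, e ((y.1 * W.1).coeff (l + k - 1)) * e ((y.1 * w.1).coeff (l + k - 1)) := by
  have hq := card_pos' (F := F)
  have h1 : ∀ W : degreeLT F (l + k), ∑ y : degreeLT F k, e ((y.1 * W.1).coeff (l + k - 1)) *
      e ((y.1 * w.1).coeff (l + k - 1)) =
      (Fintype.card F : ℝ) ^ k * ind ((W + w).1.degree < l) := by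
    intro W
    rw [← expect_chr he (mem_degreeLT.1 (W + w).2), expect_LT, mul_div_cancel₀ _ (by positivity)]
    refine Finset.sum_congr rfl fun y _ => ?_
    rw [← he.add, ← coeff_add, ← mul_add, Submodule.coe_add]
  simp only [h1]
  rw [← expect_shift (fun W : degreeLT F (l + k) =>
    v W.1 * ((Fintype.card F : ℝ) ^ k * ind ((W + w).1.degree < l))) w]
  simp only [Submodule.coe_add, add_assoc, CharTwo.add_self_eq_zero, add_zero]
  rw [expect_LT, expect_LT, ← sum_ind_LT (Nat.le_add_right l k) fun z => v (w.1 + z), pow_add,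
    div_eq_div_iff (by positivity) (by positivity), Finset.sum_mul, Finset.sum_mul]
  refine Finset.sum_congr rfl fun W _ => ?_
  rw [add_comm W.1]
  ring

theorem parseval [CharP F 2] {e : F → ℝ} (he : Chr e) {k N : ℕ} (h : k ≤ N)
    (φ : degreeLT F k → ℝ) :
    𝔼 W : degreeLT F N, (∑ y : degreeLT F k, e ((y.1 * W.1).coeff (N - 1)) * φ y) ^ 2 =
      ∑ y, φ y ^ 2 := by
  classical
  have h1 : ∀ y y' : degreeLT F k, 𝔼 W : degreeLT F N, e ((y.1 * W.1).coeff (N - 1)) *
      e ((y'.1 * W.1).coeff (N - 1)) = if y = y' then 1 else 0 := by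
    intro y y'
    have h2 := expect_chr he (l := 0) (k := N) (u := y.1 + y'.1)
      ((mem_degreeLT.1 (y + y').2).trans_le (by exact_mod_cast by omega))
    simp only [zero_add, mul_add, coeff_add, he.add, mul_comm _ y.1, mul_comm _ y'.1] at h2
    rw [h2]
    split_ifs with h3
    · exact ind_pos (by simp [h3, CharTwo.add_self_eq_zero])
    · refine ind_neg fun h4 => h3 (Subtype.ext ?_)
      rw [Nat.cast_zero, Nat.WithBot.lt_zero_iff, degree_eq_bot] at h4
      exact CharTwo.add_eq_zero.1 h4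
  simp only [sq, Finset.sum_mul_sum, Finset.expect_sum_comm]
  refine Finset.sum_congr rfl fun y _ => ?_
  have h5 : ∀ y' : degreeLT F k, 𝔼 W : degreeLT F N, e ((y.1 * W.1).coeff (N - 1)) * φ y *
      (e ((y'.1 * W.1).coeff (N - 1)) * φ y') = if y = y' then φ y * φ y' else 0 := by
    intro y'
    simp only [mul_mul_mul_comm _ (φ y), ← Finset.expect_mul, h1]
    split_ifs <;> simp
  simp [h5]

/-- The coefficients of `y ^ 2 * G` just below `2 * N` vanish. -/
def Ann (N a : ℕ) (G y : F[X]) : Prop :=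
  ∀ p, 2 * N - a ≤ p → p < 2 * N → (y ^ 2 * G).coeff p = 0

theorem abs_expect_le_ann [CharP F 2] {e : F → ℝ} (he : Chr e) (N a : ℕ) (G y s : F[X]) :
    |𝔼 A : degreeLT F a, e ((y * (s + od (G * (X ^ a + A.1)))).coeff (N - 1))| ≤
      ind (Ann N a G y) := by
  have h1 : Sgn fun A : degreeLT F a => e ((y * od (G * A.1)).coeff (N - 1)) :=
    he.toSgn.comp (fun A : degreeLT F a => (y * od (G * A.1)).coeff (N - 1)) fun A B => by
      simp only [Submodule.coe_add, mul_add, od_add, coeff_add]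
  simp only [mul_add G, od_add, ← add_assoc s, mul_add y (s + _), coeff_add, he.add,
    ← Finset.mul_expect]
  rw [abs_mul, he.abs_eq, one_mul, h1.expect_eq_ind, abs_of_nonneg (ind_nonneg _)]
  refine ind_mono fun h p hp hp' => he.eq_zero fun c => ?_
  have h2 := h ⟨C c * X ^ (2 * N - 1 - p), mem_degreeLT.2 ((degree_C_mul_X_pow_le _ _).trans_lt
    (by exact_mod_cast by omega))⟩
  rw [chr_od he, show 2 * (N - 1) + 1 = p + (2 * N - 1 - p) by omega] at h2
  rw [← h2]
  congr 1
  change _ = (y ^ 2 * (G * (C c * X ^ (2 * N - 1 - p)))).coeff _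
  rw [show y ^ 2 * (G * (C c * X ^ (2 * N - 1 - p))) = C c * (y ^ 2 * G) * X ^ (2 * N - 1 - p) by
    ring, coeff_mul_X_pow, coeff_C_mul]

theorem sum_ann [CharP F 2] {N a k : ℕ} {G : F[X]} (hG : G.Monic)
    (h : G.natDegree + a = 2 * N + 1) :
    ∑ y : degreeLT F k, ind (Ann N a G y.1) ≤ (Fintype.card F : ℝ) ^ (k - a / 2) := by
  have hq := card_pos' (F := F)
  refine (Finset.sum_le_sum fun y _ => ind_mono fun hy t _ ht => hy _ (by omega) ?_).trans
    ((card_ann hG (t₁ := 0) (min_le_right (a / 2) k)).trans_eq ?_)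
  · have := lt_min_iff.1 ht
    omega
  · rw [div_eq_iff (by positivity), ← pow_add]
    congr 1
    omega

omit [Fintype F] in
theorem degree_mul_lt' {p q : F[X]} {a b c : ℕ} (hp : p.natDegree ≤ a) (hq : q.degree < b)
    (h : a + b ≤ c) : (p * q).degree < c :=
  mem_degreeLT.1 (mul_mem_degreeLT (Q := p) (ρ := b) (by omega) ⟨q, mem_degreeLT.2 hq⟩)

omit [Fintype F] in
theorem exists_dvd {n j a N k : ℕ} {f M y : F[X]} (hn : f.natDegree = n)
    (hj : j ≤ n) (hN : n - j + a = 2 * N + 1) (hk : 2 * k + a ≤ 2 * N) (hM : M.Monic)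
    (hMj : M.natDegree = j) (hy : y ≠ 0) (hyk : y.degree < k) (h : Ann N a (f /ₘ M) y) :
    ∃ r : F[X], r.degree < (j - a : ℕ) ∧ (y ^ 2 * f) /ₘ X ^ (2 * N) - r ≠ 0 ∧
      ((y ^ 2 * f) /ₘ X ^ (2 * N) - r).natDegree ≤ n ∧ M ∣ (y ^ 2 * f) /ₘ X ^ (2 * N) - r := by
  have hX : (X ^ (2 * N) : F[X]).Monic := monic_X_pow _
  have hG : (f /ₘ M).natDegree = n - j := by rw [natDegree_divByMonic f hM, hn, hMj]
  have hG0 : f /ₘ M ≠ 0 := by
    rintro h0
    rw [h0, natDegree_zero] at hG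
    omega
  have hρ : (f %ₘ M).degree < j := by
    have := degree_modByMonic_lt f hM
    rwa [degree_eq_natDegree hM.ne_zero, hMj] at this
  have hf' := modByMonic_add_div f M
  generalize f /ₘ M = G at h hG hG0 hf'
  generalize f %ₘ M = ρ at hρ hf'
  have hy' : y.natDegree < k := (natDegree_lt_iff_degree_lt hy).2 hyk
  have hyG : (y ^ 2 * G).natDegree = 2 * y.natDegree + (n - j) := by
    rw [natDegree_mul (pow_ne_zero _ hy) hG0, natDegree_pow, hG]
  have hb : ((y ^ 2 * G) /ₘ X ^ (2 * N)).natDegree ≤ n - j := by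
    rw [natDegree_divByMonic _ hX, natDegree_X_pow, hyG]
    omega
  have hu := degree_modByMonic_lt (y ^ 2 * G) hX
  have hd := modByMonic_add_div (y ^ 2 * G) (X ^ (2 * N))
  generalize (y ^ 2 * G) /ₘ X ^ (2 * N) = b at hb hd
  generalize (y ^ 2 * G) %ₘ X ^ (2 * N) = u at hu hd
  have hu' : u.degree < (2 * N - a : ℕ) := by
    rw [degree_X_pow, degree_lt_iff_coeff_zero] at hu
    rw [degree_lt_iff_coeff_zero]
    intro p hp
    by_cases hp' : p < 2 * N
    · have := h p hp hp'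
      rwa [← hd, coeff_add, coeff_X_pow_mul', if_neg (by omega), add_zero] at this
    · exact hu p (by omega)
  have hb0 : b ≠ 0 := by
    rintro rfl
    rw [mul_zero, add_zero] at hd
    rw [hd, ← natDegree_lt_iff_degree_lt (mul_ne_zero (pow_ne_zero _ hy) hG0), hyG] at hu'
    omega
  have hs : (y ^ 2 * ρ + M * u).degree < (2 * N - a + j : ℕ) :=
    (degree_add_le _ _).trans_lt (max_lt
      (degree_mul_lt' (a := 2 * y.natDegree) natDegree_pow_le hρ (by omega))
      (degree_mul_lt' hMj.le hu' (by omega)))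
  have he : (y ^ 2 * f) /ₘ X ^ (2 * N) - (y ^ 2 * ρ + M * u) /ₘ X ^ (2 * N) = b * M := by
    rw [sub_eq_iff_eq_add]
    refine (div_modByMonic_unique _ ((y ^ 2 * ρ + M * u) %ₘ X ^ (2 * N)) hX
      ⟨?_, degree_modByMonic_lt _ hX⟩).1
    linear_combination y ^ 2 * hf' + M * hd + modByMonic_add_div (y ^ 2 * ρ + M * u) (X ^ (2 * N))
  refine ⟨(y ^ 2 * ρ + M * u) /ₘ X ^ (2 * N), ?_, ?_⟩
  · generalize y ^ 2 * ρ + M * u = s at hs
    by_cases h0 : s /ₘ X ^ (2 * N) = 0
    · rw [h0, degree_zero]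
      exact WithBot.bot_lt_coe _
    have hs0 : s ≠ 0 := by
      rintro rfl
      exact h0 (zero_divByMonic _)
    rw [← natDegree_lt_iff_degree_lt h0, natDegree_divByMonic _ hX, natDegree_X_pow]
    rw [divByMonic_eq_zero_iff hX, degree_X_pow, ← natDegree_lt_iff_degree_lt hs0] at h0
    rw [← natDegree_lt_iff_degree_lt hs0] at hs
    omega
  · rw [he]
    exact ⟨mul_ne_zero hb0 hM.ne_zero, natDegree_mul_le.trans (by omega), dvd_mul_left _ _⟩

theorem expect_ann {n j a N k : ℕ} {f y : F[X]} (hn : f.natDegree = n)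
    (hj : j ≤ n) (hN : n - j + a = 2 * N + 1) (hk : 2 * k + a ≤ 2 * N) {τ : ℝ}
    (hτ : ∀ Z : F[X], Z ≠ 0 → Z.natDegree ≤ n → ((divs Z).card : ℝ) ≤ τ)
    (hy : y ≠ 0) (hyk : y.degree < k) :
    𝔼 m : degreeLT F j, ind (Ann N a (f /ₘ (X ^ j + m.1)) y) ≤
      τ / (Fintype.card F : ℝ) ^ min a j := by
  have hq := card_pos' (F := F)
  have hτ0 : 0 ≤ τ := (Nat.cast_nonneg _).trans (hτ 1 one_ne_zero (by simp))
  generalize hZ : (y ^ 2 * f) /ₘ X ^ (2 * N) = Z
  have h1 : ∑ m : degreeLT F j, ind (Ann N a (f /ₘ (X ^ j + m.1)) y) ≤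
      ∑ m : degreeLT F j, ∑ r ∈ ltF F (j - a),
        ind (Z - r ≠ 0 ∧ (Z - r).natDegree ≤ n ∧ X ^ j + m.1 ∣ Z - r) := by
    refine Finset.sum_le_sum fun m _ => ind_le_sum fun h => ?_
    obtain ⟨r, h1, h2⟩ := exists_dvd hn hj hN hk (monic_add_LT m).1 (monic_add_LT m).2 hy hyk h
    exact ⟨r, mem_ltF.2 h1, hZ ▸ h2⟩
  rw [Finset.sum_comm] at h1
  have h2 := h1.trans (Finset.sum_le_card_nsmul _ _ τ fun r _ => by
    by_cases h : Z - r ≠ 0 ∧ (Z - r).natDegree ≤ n
    · refine (sum_ind_le (divs (Z - r)) (fun m : degreeLT F j => X ^ j + m.1)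
        (fun _ _ _ _ e => Subtype.ext (add_left_cancel e)) fun m hm => ?_).trans (hτ _ h.1 h.2)
      exact (mem_divs h.1).2 ⟨(monic_add_LT m).1, hm.2.2⟩
    · rw [Finset.sum_eq_zero fun m _ => ind_neg fun h' => h ⟨h'.1, h'.2.1⟩]
      exact hτ0)
  rw [expect_LT, div_le_div_iff₀ (by positivity) (by positivity)]
  refine (mul_le_mul_of_nonneg_right h2 (by positivity)).trans_eq ?_
  rw [card_ltF, nsmul_eq_mul, Nat.cast_pow, mul_right_comm, ← pow_add, mul_comm]
  congr 2
  omega

end SEquiA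

open SEquiA in
theorem equi_a [CharP F 2] {n j a N l k : ℕ} {f : F[X]} (hf : f.Monic) (hn : f.natDegree = n)
    (hj : j ≤ n) (hN : n - j + a = 2 * N + 1) (hk : l + k = N) (ha : a ≤ 2 * l) {τ : ℝ}
    (hτ : ∀ Z : F[X], Z ≠ 0 → Z.natDegree ≤ n → ((divs Z).card : ℝ) ≤ τ) (v : F[X] → ℝ) :
    (𝔼 m : degreeLT F j, 𝔼 A : degreeLT F a, 𝔼 z : degreeLT F l,
      v (od (f /ₘ (X ^ j + m.1) * (X ^ a + A.1)) + z.1)) ^ 2 ≤
      (𝔼 W : degreeLT F N, v (X ^ N + W.1) ^ 2) *
        (1 + τ * (Fintype.card F : ℝ) ^ (k - a / 2) / (Fintype.card F : ℝ) ^ min a j) := by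
  subst hk
  have hq := card_pos' (F := F)
  have hτ0 : 0 ≤ τ := (Nat.cast_nonneg _).trans (hτ 1 one_ne_zero (by simp))
  obtain ⟨e, he⟩ := exists_chr (F := F)
  have hG : ∀ m : degreeLT F j, (f /ₘ (X ^ j + m.1)).Monic ∧
      (f /ₘ (X ^ j + m.1)).natDegree = n - j := fun m => by
    obtain ⟨h1, h2⟩ := monic_add_LT m
    refine ⟨?_, by rw [natDegree_divByMonic f h1, hn, h2]⟩
    rw [Monic, leadingCoeff_divByMonic_of_monic h1 (by
      rw [degree_eq_natDegree h1.ne_zero, degree_eq_natDegree hf.ne_zero, hn, h2]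
      exact_mod_cast hj)]
    exact hf
  set φ : degreeLT F k → ℝ := fun y => 𝔼 m : degreeLT F j, 𝔼 A : degreeLT F a,
    e ((y.1 * (X ^ (l + k) + od (f /ₘ (X ^ j + m.1) * (X ^ a + A.1)))).coeff (l + k - 1)) with hφ
  have h1 : ∀ (m : degreeLT F j) (A : degreeLT F a), 𝔼 z : degreeLT F l,
      v (od (f /ₘ (X ^ j + m.1) * (X ^ a + A.1)) + z.1) =
      𝔼 W : degreeLT F (l + k), v (X ^ (l + k) + W.1) * ∑ y : degreeLT F k,
        e ((y.1 * W.1).coeff (l + k - 1)) * e ((y.1 * (X ^ (l + k) +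
          od (f /ₘ (X ^ j + m.1) * (X ^ a + A.1)))).coeff (l + k - 1)) := by
    intro m A
    obtain ⟨w, -, hw⟩ := Finset.mem_map.1 (mem_monF.2 (monic_od ((hG m).1.mul (monic_add_LT A).1)
      (N := l + k) (by rw [(hG m).1.natDegree_mul (monic_add_LT A).1, (hG m).2,
        (monic_add_LT A).2, hN])))
    have hw' : X ^ (l + k) + w.1 = od (f /ₘ (X ^ j + m.1) * (X ^ a + A.1)) := hw
    rw [← hw', ← add_assoc, CharTwo.add_self_eq_zero, zero_add,
      ← expand he l k (fun g => v (X ^ (l + k) + g)) w]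
    simp only [add_assoc]
  have h2 : 𝔼 m : degreeLT F j, 𝔼 A : degreeLT F a, 𝔼 z : degreeLT F l,
      v (od (f /ₘ (X ^ j + m.1) * (X ^ a + A.1)) + z.1) =
      𝔼 W : degreeLT F (l + k), v (X ^ (l + k) + W.1) * ∑ y : degreeLT F k,
        e ((y.1 * W.1).coeff (l + k - 1)) * φ y := by
    simp only [h1, hφ]
    rw [Finset.expect_congr rfl fun m _ => Finset.expect_comm _ _ _, Finset.expect_comm]
    simp only [← Finset.mul_expect, Finset.expect_sum_comm]
  rw [h2]
  refine (Finset.expect_mul_sq_le_sq_mul_sq _ _ _).trans (mul_le_mul_of_nonneg_left ?_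
    (Finset.expect_nonneg fun _ _ => sq_nonneg _))
  rw [parseval he (Nat.le_add_left k l)]
  set p : degreeLT F k → ℝ := fun y => 𝔼 m : degreeLT F j,
    ind (Ann (l + k) a (f /ₘ (X ^ j + m.1)) y.1) with hp
  have hp0 : ∀ y, 0 ≤ p y := fun y => Finset.expect_nonneg fun _ _ => ind_nonneg _
  have h3 : ∀ y, φ y ^ 2 ≤ ind (y = 0) + τ / (Fintype.card F : ℝ) ^ min a j * p y := by
    intro y
    have h4 : |φ y| ≤ p y := (Finset.abs_expect_le _ _).trans
      (Finset.expect_le_expect fun m _ => abs_expect_le_ann he _ _ _ _ _)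
    refine (sq_le_sq' (abs_le.1 h4).1 (abs_le.1 h4).2).trans ?_
    by_cases hy : y = 0
    · rw [ind_pos hy]
      refine le_add_of_le_of_nonneg (pow_le_one₀ (hp0 y) ?_) (mul_nonneg (by positivity) (hp0 y))
      exact Finset.expect_le univ_nonempty fun _ _ => ind_le_one _
    · rw [ind_neg hy, zero_add, sq]
      exact mul_le_mul_of_nonneg_right (expect_ann hn hj hN (by omega) hτ
        (fun h => hy (Subtype.ext h)) (mem_degreeLT.1 y.2)) (hp0 y)
  refine (Finset.sum_le_sum fun y _ => h3 y).trans ?_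
  rw [Finset.sum_add_distrib, ← Finset.mul_sum, mul_div_right_comm]
  refine add_le_add ?_ (mul_le_mul_of_nonneg_left ?_ (by positivity))
  · simpa using sum_ind_le (P := fun y : degreeLT F k => y = 0) {0} id (fun _ _ _ _ h => h)
      fun y hy => by simpa using hy
  · rw [hp, ← Finset.expect_sum_comm]
    exact Finset.expect_le univ_nonempty fun m _ => sum_ann (hG m).1 (by rw [(hG m).2, hN])

end Pool.Agent.MP_c853c5_nt

end

section

set_option autoImplicit false

namespace Pool.Agent.MP_c853c5_nt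

open Polynomial Finset Pool.Agent.MP_4fffd4_nt
open scoped BigOperators

variable {F : Type*} [Field F] [Fintype F]

namespace SEquiB

theorem sum_LT (n : ℕ) (G : F[X] → ℝ) : ∑ g ∈ ltF F n, G g = ∑ y : degreeLT F n, G y.1 :=
  Finset.sum_map _ _ _

omit [Fintype F] in
theorem deg_add_lt [CharP F 2] {a b : F[X]} {N : ℕ} (ha : a.Monic) (ha' : a.natDegree = N)
    (hb : b.Monic) (hb' : b.natDegree = N) : (a + b).degree < N := by
  rw [← CharTwo.sub_eq_add, ← ha', ← degree_eq_natDegree ha.ne_zero]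
  exact degree_sub_lt_left (by rw [degree_eq_natDegree ha.ne_zero, degree_eq_natDegree hb.ne_zero, ha',
    hb']) ha.ne_zero (by rw [ha.leadingCoeff, hb.leadingCoeff])

omit [Fintype F] in
theorem deg_mul_lt {a b : F[X]} {i d : ℕ} (ha : a.natDegree ≤ i) (hb : b.degree < d) :
    (a * b).degree < (d + i : ℕ) :=
  mem_degreeLT.1 (mul_mem_degreeLT (Q := a) (ρ := d) (by omega) ⟨b, mem_degreeLT.2 hb⟩)

/-- The average over a short interval as an average over all monic polynomials. -/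
theorem step1 [CharP F 2] {N l k : ℕ} (hk : l + k = N) {c : F[X]} (hc : c.Monic)
    (hc' : c.natDegree = N) (v : F[X] → ℝ) (hv : ∀ W, 0 ≤ v W) :
    𝔼 z : degreeLT F l, v (c + z.1) ≤ 𝔼 W : degreeLT F N,
      v (X ^ N + W.1) * ((Fintype.card F : ℝ) ^ k * ind (degree (X ^ N + W.1 + c) < l)) := by
  classical
  have hq := card_pos' (F := F)
  have h1 : ∑ z ∈ ltF F l, v (c + z) ≤ ∑ τ ∈ monF F N, v τ * ind ((τ + c).degree < l) := by
    have e : ∀ z ∈ ltF F l, v (c + z) = v (c + z) * ind ((c + z + c).degree < l) := fun z hz => by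
      rw [add_right_comm, CharTwo.add_self_eq_zero, zero_add, ind_pos (mem_ltF.1 hz), mul_one]
    rw [Finset.sum_congr rfl e, ← Finset.sum_image (g := fun z => c + z)
      (f := fun τ => v τ * ind ((τ + c).degree < l)) fun _ _ _ _ h => add_left_cancel h]
    refine Finset.sum_le_sum_of_subset_of_nonneg (fun τ hτ => ?_)
      fun τ _ _ => mul_nonneg (hv _) (ind_nonneg _)
    obtain ⟨z, hz, rfl⟩ := mem_image.1 hτ
    have hz' : z.degree < c.degree := by
      rw [degree_eq_natDegree hc.ne_zero, hc']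
      exact (mem_ltF.1 hz).trans_le (by exact_mod_cast (by omega))
    exact mem_monF.2 ⟨hc.add_of_left hz', by rw [natDegree_add_eq_left_of_degree_lt hz', hc']⟩
  rw [sum_LT, sum_monF] at h1
  rw [expect_LT, expect_LT]
  simp only [mul_left_comm _ ((Fintype.card F : ℝ) ^ k)]
  have e : (Fintype.card F : ℝ) ^ N = Fintype.card F ^ k * Fintype.card F ^ l := by
    rw [← pow_add, add_comm, hk]
  rw [← Finset.mul_sum, e, mul_div_mul_left _ _ (by positivity)]
  exact div_le_div_of_nonneg_right h1 (by positivity)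

/-- The dual condition. -/
def Ann (G : F[X]) (N j : ℕ) (τ y : F[X]) : Prop :=
  ∀ p, N ≤ p → p < N + j → (y * τ).coeff p = (y ^ 2 * G).coeff (p + N + j)

theorem ann_of [CharP F 2] {e : F → ℝ} (he : Chr e) {G τ y : F[X]} {N j : ℕ}
    (h : ∀ m : degreeLT F j, e ((y * (m.1 * τ + od (G * m.1))).coeff (N + j - 1)) = 1) :
    Ann G N j τ y := by
  intro p h1 h2
  obtain ⟨t, ht⟩ : ∃ t, N + j - 1 = p + t := ⟨N + j - 1 - p, by omega⟩
  rw [← sub_eq_zero, CharTwo.sub_eq_add]
  refine he.eq_zero fun c => ?_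
  have := h ⟨C c * X ^ t, mem_degreeLT.2 ((degree_C_mul_X_pow_le t c).trans_lt
    (by exact_mod_cast (by omega)))⟩
  rw [mul_add, coeff_add, he.add, chr_od he, ← he.add] at this
  rw [← this]
  congr 1
  have e1 : y * (C c * X ^ t * τ) = C c * (y * τ) * X ^ t := by ring
  have e2 : y ^ 2 * (G * (C c * X ^ t)) = C c * (y ^ 2 * G) * X ^ t := by ring
  have e3 : 2 * (p + t) + 1 = p + N + j + t := by omega
  simp only [e1, e2, ht, e3, coeff_mul_X_pow, coeff_C_mul]
  rw [mul_add]

theorem step2 [CharP F 2] {n j N l k : ℕ} {f A τ : F[X]} (hf : f.Monic) (hn : f.natDegree = n)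
    (hA : A.Monic) (hj : j ≤ n) (hN : n - j + A.natDegree = 2 * N + 1) (hk : l + k = N)
    (ha : A.natDegree ≤ 2 * l) (hτ : τ.Monic) (hτ' : τ.natDegree = N) :
    (Fintype.card F : ℝ) ^ k *
      𝔼 m : degreeLT F j, ind ((τ + od (f /ₘ (X ^ j + m.1) * A)).degree < l) ≤
      ∑ y : degreeLT F k, ind (Ann (A * f) N j τ y.1) := by
  obtain ⟨e, he⟩ := exists_chr (F := F)
  have hq := card_pos' (F := F)
  have key : ∀ m : degreeLT F j, ind ((τ + od (f /ₘ (X ^ j + m.1) * A)).degree < l) ≤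
      𝔼 y : degreeLT F k, e ((y.1 * (X ^ j * τ + od (A * f * X ^ j))).coeff (N + j - 1)) *
        e ((y.1 * (m.1 * τ + od (A * f * m.1))).coeff (N + j - 1)) := by
    intro m
    obtain ⟨m1, m2⟩ := monic_add_LT m
    have eU : X ^ j * τ + od (A * f * X ^ j) + (m.1 * τ + od (A * f * m.1)) =
        (X ^ j + m.1) * τ + od (A * f * (X ^ j + m.1)) := by
      rw [mul_add, od_add]; ring
    simp only [← he.add, ← coeff_add, ← mul_add, eU]
    generalize X ^ j + m.1 = M at m1 m2
    have d0 : (f /ₘ M).natDegree = n - j := by rw [natDegree_divByMonic _ m1, hn, m2]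
    have d1 : (f /ₘ M).Monic := by
      have := leadingCoeff_divByMonic_of_monic m1 (p := f) (by
        rw [degree_eq_natDegree m1.ne_zero, degree_eq_natDegree hf.ne_zero, hn, m2]
        exact_mod_cast hj)
      rw [Monic, this, hf.leadingCoeff]
    obtain ⟨c1, c2⟩ := monic_od (d1.mul hA) (N := N) (by rw [d1.natDegree_mul hA, d0, hN])
    have e1 : M * τ + od (A * f * M) = M * (τ + od (f /ₘ M * A)) + od (A * M * (f %ₘ M)) := by
      have : A * f * M = M ^ 2 * (f /ₘ M * A) + A * M * (f %ₘ M) := by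
        conv_lhs => rw [← modByMonic_add_div f M]
        ring
      rw [this, od_add, od_sq_mul]
      ring
    have e2 : (od (A * M * (f %ₘ M))).degree < (l + j : ℕ) := by
      have b1 : (f %ₘ M).degree < j := by
        rw [← m2, ← degree_eq_natDegree m1.ne_zero]
        exact degree_modByMonic_lt _ m1
      have := degree_od_lt (deg_mul_lt (a := A * M) (i := 2 * l + j)
        (by rw [hA.natDegree_mul m1, m2]; omega) b1)
      rwa [show (j + (2 * l + j)) / 2 = l + j by omega] at this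
    have e3 : ∀ d : ℕ, l ≤ d → (τ + od (f /ₘ M * A)).degree < d →
        (M * τ + od (A * f * M)).degree < (d + j : ℕ) := fun d h1 h2 => by
      rw [e1]
      exact (degree_add_le _ _).trans_lt (max_lt (deg_mul_lt m2.le h2)
        (e2.trans_le (by exact_mod_cast (by omega))))
    have e4 := expect_chr he (l := l + j) (k := k) (u := M * τ + od (A * f * M)) (by
      rw [show l + j + k = N + j by omega]
      exact e3 N (by omega) (deg_add_lt hτ hτ' c1 c2))
    rw [show l + j + k = N + j by omega] at e4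
    rw [e4]
    exact ind_mono (e3 l le_rfl)
  have h2 := Finset.expect_le_expect (s := univ) fun m _ => key m
  rw [Finset.expect_comm, expect_LT k] at h2
  rw [← le_div_iff₀' (by positivity)]
  refine h2.trans (div_le_div_of_nonneg_right (Finset.sum_le_sum fun y _ => ?_) (by positivity))
  have hs : Sgn fun m : degreeLT F j =>
      e ((y.1 * (m.1 * τ + od (A * f * m.1))).coeff (N + j - 1)) :=
    he.toSgn.comp _ fun a b => by
      rw [← coeff_add, Submodule.coe_add, mul_add (A * f), od_add]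
      congr 1
      ring
  rw [← Finset.mul_expect, hs.expect_eq_ind]
  refine le_trans (mul_le_of_le_one_left (ind_nonneg _) ?_) (ind_mono (ann_of he))
  exact (le_abs_self _).trans (he.toSgn.abs_eq _).le

/-- The condition on the dual variable alone. -/
def Bad (G : F[X]) (j b : ℕ) (y : F[X]) : Prop :=
  j / 2 ≤ b ∧ ∀ t, (b + 1) / 2 ≤ t → t < j / 2 → (y ^ 2 * G).coeff (2 * t + G.natDegree) = 0

omit [Fintype F] in
theorem bad_of {G τ y : F[X]} {N j : ℕ} (hG : G.Monic) (hG' : G.natDegree = 2 * N + 1 + j)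
    (hτ : τ.natDegree = N) (hy : y ≠ 0) (h : Ann G N j τ y) : Bad G j y.natDegree y := by
  have H : ∀ t, (y.natDegree + 1) / 2 ≤ t → t < j / 2 →
      (y ^ 2 * G).coeff (2 * t + G.natDegree) = 0 := fun t h1 h2 => by
    rw [hG', show 2 * t + (2 * N + 1 + j) = N + 2 * t + 1 + N + j by omega,
      ← h _ (by omega) (by omega)]
    exact coeff_eq_zero_of_natDegree_lt (natDegree_mul_le.trans_lt (by omega))
  refine ⟨not_lt.1 fun hb => ?_, H⟩
  have := H _ (by omega) hb
  rw [← natDegree_pow, ← natDegree_mul (pow_ne_zero 2 hy) hG.ne_zero, coeff_natDegree,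
    leadingCoeff_eq_zero] at this
  exact mul_ne_zero (pow_ne_zero 2 hy) hG.ne_zero this

theorem count_W {G y : F[X]} {N j : ℕ} (hG : G.Monic) (hG' : G.natDegree = 2 * N + 1 + j)
    (hy : y ≠ 0) (h1 : y.natDegree ≤ j) (h2 : y.natDegree ≤ N) :
    𝔼 W : degreeLT F N, ind (Ann G N j (X ^ N + W.1) y) ≤
      ind (Bad G j y.natDegree y) / (Fintype.card F : ℝ) ^ y.natDegree := by
  have hq := card_pos' (F := F)
  by_cases h : ∃ W : degreeLT F N, Ann G N j (X ^ N + W.1) y
  · obtain ⟨W0, h0⟩ := h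
    rw [ind_pos (bad_of hG hG' (monic_add_LT W0).2 hy h0), expect_LT]
    have := sum_ind_le (P := fun W : degreeLT F N => Ann G N j (X ^ N + W.1) y)
      (ltF F (N - y.natDegree)) (fun W => W.1 - W0.1)
      (fun a b _ _ e => Subtype.ext (sub_left_injective e)) fun W hW => by
        have b1 : (y * (W - W0).1).degree < (N + y.natDegree : ℕ) :=
          deg_mul_lt le_rfl (mem_degreeLT.1 (W - W0).2)
        rw [Submodule.coe_sub] at b1
        have b2 : (y * (W.1 - W0.1)).degree < N := by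
          rw [degree_lt_iff_coeff_zero] at b1 ⊢
          intro p hp
          by_cases hp' : p < N + j
          · have e : y * (W.1 - W0.1) = y * (X ^ N + W.1) - y * (X ^ N + W0.1) := by ring
            rw [e, coeff_sub, hW p hp hp', h0 p hp hp', sub_self]
          · exact b1 p (by omega)
        rw [mem_ltF]
        by_cases hz : W.1 - W0.1 = 0
        · rw [hz, degree_zero]; exact WithBot.bot_lt_coe _
        · rw [← natDegree_lt_iff_degree_lt (mul_ne_zero hy hz), natDegree_mul hy hz] at b2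
          exact (natDegree_lt_iff_degree_lt hz).1 (by omega)
    rw [card_ltF, Nat.cast_pow] at this
    rw [div_le_div_iff₀ (by positivity) (by positivity), one_mul]
    refine (mul_le_mul_of_nonneg_right this (by positivity)).trans_eq ?_
    rw [← pow_add, Nat.sub_add_cancel h2]
  · push Not at h
    simp only [ind_neg (h _), Fintype.expect_const]
    exact div_nonneg (ind_nonneg _) (by positivity)

theorem count_y [CharP F 2] {G : F[X]} (hG : G.Monic) {j k s b : ℕ} (hs : 2 * s + k + 3 ≤ j)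
    (hb : b < k) : ∑ y : degreeLT F k, ind (y.1.degree < (b + 1 : ℕ) ∧ Bad G j b y.1) /
      (Fintype.card F : ℝ) ^ b ≤ 1 / (Fintype.card F : ℝ) ^ s := by
  classical
  have hq := card_pos' (F := F)
  have hq1 : (1 : ℝ) ≤ Fintype.card F := one_le_two.trans two_le_card
  rw [← Finset.sum_div]
  by_cases h : j / 2 ≤ b
  · have h1 := card_ann hG (k := b + 1) (t₁ := (b + 1) / 2) (t₂ := j / 2) (by omega)
    have h2 : ∑ y ∈ ltF F k, ind (y.degree < (b + 1 : ℕ) ∧ Bad G j b y) ≤
        ∑ y ∈ ltF F (b + 1), ind (∀ t, (b + 1) / 2 ≤ t → t < j / 2 →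
          (y ^ 2 * G).coeff (2 * t + G.natDegree) = 0) := by
      refine le_trans (Finset.sum_le_sum fun y _ => ?_) ((Finset.sum_ite_mem _ _ _).trans_le
        (Finset.sum_le_sum_of_subset_of_nonneg (inter_subset_right (s₁ := ltF F k))
          fun _ _ _ => ind_nonneg _))
      split_ifs with hy
      · exact ind_mono fun h => h.2.2
      · exact (ind_neg fun h => hy (mem_ltF.2 h.1)).le
    rw [sum_LT, sum_LT] at h2
    refine (div_le_div_of_nonneg_right (h2.trans h1) (by positivity)).trans ?_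
    rw [div_div, div_le_div_iff₀ (by positivity) (by positivity), one_mul, ← pow_add, ← pow_add]
    exact pow_le_pow_right₀ hq1 (by omega)
  · simp only [ind_neg fun h' : _ ∧ Bad G j b _ => h h'.2.1, Finset.sum_const_zero, zero_div]
    positivity

end SEquiB

open SEquiB in
theorem equi_b [CharP F 2] {n j N l k s : ℕ} {f A : F[X]} (hf : f.Monic) (hn : f.natDegree = n)
    (hA : A.Monic) (hj : j ≤ n) (hN : n - j + A.natDegree = 2 * N + 1) (hk : l + k = N)
    (ha : A.natDegree ≤ 2 * l) (hs : 2 * s + k + 3 ≤ j) (v : F[X] → ℝ)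
    (hv : ∀ W, 0 ≤ v W ∧ v W ≤ 1) :
    𝔼 m : degreeLT F j, 𝔼 z : degreeLT F l, v (od (f /ₘ (X ^ j + m.1) * A) + z.1) ≤
      𝔼 W : degreeLT F N, v (X ^ N + W.1) + k / (Fintype.card F : ℝ) ^ s := by
  classical
  have hq := card_pos' (F := F)
  have hG := hA.mul hf
  have hG' : (A * f).natDegree = 2 * N + 1 + j := by rw [hA.natDegree_mul hf]; omega
  have h1 : ∀ m : degreeLT F j, (od (f /ₘ (X ^ j + m.1) * A)).Monic ∧
      (od (f /ₘ (X ^ j + m.1) * A)).natDegree = N := fun m => by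
    obtain ⟨m1, m2⟩ := monic_add_LT m
    generalize X ^ j + m.1 = M at m1 m2
    have d0 : (f /ₘ M).natDegree = n - j := by rw [natDegree_divByMonic _ m1, hn, m2]
    have d1 : (f /ₘ M).Monic := by
      have := leadingCoeff_divByMonic_of_monic m1 (p := f) (by
        rw [degree_eq_natDegree m1.ne_zero, degree_eq_natDegree hf.ne_zero, hn, m2]
        exact_mod_cast hj)
      rw [Monic, this, hf.leadingCoeff]
    exact monic_od (d1.mul hA) (by rw [d1.natDegree_mul hA, d0, hN])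
  refine (Finset.expect_le_expect fun m _ =>
    step1 hk (h1 m).1 (h1 m).2 v fun W => (hv W).1).trans ?_
  rw [Finset.expect_comm]
  have h2 : ∀ W : degreeLT F N, 𝔼 m : degreeLT F j, v (X ^ N + W.1) * ((Fintype.card F : ℝ) ^ k *
      ind (degree (X ^ N + W.1 + od (f /ₘ (X ^ j + m.1) * A)) < l)) ≤ v (X ^ N + W.1) +
      ∑ y ∈ (univ : Finset (degreeLT F k)).erase 0, ind (Ann (A * f) N j (X ^ N + W.1) y.1) := by
    intro W
    rw [← Finset.mul_expect, ← Finset.mul_expect]
    refine (mul_le_mul_of_nonneg_left (step2 hf hn hA hj hN hk ha (monic_add_LT W).1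
      (monic_add_LT W).2) (hv _).1).trans ?_
    rw [← Finset.add_sum_erase _ _ (mem_univ 0), mul_add]
    exact add_le_add (mul_le_of_le_one_right (hv _).1 (ind_le_one _))
      (mul_le_of_le_one_left (Finset.sum_nonneg fun _ _ => ind_nonneg _) (hv _).2)
  refine (Finset.expect_le_expect fun W _ => h2 W).trans ?_
  rw [Finset.expect_add_distrib, Finset.expect_sum_comm]
  refine add_le_add le_rfl ?_
  have h3 : ∀ y ∈ (univ : Finset (degreeLT F k)).erase 0,
      𝔼 W : degreeLT F N, ind (Ann (A * f) N j (X ^ N + W.1) y.1) ≤ ∑ b ∈ range k,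
        ind (y.1.degree < (b + 1 : ℕ) ∧ Bad (A * f) j b y.1) / (Fintype.card F : ℝ) ^ b := by
    intro y hy
    have y0 : y.1 ≠ 0 := fun e => (mem_erase.1 hy).1 (Subtype.ext e)
    have y1 : y.1.natDegree < k := (natDegree_lt_iff_degree_lt y0).2 (mem_degreeLT.1 y.2)
    refine (count_W hG hG' y0 (by omega) (by omega)).trans (le_trans ?_ (Finset.single_le_sum
      (f := fun b => ind (y.1.degree < (b + 1 : ℕ) ∧ Bad (A * f) j b y.1) /
        (Fintype.card F : ℝ) ^ b)
      (fun b _ => div_nonneg (ind_nonneg _) (by positivity)) (mem_range.2 y1)))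
    exact div_le_div_of_nonneg_right (ind_mono fun h =>
      ⟨(natDegree_lt_iff_degree_lt y0).1 (Nat.lt_succ_self _), h⟩) (by positivity)
  refine (Finset.sum_le_sum h3).trans ((Finset.sum_le_sum_of_subset_of_nonneg (erase_subset _ _)
    fun _ _ _ => Finset.sum_nonneg fun _ _ => div_nonneg (ind_nonneg _) (by positivity)).trans ?_)
  rw [Finset.sum_comm]
  refine (Finset.sum_le_sum fun b hb => count_y hG hs (mem_range.1 hb)).trans_eq ?_
  rw [Finset.sum_const, card_range, nsmul_eq_mul, mul_one_div]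

end Pool.Agent.MP_c853c5_nt

end

section

set_option autoImplicit false

namespace Pool.Agent.MP_c853c5_nt

open Polynomial Finset Pool.Agent.MP_4fffd4_nt
open scoped BigOperators

variable {F : Type*} [Field F] [Fintype F]

namespace SPsi

open Classical in
theorem sum_ind_mul {α : Type*} (s : Finset α) (p : α → Prop) (φ : α → ℝ) :
    ∑ x ∈ s, ind (p x) * φ x = ∑ x ∈ s.filter p, φ x := by
  rw [Finset.sum_filter]
  refine Finset.sum_congr rfl fun x _ => ?_
  by_cases h : p x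
  · rw [ind_pos h, if_pos h, one_mul]
  · rw [ind_neg h, if_neg h, zero_mul]

theorem ind_congr {P Q : Prop} (h : P ↔ Q) : ind P = ind Q := by rw [propext h]

theorem sum_LT (n : ℕ) (G : F[X] → ℝ) : ∑ y : degreeLT F n, G y.1 = ∑ g ∈ ltF F n, G g := by
  rw [ltF, Finset.sum_map]
  rfl

theorem sum_divs_lt {m : F[X]} (hm : m ≠ 0) (V : ℕ) (φ : F[X] → ℝ) :
    ∑ e ∈ divs m, ind (e.natDegree < V) * φ e =
      ∑ v ∈ range V, ∑ e ∈ monF F v, ind (e ∣ m) * φ e := by
  classical
  have h1 : ∀ v, ∑ e ∈ monF F v, ind (e ∣ m) * φ e =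
      ∑ e ∈ divs m, ind (e.natDegree = v) * φ e := by
    intro v
    rw [sum_ind_mul, sum_ind_mul]
    refine Finset.sum_congr ?_ fun _ _ => rfl
    ext e
    simp only [mem_filter, mem_monF, mem_divs hm]
    tauto
  simp only [h1]
  rw [Finset.sum_comm]
  refine Finset.sum_congr rfl fun e _ => ?_
  rw [← Finset.sum_mul]
  congr 1
  by_cases h : e.natDegree < V
  · rw [ind_pos h, Finset.sum_eq_single e.natDegree, ind_pos rfl]
    · exact fun b _ hb => ind_neg fun h' => hb h'.symm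
    · exact fun h' => absurd (mem_range.2 h) h'
  · rw [ind_neg h]
    refine (Finset.sum_eq_zero fun v hv => ind_neg fun h' => h ?_).symm
    rw [h']
    exact mem_range.1 hv

theorem sum_divs {m : F[X]} (hm : m ≠ 0) (φ : F[X] → ℝ) :
    ∑ e ∈ divs m, φ e =
      ∑ v ∈ range (m.natDegree + 1), ∑ e ∈ monF F v, ind (e ∣ m) * φ e := by
  rw [← sum_divs_lt hm]
  refine Finset.sum_congr rfl fun e he => ?_
  rw [ind_pos (Nat.lt_succ_of_le (natDegree_le_of_dvd ((mem_divs hm).1 he).2 hm)), one_mul]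

omit [Fintype F] in
theorem monic_div {g d : F[X]} (hg : g.Monic) (hd : d.Monic) (h : d ∣ g) : (g /ₘ d).Monic := by
  obtain ⟨c, rfl⟩ := h
  rw [mul_divByMonic_cancel_left _ hd]
  exact hd.of_mul_monic_left hg

omit [Fintype F] in
theorem dvd_div_iff {g d e : F[X]} (hd : d.Monic) : d ∣ g ∧ e ∣ g /ₘ d ↔ d * e ∣ g := by
  constructor
  · rintro ⟨⟨c, rfl⟩, h⟩
    rw [mul_divByMonic_cancel_left _ hd] at h
    exact mul_dvd_mul_left d h
  · rintro ⟨c, rfl⟩
    rw [mul_assoc, mul_divByMonic_cancel_left _ hd]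
    exact ⟨dvd_mul_right _ _, dvd_mul_right _ _⟩

theorem sum_pairs {g : F[X]} (hg : g.Monic) (φ : F[X] → F[X] → ℝ) :
    ∑ d ∈ divs g, ∑ e ∈ divs (g /ₘ d), φ d e = ∑ e ∈ divs g, ∑ d ∈ divs (g /ₘ e), φ d e := by
  have key : ∀ d e : F[X], d ∈ divs g ∧ e ∈ divs (g /ₘ d) ↔ d.Monic ∧ e.Monic ∧ d * e ∣ g := by
    intro d e
    rw [mem_divs hg.ne_zero]
    constructor
    · rintro ⟨⟨h1, h2⟩, h3⟩
      rw [mem_divs (monic_div hg h1 h2).ne_zero] at h3
      exact ⟨h1, h3.1, (dvd_div_iff h1).1 ⟨h2, h3.2⟩⟩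
    · rintro ⟨h1, h2, h3⟩
      obtain ⟨h4, h5⟩ := (dvd_div_iff h1).2 h3
      exact ⟨⟨h1, h4⟩, (mem_divs (monic_div hg h1 h4).ne_zero).2 ⟨h2, h5⟩⟩
  refine Finset.sum_comm' fun d e => ?_
  rw [key, and_comm (a := d ∈ divs (g /ₘ e)), key, mul_comm e d]
  tauto

/-- The large part of the degree. -/
noncomputable def gg (V : ℕ) (m : F[X]) : ℝ := ∑ e ∈ divs m, ind (V ≤ e.natDegree) * vm e

theorem gg_nonneg (V : ℕ) (m : F[X]) : 0 ≤ gg V m :=
  Finset.sum_nonneg fun e _ => mul_nonneg (ind_nonneg _) (vm_nonneg e)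

theorem gg_le (V : ℕ) {m : F[X]} (hm : m.Monic) : gg V m ≤ m.natDegree := by
  rw [← sum_vm_divs hm]
  exact Finset.sum_le_sum fun e _ => mul_le_of_le_one_left (vm_nonneg e) (ind_le_one _)

theorem gg_eq_zero {V : ℕ} {m : F[X]} (hm : m.Monic) (h : m.natDegree < V) : gg V m = 0 := by
  refine Finset.sum_eq_zero fun e he => ?_
  have := natDegree_le_of_dvd ((mem_divs hm.ne_zero).1 he).2 hm.ne_zero
  rw [ind_neg (by omega), zero_mul]

theorem gg_eq (V : ℕ) {m : F[X]} (hm : m.Monic) :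
    gg V m = m.natDegree - ∑ v ∈ range V, ∑ e ∈ monF F v, ind (e ∣ m) * vm e := by
  rw [← sum_divs_lt hm.ne_zero, ← sum_vm_divs hm, ← Finset.sum_sub_distrib]
  refine Finset.sum_congr rfl fun e _ => ?_
  by_cases h : V ≤ e.natDegree
  · rw [ind_pos h, ind_neg (by omega)]; ring
  · rw [ind_neg h, ind_pos (by omega)]; ring

theorem vm_eq {V : ℕ} {g : F[X]} (hg : g.Monic) (h : V ≤ g.natDegree) :
    vm g = ∑ i ∈ range (g.natDegree + 1), ∑ d ∈ monF F i,
      ind (d ∣ g) * (mu d * gg V (g /ₘ d)) := by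
  rw [← sum_divs hg.ne_zero fun d => mu d * gg V (g /ₘ d)]
  simp only [gg, Finset.mul_sum]
  rw [sum_pairs hg fun d e => mu d * (ind (V ≤ e.natDegree) * vm e)]
  simp only [← Finset.sum_mul]
  rw [Finset.sum_eq_single g]
  · have : g /ₘ g = 1 := by
      have := mul_divByMonic_cancel_left (1 : F[X]) hg
      rwa [mul_one] at this
    rw [this, sum_mu_divs monic_one, ind_pos rfl, ind_pos h, one_mul, one_mul]
  · intro e he hne
    obtain ⟨h1, h2⟩ := (mem_divs hg.ne_zero).1 he
    rw [sum_mu_divs (monic_div hg h1 h2), ind_neg, zero_mul]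
    intro h3
    obtain ⟨c, rfl⟩ := h2
    rw [mul_divByMonic_cancel_left _ h1] at h3
    exact hne (by rw [h3, mul_one])
  · exact fun h' => absurd ((mem_divs hg.ne_zero).2 ⟨hg, dvd_rfl⟩) h'

/-- Multiples of `m` in a short interval. -/
theorem sum_mult {h : ℕ} (f : F[X]) {m : F[X]} (hm : m.Monic) (hj : m.natDegree ≤ h)
    (G : F[X] → ℝ) :
    ∑ y : degreeLT F h, ind (m ∣ f + y.1) * G ((f + y.1) /ₘ m) =
      ∑ g : degreeLT F (h - m.natDegree), G (f /ₘ m + g.1) := by
  classical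
  rw [sum_LT h fun y => ind (m ∣ f + y) * G ((f + y) /ₘ m),
    sum_LT (h - m.natDegree) fun g => G (f /ₘ m + g), sum_ind_mul]
  have e1 : ∀ g : F[X], f + (m * g - f %ₘ m) = m * (f /ₘ m + g) := by
    intro g
    have := modByMonic_add_div f m
    linear_combination -this
  have hr : (f %ₘ m).degree < h :=
    (degree_modByMonic_lt f hm).trans_le (by
      rw [degree_eq_natDegree hm.ne_zero]; exact_mod_cast hj)
  refine Finset.sum_bij' (fun y _ => (f + y) /ₘ m - f /ₘ m) (fun g _ => m * g - f %ₘ m)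
    ?_ ?_ ?_ ?_ ?_
  · intro y hy
    obtain ⟨h1, k, hk⟩ := mem_filter.1 hy
    rw [mem_ltF] at h1 ⊢
    rw [hk, mul_divByMonic_cancel_left _ hm]
    have e2 : m * (k - f /ₘ m) = y + f %ₘ m := by
      have := modByMonic_add_div f m
      linear_combination -hk - this
    have h3 : (m * (k - f /ₘ m)).degree < h := by
      rw [e2]
      exact (degree_add_le _ _).trans_lt (max_lt h1 hr)
    by_cases h0 : k - f /ₘ m = 0
    · rw [h0, degree_zero]; exact WithBot.bot_lt_coe _
    rw [← natDegree_lt_iff_degree_lt (mul_ne_zero hm.ne_zero h0), hm.natDegree_mul' h0] at h3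
    rw [← natDegree_lt_iff_degree_lt h0]
    omega
  · intro g hg
    rw [mem_ltF] at hg
    rw [mem_filter, mem_ltF, e1]
    refine ⟨(degree_sub_le _ _).trans_lt (max_lt ?_ hr), dvd_mul_right _ _⟩
    by_cases h0 : g = 0
    · rw [h0, mul_zero, degree_zero]; exact WithBot.bot_lt_coe _
    rw [← natDegree_lt_iff_degree_lt h0] at hg
    rw [← natDegree_lt_iff_degree_lt (mul_ne_zero hm.ne_zero h0), hm.natDegree_mul' h0]
    omega
  · intro y hy
    obtain ⟨_, k, hk⟩ := mem_filter.1 hy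
    rw [hk, mul_divByMonic_cancel_left _ hm]
    have := modByMonic_add_div f m
    linear_combination -hk - this
  · intro g _
    rw [e1, mul_divByMonic_cancel_left _ hm, add_sub_cancel_left]
  · intro y _
    rw [add_sub_cancel]

theorem cnt_small {h : ℕ} (f : F[X]) {b : F[X]} (hb : b.Monic) (hj : b.natDegree ≤ h) :
    ∑ y : degreeLT F h, ind (b ∣ f + y.1) =
      (Fintype.card F : ℝ) ^ h / (Fintype.card F : ℝ) ^ b.natDegree := by
  have := sum_mult f hb hj fun _ => 1
  simp only [mul_one, Finset.sum_const, card_univ, card_degreeLT, nsmul_eq_mul] at this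
  rw [this, Nat.cast_pow, pow_sub₀ _ card_pos'.ne' hj, div_eq_mul_inv]

theorem cnt_large {h : ℕ} (f : F[X]) {b : F[X]} (hb : b.Monic) (hj : h ≤ b.natDegree) :
    ∑ y : degreeLT F h, ind (b ∣ f + y.1) = ind ((f %ₘ b).degree < h) := by
  have key : ∀ y : degreeLT F h, b ∣ f + y.1 ↔ y.1 = -(f %ₘ b) := by
    intro y
    have hy : y.1.degree < b.degree := (mem_degreeLT.1 y.2).trans_le (by
      rw [degree_eq_natDegree hb.ne_zero]; exact_mod_cast hj)
    rw [← modByMonic_eq_zero_iff_dvd hb, add_modByMonic, (modByMonic_eq_self_iff hb).2 hy,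
      add_comm, add_eq_zero_iff_eq_neg]
  simp only [key]
  by_cases h1 : (f %ₘ b).degree < h
  · rw [ind_pos h1, Finset.sum_eq_single ⟨-(f %ₘ b), mem_degreeLT.2 (by rwa [degree_neg])⟩,
      ind_pos rfl]
    · exact fun y _ hy => ind_neg fun h' => hy (Subtype.ext h')
    · exact fun h' => absurd (mem_univ _) h'
  · rw [ind_neg h1]
    refine Finset.sum_eq_zero fun y _ => ind_neg fun h' => h1 ?_
    rw [← degree_neg, ← h']
    exact mem_degreeLT.1 y.2

theorem sum_swap {g : F[X]} (hg : g.Monic) {i : ℕ} (hi : i ≤ g.natDegree)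
    (φ : F[X] → F[X] → ℝ) :
    ∑ d ∈ monF F i, ind (d ∣ g) * φ d (g /ₘ d) =
      ∑ m ∈ monF F (g.natDegree - i), ind (m ∣ g) * φ (g /ₘ m) m := by
  classical
  rw [sum_ind_mul, sum_ind_mul]
  have key : ∀ d : F[X], d.Monic → d ∣ g → g /ₘ d ∣ g ∧ g /ₘ (g /ₘ d) = d := by
    rintro d hd ⟨c, rfl⟩
    rw [mul_divByMonic_cancel_left _ hd]
    refine ⟨dvd_mul_left _ _, ?_⟩
    rw [mul_comm, mul_divByMonic_cancel_left _ (hd.of_mul_monic_left hg)]
  refine Finset.sum_bij' (fun d _ => g /ₘ d) (fun m _ => g /ₘ m) ?_ ?_ ?_ ?_ ?_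
  · intro d hd
    obtain ⟨h1, h2⟩ := mem_filter.1 hd
    obtain ⟨h3, h4⟩ := mem_monF.1 h1
    exact mem_filter.2 ⟨mem_monF.2 ⟨monic_div hg h3 h2, by rw [natDegree_divByMonic _ h3, h4]⟩,
      (key d h3 h2).1⟩
  · intro d hd
    obtain ⟨h1, h2⟩ := mem_filter.1 hd
    obtain ⟨h3, h4⟩ := mem_monF.1 h1
    exact mem_filter.2 ⟨mem_monF.2 ⟨monic_div hg h3 h2, by
      rw [natDegree_divByMonic _ h3, h4]; omega⟩, (key d h3 h2).1⟩
  · intro d hd
    obtain ⟨h1, h2⟩ := mem_filter.1 hd
    exact (key d (mem_monF.1 h1).1 h2).2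
  · intro d hd
    obtain ⟨h1, h2⟩ := mem_filter.1 hd
    exact (key d (mem_monF.1 h1).1 h2).2
  · intro d hd
    obtain ⟨h1, h2⟩ := mem_filter.1 hd
    rw [(key d (mem_monF.1 h1).1 h2).2]

omit [Fintype F] in
theorem monic_shift {n h : ℕ} {f : F[X]} (hf : f.Monic) (hn : f.natDegree = n) (hh : h ≤ n)
    (y : degreeLT F h) : (f + y.1).Monic ∧ (f + y.1).natDegree = n := by
  have hy : y.1.degree < f.degree := (mem_degreeLT.1 y.2).trans_le (by
    rw [degree_eq_natDegree hf.ne_zero, hn]; exact_mod_cast hh)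
  exact ⟨hf.add_of_left hy, by rw [natDegree_add_eq_left_of_degree_lt hy, hn]⟩

/-- The piece of the sum with Moebius variable of degree `i`. -/
noncomputable def piece (f : F[X]) (h V i : ℕ) : ℝ :=
  ∑ y : degreeLT F h, ∑ d ∈ monF F i, ind (d ∣ f + y.1) * (mu d * gg V ((f + y.1) /ₘ d))

/-- The type one sums. -/
noncomputable def XX (f : F[X]) (h i : ℕ) (c : F[X]) : ℝ :=
  ∑ d ∈ monF F i, mu d * ∑ y : degreeLT F h, ind (d * c ∣ f + y.1)

theorem piece_small {n h V i : ℕ} {f : F[X]} (hf : f.Monic) (hn : f.natDegree = n) (hh : h ≤ n)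
    (hi : i ≤ n) : piece f h V i =
      ((n : ℝ) - i) * XX f h i 1 - ∑ v ∈ range V, ∑ e ∈ monF F v, vm e * XX f h i e := by
  have key : ∀ (y : degreeLT F h), ∀ d ∈ monF F i,
      ind (d ∣ f + y.1) * (mu d * gg V ((f + y.1) /ₘ d)) =
        ((n : ℝ) - i) * (mu d * ind (d * 1 ∣ f + y.1)) -
          ∑ v ∈ range V, ∑ e ∈ monF F v, vm e * (mu d * ind (d * e ∣ f + y.1)) := by
    intro y d hd
    obtain ⟨h1, h2⟩ := mem_monF.1 hd
    obtain ⟨h3, h4⟩ := monic_shift hf hn hh y
    rw [mul_one]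
    by_cases h5 : d ∣ f + y.1
    · rw [ind_pos h5, gg_eq V (monic_div h3 h1 h5), natDegree_divByMonic _ h1, h2, h4,
        Nat.cast_sub hi, one_mul, mul_sub, Finset.mul_sum]
      congr 1
      · ring
      refine Finset.sum_congr rfl fun v _ => ?_
      rw [Finset.mul_sum]
      refine Finset.sum_congr rfl fun e _ => ?_
      rw [ind_congr (P := d * e ∣ f + y.1) (Q := e ∣ (f + y.1) /ₘ d)
        ⟨fun h => ((dvd_div_iff h1).2 h).2, fun h => (dvd_div_iff h1).1 ⟨h5, h⟩⟩]
      ring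
    · rw [ind_neg h5, Finset.sum_eq_zero]
      · ring
      refine fun v _ => Finset.sum_eq_zero fun e _ => ?_
      rw [ind_neg fun h => h5 ((dvd_mul_right _ _).trans h)]
      ring
  unfold piece XX
  rw [Finset.sum_congr rfl fun y _ => Finset.sum_congr rfl (key y), Finset.sum_comm]
  simp only [Finset.sum_sub_distrib, Finset.mul_sum]
  congr 1
  rw [Finset.sum_congr rfl fun d _ => Finset.sum_comm, Finset.sum_comm]
  refine Finset.sum_congr rfl fun v _ => ?_
  rw [Finset.sum_congr rfl fun d _ => Finset.sum_comm, Finset.sum_comm]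

theorem XX_bound {h V t i : ℕ} {f : F[X]} (hV : V + 1 ≤ h) {E₁ : ℝ} (hE₁ : 0 ≤ E₁)
    (H1 : ∀ i, i ≤ h + t → ∀ c : F[X], c.Monic → c.natDegree ≤ V → h < i + c.natDegree →
      |∑ d ∈ monF F i, mu d * ind ((f %ₘ (d * c)).degree < h)| ≤ E₁)
    (hi : i ≤ h + t) {c : F[X]} (hc : c.Monic) (hcV : c.natDegree ≤ V) :
    |XX f h i c - (∑ d ∈ monF F i, mu d) * ((Fintype.card F : ℝ) ^ h /
      (Fintype.card F : ℝ) ^ (i + c.natDegree))| ≤ E₁ := by
  have hdeg : ∀ d ∈ monF F i, (d * c).Monic ∧ (d * c).natDegree = i + c.natDegree := by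
    intro d hd
    obtain ⟨h1, h2⟩ := mem_monF.1 hd
    exact ⟨h1.mul hc, by rw [h1.natDegree_mul hc, h2]⟩
  by_cases h1 : i + c.natDegree ≤ h
  · rw [XX, Finset.sum_mul, ← Finset.sum_sub_distrib, Finset.sum_eq_zero, abs_zero]
    · exact hE₁
    intro d hd
    rw [cnt_small f (hdeg d hd).1 (by rw [(hdeg d hd).2]; exact h1), (hdeg d hd).2, sub_self]
  · rw [sum_mu_monF, if_neg (by omega), if_neg (by omega), zero_mul, sub_zero, XX,
      Finset.sum_congr rfl fun d hd => by
        rw [cnt_large f (hdeg d hd).1 (by rw [(hdeg d hd).2]; omega)]]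
    exact H1 i hi c hc hcV (by omega)

theorem sum_vm_lt (V : ℕ) :
    ∑ v ∈ range V, ∑ e ∈ monF F v, vm e ≤ (Fintype.card F : ℝ) ^ V := by
  induction V with
  | zero => simp
  | succ V ih =>
    rw [Finset.sum_range_succ, pow_succ]
    have h1 := sum_vm_monF (F := F) V
    have h2 := two_le_card (F := F)
    have h3 : (0 : ℝ) < (Fintype.card F : ℝ) ^ V := pow_pos card_pos' V
    nlinarith

theorem piece_large {n h V t i : ℕ} {f : F[X]} (hf : f.Monic) (hn : f.natDegree = n) (hh : h ≤ n)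
    (h2 : n ≤ 2 * h + t) {E₂ : ℝ} (hE₂ : 0 ≤ E₂)
    (H2 : ∀ j, V ≤ j → j + h + t < n →
      ∑ m ∈ monF F j, |∑ g : degreeLT F (h - j), mu (f /ₘ m + g.1)| ≤ E₂)
    (hi : h + t < i) (hin : i ≤ n) : |piece f h V i| ≤ n * E₂ := by
  have e1 : piece f h V i =
      ∑ m ∈ monF F (n - i), gg V m * ∑ g : degreeLT F (h - (n - i)), mu (f /ₘ m + g.1) := by
    unfold piece
    have : ∀ y : degreeLT F h,
        ∑ d ∈ monF F i, ind (d ∣ f + y.1) * (mu d * gg V ((f + y.1) /ₘ d)) =
          ∑ m ∈ monF F (n - i), ind (m ∣ f + y.1) * (mu ((f + y.1) /ₘ m) * gg V m) := by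
      intro y
      obtain ⟨h3, h4⟩ := monic_shift hf hn hh y
      rw [sum_swap h3 (by omega) fun d m => mu d * gg V m, h4]
    simp only [this]
    rw [Finset.sum_comm]
    refine Finset.sum_congr rfl fun m hm => ?_
    obtain ⟨h3, h4⟩ := mem_monF.1 hm
    rw [sum_mult f h3 (by omega) fun d => mu d * gg V m, h4, Finset.mul_sum]
    exact Finset.sum_congr rfl fun _ _ => mul_comm _ _
  rw [e1]
  by_cases hj : V ≤ n - i
  · refine (Finset.abs_sum_le_sum_abs _ _).trans (le_trans ?_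
      (mul_le_mul_of_nonneg_left (H2 (n - i) hj (by omega)) (Nat.cast_nonneg n)))
    rw [Finset.mul_sum]
    refine Finset.sum_le_sum fun m hm => ?_
    obtain ⟨h3, h4⟩ := mem_monF.1 hm
    rw [abs_mul, abs_of_nonneg (gg_nonneg V m)]
    refine mul_le_mul_of_nonneg_right ((gg_le V h3).trans ?_) (abs_nonneg _)
    rw [h4]
    exact_mod_cast Nat.sub_le n i
  · rw [Finset.sum_eq_zero, abs_zero]
    · positivity
    intro m hm
    obtain ⟨h3, h4⟩ := mem_monF.1 hm
    rw [gg_eq_zero h3 (by omega), zero_mul]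

end SPsi

open SPsi in
theorem psi_bound {n h V t : ℕ} {f : F[X]} (hf : f.Monic) (hn : f.natDegree = n) (hV : V + 1 ≤ h)
    (h1 : h + t + V ≤ n) (h2 : n ≤ 2 * h + t) {E₁ E₂ : ℝ} (hE₁ : 0 ≤ E₁) (hE₂ : 0 ≤ E₂)
    (H1 : ∀ i, i ≤ h + t → ∀ c : F[X], c.Monic → c.natDegree ≤ V → h < i + c.natDegree →
      |∑ d ∈ monF F i, mu d * ind ((f %ₘ (d * c)).degree < h)| ≤ E₁)
    (H2 : ∀ j, V ≤ j → j + h + t < n →
      ∑ m ∈ monF F j, |∑ g : degreeLT F (h - j), mu (f /ₘ m + g.1)| ≤ E₂) :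
    |∑ y : degreeLT F h, vm (f + y.1) - (Fintype.card F : ℝ) ^ h| ≤
      (n + 1) * ((n + 2 * (Fintype.card F : ℝ) ^ V) * E₁ + n * E₂) := by
  have hh : h ≤ n := by omega
  have hq := card_pos' (F := F)
  set q : ℝ := (Fintype.card F : ℝ) with hqdef
  set S : ℝ := ∑ v ∈ range V, ∑ e ∈ monF F v, vm e / q ^ v with hS
  set T : ℕ → ℝ := fun i => (∑ d ∈ monF F i, mu d) * (q ^ h / q ^ i) * ((n : ℝ) - i - S) with hT
  have e1 : ∑ y : degreeLT F h, vm (f + y.1) = ∑ i ∈ range (n + 1), piece f h V i := by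
    unfold piece
    rw [Finset.sum_comm]
    refine Finset.sum_congr rfl fun y _ => ?_
    obtain ⟨h3, h4⟩ := monic_shift hf hn hh y
    rw [vm_eq (V := V) h3 (by omega), h4]
  have e2 : ∑ i ∈ range (n + 1), T i = q ^ h := by
    obtain ⟨k, rfl⟩ : ∃ k, n = k + 1 := ⟨n - 1, by omega⟩
    rw [Finset.sum_range_succ', Finset.sum_range_succ', Finset.sum_eq_zero]
    · simp only [hT, sum_mu_monF, ← hqdef]
      norm_num
      field_simp
      ring
    · intro i _
      simp only [hT, sum_mu_monF]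
      rw [if_neg (by omega), if_neg (by omega), zero_mul, zero_mul]
  have hqV : 0 ≤ q ^ V := (pow_pos hq V).le
  have e3 : ∀ i ∈ range (n + 1), |piece f h V i - T i| ≤ (n + 2 * q ^ V) * E₁ + n * E₂ := by
    intro i hi
    have hin : i ≤ n := Nat.lt_succ_iff.1 (mem_range.1 hi)
    have hn0 : (0 : ℝ) ≤ n := Nat.cast_nonneg n
    by_cases hi' : i ≤ h + t
    · set M : ℝ := ∑ d ∈ monF F i, mu d with hM
      have e4 : piece f h V i - T i = ((n : ℝ) - i) * (XX f h i 1 - M * (q ^ h / q ^ (i + 0))) -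
          ∑ v ∈ range V, ∑ e ∈ monF F v, vm e * (XX f h i e - M * (q ^ h / q ^ (i + v))) := by
        rw [piece_small hf hn hh hin]
        have : ∑ v ∈ range V, ∑ e ∈ monF F v, vm e * (XX f h i e - M * (q ^ h / q ^ (i + v))) =
            ∑ v ∈ range V, ∑ e ∈ monF F v, vm e * XX f h i e - M * (q ^ h / q ^ i) * S := by
          rw [hS, Finset.mul_sum, ← Finset.sum_sub_distrib]
          refine Finset.sum_congr rfl fun v _ => ?_
          rw [Finset.mul_sum, ← Finset.sum_sub_distrib]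
          refine Finset.sum_congr rfl fun e _ => ?_
          rw [pow_add]
          field_simp
        rw [this]
        simp only [hT, ← hM, add_zero]
        ring
      have b1 : |XX f h i 1 - M * (q ^ h / q ^ (i + 0))| ≤ E₁ := by
        have := XX_bound hV hE₁ H1 hi' (monic_one (R := F)) (by simp)
        rwa [natDegree_one] at this
      have b2 : |∑ v ∈ range V, ∑ e ∈ monF F v,
          vm e * (XX f h i e - M * (q ^ h / q ^ (i + v)))| ≤ q ^ V * E₁ := by
        refine (Finset.abs_sum_le_sum_abs _ _).trans (le_trans ?_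
          (mul_le_mul_of_nonneg_right (sum_vm_lt (F := F) V) hE₁))
        rw [Finset.sum_mul]
        refine Finset.sum_le_sum fun v hv => ?_
        rw [Finset.sum_mul (monF F v) vm E₁]
        refine (Finset.abs_sum_le_sum_abs _ _).trans (Finset.sum_le_sum fun e he => ?_)
        obtain ⟨h3, h4⟩ := mem_monF.1 he
        have := XX_bound hV hE₁ H1 hi' h3 (by have := mem_range.1 hv; omega)
        rw [h4] at this
        rw [abs_mul, abs_of_nonneg (vm_nonneg e)]
        exact mul_le_mul_of_nonneg_left this (vm_nonneg e)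
      have b3 : (0 : ℝ) ≤ (n : ℝ) - i := sub_nonneg.2 (by exact_mod_cast hin)
      have b4 : (n : ℝ) - i ≤ n := sub_le_self _ (Nat.cast_nonneg i)
      rw [e4]
      refine (abs_sub _ _).trans ?_
      rw [abs_mul, abs_of_nonneg b3]
      have b5 := mul_le_mul b4 b1 (abs_nonneg _) hn0
      have b6 := mul_nonneg hqV hE₁
      have b7 := mul_nonneg hn0 hE₂
      nlinarith
    · have : T i = 0 := by
        simp only [hT, sum_mu_monF]
        rw [if_neg (by omega), if_neg (by omega), zero_mul, zero_mul]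
      rw [this, sub_zero]
      have b1 := piece_large hf hn hh h2 hE₂ H2 (not_le.1 hi') hin
      have b2 : 0 ≤ (n + 2 * q ^ V) * E₁ := by positivity
      linarith
  rw [e1, ← e2, ← Finset.sum_sub_distrib]
  refine (Finset.abs_sum_le_sum_abs _ _).trans ((Finset.sum_le_sum e3).trans_eq ?_)
  rw [Finset.sum_const, card_range, nsmul_eq_mul, Nat.cast_succ]

end Pool.Agent.MP_c853c5_nt

end
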