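import Mathlib
import Pool.Agent.Mg.F43e117.G3ec2aa
import Pool.Agent.Mg.F43e117.Gf6882d

/- The Moebius function in short intervals, on average over two kinds of families. -/

set_option autoImplicit false

namespace Pool.Agent.MP_c853c5_nt

open Polynomial Finset Pool.Agent.MP_4fffd4_nt
open scoped BigOperators

namespace SMu

variable {F : Type*} [Field F]

/-- The directions of the lines. -/
noncomputable def fam (k : ℕ) (A₂ A₁ y : F[X]) : F[X] := (X ^ k + y) ^ 2 * A₂ + A₁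

theorem fam_monic {k : ℕ} {A₂ A₁ : F[X]} (h₂ : A₂.Monic) (h₁ : A₁.degree < A₂.degree)
    (y : degreeLT F k) :
    (fam k A₂ A₁ y.1).Monic ∧ (fam k A₂ A₁ y.1).natDegree = A₂.natDegree + 2 * k := by
  obtain ⟨h3, h4⟩ := monic_add_LT y
  have h5 : ((X ^ k + y.1) ^ 2 * A₂).natDegree = A₂.natDegree + 2 * k := by
    rw [(h3.pow 2).natDegree_mul h₂, natDegree_pow, h4, add_comm]
  have h6 : A₁.degree < ((X ^ k + y.1) ^ 2 * A₂).degree := by
    rw [degree_eq_natDegree ((h3.pow 2).mul h₂).ne_zero, h5]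
    exact h₁.trans_le (degree_le_natDegree.trans (by exact_mod_cast Nat.le_add_right _ _))
  exact ⟨((h3.pow 2).mul h₂).add_of_left h6, (natDegree_add_eq_left_of_degree_lt h6).trans h5⟩

variable [Fintype F] [CharP F 2]

theorem od_fam {k : ℕ} {A₂ A₁ : F[X]} (h : od (A₁ * A₂) = 1) (y : F[X]) :
    od (fam k A₂ A₁ y * A₂) = 1 := by
  rw [show fam k A₂ A₁ y * A₂ = ((X ^ k + y) * A₂) ^ 2 + A₁ * A₂ by rw [fam]; ring, od_add,
    od_of_sq, h, zero_add]

theorem od_fam_fam {k : ℕ} {A₂ A₁ : F[X]} (h : od (A₁ * A₂) = 1) (y y' : F[X]) :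
    od (fam k A₂ A₁ y * fam k A₂ A₁ y') = y + y' := by
  have h2 : (2 : F[X]) = 0 := by exact_mod_cast CharP.cast_eq_zero F[X] 2
  rw [show fam k A₂ A₁ y * fam k A₂ A₁ y' = ((X ^ k + y) * (X ^ k + y') * A₂) ^ 2 +
    (X ^ k + y) ^ 2 * (A₁ * A₂) + (X ^ k + y') ^ 2 * (A₁ * A₂) + A₁ ^ 2 by simp only [fam]; ring,
    od_add, od_add, od_add, od_of_sq, od_of_sq, od_sq_mul, od_sq_mul, h]
  linear_combination X ^ k * h2

/-- The deviation of the weight on a short progression. -/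
noncomputable def vv (L : ℕ) (w : F[X] → ℝ) (ρ : ℝ) (Δ W : F[X]) : ℝ :=
  |𝔼 x : degreeLT F L, w (W + Δ * x.1) - ρ|

variable {N L κ : ℕ} {w : F[X] → ℝ} {ρ : ℝ}

theorem vv_01 (hp : Pack N L κ w ρ) (Δ W : F[X]) : 0 ≤ vv L w ρ Δ W ∧ vv L w ρ Δ W ≤ 1 := by
  have hq := card_pos' (F := F)
  have h1 : 0 ≤ 𝔼 x : degreeLT F L, w (W + Δ * x.1) :=
    Finset.expect_nonneg fun _ _ => (hp.w01 _).1
  have h2 : 𝔼 x : degreeLT F L, w (W + Δ * x.1) ≤ 1 :=
    Finset.expect_le univ_nonempty fun _ _ => (hp.w01 _).2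
  have h3 : 0 ≤ ρ := le_trans (by positivity) hp.ge
  exact ⟨abs_nonneg _, abs_le.2 ⟨by linarith [hp.le], by linarith⟩⟩

omit [Fintype F] in
theorem ne_data {k : ℕ} {y y' : degreeLT F k} (h : y ≠ y') :
    y.1 + y'.1 ≠ 0 ∧ (y.1 + y'.1).natDegree ≤ k := by
  have h1 : y.1 + y'.1 ≠ 0 := fun e => h (Subtype.ext (CharTwo.add_eq_zero.1 e))
  exact ⟨h1, ((natDegree_lt_iff_degree_lt h1).2 (mem_degreeLT.1 (y + y').2)).le⟩

theorem vv_sq (hp : Pack N L κ w ρ) {y y' : degreeLT F (6 * κ)} (h : y ≠ y') :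
    𝔼 τ : degreeLT F N, vv L w ρ (y.1 + y'.1) (X ^ N + τ.1) ^ 2 ≤
      1 / (Fintype.card F : ℝ) ^ (40 * κ) := by
  simp only [vv, sq_abs]
  exact hp.var _ (ne_data h).1 (ne_data h).2

theorem vv_le (hp : Pack N L κ w ρ) {y y' : degreeLT F (6 * κ)} (h : y ≠ y') :
    𝔼 τ : degreeLT F N, vv L w ρ (y.1 + y'.1) (X ^ N + τ.1) ≤
      1 / (Fintype.card F : ℝ) ^ (20 * κ) := by
  have hq := card_pos' (F := F)
  refine le_of_sq_le_sq₀' ((sq_expect_le _).trans ((vv_sq hp h).trans_eq ?_))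
  rw [one_div_pow, ← pow_mul, show 20 * κ * 2 = 40 * κ by ring]
where
  le_of_sq_le_sq₀' {a : ℝ} {b : ℕ} (h : a ^ 2 ≤ (1 / (Fintype.card F : ℝ) ^ b) ^ 2) :
      a ≤ 1 / (Fintype.card F : ℝ) ^ b :=
    (abs_le_of_sq_le_sq' h (by positivity)).2

theorem box_pack (hp : Pack N L κ w ρ) {A₂ A₁ F₀ : F[X]} {a l : ℕ} (h₂ : A₂.Monic)
    (h₁ : A₁.degree < A₂.degree) (h : od (A₁ * A₂) = 1) (ha : A₂.natDegree + 2 * (6 * κ) = a)
    (hF : F₀.Monic) (hN : F₀.natDegree + a = 2 * N + 1) (hl : l ≤ F₀.natDegree)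
    (hl' : a + 2 * L ≤ l) {ψ : F[X] → ℝ} (hψ : Sgn ψ) :
    |𝔼 g : degreeLT F l, mu (F₀ + g.1) * ψ g.1| ≤ 3 / (Fintype.card F : ℝ) ^ (2 * κ) +
      (Fintype.card F : ℝ) ^ (4 * κ) * 𝔼 y : degreeLT F (6 * κ), 𝔼 y' : degreeLT F (6 * κ),
        ind (y ≠ y') * 𝔼 z : degreeLT F ((l + a) / 2),
          vv L w ρ (y.1 + y'.1) (od (F₀ * fam (6 * κ) A₂ A₁ y'.1) + z.1) := by
  have hq := card_pos' (F := F)
  have h1 := box (fun y : degreeLT F (6 * κ) => fam (6 * κ) A₂ A₁ y.1) (fun _ => A₂)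
    (fun y y' => y.1 + y'.1) (a := a) (l := l) (L := L)
    (fun y => ⟨(fam_monic h₂ h₁ y).1, (fam_monic h₂ h₁ y).2.trans ha, od_fam h _⟩)
    (fun y y' => od_fam_fam h _ _) hl' (fun g => mu (F₀ + g) * ψ g) w
    (fun g => by rw [abs_mul, hψ.abs_eq, mul_one]; exact abs_mu_le _) hp.w01
    (le_trans (by positivity) hp.ge) hp.le (θ := 1 / (Fintype.card F : ℝ) ^ (3 * κ))
    (by positivity) F₀ fun y => hp.line _ A₂ F₀ l ψ (fam_monic h₂ h₁ y).1 (od_fam h _) hF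
      (by rw [(fam_monic h₂ h₁ y).2, ha, hN]) hl (by rw [(fam_monic h₂ h₁ y).2, ha]; exact hl') hψ
  have h2 := (mul_le_mul_of_nonneg_right hp.ge (abs_nonneg _)).trans h1
  rw [one_div_mul_eq_div, div_le_iff₀ (by positivity), card_degreeLT] at h2
  refine h2.trans_eq ?_
  simp only [vv]
  push_cast
  field_simp
  ring

omit [CharP F 2] in
theorem expect_mon {c : F[X]} (hc : c.Monic) (hN : c.natDegree = N) {z : F[X]} (hz : z.degree < N)
    (G : F[X] → ℝ) : 𝔼 W : degreeLT F N, G (c + W.1 + z) = 𝔼 W : degreeLT F N, G (X ^ N + W.1) := by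
  obtain ⟨y, hy⟩ : ∃ y : degreeLT F N, X ^ N + y.1 = c := by
    simpa [monF] using mem_monF.2 ⟨hc, hN⟩
  rw [← expect_shift (fun W : degreeLT F N => G (X ^ N + W.1)) (y + ⟨z, mem_degreeLT.2 hz⟩)]
  refine Finset.expect_congr rfl fun W _ => ?_
  rw [← hy, Submodule.coe_add, Submodule.coe_add]
  congr 1
  ring

omit [CharP F 2] in
theorem expect_ind_le' {Y : Type*} [Fintype Y] [Nonempty Y] (G : Y → Y → ℝ) {c : ℝ} (hc : 0 ≤ c)
    (h : ∀ y y', y ≠ y' → G y y' ≤ c) : 𝔼 y, 𝔼 y', ind (y ≠ y') * G y y' ≤ c := by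
  refine Finset.expect_le univ_nonempty fun y _ => Finset.expect_le univ_nonempty fun y' _ => ?_
  by_cases e : y ≠ y'
  · rw [ind_pos e, one_mul]; exact h y y' e
  · rwa [ind_neg e, zero_mul]

omit [CharP F 2] in
theorem fin_bound {κ : ℕ} (hκ : 3 ≤ κ) : 3 / (Fintype.card F : ℝ) ^ (2 * κ) +
    (Fintype.card F : ℝ) ^ (4 * κ) * (2 / (Fintype.card F : ℝ) ^ (6 * κ)) ≤
    1 / (Fintype.card F : ℝ) ^ κ := by
  have hq := card_pos' (F := F)
  have hq2 := two_le_card (F := F)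
  have h1 : (2 : ℝ) ^ 3 ≤ (Fintype.card F : ℝ) ^ κ :=
    (pow_le_pow_left₀ zero_le_two hq2 3).trans (pow_le_pow_right₀ (by linarith) hκ)
  calc _ = 5 / ((Fintype.card F : ℝ) ^ κ * (Fintype.card F : ℝ) ^ κ) := by
        field_simp; ring
    _ ≤ _ := by
        rw [div_le_div_iff₀ (by positivity) (by positivity), one_mul]
        gcongr
        linarith

omit [CharP F 2] in
theorem exists_irr {a : ℕ} (ha : 4 ≤ a) : (irrF F a).Nonempty := by
  have hq := card_pos' (F := F)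
  have : (0 : ℝ) < a := by exact_mod_cast (by omega)
  rw [← Finset.card_pos, ← Nat.cast_pos (α := ℝ)]
  exact lt_of_lt_of_le (by positivity) (card_irrF ha)

theorem long_of (hp : Pack N L κ w ρ) {i a l : ℕ} (hκ : 3 ≤ κ) (ha : 12 * κ + 4 ≤ a)
    (hN : i + a = 2 * N + 1) (hl : l ≤ i) (hl' : a + 2 * L ≤ l) (ψ : F[X] → F[X] → ℝ)
    (hψ : ∀ g, Sgn (ψ g)) :
    𝔼 g : degreeLT F i, |𝔼 y : degreeLT F l, mu (X ^ i + g.1 + y.1) * ψ g.1 y.1| ≤
      1 / (Fintype.card F : ℝ) ^ κ := by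
  have hq := card_pos' (F := F)
  have hq1 : (1 : ℝ) ≤ Fintype.card F := one_le_two.trans two_le_card
  obtain ⟨A₂, hA₂⟩ := exists_irr (F := F) (a := a - 12 * κ) (by omega)
  obtain ⟨h₂, h₃, h₄⟩ := mem_irrF.1 hA₂
  obtain ⟨A₁, h₁, h⟩ := exists_comp h₂ h₄
  have ha' : A₂.natDegree + 2 * (6 * κ) = a := by omega
  refine (Finset.expect_le_expect fun g _ => box_pack hp h₂ h₁ h ha' (monic_add_LT g).1
    (by rw [(monic_add_LT g).2, hN]) (by rw [(monic_add_LT g).2]; exact hl) hl' (hψ g.1)).trans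
    (le_trans ?_ (fin_bound hκ))
  rw [Finset.expect_add_distrib, Fintype.expect_const, ← Finset.mul_expect]
  gcongr
  rw [Finset.expect_comm]
  simp only [Finset.expect_comm (s := (univ : Finset (degreeLT F i))), ← Finset.mul_expect]
  refine expect_ind_le' _ (by positivity) fun y y' hy => ?_
  refine Finset.expect_le univ_nonempty fun z _ => ?_
  obtain ⟨m1, m2⟩ := fam_monic h₂ h₁ y'
  obtain ⟨m3, m4⟩ := monic_od ((monic_X_pow i).mul m1) (N := N)
    (by rw [(monic_X_pow i).natDegree_mul m1, natDegree_X_pow, m2, ha', hN])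
  have e1 := expect_od m1 (od_fam h _) (l := i) (by omega) fun W => vv L w ρ (y.1 + y'.1)
    (od (X ^ i * fam (6 * κ) A₂ A₁ y'.1) + W + z.1)
  rw [m2, ha', show (i + a) / 2 = N by omega, expect_mon m3 m4
    ((mem_degreeLT.1 z.2).trans_le (by exact_mod_cast (by omega)))] at e1
  simp only [add_mul, od_add]
  rw [e1]
  refine (vv_le hp hy).trans ?_
  exact div_le_div₀ zero_le_two one_le_two (by positivity) (pow_le_pow_right₀ hq1 (by omega))

omit [Fintype F] [CharP F 2] in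
theorem sgn_one : Sgn fun _ : F[X] => (1 : ℝ) := ⟨fun _ _ => by simp, fun _ => Or.inl rfl⟩

theorem sparse_aux (hp : Pack N L κ w ρ) {n j a l : ℕ} {f A₂ A₁ : F[X]} (hf : f.Monic)
    (hn : f.natDegree = n) (hj : j ≤ n) (h₂ : A₂.Monic)
    (h₁ : A₁.degree < A₂.degree) (h : od (A₁ * A₂) = 1) (ha : A₂.natDegree + 2 * (6 * κ) = a)
    (hN : n - j + a = 2 * N + 1) (hl : l ≤ n - j) (hl' : a + 2 * L ≤ l) :
    𝔼 m : degreeLT F j, |𝔼 g : degreeLT F l, mu (f /ₘ (X ^ j + m.1) + g.1)| ≤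
      3 / (Fintype.card F : ℝ) ^ (2 * κ) + (Fintype.card F : ℝ) ^ (4 * κ) *
        𝔼 y : degreeLT F (6 * κ), 𝔼 y' : degreeLT F (6 * κ), ind (y ≠ y') *
          𝔼 m : degreeLT F j, 𝔼 z : degreeLT F ((l + a) / 2), vv L w ρ (y.1 + y'.1)
            (od (f /ₘ (X ^ j + m.1) * fam (6 * κ) A₂ A₁ y'.1) + z.1) := by
  have hm : ∀ m : degreeLT F j, (f /ₘ (X ^ j + m.1)).Monic ∧
      (f /ₘ (X ^ j + m.1)).natDegree = n - j := fun m => by
    obtain ⟨m1, m2⟩ := monic_add_LT m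
    refine ⟨?_, by rw [natDegree_divByMonic _ m1, hn, m2]⟩
    rw [Monic, leadingCoeff_divByMonic_of_monic m1 (by
      rw [degree_eq_natDegree m1.ne_zero, degree_eq_natDegree hf.ne_zero, hn, m2]
      exact_mod_cast hj), hf.leadingCoeff]
  refine (Finset.expect_le_expect fun m _ => le_trans (by simp) (box_pack hp h₂ h₁ h ha (hm m).1
    (by rw [(hm m).2, hN]) (by rw [(hm m).2]; exact hl) hl' sgn_one)).trans_eq ?_
  rw [Finset.expect_add_distrib, Fintype.expect_const, ← Finset.mul_expect, Finset.expect_comm]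
  simp only [Finset.expect_comm (s := (univ : Finset (degreeLT F j)))
    (t := (univ : Finset (degreeLT F (6 * κ)))), ← Finset.mul_expect]

theorem sparse_b (hp : Pack N L κ w ρ) {n j a l : ℕ} {f : F[X]} (hf : f.Monic)
    (hn : f.natDegree = n) (hj : j ≤ n) (hκ : 3 ≤ κ) (ha : 12 * κ + 4 ≤ a)
    (hN : n - j + a = 2 * N + 1) (hl : l ≤ n - j) (hl' : a + 2 * L ≤ l) (hNκ : N ≤ 2 ^ κ)
    (hs : 14 * κ + (N - (l + a) / 2) + 3 ≤ j) :
    𝔼 m : degreeLT F j, |𝔼 g : degreeLT F l, mu (f /ₘ (X ^ j + m.1) + g.1)| ≤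
      1 / (Fintype.card F : ℝ) ^ κ := by
  have hq := card_pos' (F := F)
  have hq2 := two_le_card (F := F)
  have hq1 : (1 : ℝ) ≤ Fintype.card F := one_le_two.trans hq2
  obtain ⟨A₂, hA₂⟩ := exists_irr (F := F) (a := a - 12 * κ) (by omega)
  obtain ⟨h₂, h₃, h₄⟩ := mem_irrF.1 hA₂
  obtain ⟨A₁, h₁, h⟩ := exists_comp h₂ h₄
  have ha' : A₂.natDegree + 2 * (6 * κ) = a := by omega
  refine (sparse_aux hp hf hn hj h₂ h₁ h ha' hN hl hl').trans (le_trans ?_ (fin_bound hκ))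
  gcongr
  refine expect_ind_le' _ (by positivity) fun y y' hy => ?_
  obtain ⟨m1, m2⟩ := fam_monic h₂ h₁ y'
  refine (equi_b (N := N) (k := N - (l + a) / 2) (s := 7 * κ) hf hn m1 hj (by rw [m2, ha', hN])
    (by omega) (by rw [m2]; omega) (by omega) _ (vv_01 hp _)).trans ?_
  rw [show (2 : ℝ) = 1 + 1 by norm_num, add_div]
  refine add_le_add ((vv_le hp hy).trans (one_div_le_one_div_of_le (by positivity)
    (pow_le_pow_right₀ hq1 (by omega)))) ?_
  rw [div_le_div_iff₀ (by positivity) (by positivity), one_mul, show 7 * κ = κ + 6 * κ by ring,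
    pow_add]
  gcongr
  refine le_trans ?_ (pow_le_pow_left₀ zero_le_two hq2 κ)
  exact_mod_cast (Nat.sub_le _ _).trans hNκ

theorem sparse_a (hp : Pack N L κ w ρ) {n j a l t : ℕ} {f : F[X]} (hf : f.Monic)
    (hn : f.natDegree = n) (hj : j ≤ n) (hκ : 3 ≤ κ) (ha : 12 * κ + 4 ≤ a)
    (hN : n - j + a = 2 * N + 1) (hl : l ≤ n - j) (hl' : a + 2 * L ≤ l) (hNκ : 2 * a ≤ 2 ^ κ)
    (hτ : ∀ Z : F[X], Z ≠ 0 → Z.natDegree ≤ n → ((divs Z).card : ℝ) ≤ (Fintype.card F : ℝ) ^ t)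
    (hs : t + (N - (l + a) / 2 - a / 2) ≤ min a j) :
    𝔼 m : degreeLT F j, |𝔼 g : degreeLT F l, mu (f /ₘ (X ^ j + m.1) + g.1)| ≤
      1 / (Fintype.card F : ℝ) ^ κ := by
  classical
  have hq := card_pos' (F := F)
  have hq2 := two_le_card (F := F)
  have hq1 : (1 : ℝ) ≤ Fintype.card F := one_le_two.trans hq2
  have hne := exists_irr (F := F) (a := a - 12 * κ) (by omega)
  have hcard := card_irrF (F := F) (n := a - 12 * κ) (by omega)
  have hex : ∀ A₂ : F[X], ∃ A₁ : F[X], A₂ ∈ irrF F (a - 12 * κ) →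
      A₁.degree < A₂.degree ∧ od (A₁ * A₂) = 1 := fun A₂ => by
    by_cases hA : A₂ ∈ irrF F (a - 12 * κ)
    · obtain ⟨A₁, h⟩ := exists_comp (mem_irrF.1 hA).1 (mem_irrF.1 hA).2.2
      exact ⟨A₁, fun _ => h⟩
    · exact ⟨0, fun h => absurd h hA⟩
  choose c hc using hex
  have hd : ∀ A₂ ∈ irrF F (a - 12 * κ), A₂.natDegree + 2 * (6 * κ) = a := fun A₂ hA => by
    rw [(mem_irrF.1 hA).2.1]; omega
  have h1 := Finset.expect_le_expect (s := irrF F (a - 12 * κ)) fun A₂ hA =>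
    sparse_aux hp hf hn hj (mem_irrF.1 hA).1 (hc A₂ hA).1 (hc A₂ hA).2 (hd A₂ hA) hN hl hl'
  rw [Finset.expect_const hne, Finset.expect_add_distrib, Finset.expect_const hne,
    ← Finset.mul_expect, Finset.expect_comm] at h1
  refine h1.trans (le_trans ?_ (fin_bound hκ))
  gcongr
  simp only [Finset.expect_comm (s := irrF F (a - 12 * κ))
    (t := (univ : Finset (degreeLT F (6 * κ)))), ← Finset.mul_expect]
  refine expect_ind_le' _ (by positivity) fun y y' hy => ?_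
  set G : F[X] → ℝ := fun A => 𝔼 m : degreeLT F j, 𝔼 z : degreeLT F ((l + a) / 2),
    vv L w ρ (y.1 + y'.1) (od (f /ₘ (X ^ j + m.1) * A) + z.1) with hG
  have hG0 : ∀ A, 0 ≤ G A := fun A => Finset.expect_nonneg fun _ _ =>
    Finset.expect_nonneg fun _ _ => (vv_01 hp _ _).1
  have h2 : ∑ A₂ ∈ irrF F (a - 12 * κ), G (fam (6 * κ) A₂ (c A₂) y'.1) ≤ ∑ A ∈ monF F a, G A := by
    rw [← Finset.sum_image (f := G) (g := fun A₂ => fam (6 * κ) A₂ (c A₂) y'.1)]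
    · refine Finset.sum_le_sum_of_subset_of_nonneg (fun A hA => ?_) fun A _ _ => hG0 A
      obtain ⟨A₂, hA₂, rfl⟩ := mem_image.1 hA
      obtain ⟨m1, m2⟩ := fam_monic (mem_irrF.1 hA₂).1 (hc A₂ hA₂).1 y'
      exact mem_monF.2 ⟨m1, m2.trans (hd A₂ hA₂)⟩
    · intro A hA A' hA' e
      have hA := mem_coe.1 hA
      have hA' := mem_coe.1 hA'
      obtain ⟨m1, m2⟩ := fam_monic (mem_irrF.1 hA).1 (hc A hA).1 y'
      refine sub_eq_zero.1 (eq_zero_of_od (od_fam (k := 6 * κ) (hc A hA).2 y'.1) ?_ ?_)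
      · refine (degree_sub_lt_left ?_ (mem_irrF.1 hA).1.ne_zero ?_).trans_le ?_
        · rw [degree_eq_natDegree (mem_irrF.1 hA).1.ne_zero,
            degree_eq_natDegree (mem_irrF.1 hA').1.ne_zero, (mem_irrF.1 hA).2.1,
            (mem_irrF.1 hA').2.1]
        · rw [(mem_irrF.1 hA).1.leadingCoeff, (mem_irrF.1 hA').1.leadingCoeff]
        · rw [degree_eq_natDegree m1.ne_zero, m2]
          exact degree_le_natDegree.trans (by exact_mod_cast Nat.le_add_right _ _)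
      · rw [CharTwo.sub_eq_add, add_mul, od_add, mul_comm, od_fam (hc A hA).2, mul_comm]
        dsimp only at e
        rw [e, od_fam (hc A' hA').2, CharTwo.add_self_eq_zero]
  have h3 := equi_a (N := N) (l := (l + a) / 2) (k := N - (l + a) / 2) hf hn hj hN (by omega)
    (by omega) hτ (vv L w ρ (y.1 + y'.1))
  rw [Finset.expect_comm] at h3
  have h4 : 𝔼 A : degreeLT F a, G (X ^ a + A.1) ≤ 2 / (Fintype.card F : ℝ) ^ (20 * κ) := by
    refine (abs_le_of_sq_le_sq' (h3.trans ?_) (by positivity)).2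
    have : (Fintype.card F : ℝ) ^ t * (Fintype.card F : ℝ) ^ (N - (l + a) / 2 - a / 2) /
        (Fintype.card F : ℝ) ^ min a j ≤ 1 := by
      rw [div_le_one (by positivity), ← pow_add]
      exact pow_le_pow_right₀ hq1 hs
    calc _ ≤ 1 / (Fintype.card F : ℝ) ^ (40 * κ) * (1 + 3) := by
          gcongr
          · exact vv_sq hp hy
          · linarith
      _ = _ := by
          rw [div_pow, ← pow_mul, show 20 * κ * 2 = 40 * κ by ring]; ring
  rw [expect_LT, ← sum_monF, div_le_iff₀ (by positivity)] at h4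
  have h5 : (0 : ℝ) < (a - 12 * κ : ℕ) := by exact_mod_cast (by omega)
  rw [Finset.expect_eq_sum_div_card]
  refine (div_le_div₀ (by positivity) (h2.trans h4) (by positivity) hcard).trans ?_
  have h6 : 2 * ((a - 12 * κ : ℕ) : ℝ) ≤ (Fintype.card F : ℝ) ^ (2 * κ) := by
    refine le_trans ?_ ((pow_le_pow_left₀ zero_le_two hq2 κ).trans
      (pow_le_pow_right₀ hq1 (by omega)))
    exact_mod_cast le_trans (by omega) hNκ
  have h7 : (Fintype.card F : ℝ) ^ a =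
      (Fintype.card F : ℝ) ^ (a - 12 * κ) * (Fintype.card F : ℝ) ^ (12 * κ) := by
    rw [← pow_add]; congr 1; omega
  rw [h7]
  calc _ = 2 * (2 * ((a - 12 * κ : ℕ) : ℝ)) / (Fintype.card F : ℝ) ^ (8 * κ) := by
        field_simp; ring
    _ ≤ 2 * (Fintype.card F : ℝ) ^ (2 * κ) / (Fintype.card F : ℝ) ^ (8 * κ) := by gcongr
    _ = _ := by field_simp; ring

end SMu

universe u

theorem long_bound : ∃ C : ℕ, 0 < C ∧ ∃ i₀ : ℕ, ∀ i, i₀ ≤ i →
    ∀ (F : Type u) [Field F] [Fintype F] [CharP F 2] (ψ : F[X] → F[X] → ℝ), (∀ g, Sgn (ψ g)) →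
      𝔼 g : degreeLT F i, |𝔼 y : degreeLT F (i / 2), mu (X ^ i + g.1 + y.1) * ψ g.1 y.1| ≤
        1 / (Fintype.card F : ℝ) ^ (i / C) := by
  obtain ⟨C, hC, N₀, h⟩ := exists_pack.{u} 20 (by norm_num)
  refine ⟨2 * C, by omega, 2 * N₀ + 6 * C + 100, fun i hi F _ _ _ ψ hψ => ?_⟩
  have hq1 : (1 : ℝ) ≤ Fintype.card F := one_le_two.trans two_le_card
  obtain ⟨w, ρ, hp⟩ := h ((i + 2 * (i / 20)) / 2) (by omega) (i / 20) (by omega) (by omega) F
  have h1 : 3 ≤ (i + 2 * (i / 20)) / 2 / C := (Nat.le_div_iff_mul_le (by omega)).2 (by omega)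
  have h2 : (i + 2 * (i / 20)) / 2 / C ≤ (i + 2 * (i / 20)) / 2 / 2000 :=
    Nat.div_le_div_left hC (by norm_num)
  refine (SMu.long_of hp (a := 2 * ((i + 2 * (i / 20)) / 2) + 1 - i) h1 (by omega) (by omega)
    (by omega) (by omega) ψ hψ).trans (one_div_le_one_div_of_le (by positivity)
      (pow_le_pow_right₀ hq1 ?_))
  rw [← Nat.div_div_eq_div_mul]
  exact Nat.div_le_div_right (by omega)

theorem sparse_bound (R : ℕ) (hR : 1 ≤ R) : ∃ C : ℕ, 0 < C ∧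
    ∀ (F : Type u) [Field F] [Fintype F] [CharP F 2], ∃ n₀ : ℕ, ∀ n, n₀ ≤ n → ∀ h j L : ℕ,
      n ≤ R * L → 200 * L ≤ n → 2 * h ≤ n → n ≤ 2 * h + L → 10 * L ≤ j → j + 10 * L ≤ h →
      ∀ f : F[X], f.Monic → f.natDegree = n →
        𝔼 m : degreeLT F j, |𝔼 g : degreeLT F (h - j), mu (f /ₘ (X ^ j + m.1) + g.1)| ≤
          1 / (Fintype.card F : ℝ) ^ (n / C) := by
  obtain ⟨C, hC, N₀, hpk⟩ := exists_pack.{u} R hR
  obtain ⟨N₁, hN₁⟩ := poly_le 4 1 C (by omega)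
  refine ⟨5 * C, by omega, fun F _ _ _ => ?_⟩
  obtain ⟨n₁, hn₁⟩ := divs_bound (F := F) R (by omega)
  refine ⟨n₁ + 5 * (N₀ + N₁ + 3 * C) + 100,
    fun n hn h j L h1 h2 h3 h4 h5 h6 f hf hd => ?_⟩
  have hq1 : (1 : ℝ) ≤ Fintype.card F := one_le_two.trans two_le_card
  obtain ⟨N, hN⟩ : ∃ N, N = (n - j + (h - j) - 2 * L - 1) / 2 := ⟨_, rfl⟩
  have a0 : n ≤ 5 * N := by omega
  have a0' : N ≤ R * L := by omega
  obtain ⟨w, ρ, hp⟩ := hpk N (by omega) L (by omega) (by omega) F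
  have a1 : 3 ≤ N / C := (Nat.le_div_iff_mul_le (by omega)).2 (by omega)
  have a2 : 100 * (N / C) ≤ L := by
    have := Nat.div_mul_le_self N C
    have := Nat.mul_le_mul_left (N / C) hC
    exact Nat.le_of_mul_le_mul_left (c := R) (by nlinarith) (by omega)
  have a3 := hN₁ N (by omega)
  rw [pow_one] at a3
  have a4 : n / R ≤ L := Nat.div_le_of_le_mul h1
  refine le_trans (b := 1 / (Fintype.card F : ℝ) ^ (N / C)) ?_ (one_div_le_one_div_of_le
    (by positivity) (pow_le_pow_right₀ hq1 ?_))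
  · by_cases hc : 3 * h ≤ 5 * j
    · exact SMu.sparse_b hp (a := 2 * N + 1 - (n - j)) hf hd (by omega) a1 (by omega) (by omega)
        (by omega) (by omega) (by omega) (by omega)
    · exact SMu.sparse_a hp (a := 2 * N + 1 - (n - j)) (t := n / R) hf hd (by omega) a1 (by omega)
        (by omega) (by omega) (by omega) (by omega) (hn₁ n (by omega)) (by omega)
  · rw [← Nat.div_div_eq_div_mul]
    exact Nat.div_le_div_right (by omega)

end Pool.Agent.MP_c853c5_nt
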