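import Mathlib
import Pool.Agent.Mg.F43e117.G4f2145
import Pool.Agent.Mg.F43e117.Gf6882d

section

/- Twin primes of `F[X]`, characteristic two: definitions. -/

set_option autoImplicit false
set_option linter.unusedSectionVars false

namespace Pool.Agent.MP_43e117_nt

open Polynomial Finset Pool.Agent.MP_4fffd4_nt Pool.Agent.MP_c853c5_nt
open scoped BigOperators

variable {F : Type*} [Field F] [Fintype F]

variable (F) in
/-- The power `q ^ k` of the number of elements of `F`. -/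
noncomputable def qq (k : ℕ) : ℝ := (Fintype.card F : ℝ) ^ k

/-- Divisible by the square of a monic polynomial of degree at least `T`. -/
def Sq (T : ℕ) (g : F[X]) : Prop := ∃ s : F[X], s.Monic ∧ T ≤ s.natDegree ∧ s ^ 2 ∣ g

/-- The Liouville function. -/
noncomputable def lam (g : F[X]) : ℝ := (liou g : ℝ)

/-- Bounded by one on the monic polynomials of degree `i`. -/
def Bd (i : ℕ) (a : F[X] → ℝ) : Prop := ∀ g ∈ monF F i, |a g| ≤ 1

variable (F) in
/-- A bound for the number of monic divisors up to degree `n`. -/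
def DivB (τ : ℝ) (n : ℕ) : Prop :=
  ∀ g : F[X], g ≠ 0 → g.natDegree ≤ n → ((divs g).card : ℝ) ≤ τ

/-- Sum over the monic divisors of degree `i`. -/
noncomputable def up (a : F[X] → ℝ) (i : ℕ) (f : F[X]) : ℝ :=
  ∑ D ∈ monF F i, ind (D ∣ f) * a D

/-- Sum over the monic divisors of degree at most `R`. -/
noncomputable def upLE (a : F[X] → ℝ) (R : ℕ) (f : F[X]) : ℝ := ∑ t ∈ range (R + 1), up a t f

/-- Convolution with prescribed degrees. -/
noncomputable def cv (a b : F[X] → ℝ) (i j : ℕ) (f : F[X]) : ℝ :=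
  ∑ d ∈ monF F i, ∑ e ∈ monF F j, ind (d * e = f) * (a d * b e)

/-- Triple convolution with prescribed degrees. -/
noncomputable def cv3 (a b c : F[X] → ℝ) (i j k : ℕ) (f : F[X]) : ℝ :=
  ∑ d ∈ monF F i, ∑ e ∈ monF F j, ∑ g ∈ monF F k, ind (d * (e * g) = f) * (a d * (b e * c g))

/-- Correlation over the monic polynomials of degree `n`. -/
noncomputable def corr (h : F[X]) (n : ℕ) (Φ Ψ : F[X] → ℝ) : ℝ :=
  ∑ f ∈ monF F n, Φ f * Ψ (f + h)

/-- Correlation in the model: mean over all polynomials of degree less than `N`. -/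
noncomputable def mcorr (h : F[X]) (N : ℕ) (Φ Ψ : F[X] → ℝ) : ℝ :=
  𝔼 f : degreeLT F N, Φ f.1 * Ψ (f.1 + h)

/-- Periodic modulo `m`. -/
def Per (m : F[X]) (Φ : F[X] → ℝ) : Prop := ∀ f t, Φ (f + m * t) = Φ f

open Classical in
/-- An inverse of `x` modulo `M`. -/
noncomputable def iv (M x : F[X]) : F[X] := if h : IsCoprime x M then h.choose else 0

/-- Sum over the solutions of `d e₁ e₂ = m k + h` with prescribed degrees. -/
noncomputable def cfg (h : F[X]) (μ k₀ ε₁ ε₂ i : ℕ)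
    (G : F[X] → F[X] → F[X] → F[X] → F[X] → ℝ) : ℝ :=
  ∑ m ∈ monF F μ, ∑ k ∈ monF F k₀, ∑ e₁ ∈ monF F ε₁, ∑ e₂ ∈ monF F ε₂, ∑ d ∈ monF F i,
    ind (d * (e₁ * e₂) = m * k + h) * G m k e₁ e₂ d

variable (F) in
/-- The density of the good weight. -/
noncomputable def dens (d u : ℕ) : ℝ :=
  (goodV F d u).card / qq F (∑ j : Fin (u + 1), (d + j))

variable (F) in
/-- Parameters of the good weight. -/
structure Par (N L κ d u r : ℕ) : Prop where
  hu : 1 ≤ u
  hr : r < d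
  hN : ∑ j : Fin (u + 1), (d + j) + r = N
  hL : 6 * d + 2 * u ≤ L
  hκ : 1 ≤ κ
  hd : 2 * (Fintype.card F * (10 * κ)) * 8 ^ (2 * u + 2) + 12 * u + 20 ≤ d
  ge : 1 ≤ dens F d u * qq F κ
  le : dens F d u ≤ 1
  var : ∀ M : F[X], M ≠ 0 → M.natDegree ≤ 210 * κ →
    𝔼 τ : degreeLT F N, (𝔼 x : degreeLT F L,
      (gw (goodV F d u) r (X ^ N + τ.1 + M * x.1) - dens F d u)) ^ 2 ≤ 1 / qq F (500 * κ)

/-- The kernel of the determinant equation, with its mean removed. -/
noncomputable def kk (h : F[X]) (ν τ : ℕ) (d x : F[X]) : ℝ :=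
  ind (IsCoprime d x) * (∑ e ∈ monF F ν, ind (d ∣ x * e + h) - 1 / qq F τ)

/-- The amplified off diagonal sum. -/
noncomputable def offd (h : F[X]) (ν τ I' l : ℕ) (β : F[X] → ℝ) : ℝ :=
  ∑ M ∈ monF F I', ∑ x ∈ monF F I', β M * β x * ∑ l₁ ∈ irrF F l, ∑ l₂ ∈ irrF F l,
    ind (l₁ ≠ l₂) * ∑ g ∈ ltF F l, ind (g ≠ 0) * ∑ d ∈ monF F (ν + τ),
      ind (g * d = l₁ * M + l₂ * x) * (kk h ν τ d M * kk h ν τ d x)

/-- One Fourier mode of the amplified kernel. -/
noncomputable def xi (e : F → ℝ) (a : F[X]) (I : ℕ) (l₁ l₂ g M x : F[X]) : ℝ :=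
  ∑ d ∈ monF F I, ind (g * d = l₁ * M + l₂ * x) *
    (ind (IsCoprime (l₁ * M) d) * e (SFour.res (a * iv d (l₁ * M)) d))

variable (F) in
open Classical in
/-- The index set of the Fourier modes: `(l₁, l₂, g, j₁, j₂)`. -/
noncomputable def modes (l τ : ℕ) : Finset (F[X] × F[X] × F[X] × F[X] × F[X]) :=
  (irrF F l ×ˢ irrF F l ×ˢ ltF F l ×ˢ ltF F τ ×ˢ ltF F τ).filter fun ω =>
    ω.1 ≠ ω.2.1 ∧ ω.2.2.1 ≠ 0 ∧ ω.2.2.2.1 ≠ 0 ∧ ω.2.2.2.2 ≠ 0

/-- The Fourier mode with index `ω = (l₁, l₂, g, j₁, j₂)`. -/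
noncomputable def xw (e : F → ℝ) (h : F[X]) (I : ℕ) (ω : F[X] × F[X] × F[X] × F[X] × F[X])
    (M x : F[X]) : ℝ :=
  xi e (h * (ω.2.2.2.1 * ω.1 + ω.2.2.2.2 * ω.2.1)) I ω.1 ω.2.1 ω.2.2.1 M x

/-- `φ` is a divisor sum of level `R` and norm `B`, up to degree `n`. -/
structure Lev (n R : ℕ) (B : ℝ) (φ κ : F[X] → ℝ) : Prop where
  expand : ∀ f : F[X], f.Monic → f.natDegree ≤ n → φ f = ∑ K ∈ divs f, κ K
  norm : ∀ f : F[X], f.Monic → f.natDegree ≤ n → ∑ K ∈ divs f, |κ K| ≤ B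
  supp : ∀ K g : F[X], K.Monic → κ K ≠ 0 → Squarefree g → g ∣ K → g.natDegree ≤ R

/-- The algebraic properties of the sieve weight. -/
structure Sieve (n R : ℕ) (B : ℝ) (ν κ : F[X] → ℝ) {ι : Type} (Z : Finset ι)
    (a b α : ι → F[X] → ℝ) : Prop where
  one : ∀ P : F[X], P.Monic → Irreducible P → P.natDegree = n → ν P = 1
  unit : ν 1 = 1
  nonneg : ∀ f, 0 ≤ ν f
  lev : Lev n R B ν κ
  sep : ∀ d e : F[X], d.Monic → e.Monic → ν (d * e) = ∑ z ∈ Z, a z d * b z e
  cardZ : (Z.card : ℝ) ≤ B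
  leva : ∀ z ∈ Z, Lev n R B (a z) (α z)
  bdb : ∀ z ∈ Z, ∀ e : F[X], e.Monic → e.natDegree ≤ n → |b z e| ≤ B

/-- The upper bound sieve estimate for the weight `ν`. -/
def Mass (h : F[X]) (n R : ℕ) (C : ℝ) (ν : F[X] → ℝ) : Prop :=
  ∀ i i', i < n → i' < n → n + 2 * R ≤ i + i' →
    ((n : ℝ) - i) * ((n : ℝ) - i') * corr h n (fun f => ν f * up (fun d => |mu d|) i f)
      (fun f => ν f * up (fun d => |mu d|) i' f) ≤ C * qq F n / (n : ℝ) ^ 2

/-- One piece of `ν` times the von Mangoldt function. -/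
noncomputable def nl (ν : F[X] → ℝ) (i : ℕ) (f : F[X]) : ℝ := ν f * up mu i f

variable (F) in
open Classical in
/-- The monic irreducible polynomials of degree in `(y, z]` that do not divide `h`. -/
noncomputable def blk (h : F[X]) (y z : ℕ) : Finset F[X] :=
  ((Ioc y z).biUnion (irrF F)).filter fun P => ¬ P ∣ h

open Classical in
/-- The number of prime factors in `S`, with multiplicity. -/
noncomputable def Om (S : Finset F[X]) (f : F[X]) : ℕ :=
  ∑ P ∈ S, (UniqueFactorizationMonoid.normalizedFactors f).count P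

/-- The truncated alternating sum of binomial coefficients. -/
noncomputable def bonf (k w : ℕ) : ℝ := ∑ l ∈ range (k + 1), (-1) ^ l * (w.choose l : ℝ)

/-- The block number `s` below the height `y`. -/
noncomputable def bl (h : F[X]) (y s : ℕ) : Finset F[X] := blk F h (y / 2 ^ (s + 1)) (y / 2 ^ s)

/-- The sieve weight with `S` blocks below the height `y`. -/
noncomputable def nu (h : F[X]) (y S : ℕ) (f : F[X]) : ℝ :=
  ∏ s ∈ range S, bonf (2 * s + 2) (Om (bl h y s) f)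

open Classical in
/-- The number of elements of `S` that divide `f`. -/
noncomputable def om (S : Finset F[X]) (f : F[X]) : ℕ := (S.filter (· ∣ f)).card

/-- The density of the polynomials with no factor in `S`. -/
noncomputable def VS (S : Finset F[X]) : ℝ := ∏ P ∈ S, (1 - 1 / qq F P.natDegree)

/-- The majorant of one block. -/
noncomputable def gb (k w : ℕ) : ℝ := ind (w = 0) + Real.exp 8 * 3 ^ w / 2 ^ (k + 1)

/-- The majorant of the sieve weight. -/
noncomputable def GG (h : F[X]) (y S : ℕ) (e : F[X]) : ℝ :=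
  ∏ s ∈ range S, gb (2 * s + 2) (Om (bl h y s) e)

open Classical in
/-- The completely multiplicative function with values `w` at the monic irreducibles. -/
noncomputable def cm (w : F[X] → ℝ) (g : F[X]) : ℝ :=
  ((UniqueFactorizationMonoid.normalizedFactors g).map w).prod

variable (F) in
open Classical in
/-- The monic irreducible polynomials of degree at most `n`. -/
noncomputable def irrLE (n : ℕ) : Finset F[X] := (range (n + 1)).biUnion (irrF F)

open Classical in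
/-- The monic irreducible factors. -/
noncomputable def pf (g : F[X]) : Finset F[X] :=
  (UniqueFactorizationMonoid.normalizedFactors g).toFinset

open Classical in
/-- The terms of a modified Moebius series. -/
noncomputable def cc (S : Finset F[X]) (w : F[X] → ℝ) (i : ℕ) : ℝ :=
  ∑ d ∈ monF F i, mu d * ∏ P ∈ pf d, (if P ∈ S then w P else 1 / qq F P.natDegree)

/-- Partial sums of a modified Moebius series. -/
noncomputable def HH (S : Finset F[X]) (w : F[X] → ℝ) (j : ℕ) : ℝ :=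
  ∑ i ∈ range (j + 1), cc S w i

/-- The weighted norm bound for the modified Moebius series. -/
noncomputable def NN (S : Finset F[X]) (w : F[X] → ℝ) : ℝ :=
  ∏ P ∈ S, (1 + 3 * |w P - 1 / qq F P.natDegree| * (4 / 3) ^ P.natDegree)

open Classical in
/-- The expected main term. -/
noncomputable def mainT (h : F[X]) (n I : ℕ) : ℝ :=
  ∑ j ∈ range I, ((n : ℝ) - j) * ∑ d ∈ monF F j,
    mu d * ∏ P ∈ pf d, (if P ∣ h then 0 else 1 / (qq F P.natDegree - 1))

open Classical in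
/-- The partial Euler product of the singular series. -/
noncomputable def sing (h : F[X]) (D : ℕ) : ℝ :=
  ∏ P ∈ irrLE F D,
    (1 - (if P ∣ h then 1 else 2) / qq F P.natDegree) / (1 - 1 / qq F P.natDegree) ^ 2

/-- The truncated form of `ν * up mu i`. -/
noncomputable def tr (κ : F[X] → ℝ) (R i : ℕ) (f : F[X]) : ℝ := up mu i f * upLE κ R f

theorem qq_pos (k : ℕ) : 0 < qq F k := pow_pos card_pos' k

theorem qq_add (a b : ℕ) : qq F (a + b) = qq F a * qq F b := pow_add _ _ _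

theorem qq_zero : qq F 0 = 1 := pow_zero _

theorem qq_mono {a b : ℕ} (h : a ≤ b) : qq F a ≤ qq F b :=
  pow_le_pow_right₀ (one_le_two.trans two_le_card) h

theorem one_le_qq (k : ℕ) : 1 ≤ qq F k := qq_zero (F := F) ▸ qq_mono (Nat.zero_le k)

theorem two_pow_le_qq (k : ℕ) : (2 : ℝ) ^ k ≤ qq F k :=
  pow_le_pow_left₀ zero_le_two two_le_card k

theorem qq_le_two_pow (k : ℕ) : qq F k ≤ (2 : ℝ) ^ (Fintype.card F * k) := by
  rw [pow_mul]
  exact pow_le_pow_left₀ (Nat.cast_nonneg _) (by exact_mod_cast Nat.lt_two_pow_self.le) k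

theorem qq_pow (a b : ℕ) : qq F a ^ b = qq F (a * b) := (pow_mul _ _ _).symm

theorem sum_one_monF (n : ℕ) : ∑ _g ∈ monF F n, (1 : ℝ) = qq F n := by
  rw [Finset.sum_const, card_monF, nsmul_eq_mul, mul_one, qq, Nat.cast_pow]

theorem sum_one_ltF (n : ℕ) : ∑ _g ∈ ltF F n, (1 : ℝ) = qq F n := by
  rw [Finset.sum_const, card_ltF, nsmul_eq_mul, mul_one, qq, Nat.cast_pow]

omit [Fintype F] in
theorem abs_lam (g : F[X]) : |lam g| = 1 := by
  unfold lam
  rcases liou_cases g with h | h <;> simp [h]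

omit [Fintype F] in
theorem lam_mul {f g : F[X]} (hf : f ≠ 0) (hg : g ≠ 0) : lam (f * g) = lam f * lam g := by
  unfold lam
  rw [liou_mul hf hg, Int.cast_mul]

omit [Fintype F] in
theorem iv_mul {M x : F[X]} (h : IsCoprime x M) : M ∣ iv M x * x - 1 := by
  unfold iv
  rw [dif_pos h]
  obtain ⟨b, hb⟩ := h.choose_spec
  exact ⟨-b, by linear_combination hb⟩

theorem mem_irrLE {n : ℕ} {P : F[X]} :
    P ∈ irrLE F n ↔ P.Monic ∧ Irreducible P ∧ P.natDegree ≤ n := by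
  classical
  simp only [irrLE, mem_biUnion, mem_range, mem_irrF]
  exact ⟨fun ⟨_, h1, h2, h3, h4⟩ => ⟨h2, h4, by omega⟩,
    fun ⟨h1, h2, h3⟩ => ⟨_, by omega, h1, rfl, h2⟩⟩

theorem mem_blk {h P : F[X]} {y z : ℕ} : P ∈ blk F h y z ↔
    P.Monic ∧ Irreducible P ∧ y < P.natDegree ∧ P.natDegree ≤ z ∧ ¬ P ∣ h := by
  classical
  simp only [blk, mem_filter, mem_biUnion, mem_Ioc, mem_irrF]
  exact ⟨fun ⟨⟨_, h1, h2, h3, h4⟩, h5⟩ => ⟨h2, h4, by omega, by omega, h5⟩,
    fun ⟨h1, h2, h3, h4, h5⟩ => ⟨⟨_, ⟨h3, h4⟩, h1, rfl, h2⟩, h5⟩⟩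

omit [Fintype F] in
theorem mem_pf {g P : F[X]} (hg : g ≠ 0) : P ∈ pf g ↔ P.Monic ∧ Irreducible P ∧ P ∣ g := by
  classical
  unfold pf
  rw [Multiset.mem_toFinset, Polynomial.mem_normalizedFactors_iff hg]
  tauto

theorem mem_modes {l τ : ℕ} {ω : F[X] × F[X] × F[X] × F[X] × F[X]} : ω ∈ modes F l τ ↔
    ω.1 ∈ irrF F l ∧ ω.2.1 ∈ irrF F l ∧ ω.2.2.1.degree < l ∧ ω.2.2.2.1.degree < τ ∧
      ω.2.2.2.2.degree < τ ∧ ω.1 ≠ ω.2.1 ∧ ω.2.2.1 ≠ 0 ∧ ω.2.2.2.1 ≠ 0 ∧ ω.2.2.2.2 ≠ 0 := by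
  classical
  simp only [modes, mem_filter, mem_product, mem_ltF, and_assoc]

theorem Lev.abs_le {n R : ℕ} {B : ℝ} {φ κ : F[X] → ℝ} (h : Lev n R B φ κ) {f : F[X]}
    (hf : f.Monic) (hn : f.natDegree ≤ n) : |φ f| ≤ B := by
  rw [h.expand f hf hn]
  exact (Finset.abs_sum_le_sum_abs _ _).trans (h.norm f hf hn)

theorem Lev.abs_coef {n R : ℕ} {B : ℝ} {φ κ : F[X] → ℝ} (h : Lev n R B φ κ) {K : F[X]}
    (hK : K.Monic) (hn : K.natDegree ≤ n) : |κ K| ≤ B :=
  (Finset.single_le_sum (f := fun K => |κ K|) (fun _ _ => abs_nonneg _)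
    ((mem_divs hK.ne_zero).2 ⟨hK, dvd_rfl⟩)).trans (h.norm K hK hn)

theorem Lev.coef_one {n R : ℕ} {B : ℝ} {φ κ : F[X] → ℝ} (h : Lev n R B φ κ) : κ 1 = φ 1 := by
  rw [h.expand 1 monic_one (by simp), SConv.divs_one, sum_singleton]

theorem Lev.mono {n R R' : ℕ} {B B' : ℝ} {φ κ : F[X] → ℝ} (h : Lev n R B φ κ) (hR : R ≤ R')
    (hB : B ≤ B') : Lev n R' B' φ κ :=
  ⟨h.expand, fun f hf hn => (h.norm f hf hn).trans hB,
    fun K g h1 h2 h3 h4 => (h.supp K g h1 h2 h3 h4).trans hR⟩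

theorem DivB.mono {τ : ℝ} {n m : ℕ} (h : DivB F τ n) (hm : m ≤ n) : DivB F τ m :=
  fun g hg hd => h g hg (hd.trans hm)

theorem DivB.one_le {τ : ℝ} {n : ℕ} (h : DivB F τ n) : 1 ≤ τ := by
  have := h 1 one_ne_zero (by simp)
  rwa [SConv.divs_one, card_singleton, Nat.cast_one] at this

theorem exists_DivB (c M : ℕ) (hM : 0 < M) :
    ∃ n₀ : ℕ, ∀ n, n₀ ≤ n → DivB F (qq F (n / M)) (c * n) := by
  obtain ⟨n₀, h⟩ := divs_bound (F := F) ((c + 1) * M) (by positivity)
  refine ⟨n₀, fun n hn g hg hd => (h ((c + 1) * n) (by nlinarith) g hg (by nlinarith)).trans_eq ?_⟩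
  rw [Nat.mul_div_mul_left _ _ (Nat.succ_pos c), qq]

theorem exists_poly (c U C : ℕ) (hC : 0 < C) :
    ∃ n₀ : ℕ, ∀ n, n₀ ≤ n → ((c : ℝ) * n) ^ U ≤ qq F (n / C) := by
  obtain ⟨n₀, h⟩ := poly_le c U C hC
  exact ⟨n₀, fun n hn => le_trans (by exact_mod_cast h n hn) (two_pow_le_qq _)⟩

end Pool.Agent.MP_43e117_nt

end

section

/- Twin primes of `F[X]`: basic counting lemmas. -/

set_option autoImplicit false
set_option linter.unusedSectionVars false

namespace Pool.Agent.MP_43e117_nt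

open Polynomial Finset Pool.Agent.MP_4fffd4_nt Pool.Agent.MP_c853c5_nt
open scoped BigOperators

variable {F : Type*} [Field F] [Fintype F]

namespace TBasA

theorem lin {D a : F[X]} (hD : D.Monic) (ha : IsCoprime a D) (b c : F[X]) {n : ℕ}
    (hn : D.natDegree ≤ n) :
    ∑ y : degreeLT F n, ind (D ∣ a * (b + y.1) + c) = qq F n / qq F D.natDegree := by
  obtain ⟨u, v, huv⟩ := ha
  refine Eq.trans (Finset.sum_congr rfl fun y _ => SPsi.ind_congr ?_)
    (SPsi.cnt_small (b + u * c) hD hn)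
  constructor
  · rintro ⟨t, ht⟩
    exact ⟨u * t + v * (b + y.1), by linear_combination u * ht - (b + y.1) * huv⟩
  · rintro ⟨t, ht⟩
    exact ⟨a * t + v * c, by linear_combination a * ht - c * huv⟩

theorem sum_eq_le {α : Type*} (s : Finset α) (a : α) : ∑ x ∈ s, ind (x = a) ≤ 1 := by
  by_cases ha : a ∈ s
  · rw [Finset.sum_eq_single_of_mem a ha fun x _ hx => ind_neg hx]
    exact ind_le_one _
  · rw [Finset.sum_eq_zero fun x hx => ind_neg fun e : x = a => ha (e ▸ hx)]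
    exact zero_le_one

theorem nonneg_of_bd {a : F[X] → ℝ} {i : ℕ} {A : ℝ} (ha : ∀ g ∈ monF F i, |a g| ≤ A) : 0 ≤ A :=
  (abs_nonneg _).trans (ha (X ^ i) (mem_monF.2 ⟨monic_X_pow i, natDegree_X_pow i⟩))

theorem abs_ind_mul (P : Prop) {x A : ℝ} (h : |x| ≤ A) : |ind P * x| ≤ ind P * A := by
  rw [abs_mul, abs_of_nonneg (ind_nonneg P)]
  exact mul_le_mul_of_nonneg_left h (ind_nonneg P)

end TBasA

open TBasA

theorem sum_dvd_le {D : F[X]} (hD : D.Monic) (n : ℕ) :
    ∑ f ∈ monF F n, ind (D ∣ f) ≤ qq F n / qq F D.natDegree := by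
  rw [sum_monF]
  exact sum_dvd_monic (fun y : degreeLT F n => X ^ n + y.1)
    (fun _ _ h => Subtype.ext (add_left_cancel h)) monic_add_LT hD

theorem sum_Sq (n T : ℕ) : ∑ f ∈ monF F n, ind (Sq T f) ≤ 2 * qq F n / qq F T := by
  have hq := two_le_card (F := F)
  have q0 := card_pos' (F := F)
  calc _ ≤ ∑ f ∈ monF F n, ∑ j ∈ Ico T (n + 1), ∑ s ∈ monF F j, ind (s ^ 2 ∣ f) := by
        refine Finset.sum_le_sum fun f hf => ?_
        obtain ⟨h1, h2⟩ := mem_monF.1 hf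
        by_cases h : Sq T f
        · obtain ⟨s, h3, h4, h5⟩ := h
          have h6 := natDegree_le_of_dvd ((dvd_pow_self s two_ne_zero).trans h5) h1.ne_zero
          refine le_trans ?_ (Finset.single_le_sum (f := fun j => ∑ s ∈ monF F j, ind (s ^ 2 ∣ f))
            (fun j _ => Finset.sum_nonneg fun _ _ => ind_nonneg _)
            (mem_Ico.2 ⟨h4, (by omega : s.natDegree < n + 1)⟩))
          exact ind_le_sum fun _ => ⟨s, mem_monF.2 ⟨h3, rfl⟩, h5⟩
        · rw [ind_neg h]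
          exact Finset.sum_nonneg fun _ _ => Finset.sum_nonneg fun _ _ => ind_nonneg _
    _ = ∑ j ∈ Ico T (n + 1), ∑ s ∈ monF F j, ∑ f ∈ monF F n, ind (s ^ 2 ∣ f) := by
        rw [Finset.sum_comm]
        exact Finset.sum_congr rfl fun j _ => Finset.sum_comm
    _ ≤ ∑ j ∈ Ico T (n + 1), qq F n * (1 / (Fintype.card F : ℝ)) ^ j := by
        refine Finset.sum_le_sum fun j _ => ?_
        refine (Finset.sum_le_sum (g := fun _ => qq F n / qq F (2 * j) * 1) fun s hs => ?_).trans_eq ?_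
        · obtain ⟨h1, h2⟩ := mem_monF.1 hs
          have := sum_dvd_le (h1.pow 2) n
          rwa [h1.natDegree_pow, h2, ← mul_one (_ / _)] at this
        · rw [← Finset.mul_sum, sum_one_monF, two_mul, qq_add, one_div_pow]
          have := qq_pos (F := F) j
          unfold qq at this ⊢
          field_simp
    _ ≤ _ := by
        have h1 : 1 / (Fintype.card F : ℝ) ≤ 1 / 2 := by gcongr
        have h2 := geom_sum_Ico_le_of_lt_one (x := 1 / (Fintype.card F : ℝ)) (m := T) (n := n + 1)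
          (by positivity) (by linarith)
        have h3 : (1 / (Fintype.card F : ℝ)) ^ T / (1 - 1 / (Fintype.card F : ℝ)) ≤
            (1 / (Fintype.card F : ℝ)) ^ T / (1 / 2) := by
          gcongr; linarith
        rw [← Finset.mul_sum]
        refine (mul_le_mul_of_nonneg_left (h2.trans h3) (qq_pos n).le).trans_eq ?_
        rw [one_div_pow, qq, qq]
        field_simp

theorem sum_monF_shift {n : ℕ} {c : F[X]} (hc : c.degree < n) (G : F[X] → ℝ) :
    ∑ f ∈ monF F n, G (f + c) = ∑ f ∈ monF F n, G f := by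
  rw [sum_monF, sum_monF]
  exact Fintype.sum_equiv (Equiv.addRight ⟨c, mem_degreeLT.2 hc⟩) _ _ fun y => by
    rw [add_assoc]; rfl

theorem sum_lin_mon {D a : F[X]} (hD : D.Monic) (ha : IsCoprime a D) (c : F[X]) {n : ℕ}
    (hn : D.natDegree ≤ n) :
    ∑ f ∈ monF F n, ind (D ∣ a * f + c) = qq F n / qq F D.natDegree := by
  rw [sum_monF]
  exact lin hD ha _ c hn

theorem sum_lin_lt {D a : F[X]} (hD : D.Monic) (ha : IsCoprime a D) (c : F[X]) {n : ℕ}
    (hn : D.natDegree ≤ n) :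
    ∑ f ∈ ltF F n, ind (D ∣ a * f + c) = qq F n / qq F D.natDegree := by
  rw [← SPsi.sum_LT]
  simpa only [zero_add] using lin hD ha 0 c hn

theorem expect_lin {D a : F[X]} (hD : D.Monic) (ha : IsCoprime a D) (c : F[X]) {n : ℕ}
    (hn : D.natDegree ≤ n) :
    𝔼 f : degreeLT F n, ind (D ∣ a * f.1 + c) = 1 / qq F D.natDegree := by
  have := lin hD ha 0 c hn
  simp only [zero_add] at this
  rw [expect_LT, this]
  have h1 := qq_pos (F := F) n
  have h2 := qq_pos (F := F) D.natDegree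
  unfold qq at h1 h2 ⊢
  field_simp

theorem sum_class {e h : F[X]} (he : e.Monic) (hh : h ≠ 0) (m : F[X]) {κ : ℕ}
    (hκ : e.natDegree ≤ κ) :
    ∑ k ∈ monF F κ, ind (e ∣ m * k + h) ≤ qq F (h.natDegree + κ) / qq F e.natDegree := by
  rw [sum_monF]
  by_cases h0 : ∃ y : degreeLT F κ, e ∣ m * (X ^ κ + y.1) + h
  · obtain ⟨y₀, t₀, ht₀⟩ := h0
    refine le_trans (Finset.sum_le_sum fun y _ => ind_mono ?_)
      (sum_dvd_lt (fun y : degreeLT F κ => h * (y - y₀).1) (fun y y' e => ?_) (fun y => ?_) he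
        (hκ.trans (Nat.le_add_left _ _)))
    · rintro ⟨t, ht⟩
      refine ⟨t₀ * (y.1 - y₀.1) - (X ^ κ + y₀.1) * (t - t₀), ?_⟩
      rw [Submodule.coe_sub]
      linear_combination (y.1 - y₀.1) * ht₀ - (X ^ κ + y₀.1) * (ht - ht₀)
    · exact sub_left_injective (Subtype.ext (mul_left_cancel₀ hh e))
    · rw [degree_mul, degree_eq_natDegree hh, Nat.cast_add]
      exact WithBot.add_lt_add_left (WithBot.natCast_ne_bot _) (mem_degreeLT.1 (y - y₀).2)
  · rw [Finset.sum_eq_zero fun y _ => ind_neg fun h => h0 ⟨y, h⟩]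
    exact (div_pos (qq_pos _) (qq_pos _)).le

theorem exists_sqfree {k : F[X]} (hk : k.Monic) :
    ∃ a γ : F[X], a.Monic ∧ γ.Monic ∧ Squarefree a ∧ k = a * γ ^ 2 := by
  induction hn : k.natDegree using Nat.strong_induction_on generalizing k with
  | _ n ih =>
    by_cases h : Squarefree k
    · exact ⟨k, 1, hk, monic_one, h, by simp⟩
    · unfold Squarefree at h
      push Not at h
      obtain ⟨x, hx, hu⟩ := h
      obtain ⟨P, h1, h2, h3⟩ := exists_monic_irreducible_factor x hu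
      obtain ⟨c, rfl⟩ := (mul_dvd_mul h3 h3).trans hx
      have hc : c.Monic := (h1.mul h1).of_mul_monic_left hk
      have h4 := h2.natDegree_pos
      rw [(h1.mul h1).natDegree_mul hc, h1.natDegree_mul h1] at hn
      obtain ⟨a, γ, h5, h6, h7, rfl⟩ := ih _ (by omega) hc rfl
      exact ⟨a, P * γ, h5, h1.mul h6, h7, by ring⟩

theorem two_pow_pf_le {f : F[X]} (hf : f ≠ 0) : 2 ^ (pf f).card ≤ (divs f).card := by
  classical
  have key : ∀ s ⊆ pf f, ∀ P ∈ pf f, P ∣ ∏ Q ∈ s, Q → P ∈ s := fun s hs P hP h => by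
    obtain ⟨h1, h2, -⟩ := (mem_pf hf).1 hP
    obtain ⟨Q, hQ, h3⟩ := (h2.prime.dvd_finsetProd_iff _).1 h
    obtain ⟨h4, h5, -⟩ := (mem_pf hf).1 (hs hQ)
    rwa [eq_of_monic_of_associated h1 h4 (h2.associated_of_dvd h5 h3)]
  rw [← card_powerset]
  refine Finset.card_le_card_of_injOn (fun s => ∏ Q ∈ s, Q) (fun s hs => ?_) fun s hs t ht e => ?_
  · have hs' := mem_powerset.1 (mem_coe.1 hs)
    refine mem_coe.2 ((mem_divs hf).2 ⟨monic_prod_of_monic _ _ fun Q hQ =>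
      ((mem_pf hf).1 (hs' hQ)).1, Finset.prod_dvd_of_coprime (fun P hP Q hQ hne => ?_)
        fun Q hQ => ((mem_pf hf).1 (hs' hQ)).2.2⟩)
    obtain ⟨h1, h2, -⟩ := (mem_pf hf).1 (hs' hP)
    obtain ⟨h4, h5, -⟩ := (mem_pf hf).1 (hs' hQ)
    exact h2.coprime_iff_not_dvd.2 fun h3 =>
      hne (eq_of_monic_of_associated h1 h4 (h2.associated_of_dvd h5 h3))
  · have hs' := mem_powerset.1 (mem_coe.1 hs)
    have ht' := mem_powerset.1 (mem_coe.1 ht)
    have e' : ∏ Q ∈ s, Q = ∏ Q ∈ t, Q := e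
    exact Finset.Subset.antisymm
      (fun P hP => key t ht' P (hs' hP) (e' ▸ Finset.dvd_prod_of_mem (fun Q => Q) hP))
      fun P hP => key s hs' P (ht' hP) (e' ▸ Finset.dvd_prod_of_mem (fun Q => Q) hP)

theorem sum_range_qq (n : ℕ) : ∑ t ∈ range n, qq F t ≤ qq F n := by
  induction n with
  | zero => simpa using (qq_pos 0).le
  | succ n ih =>
    rw [sum_range_succ, qq_add, qq, qq, pow_one]
    have h1 := qq_pos (F := F) n
    have h2 := two_le_card (F := F)
    unfold qq at h1 ih ⊢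
    nlinarith

theorem sum_inv_irrF (j : ℕ) : ∑ P ∈ irrF F j, 1 / qq F P.natDegree ≤ 1 / j := by
  rcases Nat.eq_zero_or_pos j with rfl | hj
  · rw [Finset.sum_eq_zero fun P hP => ?_]
    · simp
    · obtain ⟨-, h1, h2⟩ := mem_irrF.1 hP
      exact absurd h1 h2.natDegree_pos.ne'
  · rw [Finset.sum_congr rfl (g := fun _ => 1 / qq F j) fun P hP => by rw [(mem_irrF.1 hP).2.1],
      Finset.sum_const, nsmul_eq_mul, mul_one_div,
      div_le_div_iff₀ (qq_pos j) (by exact_mod_cast hj), one_mul, mul_comm]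
    exact SConv.card_irrF_le j

section Div

variable {τ : ℝ} {n : ℕ} (hτ : DivB F τ n)
include hτ

theorem sum_upLE_le {f : F[X]} (hf : f ≠ 0) (hn : f.natDegree ≤ n) (R : ℕ) :
    ∑ t ∈ range R, ∑ D ∈ monF F t, ind (D ∣ f) ≤ τ := by
  have := SPsi.sum_divs_lt hf R fun _ => 1
  simp only [mul_one] at this
  rw [← this]
  refine (Finset.sum_le_sum fun e _ => ind_le_one _).trans ?_
  rw [Finset.sum_const, nsmul_eq_mul, mul_one]
  exact hτ f hf hn

theorem sum_up_le {f : F[X]} (hf : f ≠ 0) (hn : f.natDegree ≤ n) (i : ℕ) :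
    ∑ D ∈ monF F i, ind (D ∣ f) ≤ τ :=
  (Finset.single_le_sum (f := fun t => ∑ D ∈ monF F t, ind (D ∣ f))
    (fun _ _ => Finset.sum_nonneg fun _ _ => ind_nonneg _) (self_mem_range_succ i)).trans
    (sum_upLE_le hτ hf hn (i + 1))

theorem sum_two_le {i j : ℕ} (hn : i + j ≤ n) (f : F[X]) :
    ∑ d ∈ monF F i, ∑ e ∈ monF F j, ind (d * e = f) ≤ τ := by
  by_cases h : ∃ d ∈ monF F i, ∃ e ∈ monF F j, d * e = f
  · obtain ⟨d₀, hd, e₀, he, e⟩ := h
    obtain ⟨h1, h2⟩ := mem_monF.1 hd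
    obtain ⟨h3, h4⟩ := mem_monF.1 he
    refine le_trans (Finset.sum_le_sum fun d hd => ?_) (sum_up_le hτ (f := f)
      (e ▸ (h1.mul h3).ne_zero) (by rw [← e, h1.natDegree_mul h3]; omega) i)
    by_cases h5 : d ∣ f
    · rw [ind_pos h5]
      obtain ⟨c, rfl⟩ := h5
      exact (Finset.sum_le_sum fun e _ => ind_mono
        (mul_left_cancel₀ (mem_monF.1 hd).1.ne_zero)).trans (sum_eq_le _ c)
    · rw [ind_neg h5, Finset.sum_eq_zero fun e _ => ind_neg fun h => h5 ⟨e, h.symm⟩]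
  · rw [Finset.sum_eq_zero fun d hd => Finset.sum_eq_zero fun e he =>
      ind_neg fun e' => h ⟨d, hd, e, he, e'⟩]
    exact zero_le_one.trans hτ.one_le

theorem sum_three_le {i j k : ℕ} (hn : i + j + k ≤ n) (f : F[X]) :
    ∑ d ∈ monF F i, ∑ e ∈ monF F j, ∑ g ∈ monF F k, ind (d * (e * g) = f) ≤ τ ^ 2 := by
  have τ0 : 0 ≤ τ := zero_le_one.trans hτ.one_le
  by_cases h : ∃ d ∈ monF F i, ∃ e ∈ monF F j, ∃ g ∈ monF F k, d * (e * g) = f
  · obtain ⟨d₀, hd, e₀, he, g₀, hg, e⟩ := h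
    obtain ⟨h1, h2⟩ := mem_monF.1 hd
    obtain ⟨h3, h4⟩ := mem_monF.1 he
    obtain ⟨h6, h7⟩ := mem_monF.1 hg
    have h8 := sum_up_le hτ (f := f) (e ▸ (h1.mul (h3.mul h6)).ne_zero)
      (by rw [← e, h1.natDegree_mul (h3.mul h6), h3.natDegree_mul h6]; omega) i
    refine le_trans (Finset.sum_le_sum (g := fun d => ind (d ∣ f) * τ) fun d hd => ?_) ?_
    · by_cases h5 : d ∣ f
      · rw [ind_pos h5, one_mul]
        obtain ⟨c, rfl⟩ := h5
        exact (Finset.sum_le_sum fun e _ => Finset.sum_le_sum fun g _ => ind_mono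
          (mul_left_cancel₀ (mem_monF.1 hd).1.ne_zero)).trans (sum_two_le hτ (by omega) c)
      · rw [ind_neg h5, zero_mul, Finset.sum_eq_zero fun e _ => Finset.sum_eq_zero fun g _ =>
          ind_neg fun h => h5 ⟨e * g, h.symm⟩]
    · rw [← Finset.sum_mul, sq]
      exact mul_le_mul_of_nonneg_right h8 τ0
  · rw [Finset.sum_eq_zero fun d hd => Finset.sum_eq_zero fun e he =>
      Finset.sum_eq_zero fun g hg => ind_neg fun e' => h ⟨d, hd, e, he, g, hg, e'⟩]
    positivity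

theorem abs_up_le {a : F[X] → ℝ} {i : ℕ} {A : ℝ} (ha : ∀ g ∈ monF F i, |a g| ≤ A) {f : F[X]}
    (hf : f ≠ 0) (hn : f.natDegree ≤ n) : |up a i f| ≤ τ * A := by
  refine (Finset.abs_sum_le_sum_abs _ _).trans
    ((Finset.sum_le_sum fun D hD => abs_ind_mul _ (ha D hD)).trans ?_)
  rw [← Finset.sum_mul]
  exact mul_le_mul_of_nonneg_right (sum_up_le hτ hf hn i) (nonneg_of_bd ha)

theorem abs_cv_le {a b : F[X] → ℝ} {i j : ℕ} {A B : ℝ} (ha : ∀ g ∈ monF F i, |a g| ≤ A)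
    (hb : ∀ g ∈ monF F j, |b g| ≤ B) (hn : i + j ≤ n) (f : F[X]) :
    |cv a b i j f| ≤ τ * (A * B) := by
  have A0 := nonneg_of_bd ha
  have B0 := nonneg_of_bd hb
  refine (Finset.abs_sum_le_sum_abs _ _).trans ((Finset.sum_le_sum fun d hd =>
    (Finset.abs_sum_le_sum_abs _ _).trans (Finset.sum_le_sum fun e he =>
      abs_ind_mul (A := A * B) _ ?_)).trans ?_)
  · rw [abs_mul]
    exact mul_le_mul (ha d hd) (hb e he) (abs_nonneg _) A0
  · simp only [← Finset.sum_mul]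
    exact mul_le_mul_of_nonneg_right (sum_two_le hτ hn f) (mul_nonneg A0 B0)

theorem abs_cv3_le {a b c : F[X] → ℝ} {i j k : ℕ} {A B C : ℝ} (ha : ∀ g ∈ monF F i, |a g| ≤ A)
    (hb : ∀ g ∈ monF F j, |b g| ≤ B) (hc : ∀ g ∈ monF F k, |c g| ≤ C) (hn : i + j + k ≤ n)
    (f : F[X]) : |cv3 a b c i j k f| ≤ τ ^ 2 * (A * (B * C)) := by
  have A0 := nonneg_of_bd ha
  have B0 := nonneg_of_bd hb
  have C0 := nonneg_of_bd hc
  refine (Finset.abs_sum_le_sum_abs _ _).trans ((Finset.sum_le_sum fun d hd =>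
    (Finset.abs_sum_le_sum_abs _ _).trans (Finset.sum_le_sum fun e he =>
      (Finset.abs_sum_le_sum_abs _ _).trans (Finset.sum_le_sum fun g hg =>
        abs_ind_mul (A := A * (B * C)) _ ?_))).trans ?_)
  · rw [abs_mul, abs_mul]
    exact mul_le_mul (ha d hd) (mul_le_mul (hb e he) (hc g hg) (abs_nonneg _) B0)
      (by positivity) A0
  · simp only [← Finset.sum_mul]
    exact mul_le_mul_of_nonneg_right (sum_three_le hτ hn f) (by positivity)

end Div

end Pool.Agent.MP_43e117_nt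

end
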