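import Mathlib
import Pool.Agent.Mg.F43e117.Gb7fff1

/- Twin primes of `F[X]`: the Liouville function along lines. -/

set_option autoImplicit false
set_option linter.unusedSectionVars false

namespace Pool.Agent.MP_43e117_nt

open Polynomial Finset Pool.Agent.MP_4fffd4_nt Pool.Agent.MP_c853c5_nt
open scoped BigOperators

variable {F : Type*} [Field F] [Fintype F]

theorem line_gen [CharP F 2] {I : Type} [Fintype I] (hI : Fintype.card I ≤ 2) (i₀ : I)
    {d u r β N : ℕ} (hr : r < d)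
    (hd : 2 * (Fintype.card F * β) * 8 ^ (2 * u + 2) + 12 * u + 20 ≤ d) (Y α v s : I → F[X])
    (hv : ∀ j, v j ∈ goodV F d u) (hs : ∀ j, s j ∈ monF F r) (hY : ∀ j, Y j ∈ monF F (2 * N + 1))
    (hod : ∀ j, v j * s j = od (Y j)) (hα : ∀ j, s j ^ 2 ∣ α j)
    (hdeg : ∀ j, (α j).natDegree + 2 * (d + u) ≤ N) :
    |𝔼 x : degreeLT F (2 * (d + u)), ∏ j, lam (Y j + (α j * x.1) ^ 2)| ≤
      2 * 𝔼 x : degreeLT F (2 * (d + u)), ∑ j, ind (SLine.Bad d u (Y j + (α j * x.1) ^ 2)) +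
      ind (∃ P ∈ irrF F d, P ∣ od (Y i₀) ∧ ∃ j, P ∣ α j ∨
        (j ≠ i₀ ∧ P ∣ od (Y j) ∧ P ∣ α j ^ 2 * Y i₀ + α i₀ ^ 2 * Y j)) + 1 / qq F β := by
  classical
  have hB0 : 0 < 1 / qq F β := one_div_pos.2 (qq_pos β)
  have hS0 : 0 ≤ 𝔼 x : degreeLT F (2 * (d + u)),
      ∑ j, ind (SLine.Bad d u (Y j + (α j * x.1) ^ 2)) :=
    Finset.expect_nonneg fun x _ => Finset.sum_nonneg fun j _ => ind_nonneg _
  by_cases hE : ∃ P ∈ irrF F d, P ∣ od (Y i₀) ∧ ∃ j, P ∣ α j ∨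
      (j ≠ i₀ ∧ P ∣ od (Y j) ∧ P ∣ α j ^ 2 * Y i₀ + α i₀ ^ 2 * Y j)
  · rw [ind_pos hE]
    have h1 : |𝔼 x : degreeLT F (2 * (d + u)), ∏ j, lam (Y j + (α j * x.1) ^ 2)| ≤ 1 := by
      refine (Finset.abs_expect_le _ _).trans (Finset.expect_le univ_nonempty fun x _ => ?_)
      rw [Finset.abs_prod]
      simp only [abs_lam, Finset.prod_const_one, le_refl]
    linarith
  rw [ind_neg hE, add_zero]
  choose P hP hPv using fun j => mem_goodV.1 (hv j)
  choose σ hσ using fun j => exists_od (Y j)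
  have hs1 : ∀ j, (s j).Monic := fun j => (mem_monF.1 (hs j)).1
  have hs2 : ∀ j, (s j).natDegree = r := fun j => (mem_monF.1 (hs j)).2
  have hvm : ∀ j, (v j).Monic := fun j => (goodV_spec (hv j)).1
  have hσ' : ∀ j, Y j = σ j ^ 2 + X * (s j * v j) ^ 2 := fun j => by
    rw [mul_comm (s j), hod]; exact hσ j
  have e1 : ∀ j (x : F[X]), Y j + (α j * x) ^ 2 = (α j * x + σ j) ^ 2 + X * (s j * v j) ^ 2 :=
    fun j x => by rw [hσ' j, CharTwo.add_sq]; ring
  have hPd : ∀ j l, P j l ∣ v j := fun j l => hPv j ▸ Finset.dvd_prod_of_mem _ (mem_univ l)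
  have hvod : ∀ j, v j ∣ od (Y j) := fun j => hod j ▸ dvd_mul_right _ _
  have hns : ∀ j l, ¬ P j l ∣ s j := fun j l h => by
    have := natDegree_le_of_dvd h (hs1 j).ne_zero
    rw [(hP j l).2.1, hs2] at this
    omega
  have hne : ∀ j l l', P j l ∣ P j l' → l = l' := fun j l l' h => by
    have := eq_of_monic_of_associated (hP j l).1 (hP j l').1
      ((hP j l).2.2.associated_of_dvd (hP j l').2.2 h)
    have := congrArg natDegree this
    rw [(hP j l).2.1, (hP j l').2.1] at this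
    exact Fin.ext (by omega)
  have hbad : ∀ (x : F[X]) j l, P j l ∣ α j * x + σ j →
      SLine.Bad d u (Y j + (α j * x) ^ 2) := fun x j l h =>
    ⟨P j l, (hP j l).1, (hP j l).2.2, by rw [(hP j l).2.1]; omega,
      by rw [(hP j l).2.1]; have := l.2; omega, by
      rw [e1]
      exact dvd_add (pow_dvd_pow_of_dvd h 2)
        ((pow_dvd_pow_of_dvd ((hPd j l).mul_left (s j)) 2).mul_left _)⟩
  have hP0 : (P i₀ 0).natDegree = d := by rw [(hP i₀ 0).2.1]; simp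
  have hP0m : P i₀ 0 ∈ irrF F d := mem_irrF.2 ⟨(hP i₀ 0).1, hP0, (hP i₀ 0).2.2⟩
  have hP0d : P i₀ 0 ∣ od (Y i₀) := (hPd i₀ 0).trans (hvod i₀)
  have hN : ∀ j, (s j * v j).natDegree = N := fun j => by
    rw [mul_comm, hod]
    exact (monic_od (mem_monF.1 (hY j)).1 (mem_monF.1 (hY j)).2).2
  have hσN : ∀ j, (σ j).natDegree ≤ N := fun j => by
    have h1 : σ j ^ 2 = Y j - X * (s j * v j) ^ 2 := by rw [hσ' j]; ring
    have h2 := natDegree_sub_le (Y j) (X * (s j * v j) ^ 2)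
    rw [← h1, natDegree_pow, (mem_monF.1 (hY j)).2,
      monic_X.natDegree_mul (((hs1 j).mul (hvm j)).pow 2), natDegree_X, natDegree_pow, hN] at h2
    omega
  obtain ⟨m, hm⟩ : ∃ m, m = Fintype.card F * β * 8 ^ (2 * u + 2) := ⟨_, rfl⟩
  have hd' : 2 * m + 12 * u + 20 ≤ d := by rw [hm, ← mul_assoc]; exact hd
  have hJ : Fintype.card (I × Fin (u + 1)) * 3 ≤ 6 * u + 6 := by
    rw [Fintype.card_prod, Fintype.card_fin]; nlinarith
  have hk := key (J := I × Fin (u + 1)) α σ s v hs1 hvm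
    (fun j => hPv j ▸ separable_prod
      (fun l l' h => (hP j l).2.2.coprime_iff_not_dvd.2 fun e => h (hne _ _ _ e))
      fun l => PerfectField.separable_of_irreducible (hP j l).2.2)
    (fun j => hPv j ▸ IsCoprime.prod_right fun l _ =>
      ((hP j l).2.2.coprime_iff_not_dvd.2 (hns j l)).symm)
    hα (hP i₀ 0).1 (hP i₀ 0).2.2 (hPd i₀ 0)
    (fun j h => hE ⟨_, hP0m, hP0d, j, Or.inl h⟩)
    (fun j hj hvj h => hE ⟨_, hP0m, hP0d, j, Or.inr ⟨hj, hvj.trans (hvod j), by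
      have h1 : α j ^ 2 * Y i₀ + α i₀ ^ 2 * Y j = (α j * σ i₀ - α i₀ * σ j) ^ 2 +
          X * (α j ^ 2 * (s i₀ * v i₀) ^ 2 + α i₀ ^ 2 * (s j * v j) ^ 2) := by
        rw [CharTwo.sub_eq_add, CharTwo.add_sq, hσ' i₀, hσ' j]; ring
      rw [h1]
      exact dvd_add (dvd_pow h two_ne_zero) ((dvd_add
        ((dvd_pow ((hPd i₀ 0).mul_left _) two_ne_zero).mul_left _)
        ((dvd_pow (hvj.mul_left _) two_ne_zero).mul_left _)).mul_left _)⟩⟩)
    (fun p => if P p.1 p.2 = P i₀ 0 then 1 else P p.1 p.2)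
    (fun p h => by
      split_ifs at h with h1
      · exact (hP i₀ 0).2.2.not_isUnit (isUnit_of_dvd_one h)
      · exact h1 (eq_of_monic_of_associated (hP i₀ 0).1 (hP p.1 p.2).1
          ((hP i₀ 0).2.2.associated_of_dvd (hP p.1 p.2).2.2 h)).symm)
    (ρ := d + u) (n := 2 * (d + u))
    (fun p => by
      split_ifs
      · rw [natDegree_one]; omega
      · rw [(hP p.1 p.2).2.1]; have := p.2.2; omega)
    (by rw [hP0]; omega) (by rw [hP0]; omega)
    (fun j R hR h => by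
      rw [← hPv j] at h
      obtain ⟨l, -, hl⟩ := (hR.prime.dvd_finsetProd_iff _).1 h
      by_cases h1 : P j l = P i₀ 0
      · exact Or.inl (h1 ▸ hl)
      · exact Or.inr ⟨(j, l), by rw [if_neg h1]; exact hl⟩)
    (fun j x => by
      rw [hN]
      refine (natDegree_add_le _ _).trans (max_le ?_ (hσN j))
      by_cases hx : x.1 = 0
      · rw [hx, mul_zero, natDegree_zero]; exact Nat.zero_le _
      have h1 := (natDegree_lt_iff_degree_lt hx).2 (mem_degreeLT.1 x.2)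
      have h2 := natDegree_mul_le (p := α j) (q := x.1)
      have h3 := hdeg j
      omega)
    (L := d) hP0.ge (η := 1 / 2 ^ (m + 1)) (B := 1 / qq F β) (by positivity)
    (by
      rw [div_pow, div_le_div_iff₀ (by positivity) (by positivity), ← pow_mul, one_pow, one_mul]
      calc (4 : ℝ) * 2 ^ ((m + 1) * 2) = 2 ^ ((m + 1) * 2 + 2) := by ring
        _ ≤ _ := pow_le_pow_right₀ one_le_two (by omega))
    hB0.le
    (by
      have h1 : (4 : ℝ) * (2 ^ (Fintype.card (I × Fin (u + 1)) * 3) * Fintype.card I) / 2 ^ d ≤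
          1 / 2 ^ (m + 1) := by
        rw [div_le_div_iff₀ (by positivity) (by positivity), one_mul]
        have h2 : (Fintype.card I : ℝ) ≤ 2 := by exact_mod_cast hI
        calc _ ≤ (4 : ℝ) * (2 ^ (6 * u + 6) * 2) * 2 ^ (m + 1) := by
              gcongr
              exact one_le_two
          _ = 2 ^ (6 * u + 6 + (m + 1) + 3) := by ring
          _ ≤ _ := pow_le_pow_right₀ one_le_two (by omega)
      have h3 : 2 ^ (Fintype.card (I × Fin (u + 1)) * 3) ≤ 8 ^ (2 * u + 2) := by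
        calc _ ≤ 2 ^ (6 * u + 6) := Nat.pow_le_pow_right two_pos hJ
          _ = _ := by rw [show 6 * u + 6 = 3 * (2 * u + 2) by ring, pow_mul]; norm_num
      calc _ ≤ (1 : ℝ) / 2 ^ (m + 1) + 1 / 2 ^ (m + 1) := add_le_add h1 le_rfl
        _ = (1 / 2 ^ (Fintype.card F * β)) ^ 8 ^ (2 * u + 2) := by
            rw [one_div_pow, ← pow_mul, ← hm]; field_simp; ring
        _ ≤ (1 / qq F β) ^ 8 ^ (2 * u + 2) :=
            pow_le_pow_left₀ (by positivity)
              (one_div_le_one_div_of_le (qq_pos β) (qq_le_two_pow β)) _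
        _ ≤ _ := pow_le_pow_of_le_one hB0.le
            ((div_le_one (qq_pos β)).2 (one_le_qq β)) h3)
  simp only [e1, lam]
  refine hk.trans (add_le_add (mul_le_mul_of_nonneg_left
    (Finset.expect_le_expect fun x _ => ind_le_sum ?_) zero_le_two) le_rfl)
  rintro ⟨j, h⟩
  refine ⟨j, mem_univ j, ?_⟩
  rw [← e1]
  by_contra hb
  exact h (hPv j ▸ IsCoprime.prod_right fun l _ =>
    ((hP j l).2.2.coprime_iff_not_dvd.2 fun e => hb (hbad _ j l e)).symm)

theorem line_one [CharP F 2] {d u r β N : ℕ} (hr : r < d)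
    (hd : 2 * (Fintype.card F * β) * 8 ^ (2 * u + 2) + 12 * u + 20 ≤ d) {Y α v s : F[X]}
    (hv : v ∈ goodV F d u) (hs : s ∈ monF F r) (hY : Y ∈ monF F (2 * N + 1))
    (hod : v * s = od Y) (hα : s ^ 2 ∣ α) (hdeg : α.natDegree + 2 * (d + u) ≤ N) :
    |𝔼 x : degreeLT F (2 * (d + u)), lam (Y + (α * x.1) ^ 2)| ≤
      2 * 𝔼 x : degreeLT F (2 * (d + u)), ind (SLine.Bad d u (Y + (α * x.1) ^ 2)) +
      ind (∃ P ∈ irrF F d, P ∣ od Y ∧ P ∣ α) + 1 / qq F β := by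
  have h := line_gen (I := Unit) (by simp) () hr hd (fun _ => Y) (fun _ => α) (fun _ => v)
    (fun _ => s) (fun _ => hv) (fun _ => hs) (fun _ => hY) (fun _ => hod) (fun _ => hα)
    (fun _ => hdeg)
  simp only [Finset.univ_unique, Finset.prod_singleton, Finset.sum_singleton] at h
  refine h.trans (add_le_add (add_le_add le_rfl (ind_mono ?_)) le_rfl)
  rintro ⟨P, h1, h2, j, h3 | h3⟩
  · exact ⟨P, h1, h2, h3⟩
  · exact absurd rfl h3.1

theorem line_two [CharP F 2] {d u r β N : ℕ} (hr : r < d)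
    (hd : 2 * (Fintype.card F * β) * 8 ^ (2 * u + 2) + 12 * u + 20 ≤ d)
    {Y α v s Y' α' v' s' : F[X]}
    (hv : v ∈ goodV F d u) (hs : s ∈ monF F r) (hY : Y ∈ monF F (2 * N + 1))
    (hod : v * s = od Y) (hα : s ^ 2 ∣ α) (hdeg : α.natDegree + 2 * (d + u) ≤ N)
    (hv' : v' ∈ goodV F d u) (hs' : s' ∈ monF F r) (hY' : Y' ∈ monF F (2 * N + 1))
    (hod' : v' * s' = od Y') (hα' : s' ^ 2 ∣ α') (hdeg' : α'.natDegree + 2 * (d + u) ≤ N) :
    |𝔼 x : degreeLT F (2 * (d + u)), lam (Y + (α * x.1) ^ 2) * lam (Y' + (α' * x.1) ^ 2)| ≤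
      2 * 𝔼 x : degreeLT F (2 * (d + u)), (ind (SLine.Bad d u (Y + (α * x.1) ^ 2)) +
        ind (SLine.Bad d u (Y' + (α' * x.1) ^ 2))) +
      ind (∃ P ∈ irrF F d, P ∣ od Y ∧ (P ∣ α * α' ∨ P ∣ α' ^ 2 * Y + α ^ 2 * Y')) +
      1 / qq F β := by
  have h := line_gen (I := Fin 2) (by simp) 0 hr hd ![Y, Y'] ![α, α'] ![v, v'] ![s, s']
    (Fin.forall_fin_two.2 ⟨hv, hv'⟩) (Fin.forall_fin_two.2 ⟨hs, hs'⟩)
    (Fin.forall_fin_two.2 ⟨hY, hY'⟩) (Fin.forall_fin_two.2 ⟨hod, hod'⟩)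
    (Fin.forall_fin_two.2 ⟨hα, hα'⟩) (Fin.forall_fin_two.2 ⟨hdeg, hdeg'⟩)
  simp only [Fin.prod_univ_two, Fin.sum_univ_two, Matrix.cons_val_zero, Matrix.cons_val_one] at h
  refine h.trans (add_le_add (add_le_add le_rfl (ind_mono ?_)) le_rfl)
  rintro ⟨P, h1, h2, j, h3⟩
  refine ⟨P, h1, h2, ?_⟩
  fin_cases j
  · rcases h3 with h3 | h3
    · exact Or.inl (Dvd.dvd.mul_right h3 _)
    · exact absurd rfl h3.1
  · rcases h3 with h3 | h3
    · exact Or.inl (Dvd.dvd.mul_left h3 _)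
    · exact Or.inr h3.2.2

end Pool.Agent.MP_43e117_nt
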