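import Mathlib
import Pool.Agent.Mg.F43e117.G16e741
import Pool.Agent.Mg.F43e117.Gd6a1d9

section

/- Twin primes of `F[X]`: equidistribution of the odd part on average. -/

set_option autoImplicit false
set_option linter.unusedSectionVars false

namespace Pool.Agent.MP_43e117_nt

open Polynomial Finset Pool.Agent.MP_4fffd4_nt Pool.Agent.MP_c853c5_nt
open scoped BigOperators

variable {F : Type*} [Field F] [Fintype F]

namespace TWa

/-- All common monic divisors have small degree. -/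
def Cop (T : ℕ) (B e : F[X]) : Prop :=
  ∀ δ : F[X], δ.Monic → δ ∣ B → δ ∣ e → δ.natDegree ≤ T

theorem point {G θ : ℝ} (h0 : 0 ≤ G) (h1 : G ≤ 1) (hθ : 0 < θ) {P Q Q' R : Prop} (hQ : Q → Q') :
    ind P * G ≤ ind Q' + ind (¬ R) + θ * 1 + θ⁻¹ * (ind ((P ∧ ¬ Q) ∧ R) * G ^ 2) := by
  have a1 := ind_nonneg Q'
  have a2 := ind_nonneg (¬ R)
  have a3 : 0 ≤ θ⁻¹ * (ind ((P ∧ ¬ Q) ∧ R) * G ^ 2) :=
    mul_nonneg (inv_nonneg.2 hθ.le) (mul_nonneg (ind_nonneg _) (sq_nonneg _))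
  have a4 : ind P * G ≤ 1 := mul_le_one₀ (ind_le_one _) h0 h1
  by_cases hq : Q
  · rw [ind_pos (hQ hq)]
    linarith
  by_cases hr : R
  swap
  · rw [ind_pos hr]
    linarith
  by_cases hp : P
  swap
  · rw [ind_neg hp, zero_mul]
    linarith
  rw [ind_pos hp, ind_pos (P := (P ∧ ¬ Q) ∧ R) ⟨⟨hp, hq⟩, hr⟩, one_mul, one_mul]
  rw [ind_pos (P := (P ∧ ¬ Q) ∧ R) ⟨⟨hp, hq⟩, hr⟩, one_mul] at a3
  by_cases hG : G ≤ θ
  · linarith
  · have : G ≤ θ⁻¹ * G ^ 2 := by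
      rw [inv_mul_eq_div, le_div_iff₀ hθ]
      nlinarith
    linarith

theorem sum_notCop {τ : ℝ} {n : ℕ} (hτ : DivB F τ n) {e : F[X]} (he : e ≠ 0)
    (hn : e.natDegree ≤ n) (T b : ℕ) :
    ∑ B ∈ monF F b, ind (¬ Cop T B e) ≤ τ * (qq F b / qq F T) := by
  calc ∑ B ∈ monF F b, ind (¬ Cop T B e)
      ≤ ∑ B ∈ monF F b, ∑ δ ∈ divs e, ind (T ≤ δ.natDegree ∧ δ ∣ B) := by
        refine Finset.sum_le_sum fun B _ => ind_le_sum fun hB => ?_
        unfold Cop at hB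
        push Not at hB
        obtain ⟨δ, h1, h2, h3, h4⟩ := hB
        exact ⟨δ, (mem_divs he).2 ⟨h1, h3⟩, h4.le, h2⟩
    _ = ∑ δ ∈ divs e, ∑ B ∈ monF F b, ind (T ≤ δ.natDegree ∧ δ ∣ B) := Finset.sum_comm
    _ ≤ ∑ _δ ∈ divs e, qq F b / qq F T := by
        refine Finset.sum_le_sum fun δ hδ => ?_
        by_cases hT : T ≤ δ.natDegree
        · refine le_trans (Finset.sum_le_sum fun B _ => ind_mono fun h => h.2) ?_
          refine (sum_dvd_le ((mem_divs he).1 hδ).1 b).trans ?_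
          exact div_le_div_of_nonneg_left (qq_pos b).le (qq_pos T) (qq_mono hT)
        · rw [Finset.sum_eq_zero fun B _ => ind_neg fun h => hT h.1]
          exact div_nonneg (qq_pos b).le (qq_pos T).le
    _ ≤ τ * (qq F b / qq F T) := by
        rw [Finset.sum_const, nsmul_eq_mul]
        exact mul_le_mul_of_nonneg_right (hτ e he hn) (div_nonneg (qq_pos b).le (qq_pos T).le)

theorem sum_m [CharP F 2] {k : F[X]} (hk : k ≠ 0) (a h : F[X]) (μ : ℕ) :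
    ∑ m ∈ monF F μ, ind (a = m * k + h) ≤ ind (k ∣ a + h) := by
  have h2 : (2 : F[X]) = 0 := by exact_mod_cast CharP.cast_eq_zero F[X] 2
  by_cases hd : k ∣ a + h
  · rw [ind_pos hd]
    obtain ⟨c, hc⟩ := hd
    refine le_trans (Finset.sum_le_sum fun m _ => ind_mono fun e => ?_)
      (SVar.sum_ind_eq_le (monF F μ) c)
    refine mul_right_cancel₀ hk ?_
    linear_combination hc - e - h * h2
  · rw [ind_neg hd, Finset.sum_eq_zero fun m _ => ind_neg fun e => hd ⟨m, ?_⟩]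
    linear_combination e + h * h2

theorem cfg_drop [CharP F 2] (h : F[X]) (μ κ ε₁ ε₂ i : ℕ) (g : F[X] → F[X] → F[X] → F[X] → ℝ)
    (hg : ∀ k e₁ e₂ d, 0 ≤ g k e₁ e₂ d) :
    (cfg h μ κ ε₁ ε₂ i fun _ k e₁ e₂ d => g k e₁ e₂ d) ≤
      ∑ k ∈ monF F κ, ∑ e₂ ∈ monF F ε₂, ∑ e₁ ∈ monF F ε₁, ∑ d ∈ monF F i,
        ind (k ∣ d * (e₁ * e₂) + h) * g k e₁ e₂ d := by
  unfold cfg
  rw [Finset.sum_comm]
  refine Finset.sum_le_sum fun k hk => ?_
  rw [Finset.sum_comm, Finset.sum_comm (s := monF F ε₂)]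
  refine Finset.sum_le_sum fun e₁ _ => ?_
  rw [Finset.sum_comm]
  refine Finset.sum_le_sum fun e₂ _ => ?_
  rw [Finset.sum_comm]
  refine Finset.sum_le_sum fun d _ => ?_
  rw [← Finset.sum_mul]
  exact mul_le_mul_of_nonneg_right (sum_m (mem_monF.1 hk).1.ne_zero _ _ _) (hg _ _ _ _)

theorem inner [CharP F 2] {h k e₂ : F[X]} (hh : h ≠ 0) {T b κ ε₁ ε₂ i N : ℕ}
    (hk : k ∈ monF F κ) (he : e₂ ∈ monF F ε₂) (hN : i + κ + ε₂ + b = 2 * N + 1)
    (h1 : κ ≤ b + ε₁) (h2 : κ + ε₂ + b ≤ i) (S : Finset F[X])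
    (hS : ∀ B ∈ S, B ∈ monF F b ∧ Squarefree B) (Φ : F[X] → ℝ) (hΦ : ∀ W, 0 ≤ Φ W) :
    ∑ B ∈ S, ∑ e₁ ∈ monF F ε₁, ∑ d ∈ monF F i, ind (k ∣ d * (e₁ * e₂) + h) *
      (ind ((Squarefree e₂ ∧ ¬ Sq T k) ∧ Cop T B (e₁ * e₂)) * Φ (od (d * (k * e₂ * B)))) ≤
      qq F (b + ε₁ + i + 2 * h.natDegree + 4 * T) / qq F (κ + N) * ∑ W ∈ monF F N, Φ W := by
  obtain ⟨hk1, hk2⟩ := mem_monF.1 hk
  obtain ⟨he1, he2⟩ := mem_monF.1 he
  have hpos : 0 ≤ qq F (b + ε₁ + i + 2 * h.natDegree + 4 * T) / qq F (κ + N) :=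
    div_nonneg (qq_pos _).le (qq_pos _).le
  by_cases hg : Squarefree e₂ ∧ ¬ Sq T k
  swap
  · rw [Finset.sum_eq_zero fun B _ => Finset.sum_eq_zero fun e₁ _ => Finset.sum_eq_zero
      fun d _ => by rw [ind_neg (P := _ ∧ _) fun e => hg e.1, zero_mul, mul_zero]]
    exact mul_nonneg hpos (Finset.sum_nonneg fun W _ => hΦ W)
  calc ∑ B ∈ S, ∑ e₁ ∈ monF F ε₁, ∑ d ∈ monF F i, ind (k ∣ d * (e₁ * e₂) + h) *
        (ind ((Squarefree e₂ ∧ ¬ Sq T k) ∧ Cop T B (e₁ * e₂)) * Φ (od (d * (k * e₂ * B))))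
      ≤ ∑ B ∈ S, ∑ e₁ ∈ monF F ε₁, ∑ d ∈ monF F i, ∑ W ∈ monF F N,
          ind (Squarefree B ∧ k ∣ d * (e₁ * e₂) + h ∧ Cop T B (e₁ * e₂) ∧
            od (d * (k * e₂ * B)) = W) * Φ W := by
        refine Finset.sum_le_sum fun B hB => Finset.sum_le_sum fun e₁ _ =>
          Finset.sum_le_sum fun d hd => ?_
        obtain ⟨hB1, hB2⟩ := mem_monF.1 (hS B hB).1
        obtain ⟨hd1, hd2⟩ := mem_monF.1 hd
        have hm : od (d * (k * e₂ * B)) ∈ monF F N := by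
          refine mem_monF.2 (monic_od (hd1.mul ((hk1.mul he1).mul hB1)) ?_)
          rw [hd1.natDegree_mul ((hk1.mul he1).mul hB1), (hk1.mul he1).natDegree_mul hB1,
            hk1.natDegree_mul he1]
          omega
        refine le_trans ?_ (Finset.single_le_sum (f := fun W =>
          ind (Squarefree B ∧ k ∣ d * (e₁ * e₂) + h ∧ Cop T B (e₁ * e₂) ∧
            od (d * (k * e₂ * B)) = W) * Φ W)
          (fun W _ => mul_nonneg (ind_nonneg _) (hΦ W)) hm)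
        rw [← mul_assoc, ← SVar.ind_and]
        exact mul_le_mul_of_nonneg_right
          (ind_mono fun e => ⟨(hS B hB).2, e.1, e.2.2, rfl⟩) (hΦ _)
    _ ≤ ∑ B ∈ monF F b, ∑ e₁ ∈ monF F ε₁, ∑ d ∈ monF F i, ∑ W ∈ monF F N,
          ind (Squarefree B ∧ k ∣ d * (e₁ * e₂) + h ∧ Cop T B (e₁ * e₂) ∧
            od (d * (k * e₂ * B)) = W) * Φ W :=
        Finset.sum_le_sum_of_subset_of_nonneg (fun B hB => (hS B hB).1) fun B _ _ =>
          Finset.sum_nonneg fun _ _ => Finset.sum_nonneg fun _ _ => Finset.sum_nonneg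
            fun W _ => mul_nonneg (ind_nonneg _) (hΦ W)
    _ = ∑ W ∈ monF F N, (∑ B ∈ monF F b, ∑ e₁ ∈ monF F ε₁, ∑ d ∈ monF F i,
          ind (Squarefree B ∧ k ∣ d * (e₁ * e₂) + h ∧ Cop T B (e₁ * e₂) ∧
            od (d * (k * e₂ * B)) = W)) * Φ W := by
        simp only [Finset.sum_mul]
        rw [Finset.sum_comm (s := monF F N)]
        refine Finset.sum_congr rfl fun B _ => ?_
        rw [Finset.sum_comm (s := monF F N)]
        refine Finset.sum_congr rfl fun e₁ _ => ?_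
        rw [Finset.sum_comm (s := monF F N)]
    _ ≤ _ := by
        rw [Finset.mul_sum]
        refine Finset.sum_le_sum fun W _ => mul_le_mul_of_nonneg_right ?_ (hΦ W)
        rw [le_div_iff₀ (qq_pos _), ← hk2]
        exact mult hh hk1 hg.2 he1 hg.1 (by omega) (by omega) (by omega) W

theorem sum_pair {τ : ℝ} {n : ℕ} (hτ : DivB F τ n) {κ ε : ℕ} (hn : κ + ε ≤ n) (Ψ : F[X] → ℝ)
    (hΨ : ∀ M, 0 ≤ Ψ M) :
    ∑ k ∈ monF F κ, ∑ e ∈ monF F ε, Ψ (k * e) ≤ τ * ∑ M ∈ monF F (κ + ε), Ψ M := by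
  calc ∑ k ∈ monF F κ, ∑ e ∈ monF F ε, Ψ (k * e)
      = ∑ k ∈ monF F κ, ∑ e ∈ monF F ε, ∑ M ∈ monF F (κ + ε), ind (k * e = M) * Ψ M := by
        refine Finset.sum_congr rfl fun k hk => Finset.sum_congr rfl fun e he => ?_
        obtain ⟨hk1, hk2⟩ := mem_monF.1 hk
        obtain ⟨he1, he2⟩ := mem_monF.1 he
        rw [SVar.sum_ind_eq (mem_monF.2 ⟨hk1.mul he1, by rw [hk1.natDegree_mul he1, hk2, he2]⟩)]
    _ = ∑ M ∈ monF F (κ + ε), (∑ k ∈ monF F κ, ∑ e ∈ monF F ε, ind (k * e = M)) * Ψ M := by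
        simp only [Finset.sum_mul]
        rw [Finset.sum_comm (s := monF F (κ + ε))]
        refine Finset.sum_congr rfl fun k _ => ?_
        rw [Finset.sum_comm (s := monF F (κ + ε))]
    _ ≤ _ := by
        rw [Finset.mul_sum]
        exact Finset.sum_le_sum fun M _ =>
          mul_le_mul_of_nonneg_right (sum_two_le hτ hn M) (hΨ M)

theorem dens_nonneg (d u : ℕ) : 0 ≤ dens F d u :=
  div_nonneg (Nat.cast_nonneg _) (qq_pos _).le

theorem vv_01 [CharP F 2] {N L η d u r : ℕ} (hp : Par F N L η d u r) (Δ W : F[X]) :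
    0 ≤ SMu.vv L (gw (goodV F d u) r) (dens F d u) Δ W ∧
      SMu.vv L (gw (goodV F d u) r) (dens F d u) Δ W ≤ 1 := by
  have h1 : 0 ≤ 𝔼 x : degreeLT F L, gw (goodV F d u) r (W + Δ * x.1) :=
    Finset.expect_nonneg fun _ _ => gw_nonneg _ _ _
  have h2 : 𝔼 x : degreeLT F L, gw (goodV F d u) r (W + Δ * x.1) ≤ 1 :=
    Finset.expect_le univ_nonempty fun _ _ => gw_le_one hp.hr _
  have h3 := dens_nonneg (F := F) d u
  exact ⟨abs_nonneg _, abs_le.2 ⟨by linarith [hp.le], by linarith⟩⟩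

theorem sum_vv [CharP F 2] {N L η d u r : ℕ} (hp : Par F N L η d u r) {κ : ℕ} {Δ : F[X]}
    (hΔ : Δ ≠ 0) (hΔ' : Δ.natDegree ≤ 10 * η) (hd : κ + 10 * η + L ≤ N) :
    ∑ M ∈ monF F κ, ∑ W ∈ monF F N, SMu.vv L (gw (goodV F d u) r) (dens F d u) (M * Δ) W ^ 2 ≤
      qq F N * (qq F κ * (2 / qq F (200 * η))) := by
  have key := major (N := N) (L := L) (κ := κ) (c := 200 * η) hΔ (by omega)
    (g := fun W => gw (goodV F d u) r W - dens F d u) (fun W => by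
      have := gw_nonneg (goodV F d u) r W
      have := gw_le_one (F := F) (u := u) hp.hr W
      have := dens_nonneg (F := F) d u
      exact abs_le.2 ⟨by linarith [hp.le], by linarith⟩)
    (V := 1 / qq F (500 * η)) (div_nonneg zero_le_one (qq_pos _).le) fun M hM hM' => by
      refine hp.var (M * Δ) (mul_ne_zero hM hΔ) ?_
      have := (natDegree_lt_iff_degree_lt hM).2 hM'
      rw [natDegree_mul hM hΔ]
      omega
  have e1 : ∀ M : F[X], ∑ W ∈ monF F N,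
      SMu.vv L (gw (goodV F d u) r) (dens F d u) (M * Δ) W ^ 2 =
      qq F N * 𝔼 τ : degreeLT F N, (𝔼 x : degreeLT F L,
        (gw (goodV F d u) r (X ^ N + τ.1 + M * Δ * x.1) - dens F d u)) ^ 2 := by
    intro M
    rw [expect_LT, sum_monF, qq, mul_div_cancel₀ _ (pow_pos card_pos' N).ne']
    refine Finset.sum_congr rfl fun τ _ => ?_
    rw [SMu.vv, sq_abs, Finset.expect_sub_distrib, Fintype.expect_const]
  simp only [e1]
  rw [← Finset.mul_sum]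
  refine mul_le_mul_of_nonneg_left (key.trans (mul_le_mul_of_nonneg_left ?_ (qq_pos _).le))
    (qq_pos _).le
  have e2 : qq F (200 * η) * (1 / qq F (500 * η)) ≤ 1 / qq F (200 * η) := by
    rw [mul_one_div, div_le_div_iff₀ (qq_pos _) (qq_pos _), one_mul, ← qq_add]
    exact qq_mono (by omega)
  have e3 : 2 / qq F (200 * η) = 1 / qq F (200 * η) + 1 / qq F (200 * η) := by ring
  linarith

theorem final {s b τ H Q B x : ℝ} (hs : 0 ≤ s) (hb : 1 ≤ b) (hτ : 1 ≤ τ) (hH : 1 ≤ H) (hQ : 0 < Q)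
    (hx : 1 ≤ x) (hB : B ≤ 2 * b * x ^ 2 * s) :
    s * (τ ^ 3 * (2 * Q / x ^ 3)) + τ * (B / x ^ 3) * (τ ^ 3 * Q) + s * ((x ^ 2)⁻¹ * (τ ^ 3 * Q)) +
      x ^ 2 * (2 * τ * H * Q * B / x ^ 8) ≤ s * (9 * b * τ ^ 4 * H * Q / x) := by
  have hx0 : 0 < x := by linarith
  set y := x⁻¹ with hy
  have hy0 : 0 < y := inv_pos.2 hx0
  have hy1 : y ≤ 1 := inv_le_one_of_one_le₀ hx
  have hB' : B * y ^ 2 ≤ 2 * b * s := by
    rw [hy, inv_pow, ← div_eq_mul_inv, div_le_iff₀ (by positivity)]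
    linarith
  have e1 : s * (τ ^ 3 * (2 * Q / x ^ 3)) + τ * (B / x ^ 3) * (τ ^ 3 * Q) +
      s * ((x ^ 2)⁻¹ * (τ ^ 3 * Q)) + x ^ 2 * (2 * τ * H * Q * B / x ^ 8) =
      Q * y * (2 * s * τ ^ 3 * y ^ 2 + τ ^ 4 * (B * y ^ 2) + s * τ ^ 3 * y +
        2 * τ * H * (B * y ^ 2) * y ^ 3) := by
    rw [hy]
    field_simp
  have e2 : s * (9 * b * τ ^ 4 * H * Q / x) = Q * y * (9 * (s * b * τ ^ 4 * H)) := by
    rw [hy]
    field_simp
  rw [e1, e2]
  refine mul_le_mul_of_nonneg_left ?_ (by positivity)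
  have t0 : 0 ≤ τ := by linarith
  have t3 : τ ^ 3 ≤ τ ^ 4 := pow_le_pow_right₀ hτ (by norm_num)
  have t1 : τ ≤ τ ^ 4 := le_self_pow₀ hτ (by norm_num)
  have y2 : y ^ 2 ≤ 1 := pow_le_one₀ hy0.le hy1
  have y3 : y ^ 3 ≤ 1 := pow_le_one₀ hy0.le hy1
  have hbH : 1 ≤ b * H := one_le_mul_of_one_le_of_one_le hb hH
  have u0 : s * τ ^ 4 ≤ s * b * τ ^ 4 * H := by
    calc s * τ ^ 4 = s * τ ^ 4 * 1 := (mul_one _).symm
      _ ≤ s * τ ^ 4 * (b * H) := by gcongr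
      _ = _ := by ring
  have u1 : s * τ ^ 3 * y ^ 2 ≤ s * τ ^ 4 * 1 := by gcongr
  have u2 : s * τ ^ 3 * y ≤ s * τ ^ 4 * 1 := by gcongr
  have u3 : τ ^ 4 * (B * y ^ 2) ≤ τ ^ 4 * (2 * b * s) * H := by
    calc τ ^ 4 * (B * y ^ 2) ≤ τ ^ 4 * (2 * b * s) * 1 := by rw [mul_one]; gcongr
      _ ≤ _ := by gcongr
  have u4 : τ * H * (B * y ^ 2) * y ^ 3 ≤ τ ^ 4 * H * (2 * b * s) * 1 := by
    calc τ * H * (B * y ^ 2) * y ^ 3 ≤ τ * H * (2 * b * s) * y ^ 3 := by gcongr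
      _ ≤ _ := by gcongr
  nlinarith

end TWa

theorem cross [CharP F 2] {h : F[X]} (hh : h ≠ 0) {N L η d u r : ℕ} (hp : Par F N L η d u r)
    {n μ κ ε₁ ε₂ i b : ℕ} (hn : μ + κ = n) (hn' : i + ε₁ + ε₂ = n)
    (hN : i + κ + ε₂ + b = 2 * N + 1) (h1 : κ ≤ b + ε₁) (h2 : κ + ε₂ + b + 2 * L ≤ i)
    (h3 : 20 * η + 4 ≤ b) {τ : ℝ} (hτ : DivB F τ n) (hhn : h.natDegree < n) {Δ : F[X]}
    (hΔ : Δ ≠ 0) (hΔ' : Δ.natDegree ≤ 10 * η) (S : Finset F[X])
    (hS : ∀ B ∈ S, B ∈ monF F b ∧ Squarefree B)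
    (hS' : qq F b ≤ 2 * b * qq F (20 * η) * S.card) :
    ∑ B ∈ S, (cfg h μ κ ε₁ ε₂ i fun _ k _ e₂ d' => ind (Squarefree e₂) *
      SMu.vv L (gw (goodV F d u) r) (dens F d u) (k * e₂ * Δ) (od (d' * (k * e₂ * B)))) ≤
      S.card * (9 * b * τ ^ 4 * qq F (2 * h.natDegree) * qq F n / qq F (10 * η)) := by
  set G := SMu.vv L (gw (goodV F d u) r) (dens F d u) with hG
  have hτ1 := hτ.one_le
  have hτ0 : 0 ≤ τ := by linarith
  have hθ : 0 < (qq F (20 * η))⁻¹ := inv_pos.2 (qq_pos _)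
  have s1 : ∀ B ∈ S, (cfg h μ κ ε₁ ε₂ i fun _ k _ e₂ d' => ind (Squarefree e₂) *
      G (k * e₂ * Δ) (od (d' * (k * e₂ * B)))) ≤
      τ ^ 3 * (2 * qq F n / qq F (30 * η)) +
      (cfg h μ κ ε₁ ε₂ i fun _ _ e₁ e₂ _ => ind (¬ TWa.Cop (30 * η) B (e₁ * e₂))) +
      (qq F (20 * η))⁻¹ * (τ ^ 3 * qq F n) +
      qq F (20 * η) * cfg h μ κ ε₁ ε₂ i fun _ k e₁ e₂ d' =>
        ind ((Squarefree e₂ ∧ ¬ Sq (30 * η) k) ∧ TWa.Cop (30 * η) B (e₁ * e₂)) *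
          G (k * e₂ * Δ) (od (d' * (k * e₂ * B))) ^ 2 := by
    intro B _
    refine (cfg_mono (G' := fun m k e₁ e₂ d' => ind (Sq (30 * η) (m * k)) +
      ind (¬ TWa.Cop (30 * η) B (e₁ * e₂)) + (qq F (20 * η))⁻¹ * 1 + (qq F (20 * η))⁻¹⁻¹ *
        (ind ((Squarefree e₂ ∧ ¬ Sq (30 * η) k) ∧ TWa.Cop (30 * η) B (e₁ * e₂)) *
          G (k * e₂ * Δ) (od (d' * (k * e₂ * B))) ^ 2))
      fun m _ k _ e₁ _ e₂ _ d' _ _ => TWa.point (TWa.vv_01 hp _ _).1 (TWa.vv_01 hp _ _).2 hθ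
        fun ⟨s, a1, a2, a3⟩ => ⟨s, a1, a2, a3.mul_left m⟩).trans ?_
    rw [cfg_add, cfg_add, cfg_add, cfg_mul, cfg_mul, inv_inv]
    have b1 := cfg_le (h := h) hτ hn hn' (φ := fun f => ind (Sq (30 * η) f))
      fun _ => ind_nonneg _
    have b2 := mul_le_mul_of_nonneg_left (sum_Sq (F := F) n (30 * η)) (pow_nonneg hτ0 3)
    have b3 := mul_le_mul_of_nonneg_left (cfg_one_le (h := h) hτ hn hn') hθ.le
    linarith
  have s2 : ∑ B ∈ S, (cfg h μ κ ε₁ ε₂ i fun _ _ e₁ e₂ _ =>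
      ind (¬ TWa.Cop (30 * η) B (e₁ * e₂))) ≤
      τ * (qq F b / qq F (30 * η)) * (τ ^ 3 * qq F n) := by
    rw [← cfg_sum]
    refine (cfg_mono (G' := fun _ _ _ _ _ => τ * (qq F b / qq F (30 * η)) * 1)
      fun m _ k _ e₁ he₁ e₂ he₂ d' _ _ => ?_).trans ?_
    · obtain ⟨a1, a2⟩ := mem_monF.1 he₁
      obtain ⟨a3, a4⟩ := mem_monF.1 he₂
      rw [mul_one]
      refine le_trans (Finset.sum_le_sum_of_subset_of_nonneg (fun B hB => (hS B hB).1)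
        fun _ _ _ => ind_nonneg _) (TWa.sum_notCop hτ (a1.mul a3).ne_zero ?_ _ _)
      rw [a1.natDegree_mul a3]
      omega
    · rw [cfg_mul]
      exact mul_le_mul_of_nonneg_left (cfg_one_le hτ hn hn')
        (mul_nonneg hτ0 (div_nonneg (qq_pos _).le (qq_pos _).le))
  have s3 : ∑ B ∈ S, (cfg h μ κ ε₁ ε₂ i fun _ k e₁ e₂ d' =>
        ind ((Squarefree e₂ ∧ ¬ Sq (30 * η) k) ∧ TWa.Cop (30 * η) B (e₁ * e₂)) *
          G (k * e₂ * Δ) (od (d' * (k * e₂ * B))) ^ 2) ≤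
      2 * τ * qq F (2 * h.natDegree) * qq F n * qq F b / qq F (80 * η) := by
    refine (Finset.sum_le_sum fun B _ => TWa.cfg_drop h μ κ ε₁ ε₂ i _
      fun _ _ _ _ => mul_nonneg (ind_nonneg _) (sq_nonneg _)).trans ?_
    rw [Finset.sum_comm]
    have c1 : ∀ k ∈ monF F κ, ∑ B ∈ S, ∑ e₂ ∈ monF F ε₂, ∑ e₁ ∈ monF F ε₁, ∑ d' ∈ monF F i,
        ind (k ∣ d' * (e₁ * e₂) + h) *
          (ind ((Squarefree e₂ ∧ ¬ Sq (30 * η) k) ∧ TWa.Cop (30 * η) B (e₁ * e₂)) *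
            G (k * e₂ * Δ) (od (d' * (k * e₂ * B))) ^ 2) ≤
        qq F (b + ε₁ + i + 2 * h.natDegree + 4 * (30 * η)) / qq F (κ + N) *
          ∑ e₂ ∈ monF F ε₂, ∑ W ∈ monF F N, G (k * e₂ * Δ) W ^ 2 := by
      intro k hk
      rw [Finset.sum_comm, Finset.mul_sum]
      exact Finset.sum_le_sum fun e₂ he => TWa.inner hh hk he hN h1 (by omega) S hS
        (fun W => G (k * e₂ * Δ) W ^ 2) fun _ => sq_nonneg _
    refine (Finset.sum_le_sum c1).trans ?_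
    rw [← Finset.mul_sum]
    have c2 := TWa.sum_pair hτ (κ := κ) (ε := ε₂) (by omega)
      (fun M => ∑ W ∈ monF F N, G (M * Δ) W ^ 2)
      fun _ => Finset.sum_nonneg fun _ _ => sq_nonneg _
    have c3 := mul_le_mul_of_nonneg_left
      (TWa.sum_vv hp (κ := κ + ε₂) hΔ hΔ' (by omega)) hτ0
    refine (mul_le_mul_of_nonneg_left (c2.trans c3)
      (div_nonneg (qq_pos _).le (qq_pos _).le)).trans_eq ?_
    have p1 := (qq_pos (F := F) κ).ne'
    have p2 := (qq_pos (F := F) N).ne'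
    have p3 := (qq_pos (F := F) (120 * η)).ne'
    have p4 := (qq_pos (F := F) (80 * η)).ne'
    rw [show 200 * η = 120 * η + 80 * η by omega, show 4 * (30 * η) = 120 * η by omega, ← hn']
    simp only [qq_add]
    field_simp
  refine (Finset.sum_le_sum s1).trans ?_
  rw [Finset.sum_add_distrib, Finset.sum_add_distrib, Finset.sum_add_distrib, Finset.sum_const,
    Finset.sum_const, ← Finset.mul_sum, nsmul_eq_mul, nsmul_eq_mul]
  have s4 := mul_le_mul_of_nonneg_left s3 (qq_pos (F := F) (20 * η)).le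
  have q2 : qq F (20 * η) = qq F (10 * η) ^ 2 := by rw [qq_pow]; congr 1; omega
  have q3 : qq F (30 * η) = qq F (10 * η) ^ 3 := by rw [qq_pow]; congr 1; omega
  have q8 : qq F (80 * η) = qq F (10 * η) ^ 8 := by rw [qq_pow]; congr 1; omega
  have fin := TWa.final (s := S.card) (b := b) (τ := τ) (H := qq F (2 * h.natDegree))
    (Q := qq F n) (B := qq F b) (x := qq F (10 * η)) (Nat.cast_nonneg _)
    (by exact_mod_cast (by omega : 1 ≤ b)) hτ1 (one_le_qq _) (qq_pos _) (one_le_qq _)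
    (by rw [← q2]; exact hS')
  rw [← q2, ← q3, ← q8] at fin
  linarith

end Pool.Agent.MP_43e117_nt

end

section

/- Twin primes of `F[X]`: insertion of the weight. -/

set_option autoImplicit false
set_option linter.unusedSectionVars false

namespace Pool.Agent.MP_43e117_nt

open Polynomial Finset Pool.Agent.MP_4fffd4_nt Pool.Agent.MP_c853c5_nt
open scoped BigOperators

variable {F : Type*} [Field F] [Fintype F]

namespace TWb

theorem abs_sub_le_one {a ρ : ℝ} (h : 0 ≤ a ∧ a ≤ 1) (hρ : 0 ≤ ρ) (hρ' : ρ ≤ 1) :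
    |a - ρ| ≤ 1 :=
  abs_le.2 ⟨by linarith [h.1], by linarith [h.2]⟩

theorem pair_le [CharP F 2] {h : F[X]} {μ κ ε₁ ε₂ i b L : ℕ} (hn : i + ε₁ + ε₂ = μ + κ)
    (h2 : κ + ε₂ + b + 2 * L ≤ i) {B B' : F[X]} (hB : B ∈ monF F b) (w : F[X] → ℝ)
    (hw : ∀ W, 0 ≤ w W ∧ w W ≤ 1) {ρ : ℝ} (hρ : 0 ≤ ρ) (hρ' : ρ ≤ 1) :
    (cfg h μ κ ε₁ ε₂ i fun _ k _ e₂ d => ind (Squarefree e₂) *
      ((w (od (d * (k * e₂ * B))) - ρ) * (w (od (d * (k * e₂ * B'))) - ρ))) ≤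
    cfg h μ κ ε₁ ε₂ i fun _ k _ e₂ d => ind (Squarefree e₂) *
      SMu.vv L w ρ (k * e₂ * od (B * B')) (od (d * (k * e₂ * B'))) := by
  have e1 : ∀ d k e x : F[X], od ((d + k * (e * B * x ^ 2)) * (k * e * B)) =
      od (d * (k * e * B)) := fun d k e x => by
    rw [show (d + k * (e * B * x ^ 2)) * (k * e * B) = d * (k * e * B) + (k * e * B * x) ^ 2 by
      ring, od_add, od_of_sq, add_zero]
  have e2 : ∀ d k e x : F[X], od ((d + k * (e * B * x ^ 2)) * (k * e * B')) =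
      od (d * (k * e * B')) + k * e * od (B * B') * x := fun d k e x => by
    rw [show (d + k * (e * B * x ^ 2)) * (k * e * B') =
      d * (k * e * B') + (k * e * x) ^ 2 * (B * B') by ring, od_add, od_sq_mul]
    ring
  have h1 : ∀ x : degreeLT F L, (cfg h μ κ ε₁ ε₂ i fun _ k _ e₂ d => ind (Squarefree e₂) *
      ((w (od (d * (k * e₂ * B))) - ρ) * (w (od (d * (k * e₂ * B'))) - ρ))) =
      cfg h μ κ ε₁ ε₂ i fun _ k _ e₂ d => ind (Squarefree e₂) *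
      ((w (od (d * (k * e₂ * B))) - ρ) *
        (w (od (d * (k * e₂ * B')) + k * e₂ * od (B * B') * x.1) - ρ)) := fun x => by
    rw [cfg_shift hn (fun _ _ e₂ => e₂ * B * x.1 ^ 2)]
    · simp only [e1, e2]
    · intro k hk e₁ _ e₂ he₂
      obtain ⟨k1, k2⟩ := mem_monF.1 hk
      obtain ⟨k3, k4⟩ := mem_monF.1 he₂
      obtain ⟨k5, k6⟩ := mem_monF.1 hB
      have := mem_degreeLT.1 (SBox.sq_mul_mem (A := k * e₂ * B) (l := i) (L := L) (by
        rw [(k1.mul k3).natDegree_mul k5, k1.natDegree_mul k3, k2, k4, k6]; exact h2) x)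
      rwa [show x.1 ^ 2 * (k * e₂ * B) = k * (e₂ * B * x.1 ^ 2) by ring] at this
  rw [← Fintype.expect_const (ι := degreeLT F L) (cfg h μ κ ε₁ ε₂ i fun _ k _ e₂ d =>
    ind (Squarefree e₂) * ((w (od (d * (k * e₂ * B))) - ρ) * (w (od (d * (k * e₂ * B'))) - ρ))),
    Finset.expect_congr rfl fun x _ => h1 x, ← cfg_expect]
  refine cfg_mono fun m _ k _ e₁ _ e₂ _ d _ _ => ?_
  rw [← Finset.mul_expect, ← Finset.mul_expect, Finset.expect_sub_distrib, Fintype.expect_const]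
  refine mul_le_mul_of_nonneg_left ((le_abs_self _).trans ?_) (ind_nonneg _)
  rw [abs_mul]
  exact mul_le_of_le_one_left (abs_nonneg _) (abs_sub_le_one (hw _) hρ hρ')

theorem step [CharP F 2] {h : F[X]} {n μ κ ε₁ ε₂ i b L : ℕ} (hn : μ + κ = n)
    (hn' : i + ε₁ + ε₂ = n) (h2 : κ + ε₂ + b + 2 * L ≤ i) {τ : ℝ} (hτ : DivB F τ n)
    {Z : Type*} [Fintype Z] [Nonempty Z] (B : Z → F[X]) (hB : ∀ y, B y ∈ monF F b)
    (w : F[X] → ℝ) (hw : ∀ W, 0 ≤ w W ∧ w W ≤ 1) {ρ θ : ℝ} (hρ : 0 ≤ ρ) (hρ' : ρ ≤ 1)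
    (hθ : 0 < θ) (c : F[X] → F[X] → F[X] → F[X] → F[X] → ℝ)
    (hc : ∀ m ∈ monF F μ, ∀ k ∈ monF F κ, ∀ e₁ ∈ monF F ε₁, ∀ e₂ ∈ monF F ε₂, ∀ d' ∈ monF F i,
      |c m k e₁ e₂ d'| ≤ ind (Squarefree e₂)) {Y : ℝ}
    (hY : ∀ y, |cfg h μ κ ε₁ ε₂ i fun m k e₁ e₂ d' =>
      c m k e₁ e₂ d' * w (od (d' * (k * e₂ * B y)))| ≤ Y) :
    ρ * |cfg h μ κ ε₁ ε₂ i c| ≤ Y + θ * (τ ^ 3 * qq F n) +
      (τ ^ 3 * qq F n / Fintype.card Z + 𝔼 y, 𝔼 y', ind (y ≠ y') *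
        cfg h μ κ ε₁ ε₂ i fun _ k _ e₂ d => ind (Squarefree e₂) *
          SMu.vv L w ρ (k * e₂ * od (B y * B y')) (od (d * (k * e₂ * B y')))) / θ := by
  set W : Z → F[X] → F[X] → F[X] → ℝ := fun y k e d => w (od (d * (k * e * B y))) with hW
  have hone := cfg_one_le (h := h) hτ hn hn'
  have h1 : ρ * cfg h μ κ ε₁ ε₂ i c =
      𝔼 y, (cfg h μ κ ε₁ ε₂ i fun m k e₁ e₂ d => c m k e₁ e₂ d * W y k e₂ d) +
      cfg h μ κ ε₁ ε₂ i fun m k e₁ e₂ d => c m k e₁ e₂ d * (ρ - 𝔼 y, W y k e₂ d) := by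
    rw [← cfg_expect, ← cfg_add, ← cfg_mul]
    refine cfg_congr fun m _ k _ e₁ _ e₂ _ d _ _ => ?_
    rw [← Finset.mul_expect]
    ring
  have h3 : |𝔼 y, (cfg h μ κ ε₁ ε₂ i fun m k e₁ e₂ d => c m k e₁ e₂ d * W y k e₂ d)| ≤ Y :=
    (Finset.abs_expect_le _ _).trans (Finset.expect_le univ_nonempty fun y _ => hY y)
  have h4 : |cfg h μ κ ε₁ ε₂ i fun m k e₁ e₂ d => c m k e₁ e₂ d * (ρ - 𝔼 y, W y k e₂ d)| ≤
      θ * (τ ^ 3 * qq F n) + (cfg h μ κ ε₁ ε₂ i fun _ k _ e₂ d =>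
        ind (Squarefree e₂) * (𝔼 y, (W y k e₂ d - ρ)) ^ 2) / θ := by
    refine (abs_cfg_le _).trans ((cfg_mono (G' := fun _ k _ e₂ d => θ * 1 + θ⁻¹ *
      (ind (Squarefree e₂) * (𝔼 y, (W y k e₂ d - ρ)) ^ 2))
      fun m hm k hk e₁ he₁ e₂ he₂ d hd _ => ?_).trans ?_)
    · rw [abs_mul, Finset.expect_sub_distrib, Fintype.expect_const, abs_sub_comm]
      refine (mul_le_mul_of_nonneg_right (hc m hm k hk e₁ he₁ e₂ he₂ d hd) (abs_nonneg _)).trans ?_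
      by_cases e : Squarefree e₂
      · rw [ind_pos e, one_mul, one_mul, mul_one, inv_mul_eq_div]
        exact SBox.abs_le_sq hθ
      · rw [ind_neg e, zero_mul, zero_mul, mul_zero, add_zero, mul_one]
        exact hθ.le
    · rw [cfg_add, cfg_mul, cfg_mul, inv_mul_eq_div]
      gcongr
  have h5 : (cfg h μ κ ε₁ ε₂ i fun _ k _ e₂ d =>
        ind (Squarefree e₂) * (𝔼 y, (W y k e₂ d - ρ)) ^ 2) ≤
      τ ^ 3 * qq F n / Fintype.card Z + 𝔼 y, 𝔼 y', ind (y ≠ y') *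
        cfg h μ κ ε₁ ε₂ i fun _ k _ e₂ d => ind (Squarefree e₂) *
          SMu.vv L w ρ (k * e₂ * od (B y * B y')) (od (d * (k * e₂ * B y'))) := by
    simp only [sq, Fintype.expect_mul_expect]
    simp only [Finset.mul_expect]
    rw [cfg_expect, div_eq_mul_one_div, ← SBox.expect_diag, Finset.mul_expect,
      ← Finset.expect_add_distrib]
    refine Finset.expect_le_expect fun y _ => ?_
    rw [cfg_expect, Finset.mul_expect, ← Finset.expect_add_distrib]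
    refine Finset.expect_le_expect fun y' _ => ?_
    by_cases e : y = y'
    · rw [ind_pos e, ind_neg (not_not.2 e), zero_mul, add_zero, mul_one]
      refine le_trans (cfg_mono fun m _ k _ e₁ _ e₂ _ d _ _ => ?_) hone
      refine mul_le_one₀ (ind_le_one _) ?_ ?_
      · rw [e]; exact mul_self_nonneg _
      refine (le_abs_self _).trans ?_
      rw [abs_mul]
      exact mul_le_one₀ (abs_sub_le_one (hw _) hρ hρ') (abs_nonneg _)
        (abs_sub_le_one (hw _) hρ hρ')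
    · rw [ind_neg e, ind_pos e, one_mul, mul_zero, zero_add]
      exact pair_le (hn'.trans hn.symm) h2 (hB y) w hw hρ hρ'
  rw [← abs_of_nonneg hρ, ← abs_mul, abs_of_nonneg hρ, h1, add_assoc]
  refine (abs_add_le _ _).trans (add_le_add h3 (h4.trans ?_))
  gcongr

theorem sqfree_of_od [CharP F 2] {A B : F[X]} (h : od (A * B) = 1) : Squarefree A :=
  fun _ hP => isUnit_of_dvd_one (h ▸ dvd_od (by rw [sq]; exact hP.mul_right B))

theorem fam_inj [CharP F 2] {a k : ℕ} (c : F[X] → F[X])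
    (hc : ∀ A ∈ irrF F a, (c A).degree < A.degree ∧ od (c A * A) = 1) (y : degreeLT F k) :
    Set.InjOn (fun A => SMu.fam k A (c A) y.1) (irrF F a) := by
  intro A hA A' hA' e
  have hA := mem_coe.1 hA
  have hA' := mem_coe.1 hA'
  obtain ⟨m1, m2⟩ := SMu.fam_monic (mem_irrF.1 hA).1 (hc A hA).1 y
  refine sub_eq_zero.1 (eq_zero_of_od (SMu.od_fam (k := k) (hc A hA).2 y.1) ?_ ?_)
  · refine (degree_sub_lt_left ?_ (mem_irrF.1 hA).1.ne_zero ?_).trans_le ?_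
    · rw [degree_eq_natDegree (mem_irrF.1 hA).1.ne_zero,
        degree_eq_natDegree (mem_irrF.1 hA').1.ne_zero, (mem_irrF.1 hA).2.1,
        (mem_irrF.1 hA').2.1]
    · rw [(mem_irrF.1 hA).1.leadingCoeff, (mem_irrF.1 hA').1.leadingCoeff]
    · rw [degree_eq_natDegree m1.ne_zero, m2]
      exact degree_le_natDegree.trans (by exact_mod_cast Nat.le_add_right _ _)
  · rw [CharTwo.sub_eq_add, add_mul, od_add, mul_comm, SMu.od_fam (hc A hA).2, mul_comm]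
    dsimp only at e
    rw [e, SMu.od_fam (hc A' hA').2, CharTwo.add_self_eq_zero]

theorem final {τ t Q H n b : ℝ} (hτ : 1 ≤ τ) (ht : 0 < t) (hQ : 0 < Q) (hH : 1 ≤ H)
    (hn : 1 ≤ n) (hb : b ≤ n) (hη : 100 * n * τ ^ 4 * H ≤ t) :
    1 / t ^ 5 * (τ ^ 3 * Q) + (τ ^ 3 * Q / t ^ 10 + 9 * b * τ ^ 4 * H * Q / t ^ 10) /
      (1 / t ^ 5) ≤ Q / t ^ 4 := by
  have h1 : τ ^ 3 ≤ n * τ ^ 4 * H :=
    calc τ ^ 3 ≤ τ ^ 4 := pow_le_pow_right₀ hτ (by norm_num)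
      _ = 1 * τ ^ 4 * 1 := by ring
      _ ≤ _ := by gcongr
  have h2 : b * τ ^ 4 * H ≤ n * τ ^ 4 * H := by gcongr
  have h3 : 0 ≤ τ ^ 3 := by positivity
  calc _ = (2 * τ ^ 3 + 9 * (b * τ ^ 4 * H)) * Q / t ^ 5 := by
        field_simp
        ring
    _ ≤ t * Q / t ^ 5 := by
        gcongr
        linarith
    _ = _ := by field_simp

end TWb

theorem weight [CharP F 2] {h : F[X]} (hh : h ≠ 0) {N L η d u r : ℕ} (hp : Par F N L η d u r)
    {n μ κ ε₁ ε₂ i b : ℕ} (hn : μ + κ = n) (hn' : i + ε₁ + ε₂ = n)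
    (hN : i + κ + ε₂ + b = 2 * N + 1) (h1 : κ ≤ b + ε₁) (h2 : κ + ε₂ + b + 2 * L ≤ i)
    (h3 : 20 * η + 4 ≤ b) {τ : ℝ} (hτ : DivB F τ n) (hhn : h.natDegree < n)
    (hη : 100 * n * τ ^ 4 * qq F (2 * h.natDegree) ≤ qq F η)
    (c : F[X] → F[X] → F[X] → F[X] → F[X] → ℝ)
    (hc : ∀ m ∈ monF F μ, ∀ k ∈ monF F κ, ∀ e₁ ∈ monF F ε₁, ∀ e₂ ∈ monF F ε₂, ∀ d' ∈ monF F i,
      |c m k e₁ e₂ d'| ≤ ind (Squarefree e₂)) {Y : ℝ}
    (hY : ∀ B ∈ monF F b, Squarefree B → |cfg h μ κ ε₁ ε₂ i fun m k e₁ e₂ d' =>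
      c m k e₁ e₂ d' * gw (goodV F d u) r (od (d' * (k * e₂ * B)))| ≤ Y) :
    |cfg h μ κ ε₁ ε₂ i c| ≤ qq F η * (Y + qq F n / qq F (4 * η)) := by
  classical
  have hne := SMu.exists_irr (F := F) (a := b - 20 * η) (by omega)
  have hcard := card_irrF (F := F) (n := b - 20 * η) (by omega)
  have hex : ∀ A₂ : F[X], ∃ A₁ : F[X], A₂ ∈ irrF F (b - 20 * η) →
      A₁.degree < A₂.degree ∧ od (A₁ * A₂) = 1 := fun A₂ => by
    by_cases hA : A₂ ∈ irrF F (b - 20 * η)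
    · obtain ⟨A₁, h⟩ := exists_comp (mem_irrF.1 hA).1 (mem_irrF.1 hA).2.2
      exact ⟨A₁, fun _ => h⟩
    · exact ⟨0, fun h => absurd h hA⟩
  choose s hs using hex
  have hη0 := qq_pos (F := F) η
  have hρ : 0 ≤ dens F d u := by
    have := qq_pos (F := F) (∑ j : Fin (u + 1), (d + j))
    unfold dens
    positivity
  have hB : ∀ A ∈ irrF F (b - 20 * η), ∀ y : degreeLT F (10 * η),
      SMu.fam (10 * η) A (s A) y.1 ∈ monF F b ∧ Squarefree (SMu.fam (10 * η) A (s A) y.1) :=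
    fun A hA y => by
      obtain ⟨m1, m2⟩ := SMu.fam_monic (mem_irrF.1 hA).1 (hs A hA).1 y
      refine ⟨mem_monF.2 ⟨m1, ?_⟩, TWb.sqfree_of_od (SMu.od_fam (hs A hA).2 _)⟩
      rw [m2, (mem_irrF.1 hA).2.1]
      omega
  have hτ1 := hτ.one_le
  have hQ := qq_pos (F := F) n
  have hH := one_le_qq (F := F) (2 * h.natDegree)
  have h4 := Finset.expect_le_expect (s := irrF F (b - 20 * η)) fun A hA =>
    TWb.step (h := h) (L := L) hn hn' h2 hτ
      (fun y : degreeLT F (10 * η) => SMu.fam (10 * η) A (s A) y.1) (fun y => (hB A hA y).1)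
      (gw (goodV F d u) r) (fun W => ⟨gw_nonneg _ _ _, gw_le_one hp.hr W⟩) hρ hp.le
      (θ := 1 / qq F η ^ 5) (by positivity) c hc fun y => hY _ (hB A hA y).1 (hB A hA y).2
  rw [Finset.expect_const hne, Finset.expect_add_distrib, Finset.expect_const hne,
    ← Finset.expect_div, Finset.expect_add_distrib, Finset.expect_const hne,
    Finset.expect_comm] at h4
  have h5 : 𝔼 y : degreeLT F (10 * η), 𝔼 A ∈ irrF F (b - 20 * η), 𝔼 y' : degreeLT F (10 * η),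
      ind (y ≠ y') * (cfg h μ κ ε₁ ε₂ i fun _ k _ e₂ d' => ind (Squarefree e₂) *
        SMu.vv L (gw (goodV F d u) r) (dens F d u)
          (k * e₂ * od (SMu.fam (10 * η) A (s A) y.1 * SMu.fam (10 * η) A (s A) y'.1))
          (od (d' * (k * e₂ * SMu.fam (10 * η) A (s A) y'.1)))) ≤
      9 * b * τ ^ 4 * qq F (2 * h.natDegree) * qq F n / qq F η ^ 10 := by
    simp only [Finset.expect_comm (s := irrF F (b - 20 * η))
      (t := (univ : Finset (degreeLT F (10 * η)))), ← Finset.mul_expect]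
    refine SMu.expect_ind_le' _ (by positivity) fun y y' hy => ?_
    have hinj := TWb.fam_inj s hs y'
    have h6 := cross hh hp hn hn' hN h1 h2 h3 hτ hhn (SMu.ne_data hy).1 (SMu.ne_data hy).2
      ((irrF F (b - 20 * η)).image fun A => SMu.fam (10 * η) A (s A) y'.1)
      (fun B hB' => by
        obtain ⟨A, hA, rfl⟩ := mem_image.1 hB'
        exact hB A hA y') (by
        rw [Finset.card_image_of_injOn hinj]
        have h7 : (0 : ℝ) < (b - 20 * η : ℕ) := by exact_mod_cast (by omega)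
        have h8 : ((b - 20 * η : ℕ) : ℝ) ≤ b := by exact_mod_cast Nat.sub_le _ _
        have h9 := qq_pos (F := F) (20 * η)
        rw [div_le_iff₀ (by positivity)] at hcard
        calc qq F b = qq F (b - 20 * η) * qq F (20 * η) := by
              rw [← qq_add]; congr 1; omega
          _ ≤ (irrF F (b - 20 * η)).card * (2 * ((b - 20 * η : ℕ) : ℝ)) * qq F (20 * η) := by
              gcongr; exact hcard
          _ ≤ (irrF F (b - 20 * η)).card * (2 * (b : ℝ)) * qq F (20 * η) := by gcongr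
          _ = _ := by ring)
    rw [Finset.sum_image hinj, Finset.card_image_of_injOn hinj] at h6
    have h7 : (0 : ℝ) < (irrF F (b - 20 * η)).card := by exact_mod_cast hne.card_pos
    rw [Finset.expect_eq_sum_div_card, div_le_iff₀' h7, qq_pow, mul_comm η 10]
    refine le_trans (le_of_eq (Finset.sum_congr rfl fun A hA => ?_)) h6
    rw [SMu.od_fam_fam (hs A hA).2]
  have h6 : dens F d u * |cfg h μ κ ε₁ ε₂ i c| ≤ Y + qq F n / qq F (4 * η) := by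
    refine h4.trans ?_
    rw [add_assoc, mul_comm 4 η, ← qq_pow, card_degreeLT, Nat.cast_pow,
      show (Fintype.card F : ℝ) ^ (10 * η) = qq F η ^ 10 by rw [qq_pow, mul_comm η 10, qq]]
    refine add_le_add le_rfl (le_trans ?_ (TWb.final (b := b) hτ1 hη0 hQ hH
      (by exact_mod_cast (by omega : 1 ≤ n)) (by exact_mod_cast (by omega : b ≤ n)) hη))
    gcongr
  calc _ = 1 * |cfg h μ κ ε₁ ε₂ i c| := (one_mul _).symm
    _ ≤ dens F d u * qq F η * |cfg h μ κ ε₁ ε₂ i c| := by gcongr; exact hp.ge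
    _ = qq F η * (dens F d u * |cfg h μ κ ε₁ ε₂ i c|) := by ring
    _ ≤ _ := by gcongr

end Pool.Agent.MP_43e117_nt

end
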