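import Mathlib
import Pool.Agent.Mg.F43e117.G16e741
import Pool.Agent.Mg.F43e117.Gafc00c
import Pool.Agent.Mg.F43e117.Gdf981c
import Pool.Agent.Mg.F43e117.G10cabe
import Pool.Agent.Mg.F43e117.Gb31b19

section

/- Twin primes of `F[X]`: the weighted sum with one smooth variable. -/

set_option autoImplicit false
set_option linter.unusedSectionVars false

namespace Pool.Agent.MP_43e117_nt

open Polynomial Finset Pool.Agent.MP_4fffd4_nt Pool.Agent.MP_c853c5_nt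
open scoped BigOperators

variable {F : Type*} [Field F] [Fintype F]

namespace TOne

theorem cfg_avg {h : F[X]} {μ κ ε₁ ε₂ i : ℕ} (hn : i + ε₁ + ε₂ = μ + κ) {ι : Type*} [Fintype ι]
    [Nonempty ι] (s : ι → F[X] → F[X] → F[X] → F[X])
    (hs : ∀ x, ∀ k ∈ monF F κ, ∀ e₁ ∈ monF F ε₁, ∀ e₂ ∈ monF F ε₂, (k * s x k e₁ e₂).degree < i)
    (G : F[X] → F[X] → F[X] → F[X] → F[X] → ℝ) :
    cfg h μ κ ε₁ ε₂ i G = cfg h μ κ ε₁ ε₂ i fun m k e₁ e₂ d =>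
      𝔼 x, G (m + e₁ * e₂ * s x k e₁ e₂) k e₁ e₂ (d + k * s x k e₁ e₂) := by
  rw [cfg_expect (fun x m k e₁ e₂ d => G (m + e₁ * e₂ * s x k e₁ e₂) k e₁ e₂
    (d + k * s x k e₁ e₂))]
  rw [Finset.expect_congr rfl fun x _ => (cfg_shift hn (s x) (hs x) G).symm, Fintype.expect_const]

theorem deg_shift {A s x : F[X]} {a r l i : ℕ} (hA : A ∈ monF F a) (hs : s ∈ monF F r)
    (hx : x.degree < l) (hi : a + 4 * r + 2 * l ≤ i) : (A * (s ^ 2 * x) ^ 2).degree < i := by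
  obtain ⟨hs1, hs2⟩ := mem_monF.1 hs
  obtain ⟨hA1, hA2⟩ := mem_monF.1 hA
  by_cases hx0 : x = 0
  · rw [hx0, mul_zero, zero_pow two_ne_zero, mul_zero, degree_zero]
    exact WithBot.bot_lt_coe _
  have h1 := (natDegree_lt_iff_degree_lt hx0).2 hx
  refine degree_le_natDegree.trans_lt (Nat.cast_lt.2 ?_)
  rw [hA1.natDegree_mul' (pow_ne_zero _ (mul_ne_zero (pow_ne_zero _ hs1.ne_zero) hx0)),
    natDegree_pow, (hs1.pow 2).natDegree_mul' hx0, natDegree_pow]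
  omega

theorem mon_mul {f g : F[X]} {a b : ℕ} (hf : f ∈ monF F a) (hg : g ∈ monF F b) :
    f * g ∈ monF F (a + b) := by
  obtain ⟨h1, h2⟩ := mem_monF.1 hf
  obtain ⟨h3, h4⟩ := mem_monF.1 hg
  exact mem_monF.2 ⟨h1.mul h3, by rw [h1.natDegree_mul h3, h2, h4]⟩

theorem pointwise [CharP F 2] {d u r β N a i : ℕ} (hr : r < d)
    (hd : 2 * (Fintype.card F * β) * 8 ^ (2 * u + 2) + 12 * u + 20 ≤ d) {A D v s : F[X]}
    (hv : v ∈ goodV F d u) (hs : s ∈ monF F r) (hA : A ∈ monF F a) (hD : D ∈ monF F i)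
    (hN : i + a = 2 * N + 1) (hi : a + 4 * r + 4 * (d + u) ≤ i) {c : ℝ} (hc : |c| ≤ 1) :
    |𝔼 x : degreeLT F (2 * (d + u)), c * lam (D + A * (s ^ 2 * x.1) ^ 2) *
      ind (v * s = od ((D + A * (s ^ 2 * x.1) ^ 2) * A))| ≤
      𝔼 x : degreeLT F (2 * (d + u)), ind (v * s = od ((D + A * (s ^ 2 * x.1) ^ 2) * A)) *
        (2 * ind (SLine.Bad d u ((D + A * (s ^ 2 * x.1) ^ 2) * A))) +
      ind (v * s = od (D * A)) * (ind (SLine.Bad d u (D * A)) + 1 / qq F β) := by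
  obtain ⟨hs1, hs2⟩ := mem_monF.1 hs
  obtain ⟨hA1, hA2⟩ := mem_monF.1 hA
  obtain ⟨hD1, hD2⟩ := mem_monF.1 hD
  have e1 : ∀ x : F[X], (D + A * (s ^ 2 * x) ^ 2) * A = D * A + (A * s ^ 2 * x) ^ 2 :=
    fun x => by ring
  have hod : ∀ x : F[X], od ((D + A * (s ^ 2 * x) ^ 2) * A) = od (D * A) := fun x => by
    rw [e1, od_add, od_of_sq, add_zero]
  simp only [hod]
  by_cases hW : v * s = od (D * A)
  · simp only [ind_pos hW, mul_one, one_mul]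
    have hl := line_one (β := β) (N := N) (α := A * s ^ 2) hr hd hv hs (hN ▸ mon_mul hD hA) hW
      (dvd_mul_left _ _) (by
        rw [hA1.natDegree_mul (hs1.pow 2), natDegree_pow, hA2, hs2]; omega)
    have hlam : ∀ x : degreeLT F (2 * (d + u)), c * lam (D + A * (s ^ 2 * x.1) ^ 2) =
        c * lam A * lam (D * A + (A * s ^ 2 * x.1) ^ 2) := fun x => by
      have hne : D + A * (s ^ 2 * x.1) ^ 2 ≠ 0 := by
        refine (hD1.add_of_left ?_).ne_zero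
        rw [degree_eq_natDegree hD1.ne_zero, hD2]
        exact deg_shift hA hs (mem_degreeLT.1 x.2) (by omega)
      have h2 : lam A * lam A = 1 := by
        rw [← abs_mul_abs_self, abs_lam, mul_one]
      rw [← e1, lam_mul hne hA1.ne_zero]
      linear_combination (-(c * lam (D + A * (s ^ 2 * x.1) ^ 2))) * h2
    have hb : ind (∃ P ∈ irrF F d, P ∣ od (D * A) ∧ P ∣ A * s ^ 2) ≤
        ind (SLine.Bad d u (D * A)) := by
      refine ind_mono fun ⟨P, hP, h1, h2⟩ => bad_of_dvd u hP ?_ h1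
      obtain ⟨-, hP2, hP3⟩ := mem_irrF.1 hP
      rcases hP3.prime.dvd_or_dvd h2 with h3 | h3
      · exact h3.mul_left _
      · have := natDegree_le_of_dvd (hP3.prime.dvd_of_dvd_pow h3) hs1.ne_zero
        omega
    simp only [hlam, e1]
    rw [← Finset.mul_expect, ← Finset.mul_expect, abs_mul, abs_mul, abs_lam, mul_one]
    refine (mul_le_of_le_one_left (abs_nonneg _) hc).trans (hl.trans ?_)
    linarith
  · simp [ind_neg hW]

theorem key [CharP F 2] {h : F[X]} {N β d u r μ κ ε i b : ℕ} (hr : r < d)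
    (hd : 2 * (Fintype.card F * β) * 8 ^ (2 * u + 2) + 12 * u + 20 ≤ d) (hn : i + ε + 0 = μ + κ)
    (hN : i + (κ + b) = 2 * N + 1) (h2 : κ + b + 4 * r + 4 * (d + u) ≤ i) (c : F[X] → F[X] → ℝ)
    (hc : ∀ k ∈ monF F κ, ∀ e ∈ monF F ε, |c k e| ≤ 1) {B : F[X]} (hB : B ∈ monF F b)
    {v s : F[X]} (hv : v ∈ goodV F d u) (hs : s ∈ monF F r) :
    |cfg h μ κ ε 0 i fun _ k e₁ e₂ d' =>
      c k e₁ * lam d' * ind (v * s = od (d' * (k * e₂ * B)))| ≤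
      cfg h μ κ ε 0 i fun _ k _ e₂ d' => ind (v * s = od (d' * (k * e₂ * B))) *
        (3 * ind (SLine.Bad d u (d' * (k * e₂ * B))) + 1 / qq F β) := by
  have hA : ∀ k ∈ monF F κ, ∀ e₂ ∈ monF F 0, k * e₂ * B ∈ monF F (κ + b) := fun k hk e₂ he => by
    have h1 := mon_mul hk he
    rw [add_zero] at h1
    exact mon_mul h1 hB
  have e1 : ∀ k e₂ x : F[X], k * (e₂ * B * (s ^ 2 * x) ^ 2) = k * e₂ * B * (s ^ 2 * x) ^ 2 :=
    fun k e₂ x => by ring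
  have hsh : ∀ x : degreeLT F (2 * (d + u)), ∀ k ∈ monF F κ, ∀ e₁ ∈ monF F ε, ∀ e₂ ∈ monF F 0,
      (k * (e₂ * B * (s ^ 2 * x.1) ^ 2)).degree < i := fun x k hk e₁ _ e₂ he => by
    rw [e1]
    exact deg_shift (hA k hk e₂ he) hs (mem_degreeLT.1 x.2) (by omega)
  have hav := cfg_avg (h := h) hn
    (fun (x : degreeLT F (2 * (d + u))) _ _ e₂ => e₂ * B * (s ^ 2 * x.1) ^ 2) hsh
  have h3 := hav fun _ k _ e₂ d' => ind (v * s = od (d' * (k * e₂ * B))) *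
    (2 * ind (SLine.Bad d u (d' * (k * e₂ * B))))
  have h4 : (cfg h μ κ ε 0 i fun _ k _ e₂ d' => ind (v * s = od (d' * (k * e₂ * B))) *
      (3 * ind (SLine.Bad d u (d' * (k * e₂ * B))) + 1 / qq F β)) =
      (cfg h μ κ ε 0 i fun _ k _ e₂ d' => ind (v * s = od (d' * (k * e₂ * B))) *
        (2 * ind (SLine.Bad d u (d' * (k * e₂ * B))))) +
      cfg h μ κ ε 0 i fun _ k _ e₂ d' => ind (v * s = od (d' * (k * e₂ * B))) *
        (ind (SLine.Bad d u (d' * (k * e₂ * B))) + 1 / qq F β) := by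
    rw [← cfg_add]
    exact cfg_congr fun _ _ _ _ _ _ _ _ _ _ _ => by ring
  have h5 := hav fun _ k e₁ e₂ d' => c k e₁ * lam d' * ind (v * s = od (d' * (k * e₂ * B)))
  rw [h5, h4, h3, ← cfg_add]
  refine (abs_cfg_le _).trans (cfg_mono fun m _ k hk e₁ he₁ e₂ he₂ D hD _ => ?_)
  simp only [e1]
  exact pointwise hr hd hv hs (hA k hk e₂ he₂) hD hN h2 (hc k hk e₁ he₁)

end TOne

open TOne in
theorem typeU [CharP F 2] {h : F[X]} (hh : h ≠ 0) {N L η d u r : ℕ} (hp : Par F N L η d u r)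
    {n μ κ ε i b : ℕ} (hn : μ + κ = n) (hn' : i + ε = n) (hN : i + κ + b = 2 * N + 1)
    (h2 : κ + b + 2 * L ≤ i) {τ : ℝ} (hτ : DivB F τ n)
    (hη : 100 * n * τ ^ 4 * qq F (2 * h.natDegree) ≤ qq F η) (c : F[X] → F[X] → ℝ)
    (hc : ∀ k ∈ monF F κ, ∀ e ∈ monF F ε, |c k e| ≤ 1) {B : F[X]} (hB : B ∈ monF F b)
    (hBs : Squarefree B) :
    |cfg h μ κ ε 0 i fun _ k e₁ e₂ d' =>
      c k e₁ * lam d' * gw (goodV F d u) r (od (d' * (k * e₂ * B)))| ≤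
      qq F n / qq F (4 * η) := by
  have hr := hp.hr
  have hL := hp.hL
  have hu := hp.hu
  have hτ1 := hτ.one_le
  have hn1 : 1 ≤ n := by omega
  have hhη := natDegree_lt_of_small hn1 hτ1 hη
  have hηd : 10 * η ≤ d := by
    have h1 : 1 ≤ Fintype.card F := Fintype.card_pos
    have h3 : 1 ≤ 8 ^ (2 * u + 2) := Nat.one_le_pow _ _ (by norm_num)
    have h4 : 10 * η ≤ Fintype.card F * (10 * η) := Nat.le_mul_of_pos_left _ h1
    have h5 : 2 * (Fintype.card F * (10 * η)) ≤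
        2 * (Fintype.card F * (10 * η)) * 8 ^ (2 * u + 2) := Nat.le_mul_of_pos_right _ h3
    have := hp.hd
    omega
  have hbad := cfg_bad (μ := μ) (κ := κ) (ε₁ := ε) (ε₂ := 0) (i := i) (d := d) (u := u) hh hn
    (by omega) hτ (by omega) (by omega) hB hBs
  have hone := cfg_one_le (h := h) (μ := μ) (κ := κ) (ε₁ := ε) (ε₂ := 0) (i := i) hτ hn (by omega)
  have hq := qq_pos (F := F)
  calc _ = |∑ v ∈ goodV F d u, ∑ s ∈ monF F r, cfg h μ κ ε 0 i fun _ k e₁ e₂ d' =>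
          c k e₁ * lam d' * ind (v * s = od (d' * (k * e₂ * B)))| := by
        simp only [← cfg_sum, gw, Finset.mul_sum]
    _ ≤ ∑ v ∈ goodV F d u, ∑ s ∈ monF F r, cfg h μ κ ε 0 i fun _ k _ e₂ d' =>
          ind (v * s = od (d' * (k * e₂ * B))) *
            (3 * ind (SLine.Bad d u (d' * (k * e₂ * B))) + 1 / qq F (10 * η)) :=
        (Finset.abs_sum_le_sum_abs _ _).trans (Finset.sum_le_sum fun v hv =>
          (Finset.abs_sum_le_sum_abs _ _).trans (Finset.sum_le_sum fun s hs =>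
            key (N := N) hr hp.hd (by omega) (by omega) (by omega) c hc hB hv hs))
    _ ≤ cfg h μ κ ε 0 i fun _ k _ e₂ d' =>
          3 * ind (SLine.Bad d u (d' * (k * e₂ * B))) + 1 / qq F (10 * η) * 1 := by
        simp only [← cfg_sum, ← Finset.sum_mul]
        refine cfg_mono fun m _ k _ e₁ _ e₂ _ D _ _ => ?_
        rw [mul_one]
        refine mul_le_of_le_one_left ?_ (gw_le_one hr _)
        have := ind_nonneg (SLine.Bad d u (D * (k * e₂ * B)))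
        have := hq (10 * η)
        positivity
    _ ≤ 3 * (τ ^ 3 * (4 + 2 * b) * qq F n / qq F (10 * η)) +
          1 / qq F (10 * η) * (τ ^ 3 * qq F n) := by
        rw [cfg_add, cfg_mul, cfg_mul]
        have h1 := hq (10 * η)
        have h3 := hq n
        refine add_le_add (mul_le_mul_of_nonneg_left (hbad.trans ?_) (by norm_num))
          (mul_le_mul_of_nonneg_left hone (by positivity))
        exact div_le_div_of_nonneg_left (by positivity) h1 (qq_mono hηd)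
    _ = τ ^ 3 * (13 + 6 * b) * qq F n / qq F (10 * η) := by ring
    _ ≤ qq F (6 * η) * qq F n / qq F (10 * η) := by
        have h1 := hq (10 * η)
        have h3 := hq n
        have hb : (13 : ℝ) + 6 * b ≤ 100 * n := by
          have : 13 + 6 * b ≤ 100 * n := by omega
          exact_mod_cast this
        have h4 : τ ^ 3 * (13 + 6 * b) ≤ qq F (6 * η) :=
          calc τ ^ 3 * (13 + 6 * b) ≤ τ ^ 4 * (100 * n) :=
                mul_le_mul (pow_le_pow_right₀ hτ1 (by norm_num)) hb (by positivity) (by positivity)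
            _ = 100 * n * τ ^ 4 * 1 := by ring
            _ ≤ 100 * n * τ ^ 4 * qq F (2 * h.natDegree) :=
                mul_le_mul_of_nonneg_left (one_le_qq _) (by positivity)
            _ ≤ qq F η := hη
            _ ≤ _ := qq_mono (by omega)
        gcongr
    _ = _ := by
        rw [show 10 * η = 6 * η + 4 * η by ring, qq_add, mul_div_mul_left _ _ (hq _).ne']

end Pool.Agent.MP_43e117_nt

end

section

/- Twin primes of `F[X]`: the two estimates for the Liouville function. -/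

set_option autoImplicit false
set_option linter.unusedSectionVars false

namespace Pool.Agent.MP_43e117_nt

open Polynomial Finset Pool.Agent.MP_4fffd4_nt Pool.Agent.MP_c853c5_nt
open scoped BigOperators

variable {F : Type*} [Field F] [Fintype F]

namespace TLU

theorem setup [CharP F 2] (h : F[X]) (M : ℕ) : ∃ C : ℕ, 0 < C ∧ ∃ n₀ : ℕ, ∀ n, n₀ ≤ n →
    ∃ (L : ℕ) (τ : ℝ), DivB F τ n ∧ 1 ≤ n / C ∧ h.natDegree < n ∧
      100 * n * τ ^ 4 * qq F (2 * h.natDegree) ≤ qq F (n / C) ∧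
      (∀ E, n ≤ M * E → 2 * L + 20 * (n / C) + 5 ≤ E) ∧
      ∀ N, n ≤ 4 * N → N ≤ n → ∃ d u r, Par F N L (n / C) d u r := by
  obtain ⟨C, hC, hC0, n₁, H⟩ := exists_Par (F := F) (16 * (M + 1)) (100 * (M + 1))
  obtain ⟨n₂, H₂⟩ := exists_DivB (F := F) 1 (10 * C) (by omega)
  obtain ⟨n₃, H₃⟩ := exists_poly (F := F) 100 1 (10 * C) (by omega)
  refine ⟨C, hC0, n₁ + n₂ + n₃ + 10 * C * (h.natDegree + 1) + 100 * (M + 1), fun n hn =>
    ⟨n / (8 * (M + 1)), qq F (n / (10 * C)), by simpa using H₂ n (by omega), ?_, by nlinarith,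
      ?_, fun E hE => ?_, fun N h1 h2 => H n (by omega) N _ h1 h2 ?_ ?_⟩⟩
  · exact (Nat.le_div_iff_mul_le hC0).2 (by nlinarith)
  · have a1 := H₃ n (by omega)
    have a2 : h.natDegree ≤ n / (10 * C) := (Nat.le_div_iff_mul_le (by omega)).2 (by nlinarith)
    have a3 : 10 * (n / (10 * C)) ≤ n / C := by
      rw [mul_comm 10 C, ← Nat.div_div_eq_div_mul]; omega
    rw [pow_one] at a1
    generalize n / (10 * C) = z at a1 a2 a3
    calc _ ≤ qq F z * qq F z ^ 4 * qq F (2 * z) := by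
          have := qq_pos (F := F) z
          have := qq_pos (F := F) (2 * h.natDegree)
          gcongr
          · exact_mod_cast a1
          · exact qq_mono (by omega)
      _ ≤ _ := by rw [qq_pow, ← qq_add, ← qq_add]; exact qq_mono (by omega)
  · have a1 := Nat.div_mul_le_self n (8 * (M + 1))
    have a2 := Nat.div_mul_le_self n C
    generalize n / (8 * (M + 1)) = L at a1
    generalize n / C = η at a2
    have a3 : 8 * L ≤ E := Nat.le_of_mul_le_mul_left (c := M + 1) (by nlinarith) (by omega)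
    have a4 : 100 * η ≤ E := Nat.le_of_mul_le_mul_left (c := M + 1) (by nlinarith) (by omega)
    have a5 : 100 ≤ E := Nat.le_of_mul_le_mul_left (c := M + 1) (by nlinarith) (by omega)
    omega
  · have a1 := Nat.lt_mul_div_succ n (b := 8 * (M + 1)) (by omega)
    have a2 : 1 ≤ n / (8 * (M + 1)) := (Nat.le_div_iff_mul_le (by omega)).2 (by omega)
    nlinarith
  · have a1 := Nat.div_mul_le_self n (8 * (M + 1))
    nlinarith

theorem fin {n η : ℕ} (hη : 1 ≤ η) {τ x : ℝ} (hτ : 1 ≤ τ) (hτ' : τ ≤ qq F η)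
    (hx : |x| ≤ qq F η * (qq F n / qq F (4 * η) + qq F n / qq F (4 * η))) :
    |τ * x| ≤ qq F n / qq F η := by
  have h1 := qq_pos (F := F) η
  have h2 := qq_pos (F := F) n
  have h3 : 2 ≤ qq F η := le_trans (by simpa using two_pow_le_qq (F := F) 1) (qq_mono hη)
  rw [mul_comm 4 η, ← qq_pow] at hx
  rw [abs_mul, abs_of_pos (by linarith : 0 < τ)]
  calc _ ≤ qq F η * (qq F η * (qq F n / qq F η ^ 4 + qq F n / qq F η ^ 4)) := by gcongr
    _ = qq F n / qq F η * (2 / qq F η) := by field_simp; ring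
    _ ≤ _ := mul_le_of_le_one_right (by positivity) (by rw [div_le_one h1]; exact h3)

theorem tau_le {h : F[X]} {n η : ℕ} (hn : 1 ≤ n) {τ : ℝ} (hτ : 1 ≤ τ)
    (hη : 100 * n * τ ^ 4 * qq F (2 * h.natDegree) ≤ qq F η) : τ ≤ qq F η := by
  refine le_trans ?_ hη
  have h1 : (1 : ℝ) ≤ n := by exact_mod_cast hn
  have h2 := one_le_qq (F := F) (2 * h.natDegree)
  have h3 : τ ≤ τ ^ 4 := le_self_pow₀ hτ (by norm_num)
  calc τ = 1 * τ * 1 := by ring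
    _ ≤ _ := by gcongr; linarith

theorem corr_merge {h : F[X]} {n i ε₁ ε₂ : ℕ} {τ : ℝ} (hτ : τ ≠ 0) (Ψ α β : F[X] → ℝ) :
    corr h n Ψ (cv3 lam α β i ε₁ ε₂) =
      τ * corr h n Ψ (cv3 lam (fun e => cv α β ε₁ ε₂ e / τ) (fun _ => 1) i (ε₁ + ε₂) 0) := by
  unfold corr
  rw [Finset.mul_sum]
  refine Finset.sum_congr rfl fun f _ => ?_
  rw [cv3_merge, mul_left_comm]
  congr 1
  simp only [cv3, Finset.mul_sum]
  refine Finset.sum_congr rfl fun _ _ => Finset.sum_congr rfl fun _ _ =>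
    Finset.sum_congr rfl fun _ _ => ?_
  field_simp

theorem bd_merge {n ε₁ ε₂ : ℕ} {τ : ℝ} (hτ : DivB F τ n) (hn : ε₁ + ε₂ ≤ n) {α β : F[X] → ℝ}
    (hα : Bd ε₁ α) (hβ : Bd ε₂ β) : Bd (ε₁ + ε₂) fun e => cv α β ε₁ ε₂ e / τ := fun e _ => by
  have h1 : 0 < τ := one_pos.trans_le hτ.one_le
  rw [abs_div, abs_of_pos h1, div_le_one h1]
  simpa using abs_cv_le hτ hα hβ hn e

theorem sq_zero {e : F[X]} (he : e ∈ monF F 0) : ind (Squarefree e) = 1 := by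
  obtain ⟨h1, h2⟩ := mem_monF.1 he
  rw [h1.natDegree_eq_zero.1 h2]
  exact ind_pos squarefree_one

theorem coreL [CharP F 2] {h : F[X]} (hh : h ≠ 0) {n L η E : ℕ} {τ : ℝ} (hτ : DivB F τ n)
    (hhn : h.natDegree < n) (hη : 100 * n * τ ^ 4 * qq F (2 * h.natDegree) ≤ qq F η)
    (hE : 2 * L + 20 * η + 5 ≤ E) (hP : ∀ N, n ≤ 4 * N → N ≤ n → ∃ d u r, Par F N L η d u r)
    {i ε₁ ε₂ μ κ : ℕ} (h1 : i + ε₁ + ε₂ = n) (h2 : μ + κ = n) (h3 : ε₁ + E ≤ κ)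
    (h4 : 2 * κ + 4 * ε₂ + E ≤ n) {α₁ β₁ α₂ β₂ : F[X] → ℝ} (a1 : Bd μ α₁) (b1 : Bd κ β₁)
    (a2 : Bd ε₁ α₂) (b2 : ∀ e ∈ monF F ε₂, |β₂ e| ≤ ind (Squarefree e)) :
    |corr h n (cv α₁ β₁ μ κ) (cv3 lam α₂ β₂ i ε₁ ε₂)| ≤
      qq F η * (qq F n / qq F (4 * η) + qq F n / qq F (4 * η)) := by
  obtain ⟨b, N, hN, c1, c2⟩ : ∃ b N, i + κ + ε₂ + b = 2 * N + 1 ∧ κ ≤ b + ε₁ ∧ b + ε₁ ≤ κ + 1 :=
    ⟨κ - ε₁ + (i + ε₂ + ε₁ + 1) % 2, (i + κ + ε₂ + (κ - ε₁ + (i + ε₂ + ε₁ + 1) % 2)) / 2,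
      by omega, by omega, by omega⟩
  obtain ⟨d, u, r, hp⟩ := hP N (by omega) (by omega)
  have hβ : ∀ k ∈ monF F κ, ∀ e ∈ monF F ε₂, |β₁ k * β₂ e| ≤ ind (Squarefree e) :=
    fun k hk e he => by
      rw [abs_mul]
      exact (mul_le_of_le_one_left (abs_nonneg _) (b1 k hk)).trans (b2 e he)
  have hα : ∀ m ∈ monF F μ, ∀ e ∈ monF F ε₁, |α₁ m * α₂ e| ≤ 1 := fun m hm e he => by
    rw [abs_mul]
    exact mul_le_one₀ (a1 m hm) (abs_nonneg _) (a2 e he)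
  rw [corr_eq_cfg h2, cfg_congr (G' := fun m k e₁ e₂ d' =>
    α₁ m * α₂ e₁ * (β₁ k * β₂ e₂ * lam d')) fun _ _ _ _ _ _ _ _ _ _ _ => by ring]
  refine weight hh hp h2 h1 hN c1 (by omega) (by omega) hτ hhn hη _
    (fun m hm k hk e₁ he₁ e₂ he₂ d' _ => ?_) fun B hB hBs =>
      typeL hh hp h2 h1 hN (by omega) (by omega) hτ hη (fun m e => α₁ m * α₂ e)
        (fun k e => β₁ k * β₂ e) hα hβ hB hBs
  rw [abs_mul, abs_mul _ (lam d'), abs_lam, mul_one]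
  exact (mul_le_of_le_one_left (abs_nonneg _) (hα m hm e₁ he₁)).trans (hβ k hk e₂ he₂)

theorem coreU [CharP F 2] {h : F[X]} (hh : h ≠ 0) {n L η E : ℕ} {τ : ℝ} (hτ : DivB F τ n)
    (hhn : h.natDegree < n) (hη : 100 * n * τ ^ 4 * qq F (2 * h.natDegree) ≤ qq F η)
    (hE : 2 * L + 20 * η + 5 ≤ E) (hP : ∀ N, n ≤ 4 * N → N ≤ n → ∃ d u r, Par F N L η d u r)
    {i ε κ : ℕ} (h1 : i + ε = n) (h2 : n ≤ 2 * i) (h3 : κ + E ≤ i) (h4 : 2 * κ + E ≤ n)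
    {β α : F[X] → ℝ} (b1 : Bd κ β) (a2 : Bd ε α) :
    |corr h n (up β κ) (cv3 lam α (fun _ => 1) i ε 0)| ≤
      qq F η * (qq F n / qq F (4 * η) + qq F n / qq F (4 * η)) := by
  obtain ⟨μ, hμ⟩ : ∃ μ, μ + κ = n := ⟨n - κ, by omega⟩
  obtain ⟨b₀, c1, c2, c3⟩ : ∃ b₀, κ ≤ b₀ + ε ∧ 20 * η + 4 ≤ b₀ ∧ κ + b₀ + 1 + 2 * L ≤ i :=
    ⟨max (κ - ε) (20 * η + 4), by omega, by omega, by omega⟩
  obtain ⟨b, N, hN, c4, c5⟩ : ∃ b N, i + κ + b = 2 * N + 1 ∧ b₀ ≤ b ∧ b ≤ b₀ + 1 :=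
    ⟨b₀ + (i + κ + b₀ + 1) % 2, (i + κ + (b₀ + (i + κ + b₀ + 1) % 2)) / 2,
      by omega, by omega, by omega⟩
  obtain ⟨d, u, r, hp⟩ := hP N (by omega) (by omega)
  have hc : ∀ k ∈ monF F κ, ∀ e ∈ monF F ε, |β k * α e| ≤ 1 := fun k hk e he => by
    rw [abs_mul]
    exact mul_le_one₀ (b1 k hk) (abs_nonneg _) (a2 e he)
  have e1 : corr h n (up β κ) (cv3 lam α (fun _ => 1) i ε 0) =
      corr h n (cv (fun _ => 1) β μ κ) (cv3 lam α (fun _ => 1) i ε 0) :=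
    Finset.sum_congr rfl fun f hf => by rw [up_eq_cv hμ β hf]
  rw [e1, corr_eq_cfg hμ, cfg_congr (G' := fun _ k e₁ _ d' => β k * α e₁ * lam d')
    fun _ _ _ _ _ _ _ _ _ _ _ => by ring]
  refine weight hh hp hμ h1 hN (by omega) (by omega) (by omega) hτ hhn hη _
    (fun m hm k hk e₁ he₁ e₂ he₂ d' _ => ?_) fun B hB hBs =>
      typeU hh hp hμ h1 hN (by omega) hτ hη (fun k e => β k * α e) hc hB hBs
  rw [abs_mul, abs_lam, mul_one, sq_zero he₂]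
  exact hc k hk e₁ he₁

end TLU

open TLU

theorem estL [CharP F 2] {h : F[X]} (hh : h ≠ 0) (M : ℕ) : ∃ C : ℕ, 0 < C ∧ ∃ n₀ : ℕ,
    ∀ n, n₀ ≤ n → ∀ E i ε₁ ε₂ μ κ : ℕ, n ≤ M * E → i + ε₁ + ε₂ = n → μ + κ = n →
      (ε₁ + E ≤ κ ∧ 2 * κ + 4 * ε₂ + E ≤ n ∨ ε₁ + ε₂ + E ≤ κ ∧ 2 * κ + E ≤ n) →
      ∀ α₁ β₁ α₂ β₂ : F[X] → ℝ, Bd μ α₁ → Bd κ β₁ → Bd ε₁ α₂ →
        (∀ e ∈ monF F ε₂, |β₂ e| ≤ ind (Squarefree e)) →
        |corr h n (cv α₁ β₁ μ κ) (cv3 lam α₂ β₂ i ε₁ ε₂)| ≤ qq F n / qq F (n / C) := by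
  obtain ⟨C, hC, n₀, H⟩ := setup h M
  refine ⟨C, hC, n₀, fun n hn E i ε₁ ε₂ μ κ hE h1 h2 h3 α₁ β₁ α₂ β₂ a1 b1 a2 b2 => ?_⟩
  obtain ⟨L, τ, hτ, hη1, hhn, hη, hL, hP⟩ := H n hn
  rcases h3 with ⟨h3, h4⟩ | ⟨h3, h4⟩
  · simpa using fin hη1 le_rfl (one_le_qq _)
      (coreL hh hτ hhn hη (hL E hE) hP h1 h2 h3 h4 a1 b1 a2 b2)
  · rw [corr_merge (τ := τ) (one_pos.trans_le hτ.one_le).ne']
    exact fin hη1 hτ.one_le (tau_le (by omega) hτ.one_le hη)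
      (coreL hh hτ hhn hη (hL E hE) hP (by omega) h2 h3 h4 a1 b1
        (bd_merge hτ (by omega) a2 fun e he => (b2 e he).trans (ind_le_one _))
        fun e he => by rw [sq_zero he, abs_one])

theorem estU [CharP F 2] {h : F[X]} (hh : h ≠ 0) (M : ℕ) : ∃ C : ℕ, 0 < C ∧ ∃ n₀ : ℕ,
    ∀ n, n₀ ≤ n → ∀ E i ε₁ ε₂ κ : ℕ, n ≤ M * E → i + ε₁ + ε₂ = n → n ≤ 2 * i → κ + E ≤ i →
      2 * κ + E ≤ n → ∀ β₁ α₂ β₂ : F[X] → ℝ, Bd κ β₁ → Bd ε₁ α₂ → Bd ε₂ β₂ →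
        |corr h n (up β₁ κ) (cv3 lam α₂ β₂ i ε₁ ε₂)| ≤ qq F n / qq F (n / C) := by
  obtain ⟨C, hC, n₀, H⟩ := setup h M
  refine ⟨C, hC, n₀, fun n hn E i ε₁ ε₂ κ hE h1 h2 h3 h4 β₁ α₂ β₂ b1 a2 b2 => ?_⟩
  obtain ⟨L, τ, hτ, hη1, hhn, hη, hL, hP⟩ := H n hn
  rw [corr_merge (τ := τ) (one_pos.trans_le hτ.one_le).ne']
  exact fin hη1 hτ.one_le (tau_le (by omega) hτ.one_le hη)
    (coreU hh hτ hhn hη (hL E hE) hP (by omega) h2 h3 h4 b1 (bd_merge hτ (by omega) a2 b2))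

end Pool.Agent.MP_43e117_nt

end
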