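import Mathlib
import Pool.Agent.Mg.F43e117.G16e741

/- Twin primes of `F[X]`: from the Moebius function to the Liouville function. -/

set_option autoImplicit false
set_option linter.unusedSectionVars false

namespace Pool.Agent.MP_43e117_nt

open Polynomial Finset Pool.Agent.MP_4fffd4_nt Pool.Agent.MP_c853c5_nt
open scoped BigOperators

variable {F : Type*} [Field F] [Fintype F]

namespace TRepL

theorem ind_iff {P Q : Prop} (h : P ↔ Q) : ind P = ind Q := congrArg ind (propext h)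

theorem ind_cg {P : Prop} {a b : ℝ} (h : P → a = b) : ind P * a = ind P * b := by
  by_cases hP : P
  · rw [h hP]
  · rw [ind_neg hP, zero_mul, zero_mul]

theorem sum_eq {α : Type*} {s : Finset α} {a : α} (ha : a ∈ s) (f : α → ℝ) :
    ∑ x ∈ s, ind (a = x) * f x = f a := by
  rw [Finset.sum_eq_single_of_mem a ha fun x _ hx => by rw [ind_neg hx.symm, zero_mul],
    ind_pos rfl, one_mul]

theorem lam_mul_self (g : F[X]) : lam g * lam g = 1 := by
  unfold lam
  rcases liou_cases g with h | h <;> simp [h]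

theorem lam_sq_mul {s g : F[X]} (hs : s ≠ 0) (hg : g ≠ 0) : lam (s ^ 2 * g) = lam g := by
  rw [sq, lam_mul (mul_ne_zero hs hs) hg, lam_mul hs hs, lam_mul_self, one_mul]

theorem mu_of_sqfree {g : F[X]} (h : Squarefree g) : mu g = lam g := by
  unfold mu lam
  rw [if_pos h]

theorem mu_of_not {g : F[X]} (h : ¬Squarefree g) : mu g = 0 := by
  unfold mu
  rw [if_neg h]

theorem sq_dvd_iff {a γ s : F[X]} (ha : Squarefree a) (hs : Squarefree s) :
    s ^ 2 ∣ a * γ ^ 2 ↔ s ∣ γ := by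
  refine ⟨fun h => ?_, fun h => Dvd.dvd.mul_left (pow_dvd_pow_of_dvd h 2) a⟩
  rw [sq s] at h
  exact (hs.dvd_pow_iff_dvd two_ne_zero).1 (ha.dvd_of_squarefree_of_mul_dvd_mul_right h)

end TRepL

open TRepL

theorem mu_eq_lam {d : F[X]} (hd : d.Monic) :
    mu d = lam d * ∑ s ∈ divs d, ind (s ^ 2 ∣ d) * mu s := by
  classical
  obtain ⟨a, γ, ha, hγ, hsq, rfl⟩ := exists_sqfree hd
  have h1 : ∑ s ∈ divs (a * γ ^ 2), ind (s ^ 2 ∣ a * γ ^ 2) * mu s = ∑ s ∈ divs γ, mu s := by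
    have h2 : ∀ s, ind (s ^ 2 ∣ a * γ ^ 2) * mu s = ind (s ∣ γ) * mu s := by
      intro s
      by_cases hs : Squarefree s
      · rw [ind_iff (sq_dvd_iff hsq hs)]
      · rw [mu_of_not hs, mul_zero, mul_zero]
    simp only [h2]
    rw [SPsi.sum_ind_mul]
    refine Finset.sum_congr ?_ fun _ _ => rfl
    ext s
    rw [mem_filter, mem_divs hd.ne_zero, mem_divs hγ.ne_zero]
    exact ⟨fun h => ⟨h.1.1, h.2⟩, fun h => ⟨⟨h.1, Dvd.dvd.mul_left (h.2.trans
      (dvd_pow_self γ two_ne_zero)) a⟩, h.2⟩⟩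
  rw [h1, sum_mu_divs hγ]
  by_cases h : γ = 1
  · subst h
    rw [ind_pos rfl, mul_one, one_pow, mul_one, mu_of_sqfree hsq]
  · rw [ind_neg h, mul_zero]
    refine mu_of_not fun h' => h (hγ.eq_one_of_isUnit (h' γ ?_))
    rw [← sq]
    exact dvd_mul_left _ _

namespace TRepL

/-- The part of a divisor sum supported on squarefree divisors. -/
noncomputable def sA (α : F[X] → ℝ) (d : F[X]) : ℝ := ∑ K ∈ divs d, ind (Squarefree K) * α K

/-- The new third coefficient. -/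
noncomputable def cC (n : ℕ) (α : F[X] → ℝ) (s g : F[X]) : ℝ :=
  ind (s.Monic ∧ g.Monic ∧ Squarefree g ∧ IsCoprime g s ∧ s.natDegree + g.natDegree ≤ n) *
    (mu s * lam g * ∑ g₀ ∈ divs s, α (g₀ * g))

/-- The new second coefficient. -/
noncomputable def bB (m : ℕ) (b : F[X] → ℝ) (s e : F[X]) : ℝ :=
  ind (s ≠ 0) * ∑ e₀ ∈ monF F m, ind (s ^ 2 * e₀ = e) * b e₀

theorem abs_ind (P : Prop) : |ind P| = ind P := abs_of_nonneg (ind_nonneg P)

theorem abs_bB {m : ℕ} {b : F[X] → ℝ} {B : ℝ} (hB : 0 ≤ B) (hb : ∀ e ∈ monF F m, |b e| ≤ B)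
    (s e : F[X]) : |bB m b s e| ≤ B := by
  unfold bB
  by_cases hs : s ≠ 0
  · rw [ind_pos hs, one_mul]
    by_cases h : ∃ e₀ ∈ monF F m, s ^ 2 * e₀ = e
    · obtain ⟨e₀, he₀, rfl⟩ := h
      have : ∀ e₁, ind (s ^ 2 * e₁ = s ^ 2 * e₀) = ind (e₀ = e₁) := fun e₁ =>
        ind_iff ((mul_right_inj' (pow_ne_zero 2 hs)).trans eq_comm)
      simp only [this]
      rw [sum_eq he₀]
      exact hb e₀ he₀
    · rw [Finset.sum_eq_zero fun e₀ he₀ => by rw [ind_neg fun h' => h ⟨e₀, he₀, h'⟩, zero_mul],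
        abs_zero]
      exact hB
  · rw [ind_neg hs, zero_mul, abs_zero]
    exact hB

theorem bB_eq_zero {m : ℕ} (b : F[X] → ℝ) {s e : F[X]} (h : ¬s ∣ e) : bB m b s e = 0 := by
  unfold bB
  rw [Finset.sum_eq_zero fun e₀ _ => by
    rw [ind_neg fun h' : s ^ 2 * e₀ = e =>
      h (h' ▸ Dvd.dvd.mul_right (dvd_pow_self s two_ne_zero) e₀), zero_mul],
    mul_zero]

theorem abs_cC {n R : ℕ} {B : ℝ} {a α : F[X] → ℝ} (ha : Lev n R B a α) (hB : 0 ≤ B)
    (s g : F[X]) : |cC n α s g| ≤ B * ind (Squarefree g) := by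
  classical
  unfold cC
  by_cases h : s.Monic ∧ g.Monic ∧ Squarefree g ∧ IsCoprime g s ∧ s.natDegree + g.natDegree ≤ n
  · obtain ⟨hs, hg, hsq, -, hn⟩ := id h
    rw [ind_pos h, ind_pos hsq, one_mul, mul_one, abs_mul, abs_mul, abs_lam, mul_one]
    have h1 : |∑ g₀ ∈ divs s, α (g₀ * g)| ≤ B := by
      refine (Finset.abs_sum_le_sum_abs _ _).trans (le_trans ?_
        (ha.norm (s * g) (hs.mul hg) (by rw [hs.natDegree_mul hg]; exact hn)))
      rw [← Finset.sum_image (f := fun K => |α K|) (g := fun g₀ => g₀ * g)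
        fun x _ y _ hxy => mul_right_cancel₀ hg.ne_zero hxy]
      refine Finset.sum_le_sum_of_subset_of_nonneg (fun K hK => ?_) fun _ _ _ => abs_nonneg _
      obtain ⟨g₀, hg₀, rfl⟩ := mem_image.1 hK
      rw [mem_divs hs.ne_zero] at hg₀
      exact (mem_divs (hs.mul hg).ne_zero).2 ⟨hg₀.1.mul hg, mul_dvd_mul_right hg₀.2 g⟩
    calc |mu s| * |∑ g₀ ∈ divs s, α (g₀ * g)| ≤ 1 * B :=
          mul_le_mul (abs_mu_le s) h1 (abs_nonneg _) zero_le_one
      _ = B := one_mul B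
  · rw [ind_neg h, zero_mul, abs_zero]
    exact mul_nonneg hB (ind_nonneg _)

theorem mu_mul_eq {n R : ℕ} {B : ℝ} {a α : F[X] → ℝ} (ha : Lev n R B a α) {d : F[X]}
    (hd : d.Monic) (hn : d.natDegree ≤ n) : mu d * a d = mu d * sA α d := by
  by_cases h : Squarefree d
  · rw [ha.expand d hd hn, sA]
    congr 1
    refine Finset.sum_congr rfl fun K hK => ?_
    rw [ind_pos (h.squarefree_of_dvd ((mem_divs hd.ne_zero).1 hK).2), one_mul]
  · rw [mu_of_not h, zero_mul, zero_mul]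

/-- squarefree divisors of `s ^ 2 * d` split uniquely -/
theorem sA_split (α : F[X] → ℝ) {s d : F[X]} (hs : s.Monic) (hsq : Squarefree s) (hd : d.Monic) :
    sA α (s ^ 2 * d) =
      ∑ g ∈ divs d, ind (Squarefree g ∧ IsCoprime g s) * ∑ g₀ ∈ divs s, α (g₀ * g) := by
  classical
  have hsd : (s ^ 2 * d).Monic := (hs.pow 2).mul hd
  rw [sA, SPsi.sum_ind_mul, SPsi.sum_ind_mul, ← Finset.sum_product']
  symm
  refine Finset.sum_bij (fun p _ => p.2 * p.1) ?_ ?_ ?_ fun _ _ => rfl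
  · rintro ⟨g, g₀⟩ hp
    simp only [mem_product, mem_filter, mem_divs hd.ne_zero, mem_divs hs.ne_zero] at hp
    obtain ⟨⟨⟨h1, h2⟩, h3, h4⟩, h5, h6⟩ := hp
    simp only [mem_filter, mem_divs hsd.ne_zero]
    refine ⟨⟨h5.mul h1, mul_dvd_mul (h6.trans (dvd_pow_self s two_ne_zero)) h2⟩, ?_⟩
    exact squarefree_mul_iff.2 ⟨(h4.of_isCoprime_of_dvd_right h6).symm.isRelPrime,
      hsq.squarefree_of_dvd h6, h3⟩
  · rintro ⟨g, g₀⟩ hp ⟨g', g₀'⟩ hp' he
    simp only [mem_product, mem_filter, mem_divs hd.ne_zero, mem_divs hs.ne_zero] at hp hp'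
    obtain ⟨⟨⟨h1, -⟩, -, h4⟩, -, h6⟩ := hp
    obtain ⟨⟨⟨h1', -⟩, -, h4'⟩, -, h6'⟩ := hp'
    dsimp only at he
    have e1 : g ∣ g' := (h4.of_isCoprime_of_dvd_right h6').dvd_of_dvd_mul_left
      (he ▸ dvd_mul_left g g₀)
    have e2 : g' ∣ g := (h4'.of_isCoprime_of_dvd_right h6).dvd_of_dvd_mul_left
      (he ▸ dvd_mul_left g' g₀')
    have e3 : g = g' := eq_of_monic_of_associated h1 h1' (associated_of_dvd_dvd e1 e2)
    subst e3
    rw [mul_right_cancel₀ h1.ne_zero he]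
  · intro K hK
    simp only [mem_filter, mem_divs hsd.ne_zero] at hK
    obtain ⟨⟨h1, h2⟩, h3⟩ := hK
    obtain ⟨g, hg⟩ := gcd_dvd_left K s
    have hg0 : (gcd K s).Monic := by
      rw [← _root_.normalize_gcd]
      exact monic_normalize fun h => hs.ne_zero ((gcd_eq_zero_iff K s).1 h).2
    have hgm : g.Monic := hg0.of_mul_monic_left (hg ▸ h1)
    have hrel : IsRelPrime (gcd K s) g := IsRelPrime.of_squarefree_mul (hg ▸ h3)
    have hgK : g ∣ K := Dvd.intro_left _ hg.symm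
    have hco : IsCoprime g s := isRelPrime_iff_isCoprime.1 fun x hx hx' =>
      hrel (dvd_gcd (hx.trans hgK) hx') hx
    refine ⟨(g, gcd K s), ?_, hg.symm⟩
    simp only [mem_product, mem_filter, mem_divs hd.ne_zero, mem_divs hs.ne_zero]
    exact ⟨⟨⟨hgm, (hco.pow_right (n := 2)).dvd_of_dvd_mul_left (hgK.trans h2)⟩,
      h3.squarefree_of_dvd hgK, hco⟩, hg0, gcd_dvd_right K s⟩

theorem star {n R i σ : ℕ} {B : ℝ} {a α : F[X] → ℝ} (ha : Lev n R B a α) (hin : i ≤ n)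
    {s d : F[X]} (hs : s ∈ monF F σ) (hd : d ∈ monF F i) :
    ind (s ^ 2 ∣ d) * (lam d * mu s * sA α d) = ∑ j ∈ range (R + 1), ∑ g ∈ monF F j,
      ∑ d₁ ∈ monF F (i - j - 2 * σ), ind (s ^ 2 * (g * d₁) = d) * (lam d₁ * cC n α s g) := by
  rw [mem_monF] at hs hd
  by_cases h : s ^ 2 ∣ d
  swap
  · rw [ind_neg h, zero_mul]
    symm
    refine Finset.sum_eq_zero fun j _ => Finset.sum_eq_zero fun g _ =>
      Finset.sum_eq_zero fun d₁ _ => ?_
    rw [ind_neg fun h' => h (Dvd.intro _ h'), zero_mul]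
  rw [ind_pos h, one_mul]
  obtain ⟨d₂, rfl⟩ := h
  have hs2 : (s ^ 2).Monic := hs.1.pow 2
  have hd₂ : d₂.Monic := hs2.of_mul_monic_left hd.1
  have hdeg : 2 * σ + d₂.natDegree = i := by
    rw [← hd.2, hs2.natDegree_mul hd₂, hs.1.natDegree_pow, hs.2]
  have h1 : ∀ j ∈ range (R + 1), ∀ g ∈ monF F j, ∑ d₁ ∈ monF F (i - j - 2 * σ),
      ind (s ^ 2 * (g * d₁) = s ^ 2 * d₂) * (lam d₁ * cC n α s g) =
        ind (g ∣ d₂) * (lam d₂ * (lam g * cC n α s g)) := by
    intro j hj g hg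
    rw [mem_monF] at hg
    by_cases hgd : g ∣ d₂
    · rw [ind_pos hgd, one_mul]
      obtain ⟨d₃, rfl⟩ := hgd
      have hd₃ : d₃.Monic := hg.1.of_mul_monic_left hd₂
      have hm : d₃ ∈ monF F (i - j - 2 * σ) := by
        rw [hg.1.natDegree_mul hd₃, hg.2] at hdeg
        exact mem_monF.2 ⟨hd₃, by omega⟩
      have : ∀ d₁, ind (s ^ 2 * (g * d₁) = s ^ 2 * (g * d₃)) = ind (d₃ = d₁) := fun d₁ =>
        ind_iff (((mul_right_inj' hs2.ne_zero).trans (mul_right_inj' hg.1.ne_zero)).trans eq_comm)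
      simp only [this]
      rw [sum_eq hm (fun d₁ => lam d₁ * cC n α s g), lam_mul hg.1.ne_zero hd₃.ne_zero]
      linear_combination (-(lam d₃ * cC n α s g)) * lam_mul_self g
    · rw [ind_neg hgd, zero_mul]
      refine Finset.sum_eq_zero fun d₁ _ => ?_
      rw [ind_neg fun h' => hgd (Dvd.intro _ (mul_left_cancel₀ hs2.ne_zero h')), zero_mul]
  rw [Finset.sum_congr rfl fun j hj => Finset.sum_congr rfl (h1 j hj),
    ← SPsi.sum_divs_lt hd₂.ne_zero, lam_sq_mul hs.1.ne_zero hd₂.ne_zero]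
  by_cases hsq : Squarefree s
  swap
  · simp [cC, mu_of_not hsq]
  rw [sA_split α hs.1 hsq hd₂, Finset.mul_sum]
  refine Finset.sum_congr rfl fun g hg => ?_
  rw [mem_divs hd₂.ne_zero] at hg
  have hgd : g.natDegree ≤ d₂.natDegree := natDegree_le_of_dvd hg.2 hd₂.ne_zero
  have e1 : ind (s.Monic ∧ g.Monic ∧ Squarefree g ∧ IsCoprime g s ∧
      s.natDegree + g.natDegree ≤ n) = ind (Squarefree g ∧ IsCoprime g s) :=
    ind_iff ⟨fun h => ⟨h.2.2.1, h.2.2.2.1⟩, fun h => ⟨hs.1, hg.1, h.1, h.2, by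
      rw [hs.2]; omega⟩⟩
  rw [cC, e1]
  by_cases hc : Squarefree g ∧ IsCoprime g s
  swap
  · simp [ind_neg hc]
  by_cases hR : g.natDegree < R + 1
  · rw [ind_pos hR]
    linear_combination (-(lam d₂ * mu s * ind (Squarefree g ∧ IsCoprime g s) *
      ∑ g₀ ∈ divs s, α (g₀ * g))) * lam_mul_self g
  · have : ∑ g₀ ∈ divs s, α (g₀ * g) = 0 := by
      refine Finset.sum_eq_zero fun g₀ hg₀ => ?_
      by_contra h0
      have := ha.supp (g₀ * g) g (((mem_divs hs.1.ne_zero).1 hg₀).1.mul hg.1) h0 hc.1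
        (dvd_mul_left _ _)
      omega
    simp [this]

theorem piece {n R i m σ : ℕ} {B : ℝ} {a α : F[X] → ℝ} (ha : Lev n R B a α) (hin : i ≤ n)
    (hi : R + 2 * σ ≤ i) (b : F[X] → ℝ) {s : F[X]} (hs : s ∈ monF F σ) (f : F[X]) :
    ∑ d ∈ monF F i, ∑ e ∈ monF F m,
      ind (d * e = f) * (ind (s ^ 2 ∣ d) * (lam d * mu s * sA α d) * b e) =
    ∑ j ∈ range (R + 1), cv3 lam (bB m b s) (cC n α s) (i - j - 2 * σ) (m + 2 * σ) j f := by
  have hs' := mem_monF.1 hs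
  have hs2 : (s ^ 2).Monic := hs'.1.pow 2
  have hdeg : (s ^ 2).natDegree = 2 * σ := by rw [hs'.1.natDegree_pow, hs'.2]
  have hL : ∑ d ∈ monF F i, ∑ e ∈ monF F m,
      ind (d * e = f) * (ind (s ^ 2 ∣ d) * (lam d * mu s * sA α d) * b e) =
      ∑ j ∈ range (R + 1), ∑ g ∈ monF F j, ∑ d₁ ∈ monF F (i - j - 2 * σ), ∑ e ∈ monF F m,
        ind (s ^ 2 * (g * d₁) * e = f) * (lam d₁ * cC n α s g * b e) := by
    have h1 : ∀ d ∈ monF F i, ∑ e ∈ monF F m,
        ind (d * e = f) * (ind (s ^ 2 ∣ d) * (lam d * mu s * sA α d) * b e) =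
        ∑ j ∈ range (R + 1), ∑ g ∈ monF F j, ∑ d₁ ∈ monF F (i - j - 2 * σ),
          ind (s ^ 2 * (g * d₁) = d) *
            ∑ e ∈ monF F m, ind (d * e = f) * (lam d₁ * cC n α s g * b e) := by
      intro d hd
      rw [star ha hin hs hd]
      have h2 : ∀ X : ℝ, ∑ e ∈ monF F m, ind (d * e = f) * (X * b e) =
          X * ∑ e ∈ monF F m, ind (d * e = f) * b e := by
        intro X
        rw [Finset.mul_sum]
        exact Finset.sum_congr rfl fun e _ => by ring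
      simp only [h2]
      simp only [Finset.sum_mul, mul_assoc]
    rw [Finset.sum_congr rfl h1, Finset.sum_comm]
    refine Finset.sum_congr rfl fun j hj => ?_
    rw [Finset.sum_comm]
    refine Finset.sum_congr rfl fun g hg => ?_
    rw [Finset.sum_comm]
    refine Finset.sum_congr rfl fun d₁ hd₁ => ?_
    rw [mem_monF] at hg hd₁
    have hm : s ^ 2 * (g * d₁) ∈ monF F i := by
      refine mem_monF.2 ⟨hs2.mul (hg.1.mul hd₁.1), ?_⟩
      rw [hs2.natDegree_mul (hg.1.mul hd₁.1), hg.1.natDegree_mul hd₁.1, hdeg, hg.2, hd₁.2]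
      have := mem_range.1 hj
      omega
    exact sum_eq hm fun d => ∑ e ∈ monF F m, ind (d * e = f) * (lam d₁ * cC n α s g * b e)
  rw [hL]
  refine Finset.sum_congr rfl fun j _ => ?_
  rw [cv3, Finset.sum_comm]
  refine Finset.sum_congr rfl fun d₁ _ => ?_
  rw [Finset.sum_comm (s := monF F (m + 2 * σ))]
  refine Finset.sum_congr rfl fun g _ => ?_
  have h3 : ∀ e', ind (d₁ * (e' * g) = f) * (lam d₁ * (bB m b s e' * cC n α s g)) =
      ∑ e ∈ monF F m, ind (s ^ 2 * e = e') *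
        (ind (d₁ * (e' * g) = f) * (lam d₁ * cC n α s g * b e)) := by
    intro e'
    rw [bB, ind_pos hs'.1.ne_zero, one_mul, Finset.sum_mul, Finset.mul_sum, Finset.mul_sum]
    exact Finset.sum_congr rfl fun e _ => by ring
  simp only [h3]
  rw [Finset.sum_comm]
  refine Finset.sum_congr rfl fun e he => ?_
  rw [mem_monF] at he
  have hm : s ^ 2 * e ∈ monF F (m + 2 * σ) := by
    refine mem_monF.2 ⟨hs2.mul he.1, ?_⟩
    rw [hs2.natDegree_mul he.1, hdeg, he.2, add_comm]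
  rw [sum_eq hm fun e' => ind (d₁ * (e' * g) = f) * (lam d₁ * cC n α s g * b e),
    show d₁ * (s ^ 2 * e * g) = s ^ 2 * (g * d₁) * e by ring]

theorem cv_split {n R T i m : ℕ} {B : ℝ} {a α : F[X] → ℝ} (ha : Lev n R B a α) (hin : i ≤ n)
    (b : F[X] → ℝ) {f : F[X]} (hf : ¬Sq T f) :
    cv (fun d => mu d * a d) b i m f = ∑ σ ∈ range T, ∑ s ∈ monF F σ, ∑ d ∈ monF F i,
      ∑ e ∈ monF F m, ind (d * e = f) * (ind (s ^ 2 ∣ d) * (lam d * mu s * sA α d) * b e) := by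
  have h1 : ∀ d ∈ monF F i, ∀ e ∈ monF F m, ind (d * e = f) * (mu d * a d * b e) =
      ∑ σ ∈ range T, ∑ s ∈ monF F σ,
        ind (d * e = f) * (ind (s ^ 2 ∣ d) * (lam d * mu s * sA α d) * b e) := by
    intro d hd e _
    rw [mem_monF] at hd
    simp only [← Finset.mul_sum]
    refine ind_cg fun hde => ?_
    have h2 : ∑ s ∈ divs d, ind (s ^ 2 ∣ d) * mu s =
        ∑ σ ∈ range T, ∑ s ∈ monF F σ, ind (s ^ 2 ∣ d) * mu s := by
      have h3 : ∀ s ∈ divs d, ind (s ^ 2 ∣ d) * mu s =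
          ind (s.natDegree < T) * (ind (s ^ 2 ∣ d) * mu s) := by
        intro s hs
        by_cases h : s ^ 2 ∣ d
        · rw [ind_pos (P := s.natDegree < T), one_mul]
          by_contra h'
          exact hf ⟨s, ((mem_divs hd.1.ne_zero).1 hs).1, not_lt.1 h',
            hde ▸ Dvd.dvd.mul_right h e⟩
        · simp [ind_neg h]
      rw [Finset.sum_congr rfl h3, SPsi.sum_divs_lt hd.1.ne_zero]
      refine Finset.sum_congr rfl fun σ _ => Finset.sum_congr rfl fun s _ => ?_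
      by_cases h : s ^ 2 ∣ d
      · rw [ind_pos ((dvd_pow_self s two_ne_zero).trans h), one_mul]
      · simp [ind_neg h]
    rw [mu_mul_eq ha hd.1 (hd.2 ▸ hin), mu_eq_lam hd.1, h2]
    simp only [Finset.mul_sum, Finset.sum_mul]
    exact Finset.sum_congr rfl fun σ _ => Finset.sum_congr rfl fun s _ => by ring
  rw [cv, Finset.sum_congr rfl fun d hd => Finset.sum_congr rfl (h1 d hd)]
  rw [Finset.sum_congr rfl fun d _ => Finset.sum_comm, Finset.sum_comm]
  refine Finset.sum_congr rfl fun σ _ => ?_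
  rw [Finset.sum_congr rfl fun d _ => Finset.sum_comm, Finset.sum_comm]

end TRepL

theorem cv_eq_cv3 {n R T i m : ℕ} {B τ : ℝ} {a α b : F[X] → ℝ} (ha : Lev n R B a α)
    (hb : ∀ e ∈ monF F m, |b e| ≤ B) (hτ : DivB F τ n) (hm : i + m = n) (hi : R + 2 * T ≤ i) :
    ∃ b' c : F[X] → F[X] → ℝ, (∀ s e, |b' s e| ≤ B) ∧ (∀ s g, |c s g| ≤ B * ind (Squarefree g)) ∧
      ∀ f ∈ monF F n, |cv (fun d => mu d * a d) b i m f -
        ∑ σ ∈ range T, ∑ s ∈ monF F σ, ∑ j ∈ range (R + 1),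
          cv3 lam (b' s) (c s) (i - j - 2 * σ) (m + 2 * σ) j f| ≤
        ind (Sq T f) * ((R + 2) * τ ^ 3 * B ^ 2) := by
  have hB : 0 ≤ B := (Finset.sum_nonneg fun _ _ => abs_nonneg _).trans
    (ha.norm 1 monic_one (by simp))
  have hin : i ≤ n := by omega
  refine ⟨bB m b, cC n α, abs_bB hB hb, abs_cC ha hB, fun f hf => ?_⟩
  by_cases hS : Sq T f
  swap
  · rw [ind_neg hS, zero_mul, cv_split ha hin b hS, Finset.sum_congr rfl fun σ hσ =>
      Finset.sum_congr rfl fun s hs => piece ha hin (by have := mem_range.1 hσ; omega) b hs f,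
      sub_self, abs_zero]
  rw [ind_pos hS, one_mul]
  rw [mem_monF] at hf
  have hτ1 := hτ.one_le
  have h1 : |cv (fun d => mu d * a d) b i m f| ≤ τ * (B * B) := by
    refine abs_cv_le hτ (fun d hd => ?_) hb hm.le f
    rw [mem_monF] at hd
    rw [abs_mul]
    calc |mu d| * |a d| ≤ 1 * B := mul_le_mul (abs_mu_le d) (ha.abs_le hd.1 (hd.2 ▸ hin))
          (abs_nonneg _) zero_le_one
      _ = B := one_mul B
  have h2 : ∀ σ ∈ range T, ∀ s ∈ monF F σ, |∑ j ∈ range (R + 1),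
      cv3 lam (bB m b s) (cC n α s) (i - j - 2 * σ) (m + 2 * σ) j f| ≤
        ind (s ∣ f) * ((R + 1) * (τ ^ 2 * (1 * (B * B)))) := by
    intro σ hσ s _
    by_cases h : s ∣ f
    · rw [ind_pos h, one_mul]
      refine (Finset.abs_sum_le_sum_abs _ _).trans ?_
      refine (Finset.sum_le_card_nsmul _ _ (τ ^ 2 * (1 * (B * B))) fun j hj => ?_).trans_eq
        (by simp)
      refine abs_cv3_le hτ (fun g _ => (abs_lam g).le) (fun g _ => abs_bB hB hb s g)
        (fun g _ => (abs_cC ha hB s g).trans (mul_le_of_le_one_right hB (ind_le_one _))) ?_ f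
      have := mem_range.1 hσ
      have := mem_range.1 hj
      omega
    · rw [ind_neg h, zero_mul, Finset.sum_eq_zero, abs_zero]
      intro j _
      refine Finset.sum_eq_zero fun d _ => Finset.sum_eq_zero fun e _ =>
        Finset.sum_eq_zero fun g _ => ?_
      by_cases h' : d * (e * g) = f
      · rw [bB_eq_zero b fun he => h (h' ▸ Dvd.dvd.mul_left (Dvd.dvd.mul_right he g) d)]
        simp
      · rw [ind_neg h', zero_mul]
  have h3 : |∑ σ ∈ range T, ∑ s ∈ monF F σ, ∑ j ∈ range (R + 1),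
      cv3 lam (bB m b s) (cC n α s) (i - j - 2 * σ) (m + 2 * σ) j f| ≤
        τ * ((R + 1) * (τ ^ 2 * (1 * (B * B)))) := by
    refine (Finset.abs_sum_le_sum_abs _ _).trans ((Finset.sum_le_sum fun σ hσ =>
      (Finset.abs_sum_le_sum_abs _ _).trans (Finset.sum_le_sum (h2 σ hσ))).trans ?_)
    simp only [← Finset.sum_mul]
    exact mul_le_mul_of_nonneg_right (sum_upLE_le hτ hf.1.ne_zero hf.2.le T) (by positivity)
  have h4 : τ * (B * B) ≤ τ ^ 3 * (B * B) :=
    mul_le_mul_of_nonneg_right (le_self_pow₀ hτ1 (by norm_num)) (mul_nonneg hB hB)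
  refine (abs_sub _ _).trans ?_
  nlinarith

end Pool.Agent.MP_43e117_nt
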