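import Mathlib
import Pool.Agent.Mg.F43e117.Gb7fff1

/- Twin primes of `F[X]`: modified Moebius series. -/

set_option autoImplicit false
set_option linter.unusedSectionVars false

namespace Pool.Agent.MP_43e117_nt

open Polynomial Finset Pool.Agent.MP_4fffd4_nt Pool.Agent.MP_c853c5_nt
open scoped BigOperators

variable {F : Type*} [Field F] [Fintype F]

namespace THH

/-- One term of the series. -/
noncomputable def tm (v : F[X] → ℝ) (d : F[X]) : ℝ := mu d * ∏ Q ∈ pf d, v Q

open Classical in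
/-- The weights of the series. -/
noncomputable def vv (S : Finset F[X]) (w : F[X] → ℝ) (P : F[X]) : ℝ :=
  if P ∈ S then w P else 1 / qq F P.natDegree

open Classical in
/-- The part of the series prime to `P`. -/
noncomputable def gg (P : F[X]) (v : F[X] → ℝ) (i : ℕ) : ℝ :=
  ∑ d ∈ monF F i, if P ∣ d then 0 else tm v d

/-- The shift of a sequence. -/
noncomputable def sh (p : ℕ) (a : ℕ → ℝ) (i : ℕ) : ℝ := if p ≤ i then a (i - p) else 0

theorem cc_eq (S : Finset F[X]) (w : F[X] → ℝ) (i : ℕ) :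
    cc S w i = ∑ d ∈ monF F i, tm (vv S w) d := rfl

open Classical in
theorem tm_mul {P d : F[X]} (hP : P.Monic) (hi : Irreducible P) (hd : d ≠ 0) (v : F[X] → ℝ) :
    tm v (P * d) = -(v P * if P ∣ d then 0 else tm v d) := by
  unfold tm
  rw [SConv.mu_mul hi hd]
  by_cases h : P ∣ d
  · simp [h]
  · have h1 : pf (P * d) = insert P (pf d) := by
      ext Q
      rw [mem_insert, mem_pf hd, mem_pf (mul_ne_zero hP.ne_zero hd)]
      constructor
      · rintro ⟨h1, h2, h3⟩
        rcases h2.prime.dvd_or_dvd h3 with h4 | h4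
        · exact Or.inl (eq_of_monic_of_associated h1 hP (h2.associated_of_dvd hi h4))
        · exact Or.inr ⟨h1, h2, h4⟩
      · rintro (rfl | ⟨h1, h2, h3⟩)
        · exact ⟨hP, hi, dvd_mul_right _ _⟩
        · exact ⟨h1, h2, h3.mul_left _⟩
    rw [if_neg h, if_neg h, h1, prod_insert fun h2 => h ((mem_pf hd).1 h2).2.2]
    ring

theorem split {P : F[X]} (hP : P.Monic) (hi : Irreducible P) (v : F[X] → ℝ) (i : ℕ) :
    ∑ d ∈ monF F i, tm v d = gg P v i - v P * sh P.natDegree (gg P v) i := by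
  classical
  have h1 : ∑ d ∈ monF F i, tm v d =
      gg P v i + ∑ d ∈ (monF F i).filter (P ∣ ·), tm v d := by
    rw [gg, sum_filter, ← sum_add_distrib]
    refine sum_congr rfl fun d _ => ?_
    split_ifs <;> simp
  rw [h1, sub_eq_add_neg]
  congr 1
  unfold sh
  split_ifs with h
  · rw [gg, mul_sum, ← sum_neg_distrib]
    symm
    refine sum_bij (fun d _ => P * d) (fun d hd => ?_) (fun d _ e _ hde => ?_) (fun d hd => ?_)
      (fun d hd => ?_)
    · obtain ⟨h2, h3⟩ := mem_monF.1 hd
      exact mem_filter.2 ⟨mem_monF.2 ⟨hP.mul h2, by rw [hP.natDegree_mul h2, h3]; omega⟩,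
        dvd_mul_right _ _⟩
    · exact mul_left_cancel₀ hP.ne_zero hde
    · obtain ⟨h2, e, rfl⟩ := mem_filter.1 hd
      obtain ⟨h3, h4⟩ := mem_monF.1 h2
      have h5 : e.Monic := hP.of_mul_monic_left h3
      exact ⟨e, mem_monF.2 ⟨h5, by rw [hP.natDegree_mul h5] at h4; omega⟩, rfl⟩
    · rw [tm_mul hP hi (mem_monF.1 hd).1.ne_zero]
  · rw [mul_zero, neg_zero]
    refine sum_eq_zero fun d hd => ?_
    obtain ⟨h2, h3⟩ := mem_filter.1 hd
    obtain ⟨h4, h5⟩ := mem_monF.1 h2
    have := natDegree_le_of_dvd h3 h4.ne_zero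
    omega

theorem gg_congr {P : F[X]} {v v' : F[X] → ℝ} (h : ∀ Q, Q ≠ P → v Q = v' Q) :
    gg P v = gg P v' := by
  funext i
  refine sum_congr rfl fun d hd => ?_
  split_ifs with h1
  · rfl
  · unfold tm
    congr 1
    refine prod_congr rfl fun Q hQ => h Q fun e => h1 ?_
    rw [← e]
    exact ((mem_pf (mem_monF.1 hd).1.ne_zero).1 hQ).2.2

theorem tm_empty (w : F[X] → ℝ) (n : ℕ) : ∀ d : F[X], d.Monic → d.natDegree = n →
    tm (vv ∅ w) d = mu d / qq F n := by
  classical
  induction n using Nat.strong_induction_on with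
  | _ n ih =>
    intro d hd hn
    by_cases h1 : d = 1
    · have h2 : pf (1 : F[X]) = ∅ := eq_empty_of_forall_notMem fun Q hQ =>
        ((mem_pf one_ne_zero).1 hQ).2.1.not_isUnit (isUnit_of_dvd_one ((mem_pf one_ne_zero).1 hQ).2.2)
      subst h1
      rw [natDegree_one] at hn
      rw [tm, h2, prod_empty, ← hn, qq_zero, mul_one, div_one]
    · obtain ⟨P, hP, hi, e, rfl⟩ := exists_monic_irreducible_factor d
        fun h => h1 (hd.isUnit_iff.1 h)
      have he : e.Monic := hP.of_mul_monic_left hd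
      rw [hP.natDegree_mul he] at hn
      have hp := hi.natDegree_pos
      rw [tm_mul hP hi he.ne_zero, SConv.mu_mul hi he.ne_zero, ih e.natDegree (by omega) e he rfl,
        ← hn, qq_add, vv, if_neg (notMem_empty _)]
      have := qq_pos (F := F) P.natDegree
      have := qq_pos (F := F) e.natDegree
      split_ifs
      · simp
      · field_simp

theorem HH_empty (w : F[X] → ℝ) (j : ℕ) : HH ∅ w j = if j = 0 then 1 else 0 := by
  have h : ∀ i, cc (∅ : Finset F[X]) w i = if i = 0 then 1 else if i = 1 then -1 else 0 := by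
    intro i
    rw [cc_eq, sum_congr rfl fun d hd => tm_empty w i d (mem_monF.1 hd).1 (mem_monF.1 hd).2,
      ← sum_div, sum_mu_monF]
    have := card_pos' (F := F)
    split_ifs with h1 h2
    · rw [h1, qq_zero, div_one]
    · rw [h2, qq, pow_one, neg_div, div_self this.ne']
    · rw [zero_div]
  unfold HH
  induction j with
  | zero => simp [h]
  | succ j ih =>
    rw [sum_range_succ, ih, h]
    rcases j with _ | j <;> simp

theorem sum_sh (p : ℕ) (a : ℕ → ℝ) (J : ℕ) :
    ∑ i ∈ range J, sh p a i = ∑ i ∈ range (J - p), a i := by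
  induction J with
  | zero => simp
  | succ J ih =>
    rw [sum_range_succ, ih, sh]
    split_ifs with h
    · rw [Nat.succ_sub h, sum_range_succ]
    · rw [add_zero, show J + 1 - p = 0 by omega, show J - p = 0 by omega]

theorem part_sh (p : ℕ) (a : ℕ → ℝ) (j : ℕ) :
    ∑ i ∈ range (j + 1), sh p a i = sh p (fun j => ∑ i ∈ range (j + 1), a i) j := by
  rw [sum_sh, sh]
  split_ifs with h
  · rw [Nat.succ_sub h]
  · rw [show j + 1 - p = 0 by omega, sum_range_zero]

open Classical in
theorem HH_insert {S : Finset F[X]} {P : F[X]} (hP : P.Monic) (hi : Irreducible P) (hS : P ∉ S)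
    (w : F[X] → ℝ) (j : ℕ) :
    HH (insert P S) w j - 1 / qq F P.natDegree * sh P.natDegree (HH (insert P S) w) j =
      HH S w j - w P * sh P.natDegree (HH S w) j := by
  have hg : gg P (vv (insert P S) w) = gg P (vv S w) := gg_congr fun Q hQ => by
    simp only [vv, mem_insert, hQ, false_or]
  have h1 : ∀ i, cc (insert P S) w i =
      gg P (vv S w) i - w P * sh P.natDegree (gg P (vv S w)) i := fun i => by
    rw [cc_eq, split hP hi, hg, vv, if_pos (mem_insert_self _ _)]
  have h2 : ∀ i, cc S w i =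
      gg P (vv S w) i - 1 / qq F P.natDegree * sh P.natDegree (gg P (vv S w)) i := fun i => by
    rw [cc_eq, split hP hi, vv, if_neg hS]
  have h3 : ∀ i, cc (insert P S) w i - 1 / qq F P.natDegree * sh P.natDegree (cc (insert P S) w) i
      = cc S w i - w P * sh P.natDegree (cc S w) i := fun i => by
    rw [h1, h2]
    by_cases h : P.natDegree ≤ i
    · have e : ∀ a : ℕ → ℝ, sh P.natDegree a i = a (i - P.natDegree) := fun a => if_pos h
      rw [e, e, e, h1, h2]
      ring
    · have e : ∀ a : ℕ → ℝ, sh P.natDegree a i = 0 := fun a => if_neg h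
      rw [e, e, e]
      ring
  have h4 := sum_congr (rfl : range (j + 1) = range (j + 1)) fun i _ => h3 i
  rw [sum_sub_distrib, sum_sub_distrib, ← mul_sum, ← mul_sum, part_sh, part_sh] at h4
  exact h4

theorem norm_sh (p : ℕ) (a : ℕ → ℝ) (J : ℕ) :
    ∑ j ∈ range J, |sh p a j| * (4 / 3) ^ j ≤
      (4 / 3) ^ p * ∑ j ∈ range J, |a j| * (4 / 3) ^ j := by
  have h : ∀ j, |sh p a j| * (4 / 3) ^ j =
      sh p (fun j => (4 / 3) ^ p * (|a j| * (4 / 3) ^ j)) j := fun j => by
    unfold sh
    split_ifs with h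
    · obtain ⟨k, rfl⟩ := Nat.exists_eq_add_of_le h
      rw [Nat.add_sub_cancel_left, pow_add]
      ring
    · simp
  simp only [h]
  rw [sum_sh, ← mul_sum]
  refine mul_le_mul_of_nonneg_left (sum_le_sum_of_subset_of_nonneg
    (range_subset_range.2 (Nat.sub_le _ _)) fun _ _ _ => by positivity) (by positivity)

theorem small {p : ℕ} (hp : 0 < p) : 1 / qq F p * (4 / 3) ^ p ≤ 2 / 3 := by
  have h1 := two_pow_le_qq (F := F) p
  calc 1 / qq F p * (4 / 3) ^ p ≤ 1 / 2 ^ p * (4 / 3) ^ p := by gcongr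
    _ = (2 / 3) ^ p := by rw [one_div, ← inv_pow, ← mul_pow]; norm_num
    _ ≤ 2 / 3 := pow_le_of_le_one (by norm_num) (by norm_num) hp.ne'

theorem NN_nonneg (S : Finset F[X]) (w : F[X] → ℝ) : 0 ≤ NN S w :=
  prod_nonneg fun _ _ => by positivity

theorem hasSum_sh (p : ℕ) {a : ℕ → ℝ} {s : ℝ} (h : HasSum a s) : HasSum (sh p a) s := by
  rw [← hasSum_nat_add_iff' p, sum_sh, Nat.sub_self, sum_range_zero, sub_zero]
  simpa [sh] using h

end THH

open THH

theorem HH_norm {S : Finset F[X]} (hS : ∀ P ∈ S, P.Monic ∧ Irreducible P) (w : F[X] → ℝ)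
    (J : ℕ) : ∑ j ∈ range J, |HH S w j| * (4 / 3) ^ j ≤ NN S w := by
  classical
  induction S using Finset.induction_on with
  | empty =>
    rw [NN, prod_empty]
    rcases J with _ | J
    · simp
    · rw [sum_range_succ']
      simp [HH_empty]
  | insert P S hPS ih =>
    obtain ⟨hP, hi⟩ := hS P (mem_insert_self _ _)
    have ih := ih fun Q hQ => hS Q (mem_insert_of_mem hQ)
    have hx : 0 ≤ 1 / qq F P.natDegree := (one_div_pos.2 (qq_pos _)).le
    have hs := small (F := F) hi.natDegree_pos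
    set x := 1 / qq F P.natDegree with hxd
    set p := P.natDegree
    set D : ℕ → ℝ := fun j => HH (insert P S) w j - HH S w j with hD
    have h1 : ∀ j, D j = x * sh p D j - (w P - x) * sh p (HH S w) j := fun j => by
      have h2 := HH_insert hP hi hPS w j
      have h3 : sh p D j = sh p (HH (insert P S) w) j - sh p (HH S w) j := by
        unfold sh
        split_ifs <;> simp [hD]
      rw [h3]
      simp only [hD]
      linear_combination h2
    have h2 : ∑ j ∈ range J, |D j| * (4 / 3) ^ j ≤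
        x * ∑ j ∈ range J, |sh p D j| * (4 / 3) ^ j +
          |w P - x| * ∑ j ∈ range J, |sh p (HH S w) j| * (4 / 3) ^ j := by
      rw [mul_sum, mul_sum, ← sum_add_distrib]
      refine sum_le_sum fun j _ => ?_
      rw [← mul_assoc, ← mul_assoc, ← add_mul]
      refine mul_le_mul_of_nonneg_right ?_ (by positivity)
      rw [h1 j]
      refine (abs_sub _ _).trans_eq ?_
      rw [abs_mul, abs_mul, abs_of_nonneg hx]
    have h3 := mul_le_mul_of_nonneg_left (norm_sh p D J) hx
    have h4 := mul_le_mul_of_nonneg_left ((norm_sh p (HH S w) J).trans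
      (mul_le_mul_of_nonneg_left ih (by positivity))) (abs_nonneg (w P - x))
    have h5 : 0 ≤ ∑ j ∈ range J, |D j| * (4 / 3) ^ j := sum_nonneg fun _ _ => by positivity
    have h6 := mul_le_mul_of_nonneg_right hs h5
    have h7 : ∑ j ∈ range J, |HH (insert P S) w j| * (4 / 3) ^ j ≤
        ∑ j ∈ range J, |D j| * (4 / 3) ^ j + ∑ j ∈ range J, |HH S w j| * (4 / 3) ^ j := by
      rw [← sum_add_distrib]
      refine sum_le_sum fun j _ => ?_
      rw [← add_mul]
      refine mul_le_mul_of_nonneg_right ?_ (by positivity)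
      simpa [hD] using abs_add_le (D j) (HH S w j)
    rw [NN, prod_insert hPS, ← NN]
    nlinarith

namespace THH

theorem hasSum_HH {S : Finset F[X]} (hS : ∀ P ∈ S, P.Monic ∧ Irreducible P) (w : F[X] → ℝ) :
    HasSum (HH S w) (∏ P ∈ S, (1 - w P) / (1 - 1 / qq F P.natDegree)) := by
  classical
  induction S using Finset.induction_on with
  | empty =>
    rw [prod_empty, show HH (∅ : Finset F[X]) w = fun j => if j = 0 then 1 else 0 from
      funext (HH_empty w)]
    exact hasSum_ite_eq 0 1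
  | insert P S hPS ih =>
    obtain ⟨hP, hi⟩ := hS P (mem_insert_self _ _)
    have ih := ih fun Q hQ => hS Q (mem_insert_of_mem hQ)
    have h1 : Summable (HH (insert P S) w) := by
      refine Summable.of_abs (summable_of_sum_range_le (fun _ => abs_nonneg _) fun J =>
        le_trans (sum_le_sum fun j _ => ?_) (HH_norm hS w J))
      exact le_mul_of_one_le_right (abs_nonneg _) (one_le_pow₀ (by norm_num))
    obtain ⟨s, h2⟩ := h1
    have h3 := h2.sub ((hasSum_sh P.natDegree h2).mul_left (1 / qq F P.natDegree))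
    have h4 := ih.sub ((hasSum_sh P.natDegree ih).mul_left (w P))
    simp only [HH_insert hP hi hPS] at h3
    have h5 := h3.unique h4
    have h6 : 1 - 1 / qq F P.natDegree ≠ 0 := by
      have h7 := small (F := F) hi.natDegree_pos
      have h8 : (1 : ℝ) ≤ (4 / 3) ^ P.natDegree := one_le_pow₀ (by norm_num)
      have h9 : 0 ≤ 1 / qq F P.natDegree := (one_div_pos.2 (qq_pos _)).le
      nlinarith
    rw [prod_insert hPS]
    convert h2 using 1
    rw [div_mul_eq_mul_div, div_eq_iff h6]
    linear_combination -h5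

theorem abs_HH_le {S : Finset F[X]} (hS : ∀ P ∈ S, P.Monic ∧ Irreducible P) (w : F[X] → ℝ)
    (j : ℕ) : |HH S w j| ≤ (3 / 4) ^ j * NN S w := by
  have h1 := (single_le_sum (f := fun j => |HH S w j| * (4 / 3) ^ j) (fun _ _ => by positivity)
    (self_mem_range_succ j)).trans (HH_norm hS w (j + 1))
  have h2 : ((3 : ℝ) / 4) ^ j * (4 / 3) ^ j = 1 := by rw [← mul_pow]; norm_num
  calc |HH S w j| = (3 / 4) ^ j * (|HH S w j| * (4 / 3) ^ j) := by
        linear_combination -|HH S w j| * h2
    _ ≤ _ := mul_le_mul_of_nonneg_left h1 (by positivity)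

theorem abel (S : Finset F[X]) (w : F[X] → ℝ) (n : ℝ) (k : ℕ) :
    ∑ i ∈ range (k + 1), (n - i) * cc S w i =
      ∑ j ∈ range (k + 1), HH S w j + (n - (k + 1)) * HH S w k := by
  induction k with
  | zero => simp [HH]; ring
  | succ k ih =>
    have h : HH S w (k + 1) = HH S w k + cc S w (k + 1) := sum_range_succ _ _
    rw [sum_range_succ, ih, sum_range_succ _ (k + 1), h]
    push_cast
    ring

end THH

theorem HH_sum {S : Finset F[X]} (hS : ∀ P ∈ S, P.Monic ∧ Irreducible P) (w : F[X] → ℝ)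
    (J : ℕ) : |∑ j ∈ range J, HH S w j - ∏ P ∈ S, (1 - w P) / (1 - 1 / qq F P.natDegree)| ≤
      (3 / 4) ^ J * NN S w := by
  have h1 := ((hasSum_HH hS w).tendsto_sum_nat.const_sub (∑ j ∈ range J, HH S w j)).abs
  refine le_of_tendsto h1 (Filter.eventually_atTop.2 ⟨J, fun K hK => ?_⟩)
  rw [abs_sub_comm, ← sum_Ico_eq_sub _ hK]
  refine (abs_sum_le_sum_abs _ _).trans (le_trans ?_
    (mul_le_mul_of_nonneg_left (HH_norm hS w K) (by positivity)))
  rw [mul_sum]
  refine le_trans (sum_le_sum fun j hj => ?_) (sum_le_sum_of_subset_of_nonneg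
    (fun j hj => mem_range.2 (mem_Ico.1 hj).2) fun _ _ _ => by positivity)
  obtain ⟨k, rfl⟩ := Nat.exists_eq_add_of_le (mem_Ico.1 hj).1
  have h2 : ((3 : ℝ) / 4) ^ J * (4 / 3) ^ J = 1 := by rw [← mul_pow]; norm_num
  have h3 : (1 : ℝ) ≤ (4 / 3) ^ k := one_le_pow₀ (by norm_num)
  calc |HH S w (J + k)| ≤ |HH S w (J + k)| * (4 / 3) ^ k :=
        le_mul_of_one_le_right (abs_nonneg _) h3
    _ = _ := by
        rw [pow_add]
        linear_combination -(|HH S w (J + k)| * (4 / 3) ^ k) * h2

theorem abs_cc_le {S : Finset F[X]} (hS : ∀ P ∈ S, P.Monic ∧ Irreducible P) (w : F[X] → ℝ)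
    (i : ℕ) : |cc S w i| ≤ 3 * (3 / 4) ^ i * NN S w := by
  have hN := NN_nonneg S w
  rcases i with _ | k
  · have h1 := abs_HH_le hS w 0
    rw [HH, sum_range_one] at h1
    rw [pow_zero] at h1 ⊢
    linarith
  · have h : cc S w (k + 1) = HH S w (k + 1) - HH S w k := by
      rw [HH, sum_range_succ, HH]
      ring
    have h1 := abs_HH_le hS w (k + 1)
    have h2 := abs_HH_le hS w k
    have h3 := abs_sub (HH S w (k + 1)) (HH S w k)
    have h4 : 0 ≤ (3 / 4) ^ k * NN S w := by positivity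
    rw [h]
    rw [pow_succ] at h1 ⊢
    nlinarith

theorem cc_abel {S : Finset F[X]} (hS : ∀ P ∈ S, P.Monic ∧ Irreducible P) (w : F[X] → ℝ)
    {n I : ℕ} (h1 : 1 ≤ I) (hI : I ≤ n) :
    |∑ i ∈ range I, ((n : ℝ) - i) * cc S w i - ∏ P ∈ S, (1 - w P) / (1 - 1 / qq F P.natDegree)| ≤
      3 * n * (3 / 4) ^ I * NN S w := by
  obtain ⟨k, rfl⟩ : ∃ k, I = k + 1 := ⟨I - 1, by omega⟩
  have hN := NN_nonneg S w
  have h2 := HH_sum hS w (k + 1)
  have h3 : (0 : ℝ) ≤ n - (k + 1) := by
    rw [sub_nonneg]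
    exact_mod_cast hI
  have h4 := mul_le_mul_of_nonneg_left (abs_HH_le hS w k) h3
  have h5 : 0 ≤ (3 / 4) ^ k * NN S w := by positivity
  have h6 : (0 : ℝ) ≤ k := Nat.cast_nonneg k
  rw [abel, add_sub_right_comm]
  refine (abs_add_le _ _).trans ?_
  rw [abs_mul, abs_of_nonneg h3]
  rw [pow_succ] at h2 ⊢
  nlinarith [mul_nonneg h3 h5, mul_nonneg h6 h5]

end Pool.Agent.MP_43e117_nt
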