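import Mathlib
import Pool.Agent.Mg.F43e117.G16e741

/- Twin primes of `F[X]`: representations of the pieces. -/

set_option autoImplicit false
set_option linter.unusedSectionVars false

namespace Pool.Agent.MP_43e117_nt

open Polynomial Finset Pool.Agent.MP_4fffd4_nt Pool.Agent.MP_c853c5_nt
open scoped BigOperators

variable {F : Type*} [Field F] [Fintype F]

namespace TRep

theorem exists_lc : ∃ L : F[X] → F[X] → F[X], ∀ d K : F[X], d.Monic → K.Monic →
    (L d K).Monic ∧ ∀ f, L d K ∣ f ↔ d ∣ f ∧ K ∣ f := by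
  classical
  refine ⟨fun d K => EuclideanDomain.lcm d K * C (EuclideanDomain.lcm d K).leadingCoeff⁻¹,
    fun d K hd hK => ?_⟩
  have h0 : EuclideanDomain.lcm d K ≠ 0 := by
    rw [Ne, EuclideanDomain.lcm_eq_zero_iff]
    exact not_or.2 ⟨hd.ne_zero, hK.ne_zero⟩
  refine ⟨monic_mul_leadingCoeff_inv h0, fun f => ?_⟩
  rw [← EuclideanDomain.lcm_dvd_iff]
  exact IsUnit.mul_right_dvd (isUnit_C.2 (IsUnit.mk0 _ (inv_ne_zero (leadingCoeff_ne_zero.2 h0))))

theorem sum_abs_le {n R : ℕ} {B : ℝ} {ν κ : F[X] → ℝ} (hν : Lev n R B ν κ) (V : ℕ) {f : F[X]}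
    (hf : f.Monic) (hn : f.natDegree ≤ n) :
    ∑ t ∈ range V, ∑ K ∈ monF F t, ind (K ∣ f) * |κ K| ≤ B := by
  rw [← SPsi.sum_divs_lt hf.ne_zero V fun K => |κ K|]
  refine le_trans (Finset.sum_le_sum fun e _ => ?_) (hν.norm f hf hn)
  exact mul_le_of_le_one_left (abs_nonneg _) (ind_le_one _)

theorem pick {i R : ℕ} {D₀ : F[X]} (hD : D₀.Monic) (h1 : i ≤ D₀.natDegree)
    (h2 : D₀.natDegree ≤ i + R) (f : F[X]) (x : ℝ) :
    ∑ s ∈ range (R + 1), ∑ D ∈ monF F (i + s), ind (D ∣ f) * (ind (D₀ = D) * x) =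
      ind (D₀ ∣ f) * x := by
  rw [Finset.sum_eq_single (D₀.natDegree - i), Finset.sum_eq_single D₀, ind_pos rfl, one_mul]
  · intro D _ hne
    rw [ind_neg (Ne.symm hne)]; simp
  · intro h
    exact absurd (mem_monF.2 ⟨hD, by omega⟩) h
  · intro s _ hs
    refine Finset.sum_eq_zero fun D hDm => ?_
    have : D₀ ≠ D := by
      rintro rfl
      have := (mem_monF.1 hDm).2
      omega
    rw [ind_neg this]; simp
  · intro h
    exact absurd (Finset.mem_range.2 (by omega)) h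

theorem abs_upLE {n R : ℕ} {B : ℝ} {ν κ : F[X] → ℝ} (hν : Lev n R B ν κ) (R' : ℕ) {f : F[X]}
    (hf : f ∈ monF F n) : |upLE κ R' f| ≤ B := by
  refine le_trans ?_ (sum_abs_le hν (R' + 1) (mem_monF.1 hf).1 (mem_monF.1 hf).2.le)
  unfold upLE up
  refine (Finset.abs_sum_le_sum_abs _ _).trans (Finset.sum_le_sum fun t _ => ?_)
  refine (Finset.abs_sum_le_sum_abs _ _).trans (Finset.sum_le_sum fun K _ => ?_)
  rw [abs_mul, abs_of_nonneg (ind_nonneg _)]

theorem abs_up_mu {n : ℕ} {τ : ℝ} (hτ : DivB F τ n) (i : ℕ) {f : F[X]} (hf : f ∈ monF F n) :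
    |up mu i f| ≤ τ := by
  have := abs_up_le hτ (a := mu) (i := i) (A := 1) (fun g _ => abs_mu_le g)
    (mem_monF.1 hf).1.ne_zero (mem_monF.1 hf).2.le
  rwa [mul_one] at this

end TRep

open TRep

theorem tr_eq_up {n R R' i : ℕ} {B τ : ℝ} {ν κ : F[X] → ℝ} (hν : Lev n R' B ν κ)
    (hτ : DivB F τ n) (hi : i + R ≤ n) : ∃ c : F[X] → ℝ,
      (∀ D : F[X], D.Monic → D.natDegree ≤ n → |c D| ≤ τ * B) ∧
      ∀ f, tr κ R i f = ∑ t ∈ range (R + 1), up c (i + t) f := by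
  obtain ⟨L, hL⟩ := exists_lc (F := F)
  refine ⟨fun D => ∑ d ∈ monF F i, ∑ t ∈ range (R + 1), ∑ K ∈ monF F t,
    ind (L d K = D) * (mu d * κ K), fun D hD hn => ?_, fun f => ?_⟩
  · have h1 := sum_up_le hτ hD.ne_zero hn i
    have h2 := sum_abs_le hν (R + 1) hD hn
    have h3 : 0 ≤ ∑ t ∈ range (R + 1), ∑ K ∈ monF F t, ind (K ∣ D) * |κ K| :=
      Finset.sum_nonneg fun t _ => Finset.sum_nonneg fun K _ =>
        mul_nonneg (ind_nonneg _) (abs_nonneg _)
    refine le_trans ?_ (mul_le_mul h1 h2 h3 (zero_le_one.trans hτ.one_le))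
    rw [Finset.sum_mul]
    refine (Finset.abs_sum_le_sum_abs _ _).trans (Finset.sum_le_sum fun d hd => ?_)
    rw [Finset.mul_sum]
    refine (Finset.abs_sum_le_sum_abs _ _).trans (Finset.sum_le_sum fun t _ => ?_)
    rw [Finset.mul_sum]
    refine (Finset.abs_sum_le_sum_abs _ _).trans (Finset.sum_le_sum fun K hK => ?_)
    by_cases h : L d K = D
    · have := ((hL d K (mem_monF.1 hd).1 (mem_monF.1 hK).1).2 D).1 (h ▸ dvd_rfl)
      rw [ind_pos h, ind_pos this.1, ind_pos this.2, one_mul, one_mul, one_mul, abs_mul]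
      exact mul_le_of_le_one_left (abs_nonneg _) (abs_mu_le d)
    · rw [ind_neg h, zero_mul, abs_zero]
      exact mul_nonneg (ind_nonneg _) (mul_nonneg (ind_nonneg _) (abs_nonneg _))
  · unfold tr upLE up
    simp only [Finset.mul_sum, Finset.sum_mul]
    have e : ∀ G : ℕ → F[X] → F[X] → ℕ → F[X] → ℝ,
        ∑ s ∈ range (R + 1), ∑ D ∈ monF F (i + s), ∑ d ∈ monF F i, ∑ t ∈ range (R + 1),
          ∑ K ∈ monF F t, G s D d t K =
        ∑ t ∈ range (R + 1), ∑ K ∈ monF F t, ∑ d ∈ monF F i, ∑ s ∈ range (R + 1),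
          ∑ D ∈ monF F (i + s), G s D d t K := by
      intro G
      simp only [Finset.sum_sigma']
      refine Finset.sum_bij' (fun x _ => ⟨x.2.2.2.1, x.2.2.2.2, x.2.2.1, x.1, x.2.1⟩)
        (fun x _ => ⟨x.2.2.2.1, x.2.2.2.2, x.2.2.1, x.1, x.2.1⟩) ?_ ?_ ?_ ?_ ?_ <;>
        simp +contextual
    rw [e]
    refine Finset.sum_congr rfl fun t ht => Finset.sum_congr rfl fun K hK =>
      Finset.sum_congr rfl fun d hd => ?_
    obtain ⟨hd1, hd2⟩ := mem_monF.1 hd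
    obtain ⟨hK1, hK2⟩ := mem_monF.1 hK
    obtain ⟨hm, hl⟩ := hL d K hd1 hK1
    have h1 := natDegree_le_of_dvd ((hl _).1 dvd_rfl).1 hm.ne_zero
    have h2 := natDegree_le_of_dvd ((hl (d * K)).2 ⟨dvd_mul_right _ _, dvd_mul_left _ _⟩)
      (hd1.mul hK1).ne_zero
    rw [hd1.natDegree_mul hK1] at h2
    have := Finset.mem_range.1 ht
    rw [pick hm (by omega) (by omega), SPsi.ind_congr (hl f), SVar.ind_and]
    ring

theorem abs_nl_le {n R : ℕ} {B τ : ℝ} {ν κ : F[X] → ℝ} (hν : Lev n R B ν κ) (hτ : DivB F τ n)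
    (i : ℕ) {f : F[X]} (hf : f ∈ monF F n) : |nl ν i f| ≤ τ * B := by
  unfold nl
  rw [abs_mul, mul_comm]
  exact mul_le_mul (abs_up_mu hτ i hf) (hν.abs_le (mem_monF.1 hf).1 (mem_monF.1 hf).2.le)
    (abs_nonneg _) (zero_le_one.trans hτ.one_le)

theorem abs_tr_le {n R : ℕ} {B τ : ℝ} {ν κ : F[X] → ℝ} (hν : Lev n R B ν κ) (hτ : DivB F τ n)
    (R' i : ℕ) {f : F[X]} (hf : f ∈ monF F n) : |tr κ R' i f| ≤ τ * B := by
  unfold tr
  rw [abs_mul]
  exact mul_le_mul (abs_up_mu hτ i hf) (abs_upLE hν R' hf)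
    (abs_nonneg _) (zero_le_one.trans hτ.one_le)

theorem nl_eq_tr {n R T : ℕ} {B : ℝ} {ν κ : F[X] → ℝ} (hν : Lev n R B ν κ) (i : ℕ) {f : F[X]}
    (hf : f ∈ monF F n) (hT : ¬ Sq T f) : nl ν i f = tr κ (R + 2 * T) i f := by
  obtain ⟨hf1, hf2⟩ := mem_monF.1 hf
  unfold nl tr upLE
  rw [mul_comm]
  congr 1
  unfold up
  rw [← SPsi.sum_divs_lt hf1.ne_zero, hν.expand f hf1 hf2.le]
  refine Finset.sum_congr rfl fun K hK => ?_
  obtain ⟨hK1, hK2⟩ := (mem_divs hf1.ne_zero).1 hK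
  by_cases h0 : κ K = 0
  · rw [h0, mul_zero]
  · obtain ⟨a, γ, ha, hγ, hs, rfl⟩ := exists_sqfree hK1
    have h1 := hν.supp _ a hK1 h0 hs (dvd_mul_right _ _)
    have h2 : γ.natDegree < T := by
      by_contra h
      exact hT ⟨γ, hγ, not_lt.1 h, (dvd_mul_left _ _).trans hK2⟩
    rw [ind_pos, one_mul]
    rw [ha.natDegree_mul (hγ.pow 2), natDegree_pow]
    omega

theorem nl_eq_cv {n R i m : ℕ} {B : ℝ} {ν κ : F[X] → ℝ} {ι : Type} {Z : Finset ι}
    {a b α : ι → F[X] → ℝ} (hs : Sieve n R B ν κ Z a b α) (hm : i + m = n) {f : F[X]}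
    (hf : f ∈ monF F n) : nl ν i f = ∑ z ∈ Z, cv (fun d => mu d * a z d) (b z) i m f := by
  unfold nl
  rw [up_eq_cv (show m + i = n by omega) mu hf, cv_comm]
  unfold cv
  rw [Finset.sum_comm (s := Z), Finset.mul_sum]
  refine Finset.sum_congr rfl fun d hd => ?_
  rw [Finset.sum_comm (s := Z), Finset.mul_sum]
  refine Finset.sum_congr rfl fun e he => ?_
  by_cases h : d * e = f
  · rw [ind_pos h, ← h, hs.sep d e (mem_monF.1 hd).1 (mem_monF.1 he).1, Finset.sum_mul]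
    exact Finset.sum_congr rfl fun z _ => by ring
  · simp [ind_neg h]

theorem vm_eq_sum {n : ℕ} (hn : 1 ≤ n) {f : F[X]} (hf : f ∈ monF F n) :
    vm f = ∑ i ∈ range n, ((n : ℝ) - i) * up mu i f := by
  obtain ⟨hf1, hf2⟩ := mem_monF.1 hf
  have e : ∑ i ∈ range n, ((n : ℝ) - i) * up mu i f =
      ∑ i ∈ range (n + 1), ((n : ℝ) - i) * up mu i f := by
    rw [Finset.sum_range_succ, sub_self, zero_mul, add_zero]
  rw [e, SPsi.vm_eq (V := 0) hf1 (Nat.zero_le _), hf2]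
  refine Finset.sum_congr rfl fun i hi => ?_
  unfold up
  rw [Finset.mul_sum]
  refine Finset.sum_congr rfl fun d hd => ?_
  obtain ⟨hd1, hd2⟩ := mem_monF.1 hd
  by_cases h : d ∣ f
  · have := Finset.mem_range.1 hi
    rw [SPsi.gg_eq 0 (SPsi.monic_div hf1 hd1 h), natDegree_divByMonic f hd1, hf2, hd2,
      Nat.cast_sub (by omega)]
    simp only [Finset.range_zero, Finset.sum_empty]
    ring
  · simp [ind_neg h]

theorem vm_eq_of_not_Sq {n : ℕ} {f : F[X]} (hf : f ∈ monF F n) (hT : ¬ Sq (n / 3) f) :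
    vm f = n * ind (Irreducible f) := by
  obtain ⟨hf1, hf2⟩ := mem_monF.1 hf
  by_cases hi : Irreducible f
  · have := SConv.vm_pow hf1 hi (a := 1) one_pos
    rw [pow_one] at this
    rw [this, ind_pos hi, hf2, mul_one]
  · rw [ind_neg hi, mul_zero]
    rcases SConv.vm_cases f with h | ⟨P, hP, hPi, a, ha, rfl, -⟩
    · exact h
    · exfalso
      have h2 : 2 ≤ a := by
        by_contra h
        obtain rfl : a = 1 := by omega
        exact hi (by rwa [pow_one])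
      refine hT ⟨P ^ (a / 2), hP.pow _, ?_, ?_⟩
      · rw [natDegree_pow] at hf2 ⊢
        rw [← hf2]
        have : a ≤ 3 * (a / 2) := by omega
        have := Nat.mul_le_mul_right P.natDegree this
        rw [mul_assoc] at this
        omega
      · rw [← pow_mul]
        exact pow_dvd_pow _ (by omega)

end Pool.Agent.MP_43e117_nt
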