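import Mathlib
import Pool.Agent.Mg.F43e117.G8a32f9
import Pool.Agent.Mg.F43e117.G41717b
import Pool.Agent.Mg.F43e117.G5dfe51

section

/- Twin primes of `F[X]`: the regions of the decomposition. -/

set_option autoImplicit false
set_option linter.unusedSectionVars false

namespace Pool.Agent.MP_43e117_nt

open Polynomial Finset Pool.Agent.MP_4fffd4_nt Pool.Agent.MP_c853c5_nt
open scoped BigOperators

variable {F : Type*} [Field F] [Fintype F]

/-- The three analytic estimates. -/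
structure Est (h : F[X]) (n G E : ℕ) (δ : ℝ) : Prop where
  K : ∀ (I I' : ℕ) (α β : F[X] → ℝ), Bd I α → Bd I' β →
    (I + I' ≤ n ∨ (2 * I ≤ n + G ∧ 2 * I' ≤ n + G)) →
    |corr h n (up α I) (up β I') - qq F n * mcorr h (5 * n) (up α I) (up β I')| ≤ δ
  L : ∀ i ε₁ ε₂ μ κ : ℕ, i + ε₁ + ε₂ = n → μ + κ = n →
    (ε₁ + E ≤ κ ∧ 2 * κ + 4 * ε₂ + E ≤ n ∨ ε₁ + ε₂ + E ≤ κ ∧ 2 * κ + E ≤ n) →
    ∀ α₁ β₁ α₂ β₂ : F[X] → ℝ, Bd μ α₁ → Bd κ β₁ → Bd ε₁ α₂ →
      (∀ e ∈ monF F ε₂, |β₂ e| ≤ ind (Squarefree e)) →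
      |corr h n (cv α₁ β₁ μ κ) (cv3 lam α₂ β₂ i ε₁ ε₂)| ≤ δ
  U : ∀ i ε₁ ε₂ κ : ℕ, i + ε₁ + ε₂ = n → n ≤ 2 * i → κ + E ≤ i →
    2 * κ + E ≤ n → ∀ β₁ α₂ β₂ : F[X] → ℝ, Bd κ β₁ → Bd ε₁ α₂ → Bd ε₂ β₂ →
      |corr h n (up β₁ κ) (cv3 lam α₂ β₂ i ε₁ ε₂)| ≤ δ

namespace TReg

variable {h : F[X]} {n : ℕ}

theorem add_mem (hn : h.degree < n) {f : F[X]} (hf : f ∈ monF F n) : f + h ∈ monF F n := by
  obtain ⟨h1, h2⟩ := mem_monF.1 hf
  have : h.degree < f.degree := by rwa [degree_eq_natDegree h1.ne_zero, h2]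
  exact mem_monF.2 ⟨h1.add_of_left this, by rw [natDegree_add_eq_left_of_degree_lt this, h2]⟩

theorem corr_sum_right {ι : Type*} (s : Finset ι) (Ψ : F[X] → ℝ) (Φ : ι → F[X] → ℝ) :
    corr h n Ψ (fun f => ∑ x ∈ s, Φ x f) = ∑ x ∈ s, corr h n Ψ (Φ x) := by
  simp only [corr, Finset.mul_sum]
  exact Finset.sum_comm

theorem corr_sum_left {ι : Type*} (s : Finset ι) (Ψ : F[X] → ℝ) (Φ : ι → F[X] → ℝ) :
    corr h n (fun f => ∑ x ∈ s, Φ x f) Ψ = ∑ x ∈ s, corr h n (Φ x) Ψ := by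
  simp only [corr, Finset.sum_mul]
  exact Finset.sum_comm

theorem corr_mul_right (c : ℝ) (Ψ Φ : F[X] → ℝ) :
    corr h n Ψ (fun f => c * Φ f) = c * corr h n Ψ Φ := by
  simp only [corr, Finset.mul_sum]
  exact Finset.sum_congr rfl fun _ _ => by ring

theorem corr_mul_left (c : ℝ) (Ψ Φ : F[X] → ℝ) :
    corr h n (fun f => c * Φ f) Ψ = c * corr h n Φ Ψ := by
  simp only [corr, Finset.mul_sum]
  exact Finset.sum_congr rfl fun _ _ => by ring

theorem corr_congr_right (hn : h.degree < n) (Ψ : F[X] → ℝ) {Φ Φ' : F[X] → ℝ}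
    (H : ∀ f ∈ monF F n, Φ f = Φ' f) : corr h n Ψ Φ = corr h n Ψ Φ' :=
  Finset.sum_congr rfl fun f hf => by rw [H _ (add_mem hn hf)]

theorem corr_congr_left (Ψ : F[X] → ℝ) {Φ Φ' : F[X] → ℝ}
    (H : ∀ f ∈ monF F n, Φ f = Φ' f) : corr h n Φ Ψ = corr h n Φ' Ψ :=
  Finset.sum_congr rfl fun f hf => by rw [H _ hf]

theorem pert_right (hn : h.degree < n) {Ψ Φ Φ' : F[X] → ℝ} {A c : ℝ} (hA : 0 ≤ A) (hc : 0 ≤ c)
    {T : ℕ} (hΨ : ∀ f ∈ monF F n, |Ψ f| ≤ A)
    (H : ∀ f ∈ monF F n, |Φ f - Φ' f| ≤ ind (Sq T f) * c) :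
    |corr h n Ψ Φ - corr h n Ψ Φ'| ≤ A * c * (2 * qq F n / qq F T) := by
  unfold corr
  rw [← Finset.sum_sub_distrib]
  refine (Finset.abs_sum_le_sum_abs _ _).trans ((Finset.sum_le_sum
    (g := fun f => A * c * ind (Sq T (f + h))) fun f hf => ?_).trans ?_)
  · rw [← mul_sub, abs_mul, mul_assoc, mul_comm c]
    exact mul_le_mul (hΨ f hf) (H _ (add_mem hn hf)) (abs_nonneg _) hA
  · rw [← Finset.mul_sum, sum_monF_shift hn fun f => ind (Sq T f)]
    exact mul_le_mul_of_nonneg_left (sum_Sq n T) (mul_nonneg hA hc)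

theorem pert_left [CharP F 2] (hn : h.degree < n) {Ψ Φ Φ' : F[X] → ℝ} {A c : ℝ} (hA : 0 ≤ A)
    (hc : 0 ≤ c) {T : ℕ} (hΨ : ∀ f ∈ monF F n, |Ψ f| ≤ A)
    (H : ∀ f ∈ monF F n, |Φ f - Φ' f| ≤ ind (Sq T f) * c) :
    |corr h n Φ Ψ - corr h n Φ' Ψ| ≤ A * c * (2 * qq F n / qq F T) := by
  rw [corr_comm hn Φ, corr_comm hn Φ']
  exact pert_right hn hA hc hΨ H

theorem up_scale {A : ℝ} (hA : A ≠ 0) (c : F[X] → ℝ) (I : ℕ) (f : F[X]) :
    up c I f = A * up (fun D => c D / A) I f := by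
  simp only [up, Finset.mul_sum]
  exact Finset.sum_congr rfl fun _ _ => by field_simp

theorem cv_scale {A : ℝ} (hA : A ≠ 0) (a b : F[X] → ℝ) (i j : ℕ) (f : F[X]) :
    cv a b i j f = A ^ 2 * cv (fun D => a D / A) (fun D => b D / A) i j f := by
  simp only [cv, Finset.mul_sum]
  exact Finset.sum_congr rfl fun _ _ => Finset.sum_congr rfl fun _ _ => by field_simp

theorem cv3_scale {A : ℝ} (hA : A ≠ 0) (a b c : F[X] → ℝ) (i j k : ℕ) (f : F[X]) :
    cv3 a b c i j k f = A ^ 2 * cv3 a (fun D => b D / A) (fun D => c D / A) i j k f := by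
  simp only [cv3, Finset.mul_sum]
  exact Finset.sum_congr rfl fun _ _ => Finset.sum_congr rfl fun _ _ =>
    Finset.sum_congr rfl fun _ _ => by field_simp

theorem abs_div_le {x A c : ℝ} (hA : 0 < A) (hx : |x| ≤ A * c) : |x / A| ≤ c := by
  rwa [abs_div, abs_of_pos hA, div_le_iff₀' hA]

variable {R T : ℕ} {Q : ℝ} {ν κ : F[X] → ℝ}

theorem nl_sub_tr (hν : Lev n R Q ν κ) (hτ : DivB F Q n) (i : ℕ) {f : F[X]} (hf : f ∈ monF F n) :
    |nl ν i f - tr κ (R + 2 * T) i f| ≤ ind (Sq T f) * (2 * (Q * Q)) := by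
  by_cases hT : Sq T f
  · rw [ind_pos hT, one_mul, two_mul (Q * Q)]
    exact (abs_sub _ _).trans (add_le_add (abs_nl_le hν hτ i hf) (abs_tr_le hν hτ _ i hf))
  · rw [nl_eq_tr hν i hf hT, sub_self, abs_zero, ind_neg hT, zero_mul]

theorem tr_eq (hν : Lev n R Q ν κ) (hτ : DivB F Q n) {i R' : ℕ} (hi : i + R' ≤ n) :
    ∃ c : F[X] → ℝ, (∀ t ∈ range (R' + 1), Bd (i + t) c) ∧
      tr κ R' i = fun f => ∑ t ∈ range (R' + 1), Q ^ 2 * up c (i + t) f := by
  have hQ : 0 < Q := one_pos.trans_le hτ.one_le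
  obtain ⟨c, h1, h2⟩ := tr_eq_up hν hτ hi
  refine ⟨fun D => c D / Q ^ 2, fun t ht D hD => abs_div_le (by positivity) ?_,
    funext fun f => ?_⟩
  · obtain ⟨a1, a2⟩ := mem_monF.1 hD
    have := mem_range.1 ht
    rw [mul_one, sq]
    exact h1 D a1 (by omega)
  · rw [h2]
    exact Finset.sum_congr rfl fun t _ => up_scale (by positivity) c _ f

theorem regA [CharP F 2] (hn : h.degree < n) {G E : ℕ} {δ : ℝ} (hE : Est h n G E δ)
    (hν : Lev n R Q ν κ) (hτ : DivB F Q n) (hQ : (n : ℝ) + 2 ≤ Q) {i i' : ℕ}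
    (hi : i + (R + 2 * T) ≤ n) (hi' : i' + (R + 2 * T) ≤ n)
    (hc : i + i' + 2 * (R + 2 * T) ≤ n ∨
      (2 * (i + (R + 2 * T)) ≤ n + G ∧ 2 * (i' + (R + 2 * T)) ≤ n + G)) :
    |corr h n (nl ν i) (nl ν i') -
      qq F n * mcorr h (5 * n) (tr κ (R + 2 * T) i) (tr κ (R + 2 * T) i')| ≤
      Q ^ 6 * δ + 4 * Q ^ 4 * (2 * qq F n / qq F T) := by
  have hQ0 : 0 < Q := one_pos.trans_le hτ.one_le
  have h1 := pert_left hn (by positivity) (by positivity) (fun f hf => abs_nl_le hν hτ i' hf)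
    fun f hf => nl_sub_tr (T := T) hν hτ i hf
  have h2 := pert_right hn (by positivity) (by positivity)
    (fun f hf => abs_tr_le hν hτ (R + 2 * T) i hf) fun f hf => nl_sub_tr (T := T) hν hτ i' hf
  have h3 : |corr h n (tr κ (R + 2 * T) i) (tr κ (R + 2 * T) i') -
      qq F n * mcorr h (5 * n) (tr κ (R + 2 * T) i) (tr κ (R + 2 * T) i')| ≤ Q ^ 6 * δ := by
    obtain ⟨c, a1, a2⟩ := tr_eq hν hτ hi
    obtain ⟨c', a1', a2'⟩ := tr_eq hν hτ hi'
    have e : corr h n (tr κ (R + 2 * T) i) (tr κ (R + 2 * T) i') -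
        qq F n * mcorr h (5 * n) (tr κ (R + 2 * T) i) (tr κ (R + 2 * T) i') =
        ∑ t ∈ range (R + 2 * T + 1), ∑ t' ∈ range (R + 2 * T + 1), Q ^ 4 *
          (corr h n (up c (i + t)) (up c' (i' + t')) -
            qq F n * mcorr h (5 * n) (up c (i + t)) (up c' (i' + t'))) := by
      rw [a2, a2', corr_sum_left]
      simp only [corr_sum_right, corr_mul_left, corr_mul_right, mcorr, Finset.sum_mul_sum,
        Finset.expect_sum_comm]
      simp only [mul_sub, Finset.sum_sub_distrib, Finset.mul_sum, Finset.mul_expect]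
      congr 1
      · exact Finset.sum_congr rfl fun _ _ => Finset.sum_congr rfl fun _ _ => by ring
      · exact Finset.sum_congr rfl fun _ _ => Finset.sum_congr rfl fun _ _ =>
          Finset.expect_congr rfl fun _ _ => by ring
    have hδ : 0 ≤ δ := (abs_nonneg _).trans
      (hE.K 0 0 (fun _ => 0) (fun _ => 0) (fun _ _ => by simp) (fun _ _ => by simp) (by omega))
    have hR : ((R + 2 * T + 1 : ℕ) : ℝ) ≤ Q := le_trans (by exact_mod_cast (by omega)) hQ
    rw [e]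
    refine (Finset.abs_sum_le_sum_abs _ _).trans ((Finset.sum_le_card_nsmul _ _
      (Q * (Q ^ 4 * δ)) fun t ht => (Finset.abs_sum_le_sum_abs _ _).trans
        ((Finset.sum_le_card_nsmul _ _ (Q ^ 4 * δ) fun t' ht' => ?_).trans ?_)).trans ?_)
    · rw [abs_mul, abs_of_pos (by positivity)]
      have := mem_range.1 ht
      have := mem_range.1 ht'
      exact mul_le_mul_of_nonneg_left (hE.K _ _ _ _ (a1 t ht) (a1' t' ht') (by omega))
        (by positivity)
    · rw [card_range, nsmul_eq_mul]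
      gcongr
    · rw [card_range, nsmul_eq_mul]
      calc _ ≤ Q * (Q * (Q ^ 4 * δ)) := by gcongr
        _ = _ := by ring
  have h4 := abs_sub_le (corr h n (nl ν i) (nl ν i')) (corr h n (tr κ (R + 2 * T) i) (nl ν i'))
    (qq F n * mcorr h (5 * n) (tr κ (R + 2 * T) i) (tr κ (R + 2 * T) i'))
  have h5 := abs_sub_le (corr h n (tr κ (R + 2 * T) i) (nl ν i'))
    (corr h n (tr κ (R + 2 * T) i) (tr κ (R + 2 * T) i'))
    (qq F n * mcorr h (5 * n) (tr κ (R + 2 * T) i) (tr κ (R + 2 * T) i'))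
  linarith [show Q * Q * (2 * (Q * Q)) * (2 * qq F n / qq F T) =
    2 * Q ^ 4 * (2 * qq F n / qq F T) by ring]

variable {ι : Type} {Z : Finset ι} {a b α : ι → F[X] → ℝ}

theorem side (hn : h.degree < n) (hs : Sieve n R Q ν κ Z a b α) (hτ : DivB F Q n)
    (hQ : (n : ℝ) + 2 ≤ Q) {i m : ℕ} (hm : i + m = n) (hi : R + 2 * T ≤ i) {Ψ : F[X] → ℝ}
    (hΨ : ∀ f ∈ monF F n, |Ψ f| ≤ Q) {Y : ℝ} (hY0 : 0 ≤ Y)
    (hY : ∀ σ j, σ < T → j ≤ R → ∀ α₂ β₂ : F[X] → ℝ, Bd (m + 2 * σ) α₂ →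
      (∀ e ∈ monF F j, |β₂ e| ≤ ind (Squarefree e)) →
      |corr h n Ψ (cv3 lam α₂ β₂ (i - j - 2 * σ) (m + 2 * σ) j)| ≤ Y) :
    |corr h n Ψ (nl ν i)| ≤ qq F T * Q ^ 4 * Y + Q ^ 8 * (2 * qq F n / qq F T) := by
  have hQ0 : 0 < Q := one_pos.trans_le hτ.one_le
  have hq := qq_pos (F := F) n
  have hq' := qq_pos (F := F) T
  have hR : (R : ℝ) + 2 ≤ Q := le_trans (by exact_mod_cast (by omega)) hQ
  rw [corr_congr_right hn Ψ fun f hf => nl_eq_cv hs hm hf, corr_sum_right]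
  refine (Finset.abs_sum_le_sum_abs _ _).trans ((Finset.sum_le_card_nsmul _ _
    (qq F T * Q ^ 3 * Y + Q ^ 7 * (2 * qq F n / qq F T)) fun z hz => ?_).trans ?_)
  · obtain ⟨b', c, h1, h2, h3⟩ := cv_eq_cv3 (T := T) (hs.leva z hz) (b := b z) (m := m)
      (fun e he => hs.bdb z hz e (mem_monF.1 he).1 (by rw [(mem_monF.1 he).2]; omega)) hτ hm hi
    have h4 := pert_right hn hQ0.le (by positivity) hΨ h3
    have h5 : |corr h n Ψ fun f => ∑ σ ∈ range T, ∑ s ∈ monF F σ, ∑ j ∈ range (R + 1),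
        cv3 lam (b' s) (c s) (i - j - 2 * σ) (m + 2 * σ) j f| ≤ qq F T * Q ^ 3 * Y := by
      rw [corr_sum_right]
      refine (Finset.abs_sum_le_sum_abs _ _).trans ((Finset.sum_le_sum
        (g := fun σ => qq F σ * (Q ^ 3 * Y)) fun σ hσ => ?_).trans ?_)
      · rw [corr_sum_right, ← sum_one_monF, Finset.sum_mul]
        refine (Finset.abs_sum_le_sum_abs _ _).trans (Finset.sum_le_sum fun s _ => ?_)
        rw [corr_sum_right]
        refine (Finset.abs_sum_le_sum_abs _ _).trans ((Finset.sum_le_card_nsmul _ _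
          (Q ^ 2 * Y) fun j hj => ?_).trans ?_)
        · rw [funext (cv3_scale hQ0.ne' lam (b' s) (c s) _ _ _), corr_mul_right, abs_mul,
            abs_of_pos (by positivity)]
          exact mul_le_mul_of_nonneg_left (hY σ j (mem_range.1 hσ)
            (Nat.lt_succ_iff.1 (mem_range.1 hj)) _ _
            (fun e _ => abs_div_le hQ0 (by rw [mul_one]; exact h1 s e))
            fun e _ => abs_div_le hQ0 (h2 s e)) (by positivity)
        · rw [card_range, nsmul_eq_mul]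
          push_cast
          calc _ ≤ Q * (Q ^ 2 * Y) := by gcongr; linarith
            _ = _ := by ring
      · rw [← Finset.sum_mul, mul_assoc]
        exact mul_le_mul_of_nonneg_right (sum_range_qq T) (by positivity)
    have h6 : Q * ((R + 2) * Q ^ 3 * Q ^ 2) * (2 * qq F n / qq F T) ≤
        Q ^ 7 * (2 * qq F n / qq F T) := by
      calc _ ≤ Q * (Q * Q ^ 3 * Q ^ 2) * (2 * qq F n / qq F T) := by gcongr
        _ = _ := by ring
    have h7 := abs_sub_abs_le_abs_sub (corr h n Ψ (cv (fun d => mu d * a z d) (b z) i m))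
      (corr h n Ψ fun f => ∑ σ ∈ range T, ∑ s ∈ monF F σ, ∑ j ∈ range (R + 1),
        cv3 lam (b' s) (c s) (i - j - 2 * σ) (m + 2 * σ) j f)
    linarith
  · rw [nsmul_eq_mul]
    calc _ ≤ Q * (qq F T * Q ^ 3 * Y + Q ^ 7 * (2 * qq F n / qq F T)) := by
          gcongr; exact hs.cardZ
      _ = _ := by ring

theorem regU [CharP F 2] (hn : h.degree < n) {G E : ℕ} {δ : ℝ} (hδ : 0 ≤ δ) (hE : Est h n G E δ)
    (hs : Sieve n R Q ν κ Z a b α) (hτ : DivB F Q n) (hQ : (n : ℝ) + 2 ≤ Q) {i i' : ℕ}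
    (hi : i ≤ n) (h1 : n + E + 2 * (R + 2 * T) ≤ 2 * i) (h2 : 2 * i' + 2 * (R + 2 * T) + E ≤ n) :
    |corr h n (nl ν i') (nl ν i)| ≤
      qq F T * Q ^ 7 * δ + (Q ^ 11 + 2 * Q ^ 4) * (2 * qq F n / qq F T) := by
  have hQ0 : 0 < Q := one_pos.trans_le hτ.one_le
  have hq := qq_pos (F := F) n
  have hq' := qq_pos (F := F) T
  have h3 := pert_left hn (by positivity) (by positivity) (fun f hf => abs_nl_le hs.lev hτ i hf)
    fun f hf => nl_sub_tr (T := T) hs.lev hτ i' hf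
  obtain ⟨c, a1, a2⟩ := tr_eq (R' := R + 2 * T) (i := i') hs.lev hτ (by omega)
  have h4 : |corr h n (tr κ (R + 2 * T) i') (nl ν i)| ≤
      Q * (Q ^ 2 * (qq F T * Q ^ 4 * δ + Q ^ 8 * (2 * qq F n / qq F T))) := by
    rw [a2, corr_sum_left]
    refine (Finset.abs_sum_le_sum_abs _ _).trans ((Finset.sum_le_card_nsmul _ _
      (Q ^ 2 * (qq F T * Q ^ 4 * δ + Q ^ 8 * (2 * qq F n / qq F T))) fun t ht => ?_).trans ?_)
    · have := mem_range.1 ht
      rw [corr_mul_left, abs_mul, abs_of_pos (by positivity)]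
      refine mul_le_mul_of_nonneg_left (side (m := n - i) hn hs hτ hQ (by omega) (by omega)
        (fun f hf => ?_) hδ fun σ j hσ hj α₂ β₂ b1 b2 => hE.U _ _ _ _ (by omega) (by omega)
          (by omega) (by omega) _ _ _ (a1 t ht) b1
            fun e he => (b2 e he).trans (ind_le_one _)) (by positivity)
      simpa using abs_up_le hτ (a1 t ht) (mem_monF.1 hf).1.ne_zero (mem_monF.1 hf).2.le
    · have hR : ((R + 2 * T + 1 : ℕ) : ℝ) ≤ Q := le_trans (by exact_mod_cast (by omega)) hQ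
      rw [card_range, nsmul_eq_mul]
      gcongr
  have h5 := abs_sub_abs_le_abs_sub (corr h n (nl ν i') (nl ν i))
    (corr h n (tr κ (R + 2 * T) i') (nl ν i))
  linarith [show Q * Q * (2 * (Q * Q)) * (2 * qq F n / qq F T) + Q * (Q ^ 2 *
    (qq F T * Q ^ 4 * δ + Q ^ 8 * (2 * qq F n / qq F T))) =
    qq F T * Q ^ 7 * δ + (Q ^ 11 + 2 * Q ^ 4) * (2 * qq F n / qq F T) by ring]

theorem regL (hn : h.degree < n) {G E : ℕ} {δ : ℝ} (hδ : 0 ≤ δ) (hE : Est h n G E δ)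
    (hs : Sieve n R Q ν κ Z a b α) (hτ : DivB F Q n) (hQ : (n : ℝ) + 2 ≤ Q) {i i' m m' k : ℕ}
    (hm : i + m = n) (hm' : i' + m' = n) (hi : R + 2 * T ≤ i) (hk : k = i' ∨ k = m')
    (hc : m + 2 * T + E ≤ k ∧ 2 * k + 4 * R + E ≤ n ∨ m + (R + 2 * T) + E ≤ k ∧ 2 * k + E ≤ n) :
    |corr h n (nl ν i') (nl ν i)| ≤ qq F T * Q ^ 7 * δ + Q ^ 11 * (2 * qq F n / qq F T) := by
  have hQ0 : 0 < Q := one_pos.trans_le hτ.one_le
  have hq := qq_pos (F := F) n
  have hq' := qq_pos (F := F) T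
  rw [corr_congr_left _ fun f hf => nl_eq_cv hs hm' hf, corr_sum_left]
  refine (Finset.abs_sum_le_sum_abs _ _).trans ((Finset.sum_le_card_nsmul _ _
    (Q ^ 2 * (qq F T * Q ^ 4 * δ + Q ^ 8 * (2 * qq F n / qq F T))) fun z hz => ?_).trans ?_)
  · have b1 : Bd i' fun d => mu d * a z d / Q := fun d hd => abs_div_le hQ0 (by
      rw [abs_mul, mul_comm Q]
      exact mul_le_mul (abs_mu_le d) ((hs.leva z hz).abs_le (mem_monF.1 hd).1
        (by rw [(mem_monF.1 hd).2]; omega)) (abs_nonneg _) zero_le_one)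
    have b2 : Bd m' fun d => b z d / Q := fun d hd => abs_div_le hQ0 (by
      rw [mul_one]
      exact hs.bdb z hz d (mem_monF.1 hd).1 (by rw [(mem_monF.1 hd).2]; omega))
    rw [funext (cv_scale hQ0.ne' (fun d => mu d * a z d) (b z) i' m'), corr_mul_left, abs_mul,
      abs_of_pos (by positivity)]
    refine mul_le_mul_of_nonneg_left (side hn hs hτ hQ hm hi (fun f _ => ?_) hδ
      fun σ j hσ hj α₂ β₂ b3 b4 => ?_) (by positivity)
    · simpa using abs_cv_le hτ b1 b2 hm'.le f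
    · rcases hk with rfl | rfl
      · rw [_root_.funext (cv_comm _ _ k m')]
        exact hE.L _ _ _ _ _ (by omega) (by omega) (by omega) _ _ _ _ b2 b1 b3 b4
      · exact hE.L _ _ _ _ _ (by omega) (by omega) (by omega) _ _ _ _ b1 b2 b3 b4
  · rw [nsmul_eq_mul]
    calc _ ≤ Q * (Q ^ 2 * (qq F T * Q ^ 4 * δ + Q ^ 8 * (2 * qq F n / qq F T))) := by
          gcongr; exact hs.cardZ
      _ = _ := by ring

end TReg

end Pool.Agent.MP_43e117_nt

end

section

/- Twin primes of `F[X]`: summation over all pieces. -/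

set_option autoImplicit false
set_option linter.unusedSectionVars false

namespace Pool.Agent.MP_43e117_nt

open Polynomial Finset Pool.Agent.MP_4fffd4_nt Pool.Agent.MP_c853c5_nt
open scoped BigOperators

variable {F : Type*} [Field F] [Fintype F]

namespace TSum

open TReg

/-- The thin strips that are estimated by the sieve. -/
def Strip (n E i i' : ℕ) : Prop :=
  (n < 2 * i + E ∧ 2 * i < n + E) ∨ (n < 2 * i' + E ∧ 2 * i' < n + E) ∨ (i < i' + E ∧ i' < i + E)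

theorem sum_ind_le_card {s : Finset ℕ} {P : ℕ → Prop} {a E : ℕ} (h : ∀ i, P i → a ≤ i ∧ i < a + E) :
    ∑ i ∈ s, ind (P i) ≤ E := by
  classical
  rw [show ∑ i ∈ s, ind (P i) = ((s.filter P).card : ℝ) by
    rw [Finset.card_filter]; push_cast
    exact Finset.sum_congr rfl fun _ _ => by unfold ind; congr]
  exact_mod_cast (Finset.card_le_card (t := Ico a (a + E)) fun i hi =>
    mem_Ico.2 (h i (mem_filter.1 hi).2)).trans (by simp)

theorem sum_strip (n E : ℕ) : ∑ i ∈ range n, ∑ i' ∈ range n, ind (Strip n E i i') ≤ 4 * E * n := by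
  have h1 : ∑ i ∈ range n, ind (n < 2 * i + E ∧ 2 * i < n + E) ≤ E :=
    sum_ind_le_card (a := (n + 1 - E) / 2) fun i hi => by omega
  have h2 : ∀ i, ∑ i' ∈ range n, ind (i < i' + E ∧ i' < i + E) ≤ (2 * E : ℕ) := fun i =>
    sum_ind_le_card (a := i + 1 - E) fun i' hi => by omega
  calc _ ≤ ∑ i ∈ range n, ∑ i' ∈ range n, (ind (n < 2 * i + E ∧ 2 * i < n + E) +
        (ind (n < 2 * i' + E ∧ 2 * i' < n + E) + ind (i < i' + E ∧ i' < i + E))) :=
        Finset.sum_le_sum fun i _ => Finset.sum_le_sum fun i' _ =>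
          (ind_le_add id).trans (add_le_add le_rfl (ind_le_add id))
    _ ≤ ∑ i ∈ range n, (n * ind (n < 2 * i + E ∧ 2 * i < n + E) + (E + 2 * E)) := by
        refine Finset.sum_le_sum fun i _ => ?_
        rw [Finset.sum_add_distrib, Finset.sum_add_distrib, Finset.sum_const, card_range,
          nsmul_eq_mul]
        exact add_le_add le_rfl (add_le_add h1 (by exact_mod_cast h2 i))
    _ ≤ _ := by
        rw [Finset.sum_add_distrib, ← Finset.mul_sum, Finset.sum_const, card_range, nsmul_eq_mul]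
        nlinarith [(Nat.cast_nonneg n : (0 : ℝ) ≤ n)]

variable [CharP F 2] {h : F[X]} {n R T G E : ℕ} {Q δ : ℝ} {ν κ : F[X] → ℝ} {ι : Type}
  {Z : Finset ι} {a b α : ι → F[X] → ℝ}

theorem cases (hn : h.degree < n) (hδ : 0 ≤ δ) (hE : Est h n G E δ)
    (hs : Sieve n R Q ν κ Z a b α) (hτ : DivB F Q n) (hQ : (n : ℝ) + 2 ≤ Q)
    (hG : 20 * (R + 2 * T) + 20 * E ≤ G) (hG' : G ≤ n) {i i' : ℕ} (hi : i < n) (hi' : i' ≤ i)
    {ε : ℝ} (hε : qq F T * Q ^ 7 * δ + 5 * Q ^ 11 * (2 * qq F n / qq F T) ≤ ε) :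
    (Strip n (E + 2 * T) i i' ∧ n + 2 * R ≤ i + i') ∨
      |corr h n (nl ν i') (nl ν i) -
        qq F n * mcorr h (5 * n) (tr κ (R + 2 * T) i') (tr κ (R + 2 * T) i)| ≤ ε ∨
      (2 * (R + 2 * T) ≤ i ∧ |corr h n (nl ν i') (nl ν i)| ≤ ε) := by
  have hQ1 := hτ.one_le
  have hq : 0 < 2 * qq F n / qq F T := by
    have := qq_pos (F := F) n
    have := qq_pos (F := F) T
    positivity
  have h4 : Q ^ 4 ≤ Q ^ 11 := pow_le_pow_right₀ hQ1 (by norm_num)
  have h11 : 0 ≤ Q ^ 11 * (2 * qq F n / qq F T) := by positivity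
  have h4' := mul_le_mul_of_nonneg_right h4 hq.le
  by_cases hA : i + i' + 2 * (R + 2 * T) ≤ n ∨ 2 * (i + (R + 2 * T)) ≤ n + G
  · refine Or.inr (Or.inl ((regA hn hE hs.lev hτ hQ (by omega) (by omega) (by omega)).trans ?_))
    have : Q ^ 6 * δ ≤ qq F T * Q ^ 7 * δ := by
      calc _ = 1 * Q ^ 6 * δ := by ring
        _ ≤ _ := by
          gcongr
          · exact (qq_pos _).le
          · exact one_le_qq _
          · norm_num
    linarith
  by_cases hU : 2 * i' + 2 * (R + 2 * T) + E ≤ n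
  · exact Or.inr (Or.inr ⟨by omega, (regU hn hδ hE hs hτ hQ hi.le (by omega) hU).trans
      (by linarith)⟩)
  by_cases hS : Strip n (E + 2 * T) i i'
  · refine Or.inl ⟨hS, ?_⟩
    unfold Strip at hS
    omega
  unfold Strip at hS
  refine Or.inr (Or.inr ⟨by omega, ?_⟩)
  by_cases hL : 2 * i' + E ≤ n
  · exact (regL (T := T) (m := n - i) (m' := n - i') (k := i') hn hδ hE hs hτ hQ (by omega)
      (by omega) (by omega) (Or.inl rfl) (by omega)).trans (by linarith)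
  · exact (regL (T := T) (m := n - i) (m' := n - i') (k := n - i') hn hδ hE hs hτ hQ (by omega)
      (by omega) (by omega) (Or.inr rfl) (by omega)).trans (by linarith)

theorem abs_corr_nl (hν : ∀ f, 0 ≤ ν f) (i i' : ℕ) : |corr h n (nl ν i) (nl ν i')| ≤
    corr h n (fun f => ν f * up (fun d => |mu d|) i f) fun f => ν f * up (fun d => |mu d|) i' f := by
  have key : ∀ i f, |nl ν i f| ≤ ν f * up (fun d => |mu d|) i f := fun i f => by
    rw [nl, abs_mul, abs_of_nonneg (hν f)]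
    refine mul_le_mul_of_nonneg_left ((Finset.abs_sum_le_sum_abs _ _).trans_eq ?_) (hν f)
    exact Finset.sum_congr rfl fun D _ => by rw [abs_mul, abs_of_nonneg (ind_nonneg _)]
  refine (Finset.abs_sum_le_sum_abs _ _).trans (Finset.sum_le_sum fun f _ => ?_)
  rw [abs_mul]
  exact mul_le_mul (key _ _) (key _ _) (abs_nonneg _) ((abs_nonneg _).trans (key _ _))

theorem term (hn : h.natDegree < n) (hδ : 0 ≤ δ) (hE : Est h n G E δ)
    (hs : Sieve n R Q ν κ Z a b α) (hτ : DivB F Q n) (hQ : (n : ℝ) + 2 ≤ Q)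
    (hG : 20 * (R + 2 * T) + 20 * E ≤ G) (hG' : G ≤ n) {C : ℝ} (hC : 0 ≤ C) (hM : Mass h n R C ν)
    {ε ε' : ℝ} (hε : qq F T * Q ^ 7 * δ + 5 * Q ^ 11 * (2 * qq F n / qq F T) ≤ ε)
    (hε' : ∀ i i', i < n → i' < n → 2 * (R + 2 * T) ≤ i →
      |mcorr h (5 * n) (tr κ (R + 2 * T) i) (tr κ (R + 2 * T) i')| ≤ ε') (hε0 : 0 ≤ ε')
    {i i' : ℕ} (hi : i < n) (hi' : i' < n) :
    |((n : ℝ) - i) * ((n : ℝ) - i') * (corr h n (nl ν i) (nl ν i') -
      ind (i < 2 * (R + 2 * T)) * (ind (i' < 2 * (R + 2 * T)) *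
        (qq F n * mcorr h (5 * n) (tr κ (R + 2 * T) i) (tr κ (R + 2 * T) i'))))| ≤
      n ^ 2 * (ε + qq F n * ε') + ind (Strip n (E + 2 * T) i i') * (C * qq F n / (n : ℝ) ^ 2) := by
  have hd : h.degree < n := degree_le_natDegree.trans_lt (by exact_mod_cast hn)
  have hd5 : h.degree < (5 * n : ℕ) := hd.trans_le (by exact_mod_cast (by omega))
  have hq := qq_pos (F := F) n
  have hq' := qq_pos (F := F) T
  have hQ0 : 0 < Q := one_pos.trans_le hτ.one_le
  have hε1 : 0 ≤ ε := le_trans (by positivity) hε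
  wlog hle : i ≤ i' generalizing i i'
  · have := this hi' hi (by omega)
    rw [corr_comm hd, mcorr_comm hd5, mul_left_comm (ind _), mul_comm ((n : ℝ) - i')] at this
    refine this.trans (add_le_add le_rfl (mul_le_mul_of_nonneg_right (ind_mono ?_) (by positivity)))
    unfold Strip
    omega
  have a1 : (0 : ℝ) ≤ n - i := sub_nonneg.2 (by exact_mod_cast hi.le)
  have a2 : (0 : ℝ) ≤ n - i' := sub_nonneg.2 (by exact_mod_cast hi'.le)
  have a3 : ((n : ℝ) - i) * (n - i') ≤ n ^ 2 := by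
    rw [sq]
    exact mul_le_mul (sub_le_self _ (Nat.cast_nonneg _)) (sub_le_self _ (Nat.cast_nonneg _)) a2
      (Nat.cast_nonneg _)
  have a4 : 0 ≤ ind (Strip n (E + 2 * T) i i') * (C * qq F n / (n : ℝ) ^ 2) :=
    mul_nonneg (ind_nonneg _) (by positivity)
  have a5 : ∀ x : ℝ, |x| ≤ ε + qq F n * ε' → |((n : ℝ) - i) * (n - i') * x| ≤
      n ^ 2 * (ε + qq F n * ε') + ind (Strip n (E + 2 * T) i i') * (C * qq F n / (n : ℝ) ^ 2) :=
    fun x hx => by
      rw [abs_mul, abs_of_nonneg (mul_nonneg a1 a2)]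
      exact (mul_le_mul a3 hx (abs_nonneg _) (by positivity)).trans (le_add_of_nonneg_right a4)
  rcases cases hd hδ hE hs hτ hQ hG hG' hi' hle hε with ⟨h1, h2⟩ | h1 | ⟨h1, h2⟩
  · rw [ind_neg (P := i' < 2 * (R + 2 * T)) (by omega), zero_mul, mul_zero, sub_zero, abs_mul,
      abs_of_nonneg (mul_nonneg a1 a2), ind_pos (P := Strip n (E + 2 * T) i i') (by
        unfold Strip at h1 ⊢; omega), one_mul]
    refine le_trans ?_ (le_add_of_nonneg_left (by positivity))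
    exact (mul_le_mul_of_nonneg_left (abs_corr_nl hs.nonneg i i') (mul_nonneg a1 a2)).trans
      (hM i i' hi hi' (by omega))
  · refine a5 _ ?_
    by_cases h2 : i' < 2 * (R + 2 * T)
    · rw [ind_pos h2, ind_pos (P := i < 2 * (R + 2 * T)) (by omega), one_mul, one_mul]
      exact h1.trans (le_add_of_nonneg_right (by positivity))
    · rw [ind_neg h2, zero_mul, mul_zero, sub_zero]
      have h3 := hε' i' i hi' hi (by omega)
      rw [mcorr_comm hd5] at h3
      have h4 := abs_sub_abs_le_abs_sub (corr h n (nl ν i) (nl ν i'))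
        (qq F n * mcorr h (5 * n) (tr κ (R + 2 * T) i) (tr κ (R + 2 * T) i'))
      rw [abs_mul, abs_of_pos hq] at h4
      have h5 := mul_le_mul_of_nonneg_left h3 hq.le
      linarith
  · refine a5 _ ?_
    rw [ind_neg (P := i' < 2 * (R + 2 * T)) (by omega), zero_mul, mul_zero, sub_zero]
    exact h2.trans (le_add_of_nonneg_right (by positivity))

theorem sum_ind_lt {I n : ℕ} (hI : I ≤ n) (φ : ℕ → ℝ) :
    ∑ i ∈ range n, ind (i < I) * φ i = ∑ i ∈ range I, φ i := by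
  rw [← Finset.sum_subset (range_subset_range.2 hI) fun i _ hi => by
    rw [ind_neg (by simpa using hi), zero_mul]]
  exact Finset.sum_congr rfl fun i hi => by rw [ind_pos (mem_range.1 hi), one_mul]

theorem total (hn : h.natDegree < n) (hδ : 0 ≤ δ) (hE : Est h n G E δ)
    (hs : Sieve n R Q ν κ Z a b α) (hτ : DivB F Q n) (hQ : (n : ℝ) + 2 ≤ Q)
    (hG : 20 * (R + 2 * T) + 20 * E ≤ G) (hG' : G ≤ n) {C : ℝ} (hC : 0 ≤ C) (hM : Mass h n R C ν)
    {ε ε' : ℝ} (hε : qq F T * Q ^ 7 * δ + 5 * Q ^ 11 * (2 * qq F n / qq F T) ≤ ε)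
    (hε' : ∀ i i', i < n → i' < n → 2 * (R + 2 * T) ≤ i →
      |mcorr h (5 * n) (tr κ (R + 2 * T) i) (tr κ (R + 2 * T) i')| ≤ ε') (hε0 : 0 ≤ ε') :
    |corr h n (fun f => ν f * vm f) (fun f => ν f * vm f) - qq F n *
      ∑ i ∈ range (2 * (R + 2 * T)), ∑ i' ∈ range (2 * (R + 2 * T)), ((n : ℝ) - i) *
        ((n : ℝ) - i') * mcorr h (5 * n) (tr κ (R + 2 * T) i) (tr κ (R + 2 * T) i')| ≤
      n ^ 4 * (ε + qq F n * ε') + 4 * (E + 2 * T : ℕ) * n * (C * qq F n / (n : ℝ) ^ 2) := by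
  have hd : h.degree < n := degree_le_natDegree.trans_lt (by exact_mod_cast hn)
  have hq := qq_pos (F := F) n
  have e1 : ∀ f ∈ monF F n, ν f * vm f = ∑ i ∈ range n, ((n : ℝ) - i) * nl ν i f := fun f hf => by
    rw [vm_eq_sum (by omega) hf, Finset.mul_sum]
    exact Finset.sum_congr rfl fun i _ => by rw [nl]; ring
  have e2 : corr h n (fun f => ν f * vm f) (fun f => ν f * vm f) - qq F n *
      ∑ i ∈ range (2 * (R + 2 * T)), ∑ i' ∈ range (2 * (R + 2 * T)), ((n : ℝ) - i) *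
        ((n : ℝ) - i') * mcorr h (5 * n) (tr κ (R + 2 * T) i) (tr κ (R + 2 * T) i') =
      ∑ i ∈ range n, ∑ i' ∈ range n, ((n : ℝ) - i) * ((n : ℝ) - i') *
        (corr h n (nl ν i) (nl ν i') - ind (i < 2 * (R + 2 * T)) * (ind (i' < 2 * (R + 2 * T)) *
          (qq F n * mcorr h (5 * n) (tr κ (R + 2 * T) i) (tr κ (R + 2 * T) i')))) := by
    rw [corr_congr_left _ e1, corr_congr_right hd _ e1, corr_sum_left,
      ← sum_ind_lt (n := n) (I := 2 * (R + 2 * T)) (by omega), Finset.mul_sum,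
      ← Finset.sum_sub_distrib]
    refine Finset.sum_congr rfl fun i _ => ?_
    rw [corr_mul_left, corr_sum_right, ← sum_ind_lt (n := n) (I := 2 * (R + 2 * T)) (by omega),
      Finset.mul_sum, Finset.mul_sum, Finset.mul_sum, ← Finset.sum_sub_distrib]
    refine Finset.sum_congr rfl fun i' _ => ?_
    rw [corr_mul_right]
    ring
  rw [e2]
  refine (Finset.abs_sum_le_sum_abs _ _).trans ((Finset.sum_le_sum fun i hi =>
    (Finset.abs_sum_le_sum_abs _ _).trans (Finset.sum_le_sum fun i' hi' =>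
      term hn hδ hE hs hτ hQ hG hG' hC hM hε hε' hε0 (mem_range.1 hi) (mem_range.1 hi'))).trans ?_)
  simp only [Finset.sum_add_distrib, Finset.sum_const, card_range, nsmul_eq_mul, ← Finset.sum_mul]
  exact add_le_add (le_of_eq (by ring))
    (mul_le_mul_of_nonneg_right (sum_strip n _) (by positivity))

theorem twin_sub (hn : h.natDegree < n) (hs : Sieve n R Q ν κ Z a b α) (hQ : (n : ℝ) + 2 ≤ Q) :
    |(n : ℝ) ^ 2 * ∑ f ∈ monF F n, ind (Irreducible f ∧ Irreducible (f + h)) -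
      corr h n (fun f => ν f * vm f) fun f => ν f * vm f| ≤
      4 * Q ^ 4 * (2 * qq F n / qq F (n / 3)) := by
  have hd : h.degree < n := degree_le_natDegree.trans_lt (by exact_mod_cast hn)
  have hn0 : (0 : ℝ) ≤ n := Nat.cast_nonneg n
  have hQ0 : 0 < Q := by linarith
  have b1 : ∀ f ∈ monF F n, |ν f * vm f| ≤ Q * Q := fun f hf => by
    obtain ⟨h1, h2⟩ := mem_monF.1 hf
    rw [abs_mul, abs_of_nonneg (vm_nonneg f)]
    exact mul_le_mul (hs.lev.abs_le h1 h2.le) ((vm_le f).trans (by rw [h2]; linarith))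
      (vm_nonneg f) hQ0.le
  have b2 : ∀ f ∈ monF F n, |n * ind (Irreducible f)| ≤ Q * Q := fun f _ => by
    rw [abs_mul, abs_of_nonneg hn0, abs_of_nonneg (ind_nonneg _)]
    exact mul_le_mul (by linarith) ((ind_le_one _).trans (by linarith)) (ind_nonneg _) hQ0.le
  have b3 : ∀ f ∈ monF F n, |n * ind (Irreducible f) - ν f * vm f| ≤
      ind (Sq (n / 3) f) * (2 * (Q * Q)) := fun f hf => by
    by_cases hT : Sq (n / 3) f
    · rw [ind_pos hT, one_mul, two_mul (Q * Q)]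
      exact (abs_sub _ _).trans (add_le_add (b2 f hf) (b1 f hf))
    · rw [ind_neg hT, zero_mul, vm_eq_of_not_Sq hf hT]
      by_cases hi : Irreducible f
      · rw [hs.one f (mem_monF.1 hf).1 hi (mem_monF.1 hf).2]; simp
      · simp [ind_neg hi]
  have h1 := pert_left hd (by positivity) (by positivity) b2 b3
  have h2 := pert_right hd (by positivity) (by positivity) b1 b3
  have e : (n : ℝ) ^ 2 * ∑ f ∈ monF F n, ind (Irreducible f ∧ Irreducible (f + h)) =
      corr h n (fun f => n * ind (Irreducible f)) fun f => n * ind (Irreducible f) := by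
    rw [corr, Finset.mul_sum]
    exact Finset.sum_congr rfl fun f _ => by rw [SVar.ind_and]; ring
  have h3 := abs_sub_le (corr h n (fun f => n * ind (Irreducible f)) fun f => n * ind (Irreducible f))
    (corr h n (fun f => ν f * vm f) fun f => n * ind (Irreducible f))
    (corr h n (fun f => ν f * vm f) fun f => ν f * vm f)
  rw [e]
  linarith [show Q * Q * (2 * (Q * Q)) * (2 * qq F n / qq F (n / 3)) =
    2 * Q ^ 4 * (2 * qq F n / qq F (n / 3)) by ring]

end TSum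

end Pool.Agent.MP_43e117_nt

end
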