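import Mathlib
import Pool.Agent.Mg.F43e117.G0df52c
import Pool.Agent.Mg.F43e117.Ga0649d

/- Twin primes of `F[X]`: the singular series. -/

set_option autoImplicit false
set_option linter.unusedSectionVars false

namespace Pool.Agent.MP_43e117_nt

open Polynomial Finset Filter Pool.Agent.MP_4fffd4_nt Pool.Agent.MP_c853c5_nt
open scoped BigOperators

variable {F : Type*} [Field F] [Fintype F]

namespace TSing

open Classical in
/-- The local weights of the main term. -/
noncomputable def ww (h P : F[X]) : ℝ := if P ∣ h then 0 else 1 / (qq F P.natDegree - 1)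

theorem irr_spec {D : ℕ} : ∀ P ∈ irrLE F D, P.Monic ∧ Irreducible P := fun _ hP =>
  ⟨(mem_irrLE.1 hP).1, (mem_irrLE.1 hP).2.1⟩

theorem two_le_qq {P : F[X]} (hP : Irreducible P) : 2 ≤ qq F P.natDegree := by
  have h1 : 1 ≤ P.natDegree := hP.natDegree_pos
  calc (2 : ℝ) = 2 ^ 1 := by norm_num
    _ ≤ qq F 1 := two_pow_le_qq 1
    _ ≤ _ := qq_mono h1

theorem mainT_eq (h : F[X]) (n : ℕ) {I D : ℕ} (hD : I ≤ D + 1) :
    mainT h n I = ∑ i ∈ range I, ((n : ℝ) - i) * cc (irrLE F D) (ww h) i := by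
  classical
  unfold mainT cc
  refine sum_congr rfl fun j hj => ?_
  congr 1
  refine sum_congr rfl fun d hd => ?_
  congr 1
  refine prod_congr rfl fun P hP => ?_
  obtain ⟨hd1, hd2⟩ := mem_monF.1 hd
  obtain ⟨h1, h2, h3⟩ := (mem_pf hd1.ne_zero).1 hP
  have h4 : P.natDegree ≤ D := by
    have := natDegree_le_of_dvd h3 hd1.ne_zero
    have := mem_range.1 hj
    omega
  rw [if_pos (mem_irrLE.2 ⟨h1, h2, h4⟩)]
  unfold ww
  congr

theorem prod_eq (h : F[X]) (D : ℕ) :
    ∏ P ∈ irrLE F D, (1 - ww h P) / (1 - 1 / qq F P.natDegree) = sing h D := by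
  classical
  unfold sing
  refine prod_congr rfl fun P hP => ?_
  have h2 := two_le_qq (irr_spec P hP).2
  have h3 : qq F P.natDegree - 1 ≠ 0 := by linarith
  have h4 : qq F P.natDegree ≠ 0 := by linarith
  unfold ww
  by_cases hd : P ∣ h
  · simp only [hd, if_true]
    field_simp
    ring
  · simp only [hd, if_false]
    field_simp
    ring

theorem sum_geo (D : ℕ) {r : ℝ} (h0 : 0 ≤ r) (h1 : r < 1) :
    ∑ P ∈ irrLE F D, r ^ P.natDegree * (1 / qq F P.natDegree) ≤ 1 / (1 - r) := by
  classical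
  unfold irrLE
  rw [sum_biUnion]
  · calc ∑ j ∈ range (D + 1), ∑ P ∈ irrF F j, r ^ P.natDegree * (1 / qq F P.natDegree)
        ≤ ∑ j ∈ range (D + 1), r ^ j := by
          refine sum_le_sum fun j _ => ?_
          have e : ∑ P ∈ irrF F j, r ^ P.natDegree * (1 / qq F P.natDegree) =
              r ^ j * ∑ P ∈ irrF F j, 1 / qq F P.natDegree := by
            rw [mul_sum]
            exact sum_congr rfl fun P hP => by rw [(mem_irrF.1 hP).2.1]
          rw [e]
          refine mul_le_of_le_one_right (pow_nonneg h0 _) ((sum_inv_irrF j).trans ?_)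
          rcases Nat.eq_zero_or_pos j with rfl | hj
          · simp
          · rw [div_le_one (by exact_mod_cast hj)]
            exact_mod_cast hj
      _ ≤ ∑' j, r ^ j :=
          (summable_geometric_of_lt_one h0 h1).sum_le_tsum _ fun j _ => pow_nonneg h0 j
      _ = 1 / (1 - r) := by rw [tsum_geometric_of_lt_one h0 h1, one_div]
  · intro i _ j _ hij
    refine disjoint_left.2 fun P hi hj => hij ?_
    rw [← (mem_irrF.1 hi).2.1, ← (mem_irrF.1 hj).2.1]

theorem pow_div_le (p : ℕ) : (4 / 3 : ℝ) ^ p * (1 / qq F p) ≤ (2 / 3) ^ p := by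
  have h := two_pow_le_qq (F := F) p
  have h2 : (0 : ℝ) < 2 ^ p := by positivity
  calc (4 / 3 : ℝ) ^ p * (1 / qq F p) ≤ (4 / 3) ^ p * (1 / 2 ^ p) := by gcongr
    _ = (2 / 3) ^ p := by
      rw [one_div, ← inv_pow, ← mul_pow]
      norm_num

theorem NN_le {h : F[X]} (hh : h ≠ 0) (D : ℕ) :
    NN (irrLE F D) (ww h) ≤ Real.exp (3 * (pf h).card + 18) := by
  classical
  have key : ∀ P ∈ irrLE F D, 3 * |ww h P - 1 / qq F P.natDegree| * (4 / 3) ^ P.natDegree ≤
      (if P ∈ pf h then 3 else 0) + 6 * ((2 / 3) ^ P.natDegree * (1 / qq F P.natDegree)) := by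
    intro P hP
    obtain ⟨h1, h2⟩ := irr_spec P hP
    have h3 := two_le_qq h2
    have h4 := pow_div_le (F := F) P.natDegree
    have h5 : (2 / 3 : ℝ) ^ P.natDegree ≤ 1 := pow_le_one₀ (by norm_num) (by norm_num)
    have h6 : (0 : ℝ) ≤ (2 / 3) ^ P.natDegree * (1 / qq F P.natDegree) := by positivity
    have h7 : (0 : ℝ) < 1 / qq F P.natDegree := by positivity
    unfold ww
    by_cases hd : P ∣ h
    · rw [if_pos hd, if_pos ((mem_pf hh).2 ⟨h1, h2, hd⟩), zero_sub, abs_neg, abs_of_pos h7]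
      nlinarith
    · rw [if_neg hd, if_neg fun hm => hd ((mem_pf hh).1 hm).2.2, zero_add]
      have h8 : |1 / (qq F P.natDegree - 1) - 1 / qq F P.natDegree| ≤
          2 * (1 / qq F P.natDegree * (1 / qq F P.natDegree)) := by
        have e : 1 / (qq F P.natDegree - 1) - 1 / qq F P.natDegree =
            1 / (qq F P.natDegree - 1) * (1 / qq F P.natDegree) := by
          have : qq F P.natDegree - 1 ≠ 0 := by linarith
          field_simp
          ring
        have h9 : 1 / (qq F P.natDegree - 1) ≤ 2 * (1 / qq F P.natDegree) := by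
          rw [mul_one_div, div_le_div_iff₀ (by linarith) (by linarith)]
          linarith
        have h10 : 0 < 1 / (qq F P.natDegree - 1) := one_div_pos.2 (by linarith)
        rw [e, abs_of_pos (mul_pos h10 h7)]
        nlinarith
      calc 3 * |1 / (qq F P.natDegree - 1) - 1 / qq F P.natDegree| * (4 / 3) ^ P.natDegree
          ≤ 3 * (2 * (1 / qq F P.natDegree * (1 / qq F P.natDegree))) *
            (4 / 3) ^ P.natDegree := by gcongr
        _ = 6 * (((4 / 3) ^ P.natDegree * (1 / qq F P.natDegree)) * (1 / qq F P.natDegree)) := by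
          ring
        _ ≤ _ := by gcongr
  unfold NN
  calc ∏ P ∈ irrLE F D, (1 + 3 * |ww h P - 1 / qq F P.natDegree| * (4 / 3) ^ P.natDegree)
      ≤ ∏ P ∈ irrLE F D, Real.exp ((if P ∈ pf h then 3 else 0) +
          6 * ((2 / 3) ^ P.natDegree * (1 / qq F P.natDegree))) := by
        refine prod_le_prod (fun P _ => by positivity) fun P hP => ?_
        have := Real.add_one_le_exp ((if P ∈ pf h then 3 else 0) +
          6 * ((2 / 3) ^ P.natDegree * (1 / qq F P.natDegree)))
        linarith [key P hP]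
    _ ≤ _ := by
        rw [← Real.exp_sum, Real.exp_le_exp, sum_add_distrib, ← mul_sum]
        have h1 := sum_geo (F := F) D (r := 2 / 3) (by norm_num) (by norm_num)
        have h2 : ∑ P ∈ irrLE F D, (if P ∈ pf h then (3 : ℝ) else 0) ≤ 3 * (pf h).card := by
          rw [← sum_filter, sum_const, nsmul_eq_mul, mul_comm]
          gcongr
          exact fun P hP => (mem_filter.1 hP).2
        have h3 : (1 : ℝ) / (1 - 2 / 3) = 3 := by norm_num
        linarith

theorem approx {h : F[X]} (hh : h ≠ 0) {n I D : ℕ} (h1 : 1 ≤ I) (hI : I ≤ n) (hD : I ≤ D + 1) :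
    |mainT h n I - sing h D| ≤ 3 * Real.exp (3 * (pf h).card + 18) * n * (3 / 4) ^ I := by
  rw [mainT_eq h n hD, ← prod_eq]
  refine (cc_abel irr_spec (ww h) h1 hI).trans ?_
  have := NN_le hh D
  calc 3 * n * (3 / 4 : ℝ) ^ I * NN (irrLE F D) (ww h)
      ≤ 3 * n * (3 / 4 : ℝ) ^ I * Real.exp (3 * (pf h).card + 18) := by gcongr
    _ = _ := by ring

theorem three_le_qq {h : F[X]} (hq : 2 < Fintype.card F ∨ X * (X + 1) ∣ h) {P : F[X]}
    (h1 : P.Monic) (h2 : Irreducible P) (h3 : ¬ P ∣ h) : 3 ≤ qq F P.natDegree := by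
  classical
  have hp : 1 ≤ P.natDegree := h2.natDegree_pos
  by_cases hc : 2 < Fintype.card F
  · calc (3 : ℝ) ≤ qq F 1 := by
          rw [qq, pow_one]
          exact_mod_cast hc
      _ ≤ _ := qq_mono hp
  · have hX := hq.resolve_left hc
    rcases hp.eq_or_lt with hp1 | hp2
    · exfalso
      have hu : ({0, 1} : Finset F) = univ := by
        refine eq_univ_of_card _ ?_
        rw [card_pair zero_ne_one]
        have := Fintype.one_lt_card (α := F)
        omega
      have hP := h1.eq_X_add_C hp1.symm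
      have hm : P.coeff 0 ∈ ({0, 1} : Finset F) := hu ▸ mem_univ _
      rcases mem_insert.1 hm with h0 | h0
      · rw [h0, C_0, add_zero] at hP
        exact h3 (hP ▸ (dvd_mul_right _ _).trans hX)
      · rw [mem_singleton.1 h0, C_1] at hP
        exact h3 (hP ▸ (dvd_mul_left _ _).trans hX)
    · calc (3 : ℝ) ≤ 2 ^ 2 := by norm_num
        _ ≤ qq F 2 := two_pow_le_qq 2
        _ ≤ _ := qq_mono hp2

theorem sing_ge {h : F[X]} (hq : 2 < Fintype.card F ∨ X * (X + 1) ∣ h) (D : ℕ) :
    Real.exp (-16) ≤ sing h D := by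
  classical
  set x : F[X] → ℝ := fun P => ww h P ^ 2 with hx
  have hb : ∀ P ∈ irrLE F D, (0 ≤ x P ∧ x P ≤ 1 / 2) ∧
      x P ≤ 4 * ((1 / 2) ^ P.natDegree * (1 / qq F P.natDegree)) ∧
      1 - x P ≤ (1 - ww h P) / (1 - 1 / qq F P.natDegree) := by
    intro P hP
    obtain ⟨h1, h2⟩ := irr_spec P hP
    have h3 := two_le_qq h2
    have h7 : (0 : ℝ) < 1 / qq F P.natDegree := by positivity
    have h8 : 1 / qq F P.natDegree ≤ 1 / 2 := one_div_le_one_div_of_le two_pos h3
    simp only [hx, ww]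
    by_cases hd : P ∣ h
    · rw [if_pos hd]
      refine ⟨⟨by norm_num, by norm_num⟩, le_trans (by norm_num) (by positivity :
        (0 : ℝ) ≤ 4 * ((1 / 2) ^ P.natDegree * (1 / qq F P.natDegree))), ?_⟩
      rw [le_div_iff₀ (by linarith)]
      nlinarith
    · rw [if_neg hd]
      have h4 := three_le_qq hq h1 h2 hd
      have h5 : 0 < 1 / (qq F P.natDegree - 1) := one_div_pos.2 (by linarith)
      have h6 : 1 / (qq F P.natDegree - 1) ≤ 1 / 2 :=
        one_div_le_one_div_of_le two_pos (by linarith)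
      have h9 : 1 / (qq F P.natDegree - 1) ≤ 2 * (1 / qq F P.natDegree) := by
        rw [mul_one_div, div_le_div_iff₀ (by linarith) (by linarith)]
        linarith
      have h10 : 1 / qq F P.natDegree ≤ (1 / 2) ^ P.natDegree := by
        rw [one_div_pow]
        exact one_div_le_one_div_of_le (by positivity) (two_pow_le_qq _)
      refine ⟨⟨by positivity, by nlinarith⟩, ?_, le_of_eq ?_⟩
      · calc (1 / (qq F P.natDegree - 1)) ^ 2 ≤ (2 * (1 / qq F P.natDegree)) ^ 2 := by gcongr
          _ = 4 * (1 / qq F P.natDegree * (1 / qq F P.natDegree)) := by ring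
          _ ≤ _ := by gcongr
      · have h11 : qq F P.natDegree - 1 ≠ 0 := by linarith
        have h12 : qq F P.natDegree ≠ 0 := by linarith
        field_simp
        ring
  have h1 := prod_inv_le_exp (irrLE F D) x fun P hP => (hb P hP).1
  have h2 : ∑ P ∈ irrLE F D, x P ≤ 8 := by
    refine (sum_le_sum fun P hP => (hb P hP).2.1).trans ?_
    rw [← mul_sum]
    have := sum_geo (F := F) D (r := 1 / 2) (by norm_num) (by norm_num)
    norm_num at this ⊢
    linarith
  have h3 : 0 < ∏ P ∈ irrLE F D, (1 - x P) :=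
    prod_pos fun P hP => by linarith [(hb P hP).1.2]
  rw [prod_inv_distrib] at h1
  rw [← prod_eq]
  calc Real.exp (-16) ≤ (Real.exp (2 * ∑ P ∈ irrLE F D, x P))⁻¹ := by
        rw [← Real.exp_neg, Real.exp_le_exp]
        linarith
    _ ≤ ∏ P ∈ irrLE F D, (1 - x P) := inv_le_of_inv_le₀ h3 h1
    _ ≤ _ := prod_le_prod (fun P hP => by linarith [(hb P hP).1.2]) fun P hP => (hb P hP).2.2

end TSing

theorem exists_sing {h : F[X]} (hh : h ≠ 0) : ∃ S C : ℝ, Tendsto (sing h) atTop (nhds S) ∧
    (∀ n I : ℕ, 1 ≤ I → I ≤ n → |mainT h n I - S| ≤ C * n * (3 / 4) ^ I) ∧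
    (2 < Fintype.card F ∨ X * (X + 1) ∣ h → 0 < S) := by
  set C : ℝ := 3 * Real.exp (3 * (pf h).card + 18) with hC
  have hc : CauchySeq (sing h) := by
    refine cauchySeq_of_le_tendsto_0
      (fun N : ℕ => 2 * C * (((N + 1 : ℕ) : ℝ) * (3 / 4) ^ (N + 1))) (fun a b N ha hb => ?_) ?_
    · have h1 := TSing.approx hh (n := N + 1) (I := N + 1) (D := a) (by omega) le_rfl (by omega)
      have h2 := TSing.approx hh (n := N + 1) (I := N + 1) (D := b) (by omega) le_rfl (by omega)
      rw [Real.dist_eq]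
      rw [abs_sub_comm] at h1
      have h3 := abs_sub_le (sing h a) (mainT h (N + 1) (N + 1)) (sing h b)
      rw [← hC] at h1 h2
      linarith
    · have h1 := (tendsto_self_mul_const_pow_of_lt_one (r := (3 / 4 : ℝ)) (by norm_num)
        (by norm_num)).comp (tendsto_add_atTop_nat 1)
      simpa using h1.const_mul (2 * C)
  obtain ⟨S, hS⟩ := cauchySeq_tendsto_of_complete hc
  refine ⟨S, C, hS, fun n I h1 hI => ?_, fun hq => ?_⟩
  · refine le_of_tendsto ((hS.const_sub (mainT h n I)).abs) ?_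
    filter_upwards [eventually_ge_atTop I] with D hD
    exact TSing.approx hh h1 hI (by omega)
  · exact (Real.exp_pos _).trans_le (ge_of_tendsto' hS (TSing.sing_ge hq))

end Pool.Agent.MP_43e117_nt
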