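import Mathlib
import Pool.Agent.Mg.F43e117.Ga0649d

/- Twin primes of `F[X]`: the sieve weight along a line. -/

set_option autoImplicit false
set_option linter.unusedSectionVars false

namespace Pool.Agent.MP_43e117_nt

open Polynomial Finset Pool.Agent.MP_4fffd4_nt Pool.Agent.MP_c853c5_nt
open scoped BigOperators

variable {F : Type*} [Field F] [Fintype F]

namespace TModB

/-- Sums of periodic functions with moduli of degree at most `R`. -/
inductive Sp (R : ℕ) : (F[X] → ℝ) → Prop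
  | per (m : F[X]) (Φ : F[X] → ℝ) : m ≠ 0 → m.natDegree ≤ R → Per m Φ → Sp R Φ
  | add (Φ Ψ : F[X] → ℝ) : Sp R Φ → Sp R Ψ → Sp R fun t => Φ t + Ψ t

variable {R R' : ℕ} {Φ Ψ : F[X] → ℝ}

theorem Sp.const (R : ℕ) (c : ℝ) : Sp R fun _ : F[X] => c :=
  .per 1 _ one_ne_zero (by simp) fun _ _ => rfl

theorem Sp.mono (h : Sp R Φ) (hR : R ≤ R') : Sp R' Φ := by
  induction h with
  | per m Φ h1 h2 h3 => exact .per m Φ h1 (h2.trans hR) h3
  | add Φ Ψ _ _ h1 h2 => exact .add _ _ h1 h2

theorem Sp.mul (h : Sp R Φ) (h' : Sp R' Ψ) : Sp (R + R') fun t => Φ t * Ψ t := by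
  induction h with
  | add Φ Φ' _ _ h1 h2 => simpa only [add_mul] using Sp.add _ _ h1 h2
  | per m Φ h1 h2 h3 =>
    induction h' with
    | add Ψ Ψ' _ _ h1 h2 => simpa only [mul_add] using Sp.add _ _ h1 h2
    | per m' Ψ k1 k2 k3 =>
      refine .per (m * m') _ (mul_ne_zero h1 k1) (natDegree_mul_le.trans (add_le_add h2 k2))
        fun f t => ?_
      have e1 := h3 f (m' * t)
      have e2 := k3 f (m * t)
      rw [← mul_assoc] at e1
      rw [← mul_assoc, mul_comm m'] at e2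
      simp only [e1, e2]

theorem Sp.sum {ι : Type*} (s : Finset ι) (Φ : ι → F[X] → ℝ) (h : ∀ i ∈ s, Sp R (Φ i)) :
    Sp R fun t => ∑ i ∈ s, Φ i t := by
  classical
  induction s using Finset.induction_on with
  | empty => simpa using Sp.const R 0
  | insert a s ha ih =>
    simp only [sum_insert ha]
    exact .add _ _ (h a (mem_insert_self _ _)) (ih fun i hi => h i (mem_insert_of_mem hi))

theorem Sp.prod {ι : Type*} (s : Finset ι) (R : ι → ℕ) (Φ : ι → F[X] → ℝ)
    (h : ∀ i ∈ s, Sp (R i) (Φ i)) : Sp (∑ i ∈ s, R i) fun t => ∏ i ∈ s, Φ i t := by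
  classical
  induction s using Finset.induction_on with
  | empty => simpa using Sp.const 0 1
  | insert a s ha ih =>
    simp only [sum_insert ha, prod_insert ha]
    exact (h a (mem_insert_self _ _)).mul (ih fun i hi => h i (mem_insert_of_mem hi))

theorem Sp.expect (h : Sp R Φ) {l l' : ℕ} (hl : R ≤ l) (hl' : R ≤ l') :
    𝔼 t : degreeLT F l, Φ t.1 = 𝔼 t : degreeLT F l', Φ t.1 := by
  induction h with
  | per m Φ h1 h2 h3 => simpa using expect_per h1 h3 (h2.trans hl) (h2.trans hl') 0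
  | add Φ Ψ _ _ h1 h2 => rw [expect_add_distrib, expect_add_distrib, h1, h2]

theorem sp_choose {N : F[X] → ℕ} (h : Sp R fun t => (N t : ℝ)) (l : ℕ) :
    Sp (l * R) fun t => ((N t).choose l : ℝ) := by
  induction l with
  | zero => simpa using Sp.const 0 1
  | succ l ih =>
    have := (ih.mul (Sp.add _ _ h (Sp.const R (-l)))).mul (Sp.const 0 (1 / (l + 1 : ℝ)))
    rw [add_zero, ← Nat.succ_mul] at this
    convert this using 2 with t
    rw [mul_one_div, eq_div_iff (by positivity)]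
    rcases le_or_gt l (N t) with h1 | h1
    · rw [← sub_eq_add_neg, ← Nat.cast_sub h1]
      exact_mod_cast Nat.choose_succ_right_eq _ _
    · simp [Nat.choose_eq_zero_of_lt h1, Nat.choose_eq_zero_of_lt (h1.trans (Nat.lt_succ_self l))]

theorem sp_bonf {N : F[X] → ℕ} (h : Sp R fun t => (N t : ℝ)) (k : ℕ) :
    Sp (k * R) fun t => bonf k (N t) :=
  Sp.sum _ _ fun l hl => ((Sp.const 0 _).mul (sp_choose h l)).mono (by
    rw [zero_add]; exact Nat.mul_le_mul_right _ (Nat.lt_succ_iff.mp (mem_range.mp hl)))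

theorem sp_om (h c a : F[X]) (y s w : ℕ) :
    Sp (y / 2 ^ s) fun t => ((om (bl h y s) (c + a * t) + w : ℕ) : ℝ) := by
  have e : ∀ f, ((om (bl h y s) f + w : ℕ) : ℝ) = ∑ P ∈ bl h y s, ind (P ∣ f) + w := by
    intro f
    simp only [om, ind, Nat.cast_add, sum_boole]
  simp only [e]
  refine .add _ _ (Sp.sum _ _ fun P hP => ?_) (Sp.const _ _)
  obtain ⟨h1, -, -, h2, -⟩ := mem_blk.1 hP
  refine .per P _ h1.ne_zero h2 fun f t => congrArg ind (propext ?_)
  rw [show c + a * (f + P * t) = c + a * f + P * (a * t) by ring]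
  exact dvd_add_left (dvd_mul_right _ _)

theorem per_om (S : Finset F[X]) (c a f t : F[X]) :
    om S (c + a * (f + (∏ P ∈ S, P) * t)) = om S (c + a * f) := by
  classical
  unfold om
  congr 1
  refine filter_congr fun P hP => ?_
  rw [show c + a * (f + (∏ P ∈ S, P) * t) = c + a * f + (∏ P ∈ S, P) * (a * t) by ring]
  exact dvd_add_left ((dvd_prod_of_mem _ hP).mul_right _)

theorem coprime_bl (h : F[X]) (y : ℕ) {s s' : ℕ} (hs : s < s') :
    IsCoprime (∏ P ∈ bl h y s, P) (∏ P ∈ bl h y s', P) := by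
  refine IsCoprime.prod_left fun P hP => IsCoprime.prod_right fun Q hQ => ?_
  obtain ⟨-, h1, h2, -⟩ := mem_blk.1 hP
  obtain ⟨k0, -, -, k2, -⟩ := mem_blk.1 hQ
  refine h1.coprime_iff_not_dvd.2 fun hd => ?_
  have k3 := natDegree_le_of_dvd hd k0.ne_zero
  have k4 : y / 2 ^ s' ≤ y / 2 ^ (s + 1) :=
    Nat.div_le_div_left (Nat.pow_le_pow_right two_pos hs) (by positivity)
  omega

theorem nu_le (h : F[X]) (y S : ℕ) {d e : F[X]} (hd : d ≠ 0) (he : e ≠ 0) :
    nu h y S (d * e) * |mu d| ≤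
      ∏ s ∈ range S, bonf (2 * s + 2) (om (bl h y s) d + Om (bl h y s) e) := by
  have h0 : 0 ≤ ∏ s ∈ range S, bonf (2 * s + 2) (om (bl h y s) d + Om (bl h y s) e) :=
    prod_nonneg fun s _ => bonf_nonneg _ _
  by_cases hs : Squarefree d
  · have e1 : nu h y S (d * e) =
        ∏ s ∈ range S, bonf (2 * s + 2) (om (bl h y s) d + Om (bl h y s) e) :=
      prod_congr rfl fun s _ => by
        rw [Om_mul _ hd he, Om_of_squarefree (S := bl h y s)
          (fun P hP => ⟨(mem_blk.1 hP).1, (mem_blk.1 hP).2.1⟩) hs]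
    rw [e1]
    exact mul_le_of_le_one_right h0 (abs_mu_le d)
  · simpa [mu, hs] using h0

theorem sum_ind_le_one (s : Finset F[X]) (x : F[X]) : ∑ d ∈ s, ind (d = x) ≤ 1 := by
  classical
  simp only [ind]
  rw [show (∑ d ∈ s, @ite ℝ (d = x) (Classical.propDecidable _) 1 0) =
    ∑ d ∈ s, if d = x then 1 else 0 from sum_congr rfl fun _ _ => by congr, sum_ite_eq']
  split_ifs <;> norm_num

theorem gb_nonneg (k w : ℕ) : 0 ≤ gb k w := add_nonneg (ind_nonneg _) (by positivity)

end TModB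

theorem expect_level (h c a c' a' : F[X]) (y S : ℕ) (w w' : ℕ → ℕ) {l l' : ℕ} (hl : 16 * y ≤ l)
    (hl' : 16 * y ≤ l') :
    𝔼 t : degreeLT F l, ∏ s ∈ range S, (bonf (2 * s + 2) (om (bl h y s) (c + a * t.1) + w s) *
      bonf (2 * s + 2) (om (bl h y s) (c' + a' * t.1) + w' s)) =
    𝔼 t : degreeLT F l', ∏ s ∈ range S, (bonf (2 * s + 2) (om (bl h y s) (c + a * t.1) + w s) *
      bonf (2 * s + 2) (om (bl h y s) (c' + a' * t.1) + w' s)) := by
  refine (TModB.Sp.prod (range S) (fun s => (2 * s + 2) * (y / 2 ^ s) + (2 * s + 2) * (y / 2 ^ s))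
    _ fun s _ => (TModB.sp_bonf (TModB.sp_om h c a y s _) _).mul
      (TModB.sp_bonf (TModB.sp_om h c' a' y s _) _)).expect ?_ ?_ <;>
  · have := sum_level y S
    rw [sum_add_distrib]; omega

theorem line_model {h e e' : F[X]} (hh : h ≠ 0) {n i i' m m' y : ℕ} (S : ℕ) (hm : i + m = n)
    (hm' : i' + m' = n) (he : e ∈ monF F m) (he' : e' ∈ monF F m') (hy : n + 16 * y ≤ i + i')
    (hhn : h.natDegree < n) :
    (∑ d ∈ monF F i, ∑ d' ∈ monF F i', ind (d' * e' = d * e + h) *
      (nu h y S (d * e) * |mu d| * (nu h y S (d' * e') * |mu d'|))) * qq F n ≤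
      qq F (i + i' + h.natDegree) * (∏ s ∈ range S, VS (bl h y s)) ^ 2 *
        (GG h y S e * GG h y S e') := by
  classical
  obtain ⟨e1, e2⟩ := mem_monF.1 he
  obtain ⟨e3, e4⟩ := mem_monF.1 he'
  have g0 : 0 ≤ (∏ s ∈ range S, VS (bl h y s)) ^ 2 * (GG h y S e * GG h y S e') :=
    mul_nonneg (sq_nonneg _) (mul_nonneg (prod_nonneg fun _ _ => TModB.gb_nonneg _ _)
      (prod_nonneg fun _ _ => TModB.gb_nonneg _ _))
  rw [mul_assoc]
  by_cases hs : ∃ c ∈ monF F i, ∃ c' ∈ monF F i', c' * e' = c * e + h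
  swap
  · rw [sum_eq_zero fun d hd => sum_eq_zero fun d' hd' => by
      rw [ind_neg fun h1 => hs ⟨d, hd, d', hd', h1⟩, zero_mul], zero_mul]
    exact mul_nonneg (qq_pos _).le g0
  obtain ⟨c, hc, c', hc', h0⟩ := hs
  obtain ⟨a', a, k1, k2, k3⟩ := extract_gcd e e'
  have k4 : IsCoprime a' a := (gcd_isUnit_iff _ _).1 k3
  generalize gcd e e' = g at k1 k2
  have hg : g ≠ 0 := fun h1 => e1.ne_zero (by rw [k1, h1, zero_mul])
  have ha : a ≠ 0 := fun h1 => e3.ne_zero (by rw [k2, h1, mul_zero])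
  have d1 : g.natDegree + a.natDegree = m' := by rw [← e4, k2, natDegree_mul hg ha]
  have d2 : g.natDegree ≤ h.natDegree := natDegree_le_of_dvd
    ⟨c' * a - c * a', by rw [k1, k2] at h0; linear_combination -h0⟩ hh
  obtain ⟨l, hl⟩ : ∃ l, l + a.natDegree = i := ⟨i - a.natDegree, by omega⟩
  set H : F[X] → ℝ := fun t => ∏ s ∈ range S,
    (bonf (2 * s + 2) (om (bl h y s) (c + a * t) + Om (bl h y s) e) *
      bonf (2 * s + 2) (om (bl h y s) (c' + a' * t) + Om (bl h y s) e')) with hH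
  have H0 : ∀ t, 0 ≤ H t := fun t =>
    prod_nonneg fun s _ => mul_nonneg (bonf_nonneg _ _) (bonf_nonneg _ _)
  have s1 : ∀ d ∈ monF F i, ∀ d' ∈ monF F i', ind (d' * e' = d * e + h) *
      (nu h y S (d * e) * |mu d| * (nu h y S (d' * e') * |mu d'|)) ≤
      ∑ t ∈ ltF F l, ind (d = c + a * t) * (ind (d' = c' + a' * t) * H t) := by
    intro d hd d' hd'
    have n0 : ∀ t ∈ ltF F l, 0 ≤ ind (d = c + a * t) * (ind (d' = c' + a' * t) * H t) :=
      fun t _ => mul_nonneg (ind_nonneg _) (mul_nonneg (ind_nonneg _) (H0 t))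
    by_cases h1 : d' * e' = d * e + h
    swap
    · rw [ind_neg h1, zero_mul]; exact sum_nonneg n0
    have h2 : (d' - c') * a = a' * (d - c) := mul_left_cancel₀ hg (by
      rw [k1, k2] at h0 h1; linear_combination h1 - h0)
    obtain ⟨t, ht⟩ := k4.symm.dvd_of_dvd_mul_left ⟨d' - c', by rw [← h2, mul_comm]⟩
    have h3 : d = c + a * t := by linear_combination ht
    have h4 : d' = c' + a' * t := by
      have : (d' - c') * a = a' * t * a := by rw [h2, ht]; ring
      linear_combination mul_right_cancel₀ ha this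
    obtain ⟨m1, m2⟩ := mem_monF.1 hd
    obtain ⟨m3, m4⟩ := mem_monF.1 hc
    have h5 : t ∈ ltF F l := by
      rw [mem_ltF]
      by_cases t0 : t = 0
      · rw [t0, degree_zero]; exact WithBot.bot_lt_coe _
      have h6 : (d - c).degree < d.degree := degree_sub_lt_left
        (by rw [degree_eq_natDegree m1.ne_zero, degree_eq_natDegree m3.ne_zero, m2, m4])
        m1.ne_zero (by rw [m1.leadingCoeff, m3.leadingCoeff])
      rw [ht, degree_eq_natDegree m1.ne_zero, m2, degree_eq_natDegree (mul_ne_zero ha t0),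
        natDegree_mul ha t0, Nat.cast_lt] at h6
      rw [degree_eq_natDegree t0, Nat.cast_lt]
      omega
    refine le_trans ?_ (single_le_sum n0 h5)
    rw [ind_pos h1, ind_pos h3, ind_pos h4, one_mul, one_mul, one_mul, hH]
    simp only [prod_mul_distrib, ← h3, ← h4]
    exact mul_le_mul (TModB.nu_le h y S m1.ne_zero e1.ne_zero)
      (TModB.nu_le h y S (mem_monF.1 hd').1.ne_zero e3.ne_zero)
      (mul_nonneg (prod_nonneg fun _ _ => bonf_nonneg _ _) (abs_nonneg _))
      (prod_nonneg fun _ _ => bonf_nonneg _ _)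
  have s2 : ∑ d ∈ monF F i, ∑ d' ∈ monF F i', ∑ t ∈ ltF F l,
      ind (d = c + a * t) * (ind (d' = c' + a' * t) * H t) ≤ ∑ t ∈ ltF F l, H t := by
    rw [sum_congr rfl fun d _ => sum_comm, sum_comm]
    refine sum_le_sum fun t _ => ?_
    simp only [← mul_sum, ← sum_mul]
    have := mul_le_of_le_one_left (H0 t) (TModB.sum_ind_le_one (monF F i') (c' + a' * t))
    exact (mul_le_of_le_one_left (mul_nonneg (sum_nonneg fun _ _ => ind_nonneg _) (H0 t))
      (TModB.sum_ind_le_one _ _)).trans this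
  have s3 : ∑ t ∈ ltF F l, H t = qq F l * 𝔼 t : degreeLT F l, H t.1 := by
    rw [← SPsi.sum_LT, ← Fintype.card_mul_expect, card_degreeLT, qq, Nat.cast_pow]
  have mb : ∀ s, ∀ P ∈ bl h y s, P.Monic := fun s P hP => (mem_blk.1 hP).1
  have s4 : 𝔼 t : degreeLT F l, H t.1 ≤
      (∏ s ∈ range S, VS (bl h y s)) ^ 2 * (GG h y S e * GG h y S e') := by
    rw [hH, expect_level h c a c' a' y S _ _ (by omega)
      (Nat.le_add_right (16 * y) (∑ s ∈ range S, (∏ P ∈ bl h y s, P).natDegree)),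
      expect_prod_coprime (range S) (fun s => ∏ P ∈ bl h y s, P)
        (fun s _ => (monic_prod_of_monic _ _ (mb s)).ne_zero)
        (fun s _ s' _ h1 => h1.lt_or_gt.elim (TModB.coprime_bl h y)
          fun h2 => (TModB.coprime_bl h y h2).symm)
        (fun s t => bonf (2 * s + 2) (om (bl h y s) (c + a * t) + Om (bl h y s) e) *
          bonf (2 * s + 2) (om (bl h y s) (c' + a' * t) + Om (bl h y s) e'))
        (fun s _ f t => by simp only [TModB.per_om]) (Nat.le_add_left _ _),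
      GG, GG, ← prod_pow, ← prod_mul_distrib, ← prod_mul_distrib]
    refine prod_le_prod (fun s _ => expect_nonneg fun _ _ =>
      mul_nonneg (bonf_nonneg _ _) (bonf_nonneg _ _)) fun s hs => ?_
    refine block_bound (h := h) (fun P hP => ?_) ?_ e1.ne_zero e3.ne_zero ⟨g, by rw [k2, mul_comm]⟩
      ⟨g, by rw [k1, mul_comm]⟩ h0 (by rw [k1, k2]; ring) s ?_
    · exact ⟨mb s P hP, (mem_blk.1 hP).2.1, (mem_blk.1 hP).2.2.2.2⟩
    · have := sum_inv_blk h (y / 2 ^ s)
      rwa [Nat.div_div_eq_div_mul, ← pow_succ] at this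
    · rw [← natDegree_prod_of_monic _ (fun P => P) (mb s)]
      exact (single_le_sum (f := fun s => (∏ P ∈ bl h y s, P).natDegree)
        (fun _ _ => Nat.zero_le _) hs).trans (Nat.le_add_left _ _)
  calc _ ≤ qq F l * _ * qq F n := mul_le_mul_of_nonneg_right
        (((sum_le_sum fun d hd => sum_le_sum (s1 d hd)).trans s2).trans
          (s3.trans_le (mul_le_mul_of_nonneg_left s4 (qq_pos _).le))) (qq_pos _).le
    _ ≤ _ := by
      rw [mul_right_comm, ← qq_add]
      exact mul_le_mul_of_nonneg_right (qq_mono (by omega)) g0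

end Pool.Agent.MP_43e117_nt
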