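import Mathlib
import Pool.Agent.Mg.F43e117.Gfc7226
import Pool.Agent.Mg.F43e117.Gf5eab4

/- Twin primes of `F[X]`: existence of the sieve weight. -/

set_option autoImplicit false
set_option linter.unusedSectionVars false

namespace Pool.Agent.MP_43e117_nt

open Polynomial Finset Pool.Agent.MP_4fffd4_nt Pool.Agent.MP_c853c5_nt
open scoped BigOperators

variable {F : Type*} [Field F] [Fintype F]

namespace TSieve

theorem ind_mul {P : Prop} {a b : ℝ} (h : P → a = b) : ind P * a = ind P * b := by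
  by_cases hP : P
  · rw [h hP]
  · rw [ind_neg hP, zero_mul, zero_mul]

theorem sum_ind {α : Type*} {s : Finset α} {a : α} (ha : a ∈ s) (f : α → ℝ) :
    ∑ x ∈ s, ind (a = x) * f x = f a := by
  rw [Finset.sum_eq_single_of_mem a ha fun x _ hx => by rw [ind_neg hx.symm, zero_mul],
    ind_pos rfl, one_mul]

theorem piece {n i m : ℕ} (hm : i + m = n) (ν β : F[X] → ℝ) {g : F[X]} (hg : g ∈ monF F n) :
    ν g * up β i g =
      ∑ e ∈ monF F m, ∑ d ∈ monF F i, ind (d * e = g) * (ν (d * e) * β d) := by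
  rw [up_eq_cv (μ := m) (by omega) β hg, cv, mul_sum]
  refine sum_congr rfl fun e _ => ?_
  rw [mul_sum]
  refine sum_congr rfl fun d _ => ?_
  rw [mul_comm e d, mul_left_comm, one_mul]
  exact ind_mul fun h => by rw [h]

theorem mul_mem {i m : ℕ} {d e : F[X]} (hd : d ∈ monF F i) (he : e ∈ monF F m) :
    d * e ∈ monF F (i + m) := by
  rw [mem_monF] at hd he ⊢
  exact ⟨hd.1.mul he.1, by rw [hd.1.natDegree_mul he.1, hd.2, he.2]⟩

theorem add_mem {n : ℕ} {f h : F[X]} (hf : f ∈ monF F n) (hh : h.natDegree < n) :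
    f + h ∈ monF F n := by
  rw [mem_monF] at hf ⊢
  have h1 : h.natDegree < f.natDegree := hf.2 ▸ hh
  exact ⟨hf.1.add_of_left (degree_lt_degree h1), by
    rw [natDegree_add_eq_left_of_natDegree_lt h1, hf.2]⟩

theorem corr_eq {h : F[X]} {n i m i' m' : ℕ} (hm : i + m = n) (hm' : i' + m' = n)
    (hh : h.natDegree < n) (ν β : F[X] → ℝ) :
    corr h n (fun f => ν f * up β i f) (fun f => ν f * up β i' f) =
      ∑ e ∈ monF F m, ∑ e' ∈ monF F m', ∑ d ∈ monF F i, ∑ d' ∈ monF F i',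
        ind (d' * e' = d * e + h) * (ν (d * e) * β d * (ν (d' * e') * β d')) := by
  have h1 : corr h n (fun f => ν f * up β i f) (fun f => ν f * up β i' f) =
      ∑ e ∈ monF F m, ∑ d ∈ monF F i,
        ν (d * e) * β d * (ν (d * e + h) * up β i' (d * e + h)) := by
    have h2 : corr h n (fun f => ν f * up β i f) (fun f => ν f * up β i' f) =
        ∑ f ∈ monF F n, ∑ e ∈ monF F m, ∑ d ∈ monF F i, ind (d * e = f) *
          (ν (d * e) * β d * (ν (f + h) * up β i' (f + h))) := by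
      refine sum_congr rfl fun f hf => ?_
      show ν f * up β i f * (ν (f + h) * up β i' (f + h)) = _
      rw [piece hm ν β hf, sum_mul]
      refine sum_congr rfl fun e _ => ?_
      rw [sum_mul]
      exact sum_congr rfl fun d _ => mul_assoc _ _ _
    rw [h2, sum_comm]
    refine sum_congr rfl fun e he => ?_
    rw [sum_comm]
    refine sum_congr rfl fun d hd => ?_
    exact sum_ind (hm ▸ mul_mem hd he)
      fun f => ν (d * e) * β d * (ν (f + h) * up β i' (f + h))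
  rw [h1]
  refine sum_congr rfl fun e he => ?_
  rw [sum_comm]
  refine sum_congr rfl fun d hd => ?_
  rw [piece hm' ν β (add_mem (hm ▸ mul_mem hd he) hh), mul_sum]
  refine sum_congr rfl fun e' _ => ?_
  rw [mul_sum]
  exact sum_congr rfl fun d' _ => mul_left_comm _ _ _

theorem VS_nonneg (S : Finset F[X]) : 0 ≤ VS S :=
  prod_nonneg fun _ _ => sub_nonneg.2 ((div_le_one (qq_pos _)).2 (one_le_qq _))

theorem GG_nonneg (h : F[X]) (y S : ℕ) (e : F[X]) : 0 ≤ GG h y S e :=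
  prod_nonneg fun _ _ => add_nonneg (ind_nonneg _) (by positivity)

theorem mass {h : F[X]} (hh : h ≠ 0) {n y S D R : ℕ} (h1 : 8 ≤ y / 2 ^ S) (h2 : y / 2 ^ S ≤ 15)
    (hn : n ≤ D * y) (hR : 8 * y ≤ R) (hhn : h.natDegree < n) :
    Mass h n R (qq F h.natDegree * (D * Real.exp (2 * (15 + h.natDegree))) ^ 2 *
      (5 * Real.exp (Real.exp 14 + 2 * (15 + h.natDegree + D))) ^ 2) (nu h y S) := by
  intro i i' hi hi' hii
  obtain ⟨m, hm⟩ := Nat.exists_eq_add_of_le hi.le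
  obtain ⟨m', hm'⟩ := Nat.exists_eq_add_of_le hi'.le
  have e1 : (n : ℝ) - i = m := by rw [hm]; push_cast; ring
  have e2 : (n : ℝ) - i' = m' := by rw [hm']; push_cast; ring
  rw [e1, e2, corr_eq hm.symm hm'.symm hhn]
  set C₁ := 5 * Real.exp (Real.exp 14 + 2 * (15 + h.natDegree + D)) with hC₁
  set C₂ := D * Real.exp (2 * (15 + h.natDegree)) with hC₂
  set V := ∏ s ∈ range S, VS (bl h y s) with hV
  set T := ∑ e ∈ monF F m, ∑ e' ∈ monF F m', ∑ d ∈ monF F i, ∑ d' ∈ monF F i',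
    ind (d' * e' = d * e + h) * (nu h y S (d * e) * |mu d| * (nu h y S (d' * e') * |mu d'|))
    with hT
  have hV0 : 0 ≤ V := prod_nonneg fun _ _ => VS_nonneg _
  have a1 : T * qq F n ≤ qq F (i + i' + h.natDegree) * V ^ 2 *
      ((∑ e ∈ monF F m, GG h y S e) * ∑ e' ∈ monF F m', GG h y S e') := by
    rw [hT, sum_mul_sum, sum_mul, mul_sum]
    refine sum_le_sum fun e he => ?_
    rw [sum_mul, mul_sum]
    exact sum_le_sum fun e' he' => line_model hh S hm.symm hm'.symm he he' (by omega) hhn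
  have a2 : (m : ℝ) * ∑ e ∈ monF F m, GG h y S e ≤ C₁ * qq F m :=
    sum_GG hh h1 h2 (by omega) hn
  have a3 : (m' : ℝ) * ∑ e ∈ monF F m', GG h y S e ≤ C₁ * qq F m' :=
    sum_GG hh h1 h2 (by omega) hn
  have a4 : (n : ℝ) * V ≤ C₂ := by
    have b1 : (n : ℝ) ≤ D * y := by exact_mod_cast hn
    calc (n : ℝ) * V ≤ D * y * V := mul_le_mul_of_nonneg_right b1 hV0
      _ = D * (y * V) := mul_assoc _ _ _
      _ ≤ C₂ := mul_le_mul_of_nonneg_left (prod_VS hh h2) (Nat.cast_nonneg _)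
  have hn0 : (0 : ℝ) < n := by exact_mod_cast (Nat.zero_le i).trans_lt hi
  have g1 : 0 ≤ (m : ℝ) * ∑ e ∈ monF F m, GG h y S e :=
    mul_nonneg (Nat.cast_nonneg _) (sum_nonneg fun _ _ => GG_nonneg _ _ _ _)
  have g2 : 0 ≤ (m' : ℝ) * ∑ e ∈ monF F m', GG h y S e :=
    mul_nonneg (Nat.cast_nonneg _) (sum_nonneg fun _ _ => GG_nonneg _ _ _ _)
  have a5 : qq F (i + i' + h.natDegree) * (qq F m * qq F m') =
      qq F h.natDegree * (qq F n * qq F n) := by
    rw [← qq_add, ← qq_add, ← qq_add, ← qq_add]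
    congr 1
    omega
  rw [le_div_iff₀ (by positivity)]
  refine le_of_mul_le_mul_right ?_ (qq_pos (F := F) n)
  calc (m : ℝ) * m' * T * (n : ℝ) ^ 2 * qq F n = (m * m' * (n : ℝ) ^ 2) * (T * qq F n) := by ring
    _ ≤ (m * m' * (n : ℝ) ^ 2) * (qq F (i + i' + h.natDegree) * V ^ 2 *
      ((∑ e ∈ monF F m, GG h y S e) * ∑ e' ∈ monF F m', GG h y S e')) :=
        mul_le_mul_of_nonneg_left a1 (by positivity)
    _ = qq F (i + i' + h.natDegree) * ((n * V) ^ 2 *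
      ((m * ∑ e ∈ monF F m, GG h y S e) * (m' * ∑ e' ∈ monF F m', GG h y S e'))) := by ring
    _ ≤ qq F (i + i' + h.natDegree) * (C₂ ^ 2 * ((C₁ * qq F m) * (C₁ * qq F m'))) := by
        refine mul_le_mul_of_nonneg_left ?_ (qq_pos _).le
        exact mul_le_mul (pow_le_pow_left₀ (mul_nonneg hn0.le hV0) a4 2)
          (mul_le_mul a2 a3 g2 (g1.trans a2)) (mul_nonneg g1 g2) (sq_nonneg _)
    _ = C₂ ^ 2 * C₁ ^ 2 * (qq F (i + i' + h.natDegree) * (qq F m * qq F m')) := by ring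
    _ = qq F h.natDegree * C₂ ^ 2 * C₁ ^ 2 * qq F n * qq F n := by rw [a5]; ring

theorem size (M : ℕ) (hM : 0 < M) : ∃ n₀ : ℕ, ∀ n S : ℕ, n₀ ≤ n → 2 ^ S ≤ n →
    ((n + 2 * S + 3) ^ (2 * S + 3)) ^ S ≤ 2 ^ (n / M) := by
  obtain ⟨s₀, hs₀⟩ := poly_le (20 * M) 3 1 one_pos
  refine ⟨2 ^ (s₀ + 1), fun n S hn hS => ?_⟩
  have hn0 : n ≠ 0 := by
    have := Nat.two_pow_pos (s₀ + 1)
    omega
  set s := Nat.log 2 n with hs
  have b1 : 2 ^ s ≤ n := Nat.pow_log_le_self 2 hn0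
  have b2 : n < 2 ^ (s + 1) := Nat.lt_pow_succ_log_self one_lt_two n
  have b3 : s₀ + 1 ≤ s := (Nat.le_log_iff_pow_le one_lt_two hn0).2 hn
  have b4 : S ≤ s := (Nat.le_log_iff_pow_le one_lt_two hn0).2 hS
  have b5 : s < 2 ^ s := Nat.lt_two_pow_self
  have b6 : n + 2 * S + 3 ≤ 2 ^ (s + 3) := by
    rw [pow_succ] at b2
    rw [pow_add]
    omega
  have b7 := hs₀ s (by omega)
  rw [Nat.div_one] at b7
  have b8 : (s + 3) * (2 * S + 3) * S ≤ n / M := by
    rw [Nat.le_div_iff_mul_le hM]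
    have c1 : (s + 3) * (2 * S + 3) * S ≤ (4 * s) * (5 * s) * s :=
      Nat.mul_le_mul (Nat.mul_le_mul (by omega) (by omega)) b4
    have c2 : 20 * M ≤ (20 * M) ^ 3 := Nat.le_self_pow (by norm_num) _
    calc (s + 3) * (2 * S + 3) * S * M ≤ (4 * s) * (5 * s) * s * M := Nat.mul_le_mul_right _ c1
      _ = 20 * M * s ^ 3 := by ring
      _ ≤ (20 * M) ^ 3 * s ^ 3 := Nat.mul_le_mul_right _ c2
      _ = (20 * M * s) ^ 3 := by ring
      _ ≤ n := b7.trans b1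
  calc ((n + 2 * S + 3) ^ (2 * S + 3)) ^ S ≤ ((2 ^ (s + 3)) ^ (2 * S + 3)) ^ S :=
        Nat.pow_le_pow_left (Nat.pow_le_pow_left b6 _) _
    _ = 2 ^ ((s + 3) * (2 * S + 3) * S) := by rw [← pow_mul, ← pow_mul, mul_assoc]
    _ ≤ 2 ^ (n / M) := Nat.pow_le_pow_right two_pos b8

theorem sieve_mono {n R R' : ℕ} {B B' : ℝ} {ν κ : F[X] → ℝ} {ι : Type} {Z : Finset ι}
    {a b α : ι → F[X] → ℝ} (h : Sieve n R B ν κ Z a b α) (hR : R ≤ R') (hB : B ≤ B') :
    Sieve n R' B' ν κ Z a b α :=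
  ⟨h.one, h.unit, h.nonneg, h.lev.mono hR hB, h.sep, h.cardZ.trans hB,
    fun z hz => (h.leva z hz).mono hR hB, fun z hz e he hn => (h.bdb z hz e he hn).trans hB⟩

end TSieve

theorem exists_sieve {h : F[X]} (hh : h ≠ 0) {D : ℕ} (hD : 0 < D) : ∃ C : ℝ, 0 ≤ C ∧
    ∀ M : ℕ, 0 < M → ∃ n₀ : ℕ, ∀ n, n₀ ≤ n →
      ∃ (ν κ : F[X] → ℝ) (ι : Type) (Z : Finset ι) (a b α : ι → F[X] → ℝ),
        Sieve n (n / D) (qq F (n / M)) ν κ Z a b α ∧ Mass h n (n / D) C ν := by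
  refine ⟨qq F h.natDegree * ((16 * D : ℕ) * Real.exp (2 * (15 + h.natDegree))) ^ 2 *
      (5 * Real.exp (Real.exp 14 + 2 * (15 + h.natDegree + (16 * D : ℕ)))) ^ 2,
    mul_nonneg (mul_nonneg (qq_pos _).le (sq_nonneg _)) (sq_nonneg _), fun M hM => ?_⟩
  obtain ⟨n₀, hn₀⟩ := TSieve.size M hM
  refine ⟨n₀ + 64 * D + h.natDegree + 1, fun n hn => ?_⟩
  set R := n / D with hR
  set y := R / 8 with hy
  set S := Nat.log 2 (y / 8) with hS
  have r1 : 64 ≤ R := (Nat.le_div_iff_mul_le hD).2 (by omega)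
  have r2 : R ≤ n := Nat.div_le_self _ _
  have r3 : n < D * (R + 1) := Nat.lt_mul_div_succ n hD
  have s1 : 2 ^ S ≤ y / 8 := Nat.pow_log_le_self 2 (by omega)
  have s2 : y / 8 < 2 ^ (S + 1) := Nat.lt_pow_succ_log_self one_lt_two _
  have h1 : 8 ≤ y / 2 ^ S := (Nat.le_div_iff_mul_le (Nat.two_pow_pos S)).2 (by omega)
  have h2 : y / 2 ^ S ≤ 15 := by
    rw [pow_succ] at s2
    exact Nat.le_of_lt_succ ((Nat.div_lt_iff_lt_mul (Nat.two_pow_pos S)).2 (by omega))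
  have h3 : n ≤ 16 * D * y := by
    have c1 : D * (R + 1) ≤ D * (16 * y) := Nat.mul_le_mul_left _ (by omega)
    calc n ≤ D * (16 * y) := r3.le.trans c1
      _ = 16 * D * y := by ring
  obtain ⟨κ, Z, a, b, α, hs⟩ := sieve_nu h (n := n) (y := y) (S := S) (by omega)
  refine ⟨nu h y S, κ, _, Z, a, b, α, TSieve.sieve_mono hs (by omega) ?_,
    TSieve.mass hh h1 h2 h3 (by omega) (by omega)⟩
  refine le_trans ?_ (two_pow_le_qq _)
  exact_mod_cast hn₀ n S (by omega) (by omega)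

end Pool.Agent.MP_43e117_nt
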