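import Mathlib
import Pool.Agent.Mg.F43e117.Gb7fff1

section

/- Twin primes of `F[X]`: Fourier expansion of the amplified sum. -/

set_option autoImplicit false
set_option linter.unusedSectionVars false

namespace Pool.Agent.MP_43e117_nt

open Polynomial Finset Pool.Agent.MP_4fffd4_nt Pool.Agent.MP_c853c5_nt
open scoped BigOperators

variable {F : Type*} [Field F] [Fintype F]

namespace TOffA

theorem ind_and (P Q : Prop) : ind (P ∧ Q) = ind P * ind Q := by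
  by_cases hP : P
  · rw [ind_pos hP, one_mul]; exact SPsi.ind_congr (and_iff_right hP)
  · rw [ind_neg hP, zero_mul, ind_neg fun h => hP h.1]

theorem ind_mul_congr {P : Prop} {a b : ℝ} (h : P → a = b) : ind P * a = ind P * b := by
  by_cases hP : P
  · rw [h hP]
  · rw [ind_neg hP, zero_mul, zero_mul]

theorem ind_mul_le {P : Prop} {a b : ℝ} (hb : 0 ≤ b) (h : P → a ≤ b) : ind P * a ≤ b := by
  by_cases hP : P
  · rw [ind_pos hP, one_mul]; exact h hP
  · rw [ind_neg hP, zero_mul]; exact hb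

theorem sum_ind_mem {α : Type*} (s : Finset α) (a : α) : ∑ x ∈ s, ind (x = a) = ind (a ∈ s) := by
  by_cases ha : a ∈ s
  · rw [Finset.sum_eq_single_of_mem a ha fun x _ hx => ind_neg hx, ind_pos rfl, ind_pos ha]
  · rw [ind_neg ha]
    exact Finset.sum_eq_zero fun x hx => ind_neg fun e => ha (e ▸ hx)

theorem sum_ind_card {α β : Type*} {s : Finset α} {P : α → Prop} (S : Finset β) (f : α → β)
    (hf : ∀ x ∈ s, ∀ y ∈ s, P x → P y → f x = f y → x = y) (h : ∀ x ∈ s, P x → f x ∈ S) :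
    ∑ x ∈ s, ind (P x) ≤ S.card := by
  classical
  have : ∑ x ∈ s, ind (P x) = (s.filter P).card := by
    rw [Finset.card_filter]
    push_cast
    exact Finset.sum_congr rfl fun x _ => by unfold ind; congr
  rw [this, Nat.cast_le]
  refine Finset.card_le_card_of_injOn f (fun x hx => ?_) fun x hx y hy => ?_
  · have hx' := mem_filter.1 (mem_coe.1 hx)
    exact h x hx'.1 hx'.2
  · have hx' := mem_filter.1 (mem_coe.1 hx)
    have hy' := mem_filter.1 (mem_coe.1 hy)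
    exact hf x hx'.1 y hy'.1 hx'.2 hy'.2

theorem sq_sum_le {α : Type*} {s : Finset α} {P : α → Prop} {a : α → ℝ}
    (hP : ∀ x y, P x → P y → x = y) (ha : ∀ x, |a x| ≤ 1) :
    (∑ x ∈ s, ind (P x) * a x) ^ 2 ≤ ∑ x ∈ s, ind (P x) := by
  by_cases h : ∃ x ∈ s, P x
  · obtain ⟨x, hx, hp⟩ := h
    rw [Finset.sum_eq_single_of_mem x hx fun y _ hy => by
        rw [ind_neg fun hq => hy (hP _ _ hq hp), zero_mul],
      Finset.sum_eq_single_of_mem x hx fun y _ hy => ind_neg fun hq => hy (hP _ _ hq hp),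
      ind_pos hp, one_mul]
    exact (sq_le_one_iff_abs_le_one _).2 (ha x)
  · push Not at h
    rw [Finset.sum_eq_zero fun x hx => by rw [ind_neg (h x hx), zero_mul],
      Finset.sum_eq_zero fun x hx => ind_neg (h x hx)]
    norm_num

theorem sum_modes (l t : ℕ) (G : F[X] × F[X] × F[X] × F[X] × F[X] → ℝ) :
    ∑ ω ∈ modes F l t, G ω = ∑ l₁ ∈ irrF F l, ∑ l₂ ∈ irrF F l, ind (l₁ ≠ l₂) *
      ∑ g ∈ ltF F l, ind (g ≠ 0) * ∑ j₁ ∈ ltF F t, ∑ j₂ ∈ ltF F t,
        ind (j₁ ≠ 0) * (ind (j₂ ≠ 0) * G (l₁, l₂, g, j₁, j₂)) := by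
  have h : ∀ (P : Prop) [Decidable P] (a : ℝ), (if P then a else 0) = ind P * a := fun P _ a => by
    split_ifs with h
    · rw [ind_pos h, one_mul]
    · rw [ind_neg h, zero_mul]
  rw [modes, Finset.sum_filter]
  simp only [h, Finset.sum_product, Finset.mul_sum, ind_and, mul_assoc]

omit [Fintype F] in
theorem two_eq [CharP F 2] : (2 : F[X]) = 0 := by exact_mod_cast CharP.cast_eq_zero F[X] 2

theorem count [CharP F 2] {ν t : ℕ} {d x y : F[X]} (hd : d ∈ monF F (ν + t))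
    (hy : d ∣ y * x - 1) (h : F[X]) :
    ∑ e ∈ monF F ν, ind (d ∣ x * e + h) = ind (((y * h + X ^ ν) %ₘ d).degree < ν) := by
  obtain ⟨hm, hn⟩ := mem_monF.1 hd
  obtain ⟨c, hc⟩ := hy
  rw [sum_monF, SPsi.sum_LT ν fun z => ind (d ∣ x * (X ^ ν + z) + h),
    SPsi.ind_congr (mem_ltF (n := ν)).symm, ← sum_ind_mem]
  refine Finset.sum_congr rfl fun z hz => SPsi.ind_congr ?_
  have hz' : z.degree < d.degree := by
    rw [degree_eq_natDegree hm.ne_zero, hn]
    exact (mem_ltF.1 hz).trans_le (by exact_mod_cast Nat.le_add_right _ _)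
  constructor
  · rintro ⟨k, hk⟩
    rw [← (modByMonic_eq_self_iff hm).2 hz']
    refine modByMonic_eq_of_dvd_sub hm ⟨y * k - c * (X ^ ν + z), ?_⟩
    linear_combination y * hk - (X ^ ν + z) * hc - (y * h + X ^ ν) * two_eq (F := F)
  · intro e
    have h1 := modByMonic_add_div (y * h + X ^ ν) d
    rw [← e] at h1
    refine ⟨-x * ((y * h + X ^ ν) /ₘ d) + c * h, ?_⟩
    linear_combination x * h1 + h * hc + (x * X ^ ν + h) * two_eq (F := F)

/-- The sign of a frequency. -/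
noncomputable def sg (e : F → ℝ) (ν t : ℕ) (a : F[X]) : ℝ := e ((a * X ^ ν).coeff (ν + t - 1))

theorem kk_eq [CharP F 2] {e : F → ℝ} (he : Chr e) {ν t : ℕ} {d x y : F[X]}
    (hd : d ∈ monF F (ν + t)) (hy : d ∣ y * x - 1) (h : F[X]) :
    kk h ν t d x * qq F t =
      ∑ a ∈ ltF F t, ind (a ≠ 0) * (sg e ν t a * e (SFour.res (a * (y * h)) d)) := by
  obtain ⟨hm, hn⟩ := mem_monF.1 hd
  have hc : IsCoprime d x := by
    obtain ⟨c, hc⟩ := hy
    exact ⟨-c, y, by linear_combination hc⟩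
  have hq := (qq_pos (F := F) t).ne'
  have h0 : (0 : F[X]) ∈ ltF F t := by
    rw [mem_ltF, degree_zero]; exact WithBot.bot_lt_coe _
  rw [kk, ind_pos hc, one_mul, count hd hy, ← SFour.expect_res he _ hm hn, expect_LT,
    SPsi.sum_LT t fun a => e (SFour.res (a * (y * h + X ^ ν)) d)]
  change (_ / qq F t - 1 / qq F t) * qq F t = _
  rw [← sub_div, div_mul_cancel₀ _ hq, sub_eq_iff_eq_add, ← ind_pos h0, ← sum_ind_mem,
    ← Finset.sum_add_distrib]
  refine Finset.sum_congr rfl fun a ha => ?_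
  by_cases ha0 : a = 0
  · rw [ind_neg (not_not.2 ha0), ind_pos ha0, ha0]
    simp [SFour.res, he.toSgn.zero]
  · have hlt : (a * X ^ ν).degree < d.degree := by
      have h2 := (natDegree_lt_iff_degree_lt ha0).2 (mem_ltF.1 ha)
      refine degree_lt_degree ?_
      rw [natDegree_mul_X_pow _ ha0, hn]; omega
    rw [ind_pos ha0, ind_neg ha0, mul_add, SFour.res_add, he.add, SFour.res_of_lt hm hlt, hn, sg]
    ring

omit [Fintype F] in
theorem eq_of_dvd {a b : F[X]} (ha : a.Monic) (hb : b.Monic) (ha' : Irreducible a)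
    (hb' : Irreducible b) (h : a ∣ b) : a = b :=
  eq_of_monic_of_associated ha hb (ha'.associated_of_dvd hb' h)

theorem kk_mul [CharP F 2] {e : F → ℝ} (he : Chr e) {ν t l : ℕ} {d M x g l₁ l₂ : F[X]}
    (hd : d ∈ monF F (ν + t)) (h₁ : l₁ ∈ irrF F l) (h₂ : l₂ ∈ irrF F l) (hl : l₁ ≠ l₂)
    (hg : g * d = l₁ * M + l₂ * x) (h : F[X]) :
    kk h ν t d M * kk h ν t d x * qq F (2 * t) = ∑ j₁ ∈ ltF F t, ∑ j₂ ∈ ltF F t,
      ind (j₁ ≠ 0) * (ind (j₂ ≠ 0) * (sg e ν t j₁ * sg e ν t j₂ * (ind (IsCoprime (l₁ * M) d) *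
        e (SFour.res (h * (j₁ * l₁ + j₂ * l₂) * iv d (l₁ * M)) d)))) := by
  by_cases hc : IsCoprime (l₁ * M) d
  · have hy := iv_mul hc
    set y := iv d (l₁ * M)
    have hM : d ∣ l₁ * y * M - 1 := by convert hy using 2; ring
    have hx : d ∣ l₂ * y * x - 1 := by
      obtain ⟨c, hc⟩ := hy
      exact ⟨y * g - c, by linear_combination -y * hg - hc - two_eq (F := F)⟩
    rw [two_mul, qq_add, mul_mul_mul_comm, kk_eq he hd hM, kk_eq he hd hx, Finset.sum_mul_sum]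
    refine Finset.sum_congr rfl fun j₁ _ => Finset.sum_congr rfl fun j₂ _ => ?_
    rw [ind_pos hc, show h * (j₁ * l₁ + j₂ * l₂) * y = j₁ * (l₁ * y * h) + j₂ * (l₂ * y * h) by
      ring, SFour.res_add, he.add]
    ring
  · simp only [ind_neg hc, zero_mul, mul_zero, Finset.sum_const_zero]
    by_cases hM : IsCoprime d M
    · have hx : ¬ IsCoprime d x := fun hx => by
        obtain ⟨m₁, -, i₁⟩ := mem_irrF.1 h₁
        obtain ⟨m₂, -, i₂⟩ := mem_irrF.1 h₂
        refine hc (IsCoprime.mul_left (i₁.coprime_iff_not_dvd.2 fun hdv => ?_) hM.symm)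
        have h3 : l₁ ∣ l₂ * x := by
          rw [show l₂ * x = g * d - l₁ * M by linear_combination -hg]
          exact (hdv.mul_left g).sub (dvd_mul_right _ _)
        rcases i₁.prime.dvd_or_dvd h3 with h4 | h4
        · exact hl (eq_of_dvd m₁ m₂ i₁ i₂ h4)
        · exact i₁.not_isUnit (hx.isUnit_of_dvd' hdv h4)
      rw [kk, kk, ind_neg hx]; ring
    · rw [kk, ind_neg hM]; ring

theorem sum_pair {τ : ℝ} {n : ℕ} (hτ : DivB F τ n) {Y : F[X]} (hY : Y.natDegree ≤ n) (l I : ℕ) :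
    ∑ g ∈ ltF F l, ind (g ≠ 0) * ∑ d ∈ monF F I, ind (g * d = Y) ≤ τ := by
  by_cases h0 : Y = 0
  · refine le_trans (Finset.sum_eq_zero fun g _ => ?_).le (zero_le_one.trans hτ.one_le)
    rw [← mul_zero (ind (g ≠ 0))]
    exact ind_mul_congr fun hg => Finset.sum_eq_zero fun d hd => ind_neg
      (h0 ▸ mul_ne_zero hg (mem_monF.1 hd).1.ne_zero)
  refine le_trans (Finset.sum_le_sum fun g _ => ind_mul_le
    (Finset.sum_nonneg fun d _ => ind_nonneg _) fun _ => le_rfl) ?_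
  rw [Finset.sum_comm]
  refine le_trans (Finset.sum_le_sum fun d hd => ?_) (sum_up_le hτ h0 hY I)
  by_cases hdv : d ∣ Y
  · obtain ⟨c, hc⟩ := hdv
    rw [ind_pos ⟨c, hc⟩]
    refine le_trans (Finset.sum_le_sum fun g _ => ind_mono (Q := g = c) fun hg => ?_)
      ((sum_ind_mem _ c).trans_le (ind_le_one _))
    exact mul_right_cancel₀ (mem_monF.1 hd).1.ne_zero (by rw [hg, hc, mul_comm])
  · exact (Finset.sum_eq_zero fun g _ => ind_neg fun hg => hdv ⟨g, by rw [← hg, mul_comm]⟩).le.trans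
      (ind_nonneg _)

theorem eq_zero_of_dvd {l : ℕ} {a j : F[X]} (ha : a ∈ irrF F l) (hj : j.degree < l)
    (h : a ∣ j) : j = 0 := by
  obtain ⟨m, n, -⟩ := mem_irrF.1 ha
  exact eq_zero_of_dvd_of_degree_lt h (by rwa [degree_eq_natDegree m.ne_zero, n])

theorem eq_zero_of_dvd_comb {l : ℕ} {a b i j : F[X]} (ha : a ∈ irrF F l) (hb : b ∈ irrF F l)
    (hab : a ≠ b) (hj : j.degree < l) (h : a ∣ i * a + j * b) : j = 0 := by
  obtain ⟨m₁, -, i₁⟩ := mem_irrF.1 ha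
  obtain ⟨m₂, -, i₂⟩ := mem_irrF.1 hb
  rcases i₁.prime.dvd_or_dvd ((dvd_add_right (dvd_mul_left a i)).1 h) with h1 | h1
  · exact eq_zero_of_dvd ha hj h1
  · exact (hab (eq_of_dvd m₁ m₂ i₁ i₂ h1)).elim

theorem mem_pair {l : ℕ} {a l₁ l₂ J g Z : F[X]} (ha : a ∈ irrF F l) (h₁ : l₁ ∈ irrF F l)
    (h₂ : l₂ ∈ irrF F l) (hJ : ¬ a ∣ J) (hg : g.degree < l) (hg0 : g ≠ 0)
    (h : Z * a + J * g * (l₁ * l₂) = 0) : a = l₁ ∨ a = l₂ := by
  obtain ⟨m, -, i⟩ := mem_irrF.1 ha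
  obtain ⟨m₁, -, i₁⟩ := mem_irrF.1 h₁
  obtain ⟨m₂, -, i₂⟩ := mem_irrF.1 h₂
  have h1 : a ∣ J * g * (l₁ * l₂) := ⟨-Z, by linear_combination h⟩
  rcases i.prime.dvd_or_dvd h1 with h2 | h2
  · rcases i.prime.dvd_or_dvd h2 with h3 | h3
    · exact (hJ h3).elim
    · exact (hg0 (eq_zero_of_dvd ha hg h3)).elim
  · exact (i.prime.dvd_or_dvd h2).imp (eq_of_dvd m m₁ i i₁) (eq_of_dvd m m₂ i i₂)

theorem degenerate [CharP F 2] {l t : ℕ} (ht : t ≤ l) {l₁ l₂ Y : F[X]} (h₁ : l₁ ∈ irrF F l)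
    (h₂ : l₂ ∈ irrF F l) {ω : F[X] × F[X] × F[X] × F[X] × F[X]} (hω : ω ∈ modes F l t)
    (h : Y * (ω.1 * ω.2.1) +
      (ω.2.2.2.1 * ω.1 + ω.2.2.2.2 * ω.2.1) * ω.2.2.1 * (l₁ * l₂) = 0) :
    (ω.1 = l₁ ∧ ω.2.1 = l₂ ∨ ω.1 = l₂ ∧ ω.2.1 = l₁) ∧
      (ω.2.2.2.1 * ω.1 + ω.2.2.2.2 * ω.2.1) * ω.2.2.1 = Y := by
  obtain ⟨a, b, g, i, j⟩ := ω
  obtain ⟨ha, hb, hg, hi, hj, hab, g0, i0, j0⟩ := mem_modes.1 hω
  dsimp only at *
  have htl : (t : WithBot ℕ) ≤ l := by exact_mod_cast ht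
  have e1 := mem_pair (Z := Y * b) (J := i * a + j * b) ha h₁ h₂
    (fun h => j0 (eq_zero_of_dvd_comb ha hb hab (hj.trans_le htl) h)) hg g0
    (by linear_combination h)
  have e2 := mem_pair (Z := Y * a) (J := i * a + j * b) hb h₁ h₂
    (fun h => i0 (eq_zero_of_dvd_comb hb ha hab.symm (hi.trans_le htl) (add_comm (i * a) _ ▸ h)))
    hg g0 (by linear_combination h)
  have e3 : a = l₁ ∧ b = l₂ ∨ a = l₂ ∧ b = l₁ := by
    rcases e1 with rfl | rfl <;> rcases e2 with e | e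
    · exact (hab e.symm).elim
    · exact Or.inl ⟨rfl, e⟩
    · exact Or.inr ⟨rfl, e⟩
    · exact (hab e.symm).elim
  refine ⟨e3, ?_⟩
  have e4 : a * b = l₁ * l₂ := by
    rcases e3 with ⟨rfl, rfl⟩ | ⟨rfl, rfl⟩
    · rfl
    · exact mul_comm _ _
  refine mul_right_cancel₀ (mul_ne_zero (mem_irrF.1 h₁).1.ne_zero (mem_irrF.1 h₂).1.ne_zero) ?_
  rw [e4] at h
  linear_combination h - Y * (l₁ * l₂) * two_eq (F := F)

end TOffA

open TOffA

theorem offd_eq [CharP F 2] {e : F → ℝ} (he : Chr e) (h : F[X]) (ν t I' l : ℕ) :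
    ∃ s : F[X] × F[X] × F[X] × F[X] × F[X] → ℝ, (∀ ω, |s ω| ≤ 1) ∧ ∀ β : F[X] → ℝ,
      offd h ν t I' l β * qq F (2 * t) = ∑ M ∈ monF F I', ∑ x ∈ monF F I',
        β M * β x * ∑ ω ∈ modes F l t, s ω * xw e h (ν + t) ω M x := by
  refine ⟨fun ω => sg e ν t ω.2.2.2.1 * sg e ν t ω.2.2.2.2, fun ω => ?_, fun β => ?_⟩
  · simp only [sg, abs_mul, he.toSgn.abs_eq, mul_one, le_refl]
  rw [offd, Finset.sum_mul]
  refine Finset.sum_congr rfl fun M _ => ?_
  rw [Finset.sum_mul]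
  refine Finset.sum_congr rfl fun x _ => ?_
  rw [mul_assoc, sum_modes, Finset.sum_mul]
  refine congrArg _ (Finset.sum_congr rfl fun l₁ h₁ => ?_)
  rw [Finset.sum_mul]
  refine Finset.sum_congr rfl fun l₂ h₂ => ?_
  rw [mul_assoc, Finset.sum_mul]
  refine ind_mul_congr fun hl => Finset.sum_congr rfl fun g _ => ?_
  rw [mul_assoc, Finset.sum_mul]
  refine congrArg _ ?_
  rw [Finset.sum_congr rfl fun d hd => (mul_assoc _ _ _).trans
    (ind_mul_congr fun hg => kk_mul he hd h₁ h₂ hl hg h)]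
  simp only [xw, xi, Finset.mul_sum]
  rw [Finset.sum_comm]
  refine Finset.sum_congr rfl fun j₁ _ => ?_
  rw [Finset.sum_comm]
  exact Finset.sum_congr rfl fun j₂ _ => Finset.sum_congr rfl fun d _ => by ring

theorem sum_xw_sq {e : F → ℝ} (he : Chr e) (h : F[X]) {I I' l t : ℕ} {τ : ℝ}
    (hτ : DivB F τ (l + I')) (M x : F[X]) (hM : M ∈ monF F I') (hx : x ∈ monF F I') :
    ∑ ω ∈ modes F l t, xw e h I ω M x ^ 2 ≤
      qq F (2 * t) * ((irrF F l).card : ℝ) ^ 2 * τ := by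
  have hτ0 := zero_le_one.trans hτ.one_le
  have hq := (qq_pos (F := F) (2 * t)).le
  rw [sum_modes]
  refine le_trans (Finset.sum_le_sum fun l₁ h₁ => Finset.sum_le_sum fun l₂ h₂ =>
    ind_mul_le (b := qq F (2 * t) * τ) (mul_nonneg hq hτ0) fun _ => ?_) (le_of_eq ?_)
  · have hY : (l₁ * M + l₂ * x).natDegree ≤ l + I' := by
      refine (natDegree_add_le _ _).trans (max_le (natDegree_mul_le.trans ?_)
        (natDegree_mul_le.trans ?_))
      · rw [(mem_irrF.1 h₁).2.1, (mem_monF.1 hM).2]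
      · rw [(mem_irrF.1 h₂).2.1, (mem_monF.1 hx).2]
    refine le_trans (Finset.sum_le_sum fun g _ => ?_)
      ((Finset.mul_sum _ _ _).ge.trans (mul_le_mul_of_nonneg_left (sum_pair hτ hY l I) hq))
    rw [mul_left_comm]
    by_cases hg : g ≠ 0
    swap
    · rw [ind_neg hg, zero_mul, zero_mul]
    refine mul_le_mul_of_nonneg_left ?_ (ind_nonneg _)
    have h0 : 0 ≤ ∑ d ∈ monF F I, ind (g * d = l₁ * M + l₂ * x) :=
      Finset.sum_nonneg fun d _ => ind_nonneg _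
    refine le_trans (Finset.sum_le_sum fun j₁ _ => Finset.sum_le_sum fun j₂ _ =>
      ind_mul_le h0 fun _ => ind_mul_le h0 fun _ => ?_) (le_of_eq ?_)
    · refine sq_sum_le (fun d d' h1 h2 => mul_left_cancel₀ hg (h1.trans h2.symm)) fun d => ?_
      rw [abs_mul, he.toSgn.abs_eq, mul_one, abs_of_nonneg (ind_nonneg _)]
      exact ind_le_one _
    · simp only [Finset.sum_const, card_ltF, nsmul_eq_mul, qq]
      push_cast; ring
  · simp only [Finset.sum_const, nsmul_eq_mul]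
    ring

theorem card_degenerate [CharP F 2] {l t : ℕ} (ht : t ≤ l) {τ : ℝ} (hτ : DivB F τ (3 * l))
    {ω : F[X] × F[X] × F[X] × F[X] × F[X]} (hω : ω ∈ modes F l t) :
    ∑ ω' ∈ modes F l t, ind ((ω.2.2.2.1 * ω.1 + ω.2.2.2.2 * ω.2.1) * ω.2.2.1 * (ω'.1 * ω'.2.1) +
      (ω'.2.2.2.1 * ω'.1 + ω'.2.2.2.2 * ω'.2.1) * ω'.2.2.1 * (ω.1 * ω.2.1) = 0) ≤
      2 * qq F 1 * τ := by
  classical
  obtain ⟨l₁, l₂, g, i, j⟩ := ω
  obtain ⟨h₁, h₂, hg, hi, hj, hl, g0, i0, j0⟩ := mem_modes.1 hω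
  dsimp only at *
  have htl : (t : WithBot ℕ) ≤ l := by exact_mod_cast ht
  have hY0 : (i * l₁ + j * l₂) * g ≠ 0 := mul_ne_zero (fun h => j0
    (eq_zero_of_dvd_comb h₁ h₂ hl (hj.trans_le htl) (h ▸ dvd_zero _))) g0
  have hY : ((i * l₁ + j * l₂) * g).natDegree ≤ 3 * l := by
    have a1 := natDegree_le_of_degree_le (hi.trans_le htl).le
    have a2 := natDegree_le_of_degree_le (hj.trans_le htl).le
    have a3 := natDegree_le_of_degree_le hg.le
    have a4 := natDegree_mul_le (p := i) (q := l₁)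
    have a5 := natDegree_mul_le (p := j) (q := l₂)
    have a6 := natDegree_add_le (i * l₁) (j * l₂)
    have a7 := natDegree_mul_le (p := i * l₁ + j * l₂) (q := g)
    have a8 := (mem_irrF.1 h₁).2.1
    have a9 := (mem_irrF.1 h₂).2.1
    omega
  generalize (i * l₁ + j * l₂) * g = Y at hY0 hY
  refine le_trans (sum_ind_card (({l₁, l₂} : Finset F[X]) ×ˢ (univ : Finset F) ×ˢ divs Y)
    (fun ω => (ω.1, ω.2.2.1.leadingCoeff, ω.2.2.1 * C ω.2.2.1.leadingCoeff⁻¹)) ?_ ?_) ?_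
  · rintro ⟨a, b, c, u, v⟩ hw ⟨a', b', c', u', v'⟩ hw' p p' e
    obtain ⟨q1, q2⟩ := degenerate ht h₁ h₂ hw p
    obtain ⟨q1', q2'⟩ := degenerate ht h₁ h₂ hw' p'
    obtain ⟨ha, hb, -, hu, hv, hab, c0, -, -⟩ := mem_modes.1 hw
    obtain ⟨-, -, -, hu', hv', -, -, -, -⟩ := mem_modes.1 hw'
    simp only [Prod.mk.injEq] at *
    obtain ⟨rfl, e2, e3⟩ := e
    have eb : b = b' := by
      rcases q1 with ⟨x1, x2⟩ | ⟨x1, x2⟩ <;> rcases q1' with ⟨y1, y2⟩ | ⟨y1, y2⟩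
      · rw [x2, y2]
      · exact (hl (x1.symm.trans y1)).elim
      · exact (hl (y1.symm.trans x1)).elim
      · rw [x2, y2]
    subst eb
    have ec : c = c' := by
      rw [← e2] at e3
      exact mul_right_cancel₀ (C_ne_zero.2 (inv_ne_zero (leadingCoeff_ne_zero.2 c0))) e3
    subst ec
    have e4 := mul_right_cancel₀ c0 (q2.trans q2'.symm)
    have ev : v - v' = 0 := eq_zero_of_dvd_comb (i := u - u') ha hb hab
      (((degree_sub_le _ _).trans_lt (max_lt hv hv')).trans_le htl)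
      (by rw [show (u - u') * a + (v - v') * b = 0 by linear_combination e4]; exact dvd_zero _)
    have ev' := sub_eq_zero.1 ev
    subst ev'
    exact ⟨rfl, rfl, rfl, mul_right_cancel₀ (mem_irrF.1 ha).1.ne_zero (add_right_cancel e4), rfl⟩
  · rintro ⟨a, b, c, u, v⟩ hw p
    obtain ⟨q1, q2⟩ := degenerate ht h₁ h₂ hw p
    obtain ⟨-, -, -, -, -, -, c0, -, -⟩ := mem_modes.1 hw
    dsimp only at *
    simp only [mem_product, mem_insert, mem_singleton, mem_univ, true_and, mem_divs hY0]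
    refine ⟨q1.imp And.left And.left, monic_mul_leadingCoeff_inv c0,
      (u * a + v * b) * C c.leadingCoeff, ?_⟩
    have : C c.leadingCoeff⁻¹ * C c.leadingCoeff = 1 := by
      rw [← C_mul, inv_mul_cancel₀ (leadingCoeff_ne_zero.2 c0), C_1]
    linear_combination -q2 - c * (u * a + v * b) * this
  · rw [card_product, card_product, card_pair hl, card_univ, qq, pow_one, mul_assoc]
    push_cast
    have := hτ Y hY0 hY
    have hq := card_pos' (F := F)
    gcongr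

end Pool.Agent.MP_43e117_nt

end

section

/- Twin primes of `F[X]`: amplification for the determinant equation. -/

set_option autoImplicit false
set_option linter.unusedSectionVars false

namespace Pool.Agent.MP_43e117_nt

open Polynomial Finset Pool.Agent.MP_4fffd4_nt Pool.Agent.MP_c853c5_nt
open scoped BigOperators

variable {F : Type*} [Field F] [Fintype F]

namespace TAmp

theorem sum_le_ind {α : Type*} (s : Finset α) {P : α → Prop} {Q : Prop}
    (h1 : ∀ x ∈ s, ∀ y ∈ s, P x → P y → x = y) (h2 : ∀ x ∈ s, P x → Q) :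
    ∑ x ∈ s, ind (P x) ≤ ind Q := by
  by_cases h : ∃ x ∈ s, P x
  · obtain ⟨x, hx, hP⟩ := h
    rw [Finset.sum_eq_single_of_mem x hx fun y hy hne => ind_neg fun hy' => hne (h1 y hy x hx hy' hP),
      ind_pos hP, ind_pos (h2 x hx hP)]
  · rw [Finset.sum_eq_zero fun x hx => ind_neg fun hP => h ⟨x, hx, hP⟩]
    exact ind_nonneg _

theorem sum_le_one {α : Type*} (s : Finset α) {P : α → Prop}
    (h1 : ∀ x ∈ s, ∀ y ∈ s, P x → P y → x = y) : ∑ x ∈ s, ind (P x) ≤ 1 :=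
  (sum_le_ind s (Q := True) h1 fun _ _ _ => trivial).trans (ind_le_one _)

theorem cs_fib {α β : Type*} (A : Finset α) (R : Finset β) (ρ : α → β) (hρ : ∀ a ∈ A, ρ a ∈ R)
    (c : α → ℝ) :
    (∑ a ∈ A, c a) ^ 2 ≤ R.card * ∑ a ∈ A, ∑ b ∈ A, ind (ρ a = ρ b) * (c a * c b) := by
  have h1 : ∑ a ∈ A, c a = ∑ r ∈ R, ∑ a ∈ A, ind (ρ a = r) * c a := by
    rw [Finset.sum_comm]
    exact Finset.sum_congr rfl fun a ha => (SVar.sum_ind_eq (hρ a ha) fun _ => c a).symm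
  have h2 : ∑ r ∈ R, (∑ a ∈ A, ind (ρ a = r) * c a) ^ 2 =
      ∑ a ∈ A, ∑ b ∈ A, ind (ρ a = ρ b) * (c a * c b) := by
    simp only [sq, Finset.sum_mul_sum]
    rw [Finset.sum_comm]
    refine Finset.sum_congr rfl fun a ha => ?_
    rw [Finset.sum_comm]
    refine Finset.sum_congr rfl fun b _ => ?_
    rw [SVar.ind_congr (eq_comm (a := ρ a)),
      ← SVar.sum_ind_eq (hρ a ha) fun r => ind (ρ b = r) * (c a * c b)]
    exact Finset.sum_congr rfl fun r _ => by ring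
  rw [h1, ← h2]
  exact sq_sum_le_card_mul_sum_sq

theorem sym_bound {α : Type*} (A : Finset α) (E : α → α → Prop) (hE : ∀ a b, E a b ↔ E b a)
    (c k : α → ℝ) (hc : ∀ a ∈ A, c a ^ 2 ≤ k a ^ 2) :
    ∑ a ∈ A, ∑ b ∈ A, ind (E a b) * (c a * c b) ≤ ∑ a ∈ A, (∑ b ∈ A, ind (E a b)) * k a ^ 2 := by
  have h1 : ∑ a ∈ A, ∑ b ∈ A, ind (E a b) * k b ^ 2 = ∑ a ∈ A, ∑ b ∈ A, ind (E a b) * k a ^ 2 := by
    rw [Finset.sum_comm]
    exact Finset.sum_congr rfl fun a _ => Finset.sum_congr rfl fun b _ => by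
      rw [SVar.ind_congr (hE b a)]
  have h2 : ∑ a ∈ A, ∑ b ∈ A, ind (E a b) * (c a * c b) ≤
      ∑ a ∈ A, ∑ b ∈ A, (ind (E a b) * k a ^ 2 / 2 + ind (E a b) * k b ^ 2 / 2) := by
    refine Finset.sum_le_sum fun a ha => Finset.sum_le_sum fun b hb => ?_
    have := mul_le_mul_of_nonneg_left (a := ind (E a b)) (b := c a * c b)
      (c := (k a ^ 2 + k b ^ 2) / 2) (by nlinarith [hc a ha, hc b hb, sq_nonneg (c a - c b)])
      (ind_nonneg _)
    linarith
  simp only [Finset.sum_add_distrib, ← Finset.sum_div] at h2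
  simp only [Finset.sum_mul]
  linarith

theorem deg_sub {n : ℕ} {a b : F[X]} (ha : a.Monic) (hb : b.Monic) (ha' : a.natDegree = n)
    (hb' : b.natDegree = n) : (a - b).degree < n := by
  have h1 : a.degree = n := by rw [degree_eq_natDegree ha.ne_zero, ha']
  have h2 : b.degree = n := by rw [degree_eq_natDegree hb.ne_zero, hb']
  rw [← h1]
  exact degree_sub_lt_left (h1.trans h2.symm) ha.ne_zero (by rw [ha.leadingCoeff, hb.leadingCoeff])

theorem eq_of_dvd {n : ℕ} {a b d : F[X]} (ha : a ∈ monF F n) (hb : b ∈ monF F n) (hd : d.Monic)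
    (hn : n ≤ d.natDegree) (h : d ∣ a - b) : a = b := by
  rw [mem_monF] at ha hb
  refine sub_eq_zero.1 (eq_zero_of_dvd_of_degree_lt h ((deg_sub ha.1 hb.1 ha.2 hb.2).trans_le ?_))
  rw [degree_eq_natDegree hd.ne_zero]
  exact_mod_cast hn

theorem quot_mem {l I : ℕ} {g d Y : F[X]} (hd : d ∈ monF F I) (hY : Y.degree < (l + I : ℕ))
    (h : g * d = Y) : g ∈ ltF F l := by
  rw [mem_monF] at hd
  rw [mem_ltF]
  by_cases hg : g = 0
  · rw [hg, degree_zero]
    exact WithBot.bot_lt_coe _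
  · rw [← h, degree_eq_natDegree (mul_ne_zero hg hd.1.ne_zero), natDegree_mul hg hd.1.ne_zero,
      hd.2] at hY
    rw [degree_eq_natDegree hg]
    have : g.natDegree + I < l + I := by exact_mod_cast hY
    exact_mod_cast (by omega : g.natDegree < l)

theorem card_irr (l : ℕ) : ((irrF F l).card : ℝ) ≤ qq F l := by
  classical
  rw [qq, ← Nat.cast_pow, ← card_monF, Nat.cast_le]
  exact Finset.card_le_card fun P hP => mem_monF.2 ⟨(mem_irrF.1 hP).1, (mem_irrF.1 hP).2.1⟩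

theorem sum_irr_dvd (l : ℕ) {n : ℕ} {x : F[X]} (hx : x ∈ monF F n) :
    ∑ P ∈ irrF F l, ind (P ∣ x) ≤ n := by
  classical
  rw [mem_monF] at hx
  have h1 := SPsi.sum_ind_mul (irrF F l) (fun P => P ∣ x) fun _ => (1 : ℝ)
  simp only [mul_one] at h1
  rw [h1, Finset.sum_const, nsmul_eq_mul, mul_one, ← hx.2, Nat.cast_le]
  refine SLine.card_le_natDegree hx.1.ne_zero _ fun P hP => ?_
  rw [Finset.mem_filter, mem_irrF] at hP
  exact ⟨hP.1.1, hP.1.2.2, hP.2⟩

/-- The diagonal relation. -/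
def Dg (d : F[X]) (a b : F[X] × F[X]) : Prop :=
  (a.2 = b.2 ∧ d ∣ a.2 * a.1 + b.2 * b.1) ∨ (a.2 ≠ b.2 ∧ a.2 * a.1 + b.2 * b.1 = 0)

theorem Dg_comm (d : F[X]) (a b : F[X] × F[X]) : Dg d a b ↔ Dg d b a := by
  unfold Dg
  rw [add_comm (a.2 * a.1), eq_comm (a := a.2), ne_comm (a := a.2)]

section Two

variable [CharP F 2] {l I I' : ℕ} (hI : I' ≤ I) {d : F[X]} (hd : d ∈ monF F I)
include hI hd

omit hd in
theorem degY {p₁ p₂ x₁ x₂ : F[X]} (h₁ : p₁ ∈ irrF F l) (h₂ : p₂ ∈ irrF F l)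
    (hx₁ : x₁ ∈ monF F I') (hx₂ : x₂ ∈ monF F I') :
    (p₁ * x₁ + p₂ * x₂).degree < (l + I : ℕ) := by
  rw [mem_irrF] at h₁ h₂
  rw [mem_monF] at hx₁ hx₂
  rw [← CharTwo.sub_eq_add]
  refine (deg_sub (n := l + I') (h₁.1.mul hx₁.1) (h₂.1.mul hx₂.1) ?_ ?_).trans_le
    (by exact_mod_cast Nat.add_le_add_left hI l)
  · rw [h₁.1.natDegree_mul hx₁.1, h₁.2.1, hx₁.2]
  · rw [h₂.1.natDegree_mul hx₂.1, h₂.2.1, hx₂.2]

theorem split {a b : F[X] × F[X]} (ha : a ∈ monF F I' ×ˢ irrF F l)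
    (hb : b ∈ monF F I' ×ˢ irrF F l) :
    ind (d ∣ a.2 * a.1 + b.2 * b.1) = ind (Dg d a b) + ind (a.2 ≠ b.2) *
      ∑ g ∈ ltF F l, ind (g ≠ 0) * ind (g * d = a.2 * a.1 + b.2 * b.1) := by
  rw [Finset.mem_product] at ha hb
  have hd0 := (mem_monF.1 hd).1.ne_zero
  by_cases hp : a.2 = b.2
  · rw [ind_neg (not_not.2 hp), zero_mul, add_zero]
    exact SVar.ind_congr ⟨fun h => Or.inl ⟨hp, h⟩, fun h => h.elim And.right fun h => (h.1 hp).elim⟩
  rw [ind_pos (P := a.2 ≠ b.2) hp, one_mul]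
  by_cases hY : a.2 * a.1 + b.2 * b.1 = 0
  · rw [ind_pos (P := Dg d a b) (Or.inr ⟨hp, hY⟩), hY, ind_pos (dvd_zero d),
      Finset.sum_eq_zero fun g _ => ?_, add_zero]
    by_cases hg : g = 0
    · rw [ind_neg (not_not.2 hg), zero_mul]
    · rw [ind_neg (mul_ne_zero hg hd0), mul_zero]
  rw [ind_neg (P := Dg d a b) fun h => h.elim (fun h => hp h.1) fun h => hY h.2, zero_add]
  by_cases hv : d ∣ a.2 * a.1 + b.2 * b.1
  · obtain ⟨g, hg⟩ := id hv
    have hg' : g * d = a.2 * a.1 + b.2 * b.1 := by rw [hg, mul_comm]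
    rw [ind_pos hv, Finset.sum_eq_single_of_mem g
      (quot_mem hd (degY hI ha.2 hb.2 ha.1 hb.1) hg') fun g' _ hne => ?_,
      ind_pos hg', ind_pos (P := g ≠ 0) fun h0 => hY (by rw [hg, h0, mul_zero]), one_mul]
    rw [ind_neg (P := g' * d = _) fun h => hne (mul_right_cancel₀ hd0 (h.trans hg'.symm)), mul_zero]
  · rw [ind_neg hv]
    exact (Finset.sum_eq_zero fun g _ => by
      rw [ind_neg (P := g * d = _) fun h => hv (Dvd.intro_left g h), mul_zero]).symm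

theorem cnt₁ {x p : F[X]} (hx : x ∈ monF F I') (hp : p ∈ irrF F l) :
    ∑ y ∈ monF F I', ind (d ∣ p * x + p * y) ≤ 1 + ind (p ∣ d) * qq F l := by
  have hp' := mem_irrF.1 hp
  have hd' := mem_monF.1 hd
  by_cases hv : p ∣ d
  · rw [ind_pos hv, one_mul]
    calc _ ≤ ∑ y ∈ monF F I', ∑ g ∈ ltF F l, ind (g * d = p * x + p * y) :=
          Finset.sum_le_sum fun y hy => ind_le_sum fun ⟨g, hg⟩ =>
            ⟨g, quot_mem hd (degY hI hp hp hx hy) (by rw [hg, mul_comm]), by rw [hg, mul_comm]⟩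
      _ ≤ ∑ _g ∈ ltF F l, (1 : ℝ) := by
          rw [Finset.sum_comm]
          exact Finset.sum_le_sum fun g _ => sum_le_one _ fun y _ z _ h1 h2 =>
            mul_left_cancel₀ hp'.1.ne_zero (add_left_cancel (h1.symm.trans h2))
      _ ≤ _ := by rw [sum_one_ltF]; linarith
  · rw [ind_neg hv, zero_mul, add_zero]
    refine sum_le_one _ fun y hy z hz h1 h2 => eq_of_dvd hy hz hd'.1 (hd'.2 ▸ hI) ?_
    refine (hp'.2.2.coprime_iff_not_dvd.2 hv).symm.dvd_of_dvd_mul_left ?_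
    have := dvd_sub h1 h2
    rwa [add_sub_add_left_eq_sub, ← mul_sub] at this

omit hI hd in
theorem cnt₂ {x p p' : F[X]} (hp : p ∈ irrF F l) (hp' : p' ∈ irrF F l) :
    ∑ y ∈ monF F I', ind (p ≠ p' ∧ p * x + p' * y = 0) ≤ ind (p' ∣ x) := by
  rw [mem_irrF] at hp hp'
  refine sum_le_ind _ (fun y _ z _ h1 h2 =>
    mul_left_cancel₀ hp'.1.ne_zero (add_left_cancel (h1.2.trans h2.2.symm))) fun y _ h => ?_
  have h1 : ¬ p' ∣ p := fun hv =>
    h.1 (eq_of_monic_of_associated hp'.1 hp.1 (hp'.2.2.associated_of_dvd hp.2.2 hv)).symm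
  refine (hp'.2.2.coprime_iff_not_dvd.2 h1).dvd_of_dvd_mul_left ⟨-y, ?_⟩
  linear_combination h.2

theorem cnt {x : F[X]} (hx : x ∈ monF F I') :
    ∑ p ∈ irrF F l, ∑ b ∈ monF F I' ×ˢ irrF F l, ind (Dg d (x, p) b) ≤
      (2 * (I : ℝ) + 1) * qq F l := by
  have q0 := qq_pos (F := F) l
  have h1 : ∀ p ∈ irrF F l, ∑ b ∈ monF F I' ×ˢ irrF F l, ind (Dg d (x, p) b) ≤
      1 + ind (p ∣ d) * qq F l + I := by
    intro p hp
    calc _ ≤ ∑ b ∈ monF F I' ×ˢ irrF F l, (ind (p = b.2) * ind (d ∣ p * x + b.2 * b.1) +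
          ind (p ≠ b.2 ∧ p * x + b.2 * b.1 = 0)) :=
          Finset.sum_le_sum fun b _ => by
            rw [← SVar.ind_and]
            exact ind_le_add id
      _ = ∑ y ∈ monF F I', ind (d ∣ p * x + p * y) +
          ∑ p' ∈ irrF F l, ∑ y ∈ monF F I', ind (p ≠ p' ∧ p * x + p' * y = 0) := by
          rw [Finset.sum_add_distrib, Finset.sum_product, Finset.sum_product_right]
          congr 1
          exact Finset.sum_congr rfl fun y _ =>
            SVar.sum_ind_eq hp fun p' => ind (d ∣ p * x + p' * y)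
      _ ≤ _ := by
          refine add_le_add (cnt₁ hI hd hx hp) ((Finset.sum_le_sum fun p' hp' => cnt₂ hp hp').trans
            ((sum_irr_dvd l hx).trans (by exact_mod_cast hI)))
  refine (Finset.sum_le_sum h1).trans ?_
  rw [Finset.sum_add_distrib, Finset.sum_add_distrib, ← Finset.sum_mul, Finset.sum_const,
    Finset.sum_const, nsmul_eq_mul, nsmul_eq_mul, mul_one]
  have h2 := mul_le_mul_of_nonneg_right (sum_irr_dvd l hd) q0.le
  have h3 := mul_le_mul_of_nonneg_right (card_irr (F := F) l) (Nat.cast_nonneg (α := ℝ) I)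
  have h4 := card_irr (F := F) l
  linarith

theorem per_d (β k : F[X] → ℝ) (hβ : Bd I' β) :
    (∑ x ∈ monF F I', β x * k x) ^ 2 * ((irrF F l).card : ℝ) ^ 2 ≤
      qq F I * ((2 * (I : ℝ) + 1) * qq F l * ∑ x ∈ monF F I', k x ^ 2 +
        ∑ M ∈ monF F I', ∑ x ∈ monF F I', β M * β x * ∑ l₁ ∈ irrF F l, ∑ l₂ ∈ irrF F l,
          ind (l₁ ≠ l₂) * ∑ g ∈ ltF F l, ind (g ≠ 0) *
            (ind (g * d = l₁ * M + l₂ * x) * (k M * k x))) := by
  have hd' := mem_monF.1 hd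
  have h1 := cs_fib (monF F I' ×ˢ irrF F l) (ltF F I) (fun a => (a.2 * a.1) %ₘ d)
    (fun a _ => mem_ltF.2 ((degree_modByMonic_lt _ hd'.1).trans_eq
      (by rw [degree_eq_natDegree hd'.1.ne_zero, hd'.2]))) fun a => β a.1 * k a.1
  rw [Finset.sum_product, card_ltF, Nat.cast_pow] at h1
  simp only [Finset.sum_const, nsmul_eq_mul, ← Finset.mul_sum] at h1
  rw [mul_pow, mul_comm] at h1
  refine h1.trans (mul_le_mul_of_nonneg_left ?_ (qq_pos I).le)
  have h2 : ∀ a b : F[X] × F[X], (a.2 * a.1) %ₘ d = (b.2 * b.1) %ₘ d ↔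
      d ∣ a.2 * a.1 + b.2 * b.1 := fun a b => by
    rw [← CharTwo.sub_eq_add, ← modByMonic_eq_zero_iff_dvd hd'.1, sub_modByMonic, sub_eq_zero]
  rw [Finset.sum_congr rfl fun a ha => Finset.sum_congr rfl fun b hb => by
    rw [SVar.ind_congr (h2 a b), split hI hd ha hb, add_mul]]
  simp only [Finset.sum_add_distrib]
  refine add_le_add ((sym_bound _ (Dg d) (Dg_comm d) (fun a => β a.1 * k a.1) (fun a => k a.1)
    fun a ha => ?_).trans ?_) (le_of_eq ?_)
  · have := hβ a.1 (Finset.mem_product.1 ha).1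
    rw [mul_pow]
    exact mul_le_of_le_one_left (sq_nonneg _) ((sq_le_one_iff_abs_le_one _).2 this)
  · rw [Finset.sum_product, Finset.mul_sum]
    refine Finset.sum_le_sum fun x hx => ?_
    simp only [← Finset.sum_mul]
    exact mul_le_mul_of_nonneg_right (cnt hI hd hx) (sq_nonneg _)
  · rw [Finset.sum_product]
    refine Finset.sum_congr rfl fun M _ => ?_
    simp only [Finset.sum_product]
    rw [Finset.sum_comm]
    refine Finset.sum_congr rfl fun x _ => ?_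
    simp only [Finset.mul_sum, Finset.sum_mul]
    exact Finset.sum_congr rfl fun _ _ => Finset.sum_congr rfl fun _ _ =>
      Finset.sum_congr rfl fun _ _ => by ring

end Two

theorem sum_in {α : Type*} (D A : Finset α) (c : α → ℝ) (G : α → α → ℝ) :
    ∑ d ∈ D, ∑ a ∈ A, c a * G d a = ∑ a ∈ A, c a * ∑ d ∈ D, G d a := by
  rw [Finset.sum_comm]
  exact Finset.sum_congr rfl fun _ _ => (Finset.mul_sum _ _ _).symm

theorem sum_col {h : F[X]} {ν t I' : ℕ} (hh : h.degree < (ν + I' : ℕ)) {τ : ℝ}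
    (hτ : DivB F τ (ν + I')) {x : F[X]} (hx : x ∈ monF F I') :
    ∑ d ∈ monF F (ν + t), (∑ e ∈ monF F ν, ind (d ∣ x * e + h) + 1 / qq F t) ≤
      2 * τ * qq F ν := by
  have q0 := qq_pos (F := F) ν
  have h1 : ∑ d ∈ monF F (ν + t), ∑ e ∈ monF F ν, ind (d ∣ x * e + h) ≤ τ * qq F ν := by
    rw [Finset.sum_comm, ← sum_one_monF, Finset.mul_sum]
    refine Finset.sum_le_sum fun e he => ?_
    rw [mem_monF] at hx he
    have hm := hx.1.mul he.1
    have hn : (x * e).natDegree = ν + I' := by rw [hx.1.natDegree_mul he.1, hx.2, he.2, add_comm]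
    have hl : h.degree < (x * e).degree := by rwa [degree_eq_natDegree hm.ne_zero, hn]
    rw [mul_one]
    exact sum_up_le hτ (hm.add_of_left hl).ne_zero
      ((natDegree_add_eq_left_of_degree_lt hl).trans hn).le _
  have h2 : ∑ _d ∈ monF F (ν + t), 1 / qq F t = qq F ν := by
    rw [← Finset.sum_div, sum_one_monF, qq_add, mul_div_cancel_right₀ _ (qq_pos t).ne']
  rw [Finset.sum_add_distrib, h2]
  nlinarith [hτ.one_le]

theorem kk_abs (h : F[X]) (ν t : ℕ) (d x : F[X]) :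
    |kk h ν t d x| ≤ ∑ e ∈ monF F ν, ind (d ∣ x * e + h) + 1 / qq F t := by
  have h1 : 0 ≤ ∑ e ∈ monF F ν, ind (d ∣ x * e + h) := Finset.sum_nonneg fun _ _ => ind_nonneg _
  have h2 : 0 < 1 / qq F t := one_div_pos.2 (qq_pos t)
  unfold kk
  by_cases hc : IsCoprime d x
  · rw [ind_pos hc, one_mul]
    exact abs_le.2 ⟨by linarith, by linarith⟩
  · rw [ind_neg hc, zero_mul, abs_zero]
    linarith

theorem kk_le_one (h : F[X]) {ν t : ℕ} {d : F[X]} (hd : d ∈ monF F (ν + t)) (x : F[X]) :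
    |kk h ν t d x| ≤ 1 := by
  have h1 : 0 ≤ ∑ e ∈ monF F ν, ind (d ∣ x * e + h) := Finset.sum_nonneg fun _ _ => ind_nonneg _
  have h2 : 0 < 1 / qq F t := one_div_pos.2 (qq_pos t)
  have h3 : 1 / qq F t ≤ 1 := (div_le_one (qq_pos t)).2 (one_le_qq t)
  have hd' := mem_monF.1 hd
  unfold kk
  by_cases hc : IsCoprime d x
  · have h4 : ∑ e ∈ monF F ν, ind (d ∣ x * e + h) ≤ 1 := by
      refine sum_le_one _ fun y hy z hz e1 e2 => eq_of_dvd hy hz hd'.1 (by omega) ?_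
      refine hc.dvd_of_dvd_mul_left ?_
      have := dvd_sub e1 e2
      rwa [add_sub_add_right_eq_sub, ← mul_sub] at this
    rw [ind_pos hc, one_mul]
    exact abs_le.2 ⟨by linarith, by linarith⟩
  · rw [ind_neg hc, zero_mul, abs_zero]
    exact zero_le_one

end TAmp

open TAmp

theorem amp [CharP F 2] (h : F[X]) {ν t I' : ℕ} (l : ℕ) (hI : I' ≤ ν + t) {α β : F[X] → ℝ}
    (hα : Bd (ν + t) α) (hβ : Bd I' β) :
    (∑ d ∈ monF F (ν + t), ∑ x ∈ monF F I', α d * β x * kk h ν t d x) ^ 2 *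
        ((irrF F l).card : ℝ) ^ 2 ≤
      qq F (2 * (ν + t)) * ((2 * (ν + t : ℕ) + 1) * qq F l *
        (∑ d ∈ monF F (ν + t), ∑ x ∈ monF F I', kk h ν t d x ^ 2) + |offd h ν t I' l β|) := by
  have q0 := qq_pos (F := F) (ν + t)
  have h1 : (∑ d ∈ monF F (ν + t), ∑ x ∈ monF F I', α d * β x * kk h ν t d x) ^ 2 ≤
      qq F (ν + t) * ∑ d ∈ monF F (ν + t), (∑ x ∈ monF F I', β x * kk h ν t d x) ^ 2 := by
    simp only [mul_assoc, ← Finset.mul_sum]
    refine (Finset.sum_mul_sq_le_sq_mul_sq _ _ _).trans (mul_le_mul_of_nonneg_right ?_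
      (Finset.sum_nonneg fun _ _ => sq_nonneg _))
    rw [← sum_one_monF]
    exact Finset.sum_le_sum fun d hd => (sq_le_one_iff_abs_le_one _).2 (hα d hd)
  have h2 := Finset.sum_le_sum fun d (hd : d ∈ monF F (ν + t)) =>
    per_d (l := l) hI hd β (kk h ν t d) hβ
  rw [← Finset.sum_mul, ← Finset.mul_sum, Finset.sum_add_distrib, ← Finset.mul_sum] at h2
  have h3 : ∑ d ∈ monF F (ν + t), ∑ M ∈ monF F I', ∑ x ∈ monF F I', β M * β x *
      ∑ l₁ ∈ irrF F l, ∑ l₂ ∈ irrF F l, ind (l₁ ≠ l₂) * ∑ g ∈ ltF F l, ind (g ≠ 0) *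
        (ind (g * d = l₁ * M + l₂ * x) * (kk h ν t d M * kk h ν t d x)) = offd h ν t I' l β := by
    unfold offd
    rw [Finset.sum_comm]
    refine Finset.sum_congr rfl fun M _ => ?_
    rw [sum_in]
    refine Finset.sum_congr rfl fun x _ => congrArg _ ?_
    rw [Finset.sum_comm]
    refine Finset.sum_congr rfl fun l₁ _ => ?_
    rw [sum_in]
    exact Finset.sum_congr rfl fun l₂ _ => congrArg _ (sum_in _ _ _ _)
  rw [h3] at h2
  refine (mul_le_mul_of_nonneg_right h1 (sq_nonneg _)).trans ?_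
  rw [two_mul (ν + t), qq_add (ν + t) (ν + t), mul_assoc, mul_assoc (qq F (ν + t))]
  refine mul_le_mul_of_nonneg_left (h2.trans (mul_le_mul_of_nonneg_left ?_ q0.le)) q0.le
  exact add_le_add le_rfl (le_abs_self _)

theorem kk_sq {h : F[X]} {ν t I' : ℕ} (hh : h.degree < (ν + I' : ℕ)) {τ : ℝ}
    (hτ : DivB F τ (ν + I')) :
    ∑ d ∈ monF F (ν + t), ∑ x ∈ monF F I', kk h ν t d x ^ 2 ≤ 4 * τ * qq F (ν + I') := by
  rw [Finset.sum_comm]
  calc _ ≤ ∑ _x ∈ monF F I', 2 * τ * qq F ν * 1 := by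
        refine Finset.sum_le_sum fun x hx => ?_
        rw [mul_one]
        refine (Finset.sum_le_sum fun d hd => ?_).trans (sum_col (t := t) hh hτ hx)
        refine le_trans ?_ (kk_abs h ν t d x)
        rw [← sq_abs, sq]
        exact mul_le_of_le_one_left (abs_nonneg _) (kk_le_one h hd x)
    _ ≤ _ := by
        rw [← Finset.mul_sum, sum_one_monF, mul_assoc, ← qq_add]
        nlinarith [hτ.one_le, qq_pos (F := F) (ν + I')]

theorem kk_Sq {h : F[X]} {ν t I' : ℕ} (hh : h.degree < (ν + I' : ℕ)) {τ : ℝ}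
    (hτ : DivB F τ (ν + I')) (T : ℕ) :
    ∑ d ∈ monF F (ν + t), ∑ x ∈ monF F I', ind (Sq T x) * |kk h ν t d x| ≤
      4 * τ * qq F (ν + I') / qq F T := by
  have h0 : 0 ≤ 2 * τ * qq F ν :=
    mul_nonneg (by linarith [hτ.one_le]) (qq_pos ν).le
  rw [sum_in]
  calc _ ≤ ∑ x ∈ monF F I', ind (Sq T x) * (2 * τ * qq F ν) :=
        Finset.sum_le_sum fun x hx => mul_le_mul_of_nonneg_left
          ((Finset.sum_le_sum fun d _ => kk_abs h ν t d x).trans (sum_col hh hτ hx)) (ind_nonneg _)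
    _ ≤ 2 * qq F I' / qq F T * (2 * τ * qq F ν) := by
        rw [← Finset.sum_mul]
        exact mul_le_mul_of_nonneg_right (sum_Sq I' T) h0
    _ = _ := by rw [qq_add]; ring

end Pool.Agent.MP_43e117_nt

end
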