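import Mathlib
import Pool.Agent.Mg.F43e117.Gb7fff1

section

/- Twin primes of `F[X]`: an elementary bound for incomplete Kloosterman sums. -/

set_option autoImplicit false
set_option linter.unusedSectionVars false

namespace Pool.Agent.MP_43e117_nt

open Polynomial Finset Pool.Agent.MP_4fffd4_nt Pool.Agent.MP_c853c5_nt
open scoped BigOperators

variable {F : Type*} [Field F] [Fintype F]

namespace TKl

section Abs

variable {R : Type*} [CommRing R] [Fintype R] [DecidableEq R] {ψ : R → ℝ}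

/-- The complete Kloosterman sum of a finite ring. -/
noncomputable def Kl (ψ : R → ℝ) (a b : R) : ℝ := ∑ y : Rˣ, ψ (a * ↑y⁻¹ + b * ↑y)

theorem orth (hψ : Sgn ψ) (ho : ∀ x, (∀ a, ψ (a * x) = 1) → x = 0) (x : R) :
    ∑ a, ψ (a * x) = Fintype.card R * ind (x = 0) := by
  have h1 := (hψ.comp (fun a => a * x) fun a b => add_mul a b x).expect_eq_ind
  rw [Fintype.expect_eq_sum_div_card, div_eq_iff (by positivity)] at h1
  rw [h1, mul_comm, SVar.ind_congr ⟨ho x, fun h a => by rw [h, mul_zero, hψ.zero]⟩]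

theorem moment (hψ : Sgn ψ) (ho : ∀ x, (∀ a, ψ (a * x) = 1) → x = 0) {ι : Type*} [Fintype ι]
    (α β : ι → R) : ∑ a, ∑ b, (∑ i, ψ (a * α i + b * β i)) ^ 2 = (Fintype.card R : ℝ) ^ 2 *
      ∑ p : ι × ι, ind (α p.1 + α p.2 = 0 ∧ β p.1 + β p.2 = 0) := by
  have h1 : ∀ a b, (∑ i, ψ (a * α i + b * β i)) ^ 2 =
      ∑ p : ι × ι, ψ (a * (α p.1 + α p.2)) * ψ (b * (β p.1 + β p.2)) := by
    intro a b
    rw [sq, Finset.sum_mul_sum, Fintype.sum_prod_type]
    refine Finset.sum_congr rfl fun i _ => Finset.sum_congr rfl fun j _ => ?_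
    rw [← hψ.add, ← hψ.add]
    congr 1
    ring
  simp only [h1]
  rw [Finset.sum_congr rfl fun a _ => Finset.sum_comm, Finset.sum_comm, Finset.mul_sum]
  refine Finset.sum_congr rfl fun p _ => ?_
  rw [← Finset.sum_mul_sum, orth hψ ho, orth hψ ho, SVar.ind_and]
  ring

theorem Kl_sq (hψ : Sgn ψ) (a b : R) : Kl ψ a b ^ 2 =
    ∑ p : Rˣ × Rˣ, ψ (a * (↑p.1⁻¹ + ↑p.2⁻¹) + b * (↑p.1 + ↑p.2)) := by
  rw [Kl, sq, Finset.sum_mul_sum, Fintype.sum_prod_type]
  refine Finset.sum_congr rfl fun i _ => Finset.sum_congr rfl fun j _ => ?_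
  rw [← hψ.add]
  congr 1
  ring

variable (R) in
/-- The idempotents. -/
def idem : Finset R := univ.filter fun x => x * x = x

theorem card_triple (hreg : ∀ x : R, ∃ y, x * x * y = x) :
    (univ.filter fun p : R × R => p.1 * p.2 * (p.1 + p.2) = 0).card ≤
      (idem R).card ^ 2 * Fintype.card R := by
  choose s hs using hreg
  have h1 := Finset.card_le_card_of_injOn (s := univ.filter fun p : R × R =>
    p.1 * p.2 * (p.1 + p.2) = 0) (t := (idem R ×ˢ idem R) ×ˢ (univ : Finset R))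
    (fun p => ((p.1 * s p.1, p.2 * s p.2), p.1 + (1 - p.1 * s p.1) * p.2)) ?_ ?_
  · rwa [card_product, card_product, card_univ, ← sq] at h1
  · intro p _
    simp only [idem, coe_product, coe_filter, mem_univ, true_and, coe_univ, Set.mem_prod,
      Set.mem_ofPred_eq, Set.mem_univ, and_true]
    exact ⟨by linear_combination s p.1 * hs p.1, by linear_combination s p.2 * hs p.2⟩
  · have key : ∀ u v : R, u * v * (u + v) = 0 →
        u = (u * s u) * (u + (1 - u * s u) * v) ∧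
        v = (1 - u * s u - u * s u * (v * s v)) * (u + (1 - u * s u) * v) := by
      intro u v h
      refine ⟨by linear_combination (s u * v - 1) * hs u, ?_⟩
      linear_combination (1 - s u * v + v * s v - v * s v * s u * v) * hs u +
        s u * s v * h - u * s u * hs v - v * s v * hs u
    rintro ⟨u, v⟩ hp ⟨u', v'⟩ hp' e
    simp only [coe_filter, mem_univ, true_and, Set.mem_ofPred_eq] at hp hp'
    simp only [Prod.mk.injEq] at e ⊢
    obtain ⟨⟨e1, e2⟩, e3⟩ := e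
    obtain ⟨k1, k2⟩ := key u v hp
    obtain ⟨k3, k4⟩ := key u' v' hp'
    rw [e3, e2, e1] at k2
    rw [e3, e1] at k1
    exact ⟨k1.trans k3.symm, k2.trans k4.symm⟩

theorem card_le_units (hreg : ∀ x : R, ∃ y, x * x * y = x) :
    Fintype.card R ≤ (idem R).card * Fintype.card Rˣ := by
  choose s hs using hreg
  have hu : ∀ x : R, (x + (1 - x * s x)) * (x * s x * s x + (1 - x * s x)) = 1 := fun x => by
    linear_combination (2 * s x - 1 - s x * s x) * hs x
  have h1 := Finset.card_le_card_of_injOn (s := (univ : Finset R))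
    (t := idem R ×ˢ (univ : Finset Rˣ))
    (fun x => (x * s x, Units.mkOfMulEqOne _ _ (hu x))) ?_ ?_
  · rwa [card_product, card_univ, card_univ] at h1
  · intro x _
    simp only [idem, coe_product, coe_filter, mem_univ, true_and, coe_univ, Set.mem_prod,
      Set.mem_ofPred_eq, Set.mem_univ, and_true]
    linear_combination s x * hs x
  · intro x _ y _ e
    simp only [Prod.mk.injEq, Units.ext_iff, Units.val_mkOfMulEqOne] at e
    linear_combination e.1 + e.2

theorem fourth (h2 : (2 : R) = 0) (hreg : ∀ x : R, ∃ y, x * x * y = x) (hψ : Sgn ψ)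
    (ho : ∀ x, (∀ a, ψ (a * x) = 1) → x = 0) :
    ∑ a, ∑ b, Kl ψ a b ^ 4 ≤ ((idem R).card : ℝ) ^ 2 * (Fintype.card R : ℝ) ^ 4 := by
  have h1 : ∀ a b, Kl ψ a b ^ 4 = (Kl ψ a b ^ 2) ^ 2 := fun a b => by ring
  simp only [h1, Kl_sq hψ]
  rw [moment hψ ho (fun p : Rˣ × Rˣ => ((↑p.1⁻¹ : R) + ↑p.2⁻¹)) fun p => (↑p.1 : R) + ↑p.2]
  have h3 := sum_ind_le (α := (Rˣ × Rˣ) × (Rˣ × Rˣ))
    (P := fun p => ((↑p.1.1⁻¹ : R) + ↑p.1.2⁻¹) + (↑p.2.1⁻¹ + ↑p.2.2⁻¹) = 0 ∧
      ((↑p.1.1 : R) + ↑p.1.2) + (↑p.2.1 + ↑p.2.2) = 0)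
    ((univ : Finset R) ×ˢ univ.filter fun p : R × R => p.1 * p.2 * (p.1 + p.2) = 0)
    (fun p => ((↑p.1.1 : R), ((↑p.1.1 : R) + ↑p.1.2, (↑p.1.1 : R) + ↑p.2.1))) ?_ ?_
  · rw [card_product, card_univ, Nat.cast_mul] at h3
    have h4 : ((univ.filter fun p : R × R => p.1 * p.2 * (p.1 + p.2) = 0).card : ℝ) ≤
        ((idem R).card : ℝ) ^ 2 * Fintype.card R := by exact_mod_cast card_triple hreg
    calc _ ≤ (Fintype.card R : ℝ) ^ 2 * (Fintype.card R *
          (((idem R).card : ℝ) ^ 2 * Fintype.card R)) :=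
          mul_le_mul_of_nonneg_left (h3.trans (mul_le_mul_of_nonneg_left h4 (by positivity)))
            (by positivity)
      _ = _ := by ring
  · rintro ⟨⟨a, b⟩, c, d⟩ ⟨⟨a', b'⟩, c', d'⟩ ⟨-, hp⟩ ⟨-, hp'⟩ e
    simp only [Prod.mk.injEq, Units.ext_iff] at e hp hp' ⊢
    obtain ⟨e1, e2, e3⟩ := e
    exact ⟨⟨e1, by linear_combination e2 - e1⟩, by linear_combination e3 - e1,
      by linear_combination hp - hp' - e2 - e3 + e1⟩
  · rintro ⟨⟨a, b⟩, c, d⟩ ⟨hp, hq⟩
    simp only [mem_product, mem_univ, mem_filter, true_and]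
    dsimp only at hp hq
    have ha := a.mul_inv
    have hb := b.mul_inv
    have hc := c.mul_inv
    have hd := d.mul_inv
    generalize (↑a⁻¹ : R) = a' at *
    generalize (↑b⁻¹ : R) = b' at *
    generalize (↑c⁻¹ : R) = c' at *
    generalize (↑d⁻¹ : R) = d' at *
    generalize (a : R) = x at *
    generalize (b : R) = y at *
    generalize (c : R) = z at *
    generalize (d : R) = w at *
    linear_combination (x * (x + y) * (x + z)) * h2 - (x * y * z * w) * hp + y * z * w * ha +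
      x * z * w * hb + x * y * w * hc + x * y * z * hd + (x * y + y * z + z * x) * hq

theorem Kl_orbit (a b : R) (c : Rˣ) : Kl ψ (a * ↑c) (b * ↑c⁻¹) = Kl ψ a b := by
  refine Fintype.sum_equiv (Equiv.mulLeft c⁻¹) _ _ fun y => ?_
  simp only [Equiv.coe_mulLeft, mul_inv_rev, inv_inv, Units.val_mul]
  congr 1
  ring

theorem fibre (A a : R) : ∑ c : Rˣ, ind (A * ↑c = a) ≤ (univ.filter fun y => A * y = 0).card := by
  by_cases h : ∃ c₀ : Rˣ, A * ↑c₀ = a
  · obtain ⟨c₀, h₀⟩ := h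
    refine sum_ind_le _ (fun c : Rˣ => (↑c : R) - ↑c₀)
      (fun x y _ _ e => Units.ext (sub_left_injective e)) fun c hc => ?_
    simp only [mem_filter, mem_univ, true_and]
    linear_combination hc - h₀
  · rw [Finset.sum_eq_zero fun c _ => ind_neg fun e => h ⟨c, e⟩]
    positivity

theorem abs_bound (h2 : (2 : R) = 0) (hreg : ∀ x : R, ∃ y, x * x * y = x) (hψ : Sgn ψ)
    (ho : ∀ x, (∀ a, ψ (a * x) = 1) → x = 0) (A b : R) {N τ : ℝ}
    (hN : ((univ.filter fun y => A * y = 0).card : ℝ) ≤ N) (hτ : ((idem R).card : ℝ) ≤ τ) :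
    Kl ψ A b ^ 4 ≤ N * τ ^ 3 * (Fintype.card R : ℝ) ^ 3 := by
  have hq : (0 : ℝ) < Fintype.card R := by positivity
  have hN0 : 0 ≤ N := le_trans (by positivity) hN
  have hτ0 : 0 ≤ τ := le_trans (by positivity) hτ
  have h1 : (Fintype.card Rˣ : ℝ) * Kl ψ A b ^ 4 ≤ N * ∑ a, ∑ b, Kl ψ a b ^ 4 := by
    calc (Fintype.card Rˣ : ℝ) * Kl ψ A b ^ 4 = ∑ c : Rˣ, Kl ψ (A * ↑c) (b * ↑c⁻¹) ^ 4 := by
          simp only [Kl_orbit, Finset.sum_const, card_univ, nsmul_eq_mul]
      _ ≤ ∑ c : Rˣ, ∑ a, ind (A * ↑c = a) * ∑ b, Kl ψ a b ^ 4 := by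
          refine Finset.sum_le_sum fun c _ => ?_
          rw [SVar.sum_ind_eq (mem_univ _) fun a => ∑ b, Kl ψ a b ^ 4]
          exact Finset.single_le_sum (f := fun b => Kl ψ (A * ↑c) b ^ 4)
            (fun _ _ => by positivity) (mem_univ _)
      _ ≤ _ := by
          rw [Finset.sum_comm, Finset.mul_sum]
          refine Finset.sum_le_sum fun a _ => ?_
          rw [← Finset.sum_mul]
          exact mul_le_mul_of_nonneg_right ((fibre A a).trans hN) (by positivity)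
  have h3 : (Fintype.card R : ℝ) ≤ τ * Fintype.card Rˣ :=
    le_trans (by exact_mod_cast card_le_units hreg) (mul_le_mul_of_nonneg_right hτ (by positivity))
  have h4 := (fourth h2 hreg hψ ho).trans (mul_le_mul_of_nonneg_right
    (pow_le_pow_left₀ (by positivity) hτ 2) (by positivity))
  refine le_of_mul_le_mul_left ?_ hq
  calc (Fintype.card R : ℝ) * Kl ψ A b ^ 4 ≤ τ * Fintype.card Rˣ * Kl ψ A b ^ 4 :=
        mul_le_mul_of_nonneg_right h3 (by positivity)
    _ ≤ τ * (N * (τ ^ 2 * (Fintype.card R : ℝ) ^ 4)) := by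
        rw [mul_assoc]
        exact mul_le_mul_of_nonneg_left (h1.trans (mul_le_mul_of_nonneg_left h4 hN0)) hτ0
    _ = _ := by ring

end Abs

section Conc

open AdjoinRoot

variable {M : F[X]}

theorem deg_mod (hM : M.Monic) (x : F[X]) : (x %ₘ M).degree < M.natDegree :=
  (degree_modByMonic_lt x hM).trans_eq (degree_eq_natDegree hM.ne_zero)

theorem eq_of_mk (hM : M.Monic) {x y : F[X]} (hx : x.degree < M.natDegree)
    (hy : y.degree < M.natDegree) (h : M ∣ x - y) : x = y := by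
  rw [← degree_eq_natDegree hM.ne_zero] at hx hy
  rw [← (modByMonic_eq_self_iff hM).2 hx, ← (modByMonic_eq_self_iff hM).2 hy,
    modByMonic_eq_of_dvd_sub hM h]

/-- The residue classes are the polynomials of small degree. -/
noncomputable def eqv (hM : M.Monic) : degreeLT F M.natDegree ≃ AdjoinRoot M :=
  Equiv.ofBijective (fun y => mk M y.1) ⟨fun x y h => Subtype.ext
    (eq_of_mk hM (mem_degreeLT.1 x.2) (mem_degreeLT.1 y.2) (mk_eq_mk.1 h)), fun x => by
      obtain ⟨f, rfl⟩ := mk_surjective x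
      exact ⟨⟨f %ₘ M, mem_degreeLT.2 (deg_mod hM f)⟩, mk_eq_mk.2
        ⟨-(f /ₘ M), by linear_combination modByMonic_add_div f M⟩⟩⟩

theorem card_eq (hM : M.Monic) [Fintype (AdjoinRoot M)] :
    (Fintype.card (AdjoinRoot M) : ℝ) = qq F M.natDegree := by
  rw [← Fintype.card_congr (eqv hM), card_degreeLT, qq, Nat.cast_pow]

/-- The additive character of the residue ring. -/
noncomputable def psi (e : F → ℝ) (hM : M.Monic) (x : AdjoinRoot M) : ℝ :=
  e ((modByMonicHom hM x).coeff (M.natDegree - 1))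

theorem psi_mk (e : F → ℝ) (hM : M.Monic) (f : F[X]) : psi e hM (mk M f) = e (SFour.res f M) := rfl

theorem psi_sgn {e : F → ℝ} (he : Chr e) (hM : M.Monic) : Sgn (psi e hM) :=
  he.toSgn.comp (fun x => (modByMonicHom hM x).coeff (M.natDegree - 1)) fun a b => by
    rw [map_add, coeff_add]

theorem psi_prim {e : F → ℝ} (he : Chr e) (hM : M.Monic) (x : AdjoinRoot M)
    (h : ∀ a, psi e hM (a * x) = 1) : x = 0 := by
  obtain ⟨f, rfl⟩ := mk_surjective x
  have h1 := SFour.expect_res he f hM (h := 0) (zero_add _).symm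
  have h2 : ∀ a : degreeLT F M.natDegree, e (SFour.res (a.1 * f) M) = 1 := fun a => by
    rw [← psi_mk e hM, map_mul, h]
  simp only [h2, Fintype.expect_const] at h1
  by_contra h0
  rw [ind_neg] at h1
  · exact one_ne_zero h1
  · intro h3
    rw [Nat.cast_zero, Nat.WithBot.lt_zero_iff, degree_eq_bot, modByMonic_eq_zero_iff_dvd hM] at h3
    exact h0 (mk_eq_zero.2 h3)

theorem regular (hM : M.Monic) (hs : Squarefree M) (x : AdjoinRoot M) : ∃ y, x * x * y = x := by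
  classical
  obtain ⟨f, rfl⟩ := mk_surjective x
  obtain ⟨E, hE⟩ := EuclideanDomain.gcd_dvd_right f M
  obtain ⟨f', hf⟩ := EuclideanDomain.gcd_dvd_left f M
  have hc : IsCoprime f E := by
    refine isCoprime_of_irreducible_dvd (fun h => hM.ne_zero (by rw [hE, h.2, mul_zero]))
      fun z hz h1 h2 => hz.not_isUnit (hs z ?_)
    rw [hE]
    exact mul_dvd_mul (EuclideanDomain.dvd_gcd h1 (h2.trans ⟨_, hE.trans (mul_comm _ _)⟩)) h2
  obtain ⟨s, t, hst⟩ := hc
  refine ⟨mk M s, ?_⟩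
  rw [← map_mul, ← map_mul, mk_eq_mk]
  refine ⟨-(f' * t), ?_⟩
  generalize EuclideanDomain.gcd f M = D at hE hf
  linear_combination f * hst - t * E * hf + f' * t * hE

theorem card_idem (hM : M.Monic) [Fintype (AdjoinRoot M)] [DecidableEq (AdjoinRoot M)] :
    (idem (AdjoinRoot M)).card ≤ (divs M).card := by
  classical
  have hD : ∀ x : AdjoinRoot M, ∃ D : F[X], D ∈ divs M ∧ (∃ s, x = s * mk M D) ∧
      ∃ s, mk M D = s * x := by
    intro x
    obtain ⟨f, rfl⟩ := mk_surjective x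
    have h0 : gcd f M ≠ 0 := fun h => hM.ne_zero ((gcd_eq_zero_iff _ _).1 h).2
    refine ⟨gcd f M, (mem_divs hM.ne_zero).2 ⟨?_, gcd_dvd_right _ _⟩, ?_, ?_⟩
    · rw [← _root_.normalize_gcd]
      exact monic_normalize h0
    · obtain ⟨s, hs⟩ := gcd_dvd_left f M
      exact ⟨mk M s, by rw [← map_mul, mul_comm, ← hs]⟩
    · obtain ⟨a, b, hab⟩ := exists_gcd_eq_mul_add_mul f M
      exact ⟨mk M a, by rw [hab, map_add, map_mul, map_mul, mk_self, zero_mul, add_zero, mul_comm]⟩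
  choose D h1 h2 h3 using hD
  refine Finset.card_le_card_of_injOn D (fun x _ => h1 x) fun x hx y hy e => ?_
  simp only [idem, coe_filter, mem_univ, true_and, Set.mem_ofPred_eq] at hx hy
  obtain ⟨a, ha⟩ := h2 x
  obtain ⟨b, hb⟩ := h2 y
  obtain ⟨a', ha'⟩ := h3 x
  obtain ⟨b', hb'⟩ := h3 y
  have e1 : x = a * b' * y := by rw [mul_assoc, ← hb', ← e, ← ha]
  have e2 : y = b * a' * x := by rw [mul_assoc, ← ha', e, ← hb]
  linear_combination (1 - y) * e1 - (1 - x) * e2 - a * b' * hy + b * a' * hx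

theorem card_ann (hM : M.Monic) [Fintype (AdjoinRoot M)] [DecidableEq (AdjoinRoot M)]
    {A Z : F[X]} (hZ : Z ≠ 0) (hA : ∀ y, M ∣ A * y → M ∣ Z * y) :
    ((univ.filter fun y => mk M A * y = 0).card : ℝ) ≤ qq F Z.natDegree := by
  have hD : ∀ y : AdjoinRoot M, mk M A * y = 0 →
      Z * modByMonicHom hM y = M * ((Z * modByMonicHom hM y) /ₘ M) := by
    intro y hy
    have h1 : M ∣ Z * modByMonicHom hM y := by
      refine hA _ (mk_eq_zero.1 ?_)
      rw [map_mul, mk_leftInverse hM y, hy]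
    have h2 := modByMonic_add_div (Z * modByMonicHom hM y) M
    rw [(modByMonic_eq_zero_iff_dvd hM).2 h1, zero_add] at h2
    exact h2.symm
  have h1 := Finset.card_le_card_of_injOn (s := univ.filter fun y => mk M A * y = 0)
    (t := ltF F Z.natDegree) (fun y => (Z * modByMonicHom hM y) /ₘ M) ?_ ?_
  · rw [card_ltF] at h1
    rw [qq]
    exact_mod_cast h1
  · intro y hy
    simp only [coe_filter, mem_univ, true_and, Set.mem_ofPred_eq] at hy
    have h2 := hD y hy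
    have h3 : (modByMonicHom hM y).degree < M.natDegree := by
      obtain ⟨f, rfl⟩ := mk_surjective y
      exact deg_mod hM f
    rw [mem_coe, mem_ltF]
    dsimp only
    generalize (Z * modByMonicHom hM y) /ₘ M = w at h2
    generalize modByMonicHom hM y = r at h2 h3
    by_cases hw : w = 0
    · rw [hw, degree_zero]
      exact WithBot.bot_lt_coe _
    have hr : r ≠ 0 := fun h => mul_ne_zero hM.ne_zero hw (by rw [← h2, h, mul_zero])
    have h4 := congrArg natDegree h2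
    rw [natDegree_mul hZ hr, natDegree_mul hM.ne_zero hw] at h4
    rw [← natDegree_lt_iff_degree_lt hr] at h3
    rw [← natDegree_lt_iff_degree_lt hw]
    omega
  · intro x hx y hy e
    simp only [coe_filter, mem_univ, true_and, Set.mem_ofPred_eq] at hx hy
    dsimp only at e
    have h2 := hD x hx
    rw [e, ← hD y hy] at h2
    rw [← mk_leftInverse hM x, ← mk_leftInverse hM y, mul_left_cancel₀ hZ h2]

theorem term_eq (e : F → ℝ) (hM : M.Monic) [Fintype (AdjoinRoot M)] [DecidableEq (AdjoinRoot M)]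
    (A f : F[X]) : ind (IsCoprime f M) * e (SFour.res (A * iv M f) M) =
      ∑ y : (AdjoinRoot M)ˣ, ind (mk M f = ↑y) * psi e hM (mk M A * ↑y⁻¹) := by
  by_cases h : IsCoprime f M
  · have h1 : mk M f * mk M (iv M f) = 1 := by
      rw [← map_mul, ← map_one (mk M), mk_eq_mk, mul_comm]
      exact iv_mul h
    rw [ind_pos h, one_mul, ← psi_mk e hM, map_mul,
      Finset.sum_eq_single (Units.mkOfMulEqOne _ _ h1)]
    · rw [ind_pos (Units.val_mkOfMulEqOne h1).symm, one_mul]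
      rfl
    · intro y _ hy
      rw [ind_neg fun e => hy (Units.ext e.symm), zero_mul]
    · simp
  · rw [ind_neg h, zero_mul]
    refine (Finset.sum_eq_zero fun y _ => ?_).symm
    rw [ind_neg, zero_mul]
    intro e1
    obtain ⟨g, hg⟩ := mk_surjective (↑y⁻¹ : AdjoinRoot M)
    have h1 : mk M (g * f) = mk M 1 := by rw [map_mul, hg, e1, map_one, Units.inv_mul]
    obtain ⟨w, hw⟩ := mk_eq_mk.1 h1
    exact h ⟨g, -w, by linear_combination hw⟩

theorem complete {e : F → ℝ} (he : Chr e) (hM : M.Monic) {c c' : F[X]} (hc : M ∣ c' * c - 1)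
    (d₀ : F[X]) {l k : ℕ} (hl : M.natDegree = l + k) (y : AdjoinRoot M) :
    ∑ t ∈ ltF F l, ind (mk M (d₀ + c * t) = y) =
      𝔼 b : degreeLT F k, psi e hM (mk M b.1 * mk M c' * (y - mk M d₀)) := by
  obtain ⟨f, rfl⟩ := mk_surjective y
  have h1 := SFour.expect_res he (c' * (f - d₀)) hM hl
  simp only [← psi_mk e hM, map_mul, map_sub, ← mul_assoc] at h1
  rw [h1]
  obtain ⟨w, hw⟩ := hc
  have h2 : ∀ t ∈ ltF F l, ind (mk M (d₀ + c * t) = mk M f) =
      ind ((c' * (f - d₀)) %ₘ M = t) := by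
    intro t ht
    have ht' : t.degree < M.natDegree := (mem_ltF.1 ht).trans_le (by exact_mod_cast (by omega))
    have h3 := modByMonic_add_div (c' * (f - d₀)) M
    refine SVar.ind_congr ⟨fun h => eq_of_mk hM (deg_mod hM _) ht' ?_, fun h => mk_eq_mk.2 ?_⟩
    · obtain ⟨v, hv⟩ := mk_eq_mk.1 h
      exact ⟨w * t - c' * v - (c' * (f - d₀)) /ₘ M, by linear_combination h3 + t * hw - c' * hv⟩
    · rw [h] at h3
      exact ⟨w * (f - d₀) - c * ((c' * (f - d₀)) /ₘ M), by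
        linear_combination c * h3 + (f - d₀) * hw⟩
  rw [Finset.sum_congr rfl h2]
  by_cases h4 : ((c' * (f - d₀)) %ₘ M).degree < l
  · have h5 := SVar.sum_ind_eq (mem_ltF.2 h4) fun _ => (1 : ℝ)
    simp only [mul_one] at h5
    rw [h5, ind_pos h4]
  · rw [ind_neg h4]
    exact Finset.sum_eq_zero fun t ht => ind_neg fun e => h4 (e ▸ mem_ltF.1 ht)

end Conc

end TKl

theorem recip {a b a' b' : F[X]} (ha : a.Monic) (hb : b.Monic) (hab : IsCoprime a b)
    (h1 : b ∣ a' * a - 1) (h2 : a ∣ b' * b - 1) (c : F[X]) :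
    SFour.res (c * a') b + SFour.res (c * b') a = SFour.res c (a * b) := by
  rw [← SFour.res_mul (c * a') hb ha, ← SFour.res_mul (c * b') ha hb, mul_comm b a,
    ← SFour.res_add]
  refine SFour.res_congr (ha.mul hb) ?_
  have h3 : a * b ∣ a' * a + b' * b - 1 := by
    refine hab.mul_dvd ?_ ?_
    · rw [add_sub_assoc]
      exact (dvd_mul_left _ _).add h2
    · rw [add_comm, add_sub_assoc]
      exact (dvd_mul_left _ _).add h1
  obtain ⟨w, hw⟩ := h3
  exact ⟨c * w, by linear_combination c * hw⟩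

open TKl AdjoinRoot in
theorem kloost [CharP F 2] {e : F → ℝ} (he : Chr e) {M A Z c : F[X]} (hM : M.Monic)
    (hs : Squarefree M) (hc : IsCoprime c M) (hZ : Z ≠ 0) (hA : ∀ y, M ∣ A * y → M ∣ Z * y)
    (d₀ : F[X]) {l : ℕ} (hl : l ≤ M.natDegree) {τ : ℝ} (hτ : ((divs M).card : ℝ) ≤ τ) :
    (∑ t ∈ ltF F l, ind (IsCoprime (d₀ + c * t) M) *
      e (SFour.res (A * iv M (d₀ + c * t)) M)) ^ 4 ≤
      qq F Z.natDegree * τ ^ 3 * qq F (3 * M.natDegree) := by
  classical
  let : Fintype (AdjoinRoot M) := Fintype.ofEquiv _ (eqv hM)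
  obtain ⟨k, hk⟩ := Nat.exists_eq_add_of_le hl
  have hψ := psi_sgn he hM
  have h2 : (2 : AdjoinRoot M) = 0 := by
    have h3 : (2 : F[X]) = 0 := by exact_mod_cast CharP.cast_eq_zero F[X] 2
    rw [← map_ofNat (mk M) 2, h3, map_zero]
  have h1 : ∑ t ∈ ltF F l, ind (IsCoprime (d₀ + c * t) M) *
      e (SFour.res (A * iv M (d₀ + c * t)) M) = 𝔼 b : degreeLT F k,
        psi e hM (-(mk M b.1 * mk M (iv M c) * mk M d₀)) *
          Kl (psi e hM) (mk M A) (mk M b.1 * mk M (iv M c)) := by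
    simp only [term_eq e hM]
    rw [Finset.sum_comm]
    simp only [← Finset.sum_mul, complete he hM (iv_mul hc) d₀ hk, Finset.expect_mul, Kl,
      Finset.mul_sum]
    rw [Finset.expect_sum_comm]
    refine Finset.sum_congr rfl fun y _ => Finset.expect_congr rfl fun b _ => ?_
    rw [← hψ.add, ← hψ.add]
    congr 1
    ring
  obtain ⟨b, -, hb⟩ := Finset.exists_le_of_le_expect univ_nonempty (Finset.abs_expect_le univ
    fun b : degreeLT F k => psi e hM (-(mk M b.1 * mk M (iv M c) * mk M d₀)) *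
      Kl (psi e hM) (mk M A) (mk M b.1 * mk M (iv M c)))
  rw [← h1, abs_mul, hψ.abs_eq, one_mul] at hb
  have h4 := abs_bound h2 (regular hM hs) hψ (psi_prim he hM) (mk M A)
    (mk M b.1 * mk M (iv M c)) (card_ann hM hZ hA)
    (le_trans (by exact_mod_cast card_idem hM) hτ)
  rw [card_eq hM, qq_pow, mul_comm M.natDegree] at h4
  refine le_trans ?_ h4
  rw [← Even.pow_abs (by decide), ← Even.pow_abs (by decide) (Kl _ _ _)]
  exact pow_le_pow_left₀ (abs_nonneg _) hb 4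

end Pool.Agent.MP_43e117_nt

end

section

/- Twin primes of `F[X]`: a non degenerate pair of Fourier modes. -/

set_option autoImplicit false
set_option linter.unusedSectionVars false

namespace Pool.Agent.MP_43e117_nt

open Polynomial Finset Pool.Agent.MP_4fffd4_nt Pool.Agent.MP_c853c5_nt
open scoped BigOperators

variable {F : Type*} [Field F] [Fintype F]

namespace TPair

omit [Fintype F] in
theorem split {a G : F[X]} (ha : a.Monic) (hs : Squarefree a) :
    ∃ M₁ D : F[X], M₁.Monic ∧ D.Monic ∧ a = M₁ * D ∧ D ∣ G ∧ IsCoprime M₁ G := by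
  classical
  obtain ⟨M₁, h1⟩ := gcd_dvd_left a G
  have hD : (gcd a G).Monic := by
    rw [← normalize_gcd a G]
    exact monic_normalize (gcd_ne_zero_of_left ha.ne_zero)
  have hM : M₁.Monic := hD.of_mul_monic_left (h1 ▸ ha)
  refine ⟨M₁, gcd a G, hM, hD, h1.trans (mul_comm _ _), gcd_dvd_right a G, ?_⟩
  refine isCoprime_of_irreducible_dvd (fun h => hM.ne_zero h.1) fun z hz h2 h3 => hz.not_isUnit ?_
  refine hs z ?_
  rw [h1]
  exact mul_dvd_mul (dvd_gcd (h1 ▸ h2.mul_left _) h3) h2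

theorem xi_eq (e : F → ℝ) (a : F[X]) {I : ℕ} {l₁ l₂ g M x d : F[X]} (hg : g ≠ 0)
    (hd : d ∈ monF F I) (h : g * d = l₁ * M + l₂ * x) :
    xi e a I l₁ l₂ g M x =
      ind (IsCoprime (l₁ * M) d) * e (SFour.res (a * iv d (l₁ * M)) d) := by
  unfold xi
  rw [Finset.sum_eq_single_of_mem d hd fun d' _ hne => by
    rw [ind_neg fun h' => hne (mul_left_cancel₀ hg (h'.trans h.symm)), zero_mul], ind_pos h, one_mul]

theorem add_mem {I : ℕ} {d z : F[X]} (hd : d ∈ monF F I) (hz : z.degree < I) :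
    d + z ∈ monF F I := by
  obtain ⟨h1, h2⟩ := mem_monF.1 hd
  have h3 : z.degree < d.degree := by rwa [degree_eq_natDegree h1.ne_zero, h2]
  exact mem_monF.2 ⟨h1.add_of_left h3, by rw [natDegree_add_eq_left_of_degree_lt h3, h2]⟩

theorem xi_zero (e : F → ℝ) (a : F[X]) {I : ℕ} {l₁ l₂ g M x u : F[X]}
    (h : ¬ ∃ d ∈ monF F I, g * d = l₁ * M + l₂ * x) (hu : (l₂ * u).degree < I) :
    xi e a I l₁ l₂ g M (x + g * u) = 0 := by
  unfold xi
  refine Finset.sum_eq_zero fun d hd => ?_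
  rw [ind_neg fun h' => h ⟨d + -(l₂ * u), add_mem hd (by rwa [degree_neg]), by
    linear_combination h'⟩, zero_mul]

theorem mode [CharP F 2] {e : F → ℝ} (he : Chr e) {a l₁ l₂ g M M₁ N x d : F[X]} {I : ℕ}
    (h1 : M₁.Monic) (hN : N.Monic) (hM : l₁ * M = M₁ * N) (hg : g ≠ 0) (c1 : IsCoprime M₁ N)
    (c2 : IsCoprime M₁ g) (c3 : IsCoprime M₁ l₂)
    (ha : a.degree < (M₁.natDegree + N.natDegree + I - 1 : ℕ)) (hd : d ∈ monF F I)
    (h : g * d = l₁ * M + l₂ * x) : ∃ K : ℝ, |K| ≤ 1 ∧ ∀ u, N ∣ u → (l₂ * u).degree < I →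
      xi e a I l₁ l₂ g M (x + g * u) = K * (ind (IsCoprime (x + g * u) M₁) *
        e (SFour.res (a * g * iv M₁ (N * l₂) * iv M₁ (x + g * u)) M₁)) := by
  refine ⟨ind (IsCoprime N d) * e (SFour.res (a * iv N d * iv N M₁) N), ?_, fun u hu hu' => ?_⟩
  · rw [abs_mul, he.toSgn.abs_eq, mul_one, abs_of_nonneg (ind_nonneg _)]
    exact ind_le_one _
  have hd' := add_mem hd hu'
  have e1 : g * (d + l₂ * u) = l₁ * M + l₂ * (x + g * u) := by linear_combination h
  rw [xi_eq e a hg hd' e1, hM]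
  rw [hM] at e1
  obtain ⟨w, rfl⟩ := hu
  have k1 : IsCoprime N (d + l₂ * (N * w)) ↔ IsCoprime N d := by
    rw [show l₂ * (N * w) = N * (l₂ * w) by ring, IsCoprime.add_mul_left_right_iff]
  generalize x + g * (N * w) = y at e1 ⊢
  have k2 : IsCoprime M₁ (d + l₂ * (N * w)) ↔ IsCoprime y M₁ := by
    constructor
    · intro k
      have := c2.mul_right k
      rw [e1, add_comm, IsCoprime.add_mul_left_right_iff] at this
      exact this.of_mul_right_right.symm
    · intro k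
      have := c3.mul_right k.symm
      rw [← IsCoprime.add_mul_left_right_iff (z := N), add_comm, ← e1] at this
      exact this.of_mul_right_right
  by_cases p1 : IsCoprime N d
  swap
  · rw [ind_neg p1, ind_neg fun k => p1 (k1.1 k.of_mul_left_right)]
    simp
  by_cases p2 : IsCoprime y M₁
  swap
  · rw [ind_neg p2, ind_neg fun k => p2 (k2.1 k.of_mul_left_left)]
    simp
  have p3 : IsCoprime (M₁ * N) (d + l₂ * (N * w)) := (k2.2 p2).mul_left (k1.2 p1)
  rw [ind_pos p1, ind_pos p2, ind_pos p3, one_mul, one_mul, one_mul, ← he.add]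
  congr 1
  obtain ⟨m1, m2⟩ := mem_monF.1 hd'
  have r1 := recip (h1.mul hN) m1 p3 (iv_mul p3) (iv_mul p3.symm) a
  rw [SFour.res_eq_zero ((h1.mul hN).mul m1) (by
    rwa [(h1.mul hN).natDegree_mul m1, h1.natDegree_mul hN, m2]), CharTwo.add_eq_zero] at r1
  have r2 := recip h1 hN c1 (iv_mul c1) (iv_mul c1.symm) (a * iv (M₁ * N) (d + l₂ * (N * w)))
  rw [r1, ← r2]
  obtain ⟨k1, q1⟩ := iv_mul p3.symm
  obtain ⟨k2, q2⟩ := iv_mul c1.symm
  obtain ⟨k3, q3⟩ := iv_mul (c1.mul_right c3).symm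
  obtain ⟨k4, q4⟩ := iv_mul p2
  obtain ⟨k5, q5⟩ := iv_mul p1.symm
  generalize iv (M₁ * N) (d + l₂ * (N * w)) = b at *
  generalize iv M₁ N = b₂ at *
  generalize iv M₁ (N * l₂) = B at *
  generalize iv M₁ y = v at *
  generalize iv N d = s at *
  congr 1
  · refine SFour.res_congr hN ⟨a * iv N M₁ * (-b * k5 + s * M₁ * k1 - s * b * l₂ * w), ?_⟩
    linear_combination a * iv N M₁ * (-b * q5 + s * q1)
  · refine SFour.res_congr h1 ⟨a * (-b * b₂ * k3 + b * B * l₂ * k2 - b * B * l₂ * k4 - b * B * v * N +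
      B * v * g * N * k1), ?_⟩
    linear_combination a * (-b * b₂ * q3 + b * B * l₂ * q2 - b * B * l₂ * q4 - b * B * v * e1 +
      B * v * g * q1)

omit [Fintype F] in
theorem deg_mul_lt {c t : F[X]} {m n I : ℕ} (hc : c.natDegree ≤ m) (ht : t.degree < n)
    (h : m + n ≤ I) : (c * t).degree < I := by
  by_cases h0 : c * t = 0
  · rw [h0, degree_zero]; exact WithBot.bot_lt_coe _
  have h2 := (natDegree_lt_iff_degree_lt (right_ne_zero_of_mul h0)).2 ht
  have := natDegree_mul_le (p := c) (q := t)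
  rw [← natDegree_lt_iff_degree_lt h0]
  omega

omit [Fintype F] in
theorem nd_mul {a b : F[X]} {m n : ℕ} (ha : a.natDegree ≤ m) (hb : b.natDegree ≤ n) :
    (a * b).natDegree ≤ m + n := natDegree_mul_le.trans (add_le_add ha hb)

omit [Fintype F] in
theorem nd_add {a b : F[X]} {m : ℕ} (ha : a.natDegree ≤ m) (hb : b.natDegree ≤ m) :
    (a + b).natDegree ≤ m := (natDegree_add_le a b).trans (max_le ha hb)

theorem shift_bound {φ : F[X] → ℝ} {c : F[X]} {n k m : ℕ} (hc : c.natDegree ≤ m) (hn : m + k = n)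
    {B : ℝ} (hB : ∀ x, (∑ t ∈ ltF F k, φ (x + c * t)) ^ 4 ≤ B) :
    (∑ x ∈ monF F n, φ x) ^ 4 ≤ qq F (4 * m) * B := by
  have e1 : qq F k * ∑ x ∈ monF F n, φ x = ∑ x ∈ monF F n, ∑ t ∈ ltF F k, φ (x + c * t) := by
    rw [Finset.sum_comm, ← sum_one_ltF, Finset.sum_mul]
    refine Finset.sum_congr rfl fun t ht => ?_
    rw [one_mul, sum_monF_shift (deg_mul_lt hc (mem_ltF.1 ht) hn.le)]
  obtain ⟨x₀, -, h0⟩ := Finset.exists_max_image (monF F n)
    (fun x => |∑ t ∈ ltF F k, φ (x + c * t)|) ⟨X ^ n, mem_monF.2 ⟨monic_X_pow n, natDegree_X_pow n⟩⟩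
  have e2 : qq F k * |∑ x ∈ monF F n, φ x| ≤ qq F k * (qq F m * |∑ t ∈ ltF F k, φ (x₀ + c * t)|) := by
    rw [← abs_of_pos (qq_pos (F := F) k), ← abs_mul, e1, abs_of_pos (qq_pos k), ← mul_assoc,
      ← qq_add, add_comm k, hn, ← sum_one_monF, Finset.sum_mul]
    refine (Finset.abs_sum_le_sum_abs _ _).trans (Finset.sum_le_sum fun x hx => ?_)
    rw [one_mul]
    exact h0 x hx
  have e3 := pow_le_pow_left₀ (abs_nonneg _) (le_of_mul_le_mul_left e2 (qq_pos k)) 4
  rw [mul_pow, (by decide : Even 4).pow_abs, (by decide : Even 4).pow_abs, qq_pow, mul_comm m] at e3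
  exact e3.trans (mul_le_mul_of_nonneg_left (hB x₀) (qq_pos _).le)

end TPair

open TPair in
theorem pair [CharP F 2] {e : F → ℝ} (he : Chr e) {h M : F[X]} {I I' l t T : ℕ} {τ : ℝ}
    (hh : h ≠ 0) (hhl : h.natDegree ≤ l) (hM : M ∈ monF F I') (hMT : ¬ Sq T M) (hI : I' ≤ I)
    (ht : t ≤ l) (hl : 11 * l + 3 * T ≤ I') (hτ : DivB F τ I')
    {ω ω' : F[X] × F[X] × F[X] × F[X] × F[X]} (hω : ω ∈ modes F l t) (hω' : ω' ∈ modes F l t)
    (hZ : (ω.2.2.2.1 * ω.1 + ω.2.2.2.2 * ω.2.1) * ω.2.2.1 * (ω'.1 * ω'.2.1) +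
      (ω'.2.2.2.1 * ω'.1 + ω'.2.2.2.2 * ω'.2.1) * ω'.2.2.1 * (ω.1 * ω.2.1) ≠ 0) :
    (∑ x ∈ monF F I', xw e h I ω M x * xw e h I ω' M x) ^ 4 ≤
      τ ^ 3 * qq F (3 * I' + 50 * l + 12 * T) := by
  obtain ⟨l₁, l₂, g, j₁, j₂⟩ := ω
  obtain ⟨l₁', l₂', g', j₁', j₂'⟩ := ω'
  obtain ⟨a1, a2, a3, a4, a5, -, a6, -, -⟩ := mem_modes.1 hω
  obtain ⟨b1, b2, b3, b4, b5, -, b6, -, -⟩ := mem_modes.1 hω'
  simp only [xw] at *
  obtain ⟨m1, n1, i1⟩ := mem_irrF.1 a1
  obtain ⟨m2, n2, -⟩ := mem_irrF.1 a2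
  obtain ⟨m1', n1', -⟩ := mem_irrF.1 b1
  obtain ⟨m2', n2', -⟩ := mem_irrF.1 b2
  have l0 : 0 < l := n1 ▸ i1.natDegree_pos
  have dg : g.natDegree ≤ l := natDegree_le_iff_degree_le.2 a3.le
  have dg' : g'.natDegree ≤ l := natDegree_le_iff_degree_le.2 b3.le
  have dJ : (j₁ * l₁ + j₂ * l₂).natDegree ≤ l + l :=
    nd_add (nd_mul ((natDegree_le_iff_degree_le.2 a4.le).trans ht) n1.le)
      (nd_mul ((natDegree_le_iff_degree_le.2 a5.le).trans ht) n2.le)
  have dJ' : (j₁' * l₁' + j₂' * l₂').natDegree ≤ l + l :=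
    nd_add (nd_mul ((natDegree_le_iff_degree_le.2 b4.le).trans ht) n1'.le)
      (nd_mul ((natDegree_le_iff_degree_le.2 b5.le).trans ht) n2'.le)
  generalize j₁ * l₁ + j₂ * l₂ = J at *
  generalize j₁' * l₁' + j₂' * l₂' = J' at *
  obtain ⟨hM1, hM2⟩ := mem_monF.1 hM
  obtain ⟨a, γ, ha, hγ, hs, hMa⟩ := exists_sqfree hM1
  have dγ : γ.natDegree ≤ T := by
    by_contra k
    exact hMT ⟨γ, hγ, by omega, hMa ▸ dvd_mul_left _ _⟩
  obtain ⟨M₁, D, h1, hD, haD, hDG, hc⟩ :=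
    split (G := γ * (g * g') * (l₁ * l₁') * (l₂ * l₂')) ha hs
  have dD : D.natDegree ≤ T + (l + l) + (l + l) + (l + l) :=
    (natDegree_le_of_dvd hDG (mul_ne_zero (mul_ne_zero (mul_ne_zero hγ.ne_zero (mul_ne_zero a6 b6))
      (m1.mul m1').ne_zero) (m2.mul m2').ne_zero)).trans
      (nd_mul (nd_mul (nd_mul dγ (nd_mul dg dg')) (nd_mul n1.le n1'.le)) (nd_mul n2.le n2'.le))
  have cγ := hc.of_mul_right_left.of_mul_right_left.of_mul_right_left
  have cg := hc.of_mul_right_left.of_mul_right_left.of_mul_right_right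
  have c1 := hc.of_mul_right_left.of_mul_right_right
  have c2 := hc.of_mul_right_right
  obtain ⟨M₂, hM₂⟩ : ∃ M₂, M₂ = D * γ ^ 2 := ⟨_, rfl⟩
  have h2 : M₂.Monic := hM₂ ▸ hD.mul (hγ.pow 2)
  have cM : IsCoprime M₁ M₂ := hM₂ ▸ (hc.of_isCoprime_of_dvd_right hDG).mul_right cγ.pow_right
  have eM : M = M₁ * M₂ := by rw [hMa, haD, hM₂, mul_assoc]
  have d2 : M₂.natDegree ≤ 6 * l + 3 * T := by
    rw [hM₂, hD.natDegree_mul (hγ.pow 2), hγ.natDegree_pow]; omega
  have d1 : M₁.natDegree + M₂.natDegree = I' := by rw [← hM2, eM, h1.natDegree_mul h2]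
  have sq1 : Squarefree M₁ := (haD ▸ hs).of_mul_left
  obtain ⟨k, hk⟩ : ∃ k, 11 * l + 3 * T + k = I' := ⟨_, Nat.add_sub_cancel' hl⟩
  have τ0 : 0 ≤ τ := zero_le_one.trans hτ.one_le
  have dW : (l₁ * l₁' * M₂).natDegree ≤ l + l + (6 * l + 3 * T) := nd_mul (nd_mul n1.le n1'.le) d2
  have key := shift_bound (c := g * g' * (l₁ * l₁' * M₂)) (m := 11 * l + 3 * T)
    (φ := fun x => xi e (h * J) I l₁ l₂ g M x * xi e (h * J') I l₁' l₂' g' M x)
    ((nd_mul (nd_mul dg dg') dW).trans (by omega)) hk (B := qq F (6 * l) * τ ^ 3 * qq F (3 * I'))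
    fun x => ?_
  · refine key.trans_eq ?_
    rw [show 3 * I' + 50 * l + 12 * T = 4 * (11 * l + 3 * T) + 6 * l + 3 * I' by ring, qq_add,
      qq_add]
    ring
  have B0 : 0 ≤ qq F (6 * l) * τ ^ 3 * qq F (3 * I') := by
    have := qq_pos (F := F) (6 * l)
    have := qq_pos (F := F) (3 * I')
    positivity
  have e1 : ∀ s, g * g' * (l₁ * l₁' * M₂) * s = g * (g' * (l₁ * l₁' * M₂) * s) := fun s => by ring
  have e2 : ∀ s, g * g' * (l₁ * l₁' * M₂) * s = g' * (g * (l₁ * l₁' * M₂) * s) := fun s => by ring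
  have u1 : ∀ s ∈ ltF F k, (l₂ * (g' * (l₁ * l₁' * M₂) * s)).degree < I := fun s hs => by
    rw [← mul_assoc]
    exact deg_mul_lt (nd_mul n2.le (nd_mul dg' dW)) (mem_ltF.1 hs) (by omega)
  have u2 : ∀ s ∈ ltF F k, (l₂' * (g * (l₁ * l₁' * M₂) * s)).degree < I := fun s hs => by
    rw [← mul_assoc]
    exact deg_mul_lt (nd_mul n2'.le (nd_mul dg dW)) (mem_ltF.1 hs) (by omega)
  by_cases p : ∃ d ∈ monF F I, g * d = l₁ * M + l₂ * x
  swap
  · rw [Finset.sum_eq_zero fun s hs => by rw [e1, xi_zero e _ p (u1 s hs), zero_mul]]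
    simpa using B0
  by_cases p' : ∃ d ∈ monF F I, g' * d = l₁' * M + l₂' * x
  swap
  · rw [Finset.sum_eq_zero fun s hs => by rw [e2, xi_zero e _ p' (u2 s hs), mul_zero]]
    simpa using B0
  obtain ⟨d, hd, p⟩ := p
  obtain ⟨d', hd', p'⟩ := p'
  have cN : IsCoprime M₁ (l₁ * M₂) := c1.of_mul_right_left.mul_right cM
  have cN' : IsCoprime M₁ (l₁' * M₂) := c1.of_mul_right_right.mul_right cM
  obtain ⟨K, hK, hxi⟩ := mode he (a := h * J) h1 (m1.mul h2) (by rw [eM]; ring) a6 cN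
    cg.of_mul_right_left c2.of_mul_right_left (degree_le_natDegree.trans_lt (by
      have := nd_mul hhl dJ
      rw [m1.natDegree_mul h2]
      exact_mod_cast (by omega))) hd p
  obtain ⟨K', hK', hxi'⟩ := mode he (a := h * J') h1 (m1'.mul h2) (by rw [eM]; ring) b6 cN'
    cg.of_mul_right_right c2.of_mul_right_right (degree_le_natDegree.trans_lt (by
      have := nd_mul hhl dJ'
      rw [m1'.natDegree_mul h2]
      exact_mod_cast (by omega))) hd' p'
  obtain ⟨k1, q1⟩ := iv_mul (cN.mul_right c2.of_mul_right_left).symm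
  obtain ⟨k2, q2⟩ := iv_mul (cN'.mul_right c2.of_mul_right_right).symm
  generalize iv M₁ (l₁ * M₂ * l₂) = B at *
  generalize iv M₁ (l₁' * M₂ * l₂') = B' at *
  have kl := kloost he (A := h * J * g * B + h * J' * g' * B') h1 sq1
    (cg.mul_right (c1.mul_right cM)).symm (mul_ne_zero hh hZ) (fun y hy => by
      refine cM.dvd_of_dvd_mul_left ?_
      obtain ⟨k3, q3⟩ := hy
      exact ⟨l₁ * M₂ * l₂ * (l₁' * M₂ * l₂') * k3 - h * J * g * (l₁' * M₂ * l₂') * y * k1 -
        h * J' * g' * (l₁ * M₂ * l₂) * y * k2, by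
          linear_combination l₁ * M₂ * l₂ * (l₁' * M₂ * l₂') * q3 -
            h * J * g * (l₁' * M₂ * l₂') * y * q1 - h * J' * g' * (l₁ * M₂ * l₂) * y * q2⟩)
    x (l := k) (by omega) (hτ M₁ h1.ne_zero (by omega))
  rw [Finset.sum_congr rfl (g := fun s => K * K' * (ind (IsCoprime (x + g * g' * (l₁ * l₁' * M₂) * s)
    M₁) * e (SFour.res ((h * J * g * B + h * J' * g' * B') *
      iv M₁ (x + g * g' * (l₁ * l₁' * M₂) * s)) M₁))) fun s hs => ?_, ← Finset.mul_sum, mul_pow]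
  · have k4 : (K * K') ^ 4 ≤ 1 := by
      rw [← (by decide : Even 4).pow_abs, abs_mul]
      exact pow_le_one₀ (by positivity) (mul_le_one₀ hK (abs_nonneg _) hK')
    refine (mul_le_of_le_one_left ((by decide : Even 4).pow_nonneg _) k4).trans (kl.trans ?_)
    have dZ : (h * (J * g * (l₁' * l₂') + J' * g' * (l₁ * l₂))).natDegree ≤ 6 * l :=
      (nd_mul hhl (nd_add (nd_mul (nd_mul dJ dg) (nd_mul n1'.le n2'.le))
        (nd_mul (nd_mul dJ' dg') (nd_mul n1.le n2.le)))).trans (by omega)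
    exact mul_le_mul (mul_le_mul_of_nonneg_right (qq_mono dZ) (by positivity))
      (qq_mono (by omega)) (qq_pos _).le (mul_nonneg (qq_pos _).le (by positivity))
  · have f1 := hxi _ ⟨g' * l₁' * s, by ring⟩ (u1 s hs)
    have f2 := hxi' _ ⟨g * l₁ * s, by ring⟩ (u2 s hs)
    rw [← e1] at f1
    rw [← e2] at f2
    rw [f1, f2, add_mul, SFour.res_add, he.add]
    by_cases k : IsCoprime (x + g * g' * (l₁ * l₁' * M₂) * s) M₁
    · rw [ind_pos k]; ring
    · rw [ind_neg k]; ring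

end Pool.Agent.MP_43e117_nt

end
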