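import Mathlib
import Pool.Agent.Mg.F43e117.Gff4057
import Pool.Agent.Mg.F43e117.Gfa0000
import Pool.Agent.Mg.F43e117.G16e741

section

/- Twin primes of `F[X]`: the bilinear bound for the determinant kernel. -/

set_option autoImplicit false
set_option linter.unusedSectionVars false

namespace Pool.Agent.MP_43e117_nt

open Polynomial Finset Pool.Agent.MP_4fffd4_nt Pool.Agent.MP_c853c5_nt
open scoped BigOperators

variable {F : Type*} [Field F] [Fintype F]

namespace TOffB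

theorem one {ι κ : Type*} (S : Finset ι) (Ω : Finset κ) (W : κ → ι → ℝ) (s : κ → ℝ)
    (Z : κ → κ → Prop) {A D K : ℝ} (hs : ∀ ω, |s ω| ≤ 1) (hZ : ∀ ω ω', Z ω ω' → Z ω' ω)
    (hK : 0 ≤ K) (hD0 : 0 ≤ D) (hA : ∀ x ∈ S, ∑ ω ∈ Ω, W ω x ^ 2 ≤ A)
    (hD : ∀ ω ∈ Ω, ∑ ω' ∈ Ω, ind (Z ω ω') ≤ D)
    (hP : ∀ ω ∈ Ω, ∀ ω' ∈ Ω, ¬ Z ω ω' → |∑ x ∈ S, W ω x * W ω' x| ≤ K) :
    ∑ x ∈ S, (∑ ω ∈ Ω, s ω * W ω x) ^ 2 ≤ D * (S.card * A) + (Ω.card : ℝ) ^ 2 * K := by
  have h1 : ∑ x ∈ S, (∑ ω ∈ Ω, s ω * W ω x) ^ 2 =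
      ∑ ω ∈ Ω, ∑ ω' ∈ Ω, s ω * s ω' * ∑ x ∈ S, W ω x * W ω' x := by
    simp only [sq, Finset.sum_mul_sum]
    simp only [Finset.mul_sum]
    rw [Finset.sum_comm]
    refine Finset.sum_congr rfl fun ω _ => ?_
    rw [Finset.sum_comm]
    exact Finset.sum_congr rfl fun ω' _ => Finset.sum_congr rfl fun x _ => by ring
  set N : κ → ℝ := fun ω => ∑ x ∈ S, W ω x ^ 2 with hN
  have hN0 : ∀ ω, 0 ≤ N ω := fun ω => Finset.sum_nonneg fun _ _ => sq_nonneg _
  have h2 : ∀ ω ∈ Ω, ∀ ω' ∈ Ω, s ω * s ω' * ∑ x ∈ S, W ω x * W ω' x ≤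
      ind (Z ω ω') * N ω / 2 + ind (Z ω' ω) * N ω' / 2 + K := by
    intro ω hω ω' hω'
    have h3 : s ω * s ω' * ∑ x ∈ S, W ω x * W ω' x ≤ |∑ x ∈ S, W ω x * W ω' x| := by
      refine (le_abs_self _).trans ?_
      rw [abs_mul, abs_mul]
      exact mul_le_of_le_one_left (abs_nonneg _) (mul_le_one₀ (hs ω) (abs_nonneg _) (hs ω'))
    refine h3.trans ?_
    by_cases hz : Z ω ω'
    · rw [ind_pos hz, ind_pos (hZ _ _ hz), one_mul, one_mul]
      refine le_add_of_le_of_nonneg ((Finset.abs_sum_le_sum_abs _ _).trans ?_) hK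
      simp only [hN, Finset.sum_div, ← Finset.sum_add_distrib]
      refine Finset.sum_le_sum fun x _ => ?_
      rw [abs_le]
      constructor <;> nlinarith [sq_nonneg (W ω x + W ω' x), sq_nonneg (W ω x - W ω' x)]
    · have := mul_nonneg (ind_nonneg (Z ω ω')) (hN0 ω)
      have := mul_nonneg (ind_nonneg (Z ω' ω)) (hN0 ω')
      linarith [hP ω hω ω' hω' hz]
  have h4 : ∑ ω ∈ Ω, ∑ ω' ∈ Ω, ind (Z ω ω') * N ω ≤ D * (S.card * A) := by
    calc _ ≤ ∑ ω ∈ Ω, D * N ω := Finset.sum_le_sum fun ω hω => by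
          rw [← Finset.sum_mul]
          exact mul_le_mul_of_nonneg_right (hD ω hω) (hN0 ω)
      _ = D * ∑ x ∈ S, ∑ ω ∈ Ω, W ω x ^ 2 := by rw [← Finset.mul_sum, Finset.sum_comm]
      _ ≤ _ := by
          refine mul_le_mul_of_nonneg_left ?_ hD0
          simpa using Finset.sum_le_card_nsmul _ _ _ hA
  rw [h1]
  refine (Finset.sum_le_sum fun ω hω => Finset.sum_le_sum fun ω' hω' => h2 ω hω ω' hω').trans ?_
  simp only [Finset.sum_add_distrib, ← Finset.sum_div, Finset.sum_const, nsmul_eq_mul]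
  rw [Finset.sum_comm (f := fun ω ω' => ind (Z ω' ω) * N ω')]
  linarith

theorem two {ι : Type*} (S : Finset ι) (β : ι → ℝ) (Y : ι → ι → ℝ) {B : ℝ} (hB : 0 ≤ B)
    (hβ : ∀ x ∈ S, |β x| ≤ 1) (hY : ∀ M ∈ S, β M ≠ 0 → ∑ x ∈ S, Y M x ^ 2 ≤ B) :
    (∑ M ∈ S, ∑ x ∈ S, β M * β x * Y M x) ^ 2 ≤ (S.card : ℝ) ^ 3 * B := by
  have h1 : ∀ M ∈ S, (∑ x ∈ S, β M * β x * Y M x) ^ 2 ≤ S.card * B := by
    intro M hM
    by_cases h0 : β M = 0
    · simp only [h0, zero_mul, Finset.sum_const_zero]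
      rw [zero_pow two_ne_zero]
      positivity
    refine sq_sum_le_card_mul_sum_sq.trans (mul_le_mul_of_nonneg_left ?_ (Nat.cast_nonneg _))
    refine le_trans (Finset.sum_le_sum fun x hx => ?_) (hY M hM h0)
    rw [mul_pow]
    refine mul_le_of_le_one_left (sq_nonneg _) ?_
    rw [sq_le_one_iff_abs_le_one, abs_mul]
    exact mul_le_one₀ (hβ M hM) (abs_nonneg _) (hβ x hx)
  refine sq_sum_le_card_mul_sum_sq.trans ?_
  calc _ ≤ (S.card : ℝ) * (S.card * (S.card * B)) := by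
        refine mul_le_mul_of_nonneg_left ?_ (Nat.cast_nonneg _)
        simpa using Finset.sum_le_card_nsmul _ _ _ h1
    _ = _ := by ring

theorem card_modes (l t : ℕ) :
    ((modes F l t).card : ℝ) ≤ ((irrF F l).card : ℝ) ^ 2 * qq F (l + 2 * t) := by
  classical
  have h : (modes F l t).card ≤ (irrF F l ×ˢ irrF F l ×ˢ ltF F l ×ˢ ltF F t ×ˢ ltF F t).card := by
    unfold modes
    exact card_filter_le _ _
  refine (Nat.cast_le.2 h).trans_eq ?_
  simp only [card_product, card_ltF, qq]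
  push_cast
  ring

theorem card_mon (n : ℕ) : ((monF F n).card : ℝ) = qq F n := by
  rw [card_monF, qq, Nat.cast_pow]

theorem le_sq {l η e f : ℕ} (hl : 4 ≤ l) {c : ℝ} (hc : 4 * (l : ℝ) ^ 2 * c ≤ qq F η)
    (he : η + e ≤ f + 2 * l) : c * qq F e ≤ qq F f * ((irrF F l).card : ℝ) ^ 2 := by
  have hl0 : (0 : ℝ) < l := by exact_mod_cast (by omega : 0 < l)
  have h1 : qq F l ≤ (irrF F l).card * (2 * l) := (div_le_iff₀ (by positivity)).1 (card_irrF hl)
  have h2 : qq F (2 * l) ≤ ((irrF F l).card * (2 * l)) ^ 2 := by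
    rw [mul_comm 2 l, ← qq_pow]
    exact pow_le_pow_left₀ (qq_pos l).le h1 2
  refine le_of_mul_le_mul_left ?_ (show (0 : ℝ) < 4 * (l : ℝ) ^ 2 by positivity)
  calc 4 * (l : ℝ) ^ 2 * (c * qq F e) = 4 * (l : ℝ) ^ 2 * c * qq F e := by ring
    _ ≤ qq F η * qq F e := mul_le_mul_of_nonneg_right hc (qq_pos e).le
    _ ≤ qq F f * qq F (2 * l) := by rw [← qq_add, ← qq_add]; exact qq_mono he
    _ ≤ qq F f * ((irrF F l).card * (2 * l)) ^ 2 := mul_le_mul_of_nonneg_left h2 (qq_pos f).le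
    _ = _ := by ring

end TOffB

theorem offd_sq [CharP F 2] {h : F[X]} (hh : h ≠ 0) {ν t I' l T : ℕ} (hhl : h.natDegree ≤ l)
    (ht : t ≤ l) (hI : I' ≤ ν + t) (hl : 11 * l + 3 * T ≤ I') {τ K₀ : ℝ}
    (hτ : DivB F τ (l + I')) (hK : 0 ≤ K₀)
    (hK' : τ ^ 3 * qq F (3 * I' + 50 * l + 12 * T) ≤ K₀ ^ 4) {β : F[X] → ℝ} (hβ : Bd I' β)
    (hβ' : ∀ x ∈ monF F I', β x ≠ 0 → ¬ Sq T x) :
    offd h ν t I' l β ^ 2 * qq F (4 * t) ≤ qq F (2 * I') *
      (2 * qq F 1 * τ ^ 2 * qq F (2 * t) * ((irrF F l).card : ℝ) ^ 2 * qq F (2 * I') +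
        (((irrF F l).card : ℝ) ^ 2 * qq F (l + 2 * t)) ^ 2 * qq F I' * K₀) := by
  obtain ⟨e, he⟩ := exists_chr (F := F)
  obtain ⟨s, hs, hoff⟩ := offd_eq he h ν t I' l
  have hτ0 : 0 ≤ τ := zero_le_one.trans hτ.one_le
  have hq1 := qq_pos (F := F) 1
  have hq2 := qq_pos (F := F) (2 * t)
  have hq3 := qq_pos (F := F) I'
  have h1 := TOffB.two (monF F I') β
    (fun M x => ∑ ω ∈ modes F l t, s ω * xw e h (ν + t) ω M x)
    (B := 2 * qq F 1 * τ * ((monF F I').card * (qq F (2 * t) * ((irrF F l).card : ℝ) ^ 2 * τ)) +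
      ((modes F l t).card : ℝ) ^ 2 * K₀) (by positivity) hβ fun M hM h0 =>
    TOffB.one (monF F I') (modes F l t) (fun ω x => xw e h (ν + t) ω M x) s _ hs
      (fun ω ω' hz => (add_comm _ _).trans hz) hK (by positivity)
      (fun x hx => sum_xw_sq he h hτ M x hM hx)
      (fun ω hω => card_degenerate ht (hτ.mono (by omega)) hω)
      fun ω hω ω' hω' hz => by
        have h2 := (pair he hh hhl hM (hβ' M hM h0) hI ht hl (hτ.mono (by omega)) hω hω' hz).trans
          hK'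
        rw [← Even.pow_abs (by norm_num)] at h2
        exact le_of_pow_le_pow_left₀ (by norm_num) hK h2
  rw [← hoff, TOffB.card_mon] at h1
  have h3 : ((modes F l t).card : ℝ) ^ 2 ≤ (((irrF F l).card : ℝ) ^ 2 * qq F (l + 2 * t)) ^ 2 :=
    pow_le_pow_left₀ (Nat.cast_nonneg _) (TOffB.card_modes l t) 2
  have e1 : qq F (4 * t) = qq F (2 * t) ^ 2 := by rw [qq_pow]; congr 1; ring
  have e2 : qq F (2 * I') = qq F I' ^ 2 := by rw [qq_pow, mul_comm]
  rw [e1, ← mul_pow, e2]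
  refine h1.trans ?_
  calc _ ≤ qq F I' ^ 3 * (2 * qq F 1 * τ * (qq F I' * (qq F (2 * t) * ((irrF F l).card : ℝ) ^ 2 * τ))
        + (((irrF F l).card : ℝ) ^ 2 * qq F (l + 2 * t)) ^ 2 * K₀) := by gcongr
    _ = _ := by ring

theorem bilin [CharP F 2] {h : F[X]} (hh : h ≠ 0) {n ν t I' l η : ℕ} (hη : 1 ≤ η)
    (hhl : h.natDegree ≤ l) (h1 : 2 * (ν + t) + 10 * η ≤ n + l) (h2 : ν + I' ≤ n)
    (hI : I' ≤ ν + t) (ht : t + 10 * η ≤ l) (hl : 100 * l ≤ I')
    (hτ : DivB F (qq F η) (2 * n)) (hn : (100 * n : ℝ) ^ 3 ≤ qq F η) {α β : F[X] → ℝ}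
    (hα : Bd (ν + t) α) (hβ : Bd I' β) :
    |∑ d ∈ monF F (ν + t), ∑ x ∈ monF F I', α d * β x * kk h ν t d x| ≤ qq F n / qq F η := by
  obtain ⟨a, ha⟩ : ∃ a, n = a + 4 * η := ⟨n - 4 * η, by omega⟩
  have hdeg : h.degree < (ν + I' : ℕ) :=
    degree_le_natDegree.trans_lt (by exact_mod_cast (by omega : h.natDegree < ν + I'))
  have hl4 : 4 ≤ l := by omega
  have hE := qq_pos (F := F) a
  have hln : (l : ℝ) ≤ n := by exact_mod_cast (by omega : l ≤ n)
  have hn1 : (1 : ℝ) ≤ n := by exact_mod_cast (by omega : 1 ≤ n)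
  have hIn : ((ν + t : ℕ) : ℝ) ≤ n := by exact_mod_cast (by omega : ν + t ≤ n)
  have hL : (0 : ℝ) < (irrF F l).card :=
    lt_of_lt_of_le (div_pos (pow_pos card_pos' _) (by exact_mod_cast (by omega : 0 < 2 * l)))
      (card_irrF hl4)
  set L : ℝ := ((irrF F l).card : ℝ) with hLd
  set β₁ : F[X] → ℝ := fun x => β x * ind (¬ Sq l x) with hβ₁
  have hb : Bd I' β₁ := fun x hx => by
    rw [hβ₁, abs_mul, abs_of_nonneg (ind_nonneg _)]
    exact mul_le_one₀ (hβ x hx) (ind_nonneg _) (ind_le_one _)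
  have hb' : ∀ x ∈ monF F I', β₁ x ≠ 0 → ¬ Sq l x := fun x _ h0 hs =>
    h0 (by simp only [hβ₁]; rw [ind_neg (not_not.2 hs), mul_zero])
  have hA := amp h l hI hα hb
  have hk := kk_sq (t := t) hdeg (hτ.mono (by omega : ν + I' ≤ 2 * n))
  have hk' := kk_Sq (t := t) hdeg (hτ.mono (by omega : ν + I' ≤ 2 * n)) l
  have hO := offd_sq (T := l) (K₀ := qq F (η + (3 * I' + 62 * l) / 4 + 1)) hh hhl (by omega) hI
    (by omega) (hτ.mono (by omega : l + I' ≤ 2 * n)) (qq_pos _).le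
    (by rw [qq_pow, qq_pow, ← qq_add]; exact qq_mono (by omega)) hb hb'
  set T₁ := ∑ d ∈ monF F (ν + t), ∑ x ∈ monF F I', α d * β₁ x * kk h ν t d x with hT₁
  set O := offd h ν t I' l β₁
  have i1 : qq F (2 * (ν + t)) * ((2 * (ν + t : ℕ) + 1) * qq F l *
      (∑ d ∈ monF F (ν + t), ∑ x ∈ monF F I', kk h ν t d x ^ 2)) ≤ qq F a ^ 2 * L ^ 2 := by
    have := qq_pos (F := F) (2 * (ν + t))
    have := qq_pos (F := F) l
    calc _ ≤ qq F (2 * (ν + t)) * ((2 * (ν + t : ℕ) + 1) * qq F l *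
          (4 * qq F η * qq F (ν + I'))) := by gcongr
      _ = (4 * (2 * (ν + t : ℕ) + 1)) * qq F (2 * (ν + t) + l + η + (ν + I')) := by
          simp only [qq_add _ (ν + I'), qq_add _ η, qq_add _ l]; ring
      _ ≤ _ := by
          rw [qq_pow]
          refine TOffB.le_sq hl4 (le_trans ?_ hn) (by omega)
          calc 4 * (l : ℝ) ^ 2 * (4 * (2 * (ν + t : ℕ) + 1)) ≤ 4 * (n : ℝ) ^ 2 * (4 * (2 * n + n)) := by
                gcongr
            _ ≤ _ := by nlinarith [pow_pos (zero_lt_one.trans_le hn1) 3]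
  have i2 : qq F (2 * (ν + t)) * |O| ≤ 2 * (qq F a ^ 2 * L ^ 2) := by
    refine le_of_pow_le_pow_left₀ two_ne_zero (by positivity) ?_
    have j1 : 2 * qq F (4 * ν + 2 * I' + 1 + η * 2 + 2 * t + 2 * I') ≤ qq F (a * 4) * L ^ 2 := by
      refine TOffB.le_sq hl4 (le_trans ?_ hn) (by omega)
      calc 4 * (l : ℝ) ^ 2 * 2 ≤ 4 * (n : ℝ) ^ 2 * (2 * n) := by gcongr; linarith
        _ ≤ _ := by nlinarith [pow_pos (zero_lt_one.trans_le hn1) 3]
    have j2 : qq F (4 * ν + 2 * I' + (l + 2 * t) * 2 + I' + (η + (3 * I' + 62 * l) / 4 + 1)) ≤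
        qq F (a * 4) := qq_mono (by omega)
    have e1 : qq F (2 * (ν + t)) ^ 2 = qq F (4 * ν) * qq F (4 * t) := by
      rw [qq_pow, ← qq_add]; congr 1; ring
    generalize η + (3 * I' + 62 * l) / 4 + 1 = k at hO j2
    rw [qq_add, qq_add, qq_add, qq_add, qq_add, ← qq_pow η, ← qq_pow a] at j1
    rw [qq_add, qq_add, qq_add, qq_add, ← qq_pow (l + 2 * t), ← qq_pow a] at j2
    have j3 := mul_le_mul_of_nonneg_left hO (qq_pos (F := F) (4 * ν)).le
    have j4 := mul_le_mul_of_nonneg_right j1 (sq_nonneg L)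
    have j5 := mul_le_mul_of_nonneg_right j2 (show 0 ≤ L ^ 4 by positivity)
    have j6 : 0 ≤ qq F a ^ 4 * L ^ 4 := by positivity
    rw [mul_pow, sq_abs, e1]
    linarith
  have i3 : |T₁| ≤ 2 * qq F a := by
    refine le_of_pow_le_pow_left₀ two_ne_zero (by positivity) ?_
    rw [sq_abs]
    refine le_of_mul_le_mul_right ?_ (pow_pos hL 2)
    have : 0 ≤ qq F a ^ 2 * L ^ 2 := by positivity
    rw [mul_add] at hA
    linarith
  have i4 : 4 * qq F η * qq F (ν + I') / qq F l ≤ 4 * qq F a := by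
    rw [div_le_iff₀ (qq_pos l), mul_assoc, mul_assoc, ← qq_add, ← qq_add]
    exact mul_le_mul_of_nonneg_left (qq_mono (by omega)) (by norm_num)
  have i5 : |∑ d ∈ monF F (ν + t), ∑ x ∈ monF F I', α d * β x * kk h ν t d x - T₁| ≤
      ∑ d ∈ monF F (ν + t), ∑ x ∈ monF F I', ind (Sq l x) * |kk h ν t d x| := by
    rw [hT₁, ← Finset.sum_sub_distrib]
    refine (Finset.abs_sum_le_sum_abs _ _).trans (Finset.sum_le_sum fun d hd => ?_)
    rw [← Finset.sum_sub_distrib]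
    refine (Finset.abs_sum_le_sum_abs _ _).trans (Finset.sum_le_sum fun x hx => ?_)
    by_cases hs : Sq l x
    · simp only [hβ₁, ind_neg (not_not.2 hs), ind_pos hs, mul_zero, zero_mul, sub_zero, one_mul,
        abs_mul]
      exact mul_le_of_le_one_left (abs_nonneg _) (mul_le_one₀ (hα d hd) (abs_nonneg _) (hβ x hx))
    · simp only [hβ₁, ind_neg hs, ind_pos hs, mul_one, sub_self, abs_zero, zero_mul, le_refl]
  have i6 : 6 * qq F a ≤ qq F n / qq F η := by
    rw [le_div_iff₀ (qq_pos η), show n = 3 + (a + η) + (3 * η - 3) by omega, qq_add, qq_add, qq_add]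
    have h8 := two_pow_le_qq (F := F) 3
    have h9 := one_le_qq (F := F) (3 * η - 3)
    have h10 := mul_pos hE (qq_pos (F := F) η)
    calc 6 * qq F a * qq F η ≤ 2 ^ 3 * (qq F a * qq F η) * 1 := by nlinarith
      _ ≤ _ := by gcongr
  have i7 := abs_add_le (∑ d ∈ monF F (ν + t), ∑ x ∈ monF F I', α d * β x * kk h ν t d x - T₁) T₁
  rw [sub_add_cancel] at i7
  linarith

end Pool.Agent.MP_43e117_nt

end

section

/- Twin primes of `F[X]`: the central range. -/

set_option autoImplicit false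
set_option linter.unusedSectionVars false

namespace Pool.Agent.MP_43e117_nt

open Polynomial Finset Pool.Agent.MP_4fffd4_nt Pool.Agent.MP_c853c5_nt
open scoped BigOperators

variable {F : Type*} [Field F] [Fintype F]

namespace TK

/-- The discrepancy of one pair of divisibility conditions. -/
noncomputable def dis (h : F[X]) (n : ℕ) (A B : F[X]) : ℝ :=
  ∑ f ∈ monF F n, ind (A ∣ f) * ind (B ∣ f + h) -
    qq F n * 𝔼 f : degreeLT F (5 * n), ind (A ∣ f.1) * ind (B ∣ f.1 + h)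

theorem ind_iff {P Q : Prop} (h : P ↔ Q) : ind P = ind Q := by rw [propext h]

theorem ind_mul (P Q : Prop) : ind P * ind Q = ind (P ∧ Q) := by
  by_cases hP : P
  · rw [ind_pos hP, one_mul]; exact ind_iff (and_iff_right hP).symm
  · rw [ind_neg hP, zero_mul, ind_neg fun h => hP h.1]

theorem up_mul (h : F[X]) (I I' : ℕ) (α β : F[X] → ℝ) (f : F[X]) :
    up α I f * up β I' (f + h) = ∑ A ∈ monF F I, ∑ B ∈ monF F I',
      α A * β B * (ind (A ∣ f) * ind (B ∣ f + h)) := by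
  unfold up
  rw [Finset.sum_mul_sum]
  exact Finset.sum_congr rfl fun A _ => Finset.sum_congr rfl fun B _ => by ring

theorem expand (h : F[X]) (n I I' : ℕ) (α β : F[X] → ℝ) :
    corr h n (up α I) (up β I') - qq F n * mcorr h (5 * n) (up α I) (up β I') =
      ∑ A ∈ monF F I, ∑ B ∈ monF F I', α A * β B * dis h n A B := by
  have h1 : corr h n (up α I) (up β I') = ∑ A ∈ monF F I, ∑ B ∈ monF F I',
      α A * β B * ∑ f ∈ monF F n, ind (A ∣ f) * ind (B ∣ f + h) := by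
    unfold corr
    simp only [up_mul]
    rw [Finset.sum_comm]
    refine Finset.sum_congr rfl fun A _ => ?_
    rw [Finset.sum_comm]
    exact Finset.sum_congr rfl fun B _ => by rw [Finset.mul_sum]
  have h2 : mcorr h (5 * n) (up α I) (up β I') = ∑ A ∈ monF F I, ∑ B ∈ monF F I',
      α A * β B * 𝔼 f : degreeLT F (5 * n), ind (A ∣ f.1) * ind (B ∣ f.1 + h) := by
    unfold mcorr
    simp only [up_mul]
    rw [Finset.expect_sum_comm]
    refine Finset.sum_congr rfl fun A _ => ?_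
    rw [Finset.expect_sum_comm]
    exact Finset.sum_congr rfl fun B _ => by rw [Finset.mul_expect]
  rw [h1, h2, Finset.mul_sum, ← Finset.sum_sub_distrib]
  refine Finset.sum_congr rfl fun A _ => ?_
  rw [Finset.mul_sum, ← Finset.sum_sub_distrib]
  refine Finset.sum_congr rfl fun B _ => ?_
  unfold dis
  ring

theorem dis_per (h : F[X]) {n : ℕ} {A B m : F[X]} (hm : m ≠ 0) (hA : A ∣ m) (hB : B ∣ m)
    (hn : m.natDegree ≤ n) : dis h n A B = 0 := by
  have hp : Per m fun f => ind (A ∣ f) * ind (B ∣ f + h) := by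
    intro f t
    have e : f + m * t + h = f + h + m * t := by ring
    show ind (A ∣ f + m * t) * ind (B ∣ f + m * t + h) = ind (A ∣ f) * ind (B ∣ f + h)
    rw [e, ind_iff (dvd_add_left (hA.mul_right t)), ind_iff (dvd_add_left (hB.mul_right t))]
  unfold dis
  rw [sum_monF_per hm hp hn (show m.natDegree ≤ 5 * n by omega), sub_self]

theorem dis_gcd {h : F[X]} (n : ℕ) {A B g : F[X]} (hA : g ∣ A) (hB : g ∣ B) (hg : ¬ g ∣ h) :
    dis h n A B = 0 := by
  have h0 : ∀ f : F[X], ind (A ∣ f) * ind (B ∣ f + h) = 0 := fun f => by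
    rw [ind_mul]
    exact ind_neg fun H => hg ((dvd_add_right (hA.trans H.1)).1 (hB.trans H.2))
  unfold dis
  simp only [h0]
  simp

theorem sum_dvd_eq {m : F[X]} (hm : m.Monic) (ν : ℕ) (G : F[X] → ℝ) :
    ∑ f ∈ monF F (m.natDegree + ν), ind (m ∣ f) * G f = ∑ e ∈ monF F ν, G (m * e) := by
  classical
  have h1 : ∑ f ∈ monF F (m.natDegree + ν), ind (m ∣ f) * G f =
      ∑ f ∈ (monF F (m.natDegree + ν)).filter (m ∣ ·), G f := by
    rw [Finset.sum_filter]
    refine Finset.sum_congr rfl fun f _ => ?_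
    split_ifs with H
    · rw [ind_pos H, one_mul]
    · rw [ind_neg H, zero_mul]
  rw [h1]
  symm
  refine Finset.sum_bij (fun e _ => m * e) (fun e he => ?_) (fun a _ b _ hab => ?_)
    (fun f hf => ?_) fun _ _ => rfl
  · obtain ⟨h2, h3⟩ := mem_monF.1 he
    exact mem_filter.2 ⟨mem_monF.2 ⟨hm.mul h2, by rw [hm.natDegree_mul h2, h3]⟩, dvd_mul_right _ _⟩
  · exact mul_left_cancel₀ hm.ne_zero hab
  · obtain ⟨h2, e, rfl⟩ := mem_filter.1 hf
    obtain ⟨h3, h4⟩ := mem_monF.1 h2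
    have h5 : e.Monic := hm.of_mul_monic_left h3
    rw [hm.natDegree_mul h5] at h4
    exact ⟨e, mem_monF.2 ⟨h5, by omega⟩, rfl⟩

theorem dis_kk [CharP F 2] {g d x h₁ : F[X]} (hg : g.Monic) (hd : d.Monic) (hx : x.Monic)
    (hc : IsCoprime d x) {n ν t : ℕ} (hn : g.natDegree + x.natDegree + ν = n)
    (hdd : d.natDegree = ν + t) (ht : t ≤ n) (hh : (g * h₁).degree < n) :
    dis (g * h₁) n (g * d) (g * x) = ∑ e ∈ monF F ν, ind (d ∣ x * e + h₁) - 1 / qq F t := by
  have h2 : (2 : F[X]) = 0 := by exact_mod_cast CharP.cast_eq_zero F[X] 2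
  have e1 : ∑ f ∈ monF F n, ind (g * d ∣ f) * ind (g * x ∣ f + g * h₁) =
      ∑ e ∈ monF F ν, ind (d ∣ x * e + h₁) := by
    have h3 := sum_monF_shift hh fun f => ind (g * x ∣ f) * ind (g * d ∣ f + g * h₁)
    have h4 : ∀ f : F[X], f + g * h₁ + g * h₁ = f := fun f => by linear_combination g * h₁ * h2
    simp only [h4] at h3
    have h5 := sum_dvd_eq (hg.mul hx) ν fun f => ind (g * d ∣ f + g * h₁)
    rw [hg.natDegree_mul hx, hn] at h5
    rw [Finset.sum_congr rfl fun f _ => mul_comm _ _, h3, h5]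
    refine Finset.sum_congr rfl fun e _ => ind_iff ?_
    rw [show g * x * e + g * h₁ = g * (x * e + h₁) by ring]
    exact mul_dvd_mul_iff_left hg.ne_zero
  have e2 : 𝔼 f : degreeLT F (5 * n), ind (g * d ∣ f.1) * ind (g * x ∣ f.1 + g * h₁) =
      1 / qq F (n + t) := by
    obtain ⟨a, b, hab⟩ := hc
    have hD : (g * d * x).Monic := (hg.mul hd).mul hx
    have hDd : (g * d * x).natDegree = n + t := by
      rw [(hg.mul hd).natDegree_mul hx, hg.natDegree_mul hd]; omega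
    have h6 := expect_lin hD isCoprime_one_left (g * d * (a * h₁)) (n := 5 * n) (by omega)
    rw [hDd] at h6
    rw [← h6]
    refine Finset.expect_congr rfl fun f _ => ?_
    rw [ind_mul]
    refine ind_iff ⟨fun ⟨⟨u, hu⟩, ⟨v, hv⟩⟩ => ?_, fun ⟨w, hw⟩ => ⟨?_, ?_⟩⟩
    · have h7 : d * u + h₁ = x * v := by
        apply mul_left_cancel₀ hg.ne_zero
        linear_combination hv - hu
      refine ⟨a * v + b * u, ?_⟩
      rw [hu]
      linear_combination (g * d * a) * h7 - (g * d * u) * hab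
    · exact ⟨x * w - a * h₁, by linear_combination hw⟩
    · exact ⟨d * w + b * h₁, by linear_combination hw - (g * h₁) * hab⟩
  unfold dis
  rw [e1, e2, qq_add]
  have := qq_pos (F := F) n
  have := qq_pos (F := F) t
  field_simp

theorem sum_gcd {h : F[X]} (hh : h ≠ 0) {I I' : ℕ} (hI : h.natDegree ≤ I) (hI' : h.natDegree ≤ I')
    (G : F[X] → F[X] → ℝ) (hG : ∀ A B g, g ∣ A → g ∣ B → ¬ g ∣ h → G A B = 0) :
    ∑ A ∈ monF F I, ∑ B ∈ monF F I', G A B = ∑ g ∈ divs h, ∑ d ∈ monF F (I - g.natDegree),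
      ∑ x ∈ monF F (I' - g.natDegree), ind (IsCoprime d x) * G (g * d) (g * x) := by
  classical
  have h1 : ∀ A ∈ monF F I, ∀ B, G A B =
      ∑ g ∈ divs h, ind (g ∣ A) * (ind (g ∣ B) * (ind (gcd A B = g) * G A B)) := by
    intro A hA B
    have hA0 := (mem_monF.1 hA).1.ne_zero
    by_cases H : gcd A B ∣ h
    · have hm : (gcd A B).Monic := by
        rw [← _root_.normalize_gcd A B]
        exact monic_normalize (gcd_ne_zero_of_left hA0)
      rw [Finset.sum_eq_single_of_mem (gcd A B) ((mem_divs hh).2 ⟨hm, H⟩) fun g _ hg => by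
        rw [ind_neg (P := gcd A B = g) hg.symm]; ring]
      rw [ind_pos (gcd_dvd_left A B), ind_pos (gcd_dvd_right A B), ind_pos rfl]; ring
    · rw [hG A B _ (gcd_dvd_left A B) (gcd_dvd_right A B) H]; simp
  rw [Finset.sum_congr rfl fun A hA => Finset.sum_congr rfl fun B _ => h1 A hA B]
  rw [Finset.sum_congr rfl fun A _ => Finset.sum_comm, Finset.sum_comm]
  refine Finset.sum_congr rfl fun g hg => ?_
  obtain ⟨hm, hd⟩ := (mem_divs hh).1 hg
  have hγ := natDegree_le_of_dvd hd hh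
  have h2 := sum_dvd_eq hm (I - g.natDegree) fun A => ∑ B ∈ monF F I',
    ind (g ∣ B) * (ind (gcd A B = g) * G A B)
  rw [show g.natDegree + (I - g.natDegree) = I by omega] at h2
  rw [Finset.sum_congr rfl fun A _ => (Finset.mul_sum _ _ _).symm, h2]
  refine Finset.sum_congr rfl fun d _ => ?_
  have h3 := sum_dvd_eq hm (I' - g.natDegree) fun B => ind (gcd (g * d) B = g) * G (g * d) B
  rw [show g.natDegree + (I' - g.natDegree) = I' by omega] at h3
  rw [h3]
  refine Finset.sum_congr rfl fun x _ => ?_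
  congr 1
  refine ind_iff ?_
  rw [_root_.gcd_mul_left, hm.normalize_eq_self, mul_eq_left₀ hm.ne_zero, ← gcd_isUnit_iff,
    ← normalize_eq_one, _root_.normalize_gcd]

theorem central_le [CharP F 2] {h : F[X]} (hh : h ≠ 0) :
    ∃ n₀ : ℕ, ∀ n, n₀ ≤ n → ∀ (I I' : ℕ) (α β : F[X] → ℝ), Bd I α → Bd I' β → I' ≤ I →
      n < I + I' → 2 * I ≤ n + n / 100000 →
      |∑ A ∈ monF F I, ∑ B ∈ monF F I', α A * β B * dis h n A B| ≤
        qq F n / qq F (n / 2000000) := by
  obtain ⟨n₁, H₁⟩ := exists_DivB (F := F) 2 1000000 (by norm_num)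
  obtain ⟨n₂, H₂⟩ := exists_poly (F := F) 100 3 1000000 (by norm_num)
  obtain ⟨n₃, H₃⟩ := exists_DivB (F := F) 1 2000000 (by norm_num)
  refine ⟨n₁ + n₂ + n₃ + 1000000 + 1000 * h.natDegree,
    fun n hn I I' α β hα hβ hI hlt hD => ?_⟩
  rw [sum_gcd hh (by omega) (by omega) _ fun A B g hA hB hg => by
    rw [dis_gcd n hA hB hg, mul_zero]]
  have hb : ∀ g ∈ divs h, |∑ d ∈ monF F (I - g.natDegree), ∑ x ∈ monF F (I' - g.natDegree),
      ind (IsCoprime d x) * (α (g * d) * β (g * x) * dis h n (g * d) (g * x))| ≤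
      qq F n / qq F (n / 1000000) := by
    intro g hg
    obtain ⟨hm, h₁, rfl⟩ := (mem_divs hh).1 hg
    have h₁0 : h₁ ≠ 0 := right_ne_zero_of_mul hh
    have hdeg := natDegree_mul hm.ne_zero h₁0
    by_cases hc : I + I' - g.natDegree ≤ n
    · rw [Finset.sum_eq_zero fun d hd => Finset.sum_eq_zero fun x hx => ?_, abs_zero]
      · exact (div_pos (qq_pos _) (qq_pos _)).le
      · obtain ⟨hd1, hd2⟩ := mem_monF.1 hd
        obtain ⟨hx1, hx2⟩ := mem_monF.1 hx
        rw [dis_per _ ((hm.mul hd1).mul hx1).ne_zero (dvd_mul_right _ _)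
          ⟨d, by ring⟩ (by
            rw [(hm.mul hd1).natDegree_mul hx1, hm.natDegree_mul hd1]; omega)]
        ring
    · obtain ⟨t, ht⟩ : ∃ t, I + I' - g.natDegree = n + t := ⟨I + I' - g.natDegree - n, by omega⟩
      have e : I - g.natDegree = n - I' + t := by omega
      have hb := bilin (h := h₁) h₁0 (n := n) (ν := n - I') (t := t) (I' := I' - g.natDegree)
        (l := n / 1000) (η := n / 1000000) (by omega) (by omega) (by omega) (by omega) (by omega)
        (by omega) (by omega) (H₁ n (by omega)) (by exact_mod_cast H₂ n (by omega))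
        (α := fun d => α (g * d)) (β := fun x => β (g * x))
        (fun d hd => hα _ (by
          obtain ⟨hd1, hd2⟩ := mem_monF.1 hd
          exact mem_monF.2 ⟨hm.mul hd1, by rw [hm.natDegree_mul hd1]; omega⟩))
        (fun x hx => hβ _ (by
          obtain ⟨hx1, hx2⟩ := mem_monF.1 hx
          exact mem_monF.2 ⟨hm.mul hx1, by rw [hm.natDegree_mul hx1]; omega⟩))
      rw [e]
      refine le_of_eq_of_le ?_ hb
      congr 1
      refine Finset.sum_congr rfl fun d hd => Finset.sum_congr rfl fun x hx => ?_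
      obtain ⟨hd1, hd2⟩ := mem_monF.1 hd
      obtain ⟨hx1, hx2⟩ := mem_monF.1 hx
      unfold kk
      by_cases hco : IsCoprime d x
      · rw [dis_kk hm hd1 hx1 hco (ν := n - I') (t := t) (by omega) hd2 (by omega)
          ((degree_le_natDegree).trans_lt (by exact_mod_cast (by omega)))]
        ring
      · rw [ind_neg hco]; ring
  refine (Finset.abs_sum_le_sum_abs _ _).trans ((Finset.sum_le_card_nsmul _ _ _ hb).trans ?_)
  have h1 := H₃ n (by omega) h hh (by omega)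
  have h2 : qq F (n / 2000000) * qq F (n / 2000000) ≤ qq F (n / 1000000) := by
    rw [← qq_add]; exact qq_mono (by omega)
  have h3 := qq_pos (F := F) n
  have h4 := qq_pos (F := F) (n / 2000000)
  have h5 := qq_pos (F := F) (n / 1000000)
  rw [nsmul_eq_mul, ← mul_div_assoc, div_le_div_iff₀ h5 h4]
  calc ((divs h).card : ℝ) * qq F n * qq F (n / 2000000)
      = qq F n * ((divs h).card * qq F (n / 2000000)) := by ring
    _ ≤ qq F n * (qq F (n / 2000000) * qq F (n / 2000000)) := by gcongr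
    _ ≤ _ := by gcongr

end TK

theorem central [CharP F 2] {h : F[X]} (hh : h ≠ 0) : ∃ D : ℕ, 0 < D ∧ ∃ C : ℕ, 0 < C ∧
    ∃ n₀ : ℕ, ∀ n, n₀ ≤ n → ∀ (I I' : ℕ) (α β : F[X] → ℝ), Bd I α → Bd I' β →
      (I + I' ≤ n ∨ (2 * I ≤ n + n / D ∧ 2 * I' ≤ n + n / D)) →
      |corr h n (up α I) (up β I') - qq F n * mcorr h (5 * n) (up α I) (up β I')| ≤
        qq F n / qq F (n / C) := by
  obtain ⟨n₀, H⟩ := TK.central_le hh
  refine ⟨100000, by norm_num, 2000000, by norm_num, n₀ + h.natDegree + 1,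
    fun n hn I I' α β hα hβ hI => ?_⟩
  by_cases h0 : I + I' ≤ n
  · rw [TK.expand, Finset.sum_eq_zero fun A hA => Finset.sum_eq_zero fun B hB => ?_, abs_zero]
    · exact (div_pos (qq_pos _) (qq_pos _)).le
    · obtain ⟨h1, h2⟩ := mem_monF.1 hA
      obtain ⟨h3, h4⟩ := mem_monF.1 hB
      rw [TK.dis_per _ (h1.mul h3).ne_zero (dvd_mul_right _ _) (dvd_mul_left _ _)
        (by rw [h1.natDegree_mul h3]; omega), mul_zero]
  obtain ⟨h1, h2⟩ := hI.resolve_left h0
  rcases le_total I' I with hle | hle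
  · rw [TK.expand]
    exact H n (by omega) I I' α β hα hβ hle (by omega) h1
  · rw [corr_comm ((degree_le_natDegree).trans_lt (by exact_mod_cast (by omega))),
      mcorr_comm ((degree_le_natDegree).trans_lt (by exact_mod_cast (by omega))), TK.expand]
    exact H n (by omega) I' I β α hβ hα hle (by omega) h2

end Pool.Agent.MP_43e117_nt

end
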