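import Mathlib
import Pool.Agent.MP_4fffd4_nt.Stick
import Pool.Agent.MP_9b2bac_nt.Carlitz
import Pool.Agent.MP_9b2bac_nt.PntAp

section

/- Products of values of a polynomial at the roots of another one, over a finite field. -/

set_option autoImplicit false

namespace Pool.Agent.MP_9b2bac_nt.Res

open Polynomial Finset
open Pool.Agent.MP_4fffd4_nt

variable {F : Type*} [Field F] (Ω : Type*) [Field Ω] [Algebra F Ω]

/-- Product of the values of `h` at the roots of `f`. -/
noncomputable def R (f h : F[X]) : Ω := ((f.aroots Ω).map fun s => aeval s h).prod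

variable {Ω}

theorem R_mul_right (f h k : F[X]) : R Ω f (h * k) = R Ω f h * R Ω f k := by
  simp only [R, map_mul, Multiset.prod_map_mul]

theorem R_mul_left {f g : F[X]} (hfg : f * g ≠ 0) (h : F[X]) :
    R Ω (f * g) h = R Ω f h * R Ω g h := by
  simp only [R, aroots_mul hfg, Multiset.map_add, Multiset.prod_add]

theorem R_congr {f h k : F[X]} (hs : ∀ s : Ω, aeval s f = 0 → aeval s h = aeval s k) :
    R Ω f h = R Ω f k := by
  unfold R
  congr 1
  exact Multiset.map_congr rfl fun s hs' => hs s (mem_aroots.1 hs').2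

theorem R_congr_dvd {f h k : F[X]} (hd : f ∣ h - k) : R Ω f h = R Ω f k := by
  refine R_congr fun s hs => ?_
  obtain ⟨c, hc⟩ := hd
  have := congrArg (aeval s) hc
  rw [map_sub, map_mul, hs, zero_mul] at this
  exact sub_eq_zero.1 this

theorem R_one (f : F[X]) : R Ω f 1 = 1 := by simp [R]

theorem R_ne_zero {f h : F[X]} (hc : IsCoprime h f) : R Ω f h ≠ 0 := by
  refine Multiset.prod_ne_zero fun h0 => ?_
  obtain ⟨s, hs, hs0⟩ := Multiset.mem_map.1 h0
  obtain ⟨a, b, hab⟩ := hc
  have := congrArg (aeval s) hab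
  simp [hs0, (mem_aroots.1 hs).2] at this

theorem prod_prod_sub (A B : Multiset Ω) :
    (A.map fun s => (B.map fun b => s - b).prod).prod =
      (-1) ^ (A.card * B.card) * (B.map fun b => (A.map fun s => b - s).prod).prod := by
  induction A using Multiset.induction_on with
  | empty => simp
  | cons a A ih =>
    have h1 : (B.map fun b => a - b).prod = (-1) ^ B.card * (B.map fun b => b - a).prod := by
      have := Multiset.prod_map_neg (B.map fun b => b - a)
      rw [Multiset.map_map, Multiset.card_map] at this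
      rw [← this]
      simp
    simp only [Multiset.map_cons, Multiset.prod_cons, Multiset.card_cons, Multiset.prod_map_mul,
      ih, h1]
    ring

variable [IsAlgClosed Ω]

theorem card_aroots (f : F[X]) : (f.aroots Ω).card = f.natDegree := by
  rw [aroots_def, ← (IsAlgClosed.splits _).natDegree_eq_card_roots, natDegree_map]

theorem aeval_eq_prod (h : F[X]) (s : Ω) :
    aeval s h = algebraMap F Ω h.leadingCoeff * ((h.aroots Ω).map fun b => s - b).prod := by
  rw [← eval_map_algebraMap, (IsAlgClosed.splits (h.map (algebraMap F Ω))).eval_eq_prod_roots,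
    leadingCoeff_map, aroots_def]

theorem R_swap {f : F[X]} (hf : f.Monic) (h : F[X]) :
    R Ω f h = (-1) ^ (f.natDegree * h.natDegree) * algebraMap F Ω h.leadingCoeff ^ f.natDegree *
      R Ω h f := by
  unfold R
  simp only [aeval_eq_prod h, aeval_eq_prod f, hf.leadingCoeff, map_one, one_mul,
    Multiset.prod_map_mul, Multiset.map_const', Multiset.prod_replicate]
  rw [prod_prod_sub, card_aroots, card_aroots]
  ring

variable [Fintype F]

omit [IsAlgClosed Ω] in
/-- The roots of an irreducible polynomial form one orbit of the Frobenius map. -/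
theorem orbit {P : F[X]} (hP : P.Monic) (hi : Irreducible P) {z : Ω} (hz : aeval z P = 0) :
    z ^ Fintype.card F ^ P.natDegree = z ∧
      Function.Injective (fun l : Fin P.natDegree => z ^ Fintype.card F ^ l.1) ∧
      P.map (algebraMap F Ω) = ∏ l : Fin P.natDegree, (X - C (z ^ Fintype.card F ^ l.1)) := by
  classical
  have : Fact (Irreducible P) := ⟨hi⟩
  let pb := AdjoinRoot.powerBasis hi.ne_zero
  have : Module.Finite F (AdjoinRoot P) := pb.finite
  have : Finite (AdjoinRoot P) := Module.finite_of_finite F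
  have hfr : Module.finrank F (AdjoinRoot P) = P.natDegree := pb.finrank
  let φ : AdjoinRoot P →ₐ[F] Ω := AdjoinRoot.liftAlgHom P (Algebra.ofId F Ω) z (by
    rw [← hz, aeval_def]; rfl)
  have hφ : φ (AdjoinRoot.root P) = z := by simp [φ]
  have hpow : ∀ (l : ℕ) (x : AdjoinRoot P),
      (FiniteField.frobeniusAlgHom F (AdjoinRoot P) ^ l) x = x ^ Fintype.card F ^ l := by
    intro l x
    rw [AlgHom.coe_pow, FiniteField.coe_frobeniusAlgHom, pow_iterate]
  have h1 : z ^ Fintype.card F ^ P.natDegree = z := by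
    have := congrArg (fun g : AdjoinRoot P →ₐ[F] AdjoinRoot P => φ (g (AdjoinRoot.root P)))
      (pow_orderOf_eq_one (FiniteField.frobeniusAlgHom F (AdjoinRoot P)))
    simpa only [FiniteField.orderOf_frobeniusAlgHom, hfr, hpow, map_pow, hφ, AlgHom.one_apply]
      using this
  have h2 : Function.Injective (fun l : Fin P.natDegree => z ^ Fintype.card F ^ l.1) := by
    intro l l' h
    have h3 : FiniteField.frobeniusAlgHom F (AdjoinRoot P) ^ l.1 =
        FiniteField.frobeniusAlgHom F (AdjoinRoot P) ^ l'.1 := by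
      refine AdjoinRoot.algHom_ext ?_
      apply φ.toRingHom.injective
      simpa [hpow, hφ] using h
    have h4 := pow_injOn_Iio_orderOf (x := FiniteField.frobeniusAlgHom F (AdjoinRoot P))
      (by simp [FiniteField.orderOf_frobeniusAlgHom, hfr])
      (by simp [FiniteField.orderOf_frobeniusAlgHom, hfr]) h3
    exact Fin.ext h4
  refine ⟨h1, h2, ?_⟩
  have hM' : (P.map (algebraMap F Ω)).Monic := hP.map _
  have hle : (univ.val.map fun l : Fin P.natDegree => z ^ Fintype.card F ^ l.1) ≤
      (P.map (algebraMap F Ω)).roots := by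
    rw [Multiset.le_iff_subset (Multiset.Nodup.map h2 univ.nodup)]
    intro x hx
    obtain ⟨i, -, rfl⟩ := Multiset.mem_map.1 hx
    refine (mem_roots hM'.ne_zero).2 ?_
    rw [IsRoot.def, eval_map_algebraMap]
    have h5 : z ^ Fintype.card F ^ i.1 = (FiniteField.frobeniusAlgHom F Ω ^ i.1) z := by
      rw [AlgHom.coe_pow, FiniteField.coe_frobeniusAlgHom, pow_iterate]
    rw [h5, aeval_algHom_apply, hz, map_zero]
  have hdvd := (Multiset.prod_X_sub_C_dvd_iff_le_roots hM'.ne_zero _).2 hle
  rw [Multiset.map_map] at hdvd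
  refine eq_of_monic_of_dvd_of_natDegree_le
    (monic_prod_of_monic _ _ fun i _ => monic_X_sub_C _) hM' hdvd ?_
  rw [hP.natDegree_map, natDegree_prod_of_monic _ _ (fun i _ => monic_X_sub_C _)]
  simp only [natDegree_X_sub_C]
  simp

omit [IsAlgClosed Ω] in
theorem aeval_pow_card (h : F[X]) (z : Ω) (l : ℕ) :
    aeval (z ^ Fintype.card F ^ l) h = aeval z h ^ Fintype.card F ^ l := by
  have h5 : ∀ y : Ω, y ^ Fintype.card F ^ l = (FiniteField.frobeniusAlgHom F Ω ^ l) y := by
    intro y
    rw [AlgHom.coe_pow, FiniteField.coe_frobeniusAlgHom, pow_iterate]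
  rw [h5, h5, aeval_algHom_apply]

omit [IsAlgClosed Ω] [Fintype F] in
theorem R_eq_prod {f : F[X]} {n : ℕ} {a : Fin n → Ω}
    (ha : f.map (algebraMap F Ω) = ∏ l, (X - C (a l))) (h : F[X]) :
    R Ω f h = ∏ l, aeval (a l) h := by
  rw [R, aroots_def, ha, Finset.prod_eq_multiset_prod,
    show (Multiset.map (fun l => X - C (a l)) univ.val) =
      (univ.val.map a).map (fun x => X - C x) by rw [Multiset.map_map]; rfl,
    roots_multiset_prod_X_sub_C, Multiset.map_map]
  rfl

omit [Fintype F] in
theorem exists_root {P : F[X]} (hi : Irreducible P) : ∃ z : Ω, aeval z P = 0 :=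
  IsAlgClosed.exists_aeval_eq_zero Ω P (degree_pos_of_irreducible hi).ne'

/-- The sign attached to an irreducible polynomial of degree `n`. -/
noncomputable def eps (Ω : Type*) [Field Ω] (e n : ℕ) : Ω :=
  (sgn n : Ω) ^ e * ((Equiv.Perm.sign (finRotate n) : ℤ) : Ω)

omit [IsAlgClosed Ω] in
theorem eps_ne_zero (e n : ℕ) : eps Ω e n ≠ 0 := by
  refine mul_ne_zero (pow_ne_zero _ fun h => ?_) fun h => ?_
  · have := congrArg (Int.cast : ℤ → Ω) (sgn_sq n)
    simp [h] at this
  · rcases Int.units_eq_one_or (Equiv.Perm.sign (finRotate n)) with h1 | h1 <;> simp [h1] at h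

/-- Pellet's formula for an irreducible polynomial. -/
theorem pellet {e : ℕ} (he : Fintype.card F = 2 * e + 1) {M : F[X]} (hM : M.Monic)
    (hi : Irreducible M) : R Ω M (derivative M) ^ e = eps Ω e M.natDegree := by
  obtain ⟨z, hz⟩ := exists_root (Ω := Ω) hi
  obtain ⟨h1, h2, h3⟩ := orbit hM hi hz
  have hpos := hi.natDegree_pos
  generalize M.natDegree = n at h1 h2 h3 hpos
  set a : Fin n → Ω := fun l => z ^ Fintype.card F ^ l.1 with ha
  have h4 : R Ω M (derivative M) = (sgn n : Ω) * (Matrix.vandermonde a).det ^ 2 := by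
    rw [R_eq_prod h3, ← prod_deriv_eq, ← h3]
    refine Finset.prod_congr rfl fun l _ => ?_
    rw [derivative_map, eval_map_algebraMap]
  have hδ : (Matrix.vandermonde a).det ≠ 0 := Matrix.det_vandermonde_ne_zero_iff.2 h2
  have hσ : ∀ i, a (finRotate n i) = a i ^ Fintype.card F := by
    intro i
    obtain ⟨k, rfl⟩ : ∃ k, n = k + 1 := ⟨n - 1, by omega⟩
    simp only [ha, ← pow_mul, ← pow_succ, finRotate_apply]
    by_cases hi : i = Fin.last k
    · subst hi
      simp [h1]
    · rw [Fin.val_add_one, if_neg hi]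
  have h5 : (Matrix.vandermonde a).det ^ Fintype.card F =
      ((Equiv.Perm.sign (finRotate n) : ℤ) : Ω) * (Matrix.vandermonde a).det := by
    rw [← Matrix.det_permute]
    have := RingHom.map_det (FiniteField.frobeniusAlgHom F Ω).toRingHom (Matrix.vandermonde a)
    refine Eq.trans this ?_
    congr 1
    ext i j
    rw [Matrix.submatrix_apply, Matrix.vandermonde_apply, hσ]
    simp [Matrix.vandermonde_apply, ← pow_mul, mul_comm]
  rw [he, pow_succ] at h5
  rw [h4, mul_pow, ← pow_mul, mul_right_cancel₀ hδ h5, eps]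

/-- There is a quadratic non-residue modulo an irreducible polynomial. -/
theorem exists_nonres {e : ℕ} (he : Fintype.card F = 2 * e + 1) {P : F[X]} (hP : P.Monic)
    (hi : Irreducible P) : ∃ η : F[X], IsCoprime η P ∧ R Ω P η ^ e = -1 := by
  classical
  obtain ⟨z, hz⟩ := exists_root (Ω := Ω) hi
  obtain ⟨-, -, h3⟩ := orbit hP hi hz
  have : Fact (Irreducible P) := ⟨hi⟩
  let pb := AdjoinRoot.powerBasis hi.ne_zero
  have : Module.Finite F (AdjoinRoot P) := pb.finite
  have : Finite (AdjoinRoot P) := Module.finite_of_finite F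
  have : Fintype (AdjoinRoot P) := Fintype.ofFinite _
  have hfr : Module.finrank F (AdjoinRoot P) = P.natDegree := pb.finrank
  have hcard : Fintype.card (AdjoinRoot P) = Fintype.card F ^ P.natDegree := by
    rw [Module.card_eq_pow_finrank (K := F), hfr]
  have hodd : Fintype.card (AdjoinRoot P) % 2 = 1 := by
    rw [hcard, he]
    exact Nat.odd_iff.1 (Odd.pow ⟨e, rfl⟩)
  have hch : ringChar (AdjoinRoot P) ≠ 2 := fun h => by
    have := FiniteField.even_card_of_char_two h
    omega
  obtain ⟨y, hy⟩ := FiniteField.exists_nonsquare hch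
  have hy0 : y ≠ 0 := by rintro rfl; exact hy IsSquare.zero
  have hy1 : y ^ (Fintype.card (AdjoinRoot P) / 2) = -1 :=
    (FiniteField.pow_dichotomy hch hy0).resolve_left fun h =>
      hy ((FiniteField.isSquare_iff hch hy0).2 h)
  obtain ⟨η, rfl⟩ := AdjoinRoot.mk_surjective y
  let φ : AdjoinRoot P →ₐ[F] Ω := AdjoinRoot.liftAlgHom P (Algebra.ofId F Ω) z (by
    rw [← hz, aeval_def]; rfl)
  have hφ : φ (AdjoinRoot.mk P η) = aeval z η := by
    rw [← AdjoinRoot.aeval_eq, ← aeval_algHom_apply]
    simp [φ]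
  refine ⟨η, (hi.coprime_iff_not_dvd.2 fun h => hy0 (AdjoinRoot.mk_eq_zero.2 h)).symm, ?_⟩
  have h6 := congrArg φ hy1
  rw [map_pow, hφ, map_neg, map_one] at h6
  rw [R_eq_prod h3, ← h6]
  simp only [aeval_pow_card]
  rw [Finset.prod_pow_eq_pow_sum, ← pow_mul]
  congr 1
  rw [Fin.sum_univ_eq_sum_range (fun l => Fintype.card F ^ l), hcard, he]
  have h7 := geom_sum_mul_add (2 * e) P.natDegree
  have h8 : (∑ i ∈ range P.natDegree, (2 * e + 1) ^ i) * (2 * e) =
      2 * ((∑ i ∈ range P.natDegree, (2 * e + 1) ^ i) * e) := by ring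
  omega

end Pool.Agent.MP_9b2bac_nt.Res

end

section

/- Twisted Carlitz operators and their reductions. -/

set_option autoImplicit false

namespace Pool.Agent.MP_9b2bac_nt.Insep

open Polynomial Finset
open Pool.Agent.MP_9b2bac_nt.Res

variable (F : Type*) [Field F] [Fintype F]

section Op

variable {A B : Type*} [CommRing A] [Algebra F A] [CommRing B] [Algebra F B]

/-- The operator `x ↦ t x + b x ^ q`. -/
noncomputable def Lop (t b : A) : Module.End F A :=
  LinearMap.mulLeft F t + LinearMap.mulLeft F b ∘ₗ (FiniteField.frobeniusAlgHom F A).toLinearMap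

variable {F}

theorem Lop_apply (t b x : A) : Lop F t b x = t * x + b * x ^ Fintype.card F := rfl

theorem map_Lop_pow (φ : A →ₐ[F] B) (t b x : A) (n : ℕ) :
    φ ((Lop F t b ^ n) x) = (Lop F (φ t) (φ b) ^ n) (φ x) := by
  induction n with
  | zero => simp
  | succ n ih =>
    rw [pow_succ', pow_succ', Module.End.mul_apply, Module.End.mul_apply, Lop_apply, Lop_apply,
      ← ih]
    simp

theorem map_aeval_Lop (φ : A →ₐ[F] B) (t b x : A) (P : F[X]) :
    φ (aeval (Lop F t b) P x) = aeval (Lop F (φ t) (φ b)) P (φ x) := by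
  rw [aeval_endomorphism, aeval_endomorphism, Polynomial.sum, Polynomial.sum, map_sum]
  exact Finset.sum_congr rfl fun n _ => by rw [map_smul, map_Lop_pow]

theorem aeval_Lop_zero (t : A) (P : F[X]) : aeval (Lop F t 0) P 1 = aeval t P := by
  have h : ∀ n : ℕ, (Lop F t 0 ^ n) 1 = t ^ n := by
    intro n
    induction n with
    | zero => simp
    | succ n ih => rw [pow_succ', Module.End.mul_apply, ih, Lop_apply, pow_succ']; simp
  rw [aeval_endomorphism, aeval_def, eval₂_eq_sum]
  exact Finset.sum_congr rfl fun n _ => by simp only [h, Algebra.smul_def]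

theorem Lop_twist (t a : A) (n : ℕ) :
    (Lop F t 1 ^ n) a = a * (Lop F t (a ^ (Fintype.card F - 1)) ^ n) 1 := by
  induction n with
  | zero => simp
  | succ n ih =>
    have hq : Fintype.card F - 1 + 1 = Fintype.card F := Nat.sub_add_cancel Fintype.card_pos
    rw [pow_succ', pow_succ', Module.End.mul_apply, Module.End.mul_apply, Lop_apply, Lop_apply, ih,
      mul_pow]
    conv_lhs => rw [← hq, pow_succ' a, hq]
    ring

theorem aeval_Lop_twist (t a : A) (P : F[X]) :
    aeval (Lop F t 1) P a = a * aeval (Lop F t (a ^ (Fintype.card F - 1))) P 1 := by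
  rw [aeval_endomorphism, aeval_endomorphism, Polynomial.sum, Polynomial.sum, Finset.mul_sum]
  exact Finset.sum_congr rfl fun n _ => by rw [Lop_twist, mul_smul_comm]

end Op

variable {F}

/-- The Mersenne element attached to `P`. -/
noncomputable def mer (T a P : F[X]) : F[X] := aeval (Lop F T (a ^ (Fintype.card F - 1))) P 1

theorem carlitz_eq_aeval (T P a : F[X]) : carlitz T P a = aeval (Lop F T 1) P a := by
  have : lin F T = Lop F T 1 := LinearMap.ext fun x => by rw [Lop_apply, lin_apply, one_mul]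
  rw [carlitz_eq, this]

theorem carlitz_eq_mul (T P a : F[X]) : carlitz T P a = a * mer T a P := by
  rw [carlitz_eq_aeval, aeval_Lop_twist, mer]

theorem carlitz_div (T P : F[X]) {a : F[X]} (ha : a ≠ 0) : carlitz T P a / a = mer T a P := by
  rw [carlitz_eq_mul, mul_div_cancel_left₀ _ ha]

theorem derivative_aeval_Lop {T : F[X]} (hT : derivative T = 0) (P a : F[X]) :
    derivative (aeval (Lop F T 1) P a) = aeval T P * derivative a := by
  have h : ∀ n : ℕ, derivative ((Lop F T 1 ^ n) a) = T ^ n * derivative a := by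
    intro n
    induction n with
    | zero => simp
    | succ n ih =>
      rw [pow_succ', Module.End.mul_apply, Lop_apply, one_mul, derivative_add, derivative_mul, hT,
        ih, derivative_pow, FiniteField.cast_card_eq_zero]
      simp only [map_zero, zero_mul, zero_add, add_zero]
      ring
  rw [aeval_endomorphism, aeval_def, eval₂_eq_sum, Polynomial.sum, Polynomial.sum, map_sum,
    Finset.sum_mul]
  exact Finset.sum_congr rfl fun n _ => by
    rw [map_smul, h, Algebra.smul_def, mul_assoc]

theorem mul_derivative_mer {T : F[X]} (hT : derivative T = 0) (P a : F[X]) :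
    a * derivative (mer T a P) = derivative a * (aeval T P - mer T a P) := by
  have h := derivative_aeval_Lop hT P a
  rw [aeval_Lop_twist, derivative_mul] at h
  unfold mer
  linear_combination h

/-- Monicity and degrees of the iterates. -/
theorem iter_monic {T a : F[X]} (hT : T.Monic) (hodd : Odd T.natDegree)
    (hq : Odd (Fintype.card F)) (ha : a ≠ 0) (n : ℕ) :
    ((Lop F T (a ^ (Fintype.card F - 1)) ^ n) 1).Monic ∧
      ((Lop F T (a ^ (Fintype.card F - 1)) ^ n) 1).natDegree <
        ((Lop F T (a ^ (Fintype.card F - 1)) ^ (n + 1)) 1).natDegree := by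
  have hb : (a ^ (Fintype.card F - 1)).Monic := by
    rw [Monic, leadingCoeff_pow]
    exact FiniteField.pow_card_sub_one_eq_one _ (leadingCoeff_ne_zero.2 ha)
  have step : ∀ w : F[X], w.Monic → (Lop F T (a ^ (Fintype.card F - 1)) w).Monic ∧
      w.natDegree < (Lop F T (a ^ (Fintype.card F - 1)) w).natDegree := by
    intro w hw
    rw [Lop_apply]
    have h1 : (T * w).Monic := hT.mul hw
    have h2 : (a ^ (Fintype.card F - 1) * w ^ Fintype.card F).Monic := hb.mul (hw.pow _)
    have d1 : (T * w).natDegree = T.natDegree + w.natDegree := hT.natDegree_mul hw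
    have d2 : (a ^ (Fintype.card F - 1) * w ^ Fintype.card F).natDegree =
        (Fintype.card F - 1) * a.natDegree + Fintype.card F * w.natDegree := by
      rw [hb.natDegree_mul (hw.pow _), natDegree_pow, natDegree_pow]
    obtain ⟨e, he⟩ := hq
    obtain ⟨t, ht⟩ := hodd
    have hne : (T * w).natDegree ≠ (a ^ (Fintype.card F - 1) * w ^ Fintype.card F).natDegree := by
      rw [d1, d2, he, ht, Nat.add_sub_cancel]
      intro h
      have : 2 * e * a.natDegree + (2 * e + 1) * w.natDegree =
        2 * (e * a.natDegree + e * w.natDegree) + w.natDegree := by ring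
      omega
    rcases lt_or_gt_of_ne hne with h | h
    · refine ⟨h2.add_of_right (degree_lt_degree h), ?_⟩
      rw [natDegree_add_eq_right_of_natDegree_lt h]
      omega
    · refine ⟨h1.add_of_left (degree_lt_degree h), ?_⟩
      rw [natDegree_add_eq_left_of_natDegree_lt h]
      omega
  have hm : ∀ n, ((Lop F T (a ^ (Fintype.card F - 1)) ^ n) 1).Monic := by
    intro n
    induction n with
    | zero => simp
    | succ n ih => rw [pow_succ', Module.End.mul_apply]; exact (step _ ih).1
  refine ⟨hm n, ?_⟩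
  rw [pow_succ', Module.End.mul_apply]
  exact (step _ (hm n)).2

theorem mer_monic {T a : F[X]} (hT : T.Monic) (hodd : Odd T.natDegree)
    (hq : Odd (Fintype.card F)) (ha : a ≠ 0) {P : F[X]} (hP : P.Monic) :
    (mer T a P).Monic ∧ (mer T a P).natDegree =
      ((Lop F T (a ^ (Fintype.card F - 1)) ^ P.natDegree) 1).natDegree := by
  set w : ℕ → F[X] := fun n => (Lop F T (a ^ (Fintype.card F - 1)) ^ n) 1 with hw
  have hm : ∀ n, (w n).Monic := fun n => (iter_monic hT hodd hq ha n).1
  have hs : StrictMono fun n => (w n).natDegree :=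
    strictMono_nat_of_lt_succ fun n => (iter_monic hT hodd hq ha n).2
  have h1 : mer T a P = w P.natDegree + ∑ n ∈ range P.natDegree, P.coeff n • w n := by
    rw [mer, aeval_endomorphism, Polynomial.sum_over_range _ (by simp), Finset.sum_range_succ,
      hP.coeff_natDegree, one_smul, add_comm]
  have h2 : (∑ n ∈ range P.natDegree, P.coeff n • w n).degree < (w P.natDegree).degree := by
    refine (degree_sum_le _ _).trans_lt ?_
    rw [Finset.sup_lt_iff (by rw [bot_lt_iff_ne_bot, Ne, degree_eq_bot]; exact (hm _).ne_zero)]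
    intro n hn
    exact (degree_smul_le _ _).trans_lt (degree_lt_degree (hs (mem_range.1 hn)))
  rw [h1]
  exact ⟨(hm _).add_of_left h2, natDegree_add_eq_left_of_degree_lt h2⟩

/-- Periodicity of the Mersenne elements modulo a fixed polynomial. -/
theorem exists_period (T a : F[X]) {W : F[X]} (hW : W ≠ 0) :
    ∃ m : F[X], m.Monic ∧ m.natDegree = W.natDegree ∧
      ∀ P P' : F[X], m ∣ P - P' → W ∣ mer T a P - mer T a P' := by
  let pb := AdjoinRoot.powerBasis hW
  have : Module.Finite F (AdjoinRoot W) := pb.finite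
  let φ : F[X] →ₐ[F] AdjoinRoot W := AdjoinRoot.mkₐ W
  let L : Module.End F (AdjoinRoot W) := Lop F (φ T) (φ (a ^ (Fintype.card F - 1)))
  refine ⟨L.charpoly, L.charpoly_monic, by rw [L.charpoly_natDegree]; exact pb.finrank, ?_⟩
  rintro P P' ⟨c, hc⟩
  rw [← AdjoinRoot.mk_eq_mk]
  change φ _ = φ _
  rw [mer, mer, map_aeval_Lop, map_aeval_Lop, eq_add_of_sub_eq hc, map_add, map_mul,
    LinearMap.aeval_self_charpoly, zero_mul, zero_add]

section Closed

variable {Ω : Type*} [Field Ω] [Algebra F Ω]

/-- The Carlitz action of a prime reduces to a power of the Frobenius map. -/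
theorem aeval_Lop_root {P : F[X]} (hP : P.Monic) (hi : Irreducible P) {θ : Ω}
    (hθ : aeval θ P = 0) (x : Ω) :
    aeval (Lop F θ 1) P x = x ^ Fintype.card F ^ P.natDegree := by
  let E : Ω → Polynomial Ω →ₗ[Ω] Ω := fun x =>
    Polynomial.lsum fun n => LinearMap.mulRight Ω ((Lop F θ 1 ^ n) x)
  have hE : ∀ x n c, E x (monomial n c) = c * (Lop F θ 1 ^ n) x := by
    intro x n c
    simp [E]
  have h1 : ∀ x g, E x (g * X) = E (Lop F θ 1 x) g := by
    intro x g
    induction g using Polynomial.induction_on' with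
    | add p q hp hq => rw [add_mul, map_add, map_add, hp, hq]
    | monomial n c => rw [monomial_mul_X, hE, hE, pow_succ, Module.End.mul_apply]
  have h2 : ∀ (i : ℕ) (x : Ω),
      E x (∏ l ∈ range i, (X - C (θ ^ Fintype.card F ^ l))) = x ^ Fintype.card F ^ i := by
    intro i
    induction i with
    | zero =>
      intro x
      have := hE x 0 1
      simpa using this
    | succ i ih =>
      intro x
      have h5 : ∀ y : Ω, y ^ Fintype.card F ^ i = (FiniteField.frobeniusAlgHom F Ω ^ i) y := by
        intro y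
        rw [AlgHom.coe_pow, FiniteField.coe_frobeniusAlgHom, pow_iterate]
      rw [Finset.prod_range_succ, mul_sub, map_sub, h1, ih, mul_comm _ (C _), ← smul_eq_C_mul,
        map_smul, ih, Lop_apply, one_mul, pow_succ', pow_mul, smul_eq_mul]
      simp only [h5, map_add, map_mul]
      ring
  have h3 : ∀ Q : F[X], E x (Q.map (algebraMap F Ω)) = aeval (Lop F θ 1) Q x := by
    intro Q
    induction Q using Polynomial.induction_on' with
    | add p q hp hq => rw [Polynomial.map_add, map_add, map_add, LinearMap.add_apply, hp, hq]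
    | monomial n c =>
      rw [map_monomial, hE, aeval_monomial, Module.End.mul_apply, Module.algebraMap_end_apply,
        Algebra.smul_def]
  rw [← h3, (orbit hP hi hθ).2.2,
    Fin.prod_univ_eq_prod_range (fun l => X - C (θ ^ Fintype.card F ^ l)), h2]

theorem aeval_mer_of_root {T a P : F[X]} {s : Ω} (hs : aeval s a = 0) :
    aeval s (mer T a P) = aeval s (aeval T P) := by
  have hq : Fintype.card F - 1 ≠ 0 := by have := Fintype.one_lt_card (α := F); omega
  rw [mer, map_aeval_Lop, map_pow, hs, zero_pow hq, map_one, aeval_Lop_zero, aeval_algHom_apply]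

theorem aeval_mer_eq_one {T a P : F[X]} (hP : P.Monic) (hi : Irreducible P) {s : Ω}
    (hs : aeval s (aeval T P) = 0) (hfix : s ^ Fintype.card F ^ P.natDegree = s)
    (ha : aeval s a ≠ 0) : aeval s (mer T a P) = 1 := by
  have h1 := congrArg (aeval s) (aeval_Lop_twist T a P)
  rw [map_aeval_Lop, map_one, aeval_Lop_root hP hi (by rwa [aeval_algHom_apply]),
    ← aeval_pow_card, hfix, map_mul] at h1
  exact (mul_left_cancel₀ ha (h1.symm.trans (mul_one _).symm))

end Closed

end Pool.Agent.MP_9b2bac_nt.Insep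

end

section

/- At least half of the Carlitz-Mersenne elements over a purely inseparable extension are
composite. -/

set_option autoImplicit false

namespace Pool.Agent.MP_9b2bac_nt.Insep

open Polynomial Finset Filter
open Pool.Agent.MP_9b2bac_nt.Res

variable {F : Type*} [Field F] [Fintype F]

theorem exists_VW {a : F[X]} (ha' : derivative a ≠ 0) :
    ∃ V W : F[X], V ∣ a ∧ W ≠ 0 ∧ V.Separable ∧ W.natDegree < V.natDegree ∧
      V * derivative a = W * a := by
  classical
  have ha : a ≠ 0 := by rintro rfl; simp at ha'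
  obtain ⟨g, ⟨V, hV⟩, ⟨W, hW⟩, x, y, hxy⟩ : ∃ g : F[X], g ∣ a ∧ g ∣ derivative a ∧
      ∃ x y, g = a * x + derivative a * y :=
    ⟨_, EuclideanDomain.gcd_dvd_left _ _, EuclideanDomain.gcd_dvd_right _ _, _, _,
      EuclideanDomain.gcd_eq_gcd_ab a (derivative a)⟩
  have hg0 : g ≠ 0 := by rintro rfl; exact ha (by simpa using hV)
  have hV0 : V ≠ 0 := by rintro rfl; exact ha (by simpa using hV)
  have hW0 : W ≠ 0 := by rintro rfl; exact ha' (by simpa using hW)
  have hcop : IsCoprime V W := by
    refine ⟨x, y, mul_left_cancel₀ hg0 ?_⟩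
    linear_combination -hxy - x * hV - y * hW
  refine ⟨V, W, Dvd.intro_left _ hV.symm, hW0, ?_, ?_, by linear_combination V * hW - W * hV⟩
  · rw [PerfectField.separable_iff_squarefree,
      squarefree_iff_irreducible_sq_not_dvd_of_ne_zero hV0]
    intro π hπ hdvd
    have hfin : FiniteMultiplicity π g := FiniteMultiplicity.of_prime_left hπ.prime hg0
    obtain ⟨u, hu, hnu⟩ := hfin.exists_eq_pow_mul_and_not_dvd
    generalize multiplicity π g = k at hu
    have h1 : π ^ (k + 2) ∣ a := by
      rw [hV, pow_add, sq]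
      exact mul_dvd_mul (Dvd.intro _ hu.symm) hdvd
    have h2 := pow_sub_one_dvd_derivative_of_pow_dvd h1
    rw [show k + 2 - 1 = k + 1 by omega] at h2
    rw [hW, hu, pow_succ, mul_assoc, mul_dvd_mul_iff_left (pow_ne_zero _ hπ.ne_zero)] at h2
    have h3 : π ∣ W := (hπ.prime.dvd_or_dvd h2).resolve_left hnu
    exact hπ.not_isUnit (hcop.isUnit_of_dvd' (dvd_of_mul_left_dvd hdvd) h3)
  · have h1 : (derivative a).natDegree < a.natDegree :=
      natDegree_derivative_lt (fun h => ha' (derivative_of_natDegree_zero h))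
    rw [hW] at h1
    nth_rewrite 1 [hV] at h1
    rw [natDegree_mul hg0 hV0, natDegree_mul hg0 hW0] at h1
    omega

section

variable {Ω : Type*} [Field Ω] [Algebra F Ω] [IsAlgClosed Ω]

omit [Fintype F] in
theorem aroots_twist (p : ℕ) [Fact p.Prime] [CharP F p] (j : ℕ) (V : F[X]) :
    (V.map (iterateFrobenius F p j)).aroots Ω = (V.aroots Ω).map fun s => s ^ p ^ j := by
  have : CharP Ω p := charP_of_injective_algebraMap (algebraMap F Ω).injective p
  have h : (V.map (iterateFrobenius F p j)).map (algebraMap F Ω) =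
      (V.map (algebraMap F Ω)).map (iterateFrobenius Ω p j) := by
    rw [Polynomial.map_map, Polynomial.map_map]
    congr 1
    ext c
    simp [iterateFrobenius_def]
  rw [aroots_def, h, (IsAlgClosed.splits _).roots_map, aroots_def]
  rfl

omit [Fintype F] in
theorem R_twist (p : ℕ) [Fact p.Prime] [CharP F p] (j : ℕ) (V P : F[X]) :
    R Ω V (aeval (X ^ p ^ j : F[X]) P) = R Ω (V.map (iterateFrobenius F p j)) P := by
  rw [R, R, aroots_twist, Multiset.map_map]
  congr 1
  refine Multiset.map_congr rfl fun s _ => ?_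
  rw [← aeval_algHom_apply]
  simp

theorem exists_eta {e : ℕ} (he : Fintype.card F = 2 * e + 1) {U m : F[X]} (hU : U.Separable)
    (hm : m ≠ 0) (hdeg : m.natDegree < U.natDegree) :
    ∃ μ η : F[X], μ ≠ 0 ∧ IsCoprime η μ ∧ m ∣ μ ∧ U ∣ μ ∧ m ∣ η - 1 ∧ R Ω U η ^ e = -1 := by
  classical
  have hU0 : U ≠ 0 := hU.ne_zero
  obtain ⟨z, hz, hzm⟩ : ∃ z ∈ U.aroots Ω, aeval z m ≠ 0 := by
    by_contra! h
    have h1 : U.aroots Ω ≤ m.aroots Ω := by
      rw [Multiset.le_iff_subset (nodup_roots hU.map)]
      intro z hz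
      exact mem_aroots.2 ⟨hm, h z hz⟩
    have := Multiset.card_le_card h1
    rw [card_aroots, card_aroots] at this
    omega
  have hzU := (mem_aroots.1 hz).2
  have hint : IsIntegral F z := (IsAlgebraic.isIntegral ⟨U, hU0, hzU⟩)
  set π := minpoly F z with hπ
  have hπi : Irreducible π := minpoly.irreducible hint
  obtain ⟨V₁, hV₁⟩ : π ∣ U := minpoly.dvd F z hzU
  have hV0 : V₁ ≠ 0 := by rintro rfl; exact hU0 (by simpa using hV₁)
  have hc1 : IsCoprime π V₁ := (hV₁ ▸ hU : (π * V₁).Separable).isCoprime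
  have hc2 : IsCoprime π m := hπi.coprime_iff_not_dvd.2 fun h => hzm (by
    obtain ⟨c, rfl⟩ := h
    rw [map_mul, minpoly.aeval, zero_mul])
  obtain ⟨a, b, hab⟩ := hc2.mul_right hc1
  obtain ⟨η₀, hη₀, hR⟩ := exists_nonres (Ω := Ω) he (minpoly.monic hint) hπi
  have h1 : m * V₁ ∣ (a * π + b * (m * V₁) * η₀) - 1 :=
    ⟨b * η₀ - b, by linear_combination hab⟩
  have h2 : π ∣ (a * π + b * (m * V₁) * η₀) - η₀ :=
    ⟨a - a * η₀, by linear_combination η₀ * hab⟩
  refine ⟨π * (m * V₁), a * π + b * (m * V₁) * η₀,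
    mul_ne_zero hπi.ne_zero (mul_ne_zero hm hV0), IsCoprime.mul_right ?_ ?_,
    ⟨π * V₁, by ring⟩, ⟨m, by rw [hV₁]; ring⟩, (dvd_mul_right _ _).trans h1, ?_⟩
  · obtain ⟨c, hc⟩ := h2
    rw [eq_add_of_sub_eq hc, add_comm]
    exact hη₀.add_mul_left_left _
  · obtain ⟨c, hc⟩ := h1
    rw [eq_add_of_sub_eq hc, add_comm]
    exact isCoprime_one_left.add_mul_left_left _
  · rw [hV₁, R_mul_left (hV₁ ▸ hU0), R_congr_dvd h2,
      R_congr_dvd ((dvd_mul_left _ _).trans h1), R_one, mul_one, hR]

/-- The parity condition satisfied by an irreducible Mersenne element. -/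
theorem parity {e : ℕ} (he : Fintype.card F = 2 * e + 1) (p : ℕ) [Fact p.Prime] [CharP F p]
    {j : ℕ} (hj : j ≠ 0) (hp : Odd p) {a V W P : F[X]} (ha : a ≠ 0) (hVa : V ∣ a)
    (hVW : V * derivative a = W * a) (hP : P.Monic) (hi : Irreducible P)
    (hd : a.natDegree < P.natDegree) (hM : Irreducible (mer (X ^ p ^ j) a P)) {n : ℕ}
    (hn : (mer (X ^ p ^ j) a P).natDegree = n) :
    ((-1) ^ (n * V.natDegree) * algebraMap F Ω V.leadingCoeff ^ n) ^ e * eps Ω e n *
        R Ω (V.map (iterateFrobenius F p j)) P ^ e =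
      ((-1) ^ (n * W.natDegree) * algebraMap F Ω W.leadingCoeff ^ n) ^ e *
        ((-1) ^ (n * (P.natDegree * p ^ j))) ^ e * R Ω W (mer (X ^ p ^ j) a P) ^ e := by
  have : CharP Ω p := charP_of_injective_algebraMap (algebraMap F Ω).injective p
  set T : F[X] := X ^ p ^ j with hT
  set M := mer T a P with hMdef
  have hT' : derivative T = 0 := by
    rw [hT, derivative_X_pow, Nat.cast_pow, CharP.cast_eq_zero, zero_pow hj]
    simp
  have hMm : M.Monic := (mer_monic (monic_X_pow _) (by rw [natDegree_X_pow]; exact hp.pow)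
    ⟨e, he⟩ ha hP).1
  have hPT : aeval T P = P.comp T := (comp_eq_aeval).symm
  have hPTm : (aeval T P).Monic := by
    rw [hPT]
    exact hP.comp (monic_X_pow _) (by
      rw [natDegree_X_pow]; exact pow_ne_zero _ (Fact.out : p.Prime).ne_zero)
  have hPTd : (aeval T P).natDegree = P.natDegree * p ^ j := by
    rw [hPT, natDegree_comp, natDegree_X_pow]
  have h0 : V * derivative M = W * (aeval T P - M) := by
    refine mul_left_cancel₀ ha ?_
    have := mul_derivative_mer hT' P a
    linear_combination V * this + (aeval T P - M) * hVW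
  have h1 : R Ω M V * R Ω M (derivative M) = R Ω M W * R Ω M (aeval T P) := by
    rw [← R_mul_right, ← R_mul_right, h0]
    exact R_congr_dvd ⟨-W, by ring⟩
  have h2 : R Ω V M = R Ω (V.map (iterateFrobenius F p j)) P := by
    rw [← R_twist]
    refine R_congr fun s hs => aeval_mer_of_root ?_
    obtain ⟨c, rfl⟩ := hVa
    rw [map_mul, hs, zero_mul]
  have h3 : R Ω (aeval T P) M = 1 := by
    rw [← R_one (Ω := Ω) (aeval T P)]
    refine R_congr fun s hs => ?_
    have hs' : aeval (s ^ p ^ j) P = 0 := by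
      rw [← aeval_algHom_apply] at hs
      simpa [hT] using hs
    rw [map_one]
    refine aeval_mer_eq_one hP hi hs ?_ fun h => ?_
    · apply (iterateFrobenius Ω p j).injective
      rw [iterateFrobenius_def, iterateFrobenius_def, ← pow_mul, mul_comm, pow_mul]
      exact (orbit hP hi hs').1
    · have h4 : s ^ p ^ j ∈ (a.map (iterateFrobenius F p j)).aroots Ω := by
        rw [aroots_twist]
        exact Multiset.mem_map.2 ⟨s, mem_aroots.2 ⟨ha, h⟩, rfl⟩
      obtain ⟨h5, h6⟩ := mem_aroots.1 h4
      have h7 : P ∣ a.map (iterateFrobenius F p j) := by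
        rw [minpoly.eq_of_irreducible_of_monic hi hs' hP]
        exact minpoly.dvd F _ h6
      have := natDegree_le_of_dvd h7 h5
      rw [natDegree_map] at this
      omega
  rw [R_swap hMm V, R_swap hMm W, R_swap hMm (aeval T P), h2, h3, hPTm.leadingCoeff, hPTd, hn]
    at h1
  have h4 := congrArg (· ^ e) h1
  simp only [mul_pow, pellet he hMm hM, hn, map_one, one_pow, mul_one] at h4
  simp only [mul_pow]
  linear_combination h4

end

theorem half_composite (p : ℕ) [Fact p.Prime] [CharP F p] (hp : p ≠ 2) {j : ℕ} (hj : j ≠ 0)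
    {a : F[X]} (ha : a ≠ 0) {ε : ℝ} (hε : 0 < ε) : ∀ᶠ d : ℕ in atTop,
      ({P : F[X] | P.Monic ∧ Irreducible P ∧ P.natDegree = d ∧
          Irreducible (carlitz (X ^ p ^ j) P a / a)}.ncard : ℝ) ≤
        (1 / 2 + ε) * {P : F[X] | P.Monic ∧ Irreducible P ∧ P.natDegree = d}.ncard := by
  have hpo : Odd p := (Fact.out : p.Prime).odd_of_ne_two hp
  obtain ⟨e, he⟩ : Odd (Fintype.card F) := by
    obtain ⟨n, -, hn⟩ := FiniteField.card F p
    rw [hn]
    exact hpo.pow
  simp only [carlitz_div _ _ ha]
  have hT' : derivative (X ^ p ^ j : F[X]) = 0 := by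
    rw [derivative_X_pow, Nat.cast_pow, CharP.cast_eq_zero, zero_pow hj]
    simp
  by_cases ha' : derivative a = 0
  · refine Eventually.of_forall fun d => ?_
    have : {P : F[X] | P.Monic ∧ Irreducible P ∧ P.natDegree = d ∧
        Irreducible (mer (X ^ p ^ j) a P)} = ∅ := by
      refine Set.eq_empty_of_forall_notMem fun P hP => ?_
      have h1 := mul_derivative_mer hT' P a
      rw [ha', zero_mul, mul_eq_zero, or_iff_right ha] at h1
      have h2 := PerfectField.separable_of_irreducible hP.2.2.2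
      rw [Separable, h1, isCoprime_zero_right] at h2
      exact hP.2.2.2.not_isUnit h2
    rw [this, Set.ncard_empty, Nat.cast_zero]
    positivity
  obtain ⟨V, W, hVa, hW0, hV, hdeg, hVW⟩ := exists_VW ha'
  obtain ⟨m, hm, hmd, hper⟩ := exists_period (X ^ p ^ j) a hW0
  let Ω := AlgebraicClosure F
  set U := V.map (iterateFrobenius F p j) with hU
  obtain ⟨μ, η, hμ, hη, hmμ, hUμ, hη1, hR⟩ := exists_eta (Ω := Ω) he (U := U) hV.map hm.ne_zero
    (by rw [hU, natDegree_map]; omega)
  filter_upwards [Pnt.half_bound hμ hη hε, eventually_gt_atTop a.natDegree] with d h1 h2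
  set n := ((Lop F (X ^ p ^ j) (a ^ (Fintype.card F - 1)) ^ d) 1).natDegree with hn
  set c₁ : Ω := ((-1) ^ (n * V.natDegree) * algebraMap F Ω V.leadingCoeff ^ n) ^ e * eps Ω e n
    with hc₁
  set c₂ : Ω := ((-1) ^ (n * W.natDegree) * algebraMap F Ω W.leadingCoeff ^ n) ^ e *
    ((-1) ^ (n * (d * p ^ j))) ^ e with hc₂
  have hc : c₁ ≠ 0 := by
    refine mul_ne_zero (pow_ne_zero _ (mul_ne_zero (pow_ne_zero _ (by simp)) (pow_ne_zero _ ?_)))
      (eps_ne_zero e n)
    simpa using hV.ne_zero
  refine le_trans ?_ (h1 (fun P => c₁ * R Ω U P ^ e = c₂ * R Ω W (mer (X ^ p ^ j) a P) ^ e) ?_ ?_)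
  · refine Nat.cast_le.2 (Set.ncard_le_ncard ?_ ((Pnt.finite_mon d).subset fun P hP =>
      ⟨hP.1, hP.2.2.1⟩))
    rintro P ⟨hP, hi, hd, hM⟩
    refine ⟨hP, hi, hd, ?_⟩
    have := parity (Ω := Ω) he p hj hpo ha hVa hVW hP hi (by omega) hM (n := n) (by
      rw [hn, ← hd]
      exact (mer_monic (monic_X_pow _) (by rw [natDegree_X_pow]; exact hpo.pow) ⟨e, he⟩ ha hP).2)
    rwa [hd] at this
  · intro P P' hPP h
    rwa [← R_congr_dvd (hUμ.trans hPP), ← R_congr_dvd (hper P P' (hmμ.trans hPP))]
  · intro P hP h h'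
    have h3 : m ∣ η * P - P := by
      rw [← sub_one_mul]
      exact hη1.mul_right _
    rw [R_congr_dvd (hper _ _ h3), ← h, R_mul_right, mul_pow, hR] at h'
    have h4 : R Ω U P ≠ 0 := R_ne_zero (hP.of_isCoprime_of_dvd_right hUμ)
    have h5 : (2 : Ω) ≠ 0 := by
      have : CharP Ω p := charP_of_injective_algebraMap (algebraMap F Ω).injective p
      intro h
      have h6 := (CharP.cast_eq_zero_iff Ω p 2).1 (by exact_mod_cast h)
      exact hp ((Nat.prime_dvd_prime_iff_eq Fact.out Nat.prime_two).1 h6)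
    exact mul_ne_zero h5 (mul_ne_zero hc (pow_ne_zero e h4)) (by linear_combination -h')

end Pool.Agent.MP_9b2bac_nt.Insep

end
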