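import Mathlib

section

/- Weighted degree bounds and the zero count for the auxiliary function argument. -/

set_option autoImplicit false

namespace Pool.Agent.MP_9b2bac_nt.Z.ZStep

open Polynomial

variable {k : Type} [Field k]

/-- Weighted degree at most `N`, inner variable of weight one, outer variable of weight `c`. -/
def WB (c N : ℕ) (g : k[X][X]) : Prop := ∀ i j, (g.coeff i).coeff j ≠ 0 → j + c * i ≤ N

variable {c : ℕ}

theorem WB.mono {N N' : ℕ} {g : k[X][X]} (h : WB c N g) (hN : N ≤ N') : WB c N' g :=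
  fun i j hij => (h i j hij).trans hN

theorem WB.zero (N : ℕ) : WB c N (0 : k[X][X]) := fun i j h => by simp at h

theorem WB.add {N : ℕ} {g g' : k[X][X]} (h : WB c N g) (h' : WB c N g') : WB c N (g + g') :=
  fun i j hij => by
    by_cases h0 : (g.coeff i).coeff j = 0
    · exact h' i j (by simpa [h0] using hij)
    · exact h i j h0

theorem WB.neg {N : ℕ} {g : k[X][X]} (h : WB c N g) : WB c N (-g) :=
  fun i j hij => h i j (by simpa using hij)

theorem WB.sub {N : ℕ} {g g' : k[X][X]} (h : WB c N g) (h' : WB c N g') : WB c N (g - g') := by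
  rw [sub_eq_add_neg]; exact h.add h'.neg

theorem WB.sum {ι : Type} {N : ℕ} (s : Finset ι) (f : ι → k[X][X]) (h : ∀ i ∈ s, WB c N (f i)) :
    WB c N (∑ i ∈ s, f i) :=
  Finset.sum_induction f (WB c N) (fun _ _ => WB.add) (WB.zero N) h

theorem WB.mul {N N' : ℕ} {g g' : k[X][X]} (h : WB c N g) (h' : WB c N' g') :
    WB c (N + N') (g * g') := fun i j hij => by
  rw [coeff_mul, finsetSum_coeff] at hij
  obtain ⟨x, hx, h1⟩ := Finset.exists_ne_zero_of_sum_ne_zero hij
  rw [coeff_mul] at h1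
  obtain ⟨y, hy, h2⟩ := Finset.exists_ne_zero_of_sum_ne_zero h1
  have h3 := h _ _ (left_ne_zero_of_mul h2)
  have h4 := h' _ _ (right_ne_zero_of_mul h2)
  rw [Finset.HasAntidiagonal.mem_antidiagonal] at hx hy
  rw [← hx, ← hy, mul_add]
  omega

theorem WB.C {N : ℕ} {f : k[X]} (h : f.natDegree ≤ N) : WB c N (C f) := fun i j hij => by
  rw [coeff_C] at hij
  split_ifs at hij with hi
  · subst hi; simpa using (le_natDegree_of_ne_zero hij).trans h
  · simp at hij

theorem WB.one : WB c 0 (1 : k[X][X]) := WB.C (f := 1) (by simp)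

theorem WB.pow {N : ℕ} {g : k[X][X]} (h : WB c N g) (e : ℕ) : WB c (e * N) (g ^ e) := by
  induction e with
  | zero => simpa using WB.one
  | succ e ih => rw [pow_succ, Nat.succ_mul]; exact ih.mul h

theorem WB.of_le {a b : ℕ} {g : k[X][X]} (hb : g.natDegree ≤ b)
    (ha : ∀ i, (g.coeff i).natDegree ≤ a) : WB c (a + c * b) g := fun i j hij => by
  have h1 : g.coeff i ≠ 0 := fun h => by simp [h] at hij
  exact add_le_add ((le_natDegree_of_ne_zero hij).trans (ha i))
    (Nat.mul_le_mul_left c ((le_natDegree_of_ne_zero h1).trans hb))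

theorem WB.X : WB c c (X : k[X][X]) := by
  simpa using WB.of_le (c := c) (a := 0) (b := 1) (g := (Polynomial.X : k[X][X])) natDegree_X_le
    fun i => by rw [coeff_X]; split_ifs <;> simp

theorem WB.deg {N : ℕ} {g : k[X][X]} (h : WB c N g) (i : ℕ) : (g.coeff i).natDegree ≤ N :=
  natDegree_le_iff_coeff_eq_zero.2 fun j hj => by
    by_contra h0
    have := h i j h0
    omega

theorem WB.derivative {N : ℕ} {g : k[X][X]} (h : WB c N g) : WB c N (derivative g) :=
  fun i j hij => by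
    rw [coeff_derivative, show ((i : k[X]) + 1) = Polynomial.C ((i : k) + 1) by simp,
      coeff_mul_C] at hij
    have := h _ _ (left_ne_zero_of_mul hij)
    rw [mul_add] at this
    omega

theorem WB.of_monic {H : k[X][X]} (hm : H.Monic) (hc : ∀ i, (H.coeff i).natDegree ≤ c) :
    WB c (c * H.natDegree) H := fun i j hij => by
  have h1 : H.coeff i ≠ 0 := fun h => by simp [h] at hij
  rcases (le_natDegree_of_ne_zero h1).lt_or_eq with h2 | rfl
  · have h3 := (le_natDegree_of_ne_zero hij).trans (hc i)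
    have := Nat.mul_le_mul_left c (Nat.succ_le_of_lt h2)
    rw [Nat.mul_succ] at this
    omega
  · rw [hm.coeff_natDegree] at hij
    have := le_natDegree_of_ne_zero hij
    simp at this
    omega

theorem WB.mod {H : k[X][X]} (hm : H.Monic) (hH : WB c (c * H.natDegree) H) {N : ℕ} :
    ∀ (e : ℕ) (g : k[X][X]), g.natDegree = e → WB c N g → WB c N (g %ₘ H) := by
  intro e
  induction e using Nat.strong_induction_on with
  | _ e ih =>
  intro g he hg
  by_cases hd : g.degree < H.degree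
  · rwa [(modByMonic_eq_self_iff hm).2 hd]
  have hg0 : g ≠ 0 := by
    rintro rfl
    exact hd (by simpa [bot_lt_iff_ne_bot] using hm.ne_zero)
  have hle : H.natDegree ≤ g.natDegree := natDegree_le_natDegree (not_lt.1 hd)
  set z : k[X][X] := Polynomial.C g.leadingCoeff * Polynomial.X ^ (g.natDegree - H.natDegree)
    with hz
  have hlt : (g - H * z).degree < g.degree := div_wf_lemma ⟨not_lt.1 hd, hg0⟩ hm
  have hmod : g %ₘ H = (g - H * z) %ₘ H := by
    rw [sub_modByMonic, self_mul_modByMonic hm, sub_zero]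
  obtain ⟨j0, hj0⟩ : ∃ j0, g.leadingCoeff.coeff j0 ≠ 0 :=
    ⟨_, leadingCoeff_ne_zero.2 (leadingCoeff_ne_zero.2 hg0)⟩
  have h0 := hg _ _ hj0
  have h1 := Nat.mul_le_mul_left c hle
  have hw : WB c (N - c * H.natDegree) z := fun i j hij => by
    rw [hz, coeff_C_mul_X_pow] at hij
    split_ifs at hij with hi
    · have := hg _ _ hij
      rw [hi, Nat.mul_sub]
      omega
    · simp at hij
  have hw' : WB c N (g - H * z) := hg.sub ((hH.mul hw).mono (by omega))
  rw [hmod]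
  by_cases h2 : g - H * z = 0
  · rw [h2, zero_modByMonic]; exact WB.zero N
  · exact ih _ (he ▸ natDegree_lt_natDegree h2 hlt) _ rfl hw'

/-- All coefficients of a power series have weighted degree at most `N`. -/
def GB (c N : ℕ) (G : PowerSeries k[X][X]) : Prop := ∀ r, WB c N (PowerSeries.coeff r G)

theorem GB.mono {N N' : ℕ} {G : PowerSeries k[X][X]} (h : GB c N G) (hN : N ≤ N') : GB c N' G :=
  fun r => (h r).mono hN

theorem GB.add {N : ℕ} {G G' : PowerSeries k[X][X]} (h : GB c N G) (h' : GB c N G') :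
    GB c N (G + G') := fun r => by rw [map_add]; exact (h r).add (h' r)

theorem GB.sub {N : ℕ} {G G' : PowerSeries k[X][X]} (h : GB c N G) (h' : GB c N G') :
    GB c N (G - G') := fun r => by rw [map_sub]; exact (h r).sub (h' r)

theorem GB.sum {ι : Type} {N : ℕ} (s : Finset ι) (f : ι → PowerSeries k[X][X])
    (h : ∀ i ∈ s, GB c N (f i)) : GB c N (∑ i ∈ s, f i) :=
  Finset.sum_induction f (GB c N) (fun _ _ => GB.add) (fun r => by simpa using WB.zero N) h

theorem GB.mul {N N' : ℕ} {G G' : PowerSeries k[X][X]} (h : GB c N G) (h' : GB c N' G') :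
    GB c (N + N') (G * G') := fun r => by
  rw [PowerSeries.coeff_mul]
  exact WB.sum _ _ fun x _ => (h _).mul (h' _)

theorem GB.C {N : ℕ} {g : k[X][X]} (h : WB c N g) : GB c N (PowerSeries.C g) := fun r => by
  rw [PowerSeries.coeff_C]
  split_ifs
  exacts [h, WB.zero N]

theorem GB.pow {N : ℕ} {G : PowerSeries k[X][X]} (h : GB c N G) (e : ℕ) :
    GB c (e * N) (G ^ e) := by
  induction e with
  | zero => simpa using GB.C (WB.one (k := k) (c := c))
  | succ e ih => rw [pow_succ, Nat.succ_mul]; exact ih.mul h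

theorem GB.X : GB c 0 (PowerSeries.X : PowerSeries k[X][X]) := fun r => by
  rw [PowerSeries.coeff_X]
  split_ifs
  exacts [WB.one, WB.zero 0]

/-- Expansion of polynomials at `x`. -/
noncomputable def tau (x : k) : k[X] →+* PowerSeries k :=
  eval₂RingHom PowerSeries.C (PowerSeries.C x + PowerSeries.X)

/-- Expansion of polynomials at the generic point. -/
noncomputable def tauG : k[X] →+* PowerSeries k[X][X] :=
  eval₂RingHom (PowerSeries.C.comp (Polynomial.C.comp Polynomial.C))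
    (PowerSeries.C (Polynomial.C X) + PowerSeries.X)

theorem map_tauG (x y : k) (f : k[X]) :
    PowerSeries.map (evalEvalRingHom x y) (tauG f) = tau x f := by
  have : (PowerSeries.map (evalEvalRingHom x y)).comp tauG = tau x :=
    Polynomial.ringHom_ext (fun a => by simp [tauG, tau]) (by simp [tauG, tau])
  exact RingHom.congr_fun this f

theorem GB.tauG {N : ℕ} {f : k[X]} (h : f.natDegree ≤ N) : GB c N (tauG f) := by
  rw [Z.ZStep.tauG, coe_eval₂RingHom, eval₂_eq_sum_range]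
  refine GB.sum _ _ fun i hi => ?_
  have h1 : GB c 1 (PowerSeries.C (Polynomial.C (Polynomial.X : k[X])) + PowerSeries.X) :=
    (GB.C (WB.C natDegree_X_le)).add (GB.X.mono zero_le_one)
  have := (GB.C (WB.C (c := c) (f := Polynomial.C (f.coeff i)) (N := 0) (by simp))).mul (h1.pow i)
  exact this.mono (by have := Finset.mem_range.1 hi; omega)

theorem const_tau (x : k) (f : k[X]) : PowerSeries.constantCoeff (tau x f) = f.eval x := by
  have : PowerSeries.constantCoeff.comp (tau x) = evalRingHom x :=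
    Polynomial.ringHom_ext (fun a => by simp [tau]) (by simp [tau])
  exact RingHom.congr_fun this f

theorem dvd_of_tau (x : k) (f : k[X]) (e : ℕ) (h : PowerSeries.X ^ e ∣ tau x f) :
    (X - C x) ^ e ∣ f := by
  have h1 : tau x = coeToPowerSeries.ringHom.comp (compRingHom (C x + X)) :=
    Polynomial.ringHom_ext (fun a => by simp [tau]) (by simp [tau])
  have h2 : X ^ e ∣ f.comp (C x + X) := by
    rw [X_pow_dvd_iff]
    intro d hd
    have := PowerSeries.X_pow_dvd_iff.1 h d hd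
    simpa [h1] using this
  have h3 := map_dvd (compRingHom (X - C x)) h2
  simpa [comp_assoc] using h3

/-- Expansion along the branch `η` above `x`. -/
noncomputable def br (x : k) (η : PowerSeries k) : k[X][X] →+* PowerSeries k :=
  eval₂RingHom (tau x) η

theorem br_eq (x : k) (η : PowerSeries k) (g : k[X][X]) : br x η g = (g.map (tau x)).eval η := by
  simp [br, eval_map]

theorem const_br (x : k) (η : PowerSeries k) (g : k[X][X]) :
    PowerSeries.constantCoeff (br x η g) = g.evalEval x (PowerSeries.constantCoeff η) := by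
  have : PowerSeries.constantCoeff.comp (br x η) =
      evalEvalRingHom x (PowerSeries.constantCoeff η) :=
    Polynomial.ringHom_ext (fun a => by simp [br, const_tau]) (by simp [br])
  exact RingHom.congr_fun this g

theorem natDegree_det_le {n : Type} [Fintype n] [DecidableEq n] (A : Matrix n n k[X]) (d : n → ℕ)
    (h : ∀ i j, (A i j).natDegree ≤ d j) : A.det.natDegree ≤ ∑ j, d j := by
  rw [Matrix.det_apply']
  refine natDegree_sum_le_of_forall_le _ _ fun σ _ => natDegree_mul_le.trans ?_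
  rw [natDegree_intCast, zero_add]
  exact (natDegree_prod_le _ _).trans (Finset.sum_le_sum fun j _ => h _ _)

theorem zero_count {H : k[X][X]} (hm : H.Monic) (hi : Irreducible H)
    (hc : ∀ i, (H.coeff i).natDegree ≤ c) {N : ℕ} {f : k[X][X]} (hf : WB c N f) (hn : ¬ H ∣ f)
    (Z : Finset (k × k)) (η : k × k → PowerSeries k) (M : ℕ)
    (h0 : ∀ P ∈ Z, PowerSeries.constantCoeff (η P) = P.2) (h1 : ∀ P ∈ Z, br P.1 (η P) H = 0)
    (h2 : ∀ P ∈ Z, PowerSeries.X ^ M ∣ br P.1 (η P) f) : Z.card * M ≤ H.natDegree * (N + c) := by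
  classical
  set n := H.natDegree with hn'
  set g := f %ₘ H with hg
  have hgw : WB c N g := WB.mod hm (WB.of_monic hm hc) _ f rfl hf
  have hg0 : g ≠ 0 := fun h => hn ((modByMonic_eq_zero_iff_dvd hm).1 h)
  have hgd : g.degree < H.degree := degree_modByMonic_lt f hm
  have hgn : g.natDegree ≤ n := (natDegree_lt_natDegree hg0 hgd).le
  set R := resultant H g n n with hR
  have hRd : R.natDegree ≤ n * (N + c) := by
    refine (natDegree_det_le _ (fun j => j.addCases (fun _ => N) fun _ => c) ?_).trans ?_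
    · intro i j
      refine j.addCases (fun j => ?_) fun j => ?_
      · simp only [sylvester, Matrix.of_apply, Fin.addCases_left]
        split_ifs
        exacts [hgw.deg _, by simp]
      · simp only [sylvester, Matrix.of_apply, Fin.addCases_right]
        split_ifs
        exacts [hc _, by simp]
    · rw [Fin.sum_univ_add]
      simp only [Fin.addCases_left, Fin.addCases_right]
      simp [mul_add]
  have hR0 : R ≠ 0 := by
    let K := FractionRing k[X]
    have hinj := IsFractionRing.injective k[X] K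
    have hi' := (hm.irreducible_iff_irreducible_map_fraction_map (K := K)).1 hi
    have hco : IsCoprime (H.map (algebraMap k[X] K)) (g.map (algebraMap k[X] K)) := by
      rw [hi'.coprime_iff_not_dvd]
      intro h
      have := degree_le_of_dvd h ((Polynomial.map_ne_zero_iff hinj).2 hg0)
      rw [degree_map_eq_of_injective hinj, degree_map_eq_of_injective hinj] at this
      exact absurd hgd (not_lt.2 this)
    have := resultant_ne_zero _ _ hco
    rw [natDegree_map_eq_of_injective hinj, natDegree_map_eq_of_injective hinj,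
      resultant_map_map] at this
    obtain ⟨a, ha⟩ := Nat.exists_eq_add_of_le hgn
    intro h
    apply this
    rw [hR] at h
    conv_lhs at h => rw [ha]
    rw [← ha] at h
    have h3 := resultant_add_right_deg H g n g.natDegree a le_rfl
    rw [← ha, h, hm.coeff_natDegree, one_pow, one_mul] at h3
    rw [← h3, map_zero]
  have hdiv : ∀ x : k, (X - C x) ^ ((Z.filter fun P => P.1 = x).card * M) ∣ R := by
    intro x
    apply dvd_of_tau
    set Zx := Z.filter fun P => P.1 = x with hZx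
    have hm' := hm.map (tau x)
    have hinj : Set.InjOn η Zx := fun P hP Q hQ h => by
      rw [Finset.mem_coe, hZx, Finset.mem_filter] at hP hQ
      exact Prod.ext (hP.2.trans hQ.2.symm) (by rw [← h0 P hP.1, ← h0 Q hQ.1, h])
    have hd : ∏ P ∈ Zx, (X - C (η P)) ∣ H.map (tau x) := by
      rw [← Finset.prod_image (f := fun a => X - C a) hinj]
      refine (Multiset.prod_X_sub_C_dvd_iff_le_roots hm'.ne_zero _).2 ?_
      refine (Multiset.le_iff_subset (Finset.nodup _)).2 fun a ha => ?_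
      obtain ⟨P, hP, rfl⟩ := Finset.mem_image.1 ha
      rw [hZx, Finset.mem_filter] at hP
      rw [mem_roots hm'.ne_zero, IsRoot.def, ← hP.2, ← br_eq, h1 P hP.1]
    obtain ⟨H2, hH2⟩ := hd
    have hmp : (∏ P ∈ Zx, (X - C (η P))).Monic := monic_prod_of_monic _ _ fun _ _ => monic_X_sub_C _
    have hgn' : (g.map (tau x)).natDegree ≤ n := natDegree_map_le.trans hgn
    have hdeg : n = (∏ P ∈ Zx, (X - C (η P))).natDegree + H2.natDegree := by
      rw [← hmp.natDegree_mul' (by rintro rfl; exact hm'.ne_zero (by simpa using hH2)), ← hH2,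
        hm.natDegree_map]
    rw [hR, ← resultant_map_map, hH2]
    conv => enter [2, 3]; rw [hdeg]
    rw [resultant_mul_left _ _ _ _ hgn', resultant_prod_left _ _ _ _ (by simp) hgn']
    refine Dvd.dvd.mul_right ?_ _
    rw [mul_comm, pow_mul, ← Finset.prod_const]
    refine Finset.prod_dvd_prod_of_dvd _ _ fun P hP => ?_
    rw [hZx, Finset.mem_filter] at hP
    rw [natDegree_X_sub_C, resultant_X_sub_C_left _ _ _ hgn', ← hP.2, ← br_eq]
    have := h2 P hP.1
    rwa [← modByMonic_add_div f H, map_add, map_mul, h1 P hP.1, zero_mul, add_zero] at this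
  have hle : (Z.val.map Prod.fst).bind (Multiset.replicate M) ≤ R.roots := by
    rw [Multiset.le_iff_count]
    intro x
    rw [count_roots]
    refine le_trans (le_of_eq ?_) ((le_rootMultiplicity_iff hR0).2 (hdiv x))
    rw [Multiset.count_bind, Multiset.map_map, Finset.card_filter, Finset.sum_mul]
    refine Finset.sum_congr rfl fun P _ => ?_
    simp [Multiset.count_replicate]
  have := (Multiset.card_le_card hle).trans ((card_roots' R).trans hRd)
  simpa using this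

end Pool.Agent.MP_9b2bac_nt.Z.ZStep

end

section

set_option autoImplicit false

namespace Pool.Agent.MP_9b2bac_nt.Z

open Polynomial

namespace ZStep

theorem newton (n c M : ℕ) : ∃ N B : ℕ, ∀ (k : Type) [Field k] (H : k[X][X]), H.Monic →
    H.natDegree = n + 1 → (∀ i, (H.coeff i).natDegree ≤ c) →
    ∃ ξ : PowerSeries k[X][X], GB c B ξ ∧ ∀ (x y : k) (η : PowerSeries k),
      PowerSeries.constantCoeff η = y → br x η H = 0 → (derivative H).evalEval x y ≠ 0 →
      PowerSeries.X ^ (M + 1) ∣ PowerSeries.map (evalEvalRingHom x y) ξ -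
        PowerSeries.C ((derivative H).evalEval x y) ^ N * η := by
  induction M with
  | zero =>
    refine ⟨0, c, fun k _ H _ _ _ => ⟨PowerSeries.C X, GB.C WB.X, fun x y η h0 _ _ => ?_⟩⟩
    rw [zero_add, pow_one, PowerSeries.X_dvd_iff]
    simp [h0]
  | succ M ih =>
    obtain ⟨N, B, ih⟩ := ih
    refine ⟨(n + 1) * N + 1, (n * N + 1) * (c * (n + 1)) + B +
      (c + (n + 1) * B + (n + 1) * (N * (c * (n + 1)))), fun k _ H hm hn hc => ?_⟩
    obtain ⟨ξ, hξ, h⟩ := ih k H hm hn hc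
    have hδ : GB c (c * (n + 1)) (PowerSeries.C (derivative H)) :=
      GB.C (hn ▸ (WB.of_monic hm hc).derivative)
    refine ⟨PowerSeries.C (derivative H) ^ (n * N + 1) * ξ - ∑ i ∈ Finset.range (n + 2),
      tauG (H.coeff i) * ξ ^ i * (PowerSeries.C (derivative H) ^ N) ^ (n + 1 - i), ?_, ?_⟩
    · refine (((hδ.pow _).mul hξ).mono (by omega)).sub (GB.sum _ _ fun i hi => ?_)
      refine (((GB.tauG (hc i)).mul (hξ.pow i)).mul ((hδ.pow N).pow _)).mono ?_
      have h1 : i * B ≤ (n + 1) * B :=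
        Nat.mul_le_mul_right _ (by have := Finset.mem_range.1 hi; omega)
      have h2 : (n + 1 - i) * (N * (c * (n + 1))) ≤ (n + 1) * (N * (c * (n + 1))) :=
        Nat.mul_le_mul_right _ (by omega)
      omega
    intro x y η h0 h1 h2
    obtain ⟨b, hb⟩ := h x y η h0 h1 h2
    have h3 : PowerSeries.X ∣ br x η (derivative H) -
        PowerSeries.C ((derivative H).evalEval x y) := by
      rw [PowerSeries.X_dvd_iff, map_sub, const_br, h0]; simp
    obtain ⟨e, he⟩ := h3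
    simp only [map_sub, map_mul, map_pow, map_sum, map_tauG, PowerSeries.map_C,
      coe_evalEvalRingHom]
    generalize (derivative H).evalEval x y = d at h2 hb he
    set u := PowerSeries.X ^ (M + 1) * (PowerSeries.C d⁻¹ ^ N * b) with hu
    have hd : (PowerSeries.C d ^ N * PowerSeries.C d⁻¹ ^ N : PowerSeries k) = 1 := by
      rw [← mul_pow, ← map_mul, mul_inv_cancel₀ h2, map_one, one_pow]
    have h4 : PowerSeries.map (evalEvalRingHom x y) ξ = PowerSeries.C d ^ N * (η + u) := by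
      rw [hu]; linear_combination hb - PowerSeries.X ^ (M + 1) * b * hd
    obtain ⟨κ, hκ⟩ := binomExpansion (H.map (tau x)) η u
    rw [derivative_map, ← br_eq x η H, ← br_eq x η (derivative H), h1, ← br_eq] at hκ
    have h5 : ∑ i ∈ Finset.range (n + 2), tau x (H.coeff i) *
        (PowerSeries.C d ^ N * (η + u)) ^ i * (PowerSeries.C d ^ N) ^ (n + 1 - i) =
        (PowerSeries.C d ^ N) ^ (n + 1) * br x (η + u) H := by
      rw [br, coe_eval₂RingHom, eval₂_eq_sum_range, hn, Finset.mul_sum]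
      refine Finset.sum_congr rfl fun i hi => ?_
      obtain ⟨j, hj⟩ : ∃ j, n + 1 = i + j := ⟨n + 1 - i, by have := Finset.mem_range.1 hi; omega⟩
      rw [hj, Nat.add_sub_cancel_left, mul_pow]; ring
    rw [h4, h5, hκ, sub_eq_iff_eq_add.1 he]
    refine ⟨-(PowerSeries.C d ^ N) ^ (n + 1) * (PowerSeries.C d⁻¹ ^ N * b) *
      (e + κ * PowerSeries.X ^ M * (PowerSeries.C d⁻¹ ^ N * b)), ?_⟩
    rw [hu]; ring

variable {k : Type} [Field k]

theorem exists_br {H : k[X][X]} (hm : H.Monic) {x y : k} (h0 : H.evalEval x y = 0)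
    (h1 : (derivative H).evalEval x y ≠ 0) :
    ∃ η : PowerSeries k, PowerSeries.constantCoeff η = y ∧ br x η H = 0 := by
  obtain ⟨η, h2, h3⟩ := HenselianRing.is_henselian
    (I := Ideal.span {(PowerSeries.X : PowerSeries k)}) (H.map (tau x)) (hm.map _)
    (PowerSeries.C y) (by
      rw [Ideal.mem_span_singleton, PowerSeries.X_dvd_iff, ← br_eq, const_br]; simpa using h0) (by
      refine IsUnit.map _ ?_
      rw [PowerSeries.isUnit_iff_constantCoeff, derivative_map, ← br_eq, const_br]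
      simpa using h1)
  rw [Ideal.mem_span_singleton, PowerSeries.X_dvd_iff] at h3
  exact ⟨η, by simpa [sub_eq_zero] using h3, by rw [br_eq]; exact h2⟩

theorem frob_ps {p : ℕ} [Fact p.Prime] [CharP k p] (f : ℕ) (g : PowerSeries k) :
    PowerSeries.X ^ p ^ f ∣ g ^ p ^ f - PowerSeries.C (PowerSeries.constantCoeff g ^ p ^ f) := by
  haveI : CharP (PowerSeries k) p := charP_of_injective_ringHom PowerSeries.C_injective p
  obtain ⟨g', hg'⟩ : PowerSeries.X ∣ g - PowerSeries.C (PowerSeries.constantCoeff g) := by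
    rw [PowerSeries.X_dvd_iff]; simp
  rw [map_pow, ← sub_pow_char_pow, hg', mul_pow]
  exact Dvd.intro _ rfl

theorem indep [IsAlgClosed k] {p : ℕ} [Fact p.Prime] [CharP k p] (f : ℕ) {σ σ' : Type}
    [Fintype σ] [Fintype σ'] (U : σ → PowerSeries k) (W : σ' → PowerSeries k)
    (hu : ∀ a : σ → k, PowerSeries.X ^ p ^ f ∣ ∑ s, PowerSeries.C (a s) * U s → a = 0)
    (hw : ∀ b : σ' → k, ∑ s, PowerSeries.C (b s) * W s = 0 → b = 0) (e : σ × σ' → k)
    (h : ∑ z, PowerSeries.C (e z) * (U z.1 * W z.2 ^ p ^ f) = 0) : e = 0 := by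
  haveI : CharP (PowerSeries k) p := charP_of_injective_ringHom PowerSeries.C_injective p
  have hq : 0 < p ^ f := pow_pos (Fact.out : p.Prime).pos f
  choose ε hε using fun z => IsAlgClosed.exists_pow_nat_eq (e z) hq
  set g : σ → PowerSeries k := fun s => ∑ s', PowerSeries.C (ε (s, s')) * W s' with hg
  have h1 : ∑ s, U s * g s ^ p ^ f = 0 := by
    rw [← h, Fintype.sum_prod_type]
    refine Finset.sum_congr rfl fun s _ => ?_
    rw [hg, sum_pow_char_pow, Finset.mul_sum]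
    refine Finset.sum_congr rfl fun s' _ => ?_
    rw [mul_pow, ← map_pow, hε]; ring
  have h2 : ∀ K : ℕ, ∀ s, PowerSeries.X ^ K ∣ g s := by
    intro K
    induction K with
    | zero => simp
    | succ K ih =>
      choose g' hg' using ih
      have h3 : ∑ s, U s * g' s ^ p ^ f = 0 := by
        refine mul_left_cancel₀ (a := (PowerSeries.X ^ K) ^ p ^ f)
          (by simp [PowerSeries.X_ne_zero]) ?_
        rw [mul_zero, ← h1, Finset.mul_sum]
        exact Finset.sum_congr rfl fun s _ => by rw [hg' s]; ring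
      have h4 := hu (fun s => PowerSeries.constantCoeff (g' s) ^ p ^ f) (by
        have : ∑ s, PowerSeries.C (PowerSeries.constantCoeff (g' s) ^ p ^ f) * U s =
            -∑ s, U s * (g' s ^ p ^ f -
              PowerSeries.C (PowerSeries.constantCoeff (g' s) ^ p ^ f)) := by
          simp only [mul_sub, Finset.sum_sub_distrib, h3, zero_sub, neg_neg, mul_comm]
        rw [this]
        exact (Finset.dvd_sum fun s _ => (frob_ps f _).mul_left _).neg_right)
      intro s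
      rw [hg' s, pow_succ]
      exact mul_dvd_mul_left _ (PowerSeries.X_dvd_iff.2 (pow_eq_zero_iff hq.ne' |>.1
        (congrFun h4 s)))
  funext z
  have h5 : g z.1 = 0 := PowerSeries.ext fun r =>
    PowerSeries.X_pow_dvd_iff.1 (h2 (r + 1) z.1) r (Nat.lt_succ_self r)
  have h6 : ε z = 0 := congrFun (hw _ h5) z.2
  rw [← hε, h6, zero_pow hq.ne']; rfl

/-- The monomials. -/
noncomputable def mon (k : Type) [Field k] (i a : ℕ) : k[X][X] := C (X ^ i) * X ^ a

theorem wb_mon (c : ℕ) {l n : ℕ} (s : Fin l × Fin n) : WB c (l + c * n) (mon k s.1 s.2) :=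
  ((WB.C (N := l) (by simp)).mul (WB.X.pow _)).mono (by
    have := Nat.mul_le_mul_left c s.2.2.le
    rw [mul_comm c] at this
    omega)

theorem not_dvd_comb {H : k[X][X]} (hm : H.Monic) {l : ℕ} (a : Fin l × Fin H.natDegree → k)
    (h : H ∣ ∑ s, C (C (a s)) * mon k s.1 s.2) : a = 0 := by
  have h0 : ∑ s, C (C (a s)) * mon k s.1 s.2 = 0 := by
    by_contra h0
    refine hm.not_dvd_of_degree_lt h0 ?_ h
    rw [degree_eq_natDegree hm.ne_zero]
    refine (degree_sum_le _ _).trans_lt ((Finset.sup_lt_iff (WithBot.bot_lt_coe _)).2 fun s _ => ?_)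
    rw [mon, ← mul_assoc, ← C_mul]
    exact (degree_C_mul_X_pow_le _ _).trans_lt (by exact_mod_cast s.2.2)
  funext s
  have := congrArg (fun g : k[X][X] => (g.coeff s.2).coeff s.1) h0
  simp only [mon, finsetSum_coeff, coeff_C_mul, coeff_X_pow, coeff_zero] at this
  rw [Finset.sum_eq_single s] at this
  · simpa using this
  · intro t _ hts
    by_cases h2 : (s.2 : ℕ) = t.2
    · have h1 : (s.1 : ℕ) ≠ t.1 := fun h1 => hts (Prod.ext (Fin.ext h1.symm) (Fin.ext h2.symm))
      simp [h2, h1, coeff_X_pow]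
    · simp [h2]
  · simp

theorem br_CC (x : k) (η : PowerSeries k) (a : k) : br x η (C (C a)) = PowerSeries.C a := by
  simp [br, tau]

theorem comb_zero {c : ℕ} {H : k[X][X]} (hm : H.Monic) (hi : Irreducible H)
    (hc : ∀ i, (H.coeff i).natDegree ≤ c) {x : k} {η : PowerSeries k} (h : br x η H = 0)
    {l M : ℕ} (hM : H.natDegree * (l + c * H.natDegree + c) < M)
    (a : Fin l × Fin H.natDegree → k)
    (ha : PowerSeries.X ^ M ∣ ∑ s, PowerSeries.C (a s) * br x η (mon k s.1 s.2)) : a = 0 := by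
  refine not_dvd_comb hm a (by_contra fun hn => ?_)
  have := zero_count hm hi hc (N := l + c * H.natDegree) (WB.sum _ _ fun s _ => by
    simpa using (WB.C (N := 0) (by simp)).mul (wb_mon c s)) hn
    {(x, PowerSeries.constantCoeff η)} (fun _ => η) M (by simp) (by simpa using h)
    (by simpa [br_CC] using ha)
  rw [Finset.card_singleton] at this
  omega

theorem exists_comb {c : ℕ} {H : k[X][X]} (hm : H.Monic) (hc : ∀ i, (H.coeff i).natDegree ≤ c)
    {ι : Type} [Fintype ι] (Φ : ι → PowerSeries k[X][X]) {K M : ℕ} (hΦ : ∀ z, GB c K (Φ z))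
    (hcard : M * (H.natDegree * (K + 1)) < Fintype.card ι) :
    ∃ e : ι → k, e ≠ 0 ∧ ∀ x y : k, H.evalEval x y = 0 → PowerSeries.X ^ M ∣
      ∑ z, PowerSeries.C (e z) * PowerSeries.map (evalEvalRingHom x y) (Φ z) := by
  let T : (ι → k) →ₗ[k] (Fin M × Fin H.natDegree × Fin (K + 1) → k) :=
    { toFun := fun e w => ∑ z, e z *
        (((PowerSeries.coeff w.1 (Φ z)) %ₘ H).coeff w.2.1).coeff w.2.2
      map_add' := fun a b => by ext w; simp [add_mul, Finset.sum_add_distrib]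
      map_smul' := fun c a => by ext w; simp [Finset.mul_sum, mul_assoc] }
  have hker : LinearMap.ker T ≠ ⊥ := LinearMap.ker_ne_bot_of_finrank_lt (by simpa using hcard)
  obtain ⟨e, he, he0⟩ := Submodule.exists_mem_ne_zero_of_ne_bot hker
  rw [LinearMap.mem_ker] at he
  refine ⟨e, he0, fun x y h0 => PowerSeries.X_pow_dvd_iff.2 fun r hr => ?_⟩
  have h1 : ∑ z, C (C (e z)) * (PowerSeries.coeff r (Φ z) %ₘ H) = 0 := by
    ext a j
    simp only [finsetSum_coeff, coeff_C_mul, coeff_zero]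
    by_cases ha : a < H.natDegree
    · by_cases hj : j < K + 1
      · exact congrFun he (⟨r, hr⟩, ⟨a, ha⟩, ⟨j, hj⟩)
      · refine Finset.sum_eq_zero fun z _ => ?_
        have := (WB.mod hm (WB.of_monic hm hc) _ _ rfl (hΦ z r)).deg a
        rw [coeff_eq_zero_of_natDegree_lt (by omega), mul_zero]
    · refine Finset.sum_eq_zero fun z _ => ?_
      have := degree_modByMonic_lt (PowerSeries.coeff r (Φ z)) hm
      rw [degree_eq_natDegree hm.ne_zero] at this
      rw [coeff_eq_zero_of_degree_lt (this.trans_le (by exact_mod_cast not_lt.1 ha))]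
      simp
  have h2 := congrArg (evalEvalRingHom x y) h1
  rw [map_sum, map_zero] at h2
  rw [map_sum, ← h2]
  refine Finset.sum_congr rfl fun z _ => ?_
  rw [PowerSeries.coeff_C_mul, PowerSeries.coeff_map, map_mul]
  conv_lhs => rw [← modByMonic_add_div (PowerSeries.coeff r (Φ z)) H]
  simp [h0]

end ZStep

open ZStep in
theorem stepanov3 (m D₀ : ℕ) : ∃ q₀ : ℕ, ∀ (p f : ℕ) [Fact p.Prime] (k : Type) [Field k]
    [IsAlgClosed k] [CharP k p], q₀ ≤ p ^ f → ∀ (H h : k[X][X]) (D : k[X]),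
    H.Monic → H.natDegree = m → Irreducible H → (∀ i, (H.coeff i).natDegree ≤ D₀) →
    h.natDegree ≤ D₀ → (∀ i, (h.coeff i).natDegree ≤ D₀) → D.natDegree ≤ D₀ →
    {P : k × k | P.1 ^ p ^ f = P.1 ∧ H.evalEval P.1 P.2 = 0 ∧
      (H.map (evalRingHom P.1)).Separable ∧ D.eval P.1 ≠ 0 ∧
      D.eval P.1 * P.2 ^ p ^ f = h.evalEval P.1 P.2}.ncard ≤ 3 * p ^ f := by
  classical
  rcases m with _ | n
  · refine ⟨0, fun p f _ k _ _ _ _ H h D hm hn hi _ _ _ _ => ?_⟩
    exact absurd (hm.natDegree_eq_zero.1 hn ▸ isUnit_one) hi.not_isUnit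
  set c := D₀
  set m0 := c * (n + 1) + 1 with hm0
  set M := (n + 1) * m0 with hM
  obtain ⟨N, B, hN⟩ := newton n c M
  set K0 := (n + 1) * (N * (c * (n + 1))) + (n + 1) * B +
    (2 * m0 + (n + 1) * (c + c * c) + (n + 1) * c) with hK0
  refine ⟨(n + 1) * (K0 + 2 + c * (n + 1) + c) + 1 + M,
    fun p f _ k _ _ _ hq H h D hm hn hi hc hh hh' hD => ?_⟩
  set q := p ^ f with hq'
  set S := {P : k × k | P.1 ^ q = P.1 ∧ H.evalEval P.1 P.2 = 0 ∧
      (H.map (evalRingHom P.1)).Separable ∧ D.eval P.1 ≠ 0 ∧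
      D.eval P.1 * P.2 ^ q = h.evalEval P.1 P.2} with hS
  by_cases hfin : S.Finite
  swap
  · rw [Set.Infinite.ncard hfin]; exact Nat.zero_le _
  rcases S.eq_empty_or_nonempty with h0 | ⟨P0, hP0⟩
  · simp [h0]
  have hδ : ∀ P ∈ S, (derivative H).evalEval P.1 P.2 ≠ 0 := fun P hP => by
    have := hP.2.2.1.eval₂_derivative_ne_zero (RingHom.id k) (x := P.2)
      (by rw [eval₂_id, map_evalRingHom_eval]; exact hP.2.1)
    rwa [eval₂_id, derivative_map, map_evalRingHom_eval] at this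
  have hη : ∀ P : k × k, ∃ η : PowerSeries k, P ∈ S →
      PowerSeries.constantCoeff η = P.2 ∧ br P.1 η H = 0 := fun P => by
    by_cases hP : P ∈ S
    · obtain ⟨η, h⟩ := exists_br hm hP.2.1 (hδ P hP)
      exact ⟨η, fun _ => h⟩
    · exact ⟨0, fun h => absurd h hP⟩
  choose η hη using hη
  obtain ⟨ξ, hξ, hξ'⟩ := hN k H hm hn hc
  have hδw : GB c (c * (n + 1)) (PowerSeries.C (derivative H)) :=
    GB.C (hn ▸ (WB.of_monic hm hc).derivative)
  obtain ⟨e, he0, he⟩ := exists_comb hm hc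
    (ι := (Fin (K0 + 2) × Fin H.natDegree) × (Fin (2 * m0) × Fin H.natDegree))
    (fun z => (PowerSeries.C (derivative H) ^ N) ^ (n + 1 - z.1.2) * tauG (X ^ (z.1.1 : ℕ)) *
      ξ ^ (z.1.2 : ℕ) * PowerSeries.C (C (X ^ (z.2.1 : ℕ)) * h ^ (z.2.2 : ℕ) *
        C D ^ (n + 1 - z.2.2))) (K := K0 + 2 + K0) (M := M) (fun z => by
      refine (((((hδw.pow N).pow _).mul (GB.tauG (N := K0 + 2) (by simp))).mul (hξ.pow _)).mul
        (GB.C (((WB.C (N := 2 * m0) (by simp)).mul ((WB.of_le hh hh').pow _)).mul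
          ((WB.C hD).pow _)))).mono ?_
      have h1 := Nat.mul_le_mul_right (N * (c * (n + 1))) (Nat.sub_le (n + 1) z.1.2)
      have h2 := Nat.mul_le_mul_right B (z.1.2.2.le.trans hn.le)
      have h3 := Nat.mul_le_mul_right (c + c * c) (z.2.2.2.le.trans hn.le)
      have h4 := Nat.mul_le_mul_right c (Nat.sub_le (n + 1) z.2.2)
      omega) (by
      simp only [Fintype.card_prod, Fintype.card_fin, hn, hM]
      have : 0 < (n + 1) * m0 * (n + 1) := by positivity
      nlinarith)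
  set Ψ : k[X][X] := ∑ z, C (C (e z)) * (mon k z.1.1 z.1.2 * mon k z.2.1 z.2.2 ^ q) with hΨ
  have hΨw : WB c (K0 + 2 + c * H.natDegree + q * (2 * m0 + c * H.natDegree)) Ψ :=
    WB.sum _ _ fun z _ => by
      simpa using (WB.C (N := 0) (by simp)).mul ((wb_mon c z.1).mul ((wb_mon c z.2).pow q))
  have hbr : ∀ x η, br x η Ψ = ∑ z, PowerSeries.C (e z) *
      (br x η (mon k z.1.1 z.1.2) * br x η (mon k z.2.1 z.2.2) ^ q) := fun x η => by
    simp only [hΨ, map_sum, map_mul, map_pow, br_CC]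
  have hnd : ¬ H ∣ Ψ := by
    rintro ⟨g, hg⟩
    have h1 := (hη P0 hP0).2
    refine he0 (indep f (fun s : Fin (K0 + 2) × Fin H.natDegree => br P0.1 (η P0) (mon k s.1 s.2))
      (fun s : Fin (2 * m0) × Fin H.natDegree => br P0.1 (η P0) (mon k s.1 s.2))
      (comb_zero hm hi hc h1 (by rw [hn]; omega))
      (fun b hb => comb_zero hm hi hc h1 (Nat.lt_succ_self _) b (by simp [hb])) e ?_)
    rw [← hbr, hg, map_mul, h1, zero_mul]
  have key := zero_count hm hi hc hΨw hnd hfin.toFinset η M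
    (fun P hP => (hη P (hfin.mem_toFinset.1 hP)).1)
    (fun P hP => (hη P (hfin.mem_toFinset.1 hP)).2) (fun P hP => by
      rw [hfin.mem_toFinset] at hP
      obtain ⟨h1, h2⟩ := hη P hP
      have h3 := hδ P hP
      have h4 := (pow_dvd_pow _ (Nat.le_succ M)).trans (hξ' _ _ _ h1 h2 h3)
      have h5 := he _ _ hP.2.1
      have hu : IsUnit (PowerSeries.C (((derivative H).evalEval P.1 P.2 ^ N) ^ (n + 1) *
          D.eval P.1 ^ (n + 1)) : PowerSeries k) :=
        IsUnit.map _ (mul_ne_zero (pow_ne_zero _ (pow_ne_zero _ h3))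
          (pow_ne_zero _ hP.2.2.2.1)).isUnit
      rw [← hu.dvd_mul_left, hbr, Finset.mul_sum]
      rw [← Ideal.mem_span_singleton, ← Ideal.Quotient.eq_zero_iff_mem] at h5 ⊢
      rw [← Ideal.mem_span_singleton, ← Ideal.Quotient.eq] at h4
      rw [← h5, map_sum, map_sum]
      refine Finset.sum_congr rfl fun z _ => ?_
      have h6 := (pow_dvd_pow _ (show M ≤ q by omega)).trans
        (frob_ps (p := p) f (br P.1 (η P) (mon k z.2.1 z.2.2)))
      rw [← Ideal.mem_span_singleton, ← Ideal.Quotient.eq, const_br, h1] at h6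
      have h7 : D.eval P.1 ^ (n + 1) * (mon k z.2.1 z.2.2).evalEval P.1 P.2 ^ q =
          evalEvalRingHom P.1 P.2 (C (X ^ (z.2.1 : ℕ)) * h ^ (z.2.2 : ℕ) *
            C D ^ (n + 1 - z.2.2)) := by
        obtain ⟨j, hj⟩ := Nat.exists_eq_add_of_le (z.2.2.2.le.trans hn.le)
        simp only [mon, map_mul, map_pow, coe_evalEvalRingHom, evalEval_C, eval_X, evalEval_mul,
          evalEval_pow, evalEval_X, ← hP.2.2.2.2]
        rw [hj, Nat.add_sub_cancel_left, mul_pow, pow_right_comm P.1, hP.1]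
        ring
      obtain ⟨j, hj⟩ := Nat.exists_eq_add_of_le (z.1.2.2.le.trans hn.le)
      rw [map_mul (PowerSeries.map _), PowerSeries.map_C, ← h7]
      simp only [map_mul, map_pow, h4, map_tauG, PowerSeries.map_C, coe_evalEvalRingHom] at h6 ⊢
      rw [h6]
      simp only [mon, br, map_mul, map_pow, coe_eval₂RingHom, eval₂_C, eval₂_X]
      rw [hj, Nat.add_sub_cancel_left]
      ring)
  rw [Set.ncard_eq_toFinset_card S hfin]
  rw [hn, hM, mul_left_comm] at key
  have h1 := Nat.le_of_mul_le_mul_left key (Nat.succ_pos n)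
  refine Nat.le_of_mul_le_mul_right (c := m0) (h1.trans ?_) (by omega)
  have h2 : K0 + 2 + c * (n + 1) + c ≤ q := by nlinarith
  have h3 : 3 * q * m0 = q + q * (2 * m0 + c * (n + 1)) := by rw [hm0]; ring
  omega

theorem stepanovq (m D₀ : ℕ) : ∃ q₀ : ℕ, ∀ (p f : ℕ) [Fact p.Prime] (k : Type) [Field k]
    [IsAlgClosed k] [CharP k p], q₀ ≤ p ^ f → ∀ (H h : k[X][X]) (D : k[X]),
    H.Monic → H.natDegree = m → Irreducible H → (∀ i, (H.coeff i).natDegree ≤ D₀) →
    h.natDegree ≤ D₀ → (∀ i, (h.coeff i).natDegree ≤ D₀) → D.natDegree ≤ D₀ →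
    {P : k × k | P.1 ^ p ^ f = P.1 ∧ H.evalEval P.1 P.2 = 0 ∧
      (H.map (evalRingHom P.1)).Separable ∧ D.eval P.1 ≠ 0 ∧
      D.eval P.1 * P.2 ^ p ^ f = h.evalEval P.1 P.2}.ncard ≤ 10 * p ^ f := by
  obtain ⟨q₀, h⟩ := stepanov3 m D₀
  refine ⟨q₀, fun p f _ k _ _ _ hp H h' D h1 h2 h3 h4 h5 h6 h7 => ?_⟩
  exact (h p f k hp H h' D h1 h2 h3 h4 h5 h6 h7).trans (Nat.mul_le_mul_right _ (by norm_num))

theorem stepanov (m D₀ : ℕ) : ∃ p₀ : ℕ, ∀ (p f : ℕ) [Fact p.Prime] (k : Type) [Field k]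
    [IsAlgClosed k] [CharP k p], p₀ ≤ p → 0 < f → ∀ (H h : k[X][X]) (D : k[X]),
    H.Monic → H.natDegree = m → Irreducible H → (∀ i, (H.coeff i).natDegree ≤ D₀) →
    h.natDegree ≤ D₀ → (∀ i, (h.coeff i).natDegree ≤ D₀) → D.natDegree ≤ D₀ →
    {P : k × k | P.1 ^ p ^ f = P.1 ∧ H.evalEval P.1 P.2 = 0 ∧
      (H.map (evalRingHom P.1)).Separable ∧ D.eval P.1 ≠ 0 ∧
      D.eval P.1 * P.2 ^ p ^ f = h.evalEval P.1 P.2}.ncard ≤ 10 * p ^ f := by
  obtain ⟨q₀, h⟩ := stepanovq m D₀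
  refine ⟨q₀, fun p f _ k _ _ _ hp hf H h' D h1 h2 h3 h4 h5 h6 h7 => ?_⟩
  exact h p f k (hp.trans (Nat.le_self_pow hf.ne' p)) H h' D h1 h2 h3 h4 h5 h6 h7

end Pool.Agent.MP_9b2bac_nt.Z

end

section

set_option autoImplicit false

namespace Pool.Agent.MP_9b2bac_nt.Z.ZCheb

open Polynomial

variable {O R : Type} [CommRing O] [IsDomain O] [CommRing R] [IsDomain R] [Algebra O R]

omit [IsDomain O] in
theorem avoid [Infinite O] (hinj : Function.Injective (algebraMap O R)) {J : Type} (s : Finset J)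
    (f : J → R →ₗ[O] R) (hf : ∀ j ∈ s, f j ≠ 0) : ∃ r, ∀ j ∈ s, f j r ≠ 0 := by
  classical
  induction s using Finset.induction_on with
  | empty => exact ⟨0, by simp⟩
  | insert a s _ ih =>
    obtain ⟨r, hr⟩ := ih fun j hj => hf j (Finset.mem_insert_of_mem hj)
    obtain ⟨z, hz⟩ : ∃ z, f a z ≠ 0 := by
      by_contra h
      push Not at h
      exact hf a (Finset.mem_insert_self a s) (LinearMap.ext h)
    have hfin : (⋃ j ∈ insert a s, {n : O | f j (r + n • z) = 0}).Finite := by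
      refine (insert a s).finite_toSet.biUnion fun j hj => Set.Subsingleton.finite ?_
      intro n hn n' hn'
      rw [Set.mem_ofPred_eq, map_add, map_smul, Algebra.smul_def] at hn hn'
      by_contra hne
      have h1 : (algebraMap O R n - algebraMap O R n') * f j z = 0 := by linear_combination hn - hn'
      have h2 : f j z = 0 :=
        (mul_eq_zero.1 h1).resolve_left (sub_ne_zero.2 (hinj.ne hne))
      rcases Finset.mem_insert.1 hj with rfl | hj
      · exact hz h2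
      · exact hr j hj (by simpa [h2] using hn)
    obtain ⟨n, hn⟩ := hfin.exists_notMem
    exact ⟨r + n • z, fun j hj h => hn (Set.mem_biUnion hj h)⟩

omit [IsDomain O] in
theorem exists_prim [Infinite O] [Fintype (R ≃ₐ[O] R)]
    (hinj : Function.Injective (algebraMap O R)) :
    ∃ y : R, Function.Injective fun g : R ≃ₐ[O] R => g y := by
  classical
  obtain ⟨y, hy⟩ := avoid hinj (Finset.univ : Finset (R ≃ₐ[O] R)).offDiag
    (fun p => p.1.toLinearMap - p.2.toLinearMap) fun p hp h => (Finset.mem_offDiag.1 hp).2.2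
      (AlgEquiv.ext fun r => sub_eq_zero.1 (DFunLike.congr_fun h r))
  refine ⟨y, fun g g' h => ?_⟩
  by_contra hne
  exact hy (g, g') (by simpa using hne) (sub_eq_zero.2 h)

omit [IsDomain R] in
theorem clear (hfix : ∀ r : R, (∀ g : R ≃ₐ[O] R, g r = r) →
      ∃ a b : O, a ≠ 0 ∧ a • r = algebraMap O R b) (F : R[X])
    (hF : ∀ g : R ≃ₐ[O] R, F.map (g : R →+* R) = F) :
    ∃ a : O, a ≠ 0 ∧ ∀ i, algebraMap O R a * F.coeff i ∈ Set.range (algebraMap O R) := by
  classical
  have h : ∀ i, ∃ a b : O, a ≠ 0 ∧ a • F.coeff i = algebraMap O R b := fun i =>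
    hfix _ fun g => by
      conv_rhs => rw [← hF g, coeff_map]
      rfl
  choose a b ha hb using h
  refine ⟨∏ i ∈ F.support, a i, Finset.prod_ne_zero_iff.2 fun i _ => ha i, fun i => ?_⟩
  by_cases hi : i ∈ F.support
  · refine ⟨(∏ j ∈ F.support.erase i, a j) * b i, ?_⟩
    rw [← Finset.prod_erase_mul _ _ hi, map_mul, map_mul, ← hb, Algebra.smul_def, mul_assoc]
  · rw [notMem_support_iff.1 hi, mul_zero]
    exact ⟨0, map_zero _⟩

theorem scale_prod {J : Type} (s : Finset J) (u : J → R) (c : R) :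
    (∏ j ∈ s, (X - C (u j))).scaleRoots c = ∏ j ∈ s, (X - C (c * u j)) := by
  classical
  induction s using Finset.induction_on with
  | empty => simp
  | insert a s ha ih =>
    rw [Finset.prod_insert ha, Finset.prod_insert ha, mul_scaleRoots_of_noZeroDivisors, ih,
      sub_eq_add_neg, ← C_neg, X_add_C_scaleRoots, neg_mul, C_neg, ← sub_eq_add_neg,
      mul_comm (u a)]

theorem exists_poly [Infinite O] [Fintype (R ≃ₐ[O] R)]
    (hinj : Function.Injective (algebraMap O R))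
    (hfix : ∀ r : R, (∀ g : R ≃ₐ[O] R, g r = r) → ∃ a b : O, a ≠ 0 ∧ a • r = algebraMap O R b) :
    ∃ (y : R) (H : O[X]), (Function.Injective fun g : R ≃ₐ[O] R => g y) ∧ H.Monic ∧
      H.natDegree = Fintype.card (R ≃ₐ[O] R) ∧
      H.map (algebraMap O R) = ∏ g : R ≃ₐ[O] R, (X - C (g y)) := by
  obtain ⟨y, hy⟩ := exists_prim hinj
  obtain ⟨c, hc, h⟩ := clear hfix (∏ g : R ≃ₐ[O] R, (X - C (g y))) fun g => by
    rw [Polynomial.map_prod, ← Equiv.prod_comp (Equiv.mulLeft g) fun g => X - C (g y)]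
    simp
  have hm : ∀ u : (R ≃ₐ[O] R) → R, (∏ g, (X - C (u g))).Monic := fun u =>
    monic_prod_of_monic _ _ fun g _ => monic_X_sub_C _
  have e : ∀ g : R ≃ₐ[O] R, g (algebraMap O R c * y) = algebraMap O R c * g y := fun g => by
    rw [map_mul, AlgEquiv.commutes]
  have hl : (∏ g : R ≃ₐ[O] R, (X - C (g (algebraMap O R c * y)))) ∈ lifts (algebraMap O R) := by
    rw [lifts_iff_coeff_lifts]
    intro n
    simp only [e]
    rw [← scale_prod, coeff_scaleRoots]
    rcases lt_trichotomy n (∏ g : R ≃ₐ[O] R, (X - C (g y))).natDegree with hn | hn | hn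
    · obtain ⟨b, hb⟩ := h n
      obtain ⟨t, ht⟩ := Nat.exists_eq_add_of_lt hn
      refine ⟨b * c ^ t, ?_⟩
      rw [ht, show n + t + 1 - n = t + 1 by omega, map_mul, map_pow, hb]
      ring
    · rw [hn, (hm _).coeff_natDegree, Nat.sub_self, pow_zero, mul_one]
      exact ⟨1, map_one _⟩
    · rw [coeff_eq_zero_of_natDegree_lt hn, zero_mul]
      exact ⟨0, map_zero _⟩
  obtain ⟨H, h1, h2, h3⟩ := lifts_and_natDegree_eq_and_monic hl (hm _)
  refine ⟨algebraMap O R c * y, H, fun g g' hg => hy ?_, h3, ?_, h1⟩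
  · simp only [e] at hg
    exact mul_left_cancel₀ ((map_ne_zero_iff _ hinj).2 hc) hg
  · rw [h2, natDegree_finsetProd_X_sub_C_eq_card, Finset.card_univ]

omit [IsDomain O] in
theorem small_zero [Fintype (R ≃ₐ[O] R)] (hinj : Function.Injective (algebraMap O R)) {y : R}
    (hy : Function.Injective fun g : R ≃ₐ[O] R => g y) {P : O[X]} (h0 : aeval y P = 0)
    (hP : P.natDegree < Fintype.card (R ≃ₐ[O] R)) : P = 0 := by
  refine map_injective _ hinj ?_
  rw [Polynomial.map_zero]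
  refine eq_zero_of_natDegree_lt_card_of_eval_eq_zero _ hy (fun g => ?_)
    (natDegree_map_le.trans_lt hP)
  rw [eval_map_algebraMap, aeval_algHom_apply, h0, map_zero]

omit [IsDomain O] [IsDomain R] in
theorem root_zero [Fintype (R ≃ₐ[O] R)] {y : R} {H : O[X]}
    (hH : H.map (algebraMap O R) = ∏ g : R ≃ₐ[O] R, (X - C (g y))) : aeval y H = 0 := by
  rw [← eval_map_algebraMap, hH, eval_prod]
  exact Finset.prod_eq_zero (Finset.mem_univ 1) (by simp)

omit [IsDomain O] in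
theorem ker_dvd [Fintype (R ≃ₐ[O] R)] (hinj : Function.Injective (algebraMap O R)) {y : R}
    (hy : Function.Injective fun g : R ≃ₐ[O] R => g y) {H : O[X]} (hm : H.Monic)
    (hd : H.natDegree = Fintype.card (R ≃ₐ[O] R))
    (hH : H.map (algebraMap O R) = ∏ g : R ≃ₐ[O] R, (X - C (g y))) {P : O[X]}
    (h0 : aeval y P = 0) : H ∣ P := by
  rw [← modByMonic_eq_zero_iff_dvd hm]
  refine small_zero hinj hy ?_ ?_
  · rw [aeval_modByMonic_eq_self_of_root (root_zero hH), h0]
  · rw [← hd]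
    refine natDegree_modByMonic_lt P hm fun h => ?_
    rw [h, natDegree_one] at hd
    exact Fintype.card_pos.ne hd

theorem exists_den [Fintype (R ≃ₐ[O] R)] (hinj : Function.Injective (algebraMap O R))
    (hfg : (⊤ : Subalgebra O R).FG)
    (hfix : ∀ r : R, (∀ g : R ≃ₐ[O] R, g r = r) → ∃ a b : O, a ≠ 0 ∧ a • r = algebraMap O R b)
    {y : R} (hy : Function.Injective fun g : R ≃ₐ[O] R => g y) :
    ∃ D : O, D ≠ 0 ∧ (∀ r : R, ∃ (N : ℕ) (P : O[X]), algebraMap O R D ^ N * r = aeval y P) ∧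
      ∀ (k : Type) [Field k] (φ : R →+* k), φ (algebraMap O R D) ≠ 0 →
        Function.Injective fun g : R ≃ₐ[O] R => φ (g y) := by
  classical
  obtain ⟨E, hE⟩ : ∃ E : R[X], E = ∏ g ∈ Finset.univ.erase (1 : R ≃ₐ[O] R), (X - C (g y)) :=
    ⟨_, rfl⟩
  have e1 : ∀ (g : R ≃ₐ[O] R) (z : R), (E.map (g : R →+* R)).eval z =
      ∏ g' ∈ Finset.univ.erase (1 : R ≃ₐ[O] R), (z - (g * g') y) := fun g z => by
    simp [hE, Polynomial.map_prod, eval_prod]
  have e2 : ∀ g : R ≃ₐ[O] R, g (E.eval y) =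
      ∏ g' ∈ Finset.univ.erase (1 : R ≃ₐ[O] R), (g y - (g * g') y) := fun g => by
    simp [hE, eval_prod]
  obtain ⟨a, b, ha, hb⟩ := hfix (∏ g : R ≃ₐ[O] R, g (E.eval y)) fun h => by
    rw [map_prod, ← Equiv.prod_comp (Equiv.mulLeft h) fun g => g (E.eval y)]
    simp
  have hδ : ∏ g : R ≃ₐ[O] R, g (E.eval y) ≠ 0 := by
    refine Finset.prod_ne_zero_iff.2 fun g _ => ?_
    rw [e2]
    refine Finset.prod_ne_zero_iff.2 fun g' hg' h => (Finset.mem_erase.1 hg').1 ?_
    exact (left_eq_mul.1 (hy (sub_eq_zero.1 h)))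
  rw [Algebra.smul_def] at hb
  have hb0 : b ≠ 0 := by
    rintro rfl
    rw [map_zero] at hb
    exact mul_ne_zero ((map_ne_zero_iff _ hinj).2 ha) hδ hb
  have h1 : ∀ r : R, ∃ c : O, c ≠ 0 ∧ ∃ P : O[X], algebraMap O R c * (r * E.eval y) = aeval y P := by
    intro r
    obtain ⟨c, hc, h⟩ := clear hfix (∑ g : R ≃ₐ[O] R, C (g r) * E.map (g : R →+* R)) fun h => by
      rw [Polynomial.map_sum,
        ← Equiv.sum_comp (Equiv.mulLeft h) fun g => C (g r) * E.map (g : R →+* R)]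
      refine Finset.sum_congr rfl fun g _ => ?_
      rw [Polynomial.map_mul, map_C, Polynomial.map_map]
      rfl
    obtain ⟨P, hP⟩ := (mem_lifts _).1 ((lifts_iff_coeff_lifts (f := algebraMap O R)
      (C (algebraMap O R c) * ∑ g : R ≃ₐ[O] R, C (g r) * E.map (g : R →+* R))).2 fun n => by
        rw [coeff_C_mul]; exact h n)
    refine ⟨c, hc, P, ?_⟩
    rw [← eval_map_algebraMap, hP, eval_mul, eval_C, eval_finsetSum, Finset.sum_eq_single 1]
    · rw [eval_mul, eval_C, e1, hE, eval_prod]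
      simp
    · intro g _ hg
      rw [eval_mul, e1, Finset.prod_eq_zero (i := g⁻¹) (by simpa using hg) (by simp), mul_zero]
    · simp
  have h2 : ∀ r : R, ∃ c : O, c ≠ 0 ∧ ∃ P : O[X], algebraMap O R c * r = aeval y P := by
    intro r
    obtain ⟨c, hc, P, h⟩ := h1 (r * ∏ g ∈ Finset.univ.erase (1 : R ≃ₐ[O] R), g (E.eval y))
    refine ⟨c * b, mul_ne_zero hc hb0, C a * P, ?_⟩
    rw [map_mul, map_mul, aeval_C, ← h, ← hb, ← Finset.prod_erase_mul _ _ (Finset.mem_univ 1)]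
    simp only [AlgEquiv.one_apply]
    ring
  choose c hc Q hQ using h2
  obtain ⟨s, hs⟩ := hfg
  refine ⟨b * ∏ z ∈ s, c z, mul_ne_zero hb0 (Finset.prod_ne_zero_iff.2 fun z _ => hc z),
    fun r => ?_, fun k _ φ hφ g g' h => ?_⟩
  · have hr : r ∈ Algebra.adjoin O (s : Set R) := hs ▸ Algebra.mem_top
    induction hr using Algebra.adjoin_induction with
    | mem z hz =>
      refine ⟨1, C (b * ∏ w ∈ s.erase z, c w) * Q z, ?_⟩
      rw [← Finset.prod_erase_mul _ _ hz, map_mul (aeval y), aeval_C, ← hQ]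
      simp only [map_mul]
      ring
    | algebraMap a => exact ⟨0, C a, by simp⟩
    | add u v _ _ hu hv =>
      obtain ⟨N, P, hP⟩ := hu
      obtain ⟨N', P', hP'⟩ := hv
      refine ⟨N + N', C (b * ∏ z ∈ s, c z) ^ N' * P + C (b * ∏ z ∈ s, c z) ^ N * P', ?_⟩
      rw [map_add, map_mul (aeval y), map_mul (aeval y), map_pow, map_pow, aeval_C, ← hP, ← hP']
      ring
    | mul u v _ _ hu hv =>
      obtain ⟨N, P, hP⟩ := hu
      obtain ⟨N', P', hP'⟩ := hv
      refine ⟨N + N', P * P', ?_⟩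
      rw [map_mul (aeval y), ← hP, ← hP']
      ring
  · by_contra hne
    apply hφ
    rw [map_mul, map_mul, ← hb, map_mul, map_prod φ, Finset.prod_eq_zero (Finset.mem_univ g)]
    · simp
    · rw [e2, map_prod]
      refine Finset.prod_eq_zero (i := g⁻¹ * g') ?_ ?_
      · simpa [inv_mul_eq_one] using hne
      · rw [mul_inv_cancel_left, map_sub]
        exact sub_eq_zero.2 h

omit [IsDomain O] [IsDomain R] in
theorem hom_aeval {k : Type} [Field k] {χ : O →+* k} {φ : R →+* k}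
    (h : ∀ a, φ (algebraMap O R a) = χ a) (y : R) (P : O[X]) :
    φ (aeval y P) = P.eval₂ χ (φ y) := by
  rw [aeval_def, hom_eval₂]
  congr 1
  exact RingHom.ext h

omit [IsDomain O] [IsDomain R] in
theorem hom_uniq {y : R} {D : O}
    (hD : ∀ r : R, ∃ (N : ℕ) (P : O[X]), algebraMap O R D ^ N * r = aeval y P)
    {k : Type} [Field k] {χ : O →+* k} (h0 : χ D ≠ 0) {φ φ' : R →+* k}
    (h : ∀ a, φ (algebraMap O R a) = χ a) (h' : ∀ a, φ' (algebraMap O R a) = χ a)
    (hy : φ y = φ' y) (r : R) : φ r = φ' r := by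
  obtain ⟨N, P, hP⟩ := hD r
  have h1 := congrArg φ hP
  have h2 := congrArg φ' hP
  rw [map_mul, map_pow, h, hom_aeval h] at h1
  rw [map_mul, map_pow, h', hom_aeval h', ← hy, ← h1] at h2
  exact (mul_left_cancel₀ (pow_ne_zero N h0) h2).symm

omit [IsDomain O] [IsDomain R] in
theorem hom_extend {y : R} {D : O} {H : O[X]}
    (hD : ∀ r : R, ∃ (N : ℕ) (P : O[X]), algebraMap O R D ^ N * r = aeval y P)
    (hk : ∀ P : O[X], aeval y P = 0 → H ∣ P)
    {k : Type} [Field k] {χ : O →+* k} (h0 : χ D ≠ 0) {z : k} (hz : H.eval₂ χ z = 0) :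
    ∃ φ : R →+* k, (∀ a, φ (algebraMap O R a) = χ a) ∧ φ y = z := by
  choose N P hP using hD
  have key : ∀ (r : R) (n : ℕ) (Q : O[X]), algebraMap O R D ^ n * r = aeval y Q →
      χ D ^ n * ((P r).eval₂ χ z / χ D ^ N r) = Q.eval₂ χ z := by
    intro r n Q hQ
    obtain ⟨T, hT⟩ := hk (C D ^ n * P r - C D ^ N r * Q) (by
      rw [map_sub, map_mul, map_mul, map_pow, map_pow, aeval_C, ← hP, ← hQ]
      ring)
    have h1 := congrArg (eval₂RingHom χ z) hT
    simp only [map_sub, map_mul, map_pow, coe_eval₂RingHom, eval₂_C, hz, zero_mul] at h1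
    field_simp
    linear_combination h1
  obtain ⟨u, hu⟩ : ∃ u : R → k, ∀ (r : R) (n : ℕ) (Q : O[X]),
      algebraMap O R D ^ n * r = aeval y Q → χ D ^ n * u r = Q.eval₂ χ z := ⟨_, key⟩
  have ha : ∀ a, u (algebraMap O R a) = χ a := fun a => by
    simpa using hu (algebraMap O R a) 0 (C a) (by simp)
  refine ⟨⟨⟨⟨u, by simpa using ha 1⟩, fun r s => ?_⟩, by simpa using ha 0, fun r s => ?_⟩, ha,
    by simpa using hu y 0 X (by simp)⟩
  · have h := hu (r * s) (N r + N s) (P r * P s) (by rw [map_mul, ← hP, ← hP]; ring)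
    rw [eval₂_mul, ← hu r _ _ (hP r), ← hu s _ _ (hP s)] at h
    refine mul_left_cancel₀ (pow_ne_zero (N r + N s) h0) (h.trans ?_)
    ring
  · have h := hu (r + s) (N r + N s) (C D ^ N s * P r + C D ^ N r * P s) (by
      rw [map_add, map_mul, map_mul, map_pow, map_pow, aeval_C, ← hP, ← hP]; ring)
    rw [eval₂_add, eval₂_mul, eval₂_mul, eval₂_pow, eval₂_pow, eval₂_C, ← hu r _ _ (hP r),
      ← hu s _ _ (hP s)] at h
    refine mul_left_cancel₀ (pow_ne_zero (N r + N s) h0) (h.trans ?_)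
    ring

end Pool.Agent.MP_9b2bac_nt.Z.ZCheb

end

section

set_option autoImplicit false

namespace Pool.Agent.MP_9b2bac_nt.Z.ZCheb

open Polynomial

theorem spec_indep {B J : Type} [CommRing B] [IsDomain B] [Fintype J] (u : J → ℕ → B)
    (hu : LinearIndependent B u) : ∃ ν : B, ν ≠ 0 ∧ ∀ (k : Type) [Field k] (ψ : B →+* k),
      ψ ν ≠ 0 → ∀ c : J → k, (∀ t, ∑ j, c j * ψ (u j t) = 0) → ∀ j, c j = 0 := by
  classical
  have hi := IsFractionRing.injective B (FractionRing B)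
  have hK : LinearIndependent (FractionRing B) fun j t => algebraMap B (FractionRing B) (u j t) :=
    (hu.map' ((Algebra.linearMap B (FractionRing B)).compLeft ℕ) (LinearMap.ker_eq_bot.2
      fun v w h => funext fun t => hi (congrFun h t))).localization _ (nonZeroDivisors B)
  have htop : Submodule.span (FractionRing B)
      (Set.range fun t j => algebraMap B (FractionRing B) (u j t)) = ⊤ := by
    by_contra h
    obtain ⟨f, hf, hle⟩ := Submodule.exists_le_ker_of_lt_top _ (lt_top_iff_ne_top.2 h)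
    have h1 := Fintype.linearIndependent_iff.1 hK (fun j => f fun i => if j = i then 1 else 0)
      (funext fun t => by
        have h2 : f _ = 0 := hle (Submodule.subset_span ⟨t, rfl⟩)
        rw [LinearMap.pi_apply_eq_sum_univ] at h2
        simpa [mul_comm] using h2)
    refine hf (LinearMap.ext fun x => ?_)
    rw [LinearMap.pi_apply_eq_sum_univ]
    simp [h1]
  have h : ∀ j₀ : J, ∃ ν : B, ν ≠ 0 ∧ ∃ w : ℕ →₀ B, ∀ j,
      ∑ t ∈ w.support, w t * u j t = if j = j₀ then ν else 0 := by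
    intro j₀
    obtain ⟨ν, hν⟩ := multiple_mem_span_of_mem_localization_span (nonZeroDivisors B)
      (FractionRing B) _ (fun j => if j = j₀ then (1 : FractionRing B) else 0)
      (htop ▸ Submodule.mem_top)
    obtain ⟨w, hw⟩ := Finsupp.mem_span_range_iff_exists_finsupp.1 hν
    refine ⟨ν, nonZeroDivisors.coe_ne_zero ν, w, fun j => hi ?_⟩
    have h2 := congrFun hw j
    simp only [Finsupp.sum, Finset.sum_apply, Pi.smul_apply, Submonoid.smul_def] at h2
    simp only [Algebra.smul_def] at h2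
    simp only [map_sum, map_mul, h2]
    split_ifs <;> simp
  choose ν hν w hw using h
  refine ⟨∏ j, ν j, Finset.prod_ne_zero_iff.2 fun j _ => hν j, fun k _ ψ hψ c hc j₀ => ?_⟩
  rw [map_prod, Finset.prod_ne_zero_iff] at hψ
  have h1 : ∑ j, c j * ψ (if j = j₀ then ν j₀ else 0) = 0 := by
    simp only [← hw, map_sum, map_mul, Finset.mul_sum]
    rw [Finset.sum_comm]
    refine Finset.sum_eq_zero fun t _ => ?_
    rw [← mul_zero (ψ (w j₀ t)), ← hc t, Finset.mul_sum]
    exact Finset.sum_congr rfl fun j _ => by ring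
  simp only [apply_ite ψ, map_zero, mul_ite, mul_zero, Finset.sum_ite_eq', Finset.mem_univ,
    if_true] at h1
  exact (mul_eq_zero.1 h1).resolve_right (hψ j₀ (Finset.mem_univ _))

theorem exists_bd {A : Type} [CommRing A] (F : A[X][X]) :
    ∃ D, F.natDegree ≤ D ∧ ∀ i, (F.coeff i).natDegree ≤ D := by
  refine ⟨max F.natDegree (F.support.sup fun i => (F.coeff i).natDegree), le_max_left _ _,
    fun i => ?_⟩
  by_cases hi : i ∈ F.support
  · exact le_max_of_le_right (Finset.le_sup (f := fun i => (F.coeff i).natDegree) hi)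
  · simp [notMem_support_iff.1 hi]

theorem coeff_swap {A : Type} [CommRing A] (F : A[X][X]) (i j : ℕ) :
    ((Bivariate.swap F).coeff i).coeff j = (F.coeff j).coeff i := by
  induction F using Polynomial.induction_on' with
  | add p q hp hq => simp [hp, hq]
  | monomial n f =>
    rw [Bivariate.swap_monomial, coeff_mul_C, coeff_map, coeff_C_mul, coeff_X_pow, coeff_monomial]
    by_cases h : n = j
    · simp [h]
    · simp [h, Ne.symm h]

theorem swap_le {A : Type} [CommRing A] (F : A[X][X]) (D : ℕ) :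
    (Bivariate.swap F).natDegree ≤ D ↔ ∀ i, (F.coeff i).natDegree ≤ D := by
  simp only [natDegree_le_iff_coeff_eq_zero, ← coeff_swap F]
  exact ⟨fun h i N hN => by rw [h N hN, coeff_zero], fun h N hN => ext fun i => h i N hN⟩

theorem factor_bd {k : Type} [Field k] {F G : k[X][X]} (h : F ∣ G) (hG : G ≠ 0) {D : ℕ}
    (hD : ∀ i, (G.coeff i).natDegree ≤ D) : ∀ i, (F.coeff i).natDegree ≤ D :=
  (swap_le F D).1 ((natDegree_le_of_dvd (map_dvd Bivariate.swap h)
    ((map_ne_zero_iff _ Bivariate.swap.injective).2 hG)).trans ((swap_le G D).2 hD))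

theorem dbl_coeff {S : Type} [CommRing S] {n m : ℕ} (c : Fin n × Fin m → S) (i j : ℕ) :
    ((∑ p : Fin n × Fin m, monomial (p.2 : ℕ) (monomial (p.1 : ℕ) (c p))).coeff j).coeff i =
      if h : i < n ∧ j < m then c (⟨i, h.1⟩, ⟨j, h.2⟩) else 0 := by
  simp only [finsetSum_coeff, coeff_monomial, apply_ite (coeff · i), coeff_zero]
  split_ifs with h
  · rw [Finset.sum_eq_single (⟨i, h.1⟩, ⟨j, h.2⟩)]
    · simp
    · rintro ⟨a, b⟩ _ hne
      split_ifs with h1 h2
      · exact absurd (Prod.ext (Fin.ext h2) (Fin.ext h1)) hne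
      · rfl
      · rfl
    · simp
  · refine Finset.sum_eq_zero fun p _ => ?_
    split_ifs with h1 h2
    · exact absurd ⟨h2 ▸ p.1.2, h1 ▸ p.2.2⟩ h
    · rfl
    · rfl

theorem irred (A B : Type) [CommRing A] [IsDomain A] [CommRing B] [IsDomain B]
    [Algebra A B] (Δ : A) (hΔ : Δ ≠ 0) [IsLocalization.Away Δ B] (y : PowerSeries B)
    (H : A[X][X]) (hm : H.Monic) (hd : 0 < H.natDegree) (h0 : aeval y H = 0)
    (hs : ∀ P : A[X][X], aeval y P = 0 → P.natDegree < H.natDegree → P = 0) :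
    ∃ ν : A, ν ≠ 0 ∧ ∀ (k : Type) [Field k] (ψ : A →+* k), ψ ν ≠ 0 →
      Irreducible (H.map (mapRingHom ψ)) := by
  obtain ⟨D, -, hD⟩ := exists_bd H
  have hu : LinearIndependent A fun (p : Fin (D + 1) × Fin H.natDegree) (t : ℕ) =>
      PowerSeries.coeff t (PowerSeries.X ^ (p.1 : ℕ) * y ^ (p.2 : ℕ)) := by
    rw [Fintype.linearIndependent_iff]
    intro c hc p
    have h1 := hs (∑ p : Fin (D + 1) × Fin H.natDegree,
      monomial (p.2 : ℕ) (monomial (p.1 : ℕ) (c p))) ?_ ?_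
    · have h2 := dbl_coeff c p.1 p.2
      rw [h1, dif_pos ⟨p.1.2, p.2.2⟩] at h2
      simpa using h2.symm
    · ext t
      have h2 := congrFun hc t
      simp only [Finset.sum_apply, Algebra.smul_def, Pi.zero_apply] at h2
      simp only [map_sum, aeval_monomial, PowerSeries.algebraMap_apply', ← C_mul_X_pow_eq_monomial
        (R := A), Polynomial.coe_C, Polynomial.coe_X, map_mul, map_pow, PowerSeries.map_C, PowerSeries.map_X, mul_assoc, PowerSeries.coeff_C_mul,
        map_zero]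
      exact h2
    · refine lt_of_le_of_lt (natDegree_sum_le_of_forall_le _ _ (n := H.natDegree - 1)
        fun p _ => (natDegree_monomial_le _).trans ?_) (by omega)
      have := p.2.2
      omega
  obtain ⟨ν, hν, h⟩ := spec_indep _ (hu.localization B (Submonoid.powers Δ))
  obtain ⟨⟨ν₁, _, n, rfl⟩, hn⟩ := IsLocalization.surj (Submonoid.powers Δ) ν
  simp only at hn
  have hu' : IsUnit (algebraMap A B (Δ ^ n)) :=
    IsLocalization.map_units B (⟨Δ ^ n, n, rfl⟩ : Submonoid.powers Δ)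
  refine ⟨ν₁ * Δ, mul_ne_zero (fun e => ?_) hΔ, fun k _ ψ hψ => ?_⟩
  · rw [e, map_zero] at hn
    exact mul_ne_zero hν hu'.ne_zero hn
  rw [map_mul, mul_ne_zero_iff] at hψ
  obtain ⟨χ, hχ⟩ : ∃ χ : B →+* k, ∀ a, χ (algebraMap A B a) = ψ a :=
    ⟨IsLocalization.Away.lift Δ (g := ψ) hψ.2.isUnit, fun a => IsLocalization.Away.lift_eq _ _ a⟩
  have hχν : χ ν ≠ 0 := fun e => hψ.1 (by rw [← hχ, ← hn, map_mul, e, zero_mul])
  have hm' := hm.map (mapRingHom ψ)
  have hd' : (H.map (mapRingHom ψ)).natDegree = H.natDegree := hm.natDegree_map _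
  have key : ∀ F : k[X][X], F.Monic → F ∣ H.map (mapRingHom ψ) → F.natDegree < H.natDegree →
      F.eval₂ coeToPowerSeries.ringHom (PowerSeries.map χ y) ≠ 0 := by
    intro F hF hdvd hlt hz
    have hb := factor_bd hdvd hm'.ne_zero (D := D) fun i => by
      rw [coeff_map]
      exact natDegree_map_le.trans (hD i)
    have e : F = ∑ p : Fin (D + 1) × Fin H.natDegree,
        monomial (p.2 : ℕ) (monomial (p.1 : ℕ) ((F.coeff p.2).coeff p.1)) := by
      ext j i
      rw [dbl_coeff fun p : Fin (D + 1) × Fin H.natDegree => (F.coeff p.2).coeff p.1]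
      split_ifs with c
      · rfl
      · rcases not_and_or.1 c with c | c
        · exact coeff_eq_zero_of_natDegree_lt (by have := hb j; omega)
        · rw [coeff_eq_zero_of_natDegree_lt (p := F) (by omega), coeff_zero]
    have h1 := h k χ hχν (fun p => (F.coeff p.2).coeff p.1) fun t => by
      have h2 := congrArg (PowerSeries.coeff t) hz
      rw [e, eval₂_finsetSum] at h2
      simp only [map_sum, eval₂_monomial, coeToPowerSeries.ringHom_apply, ← C_mul_X_pow_eq_monomial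
        (R := k), Polynomial.coe_mul, Polynomial.coe_C, Polynomial.coe_pow, Polynomial.coe_X,
        mul_assoc, PowerSeries.coeff_C_mul, map_zero] at h2
      simpa only [← PowerSeries.coeff_map, map_mul, map_pow, PowerSeries.map_X] using h2
    refine hF.ne_zero (e.trans (Finset.sum_eq_zero fun p _ => ?_))
    rw [h1 p, map_zero, map_zero]
  rw [hm'.irreducible_iff_natDegree]
  refine ⟨fun e => ?_, fun F G hF hG e => ?_⟩
  · rw [e, natDegree_one] at hd'
    omega
  by_contra hc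
  rw [not_or] at hc
  have h1 := hF.natDegree_mul hG
  rw [e, hd'] at h1
  have h2 : (H.map (mapRingHom ψ)).eval₂ coeToPowerSeries.ringHom (PowerSeries.map χ y) = 0 := by
    have h3 := congrArg (PowerSeries.map χ) h0
    rw [aeval_def, hom_eval₂, map_zero] at h3
    rw [eval₂_map, ← h3]
    congr 1
    refine RingHom.ext fun a => PowerSeries.ext fun t => ?_
    simp [PowerSeries.algebraMap_apply', hχ]
  rw [← e, eval₂_mul] at h2
  rcases mul_eq_zero.1 h2 with h2 | h2
  · exact key F hF ⟨G, e.symm⟩ (by omega) h2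
  · exact key G hG ⟨F, by rw [← e, mul_comm]⟩ (by omega) h2

end Pool.Agent.MP_9b2bac_nt.Z.ZCheb

end

section

set_option autoImplicit false

namespace Pool.Agent.MP_9b2bac_nt.Z

open Polynomial

namespace ZCheb

theorem map_ev {A k : Type} [CommRing A] [Field k] (ψ : A →+* k) (F : A[X][X]) (x : k) :
    (F.map (mapRingHom ψ)).map (evalRingHom x) = F.map (eval₂RingHom ψ x) := by
  rw [Polynomial.map_map]
  congr 1
  exact RingHom.ext fun a => eval_map ψ x

theorem evalEval_map {A k : Type} [CommRing A] [Field k] (ψ : A →+* k) (F : A[X][X]) (x z : k) :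
    (F.map (mapRingHom ψ)).evalEval x z = F.eval₂ (eval₂RingHom ψ x) z := by
  rw [← map_evalRingHom_eval, map_ev, eval_map]

theorem fin_fix (k : Type) [Field k] {q : ℕ} (hq : 1 < q) : {x : k | x ^ q = x}.Finite := by
  refine (finite_setOfPred_isRoot (FiniteField.X_pow_card_sub_X_ne_zero k hq)).subset fun x hx => ?_
  simpa [sub_eq_zero] using hx

theorem fin_pts {k : Type} [Field k] {q : ℕ} (hq : 1 < q) {H : k[X][X]} (hm : H.Monic) :
    {P : k × k | P.1 ^ q = P.1 ∧ H.evalEval P.1 P.2 = 0}.Finite := by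
  refine ((fin_fix k hq).biUnion fun x _ => (finite_setOfPred_isRoot
    (hm.map (evalRingHom x)).ne_zero).image fun z => (x, z)).subset ?_
  rintro ⟨x, z⟩ ⟨h1, h2⟩
  exact Set.mem_biUnion h1 ⟨z, by rwa [← map_evalRingHom_eval] at h2, rfl⟩

theorem map_split {O R k : Type} [CommRing O] [CommRing R] [Algebra O R] [Field k]
    [Fintype (R ≃ₐ[O] R)] {y : R} {H : O[X]}
    (hH : H.map (algebraMap O R) = ∏ g : R ≃ₐ[O] R, (X - C (g y))) {χ : O →+* k} {φ : R →+* k}
    (h : ∀ a, φ (algebraMap O R a) = χ a) :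
    H.map χ = ∏ g : R ≃ₐ[O] R, (X - C (φ (g y))) := by
  rw [← show φ.comp (algebraMap O R) = χ from RingHom.ext h, ← Polynomial.map_map, hH]
  simp [Polynomial.map_prod]


theorem cheb_gen (Q : ℕ → ℕ → ℕ → Prop) (hQ : ∀ p₀ p f, p.Prime → Q p₀ p f → 1 < p ^ f)
    (step : ∀ m D₀ : ℕ, ∃ p₀ : ℕ, ∀ (p f : ℕ) [Fact p.Prime] (k : Type) [Field k]
      [IsAlgClosed k] [CharP k p], Q p₀ p f → ∀ (H h : k[X][X]) (D : k[X]),
      H.Monic → H.natDegree = m → Irreducible H → (∀ i, (H.coeff i).natDegree ≤ D₀) →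
      h.natDegree ≤ D₀ → (∀ i, (h.coeff i).natDegree ≤ D₀) → D.natDegree ≤ D₀ →
      {P : k × k | P.1 ^ p ^ f = P.1 ∧ H.evalEval P.1 P.2 = 0 ∧
        (H.map (evalRingHom P.1)).Separable ∧ D.eval P.1 ≠ 0 ∧
        D.eval P.1 * P.2 ^ p ^ f = h.evalEval P.1 P.2}.ncard ≤ 10 * p ^ f)
    (A B : Type) [CommRing A] [IsDomain A] [CommRing B] [IsDomain B]
    [Algebra A B] (Δ : A) (hΔ : Δ ≠ 0) [IsLocalization.Away Δ B]
    (R : Subalgebra A[X] (PowerSeries B)) (hfg : R.FG) [Finite (R ≃ₐ[A[X]] R)]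
    (hfix : ∀ r : R, (∀ g : R ≃ₐ[A[X]] R, g r = r) →
      ∃ a b : A[X], a ≠ 0 ∧ a • r = algebraMap A[X] R b)
    (ι : Type) [Finite ι] (θ : ι → R ≃+* R) (τ : ι → A ≃+* A)
    (hθX : ∀ i, θ i (algebraMap A[X] R X) = algebraMap A[X] R X)
    (hθC : ∀ i a, θ i (algebraMap A[X] R (C a)) = algebraMap A[X] R (C (τ i a))) :
    ∃ ν : A, ν ≠ 0 ∧ ∃ D₁ p₀ : ℕ, ∀ (p f : ℕ) [Fact p.Prime] (k : Type) [Field k]
      [IsAlgClosed k] [CharP k p], Q p₀ p f → ∀ ψ : A →+* k, ψ ν ≠ 0 →
      ∀ i : ι, (∀ a, ψ a ^ p ^ f = ψ (τ i a)) →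
      ∀ (Bad : Set (R ≃ₐ[A[X]] R)) (S : Set k), (∀ x ∈ S, x ^ p ^ f = x) →
      (∀ x ∈ S, ∀ φ : R →+* k, φ (algebraMap A[X] R X) = x →
        (∀ a, φ (algebraMap A[X] R (C a)) = ψ a) →
        ∀ g : R ≃ₐ[A[X]] R, (∀ r, φ r ^ p ^ f = φ (g (θ i r))) → g ∈ Bad) →
      Nat.card (R ≃ₐ[A[X]] R) * S.ncard ≤
        10 * p ^ f * Bad.ncard + Nat.card (R ≃ₐ[A[X]] R) * D₁ := by
  classical
  have := Fintype.ofFinite (R ≃ₐ[A[X]] R)
  have hB : Function.Injective (algebraMap A B) :=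
    IsLocalization.injective B (powers_le_nonZeroDivisors_of_noZeroDivisors hΔ)
  have hinj : Function.Injective (algebraMap A[X] R) := fun a b h => ext fun n => hB (by
    have h1 : algebraMap A[X] (PowerSeries B) a = algebraMap A[X] (PowerSeries B) b :=
      congrArg Subtype.val h
    simpa [PowerSeries.algebraMap_apply'] using congrArg (PowerSeries.coeff n) h1)
  obtain ⟨y, H, hy, hm, hd, hH⟩ := exists_poly hinj hfix
  obtain ⟨D, hD0, hD, hsep⟩ := exists_den hinj (R.fg_top.2 hfg) hfix hy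
  have hv : ∀ P : A[X][X], aeval (y : PowerSeries B) P = ((aeval y P : R) : PowerSeries B) :=
    fun P => aeval_algHom_apply R.val y P
  obtain ⟨ν, hν, hirr⟩ := irred A B Δ hΔ y H hm (hd ▸ Fintype.card_pos)
    (by rw [hv, root_zero hH]; rfl) fun P h1 h2 =>
      small_zero hinj hy (Subtype.ext ((hv P).symm.trans h1)) (hd ▸ h2)
  have hD' := hD
  choose N P hP using hD'
  choose bd hbd1 hbd2 using exists_bd (A := A)
  obtain ⟨D₁, hD₁⟩ := (Set.finite_range fun t : (R ≃ₐ[A[X]] R) × ι =>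
    max (bd (P (t.1 (θ t.2 y)))) (D ^ N (t.1 (θ t.2 y))).natDegree).bddAbove
  obtain ⟨p₀, hp₀⟩ := step H.natDegree (max D₁ (bd H))
  refine ⟨ν * D.leadingCoeff, mul_ne_zero hν (leadingCoeff_ne_zero.2 hD0), D.natDegree, p₀,
    fun p f _ k _ _ _ hp ψ hψ i hi Bad S hS hB => ?_⟩
  rw [map_mul, mul_ne_zero_iff] at hψ
  have hq : 1 < p ^ f := hQ _ _ _ Fact.out hp
  obtain ⟨T, hT⟩ : ∃ T : (R ≃ₐ[A[X]] R) → Set (k × k), ∀ g, T g = {Q : k × k |
      Q.1 ^ p ^ f = Q.1 ∧ (H.map (mapRingHom ψ)).evalEval Q.1 Q.2 = 0 ∧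
      ((H.map (mapRingHom ψ)).map (evalRingHom Q.1)).Separable ∧
      ((D ^ N (g (θ i y))).map ψ).eval Q.1 ≠ 0 ∧
      ((D ^ N (g (θ i y))).map ψ).eval Q.1 * Q.2 ^ p ^ f =
        ((P (g (θ i y))).map (mapRingHom ψ)).evalEval Q.1 Q.2} := ⟨_, fun _ => rfl⟩
  have hT1 : ∀ g, (T g).ncard ≤ 10 * p ^ f := by
    intro g
    have h1 := (hD₁ ⟨(g, i), rfl⟩).trans (le_max_left D₁ (bd H))
    rw [max_le_iff] at h1
    rw [hT]
    refine hp₀ p f k hp _ _ _ (hm.map _) (hm.natDegree_map _) (hirr k ψ hψ.1) (fun j => ?_)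
      (natDegree_map_le.trans ((hbd1 _).trans h1.1)) (fun j => ?_) (natDegree_map_le.trans h1.2)
    · rw [coeff_map]
      exact natDegree_map_le.trans ((hbd2 H j).trans (le_max_right _ _))
    · rw [coeff_map]
      exact natDegree_map_le.trans ((hbd2 _ j).trans h1.1)
  have key : ∀ x ∈ S, eval₂RingHom ψ x D ≠ 0 → ∀ φ : R →+* k,
      (∀ a, φ (algebraMap A[X] R a) = eval₂RingHom ψ x a) → ∃ g ∈ Bad, (x, φ y) ∈ T g := by
    intro x hx h0 φ hφ
    have hX : φ (algebraMap A[X] R X) = x := by simp [hφ]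
    have hC : ∀ a, φ (algebraMap A[X] R (C a)) = ψ a := fun a => by simp [hφ]
    obtain ⟨φ', hφ'⟩ : ∃ φ' : R →+* k, ∀ r, φ' (θ i r) = φ r ^ p ^ f :=
      ⟨(iterateFrobenius k p f).comp (φ.comp (θ i).symm), fun r => by
        simp [iterateFrobenius_def]⟩
    have h1 : ∀ a, φ' (algebraMap A[X] R a) = eval₂RingHom ψ x a := by
      refine RingHom.congr_fun (f := φ'.comp (algebraMap A[X] R)) (ringHom_ext (fun a => ?_) ?_)
      · obtain ⟨a, rfl⟩ := (τ i).surjective a
        rw [RingHom.comp_apply, ← hθC, hφ', hC, hi]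
        simp
      · rw [RingHom.comp_apply, ← hθX i, hφ', hX, hS x hx]
        simp
    have hr : ∀ χ : R →+* k, (∀ a, χ (algebraMap A[X] R a) = eval₂RingHom ψ x a) →
        H.eval₂ (eval₂RingHom ψ x) (χ y) = 0 := fun χ hχ => by
      rw [← hom_aeval hχ, root_zero hH, map_zero]
    have h2 := hr φ' h1
    rw [← eval_map, map_split hH hφ, eval_prod, Finset.prod_eq_zero_iff] at h2
    obtain ⟨g, -, hg⟩ := h2
    rw [eval_sub, eval_X, eval_C, sub_eq_zero] at hg
    have h3 : ∀ r, φ r ^ p ^ f = φ (g (θ i r)) := fun r => by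
      rw [← hφ']
      exact hom_uniq hD h0 (φ' := φ.comp (g : R →+* R)) h1 (fun a => by simp [hφ]) hg _
    refine ⟨g, hB x hx φ hX hC g h3, ?_⟩
    have h4 : ((D ^ N (g (θ i y))).map ψ).eval x = eval₂RingHom ψ x D ^ N (g (θ i y)) := by
      rw [eval_map, ← map_pow]
      rfl
    rw [hT]
    refine ⟨hS x hx, ?_, ?_, ?_, ?_⟩
    · rw [evalEval_map]
      exact hr φ hφ
    · rw [map_ev, map_split hH hφ, separable_prod_X_sub_C_iff]
      exact hsep k φ (by rwa [hφ])
    · rw [h4]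
      exact pow_ne_zero _ h0
    · rw [h4, evalEval_map, ← hom_aeval hφ, ← hP, map_mul, map_pow, hφ, h3]
  obtain ⟨S', hS'⟩ : ∃ S' : Set k, S' = {x ∈ S | eval₂RingHom ψ x D ≠ 0} := ⟨_, rfl⟩
  have hex : ∀ x : S', ∃ φ : R →+* k, ∀ a, φ (algebraMap A[X] R a) = eval₂RingHom ψ x a := by
    rintro ⟨x, hx⟩
    rw [hS'] at hx
    obtain ⟨z, hz⟩ := IsAlgClosed.exists_root (H.map (eval₂RingHom ψ x)) (by
      rw [hm.degree_map, degree_eq_natDegree hm.ne_zero, hd]
      exact_mod_cast Fintype.card_pos.ne')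
    obtain ⟨φ, hφ, -⟩ := hom_extend hD (fun Q => ker_dvd hinj hy hm hd hH) hx.2
      (by rwa [← eval_map])
    exact ⟨φ, hφ⟩
  choose Φ hΦ using hex
  have hx : ∀ x : S', x.1 ∈ S ∧ eval₂RingHom ψ x D ≠ 0 := fun x => hS'.subset x.2
  have hF : Function.Injective fun t : (R ≃ₐ[A[X]] R) × S' => (t.2.1, Φ t.2 (t.1 y)) := by
    rintro ⟨g, x⟩ ⟨g', x'⟩ h
    simp only [Prod.mk.injEq] at h
    obtain rfl : x = x' := Subtype.ext h.1
    rw [hsep k (Φ x) (by rw [hΦ]; exact (hx x).2) h.2]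
  have h1 : Nat.card (R ≃ₐ[A[X]] R) * S'.ncard ≤ 10 * p ^ f * Bad.ncard := by
    rw [← Nat.card_coe_set_eq, ← Nat.card_prod, ← Nat.card_range_of_injective hF,
      Nat.card_coe_set_eq]
    refine (Set.ncard_le_ncard (t := ⋃ g ∈ Bad.toFinset, T g) ?_ ?_).trans
      ((Finset.set_ncard_biUnion_le _ _).trans ?_)
    · rintro _ ⟨⟨g, x⟩, rfl⟩
      obtain ⟨g', h1, h2⟩ := key x (hx x).1 (hx x).2 ((Φ x).comp (g : R →+* R))
        fun a => by simp [hΦ]
      exact Set.mem_biUnion (Set.mem_toFinset.2 h1) h2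
    · refine (fin_pts hq (hm.map (mapRingHom ψ))).subset (Set.iUnion₂_subset fun g _ => ?_)
      rw [hT]
      exact fun Q hQ => ⟨hQ.1, hQ.2.1⟩
    · refine (Finset.sum_le_card_nsmul _ _ _ fun g _ => hT1 g).trans (le_of_eq ?_)
      rw [smul_eq_mul, mul_comm, Set.ncard_eq_toFinset_card']
  have h2 : S.ncard ≤ S'.ncard + D.natDegree := by
    have h0 : D.map ψ ≠ 0 := fun e => hψ.2 (by rw [leadingCoeff, ← coeff_map, e, coeff_zero])
    refine (Set.ncard_le_ncard (t := S' ∪ (D.map ψ).roots.toFinset) (fun x hx => ?_)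
      ((((fin_fix k hq).subset hS).subset fun x h => (hx ⟨x, h⟩).1).union
        (Finset.finite_toSet _))).trans ((Set.ncard_union_le _ _).trans ?_)
    · by_cases c : eval₂RingHom ψ x D = 0
      · exact Or.inr (by simpa [h0, eval_map] using c)
      · exact Or.inl (hS' ▸ ⟨hx, c⟩)
    · rw [Set.ncard_coe_finset]
      exact Nat.add_le_add_left ((Multiset.toFinset_card_le _).trans
        ((card_roots' _).trans natDegree_map_le)) _
  calc _ ≤ Nat.card (R ≃ₐ[A[X]] R) * (S'.ncard + D.natDegree) := Nat.mul_le_mul_left _ h2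
    _ ≤ _ := by
      rw [mul_add]
      exact Nat.add_le_add_right h1 _

end ZCheb


/-- The count in any characteristic of `A`, for `q₀ ≤ p ^ f`, from the same form of the point bound. -/
theorem chebq_of
    (step : ∀ m D₀ : ℕ, ∃ q₀ : ℕ, ∀ (p f : ℕ) [Fact p.Prime] (k : Type) [Field k]
      [IsAlgClosed k] [CharP k p], q₀ ≤ p ^ f → ∀ (H h : k[X][X]) (D : k[X]),
      H.Monic → H.natDegree = m → Irreducible H → (∀ i, (H.coeff i).natDegree ≤ D₀) →
      h.natDegree ≤ D₀ → (∀ i, (h.coeff i).natDegree ≤ D₀) → D.natDegree ≤ D₀ →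
      {P : k × k | P.1 ^ p ^ f = P.1 ∧ H.evalEval P.1 P.2 = 0 ∧
        (H.map (evalRingHom P.1)).Separable ∧ D.eval P.1 ≠ 0 ∧
        D.eval P.1 * P.2 ^ p ^ f = h.evalEval P.1 P.2}.ncard ≤ 10 * p ^ f)
    (A B : Type) [CommRing A] [IsDomain A] [CommRing B] [IsDomain B]
    [Algebra A B] (Δ : A) (hΔ : Δ ≠ 0) [IsLocalization.Away Δ B]
    (R : Subalgebra A[X] (PowerSeries B)) (hfg : R.FG) [Finite (R ≃ₐ[A[X]] R)]
    (hfix : ∀ r : R, (∀ g : R ≃ₐ[A[X]] R, g r = r) →
      ∃ a b : A[X], a ≠ 0 ∧ a • r = algebraMap A[X] R b)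
    (ι : Type) [Finite ι] (θ : ι → R ≃+* R) (τ : ι → A ≃+* A)
    (hθX : ∀ i, θ i (algebraMap A[X] R X) = algebraMap A[X] R X)
    (hθC : ∀ i a, θ i (algebraMap A[X] R (C a)) = algebraMap A[X] R (C (τ i a))) :
    ∃ ν : A, ν ≠ 0 ∧ ∃ D₁ q₀ : ℕ, ∀ (p f : ℕ) [Fact p.Prime] (k : Type) [Field k]
      [IsAlgClosed k] [CharP k p], q₀ ≤ p ^ f → ∀ ψ : A →+* k, ψ ν ≠ 0 →
      ∀ i : ι, (∀ a, ψ a ^ p ^ f = ψ (τ i a)) →
      ∀ (Bad : Set (R ≃ₐ[A[X]] R)) (S : Set k), (∀ x ∈ S, x ^ p ^ f = x) →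
      (∀ x ∈ S, ∀ φ : R →+* k, φ (algebraMap A[X] R X) = x →
        (∀ a, φ (algebraMap A[X] R (C a)) = ψ a) →
        ∀ g : R ≃ₐ[A[X]] R, (∀ r, φ r ^ p ^ f = φ (g (θ i r))) → g ∈ Bad) →
      Nat.card (R ≃ₐ[A[X]] R) * S.ncard ≤
        10 * p ^ f * Bad.ncard + Nat.card (R ≃ₐ[A[X]] R) * D₁ := by
  obtain ⟨ν, hν, D₁, q₀, h⟩ := ZCheb.cheb_gen (fun q₀ p f => max q₀ 2 ≤ p ^ f)
    (fun _ _ _ _ h => (le_max_right _ _).trans h) (fun m D₀ => by
      obtain ⟨q₀, h⟩ := step m D₀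
      exact ⟨q₀, fun p f _ k _ _ _ hq => h p f k ((le_max_left _ _).trans hq)⟩)
    A B Δ hΔ R hfg hfix ι θ τ hθX hθC
  exact ⟨ν, hν, D₁, max q₀ 2, h⟩

end Pool.Agent.MP_9b2bac_nt.Z

end

section

set_option autoImplicit false

namespace Pool.Agent.MP_9b2bac_nt.Z

open Polynomial

theorem chebq (A B : Type) [CommRing A] [IsDomain A] [CommRing B] [IsDomain B]
    [Algebra A B] (Δ : A) (hΔ : Δ ≠ 0) [IsLocalization.Away Δ B]
    (R : Subalgebra A[X] (PowerSeries B)) (hfg : R.FG) [Finite (R ≃ₐ[A[X]] R)]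
    (hfix : ∀ r : R, (∀ g : R ≃ₐ[A[X]] R, g r = r) →
      ∃ a b : A[X], a ≠ 0 ∧ a • r = algebraMap A[X] R b)
    (ι : Type) [Finite ι] (θ : ι → R ≃+* R) (τ : ι → A ≃+* A)
    (hθX : ∀ i, θ i (algebraMap A[X] R X) = algebraMap A[X] R X)
    (hθC : ∀ i a, θ i (algebraMap A[X] R (C a)) = algebraMap A[X] R (C (τ i a))) :
    ∃ ν : A, ν ≠ 0 ∧ ∃ D₁ q₀ : ℕ, ∀ (p f : ℕ) [Fact p.Prime] (k : Type) [Field k]
      [IsAlgClosed k] [CharP k p], q₀ ≤ p ^ f → ∀ ψ : A →+* k, ψ ν ≠ 0 →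
      ∀ i : ι, (∀ a, ψ a ^ p ^ f = ψ (τ i a)) →
      ∀ (Bad : Set (R ≃ₐ[A[X]] R)) (S : Set k), (∀ x ∈ S, x ^ p ^ f = x) →
      (∀ x ∈ S, ∀ φ : R →+* k, φ (algebraMap A[X] R X) = x →
        (∀ a, φ (algebraMap A[X] R (C a)) = ψ a) →
        ∀ g : R ≃ₐ[A[X]] R, (∀ r, φ r ^ p ^ f = φ (g (θ i r))) → g ∈ Bad) →
      Nat.card (R ≃ₐ[A[X]] R) * S.ncard ≤
        10 * p ^ f * Bad.ncard + Nat.card (R ≃ₐ[A[X]] R) * D₁ :=
  chebq_of stepanovq A B Δ hΔ R hfg hfix ι θ τ hθX hθC

end Pool.Agent.MP_9b2bac_nt.Z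

end

section

set_option autoImplicit false

namespace Pool.Agent.MP_9b2bac_nt.Z

open Polynomial

open ZStep in
theorem stepanovL (L : ℕ) (hL : 0 < L) (m D₀ : ℕ) : ∃ q₀ : ℕ, ∀ (p f : ℕ) [Fact p.Prime] (k : Type) [Field k]
    [IsAlgClosed k] [CharP k p], q₀ ≤ p ^ f → ∀ (H h : k[X][X]) (D : k[X]),
    H.Monic → H.natDegree = m → Irreducible H → (∀ i, (H.coeff i).natDegree ≤ D₀) →
    h.natDegree ≤ D₀ → (∀ i, (h.coeff i).natDegree ≤ D₀) → D.natDegree ≤ D₀ →
    {P : k × k | P.1 ^ p ^ f = P.1 ∧ H.evalEval P.1 P.2 = 0 ∧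
      (H.map (evalRingHom P.1)).Separable ∧ D.eval P.1 ≠ 0 ∧
      D.eval P.1 * P.2 ^ p ^ f = h.evalEval P.1 P.2}.ncard ≤ (L + 3) * p ^ f / L := by
  classical
  rcases m with _ | n
  · refine ⟨0, fun p f _ k _ _ _ _ H h D hm hn hi _ _ _ _ => ?_⟩
    exact absurd (hm.natDegree_eq_zero.1 hn ▸ isUnit_one) hi.not_isUnit
  set c := D₀
  set m0 := c * (n + 1) + 1 with hm0
  set M := (n + 1) * (L * m0) with hM
  obtain ⟨N, B, hN⟩ := newton n c M
  set K0 := (n + 1) * (N * (c * (n + 1))) + (n + 1) * B +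
    ((L + 1) * m0 + (n + 1) * (c + c * c) + (n + 1) * c) with hK0
  set A := L * (K0 + 1) + 1 with hA
  refine ⟨(n + 1) * (A + c * (n + 1) + c) + 1 + M,
    fun p f _ k _ _ _ hq H h D hm hn hi hc hh hh' hD => ?_⟩
  set q := p ^ f with hq'
  set S := {P : k × k | P.1 ^ q = P.1 ∧ H.evalEval P.1 P.2 = 0 ∧
      (H.map (evalRingHom P.1)).Separable ∧ D.eval P.1 ≠ 0 ∧
      D.eval P.1 * P.2 ^ q = h.evalEval P.1 P.2} with hS
  by_cases hfin : S.Finite
  swap
  · rw [Set.Infinite.ncard hfin]; exact Nat.zero_le _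
  rcases S.eq_empty_or_nonempty with h0 | ⟨P0, hP0⟩
  · simp [h0]
  have hδ : ∀ P ∈ S, (derivative H).evalEval P.1 P.2 ≠ 0 := fun P hP => by
    have := hP.2.2.1.eval₂_derivative_ne_zero (RingHom.id k) (x := P.2)
      (by rw [eval₂_id, map_evalRingHom_eval]; exact hP.2.1)
    rwa [eval₂_id, derivative_map, map_evalRingHom_eval] at this
  have hη : ∀ P : k × k, ∃ η : PowerSeries k, P ∈ S →
      PowerSeries.constantCoeff η = P.2 ∧ br P.1 η H = 0 := fun P => by
    by_cases hP : P ∈ S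
    · obtain ⟨η, h⟩ := exists_br hm hP.2.1 (hδ P hP)
      exact ⟨η, fun _ => h⟩
    · exact ⟨0, fun h => absurd h hP⟩
  choose η hη using hη
  obtain ⟨ξ, hξ, hξ'⟩ := hN k H hm hn hc
  have hδw : GB c (c * (n + 1)) (PowerSeries.C (derivative H)) :=
    GB.C (hn ▸ (WB.of_monic hm hc).derivative)
  obtain ⟨e, he0, he⟩ := exists_comb hm hc
    (ι := (Fin (A) × Fin H.natDegree) × (Fin ((L + 1) * m0) × Fin H.natDegree))
    (fun z => (PowerSeries.C (derivative H) ^ N) ^ (n + 1 - z.1.2) * tauG (X ^ (z.1.1 : ℕ)) *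
      ξ ^ (z.1.2 : ℕ) * PowerSeries.C (C (X ^ (z.2.1 : ℕ)) * h ^ (z.2.2 : ℕ) *
        C D ^ (n + 1 - z.2.2))) (K := A + K0) (M := M) (fun z => by
      refine (((((hδw.pow N).pow _).mul (GB.tauG (N := A) (by simp))).mul (hξ.pow _)).mul
        (GB.C (((WB.C (N := (L + 1) * m0) (by simp)).mul ((WB.of_le hh hh').pow _)).mul
          ((WB.C hD).pow _)))).mono ?_
      have h1 := Nat.mul_le_mul_right (N * (c * (n + 1))) (Nat.sub_le (n + 1) z.1.2)
      have h2 := Nat.mul_le_mul_right B (z.1.2.2.le.trans hn.le)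
      have h3 := Nat.mul_le_mul_right (c + c * c) (z.2.2.2.le.trans hn.le)
      have h4 := Nat.mul_le_mul_right c (Nat.sub_le (n + 1) z.2.2)
      omega) (by
      simp only [Fintype.card_prod, Fintype.card_fin, hn, hM]
      have : 0 < (n + 1) * m0 * (n + 1) := by positivity
      calc _ = (n + 1) * m0 * (n + 1) * (L * A + L * (K0 + 1)) := by ring
        _ < (n + 1) * m0 * (n + 1) * (L * A + A) := Nat.mul_lt_mul_of_pos_left (by omega) this
        _ = _ := by ring)
  set Ψ : k[X][X] := ∑ z, C (C (e z)) * (mon k z.1.1 z.1.2 * mon k z.2.1 z.2.2 ^ q) with hΨ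
  have hΨw : WB c (A + c * H.natDegree + q * ((L + 1) * m0 + c * H.natDegree)) Ψ :=
    WB.sum _ _ fun z _ => by
      simpa using (WB.C (N := 0) (by simp)).mul ((wb_mon c z.1).mul ((wb_mon c z.2).pow q))
  have hbr : ∀ x η, br x η Ψ = ∑ z, PowerSeries.C (e z) *
      (br x η (mon k z.1.1 z.1.2) * br x η (mon k z.2.1 z.2.2) ^ q) := fun x η => by
    simp only [hΨ, map_sum, map_mul, map_pow, br_CC]
  have hnd : ¬ H ∣ Ψ := by
    rintro ⟨g, hg⟩
    have h1 := (hη P0 hP0).2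
    refine he0 (indep f (fun s : Fin (A) × Fin H.natDegree => br P0.1 (η P0) (mon k s.1 s.2))
      (fun s : Fin ((L + 1) * m0) × Fin H.natDegree => br P0.1 (η P0) (mon k s.1 s.2))
      (comb_zero hm hi hc h1 (by rw [hn]; omega))
      (fun b hb => comb_zero hm hi hc h1 (Nat.lt_succ_self _) b (by simp [hb])) e ?_)
    rw [← hbr, hg, map_mul, h1, zero_mul]
  have key := zero_count hm hi hc hΨw hnd hfin.toFinset η M
    (fun P hP => (hη P (hfin.mem_toFinset.1 hP)).1)
    (fun P hP => (hη P (hfin.mem_toFinset.1 hP)).2) (fun P hP => by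
      rw [hfin.mem_toFinset] at hP
      obtain ⟨h1, h2⟩ := hη P hP
      have h3 := hδ P hP
      have h4 := (pow_dvd_pow _ (Nat.le_succ M)).trans (hξ' _ _ _ h1 h2 h3)
      have h5 := he _ _ hP.2.1
      have hu : IsUnit (PowerSeries.C (((derivative H).evalEval P.1 P.2 ^ N) ^ (n + 1) *
          D.eval P.1 ^ (n + 1)) : PowerSeries k) :=
        IsUnit.map _ (mul_ne_zero (pow_ne_zero _ (pow_ne_zero _ h3))
          (pow_ne_zero _ hP.2.2.2.1)).isUnit
      rw [← hu.dvd_mul_left, hbr, Finset.mul_sum]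
      rw [← Ideal.mem_span_singleton, ← Ideal.Quotient.eq_zero_iff_mem] at h5 ⊢
      rw [← Ideal.mem_span_singleton, ← Ideal.Quotient.eq] at h4
      rw [← h5, map_sum, map_sum]
      refine Finset.sum_congr rfl fun z _ => ?_
      have h6 := (pow_dvd_pow _ (show M ≤ q by omega)).trans
        (frob_ps (p := p) f (br P.1 (η P) (mon k z.2.1 z.2.2)))
      rw [← Ideal.mem_span_singleton, ← Ideal.Quotient.eq, const_br, h1] at h6
      have h7 : D.eval P.1 ^ (n + 1) * (mon k z.2.1 z.2.2).evalEval P.1 P.2 ^ q =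
          evalEvalRingHom P.1 P.2 (C (X ^ (z.2.1 : ℕ)) * h ^ (z.2.2 : ℕ) *
            C D ^ (n + 1 - z.2.2)) := by
        obtain ⟨j, hj⟩ := Nat.exists_eq_add_of_le (z.2.2.2.le.trans hn.le)
        simp only [mon, map_mul, map_pow, coe_evalEvalRingHom, evalEval_C, eval_X, evalEval_mul,
          evalEval_pow, evalEval_X, ← hP.2.2.2.2]
        rw [hj, Nat.add_sub_cancel_left, mul_pow, pow_right_comm P.1, hP.1]
        ring
      obtain ⟨j, hj⟩ := Nat.exists_eq_add_of_le (z.1.2.2.le.trans hn.le)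
      rw [map_mul (PowerSeries.map _), PowerSeries.map_C, ← h7]
      simp only [map_mul, map_pow, h4, map_tauG, PowerSeries.map_C, coe_evalEvalRingHom] at h6 ⊢
      rw [h6]
      simp only [mon, br, map_mul, map_pow, coe_eval₂RingHom, eval₂_C, eval₂_X]
      rw [hj, Nat.add_sub_cancel_left]
      ring)
  rw [Set.ncard_eq_toFinset_card S hfin, Nat.le_div_iff_mul_le hL]
  rw [hn, hM, mul_left_comm] at key
  have h1 := Nat.le_of_mul_le_mul_left key (Nat.succ_pos n)
  refine Nat.le_of_mul_le_mul_right (c := m0) ((mul_assoc _ _ _).le.trans (h1.trans ?_)) (by omega)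
  have h2 : A + c * (n + 1) + c ≤ q := by nlinarith
  have h3 : (L + 3) * q * m0 = q * m0 + q + q * ((L + 1) * m0 + c * (n + 1)) := by rw [hm0]; ring
  omega

namespace ZCheb

theorem cheb_gen' (β : ℕ → ℕ) (Q : ℕ → ℕ → ℕ → Prop) (hQ : ∀ p₀ p f, p.Prime → Q p₀ p f → 1 < p ^ f)
    (step : ∀ m D₀ : ℕ, ∃ p₀ : ℕ, ∀ (p f : ℕ) [Fact p.Prime] (k : Type) [Field k]
      [IsAlgClosed k] [CharP k p], Q p₀ p f → ∀ (H h : k[X][X]) (D : k[X]),
      H.Monic → H.natDegree = m → Irreducible H → (∀ i, (H.coeff i).natDegree ≤ D₀) →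
      h.natDegree ≤ D₀ → (∀ i, (h.coeff i).natDegree ≤ D₀) → D.natDegree ≤ D₀ →
      {P : k × k | P.1 ^ p ^ f = P.1 ∧ H.evalEval P.1 P.2 = 0 ∧
        (H.map (evalRingHom P.1)).Separable ∧ D.eval P.1 ≠ 0 ∧
        D.eval P.1 * P.2 ^ p ^ f = h.evalEval P.1 P.2}.ncard ≤ β (p ^ f))
    (A B : Type) [CommRing A] [IsDomain A] [CommRing B] [IsDomain B]
    [Algebra A B] (Δ : A) (hΔ : Δ ≠ 0) [IsLocalization.Away Δ B]
    (R : Subalgebra A[X] (PowerSeries B)) (hfg : R.FG) [Finite (R ≃ₐ[A[X]] R)]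
    (hfix : ∀ r : R, (∀ g : R ≃ₐ[A[X]] R, g r = r) →
      ∃ a b : A[X], a ≠ 0 ∧ a • r = algebraMap A[X] R b)
    (ι : Type) [Finite ι] (θ : ι → R ≃+* R) (τ : ι → A ≃+* A)
    (hθX : ∀ i, θ i (algebraMap A[X] R X) = algebraMap A[X] R X)
    (hθC : ∀ i a, θ i (algebraMap A[X] R (C a)) = algebraMap A[X] R (C (τ i a))) :
    ∃ ν : A, ν ≠ 0 ∧ ∃ D₁ p₀ : ℕ, ∀ (p f : ℕ) [Fact p.Prime] (k : Type) [Field k]
      [IsAlgClosed k] [CharP k p], Q p₀ p f → ∀ ψ : A →+* k, ψ ν ≠ 0 →
      ∀ i : ι, (∀ a, ψ a ^ p ^ f = ψ (τ i a)) →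
      ∀ (Bad : Set (R ≃ₐ[A[X]] R)) (S : Set k), (∀ x ∈ S, x ^ p ^ f = x) →
      (∀ x ∈ S, ∀ φ : R →+* k, φ (algebraMap A[X] R X) = x →
        (∀ a, φ (algebraMap A[X] R (C a)) = ψ a) →
        ∀ g : R ≃ₐ[A[X]] R, (∀ r, φ r ^ p ^ f = φ (g (θ i r))) → g ∈ Bad) →
      Nat.card (R ≃ₐ[A[X]] R) * S.ncard ≤
        β (p ^ f) * Bad.ncard + Nat.card (R ≃ₐ[A[X]] R) * D₁ := by
  classical
  have := Fintype.ofFinite (R ≃ₐ[A[X]] R)
  have hB : Function.Injective (algebraMap A B) :=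
    IsLocalization.injective B (powers_le_nonZeroDivisors_of_noZeroDivisors hΔ)
  have hinj : Function.Injective (algebraMap A[X] R) := fun a b h => ext fun n => hB (by
    have h1 : algebraMap A[X] (PowerSeries B) a = algebraMap A[X] (PowerSeries B) b :=
      congrArg Subtype.val h
    simpa [PowerSeries.algebraMap_apply'] using congrArg (PowerSeries.coeff n) h1)
  obtain ⟨y, H, hy, hm, hd, hH⟩ := exists_poly hinj hfix
  obtain ⟨D, hD0, hD, hsep⟩ := exists_den hinj (R.fg_top.2 hfg) hfix hy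
  have hv : ∀ P : A[X][X], aeval (y : PowerSeries B) P = ((aeval y P : R) : PowerSeries B) :=
    fun P => aeval_algHom_apply R.val y P
  obtain ⟨ν, hν, hirr⟩ := irred A B Δ hΔ y H hm (hd ▸ Fintype.card_pos)
    (by rw [hv, root_zero hH]; rfl) fun P h1 h2 =>
      small_zero hinj hy (Subtype.ext ((hv P).symm.trans h1)) (hd ▸ h2)
  have hD' := hD
  choose N P hP using hD'
  choose bd hbd1 hbd2 using exists_bd (A := A)
  obtain ⟨D₁, hD₁⟩ := (Set.finite_range fun t : (R ≃ₐ[A[X]] R) × ι =>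
    max (bd (P (t.1 (θ t.2 y)))) (D ^ N (t.1 (θ t.2 y))).natDegree).bddAbove
  obtain ⟨p₀, hp₀⟩ := step H.natDegree (max D₁ (bd H))
  refine ⟨ν * D.leadingCoeff, mul_ne_zero hν (leadingCoeff_ne_zero.2 hD0), D.natDegree, p₀,
    fun p f _ k _ _ _ hp ψ hψ i hi Bad S hS hB => ?_⟩
  rw [map_mul, mul_ne_zero_iff] at hψ
  have hq : 1 < p ^ f := hQ _ _ _ Fact.out hp
  obtain ⟨T, hT⟩ : ∃ T : (R ≃ₐ[A[X]] R) → Set (k × k), ∀ g, T g = {Q : k × k |
      Q.1 ^ p ^ f = Q.1 ∧ (H.map (mapRingHom ψ)).evalEval Q.1 Q.2 = 0 ∧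
      ((H.map (mapRingHom ψ)).map (evalRingHom Q.1)).Separable ∧
      ((D ^ N (g (θ i y))).map ψ).eval Q.1 ≠ 0 ∧
      ((D ^ N (g (θ i y))).map ψ).eval Q.1 * Q.2 ^ p ^ f =
        ((P (g (θ i y))).map (mapRingHom ψ)).evalEval Q.1 Q.2} := ⟨_, fun _ => rfl⟩
  have hT1 : ∀ g, (T g).ncard ≤ β (p ^ f) := by
    intro g
    have h1 := (hD₁ ⟨(g, i), rfl⟩).trans (le_max_left D₁ (bd H))
    rw [max_le_iff] at h1
    rw [hT]
    refine hp₀ p f k hp _ _ _ (hm.map _) (hm.natDegree_map _) (hirr k ψ hψ.1) (fun j => ?_)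
      (natDegree_map_le.trans ((hbd1 _).trans h1.1)) (fun j => ?_) (natDegree_map_le.trans h1.2)
    · rw [coeff_map]
      exact natDegree_map_le.trans ((hbd2 H j).trans (le_max_right _ _))
    · rw [coeff_map]
      exact natDegree_map_le.trans ((hbd2 _ j).trans h1.1)
  have key : ∀ x ∈ S, eval₂RingHom ψ x D ≠ 0 → ∀ φ : R →+* k,
      (∀ a, φ (algebraMap A[X] R a) = eval₂RingHom ψ x a) → ∃ g ∈ Bad, (x, φ y) ∈ T g := by
    intro x hx h0 φ hφ
    have hX : φ (algebraMap A[X] R X) = x := by simp [hφ]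
    have hC : ∀ a, φ (algebraMap A[X] R (C a)) = ψ a := fun a => by simp [hφ]
    obtain ⟨φ', hφ'⟩ : ∃ φ' : R →+* k, ∀ r, φ' (θ i r) = φ r ^ p ^ f :=
      ⟨(iterateFrobenius k p f).comp (φ.comp (θ i).symm), fun r => by
        simp [iterateFrobenius_def]⟩
    have h1 : ∀ a, φ' (algebraMap A[X] R a) = eval₂RingHom ψ x a := by
      refine RingHom.congr_fun (f := φ'.comp (algebraMap A[X] R)) (ringHom_ext (fun a => ?_) ?_)
      · obtain ⟨a, rfl⟩ := (τ i).surjective a
        rw [RingHom.comp_apply, ← hθC, hφ', hC, hi]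
        simp
      · rw [RingHom.comp_apply, ← hθX i, hφ', hX, hS x hx]
        simp
    have hr : ∀ χ : R →+* k, (∀ a, χ (algebraMap A[X] R a) = eval₂RingHom ψ x a) →
        H.eval₂ (eval₂RingHom ψ x) (χ y) = 0 := fun χ hχ => by
      rw [← hom_aeval hχ, root_zero hH, map_zero]
    have h2 := hr φ' h1
    rw [← eval_map, map_split hH hφ, eval_prod, Finset.prod_eq_zero_iff] at h2
    obtain ⟨g, -, hg⟩ := h2
    rw [eval_sub, eval_X, eval_C, sub_eq_zero] at hg
    have h3 : ∀ r, φ r ^ p ^ f = φ (g (θ i r)) := fun r => by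
      rw [← hφ']
      exact hom_uniq hD h0 (φ' := φ.comp (g : R →+* R)) h1 (fun a => by simp [hφ]) hg _
    refine ⟨g, hB x hx φ hX hC g h3, ?_⟩
    have h4 : ((D ^ N (g (θ i y))).map ψ).eval x = eval₂RingHom ψ x D ^ N (g (θ i y)) := by
      rw [eval_map, ← map_pow]
      rfl
    rw [hT]
    refine ⟨hS x hx, ?_, ?_, ?_, ?_⟩
    · rw [evalEval_map]
      exact hr φ hφ
    · rw [map_ev, map_split hH hφ, separable_prod_X_sub_C_iff]
      exact hsep k φ (by rwa [hφ])
    · rw [h4]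
      exact pow_ne_zero _ h0
    · rw [h4, evalEval_map, ← hom_aeval hφ, ← hP, map_mul, map_pow, hφ, h3]
  obtain ⟨S', hS'⟩ : ∃ S' : Set k, S' = {x ∈ S | eval₂RingHom ψ x D ≠ 0} := ⟨_, rfl⟩
  have hex : ∀ x : S', ∃ φ : R →+* k, ∀ a, φ (algebraMap A[X] R a) = eval₂RingHom ψ x a := by
    rintro ⟨x, hx⟩
    rw [hS'] at hx
    obtain ⟨z, hz⟩ := IsAlgClosed.exists_root (H.map (eval₂RingHom ψ x)) (by
      rw [hm.degree_map, degree_eq_natDegree hm.ne_zero, hd]
      exact_mod_cast Fintype.card_pos.ne')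
    obtain ⟨φ, hφ, -⟩ := hom_extend hD (fun Q => ker_dvd hinj hy hm hd hH) hx.2
      (by rwa [← eval_map])
    exact ⟨φ, hφ⟩
  choose Φ hΦ using hex
  have hx : ∀ x : S', x.1 ∈ S ∧ eval₂RingHom ψ x D ≠ 0 := fun x => hS'.subset x.2
  have hF : Function.Injective fun t : (R ≃ₐ[A[X]] R) × S' => (t.2.1, Φ t.2 (t.1 y)) := by
    rintro ⟨g, x⟩ ⟨g', x'⟩ h
    simp only [Prod.mk.injEq] at h
    obtain rfl : x = x' := Subtype.ext h.1
    rw [hsep k (Φ x) (by rw [hΦ]; exact (hx x).2) h.2]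
  have h1 : Nat.card (R ≃ₐ[A[X]] R) * S'.ncard ≤ β (p ^ f) * Bad.ncard := by
    rw [← Nat.card_coe_set_eq, ← Nat.card_prod, ← Nat.card_range_of_injective hF,
      Nat.card_coe_set_eq]
    refine (Set.ncard_le_ncard (t := ⋃ g ∈ Bad.toFinset, T g) ?_ ?_).trans
      ((Finset.set_ncard_biUnion_le _ _).trans ?_)
    · rintro _ ⟨⟨g, x⟩, rfl⟩
      obtain ⟨g', h1, h2⟩ := key x (hx x).1 (hx x).2 ((Φ x).comp (g : R →+* R))
        fun a => by simp [hΦ]
      exact Set.mem_biUnion (Set.mem_toFinset.2 h1) h2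
    · refine (fin_pts hq (hm.map (mapRingHom ψ))).subset (Set.iUnion₂_subset fun g _ => ?_)
      rw [hT]
      exact fun Q hQ => ⟨hQ.1, hQ.2.1⟩
    · refine (Finset.sum_le_card_nsmul _ _ _ fun g _ => hT1 g).trans (le_of_eq ?_)
      rw [smul_eq_mul, mul_comm, Set.ncard_eq_toFinset_card']
  have h2 : S.ncard ≤ S'.ncard + D.natDegree := by
    have h0 : D.map ψ ≠ 0 := fun e => hψ.2 (by rw [leadingCoeff, ← coeff_map, e, coeff_zero])
    refine (Set.ncard_le_ncard (t := S' ∪ (D.map ψ).roots.toFinset) (fun x hx => ?_)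
      ((((fin_fix k hq).subset hS).subset fun x h => (hx ⟨x, h⟩).1).union
        (Finset.finite_toSet _))).trans ((Set.ncard_union_le _ _).trans ?_)
    · by_cases c : eval₂RingHom ψ x D = 0
      · exact Or.inr (by simpa [h0, eval_map] using c)
      · exact Or.inl (hS' ▸ ⟨hx, c⟩)
    · rw [Set.ncard_coe_finset]
      exact Nat.add_le_add_left ((Multiset.toFinset_card_le _).trans
        ((card_roots' _).trans natDegree_map_le)) _
  calc _ ≤ Nat.card (R ≃ₐ[A[X]] R) * (S'.ncard + D.natDegree) := Nat.mul_le_mul_left _ h2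
    _ ≤ _ := by
      rw [mul_add]
      exact Nat.add_le_add_right h1 _

end ZCheb

theorem chebs (A B : Type) [CommRing A] [IsDomain A] [CommRing B] [IsDomain B]
    [Algebra A B] (Δ : A) (hΔ : Δ ≠ 0) [IsLocalization.Away Δ B]
    (R : Subalgebra A[X] (PowerSeries B)) (hfg : R.FG) [Finite (R ≃ₐ[A[X]] R)]
    (hfix : ∀ r : R, (∀ g : R ≃ₐ[A[X]] R, g r = r) →
      ∃ a b : A[X], a ≠ 0 ∧ a • r = algebraMap A[X] R b)
    (ι : Type) [Finite ι] (θ : ι → R ≃+* R) (τ : ι → A ≃+* A)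
    (hθX : ∀ i, θ i (algebraMap A[X] R X) = algebraMap A[X] R X)
    (hθC : ∀ i a, θ i (algebraMap A[X] R (C a)) = algebraMap A[X] R (C (τ i a)))
    (δ : ℝ) (hδ : 0 < δ) :
    ∃ ν : A, ν ≠ 0 ∧ ∃ D₁ q₀ : ℕ, ∀ (p f : ℕ) [Fact p.Prime] (k : Type) [Field k]
      [IsAlgClosed k] [CharP k p], q₀ ≤ p ^ f → ∀ ψ : A →+* k, ψ ν ≠ 0 →
      ∀ i : ι, (∀ a, ψ a ^ p ^ f = ψ (τ i a)) →
      ∀ (Bad : Set (R ≃ₐ[A[X]] R)) (S : Set k), (∀ x ∈ S, x ^ p ^ f = x) →
      (∀ x ∈ S, ∀ φ : R →+* k, φ (algebraMap A[X] R X) = x →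
        (∀ a, φ (algebraMap A[X] R (C a)) = ψ a) →
        ∀ g : R ≃ₐ[A[X]] R, (∀ r, φ r ^ p ^ f = φ (g (θ i r))) → g ∈ Bad) →
      (Nat.card (R ≃ₐ[A[X]] R) : ℝ) * S.ncard ≤
        (1 + δ) * (p : ℝ) ^ f * Bad.ncard + Nat.card (R ≃ₐ[A[X]] R) * D₁ := by
  obtain ⟨L, hL⟩ := exists_nat_gt (3 / δ)
  have hL0 : (0 : ℝ) < L := lt_trans (by positivity) hL
  obtain ⟨ν, hν, D₁, q₀, h⟩ := ZCheb.cheb_gen' (fun q => (L + 3) * q / L)
    (fun q₀ p f => max q₀ 2 ≤ p ^ f) (fun _ _ _ _ h => (le_max_right _ _).trans h) (fun m D₀ => by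
      obtain ⟨q₀, h⟩ := stepanovL L (by exact_mod_cast hL0) m D₀
      exact ⟨q₀, fun p f _ k _ _ _ hq => h p f k ((le_max_left _ _).trans hq)⟩)
    A B Δ hΔ R hfg hfix ι θ τ hθX hθC
  refine ⟨ν, hν, D₁, max q₀ 2, fun p f _ k _ _ _ hq ψ h1 i h2 Bad S h3 h4 => ?_⟩
  have h5 := (Nat.cast_le (α := ℝ)).2 (h p f k hq ψ h1 i h2 Bad S h3 h4)
  rw [Nat.cast_add, Nat.cast_mul, Nat.cast_mul, Nat.cast_mul] at h5
  refine h5.trans (add_le_add_left (mul_le_mul_of_nonneg_right (Nat.cast_div_le.trans ?_)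
    (Nat.cast_nonneg _)) _)
  rw [div_lt_iff₀ hδ] at hL
  rw [div_le_iff₀ hL0]
  push_cast
  nlinarith [mul_le_mul_of_nonneg_left hL.le (show (0 : ℝ) ≤ (p : ℝ) ^ f by positivity)]

end Pool.Agent.MP_9b2bac_nt.Z

end
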