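import Mathlib
import Pool.Agent.MP_d232b3_nt.RH
import Pool.Agent.MP_dd7250_nt.Defs

section

/- Working definitions for the two over two ratio. -/

set_option autoImplicit false

namespace Pool.Agent.MP_dd7250_nt

open Polynomial Finset Pool.Agent.MP_d232b3_nt
open scoped Classical

/-- The size of the field. -/
abbrev Q (F : Type*) [Fintype F] : ℕ := Fintype.card F

section Sets

variable (F : Type*) [Field F] [Fintype F]

/-- Monic polynomials of degree at most `R`. -/
noncomputable def monLe (R : ℕ) : Finset F[X] := (range (R + 1)).biUnion (monF F)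

/-- Monic irreducible polynomials of degree at most `M`. -/
noncomputable def pr (M : ℕ) : Finset F[X] := (monLe F M).filter Irreducible

/-- Monic irreducible polynomials of degree `d`. -/
noncomputable def prD (d : ℕ) : Finset F[X] := (monF F d).filter Irreducible

/-- Monic squarefree polynomials of degree `N`. -/
noncomputable def sqF (N : ℕ) : Finset F[X] := (monF F N).filter Squarefree

/-- The quadratic character of the constant field. -/
noncomputable def eta (a : F) : ℂ := ((quadraticChar F a : ℤ) : ℂ)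

/-- The square root of `q`. -/
noncomputable def sq : ℂ := ((Real.sqrt (Q F) : ℝ) : ℂ)

/-- Real powers of `q`. -/
noncomputable def qp (x : ℝ) : ℝ := (Q F : ℝ) ^ x

variable {F}

theorem mem_monLe {R : ℕ} {f : F[X]} : f ∈ monLe F R ↔ f.Monic ∧ f.natDegree ≤ R := by
  simp only [monLe, mem_biUnion, mem_range, mem_monF]
  exact ⟨fun ⟨d, h1, h2, h3⟩ => ⟨h2, by omega⟩, fun ⟨h1, h2⟩ => ⟨_, by omega, h1, rfl⟩⟩

theorem mem_pr {M : ℕ} {P : F[X]} :
    P ∈ pr F M ↔ P.Monic ∧ Irreducible P ∧ P.natDegree ≤ M := by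
  rw [pr, mem_filter, mem_monLe]; tauto

theorem mem_prD {d : ℕ} {P : F[X]} :
    P ∈ prD F d ↔ P.Monic ∧ Irreducible P ∧ P.natDegree = d := by
  rw [prD, mem_filter, mem_monF]; tauto

theorem mem_sqF {N : ℕ} {D : F[X]} :
    D ∈ sqF F N ↔ D.Monic ∧ Squarefree D ∧ D.natDegree = N := by
  rw [sqF, mem_filter, mem_monF]; tauto

theorem sum_monLe {B : Type*} [AddCommMonoid B] (R : ℕ) (φ : F[X] → B) :
    ∑ f ∈ monLe F R, φ f = ∑ d ∈ range (R + 1), ∑ f ∈ monF F d, φ f := by
  refine sum_biUnion fun a _ b _ hab => disjoint_left.2 fun f h1 h2 => hab ?_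
  rw [← (mem_monF.1 h1).2, ← (mem_monF.1 h2).2]

theorem sum_pr {B : Type*} [AddCommMonoid B] (M : ℕ) (φ : F[X] → B) :
    ∑ P ∈ pr F M, φ P = ∑ d ∈ range (M + 1), ∑ P ∈ prD F d, φ P := by
  rw [pr, sum_filter, sum_monLe]
  simp only [prD, sum_filter]

theorem pr_mono {M I : ℕ} (h : M ≤ I) : pr F M ⊆ pr F I := fun _ hP =>
  mem_pr.2 ⟨(mem_pr.1 hP).1, (mem_pr.1 hP).2.1, (mem_pr.1 hP).2.2.trans h⟩

theorem card_prD_le (d : ℕ) : (prD F d).card ≤ Q F ^ d :=
  (card_filter_le _ _).trans_eq (card_monF d)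

theorem card_sqF_le (N : ℕ) : (sqF F N).card ≤ Q F ^ N :=
  (card_filter_le _ _).trans_eq (card_monF N)

omit [Fintype F] in
theorem deg_pos {P : F[X]} (h : Irreducible P) : 0 < P.natDegree := h.natDegree_pos

theorem one_lt_Q : (1 : ℝ) < Q F := by exact_mod_cast Fintype.one_lt_card

theorem Q_ne : (Q F : ℂ) ≠ 0 := Nat.cast_ne_zero.2 Fintype.card_ne_zero

theorem sq_sq : sq F ^ 2 = Q F := by
  rw [sq, ← Complex.ofReal_pow, Real.sq_sqrt (Nat.cast_nonneg _), Complex.ofReal_natCast]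

theorem qp_pos (x : ℝ) : 0 < qp F x := Real.rpow_pos_of_pos (zero_lt_one.trans one_lt_Q) x

theorem qp_add (x y : ℝ) : qp F (x + y) = qp F x * qp F y :=
  Real.rpow_add (zero_lt_one.trans one_lt_Q) x y

theorem qp_mono {x y : ℝ} (h : x ≤ y) : qp F x ≤ qp F y :=
  Real.rpow_le_rpow_of_exponent_le one_lt_Q.le h

theorem qp_pow (x : ℝ) (n : ℕ) : qp F x ^ n = qp F (x * n) :=
  (Real.rpow_mul_natCast (Nat.cast_nonneg _) x n).symm

theorem qp_nat (n : ℕ) : qp F n = (Q F : ℝ) ^ n := Real.rpow_natCast _ n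

theorem qp_zero : qp F 0 = 1 := Real.rpow_zero _

theorem qp_one : qp F 1 = Q F := Real.rpow_one _

theorem qp_neg (x : ℝ) : qp F (-x) = (qp F x)⁻¹ := Real.rpow_neg (Nat.cast_nonneg _) x

theorem qp_lt_one {x : ℝ} (h : x < 0) : qp F x < 1 :=
  Real.rpow_lt_one_of_one_lt_of_neg one_lt_Q h

theorem qp_le_one {x : ℝ} (h : x ≤ 0) : qp F x ≤ 1 := (qp_mono h).trans_eq qp_zero

theorem norm_sq : ‖sq F‖ = qp F (1 / 2) := by
  rw [sq, Complex.norm_real, Real.norm_of_nonneg (Real.sqrt_nonneg _), Real.sqrt_eq_rpow, qp]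

/-- Completely multiplicative on monic polynomials. -/
structure CM (χ : F[X] → ℂ) : Prop where
  one : χ 1 = 1
  mul : ∀ f g : F[X], f.Monic → g.Monic → χ (f * g) = χ f * χ g

/-- Square root cancellation in sums over primes of each degree. -/
def Small (x : F[X] → ℂ) (n : ℝ) : Prop :=
  (∀ P, ‖x P‖ ≤ 1) ∧ ∀ d : ℕ, ‖∑ P ∈ prD F d, x P‖ ≤ n * qp F (d / 2)

/-- The coefficients of the inverse of the L-series. -/
noncomputable def ainv (χ : F[X] → ℂ) (k : ℕ) : ℂ :=
  PowerSeries.coeff k (PowerSeries.mk (AA χ))⁻¹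

/-- The coefficients of `1 / (L(v₁ t) L(v₂ t))`. -/
noncomputable def beta (v₁ v₂ : ℂ) (k : ℕ) (D : F[X]) : ℂ :=
  ∑ p ∈ antidiagonal k, ainv (jac D) p.1 * v₁ ^ p.1 * (ainv (jac D) p.2 * v₂ ^ p.2)

variable (F) in
/-- The range of the shifts: `u 0, u 1` above, `u 2, u 3` below. -/
structure Rng (ε c a₀ a₁ : ℝ) (u : Fin 4 → ℂ) : Prop where
  hc : c ≤ 1 / 2
  ha : |a₀| + |a₁| + ε ≤ c
  h0 : ‖u 0‖ = qp F (-(1 / 2 + a₀))
  h1 : ‖u 1‖ = qp F (-(1 / 2 + a₁))
  h2 : ‖u 2‖ ≤ qp F (-(1 / 2 + c))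
  h3 : ‖u 3‖ ≤ qp F (-(1 / 2 + c))

/-- The growth exponent of the error term. -/
noncomputable def ex (c a₀ a₁ : ℝ) : ℝ := 2 - 2 * c + 2 * max 0 (-a₀) + 2 * max 0 (-a₁)

variable (F) in
/-- The monic irreducible polynomials. -/
abbrev Prm := {P : F[X] // P.Monic ∧ Irreducible P}

theorem three_le_Q (hF : ringChar F ≠ 2) : (3 : ℝ) ≤ Q F := by
  have h1 : Q F % 2 = 1 := FiniteField.odd_card_of_char_ne_two hF
  have h2 : 1 < Q F := Fintype.one_lt_card
  exact_mod_cast (by omega : 3 ≤ Q F)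

end Sets

/-- The series converges absolutely at `z`. -/
def Sm (z : ℂ) (f : PowerSeries ℂ) : Prop := Summable fun n => ‖PowerSeries.coeff n f * z ^ n‖

/-- The value of a power series at `z`. -/
noncomputable def evs (z : ℂ) (f : PowerSeries ℂ) : ℂ := ∑' n, PowerSeries.coeff n f * z ^ n

section Gen

variable {F : Type*} [Field F] [Fintype F] {A : Type*} [CommRing A] [Algebra ℂ A]

/-- A truncated geometric series. -/
def gam (I : ℕ) (z : A) : A := ∑ l ∈ range (I + 1), z ^ l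

/-- The truncated L-series. -/
noncomputable def Lt (χ : F[X] → ℂ) (I : ℕ) (z : A) : A :=
  ∑ n ∈ range (I + 1), algebraMap ℂ A (AA χ n) * z ^ n

/-- The truncated inverse L-series. -/
noncomputable def Li (χ : F[X] → ℂ) (I : ℕ) (z : A) : A :=
  ∑ n ∈ range (I + 1), algebraMap ℂ A (ainv χ n) * z ^ n

/-- Powers of the four variables. -/
def pw (U : Fin 4 → A) (d : ℕ) : Fin 4 → A := fun i => U i ^ d

/-- The even part of the local factor, minus one. -/
def Ev (M : ℕ) (a : Fin 4 → A) : A :=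
  gam M (a 0 ^ 2) * gam M (a 1 ^ 2) *
    (1 + a 0 * a 1 + a 2 * a 3 - (a 0 + a 1) * (a 2 + a 3) + a 0 * a 1 * (a 2 * a 3)) - 1

/-- The odd part of the local factor. -/
def Od (M : ℕ) (a : Fin 4 → A) : A :=
  gam M (a 0 ^ 2) * gam M (a 1 ^ 2) *
    (a 0 + a 1 - (a 2 + a 3) - a 0 * a 1 * (a 2 + a 3) + a 2 * a 3 * (a 0 + a 1))

/-- The factor from the squarefree sieve. -/
def rho (I : ℕ) (y : A) (d : ℕ) : A := gam I ((y ^ d) ^ 2)

variable (F)

/-- `q` in the algebra. -/
abbrev qA (A : Type*) [CommRing A] : A := (Q F : A)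

/-- The generating function over squarefree `D`. -/
noncomputable def Zs (I : ℕ) (U : Fin 4 → A) (y : A) : A :=
  ∑ N ∈ range (I + 1), y ^ N * ∑ D ∈ sqF F N,
    Lt (jac D) I (U 0) * Lt (jac D) I (U 1) * (Li (jac D) I (U 2) * Li (jac D) I (U 3))

/-- The parity weights in the functional equation. -/
noncomputable def kap (σ : ℂ) (y : A) : A :=
  algebraMap ℂ A (1 / 2) * (-(1 - y) + algebraMap ℂ A (σ / sq F) * (1 - qA F A * y))

/-- The dual variable. -/
noncomputable def dy (σ : ℂ) (y : A) : A := algebraMap ℂ A (σ * sq F) * y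

/-- The weight of the dual polynomial `V`. -/
noncomputable def wV (M : ℕ) (y : A) (V : F[X]) : A :=
  algebraMap ℂ A ((Q F : ℂ) ^ V.natDegree)⁻¹ * y ^ (M - V.natDegree)

variable {F}

/-- The factor at a prime of the sieving set. -/
def lE (M I : ℕ) (U : Fin 4 → A) (y : A) (d : ℕ) : A :=
  -(Ev M (pw U d) * rho I y d * y ^ d)

/-- The factor at a prime outside the sieving set. -/
noncomputable def lO (M I : ℕ) (U : Fin 4 → A) (y : A) (σ : ℂ) (W P : F[X]) : A :=
  1 + Ev M (pw U P.natDegree) * rho I y P.natDegree + algebraMap ℂ A (jac W P) *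
    (Od M (pw U P.natDegree) * rho I y P.natDegree * dy F σ y ^ P.natDegree)

variable (F)

/-- The correction making the Euler product of a square converge. -/
noncomputable def om (M : ℕ) (U : Fin 4 → A) (y : A) (σ : ℂ) (d : ℕ) : A :=
  (1 - (dy F σ y * U 0) ^ d) * (1 - (dy F σ y * U 1) ^ d) *
    (gam M ((dy F σ y * U 2) ^ d) * gam M ((dy F σ y * U 3) ^ d))

/-- The dual terms with a nonsquare. -/
noncomputable def Pr (M I : ℕ) (U : Fin 4 → A) (y : A) : A :=
  ∑ σ ∈ ({1, -1} : Finset ℂ), kap F σ y * ∑ V ∈ monLe F M,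
    ∑ e ∈ (pr F M).powerset with ¬ IsSquare (V * ∏ P ∈ e, P), wV F M y V *
      ((∏ P ∈ e, lE M I U y P.natDegree) * ∏ P ∈ pr F M \ e, lO M I U y σ (V * ∏ P ∈ e, P) P)

/-- The dual terms with a square, with the poles removed. -/
noncomputable def Ps (M I : ℕ) (U : Fin 4 → A) (y : A) : A :=
  ∑ σ ∈ ({1, -1} : Finset ℂ), kap F σ y *
    ((1 + qA F A * (dy F σ y * U 0)) * (1 + qA F A * (dy F σ y * U 1)) *
      ((1 - qA F A * (dy F σ y * U 2)) * (1 - qA F A * (dy F σ y * U 3)))) *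
    ∑ V ∈ monLe F M, ∑ e ∈ (pr F M).powerset with IsSquare (V * ∏ P ∈ e, P), wV F M y V *
      ((∏ P ∈ e, om F M U y σ P.natDegree * lE M I U y P.natDegree) *
        ∏ P ∈ pr F M \ e, om F M U y σ P.natDegree * lO M I U y σ (V * ∏ P ∈ e, P) P)

/-- The diagonal correction. -/
noncomputable def Pd (M I : ℕ) (U : Fin 4 → A) (y : A) : A :=
  ∏ P ∈ pr F M, (1 + Ev M (pw U P.natDegree) * rho I y P.natDegree * (1 - y ^ P.natDegree))

/-- The four polar factors, in the variable `Y = y ^ 2`. -/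
noncomputable def Ph (U₀ U₁ Y : A) : A :=
  (1 - qA F A ^ 2 * Y) * (1 - qA F A ^ 3 * U₀ ^ 2 * Y) * (1 - qA F A ^ 3 * U₁ ^ 2 * Y) *
    (1 - qA F A ^ 4 * U₀ ^ 2 * U₁ ^ 2 * Y)

/-- The common prefactor of the three pieces. -/
noncomputable def pre (U : Fin 4 → A) (y : A) : A :=
  (1 - qA F A * y ^ 2) * (1 + qA F A * y) * (1 - qA F A ^ 4 * U 0 ^ 2 * U 1 ^ 2 * y ^ 2)

/-- The two polar factors cancelled in the square terms. -/
noncomputable def mid (U : Fin 4 → A) (y : A) : A :=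
  (1 - qA F A ^ 3 * U 0 ^ 2 * y ^ 2) * (1 - qA F A ^ 3 * U 1 ^ 2 * y ^ 2)

variable {F}

/-- The weighted second moment. -/
noncomputable def TW (w : F[X] → ℂ) (U₀ U₁ : A) (g : ℕ) : A :=
  ∑ D ∈ sqF F (2 * g + 1),
    algebraMap ℂ A (w D) * (Lt (jac D) (2 * g) U₀ * Lt (jac D) (2 * g) U₁)

/-- The weighted second moment after removing the four main terms by a recurrence in `g`. -/
noncomputable def HW (w : F[X] → ℂ) (U₀ U₁ : A) (g : ℕ) : A :=
  PowerSeries.coeff g (Ph F (PowerSeries.C U₀) (PowerSeries.C U₁) PowerSeries.X *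
    PowerSeries.mk (TW w U₀ U₁))

variable (F)

/-- The homogeneous parts of `HW` for the ratio; `u 0, u 1` above and `u 2, u 3` below. -/
noncomputable def ff (u : Fin 4 → ℂ) (n k g : ℕ) : ℂ :=
  (HW (F := F) (beta (u 2) (u 3) k) (C (u 0) * X : ℂ[X]) (C (u 1) * X) g).coeff n

/-- The local factor of the main term, with the poles removed. -/
noncomputable def BP (d : ℕ) (a : Fin 4 → A) : A :=
  algebraMap ℂ A (1 + ((Q F : ℂ) ^ d)⁻¹)⁻¹ *
    (1 + a 0 * a 1 + a 2 * a 3 - (a 0 + a 1) * (a 2 + a 3) + a 0 * a 1 * (a 2 * a 3) +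
      algebraMap ℂ A ((Q F : ℂ) ^ d)⁻¹ * ((1 - a 0 ^ 2) * (1 - a 1 ^ 2))) * (1 - a 0 * a 1)

variable {F}

/-- The weight `1 / (L(v₁) L(v₂))`. -/
noncomputable def wt (v₁ v₂ : ℂ) (D : F[X]) : ℂ :=
  (Lt (jac D) D.natDegree v₁ * Lt (jac D) D.natDegree v₂)⁻¹

section Map

variable {B : Type*} [CommRing B] [Algebra ℂ B] (φ : A →ₐ[ℂ] B)

theorem map_gam (I : ℕ) (z : A) : φ (gam I z) = gam I (φ z) := by simp [gam]

theorem map_Lt (χ : F[X] → ℂ) (I : ℕ) (z : A) : φ (Lt χ I z) = Lt χ I (φ z) := by simp [Lt]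

theorem map_Li (χ : F[X] → ℂ) (I : ℕ) (z : A) : φ (Li χ I z) = Li χ I (φ z) := by simp [Li]

theorem map_Ev (M d : ℕ) (U : Fin 4 → A) : φ (Ev M (pw U d)) = Ev M (pw (φ ∘ U) d) := by
  simp [Ev, pw, map_gam]

theorem map_Od (M d : ℕ) (U : Fin 4 → A) : φ (Od M (pw U d)) = Od M (pw (φ ∘ U) d) := by
  simp [Od, pw, map_gam]

theorem map_rho (I d : ℕ) (y : A) : φ (rho I y d) = rho I (φ y) d := by simp [rho, map_gam]

theorem map_dy (σ : ℂ) (y : A) : φ (dy F σ y) = dy F σ (φ y) := by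
  rw [dy, dy, map_mul, AlgHom.commutes]

theorem map_kap (σ : ℂ) (y : A) : φ (kap F σ y) = kap F σ (φ y) := by
  simp only [kap, map_mul, AlgHom.commutes, map_add, map_neg, map_sub, map_one, map_natCast]

theorem map_wV (M : ℕ) (y : A) (V : F[X]) : φ (wV F M y V) = wV F M (φ y) V := by
  rw [wV, wV, map_mul, AlgHom.commutes, map_pow φ]

theorem map_lE (M I d : ℕ) (U : Fin 4 → A) (y : A) :
    φ (lE M I U y d) = lE M I (φ ∘ U) (φ y) d := by
  simp only [lE, map_neg, map_mul, map_Ev, map_rho, map_pow]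

theorem map_lO (M I : ℕ) (U : Fin 4 → A) (y : A) (σ : ℂ) (W P : F[X]) :
    φ (lO M I U y σ W P) = lO M I (φ ∘ U) (φ y) σ W P := by
  simp only [lO, map_add, map_one, map_mul, map_Ev, map_Od, map_rho, map_pow, map_dy,
    AlgHom.commutes]

theorem map_om (M d : ℕ) (U : Fin 4 → A) (y : A) (σ : ℂ) :
    φ (om F M U y σ d) = om F M (φ ∘ U) (φ y) σ d := by
  simp only [om, map_sub, map_one, map_mul, map_gam, map_pow, map_dy, Function.comp]

theorem map_Zs (I : ℕ) (U : Fin 4 → A) (y : A) : φ (Zs F I U y) = Zs F I (φ ∘ U) (φ y) := by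
  simp only [Zs, map_sum, map_mul, map_pow, map_Lt, map_Li, Function.comp]

theorem map_Pr (M I : ℕ) (U : Fin 4 → A) (y : A) :
    φ (Pr F M I U y) = Pr F M I (φ ∘ U) (φ y) := by
  simp only [Pr, map_sum, map_mul, map_prod, map_kap, map_wV, map_lE, map_lO]

theorem map_Ps (M I : ℕ) (U : Fin 4 → A) (y : A) :
    φ (Ps F M I U y) = Ps F M I (φ ∘ U) (φ y) := by
  simp only [Ps, map_sum, map_mul, map_prod, map_kap, map_wV, map_lE, map_lO, map_om, map_add,
    map_sub, map_one, map_dy, map_natCast, Function.comp]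

theorem map_Pd (M I : ℕ) (U : Fin 4 → A) (y : A) :
    φ (Pd F M I U y) = Pd F M I (φ ∘ U) (φ y) := by
  simp only [Pd, map_mul, map_prod, map_add, map_sub, map_one, map_Ev, map_rho, map_pow]

theorem map_Ph (U₀ U₁ Y : A) : φ (Ph F U₀ U₁ Y) = Ph F (φ U₀) (φ U₁) (φ Y) := by
  simp only [Ph, map_mul, map_sub, map_one, map_pow, map_natCast]

theorem map_pre (U : Fin 4 → A) (y : A) : φ (pre F U y) = pre F (φ ∘ U) (φ y) := by
  simp only [pre, map_mul, map_sub, map_add, map_one, map_pow, map_natCast, Function.comp]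

theorem map_mid (U : Fin 4 → A) (y : A) : φ (mid F U y) = mid F (φ ∘ U) (φ y) := by
  simp only [mid, map_mul, map_sub, map_one, map_pow, map_natCast, Function.comp]

theorem map_BP (d e : ℕ) (U : Fin 4 → A) : φ (BP F d (pw U e)) = BP F d (pw (φ ∘ U) e) := by
  simp only [BP, pw, map_mul, map_sub, map_add, map_one, map_pow, AlgHom.commutes, Function.comp]

theorem map_TW (w : F[X] → ℂ) (U₀ U₁ : A) (g : ℕ) :
    φ (TW w U₀ U₁ g) = TW w (φ U₀) (φ U₁) g := by
  simp only [TW, map_sum, map_mul, map_Lt, AlgHom.commutes]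

theorem map_HW (w : F[X] → ℂ) (U₀ U₁ : A) (g : ℕ) :
    φ (HW w U₀ U₁ g) = HW w (φ U₀) (φ U₁) g := by
  have h : PowerSeries.map (φ : A →+* B) (PowerSeries.mk (TW w U₀ U₁)) =
      PowerSeries.mk (TW w (φ U₀) (φ U₁)) := by
    ext n
    simp [map_TW]
  rw [HW, HW, ← h]
  change (φ : A →+* B) _ = _
  rw [← PowerSeries.coeff_map, map_mul]
  simp [Ph]

end Map

end Gen

end Pool.Agent.MP_dd7250_nt

end

section

/- The Jacobi symbol and quadratic reciprocity. -/

set_option autoImplicit false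

namespace Pool.Agent.MP_dd7250_nt

open Polynomial Finset Pool.Agent.MP_d232b3_nt
open scoped Classical

variable {F : Type*} [Field F] [Fintype F]

omit [Fintype F] in
theorem jac_ind {p : F[X] → Prop} (h1 : p 1)
    (hm : ∀ P g : F[X], P.Monic → Irreducible P → g.Monic → p g → p (P * g)) {f : F[X]}
    (hf : f.Monic) : p f := by
  generalize hn : f.natDegree = n
  induction n using Nat.strong_induction_on generalizing f with
  | _ n ih =>
    by_cases hu : IsUnit f
    · rw [hf.isUnit_iff.1 hu]; exact h1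
    obtain ⟨P, hP, hi, g, rfl⟩ := exists_monic_irreducible_factor f hu
    have hg : g.Monic := hP.of_mul_monic_left hf
    refine hm P g hP hi hg (ih _ ?_ hg rfl)
    have := hi.natDegree_pos
    rw [← hn, hP.natDegree_mul hg]
    omega

omit [Fintype F] in
theorem jac_leg_tri (D P : F[X]) : leg D P = 0 ∨ leg D P = 1 ∨ leg D P = -1 := by
  unfold leg
  split_ifs <;> simp

theorem jac_eta_mul (a b : F) : eta F (a * b) = eta F a * eta F b := by
  simp only [eta, map_mul, Int.cast_mul]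

theorem jac_eta_one : eta F 1 = 1 := by
  simp only [eta, map_one, Int.cast_one]

theorem jac_eta_pow (a : F) (n : ℕ) : eta F (a ^ n) = eta F a ^ n := by
  simp only [eta, map_pow, Int.cast_pow]

theorem jac_eta_cases (hF : ringChar F ≠ 2) (r : F) :
    (r = 0 ∧ eta F r = 0) ∨ (r ^ (Q F / 2) = 1 ∧ eta F r = 1) ∨
      (r ^ (Q F / 2) = -1 ∧ eta F r = -1) := by
  by_cases h : r = 0
  · left
    refine ⟨h, ?_⟩
    rw [eta, h, MulChar.map_zero, Int.cast_zero]
  right
  rw [eta, quadraticChar_eq_pow_of_char_ne_two hF h]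
  by_cases h1 : r ^ (Fintype.card F / 2) = 1
  · left
    rw [if_pos h1]
    exact ⟨h1, Int.cast_one⟩
  · right
    rw [if_neg h1]
    exact ⟨(FiniteField.pow_dichotomy hF h).resolve_left h1, by simp⟩

theorem jac_res {x : KK F} {j : ℕ} (hx : x ^ Q F ^ j = x) (D : F[X]) :
    algebraMap F (KK F) (resultant (cc x j) D) = aeval x D ^ ∑ i ∈ range j, Q F ^ i := by
  have h1 : ((cc x j).map (algebraMap F (KK F))).natDegree = (cc x j).natDegree := natDegree_map _
  rw [← resultant_map_map, ← h1, resultant_eq_prod_eval _ _ _ natDegree_map_le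
    (IsAlgClosed.splits _), ((monic_cc x j).map _).leadingCoeff, one_pow, one_mul, map_cc hx,
    roots_multiset_prod_X_sub_C, orb, Multiset.map_map, ← prod_pow_eq_pow_sum,
    prod_eq_multiset_prod, range_val]
  refine congrArg _ (Multiset.map_congr rfl fun i _ => ?_)
  rw [Function.comp_apply, eval_map_algebraMap, aeval_pow]

theorem jac_exp (hF : ringChar F ≠ 2) (j : ℕ) :
    (∑ i ∈ range j, Q F ^ i) * (Q F / 2) = (Q F ^ j - 1) / 2 := by
  have h1 : Q F % 2 = 1 := FiniteField.odd_card_of_char_ne_two hF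
  obtain ⟨k, hk⟩ : ∃ k, Q F = 2 * k + 1 := ⟨Q F / 2, by omega⟩
  have h2 := geom_sum_mul_add (2 * k) j
  rw [hk, ← h2, Nat.add_sub_cancel, mul_left_comm, Nat.mul_div_cancel_left _ two_pos]
  congr 1
  omega

theorem jac_res_pow (hF : ringChar F ≠ 2) {x : KK F} {j : ℕ} (hx : x ^ Q F ^ j = x) (D : F[X]) :
    algebraMap F (KK F) (resultant (cc x j) D ^ (Q F / 2)) =
      aeval x D ^ ((Q F ^ j - 1) / 2) := by
  rw [map_pow, jac_res hx, ← pow_mul, jac_exp hF]

theorem jac_sq_iff (hF : ringChar F ≠ 2) (x : KK F) {D : F[X]} (hD : ¬ minpoly F x ∣ D) :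
    (∃ y : F[X], minpoly F x ∣ y ^ 2 - D) ↔
      aeval x D ^ ((Q F ^ (minpoly F x).natDegree - 1) / 2) = 1 := by
  set P := minpoly F x with hP
  have hm : P.Monic := minpoly.monic (integral x)
  haveI : Fact (Irreducible P) := ⟨minpoly.irreducible (integral x)⟩
  let pb := AdjoinRoot.powerBasis' hm
  haveI : Module.Finite F (AdjoinRoot P) := pb.finite
  haveI : Finite (AdjoinRoot P) := Module.finite_of_finite F
  letI : Fintype (AdjoinRoot P) := Fintype.ofFinite _
  have hc : Fintype.card (AdjoinRoot P) = Q F ^ P.natDegree := by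
    rw [Module.card_eq_pow_finrank (K := F), pb.finrank]
    rfl
  have hL : ringChar (AdjoinRoot P) ≠ 2 := by rwa [← Algebra.ringChar_eq F (AdjoinRoot P)]
  have h0 : AdjoinRoot.mk P D ≠ 0 := fun h => hD (AdjoinRoot.mk_eq_zero.1 h)
  have hodd := FiniteField.odd_card_of_char_ne_two hL
  have he : (Q F ^ P.natDegree - 1) / 2 = Fintype.card (AdjoinRoot P) / 2 := by
    rw [← hc]; omega
  have hx : P.eval₂ (algebraMap F (KK F)) x = 0 := by
    rw [← aeval_def]; exact minpoly.aeval F x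
  let φ := AdjoinRoot.lift (algebraMap F (KK F)) x hx
  have hφ : φ (AdjoinRoot.mk P D) = aeval x D := by
    rw [aeval_def]; exact AdjoinRoot.lift_mk hx D
  rw [he, ← hφ, ← map_pow, ← map_one φ, φ.injective.eq_iff, ← FiniteField.isSquare_iff hL h0]
  constructor
  · rintro ⟨y, hy⟩
    refine ⟨AdjoinRoot.mk P y, ?_⟩
    rw [← map_mul, ← pow_two]
    exact (AdjoinRoot.mk_eq_mk.2 hy).symm
  · rintro ⟨z, hz⟩
    obtain ⟨y, rfl⟩ := AdjoinRoot.mk_surjective z
    refine ⟨y, AdjoinRoot.mk_eq_mk.1 ?_⟩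
    rw [pow_two, map_mul, hz]

theorem jac_leg_eta (hF : ringChar F ≠ 2) (D : F[X]) {P : F[X]} (hm : P.Monic)
    (hi : Irreducible P) : leg D P = eta F (resultant P D) := by
  obtain ⟨x, hx⟩ := IsAlgClosed.exists_aeval_eq_zero (KK F) P (degree_pos_of_irreducible hi).ne'
  obtain rfl := minpoly.eq_of_irreducible_of_monic hi hx hm
  have hd := minpoly.natDegree_pos (integral x)
  have hfix := (fix_iff x _).2 (dvd_refl (minpoly F x).natDegree)
  have hcc : cc x (minpoly F x).natDegree = minpoly F x := by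
    rw [cc, Nat.div_self hd, pow_one]
  have h1 := jac_res hfix D
  have h2 := jac_res_pow hF hfix D
  rw [hcc] at h1 h2
  have hK : (-1 : KK F) ≠ 1 :=
    Ring.neg_one_ne_one_of_char_ne_two (by rwa [← Algebra.ringChar_eq F (KK F)])
  have hS : ∑ i ∈ range (minpoly F x).natDegree, Q F ^ i ≠ 0 :=
    (sum_pos (fun i _ => pow_pos Fintype.card_pos i) (nonempty_range_iff.2 hd.ne')).ne'
  have hq : Q F / 2 ≠ 0 := (Nat.div_pos Fintype.one_lt_card two_pos).ne'
  by_cases hD : minpoly F x ∣ D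
  · rw [minpoly.dvd_iff.1 hD, zero_pow hS, map_eq_zero] at h1
    rw [leg, if_pos hD, h1, eta, MulChar.map_zero, Int.cast_zero]
  rw [leg, if_neg hD]
  have h3 := jac_sq_iff hF x hD
  rcases jac_eta_cases hF (resultant (minpoly F x) D) with ⟨h4, -⟩ | ⟨h4, h5⟩ | ⟨h4, h5⟩
  · rw [h4, map_zero] at h1
    exact absurd (minpoly.dvd_iff.2 (pow_eq_zero_iff hS |>.1 h1.symm)) hD
  · rw [h4, map_one] at h2
    rw [h5, if_pos (h3.2 h2.symm)]
  · rw [h4, map_neg, map_one] at h2
    rw [h5, if_neg fun h => hK (h2.trans (h3.1 h))]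

theorem CM.prod {χ : F[X] → ℂ} (h : CM χ) (S : Finset F[X]) (hS : ∀ P ∈ S, P.Monic) :
    χ (∏ P ∈ S, P) = ∏ P ∈ S, χ P := by
  induction S using Finset.induction_on with
  | empty => simpa using h.one
  | insert a s ha ih =>
    have hs : ∀ P ∈ s, P.Monic := fun P hP => hS P (mem_insert_of_mem hP)
    rw [prod_insert ha, prod_insert ha, h.mul _ _ (hS a (mem_insert_self a s))
      (monic_prod_of_monic s _ hs), ih hs]

theorem jac_cm (D : F[X]) : CM (jac D) := by
  refine ⟨?_, fun f g hf hg => ?_⟩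
  · rw [jac, UniqueFactorizationMonoid.normalizedFactors_one, Multiset.map_zero,
      Multiset.prod_zero]
  · rw [jac, jac, jac, UniqueFactorizationMonoid.normalizedFactors_mul hf.ne_zero hg.ne_zero,
      Multiset.map_add, Multiset.prod_add]

theorem jac_prime (D : F[X]) {P : F[X]} (hm : P.Monic) (hi : Irreducible P) :
    jac D P = leg D P := by
  rw [jac, UniqueFactorizationMonoid.normalizedFactors_irreducible hi, hm.normalize_eq_self,
    Multiset.map_singleton, Multiset.prod_singleton]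

theorem jac_tri (D f : F[X]) : jac D f = 0 ∨ jac D f = 1 ∨ jac D f = -1 := by
  rw [jac]
  refine Multiset.prod_induction (fun z : ℂ => z = 0 ∨ z = 1 ∨ z = -1) _ ?_ (by simp) ?_
  · rintro a b (rfl | rfl | rfl) (rfl | rfl | rfl) <;> simp
  · intro a ha
    obtain ⟨P, -, rfl⟩ := Multiset.mem_map.1 ha
    exact jac_leg_tri D P

theorem norm_jac_le (D f : F[X]) : ‖jac D f‖ ≤ 1 := by
  rcases jac_tri D f with h | h | h <;> simp [h]

theorem jac_congr {D E f : F[X]} (hf : f.Monic) (h : f ∣ D - E) : jac D f = jac E f := by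
  rw [jac, jac]
  refine congrArg _ (Multiset.map_congr rfl fun P hP => ?_)
  have hP := (UniqueFactorizationMonoid.dvd_of_mem_normalizedFactors hP).trans h
  have h1 : P ∣ D ↔ P ∣ E := dvd_iff_dvd_of_dvd_sub hP
  have h2 : ∀ y : F[X], P ∣ y ^ 2 - D ↔ P ∣ y ^ 2 - E := fun y =>
    dvd_iff_dvd_of_dvd_sub (by
      rw [show y ^ 2 - D - (y ^ 2 - E) = -(D - E) by ring]
      exact hP.neg_right)
  simp only [leg, h1, h2]

theorem jac_sq_prime (D : F[X]) {P : F[X]} (hm : P.Monic) (hi : Irreducible P) :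
    jac D P ^ 2 = if P ∣ D then 0 else 1 := by
  rw [jac_prime D hm hi, leg]
  split_ifs <;> simp

theorem jac_of_isSquare {W P : F[X]} (hW : IsSquare W) (hm : P.Monic) (hi : Irreducible P) :
    jac W P = if P ∣ W then 0 else 1 := by
  obtain ⟨y, rfl⟩ := hW
  rw [jac_prime _ hm hi, leg, if_pos (⟨y, by simp [pow_two]⟩ : ∃ z : F[X], P ∣ z ^ 2 - y * y)]

theorem jac_one_left {f : F[X]} (hf : f.Monic) : jac 1 f = 1 := by
  refine jac_ind (p := fun f => jac 1 f = 1) (jac_cm 1).one (fun P g hP hi hg h => ?_) hf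
  rw [(jac_cm 1).mul P g hP hg, h, jac_of_isSquare IsSquare.one hP hi,
    if_neg fun h => hi.not_isUnit (isUnit_of_dvd_one h), one_mul]

theorem jac_eq_eta (hF : ringChar F ≠ 2) (D : F[X]) {f : F[X]} (hf : f.Monic) :
    jac D f = eta F (resultant f D) := by
  refine jac_ind (p := fun f => jac D f = eta F (resultant f D)) ?_
    (fun P g hP hi hg h => ?_) hf
  · rw [(jac_cm D).one, resultant_one_left, natDegree_one, zero_mul, pow_zero, pow_zero, one_mul,
      jac_eta_one]
  · rw [(jac_cm D).mul P g hP hg, h, jac_prime D hP hi, jac_leg_eta hF D hP hi,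
      hP.natDegree_mul hg, resultant_mul_left _ _ _ _ le_rfl, jac_eta_mul]

theorem jac_mul_left (hF : ringChar F ≠ 2) (D E : F[X]) {f : F[X]} (hf : f.Monic) :
    jac (D * E) f = jac D f * jac E f := by
  obtain ⟨k, hk⟩ := le_iff_exists_add.1 (natDegree_mul_le (p := D) (q := E))
  have h := resultant_mul_right f D E f.natDegree le_rfl
  rw [hk, resultant_add_right_deg _ _ _ _ _ le_rfl, hf.coeff_natDegree, one_pow, one_mul] at h
  rw [jac_eq_eta hF _ hf, jac_eq_eta hF _ hf, jac_eq_eta hF _ hf, h, jac_eta_mul]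

theorem jac_cm_left (hF : ringChar F ≠ 2) {m : F[X]} (hm : m.Monic) : CM fun f => jac f m :=
  ⟨jac_one_left hm, fun f g _ _ => jac_mul_left hF f g hm⟩

theorem jac_C (hF : ringChar F ≠ 2) (c : F) {f : F[X]} (hf : f.Monic) :
    jac (C c) f = eta F c ^ f.natDegree := by
  rw [jac_eq_eta hF _ hf, resultant_C_right, hf.coeff_natDegree, one_pow, one_mul, jac_eta_pow]

theorem eta_neg_one_sq : eta F (-1) ^ 2 = 1 := by
  rw [← jac_eta_pow, neg_one_sq, jac_eta_one]

theorem jac_recip (hF : ringChar F ≠ 2) {D f : F[X]} (hD : D.Monic) (hf : f.Monic) :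
    jac D f = eta F (-1) ^ (D.natDegree * f.natDegree) * jac f D := by
  rw [jac_eq_eta hF _ hf, jac_eq_eta hF _ hD, resultant_comm, jac_eta_mul, jac_eta_pow,
    mul_comm f.natDegree]

theorem jac_cc (hF : ringChar F ≠ 2) (D : F[X]) {x : KK F} {j : ℕ}
    (hx : x ^ Q F ^ j = x) (hj : j ≠ 0) :
    (jac D (cc x j) = 1 → aeval x D ^ ((Q F ^ j - 1) / 2) = 1) ∧
    (jac D (cc x j) = -1 → aeval x D ^ ((Q F ^ j - 1) / 2) = -1) ∧
    (jac D (cc x j) = 0 → aeval x D = 0) := by
  have h1 := jac_res hx D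
  have h2 := jac_res_pow hF hx D
  rw [jac_eq_eta hF D (monic_cc x j)]
  rcases jac_eta_cases hF (resultant (cc x j) D) with ⟨h4, h5⟩ | ⟨h4, h5⟩ | ⟨h4, h5⟩
  · rw [h4, map_zero] at h1
    rw [h5]
    exact ⟨fun h => absurd h (by norm_num), fun h => absurd h (by norm_num),
      fun _ => eq_zero_of_pow_eq_zero h1.symm⟩
  · rw [h4, map_one] at h2
    rw [h5]
    exact ⟨fun _ => h2.symm, fun h => absurd h (by norm_num), fun h => absurd h (by norm_num)⟩
  · rw [h4, map_neg, map_one] at h2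
    rw [h5]
    exact ⟨fun h => absurd h (by norm_num), fun _ => h2.symm, fun h => absurd h (by norm_num)⟩

end Pool.Agent.MP_dd7250_nt

end

section

/- The method of Stepanov for hyperelliptic curves. -/

set_option autoImplicit false

namespace Pool.Agent.MP_dd7250_nt

open Polynomial Finset Pool.Agent.MP_d232b3_nt
open scoped Classical

section Aux

variable {K : Type*} [Field K]

theorem step_ne {ι : Type*} [Fintype ι] (g : ι → K[X]) (hg0 : ∀ i, g i ≠ 0) (θ : K)
    (hinj : Function.Injective fun i => rootMultiplicity θ (g i)) {e : ι → K} (he0 : e ≠ 0) :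
    ∑ t, C (e t) * g t ≠ 0 := by
  intro h0
  obtain ⟨t0, ht0⟩ := Function.ne_iff.1 he0
  obtain ⟨t, ht, hmin⟩ := exists_min_image (univ.filter fun i => e i ≠ 0)
    (fun i => rootMultiplicity θ (g i)) ⟨t0, mem_filter.2 ⟨mem_univ _, ht0⟩⟩
  have het : e t ≠ 0 := (mem_filter.1 ht).2
  rw [← add_sum_erase _ _ (mem_univ t), add_eq_zero_iff_eq_neg] at h0
  have h1 : (X - C θ) ^ (rootMultiplicity θ (g t) + 1) ∣ C (e t) * g t := by
    rw [h0, dvd_neg]
    refine dvd_sum fun i hi => ?_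
    by_cases c : e i = 0
    · simp [c]
    · refine Dvd.dvd.mul_left ((le_rootMultiplicity_iff (hg0 i)).1 ?_) _
      have h2 := hmin i (mem_filter.2 ⟨mem_univ _, c⟩)
      have h3 : rootMultiplicity θ (g i) ≠ rootMultiplicity θ (g t) :=
        fun h => ne_of_mem_erase hi (hinj h)
      omega
  rw [(isUnit_C.2 het.isUnit).dvd_mul_left] at h1
  have := (le_rootMultiplicity_iff (hg0 t)).2 h1
  omega

theorem step_aux {ι : Type*} [Fintype ι] (g : ι → K[X])
    (hne : ∀ e : ι → K, e ≠ 0 → ∑ t, C (e t) * g t ≠ 0) (Φ : ι → K[X][X]) {D M Dg : ℕ}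
    (hΦ : ∀ i, (Φ i).natDegree ≤ D) (hcard : (D + 1) * M < Fintype.card ι)
    (hDg : ∀ i, (g i).natDegree ≤ Dg) (Z : Finset K)
    (hZ : ∀ x ∈ Z, ∀ i, (X - C x) ^ M ∣ g i - ev x (Φ i)) : Z.card * M ≤ Dg := by
  let T : (ι → K) →ₗ[K] (Fin (D + 1) × Fin M → K) :=
    { toFun := fun e p => ∑ t, e t * ((Φ t).coeff p.1).coeff p.2
      map_add' := fun a b => by ext p; simp [add_mul, sum_add_distrib]
      map_smul' := fun c a => by ext p; simp [mul_sum, mul_assoc] }
  have hker : LinearMap.ker T ≠ ⊥ := LinearMap.ker_ne_bot_of_finrank_lt (by simpa using hcard)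
  obtain ⟨e, he, he0⟩ := Submodule.exists_mem_ne_zero_of_ne_bot hker
  rw [LinearMap.mem_ker] at he
  set R : K[X] := ∑ t, C (e t) * g t with hR
  have hR0 : R ≠ 0 := hne e he0
  have hRd : R.natDegree ≤ Dg :=
    natDegree_sum_le_of_forall_le _ _ fun t _ => (natDegree_C_mul_le _ _).trans (hDg t)
  set Ψ : K[X][X] := ∑ t, C (C (e t)) * Φ t with hΨ
  have hΨc : ∀ i, X ^ M ∣ Ψ.coeff i := by
    intro i
    rw [X_pow_dvd_iff]
    intro m hm
    simp only [hΨ, finsetSum_coeff, coeff_C_mul]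
    by_cases hi : i < D + 1
    · exact congr_fun he (⟨i, hi⟩, ⟨m, hm⟩)
    · refine sum_eq_zero fun t _ => ?_
      rw [coeff_eq_zero_of_natDegree_lt (p := Φ t) (by have := hΦ t; omega)]
      simp
  have hdiv : ∀ x ∈ Z, (X - C x) ^ M ∣ R := by
    intro x hx
    have h1 : (X - C x) ^ M ∣ ev x Ψ := by
      rw [ev, coe_eval₂RingHom, eval₂_eq_sum_range]
      refine dvd_sum fun i _ => Dvd.dvd.mul_right ?_ _
      obtain ⟨r, hr⟩ := hΨc i
      rw [hr]
      simp
    have h2 : R = ev x Ψ + ∑ t, C (e t) * (g t - ev x (Φ t)) := by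
      rw [hΨ, map_sum, ← sum_add_distrib]
      refine sum_congr rfl fun t _ => ?_
      rw [map_mul, ev_C_C]
      ring
    rw [h2]
    exact dvd_add h1 (dvd_sum fun t _ => (hZ x hx t).mul_left _)
  have hle : M • Z.val ≤ R.roots := by
    rw [Multiset.le_iff_count]
    intro x
    rw [Multiset.count_nsmul, count_roots]
    by_cases hx : x ∈ Z
    · rw [Multiset.count_eq_one_of_mem Z.nodup hx, mul_one]
      exact (le_rootMultiplicity_iff hR0).2 (hdiv x hx)
    · rw [Multiset.count_eq_zero_of_notMem hx]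
      simp
  have := (Multiset.card_le_card hle).trans ((card_roots' R).trans hRd)
  simpa [mul_comm] using this

theorem step_ev_map (x : K) (W : K[X]) : ev x (W.map C) = C (eval x W) := by
  induction W using Polynomial.induction_on' with
  | add a b ha hb => rw [Polynomial.map_add, map_add, ha, hb, eval_add, C_add]
  | monomial n a =>
    rw [← C_mul_X_pow_eq_monomial, Polynomial.map_mul, Polynomial.map_pow, map_C, map_X, map_mul,
      map_pow, ev_C_C, ev_X, eval_mul, eval_C, eval_pow, eval_X, C_mul, C_pow]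

theorem step_rm_pow (θ : K) {W : K[X]} (hW : W ≠ 0) (n : ℕ) :
    rootMultiplicity θ (W ^ n) = n * rootMultiplicity θ W := by
  induction n with
  | zero => simp
  | succ n ih => rw [pow_succ, rootMultiplicity_mul (mul_ne_zero (pow_ne_zero _ hW) hW), ih]; ring

theorem step_count {p : ℕ} [Fact p.Prime] [CharP K p] {n m : ℕ} (hm : p ^ n = 2 * m + 1)
    (hm2 : 2 ≤ m) {W : K[X]} (hW : W ≠ 0) {θ : K} (hθ : rootMultiplicity θ W = 1) (e : K)
    (Z : Finset K) (hZ : ∀ x ∈ Z, x ^ ((2 * m + 1) * (2 * m + 1)) = x ∧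
      eval x W ^ (2 * m * (m + 1)) = e) :
    2 * Z.card ≤ (2 * m + 1) * (2 * m + 1) + (4 * W.natDegree + 2) * (2 * m + 1) := by
  obtain ⟨d, hd⟩ : ∃ d, d = W.natDegree := ⟨_, rfl⟩
  obtain ⟨q0, hq0⟩ : ∃ t, t = 2 * m + 1 := ⟨_, rfl⟩
  rw [← hq0] at hm hZ
  have hX : (X - C θ : K[X]) ≠ 0 := X_sub_C_ne_zero θ
  let g : Fin (q0 * m) × Fin 2 × Fin (m + d + 1 + 1) → K[X] := fun i =>
    (X - C θ) ^ (i.1 : ℕ) * (W ^ (q0 * (m + 1))) ^ (i.2.1 : ℕ) *
      ((X - C θ) ^ (q0 * q0)) ^ (i.2.2 : ℕ)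
  let Φ : Fin (q0 * m) × Fin 2 × Fin (m + d + 1 + 1) → K[X][X] := fun i =>
    (X + C X - C (C θ)) ^ (i.1 : ℕ) * (C (C e) * (W.map C) ^ (m + 1)) ^ (i.2.1 : ℕ) *
      (X - C (C (θ ^ (q0 * q0)))) ^ (i.2.2 : ℕ)
  have hg1 : ∀ i : Fin (q0 * m) × Fin 2 × Fin (m + d + 1 + 1),
      (X - C θ) ^ (i.1 : ℕ) * (W ^ (q0 * (m + 1))) ^ (i.2.1 : ℕ) ≠ 0 := fun i =>
    mul_ne_zero (pow_ne_zero _ hX) (pow_ne_zero _ (pow_ne_zero _ hW))
  have hg0 : ∀ i, g i ≠ 0 := fun i => mul_ne_zero (hg1 i) (pow_ne_zero _ (pow_ne_zero _ hX))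
  have hrm : ∀ i, rootMultiplicity θ (g i) =
      i.1 + q0 * (m + 1) * i.2.1 + q0 * q0 * i.2.2 := fun i => by
    rw [rootMultiplicity_mul (hg0 i), rootMultiplicity_mul (hg1 i), ← pow_mul, ← pow_mul,
      rootMultiplicity_X_sub_C_pow, rootMultiplicity_X_sub_C_pow, step_rm_pow θ hW, hθ, mul_one]
  have key := step_aux g (fun e he => step_ne g hg0 θ ?_ he) Φ
    (D := q0 * m + d * (m + 1) + (m + d + 1)) (M := q0)
    (Dg := q0 * m + q0 * (m + 1) * d + q0 * q0 * (m + d + 1)) ?_ ?_ ?_ Z ?_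
  · have h1 : Z.card ≤ m + (m + 1) * d + q0 * (m + d + 1) := by
      refine Nat.le_of_mul_le_mul_right (key.trans_eq ?_) (by omega : 0 < q0)
      ring
    rw [← hd]
    rw [hq0] at h1
    nlinarith [Nat.zero_le (m * d)]
  · intro i i' h
    simp only [hrm] at h
    have e0 : q0 * q0 = q0 * m + q0 * (m + 1) := by rw [hq0]; ring
    have e1 : q0 * m ≤ q0 * (m + 1) := Nat.mul_le_mul_left _ (by omega)
    have lt : ∀ i : Fin (q0 * m) × Fin 2 × Fin (m + d + 1 + 1),
        (i.1 : ℕ) + q0 * (m + 1) * i.2.1 < q0 * q0 := fun i => by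
      have a1 := i.1.2
      have a2 : q0 * (m + 1) * (i.2.1 : ℕ) ≤ q0 * (m + 1) * 1 :=
        Nat.mul_le_mul_left _ (Nat.le_of_lt_succ i.2.1.2)
      omega
    have h1 : (i.1 : ℕ) + q0 * (m + 1) * i.2.1 = i'.1 + q0 * (m + 1) * i'.2.1 := by
      have := congrArg (· % (q0 * q0)) h
      simpa only [Nat.add_mul_mod_self_left, Nat.mod_eq_of_lt (lt i), Nat.mod_eq_of_lt (lt i')]
        using this
    have h2 : (i.1 : ℕ) = i'.1 := by
      have := congrArg (· % (q0 * (m + 1))) h1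
      simpa only [Nat.add_mul_mod_self_left, Nat.mod_eq_of_lt (i.1.2.trans_le e1),
        Nat.mod_eq_of_lt (i'.1.2.trans_le e1)] using this
    have hq : 0 < q0 := by omega
    rw [h1, add_right_inj, Nat.mul_right_inj (by positivity)] at h
    rw [h2, add_right_inj, Nat.mul_right_inj (by positivity)] at h1
    exact Prod.ext (Fin.ext h2) (Prod.ext (Fin.ext h1) (Fin.ext h))
  · intro i
    refine natDegree_mul_le.trans (add_le_add (natDegree_mul_le.trans (add_le_add ?_ ?_)) ?_)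
    · refine natDegree_pow_le.trans ?_
      rw [add_sub_assoc, ← C_sub, natDegree_X_add_C, mul_one]
      exact i.1.2.le
    · refine natDegree_pow_le.trans ?_
      have a1 : (C (C e) * (W.map C) ^ (m + 1) : K[X][X]).natDegree ≤ d * (m + 1) := by
        refine (natDegree_C_mul_le _ _).trans (natDegree_pow_le.trans ?_)
        rw [mul_comm, hd]
        exact Nat.mul_le_mul_right _ natDegree_map_le
      exact (Nat.mul_le_mul (Nat.le_of_lt_succ i.2.1.2) a1).trans_eq (one_mul _)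
    · refine natDegree_pow_le.trans ?_
      rw [natDegree_X_sub_C, mul_one]
      exact Nat.le_of_lt_succ i.2.2.2
  · simp only [Fintype.card_prod, Fintype.card_fin]
    calc _ < m * (2 * (m + d + 1 + 1)) * q0 := by
          refine Nat.mul_lt_mul_of_pos_right ?_ (by omega)
          rw [hq0]
          nlinarith [Nat.mul_le_mul_right d hm2]
      _ = _ := by ring
  · intro i
    refine natDegree_mul_le.trans (add_le_add (natDegree_mul_le.trans (add_le_add ?_ ?_)) ?_)
    · rw [natDegree_pow, natDegree_X_sub_C, mul_one]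
      exact i.1.2.le
    · rw [natDegree_pow, natDegree_pow, ← hd]
      exact (Nat.mul_le_mul_right _ (Nat.le_of_lt_succ i.2.1.2)).trans_eq (one_mul _)
    · rw [natDegree_pow, natDegree_pow, natDegree_X_sub_C, mul_one, mul_comm]
      exact Nat.mul_le_mul_left _ (Nat.le_of_lt_succ i.2.2.2)
  · intro x hx i
    obtain ⟨h1, h2⟩ := hZ x hx
    rw [← Ideal.mem_span_singleton, ← Ideal.Quotient.eq]
    obtain ⟨π, hπ⟩ : ∃ t, t = Ideal.Quotient.mk (Ideal.span {(X - C x) ^ q0}) := ⟨_, rfl⟩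
    rw [← hπ]
    have h4 : ∀ P : K[X], π (P ^ q0) = π (C (eval x P ^ q0)) := fun P => by
      rw [hπ, Ideal.Quotient.eq, Ideal.mem_span_singleton, C_pow, ← hm, ← sub_pow_char_pow]
      exact pow_dvd_pow_of_dvd (X_sub_C_dvd_sub_C_eval) _
    have h5 : π (W ^ (q0 * (m + 1))) = π (C e * C (eval x W) ^ (m + 1)) := by
      rw [pow_mul, map_pow, h4, ← map_pow, ← C_pow, ← C_pow, ← C_mul, ← h2, ← pow_mul, ← pow_add]
      congr 3
      rw [hq0]; ring
    have h6 : π ((X - C θ) ^ (q0 * q0)) = π (C x - C (θ ^ (q0 * q0))) := by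
      rw [pow_mul, pow_right_comm, map_pow, h4, ← map_pow, ← C_pow, ← C_sub, ← pow_mul, eval_sub,
        eval_X, eval_C]
      congr 2
      rw [← h1, ← hm, ← pow_add, sub_pow_char_pow, pow_add, hm, h1, h1]
    simp only [g, Φ, map_mul π, map_pow π _ (i.1 : ℕ), map_pow π _ (i.2.1 : ℕ),
      map_pow π _ (i.2.2 : ℕ), h5, h6, map_mul (ev x), map_pow (ev x), map_sub (ev x),
      map_add (ev x), ev_X, ev_C_X, ev_C_C, step_ev_map, add_sub_cancel]

end Aux

variable {F : Type*} [Field F] [Fintype F]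

theorem norm_SS_jac (hF : ringChar F ≠ 2) {W : F[X]} (hW : W.Monic) (hs : Squarefree W)
    (h0 : 0 < W.natDegree) :
    ∃ (c : ℝ) (s0 : ℕ), ∀ s ≥ s0, ‖SS (jac W) (2 * s)‖ ≤ c * (Q F : ℝ) ^ s := by
  obtain ⟨p, hp⟩ := CharP.exists F
  obtain ⟨e, hpp, he⟩ := FiniteField.card F p
  have : Fact p.Prime := ⟨hpp⟩
  have : CharP (KK F) p := charP_of_injective_algebraMap (algebraMap F (KK F)).injective p
  obtain ⟨W', hW'⟩ : ∃ t, t = W.map (algebraMap F (KK F)) := ⟨_, rfl⟩
  have hm' : W'.Monic := hW' ▸ hW.map _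
  have hd' : W'.natDegree = W.natDegree := by rw [hW', hW.natDegree_map]
  have hsep : W'.Separable := hW' ▸ (PerfectField.separable_iff_squarefree.2 hs).map
  obtain ⟨θ, hθ⟩ := IsAlgClosed.exists_root W'
    (natDegree_pos_iff_degree_pos.1 (hd' ▸ h0)).ne'
  have hθ1 : rootMultiplicity θ W' = 1 :=
    le_antisymm (rootMultiplicity_le_one_of_separable hsep θ)
      ((rootMultiplicity_pos hm'.ne_zero).2 hθ)
  have hev : ∀ x : KK F, eval x W' = aeval x W := fun x => by rw [hW', eval_map_algebraMap]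
  refine ⟨5 * W.natDegree + 2, 2, fun s hs2 => ?_⟩
  have hodd : Q F % 2 = 1 := FiniteField.odd_card_of_char_ne_two hF
  have hq1 : 1 < Q F := Fintype.one_lt_card
  obtain ⟨m, hm⟩ : Odd (Q F ^ s) := (Nat.odd_iff.2 hodd).pow
  have hm2 : 2 ≤ m := by
    have h1 : 3 ^ 2 ≤ Q F ^ 2 := Nat.pow_le_pow_left (by omega) 2
    have h2 : Q F ^ 2 ≤ Q F ^ s := Nat.pow_le_pow_right (by omega) hs2
    omega
  have hs0 : 2 * s ≠ 0 := by omega
  have hQQ : Q F ^ (2 * s) = (2 * m + 1) * (2 * m + 1) := by rw [two_mul s, pow_add, hm]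
  have hhalf : (Q F ^ (2 * s) - 1) / 2 = 2 * m * (m + 1) := by
    rw [hQQ, show (2 * m + 1) * (2 * m + 1) = 2 * (2 * m * (m + 1)) + 1 by ring]
    omega
  have hpm : p ^ ((e : ℕ) * s) = 2 * m + 1 := by rw [pow_mul, ← he, ← hm]
  have cnt : ∀ (ε : KK F) (Z : Finset (KK F)), Z ⊆ VV F (2 * s) →
      (∀ x ∈ Z, aeval x W ^ ((Q F ^ (2 * s) - 1) / 2) = ε) →
      2 * Z.card ≤ (2 * m + 1) * (2 * m + 1) + (4 * W.natDegree + 2) * (2 * m + 1) := by
    intro ε Z hZ h
    rw [← hd']
    refine step_count hpm hm2 hm'.ne_zero hθ1 ε Z fun x hx => ⟨?_, ?_⟩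
    · rw [← hQQ]; exact (mem_VV hs0).1 (hZ hx)
    · rw [hev, ← hhalf]; exact h x hx
  obtain ⟨V, hV⟩ : ∃ t, t = VV F (2 * s) := ⟨_, rfl⟩
  have hVc : V.card = (2 * m + 1) * (2 * m + 1) := by rw [hV, card_VV hs0, ← hQQ]
  have hx : ∀ x ∈ V, x ^ Q F ^ (2 * s) = x := fun x h => (mem_VV hs0).1 (hV ▸ h)
  obtain ⟨f, hf⟩ : ∃ t : KK F → ℂ, t = fun x => jac W (cc x (2 * s)) := ⟨_, rfl⟩
  have hfx : ∀ x, f x = jac W (cc x (2 * s)) := fun x => by rw [hf]
  have c1 := cnt 1 (V.filter fun x => f x = 1) (hV ▸ filter_subset _ _) fun x h =>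
    (jac_cc hF W (hx x (mem_filter.1 h).1) hs0).1 (hfx x ▸ (mem_filter.1 h).2)
  have c2 := cnt (-1) (V.filter fun x => f x = -1) (hV ▸ filter_subset _ _) fun x h =>
    (jac_cc hF W (hx x (mem_filter.1 h).1) hs0).2.1 (hfx x ▸ (mem_filter.1 h).2)
  have c0 : (V.filter fun x => f x = 0).card ≤ W.natDegree := by
    rw [← hd']
    refine card_le_degree_of_subset_roots fun x h => ?_
    have h' := mem_filter.1 (mem_def.2 h)
    rw [mem_roots hm'.ne_zero, IsRoot.def, hev]
    exact (jac_cc hF W (hx x h'.1) hs0).2.2 (hfx x ▸ h'.2)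
  have tri : ∀ x, f x = 0 ∨ f x = 1 ∨ f x = -1 := fun x => hfx x ▸ jac_tri _ _
  have n1 : (1 : ℂ) ≠ -1 := by norm_num
  have s1 : SS (jac W) (2 * s) = (((V.filter fun x => f x = 1).card : ℝ) -
      ((V.filter fun x => f x = -1).card : ℝ) : ℝ) := by
    rw [SS, ← hV, card_filter, card_filter]
    push_cast
    rw [← sum_sub_distrib]
    refine sum_congr rfl fun x _ => ?_
    rw [← hfx]
    rcases tri x with h | h | h <;> simp [h, n1, n1.symm]
  have s2 : (V.filter fun x => f x = 1).card + (V.filter fun x => f x = -1).card +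
      (V.filter fun x => f x = 0).card = V.card := by
    rw [card_filter, card_filter, card_filter, ← sum_add_distrib, ← sum_add_distrib,
      card_eq_sum_ones]
    refine sum_congr rfl fun x _ => ?_
    rcases tri x with h | h | h <;> simp [h, n1, n1.symm]
  have hq : (Q F : ℝ) ^ s = 2 * m + 1 := by exact_mod_cast hm
  rw [s1, Complex.norm_real, Real.norm_eq_abs, hq]
  rw [hVc] at s2
  generalize (V.filter fun x => f x = 1).card = a at *
  generalize (V.filter fun x => f x = -1).card = b at *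
  generalize (V.filter fun x => f x = 0).card = z at *
  generalize W.natDegree = d at *
  have r1 : (2 * a : ℝ) ≤ (2 * m + 1) * (2 * m + 1) + (4 * d + 2) * (2 * m + 1) := by
    exact_mod_cast c1
  have r2 : (2 * b : ℝ) ≤ (2 * m + 1) * (2 * m + 1) + (4 * d + 2) * (2 * m + 1) := by
    exact_mod_cast c2
  have r0 : (z : ℝ) ≤ d := by exact_mod_cast c0
  have r3 : (a : ℝ) + b + z = (2 * m + 1) * (2 * m + 1) := by exact_mod_cast s2
  have r4 : (0 : ℝ) ≤ d * m := by positivity
  rw [abs_le]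
  constructor <;> nlinarith

end Pool.Agent.MP_dd7250_nt

end

section

/- Gauss sums and the functional equation for the character modulo a squarefree D. -/

set_option autoImplicit false
set_option maxHeartbeats 400000

namespace Pool.Agent.MP_dd7250_nt

open Polynomial Finset Pool.Agent.MP_d232b3_nt
open scoped Classical

variable {F : Type*} [Field F] [Fintype F]

variable (F) in
/-- Polynomials of degree less than `n`. -/
noncomputable def gaussV (n : ℕ) : Finset F[X] :=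
  univ.map (Function.Embedding.subtype (· ∈ degreeLT F n))

theorem gauss_mem {n : ℕ} {x : F[X]} : x ∈ gaussV F n ↔ x.degree < n := by
  simp [gaussV, mem_degreeLT]

theorem gauss_card (n : ℕ) : (gaussV F n).card = Q F ^ n := by
  rw [gaussV, card_map, card_univ]
  exact (Fintype.card_congr (degreeLTEquiv F n).toEquiv).trans (by simp)

theorem gauss_mem' {n : ℕ} {x : F[X]} : x ∈ gaussV F n ↔ x = 0 ∨ x.natDegree < n := by
  rw [gauss_mem]
  by_cases h : x = 0
  · simp [h]
  · simp [h, natDegree_lt_iff_degree_lt h]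

theorem gauss_add {n : ℕ} {x y : F[X]} (hx : x ∈ gaussV F n) (hy : y ∈ gaussV F n) :
    x + y ∈ gaussV F n :=
  gauss_mem.2 ((degree_add_le _ _).trans_lt (max_lt (gauss_mem.1 hx) (gauss_mem.1 hy)))

theorem gauss_neg {n : ℕ} {x : F[X]} (hx : x ∈ gaussV F n) : -x ∈ gaussV F n :=
  gauss_mem.2 (by rw [degree_neg]; exact gauss_mem.1 hx)

theorem gauss_sub {n : ℕ} {x y : F[X]} (hx : x ∈ gaussV F n) (hy : y ∈ gaussV F n) :
    x - y ∈ gaussV F n := sub_eq_add_neg x y ▸ gauss_add hx (gauss_neg hy)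

theorem gauss_mono {n m : ℕ} (h : n ≤ m) : gaussV F n ⊆ gaussV F m := fun _ hx =>
  gauss_mem.2 ((gauss_mem.1 hx).trans_le (by exact_mod_cast h))

theorem gauss_Cmul {n : ℕ} (c : F) {x : F[X]} (hx : x ∈ gaussV F n) : C c * x ∈ gaussV F n :=
  gauss_mem.2 (lt_of_le_of_lt (by rw [← smul_eq_C_mul]; exact degree_smul_le c x) (gauss_mem.1 hx))

theorem gauss_mod {D : F[X]} (hD : D.Monic) (x : F[X]) : x %ₘ D ∈ gaussV F D.natDegree :=
  gauss_mem.2 ((degree_modByMonic_lt x hD).trans_eq (degree_eq_natDegree hD.ne_zero))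

theorem gauss_eq_zero {D x : F[X]} (hx : x ∈ gaussV F D.natDegree) (h : D ∣ x) : x = 0 :=
  (gauss_mem'.1 hx).elim id (eq_zero_of_dvd_of_natDegree_lt h)

theorem gauss_mul {n m : ℕ} {x g : F[X]} (hx : x ∈ gaussV F n) (hg : g.natDegree ≤ m) :
    x * g ∈ gaussV F (n + m) := by
  rcases gauss_mem'.1 hx with rfl | h
  · exact gauss_mem'.2 (Or.inl (zero_mul _))
  · exact gauss_mem'.2 (Or.inr (natDegree_mul_le.trans_lt (by omega)))

theorem gauss_shift {n : ℕ} {v : F[X]} (hv : v ∈ gaussV F n) (φ : F[X] → ℂ) :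
    ∑ x ∈ gaussV F n, φ (x + v) = ∑ x ∈ gaussV F n, φ x :=
  sum_nbij' (· + v) (· - v) (fun _ h => gauss_add h hv) (fun _ h => gauss_sub h hv)
    (fun _ _ => by simp) (fun _ _ => by simp) fun _ _ => rfl

theorem gauss_V_zero : gaussV F 0 = {0} := by
  ext x; simp [gauss_mem']

theorem gauss_coeff {n : ℕ} {v : F[X]} (hv : v ∈ gaussV F n) (c : F) :
    (C c * X ^ n + v).coeff n = c := by
  rw [coeff_add, coeff_C_mul_X_pow, if_pos rfl, coeff_eq_zero_of_degree_lt (gauss_mem.1 hv),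
    add_zero]

theorem gauss_sum_succ (n : ℕ) (φ : F[X] → ℂ) :
    ∑ y ∈ gaussV F (n + 1), φ y = ∑ c : F, ∑ v ∈ gaussV F n, φ (C c * X ^ n + v) := by
  rw [← sum_product']
  refine (sum_nbij' (fun p => C p.1 * X ^ n + p.2)
    (fun y => (y.coeff n, y - C (y.coeff n) * X ^ n)) (fun p hp => ?_) (fun y hy => ?_)
    (fun p hp => ?_) (fun y _ => by simp) fun _ _ => rfl).symm
  · refine gauss_add (gauss_mem.2 ((degree_C_mul_X_pow_le n _).trans_lt ?_))
      (gauss_mono n.le_succ (mem_product.1 hp).2)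
    exact_mod_cast n.lt_succ_self
  · refine mem_product.2 ⟨mem_univ _, gauss_mem.2 ((degree_lt_iff_coeff_zero _ _).2 fun m hm => ?_)⟩
    rw [coeff_sub, coeff_C_mul_X_pow]
    split_ifs with h
    · rw [h, sub_self]
    · rw [sub_zero]
      exact (degree_lt_iff_coeff_zero _ _).1 (gauss_mem.1 hy) m (by omega)
  · simp only [gauss_coeff (mem_product.1 hp).2, add_sub_cancel_left]

theorem gauss_sum_mon {c : F} (hc : c ≠ 0) (n : ℕ) (φ : F[X] → ℂ) :
    ∑ v ∈ gaussV F n, φ (C c * X ^ n + v) = ∑ g ∈ monF F n, φ (C c * g) := by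
  have e : monF F n = (gaussV F n).map
      ⟨fun y : F[X] => X ^ n + y, fun _ _ h => add_left_cancel h⟩ := by
    rw [gaussV, Finset.map_map]; rfl
  have h1 : C c * C c⁻¹ = (1 : F[X]) := by rw [← C_mul, mul_inv_cancel₀ hc, C_1]
  rw [e, sum_map]
  refine sum_nbij' (C c⁻¹ * ·) (C c * ·) (fun _ h => gauss_Cmul _ h) (fun _ h => gauss_Cmul _ h)
    (fun x _ => by rw [← mul_assoc, h1, one_mul])
    (fun x _ => by rw [← mul_assoc, mul_comm (C c⁻¹), h1, one_mul]) fun x _ => ?_
  simp only [Function.Embedding.coeFn_mk]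
  rw [mul_add, ← mul_assoc, h1, one_mul]

variable (F) in
/-- A primitive additive character. -/
noncomputable def gaussE : AddChar F ℂ := AddChar.FiniteField.primitiveChar_to_Complex F

variable (F) in
/-- The quadratic Gauss sum of the constant field. -/
noncomputable def gaussG : ℂ := ∑ c : F, eta F c * gaussE F c

theorem gauss_prim : (gaussE F).IsPrimitive :=
  AddChar.FiniteField.primitiveChar_to_Complex_isPrimitive F

theorem gauss_exists : ∃ a : F, gaussE F a ≠ 1 := by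
  have := gauss_prim (F := F) one_ne_zero
  rw [AddChar.mulShift_one] at this
  exact AddChar.ne_one_iff.1 this

theorem gaussG_sq (hF : ringChar F ≠ 2) : gaussG F ^ 2 = eta F (-1) * Q F :=
  gaussSum_sq (χ := (quadraticChar F).ringHomComp (Int.castRingHom ℂ))
    ((MulChar.ringHomComp_ne_one_iff Int.cast_injective).2 (quadraticChar_ne_one hF))
    ((quadraticChar_isQuadratic F).comp _) gauss_prim

theorem gauss_sum_sq_const (hF : ringChar F ≠ 2) : ∑ c : F, gaussE F (c ^ 2) = gaussG F := by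
  have h0 : ∑ c : F, gaussE F c = 0 :=
    AddChar.sum_eq_zero_of_ne_one (AddChar.ne_one_iff.2 gauss_exists)
  rw [← sum_fiberwise_of_maps_to (t := univ) (g := fun c : F => c ^ 2) fun _ _ => mem_univ _,
    ← add_zero (gaussG F), ← h0, gaussG, ← sum_add_distrib]
  refine sum_congr rfl fun a _ => ?_
  rw [sum_congr rfl (g := fun _ => gaussE F a) fun c hc => by rw [(mem_filter.1 hc).2], sum_const,
    nsmul_eq_mul, ← add_one_mul]
  congr 1
  have := congrArg (Int.cast : ℤ → ℂ) (quadraticChar_card_sqrts hF a)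
  rw [Set.toFinset_ofPred] at this
  simpa [eta] using this

theorem gauss_eta_sq {c : F} (hc : c ≠ 0) : eta F c ^ 2 = 1 := by
  rw [eta, ← Int.cast_pow, quadraticChar_sq_one hc, Int.cast_one]

theorem gauss_eta_zero : eta F 0 = 0 := by simp [eta]

theorem gauss_eta_sum (hF : ringChar F ≠ 2) : ∑ c : F, eta F c = 0 := by
  simp only [eta]
  rw [← Int.cast_sum, quadraticChar_sum_zero hF, Int.cast_zero]

/-- The additive character modulo `D`. -/
noncomputable def gaussPsi (D x : F[X]) : ℂ := gaussE F ((x %ₘ D).coeff (D.natDegree - 1))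

theorem gauss_psi_add (D x y : F[X]) : gaussPsi D (x + y) = gaussPsi D x * gaussPsi D y := by
  rw [gaussPsi, add_modByMonic, coeff_add, AddChar.map_add_eq_mul, gaussPsi, gaussPsi]

theorem gauss_psi_congr {D x y : F[X]} (hD : D.Monic) (h : D ∣ x - y) :
    gaussPsi D x = gaussPsi D y := by
  rw [gaussPsi, gaussPsi, modByMonic_eq_of_dvd_sub hD h]

theorem gauss_psi_small {D x : F[X]} (hD : D.Monic) (hx : x ∈ gaussV F D.natDegree) :
    gaussPsi D x = gaussE F (x.coeff (D.natDegree - 1)) := by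
  rw [gaussPsi, (modByMonic_eq_self_iff hD).2
    ((gauss_mem.1 hx).trans_eq (degree_eq_natDegree hD.ne_zero).symm)]

theorem gauss_psi_one {D x : F[X]} (hD : D.Monic) (hx : x ∈ gaussV F (D.natDegree - 1)) :
    gaussPsi D x = 1 := by
  rw [gauss_psi_small hD (gauss_mono (Nat.sub_le _ _) hx),
    coeff_eq_zero_of_degree_lt (gauss_mem.1 hx), AddChar.map_zero_eq_one]

theorem gauss_mul_mem {n m k : ℕ} {x v : F[X]} (hx : x ∈ gaussV F n) (hv : v ∈ gaussV F m)
    (h : n + m ≤ k) : x * v ∈ gaussV F (k - 1) := by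
  rcases gauss_mem'.1 hx with rfl | h1
  · exact gauss_mem'.2 (Or.inl (zero_mul _))
  rcases gauss_mem'.1 hv with rfl | h2
  · exact gauss_mem'.2 (Or.inl (mul_zero _))
  exact gauss_mem'.2 (Or.inr (natDegree_mul_le.trans_lt (by omega)))

theorem gauss_orth {D x : F[X]} (hD : D.Monic) (hx : x ∈ gaussV F D.natDegree) {n : ℕ}
    (hn : n ≤ D.natDegree) : ∑ v ∈ gaussV F n, gaussPsi D (x * v) =
      if x ∈ gaussV F (D.natDegree - n) then (Q F : ℂ) ^ n else 0 := by
  split_ifs with h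
  · rw [sum_congr rfl fun v hv => gauss_psi_one hD (gauss_mul_mem h hv (by omega)), sum_const,
      gauss_card, nsmul_eq_mul, mul_one, Nat.cast_pow]
  · rw [gauss_mem', not_or, not_lt] at h
    have h1 := (gauss_mem'.1 hx).resolve_left h.1
    obtain ⟨a, ha⟩ := gauss_exists (F := F)
    obtain ⟨m, hm⟩ : ∃ m, D.natDegree = x.natDegree + m + 1 := ⟨D.natDegree - x.natDegree - 1, by omega⟩
    have hv : C (a / x.leadingCoeff) * X ^ m ∈ gaussV F n :=
      gauss_mem.2 ((degree_C_mul_X_pow_le m _).trans_lt (by exact_mod_cast (by omega : m < n)))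
    have h2 : gaussPsi D (x * (C (a / x.leadingCoeff) * X ^ m)) = gaussE F a := by
      have h3 : x ∈ gaussV F (x.natDegree + 1) := gauss_mem'.2 (Or.inr (Nat.lt_succ_self _))
      rw [gauss_psi_small hD (gauss_mono (by omega) (gauss_mul h3 (natDegree_C_mul_X_pow_le _ m))),
        hm, Nat.add_sub_cancel, ← mul_assoc, coeff_mul_X_pow, coeff_mul_C, coeff_natDegree,
        mul_div_cancel₀ _ (leadingCoeff_ne_zero.2 h.1)]
    have h4 := gauss_shift hv fun v => gaussPsi D (x * v)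
    simp only [mul_add, gauss_psi_add, h2, ← sum_mul] at h4
    exact by_contra fun h5 => ha ((mul_eq_left₀ h5).1 h4)

variable (F) in
/-- The value of the Gauss sum modulo a squarefree polynomial of degree `d`. -/
noncomputable def gaussTau (d : ℕ) : ℂ := (Q F : ℂ) ^ (d / 2) * gaussG F ^ (d % 2)

theorem gauss_tau_add (hF : ringChar F ≠ 2) (a b : ℕ) :
    eta F (-1) ^ (a * b) * (gaussTau F a * gaussTau F b) = gaussTau F (a + b) := by
  have h1 := eta_neg_one_sq (F := F)
  have h2 := gaussG_sq hF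
  have h3 : ∀ m, eta F (-1) ^ (2 * m) = 1 := fun m => by rw [pow_mul, h1, one_pow]
  unfold gaussTau
  obtain ⟨i, rfl | rfl⟩ := Nat.even_or_odd' a <;> obtain ⟨j, rfl | rfl⟩ := Nat.even_or_odd' b
  · rw [mul_assoc 2, h3, show (2 * i + 2 * j) / 2 = i + j by omega,
      show (2 * i + 2 * j) % 2 = 0 by omega, show 2 * i / 2 = i by omega,
      show 2 * j / 2 = j by omega, show 2 * i % 2 = 0 by omega, show 2 * j % 2 = 0 by omega]
    ring
  · rw [mul_assoc 2, h3, show (2 * i + (2 * j + 1)) / 2 = i + j by omega,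
      show (2 * i + (2 * j + 1)) % 2 = 1 by omega, show 2 * i / 2 = i by omega,
      show (2 * j + 1) / 2 = j by omega, show 2 * i % 2 = 0 by omega,
      show (2 * j + 1) % 2 = 1 by omega]
    ring
  · rw [mul_comm (2 * i + 1), mul_assoc 2, h3, show (2 * i + 1 + 2 * j) / 2 = i + j by omega,
      show (2 * i + 1 + 2 * j) % 2 = 1 by omega, show (2 * i + 1) / 2 = i by omega,
      show 2 * j / 2 = j by omega, show (2 * i + 1) % 2 = 1 by omega, show 2 * j % 2 = 0 by omega]
    ring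
  · rw [show (2 * i + 1) * (2 * j + 1) = 2 * (2 * i * j + i + j) + 1 by ring, pow_succ, h3,
      show (2 * i + 1 + (2 * j + 1)) / 2 = i + j + 1 by omega,
      show (2 * i + 1 + (2 * j + 1)) % 2 = 0 by omega, show (2 * i + 1) / 2 = i by omega,
      show (2 * j + 1) / 2 = j by omega, show (2 * i + 1) % 2 = 1 by omega,
      show (2 * j + 1) % 2 = 1 by omega]
    linear_combination (eta F (-1) * (Q F : ℂ) ^ (i + j)) * h2 + (Q F : ℂ) ^ (i + j + 1) * h1

theorem gauss_two_ne (hF : ringChar F ≠ 2) : (2 : F) ≠ 0 := Ring.two_ne_zero hF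

theorem gauss_sum_psi_sq (hF : ringChar F ≠ 2) {D : F[X]} (hD : D.Monic) :
    ∑ y ∈ gaussV F D.natDegree, gaussPsi D (y ^ 2) = gaussTau F D.natDegree := by
  have hq : (Q F : ℂ) ^ (D.natDegree / 2) ≠ 0 := pow_ne_zero _ Q_ne
  have h1 : ∑ y ∈ gaussV F D.natDegree, gaussPsi D (y ^ 2) =
      ∑ y ∈ gaussV F (D.natDegree - D.natDegree / 2), gaussPsi D (y ^ 2) := by
    refine mul_left_cancel₀ hq ?_
    calc _ = ∑ v ∈ gaussV F (D.natDegree / 2), ∑ y ∈ gaussV F D.natDegree,
          gaussPsi D ((y + v) ^ 2) := by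
          rw [sum_congr rfl fun v hv => gauss_shift (gauss_mono (Nat.div_le_self _ _) hv)
            fun y => gaussPsi D (y ^ 2), sum_const, gauss_card, nsmul_eq_mul, Nat.cast_pow]
      _ = ∑ y ∈ gaussV F D.natDegree, gaussPsi D (y ^ 2) *
          ∑ v ∈ gaussV F (D.natDegree / 2), gaussPsi D (C 2 * y * v) := by
          rw [sum_comm]
          refine sum_congr rfl fun y _ => ?_
          rw [mul_sum]
          refine sum_congr rfl fun v hv => ?_
          rw [show (y + v) ^ 2 = y ^ 2 + C 2 * y * v + v * v by rw [map_ofNat]; ring,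
            gauss_psi_add, gauss_psi_add, gauss_psi_one hD (gauss_mul_mem hv hv (by omega)),
            mul_one]
      _ = ∑ y ∈ gaussV F D.natDegree, if y ∈ gaussV F (D.natDegree - D.natDegree / 2) then
          (Q F : ℂ) ^ (D.natDegree / 2) * gaussPsi D (y ^ 2) else 0 := by
          refine sum_congr rfl fun y hy => ?_
          rw [gauss_orth hD (gauss_Cmul _ hy) (Nat.div_le_self _ _)]
          simp only [gauss_mem, degree_C_mul (gauss_two_ne hF)]
          split_ifs
          · exact mul_comm _ _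
          · exact mul_zero _
      _ = _ := by
          rw [sum_ite_mem, inter_eq_right.2 (gauss_mono (Nat.sub_le _ _)), mul_sum]
  rw [h1, gaussTau]
  obtain ⟨k, hk | hk⟩ := Nat.even_or_odd' D.natDegree
  · rw [sum_congr rfl fun y hy => by
      rw [pow_two, gauss_psi_one hD (gauss_mul_mem hy hy (by omega))], sum_const, gauss_card, hk,
      show 2 * k - 2 * k / 2 = k by omega, show 2 * k / 2 = k by omega,
      show 2 * k % 2 = 0 by omega]
    simp
  · rw [show D.natDegree - D.natDegree / 2 = k + 1 by omega, show D.natDegree / 2 = k by omega,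
      show D.natDegree % 2 = 1 by omega, pow_one, ← gauss_sum_sq_const hF, mul_sum,
      sum_congr rfl (g := fun y => gaussE F (y.coeff k ^ 2)) fun y hy => ?_, gauss_sum_succ]
    · refine sum_congr rfl fun c _ => ?_
      rw [sum_congr rfl fun v hv => by rw [gauss_coeff hv], sum_const, gauss_card, nsmul_eq_mul,
        Nat.cast_pow]
    · have h2 : y.natDegree ≤ k := by
        rcases gauss_mem'.1 hy with rfl | h
        · simp
        · omega
      rw [pow_two, gauss_psi_small hD (gauss_mono (by omega) (gauss_mul hy h2)),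
        show D.natDegree - 1 = k + k by omega, coeff_mul_add_eq_of_natDegree_le h2 h2, pow_two]

theorem gauss_count (hF : ringChar F ≠ 2) {P : F[X]} (hm : P.Monic) (hi : Irreducible P)
    (x : F[X]) :
    (((gaussV F P.natDegree).filter fun y => P ∣ y ^ 2 - x).card : ℂ) = 1 + jac x P := by
  rw [jac_prime x hm hi, leg]
  split_ifs with h1 h2
  · have : ((gaussV F P.natDegree).filter fun y => P ∣ y ^ 2 - x) = {0} := by
      ext y
      rw [mem_filter, mem_singleton]
      refine ⟨fun h => gauss_eq_zero h.1 (hi.prime.dvd_of_dvd_pow (n := 2) ?_), fun h => ?_⟩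
      · simpa using dvd_add h.2 h1
      · rw [h]; exact ⟨gauss_mem'.2 (Or.inl rfl), by simpa using h1⟩
    rw [this]; simp
  · obtain ⟨z, hz⟩ := h2
    have h3 := gauss_mod hm z
    have h4 : P ∣ (z %ₘ P) ^ 2 - x := by
      obtain ⟨t, ht⟩ := dvd_modByMonic_sub z P
      obtain ⟨u, hu⟩ := hz
      exact ⟨u + t * (z %ₘ P + z), by linear_combination hu + (z %ₘ P + z) * ht⟩
    generalize z %ₘ P = w at h3 h4
    have : ((gaussV F P.natDegree).filter fun y => P ∣ y ^ 2 - x) = {w, -w} := by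
      ext y
      rw [mem_filter, mem_insert, mem_singleton]
      refine ⟨fun h => ?_, ?_⟩
      · have h5 : P ∣ (y - w) * (y + w) := by
          rw [show (y - w) * (y + w) = y ^ 2 - x - (w ^ 2 - x) by ring]
          exact dvd_sub h.2 h4
        exact (hi.prime.dvd_or_dvd h5).imp
          (fun h6 => sub_eq_zero.1 (gauss_eq_zero (gauss_sub h.1 h3) h6))
          fun h6 => eq_neg_of_add_eq_zero_left (gauss_eq_zero (gauss_add h.1 h3) h6)
      · rintro (rfl | rfl)
        · exact ⟨h3, h4⟩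
        · exact ⟨gauss_neg h3, by rwa [neg_sq]⟩
    rw [this, card_pair]
    · norm_num
    · intro h
      have h5 : C (2 : F) * w = 0 := by rw [map_ofNat]; linear_combination h
      rw [(mul_eq_zero.1 h5).resolve_left (C_ne_zero.2 (gauss_two_ne hF))] at h4
      exact h1 (by simpa using h4)
  · rw [filter_eq_empty_iff.2 fun y _ h => h2 ⟨y, h⟩]
    simp

theorem gauss_sum_sq (hF : ringChar F ≠ 2) {P : F[X]} (hm : P.Monic) (hi : Irreducible P)
    {φ : F[X] → ℂ} (hφ : ∀ x y, P ∣ x - y → φ x = φ y) :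
    ∑ y ∈ gaussV F P.natDegree, φ (y ^ 2) =
      ∑ x ∈ gaussV F P.natDegree, φ x + ∑ x ∈ gaussV F P.natDegree, jac x P * φ x := by
  rw [← sum_fiberwise_of_maps_to (t := gaussV F P.natDegree) (g := fun y => y ^ 2 %ₘ P)
    fun y _ => gauss_mod hm _, ← sum_add_distrib]
  refine sum_congr rfl fun x hx => ?_
  have : ∀ y : F[X], y ^ 2 %ₘ P = x ↔ P ∣ y ^ 2 - x := fun y =>
    ⟨fun h => by rw [← h, ← neg_sub, dvd_neg]; exact dvd_modByMonic_sub _ _, fun h => by
      rw [modByMonic_eq_of_dvd_sub hm h, (modByMonic_eq_self_iff hm).2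
        ((gauss_mem.1 hx).trans_eq (degree_eq_natDegree hm.ne_zero).symm)]⟩
  simp only [this]
  rw [sum_congr rfl (g := fun _ => φ x) fun y hy => hφ _ _ (mem_filter.1 hy).2, sum_const,
    nsmul_eq_mul, gauss_count hF hm hi]
  ring

/-- The Gauss sum modulo `D`. -/
noncomputable def gaussS (D f : F[X]) : ℂ :=
  ∑ x ∈ gaussV F D.natDegree, jac x D * gaussPsi D (x * f)

theorem gauss_prime (hF : ringChar F ≠ 2) {P : F[X]} (hm : P.Monic) (hi : Irreducible P)
    (f : F[X]) : gaussS P f = jac f P * gaussTau F P.natDegree := by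
  have h0 := hi.natDegree_pos
  have hsq := jac_sq_prime f hm hi
  by_cases hf : P ∣ f
  · rw [if_pos hf] at hsq
    have h1 := gauss_sum_sq hF hm hi (φ := fun _ => 1) fun _ _ _ => rfl
    rw [pow_eq_zero_iff two_ne_zero |>.1 hsq, zero_mul, gaussS, left_eq_add.1 h1 |>.symm]
    refine sum_congr rfl fun x _ => ?_
    rw [gauss_psi_congr (y := 0) hm (by simpa using hf.mul_left x),
      gauss_psi_one hm (gauss_mem'.2 (Or.inl rfl))]
  rw [if_neg hf] at hsq
  have h1 := gauss_sum_sq hF hm hi (φ := gaussPsi P) fun _ _ h => gauss_psi_congr hm h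
  have h2 := gauss_orth hm (x := 1) (gauss_mem'.2 (Or.inr (by simpa using h0))) le_rfl
  rw [if_neg (by simp [gauss_V_zero])] at h2
  simp only [one_mul] at h2
  rw [gauss_sum_psi_sq hF hm, h2, zero_add] at h1
  have hinj : Set.InjOn (fun x => x * f %ₘ P) (gaussV F P.natDegree) := fun x hx y hy h => by
    have h3 : P ∣ (x - y) * f := by
      have h4 := dvd_sub (dvd_modByMonic_sub (y * f) P) (dvd_modByMonic_sub (x * f) P)
      rw [show x * f %ₘ P = y * f %ₘ P from h] at h4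
      convert h4 using 1; ring
    exact sub_eq_zero.1 (gauss_eq_zero (gauss_sub hx hy) ((hi.prime.dvd_or_dvd h3).resolve_right hf))
  have him : (gaussV F P.natDegree).image (fun x => x * f %ₘ P) = gaussV F P.natDegree :=
    eq_of_subset_of_card_le (image_subset_iff.2 fun x _ => gauss_mod hm _)
      (card_image_of_injOn hinj).ge
  rw [h1, ← him, sum_image hinj, gaussS, mul_sum]
  refine sum_congr rfl fun x _ => ?_
  rw [jac_congr hm (dvd_modByMonic_sub _ _), gauss_psi_congr hm (dvd_modByMonic_sub _ _),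
    jac_mul_left hF _ _ hm]
  linear_combination (-(jac x P * gaussPsi P (x * f))) * hsq

theorem gauss_psi_mul {A B : F[X]} (hA : A.Monic) (hB : B.Monic) (h0 : 0 < A.natDegree)
    (x : F[X]) : gaussPsi (A * B) (x * B) = gaussPsi A x := by
  have h1 := gauss_mod hA x
  have h2 : (x %ₘ A).natDegree ≤ A.natDegree - 1 := by
    rcases gauss_mem'.1 h1 with h | h
    · rw [h]; simp
    · omega
  rw [gauss_psi_congr (y := x %ₘ A * B) (hA.mul hB) (by
      rw [← sub_mul, ← neg_sub, neg_mul, dvd_neg]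
      exact mul_dvd_mul_right (dvd_modByMonic_sub _ _) B),
    gauss_psi_small (hA.mul hB) (by rw [hA.natDegree_mul hB]; exact gauss_mul h1 le_rfl),
    hA.natDegree_mul hB, show A.natDegree + B.natDegree - 1 = A.natDegree - 1 + B.natDegree by omega,
    coeff_mul_add_eq_of_natDegree_le h2 le_rfl, hB.coeff_natDegree, mul_one, gaussPsi]

theorem gauss_prod (hF : ringChar F ≠ 2) {A B : F[X]} (hA : A.Monic) (hB : B.Monic)
    (h0 : 0 < A.natDegree) (h1 : 0 < B.natDegree) (hc : IsCoprime A B) (f : F[X]) :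
    gaussS (A * B) f = jac B A * jac A B * (gaussS A f * gaussS B f) := by
  have hinj : Set.InjOn (fun p : F[X] × F[X] => p.1 * B + p.2 * A)
      (gaussV F A.natDegree ×ˢ gaussV F B.natDegree : Finset _) := fun p hp r hr h => by
    obtain ⟨h2, h3⟩ := mem_product.1 (mem_coe.1 hp)
    obtain ⟨h4, h5⟩ := mem_product.1 (mem_coe.1 hr)
    have h6 : p.1 * B + p.2 * A = r.1 * B + r.2 * A := h
    exact Prod.ext
      (sub_eq_zero.1 (gauss_eq_zero (gauss_sub h2 h4) (hc.dvd_of_dvd_mul_right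
        ⟨r.2 - p.2, by linear_combination h6⟩)))
      (sub_eq_zero.1 (gauss_eq_zero (gauss_sub h3 h5) (hc.symm.dvd_of_dvd_mul_right
        ⟨r.1 - p.1, by linear_combination h6⟩)))
  have him : (gaussV F A.natDegree ×ˢ gaussV F B.natDegree).image
      (fun p : F[X] × F[X] => p.1 * B + p.2 * A) = gaussV F (A * B).natDegree := by
    rw [hA.natDegree_mul hB]
    refine eq_of_subset_of_card_le (image_subset_iff.2 fun p hp => gauss_add
      (gauss_mul (mem_product.1 hp).1 le_rfl)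
      (add_comm B.natDegree _ ▸ gauss_mul (mem_product.1 hp).2 le_rfl)) ?_
    rw [card_image_of_injOn hinj, card_product, gauss_card, gauss_card, gauss_card, pow_add]
  rw [gaussS, ← him, sum_image hinj, sum_product, gaussS, gaussS, sum_mul_sum, mul_sum]
  refine sum_congr rfl fun x _ => ?_
  rw [mul_sum]
  refine sum_congr rfl fun y _ => ?_
  rw [(jac_cm _).mul _ _ hA hB, jac_congr (E := x * B) hA ⟨y, by ring⟩,
    jac_congr (D := x * B + y * A) (E := y * A) hB ⟨x, by ring⟩, jac_mul_left hF _ _ hA,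
    jac_mul_left hF _ _ hB, show (x * B + y * A) * f = x * f * B + y * f * A by ring,
    gauss_psi_add, gauss_psi_mul hA hB h0, mul_comm A B, gauss_psi_mul hB hA h1]
  ring

theorem gauss_eval (hF : ringChar F ≠ 2) {D : F[X]} (hD : D.Monic) (hs : Squarefree D)
    (h0 : 0 < D.natDegree) (f : F[X]) : gaussS D f = jac f D * gaussTau F D.natDegree := by
  induction hn : D.natDegree using Nat.strong_induction_on generalizing D with
  | _ n ih =>
    obtain ⟨P, h1, h2, B, rfl⟩ := exists_monic_irreducible_factor D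
      (not_isUnit_of_natDegree_pos D h0)
    have hB : B.Monic := h1.of_mul_monic_left hD
    rcases Nat.eq_zero_or_pos B.natDegree with h3 | h3
    · obtain rfl := hB.natDegree_eq_zero.1 h3
      rw [mul_one] at hn ⊢
      rw [← hn, gauss_prime hF h1 h2]
    have h4 : ¬ P ∣ B := fun h => h2.not_isUnit (hs P (mul_dvd_mul_left P h))
    have h5 := h2.natDegree_pos
    have h6 := jac_sq_prime B h1 h2
    rw [if_neg h4] at h6
    rw [h1.natDegree_mul hB] at hn
    rw [gauss_prod hF h1 hB h5 h3 (h2.coprime_iff_not_dvd.2 h4), gauss_prime hF h1 h2,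
      ih B.natDegree (by omega) hB hs.of_mul_right h3 rfl, (jac_cm f).mul _ _ h1 hB,
      jac_recip hF h1 hB, ← hn, ← gauss_tau_add hF]
    linear_combination (eta F (-1) ^ (P.natDegree * B.natDegree) * (jac f P * jac f B) *
      (gaussTau F P.natDegree * gaussTau F B.natDegree)) * h6

theorem gauss_jac_zero {D : F[X]} (hD : D.Monic) (h0 : 0 < D.natDegree) : jac 0 D = 0 := by
  obtain ⟨P, h1, h2, B, rfl⟩ := exists_monic_irreducible_factor D
    (not_isUnit_of_natDegree_pos D h0)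
  rw [(jac_cm 0).mul _ _ h1 (h1.of_mul_monic_left hD), jac_prime 0 h1 h2, leg,
    if_pos (dvd_zero P), zero_mul]

theorem gauss_fiber (hF : ringChar F ≠ 2) {D : F[X]} (hD : D.Monic) {c : F} (hc : c ≠ 0) (n : ℕ) :
    ∑ v ∈ gaussV F n, jac (C c * X ^ n + v) D =
      eta F c ^ D.natDegree * AA (fun f => jac f D) n := by
  rw [gauss_sum_mon hc n fun f => jac f D, AA, mul_sum]
  exact sum_congr rfl fun g _ => by rw [jac_mul_left hF _ _ hD, jac_C hF _ hD]

theorem gauss_sum_V (hF : ringChar F ≠ 2) {D : F[X]} (hD : D.Monic) (h0 : 0 < D.natDegree)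
    (n : ℕ) : ∑ v ∈ gaussV F n, jac v D =
      (∑ c : F, eta F c ^ D.natDegree) * ∑ j ∈ range n, AA (fun f => jac f D) j := by
  induction n with
  | zero => simp [gauss_V_zero, gauss_jac_zero hD h0]
  | succ n ih =>
    rw [gauss_sum_succ, sum_range_succ, mul_add, ← ih, ← add_sum_erase _ _ (mem_univ 0),
      ← add_sum_erase _ _ (mem_univ (0 : F)), gauss_eta_zero, zero_pow h0.ne', zero_add, sum_mul,
      sum_congr rfl fun c hc => gauss_fiber hF hD (ne_of_mem_erase hc) n]
    simp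

theorem gauss_dual (hF : ringChar F ≠ 2) {D : F[X]} (hD : D.Monic) (hs : Squarefree D)
    (h0 : 0 < D.natDegree) {n : ℕ} (hn : n ≤ D.natDegree) {a : F[X]}
    (ha : a ∈ gaussV F D.natDegree) :
    gaussTau F D.natDegree * ∑ f ∈ gaussV F n, jac f D * gaussPsi D (a * f) =
      (Q F : ℂ) ^ n * ∑ x ∈ gaussV F (D.natDegree - n), jac (x - a) D := by
  calc _ = ∑ f ∈ gaussV F n, ∑ x ∈ gaussV F D.natDegree,
        jac x D * gaussPsi D ((x + a) * f) := by
        rw [mul_sum]
        refine sum_congr rfl fun f _ => ?_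
        rw [← mul_assoc, mul_comm (gaussTau F _), ← gauss_eval hF hD hs h0, gaussS, sum_mul]
        exact sum_congr rfl fun x _ => by rw [add_mul, gauss_psi_add, mul_assoc]
    _ = ∑ x ∈ gaussV F D.natDegree, jac (x + a - a) D *
        if x + a ∈ gaussV F (D.natDegree - n) then (Q F : ℂ) ^ n else 0 := by
        rw [sum_comm]
        exact sum_congr rfl fun x hx => by
          rw [← mul_sum, gauss_orth hD (gauss_add hx ha) hn, add_sub_cancel_right]
    _ = _ := by
        rw [gauss_shift ha fun x => jac (x - a) D *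
          if x ∈ gaussV F (D.natDegree - n) then (Q F : ℂ) ^ n else 0]
        simp only [mul_ite, mul_zero]
        rw [sum_ite_mem, inter_eq_right.2 (gauss_mono (Nat.sub_le _ _)), mul_comm, sum_mul]

theorem AA_vanish (hF : ringChar F ≠ 2) {D : F[X]} (hD : D.Monic) (hs : Squarefree D)
    (h0 : 0 < D.natDegree) {n : ℕ} (hn : D.natDegree ≤ n) : AA (fun f => jac f D) n = 0 := by
  have h1 : ∑ x ∈ gaussV F D.natDegree, jac x D = 0 := by
    have := gauss_eval hF hD hs h0 0
    rw [gauss_jac_zero hD h0, zero_mul, gaussS] at this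
    rw [← this]
    exact sum_congr rfl fun x _ => by
      rw [mul_zero, gauss_psi_one hD (gauss_mem'.2 (Or.inl rfl)), mul_one]
  have h2 : ∀ f : F[X], ∑ v ∈ gaussV F D.natDegree, jac (f + v) D = 0 := fun f => by
    rw [← h1, ← gauss_shift (gauss_mod hD f) fun x => jac x D]
    refine sum_congr rfl fun v _ => jac_congr hD ?_
    rw [show f + v - (v + f %ₘ D) = -(f %ₘ D - f) by ring, dvd_neg]
    exact dvd_modByMonic_sub _ _
  have h3 := gauss_fiber hF hD one_ne_zero n
  have h4 : eta F 1 = 1 := by simp [eta]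
  rw [h4, one_pow, one_mul] at h3
  refine mul_left_cancel₀ (pow_ne_zero D.natDegree (Q_ne (F := F))) ?_
  rw [mul_zero, ← h3, ← Nat.cast_pow, ← gauss_card, ← nsmul_eq_mul, ← sum_const,
    sum_congr rfl fun v hv => (gauss_shift (gauss_mono hn hv)
      fun x => jac (C 1 * X ^ n + x) D).symm, sum_comm]
  refine sum_eq_zero fun x _ => ?_
  rw [← h2 (C 1 * X ^ n + x)]
  exact sum_congr rfl fun v _ => by rw [add_assoc]

theorem fe_odd (hF : ringChar F ≠ 2) {D : F[X]} (hD : D.Monic) (hs : Squarefree D) {k n : ℕ}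
    (hd : D.natDegree = 2 * k + 1) (hn : n ≤ 2 * k) :
    (Q F : ℂ) ^ k * AA (fun f => jac f D) n =
      (Q F : ℂ) ^ n * AA (fun f => jac f D) (2 * k - n) := by
  have h0 : 0 < D.natDegree := by omega
  have hodd : ∀ c : F, eta F c ^ D.natDegree = eta F c := fun c => by
    by_cases hc : c = 0
    · rw [hc, gauss_eta_zero, zero_pow h0.ne']
    · rw [hd, pow_succ, pow_mul, gauss_eta_sq hc, one_pow, one_mul]
  obtain ⟨m, hm⟩ : ∃ m, 2 * k = n + m := ⟨2 * k - n, by omega⟩
  have hX : (X ^ m : F[X]) ∈ gaussV F D.natDegree :=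
    gauss_mem'.2 (Or.inr (by rw [natDegree_X_pow]; omega))
  have h1 := gauss_dual hF hD hs h0 (n := n + 1) (by omega) hX
  have h2 : ∑ f ∈ gaussV F (n + 1), jac f D * gaussPsi D (X ^ m * f) =
      gaussG F * AA (fun f => jac f D) n := by
    rw [sum_congr rfl (g := fun f => jac f D * gaussE F (f.coeff n)) fun f hf => by
      rw [mul_comm (X ^ m), gauss_psi_small hD (gauss_mono (by omega)
        (gauss_mul hf (natDegree_X_pow_le m))), show D.natDegree - 1 = n + m by omega,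
        coeff_mul_X_pow], gauss_sum_succ, gaussG, sum_mul]
    refine sum_congr rfl fun c _ => ?_
    rw [sum_congr rfl fun v hv => by rw [gauss_coeff hv], ← sum_mul]
    by_cases hc : c = 0
    · simp only [hc, map_zero, zero_mul, zero_add, gauss_sum_V hF hD h0, hodd, gauss_eta_sum hF,
        gauss_eta_zero]
    · rw [gauss_fiber hF hD hc, hodd]; ring
  have h3 : ∑ x ∈ gaussV F m, jac (x - X ^ m) D = eta F (-1) * AA (fun f => jac f D) m := by
    rw [← hodd, ← gauss_fiber hF hD (neg_ne_zero.2 one_ne_zero)]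
    exact sum_congr rfl fun x _ => by rw [C_neg, C_1, neg_one_mul, neg_add_eq_sub]
  rw [h2, show D.natDegree - (n + 1) = m by omega, h3, gaussTau,
    show D.natDegree / 2 = k by omega, show D.natDegree % 2 = 1 by omega] at h1
  rw [show 2 * k - n = m by omega]
  refine mul_left_cancel₀ (Q_ne (F := F)) ?_
  linear_combination eta F (-1) * h1 -
    (eta F (-1) * (Q F : ℂ) ^ k * AA (fun f => jac f D) n) * gaussG_sq hF +
    ((Q F : ℂ) ^ (n + 1) * AA (fun f => jac f D) m -
      (Q F : ℂ) ^ (k + 1) * AA (fun f => jac f D) n) * eta_neg_one_sq (F := F)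

theorem fe_even (hF : ringChar F ≠ 2) {D : F[X]} (hD : D.Monic) (hs : Squarefree D) {k n : ℕ}
    (hd : D.natDegree = 2 * k) (hk : 0 < k) (hn : n ≤ 2 * k) :
    (Q F : ℂ) ^ k * ∑ j ∈ range n, AA (fun f => jac f D) j =
      (Q F : ℂ) ^ n * ∑ j ∈ range (2 * k - n), AA (fun f => jac f D) j := by
  have h0 : 0 < D.natDegree := by omega
  have h1 := gauss_dual hF hD hs h0 (n := n) (by omega) (a := 0) (gauss_mem'.2 (Or.inl rfl))
  have h2 : ∑ c : F, eta F c ^ D.natDegree = Q F - 1 := by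
    rw [← add_sum_erase _ _ (mem_univ (0 : F)), gauss_eta_zero, zero_pow h0.ne', zero_add,
      sum_congr rfl (g := fun _ => 1) fun c hc => by
        rw [hd, pow_mul, gauss_eta_sq (ne_of_mem_erase hc), one_pow],
      sum_const, card_erase_of_mem (mem_univ _), card_univ, nsmul_eq_mul, mul_one,
      Nat.cast_pred Fintype.card_pos]
  have h3 : (Q F : ℂ) - 1 ≠ 0 := sub_ne_zero.2 (by exact_mod_cast Fintype.one_lt_card.ne')
  simp only [zero_mul, gauss_psi_one hD (gauss_mem'.2 (Or.inl rfl)), mul_one, sub_zero,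
    gauss_sum_V hF hD h0, h2] at h1
  rw [gaussTau, hd, show 2 * k / 2 = k by omega, show 2 * k % 2 = 0 by omega] at h1
  refine mul_left_cancel₀ h3 ?_
  linear_combination h1

end Pool.Agent.MP_dd7250_nt

end

section

/- Truncated Euler products. -/

set_option autoImplicit false

namespace Pool.Agent.MP_dd7250_nt

open Polynomial Finset Pool.Agent.MP_d232b3_nt
open scoped Classical

variable {F : Type*} [Field F] [Fintype F]
variable {A : Type*} [CommRing A] [Algebra ℂ A]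

/-- The sum over monic polynomials of degree at most `M`. -/
noncomputable def eulerT (χ : F[X] → ℂ) (M : ℕ) (z : A) : A :=
  ∑ f ∈ monLe F M, algebraMap ℂ A (χ f) * z ^ f.natDegree

/-- The restriction of `χ` to polynomials prime to the elements of `S`. -/
noncomputable def eulerR (χ : F[X] → ℂ) (S : Finset F[X]) (f : F[X]) : ℂ :=
  if ∀ P ∈ S, ¬ P ∣ f then χ f else 0

omit [Algebra ℂ A] in
theorem euler_pow_zero {M n : ℕ} {z : A} (hz : z ^ (M + 1) = 0) (hn : M < n) : z ^ n = 0 :=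
  pow_eq_zero_of_le hn hz

theorem euler_Lt (χ : F[X] → ℂ) {M I : ℕ} (hI : M ≤ I) {z : A} (hz : z ^ (M + 1) = 0) :
    Lt χ I z = eulerT χ M z := by
  rw [eulerT, sum_monLe, Lt]
  symm
  refine sum_subset_zero_on_sdiff (range_subset_range.2 (by omega)) (fun n hn => ?_) fun n _ => ?_
  · rw [mem_sdiff, mem_range, mem_range] at hn
    rw [euler_pow_zero hz (by omega), mul_zero]
  · rw [AA, map_sum, sum_mul]
    exact sum_congr rfl fun f hf => by rw [(mem_monF.1 hf).2]

theorem euler_dvd {χ : F[X] → ℂ} (h : CM χ) {M : ℕ} {z : A} (hz : z ^ (M + 1) = 0) {c : F[X]}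
    (hc : c.Monic) :
    eulerT χ M z * (algebraMap ℂ A (χ c) * z ^ c.natDegree) =
      ∑ f ∈ monLe F M with c ∣ f, algebraMap ℂ A (χ f) * z ^ f.natDegree := by
  rw [eulerT, sum_mul, ← sum_filter_of_ne (p := fun g => c.natDegree + g.natDegree ≤ M)]
  · refine sum_nbij (fun g => c * g) ?_ ?_ ?_ ?_
    · intro g hg
      rw [mem_filter, mem_monLe] at hg
      rw [mem_filter, mem_monLe, hc.natDegree_mul hg.1.1]
      exact ⟨⟨hc.mul hg.1.1, hg.2⟩, dvd_mul_right _ _⟩
    · intro a _ b _ hab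
      exact mul_left_cancel₀ hc.ne_zero hab
    · intro f hf
      rw [mem_coe, mem_filter, mem_monLe] at hf
      obtain ⟨⟨h1, h2⟩, g, rfl⟩ := hf
      have hg := hc.of_mul_monic_left h1
      rw [hc.natDegree_mul hg] at h2
      refine ⟨g, ?_, rfl⟩
      rw [mem_coe, mem_filter, mem_monLe]
      exact ⟨⟨hg, by omega⟩, h2⟩
    · intro g hg
      rw [mem_filter, mem_monLe] at hg
      rw [h.mul _ _ hc hg.1.1, hc.natDegree_mul hg.1.1, map_mul, pow_add]
      ring
  · intro g _ hne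
    by_contra hlt
    apply hne
    have h0 : z ^ (c.natDegree + g.natDegree) = 0 := euler_pow_zero hz (by omega)
    rw [pow_add] at h0
    linear_combination (algebraMap ℂ A (χ g) * algebraMap ℂ A (χ c)) * h0

omit [Fintype F] in
theorem euler_cm {χ : F[X] → ℂ} (h : CM χ) {S : Finset F[X]} (hS : ∀ P ∈ S, Irreducible P) :
    CM (eulerR χ S) := by
  refine ⟨?_, fun f g hf hg => ?_⟩
  · rw [eulerR, if_pos fun P hP => (hS P hP).not_dvd_one, h.one]
  · unfold eulerR
    by_cases h1 : ∀ P ∈ S, ¬ P ∣ f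
    · by_cases h2 : ∀ P ∈ S, ¬ P ∣ g
      · rw [if_pos h1, if_pos h2, if_pos, h.mul _ _ hf hg]
        intro P hP hd
        rcases (hS P hP).prime.dvd_or_dvd hd with h3 | h3
        exacts [h1 P hP h3, h2 P hP h3]
      · rw [if_neg h2, mul_zero, if_neg]
        exact fun h3 => h2 fun P hP hd => h3 P hP (hd.mul_left f)
    · rw [if_neg h1, zero_mul, if_neg]
      exact fun h3 => h1 fun P hP hd => h3 P hP (hd.mul_right g)

omit [Fintype F] in
theorem euler_eq_of_dvd {P R : F[X]} (hP : P.Monic) (hR : R.Monic) (iP : Irreducible P)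
    (iR : Irreducible R) (h : P ∣ R) : P = R :=
  eq_of_monic_of_associated hP hR (iP.associated_of_dvd iR h)

theorem euler_sift {χ : F[X] → ℂ} (h : CM χ) {M : ℕ} {z : A} (hz : z ^ (M + 1) = 0)
    (S : Finset F[X]) (hS : ∀ P ∈ S, P.Monic ∧ Irreducible P) :
    eulerT χ M z * ∏ P ∈ S, (1 - algebraMap ℂ A (χ P) * z ^ P.natDegree) =
      eulerT (eulerR χ S) M z := by
  induction S using Finset.induction_on with
  | empty => simp [eulerT, eulerR]
  | insert P S hP ih =>
    have hS' : ∀ R ∈ S, R.Monic ∧ Irreducible R := fun R hR => hS R (mem_insert_of_mem hR)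
    have hP' := hS P (mem_insert_self _ _)
    have h1 : eulerR χ S P = χ P := by
      rw [eulerR, if_pos]
      intro R hR hd
      exact hP (euler_eq_of_dvd (hS' R hR).1 hP'.1 (hS' R hR).2 hP'.2 hd ▸ hR)
    rw [prod_insert hP, mul_comm (1 - _), ← mul_assoc, ih hS', mul_sub, mul_one, ← h1,
      euler_dvd (euler_cm h fun R hR => (hS' R hR).2) hz hP'.1, sum_filter, eulerT, eulerT,
      ← sum_sub_distrib]
    refine sum_congr rfl fun f _ => ?_
    by_cases hd : P ∣ f
    · rw [if_pos hd, sub_self, eulerR, if_neg fun h3 => h3 P (mem_insert_self _ _) hd, map_zero,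
        zero_mul]
    · rw [if_neg hd, sub_zero, eulerR, eulerR]
      simp only [forall_mem_insert, hd, not_false_eq_true, true_and]

theorem euler_AA_zero {χ : F[X] → ℂ} (h : CM χ) : AA χ 0 = 1 := by
  have : monF F 0 = {1} := by
    ext f
    rw [mem_monF, mem_singleton]
    exact ⟨fun ⟨h1, h2⟩ => h1.natDegree_eq_zero.1 h2, fun h => by simp [h]⟩
  rw [AA, this, sum_singleton, h.one]

theorem euler_trunc (φ : PowerSeries ℂ) (I : ℕ) (z : A) :
    aeval z (PowerSeries.trunc (I + 1) φ) =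
      ∑ n ∈ range (I + 1), algebraMap ℂ A (PowerSeries.coeff n φ) * z ^ n := by
  rw [aeval_def, PowerSeries.eval₂_trunc_eq_sum_range]

theorem euler_Lt_Li {χ : F[X] → ℂ} (h : CM χ) {I : ℕ} {z : A} (hz : z ^ (I + 1) = 0) :
    Lt χ I z * Li χ I z = 1 := by
  set φ := PowerSeries.mk (AA χ) with hφ
  have h1 : Lt χ I z = aeval z (PowerSeries.trunc (I + 1) φ) := by
    rw [euler_trunc, Lt]
    simp only [hφ, PowerSeries.coeff_mk]
  have h2 : Li χ I z = aeval z (PowerSeries.trunc (I + 1) φ⁻¹) := by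
    rw [euler_trunc, Li]
    rfl
  have h3 : φ * φ⁻¹ = 1 := PowerSeries.mul_inv_cancel _ (by
    rw [← PowerSeries.coeff_zero_eq_constantCoeff_apply, hφ, PowerSeries.coeff_mk,
      euler_AA_zero h]
    exact one_ne_zero)
  have h4 : (X : ℂ[X]) ^ (I + 1) ∣
      PowerSeries.trunc (I + 1) φ * PowerSeries.trunc (I + 1) φ⁻¹ - 1 := by
    rw [X_pow_dvd_iff]
    intro d hd
    rw [coeff_sub, ← Polynomial.coeff_coe, Polynomial.coe_mul,
      ← PowerSeries.coeff_mul_eq_coeff_trunc_mul_trunc _ _ hd, h3, PowerSeries.coeff_one,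
      Polynomial.coeff_one, sub_self]
  obtain ⟨r, hr⟩ := h4
  have h5 := congrArg (aeval z) hr
  rw [map_sub, map_mul, map_mul, map_pow, aeval_X, hz, zero_mul, map_one, sub_eq_zero] at h5
  rw [h1, h2, h5]

theorem gam_mul {I : ℕ} {z : A} (hz : z ^ (I + 1) = 0) : gam I z * (1 - z) = 1 := by
  rw [gam, geom_sum_mul_neg, hz, sub_zero]

theorem Lt_mul_prod {χ : F[X] → ℂ} (h : CM χ) {M I : ℕ} (hI : M ≤ I) {z : A}
    (hz : z ^ (M + 1) = 0) :
    Lt χ I z * ∏ P ∈ pr F M, (1 - algebraMap ℂ A (χ P) * z ^ P.natDegree) = 1 := by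
  rw [euler_Lt χ hI hz, euler_sift h hz _ fun P hP => ⟨(mem_pr.1 hP).1, (mem_pr.1 hP).2.1⟩,
    eulerT, sum_eq_single_of_mem 1 (mem_monLe.2 ⟨monic_one, by simp⟩)]
  · rw [(euler_cm h fun P hP => (mem_pr.1 hP).2.1).one]
    simp
  · intro f hf hne
    obtain ⟨h1, h2⟩ := mem_monLe.1 hf
    obtain ⟨P, hP, iP, hd⟩ := exists_monic_irreducible_factor f fun hu => hne (h1.isUnit_iff.1 hu)
    rw [eulerR, if_neg, map_zero, zero_mul]
    exact fun h3 => h3 P (mem_pr.2 ⟨hP, iP, (natDegree_le_of_dvd hd h1.ne_zero).trans h2⟩) hd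

theorem Li_eq_prod {χ : F[X] → ℂ} (h : CM χ) {M I : ℕ} (hI : M ≤ I) {z : A}
    (hz : z ^ (M + 1) = 0) :
    Li χ I z = ∏ P ∈ pr F M, (1 - algebraMap ℂ A (χ P) * z ^ P.natDegree) := by
  have h1 := Lt_mul_prod h hI hz
  have h2 := euler_Lt_Li h (I := I) (euler_pow_zero hz (by omega))
  linear_combination (-Li χ I z) * h1 +
    (∏ P ∈ pr F M, (1 - algebraMap ℂ A (χ P) * z ^ P.natDegree)) * h2

theorem euler_Lt_one {I : ℕ} {z : A} (hz : z ^ (I + 1) = 0) :
    (1 - qA F A * z) * Lt (fun _ : F[X] => 1) I z = 1 := by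
  have h1 : Lt (fun _ : F[X] => 1) I z = gam I (qA F A * z) := by
    rw [Lt, gam]
    refine sum_congr rfl fun n _ => ?_
    rw [AA, sum_const, card_monF, mul_pow]
    simp
  rw [h1, mul_comm, gam_mul]
  rw [mul_pow, hz, mul_zero]

theorem prod_zeta {M : ℕ} {z : A} (hz : z ^ (M + 1) = 0) :
    ∏ P ∈ pr F M, (1 - z ^ P.natDegree) = 1 - qA F A * z := by
  have h1 := Lt_mul_prod (F := F) (χ := fun _ => 1) ⟨rfl, fun _ _ _ _ => (mul_one _).symm⟩
    le_rfl hz
  have h2 := euler_Lt_one (F := F) hz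
  simp only [map_one, one_mul] at h1
  linear_combination (1 - qA F A * z) * h1 - (∏ P ∈ pr F M, (1 - z ^ P.natDegree)) * h2

theorem Lt_one {I : ℕ} {z : A} (hz : z ^ (I + 1) = 0) :
    (1 - qA F A * z) * Lt (fun _ : F[X] => 1) I z = 1 := euler_Lt_one hz

omit [Fintype F] in
theorem euler_dvd_prod {S : Finset F[X]} (hS : ∀ P ∈ S, P.Monic ∧ Irreducible P) {R : F[X]}
    (hR : R.Monic) (iR : Irreducible R) : R ∣ ∏ P ∈ S, P ↔ R ∈ S := by
  refine ⟨fun hd => ?_, fun h => dvd_prod_of_mem _ h⟩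
  obtain ⟨P, hP, hd⟩ := (iR.prime.dvd_finsetProd_iff _).1 hd
  exact euler_eq_of_dvd hR (hS P hP).1 iR (hS P hP).2 hd ▸ hP

theorem euler_sqfree {M : ℕ} {S : Finset F[X]} (hS : S ⊆ pr F M) :
    (∏ P ∈ S, P).Monic ∧ Squarefree (∏ P ∈ S, P) ∧
      (∏ P ∈ S, P).natDegree = ∑ P ∈ S, P.natDegree ∧ ((∏ P ∈ S, P) = 1 ↔ S = ∅) := by
  have hS' : ∀ P ∈ S, P.Monic ∧ Irreducible P := fun P hP =>
    ⟨(mem_pr.1 (hS hP)).1, (mem_pr.1 (hS hP)).2.1⟩
  refine ⟨monic_prod_of_monic _ _ fun P hP => (hS' P hP).1, ?_,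
    natDegree_prod_of_monic _ _ fun P hP => (hS' P hP).1, fun h => ?_, fun h => by simp [h]⟩
  · refine Finset.squarefree_prod_of_pairwise_isCoprime (fun P hP R hR hne => ?_)
      fun P hP => (hS' P hP).2.squarefree
    refine (hS' P hP).2.isRelPrime_iff_not_dvd.2 fun hd => hne ?_
    exact euler_eq_of_dvd (hS' P hP).1 (hS' R hR).1 (hS' P hP).2 (hS' R hR).2 hd
  · refine eq_empty_of_forall_notMem fun P hP => (hS' P hP).2.not_dvd_one ?_
    exact h ▸ dvd_prod_of_mem _ hP

theorem sqF_gen {χ : F[X] → ℂ} (h : CM χ) {I : ℕ} {y : A} (hy : y ^ (I + 1) = 0) :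
    ∑ N ∈ range (I + 1), y ^ N * algebraMap ℂ A (∑ D ∈ sqF F N, χ D) =
      ∏ P ∈ pr F I, (1 + algebraMap ℂ A (χ P) * y ^ P.natDegree) := by
  have h1 : ∑ N ∈ range (I + 1), y ^ N * algebraMap ℂ A (∑ D ∈ sqF F N, χ D) =
      ∑ D ∈ monLe F I with Squarefree D, algebraMap ℂ A (χ D) * y ^ D.natDegree := by
    rw [sum_filter, sum_monLe]
    refine sum_congr rfl fun N _ => ?_
    rw [← sum_filter, map_sum, mul_sum]
    exact sum_congr rfl fun D hD => by rw [(mem_sqF.1 hD).2.2, mul_comm]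
  have h2 : ∀ S ∈ (pr F I).powerset, ∏ P ∈ S, algebraMap ℂ A (χ P) * y ^ P.natDegree =
      algebraMap ℂ A (χ (∏ P ∈ S, P)) * y ^ (∏ P ∈ S, P).natDegree := by
    intro S hS
    rw [mem_powerset] at hS
    rw [(euler_sqfree hS).2.2.1, h.prod S fun P hP => (mem_pr.1 (hS hP)).1, prod_mul_distrib,
      map_prod, prod_pow_eq_pow_sum]
  rw [h1, prod_one_add, sum_congr rfl h2,
    ← sum_filter_of_ne (s := (pr F I).powerset) (p := fun S => (∏ P ∈ S, P).natDegree ≤ I)]
  · symm
    refine sum_nbij (fun S => ∏ P ∈ S, P) ?_ ?_ ?_ fun _ _ => rfl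
    · intro S hS
      rw [mem_filter, mem_powerset] at hS
      rw [mem_filter, mem_monLe]
      exact ⟨⟨(euler_sqfree hS.1).1, hS.2⟩, (euler_sqfree hS.1).2.1⟩
    · intro S hS T hT hST
      rw [mem_coe, mem_filter, mem_powerset] at hS hT
      have hS' : ∀ P ∈ S, P.Monic ∧ Irreducible P := fun P hP =>
        ⟨(mem_pr.1 (hS.1 hP)).1, (mem_pr.1 (hS.1 hP)).2.1⟩
      have hT' : ∀ P ∈ T, P.Monic ∧ Irreducible P := fun P hP =>
        ⟨(mem_pr.1 (hT.1 hP)).1, (mem_pr.1 (hT.1 hP)).2.1⟩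
      simp only at hST
      ext R
      constructor
      · intro hR
        rw [← euler_dvd_prod hT' (hS' R hR).1 (hS' R hR).2, ← hST]
        exact dvd_prod_of_mem _ hR
      · intro hR
        rw [← euler_dvd_prod hS' (hT' R hR).1 (hT' R hR).2, hST]
        exact dvd_prod_of_mem _ hR
    · intro D hD
      rw [mem_coe, mem_filter, mem_monLe] at hD
      obtain ⟨⟨hm, hd⟩, hs⟩ := hD
      have h3 : ∏ P ∈ (UniqueFactorizationMonoid.normalizedFactors D).toFinset, P = D := by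
        have h4 := (UniqueFactorizationMonoid.squarefree_iff_nodup_normalizedFactors
          hm.ne_zero).1 hs
        rw [Finset.prod, Multiset.toFinset_val, h4.dedup, Multiset.map_id',
          UniqueFactorizationMonoid.prod_normalizedFactors_eq hm.ne_zero, hm.normalize_eq_self]
      refine ⟨_, ?_, h3⟩
      rw [mem_coe, mem_filter, mem_powerset, h3]
      refine ⟨fun P hP => ?_, hd⟩
      rw [Multiset.mem_toFinset, Polynomial.mem_normalizedFactors_iff hm.ne_zero] at hP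
      exact mem_pr.2 ⟨hP.2.1, hP.1, (natDegree_le_of_dvd hP.2.2 hm.ne_zero).trans hd⟩
  · intro S _ hne
    by_contra hlt
    exact hne (by rw [euler_pow_zero hy (by omega), mul_zero])

theorem monic_sqfree_prod {M : ℕ} {S : Finset F[X]} (hS : S ⊆ pr F M) :
    (∏ P ∈ S, P).Monic ∧ Squarefree (∏ P ∈ S, P) ∧
      (∏ P ∈ S, P).natDegree = ∑ P ∈ S, P.natDegree ∧ ((∏ P ∈ S, P) = 1 ↔ S = ∅) :=
  euler_sqfree hS

end Pool.Agent.MP_dd7250_nt

end

section

/- The functional equations in the form used later. -/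

set_option autoImplicit false

namespace Pool.Agent.MP_dd7250_nt

open Polynomial Finset Pool.Agent.MP_d232b3_nt
open scoped Classical

variable {F : Type*} [Field F] [Fintype F]
variable {A : Type*} [CommRing A] [Algebra ℂ A]

theorem fe_W (χ : F[X] → ℂ) (M : ℕ) (y : A) :
    ∑ V ∈ monLe F M, wV F M y V * algebraMap ℂ A (χ V) =
      ∑ j ∈ range (M + 1), algebraMap ℂ A (((Q F : ℂ) ^ j)⁻¹ * AA χ j) * y ^ (M - j) := by
  rw [sum_monLe]
  refine sum_congr rfl fun j _ => ?_
  rw [AA, map_mul, map_sum, mul_sum, sum_mul]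
  refine sum_congr rfl fun V hV => ?_
  rw [wV, (mem_monF.1 hV).2]
  ring

theorem fe_cut (c : ℕ → ℂ) (z : ℕ → A) {d n : ℕ} (hd : d ≤ n) (hc : ∀ j, d ≤ j → c j = 0) :
    ∑ j ∈ range n, algebraMap ℂ A (c j) * z j = ∑ j ∈ range d, algebraMap ℂ A (c j) * z j := by
  symm
  refine sum_subset (range_subset_range.2 hd) fun j _ hj => ?_
  rw [hc j (by simpa using hj), map_zero, zero_mul]

theorem fe_sq_ne : sq F ≠ 0 := fun h => Q_ne (F := F) (by rw [← sq_sq, h]; simp)

theorem fe_dy_pow {σ : ℂ} (hσ : σ ^ 2 = 1) (k : ℕ) (y : A) :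
    dy F σ y ^ (2 * k) = algebraMap ℂ A ((Q F : ℂ) ^ k) * y ^ (2 * k) := by
  rw [dy, mul_pow, ← map_pow, pow_mul (σ * sq F), mul_pow, hσ, sq_sq, one_mul]

theorem fe_half : algebraMap ℂ A (1 / 2) * 2 = 1 := by
  rw [← map_ofNat (algebraMap ℂ A) 2, ← map_mul]
  simp

theorem fe_K_even (k : ℕ) (y W : A) :
    ∑ σ ∈ ({1, -1} : Finset ℂ), kap F σ y * (dy F σ y ^ (2 * k) * W) =
      -(1 - y) * (algebraMap ℂ A ((Q F : ℂ) ^ k) * y ^ (2 * k) * W) := by
  rw [sum_pair (by norm_num), fe_dy_pow (by norm_num), fe_dy_pow (by norm_num), kap, kap, neg_div,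
    map_neg]
  linear_combination (-(1 - y) * (algebraMap ℂ A ((Q F : ℂ) ^ k) * y ^ (2 * k) * W)) *
    fe_half (A := A)

theorem fe_K_odd (k : ℕ) (y W : A) :
    ∑ σ ∈ ({1, -1} : Finset ℂ), kap F σ y * (dy F σ y ^ (2 * k + 1) * W) =
      (1 - qA F A * y) * (algebraMap ℂ A ((Q F : ℂ) ^ k) * y ^ (2 * k + 1) * W) := by
  have hs : algebraMap ℂ A (1 / sq F) * algebraMap ℂ A (sq F) = 1 := by
    rw [← map_mul, one_div, inv_mul_cancel₀ fe_sq_ne, map_one]
  rw [sum_pair (by norm_num), pow_succ (dy F 1 y), pow_succ (dy F (-1) y), fe_dy_pow (by norm_num),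
    fe_dy_pow (by norm_num), kap, kap, dy, dy, neg_div, map_neg, neg_mul (1 : ℂ), map_neg,
    one_mul]
  linear_combination ((1 - qA F A * y) * (algebraMap ℂ A ((Q F : ℂ) ^ k) * y ^ (2 * k + 1) * W)) *
    (algebraMap ℂ A (1 / sq F) * algebraMap ℂ A (sq F) * fe_half (A := A) + hs)

theorem fe_odd' (hF : ringChar F ≠ 2) {D : F[X]} (hD : D.Monic) (hs : Squarefree D) {k n j : ℕ}
    (hd : D.natDegree = 2 * k + 1) (hn : n + j = 2 * k) :
    (Q F : ℂ) ^ k * (((Q F : ℂ) ^ j)⁻¹ * AA (fun f => jac f D) j) = AA (fun f => jac f D) n := by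
  have h := fe_odd hF hD hs (n := j) hd (by omega)
  rw [show 2 * k - j = n by omega] at h
  rw [mul_left_comm, h, inv_mul_cancel_left₀ (pow_ne_zero _ Q_ne)]

theorem fe_even' (hF : ringChar F ≠ 2) {D : F[X]} (hD : D.Monic) (hs : Squarefree D) {k n j : ℕ}
    (hd : D.natDegree = 2 * k) (hn : n + j + 1 = 2 * k) :
    (Q F : ℂ) ^ k * (((Q F : ℂ) ^ j)⁻¹ * AA (fun f => jac f D) j) =
      Q F * ∑ i ∈ range n, AA (fun f => jac f D) i -
        ∑ i ∈ range (n + 1), AA (fun f => jac f D) i := by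
  have h1 := fe_even hF hD hs (n := j) hd (by omega) (by omega)
  have h2 := fe_even hF hD hs (n := j + 1) hd (by omega) (by omega)
  rw [show 2 * k - j = n + 1 by omega] at h1
  rw [show 2 * k - (j + 1) = n by omega, sum_range_succ] at h2
  have h3 : ((Q F : ℂ) ^ j)⁻¹ * (Q F : ℂ) ^ j = 1 := inv_mul_cancel₀ (pow_ne_zero _ Q_ne)
  linear_combination ((Q F : ℂ) ^ j)⁻¹ * (h2 - h1) +
    (Q F * ∑ i ∈ range n, AA (fun f => jac f D) i -
      ∑ i ∈ range (n + 1), AA (fun f => jac f D) i) * h3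

theorem lam_eq (hF : ringChar F ≠ 2) {m : F[X]} (hm : m.Monic) (hs : Squarefree m) {M I : ℕ}
    (hM : m.natDegree ≤ M) (hI : M ≤ I) (y : A) (hy : y ^ (I + 1) = 0) :
    y ^ (M + 1) * ((1 - qA F A * y) * Lt (fun f => jac f m) I y) =
      (∑ σ ∈ ({1, -1} : Finset ℂ), kap F σ y * (dy F σ y ^ m.natDegree *
        ∑ V ∈ monLe F M, wV F M y V * algebraMap ℂ A (jac V m))) + if m = 1 then 1 else 0 := by
  rw [fe_W (fun f => jac f m)]
  by_cases h1 : m = 1
  · subst h1
    have e : (fun f : F[X] => jac f 1) = fun _ => 1 := funext fun f => (jac_cm f).one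
    have e2 : ∑ j ∈ range (M + 1), algebraMap ℂ A (((Q F : ℂ) ^ j)⁻¹ *
        AA (fun _ : F[X] => 1) j) * y ^ (M - j) = ∑ j ∈ range (M + 1), y ^ j := by
      rw [← sum_range_reflect fun j => y ^ j]
      refine sum_congr rfl fun j _ => ?_
      rw [AA, sum_const, card_monF, nsmul_eq_mul, mul_one, Nat.cast_pow,
        inv_mul_cancel₀ (pow_ne_zero _ Q_ne), map_one, one_mul, Nat.add_sub_cancel]
    have e3 := fe_K_even (F := F) 0 y (∑ j ∈ range (M + 1), y ^ j)
    rw [mul_zero] at e3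
    rw [e, Lt_one hy, if_pos rfl, natDegree_one, e2, e3, pow_zero, pow_zero, map_one]
    linear_combination geom_sum_mul_neg y (M + 1)
  have h0 : 0 < m.natDegree := Nat.pos_of_ne_zero fun h => h1 (hm.natDegree_eq_zero.1 h)
  rw [if_neg h1, add_zero, Lt, fe_cut _ _ (show m.natDegree ≤ I + 1 by omega)
    fun j hj => AA_vanish hF hm hs h0 hj, fe_cut _ _ (show m.natDegree ≤ M + 1 by omega)
    fun j hj => by rw [AA_vanish hF hm hs h0 hj, mul_zero],
    ← sum_range_reflect fun j => algebraMap ℂ A (((Q F : ℂ) ^ j)⁻¹ * AA (fun f => jac f m) j) *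
      y ^ (M - j)]
  obtain ⟨k, hk | hk⟩ := Nat.even_or_odd' m.natDegree
  · set S : ℕ → A := fun n => algebraMap ℂ A (∑ i ∈ range n, AA (fun f => jac f m) i) with hS
    have hT : ∑ n ∈ range (2 * k), S (n + 1) * y ^ (n + 1) = ∑ n ∈ range (2 * k), S n * y ^ n := by
      have s0 : S 0 = 0 := by simp [hS]
      have s1 : S (2 * k) = 0 := by
        have h := fe_even hF hm hs (n := 0) hk (by omega) (by omega)
        rw [range_zero, sum_empty, mul_zero, pow_zero, one_mul, Nat.sub_zero] at h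
        simp only [hS, ← h, map_zero]
      have t1 := sum_range_succ (fun n => S n * y ^ n) (2 * k)
      have t2 := sum_range_succ' (fun n => S n * y ^ n) (2 * k)
      simp only [s0, s1, zero_mul, add_zero] at t1 t2
      rw [← t1, t2]
    have hL : y * ∑ n ∈ range (2 * k), algebraMap ℂ A (AA (fun f => jac f m) n) * y ^ n =
        ∑ n ∈ range (2 * k), S (n + 1) * y ^ (n + 1) - y * ∑ n ∈ range (2 * k), S n * y ^ n := by
      rw [mul_sum, mul_sum, ← sum_sub_distrib]
      refine sum_congr rfl fun n _ => ?_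
      simp only [hS, sum_range_succ, map_add]
      ring
    have hR : algebraMap ℂ A ((Q F : ℂ) ^ k) * y ^ (2 * k) * ∑ n ∈ range (2 * k),
        algebraMap ℂ A (((Q F : ℂ) ^ (2 * k - 1 - n))⁻¹ * AA (fun f => jac f m) (2 * k - 1 - n)) *
          y ^ (M - (2 * k - 1 - n)) = y ^ M * (qA F A * y * ∑ n ∈ range (2 * k), S n * y ^ n -
            ∑ n ∈ range (2 * k), S (n + 1) * y ^ (n + 1)) := by
      rw [mul_sum, mul_sum, ← sum_sub_distrib, mul_sum]
      refine sum_congr rfl fun n hn => ?_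
      rw [mem_range] at hn
      rw [mul_mul_mul_comm, ← map_mul, fe_even' hF hm hs (n := n) hk (by omega), ← pow_add,
        show 2 * k + (M - (2 * k - 1 - n)) = M + n + 1 by omega, map_sub, map_mul, map_natCast]
      simp only [hS]
      ring
    rw [hk, fe_K_even, hR]
    linear_combination (y ^ M * (1 - qA F A * y)) * hL + (y ^ M * (y - qA F A * y)) * hT
  · rw [hk, fe_K_odd, mul_left_comm (y ^ (M + 1))]
    congr 1
    rw [mul_sum, mul_sum]
    refine sum_congr rfl fun n hn => ?_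
    rw [mem_range] at hn
    rw [mul_mul_mul_comm, ← map_mul, fe_odd' hF hm hs (n := n) hk (by omega), ← pow_add,
      show 2 * k + 1 + (M - (2 * k + 1 - 1 - n)) = M + 1 + n by omega]
    ring

theorem fe_AA_recip (hF : ringChar F ≠ 2) {D : F[X]} (hD : D.Monic) (n : ℕ) :
    AA (jac D) n = eta F (-1) ^ (D.natDegree * n) * AA (fun f => jac f D) n := by
  rw [AA, AA, mul_sum]
  refine sum_congr rfl fun f hf => ?_
  rw [jac_recip hF hD (mem_monF.1 hf).1, (mem_monF.1 hf).2]

theorem AA_jac_vanish (hF : ringChar F ≠ 2) {D : F[X]} (hD : D.Monic) (hs : Squarefree D)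
    (h0 : 0 < D.natDegree) {n : ℕ} (hn : D.natDegree ≤ n) : AA (jac D) n = 0 := by
  rw [fe_AA_recip hF hD, AA_vanish hF hD hs h0 hn, mul_zero]

theorem Lt_trunc (hF : ringChar F ≠ 2) {D : F[X]} {g I : ℕ} (hD : D ∈ sqF F (2 * g + 1))
    (hI : 2 * g ≤ I) (z : A) : Lt (jac D) I z = Lt (jac D) (2 * g) z := by
  obtain ⟨h1, h2, h3⟩ := mem_sqF.1 hD
  exact fe_cut _ _ (by omega) fun j hj => AA_jac_vanish hF h1 h2 (by omega) (by omega)

theorem Lt_symm (hF : ringChar F ≠ 2) {D : F[X]} {g : ℕ} (hD : D ∈ sqF F (2 * g + 1))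
    {u : ℂ} (hu : u ≠ 0) :
    Lt (jac D) (2 * g) u = (Q F * u ^ 2) ^ g * Lt (jac D) (2 * g) (Q F * u)⁻¹ := by
  obtain ⟨h1, h2, h3⟩ := mem_sqF.1 hD
  rw [Lt, Lt, ← sum_range_reflect fun j => algebraMap ℂ ℂ (AA (jac D) j) * (Q F * u)⁻¹ ^ j,
    mul_sum]
  refine sum_congr rfl fun n hn => ?_
  rw [mem_range] at hn
  obtain ⟨j, hj⟩ : ∃ j, n + j = 2 * g := ⟨2 * g - n, by omega⟩
  have he : eta F (-1) ^ (D.natDegree * j) = eta F (-1) ^ (D.natDegree * n) := by
    have e1 : eta F (-1) ^ (D.natDegree * j) * (eta F (-1) ^ 2) ^ (D.natDegree * n) =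
        eta F (-1) ^ (D.natDegree * n) * (eta F (-1) ^ 2) ^ (D.natDegree * g) := by
      rw [← pow_mul, ← pow_mul, ← pow_add, ← pow_add]
      congr 1
      linear_combination D.natDegree * hj
    simpa only [eta_neg_one_sq, one_pow, mul_one] using e1
  have hp : (u ^ 2) ^ g = u ^ n * u ^ j := by rw [← pow_mul, ← pow_add, hj]
  have hj' : (u ^ j)⁻¹ * u ^ j = 1 := inv_mul_cancel₀ (pow_ne_zero _ hu)
  rw [show 2 * g + 1 - 1 - n = j by omega, fe_AA_recip hF h1, fe_AA_recip hF h1, he,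
    ← fe_odd' hF h1 h2 h3 hj, mul_pow, hp, inv_pow, mul_pow, mul_inv]
  simp only [Algebra.algebraMap_self, RingHom.id_apply]
  linear_combination (-(eta F (-1) ^ (D.natDegree * n) * (Q F : ℂ) ^ g * ((Q F : ℂ) ^ j)⁻¹ *
    AA (fun f => jac f D) j * u ^ n)) * hj'

theorem not_isSquare_of_mem {D : F[X]} {g : ℕ} (hD : D ∈ sqF F (2 * g + 1)) :
    ¬ IsSquare D := by
  obtain ⟨h1, -, h3⟩ := mem_sqF.1 hD
  rintro ⟨r, rfl⟩
  have hr : r ≠ 0 := left_ne_zero_of_mul h1.ne_zero
  rw [natDegree_mul hr hr] at h3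
  omega

end Pool.Agent.MP_dd7250_nt

end

section

/- The Riemann hypothesis for quadratic characters and sums over primes. -/

set_option autoImplicit false

namespace Pool.Agent.MP_dd7250_nt

open Polynomial Finset Pool.Agent.MP_d232b3_nt
open scoped Classical

variable {F : Type*} [Field F] [Fintype F]

theorem weil_AA_zero {χ : F[X] → ℂ} (h : CM χ) : AA χ 0 = 1 := by
  have : monF F 0 = {1} := by
    ext f
    rw [mem_monF, mem_singleton]
    exact ⟨fun ⟨h1, h2⟩ => h1.natDegree_eq_zero.1 h2, fun h => by simp [h]⟩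
  rw [AA, this, sum_singleton, h.one]

theorem weil_sum_dvd {χ : F[X] → ℂ} (h : CM χ) {c : F[X]} (hc : c.Monic) {m : ℕ}
    (hm : c.natDegree ≤ m) :
    ∑ f ∈ monF F m, (if c ∣ f then χ f else 0) = χ c * AA χ (m - c.natDegree) := by
  rw [← sum_filter, AA, mul_sum]
  symm
  refine sum_nbij (fun g => c * g) ?_ ?_ ?_ ?_
  · intro g hg
    rw [mem_monF] at hg
    rw [mem_filter, mem_monF, hc.natDegree_mul hg.1, hg.2]
    exact ⟨⟨hc.mul hg.1, by omega⟩, dvd_mul_right _ _⟩
  · intro a _ b _ hab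
    exact mul_left_cancel₀ hc.ne_zero hab
  · intro f hf
    rw [coe_filter, Set.mem_ofPred_eq, mem_monF] at hf
    obtain ⟨⟨h1, h2⟩, g, rfl⟩ := hf
    have hg := hc.of_mul_monic_left h1
    refine ⟨g, ?_, rfl⟩
    rw [mem_coe, mem_monF]
    rw [hc.natDegree_mul hg] at h2
    exact ⟨hg, by omega⟩
  · intro g hg
    exact (h.mul _ _ hc (mem_monF.1 hg).1).symm

theorem weil_rec {χ : F[X] → ℂ} (h : CM χ) (m : ℕ) :
    (m : ℂ) * AA χ m = ∑ j ∈ Icc 1 m, SS χ j * AA χ (m - j) := by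
  calc _ = ∑ f ∈ monF F m, ∑ j ∈ Icc 1 m, ∑ x ∈ VV F j, if cc x j ∣ f then χ f else 0 := by
        rw [AA, mul_sum]
        refine sum_congr rfl fun f hf => ?_
        obtain ⟨h1, rfl⟩ := mem_monF.1 hf
        nth_rewrite 1 [← degree_count h1]
        rw [Nat.cast_sum, sum_mul]
        refine sum_congr rfl fun j _ => ?_
        rw [← sum_filter, sum_const, nsmul_eq_mul]
    _ = _ := by
        rw [sum_comm]
        refine sum_congr rfl fun j hj => ?_
        rw [mem_Icc] at hj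
        rw [sum_comm, SS, sum_mul]
        refine sum_congr rfl fun x hx => ?_
        have hx' := (mem_VV (by omega)).1 hx
        rw [weil_sum_dvd h (monic_cc x j) (by rw [natDegree_cc hx']; exact hj.2), natDegree_cc hx']

theorem weil_zeros {χ : F[X] → ℂ} (h : CM χ) {n : ℕ} (hn : ∀ m, n < m → AA χ m = 0)
    {c : ℝ} {s0 : ℕ} (hc : ∀ s ≥ s0, ‖SS χ (2 * s)‖ ≤ c * (Q F : ℝ) ^ s) {j : ℕ} (hj : j ≠ 0) :
    ‖SS χ j‖ ≤ n * qp F (j / 2) := by
  set R : ℂ[X] := ∑ i ∈ range (n + 1), monomial i (AA χ (n - i)) with hR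
  have hRc : ∀ i, R.coeff i = if i ≤ n then AA χ (n - i) else 0 := by
    intro i
    simp [hR, coeff_monomial]
  have hRd : R.natDegree ≤ n := natDegree_le_iff_coeff_eq_zero.2 fun i hi => by
    rw [hRc, if_neg (by omega)]
  have hRn : R.coeff n = 1 := by rw [hRc, if_pos le_rfl, Nat.sub_self, weil_AA_zero h]
  have hRm : R.Monic := monic_of_natDegree_le_of_coeff_eq_one n hRd hRn
  have hcard : R.roots.card = n := by
    rw [IsAlgClosed.card_roots_eq_natDegree]
    exact natDegree_eq_of_le_of_coeff_ne_zero hRd (by rw [hRn]; exact one_ne_zero)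
  have h1 : ∀ m, PowerSeries.coeff m (PP R.roots) = AA χ m := by
    intro m
    by_cases hm : m ≤ n
    · rw [coeff_PP _ (hcard ▸ hm), prod_multiset_X_sub_C_of_monic_of_roots_card_eq hRm
        IsAlgClosed.card_roots_eq_natDegree, hcard, hRc, if_pos (by omega)]
      congr 1
      omega
    · rw [coeff_PP_eq_zero _ (by omega), hn _ (by omega)]
  have h2 : PP R.roots * TT R.roots =
      PP R.roots * PowerSeries.mk fun j => if j = 0 then 0 else SS χ j := by
    rw [← X_deriv_PP]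
    ext m
    rw [mul_comm (PP _), PowerSeries.coeff_mul _ (PowerSeries.mk _),
      Finset.Nat.sum_antidiagonal_eq_sum_range_succ_mk, sum_range_succ']
    simp only [PowerSeries.coeff_mk, h1, if_true, zero_mul, add_zero, Nat.succ_ne_zero, if_false]
    have h3 := weil_rec h m
    rw [← Finset.Ico_add_one_right_eq_Icc, sum_Ico_eq_sum_range, Nat.add_sub_cancel] at h3
    simp only [add_comm 1] at h3
    rw [← h3]
    cases m with
    | zero => simp
    | succ m =>
      rw [PowerSeries.coeff_succ_X_mul, PowerSeries.coeff_derivative, h1]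
      push_cast
      ring
  have h3 : PP R.roots ≠ 0 := fun h0 => by simpa [h0] using constantCoeff_PP R.roots
  have h4 : ∀ j, j ≠ 0 → SS χ j = -(R.roots.map (· ^ j)).sum := by
    intro j hj
    have := congrArg (PowerSeries.coeff j) (mul_left_cancel₀ h3 h2)
    simpa [TT, hj] using this.symm
  have h7 : ∀ w ∈ R.roots, ‖w‖ ^ 2 ≤ Q F := by
    intro w hw
    set M := R.roots.map (· ^ 2) with hM
    have h5 : w ^ 2 ∈ M.toFinset := Multiset.mem_toFinset.2 (Multiset.mem_map_of_mem _ hw)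
    rw [← norm_pow]
    refine norm_le_of_sum_pow_le (by exact_mod_cast Fintype.card_pos) (M.toFinset.erase (w ^ 2))
      (notMem_erase _ _) (fun v => M.count v) c (s0 + 1) ?_ fun s hs => ?_
    · rw [insert_erase h5]
      intro v hv
      exact_mod_cast Multiset.count_ne_zero.2 (Multiset.mem_toFinset.1 hv)
    · rw [insert_erase h5]
      have h6 := hc s (by omega)
      rw [h4 _ (by omega), norm_neg] at h6
      refine le_of_eq_of_le ?_ h6
      have := Finset.sum_multiset_map_count M (· ^ s)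
      simp only [nsmul_eq_mul] at this
      rw [← this, hM, Multiset.map_map]
      simp [pow_mul]
  rw [h4 j hj, norm_neg]
  refine (norm_multiset_sum_le _).trans ((Multiset.sum_le_card_nsmul _ (qp F (j / 2)) ?_).trans_eq
    (by rw [Multiset.card_map, Multiset.card_map, hcard, nsmul_eq_mul]))
  intro y hy
  obtain ⟨z, hz, rfl⟩ := Multiset.mem_map.1 hy
  obtain ⟨w, hw, rfl⟩ := Multiset.mem_map.1 hz
  have h8 : ‖w‖ ≤ qp F (1 / 2) := by
    refine le_of_sq_le_sq ?_ (qp_pos _).le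
    rw [qp_pow]
    norm_num
    rw [qp_one]
    exact h7 w hw
  rw [norm_pow, show (j : ℝ) / 2 = 1 / 2 * j by ring, ← qp_pow]
  exact pow_le_pow_left₀ (norm_nonneg _) h8 _

theorem weil_full (χ : F[X] → ℂ) {d : ℕ} (hd : d ≠ 0) :
    ∑ x ∈ (VV F d).filter (fun x => (minpoly F x).natDegree = d), χ (cc x d) =
      d * ∑ P ∈ prD F d, χ P := by
  rw [← sum_fiberwise_of_maps_to (t := prD F d) (g := fun x => minpoly F x) fun x hx =>
    mem_prD.2 ⟨minpoly.monic (integral x), minpoly.irreducible (integral x), (mem_filter.1 hx).2⟩,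
    mul_sum]
  refine sum_congr rfl fun P hP => ?_
  obtain ⟨h1, h2, h3⟩ := mem_prD.1 hP
  have h4 : ((VV F d).filter fun x => (minpoly F x).natDegree = d).filter
      (fun x => minpoly F x = P) = (P.map (algebraMap F (KK F))).roots.toFinset := by
    ext x
    rw [mem_filter, mem_filter, mem_VV hd, fix_iff, Multiset.mem_toFinset,
      mem_roots (h1.map _).ne_zero, IsRoot.def, eval_map_algebraMap]
    refine ⟨fun h => h.2 ▸ minpoly.aeval F x, fun h => ?_⟩
    rw [← minpoly.eq_of_irreducible_of_monic h2 h h1, h3]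
    exact ⟨⟨dvd_rfl, rfl⟩, rfl⟩
  rw [sum_congr rfl (g := fun _ => χ P), sum_const, nsmul_eq_mul, h4,
    Multiset.toFinset_card_of_nodup (nodup_roots (PerfectField.separable_of_irreducible h2).map),
    IsAlgClosed.card_roots_eq_natDegree, h1.natDegree_map, h3]
  intro x hx
  rw [cc, (mem_filter.1 hx).2, h3, Nat.div_self (Nat.pos_of_ne_zero hd), pow_one]

theorem weil_rest {d : ℕ} (hd : d ≠ 0) :
    (((VV F d).filter fun x => ¬ (minpoly F x).natDegree = d).card : ℝ) ≤ d * qp F (d / 2) := by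
  have h1 : ((VV F d).filter fun x => ¬ (minpoly F x).natDegree = d) ⊆
      d.properDivisors.biUnion (VV F) := by
    intro x hx
    obtain ⟨h2, h3⟩ := mem_filter.1 hx
    rw [mem_VV hd, fix_iff] at h2
    refine mem_biUnion.2 ⟨_, Nat.mem_properDivisors.2 ⟨h2,
      lt_of_le_of_ne (Nat.le_of_dvd (Nat.pos_of_ne_zero hd) h2) h3⟩, ?_⟩
    rw [mem_VV (minpoly.natDegree_pos (integral x)).ne', fix_iff]
  have h2 : ∀ e ∈ d.properDivisors, ((VV F e).card : ℝ) ≤ qp F (d / 2) := by
    intro e he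
    obtain ⟨⟨c, rfl⟩, h3⟩ := Nat.mem_properDivisors.1 he
    have h4 : e ≠ 0 := left_ne_zero_of_mul hd
    have h5 : 2 ≤ c := by
      by_contra h
      have := Nat.mul_le_mul_left e (show c ≤ 1 by omega)
      omega
    rw [card_VV h4, Nat.cast_pow, ← qp_nat]
    refine qp_mono ?_
    rw [le_div_iff₀ two_pos]
    exact_mod_cast Nat.mul_le_mul_left e h5
  have h3 : d.properDivisors.card ≤ d :=
    (card_le_card fun e he => mem_range.2 (Nat.mem_properDivisors.1 he).2).trans_eq (card_range d)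
  calc _ ≤ ((∑ e ∈ d.properDivisors, (VV F e).card : ℕ) : ℝ) :=
        Nat.cast_le.2 ((card_le_card h1).trans card_biUnion_le)
    _ ≤ d.properDivisors.card • qp F (d / 2) := by
        rw [Nat.cast_sum]
        exact sum_le_card_nsmul _ _ _ h2
    _ ≤ _ := by
        rw [nsmul_eq_mul]
        exact mul_le_mul_of_nonneg_right (Nat.cast_le.2 h3) (qp_pos _).le

theorem weil_prD_zero : prD F 0 = ∅ :=
  eq_empty_of_forall_notMem fun _ hP => (deg_pos (mem_prD.1 hP).2.1).ne' (mem_prD.1 hP).2.2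

theorem weil_sqfree (hF : ringChar F ≠ 2) {W : F[X]} (hW : W.Monic) (hs : Squarefree W)
    (h0 : 0 < W.natDegree) (d : ℕ) :
    ‖∑ P ∈ prD F d, jac W P‖ ≤ W.natDegree * qp F (d / 2) := by
  have hq := (qp_pos (F := F) (d / 2)).le
  rcases eq_or_ne d 0 with rfl | hd
  · rw [weil_prD_zero, sum_empty, norm_zero]
    positivity
  obtain ⟨c, s0, hc⟩ := norm_SS_jac hF hW hs h0
  obtain ⟨n, hn⟩ : ∃ n, W.natDegree = n + 1 := ⟨W.natDegree - 1, by omega⟩
  have h1 := weil_zeros (jac_cm W) (n := n) (fun m hm => AA_jac_vanish hF hW hs h0 (by omega)) hc hd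
  have h2 : ‖∑ x ∈ (VV F d).filter (fun x => ¬ (minpoly F x).natDegree = d), jac W (cc x d)‖ ≤
      d * qp F (d / 2) := by
    refine (norm_sum_le _ _).trans ((sum_le_card_nsmul _ _ 1 fun x _ => norm_jac_le _ _).trans ?_)
    rw [nsmul_eq_mul, mul_one]
    exact weil_rest hd
  have h3 := sum_filter_add_sum_filter_not (VV F d) (fun x => (minpoly F x).natDegree = d)
    fun x => jac W (cc x d)
  rw [weil_full _ hd, ← eq_sub_iff_add_eq] at h3
  have h4 := (congrArg norm h3).trans_le ((norm_sub_le _ _).trans (add_le_add h1 h2))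
  rw [norm_mul, Complex.norm_natCast] at h4
  have h5 : (1 : ℝ) ≤ d := by exact_mod_cast Nat.pos_of_ne_zero hd
  refine le_of_mul_le_mul_left (h4.trans ?_) (zero_lt_one.trans_le h5)
  rw [hn]
  push_cast
  nlinarith [mul_le_mul_of_nonneg_right h5 (mul_nonneg (Nat.cast_nonneg (α := ℝ) n) hq)]

theorem weil_card {W : F[X]} (hW : W ≠ 0) (d : ℕ) :
    ((prD F d).filter fun P => P ∣ W).card ≤ W.natDegree := by
  set T := (prD F d).filter fun P => P ∣ W with hT
  have h1 : ∀ P ∈ T, P.Monic ∧ Irreducible P := fun P hP =>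
    ⟨(mem_prD.1 (mem_filter.1 hP).1).1, (mem_prD.1 (mem_filter.1 hP).1).2.1⟩
  have h2 : ∏ P ∈ T, P ∣ W := by
    refine Finset.prod_dvd_of_coprime (fun a ha b hb hab => ?_) fun P hP => (mem_filter.1 hP).2
    exact (h1 a ha).2.coprime_iff_not_dvd.2 fun h => hab (eq_of_monic_of_associated (h1 a ha).1
      (h1 b hb).1 ((h1 a ha).2.associated_of_dvd (h1 b hb).2 h))
  refine le_trans ?_ (natDegree_le_of_dvd h2 hW)
  rw [natDegree_prod_of_monic _ _ fun P hP => (h1 P hP).1, card_eq_sum_ones]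
  exact sum_le_sum fun P hP => deg_pos (h1 P hP).2

theorem weil_one_le (d : ℕ) : 1 ≤ qp F (d / 2) :=
  qp_zero.symm.trans_le (qp_mono (by positivity))

omit [Fintype F] in
theorem weil_decomp (n : ℕ) : ∀ W : F[X], W.Monic → W.natDegree ≤ n →
    ∃ U V : F[X], U.Monic ∧ Squarefree U ∧ W = U * (V * V) := by
  induction n using Nat.strong_induction_on with
  | _ n ih =>
  intro W hW hn
  by_cases hs : Squarefree W
  · exact ⟨W, 1, hW, hs, by simp⟩
  rw [Squarefree] at hs
  push Not at hs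
  obtain ⟨x, ⟨y, hy⟩, hx⟩ := hs
  have hx0 : x ≠ 0 := by
    rintro rfl
    exact hW.ne_zero (by simpa using hy)
  have hm := monic_mul_leadingCoeff_inv hx0
  set P := x * C x.leadingCoeff⁻¹ with hP
  have h1 : x = P * C x.leadingCoeff := by
    rw [hP, mul_assoc, ← C_mul, inv_mul_cancel₀ (leadingCoeff_ne_zero.2 hx0), C_1, mul_one]
  have h2 : W = P * P * (C x.leadingCoeff * C x.leadingCoeff * y) := by
    rw [hy]
    nth_rewrite 1 2 [h1]
    ring
  have h3 := (hm.mul hm).of_mul_monic_left (h2 ▸ hW)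
  have h4 : P.natDegree ≠ 0 := fun h => hx (by
    rw [h1, hm.natDegree_eq_zero.1 h, one_mul]
    exact isUnit_C.2 (leadingCoeff_ne_zero.2 hx0).isUnit)
  have h5 := congrArg natDegree h2
  rw [(hm.mul hm).natDegree_mul h3, hm.natDegree_mul hm] at h5
  obtain ⟨U, V, h6, h7, h8⟩ := ih _ (by omega) _ h3 le_rfl
  exact ⟨U, P * V, h6, h7, by rw [h2, h8]; ring⟩

theorem small_jac (hF : ringChar F ≠ 2) {W : F[X]} (hW : W.Monic) (hs : ¬ IsSquare W) :
    Small (jac W) (2 * W.natDegree + 2) := by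
  refine ⟨norm_jac_le W, fun d => ?_⟩
  obtain ⟨U, V, hm, hUs, h2⟩ := weil_decomp _ W hW le_rfl
  have hU0 : 0 < U.natDegree := Nat.pos_of_ne_zero fun h => hs ⟨V, by
    rw [h2, hm.natDegree_eq_zero.1 h, one_mul]⟩
  have hUW : U ∣ W := ⟨_, h2⟩
  have h3 := weil_sqfree hF hm hUs hU0 d
  have h4 : ‖∑ P ∈ prD F d, (jac W P - jac U P)‖ ≤ W.natDegree := by
    refine (norm_sum_le _ _).trans (le_trans (sum_le_sum (g := fun P => if P ∣ W then 1 else 0)
      fun P hP => ?_) ?_)
    · obtain ⟨h5, h6, -⟩ := mem_prD.1 hP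
      have h7 : jac W P = jac U P * if P ∣ V * V then 0 else 1 := by
        rw [h2, jac_mul_left hF _ _ h5, jac_of_isSquare ⟨V, rfl⟩ h5 h6]
      by_cases h8 : P ∣ V * V
      · rw [h7, if_pos h8, mul_zero, zero_sub, norm_neg, if_pos (h2 ▸ h8.mul_left U)]
        exact norm_jac_le _ _
      · rw [h7, if_neg h8, mul_one, sub_self, norm_zero]
        split_ifs <;> norm_num
    · rw [sum_boole]
      exact Nat.cast_le.2 (weil_card hW.ne_zero d)
  rw [sum_sub_distrib] at h4
  have h5 := norm_le_norm_add_norm_sub' (∑ P ∈ prD F d, jac W P) (∑ P ∈ prD F d, jac U P)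
  have h6 : (U.natDegree : ℝ) ≤ W.natDegree := Nat.cast_le.2 (natDegree_le_of_dvd hUW hW.ne_zero)
  have h7 := weil_one_le (F := F) d
  nlinarith [mul_le_mul_of_nonneg_right h6 (zero_le_one.trans h7),
    mul_le_mul_of_nonneg_left h7 (Nat.cast_nonneg (α := ℝ) W.natDegree)]

theorem small_dvd {W : F[X]} (hW : W.Monic) (S : Finset F[X]) :
    Small (fun P => if P ∣ W ∧ P ∉ S then 1 else 0) W.natDegree := by
  refine ⟨fun P => by dsimp only; split_ifs <;> simp, fun d => ?_⟩
  rw [sum_boole, Complex.norm_natCast]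
  refine le_trans (Nat.cast_le.2 ((card_le_card (monotone_filter_right _ fun P _ h => h.1)).trans
    (weil_card hW.ne_zero d))) (le_mul_of_one_le_right (Nat.cast_nonneg _) (weil_one_le d))

theorem small_zero : Small (fun _ : F[X] => 0) 0 := ⟨fun _ => by simp, fun _ => by simp⟩

end Pool.Agent.MP_dd7250_nt

end
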