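import Mathlib
import Pool.Agent.Mg.F43e117.G892fb5

section

/- Expansion of the ratio and the sum over squarefree D. -/

set_option autoImplicit false

namespace Pool.Agent.MP_dd7250_nt

open Polynomial Finset Pool.Agent.MP_d232b3_nt
open scoped Classical

variable {F : Type*} [Field F] [Fintype F]
variable {A : Type*} [CommRing A] [Algebra ℂ A]

omit [Algebra ℂ A] in
theorem form1_nil {M d : ℕ} {z : A} (hz : z ^ (M + 1) = 0) (hd : 0 < d) :
    ((z ^ d) ^ 2) ^ (M + 1) = 0 := by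
  rw [← pow_mul z, ← pow_mul z, mul_comm, pow_mul, hz, zero_pow (by omega)]

theorem form1_gam {M d : ℕ} {z : A} (hz : z ^ (M + 1) = 0) (hd : 0 < d) :
    gam M ((z ^ d) ^ 2) * (1 - (z ^ d) ^ 2) = 1 := gam_mul (form1_nil hz hd)

theorem form1_local {M : ℕ} {a : Fin 4 → A} {x : ℂ} (hx : x = 0 ∨ x = 1 ∨ x = -1)
    (h0 : gam M (a 0 ^ 2) * (1 - a 0 ^ 2) = 1) (h1 : gam M (a 1 ^ 2) * (1 - a 1 ^ 2) = 1) :
    (1 - algebraMap ℂ A x * a 2) * (1 - algebraMap ℂ A x * a 3) =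
      (1 - algebraMap ℂ A x * a 0) * (1 - algebraMap ℂ A x * a 1) *
        (algebraMap ℂ A x * Od M a + (1 + algebraMap ℂ A x ^ 2 * Ev M a)) := by
  have h : gam M (a 0 ^ 2) * gam M (a 1 ^ 2) * ((1 - a 0 ^ 2) * (1 - a 1 ^ 2)) = 1 := by
    linear_combination (gam M (a 1 ^ 2) * (1 - a 1 ^ 2)) * h0 + h1
  rcases hx with rfl | rfl | rfl
  · simp
  · rw [map_one, Od, Ev]
    linear_combination (-((1 - a 2) * (1 - a 3))) * h
  · rw [map_neg, map_one, Od, Ev]
    linear_combination (-((1 + a 2) * (1 + a 3))) * h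

theorem expand_ratio (D : F[X]) {M I : ℕ} (hI : M ≤ I) {U : Fin 4 → A}
    (hU : ∀ i, U i ^ (M + 1) = 0) :
    Lt (jac D) I (U 0) * Lt (jac D) I (U 1) * (Li (jac D) I (U 2) * Li (jac D) I (U 3)) =
      ∑ S₀ ∈ (pr F M).powerset, ∑ S₁ ∈ (pr F M \ S₀).powerset,
        (∏ P ∈ S₀, Od M (pw U P.natDegree)) * (∏ P ∈ S₁, Ev M (pw U P.natDegree)) *
          algebraMap ℂ A ((∏ P ∈ S₀, jac D P) * ∏ P ∈ S₁, jac D P ^ 2) := by
  have e0 := Lt_mul_prod (jac_cm D) hI (hU 0)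
  have e1 := Lt_mul_prod (jac_cm D) hI (hU 1)
  have key : (∏ P ∈ pr F M, (1 - algebraMap ℂ A (jac D P) * U 2 ^ P.natDegree)) *
      (∏ P ∈ pr F M, (1 - algebraMap ℂ A (jac D P) * U 3 ^ P.natDegree)) =
      (∏ P ∈ pr F M, (1 - algebraMap ℂ A (jac D P) * U 0 ^ P.natDegree)) *
      (∏ P ∈ pr F M, (1 - algebraMap ℂ A (jac D P) * U 1 ^ P.natDegree)) *
      ∏ P ∈ pr F M, (algebraMap ℂ A (jac D P) * Od M (pw U P.natDegree) +
        (1 + algebraMap ℂ A (jac D P) ^ 2 * Ev M (pw U P.natDegree))) := by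
    rw [← prod_mul_distrib, ← prod_mul_distrib, ← prod_mul_distrib]
    refine prod_congr rfl fun P hP => ?_
    have hd := deg_pos (mem_pr.1 hP).2.1
    exact form1_local (a := pw U P.natDegree) (jac_tri D P) (form1_gam (hU 0) hd)
      (form1_gam (hU 1) hd)
  rw [Li_eq_prod (jac_cm D) hI (hU 2), Li_eq_prod (jac_cm D) hI (hU 3), key]
  have e2 : ∀ a b c d e : A, a * c = 1 → b * d = 1 → a * b * (c * d * e) = e := by
    intro a b c d e h1 h2
    linear_combination (b * d * e) * h1 + e * h2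
  rw [e2 _ _ _ _ _ e0 e1, prod_add]
  refine sum_congr rfl fun S₀ _ => ?_
  rw [prod_one_add, mul_sum]
  refine sum_congr rfl fun S₁ _ => ?_
  simp only [prod_mul_distrib, map_mul, map_prod, map_pow]
  ring

omit [Fintype F] in
theorem form1_dvd {P R : F[X]} (hP : P.Monic) (hP' : Irreducible P) (hR : R.Monic)
    (hR' : Irreducible R) : P ∣ R ↔ P = R :=
  ⟨fun h => eq_of_monic_of_associated hP hR (hP'.associated_of_dvd hR' h), fun h => h ▸ dvd_rfl⟩

theorem form1_sq_prod {I : ℕ} {S : Finset F[X]} (hS : S ⊆ pr F I) {R : F[X]}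
    (hR : R ∈ pr F I) : ∏ P ∈ S, jac R P ^ 2 = if R ∈ S then 0 else 1 := by
  have h : ∀ P ∈ S, jac R P ^ 2 = if P = R then 0 else 1 := fun P hP => by
    have h1 := mem_pr.1 (hS hP)
    have h2 := mem_pr.1 hR
    rw [jac_sq_prime R h1.1 h1.2.1]
    simp only [form1_dvd h1.1 h1.2.1 h2.1 h2.2.1]
  rw [prod_congr rfl h]
  split_ifs with hm
  · exact prod_eq_zero hm (if_pos rfl)
  · exact prod_eq_one fun P hP => if_neg fun e : P = R => hm (e ▸ hP)

theorem sieve_gen (hF : ringChar F ≠ 2) {I : ℕ} {S₀ S₁ : Finset F[X]} (h0 : S₀ ⊆ pr F I)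
    (h1 : S₁ ⊆ pr F I \ S₀) {y : A} (hy : y ^ (I + 1) = 0) :
    ∑ N ∈ range (I + 1), y ^ N * algebraMap ℂ A
        (∑ D ∈ sqF F N, (∏ P ∈ S₀, jac D P) * ∏ P ∈ S₁, jac D P ^ 2) =
      (1 - qA F A * y ^ 2) * Lt (fun f => jac f (∏ P ∈ S₀, P)) I y *
        ((∏ P ∈ S₀, rho I y P.natDegree) * ∏ P ∈ S₁, rho I y P.natDegree *
          (1 - algebraMap ℂ A (jac P (∏ P ∈ S₀, P)) * y ^ P.natDegree)) := by
  have h1' : S₁ ⊆ pr F I := h1.trans sdiff_subset
  have m0 : ∀ P ∈ S₀, P.Monic := fun P hP => (mem_pr.1 (h0 hP)).1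
  have m1 : ∀ P ∈ S₁, P.Monic := fun P hP => (mem_pr.1 (h1' hP)).1
  have hcm : CM fun D : F[X] => (∏ P ∈ S₀, jac D P) * ∏ P ∈ S₁, jac D P ^ 2 := by
    constructor
    · rw [prod_eq_one fun P hP => jac_one_left (m0 P hP),
        prod_eq_one fun P hP => by rw [jac_one_left (m1 P hP), one_pow], one_mul]
    · intro f g _ _
      have a0 : ∏ P ∈ S₀, jac (f * g) P = (∏ P ∈ S₀, jac f P) * ∏ P ∈ S₀, jac g P := by
        rw [← prod_mul_distrib]
        exact prod_congr rfl fun P hP => jac_mul_left hF f g (m0 P hP)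
      have a1 : ∏ P ∈ S₁, jac (f * g) P ^ 2 =
          (∏ P ∈ S₁, jac f P ^ 2) * ∏ P ∈ S₁, jac g P ^ 2 := by
        rw [← prod_mul_distrib]
        exact prod_congr rfl fun P hP => by rw [jac_mul_left hF f g (m1 P hP), mul_pow]
      rw [a0, a1]
      ring
  have hm : (∏ P ∈ S₀, P).Monic := monic_prod_of_monic _ _ m0
  have e0 := Lt_mul_prod (jac_cm_left hF hm) le_rfl hy
  have hy2 : (y ^ 2) ^ (I + 1) = 0 := by
    have := form1_nil hy Nat.one_pos
    rwa [pow_one] at this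
  have key : (∏ P ∈ pr F I, (1 + algebraMap ℂ A ((∏ R ∈ S₀, jac P R) * ∏ R ∈ S₁, jac P R ^ 2) *
      y ^ P.natDegree)) * ∏ P ∈ pr F I, (1 - algebraMap ℂ A (jac P (∏ P ∈ S₀, P)) *
        y ^ P.natDegree) = (∏ P ∈ pr F I, (1 - (y ^ 2) ^ P.natDegree)) *
      ((∏ P ∈ pr F I, if P ∈ S₀ then rho I y P.natDegree else 1) *
        ∏ P ∈ pr F I, if P ∈ S₁ then rho I y P.natDegree *
          (1 - algebraMap ℂ A (jac P (∏ P ∈ S₀, P)) * y ^ P.natDegree) else 1) := by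
    rw [← prod_mul_distrib, ← prod_mul_distrib, ← prod_mul_distrib]
    refine prod_congr rfl fun P hP => ?_
    have hr : rho I y P.natDegree * (1 - (y ^ P.natDegree) ^ 2) = 1 :=
      form1_gam hy (deg_pos (mem_pr.1 hP).2.1)
    have hx : jac P (∏ R ∈ S₀, R) ^ 2 = if P ∈ S₀ then 0 else 1 := by
      rw [(jac_cm P).prod S₀ m0, ← prod_pow, form1_sq_prod h0 hP]
    rw [← (jac_cm P).prod S₀ m0, form1_sq_prod h1' hP, pow_right_comm]
    by_cases p0 : P ∈ S₀
    · have p1 : P ∉ S₁ := fun h => (mem_sdiff.1 (h1 h)).2 p0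
      rw [if_pos p0] at hx
      rw [pow_eq_zero_iff two_ne_zero |>.1 hx, if_pos p0, if_neg p1, if_neg p1, zero_mul, map_zero]
      linear_combination -hr
    · rw [if_neg p0] at hx
      rw [if_neg p0]
      by_cases p1 : P ∈ S₁
      · rw [if_pos p1, if_pos p1, mul_zero, map_zero]
        linear_combination
          (-(1 - algebraMap ℂ A (jac P (∏ R ∈ S₀, R)) * y ^ P.natDegree)) * hr
      · have hx' : algebraMap ℂ A (jac P (∏ R ∈ S₀, R)) ^ 2 = 1 := by
          rw [← map_pow, hx, map_one]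
        rw [if_neg p1, if_neg p1, mul_one]
        linear_combination (-(y ^ P.natDegree) ^ 2) * hx'
  rw [prod_zeta hy2, prod_ite_mem, prod_ite_mem, inter_eq_right.2 h0, inter_eq_right.2 h1'] at key
  rw [sqF_gen hcm hy]
  have e2 : ∀ a b c d e : A, a * b = 1 → c * b = d * e → c = d * a * e := by
    intro a b c d e h1 h2
    linear_combination a * h2 - c * h1
  exact e2 _ _ _ _ _ e0 key

theorem dvd_Od {t : A} {U : Fin 4 → A} (hU : ∀ i, t ∣ U i) (M d : ℕ) :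
    t ^ d ∣ Od M (pw U d) := by
  have h : ∀ i, t ^ d ∣ pw U d i := fun i => pow_dvd_pow_of_dvd (hU i) d
  refine Dvd.dvd.mul_left ?_ _
  exact ((((h 0).add (h 1)).sub ((h 2).add (h 3))).sub (((h 2).add (h 3)).mul_left _)).add
    (((h 0).add (h 1)).mul_left _)

theorem form1_k (d : ℕ) : algebraMap ℂ A (1 + ((Q F : ℂ) ^ d)⁻¹)⁻¹ *
    (1 + algebraMap ℂ A ((Q F : ℂ) ^ d)⁻¹) = 1 := by
  have h : (1 + ((Q F : ℂ) ^ d)⁻¹) ≠ 0 := by
    have h1 : (0 : ℝ) < 1 + ((Q F : ℝ) ^ d)⁻¹ := by positivity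
    have h2 := Complex.ofReal_ne_zero.2 h1.ne'
    push_cast at h2
    exact h2
  rw [← map_one (algebraMap ℂ A), ← map_add, ← map_mul, inv_mul_cancel₀ h]

theorem prod_BP {M : ℕ} {U : Fin 4 → A} (hU : ∀ i, U i ^ (M + 1) = 0) :
    (1 - qA F A * U 0 ^ 2) * (1 - qA F A * U 1 ^ 2) * (1 - qA F A * (U 0 * U 1)) *
      ∏ P ∈ pr F M, (1 + algebraMap ℂ A (1 + ((Q F : ℂ) ^ P.natDegree)⁻¹)⁻¹ *
        Ev M (pw U P.natDegree)) = ∏ P ∈ pr F M, BP F P.natDegree (pw U P.natDegree) := by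
  have h2 : ∀ i, (U i ^ 2) ^ (M + 1) = 0 := fun i => by
    have := form1_nil (hU i) Nat.one_pos
    rwa [pow_one] at this
  have h3 : (U 0 * U 1) ^ (M + 1) = 0 := by rw [mul_pow, hU 0, zero_mul]
  rw [← prod_zeta (h2 0), ← prod_zeta (h2 1), ← prod_zeta h3, ← prod_mul_distrib,
    ← prod_mul_distrib, ← prod_mul_distrib]
  refine prod_congr rfl fun P hP => ?_
  have hd := deg_pos (mem_pr.1 hP).2.1
  have g0 := form1_gam (hU 0) hd
  have g1 := form1_gam (hU 1) hd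
  have hk := form1_k (F := F) (A := A) P.natDegree
  rw [pow_right_comm (U 0), pow_right_comm (U 1), mul_pow, BP, Ev]
  simp only [pw]
  generalize algebraMap ℂ A (1 + ((Q F : ℂ) ^ P.natDegree)⁻¹)⁻¹ = k at *
  generalize algebraMap ℂ A ((Q F : ℂ) ^ P.natDegree)⁻¹ = p at *
  generalize U 0 ^ P.natDegree = a at *
  generalize U 1 ^ P.natDegree = b at *
  generalize U 2 ^ P.natDegree = c at *
  generalize U 3 ^ P.natDegree = e at *
  generalize gam M (a ^ 2) = ga at *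
  generalize gam M (b ^ 2) = gb at *
  linear_combination (k * (1 + a * b + c * e - (a + b) * (c + e) + a * b * (c * e)) * (1 - a * b)) *
    ((gb * (1 - b ^ 2)) * g0 + g1) - ((1 - a ^ 2) * (1 - b ^ 2) * (1 - a * b)) * hk

end Pool.Agent.MP_dd7250_nt

end

section

/- Extraction of coefficients. -/

set_option autoImplicit false

namespace Pool.Agent.MP_dd7250_nt

open Polynomial Finset Pool.Agent.MP_d232b3_nt
open scoped Classical

variable {F : Type*} [Field F] [Fintype F]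

theorem an1_orth {K : ℕ} {ω : ℂ} (hω : IsPrimitiveRoot ω K) {a n : ℕ} (ha : a < K)
    (hn : n < K) :
    ∑ j ∈ range K, (ω ^ (a + (K - n))) ^ j = if a = n then (K : ℂ) else 0 := by
  split_ifs with h
  · subst h
    rw [Nat.add_sub_cancel' ha.le, hω.pow_eq_one]
    simp
  · have h1 : ω ^ (a + (K - n)) ≠ 1 := by
      intro h1
      obtain ⟨c, hc⟩ := (hω.pow_eq_one_iff_dvd _).1 h1
      rcases c with _ | _ | c
      · omega
      · omega
      · have : K * (c + 1 + 1) = K * c + K + K := by ring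
        omega
    have h2 : (ω ^ (a + (K - n))) ^ K = 1 := by
      rw [← pow_mul, mul_comm, pow_mul, hω.pow_eq_one, one_pow]
    have h3 := geom_sum_mul (ω ^ (a + (K - n))) K
    rw [h2, sub_self] at h3
    exact (mul_eq_zero.1 h3).resolve_right (sub_ne_zero.2 h1)

theorem extract_fam {ι : Type*} (s : Finset ι) (w : ι → ℂ) (e : ι → ℕ) {r B : ℝ} (hr : 0 < r)
    (h : ∀ z : ℂ, ‖z‖ = r → ‖∑ i ∈ s, w i * z ^ e i‖ ≤ B) (n : ℕ) :
    ‖∑ i ∈ s with e i = n, w i‖ * r ^ n ≤ B := by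
  obtain ⟨K, hKn, hKe⟩ : ∃ K : ℕ, n < K ∧ ∀ i ∈ s, e i < K :=
    ⟨s.sup e + n + 1, by omega, fun i hi => by
      have := Finset.le_sup (f := e) hi
      omega⟩
  have hK0 : K ≠ 0 := by omega
  obtain ⟨ω, hω⟩ : ∃ ω : ℂ, IsPrimitiveRoot ω K := ⟨_, Complex.isPrimitiveRoot_exp K hK0⟩
  have hn1 : ‖ω‖ = 1 := hω.norm'_eq_one hK0
  have key : ∑ j ∈ range K, (ω ^ (K - n)) ^ j * ∑ i ∈ s, w i * ((r : ℂ) * ω ^ j) ^ e i =
      (K : ℂ) * ((∑ i ∈ s with e i = n, w i) * (r : ℂ) ^ n) := by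
    have h1 : ∀ j ∈ range K, (ω ^ (K - n)) ^ j * ∑ i ∈ s, w i * ((r : ℂ) * ω ^ j) ^ e i =
        ∑ i ∈ s, w i * (r : ℂ) ^ e i * (ω ^ (e i + (K - n))) ^ j := by
      intro j _
      rw [mul_sum]
      refine sum_congr rfl fun i _ => ?_
      rw [pow_add, mul_pow, mul_pow, ← pow_mul ω j (e i), ← pow_mul ω (e i) j, mul_comm j (e i)]
      ring
    rw [sum_congr rfl h1, sum_comm, sum_filter, sum_mul, mul_sum]
    refine sum_congr rfl fun i hi => ?_
    rw [← mul_sum, an1_orth hω (hKe i hi) hKn]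
    split_ifs with hi'
    · rw [hi']; ring
    · simp
  have hle : ‖∑ j ∈ range K, (ω ^ (K - n)) ^ j * ∑ i ∈ s, w i * ((r : ℂ) * ω ^ j) ^ e i‖ ≤
      K * B := by
    refine (norm_sum_le _ _).trans ?_
    have : ∀ j ∈ range K,
        ‖(ω ^ (K - n)) ^ j * ∑ i ∈ s, w i * ((r : ℂ) * ω ^ j) ^ e i‖ ≤ B := by
      intro j _
      rw [norm_mul, norm_pow, norm_pow, hn1, one_pow, one_pow, one_mul]
      refine h _ ?_
      rw [norm_mul, norm_pow, hn1, one_pow, mul_one, Complex.norm_real, Real.norm_of_nonneg hr.le]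
    refine (sum_le_sum this).trans ?_
    simp
  rw [key, norm_mul, norm_mul, norm_pow, Complex.norm_real, Real.norm_of_nonneg hr.le,
    Complex.norm_natCast] at hle
  have hKpos : (0 : ℝ) < K := by exact_mod_cast Nat.pos_of_ne_zero hK0
  exact le_of_mul_le_mul_left hle hKpos

theorem extract1 (p : ℂ[X]) {r B : ℝ} (hr : 0 < r)
    (h : ∀ z : ℂ, ‖z‖ = r → ‖aeval z p‖ ≤ B) (n : ℕ) : ‖p.coeff n‖ * r ^ n ≤ B := by
  have h1 := extract_fam (range (p.natDegree + n + 1)) p.coeff id hr (B := B) (fun z hz => by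
    have h2 := h z hz
    rw [coe_aeval_eq_eval, eval_eq_sum_range' (n := p.natDegree + n + 1) (by omega)] at h2
    exact h2) n
  have h2 : (range (p.natDegree + n + 1)).filter (fun i => id i = n) = {n} := by
    ext i
    simp only [mem_filter, mem_range, id, mem_singleton]
    omega
  rwa [h2, sum_singleton] at h1

theorem extract2 (p : ℂ[X][X]) {r₁ r₂ B : ℝ} (hr₁ : 0 < r₁) (hr₂ : 0 < r₂)
    (h : ∀ t y : ℂ, ‖t‖ = r₁ → ‖y‖ = r₂ → ‖aevalAeval t y p‖ ≤ B) (N m : ℕ) :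
    ‖(p.coeff N).coeff m‖ * r₁ ^ m * r₂ ^ N ≤ B := by
  have hp : 0 < r₂ ^ N := pow_pos hr₂ N
  rw [← le_div_iff₀ hp]
  refine extract1 (p.coeff N) hr₁ (fun t ht => ?_) m
  rw [le_div_iff₀ hp]
  have h1 := extract1 (p.map (evalRingHom t)) hr₂ (B := B) (fun y hy => by
    have h2 := h t y ht hy
    rw [coe_aevalAeval_eq_evalEval, ← map_evalRingHom_eval] at h2
    rw [coe_aeval_eq_eval]
    exact h2) N
  rw [coeff_map, coe_evalRingHom] at h1
  rw [coe_aeval_eq_eval]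
  exact h1

theorem transfer1 (p p' : ℂ[X]) (M : ℕ)
    (h : ∀ (A : Type) [CommRing A] [Algebra ℂ A] (φ : ℂ[X] →ₐ[ℂ] A),
      φ X ^ (M + 1) = 0 → φ p = φ p') {m : ℕ} (hm : m ≤ M) : p.coeff m = p'.coeff m := by
  have h1 := h (ℂ[X] ⧸ Ideal.span {(X : ℂ[X]) ^ (M + 1)})
    (Ideal.Quotient.mkₐ ℂ (Ideal.span {(X : ℂ[X]) ^ (M + 1)})) (by
      rw [← map_pow, Ideal.Quotient.mkₐ_eq_mk, Ideal.Quotient.eq_zero_iff_mem]
      exact Ideal.mem_span_singleton_self _)
  rw [Ideal.Quotient.mkₐ_eq_mk, Ideal.Quotient.eq, Ideal.mem_span_singleton, X_pow_dvd_iff] at h1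
  have h2 := h1 m (by omega)
  rwa [coeff_sub, sub_eq_zero] at h2

theorem transfer2 (p p' : ℂ[X][X]) (M I : ℕ)
    (h : ∀ (A : Type) [CommRing A] [Algebra ℂ A] (φ : ℂ[X][X] →ₐ[ℂ] A),
      φ (C X) ^ (M + 1) = 0 → φ X ^ (I + 1) = 0 → φ p = φ p') {N m : ℕ} (hN : N ≤ I)
    (hm : m ≤ M) : (p.coeff N).coeff m = (p'.coeff N).coeff m := by
  have h1 := h (ℂ[X][X] ⧸ Ideal.span {(C X : ℂ[X][X]) ^ (M + 1), (X : ℂ[X][X]) ^ (I + 1)})
    (Ideal.Quotient.mkₐ ℂ (Ideal.span {(C X : ℂ[X][X]) ^ (M + 1), (X : ℂ[X][X]) ^ (I + 1)}))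
    (by
      rw [← map_pow (Ideal.Quotient.mkₐ ℂ _), Ideal.Quotient.mkₐ_eq_mk,
        Ideal.Quotient.eq_zero_iff_mem]
      exact Ideal.subset_span (by simp))
    (by
      rw [← map_pow (Ideal.Quotient.mkₐ ℂ _), Ideal.Quotient.mkₐ_eq_mk,
        Ideal.Quotient.eq_zero_iff_mem]
      exact Ideal.subset_span (by simp))
  rw [Ideal.Quotient.mkₐ_eq_mk, Ideal.Quotient.eq, Ideal.mem_span_pair] at h1
  obtain ⟨a, b, hab⟩ := h1
  have h2 := congrArg (fun q : ℂ[X][X] => (q.coeff N).coeff m) hab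
  simp only [coeff_add, coeff_sub] at h2
  rw [← C_pow, coeff_mul_C, coeff_mul_X_pow', coeff_mul_X_pow', if_neg (by omega),
    if_neg (by omega), coeff_zero, add_zero] at h2
  exact sub_eq_zero.1 h2.symm

theorem poly_limit (p : ℕ → ℂ[X]) (α : ℕ → ℂ) {r B : ℝ} (hr : 1 < r)
    (h : ∀ M, ∀ z : ℂ, ‖z‖ = r → ‖aeval z (p M)‖ ≤ B)
    (hα : ∀ m M, m ≤ M → (p M).coeff m = α m) :
    Summable α ∧ Filter.Tendsto (fun M => aeval (1 : ℂ) (p M)) Filter.atTop (nhds (∑' m, α m)) := by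
  have hr0 : 0 < r := zero_lt_one.trans hr
  have hb : ∀ M m, ‖(p M).coeff m‖ ≤ B * r⁻¹ ^ m := by
    intro M m
    rw [inv_pow, ← div_eq_mul_inv, le_div_iff₀ (pow_pos hr0 m)]
    exact extract1 (p M) hr0 (h M) m
  have hs : Summable fun m : ℕ => B * r⁻¹ ^ m :=
    (summable_geometric_of_lt_one (inv_nonneg.2 hr0.le) (inv_lt_one_of_one_lt₀ hr)).mul_left B
  refine ⟨Summable.of_norm_bounded hs fun m => ?_, ?_⟩
  · rw [← hα m m le_rfl]
    exact hb m m
  · have h1 : ∀ M, aeval (1 : ℂ) (p M) = ∑' m, (p M).coeff m := by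
      intro M
      rw [coe_aeval_eq_eval, eval_eq_sum_range,
        tsum_eq_sum (s := range ((p M).natDegree + 1))]
      · simp
      · intro m hm
        exact coeff_eq_zero_of_natDegree_lt (by simpa using hm)
    simp only [h1]
    refine tendsto_tsum_of_dominated_convergence hs (fun m => ?_)
      (Filter.Eventually.of_forall hb)
    refine tendsto_const_nhds.congr' ?_
    filter_upwards [Filter.eventually_ge_atTop m] with M hM
    exact (hα m M hM).symm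

end Pool.Agent.MP_dd7250_nt

end

section

/- Convergent power series and the solution of the recurrence. -/

set_option autoImplicit false

namespace Pool.Agent.MP_dd7250_nt

open Polynomial Finset Pool.Agent.MP_d232b3_nt
open scoped Classical

variable {F : Type*} [Field F] [Fintype F]

theorem an2_coeff (z : ℂ) (f g : PowerSeries ℂ) (n : ℕ) :
    PowerSeries.coeff n (f * g) * z ^ n = ∑ p ∈ antidiagonal n,
      PowerSeries.coeff p.1 f * z ^ p.1 * (PowerSeries.coeff p.2 g * z ^ p.2) := by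
  rw [PowerSeries.coeff_mul, sum_mul]
  refine sum_congr rfl fun p hp => ?_
  rw [← mem_antidiagonal.1 hp]
  ring

theorem an2_step {δ Θ B : ℝ} (hδ : 0 < δ) (hΘ : 0 < Θ) {l : ℂ} (hl : (1 + δ) * Θ ≤ ‖l‖)
    {H : PowerSeries ℂ} (h : ∀ g, ‖PowerSeries.coeff g H‖ ≤ B * Θ ^ g) :
    ∃ (c : ℂ) (H1 : PowerSeries ℂ),
      H = PowerSeries.C c + (1 - PowerSeries.C l * PowerSeries.X) * H1 ∧
      ∀ g, ‖PowerSeries.coeff g H1‖ ≤ B / δ * Θ ^ g := by
  have hB : 0 ≤ B := by simpa using (norm_nonneg _).trans (h 0)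
  have hl0 : 0 < ‖l‖ := lt_of_lt_of_le (by positivity) hl
  have hl1 : l ≠ 0 := norm_pos_iff.1 hl0
  have hr0 : 0 ≤ (1 + δ)⁻¹ := by positivity
  have hr1 : (1 + δ)⁻¹ < 1 := inv_lt_one_of_one_lt₀ (by linarith)
  have hb : ∀ g j, ‖PowerSeries.coeff (j + (g + 1)) H * l⁻¹ ^ (j + 1)‖ ≤
      B * Θ ^ g * (1 + δ)⁻¹ * (1 + δ)⁻¹ ^ j := fun g j => by
    have h1 : Θ * ‖l‖⁻¹ ≤ (1 + δ)⁻¹ := by
      rw [mul_inv_le_iff₀ hl0, le_inv_mul_iff₀ (by positivity)]
      exact hl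
    have h2 := pow_le_pow_left₀ (by positivity) h1 (j + 1)
    rw [norm_mul, norm_pow, norm_inv]
    calc _ ≤ B * Θ ^ (j + (g + 1)) * ‖l‖⁻¹ ^ (j + 1) :=
          mul_le_mul_of_nonneg_right (h _) (by positivity)
      _ = B * Θ ^ g * (Θ * ‖l‖⁻¹) ^ (j + 1) := by ring
      _ ≤ B * Θ ^ g * (1 + δ)⁻¹ ^ (j + 1) := mul_le_mul_of_nonneg_left h2 (by positivity)
      _ = _ := by ring
  have hs : ∀ g, HasSum (fun j => B * Θ ^ g * (1 + δ)⁻¹ * (1 + δ)⁻¹ ^ j) (B / δ * Θ ^ g) :=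
    fun g => by
      have h1 := (hasSum_geometric_of_lt_one hr0 hr1).mul_left (B * Θ ^ g * (1 + δ)⁻¹)
      have h2 : 1 - (1 + δ)⁻¹ = δ / (1 + δ) := by
        field_simp
        ring
      have h3 : B * Θ ^ g * (1 + δ)⁻¹ * (1 - (1 + δ)⁻¹)⁻¹ = B / δ * Θ ^ g := by
        rw [h2]
        field_simp
      exact h3 ▸ h1
  have hsm : ∀ g, Summable fun j => PowerSeries.coeff (j + (g + 1)) H * l⁻¹ ^ (j + 1) :=
    fun g => Summable.of_norm_bounded (hs g).summable (hb g)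
  set u : ℕ → ℂ := fun g => -∑' j, PowerSeries.coeff (j + (g + 1)) H * l⁻¹ ^ (j + 1) with hu
  refine ⟨PowerSeries.coeff 0 H - u 0, PowerSeries.mk u, ?_, fun g => ?_⟩
  · ext n
    rw [sub_mul, one_mul, mul_assoc]
    cases n with
    | zero => simp
    | succ n =>
      rw [map_add, PowerSeries.coeff_C, if_neg n.succ_ne_zero, map_sub, PowerSeries.coeff_C_mul,
        PowerSeries.coeff_succ_X_mul, PowerSeries.coeff_mk, PowerSeries.coeff_mk]
      simp only [hu]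
      rw [(hsm n).tsum_eq_zero_add]
      have : ∀ j, PowerSeries.coeff (j + 1 + (n + 1)) H * l⁻¹ ^ (j + 1 + 1) =
          l⁻¹ * (PowerSeries.coeff (j + (n + 1 + 1)) H * l⁻¹ ^ (j + 1)) := fun j => by
        rw [show j + 1 + (n + 1) = j + (n + 1 + 1) by ring]
        ring
      simp only [this, tsum_mul_left, zero_add, pow_one]
      field_simp
      ring
  · rw [PowerSeries.coeff_mk, hu, norm_neg]
    exact tsum_of_norm_bounded (hs g) (hb g)

theorem Sm.mul {z : ℂ} {f g : PowerSeries ℂ} (hf : Sm z f) (hg : Sm z g) : Sm z (f * g) := by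
  have := summable_norm_sum_mul_antidiagonal_of_summable_norm hf hg
  simpa only [Sm, an2_coeff] using this

theorem evs_mul {z : ℂ} {f g : PowerSeries ℂ} (hf : Sm z f) (hg : Sm z g) :
    evs z (f * g) = evs z f * evs z g := by
  rw [evs, evs, evs, tsum_mul_tsum_eq_tsum_sum_antidiagonal_of_summable_norm hf hg]
  simp only [an2_coeff]

theorem Sm.add {z : ℂ} {f g : PowerSeries ℂ} (hf : Sm z f) (hg : Sm z g) : Sm z (f + g) := by
  refine Summable.of_nonneg_of_le (fun _ => norm_nonneg _) (fun n => ?_) (Summable.add hf hg)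
  rw [map_add, add_mul]
  exact norm_add_le _ _

theorem evs_add {z : ℂ} {f g : PowerSeries ℂ} (hf : Sm z f) (hg : Sm z g) :
    evs z (f + g) = evs z f + evs z g := by
  rw [evs, evs, evs, ← Summable.tsum_add hf.of_norm hg.of_norm]
  simp only [map_add, add_mul]

theorem Sm_coe (z : ℂ) (p : ℂ[X]) : Sm z (p : PowerSeries ℂ) := by
  refine summable_of_ne_finset_zero (s := range (p.natDegree + 1)) fun n hn => ?_
  rw [Polynomial.coeff_coe, coeff_eq_zero_of_natDegree_lt (by simpa using hn), zero_mul, norm_zero]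

theorem evs_coe (z : ℂ) (p : ℂ[X]) : evs z (p : PowerSeries ℂ) = p.eval z := by
  rw [evs, tsum_eq_sum (s := range (p.natDegree + 1)), eval_eq_sum_range]
  · simp only [Polynomial.coeff_coe]
  · intro n hn
    rw [Polynomial.coeff_coe, coeff_eq_zero_of_natDegree_lt (by simpa using hn), zero_mul]

theorem Sm_of_bound {z : ℂ} {f : PowerSeries ℂ} {B Θ : ℝ} (hΘ : 0 ≤ Θ) (hz : Θ * ‖z‖ < 1)
    (h : ∀ n, ‖PowerSeries.coeff n f‖ ≤ B * Θ ^ n) : Sm z f := by
  refine Summable.of_nonneg_of_le (fun _ => norm_nonneg _) (fun n => ?_)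
    ((summable_geometric_of_lt_one (by positivity) hz).mul_left B)
  rw [norm_mul, norm_pow, mul_pow, ← mul_assoc]
  exact mul_le_mul_of_nonneg_right (h n) (by positivity)

theorem Sm.hasSum {z : ℂ} {f : PowerSeries ℂ} (hf : Sm z f) :
    HasSum (fun n => PowerSeries.coeff n f * z ^ n) (evs z f) := by
  exact (Summable.of_norm hf).hasSum

theorem solve4 {δ : ℝ} (hδ : 0 < δ) : ∃ K : ℝ, ∀ (Θ B : ℝ) (l : Fin 4 → ℂ)
    (W H : PowerSeries ℂ), 0 < Θ → Function.Injective l → (∀ i, (1 + δ) * Θ ≤ ‖l i‖) →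
    (∏ i, (1 - PowerSeries.C (l i) * PowerSeries.X)) * W = H →
    (∀ g, ‖PowerSeries.coeff g H‖ ≤ B * Θ ^ g) → ∀ g, ‖PowerSeries.coeff g W -
      ∑ i, evs (l i)⁻¹ H / (∏ j ∈ univ.erase i, (1 - l j / l i)) * l i ^ g‖ ≤ K * B * Θ ^ g := by
  refine ⟨(δ ^ 4)⁻¹, fun Θ B l W H hΘ hl hΘl hW hH g => ?_⟩
  have hl0 : ∀ i, l i ≠ 0 := fun i => norm_pos_iff.1 (lt_of_lt_of_le (by positivity) (hΘl i))
  have hz : ∀ i, Θ * ‖(l i)⁻¹‖ < 1 := fun i => by
    rw [norm_inv, mul_inv_lt_iff₀ (norm_pos_iff.2 (hl0 i)), one_mul]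
    nlinarith [hΘl i]
  obtain ⟨c0, H1, e0, b1⟩ := an2_step hδ hΘ (hΘl 0) hH
  obtain ⟨c1, H2, e1, b2⟩ := an2_step hδ hΘ (hΘl 1) b1
  obtain ⟨c2, H3, e2, b3⟩ := an2_step hδ hΘ (hΘl 2) b2
  obtain ⟨c3, H4, e3, b4⟩ := an2_step hδ hΘ (hΘl 3) b3
  set φ : Fin 4 → ℂ[X] := fun i => 1 - C (l i) * X with hφ
  have hd : ∀ i, (φ i).natDegree ≤ 1 := fun i => by
    simp only [hφ]
    compute_degree
  have hc : ∀ i, ((φ i : ℂ[X]) : PowerSeries ℂ) = 1 - PowerSeries.C (l i) * PowerSeries.X :=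
    fun i => by simp [hφ]
  have hcp : ∀ s : Finset (Fin 4), ((∏ i ∈ s, φ i : ℂ[X]) : PowerSeries ℂ) =
      ∏ i ∈ s, (1 - PowerSeries.C (l i) * PowerSeries.X) := fun s => by
    rw [← Polynomial.coeToPowerSeries.ringHom_apply, map_prod]
    simp only [Polynomial.coeToPowerSeries.ringHom_apply, hc]
  set R : ℂ[X] := C c0 + φ 0 * (C c1 + φ 1 * (C c2 + φ 2 * C c3)) with hR
  have hRd : R.natDegree ≤ 3 := by
    simp only [hR, hφ]
    compute_degree
  have hHR : H = (R : PowerSeries ℂ) + ((∏ i, φ i : ℂ[X]) : PowerSeries ℂ) * H4 := by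
    rw [hcp, Fin.prod_univ_four, e0, e1, e2, e3, hR]
    simp only [Polynomial.coe_add, Polynomial.coe_mul, hc, Polynomial.coe_C]
    ring
  have hev : ∀ i, (φ i).eval (l i)⁻¹ = 0 := fun i => by simp [hφ, hl0 i]
  have hval : ∀ i, evs (l i)⁻¹ H = R.eval (l i)⁻¹ := fun i => by
    have h4 := Sm_of_bound hΘ.le (hz i) b4
    rw [hHR, evs_add (Sm_coe _ _) ((Sm_coe _ _).mul h4), evs_mul (Sm_coe _ _) h4, evs_coe,
      evs_coe, eval_prod, prod_eq_zero (mem_univ i) (hev i), zero_mul, add_zero]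
  set c : Fin 4 → ℂ := fun i => evs (l i)⁻¹ H / ∏ j ∈ univ.erase i, (1 - l j / l i) with hcc
  have hRS : R = ∑ i, C (c i) * ∏ j ∈ univ.erase i, φ j := by
    refine eq_of_natDegree_lt_card_of_eval_eq _ _ (f := fun i => (l i)⁻¹)
      (fun i j h => hl (inv_injective h)) (fun k => ?_) ?_
    · rw [eval_finsetSum, sum_eq_single k]
      · have hne : ∏ j ∈ univ.erase k, (1 - l j / l k) ≠ 0 := prod_ne_zero_iff.2 fun j hj h =>
          (mem_erase.1 hj).1 (hl ((div_eq_one_iff_eq (hl0 k)).1 (sub_eq_zero.1 h).symm))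
        rw [eval_mul, eval_C, eval_prod, ← hval, hcc]
        simp only [hφ, eval_sub, eval_one, eval_mul, eval_C, eval_X, ← div_eq_mul_inv]
        rw [div_mul_cancel₀ _ hne]
      · intro i _ hik
        rw [eval_mul, eval_prod, prod_eq_zero (mem_erase.2 ⟨hik.symm, mem_univ k⟩) (hev k),
          mul_zero]
      · simp
    · rw [Fintype.card_fin, max_lt_iff]
      refine ⟨by omega, Nat.lt_succ_of_le (natDegree_sum_le_of_forall_le _ _ fun i _ => ?_)⟩
      refine (natDegree_C_mul_le _ _).trans ((natDegree_prod_le _ _).trans ?_)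
      refine (sum_le_card_nsmul _ _ 1 fun j _ => hd j).trans ?_
      simp
  have hΦ : (∏ i, (1 - PowerSeries.C (l i) * PowerSeries.X) : PowerSeries ℂ) ≠ 0 := by
    refine prod_ne_zero_iff.2 fun i _ h => ?_
    have := geo_mul (l i)
    rw [h, mul_zero] at this
    exact zero_ne_one this
  have hWe : W = ∑ i, PowerSeries.C (c i) * geo (l i) + H4 := by
    refine mul_left_cancel₀ hΦ ?_
    rw [hW, hHR, mul_add, hcp, hRS, mul_sum, ← Polynomial.coeToPowerSeries.ringHom_apply, map_sum]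
    congr 1
    refine sum_congr rfl fun i _ => ?_
    rw [Polynomial.coeToPowerSeries.ringHom_apply, Polynomial.coe_mul, Polynomial.coe_C, hcp,
      ← mul_prod_erase univ _ (mem_univ i)]
    linear_combination (-(PowerSeries.C (c i) *
      ∏ j ∈ univ.erase i, (1 - PowerSeries.C (l j) * PowerSeries.X))) * geo_mul (l i)
  have hg : PowerSeries.coeff g W - ∑ i, c i * l i ^ g = PowerSeries.coeff g H4 := by
    rw [hWe, map_add, map_sum]
    simp [geo]
  rw [hg]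
  refine (b4 g).trans_eq ?_
  field_simp

end Pool.Agent.MP_dd7250_nt

end

section

/- Equidistribution of squarefree D in residue classes. -/

set_option autoImplicit false

namespace Pool.Agent.MP_dd7250_nt

open Polynomial Finset Pool.Agent.MP_d232b3_nt
open scoped Classical

variable {F : Type*} [Field F] [Fintype F]

theorem blim_tr (b : ℕ → ℂ) (p r : ℂ[X]) (I₀ : ℕ)
    (h : ∀ I, I₀ ≤ I → ∀ (A : Type) [CommRing A] [Algebra ℂ A] (y : A), y ^ (I + 1) = 0 →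
      aeval y p * ∑ N ∈ range (I + 1), y ^ N * algebraMap ℂ A (b N) = aeval y r) :
    (p : PowerSeries ℂ) * PowerSeries.mk b = r := by
  ext n
  obtain ⟨I, h1, h2⟩ : ∃ I, I₀ ≤ I ∧ n ≤ I := ⟨max I₀ n, le_max_left _ _, le_max_right _ _⟩
  have h3 := transfer1 (p * ∑ N ∈ range (I + 1), X ^ N * C (b N)) r I (fun A _ _ φ hφ => by
    have e : ∀ s : ℂ[X], φ s = aeval (φ X) s := fun s => by
      rw [aeval_algHom_apply, aeval_X_left, AlgHom.id_apply]
    rw [e r, ← h I h1 A (φ X) hφ, map_mul, e p, map_sum]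
    refine congrArg _ (sum_congr rfl fun N _ => ?_)
    rw [map_mul, map_pow, ← φ.commutes (b N)]
    rfl) h2
  rw [coeff_coe, ← h3, PowerSeries.coeff_mul, coeff_mul]
  refine sum_congr rfl fun ij hij => ?_
  have h4 : ij.2 ≤ I := by have := mem_antidiagonal.1 hij; omega
  rw [coeff_coe, PowerSeries.coeff_mk, finsetSum_coeff]
  simp only [coeff_mul_C, coeff_X_pow, ite_mul, one_mul, zero_mul]
  rw [sum_ite_eq, if_pos (mem_range.2 (by omega))]

theorem blim_rec (q : ℂ) (b : ℕ → ℂ) (n : ℕ) :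
    PowerSeries.coeff (n + 1) (((1 - C q * X : ℂ[X]) : PowerSeries ℂ) * PowerSeries.mk b) =
      b (n + 1) - q * b n := by
  simp [sub_mul, mul_assoc, PowerSeries.coeff_succ_X_mul]

theorem blim_rec0 (q : ℂ) (b : ℕ → ℂ) :
    PowerSeries.coeff 0 (((1 - C q * X : ℂ[X]) : PowerSeries ℂ) * PowerSeries.mk b) = b 0 := by
  simp [sub_mul, mul_assoc]

theorem blim_step {z : ℂ} (hz : ‖z‖ < 1) {k : ℕ} (hk : 0 < k) {x : PowerSeries ℂ}
    (hx : Sm z (x * (1 - PowerSeries.X ^ k))) : Sm z x := by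
  obtain ⟨G, hG⟩ : ∃ G : PowerSeries ℂ, G = PowerSeries.mk fun n => if k ∣ n then 1 else 0 :=
    ⟨_, rfl⟩
  have h1 : G * (1 - PowerSeries.X ^ k) = 1 := by
    ext n
    rw [mul_sub, mul_one, map_sub, PowerSeries.coeff_mul_X_pow', PowerSeries.coeff_one, hG,
      PowerSeries.coeff_mk, PowerSeries.coeff_mk]
    by_cases h : k ≤ n
    · rw [if_pos h, if_neg (by omega : ¬ n = 0), sub_eq_zero]
      exact if_congr (Nat.dvd_sub_iff_left h dvd_rfl).symm rfl rfl
    · rw [if_neg h, sub_zero]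
      refine if_congr ⟨fun hd => ?_, fun hn => hn ▸ dvd_zero k⟩ rfl rfl
      exact Nat.eq_zero_of_dvd_of_lt hd (by omega)
  have h2 : Sm z G := Sm_of_bound (B := 1) (Θ := 1) zero_le_one (by rwa [one_mul]) fun n => by
    rw [hG, PowerSeries.coeff_mk]
    split_ifs <;> simp
  have h3 := hx.mul h2
  rwa [mul_assoc, mul_comm _ G, h1, mul_one] at h3

theorem blim_steps {ι : Type*} {z : ℂ} (hz : ‖z‖ < 1) (k : ι → ℕ) (S : Finset ι)
    (hk : ∀ i ∈ S, 0 < k i) {x : PowerSeries ℂ}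
    (hx : Sm z (x * ((∏ i ∈ S, (1 - X ^ k i) : ℂ[X]) : PowerSeries ℂ))) : Sm z x := by
  induction S using Finset.induction_on generalizing x with
  | empty => simpa using hx
  | insert a S ha ih =>
    rw [prod_insert ha, Polynomial.coe_mul, ← mul_assoc] at hx
    have h1 := ih (fun i hi => hk i (mem_insert_of_mem hi)) hx
    refine blim_step hz (hk a (mem_insert_self a S)) ?_
    simpa using h1

theorem blim_sum {q : ℂ} (hq : q ≠ 0) (b : ℕ → ℂ) (N : ℕ) :
    ∑ j ∈ range (N + 1), PowerSeries.coeff j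
      (((1 - C q * X : ℂ[X]) : PowerSeries ℂ) * PowerSeries.mk b) * q⁻¹ ^ j = b N * q⁻¹ ^ N := by
  induction N with
  | zero => rw [sum_range_one, blim_rec0]
  | succ N ih =>
    rw [sum_range_succ, ih, blim_rec, pow_succ]
    field_simp
    ring

theorem blim_lim {q : ℂ} (hq : q ≠ 0) (b : ℕ → ℂ)
    (h : Sm q⁻¹ (((1 - C q * X : ℂ[X]) : PowerSeries ℂ) * PowerSeries.mk b)) :
    Filter.Tendsto (fun g : ℕ => b (2 * g + 1) / q ^ (2 * g)) Filter.atTop
      (nhds (q * evs q⁻¹ (((1 - C q * X : ℂ[X]) : PowerSeries ℂ) * PowerSeries.mk b))) := by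
  have h1 : Filter.Tendsto (fun g : ℕ => 2 * g + 1 + 1) Filter.atTop Filter.atTop :=
    Filter.tendsto_atTop_mono (f := fun g : ℕ => g) (fun g => by omega) Filter.tendsto_id
  refine ((h.hasSum.tendsto_sum_nat.comp h1).const_mul q).congr fun g => ?_
  rw [Function.comp_apply, blim_sum hq, pow_succ, inv_pow]
  field_simp

theorem card_sqF {g : ℕ} (hg : 1 ≤ g) :
    ((sqF F (2 * g + 1)).card : ℂ) = (Q F - 1) * (Q F : ℂ) ^ (2 * g) := by
  have h := blim_tr (fun N => ∑ _D ∈ sqF F N, (1 : ℂ)) (1 - C (Q F : ℂ) * X)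
    (1 - C (Q F : ℂ) * X ^ 2) 0 fun I _ A _ _ y hy => by
      have h2 : (y ^ 2) ^ (I + 1) = 0 := by
        rw [← pow_mul, mul_comm, pow_mul, hy, zero_pow two_ne_zero]
      rw [sqF_gen (χ := fun _ : F[X] => 1) ⟨rfl, fun _ _ _ _ => (one_mul _).symm⟩ hy]
      simp only [map_sub, map_one, map_mul, aeval_X, map_pow, map_natCast, one_mul]
      rw [← prod_zeta (F := F) hy, ← prod_zeta (F := F) h2, ← prod_mul_distrib]
      exact prod_congr rfl fun P _ => by ring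
  have h0 := blim_rec0 (Q F : ℂ) fun N => ∑ _D ∈ sqF F N, (1 : ℂ)
  have h1 := blim_rec (Q F : ℂ) fun N => ∑ _D ∈ sqF F N, (1 : ℂ)
  rw [h] at h0 h1
  simp only [coeff_coe, coeff_sub, coeff_C_mul, coeff_X_pow, coeff_one, sum_const,
    nsmul_eq_mul, mul_one] at h0 h1
  have h2 : ∀ n, ((sqF F (n + 2)).card : ℂ) = (Q F - 1) * (Q F : ℂ) ^ (n + 1) := fun n => by
    induction n with
    | zero =>
      have e1 := h1 0
      have e2 := h1 1
      rw [if_neg (by omega), if_neg (by omega)] at e1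
      rw [if_neg (by omega), if_pos rfl] at e2
      rw [if_pos trivial, if_neg (by omega)] at h0
      simp only [zero_add] at e1 ⊢
      linear_combination -e2 - Q F * e1 - (Q F : ℂ) ^ 2 * h0
    | succ n ih =>
      have e := h1 (n + 2)
      rw [if_neg (by omega), if_neg (by omega), ih] at e
      rw [show n + 1 + 2 = n + 2 + 1 from rfl]
      linear_combination -e
  obtain ⟨k, rfl⟩ := Nat.exists_eq_add_of_le hg
  rw [show 2 * (1 + k) + 1 = 2 * k + 1 + 2 by ring, h2]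
  ring

theorem blim (hF : ringChar F ≠ 2) {M : ℕ} {S₀ S₁ : Finset F[X]} (h0 : S₀ ⊆ pr F M)
    (h1 : S₁ ⊆ pr F M \ S₀) :
    Filter.Tendsto (fun g : ℕ => (∑ D ∈ sqF F (2 * g + 1),
        (∏ P ∈ S₀, jac D P) * ∏ P ∈ S₁, jac D P ^ 2) / (Q F : ℂ) ^ (2 * g)) Filter.atTop
      (nhds (if S₀ = ∅ then (Q F - 1) * ∏ P ∈ S₁, (1 + ((Q F : ℂ) ^ P.natDegree)⁻¹)⁻¹
        else 0)) := by
  obtain ⟨m, hm⟩ : ∃ m, m = ∏ P ∈ S₀, P := ⟨_, rfl⟩
  obtain ⟨hm1, hm2, -, hm4⟩ := monic_sqfree_prod h0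
  rw [← hm] at hm1 hm2 hm4
  have hS₀ : ∀ P ∈ S₀, 0 < 2 * P.natDegree := fun P hP => by
    have := deg_pos (mem_pr.1 (h0 hP)).2.1
    omega
  have hS₁ : ∀ P ∈ S₁, 0 < 2 * P.natDegree := fun P hP => by
    have := deg_pos (mem_pr.1 (mem_sdiff.1 (h1 hP)).1).2.1
    omega
  obtain ⟨Λ, hΛ⟩ : ∃ Λ : ℂ[X], Λ = if S₀ = ∅ then 1 else
      (1 - C (Q F : ℂ) * X) * Lt (fun f => jac f m) m.natDegree X := ⟨_, rfl⟩
  obtain ⟨b, hb⟩ : ∃ b : ℕ → ℂ,
      b = fun N => ∑ D ∈ sqF F N, (∏ P ∈ S₀, jac D P) * ∏ P ∈ S₁, jac D P ^ 2 := ⟨_, rfl⟩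
  have h := blim_tr b ((1 - C (Q F : ℂ) * X) * ((∏ P ∈ S₀, (1 - X ^ (2 * P.natDegree))) *
      ∏ P ∈ S₁, (1 - X ^ (2 * P.natDegree))))
    ((1 - C (Q F : ℂ) * X ^ 2) * Λ * ∏ P ∈ S₁, (1 - C (jac P m) * X ^ P.natDegree))
    (max M m.natDegree) fun I hI A _ _ y hy => by
      have hMI : M ≤ I := (le_max_left _ _).trans hI
      have hrho : ∀ d, 0 < 2 * d → (1 - y ^ (2 * d)) * rho I y d = 1 := fun d hd => by
        rw [mul_comm, pow_mul', rho]
        refine gam_mul ?_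
        rw [← pow_mul, ← pow_mul, ← mul_assoc, pow_mul', hy, zero_pow (by omega)]
      have hL : (1 - qA F A * y) * Lt (fun f => jac f m) I y = aeval y Λ := by
        rw [hΛ]
        split_ifs with h
        · rw [hm4.2 h, map_one]
          exact (congrArg (fun χ : F[X] → ℂ => (1 - qA F A * y) * Lt χ I y)
            (funext fun f => (jac_cm f).one)).trans (Lt_one hy)
        · have hd : 0 < m.natDegree :=
            Nat.pos_of_ne_zero fun h' => h (hm4.1 (hm1.natDegree_eq_zero.1 h'))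
          rw [map_mul, map_Lt, aeval_X]
          simp only [map_sub, map_one, map_mul, aeval_X, map_natCast]
          refine congrArg _ (sum_subset (range_subset_range.2
            (Nat.succ_le_succ ((le_max_right _ _).trans hI))) fun n _ hn => ?_).symm
          rw [AA_vanish hF hm1 hm2 hd (by rw [mem_range] at hn; omega), map_zero, zero_mul]
      have e0 : (∏ P ∈ S₀, (1 - y ^ (2 * P.natDegree))) * ∏ P ∈ S₀, rho I y P.natDegree = 1 := by
        rw [← prod_mul_distrib]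
        exact prod_eq_one fun P hP => hrho _ (hS₀ P hP)
      have e1 : (∏ P ∈ S₁, (1 - y ^ (2 * P.natDegree))) * ∏ P ∈ S₁, rho I y P.natDegree *
          (1 - algebraMap ℂ A (jac P m) * y ^ P.natDegree) =
          ∏ P ∈ S₁, (1 - algebraMap ℂ A (jac P m) * y ^ P.natDegree) := by
        rw [← prod_mul_distrib]
        exact prod_congr rfl fun P hP => by rw [← mul_assoc, hrho _ (hS₁ P hP), one_mul]
      rw [hb, sieve_gen hF (h0.trans (pr_mono hMI))
        (h1.trans (sdiff_subset_sdiff (pr_mono hMI) subset_rfl)) hy, ← hm]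
      simp only [map_sub, map_one, map_mul, map_prod, aeval_X, aeval_C, map_pow, map_natCast]
      rw [← hL, ← e1]
      linear_combination (1 - qA F A * y) * (1 - qA F A * y ^ 2) * Lt (fun f => jac f m) I y *
        (∏ P ∈ S₁, (1 - y ^ (2 * P.natDegree))) * (∏ P ∈ S₁, rho I y P.natDegree *
          (1 - algebraMap ℂ A (jac P m) * y ^ P.natDegree)) * e0
  have hz : ‖(Q F : ℂ)⁻¹‖ < 1 := by
    rw [norm_inv, Complex.norm_natCast]
    exact inv_lt_one_of_one_lt₀ one_lt_Q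
  have hne : ∀ k, 0 < k → 1 - (Q F : ℂ)⁻¹ ^ k ≠ 0 := fun k hk e => by
    have h2 : ‖(Q F : ℂ)⁻¹ ^ k‖ < 1 := by
      rw [norm_pow]
      exact pow_lt_one₀ (norm_nonneg _) hz hk.ne'
    rw [← sub_eq_zero.1 e, norm_one] at h2
    exact lt_irrefl _ h2
  rw [Polynomial.coe_mul, mul_right_comm] at h
  have hx : Sm (Q F : ℂ)⁻¹ (((1 - C (Q F : ℂ) * X : ℂ[X]) : PowerSeries ℂ) *
      PowerSeries.mk b) := by
    refine blim_steps hz _ S₀ hS₀ (blim_steps hz _ S₁ hS₁ ?_)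
    rw [mul_assoc, ← Polynomial.coe_mul, h]
    exact Sm_coe _ _
  have h2 := evs_mul hx (Sm_coe _ ((∏ P ∈ S₀, (1 - X ^ (2 * P.natDegree))) *
      ∏ P ∈ S₁, (1 - X ^ (2 * P.natDegree))))
  rw [h, evs_coe, evs_coe] at h2
  simp only [eval_mul, eval_prod, eval_sub, eval_one, eval_pow, eval_X, eval_C] at h2
  have h3 := blim_lim Q_ne b hx
  convert h3 using 2
  · rw [hb]
  have n0 := prod_ne_zero_iff.2 fun P hP => hne _ (hS₀ P hP)
  have n1 := prod_ne_zero_iff.2 fun P hP => hne _ (hS₁ P hP)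
  refine mul_right_cancel₀ (mul_ne_zero n0 n1) ?_
  rw [mul_assoc (Q F : ℂ), ← h2, hΛ]
  split_ifs with h
  · rw [hm4.2 h, h, prod_empty, one_mul, eval_one, mul_one, mul_assoc, ← prod_mul_distrib,
      ← mul_assoc]
    refine congrArg₂ _ ?_ (prod_congr rfl fun P hP => ?_)
    · have := Q_ne (F := F)
      field_simp
    · have e := hne _ (hS₁ P hP)
      have e' : ∀ w : ℂ, 1 - w ^ 2 = (1 + w) * (1 - w) := fun w => by ring
      rw [pow_mul', e'] at e ⊢
      rw [(jac_cm P).one, ← inv_pow, ← mul_assoc, inv_mul_cancel₀ (left_ne_zero_of_mul e), one_mul,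
        one_mul]
  · rw [eval_mul, eval_sub, eval_mul, eval_C, eval_X, mul_inv_cancel₀ Q_ne, eval_one, sub_self]
    simp

end Pool.Agent.MP_dd7250_nt

end

section

/- From the generating function to the homogeneous parts. -/

set_option autoImplicit false

namespace Pool.Agent.MP_dd7250_nt

open Polynomial Finset Pool.Agent.MP_d232b3_nt
open scoped Classical

variable {F : Type*} [Field F] [Fintype F]
variable {A : Type*} [CommRing A] [Algebra ℂ A]

theorem link_Li_coeff (χ : F[X] → ℂ) (v : ℂ) {m I : ℕ} (hm : m ≤ I) :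
    (Li χ I (C v * X : ℂ[X])).coeff m = ainv χ m * v ^ m := by
  have h : ∀ n : ℕ, (algebraMap ℂ ℂ[X] (ainv χ n) * (C v * X) ^ n).coeff m =
      if m = n then ainv χ n * v ^ n else 0 := by
    intro n
    rw [Polynomial.algebraMap_apply, Algebra.algebraMap_self, RingHom.id_apply, mul_pow, ← C_pow,
      ← mul_assoc, ← C_mul, coeff_C_mul, coeff_X_pow]
    split_ifs <;> simp
  rw [Li, finsetSum_coeff]
  simp only [h]
  rw [sum_ite_eq, if_pos (mem_range.2 (by omega))]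

theorem link_beta (D : F[X]) (v₁ v₂ : ℂ) {m I : ℕ} (hm : m ≤ I) :
    (Li (jac D) I (C v₁ * X : ℂ[X]) * Li (jac D) I (C v₂ * X)).coeff m = beta v₁ v₂ m D := by
  rw [coeff_mul, beta]
  refine sum_congr rfl fun p hp => ?_
  have := mem_antidiagonal.1 hp
  rw [link_Li_coeff _ _ (by omega), link_Li_coeff _ _ (by omega)]

/-- The odd part of a polynomial, as a power series. -/
noncomputable def linkOdd {R : Type*} [CommRing R] (z : R[X]) : PowerSeries R :=
  PowerSeries.mk fun g => z.coeff (2 * g + 1)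

theorem link_odd_mul {R : Type*} [CommRing R] (c : R) (z : R[X]) :
    linkOdd ((1 - C c * X ^ 2) * z) = (1 - PowerSeries.C c * PowerSeries.X) * linkOdd z := by
  ext g
  rw [sub_mul, sub_mul, one_mul, one_mul, map_sub, linkOdd, linkOdd, PowerSeries.coeff_mk,
    PowerSeries.coeff_mk, coeff_sub, mul_assoc, mul_assoc, coeff_C_mul, PowerSeries.coeff_C_mul]
  congr 2
  cases g with
  | zero => rw [PowerSeries.coeff_zero_X_mul, coeff_X_pow_mul', if_neg (by omega)]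
  | succ g =>
    rw [PowerSeries.coeff_succ_X_mul, PowerSeries.coeff_mk,
      show 2 * (g + 1) + 1 = (2 * g + 1) + 2 by ring, coeff_X_pow_mul]

omit [Field F] in
theorem link_odd_Ph {R : Type*} [CommRing R] (a b : R) (z : R[X]) :
    linkOdd (Ph F (C a) (C b) (X ^ 2) * z) =
      Ph F (PowerSeries.C a) (PowerSeries.C b) PowerSeries.X * linkOdd z := by
  have h1 : Ph F (C a : R[X]) (C b) (X ^ 2) * z = (1 - C ((Q F : R) ^ 2) * X ^ 2) *
      ((1 - C ((Q F : R) ^ 3 * a ^ 2) * X ^ 2) * ((1 - C ((Q F : R) ^ 3 * b ^ 2) * X ^ 2) *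
        ((1 - C ((Q F : R) ^ 4 * a ^ 2 * b ^ 2) * X ^ 2) * z))) := by
    simp only [Ph, map_mul, map_pow, map_natCast]
    ring
  rw [h1, link_odd_mul, link_odd_mul, link_odd_mul, link_odd_mul]
  simp only [Ph, map_mul, map_pow, map_natCast]
  ring

theorem link_Zs_coeff (U : Fin 4 → A) {I N : ℕ} (hN : N ≤ I) :
    (Zs F I (fun i => (C (U i) : A[X])) X).coeff N = ∑ D ∈ sqF F N,
      Lt (jac D) I (U 0) * Lt (jac D) I (U 1) * (Li (jac D) I (U 2) * Li (jac D) I (U 3)) := by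
  have hLt : ∀ (χ : F[X] → ℂ) (z : A), Lt χ I (C z : A[X]) = C (Lt χ I z) := fun χ z =>
    (map_Lt (CAlgHom (R := ℂ) (A := A)) χ I z).symm
  have hLi : ∀ (χ : F[X] → ℂ) (z : A), Li χ I (C z : A[X]) = C (Li χ I z) := fun χ z =>
    (map_Li (CAlgHom (R := ℂ) (A := A)) χ I z).symm
  rw [Zs, finsetSum_coeff]
  simp only [hLt, hLi, ← C_mul, ← map_sum C]
  have h : ∀ (n : ℕ) (w : A), (X ^ n * C w : A[X]).coeff N = if N = n then w else 0 := by
    intro n w
    rw [mul_comm, coeff_C_mul, coeff_X_pow]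
    split_ifs <;> simp
  simp only [h]
  rw [sum_ite_eq, if_pos (mem_range.2 (by omega))]

theorem link_HW_smul (c : ℂ) (w : F[X] → ℂ) (U₀ U₁ : A) (g : ℕ) :
    HW (fun D => c * w D) U₀ U₁ g = algebraMap ℂ A c * HW w U₀ U₁ g := by
  simp only [HW, TW, PowerSeries.coeff_mul, PowerSeries.coeff_mk, mul_sum, map_mul]
  refine sum_congr rfl fun p _ => sum_congr rfl fun D _ => ?_
  ring

theorem link_beta_smul (m v₁ v₂ : ℂ) (k : ℕ) :
    beta (F := F) (m * v₁) (m * v₂) k = fun D => m ^ k * beta v₁ v₂ k D := by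
  funext D
  rw [beta, beta, mul_sum]
  refine sum_congr rfl fun p hp => ?_
  rw [← mem_antidiagonal.1 hp]
  ring

theorem link_rescale_C (c a : ℂ) :
    PowerSeries.rescale c (PowerSeries.C a) = PowerSeries.C a := by
  ext n
  rw [PowerSeries.coeff_rescale, PowerSeries.coeff_C]
  split_ifs with h
  · rw [h, pow_zero, one_mul]
  · rw [mul_zero]

theorem link0 (u : Fin 4 → ℂ) {M I : ℕ} (h1 : M ≤ I) (g : ℕ) :
    ∑ p ∈ antidiagonal M, ff F u p.1 p.2 g =
      (PowerSeries.coeff g (Ph F (PowerSeries.C (C (u 0) * X)) (PowerSeries.C (C (u 1) * X))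
        PowerSeries.X * PowerSeries.mk fun g => ∑ D ∈ sqF F (2 * g + 1),
          Lt (jac D) (2 * g) (C (u 0) * X : ℂ[X]) * Lt (jac D) (2 * g) (C (u 1) * X) *
            (Li (jac D) I (C (u 2) * X) * Li (jac D) I (C (u 3) * X)))).coeff M := by
  simp only [ff, HW, TW, PowerSeries.coeff_mul, PowerSeries.coeff_mk, finsetSum_coeff, mul_sum]
  rw [sum_comm]
  refine sum_congr rfl fun q _ => ?_
  rw [sum_comm]
  refine sum_congr rfl fun D _ => ?_
  rw [← mul_assoc, coeff_mul (_ * _) (_ * _)]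
  refine sum_congr rfl fun p hp => ?_
  have := mem_antidiagonal.1 hp
  rw [link_beta _ _ _ (by omega), mul_left_comm, Polynomial.algebraMap_apply, Algebra.algebraMap_self,
    RingHom.id_apply, coeff_C_mul, mul_comm]

theorem link (hF : ringChar F ≠ 2) (u : Fin 4 → ℂ) {M g I : ℕ} (h1 : M ≤ I)
    (h2 : 2 * g + 1 ≤ I) :
    ((Ph F (C (C (u 0) * X)) (C (C (u 1) * X)) (X ^ 2) *
      Zs F I (fun i => (C (C (u i) * X) : ℂ[X][X])) X).coeff (2 * g + 1)).coeff M =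
      ∑ p ∈ antidiagonal M, ff F u p.1 p.2 g := by
  rw [link0 u h1 g]
  refine congrArg (fun s : ℂ[X] => s.coeff M) ?_
  have h := congrArg (PowerSeries.coeff g) (link_odd_Ph (F := F) (C (u 0) * X : ℂ[X])
    (C (u 1) * X) (Zs F I (fun i => (C (C (u i) * X) : ℂ[X][X])) X))
  rw [linkOdd, PowerSeries.coeff_mk] at h
  rw [h, PowerSeries.coeff_mul, PowerSeries.coeff_mul]
  refine sum_congr rfl fun p hp => ?_
  have := mem_antidiagonal.1 hp
  rw [linkOdd, PowerSeries.coeff_mk, PowerSeries.coeff_mk,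
    link_Zs_coeff (fun i => (C (u i) * X : ℂ[X])) (by omega)]
  refine congrArg _ (sum_congr rfl fun D hD => ?_)
  rw [Lt_trunc hF hD (by omega), Lt_trunc hF hD (I := I) (by omega)]

theorem ff_smul (u : Fin 4 → ℂ) (l m : ℂ) (n k g : ℕ) :
    ff F ![l * u 0, l * u 1, m * u 2, m * u 3] n k g = l ^ n * m ^ k * ff F u n k g := by
  change (HW (F := F) (beta (m * u 2) (m * u 3) k) (C (l * u 0) * X : ℂ[X])
    (C (l * u 1) * X) g).coeff n = _
  have h : ∀ v : ℂ, (C (l * v) * X : ℂ[X]) = aeval (C l * X : ℂ[X]) (C v * X : ℂ[X]) := by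
    intro v
    simp only [map_mul, aeval_C, aeval_X, Polynomial.algebraMap_apply, Algebra.algebraMap_self,
      RingHom.id_apply]
    ring
  rw [link_beta_smul, link_HW_smul, h, h, ← map_HW, ← comp_eq_aeval, Polynomial.algebraMap_apply,
    Algebra.algebraMap_self, RingHom.id_apply, coeff_C_mul, comp_C_mul_X_coeff, ff]
  ring

theorem HW_comm (w : F[X] → ℂ) (U₀ U₁ : A) (g : ℕ) : HW w U₀ U₁ g = HW w U₁ U₀ g := by
  have h1 : TW w U₀ U₁ = TW w U₁ U₀ := by
    funext n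
    simp only [TW, mul_comm (Lt _ _ U₀)]
  have h2 : ∀ a b y : PowerSeries A, Ph F a b y = Ph F b a y := by
    intro a b y
    simp only [Ph]
    ring
  rw [HW, HW, h1, h2]

theorem HW_symm (hF : ringChar F ≠ 2) (w : F[X] → ℂ) {u₀ : ℂ} (h : u₀ ≠ 0) (u₁ : ℂ) (g : ℕ) :
    HW w u₀ u₁ g = (Q F * u₀ ^ 2) ^ g * HW w (Q F * u₀)⁻¹ u₁ g := by
  have hq : (Q F : ℂ) ≠ 0 := Q_ne
  have h1 : PowerSeries.mk (TW w u₀ u₁) =
      PowerSeries.rescale (Q F * u₀ ^ 2) (PowerSeries.mk (TW w (Q F * u₀)⁻¹ u₁)) := by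
    rw [PowerSeries.rescale_mk]
    congr 1
    funext n
    rw [TW, TW, mul_sum]
    refine sum_congr rfl fun D hD => ?_
    rw [Lt_symm hF hD h]
    ring
  have h2 : Ph F (PowerSeries.C u₀) (PowerSeries.C u₁) PowerSeries.X =
      PowerSeries.rescale (Q F * u₀ ^ 2)
        (Ph F (PowerSeries.C (Q F * u₀)⁻¹) (PowerSeries.C u₁) PowerSeries.X) := by
    have h3 : (PowerSeries.C (Q F * u₀)⁻¹ : PowerSeries ℂ) *
        ((Q F : PowerSeries ℂ) * PowerSeries.C u₀) = 1 := by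
      rw [← map_natCast (PowerSeries.C (R := ℂ)), ← map_mul, ← map_mul,
        inv_mul_cancel₀ (mul_ne_zero hq h), map_one]
    simp only [Ph, map_mul, map_sub, map_one, map_pow, map_natCast, link_rescale_C,
      PowerSeries.rescale_X]
    generalize (PowerSeries.C (Q F * u₀)⁻¹ : PowerSeries ℂ) = a at h3 ⊢
    have e1 : (Q F : PowerSeries ℂ) ^ 3 * a ^ 2 *
        ((Q F : PowerSeries ℂ) * PowerSeries.C u₀ ^ 2 * PowerSeries.X) =
        (Q F : PowerSeries ℂ) ^ 2 * PowerSeries.X := by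
      linear_combination ((Q F : PowerSeries ℂ) ^ 2 * PowerSeries.X *
        (a * ((Q F : PowerSeries ℂ) * PowerSeries.C u₀) + 1)) * h3
    have e2 : (Q F : PowerSeries ℂ) ^ 4 * a ^ 2 * PowerSeries.C u₁ ^ 2 *
        ((Q F : PowerSeries ℂ) * PowerSeries.C u₀ ^ 2 * PowerSeries.X) =
        (Q F : PowerSeries ℂ) ^ 3 * PowerSeries.C u₁ ^ 2 * PowerSeries.X := by
      linear_combination ((Q F : PowerSeries ℂ) * PowerSeries.C u₁ ^ 2) * e1
    rw [e1, e2]
    ring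
  rw [HW, HW, h1, h2, ← map_mul, PowerSeries.coeff_rescale]

theorem ff_symm (hF : ringChar F ≠ 2) {u : Fin 4 → ℂ} (h0 : u 0 ≠ 0) (h1 : u 1 ≠ 0)
    (n k g : ℕ) : ff F u n k g = if n ≤ 4 * g then (Q F * u 0 ^ 2) ^ g * (Q F * u 1 ^ 2) ^ g *
      ff F ![(Q F * u 0)⁻¹, (Q F * u 1)⁻¹, u 2, u 3] (4 * g - n) k g else 0 := by
  change (HW (F := F) (beta (u 2) (u 3) k) (C (u 0) * X : ℂ[X]) (C (u 1) * X) g).coeff n =
    if n ≤ 4 * g then (Q F * u 0 ^ 2) ^ g * (Q F * u 1 ^ 2) ^ g *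
      (HW (F := F) (beta (u 2) (u 3) k) (C (Q F * u 0)⁻¹ * X : ℂ[X])
        (C (Q F * u 1)⁻¹ * X) g).coeff (4 * g - n) else 0
  generalize beta (F := F) (u 2) (u 3) k = w
  have hev : ∀ (a b z : ℂ), eval z (HW w (C a * X : ℂ[X]) (C b * X) g) =
      HW w (a * z) (b * z) g := by
    intro a b z
    rw [← coe_aeval_eq_eval, map_HW]
    simp
  set p := HW w (C (u 0) * X : ℂ[X]) (C (u 1) * X) g with hp
  set r := HW w (C (Q F * u 0)⁻¹ * X : ℂ[X]) (C (Q F * u 1)⁻¹ * X) g with hr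
  set c : ℂ := (Q F * u 0 ^ 2) ^ g * (Q F * u 1 ^ 2) ^ g with hc
  have key : ∀ z : ℂ, z ≠ 0 → eval z p = c * z ^ (4 * g) * eval z⁻¹ r := by
    intro z hz
    rw [hp, hr, hev, hev, HW_symm hF w (mul_ne_zero h0 hz), HW_comm,
      HW_symm hF w (mul_ne_zero h1 hz), HW_comm, ← mul_inv, ← mul_inv, mul_assoc (Q F : ℂ),
      mul_assoc (Q F : ℂ), hc]
    simp only [mul_pow, ← pow_mul]
    ring
  have hpoly : X ^ (r.natDegree + 4 * g) * p =
      C c * (X ^ (4 * g) * reflect (r.natDegree + 4 * g) r) := by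
    refine eq_of_infinite_eval_eq _ _ (Set.Infinite.mono (s := {z : ℂ | z ≠ 0}) ?_ ?_)
    · intro z hz
      have hz' : z ≠ 0 := hz
      let _ : Invertible z⁻¹ := invertibleOfNonzero (inv_ne_zero hz')
      have h3 := eval₂_reflect_mul_pow (RingHom.id ℂ) z⁻¹ (r.natDegree + 4 * g) r (by omega)
      rw [invOf_eq_inv, inv_inv, eval₂_id, eval₂_id] at h3
      simp only [Set.mem_ofPred_eq, eval_mul, eval_pow, eval_X, eval_C]
      rw [key z hz', ← h3, inv_pow]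
      field_simp
    · exact (Set.finite_singleton (0 : ℂ)).infinite_compl
  have h4 := congrArg (fun s : ℂ[X] => s.coeff (n + (r.natDegree + 4 * g))) hpoly
  simp only [coeff_X_pow_mul, coeff_C_mul] at h4
  rw [h4, ← add_assoc, coeff_X_pow_mul, coeff_reflect]
  split_ifs with h5
  · rw [revAt_le (by omega)]
    congr 2
    omega
  · rw [revAt_eq_self_of_lt (by omega), coeff_eq_zero_of_natDegree_lt (by omega), mul_zero]

end Pool.Agent.MP_dd7250_nt

end
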