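import Mathlib
import Pool.Agent.Mg.F43e117.G54a7a4
import Pool.Agent.Mg.F43e117.G892fb5

section

/- The homogeneous parts of the first main term. -/

set_option autoImplicit false
set_option maxHeartbeats 400000

namespace Pool.Agent.MP_dd7250_nt

open Polynomial Finset Pool.Agent.MP_d232b3_nt Filter
open scoped Classical

variable {F : Type*} [Field F] [Fintype F]

/-- Coefficientwise convergence after normalisation. -/
def Cv (r : ℂ) (M : ℕ) (W : PowerSeries ℂ[X]) (x : ℂ[X]) : Prop :=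
  ∀ m ≤ M, Tendsto (fun g => (PowerSeries.coeff g W).coeff m * r ^ g) atTop (nhds (x.coeff m))

theorem hm_coeff_succ (c : ℂ[X]) (W : PowerSeries ℂ[X]) (g : ℕ) :
    PowerSeries.coeff (g + 1) ((1 - PowerSeries.C c * PowerSeries.X) * W) =
      PowerSeries.coeff (g + 1) W - c * PowerSeries.coeff g W := by
  rw [sub_mul, one_mul, map_sub, mul_assoc, PowerSeries.coeff_C_mul, PowerSeries.coeff_succ_X_mul]

theorem Cv.step {r : ℂ} {M : ℕ} {W : PowerSeries ℂ[X]} {x : ℂ[X]} (h : Cv r M W x) (c : ℂ[X]) :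
    Cv r M ((1 - PowerSeries.C c * PowerSeries.X) * W) ((1 - C r * c) * x) := by
  intro m hm
  rw [← tendsto_add_atTop_iff_nat 1]
  have h1 := (tendsto_add_atTop_iff_nat 1).2 (h m hm)
  have h2 : Tendsto (fun g => r * ∑ p ∈ antidiagonal m, c.coeff p.1 *
      ((PowerSeries.coeff g W).coeff p.2 * r ^ g)) atTop
      (nhds (r * ∑ p ∈ antidiagonal m, c.coeff p.1 * x.coeff p.2)) :=
    (tendsto_finsetSum _ fun p hp =>
      (h p.2 (by have := mem_antidiagonal.1 hp; omega)).const_mul _).const_mul r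
  rw [sub_mul 1 _ x, one_mul, coeff_sub, mul_assoc (C r), coeff_C_mul, coeff_mul]
  refine (h1.sub h2).congr fun g => ?_
  rw [hm_coeff_succ, coeff_sub, coeff_mul, sub_mul, sum_mul, mul_sum]
  congr 1
  exact sum_congr rfl fun p _ => by ring

theorem hm_tele {r c : ℂ} (hr : c * r = 1) (W : PowerSeries ℂ[X]) (m G : ℕ) :
    ∑ g ∈ range (G + 1), (PowerSeries.coeff g ((1 - PowerSeries.C (C c) * PowerSeries.X) *
      W)).coeff m * r ^ g = (PowerSeries.coeff G W).coeff m * r ^ G := by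
  induction G with
  | zero => simp [sub_mul, mul_assoc]
  | succ G ih =>
    rw [sum_range_succ, ih, hm_coeff_succ, coeff_sub, coeff_C_mul]
    linear_combination (-(PowerSeries.coeff G W).coeff m * r ^ G) * hr

theorem hm_base (hF : ringChar F ≠ 2) (U : Fin 4 → ℂ[X]) (hU : ∀ i, X ∣ U i) (M : ℕ) :
    Cv ((Q F : ℂ) ^ 2)⁻¹ M (PowerSeries.mk fun g => ∑ D ∈ sqF F (2 * g + 1),
      Lt (jac D) (2 * g) (U 0) * Lt (jac D) (2 * g) (U 1) *
        (Li (jac D) M (U 2) * Li (jac D) M (U 3)))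
      (C (Q F - 1 : ℂ) * ∏ P ∈ pr F M, (1 + algebraMap ℂ ℂ[X] (1 + ((Q F : ℂ) ^ P.natDegree)⁻¹)⁻¹ *
        Ev M (pw U P.natDegree))) := by
  intro m hm
  set w : Finset F[X] → Finset F[X] → ℂ[X] := fun S₀ S₁ =>
    (∏ P ∈ S₀, Od M (pw U P.natDegree)) * ∏ P ∈ S₁, Ev M (pw U P.natDegree) with hw
  have h1 : ∀ g, (∑ D ∈ sqF F (2 * g + 1), Lt (jac D) (2 * g) (U 0) * Lt (jac D) (2 * g) (U 1) *
      (Li (jac D) M (U 2) * Li (jac D) M (U 3))).coeff m =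
      (∑ D ∈ sqF F (2 * g + 1), ∑ S₀ ∈ (pr F M).powerset, ∑ S₁ ∈ (pr F M \ S₀).powerset,
        w S₀ S₁ * C ((∏ P ∈ S₀, jac D P) * ∏ P ∈ S₁, jac D P ^ 2)).coeff m := by
    intro g
    refine transfer1 _ _ M (fun A _ _ φ hφ => ?_) hm
    have h2 : ∀ i, (φ ∘ U) i ^ (M + 1) = 0 := fun i => by
      obtain ⟨c, hc⟩ := hU i
      rw [Function.comp, hc, map_mul, mul_pow, hφ, zero_mul]
    rw [map_sum, map_sum]
    refine sum_congr rfl fun D hD => ?_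
    have h3 := expand_ratio D (le_add_right le_rfl : M ≤ M + 2 * g) h2
    rw [Lt_trunc hF hD (I := M + 2 * g) (by omega), Lt_trunc hF hD (I := M + 2 * g) (by omega),
      Li_eq_prod (jac_cm D) (le_add_right le_rfl) (h2 2),
      Li_eq_prod (jac_cm D) (le_add_right le_rfl) (h2 3),
      ← Li_eq_prod (jac_cm D) le_rfl (h2 2), ← Li_eq_prod (jac_cm D) le_rfl (h2 3)] at h3
    simp only [map_mul φ, map_Lt, map_Li, map_sum φ, map_prod φ, hw, map_Od, map_Ev,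
      ← algebraMap_eq, AlgHom.commutes]
    exact h3
  have h2 : Tendsto (fun g : ℕ => ∑ S₀ ∈ (pr F M).powerset, ∑ S₁ ∈ (pr F M \ S₀).powerset,
      (w S₀ S₁).coeff m * ((∑ D ∈ sqF F (2 * g + 1),
        (∏ P ∈ S₀, jac D P) * ∏ P ∈ S₁, jac D P ^ 2) / (Q F : ℂ) ^ (2 * g))) atTop
      (nhds (∑ S₀ ∈ (pr F M).powerset, ∑ S₁ ∈ (pr F M \ S₀).powerset, (w S₀ S₁).coeff m *
        (if S₀ = ∅ then (Q F - 1) * ∏ P ∈ S₁, (1 + ((Q F : ℂ) ^ P.natDegree)⁻¹)⁻¹ else 0))) :=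
    tendsto_finsetSum _ fun S₀ h0 => tendsto_finsetSum _ fun S₁ h1 =>
      (blim hF (mem_powerset.1 h0) (mem_powerset.1 h1)).const_mul _
  have h3 : ∑ S₀ ∈ (pr F M).powerset, ∑ S₁ ∈ (pr F M \ S₀).powerset, (w S₀ S₁).coeff m *
      (if S₀ = ∅ then (Q F - 1) * ∏ P ∈ S₁, (1 + ((Q F : ℂ) ^ P.natDegree)⁻¹)⁻¹ else 0) =
      (C (Q F - 1 : ℂ) * ∏ P ∈ pr F M, (1 + algebraMap ℂ ℂ[X] (1 + ((Q F : ℂ) ^ P.natDegree)⁻¹)⁻¹ *
        Ev M (pw U P.natDegree))).coeff m := by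
    rw [sum_eq_single ∅ (fun S _ hS => by simp [hS]) (fun h => absurd (empty_mem_powerset _) h),
      sdiff_empty, prod_one_add, mul_sum, finsetSum_coeff]
    refine sum_congr rfl fun S _ => ?_
    rw [if_pos rfl, prod_mul_distrib, ← map_prod, algebraMap_eq, coeff_C_mul, coeff_C_mul, hw]
    simp only [prod_empty, one_mul]
    ring
  rw [← h3]
  refine h2.congr fun g => ?_
  rw [PowerSeries.coeff_mk, h1, sum_comm, finsetSum_coeff, sum_mul]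
  refine sum_congr rfl fun S₀ _ => ?_
  rw [sum_comm, finsetSum_coeff, sum_mul]
  refine sum_congr rfl fun S₁ _ => ?_
  rw [← mul_sum, ← map_sum, coeff_mul_C, inv_pow, ← pow_mul, mul_assoc, div_eq_mul_inv]

theorem hM_lim (hF : ringChar F ≠ 2) (u : Fin 4 → ℂ) {M M' : ℕ} (h : M ≤ M') :
    Filter.Tendsto (fun G : ℕ => ∑ g ∈ range G,
        (∑ p ∈ antidiagonal M, ff F u p.1 p.2 g) * (((Q F : ℂ) ^ 2)⁻¹) ^ g) Filter.atTop
      (nhds ((C (Q F - 1 : ℂ) * (1 + C (Q F * (u 0 * u 1)) * X ^ 2) *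
        ∏ P ∈ pr F M', BP F P.natDegree (pw (fun i => (C (u i) * X : ℂ[X])) P.natDegree)).coeff
          M)) := by
  set U : Fin 4 → ℂ[X] := fun i => C (u i) * X with hUd
  have hU : ∀ i, X ∣ U i := fun i => dvd_mul_left _ _
  have hq : (Q F : ℂ) ≠ 0 := Q_ne
  have h1 := ((((hm_base hF U hU M').step (qA F ℂ[X] ^ 4 * U 0 ^ 2 * U 1 ^ 2)).step
    (qA F ℂ[X] ^ 3 * U 1 ^ 2)).step (qA F ℂ[X] ^ 3 * U 0 ^ 2)) M h
  rw [← tendsto_add_atTop_iff_nat 1]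
  convert h1 using 2 with G
  · rw [← hm_tele (mul_inv_cancel₀ (pow_ne_zero 2 hq))]
    refine sum_congr rfl fun g _ => ?_
    rw [link0 u h g]
    congr 3
    simp only [Ph, map_mul, map_pow, map_natCast, hUd]
    ring
  · refine transfer1 _ _ M' (fun A _ _ φ hφ => ?_) h
    have h2 : ∀ i, (φ ∘ U) i ^ (M' + 1) = 0 := fun i => by
      obtain ⟨c, hc⟩ := hU i
      rw [Function.comp, hc, map_mul, mul_pow, hφ, zero_mul]
    have h3 : algebraMap ℂ A ((Q F : ℂ) ^ 2)⁻¹ * qA F A ^ 2 = 1 := by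
      rw [show qA F A = algebraMap ℂ A (Q F) from (map_natCast _ _).symm, ← map_pow, ← map_mul,
        inv_mul_cancel₀ (pow_ne_zero 2 hq), map_one]
    have h4 : φ (C (Q F * (u 0 * u 1)) * X ^ 2) = qA F A * ((φ ∘ U) 0 * (φ ∘ U) 1) := by
      simp only [Function.comp, hUd, map_mul, map_natCast, map_pow]
      ring
    rw [map_mul φ, map_mul φ, map_add φ, h4]
    simp only [map_mul φ, map_prod φ, map_add φ, map_sub φ, map_one φ, map_BP, map_Ev,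
      ← algebraMap_eq, AlgHom.commutes, map_natCast φ, map_pow φ]
    rw [← prod_BP h2]
    generalize ∏ P ∈ pr F M', (1 + algebraMap ℂ A (1 + ((Q F : ℂ) ^ P.natDegree)⁻¹)⁻¹ *
      Ev M' (pw (φ ∘ U) P.natDegree)) = E
    simp only [Function.comp]
    generalize algebraMap ℂ A ((Q F : ℂ) ^ 2)⁻¹ = r at h3 ⊢
    have h5 : ∀ z : A, r * (qA F A ^ 3 * z) = qA F A * z := fun z => by
      linear_combination (qA F A * z) * h3
    have h6 : ∀ z z' : A, r * (qA F A ^ 4 * z * z') = qA F A ^ 2 * z * z' := fun z z' => by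
      linear_combination (qA F A ^ 2 * z * z') * h3
    rw [h5, h5, h6]
    ring

end Pool.Agent.MP_dd7250_nt

end

section

/- Local estimates. -/

set_option autoImplicit false

namespace Pool.Agent.MP_dd7250_nt

open Polynomial Finset Pool.Agent.MP_d232b3_nt
open scoped Classical

variable {F : Type*} [Field F] [Fintype F]

theorem loc_geom {n : ℕ} {z : ℂ} {r : ℝ} (hr : r < 1) (hz : ‖z‖ ≤ r) :
    ‖∑ l ∈ range n, z ^ l‖ ≤ (1 - r)⁻¹ := by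
  have h0 : 0 ≤ r := (norm_nonneg z).trans hz
  calc ‖∑ l ∈ range n, z ^ l‖ ≤ ∑ l ∈ range n, r ^ l :=
        norm_sum_le_of_le _ fun l _ => by
          rw [norm_pow]; exact pow_le_pow_left₀ (norm_nonneg z) hz l
    _ ≤ ∑' l, r ^ l :=
        (summable_geometric_of_lt_one h0 hr).sum_le_tsum _ fun l _ => pow_nonneg h0 l
    _ = (1 - r)⁻¹ := tsum_geometric_of_lt_one h0 hr

theorem norm_gam_le {I : ℕ} {z : ℂ} {r : ℝ} (hr : r < 1) (hz : ‖z‖ ≤ r) :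
    ‖gam I z‖ ≤ (1 - r)⁻¹ := by
  exact loc_geom hr hz

theorem loc_gam_sub (I : ℕ) (z : ℂ) : gam I z - 1 = (∑ l ∈ range I, z ^ l) * z := by
  rw [gam, sum_range_succ', sum_mul]
  simp [pow_succ]

theorem norm_gam_sub_one {I : ℕ} {z : ℂ} {r : ℝ} (hr : r < 1) (hz : ‖z‖ ≤ r) :
    ‖gam I z - 1‖ ≤ (1 - r)⁻¹ * ‖z‖ := by
  rw [loc_gam_sub, norm_mul]
  exact mul_le_mul_of_nonneg_right (loc_geom hr hz) (norm_nonneg z)

theorem norm_gam_sub_sub {I : ℕ} (hI : 1 ≤ I) {z : ℂ} {r : ℝ} (hr : r < 1) (hz : ‖z‖ ≤ r) :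
    ‖gam I z - 1 - z‖ ≤ (1 - r)⁻¹ * ‖z‖ ^ 2 := by
  obtain ⟨J, rfl⟩ : ∃ J, I = J + 1 := ⟨I - 1, by omega⟩
  have h : gam (J + 1) z - 1 - z = (∑ l ∈ range J, z ^ l) * z ^ 2 := by
    have h1 := loc_gam_sub J z
    rw [loc_gam_sub]
    change gam J z * z - z = _
    linear_combination z * h1
  rw [h, norm_mul, norm_pow]
  exact mul_le_mul_of_nonneg_right (loc_geom hr hz) (by positivity)

theorem loc_G (M : ℕ) {a b : ℂ} {τ : ℝ} (hτ : τ ≤ 3 / 5) (ha : ‖a‖ ≤ τ) (hb : ‖b‖ ≤ τ) :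
    ‖gam M (a ^ 2) * gam M (b ^ 2)‖ ≤ 5 / 2 ∧
      ‖gam M (a ^ 2) * gam M (b ^ 2) - 1‖ ≤ 5 * τ ^ 2 := by
  have key : ∀ c : ℂ, ‖c‖ ≤ τ →
      ‖gam M (c ^ 2)‖ ≤ 25 / 16 ∧ ‖gam M (c ^ 2) - 1‖ ≤ 25 / 16 * τ ^ 2 := by
    intro c hc
    have h1 : ‖c ^ 2‖ ≤ τ ^ 2 := by
      rw [norm_pow]; exact pow_le_pow_left₀ (norm_nonneg c) hc 2
    have h0 : 0 ≤ τ := (norm_nonneg c).trans hc
    have h2 : ‖c ^ 2‖ ≤ 9 / 25 := h1.trans (by nlinarith)
    have h3 := norm_gam_le (I := M) (by norm_num : (9 / 25 : ℝ) < 1) h2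
    have h4 := norm_gam_sub_one (I := M) (by norm_num : (9 / 25 : ℝ) < 1) h2
    norm_num at h3 h4
    refine ⟨h3, h4.trans ?_⟩
    rw [norm_pow] at h1
    linarith
  obtain ⟨a1, a2⟩ := key a ha
  obtain ⟨b1, b2⟩ := key b hb
  have hτ2 : 0 ≤ τ ^ 2 := sq_nonneg τ
  constructor
  · rw [norm_mul]
    calc _ ≤ (25 / 16 : ℝ) * (25 / 16) :=
          mul_le_mul a1 b1 (norm_nonneg _) (by norm_num)
      _ ≤ 5 / 2 := by norm_num
  · have e : gam M (a ^ 2) * gam M (b ^ 2) - 1 =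
        (gam M (a ^ 2) - 1) * gam M (b ^ 2) + (gam M (b ^ 2) - 1) := by ring
    rw [e]
    refine (norm_add_le _ _).trans ?_
    rw [norm_mul]
    have : ‖gam M (a ^ 2) - 1‖ * ‖gam M (b ^ 2)‖ ≤ 25 / 16 * τ ^ 2 * (25 / 16) :=
      mul_le_mul a2 b1 (norm_nonneg _) (by positivity)
    linarith

theorem loc_mul {x y : ℂ} {s t : ℝ} (hx : ‖x‖ ≤ s) (hy : ‖y‖ ≤ t) : ‖x * y‖ ≤ s * t := by
  rw [norm_mul]; exact mul_le_mul hx hy (norm_nonneg _) ((norm_nonneg _).trans hx)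

theorem loc_add {x y : ℂ} {s t : ℝ} (hx : ‖x‖ ≤ s) (hy : ‖y‖ ≤ t) : ‖x + y‖ ≤ s + t :=
  (norm_add_le _ _).trans (add_le_add hx hy)

theorem loc_sub {x y : ℂ} {s t : ℝ} (hx : ‖x‖ ≤ s) (hy : ‖y‖ ≤ t) : ‖x - y‖ ≤ s + t :=
  (norm_sub_le _ _).trans (add_le_add hx hy)

theorem norm_Ev_le (M : ℕ) {a : Fin 4 → ℂ} {τ : ℝ} (hτ : τ ≤ 3 / 5) (h : ∀ i, ‖a i‖ ≤ τ) :
    ‖Ev M a‖ ≤ 40 * τ ^ 2 := by
  have h0 : 0 ≤ τ := (norm_nonneg _).trans (h 0)
  obtain ⟨g1, g2⟩ := loc_G M hτ (h 0) (h 1)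
  have e : Ev M a = (gam M (a 0 ^ 2) * gam M (a 1 ^ 2) - 1) + gam M (a 0 ^ 2) * gam M (a 1 ^ 2) *
      (a 0 * a 1 + a 2 * a 3 - (a 0 + a 1) * (a 2 + a 3) + a 0 * a 1 * (a 2 * a 3)) := by
    rw [Ev]; ring
  have h1 := loc_add (loc_sub (loc_add (loc_mul (h 0) (h 1)) (loc_mul (h 2) (h 3)))
    (loc_mul (loc_add (h 0) (h 1)) (loc_add (h 2) (h 3))))
    (loc_mul (loc_mul (h 0) (h 1)) (loc_mul (h 2) (h 3)))
  rw [e]
  refine (loc_add g2 (loc_mul g1 h1)).trans ?_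
  have h2 : τ * τ ≤ 1 := by nlinarith
  have h3 : τ * τ * (τ * τ) ≤ τ * τ := by nlinarith [mul_nonneg h0 h0]
  nlinarith [mul_nonneg h0 h0]

theorem loc_cub {a : Fin 4 → ℂ} {τ : ℝ} (h : ∀ i, ‖a i‖ ≤ τ) :
    ‖a 0 + a 1 - (a 2 + a 3)‖ ≤ 4 * τ ∧
      ‖a 2 * a 3 * (a 0 + a 1) - a 0 * a 1 * (a 2 + a 3)‖ ≤ 4 * τ ^ 3 := by
  constructor
  · exact (loc_sub (loc_add (h 0) (h 1)) (loc_add (h 2) (h 3))).trans_eq (by ring)
  · exact (loc_sub (loc_mul (loc_mul (h 2) (h 3)) (loc_add (h 0) (h 1)))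
      (loc_mul (loc_mul (h 0) (h 1)) (loc_add (h 2) (h 3)))).trans_eq (by ring)

theorem norm_Od_le (M : ℕ) {a : Fin 4 → ℂ} {τ : ℝ} (hτ : τ ≤ 3 / 5) (h : ∀ i, ‖a i‖ ≤ τ) :
    ‖Od M a‖ ≤ 40 * τ := by
  have h0 : 0 ≤ τ := (norm_nonneg _).trans (h 0)
  obtain ⟨g1, -⟩ := loc_G M hτ (h 0) (h 1)
  obtain ⟨l1, l3⟩ := loc_cub h
  have e : Od M a = gam M (a 0 ^ 2) * gam M (a 1 ^ 2) * ((a 0 + a 1 - (a 2 + a 3)) +
      (a 2 * a 3 * (a 0 + a 1) - a 0 * a 1 * (a 2 + a 3))) := by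
    rw [Od]; ring
  rw [e]
  refine (loc_mul g1 (loc_add l1 l3)).trans ?_
  have h2 : τ ^ 2 ≤ 1 := by nlinarith
  have h3 : τ ^ 3 ≤ τ := by nlinarith
  linarith

theorem norm_Od_sub (M : ℕ) {a : Fin 4 → ℂ} {τ : ℝ} (hτ : τ ≤ 3 / 5) (h : ∀ i, ‖a i‖ ≤ τ) :
    ‖Od M a - (a 0 + a 1 - (a 2 + a 3))‖ ≤ 40 * τ ^ 3 := by
  have h0 : 0 ≤ τ := (norm_nonneg _).trans (h 0)
  obtain ⟨g1, g2⟩ := loc_G M hτ (h 0) (h 1)
  obtain ⟨l1, l3⟩ := loc_cub h
  have e : Od M a - (a 0 + a 1 - (a 2 + a 3)) =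
      (gam M (a 0 ^ 2) * gam M (a 1 ^ 2) - 1) * (a 0 + a 1 - (a 2 + a 3)) +
        gam M (a 0 ^ 2) * gam M (a 1 ^ 2) *
          (a 2 * a 3 * (a 0 + a 1) - a 0 * a 1 * (a 2 + a 3)) := by
    rw [Od]; ring
  rw [e]
  refine (loc_add (loc_mul g2 l1) (loc_mul g1 l3)).trans ?_
  have h3 : 0 ≤ τ ^ 3 := by positivity
  nlinarith

theorem qp_le_of (hF : ringChar F ≠ 2) {x : ℝ} (hx : x ≤ -(1 / 2)) : qp F x ≤ 3 / 5 := by
  refine (qp_mono hx).trans ?_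
  have h3 := three_le_Q hF
  have hp := qp_pos (F := F) (1 / 2)
  have h2 : qp F (1 / 2) ^ 2 = Q F := by
    rw [qp_pow]; norm_num [qp_one]
  have h5 : 5 / 3 ≤ qp F (1 / 2) := by nlinarith
  rw [qp_neg, inv_le_comm₀ hp (by norm_num)]
  linarith

theorem loc_one_le_sq : 1 ≤ ‖sq F‖ := by
  rw [norm_sq]
  exact (qp_zero (F := F)).symm.le.trans (qp_mono (by norm_num))

theorem loc_norm_q : ‖qA F ℂ‖ = Q F := Complex.norm_natCast _

theorem norm_kap_le {σ y : ℂ} (hσ : ‖σ‖ = 1) (hy : ‖y‖ ≤ 1) : ‖kap F σ y‖ ≤ 2 + Q F := by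
  have hq : (1 : ℝ) < Q F := one_lt_Q
  have h1 : ‖σ / sq F‖ ≤ 1 := by
    rw [norm_div, hσ]
    exact div_le_one_of_le₀ loc_one_le_sq (norm_nonneg _)
  have h2 : ‖-(1 - y)‖ ≤ 1 + 1 := by
    rw [norm_neg]; exact loc_sub norm_one.le hy
  have h3 : ‖1 - qA F ℂ * y‖ ≤ 1 + Q F * 1 :=
    loc_sub norm_one.le (loc_mul loc_norm_q.le hy)
  have h4 : ‖(1 / 2 : ℂ)‖ ≤ 1 / 2 := by norm_num
  have := loc_mul h4 (loc_add h2 (loc_mul h1 h3))
  refine le_trans (le_of_eq ?_) (this.trans (by linarith))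
  simp only [kap, Algebra.algebraMap_self, RingHom.id_apply]

theorem norm_dy {σ : ℂ} (hσ : ‖σ‖ = 1) (y : ℂ) : ‖dy F σ y‖ = qp F (1 / 2) * ‖y‖ := by
  simp only [dy, Algebra.algebraMap_self, RingHom.id_apply, norm_mul, hσ, one_mul, norm_sq]

theorem loc_pow {x : ℂ} {s : ℝ} (hx : ‖x‖ ≤ s) (n : ℕ) : ‖x ^ n‖ ≤ s ^ n := by
  rw [norm_pow]; exact pow_le_pow_left₀ (norm_nonneg _) hx n

theorem norm_pre_le {U : Fin 4 → ℂ} {y : ℂ} (hU : ∀ i, ‖U i‖ ≤ 1) (hy : ‖y‖ ≤ 1) :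
    ‖pre F U y‖ ≤ (1 + (Q F : ℝ) ^ 4) ^ 3 ∧ ‖mid F U y‖ ≤ (1 + (Q F : ℝ) ^ 4) ^ 2 := by
  have hq : (1 : ℝ) ≤ Q F := one_lt_Q.le
  have q1 : (Q F : ℝ) ≤ (Q F : ℝ) ^ 4 := le_self_pow₀ hq (by norm_num)
  have q3 : (Q F : ℝ) ^ 3 ≤ (Q F : ℝ) ^ 4 := pow_le_pow_right₀ hq (by norm_num)
  have nq := (loc_norm_q (F := F)).le
  have y2 : ‖y ^ 2‖ ≤ 1 := (loc_pow hy 2).trans_eq (one_pow 2)
  have u2 : ∀ i, ‖U i ^ 2‖ ≤ 1 := fun i => (loc_pow (hU i) 2).trans_eq (one_pow 2)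
  have a1 : ‖1 - qA F ℂ * y ^ 2‖ ≤ 1 + (Q F : ℝ) ^ 4 :=
    (loc_sub norm_one.le (loc_mul nq y2)).trans (by linarith)
  have a2 : ‖1 + qA F ℂ * y‖ ≤ 1 + (Q F : ℝ) ^ 4 :=
    (loc_add norm_one.le (loc_mul nq hy)).trans (by linarith)
  have a3 : ‖1 - qA F ℂ ^ 4 * U 0 ^ 2 * U 1 ^ 2 * y ^ 2‖ ≤ 1 + (Q F : ℝ) ^ 4 :=
    (loc_sub norm_one.le (loc_mul (loc_mul (loc_mul (loc_pow nq 4) (u2 0)) (u2 1)) y2)).trans
      (by linarith)
  have a4 : ∀ i, ‖1 - qA F ℂ ^ 3 * U i ^ 2 * y ^ 2‖ ≤ 1 + (Q F : ℝ) ^ 4 := fun i =>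
    (loc_sub norm_one.le (loc_mul (loc_mul (loc_pow nq 3) (u2 i)) y2)).trans (by linarith)
  exact ⟨(loc_mul (loc_mul a1 a2) a3).trans_eq (by ring),
    (loc_mul (a4 0) (a4 1)).trans_eq (by ring)⟩

end Pool.Agent.MP_dd7250_nt

end

section

/- Bounds for Euler products. -/

set_option autoImplicit false

namespace Pool.Agent.MP_dd7250_nt

open Polynomial Finset Pool.Agent.MP_d232b3_nt
open scoped Classical

variable {F : Type*} [Field F] [Fintype F]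

theorem ep_geom {ρ : ℝ} (h0 : 0 ≤ ρ) (h1 : ρ < 1) (N : ℕ) : ∑ d ∈ range N, ρ ^ d ≤ (1 - ρ)⁻¹ := by
  rw [← tsum_geometric_of_lt_one h0 h1]
  exact (summable_geometric_of_lt_one h0 h1).sum_le_tsum _ fun _ _ => pow_nonneg h0 _

theorem ep_norm (z : ℂ) : ‖1 + z‖ ≤ Real.exp (z.re + ‖z‖ ^ 2 / 2) := by
  refine (sq_le_sq₀ (norm_nonneg _) (Real.exp_pos _).le).1 ?_
  rw [← Real.exp_nat_mul]
  refine le_trans (le_of_eq ?_) (Real.add_one_le_exp _)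
  rw [Complex.sq_norm, Complex.sq_norm, Complex.normSq_apply, Complex.normSq_apply]
  simp only [Complex.add_re, Complex.add_im, Complex.one_re, Complex.one_im, Nat.cast_ofNat]
  ring

theorem sum_pr_le {ε : ℝ} (hε : 0 < ε) :
    ∃ C : ℝ, ∀ M, ∑ P ∈ pr F M, qp F (-(1 + ε) * P.natDegree) ≤ C := by
  refine ⟨(1 - qp F (-ε))⁻¹, fun M => le_trans ?_
    (ep_geom (qp_pos _).le (qp_lt_one (neg_neg_of_pos hε)) (M + 1))⟩
  rw [sum_pr]
  refine Finset.sum_le_sum fun d _ => ?_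
  rw [Finset.sum_congr rfl fun P hP => by rw [(mem_prD.1 hP).2.2], Finset.sum_const, nsmul_eq_mul]
  refine (mul_le_mul_of_nonneg_right (c := qp F d) ?_ (qp_pos (F := F) _).le).trans_eq ?_
  · rw [qp_nat]
    exact_mod_cast card_prD_le d
  · rw [← qp_add, qp_pow]
    congr 1
    ring

theorem sum_powerset_le {ε κ : ℝ} (hε : 0 < ε) (hκ : 0 ≤ κ) : ∃ C : ℝ, ∀ M,
    ∑ e ∈ (pr F M).powerset, ∏ P ∈ e, κ * qp F (-(1 + ε) * P.natDegree) ≤ C := by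
  obtain ⟨C, hC⟩ := sum_pr_le (F := F) hε
  refine ⟨Real.exp (κ * C), fun M => ?_⟩
  rw [← Finset.prod_one_add]
  refine (Real.prod_one_add_le_exp_sum _ fun P => mul_nonneg hκ (qp_pos _).le).trans
    (Real.exp_le_exp.2 ?_)
  rw [← Finset.mul_sum]
  exact mul_le_mul_of_nonneg_left (hC M) hκ

theorem ep_lin {ε κ η : ℝ} (hε : 0 < ε) (hκ : 0 ≤ κ) (hη : 0 < η) : ∃ K : ℝ,
    ∀ (M : ℕ) (x : F[X] → ℂ) (n : ℝ) (φ : ℕ → ℂ), 0 ≤ n → Small x n →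
      (∀ d : ℕ, 1 ≤ d → ‖φ d‖ ≤ κ * qp F (-(1 / 2 + ε) * d)) →
      ‖∑ P ∈ pr F M, x P * φ P.natDegree‖ ≤ K + η * n := by
  have h0 := qp_pos (F := F) (-ε)
  have h1 := qp_lt_one (F := F) (neg_neg_of_pos hε)
  obtain ⟨d₀, hd₀⟩ := exists_pow_lt_of_lt_one
    (show 0 < η * (1 - qp F (-ε)) / (κ + 1) from div_pos (mul_pos hη (sub_pos.2 h1)) (by linarith)) h1
  refine ⟨∑ d ∈ range d₀, κ * qp F d, fun M x n φ hn hx hφ => ?_⟩
  have key : ∀ (d : ℕ) (B : ℝ), ‖∑ P ∈ prD F d, x P‖ ≤ B →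
      ‖∑ P ∈ prD F d, x P * φ P.natDegree‖ ≤ κ * qp F (-(1 / 2 + ε) * d) * B := by
    intro d B hB
    rw [Finset.sum_congr rfl fun P hP => by rw [(mem_prD.1 hP).2.2], ← Finset.sum_mul, norm_mul,
      mul_comm]
    have hq := mul_nonneg hκ (qp_pos (F := F) (-(1 / 2 + ε) * d)).le
    rcases Nat.eq_zero_or_pos d with rfl | hd
    · rw [Finset.sum_eq_zero fun P hP => absurd (mem_prD.1 hP).2.2 (deg_pos (mem_prD.1 hP).2.1).ne',
        norm_zero, mul_zero]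
      exact mul_nonneg hq ((norm_nonneg _).trans hB)
    · exact mul_le_mul (hφ d hd) hB (norm_nonneg _) hq
  rw [sum_pr]
  refine (norm_sum_le _ _).trans ((Finset.sum_le_sum_of_subset_of_nonneg
    (Finset.range_mono (Nat.le_add_left (M + 1) d₀)) fun _ _ _ => norm_nonneg _).trans ?_)
  rw [Finset.sum_range_add]
  refine add_le_add (Finset.sum_le_sum fun d _ => (key d (qp F d) ?_).trans ?_) ?_
  · refine (norm_sum_le _ _).trans ((Finset.sum_le_card_nsmul _ _ 1 fun P _ => hx.1 P).trans ?_)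
    rw [nsmul_eq_mul, mul_one, qp_nat]
    exact_mod_cast card_prD_le d
  · refine mul_le_mul_of_nonneg_right (mul_le_of_le_one_right hκ (qp_le_one ?_)) (qp_pos _).le
    exact mul_nonpos_of_nonpos_of_nonneg (by linarith) (Nat.cast_nonneg d)
  · calc _ ≤ ∑ j ∈ range (M + 1), κ * n * qp F (-ε) ^ d₀ * qp F (-ε) ^ j := by
          refine Finset.sum_le_sum fun j _ => (key _ _ (hx.2 _)).trans_eq ?_
          rw [mul_assoc (κ * n), ← pow_add, qp_pow, mul_mul_mul_comm, ← qp_add]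
          congr 2
          ring
      _ ≤ κ * n * qp F (-ε) ^ d₀ * (1 - qp F (-ε))⁻¹ := by
          rw [← Finset.mul_sum]
          exact mul_le_mul_of_nonneg_left (ep_geom h0.le h1 _) (by positivity)
      _ ≤ η * n := by
          rw [← div_eq_mul_inv, div_le_iff₀ (sub_pos.2 h1)]
          rw [lt_div_iff₀ (by linarith)] at hd₀
          have h2 := pow_pos h0 d₀
          nlinarith [mul_le_mul_of_nonneg_left hd₀.le hn, mul_nonneg hn h2.le]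

theorem EP {ε κ η : ℝ} (hε : 0 < ε) (hκ : 0 ≤ κ) (hη : 0 < η) : ∃ C : ℝ, 0 ≤ C ∧
    ∀ (M : ℕ) (x : F[X] → ℂ) (n : ℝ) (φ : ℕ → ℂ) (r : F[X] → ℂ), 0 ≤ n → Small x n →
      (∀ d : ℕ, 1 ≤ d → ‖φ d‖ ≤ κ * qp F (-(1 / 2 + ε) * d)) →
      (∀ P ∈ pr F M, ‖r P‖ ≤ κ * qp F (-(1 + ε) * P.natDegree)) →
      ‖∏ P ∈ pr F M, (1 + x P * φ P.natDegree + r P)‖ ≤ C * qp F (η * n) := by
  obtain ⟨C, hC⟩ := sum_pr_le (F := F) hε
  obtain ⟨K, hK⟩ := ep_lin (F := F) hε hκ (mul_pos hη (Real.log_pos (one_lt_Q (F := F))))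
  refine ⟨Real.exp (K + (κ + 2 * κ ^ 2) * C), (Real.exp_pos _).le,
    fun M x n φ r hn hx hφ hr => ?_⟩
  have h1 : ∀ P ∈ pr F M, ‖1 + x P * φ P.natDegree + r P‖ ≤ Real.exp ((x P * φ P.natDegree).re +
      (κ + 2 * κ ^ 2) * qp F (-(1 + ε) * P.natDegree)) := by
    intro P hP
    have hd := deg_pos (mem_pr.1 hP).2.1
    have hd' : (0 : ℝ) ≤ P.natDegree := Nat.cast_nonneg _
    have h2 : ‖x P * φ P.natDegree + r P‖ ≤ 2 * κ * qp F (-(1 / 2 + ε) * P.natDegree) := by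
      have h3 : ‖x P * φ P.natDegree‖ ≤ κ * qp F (-(1 / 2 + ε) * P.natDegree) := by
        rw [norm_mul]
        exact (mul_le_of_le_one_left (norm_nonneg _) (hx.1 P)).trans (hφ _ hd)
      have h4 := (hr P hP).trans (mul_le_mul_of_nonneg_left
        (qp_mono (y := -(1 / 2 + ε) * P.natDegree) (by nlinarith)) hκ)
      linarith [norm_add_le (x P * φ P.natDegree) (r P)]
    have h5 : qp F (-(1 / 2 + ε) * P.natDegree) ^ 2 ≤ qp F (-(1 + ε) * P.natDegree) := by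
      rw [qp_pow]
      exact qp_mono (by push_cast; nlinarith)
    have h6 := pow_le_pow_left₀ (norm_nonneg _) h2 2
    rw [mul_pow] at h6
    have h7 := mul_le_mul_of_nonneg_left h5 (sq_nonneg (2 * κ))
    have h8 := (Complex.re_le_norm (r P)).trans (hr P hP)
    rw [add_assoc]
    refine (ep_norm _).trans (Real.exp_le_exp.2 ?_)
    rw [Complex.add_re]
    nlinarith
  rw [norm_prod]
  refine (Finset.prod_le_prod (fun _ _ => norm_nonneg _) h1).trans ?_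
  rw [← Real.exp_sum, qp, Real.rpow_def_of_pos (zero_lt_one.trans one_lt_Q), ← Real.exp_add,
    Real.exp_le_exp, Finset.sum_add_distrib, ← Complex.re_sum, ← Finset.mul_sum]
  have h2 := (Complex.re_le_norm _).trans (hK M x n φ hn hx hφ)
  have h3 := mul_le_mul_of_nonneg_left (hC M) (show 0 ≤ κ + 2 * κ ^ 2 by positivity)
  linarith

theorem ep_coeff (a : ℕ → ℂ) (n : ℕ) :
    (∑ k ∈ range (n + 1), algebraMap ℂ ℂ[X] (a k) * X ^ k).coeff n = a n := by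
  simp [finsetSum_coeff, coeff_C_mul, coeff_X_pow]

theorem AA_bound (hF : ringChar F ≠ 2) {ε : ℝ} (hε : 0 < ε) : ∃ C : ℝ, 0 ≤ C ∧
    ∀ D : F[X], D.Monic → ¬ IsSquare D → ∀ n : ℕ,
      ‖AA (jac D) n‖ ≤ C * qp F ((1 / 2 + ε) * n + ε * D.natDegree) ∧
      ‖ainv (jac D) n‖ ≤ C * qp F ((1 / 2 + ε) * n + ε * D.natDegree) := by
  obtain ⟨C, hC0, hC⟩ := EP (F := F) hε (κ := 5 / 2) (by norm_num) (half_pos hε)
  refine ⟨C * qp F ε, mul_nonneg hC0 (qp_pos _).le, fun D hD hs n => ?_⟩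
  have hS := small_jac hF hD hs
  have hN : (0 : ℝ) ≤ 2 * D.natDegree + 2 := by positivity
  have fin : ∀ a : ℂ, ‖a‖ * qp F (-(1 / 2 + ε)) ^ n ≤ C * qp F (ε / 2 * (2 * D.natDegree + 2)) →
      ‖a‖ ≤ C * qp F ε * qp F ((1 / 2 + ε) * n + ε * D.natDegree) := by
    intro a ha
    refine le_of_mul_le_mul_right (ha.trans_eq ?_) (pow_pos (qp_pos (F := F) (-(1 / 2 + ε))) n)
    rw [qp_pow, mul_assoc, mul_assoc, ← qp_add, ← qp_add]
    congr 2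
    ring
  have hz : ∀ z : ℂ, ‖z‖ = qp F (-(1 / 2 + ε)) → ∀ d : ℕ,
      ‖z ^ d‖ = qp F (-(1 / 2 + ε) * d) := fun z hz d => by rw [norm_pow, hz, qp_pow]
  constructor
  · have h1 := transfer1 (Lt (jac D) n X)
      (∏ P ∈ pr F n, gam n (algebraMap ℂ ℂ[X] (jac D P) * X ^ P.natDegree)) n
      (fun A _ _ φ h => ?_) le_rfl
    · refine fin _ ?_
      rw [← ep_coeff (AA (jac D)) n, ← Lt, h1]
      refine extract1 _ (qp_pos _) (fun z hz' => ?_) n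
      have h2 := hC n (jac D) _ (fun d => z ^ d)
        (fun P => gam n (jac D P * z ^ P.natDegree) - 1 - jac D P * z ^ P.natDegree) hN hS
        (fun d _ => by linarith [hz z hz' d, qp_pos (F := F) (-(1 / 2 + ε) * d)]) fun P hP => ?_
      · simpa [map_prod, map_gam] using h2
      · have hd := deg_pos (mem_pr.1 hP).2.1
        have hd' : (1 : ℝ) ≤ P.natDegree := by exact_mod_cast hd
        have h3 : ‖jac D P * z ^ P.natDegree‖ ≤ qp F (-(1 / 2 + ε) * P.natDegree) := by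
          rw [norm_mul, hz z hz']
          exact mul_le_of_le_one_left (qp_pos _).le (hS.1 P)
        refine (norm_gam_sub_sub (hd.trans_le (mem_pr.1 hP).2.2) (r := 3 / 5) (by norm_num)
          (h3.trans (qp_le_of hF (by nlinarith)))).trans ?_
        refine mul_le_mul (by norm_num) ((pow_le_pow_left₀ (norm_nonneg _) h3 2).trans ?_)
          (sq_nonneg _) (by norm_num)
        rw [qp_pow]
        exact qp_mono (by push_cast; nlinarith)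
    · have h2 := Lt_mul_prod (jac_cm D) le_rfl h
      have h3 : (∏ P ∈ pr F n, gam n (algebraMap ℂ A (jac D P) * φ X ^ P.natDegree)) *
          ∏ P ∈ pr F n, (1 - algebraMap ℂ A (jac D P) * φ X ^ P.natDegree) = 1 := by
        rw [← Finset.prod_mul_distrib]
        refine Finset.prod_eq_one fun P hP => gam_mul ?_
        rw [mul_pow, ← pow_mul, mul_comm P.natDegree, pow_mul, h,
          zero_pow (deg_pos (mem_pr.1 hP).2.1).ne', mul_zero]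
      simp only [map_Lt, map_prod, map_gam, map_mul, map_pow, AlgHom.commutes]
      rw [← mul_one (Lt _ _ _), ← h3, mul_left_comm, h2, mul_one]
  · have h1 := transfer1 (Li (jac D) n X)
      (∏ P ∈ pr F n, (1 - algebraMap ℂ ℂ[X] (jac D P) * X ^ P.natDegree)) n
      (fun A _ _ φ h => ?_) le_rfl
    · refine fin _ ?_
      rw [← ep_coeff (ainv (jac D)) n, ← Li, h1]
      refine extract1 _ (qp_pos _) (fun z hz' => ?_) n
      have h2 := hC n (jac D) _ (fun d => -z ^ d) (fun _ => 0) hN hS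
        (fun d _ => by
          rw [norm_neg]
          linarith [hz z hz' d, qp_pos (F := F) (-(1 / 2 + ε) * d)]) fun P _ => by
            rw [norm_zero]
            exact mul_nonneg (by norm_num) (qp_pos _).le
      simpa [map_prod, sub_eq_add_neg] using h2
    · simp only [map_Li, map_prod, map_sub, map_one, map_mul, map_pow, AlgHom.commutes]
      exact Li_eq_prod (jac_cm D) le_rfl h

theorem nat_le_qp {ε : ℝ} (hε : 0 < ε) : ∃ C : ℝ, 0 ≤ C ∧ ∀ n : ℕ, (n + 1 : ℝ) ≤ C * qp F (ε * n) := by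
  have h0 : 0 < qp F ε - 1 := sub_pos.2 (Real.one_lt_rpow one_lt_Q hε)
  refine ⟨1 + (qp F ε - 1)⁻¹, by positivity, fun n => ?_⟩
  have h1 := one_add_mul_le_pow (a := qp F ε - 1) (by linarith) n
  rw [add_sub_cancel, qp_pow] at h1
  refine le_trans ?_ (mul_le_mul_of_nonneg_left h1 (by positivity))
  have h2 := inv_mul_cancel₀ h0.ne'
  have h3 := inv_pos.2 h0
  have h4 : (0 : ℝ) ≤ n := Nat.cast_nonneg n
  nlinarith [mul_nonneg h4 h0.le]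

end Pool.Agent.MP_dd7250_nt

end
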