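import Mathlib
import Pool.Agent.Mg.F43e117.Gcfde52

section

/- The nonsquare dual terms and the diagonal correction. -/

set_option autoImplicit false

namespace Pool.Agent.MP_dd7250_nt

open Polynomial Finset Pool.Agent.MP_d232b3_nt
open scoped Classical

variable {F : Type*} [Field F] [Fintype F]

theorem prpd_k_pos {ε : ℝ} (hε : 0 < ε) : 0 < (1 - qp F (-(2 * ε)))⁻¹ :=
  inv_pos.2 (sub_pos.2 (qp_lt_one (by linarith)))

theorem prpd_rho {ε : ℝ} (hε : 0 < ε) (I : ℕ) {y : ℂ} (hy : ‖y‖ ≤ qp F (-ε)) {d : ℕ}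
    (hd : 1 ≤ d) : ‖rho I y d‖ ≤ (1 - qp F (-(2 * ε)))⁻¹ := by
  refine norm_gam_le (qp_lt_one (by linarith)) ?_
  rw [← pow_mul, norm_pow]
  refine (pow_le_pow_left₀ (norm_nonneg _) hy _).trans ?_
  rw [qp_pow]
  refine qp_mono ?_
  have h1 : (1 : ℝ) ≤ d := by exact_mod_cast hd
  push_cast
  nlinarith

theorem prpd_Ev (hF : ringChar F ≠ 2) {ε : ℝ} (hε : 0 < ε) (M : ℕ) {U : Fin 4 → ℂ}
    (hU : ∀ i, ‖U i‖ ≤ qp F (-(1 / 2 + ε))) {d : ℕ} (hd : 1 ≤ d) :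
    ‖Ev M (pw U d)‖ ≤ 40 * qp F (-(1 + 2 * ε) * d) := by
  have h1 : (1 : ℝ) ≤ d := by exact_mod_cast hd
  have h2 : ∀ i, ‖pw U d i‖ ≤ qp F (-(1 / 2 + ε) * d) := fun i => by
    rw [pw, norm_pow, ← qp_pow]
    exact pow_le_pow_left₀ (norm_nonneg _) (hU i) _
  refine (norm_Ev_le M (qp_le_of hF (by nlinarith)) h2).trans_eq ?_
  rw [qp_pow]
  congr 2
  push_cast
  ring

theorem prpd_Evrho (hF : ringChar F ≠ 2) {ε : ℝ} (hε : 0 < ε) (M I : ℕ) {U : Fin 4 → ℂ} {y : ℂ}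
    (hU : ∀ i, ‖U i‖ ≤ qp F (-(1 / 2 + ε))) (hy : ‖y‖ ≤ qp F (-ε)) {d : ℕ} (hd : 1 ≤ d) :
    ‖Ev M (pw U d) * rho I y d‖ ≤
      40 * (1 - qp F (-(2 * ε)))⁻¹ * qp F (-(1 + 2 * ε) * d) := by
  rw [norm_mul, mul_right_comm]
  exact mul_le_mul (prpd_Ev hF hε M hU hd) (prpd_rho hε I hy hd) (norm_nonneg _)
    (mul_nonneg (by norm_num) (qp_pos _).le)

theorem prpd_Od (hF : ringChar F ≠ 2) {ε : ℝ} (hε : 0 < ε) (M I : ℕ) {U : Fin 4 → ℂ} {y σ : ℂ}
    (hσ : ‖σ‖ = 1) (hU : ∀ i, ‖U i‖ ≤ qp F (-(1 / 2 + ε))) (hy : ‖y‖ ≤ qp F (-ε))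
    (hUy : ∀ i, qp F (1 / 2) * ‖y‖ * ‖U i‖ ≤ qp F (-(1 / 2 + ε))) {d : ℕ} (hd : 1 ≤ d) :
    ‖Od M (pw U d) * rho I y d * dy F σ y ^ d‖ ≤
      40 * (1 - qp F (-(2 * ε)))⁻¹ * qp F (-(1 / 2 + ε) * d) := by
  have h1 : (1 : ℝ) ≤ d := by exact_mod_cast hd
  obtain ⟨i₀, -, hi⟩ := exists_max_image (univ : Finset (Fin 4)) (fun i => ‖U i‖) univ_nonempty
  have h2 : ∀ i, ‖pw U d i‖ ≤ ‖U i₀‖ ^ d := fun i => by
    rw [pw, norm_pow]
    exact pow_le_pow_left₀ (norm_nonneg _) (hi i (mem_univ _)) _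
  have h3 : ‖U i₀‖ ^ d ≤ 3 / 5 := by
    refine (pow_le_pow_left₀ (norm_nonneg _) (hU i₀) _).trans ?_
    rw [qp_pow]
    exact qp_le_of hF (by nlinarith)
  have h4 := norm_Od_le M h3 h2
  have h5 : ‖U i₀‖ ^ d * ‖dy F σ y ^ d‖ ≤ qp F (-(1 / 2 + ε) * d) := by
    rw [norm_pow, norm_dy hσ, ← mul_pow, mul_comm, ← qp_pow]
    exact pow_le_pow_left₀
      (mul_nonneg (mul_nonneg (qp_pos _).le (norm_nonneg _)) (norm_nonneg _)) (hUy i₀) _
  have h6 := prpd_rho hε I hy hd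
  have h7 := prpd_k_pos (F := F) hε
  rw [norm_mul, norm_mul]
  calc ‖Od M (pw U d)‖ * ‖rho I y d‖ * ‖dy F σ y ^ d‖
      ≤ 40 * ‖U i₀‖ ^ d * (1 - qp F (-(2 * ε)))⁻¹ * ‖dy F σ y ^ d‖ := by gcongr
    _ = 40 * (1 - qp F (-(2 * ε)))⁻¹ * (‖U i₀‖ ^ d * ‖dy F σ y ^ d‖) := by ring
    _ ≤ _ := by gcongr

theorem prpd_wV {ε : ℝ} (hε : 0 < ε) (M : ℕ) {y : ℂ} (hy : ‖y‖ ≤ qp F (-ε)) :
    ∑ V ∈ monLe F M, ‖wV F M y V‖ ≤ M + 1 := by
  have hy1 : ‖y‖ ≤ 1 := hy.trans (qp_le_one (by linarith))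
  have hq : (0 : ℝ) < Q F := zero_lt_one.trans one_lt_Q
  rw [sum_monLe]
  calc ∑ d ∈ range (M + 1), ∑ V ∈ monF F d, ‖wV F M y V‖
      ≤ ∑ _d ∈ range (M + 1), (1 : ℝ) := by
        refine sum_le_sum fun d _ => ?_
        calc ∑ V ∈ monF F d, ‖wV F M y V‖ ≤ ∑ _V ∈ monF F d, ((Q F : ℝ) ^ d)⁻¹ := by
              refine sum_le_sum fun V hV => ?_
              rw [wV, (mem_monF.1 hV).2, norm_mul, norm_pow]
              simp only [Algebra.algebraMap_self, RingHom.id_apply, norm_inv, norm_pow,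
                Complex.norm_natCast]
              exact mul_le_of_le_one_right (by positivity) (pow_le_one₀ (norm_nonneg _) hy1)
          _ = 1 := by
              rw [sum_const, card_monF, nsmul_eq_mul]
              push_cast
              exact mul_inv_cancel₀ (by positivity)
    _ = M + 1 := by simp

theorem prpd_lO (M I : ℕ) (U : Fin 4 → ℂ) (y σ : ℂ) (V : F[X]) {e : Finset F[X]}
    (he : e ⊆ pr F M) :
    ∏ P ∈ pr F M \ e, lO M I U y σ (V * ∏ P ∈ e, P) P =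
      ∏ P ∈ pr F M, (1 + jac (V * ∏ P ∈ e, P) P *
        (fun d => Od M (pw U d) * rho I y d * dy F σ y ^ d) P.natDegree +
        (fun P : F[X] => if P ∈ e then 0 else
          Ev M (pw U P.natDegree) * rho I y P.natDegree) P) := by
  rw [← prod_sdiff he]
  have h1 : ∏ P ∈ e, (1 + jac (V * ∏ P ∈ e, P) P *
        (fun d => Od M (pw U d) * rho I y d * dy F σ y ^ d) P.natDegree +
        (fun P : F[X] => if P ∈ e then 0 else
          Ev M (pw U P.natDegree) * rho I y P.natDegree) P) = 1 := by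
    refine prod_eq_one fun P hP => ?_
    have h2 := mem_pr.1 (he hP)
    have h3 := jac_sq_prime (V * ∏ P ∈ e, P) h2.1 h2.2.1
    rw [if_pos ((dvd_prod_of_mem (fun P => P) hP).mul_left V)] at h3
    have h4 : jac (V * ∏ P ∈ e, P) P = 0 := pow_eq_zero_iff two_ne_zero |>.1 h3
    simp only [h4, if_pos hP, zero_mul, add_zero]
  rw [h1, mul_one]
  refine prod_congr rfl fun P hP => ?_
  simp only [lO, if_neg (mem_sdiff.1 hP).2, Algebra.algebraMap_self, RingHom.id_apply]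
  ring

theorem prpd_qp_sum {ι : Type*} (s : Finset ι) (f : ι → ℝ) :
    qp F (∑ i ∈ s, f i) = ∏ i ∈ s, qp F (f i) := by
  induction s using Finset.induction_on with
  | empty => simp [qp_zero]
  | insert a s ha ih => rw [sum_insert ha, prod_insert ha, qp_add, ih]

theorem Pr_bound (hF : ringChar F ≠ 2) {ε : ℝ} (hε : 0 < ε) : ∃ C : ℝ,
    ∀ (M I : ℕ) (U : Fin 4 → ℂ) (y : ℂ), (∀ i, ‖U i‖ ≤ qp F (-(1 / 2 + ε))) →
      ‖y‖ ≤ qp F (-ε) → (∀ i, qp F (1 / 2) * ‖y‖ * ‖U i‖ ≤ qp F (-(1 / 2 + ε))) →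
      ‖Pr F M I U y‖ ≤ C * qp F (ε * M) := by
  set κ : ℝ := 40 * (1 - qp F (-(2 * ε)))⁻¹ with hκ
  have hκ0 : 0 ≤ κ := mul_nonneg (by norm_num) (prpd_k_pos hε).le
  obtain ⟨C₁, hC₁, h₁⟩ := EP (F := F) hε hκ0 (η := ε / 4) (by linarith)
  obtain ⟨C₂, h₂⟩ := sum_powerset_le (F := F) hε hκ0
  obtain ⟨C₃, hC₃, h₃⟩ := nat_le_qp (F := F) (ε := ε / 2) (by linarith)
  refine ⟨2 * ((2 + Q F) * (C₃ * (C₁ * qp F (ε / 2) * C₂))), fun M I U y hU hy hUy => ?_⟩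
  have hy1 : ‖y‖ ≤ 1 := hy.trans (qp_le_one (by linarith))
  have hC₂ : 0 ≤ C₂ := le_trans
    (sum_nonneg fun e _ => prod_nonneg fun P _ => mul_nonneg hκ0 (qp_pos _).le) (h₂ M)
  have key : ∀ σ : ℂ, ‖σ‖ = 1 → ∀ V ∈ monLe F M, ∀ e ∈ (pr F M).powerset,
      ¬ IsSquare (V * ∏ P ∈ e, P) →
      ‖(∏ P ∈ e, lE M I U y P.natDegree) *
        ∏ P ∈ pr F M \ e, lO M I U y σ (V * ∏ P ∈ e, P) P‖ ≤
      C₁ * qp F (ε / 2) * qp F (ε / 2 * M) *
        ∏ P ∈ e, κ * qp F (-(1 + ε) * P.natDegree) := by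
    intro σ hσ V hV e he hs
    have he' := mem_powerset.1 he
    obtain ⟨hm, -, hd, -⟩ := monic_sqfree_prod he'
    obtain ⟨hVm, hVd⟩ := mem_monLe.1 hV
    have hW := hVm.mul hm
    have hdW : ((V * ∏ P ∈ e, P).natDegree : ℝ) ≤ M + ∑ P ∈ e, (P.natDegree : ℝ) := by
      rw [hVm.natDegree_mul hm, hd]
      push_cast
      have : (V.natDegree : ℝ) ≤ M := by exact_mod_cast hVd
      linarith
    have h4 := h₁ M (jac (V * ∏ P ∈ e, P)) _
      (fun d => Od M (pw U d) * rho I y d * dy F σ y ^ d)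
      (fun P : F[X] => if P ∈ e then 0 else Ev M (pw U P.natDegree) * rho I y P.natDegree)
      (by positivity) (small_jac hF hW hs) (fun d hd => prpd_Od hF hε M I hσ hU hy hUy hd)
      (fun P hP => by
        have h5 := deg_pos (mem_pr.1 hP).2.1
        split_ifs
        · rw [norm_zero]
          exact mul_nonneg hκ0 (qp_pos _).le
        · refine (prpd_Evrho hF hε M I hU hy h5).trans
            (mul_le_mul_of_nonneg_left (qp_mono ?_) hκ0)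
          have : (0 : ℝ) ≤ P.natDegree := Nat.cast_nonneg _
          nlinarith)
    rw [← prpd_lO M I U y σ V he'] at h4
    have h5 : qp F (ε / 4 * (2 * ((V * ∏ P ∈ e, P).natDegree : ℝ) + 2)) ≤
        qp F (ε / 2) * qp F (ε / 2 * M) * ∏ P ∈ e, qp F (ε / 2 * P.natDegree) := by
      rw [← prpd_qp_sum, ← qp_add, ← qp_add, ← mul_sum]
      exact qp_mono (by nlinarith)
    have h6 : ‖∏ P ∈ e, lE M I U y P.natDegree‖ * ∏ P ∈ e, qp F (ε / 2 * P.natDegree) ≤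
        ∏ P ∈ e, κ * qp F (-(1 + ε) * P.natDegree) := by
      rw [norm_prod, ← prod_mul_distrib]
      refine prod_le_prod (fun P _ => mul_nonneg (norm_nonneg _) (qp_pos _).le) fun P hP => ?_
      have h7 := deg_pos (mem_pr.1 (he' hP)).2.1
      have h8 : ‖lE M I U y P.natDegree‖ ≤ κ * qp F (-(1 + 2 * ε) * P.natDegree) := by
        rw [lE, norm_neg, norm_mul, norm_pow]
        exact (mul_le_of_le_one_right (norm_nonneg _) (pow_le_one₀ (norm_nonneg _) hy1)).trans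
          (prpd_Evrho hF hε M I hU hy h7)
      refine (mul_le_mul_of_nonneg_right h8 (qp_pos _).le).trans ?_
      rw [mul_assoc, ← qp_add]
      refine mul_le_mul_of_nonneg_left (qp_mono ?_) hκ0
      have : (0 : ℝ) ≤ P.natDegree := Nat.cast_nonneg _
      nlinarith
    have h9 : 0 ≤ C₁ * qp F (ε / 2) * qp F (ε / 2 * M) :=
      mul_nonneg (mul_nonneg hC₁ (qp_pos _).le) (qp_pos _).le
    rw [norm_mul]
    calc _ ≤ ‖∏ P ∈ e, lE M I U y P.natDegree‖ * (C₁ * (qp F (ε / 2) * qp F (ε / 2 * M) *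
          ∏ P ∈ e, qp F (ε / 2 * P.natDegree))) :=
          mul_le_mul_of_nonneg_left (h4.trans (mul_le_mul_of_nonneg_left h5 hC₁)) (norm_nonneg _)
      _ = C₁ * qp F (ε / 2) * qp F (ε / 2 * M) *
          (‖∏ P ∈ e, lE M I U y P.natDegree‖ * ∏ P ∈ e, qp F (ε / 2 * P.natDegree)) := by ring
      _ ≤ _ := mul_le_mul_of_nonneg_left h6 h9
  have key2 : ∀ σ : ℂ, ‖σ‖ = 1 → ‖kap F σ y * ∑ V ∈ monLe F M,
      ∑ e ∈ (pr F M).powerset with ¬ IsSquare (V * ∏ P ∈ e, P), wV F M y V *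
        ((∏ P ∈ e, lE M I U y P.natDegree) *
          ∏ P ∈ pr F M \ e, lO M I U y σ (V * ∏ P ∈ e, P) P)‖ ≤
      (2 + Q F) * (C₃ * (C₁ * qp F (ε / 2) * C₂)) * qp F (ε * M) := by
    intro σ hσ
    have h9 : 0 ≤ C₁ * qp F (ε / 2) * qp F (ε / 2 * M) :=
      mul_nonneg (mul_nonneg hC₁ (qp_pos _).le) (qp_pos _).le
    have h4 : ∀ V ∈ monLe F M,
        ‖∑ e ∈ (pr F M).powerset with ¬ IsSquare (V * ∏ P ∈ e, P), wV F M y V *
          ((∏ P ∈ e, lE M I U y P.natDegree) *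
            ∏ P ∈ pr F M \ e, lO M I U y σ (V * ∏ P ∈ e, P) P)‖ ≤
        ‖wV F M y V‖ * (C₁ * qp F (ε / 2) * qp F (ε / 2 * M) * C₂) := by
      intro V hV
      rw [← mul_sum, norm_mul]
      refine mul_le_mul_of_nonneg_left ((norm_sum_le _ _).trans ?_) (norm_nonneg _)
      calc _ ≤ ∑ e ∈ (pr F M).powerset with ¬ IsSquare (V * ∏ P ∈ e, P),
            C₁ * qp F (ε / 2) * qp F (ε / 2 * M) *
              ∏ P ∈ e, κ * qp F (-(1 + ε) * P.natDegree) :=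
            sum_le_sum fun e he => key σ hσ V hV e (mem_filter.1 he).1 (mem_filter.1 he).2
        _ ≤ ∑ e ∈ (pr F M).powerset, C₁ * qp F (ε / 2) * qp F (ε / 2 * M) *
              ∏ P ∈ e, κ * qp F (-(1 + ε) * P.natDegree) :=
            sum_le_sum_of_subset_of_nonneg (filter_subset _ _) fun e _ _ =>
              mul_nonneg h9 (prod_nonneg fun P _ => mul_nonneg hκ0 (qp_pos _).le)
        _ ≤ _ := by
            rw [← mul_sum]
            exact mul_le_mul_of_nonneg_left (h₂ M) h9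
    have h5 := (norm_sum_le _ _).trans (sum_le_sum h4)
    rw [← sum_mul] at h5
    have h6 := h5.trans (mul_le_mul_of_nonneg_right ((prpd_wV hε M hy).trans (h₃ M))
      (mul_nonneg h9 hC₂))
    have h7 : qp F (ε * M) = qp F (ε / 2 * M) * qp F (ε / 2 * M) := by
      rw [← qp_add]
      congr 1
      ring
    rw [norm_mul, h7]
    refine (mul_le_mul (norm_kap_le hσ hy1) h6 (norm_nonneg _) (by positivity)).trans_eq ?_
    ring
  rw [Pr, sum_pair (by norm_num : (1 : ℂ) ≠ -1)]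
  refine (norm_add_le _ _).trans ((add_le_add (key2 1 norm_one) (key2 (-1) (by simp))).trans_eq ?_)
  ring

theorem Pd_bound (hF : ringChar F ≠ 2) {ε : ℝ} (hε : 0 < ε) : ∃ C : ℝ,
    ∀ (M I : ℕ) (U : Fin 4 → ℂ) (y : ℂ), (∀ i, ‖U i‖ ≤ qp F (-(1 / 2 + ε))) →
      ‖y‖ ≤ qp F (-ε) → ‖Pd F M I U y‖ ≤ C := by
  set κ : ℝ := 40 * (1 - qp F (-(2 * ε)))⁻¹ with hκ
  have hκ0 : 0 ≤ κ := mul_nonneg (by norm_num) (prpd_k_pos hε).le
  obtain ⟨C₁, -, h₁⟩ := EP (F := F) hε (κ := 2 * κ) (by linarith) hε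
  refine ⟨C₁, fun M I U y hU hy => ?_⟩
  have hy1 : ‖y‖ ≤ 1 := hy.trans (qp_le_one (by linarith))
  have h4 := h₁ M (fun _ => 0) 0 (fun _ => 0)
    (fun P : F[X] => Ev M (pw U P.natDegree) * rho I y P.natDegree * (1 - y ^ P.natDegree))
    le_rfl small_zero
    (fun d _ => by
      rw [norm_zero]
      exact mul_nonneg (by linarith) (qp_pos _).le)
    (fun P hP => by
      have h5 := deg_pos (mem_pr.1 hP).2.1
      have h6 : ‖1 - y ^ P.natDegree‖ ≤ 2 := by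
        refine (norm_sub_le _ _).trans ?_
        rw [norm_one, norm_pow]
        linarith [pow_le_one₀ (n := P.natDegree) (norm_nonneg _) hy1]
      have h7 : ‖Ev M (pw U P.natDegree) * rho I y P.natDegree‖ ≤
          κ * qp F (-(1 + ε) * P.natDegree) := by
        refine (prpd_Evrho hF hε M I hU hy h5).trans
          (mul_le_mul_of_nonneg_left (qp_mono ?_) hκ0)
        have : (0 : ℝ) ≤ P.natDegree := Nat.cast_nonneg _
        nlinarith
      rw [norm_mul]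
      refine (mul_le_mul h7 h6 (norm_nonneg _) (mul_nonneg hκ0 (qp_pos _).le)).trans_eq ?_
      ring)
  simpa only [Pd, mul_zero, add_zero, qp_zero, mul_one] using h4

end Pool.Agent.MP_dd7250_nt

end

section

/- The square dual terms. -/

set_option autoImplicit false

namespace Pool.Agent.MP_dd7250_nt

open Polynomial Finset Pool.Agent.MP_d232b3_nt
open scoped Classical

variable {F : Type*} [Field F] [Fintype F]

theorem psb_om (M : ℕ) {z₀ z₁ w₂ w₃ : ℂ} {θ : ℝ} (hθ : θ ≤ 3 / 5) (h₀ : ‖z₀‖ ≤ θ) (h₁ : ‖z₁‖ ≤ θ)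
    (h₂ : ‖w₂‖ ≤ θ) (h₃ : ‖w₃‖ ≤ θ) :
    ‖(1 - z₀) * (1 - z₁) * (gam M w₂ * gam M w₃)‖ ≤ 16 ∧ (1 ≤ M →
      ‖(1 - z₀) * (1 - z₁) * (gam M w₂ * gam M w₃) - (1 - (z₀ + z₁ - (w₂ + w₃)))‖ ≤
        35 * θ ^ 2) := by
  have h0 : 0 ≤ θ := (norm_nonneg _).trans h₀
  have g : ∀ w : ℂ, ‖w‖ ≤ θ → ‖gam M w‖ ≤ 5 / 2 ∧ ‖gam M w - 1‖ ≤ 5 / 2 * θ ∧
      (1 ≤ M → ‖gam M w - 1 - w‖ ≤ 5 / 2 * θ ^ 2) := by
    intro w hw
    have e : (1 - 3 / 5 : ℝ)⁻¹ = 5 / 2 := by norm_num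
    refine ⟨e ▸ norm_gam_le (by norm_num) (hw.trans hθ), ?_, fun hM => ?_⟩
    · exact (norm_gam_sub_one (r := 3 / 5) (by norm_num) (hw.trans hθ)).trans
        (e ▸ mul_le_mul_of_nonneg_left hw (by norm_num))
    · exact (norm_gam_sub_sub hM (r := 3 / 5) (by norm_num) (hw.trans hθ)).trans
        (e ▸ mul_le_mul_of_nonneg_left (pow_le_pow_left₀ (norm_nonneg _) hw 2) (by norm_num))
  obtain ⟨a1, a2, a3⟩ := g w₂ h₂
  obtain ⟨b1, b2, b3⟩ := g w₃ h₃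
  constructor
  · exact (loc_mul (loc_mul (loc_sub norm_one.le (h₀.trans hθ)) (loc_sub norm_one.le (h₁.trans hθ)))
      (loc_mul a1 b1)).trans (by norm_num)
  · intro hM
    have e : (1 - z₀) * (1 - z₁) * (gam M w₂ * gam M w₃) - (1 - (z₀ + z₁ - (w₂ + w₃))) =
        (gam M w₂ - 1 - w₂) + (gam M w₃ - 1 - w₃) + (gam M w₂ - 1) * (gam M w₃ - 1) -
          (z₀ + z₁) * ((gam M w₂ - 1) * gam M w₃ + (gam M w₃ - 1)) +
          z₀ * z₁ * (gam M w₂ * gam M w₃) := by ring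
    rw [e]
    refine (loc_add (loc_sub (loc_add (loc_add (a3 hM) (b3 hM)) (loc_mul a2 b2))
      (loc_mul (loc_add h₀ h₁) (loc_add (loc_mul a2 b1) b2)))
      (loc_mul (loc_mul h₀ h₁) (loc_mul a1 b1))).trans_eq (by ring)

theorem psb_loc (hF : ringChar F ≠ 2) {ε : ℝ} (hε : 0 < ε) (hε' : ε ≤ 1 / 4) (M I : ℕ)
    {U : Fin 4 → ℂ} {y σ : ℂ} (hσ : ‖σ‖ = 1) (hU : ∀ i, ‖U i‖ ≤ qp F (-(1 / 2 + 2 * ε)))
    (hy : ‖y‖ = qp F (-(1 / 2 - ε))) {d : ℕ} (hd : 1 ≤ d) :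
    ‖om F M U y σ d * (Od M (pw U d) * rho I y d * dy F σ y ^ d)‖ ≤
        5000 * qp F (-(1 / 2 + ε) * d) ∧
      ‖om F M U y σ d * lE M I U y d‖ * qp F ((1 / 2 + ε) * d) ≤ 5000 * qp F (-(1 + ε) * d) ∧
      (1 ≤ M → ‖om F M U y σ d * (1 + Ev M (pw U d) * rho I y d +
        Od M (pw U d) * rho I y d * dy F σ y ^ d) - 1‖ ≤ 5000 * qp F (-(1 + ε) * d)) := by
  have hd' : (1 : ℝ) ≤ d := by exact_mod_cast hd
  set τ := qp F (-(1 / 2 + 2 * ε) * d) with hτ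
  set θ := qp F (-(1 / 2 + ε) * d) with hθ
  set η := qp F (-(1 / 2 - ε) * d) with hη
  set μ := qp F (-(1 + ε) * d) with hμ
  have τ0 : 0 < τ := qp_pos _
  have θ0 : 0 < θ := qp_pos _
  have η0 : 0 < η := qp_pos _
  have μ0 : 0 < μ := qp_pos _
  have τ1 : τ ≤ 3 / 5 := qp_le_of hF (by nlinarith)
  have θ1 : θ ≤ 3 / 5 := qp_le_of hF (by nlinarith)
  have ha : ∀ i, ‖pw U d i‖ ≤ τ := fun i => (loc_pow (hU i) d).trans_eq (qp_pow _ _)
  have hδ : ‖dy F σ y ^ d‖ ≤ qp F (ε * d) := by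
    rw [norm_pow, norm_dy hσ, hy, ← qp_add, qp_pow]
    exact le_of_eq (by congr 2; ring)
  have hτδ : τ * qp F (ε * d) = θ := by
    rw [hτ, ← qp_add]
    congr 1
    ring
  have hz : ∀ i, (dy F σ y * U i) ^ d = pw U d i * dy F σ y ^ d := fun i => by
    rw [mul_pow, mul_comm, pw]
  have hz' : ∀ i, ‖(dy F σ y * U i) ^ d‖ ≤ θ := fun i => by
    rw [hz, ← hτδ]
    exact loc_mul (ha i) hδ
  have hyd : ‖y ^ d‖ ≤ η := (loc_pow hy.le d).trans_eq (qp_pow _ _)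
  have η1 : η ^ 2 ≤ 3 / 5 := by
    rw [hη, qp_pow]
    exact qp_le_of hF (by push_cast; nlinarith)
  have hy2 := loc_pow hyd 2
  have e5 : (1 - 3 / 5 : ℝ)⁻¹ = 5 / 2 := by norm_num
  have ρ1 : ‖rho I y d‖ ≤ 5 / 2 := e5 ▸ norm_gam_le (by norm_num) (hy2.trans η1)
  have ρ2 : ‖rho I y d - 1‖ ≤ 5 / 2 * η ^ 2 :=
    (norm_gam_sub_one (r := 3 / 5) (by norm_num) (hy2.trans η1)).trans
      (e5 ▸ mul_le_mul_of_nonneg_left hy2 (by norm_num))
  obtain ⟨o1, o2⟩ := psb_om M θ1 (hz' 0) (hz' 1) (hz' 2) (hz' 3)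
  change ‖om F M U y σ d‖ ≤ 16 at o1
  have hE := norm_Ev_le M τ1 ha
  have hO := norm_Od_le M τ1 ha
  have hO' := norm_Od_sub M τ1 ha
  have m1 : τ ^ 2 ≤ μ := by
    rw [hτ, qp_pow]
    exact qp_mono (by push_cast; nlinarith)
  have m2 : θ ^ 2 ≤ μ := by
    rw [hθ, qp_pow]
    exact qp_mono (by push_cast; nlinarith)
  have m3 : θ * η ^ 2 ≤ μ := by
    rw [hθ, hη, qp_pow, ← qp_add]
    exact qp_mono (by push_cast; nlinarith)
  have m4 : τ ^ 2 * η * qp F ((1 / 2 + ε) * d) ≤ μ := by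
    rw [hτ, hη, qp_pow, ← qp_add, ← qp_add]
    exact qp_mono (by push_cast; nlinarith)
  refine ⟨?_, ?_, fun hM => ?_⟩
  · refine (loc_mul o1 (loc_mul (loc_mul hO ρ1) hδ)).trans ?_
    calc _ = 1600 * (τ * qp F (ε * d)) := by ring
      _ ≤ _ := by rw [hτδ]; linarith
  · have h1 : ‖lE M I U y d‖ ≤ 40 * τ ^ 2 * (5 / 2) * η := by
      rw [lE, norm_neg]
      exact loc_mul (loc_mul hE ρ1) hyd
    refine (mul_le_mul_of_nonneg_right (loc_mul o1 h1) (qp_pos _).le).trans ?_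
    calc _ = 1600 * (τ ^ 2 * η * qp F ((1 / 2 + ε) * d)) := by ring
      _ ≤ _ := by linarith
  · replace o2 := o2 hM
    change ‖om F M U y σ d - _‖ ≤ _ at o2
    have hs := loc_sub (loc_add (hz' 0) (hz' 1)) (loc_add (hz' 2) (hz' 3))
    set s := (dy F σ y * U 0) ^ d + (dy F σ y * U 1) ^ d -
      ((dy F σ y * U 2) ^ d + (dy F σ y * U 3) ^ d) with hs'
    have e : om F M U y σ d * (1 + Ev M (pw U d) * rho I y d +
        Od M (pw U d) * rho I y d * dy F σ y ^ d) - 1 =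
        (om F M U y σ d - (1 - s)) * (1 + s) - s * s + om F M U y σ d * (Ev M (pw U d) * rho I y d +
          (Od M (pw U d) - (pw U d 0 + pw U d 1 - (pw U d 2 + pw U d 3))) * dy F σ y ^ d +
          Od M (pw U d) * dy F σ y ^ d * (rho I y d - 1)) := by
      rw [hs', hz, hz, hz, hz]
      ring
    rw [e]
    refine (loc_add (loc_sub (loc_mul o2 (loc_add norm_one.le hs)) (loc_mul hs hs))
      (loc_mul o1 (loc_add (loc_add (loc_mul hE ρ1) (loc_mul hO' hδ))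
        (loc_mul (loc_mul hO hδ) ρ2)))).trans ?_
    have n1 : θ ^ 2 * θ ≤ μ := by nlinarith
    have n2 : τ ^ 2 * θ ≤ μ := by nlinarith
    calc _ = 51 * θ ^ 2 + 140 * (θ ^ 2 * θ) + 1600 * τ ^ 2 + 640 * (τ ^ 2 * (τ * qp F (ε * d))) +
          1600 * (τ * qp F (ε * d) * η ^ 2) := by ring
      _ ≤ _ := by rw [hτδ]; linarith

theorem psb_lO (M I : ℕ) (U : Fin 4 → ℂ) (y σ : ℂ) {W : F[X]} (hW : IsSquare W)
    {e : Finset F[X]} (he : e ⊆ pr F M) :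
    ∏ P ∈ pr F M \ e, om F M U y σ P.natDegree * lO M I U y σ W P =
      ∏ P ∈ pr F M, (1 + (fun P : F[X] => if P ∣ W ∧ P ∉ e then (1 : ℂ) else 0) P *
        (fun d => -(om F M U y σ d * (Od M (pw U d) * rho I y d * dy F σ y ^ d))) P.natDegree +
        (fun P : F[X] => if P ∈ e then 0 else om F M U y σ P.natDegree *
          (1 + Ev M (pw U P.natDegree) * rho I y P.natDegree + Od M (pw U P.natDegree) *
            rho I y P.natDegree * dy F σ y ^ P.natDegree) - 1) P) := by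
  rw [← prod_sdiff he, prod_eq_one (s := e) fun P hP => by simp [hP], mul_one]
  refine prod_congr rfl fun P hP => ?_
  obtain ⟨h1, h2⟩ := mem_sdiff.1 hP
  obtain ⟨h3, h4, -⟩ := mem_pr.1 h1
  simp only [lO, jac_of_isSquare hW h3 h4, h2, Algebra.algebraMap_self, RingHom.id_apply,
    not_false_eq_true, and_true, if_false]
  split_ifs <;> ring

theorem psb_sq {ε : ℝ} (hε : 0 < ε) (M : ℕ) {E : F[X]} (hE : E.Monic) :
    ∑ V ∈ monLe F M with IsSquare (V * E), qp F (-(1 / 2 + ε / 2) * (V * E).natDegree) ≤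
      (1 - qp F (-ε))⁻¹ := by
  have h1 := sum_image (s := (monLe F M).filter fun V => IsSquare (V * E)) (g := fun V => V * E)
    (f := fun W : F[X] => qp F (-(1 / 2 + ε / 2) * W.natDegree))
    fun V _ V' _ h => mul_right_cancel₀ hE.ne_zero h
  rw [← h1]
  refine (sum_le_sum_of_subset_of_nonneg (t := (monLe F (M + E.natDegree)).image fun Y => Y * Y)
    (fun W hW => ?_) fun _ _ _ => (qp_pos _).le).trans
      ((sum_image_le_of_nonneg fun _ _ => (qp_pos _).le).trans ?_)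
  · obtain ⟨V, hV, rfl⟩ := mem_image.1 hW
    obtain ⟨hV, Z, hZ⟩ := mem_filter.1 hV
    obtain ⟨hm, hd⟩ := mem_monLe.1 hV
    have h2 : Z.leadingCoeff * Z.leadingCoeff = 1 := by
      rw [← leadingCoeff_mul, ← hZ]
      exact hm.mul hE
    have h3 : (C Z.leadingCoeff * Z).Monic := monic_C_mul_of_mul_leadingCoeff_eq_one h2
    have h4 : C Z.leadingCoeff * Z * (C Z.leadingCoeff * Z) = V * E := by
      rw [mul_mul_mul_comm, ← C_mul, h2, C_1, one_mul, hZ]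
    refine mem_image.2 ⟨_, mem_monLe.2 ⟨h3, ?_⟩, h4⟩
    have h5 := congrArg natDegree h4
    rw [h3.natDegree_mul h3, hm.natDegree_mul hE] at h5
    omega
  · refine le_trans ?_ (ep_geom (qp_pos _).le (qp_lt_one (neg_neg_of_pos hε))
      (M + E.natDegree + 1))
    rw [sum_monLe]
    refine sum_le_sum fun d _ => le_of_eq ?_
    rw [sum_congr rfl fun Y hY => by
      rw [(mem_monF.1 hY).1.natDegree_mul (mem_monF.1 hY).1, (mem_monF.1 hY).2], sum_const,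
      card_monF, nsmul_eq_mul, Nat.cast_pow, ← qp_nat, ← qp_add, qp_pow]
    congr 1
    push_cast
    ring

theorem psb_qp_sum {ι : Type*} (s : Finset ι) (f : ι → ℝ) :
    qp F (∑ i ∈ s, f i) = ∏ i ∈ s, qp F (f i) := by
  induction s using Finset.induction_on with
  | empty => simp [qp_zero]
  | insert a s ha ih => rw [sum_insert ha, prod_insert ha, qp_add, ih]

theorem psb_wV {ε : ℝ} {M : ℕ} {y : ℂ} (hy : ‖y‖ = qp F (-(1 / 2 - ε))) {V : F[X]}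
    (hV : V.natDegree ≤ M) :
    ‖wV F M y V‖ = ‖y‖ ^ M * qp F (-(1 / 2 + ε) * V.natDegree) := by
  rw [wV, norm_mul, norm_pow, hy, qp_pow, qp_pow, ← qp_add, Nat.cast_sub hV]
  simp only [Algebra.algebraMap_self, RingHom.id_apply, norm_inv, norm_pow, Complex.norm_natCast]
  rw [← qp_nat, ← qp_neg, ← qp_add]
  congr 1
  ring

theorem Ps_bound (hF : ringChar F ≠ 2) {ε : ℝ} (hε : 0 < ε) (hε' : ε ≤ 1 / 4) : ∃ C : ℝ,
    ∀ (M I : ℕ) (U : Fin 4 → ℂ) (y : ℂ), (∀ i, ‖U i‖ ≤ qp F (-(1 / 2 + 2 * ε))) →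
      ‖y‖ = qp F (-(1 / 2 - ε)) → ‖Ps F M I U y‖ ≤ C * ‖y‖ ^ M := by
  obtain ⟨C₁, hC₁, h₁⟩ := EP (F := F) hε (κ := 5000) (by norm_num) (half_pos hε)
  obtain ⟨C₂, h₂⟩ := sum_powerset_le (F := F) hε (κ := 5000) (by norm_num)
  refine ⟨2 * ((2 + Q F) * (1 + Q F) ^ 4 * (C₁ * (1 - qp F (-ε))⁻¹ * C₂)),
    fun M I U y hU hy => ?_⟩
  have hy1 : ‖y‖ ≤ 1 := hy.trans_le (qp_le_one (by linarith))
  have hk : 0 ≤ (1 - qp F (-ε))⁻¹ := (inv_pos.2 (sub_pos.2 (qp_lt_one (by linarith)))).le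
  have hp : ∀ e : Finset F[X], 0 ≤ ∏ P ∈ e, 5000 * qp F (-(1 + ε) * P.natDegree) := fun e =>
    prod_nonneg fun P _ => mul_nonneg (by norm_num) (qp_pos _).le
  have key : ∀ σ : ℂ, ‖σ‖ = 1 → ∀ V ∈ monLe F M, ∀ e ∈ (pr F M).powerset,
      IsSquare (V * ∏ P ∈ e, P) →
      ‖wV F M y V * ((∏ P ∈ e, om F M U y σ P.natDegree * lE M I U y P.natDegree) *
        ∏ P ∈ pr F M \ e, om F M U y σ P.natDegree * lO M I U y σ (V * ∏ P ∈ e, P) P)‖ ≤
      (‖y‖ ^ M * C₁ * ∏ P ∈ e, 5000 * qp F (-(1 + ε) * P.natDegree)) *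
        qp F (-(1 / 2 + ε / 2) * (V * ∏ P ∈ e, P).natDegree) := by
    intro σ hσ V hV e he hs
    have he' := mem_powerset.1 he
    obtain ⟨hm, -, hd, -⟩ := monic_sqfree_prod he'
    obtain ⟨hVm, hVd⟩ := mem_monLe.1 hV
    have hW := hVm.mul hm
    have h4 := h₁ M _ _
      (fun d => -(om F M U y σ d * (Od M (pw U d) * rho I y d * dy F σ y ^ d)))
      (fun P : F[X] => if P ∈ e then 0 else om F M U y σ P.natDegree *
        (1 + Ev M (pw U P.natDegree) * rho I y P.natDegree + Od M (pw U P.natDegree) *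
          rho I y P.natDegree * dy F σ y ^ P.natDegree) - 1)
      (Nat.cast_nonneg _) (small_dvd hW e)
      (fun d hd => (norm_neg _).trans_le (psb_loc hF hε hε' M I hσ hU hy hd).1)
      (fun P hP => by
        have h5 := deg_pos (mem_pr.1 hP).2.1
        split_ifs
        · rw [norm_zero]
          exact mul_nonneg (by norm_num) (qp_pos _).le
        · exact (psb_loc hF hε hε' M I hσ hU hy h5).2.2 (h5.trans_le (mem_pr.1 hP).2.2))
    rw [← psb_lO M I U y σ hs he'] at h4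
    have h5 : qp F (-(1 / 2 + ε) * V.natDegree) * qp F (ε / 2 * (V * ∏ P ∈ e, P).natDegree) =
        (∏ P ∈ e, qp F ((1 / 2 + ε) * P.natDegree)) *
          qp F (-(1 / 2 + ε / 2) * (V * ∏ P ∈ e, P).natDegree) := by
      rw [← psb_qp_sum, ← qp_add, ← qp_add, ← mul_sum, hVm.natDegree_mul hm, hd]
      congr 1
      push_cast
      ring
    have h6 : ‖∏ P ∈ e, om F M U y σ P.natDegree * lE M I U y P.natDegree‖ *
        ∏ P ∈ e, qp F ((1 / 2 + ε) * P.natDegree) ≤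
        ∏ P ∈ e, 5000 * qp F (-(1 + ε) * P.natDegree) := by
      rw [norm_prod, ← prod_mul_distrib]
      exact prod_le_prod (fun P _ => mul_nonneg (norm_nonneg _) (qp_pos _).le) fun P hP =>
        (psb_loc hF hε hε' M I hσ hU hy (deg_pos (mem_pr.1 (he' hP)).2.1)).2.1
    have h7 := qp_pos (F := F) (-(1 / 2 + ε) * V.natDegree)
    have h8 := qp_pos (F := F) (-(1 / 2 + ε / 2) * (V * ∏ P ∈ e, P).natDegree)
    rw [norm_mul, norm_mul, psb_wV hy hVd]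
    calc _ ≤ ‖y‖ ^ M * qp F (-(1 / 2 + ε) * V.natDegree) *
          (‖∏ P ∈ e, om F M U y σ P.natDegree * lE M I U y P.natDegree‖ *
            (C₁ * qp F (ε / 2 * (V * ∏ P ∈ e, P).natDegree))) := by gcongr
      _ = ‖y‖ ^ M * C₁ * ‖∏ P ∈ e, om F M U y σ P.natDegree * lE M I U y P.natDegree‖ *
          (qp F (-(1 / 2 + ε) * V.natDegree) * qp F (ε / 2 * (V * ∏ P ∈ e, P).natDegree)) := by
          ring
      _ = ‖y‖ ^ M * C₁ * (‖∏ P ∈ e, om F M U y σ P.natDegree * lE M I U y P.natDegree‖ *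
          ∏ P ∈ e, qp F ((1 / 2 + ε) * P.natDegree)) *
          qp F (-(1 / 2 + ε / 2) * (V * ∏ P ∈ e, P).natDegree) := by rw [h5]; ring
      _ ≤ _ := by gcongr
  have key2 : ∀ σ : ℂ, ‖σ‖ = 1 → ‖∑ V ∈ monLe F M,
      ∑ e ∈ (pr F M).powerset with IsSquare (V * ∏ P ∈ e, P), wV F M y V *
        ((∏ P ∈ e, om F M U y σ P.natDegree * lE M I U y P.natDegree) *
          ∏ P ∈ pr F M \ e, om F M U y σ P.natDegree * lO M I U y σ (V * ∏ P ∈ e, P) P)‖ ≤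
      C₁ * (1 - qp F (-ε))⁻¹ * C₂ * ‖y‖ ^ M := by
    intro σ hσ
    calc _ ≤ ∑ V ∈ monLe F M, ∑ e ∈ (pr F M).powerset with IsSquare (V * ∏ P ∈ e, P),
          (‖y‖ ^ M * C₁ * ∏ P ∈ e, 5000 * qp F (-(1 + ε) * P.natDegree)) *
            qp F (-(1 / 2 + ε / 2) * (V * ∏ P ∈ e, P).natDegree) :=
          norm_sum_le_of_le _ fun V hV => norm_sum_le_of_le _ fun e he =>
            key σ hσ V hV e (mem_filter.1 he).1 (mem_filter.1 he).2
      _ = ∑ e ∈ (pr F M).powerset, (‖y‖ ^ M * C₁ * ∏ P ∈ e, 5000 * qp F (-(1 + ε) * P.natDegree)) *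
          ∑ V ∈ monLe F M with IsSquare (V * ∏ P ∈ e, P),
            qp F (-(1 / 2 + ε / 2) * (V * ∏ P ∈ e, P).natDegree) := by
          simp only [mul_sum, sum_filter]
          rw [sum_comm]
          simp only [mul_ite, mul_zero]
      _ ≤ ∑ e ∈ (pr F M).powerset, (‖y‖ ^ M * C₁ * ∏ P ∈ e, 5000 * qp F (-(1 + ε) * P.natDegree)) *
          (1 - qp F (-ε))⁻¹ := sum_le_sum fun e he => mul_le_mul_of_nonneg_left
            (psb_sq hε M (monic_sqfree_prod (mem_powerset.1 he)).1)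
            (mul_nonneg (by positivity) (hp e))
      _ ≤ ‖y‖ ^ M * C₁ * C₂ * (1 - qp F (-ε))⁻¹ := by
          rw [← sum_mul, ← mul_sum]
          exact mul_le_mul_of_nonneg_right (mul_le_mul_of_nonneg_left (h₂ M) (by positivity)) hk
      _ = _ := by ring
  have key3 : ∀ σ : ℂ, ‖σ‖ = 1 → ‖kap F σ y *
      ((1 + qA F ℂ * (dy F σ y * U 0)) * (1 + qA F ℂ * (dy F σ y * U 1)) *
        ((1 - qA F ℂ * (dy F σ y * U 2)) * (1 - qA F ℂ * (dy F σ y * U 3))))‖ ≤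
      (2 + Q F) * (1 + Q F) ^ 4 := by
    intro σ hσ
    have h3 : ∀ i, ‖qA F ℂ * (dy F σ y * U i)‖ ≤ Q F := fun i => by
      refine (loc_mul loc_norm_q.le (loc_mul (norm_dy hσ y).le (hU i))).trans
        (mul_le_of_le_one_right (Nat.cast_nonneg _) ?_)
      rw [hy, ← qp_add, ← qp_add]
      exact qp_le_one (by linarith)
    exact (loc_mul (norm_kap_le hσ hy1) (loc_mul
      (loc_mul (loc_add norm_one.le (h3 0)) (loc_add norm_one.le (h3 1)))
      (loc_mul (loc_sub norm_one.le (h3 2)) (loc_sub norm_one.le (h3 3))))).trans_eq (by ring)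
  have hn : ‖(-1 : ℂ)‖ = 1 := by simp
  rw [Ps, sum_pair (by norm_num : (1 : ℂ) ≠ -1)]
  exact (loc_add (loc_mul (key3 1 norm_one) (key2 1 norm_one))
    (loc_mul (key3 _ hn) (key2 _ hn))).trans_eq (by ring)

end Pool.Agent.MP_dd7250_nt

end

section

/- Infinite Euler products. -/

set_option autoImplicit false

namespace Pool.Agent.MP_dd7250_nt

open Polynomial Finset Pool.Agent.MP_d232b3_nt
open scoped Classical

variable {F : Type*} [Field F] [Fintype F]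

theorem inf_summable {ε : ℝ} (hε : 0 < ε) :
    Summable fun P : Prm F => qp F (-(1 + ε) * P.1.natDegree) := by
  obtain ⟨C, hC⟩ := sum_pr_le (F := F) hε
  refine summable_of_sum_le (c := C) (fun P => (qp_pos _).le) fun u => ?_
  refine le_trans ?_ (hC (u.sup fun P => P.1.natDegree))
  rw [← sum_subtype_of_mem (p := fun P : F[X] => P.Monic ∧ Irreducible P) _
    fun P hP => ⟨(mem_pr.1 hP).1, (mem_pr.1 hP).2.1⟩]
  refine sum_le_sum_of_subset_of_nonneg (fun P hP => ?_) fun _ _ _ => (qp_pos _).le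
  exact mem_subtype.2 (mem_pr.2 ⟨P.2.1, P.2.2, le_sup (f := fun P : Prm F => P.1.natDegree) hP⟩)

theorem hasProd_of_bound {ε κ : ℝ} (hε : 0 < ε) (f : ℕ → ℂ)
    (h : ∀ d : ℕ, 1 ≤ d → ‖f d - 1‖ ≤ κ * qp F (-(1 + ε) * d)) :
    ∃ b : ℂ, HasProd (fun P : Prm F => f P.1.natDegree) b ∧
      Filter.Tendsto (fun M => ∏ P ∈ pr F M, f P.natDegree) Filter.atTop (nhds b) := by
  have h1 : Summable fun P : Prm F => ‖f P.1.natDegree - 1‖ :=
    Summable.of_nonneg_of_le (fun _ => norm_nonneg _) (fun P => h _ (deg_pos P.2.2))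
      ((inf_summable hε).mul_left κ)
  have h2 := multipliable_one_add_of_summable h1
  simp only [add_sub_cancel] at h2
  refine ⟨_, h2.hasProd, ?_⟩
  have h3 : Filter.Tendsto
      (fun M => (pr F M).subtype fun P : F[X] => P.Monic ∧ Irreducible P) Filter.atTop
      Filter.atTop :=
    Filter.tendsto_atTop_finset_of_monotone (fun _ _ hM => subtype_mono (pr_mono hM)) fun P =>
      ⟨P.1.natDegree, mem_subtype.2 (mem_pr.2 ⟨P.2.1, P.2.2, le_rfl⟩)⟩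
  refine (Filter.Tendsto.comp h2.hasProd h3).congr fun M => ?_
  exact prod_subtype_of_mem (fun P : F[X] => f P.natDegree)
    fun P hP => ⟨(mem_pr.1 hP).1, (mem_pr.1 hP).2.1⟩

theorem inf_eps {z : ℂ} (hz : Q F * ‖z‖ < 1) : ∃ ε : ℝ, 0 < ε ∧ ‖z‖ ≤ qp F (-(1 + 2 * ε)) := by
  rcases (norm_nonneg z).eq_or_lt with h0 | h0
  · exact ⟨1, one_pos, h0 ▸ (qp_pos _).le⟩
  have hQ := one_lt_Q (F := F)
  have hQ0 : (0 : ℝ) < Q F := zero_lt_one.trans hQ
  have h1 : Real.logb (Q F) ‖z‖ < -1 := by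
    rw [Real.logb_lt_iff_lt_rpow hQ h0, Real.rpow_neg_one, ← one_div, lt_div_iff₀' hQ0]
    exact hz
  refine ⟨(-1 - Real.logb (Q F) ‖z‖) / 2, by linarith, le_of_eq ?_⟩
  rw [show -(1 + 2 * ((-1 - Real.logb (Q F) ‖z‖) / 2)) = Real.logb (Q F) ‖z‖ by ring, qp,
    Real.rpow_logb hQ0 hQ.ne' h0]

theorem inf_pw {w z : ℂ} {x y : ℝ} (hw : ‖w‖ ≤ qp F x) (hz : ‖z‖ ≤ qp F y) (d : ℕ) :
    ‖(w * z) ^ d‖ ≤ qp F ((x + y) * d) := by
  rw [norm_pow, norm_mul, ← qp_pow, qp_add]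
  exact pow_le_pow_left₀ (by positivity) (mul_le_mul hw hz (norm_nonneg _) (qp_pos _).le) d

theorem hasProd_zeta {z : ℂ} (hz : Q F * ‖z‖ < 1) :
    HasProd (fun P : Prm F => 1 - z ^ P.1.natDegree) (1 - Q F * z) := by
  obtain ⟨ε, hε, hz'⟩ := inf_eps hz
  obtain ⟨b, hb, hlim⟩ := hasProd_of_bound (F := F) (κ := 1) hε (fun d => 1 - z ^ d) fun d _ => by
    rw [sub_sub_cancel_left, norm_neg, norm_pow, one_mul, ← qp_pow]
    exact pow_le_pow_left₀ (norm_nonneg _) (hz'.trans (qp_mono (by linarith))) d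
  obtain ⟨C₀, hC⟩ := sum_pr_le (F := F) hε
  have hr : 1 < qp F ε := Real.one_lt_rpow one_lt_Q hε
  have key := (poly_limit (fun M => ∏ P ∈ pr F M, (1 - (C z * X : ℂ[X]) ^ P.natDegree))
    (fun m => (1 - qA F ℂ[X] * (C z * X) : ℂ[X]).coeff m) (B := Real.exp C₀) hr
    (fun M w hw => ?_) fun m M hm => ?_).2
  · have e1 : ∑' m, (1 - qA F ℂ[X] * (C z * X) : ℂ[X]).coeff m = 1 - Q F * z := by
      rw [tsum_eq_sum (s := (1 - qA F ℂ[X] * (C z * X) : ℂ[X]).support)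
        fun m hm => notMem_support_iff.1 hm]
      have := eval_eq_sum (p := (1 - qA F ℂ[X] * (C z * X) : ℂ[X])) (x := 1)
      simp only [Polynomial.sum, one_pow, mul_one] at this
      rw [← this]
      simp
    rw [e1] at key
    have e2 : b = 1 - Q F * z := by
      refine tendsto_nhds_unique hlim (key.congr fun M => ?_)
      simp
    exact e2 ▸ hb
  · rw [map_prod, norm_prod]
    refine le_trans (prod_le_prod (fun _ _ => norm_nonneg _)
      (g := fun P => Real.exp (qp F (-(1 + ε) * P.natDegree))) fun P _ => ?_) ?_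
    · have h1 := inf_pw hz' hw.le P.natDegree
      rw [show -(1 + 2 * ε) + ε = -(1 + ε) by ring] at h1
      have h2 : aeval w (1 - (C z * X : ℂ[X]) ^ P.natDegree) = 1 - (z * w) ^ P.natDegree := by
        simp
      have h3 := norm_sub_le (1 : ℂ) ((z * w) ^ P.natDegree)
      have h4 := Real.add_one_le_exp (qp F (-(1 + ε) * P.natDegree))
      rw [norm_one] at h3
      rw [h2]
      linarith
    · rw [← Real.exp_sum]
      exact Real.exp_le_exp.2 (hC M)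
  · refine transfer1 _ _ M (fun A _ _ φ hφ => ?_) hm
    have h1 : φ (C z * X) ^ (M + 1) = 0 := by rw [map_mul, mul_pow, hφ, mul_zero]
    simp only [map_prod, map_sub, map_one, map_pow]
    rw [prod_zeta h1, map_mul φ (qA F ℂ[X]), map_natCast]

theorem inf_three {x y w : ℂ} {δ : ℝ} (hδ : δ ≤ 1) (hx : ‖x‖ ≤ δ) (hy : ‖y‖ ≤ δ)
    (hw : ‖w‖ ≤ δ) : ‖(1 - x) * (1 - y) * (1 - w) - 1‖ ≤ 7 * δ := by
  have k : ∀ v : ℂ, ‖v‖ ≤ δ → ‖1 - v‖ ≤ 2 := fun v hv => by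
    have := norm_sub_le 1 v
    rw [norm_one] at this
    linarith
  have h0 : 0 ≤ δ := (norm_nonneg _).trans hx
  have h1 : ‖x * ((1 - y) * (1 - w))‖ ≤ δ * (2 * 2) := by
    rw [norm_mul, norm_mul]
    exact mul_le_mul hx (mul_le_mul (k y hy) (k w hw) (norm_nonneg _) zero_le_two)
      (by positivity) h0
  have h2 : ‖y * (1 - w)‖ ≤ δ * 2 := by
    rw [norm_mul]
    exact mul_le_mul hy (k w hw) (norm_nonneg _) h0
  have h3 := norm_add₃_le (a := x * ((1 - y) * (1 - w))) (b := y * (1 - w)) (c := w)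
  rw [show (1 - x) * (1 - y) * (1 - w) - 1 = -(x * ((1 - y) * (1 - w)) + y * (1 - w) + w) by ring,
    norm_neg]
  linarith

theorem inf_alg {a b c e : ℂ} {p δ : ℝ} (hp : 0 ≤ p) (hδ : δ ≤ 1) (h1 : ‖a * b‖ ≤ δ)
    (h2 : ‖a * a‖ ≤ δ) (h3 : ‖b * b‖ ≤ δ) (h4 : ‖a * b * (a * b)‖ ≤ p * δ) (h5 : ‖a * c‖ ≤ p * δ)
    (h6 : ‖a * e‖ ≤ p * δ) (h7 : ‖b * c‖ ≤ p * δ) (h8 : ‖b * e‖ ≤ p * δ) (h9 : ‖c * e‖ ≤ p * δ) :
    ‖(1 + (p : ℂ))⁻¹ * (1 + a * b + c * e - (a + b) * (c + e) + a * b * (c * e) +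
      p * ((1 - a ^ 2) * (1 - b ^ 2))) * (1 - a * b) - 1‖ ≤ 20 * (p * δ) := by
  have hk : (1 + (p : ℂ)) ≠ 0 := by exact_mod_cast (by positivity : (1 + p : ℝ) ≠ 0)
  have hk1 : ‖(1 + (p : ℂ))⁻¹‖ ≤ 1 := by
    rw [norm_inv]
    refine inv_le_one_of_one_le₀ ?_
    rw [← Complex.ofReal_one, ← Complex.ofReal_add, Complex.norm_real,
      Real.norm_of_nonneg (by positivity)]
    linarith
  have e1 : (1 + (p : ℂ))⁻¹ * (1 + a * b + c * e - (a + b) * (c + e) + a * b * (c * e) +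
      p * ((1 - a ^ 2) * (1 - b ^ 2))) * (1 - a * b) - 1 = (1 + (p : ℂ))⁻¹ *
      (-(a * b * (a * b)) + (c * e - (a * c + a * e + (b * c + b * e)) + a * b * (c * e)) *
        (1 - a * b) + p * ((1 - a * a) * (1 - b * b) * (1 - a * b) - 1)) := by
    field_simp
    ring
  have h10 : ‖a * b * (c * e)‖ ≤ p * δ := by
    rw [norm_mul]
    exact (mul_le_of_le_one_left (norm_nonneg _) (h1.trans hδ)).trans h9
  have h11 : ‖c * e - (a * c + a * e + (b * c + b * e)) + a * b * (c * e)‖ ≤ 6 * (p * δ) := by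
    have i1 := norm_add_le (c * e - (a * c + a * e + (b * c + b * e))) (a * b * (c * e))
    have i2 := norm_sub_le (c * e) (a * c + a * e + (b * c + b * e))
    have i3 := norm_add₃_le (a := a * c) (b := a * e) (c := b * c + b * e)
    have i4 := norm_add_le (b * c) (b * e)
    linarith
  have h12 : ‖1 - a * b‖ ≤ 2 := by
    have := norm_sub_le 1 (a * b)
    rw [norm_one] at this
    linarith
  have h13 : ‖(c * e - (a * c + a * e + (b * c + b * e)) + a * b * (c * e)) * (1 - a * b)‖ ≤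
      6 * (p * δ) * 2 := by
    rw [norm_mul]
    exact mul_le_mul h11 h12 (norm_nonneg _) ((norm_nonneg _).trans h11)
  have h14 : ‖(p : ℂ) * ((1 - a * a) * (1 - b * b) * (1 - a * b) - 1)‖ ≤ p * (7 * δ) := by
    rw [norm_mul, Complex.norm_real, Real.norm_of_nonneg hp]
    exact mul_le_mul_of_nonneg_left (inf_three hδ h2 h3 h1) hp
  have h15 := norm_add₃_le (a := -(a * b * (a * b)))
    (b := (c * e - (a * c + a * e + (b * c + b * e)) + a * b * (c * e)) * (1 - a * b))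
    (c := (p : ℂ) * ((1 - a * a) * (1 - b * b) * (1 - a * b) - 1))
  rw [norm_neg] at h15
  rw [e1, norm_mul]
  refine (mul_le_of_le_one_left (norm_nonneg _) hk1).trans ?_
  linarith

theorem inf_mul {w z : ℂ} {x y s : ℝ} {d : ℕ} (hw : ‖w‖ ≤ qp F (x * d)) (hz : ‖z‖ ≤ qp F (y * d))
    (h : x + y ≤ s) : ‖w * z‖ ≤ qp F (s * d) := by
  rw [norm_mul]
  refine (mul_le_mul hw hz (norm_nonneg _) (qp_pos _).le).trans ?_
  rw [← qp_add, ← add_mul]
  exact qp_mono (mul_le_mul_of_nonneg_right h (Nat.cast_nonneg d))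

theorem BP_bound (hF : ringChar F ≠ 2) : ∃ κ : ℝ, 0 ≤ κ ∧ ∀ (ε c a₀ a₁ : ℝ) (u : Fin 4 → ℂ)
    (z : ℂ), 0 < ε → Rng F ε c a₀ a₁ u → ‖z‖ ≤ qp F (ε / 8) → ∀ d : ℕ, 1 ≤ d →
      ‖BP F d (pw (fun i => u i * z) d) - 1‖ ≤ κ * qp F (-(1 + ε / 2) * d) := by
  refine ⟨20, by norm_num, fun ε c a₀ a₁ u z hε h hz d _ => ?_⟩
  have n0 := inf_pw h.h0.le hz d
  have n1 := inf_pw h.h1.le hz d
  have n2 := inf_pw h.h2 hz d
  have n3 := inf_pw h.h3 hz d
  have hc := h.hc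
  have ha := h.ha
  have b0 := neg_abs_le a₀
  have b1 := neg_abs_le a₁
  have c0 := abs_nonneg a₀
  have c1 := abs_nonneg a₁
  have e1 : qp F (-(1 + ε / 2) * d) = qp F (-d) * qp F (-(ε / 2) * d) := by
    rw [← qp_add]
    congr 1
    ring
  have e2 : ((Q F : ℂ) ^ d)⁻¹ = (qp F (-d) : ℝ) := by
    rw [qp_neg, qp_nat]
    push_cast
    rfl
  have m01 := inf_mul n0 n1 le_rfl
  have key := inf_alg (p := qp F (-d)) (δ := qp F (-(ε / 2) * d)) (qp_pos _).le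
    (qp_le_one (mul_nonpos_of_nonpos_of_nonneg (by linarith) (Nat.cast_nonneg d)))
    (inf_mul n0 n1 (by linarith)) (inf_mul n0 n0 (by linarith)) (inf_mul n1 n1 (by linarith))
    (e1 ▸ inf_mul m01 m01 (by linarith)) (e1 ▸ inf_mul n0 n2 (by linarith))
    (e1 ▸ inf_mul n0 n3 (by linarith)) (e1 ▸ inf_mul n1 n2 (by linarith))
    (e1 ▸ inf_mul n1 n3 (by linarith)) (e1 ▸ inf_mul n2 n3 (by linarith))
  rw [e1, BP, e2]
  exact key

end Pool.Agent.MP_dd7250_nt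

end
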