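import Mathlib
import Pool.Agent.Mg.F43e117.G54a7a4
import Pool.Agent.Mg.F43e117.Ga48504
import Pool.Agent.Mg.F43e117.Gcfde52

section

/- The decomposition of the generating function. -/

set_option autoImplicit false
set_option maxHeartbeats 400000

namespace Pool.Agent.MP_dd7250_nt

open Polynomial Finset Pool.Agent.MP_d232b3_nt
open scoped Classical

variable {F : Type*} [Field F] [Fintype F]
variable {A : Type*} [CommRing A] [Algebra ℂ A]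

theorem form2_swap {ι B : Type*} [DecidableEq ι] [CommRing B] (T : Finset ι) (o x z : ι → B)
    (c : Finset ι → B) (j : ι → Finset ι → B) (k : Finset ι → ι → B)
    (h : ∀ S ⊆ T, ∀ e ⊆ T, c S * ∏ P ∈ e, j P S = ∏ P ∈ S, k e P) :
    ∑ S ∈ T.powerset, (∏ P ∈ S, o P) * c S * ∏ P ∈ T \ S, (z P * j P S + x P) =
      ∑ e ∈ T.powerset, (∏ P ∈ e, z P) * ∏ P ∈ T \ e, (x P + k e P * o P) := by
  simp only [add_comm (x _), prod_add, mul_sum]
  rw [sum_comm' (s' := fun e => (T \ e).powerset) (t' := T.powerset)]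
  · refine sum_congr rfl fun e he => sum_congr rfl fun S hS => ?_
    rw [mem_powerset] at he hS
    rw [prod_mul_distrib, prod_mul_distrib, ← h S (hS.trans sdiff_subset) e he,
      sdiff_sdiff_comm]
    ring
  · intro S e
    simp only [mem_powerset, subset_sdiff]
    exact ⟨fun ⟨h1, h2, h3⟩ => ⟨⟨h1, h3.symm⟩, h2⟩, fun ⟨⟨h1, h3⟩, h2⟩ => ⟨h1, h2, h3.symm⟩⟩

theorem form2_Zs (hF : ringChar F ≠ 2) {M I : ℕ} (hI : M ≤ I) {y : A} {U : Fin 4 → A}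
    (hU : ∀ i, U i ^ (M + 1) = 0) (hy : y ^ (I + 1) = 0) :
    Zs F I U y = (1 - qA F A * y ^ 2) * ∑ S ∈ (pr F M).powerset,
      (∏ P ∈ S, Od M (pw U P.natDegree) * rho I y P.natDegree) *
        Lt (fun f => jac f (∏ P ∈ S, P)) I y * ∏ P ∈ pr F M \ S,
          (lE M I U y P.natDegree * algebraMap ℂ A (jac P (∏ P ∈ S, P)) +
            (1 + Ev M (pw U P.natDegree) * rho I y P.natDegree)) := by
  rw [Zs]
  simp only [expand_ratio _ hI hU]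
  rw [mul_sum]
  simp only [mul_sum]
  simp only [sum_comm (s := sqF F _) (t := (pr F M).powerset)]
  rw [sum_comm]
  refine sum_congr rfl fun S hS => ?_
  rw [mem_powerset] at hS
  have h1 : ∀ P ∈ pr F M \ S, lE M I U y P.natDegree * algebraMap ℂ A (jac P (∏ P ∈ S, P)) +
      (1 + Ev M (pw U P.natDegree) * rho I y P.natDegree) =
      1 + Ev M (pw U P.natDegree) * (rho I y P.natDegree *
        (1 - algebraMap ℂ A (jac P (∏ P ∈ S, P)) * y ^ P.natDegree)) := by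
    intro P _
    rw [lE]
    ring
  rw [prod_congr rfl h1, prod_one_add, mul_sum, mul_sum]
  simp only [sum_comm (s := sqF F _) (t := (pr F M \ S).powerset)]
  rw [sum_comm]
  refine sum_congr rfl fun S₁ hS₁ => ?_
  rw [mem_powerset] at hS₁
  have h2 := sieve_gen hF (hS.trans (pr_mono hI))
    (hS₁.trans (sdiff_subset_sdiff (pr_mono hI) Subset.rfl)) hy
  rw [prod_mul_distrib, prod_mul_distrib]
  calc _ = (∏ P ∈ S, Od M (pw U P.natDegree)) * (∏ P ∈ S₁, Ev M (pw U P.natDegree)) *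
        ∑ N ∈ range (I + 1), y ^ N * algebraMap ℂ A
          (∑ D ∈ sqF F N, (∏ P ∈ S, jac D P) * ∏ P ∈ S₁, jac D P ^ 2) := by
        rw [mul_sum]
        refine sum_congr rfl fun N _ => ?_
        rw [map_sum, mul_sum, mul_sum]
        exact sum_congr rfl fun D _ => by ring
    _ = _ := by rw [h2]; ring

theorem form2_all (hF : ringChar F ≠ 2) {M I : ℕ} (hI : M ≤ I) {t y : A} {U : Fin 4 → A}
    (hU : ∀ i, t ∣ U i) (ht : t ^ (M + 1) = 0) (hy : y ^ (I + 1) = 0) :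
    y ^ (M + 1) * ((1 - qA F A * y) * Zs F I U y) = (1 - qA F A * y ^ 2) *
      ((∑ σ ∈ ({1, -1} : Finset ℂ), kap F σ y * ∑ V ∈ monLe F M,
        ∑ e ∈ (pr F M).powerset, wV F M y V * ((∏ P ∈ e, lE M I U y P.natDegree) *
          ∏ P ∈ pr F M \ e, lO M I U y σ (V * ∏ P ∈ e, P) P)) + Pd F M I U y) := by
  have hU' : ∀ i, U i ^ (M + 1) = 0 := fun i => by
    obtain ⟨c, hc⟩ := hU i
    rw [hc, mul_pow, ht, zero_mul]
  rw [form2_Zs hF hI hU' hy]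
  set o : F[X] → A := fun P => Od M (pw U P.natDegree) * rho I y P.natDegree with ho
  set R : Finset F[X] → A := fun S => ∏ P ∈ pr F M \ S,
    (lE M I U y P.natDegree * algebraMap ℂ A (jac P (∏ P ∈ S, P)) +
      (1 + Ev M (pw U P.natDegree) * rho I y P.natDegree)) with hR
  have h1 : ∀ S ∈ (pr F M).powerset, y ^ (M + 1) * (1 - qA F A * y) *
      ((∏ P ∈ S, o P) * Lt (fun f => jac f (∏ P ∈ S, P)) I y * R S) =
      (∑ σ ∈ ({1, -1} : Finset ℂ), kap F σ y * ∑ V ∈ monLe F M, wV F M y V *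
        ((∏ P ∈ S, o P * dy F σ y ^ P.natDegree) * algebraMap ℂ A (jac V (∏ P ∈ S, P)) * R S)) +
        if S = ∅ then R S else 0 := by
    intro S hS
    rw [mem_powerset] at hS
    obtain ⟨h2, h3, h4, h5⟩ := monic_sqfree_prod hS
    by_cases hd : (∏ P ∈ S, P).natDegree ≤ M
    · have h6 := lam_eq hF h2 h3 hd hI y hy
      calc _ = (∏ P ∈ S, o P) * R S * (y ^ (M + 1) * ((1 - qA F A * y) *
            Lt (fun f => jac f (∏ P ∈ S, P)) I y)) := by ring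
        _ = _ := by
          rw [h6, mul_add, mul_sum]
          congr 1
          · refine sum_congr rfl fun σ _ => ?_
            rw [prod_mul_distrib (f := o), prod_pow_eq_pow_sum, ← h4]
            simp only [mul_sum]
            exact sum_congr rfl fun V _ => by ring
          · by_cases hS0 : S = ∅
            · simp [hS0]
            · simp [hS0, h5.not.2 hS0]
    · have h6 : ∏ P ∈ S, o P = 0 := by
        have h7 : t ^ (∑ P ∈ S, P.natDegree) ∣ ∏ P ∈ S, o P := by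
          rw [← prod_pow_eq_pow_sum]
          exact prod_dvd_prod_of_dvd _ _ fun P _ => (dvd_Od hU M _).mul_right _
        obtain ⟨c, hc⟩ := (pow_dvd_pow t (by omega : M + 1 ≤ ∑ P ∈ S, P.natDegree)).trans h7
        rw [hc, ht, zero_mul]
      have hS0 : S ≠ ∅ := by
        rintro rfl
        simp at hd
      simp only [prod_mul_distrib (f := o), h6, hS0, if_false, zero_mul, mul_zero,
        sum_const_zero, add_zero]
  calc _ = (1 - qA F A * y ^ 2) * ∑ S ∈ (pr F M).powerset, y ^ (M + 1) * (1 - qA F A * y) *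
        ((∏ P ∈ S, o P) * Lt (fun f => jac f (∏ P ∈ S, P)) I y * R S) := by
        rw [← mul_sum]; ring
    _ = _ := by
      rw [sum_congr rfl h1, sum_add_distrib, sum_comm, sum_ite_eq']
      congr 2
      · refine sum_congr rfl fun σ _ => ?_
        rw [← mul_sum, sum_comm]
        congr 1
        refine sum_congr rfl fun V hV => ?_
        rw [← mul_sum, ← mul_sum, hR]
        congr 1
        have key := form2_swap (pr F M) (fun P => o P * dy F σ y ^ P.natDegree)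
          (fun P => 1 + Ev M (pw U P.natDegree) * rho I y P.natDegree)
          (fun P => lE M I U y P.natDegree)
          (fun S => algebraMap ℂ A (jac V (∏ P ∈ S, P)))
          (fun P S => algebraMap ℂ A (jac P (∏ P ∈ S, P)))
          (fun e P => algebraMap ℂ A (jac (V * ∏ P ∈ e, P) P)) fun S hS e he => by
            have h2 := (monic_sqfree_prod hS).1
            have h3 := (jac_cm_left hF h2).prod e fun P hP => (mem_pr.1 (he hP)).1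
            have h4 := (jac_cm (V * ∏ P ∈ e, P)).prod S fun P hP => (mem_pr.1 (hS hP)).1
            rw [← map_prod (algebraMap ℂ A), ← map_prod (algebraMap ℂ A), ← map_mul, ← h4,
              jac_mul_left hF _ _ h2, h3]
        exact key
      · rw [if_pos (empty_mem_powerset _), hR, Pd]
        simp only [sdiff_empty, prod_empty, (jac_cm _).one, map_one, lE]
        exact prod_congr rfl fun P _ => by ring

theorem form2_mid {M : ℕ} {t y : A} {U : Fin 4 → A} (hU : ∀ i, t ∣ U i) (ht : t ^ (M + 1) = 0)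
    {σ : ℂ} (hσ : σ ^ 2 = 1) :
    mid F U y = (1 + qA F A * (dy F σ y * U 0)) * (1 + qA F A * (dy F σ y * U 1)) *
      ((1 - qA F A * (dy F σ y * U 2)) * (1 - qA F A * (dy F σ y * U 3))) *
        ∏ P ∈ pr F M, om F M U y σ P.natDegree := by
  have hU' : ∀ i, (dy F σ y * U i) ^ (M + 1) = 0 := fun i => by
    obtain ⟨c, hc⟩ := hU i
    rw [hc, mul_pow, mul_pow, ht, zero_mul, mul_zero]
  have h1 : ∀ i, (1 - qA F A * (dy F σ y * U i)) *
      ∏ P ∈ pr F M, gam M ((dy F σ y * U i) ^ P.natDegree) = 1 := fun i => by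
    rw [← prod_zeta (hU' i), ← prod_mul_distrib]
    refine prod_eq_one fun P hP => ?_
    rw [mul_comm]
    refine gam_mul ?_
    rw [← pow_mul, mul_comm P.natDegree, pow_mul, hU' i, zero_pow (deg_pos (mem_pr.1 hP).2.1).ne']
  have h2 : dy F σ y ^ 2 = qA F A * y ^ 2 := by
    rw [dy, mul_pow, ← map_pow, mul_pow, hσ, one_mul, sq_sq, map_natCast]
  simp only [om, prod_mul_distrib, prod_zeta (hU' 0), prod_zeta (hU' 1)]
  have h3 := h1 2
  have h4 := h1 3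
  generalize ∏ P ∈ pr F M, gam M ((dy F σ y * U 2) ^ P.natDegree) = g2 at h3 ⊢
  generalize ∏ P ∈ pr F M, gam M ((dy F σ y * U 3) ^ P.natDegree) = g3 at h4 ⊢
  calc _ = (1 - qA F A ^ 2 * U 0 ^ 2 * dy F σ y ^ 2) * (1 - qA F A ^ 2 * U 1 ^ 2 * dy F σ y ^ 2) *
        (((1 - qA F A * (dy F σ y * U 2)) * g2) * ((1 - qA F A * (dy F σ y * U 3)) * g3)) := by
        rw [h3, h4, h2, mid]; ring
    _ = _ := by ring

theorem key (hF : ringChar F ≠ 2) {M I : ℕ} (hI : M ≤ I) {t y : A} {U : Fin 4 → A}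
    (hU : ∀ i, t ∣ U i) (ht : t ^ (M + 1) = 0) (hy : y ^ (I + 1) = 0) :
    y ^ (M + 1) * (Ph F (U 0) (U 1) (y ^ 2) * Zs F I U y) =
      pre F U y * (mid F U y * (Pr F M I U y + Pd F M I U y)) + pre F U y * Ps F M I U y := by
  have h1 := form2_all hF hI hU ht hy
  have h0 : ∑ σ ∈ ({1, -1} : Finset ℂ), kap F σ y * ∑ V ∈ monLe F M,
      ∑ e ∈ (pr F M).powerset, wV F M y V * ((∏ P ∈ e, lE M I U y P.natDegree) *
        ∏ P ∈ pr F M \ e, lO M I U y σ (V * ∏ P ∈ e, P) P) =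
      ∑ σ ∈ ({1, -1} : Finset ℂ), kap F σ y * ∑ V ∈ monLe F M,
      ∑ e ∈ (pr F M).powerset with IsSquare (V * ∏ P ∈ e, P), wV F M y V *
        ((∏ P ∈ e, lE M I U y P.natDegree) *
          ∏ P ∈ pr F M \ e, lO M I U y σ (V * ∏ P ∈ e, P) P) + Pr F M I U y := by
    rw [Pr, ← sum_add_distrib]
    refine sum_congr rfl fun σ _ => ?_
    rw [← mul_add, ← sum_add_distrib]
    congr 1
    exact sum_congr rfl fun V _ => (sum_filter_add_sum_filter_not _ _ _).symm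
  rw [h0] at h1
  have h2 : mid F U y * ∑ σ ∈ ({1, -1} : Finset ℂ), kap F σ y * ∑ V ∈ monLe F M,
      ∑ e ∈ (pr F M).powerset with IsSquare (V * ∏ P ∈ e, P), wV F M y V *
        ((∏ P ∈ e, lE M I U y P.natDegree) *
          ∏ P ∈ pr F M \ e, lO M I U y σ (V * ∏ P ∈ e, P) P) = Ps F M I U y := by
    rw [Ps, mul_sum]
    refine sum_congr rfl fun σ hσ => ?_
    have hσ2 : σ ^ 2 = 1 := by
      rcases mem_insert.1 hσ with rfl | h
      · simp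
      · rw [mem_singleton.1 h]; simp
    rw [form2_mid hU ht hσ2]
    simp only [mul_sum]
    refine sum_congr rfl fun V _ => sum_congr rfl fun e he => ?_
    rw [prod_mul_distrib, prod_mul_distrib,
      ← prod_sdiff (mem_powerset.1 (mem_filter.1 he).1)]
    ring
  rw [← h2]
  calc _ = (1 + qA F A * y) * (1 - qA F A ^ 4 * U 0 ^ 2 * U 1 ^ 2 * y ^ 2) * mid F U y *
        (y ^ (M + 1) * ((1 - qA F A * y) * Zs F I U y)) := by rw [Ph, mid]; ring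
    _ = _ := by rw [h1, pre]; ring

end Pool.Agent.MP_dd7250_nt

end

section

/- The two bounds for the homogeneous parts. -/

set_option autoImplicit false

namespace Pool.Agent.MP_dd7250_nt

open Polynomial Finset Pool.Agent.MP_d232b3_nt
open scoped Classical

variable {F : Type*} [Field F] [Fintype F]

/-- The four variables in the ring of polynomials in `t` and `y`. -/
noncomputable def bfU (u : Fin 4 → ℂ) : Fin 4 → ℂ[X][X] := fun i => C (C (u i) * X)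

theorem bf_split (hF : ringChar F ≠ 2) (u : Fin 4 → ℂ) (M g : ℕ) :
    ∑ p ∈ antidiagonal M, ff F u p.1 p.2 g =
      ((pre F (bfU u) X * (mid F (bfU u) X * (Pr F M (2 * g + 1 + (M + 1)) (bfU u) X +
        Pd F M (2 * g + 1 + (M + 1)) (bfU u) X))).coeff (2 * g + 1 + (M + 1))).coeff M +
      ((pre F (bfU u) X * Ps F M (2 * g + 1 + (M + 1)) (bfU u) X).coeff
        (2 * g + 1 + (M + 1))).coeff M := by
  have h1 := link hF u (M := M) (g := g) (I := 2 * g + 1 + (M + 1)) (by omega) (by omega)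
  rw [← h1, ← coeff_X_pow_mul _ (M + 1) (2 * g + 1), ← coeff_add, ← coeff_add]
  refine transfer2 _ _ M (2 * g + 1 + (M + 1)) ?_ le_rfl le_rfl
  intro A _ _ φ ht hy
  have hU : ∀ i, φ (C X) ∣ (φ ∘ bfU u) i := by
    intro i
    refine ⟨φ (C (C (u i))), ?_⟩
    rw [Function.comp, bfU, ← map_mul φ, ← map_mul, mul_comm]
  have hk := key hF (M := M) (I := 2 * g + 1 + (M + 1)) (by omega) hU ht hy
  simp only [map_mul φ, map_add φ, map_pow φ, map_Ph, map_Zs, map_pre, map_mid, map_Pr, map_Pd,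
    map_Ps]
  exact hk

theorem bf_norm_U {u : Fin 4 → ℂ} (hu : ∀ i, ‖u i‖ ≤ 1) (t y : ℂ) (i : Fin 4) :
    ‖((aevalAeval t y : ℂ[X][X] →ₐ[ℂ] ℂ) ∘ bfU u) i‖ ≤ ‖t‖ := by
  have : ((aevalAeval t y : ℂ[X][X] →ₐ[ℂ] ℂ) ∘ bfU u) i = u i * t := by
    simp [bfU]
  rw [this, norm_mul]
  exact mul_le_of_le_one_left (norm_nonneg _) (hu i)

theorem bf_le_of_mul {x B a b : ℝ} (h : x * qp F a ≤ B * qp F b) : x ≤ B * qp F (b - a) := by
  have h1 : qp F b = qp F (b - a) * qp F a := by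
    rw [← qp_add]
    congr 1
    ring
  rw [h1, ← mul_assoc] at h
  exact le_of_mul_le_mul_right h (qp_pos a)

theorem bf_first (hF : ringChar F ≠ 2) {ε : ℝ} (hε : 0 < ε) : ∃ K : ℝ, 0 ≤ K ∧
    ∀ u : Fin 4 → ℂ, (∀ i, ‖u i‖ ≤ 1) → ∀ M g I : ℕ,
      ‖((pre F (bfU u) X * (mid F (bfU u) X * (Pr F M I (bfU u) X +
        Pd F M I (bfU u) X))).coeff (2 * g + 1 + (M + 1))).coeff M‖ ≤
        K * qp F ((1 + 3 * ε) * M + 2 * ε * g) := by
  obtain ⟨C1, h1⟩ := Pr_bound hF hε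
  obtain ⟨C2, h2⟩ := Pd_bound hF hε
  set L : ℝ := 1 + (Q F : ℝ) ^ 4 with hL
  have hL0 : 0 ≤ L := by positivity
  refine ⟨L ^ 3 * (L ^ 2 * (|C1| + |C2|)) * qp F (2 * ε), by have := qp_pos (F := F) (2 * ε); positivity,
    fun u hu M g I => ?_⟩
  have hb := extract2 (pre F (bfU u) X * (mid F (bfU u) X * (Pr F M I (bfU u) X +
      Pd F M I (bfU u) X))) (B := L ^ 3 * (L ^ 2 * (|C1| + |C2|)) * qp F (ε * M))
      (qp_pos (F := F) (-(1 + ε))) (qp_pos (F := F) (-ε)) ?_ (2 * g + 1 + (M + 1)) M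
  · rw [qp_pow, qp_pow, mul_assoc, ← qp_add] at hb
    refine (bf_le_of_mul hb).trans (le_of_eq ?_)
    rw [mul_assoc _ (qp F (2 * ε)), ← qp_add]
    congr 2
    push_cast
    ring
  · intro t y ht hy
    have hU := bf_norm_U hu t y
    rw [ht] at hU
    have hU1 : ∀ i, ‖((aevalAeval t y : ℂ[X][X] →ₐ[ℂ] ℂ) ∘ bfU u) i‖ ≤ qp F (-(1 / 2 + ε)) :=
      fun i => (hU i).trans (qp_mono (by linarith))
    have hU2 : ∀ i, ‖((aevalAeval t y : ℂ[X][X] →ₐ[ℂ] ℂ) ∘ bfU u) i‖ ≤ 1 :=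
      fun i => (hU i).trans (qp_le_one (by linarith))
    have hU3 : ∀ i, qp F (1 / 2) * ‖y‖ * ‖((aevalAeval t y : ℂ[X][X] →ₐ[ℂ] ℂ) ∘ bfU u) i‖ ≤
        qp F (-(1 / 2 + ε)) := by
      intro i
      rw [hy, ← qp_add]
      refine (mul_le_mul_of_nonneg_left (hU i) (qp_pos _).le).trans ?_
      rw [← qp_add]
      exact qp_mono (by linarith)
    have hy1 : ‖y‖ ≤ 1 := hy.trans_le (qp_le_one (by linarith))
    have e1 := h1 M I _ y hU1 hy.le hU3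
    have e2 := h2 M I _ y hU1 hy.le
    obtain ⟨e3, e4⟩ := norm_pre_le (F := F) hU2 hy1
    have hq : 1 ≤ qp F (ε * M) := by
      rw [← qp_zero (F := F)]
      exact qp_mono (by positivity)
    have e5 : ‖Pr F M I ((aevalAeval t y : ℂ[X][X] →ₐ[ℂ] ℂ) ∘ bfU u) y +
        Pd F M I ((aevalAeval t y : ℂ[X][X] →ₐ[ℂ] ℂ) ∘ bfU u) y‖ ≤
        (|C1| + |C2|) * qp F (ε * M) := by
      refine (norm_add_le _ _).trans ?_
      have a1 := mul_le_mul_of_nonneg_right (le_abs_self C1) (qp_pos (F := F) (ε * M)).le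
      have a2 := mul_le_mul_of_nonneg_left hq (abs_nonneg C2)
      have a3 := le_abs_self C2
      linarith
    simp only [map_mul, map_add, map_pre, map_mid, map_Pr, map_Pd, aevalAeval_Y]
    rw [norm_mul, norm_mul, mul_assoc, mul_assoc]
    gcongr

theorem bf_second (hF : ringChar F ≠ 2) {ε : ℝ} (hε : 0 < ε) (hε' : ε ≤ 1 / 4) : ∃ K : ℝ, 0 ≤ K ∧
    ∀ u : Fin 4 → ℂ, (∀ i, ‖u i‖ ≤ 1) → ∀ M g I : ℕ,
      ‖((pre F (bfU u) X * Ps F M I (bfU u) X).coeff (2 * g + 1 + (M + 1))).coeff M‖ ≤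
        K * qp F ((1 / 2 + 2 * ε) * M + g) := by
  obtain ⟨C1, h1⟩ := Ps_bound hF hε hε'
  set L : ℝ := 1 + (Q F : ℝ) ^ 4 with hL
  have hL0 : 0 ≤ L := by positivity
  refine ⟨L ^ 3 * |C1| * qp F 1, by have := qp_pos (F := F) 1; positivity,
    fun u hu M g I => ?_⟩
  have hb := extract2 (pre F (bfU u) X * Ps F M I (bfU u) X)
      (B := L ^ 3 * |C1| * qp F (-(1 / 2 - ε) * M))
      (qp_pos (F := F) (-(1 / 2 + 2 * ε))) (qp_pos (F := F) (-(1 / 2 - ε))) ?_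
      (2 * g + 1 + (M + 1)) M
  · rw [qp_pow, qp_pow, mul_assoc, ← qp_add] at hb
    refine (bf_le_of_mul hb).trans ?_
    rw [mul_assoc _ (qp F 1), ← qp_add]
    refine mul_le_mul_of_nonneg_left (qp_mono ?_) (by positivity)
    push_cast
    have : 0 ≤ ε * g := by positivity
    nlinarith
  · intro t y ht hy
    have hU := bf_norm_U hu t y
    rw [ht] at hU
    have hU2 : ∀ i, ‖((aevalAeval t y : ℂ[X][X] →ₐ[ℂ] ℂ) ∘ bfU u) i‖ ≤ 1 :=
      fun i => (hU i).trans (qp_le_one (by linarith))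
    have hy1 : ‖y‖ ≤ 1 := hy.trans_le (qp_le_one (by linarith))
    have e1 := h1 M I _ y hU hy
    rw [hy, qp_pow] at e1
    have e2 := e1.trans (mul_le_mul_of_nonneg_right (le_abs_self C1) (qp_pos _).le)
    obtain ⟨e3, -⟩ := norm_pre_le (F := F) hU2 hy1
    simp only [map_mul, map_pre, map_Ps, aevalAeval_Y]
    rw [norm_mul, mul_assoc]
    gcongr

theorem ff_dual (hF : ringChar F ≠ 2) {ε : ℝ} (hε : 0 < ε) (hε' : ε ≤ 1 / 4) : ∃ C : ℝ, 0 ≤ C ∧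
    ∀ (u : Fin 4 → ℂ) (ρ ρ' : ℝ), 0 < ρ → 0 < ρ' → ‖u 0‖ ≤ ρ → ‖u 1‖ ≤ ρ → ‖u 2‖ ≤ ρ' →
      ‖u 3‖ ≤ ρ' → ∀ n k g : ℕ, ‖ff F u n k g‖ ≤ C * ρ ^ n * ρ' ^ k *
        (qp F ((1 + 3 * ε) * (n + k) + 2 * ε * g) + qp F ((1 / 2 + 2 * ε) * (n + k) + g)) := by
  obtain ⟨K1, hK1, h1⟩ := bf_first hF hε
  obtain ⟨K2, hK2, h2⟩ := bf_second hF hε hε'
  refine ⟨K1 + K2, by positivity, fun u ρ ρ' hρ hρ' u0 u1 u2 u3 n k g => ?_⟩
  set S : ℝ := qp F ((1 + 3 * ε) * (n + k) + 2 * ε * g) + qp F ((1 / 2 + 2 * ε) * (n + k) + g)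
    with hS
  have hsum : ∀ v : Fin 4 → ℂ, (∀ i, ‖v i‖ ≤ 1) →
      ‖∑ p ∈ antidiagonal (n + k), ff F v p.1 p.2 g‖ ≤ (K1 + K2) * S := by
    intro v hv
    rw [bf_split hF]
    refine (norm_add_le _ _).trans ((add_le_add (h1 v hv _ _ _) (h2 v hv _ _ _)).trans ?_)
    have a1 := mul_nonneg hK1 (qp_pos (F := F) ((1 / 2 + 2 * ε) * (n + k) + g)).le
    have a2 := mul_nonneg hK2 (qp_pos (F := F) ((1 + 3 * ε) * (n + k) + 2 * ε * g)).le
    rw [hS]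
    push_cast
    linarith
  have hb := extract_fam (antidiagonal (n + k))
    (fun p => ((ρ'⁻¹ : ℝ) : ℂ) ^ p.2 * ff F u p.1 p.2 g) (fun p => p.1) (B := (K1 + K2) * S)
    (inv_pos.2 hρ) ?_ n
  · have hf : (antidiagonal (n + k)).filter (fun p => p.1 = n) = {(n, k)} := by
      ext ⟨a, b⟩
      simp only [mem_filter, HasAntidiagonal.mem_antidiagonal, mem_singleton, Prod.mk.injEq]
      omega
    rw [hf, sum_singleton, norm_mul, norm_pow, Complex.norm_real,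
      Real.norm_of_nonneg (inv_pos.2 hρ').le, inv_pow, inv_pow] at hb
    have p1 := pow_pos hρ n
    have p2 := pow_pos hρ' k
    have e : ‖ff F u n k g‖ = (ρ' ^ k)⁻¹ * ‖ff F u n k g‖ * (ρ ^ n)⁻¹ * (ρ ^ n * ρ' ^ k) := by
      field_simp
    rw [e]
    refine (mul_le_mul_of_nonneg_right hb (mul_pos p1 p2).le).trans (le_of_eq ?_)
    ring
  · intro z hz
    have hm : ‖((ρ'⁻¹ : ℝ) : ℂ)‖ = ρ'⁻¹ := by
      rw [Complex.norm_real, Real.norm_of_nonneg (inv_pos.2 hρ').le]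
    have hv : ∀ i, ‖(![z * u 0, z * u 1, ((ρ'⁻¹ : ℝ) : ℂ) * u 2, ((ρ'⁻¹ : ℝ) : ℂ) * u 3] :
        Fin 4 → ℂ) i‖ ≤ 1 := by
      intro i
      fin_cases i
      · change ‖z * u 0‖ ≤ 1
        rw [norm_mul, hz]
        exact (inv_mul_le_one₀ hρ).2 u0
      · change ‖z * u 1‖ ≤ 1
        rw [norm_mul, hz]
        exact (inv_mul_le_one₀ hρ).2 u1
      · change ‖((ρ'⁻¹ : ℝ) : ℂ) * u 2‖ ≤ 1
        rw [norm_mul, hm]
        exact (inv_mul_le_one₀ hρ').2 u2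
      · change ‖((ρ'⁻¹ : ℝ) : ℂ) * u 3‖ ≤ 1
        rw [norm_mul, hm]
        exact (inv_mul_le_one₀ hρ').2 u3
    refine le_of_eq_of_le ?_ (hsum _ hv)
    congr 1
    refine sum_congr rfl fun p _ => ?_
    rw [ff_smul]
    ring

theorem bf_peel {c : ℂ} {f : PowerSeries ℂ} {B Θ L : ℝ} (hΘ : 1 ≤ Θ) (hc : ‖c‖ ≤ L)
    (h : ∀ g, ‖PowerSeries.coeff g f‖ ≤ B * Θ ^ g) (g : ℕ) :
    ‖PowerSeries.coeff g ((1 - PowerSeries.C c * PowerSeries.X) * f)‖ ≤ (1 + L) * B * Θ ^ g := by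
  have hB : 0 ≤ B := by simpa using (norm_nonneg _).trans (h 0)
  have hL : 0 ≤ L := (norm_nonneg _).trans hc
  rw [sub_mul, one_mul, map_sub, mul_assoc, PowerSeries.coeff_C_mul]
  refine (norm_sub_le _ _).trans ?_
  have h2 : ‖PowerSeries.coeff g (PowerSeries.X * f)‖ ≤ B * Θ ^ g := by
    rcases g with _ | g
    · simpa using hB
    · rw [PowerSeries.coeff_succ_X_mul]
      exact (h g).trans (mul_le_mul_of_nonneg_left (pow_le_pow_right₀ hΘ (by omega)) hB)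
  have h3 : ‖c * PowerSeries.coeff g (PowerSeries.X * f)‖ ≤ L * (B * Θ ^ g) := by
    rw [norm_mul]
    exact mul_le_mul hc h2 (norm_nonneg _) hL
  have h4 := h g
  linarith

theorem bf_HW_le {w : F[X] → ℂ} {U₀ U₁ : ℂ} {B Θ : ℝ} (hΘ : 1 ≤ Θ) (h0 : ‖U₀‖ ≤ 1)
    (h1 : ‖U₁‖ ≤ 1) (h : ∀ g, ‖TW w U₀ U₁ g‖ ≤ B * Θ ^ g) (g : ℕ) :
    ‖HW w U₀ U₁ g‖ ≤ (1 + (Q F : ℝ) ^ 4) ^ 4 * B * Θ ^ g := by
  have hq : (1 : ℝ) ≤ Q F := one_lt_Q.le
  have hn : ∀ (a : ℕ) (x : ℂ), a ≤ 4 → ‖x‖ ≤ 1 → ‖(Q F : ℂ) ^ a * x‖ ≤ (Q F : ℝ) ^ 4 := by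
    intro a x ha hx
    rw [norm_mul, norm_pow, Complex.norm_natCast]
    exact (mul_le_of_le_one_right (by positivity) hx).trans (pow_le_pow_right₀ hq ha)
  have s0 : ‖U₀ ^ 2‖ ≤ 1 := by
    rw [norm_pow]
    exact pow_le_one₀ (norm_nonneg _) h0
  have s1 : ‖U₁ ^ 2‖ ≤ 1 := by
    rw [norm_pow]
    exact pow_le_one₀ (norm_nonneg _) h1
  have s2 : ‖U₀ ^ 2 * U₁ ^ 2‖ ≤ 1 := by
    rw [norm_mul]
    exact mul_le_one₀ s0 (norm_nonneg _) s1
  have k0 : ∀ g, ‖PowerSeries.coeff g (PowerSeries.mk (TW w U₀ U₁))‖ ≤ B * Θ ^ g := by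
    intro g
    rw [PowerSeries.coeff_mk]
    exact h g
  have k1 := bf_peel hΘ (hn 4 _ le_rfl s2) k0
  have k2 := bf_peel hΘ (hn 3 _ (by norm_num) s1) k1
  have k3 := bf_peel hΘ (hn 3 _ (by norm_num) s0) k2
  have k4 := bf_peel hΘ (hn 2 1 (by norm_num) (by simp)) k3 g
  refine le_of_eq_of_le ?_ (k4.trans (le_of_eq (by ring)))
  rw [HW]
  congr 2
  simp only [Ph, map_mul, map_pow, map_natCast, map_one]
  ring

theorem bf_Lt_le {χ : F[X] → ℂ} {C η b : ℝ} (hC : 0 ≤ C)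
    (h : ∀ n : ℕ, ‖AA χ n‖ ≤ C * qp F ((1 / 2 + η) * n + b)) {U : ℂ}
    (hU : ‖U‖ ≤ qp F (-(1 / 2 + η))) (I : ℕ) : ‖Lt χ I U‖ ≤ (I + 1) * (C * qp F b) := by
  have hs : ∀ n ∈ range (I + 1), ‖algebraMap ℂ ℂ (AA χ n) * U ^ n‖ ≤ C * qp F b := by
    intro n _
    have e1 : ‖U ^ n‖ ≤ qp F (-(1 / 2 + η) * n) := by
      rw [norm_pow, ← qp_pow]
      exact pow_le_pow_left₀ (norm_nonneg _) hU n
    rw [Algebra.algebraMap_self_apply, norm_mul]
    refine (mul_le_mul (h n) e1 (norm_nonneg _) (mul_nonneg hC (qp_pos _).le)).trans (le_of_eq ?_)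
    rw [mul_assoc, ← qp_add]
    congr 2
    ring
  refine (norm_sum_le _ _).trans ((sum_le_card_nsmul _ _ _ hs).trans (le_of_eq ?_))
  rw [card_range, nsmul_eq_mul]
  push_cast
  ring

theorem bf_beta_le {D : F[X]} {C η b ρ : ℝ} (hC : 0 ≤ C)
    (h : ∀ n : ℕ, ‖ainv (jac D) n‖ ≤ C * qp F ((1 / 2 + η) * n + b)) {v₁ v₂ : ℂ}
    (h1 : ‖v₁‖ ≤ ρ) (h2 : ‖v₂‖ ≤ ρ) (k : ℕ) :
    ‖beta v₁ v₂ k D‖ ≤ (k + 1) * (C ^ 2 * ρ ^ k * qp F ((1 / 2 + η) * k + 2 * b)) := by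
  have hρ : 0 ≤ ρ := (norm_nonneg _).trans h1
  have hs : ∀ p ∈ antidiagonal k,
      ‖ainv (jac D) p.1 * v₁ ^ p.1 * (ainv (jac D) p.2 * v₂ ^ p.2)‖ ≤
        C ^ 2 * ρ ^ k * qp F ((1 / 2 + η) * k + 2 * b) := by
    intro p hp
    have hk : p.1 + p.2 = k := mem_antidiagonal.1 hp
    have a1 := h p.1
    have a2 := h p.2
    have q1 := qp_pos (F := F) ((1 / 2 + η) * p.1 + b)
    have q2 := qp_pos (F := F) ((1 / 2 + η) * p.2 + b)
    have e : qp F ((1 / 2 + η) * k + 2 * b) =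
        qp F ((1 / 2 + η) * p.1 + b) * qp F ((1 / 2 + η) * p.2 + b) := by
      rw [← qp_add, ← hk]
      congr 1
      push_cast
      ring
    rw [norm_mul, norm_mul, norm_mul, norm_pow, norm_pow]
    calc _ ≤ C * qp F ((1 / 2 + η) * p.1 + b) * ρ ^ p.1 *
          (C * qp F ((1 / 2 + η) * p.2 + b) * ρ ^ p.2) := by gcongr
      _ = _ := by
        rw [e, ← hk, pow_add]
        ring
  refine (norm_sum_le _ _).trans ((sum_le_card_nsmul _ _ _ hs).trans (le_of_eq ?_))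
  rw [Nat.card_antidiagonal, nsmul_eq_mul]
  push_cast
  ring

theorem bf_TW_le (hF : ringChar F ≠ 2) {η : ℝ} (hη : 0 < η) : ∃ K : ℝ, 0 ≤ K ∧
    ∀ (U₀ U₁ v₁ v₂ : ℂ) (ρ : ℝ), ‖U₀‖ ≤ qp F (-(1 / 2 + η)) → ‖U₁‖ ≤ qp F (-(1 / 2 + η)) →
      ‖v₁‖ ≤ ρ → ‖v₂‖ ≤ ρ → ∀ k g : ℕ, ‖TW (F := F) (beta v₁ v₂ k) U₀ U₁ g‖ ≤
        K * ρ ^ k * qp F ((1 / 2 + 2 * η) * k) * qp F (2 + 12 * η) ^ g := by
  obtain ⟨C, hC, hA⟩ := AA_bound hF hη
  obtain ⟨E, hE, hN⟩ := nat_le_qp (F := F) hη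
  refine ⟨E ^ 3 * C ^ 4 * qp F (1 + 4 * η), by have := qp_pos (F := F) (1 + 4 * η); positivity,
    fun U₀ U₁ v₁ v₂ ρ h0 h1 h2 h3 k g => ?_⟩
  have hρ : 0 ≤ ρ := (norm_nonneg _).trans h2
  set b : ℝ := η * ((2 * g + 1 : ℕ) : ℝ) with hb
  have q1 := qp_pos (F := F) b
  have q2 := qp_pos (F := F) ((1 / 2 + η) * k + 2 * b)
  have q3 := qp_pos (F := F) (η * k)
  have q4 := qp_pos (F := F) (η * ((2 * g : ℕ) : ℝ))
  have hs : ∀ D ∈ sqF F (2 * g + 1), ‖algebraMap ℂ ℂ (beta v₁ v₂ k D) *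
      (Lt (jac D) (2 * g) U₀ * Lt (jac D) (2 * g) U₁)‖ ≤
      E * qp F (η * k) * (C ^ 2 * ρ ^ k * qp F ((1 / 2 + η) * k + 2 * b)) *
        (E * qp F (η * ((2 * g : ℕ) : ℝ)) * (C * qp F b) *
          (E * qp F (η * ((2 * g : ℕ) : ℝ)) * (C * qp F b))) := by
    intro D hD
    have hD' := mem_sqF.1 hD
    have hAD := hA D hD'.1 (not_isSquare_of_mem hD)
    rw [hD'.2.2] at hAD
    have a1 := bf_beta_le hC (fun n => (hAD n).2) h2 h3 k
    have a2 := bf_Lt_le hC (fun n => (hAD n).1) h0 (2 * g)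
    have a3 := bf_Lt_le hC (fun n => (hAD n).1) h1 (2 * g)
    have n1 := hN k
    have n2 := hN (2 * g)
    rw [Algebra.algebraMap_self_apply, norm_mul, norm_mul]
    refine mul_le_mul (a1.trans ?_) (mul_le_mul (a2.trans ?_) (a3.trans ?_) (norm_nonneg _)
      (by positivity)) (by positivity) (by positivity)
    · gcongr
    · gcongr
    · gcongr
  have hcard : ((sqF F (2 * g + 1)).card : ℝ) ≤ qp F ((2 * g + 1 : ℕ) : ℝ) := by
    rw [qp_nat]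
    exact_mod_cast card_sqF_le (F := F) (2 * g + 1)
  refine (norm_sum_le _ _).trans ((sum_le_card_nsmul _ _ _ hs).trans ?_)
  rw [nsmul_eq_mul]
  refine (mul_le_mul_of_nonneg_right hcard (by positivity)).trans (le_of_eq ?_)
  have e : qp F ((2 * g + 1 : ℕ) : ℝ) * qp F (η * k) * qp F ((1 / 2 + η) * k + 2 * b) *
      qp F (η * ((2 * g : ℕ) : ℝ)) * qp F b * qp F (η * ((2 * g : ℕ) : ℝ)) * qp F b =
      qp F (1 + 4 * η) * qp F ((1 / 2 + 2 * η) * k) * qp F (2 + 12 * η) ^ g := by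
    rw [qp_pow]
    simp only [← qp_add]
    congr 1
    rw [hb]
    push_cast
    ring
  calc _ = E ^ 3 * C ^ 4 * ρ ^ k * (qp F ((2 * g + 1 : ℕ) : ℝ) * qp F (η * k) *
        qp F ((1 / 2 + η) * k + 2 * b) * qp F (η * ((2 * g : ℕ) : ℝ)) * qp F b *
        qp F (η * ((2 * g : ℕ) : ℝ)) * qp F b) := by ring
    _ = _ := by
      rw [e]
      ring

theorem ff_direct (hF : ringChar F ≠ 2) {ε : ℝ} (hε : 0 < ε) : ∃ C : ℝ, 0 ≤ C ∧
    ∀ (u : Fin 4 → ℂ) (ρ ρ' : ℝ), 0 < ρ → 0 < ρ' → ‖u 0‖ ≤ ρ → ‖u 1‖ ≤ ρ → ‖u 2‖ ≤ ρ' →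
      ‖u 3‖ ≤ ρ' → ∀ n k g : ℕ, ‖ff F u n k g‖ ≤ C * ρ ^ n * ρ' ^ k *
        qp F ((1 / 2 + ε) * (n + k) + (2 + ε) * g) := by
  obtain ⟨K, hK, hT⟩ := bf_TW_le hF (η := ε / 12) (by positivity)
  refine ⟨(1 + (Q F : ℝ) ^ 4) ^ 4 * K, by positivity,
    fun u ρ ρ' hρ hρ' u0 u1 u2 u3 n k g => ?_⟩
  have hΘ : 1 ≤ qp F (2 + 12 * (ε / 12)) := by
    rw [← qp_zero (F := F)]
    exact qp_mono (by positivity)
  have hr := qp_pos (F := F) (-(1 / 2 + ε / 12))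
  have hb := extract1 (HW (F := F) (beta (u 2) (u 3) k) (C (u 0) * X : ℂ[X]) (C (u 1) * X) g)
    (B := (1 + (Q F : ℝ) ^ 4) ^ 4 * (K * ρ' ^ k * qp F ((1 / 2 + 2 * (ε / 12)) * k)) *
      qp F (2 + 12 * (ε / 12)) ^ g) (mul_pos (inv_pos.2 hρ) hr) ?_ n
  · have p1 := pow_pos hρ n
    rw [mul_pow, qp_pow, qp_pow, inv_pow, ← mul_assoc] at hb
    have hb2 := bf_le_of_mul hb
    have e : ‖ff F u n k g‖ = ‖ff F u n k g‖ * (ρ ^ n)⁻¹ * ρ ^ n := by field_simp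
    rw [e]
    refine (mul_le_mul_of_nonneg_right hb2 p1.le).trans ?_
    have hq : qp F ((1 / 2 + 2 * (ε / 12)) * k) *
        qp F ((2 + 12 * (ε / 12)) * g - -(1 / 2 + ε / 12) * n) ≤
        qp F ((1 / 2 + ε) * (n + k) + (2 + ε) * g) := by
      rw [← qp_add]
      refine qp_mono ?_
      have a1 : 0 ≤ ε * n := by positivity
      have a2 : 0 ≤ ε * k := by positivity
      nlinarith
    calc _ = (1 + (Q F : ℝ) ^ 4) ^ 4 * K * ρ ^ n * ρ' ^ k *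
          (qp F ((1 / 2 + 2 * (ε / 12)) * k) *
            qp F ((2 + 12 * (ε / 12)) * g - -(1 / 2 + ε / 12) * n)) := by ring
      _ ≤ _ := mul_le_mul_of_nonneg_left hq (by positivity)
  · intro z hz
    have hU : ∀ x : ℂ, ‖x‖ ≤ ρ → ‖aeval z (C x * X : ℂ[X])‖ ≤ qp F (-(1 / 2 + ε / 12)) := by
      intro x hx
      have : aeval z (C x * X : ℂ[X]) = x * z := by simp
      rw [this, norm_mul, hz, ← mul_assoc]
      exact mul_le_of_le_one_left hr.le ((mul_inv_le_iff₀ hρ).2 (by rwa [one_mul]))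
    have h1 : qp F (-(1 / 2 + ε / 12)) ≤ 1 := qp_le_one (by linarith)
    rw [map_HW]
    exact bf_HW_le hΘ ((hU _ u0).trans h1) ((hU _ u1).trans h1)
      (hT _ _ _ _ ρ' (hU _ u0) (hU _ u1) u2 u3 k) g

end Pool.Agent.MP_dd7250_nt

end

section

/- Interpolation between the bounds. -/

set_option autoImplicit false

namespace Pool.Agent.MP_dd7250_nt

open Polynomial Finset Pool.Agent.MP_d232b3_nt
open scoped Classical

variable {F : Type*} [Field F] [Fintype F]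

theorem abs_half (hF : ringChar F ≠ 2) {ε e : ℝ} (he : 0 < e) (he1 : e ≤ 1 / 16)
    (he2 : 16 * e ≤ ε) : ∃ C : ℝ, 0 ≤ C ∧
    ∀ (c a₀ a₁ : ℝ) (u : Fin 4 → ℂ), Rng F ε c a₀ a₁ u → ∀ n k g : ℕ, n ≤ 2 * g →
      ‖ff F u n k g‖ ≤ C * qp F ((ex c a₀ a₁ + ε) * g) * qp F (-e) ^ k := by
  obtain ⟨C₁, hC₁, h₁⟩ := ff_dual hF he (by linarith)
  obtain ⟨C₂, hC₂, h₂⟩ := ff_direct hF he
  refine ⟨2 * C₁ + C₂, by positivity, fun c a₀ a₁ u h n k g hn => ?_⟩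
  obtain ⟨M, hM⟩ : ∃ M, M = max 0 (-a₀) + max 0 (-a₁) := ⟨_, rfl⟩
  have m0 := le_max_left 0 (-a₀)
  have m1 := le_max_left 0 (-a₁)
  have m2 := le_max_right 0 (-a₀)
  have m3 := le_max_right 0 (-a₁)
  have hM0 : 0 ≤ M := by linarith
  have hex : ex c a₀ a₁ = 2 - 2 * c + 2 * M := by rw [hM, ex]; ring
  have hc := h.hc
  have hc' : ε ≤ c := by linarith [h.ha, abs_nonneg a₀, abs_nonneg a₁]
  have u0 : ‖u 0‖ ≤ qp F (M - 1 / 2) := h.h0.trans_le (qp_mono (by linarith))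
  have u1 : ‖u 1‖ ≤ qp F (M - 1 / 2) := h.h1.trans_le (qp_mono (by linarith))
  have hn' : (n : ℝ) ≤ 2 * g := by exact_mod_cast hn
  have n0 : (0 : ℝ) ≤ n := Nat.cast_nonneg n
  have k0 : (0 : ℝ) ≤ k := Nat.cast_nonneg k
  have g0 : (0 : ℝ) ≤ g := Nat.cast_nonneg g
  have key : ∀ C x : ℝ, 0 ≤ C →
      (M - 1 / 2) * n + -(1 / 2 + c) * k + x ≤ (2 - 2 * c + 2 * M + ε) * g + -e * k →
      C * qp F (M - 1 / 2) ^ n * qp F (-(1 / 2 + c)) ^ k * qp F x ≤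
        C * (qp F ((ex c a₀ a₁ + ε) * g) * qp F (-e) ^ k) := by
    intro C x hC hx
    rw [qp_pow, qp_pow, qp_pow, mul_assoc, mul_assoc, ← qp_add, ← qp_add, ← qp_add, hex]
    exact mul_le_mul_of_nonneg_left (qp_mono (by linarith)) hC
  have hp : 0 ≤ qp F ((ex c a₀ a₁ + ε) * g) * qp F (-e) ^ k :=
    (mul_pos (qp_pos _) (pow_pos (qp_pos _) k)).le
  have a1 := mul_le_mul_of_nonneg_left hn' hM0
  have a2 := mul_le_mul_of_nonneg_left hn' he.le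
  have a3 := mul_le_mul_of_nonneg_right he2 g0
  have a4 := mul_nonneg he.le g0
  rw [mul_assoc]
  rcases le_total k (2 * g) with hk | hk
  · have hk' : (k : ℝ) ≤ 2 * g := by exact_mod_cast hk
    have b1 := mul_le_mul_of_nonneg_left hk' (show 0 ≤ 1 / 2 - c + 4 * e by linarith)
    have b2 := mul_nonneg (show 0 ≤ c - 3 * e by linarith) k0
    have b3 := mul_nonneg (show 0 ≤ 1 / 2 - c by linarith) g0
    have e1 := key C₁ ((1 + 3 * e) * (n + k) + 2 * e * g) hC₁ (by linarith)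
    have e2 := key C₁ ((1 / 2 + 2 * e) * (n + k) + g) hC₁ (by linarith)
    refine (h₁ u _ _ (qp_pos _) (qp_pos _) u0 u1 h.h2 h.h3 n k g).trans ?_
    rw [mul_add]
    linarith [mul_nonneg hC₂ hp]
  · have hk' : 2 * (g : ℝ) ≤ k := by exact_mod_cast hk
    have b1 := mul_le_mul_of_nonneg_left hk' (show 0 ≤ c - 2 * e by linarith)
    have e1 := key C₂ ((1 / 2 + e) * (n + k) + (2 + e) * g) hC₂ (by linarith)
    refine (h₂ u _ _ (qp_pos _) (qp_pos _) u0 u1 h.h2 h.h3 n k g).trans ?_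
    linarith [mul_nonneg hC₁ hp]

theorem abs_ne {v : ℂ} {x : ℝ} (h : ‖v‖ = qp F x) : v ≠ 0 :=
  norm_pos_iff.1 (h ▸ qp_pos x)

theorem abs_inv {v : ℂ} {a : ℝ} (h : ‖v‖ = qp F (-(1 / 2 + a))) :
    ‖(Q F * v)⁻¹‖ = qp F (-(1 / 2 + -a)) := by
  rw [norm_inv, norm_mul, Complex.norm_natCast, h, ← qp_one, ← qp_add, ← qp_neg]
  congr 1
  ring

theorem abs_sq {v : ℂ} {a : ℝ} (h : ‖v‖ = qp F (-(1 / 2 + a))) (g : ℕ) :
    ‖(Q F * v ^ 2) ^ g‖ = qp F (-2 * a * g) := by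
  rw [norm_pow, norm_mul, norm_pow, Complex.norm_natCast, h, ← qp_one, qp_pow, ← qp_add, qp_pow]
  congr 1
  push_cast
  ring

theorem ff_abs (hF : ringChar F ≠ 2) {ε : ℝ} (hε : 0 < ε) : ∃ C θ : ℝ, 0 ≤ C ∧ 0 ≤ θ ∧ θ < 1 ∧
    ∀ (c a₀ a₁ : ℝ) (u : Fin 4 → ℂ), Rng F ε c a₀ a₁ u → ∀ n k g : ℕ,
      ‖ff F u n k g‖ ≤ C * qp F ((ex c a₀ a₁ + ε) * g) * θ ^ k := by
  have he : 0 < min ε 1 / 16 := div_pos (lt_min hε one_pos) (by norm_num)
  obtain ⟨C, hC, H⟩ := abs_half (ε := ε) hF he (by linarith [min_le_right ε 1])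
    (by linarith [min_le_left ε 1])
  refine ⟨C, qp F (-(min ε 1 / 16)), hC, (qp_pos _).le, qp_lt_one (neg_neg_of_pos he),
    fun c a₀ a₁ u h n k g => ?_⟩
  rcases le_or_gt n (2 * g) with hn | hn
  · exact H c a₀ a₁ u h n k g hn
  rw [ff_symm hF (abs_ne h.h0) (abs_ne h.h1)]
  split_ifs with h4
  · have h' : Rng F ε c (-a₀) (-a₁) ![(Q F * u 0)⁻¹, (Q F * u 1)⁻¹, u 2, u 3] :=
      ⟨h.hc, by simpa only [abs_neg] using h.ha, abs_inv h.h0, abs_inv h.h1, h.h2, h.h3⟩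
    rw [norm_mul, norm_mul, abs_sq h.h0, abs_sq h.h1, ← qp_add]
    refine (mul_le_mul_of_nonneg_left (H c _ _ _ h' (4 * g - n) k g (by omega))
      (qp_pos _).le).trans (le_of_eq ?_)
    have e : ∀ a : ℝ, max 0 (- -a) = a + max 0 (-a) := fun a => by
      rw [neg_neg]
      rcases le_total 0 a with ha | ha
      · rw [max_eq_right ha, max_eq_left (neg_nonpos.2 ha), add_zero]
      · rw [max_eq_left ha, max_eq_right (neg_nonneg.2 ha), add_neg_cancel]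
    rw [← mul_assoc, mul_left_comm, ← qp_add]
    congr 3
    unfold ex
    rw [e, e]
    ring
  · rw [norm_zero]
    exact mul_nonneg (mul_nonneg hC (qp_pos _).le) (pow_pos (qp_pos _) k).le

theorem abs_inv_series (hF : ringChar F ≠ 2) {ε c : ℝ} (hε : 0 < ε) (hc : ε ≤ c) {v : ℂ}
    (hv : ‖v‖ ≤ qp F (-(1 / 2 + c))) {D : F[X]} {g : ℕ} (hD : D ∈ sqF F (2 * g + 1)) :
    (Summable fun n => ‖ainv (jac D) n * v ^ n‖) ∧
      ∑' n, ainv (jac D) n * v ^ n = (Lt (jac D) D.natDegree v)⁻¹ := by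
  obtain ⟨C, -, H⟩ := AA_bound hF (half_pos hε)
  obtain ⟨h1, h2, h3⟩ := mem_sqF.1 hD
  have H' := H D h1 (not_isSquare_of_mem hD)
  have hz : qp F (1 / 2 + ε / 2) * ‖v‖ < 1 := by
    refine (mul_le_mul_of_nonneg_left hv (qp_pos _).le).trans_lt ?_
    rw [← qp_add]
    exact qp_lt_one (by linarith)
  have e : ∀ n : ℕ, C * qp F ((1 / 2 + ε / 2) * n + ε / 2 * D.natDegree) =
      C * qp F (ε / 2 * D.natDegree) * qp F (1 / 2 + ε / 2) ^ n := fun n => by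
    rw [qp_pow, qp_add]
    ring
  have s1 : Sm v (PowerSeries.mk (AA (jac D))) :=
    Sm_of_bound (qp_pos _).le hz fun n => by
      rw [PowerSeries.coeff_mk]
      exact (H' n).1.trans_eq (e n)
  have s2 : Sm v (PowerSeries.mk (AA (jac D)))⁻¹ :=
    Sm_of_bound (qp_pos _).le hz fun n => (H' n).2.trans_eq (e n)
  refine ⟨s2, ?_⟩
  have h0 : PowerSeries.constantCoeff (PowerSeries.mk (AA (jac D))) ≠ 0 := by
    have e0 : monF F 0 = {1} := by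
      ext f
      rw [mem_monF, mem_singleton]
      exact ⟨fun h => h.1.natDegree_eq_zero.1 h.2, fun h => h ▸ ⟨monic_one, natDegree_one⟩⟩
    rw [← PowerSeries.coeff_zero_eq_constantCoeff_apply, PowerSeries.coeff_mk, AA, e0,
      sum_singleton, (jac_cm D).one]
    exact one_ne_zero
  have h4 := evs_mul s1 s2
  have h5 := evs_coe v 1
  rw [Polynomial.coe_one, eval_one] at h5
  have h6 : evs v (PowerSeries.mk (AA (jac D))) = Lt (jac D) D.natDegree v := by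
    unfold evs Lt
    rw [tsum_eq_sum (s := range (D.natDegree + 1)) fun n hn => by
      rw [PowerSeries.coeff_mk, AA_jac_vanish hF h1 h2 (by omega)
        (by rw [mem_range] at hn; omega), zero_mul]]
    simp
  rw [PowerSeries.mul_inv_cancel _ h0, h5, h6] at h4
  exact eq_inv_of_mul_eq_one_right h4.symm

theorem abs_beta (hF : ringChar F ≠ 2) {ε c : ℝ} (hε : 0 < ε) (hc : ε ≤ c) {v₁ v₂ : ℂ}
    (h₁ : ‖v₁‖ ≤ qp F (-(1 / 2 + c))) (h₂ : ‖v₂‖ ≤ qp F (-(1 / 2 + c))) {D : F[X]} {g : ℕ}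
    (hD : D ∈ sqF F (2 * g + 1)) : HasSum (fun k => beta v₁ v₂ k D) (wt v₁ v₂ D) := by
  obtain ⟨s1, e1⟩ := abs_inv_series hF hε hc h₁ hD
  obtain ⟨s2, e2⟩ := abs_inv_series hF hε hc h₂ hD
  rw [wt, mul_inv, ← e1, ← e2, tsum_mul_tsum_eq_tsum_sum_antidiagonal_of_summable_norm s1 s2]
  exact (summable_norm_sum_mul_antidiagonal_of_summable_norm s1 s2).of_norm.hasSum

theorem hasSum_HW (hF : ringChar F ≠ 2) {ε c a₀ a₁ : ℝ} (hε : 0 < ε) {u : Fin 4 → ℂ}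
    (h : Rng F ε c a₀ a₁ u) (g : ℕ) :
    HasSum (fun k => ∑ n ∈ range (4 * g + 1), ff F u n k g)
      (HW (F := F) (wt (u 2) (u 3)) (u 0) (u 1) g) := by
  have hc : ε ≤ c := by linarith [h.ha, abs_nonneg a₀, abs_nonneg a₁]
  have e : ∀ k, ∑ n ∈ range (4 * g + 1), ff F u n k g =
      HW (F := F) (beta (u 2) (u 3) k) (u 0) (u 1) g := fun k => by
    have h1 := map_HW (F := F) (aeval (1 : ℂ) : ℂ[X] →ₐ[ℂ] ℂ) (beta (u 2) (u 3) k)
      (C (u 0) * X) (C (u 1) * X) g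
    have h2 : (HW (F := F) (beta (u 2) (u 3) k) (C (u 0) * X : ℂ[X]) (C (u 1) * X) g).natDegree <
        4 * g + 1 := Nat.lt_succ_of_le (natDegree_le_iff_coeff_eq_zero.2 fun n hn =>
      (ff_symm hF (abs_ne h.h0) (abs_ne h.h1) n k g).trans (if_neg hn.not_ge))
    rw [aeval_eq_sum_range' h2] at h1
    simpa [ff] using h1
  simp only [e, HW, PowerSeries.coeff_mul, PowerSeries.coeff_mk, TW]
  exact hasSum_sum fun p _ => HasSum.mul_left _ (hasSum_sum fun D hD =>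
    HasSum.mul_right _ (abs_beta hF hε hc h.h2 h.h3 hD))

theorem HW_bound (hF : ringChar F ≠ 2) {ε : ℝ} (hε : 0 < ε) : ∃ C : ℝ,
    ∀ (c a₀ a₁ : ℝ) (u : Fin 4 → ℂ), Rng F ε c a₀ a₁ u → ∀ g : ℕ,
      ‖HW (F := F) (wt (u 2) (u 3)) (u 0) (u 1) g‖ ≤ C * qp F (ex c a₀ a₁ + ε) ^ g := by
  obtain ⟨C, θ, hC, h0, h1, H⟩ := ff_abs hF (half_pos hε)
  obtain ⟨K, hK, HK⟩ := nat_le_qp (F := F) (half_pos hε)
  refine ⟨4 * K * C * (1 - θ)⁻¹, fun c a₀ a₁ u h g => ?_⟩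
  have h' : Rng F (ε / 2) c a₀ a₁ u := ⟨h.hc, by linarith [h.ha], h.h0, h.h1, h.h2, h.h3⟩
  have hs := (hasSum_geometric_of_lt_one h0 h1).mul_left (4 * K * C * qp F (ex c a₀ a₁ + ε) ^ g)
  rw [mul_right_comm]
  refine (hasSum_HW hF hε h g).norm_le_of_bounded hs fun k => ?_
  have hp : 0 ≤ C * qp F ((ex c a₀ a₁ + ε / 2) * g) * θ ^ k :=
    mul_nonneg (mul_nonneg hC (qp_pos _).le) (pow_nonneg h0 k)
  calc _ ≤ ∑ _n ∈ range (4 * g + 1), C * qp F ((ex c a₀ a₁ + ε / 2) * g) * θ ^ k :=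
        norm_sum_le_of_le _ fun n _ => H c a₀ a₁ u h' n k g
    _ = (4 * g + 1) * (C * qp F ((ex c a₀ a₁ + ε / 2) * g) * θ ^ k) := by
        rw [sum_const, card_range, nsmul_eq_mul]
        push_cast
        rfl
    _ ≤ 4 * (K * qp F (ε / 2 * g)) * (C * qp F ((ex c a₀ a₁ + ε / 2) * g) * θ ^ k) :=
        mul_le_mul_of_nonneg_right (by linarith [HK g]) hp
    _ = _ := by
        rw [qp_pow, show (ex c a₀ a₁ + ε) * g = ε / 2 * g + (ex c a₀ a₁ + ε / 2) * g by ring, qp_add]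
        ring

end Pool.Agent.MP_dd7250_nt

end

section

/- The first main term. -/

set_option autoImplicit false

namespace Pool.Agent.MP_dd7250_nt

open Polynomial Finset Pool.Agent.MP_d232b3_nt
open scoped Classical

variable {F : Type*} [Field F] [Fintype F]

theorem main0_ne {ε c a₀ a₁ : ℝ} {u : Fin 4 → ℂ} (h : Rng F ε c a₀ a₁ u) :
    u 0 ≠ 0 ∧ u 1 ≠ 0 :=
  ⟨norm_pos_iff.1 (h.h0 ▸ qp_pos _), norm_pos_iff.1 (h.h1 ▸ qp_pos _)⟩

theorem main0_zero (hF : ringChar F ≠ 2) {ε c a₀ a₁ : ℝ} {u : Fin 4 → ℂ}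
    (h : Rng F ε c a₀ a₁ u) {n k g : ℕ} (hn : ¬ n ≤ 4 * g) : ff F u n k g = 0 := by
  rw [ff_symm hF (main0_ne h).1 (main0_ne h).2, if_neg hn]

theorem main0_summable (hF : ringChar F ≠ 2) {ε c a₀ a₁ : ℝ} (hε : 0 < ε) {u : Fin 4 → ℂ}
    (h : Rng F ε c a₀ a₁ u) :
    Summable fun x : ℕ × (ℕ × ℕ) => ff F u x.2.1 x.2.2 x.1 * (((Q F : ℂ) ^ 2)⁻¹) ^ x.1 := by
  obtain ⟨C, θ, hC, hθ, hθ1, H⟩ := ff_abs hF hε
  have hs0 := (qp_pos (F := F) (-(ε / 8))).le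
  have hs1 : qp F (-(ε / 8)) < 1 := qp_lt_one (by linarith)
  have g1 := summable_geometric_of_lt_one hs0 hs1
  have g2 := summable_geometric_of_lt_one hθ hθ1
  have g3 : Summable fun p : ℕ × ℕ => qp F (-(ε / 8)) ^ p.1 * θ ^ p.2 :=
    g1.mul_of_nonneg g2 (fun _ => pow_nonneg hs0 _) fun _ => pow_nonneg hθ _
  have g4 : Summable fun x : ℕ × (ℕ × ℕ) =>
      qp F (-(ε / 8)) ^ x.1 * (qp F (-(ε / 8)) ^ x.2.1 * θ ^ x.2.2) :=
    g1.mul_of_nonneg g3 (fun _ => pow_nonneg hs0 _)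
      fun _ => mul_nonneg (pow_nonneg hs0 _) (pow_nonneg hθ _)
  refine Summable.of_norm_bounded (g4.mul_left C) ?_
  rintro ⟨g, n, k⟩
  dsimp only
  by_cases hn : n ≤ 4 * g
  swap
  · rw [main0_zero hF h hn, zero_mul, norm_zero]
    positivity
  have e1 : ‖(((Q F : ℂ) ^ 2)⁻¹) ^ g‖ = qp F (-2 * g) := by
    rw [norm_pow, norm_inv, norm_pow, Complex.norm_natCast, ← qp_nat, ← qp_neg, qp_pow]
    norm_num
  have e2 : ex c a₀ a₁ + ε ≤ 2 - ε := by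
    have b0 : max 0 (-a₀) ≤ |a₀| := max_le (abs_nonneg _) (neg_le_abs _)
    have b1 : max 0 (-a₁) ≤ |a₁| := max_le (abs_nonneg _) (neg_le_abs _)
    have := h.ha
    unfold ex
    linarith
  have e3 : qp F ((ex c a₀ a₁ + ε) * g) * qp F (-2 * g) ≤
      qp F (-(ε / 8)) ^ g * qp F (-(ε / 8)) ^ n := by
    rw [qp_pow, qp_pow, ← qp_add, ← qp_add]
    refine qp_mono ?_
    have hn' : (n : ℝ) ≤ 4 * g := by exact_mod_cast hn
    have hg : (0 : ℝ) ≤ g := Nat.cast_nonneg g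
    nlinarith [mul_le_mul_of_nonneg_right e2 hg, mul_le_mul_of_nonneg_left hn' hε.le,
      mul_nonneg hε.le hg]
  rw [norm_mul, e1]
  calc ‖ff F u n k g‖ * qp F (-2 * g)
      ≤ C * qp F ((ex c a₀ a₁ + ε) * g) * θ ^ k * qp F (-2 * g) :=
        mul_le_mul_of_nonneg_right (H c a₀ a₁ u h n k g) (qp_pos _).le
    _ = C * (qp F ((ex c a₀ a₁ + ε) * g) * qp F (-2 * g)) * θ ^ k := by ring
    _ ≤ C * (qp F (-(ε / 8)) ^ g * qp F (-(ε / 8)) ^ n) * θ ^ k := by gcongr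
    _ = _ := by ring

theorem main0_aeval (u : Fin 4 → ℂ) (M : ℕ) (z : ℂ) :
    aeval z (C (Q F - 1 : ℂ) * (1 + C (Q F * (u 0 * u 1)) * X ^ 2) *
        ∏ P ∈ pr F M, BP F P.natDegree (pw (fun i => (C (u i) * X : ℂ[X])) P.natDegree)) =
      (Q F - 1) * (1 + Q F * (u 0 * u 1) * z ^ 2) *
        ∏ P ∈ pr F M, BP F P.natDegree (pw (fun i => u i * z) P.natDegree) := by
  have e : (aeval z : ℂ[X] →ₐ[ℂ] ℂ) ∘ (fun i => (C (u i) * X : ℂ[X])) = fun i => u i * z := by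
    funext i
    simp
  rw [map_mul, map_prod]
  simp only [map_BP, e]
  simp

theorem main0 (hF : ringChar F ≠ 2) {ε c a₀ a₁ : ℝ} (hε : 0 < ε) {u : Fin 4 → ℂ}
    (h : Rng F ε c a₀ a₁ u) :
    ∃ b : ℂ, HasProd (fun P : Prm F => BP F P.1.natDegree (pw u P.1.natDegree)) b ∧
      HasSum (fun g => HW (F := F) (wt (u 2) (u 3)) (u 0) (u 1) g * (((Q F : ℂ) ^ 2)⁻¹) ^ g)
        ((Q F - 1) * (1 + Q F * (u 0 * u 1)) * b) := by
  obtain ⟨κ, hκ, Hκ⟩ := BP_bound hF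
  have hr : 1 < qp F (ε / 8) := Real.one_lt_rpow one_lt_Q (by linarith)
  obtain ⟨b, hb, hb'⟩ := hasProd_of_bound (F := F) (half_pos hε) (κ := κ)
    (fun d => BP F d (pw u d)) fun d hd => by
      have := Hκ ε c a₀ a₁ u 1 hε h (by rw [norm_one]; exact hr.le) d hd
      simpa only [mul_one] using this
  refine ⟨b, hb, ?_⟩
  have hs := main0_summable hF hε h
  have ha := hs.hasSum
  set a := ∑' x : ℕ × (ℕ × ℕ), ff F u x.2.1 x.2.2 x.1 * (((Q F : ℂ) ^ 2)⁻¹) ^ x.1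
  have s1 : HasSum (fun g => HW (F := F) (wt (u 2) (u 3)) (u 0) (u 1) g *
      (((Q F : ℂ) ^ 2)⁻¹) ^ g) a := by
    refine ha.prod_fiberwise fun g => ?_
    have t1 := (hs.prod_factor g).hasSum
    have t2 := ((Equiv.prodComm ℕ ℕ).hasSum_iff.2 t1).prod_fiberwise
      (g := fun k => (∑ n ∈ range (4 * g + 1), ff F u n k g) * (((Q F : ℂ) ^ 2)⁻¹) ^ g)
      fun k => (hasSum_sum_of_ne_finset_zero (f := fun n => ff F u n k g)
        fun n hn => main0_zero hF h (by rw [mem_range] at hn; omega)).mul_right _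
    rw [((hasSum_HW hF hε h g).mul_right _).unique t2]
    exact t1
  have hs' : Summable fun x : (ℕ × ℕ) × ℕ =>
      ff F u x.1.1 x.1.2 x.2 * (((Q F : ℂ) ^ 2)⁻¹) ^ x.2 := hs.prod_symm
  have s2 : HasSum (fun p : ℕ × ℕ => ∑' g, ff F u p.1 p.2 g * (((Q F : ℂ) ^ 2)⁻¹) ^ g) a :=
    ((Equiv.prodComm (ℕ × ℕ) ℕ).hasSum_iff.2 ha).prod_fiberwise
      fun p => (hs'.prod_factor p).hasSum
  have s3 : HasSum (fun M => ∑ p ∈ antidiagonal M,
      ∑' g, ff F u p.1 p.2 g * (((Q F : ℂ) ^ 2)⁻¹) ^ g) a := by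
    refine (Finset.HasAntidiagonal.sigmaAntidiagonalEquivProd.hasSum_iff.2 s2).sigma fun M => ?_
    rw [← Finset.sum_coe_sort]
    exact hasSum_fintype _
  obtain ⟨K, hK⟩ := sum_pr_le (F := F) (half_pos hε)
  have s4 := (poly_limit (fun M => C (Q F - 1 : ℂ) * (1 + C (Q F * (u 0 * u 1)) * X ^ 2) *
      ∏ P ∈ pr F M, BP F P.natDegree (pw (fun i => (C (u i) * X : ℂ[X])) P.natDegree))
    (fun M => ∑ p ∈ antidiagonal M, ∑' g, ff F u p.1 p.2 g * (((Q F : ℂ) ^ 2)⁻¹) ^ g) hr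
    (B := ‖(Q F - 1 : ℂ)‖ * (1 + ‖Q F * (u 0 * u 1)‖ * qp F (ε / 8) ^ 2) * Real.exp (κ * K))
    (fun M z hz => by
      rw [main0_aeval, norm_mul, norm_mul]
      refine mul_le_mul (mul_le_mul_of_nonneg_left ((norm_add_le _ _).trans_eq ?_)
        (norm_nonneg _)) ?_ (norm_nonneg _) (by positivity)
      · rw [norm_one, norm_mul, norm_pow, hz]
      · rw [norm_prod]
        refine le_trans (prod_le_prod (fun _ _ => norm_nonneg _)
          (g := fun P => Real.exp (κ * qp F (-(1 + ε / 2) * P.natDegree))) fun P hP => ?_) ?_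
        · have t := Hκ ε c a₀ a₁ u z hε h hz.le _ (deg_pos (mem_pr.1 hP).2.1)
          have t' := norm_le_norm_add_norm_sub' (BP F P.natDegree
            (pw (fun i => u i * z) P.natDegree)) 1
          rw [norm_one] at t'
          linarith [Real.add_one_le_exp (κ * qp F (-(1 + ε / 2) * P.natDegree))]
        · rw [← Real.exp_sum, ← mul_sum]
          exact Real.exp_le_exp.2 (mul_le_mul_of_nonneg_left (hK M) hκ))
    fun m M hm => by
      refine tendsto_nhds_unique (hM_lim hF u hm) ?_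
      simp only [sum_mul]
      exact (hasSum_sum fun p _ => (hs'.prod_factor p).hasSum).tendsto_sum_nat).2
  simp only [main0_aeval, mul_one, one_pow] at s4
  rw [tendsto_nhds_unique (hb'.const_mul _) s4, s3.tsum_eq]
  exact s1

end Pool.Agent.MP_dd7250_nt

end

section

/- The four main terms. -/

set_option autoImplicit false
set_option maxHeartbeats 400000

namespace Pool.Agent.MP_dd7250_nt

open Polynomial Finset Pool.Agent.MP_d232b3_nt Filter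
open scoped Classical

variable {F : Type*} [Field F] [Fintype F]

variable (F) in
/-- The main term in the variables `u`. -/
noncomputable def Gu (u : Fin 4 → ℂ) : ℂ :=
  (∏' P : Prm F, BP F P.1.natDegree (pw u P.1.natDegree)) /
    ((1 - Q F * u 0 ^ 2) * (1 - Q F * u 1 ^ 2) * (1 - Q F * (u 0 * u 1)))

theorem asm_norm_Q : ‖(Q F : ℂ)‖ = qp F 1 := by rw [qp_one, Complex.norm_natCast]

theorem asm_dual {x : ℂ} {a : ℝ} (h : ‖x‖ = qp F (-(1 / 2 + a))) :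
    ‖(Q F * x)⁻¹‖ = qp F (-(1 / 2 + -a)) := by
  rw [norm_inv, norm_mul, asm_norm_Q, h, ← qp_add, ← qp_neg]
  congr 1
  ring

theorem asm_ne {x : ℂ} {a : ℝ} (h : ‖x‖ = qp F a) : x ≠ 0 :=
  norm_pos_iff.1 (h ▸ qp_pos a)

theorem asm_evs (hF : ringChar F ≠ 2) {ε c a₀ a₁ : ℝ} (hε : 0 < ε) {u : Fin 4 → ℂ}
    (h : Rng F ε c a₀ a₁ u) {H : PowerSeries ℂ} {s : ℂ} (hs : s ≠ 0)
    (hH : ∀ g, PowerSeries.coeff g H = s ^ g * HW (F := F) (wt (u 2) (u 3)) (u 0) (u 1) g)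
    (h0 : (Q F : ℂ) ^ 2 * u 0 ^ 2 * u 1 ^ 2 ≠ 1) :
    evs ((Q F : ℂ) ^ 2 * s)⁻¹ H / ((1 - Q F * u 0 ^ 2) * (1 - Q F * u 1 ^ 2) *
      (1 - (Q F : ℂ) ^ 2 * u 0 ^ 2 * u 1 ^ 2)) = (Q F - 1) * Gu F u := by
  obtain ⟨b, hb, hS⟩ := main0 hF hε h
  have h1 : evs ((Q F : ℂ) ^ 2 * s)⁻¹ H = (Q F - 1) * (1 + Q F * (u 0 * u 1)) * b := by
    rw [← hS.tsum_eq, evs]
    refine tsum_congr fun g => ?_
    rw [hH, mul_inv, mul_pow, inv_pow s]
    field_simp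
  have h2 : 1 - (Q F : ℂ) ^ 2 * u 0 ^ 2 * u 1 ^ 2 =
      (1 + Q F * (u 0 * u 1)) * (1 - Q F * (u 0 * u 1)) := by ring
  have h3 : 1 + (Q F : ℂ) * (u 0 * u 1) ≠ 0 := fun h4 => h0 (by
    rw [h4, zero_mul] at h2
    exact (sub_eq_zero.1 h2).symm)
  rw [h1, h2, Gu, hb.tprod_eq]
  generalize 1 + (Q F : ℂ) * (u 0 * u 1) = z at h3 ⊢
  field_simp

theorem asm_main (hF : ringChar F ≠ 2) {ε : ℝ} (hε : 0 < ε) : ∃ K : ℝ,
    ∀ (c a₀ a₁ : ℝ) (u : Fin 4 → ℂ), Rng F ε c a₀ a₁ u → Q F * u 0 ^ 2 ≠ 1 → Q F * u 1 ^ 2 ≠ 1 →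
      (Q F : ℂ) ^ 2 * u 0 ^ 2 * u 1 ^ 2 ≠ 1 → u 0 ^ 2 ≠ u 1 ^ 2 → ∀ g : ℕ,
      ‖TW (F := F) (wt (u 2) (u 3)) (u 0) (u 1) g - (Q F - 1) * (Q F : ℂ) ^ (2 * g) *
        (Gu F u + (Q F * u 1 ^ 2) ^ g * Gu F ![u 0, (Q F * u 1)⁻¹, u 2, u 3] +
          ((Q F * u 0 ^ 2) ^ g * Gu F ![(Q F * u 0)⁻¹, u 1, u 2, u 3] +
            (Q F * u 0 ^ 2) ^ g * (Q F * u 1 ^ 2) ^ g *
              Gu F ![(Q F * u 0)⁻¹, (Q F * u 1)⁻¹, u 2, u 3]))‖ ≤
        K * qp F (ex c a₀ a₁ + ε) ^ g := by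
  have hδ : 0 < qp F ε - 1 := by
    have := Real.one_lt_rpow (one_lt_Q (F := F)) hε
    exact sub_pos.2 this
  obtain ⟨K, hK⟩ := solve4 hδ
  obtain ⟨B, hB⟩ := HW_bound hF hε
  refine ⟨K * B, fun c a₀ a₁ u h h1 h2 h3 h4 g => ?_⟩
  have hq : (Q F : ℂ) ≠ 0 := Q_ne
  have hu0 := asm_ne h.h0
  have hu1 := asm_ne h.h1
  set l : Fin 4 → ℂ := ![(Q F : ℂ) ^ 2 * 1, (Q F : ℂ) ^ 2 * (Q F * u 0 ^ 2),
    (Q F : ℂ) ^ 2 * (Q F * u 1 ^ 2), (Q F : ℂ) ^ 2 * (Q F * u 0 ^ 2 * (Q F * u 1 ^ 2))] with hl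
  set H := Ph F (PowerSeries.C (u 0)) (PowerSeries.C (u 1)) PowerSeries.X *
    PowerSeries.mk (TW (F := F) (wt (u 2) (u 3)) (u 0) (u 1)) with hH
  have hHc : ∀ g, PowerSeries.coeff g H = HW (F := F) (wt (u 2) (u 3)) (u 0) (u 1) g :=
    fun g => rfl
  have hq2 := pow_ne_zero 2 hq
  have hx0 : (Q F : ℂ) * u 0 ^ 2 ≠ 0 := mul_ne_zero hq (pow_ne_zero 2 hu0)
  have hx1 : (Q F : ℂ) * u 1 ^ 2 ≠ 0 := mul_ne_zero hq (pow_ne_zero 2 hu1)
  have h3' : (Q F : ℂ) * u 0 ^ 2 * (Q F * u 1 ^ 2) ≠ 1 := fun h5 => h3 (by rw [← h5]; ring)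
  have h4' : (Q F : ℂ) * u 0 ^ 2 ≠ Q F * u 1 ^ 2 := fun h5 => h4 (mul_left_cancel₀ hq h5)
  have hinj : Function.Injective l := by
    have e1 : (Q F : ℂ) * u 0 ^ 2 ≠ Q F * u 0 ^ 2 * (Q F * u 1 ^ 2) := fun h5 =>
      h2 ((mul_eq_left₀ hx0).1 h5.symm)
    have e2 : (Q F : ℂ) * u 1 ^ 2 ≠ Q F * u 0 ^ 2 * (Q F * u 1 ^ 2) := fun h5 =>
      h1 ((mul_eq_right₀ hx1).1 h5.symm)
    intro i j hij
    fin_cases i <;> fin_cases j <;> first
      | rfl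
      | (exfalso
         have h6 := mul_left_cancel₀ hq2 (show (Q F : ℂ) ^ 2 * _ = (Q F : ℂ) ^ 2 * _ from hij)
         first
          | exact h1 h6 | exact h1 h6.symm | exact h2 h6 | exact h2 h6.symm
          | exact h3' h6 | exact h3' h6.symm | exact h4' h6 | exact h4' h6.symm
          | exact e1 h6 | exact e1 h6.symm | exact e2 h6 | exact e2 h6.symm)
  have hn0 : ‖(Q F : ℂ) * u 0 ^ 2‖ = qp F (-2 * a₀) := by
    rw [norm_mul, norm_pow, asm_norm_Q, h.h0, qp_pow, ← qp_add]; congr 1; push_cast; ring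
  have hn1 : ‖(Q F : ℂ) * u 1 ^ 2‖ = qp F (-2 * a₁) := by
    rw [norm_mul, norm_pow, asm_norm_Q, h.h1, qp_pow, ← qp_add]; congr 1; push_cast; ring
  have hn2 : ‖(Q F : ℂ) ^ 2‖ = qp F 2 := by
    rw [norm_pow, asm_norm_Q, qp_pow]; congr 1; push_cast; ring
  have hge : ∀ i, (1 + (qp F ε - 1)) * qp F (ex c a₀ a₁ + ε) ≤ ‖l i‖ := by
    have ha := h.ha
    have e0 : max 0 (-a₀) ≤ |a₀| ∧ max 0 (-a₀) ≤ |a₀| - a₀ := by
      rcases le_total 0 a₀ with h5 | h5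
      · rw [abs_of_nonneg h5, max_eq_left (by linarith)]; constructor <;> linarith
      · rw [abs_of_nonpos h5, max_eq_right (by linarith)]; constructor <;> linarith
    have e1 : max 0 (-a₁) ≤ |a₁| ∧ max 0 (-a₁) ≤ |a₁| - a₁ := by
      rcases le_total 0 a₁ with h5 | h5
      · rw [abs_of_nonneg h5, max_eq_left (by linarith)]; constructor <;> linarith
      · rw [abs_of_nonpos h5, max_eq_right (by linarith)]; constructor <;> linarith
    intro i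
    rw [add_sub_cancel, ← qp_add]
    fin_cases i
    · change _ ≤ ‖(Q F : ℂ) ^ 2 * 1‖
      rw [mul_one, hn2]
      exact qp_mono (by rw [ex]; linarith [e0.1, e1.1])
    · change _ ≤ ‖(Q F : ℂ) ^ 2 * (Q F * u 0 ^ 2)‖
      rw [norm_mul, hn2, hn0, ← qp_add]
      exact qp_mono (by rw [ex]; linarith [e0.2, e1.1])
    · change _ ≤ ‖(Q F : ℂ) ^ 2 * (Q F * u 1 ^ 2)‖
      rw [norm_mul, hn2, hn1, ← qp_add]
      exact qp_mono (by rw [ex]; linarith [e0.1, e1.2])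
    · change _ ≤ ‖(Q F : ℂ) ^ 2 * (Q F * u 0 ^ 2 * (Q F * u 1 ^ 2))‖
      rw [norm_mul, norm_mul (_ * _), hn2, hn0, hn1, ← qp_add, ← qp_add]
      exact qp_mono (by rw [ex]; linarith [e0.2, e1.2])
  have key := hK _ B l (PowerSeries.mk (TW (F := F) (wt (u 2) (u 3)) (u 0) (u 1))) H (qp_pos _)
    hinj hge (by
      rw [hH, Fin.prod_univ_four, Ph]
      simp only [hl, Matrix.cons_val_zero, Matrix.cons_val_one, Matrix.cons_val, map_mul, map_pow,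
        map_natCast, map_one]
      ring) (fun g => hB c a₀ a₁ u h g) g
  have r1 : Rng F ε c (-a₀) a₁ ![(Q F * u 0)⁻¹, u 1, u 2, u 3] :=
    ⟨h.hc, by rw [abs_neg]; exact h.ha, asm_dual h.h0, h.h1, h.h2, h.h3⟩
  have r2 : Rng F ε c a₀ (-a₁) ![u 0, (Q F * u 1)⁻¹, u 2, u 3] :=
    ⟨h.hc, by rw [abs_neg]; exact h.ha, h.h0, asm_dual h.h1, h.h2, h.h3⟩
  have r3 : Rng F ε c (-a₀) (-a₁) ![(Q F * u 0)⁻¹, (Q F * u 1)⁻¹, u 2, u 3] :=
    ⟨h.hc, by rw [abs_neg, abs_neg]; exact h.ha, asm_dual h.h0, asm_dual h.h1, h.h2, h.h3⟩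
  have c0 := asm_evs hF hε h (H := H) one_ne_zero (fun g => by rw [one_pow, one_mul, hHc]) h3
  have c1 := asm_evs hF hε r1 (H := H) hx0 (fun g => by rw [hHc, HW_symm hF _ hu0]; rfl) (by
    simp only [Matrix.cons_val_zero, Matrix.cons_val_one]
    intro h5
    field_simp at h5
    exact h4 h5.symm)
  have c2 := asm_evs hF hε r2 (H := H) hx1 (fun g => by
    rw [hHc, HW_comm, HW_symm hF _ hu1, HW_comm]; rfl) (by
    simp only [Matrix.cons_val_zero, Matrix.cons_val_one]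
    intro h5
    field_simp at h5
    exact h4 h5)
  have c3 := asm_evs hF hε r3 (H := H) (mul_ne_zero hx0 hx1) (fun g => by
    rw [hHc, HW_symm hF _ hu0, HW_comm, HW_symm hF _ hu1, HW_comm, mul_pow _ (Q F * u 1 ^ 2),
      mul_assoc]; rfl) (by
    simp only [Matrix.cons_val_zero, Matrix.cons_val_one]
    intro h5
    field_simp at h5
    exact h3 (by rw [← h5]))
  rw [PowerSeries.coeff_mk, Fin.sum_univ_four] at key
  have p0 : ∏ j ∈ univ.erase 0, (1 - l j / l 0) = (1 - Q F * u 0 ^ 2) * (1 - Q F * u 1 ^ 2) *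
      (1 - (Q F : ℂ) ^ 2 * u 0 ^ 2 * u 1 ^ 2) := by
    rw [show (univ.erase 0 : Finset (Fin 4)) = {1, 2, 3} by decide, prod_insert (by decide),
      prod_pair (by decide)]
    simp only [hl, Matrix.cons_val_zero, Matrix.cons_val_one, Matrix.cons_val]
    field_simp
  have p1 : ∏ j ∈ univ.erase 1, (1 - l j / l 1) = (1 - Q F * (Q F * u 0)⁻¹ ^ 2) *
      (1 - Q F * u 1 ^ 2) * (1 - (Q F : ℂ) ^ 2 * (Q F * u 0)⁻¹ ^ 2 * u 1 ^ 2) := by
    rw [show (univ.erase 1 : Finset (Fin 4)) = {0, 2, 3} by decide, prod_insert (by decide),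
      prod_pair (by decide)]
    simp only [hl, Matrix.cons_val_zero, Matrix.cons_val_one, Matrix.cons_val]
    field_simp
  have p2 : ∏ j ∈ univ.erase 2, (1 - l j / l 2) = (1 - Q F * u 0 ^ 2) *
      (1 - Q F * (Q F * u 1)⁻¹ ^ 2) * (1 - (Q F : ℂ) ^ 2 * u 0 ^ 2 * (Q F * u 1)⁻¹ ^ 2) := by
    rw [show (univ.erase 2 : Finset (Fin 4)) = {0, 1, 3} by decide, prod_insert (by decide),
      prod_pair (by decide)]
    simp only [hl, Matrix.cons_val_zero, Matrix.cons_val_one, Matrix.cons_val]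
    field_simp
  have p3 : ∏ j ∈ univ.erase 3, (1 - l j / l 3) = (1 - Q F * (Q F * u 0)⁻¹ ^ 2) *
      (1 - Q F * (Q F * u 1)⁻¹ ^ 2) *
      (1 - (Q F : ℂ) ^ 2 * (Q F * u 0)⁻¹ ^ 2 * (Q F * u 1)⁻¹ ^ 2) := by
    rw [show (univ.erase 3 : Finset (Fin 4)) = {0, 1, 2} by decide, prod_insert (by decide),
      prod_pair (by decide)]
    simp only [hl, Matrix.cons_val_zero, Matrix.cons_val_one, Matrix.cons_val]
    field_simp
  rw [p0, p1, p2, p3] at key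
  simp only [hl, Matrix.cons_val_zero, Matrix.cons_val_one, Matrix.cons_val] at key c1 c2 c3
  rw [c0, c1, c2, c3] at key
  refine le_of_eq_of_le ?_ key
  congr 2
  simp only [mul_pow ((Q F : ℂ) ^ 2), mul_pow ((Q F : ℂ) * u 0 ^ 2), ← pow_mul, one_pow]
  ring

end Pool.Agent.MP_dd7250_nt

end

section

/- Translation between the shifts and the variables `u`. -/

set_option autoImplicit false
set_option maxHeartbeats 400000

namespace Pool.Agent.MP_dd7250_nt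

open Polynomial Finset Pool.Agent.MP_d232b3_nt Filter
open scoped Classical

variable {F : Type*} [Field F] [Fintype F]

variable (F) in
/-- The variable attached to a shift. -/
noncomputable def uu (α : ℂ) : ℂ := (Q F : ℂ) ^ (-(1 / 2 + α))

theorem br_norm (s : ℂ) : ‖(Q F : ℂ) ^ s‖ = qp F s.re :=
  Complex.norm_natCast_cpow_of_pos Fintype.card_pos s

theorem norm_uu (α : ℂ) : ‖uu F α‖ = qp F (-(1 / 2 + α.re)) := by
  rw [uu, br_norm]
  simp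

theorem br_pow (d : ℕ) (s : ℂ) : ((Q F : ℂ) ^ d) ^ s = ((Q F : ℂ) ^ s) ^ d := by
  rw [← Complex.natCast_cpow_natCast_mul, Complex.cpow_nat_mul]

theorem br_mul (α β : ℂ) : uu F α * uu F β = (Q F : ℂ) ^ (-1 - α - β) := by
  rw [uu, uu, ← Complex.cpow_add _ _ Q_ne]
  congr 1
  ring

theorem br_Q_mul (α β : ℂ) : Q F * (uu F α * uu F β) = (Q F : ℂ) ^ (-(α + β)) := by
  rw [br_mul]
  nth_rewrite 1 [← Complex.cpow_one (Q F : ℂ)]
  rw [← Complex.cpow_add _ _ Q_ne]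
  congr 1
  ring

theorem uu_neg (α : ℂ) : (Q F * uu F α)⁻¹ = uu F (-α) := by
  refine inv_eq_of_mul_eq_one_right ?_
  rw [mul_assoc, br_Q_mul]
  simp

theorem Lf_eq (hF : ringChar F ≠ 2) {D : F[X]} {g : ℕ} (hD : D ∈ sqF F (2 * g + 1)) (α : ℂ) :
    Lf D (1 / 2 + α) = Lt (jac D) (2 * g) (uu F α) := by
  obtain ⟨h1, h2, h3⟩ := mem_sqF.1 hD
  rw [Lf, Lt, tsum_eq_sum (s := range (2 * g + 1))]
  · refine sum_congr rfl fun n _ => ?_
    rw [finsum_eq_AA, br_pow]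
    rfl
  · intro n hn
    rw [finsum_eq_AA, AA_jac_vanish hF h1 h2 (by omega) (by simpa [h3] using hn), zero_mul]

theorem avg_eq {g : ℕ} (hg : 1 ≤ g) (Φ : F[X] → ℂ) :
    avg g Φ = (∑ D ∈ sqF F (2 * g + 1), Φ D) / ((Q F - 1) * (Q F : ℂ) ^ (2 * g)) := by
  rw [avg, ← card_sqF hg, ← finsum_mem_coe_finset]
  simp only [mem_coe, mem_sqF]
  rw [Nat.subtype_card (sqF F (2 * g + 1)) fun D => mem_sqF]

theorem locA_eq (α β γ δ : ℂ) (d : ℕ) :
    locA ((Q F : ℂ) ^ d) α β γ δ =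
      BP F d (pw ![uu F α, uu F β, uu F γ, uu F δ] d) * (1 - (uu F γ * uu F δ) ^ d) /
        ((1 - (uu F α * uu F γ) ^ d) * (1 - (uu F α * uu F δ) ^ d) *
          (1 - (uu F β * uu F γ) ^ d) * (1 - (uu F β * uu F δ) ^ d)) := by
  have hp : (Q F : ℂ) ^ d ≠ 0 := pow_ne_zero _ Q_ne
  have h1 : ∀ x y : ℂ, ((Q F : ℂ) ^ d) ^ (-1 - x - y) = uu F x ^ d * uu F y ^ d := fun x y => by
    rw [br_pow, ← br_mul, mul_pow]
  have h2 : ∀ x : ℂ, ((Q F : ℂ) ^ d) ^ (-2 - 2 * x) =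
      ((Q F : ℂ) ^ d)⁻¹ * (uu F x ^ d) ^ 2 := fun x => by
    rw [_root_.sq, ← h1, ← Complex.cpow_neg_one, ← Complex.cpow_add _ _ hp]
    congr 1
    ring
  have h3 : ((Q F : ℂ) ^ d) ^ (-2 - α - β - γ - δ) =
      uu F α ^ d * uu F β ^ d * (uu F γ ^ d * uu F δ ^ d) := by
    rw [← h1, ← h1, ← Complex.cpow_add _ _ hp]
    congr 1
    ring
  have h4 : ((Q F : ℂ) ^ d) ^ (-3 - 2 * α - 2 * β) =
      ((Q F : ℂ) ^ d)⁻¹ * (uu F α ^ d) ^ 2 * (uu F β ^ d) ^ 2 := by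
    rw [← h2, _root_.sq (uu F β ^ d), ← h1, ← Complex.cpow_add _ _ hp]
    congr 1
    ring
  rw [locA, h2, h2, h3, h4]
  simp only [h1, BP, pw, Matrix.cons_val_zero, Matrix.cons_val_one, Matrix.cons_val, mul_pow,
    Algebra.algebraMap_self, RingHom.id_apply, one_div]
  ring

theorem GG_eq (hF : ringChar F ≠ 2) {ε c : ℝ} (hε : 0 < ε) {α β γ δ : ℂ} (hc : c ≤ 1 / 2)
    (hγ : c ≤ γ.re) (hδ : c ≤ δ.re) (ha : |α.re| + |β.re| + ε ≤ c) :
    Rng F ε c α.re β.re ![uu F α, uu F β, uu F γ, uu F δ] ∧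
      GG F α β γ δ = Gu F ![uu F α, uu F β, uu F γ, uu F δ] := by
  have hR : Rng F ε c α.re β.re ![uu F α, uu F β, uu F γ, uu F δ] :=
    ⟨hc, ha, norm_uu α, norm_uu β, (norm_uu γ).trans_le (qp_mono (by linarith)),
      (norm_uu δ).trans_le (qp_mono (by linarith))⟩
  refine ⟨hR, ?_⟩
  obtain ⟨b, hb, -⟩ := main0 hF hε hR
  have h1 : ∀ x y : ℂ, 0 < x.re + y.re → Q F * ‖uu F x * uu F y‖ < 1 := fun x y h => by
    rw [← Complex.norm_natCast, ← norm_mul, br_Q_mul, br_norm]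
    exact qp_lt_one (by simp; linarith)
  have h2 : ∀ x y : ℂ, 0 < x.re + y.re → 1 - Q F * (uu F x * uu F y) ≠ 0 := fun x y h h0 => by
    have := h1 x y h
    rw [← Complex.norm_natCast, ← norm_mul, ← sub_eq_zero.1 h0, norm_one] at this
    exact lt_irrefl _ this
  have e1 := neg_abs_le α.re
  have e2 := neg_abs_le β.re
  have e3 := abs_nonneg α.re
  have e4 := abs_nonneg β.re
  have z1 : 0 < γ.re + δ.re := by linarith
  have z2 : 0 < α.re + γ.re := by linarith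
  have z3 : 0 < α.re + δ.re := by linarith
  have z4 : 0 < β.re + γ.re := by linarith
  have z5 : 0 < β.re + δ.re := by linarith
  have h3 := (hb.mul (hasProd_zeta (h1 _ _ z1))).div₀
    ((((hasProd_zeta (h1 _ _ z2)).mul (hasProd_zeta (h1 _ _ z3))).mul
      (hasProd_zeta (h1 _ _ z4))).mul (hasProd_zeta (h1 _ _ z5)))
    (mul_ne_zero (mul_ne_zero (mul_ne_zero (h2 _ _ z2) (h2 _ _ z3)) (h2 _ _ z4)) (h2 _ _ z5))
  have h4 : ∀ x y : ℂ, zeta F (1 + x + y) = (1 - Q F * (uu F x * uu F y))⁻¹ := fun x y => by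
    rw [zeta, br_Q_mul]
    congr 3
    ring
  have h5 : ∀ x : ℂ, zeta F (1 + 2 * x) = (1 - Q F * uu F x ^ 2)⁻¹ := fun x => by
    rw [two_mul, ← add_assoc, h4, _root_.sq]
  have h6 : AA4 F α β γ δ = _ := (tprod_congr fun P => locA_eq α β γ δ _).trans h3.tprod_eq
  rw [GG, h6, Gu, hb.tprod_eq]
  simp only [h4, h5, Matrix.cons_val_zero, Matrix.cons_val_one]
  have := h2 _ _ z1
  have := h2 _ _ z2
  have := h2 _ _ z3
  have := h2 _ _ z4
  have := h2 _ _ z5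
  generalize 1 - (Q F : ℂ) * (uu F γ * uu F δ) = x1 at *
  generalize 1 - (Q F : ℂ) * (uu F α * uu F γ) = x2 at *
  generalize 1 - (Q F : ℂ) * (uu F α * uu F δ) = x3 at *
  generalize 1 - (Q F : ℂ) * (uu F β * uu F γ) = x4 at *
  generalize 1 - (Q F : ℂ) * (uu F β * uu F δ) = x5 at *
  field_simp

end Pool.Agent.MP_dd7250_nt

end
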