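import Mathlib
import Pool.Agent.Mg.F43e117.Gf6882d
import Pool.Agent.Mg.F43e117.G191fe6
import Pool.Agent.Mg.F43e117.G0bbc6d
import Pool.Agent.Mg.F43e117.G4aa3e1

section

/- Prime values of `a f ^ 2 + c` over `F[X]`, characteristic two: definitions, basic facts. -/

set_option autoImplicit false

namespace Pool.Agent.MP_f37147_nt

open Polynomial Finset Pool.Agent.MP_4fffd4_nt Pool.Agent.MP_c853c5_nt
open scoped BigOperators

variable {F : Type*} [Field F] [Fintype F]

/-- The phase at infinity. -/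
noncomputable def phi (b : F) (m s : F[X]) : F :=
  SFour.res (C (b⁻¹ ^ 2) * X * derivative s ^ 3) (m ^ 2 * s)

/-- The number of monic `f` of degree `n` with `D ∣ a f ^ 2 + c`. -/
noncomputable def cnt (a c : F[X]) (n : ℕ) (D : F[X]) : ℝ :=
  ∑ f ∈ monF F n, ind (D ∣ a * f ^ 2 + c)

/-- The Moebius sum over divisors of degree `i`. -/
noncomputable def RR (a c : F[X]) (n i : ℕ) : ℝ := ∑ D ∈ monF F i, mu D * cnt a c n D

open Classical in
/-- The monic irreducible divisors. -/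
noncomputable def pf (a : F[X]) : Finset F[X] :=
  (UniqueFactorizationMonoid.normalizedFactors a).toFinset

/-- The singular series. -/
noncomputable def sing (a : F[X]) : ℝ :=
  ∏ P ∈ pf a, (1 - 1 / (Fintype.card F : ℝ) ^ P.natDegree)⁻¹

/-- The Moebius function twisted by a character of the root of `a f ^ 2 + c` modulo `D`. -/
noncomputable def md (e : F → ℝ) (a c h : F[X]) (i : ℕ) (D : F[X]) : ℝ :=
  mu D * ∑ f ∈ ltF F i, ind (D ∣ a * f ^ 2 + c) * e (SFour.res (h * f) D)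

/-- The number of monic `f` of degree `n` with `a f ^ 2 + c` irreducible. -/
noncomputable def npr (a c : F[X]) (n : ℕ) : ℝ :=
  ∑ f ∈ monF F n, ind (Irreducible (a * f ^ 2 + c))

/-- The shifted Euler operator on power series. -/
noncomputable def eul (κ : F) (x : PowerSeries F) : PowerSeries F :=
  PowerSeries.C κ * x + PowerSeries.X * PowerSeries.derivative F x

/-- The phase at infinity as a power series. -/
noncomputable def psi (κ : F) (x : PowerSeries F) : PowerSeries F := eul κ x ^ 3 * x⁻¹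

/-- The coefficient of `1 / X` in `a / b`, over a commutative ring. -/
noncomputable def resR {R : Type*} [CommRing R] (a b : R[X]) : R :=
  (a %ₘ b).coeff (b.natDegree - 1)

variable (F) in
/-- The asymptotic formula, uniformly in `a` and `c`. -/
def CoreSt (C n₀ : ℕ) : Prop :=
  ∀ n, n₀ ≤ n → ∀ a c : F[X], a.Monic → IsCoprime a c → derivative (a * c) ≠ 0 →
    a.natDegree ≤ n / C → c.natDegree ≤ n / C →
    |(2 * n + a.natDegree) * npr a c n - (Fintype.card F : ℝ) ^ n * sing a| ≤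
      (Fintype.card F : ℝ) ^ n / (Fintype.card F : ℝ) ^ (n / C)

open Classical in
/-- The set to be sifted. -/
noncomputable def om (a c d x₀ : F[X]) (n : ℕ) : Finset F[X] :=
  (monF F n).filter fun P => d ∣ P - x₀ ∧ ∃ Q, Irreducible Q ∧ a * P ^ 2 + c = d * Q

open Classical in
/-- The local density. -/
noncomputable def gl (a R : F[X]) : ℝ :=
  if R ∣ a then 1 / (Fintype.card F : ℝ) ^ R.natDegree
  else 1 / ((Fintype.card F : ℝ) ^ R.natDegree - 1)

omit [Fintype F] in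
theorem resR_eq (a b : F[X]) : resR a b = SFour.res a b := rfl

omit [Fintype F] in
theorem mem_pf {a P : F[X]} (ha : a ≠ 0) : P ∈ pf a ↔ P.Monic ∧ Irreducible P ∧ P ∣ a := by
  classical
  unfold pf
  rw [Multiset.mem_toFinset]
  convert Polynomial.mem_normalizedFactors_iff ha using 1
  tauto

theorem one_le_sing {a : F[X]} (ha : a ≠ 0) : 1 ≤ sing a := by
  refine Finset.one_le_prod fun P hP => ?_
  have h1 := ((mem_pf ha).1 hP).2.1.natDegree_pos
  have h2 : (2 : ℝ) ≤ (Fintype.card F : ℝ) ^ P.natDegree :=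
    two_le_card.trans (le_self_pow₀ (one_le_two.trans two_le_card) h1.ne')
  have h3 : 1 / (Fintype.card F : ℝ) ^ P.natDegree ≤ 1 / 2 :=
    one_div_le_one_div_of_le two_pos h2
  have h4 : 0 < 1 / (Fintype.card F : ℝ) ^ P.natDegree := by positivity
  exact (one_le_inv₀ (by linarith)).2 (by linarith)

variable [CharP F 2]

theorem chr_unique {e e' : F → ℝ} (he : Chr e) (he' : Chr e') : e = e' := by
  classical
  have h2 : (2 : F) = 0 := by exact_mod_cast CharP.cast_eq_zero F 2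
  let W : F →+ F := { toFun := fun c => c ^ 2 + c
                      map_zero' := by simp
                      map_add' := fun a b => by rw [CharTwo.add_sq]; ring }
  have hker : ∀ {g : F → ℝ}, Chr g → ∀ c, g (c ^ 2 + c) = 1 := fun hg c => by
    rw [hg.add, hg.sq, hg.toSgn.mul_self]
  have hcard : ∀ {g : F → ℝ}, Chr g → 2 * (univ.filter fun c => g c = 1).card = Fintype.card F := by
    intro g hg
    obtain ⟨ν, hν⟩ := hg.neg
    have h1 : (univ.filter fun c => g c = 1).card = (univ.filter fun c => ¬ g c = 1).card := by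
      refine Finset.card_bij (fun c _ => c + ν) (fun c hc => ?_) (fun a _ b _ h => by simpa using h)
        fun c hc => ⟨c + ν, ?_, by linear_combination ν * h2⟩
      · simp only [mem_filter, mem_univ, true_and] at hc ⊢
        rw [hg.add, hc, hν]; norm_num
      · simp only [mem_filter, mem_univ, true_and] at hc ⊢
        rw [hg.add, (hg.sign c).resolve_left hc, hν]; norm_num
    have := Finset.card_filter_add_card_filter_not (s := (univ : Finset F)) (fun c => g c = 1)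
    rw [card_univ] at this
    omega
  have him : Fintype.card F ≤ 2 * (univ.image fun c : F => c ^ 2 + c).card := by
    rw [← card_univ]
    refine Finset.card_le_mul_card_image _ 2 fun y hy => ?_
    obtain ⟨c, -, rfl⟩ := mem_image.1 hy
    refine (Finset.card_le_card (t := {c, c + 1}) fun x hx => ?_).trans Finset.card_le_two
    have h1 : (x - c) * (x - (c + 1)) = 0 := by
      linear_combination (mem_filter.1 hx).2 + (c ^ 2 + c - x * c - x) * h2
    rcases mul_eq_zero.1 h1 with h | h <;> simp [sub_eq_zero.1 h]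
  have heq : ∀ {g : F → ℝ}, Chr g →
      (univ.image fun c : F => c ^ 2 + c) = univ.filter fun c => g c = 1 := fun hg =>
    Finset.eq_of_subset_of_card_le (fun y hy => by
      obtain ⟨c, -, rfl⟩ := mem_image.1 hy
      simpa using hker hg c) (by have := hcard hg; omega)
  funext c
  have h1 : e c = 1 ↔ e' c = 1 := by
    have := Finset.ext_iff.1 ((heq he).symm.trans (heq he')) c
    simpa using this
  rcases he.sign c with h | h
  · rw [h, h1.1 h]
  · rcases he'.sign c with h' | h'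
    · rw [h1.2 h'] at h; norm_num at h
    · rw [h, h']

theorem chr_of_isChar {K : Type*} [Field K] [Algebra F K] [CharP K 2] [IsAlgClosed K] {ε : K → ℝ}
    (hε : IsChar F ε) {e : F → ℝ} (he : Chr e) (c : F) : e c = ε (algebraMap F K c) := by
  have h : Chr fun c => ε (algebraMap F K c) :=
    ⟨⟨fun a b => by rw [map_add, hε.add], fun _ => hε.sign _⟩, hε.sq_algebraMap, hε.exists_neg⟩
  rw [chr_unique he h]

omit [Fintype F] [CharP F 2] in
theorem coprime_of_sol {a c D f : F[X]} (hac : IsCoprime a c) (h : D ∣ a * f ^ 2 + c) :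
    IsCoprime D a := by
  obtain ⟨u, v, huv⟩ := hac
  obtain ⟨z, hz⟩ := h
  exact ⟨v * z, u - v * f ^ 2, by linear_combination huv - v * hz⟩

omit [Fintype F] in
theorem sol_unique {a c D f g : F[X]} (hD : Squarefree D) (hDa : IsCoprime D a)
    (hf : D ∣ a * f ^ 2 + c) (hg : D ∣ a * g ^ 2 + c) : D ∣ f - g := by
  have h2 : (2 : F[X]) = 0 := by exact_mod_cast CharP.cast_eq_zero F[X] 2
  have h1 : D ∣ a * (f - g) ^ 2 := by
    have := dvd_sub hf hg
    rwa [show a * f ^ 2 + c - (a * g ^ 2 + c) = a * (f - g) ^ 2 by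
      linear_combination (a * f * g - a * g ^ 2) * h2] at this
  exact (hD.dvd_pow_iff_dvd two_ne_zero).1 (hDa.dvd_of_dvd_mul_left h1)

theorem sol_exists {a D : F[X]} (c : F[X]) (hD : Squarefree D) (hDa : IsCoprime D a) :
    ∃ f, D ∣ a * f ^ 2 + c := by
  have h2 : (2 : F[X]) = 0 := by exact_mod_cast CharP.cast_eq_zero F[X] 2
  obtain ⟨σ, hσ⟩ := exists_od D
  have hs : IsCoprime D (od D) := by
    have : IsCoprime D (derivative D) := PerfectField.separable_iff_squarefree.2 hD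
    rw [← od_sq] at this
    exact (IsCoprime.pow_right_iff two_pos).1 this
  obtain ⟨κ, hκ⟩ := exists_od (a * c)
  obtain ⟨u, v, huv⟩ := hs.mul_right hDa
  refine ⟨v * (σ * od (a * c) + κ * od D), ?_⟩
  refine (hDa.mul_right (hs.pow_right (n := 2))).dvd_of_dvd_mul_left ?_
  set m := od (a * c)
  set w := od D
  refine ⟨(u ^ 2 * D) * (σ * m + κ * w) ^ 2 + m ^ 2, ?_⟩
  have e1 : (v * (w * a)) ^ 2 = 1 + (u * D) ^ 2 := by
    rw [show v * (w * a) = 1 + u * D by linear_combination huv - u * D * h2, CharTwo.add_sq,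
      one_pow]
  linear_combination (σ * m + κ * w) ^ 2 * e1 + w ^ 2 * hκ - m ^ 2 * hσ +
    (σ * m * κ * w + κ ^ 2 * w ^ 2) * h2

theorem sum_sol_le {a c D : F[X]} (hac : IsCoprime a c) (hD : Squarefree D) {i : ℕ}
    (hi : D.natDegree = i) : ∑ f ∈ ltF F i, ind (D ∣ a * f ^ 2 + c) ≤ 1 := by
  by_cases h : ∃ f ∈ ltF F i, D ∣ a * f ^ 2 + c
  · obtain ⟨f, hf, h⟩ := h
    rw [Finset.sum_eq_single_of_mem f hf fun g hg hne => ind_neg fun h' => hne ?_]
    · exact ind_le_one _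
    · refine sub_eq_zero.1 (eq_zero_of_dvd_of_degree_lt
        (sol_unique hD (coprime_of_sol hac h) h' h) ?_)
      rw [degree_eq_natDegree hD.ne_zero, hi]
      exact (degree_sub_le _ _).trans_lt (max_lt (mem_ltF.1 hg) (mem_ltF.1 hf))
  · push Not at h
    rw [Finset.sum_eq_zero fun f hf => ind_neg (h f hf)]
    exact zero_le_one

theorem abs_md_le {e : F → ℝ} (he : Chr e) {a c D : F[X]} (hac : IsCoprime a c) (h : F[X]) {i : ℕ}
    (hi : D.natDegree = i) : |md e a c h i D| ≤ 1 := by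
  by_cases hD : Squarefree D
  · rw [md, abs_mul]
    refine mul_le_one₀ (abs_mu_le _) (abs_nonneg _) ((Finset.abs_sum_le_sum_abs _ _).trans
      (le_trans (le_of_eq (Finset.sum_congr rfl fun f _ => ?_)) (sum_sol_le hac hD hi)))
    rw [abs_mul, he.toSgn.abs_eq, mul_one, abs_of_nonneg (ind_nonneg _)]
  · simp [md, mu, hD]

theorem derivative_ne_zero_iff {g : F[X]} : derivative g ≠ 0 ↔ ¬ IsSquare g := by
  refine not_congr ⟨fun h => ?_, fun ⟨r, hr⟩ => ?_⟩
  · obtain ⟨σ, hσ⟩ := exists_od g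
    rw [od_sq, h, mul_zero, add_zero] at hσ
    exact ⟨σ, by rw [hσ, sq]⟩
  · rw [← od_sq, hr, ← sq, od_of_sq, zero_pow two_ne_zero]

end Pool.Agent.MP_f37147_nt

end

section

/- Cancellation along a line, twisted by a character of an inverse. -/

set_option autoImplicit false

namespace Pool.Agent.MP_f37147_nt

open Polynomial Finset Pool.Agent.MP_4fffd4_nt Pool.Agent.MP_c853c5_nt
open scoped BigOperators

namespace QKey

section Field

variable {k : Type*} [Field k] [Fintype k] [CharP k 2] {ψ : k → ℝ}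
  (hadd : ∀ a b, ψ (a + b) = ψ a * ψ b)
  (hle : ∀ a, |ψ a| ≤ 1) (hsq : ∀ a, ψ (a ^ 2) = ψ a) (hν : ∃ ν, ψ ν = -1)

include hadd hle hsq hν in
theorem local_bound2 {V H W ι I : Type*} [AddCommGroup V] [Fintype V] [AddCommGroup H] [Fintype H]
    [AddCommGroup W] [Fintype W] [Fintype ι] [DecidableEq ι] (Θ Θ' : V →+ k)
    (hΘ : Function.Surjective Θ) (θ : ι → H →+ V)
    (hθ : ∀ j, Function.Surjective (Θ.comp (θ j))) (ϑ : W →+ V) (hϑ : ∀ r, Θ (ϑ r) = 0)
    (hϑ' : Function.Surjective (Θ'.comp ϑ)) (T : Finset I) (g κ : I → k → k) (a b c : I → k)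
    (ha : ∀ i ∈ T, a i ≠ 0) {i₀ : I} (hi₀ : i₀ ∈ T) (hb : b i₀ ≠ 0) {z₀ : k}
    (h₀ : a i₀ * z₀ + c i₀ = 0) (h₁ : ∀ i ∈ T, i ≠ i₀ → a i * z₀ + c i ≠ 0) {η : ℝ} (hη : 0 ≤ η)
    (hη' : 4 / Fintype.card k ≤ η ^ 2) :
    𝔼 y : ι → H, |𝔼 x, ψ (cube univ (fun j => θ j (y j)) (fun x => ∑ i ∈ T,
      ((g i (Θ x) + a i ^ 2 * Θ' x ^ 2) ^ 3 / (b i * (a i * Θ x + c i) ^ 2) + κ i (Θ x))) x)| ≤
      4 * (2 ^ Fintype.card ι * T.card) / Fintype.card k + η := by
  classical
  set J : Finset (Finset ι × I) := (univ : Finset ι).powerset ×ˢ T with hJ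
  have hJc : (J.card : ℝ) = 2 ^ Fintype.card ι * T.card := by
    rw [hJ, card_product, card_powerset, card_univ]; push_cast; rfl
  have key : ∀ h : ι → V, |𝔼 x, ψ (cube univ h (fun x => ∑ i ∈ T,
      ((g i (Θ x) + a i ^ 2 * Θ' x ^ 2) ^ 3 / (b i * (a i * Θ x + c i) ^ 2) + κ i (Θ x))) x)| ≤
      ∑ j ∈ J, ind (j.1 ≠ ∅ ∧ a j.2 * (z₀ + Θ (∑ l ∈ j.1, h l)) + c j.2 = 0) +
        (3 * J.card / Fintype.card k + η) := by
    intro h
    by_cases hbad : ∃ j ∈ J, j.1 ≠ ∅ ∧ a j.2 * (z₀ + Θ (∑ l ∈ j.1, h l)) + c j.2 = 0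
    · refine le_trans ?_ (add_le_add ((ind_pos trivial).symm.le.trans (ind_le_sum fun _ => hbad))
        (show 0 ≤ _ by positivity))
      rw [add_zero]
      exact (Finset.abs_expect_le _ _).trans (Finset.expect_le univ_nonempty fun Y _ => hle _)
    refine le_trans ?_ (le_add_of_nonneg_left (Finset.sum_nonneg fun _ _ => ind_nonneg _))
    rw [expect_avg _ ϑ]
    refine (Finset.abs_expect_le _ _).trans ?_
    have hpole := expect_pole_le J (fun j => a j.2 ^ 6 / b j.2) (fun j => a j.2)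
      (fun j => a j.2 * Θ (∑ l ∈ j.1, h l) + c j.2) (fun j hj => ha _ (mem_product.1 hj).2)
      (j₀ := (∅, i₀)) (by simp [hJ, hi₀]) (div_ne_zero (pow_ne_zero _ (ha _ hi₀)) hb) (z₀ := z₀)
      (by simpa using h₀) (by
        rintro ⟨ω, i⟩ hj hne h0
        by_cases hω : ω = ∅
        · subst hω
          refine h₁ i (mem_product.1 hj).2 (fun e => hne (by rw [e])) (by simpa using h0)
        · exact hbad ⟨(ω, i), hj, hω, by linear_combination h0⟩)
    rw [← expect_surj Θ hΘ] at hpole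
    refine le_trans (Finset.expect_le_expect (g := fun x => ind (∑ j ∈ J, a j.2 ^ 6 / b j.2 /
      (a j.2 * Θ x + (a j.2 * Θ (∑ l ∈ j.1, h l) + c j.2)) ^ 2 = 0) + η) fun x _ => ?_) (by
      rw [Finset.expect_add_distrib, Fintype.expect_const]
      gcongr)
    by_cases hz : ∑ j ∈ J, a j.2 ^ 6 / b j.2 /
      (a j.2 * Θ x + (a j.2 * Θ (∑ l ∈ j.1, h l) + c j.2)) ^ 2 = 0
    · rw [ind_pos hz]
      refine le_trans ?_ (le_add_of_nonneg_right hη)
      exact (Finset.abs_expect_le _ _).trans (Finset.expect_le univ_nonempty fun Y _ => hle _)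
    rw [ind_neg hz, zero_add]
    set G : Finset ι × I → k := fun j => g j.2 (Θ (x + ∑ l ∈ j.1, h l)) +
      a j.2 ^ 2 * Θ' (x + ∑ l ∈ j.1, h l) ^ 2 with hG
    set D : Finset ι × I → k := fun j =>
      b j.2 * (a j.2 * Θ x + (a j.2 * Θ (∑ l ∈ j.1, h l) + c j.2)) ^ 2 with hD
    refine le_trans (le_of_eq ?_) (expect_cubic_le hadd hle hsq hν hz
      (∑ j ∈ J, 3 * G j * a j.2 ^ 4 / D j) (∑ j ∈ J, 3 * G j ^ 2 * a j.2 ^ 2 / D j)
      (∑ j ∈ J, (G j ^ 3 / D j + κ j.2 (Θ (x + ∑ l ∈ j.1, h l)))) hη hη')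
    rw [← expect_surj _ hϑ']
    congr 1
    refine Finset.expect_congr rfl fun r _ => ?_
    congr 1
    simp only [cube, Finset.sum_mul, ← Finset.sum_add_distrib]
    rw [hJ, Finset.sum_product]
    refine Finset.sum_congr rfl fun ω _ => Finset.sum_congr rfl fun i _ => ?_
    have e1 : Θ (x + ϑ r + ∑ l ∈ ω, h l) = Θ (x + ∑ l ∈ ω, h l) := by
      rw [add_right_comm, map_add, hϑ, add_zero]
    have e2 : Θ' (x + ϑ r + ∑ l ∈ ω, h l) ^ 2 = Θ' (x + ∑ l ∈ ω, h l) ^ 2 + Θ' (ϑ r) ^ 2 := by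
      rw [add_right_comm, map_add, CharTwo.add_sq]
    rw [e1, e2]
    simp only [hG, hD, AddMonoidHom.comp_apply, div_div]
    rw [map_add Θ x]
    ring
  refine (Finset.expect_le_expect fun y _ => key _).trans ?_
  rw [Finset.expect_add_distrib, Fintype.expect_const, Finset.expect_sum_comm, ← hJc]
  have : ∀ j ∈ J, 𝔼 y : ι → H, ind (j.1 ≠ ∅ ∧ a j.2 * (z₀ + Θ (∑ l ∈ j.1, θ l (y l))) +
      c j.2 = 0) ≤ 1 / Fintype.card k := by
    rintro ⟨ω, i⟩ hj
    by_cases hω : ω = ∅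
    · simp only [hω, ne_eq, not_true, false_and, ind_neg, not_false_iff, expect_const_zero]
      positivity
    obtain ⟨l₀, hl₀⟩ := Finset.nonempty_iff_ne_empty.2 hω
    have hs : Function.Surjective (∑ l ∈ ω, (Θ.comp (θ l)).comp (Pi.evalAddMonoidHom _ l) :
        (ι → H) →+ k) := by
      intro z
      obtain ⟨u, hu⟩ := hθ l₀ z
      refine ⟨Pi.single l₀ u, ?_⟩
      rw [AddMonoidHom.finsetSum_apply, Finset.sum_eq_single_of_mem l₀ hl₀]
      · simpa using hu
      · intro l _ hl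
        simp [Pi.single_eq_of_ne hl]
    have := expect_surj _ hs fun z => ind (ω ≠ ∅ ∧ a i * (z₀ + z) + c i = 0)
    simp only [AddMonoidHom.finsetSum_apply, AddMonoidHom.comp_apply,
      Pi.evalAddMonoidHom_apply, ← map_sum] at this
    rw [this]
    refine (expect_ind_le {-c i / a i - z₀} fun z hz => ?_).trans (by simp)
    have hai := ha i (mem_product.1 hj).2
    rw [mem_singleton]
    field_simp
    linear_combination hz.2
  refine (add_le_add (Finset.sum_le_card_nsmul _ _ _ this) le_rfl).trans_eq ?_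
  rw [nsmul_eq_mul]
  ring

end Field

variable {F : Type*} [Field F] [Fintype F] {K : Type*} [Field K] [Algebra F K] [IsAlgClosed K]

theorem res_eq_sum {v : F[X]} (hv : v.Monic) (hsep : v.Separable) (g : F[X]) :
    algebraMap F K (SFour.res g v) = ∑ z ∈ rts K v, aeval z g / aeval z (derivative v) := by
  classical
  obtain ⟨t, ht, hvt⟩ := exists_roots (K := K) hv hsep rfl
  have h1 := Lagrange.coeff_eq_sum (s := univ) (v := t) ht.injOn
    (P := (g %ₘ v).map (algebraMap F K)) (by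
      rw [degree_map, card_univ, Fintype.card_fin, ← degree_eq_natDegree hv.ne_zero]
      exact degree_modByMonic_lt g hv)
  rw [card_univ, Fintype.card_fin, coeff_map] at h1
  rw [← sum_rts hv.ne_zero t ht hvt, SFour.res, h1]
  refine Finset.sum_congr rfl fun i _ => ?_
  have h0 : aeval (t i) v = 0 := by
    rw [← eval_map_algebraMap, hvt, eval_prod]
    exact Finset.prod_eq_zero (mem_univ i) (by simp)
  congr 1
  · rw [eval_map_algebraMap, aeval_modByMonic_eq_self_of_root h0]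
  · rw [← eval_map_algebraMap, ← derivative_map, hvt, ← Lagrange.nodal_eq,
      Lagrange.eval_nodal_derivative_eval_node_eq (mem_univ i), Lagrange.eval_nodal]

theorem sum_rts_eq_trace2 {P : F[X]} [Fact (Irreducible P)] (s w a b : F[X]) :
    ∑ z ∈ rts K P, (ph s w z + aeval z a / aeval z b) =
      algebraMap F K (Algebra.trace F (AdjoinRoot P) (ph s w (AdjoinRoot.root P) +
        aeval (AdjoinRoot.root P) a / aeval (AdjoinRoot.root P) b)) := by
  have hP : Irreducible P := Fact.out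
  have : FiniteDimensional F (AdjoinRoot P) := (AdjoinRoot.powerBasis hP.ne_zero).finite
  rw [trace_eq_sum_embeddings K]
  symm
  refine Finset.sum_bij (fun σ _ => σ (AdjoinRoot.root P)) (fun σ _ => ?_)
    (fun _ _ _ _ h => AdjoinRoot.algHom_ext h) (fun z hz => ?_) fun σ _ => ?_
  · rw [mem_rts hP.ne_zero, aeval_algHom_apply, AdjoinRoot.aeval_eq, AdjoinRoot.mk_self, map_zero]
  · exact ⟨AdjoinRoot.liftAlgHom P (Algebra.ofId F K) z ((mem_rts hP.ne_zero).1 hz), mem_univ _,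
      AdjoinRoot.liftAlgHom_root _ _ _ _⟩
  · rw [map_add, map_ph, map_div₀, aeval_algHom_apply, aeval_algHom_apply]

theorem cube_add {V M ι : Type*} [AddCommGroup V] [AddCommMonoid M] (s : Finset ι) (h : ι → V)
    (φ φ' : V → M) (x : V) :
    cube s h (fun x => φ x + φ' x) x = cube s h φ x + cube s h φ' x :=
  Finset.sum_add_distrib

variable [CharP F 2] [CharP K 2] {e : K → ℝ} (he : IsChar F e)

include he in
theorem phase2 {J : Type*} [Fintype J] (α σ w v Γ γ δ : F[X])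
    (hv : v ≠ 0) {P : F[X]} (hP : P.Monic) (hPi : Irreducible P)
    (hi₀ : P ∣ v) (hw : ¬ P ∣ derivative w) (hα : ¬ P ∣ α) (Q : J → F[X])
    (hQ : ∀ j, ¬ P ∣ Q j) {ρ n : ℕ} (hQn : ∀ j, (Q j).natDegree + ρ ≤ n)
    (hρ : P.natDegree ≤ ρ) (hn : P.natDegree + ρ ≤ n)
    (hcov : ∀ t : K, aeval t v = 0 → aeval t P ≠ 0 → ∃ j, aeval t (Q j) = 0)
    {η : ℝ} (hη : 0 ≤ η) (hη' : 4 / (Fintype.card F : ℝ) ^ P.natDegree ≤ η ^ 2) :
    |𝔼 x : degreeLT F n, e (∑ z ∈ rts K v,
      (ph (α * x.1 + σ) w z + aeval z Γ / aeval z (γ * x.1 + δ)))| ^ 2 ^ (Fintype.card J * 3) ≤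
      4 * 2 ^ (Fintype.card J * 3) / (Fintype.card F : ℝ) ^ P.natDegree + η := by
  classical
  have : Fact (Irreducible P) := ⟨hPi⟩
  have : FiniteDimensional F (AdjoinRoot P) := (AdjoinRoot.powerBasis hP.ne_zero).finite
  have : Finite (AdjoinRoot P) := Module.finite_of_finite F
  let : Fintype (AdjoinRoot P) := Fintype.ofFinite _
  have : CharP (AdjoinRoot P) 2 :=
    charP_of_injective_algebraMap (algebraMap F (AdjoinRoot P)).injective 2
  have hcard : (Fintype.card F : ℝ) ^ P.natDegree ≤ Fintype.card (AdjoinRoot P) := by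
    rw [Module.card_eq_pow_finrank (K := F) (V := AdjoinRoot P),
      (AdjoinRoot.powerBasis hP.ne_zero).finrank,
      AdjoinRoot.powerBasis_dim]
    exact_mod_cast le_rfl
  have hq := card_pos' (F := F)
  set τ := AdjoinRoot.root P with hτ
  have hev : ∀ g : F[X], aeval τ g = 0 ↔ P ∣ g := fun g => by
    rw [hτ, AdjoinRoot.aeval_eq, AdjoinRoot.mk_eq_zero]
  set θ : J × Fin 3 → degreeLT F ρ →+ degreeLT F n := fun j => mulLT (Q j.1) (hQn j.1) with hθ
  set ψ : AdjoinRoot P → ℝ := fun z => e (algebraMap F K (Algebra.trace F (AdjoinRoot P) z))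
    with hψ
  have h1 := vdc e he.add θ (fun x : degreeLT F n => ∑ z ∈ rts K v,
    (ph (α * x.1 + σ) w z + aeval z Γ / aeval z (γ * x.1 + δ))) univ
  rw [card_univ, Fintype.card_prod, Fintype.card_fin] at h1
  have hα₀ : aeval τ α ≠ 0 := fun h => hα ((hev _).1 h)
  have h2 := local_bound2 (ψ := ψ) (fun a b => by simp only [hψ, map_add, he.add])
    (fun a => he.abs_le _)
    (fun a => by
      simp only [hψ]
      rw [← he.sq_algebraMap (Algebra.trace F _ a), map_pow (algebraMap F K),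
        trace_eq_sum_embeddings K, trace_eq_sum_embeddings K, CharTwo.sum_sq]
      simp only [map_pow])
    (by
      obtain ⟨ν, hν⟩ := he.exists_neg
      obtain ⟨z, rfl⟩ := Algebra.trace_surjective F (AdjoinRoot P) ν
      exact ⟨z, hν⟩)
    (evLT n τ) (dvLT n τ)
    (fun z => by
      obtain ⟨y, hy⟩ := exists_rep hP (ρ := n) (by omega) one_ne_zero z
      exact ⟨y, by rw [evLT_apply, ← hy, one_mul]⟩)
    θ (fun j z => by
      obtain ⟨y, hy⟩ := exists_rep hP hρ (c := aeval τ (Q j.1)) (fun h => hQ _ ((hev _).1 h)) z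
      exact ⟨y, by rw [AddMonoidHom.comp_apply, evLT_apply, hθ, mulLT_apply, map_mul, hy]⟩)
    (mulLT P hn) (fun r => by rw [evLT_apply, mulLT_apply, hev]; exact dvd_mul_right _ _)
    (fun z => by
      obtain ⟨y, hy⟩ := exists_rep hP hρ (c := aeval τ (derivative P)) (fun h => hPi.not_isUnit
        (IsCoprime.isUnit_of_dvd (PerfectField.separable_of_irreducible hPi) ((hev _).1 h))) z
      refine ⟨y, ?_⟩
      rw [AddMonoidHom.comp_apply, dvLT_apply, mulLT_apply, derivative_mul, map_add, map_mul,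
        map_mul, (hev P).2 dvd_rfl, zero_mul, add_zero, hy])
    (univ : Finset Unit) (fun _ z => (aeval τ (derivative α) * z + aeval τ (derivative σ)) ^ 2 +
      τ * aeval τ (derivative w) ^ 2) (fun _ z => aeval τ Γ / (aeval τ γ * z + aeval τ δ))
    (fun _ => aeval τ α) (fun _ => aeval τ (derivative w) ^ 4) (fun _ => aeval τ σ)
    (fun _ _ => hα₀) (i₀ := ()) (mem_univ _)
    (pow_ne_zero _ fun h => hw ((hev _).1 h)) (z₀ := -aeval τ σ / aeval τ α)
    (by field_simp; ring) (fun i _ hne => absurd rfl hne) hη (le_trans (by gcongr) hη')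
  refine h1.trans (le_trans (le_of_eq ?_) (h2.trans ?_))
  · refine Finset.expect_congr rfl fun y _ => ?_
    congr 1
    refine Finset.expect_congr rfl fun x _ => ?_
    simp only [hψ]
    congr 1
    have e1 : ∀ (s : Finset (J × Fin 3)) (φ : K → degreeLT F n → K),
        cube s (fun j => θ j (y j)) (fun x => ∑ z ∈ rts K v, φ z x) x =
        ∑ z ∈ rts K v, cube s (fun j => θ j (y j)) (φ z) x := by
      intro s φ
      unfold cube
      rw [Finset.sum_comm]
    rw [e1 univ fun z x => ph (α * x.1 + σ) w z + aeval z Γ / aeval z (γ * x.1 + δ)]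
    have kill : ∀ z ∈ rts K v, aeval z P ≠ 0 → cube univ (fun j => θ j (y j))
        (fun x : degreeLT F n => ph (α * x.1 + σ) w z + aeval z Γ / aeval z (γ * x.1 + δ)) x =
        0 := by
      intro z hz hzP
      obtain ⟨j, hj⟩ := hcov z ((mem_rts hv).1 hz) hzP
      have hz0 : ∀ l, evLT n z (θ (j, l) (y (j, l))) = 0 := fun l => by
        rw [evLT_apply, hθ, mulLT_apply, map_mul, hj, zero_mul]
      rw [cube_add, cube_eq_zero (subset_univ {(j, 0), (j, 1), (j, 2)}) _ _ (fun x => ?_) x,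
        cube_eq_zero (subset_univ {(j, 0)}) _ _ (fun x => ?_) x, add_zero]
      · have h0 : aeval z (θ (j, 0) (y (j, 0))).1 = 0 := hz0 0
        rw [← insert_empty_eq, cube_insert (notMem_empty _), cube_empty, cube_empty]
        simp only [Submodule.coe_add, map_add, map_mul, h0, add_zero]
        exact CharTwo.add_self_eq_zero _
      · simp only [ph_eq]
        exact cube_three (evLT n z) (dvLT n z) (fun j => θ j (y j)) (i := (j, 0)) (j := (j, 1))
          (l := (j, 2)) (by simp) (by simp) (by simp) (hz0 0) (hz0 1)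
          (hz0 2) (fun a => (aeval z (derivative α) * a + aeval z (derivative σ)) ^ 2 +
            z * aeval z (derivative w) ^ 2)
          (fun a => aeval z (derivative w) ^ 4 * (aeval z α * a + aeval z σ) ^ 2) _ x
    rw [← Finset.sum_subset (s₁ := rts K P) (fun z hz => ?_) fun z hz hz' =>
      kill z hz fun h0 => hz' ((mem_rts hP.ne_zero).2 h0)]
    · unfold cube
      rw [Finset.sum_comm, map_sum, map_sum]
      refine Finset.sum_congr rfl fun ω _ => ?_
      beta_reduce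
      rw [sum_rts_eq_trace2, ph_eq, Fintype.sum_unique, map_add (aeval _), map_mul (aeval _)]
      rfl
    · obtain ⟨c, hc⟩ := hi₀
      rw [mem_rts hv, hc, map_mul, (mem_rts hP.ne_zero).1 hz, zero_mul]
  · rw [Fintype.card_prod, Fintype.card_fin, card_univ, Fintype.card_unit, Nat.cast_one, mul_one]
    gcongr

end QKey

variable {F : Type*} [Field F] [Fintype F] [CharP F 2]

theorem key_tw2 {e : F → ℝ} (he : Chr e) {J : Type*} [Fintype J] [Nonempty J] {α σ u v Γ : F[X]}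
    (hu : u.Monic) (hv : v.Monic) (hsep : v.Separable) (huv : IsCoprime u v)
    (huα : u ^ 2 ∣ α) {P : F[X]} (hP : P.Monic) (hPi : Irreducible P)
    (hi₀ : P ∣ v) (hα : ¬ P ∣ α) (Q : J → F[X])
    (hQ : ∀ j, ¬ P ∣ Q j) {ρ n : ℕ} (hQn : ∀ j, (Q j).natDegree + ρ ≤ n)
    (hρ : P.natDegree ≤ ρ) (hn : P.natDegree + ρ ≤ n)
    (hcov : ∀ R, Irreducible R → R ∣ v → R ∣ P ∨ ∃ j, R ∣ Q j)
    (hd : ∀ x : degreeLT F n, (α * x.1 + σ).natDegree ≤ (u * v).natDegree)
    {η B : ℝ} (hη : 0 ≤ η) (hη' : 4 / (Fintype.card F : ℝ) ^ P.natDegree ≤ η ^ 2) (hB : 0 ≤ B)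
    (hB' : 4 * 2 ^ (Fintype.card J * 3) / (Fintype.card F : ℝ) ^ P.natDegree + η ≤
      B ^ 2 ^ (Fintype.card J * 3)) (Z : degreeLT F n → F[X])
    (hZ : ∀ x : degreeLT F n, IsCoprime (α * x.1 + σ) v → v ∣ (α * x.1 + σ) * Z x - Γ) :
    |𝔼 x : degreeLT F n, (liou ((α * x.1 + σ) ^ 2 + X * (u * v) ^ 2) : ℝ) *
        e (SFour.res (Z x) v)| ≤
      2 * 𝔼 x : degreeLT F n, ind (¬ IsCoprime (α * x.1 + σ) v) + B := by
  obtain ⟨ε, hε⟩ := exists_isChar F (AlgebraicClosure F)
  obtain ⟨δ, α', σ', u', h₁, h₂, h₃, h₄⟩ := cmp_three hε (σ := σ) hu hv hsep huv huα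
  have h5 := QKey.phase2 hε α' σ' (u' * v) v Γ (derivative v * α) (derivative v * σ)
    hv.ne_zero hP hPi hi₀
    (fun h => by
      rw [derivative_mul, dvd_add_right (hi₀.mul_left _)] at h
      rcases hPi.prime.dvd_or_dvd h with h | h
      · exact hPi.not_isUnit (huv.isUnit_of_dvd' (h₃ ▸ h.mul_left _) hi₀)
      · exact hPi.not_isUnit (IsCoprime.isUnit_of_dvd' hsep hi₀ h))
    (fun h => hα (h₁ ▸ h.mul_left _)) Q hQ hQn hρ hn
    (fun t ht htP => by
      have hint : IsIntegral F t := ⟨v, hv, ht⟩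
      rcases hcov _ (minpoly.irreducible hint) (minpoly.dvd F t ht) with h | ⟨j, h⟩
      · exact absurd (minpoly.dvd_iff.1 h) htP
      · exact ⟨j, minpoly.dvd_iff.1 h⟩)
    hη hη'
  have h6 : ∀ x : degreeLT F n, IsCoprime (α * x.1 + σ) v → e (SFour.res (Z x) v) =
      ε (∑ z ∈ rts _ v, aeval z Γ / aeval z (derivative v * α * x.1 + derivative v * σ)) := by
    intro x hx
    rw [chr_of_isChar hε he, QKey.res_eq_sum hv hsep]
    congr 1
    refine Finset.sum_congr rfl fun z hz => ?_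
    have h0 := (mem_rts hv.ne_zero).1 hz
    obtain ⟨c, hc⟩ := hZ x hx
    have h7 := congrArg (aeval z) hc
    rw [map_mul _ v, h0, zero_mul, map_sub, map_mul, sub_eq_zero] at h7
    have h8 : aeval z (α * x.1 + σ) ≠ 0 := fun h => by
      obtain ⟨a, b, hab⟩ := hx
      have := congrArg (aeval z) hab
      rw [map_add, map_mul, map_mul, h, h0, map_one, mul_zero, mul_zero, add_zero] at this
      exact zero_ne_one this
    rw [mul_assoc, ← mul_add, map_mul, ← h7, mul_comm (aeval z (derivative v)),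
      mul_div_mul_left _ _ h8]
  refine (abs_expect_le_of_good _ (fun x : degreeLT F n => ε (∑ z ∈ rts _ v,
    (ph (α' * x.1 + σ') (u' * v) z +
      aeval z Γ / aeval z (derivative v * α * x.1 + derivative v * σ)))) _ (fun x => ?_)
    (fun x => hε.sign _) (fun x y hx hy => ?_)).trans (add_le_add le_rfl ?_)
  · rcases liou_cases ((α * x.1 + σ) ^ 2 + X * (u * v) ^ 2) with h | h <;>
      rcases he.sign (SFour.res (Z x) v) with h' | h' <;> simp [h, h']
  · push Not at hx hy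
    rw [Finset.sum_add_distrib, Finset.sum_add_distrib, hε.add, hε.add, ← h6 x hx, ← h6 y hy]
    linear_combination (e (SFour.res (Z x) v) * e (SFour.res (Z y) v)) *
      h₄ x y (hd x) (hd y) hx hy
  · exact (pow_le_pow_iff_left₀ (abs_nonneg _) hB (by positivity)).1 (h5.trans hB')

end Pool.Agent.MP_f37147_nt

end

section

/- Iterated differences of the phase at infinity. -/

set_option autoImplicit false

namespace Pool.Agent.MP_f37147_nt

open Finset Pool.Agent.MP_4fffd4_nt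
open scoped BigOperators

namespace QCube

section Ring

variable {R ι : Type*} [CommRing R] [DecidableEq ι]

/-- The product of the vertices of a cube. -/
def LL (s : Finset ι) (h : ι → R) (x : R) : R := ∏ ω ∈ s.powerset, (x + ∑ j ∈ ω, h j)

/-- The product of the vertices other than the base point. -/
def DD (s : Finset ι) (h : ι → R) (x : R) : R := ∏ ω ∈ s.powerset.erase ∅, (x + ∑ j ∈ ω, h j)

theorem LL_eq (s : Finset ι) (h : ι → R) (x : R) : LL s h x = x * DD s h x := by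
  rw [LL, DD, ← Finset.mul_prod_erase _ _ (empty_mem_powerset s), sum_empty, add_zero]

theorem LL_insert {s : Finset ι} {a : ι} (ha : a ∉ s) (h : ι → R) (x : R) :
    LL (insert a s) h x = LL s h x * LL s h (x + h a) := by
  unfold LL
  rw [Finset.prod_powerset_insert ha]
  congr 1
  refine Finset.prod_congr rfl fun ω hω => ?_
  rw [Finset.sum_insert (fun e => ha (mem_powerset.1 hω e)), add_assoc]

theorem DD_insert {s : Finset ι} {a : ι} (ha : a ∉ s) (h : ι → R) (x : R) :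
    DD (insert a s) h x = DD s h x * LL s h (x + h a) := by
  have h1 : ∀ t : Finset ι, DD t h x =
      ∏ ω ∈ t.powerset, if ω = ∅ then 1 else (x + ∑ j ∈ ω, h j) := fun t => by
    rw [← Finset.mul_prod_erase _ _ (empty_mem_powerset t), if_pos rfl, one_mul]
    exact Finset.prod_congr rfl fun ω hω => (if_neg (ne_of_mem_erase hω)).symm
  rw [h1, h1, Finset.prod_powerset_insert ha]
  congr 1
  refine Finset.prod_congr rfl fun ω hω => ?_
  rw [if_neg (insert_ne_empty _ _), Finset.sum_insert (fun e => ha (mem_powerset.1 hω e)),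
    add_assoc]

omit [DecidableEq ι] in
theorem LL_congr {s : Finset ι} {h h' : ι → R} (e : ∀ j ∈ s, h j = h' j) (x : R) :
    LL s h x = LL s h' x :=
  Finset.prod_congr rfl fun ω hω => by
    rw [Finset.sum_congr rfl fun j hj => e j (mem_powerset.1 hω hj)]

theorem LL_add (h2 : (2 : R) = 0) (s : Finset ι) (h : ι → R) (x y : R) :
    LL s h (x + y) = LL s h x + LL s h y := by
  induction s using Finset.induction generalizing x y with
  | empty => simp [LL]
  | insert a s ha IH =>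
    simp only [LL_insert ha, IH]
    linear_combination LL s h x * LL s h y * h2

theorem cube_mul {f : R → R} (hf : ∀ x y, f (x + y) = f x + f y) (g : R → R) (s : Finset ι)
    (h : ι → R) (x : R) : cube s h (fun x => f x * g x) x =
      f x * cube s h g x + ∑ a ∈ s, f (h a) * cube (s.erase a) h g (x + h a) := by
  induction s using Finset.induction generalizing x with
  | empty => simp [cube_empty]
  | insert b s hb IH =>
    rw [cube_insert hb, IH, IH, cube_insert hb, Finset.sum_insert hb, erase_insert hb, hf,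
      Finset.sum_congr (s₁ := s) (f := fun a => f (h a) * cube ((insert b s).erase a) h g (x + h a))
        (g := fun a => f (h a) * cube (s.erase a) h g (x + h a) +
          f (h a) * cube (s.erase a) h g (x + h b + h a)) rfl fun a ha => by
        rw [erase_insert_of_ne fun e : b = a => hb (e ▸ ha),
          cube_insert fun e => hb (mem_of_mem_erase e), add_right_comm x, mul_add],
      Finset.sum_add_distrib]
    ring

omit [DecidableEq ι] in
theorem dvd_prod {t : Finset ι} {a : ι → R} {u : R} {r : ℕ} (ha : ∀ i ∈ t, u ^ r ∣ a i) :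
    u ^ (t.card * r) ∣ ∏ i ∈ t, a i := by
  rw [mul_comm, pow_mul, ← Finset.prod_const]
  exact Finset.prod_dvd_prod_of_dvd _ _ ha

theorem dvd_prod_sub {t : Finset ι} {a b : ι → R} {u : R} {r δ : ℕ} (ha : ∀ i ∈ t, u ^ r ∣ a i)
    (hb : ∀ i ∈ t, u ^ r ∣ b i) (hab : ∀ i ∈ t, u ^ (r + δ) ∣ a i - b i) :
    u ^ (t.card * r + δ) ∣ ∏ i ∈ t, a i - ∏ i ∈ t, b i := by
  induction t using Finset.induction with
  | empty => simp
  | insert i t hi IH =>
    rw [Finset.prod_insert hi, Finset.prod_insert hi, card_insert_of_notMem hi,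
      show a i * ∏ j ∈ t, a j - b i * ∏ j ∈ t, b j =
        a i * (∏ j ∈ t, a j - ∏ j ∈ t, b j) + (a i - b i) * ∏ j ∈ t, b j by ring]
    refine dvd_add ?_ ?_
    · rw [show (t.card + 1) * r + δ = r + (t.card * r + δ) by ring, pow_add]
      exact mul_dvd_mul (ha i (mem_insert_self _ _)) (IH (fun j hj => ha j (mem_insert_of_mem hj))
        (fun j hj => hb j (mem_insert_of_mem hj)) fun j hj => hab j (mem_insert_of_mem hj))
    · rw [show (t.card + 1) * r + δ = r + δ + t.card * r by ring, pow_add]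
      exact mul_dvd_mul (hab i (mem_insert_self _ _))
        (dvd_prod fun j hj => hb j (mem_insert_of_mem hj))

variable {s : Finset ι} {h : ι → R} {u y : R} {r m : ℕ}

theorem card_erase (hm : m + 1 = 2 ^ s.card) : (s.powerset.erase ∅).card = m := by
  rw [card_erase_of_mem (empty_mem_powerset s), card_powerset, ← hm, Nat.add_sub_cancel]

theorem dvd_vertex (hs : ∀ j ∈ s, u ^ r ∣ h j) (hy : u ^ r ∣ y) {ω : Finset ι}
    (hω : ω ∈ s.powerset.erase ∅) : u ^ r ∣ y + ∑ j ∈ ω, h j :=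
  dvd_add hy (Finset.dvd_sum fun j hj => hs j (mem_powerset.1 (mem_of_mem_erase hω) hj))

theorem dvd_DD (hm : m + 1 = 2 ^ s.card) (hs : ∀ j ∈ s, u ^ r ∣ h j) (hy : u ^ r ∣ y) :
    u ^ (m * r) ∣ DD s h y := by
  rw [← card_erase hm]
  exact dvd_prod fun ω hω => dvd_vertex hs hy hω

theorem dvd_LL (hm : m + 1 = 2 ^ s.card) (hs : ∀ j ∈ s, u ^ r ∣ h j) {δ : ℕ}
    (hy : u ^ (r + δ) ∣ y) : u ^ (r + δ + m * r) ∣ LL s h y := by
  rw [LL_eq, pow_add]
  exact mul_dvd_mul hy (dvd_DD hm hs ((pow_dvd_pow _ (Nat.le_add_right _ _)).trans hy))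

theorem dvd_LL_sub (hm : m + 1 = 2 ^ s.card) (hs : ∀ j ∈ s, u ^ r ∣ h j) {δ : ℕ}
    (hy : u ^ (r + δ) ∣ y) : u ^ (r + δ + (m * r + δ)) ∣ LL s h y - y * DD s h 0 := by
  rw [LL_eq, ← mul_sub, pow_add, ← card_erase hm]
  exact mul_dvd_mul hy (dvd_prod_sub
    (fun ω hω => dvd_vertex hs ((pow_dvd_pow _ (Nat.le_add_right _ _)).trans hy) hω)
    (fun ω hω => dvd_vertex hs (dvd_zero _) hω) fun ω _ => by simpa using hy)

end Ring

open PowerSeries

variable {F ι : Type*} [Field F] [DecidableEq ι]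

/-- The Euler operator. -/
noncomputable def EE (x : F⟦X⟧) : F⟦X⟧ := X * PowerSeries.derivative F x

theorem EE_add (x y : F⟦X⟧) : EE (x + y) = EE x + EE y := by rw [EE, map_add, mul_add]; rfl

theorem EE_mul (x y : F⟦X⟧) : EE (x * y) = x * EE y + y * EE x := by
  simp only [EE, Derivation.leibniz, smul_eq_mul]; ring

theorem coeff_EE (x : F⟦X⟧) (n : ℕ) : coeff n (EE x) = n * coeff n x := by
  rcases n with _ | n
  · simp [EE]
  · rw [EE, coeff_succ_X_mul, coeff_derivative]; push_cast; ring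

theorem dvd_EE {x : F⟦X⟧} {n : ℕ} (h : X ^ n ∣ x) : X ^ n ∣ EE x := by
  rw [X_pow_dvd_iff] at h ⊢
  intro m hm
  rw [coeff_EE, h m hm, mul_zero]

theorem eul_add (κ : F) (x y : F⟦X⟧) : eul κ (x + y) = eul κ x + eul κ y := by
  simp only [eul, map_add]; ring

theorem dvd_eul (κ : F) {x : F⟦X⟧} {n : ℕ} (h : X ^ n ∣ x) : X ^ n ∣ eul κ x :=
  dvd_add (h.mul_left _) (dvd_EE h)

omit [DecidableEq ι] in
theorem cc_LL {s : Finset ι} {h : ι → F⟦X⟧} {x : F⟦X⟧} (hs : ∀ j ∈ s, X ∣ h j)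
    (hx : constantCoeff x ≠ 0) : constantCoeff (LL s h x) ≠ 0 := by
  rw [LL, map_prod]
  refine Finset.prod_ne_zero_iff.2 fun ω hω => ?_
  rwa [map_add, X_dvd_iff.1 (Finset.dvd_sum fun j hj => hs j (mem_powerset.1 hω hj)), add_zero]

theorem cc_add {x y : F⟦X⟧} (hx : constantCoeff x ≠ 0) (hy : X ∣ y) :
    constantCoeff (x + y) ≠ 0 := by rwa [map_add, X_dvd_iff.1 hy, add_zero]

variable [CharP F 2]

theorem two_eq : (2 : F⟦X⟧) = 0 := by
  have : (2 : F) = 0 := by exact_mod_cast CharP.cast_eq_zero F 2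
  rw [← map_ofNat (C (R := F)) 2, this, map_zero]

theorem EE_sq_mul (x y : F⟦X⟧) : EE (x ^ 2 * y) = x ^ 2 * EE y := by
  rw [EE_mul, sq, EE_mul]
  linear_combination y * x * EE x * two_eq (F := F)

theorem add_sq' (x y : F⟦X⟧) : (x + y) ^ 2 = x ^ 2 + y ^ 2 := by
  linear_combination x * y * two_eq (F := F)

theorem cube_inv {s : Finset ι} {h : ι → F⟦X⟧} (hs : ∀ j ∈ s, X ∣ h j) {x : F⟦X⟧}
    (hx : constantCoeff x ≠ 0) : cube s h (fun x => x⁻¹) x = DD s h 0 * (LL s h x)⁻¹ := by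
  induction s using Finset.induction generalizing x with
  | empty => simp [cube_empty, DD, LL]
  | insert a s ha IH =>
    have hs' : ∀ j ∈ s, X ∣ h j := fun j hj => hs j (mem_insert_of_mem hj)
    have hx' := cc_add hx (hs a (mem_insert_self _ _))
    have e1 := PowerSeries.mul_inv_cancel _ (cc_LL hs' hx)
    have e2 := PowerSeries.mul_inv_cancel _ (cc_LL hs' hx')
    rw [cube_insert ha, IH hs' hx, IH hs' hx', DD_insert ha, LL_insert ha, PowerSeries.mul_inv_rev,
      zero_add]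
    have e3 := LL_add two_eq s h x (h a)
    generalize (LL s h x)⁻¹ = A at *
    generalize (LL s h (x + h a))⁻¹ = B at *
    linear_combination DD s h 0 * (-A * e2 + B * e1 + A * B * e3 + B * two_eq (F := F))

/-- The iterated difference of the logarithmic derivative. -/
noncomputable def GG (κ : F) (s : Finset ι) (h : ι → F⟦X⟧) (x : F⟦X⟧) : F⟦X⟧ :=
  cube s h (fun x => eul κ x * x⁻¹) x

omit [CharP F 2] in
theorem GG_eq (κ : F) {s : Finset ι} {h : ι → F⟦X⟧} (hs : ∀ j ∈ s, X ∣ h j) {x : F⟦X⟧}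
    (hx : constantCoeff x ≠ 0) :
    GG κ s h x = 2 ^ s.card * C κ + EE (LL s h x) * (LL s h x)⁻¹ := by
  unfold GG
  induction s using Finset.induction generalizing x with
  | empty =>
    have e1 := PowerSeries.mul_inv_cancel _ hx
    simp only [cube_empty, LL, card_empty, powerset_empty, prod_singleton, sum_empty, add_zero,
      eul, EE]
    linear_combination C κ * e1
  | insert a s ha IH =>
    have hs' : ∀ j ∈ s, X ∣ h j := fun j hj => hs j (mem_insert_of_mem hj)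
    have hx' := cc_add hx (hs a (mem_insert_self _ _))
    have e1 := PowerSeries.mul_inv_cancel _ (cc_LL hs' hx)
    have e2 := PowerSeries.mul_inv_cancel _ (cc_LL hs' hx')
    rw [cube_insert ha, IH hs' hx, IH hs' hx', LL_insert ha, PowerSeries.mul_inv_rev, EE_mul,
      card_insert_of_notMem ha]
    generalize (LL s h x)⁻¹ = A at *
    generalize (LL s h (x + h a))⁻¹ = B at *
    linear_combination -EE (LL s h x) * A * e2 - EE (LL s h (x + h a)) * B * e1

theorem GG_insert (κ : F) {s : Finset ι} {a : ι} (ha : a ∉ s) {h : ι → F⟦X⟧}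
    (hs : ∀ j ∈ insert a s, X ∣ h j) {x : F⟦X⟧} (hx : constantCoeff x ≠ 0) :
    GG κ (insert a s) h x = EE (LL s h x * LL s h (h a)) * (LL (insert a s) h x)⁻¹ := by
  rw [GG_eq κ hs hx, card_insert_of_notMem ha, pow_succ, two_eq, mul_zero, zero_mul, zero_add]
  congr 1
  have := EE_sq_mul (LL s h x) 1
  rw [LL_insert ha, LL_add two_eq, mul_add, EE_add, ← sq, ← mul_one (_ ^ 2), this]
  simp [EE]

theorem term_main (κ : F) {O : Finset ι} {y z : ι} (hy : y ∉ O) (hz : z ∉ insert y O)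
    {h : ι → F⟦X⟧} {r δ m : ℕ} (hr : 1 ≤ r) (hm : m + 1 = 2 ^ O.card)
    (hO : ∀ j ∈ O, X ^ r ∣ h j) (h1 : X ^ (r + δ) ∣ h y) (h2 : X ^ (r + δ) ∣ h z) {x : F⟦X⟧}
    (hx : constantCoeff x ≠ 0) : X ^ (2 * (r + δ + m * r) + δ) ∣
      GG κ (insert z (insert y O)) h x - cube O h (fun x => x⁻¹) x ^ 2 * EE (h y * h z) := by
  have hX : ∀ {n : ℕ} {g : F⟦X⟧}, X ^ (r + n) ∣ g → X ∣ g := fun hg =>
    (dvd_pow_self _ (by omega)).trans hg
  have hO' : ∀ j ∈ O, X ∣ h j := fun j hj => hX (n := 0) (hO j hj)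
  have hS : ∀ j ∈ insert z (insert y O), X ∣ h j := by
    simp only [mem_insert, forall_eq_or_imp]
    exact ⟨hX h2, hX h1, hO'⟩
  have e1 := PowerSeries.mul_inv_cancel _ (cc_LL hO' hx)
  have e2 := PowerSeries.mul_inv_cancel _ (cc_LL hS hx)
  rw [GG_insert κ hz hS hx, cube_inv hO' hx]
  generalize (LL (insert z (insert y O)) h x)⁻¹ = W at *
  generalize (LL O h x)⁻¹ = B at *
  simp only [LL_insert hz, LL_insert hy, LL_add (two_eq (F := F))] at e2 ⊢
  have d1 := dvd_LL hm hO h1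
  have d2 := dvd_LL hm hO h2
  have d3 := dvd_LL_sub hm hO h1
  have d4 := dvd_LL_sub hm hO h2
  have d5 := dvd_DD hm hO (dvd_zero _)
  generalize LL O h x = A at *
  generalize LL O h (h y) = Y at *
  generalize LL O h (h z) = Z at *
  generalize DD O h 0 = c at *
  have e3 : EE (A * (A + Y) * (Z * (Z + Y))) =
      A ^ 2 * EE (Y * Z) + Z ^ 2 * EE (A * Y) + Y ^ 2 * EE (A * Z) := by
    rw [show A * (A + Y) * (Z * (Z + Y)) =
      (A * Z) ^ 2 * 1 + A ^ 2 * (Y * Z) + Z ^ 2 * (A * Y) + Y ^ 2 * (A * Z) by ring]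
    simp only [EE_add, EE_sq_mul]
    simp [EE]
  have e4 : EE (Y * Z) = c ^ 2 * EE (h y * h z) + EE (Y * Z - c ^ 2 * (h y * h z)) := by
    rw [← EE_sq_mul, ← EE_add]; congr 1; ring
  have f1 : X ^ (2 * (r + δ + m * r) + δ) ∣ EE (Y * Z - c ^ 2 * (h y * h z)) := by
    refine dvd_EE ?_
    rw [show Y * Z - c ^ 2 * (h y * h z) = Y * (Z - h z * c) + h z * c * (Y - h y * c) by ring,
      show 2 * (r + δ + m * r) + δ = r + δ + m * r + (r + δ + (m * r + δ)) by ring, pow_add]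
    refine dvd_add (mul_dvd_mul d1 d4) (mul_dvd_mul ?_ d3)
    rw [pow_add]
    exact mul_dvd_mul h2 d5
  have f2 : ∀ {Y Z : F⟦X⟧}, X ^ (r + δ + m * r) ∣ Y → X ^ (r + δ + m * r) ∣ Z →
      X ^ (2 * (r + δ + m * r) + δ) ∣ Z ^ 2 * EE (A * Y) := fun hY hZ => by
    rw [pow_add, mul_comm 2, pow_mul]
    exact mul_dvd_mul (pow_dvd_pow_of_dvd hZ 2)
      (dvd_EE (((pow_dvd_pow _ (by omega)).trans hY).mul_left _))
  have f3 : X ^ (2 * (r + δ + m * r)) ∣ c ^ 2 * EE (h y * h z) := by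
    rw [show 2 * (r + δ + m * r) = m * r * 2 + (r + δ + (r + δ)) by ring, pow_add, pow_mul]
    refine mul_dvd_mul (pow_dvd_pow_of_dvd d5 2) (dvd_EE ?_)
    rw [pow_add]
    exact mul_dvd_mul h1 h2
  have f4 : X ^ δ ∣ A ^ 2 * W - B ^ 2 := by
    obtain ⟨Y', rfl⟩ : X ^ δ ∣ Y := (pow_dvd_pow _ (by omega)).trans d1
    obtain ⟨Z', rfl⟩ : X ^ δ ∣ Z := (pow_dvd_pow _ (by omega)).trans d2
    generalize (X : F⟦X⟧) ^ δ = t at e2 ⊢
    refine ⟨-(B ^ 2 * W * A * (2 * A ^ 2 * (Y' + Z') + A * t * (Y' ^ 2 + 3 * Y' * Z' + Z' ^ 2) +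
      t ^ 2 * Y' * Z' * (Y' + Z'))), ?_⟩
    linear_combination B ^ 2 * e2 - A ^ 2 * W * (A * B + 1) * e1
  rw [e3, e4, show (A ^ 2 * (c ^ 2 * EE (h y * h z) + EE (Y * Z - c ^ 2 * (h y * h z))) +
    Z ^ 2 * EE (A * Y) + Y ^ 2 * EE (A * Z)) * W - (c * B) ^ 2 * EE (h y * h z) =
    c ^ 2 * EE (h y * h z) * (A ^ 2 * W - B ^ 2) + (A ^ 2 * EE (Y * Z - c ^ 2 * (h y * h z)) +
    Z ^ 2 * EE (A * Y) + Y ^ 2 * EE (A * Z)) * W by ring]
  refine dvd_add ?_ (Dvd.dvd.mul_right (dvd_add (dvd_add (f1.mul_left _) (f2 d1 d2)) (f2 d2 d1)) _)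
  rw [pow_add]
  exact mul_dvd_mul f3 f4

theorem cube_main (κ : F) {O : Finset ι} {y z : ι} (hy : y ∉ O) (hz : z ∉ insert y O)
    {h : ι → F⟦X⟧} {r δ m N : ℕ} (hr : 1 ≤ r) (hm : 2 * (m + 1) = 2 ^ O.card)
    (hO : ∀ j ∈ O, X ^ r ∣ h j) (h1 : X ^ (r + δ) ∣ h y) (h2 : X ^ (r + δ) ∣ h z) {x : F⟦X⟧}
    (hx : constantCoeff x ≠ 0) (hN : N ≤ 4 * (m * r + r)) (hN' : N ≤ 3 * δ + 2 * (m * r) + 4 * r) :
    X ^ N ∣ cube (insert z (insert y O)) h (psi κ) x - GG κ O h x ^ 2 * EE (h y * h z) := by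
  have hX : ∀ {n : ℕ} {g : F⟦X⟧}, X ^ (r + n) ∣ g → X ∣ g := fun hg =>
    (dvd_pow_self _ (by omega)).trans hg
  have hO' : ∀ j ∈ O, X ∣ h j := fun j hj => hX (n := 0) (hO j hj)
  have hyz : z ≠ y := fun e => hz (e ▸ mem_insert_self _ _)
  have hzO : z ∉ O := fun e => hz (mem_insert_of_mem e)
  have hr1 : X ^ r ∣ h y := (pow_dvd_pow _ (Nat.le_add_right _ _)).trans h1
  have hr2 : X ^ r ∣ h z := (pow_dvd_pow _ (Nat.le_add_right _ _)).trans h2
  have e0 : psi κ = fun x => eul κ x ^ 2 * (eul κ x * x⁻¹) := funext fun x => by rw [psi]; ring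
  have e1 := cube_mul (eul_add κ) (fun x => x⁻¹) O h x
  have side : ∀ {y z : ι}, z ∉ O → X ^ (r + δ) ∣ h y → X ^ (r + δ) ∣ h z →
      X ^ N ∣ eul κ (h y) ^ 2 * GG κ (insert z O) h (x + h y) := fun {y z} hz h1 h2 => by
    rw [GG_insert κ hz (by
      simp only [mem_insert, forall_eq_or_imp]
      exact ⟨hX h2, hO'⟩) (cc_add hx (hX h1)), ← mul_assoc]
    refine Dvd.dvd.mul_right ((pow_dvd_pow _ (?_ : N ≤ (r + δ) * 2 +
      (r + δ + (2 * m + 1) * r))).trans ?_) _
    · nlinarith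
    rw [pow_add, pow_mul]
    exact mul_dvd_mul (pow_dvd_pow_of_dvd (dvd_eul κ h1) 2)
      (dvd_EE ((dvd_LL (by omega) hO h2).mul_left _))
  rw [e0, cube_mul (f := fun x => eul κ x ^ 2) (fun x y => by rw [eul_add, add_sq']),
    Finset.sum_insert hz, Finset.sum_insert hy, erase_insert hz, erase_insert_of_ne hyz,
    erase_insert hy]
  change X ^ N ∣ eul κ x ^ 2 * GG κ (insert z (insert y O)) h x +
    (eul κ (h z) ^ 2 * GG κ (insert y O) h (x + h z) +
    (eul κ (h y) ^ 2 * GG κ (insert z O) h (x + h y) +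
    ∑ b ∈ O, eul κ (h b) ^ 2 * GG κ ((insert z (insert y O)).erase b) h (x + h b))) - _
  have e2 : GG κ O h x ^ 2 = (eul κ x * cube O h (fun x => x⁻¹) x) ^ 2 +
      ∑ b ∈ O, (eul κ (h b) * cube (O.erase b) h (fun x => x⁻¹) (x + h b)) ^ 2 := by
    have : CharP F⟦X⟧ 2 := charP_of_injective_algebraMap (algebraMap F F⟦X⟧).injective 2
    rw [GG, e1, add_sq', CharTwo.sum_sq]
  rw [e2, add_mul, Finset.sum_mul, ← add_assoc, ← add_assoc, add_sub_add_comm,
    ← Finset.sum_sub_distrib]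
  refine dvd_add (dvd_sub (dvd_add (dvd_add (Dvd.dvd.mul_left ?_ _) (side hy h2 h1))
    (side hzO h1 h2)) ?_) (Finset.dvd_sum fun b hb => ?_)
  · have hS : ∀ j ∈ insert y O, X ^ r ∣ h j := by
      simp only [mem_insert, forall_eq_or_imp]
      exact ⟨hr1, hO⟩
    rw [GG_insert κ hz (by
      simp only [mem_insert, forall_eq_or_imp]
      exact ⟨hX h2, hX h1, hO'⟩) hx]
    refine Dvd.dvd.mul_right (dvd_EE (Dvd.dvd.mul_left ((pow_dvd_pow _ ?_).trans
      (dvd_LL (m := 4 * m + 3) (δ := 0) ?_ hS hr2)) _)) _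
    · nlinarith
    · rw [card_insert_of_notMem hy, pow_succ]; omega
  · rw [cube_inv hO' hx]
    refine (pow_dvd_pow _ (?_ : N ≤ (2 * m + 1) * r * 2 + (r + r))).trans ?_
    · nlinarith
    rw [pow_add, pow_mul]
    refine mul_dvd_mul (pow_dvd_pow_of_dvd
      (((dvd_DD (by omega) hO (dvd_zero _)).mul_right _).mul_left _) 2) (dvd_EE ?_)
    rw [pow_add]
    exact mul_dvd_mul hr1 hr2
  · rw [erase_insert_of_ne fun e : z = b => hzO (e ▸ hb),
      erase_insert_of_ne fun e : y = b => hy (e ▸ hb), mul_pow, mul_assoc, ← mul_sub]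
    refine (pow_dvd_pow _ (?_ : N ≤ r * 2 + (2 * (r + δ + m * r) + δ))).trans ?_
    · omega
    rw [pow_add, pow_mul]
    refine mul_dvd_mul (pow_dvd_pow_of_dvd (dvd_eul κ (hO b hb)) 2) (term_main κ
      (fun e => hy (mem_of_mem_erase e)) (fun e => ?_) hr ?_
      (fun j hj => hO j (mem_of_mem_erase hj)) h1 h2 (cc_add hx (hO' b hb)))
    · rcases mem_insert.1 e with e | e
      · exact hyz e
      · exact hzO (mem_of_mem_erase e)
    · rw [← card_erase_add_one hb, pow_succ] at hm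
      omega

end QCube

end Pool.Agent.MP_f37147_nt

end

section

/- Cancellation in the phase at infinity. -/

set_option autoImplicit false

namespace Pool.Agent.MP_f37147_nt

open Finset Pool.Agent.MP_4fffd4_nt Pool.Agent.MP_c853c5_nt
open Polynomial (degreeLT mem_degreeLT)
open scoped BigOperators

namespace QSer

open PowerSeries QCube

variable {F : Type*} [Field F]

/-- Exact order of vanishing. -/
def Ex (n : ℕ) (f : F⟦X⟧) : Prop := ∃ u, constantCoeff u ≠ 0 ∧ f = X ^ n * u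

theorem Ex.mul {m n : ℕ} {f g : F⟦X⟧} (hf : Ex m f) (hg : Ex n g) : Ex (m + n) (f * g) := by
  obtain ⟨u, hu, rfl⟩ := hf
  obtain ⟨v, hv, rfl⟩ := hg
  exact ⟨u * v, by rw [map_mul]; exact mul_ne_zero hu hv, by ring⟩

theorem Ex.unit {f : F⟦X⟧} (hf : constantCoeff f ≠ 0) : Ex 0 f := ⟨f, hf, by simp⟩

theorem Ex.pow (n : ℕ) : Ex n (X ^ n : F⟦X⟧) := ⟨1, by simp, by simp⟩

theorem Ex.le {n k : ℕ} {f : F⟦X⟧} (hf : Ex n f) (h : X ^ k ∣ f) : k ≤ n := by
  obtain ⟨u, hu, rfl⟩ := hf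
  by_contra hk
  have := X_pow_dvd_iff.1 h n (by omega)
  rw [coeff_X_pow_mul', if_pos le_rfl, Nat.sub_self, coeff_zero_eq_constantCoeff_apply] at this
  exact hu this

theorem exists_ex {N : ℕ} {f : F⟦X⟧} (h : ¬ X ^ N ∣ f) : ∃ n < N, Ex n f := by
  induction N with
  | zero => simp at h
  | succ N IH =>
    by_cases h' : X ^ N ∣ f
    · obtain ⟨u, rfl⟩ := h'
      refine ⟨N, Nat.lt_succ_self _, u, fun hu => h ?_, rfl⟩
      rw [pow_succ]
      exact mul_dvd_mul_left _ (X_dvd_iff.2 hu)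
    · obtain ⟨n, h1, h2⟩ := IH h'
      exact ⟨n, by omega, h2⟩

theorem exists_ex_poly {ρ : ℕ} {γ : degreeLT F ρ} (h : γ ≠ 0) :
    ∃ n < ρ, Ex n (γ.1 : F⟦X⟧) := by
  refine exists_ex fun h' => h (Subtype.ext (Polynomial.ext fun n => ?_))
  by_cases hn : n < ρ
  · simpa using X_pow_dvd_iff.1 h' n hn
  · exact (Polynomial.degree_lt_iff_coeff_zero _ _).1 (mem_degreeLT.1 γ.2) n (by omega)

theorem ex_prod {ι : Type*} {t : Finset ι} {a : ι → F⟦X⟧} {B : ℕ}
    (h : ∀ i ∈ t, ∃ n ≤ B, Ex n (a i)) : ∃ n ≤ t.card * B, Ex n (∏ i ∈ t, a i) := by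
  classical
  induction t using Finset.induction with
  | empty => exact ⟨0, by simp, Ex.unit (by simp)⟩
  | insert i t hi IH =>
    obtain ⟨n, h1, h2⟩ := IH fun j hj => h j (mem_insert_of_mem hj)
    obtain ⟨k, h3, h4⟩ := h i (mem_insert_self _ _)
    refine ⟨k + n, ?_, by rw [Finset.prod_insert hi]; exact h4.mul h2⟩
    rw [card_insert_of_notMem hi, add_mul]
    omega

theorem expect_uniq {W : Type*} [Fintype W] {P : W → Prop} (h : ∀ a b, P a → P b → a = b) :
    𝔼 a, ind (P a) ≤ 1 / Fintype.card W := by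
  by_cases h' : ∃ a, P a
  · obtain ⟨a, ha⟩ := h'
    simpa using expect_ind_le (P := P) {a} fun b hb => by simpa using h b a hb ha
  · push Not at h'
    simp only [ind_neg (h' _), Finset.expect_const_zero]
    positivity

variable [Fintype F]

theorem char_zero {e : F → ℝ} (he : Chr e) {o p ρ : ℕ} {Q : F⟦X⟧} (hQ : Ex o Q) (h1 : o ≤ p)
    (h2 : p < o + ρ) : 𝔼 ζ : degreeLT F ρ, e (coeff p (Q * (ζ.1 : F⟦X⟧))) = 0 := by
  obtain ⟨u, hu, rfl⟩ := hQ
  obtain ⟨c, hc⟩ := he.neg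
  refine (he.toSgn.comp (fun ζ : degreeLT F ρ => coeff p (X ^ o * u * (ζ.1 : F⟦X⟧))) fun a b => by
    rw [Submodule.coe_add, Polynomial.coe_add, mul_add, map_add]).expect_eq_zero
    (a := ⟨Polynomial.C (c / constantCoeff u) * Polynomial.X ^ (p - o), mem_degreeLT.2
      ((Polynomial.degree_C_mul_X_pow_le _ _).trans_lt (by exact_mod_cast (by omega)))⟩) ?_
  simp only [Polynomial.coe_mul, Polynomial.coe_C, Polynomial.coe_pow, Polynomial.coe_X]
  rw [show X ^ o * u * (C (c / constantCoeff u) * X ^ (p - o)) =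
    X ^ (o + (p - o)) * (C (c / constantCoeff u) * u) by ring, show o + (p - o) = p by omega,
    coeff_X_pow_mul', if_pos le_rfl, Nat.sub_self, coeff_zero_eq_constantCoeff_apply, map_mul,
    constantCoeff_C, div_mul_cancel₀ _ hu, hc]
  norm_num

variable [CharP F 2]

omit [Fintype F] in
theorem cast_odd {n : ℕ} (hn : Odd n) : (n : F) = 1 := by
  obtain ⟨k, rfl⟩ := hn
  have h2 : (2 : F) = 0 := by exact_mod_cast CharP.cast_eq_zero F 2
  push_cast
  rw [h2, zero_mul, zero_add]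

omit [Fintype F] in
theorem Ex.EE {n : ℕ} {f : F⟦X⟧} (hf : Ex n f) (hn : Odd n) : Ex n (EE f) := by
  obtain ⟨k, h1, h2⟩ := exists_ex (N := n + 1) (f := QCube.EE f) fun h => by
    have h3 := X_pow_dvd_iff.1 h n (Nat.lt_succ_self _)
    rw [coeff_EE, cast_odd hn, one_mul] at h3
    obtain ⟨u, hu, rfl⟩ := hf
    rw [coeff_X_pow_mul', if_pos le_rfl, Nat.sub_self, coeff_zero_eq_constantCoeff_apply] at h3
    exact hu h3
  obtain ⟨u, -, hu⟩ := hf
  rwa [le_antisymm (Nat.lt_succ_iff.1 h1) (h2.le (dvd_EE ⟨u, hu⟩))] at h2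

theorem bad_w {ι : Type*} [DecidableEq ι] {O : Finset ι} {h : ι → F⟦X⟧} {r δ m ρ : ℕ}
    (hr : 1 ≤ r) (hm : m + 1 = 2 ^ O.card) (hO : ∀ j ∈ O, X ^ r ∣ h j)
    (hgood : ∀ ω ∈ O.powerset.erase ∅, ∃ n ≤ r + ρ, Ex n (∑ j ∈ ω, h j)) {x V : F⟦X⟧}
    (hx : constantCoeff x ≠ 0) (hV : Ex (r + δ) V) (hδ : m * ρ + ρ ≤ δ)
    {ρ' : ℕ} (hρ : 2 * ρ' + 1 ≤ ρ) :
    𝔼 γ : degreeLT F ρ, ind (X ^ (r + δ + (m * r + (m * ρ + ρ))) ∣
      EE (LL O h x * LL O h (V * (γ.1 : F⟦X⟧)))) ≤ 1 / (Fintype.card F : ℝ) ^ ρ' := by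
  obtain ⟨o, ho, hc⟩ := ex_prod hgood
  rw [QCube.card_erase hm, mul_add] at ho
  obtain ⟨ε, hε, hodd⟩ : ∃ ε ≤ 1, Odd (0 + o + (r + δ) + ε) := by
    rcases Nat.even_or_odd (0 + o + (r + δ)) with h | h
    · exact ⟨1, le_rfl, h.add_one⟩
    · exact ⟨0, zero_le_one, h⟩
  have hmem : ∀ t : degreeLT F ρ', Polynomial.X ^ ε * t.1 ^ 2 ∈ degreeLT F ρ := fun t => by
    rw [mem_degreeLT]
    by_cases ht : t.1 = 0
    · rw [ht, zero_pow two_ne_zero, mul_zero, Polynomial.degree_zero]; exact WithBot.bot_lt_coe _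
    have h1 := (Polynomial.natDegree_lt_iff_degree_lt ht).2 (mem_degreeLT.1 t.2)
    refine Polynomial.degree_le_natDegree.trans_lt (Nat.cast_lt.2 ?_)
    rw [(Polynomial.monic_X_pow ε).natDegree_mul' (pow_ne_zero _ ht), Polynomial.natDegree_X_pow,
      Polynomial.natDegree_pow]
    omega
  rw [expect_avg _ fun t : degreeLT F ρ' => (⟨_, hmem t⟩ : degreeLT F ρ)]
  refine Finset.expect_le univ_nonempty fun γ _ => (expect_uniq fun a b ha hb => ?_).trans_eq (by
    rw [card_degreeLT, Nat.cast_pow])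
  by_contra hab
  obtain ⟨j, hj, hjx⟩ := exists_ex_poly (sub_ne_zero.2 hab)
  have h2 := two_eq (F := F)
  have h1 := dvd_add ha hb
  rw [← EE_add, ← mul_add, ← LL_add h2] at h1
  simp only [Submodule.coe_add, Polynomial.coe_add, Polynomial.coe_mul, Polynomial.coe_pow,
    Polynomial.coe_X] at h1
  rw [Submodule.coe_sub, Polynomial.coe_sub] at hjx
  generalize (γ.1 : F⟦X⟧) = g at h1
  generalize (a.1 : F⟦X⟧) = a' at h1 hjx
  generalize (b.1 : F⟦X⟧) = b' at h1 hjx
  rw [show V * (g + X ^ ε * a' ^ 2) + V * (g + X ^ ε * b' ^ 2) = V * X ^ ε * (a' - b') ^ 2 by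
      linear_combination (V * g + V * X ^ ε * a' * b') * h2] at h1
  generalize a' - b' = t at h1 hjx
  have h3 : X ^ (r + δ) ∣ V * X ^ ε * t ^ 2 := by
    obtain ⟨u, -, rfl⟩ := hV
    exact ⟨u * X ^ ε * t ^ 2, by ring⟩
  have h4 := dvd_EE (((pow_dvd_pow _ (by omega : r + δ + (m * r + (m * ρ + ρ)) ≤
    r + δ + (m * r + δ))).trans (dvd_LL_sub hm hO h3)).mul_left (LL O h x))
  rw [show LL O h x * LL O h (V * X ^ ε * t ^ 2) = LL O h x * (LL O h (V * X ^ ε * t ^ 2) -
    V * X ^ ε * t ^ 2 * DD O h 0) + t ^ 2 * (LL O h x * DD O h 0 * V * X ^ ε) by ring, EE_add,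
    dvd_add_right h4, EE_sq_mul, sq] at h1
  have hc' : Ex o (DD O h 0) := by simpa [DD] using hc
  have h5 := ((hjx.mul hjx).mul (((((Ex.unit (cc_LL (fun j hj => (dvd_pow_self _
    (by omega)).trans (hO j hj)) hx)).mul hc').mul hV).mul (Ex.pow ε)).EE hodd)).le h1
  omega

omit [CharP F 2] in
theorem zero_prob {ι : Type*} [Fintype ι] [DecidableEq ι] {ω : Finset ι} (hω : ω ≠ ∅) (ρ : ℕ) :
    𝔼 Y : ι → degreeLT F ρ, ind (∑ j ∈ ω, Y j = 0) ≤ 1 / (Fintype.card F : ℝ) ^ ρ := by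
  obtain ⟨i, hi⟩ := nonempty_iff_ne_empty.2 hω
  rw [expect_avg _ fun t : degreeLT F ρ => (Pi.single i t : ι → degreeLT F ρ)]
  refine Finset.expect_le univ_nonempty fun Y _ => (expect_uniq fun a b ha hb => ?_).trans_eq (by
    rw [card_degreeLT, Nat.cast_pow])
  simp only [Pi.add_apply, Finset.sum_add_distrib, Finset.sum_pi_single', if_pos hi] at ha hb
  exact add_left_cancel (ha.trans hb.symm)

theorem inner_zero {ι : Type*} [DecidableEq ι] {O : Finset ι} {w y z : ι} (hw : w ∉ O)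
    (hy : y ∉ insert w O) (hz : z ∉ insert y (insert w O)) {e : F → ℝ} (he : Chr e)
    {K M x : F⟦X⟧} (κ : F) {p : ℕ} (hK : constantCoeff K ≠ 0) (hM : constantCoeff M ≠ 0)
    (hx : constantCoeff x ≠ 0) (hp : Odd p) {r δ δ' m ρ B ρz : ℕ} (hr : 1 ≤ r)
    (hm : m + 1 = 2 ^ O.card) {h : ι → F⟦X⟧} (hO : ∀ j ∈ O, X ^ r ∣ h j) (h1 : X ^ (r + δ) ∣ h w)
    {j : ℕ} (hj : j < ρ) (h2 : Ex (r + δ' + j) (h y))
    (h3 : ¬ X ^ (r + δ + (m * r + B)) ∣ EE (LL O h x * LL O h (h w)))
    (b1 : p + 1 ≤ 4 * (m * r + r)) (b2 : p + 1 ≤ 3 * δ' + 2 * (m * r) + 4 * r)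
    (c1 : 2 * (r + δ + (m * r + B)) + ρ + 2 * (r + δ') ≤ p)
    (c2 : p < 2 * (r + δ + m * r) + 2 * (r + δ') + ρz) :
    𝔼 ζ : degreeLT F ρz, e (coeff p (K ^ 2 * cube (insert y (insert w O)) h (psi κ)
      (x + M * X ^ (r + δ') * (ζ.1 : F⟦X⟧)))) = 0 := by
  have hO1 : ∀ j ∈ insert w O, X ^ r ∣ h j := by
    simp only [mem_insert, forall_eq_or_imp]
    exact ⟨(pow_dvd_pow _ (Nat.le_add_right _ _)).trans h1, hO⟩
  have hO2 : ∀ j ∈ insert w O, X ∣ h j := fun j hj => (dvd_pow_self _ (by omega)).trans (hO1 j hj)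
  have h4 : X ^ (r + δ') ∣ h y := by
    obtain ⟨u, -, hu⟩ := h2
    exact ⟨X ^ j * u, by rw [hu]; ring⟩
  have key : ∀ ζ : F⟦X⟧, coeff p (K ^ 2 * cube (insert y (insert w O)) h (psi κ)
      (x + M * X ^ (r + δ') * ζ)) = coeff p (K ^ 2 * cube (insert y (insert w O)) h (psi κ) x) +
      coeff p ((K * GG κ (insert w O) h x) ^ 2 * h y * M * X ^ (r + δ') * ζ) := fun ζ => by
    set h' := Function.update h z (M * X ^ (r + δ') * ζ) with hh'
    have e1 : ∀ j ∈ insert y (insert w O), h' j = h j := fun j hj =>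
      Function.update_of_ne (fun e : j = z => hz (e ▸ hj)) _ _
    have e2 : h' z = M * X ^ (r + δ') * ζ := Function.update_self _ _ _
    have e3 := cube_main κ hy hz (h := h') (δ := δ') (m := m) (N := p + 1) hr
      (by rw [card_insert_of_notMem hw, pow_succ]; omega)
      (fun j hj => e1 j (mem_insert_of_mem hj) ▸ hO1 j hj) (e1 y (mem_insert_self _ _) ▸ h4)
      (e2 ▸ ⟨M * ζ, by ring⟩) hx b1 b2
    have e4 := X_pow_dvd_iff.1 (e3.mul_left (K ^ 2)) p (Nat.lt_succ_self _)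
    rw [cube_insert hz, cube_congr e1, cube_congr e1, e2, e1 y (mem_insert_self _ _), GG,
      cube_congr fun j hj => e1 j (mem_insert_of_mem hj), ← GG, mul_sub, map_sub, mul_add, map_add,
      ← mul_assoc, ← mul_pow, ← EE_sq_mul, coeff_EE, cast_odd hp, one_mul] at e4
    have h2F : (2 : F) = 0 := by exact_mod_cast CharP.cast_eq_zero F 2
    simp only [← mul_assoc] at e4 ⊢
    linear_combination e4 - coeff p (K ^ 2 * cube (insert y (insert w O)) h (psi κ) x) * h2F
  simp only [key, he.add, ← Finset.mul_expect]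
  obtain ⟨o, ho, hT⟩ := exists_ex h3
  have ho' := hT.le (dvd_EE ((dvd_LL hm hO h1).mul_left _))
  have hG : Ex (0 + (o + 0)) (K * GG κ (insert w O) h x) := by
    rw [GG_insert κ hw hO2 hx]
    refine (Ex.unit hK).mul (hT.mul (Ex.unit ?_))
    rw [constantCoeff_inv]
    exact inv_ne_zero (cc_LL hO2 hx)
  rw [sq (K * _), char_zero he ((((hG.mul hG).mul h2).mul (Ex.unit hM)).mul (Ex.pow _)) (by omega)
    (by omega), mul_zero]

theorem ser_aux {ι : Type*} [Fintype ι] [DecidableEq ι] {O : Finset ι} {w y z : ι} (hw : w ∉ O)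
    (hy : y ∉ insert w O) (hz : z ∉ insert y (insert w O)) {e : F → ℝ} (he : Chr e)
    {K M x₀ : F⟦X⟧} (κ : F) {p : ℕ} (hK : constantCoeff K ≠ 0) (hM : constantCoeff M ≠ 0)
    (hx₀ : constantCoeff x₀ ≠ 0) (hp : Odd p) {H r δ δ' m ρ ρ' ρz : ℕ} (hr : 1 ≤ r)
    (hm : m + 1 = 2 ^ O.card) (hδ : m * ρ + ρ ≤ δ) (hρ : 2 * ρ' + 1 ≤ ρ)
    (a1 : r + δ + ρ ≤ H + 1) (a2 : r + δ' + ρ ≤ H + 1) (a3 : r + δ' + ρz ≤ H + 1)
    (b1 : p + 1 ≤ 4 * (m * r + r)) (b2 : p + 1 ≤ 3 * δ' + 2 * (m * r) + 4 * r)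
    (c1 : 2 * (r + δ + (m * r + (m * ρ + ρ))) + ρ + 2 * (r + δ') ≤ p)
    (c2 : p < 2 * (r + δ + m * r) + 2 * (r + δ') + ρz) :
    |𝔼 γ : degreeLT F H, e (coeff p (K ^ 2 * psi κ (x₀ + M * X * (γ.1 : F⟦X⟧))))| ^
      2 ^ (O.card + 2) ≤ (m + 1) / (Fintype.card F : ℝ) ^ ρ + 1 / (Fintype.card F : ℝ) ^ ρ' := by
  obtain ⟨r₀, rfl⟩ : ∃ r₀, r = r₀ + 1 := ⟨r - 1, by omega⟩
  let Λ : degreeLT F H →+ F⟦X⟧ := AddMonoidHom.mk' (fun γ => M * X * (γ.1 : F⟦X⟧)) fun a b => by
    rw [Submodule.coe_add, Polynomial.coe_add, mul_add]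
  have hΛ : ∀ γ, Λ γ = M * X * (γ.1 : F⟦X⟧) := fun _ => rfl
  have hmul : ∀ {t σ : ℕ} (ht : (Polynomial.X ^ t : Polynomial F).natDegree + σ ≤ H)
      (γ : degreeLT F σ), Λ (mulLT _ ht γ) = M * X ^ (t + 1) * (γ.1 : F⟦X⟧) := fun ht γ => by
    rw [hΛ, mulLT_apply, Polynomial.coe_mul, Polynomial.coe_pow, Polynomial.coe_X]
    ring
  let t : ι → ℕ := fun j => if j = w then r₀ + δ else if j = y then r₀ + δ' else r₀
  have ht : ∀ j, (Polynomial.X ^ t j : Polynomial F).natDegree + ρ ≤ H := fun j => by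
    rw [Polynomial.natDegree_X_pow]
    simp only [t]
    split_ifs <;> omega
  have hwy : y ≠ w := fun e => hy (e ▸ mem_insert_self _ _)
  have tO : ∀ j ∈ O, t j = r₀ := fun j hj => by
    simp only [t]
    rw [if_neg fun e : j = w => hw (e ▸ hj), if_neg fun e : j = y => hy (e ▸ mem_insert_of_mem hj)]
  have tw : t w + 1 = r₀ + 1 + δ := by simp only [t, if_pos]; omega
  have ty : t y + 1 = r₀ + 1 + δ' := by simp only [t, if_neg hwy, if_pos]; omega
  have h0 := vdc e he.add (fun j => mulLT _ (ht j))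
    (fun γ : degreeLT F H => coeff p (K ^ 2 * psi κ (x₀ + Λ γ))) (insert y (insert w O))
  rw [card_insert_of_notMem hy, card_insert_of_notMem hw] at h0
  refine h0.trans ?_
  set hh : (ι → degreeLT F ρ) → ι → F⟦X⟧ := fun Y j => M * X ^ (t j + 1) * ((Y j).1 : F⟦X⟧)
    with hhh
  have hc : ∀ (Y : ι → degreeLT F ρ) (γ : degreeLT F H),
      cube (insert y (insert w O)) (fun j => mulLT _ (ht j) (Y j))
        (fun γ : degreeLT F H => coeff p (K ^ 2 * psi κ (x₀ + Λ γ))) γ =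
      coeff p (K ^ 2 * cube (insert y (insert w O)) (hh Y) (psi κ) (x₀ + Λ γ)) := fun Y γ => by
    simp only [cube, Finset.mul_sum, map_sum, map_add, hmul, add_assoc, hhh]
  have hx : ∀ γ, constantCoeff (x₀ + Λ γ) ≠ 0 := fun γ =>
    cc_add hx₀ ⟨M * (γ.1 : F⟦X⟧), by rw [hΛ]; ring⟩
  have hO : ∀ Y, ∀ j ∈ O, X ^ (r₀ + 1) ∣ hh Y j := fun Y j hj =>
    ⟨M * ((Y j).1 : F⟦X⟧), by simp only [hhh, tO j hj]; ring⟩
  set G : (ι → degreeLT F ρ) → Prop := fun Y => ∀ ω ∈ O.powerset.erase ∅, ∑ j ∈ ω, Y j ≠ 0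
    with hG
  set B : (ι → degreeLT F ρ) → degreeLT F H → Prop := fun Y γ =>
    X ^ (r₀ + 1 + δ + (m * (r₀ + 1) + (m * ρ + ρ))) ∣
      EE (LL O (hh Y) (x₀ + Λ γ) * LL O (hh Y) (hh Y w)) with hB
  have hz' : (Polynomial.X ^ (r₀ + δ') : Polynomial F).natDegree + ρz ≤ H := by
    rw [Polynomial.natDegree_X_pow]; omega
  have step : ∀ Y, |𝔼 γ : degreeLT F H, e (coeff p (K ^ 2 *
      cube (insert y (insert w O)) (hh Y) (psi κ) (x₀ + Λ γ)))| ≤
      (∑ ω ∈ O.powerset.erase ∅, ind (∑ j ∈ ω, Y j = 0) + ind (∑ j ∈ {y}, Y j = 0)) +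
        𝔼 γ, ind (G Y ∧ B Y γ) := fun Y => by
    rw [expect_avg _ (mulLT _ hz'), ← Fintype.expect_const (ι := degreeLT F H)
      (∑ ω ∈ O.powerset.erase ∅, ind (∑ j ∈ ω, Y j = 0) + ind (∑ j ∈ {y}, Y j = 0)),
      ← Finset.expect_add_distrib]
    refine (Finset.abs_expect_le _ _).trans (Finset.expect_le_expect fun γ _ => ?_)
    refine le_trans (b := ind (((∃ ω ∈ O.powerset.erase ∅, ∑ j ∈ ω, Y j = 0) ∨
      ∑ j ∈ {y}, Y j = 0) ∨ (G Y ∧ B Y γ))) ?_ ((ind_le_add id).trans (add_le_add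
        ((ind_le_add id).trans (add_le_add (ind_le_sum id) le_rfl)) le_rfl))
    by_cases hbad : ((∃ ω ∈ O.powerset.erase ∅, ∑ j ∈ ω, Y j = 0) ∨
      ∑ j ∈ {y}, Y j = 0) ∨ (G Y ∧ B Y γ)
    · rw [ind_pos hbad]
      exact (Finset.abs_expect_le _ _).trans
        (Finset.expect_le univ_nonempty fun _ _ => (he.toSgn.abs_eq _).le)
    rw [ind_neg hbad]
    push Not at hbad
    obtain ⟨⟨g1, g2⟩, g3⟩ := hbad
    rw [sum_singleton] at g2
    obtain ⟨j, hj, hjx⟩ := exists_ex_poly g2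
    have := inner_zero hw hy hz he κ hK hM (hx γ) hp hr hm (hO Y) (δ := δ) (δ' := δ')
      ⟨M * ((Y w).1 : F⟦X⟧), by simp only [hhh, tw]; ring⟩ hj (by
        simpa only [hhh, ty, zero_add] using ((Ex.unit hM).mul (Ex.pow (r₀ + 1 + δ'))).mul hjx)
      (g3 g1) b1 b2 c1 c2
    simp only [map_add, hmul, ← add_assoc, add_right_comm r₀ δ' 1, this, abs_zero, le_refl]
  simp only [hc]
  refine (Finset.expect_le_expect fun Y _ => step Y).trans ?_
  rw [Finset.expect_add_distrib, Finset.expect_add_distrib, Finset.expect_sum_comm, add_div,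
    Finset.expect_comm]
  refine add_le_add (add_le_add ((Finset.sum_le_card_nsmul _ _ _ fun ω hω =>
    zero_prob (ne_of_mem_erase hω) ρ).trans_eq ?_) (zero_prob (singleton_ne_empty _) ρ))
    (Finset.expect_le univ_nonempty fun γ _ => ?_)
  · rw [QCube.card_erase hm, nsmul_eq_mul, mul_one_div]
  rw [expect_avg _ fun g : degreeLT F ρ => (Pi.single w g : ι → degreeLT F ρ)]
  refine Finset.expect_le univ_nonempty fun Y _ => ?_
  have e1 : ∀ (g : degreeLT F ρ), ∀ j ∈ O, (Y + Pi.single w g : ι → degreeLT F ρ) j = Y j :=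
    fun g j hj => by rw [Pi.add_apply, Pi.single_eq_of_ne fun e : j = w => hw (e ▸ hj), add_zero]
  by_cases hY : G Y
  · refine le_trans ?_ (bad_w hr hm (hO Y) (fun ω hω => ?_) (hx γ)
      (V := M * X ^ (r₀ + 1 + δ)) (by simpa using (Ex.unit hM).mul (Ex.pow (r₀ + 1 + δ))) hδ hρ)
    · refine le_trans ?_ (expect_shift _ (Y w)).le
      refine Finset.expect_le_expect fun g _ => ind_mono fun h => ?_
      have h1 := h.2
      have e2 : ∀ j ∈ O, hh (Y + Pi.single w g) j = hh Y j := fun j hj => by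
        simp only [hhh, e1 g j hj]
      simp only [hB, LL_congr e2] at h1
      simpa only [hhh, tw, Pi.add_apply, Pi.single_eq_same, add_comm g] using h1
    · obtain ⟨j, hj, hjx⟩ := exists_ex_poly (hY ω hω)
      refine ⟨0 + (r₀ + 1) + j, by omega, ?_⟩
      convert ((Ex.unit hM).mul (Ex.pow (r₀ + 1))).mul hjx using 1
      rw [Submodule.coe_sum, ← Polynomial.coeToPowerSeries.ringHom_apply, map_sum, Finset.mul_sum]
      exact Finset.sum_congr rfl fun j hj => by
        simp only [hhh, tO j (mem_powerset.1 (mem_of_mem_erase hω) hj)]; rfl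
  · refine Finset.expect_le univ_nonempty fun g _ => (ind_neg fun h => hY fun ω hω => ?_).le.trans
      (by have := card_pos' (F := F); positivity)
    have := h.1 ω hω
    rwa [Finset.sum_congr rfl fun j hj => e1 g j (mem_powerset.1 (mem_of_mem_erase hω) hj)] at this

omit [CharP F 2] in
theorem fin_bound {x : ℝ} (hx : 0 ≤ x) {I m ρ c : ℕ} (hm : m + 1 = 2 ^ I) (h1 : 2 * I + 8 ≤ ρ)
    (h2 : c * 2 ^ (I + 2) ≤ ρ / 4) (h : x ^ 2 ^ (I + 2) ≤
      (m + 1) / (Fintype.card F : ℝ) ^ ρ + 1 / (Fintype.card F : ℝ) ^ ((ρ - 1) / 2)) :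
    x ≤ 1 / (Fintype.card F : ℝ) ^ c := by
  have hq := card_pos' (F := F)
  have hq2 := two_le_card (F := F)
  have hq1 : (1 : ℝ) ≤ Fintype.card F := one_le_two.trans hq2
  refine (pow_le_pow_iff_left₀ hx (by positivity) (by positivity)).1 (h.trans ?_)
  have e1 : ((m : ℝ) + 1) / (Fintype.card F : ℝ) ^ ρ ≤
      1 / (Fintype.card F : ℝ) ^ ((ρ - 1) / 2) := by
    rw [div_le_div_iff₀ (by positivity) (by positivity), one_mul]
    calc _ ≤ (Fintype.card F : ℝ) ^ I * (Fintype.card F : ℝ) ^ ((ρ - 1) / 2) := by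
          gcongr
          exact le_trans (by exact_mod_cast hm.le) (pow_le_pow_left₀ zero_le_two hq2 I)
      _ ≤ _ := by rw [← pow_add]; exact pow_le_pow_right₀ hq1 (by omega)
  refine (add_le_add e1 le_rfl).trans ?_
  rw [one_div_pow, ← pow_mul, ← add_div, div_le_div_iff₀ (by positivity) (by positivity), one_mul]
  calc _ ≤ (Fintype.card F : ℝ) ^ 1 * (Fintype.card F : ℝ) ^ (c * 2 ^ (I + 2)) := by
        gcongr; linarith
    _ ≤ _ := by rw [← pow_add]; exact pow_le_pow_right₀ hq1 (by omega)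

theorem params {R m H p : ℕ} (hm : 16 * R + 1 ≤ m) (hH : 64 * (m + 1) ≤ H) (h1 : 7 * H ≤ p)
    (h2 : p ≤ R * H) {ρ : ℕ} (hρ : 64 * (m * ρ + ρ) ≤ H) : ∃ r δ δ' ρz : ℕ, 1 ≤ r ∧
      m * ρ + ρ ≤ δ ∧ r + δ + ρ ≤ H + 1 ∧ r + δ' + ρ ≤ H + 1 ∧ r + δ' + ρz ≤ H + 1 ∧
      p + 1 ≤ 4 * (m * r + r) ∧ p + 1 ≤ 3 * δ' + 2 * (m * r) + 4 * r ∧
      2 * (r + δ + (m * r + (m * ρ + ρ))) + ρ + 2 * (r + δ') ≤ p ∧
      p < 2 * (r + δ + m * r) + 2 * (r + δ') + ρz := by
  generalize m * ρ = T at hρ ⊢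
  obtain ⟨A, hA⟩ : ∃ A, A + (2 * (H / 8) + 2 * (H / 2) + 2 * (T + ρ) + ρ) = p :=
    ⟨p - (2 * (H / 8) + 2 * (H / 2) + 2 * (T + ρ) + ρ), by omega⟩
  have a1 := Nat.div_mul_le_self A (2 * m)
  have a2 := Nat.lt_mul_div_succ A (b := 2 * m) (by omega)
  generalize A / (2 * m) = r at a1 a2
  have a3 : 2 * (m * r) ≤ A := by nlinarith
  have a4 : A < 2 * (m * r) + 2 * m := by nlinarith
  have a5 : 32 * r ≤ H := by
    rcases Nat.eq_zero_or_pos R with rfl | hR
    · omega
    · have := Nat.mul_le_mul_right r hm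
      refine Nat.le_of_mul_le_mul_left (c := R) ?_ hR
      calc R * (32 * r) ≤ 2 * ((16 * R + 1) * r) := by nlinarith
        _ ≤ _ := by omega
  have a6 : 1 ≤ r := by
    rcases Nat.eq_zero_or_pos r with rfl | hr
    · omega
    · exact hr
  refine ⟨r, H / 8 - r, H / 2 - r, H / 4, ?_⟩
  generalize m * r = U at *
  omega

end QSer

universe u

open QSer in
theorem ser_bound (R : ℕ) : ∃ C : ℕ, 0 < C ∧ ∃ H₀ : ℕ, ∀ H, H₀ ≤ H →
    ∀ (F : Type u) [Field F] [Fintype F] [CharP F 2] (e : F → ℝ), Chr e →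
    ∀ (K M x₀ : PowerSeries F) (κ : F) (p : ℕ), PowerSeries.constantCoeff K ≠ 0 →
      PowerSeries.constantCoeff M ≠ 0 → PowerSeries.constantCoeff x₀ ≠ 0 → Odd p → 7 * H ≤ p →
      p ≤ R * H → |𝔼 γ : degreeLT F H, e (PowerSeries.coeff p
        (K ^ 2 * psi κ (x₀ + M * PowerSeries.X * (γ.1 : PowerSeries F))))| ≤
        1 / (Fintype.card F : ℝ) ^ (H / C) := by
  obtain ⟨I, m, hm, hR⟩ : ∃ I m : ℕ, m + 1 = 2 ^ I ∧ 16 * R + 1 ≤ m := by
    have := Nat.lt_two_pow_self (n := 16 * R + 1)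
    exact ⟨16 * R + 1, 2 ^ (16 * R + 1) - 1, by omega, by omega⟩
  refine ⟨64 * (m + 1) * 4 * 2 ^ (I + 2), by positivity, 64 * (m + 1) * (2 * I + 8),
    fun H hH F _ _ _ e he K M x₀ κ p hK hM hx hp h1 h2 => ?_⟩
  have hρ : 2 * I + 8 ≤ H / (64 * (m + 1)) :=
    (Nat.le_div_iff_mul_le (by omega)).2 (by rwa [mul_comm])
  have hρ' := Nat.div_mul_le_self H (64 * (m + 1))
  rw [← Nat.div_div_eq_div_mul, ← Nat.div_div_eq_div_mul]
  generalize H / (64 * (m + 1)) = ρ at hρ hρ' ⊢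
  obtain ⟨r, δ, δ', ρz, a0, a1, a2, a3, a4, a5, a6, a7, a8⟩ := params (ρ := ρ) hR
    (le_trans (Nat.le_mul_of_pos_right _ (by omega)) hH) h1 h2 (by nlinarith)
  have hc : (univ.map (Function.Embedding.inl : Fin I ↪ Fin I ⊕ Fin 3)).card = I := by simp
  have := ser_aux (O := univ.map (Function.Embedding.inl : Fin I ↪ Fin I ⊕ Fin 3))
    (w := Sum.inr 0) (y := Sum.inr 1) (z := Sum.inr 2) (by simp) (by simp) (by simp) he κ hK hM hx
    hp a0 (by rw [hc, hm]) a1 (ρ' := (ρ - 1) / 2) (by omega) a2 a3 a4 a5 a6 a7 a8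
  rw [hc] at this
  exact fin_bound (abs_nonneg _) hm hρ (Nat.div_mul_le_self _ _) this

end Pool.Agent.MP_f37147_nt

end

section

/- The phase at infinity as a coefficient of a power series. -/

set_option autoImplicit false

namespace Pool.Agent.MP_f37147_nt

open Polynomial Finset Pool.Agent.MP_4fffd4_nt Pool.Agent.MP_c853c5_nt
open scoped BigOperators

universe u

namespace QRat

variable {F : Type*} [Field F]

theorem const_reverse {b : F[X]} (hb : b.Monic) :
    PowerSeries.constantCoeff (b.reverse : PowerSeries F) = 1 := by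
  rw [← PowerSeries.coeff_zero_eq_constantCoeff_apply, coeff_coe, coeff_zero_reverse,
    hb.leadingCoeff]

theorem res_eq {a b : F[X]} {N : ℕ} (hb : b.Monic) (ha : a.natDegree ≤ N) (h1 : 0 < b.natDegree)
    (hn : b.natDegree ≤ N) :
    SFour.res a b = PowerSeries.coeff (N + 1 - b.natDegree)
      ((reflect N a : PowerSeries F) * (b.reverse : PowerSeries F)⁻¹) := by
  have hq : (a /ₘ b).natDegree ≤ N - b.natDegree := by
    rw [natDegree_divByMonic a hb]; omega
  have hr : (a %ₘ b).natDegree ≤ b.natDegree - 1 := by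
    have := natDegree_modByMonic_lt a hb (fun e => by rw [e, natDegree_one] at h1; omega)
    omega
  have e1 : reflect N (b * (a /ₘ b)) = b.reverse * reflect (N - b.natDegree) (a /ₘ b) := by
    have := reflect_mul b (a /ₘ b) le_rfl hq
    rwa [show b.natDegree + (N - b.natDegree) = N by omega] at this
  have e2 : reflect N (a %ₘ b) =
      X ^ (N + 1 - b.natDegree) * reflect (b.natDegree - 1) (a %ₘ b) := by
    have := reflect_mul (1 : F[X]) (a %ₘ b) (F := N + 1 - b.natDegree) (by simp) hr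
    rwa [show N + 1 - b.natDegree + (b.natDegree - 1) = N by omega, one_mul, reflect_one] at this
  have e3 : reflect N a = X ^ (N + 1 - b.natDegree) * reflect (b.natDegree - 1) (a %ₘ b) +
      b.reverse * reflect (N - b.natDegree) (a /ₘ b) := by
    rw [← e1, ← e2, ← reflect_add, modByMonic_add_div]
  have hc : PowerSeries.constantCoeff (b.reverse : PowerSeries F) ≠ 0 := by
    rw [const_reverse hb]; exact one_ne_zero
  have e4 : (reflect N a : PowerSeries F) * (b.reverse : PowerSeries F)⁻¹ =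
      PowerSeries.X ^ (N + 1 - b.natDegree) *
        ((reflect (b.natDegree - 1) (a %ₘ b) : PowerSeries F) * (b.reverse : PowerSeries F)⁻¹) +
      (reflect (N - b.natDegree) (a /ₘ b) : PowerSeries F) := by
    rw [e3, Polynomial.coe_add, Polynomial.coe_mul, Polynomial.coe_mul, Polynomial.coe_pow, coe_X]
    linear_combination (reflect (N - b.natDegree) (a /ₘ b) : PowerSeries F) *
      PowerSeries.mul_inv_cancel _ hc
  rw [e4, map_add, coeff_coe, coeff_reflect, revAt_eq_self_of_lt (by omega),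
    coeff_eq_zero_of_natDegree_lt (by omega), add_zero, PowerSeries.coeff_X_pow_mul',
    if_pos le_rfl, Nat.sub_self, PowerSeries.coeff_zero_eq_constantCoeff_apply, map_mul,
    PowerSeries.constantCoeff_inv, const_reverse hb, inv_one, mul_one,
    ← PowerSeries.coeff_zero_eq_constantCoeff_apply, coeff_coe, coeff_reflect, revAt_zero]
  rfl

theorem reflect_der [CharP F 2] {s : F[X]} {k : ℕ} (hk : s.natDegree = k) (h0 : 0 < k) :
    (reflect (k - 1) (derivative s) : PowerSeries F) = eul (k : F) (s.reverse : PowerSeries F) := by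
  have h2 : (2 : F) = 0 := by exact_mod_cast CharP.cast_eq_zero F 2
  have key : ∀ j, PowerSeries.coeff j (eul (k : F) (s.reverse : PowerSeries F)) =
      ((k : F) + j) * s.coeff (revAt k j) := by
    intro j
    rw [eul, map_add, PowerSeries.coeff_C_mul, coeff_coe, coeff_reverse, hk]
    rcases j with _ | j
    · simp
    · rw [PowerSeries.coeff_succ_X_mul, PowerSeries.coeff_derivative, coeff_coe, coeff_reverse, hk]
      push_cast
      ring
  ext j
  rw [key, coeff_coe, coeff_reflect, coeff_derivative]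
  rcases lt_trichotomy j k with h | h | h
  · rw [revAt_le (by omega), revAt_le h.le, show k - 1 - j + 1 = k - j by omega,
      Nat.cast_sub (by omega), Nat.cast_sub (by omega)]
    push_cast
    linear_combination (-(j : F) * s.coeff (k - j)) * h2
  · subst h
    rw [revAt_eq_self_of_lt (by omega), coeff_eq_zero_of_natDegree_lt (by omega)]
    linear_combination (-(j : F) * s.coeff (revAt j j)) * h2
  · rw [revAt_eq_self_of_lt (by omega), revAt_eq_self_of_lt h,
      coeff_eq_zero_of_natDegree_lt (by omega), coeff_eq_zero_of_natDegree_lt (by omega)]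
    simp

theorem le_of_LT {H : ℕ} (hH : 0 < H) (γ : degreeLT F H) : γ.1.natDegree ≤ H - 1 := by
  by_cases h : γ.1 = 0
  · rw [h, natDegree_zero]; omega
  · have := (natDegree_lt_iff_degree_lt h).2 (mem_degreeLT.1 γ.2)
    omega

/-- Reflection of the polynomials of degree less than `H`. -/
noncomputable def rf {H : ℕ} (hH : 0 < H) (γ : degreeLT F H) : degreeLT F H :=
  ⟨reflect (H - 1) γ.1, mem_degreeLT.2 (degree_le_natDegree.trans_lt (by
    have h1 := natDegree_reflect_le (N := H - 1) (p := γ.1)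
    have h2 := le_of_LT hH γ
    exact_mod_cast (by omega)))⟩

theorem rf_bij {H : ℕ} (hH : 0 < H) : Function.Bijective (rf (F := F) hH) :=
  Function.Involutive.bijective fun _ => Subtype.ext reflect_reflect

end QRat

theorem phi_eq_coeff {F : Type*} [Field F] [CharP F 2] {b : F} (hb : b ≠ 0) {m s : F[X]} {k : ℕ}
    (hm : m.Monic) (hs : s.Monic) (hk : s.natDegree = k) (hmk : m.natDegree < k) :
    phi b m s = PowerSeries.coeff (2 * k - 2 * m.natDegree - 1)
      ((PowerSeries.C b * (m.reverse : PowerSeries F))⁻¹ ^ 2 *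
        psi (k : F) (s.reverse : PowerSeries F)) := by
  have hd : (derivative s).natDegree ≤ k - 1 := hk ▸ natDegree_derivative_le s
  have hn : (m ^ 2 * s).natDegree = 2 * m.natDegree + k := by
    rw [(hm.pow 2).natDegree_mul hs, hm.natDegree_pow, hk]
  have h2 : (derivative s * derivative s).natDegree ≤ (k - 1) + (k - 1) :=
    natDegree_mul_le.trans (add_le_add hd hd)
  have h3 : (derivative s * derivative s * derivative s).natDegree ≤ (k - 1) + (k - 1) + (k - 1) :=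
    natDegree_mul_le.trans (add_le_add h2 hd)
  have e0 : C (b⁻¹ ^ 2) * X * derivative s ^ 3 =
      C (b⁻¹ ^ 2) * (X * (derivative s * derivative s * derivative s)) := by ring
  have h4 : (C (b⁻¹ ^ 2) * X * derivative s ^ 3).natDegree ≤ 1 + ((k - 1) + (k - 1) + (k - 1)) := by
    rw [e0]
    exact (natDegree_C_mul_le _ _).trans (natDegree_mul_le.trans (add_le_add natDegree_X_le h3))
  rw [phi, QRat.res_eq ((hm.pow 2).mul hs) h4 (by omega) (by omega), hn,
    show 1 + ((k - 1) + (k - 1) + (k - 1)) + 1 - (2 * m.natDegree + k) =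
      2 * k - 2 * m.natDegree - 1 by omega, e0, reflect_C_mul, reflect_mul _ _ natDegree_X_le h3,
    reflect_mul _ _ h2 hd, reflect_mul _ _ hd hd, reflect_one_X, one_mul, sq m,
    reverse_mul_of_domain, reverse_mul_of_domain]
  simp only [Polynomial.coe_mul, coe_C, map_pow, Polynomial.coe_pow]
  rw [QRat.reflect_der hk (by omega), PowerSeries.mul_inv_rev, PowerSeries.mul_inv_rev,
    PowerSeries.mul_inv_rev, PowerSeries.C_inv, psi]
  congr 1
  ring

theorem inf_bound (R : ℕ) : ∃ C : ℕ, 0 < C ∧ ∃ H₀ : ℕ, ∀ H, H₀ ≤ H →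
    ∀ (F : Type u) [Field F] [Fintype F] [CharP F 2] (e : F → ℝ), Chr e →
    ∀ (b : F) (m s M : F[X]) (k : ℕ), b ≠ 0 → m.Monic → s.Monic → M.Monic → s.natDegree = k →
      M.natDegree + H = k → 8 * H ≤ k → k ≤ R * H → 2 * m.natDegree ≤ k →
      |𝔼 γ : degreeLT F H, e (phi b m (s + M * γ.1))| ≤ 1 / (Fintype.card F : ℝ) ^ (H / C) := by
  obtain ⟨C, hC, H₀, h⟩ := ser_bound.{u} (2 * R)
  refine ⟨C, hC, max H₀ 1, fun H hH F _ _ _ e he b m s M k hb hm hs hM hk hMk h8 hR hmk => ?_⟩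
  have hH0 : 0 < H := le_trans (le_max_right _ _) hH
  have hK : PowerSeries.constantCoeff (PowerSeries.C b * (m.reverse : PowerSeries F))⁻¹ ≠ 0 := by
    rw [PowerSeries.constantCoeff_inv, map_mul, QRat.const_reverse hm, mul_one,
      PowerSeries.constantCoeff_C]
    exact inv_ne_zero hb
  have h1 := h H (le_trans (le_max_left _ _) hH) F e he
    (PowerSeries.C b * (m.reverse : PowerSeries F))⁻¹ (M.reverse : PowerSeries F)
    (s.reverse : PowerSeries F) (k : F) (2 * k - 2 * m.natDegree - 1) hK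
    (by rw [QRat.const_reverse hM]; exact one_ne_zero)
    (by rw [QRat.const_reverse hs]; exact one_ne_zero)
    ⟨k - m.natDegree - 1, by omega⟩ (by omega) (by rw [mul_assoc]; omega)
  refine le_of_eq_of_le (congrArg _ (Fintype.expect_bijective _ (QRat.rf_bij hH0) _ _
    fun γ => ?_)) h1
  have hγ := QRat.le_of_LT hH0 γ
  have hlt : (M * γ.1).degree < s.degree := by
    refine degree_lt_degree (natDegree_mul_le.trans_lt ?_)
    omega
  have hdeg : (s + M * γ.1).natDegree = k := by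
    rw [← hk]
    exact natDegree_eq_of_degree_eq (degree_add_eq_left_of_degree_lt hlt)
  have e1 : reflect H γ.1 = X * reflect (H - 1) γ.1 := by
    have := reflect_mul (1 : F[X]) γ.1 (F := 1) (by simp) hγ
    rwa [show 1 + (H - 1) = H by omega, one_mul, reflect_one, pow_one] at this
  have e2 : (s + M * γ.1).reverse = s.reverse + M.reverse * X * reflect (H - 1) γ.1 := by
    rw [reverse, hdeg, reflect_add, reverse, hk, ← hMk, reflect_mul _ _ le_rfl (by omega), e1,
      reverse, mul_assoc]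
  rw [phi_eq_coeff hb hm (hs.add_of_left hlt) hdeg (by omega), e2, Polynomial.coe_add,
    Polynomial.coe_mul, Polynomial.coe_mul, coe_X]
  rfl

end Pool.Agent.MP_f37147_nt

end

section

/- The sifted set in residue classes. -/

set_option autoImplicit false

namespace Pool.Agent.MP_f37147_nt

open Polynomial Finset Pool.Agent.MP_4fffd4_nt Pool.Agent.MP_c853c5_nt
open scoped BigOperators

variable {F : Type*} [Field F] [Fintype F] [CharP F 2]

namespace QPairA

omit [Fintype F] in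
theorem dsq (f g : F[X]) : derivative (f ^ 2 * g) = f ^ 2 * derivative g := by
  have h2F : (2 : F[X]) = 0 := by exact_mod_cast CharP.cast_eq_zero F[X] 2
  rw [derivative_mul, derivative_sq, map_ofNat, h2F]
  ring

omit [Fintype F] [CharP F 2] in
theorem normal {a : F[X]} (ha : a ≠ 0) : ∃ l : F, l ≠ 0 ∧ ∃ a₁ : F[X], a₁.Monic ∧ a = C l * a₁ := by
  have h := leadingCoeff_ne_zero.2 ha
  refine ⟨a.leadingCoeff, h, a * C a.leadingCoeff⁻¹, monic_mul_leadingCoeff_inv ha, ?_⟩
  rw [mul_comm, mul_assoc, ← C_mul, inv_mul_cancel₀ h, C_1, mul_one]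

omit [Fintype F] [CharP F 2] in
theorem crt {d e : F[X]} (hd : d.Monic) (he : e.Monic) (h : IsCoprime d e) (x₀ : F[X]) :
    ∃ x : F[X], x.degree < (d * e).degree ∧ d ∣ x - x₀ ∧ e ∣ x := by
  obtain ⟨u, v, huv⟩ := h
  have h1 := modByMonic_add_div (x₀ * v * e) (d * e)
  refine ⟨(x₀ * v * e) %ₘ (d * e), degree_modByMonic_lt _ (hd.mul he),
    ⟨-(x₀ * u) - e * (x₀ * v * e /ₘ (d * e)), ?_⟩, ⟨x₀ * v - d * (x₀ * v * e /ₘ (d * e)), ?_⟩⟩
  · linear_combination h1 + x₀ * huv
  · linear_combination h1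

omit [Fintype F] [CharP F 2] in
theorem monic_iff {m x h : F[X]} (hm : m.Monic) (hx : x.degree < m.degree) (h0 : h ≠ 0) :
    (x + m * h).leadingCoeff = h.leadingCoeff ∧
      (x + m * h).natDegree = h.natDegree + m.natDegree := by
  have h1 : x.degree < (m * h).degree := hx.trans_le (degree_le_mul_left m h0)
  refine ⟨?_, ?_⟩
  · rw [leadingCoeff_add_of_degree_lt h1, leadingCoeff_monic_mul hm]
  · rw [natDegree_add_eq_right_of_degree_lt h1, hm.natDegree_mul' h0, add_comm]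

omit [CharP F 2] in
open Classical in
/-- counting in a residue class -/
theorem card_class {m x : F[X]} (hm : m.Monic) (hx : x.degree < m.degree) (n : ℕ)
    (p : F[X] → Prop) :
    (((monF F (n + m.natDegree)).filter fun P => m ∣ P - x ∧ p P).card : ℝ) =
      ∑ h ∈ monF F n, ind (p (x + m * h)) := by
  have h1 : ((monF F n).filter fun h => p (x + m * h)).card =
      ((monF F (n + m.natDegree)).filter fun P => m ∣ P - x ∧ p P).card := by
    refine Finset.card_bij (fun h _ => x + m * h) (fun h hh => ?_) (fun h _ h' _ e => ?_)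
      fun P hP => ?_
    · obtain ⟨h2, h3⟩ := mem_filter.1 hh
      obtain ⟨h4, h5⟩ := mem_monF.1 h2
      obtain ⟨h6, h7⟩ := monic_iff hm hx h4.ne_zero
      exact mem_filter.2 ⟨mem_monF.2 ⟨h6.trans h4, by rw [h7, h5]⟩,
        ⟨h, add_sub_cancel_left _ _⟩, h3⟩
    · exact mul_left_cancel₀ hm.ne_zero (add_left_cancel e)
    · obtain ⟨h2, ⟨h, hh⟩, h3⟩ := mem_filter.1 hP
      obtain ⟨h4, h5⟩ := mem_monF.1 h2
      obtain rfl : P = x + m * h := by rw [← hh]; ring
      have h0 : h ≠ 0 := by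
        rintro rfl
        rw [mul_zero, add_zero] at h4 h5
        have := natDegree_lt_natDegree h4.ne_zero hx
        omega
      obtain ⟨h6, h7⟩ := monic_iff hm hx h0
      exact ⟨h, mem_filter.2 ⟨mem_monF.2 ⟨h6.symm.trans h4, by omega⟩, h3⟩, rfl⟩
  rw [← h1, Finset.card_filter]
  push_cast
  exact Finset.sum_congr rfl fun h _ => by unfold ind; congr

omit [CharP F 2] in
theorem sing_eq {a d b : F[X]} (ha : a ≠ 0) (hd : d ≠ 0) (hb : b ≠ 0) (S : Finset F[X])
    (hS : ∀ R ∈ S, R.Monic ∧ Irreducible R ∧ ¬ R ∣ d)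
    (h : ∀ P : F[X], P.Monic → Irreducible P → (P ∣ b ↔ P ∣ a * d ∨ P ∈ S)) :
    sing b = (Fintype.card F : ℝ) ^ (∑ R ∈ S, R.natDegree) * sing (a * d) * ∏ R ∈ S, gl a R := by
  classical
  have had := mul_ne_zero ha hd
  have h1 : pf b = pf (a * d) ∪ S \ pf (a * d) := by
    rw [Finset.union_sdiff_self_eq_union]
    ext P
    rw [mem_union, mem_pf hb, mem_pf had]
    constructor
    · rintro ⟨h2, h3, h4⟩
      exact ((h P h2 h3).1 h4).imp_left fun h5 => ⟨h2, h3, h5⟩
    · rintro (⟨h2, h3, h4⟩ | h2)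
      · exact ⟨h2, h3, (h P h2 h3).2 (Or.inl h4)⟩
      · obtain ⟨h3, h4, -⟩ := hS P h2
        exact ⟨h3, h4, (h P h3 h4).2 (Or.inr h2)⟩
  rw [mul_right_comm, ← Finset.prod_pow_eq_pow_sum, ← Finset.prod_mul_distrib, mul_comm]
  unfold sing
  rw [h1, Finset.prod_union Finset.disjoint_sdiff, Finset.sdiff_eq_filter, Finset.prod_filter]
  congr 1
  refine Finset.prod_congr rfl fun R hR => ?_
  obtain ⟨h2, h3, h4⟩ := hS R hR
  have h5 : (2 : ℝ) ≤ (Fintype.card F : ℝ) ^ R.natDegree :=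
    two_le_card.trans (le_self_pow₀ (one_le_two.trans two_le_card) h3.natDegree_pos.ne')
  have h6 : R ∈ pf (a * d) ↔ R ∣ a := by
    rw [mem_pf had]
    exact ⟨fun h7 => (h3.prime.dvd_or_dvd h7.2.2).resolve_right h4,
      fun h7 => ⟨h2, h3, h7.mul_right d⟩⟩
  unfold gl
  generalize (Fintype.card F : ℝ) ^ R.natDegree = y at h5
  have h8 : y ≠ 0 := by linarith
  have h9 : y - 1 ≠ 0 := by linarith
  by_cases h7 : R ∣ a
  · rw [if_neg (not_not.2 (h6.2 h7)), if_pos h7]
    field_simp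
  · rw [if_pos (mt h6.1 h7), if_neg h7]
    field_simp

end QPairA

open Classical in
theorem count_class {C n₀ : ℕ} (hcore : CoreSt F C n₀) {a c d x₀ y₀ : F[X]} (hd : d ≠ 0)
    (hsq : ¬ IsSquare (a * c)) (hcop : IsCoprime (x₀ * y₀) (a * d))
    (heq : a * x₀ ^ 2 + c = d * y₀) (S : Finset F[X])
    (hS : ∀ R ∈ S, R.Monic ∧ Irreducible R ∧ ¬ R ∣ c * d) {n n' : ℕ}
    (hn : n = n' + d.natDegree + ∑ R ∈ S, R.natDegree) (hn₀ : n₀ ≤ n')
    (h1 : a.natDegree + d.natDegree + 2 * ∑ R ∈ S, R.natDegree ≤ n' / C)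
    (h2 : c.natDegree ≤ n' / C) :
    |(2 * n + a.natDegree - d.natDegree : ℝ) *
        ((om a c d x₀ n).filter fun P => ∀ R ∈ S, R ∣ P).card -
      (Fintype.card F : ℝ) ^ (n - d.natDegree) * sing (a * d) * ∏ R ∈ S, gl a R| ≤
      (Fintype.card F : ℝ) ^ n' / (Fintype.card F : ℝ) ^ (n' / C) := by
  have h2F : (2 : F[X]) = 0 := by exact_mod_cast CharP.cast_eq_zero F[X] 2
  have ha : a ≠ 0 := by
    rintro rfl
    exact hsq ⟨0, by simp⟩
  obtain ⟨l, hl, a₁, ha₁, ea⟩ := QPairA.normal ha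
  obtain ⟨k, hk, d₁, hd₁, ed⟩ := QPairA.normal hd
  obtain ⟨e, he⟩ : ∃ e, e = ∏ R ∈ S, R := ⟨_, rfl⟩
  have hem : e.Monic := he ▸ monic_prod_of_monic _ _ fun R hR => (hS R hR).1
  have hed : e.natDegree = ∑ R ∈ S, R.natDegree :=
    he ▸ natDegree_prod_of_monic _ _ fun R hR => (hS R hR).1
  have hecd : IsCoprime e (c * d) := he ▸ IsCoprime.prod_left fun R hR =>
    (hS R hR).2.1.coprime_iff_not_dvd.2 (hS R hR).2.2
  have hdvd : ∀ P : F[X], (∀ R ∈ S, R ∣ P) ↔ e ∣ P := fun P => by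
    rw [he]
    refine ⟨fun h => Finset.prod_dvd_of_coprime (fun R hR R' hR' hne => ?_) h,
      fun h R hR => (Finset.dvd_prod_of_mem (fun R => R) hR).trans h⟩
    obtain ⟨b1, b2, -⟩ := hS R hR
    obtain ⟨b3, b4, -⟩ := hS R' hR'
    exact b2.coprime_iff_not_dvd.2 fun h' =>
      hne (eq_of_monic_of_associated b1 b3 (b2.associated_of_dvd b4 h'))
  have hd₁d : d₁ ∣ d := ⟨Polynomial.C k, by rw [ed, mul_comm]⟩
  have ha₁a : a₁ ∣ a := ⟨Polynomial.C l, by rw [ea, mul_comm]⟩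
  have hk' : Polynomial.C k * Polynomial.C k⁻¹ = 1 := by rw [← C_mul, mul_inv_cancel₀ hk, C_1]
  have hl' : Polynomial.C l * Polynomial.C l⁻¹ = 1 := by rw [← C_mul, mul_inv_cancel₀ hl, C_1]
  have hdd₁ : d ∣ d₁ := ⟨Polynomial.C k⁻¹, by rw [ed]; linear_combination -d₁ * hk'⟩
  have hde : IsCoprime d₁ e := (hecd.of_mul_right_right.of_isCoprime_of_dvd_right hd₁d).symm
  obtain ⟨x, hx, hx1, hx2⟩ := QPairA.crt hd₁ hem hde x₀
  obtain ⟨t, ht⟩ := hdd₁.trans hx1
  obtain ⟨y, hy⟩ : ∃ y, y = y₀ + a * d * t ^ 2 := ⟨_, rfl⟩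
  have hxy : a * x ^ 2 + c = d * y := by
    rw [hy, show x = x₀ + d * t by rw [← ht]; ring]
    linear_combination heq + a * x₀ * d * t * h2F
  have hda : a₁.natDegree = a.natDegree := by rw [ea, natDegree_C_mul hl]
  have hdd : d₁.natDegree = d.natDegree := by rw [ed, natDegree_C_mul hk]
  have hm := hd₁.mul hem
  have hmd : (d₁ * e).natDegree = d.natDegree + ∑ R ∈ S, R.natDegree := by
    rw [hd₁.natDegree_mul hem, hdd, hed]
  obtain ⟨a₂, ha₂⟩ : ∃ a₂, a₂ = a₁ * d₁ * e ^ 2 := ⟨_, rfl⟩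
  obtain ⟨c₂, hc₂⟩ : ∃ c₂, c₂ = Polynomial.C k * Polynomial.C l⁻¹ * y := ⟨_, rfl⟩
  have hm₂ : a₂.Monic := ha₂ ▸ (ha₁.mul hd₁).mul (hem.pow 2)
  have hd₂ : a₂.natDegree = a.natDegree + d.natDegree + 2 * ∑ R ∈ S, R.natDegree := by
    rw [ha₂, (ha₁.mul hd₁).natDegree_mul (hem.pow 2), ha₁.natDegree_mul hd₁, hem.natDegree_pow,
      hda, hdd, hed]
  have hy1 : IsCoprime (a * d) y := by
    rw [hy]
    exact hcop.of_mul_left_right.symm.add_mul_left_right _
  have hy2 : IsCoprime e y := by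
    obtain ⟨z, hz⟩ := hx2
    have b1 : IsCoprime e (d * y) := by
      rw [← hxy, hz, show a * (e * z) ^ 2 + c = c + e * (a * e * z ^ 2) by ring]
      exact hecd.of_mul_right_left.add_mul_left_right _
    exact b1.of_mul_right_right
  have hcop₂ : IsCoprime a₂ c₂ := by
    have b1 : IsCoprime a₂ y :=
      ha₂ ▸ (hy1.of_isCoprime_of_dvd_left (mul_dvd_mul ha₁a hd₁d)).mul_left hy2.pow_left
    refine b1.of_isCoprime_of_dvd_right ⟨Polynomial.C l * Polynomial.C k⁻¹, ?_⟩
    rw [hc₂]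
    linear_combination (-y) * hk' - y * Polynomial.C k * Polynomial.C k⁻¹ * hl'
  have hder : derivative (a₂ * c₂) ≠ 0 := by
    intro h0
    have b1 : Polynomial.C l ^ 2 * (a₂ * c₂) = e ^ 2 * ((a * x) ^ 2 * 1 + a * c) := by
      have b2 : a * d * y = Polynomial.C l * a₁ * (Polynomial.C k * d₁) * y := by rw [← ea, ← ed]
      rw [ha₂, hc₂]
      linear_combination (-(e ^ 2 * a)) * hxy - e ^ 2 * b2 +
        Polynomial.C l * a₁ * Polynomial.C k * d₁ * y * e ^ 2 * hl'
    have b3 := congrArg derivative b1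
    rw [QPairA.dsq, QPairA.dsq, derivative_add, QPairA.dsq, h0, derivative_one, mul_zero,
      mul_zero, zero_add] at b3
    exact mul_ne_zero (pow_ne_zero 2 hem.ne_zero) (derivative_ne_zero_iff.2 hsq) b3.symm
  have hdc : c₂.natDegree ≤ n' / C := by
    have b1 : c₂.natDegree ≤ y.natDegree := by
      rw [hc₂, ← C_mul]
      exact natDegree_C_mul_le _ _
    refine b1.trans ?_
    rcases eq_or_ne y 0 with h0 | h0
    · rw [h0, natDegree_zero]
      exact Nat.zero_le _
    have b2 := natDegree_mul hd h0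
    have b3 : x.natDegree ≤ (d₁ * e).natDegree := natDegree_le_natDegree hx.le
    have b4 := natDegree_add_le (a * x ^ 2) c
    have b5 : (a * x ^ 2).natDegree ≤ a.natDegree + 2 * x.natDegree :=
      natDegree_mul_le.trans (Nat.add_le_add_left natDegree_pow_le _)
    rw [hxy, b2] at b4
    rcases le_max_iff.1 b4 with b6 | b6 <;> omega
  have H := hcore n' hn₀ a₂ c₂ hm₂ hcop₂ hder (hd₂ ▸ h1) hdc
  have hcard : (((om a c d x₀ n).filter fun P => ∀ R ∈ S, R ∣ P).card : ℝ) = npr a₂ c₂ n' := by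
    have b1 : ((om a c d x₀ n).filter fun P => ∀ R ∈ S, R ∣ P) =
        (monF F (n' + (d₁ * e).natDegree)).filter fun P => d₁ * e ∣ P - x ∧
          ∃ Q, Irreducible Q ∧ a * P ^ 2 + c = d * Q := by
      ext P
      simp only [om, mem_filter, hdvd]
      rw [hmd, hn, add_assoc]
      constructor
      · rintro ⟨⟨b2, b3, b4⟩, b5⟩
        refine ⟨b2, hde.mul_dvd ?_ (dvd_sub b5 hx2), b4⟩
        have := dvd_sub (hd₁d.trans b3) hx1
        rwa [sub_sub_sub_cancel_right] at this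
      · rintro ⟨b2, b3, b4⟩
        refine ⟨⟨b2, hdd₁.trans ?_, b4⟩, ?_⟩
        · have := dvd_add ((dvd_mul_right d₁ e).trans b3) hx1
          rwa [sub_add_sub_cancel] at this
        · have := dvd_add ((dvd_mul_left e d₁).trans b3) hx2
          rwa [sub_add_cancel] at this
    have b2 := QPairA.card_class hm hx n' fun P => ∃ Q, Irreducible Q ∧ a * P ^ 2 + c = d * Q
    rw [b1]
    refine Eq.trans (by congr) (b2.trans ?_)
    unfold npr
    refine Finset.sum_congr rfl fun h _ => congrArg ind (propext ?_)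
    have b3 : a * (x + d₁ * e * h) ^ 2 + c =
        d * (Polynomial.C (l * k⁻¹) * (a₂ * h ^ 2 + c₂)) := by
      have b4 : a * d₁ = d * (Polynomial.C l * Polynomial.C k⁻¹ * a₁) := by
        rw [ea, ed]
        linear_combination (-(Polynomial.C l * a₁ * d₁)) * hk'
      rw [ha₂, hc₂, C_mul]
      linear_combination hxy + d₁ * e ^ 2 * h ^ 2 * b4 + a * x * d₁ * e * h * h2F -
        d * y * hk' - d * y * Polynomial.C k * Polynomial.C k⁻¹ * hl'
    have b5 : IsUnit (Polynomial.C (l * k⁻¹)) :=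
      isUnit_C.2 (mul_ne_zero hl (inv_ne_zero hk)).isUnit
    rw [b3, ← irreducible_isUnit_mul b5]
    exact ⟨fun ⟨Q, b6, b7⟩ => mul_left_cancel₀ hd b7 ▸ b6, fun b6 => ⟨_, b6, rfl⟩⟩
  have hsing := QPairA.sing_eq ha hd hm₂.ne_zero S
    (fun R hR => ⟨(hS R hR).1, (hS R hR).2.1, fun h => (hS R hR).2.2 (h.mul_left c)⟩)
    fun P p1 p2 => by
      have b1 : P ∣ e ↔ P ∈ S := by
        refine ⟨fun h => ?_, fun h => (hdvd e).2 dvd_rfl P h⟩
        obtain ⟨R, hR, h'⟩ := (p2.prime.dvd_finsetProd_iff fun R => R).1 (he ▸ h)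
        rwa [eq_of_monic_of_associated p1 (hS R hR).1 (p2.associated_of_dvd (hS R hR).2.1 h')]
      have b2 : a * d ∣ a₁ * d₁ :=
        mul_dvd_mul ⟨Polynomial.C l⁻¹, by rw [ea]; linear_combination -a₁ * hl'⟩ hdd₁
      rw [ha₂, p2.prime.dvd_mul (b := e ^ 2), p2.prime.dvd_pow_iff_dvd two_ne_zero, b1]
      exact or_congr_left ⟨fun h => h.trans (mul_dvd_mul ha₁a hd₁d), fun h => h.trans b2⟩
  rw [hsing, hd₂, ← hcard] at H
  rw [show n - d.natDegree = n' + ∑ R ∈ S, R.natDegree by omega, pow_add]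
  convert H using 3
  · rw [hn]
    push_cast
    ring
  · ring

end Pool.Agent.MP_f37147_nt

end

section

/- Divisors of degree at most `n`. -/

set_option autoImplicit false

namespace Pool.Agent.MP_f37147_nt

open Polynomial Finset Pool.Agent.MP_4fffd4_nt Pool.Agent.MP_c853c5_nt
open scoped BigOperators

namespace QMainTerm

theorem step {y B s s' : ℝ} {d : ℕ} {m m' : ℕ → ℝ} (hy : 0 < y) (hy' : y ≤ 3 / 4) (hd : 1 ≤ d)
    (h1 : ∀ i, i < d → m' i = m i) (h2 : ∀ i, m' (d + i) = m (d + i) + y ^ (2 * d) * m' i)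
    (hs : s' = s + y ^ (2 * d) * s') (hs' : |s'| ≤ 4 * B)
    (h : ∀ n, |∑ i ∈ range (n + 1), m i| ≤ B * y ^ n ∧
      |s + ∑ i ∈ range (n + 1), i * m i| ≤ (n + 1) * B * y ^ n) (n : ℕ) :
    |∑ i ∈ range (n + 1), m' i| ≤ 4 * B * y ^ n ∧
      |s' + ∑ i ∈ range (n + 1), i * m' i| ≤ (n + 1) * (4 * B) * y ^ n := by
  have hB : 0 ≤ B := by linarith [abs_nonneg s']
  have hyd : y ^ d ≤ 3 / 4 := (pow_le_of_le_one hy.le (by linarith) (by omega)).trans hy'
  induction n using Nat.strong_induction_on with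
  | _ n IH =>
  obtain ⟨a1, a2⟩ := h n
  have hn : 0 < y ^ n := by positivity
  have hBn : 0 ≤ B * y ^ n := by positivity
  have hn0 : (0 : ℝ) ≤ n := Nat.cast_nonneg n
  by_cases hlt : n < d
  · have e : ∀ i ∈ range (n + 1), m' i = m i := fun i hi => h1 i (by have := mem_range.1 hi; omega)
    rw [Finset.sum_congr rfl e, Finset.sum_congr (f := fun i : ℕ => i * m' i)
      (g := fun i : ℕ => i * m i) rfl fun i hi => by rw [e i hi]]
    refine ⟨by linarith, ?_⟩
    have b1 : y ^ (2 * d) ≤ 3 / 4 * y ^ n := by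
      rw [two_mul, pow_add]
      exact mul_le_mul hyd (pow_le_pow_of_le_one hy.le (by linarith) hlt.le) (by positivity)
        (by norm_num)
    have b2 : |y ^ (2 * d) * s'| ≤ 3 / 4 * y ^ n * (4 * B) := by
      rw [abs_mul, abs_of_pos (by positivity)]
      exact mul_le_mul b1 hs' (abs_nonneg _) (by positivity)
    rw [hs, add_right_comm]
    refine (abs_add_le _ _).trans ?_
    nlinarith [mul_nonneg hn0 hBn]
  · obtain ⟨k, rfl⟩ : ∃ k, n = d + k := ⟨n - d, by omega⟩
    obtain ⟨c1, c2⟩ := IH k (by omega)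
    have e1 : ∑ i ∈ range (d + k + 1), m' i =
        ∑ i ∈ range (d + k + 1), m i + y ^ (2 * d) * ∑ i ∈ range (k + 1), m' i := by
      rw [add_assoc, Finset.sum_range_add, Finset.sum_range_add m, Finset.mul_sum, add_assoc,
        ← Finset.sum_add_distrib, Finset.sum_congr rfl fun i hi => h1 i (mem_range.1 hi)]
      simp only [h2]
    have e2 : ∑ i ∈ range (d + k + 1), i * m' i = ∑ i ∈ range (d + k + 1), i * m i +
        y ^ (2 * d) * (∑ i ∈ range (k + 1), i * m' i + d * ∑ i ∈ range (k + 1), m' i) := by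
      rw [add_assoc, Finset.sum_range_add, Finset.sum_range_add fun i : ℕ => i * m i,
        Finset.mul_sum, ← Finset.sum_add_distrib, Finset.mul_sum, add_assoc,
        ← Finset.sum_add_distrib, Finset.sum_congr (g := fun i : ℕ => i * m i) rfl
          fun i hi => by rw [h1 i (mem_range.1 hi)]]
      congr 1
      refine Finset.sum_congr rfl fun i _ => ?_
      rw [h2]; push_cast; ring
    have b0 : y ^ (2 * d) * y ^ k ≤ 3 / 4 * y ^ (d + k) := by
      rw [two_mul, pow_add, mul_assoc, ← pow_add]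
      exact mul_le_mul_of_nonneg_right hyd hn.le
    have hp : 0 < y ^ (2 * d) := by positivity
    have b1 : |y ^ (2 * d) * ∑ i ∈ range (k + 1), m' i| ≤ 4 * B * (3 / 4 * y ^ (d + k)) := by
      rw [abs_mul, abs_of_pos hp]
      calc _ ≤ y ^ (2 * d) * (4 * B * y ^ k) := by gcongr
        _ = 4 * B * (y ^ (2 * d) * y ^ k) := by ring
        _ ≤ _ := by gcongr
    have b2 : |y ^ (2 * d) * (s' + ∑ i ∈ range (k + 1), i * m' i)| ≤
        (k + 1) * (4 * B) * (3 / 4 * y ^ (d + k)) := by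
      rw [abs_mul, abs_of_pos hp]
      calc _ ≤ y ^ (2 * d) * ((k + 1) * (4 * B) * y ^ k) := by gcongr
        _ = (k + 1) * (4 * B) * (y ^ (2 * d) * y ^ k) := by ring
        _ ≤ _ := by gcongr
    refine ⟨by rw [e1]; exact (abs_add_le _ _).trans (by linarith), ?_⟩
    rw [e2, show s' + (∑ i ∈ range (d + k + 1), i * m i + y ^ (2 * d) *
      (∑ i ∈ range (k + 1), i * m' i + d * ∑ i ∈ range (k + 1), m' i)) =
      s + ∑ i ∈ range (d + k + 1), i * m i + y ^ (2 * d) * (s' + ∑ i ∈ range (k + 1), i * m' i) +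
      d * (y ^ (2 * d) * ∑ i ∈ range (k + 1), m' i) by linear_combination hs]
    refine (abs_add_le _ _).trans ((add_le_add (abs_add_le _ _) le_rfl).trans ?_)
    rw [abs_mul (d : ℝ), Nat.abs_cast]
    have b3 := mul_le_mul_of_nonneg_left b1 (Nat.cast_nonneg (α := ℝ) d)
    push_cast at a2 ⊢
    linarith

variable {F : Type*} [Field F] [Fintype F]

/-- The Moebius sum over polynomials prime to `S`. -/
noncomputable def MS (S : Finset F[X]) (i : ℕ) : ℝ :=
  ∑ D ∈ monF F i, mu D * ind (∀ P ∈ S, ¬ P ∣ D)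

theorem MS_lt [DecidableEq F] {S : Finset F[X]} {P : F[X]} {i : ℕ} (h : i < P.natDegree) :
    MS (insert P S) i = MS S i := by
  refine Finset.sum_congr rfl fun D hD => ?_
  obtain ⟨h1, h2⟩ := mem_monF.1 hD
  have : ¬ P ∣ D := fun e => by have := natDegree_le_of_dvd e h1.ne_zero; omega
  simp only [mem_insert, forall_eq_or_imp, this, not_false_eq_true, true_and]

theorem MS_add [DecidableEq F] {S : Finset F[X]} {P : F[X]} (hP : P.Monic) (hi : Irreducible P)
    (hS : ∀ R ∈ S, R.Monic ∧ Irreducible R) (hPS : P ∉ S) (i : ℕ) :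
    MS (insert P S) (P.natDegree + i) = MS S (P.natDegree + i) + MS (insert P S) i := by
  classical
  have h1 : ∑ D ∈ monF F (P.natDegree + i) with P ∣ D, mu D * ind (∀ R ∈ S, ¬ R ∣ D) =
      -MS (insert P S) i := by
    rw [MS, ← Finset.sum_neg_distrib]
    symm
    refine Finset.sum_bij (fun D _ => P * D) (fun D hD => ?_)
      (fun _ _ _ _ e => mul_left_cancel₀ hP.ne_zero e) (fun g hg => ?_) fun D hD => ?_
    · obtain ⟨h4, h5⟩ := mem_monF.1 hD
      rw [mem_filter, mem_monF, hP.natDegree_mul h4, h5]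
      exact ⟨⟨hP.mul h4, rfl⟩, dvd_mul_right _ _⟩
    · rw [mem_filter, mem_monF] at hg
      obtain ⟨⟨h4, h5⟩, e, rfl⟩ := hg
      have h6 := hP.of_mul_monic_left h4
      rw [hP.natDegree_mul h6] at h5
      exact ⟨e, mem_monF.2 ⟨h6, by omega⟩, rfl⟩
    · have h4 : ∀ R ∈ S, (R ∣ P * D ↔ R ∣ D) := fun R hR => ⟨fun h =>
        ((hS R hR).2.prime.dvd_or_dvd h).resolve_left fun e => hPS (eq_of_monic_of_associated
          (hS R hR).1 hP ((hS R hR).2.associated_of_dvd hi e) ▸ hR), fun h => h.mul_left _⟩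
      rw [SConv.mu_mul hi (mem_monF.1 hD).1.ne_zero,
        show (∀ R ∈ S, ¬ R ∣ P * D) = ∀ R ∈ S, ¬ R ∣ D from
          propext (forall₂_congr fun R hR => not_congr (h4 R hR))]
      split_ifs with h
      · rw [ind_neg fun e => e P (mem_insert_self _ _) h]; simp
      · simp only [mem_insert, forall_eq_or_imp, h, not_false_eq_true, true_and, neg_mul]
  rw [MS, MS, ← Finset.sum_filter_add_sum_filter_not _ (P ∣ ·),
    ← Finset.sum_filter_add_sum_filter_not (monF F (P.natDegree + i)) (P ∣ ·)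
      fun D => mu D * ind (∀ R ∈ S, ¬ R ∣ D), h1,
    Finset.sum_eq_zero fun D hD => by
      rw [ind_neg fun e => e P (mem_insert_self _ _) (mem_filter.1 hD).2, mul_zero],
    Finset.sum_congr (g := fun D => mu D * ind (∀ R ∈ S, ¬ R ∣ D)) rfl fun D hD => by
      simp only [mem_insert, forall_eq_or_imp, (mem_filter.1 hD).2, not_false_eq_true, true_and]]
  ring

theorem bound {y : ℝ} (hy : 0 < y) (hq : y ^ 2 * Fintype.card F = 1) (S : Finset F[X])
    (hS : ∀ R ∈ S, R.Monic ∧ Irreducible R) :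
    |∏ P ∈ S, (1 - y ^ (2 * P.natDegree))⁻¹| ≤ 4 ^ S.card ∧ ∀ n,
      |∑ i ∈ range (n + 1), y ^ (2 * i) * MS S i| ≤ 4 ^ S.card * y ^ n ∧
      |∏ P ∈ S, (1 - y ^ (2 * P.natDegree))⁻¹ + ∑ i ∈ range (n + 1), i * (y ^ (2 * i) * MS S i)| ≤
        (n + 1) * 4 ^ S.card * y ^ n := by
  classical
  have hq2 := two_le_card (F := F)
  have hy2 : y ^ 2 ≤ 1 / 2 := by nlinarith [sq_nonneg y]
  have hy' : y ≤ 3 / 4 := by nlinarith
  induction S using Finset.induction with
  | empty =>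
    have e : ∀ i, MS (∅ : Finset F[X]) i =
        if i = 0 then 1 else if i = 1 then -(Fintype.card F : ℝ) else 0 := fun i => by
      rw [← sum_mu_monF, MS]
      exact Finset.sum_congr rfl fun D _ => by rw [ind_pos (by simp), mul_one]
    refine ⟨by simp, fun n => ?_⟩
    rcases n with _ | n
    · simp [e]
    · simp only [Finset.sum_range_succ', e]
      simp [hq]
      constructor <;> positivity
  | insert P S hPS IH =>
    obtain ⟨h1, h2⟩ := IH fun R hR => hS R (mem_insert_of_mem hR)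
    obtain ⟨hP, hi⟩ := hS P (mem_insert_self _ _)
    have hd := hi.natDegree_pos
    have h3 : y ^ (2 * P.natDegree) ≤ 1 / 2 := by
      rw [pow_mul]
      exact (pow_le_of_le_one (by positivity) (by linarith) hd.ne').trans hy2
    have h4 : |∏ R ∈ insert P S, (1 - y ^ (2 * R.natDegree))⁻¹| ≤ 4 * 4 ^ S.card := by
      rw [Finset.prod_insert hPS, abs_mul]
      refine mul_le_mul ?_ h1 (abs_nonneg _) (by norm_num)
      rw [abs_of_pos (inv_pos.2 (by linarith)), inv_le_comm₀ (by linarith) (by norm_num)]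
      linarith
    rw [card_insert_of_notMem hPS, pow_succ']
    refine ⟨h4, step hy hy' hd (fun i hi => by rw [MS_lt hi]) (fun i => ?_) ?_ h4 h2⟩
    · rw [MS_add hP hi (fun R hR => hS R (mem_insert_of_mem hR)) hPS]
      ring
    · rw [Finset.prod_insert hPS]
      have : 1 - y ^ (2 * P.natDegree) ≠ 0 := by linarith
      field_simp
      ring

theorem cnt_eq [CharP F 2] {a c D : F[X]} (ha : a.Monic) (hac : IsCoprime a c) (hD : D.Monic)
    (hs : Squarefree D) (k : ℕ) :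
    cnt a c (k + D.natDegree) D = (Fintype.card F : ℝ) ^ k * ind (∀ P ∈ pf a, ¬ P ∣ D) := by
  classical
  by_cases h : IsCoprime D a
  · rw [ind_pos fun P hP e => ((mem_pf ha.ne_zero).1 hP).2.1.not_isUnit
      (h.isUnit_of_dvd' e ((mem_pf ha.ne_zero).1 hP).2.2), mul_one]
    obtain ⟨f, hf⟩ := sol_exists c hs h
    have h1 := QPairA.card_class hD (degree_modByMonic_lt f hD) k fun _ => True
    simp only [and_true, ind_pos trivial, Finset.sum_const, card_monF, nsmul_eq_mul, mul_one,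
      Finset.card_filter] at h1
    push_cast at h1
    rw [← h1, cnt]
    refine Finset.sum_congr rfl fun g _ => ?_
    have h2 : D ∣ f - f %ₘ D := ⟨f /ₘ D, by linear_combination -modByMonic_add_div f D⟩
    have h3 : D ∣ a * g ^ 2 + c ↔ D ∣ g - f %ₘ D := ⟨fun e => by
      simpa using dvd_add (sol_unique hs h e hf) h2, fun e => by
      have := dvd_add hf (((dvd_sub e h2).mul_left (g + f)).mul_left a)
      rwa [show a * f ^ 2 + c + a * ((g + f) * (g - f %ₘ D - (f - f %ₘ D))) = a * g ^ 2 + c by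
        ring] at this⟩
    rw [h3]
    unfold ind
    congr
  · rw [ind_neg fun e => h (isCoprime_of_monic ha.ne_zero fun P h1 h2 h3 h4 =>
      e P ((mem_pf ha.ne_zero).2 ⟨h1, h2, h4⟩) h3), mul_zero]
    exact Finset.sum_eq_zero fun g _ => ind_neg fun e => h (coprime_of_sol hac e)

end QMainTerm

variable {F : Type*} [Field F] [Fintype F] [CharP F 2]

open QMainTerm in
theorem main_term {a c : F[X]} (ha : a.Monic) (hac : IsCoprime a c) (n : ℕ) :
    |-∑ i ∈ range (n + 1), (i : ℝ) * RR a c n i - (Fintype.card F : ℝ) ^ n * sing a| ≤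
      8 * (n + 1) * 4 ^ a.natDegree * (Fintype.card F : ℝ) ^ n /
        (Fintype.card F : ℝ) ^ (n / 2) := by
  have hq := card_pos' (F := F)
  have hq2 := two_le_card (F := F)
  obtain ⟨y, hy, hy2⟩ : ∃ y : ℝ, 0 < y ∧ y ^ 2 * Fintype.card F = 1 :=
    ⟨(√(Fintype.card F))⁻¹, by positivity, by
      rw [inv_pow, Real.sq_sqrt hq.le, inv_mul_cancel₀ hq.ne']⟩
  have hy3 : ∀ i, y ^ (2 * i) = 1 / (Fintype.card F : ℝ) ^ i := fun i => by
    rw [pow_mul, eq_div_iff (by positivity), ← mul_pow, hy2, one_pow]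
  have h1 := ((bound hy hy2 (pf a) fun R hR =>
    ⟨((mem_pf ha.ne_zero).1 hR).1, ((mem_pf ha.ne_zero).1 hR).2.1⟩).2 n).2
  have h2 : ∀ i ∈ range (n + 1), (i : ℝ) * RR a c n i =
      (Fintype.card F : ℝ) ^ n * (i * (y ^ (2 * i) * MS (pf a) i)) := fun i hi => by
    obtain ⟨k, rfl⟩ : ∃ k, n = k + i := ⟨n - i, by have := mem_range.1 hi; omega⟩
    have : RR a c (k + i) i = (Fintype.card F : ℝ) ^ k * MS (pf a) i := by
      rw [RR, MS, Finset.mul_sum]
      refine Finset.sum_congr rfl fun D hD => ?_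
      obtain ⟨h3, rfl⟩ := mem_monF.1 hD
      by_cases hs : Squarefree D
      · rw [cnt_eq ha hac h3 hs]; ring
      · simp [mu, hs]
    rw [this, hy3]
    field_simp
    ring
  have h3 : (4 : ℝ) ^ (pf a).card ≤ 4 ^ a.natDegree := pow_le_pow_right₀ (by norm_num)
    (SLine.card_le_natDegree ha.ne_zero _ fun P hP => (mem_pf ha.ne_zero).1 hP)
  have h4 : y ^ n ≤ 1 / (Fintype.card F : ℝ) ^ (n / 2) := by
    rw [← hy3]
    exact pow_le_pow_of_le_one hy.le (by nlinarith [sq_nonneg y, sq_nonneg (y - 1)]) (by omega)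
  simp only [hy3] at h1 h2
  rw [Finset.sum_congr rfl h2, ← Finset.mul_sum, ← neg_add', abs_neg, ← mul_add, abs_mul,
    abs_of_pos (by positivity), add_comm]
  refine (mul_le_mul_of_nonneg_left h1 (by positivity)).trans ?_
  calc _ ≤ (Fintype.card F : ℝ) ^ n * (8 * (n + 1) * 4 ^ a.natDegree *
        (1 / (Fintype.card F : ℝ) ^ (n / 2))) := by
        gcongr
        have : (0 : ℝ) ≤ n := Nat.cast_nonneg n
        linarith
    _ = _ := by ring

end Pool.Agent.MP_f37147_nt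

end
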