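import Mathlib
import Pool.Agent.Mg.F43e117.G789a6f

section

/- A norm computation modulo eight. -/

set_option autoImplicit false

namespace Pool.Agent.MP_f37147_nt

open Polynomial Finset Pool.Agent.MP_4fffd4_nt Pool.Agent.MP_c853c5_nt
open scoped BigOperators

namespace QSwanA

variable {R : Type*} [CommRing R]

theorem res_add (a a' b : R[X]) : resR (a + a') b = resR a b + resR a' b := by
  rw [resR, add_modByMonic, coeff_add]; rfl

theorem res_sub (a a' b : R[X]) : resR (a - a') b = resR a b - resR a' b := by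
  rw [resR, sub_modByMonic, coeff_sub]; rfl

theorem res_C (c : R) (a b : R[X]) : resR (C c * a) b = c * resR a b := by
  rw [resR, resR, C_mul', smul_modByMonic, coeff_smul, smul_eq_mul]

theorem res_sum {ι : Type*} (s : Finset ι) (f : ι → R[X]) (b : R[X]) :
    resR (∑ i ∈ s, f i) b = ∑ i ∈ s, resR (f i) b := by
  classical
  induction s using Finset.induction_on with
  | empty => simp [resR]
  | insert i s hi ih => rw [sum_insert hi, sum_insert hi, res_add, ih]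

theorem res_congr {a a' b : R[X]} (hb : b.Monic) (h : b ∣ a - a') : resR a b = resR a' b := by
  rw [resR, resR, modByMonic_eq_of_dvd_sub hb h]

/-- `p` has degree at most `d` and the coefficient `c` in degree `d`. -/
structure Top (p : R[X]) (d : ℕ) (c : R) : Prop where
  le : p.natDegree ≤ d
  eq : p.coeff d = c

theorem Top.mul {p q : R[X]} {d e : ℕ} {c c' : R} (hp : Top p d c) (hq : Top q e c') :
    Top (p * q) (d + e) (c * c') :=
  ⟨natDegree_mul_le.trans (add_le_add hp.le hq.le), by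
    rw [coeff_mul_add_eq_of_natDegree_le hp.le hq.le, hp.eq, hq.eq]⟩

theorem Top.pow {p : R[X]} {d : ℕ} {c : R} (hp : Top p d c) (j : ℕ) :
    Top (p ^ j) (j * d) (c ^ j) := by
  induction j with
  | zero => exact ⟨by simp, by simp⟩
  | succ j ih => rw [pow_succ, pow_succ, Nat.succ_mul]; exact ih.mul hp

theorem Top.lift {p : R[X]} {d e : ℕ} {c : R} (hp : Top p d c) (h : d < e) : Top p e 0 :=
  ⟨hp.le.trans h.le, coeff_eq_zero_of_natDegree_lt (hp.le.trans_lt h)⟩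

theorem Top.monic {p : R[X]} (hp : p.Monic) {d : ℕ} (h : p.natDegree = d) : Top p d 1 :=
  ⟨h.le, h ▸ hp.coeff_natDegree⟩

theorem top_C (c : R) : Top (C c) 0 c := ⟨(natDegree_C c).le, coeff_C_zero⟩

theorem top_X : Top (X : R[X]) 1 1 := ⟨natDegree_X_le, coeff_X_one⟩

theorem Top.deriv {p : R[X]} {d : ℕ} (hp : Top p (d + 1) 1) : Top (derivative p) d (d + 1) :=
  ⟨(natDegree_derivative_le p).trans (by have := hp.le; omega), by
    rw [coeff_derivative, hp.eq, one_mul]⟩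

theorem prod_one_add (h8 : (8 : R) = 0) {ι : Type*} (s : Finset ι) (t : ι → R) :
    ∏ i ∈ s, (1 + 2 * t i) =
      1 + 2 * ∑ i ∈ s, t i + 2 * (∑ i ∈ s, t i) ^ 2 - 2 * ∑ i ∈ s, t i ^ 2 := by
  classical
  induction s using Finset.induction_on with
  | empty => simp
  | insert i s hi ih =>
    rw [prod_insert hi, sum_insert hi, sum_insert hi, ih]
    have h : ∃ e, (∑ i ∈ s, t i) ^ 2 - ∑ i ∈ s, t i ^ 2 = 2 * e := by
      clear ih hi
      induction s using Finset.induction_on with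
      | empty => exact ⟨0, by simp⟩
      | insert j s hj ih =>
        obtain ⟨e, he⟩ := ih
        exact ⟨e + t j * ∑ i ∈ s, t i, by
          rw [sum_insert hj, sum_insert hj]; linear_combination he⟩
    obtain ⟨e, he⟩ := h
    linear_combination 4 * t i * he + t i * e * h8

variable [Nontrivial R]

theorem res_of_lt {a b : R[X]} (hb : b.Monic) (h : a.degree < b.degree) :
    resR a b = a.coeff (b.natDegree - 1) := by
  rw [resR, (modByMonic_eq_self_iff hb).2 h]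

theorem res_mul (a : R[X]) {b g : R[X]} (hb : b.Monic) (hg : g.Monic) :
    resR (a * g) (b * g) = resR a b := by
  have h1 := degree_modByMonic_lt a hb
  rw [res_congr (a' := a %ₘ b * g) (hb.mul hg) ⟨a /ₘ b, by
    linear_combination -g * modByMonic_add_div a b⟩, res_of_lt (hb.mul hg) (by
      rw [hg.degree_mul, hg.degree_mul]
      exact WithBot.add_lt_add_right (degree_ne_bot.2 hg.ne_zero) h1), resR]
  by_cases h0 : b.natDegree = 0
  · have : a %ₘ b = 0 := by rw [eq_one_of_monic_natDegree_zero hb h0, modByMonic_one]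
    simp [this]
  rw [hb.natDegree_mul hg, show b.natDegree + g.natDegree - 1 = b.natDegree - 1 + g.natDegree by
    omega, coeff_mul_add_eq_of_natDegree_le _ le_rfl, hg.coeff_natDegree, mul_one]
  by_cases h2 : a %ₘ b = 0
  · simp [h2]
  have := natDegree_lt_natDegree h2 h1
  omega

theorem Top.res {a b : R[X]} {d : ℕ} {c : R} (h : Top a d c) (hb : b.Monic)
    (hd : b.natDegree = d + 1) : resR a b = c := by
  rw [res_of_lt hb (degree_lt_degree (by have := h.le; omega)), hd, Nat.add_sub_cancel, h.eq]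

theorem res_log {n : ℕ} (α : Fin n → R) (y : R[X]) :
    resR (y * derivative (∏ i, (X - C (α i)))) (∏ i, (X - C (α i))) = ∑ i, y.eval (α i) := by
  rw [derivative_prod_finset, mul_sum, res_sum]
  refine sum_congr rfl fun i _ => ?_
  rw [← mul_prod_erase _ _ (mem_univ i), derivative_X_sub_C, mul_one,
    res_mul _ (monic_X_sub_C _) (monic_prod_of_monic _ _ fun j _ => monic_X_sub_C _), resR,
    modByMonic_X_sub_C_eq_C_eval, natDegree_X_sub_C, coeff_C_zero]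

theorem one (h8 : (8 : R) = 0) {b b' : R} (hb : b * b' = 1) {m U μ₁ s y l : R[X]} {k n : ℕ}
    (hm : m.Monic) (hs : s.Monic) (hk : s.natDegree = k + 1) (hmk : m.natDegree ≤ k)
    (hU : U = m ^ 2 + 2 * μ₁) (hμ : μ₁.degree < (2 * m.natDegree : ℕ))
    (hl : l = X * m * derivative m - μ₁) (α : Fin n → R)
    (hα : s ^ 2 + C (b ^ 2) * X * m ^ 2 = ∏ i, (X - C (α i)))
    (hy : derivative (s ^ 2 + C (b ^ 2) * X * m ^ 2) = U * C (b ^ 2) * (1 + 2 * y)) :
    ∏ i, (1 + 2 * y.eval (α i)) =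
      1 + 2 * (k + 1) ^ 2 + 2 * (k + 1) - 2 * (k + 1) ^ 2 + 4 * (k + 1) * l.coeff (2 * m.natDegree)
        - 4 * (k + 1) ^ 3 + 12 * (k + 1) ^ 2 * l.coeff (2 * m.natDegree)
        - 12 * (k + 1) * l.coeff (2 * m.natDegree) ^ 2
        + 2 * b' ^ 2 * resR (derivative s ^ 2) U
        - b' ^ 4 * resR (C 4 * (s * derivative s ^ 3)) (U ^ 2)
        - 3 * b' ^ 2 * resR (C 4 * (derivative s ^ 2 * l)) (U ^ 2)
        + 4 * resR (C (b' ^ 2) * X * derivative s ^ 3) (m ^ 2 * s) := by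
  have h8' : (8 : R[X]) = 0 := by rw [← map_ofNat C 8, h8, map_zero]
  have hB : C b * C b' = (1 : R[X]) := by rw [← map_mul, hb, map_one]
  have hB2 : C b ^ 2 * C b' ^ 2 = (1 : R[X]) := by rw [← mul_pow, hB, one_pow]
  have hb2 : b ^ 2 * b' ^ 2 = 1 := by rw [← mul_pow, hb, one_pow]
  have c2 : C (2 : R) = 2 := map_ofNat C 2
  have c3 : C (3 : R) = 3 := map_ofNat C 3
  have c4 : C (4 : R) = 4 := map_ofNat C 4
  have p1 := res_log α y
  have p2 := res_log α (y ^ 2)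
  rw [← hα, hy] at p1 p2
  simp only [eval_pow] at p2
  rw [prod_one_add h8, ← p1, ← p2]
  clear p1 p2 hα
  set μ := m.natDegree with hμd
  have tm : Top m μ 1 := Top.monic hm rfl
  have ts : Top s (k + 1) 1 := Top.monic hs hk
  have td : Top (derivative s) k (k + 1) := ts.deriv
  have tβ := ((top_C (b ^ 2)).mul top_X).mul (tm.pow 2)
  have hμ' : μ₁.natDegree ≤ 2 * μ := natDegree_le_iff_degree_le.2 hμ.le
  have tl : Top l (2 * μ) (l.coeff (2 * μ)) := by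
    refine ⟨?_, rfl⟩
    rw [hl]
    refine (natDegree_sub_le _ _).trans (max_le ?_ hμ')
    rcases Nat.eq_zero_or_pos μ with h0 | h0
    · rw [eq_one_of_monic_natDegree_zero hm h0]; simp
    · have h1 := natDegree_derivative_le m
      have h2 := natDegree_mul_le (p := X * m) (q := derivative m)
      have h3 := (top_X.mul tm).le
      omega
  have hd2 : (2 * μ₁).degree < (m ^ 2).degree := by
    rw [← c2, C_mul', degree_eq_natDegree (hm.pow 2).ne_zero, hm.natDegree_pow]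
    exact (degree_smul_le _ _).trans_lt hμ
  have hUm : U.Monic := hU ▸ (hm.pow 2).add_of_left hd2
  have hUd : U.natDegree = 2 * μ := by
    rw [hU, natDegree_add_eq_left_of_degree_lt hd2, hm.natDegree_pow]
  have hs2 : (s ^ 2).natDegree = 2 * (k + 1) := by rw [hs.natDegree_pow, hk]
  have hβ : (C (b ^ 2) * X * m ^ 2).natDegree < (s ^ 2).natDegree := by
    have := tβ.le; omega
  have hGm : (s ^ 2 + C (b ^ 2) * X * m ^ 2).Monic := (hs.pow 2).add_of_left (degree_lt_degree hβ)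
  have hGd : (s ^ 2 + C (b ^ 2) * X * m ^ 2).natDegree = 2 * (k + 1) := by
    rw [natDegree_add_eq_left_of_natDegree_lt hβ, hs2]
  have hH : 2 * (U * y) = 2 * (C (b' ^ 2) * (s * derivative s) + l) := by
    simp only [derivative_add, derivative_mul, derivative_sq, derivative_C, derivative_X, map_pow,
      c2] at hy
    rw [hl, map_pow]
    linear_combination (-(C b' ^ 2)) * hy - hU -
      (U * (1 + 2 * y) - m ^ 2 - 2 * X * m * derivative m) * hB2
  have h4 : 4 * (C (b ^ 2) * X * m ^ 2) * m ^ 2 = 4 * C b ^ 2 * X * U ^ 2 := by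
    rw [hU, map_pow]
    linear_combination (-(2 * C b ^ 2 * X * (m ^ 2 * μ₁ + μ₁ ^ 2))) * h8'
  generalize l.coeff (2 * μ) = l₀ at tl ⊢
  generalize hβd : C (b ^ 2) * X * m ^ 2 = β at tβ hGm hGd h4 ⊢
  generalize derivative s = d at td hH ⊢
  generalize hGe : s ^ 2 + β = G at hGm hGd ⊢
  generalize hHe : C (b' ^ 2) * (s * d) + l = H at hH
  have hU2 := hUm.pow 2
  have hU2d : (U ^ 2).natDegree = 4 * μ := by rw [hUm.natDegree_pow, hUd]; ring
  have d1 : (U * G).natDegree = 2 * μ + 2 * (k + 1) := by rw [hUm.natDegree_mul hGm, hUd, hGd]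
  have d2 : (U ^ 2 * G).natDegree = 4 * μ + 2 * (k + 1) := by
    rw [hU2.natDegree_mul hGm, hU2d, hGd]
  have d3 : (U ^ 2 * s * G).natDegree = 4 * μ + (k + 1) + 2 * (k + 1) := by
    rw [(hU2.mul hs).natDegree_mul hGm, hU2.natDegree_mul hs, hU2d, hGd, hk]
  have r0 : resR H G = b' ^ 2 * (k + 1) := by
    rw [← hHe, res_add, res_C, (ts.mul td).res hGm (by omega),
      (tl.lift (e := 2 * k + 1) (by omega)).res hGm (by omega)]
    ring
  have r1 : 2 * resR (y * (U * C (b ^ 2) * (1 + 2 * y))) G =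
      2 * b ^ 2 * resR H G + 4 * b ^ 2 * resR (H * y) G := by
    rw [← res_C, ← res_C, ← res_C, ← res_add]
    congr 1
    simp only [map_mul, map_pow, c2, c4]
    linear_combination (C b ^ 2 * (1 + 2 * y)) * hH
  have r2 : 2 * resR (y * (U * C (b ^ 2) * (1 + 2 * y))) G -
      2 * resR (y ^ 2 * (U * C (b ^ 2) * (1 + 2 * y))) G =
      2 * b ^ 2 * resR H G + 2 * b ^ 2 * resR (H ^ 2) (U * G) -
        4 * b ^ 2 * resR (H ^ 3) (U ^ 2 * G) := by
    rw [← res_mul _ hGm hU2, ← res_mul (y ^ 2 * _) hGm hU2, ← res_mul H hGm hU2,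
      ← res_mul (H ^ 2) (hUm.mul hGm) hUm, show U * G * U = G * U ^ 2 by ring,
      mul_comm (U ^ 2) G, ← res_C, ← res_C, ← res_C, ← res_C, ← res_C, ← res_sub, ← res_add,
      ← res_sub]
    congr 1
    simp only [map_mul, map_pow, c2, c4]
    linear_combination (C b ^ 2 * (U ^ 2 + U * (U * y + H) -
      2 * ((U * y) ^ 2 + U * y * H + H ^ 2))) * hH
  have r4 : resR (H ^ 2) (U * G) =
      b' ^ 4 * (resR (d ^ 2) U - b ^ 2 * (k + 1) ^ 2) + 2 * b' ^ 2 * ((k + 1) * l₀) := by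
    have e : H ^ 2 = C (b' ^ 4) * (d ^ 2 * G - β * d ^ 2) + C (2 * b' ^ 2) * (s * d * l) +
        l ^ 2 := by
      rw [← hHe, ← hGe]; simp only [map_mul, map_pow, c2]; ring
    rw [e, res_add, res_add, res_C, res_C, res_sub, res_mul _ hUm hGm,
      (tβ.mul (td.pow 2)).res (hUm.mul hGm) (by omega),
      ((ts.mul td).mul tl).res (hUm.mul hGm) (by omega),
      ((tl.pow 2).lift (e := 2 * μ + 2 * k + 1) (by omega)).res (hUm.mul hGm) (by omega)]
    ring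
  have r6 : resR (β * s * d ^ 3) (U ^ 2 * G) =
      resR (β * d ^ 3) (U ^ 2 * s) - b ^ 4 * (k + 1) ^ 3 := by
    rw [← res_mul _ (hU2.mul hGm) hs, show U ^ 2 * G * s = U ^ 2 * s * G by ring,
      show β * s * d ^ 3 * s = β * d ^ 3 * G - β ^ 2 * d ^ 3 by rw [← hGe]; ring, res_sub,
      res_mul _ (hU2.mul hs) hGm,
      ((tβ.pow 2).mul (td.pow 3)).res ((hU2.mul hs).mul hGm) (by omega)]
    ring
  have r5 : resR (H ^ 3) (U ^ 2 * G) =
      b' ^ 6 * (resR (s * d ^ 3) (U ^ 2) - resR (β * s * d ^ 3) (U ^ 2 * G)) +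
        3 * b' ^ 4 * (resR (d ^ 2 * l) (U ^ 2) - b ^ 2 * (k + 1) ^ 2 * l₀) +
        3 * b' ^ 2 * ((k + 1) * l₀ ^ 2) := by
    have e : H ^ 3 = C (b' ^ 6) * (s * d ^ 3 * G - β * s * d ^ 3) +
        C (3 * b' ^ 4) * (d ^ 2 * l * G - β * d ^ 2 * l) + C (3 * b' ^ 2) * (s * d * l ^ 2) +
        l ^ 3 := by
      rw [← hHe, ← hGe]; simp only [map_mul, map_pow, c3]; ring
    rw [e, res_add, res_add, res_add, res_C, res_C, res_C, res_sub, res_sub, res_mul _ hU2 hGm,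
      res_mul _ hU2 hGm, ((tβ.mul (td.pow 2)).mul tl).res (hU2.mul hGm) (by omega),
      ((ts.mul td).mul (tl.pow 2)).res (hU2.mul hGm) (by omega),
      ((tl.pow 3).lift (e := 4 * μ + 2 * k + 1) (by omega)).res (hU2.mul hGm) (by omega)]
    ring
  have r7 : 4 * b' ^ 4 * resR (β * d ^ 3) (U ^ 2 * s) =
      4 * resR (C (b' ^ 2) * X * d ^ 3) (m ^ 2 * s) := by
    rw [← res_mul _ (hU2.mul hs) (hm.pow 2), ← res_mul _ ((hm.pow 2).mul hs) hU2,
      show m ^ 2 * s * U ^ 2 = U ^ 2 * s * m ^ 2 by ring, ← res_C, ← res_C]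
    congr 1
    simp only [map_mul, map_pow, c4]
    linear_combination (C b' ^ 4 * d ^ 3) * h4 + (4 * C b' ^ 2 * X * d ^ 3 * U ^ 2) * hB2
  rw [res_C 4, res_C 4]
  rw [r0] at r1 r2
  rw [r6] at r5
  rw [r4, r5] at r2
  generalize resR (y * (U * C (b ^ 2) * (1 + 2 * y))) G = P₁ at r1 r2 ⊢
  have q1 : 2 * P₁ = 2 * (k + 1) + 4 * (b ^ 2 * resR (H * y) G) := by
    linear_combination r1 + 2 * (k + 1) * hb2
  have q2 : 2 * P₁ ^ 2 = 2 * (k + 1) ^ 2 := by
    linear_combination (P₁ + (k + 1) + 2 * (b ^ 2 * resR (H * y) G)) * q1 +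
      ((k + 1) * (b ^ 2 * resR (H * y) G) + (b ^ 2 * resR (H * y) G) ^ 2) * h8
  linear_combination r2 + q2 + r7 + (2 * (k + 1) + 2 * b' ^ 2 * resR (d ^ 2) U +
    4 * (k + 1) * l₀ - 4 * b' ^ 4 * resR (s * d ^ 3) (U ^ 2) +
    4 * b' ^ 4 * resR (β * d ^ 3) (U ^ 2 * s) - 12 * b' ^ 2 * resR (d ^ 2 * l) (U ^ 2) -
    12 * (k + 1) * l₀ ^ 2 + (b ^ 2 * b' ^ 2 + 1) * (-2 * (k + 1) ^ 2 + 12 * (k + 1) ^ 2 * l₀) -
    4 * ((b ^ 2 * b' ^ 2) ^ 2 + b ^ 2 * b' ^ 2 + 1) * (k + 1) ^ 3) * hb2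

end QSwanA

open QSwanA in
theorem prod_cmp {R : Type*} [CommRing R] [Nontrivial R] (h8 : (8 : R) = 0) {b b' : R}
    (hb : b * b' = 1) {m U μ₁ g s₁ s₂ y₁ y₂ : R[X]} {k n : ℕ} (hm : m.Monic) (hs₁ : s₁.Monic)
    (hs₂ : s₂.Monic) (hk₁ : s₁.natDegree = k) (hk₂ : s₂.natDegree = k) (hmk : m.natDegree < k)
    (hU : U = m ^ 2 + 2 * μ₁) (hμ : μ₁.degree < (2 * m.natDegree : ℕ)) (hg : s₁ = s₂ + U ^ 2 * g)
    (α₁ α₂ : Fin n → R) (hα₁ : s₁ ^ 2 + C (b ^ 2) * X * m ^ 2 = ∏ i, (X - C (α₁ i)))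
    (hα₂ : s₂ ^ 2 + C (b ^ 2) * X * m ^ 2 = ∏ i, (X - C (α₂ i)))
    (hy₁ : derivative (s₁ ^ 2 + C (b ^ 2) * X * m ^ 2) = U * C (b ^ 2) * (1 + 2 * y₁))
    (hy₂ : derivative (s₂ ^ 2 + C (b ^ 2) * X * m ^ 2) = U * C (b ^ 2) * (1 + 2 * y₂)) :
    ∏ i, (1 + 2 * y₁.eval (α₁ i)) - ∏ i, (1 + 2 * y₂.eval (α₂ i)) =
      4 * (resR (C (b' ^ 2) * X * derivative s₁ ^ 3) (m ^ 2 * s₁) -
        resR (C (b' ^ 2) * X * derivative s₂ ^ 3) (m ^ 2 * s₂)) := by
  obtain ⟨k, rfl⟩ : ∃ j, k = j + 1 := ⟨k - 1, by omega⟩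
  have h8' : (8 : R[X]) = 0 := by rw [← map_ofNat C 8, h8, map_zero]
  have c2 : C (2 : R) = 2 := map_ofNat C 2
  have c4 : C (4 : R) = 4 := map_ofNat C 4
  have hd2 : (2 * μ₁).degree < (m ^ 2).degree := by
    rw [← c2, C_mul', degree_eq_natDegree (hm.pow 2).ne_zero, hm.natDegree_pow]
    exact (degree_smul_le _ _).trans_lt hμ
  have hUm : U.Monic := hU ▸ (hm.pow 2).add_of_left hd2
  rw [one h8 hb hm hs₁ hk₁ (by omega) hU hμ rfl α₁ hα₁ hy₁,
    one h8 hb hm hs₂ hk₂ (by omega) hU hμ rfl α₂ hα₂ hy₂]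
  have hd : derivative s₁ = derivative s₂ + 2 * (U * derivative U * g) + U ^ 2 * derivative g := by
    rw [hg, derivative_add, derivative_mul, derivative_sq, c2]; ring
  generalize X * m * derivative m - μ₁ = l
  have e1 : resR (derivative s₁ ^ 2) U = resR (derivative s₂ ^ 2) U :=
    res_congr hUm ⟨(2 * derivative U * g + U * derivative g) * (derivative s₁ + derivative s₂), by
      linear_combination (derivative s₁ + derivative s₂) * hd⟩
  generalize U * derivative U * g = w at hd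
  have e2 : resR (C 4 * (s₁ * derivative s₁ ^ 3)) (U ^ 2) =
      resR (C 4 * (s₂ * derivative s₂ ^ 3)) (U ^ 2) := by
    refine res_congr (hUm.pow 2) ⟨4 * (g * derivative s₁ ^ 3 + s₂ * derivative g *
      (derivative s₁ ^ 2 + derivative s₁ * (derivative s₂ + 2 * w) +
        (derivative s₂ + 2 * w) ^ 2)), ?_⟩
    rw [c4]
    linear_combination (4 * derivative s₁ ^ 3) * hg + (4 * s₂ * (derivative s₁ ^ 2 +
      derivative s₁ * (derivative s₂ + 2 * w) + (derivative s₂ + 2 * w) ^ 2)) * hd +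
      (s₂ * w * (3 * derivative s₂ ^ 2 + 6 * derivative s₂ * w + 4 * w ^ 2)) * h8'
  have e3 : resR (C 4 * (derivative s₁ ^ 2 * l)) (U ^ 2) =
      resR (C 4 * (derivative s₂ ^ 2 * l)) (U ^ 2) := by
    refine res_congr (hUm.pow 2)
      ⟨4 * l * derivative g * (derivative s₁ + (derivative s₂ + 2 * w)), ?_⟩
    rw [c4]
    linear_combination (4 * l * (derivative s₁ + (derivative s₂ + 2 * w))) * hd +
      (2 * l * (derivative s₂ * w + w ^ 2)) * h8'
  rw [e1, e2, e3]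
  ring

end Pool.Agent.MP_f37147_nt

end

section

/- The Liouville function of `s ^ 2 + X * w ^ 2` when `s` has the larger degree. -/

set_option autoImplicit false

namespace Pool.Agent.MP_f37147_nt

open Polynomial Finset Pool.Agent.MP_4fffd4_nt Pool.Agent.MP_c853c5_nt
open scoped BigOperators

namespace QSwanB

theorem map_resR {R S : Type*} [CommRing R] [CommRing S] [Nontrivial S] (f : R →+* S) (a : R[X])
    {b : R[X]} (hb : b.Monic) : f (resR a b) = resR (a.map f) (b.map f) := by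
  unfold resR
  rw [← map_modByMonic f hb, coeff_map, hb.natDegree_map]

theorem even_monic {R : Type*} [CommRing R] [Nontrivial R] (c : R) {s m : R[X]} (hs : s.Monic)
    (hm : m.Monic) (h : m.natDegree < s.natDegree) :
    (s ^ 2 + C c * X * m ^ 2).Monic ∧ (s ^ 2 + C c * X * m ^ 2).natDegree = 2 * s.natDegree := by
  have h1 : (C c * X * m ^ 2).natDegree < (s ^ 2).natDegree := by
    rw [mul_assoc]
    refine (natDegree_C_mul_le _ _).trans_lt ?_
    rw [monic_X.natDegree_mul (hm.pow 2), natDegree_X, hm.natDegree_pow, hs.natDegree_pow]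
    omega
  exact ⟨(hs.pow 2).add_of_left (degree_lt_degree h1),
    by rw [natDegree_add_eq_left_of_natDegree_lt h1, hs.natDegree_pow]⟩

theorem ring_cmp {R K : Type*} [CommRing R] [Field K] (ν : R →+* K)
    (hν : ∀ x, ν x = 0 → ((2 : ℕ) : R) ∣ x) (h8 : (8 : R) = 0) {b b' : R} (hb : b * b' = 1)
    {m U Z g s₁ s₂ : R[X]} {k n : ℕ} (hm : m.Monic) (hs₁ : s₁.Monic) (hs₂ : s₂.Monic)
    (hk₁ : s₁.natDegree = k) (hk₂ : s₂.natDegree = k) (hmk : m.natDegree < k) (hU : U.Monic)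
    (hUm : U.map ν = (m ^ 2).map ν) (hZ : Z.map ν = (C (b ^ 2)).map ν) (hg : s₁ = s₂ + U ^ 2 * g)
    (α₁ α₂ : Fin n → R) (hα₁ : s₁ ^ 2 + C (b ^ 2) * X * m ^ 2 = ∏ i, (X - C (α₁ i)))
    (hα₂ : s₂ ^ 2 + C (b ^ 2) * X * m ^ 2 = ∏ i, (X - C (α₂ i)))
    (hd : derivative (s₂ ^ 2 + C (b ^ 2) * X * m ^ 2) = U * Z) :
    (∏ i, (derivative (s₁ ^ 2 + C (b ^ 2) * X * m ^ 2)).eval (α₁ i)) *
        (1 + 4 * resR (C (b' ^ 2) * X * derivative s₂ ^ 3) (m ^ 2 * s₂)) =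
      (∏ i, (derivative (s₂ ^ 2 + C (b ^ 2) * X * m ^ 2)).eval (α₂ i)) *
        (1 + 4 * resR (C (b' ^ 2) * X * derivative s₁ ^ 3) (m ^ 2 * s₁)) := by
  have : Nontrivial R := ν.domain_nontrivial
  obtain ⟨μ₀, hμ₀⟩ := dvd_of_map_eq_zero ν hν (G := U - m ^ 2)
    (by rw [Polynomial.map_sub, hUm, sub_self])
  obtain ⟨y₀, hy₀⟩ := dvd_of_map_eq_zero ν hν (G := Z - C (b ^ 2))
    (by rw [Polynomial.map_sub, hZ, sub_self])
  push_cast at hμ₀ hy₀
  have hUd : U.natDegree = 2 * m.natDegree := by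
    rw [← hU.natDegree_map ν, hUm, (hm.pow 2).natDegree_map, hm.natDegree_pow]
  have hX : (X ^ (2 * m.natDegree) : R[X]).Monic := monic_X_pow _
  have hlt : (U - m ^ 2).degree < (X ^ (2 * m.natDegree) : R[X]).degree := by
    rw [degree_X_pow, ← hUd, ← degree_eq_natDegree hU.ne_zero]
    refine degree_sub_lt_left ?_ hU.ne_zero (by rw [hU.leadingCoeff, (hm.pow 2).leadingCoeff])
    rw [degree_eq_natDegree hU.ne_zero, degree_eq_natDegree (hm.pow 2).ne_zero, hUd,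
      hm.natDegree_pow]
  have hU' : U = m ^ 2 + 2 * (μ₀ %ₘ X ^ (2 * m.natDegree)) := by
    have h1 := (modByMonic_eq_self_iff hX).2 hlt
    rw [two_mul, ← add_modByMonic, ← two_mul, ← hμ₀, h1]
    ring
  have hbb : (C (b ^ 2) : R[X]) * C (b' ^ 2) = 1 := by
    rw [← map_mul, ← mul_pow, hb, one_pow, map_one]
  have hy₂ : derivative (s₂ ^ 2 + C (b ^ 2) * X * m ^ 2) =
      U * C (b ^ 2) * (1 + 2 * (C (b' ^ 2) * y₀)) := by
    rw [hd]
    linear_combination U * hy₀ - 2 * U * y₀ * hbb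
  obtain ⟨T, hT⟩ : ∃ T, derivative (s₁ ^ 2 + C (b ^ 2) * X * m ^ 2) =
      derivative (s₂ ^ 2 + C (b ^ 2) * X * m ^ 2) + 2 * U * T := by
    refine ⟨U * g * derivative s₂ + (s₂ + U ^ 2 * g) * (2 * derivative U * g + U * derivative g), ?_⟩
    rw [hg]
    simp only [derivative_add, derivative_mul, derivative_sq, map_ofNat]
    ring
  have hy₁ : derivative (s₁ ^ 2 + C (b ^ 2) * X * m ^ 2) =
      U * C (b ^ 2) * (1 + 2 * (C (b' ^ 2) * (y₀ + T))) := by
    rw [hT, hy₂]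
    linear_combination (-2 * U * T) * hbb
  have key := prod_cmp h8 hb hm hs₁ hs₂ hk₁ hk₂ hmk hU'
    (by rw [← degree_X_pow (R := R)]; exact degree_modByMonic_lt _ hX) hg α₁ α₂ hα₁ hα₂ hy₁ hy₂
  have hUU := prod_eval_eq_of_dvd α₁ α₂ U hU (by
    rw [← hα₁, ← hα₂, hg]
    exact ⟨U * g * (2 * s₂ + U ^ 2 * g), by ring⟩)
  have odd : ∀ (y : R[X]) (α : Fin n → R), ∃ w, ∏ i, (1 + 2 * y.eval (α i)) = 1 + 2 * w := by
    intro y α
    obtain ⟨w, hw⟩ := dvd_prod_sub_prod (2 : R) univ (fun i => 1 + 2 * y.eval (α i)) (fun _ => 1)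
      fun i => ⟨y.eval (α i), by ring⟩
    exact ⟨w, by rw [← hw, Finset.prod_const_one]; ring⟩
  rw [hy₁, hy₂]
  generalize C (b' ^ 2) * (y₀ + T) = y₁ at key ⊢
  generalize C (b' ^ 2) * y₀ = y₂ at key ⊢
  simp only [eval_mul, eval_add, eval_one, eval_ofNat, eval_C, Finset.prod_mul_distrib, hUU]
  obtain ⟨w₁, h₁⟩ := odd y₁ α₁
  obtain ⟨w₂, h₂⟩ := odd y₂ α₂
  rw [h₁, h₂] at key ⊢
  generalize resR (C (b' ^ 2) * X * derivative s₁ ^ 3) (m ^ 2 * s₁) = Φ₁ at key ⊢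
  generalize resR (C (b' ^ 2) * X * derivative s₂ ^ 3) (m ^ 2 * s₂) = Φ₂ at key ⊢
  generalize (∏ i, U.eval (α₂ i)) * ∏ _i : Fin n, b ^ 2 = W
  linear_combination W * key + W * (w₁ * Φ₂ - w₂ * Φ₁) * h8

variable {F K A O : Type*} [Field F] [Fintype F] [CharP F 2] [Field K]
  [Algebra F K] [CharP K 2] [IsAlgClosed K] [CommRing A] [CommRing O] [IsDomain O]
  (L : LiftData 2 F K A O)

omit [CharP F 2] in
theorem finish {e : K → ℝ} (he : IsChar F e) {δ₁ δ₂ y₁ y₂ : O} {ε₁ ε₂ : ℤ}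
    (e₁ : ε₁ = 1 ∨ ε₁ = -1) (e₂ : ε₂ = 1 ∨ ε₂ = -1) (u₁ : L.π δ₁ ≠ 0)
    (f₁ : L.φ δ₁ = (ε₁ : O) * δ₁) (f₂ : L.φ δ₂ = (ε₂ : O) * δ₂)
    (h : ((2 : ℕ) : O) ^ 3 ∣ δ₁ ^ 2 * (1 + 4 * y₂) - δ₂ ^ 2 * (1 + 4 * y₁)) {c : F}
    (hc : L.π y₁ + L.π y₂ = algebraMap F K c) : (ε₁ : ℝ) * ε₂ = e (algebraMap F K c) := by
  have h2K : (2 : K) = 0 := by exact_mod_cast CharP.cast_eq_zero K 2
  obtain ⟨z, hz⟩ : ∃ z : K, z ^ 2 + z = algebraMap F K c := by
    obtain ⟨z, hz⟩ := IsAlgClosed.exists_root (X ^ 2 + X - C (algebraMap F K c)) (by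
      have : (X ^ 2 + X - C (algebraMap F K c)).degree = 2 := by compute_degree!
      rw [this]; decide)
    exact ⟨z, by simpa [sub_eq_zero] using hz⟩
  have hzq : ∃ η : ℤ, (η = 1 ∨ η = -1) ∧ e (z ^ 2 + z) = η ∧
      ∀ Z' : O, L.π Z' = z → (4 : O) ∣ (1 + 2 * L.φ Z') - η * (1 + 2 * Z') := by
    have h1 : (z ^ Fintype.card F) ^ 2 + z ^ Fintype.card F = z ^ 2 + z := by
      have := congrArg (FiniteField.frobeniusAlgHom F K) hz
      rw [map_add, map_pow, AlgHom.commutes, ← hz] at this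
      exact this
    have h3 : (z ^ Fintype.card F - z) * (z ^ Fintype.card F - (z + 1)) = 0 := by
      linear_combination h1 + (z ^ 2 + z - z * z ^ Fintype.card F - z ^ Fintype.card F) * h2K
    rcases mul_eq_zero.1 h3 with h | h
    · refine ⟨1, Or.inl rfl, by rw [he.pos z (sub_eq_zero.1 h)]; simp, fun Z' hZ' => ?_⟩
      obtain ⟨r, hr⟩ := (L.ker_π (L.φ Z' - Z')).1 (by rw [map_sub, L.πφ, hZ', h])
      refine ⟨r, ?_⟩
      push_cast at hr ⊢
      linear_combination 2 * hr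
    · refine ⟨-1, Or.inr rfl, by rw [he.neg z (sub_eq_zero.1 h)]; simp, fun Z' hZ' => ?_⟩
      obtain ⟨r, hr⟩ := (L.ker_π (1 + L.φ Z' + Z')).1 (by
        rw [map_add, map_add, map_one, L.πφ, hZ']
        linear_combination h + (1 + z) * h2K)
      refine ⟨r, ?_⟩
      push_cast at hr ⊢
      linear_combination 2 * hr
  obtain ⟨η, hη, hηe, hη'⟩ := hzq
  obtain ⟨Z', hZ'⟩ := L.π_surj z
  obtain ⟨r', hr'⟩ := hη' Z' hZ'
  obtain ⟨r, hr⟩ : ((2 : ℕ) : O) ∣ Z' ^ 2 + Z' - (y₁ + y₂) := by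
    rw [← L.ker_π]
    simp only [map_sub, map_add, map_pow, hZ', hz, hc, sub_self]
  obtain ⟨t, ht⟩ := h
  have := L.sign_detect (κ := 3) (by norm_num) (fun _ => rfl) δ₁ (δ₂ * (1 + 2 * Z')) u₁
    (by
      refine ⟨(1 + 4 * y₂) * t - δ₁ ^ 2 * (y₂ + 2 * y₂ ^ 2) + δ₂ ^ 2 * (2 * y₁ * y₂ - r), ?_⟩
      push_cast at ht hr ⊢
      linear_combination (1 + 4 * y₂) * ht - 4 * δ₂ ^ 2 * hr)
    e₁ (ε₂ := η * ε₂)
    (by rcases e₂ with h | h <;> rcases hη with h' | h' <;> rw [h, h'] <;> simp)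
    (by rw [f₁, sub_self]; exact dvd_zero _)
    (by
      refine ⟨L.φ δ₂ * r', ?_⟩
      rw [map_mul, map_add, map_one, map_mul, map_ofNat, Int.cast_mul]
      push_cast
      linear_combination L.φ δ₂ * hr' + (η * (1 + 2 * Z')) * f₂)
  rw [← hz, hηe, this]
  rcases e₂ with h | h <;> simp [h]

include L in
theorem cmp_inf {e : K → ℝ} (he : IsChar F e) {b : F} (hb : b ≠ 0) {m s₁ s₂ : F[X]} {k : ℕ}
    (hm : m.Monic) (hs₁ : s₁.Monic) (hs₂ : s₂.Monic) (hk₁ : s₁.natDegree = k)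
    (hk₂ : s₂.natDegree = k) (hmk : m.natDegree < k) (hc : IsCoprime s₁ m)
    (hd : m ^ 4 ∣ s₁ - s₂) :
    (liou (s₁ ^ 2 + X * (C b * m) ^ 2) : ℝ) * liou (s₂ ^ 2 + X * (C b * m) ^ 2) =
      e (algebraMap F K (phi b m s₁ + phi b m s₂)) := by
  have : Nontrivial A := L.ρ.domain_nontrivial
  obtain ⟨g, hg⟩ := hd
  have hc₂ : IsCoprime s₂ m := by
    rw [show s₂ = s₁ + m * (-(m ^ 3 * g)) by linear_combination -hg]
    exact hc.add_mul_left_left _
  obtain ⟨B, hB⟩ := L.ρ_surj b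
  obtain ⟨B', hB'⟩ := (L.unit_A B (hB ▸ hb)).exists_right_inv
  have hB'' : L.ρ B' = b⁻¹ := by
    have := congrArg L.ρ hB'
    rw [map_mul, map_one, hB] at this
    exact eq_inv_of_mul_eq_one_right this
  obtain ⟨M, hM, hMm, hMd⟩ := L.lift_monic hm
  obtain ⟨S₂, hS₂, hS₂s, hS₂d⟩ := L.lift_monic hs₂
  have red : ∀ {S : A[X]} {s : F[X]}, S.map L.ρ = s →
      (S ^ 2 + C (B ^ 2) * X * M ^ 2).map L.ρ = s ^ 2 + X * (C b * m) ^ 2 := fun h => by
    simp only [Polynomial.map_add, Polynomial.map_mul, Polynomial.map_pow, map_X, map_C, map_pow,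
      h, hMm, hB]
    ring
  have sep : ∀ {s : F[X]}, IsCoprime s m → (s ^ 2 + X * (C b * m) ^ 2).Separable := fun h => by
    rw [Polynomial.separable_def, derivative_odd]
    exact (((isCoprime_mul_unit_left_right (isUnit_C.2 hb.isUnit) _ _).2 h).pow
      (m := 2) (n := 2)).add_mul_right_left X
  obtain ⟨U, Z, hU, hUu, hZb, hZ⟩ := hensel_factor L.ρ L.ρ_surj (fun x => (L.ker_ρ x).1)
    (CharP.cast_eq_zero F 2) (W := derivative (S₂ ^ 2 + C (B ^ 2) * X * M ^ 2)) (b := C (b ^ 2))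
    (hm.pow 2) ⟨0, C (b⁻¹ ^ 2), by rw [zero_mul, zero_add, ← map_mul, ← mul_pow,
      inv_mul_cancel₀ hb, one_pow, map_one]⟩
    (by rw [← derivative_map, red hS₂s, derivative_odd, map_pow]; ring) 2
  obtain ⟨H, hH, hHd⟩ := exists_degree_eq_of_mem_lifts
    (Polynomial.map_surjective L.ρ L.ρ_surj g)
  have hlt : (U ^ 2 * H).degree < S₂.degree := by
    rw [mul_comm, (hU.pow 2).degree_mul, hHd, ← (hU.pow 2).degree_map L.ρ, Polynomial.map_pow, hUu,
      ← ((hm.pow 2).pow 2).degree_mul, ← pow_mul, mul_comm g, ← hg, ← hS₂.degree_map L.ρ, hS₂s,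
      ← neg_sub, degree_neg]
    refine degree_sub_lt_left ?_ hs₂.ne_zero (by rw [hs₁.leadingCoeff, hs₂.leadingCoeff])
    rw [degree_eq_natDegree hs₁.ne_zero, degree_eq_natDegree hs₂.ne_zero, hk₁, hk₂]
  obtain ⟨S₁, hS₁e⟩ : ∃ S₁, S₁ = S₂ + U ^ 2 * H := ⟨_, rfl⟩
  have hS₁ : S₁.Monic := hS₁e ▸ hS₂.add_of_left hlt
  have hS₁s : S₁.map L.ρ = s₁ := by
    rw [hS₁e, Polynomial.map_add, Polynomial.map_mul, Polynomial.map_pow, hS₂s, hH, hUu]
    linear_combination -hg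
  have hS₁d : S₁.natDegree = k := by rw [← hS₁.natDegree_map L.ρ, hS₁s, hk₁]
  rw [hk₂] at hS₂d
  obtain ⟨m₁, n₁⟩ := even_monic (B ^ 2) hS₁ hM (by omega)
  obtain ⟨m₂, n₂⟩ := even_monic (B ^ 2) hS₂ hM (by omega)
  obtain ⟨α₁, δ₁, g₁, u₁, f₁, d₁⟩ := L.stick m₁ (red hS₁s ▸ sep hc) (n := 2 * k) (by rw [n₁, hS₁d])
  obtain ⟨α₂, δ₂, g₂, -, f₂, d₂⟩ := L.stick m₂ (red hS₂s ▸ sep hc₂) (n := 2 * k)
    (by rw [n₂, hS₂d])
  rw [red hS₁s, pow_mul, neg_one_sq, one_pow, one_mul] at f₁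
  rw [red hS₂s, pow_mul, neg_one_sq, one_pow, one_mul] at f₂
  obtain ⟨ν, hνμ, hν, hμ⟩ := L.quot_data (κ := 3) (by norm_num)
  have ker : ∀ x : O, Ideal.Quotient.mk (Ideal.span {((2 : ℕ) : O) ^ 3}) x = 0 →
      ((2 : ℕ) : O) ^ 3 ∣ x := fun x hx =>
    Ideal.mem_span_singleton.1 (Ideal.Quotient.eq_zero_iff_mem.1 hx)
  generalize Ideal.Quotient.mk (Ideal.span {((2 : ℕ) : O) ^ 3}) = μ at hνμ ker
  have h8 : (8 : O ⧸ Ideal.span {((2 : ℕ) : O) ^ 3}) = 0 := by exact_mod_cast hμ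
  have := ν.domain_nontrivial
  have phi_eq : ∀ {S : A[X]} {s : F[X]}, S.Monic → S.map L.ρ = s →
      L.π (L.ι (resR (C (B' ^ 2) * X * derivative S ^ 3) (M ^ 2 * S))) =
        algebraMap F K (phi b m s) := fun hS h => by
    rw [L.πι, map_resR _ _ ((hM.pow 2).mul hS)]
    simp only [Polynomial.map_mul, Polynomial.map_pow, map_X, map_C, map_pow, ← derivative_map,
      h, hMm, hB'', phi, resR_eq]
  refine finish L he (liou_cases _) (liou_cases _) u₁ f₁ f₂ (ker _ ?_)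
    ((congrArg₂ (· + ·) (phi_eq hS₁ hS₁s) (phi_eq hS₂ hS₂s)).trans (map_add _ _ _).symm)
  have mp : ∀ S : A[X], (S ^ 2 + C (B ^ 2) * X * M ^ 2).map (μ.comp L.ι) =
      S.map (μ.comp L.ι) ^ 2 + C ((μ.comp L.ι) B ^ 2) * X * M.map (μ.comp L.ι) ^ 2 := fun S => by
    simp only [Polynomial.map_add, Polynomial.map_mul, Polynomial.map_pow, map_X, map_C, map_pow]
  have rt : ∀ {G : A[X]} {α : Fin (2 * k) → O} {δ : O}, G.map L.ι = ∏ i, (X - C (α i)) →
      ∏ i, (derivative (G.map L.ι)).eval (α i) = (sgn (2 * k) : O) * δ ^ 2 →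
      G.map (μ.comp L.ι) = ∏ i, (X - C (μ (α i))) ∧
        ∏ i, (derivative (G.map (μ.comp L.ι))).eval (μ (α i)) = sgn (2 * k) * μ δ ^ 2 := by
    intro G α δ h1 h2
    refine ⟨by rw [← Polynomial.map_map, h1, Polynomial.map_prod]; simp, ?_⟩
    have h3 := congrArg μ h2
    rw [map_prod, map_mul, map_pow, map_intCast] at h3
    rw [← h3]
    refine Finset.prod_congr rfl fun i _ => ?_
    rw [← Polynomial.map_map, derivative_map (G.map L.ι) μ, eval_map μ, eval₂_hom]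
  obtain ⟨a₁, b₁⟩ := rt g₁ d₁
  obtain ⟨a₂, b₂⟩ := rt g₂ d₂
  rw [mp] at a₁ a₂ b₁ b₂
  have key := ring_cmp ν hν h8 (b := (μ.comp L.ι) B) (b' := (μ.comp L.ι) B')
    (by rw [← map_mul, hB', map_one]) (Z := Z.map (μ.comp L.ι)) (g := H.map (μ.comp L.ι))
    (hM.map _) (hS₁.map _) (hS₂.map _) ((hS₁.natDegree_map _).trans hS₁d)
    ((hS₂.natDegree_map _).trans hS₂d)
    (by rw [hM.natDegree_map]; omega) (hU.map (μ.comp L.ι))
    (by rw [← Polynomial.map_pow, L.map_map μ ν hνμ, L.map_map μ ν hνμ, hUu, Polynomial.map_pow L.ρ,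
      hMm])
    (by rw [← map_pow, ← map_C, L.map_map μ ν hνμ, L.map_map μ ν hνμ, hZb, map_C L.ρ, map_pow L.ρ,
      hB])
    (by rw [hS₁e, Polynomial.map_add, Polynomial.map_mul, Polynomial.map_pow]) _ _ a₁ a₂
    (by
      have := Polynomial.map_dvd (μ.comp L.ι) hZ
      rw [Polynomial.map_pow, Polynomial.map_natCast, ← map_natCast C, ← map_pow,
        show ((2 : ℕ) : O ⧸ Ideal.span {((2 : ℕ) : O) ^ 3}) ^ (2 + 1) = 0 by rw [← h8]; norm_num,
        map_zero, zero_dvd_iff, Polynomial.map_sub, Polynomial.map_mul, sub_eq_zero,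
        ← derivative_map, mp] at this
      exact this)
  have rs : ∀ {S : A[X]}, S.Monic → resR (C ((μ.comp L.ι) B' ^ 2) * X *
      derivative (S.map (μ.comp L.ι)) ^ 3) (M.map (μ.comp L.ι) ^ 2 * S.map (μ.comp L.ι)) =
      μ (L.ι (resR (C (B' ^ 2) * X * derivative S ^ 3) (M ^ 2 * S))) := fun hS => by
    rw [← RingHom.comp_apply μ, map_resR _ _ ((hM.pow 2).mul hS)]
    simp only [Polynomial.map_mul, Polynomial.map_pow, map_X, map_C, map_pow, ← derivative_map]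
  rw [b₁, b₂, rs hS₁, rs hS₂] at key
  have hs : (sgn (2 * k) : O ⧸ Ideal.span {((2 : ℕ) : O) ^ 3}) * sgn (2 * k) = 1 := by
    rw [← Int.cast_mul, sgn_sq, Int.cast_one]
  simp only [map_sub, map_mul, map_add, map_pow μ, map_one, map_ofNat]
  generalize μ (L.ι (resR (C (B' ^ 2) * X * derivative S₁ ^ 3) (M ^ 2 * S₁))) = T₁ at key ⊢
  generalize μ (L.ι (resR (C (B' ^ 2) * X * derivative S₂ ^ 3) (M ^ 2 * S₂))) = T₂ at key ⊢
  linear_combination sgn (2 * k) * key -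
    (μ δ₁ ^ 2 * (1 + 4 * T₂) - μ δ₂ ^ 2 * (1 + 4 * T₁)) * hs

end QSwanB

variable {F : Type*} [Field F] [Fintype F] [CharP F 2]

theorem swan_inf {e : F → ℝ} (he : Chr e) {b : F} (hb : b ≠ 0) {m s₁ s₂ : F[X]} {k : ℕ}
    (hm : m.Monic) (hs₁ : s₁.Monic) (hs₂ : s₂.Monic) (hk₁ : s₁.natDegree = k)
    (hk₂ : s₂.natDegree = k) (hmk : m.natDegree < k) (hc : IsCoprime s₁ m)
    (hd : m ^ 4 ∣ s₁ - s₂) :
    (liou (s₁ ^ 2 + X * (C b * m) ^ 2) : ℝ) * liou (s₂ ^ 2 + X * (C b * m) ^ 2) =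
      e (phi b m s₁) * e (phi b m s₂) := by
  have : CharP (AlgebraicClosure F) 2 :=
    charP_of_injective_algebraMap (algebraMap F (AlgebraicClosure F)).injective 2
  obtain ⟨L⟩ := nonempty_liftData 2 F (AlgebraicClosure F)
  obtain ⟨ε, hε⟩ := exists_isChar F (AlgebraicClosure F)
  rw [QSwanB.cmp_inf L hε hb hm hs₁ hs₂ hk₁ hk₂ hmk hc hd, ← chr_of_isChar hε he, he.add]

end Pool.Agent.MP_f37147_nt

end
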