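import Mathlib
import Pool.Agent.Mg.F43e117.G789a6f
import Pool.Agent.Mg.F43e117.G4aa3e1
import Pool.Agent.Mg.F43e117.G4f2145
import Pool.Agent.Mg.F43e117.G596908
import Pool.Agent.Mg.F43e117.Gf6882d

section

/- The twisted Moebius function along lines. -/

set_option autoImplicit false

namespace Pool.Agent.MP_f37147_nt

open Polynomial Finset Pool.Agent.MP_4fffd4_nt Pool.Agent.MP_c853c5_nt
open scoped BigOperators

variable {F : Type*} [Field F] [Fintype F] [CharP F 2]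

namespace QLine

open SLine SFour

omit [Fintype F] [CharP F 2] in
theorem cancel {D a s v φ W T : F[X]} (hD : Squarefree D) (hDa : IsCoprime D a)
    (h : D * T = a * s * (v * φ + s * W)) (hφ : ∀ δ, δ ∣ D → δ ∣ s → δ ∣ φ) : a * s ∣ T := by
  classical
  obtain ⟨D', s', h1, h2, h3⟩ := extract_gcd D s
  obtain ⟨φ', h4⟩ := hφ _ (gcd_dvd_left D s) (gcd_dvd_right D s)
  generalize gcd D s = δ at h1 h2 h4
  have h0 : δ ≠ 0 := fun e => hD.ne_zero (by rw [h1, e, zero_mul])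
  have h5 : IsCoprime D' (a * s) := by
    refine (IsCoprime.of_mul_left_right (h1 ▸ hDa)).mul_right ?_
    rw [h2]
    rw [h1] at hD
    exact (squarefree_mul_iff.1 hD).1.isCoprime.symm.mul_right ((gcd_isUnit_iff _ _).1 h3)
  refine h5.symm.dvd_of_dvd_mul_left ⟨v * φ' + s' * W, mul_left_cancel₀ h0 ?_⟩
  linear_combination h - T * h1 + a * s * v * h4 + a * s * W * h2

theorem md_eq {e : F → ℝ} {i j : ℕ} {A D a c h y w κ : F[X]} (hD : D.Monic)
    (hi : D.natDegree = i) (hs : Squarefree D) (hDa : IsCoprime D a) (ha : a.Monic) (hw : w.Monic)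
    (hy : D * A = y ^ 2 + X * w ^ 2) (hκ : a * c = κ ^ 2 + X * od (a * c) ^ 2)
    (hyw : y.natDegree ≤ w.natDegree) (hh : h.degree < j)
    (hj : j + a.natDegree + c.natDegree + 1 ≤ i) :
    ∃ f Z, D ∣ a * f ^ 2 + c ∧ a * w * f = y * od (a * c) + κ * w + D * Z ∧
      md e a c h i D = liou D * e (res (h * Z) (a * w)) := by
  have h2 : (2 : F[X]) = 0 := by exact_mod_cast CharP.cast_eq_zero F[X] 2
  obtain ⟨f₀, hf₀⟩ := sol_exists c hs hDa
  have hd : D.degree = i := by rw [degree_eq_natDegree hD.ne_zero, hi]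
  have hf : D ∣ a * (f₀ %ₘ D) ^ 2 + c := by
    have := modByMonic_add_div f₀ D
    obtain ⟨z, hz⟩ := hf₀
    exact ⟨z - a * (f₀ /ₘ D) * (f₀ + f₀ %ₘ D), by
      linear_combination hz + a * (f₀ + f₀ %ₘ D) * this⟩
  have hlt : (f₀ %ₘ D).degree < i := hd ▸ degree_modByMonic_lt f₀ hD
  generalize f₀ %ₘ D = f at hf hlt
  have hm : 2 * (od (a * c)).natDegree ≤ (a * c).natDegree - 1 := by
    rw [← natDegree_pow, od_sq]; exact natDegree_derivative_le _
  set m := od (a * c)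
  obtain ⟨Z, hZ⟩ : D ∣ a * w * f - (y * m + κ * w) := by
    refine (hs.dvd_pow_iff_dvd two_ne_zero).1 ?_
    obtain ⟨z, hz⟩ := hf
    refine ⟨a * w ^ 2 * z + A * m ^ 2, ?_⟩
    linear_combination a * w ^ 2 * hz - m ^ 2 * hy - w ^ 2 * hκ +
      (y * m * κ * w - a * w * f * (y * m + κ * w) - X * w ^ 2 * m ^ 2) * h2
  refine ⟨f, Z, hf, by linear_combination hZ, ?_⟩
  have hk : 2 * κ.natDegree ≤ (a * c).natDegree + 1 := by
    have h3 := natDegree_sub_le (a * c) (X * m ^ 2)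
    have h4 : (X * m ^ 2).natDegree ≤ _ := natDegree_mul_le
    rw [natDegree_X, natDegree_pow] at h4
    rw [show a * c - X * m ^ 2 = κ ^ 2 by linear_combination hκ, natDegree_pow] at h3
    omega
  have hac : (a * c).natDegree ≤ _ := natDegree_mul_le
  have h3 : (y * m + κ * w).degree < (w.natDegree + a.natDegree + c.natDegree + 1 : ℕ) := by
    have h4 := natDegree_add_le (y * m) (κ * w)
    have h5 : (y * m).natDegree ≤ _ := natDegree_mul_le
    have h6 : (κ * w).natDegree ≤ _ := natDegree_mul_le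
    exact degree_le_natDegree.trans_lt (Nat.cast_lt.2 (by omega))
  rw [md, mu, if_pos hs, Finset.sum_eq_single_of_mem f (mem_ltF.2 hlt) fun g hg hne => ?_,
    ind_pos hf, one_mul, ← res_mul _ hD (ha.mul hw), show h * f * (a * w) =
      h * (y * m + κ * w) + h * Z * D by linear_combination h * hZ, res_add,
    res_eq_zero (hD.mul (ha.mul hw)) ((degree_mul_lt hh h3).trans_le ?_), zero_add,
    mul_comm D, res_mul _ (ha.mul hw) hD]
  · rw [hD.natDegree_mul (ha.mul hw), ha.natDegree_mul hw, hi]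
    exact Nat.cast_le.2 (by omega)
  · rw [ind_neg fun h' => hne (sub_eq_zero.1 (eq_zero_of_dvd_of_degree_lt
      (sol_unique hs hDa h' hf) ?_)), zero_mul]
    rw [hd]
    exact (degree_sub_le _ _).trans_lt (max_lt (mem_ltF.1 hg) hlt)

omit [CharP F 2] in
theorem md_eq_zero {e : F → ℝ} {i : ℕ} {D a c h : F[X]} (hac : IsCoprime a c)
    (hD : ¬ (Squarefree D ∧ IsCoprime D a)) : md e a c h i D = 0 := by
  by_cases hs : Squarefree D
  · rw [md, Finset.sum_eq_zero fun f _ => ?_, mul_zero]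
    rw [ind_neg fun h' => hD ⟨hs, coprime_of_sol hac h'⟩, zero_mul]
  · rw [md, mu, if_neg hs, zero_mul]

theorem local_line {e : F → ℝ} (he : Chr e) {d u r b i j₀ : ℕ} {A G v s a c h : F[X]} (hu : 1 ≤ u) (hr : r < d) (hA : A.Monic)
    (hG : G.Monic) (hi : G.natDegree = i) (hv : v ∈ goodV F d u) (hs : s ∈ monF F r)
    (hN : i + A.natDegree = 2 * (v.natDegree + r) + 1) (hW : v * s = od (G * A))
    (hl : A.natDegree + 4 * r + 2 * a.natDegree + 4 * (d + u) ≤ i)
    (hb : 2 * b * 8 ^ u + 3 * u + 4 ≤ d) (ha : a.Monic) (hac : IsCoprime a c)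
    (had : a.natDegree < d) (hh : h.degree < j₀) (hj : j₀ + a.natDegree + c.natDegree + 1 ≤ i) :
    |𝔼 x : degreeLT F (2 * (d + u)), md e a c h i (G + (s ^ 2 * a * x.1) ^ 2 * A)| ≤
      4 * 𝔼 x : degreeLT F (2 * (d + u)), ind (Bad d u ((G + (s ^ 2 * a * x.1) ^ 2 * A) * A)) +
        1 / (Fintype.card F : ℝ) ^ b := by
  have hq := card_pos' (F := F)
  have hq2 := two_le_card (F := F)
  have hq1 : (1 : ℝ) ≤ Fintype.card F := one_le_two.trans hq2
  obtain ⟨hvm, -, -⟩ := goodV_spec hv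
  obtain ⟨P, hP, hPv⟩ := mem_goodV.1 hv
  obtain ⟨hs1, hs2⟩ := mem_monF.1 hs
  obtain ⟨σ, hσ⟩ := exists_od (G * A)
  rw [← hW] at hσ
  have e1 : ∀ x : F[X], (G + (s ^ 2 * a * x) ^ 2 * A) * A =
      (s ^ 2 * (a * A) * x + σ) ^ 2 + X * (s * v) ^ 2 := fun x => by
    rw [add_mul, hσ, CharTwo.add_sq]; ring
  have hPd : ∀ j, P j ∣ v := fun j => hPv ▸ Finset.dvd_prod_of_mem _ (mem_univ j)
  have hbad : ∀ (x : F[X]) j, P j ∣ s ^ 2 * (a * A) * x + σ →
      Bad d u ((G + (s ^ 2 * a * x) ^ 2 * A) * A) := fun x j h =>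
    ⟨P j, (hP j).1, (hP j).2.2, by rw [(hP j).2.1]; omega, by rw [(hP j).2.1]; omega, by
      rw [e1]
      exact dvd_add (pow_dvd_pow_of_dvd h 2)
        ((pow_dvd_pow_of_dvd ((hPd j).mul_left s) 2).mul_left _)⟩
  have hmon : ∀ x : degreeLT F (2 * (d + u)), (G + (s ^ 2 * a * x.1) ^ 2 * A).Monic ∧
      (G + (s ^ 2 * a * x.1) ^ 2 * A).natDegree = i := fun x => by
    have : ((s ^ 2 * a * x.1) ^ 2 * A).degree < G.degree := by
      by_cases hx : x.1 = 0
      · rw [hx, mul_zero, zero_pow two_ne_zero, zero_mul, degree_zero]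
        exact bot_lt_iff_ne_bot.2 (degree_ne_bot.2 hG.ne_zero)
      have h1 := (natDegree_lt_iff_degree_lt hx).2 (mem_degreeLT.1 x.2)
      refine degree_lt_degree ?_
      rw [mul_comm _ A, hA.natDegree_mul' (pow_ne_zero _
        (mul_ne_zero ((hs1.pow 2).mul ha).ne_zero hx)), natDegree_pow,
        ((hs1.pow 2).mul ha).natDegree_mul' hx, (hs1.pow 2).natDegree_mul ha, natDegree_pow]
      omega
    exact ⟨hG.add_of_left this, by rw [natDegree_add_eq_left_of_degree_lt this, hi]⟩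
  have hle : ∀ x : degreeLT F (2 * (d + u)), |md e a c h i (G + (s ^ 2 * a * x.1) ^ 2 * A)| ≤ 1 :=
    fun x => abs_md_le he hac h (hmon x).2
  by_cases h0 : P 0 ∣ A
  · have : ∀ x : degreeLT F (2 * (d + u)),
        ind (Bad d u ((G + (s ^ 2 * a * x.1) ^ 2 * A) * A)) = 1 := fun x => by
      refine ind_pos (hbad x.1 0 ((hP 0).2.2.prime.dvd_of_dvd_pow (n := 2) ?_))
      have h1 : P 0 ∣ (G + (s ^ 2 * a * x.1) ^ 2 * A) * A := h0.mul_left _
      rw [e1] at h1
      exact (dvd_add_left ((dvd_pow ((hPd 0).mul_left s) two_ne_zero).mul_left _)).1 h1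
    simp only [this, Fintype.expect_const]
    refine ((Finset.abs_expect_le _ _).trans (Finset.expect_le univ_nonempty
      fun x _ => hle x)).trans ?_
    have : 0 ≤ 1 / (Fintype.card F : ℝ) ^ b := by positivity
    linarith
  have hns : ∀ j, ¬ P j ∣ s := fun j h => by
    have := natDegree_le_of_dvd h hs1.ne_zero
    rw [(hP j).2.1] at this
    omega
  have hne : ∀ j j', P j ∣ P j' → j = j' := fun j j' h => by
    have := eq_of_monic_of_associated (hP j).1 (hP j').1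
      ((hP j).2.2.associated_of_dvd (hP j').2.2 h)
    have := congrArg natDegree this
    rw [(hP j).2.1, (hP j').2.1] at this
    exact Fin.ext (by omega)
  have hna : ∀ j, ¬ P j ∣ a := fun j h => by
    have := natDegree_le_of_dvd h ha.ne_zero
    rw [(hP j).2.1] at this
    omega
  have hsv : IsCoprime s v :=
    hPv ▸ IsCoprime.prod_right fun j _ => ((hP j).2.2.coprime_iff_not_dvd.2 (hns j)).symm
  have hav : IsCoprime a v :=
    hPv ▸ IsCoprime.prod_right fun j _ => ((hP j).2.2.coprime_iff_not_dvd.2 (hna j)).symm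
  obtain ⟨E₂, E₁, hE⟩ := hav.mul_left hsv
  obtain ⟨κ, hκ⟩ := exists_od (a * c)
  have h2F : (2 : F[X]) = 0 := by exact_mod_cast CharP.cast_eq_zero F[X] 2
  have hZe : ∀ x : degreeLT F (2 * (d + u)), ∃ z, IsCoprime (s ^ 2 * (a * A) * x.1 + σ) v →
      v ∣ (s ^ 2 * (a * A) * x.1 + σ) * z - h * E₂ * od (a * c) * A := fun x => by
    by_cases hx : IsCoprime (s ^ 2 * (a * A) * x.1 + σ) v
    · obtain ⟨p, q, hpq⟩ := hx
      exact ⟨p * (h * E₂ * od (a * c) * A), fun _ => ⟨-q * (h * E₂ * od (a * c) * A), by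
        linear_combination (h * E₂ * od (a * c) * A) * hpq⟩⟩
    · exact ⟨0, fun h => (hx h).elim⟩
  choose Z hZ using hZe
  have hdeg : ∀ x : degreeLT F (2 * (d + u)),
      (s ^ 2 * (a * A) * x.1 + σ).natDegree ≤ (s * v).natDegree := fun x => by
    have h1 : (s ^ 2 * (a * A) * x.1 + σ) ^ 2 =
        (G + (s ^ 2 * a * x.1) ^ 2 * A) * A - X * (s * v) ^ 2 := by rw [e1]; ring
    have h2 := natDegree_sub_le ((G + (s ^ 2 * a * x.1) ^ 2 * A) * A) (X * (s * v) ^ 2)
    rw [← h1, natDegree_pow, (hmon x).1.natDegree_mul hA, (hmon x).2,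
      monic_X.natDegree_mul ((hs1.mul hvm).pow 2), natDegree_X, natDegree_pow,
      hs1.natDegree_mul hvm] at h2
    rw [hs1.natDegree_mul hvm]
    omega
  have h8 : 2 ^ (Fintype.card (Fin u) * 3) = 8 ^ u := by
    rw [Fintype.card_fin, mul_comm, pow_mul]; norm_num
  have : Nonempty (Fin u) := ⟨⟨0, hu⟩⟩
  have hk := key_tw2 he (J := Fin u) (α := s ^ 2 * (a * A)) (σ := σ) hs1 hvm
    (hPv ▸ separable_prod (fun j j' h => (hP j).2.2.coprime_iff_not_dvd.2 fun e => h (hne _ _ e))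
      fun j => PerfectField.separable_of_irreducible (hP j).2.2)
    hsv (dvd_mul_right _ _) (hP 0).1 (hP 0).2.2 (hPd 0)
    (fun h => ((hP 0).2.2.prime.dvd_or_dvd h).elim
      (fun h => hns 0 ((hP 0).2.2.prime.dvd_of_dvd_pow h))
      fun h => ((hP 0).2.2.prime.dvd_or_dvd h).elim (hna 0) h0)
    (fun j => P j.succ) (fun j h => Fin.succ_ne_zero j (hne _ _ h).symm) (ρ := d + u)
    (n := 2 * (d + u)) (fun j => by rw [(hP _).2.1]; have := j.succ.2; omega)
    (by rw [(hP 0).2.1]; simp) (by rw [(hP 0).2.1]; simp; omega)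
    (fun R hR h => by
      rw [← hPv, Fin.prod_univ_succ] at h
      refine (hR.prime.dvd_or_dvd h).imp_right fun h => ?_
      obtain ⟨j, -, hj⟩ := (hR.prime.dvd_finsetProd_iff _).1 h
      exact ⟨j, hj⟩)
    hdeg
    (η := 1 / (2 * (Fintype.card F : ℝ) ^ (b * 8 ^ u))) (B := 1 / (Fintype.card F : ℝ) ^ b)
    (by positivity)
    (by
      rw [(hP 0).2.1, div_pow, div_le_div_iff₀ (by positivity) (by positivity), mul_pow, ← pow_mul]
      calc _ = 2 ^ 4 * (Fintype.card F : ℝ) ^ (b * 8 ^ u * 2) := by ring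
        _ ≤ (Fintype.card F : ℝ) ^ 4 * (Fintype.card F : ℝ) ^ (b * 8 ^ u * 2) := by gcongr
        _ ≤ _ := by
          rw [← pow_add, one_pow, one_mul]
          exact pow_le_pow_right₀ hq1 (by simp; nlinarith))
    (by positivity)
    (by
      rw [h8, (hP 0).2.1, Fintype.card_fin, one_div_pow, ← pow_mul]
      have : 4 * 2 ^ (u * 3) / (Fintype.card F : ℝ) ^ (d + ((0 : Fin (u + 1)) : ℕ)) ≤
          1 / (2 * (Fintype.card F : ℝ) ^ (b * 8 ^ u)) := by
        rw [div_le_div_iff₀ (by positivity) (by positivity)]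
        calc _ = 2 ^ (u * 3 + 3) * (Fintype.card F : ℝ) ^ (b * 8 ^ u) := by ring
          _ ≤ (Fintype.card F : ℝ) ^ (u * 3 + 3) * (Fintype.card F : ℝ) ^ (b * 8 ^ u) := by gcongr
          _ ≤ _ := by
            rw [← pow_add, one_mul]
            rw [mul_assoc] at hb
            exact pow_le_pow_right₀ hq1 (by simp; omega)
      refine (add_le_add this le_rfl).trans_eq ?_
      field_simp
      norm_num)
    Z hZ
  have hcop : ∀ x : degreeLT F (2 * (d + u)), ind (¬ IsCoprime (s ^ 2 * (a * A) * x.1 + σ) v) ≤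
      ind (Bad d u ((G + (s ^ 2 * a * x.1) ^ 2 * A) * A)) := fun x => ind_mono fun h => by
    by_contra hb
    exact h (hPv ▸ IsCoprime.prod_right fun j _ =>
      ((hP j).2.2.coprime_iff_not_dvd.2 fun e => hb (hbad _ j e)).symm)
  have hsq : ∀ R : F[X], R ∣ s → ∀ x : F[X], R * R ∣ (s ^ 2 * a * x) ^ 2 * A := fun R h x =>
    (mul_dvd_mul h h).trans ⟨s ^ 2 * a ^ 2 * x ^ 2 * A, by ring⟩
  have hmd := fun (x : degreeLT F (2 * (d + u))) h1 h2 => md_eq (e := e) (hmon x).1 (hmon x).2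
    h1 h2 ha (hs1.mul hvm) (e1 x.1) hκ (hdeg x) hh hj
  obtain ⟨k, hc1, hc⟩ : ∃ k : ℝ, |k| ≤ 1 ∧ ∀ x : degreeLT F (2 * (d + u)),
      IsCoprime (s ^ 2 * (a * A) * x.1 + σ) v → md e a c h i (G + (s ^ 2 * a * x.1) ^ 2 * A) =
      k * ((liou ((s ^ 2 * (a * A) * x.1 + σ) ^ 2 + X * (s * v) ^ 2) : ℝ) *
        e (res (Z x) v)) := by
    by_cases hx₀ : ∃ x : degreeLT F (2 * (d + u)), Squarefree (G + (s ^ 2 * a * x.1) ^ 2 * A) ∧
      IsCoprime (G + (s ^ 2 * a * x.1) ^ 2 * A) a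
    swap
    · exact ⟨0, by simp, fun x _ => by rw [md_eq_zero hac fun h => hx₀ ⟨x, h⟩, zero_mul]⟩
    obtain ⟨y, hy1, hy2⟩ := hx₀
    obtain ⟨g, T, hg, hT, -⟩ := hmd y hy1 hy2
    refine ⟨liou A * e (res (h * T * E₁) (a * s)), ?_, fun x hx => ?_⟩
    · rw [abs_mul, he.toSgn.abs_eq, mul_one]
      rcases liou_cases A with h | h <;> simp [h]
    have h1 : Squarefree (G + (s ^ 2 * a * x.1) ^ 2 * A) := by
      rw [squarefree_iff_irreducible_sq_not_dvd_of_ne_zero (hmon x).1.ne_zero]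
      intro R hR hRG
      have h3 : R ^ 2 ∣ (G + (s ^ 2 * a * x.1) ^ 2 * A) * A := sq R ▸ hRG.mul_right A
      have h4 : R ∣ v * s := by
        have := dvd_od h3
        rwa [e1, od_eq (derivative_odd _ _), mul_comm] at this
      have h5 : R ∣ s ^ 2 * (a * A) * x.1 + σ := by
        rw [e1, mul_comm s v] at h3
        exact hR.prime.dvd_of_dvd_pow (n := 2) ((dvd_add_left
          ((dvd_pow h4 two_ne_zero).mul_left _)).1 ((dvd_pow_self R two_ne_zero).trans h3))
      rcases hR.prime.dvd_or_dvd h4 with h6 | h6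
      · exact hR.not_isUnit (hx.isUnit_of_dvd' h5 h6)
      · exact hR.not_isUnit (hy1 R (dvd_add ((dvd_add_left (hsq R h6 _)).1 hRG) (hsq R h6 _)))
    have h2 : IsCoprime (G + (s ^ 2 * a * x.1) ^ 2 * A) a := by
      obtain ⟨p, q, hpq⟩ := hy2
      exact ⟨p, q + p * s ^ 4 * a * A * (y.1 ^ 2 - x.1 ^ 2), by linear_combination hpq⟩
    obtain ⟨f, S, hf, hS, hm⟩ := hmd x h1 h2
    have h3 : a * s ∣ S - T := by
      refine cancel (v := v) (φ := f - g) (W := s ^ 2 * a * A * T * (y.1 ^ 2 - x.1 ^ 2) +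
        A * od (a * c) * (y.1 - x.1)) h1 h2 (by linear_combination hT - hS) fun δ h3 h4 => ?_
      refine sol_unique (h1.squarefree_of_dvd h3) (h2.of_isCoprime_of_dvd_left h3) (h3.trans hf)
        (dvd_trans ?_ hg)
      exact dvd_add ((dvd_add_left ((dvd_mul_right δ δ).trans (hsq δ h4 _))).1 h3)
        ((dvd_mul_right δ δ).trans (hsq δ h4 _))
    have h4 : v ∣ h * S * E₂ - Z x := by
      refine hx.symm.dvd_of_dvd_mul_left ?_
      have h5 : v ∣ (s ^ 2 * (a * A) * x.1 + σ) * S - od (a * c) * A := by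
        refine hx.symm.dvd_of_dvd_mul_left ⟨A * s * (a * f - κ) - X * s ^ 2 * v * S, ?_⟩
        linear_combination -A * hS - S * e1 x.1 -
          (s ^ 2 * (a * A) * x.1 + σ) * od (a * c) * A * h2F
      have := dvd_sub (h5.mul_left (h * E₂)) (hZ x hx)
      rwa [show _ - _ = (s ^ 2 * (a * A) * x.1 + σ) * (h * S * E₂ - Z x) by ring] at this
    rw [hm, ← e1, liou_mul (hmon x).1.ne_zero hA.ne_zero, show h * S = h * S * E₁ * v +
      h * S * E₂ * (a * s) by linear_combination -(h * S) * hE, ← mul_assoc a, res_add,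
      res_mul _ (ha.mul hs1) hvm, mul_comm (a * s) v, res_mul _ hvm (ha.mul hs1), he.add,
      res_congr hvm h4, res_congr (a' := h * T * E₁) (ha.mul hs1)
        (by rw [show _ - _ = h * E₁ * (S - T) by ring]; exact h3.mul_left _)]
    rcases liou_cases A with h | h <;> simp [h] <;> ring
  have hpt : ∀ x : degreeLT F (2 * (d + u)), |md e a c h i (G + (s ^ 2 * a * x.1) ^ 2 * A) -
      k * ((liou ((s ^ 2 * (a * A) * x.1 + σ) ^ 2 + X * (s * v) ^ 2) : ℝ) * e (res (Z x) v))| ≤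
      2 * ind (¬ IsCoprime (s ^ 2 * (a * A) * x.1 + σ) v) := fun x => by
    by_cases hx : IsCoprime (s ^ 2 * (a * A) * x.1 + σ) v
    · rw [ind_neg (not_not.2 hx), mul_zero, hc x hx, sub_self, abs_zero]
    · rw [ind_pos hx]
      refine (abs_sub _ _).trans ?_
      have : |k * ((liou ((s ^ 2 * (a * A) * x.1 + σ) ^ 2 + X * (s * v) ^ 2) : ℝ) *
          e (res (Z x) v))| ≤ 1 := by
        rw [abs_mul k, abs_mul, he.toSgn.abs_eq, mul_one]
        refine mul_le_one₀ hc1 (abs_nonneg _) ?_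
        rcases liou_cases ((s ^ 2 * (a * A) * x.1 + σ) ^ 2 + X * (s * v) ^ 2) with h | h <;>
          simp [h]
      linarith [hle x]
  have h1 := (Finset.abs_expect_le _ _).trans
    (Finset.expect_le_expect (s := univ) fun x _ => hpt x)
  rw [Finset.expect_sub_distrib, ← Finset.mul_expect, ← Finset.mul_expect] at h1
  have h2 := Finset.expect_le_expect (s := univ) fun x _ => hcop x
  have h3 := abs_sub_abs_le_abs_sub
    (𝔼 x : degreeLT F (2 * (d + u)), md e a c h i (G + (s ^ 2 * a * x.1) ^ 2 * A))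
    (k * 𝔼 x : degreeLT F (2 * (d + u)),
      (liou ((s ^ 2 * (a * A) * x.1 + σ) ^ 2 + X * (s * v) ^ 2) : ℝ) * e (res (Z x) v))
  rw [abs_mul] at h3
  have h4 := mul_le_of_le_one_left (abs_nonneg (𝔼 x : degreeLT F (2 * (d + u)),
      (liou ((s ^ 2 * (a * A) * x.1 + σ) ^ 2 + X * (s * v) ^ 2) : ℝ) * e (res (Z x) v))) hc1
  linarith

end QLine

open SLine QLine in
theorem line2 {e : F → ℝ} (he : Chr e) {d u r b i j : ℕ} {A B a c h : F[X]} (hu : 1 ≤ u)
    (hr : r < d) (hA : A.Monic) (hB : od (A * B) = 1)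
    (hN : i + A.natDegree = 2 * (∑ t : Fin (u + 1), (d + t) + r) + 1)
    (hl : A.natDegree + 4 * r + 2 * a.natDegree + 4 * (d + u) ≤ i)
    (hb : 2 * b * 8 ^ u + 3 * u + 4 ≤ d) (ha : a.Monic) (hac : IsCoprime a c)
    (had : a.natDegree < d) (hh : h.degree < j) (hj : j + a.natDegree + c.natDegree + 1 ≤ i) :
    |𝔼 g : degreeLT F i, md e a c h i (X ^ i + g.1) *
        gw (goodV F d u) r (od ((X ^ i + g.1) * A))| ≤
      4 * (u + 1 + A.natDegree) / (Fintype.card F : ℝ) ^ d + 1 / (Fintype.card F : ℝ) ^ b := by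
  have hq := card_pos' (F := F)
  have key : ∀ v ∈ goodV F d u, ∀ s ∈ monF F r,
      |𝔼 g : degreeLT F i, md e a c h i (X ^ i + g.1) * ind (v * s = od ((X ^ i + g.1) * A))| ≤
      𝔼 g : degreeLT F i, ind (v * s = od ((X ^ i + g.1) * A)) *
        (4 * ind (Bad d u ((X ^ i + g.1) * A)) + 1 / (Fintype.card F : ℝ) ^ b) := by
    intro v hv s hs
    obtain ⟨hs1, hs2⟩ := mem_monF.1 hs
    have hmem : ∀ x : degreeLT F (2 * (d + u)), (s ^ 2 * a * x.1) ^ 2 * A ∈ degreeLT F i :=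
      fun x => by
      rw [mem_degreeLT]
      by_cases hx : x.1 = 0
      · rw [hx, mul_zero, zero_pow two_ne_zero, zero_mul, degree_zero]
        exact WithBot.bot_lt_coe _
      have h1 := (natDegree_lt_iff_degree_lt hx).2 (mem_degreeLT.1 x.2)
      refine degree_le_natDegree.trans_lt (Nat.cast_lt.2 ?_)
      rw [mul_comm _ A, hA.natDegree_mul' (pow_ne_zero _
        (mul_ne_zero ((hs1.pow 2).mul ha).ne_zero hx)), natDegree_pow,
        ((hs1.pow 2).mul ha).natDegree_mul' hx, (hs1.pow 2).natDegree_mul ha, natDegree_pow]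
      omega
    have hod : ∀ g x : F[X], od ((X ^ i + (g + (s ^ 2 * a * x) ^ 2 * A)) * A) =
        od ((X ^ i + g) * A) := by
      intro g x
      rw [show (X ^ i + (g + (s ^ 2 * a * x) ^ 2 * A)) * A =
        (X ^ i + g) * A + (s ^ 2 * a * x * A) ^ 2 by ring, od_add, od_of_sq, add_zero]
    rw [expect_avg _ fun x : degreeLT F (2 * (d + u)) => (⟨_, hmem x⟩ : degreeLT F i),
      expect_avg (fun g : degreeLT F i => ind (v * s = od ((X ^ i + g.1) * A)) *
        (4 * ind (Bad d u ((X ^ i + g.1) * A)) + 1 / (Fintype.card F : ℝ) ^ b))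
        fun x : degreeLT F (2 * (d + u)) => (⟨_, hmem x⟩ : degreeLT F i)]
    refine (Finset.abs_expect_le _ _).trans (Finset.expect_le_expect fun g _ => ?_)
    simp only [Submodule.coe_add, hod]
    by_cases hW : v * s = od ((X ^ i + g.1) * A)
    · have h1 := QLine.local_line he (b := b) hu hr hA (monic_add_LT g).1 (monic_add_LT g).2 hv hs
        (by rw [(goodV_spec hv).2.1]; exact hN) hW hl hb ha hac had hh hj
      simp only [ind_pos hW, mul_one, one_mul, ← add_assoc]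
      rwa [Finset.expect_add_distrib, Fintype.expect_const, ← Finset.mul_expect]
    · simp [ind_neg hW]
  simp only [gw, Finset.mul_sum, Finset.expect_sum_comm]
  refine (Finset.abs_sum_le_sum_abs _ _).trans ((Finset.sum_le_sum fun v hv =>
    (Finset.abs_sum_le_sum_abs _ _).trans (Finset.sum_le_sum fun s hs => key v hv s hs)).trans ?_)
  simp only [← Finset.expect_sum_comm, ← Finset.sum_mul]
  refine (Finset.expect_le_expect (g := fun g : degreeLT F i =>
    4 * ind (Bad d u ((X ^ i + g.1) * A)) + 1 / (Fintype.card F : ℝ) ^ b) fun g _ =>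
      mul_le_of_le_one_left (by have := ind_nonneg (Bad d u ((X ^ i + g.1) * A)); positivity)
        (gw_le_one hr _)).trans ?_
  rw [Finset.expect_add_distrib, Fintype.expect_const, ← Finset.mul_expect, mul_div_assoc]
  gcongr
  exact expect_bad (X ^ i) hA.ne_zero hB (by omega)

end Pool.Agent.MP_f37147_nt

end

section

/- Divisors of degree slightly above `n`. -/

set_option autoImplicit false

namespace Pool.Agent.MP_f37147_nt

open Polynomial Finset Pool.Agent.MP_4fffd4_nt Pool.Agent.MP_c853c5_nt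
open scoped BigOperators

namespace QMid

/-- Cancellation on lines for the twisted Moebius function. -/
def Line2 {F : Type*} [Field F] [Fintype F] [CharP F 2] (N L κ : ℕ) (w : F[X] → ℝ) : Prop :=
  ∀ (e : F → ℝ) (A B a c h : F[X]) (i j : ℕ), Chr e → A.Monic → od (A * B) = 1 →
    i + A.natDegree = 2 * N + 1 → A.natDegree + 2 * L + 2 * a.natDegree ≤ i → a.Monic →
    IsCoprime a c → a.natDegree ≤ κ → h.degree < j → j + a.natDegree + c.natDegree + 1 ≤ i →
    |𝔼 g : degreeLT F i, md e a c h i (X ^ i + g.1) * w (od ((X ^ i + g.1) * A))| ≤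
      1 / (Fintype.card F : ℝ) ^ (3 * κ)

theorem pack_of2 {F : Type*} [Field F] [Fintype F] [CharP F 2] {N L κ d u r k : ℕ} (hu : 7 ≤ u)
    (hr : r < d) (hN : ∑ j : Fin (u + 1), (d + j) + r = N) (h1 : 4 * d + 2 * u ≤ L)
    (h2 : 2 * L ≤ N) (h3 : 2 * (4 * κ) * 8 ^ u + 3 * u + 4 ≤ d) (h4 : 6 * κ ≤ r)
    (h5 : 2 * N ≤ 2 ^ k * (r - 6 * κ)) (h6 : 2 ^ (2 * k + 3) * (24 * κ) ≤ r - 6 * κ)
    (h7 : (2 * N) ^ (u + 1) ≤ 2 ^ κ) (h8 : 1 ≤ κ) :
    ∃ (w : F[X] → ℝ) (ρ : ℝ), Pack N L κ w ρ ∧ Line2 N L κ w := by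
  have hq := card_pos' (F := F)
  have hq2 := two_le_card (F := F)
  have hq1 : (1 : ℝ) ≤ Fintype.card F := one_le_two.trans hq2
  have h9 : ((2 * N : ℝ)) ^ (u + 1) ≤ (Fintype.card F : ℝ) ^ κ :=
    le_trans (by exact_mod_cast h7) (pow_le_pow_left₀ zero_le_two hq2 κ)
  have h10 : 5 * κ ≤ d := by
    have := Nat.one_le_pow u 8 (by norm_num)
    nlinarith
  have hnum : ∀ A : F[X], A.natDegree ≤ 2 * N + 1 → 4 * ((u : ℝ) + 1 + A.natDegree) /
      (Fintype.card F : ℝ) ^ d + 1 / (Fintype.card F : ℝ) ^ (4 * κ) ≤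
      1 / (Fintype.card F : ℝ) ^ (3 * κ) := by
    intro A hd
    have e1 : 4 * ((u : ℝ) + 1 + A.natDegree) ≤ (Fintype.card F : ℝ) ^ κ := by
      refine le_trans ?_ h9
      have : 4 * (u + 1 + A.natDegree) ≤ (2 * N) ^ (u + 1) := by
        have a1 : (2 * N) ^ 2 ≤ (2 * N) ^ (u + 1) := Nat.pow_le_pow_right (by omega) (by omega)
        have a2 : 4 * (u + 1 + A.natDegree) ≤ 16 * N := by omega
        nlinarith
      exact_mod_cast this
    have e2 : 4 * ((u : ℝ) + 1 + A.natDegree) / (Fintype.card F : ℝ) ^ d ≤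
        1 / (Fintype.card F : ℝ) ^ (4 * κ) := by
      rw [div_le_div_iff₀ (by positivity) (by positivity), one_mul]
      refine (mul_le_mul_of_nonneg_right e1 (by positivity)).trans ?_
      rw [← pow_add]
      exact pow_le_pow_right₀ hq1 (by omega)
    refine (add_le_add e2 le_rfl).trans ?_
    rw [← add_div, div_le_div_iff₀ (by positivity) (by positivity), one_mul]
    calc _ ≤ (Fintype.card F : ℝ) ^ 1 * (Fintype.card F : ℝ) ^ (3 * κ) := by
          gcongr; linarith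
      _ ≤ _ := by rw [← pow_add]; exact pow_le_pow_right₀ hq1 (by omega)
  refine ⟨gw (goodV F d u) r, (goodV F d u).card /
    (Fintype.card F : ℝ) ^ (∑ j : Fin (u + 1), (d + j)), ⟨fun W => ⟨gw_nonneg _ _ _,
      gw_le_one hr W⟩, ?_, ?_, fun A B F₀ l ψ hA hB hF hd hl hl' hψ => ?_, fun Δ hΔ hd => ?_⟩,
      fun e A B a c h i j he hA hB hi hl ha hac hd hh hj => (line2 (b := 4 * κ) he (by omega) hr hA
        hB (by rw [hN, hi]) (by omega) h3 ha hac (by omega) hh hj).trans (hnum A (by omega))⟩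
  · rw [div_le_one (by positivity), ← Nat.cast_pow, ← card_monF, Nat.cast_le]
    exact Finset.card_le_card fun v hv => mem_monF.2 ⟨(goodV_spec hv).1, (goodV_spec hv).2.1⟩
  · rw [le_div_iff₀ (by positivity), one_div_mul_eq_div]
    refine le_trans ?_ (card_goodV (by omega))
    have : (0 : ℝ) < d := by exact_mod_cast (by omega)
    refine div_le_div_of_nonneg_left (by positivity) (by positivity) (le_trans ?_ h9)
    have : (d + u : ℝ) ≤ N := by exact_mod_cast (by omega)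
    gcongr
  · exact (line (b := 4 * κ) (by omega) hr hA hB hF rfl (by rw [hN, hd]) hl (by omega) h3
      hψ).trans (hnum A (by omega))
  · have := variance (T := goodV F d u) (N₁ := ∑ j : Fin (u + 1), (d + j)) (r := r) (L := L)
      (k := k) (b := 24 * κ) (Δ := Δ) (fun v hv => ⟨(goodV_spec hv).1, (goodV_spec hv).2.1,
        (goodV_spec hv).2.2 Δ hΔ (by omega)⟩) hΔ (by omega) (by omega) (by omega)
      (hN ▸ h5.trans (Nat.mul_le_mul_left _ (by omega))) (by omega)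
    rw [hN] at this
    refine this.trans ?_
    rw [div_le_div_iff₀ (by positivity) (by positivity), one_mul]
    calc _ ≤ (Fintype.card F : ℝ) ^ 2 * (Fintype.card F : ℝ) ^ Δ.natDegree *
          (Fintype.card F : ℝ) ^ (40 * κ) := by
          gcongr; nlinarith
      _ ≤ _ := by rw [← pow_add, ← pow_add]; exact pow_le_pow_right₀ hq1 (by omega)

theorem exists_pack2 (R : ℕ) (hR : 1 ≤ R) : ∃ C : ℕ, 100 * R ≤ C ∧ ∃ N₀ : ℕ, ∀ N, N₀ ≤ N →
    ∀ L, N ≤ R * L → 2 * L ≤ N → ∀ (F : Type*) [Field F] [Fintype F] [CharP F 2],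
      ∃ (w : F[X] → ℝ) (ρ : ℝ), Pack N L (N / C) w ρ ∧ Line2 N L (N / C) w := by
  obtain ⟨u, hu⟩ : ∃ u, u + 1 = 8 * R := ⟨8 * R - 1, by omega⟩
  obtain ⟨k, hk⟩ : ∃ k, 16 * (u + 1) ≤ 2 ^ k := ⟨_, Nat.lt_two_pow_self.le⟩
  obtain ⟨c₀, hc₀⟩ : ∃ c₀ : ℕ, ∀ d : ℕ, ∑ j : Fin (u + 1), (d + j) = (u + 1) * d + c₀ :=
    ⟨∑ j : Fin (u + 1), (j : ℕ), fun d => by rw [Finset.sum_add_distrib]; simp⟩
  set C' := 96 * 2 ^ (2 * k + 3) + 16 * 8 ^ u + 100 with hC'
  have hC : 0 < 2 * (u + 1) * C' := by positivity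
  obtain ⟨N₁, hN₁⟩ := poly_le 2 (u + 1) _ hC
  refine ⟨2 * (u + 1) * C', by
    have : 100 ≤ C' := Nat.le_add_left _ _
    nlinarith, N₁ + 2 * (u + 1) * C' + c₀ +
    (2 * (u + 1) + 1) * (2 * c₀ + 6 * u + 8), fun N hN L hL hL' F _ _ _ => ?_⟩
  obtain ⟨N', rfl⟩ : ∃ N', N = N' + c₀ := ⟨N - c₀, by omega⟩
  have a1 := Nat.div_mul_le_self (2 * N') (2 * (u + 1) + 1)
  have a2 := Nat.lt_mul_div_succ (2 * N') (b := 2 * (u + 1) + 1) (by omega)
  have a3 : 2 * c₀ + 6 * u + 8 ≤ 2 * N' / (2 * (u + 1) + 1) :=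
    (Nat.le_div_iff_mul_le (by omega)).2 (by rw [mul_comm]; omega)
  generalize 2 * N' / (2 * (u + 1) + 1) = d at a1 a2 a3
  obtain ⟨r, hr⟩ : ∃ r, (u + 1) * d + r = N' := ⟨N' - (u + 1) * d, by
    have : (u + 1) * d ≤ N' := by nlinarith
    omega⟩
  have b1 : d ≤ 2 * r := by nlinarith
  have b2 : r < d := by nlinarith
  have b3 : N' + c₀ ≤ 2 * (u + 1) * d := by nlinarith
  have b4 := Nat.div_mul_le_self (N' + c₀) (2 * (u + 1) * C')
  have b5 : 1 ≤ (N' + c₀) / (2 * (u + 1) * C') := (Nat.le_div_iff_mul_le hC).2 (by omega)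
  have b6 := hN₁ (N' + c₀) (by omega)
  generalize (N' + c₀) / (2 * (u + 1) * C') = κ at b4 b5 b6 ⊢
  have b7 : κ * C' ≤ d := Nat.le_of_mul_le_mul_left (c := 2 * (u + 1)) (by nlinarith) (by omega)
  have b8 : 8 * d ≤ L := Nat.le_of_mul_le_mul_left (c := R) (by nlinarith) (by omega)
  rw [hC', mul_add, mul_add] at b7
  refine pack_of2 (d := d) (u := u) (r := r) (k := k) (by omega) b2 (by rw [hc₀]; omega) (by omega)
    hL' (by
      have : κ * (16 * 8 ^ u) = 2 * (2 * (4 * κ) * 8 ^ u) := by ring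
      omega) (by omega) ?_ (by
      have : κ * (96 * 2 ^ (2 * k + 3)) = 4 * (2 ^ (2 * k + 3) * (24 * κ)) := by ring
      omega) b6 b5
  have b9 : d ≤ 4 * (r - 6 * κ) := by omega
  calc _ ≤ 16 * (u + 1) * (r - 6 * κ) := by nlinarith
    _ ≤ _ := Nat.mul_le_mul_right _ hk

variable {F : Type*} [Field F] [Fintype F] [CharP F 2]

open SMu in
theorem md_le {N L κ : ℕ} {w : F[X] → ℝ} {ρ : ℝ} (hp : Pack N L κ w ρ) (hl : Line2 N L κ w)
    {e : F → ℝ} (he : Chr e) {a c h : F[X]} {i j t : ℕ} (hκ : 3 ≤ κ) (ht : 12 * κ + 4 ≤ t)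
    (hN : i + t = 2 * N + 1) (hl' : t + 2 * L + 2 * a.natDegree ≤ i) (ha : a.Monic)
    (hac : IsCoprime a c) (hd : a.natDegree ≤ κ) (hh : h.degree < j)
    (hj : j + a.natDegree + c.natDegree + 1 ≤ i) :
    |𝔼 g : degreeLT F i, md e a c h i (X ^ i + g.1)| ≤ 1 / (Fintype.card F : ℝ) ^ κ := by
  have hq := card_pos' (F := F)
  have hq1 : (1 : ℝ) ≤ Fintype.card F := one_le_two.trans two_le_card
  obtain ⟨A₂, hA₂⟩ := exists_irr (F := F) (a := t - 12 * κ) (by omega)
  obtain ⟨h₂, h₃, h₄⟩ := mem_irrF.1 hA₂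
  obtain ⟨A₁, h₁, h0⟩ := exists_comp h₂ h₄
  have ha' : A₂.natDegree + 2 * (6 * κ) = t := by omega
  have hφ : ∀ g : degreeLT F i, ind ((X ^ i + g.1).natDegree = i) * md e a c h i (X ^ i + g.1) =
      md e a c h i (X ^ i + g.1) := fun g => by rw [ind_pos (monic_add_LT g).2, one_mul]
  have h1 := box (fun y : degreeLT F (6 * κ) => fam (6 * κ) A₂ A₁ y.1) (fun _ => A₂)
    (fun y y' => y.1 + y'.1) (a := t) (l := i) (L := L)
    (fun y => ⟨(fam_monic h₂ h₁ y).1, (fam_monic h₂ h₁ y).2.trans ha', od_fam h0 _⟩)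
    (fun y y' => od_fam_fam h0 _ _) (by omega)
    (fun g => ind ((X ^ i + g).natDegree = i) * md e a c h i (X ^ i + g)) w
    (fun g => by
      by_cases hg : (X ^ i + g).natDegree = i
      · rw [ind_pos hg, one_mul]; exact abs_md_le he hac h hg
      · rw [ind_neg hg, zero_mul, abs_zero]; exact zero_le_one) hp.w01
    (le_trans (by positivity) hp.ge) hp.le (θ := 1 / (Fintype.card F : ℝ) ^ (3 * κ))
    (ε := 1 / (Fintype.card F : ℝ) ^ (3 * κ)) (by positivity) (X ^ i) fun y => by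
      simp only [hφ]
      exact hl e _ A₂ a c h i j he (fam_monic h₂ h₁ y).1 (od_fam h0 _)
        (by rw [(fam_monic h₂ h₁ y).2, ha', hN]) (by rw [(fam_monic h₂ h₁ y).2, ha']; exact hl')
        ha hac hd hh hj
  simp only [hφ] at h1
  have h2 := (mul_le_mul_of_nonneg_right hp.ge (abs_nonneg _)).trans h1
  rw [one_div_mul_eq_div, div_le_iff₀ (by positivity), card_degreeLT] at h2
  have h3 : 𝔼 y : degreeLT F (6 * κ), 𝔼 y' : degreeLT F (6 * κ), ind (y ≠ y') *
      𝔼 z : degreeLT F ((i + t) / 2), vv L w ρ (y.1 + y'.1)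
        (od (X ^ i * fam (6 * κ) A₂ A₁ y'.1) + z.1) ≤ 1 / (Fintype.card F : ℝ) ^ (6 * κ) := by
    refine expect_ind_le' _ (by positivity) fun y y' hy => ?_
    obtain ⟨m1, m2⟩ := fam_monic h₂ h₁ y'
    obtain ⟨m3, m4⟩ := monic_od ((monic_X_pow i).mul m1) (N := N)
      (by rw [(monic_X_pow i).natDegree_mul m1, natDegree_X_pow, m2, ha', hN])
    have e1 := expect_mon m3 m4 (z := 0) (by rw [degree_zero]; exact WithBot.bot_lt_coe _)
      (vv L w ρ (y.1 + y'.1))
    simp only [add_zero] at e1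
    rw [show (i + t) / 2 = N by omega, e1]
    exact (vv_le hp hy).trans
      (one_div_le_one_div_of_le (by positivity) (pow_le_pow_right₀ hq1 (by omega)))
  simp only [vv] at h3
  refine h2.trans (le_trans ?_ (fin_bound hκ))
  refine (mul_le_mul_of_nonneg_right (add_le_add le_rfl (div_le_div_of_nonneg_right
    (add_le_add le_rfl h3) (by positivity))) (by positivity)).trans ?_
  push_cast
  have : (1 : ℝ) / (Fintype.card F : ℝ) ^ (2 * κ) ≥ 0 := by positivity
  calc _ = 2 / (Fintype.card F : ℝ) ^ (2 * κ) +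
        (Fintype.card F : ℝ) ^ (4 * κ) * (2 / (Fintype.card F : ℝ) ^ (6 * κ)) := by
        field_simp; ring
    _ ≤ _ := by gcongr; norm_num

theorem RR_le {e : F → ℝ} (he : Chr e) (a c : F[X]) {n j : ℕ} (hj : 0 < j) {σ : ℝ}
    (H : ∀ h : F[X], h.degree < j →
      |𝔼 g : degreeLT F (n + j), md e a c h (n + j) (X ^ (n + j) + g.1)| ≤ σ) :
    |RR a c n (n + j)| ≤ (Fintype.card F : ℝ) ^ (n + j) * σ := by
  classical
  have hq := card_pos' (F := F)
  have h2 : (2 : F[X]) = 0 := by exact_mod_cast CharP.cast_eq_zero F[X] 2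
  have hX : (X ^ n : F[X]).degree < (n + j : ℕ) := by
    rw [degree_X_pow]; exact_mod_cast (by omega)
  have key : ∀ g : degreeLT F (n + j), mu (X ^ (n + j) + g.1) * cnt a c n (X ^ (n + j) + g.1) =
      𝔼 h : degreeLT F j, e ((h.1 * X ^ n).coeff (n + j - 1)) *
        md e a c h.1 (n + j) (X ^ (n + j) + g.1) := fun g => by
    obtain ⟨m1, m2⟩ := monic_add_LT g
    generalize X ^ (n + j) + g.1 = D at m1 m2
    have hD : D.degree = (n + j : ℕ) := by rw [degree_eq_natDegree m1.ne_zero, m2]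
    have e1 : ∀ h : degreeLT F j, (h.1 * X ^ n).coeff (n + j - 1) = SFour.res (h.1 * X ^ n) D :=
      fun h => by
        rw [SFour.res_of_lt m1, m2]
        rw [hD, mul_comm]
        exact mem_degreeLT.1 (mul_mem_degreeLT (by rw [natDegree_X_pow]) h)
    have e2 : ∀ h : degreeLT F j, e ((h.1 * X ^ n).coeff (n + j - 1)) * md e a c h.1 (n + j) D =
        mu D * ∑ f ∈ ltF F (n + j), ind (D ∣ a * f ^ 2 + c) *
          e (SFour.res (h.1 * (X ^ n + f)) D) := fun h => by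
      rw [md, e1, mul_left_comm, Finset.mul_sum]
      congr 1
      refine Finset.sum_congr rfl fun f _ => ?_
      rw [mul_add h.1, SFour.res_add, he.add]
      ring
    simp only [e2]
    rw [← Finset.mul_expect, Finset.expect_sum_comm]
    simp only [← Finset.mul_expect, SFour.expect_res he _ m1 m2]
    rw [cnt]
    congr 1
    rw [← Finset.sum_subset (s₁ := monF F n) (s₂ := ltF F (n + j)) (fun f hf => ?_) fun f hf hf' => ?_]
    · refine Finset.sum_congr rfl fun f hf => ?_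
      obtain ⟨y, rfl⟩ : ∃ y : degreeLT F n, X ^ n + y.1 = f := by simpa [monF] using hf
      have hy := mem_degreeLT.1 y.2
      rw [show X ^ n + (X ^ n + y.1) = y.1 by linear_combination X ^ n * h2,
        (modByMonic_eq_self_iff m1).2 (hy.trans_le (by rw [hD]; exact_mod_cast (by omega))),
        ind_pos hy, mul_one]
    · obtain ⟨h1, h3⟩ := mem_monF.1 hf
      rw [mem_ltF, degree_eq_natDegree h1.ne_zero, h3]
      exact_mod_cast (by omega)
    · rw [(modByMonic_eq_self_iff m1).2 (by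
        rw [hD]; exact (degree_add_le _ _).trans_lt (max_lt hX (mem_ltF.1 hf)))]
      refine mul_eq_zero_of_right _ (ind_neg fun h => hf' ?_)
      have := monic_add_LT ⟨X ^ n + f, mem_degreeLT.2 h⟩
      rw [show X ^ n + (X ^ n + f) = f by linear_combination X ^ n * h2] at this
      exact mem_monF.2 this
  rw [RR, sum_monF, ← div_le_iff₀' (by positivity), ← abs_of_pos (pow_pos hq (n + j)), ← abs_div,
    ← expect_LT]
  simp only [key]
  rw [Finset.expect_comm]
  refine (Finset.abs_expect_le _ _).trans (Finset.expect_le univ_nonempty fun h _ => ?_)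
  rw [← Finset.mul_expect, abs_mul, he.toSgn.abs_eq, one_mul]
  exact H h.1 (mem_degreeLT.1 h.2)

end QMid

universe u

open QMid in
theorem mid_bound : ∃ C : ℕ, 0 < C ∧ ∃ n₀ : ℕ, ∀ n, n₀ ≤ n →
    ∀ (F : Type u) [Field F] [Fintype F] [CharP F 2] (a c : F[X]), a.Monic → IsCoprime a c →
      a.natDegree ≤ n / C → c.natDegree ≤ n / C → ∀ i, n < i → i ≤ n + n / C →
      |RR a c n i| ≤ (Fintype.card F : ℝ) ^ n / (Fintype.card F : ℝ) ^ (n / C) := by
  obtain ⟨C, hC, N₀, h⟩ := exists_pack2.{u} 20 (by norm_num)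
  refine ⟨C * 4, by omega, 2 * N₀ + 6 * C + 100, fun n hn F _ _ _ a c ha hac h1 h2 i h3 h4 => ?_⟩
  have hq := card_pos' (F := F)
  have hq1 : (1 : ℝ) ≤ Fintype.card F := one_le_two.trans two_le_card
  obtain ⟨j, rfl⟩ : ∃ j, i = n + j := ⟨i - n, by omega⟩
  obtain ⟨e, he⟩ := exists_chr (F := F)
  obtain ⟨N, hN⟩ : ∃ N, N = (n + j + 2 * ((n + j) / 20)) / 2 := ⟨_, rfl⟩
  obtain ⟨w, ρ, hp, hl⟩ := h N (by omega) ((n + j) / 20) (by omega) (by omega) F
  have a1 : 3 ≤ N / C := (Nat.le_div_iff_mul_le (by omega)).2 (by omega)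
  have a2 : N / C ≤ N / 2000 := Nat.div_le_div_left hC (by norm_num)
  have a3 : n / 2 / C ≤ N / C := Nat.div_le_div_right (by omega)
  rw [Nat.div_div_eq_div_mul, mul_comm, ← Nat.div_div_eq_div_mul] at a3
  rw [← Nat.div_div_eq_div_mul] at h1 h2 h4 ⊢
  refine (RR_le he a c (by omega) fun h hh => md_le hp hl he (t := 2 * N + 1 - (n + j)) a1
    (by omega) (by omega) (by omega) ha hac (by omega) hh (by omega)).trans ?_
  rw [mul_one_div, div_le_div_iff₀ (by positivity) (by positivity), ← pow_add, ← pow_add]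
  exact pow_le_pow_right₀ hq1 (by omega)

end Pool.Agent.MP_f37147_nt

end

section

/- Divisors of large degree. -/

set_option autoImplicit false

namespace Pool.Agent.MP_f37147_nt

open Polynomial Finset Pool.Agent.MP_4fffd4_nt Pool.Agent.MP_c853c5_nt
open scoped BigOperators

universe u

namespace QFar

variable {F : Type*} [Field F] [Fintype F] [CharP F 2]

theorem sqf_of {b : F} (hb : b ≠ 0) {m A D₁ D₂ s : F[X]} (h : A * D₁ = s ^ 2 + X * (C b * m) ^ 2)
    (hd : m ^ 2 ∣ D₁ - D₂) (h₂ : Squarefree D₂) : Squarefree D₁ := by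
  intro x hx
  rw [← sq] at hx
  have h1 : x ∣ od (A * D₁) := dvd_od (hx.mul_left A)
  rw [od_eq (η := C b * m) (by rw [h, derivative_odd]),
    (isUnit_C.2 (IsUnit.mk0 b hb)).dvd_mul_left] at h1
  have h3 := dvd_sub hx ((pow_dvd_pow_of_dvd h1 2).trans hd)
  rw [sub_sub_cancel, sq] at h3
  exact h₂ x h3

omit [Fintype F] [CharP F 2] in
theorem monic_shift {s M : F[X]} {k H : ℕ} (hs : s.Monic) (hk : s.natDegree = k)
    (hM : M.natDegree + H = k) (γ : degreeLT F H) :
    (s + M * γ.1).Monic ∧ (s + M * γ.1).natDegree = k := by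
  have h1 : (M * γ.1).degree < s.degree := by
    rw [degree_eq_natDegree hs.ne_zero, hk]
    exact mem_degreeLT.1 (mul_mem_degreeLT hM.le γ)
  exact ⟨hs.add_of_left h1, by rw [natDegree_add_eq_left_of_degree_lt h1, hk]⟩

/-- The Liouville function along a line. -/
theorem liou_line {e : F → ℝ} (he : Chr e) {b : F} (hb : b ≠ 0) {m s T : F[X]} {k H : ℕ} {ε : ℝ}
    (hm : m.Monic) (hs : s.Monic) (hT : T.Monic) (hk : s.natDegree = k)
    (hH : T.natDegree + 4 * m.natDegree + H = k) (hmk : m.natDegree < k)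
    (hε : ∀ (m' s' M : F[X]) (k' : ℕ), m'.Monic → s'.Monic → M.Monic → s'.natDegree = k' →
      M.natDegree + H = k' → m'.natDegree ≤ m.natDegree → k' ≤ k → k ≤ k' + m.natDegree →
      |𝔼 γ : degreeLT F H, e (phi b m' (s' + M * γ.1))| ≤ ε) :
    |𝔼 γ : degreeLT F H, (liou ((s + T * m ^ 4 * γ.1) ^ 2 + X * (C b * m) ^ 2) : ℝ)| ≤ ε := by
  classical
  obtain ⟨s', m', e1, e2, hu⟩ := extract_gcd s m
  have hdl : (gcd s m).Monic := by
    rw [← _root_.normalize_gcd]
    exact monic_normalize (gcd_ne_zero_of_left hs.ne_zero)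
  generalize gcd s m = dl at e1 e2 hdl
  have hs' : s'.Monic := hdl.of_mul_monic_left (e1 ▸ hs)
  have hm' : m'.Monic := hdl.of_mul_monic_left (e2 ▸ hm)
  have d1 : k = dl.natDegree + s'.natDegree := by rw [← hk, e1, hdl.natDegree_mul hs']
  have d2 : m.natDegree = dl.natDegree + m'.natDegree := by rw [e2, hdl.natDegree_mul hm']
  have hc : IsCoprime s' m' := (gcd_isUnit_iff _ _).1 hu
  have hM : (T * m ^ 3 * m').Monic := (hT.mul (hm.pow 3)).mul hm'
  have d3 : (T * m ^ 3 * m').natDegree + H = s'.natDegree := by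
    rw [(hT.mul (hm.pow 3)).natDegree_mul hm', hT.natDegree_mul (hm.pow 3), hm.natDegree_pow]
    omega
  have h0 := hε m' s' _ _ hm' hs' hM rfl d3 (by omega) (by omega) (by omega)
  have key : ∀ γ : degreeLT F H, (liou ((s + T * m ^ 4 * γ.1) ^ 2 + X * (C b * m) ^ 2) : ℝ) =
      (liou (s' ^ 2 + X * (C b * m') ^ 2) * e (phi b m' s')) *
        e (phi b m' (s' + T * m ^ 3 * m' * γ.1)) := by
    intro γ
    obtain ⟨g1, g2⟩ := monic_shift hs' rfl d3 γ
    have h1 := swan_inf he hb hm' g1 hs' g2 rfl (by omega)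
      (by
        rw [show T * m ^ 3 * m' * γ.1 = m' * (T * m ^ 3 * γ.1) by ring]
        exact hc.add_mul_left_left _)
      ⟨T * dl ^ 3 * γ.1, by rw [e2]; ring⟩
    have h2 : (s' + T * m ^ 3 * m' * γ.1) ^ 2 + X * (C b * m') ^ 2 ≠ 0 := fun h => by
      have := congrArg derivative h
      rw [derivative_odd, derivative_zero] at this
      exact pow_ne_zero 2 (mul_ne_zero (C_ne_zero.2 hb) hm'.ne_zero) this
    have h3 : (s + T * m ^ 4 * γ.1) ^ 2 + X * (C b * m) ^ 2 =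
        dl ^ 2 * ((s' + T * m ^ 3 * m' * γ.1) ^ 2 + X * (C b * m') ^ 2) := by
      have h4 : s + T * m ^ 4 * γ.1 = dl * (s' + T * m ^ 3 * m' * γ.1) := by
        linear_combination e1 + T * m ^ 3 * γ.1 * e2
      rw [h4]
      linear_combination X * C b ^ 2 * (m + dl * m') * e2
    rw [h3, liou_sq_mul hdl.ne_zero h2]
    rcases liou_cases (s' ^ 2 + X * (C b * m') ^ 2) with h | h <;> rw [h] at h1 ⊢ <;>
      push_cast at h1 ⊢ <;> linarith
  simp only [key]
  rw [← Finset.mul_expect, abs_mul, abs_mul, he.toSgn.abs_eq, mul_one]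
  rcases liou_cases (s' ^ 2 + X * (C b * m') ^ 2) with h | h <;> simpa [h] using h0

/-- The average along a line, for a fixed complementary divisor. -/
theorem local_line {b : F} (hb : b ≠ 0) {a c κ m f E T : F[X]} {H : ℕ} {ε : ℝ} (hε0 : 0 ≤ ε)
    (ha : a ≠ 0) (hE : E.Monic) (hac : a * c = κ ^ 2 + X * (C b * m) ^ 2)
    (hε : |𝔼 γ : degreeLT F H,
      (liou ((a * f + κ + a * (T * E) * m ^ 4 * γ.1) ^ 2 + X * (C b * m) ^ 2) : ℝ)| ≤ ε) :
    |𝔼 γ : degreeLT F H, ind (E ∣ a * (f + T * E * m ^ 4 * γ.1) ^ 2 + c) *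
      mu ((a * (f + T * E * m ^ 4 * γ.1) ^ 2 + c) /ₘ E)| ≤ ind (E ∣ a * f ^ 2 + c) * ε := by
  have e1 : ∀ γ : F[X], a * (f + T * E * m ^ 4 * γ) ^ 2 + c =
      a * f ^ 2 + c + E * (m ^ 2 * (a * T ^ 2 * E * m ^ 6 * γ ^ 2)) := fun γ => by
    rw [CharTwo.add_sq]; ring
  by_cases hd : E ∣ a * f ^ 2 + c
  swap
  · have : ∀ γ : F[X], ind (E ∣ a * (f + T * E * m ^ 4 * γ) ^ 2 + c) = 0 := fun γ =>
      ind_neg fun h => hd (by rwa [e1, dvd_add_left (dvd_mul_right _ _)] at h)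
    simp [this, ind_neg hd]
  rw [ind_pos hd, one_mul]
  obtain ⟨D, hD⟩ := hd
  have e2 : ∀ γ : F[X], a * (f + T * E * m ^ 4 * γ) ^ 2 + c =
      E * (D + m ^ 2 * (a * T ^ 2 * E * m ^ 6 * γ ^ 2)) := fun γ => by rw [e1, hD, ← mul_add]
  have e3 : ∀ γ : F[X], a * E * (D + m ^ 2 * (a * T ^ 2 * E * m ^ 6 * γ ^ 2)) =
      (a * f + κ + a * (T * E) * m ^ 4 * γ) ^ 2 + X * (C b * m) ^ 2 := fun γ => by
    rw [mul_assoc, ← e2, CharTwo.add_sq, CharTwo.add_sq, CharTwo.add_sq]
    linear_combination hac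
  simp only [e2, mul_divByMonic_cancel_left _ hE, ind_pos (dvd_mul_right E _), one_mul]
  by_cases hs : Squarefree D
  swap
  · have : ∀ γ : F[X], mu (D + m ^ 2 * (a * T ^ 2 * E * m ^ 6 * γ ^ 2)) = 0 := fun γ => by
      refine if_neg fun h => hs (sqf_of hb (m := m) (A := a * E) (s := a * f + κ) ?_ ?_ h)
      · simpa using e3 0
      · rw [sub_add_cancel_left, dvd_neg]
        exact dvd_mul_right _ _
    simpa [this] using hε0
  have key : ∀ γ : F[X], mu (D + m ^ 2 * (a * T ^ 2 * E * m ^ 6 * γ ^ 2)) = liou (a * E) *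
      (liou ((a * f + κ + a * (T * E) * m ^ 4 * γ) ^ 2 + X * (C b * m) ^ 2) : ℝ) := fun γ => by
    have h1 := sqf_of hb (e3 γ) (by rw [add_sub_cancel_left]; exact dvd_mul_right _ _) hs
    rw [mu, if_pos h1, ← e3, liou_mul (mul_ne_zero ha hE.ne_zero) h1.ne_zero]
    rcases liou_cases (a * E) with h | h <;> simp [h]
  simp only [key]
  rw [← Finset.mul_expect, abs_mul]
  rcases liou_cases (a * E) with h | h <;> simpa [h] using hε

theorem exists_data {g : F[X]} (hg : derivative g ≠ 0) : ∃ (b : F) (m κ : F[X]), b ≠ 0 ∧ m.Monic ∧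
    g = κ ^ 2 + X * (C b * m) ^ 2 ∧ 2 * m.natDegree ≤ g.natDegree ∧
    2 * κ.natDegree ≤ g.natDegree + 1 := by
  obtain ⟨κ, hκ⟩ := exists_od g
  have h0 : od g ≠ 0 := fun h => hg (by rw [← od_sq, h, zero_pow two_ne_zero])
  have hb := leadingCoeff_ne_zero.2 h0
  have h1 : C (od g).leadingCoeff * (od g * C (od g).leadingCoeff⁻¹) = od g := by
    rw [mul_left_comm, ← C_mul, mul_inv_cancel₀ hb, C_1, mul_one]
  have h2 : 2 * (od g).natDegree ≤ g.natDegree := by
    rw [← natDegree_pow, od_sq]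
    exact (natDegree_derivative_le g).trans (Nat.sub_le _ _)
  refine ⟨_, _, κ, hb, monic_mul_leadingCoeff_inv h0, by rwa [h1], by
    rwa [natDegree_mul_leadingCoeff_inv _ h0], ?_⟩
  rw [← natDegree_pow, show κ ^ 2 = g - X * od g ^ 2 by linear_combination -hκ]
  refine (natDegree_sub_le _ _).trans (max_le (Nat.le_succ _) (natDegree_mul_le.trans ?_))
  rw [natDegree_X, natDegree_pow]
  omega

omit [Fintype F] [CharP F 2] in
theorem monic_N {a c f : F[X]} {n : ℕ} (ha : a.Monic) (hf : f.Monic) (hn : f.natDegree = n)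
    {j : ℕ} (hc : c.natDegree < j * n + a.natDegree) :
    (a * f ^ j + c).Monic ∧ (a * f ^ j + c).natDegree = j * n + a.natDegree := by
  have h1 : (a * f ^ j).natDegree = j * n + a.natDegree := by
    rw [ha.natDegree_mul (hf.pow j), hf.natDegree_pow, hn, add_comm]
  have h2 : c.degree < (a * f ^ j).degree := degree_lt_degree (h1 ▸ hc)
  exact ⟨(ha.mul (hf.pow j)).add_of_left h2, by rw [natDegree_add_eq_left_of_degree_lt h2, h1]⟩

omit [CharP F 2] in
theorem sum_avg {n H : ℕ} {Q : F[X]} (hQ : Q.natDegree + H ≤ n) (G B : F[X] → ℝ)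
    (h : ∀ f ∈ monF F n, |𝔼 γ : degreeLT F H, G (f + Q * γ.1)| ≤ B f) :
    |∑ f ∈ monF F n, G f| ≤ ∑ f ∈ monF F n, B f := by
  rw [sum_monF, sum_monF, ← Fintype.card_mul_expect, ← Fintype.card_mul_expect, abs_mul,
    Nat.abs_cast, expect_avg _ fun γ : degreeLT F H => ⟨Q * γ.1, mul_mem_degreeLT hQ γ⟩]
  refine mul_le_mul_of_nonneg_left ((Finset.abs_expect_le _ _).trans
    (Finset.expect_le_expect fun y _ => ?_)) (Nat.cast_nonneg _)
  have := h _ (mem_monF.2 (monic_add_LT y))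
  simpa only [Submodule.coe_add, add_assoc] using this

omit [CharP F 2] in
theorem sum_ind_le {g : F[X]} (hg : g ≠ 0) (j : ℕ) :
    ∑ E ∈ monF F j, ind (E ∣ g) ≤ (divs g).card := by
  classical
  have := SPsi.sum_ind_mul (monF F j) (· ∣ g) fun _ => (1 : ℝ)
  simp only [mul_one, Finset.sum_const, nsmul_eq_mul] at this
  rw [this]
  exact_mod_cast Finset.card_le_card fun E hE =>
    (mem_divs hg).2 ⟨(mem_monF.1 (mem_filter.1 hE).1).1, (mem_filter.1 hE).2⟩

end QFar

open QFar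

theorem far_bound (R : ℕ) (hR : 1 ≤ R) : ∃ C : ℕ, 0 < C ∧
    ∀ (F : Type u) [Field F] [Fintype F] [CharP F 2], ∃ n₀ : ℕ, ∀ n, n₀ ≤ n → ∀ a c : F[X],
      a.Monic → derivative (a * c) ≠ 0 → a.natDegree ≤ n / C → c.natDegree ≤ n / C →
      ∀ i, n + n / R < i → i ≤ 2 * n + a.natDegree →
      |RR a c n i| ≤ (Fintype.card F : ℝ) ^ n / (Fintype.card F : ℝ) ^ (n / C) := by
  obtain ⟨C₁, hC₁, H₀, hinf⟩ := inf_bound.{u} (64 * R)
  refine ⟨16 * R * C₁ * 2, by positivity, fun F _ _ _ => ?_⟩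
  obtain ⟨n₁, hdiv⟩ := divs_bound (F := F) (3 * (16 * R * C₁ * 2)) (by positivity)
  obtain ⟨e, he⟩ := exists_chr (F := F)
  refine ⟨16 * R * (H₀ + 1) + n₁, fun n hn a c ha hac hda hdc i hi1 hi2 => ?_⟩
  obtain ⟨b, m, κ, hb, hm, e0, dm, dκ⟩ := exists_data hac
  have dac : (a * c).natDegree ≤ a.natDegree + c.natDegree := natDegree_mul_le
  have hq := card_pos' (F := F)
  set H := n / (16 * R) with hH
  set z := n / (16 * R * C₁ * 2) with hz
  have hR' : 0 < 16 * R := by omega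
  have z1 : 2 * z ≤ H / C₁ := by
    rw [hz, hH, Nat.div_div_eq_div_mul, ← Nat.div_div_eq_div_mul n _ 2]
    exact Nat.mul_div_le _ _
  have z2 : H / C₁ ≤ H := Nat.div_le_self _ _
  have z3 : 16 * H ≤ n / R := by
    rw [hH, mul_comm 16 R, ← Nat.div_div_eq_div_mul]
    exact Nat.mul_div_le _ _
  have z4 : n / R ≤ n := Nat.div_le_self _ _
  have z5 : H₀ + 1 ≤ H := (Nat.le_div_iff_mul_le hR').2 (by rw [mul_comm]; omega)
  have z6 : 2 * n ≤ 64 * R * H := by
    have h1 : n < 16 * R * (H + 1) := Nat.lt_mul_div_succ n hR'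
    have h2 : 16 * R * (H + 1) ≤ 16 * R * (2 * H) := Nat.mul_le_mul_left _ (by omega)
    have h3 : 64 * R * H = 2 * (16 * R * (2 * H)) := by ring
    omega
  have hN : ∀ f ∈ monF F n, (a * f ^ 2 + c).Monic ∧
      (a * f ^ 2 + c).natDegree = 2 * n + a.natDegree := fun f hf =>
    monic_N ha (mem_monF.1 hf).1 (mem_monF.1 hf).2 (by omega)
  have e1 : RR a c n i = ∑ E ∈ monF F (2 * n + a.natDegree - i), ∑ f ∈ monF F n,
      ind (E ∣ a * f ^ 2 + c) * mu ((a * f ^ 2 + c) /ₘ E) := by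
    unfold RR cnt
    simp only [Finset.mul_sum]
    rw [Finset.sum_comm, Finset.sum_comm (s := monF F (2 * n + a.natDegree - i))]
    refine Finset.sum_congr rfl fun f hf => ?_
    rw [← (hN f hf).2, ← SPsi.sum_swap (hN f hf).1 ((hN f hf).2 ▸ hi2) fun d _ => mu d]
    exact Finset.sum_congr rfl fun d _ => mul_comm _ _
  have h1 : ∀ E ∈ monF F (2 * n + a.natDegree - i), |∑ f ∈ monF F n,
      ind (E ∣ a * f ^ 2 + c) * mu ((a * f ^ 2 + c) /ₘ E)| ≤
      ∑ f ∈ monF F n, ind (E ∣ a * f ^ 2 + c) * (1 / (Fintype.card F : ℝ) ^ (H / C₁)) := by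
    intro E hE
    obtain ⟨hE1, hE2⟩ := mem_monF.1 hE
    obtain ⟨t, ht⟩ : ∃ t, t + E.natDegree + 4 * m.natDegree + H = n :=
      ⟨n - (E.natDegree + 4 * m.natDegree + H), by omega⟩
    have hT : (X ^ t * E).Monic := (monic_X_pow t).mul hE1
    have dT : (X ^ t * E).natDegree = t + E.natDegree := by
      rw [(monic_X_pow t).natDegree_mul hE1, natDegree_X_pow]
    refine sum_avg (H := H) (Q := X ^ t * E * m ^ 4) ?_
      (fun f => ind (E ∣ a * f ^ 2 + c) * mu ((a * f ^ 2 + c) /ₘ E)) _ fun f hf => ?_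
    · rw [hT.natDegree_mul (hm.pow 4), dT, hm.natDegree_pow, ht]
    obtain ⟨s1, s2⟩ := monic_N (c := κ) ha (mem_monF.1 hf).1 (mem_monF.1 hf).2 (j := 1) (by omega)
    rw [pow_one] at s1 s2
    refine local_line hb (by positivity) ha.ne_zero hE1 e0
      (liou_line he hb hm s1 (ha.mul hT) s2 ?_ (by omega) fun m' s' M k' g1 g2 g3 g4 g5 g6 g7 g8 =>
        hinf H (by omega) F e he b m' s' M k' hb g1 g2 g3 g4 g5 (by omega) (by omega) (by omega))
    rw [ha.natDegree_mul hT, dT]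
    omega
  rw [e1]
  refine (Finset.abs_sum_le_sum_abs _ _).trans ((Finset.sum_le_sum h1).trans ?_)
  rw [Finset.sum_comm]
  have h2 : ∀ f ∈ monF F n, ∑ E ∈ monF F (2 * n + a.natDegree - i),
      ind (E ∣ a * f ^ 2 + c) * (1 / (Fintype.card F : ℝ) ^ (H / C₁)) ≤
      1 / (Fintype.card F : ℝ) ^ z := by
    intro f hf
    have h3 := hdiv (3 * n) (by omega) _ (hN f hf).1.ne_zero (by rw [(hN f hf).2]; omega)
    rw [Nat.mul_div_mul_left _ _ (by norm_num), ← hz] at h3
    rw [← Finset.sum_mul]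
    calc _ ≤ (Fintype.card F : ℝ) ^ z * (1 / (Fintype.card F : ℝ) ^ (H / C₁)) :=
          mul_le_mul_of_nonneg_right ((sum_ind_le (hN f hf).1.ne_zero _).trans h3) (by positivity)
      _ ≤ _ := by
          rw [mul_one_div, div_le_div_iff₀ (by positivity) (by positivity), one_mul, ← pow_add]
          exact pow_le_pow_right₀ (one_le_two.trans two_le_card) (by omega)
  refine (Finset.sum_le_sum h2).trans_eq ?_
  rw [Finset.sum_const, card_monF, nsmul_eq_mul, Nat.cast_pow, mul_one_div]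

end Pool.Agent.MP_f37147_nt

end

section

/- The asymptotic formula. -/

set_option autoImplicit false

namespace Pool.Agent.MP_f37147_nt

open Polynomial Finset Pool.Agent.MP_4fffd4_nt Pool.Agent.MP_c853c5_nt
open scoped BigOperators

universe u

namespace QCore

variable {F : Type*} [Field F] [Fintype F]

theorem vm_eq {g : F[X]} (hg : g.Monic) : vm g = -∑ d ∈ divs g, mu d * d.natDegree := by
  classical
  have step : ∀ {P g' : F[X]}, P.Monic → Irreducible P → g'.Monic →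
      -∑ d ∈ divs (P * g'), mu d * d.natDegree =
        P.natDegree * ∑ d ∈ divs g', if P ∣ d then 0 else mu d := by
    intro P g' h1 h2 h3
    rw [SConv.sum_divs_mul h1 h2 h3.ne_zero, mul_sum, ← sum_neg_distrib]
    refine sum_congr rfl fun d hd => ?_
    have hd' := ((mem_divs h3.ne_zero).1 hd).1
    rw [SConv.mu_mul h2 hd'.ne_zero, h1.natDegree_mul hd']
    split_ifs
    · simp
    · push_cast; ring
  induction hn : g.natDegree using Nat.strong_induction_on generalizing g with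
  | _ n ih =>
    by_cases h : g = 1
    · subst h
      simp [SConv.divs_one, SConv.vm_one]
    obtain ⟨P, g', h1, h2, h3, rfl⟩ := SConv.exists_fac hg h
    rw [step h1 h2 h3, SConv.vm_mul h1 h2]
    by_cases hP : P ∣ g'
    · obtain ⟨g'', rfl⟩ := hP
      have h4 := h1.of_mul_monic_left h3
      have h5 : P * g'' ≠ 1 := fun e => h2.not_isUnit (isUnit_of_dvd_one ⟨_, e.symm⟩)
      have h6 : (P * g'').natDegree < n := by
        rw [← hn, h1.natDegree_mul h3]
        have := h2.natDegree_pos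
        omega
      rw [if_pos (dvd_mul_right _ _), if_neg h5, add_zero, ih _ h6 h3 rfl, step h1 h2 h4,
        SConv.sum_divs_mul h1 h2 h4.ne_zero]
      congr 1
      refine sum_congr rfl fun d _ => ?_
      rw [if_pos (dvd_mul_right _ _), zero_add]
      split_ifs <;> rfl
    · rw [if_neg hP, zero_add, sum_congr rfl (g := mu) fun d hd =>
        if_neg fun h' => hP (h'.trans ((mem_divs h3.ne_zero).1 hd).2), sum_mu_divs h3]
      split_ifs with h7
      · rw [ind_pos h7, mul_one]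
      · rw [ind_neg h7, mul_zero]

theorem sum_divs_eq (g : F[X]) (φ : F[X] → ℝ) : ∑ d ∈ divs g, φ d =
    ∑ i ∈ range (g.natDegree + 1), ∑ d ∈ monF F i, φ d * ind (d ∣ g) := by
  classical
  unfold divs
  rw [sum_filter, sum_biUnion]
  · refine sum_congr rfl fun i _ => sum_congr rfl fun d _ => ?_
    split_ifs with h
    · rw [ind_pos h, mul_one]
    · rw [ind_neg h, mul_zero]
  · intro i _ j _ hij
    exact disjoint_left.2 fun d a b => hij ((mem_monF.1 a).2.symm.trans (mem_monF.1 b).2)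

omit [Fintype F] in
theorem monic_val {a c f : F[X]} {n : ℕ} (ha : a.Monic) (hf : f.Monic) (hn : f.natDegree = n)
    (hc : c.natDegree < n) :
    (a * f ^ 2 + c).Monic ∧ (a * f ^ 2 + c).natDegree = 2 * n + a.natDegree := by
  have h1 : (a * f ^ 2).Monic := ha.mul (hf.pow 2)
  have h2 : (a * f ^ 2).natDegree = 2 * n + a.natDegree := by
    rw [ha.natDegree_mul (hf.pow 2), hf.natDegree_pow, hn]; ring
  have h3 : c.natDegree < (a * f ^ 2).natDegree := by omega
  exact ⟨h1.add_of_left (degree_lt_degree h3), by rw [natDegree_add_eq_left_of_natDegree_lt h3, h2]⟩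

omit [Fintype F] in
theorem vm_val [CharP F 2] {a c f : F[X]} {n : ℕ} (ha : a.Monic) (hf : f.Monic)
    (hn : f.natDegree = n) (hc : a.natDegree + c.natDegree < n) (hd : derivative (a * c) ≠ 0) :
    vm (a * f ^ 2 + c) = (2 * n + a.natDegree) * ind (Irreducible (a * f ^ 2 + c)) := by
  obtain ⟨h1, h2⟩ := monic_val (c := c) ha hf hn (by omega)
  by_cases hi : Irreducible (a * f ^ 2 + c)
  · have := SConv.vm_pow h1 hi one_pos
    rw [pow_one, h2] at this
    rw [this, ind_pos hi]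
    push_cast
    ring
  rw [ind_neg hi, mul_zero]
  rcases SConv.vm_cases (a * f ^ 2 + c) with h | ⟨P, p1, p2, j, hj, e, -⟩
  · exact h
  exfalso
  have h2F : (2 : F[X]) = 0 := by exact_mod_cast CharP.cast_eq_zero F[X] 2
  have hj1 : j ≠ 1 := by
    rintro rfl
    rw [pow_one] at e
    exact hi (e ▸ p2)
  obtain ⟨k, rfl⟩ : ∃ k, j = k + 1 := ⟨j - 1, by omega⟩
  have hdv : P ^ k ∣ derivative (a * c) := by
    have e1 : derivative (a * c) = derivative (a * P ^ (k + 1)) := by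
      rw [← e, show a * (a * f ^ 2 + c) = (a * f) ^ 2 + a * c by ring, derivative_add,
        derivative_sq, map_ofNat, h2F]
      ring
    rw [e1, derivative_mul, derivative_pow_succ]
    exact dvd_add (Dvd.dvd.mul_left (pow_dvd_pow P (Nat.le_succ k)) _)
      (Dvd.dvd.mul_left (Dvd.dvd.mul_right (dvd_mul_left _ _) _) _)
  have h3 := natDegree_le_of_dvd hdv hd
  have h4 : (derivative (a * c)).natDegree ≤ a.natDegree + c.natDegree :=
    (natDegree_derivative_le _).trans ((Nat.sub_le _ _).trans natDegree_mul_le)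
  rw [p1.natDegree_pow] at h3
  rw [e, p1.natDegree_pow] at h2
  have h5 : P.natDegree ≤ k * P.natDegree := Nat.le_mul_of_pos_left _ (by omega)
  rw [add_mul, one_mul] at h2
  omega

theorem npr_eq [CharP F 2] {a c : F[X]} {n : ℕ} (ha : a.Monic)
    (hc : a.natDegree + c.natDegree < n) (hd : derivative (a * c) ≠ 0) :
    (2 * n + a.natDegree) * npr a c n =
      -∑ i ∈ range (2 * n + a.natDegree + 1), (i : ℝ) * RR a c n i := by
  have h1 : ∀ f ∈ monF F n, ((2 * n + a.natDegree : ℝ)) * ind (Irreducible (a * f ^ 2 + c)) =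
      -∑ i ∈ range (2 * n + a.natDegree + 1), ∑ d ∈ monF F i,
        mu d * d.natDegree * ind (d ∣ a * f ^ 2 + c) := by
    intro f hf
    obtain ⟨f1, f2⟩ := mem_monF.1 hf
    obtain ⟨m1, m2⟩ := monic_val (c := c) ha f1 f2 (by omega)
    rw [← vm_val ha f1 f2 hc hd, vm_eq m1, sum_divs_eq, m2]
  rw [npr, mul_sum, sum_congr rfl h1, sum_neg_distrib, sum_comm]
  congr 1
  refine sum_congr rfl fun i _ => ?_
  rw [sum_comm, RR, mul_sum]
  refine sum_congr rfl fun d hd => ?_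
  rw [cnt, (mem_monF.1 hd).2, ← mul_sum]
  ring

end QCore

theorem core : ∃ C : ℕ, 0 < C ∧ ∀ (F : Type u) [Field F] [Fintype F] [CharP F 2],
    ∃ n₀ : ℕ, CoreSt F C n₀ := by
  obtain ⟨C₁, p₁, n₁, h₁⟩ := mid_bound.{u}
  obtain ⟨C₂, p₂, h₂⟩ := far_bound.{u} C₁ p₁
  have hC : 0 < 8 * (C₁ + C₂ + 1) := by positivity
  obtain ⟨n₃, h₃⟩ := poly_le 18 2 _ hC
  refine ⟨_, hC, fun F _ _ _ => ?_⟩
  obtain ⟨n₂, h₂⟩ := h₂ F
  refine ⟨n₁ + n₂ + n₃ + 1, fun n hn a c ha hac hd da dc => ?_⟩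
  have h₃ := h₃ n (by omega)
  have hk : ∀ D, 0 < D → 8 * D ≤ 8 * (C₁ + C₂ + 1) → 8 * (n / (8 * (C₁ + C₂ + 1))) ≤ n / D := by
    intro D hD h
    rw [Nat.le_div_iff_mul_le hD]
    calc 8 * (n / (8 * (C₁ + C₂ + 1))) * D = n / (8 * (C₁ + C₂ + 1)) * (8 * D) := by ring
      _ ≤ n / (8 * (C₁ + C₂ + 1)) * (8 * (C₁ + C₂ + 1)) := Nat.mul_le_mul_left _ h
      _ ≤ n := Nat.div_mul_le_self _ _
  have k₀ := hk 1 one_pos (by omega)
  have k₁ := hk C₁ p₁ (by omega)
  have k₂ := hk C₂ p₂ (by omega)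
  rw [Nat.div_one] at k₀
  generalize n / (8 * (C₁ + C₂ + 1)) = k at *
  have hq := two_le_card (F := F)
  have hm := main_term ha hac n
  have hrest : ∀ i ∈ Ico (n + 1) (2 * n + a.natDegree + 1), |(i : ℝ) * RR a c n i| ≤
      3 * n * ((Fintype.card F : ℝ) ^ n / (Fintype.card F : ℝ) ^ (2 * k)) := by
    intro i hi
    obtain ⟨i1, i2⟩ := mem_Ico.1 hi
    rw [abs_mul, Nat.abs_cast]
    have i3 : (i : ℝ) ≤ 3 * n := by exact_mod_cast (by omega : i ≤ 3 * n)
    refine mul_le_mul i3 ?_ (abs_nonneg _) (by positivity)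
    by_cases h : i ≤ n + n / C₁
    · refine (h₁ n (by omega) F a c ha hac (by omega) (by omega) i (by omega) h).trans ?_
      gcongr
      · linarith
      · omega
    · refine (h₂ n (by omega) a c ha hd (by omega) (by omega) i (by omega) (by omega)).trans ?_
      gcongr
      · linarith
      · omega
  have hsum : |∑ i ∈ Ico (n + 1) (2 * n + a.natDegree + 1), (i : ℝ) * RR a c n i| ≤
      3 * n * (3 * n * ((Fintype.card F : ℝ) ^ n / (Fintype.card F : ℝ) ^ (2 * k))) := by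
    refine (abs_sum_le_sum_abs _ _).trans ((sum_le_card_nsmul _ _ _ hrest).trans ?_)
    rw [Nat.card_Ico, nsmul_eq_mul]
    gcongr
    exact_mod_cast (by omega : 2 * n + a.natDegree + 1 - (n + 1) ≤ 3 * n)
  rw [QCore.npr_eq ha (by omega) hd, ← sum_range_add_sum_Ico _
    (by omega : n + 1 ≤ 2 * n + a.natDegree + 1)]
  generalize (Fintype.card F : ℝ) = q at *
  have hn1 : (1 : ℝ) ≤ n := by exact_mod_cast (by omega : 1 ≤ n)
  have h4 : (18 * (n : ℝ)) ^ 2 ≤ q ^ k := by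
    have : (18 * (n : ℝ)) ^ 2 ≤ 2 ^ k := by exact_mod_cast h₃
    exact this.trans (by gcongr)
  have hq0 : 0 < q := by linarith
  have hQ : 0 < q ^ k := by positivity
  have hN : 0 < q ^ n := by positivity
  have b₁ : 8 * (n + 1) * 4 ^ a.natDegree * q ^ n / q ^ (n / 2) ≤ q ^ n / q ^ k / 2 := by
    have e1 : (4 : ℝ) ^ a.natDegree ≤ (q ^ k) ^ 2 := by
      calc (4 : ℝ) ^ a.natDegree ≤ 4 ^ k := by gcongr; norm_num
        _ = (2 ^ k) ^ 2 := by rw [← pow_mul, mul_comm, pow_mul]; norm_num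
        _ ≤ (q ^ k) ^ 2 := by gcongr
    have e2 : (q ^ k) ^ 4 ≤ q ^ (n / 2) := by
      rw [← pow_mul]
      exact pow_le_pow_right₀ (by linarith) (by omega)
    have e3 : 8 * ((n : ℝ) + 1) ≤ q ^ k / 2 := by nlinarith
    calc 8 * (n + 1) * 4 ^ a.natDegree * q ^ n / q ^ (n / 2)
        ≤ q ^ k / 2 * (q ^ k) ^ 2 * q ^ n / (q ^ k) ^ 4 := by gcongr
      _ = q ^ n / q ^ k / 2 := by field_simp
  have b₂ : 3 * n * (3 * n * (q ^ n / q ^ (2 * k))) ≤ q ^ n / q ^ k / 2 := by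
    have e3 : 3 * (n : ℝ) * (3 * n) ≤ q ^ k / 2 := by nlinarith
    calc 3 * n * (3 * n * (q ^ n / q ^ (2 * k))) = 3 * n * (3 * n) * (q ^ n / (q ^ k) ^ 2) := by
          rw [← pow_mul, mul_comm k 2]; ring
      _ ≤ q ^ k / 2 * (q ^ n / (q ^ k) ^ 2) := by gcongr
      _ = q ^ n / q ^ k / 2 := by field_simp
  have e : ∀ x y z : ℝ, -(x + y) - z = (-x - z) - y := fun x y z => by ring
  rw [e]
  refine (abs_sub _ _).trans ?_
  linarith

end Pool.Agent.MP_f37147_nt

end
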