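import Mathlib

section

/- Words, markers and the zone used in the density zero theorem. -/

set_option autoImplicit false

namespace Pool.Agent.MP_9b2bac_nt.Z

open Classical

/-- Two-sided sequences of letters. -/
abbrev Seq (d : ℕ) := ℤ → Fin d

variable {d : ℕ}

/-- The shift. -/
def sh (s : Seq d) : Seq d := fun i => s (i + 1)

/-- Position `i` is followed by `j` letters `u` and then the letter `v`. -/
def Hit (u v : Fin d) (j : ℕ) (s : Seq d) (i : ℤ) : Prop :=
  (∀ k : ℕ, 1 ≤ k → k ≤ j → s (i + k) = u) ∧ s (i + j + 1) = v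

/-- The marker map: exchange `u` and `v` at every position followed by `u^j v`. -/
noncomputable def mk (u v : Fin d) (j : ℕ) (s : Seq d) : Seq d :=
  fun i => if Hit u v j s i then Equiv.swap u v (s i) else s i

/-- Periodic of period `n > 0` and using every letter. -/
def Per (n : ℕ) (s : Seq d) : Prop :=
  0 < n ∧ (∀ i, s (i + n) = s i) ∧ Function.Surjective s

/-- The words of the levels in `I`. -/
def W (d : ℕ) (I : Finset ℕ) : Type := {s : Seq d // ∃ n ∈ I, Per n s}

theorem Per.sh {n : ℕ} {s : Seq d} (h : Per n s) : Per n (sh s) :=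
  ⟨h.1, fun i => by
    show s (i + n + 1) = s (i + 1)
    rw [show i + n + 1 = i + 1 + n by ring, h.2.1], fun a => by
    obtain ⟨i, hi⟩ := h.2.2 a
    exact ⟨i - 1, by simpa [Z.sh] using hi⟩⟩

theorem Per.unsh {n : ℕ} {s : Seq d} (h : Per n s) : Per n (fun i => s (i - 1)) :=
  ⟨h.1, fun i => by
    show s (i + n - 1) = s (i - 1)
    rw [show i + n - 1 = i - 1 + n by ring, h.2.1], fun a => by
    obtain ⟨i, hi⟩ := h.2.2 a
    exact ⟨i + 1, by simpa using hi⟩⟩

theorem Per.zper {n : ℕ} {s : Seq d} (h : Per n s) (i k : ℤ) : s (i + k * n) = s i := by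
  induction k using Int.induction_on with
  | zero => simp
  | succ k ih => rw [show i + ((k : ℤ) + 1) * n = i + k * n + n by ring, h.2.1, ih]
  | pred k ih => rw [← h.2.1, show i + (-(k : ℤ) - 1) * n + n = i + -k * n by ring, ih]

theorem Per.emod {n : ℕ} {s : Seq d} (h : Per n s) (i : ℤ) : s (i % n) = s i := by
  rw [← h.zper (i % n) (i / n), Int.emod_add_ediv_mul]

theorem finite_per (n : ℕ) : {s : Seq d | Per n s}.Finite := by
  refine Set.Finite.of_finite_image (f := fun s (k : Fin n) => s (k : ℕ)) (Set.toFinite _) ?_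
  intro s hs t ht hst
  funext i
  have hn : (0 : ℤ) < n := by exact_mod_cast hs.1
  have h0 := Int.emod_nonneg i hn.ne'
  have h1 := Int.emod_lt_of_pos i hn
  have := congrFun hst ⟨(i % n).toNat, by omega⟩
  simp only [Int.toNat_of_nonneg h0] at this
  rw [← hs.emod, ← ht.emod, this]

instance (I : Finset ℕ) : Finite (W d I) := by
  have : {s : Seq d | ∃ n ∈ I, Per n s}.Finite := by
    refine (I.finite_toSet.biUnion fun n _ => finite_per (d := d) n).subset ?_
    rintro s ⟨n, hn, h⟩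
    exact Set.mem_biUnion hn h
  exact this.to_subtype

/-- The shift as a permutation of the words. -/
def shW (d : ℕ) (I : Finset ℕ) : Equiv.Perm (W d I) where
  toFun s := ⟨sh s.1, let ⟨n, hn, h⟩ := s.2; ⟨n, hn, h.sh⟩⟩
  invFun s := ⟨fun i => s.1 (i - 1), let ⟨n, hn, h⟩ := s.2; ⟨n, hn, h.unsh⟩⟩
  left_inv s := Subtype.ext (funext fun i => by simp [sh])
  right_inv s := Subtype.ext (funext fun i => by simp [sh])

theorem shW_val (I : Finset ℕ) (s : W d I) : (shW d I s).1 = sh s.1 := rfl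

/-- The letter of slot `k` of the zone; `L d (d - 1) = 0` is the filler letter. -/
def L (d : ℕ) [NeZero d] (k : ℕ) : Fin d := Fin.ofNat d (k + 1)

/-- The markers that are used. -/
def Used [NeZero d] (u v : Fin d) (j : ℕ) : Prop :=
  (∃ r t, r < t ∧ t ≤ d - 1 ∧ u = L d r ∧ v = L d t ∧ j = 1) ∨ (u = 0 ∧ v ≠ 0 ∧ 1 ≤ j)

/-- Equivalence of words of period `n` generated by the used markers. -/
def Rel [NeZero d] (n : ℕ) : Seq d → Seq d → Prop :=
  Relation.EqvGen fun s t => Per n s ∧ ∃ u v j, Used u v j ∧ t = mk u v j s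

/-- At position `i` stands the zone `L0 L0 L1 L1 ...`, followed by `0` and preceded by at
least `J` letters `0`. -/
def Struct [NeZero d] (s : Seq d) (i : ℤ) (J : ℕ) : Prop :=
  (∀ k : ℕ, k < 2 * (d - 1) → s (i + k) = L d (k / 2)) ∧ s (i + (2 * (d - 1) : ℕ)) = 0 ∧
    ∀ k : ℕ, 1 ≤ k → k ≤ J → s (i - k) = 0

/-- The canonical word of period `n` with its zone at position `i`. -/
def can (d : ℕ) [NeZero d] (n : ℕ) (i : ℤ) : Seq d := fun x =>
  if (x - i) % n < (2 * (d - 1) : ℕ) then L d (((x - i) % n).toNat / 2) else 0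

end Pool.Agent.MP_9b2bac_nt.Z

end

section

/- The universal power series solution attached to every word. -/

set_option autoImplicit false

namespace Pool.Agent.MP_9b2bac_nt.Z

open PowerSeries Finset

variable {d : ℕ}

/-- The normal form of the system. -/
structure NF {C : Type} [CommRing C] (t : Fin d → Fin d → C) (w : Seq d → Fin d → C)
    (ξ : Seq d → C) : Prop where
  off : ∀ s j, j ≠ s 0 → w s j = t j (s 0) * (w (sh s) j + ξ s * w s j)
  sum : ∀ s, ∑ j, w s j = 1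
  diag : ∀ s, ξ s * w s (s 0) = - w (sh s) (s 0)

theorem NF.map {C C' : Type} [CommRing C] [CommRing C'] (f : C →+* C')
    {t : Fin d → Fin d → C} {w : Seq d → Fin d → C} {ξ : Seq d → C} (h : NF t w ξ) :
    NF (fun j k => f (t j k)) (fun s j => f (w s j)) (fun s => f (ξ s)) where
  off s j hj := by simpa using congrArg f (h.off s j hj)
  sum s := by rw [← map_sum, h.sum, map_one]
  diag s := by rw [← map_mul, h.diag, map_neg]

theorem NF.diag_eq {C : Type} [CommRing C] {t : Fin d → Fin d → C} {w : Seq d → Fin d → C}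
    {ξ : Seq d → C} (h : NF t w ξ) (s : Seq d) :
    w s (s 0) = 1 - ∑ j ∈ univ.erase (s 0), w s j := by
  rw [← h.sum s, ← add_sum_erase _ _ (mem_univ (s 0))]; ring

theorem NF.unique {C : Type} [CommRing C] (π : C) (hH : ∀ x : C, (∀ n, π ^ n ∣ x) → x = 0)
    {t : Fin d → Fin d → C} (ht : ∀ j k, j ≠ k → π ∣ t j k) {w w' : Seq d → Fin d → C}
    {ξ ξ' : Seq d → C} (h : NF t w ξ) (h' : NF t w' ξ') : w = w' ∧ ξ = ξ' := by
  have key : ∀ n, (∀ s j, π ^ n ∣ w s j - w' s j) ∧ ∀ s, π ^ n ∣ ξ s - ξ' s := by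
    intro n
    induction n with
    | zero => simp
    | succ n ih =>
      have h1 : ∀ s j, j ≠ s 0 → π ^ (n + 1) ∣ w s j - w' s j := by
        intro s j hj
        have : w s j - w' s j = t j (s 0) * ((w (sh s) j - w' (sh s) j) +
            ξ s * (w s j - w' s j) + (ξ s - ξ' s) * w' s j) := by
          linear_combination h.off s j hj - h'.off s j hj
        rw [this, pow_succ']
        exact mul_dvd_mul (ht _ _ hj) (dvd_add (dvd_add (ih.1 _ _) ((ih.1 _ _).mul_left _))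
          ((ih.2 _).mul_right _))
      have h2 : ∀ s j, π ^ (n + 1) ∣ w s j - w' s j := by
        intro s j
        by_cases hj : j = s 0
        · subst hj
          rw [h.diag_eq, h'.diag_eq, sub_sub_sub_cancel_left, ← neg_sub, dvd_neg,
            ← sum_sub_distrib]
          exact dvd_sum fun j hj => h1 s j (ne_of_mem_erase hj)
        · exact h1 s j hj
      refine ⟨h2, fun s => ?_⟩
      have h3 : π ∣ ∑ j ∈ univ.erase (s 0), w s j := dvd_sum fun j hj => by
        rw [h.off s j (ne_of_mem_erase hj)]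
        exact (ht _ _ (ne_of_mem_erase hj)).mul_right _
      have : ξ s - ξ' s = -(w (sh s) (s 0) - w' (sh s) (s 0)) - ξ' s * (w s (s 0) - w' s (s 0)) +
          (ξ s - ξ' s) * ∑ j ∈ univ.erase (s 0), w s j := by
        linear_combination h.diag s - h'.diag s - (ξ s - ξ' s) * h.diag_eq s
      rw [this]
      refine dvd_add (dvd_sub (dvd_neg.2 (h2 _ _)) ((h2 _ _).mul_left _)) ?_
      rw [pow_succ]; exact mul_dvd_mul (ih.2 s) h3
  exact ⟨funext fun s => funext fun j => sub_eq_zero.1 (hH _ fun n => (key n).1 s j),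
    funext fun s => sub_eq_zero.1 (hH _ fun n => (key n).2 s)⟩

theorem ps_haus {B : Type} [CommRing B] (x : B⟦X⟧) (h : ∀ n, (X : B⟦X⟧) ^ n ∣ x) : x = 0 := by
  ext n
  exact X_pow_dvd_iff.1 (h (n + 1)) n (Nat.lt_succ_self n)

theorem exists_fixed {B ι : Type} [CommRing B] (T : (ι → B⟦X⟧) → ι → B⟦X⟧)
    (hT : ∀ n x y, (∀ i, (X : B⟦X⟧) ^ n ∣ x i - y i) → ∀ i, (X : B⟦X⟧) ^ (n + 1) ∣ T x i - T y i) :
    ∃ x, T x = x := by
  let u : ℕ → ι → B⟦X⟧ := fun n => T^[n] 0
  have hu : ∀ n, u (n + 1) = T (u n) := fun n => Function.iterate_succ_apply' _ _ _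
  have h1 : ∀ n i, (X : B⟦X⟧) ^ n ∣ u (n + 1) i - u n i := by
    intro n
    induction n with
    | zero => simp
    | succ n ih => intro i; rw [hu (n + 1)]; nth_rewrite 2 [hu n]; exact hT n _ _ ih i
  have h2 : ∀ n k i, (X : B⟦X⟧) ^ n ∣ u (n + k) i - u n i := by
    intro n k i
    induction k with
    | zero => simp
    | succ k ih =>
      have := dvd_add ((pow_dvd_pow X (Nat.le_add_right n k)).trans (h1 (n + k) i)) ih
      rwa [sub_add_sub_cancel] at this
  let x : ι → B⟦X⟧ := fun i => PowerSeries.mk fun k => coeff k (u (k + 1) i)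
  have h3 : ∀ n i, (X : B⟦X⟧) ^ n ∣ x i - u n i := by
    intro n i
    refine X_pow_dvd_iff.2 fun k hk => ?_
    obtain ⟨c, rfl⟩ := Nat.exists_eq_add_of_lt hk
    have := X_pow_dvd_iff.1 (h2 (k + 1) c i) k (Nat.lt_succ_self k)
    rw [map_sub] at this ⊢
    rw [coeff_mk, show k + c + 1 = k + 1 + c by ring]
    linear_combination -this
  refine ⟨x, funext fun i => sub_eq_zero.1 (ps_haus _ fun n => ?_)⟩
  have := dvd_sub (hT n _ _ (h3 n) i) (h3 (n + 1) i)
  rw [← hu, sub_sub_sub_cancel_right] at this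
  exact (pow_dvd_pow X n.le_succ).trans this

theorem exists_NF {B : Type} [CommRing B] (t : Fin d → Fin d → B⟦X⟧)
    (ht : ∀ j k, j ≠ k → X ∣ t j k) : ∃ w ξ, NF t w ξ := by
  classical
  let o : (Seq d × Option (Fin d) → B⟦X⟧) → Seq d → Fin d → B⟦X⟧ := fun z s j =>
    t j (s 0) * (z (sh s, some j) + z (s, none) * z (s, some j))
  let v : (Seq d × Option (Fin d) → B⟦X⟧) → Seq d → Fin d → B⟦X⟧ := fun z s j =>
    if j = s 0 then 1 - ∑ j ∈ univ.erase (s 0), o z s j else o z s j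
  let T : (Seq d × Option (Fin d) → B⟦X⟧) → Seq d × Option (Fin d) → B⟦X⟧ := fun z i =>
    i.2.elim (-v z (sh i.1) (i.1 0) + z (i.1, none) * ∑ j ∈ univ.erase (i.1 0), o z i.1 j)
      (v z i.1)
  obtain ⟨z, hz⟩ := exists_fixed T (by
    intro n x y h
    have h1 : ∀ s j, j ≠ s 0 → (X : B⟦X⟧) ^ (n + 1) ∣ o x s j - o y s j := by
      intro s j hj
      have : o x s j - o y s j = t j (s 0) * ((x (sh s, some j) - y (sh s, some j)) +
          x (s, none) * (x (s, some j) - y (s, some j)) +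
          (x (s, none) - y (s, none)) * y (s, some j)) := by simp only [o]; ring
      rw [this, pow_succ']
      exact mul_dvd_mul (ht _ _ hj) (dvd_add (dvd_add (h _) ((h _).mul_left _))
        ((h _).mul_right _))
    have h1' : ∀ s, (X : B⟦X⟧) ^ (n + 1) ∣
        ∑ j ∈ univ.erase (s 0), o x s j - ∑ j ∈ univ.erase (s 0), o y s j := fun s => by
      rw [← sum_sub_distrib]; exact dvd_sum fun j hj => h1 s j (ne_of_mem_erase hj)
    have h2 : ∀ s j, (X : B⟦X⟧) ^ (n + 1) ∣ v x s j - v y s j := by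
      intro s j
      simp only [v]
      split_ifs with hj
      · rw [sub_sub_sub_cancel_left, ← neg_sub, dvd_neg]; exact h1' s
      · exact h1 s j hj
    rintro ⟨s, _ | j⟩
    · have h3 : X ∣ ∑ j ∈ univ.erase (s 0), o y s j := dvd_sum fun j hj =>
        (ht _ _ (ne_of_mem_erase hj)).mul_right _
      have : T x (s, none) - T y (s, none) = -(v x (sh s) (s 0) - v y (sh s) (s 0)) +
          x (s, none) * (∑ j ∈ univ.erase (s 0), o x s j - ∑ j ∈ univ.erase (s 0), o y s j) +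
          (x (s, none) - y (s, none)) * ∑ j ∈ univ.erase (s 0), o y s j := by
        simp only [T, Option.elim]; ring
      rw [this]
      refine dvd_add (dvd_add (dvd_neg.2 (h2 _ _)) ((h1' s).mul_left _)) ?_
      rw [pow_succ]; exact mul_dvd_mul (h _) h3
    · exact h2 s j)
  have e1 : ∀ s j, z (s, some j) = v z s j := fun s j => (congrFun hz (s, some j)).symm
  have e2 : ∀ s j, j ≠ s 0 → z (s, some j) = o z s j := fun s j hj => by
    rw [e1]; simp only [v, if_neg hj]
  have e3 : ∀ s, z (s, some (s 0)) = 1 - ∑ j ∈ univ.erase (s 0), o z s j := fun s => by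
    rw [e1]; simp only [v, if_true]
  refine ⟨fun s j => z (s, some j), fun s => z (s, none), fun s j hj => e2 s j hj, fun s => ?_,
    fun s => ?_⟩
  · rw [← add_sum_erase _ _ (mem_univ (s 0)), e3,
      sum_congr rfl fun j hj => e2 s j (ne_of_mem_erase hj)]
    ring
  · have := congrFun hz (s, none)
    simp only [T, Option.elim] at this
    rw [← e1] at this
    rw [e3]
    linear_combination -this

end Pool.Agent.MP_9b2bac_nt.Z

end

section

/- Periodic solutions in a valued field are classified by their words. -/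

set_option autoImplicit false

namespace Pool.Agent.MP_9b2bac_nt.Z

open Finset

variable {d : ℕ}

/-- The system. -/
structure Sys {C : Type} [CommRing C] (lam : Fin d → C) (ε : C) (x : ℤ → C)
    (w : ℤ → Fin d → C) : Prop where
  step : ∀ i j, ε * w (i + 1) j = (lam j - x i) * w i j
  sum : ∀ i, ∑ j, w i j = 1

theorem Sys.map {C C' : Type} [CommRing C] [CommRing C'] (f : C →+* C') {lam : Fin d → C}
    {ε : C} {x : ℤ → C} {w : ℤ → Fin d → C} (h : Sys lam ε x w) :
    Sys (fun j => f (lam j)) (f ε) (fun i => f (x i)) (fun i j => f (w i j)) where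
  step i j := by simpa using congrArg f (h.step i j)
  sum i := by rw [← map_sum, h.sum, map_one]

theorem zper {α : Type} {n : ℕ} {f : ℤ → α} (h : ∀ i, f (i + n) = f i) (i k : ℤ) :
    f (i + k * n) = f i := by
  induction k using Int.induction_on with
  | zero => simp
  | succ k ih => rw [show i + ((k : ℤ) + 1) * n = i + k * n + n by ring, h, ih]
  | pred k ih => rw [← h, show i + (-(k : ℤ) - 1) * n + n = i + -k * n by ring, ih]

theorem exists_max_per {α β : Type} [LinearOrder α] [Finite β] [Nonempty β] {n : ℕ} (hn : 0 < n)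
    (f : ℤ → β → α) (h : ∀ i, f (i + n) = f i) : ∃ i₀ j₀, ∀ i j, f i j ≤ f i₀ j₀ := by
  haveI : Nonempty (Fin n) := ⟨⟨0, hn⟩⟩
  obtain ⟨⟨a, b⟩, hab⟩ := Finite.exists_max fun p : Fin n × β => f (p.1 : ℕ) p.2
  refine ⟨(a : ℕ), b, fun i j => ?_⟩
  have hn' : (0 : ℤ) < n := by exact_mod_cast hn
  have h0 := Int.emod_nonneg i hn'.ne'
  have h1 := Int.emod_lt_of_pos i hn'
  have := hab (⟨(i % n).toNat, by omega⟩, j)
  simp only [Int.toNat_of_nonneg h0] at this
  rwa [← zper h (i % n) (i / n), Int.emod_add_ediv_mul] at this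

section val

variable {Ω Γ : Type} [Field Ω] [LinearOrderedCommGroupWithZero Γ] (v : Valuation Ω Γ)
  {lam : Fin d → Ω} {ε : Ω} {n : ℕ}

theorem eq_zero_of_le_mul {a e : Γ} (he : e < 1) (h : a ≤ e * a) : a = 0 := by
  by_contra ha
  exact absurd h (not_le.2 (mul_lt_of_lt_one_left (zero_lt_iff.2 ha) he))

theorem far_one (hl : ∀ j k, j ≠ k → v (lam j - lam k) = 1) {y : Ω} {a j : Fin d}
    (ha : v (lam a - y) < 1) (hj : j ≠ a) : v (lam j - y) = 1 := by
  rw [show lam j - y = (lam j - lam a) + (lam a - y) by ring,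
    v.map_add_eq_of_lt_left (by rw [hl j a hj]; exact ha), hl j a hj]

theorem Sys.far {x : ℤ → Ω} {w : ℤ → Fin d → Ω} (h : Sys lam ε x w) {i : ℤ} {j : Fin d}
    (hj : 1 ≤ v (lam j - x i)) : v (w i j) ≤ v ε * v (w (i + 1) j) := by
  rw [← v.map_mul, h.step, v.map_mul]
  exact le_mul_of_one_le_left zero_le hj

theorem Sys.exists_word (hε : v ε < 1) (hl : ∀ j k, j ≠ k → v (lam j - lam k) = 1) (hn : 0 < n)
    {x : ℤ → Ω} {w : ℤ → Fin d → Ω} (h : Sys lam ε x w) (hw : ∀ i, w (i + n) = w i) :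
    (∀ i j, v (w i j) ≤ 1) ∧ ∃ s : Seq d, ∀ i, v (lam (s i) - x i) < 1 := by
  classical
  have hne : Nonempty (Fin d) := by
    by_contra hc
    have := h.sum 0
    rw [not_nonempty_iff] at hc
    simp at this
  obtain ⟨i₀, j₀, hm⟩ := exists_max_per hn (fun i j => v (w i j)) fun i => by simp only [hw]
  have hle : ∀ i j, v (w i j) ≤ 1 := by
    by_contra hc
    push Not at hc
    obtain ⟨i, j, hij⟩ := hc
    have h1 : 1 < v (w i₀ j₀) := hij.trans_le (hm i j)
    have h0 : v (w i₀ j₀) ≠ 0 := (zero_lt_one.trans h1).ne'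
    have hf : ∀ j, 1 ≤ v (lam j - x i₀) → v (w i₀ j) < v (w i₀ j₀) := fun j hj =>
      (h.far v hj).trans_lt ((mul_le_mul_right (hm _ _) _).trans_lt
        (mul_lt_of_lt_one_left (zero_lt_iff.2 h0) hε))
    have hn0 : v (lam j₀ - x i₀) < 1 := by
      by_contra hc; exact lt_irrefl _ (hf j₀ (not_lt.1 hc))
    have h2 : v (∑ j ∈ univ.erase j₀, w i₀ j) < v (w i₀ j₀) :=
      v.map_sum_lt h0 fun j hj => hf j (far_one v hl hn0 (ne_of_mem_erase hj)).ge
    have h3 := v.map_add_eq_of_lt_left h2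
    rw [add_sum_erase _ _ (mem_univ j₀), h.sum, v.map_one] at h3
    exact h1.ne h3
  refine ⟨hle, ?_⟩
  have : ∀ i, ∃ a, v (lam a - x i) < 1 := by
    intro i
    by_contra hc
    push Not at hc
    have h2 : v (∑ j, w i j) < 1 := v.map_sum_lt one_ne_zero fun j _ =>
      (h.far v (hc j)).trans_lt ((mul_le_of_le_one_right' (hle _ _)).trans_lt hε)
    rw [h.sum, v.map_one] at h2
    exact lt_irrefl _ h2
  choose s hs using this
  exact ⟨s, hs⟩

theorem Sys.near_one (hε : v ε < 1) (hl : ∀ j k, j ≠ k → v (lam j - lam k) = 1)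
    {x : ℤ → Ω} {w : ℤ → Fin d → Ω} (h : Sys lam ε x w) (hle : ∀ i j, v (w i j) ≤ 1)
    {i : ℤ} {a : Fin d} (ha : v (lam a - x i) < 1) : v (w i a) = 1 := by
  classical
  have h2 : v (∑ j ∈ univ.erase a, w i j) < 1 := v.map_sum_lt one_ne_zero fun j hj =>
    (h.far v (far_one v hl ha (ne_of_mem_erase hj)).ge).trans_lt
      ((mul_le_of_le_one_right' (hle _ _)).trans_lt hε)
  have h3 : w i a = 1 + -∑ j ∈ univ.erase a, w i j := by
    rw [← h.sum i, ← add_sum_erase _ _ (mem_univ a)]; ring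
  rw [h3, v.map_add_eq_of_lt_left (by rwa [v.map_neg, v.map_one]), v.map_one]

theorem Sys.unique (hε : v ε < 1) (hl : ∀ j k, j ≠ k → v (lam j - lam k) = 1) (hn : 0 < n)
    {x x' : ℤ → Ω} {w w' : ℤ → Fin d → Ω} (h : Sys lam ε x w) (h' : Sys lam ε x' w')
    (hw : ∀ i, w (i + n) = w i) (hw' : ∀ i, w' (i + n) = w' i) {s : Seq d}
    (hs : ∀ i, v (lam (s i) - x i) < 1) (hs' : ∀ i, v (lam (s i) - x' i) < 1) :
    x = x' ∧ w = w' := by
  classical
  haveI : Nonempty (Fin d) := ⟨s 0⟩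
  have hle' := (h'.exists_word v hε hl hn hw').1
  obtain ⟨i₀, j₀, hm⟩ := exists_max_per hn (fun i j => v (w i j - w' i j))
    fun i => by simp only [hw, hw']
  set D := v (w i₀ j₀ - w' i₀ j₀) with hD
  have e : ∀ i j, (x i - x' i) * w' i j = (lam j - x i) * (w i j - w' i j) -
      ε * (w (i + 1) j - w' (i + 1) j) := fun i j => by
    linear_combination h.step i j - h'.step i j
  have hx : ∀ i, v (x i - x' i) ≤ D := fun i => by
    have := congrArg v (e i (s i))
    rw [v.map_mul, h'.near_one v hε hl hle' (hs' i), mul_one] at this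
    rw [this]
    refine v.map_sub_le ?_ ?_ <;> rw [v.map_mul]
    · exact (mul_le_of_le_one_left' (hs i).le).trans (hm _ _)
    · exact (mul_le_of_le_one_left' hε.le).trans (hm _ _)
  have h1 : ∀ i j, j ≠ s i → v (w i j - w' i j) ≤ v ε * D := fun i j hj => by
    have e2 : (lam j - x i) * (w i j - w' i j) =
        (x i - x' i) * w' i j + ε * (w (i + 1) j - w' (i + 1) j) := by rw [e]; ring
    have := congrArg v e2
    rw [v.map_mul, far_one v hl (hs i) hj, one_mul] at this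
    rw [this]
    refine v.map_add_le ?_ ?_ <;> rw [v.map_mul]
    · rw [mul_comm]
      exact mul_le_mul' ((h'.far v (far_one v hl (hs' i) hj).ge).trans
        (mul_le_of_le_one_right' (hle' _ _))) (hx i)
    · exact mul_le_mul_right (hm _ _) _
  have h2 : ∀ i j, v (w i j - w' i j) ≤ v ε * D := fun i j => by
    by_cases hj : j = s i
    · have : w i j - w' i j = -∑ k ∈ univ.erase j, (w i k - w' i k) := by
        have h3 := h.sum i
        have h4 := h'.sum i
        rw [← add_sum_erase _ _ (mem_univ j)] at h3 h4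
        rw [sum_sub_distrib]; linear_combination h3 - h4
      rw [this, v.map_neg]
      exact v.map_sum_le fun k hk => h1 i k (hj ▸ ne_of_mem_erase hk)
    · exact h1 i j hj
  have hD0 : D = 0 := eq_zero_of_le_mul hε (h2 i₀ j₀)
  refine ⟨funext fun i => sub_eq_zero.1 (v.zero_iff.1 (le_zero_iff.1 (hD0 ▸ hx i))),
    funext fun i => funext fun j => sub_eq_zero.1 (v.zero_iff.1 (le_zero_iff.1 (hD0 ▸ hm i j)))⟩

theorem Sys.surj (hε : v ε < 1) (hl : ∀ j k, j ≠ k → v (lam j - lam k) = 1) (hn : 0 < n)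
    {x : ℤ → Ω} {w : ℤ → Fin d → Ω} (h : Sys lam ε x w) (hw : ∀ i, w (i + n) = w i) {s : Seq d}
    (hs : ∀ i, v (lam (s i) - x i) < 1) (hne : ∀ j, ∃ i, w i j ≠ 0) : Function.Surjective s := by
  intro j
  by_contra hc
  push Not at hc
  obtain ⟨i₀, _, hm⟩ := exists_max_per (β := Unit) hn (fun i _ => v (w i j))
    fun i => by simp only [hw]
  have h0 : v (w i₀ j) = 0 := eq_zero_of_le_mul hε
    ((h.far v (far_one v hl (hs i₀) (hc i₀).symm).ge).trans (mul_le_mul_right (hm _ ()) _))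
  obtain ⟨i, hi⟩ := hne j
  exact hi (v.zero_iff.1 (le_zero_iff.1 (h0 ▸ hm i ())))

theorem word_per (hl : ∀ j k, j ≠ k → v (lam j - lam k) = 1) {x : ℤ → Ω}
    (hx : ∀ i, x (i + n) = x i) {s : Seq d} (hs : ∀ i, v (lam (s i) - x i) < 1) (i : ℤ) :
    s (i + n) = s i := by
  by_contra hc
  have := hs (i + n)
  rw [hx, far_one v hl (hs i) hc] at this
  exact lt_irrefl _ this

end val

end Pool.Agent.MP_9b2bac_nt.Z

end

section

set_option autoImplicit false

namespace Pool.Agent.MP_9b2bac_nt.Z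

variable {d : ℕ}

namespace ZSweep

section Basic

variable {u v : Fin d} {j : ℕ} {s : Seq d} {x : ℤ}

theorem mk_not (h : ¬ Hit u v j s x) : mk u v j s x = s x := if_neg h

theorem mk_hit (h : Hit u v j s x) : mk u v j s x = Equiv.swap u v (s x) := if_pos h

theorem mk_mid (y : ℤ) (h1 : x < y) (h2 : y ≤ x + j) (h : s y ≠ u) : mk u v j s x = s x :=
  mk_not fun hh => h (by
    have := hh.1 (y - x).toNat (by omega) (by omega)
    rwa [show x + ((y - x).toNat : ℤ) = y by omega] at this)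

theorem mk_last (y : ℤ) (hy : y = x + j + 1) (h : s y ≠ v) : mk u v j s x = s x :=
  mk_not fun hh => h (hy ▸ hh.2)

theorem mk_oth (h1 : s x ≠ u) (h2 : s x ≠ v) : mk u v j s x = s x := by
  by_cases h : Hit u v j s x
  · rw [mk_hit h, Equiv.swap_apply_of_ne_of_ne h1 h2]
  · exact mk_not h

theorem hit_of (h1 : ∀ y, x < y → y ≤ x + j → s y = u) (y : ℤ) (hy : y = x + j + 1)
    (h2 : s y = v) : Hit u v j s x :=
  ⟨fun k k1 k2 => h1 _ (by omega) (by omega), hy ▸ h2⟩

theorem hit_one (y z : ℤ) (hy : y = x + 1) (hz : z = x + 2) (h1 : s y = u) (h2 : s z = v) :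
    Hit u v 1 s x :=
  hit_of (fun w w1 w2 => by rwa [show w = y by push_cast at w2; omega]) z
    (by push_cast; omega) h2

theorem exists_last {n : ℕ} (h : Per n s) (a : Fin d) (x : ℤ) :
    ∃ z, z ≤ x ∧ s z = a ∧ ∀ w, z < w → w ≤ x → s w ≠ a := by
  obtain ⟨y, hy⟩ := h.2.2 a
  have hn : (1 : ℤ) ≤ n := by exact_mod_cast h.1
  obtain ⟨z, hz, hmax⟩ := Int.exists_greatest_of_bdd (P := fun z => z ≤ x ∧ s z = a)
    ⟨x, fun z hz => hz.1⟩ ⟨y + (-|x - y|) * n, by
      nlinarith [neg_abs_le (x - y), abs_nonneg (x - y)], by rw [h.zper, hy]⟩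
  exact ⟨z, hz.1, hz.2, fun w w1 w2 hw => absurd (hmax w ⟨w2, hw⟩) (by omega)⟩

end Basic

end ZSweep

open ZSweep

theorem mk_per (hd : 3 ≤ d) {n : ℕ} {s : Seq d} (h : Per n s) {u v : Fin d} (huv : u ≠ v)
    {j : ℕ} (hj : 1 ≤ j) : Per n (mk u v j s) := by
  refine ⟨h.1, fun i => ?_, fun a => ?_⟩
  · have e : Hit u v j s (i + n) ↔ Hit u v j s i := by
      unfold Hit
      simp only [add_right_comm i (n : ℤ), add_right_comm _ (n : ℤ) (1 : ℤ), h.2.1]
    by_cases hh : Hit u v j s i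
    · rw [mk_hit hh, mk_hit (e.2 hh), h.2.1]
    · rw [mk_not hh, mk_not (fun h' => hh (e.1 h')), h.2.1]
  · obtain ⟨c, hc⟩ : ∃ c : Fin d, c ∉ ({u, v} : Finset (Fin d)) := by
      refine Finset.exists_mem_notMem_of_card_lt_card (t := Finset.univ) ?_ |>.imp fun c hc => hc.2
      have := Finset.card_le_two (a := u) (b := v)
      rw [Finset.card_univ, Fintype.card_fin]
      omega
    simp only [Finset.mem_insert, Finset.mem_singleton, not_or] at hc
    obtain ⟨x, hx⟩ := h.2.2 c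
    obtain ⟨z, z1, z2, z3⟩ := exists_last h a x
    refine ⟨z, Eq.trans ?_ z2⟩
    by_cases hu : a = u
    · subst hu
      have : z ≠ x := fun e => hc.1 (by rw [← hx, ← e, z2])
      exact mk_mid (z + 1) (by omega) (by omega) (z3 _ (by omega) (by omega))
    · by_cases hv : a = v
      · subst hv
        have : z ≠ x := fun e => hc.2 (by rw [← hx, ← e, z2])
        rcases le_or_gt (z + j + 1) x with h1 | h1
        · exact mk_last _ rfl (z3 _ (by omega) h1)
        · exact mk_mid x (by omega) (by omega) (hx ▸ hc.1)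
      · exact mk_oth (z2 ▸ hu) (z2 ▸ hv)

namespace ZSweep

variable [NeZero d] {m : ℕ}

theorem L_val (hm : d = m + 1) {a : ℕ} (ha : a < m) : (L d a).val = a + 1 :=
  Nat.mod_eq_of_lt (by omega)

theorem L_top (hm : d = m + 1) : L d m = 0 := Fin.ext (by
  show (m + 1) % d = 0
  rw [← hm, Nat.mod_self])

theorem L_ne (hm : d = m + 1) {a : ℕ} (ha : a < m) : L d a ≠ 0 := fun h => by
  have := congrArg Fin.val h
  rw [L_val hm ha] at this
  simp at this

theorem L_ne' (hm : d = m + 1) {a b : ℕ} (ha : a < m) (hb : b < m) (h : a ≠ b) :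
    L d a ≠ L d b := fun e => by
  have := congrArg Fin.val e
  rw [L_val hm ha, L_val hm hb] at this
  omega

theorem exists_L (hm : d = m + 1) {e : Fin d} (he : e ≠ 0) : ∃ t, t < m ∧ e = L d t := by
  have h1 : e.val ≠ 0 := fun h => he (Fin.ext h)
  have h2 := e.2
  exact ⟨e.val - 1, by omega, Fin.ext (by rw [L_val hm (by omega)]; omega)⟩

/-- Reachable by used markers. -/
def Re (n : ℕ) (s t : Seq d) : Prop := Rel n s t ∧ Per n t

theorem Re.refl {n : ℕ} {s : Seq d} (h : Per n s) : Re n s s := ⟨Relation.EqvGen.refl _, h⟩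

theorem Re.trans {n : ℕ} {s t w : Seq d} (h : Re n s t) (h' : Re n t w) : Re n s w :=
  ⟨Relation.EqvGen.trans _ _ _ h.1 h'.1, h'.2⟩

theorem Re.short (hm : d = m + 1) (h2 : 2 ≤ m) {n : ℕ} {s t : Seq d} (h : Re n s t) {r a : ℕ}
    (hr : r < a) (ha : a ≤ m) : Re n s (mk (L d r) (L d a) 1 t) := by
  refine h.trans ⟨Relation.EqvGen.rel _ _ ⟨h.2, _, _, _,
    Or.inl ⟨r, a, hr, by omega, rfl, rfl, rfl⟩, rfl⟩, mk_per (by omega) h.2 ?_ le_rfl⟩
  rcases ha.lt_or_eq with h1 | rfl
  · exact L_ne' hm (by omega) h1 hr.ne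
  · rw [L_top hm]; exact L_ne hm hr

theorem Re.long (hm : d = m + 1) (h2 : 2 ≤ m) {n : ℕ} {s t : Seq d} (h : Re n s t) {e : Fin d}
    (he : e ≠ 0) {j : ℕ} (hj : 1 ≤ j) : Re n s (mk 0 e j t) :=
  h.trans ⟨Relation.EqvGen.rel _ _ ⟨h.2, _, _, _, Or.inr ⟨rfl, he, hj⟩, rfl⟩,
    mk_per (by omega) h.2 he.symm hj⟩

theorem chain_dn (hm : d = m + 1) (h2 : 2 ≤ m) {n t : ℕ} (ht : t ≤ m) (I : ℕ → Seq d → Prop)
    (h : ∀ r, r < t → ∀ s, I (r + 1) s → I r (mk (L d r) (L d t) 1 s)) {s0 : Seq d} :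
    ∀ a, a ≤ t → ∀ s, Re n s0 s → I a s → ∃ s', Re n s0 s' ∧ I 0 s' := by
  intro a
  induction a with
  | zero => exact fun _ s h1 h3 => ⟨s, h1, h3⟩
  | succ a ih => exact fun ha s h1 h3 => ih (by omega) _ (h1.short hm h2 ha ht) (h a ha s h3)

theorem chain_up (hm : d = m + 1) (h2 : 2 ≤ m) {n t : ℕ} (ht : t ≤ m) (I : ℕ → Seq d → Prop)
    (h : ∀ r, r < t → ∀ s, I r s → I (r + 1) (mk (L d r) (L d t) 1 s)) {s0 s : Seq d}
    (h1 : Re n s0 s) (h3 : I 0 s) : ∀ a, a ≤ t → ∃ s', Re n s0 s' ∧ I a s' := by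
  intro a
  induction a with
  | zero => exact fun _ => ⟨s, h1, h3⟩
  | succ a ih =>
    intro ha
    obtain ⟨s', k1, k2⟩ := ih (by omega)
    exact ⟨_, k1.short hm h2 ha ht, h a ha s' k2⟩

/-- Same zeros, and same letters in front of zeros. -/
def Bz (s0 s : Seq d) : Prop :=
  (∀ x, s x = 0 ↔ s0 x = 0) ∧ ∀ x, s0 (x + 1) = 0 → s x = s0 x

theorem Bz.refl (s : Seq d) : Bz s s := ⟨fun _ => Iff.rfl, fun _ _ => rfl⟩

theorem Bz.step {s0 s : Seq d} (h : Bz s0 s) {u v : Fin d} (hu : u ≠ 0) (hv : v ≠ 0) :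
    Bz s0 (mk u v 1 s) := by
  refine ⟨fun x => Iff.trans ?_ (h.1 x), fun x hx => Eq.trans ?_ (h.2 x hx)⟩
  · by_cases hh : Hit u v 1 s x
    · rw [mk_hit hh, Equiv.swap_apply_eq_iff, Equiv.swap_apply_of_ne_of_ne hu.symm hv.symm]
    · rw [mk_not hh]
  · exact mk_mid (x + 1) (by omega) (by push_cast; omega) ((h.1 _).2 hx ▸ hu.symm)

/-- The first `K` letters from `i` on follow the pattern of the zone. -/
def Pat (s : Seq d) (i : ℤ) (K : ℕ) : Prop := ∀ k : ℕ, k < K → s (i + k) = L d (k / 2)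

theorem Pat.at {s : Seq d} {i : ℤ} {K : ℕ} (h : Pat s i K) (x : ℤ) (a : ℕ) (h1 : x < i + K)
    (h2 : x = i + 2 * a ∨ x = i + 2 * a + 1) : s x = L d a := by
  have := h (x - i).toNat (by omega)
  rwa [show i + ((x - i).toNat : ℤ) = x by omega, show (x - i).toNat / 2 = a by omega] at this

theorem pat_of {s : Seq d} {i : ℤ} {K : ℕ}
    (h : ∀ (x : ℤ) (a : ℕ), x < i + K → x = i + 2 * a ∨ x = i + 2 * a + 1 → s x = L d a) :
    Pat s i K := fun k hk => h _ _ (by omega) (by omega)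

/-- Zeros on the interval `[a, b)`. -/
def Zer (s : Seq d) (a b : ℤ) : Prop := ∀ x, a ≤ x → x < b → s x = 0

theorem struct_iff (hm : d = m + 1) {s : Seq d} {i : ℤ} {J : ℕ} :
    Struct s i J ↔ Pat s i (2 * m) ∧ s (i + 2 * m) = 0 ∧ Zer s (i - J) i := by
  have e : d - 1 = m := by omega
  unfold Struct
  rw [e]
  push_cast
  refine and_congr_right fun _ => and_congr_right fun _ => ⟨fun h x x1 x2 => ?_,
    fun h k k1 k2 => h _ (by omega) (by omega)⟩
  have := h (i - x).toNat (by omega) (by omega)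
  rwa [show i - ((i - x).toNat : ℤ) = x by omega] at this

/-- The zone with the slots `a, ..., t` set to `L t`. -/
def Zn (m a t : ℕ) (s : Seq d) (i : ℤ) : Prop :=
  (∀ k : ℕ, k < m → s (i + 2 * k) = if a ≤ k ∧ k ≤ t then L d t else L d k) ∧
    (∀ k : ℕ, k < m → s (i + 2 * k + 1) = L d k) ∧ s (i + 2 * m) = 0

theorem zn_iff {s : Seq d} {i : ℤ} (t : ℕ) :
    Zn m t t s i ↔ Pat s i (2 * m) ∧ s (i + 2 * m) = 0 := by
  have e : ∀ k, (if t ≤ k ∧ k ≤ t then L d t else L d k) = L d k := fun k => by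
    split_ifs with h
    · rw [le_antisymm h.1 h.2]
    · rfl
  simp only [Zn, e]
  constructor
  · rintro ⟨h1, h2, h3⟩
    refine ⟨pat_of fun x a x1 x2 => ?_, h3⟩
    push_cast at x1
    rcases x2 with rfl | rfl
    · exact h1 a (by omega)
    · exact h2 a (by omega)
  · rintro ⟨h1, h3⟩
    exact ⟨fun k hk => h1.at _ k (by push_cast; omega) (Or.inl rfl),
      fun k hk => h1.at _ k (by push_cast; omega) (Or.inr rfl), h3⟩

theorem Zn.ne (hm : d = m + 1) {a t : ℕ} (ht : t < m) {s : Seq d} {i : ℤ} (h : Zn m a t s i)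
    (x : ℤ) (h1 : i ≤ x) (h2 : x < i + 2 * m) : s x ≠ 0 := by
  obtain ⟨k, hk⟩ : ∃ k : ℕ, x = i + 2 * k ∨ x = i + 2 * k + 1 := ⟨(x - i).toNat / 2, by omega⟩
  rcases hk with rfl | rfl
  · rw [h.1 k (by omega)]
    split_ifs
    · exact L_ne hm ht
    · exact L_ne hm (by omega)
  · rw [h.2.1 k (by omega)]
    exact L_ne hm (by omega)

theorem Zn.first {t : ℕ} (ht : t < m) {s : Seq d} {i : ℤ} (h : Zn m 0 t s i) : s i = L d t := by
  simpa using h.1 0 (by omega)

theorem Zn.step (hm : d = m + 1) {r t a b : ℕ} (hr : r < t) (ht : t < m)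
    (hab : a = r ∧ b = r + 1 ∨ a = r + 1 ∧ b = r) {s : Seq d} {i : ℤ} (h : Zn m a t s i) :
    Zn m b t (mk (L d r) (L d t) 1 s) i := by
  refine ⟨fun k hk => ?_, fun k hk => Eq.trans ?_ (h.2.1 k hk), Eq.trans (mk_oth ?_ ?_) h.2.2⟩
  · by_cases hkr : k = r
    · subst hkr
      rw [mk_hit (hit_one _ (i + 2 * ((k + 1 : ℕ) : ℤ)) rfl (by push_cast; ring) (h.2.1 k hk)
        (by rw [h.1 (k + 1) (by omega), if_pos (by omega)])), h.1 k hk]
      rcases hab with ⟨rfl, rfl⟩ | ⟨rfl, rfl⟩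
      · rw [if_pos (by omega), if_neg (by omega), Equiv.swap_apply_right]
      · rw [if_neg (by omega), if_pos (by omega), Equiv.swap_apply_left]
    · rw [mk_mid (i + 2 * k + 1) (by omega) (by push_cast; omega)
        (by rw [h.2.1 k hk]; exact L_ne' hm hk (by omega) hkr), h.1 k hk]
      exact if_congr (by omega) rfl rfl
  · by_cases hk1 : k + 1 = m
    · exact mk_mid (i + 2 * m) (by omega) (by push_cast; omega)
        (by rw [h.2.2]; exact (L_ne hm (by omega)).symm)
    · by_cases hkt : k + 1 = t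
      · refine mk_mid (i + 2 * t) (by omega) (by push_cast; omega) ?_
        rw [h.1 t ht, ite_self]
        exact L_ne' hm ht (by omega) hr.ne'
      · refine mk_last (i + 2 * ((k + 1 : ℕ) : ℤ) + 1) (by push_cast; ring) ?_
        rw [h.2.1 (k + 1) (by omega)]
        exact L_ne' hm (by omega) ht hkt
  · rw [h.2.2]; exact (L_ne hm (by omega)).symm
  · rw [h.2.2]; exact (L_ne hm ht).symm

/-- Restoring the zone. -/
theorem undo (hm : d = m + 1) (h2 : 2 ≤ m) {n t : ℕ} (ht : t < m) {s0 s : Seq d} {i : ℤ}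
    (h1 : Re n s0 s) (h : Zn m 0 t s i) :
    ∃ s', Re n s0 s' ∧ Pat s' i (2 * m) ∧ ∀ x, s' x = 0 ↔ s x = 0 := by
  obtain ⟨s', k1, k2, k3⟩ := chain_up hm h2 ht.le (fun a w => Zn m a t w i ∧ Bz s w)
    (fun r hr w hw => ⟨hw.1.step hm hr ht (Or.inl ⟨rfl, rfl⟩),
      hw.2.step (L_ne hm (by omega)) (L_ne hm ht)⟩) h1 ⟨h, Bz.refl s⟩ t le_rfl
  exact ⟨s', k1, ((zn_iff t).1 k2).1, k3.1⟩

/-- An exact run of zeros. -/
def Run (s : Seq d) (x : ℤ) (g : ℕ) : Prop := Zer s x (x + g) ∧ s (x + g) ≠ 0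

theorem exists_run (hm : d = m + 1) (h2 : 2 ≤ m) {n : ℕ} {s : Seq d} (h : Per n s) (x : ℤ) :
    ∃ g, Run s x g := by
  obtain ⟨y, hy⟩ := h.2.2 (L d 0)
  have hn : (1 : ℤ) ≤ n := by exact_mod_cast h.1
  obtain ⟨z, hz, hmin⟩ := Int.exists_least_of_bdd (P := fun z => x ≤ z ∧ s z ≠ 0)
    ⟨x, fun z hz => hz.1⟩ ⟨y + |x - y| * n, by
      nlinarith [le_abs_self (x - y), abs_nonneg (x - y)], by
      rw [h.zper, hy]; exact L_ne hm (by omega)⟩
  have e : x + ((z - x).toNat : ℤ) = z := by omega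
  refine ⟨(z - x).toNat, fun w w1 w2 => ?_, e.symm ▸ hz.2⟩
  by_contra hw
  exact absurd (hmin w ⟨w1, hw⟩) (by omega)

theorem step (hm : d = m + 1) (h2 : 2 ≤ m) {n : ℕ} {s0 s : Seq d} (h0 : Re n s0 s) {i : ℤ}
    {J : ℕ} (hJ : 1 ≤ J) (h : Struct s i J) (g1 : ¬ Run s (i + 2 * m) J)
    (g2 : ¬ Run s (i + 2 * m) (J + 1)) : ∃ s', Re n s0 s' ∧ Struct s' i (J + 1) := by
  obtain ⟨p1, p2, p3⟩ := (struct_iff hm).1 h
  by_cases he : s (i - J - 1) = 0
  · refine ⟨s, h0, (struct_iff hm).2 ⟨p1, p2, fun x x1 x2 => ?_⟩⟩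
    push_cast at x1
    rcases x1.lt_or_eq with x3 | x3
    · exact p3 x (by omega) x2
    · rwa [show x = i - J - 1 by omega]
  obtain ⟨t, ht, et⟩ := exists_L hm he
  obtain ⟨s1, k1, k2, k3⟩ := chain_dn hm h2 ht.le (fun a w => Zn m a t w i ∧ Bz s w)
    (fun r hr w hw => ⟨hw.1.step hm hr ht (Or.inr ⟨rfl, rfl⟩),
      hw.2.step (L_ne hm (by omega)) (L_ne hm ht)⟩) t le_rfl s h0
    ⟨(zn_iff t).2 ⟨p1, p2⟩, Bz.refl s⟩
  have e1 : s1 (i - J - 1) = L d t := (k3.2 _ (p3 _ (by omega) (by omega))).trans et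
  have f1 := k2.first ht
  have nz := L_ne hm ht
  have fix : ∀ x, i - J ≤ x → x ≤ i + 2 * m → mk 0 (L d t) J s1 x = s1 x := by
    intro x x1 x2
    rcases lt_or_ge x i with x3 | x3
    · exact mk_mid i x3 (by omega) (f1 ▸ nz)
    rcases lt_or_ge (x + 1) (i + 2 * m) with x4 | x4
    · exact mk_mid (x + 1) (by omega) (by omega) (k2.ne hm ht _ (by omega) x4)
    refine mk_not fun hh => ?_
    have a1 : ∀ y, x < y → y ≤ x + J → s y = 0 := fun y y1 y2 => (k3.1 y).1 (by
      have := hh.1 (y - x).toNat (by omega) (by omega)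
      rwa [show x + ((y - x).toNat : ℤ) = y by omega] at this)
    have a2 : s (x + J + 1) ≠ 0 := fun h5 => nz (hh.2.symm.trans ((k3.1 _).2 h5))
    rcases x2.lt_or_eq with x5 | x5
    · exact g1 ⟨fun y y1 y2 => a1 y (by omega) (by omega),
        by rwa [show i + 2 * m + J = x + J + 1 by omega]⟩
    · refine g2 ⟨fun y y1 y2 => ?_, by
        rwa [show i + 2 * m + ((J + 1 : ℕ) : ℤ) = x + J + 1 by push_cast; omega]⟩
      push_cast at y2
      rcases y1.lt_or_eq with y3 | rfl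
      · exact a1 y (by omega) (by omega)
      · exact p2
  have z2 : Zn m 0 t (mk 0 (L d t) J s1) i :=
    ⟨fun k hk => (fix _ (by omega) (by omega)).trans (k2.1 k hk),
      fun k hk => (fix _ (by omega) (by omega)).trans (k2.2.1 k hk),
      (fix _ (by omega) le_rfl).trans k2.2.2⟩
  obtain ⟨s3, q1, q2, q3⟩ := undo hm h2 ht (k1.long hm h2 nz hJ) z2
  refine ⟨s3, q1, (struct_iff hm).2 ⟨q2, (q3 _).2 z2.2.2, fun x x1 x2 => (q3 x).2 ?_⟩⟩
  push_cast at x1
  rcases x1.lt_or_eq with x3 | x3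
  · rw [fix x (by omega) (by omega)]
    exact (k3.1 x).2 (p3 x (by omega) x2)
  · rw [show x = i - J - 1 by omega, mk_hit (hit_of (fun y y1 y2 => (k3.1 y).2
      (p3 y (by omega) (by omega))) i (by omega) f1), e1, Equiv.swap_apply_right]

/-- Shortening the guard run. -/
theorem kick {s : Seq d} {i : ℤ} {J g : ℕ} (hg : 4 ≤ g) (h2 : 2 ≤ m) (p3 : Zer s (i - J) i)
    (f1 : s i ≠ 0) (hr : Run s (i + 2 * m) g) (f2 : s i ≠ s (i + 2 * m + g))
    (hz : ∀ x, i ≤ x → x + 1 < i + 2 * m →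
      s (x + 1) ≠ 0 ∨ s x ≠ 0 ∧ s x ≠ s (i + 2 * m + g)) :
    (∀ x, i - J ≤ x → x ≤ i + 2 * m + 3 → x ≠ i + 2 * m + 2 →
      mk 0 (s (i + 2 * m + g)) (g - 3) s x = s x) ∧
      mk 0 (s (i + 2 * m + g)) (g - 3) s (i + 2 * m + 2) ≠ 0 := by
  constructor
  · intro x x1 x2 x0
    rcases lt_or_ge x i with x3 | x3
    · rcases lt_trichotomy (x + (g - 3 : ℕ) + 1) i with x4 | x4 | x4
      · exact mk_last _ rfl (by rw [p3 _ (by omega) x4]; exact hr.2.symm)
      · exact mk_last i x4.symm f2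
      · exact mk_mid i x3 (by omega) f1
    rcases lt_or_ge (x + 1) (i + 2 * m) with x4 | x4
    · rcases hz x x3 x4 with h | h
      · exact mk_mid (x + 1) (by omega) (by omega) h
      · exact mk_oth h.1 h.2
    rcases lt_or_ge x (i + 2 * m + 2) with x5 | x5
    · exact mk_last _ rfl (by rw [hr.1 _ (by omega) (by omega)]; exact hr.2.symm)
    · exact mk_mid (i + 2 * m + g) (by omega) (by omega) hr.2
  · rw [mk_hit (hit_of (fun y y1 y2 => hr.1 y (by omega) (by omega)) (i + 2 * m + g) (by omega)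
      rfl), hr.1 (i + 2 * m + 2) (by omega) (by omega), Equiv.swap_apply_left]
    exact hr.2

theorem short_run (hm : d = m + 1) (h2 : 2 ≤ m) {n : ℕ} {s0 s : Seq d} (h0 : Re n s0 s) {i : ℤ}
    {J : ℕ} (hJ : 4 ≤ J) (h : Struct s i J) (h1 : s (i + 2 * m + 2) ≠ 0) :
    ∃ s', Re n s0 s' ∧ Struct s' i (J + 1) :=
  step hm h2 h0 (by omega) h (fun hr => h1 (hr.1 _ (by omega) (by omega)))
    (fun hr => h1 (hr.1 _ (by omega) (by push_cast; omega)))

theorem kick_zn (hm : d = m + 1) (h2 : 2 ≤ m) {n t : ℕ} (ht : t < m) {s0 s : Seq d}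
    (h0 : Re n s0 s) {i : ℤ} {J g : ℕ} (hJ : 4 ≤ J) (hg : 4 ≤ g) (hz : Zn m 0 t s i)
    (p3 : Zer s (i - J) i) (hr : Run s (i + 2 * m) g) (f2 : L d t ≠ s (i + 2 * m + g)) :
    ∃ s', Re n s0 s' ∧ Struct s' i (J + 1) := by
  obtain ⟨fix, k2⟩ := kick hg h2 p3 (hz.ne hm ht i le_rfl (by omega)) hr (hz.first ht ▸ f2)
    fun x x1 x2 => Or.inl (hz.ne hm ht _ (by omega) x2)
  have z2 : Zn m 0 t (mk 0 (s (i + 2 * m + g)) (g - 3) s) i :=
    ⟨fun k hk => (fix _ (by omega) (by omega) (by omega)).trans (hz.1 k hk),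
      fun k hk => (fix _ (by omega) (by omega) (by omega)).trans (hz.2.1 k hk),
      (fix _ (by omega) (by omega) (by omega)).trans hz.2.2⟩
  obtain ⟨s3, q1, q2, q3⟩ := undo hm h2 ht (h0.long hm h2 hr.2 (by omega : 1 ≤ g - 3)) z2
  refine short_run hm h2 q1 hJ ((struct_iff hm).2 ⟨q2, (q3 _).2 z2.2.2, fun x x1 x2 =>
    (q3 x).2 ?_⟩) fun h5 => k2 ((q3 _).1 h5)
  rw [fix x x1 (by omega) (by omega)]
  exact p3 x x1 x2

theorem Run.bz {s w : Seq d} (h : Bz s w) {x : ℤ} {g : ℕ} (hr : Run s x g) : Run w x g :=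
  ⟨fun y y1 y2 => (h.1 y).2 (hr.1 y y1 y2), fun h1 => hr.2 ((h.1 _).1 h1)⟩

/-- The invariant of a zone that does not react to the chain of markers. -/
def Stk (t a : ℕ) (s : Seq d) (i : ℤ) : Prop :=
  Pat s i (2 * t - 1) ∧ (a = t → ¬ (s (i + 2 * t - 1) = L d (t - 1) ∧ s (i + 2 * t) = L d t))

theorem Stk.step (hm : d = m + 1) {r t : ℕ} (hr : r < t) (ht : t < m) {s : Seq d} {i : ℤ}
    (h : Stk t (r + 1) s i) : Stk t r (mk (L d r) (L d t) 1 s) i := by
  refine ⟨pat_of fun x a x1 x2 => Eq.trans ?_ (h.1.at x a x1 x2), fun e => absurd e hr.ne⟩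
  rcases lt_trichotomy (x + 3) (i + 2 * t) with x3 | x3 | x3
  · refine mk_last (x + 2) (by push_cast; ring) ?_
    rw [h.1.at _ (a + 1) (by omega) (by push_cast; omega)]
    exact L_ne' hm (by omega) ht (by omega)
  · by_cases hrt : r + 1 = t
    · have := h.1.at x a x1 x2
      exact mk_oth (this ▸ L_ne' hm (by omega) (by omega) (by omega))
        (this ▸ L_ne' hm (by omega) ht (by omega))
    · refine mk_mid (x + 1) (by omega) (by push_cast; omega) ?_
      rw [h.1.at _ (t - 1) (by omega) (by omega)]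
      exact L_ne' hm (by omega) (by omega) (by omega)
  · by_cases hrt : r + 1 = t
    · refine mk_not fun hh => h.2 hrt ⟨?_, ?_⟩
      · have := hh.1 1 le_rfl le_rfl
        rwa [show x + ((1 : ℕ) : ℤ) = i + 2 * t - 1 by omega, show r = t - 1 by omega] at this
      · have := hh.2
        rwa [show x + ((1 : ℕ) : ℤ) + 1 = i + 2 * t by omega] at this
    · have := h.1.at x a x1 x2
      exact mk_oth (this ▸ L_ne' hm (by omega) (by omega) (by omega))
        (this ▸ L_ne' hm (by omega) ht (by omega))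

theorem front (hm : d = m + 1) {r t : ℕ} (hr : r < t) (ht : t < m) {s : Seq d} {i : ℤ}
    (h : Pat s i (2 * (r + 1)) ∧ s (i + 2 * ((r + 1 : ℕ) : ℤ)) = L d t) :
    Pat (mk (L d r) (L d t) 1 s) i (2 * r) ∧ mk (L d r) (L d t) 1 s (i + 2 * r) = L d t := by
  refine ⟨pat_of fun x a x1 x2 => Eq.trans ?_ (h.1.at x a (by omega) x2), ?_⟩
  · refine mk_last (x + 2) (by push_cast; ring) ?_
    rw [h.1.at _ (a + 1) (by omega) (by push_cast; omega)]
    exact L_ne' hm (by omega) ht (by omega)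
  · rw [mk_hit (hit_one (i + 2 * r + 1) _ rfl (by push_cast; ring)
      (h.1.at _ r (by omega) (Or.inr rfl)) h.2), h.1.at _ r (by omega) (Or.inl rfl),
      Equiv.swap_apply_left]

/-- The zone up to its last slot, with two guard zeros. -/
def Tg (m : ℕ) (s : Seq d) (i : ℤ) (J : ℕ) (c : Fin d) : Prop :=
  Pat s i (2 * m - 2) ∧ s (i + 2 * m - 2) = c ∧ s (i + 2 * m - 1) = L d (m - 1) ∧
    s (i + 2 * m) = 0 ∧ Zer s (i - J) i

theorem Tg.step (hm : d = m + 1) (h2 : 2 ≤ m) {s : Seq d} {i : ℤ} {J : ℕ} {c : Fin d}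
    (h : Tg m s i J c) (h1 : s (i + 2 * m + 1) = 0) :
    Tg m (mk (L d (m - 1)) 0 1 s) i J (Equiv.swap (L d (m - 1)) 0 c) := by
  obtain ⟨p1, p2, p3, p4, p5⟩ := h
  have nz : (0 : Fin d) ≠ L d (m - 1) := (L_ne hm (by omega)).symm
  refine ⟨pat_of fun x a x1 x2 => Eq.trans ?_ (p1.at x a x1 x2), ?_, Eq.trans ?_ p3,
    Eq.trans ?_ p4, fun x x1 x2 => Eq.trans ?_ (p5 x x1 x2)⟩
  · have := p1.at x a x1 x2
    exact mk_oth (this ▸ L_ne' hm (by omega) (by omega) (by omega)) (this ▸ L_ne hm (by omega))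
  · rw [mk_hit (hit_one _ _ (by ring) (by ring) p3 p4), p2]
  · exact mk_mid (i + 2 * m) (by omega) (by push_cast; omega) (p4 ▸ nz)
  · exact mk_mid (i + 2 * m + 1) (by omega) (by push_cast; omega) (h1 ▸ nz)
  · refine mk_mid (x + 1) (by omega) (by push_cast; omega) ?_
    rcases lt_or_ge (x + 1) i with x3 | x3
    · rw [p5 _ (by omega) x3]; exact nz
    · rw [p1.at _ 0 (by omega) (by omega)]
      exact L_ne' hm (by omega) (by omega) (by omega)

theorem tg_iff (hm : d = m + 1) (h2 : 2 ≤ m) {s : Seq d} {i : ℤ} {J : ℕ} :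
    Tg m s i J (L d (m - 1)) ↔ Struct s i J := by
  rw [struct_iff hm]
  constructor
  · rintro ⟨p1, p2, p3, p4, p5⟩
    refine ⟨pat_of fun x a x1 x2 => ?_, p4, p5⟩
    rcases lt_trichotomy x (i + 2 * m - 2) with x3 | x3 | x3
    · exact p1.at x a (by omega) x2
    · rw [x3, p2, show a = m - 1 by omega]
    · rw [show x = i + 2 * m - 1 by omega, p3, show a = m - 1 by omega]
  · rintro ⟨p1, p4, p5⟩
    exact ⟨fun k hk => p1 k (by omega), p1.at _ _ (by omega) (by omega),
      p1.at _ _ (by omega) (by omega), p4, p5⟩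

theorem last_case (hm : d = m + 1) (h2 : 2 ≤ m) {n : ℕ} {s : Seq d} (h0 : Per n s) {i : ℤ}
    {J g : ℕ} (hJ : 4 ≤ J) (hg : 4 ≤ g) (h : Struct s i J) (hr : Run s (i + 2 * m) g)
    (t1 : Pat s (i + 2 * m + g) (2 * m - 1))
    (t2 : ¬ (s (i + 2 * m + g + 2 * m - 1) = L d (m - 1) ∧ s (i + 2 * m + g + 2 * m) = 0)) :
    ∃ s', Re n s s' ∧ Struct s' i (J + 1) := by
  have nz : L d (m - 1) ≠ 0 := L_ne hm (by omega)
  have sh1 : ∀ {w : Seq d}, Re n s w → Re n s (mk (L d (m - 1)) 0 1 w) := fun hw => by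
    have := hw.short hm h2 (r := m - 1) (a := m) (by omega) le_rfl
    rwa [L_top hm] at this
  have a1 := ((tg_iff hm h2).2 h).step hm h2 (hr.1 _ (by omega) (by omega))
  rw [Equiv.swap_apply_left] at a1
  have a2 : Pat (mk (L d (m - 1)) 0 1 s) (i + 2 * m + g) (2 * m - 1) := by
    refine pat_of fun x a x1 x2 => Eq.trans ?_ (t1.at x a x1 x2)
    rcases lt_or_ge (x + 2) (i + 2 * m + g + 2 * m) with x3 | x3
    · have := t1.at x a x1 x2
      exact mk_oth (this ▸ L_ne' hm (by omega) (by omega) (by omega)) (this ▸ L_ne hm (by omega))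
    · refine mk_not fun hh => t2 ⟨?_, ?_⟩
      · have := hh.1 1 le_rfl le_rfl
        rwa [show x + ((1 : ℕ) : ℤ) = i + 2 * m + g + 2 * m - 1 by omega] at this
      · have := hh.2
        rwa [show x + ((1 : ℕ) : ℤ) + 1 = i + 2 * m + g + 2 * m by omega] at this
  have a3 : Run (mk (L d (m - 1)) 0 1 s) (i + 2 * m) g := by
    refine ⟨fun x x1 x2 => Eq.trans ?_ (hr.1 x x1 x2), ?_⟩
    · refine mk_mid (x + 1) (by omega) (by push_cast; omega) ?_
      rcases lt_or_ge (x + 1) (i + 2 * m + g) with x3 | x3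
      · rw [hr.1 _ (by omega) x3]; exact nz.symm
      · rw [t1.at _ 0 (by omega) (by omega)]
        exact L_ne' hm (by omega) (by omega) (by omega)
    · rw [a2.at _ 0 (by omega) (by omega)]
      exact L_ne hm (by omega)
  have r1 := sh1 (Re.refl h0)
  generalize mk (L d (m - 1)) 0 1 s = s1 at a1 a2 a3 r1
  obtain ⟨p1, p2, p3, p4, p5⟩ := a1
  obtain ⟨s2, r2, b1, b2, b3⟩ := chain_dn hm h2 (t := m - 1) (by omega)
    (fun a w => Stk (m - 1) a w i ∧ Bz s1 w ∧ Pat w (i + 2 * m + g) (2 * a) ∧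
      w (i + 2 * m + g + 2 * a) = L d (m - 1))
    (fun r hr w hw => ⟨hw.1.step hm hr (by omega),
      hw.2.1.step (L_ne hm (by omega)) nz, front hm hr (by omega) hw.2.2⟩) (m - 1) le_rfl s1 r1
    ⟨⟨fun k hk => p1 k (by omega), fun _ hh => nz (hh.2.symm.trans (by
        rw [← p2]; congr 1; omega))⟩, Bz.refl s1, fun k hk => a2 k (by omega),
      a2.at _ _ (by omega) (Or.inl rfl)⟩
  have f2 : s2 (i + 2 * m + g) = L d (m - 1) := by simpa using b3.2
  have c1 : Tg m s2 i J 0 := by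
    refine ⟨pat_of fun x a x1 x2 => ?_, (b2.1 _).2 p2,
      (b2.2 _ (by rw [← p4]; congr 1; ring)).trans p3, (b2.1 _).2 p4,
      fun x x1 x2 => (b2.1 x).2 (p5 x x1 x2)⟩
    rcases lt_or_ge x (i + 2 * m - 3) with x3 | x3
    · exact b1.1.at x a (by omega) x2
    · exact (b2.2 x (by rw [← p2]; congr 1; omega)).trans (p1.at x a x1 x2)
  have c2 := a3.bz b2
  obtain ⟨q1, q2, q3, q4, q5⟩ := c1
  have f1 : s2 i = L d 0 := q1.at _ 0 (by omega) (by omega)
  obtain ⟨fix, k2⟩ := kick hg h2 q5 (f1 ▸ L_ne hm (by omega)) c2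
    (by rw [f1, f2]; exact L_ne' hm (by omega) (by omega) (by omega)) fun x x1 x2 => by
      rcases lt_trichotomy x (i + 2 * m - 3) with x3 | x3 | x3
      · left
        rw [q1.at (x + 1) ((x + 1 - i).toNat / 2) (by omega) (by omega)]
        exact L_ne hm (by omega)
      · right
        rw [q1.at x (m - 2) (by omega) (by omega), f2]
        exact ⟨L_ne hm (by omega), L_ne' hm (by omega) (by omega) (by omega)⟩
      · left
        rw [show x + 1 = i + 2 * m - 1 by omega, q3]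
        exact nz
  have r3 := r2.long hm h2 c2.2 (by omega : 1 ≤ g - 3)
  generalize mk 0 (s2 (i + 2 * m + g)) (g - 3) s2 = s3 at fix k2 r3
  have c3 : Tg m s3 i J 0 :=
    ⟨fun k hk => (fix _ (by omega) (by omega) (by omega)).trans (q1 k hk),
      (fix _ (by omega) (by omega) (by omega)).trans q2,
      (fix _ (by omega) (by omega) (by omega)).trans q3,
      (fix _ (by omega) (by omega) (by omega)).trans q4,
      fun x x1 x2 => (fix x x1 (by omega) (by omega)).trans (q5 x x1 x2)⟩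
  have c4 := c3.step hm h2
    ((fix _ (by omega) (by omega) (by omega)).trans (c2.1 _ (by omega) (by omega)))
  rw [Equiv.swap_apply_right] at c4
  refine short_run hm h2 (sh1 r3) hJ ((tg_iff hm h2).1 c4) ?_
  rwa [mk_mid (i + 2 * m + 3) (by omega) (by push_cast; omega) (by
    rw [fix _ (by omega) le_rfl (by omega), c2.1 _ (by omega) (by omega)]; exact nz.symm)]

theorem progress (hm : d = m + 1) (h2 : 2 ≤ m) {n : ℕ} {s : Seq d} (h0 : Per n s) {i : ℤ}
    {J : ℕ} (hJ : 4 ≤ J) (h : Struct s i J) : (∃ s', Re n s s' ∧ Struct s' i (J + 1)) ∨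
      s (i - J - 1) ≠ 0 ∧ ∃ g : ℕ, (g = J ∨ g = J + 1) ∧ Struct s (i + 2 * m + g) g := by
  obtain ⟨p1, p2, p3⟩ := (struct_iff hm).1 h
  by_cases he : s (i - J - 1) = 0
  · refine Or.inl ⟨s, Re.refl h0, (struct_iff hm).2 ⟨p1, p2, fun x x1 x2 => ?_⟩⟩
    push_cast at x1
    rcases x1.lt_or_eq with x3 | x3
    · exact p3 x (by omega) x2
    · rwa [show x = i - J - 1 by omega]
  by_cases hc : ¬ Run s (i + 2 * m) J ∧ ¬ Run s (i + 2 * m) (J + 1)
  · exact Or.inl (step hm h2 (Re.refl h0) (by omega) h hc.1 hc.2)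
  obtain ⟨g, hg, hr⟩ : ∃ g : ℕ, (g = J ∨ g = J + 1) ∧ Run s (i + 2 * m) g := by
    by_contra hn
    exact hc ⟨fun h1 => hn ⟨_, Or.inl rfl, h1⟩, fun h1 => hn ⟨_, Or.inr rfl, h1⟩⟩
  have hg4 : 4 ≤ g := by omega
  by_cases c0 : s (i + 2 * m + g) = L d 0
  swap
  · exact Or.inl (kick_zn hm h2 (t := 0) (by omega) (Re.refl h0) hJ hg4
      ((zn_iff 0).2 ⟨p1, p2⟩) p3 hr (Ne.symm c0))
  have key : ∀ t, t < m → (∃ s', Re n s s' ∧ Struct s' i (J + 1)) ∨
      Pat s (i + 2 * m + g) (2 * t + 1) := by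
    intro t
    induction t with
    | zero =>
      exact fun _ => Or.inr (pat_of fun x a x1 x2 => by
        rw [show x = i + 2 * m + g by omega, show a = 0 by omega, c0])
    | succ t ih =>
      intro ht
      rcases ih (by omega) with h1 | h1
      · exact Or.inl h1
      by_cases hc : s (i + 2 * m + g + 2 * ((t + 1 : ℕ) : ℤ) - 1) = L d (t + 1 - 1) ∧
          s (i + 2 * m + g + 2 * ((t + 1 : ℕ) : ℤ)) = L d (t + 1)
      · refine Or.inr (pat_of fun x a x1 x2 => ?_)
        rcases lt_trichotomy x (i + 2 * m + g + 2 * ((t + 1 : ℕ) : ℤ) - 1) with x3 | x3 | x3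
        · exact h1.at x a (by omega) x2
        · rw [x3, hc.1, show a = t + 1 - 1 by omega]
        · rw [show x = i + 2 * m + g + 2 * ((t + 1 : ℕ) : ℤ) by omega, hc.2,
            show a = t + 1 by omega]
      · obtain ⟨s1, k1, k2, k3, k4⟩ := chain_dn hm h2 ht.le
          (fun a w => Zn m a (t + 1) w i ∧ Bz s w ∧ Stk (t + 1) a w (i + 2 * m + g))
          (fun r hr w hw => ⟨hw.1.step hm hr ht (Or.inr ⟨rfl, rfl⟩),
            hw.2.1.step (L_ne hm (by omega)) (L_ne hm ht), hw.2.2.step hm hr ht⟩) (t + 1) le_rfl s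
          (Re.refl h0) ⟨(zn_iff _).2 ⟨p1, p2⟩, Bz.refl s, fun k hk => h1 k (by omega),
            fun _ => hc⟩
        refine Or.inl (kick_zn hm h2 ht k1 hJ hg4 k2 (fun x x1 x2 => (k3.1 x).2 (p3 x x1 x2))
          (hr.bz k3) ?_)
        rw [k4.1.at _ 0 (by omega) (by omega)]
        exact L_ne' hm ht (by omega) (by omega)
  rcases key (m - 1) (by omega) with h1 | h1
  · exact Or.inl h1
  by_cases hc : s (i + 2 * m + g + 2 * m - 1) = L d (m - 1) ∧ s (i + 2 * m + g + 2 * m) = 0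
  · refine Or.inr ⟨he, g, hg, (struct_iff hm).2 ⟨pat_of fun x a x1 x2 => ?_, hc.2,
      fun x x1 x2 => hr.1 x (by omega) x2⟩⟩
    rcases lt_or_ge x (i + 2 * m + g + 2 * m - 1) with x3 | x3
    · exact h1.at x a (by omega) x2
    · rw [show x = i + 2 * m + g + 2 * m - 1 by omega, hc.1, show a = m - 1 by omega]
  · exact Or.inl (last_case hm h2 h0 hJ hg4 h hr (fun k hk => h1 k (by omega)) hc)

theorem first_ne (hm : d = m + 1) (h2 : 2 ≤ m) {s : Seq d} {i : ℤ} {J : ℕ} (h : Struct s i J) :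
    s i ≠ 0 := by
  rw [((struct_iff hm).1 h).1.at i 0 (by omega) (by omega)]
  exact L_ne hm (by omega)

theorem run_lt (hm : d = m + 1) (h2 : 2 ≤ m) {n : ℕ} {s : Seq d} (h0 : Per n s) {i : ℤ} {J : ℕ}
    (h : Struct s i J) : J < n := by
  by_contra hn
  have h1 := h0.1
  have := ((struct_iff hm).1 h).2.2 (i - n) (by omega) (by omega)
  rw [← h0.2.1, sub_add_cancel] at this
  exact first_ne hm h2 h this

theorem eq_can (hm : d = m + 1) {n : ℕ} {s : Seq d} (h0 : Per n s) {i : ℤ} {J : ℕ}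
    (h : Struct s i J) (hn : n ≤ 2 * m + J) : s = can d n i := by
  obtain ⟨p1, -, p3⟩ := (struct_iff hm).1 h
  funext x
  have hn0 : (0 : ℤ) < n := by exact_mod_cast h0.1
  have a0 := Int.emod_nonneg (x - i) hn0.ne'
  have a1 := Int.emod_lt_of_pos (x - i) hn0
  have e : s x = s (i + (x - i) % n) := by
    rw [← h0.zper (i + (x - i) % n) ((x - i) / n), add_assoc, Int.emod_add_ediv_mul]
    congr 1
    ring
  unfold can
  rw [show d - 1 = m by omega, e]
  generalize (x - i) % n = r at a0 a1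
  split_ifs with h1
  · exact p1.at _ _ (by omega) (by omega)
  · rw [← h0.zper _ (-1)]
    exact p3 _ (by omega) (by omega)

omit [NeZero d] in
theorem exists_stop {P : ℕ → Prop} {a n : ℕ} (h : P a) (hb : ∀ J, P J → J < n) :
    ∃ J, a ≤ J ∧ P J ∧ ¬ P (J + 1) := by
  by_contra hn
  push Not at hn
  have : ∀ k, P (a + k) := fun k => by
    induction k with
    | zero => exact h
    | succ k ih => exact hn (a + k) (Nat.le_add_right a k) ih
  exact absurd (hb _ (this n)) (by omega)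

end ZSweep

theorem can_per [NeZero d] (hd : 3 ≤ d) {n : ℕ} (hn : 2 * (d - 1) < n) (i : ℤ) :
    Per n (can d n i) := by
  obtain ⟨m, hm⟩ : ∃ m, d = m + 1 := ⟨d - 1, by omega⟩
  have e : d - 1 = m := by omega
  refine ⟨by omega, fun x => ?_, fun a => ?_⟩
  · unfold can
    rw [show x + n - i = x - i + n by ring, Int.add_emod_right]
  · by_cases ha : a = 0
    · refine ⟨i + 2 * m, ?_⟩
      unfold can
      rw [add_sub_cancel_left, Int.emod_eq_of_lt (by omega) (by omega), if_neg (by omega), ha]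
    · obtain ⟨t, ht, rfl⟩ := exists_L hm ha
      refine ⟨i + 2 * t, ?_⟩
      unfold can
      rw [add_sub_cancel_left, Int.emod_eq_of_lt (by omega) (by omega), if_pos (by omega)]
      congr 1
      omega

theorem sweep [NeZero d] (hd : 3 ≤ d) {n : ℕ} (hn : n.Prime) {s : Seq d} (hs : Per n s) {i : ℤ}
    (h : Struct s i 4) : ∃ i', Rel n s (can d n i') := by
  obtain ⟨m, hm⟩ : ∃ m, d = m + 1 := ⟨d - 1, by omega⟩
  have h2 : 2 ≤ m := by omega
  obtain ⟨J, hJ, ⟨w, a, hw, ha⟩, hmax⟩ := exists_stop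
    (P := fun J => ∃ w a, Re n s w ∧ Struct w a J) (n := n) ⟨s, i, Re.refl hs, h⟩
    fun J ⟨w, a, hw, ha⟩ => run_lt hm h2 hw.2 ha
  have nxt : ∀ b, Struct w b J → Struct w (b + (2 * m + J)) J := by
    intro b hb
    rcases progress hm h2 hw.2 hJ hb with ⟨w', k1, k2⟩ | ⟨-, g, rfl | rfl, k2⟩
    · exact absurd ⟨w', b, hw.trans k1, k2⟩ hmax
    · rwa [← add_assoc]
    · exact absurd ⟨w, _, hw, k2⟩ hmax
  have all : ∀ k : ℕ, Struct w (a + k * (2 * m + J)) J := fun k => by
    induction k with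
    | zero => simpa using ha
    | succ k ih =>
      have := nxt _ ih
      rwa [show a + k * (2 * m + J) + (2 * m + J) = a + ((k + 1 : ℕ) : ℤ) * (2 * m + J) by
        push_cast; ring] at this
  refine ⟨a, eq_can hm hw.2 ha ?_ ▸ hw.1⟩
  refine Nat.le_of_dvd (by omega) ?_
  by_contra hdvd
  have hcop : (2 * m + J).Coprime n := ((Nat.Prime.coprime_iff_not_dvd hn).2 hdvd).symm
  obtain ⟨k, -, hk⟩ := Nat.exists_mul_mod_eq_one_of_coprime hcop hn.one_lt
  have e : (k : ℤ) * (2 * m + J) - 1 = ((2 * m + J) * k / n : ℕ) * n := by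
    have := Nat.div_add_mod ((2 * m + J) * k) n
    rw [hk] at this
    zify at this
    push_cast
    linarith
  have h1 := ((struct_iff hm).1 (all k)).2.2 (a + k * (2 * m + J) - 1) (by omega) (by omega)
  rw [add_sub_assoc, e, hw.2.zper] at h1
  exact first_ne hm h2 ha h1

theorem sweep_big [NeZero d] (hd : 3 ≤ d) {n : ℕ} {s : Seq d} (hs : Per n s) {i : ℤ} {J : ℕ}
    (h4 : 4 ≤ J) (hJ : n < 2 * J) (h : Struct s i J) : Rel n s (can d n i) := by
  obtain ⟨m, hm⟩ : ∃ m, d = m + 1 := ⟨d - 1, by omega⟩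
  have h2 : 2 ≤ m := by omega
  obtain ⟨K, hK, ⟨w, hw, ha⟩, hmax⟩ := exists_stop
    (P := fun J => ∃ w, Re n s w ∧ Struct w i J) (n := n) ⟨s, Re.refl hs, h⟩
    fun J ⟨w, hw, ha⟩ => run_lt hm h2 hw.2 ha
  rcases progress hm h2 hw.2 (by omega) ha with ⟨w', k1, k2⟩ | ⟨he, g, hg, k2⟩
  · exact absurd ⟨w', hw.trans k1, k2⟩ hmax
  refine eq_can hm hw.2 ha ?_ ▸ hw.1
  obtain ⟨-, p2, p3⟩ := (struct_iff hm).1 ha
  have q3 := ((struct_iff hm).1 k2).2.2
  have hdvd : n ∣ 2 * m + g := by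
    by_contra hn
    have r0 : 0 < (2 * m + g) % n := Nat.pos_of_ne_zero fun h0 => hn (Nat.dvd_of_mod_eq_zero h0)
    have r1 := Nat.mod_lt (2 * m + g) hs.1
    have e := Nat.div_add_mod (2 * m + g) n
    generalize (2 * m + g) % n = r at r0 r1 e
    generalize (2 * m + g) / n = c at e
    have e' : (2 * m + g : ℤ) = c * n + r := by zify at e; linarith
    rcases le_or_gt r g with h1 | h1
    · have := q3 (i + c * n) (by omega) (by omega)
      rw [hw.2.zper] at this
      exact first_ne hm h2 ha this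
    · have := p3 (i + r - n) (by omega) (by omega)
      rw [← hw.2.zper _ (c + 1), show i + r - n + (c + 1) * n = i + 2 * m + g by
        linear_combination -e'] at this
      exact first_ne hm h2 k2 this
  have hle := Nat.le_of_dvd (by omega) hdvd
  by_contra hn
  refine he ?_
  rw [← hw.2.2.1, ← p2]
  congr 1
  omega

end Pool.Agent.MP_9b2bac_nt.Z

end

section

/- Least periods and the equivalence generated by all markers. -/

set_option autoImplicit false

namespace Pool.Agent.MP_9b2bac_nt.Z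

variable {d : ℕ}

/-- Least period `n`, all letters used. -/
def Prim (n : ℕ) (s : Seq d) : Prop := Per n s ∧ ∀ m, m < n → ¬ Per m s

/-- Equivalence of words of period `n` generated by all markers. -/
def RelA (n : ℕ) : Seq d → Seq d → Prop :=
  Relation.EqvGen fun s t => Per n s ∧ ∃ u v j, u ≠ v ∧ 1 ≤ j ∧ t = mk u v j s

end Pool.Agent.MP_9b2bac_nt.Z

end

section

set_option autoImplicit false

namespace Pool.Agent.MP_9b2bac_nt.Z

variable {d : ℕ}

namespace ZRot

/-- Shift by an integer. -/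
def shk (k : ℤ) (s : Seq d) : Seq d := fun x => s (x + k)

theorem hit_shk (u v : Fin d) (j : ℕ) (k : ℤ) (s : Seq d) (x : ℤ) :
    Hit u v j (shk k s) x ↔ Hit u v j s (x + k) := by
  unfold Hit shk
  constructor
  · rintro ⟨h1, h2⟩
    refine ⟨fun l hl hl' => ?_, ?_⟩
    · rw [show x + k + l = x + l + k by ring]; exact h1 l hl hl'
    · rw [show x + k + j + 1 = x + j + 1 + k by ring]; exact h2
  · rintro ⟨h1, h2⟩
    refine ⟨fun l hl hl' => ?_, ?_⟩
    · rw [show x + l + k = x + k + l by ring]; exact h1 l hl hl'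
    · rw [show x + j + 1 + k = x + k + j + 1 by ring]; exact h2

theorem mk_shk (u v : Fin d) (j : ℕ) (k : ℤ) (s : Seq d) :
    mk u v j (shk k s) = shk k (mk u v j s) := by
  funext x
  by_cases h : Hit u v j s (x + k)
  · have h' := (hit_shk u v j k s x).2 h
    simp only [mk, shk, h, if_true]
    rw [if_pos h']
  · have h' : ¬ Hit u v j (shk k s) x := fun h' => h ((hit_shk u v j k s x).1 h')
    simp only [mk, shk, h, if_false]
    rw [if_neg h']

theorem per_shk {n : ℕ} {s : Seq d} (h : Per n s) (k : ℤ) : Per n (shk k s) := by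
  refine ⟨h.1, fun i => ?_, fun a => ?_⟩
  · show s (i + n + k) = s (i + k)
    rw [show i + n + k = i + k + n by ring, h.2.1]
  · obtain ⟨i, hi⟩ := h.2.2 a
    exact ⟨i - k, by simpa [shk] using hi⟩

theorem rel_shk [NeZero d] {n : ℕ} {s t : Seq d} (h : Rel n s t) (k : ℤ) :
    Rel n (shk k s) (shk k t) := by
  induction h with
  | rel x y hxy =>
    obtain ⟨hp, u, v, j, hu, rfl⟩ := hxy
    exact Relation.EqvGen.rel _ _ ⟨per_shk hp k, u, v, j, hu, (mk_shk u v j k x).symm⟩
  | refl x => exact Relation.EqvGen.refl _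
  | symm x y _ ih => exact Relation.EqvGen.symm _ _ ih
  | trans x y z _ _ ih1 ih2 => exact Relation.EqvGen.trans _ _ _ ih1 ih2

theorem shk_can [NeZero d] (n : ℕ) (i k : ℤ) : shk k (can d n i) = can d n (i - k) := by
  funext x
  simp only [shk, can]
  rw [show x + k - i = x - (i - k) by ring]

theorem can_add [NeZero d] (n : ℕ) (i : ℤ) : can d n (i + n) = can d n i := by
  funext x
  simp only [can]
  rw [show x - (i + n) = x - i + (-1) * n by ring, Int.add_mul_emod_self_right]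

/-- The periodic word with the window `[-p, n - p)` of `V`. -/
def wd (n : ℕ) (p : ℤ) (V : Seq d) : Seq d := fun x => V ((x + p) % n - p)

theorem wd_add [NeZero d] {n : ℕ} {p N : ℤ} {V : Seq d} (hV : ∀ x, x < 0 ∨ N ≤ x → V x = 0)
    (hN : N + p ≤ n) (hp : p ≤ n) (hn : 0 < n) (x k : ℤ) (hk0 : 0 ≤ k) (hk : k ≤ p) :
    wd n p V (x + k) = V ((x + p) % n - p + k) := by
  have hn' : (0 : ℤ) < n := by exact_mod_cast hn
  have h0 := Int.emod_nonneg (x + p) hn'.ne'
  have h1 := Int.emod_lt_of_pos (x + p) hn'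
  have e : (x + k + p) % n = ((x + p) % n + k) % n := by
    rw [Int.emod_add_emod]; congr 1; ring
  unfold wd
  rw [e]
  set y := (x + p) % n with hy
  by_cases h : y + k < n
  · rw [Int.emod_eq_of_lt (by omega) h]; congr 1; ring
  · have : (y + k) % n = y + k - n := by
      rw [show y + k = y + k - n + 1 * n by ring, Int.add_mul_emod_self_right,
        Int.emod_eq_of_lt (by omega) (by omega)]; ring
    rw [this, hV _ (Or.inl (by omega)), hV _ (Or.inr (by omega))]

theorem mk_wd [NeZero d] {n : ℕ} {p N : ℤ} {V : Seq d} (hV : ∀ x, x < 0 ∨ N ≤ x → V x = 0)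
    (hN : N + p ≤ n) (hp : p ≤ n) (hn : 0 < n) (u v : Fin d) {j : ℕ} (hj : (j : ℤ) + 1 ≤ p) :
    mk u v j (wd n p V) = wd n p (mk u v j V) := by
  funext x
  have key : Hit u v j (wd n p V) x ↔ Hit u v j V ((x + p) % n - p) := by
    unfold Hit
    rw [add_assoc x, wd_add hV hN hp hn x (j + 1) (by omega) hj, ← add_assoc]
    refine and_congr_left fun _ => forall_congr' fun k => forall_congr' fun hk =>
      forall_congr' fun hk' => ?_
    rw [wd_add hV hN hp hn x k (by omega) (by omega)]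
  by_cases h : Hit u v j V ((x + p) % n - p)
  · have h' := key.2 h
    simp only [mk, wd, h, if_true]
    rw [if_pos h']
  · have h' : ¬ Hit u v j (wd n p V) x := fun h' => h (key.1 h')
    simp only [mk, wd, h, if_false]
    rw [if_neg h']

theorem wd_of_mem {n : ℕ} {p : ℤ} (V : Seq d) {x : ℤ} (h0 : -p ≤ x) (h1 : x < n - p) :
    wd n p V x = V x := by
  unfold wd
  rw [Int.emod_eq_of_lt (by omega) (by omega)]; congr 1; ring

theorem mk_eq {u v : Fin d} {j : ℕ} {s t : Seq d} (P : ℤ → Prop) (h : ∀ x, Hit u v j s x ↔ P x)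
    (h1 : ∀ x, P x → (s x = u ∧ t x = v) ∨ (s x = v ∧ t x = u)) (h2 : ∀ x, ¬ P x → t x = s x) :
    mk u v j s = t := by
  funext x
  by_cases hx : P x
  · have := (h x).2 hx
    simp only [mk, this, if_true]
    rcases h1 x hx with ⟨a, b⟩ | ⟨a, b⟩
    · rw [a, b, Equiv.swap_apply_left]
    · rw [a, b, Equiv.swap_apply_right]
  · have : ¬ Hit u v j s x := fun h' => hx ((h x).1 h')
    simp only [mk, this, if_false]
    exact (h2 x hx).symm

theorem hit_one {u v : Fin d} {s : Seq d} {x : ℤ} :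
    Hit u v 1 s x ↔ s (x + 1) = u ∧ s (x + 2) = v := by
  unfold Hit
  constructor
  · rintro ⟨h1, h2⟩
    exact ⟨by simpa using h1 1 le_rfl le_rfl, by rw [← h2]; congr 1; push_cast; ring⟩
  · rintro ⟨h1, h2⟩
    refine ⟨fun k hk hk' => ?_, by rw [← h2]; congr 1; push_cast; ring⟩
    obtain rfl : k = 1 := by omega
    simpa using h1

/-- Values of the explicit words. -/
def vv (m k r t q : ℕ) (x : ℤ) : ℤ :=
  if 0 ≤ x ∧ x < 2 * m then
    (if x % 2 = 1 then (if x / 2 < k then x / 2 + 1 else 0)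
      else (if x / 2 < q then x / 2 + 1 else 0))
  else if 2 * m + 1 ≤ x ∧ x < 4 * m + 1 then
    (if x % 2 = 0 then x / 2 - m
      else if m ≤ q ∧ x = 4 * m - 1 then 0
      else if r + m ≤ x / 2 ∧ x / 2 < t + m then t + 1 else x / 2 - m + 1)
  else 0

theorem vv_spec (m k r t q : ℕ) (x : ℤ) :
    (0 ≤ x ∧ x < 2 * m ∧ x % 2 = 1 ∧ x / 2 < k ∧ vv m k r t q x = x / 2 + 1) ∨
    (0 ≤ x ∧ x < 2 * m ∧ x % 2 = 1 ∧ k ≤ x / 2 ∧ vv m k r t q x = 0) ∨
    (0 ≤ x ∧ x < 2 * m ∧ x % 2 = 0 ∧ x / 2 < q ∧ vv m k r t q x = x / 2 + 1) ∨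
    (0 ≤ x ∧ x < 2 * m ∧ x % 2 = 0 ∧ q ≤ x / 2 ∧ vv m k r t q x = 0) ∨
    (2 * m + 1 ≤ x ∧ x < 4 * m + 1 ∧ x % 2 = 0 ∧ vv m k r t q x = x / 2 - m) ∨
    (2 * m + 1 ≤ x ∧ x < 4 * m + 1 ∧ x % 2 = 1 ∧ m ≤ q ∧ x = 4 * m - 1 ∧ vv m k r t q x = 0) ∨
    (2 * m + 1 ≤ x ∧ x < 4 * m + 1 ∧ x % 2 = 1 ∧ (q < m ∨ x ≠ 4 * m - 1) ∧ r + m ≤ x / 2 ∧
      x / 2 < t + m ∧ vv m k r t q x = t + 1) ∨
    (2 * m + 1 ≤ x ∧ x < 4 * m + 1 ∧ x % 2 = 1 ∧ (q < m ∨ x ≠ 4 * m - 1) ∧
      (x / 2 < r + m ∨ t + m ≤ x / 2) ∧ vv m k r t q x = x / 2 - m + 1) ∨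
    ((x < 0 ∨ x = 2 * m ∨ 4 * m + 1 ≤ x) ∧ vv m k r t q x = 0) := by
  unfold vv
  split_ifs
  · left; omega
  · right; left; omega
  · right; right; left; omega
  · right; right; right; left; omega
  · right; right; right; right; left; omega
  · right; right; right; right; right; left; omega
  · right; right; right; right; right; right; left; omega
  · right; right; right; right; right; right; right; left; omega
  · right; right; right; right; right; right; right; right; omega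

/-- The explicit words. -/
def VV (d : ℕ) [NeZero d] (k r t q : ℕ) : Seq d :=
  fun x => Fin.ofNat d (vv (d - 1) k r t q x).toNat

theorem VV_val [NeZero d] {k r t q : ℕ} (ht : t < d - 1) (x : ℤ) :
    ((VV d k r t q x : ℕ) : ℤ) = vv (d - 1) k r t q x := by
  have h := vv_spec (d - 1) k r t q x
  have h1 : (vv (d - 1) k r t q x).toNat < d := by omega
  have h2 : 0 ≤ vv (d - 1) k r t q x := by omega
  simp only [VV, Fin.val_ofNat, Nat.mod_eq_of_lt h1]
  omega

theorem VV_iff [NeZero d] {k r t q : ℕ} (ht : t < d - 1) (x : ℤ) (a : Fin d) :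
    VV d k r t q x = a ↔ vv (d - 1) k r t q x = (a : ℕ) := by
  rw [← VV_val ht, Fin.ext_iff]; omega

theorem L_val [NeZero d] {k : ℕ} (hk : k < d - 1) : ((L d k : Fin d) : ℕ) = k + 1 := by
  simp only [L, Fin.val_ofNat]
  exact Nat.mod_eq_of_lt (by omega)

theorem L_last [NeZero d] : L d (d - 1) = 0 := by
  have := NeZero.pos d
  apply Fin.ext
  simp only [L, Fin.val_ofNat, Fin.val_zero]
  rw [show d - 1 + 1 = d by omega, Nat.mod_self]

theorem stepA [NeZero d] {k r t : ℕ} (hr : r < t) (ht : t < d - 1) :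
    mk (L d r) (L d t) 1 (VV d k (r + 1) t 0) = VV d k r t 0 := by
  have hr' : r < d - 1 := by omega
  refine mk_eq (fun x => x = 2 * ((d - 1 : ℕ) : ℤ) + 1 + 2 * r) (fun x => ?_) (fun x hx => ?_)
    (fun x hx => ?_)
  · rw [hit_one, VV_iff ht, VV_iff ht, L_val ht, L_val hr']
    have h1 := vv_spec (d - 1) k (r + 1) t 0 (x + 1)
    have h2 := vv_spec (d - 1) k (r + 1) t 0 (x + 2)
    omega
  · left
    rw [VV_iff ht, VV_iff ht, L_val ht, L_val hr']
    have h1 := vv_spec (d - 1) k (r + 1) t 0 x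
    have h2 := vv_spec (d - 1) k r t 0 x
    omega
  · rw [VV_iff ht, VV_val ht]
    have h1 := vv_spec (d - 1) k (r + 1) t 0 x
    have h2 := vv_spec (d - 1) k r t 0 x
    omega

theorem stepB [NeZero d] {k : ℕ} (hk : k < d - 1) :
    mk 0 (L d k) (2 * (d - 1) - 2 * k - 1) (VV d k 0 k 0) = VV d (k + 1) 0 k 0 := by
  refine mk_eq (fun x => x = 2 * (k : ℤ) + 1) (fun x => ?_) (fun x hx => ?_) (fun x hx => ?_)
  · unfold Hit
    constructor
    · rintro ⟨a, b⟩
      have a' := a _ (by omega) le_rfl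
      rw [VV_iff hk] at a' b
      rw [L_val hk] at b
      have h1 := vv_spec (d - 1) k 0 k 0 (x + (2 * (d - 1) - 2 * k - 1 : ℕ))
      have h2 := vv_spec (d - 1) k 0 k 0 (x + (2 * (d - 1) - 2 * k - 1 : ℕ) + 1)
      simp only [Fin.val_zero] at a'
      omega
    · intro hx
      refine ⟨fun l hl hl' => ?_, ?_⟩
      · rw [VV_iff hk]
        have h1 := vv_spec (d - 1) k 0 k 0 (x + l)
        simp only [Fin.val_zero]
        omega
      · rw [VV_iff hk, L_val hk]
        have h2 := vv_spec (d - 1) k 0 k 0 (x + (2 * (d - 1) - 2 * k - 1 : ℕ) + 1)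
        omega
  · left
    rw [VV_iff hk, VV_iff hk, L_val hk]
    have h1 := vv_spec (d - 1) k 0 k 0 x
    have h2 := vv_spec (d - 1) (k + 1) 0 k 0 x
    simp only [Fin.val_zero]
    omega
  · rw [VV_iff hk, VV_val hk]
    have h1 := vv_spec (d - 1) k 0 k 0 x
    have h2 := vv_spec (d - 1) (k + 1) 0 k 0 x
    omega

theorem stepC [NeZero d] {q : ℕ} (hq : q < d - 1) :
    mk (L d q) (L d (d - 1)) 1 (VV d (d - 1) 0 0 q) = VV d (d - 1) 0 0 (q + 1) := by
  have h0 : 0 < d - 1 := by omega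
  refine mk_eq (fun x => x = 2 * (q : ℤ) ∨ (q + 1 = d - 1 ∧ x = 4 * ((d - 1 : ℕ) : ℤ) - 1))
    (fun x => ?_) (fun x hx => ?_) (fun x hx => ?_)
  · rw [hit_one, VV_iff h0, VV_iff h0, L_last, L_val hq]
    have h1 := vv_spec (d - 1) (d - 1) 0 0 q (x + 1)
    have h2 := vv_spec (d - 1) (d - 1) 0 0 q (x + 2)
    simp only [Fin.val_zero]
    omega
  · rw [VV_iff h0, VV_iff h0, VV_iff h0, VV_iff h0, L_last, L_val hq]
    have h1 := vv_spec (d - 1) (d - 1) 0 0 q x
    have h2 := vv_spec (d - 1) (d - 1) 0 0 (q + 1) x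
    simp only [Fin.val_zero]
    omega
  · rw [VV_iff h0, VV_val h0]
    have h1 := vv_spec (d - 1) (d - 1) 0 0 q x
    have h2 := vv_spec (d - 1) (d - 1) 0 0 (q + 1) x
    omega

theorem VV_diag [NeZero d] (k t t' : ℕ) (ht : t < d - 1) (ht' : t' < d - 1) :
    VV d k t t 0 = VV d k t' t' 0 := by
  funext x
  rw [VV_iff ht, VV_val ht']
  have h1 := vv_spec (d - 1) k t t 0 x
  have h2 := vv_spec (d - 1) k t' t' 0 x
  omega

/-- The periodic explicit words. -/
def WW (d : ℕ) [NeZero d] (n k r t q : ℕ) : Seq d := wd n (2 * ((d - 1 : ℕ) : ℤ) + 1) (VV d k r t q)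

theorem per_WW [NeZero d] {n k r t q : ℕ} (ht : t < d - 1) (hbig : 12 * d ≤ n) :
    Per n (WW d n k r t q) := by
  refine ⟨by omega, fun i => ?_, fun a => ?_⟩
  · unfold WW wd
    rw [show i + n + (2 * ((d - 1 : ℕ) : ℤ) + 1) = i + (2 * ((d - 1 : ℕ) : ℤ) + 1) + 1 * n by ring,
      Int.add_mul_emod_self_right]
  · have ha := a.2
    refine ⟨2 * ((d - 1 : ℕ) : ℤ) + 2 * (a : ℕ), ?_⟩
    unfold WW
    rw [wd_of_mem _ (by omega) (by omega), VV_iff ht]
    have h1 := vv_spec (d - 1) k r t q (2 * ((d - 1 : ℕ) : ℤ) + 2 * (a : ℕ))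
    omega

theorem rel_step [NeZero d] {n k r t q k' r' t' q' : ℕ} (ht : t < d - 1) (hbig : 12 * d ≤ n)
    {u v : Fin d} {j : ℕ} (hu : Used u v j) (hj : j ≤ 2 * (d - 1))
    (h : mk u v j (VV d k r t q) = VV d k' r' t' q') :
    Rel n (WW d n k r t q) (WW d n k' r' t' q') := by
  refine Relation.EqvGen.rel _ _ ⟨per_WW ht hbig, u, v, j, hu, ?_⟩
  unfold WW
  rw [mk_wd (N := 4 * ((d - 1 : ℕ) : ℤ) + 1) (fun x hx => ?_) (by omega) (by omega) (by omega) u v
    (by omega), h]
  rw [VV_iff ht]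
  have h1 := vv_spec (d - 1) k r t q x
  simp only [Fin.val_zero]
  omega

theorem relA [NeZero d] {n : ℕ} (hbig : 12 * d ≤ n) (k : ℕ) {t : ℕ} (ht : t < d - 1) (r : ℕ)
    (hr : r ≤ t) : Rel n (WW d n k r t 0) (WW d n k 0 t 0) := by
  induction r with
  | zero => exact Relation.EqvGen.refl _
  | succ r ih =>
    refine Relation.EqvGen.trans _ _ _ ?_ (ih (by omega))
    exact rel_step ht hbig (Or.inl ⟨r, t, by omega, by omega, rfl, rfl, rfl⟩) (by omega)
      (stepA (by omega) ht)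

theorem relB [NeZero d] {n : ℕ} (hbig : 12 * d ≤ n) (k : ℕ) (hk : k ≤ d - 1) :
    Rel n (WW d n 0 0 0 0) (WW d n k 0 0 0) := by
  induction k with
  | zero => exact Relation.EqvGen.refl _
  | succ k ih =>
    have hk' : k < d - 1 := by omega
    refine Relation.EqvGen.trans _ _ _ (ih (by omega)) ?_
    have e1 : WW d n k 0 0 0 = WW d n k k k 0 := by
      unfold WW; rw [VV_diag k 0 k (by omega) hk']
    have e2 : WW d n (k + 1) 0 0 0 = WW d n (k + 1) k k 0 := by
      unfold WW; rw [VV_diag (k + 1) 0 k (by omega) hk']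
    rw [e1, e2]
    refine Relation.EqvGen.trans _ _ _ (relA hbig k hk' k le_rfl) ?_
    refine Relation.EqvGen.trans _ _ _ ?_ (Relation.EqvGen.symm _ _ (relA hbig (k + 1) hk' k le_rfl))
    refine rel_step hk' hbig (Or.inr ⟨rfl, fun h => ?_, by omega⟩) (by omega) (stepB hk')
    have := L_val hk'
    rw [h] at this
    simp at this

theorem relC [NeZero d] {n : ℕ} (hbig : 12 * d ≤ n) (q : ℕ) (hq : q ≤ d - 1) :
    Rel n (WW d n (d - 1) 0 0 0) (WW d n (d - 1) 0 0 q) := by
  induction q with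
  | zero => exact Relation.EqvGen.refl _
  | succ q ih =>
    refine Relation.EqvGen.trans _ _ _ (ih (by omega)) ?_
    exact rel_step (by omega) hbig (Or.inl ⟨q, d - 1, by omega, le_rfl, rfl, rfl, rfl⟩) (by omega)
      (stepC (by omega))

theorem can_eq [NeZero d] {n : ℕ} (hbig : 12 * d ≤ n) (hd : 3 ≤ d) :
    can d n (2 * ((d - 1 : ℕ) : ℤ) + 1) = WW d n 0 0 0 0 := by
  funext x
  have h0 : 0 < d - 1 := by omega
  have hn' : (0 : ℤ) < n := by omega
  unfold WW wd can
  set p : ℤ := 2 * ((d - 1 : ℕ) : ℤ) + 1 with hp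
  have a0 := Int.emod_nonneg (x + p) hn'.ne'
  have a1 := Int.emod_lt_of_pos (x + p) hn'
  have e : (x - p) % n = ((x + p) % n - 2 * p) % n := by
    rw [sub_eq_add_neg ((x + p) % n), Int.emod_add_emod]; congr 1; ring
  set y := (x + p) % n with hy
  have e' : (x - p) % n = if 2 * p ≤ y then y - 2 * p else y - 2 * p + n := by
    rw [e]
    split_ifs with h
    · exact Int.emod_eq_of_lt (by omega) (by omega)
    · rw [show y - 2 * p = y - 2 * p + n + (-1) * n by ring, Int.add_mul_emod_self_right,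
        Int.emod_eq_of_lt (by omega) (by omega)]; ring
  symm
  rw [VV_iff h0]
  have h1 := vv_spec (d - 1) 0 0 0 0 (y - p)
  set z := (x - p) % n with hz
  split_ifs with h2
  · rw [L_val (by omega)]
    split_ifs at e' <;> omega
  · simp only [Fin.val_zero]
    split_ifs at e' <;> omega

theorem struct_WW [NeZero d] {n : ℕ} (hbig : 12 * d ≤ n) (hd : 3 ≤ d) :
    Struct (WW d n (d - 1) 0 0 (d - 1)) 0 (n - 4 * (d - 1) - 1) := by
  have h0 : 0 < d - 1 := by omega
  refine ⟨fun k hk => ?_, ?_, fun k hk hk' => ?_⟩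
  · unfold WW
    rw [wd_of_mem _ (by omega) (by omega), VV_iff h0, L_val (by omega)]
    have h1 := vv_spec (d - 1) (d - 1) 0 0 (d - 1) (0 + k)
    omega
  · unfold WW
    rw [wd_of_mem _ (by omega) (by omega), VV_iff h0]
    have h1 := vv_spec (d - 1) (d - 1) 0 0 (d - 1) (0 + (2 * (d - 1) : ℕ))
    simp only [Fin.val_zero]
    omega
  · by_cases h : k ≤ 2 * (d - 1) + 1
    · unfold WW
      rw [wd_of_mem _ (by omega) (by omega), VV_iff h0]
      have h1 := vv_spec (d - 1) (d - 1) 0 0 (d - 1) (0 - k)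
      simp only [Fin.val_zero]
      omega
    · rw [← (per_WW h0 hbig).2.1]
      unfold WW
      rw [wd_of_mem _ (by omega) (by omega), VV_iff h0]
      have h1 := vv_spec (d - 1) (d - 1) 0 0 (d - 1) (0 - k + n)
      simp only [Fin.val_zero]
      omega

theorem rel_one [NeZero d] {n : ℕ} (hbig : 12 * d ≤ n) (hd : 3 ≤ d) :
    Rel n (can d n (2 * ((d - 1 : ℕ) : ℤ) + 1)) (can d n 0) := by
  rw [can_eq hbig hd]
  refine Relation.EqvGen.trans _ _ _ (relB hbig _ le_rfl) ?_
  refine Relation.EqvGen.trans _ _ _ (relC hbig _ le_rfl) ?_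
  exact sweep_big hd (per_WW (by omega) hbig) (by omega) (by omega) (struct_WW hbig hd)

/-- The shifts of the zone that are realised. -/
def good (d : ℕ) [NeZero d] (n : ℕ) : AddSubgroup ℤ where
  carrier := {r | ∀ i, Rel n (can d n i) (can d n (i + r))}
  zero_mem' := fun i => by rw [add_zero]; exact Relation.EqvGen.refl _
  add_mem' := fun {a b} ha hb i => by
    rw [← add_assoc]; exact Relation.EqvGen.trans _ _ _ (ha i) (hb (i + a))
  neg_mem' := fun {a} ha i => by
    have := ha (i + -a)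
    rw [neg_add_cancel_right] at this
    exact Relation.EqvGen.symm _ _ this

end ZRot

open ZRot in
theorem rot [NeZero d] (hd : 3 ≤ d) {n : ℕ} (hn : n.Prime) (hbig : 12 * d ≤ n) (i i' : ℤ) :
    Rel n (can d n i) (can d n i') := by
  have h1 : (n : ℤ) ∈ good d n := fun i => by rw [can_add]; exact Relation.EqvGen.refl _
  have h2 : ((2 * (d - 1) + 1 : ℕ) : ℤ) ∈ good d n := fun i => by
    have := rel_shk (rel_one hbig hd) (-i)
    rw [shk_can, shk_can] at this
    rw [show (0 : ℤ) - -i = i by ring, show 2 * ((d - 1 : ℕ) : ℤ) + 1 - -i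
      = i + ((2 * (d - 1) + 1 : ℕ) : ℤ) by push_cast; ring] at this
    exact Relation.EqvGen.symm _ _ this
  have h3 : Nat.Coprime n (2 * (d - 1) + 1) :=
    (Nat.coprime_of_lt_prime (by omega) (by omega) hn)
  obtain ⟨a, b, hab⟩ := Nat.isCoprime_iff_coprime.2 h3
  have h4 : (1 : ℤ) ∈ good d n := by
    rw [← hab]
    exact add_mem (by simpa using zsmul_mem h1 a) (by simpa using zsmul_mem h2 b)
  have h5 : (i' - i) ∈ good d n := by simpa using zsmul_mem h4 (i' - i)
  have := h5 i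
  rwa [add_sub_cancel] at this

end Pool.Agent.MP_9b2bac_nt.Z

end

section

set_option autoImplicit false

namespace Pool.Agent.MP_9b2bac_nt.Z.ZGiant

variable {d : ℕ}

theorem per_shift {n : ℕ} {s : Seq d} (h : Per n s) (a x : ℤ) :
    ∃ k : ℕ, k < n ∧ s (a + k) = s x ∧ (k : ℤ) = (x - a) % n := by
  have hn : (0 : ℤ) < n := by exact_mod_cast h.1
  have h0 := Int.emod_nonneg (x - a) hn.ne'
  have h1 := Int.emod_lt_of_pos (x - a) hn
  refine ⟨((x - a) % n).toNat, by omega, ?_, Int.toNat_of_nonneg h0⟩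
  rw [Int.toNat_of_nonneg h0, ← h.zper (a + (x - a) % n) ((x - a) / n)]
  congr 1
  have := Int.emod_add_ediv_mul (x - a) n
  linarith

theorem window {n : ℕ} {s t : Seq d} (hs : Per n s) (ht : Per n t) (a : ℤ)
    (h : ∀ k : ℕ, k < n → s (a + k) = t (a + k)) : s = t := by
  funext x
  obtain ⟨k, hk, h1, h2⟩ := per_shift hs a x
  obtain ⟨k', -, h1', h2'⟩ := per_shift ht a x
  have : k' = k := by exact_mod_cast h2'.trans h2.symm
  subst this
  rw [← h1, ← h1', h k' hk]

theorem ncard_le_of_inj {A : Set (Seq d)} {m : ℕ} (f : Seq d → Fin m → Fin d)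
    (hf : Set.InjOn f A) : A.ncard ≤ d ^ m := by
  have h1 := Set.ncard_le_ncard_of_injOn (s := A) (t := Set.univ) f (fun _ _ => trivial) hf
    (Set.toFinite _)
  rw [Set.ncard_univ, Nat.card_eq_fintype_card] at h1
  simpa using h1

theorem ncard_per_le (n : ℕ) : {s : Seq d | Per n s}.ncard ≤ d ^ n := by
  refine ncard_le_of_inj (fun s (k : Fin n) => s (k : ℕ)) ?_
  intro s hs t ht hst
  refine window hs ht 0 fun k hk => ?_
  simpa using congrFun hst ⟨k, hk⟩

theorem mk_eq_of_short (hd : 3 ≤ d) {n : ℕ} {s : Seq d} (h : Per n s) (u v : Fin d) {j : ℕ}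
    (hj : n ≤ j + 1) : mk u v j s = s := by
  obtain ⟨c, hcu, hcv⟩ : ∃ c : Fin d, c ≠ u ∧ c ≠ v := by
    by_contra hcon
    push Not at hcon
    have hsub : (Finset.univ : Finset (Fin d)) ⊆ {u, v} := by
      intro c _
      by_cases hc : c = u
      · simp [hc]
      · simp [hcon c hc]
    have h1 := Finset.card_le_card hsub
    have h2 : ({u, v} : Finset (Fin d)).card ≤ 2 := Finset.card_le_two
    rw [Finset.card_univ, Fintype.card_fin] at h1
    omega
  funext i
  have hno : ¬ Hit u v j s i := by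
    rintro ⟨h1, h2⟩
    obtain ⟨x, hx⟩ := h.2.2 c
    obtain ⟨k, hk, hk1, -⟩ := per_shift h (i + 1) x
    rw [hx] at hk1
    by_cases hkj : k + 1 ≤ j
    · have := h1 (k + 1) (by omega) hkj
      apply hcu
      rw [← hk1, ← this]
      congr 1
      push_cast
      ring
    · have hkj' : k = j := by omega
      apply hcv
      rw [← hk1, ← h2, hkj']
      congr 1
      ring
  simp [mk, hno]

theorem hit_emod {n : ℕ} {s : Seq d} (h : Per n s) {u v : Fin d} {j : ℕ} {i : ℤ}
    (hi : Hit u v j s i) : Hit u v j s (i % n) := by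
  have key : ∀ y : ℤ, s (i % n + y) = s (i + y) := by
    intro y
    rw [← h.zper (i % n + y) (i / n)]
    congr 1
    have := Int.emod_add_ediv_mul i n
    linarith
  refine ⟨fun k h1 h2 => ?_, ?_⟩
  · rw [key]; exact hi.1 k h1 h2
  · rw [add_assoc, key, ← add_assoc]; exact hi.2

theorem ncard_hit_le {n : ℕ} (u v : Fin d) {j : ℕ} (hj : j + 1 ≤ n) (i : ℤ) :
    {s : Seq d | Per n s ∧ Hit u v j s i}.ncard ≤ d ^ (n - j - 1) := by
  refine ncard_le_of_inj (fun s (k : Fin (n - j - 1)) => s (i + j + 2 + (k : ℕ))) ?_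
  intro s hs t ht hst
  refine window hs.1 ht.1 (i + 1) fun k hk => ?_
  rcases lt_trichotomy k j with hkj | hkj | hkj
  · have e : i + 1 + (k : ℤ) = i + ((k + 1 : ℕ) : ℤ) := by push_cast; ring
    rw [e, hs.2.1 (k + 1) (by omega) (by omega), ht.2.1 (k + 1) (by omega) (by omega)]
  · have e : i + 1 + (k : ℤ) = i + j + 1 := by rw [hkj]; ring
    rw [e, hs.2.2, ht.2.2]
  · have := congrFun hst ⟨k - j - 1, by omega⟩
    have e : i + 1 + (k : ℤ) = i + j + 2 + ((k - j - 1 : ℕ) : ℤ) := by omega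
    rw [e]
    exact this

theorem ncard_supp_le {n : ℕ} (u v : Fin d) {j : ℕ} (hj : j + 1 ≤ n) :
    {s : Seq d | Per n s ∧ mk u v j s ≠ s}.ncard ≤ n * d ^ (n - j - 1) := by
  classical
  have hfin : ∀ i : ℤ, {s : Seq d | Per n s ∧ Hit u v j s i}.Finite := fun i =>
    (finite_per n).subset fun s hs => hs.1
  have hsub : {s : Seq d | Per n s ∧ mk u v j s ≠ s} ⊆
      ↑((Finset.range n).biUnion fun i : ℕ => (hfin i).toFinset) := by
    rintro s ⟨hs, hne⟩
    obtain ⟨i, hi⟩ := Function.ne_iff.1 hne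
    have hh : Hit u v j s i := by
      by_contra hno
      exact hi (by simp [mk, hno])
    have hn : (0 : ℤ) < n := by exact_mod_cast hs.1
    have h0 := Int.emod_nonneg i hn.ne'
    have h1 := Int.emod_lt_of_pos i hn
    simp only [Finset.coe_biUnion, Finset.coe_range, Set.mem_iUnion, Set.Finite.coe_toFinset]
    refine ⟨(i % n).toNat, by simp only [Set.mem_Iio]; omega, hs, ?_⟩
    rw [Int.toNat_of_nonneg h0]
    exact hit_emod hs hh
  refine (Set.ncard_le_ncard hsub (Finset.finite_toSet _)).trans ?_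
  rw [Set.ncard_coe_finset]
  refine Finset.card_biUnion_le.trans ?_
  refine (Finset.sum_le_card_nsmul _ _ (d ^ (n - j - 1)) fun i _ => ?_).trans (by simp)
  rw [← Set.ncard_eq_toFinset_card _ (hfin i)]
  exact ncard_hit_le u v hj i

theorem bern (E : ℕ) (hE : 0 < E) : 2 * E ^ (E + 1) < (E + 1) ^ (E + 1) := by
  have hE' : (0 : ℝ) < E := by exact_mod_cast hE
  have h1 := one_add_mul_le_pow (a := (1 / E : ℝ)) (by
    have : (0 : ℝ) < 1 / E := by positivity
    linarith) (E + 1)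
  have h2 : (2 : ℝ) < 1 + ((E + 1 : ℕ) : ℝ) * (1 / E) := by
    push_cast
    have : ((E : ℝ) + 1) * (1 / E) = 1 + 1 / E := by field_simp
    have h3 : (0 : ℝ) < 1 / E := by positivity
    linarith
  have h3 : ((E : ℝ) + 1) = E * (1 + 1 / E) := by field_simp
  have h4 : (2 : ℝ) * E ^ (E + 1) < (E + 1) ^ (E + 1) := by
    rw [h3, mul_pow]
    have h5 : (0 : ℝ) < E ^ (E + 1) := by positivity
    nlinarith
  exact_mod_cast h4

/-- The pattern: four zeros, the zone, one zero. -/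
def pat (d : ℕ) [NeZero d] (a : ℕ) : Fin d :=
  if 4 ≤ a ∧ a < 4 + 2 * (d - 1) then L d ((a - 4) / 2) else 0

theorem card_bad [NeZero d] (n l K : ℕ) (hl : 0 < l) (hK : K * l ≤ n) (p : Fin l → Fin d) :
    {f : ℕ → Fin d | (∀ x, n ≤ x → f x = 0) ∧
      ∀ k, k < K → (fun a : Fin l => f (k * l + a)) ≠ p}.ncard ≤
      (d ^ l - 1) ^ K * d ^ (n - K * l) := by
  classical
  let B : Finset ((Fin K → Fin l → Fin d) × (Fin (n - K * l) → Fin d)) := (Fintype.piFinset fun _ => Finset.univ.erase p) ×ˢ Finset.univ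
  have hB : B.card = (d ^ l - 1) ^ K * d ^ (n - K * l) := by
    simp [B, Finset.card_product, Fintype.card_piFinset, Finset.card_erase_of_mem]
  rw [← hB, ← Set.ncard_coe_finset]
  refine Set.ncard_le_ncard_of_injOn
    (fun f => ((fun (k : Fin K) (a : Fin l) => f (k * l + a),
      fun b : Fin (n - K * l) => f (K * l + b)) :
        (Fin K → Fin l → Fin d) × (Fin (n - K * l) → Fin d))) ?_ ?_ (Finset.finite_toSet _)
  · rintro f ⟨-, hf⟩
    simp only [B, Finset.coe_product, Set.mem_prod, Finset.mem_coe, Fintype.mem_piFinset,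
      Finset.mem_erase, Finset.mem_univ, and_true]
    exact fun k => hf k k.2
  · rintro f ⟨hf, -⟩ g ⟨hg, -⟩ hfg
    funext x
    by_cases hx : n ≤ x
    · rw [hf x hx, hg x hx]
    by_cases hx2 : K * l ≤ x
    · have := congrFun (congrArg Prod.snd hfg) ⟨x - K * l, by omega⟩
      simp only at this
      rwa [show K * l + (x - K * l) = x by omega] at this
    · have h1 : x / l < K := by
        rw [Nat.div_lt_iff_lt_mul hl]; omega
      have := congrFun (congrFun (congrArg Prod.fst hfg) ⟨x / l, h1⟩) ⟨x % l, Nat.mod_lt _ hl⟩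
      simp only at this
      rwa [Nat.div_add_mod' x l] at this

theorem card_all [NeZero d] (n : ℕ) :
    {f : ℕ → Fin d | ∀ x, n ≤ x → f x = 0}.Finite ∧
    d ^ n ≤ {f : ℕ → Fin d | ∀ x, n ≤ x → f x = 0}.ncard := by
  classical
  have hfin : {f : ℕ → Fin d | ∀ x, n ≤ x → f x = 0}.Finite := by
    refine Set.Finite.of_finite_image (f := fun f (k : Fin n) => f k) (Set.toFinite _) ?_
    intro f hf g hg hfg
    funext x
    by_cases hx : n ≤ x
    · rw [hf x hx, hg x hx]
    · exact congrFun hfg ⟨x, by omega⟩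
  refine ⟨hfin, ?_⟩
  have h1 := Set.ncard_le_ncard_of_injOn (s := (Set.univ : Set (Fin n → Fin d)))
    (t := {f : ℕ → Fin d | ∀ x, n ≤ x → f x = 0})
    (fun g x => if h : x < n then g ⟨x, h⟩ else 0) (fun g _ x hx => by
      simp only
      rw [dif_neg (by omega)]) (fun g _ g' _ h => by
      funext k
      have := congrFun h k
      simpa [k.2] using this) hfin
  rw [Set.ncard_univ, Nat.card_eq_fintype_card] at h1
  simpa using h1

theorem L_surj [NeZero d] (c : Fin d) (hc : c ≠ 0) : ∃ k, k < d - 1 ∧ L d k = c := by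
  have h0 : (c : ℕ) ≠ 0 := fun h => hc (Fin.ext (by simpa using h))
  have h1 := c.2
  refine ⟨c - 1, by omega, Fin.ext ?_⟩
  simp only [L, Fin.ofNat]
  rw [show (c : ℕ) - 1 + 1 = c by omega, Nat.mod_eq_of_lt h1]

theorem many_struct [NeZero d] (hd : 3 ≤ d) : ∃ n₀ : ℕ, ∀ n : ℕ, n₀ ≤ n →
    d ^ n < 2 * {s : Seq d | Per n s ∧ ∃ i, Struct s i 4}.ncard := by
  classical
  set l := 2 * d + 3 with hl
  obtain ⟨E, hE⟩ : ∃ E, d ^ l = E + 1 := ⟨d ^ l - 1, by
    have : 0 < d ^ l := by positivity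
    omega⟩
  have hE0 : 0 < E := by
    have : 1 < d ^ l := Nat.one_lt_pow (by omega) (by omega)
    omega
  refine ⟨(E + 1) * l, fun n hn => ?_⟩
  have hn0 : 0 < n := lt_of_lt_of_le (by positivity) hn
  have hnz : (0 : ℤ) < n := by exact_mod_cast hn0
  let p : Fin l → Fin d := fun a => pat d a
  let A := {f : ℕ → Fin d | ∀ x, n ≤ x → f x = 0}
  let Bd := {f : ℕ → Fin d | (∀ x, n ≤ x → f x = 0) ∧
      ∀ k, k < E + 1 → (fun a : Fin l => f (k * l + a)) ≠ p}
  have hB : Bd.ncard ≤ _ := card_bad n l (E + 1) (by omega) hn p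
  obtain ⟨hAf, hA⟩ := card_all (d := d) n
  have h2 : 2 * Bd.ncard < d ^ n := by
    have e : d ^ n = (E + 1) ^ (E + 1) * d ^ (n - (E + 1) * l) := by
      rw [← hE, ← pow_mul, ← pow_add, hE]
      congr 1
      rw [mul_comm l]
      omega
    rw [hE, Nat.add_sub_cancel] at hB
    have h3 := bern E hE0
    have h4 : 0 < d ^ (n - (E + 1) * l) := by positivity
    rw [e]
    nlinarith
  have h5 : A.ncard ≤ (A \ Bd).ncard + Bd.ncard := by
    have : Bd ⊆ A := fun f hf => hf.1
    rw [Set.ncard_sdiff_add_ncard_of_subset this hAf]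
  have h6 : (A \ Bd).ncard ≤ {s : Seq d | Per n s ∧ ∃ i, Struct s i 4}.ncard := by
    refine Set.ncard_le_ncard_of_injOn (fun f x => f (x % n).toNat) ?_ ?_
      ((finite_per n).subset fun s hs => hs.1)
    · rintro f ⟨hf, hf2⟩
      have : ∃ k, k < E + 1 ∧ (fun a : Fin l => f (k * l + a)) = p := by
        by_contra hcon
        push Not at hcon
        exact hf2 ⟨hf, hcon⟩
      obtain ⟨k, hk, hp⟩ := this
      have hkl : k * l + l ≤ n := by
        have : (k + 1) * l ≤ (E + 1) * l := Nat.mul_le_mul_right _ hk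
        nlinarith
      have hv : ∀ a : ℕ, a < l → ∀ x : ℤ, x = (k * l + a : ℕ) → f (x % n).toNat = pat d a := by
        intro a ha x hx
        rw [hx, Int.emod_eq_of_lt (by positivity) (by exact_mod_cast (by omega)), Int.toNat_natCast]
        exact congrFun hp ⟨a, ha⟩
      refine ⟨⟨hn0, fun i => by simp, fun c => ?_⟩, (k * l + 4 : ℕ), ?_, ?_, ?_⟩
      · by_cases hc : c = 0
        · refine ⟨(k * l + 0 : ℕ), ?_⟩
          simp only
          rw [hv 0 (by omega) _ rfl, hc]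
          simp [pat]
        · obtain ⟨r, hr, hrc⟩ := L_surj c hc
          refine ⟨(k * l + (4 + 2 * r) : ℕ), ?_⟩
          simp only
          rw [hv (4 + 2 * r) (by omega) _ rfl, pat, if_pos (by omega), ← hrc]
          congr 1
          omega
      · intro a ha
        simp only
        rw [hv (4 + a) (by omega) _ (by push_cast; ring), pat, if_pos (by omega)]
        congr 2
        omega
      · simp only
        rw [hv (4 + 2 * (d - 1)) (by omega) _ (by push_cast; ring), pat, if_neg (by omega)]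
      · intro a h1 h4
        simp only
        rw [hv (4 - a) (by omega) _ (by omega), pat, if_neg (by omega)]
    · rintro f ⟨hf, -⟩ g ⟨hg, -⟩ hfg
      funext x
      by_cases hx : n ≤ x
      · rw [hf x hx, hg x hx]
      · have := congrFun hfg (x : ℤ)
        simp only at this
        rwa [Int.emod_eq_of_lt (by positivity) (by omega), Int.toNat_natCast] at this
  have h7 : d ^ n ≤ A.ncard := hA
  omega

end Pool.Agent.MP_9b2bac_nt.Z.ZGiant

end

section

set_option autoImplicit false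

namespace Pool.Agent.MP_9b2bac_nt.Z

variable {d : ℕ}

namespace ZGiant

/-- The periodic word with letter values `F 0, ..., F (n-1)`. -/
def wd (d : ℕ) [NeZero d] (n : ℕ) (F : ℕ → ℕ) : Seq d :=
  fun x => Fin.ofNat d (F (x % n).toNat)

/-- The cyclic successor. -/
def nx (n a : ℕ) : ℕ := if a + 1 = n then 0 else a + 1

theorem toNat_lt {n : ℕ} (hn : 0 < n) (x : ℤ) : (x % n).toNat < n := by
  have hn' : (0 : ℤ) < n := by exact_mod_cast hn
  have h0 := Int.emod_nonneg x hn'.ne'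
  have h1 := Int.emod_lt_of_pos x hn'
  omega

theorem toNat_add {n : ℕ} (hn : 0 < n) (x : ℤ) (k : ℕ) :
    ((x + k) % n).toNat = ((x % n).toNat + k) % n := by
  have hn' : (0 : ℤ) < n := by exact_mod_cast hn
  have h0 := Int.emod_nonneg x hn'.ne'
  have h2 := Int.emod_nonneg (x + k) hn'.ne'
  have : (((x + k) % n).toNat : ℤ) = ((((x % n).toNat + k) % n : ℕ) : ℤ) := by
    push_cast
    rw [Int.toNat_of_nonneg h0, Int.toNat_of_nonneg h2, Int.emod_add_emod]
  exact_mod_cast this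

theorem toNat_succ {n : ℕ} (hn : 0 < n) (x : ℤ) :
    ((x + 1) % n).toNat = nx n (x % n).toNat := by
  have h := toNat_add hn x 1
  have h1 := toNat_lt hn x
  rw [Nat.cast_one] at h
  rw [h, nx]
  split_ifs with h2
  · rw [h2, Nat.mod_self]
  · exact Nat.mod_eq_of_lt (by omega)

theorem ofNat_inj [NeZero d] {a b : ℕ} (ha : a < d) (hb : b < d) :
    Fin.ofNat d a = Fin.ofNat d b ↔ a = b := by
  constructor
  · intro h
    have := congrArg Fin.val h
    simp only [Fin.ofNat] at this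
    rwa [Nat.mod_eq_of_lt ha, Nat.mod_eq_of_lt hb] at this
  · rintro rfl
    rfl

theorem fix_of_pairfree [NeZero d] {n : ℕ} (hn : 0 < n) {F : ℕ → ℕ} (hF : ∀ a, F a < d)
    {u v : ℕ} (hu : u < d) (hv : v < d) {j : ℕ} (hj : 1 ≤ j)
    (h : ∀ a, a < n → ¬ (F a = u ∧ F (nx n a) = v)) :
    mk (Fin.ofNat d u) (Fin.ofNat d v) j (wd d n F) = wd d n F := by
  funext i
  have hno : ¬ Hit (Fin.ofNat d u) (Fin.ofNat d v) j (wd d n F) i := by
    rintro ⟨h1, h2⟩
    have h3 := h1 j hj le_rfl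
    simp only [wd] at h2 h3
    rw [toNat_succ hn, ofNat_inj (hF _) hv] at h2
    rw [ofNat_inj (hF _) hu] at h3
    exact h _ (toNat_lt hn _) ⟨h3, h2⟩
  simp only [mk, hno, if_false]

theorem mk_one [NeZero d] {n : ℕ} (hn : 0 < n) {F F' : ℕ → ℕ} (hF : ∀ a, F a < d)
    {u v : ℕ} (hu : u < d) (hv : v < d) (c : ℕ) (hc : F c = u) (hc' : F' c = v)
    (hoff : ∀ a, a ≠ c → F' a = F a)
    (h : ∀ a, a < n → ((F (nx n a) = u ∧ F (nx n (nx n a)) = v) ↔ a = c)) :
    mk (Fin.ofNat d u) (Fin.ofNat d v) 1 (wd d n F) = wd d n F' := by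
  funext i
  have hiff : Hit (Fin.ofNat d u) (Fin.ofNat d v) 1 (wd d n F) i ↔ (i % n).toNat = c := by
    rw [← h _ (toNat_lt hn i), ← toNat_succ hn, ← toNat_succ hn, ← ofNat_inj (hF _) hu,
      ← ofNat_inj (hF _) hv]
    constructor
    · rintro ⟨h1, h2⟩
      exact ⟨by simpa [wd] using h1 1 le_rfl le_rfl, by simpa [wd] using h2⟩
    · rintro ⟨h1, h2⟩
      refine ⟨fun k hk hk' => ?_, by simpa [wd] using h2⟩
      obtain rfl : k = 1 := by omega
      simpa [wd] using h1
  by_cases hi : (i % n).toNat = c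
  · simp only [mk, hiff, wd, hi, hc, hc', if_true, Equiv.swap_apply_left]
  · simp only [mk, hiff, wd, hi, if_false, hoff _ hi]

/-- Values of the word whose slots from `r` on are empty. -/
def Fr (m r a : ℕ) : ℕ := if a < 2 * m then (if a % 2 = 0 ∧ r ≤ a / 2 then 0 else a / 2 + 1) else 0

/-- Values of the canonical word with the guard letter. -/
def Fg (m a : ℕ) : ℕ := if a = 2 * m then 1 else Fr m m a

/-- Values of the canonical word with the first letter changed. -/
def Fa (m a : ℕ) : ℕ := if a = 0 then 2 else Fr m m a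

theorem Fr_lt (m r a : ℕ) : Fr m r a < m + 1 := by
  unfold Fr; split_ifs <;> omega

theorem Fr_spec (m r a : ℕ) :
    (a < 2 * m ∧ ¬ (a % 2 = 0 ∧ r ≤ a / 2) ∧ Fr m r a = a / 2 + 1) ∨
      ((2 * m ≤ a ∨ (a % 2 = 0 ∧ r ≤ a / 2)) ∧ Fr m r a = 0) := by
  unfold Fr; split_ifs <;> simp <;> omega

theorem Fg_spec (m a : ℕ) : (a = 2 * m ∧ Fg m a = 1) ∨ (a ≠ 2 * m ∧ Fg m a = Fr m m a) := by
  unfold Fg; split_ifs with h <;> simp [h]

theorem Fa_spec (m a : ℕ) : (a = 0 ∧ Fa m a = 2) ∨ (a ≠ 0 ∧ Fa m a = Fr m m a) := by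
  unfold Fa; split_ifs with h <;> simp [h]

theorem nx_spec (n a : ℕ) : (a + 1 = n ∧ nx n a = 0) ∨ (a + 1 ≠ n ∧ nx n a = a + 1) := by
  unfold nx; split_ifs with h <;> simp [h]

theorem can_eq (m n : ℕ) (hn : 0 < n) : can (m + 1) n 0 = wd (m + 1) n (Fr m m) := by
  funext x
  have hn' : (0 : ℤ) < n := by exact_mod_cast hn
  have h0 := Int.emod_nonneg x hn'.ne'
  simp only [can, wd, Fr, sub_zero, Nat.add_sub_cancel]
  by_cases h : x % n < (2 * m : ℕ)
  · rw [if_pos h, if_pos (by omega), if_neg (by omega)]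
    rfl
  · rw [if_neg h, if_neg (by omega)]
    rfl

theorem mk_guard (m n : ℕ) (hm : 2 ≤ m) (hn : 2 * m + 2 ≤ n) :
    mk (Fin.ofNat (m + 1) 0) (Fin.ofNat (m + 1) 1) (n - 2 * m - 1) (wd (m + 1) n (Fr m m)) =
      wd (m + 1) n (Fg m) := by
  have hn0 : 0 < n := by omega
  funext i
  have hlt := toNat_lt hn0 i
  have hiff : Hit (Fin.ofNat (m + 1) 0) (Fin.ofNat (m + 1) 1) (n - 2 * m - 1)
      (wd (m + 1) n (Fr m m)) i ↔ (i % n).toNat = 2 * m := by
    constructor
    · rintro ⟨h1, h2⟩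
      have h3 := h1 _ (by omega) le_rfl
      simp only [wd] at h2 h3
      rw [toNat_succ hn0, ofNat_inj (Fr_lt _ _ _) (by omega)] at h2
      rw [ofNat_inj (Fr_lt _ _ _) (by omega)] at h3
      have h4 := toNat_lt hn0 (i + (n - 2 * m - 1 : ℕ))
      have h5 : ((i + (n - 2 * m - 1 : ℕ)) % n).toNat = n - 1 := by
        unfold Fr nx at h2
        unfold Fr at h3
        split_ifs at h2 h3 <;> omega
      rw [toNat_add hn0] at h5
      by_cases h6 : (i % n).toNat + (n - 2 * m - 1) < n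
      · rw [Nat.mod_eq_of_lt h6] at h5
        omega
      · rw [Nat.mod_eq_sub_mod (by omega), Nat.mod_eq_of_lt (by omega)] at h5
        omega
    · intro h
      refine ⟨fun k h1 h2 => ?_, ?_⟩
      · simp only [wd]
        rw [toNat_add hn0, h, Nat.mod_eq_of_lt (by omega), Fr, if_neg (by omega)]
      · simp only [wd]
        rw [toNat_succ hn0, toNat_add hn0, h, Nat.mod_eq_of_lt (by omega), nx, if_pos (by omega),
          Fr, if_pos (by omega), if_neg (by omega)]
  by_cases hi : (i % n).toNat = 2 * m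
  · simp only [mk, hiff, wd, hi, if_true, Fg, Fr, lt_irrefl, if_false, Equiv.swap_apply_left]
  · simp only [mk, hiff, wd, hi, if_false, Fg]

theorem orbit_step {G X : Type} [Group G] [MulAction G X] (N : Subgroup G) (hN : N.Normal)
    (z : X) {g : G} {w : X} (hw : w ∈ MulAction.orbit N z) (hg : g • w ∈ MulAction.orbit N z)
    {w' : X} (hw' : w' ∈ MulAction.orbit N z) : g • w' ∈ MulAction.orbit N z := by
  obtain ⟨a, rfl⟩ := hw
  obtain ⟨b, hb⟩ := hg
  obtain ⟨c, rfl⟩ := hw'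
  simp only [Subgroup.smul_def] at hb ⊢
  refine ⟨⟨g * (c * a⁻¹ : N) * g⁻¹, hN.conj_mem _ (c * a⁻¹ : N).2 g⟩ * b, ?_⟩
  simp only [Subgroup.smul_def, Subgroup.coe_mul, mul_smul, hb, Subgroup.coe_inv, inv_smul_smul]

theorem orbit_iff {G X : Type} [Group G] [MulAction G X] (N : Subgroup G) (hN : N.Normal)
    (z : X) {g : G} {w : X} (hw : w ∈ MulAction.orbit N z) (hg : g • w = w) (w' : X) :
    w' ∈ MulAction.orbit N z ↔ g • w' ∈ MulAction.orbit N z := by
  refine ⟨orbit_step N hN z hw (by rwa [hg]), fun h => ?_⟩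
  have h1 : g⁻¹ • w = w := by rw [inv_smul_eq_iff, hg]
  have := orbit_step N hN z (g := g⁻¹) hw (by rwa [h1]) h
  rwa [inv_smul_smul] at this

theorem L_eq (m r : ℕ) : L (m + 1) r = Fin.ofNat (m + 1) (r + 1) := rfl

theorem L_last (m : ℕ) : L (m + 1) m = Fin.ofNat (m + 1) 0 := by
  apply Fin.ext
  simp [L, Fin.ofNat]

theorem fixes (m n : ℕ) (hm : 2 ≤ m) (hn : 2 * m + 2 ≤ n) (Q : Seq (m + 1) → Prop)
    (hz : Q (wd (m + 1) n (Fr m m)))
    (ht : Q (mk 0 (L (m + 1) 0) (n - 2 * m - 1) (wd (m + 1) n (Fr m m))))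
    (hstep : ∀ u v j, Used u v j → (∃ w, Q w ∧ mk u v j w = w) → ∀ w, Q w → Q (mk u v j w)) :
    ∀ u v j, Used u v j → ∃ w, Q w ∧ mk u v j w = w := by
  have hn0 : 0 < n := by omega
  have hg : Q (wd (m + 1) n (Fg m)) := by
    rw [← mk_guard m n hm hn]
    exact ht
  have hFg : ∀ a, Fg m a < m + 1 := fun a => by
    have := Fr_lt m m a
    unfold Fg; split_ifs <;> omega
  have hFa : ∀ a, Fa m a < m + 1 := fun a => by
    have := Fr_lt m m a
    unfold Fa; split_ifs <;> omega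
  have h1 : ∀ r, r < m → ∃ w, Q w ∧ mk (L (m + 1) r) (L (m + 1) m) 1 w = w := by
    intro r hr
    rw [L_eq, L_last]
    by_cases h : r + 1 = m
    · refine ⟨_, hg, fix_of_pairfree hn0 hFg (by omega) (by omega) le_rfl fun a ha => ?_⟩
      have := Fg_spec m a
      have := Fg_spec m (nx n a)
      have := Fr_spec m m a
      have := Fr_spec m m (nx n a)
      have := nx_spec n a
      omega
    · refine ⟨_, hz, fix_of_pairfree hn0 (Fr_lt m m) (by omega) (by omega) le_rfl fun a ha => ?_⟩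
      have := Fr_spec m m a
      have := Fr_spec m m (nx n a)
      have := nx_spec n a
      omega
  have h2 : ∀ k r, r + k = m → Q (wd (m + 1) n (Fr m r)) := by
    intro k
    induction k with
    | zero =>
      intro r hr
      obtain rfl : r = m := by omega
      exact hz
    | succ k ih =>
      intro r hr
      have h3 := hstep _ _ 1 (Or.inl ⟨r, m, by omega, by omega, rfl, rfl, rfl⟩) (h1 r (by omega))
        _ (ih (r + 1) (by omega))
      rw [L_eq, L_last, mk_one (F' := Fr m r) hn0 (Fr_lt m _) (by omega) (by omega) (2 * r)] at h3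
      · exact h3
      · unfold Fr; split_ifs <;> omega
      · unfold Fr; split_ifs <;> omega
      · intro a ha
        unfold Fr; split_ifs <;> omega
      · intro a ha
        have := Fr_spec m (r + 1) (nx n a)
        have := Fr_spec m (r + 1) (nx n (nx n a))
        have := nx_spec n a
        have := nx_spec n (nx n a)
        omega
  have h3 : ∀ r t, r < t → t ≤ m → ∃ w, Q w ∧ mk (L (m + 1) r) (L (m + 1) t) 1 w = w := by
    intro r t hrt htm
    by_cases h : t = m
    · rw [h]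
      exact h1 r (by omega)
    · rw [L_eq, L_eq]
      refine ⟨_, h2 m 0 (by omega),
        fix_of_pairfree hn0 (Fr_lt m 0) (by omega) (by omega) le_rfl fun a ha => ?_⟩
      have := Fr_spec m 0 a
      have := Fr_spec m 0 (nx n a)
      have := nx_spec n a
      omega
  have h4 : Q (wd (m + 1) n (Fa m)) := by
    have h5 := hstep _ _ 1 (Or.inl ⟨0, 1, by omega, by omega, rfl, rfl, rfl⟩)
      (h3 0 1 (by omega) (by omega)) _ hz
    rw [L_eq, L_eq, mk_one (F' := Fa m) hn0 (Fr_lt m _) (by omega) (by omega) 0] at h5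
    · exact h5
    · unfold Fr; split_ifs <;> omega
    · simp [Fa]
    · intro a ha
      simp [Fa, ha]
    · intro a ha
      have := Fr_spec m m (nx n a)
      have := Fr_spec m m (nx n (nx n a))
      have := nx_spec n a
      have := nx_spec n (nx n a)
      omega
  rintro u v j (⟨r, t, hrt, htm, rfl, rfl, rfl⟩ | ⟨rfl, hv, hj⟩)
  · exact h3 r t hrt (by omega)
  · obtain ⟨k, hk, rfl⟩ := L_surj v hv
    rw [L_eq, show (0 : Fin (m + 1)) = Fin.ofNat (m + 1) 0 from rfl]
    by_cases h : k = 0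
    · refine ⟨_, h4, fix_of_pairfree hn0 hFa (by omega) (by omega) hj fun a ha => ?_⟩
      have := Fa_spec m a
      have := Fa_spec m (nx n a)
      have := Fr_spec m m a
      have := Fr_spec m m (nx n a)
      have := nx_spec n a
      omega
    · refine ⟨_, hz, fix_of_pairfree hn0 (Fr_lt m m) (by omega) (by omega) hj fun a ha => ?_⟩
      have := Fr_spec m m a
      have := Fr_spec m m (nx n a)
      have := nx_spec n a
      omega

end ZGiant

theorem ncard_per_le (n : ℕ) : {s : Seq d | Per n s}.ncard ≤ d ^ n := ZGiant.ncard_per_le n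

theorem mk_eq_of_short (hd : 3 ≤ d) {n : ℕ} {s : Seq d} (h : Per n s) (u v : Fin d) {j : ℕ}
    (hj : n ≤ j + 1) : mk u v j s = s := ZGiant.mk_eq_of_short hd h u v hj

theorem ncard_supp_le {n : ℕ} (u v : Fin d) {j : ℕ} (hj : j + 1 ≤ n) :
    {s : Seq d | Per n s ∧ mk u v j s ≠ s}.ncard ≤ n * d ^ (n - j - 1) :=
  ZGiant.ncard_supp_le u v hj

theorem many_struct [NeZero d] (hd : 3 ≤ d) : ∃ n₀ : ℕ, ∀ n : ℕ, n₀ ≤ n →
    d ^ n < 2 * {s : Seq d | Per n s ∧ ∃ i, Struct s i 4}.ncard := ZGiant.many_struct hd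

theorem giant [NeZero d] (hd : 3 ≤ d) : ∃ n₀ : ℕ, ∀ n : ℕ, n.Prime → n₀ ≤ n →
    ∀ (I : Finset ℕ), n ∈ I → ∀ (G : Type) [Group G] [MulAction G (W d I)] (N : Subgroup G),
      N.Normal →
      (∀ u v j, Used u v j → ∃ g : G, ∀ w : W d I, (g • w).1 = mk u v j w.1) →
      (∃ t ∈ N, ∀ w : W d I, (t • w).1 = mk 0 (L d 0) (n - 2 * (d - 1) - 1) w.1) →
      ∃ z : W d I, Per n z.1 ∧ d ^ n < 2 * (MulAction.orbit N z).ncard := by
  obtain ⟨n₁, hn₁⟩ := many_struct hd
  refine ⟨max n₁ (12 * d), fun n hp hn I hI G _ _ N hN hU ht => ?_⟩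
  have hn1 : n₁ ≤ n := le_trans (le_max_left _ _) hn
  have hn2 : 12 * d ≤ n := le_trans (le_max_right _ _) hn
  have hzp : Per n (can d n 0) := can_per hd (by omega) 0
  let z : W d I := ⟨can d n 0, n, hI, hzp⟩
  refine ⟨z, hzp, lt_of_lt_of_le (hn₁ n hn1) (Nat.mul_le_mul_left 2 ?_)⟩
  let Q : Seq d → Prop := fun s => ∃ w ∈ MulAction.orbit N z, w.1 = s
  have hQ : ∀ w : W d I, Q w.1 ↔ w ∈ MulAction.orbit N z := fun w =>
    ⟨fun ⟨w', h1, h2⟩ => by rwa [← (Subtype.ext h2 : w' = w)], fun h => ⟨w, h, rfl⟩⟩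
  have hkey : ∀ u v j, Used u v j → (∃ w, Q w ∧ mk u v j w = w) →
      ∀ w : W d I, Q w.1 ↔ Q (mk u v j w.1) := by
    rintro u v j hu ⟨-, ⟨w₀, hw₀, rfl⟩, hfix⟩ w
    obtain ⟨g, hg⟩ := hU u v j hu
    rw [← hg, hQ, hQ]
    exact ZGiant.orbit_iff N hN z hw₀ (Subtype.ext ((hg w₀).trans hfix)) w
  have hz : Q (can d n 0) := ⟨z, MulAction.mem_orbit_self z, rfl⟩
  have hall : ∀ u v j, Used u v j → ∃ w, Q w ∧ mk u v j w = w := by
    obtain ⟨m, rfl⟩ : ∃ m, d = m + 1 := ⟨d - 1, by omega⟩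
    refine ZGiant.fixes m n (by omega) (by omega) Q ?_ ?_ ?_
    · rw [← ZGiant.can_eq m n (by omega)]
      exact hz
    · obtain ⟨t, htN, ht⟩ := ht
      rw [← ZGiant.can_eq m n (by omega)]
      exact ⟨t • z, ⟨⟨t, htN⟩, rfl⟩, ht z⟩
    · rintro u v j hu hw - ⟨w, hw', rfl⟩
      exact (hkey u v j hu hw w).1 ⟨w, hw', rfl⟩
  have hrel : ∀ s t, Rel n s t → (Q s ↔ Q t) := by
    intro s t h
    induction h with
    | rel s t h =>
      obtain ⟨hs, u, v, j, hu, rfl⟩ := h
      exact hkey u v j hu (hall u v j hu) ⟨s, n, hI, hs⟩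
    | refl s => rfl
    | symm s t _ ih => exact ih.symm
    | trans s t r _ _ ih1 ih2 => exact ih1.trans ih2
  have hsub : {s : Seq d | Per n s ∧ ∃ i, Struct s i 4} ⊆
      (fun w : W d I => w.1) '' MulAction.orbit N z := by
    rintro s ⟨hs, i, hi⟩
    obtain ⟨i', h1⟩ := sweep hd hp hs hi
    exact (hrel _ _ h1).2 ((hrel _ _ (rot hd hp hn2 i' 0)).2 hz)
  exact (Set.ncard_le_ncard hsub ((Set.toFinite _).image _)).trans
    (Set.ncard_image_le (Set.toFinite _))

end Pool.Agent.MP_9b2bac_nt.Z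

end

section

set_option autoImplicit false

namespace Pool.Agent.MP_9b2bac_nt.Z

namespace ZRank
open Finset Classical

variable {X K : Type} [Fintype X] [Group K] [Fintype K] [MulAction K X]

/-- Group elements sending `a` to `b` and `a'` to `b'`. -/
noncomputable def fib (K : Type) [Group K] [Fintype K] [MulAction K X] (a b a' b' : X) :
    Finset K := univ.filter fun k => k • a = b ∧ k • a' = b'

omit [Fintype X] in
lemma fib_eq {a b a' b' : X} {k₀ : K} (h : k₀ • a = b) (h' : k₀ • a' = b') :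
    (fib K a b a' b').card = (fib K a a a' a').card := by
  symm
  refine card_bij (fun k _ => k₀ * k) ?_ ?_ ?_
  · intro k hk
    simp only [fib, mem_filter, mem_univ, true_and] at hk ⊢
    rw [mul_smul, mul_smul, hk.1, hk.2]
    exact ⟨h, h'⟩
  · intro k _ k' _ hk
    exact mul_left_cancel hk
  · intro k hk
    simp only [fib, mem_filter, mem_univ, true_and] at hk ⊢
    refine ⟨k₀⁻¹ * k, ⟨?_, ?_⟩, by simp⟩
    · rw [mul_smul, hk.1, ← h, inv_smul_smul]
    · rw [mul_smul, hk.2, ← h', inv_smul_smul]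

omit [Fintype X] in
lemma fib_le (a b a' b' : X) : (fib K a b a' b').card ≤ (fib K a a a' a').card := by
  rcases (fib K a b a' b').eq_empty_or_nonempty with h | ⟨k, hk⟩
  · simp [h]
  · simp only [fib, mem_filter, mem_univ, true_and] at hk
    exact (fib_eq hk.1 hk.2).le

lemma sum_fib (p x : X) : ∑ y, (fib K p p x y).card = (fib K p p p p).card := by
  rw [card_eq_sum_card_fiberwise (s := fib K p p p p) (t := univ) (f := fun k => k • x)
    (fun _ _ => mem_coe.2 (mem_univ _))]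
  refine sum_congr rfl fun y _ => ?_
  congr 1
  ext k
  simp [fib]

lemma stab_mul (htr : ∀ x y : X, ∃ k : K, k • x = y) (p : X) :
    Fintype.card X * (fib K p p p p).card = Fintype.card K := by
  rw [← card_univ (α := K), card_eq_sum_card_fiberwise (s := univ) (t := univ)
    (f := fun k : K => k • p) (fun _ _ => mem_coe.2 (mem_univ _)), ← card_univ, ← smul_eq_mul,
    ← sum_const]
  refine sum_congr rfl fun y _ => ?_
  obtain ⟨k, hk⟩ := htr p y
  rw [← fib_eq hk hk]
  congr 1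
  ext k
  simp [fib]

/-- Balls in the graph given by `T`. -/
def ball (T : Set K) (p : X) : ℕ → Set X
  | 0 => {p}
  | j + 1 => {y | ∃ t ∈ T, ∃ x ∈ ball T p j, t • x = y}

omit [Fintype X] [Fintype K] in
lemma ball_inv {T : Set K} (hT : ∀ t ∈ T, ∀ k : K, k * t * k⁻¹ ∈ T) {p : X} {k : K}
    (hk : k • p = p) : ∀ j, ∀ x ∈ ball T p j, k • x ∈ ball T p j := by
  intro j
  induction j with
  | zero => rintro x rfl; exact hk
  | succ j ih =>
    rintro _ ⟨t, ht, x, hx, rfl⟩
    exact ⟨_, hT t ht k, _, ih x hx, by simp [mul_smul]⟩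

lemma pair_bound (T : Set K) (M : ℕ) (h1 : (1 : K) ∈ T)
    (hT : ∀ t ∈ T, ∀ k : K, k * t * k⁻¹ ∈ T) (htr : ∀ x y : X, ∃ k : K, k • x = y)
    (hball : ∀ p y : X, ∃ j, y ∈ ball T p j)
    (hM : ∀ t ∈ T, (univ.filter fun x : X => t • x ≠ x).card ≤ M) (x₀ : X) :
    ∑ p : X, ∑ x : X, (fib K p p x x).card ≤ Fintype.card K * (1 + 2 * M) := by
  let nb : X → Finset X := fun x => univ.filter fun y => ∃ t ∈ T, t • x = y
  let bad : X → X → Finset X := fun p x => (nb x).filter fun y => ¬ ∃ k : K, k • p = p ∧ k • x = y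
  set N := Fintype.card X with hN
  set d := (nb x₀).card with hd
  have hle : ∀ x y, (nb x).card ≤ (nb y).card := by
    intro x y
    obtain ⟨k, rfl⟩ := htr x y
    refine card_le_card_of_injOn (fun z => k • z) ?_ (MulAction.injective k).injOn
    intro z hz
    simp only [nb, coe_filter, mem_univ, true_and, Set.mem_ofPred_eq] at hz ⊢
    obtain ⟨t, ht, rfl⟩ := hz
    exact ⟨_, hT t ht k, by simp [mul_smul]⟩
  have hdx : ∀ x, (nb x).card = d := fun x => le_antisymm (hle _ _) (hle _ _)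
  have hd0 : 0 < d := card_pos.2 ⟨x₀, by
    simp only [nb, mem_filter, mem_univ, true_and]
    exact ⟨1, h1, one_smul _ _⟩⟩
  have hN0 : 0 < N := Fintype.card_pos_iff.2 ⟨x₀⟩
  have hup : ∑ p, ∑ x, (bad p x).card ≤ N * (d * M) := by
    rw [sum_comm, hN, ← card_univ, ← smul_eq_mul]
    refine sum_le_card_nsmul _ _ _ fun x _ => ?_
    simp only [bad, card_filter]
    rw [sum_comm, ← hdx x, ← smul_eq_mul]
    refine sum_le_card_nsmul _ _ _ fun y hy => ?_
    rw [← card_filter]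
    simp only [nb, mem_filter, mem_univ, true_and] at hy
    obtain ⟨t, ht, rfl⟩ := hy
    refine le_trans (card_le_card fun p hp => ?_) (hM t ht)
    simp only [mem_filter, mem_univ, true_and] at hp ⊢
    exact fun h => hp ⟨t, h, rfl⟩
  have hlow : ∀ p, N - 1 ≤ ∑ x, (bad p x).card := by
    intro p
    refine le_trans ?_ (card_biUnion_le (s := univ) (t := bad p))
    rw [hN, ← card_univ, ← card_erase_of_mem (mem_univ p)]
    refine card_le_card fun y hy => ?_
    have hy' := (mem_erase.1 hy).1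
    have h2 := Nat.find_spec (hball p y)
    rcases h3 : Nat.find (hball p y) with _ | j
    · rw [h3] at h2; exact (hy' h2).elim
    · have h4 := Nat.find_min (hball p y) (m := j) (by omega)
      rw [h3] at h2
      obtain ⟨t, ht, x, hx, rfl⟩ := h2
      simp only [mem_biUnion, bad, nb, mem_filter, mem_univ, true_and]
      refine ⟨x, ⟨t, ht, rfl⟩, fun ⟨k, hk, hk'⟩ => h4 ?_⟩
      rw [← hk']
      exact ball_inv hT hk j x hx
  have hNd : N ≤ d * (1 + M) := by
    have h2 : N * (N - 1) ≤ N * (d * M) := by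
      refine le_trans ?_ hup
      conv_lhs => rw [hN, ← card_univ, ← smul_eq_mul, card_univ, ← hN]
      have := card_nsmul_le_sum univ (fun p => ∑ x, (bad p x).card) (N - 1) fun p _ => hlow p
      rwa [card_univ] at this
    have h3 := Nat.le_of_mul_le_mul_left h2 hN0
    rw [mul_add]
    omega
  have hpt : ∀ p x, d * (fib K p p x x).card ≤ (fib K p p p p).card * (1 + (bad p x).card) := by
    intro p x
    have h2 := card_filter_add_card_filter_not (s := nb x)
      (fun y => ∃ k : K, k • p = p ∧ k • x = y)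
    have h3 : ((nb x).filter fun y => ∃ k : K, k • p = p ∧ k • x = y).card *
        (fib K p p x x).card ≤ (fib K p p p p).card := by
      rw [← sum_fib p x, ← smul_eq_mul]
      refine le_trans (card_nsmul_le_sum _ (fun y => (fib K p p x y).card) _ fun y hy => ?_)
        (sum_le_sum_of_subset (subset_univ _))
      obtain ⟨k, hk, hk'⟩ := (mem_filter.1 hy).2
      exact (fib_eq hk hk').ge
    have h4 : (fib K p p x x).card ≤ (fib K p p p p).card := card_le_card fun k hk => by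
      simp only [fib, mem_filter, mem_univ, true_and] at hk ⊢
      exact ⟨hk.1, hk.1⟩
    rw [← hdx x, ← h2, add_mul, mul_add, mul_one, mul_comm _ (bad p x).card]
    exact Nat.add_le_add h3 (Nat.mul_le_mul_left _ h4)
  refine Nat.le_of_mul_le_mul_left (c := N * d) ?_ (Nat.mul_pos hN0 hd0)
  calc N * d * ∑ p : X, ∑ x : X, (fib K p p x x).card
      = ∑ p : X, ∑ x : X, N * (d * (fib K p p x x).card) := by
        simp only [mul_sum, mul_assoc]
    _ ≤ ∑ p : X, ∑ x : X, Fintype.card K * (1 + (bad p x).card) := by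
        refine sum_le_sum fun p _ => sum_le_sum fun x _ => ?_
        rw [← stab_mul htr p, mul_assoc]
        exact Nat.mul_le_mul_left _ (hpt p x)
    _ = Fintype.card K * (N * N + ∑ p, ∑ x, (bad p x).card) := by
        simp only [← mul_sum, sum_add_distrib, sum_const, card_univ, smul_eq_mul, mul_one, hN]
    _ ≤ Fintype.card K * (N * (d * (1 + M)) + N * (d * M)) := by gcongr
    _ = _ := by ring

lemma main_bound (htr : ∀ x y : X, ∃ k : K, k • x = y) (B : ℕ) [Nonempty X]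
    (hB : ∑ p : X, ∑ x : X, (fib K p p x x).card ≤ Fintype.card K * B) (F : X → X) :
    Fintype.card K ≤ B * (univ.filter fun k : K => ∃ x, k • x = F x).card := by
  let Y : K → ℕ := fun k => ∑ x, if k • x = F x then 1 else 0
  set s := univ.filter fun k : K => ∃ x, k • x = F x with hs
  have h1 : ∑ k ∈ s, Y k = Fintype.card K := by
    rw [sum_subset (subset_univ s) fun k _ hk => by
      simp only [hs, mem_filter, mem_univ, true_and, not_exists] at hk
      simp [Y, hk]]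
    have hN : 0 < Fintype.card X := Fintype.card_pos
    refine Nat.eq_of_mul_eq_mul_left hN ?_
    simp only [Y]
    rw [sum_comm, mul_sum, ← card_univ (α := X), ← smul_eq_mul _ (Fintype.card K), ← sum_const]
    refine sum_congr rfl fun x _ => ?_
    obtain ⟨k, hk⟩ := htr x (F x)
    rw [← stab_mul htr x, ← fib_eq hk hk, card_univ, ← card_filter]
    congr 2
    ext k
    simp [fib]
  have h2 : ∑ k ∈ s, Y k ^ 2 ≤ Fintype.card K * B := by
    refine (sum_le_sum_of_subset (subset_univ s)).trans (le_trans ?_ hB)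
    simp only [Y, sq, sum_mul_sum]
    rw [sum_comm]
    refine sum_le_sum fun p _ => ?_
    rw [sum_comm]
    refine sum_le_sum fun x _ => le_trans (le_of_eq ?_) (fib_le p (F p) x (F x))
    rw [fib, card_filter]
    refine sum_congr rfl fun k _ => ?_
    by_cases a : k • p = F p <;> by_cases b : k • x = F x <;> simp [a, b]
  have h3 := sq_sum_le_card_mul_sum_sq (s := s) (f := Y)
  rw [h1] at h3
  refine Nat.le_of_mul_le_mul_left (c := Fintype.card K) ?_ Fintype.card_pos
  calc _ = Fintype.card K ^ 2 := by ring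
    _ ≤ s.card * (Fintype.card K * B) := h3.trans (Nat.mul_le_mul_left _ h2)
    _ = _ := by ring

end ZRank

theorem rank (κ : ℕ) : ∃ C : ℕ, 0 < C ∧ ∀ (n : ℕ) (X : Type) [Finite X] [Nonempty X] (K : Type)
    [Group K] [Finite K] [MulAction K X] (σ : Equiv.Perm X) (T : Set K),
    n.Prime → σ ^ n = 1 → (∀ x, σ x ≠ x) → (∀ (k : K) (x : X), k • σ x = σ (k • x)) →
    (∀ t ∈ T, ∀ k : K, k * t * k⁻¹ ∈ T) →
    (∀ x y : X, ∃ k ∈ Subgroup.closure T, k • x = y) →
    (∀ t ∈ T, {x : X | t • x ≠ x}.ncard ≤ n * κ) →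
    ∀ F : X → X, Nat.card K ≤ C * n * {k : K | ∃ x, k • x = F x}.ncard := by
  classical
  refine ⟨2 * κ + 1, by omega, fun n X _ _ K _ _ _ σ T hn _ _ _ hT htr hM F => ?_⟩
  let _ := Fintype.ofFinite X
  let _ := Fintype.ofFinite K
  have htr' : ∀ x y : X, ∃ k : K, k • x = y := fun x y => (htr x y).imp fun _ h => h.2
  have hM' : ∀ t ∈ T, (Finset.univ.filter fun x : X => t • x ≠ x).card ≤ n * κ := by
    intro t ht
    have := hM t ht
    rwa [← Set.ncard_coe_finset, Finset.coe_filter_univ]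
  have h1 := ZRank.pair_bound (X := X) {t : K | t ∈ T ∨ t⁻¹ ∈ T ∨ t = 1} (n * κ)
    (Or.inr (Or.inr rfl)) ?_ htr' ?_ ?_ (Classical.arbitrary X)
  · have h2 := ZRank.main_bound htr' _ h1 F
    rw [Nat.card_eq_fintype_card, ← Finset.coe_filter_univ, Set.ncard_coe_finset]
    refine le_trans (by convert h2) (Nat.mul_le_mul_right _ ?_)
    have := hn.pos
    nlinarith
  · rintro t (ht | ht | rfl) k
    · exact Or.inl (hT t ht k)
    · exact Or.inr (Or.inl (by simpa [mul_assoc] using hT _ ht k))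
    · exact Or.inr (Or.inr (by simp))
  · intro p y
    obtain ⟨k, hk, rfl⟩ := htr p y
    induction hk using Subgroup.closure_induction_left with
    | one => exact ⟨0, one_smul _ _⟩
    | mul_left t ht k _ ih =>
      obtain ⟨j, hj⟩ := ih
      exact ⟨j + 1, t, Or.inl ht, _, hj, (mul_smul _ _ _).symm⟩
    | inv_mul_cancel t ht k _ ih =>
      obtain ⟨j, hj⟩ := ih
      exact ⟨j + 1, t⁻¹, Or.inr (Or.inl (by simpa using ht)), _, hj, (mul_smul _ _ _).symm⟩
  · rintro t (ht | ht | rfl)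
    · convert hM' t ht
    · refine le_trans (Finset.card_le_card fun x hx => ?_) (hM' _ ht)
      simp only [Finset.mem_filter, Finset.mem_univ, true_and] at hx ⊢
      exact fun h => hx (inv_smul_eq_iff.1 h).symm
    · simp

end Pool.Agent.MP_9b2bac_nt.Z

end

section

set_option autoImplicit false

namespace Pool.Agent.MP_9b2bac_nt.Z

open Classical

namespace ZGrp

variable {d : ℕ} {I : Finset ℕ}

theorem pow_val (k : ℕ) (w : W d I) (i : ℤ) : ((shW d I ^ k) w).1 i = w.1 (i + k) := by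
  induction k generalizing i with
  | zero => simp
  | succ k ih =>
    rw [pow_succ', Equiv.Perm.mul_apply, shW_val]
    show ((shW d I ^ k) w).1 (i + 1) = _
    rw [ih, show i + 1 + (k : ℤ) = i + ((k + 1 : ℕ) : ℤ) by push_cast; ring]

theorem per_iff {n : ℕ} (hn : 0 < n) (w : W d I) : Per n w.1 ↔ (shW d I ^ n) w = w := by
  constructor
  · intro h
    exact Subtype.ext (funext fun i => by rw [pow_val, h.2.1])
  · intro h
    obtain ⟨m, -, hm⟩ := w.2
    exact ⟨hn, fun i => by rw [← pow_val, h], hm.2.2⟩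

theorem per_map {n : ℕ} (P : W d I → W d I) (hP : ∀ w, P (shW d I w) = shW d I (P w))
    {w : W d I} (h : Per n w.1) : Per n (P w).1 := by
  have hk : ∀ (k : ℕ) (w : W d I), (shW d I ^ k) (P w) = P ((shW d I ^ k) w) := by
    intro k
    induction k with
    | zero => intro w; simp
    | succ k ih => intro w; rw [pow_succ, Equiv.Perm.mul_apply, ← hP, ih, Equiv.Perm.mul_apply]
  rw [per_iff h.1, hk, (per_iff h.1 w).1 h]

theorem sh_ne (hd : 3 ≤ d) (w : W d I) : shW d I w ≠ w := by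
  intro h
  obtain ⟨m, -, hm⟩ := w.2
  have h1 : Per 1 w.1 := (per_iff one_pos w).2 (by simpa using h)
  have hc : ∀ i, w.1 i = w.1 0 := fun i => by simpa using h1.zper 0 i
  obtain ⟨i, hi⟩ := hm.2.2 ⟨0, by omega⟩
  obtain ⟨j, hj⟩ := hm.2.2 ⟨1, by omega⟩
  have := hi.symm.trans ((hc i).trans ((hc j).symm.trans hj))
  simp at this

theorem meet {n : ℕ} {A B : Set (W d I)} (hA : ∀ w ∈ A, Per n w.1) (hB : ∀ w ∈ B, Per n w.1)
    (h1 : d ^ n < 2 * A.ncard) (h2 : d ^ n < 2 * B.ncard) : (A ∩ B).Nonempty := by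
  by_contra hne
  rw [Set.not_nonempty_iff_eq_empty] at hne
  have h3 := Set.ncard_union_add_ncard_inter A B
  rw [hne, Set.ncard_empty] at h3
  have h4 : (A ∪ B).ncard ≤ d ^ n := by
    refine le_trans ?_ (ncard_per_le (d := d) n)
    refine Set.ncard_le_ncard_of_injOn (fun w => w.1) ?_ (fun a _ b _ h => Subtype.ext h)
      (finite_per n)
    rintro w (h | h)
    exacts [hA w h, hB w h]
  omega

theorem count {G : Type} [Group G] [Finite G] (K : Subgroup G) (A Good : Set G) (c : ℕ)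
    (hA : ∀ g ∈ A, ∀ k ∈ K, g * k ∈ A)
    (hG : ∀ h : G, Nat.card K ≤ c * {k : K | h * k ∈ Good}.ncard) :
    A.ncard ≤ c * (A ∩ Good).ncard := by
  have := Fintype.ofFinite G
  have hK : 0 < Nat.card K := Nat.card_pos
  refine Nat.le_of_mul_le_mul_right ?_ hK
  have e1 : A.ncard = (Finset.univ.filter fun g => g ∈ A).card := by
    rw [← Set.ncard_coe_finset]; congr 1; ext; simp
  have e2 : (A ∩ Good).ncard = (Finset.univ.filter fun g => g ∈ A ∩ Good).card := by
    rw [← Set.ncard_coe_finset]; congr 1; ext; simp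
  have e3 : ∀ h : G, {k : K | h * k ∈ Good}.ncard =
      ∑ k : K, if h * k ∈ Good then 1 else 0 := fun h => by
    rw [← Finset.card_filter, ← Set.ncard_coe_finset]; congr 1; ext; simp
  have e4 : ∀ k : K, ∑ h ∈ Finset.univ.filter (fun g => g ∈ A),
      (if h * k ∈ Good then 1 else 0) ≤ (A ∩ Good).ncard := fun k => by
    rw [← Finset.card_filter, e2]
    refine Finset.card_le_card_of_injOn (fun h => h * k) ?_ fun a _ b _ h => mul_right_cancel h
    intro h hh
    simp only [Finset.coe_filter, Finset.mem_filter, Finset.mem_univ, true_and,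
      Set.mem_ofPred_eq] at hh ⊢
    exact ⟨hA h hh.1 k k.2, hh.2⟩
  calc A.ncard * Nat.card K = ∑ _h ∈ Finset.univ.filter (fun g => g ∈ A), Nat.card K := by
        rw [Finset.sum_const, smul_eq_mul, e1]
    _ ≤ ∑ h ∈ Finset.univ.filter (fun g => g ∈ A),
        c * ∑ k : K, if h * k ∈ Good then 1 else 0 :=
        Finset.sum_le_sum fun h _ => by rw [← e3]; exact hG h
    _ = c * ∑ k : K, ∑ h ∈ Finset.univ.filter (fun g => g ∈ A),
        if h * k ∈ Good then 1 else 0 := by rw [← Finset.mul_sum, Finset.sum_comm]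
    _ ≤ c * ∑ _k : K, (A ∩ Good).ncard := Nat.mul_le_mul_left _ (Finset.sum_le_sum fun k _ => e4 k)
    _ = c * (A ∩ Good).ncard * Nat.card K := by
        rw [Finset.sum_const, smul_eq_mul, Finset.card_univ, Nat.card_eq_fintype_card]; ring

theorem choose_I (M n₀ C : ℕ) (hM : 0 < M) (hC : 0 < C) {η : ℝ} (hη : 0 < η) :
    ∃ I : Finset ℕ, (∀ n ∈ I, n.Prime ∧ n₀ ≤ n) ∧ (∀ n ∈ I, ∀ n' ∈ I, n' < n → n' + M ≤ n) ∧
      ∏ n ∈ I, (1 - 1 / ((C * n : ℕ) : ℝ)) ≤ η := by
  let f : ℕ → ℕ → ℝ := fun r n => if n.Prime ∧ n₀ ≤ n ∧ n % M = r then 1 / (n : ℝ) else 0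
  have hf0 : ∀ r n, 0 ≤ f r n := fun r n => by
    simp only [f]; split_ifs <;> positivity
  have hns : ∃ r, ¬Summable (f r) := by
    by_contra hall
    push Not at hall
    have h1 : Summable fun n => ∑ r ∈ Finset.range M, f r n := summable_sum fun r _ => hall r
    refine not_summable_one_div_on_primes ?_
    rw [← summable_nat_add_iff n₀] at h1 ⊢
    refine h1.of_nonneg_of_le (fun n => Set.indicator_nonneg (fun _ _ => by positivity) _) ?_
    intro n
    refine le_trans ?_ (Finset.single_le_sum (f := fun r => f r (n + n₀)) (fun r _ => hf0 r _)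
      (Finset.mem_range.2 (Nat.mod_lt (n + n₀) hM)))
    by_cases hp : (n + n₀).Prime
    · rw [Set.indicator_of_mem (show n + n₀ ∈ {p : ℕ | p.Prime} from hp)]
      simp only [f]
      rw [if_pos ⟨hp, by omega, trivial⟩]
    · rw [Set.indicator_of_notMem (show n + n₀ ∉ {p : ℕ | p.Prime} from hp)]
      exact hf0 _ _
  obtain ⟨r, hr⟩ := hns
  rw [not_summable_iff_tendsto_nat_atTop_of_nonneg (hf0 r)] at hr
  obtain ⟨N, hN⟩ := (hr.eventually_ge_atTop (C * -Real.log η)).exists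
  refine ⟨(Finset.range N).filter fun n => n.Prime ∧ n₀ ≤ n ∧ n % M = r, ?_, ?_, ?_⟩
  · intro n hn
    have := (Finset.mem_filter.1 hn).2
    exact ⟨this.1, this.2.1⟩
  · intro n hn n' hn' hlt
    have h1 := (Finset.mem_filter.1 hn).2.2.2
    have h2 := (Finset.mem_filter.1 hn').2.2.2
    have h3 : M ∣ n - n' := (Nat.modEq_iff_dvd' hlt.le).1 (h2.trans h1.symm)
    have := Nat.le_of_dvd (by omega) h3
    omega
  · have hC' : (0 : ℝ) < C := by exact_mod_cast hC
    calc _ ≤ ∏ n ∈ (Finset.range N).filter fun n => n.Prime ∧ n₀ ≤ n ∧ n % M = r,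
          Real.exp (-(1 / ((C * n : ℕ) : ℝ))) := by
          refine Finset.prod_le_prod (fun n hn => ?_) fun n _ => ?_
          · have h1 := (Finset.mem_filter.1 hn).2.1.pos
            have h2 : (1 : ℝ) ≤ ((C * n : ℕ) : ℝ) := by exact_mod_cast Nat.mul_pos hC h1
            rw [sub_nonneg]
            exact (div_le_one (by linarith)).2 h2
          · linarith [Real.add_one_le_exp (-(1 / ((C * n : ℕ) : ℝ)))]
      _ = Real.exp (-((∑ n ∈ Finset.range N, f r n) / C)) := by
          rw [← Real.exp_sum, Finset.sum_neg_distrib, Finset.sum_filter, Finset.sum_div]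
          congr 2
          refine Finset.sum_congr rfl fun n _ => ?_
          simp only [f]
          split_ifs
          · push_cast; rw [div_div, mul_comm]
          · simp
      _ ≤ Real.exp (Real.log η) := by
          refine Real.exp_le_exp.2 ?_
          rw [neg_le, le_div_iff₀ hC']
          linarith
      _ = η := Real.exp_log hη

/-- The elements that fix all words of the levels below `n`. -/
def low (d : ℕ) (I : Finset ℕ) (G : Type) [Group G] [MulAction G (W d I)] (n : ℕ) :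
    Subgroup G where
  carrier := {g | ∀ n' ∈ I, n' < n → ∀ w : W d I, Per n' w.1 → g • w = w}
  mul_mem' := fun {a b} ha hb n' h1 h2 w hw => by
    rw [mul_smul, hb n' h1 h2 w hw, ha n' h1 h2 w hw]
  one_mem' := fun _ _ _ w _ => one_smul G w
  inv_mem' := fun {a} ha n' h1 h2 w hw => by rw [inv_smul_eq_iff, ha n' h1 h2 w hw]

theorem used_ne [NeZero d] {u v : Fin d} {j : ℕ} (h : Used u v j) : u ≠ v ∧ 1 ≤ j := by
  rcases h with ⟨r, t, h1, h2, rfl, rfl, rfl⟩ | ⟨rfl, h1, h2⟩
  · refine ⟨fun h => ?_, le_rfl⟩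
    have h3 : (r + 1) % d = (t + 1) % d := congrArg Fin.val h
    have h4 := NeZero.pos d
    have h5 : d ∣ t + 1 - (r + 1) := (Nat.modEq_iff_dvd' (by omega)).1 h3
    have := Nat.le_of_dvd (by omega) h5
    omega
  · exact ⟨h1.symm, h2⟩

theorem step [NeZero d] (hd : 3 ≤ d) {C n : ℕ} (hn : n.Prime) (hn2 : 2 * d ≤ n)
    (hgap : ∀ n' ∈ I, n' < n → n' + 2 * (d - 1) ≤ n)
    (G : Type) [Group G] [Finite G] [MulAction G (W d I)]
    (hsh : ∀ (g : G) (w : W d I), g • shW d I w = shW d I (g • w))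
    (hmk : ∀ (u v : Fin d) (j : ℕ), u ≠ v → 1 ≤ j →
        ∃ g : G, ∀ w : W d I, (g • w).1 = mk u v j w.1)
    (F : Equiv.Perm (W d I)) (hF : ∀ w, F (shW d I w) = shW d I (F w))
    (hFG : ∀ g : G, ∃ g' : G, ∀ w, F (g • w) = g' • F w)
    (hgiant : ∀ N : Subgroup G, N.Normal →
      (∃ t ∈ N, ∀ w : W d I, (t • w).1 = mk 0 (L d 0) (n - 2 * (d - 1) - 1) w.1) →
      ∃ z : W d I, Per n z.1 ∧ d ^ n < 2 * (MulAction.orbit N z).ncard)
    (hrank : ∀ (X : Type) [Finite X] [Nonempty X] (K : Type)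
      [Group K] [Finite K] [MulAction K X] (σ : Equiv.Perm X) (T : Set K),
      n.Prime → σ ^ n = 1 → (∀ x, σ x ≠ x) → (∀ (k : K) (x : X), k • σ x = σ (k • x)) →
      (∀ t ∈ T, ∀ k : K, k * t * k⁻¹ ∈ T) →
      (∀ x y : X, ∃ k ∈ Subgroup.closure T, k • x = y) →
      (∀ t ∈ T, {x : X | t • x ≠ x}.ncard ≤ n * d ^ (2 * (d - 1))) →
      ∀ F : X → X, Nat.card K ≤ C * n * {k : K | ∃ x, k • x = F x}.ncard) (h : G) :
    Nat.card (low d I G n) ≤ C * n * {k : low d I G n |
      h * k ∈ {g : G | ∃ w : W d I, Per n w.1 ∧ g • F w = shW d I w}}.ncard := by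
  have hper : ∀ {m : ℕ} (g : G) {w : W d I}, Per m w.1 → Per m (g • w).1 := fun g w hw =>
    per_map (fun w => g • w) (hsh g) hw
  have h01 : (0 : Fin d) ≠ L d 0 := fun h => by
    have h3 : 0 = (0 + 1) % d := congrArg Fin.val h
    rw [Nat.mod_eq_of_lt (by omega)] at h3
    omega
  obtain ⟨t, ht⟩ := hmk 0 (L d 0) (n - 2 * (d - 1) - 1) h01 (by omega)
  set K := low d I G n with hKdef
  have hconj : ∀ g : G, g * t * g⁻¹ ∈ K := fun g n' h1 h2 w hw => by
    have h3 : t • g⁻¹ • w = g⁻¹ • w := Subtype.ext (by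
      rw [ht]
      exact mk_eq_of_short hd (hper _ hw) _ _ (by have := hgap n' h1 h2; omega))
    rw [mul_smul, mul_smul, h3, smul_inv_smul]
  let T : Set K := {k | ∃ g : G, (k : G) = g * t * g⁻¹}
  set N := Subgroup.normalClosure ({t} : Set G) with hN
  have hNT : N ≤ (Subgroup.closure T).map K.subtype := by
    refine (Subgroup.closure_le _).2 fun a ha => ?_
    obtain ⟨b, hb, hab⟩ := Group.mem_conjugatesOfSet_iff.1 ha
    obtain rfl : b = t := hb
    obtain ⟨g, rfl⟩ := isConj_iff.1 hab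
    exact ⟨⟨_, hconj g⟩, Subgroup.subset_closure ⟨g, rfl⟩, rfl⟩
  have hNn : N.Normal := Subgroup.normalClosure_normal
  obtain ⟨z, hz, hbig⟩ := hgiant N hNn ⟨t, Subgroup.subset_normalClosure rfl, ht⟩
  have horb : ∀ g : G, g • z ∈ MulAction.orbit N z := fun g => by
    have h1 : (MulAction.orbit N z).ncard ≤ (MulAction.orbit N (g • z)).ncard := by
      refine Set.ncard_le_ncard_of_injOn (fun w => g • w) ?_
        (fun a _ b _ hab => MulAction.injective g hab) (Set.toFinite _)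
      rintro _ ⟨a, rfl⟩
      refine ⟨⟨g * a * g⁻¹, hNn.conj_mem _ a.2 g⟩, ?_⟩
      show (g * a * g⁻¹) • g • z = g • (a : G) • z
      rw [mul_smul, mul_smul, inv_smul_smul]
    obtain ⟨y, ⟨a, ha⟩, ⟨b, hb⟩⟩ := meet (n := n) (A := MulAction.orbit N z)
      (B := MulAction.orbit N (g • z)) (by rintro _ ⟨a, rfl⟩; exact hper a.1 hz)
      (by rintro _ ⟨a, rfl⟩; exact hper a.1 (hper g hz)) hbig (by omega)
    refine ⟨b⁻¹ * a, ?_⟩
    show (b⁻¹ * a) • z = g • z
    rw [mul_smul, inv_smul_eq_iff]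
    exact ha.trans hb.symm
  let B : Set (W d I) := MulAction.orbit K z
  have hB : ∀ w, w ∈ B ↔ ∃ g : G, g • z = w := fun w => by
    refine ⟨fun ⟨k, hk⟩ => ⟨k, hk⟩, ?_⟩
    rintro ⟨g, rfl⟩
    obtain ⟨a, ha⟩ := horb g
    obtain ⟨k, -, hk⟩ := hNT a.2
    refine ⟨k, ?_⟩
    show (k : G) • z = g • z
    rw [show (k : G) = a from hk]
    exact ha
  have hBper : ∀ w ∈ B, Per n w.1 := fun w hw => by
    obtain ⟨g, rfl⟩ := (hB w).1 hw
    exact hper g hz
  have hBG : ∀ (g : G), ∀ w ∈ B, g • w ∈ B := fun g w hw => by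
    obtain ⟨a, rfl⟩ := (hB w).1 hw
    exact (hB _).2 ⟨g * a, mul_smul _ _ _⟩
  have hBbig : d ^ n < 2 * B.ncard := by
    have : (MulAction.orbit N z).ncard ≤ B.ncard :=
      Set.ncard_le_ncard (fun w ⟨a, ha⟩ => (hB w).2 ⟨a, ha⟩) (Set.toFinite _)
    omega
  have hP : ∀ P : Equiv.Perm (W d I), (∀ w, P (shW d I w) = shW d I (P w)) →
      (∀ g : G, ∃ g' : G, ∀ w, P (g • w) = g' • P w) → ∀ w, P w ∈ B ↔ w ∈ B := by
    intro P h1 h2
    obtain ⟨y, hy, x, hx, rfl⟩ := meet (n := n) (A := B) (B := P '' B) hBper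
      (by rintro _ ⟨x, hx, rfl⟩; exact per_map P h1 (hBper x hx)) hBbig
      (by rw [Set.ncard_image_of_injective _ P.injective]; exact hBbig)
    have hm : Set.MapsTo P B B := fun w hw => by
      obtain ⟨a, rfl⟩ := (hB x).1 hx
      obtain ⟨b, rfl⟩ := (hB w).1 hw
      obtain ⟨g', hg'⟩ := h2 (b * a⁻¹)
      have := hg' (a • z)
      rw [mul_smul, inv_smul_smul] at this
      rw [this]
      exact hBG _ _ hy
    have hbij := ((Set.toFinite B).injOn_iff_bijOn_of_mapsTo hm).1 P.injective.injOn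
    refine fun w => ⟨fun hw => ?_, fun hw => hm hw⟩
    obtain ⟨x', hx', he⟩ := hbij.surjOn hw
    rwa [← P.injective he]
  have hS := hP (shW d I) (fun _ => rfl) fun g => ⟨g, fun w => (hsh g w).symm⟩
  have hFB := hP F hF hFG
  let σ : Equiv.Perm B := (shW d I).subtypePerm hS
  have hσ : ∀ (k : ℕ) (x : B), ((σ ^ k) x).1 = (shW d I ^ k) x.1 := fun k => by
    induction k with
    | zero => intro x; rfl
    | succ k ih => intro x; rw [pow_succ, pow_succ, Equiv.Perm.mul_apply, ih]; rfl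
  have : Nonempty B := ⟨⟨z, MulAction.mem_orbit_self z⟩⟩
  have hΦ : ∀ x : B, h⁻¹ • shW d I (F.symm x.1) ∈ B := fun x =>
    hBG _ _ ((hS _).2 ((hFB _).1 (by rw [Equiv.apply_symm_apply]; exact x.2)))
  refine le_trans (hrank B K σ T hn ?_ ?_ ?_ ?_ ?_ ?_ fun x => ⟨_, hΦ x⟩) ?_
  · ext x
    rw [hσ, (per_iff hn.pos _).1 (hBper _ x.2)]
    rfl
  · exact fun x hx => sh_ne hd x.1 (congrArg Subtype.val hx)
  · exact fun k x => Subtype.ext (hsh k x.1)
  · rintro s ⟨g, hg⟩ k
    refine ⟨k * g, ?_⟩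
    push_cast
    rw [hg]
    group
  · intro x y
    obtain ⟨a, ha⟩ := (hB _).1 x.2
    obtain ⟨b, hb⟩ := (hB _).1 y.2
    obtain ⟨a', ha'⟩ := horb a
    obtain ⟨b', hb'⟩ := horb b
    obtain ⟨k, hk, hk'⟩ := hNT (b' * a'⁻¹).2
    refine ⟨k, hk, Subtype.ext ?_⟩
    show (k : G) • x.1 = y.1
    rw [show (k : G) = b' * (a' : G)⁻¹ from hk', ← ha, ← hb, ← ha', ← hb', mul_smul]
    show (b' : G) • (a' : G)⁻¹ • (a' : G) • z = (b' : G) • z
    rw [inv_smul_smul]
  · rintro s ⟨g, hg⟩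
    have h1 := ncard_supp_le (d := d) (n := n) 0 (L d 0) (j := n - 2 * (d - 1) - 1) (by omega)
    rw [show n - (n - 2 * (d - 1) - 1) - 1 = 2 * (d - 1) by omega] at h1
    refine le_trans (Set.ncard_le_ncard_of_injOn (fun x : B => (g⁻¹ • x.1).1) ?_ ?_
      ((finite_per n).subset fun _ hs => hs.1)) h1
    · intro x hx
      refine ⟨hper _ (hBper _ x.2), fun he => hx (Subtype.ext ?_)⟩
      show (s : G) • x.1 = x.1
      have h3 : t • g⁻¹ • x.1 = g⁻¹ • x.1 := Subtype.ext (by rw [ht]; exact he)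
      rw [hg, mul_smul, mul_smul, h3, smul_inv_smul]
    · exact fun a _ b _ hab => Subtype.ext (MulAction.injective g⁻¹ (Subtype.ext hab))
  · refine Nat.mul_le_mul_left _ (Set.ncard_le_ncard ?_ (Set.toFinite _))
    rintro k ⟨x, hx⟩
    refine ⟨F.symm x.1, hBper _ ((hFB _).1 (by rw [Equiv.apply_symm_apply]; exact x.2)), ?_⟩
    have h1 : (k : G) • x.1 = h⁻¹ • shW d I (F.symm x.1) := congrArg Subtype.val hx
    rw [Equiv.apply_symm_apply, mul_smul, h1, smul_inv_smul]

end ZGrp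

open ZGrp in
theorem grp (d : ℕ) (hd : 3 ≤ d) (η : ℝ) (hη : 0 < η) : ∃ I : Finset ℕ,
    ∀ (G : Type) [Group G] [Finite G] [MulAction G (W d I)],
      (∀ (g : G) (w : W d I), g • shW d I w = shW d I (g • w)) →
      (∀ (u v : Fin d) (j : ℕ), u ≠ v → 1 ≤ j →
        ∃ g : G, ∀ w : W d I, (g • w).1 = mk u v j w.1) →
      ∀ F : Equiv.Perm (W d I), (∀ w, F (shW d I w) = shW d I (F w)) →
        (∀ g : G, ∃ g' : G, ∀ w, F (g • w) = g' • F w) →
        ({g : G | ∀ w, g • F w ≠ shW d I w}.ncard : ℝ) ≤ η * Nat.card G := by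
  have : NeZero d := ⟨by omega⟩
  obtain ⟨n₀, hgiant⟩ := giant hd
  obtain ⟨C, hC, hrank⟩ := rank (d ^ (2 * (d - 1)))
  obtain ⟨I, hI, hgap, hprod⟩ := choose_I (2 * (d - 1)) (n₀ + 2 * d) C (by omega) hC hη
  refine ⟨I, fun G _ _ _ hsh hmk F hF hFG => ?_⟩
  let Bad : ℕ → Set G := fun b =>
    {g | ∀ n ∈ I, n < b → ∀ w : W d I, Per n w.1 → g • F w ≠ shW d I w}
  have key : ∀ b : ℕ, ((Bad b).ncard : ℝ) ≤
      (∏ n ∈ I.filter (· < b), (1 - 1 / ((C * n : ℕ) : ℝ))) * Nat.card G := by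
    intro b
    induction b with
    | zero =>
      simp only [Nat.not_lt_zero, Finset.filter_false, Finset.prod_empty, one_mul]
      exact_mod_cast Set.ncard_le_card _
    | succ b ih =>
      by_cases hb : b ∈ I
      · have e1 : I.filter (· < b + 1) = insert b (I.filter (· < b)) := by
          ext n
          simp only [Finset.mem_filter, Finset.mem_insert]
          constructor
          · rintro ⟨h1, h2⟩
            rcases Nat.lt_succ_iff_lt_or_eq.1 h2 with h | h
            exacts [Or.inr ⟨h1, h⟩, Or.inl h]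
          · rintro (rfl | ⟨h1, h2⟩)
            exacts [⟨hb, by omega⟩, ⟨h1, by omega⟩]
        obtain ⟨hp, hn⟩ := hI b hb
        let Good : Set G := {g : G | ∃ w : W d I, Per b w.1 ∧ g • F w = shW d I w}
        have h1 := count (low d I G b) (Bad b) Good (C * b)
          (fun g hg k hk n h1 h2 w hw => by
            rw [mul_smul, hk n h1 h2 _ (per_map F hF hw)]
            exact hg n h1 h2 w hw)
          (step hd hp (by omega) (hgap b hb) G hsh hmk F hF hFG
            (fun N hN ht => hgiant b hp (by omega) I hb G N hN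
              (fun u v j hu => hmk u v j (used_ne hu).1 (used_ne hu).2) ht) (hrank b))
        have h2 : (Bad (b + 1)).ncard ≤ (Bad b \ Good).ncard :=
          Set.ncard_le_ncard (fun g hg => ⟨fun n h1 h2 => hg n h1 (by omega),
            fun ⟨w, hw, he⟩ => hg b hb (by omega) w hw he⟩) (Set.toFinite _)
        have h3 := Set.ncard_inter_add_ncard_sdiff_eq_ncard (Bad b) Good
        have hc : (1 : ℝ) ≤ ((C * b : ℕ) : ℝ) := by exact_mod_cast Nat.mul_pos hC hp.pos
        have h4 : ((Bad b).ncard : ℝ) / ((C * b : ℕ) : ℝ) ≤ (Bad b ∩ Good).ncard := by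
          rw [div_le_iff₀' (by linarith)]
          exact_mod_cast h1
        have h5 : (0 : ℝ) ≤ 1 - 1 / ((C * b : ℕ) : ℝ) :=
          sub_nonneg.2 ((div_le_one (by linarith)).2 hc)
        rw [e1, Finset.prod_insert (by simp), mul_assoc]
        refine le_trans ?_ (mul_le_mul_of_nonneg_left ih h5)
        have h6 : ((Bad (b + 1)).ncard : ℝ) + (Bad b ∩ Good).ncard ≤ (Bad b).ncard := by
          exact_mod_cast (by omega : (Bad (b + 1)).ncard + (Bad b ∩ Good).ncard ≤ (Bad b).ncard)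
        rw [sub_mul, one_mul, one_div, inv_mul_eq_div]
        linarith
      · have e1 : I.filter (· < b + 1) = I.filter (· < b) := by
          refine Finset.filter_congr fun n hn => ?_
          have : n ≠ b := fun h => hb (h ▸ hn)
          omega
        rw [e1]
        refine le_trans ?_ ih
        have h2 : Bad (b + 1) ⊆ Bad b := fun g hg n h1 h2 => hg n h1 (by omega)
        exact_mod_cast Set.ncard_le_ncard h2 (Set.toFinite _)
  have h1 := key (I.sup id + 1)
  have e1 : I.filter (· < I.sup id + 1) = I := Finset.filter_true_of_mem fun n hn =>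
    Nat.lt_succ_of_le (Finset.le_sup (f := id) hn)
  rw [e1] at h1
  refine le_trans ?_ (h1.trans (mul_le_mul_of_nonneg_right hprod (Nat.cast_nonneg _)))
  have h2 : {g : G | ∀ w, g • F w ≠ shW d I w} ⊆ Bad (I.sup id + 1) := fun g hg n _ _ w _ => hg w
  exact_mod_cast Set.ncard_le_ncard h2 (Set.toFinite _)

end Pool.Agent.MP_9b2bac_nt.Z

end
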