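import Mathlib
import Pool.Agent.Mg.F43e117.Gb01801

section

/- The ring generated by the solutions. -/

set_option autoImplicit false

namespace Pool.Agent.MP_9b2bac_nt.Z

open Finset

variable {d : ℕ}

/-- Shift by `i`. -/
def shf (s : Seq d) (i : ℤ) : Seq d := fun k => s (k + i)

theorem sh_shf (s : Seq d) (i : ℤ) : sh (shf s i) = shf s (i + 1) :=
  funext fun k => congrArg s (by ring)

@[simp] theorem shf_apply_zero (s : Seq d) (i : ℤ) : shf s i 0 = s i := by simp [shf]

@[simp] theorem shf_zero (s : Seq d) : shf s 0 = s := funext fun k => by simp [shf]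

theorem shf_per {n : ℕ} {s : Seq d} (h : Per n s) (i : ℤ) : shf s (i + n) = shf s i :=
  funext fun k => by simp only [shf]; rw [← add_assoc, h.2.1]

theorem shW_zpow {I : Finset ℕ} (s : W d I) (i : ℤ) : ((shW d I ^ i) s).1 = shf s.1 i := by
  induction i using Int.induction_on with
  | zero => simp
  | succ k ih => rw [add_comm, zpow_one_add, Equiv.Perm.mul_apply, shW_val, ih, sh_shf, add_comm]
  | pred k ih =>
    have : (shW d I ^ (-(k : ℤ))) s = shW d I ((shW d I ^ (-(k : ℤ) - 1)) s) := by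
      rw [← Equiv.Perm.mul_apply, ← zpow_one_add, add_sub_cancel]
    rw [this, shW_val] at ih
    funext x
    have := congrFun ih (x - 1)
    simp only [sh, shf, sub_add_cancel] at this ⊢
    rw [this]; exact congrArg s.1 (by ring)

theorem NF.sys {C : Type} [CommRing C] {t : Fin d → Fin d → C} {w : Seq d → Fin d → C}
    {ξ : Seq d → C} (h : NF t w ξ) {lam : Fin d → C} {ε : C}
    (ht : ∀ j k, j ≠ k → (lam j - lam k) * t j k = ε) (s : Seq d) :
    Sys lam ε (fun i => lam (s i) + ε * ξ (shf s i)) (fun i => w (shf s i)) where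
  step i j := by
    rw [← sh_shf]
    by_cases hj : j = s i
    · have := h.diag (shf s i)
      rw [shf_apply_zero, ← hj] at this
      rw [← hj]; linear_combination ε * this
    · have := h.off (shf s i) j (by simpa using hj)
      rw [shf_apply_zero] at this
      linear_combination (-(lam j - lam (s i))) * this -
        (w (sh (shf s i)) j + ξ (shf s i) * w (shf s i) j) * ht j (s i) hj
  sum i := h.sum _

theorem Sys.x_eq {C : Type} [CommRing C] {lam : Fin d → C} {ε : C} {x : ℤ → C}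
    {w : ℤ → Fin d → C} (h : Sys lam ε x w) (i : ℤ) : x i = ∑ j, lam j * w i j - ε := by
  have h1 : ∑ j, ε * w (i + 1) j = ∑ j, (lam j - x i) * w i j := sum_congr rfl fun j _ => h.step i j
  simp only [sub_mul, sum_sub_distrib, ← mul_sum, h.sum] at h1
  linear_combination h1

theorem NF.const {B : Type} [CommRing B] {t : Fin d → Fin d → PowerSeries B}
    (ht : ∀ j k, j ≠ k → PowerSeries.X ∣ t j k) {w : Seq d → Fin d → PowerSeries B}
    {ξ : Seq d → PowerSeries B} (h : NF t w ξ) (s : Seq d) (j : Fin d) :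
    PowerSeries.constantCoeff (w s j) = if j = s 0 then 1 else 0 := by
  have h1 : ∀ j, j ≠ s 0 → PowerSeries.constantCoeff (w s j) = 0 := fun j hj => by
    rw [h.off s j hj, map_mul, PowerSeries.X_dvd_iff.1 (ht _ _ hj), zero_mul]
  split_ifs with hj
  · rw [hj, h.diag_eq, map_sub, map_sum, sum_eq_zero fun j hj => h1 j (ne_of_mem_erase hj)]
    simp
  · exact h1 j hj

variable {A : Type} [CommRing A] [IsDomain A]

variable (A) in
/-- Generic roots. -/
abbrev AA (d : ℕ) := MvPolynomial (Fin d) A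

variable (A) in
/-- The discriminant. -/
noncomputable def Dl (d : ℕ) : AA A d :=
  ∏ p ∈ (univ : Finset (Fin d)).offDiag, (MvPolynomial.X p.1 - MvPolynomial.X p.2)

theorem Dl_ne : Dl A d ≠ 0 := prod_ne_zero_iff.2 fun p hp =>
  sub_ne_zero.2 fun h => (mem_offDiag.1 hp).2.2 (MvPolynomial.X_injective h)

variable (A) in
/-- The coefficient ring. -/
abbrev BB (d : ℕ) := Localization.Away (Dl A d)

instance : IsDomain (BB A d) :=
  IsLocalization.isDomain_localization (powers_le_nonZeroDivisors_of_noZeroDivisors Dl_ne)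

theorem AB_inj : Function.Injective (algebraMap (AA A d) (BB A d)) :=
  IsLocalization.injective _ (powers_le_nonZeroDivisors_of_noZeroDivisors Dl_ne)

theorem dvd_Dl {j k : Fin d} (h : j ≠ k) : MvPolynomial.X j - MvPolynomial.X k ∣ Dl A d :=
  dvd_prod_of_mem (fun p : Fin d × Fin d => (MvPolynomial.X p.1 - MvPolynomial.X p.2 : AA A d))
    (a := (j, k)) (mem_offDiag.2 ⟨mem_univ _, mem_univ _, h⟩)

variable (A) in
/-- The roots in the coefficient ring. -/
noncomputable def lB (j : Fin d) : BB A d := algebraMap (AA A d) (BB A d) (MvPolynomial.X j)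

theorem lB_unit {j k : Fin d} (h : j ≠ k) : IsUnit (lB A j - lB A k : BB A d) := by
  rw [lB, lB, ← map_sub]
  exact isUnit_of_dvd_unit (map_dvd _ (dvd_Dl h)) (IsLocalization.Away.algebraMap_isUnit _)

variable (A) in
/-- The coefficients of the normal form. -/
noncomputable def t0 (j k : Fin d) : PowerSeries (BB A d) :=
  PowerSeries.X * PowerSeries.C (Ring.inverse (lB A j - lB A k))

variable (A) in
theorem t0_dvd (j k : Fin d) (_ : j ≠ k) : PowerSeries.X ∣ t0 A j k := Dvd.intro _ rfl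

variable (A) in
theorem t0_spec (j k : Fin d) (h : j ≠ k) :
    (PowerSeries.C (lB A j) - PowerSeries.C (lB A k)) * t0 A j k = PowerSeries.X := by
  rw [t0, mul_left_comm, ← map_sub, ← map_mul, Ring.mul_inverse_cancel _ (lB_unit h)]; simp

variable (A) in
/-- The generic solution. -/
noncomputable def w0 : Seq d → Fin d → PowerSeries (BB A d) := (exists_NF (t0 A) (t0_dvd A)).choose

variable (A) in
/-- The generic solution. -/
noncomputable def xi0 : Seq d → PowerSeries (BB A d) := (exists_NF (t0 A) (t0_dvd A)).choose_spec.choose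

variable (A) in
theorem nf0 : NF (t0 A) (w0 A (d := d)) (xi0 A) := (exists_NF (t0 A) (t0_dvd A)).choose_spec.choose_spec

variable (A) in
theorem sys0 (s : Seq d) : Sys (fun j => PowerSeries.C (lB A j)) PowerSeries.X
    (fun i => PowerSeries.C (lB A (s i)) + PowerSeries.X * xi0 A (shf s i)) (fun i => w0 A (shf s i)) :=
  (nf0 A).sys (t0_spec A) s

theorem w0_step {s s' : Seq d} (h : w0 A s = w0 A s') : w0 A (sh s) = w0 A (sh s') := by
  funext j
  have h1 := (sys0 A s).step 0 j
  have h2 := (sys0 A s').step 0 j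
  have h3 := (sys0 A s).x_eq 0
  have h4 := (sys0 A s').x_eq 0
  simp only [← sh_shf, shf_zero] at h1 h2 h3 h4
  rw [h3] at h1; rw [h4, ← h, ← h1] at h2
  exact (mul_left_cancel₀ PowerSeries.X_ne_zero h2).symm

theorem w0_zero {s s' : Seq d} (h : w0 A s = w0 A s') : s 0 = s' 0 := by
  have h1 := (nf0 A).const (t0_dvd A) s (s 0)
  rw [h, (nf0 A).const (t0_dvd A), if_pos rfl] at h1
  by_contra hc
  rw [if_neg hc] at h1
  exact zero_ne_one h1

theorem w0_inj {n n' : ℕ} {s s' : Seq d} (hs : Per n s) (hs' : Per n' s') (h : w0 A s = w0 A s') :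
    s = s' := by
  have h1 : ∀ k : ℕ, w0 A (shf s k) = w0 A (shf s' k) := by
    intro k
    induction k with
    | zero => simpa using h
    | succ k ih => simpa only [sh_shf, Nat.cast_succ] using w0_step ih
  funext i
  have hn : (0 : ℤ) < n * n' := by have := hs.1; have := hs'.1; positivity
  have h0 := Int.emod_nonneg i hn.ne'
  have := w0_zero (h1 (i % (n * n')).toNat)
  rw [shf_apply_zero, shf_apply_zero, Int.toNat_of_nonneg h0] at this
  have e := Int.emod_add_ediv_mul i (n * n')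
  rw [← hs.zper _ (i / (n * n') * n'), ← hs'.zper _ (i / (n * n') * n)] at this
  convert this using 2 <;> linarith

variable (A) in
theorem w0_ne {s : Seq d} (hs : Function.Surjective s) (j : Fin d) : ∃ i, w0 A (shf s i) j ≠ 0 := by
  obtain ⟨i, hi⟩ := hs j
  refine ⟨i, fun h => ?_⟩
  have := (nf0 A).const (t0_dvd A) (shf s i) j
  rw [h, if_pos (by simp [hi])] at this
  simp at this

variable (A) in
/-- The ring generated by the solutions attached to the words of the levels in `I`. -/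
noncomputable def RR (d : ℕ) (I : Finset ℕ) :
    Subalgebra (Polynomial (AA A d)) (PowerSeries (BB A d)) :=
  Algebra.adjoin _ (Set.range fun p : W d I × Fin d => w0 A p.1.1 p.2)

variable {I : Finset ℕ}

variable (A) in
/-- The generators. -/
noncomputable def zw (s : W d I) (j : Fin d) : RR A d I :=
  ⟨w0 A s.1 j, Algebra.subset_adjoin ⟨(s, j), rfl⟩⟩

variable (A) in
/-- The roots. -/
noncomputable def lR (I : Finset ℕ) (j : Fin d) : RR A d I :=
  algebraMap (Polynomial (AA A d)) _ (Polynomial.C (MvPolynomial.X j))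

variable (A) in
/-- The scaling variable. -/
noncomputable def eR (d : ℕ) (I : Finset ℕ) : RR A d I :=
  algebraMap (Polynomial (AA A d)) _ Polynomial.X

theorem alg_C (a : AA A d) : algebraMap (Polynomial (AA A d)) (PowerSeries (BB A d)) (Polynomial.C a) =
    PowerSeries.C (algebraMap (AA A d) (BB A d) a) := by
  change Polynomial.coeToPowerSeries.algHom (BB A d) (Polynomial.C a) = _
  simp [Polynomial.coeToPowerSeries.algHom_apply]

theorem alg_X : algebraMap (Polynomial (AA A d)) (PowerSeries (BB A d)) Polynomial.X =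
    PowerSeries.X := by
  change Polynomial.coeToPowerSeries.algHom (BB A d) Polynomial.X = _
  simp [Polynomial.coeToPowerSeries.algHom_apply]

theorem lR_val (j : Fin d) : (lR A I j : PowerSeries (BB A d)) = PowerSeries.C (lB A j) := alg_C _

theorem eR_val : (eR A d I : PowerSeries (BB A d)) = PowerSeries.X := alg_X

theorem zw_inj {s s' : W d I} (h : zw A s = zw A s') : s = s' := by
  obtain ⟨n, -, hn⟩ := s.2
  obtain ⟨n', -, hn'⟩ := s'.2
  exact Subtype.ext (w0_inj hn hn' (funext fun j => congrArg Subtype.val (congrFun h j)))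

variable (A) in
/-- The root coordinate. -/
noncomputable def zx (s : W d I) : RR A d I := ∑ j, lR A I j * zw A s j - eR A d I

theorem zx_val (s : W d I) : (zx A s : PowerSeries (BB A d)) =
    PowerSeries.C (lB A (s.1 0)) + PowerSeries.X * xi0 A s.1 := by
  have := (sys0 A s.1).x_eq 0
  simp only [shf_zero] at this
  rw [this, zx]
  simp [lR_val, eR_val, zw]

variable (A) in
theorem sysR (s : W d I) : Sys (lR A I) (eR A d I) (fun i => zx A ((shW d I ^ i) s))
    (fun i => zw A ((shW d I ^ i) s)) where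
  step i j := Subtype.ext (by
    have := (sys0 A s.1).step i j
    simpa [zx_val, lR_val, eR_val, zw, shW_zpow] using this)
  sum i := Subtype.ext (by
    have := (sys0 A s.1).sum i
    simpa [zw, shW_zpow] using this)

theorem alg_inj : Function.Injective (algebraMap (Polynomial (AA A d)) (PowerSeries (BB A d))) := by
  intro a b h
  change Polynomial.coeToPowerSeries.algHom (BB A d) a =
    Polynomial.coeToPowerSeries.algHom (BB A d) b at h
  rw [Polynomial.coeToPowerSeries.algHom_apply, Polynomial.coeToPowerSeries.algHom_apply] at h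
  exact Polynomial.coe_injective _ (PowerSeries.map_injective _ AB_inj h)

theorem RR_fg : (RR A d I).FG := Subalgebra.fg_def.2 ⟨_, Set.finite_range _, rfl⟩

end Pool.Agent.MP_9b2bac_nt.Z

end

section

/- The automorphism group of the ring of solutions permutes the words. -/

set_option autoImplicit false

namespace Pool.Agent.MP_9b2bac_nt.Z

open Finset

variable {d : ℕ} {I : Finset ℕ}
variable {A : Type} [CommRing A] [IsDomain A]

variable (A) in
/-- A big algebraically closed field. -/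
abbrev Om (d : ℕ) := AlgebraicClosure (FractionRing (PowerSeries (BB A d)))

variable (A) in
/-- The embedding of the power series. -/
noncomputable abbrev io (d : ℕ) : PowerSeries (BB A d) →+* Om A d := algebraMap _ _

theorem io_inj : Function.Injective (io A d) := by
  rw [io, IsScalarTower.algebraMap_eq _ (FractionRing (PowerSeries (BB A d))) (Om A d)]
  exact (algebraMap (FractionRing (PowerSeries (BB A d))) (Om A d)).injective.comp
    (IsFractionRing.injective (PowerSeries (BB A d)) (FractionRing (PowerSeries (BB A d))))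

theorem exists_val : ∃ V : ValuationSubring (Om A d), (∀ c, V.valuation (io A d c) ≤ 1) ∧
    V.valuation (io A d PowerSeries.X) < 1 := by
  have hI : (Ideal.span {⟨io A d PowerSeries.X, _, rfl⟩} : Ideal (io A d).range) ≠ ⊤ := by
    rw [Ne, Ideal.span_singleton_eq_top, isUnit_iff_exists_inv]
    rintro ⟨⟨_, c, rfl⟩, h⟩
    have h1 : io A d (PowerSeries.X * c) = io A d 1 := by
      rw [map_mul, map_one]; exact congrArg Subtype.val h
    have := congrArg PowerSeries.constantCoeff (io_inj h1)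
    simp at this
  obtain ⟨V, h1, h2⟩ := Ideal.image_subset_nonunits_valuationSubring _ hI
  exact ⟨V, fun c => (V.valuation_le_one_iff _).2 (h1 ⟨c, rfl⟩),
    V.mem_nonunits_iff.1 (h2 ⟨_, Ideal.subset_span rfl, rfl⟩)⟩

theorem classify (f : RR A d I →+* Om A d) (hf : Function.Injective f)
    (hl : ∀ j, f (lR A I j) = io A d (lR A I j)) (he : f (eR A d I) = io A d (eR A d I)) (s : W d I) :
    ∃ s' : W d I, ∀ (i : ℤ) j, f (zw A ((shW d I ^ i) s) j) = io A d (zw A ((shW d I ^ i) s') j) := by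
  obtain ⟨V, h1, h2⟩ := exists_val (d := d) (A := A)
  obtain ⟨n, hnI, hn⟩ := s.2
  have hS := (sysR A s).map f
  simp only [hl, he, lR_val, eR_val] at hS
  have hv : ∀ j k, j ≠ k → V.valuation (io A d (PowerSeries.C (lB A j)) -
      io A d (PowerSeries.C (lB A k))) = 1 := fun j k h => by
    obtain ⟨u, hu⟩ := isUnit_iff_exists_inv.1 (lB_unit (A := A) h)
    have e : V.valuation (io A d (PowerSeries.C (lB A j - lB A k))) *
        V.valuation (io A d (PowerSeries.C u)) = 1 := by
      rw [← map_mul, ← map_mul, ← map_mul, hu]; simp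
    rw [← map_sub, ← map_sub]
    exact le_antisymm (h1 _) (e ▸ mul_le_of_le_one_right' (h1 _))
  have hp : ∀ i : ℤ, (shW d I ^ (i + n)) s = (shW d I ^ i) s := fun i =>
    Subtype.ext (by rw [shW_zpow, shW_zpow, shf_per hn])
  obtain ⟨-, t, ht⟩ := hS.exists_word V.valuation h2 hv hn.1 fun i => by simp only [hp]
  have htp : Per n t := ⟨hn.1, word_per V.valuation hv (fun i => by simp only [hp]) ht,
    hS.surj V.valuation h2 hv hn.1 (fun i => by simp only [hp]) ht fun j => by
      obtain ⟨i, hi⟩ := w0_ne A hn.2.2 j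
      refine ⟨i, fun h => hi ?_⟩
      have := congrArg Subtype.val (hf (h.trans (map_zero f).symm))
      simpa [zw, shW_zpow] using this⟩
  have hT := (sys0 A t).map (io A d)
  have := (hS.unique V.valuation h2 hv hn.1 hT (fun i => by simp only [hp])
    (fun i => by simp only [shf_per htp]) ht fun i => by
      rw [map_add, sub_add_cancel_left, Valuation.map_neg, map_mul, map_mul]
      exact (mul_le_of_le_one_right' (h1 _)).trans_lt h2).2
  refine ⟨⟨t, n, hnI, htp⟩, fun i j => ?_⟩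
  have := congrFun (congrFun this i) j
  simpa [zw, shW_zpow] using this

variable (A) in
/-- The automorphism group. -/
abbrev GG (d : ℕ) (I : Finset ℕ) := RR A d I ≃ₐ[Polynomial (AA A d)] RR A d I

theorem exists_act (g : GG A d I) (s : W d I) : ∃ s' : W d I,
    ∀ i : ℤ, ∀ j, g (zw A ((shW d I ^ i) s) j) = zw A ((shW d I ^ i) s') j := by
  obtain ⟨s', h⟩ := classify (((io A d).comp (RR A d I).val.toRingHom).comp (g : RR A d I →+* RR A d I))
    ((io_inj.comp Subtype.val_injective).comp g.injective)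
    (fun j => congrArg (fun r : RR A d I => io A d r) (g.commutes _))
    (congrArg (fun r : RR A d I => io A d r) (g.commutes _)) s
  exact ⟨s', fun i j => Subtype.ext (io_inj (h i j))⟩

noncomputable instance : SMul (GG A d I) (W d I) := ⟨fun g s => (exists_act g s).choose⟩

theorem act_zw (g : GG A d I) (s : W d I) (j : Fin d) : g (zw A s j) = zw A (g • s) j := by
  have := (exists_act g s).choose_spec 0 j
  rwa [zpow_zero] at this

noncomputable instance : MulAction (GG A d I) (W d I) where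
  one_smul s := zw_inj (funext fun j => by rw [← act_zw]; rfl)
  mul_smul g h s := zw_inj (funext fun j => by rw [← act_zw, ← act_zw, ← act_zw]; rfl)

theorem act_sh (g : GG A d I) (s : W d I) : g • shW d I s = shW d I (g • s) :=
  zw_inj (funext fun j => by
    have := (exists_act g s).choose_spec 1 j
    rw [zpow_one] at this
    rw [← act_zw]; exact this)

theorem RR_ext {S : Type} [Semiring S] [Algebra (Polynomial (AA A d)) S]
    {f g : RR A d I →ₐ[Polynomial (AA A d)] S} (h : ∀ s j, f (zw A s j) = g (zw A s j)) : f = g :=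
  AlgHom.adjoin_ext (by rintro _ ⟨⟨s, j⟩, rfl⟩; exact h s j)

instance : Finite (GG A d I) := by
  refine Finite.of_injective (fun (g : GG A d I) (s : W d I) => g • s) fun g h e => ?_
  have : g.toAlgHom = h.toAlgHom := RR_ext (f := g.toAlgHom) (g := h.toAlgHom) fun s j => by
    have := congrFun e s
    simp only at this
    change g _ = h _
    rw [act_zw, act_zw, this]
  exact AlgEquiv.ext fun r => DFunLike.congr_fun this r

theorem RR_surj (f : RR A d I →ₐ[Polynomial (AA A d)] RR A d I) (p : W d I → W d I)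
    (hp : ∀ s j, f (zw A s j) = zw A (p s) j) (hf : Function.Injective f) : Function.Surjective f := by
  have h1 : Function.Surjective p := Finite.injective_iff_surjective.1 fun s s' h =>
    zw_inj (funext fun j => hf (by rw [hp, hp, h]))
  rintro ⟨r, hr⟩
  induction hr using Algebra.adjoin_induction with
  | mem x hx =>
    obtain ⟨⟨s, j⟩, rfl⟩ := hx
    obtain ⟨s', rfl⟩ := h1 s
    exact ⟨zw A s' j, hp s' j⟩
  | algebraMap a => exact ⟨_, f.commutes a⟩
  | add x y _ _ hx hy =>
    obtain ⟨a, ha⟩ := hx; obtain ⟨b, hb⟩ := hy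
    exact ⟨a + b, by rw [map_add, ha, hb]; rfl⟩
  | mul x y _ _ hx hy =>
    obtain ⟨a, ha⟩ := hx; obtain ⟨b, hb⟩ := hy
    exact ⟨a * b, by rw [map_mul, ha, hb]; rfl⟩

theorem exists_aut (f : RR A d I →ₐ[Polynomial (AA A d)] Om A d) (hf : Function.Injective f) :
    ∃ g : GG A d I, ∀ r, f r = io A d (g r) := by
  have hc : ∀ a, f (algebraMap _ _ a) = io A d (algebraMap (Polynomial (AA A d)) (RR A d I) a) :=
    fun a => by
      rw [f.commutes]
      exact IsScalarTower.algebraMap_apply _ (PowerSeries (BB A d)) (Om A d) a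
  choose p hp using classify f.toRingHom hf (fun j => hc _) (hc _)
  have hp0 : ∀ s j, f (zw A s j) = io A d (zw A (p s) j) := fun s j => by simpa using hp s 0 j
  let e : RR A d I →ₐ[Polynomial (AA A d)] Om A d :=
    (IsScalarTower.toAlgHom _ (PowerSeries (BB A d)) (Om A d)).comp (RR A d I).val
  have he : Function.Injective e := io_inj.comp Subtype.val_injective
  have hm : ∀ r, f r ∈ e.range := by
    rintro ⟨r, hr⟩
    induction hr using Algebra.adjoin_induction with
    | mem x hx => obtain ⟨⟨s, j⟩, rfl⟩ := hx; exact ⟨zw A (p s) j, (hp0 s j).symm⟩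
    | algebraMap a => exact ⟨algebraMap _ _ a, (hc a).symm⟩
    | add x y _ _ hx hy => exact map_add f ⟨x, _⟩ ⟨y, _⟩ ▸ add_mem hx hy
    | mul x y _ _ hx hy => exact map_mul f ⟨x, _⟩ ⟨y, _⟩ ▸ mul_mem hx hy
  let g : RR A d I →ₐ[Polynomial (AA A d)] RR A d I :=
    ((AlgEquiv.ofInjective e he).symm : e.range →ₐ[_] RR A d I).comp (f.codRestrict _ hm)
  have hg : ∀ r, e (g r) = f r := fun r =>
    congrArg Subtype.val ((AlgEquiv.ofInjective e he).apply_symm_apply ⟨f r, hm r⟩)
  have hgi : Function.Injective g := fun a b h => hf (by rw [← hg, ← hg, h])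
  exact ⟨AlgEquiv.ofBijective g ⟨hgi, RR_surj g p (fun s j => he ((hg _).trans (hp0 s j))) hgi⟩,
    fun r => (hg r).symm⟩

end Pool.Agent.MP_9b2bac_nt.Z

end

section

/- Transfer of automorphisms between algebraically closed fields, and the odd root lemma. -/

set_option autoImplicit false

namespace Pool.Agent.MP_9b2bac_nt.Z.ZTree

open Polynomial

theorem ext_equiv {O Ω : Type} [Field O] [Field Ω] [IsAlgClosed Ω] (ψ : O →+* Ω)
    (γ0 : O ≃+* O) : ∃ γ : Ω ≃+* Ω, ∀ x, γ (ψ x) = ψ (γ0 x) := by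
  letI := ψ.toAlgebra
  obtain ⟨B, hB⟩ := exists_isTranscendenceBasis O Ω
  haveI := IsAlgClosed.isAlgClosure_of_transcendence_basis _ hB
  let e := hB.1.aevalEquiv.toRingEquiv
  let h := e.symm.trans ((MvPolynomial.mapEquiv B γ0).trans e)
  refine ⟨IsAlgClosure.equivOfEquiv Ω Ω h, fun x => ?_⟩
  have h1 : ∀ y : O, ψ y = algebraMap _ Ω (e (MvPolynomial.C y)) := fun y => by
    have := hB.1.aevalEquiv.commutes y
    change e (MvPolynomial.C y) = _ at this
    rw [this]
    rfl
  rw [h1, h1, IsAlgClosure.equivOfEquiv_algebraMap]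
  congr 1
  simp [h]

theorem lift_hom {R S T : Type} [CommRing R] [IsDomain R] [Field S] [Field T] [IsAlgClosed T]
    [Algebra R S] [Algebra.IsAlgebraic R S] (hi : Function.Injective (algebraMap R S))
    (f : R →+* T) (hf : Function.Injective f) :
    ∃ g : S →+* T, ∀ r, g (algebraMap R S r) = f r := by
  letI := f.toAlgebra
  haveI : FaithfulSMul R S := (faithfulSMul_iff_algebraMap_injective R S).2 hi
  haveI : FaithfulSMul R T := (faithfulSMul_iff_algebraMap_injective R T).2 hf
  exact ⟨(IsAlgClosed.lift (R := R) (S := S) (M := T)).toRingHom, fun r =>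
    (IsAlgClosed.lift (R := R) (S := S) (M := T)).commutes r⟩

theorem transfer (k Ω Ω' : Type) [Field k] [Field Ω] [IsAlgClosed Ω] [Field Ω'] [IsAlgClosed Ω']
    (a : k[X] →+* Ω) (a' : k[X] →+* Ω') (ha : Function.Injective a)
    (ha' : Function.Injective a') (θ : Ω' →+* Ω') (hθ : ∀ f, θ (a' f) = a' f) :
    ∃ (O : Type) (_ : Field O) (_ : IsAlgClosed O) (a0 : k[X] →+* O) (ψ : O →+* Ω)
      (ψ' : O →+* Ω') (γ0 : O → O) (γ : Ω ≃+* Ω), (∀ f, ψ (a0 f) = a f) ∧
      (∀ f, ψ' (a0 f) = a' f) ∧ (∀ f, γ (a f) = a f) ∧ (∀ x, γ (ψ x) = ψ (γ0 x)) ∧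
      ∀ x, θ (ψ' x) = ψ' (γ0 x) := by
  let F := FractionRing k[X]
  let O := AlgebraicClosure F
  have hi : Function.Injective (algebraMap k[X] O) := by
    rw [IsScalarTower.algebraMap_eq k[X] F O, RingHom.coe_comp]
    exact (algebraMap F O).injective.comp (IsFractionRing.injective k[X] F)
  haveI : Algebra.IsAlgebraic k[X] O := by
    haveI : Algebra.IsAlgebraic k[X] F := IsLocalization.isAlgebraic _ (nonZeroDivisors k[X])
    exact Algebra.IsAlgebraic.trans k[X] F O
  obtain ⟨ψ, hψ⟩ := lift_hom hi a ha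
  obtain ⟨ψ', hψ'⟩ := lift_hom hi a' ha'
  letI : Algebra O Ω' := ψ'.toAlgebra
  letI : Algebra F Ω' := (ψ'.comp (algebraMap F O)).toAlgebra
  haveI : IsScalarTower F O Ω' := IsScalarTower.of_algebraMap_eq fun _ => rfl
  have hF : θ.comp (algebraMap F Ω') = algebraMap F Ω' := by
    refine IsLocalization.ringHom_ext (nonZeroDivisors k[X]) ?_
    refine RingHom.ext fun f => ?_
    have : algebraMap F Ω' (algebraMap k[X] F f) = a' f := by
      rw [← hψ', IsScalarTower.algebraMap_apply k[X] F O]; rfl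
    simp only [RingHom.comp_apply, this, hθ]
  let θF : Ω' →ₐ[F] Ω' := { θ with commutes' := fun c => RingHom.congr_fun hF c }
  let γ0 := θF.restrictNormal' O
  obtain ⟨γ, hγ⟩ := ext_equiv ψ γ0.toRingEquiv
  refine ⟨O, inferInstance, inferInstance, algebraMap k[X] O, ψ, ψ', γ0, γ, hψ, hψ', fun f => ?_,
    hγ, fun x => ?_⟩
  · rw [← hψ, hγ, IsScalarTower.algebraMap_apply k[X] F O]
    congr 1
    exact γ0.commutes _
  · exact (θF.restrictNormal_commutes O x).symm

theorem odd_or_sq {k : Type} [Field k] [IsAlgClosed k] (b : k) : ∀ (n : ℕ) (f : k[X]),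
    f.natDegree = n → f ≠ 0 →
    (∃ (r : k) (e : ℕ) (f1 : k[X]), r ≠ b ∧ Odd e ∧ f = (X - C r) ^ e * f1 ∧ f1.eval r ≠ 0) ∨
      ∃ H : k[X], f = H ^ 2 ∨ f = (X - C b) * H ^ 2 := by
  intro n
  induction n using Nat.strong_induction_on with
  | _ n ih =>
  intro f hn hf
  by_cases h0 : n = 0
  · right
    obtain ⟨c, hc⟩ := IsAlgClosed.exists_pow_nat_eq (f.coeff 0) two_pos
    refine ⟨C c, Or.inl ?_⟩
    rw [← C_pow, hc]
    exact eq_C_of_natDegree_eq_zero (hn.trans h0)
  obtain ⟨r, hr⟩ := IsAlgClosed.exists_root f (by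
    rw [degree_eq_natDegree hf, hn]; exact_mod_cast h0)
  obtain ⟨f1, h1, h2⟩ := exists_eq_pow_rootMultiplicity_mul_and_not_dvd f hf r
  have he : 0 < rootMultiplicity r f := (rootMultiplicity_pos hf).2 hr
  generalize rootMultiplicity r f = e at h1 he
  rw [dvd_iff_isRoot, IsRoot.def] at h2
  have hf1 : f1 ≠ 0 := by rintro rfl; simp at h2
  by_cases hc : r ≠ b ∧ Odd e
  · exact Or.inl ⟨r, e, f1, hc.1, hc.2, h1, h2⟩
  have hlt : f1.natDegree < n := by
    rw [← hn, h1, natDegree_mul (pow_ne_zero _ (X_sub_C_ne_zero r)) hf1, natDegree_pow,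
      natDegree_X_sub_C]
    omega
  rcases ih _ hlt f1 rfl hf1 with ⟨r', e', f2, hr', he', h3, h4⟩ | ⟨H, hH | hH⟩
  · refine Or.inl ⟨r', e', (X - C r) ^ e * f2, hr', he', by rw [h1, h3]; ring, ?_⟩
    have : r' - r ≠ 0 := by
      intro h
      obtain rfl := sub_eq_zero.1 h
      rw [h3] at h2
      simp [he'.pos.ne'] at h2
    simp [this, h4]
  · rcases Nat.even_or_odd e with ⟨j, rfl⟩ | ⟨j, rfl⟩
    · exact Or.inr ⟨(X - C r) ^ j * H, Or.inl (by rw [h1, hH]; ring)⟩
    · have : r = b := by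
        by_contra h
        exact hc ⟨h, j, rfl⟩
      subst this
      exact Or.inr ⟨(X - C r) ^ j * H, Or.inr (by rw [h1, hH]; ring)⟩
  · have hrb : r ≠ b := by
      rintro rfl
      rw [hH] at h2
      simp at h2
    rcases Nat.even_or_odd e with ⟨j, rfl⟩ | ho
    · exact Or.inr ⟨(X - C r) ^ j * H, Or.inr (by rw [h1, hH]; ring)⟩
    · exact absurd ⟨hrb, ho⟩ hc

theorem pell {k : Type} [Field k] (h2 : (2 : k) ≠ 0) (H Q : k[X])
    (h1 : X ^ 2 * Q - 1 = (X - 1) * H ^ 2)
    (hP : (X - 2) * (H.comp (2 - X)) ^ 2 - X * H ^ 2 = 1) : (3 : k) = 0 := by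
  set T := H.comp (2 - X) with hT
  have hH : H ≠ 0 := by
    rintro rfl
    simpa using congrArg (eval 0) h1
  have hd : T.natDegree = H.natDegree := by
    have : (2 - X : k[X]).natDegree = 1 := by
      rw [show (2 - X : k[X]) = -(X - C 2) by rw [neg_sub]; rfl, natDegree_neg, natDegree_X_sub_C]
    rw [hT, natDegree_comp, this, mul_one]
  have hD := congrArg derivative hP
  have hD1 := congrArg derivative h1
  simp only [derivative_sub, derivative_mul, derivative_X, derivative_sq, derivative_one,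
    derivative_ofNat, map_ofNat] at hD hD1
  have hco : IsCoprime T H := ⟨(X - 2) * T, -(X * H), by linear_combination hP⟩
  have hdv : T ∣ H + 2 * X * derivative H := by
    refine hco.dvd_of_dvd_mul_left ⟨T + 2 * (X - 2) * derivative T, ?_⟩
    linear_combination -hD
  obtain ⟨q, hq⟩ := hdv
  have hT0 : T ≠ 0 := by
    intro h
    rw [h] at hP
    simpa using congrArg (eval 0) hP
  have hqd : q.natDegree = 0 := by
    by_cases hq0 : q = 0
    · simp [hq0]
    have h3 : (H + 2 * X * derivative H).natDegree ≤ H.natDegree := by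
      refine natDegree_add_le_of_degree_le le_rfl ?_
      by_cases hH0 : H.natDegree = 0
      · rw [natDegree_eq_zero] at hH0
        obtain ⟨c, rfl⟩ := hH0
        simp
      · have h4 := natDegree_derivative_le H
        have h5 : (2 * X : k[X]).natDegree ≤ 1 := by compute_degree
        have := natDegree_mul_le (p := (2 * X : k[X])) (q := derivative H)
        omega
    rw [hq, natDegree_mul hT0 hq0] at h3
    omega
  obtain ⟨c, rfl⟩ := natDegree_eq_zero.1 hqd
  have hq' := congrArg derivative hq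
  simp only [derivative_add, derivative_mul, derivative_X, derivative_ofNat, derivative_C] at hq'
  have e1 := congrArg (eval 0) h1
  have e2 := congrArg (eval 0) hD1
  have e3 := congrArg (eval 0) hP
  have e4 := congrArg (eval 0) hD
  have e5 := congrArg (eval 0) hq
  have e6 := congrArg (eval 0) hq'
  simp only [eval_sub, eval_mul, eval_add, eval_pow, eval_X, eval_one, eval_ofNat, eval_C,
    eval_zero] at e1 e2 e3 e4 e5 e6
  generalize eval 0 H = a at *
  generalize eval 0 (derivative H) = a' at *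
  generalize eval 0 T = t at *
  generalize eval 0 (derivative T) = t' at *
  have f1 : a ^ 2 = 1 := by linear_combination e1
  have f2 : 2 * a * a' = 1 := by linear_combination e2 + f1
  have f3 : -2 * t ^ 2 = 1 := by linear_combination e3
  have f4 : t ^ 2 - 4 * t * t' = 1 := by linear_combination e4 + f1
  have f5 : a = t * c := by linear_combination e5
  have f6 : 3 * a' = t' * c := by linear_combination e6
  have f7 : c ^ 2 = -2 := by
    have : c ^ 2 * t ^ 2 = 1 := by rw [← f1, f5]; ring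
    linear_combination (-c ^ 2) * f3 - 2 * this
  have f8 : a ^ 2 - 4 * a * (3 * a') = c ^ 2 := by
    rw [f6, f5]; linear_combination c ^ 2 * f4
  linear_combination -f8 - f7 + f1 - 6 * f2

end Pool.Agent.MP_9b2bac_nt.Z.ZTree

end

section

set_option autoImplicit false

namespace Pool.Agent.MP_9b2bac_nt.Z

/-- The quadratic map with fixed points `0` and `μ`. -/
def gq {R : Type} [CommRing R] (μ v : R) : R := v * (μ + 1 - v)

/-- Vertices of level `m` of the two preimage trees with roots `μ + 1` and `1`. -/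
def Vert {R : Type} [CommRing R] (μ : R) (m : ℕ) (v : R) : Prop :=
  (gq μ)^[m] v = μ + 1 ∨ (gq μ)^[m] v = 1

namespace ZTree

section basic

variable {R S : Type} [CommRing R] [CommRing S]

theorem map_gq (φ : R →+* S) (μ v : R) : φ (gq μ v) = gq (φ μ) (φ v) := by simp [gq]

theorem map_it (φ : R →+* S) (μ : R) (m : ℕ) (v : R) :
    φ ((gq μ)^[m] v) = (gq (φ μ))^[m] (φ v) := by
  induction m generalizing v with
  | zero => rfl
  | succ m ih => rw [Function.iterate_succ_apply, Function.iterate_succ_apply, ih, map_gq]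

theorem vert_map (φ : R →+* S) {μ : R} {m : ℕ} {v : R} (h : Vert μ m v) :
    Vert (φ μ) m (φ v) := by
  rcases h with h | h
  · left; rw [← map_it, h]; simp
  · right; rw [← map_it, h]; simp

theorem vert_of_map (φ : R →+* S) (hφ : Function.Injective φ) {μ : R} {m : ℕ} {v : R}
    (h : Vert (φ μ) m (φ v)) : Vert μ m v := by
  rcases h with h | h
  · left; apply hφ; rw [map_it, h]; simp
  · right; apply hφ; rw [map_it, h]; simp

theorem vert_succ {μ : R} {m : ℕ} {v : R} : Vert μ (m + 1) v ↔ Vert μ m (gq μ v) := Iff.rfl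

theorem gq_sib (μ v : R) : gq μ (μ + 1 - v) = gq μ v := by simp only [gq]; ring

theorem it_neg (μ : R) (m : ℕ) (v : R) : (gq (-μ))^[m] (v - μ) = (gq μ)^[m] v - μ := by
  induction m generalizing v with
  | zero => rfl
  | succ m ih =>
    rw [Function.iterate_succ_apply, Function.iterate_succ_apply, ← ih]
    congr 1
    simp only [gq]; ring

theorem vert_neg {μ : R} {m : ℕ} {v : R} (h : Vert μ m v) : Vert (-μ) m (v - μ) := by
  rcases h with h | h
  · right; rw [it_neg, h]; ring
  · left; rw [it_neg, h]; ring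

theorem eq_or_sib [IsDomain R] {μ v w : R} (h : gq μ v = gq μ w) : v = w ∨ v = μ + 1 - w := by
  have : (v - w) * (v - (μ + 1 - w)) = 0 := by
    simp only [gq] at h; linear_combination -h
  rcases mul_eq_zero.1 this with h | h
  · exact Or.inl (sub_eq_zero.1 h)
  · exact Or.inr (sub_eq_zero.1 h)

theorem it_fix {μ v : R} (h : gq μ v = v) (m : ℕ) : (gq μ)^[m] v = v :=
  Function.iterate_fixed h m

end basic

open Polynomial

section poly

variable {k : Type} [Field k]

/-- The orbit of the critical value. -/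
noncomputable def PP (k : Type) [Field k] (m : ℕ) : k[X] :=
  (gq (X - 1 : k[X]))^[m] (C 4⁻¹ * X ^ 2)

theorem PP_succ (m : ℕ) : PP k (m + 1) = PP k m * (X - PP k m) := by
  rw [PP, Function.iterate_succ_apply', gq, sub_add_cancel]; rfl

theorem four_ne (h2 : (2 : k) ≠ 0) : (4 : k) ≠ 0 := by
  rw [show (4 : k) = 2 * 2 by norm_num]; exact mul_ne_zero h2 h2

theorem PP_deg (h2 : (2 : k) ≠ 0) (m : ℕ) : ∃ j, (PP k m).natDegree = 2 * (j + 1) := by
  induction m with
  | zero =>
    refine ⟨0, ?_⟩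
    show (C 4⁻¹ * X ^ 2 : k[X]).natDegree = _
    rw [natDegree_C_mul_X_pow 2 _ (inv_ne_zero (four_ne h2))]
  | succ m ih =>
    obtain ⟨j, hj⟩ := ih
    have h1 : (X - PP k m).natDegree = 2 * (j + 1) := by
      rw [natDegree_sub_eq_right_of_natDegree_lt (by rw [hj, natDegree_X]; omega), hj]
    have h3 : PP k m ≠ 0 := by intro h; simp [h] at hj
    have h4 : X - PP k m ≠ 0 := by intro h; simp [h] at h1
    exact ⟨2 * j + 1, by rw [PP_succ, natDegree_mul h3 h4, hj, h1]; ring⟩

theorem PP_dvd (m : ℕ) : ∃ Q, PP k m = X ^ (m + 2) * Q := by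
  induction m with
  | zero => exact ⟨C 4⁻¹, mul_comm _ _⟩
  | succ m ih =>
    obtain ⟨Q, hQ⟩ := ih
    exact ⟨Q * (1 - X ^ (m + 1) * Q), by rw [PP_succ, hQ]; ring⟩

theorem PP_map {S : Type} [CommRing S] (φ : k[X] →+* S) (m : ℕ) :
    φ (PP k m) = (gq (φ X - 1))^[m] (φ (C 4⁻¹) * φ X ^ 2) := by
  rw [PP, map_it]; simp

theorem PP_eval (r : k) (m : ℕ) : (PP k m).eval r = (gq (r - 1))^[m] (4⁻¹ * r ^ 2) := by
  simpa using PP_map (evalRingHom r) m

theorem odd_root [IsAlgClosed k] (h2 : (2 : k) ≠ 0) (M : ℕ) : ∃ (r : k) (e : ℕ) (f1 : k[X]),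
    Odd e ∧ PP k M - X = (X - C r) ^ e * f1 ∧ f1.eval r ≠ 0 ∧ r ≠ 1 ∧
      ∀ m < M, ¬ Vert (r - 1) m (4⁻¹ * r ^ 2) := by
  rcases M with _ | M
  · refine ⟨0, 1, C 4⁻¹ * X - 1, odd_one, ?_, by simp, zero_ne_one, by simp⟩
    show C 4⁻¹ * X ^ 2 - X = _
    simp only [map_zero]; ring
  obtain ⟨Q, hQ⟩ := PP_dvd (k := k) (M + 1)
  obtain ⟨j, hj⟩ := PP_deg h2 (M + 1)
  set D : k[X] := X ^ 2 * (X ^ M * Q) - 1 with hD
  have hXD : PP k (M + 1) - X = X * D := by rw [hQ, hD]; ring
  have hD0 : D.eval 0 = -1 := by simp [hD]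
  have hDne : D ≠ 0 := by intro h; simp [h] at hD0
  have hdeg : D.natDegree = 2 * j + 1 := by
    have := congrArg natDegree hXD
    rw [natDegree_sub_eq_left_of_natDegree_lt (by rw [hj, natDegree_X]; omega), hj,
      natDegree_mul X_ne_zero hDne, natDegree_X] at this
    omega
  rcases odd_or_sq 1 _ D rfl hDne with ⟨r, e, f1, hr, he, h1, h3⟩ | ⟨H, hH | hH⟩
  · have hr0 : r ≠ 0 := by
      rintro rfl
      rw [h1] at hD0
      simp [he.pos.ne'] at hD0
    have hM : (gq (r - 1))^[M + 1] (4⁻¹ * r ^ 2) = r := by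
      have := congrArg (eval r) hXD
      rw [h1, eval_sub, PP_eval] at this
      simpa [he.pos.ne', sub_eq_zero] using this
    refine ⟨r, e, X * f1, he, by rw [hXD, h1]; ring, by simp [hr0, h3], hr, fun m hm hv => ?_⟩
    obtain ⟨i, hi⟩ : ∃ i, M + 1 = i + 1 + m := ⟨M - m, by omega⟩
    rw [hi, Function.iterate_add_apply, Function.iterate_succ_apply] at hM
    rcases hv with hv | hv
    · rw [hv, show gq (r - 1) (r - 1 + 1) = 0 by simp [gq], it_fix (by simp [gq])] at hM
      exact hr0 hM.symm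
    · rw [hv, show gq (r - 1) 1 = r - 1 by simp [gq], it_fix (by simp [gq])] at hM
      simp at hM
  · have := congrArg natDegree hH
    rw [hdeg, natDegree_pow] at this
    omega
  · exfalso
    rw [map_one] at hH
    have h4 : (C 4⁻¹ * 4 : k[X]) = 1 := by
      rw [show (4 : k[X]) = C 4 from rfl, ← C_mul, inv_mul_cancel₀ (four_ne h2), C_1]
    have hs : (PP k (M + 1)).comp (2 - X) = PP k (M + 1) - (X - 1) := by
      have := PP_map (compRingHom (2 - X : k[X])) (M + 1)
      simp only [coe_compRingHom_apply, X_comp, C_comp] at this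
      rw [this, PP, ← it_neg]
      congr 1
      · congr 1; ring
      · linear_combination (1 - X) * h4
    have h5 := congrArg (fun f => f.comp (2 - X : k[X])) hXD
    simp only [hH, sub_comp, mul_comp, X_comp, pow_comp, one_comp, hs] at h5
    have hP : (X - 2) * (H.comp (2 - X)) ^ 2 - X * H ^ 2 = 1 := by
      refine mul_left_cancel₀ (a := X - 1) (by simpa using X_sub_C_ne_zero (1 : k)) ?_
      rw [hH] at hXD
      linear_combination hXD - h5
    have h3 := pell h2 H _ (hD.symm.trans hH) hP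
    have h6 := congrArg (eval 1) hXD
    rw [hH, eval_sub, PP_eval, Function.iterate_succ_apply] at h6
    have h7 : (4⁻¹ : k) = 1 := by
      rw [show (4 : k) = 1 by linear_combination h3, inv_one]
    rw [h7, show gq (1 - 1 : k) (1 * 1 ^ 2) = 0 by simp [gq], it_fix (by simp [gq])] at h6
    simp at h6

end poly

/-- `γ` fixes the levels up to `M` and exchanges exactly the children of `y`. -/
def Swap {Ω : Type} [CommRing Ω] (μ : Ω) (M : ℕ) (S : Set Ω) (γ : Ω → Ω) : Prop :=
  (∀ m ≤ M, ∀ v, Vert μ m v → γ v = v) ∧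
    ∀ v, Vert μ (M + 1) v → (gq μ v ∈ S → γ v = μ + 1 - v) ∧ (gq μ v ∉ S → γ v = v)

section series

variable {k : Type} [Field k]

open PowerSeries in
theorem sqrt_ps [IsAlgClosed k] (h2 : (2 : k) ≠ 0) (u : PowerSeries k)
    (hu : PowerSeries.constantCoeff u ≠ 0) (hθ : rescale (-1) u = u) :
    ∃ w : PowerSeries k, w ^ 2 = u ∧ rescale (-1) w = w := by
  obtain ⟨c, hc⟩ := IsAlgClosed.exists_pow_nat_eq (PowerSeries.constantCoeff u) two_pos
  have hc0 : c ≠ 0 := by rintro rfl; exact hu (by simpa using hc.symm)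
  obtain ⟨w, hw, -⟩ := HenselianRing.is_henselian (I := Ideal.span {(PowerSeries.X : k⟦X⟧)})
    (Polynomial.X ^ 2 - Polynomial.C u) (Polynomial.monic_X_pow_sub_C u two_ne_zero)
    (PowerSeries.C c) (by
      rw [Ideal.mem_span_singleton, PowerSeries.X_dvd_iff]; simp [hc]) (by
      refine IsUnit.map _ ?_
      rw [isUnit_iff_constantCoeff]
      simp [one_add_one_eq_two, map_ofNat, h2, hc0])
  have hw2 : w ^ 2 = u := by simpa [sub_eq_zero] using hw
  refine ⟨w, hw2, ?_⟩
  have h1 : (rescale (-1) w) ^ 2 = w ^ 2 := by rw [← map_pow, hw2, hθ]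
  rcases sq_eq_sq_iff_eq_or_eq_neg.1 h1 with h | h
  · exact h
  · exfalso
    have h3 := congrArg (PowerSeries.coeff 0) h
    simp only [coeff_rescale, pow_zero, one_mul, map_neg, coeff_zero_eq_constantCoeff_apply] at h3
    have h4 : PowerSeries.constantCoeff w = 0 := by
      have : 2 * PowerSeries.constantCoeff w = 0 := by linear_combination h3
      exact (mul_eq_zero.1 this).resolve_left h2
    exact hu (by rw [← hw2, map_pow, h4]; simp)

theorem child {R Ω : Type} [CommRing R] [CommRing Ω] [IsDomain Ω] (ι : R →+* Ω) {μ h x w : R}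
    (hh : 2 * h = μ + 1) (hw : w ^ 2 = h ^ 2 - x) {v : Ω} (hv : gq (ι μ) v = ι x) :
    v = ι (h + w) ∨ v = ι (h - w) := by
  have h1 : gq μ (h + w) = x := by
    simp only [gq]; linear_combination -hw - (h + w) * hh
  rw [← h1, map_gq] at hv
  rcases eq_or_sib hv with h2 | h2
  · exact Or.inl h2
  · right
    rw [h2, show h - w = μ + 1 - (h + w) by linear_combination hh]; simp

open PowerSeries in
theorem swap_ps [IsAlgClosed k] (h2 : (2 : k) ≠ 0) (M : ℕ) : ∃ r : k,
    ∀ (Ω : Type) [Field Ω] (ι : k⟦X⟧ →+* Ω) (θ : Ω →+* Ω), Function.Injective ι →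
      (∀ x, θ (ι x) = ι (rescale (-1) x)) →
      ∃ y, (gq (ι (PowerSeries.C r + PowerSeries.X ^ 2 - 1)))^[M] y =
          ι (PowerSeries.C r + PowerSeries.X ^ 2 - 1) + 1 ∧
        Swap (ι (PowerSeries.C r + PowerSeries.X ^ 2 - 1)) M {y} θ := by
  obtain ⟨r, e, f1, he, hP, hf1, hr1, hb⟩ := odd_root h2 M
  refine ⟨r, fun Ω _ ι θ hι hθ => ?_⟩
  have hM : (gq (r - 1))^[M] (4⁻¹ * r ^ 2) = r := by
    have := congrArg (eval r) hP
    rw [eval_sub, PP_eval] at this
    simpa [he.pos.ne', sub_eq_zero] using this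
  set μ : k⟦X⟧ := PowerSeries.C r + PowerSeries.X ^ 2 - 1 with hμ
  set h : k⟦X⟧ := PowerSeries.C 2⁻¹ * (μ + 1) with hh
  have hC : ∀ c : k, rescale (-1 : k) (PowerSeries.C c) = PowerSeries.C c := fun c => by
    ext n; rw [coeff_rescale, PowerSeries.coeff_C]; split_ifs with h <;> simp [h]
  have hX : rescale (-1 : k) (PowerSeries.X : k⟦X⟧) = -PowerSeries.X := by simp [rescale_X]
  have hθμ : rescale (-1 : k) μ = μ := by simp [hμ, hC, hX]
  have hθh : rescale (-1 : k) h = h := by simp [hh, hC, hθμ]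
  have hh2 : 2 * h = μ + 1 := by
    rw [hh, ← mul_assoc, show (2 : k⟦X⟧) = PowerSeries.C 2 from (map_ofNat _ 2).symm, ← map_mul,
      mul_inv_cancel₀ h2, map_one, one_mul]
  have hπμ : PowerSeries.constantCoeff μ = r - 1 := by simp [hμ]
  have hπh : PowerSeries.constantCoeff h = 2⁻¹ * r := by simp [hh, hπμ]
  have h4 : (2⁻¹ * r) ^ 2 = 4⁻¹ * r ^ 2 := by
    rw [show (4 : k) = 2 ^ 2 by norm_num, mul_pow, inv_pow]
  have hg0 : ∀ a : k, 2 * a = r → gq (r - 1) a = 4⁻¹ * r ^ 2 := fun a ha => by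
    rw [← ha, gq]; field_simp [four_ne h2]; ring
  have hsq : ∀ x : k⟦X⟧, rescale (-1) x = x → PowerSeries.constantCoeff x ≠ 4⁻¹ * r ^ 2 →
      ∃ w : k⟦X⟧, w ^ 2 = h ^ 2 - x ∧ rescale (-1) w = w := fun x hx hx' =>
    sqrt_ps h2 _ (by rw [map_sub, map_pow, hπh, h4]; exact sub_ne_zero.2 hx'.symm)
      (by simp [hθh, hx])
  have hv0 : ∀ m < M, ∀ x : k⟦X⟧, Vert μ m x → PowerSeries.constantCoeff x ≠ 4⁻¹ * r ^ 2 :=
    fun m hm x hx h' => hb m hm (by simpa only [hπμ, h'] using vert_map PowerSeries.constantCoeff hx)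
  have hA : ∀ m ≤ M, ∀ v, Vert (ι μ) m v → ∃ x : k⟦X⟧, rescale (-1) x = x ∧ ι x = v := by
    intro m
    induction m with
    | zero =>
      rintro - v (hv | hv)
      · exact ⟨μ + 1, by simp [hθμ], by simpa using hv.symm⟩
      · exact ⟨1, by simp, by simpa using hv.symm⟩
    | succ m ih =>
      intro hm v hv
      obtain ⟨x, hx, hxv⟩ := ih (by omega) _ (vert_succ.1 hv)
      obtain ⟨w, hw, hw'⟩ := hsq x hx (hv0 m (by omega) x
        (vert_of_map ι hι (hxv ▸ vert_succ.1 hv)))
      rcases child ι hh2 hw hxv.symm with h1 | h1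
      · exact ⟨h + w, by simp [hθh, hw'], h1.symm⟩
      · exact ⟨h - w, by simp [hθh, hw'], h1.symm⟩
  have hE : ∀ j i, i + j = M → ∃ x : k⟦X⟧, rescale (-1) x = x ∧ (gq μ)^[j] x = μ + 1 ∧
      PowerSeries.constantCoeff x = (gq (r - 1))^[i] (4⁻¹ * r ^ 2) := by
    intro j
    induction j with
    | zero =>
      intro i hi
      obtain rfl : i = M := hi
      exact ⟨μ + 1, by simp [hθμ], rfl, by simp [hπμ, hM]⟩
    | succ j ih =>
      intro i hi
      obtain ⟨x, hx, hx1, hx2⟩ := ih (i + 1) (by omega)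
      obtain ⟨w, hw, hw'⟩ := hsq x hx (hv0 j (by omega) x (Or.inl hx1))
      rw [Function.iterate_succ_apply', ← hπμ] at hx2
      have h1 : ∀ w' : k⟦X⟧, w' ^ 2 = h ^ 2 - x → gq μ (h + w') = x := fun w' hw => by
        simp only [gq]; linear_combination -hw - (h + w') * hh2
      rcases child PowerSeries.constantCoeff hh2 hw hx2.symm with h3 | h3
      · exact ⟨h + w, by simp [hθh, hw'], by rw [Function.iterate_succ_apply, h1 w hw, hx1],
          by rw [← hπμ, h3]⟩
      · exact ⟨h - w, by simp [hθh, hw'], by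
          rw [Function.iterate_succ_apply, sub_eq_add_neg, h1 (-w) (by rw [neg_sq, hw]), hx1],
          by rw [← hπμ, h3]⟩
  have hU : ∀ m ≤ M, ∀ x x' : k⟦X⟧, (gq μ)^[m] x = μ + 1 → (gq μ)^[m] x' = μ + 1 →
      PowerSeries.constantCoeff x = PowerSeries.constantCoeff x' → x = x' := by
    intro m
    induction m with
    | zero => intro _ x x' hx hx' _; exact hx.trans hx'.symm
    | succ m ih =>
      intro hm x x' hx hx' hc
      have h1 := ih (by omega) _ _ hx hx' (by rw [map_gq, map_gq, hc])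
      refine (eq_or_sib h1).resolve_right fun h3 => hv0 m (by omega) _ (Or.inl hx) ?_
      rw [map_gq, hπμ]
      refine hg0 _ ?_
      have := congrArg PowerSeries.constantCoeff h3
      simp only [map_sub, map_add, hπμ, map_one, ← hc] at this
      linear_combination this
  obtain ⟨y, hy, hy1, hy2⟩ := hE M 0 (zero_add M)
  replace hy2 : PowerSeries.constantCoeff y = 4⁻¹ * r ^ 2 := hy2
  have hV : ∀ i ≤ M, ∃ u : k⟦X⟧, PowerSeries.constantCoeff u ≠ 0 ∧
      (gq μ)^[i] (h ^ 2) - (gq μ)^[i] y = (h ^ 2 - y) * u := by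
    intro i
    induction i with
    | zero => exact fun _ => ⟨1, by simp, by simp⟩
    | succ i ih =>
      intro hi
      obtain ⟨u, hu, hu'⟩ := ih (by omega)
      refine ⟨u * (μ + 1 - (gq μ)^[i] (h ^ 2) - (gq μ)^[i] y), ?_, ?_⟩
      · rw [map_mul]
        refine mul_ne_zero hu fun h0 => ?_
        simp only [map_sub, map_add, map_it, hπμ, map_pow, hπh, h4, hy2, map_one] at h0
        have h1 := hg0 ((gq (r - 1))^[i] (4⁻¹ * r ^ 2)) (by linear_combination -h0)
        obtain ⟨j, hj⟩ : ∃ j, M = j + (i + 1) := ⟨M - (i + 1), by omega⟩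
        have h3 := hM
        rw [hj, Function.iterate_add_apply, Function.iterate_succ_apply', h1] at h3
        exact hb j (by omega) (Or.inl (by rw [h3]; ring))
      · rw [Function.iterate_succ_apply', Function.iterate_succ_apply', ← mul_assoc, ← hu']
        simp only [gq]; ring
  obtain ⟨u, hu, hu'⟩ := hV M le_rfl
  have hP' := congrArg (aeval (μ + 1) : k[X] →ₐ[k] k⟦X⟧) hP
  have hPP := PP_map (aeval (μ + 1) : k[X] →ₐ[k] k⟦X⟧).toRingHom M
  simp only [AlgHom.toRingHom_eq_coe, RingHom.coe_coe, aeval_X, aeval_C, add_sub_cancel_right]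
    at hPP
  have hk : algebraMap k k⟦X⟧ 4⁻¹ * (μ + 1) ^ 2 = h ^ 2 := by
    rw [hh, mul_pow, ← map_pow, show (2⁻¹ : k) ^ 2 = 4⁻¹ by
      rw [show (4 : k) = 2 ^ 2 by norm_num, inv_pow]]
    rfl
  rw [map_sub, hPP, hk, aeval_X, map_mul, map_pow, map_sub, aeval_X, aeval_C,
    show μ + 1 - algebraMap k k⟦X⟧ r = PowerSeries.X ^ 2 by
      rw [hμ, show algebraMap k k⟦X⟧ r = PowerSeries.C r from rfl]; ring] at hP'
  have hu1 : PowerSeries.constantCoeff (aeval (μ + 1) f1 : k⟦X⟧) ≠ 0 := by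
    have : (PowerSeries.constantCoeff : k⟦X⟧ →+* k).comp (aeval (μ + 1) : k[X] →ₐ[k] k⟦X⟧).toRingHom =
        evalRingHom r := by
      refine Polynomial.ringHom_ext (fun a => ?_) ?_
      · simp [show algebraMap k k⟦X⟧ a = PowerSeries.C a from rfl]
      · simp [hπμ]
    rw [← coe_evalRingHom, ← this] at hf1
    exact hf1
  set u1 : k⟦X⟧ := aeval (μ + 1) f1 * u⁻¹ with hu1'
  have hy3 : h ^ 2 - y = (PowerSeries.X ^ 2) ^ e * u1 := by
    rw [hu1', ← mul_assoc, ← hP', ← hy1, hu', mul_assoc, PowerSeries.mul_inv_cancel _ hu, mul_one]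
  have hθu : rescale (-1 : k) u1 = u1 := by
    have := congrArg (rescale (-1 : k)) hy3
    rw [map_sub, map_pow, hθh, hy, hy3, map_mul, map_pow, map_pow, hX, neg_sq] at this
    exact (mul_left_cancel₀ (by simp [PowerSeries.X_ne_zero]) this).symm
  obtain ⟨w1, hw1, hw1'⟩ := sqrt_ps h2 u1 (by simp [hu1', hu1, hu]) hθu
  have hw : (PowerSeries.X ^ e * w1) ^ 2 = h ^ 2 - y := by rw [hy3, ← hw1]; ring
  have hw' : rescale (-1 : k) (PowerSeries.X ^ e * w1) = -(PowerSeries.X ^ e * w1) := by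
    rw [map_mul, map_pow, hX, hw1', he.neg_pow]; ring
  refine ⟨ι y, by rw [← map_it, hy1]; simp, fun m hm v hv => ?_, fun v hv => ?_⟩
  · obtain ⟨x, hx, rfl⟩ := hA m hm v hv
    rw [hθ, hx]
  obtain ⟨x, hx, hxv⟩ := hA M le_rfl _ (vert_succ.1 hv)
  rw [← hxv, Set.mem_singleton_iff, hι.eq_iff]
  refine ⟨fun hxy => ?_, fun hxy => ?_⟩
  · subst hxy
    rw [← map_one ι, ← map_add, ← hh2]
    rcases child ι hh2 hw hxv.symm with h1 | h1 <;>
    · rw [h1, hθ, ← map_sub]
      congr 1
      simp only [map_add, map_sub, hθh, hw']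
      ring
  · have hx0 : PowerSeries.constantCoeff x ≠ 4⁻¹ * r ^ 2 := fun h0 => by
      rcases vert_of_map ι hι (hxv ▸ vert_succ.1 hv) with h1 | h1
      · exact hxy (hU M le_rfl _ _ h1 hy1 (h0.trans hy2.symm))
      · have := congrArg PowerSeries.constantCoeff h1
        rw [map_it, hπμ, h0, hM, map_one] at this
        exact hr1 this
    obtain ⟨w, hw, hw'⟩ := hsq x hx hx0
    rcases child ι hh2 hw hxv.symm with h1 | h1 <;>
    · rw [h1, hθ]; simp [hθh, hw']

end series

theorem pull {O Ω : Type} [Field O] [IsAlgClosed O] [Field Ω] (ψ : O →+* Ω) (μ : O) (m : ℕ) :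
    ∀ v, Vert (ψ μ) m v → ∃ v0, ψ v0 = v := by
  induction m with
  | zero =>
    rintro v (hv | hv)
    · exact ⟨μ + 1, by simpa using hv.symm⟩
    · exact ⟨1, by simpa using hv.symm⟩
  | succ m ih =>
    intro v hv
    obtain ⟨x, hx⟩ := ih _ (vert_succ.1 hv)
    obtain ⟨z, hz⟩ := IsAlgClosed.exists_root (C 1 * X ^ 2 + C (-(μ + 1)) * X + C x : O[X])
      (by rw [degree_quadratic one_ne_zero]; simp)
    have h1 : gq μ z = x := by
      simp only [IsRoot.def, eval_add, eval_mul, eval_C, eval_pow, eval_X] at hz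
      simp only [gq]; linear_combination -hz
    rw [← h1, map_gq] at hx
    rcases eq_or_sib hx.symm with h | h
    · exact ⟨z, h.symm⟩
    · exact ⟨μ + 1 - z, by simp [h]⟩

variable (k : Type) {Ω : Type} [Field k] [Field Ω] [Algebra k Ω]

/-- Automorphisms over `k (μ)`. -/
def Fix (μ : Ω) (γ : Ω ≃+* Ω) : Prop :=
  (∀ c : k, γ (algebraMap k Ω c) = algebraMap k Ω c) ∧ γ μ = μ

variable {k}

theorem Fix.refl (μ : Ω) : Fix k μ (RingEquiv.refl Ω) := ⟨fun _ => rfl, rfl⟩

theorem Fix.trans {μ : Ω} {γ δ : Ω ≃+* Ω} (h : Fix k μ γ) (h' : Fix k μ δ) :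
    Fix k μ (γ.trans δ) := ⟨fun c => by simp [h.1, h'.1], by simp [h.2, h'.2]⟩

theorem Fix.symm {μ : Ω} {γ : Ω ≃+* Ω} (h : Fix k μ γ) : Fix k μ γ.symm :=
  ⟨fun c => γ.symm_apply_eq.2 (h.1 c).symm, γ.symm_apply_eq.2 h.2.symm⟩

theorem Fix.gq {μ : Ω} {γ : Ω ≃+* Ω} (h : Fix k μ γ) (v : Ω) : γ (gq μ v) = gq μ (γ v) := by
  simp [Z.gq, h.2]

theorem Fix.vert {μ : Ω} {γ : Ω ≃+* Ω} (h : Fix k μ γ) {m : ℕ} {v : Ω} (hv : Vert μ m v) :
    Vert μ m (γ v) := by
  simpa [h.2] using vert_map γ.toRingHom hv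

theorem inj_aeval {μ : Ω} (hμ : Transcendental k μ) :
    Function.Injective (aeval (μ + 1) : k[X] →ₐ[k] Ω) := by
  refine transcendental_iff_injective.1 fun h => hμ ?_
  simpa using h.sub (isAlgebraic_one (R := k) (A := Ω))

theorem swap_one [IsAlgClosed k] [IsAlgClosed Ω] (h2 : (2 : k) ≠ 0) {μ : Ω}
    (hμ : Transcendental k μ) (M : ℕ) :
    ∃ y γ, Fix k μ γ ∧ (gq μ)^[M] y = μ + 1 ∧ Swap μ M {y} γ := by
  obtain ⟨r, hr⟩ := swap_ps h2 M
  let F := FractionRing (PowerSeries k)
  let Ω' := AlgebraicClosure F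
  have hi : Function.Injective (algebraMap (PowerSeries k) Ω') := by
    rw [IsScalarTower.algebraMap_eq (PowerSeries k) F Ω', RingHom.coe_comp]
    exact (algebraMap F Ω').injective.comp (IsFractionRing.injective _ F)
  haveI : Algebra.IsAlgebraic (PowerSeries k) Ω' := by
    haveI : Algebra.IsAlgebraic (PowerSeries k) F :=
      IsLocalization.isAlgebraic _ (nonZeroDivisors _)
    exact Algebra.IsAlgebraic.trans (PowerSeries k) F Ω'
  obtain ⟨θ, hθ⟩ := lift_hom hi ((algebraMap _ Ω').comp (PowerSeries.rescale (-1)))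
    (hi.comp (PowerSeries.rescale_injective (by simp)))
  obtain ⟨y', hy', hS⟩ := hr Ω' _ θ hi hθ
  let a1 : k[X] →+* PowerSeries k :=
    coeToPowerSeries.ringHom.comp (compRingHom (C r + X ^ 2))
  have ha1 : Function.Injective a1 := by
    rw [injective_iff_map_eq_zero]
    intro f hf
    have : f.comp (C r + X ^ 2) = 0 := by simpa [a1] using hf
    refine (comp_eq_zero_iff.1 this).resolve_right fun h => ?_
    have := congrArg (coeff · 2) h.2
    simp [coeff_C] at this
  have ha2 : (PowerSeries.rescale (-1)).comp a1 = a1 := by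
    refine Polynomial.ringHom_ext (fun a => ?_) ?_
    · ext n
      simp only [a1, RingHom.comp_apply, coe_compRingHom_apply, C_comp,
        coeToPowerSeries.ringHom_apply, PowerSeries.coeff_rescale, coeff_coe, coeff_C]
      split_ifs with h <;> simp [h]
    · ext n
      simp only [a1, RingHom.comp_apply, coe_compRingHom_apply, X_comp,
        coeToPowerSeries.ringHom_apply, PowerSeries.coeff_rescale, coeff_coe, coeff_C, coeff_add,
        coeff_X_pow]
      split_ifs with h h' h' <;> simp_all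
  obtain ⟨O, _, _, a0, ψ, ψ', γ0, γ, h1, h3, h4, h5, h6⟩ := transfer k Ω Ω'
    (aeval (μ + 1) : k[X] →ₐ[k] Ω).toRingHom ((algebraMap _ Ω').comp a1) (inj_aeval hμ)
    (hi.comp ha1) θ (fun f => by
      rw [RingHom.comp_apply, hθ, RingHom.comp_apply, ← RingHom.comp_apply _ a1, ha2])
  have e1 : ψ (a0 (X - 1)) = μ := by rw [h1]; simp
  have e2 : ψ' (a0 (X - 1)) =
      algebraMap _ Ω' (PowerSeries.C r + PowerSeries.X ^ 2 - 1 : PowerSeries k) := by
    rw [h3]; simp [a1]
  rw [← e2] at hy' hS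
  generalize a0 (X - 1) = μ0 at e1 hy' hS
  obtain ⟨y0, rfl⟩ := pull ψ' μ0 M y' (Or.inl hy')
  have hy0 : (gq μ0)^[M] y0 = μ0 + 1 := ψ'.injective (by rw [map_it, hy']; simp)
  refine ⟨ψ y0, γ, ⟨fun c => by simpa using h4 (C c), by simpa using h4 X⟩,
    by rw [← e1, ← map_it, hy0]; simp, fun m hm v hv => ?_, fun v hv => ?_⟩
  · rw [← e1] at hv
    obtain ⟨v0, rfl⟩ := pull ψ μ0 m v hv
    have := hS.1 m hm _ (vert_map ψ' (vert_of_map ψ ψ.injective hv))
    rw [h6, ψ'.injective.eq_iff] at this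
    rw [h5, this]
  · rw [← e1] at hv ⊢
    obtain ⟨v0, rfl⟩ := pull ψ μ0 _ v hv
    have := hS.2 _ (vert_map ψ' (vert_of_map ψ ψ.injective hv))
    rw [h6, ← map_gq, Set.mem_singleton_iff, ← map_one ψ', ← map_add, ← map_sub] at this
    rw [h5, ← map_gq, Set.mem_singleton_iff, ← map_one ψ, ← map_add, ← map_sub]
    simpa only [ψ.injective.eq_iff, ψ'.injective.eq_iff] using this

theorem swap_root [IsAlgClosed k] [IsAlgClosed Ω] (h2 : (2 : k) ≠ 0) {μ : Ω}
    (hμ : Transcendental k μ) (M : ℕ) {c : Ω} (hc : c = μ + 1 ∨ c = 1) :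
    ∃ y γ, Fix k μ γ ∧ (gq μ)^[M] y = c ∧ Swap μ M {y} γ := by
  rcases hc with rfl | rfl
  · exact swap_one h2 hμ M
  obtain ⟨y, γ, hγ, hy, hS⟩ := swap_one h2 (μ := -μ) (fun h => hμ (by simpa using h.neg)) M
  have hγμ : γ μ = μ := by simpa using hγ.2
  refine ⟨y + μ, γ, ⟨hγ.1, hγμ⟩, ?_, fun m hm v hv => ?_, fun v hv => ?_⟩
  · have := it_neg μ M (y + μ)
    rw [add_sub_cancel_right, hy] at this
    linear_combination -this
  · simpa [hγμ] using hS.1 m hm _ (vert_neg hv)
  · have := hS.2 _ (vert_neg hv)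
    have h1 : gq (-μ) (v - μ) = gq μ v - μ := it_neg μ 1 v
    rw [h1, map_sub, hγμ, Set.mem_singleton_iff, sub_eq_iff_eq_add] at this
    exact ⟨fun h => by linear_combination this.1 h, fun h => by linear_combination this.2 h⟩

theorem conj {μ : Ω} {M : ℕ} {y : Ω} {γ δ : Ω ≃+* Ω} (hδ : Fix k μ δ) (hS : Swap μ M {y} γ) :
    Swap μ M {δ y} (δ.symm.trans (γ.trans δ)) := by
  refine ⟨fun m hm v hv => ?_, fun v hv => ?_⟩
  · simp [hS.1 m hm _ (hδ.symm.vert hv)]
  · have := hS.2 _ (hδ.symm.vert hv)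
    rw [← hδ.symm.gq, Set.mem_singleton_iff, RingEquiv.symm_apply_eq] at this
    exact ⟨fun h => by simp [this.1 h, hδ.2], fun h => by simp [this.2 h]⟩

theorem trans_level [IsAlgClosed k] [IsAlgClosed Ω] (h2 : (2 : k) ≠ 0) {μ : Ω}
    (hμ : Transcendental k μ) {c : Ω} (hc : c = μ + 1 ∨ c = 1) (M : ℕ) :
    ∀ y y', (gq μ)^[M] y = c → (gq μ)^[M] y' = c → ∃ γ, Fix k μ γ ∧ γ y = y' := by
  induction M with
  | zero => exact fun y y' h h' => ⟨_, Fix.refl μ, h.trans h'.symm⟩
  | succ M ih =>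
    intro y y' h h'
    obtain ⟨γ, hγ, h1⟩ := ih _ _ h h'
    rw [hγ.gq] at h1
    rcases eq_or_sib h1 with h3 | h3
    · exact ⟨γ, hγ, h3⟩
    obtain ⟨z, σ, hσ, hz, hS⟩ := swap_root h2 hμ M hc
    obtain ⟨δ, hδ, h4⟩ := ih _ _ hz h'
    refine ⟨γ.trans _, hγ.trans (hδ.symm.trans (hσ.trans hδ)), ?_⟩
    have hv : Vert μ (M + 1) (γ y) := hγ.vert (by rcases hc with rfl | rfl; exacts [.inl h, .inr h])
    rw [RingEquiv.trans_apply, ((conj hδ hS).2 _ hv).1 (by rw [h1, h4]; rfl), h3]
    ring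

theorem swap_set [IsAlgClosed k] [IsAlgClosed Ω] (h2 : (2 : k) ≠ 0) {μ : Ω}
    (hμ : Transcendental k μ) (M : ℕ) {S : Set Ω} (hS : S.Finite) :
    (∀ y ∈ S, Vert μ M y) → ∃ γ, Fix k μ γ ∧ Swap μ M S γ := by
  induction S, hS using Set.Finite.induction_on with
  | empty => exact fun _ => ⟨_, Fix.refl μ, fun _ _ _ _ => rfl, fun _ _ => ⟨by simp, fun _ => rfl⟩⟩
  | @insert y S hy _ ih =>
    intro h
    obtain ⟨γ, hγ, h1⟩ := ih fun z hz => h z (Set.mem_insert_of_mem _ hz)
    obtain ⟨c, hc, hyc⟩ : ∃ c, (c = μ + 1 ∨ c = 1) ∧ (gq μ)^[M] y = c :=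
      ⟨_, h y (Set.mem_insert _ _), rfl⟩
    obtain ⟨z, σ, hσ, hz, hS⟩ := swap_root h2 hμ M hc
    obtain ⟨δ, hδ, rfl⟩ := trans_level h2 hμ hc M _ _ hz hyc
    have h3 := conj hδ hS
    have h4 := hδ.symm.trans (hσ.trans hδ)
    generalize δ.symm.trans (σ.trans δ) = τ at h3 h4
    refine ⟨γ.trans τ, hγ.trans h4, fun m hm v hv => ?_, fun v hv => ⟨fun hv' => ?_, fun hv' => ?_⟩⟩
    · rw [RingEquiv.trans_apply, h1.1 m hm v hv, h3.1 m hm v hv]
    · rcases hv' with h5 | h5
      · rw [RingEquiv.trans_apply, (h1.2 v hv).2 (h5 ▸ hy), (h3.2 v hv).1 h5]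
      · rw [RingEquiv.trans_apply, (h1.2 v hv).1 h5, (h3.2 _ (by rwa [vert_succ, gq_sib])).2]
        rw [gq_sib]
        exact fun h6 => hy ((show gq μ v = δ z from h6) ▸ h5)
    · rw [Set.mem_insert_iff, not_or] at hv'
      rw [RingEquiv.trans_apply, (h1.2 v hv).2 hv'.2, (h3.2 v hv).2 hv'.1]

theorem finite_vert (μ : Ω) (m : ℕ) : {v | Vert μ m v}.Finite := by
  induction m with
  | zero => exact (Set.toFinite {μ + 1, 1}).subset fun v hv => hv
  | succ m ih =>
    refine ih.preimage' (f := gq μ) fun b _ => ?_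
    by_cases h : ∃ w, gq μ w = b
    · obtain ⟨w, rfl⟩ := h
      exact (Set.toFinite {w, μ + 1 - w}).subset fun v hv => eq_or_sib hv
    · exact Set.finite_empty.subset fun v hv => h ⟨v, hv⟩

theorem ne_sib (h2 : (2 : k) ≠ 0) {μ : Ω} (hμ : Transcendental k μ) {m : ℕ} {v : Ω}
    (hv : Vert μ (m + 1) v) : v ≠ μ + 1 - v := by
  intro h
  have hP := PP_map (aeval (μ + 1) : k[X] →ₐ[k] Ω).toRingHom m
  simp only [AlgHom.toRingHom_eq_coe, RingHom.coe_coe, aeval_X, aeval_C, add_sub_cancel_right]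
    at hP
  have h4 : algebraMap k Ω 4⁻¹ * 4 = 1 := by
    rw [← map_ofNat (algebraMap k Ω) 4, ← map_mul, inv_mul_cancel₀ (four_ne h2), map_one]
  have h1 : gq μ v = algebraMap k Ω 4⁻¹ * (μ + 1) ^ 2 := by
    rw [show μ + 1 = 2 * v by linear_combination -h, gq, ← h]
    linear_combination -v ^ 2 * h4
  obtain ⟨j, hj⟩ := PP_deg h2 m
  rw [vert_succ, Vert, h1, ← hP] at hv
  rcases hv with hv | hv
  · have : PP k m = X := inj_aeval hμ (by rw [hv]; simp)
    rw [this, natDegree_X] at hj
    omega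
  · have : PP k m = 1 := inj_aeval hμ (by rw [hv]; simp)
    rw [this, natDegree_one] at hj
    omega

end ZTree

open ZTree in
theorem tree_odd (k Ω : Type) [Field k] [IsAlgClosed k] (h2 : (2 : k) ≠ 0) [Field Ω]
    [IsAlgClosed Ω] [Algebra k Ω] (μ : Ω) (hμ : Transcendental k μ) (M : ℕ) (lab : Ω → Bool)
    (hlab : ∀ m v v', Vert μ (m + 1) v → gq μ v = gq μ v' → v ≠ v' → lab v ≠ lab v')
    (flip : Ω → Bool) :
    ∃ γ : Ω ≃+* Ω, (∀ c : k, γ (algebraMap k Ω c) = algebraMap k Ω c) ∧ γ μ = μ ∧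
      ∀ m, m < M → ∀ v, Vert μ (m + 1) v → lab (γ v) = xor (lab v) (flip (gq μ v)) := by
  suffices h : ∃ γ : Ω ≃+* Ω, Fix k μ γ ∧
      ∀ m, m < M → ∀ v, Vert μ (m + 1) v → lab (γ v) = xor (lab v) (flip (gq μ v)) by
    obtain ⟨γ, hγ, h⟩ := h
    exact ⟨γ, hγ.1, hγ.2, h⟩
  have hs : ∀ m v, Vert μ (m + 1) v → lab (μ + 1 - v) = !lab v := fun m v hv => by
    have := hlab m v _ hv (gq_sib μ v).symm (ne_sib h2 hμ hv)
    revert this
    cases lab v <;> cases lab (μ + 1 - v) <;> simp
  induction M with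
  | zero => exact ⟨_, Fix.refl μ, by simp⟩
  | succ M ih =>
    obtain ⟨γ, hγ, h⟩ := ih
    obtain ⟨σ, hσ, hS⟩ := swap_set h2 hμ M (S := {x | Vert μ M x ∧ ∃ v, gq μ v = x ∧
      lab (γ v) ≠ xor (lab v) (flip x)}) ((finite_vert μ M).subset fun _ h => h.1) fun _ h => h.1
    refine ⟨σ.trans γ, hσ.trans hγ, fun m hm v hv => ?_⟩
    rw [RingEquiv.trans_apply]
    rcases Nat.lt_succ_iff_lt_or_eq.1 hm with hm | rfl
    · rw [hS.1 _ hm v hv, h m hm v hv]
    have h1 : lab (γ (μ + 1 - v)) = !lab (γ v) := by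
      rw [map_sub, map_add, map_one, hγ.2, hs m _ (hγ.vert hv)]
    by_cases hw : lab (γ v) = xor (lab v) (flip (gq μ v))
    · rw [(hS.2 v hv).2, hw]
      rintro ⟨-, w, hw1, hw2⟩
      rcases eq_or_sib hw1 with rfl | rfl
      · exact hw2 hw
      · rw [h1, hs m v hv, hw] at hw2
        simp at hw2
    · rw [(hS.2 v hv).1 ⟨hv, v, rfl, hw⟩, h1]
      revert hw
      cases lab (γ v) <;> cases xor (lab v) (flip (gq μ v)) <;> simp

theorem tree (k Ω : Type) [Field k] [IsAlgClosed k] [CharZero k] [Field Ω] [IsAlgClosed Ω]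
    [Algebra k Ω] (μ : Ω) (hμ : Transcendental k μ) (M : ℕ) (lab : Ω → Bool)
    (hlab : ∀ m v v', Vert μ (m + 1) v → gq μ v = gq μ v' → v ≠ v' → lab v ≠ lab v')
    (flip : Ω → Bool) :
    ∃ γ : Ω →+* Ω, (∀ c : k, γ (algebraMap k Ω c) = algebraMap k Ω c) ∧ γ μ = μ ∧
      ∀ m, m < M → ∀ v, Vert μ (m + 1) v → lab (γ v) = xor (lab v) (flip (gq μ v)) := by
  obtain ⟨γ, h⟩ := tree_odd k Ω two_ne_zero μ hμ M lab hlab flip
  exact ⟨γ.toRingHom, h⟩

end Pool.Agent.MP_9b2bac_nt.Z

end

section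

/- Permuting the roots. -/

set_option autoImplicit false

namespace Pool.Agent.MP_9b2bac_nt.Z

open Finset

variable {d : ℕ} {I : Finset ℕ}
variable {A : Type} [CommRing A] [IsDomain A]

variable (A) in
/-- Permuting the variables. -/
noncomputable def tauA (π : Equiv.Perm (Fin d)) : AA A d ≃+* AA A d :=
  (MvPolynomial.renameEquiv A π).toRingEquiv

theorem tauA_X (π : Equiv.Perm (Fin d)) (j : Fin d) :
    tauA A π (MvPolynomial.X j) = MvPolynomial.X (π j) := by simp [tauA]

theorem tauA_Dl (π : Equiv.Perm (Fin d)) : tauA A π (Dl A d) = Dl A d := by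
  rw [Dl, map_prod]
  refine prod_equiv (π.prodCongr π) (fun p => ?_) fun p _ => ?_
  · simp [mem_offDiag]
  · simp [tauA_X]

variable (A) in
/-- The induced map on the coefficient ring. -/
noncomputable def tauB (π : Equiv.Perm (Fin d)) : BB A d ≃+* BB A d :=
  IsLocalization.ringEquivOfRingEquiv (M := Submonoid.powers (Dl A d))
    (T := Submonoid.powers (Dl A d)) _ _ (tauA A π) (by
      rw [Submonoid.map_powers]; exact congrArg _ (tauA_Dl π))

theorem tauB_alg (π : Equiv.Perm (Fin d)) (a : AA A d) :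
    tauB A π (algebraMap _ _ a) = algebraMap _ _ (tauA A π a) :=
  IsLocalization.ringEquivOfRingEquiv_eq _ a

theorem map_inverse_of_unit {B B' : Type} [CommRing B] [CommRing B'] (f : B →+* B') {u : B}
    (hu : IsUnit u) : f (Ring.inverse u) = Ring.inverse (f u) := by
  obtain ⟨u, rfl⟩ := hu
  rw [Ring.inverse_unit, show f u = Units.map (f : B →* B') u from rfl, Ring.inverse_unit]
  rfl

theorem NF.congr {C : Type} [CommRing C] {t t' : Fin d → Fin d → C} {w : Seq d → Fin d → C}
    {ξ : Seq d → C} (h : NF t w ξ) (e : ∀ j k, j ≠ k → t j k = t' j k) : NF t' w ξ :=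
  ⟨fun s j hj => e _ _ hj ▸ h.off s j hj, h.sum, h.diag⟩

theorem w0_perm (π : Equiv.Perm (Fin d)) (s : Seq d) (j : Fin d) :
    PowerSeries.map (tauB A π : BB A d →+* BB A d) (w0 A s j) = w0 A (π ∘ s) (π j) := by
  have h1 := ((nf0 A).map (PowerSeries.map (tauB A π : BB A d →+* BB A d))).congr
    (t' := fun j k => t0 A (π j) (π k)) fun j k h => by
      simp only [t0, map_mul, PowerSeries.map_X, PowerSeries.map_C]
      rw [map_inverse_of_unit _ (lB_unit h), map_sub]
      simp only [lB, RingHom.coe_coe, tauB_alg, tauA_X]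
  have h2 : NF (fun j k => t0 A (π j) (π k)) (fun s j => w0 A (π ∘ s) (π j))
      (fun s => xi0 A (π ∘ s)) :=
    ⟨fun s j hj => (nf0 A).off (π ∘ s) (π j) (π.injective.ne hj),
      fun s => (Equiv.sum_comp π _).trans ((nf0 A).sum _), fun s => (nf0 A).diag (π ∘ s)⟩
  exact congrFun (congrFun (NF.unique PowerSeries.X ps_haus
    (fun j k h => (t0_dvd A) _ _ (π.injective.ne h)) h1 h2).1 s) j

theorem Per.comp {n : ℕ} {s : Seq d} (h : Per n s) (π : Equiv.Perm (Fin d)) : Per n (π ∘ s) :=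
  ⟨h.1, fun i => congrArg π (h.2.1 i), π.surjective.comp h.2.2⟩

/-- Relabelling the letters. -/
def relW (I : Finset ℕ) (π : Equiv.Perm (Fin d)) : Equiv.Perm (W d I) where
  toFun s := ⟨π ∘ s.1, let ⟨n, hn, h⟩ := s.2; ⟨n, hn, h.comp π⟩⟩
  invFun s := ⟨π.symm ∘ s.1, let ⟨n, hn, h⟩ := s.2; ⟨n, hn, h.comp π.symm⟩⟩
  left_inv s := Subtype.ext (funext fun i => by simp)
  right_inv s := Subtype.ext (funext fun i => by simp)

theorem relW_sh (π : Equiv.Perm (Fin d)) (s : W d I) :
    relW I π (shW d I s) = shW d I (relW I π s) := rfl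

theorem tauC_alg (π : Equiv.Perm (Fin d)) (a : Polynomial (AA A d)) :
    PowerSeries.map (tauB A π : BB A d →+* BB A d) (algebraMap _ _ a) =
      algebraMap _ _ (a.map (tauA A π : AA A d →+* AA A d)) := by
  have : (PowerSeries.map (tauB A π : BB A d →+* BB A d)).comp (algebraMap (Polynomial (AA A d)) _) =
      (algebraMap _ _).comp (Polynomial.mapRingHom (tauA A π : AA A d →+* AA A d)) :=
    Polynomial.ringHom_ext (fun a => by simp [alg_C, tauB_alg]) (by simp [alg_X])
  exact DFunLike.congr_fun this a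

theorem tauC_mem (π : Equiv.Perm (Fin d)) (r : RR A d I) :
    PowerSeries.map (tauB A π : BB A d →+* BB A d) r ∈ RR A d I := by
  obtain ⟨r, hr⟩ := r
  induction hr using Algebra.adjoin_induction with
  | mem x hx =>
    obtain ⟨⟨s, j⟩, rfl⟩ := hx
    exact (w0_perm (A := A) π s.1 j).symm ▸ (zw A (relW I π s) (π j)).2
  | algebraMap a => exact (tauC_alg π a).symm ▸ Subalgebra.algebraMap_mem _ _
  | add x y _ _ hx hy => rw [map_add]; exact add_mem hx hy
  | mul x y _ _ hx hy => rw [map_mul]; exact mul_mem hx hy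

variable (A) in
/-- The induced map on the ring of solutions. -/
noncomputable def th0 (I : Finset ℕ) (π : Equiv.Perm (Fin d)) : RR A d I →+* RR A d I :=
  ((PowerSeries.map (tauB A π : BB A d →+* BB A d)).comp (RR A d I).val.toRingHom).codRestrict
    (RR A d I).toSubring (tauC_mem π)

theorem th0_zw (π : Equiv.Perm (Fin d)) (s : W d I) (j : Fin d) :
    th0 A I π (zw A s j) = zw A (relW I π s) (π j) := Subtype.ext (w0_perm π s.1 j)

theorem th0_alg (π : Equiv.Perm (Fin d)) (a : Polynomial (AA A d)) :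
    th0 A I π (algebraMap _ _ a) = algebraMap _ _ (a.map (tauA A π : AA A d →+* AA A d)) :=
  Subtype.ext (tauC_alg π a)

theorem th0_bij (π : Equiv.Perm (Fin d)) : Function.Bijective (th0 A I π) := by
  refine ⟨fun a b h => Subtype.ext (PowerSeries.map_injective _ (tauB A π).injective
    (congrArg Subtype.val h)), ?_⟩
  rintro ⟨r, hr⟩
  induction hr using Algebra.adjoin_induction with
  | mem x hx =>
    obtain ⟨⟨s, j⟩, rfl⟩ := hx
    refine ⟨zw A ((relW I π).symm s) (π.symm j), ?_⟩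
    rw [th0_zw, Equiv.apply_symm_apply, Equiv.apply_symm_apply]; rfl
  | algebraMap a =>
    obtain ⟨b, rfl⟩ := Polynomial.map_surjective (tauA A π : AA A d →+* AA A d) (tauA A π).surjective a
    exact ⟨_, th0_alg π b⟩
  | add x y _ _ hx hy =>
    obtain ⟨a, ha⟩ := hx; obtain ⟨b, hb⟩ := hy
    exact ⟨a + b, by rw [map_add, ha, hb]; rfl⟩
  | mul x y _ _ hx hy =>
    obtain ⟨a, ha⟩ := hx; obtain ⟨b, hb⟩ := hy
    exact ⟨a * b, by rw [map_mul, ha, hb]; rfl⟩

variable (A) in
/-- The induced automorphism of the ring of solutions. -/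
noncomputable def th (I : Finset ℕ) (π : Equiv.Perm (Fin d)) : RR A d I ≃+* RR A d I :=
  RingEquiv.ofBijective _ (th0_bij π)

theorem th_zw (π : Equiv.Perm (Fin d)) (s : W d I) (j : Fin d) :
    th A I π (zw A s j) = zw A (relW I π s) (π j) := th0_zw π s j

theorem th_alg (π : Equiv.Perm (Fin d)) (a : Polynomial (AA A d)) :
    th A I π (algebraMap _ _ a) = algebraMap _ _ (a.map (tauA A π : AA A d →+* AA A d)) := th0_alg π a

theorem relW_norm (π : Equiv.Perm (Fin d)) (g : GG A d I) :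
    ∃ g' : GG A d I, ∀ w, relW I π (g • w) = g' • relW I π w := by
  let g' : GG A d I := AlgEquiv.ofRingEquiv (f := ((th A I π).symm.trans g.toRingEquiv).trans (th A I π))
    fun a => by
      obtain ⟨b, rfl⟩ := Polynomial.map_surjective (tauA A π : AA A d →+* AA A d) (tauA A π).surjective a
      rw [← th_alg]
      change th A I π (g ((th A I π).symm _)) = _
      rw [RingEquiv.symm_apply_apply, g.commutes]
  refine ⟨g', fun w => zw_inj (A := A) (funext fun j => ?_)⟩
  obtain ⟨j, rfl⟩ := π.surjective j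
  rw [← act_zw, ← th_zw, ← th_zw, ← act_zw]
  change _ = th A I π (g ((th A I π).symm _))
  rw [RingEquiv.symm_apply_apply]

theorem zx_add (s : W d I) : zx A s + eR A d I = ∑ j, lR A I j * zw A s j := by
  rw [zx]; exact Subtype.ext (by simp)

theorem th_zx (π : Equiv.Perm (Fin d)) (s : W d I) : th A I π (zx A s) = zx A (relW I π s) := by
  have h := congrArg (th A I π) (zx_add s)
  rw [map_add, map_sum] at h
  simp only [map_mul, th_zw, lR, eR, th_alg, Polynomial.map_C, Polynomial.map_X,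
    RingHom.coe_coe, tauA_X] at h
  refine add_right_cancel (b := eR A d I) ?_
  rw [zx_add, ← Equiv.sum_comp π]
  exact h

theorem act_zx (g : GG A d I) (s : W d I) : g (zx A s) = zx A (g • s) := by
  have h := congrArg g (zx_add s)
  rw [map_add, map_sum] at h
  simp only [map_mul, act_zw, lR, eR, AlgEquiv.commutes] at h
  refine add_right_cancel (b := eR A d I) ?_
  rw [zx_add]
  exact h

end Pool.Agent.MP_9b2bac_nt.Z

end

section

/- Blocks of letters of a cluster and admissible changes of words. -/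

set_option autoImplicit false

namespace Pool.Agent.MP_9b2bac_nt.Z

variable {d : ℕ} {C C' : Finset (Fin d)} {s t r : Seq d}

/-- The letter `j` occurs in the block of letters of `C` that starts at position `i`. -/
def Occ (C : Finset (Fin d)) (s : Seq d) (i : ℤ) (j : Fin d) : Prop :=
  ∃ i', i ≤ i' ∧ s i' = j ∧ ∀ k, i ≤ k → k ≤ i' → s k ∈ C

/-- Same letters outside `C`, same letters in every tail of every block. -/
def Adm (C : Finset (Fin d)) (s t : Seq d) : Prop :=
  ∀ i, (s i ∉ C → t i = s i) ∧ ∀ j, Occ C s i j ↔ Occ C t i j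

/-- Every block ends. -/
def Term (C : Finset (Fin d)) (s : Seq d) : Prop := ∀ i : ℤ, ∃ m : ℕ, s (i + m) ∉ C

/-- The rest of the block after position `i` is unchanged. -/
def Kp (C : Finset (Fin d)) (s t : Seq d) (i : ℤ) : Prop :=
  ∀ i', i < i' → (∀ k, i ≤ k → k ≤ i' → s k ∈ C) → t i' = s i'

/-- The word `1 2 ... (d-1) 0 ... 0` of period `n`. -/
def zd (d : ℕ) [NeZero d] (n : ℕ) : Seq d := fun i => L d (min (i % n).toNat (d - 1))

/-- The elements that fix all words having a period below `n`. -/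
def lowD (I : Finset ℕ) (G : Type) [Group G] [MulAction G (W d I)] (n : ℕ) : Subgroup G where
  carrier := {g | ∀ m, m < n → ∀ w : W d I, Per m w.1 → g • w = w}
  mul_mem' := fun {a b} ha hb m h w hw => by rw [mul_smul, hb m h w hw, ha m h w hw]
  one_mem' := fun _ _ w _ => one_smul G w
  inv_mem' := fun {a} ha m h w hw => by rw [inv_smul_eq_iff, ha m h w hw]

/-- Every active letter of a block can be replaced by every letter occurring later in the block,
without leaving or entering `O`. -/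
def MvO (n : ℕ) (O : Set (Seq d)) (C : Finset (Fin d)) : Prop :=
  ∀ s i x, Prim n s → s i ∈ C → Occ C s (i + 1) (s i) → Occ C s (i + 1) x →
    ∃ t, Prim n t ∧ Adm C s t ∧ t i = x ∧ Kp C s t i ∧ (s ∈ O ↔ t ∈ O)

/-- The same moves inside a group acting on the words. -/
def MvG (I : Finset ℕ) (G : Type) [Group G] [MulAction G (W d I)] : Prop :=
  ∀ (C : Finset (Fin d)) (w : W d I) (i : ℤ) (x : Fin d), C ≠ Finset.univ → w.1 i ∈ C →
    Occ C w.1 (i + 1) (w.1 i) → Occ C w.1 (i + 1) x →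
    ∃ g : G, (∀ w' : W d I, Adm C w'.1 (g • w').1) ∧ (g • w).1 i = x ∧ Kp C w.1 (g • w).1 i

theorem Occ.mem {i : ℤ} {j : Fin d} (h : Occ C s i j) : s i ∈ C :=
  let ⟨_, h1, _, h3⟩ := h; h3 i le_rfl h1

theorem Occ.mem' {i : ℤ} {j : Fin d} (h : Occ C s i j) : j ∈ C :=
  let ⟨i', h1, h2, h3⟩ := h; h2 ▸ h3 i' h1 le_rfl

theorem occ_self {i : ℤ} (h : s i ∈ C) : Occ C s i (s i) :=
  ⟨i, le_rfl, rfl, fun k h1 h2 => by rwa [le_antisymm h2 h1]⟩

theorem occ_iff {i : ℤ} {j : Fin d} : Occ C s i j ↔ s i ∈ C ∧ (s i = j ∨ Occ C s (i + 1) j) := by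
  refine ⟨fun h => ⟨h.mem, ?_⟩, ?_⟩
  · obtain ⟨i', h1, h2, h3⟩ := h
    rcases h1.eq_or_lt with rfl | h4
    · exact .inl h2
    · exact .inr ⟨i', h4, h2, fun k a b => h3 k (by omega) b⟩
  · rintro ⟨h, rfl | ⟨i', h1, h2, h3⟩⟩
    · exact occ_self h
    · refine ⟨i', by omega, h2, fun k a b => ?_⟩
      rcases a.eq_or_lt with rfl | h4
      · exact h
      · exact h3 k h4 b

theorem occ_shf {i a : ℤ} {j : Fin d} : Occ C (shf s a) i j ↔ Occ C s (i + a) j :=
  ⟨fun ⟨i', h1, h2, h3⟩ => ⟨i' + a, by omega, h2, fun k b c => by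
      simpa [shf] using h3 (k - a) (by omega) (by omega)⟩,
    fun ⟨i', h1, h2, h3⟩ => ⟨i' - a, by omega, by simpa [shf] using h2, fun k b c =>
      h3 (k + a) (by omega) (by omega)⟩⟩

theorem Adm.refl (C : Finset (Fin d)) (s : Seq d) : Adm C s s := fun _ => ⟨fun _ => rfl, fun _ => Iff.rfl⟩

theorem Adm.mem_iff (h : Adm C s t) (i : ℤ) : t i ∈ C ↔ s i ∈ C :=
  ⟨fun a => by_contra fun b => b ((h i).1 b ▸ a), fun a => (((h i).2 _).1 (occ_self a)).mem⟩

theorem Adm.symm (h : Adm C s t) : Adm C t s := fun i =>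
  ⟨fun a => ((h i).1 fun b => a ((h.mem_iff i).2 b)).symm, fun j => ((h i).2 j).symm⟩

theorem Adm.trans (h : Adm C s t) (h' : Adm C t r) : Adm C s r := fun i =>
  ⟨fun a => ((h' i).1 fun b => a ((h.mem_iff i).1 b)).trans ((h i).1 a),
    fun j => ((h i).2 j).trans ((h' i).2 j)⟩

/-- A letter that does not occur later in its block is fixed. -/
theorem Adm.fix (h : Adm C s t) {i : ℤ} (hi : ¬ Occ C s (i + 1) (s i)) : t i = s i := by
  by_cases a : s i ∈ C
  · rcases (occ_iff.1 (((h i).2 _).1 (occ_self a))).2 with b | b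
    · exact b
    · exact absurd (((h (i + 1)).2 _).2 b) hi
  · exact (h i).1 a

theorem Adm.occ (h : Adm C s t) {i : ℤ} (hi : s i ∈ C) : Occ C s i (t i) :=
  ((h i).2 _).2 (occ_self ((h.mem_iff i).2 hi))

theorem Adm.mono (hC : C' ⊆ C) (h : Adm C' s t) : Adm C s t := by
  have key : ∀ {s t : Seq d}, Adm C' s t → ∀ i j, Occ C s i j → Occ C t i j := by
    rintro s t h i j ⟨i', h1, h2, h3⟩
    have hm : ∀ k, s k ∈ C → t k ∈ C := fun k a => by
      by_cases b : s k ∈ C'
      · exact hC ((h.mem_iff k).2 b)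
      · rwa [(h k).1 b]
    by_cases b : s i' ∈ C'
    · obtain ⟨i'', a1, a2, a3⟩ := ((h i').2 _).1 (occ_self b)
      refine ⟨i'', h1.trans a1, a2.trans h2, fun k c1 c2 => ?_⟩
      by_cases c : k ≤ i'
      · exact hm k (h3 k c1 c)
      · exact hC (a3 k (by omega) c2)
    · exact ⟨i', h1, ((h i').1 b).trans h2, fun k c1 c2 => hm k (h3 k c1 c2)⟩
  refine fun i => ⟨fun a => (h i).1 fun b => a (hC b), fun j => ⟨key h i j, key h.symm i j⟩⟩

theorem Adm.shf (h : Adm C s t) (a : ℤ) : Adm C (shf s a) (shf t a) := fun i =>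
  ⟨(h (i + a)).1, fun j => by rw [occ_shf, occ_shf]; exact (h (i + a)).2 j⟩

theorem Term.mono (hC : C' ⊆ C) (h : Term C s) : Term C' s := fun i =>
  let ⟨m, hm⟩ := h i; ⟨m, fun a => hm (hC a)⟩

theorem Term.adm (h : Term C s) (h' : Adm C s t) : Term C t := fun i =>
  let ⟨m, hm⟩ := h i; ⟨m, fun a => hm ((h'.mem_iff _).1 a)⟩

theorem Term.shf (h : Term C s) (a : ℤ) : Term C (shf s a) := fun i =>
  let ⟨m, hm⟩ := h (i + a); ⟨m, by simpa [Z.shf, add_right_comm] using hm⟩

theorem Term.update (h : Term C s) (a : ℤ) (b : Fin d) : Term C (Function.update s a b) := by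
  intro i
  obtain ⟨m, hm⟩ := h (max i (a + 1))
  refine ⟨(max i (a + 1) - i).toNat + m, ?_⟩
  rw [Function.update_of_ne (by omega)]
  rwa [show i + (((max i (a + 1) - i).toNat + m : ℕ) : ℤ) = max i (a + 1) + m by omega]

theorem Per.term {n : ℕ} (h : Per n s) (hC : C ≠ Finset.univ) : Term C s := by
  obtain ⟨o, ho⟩ : ∃ o, o ∉ C := by
    by_contra hc
    push Not at hc
    exact hC (Finset.eq_univ_of_forall hc)
  intro i
  obtain ⟨x, rfl⟩ := h.2.2 o
  have hn : (0 : ℤ) < n := by exact_mod_cast h.1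
  refine ⟨((x - i) % n).toNat, ?_⟩
  rwa [Int.toNat_of_nonneg (Int.emod_nonneg _ hn.ne'), ← h.zper _ ((x - i) / n), add_assoc,
    Int.emod_add_ediv_mul, add_sub_cancel]

/-- Markers are admissible for their two letters. -/
theorem mk_adm {u v : Fin d} (huv : u ≠ v) {j : ℕ} (hj : 1 ≤ j) (hs : Term {u, v} s) :
    Adm {u, v} s (mk u v j s) := by
  have hm : ∀ i, mk u v j s i ∈ ({u, v} : Finset (Fin d)) ↔ s i ∈ ({u, v} : Finset (Fin d)) := by
    intro i
    unfold mk
    split_ifs
    · simp only [Finset.mem_insert, Finset.mem_singleton, Equiv.swap_apply_eq_iff,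
        Equiv.swap_apply_left, Equiv.swap_apply_right, or_comm]
    · rfl
  have key : ∀ m : ℕ, ∀ i, s (i + m) ∉ ({u, v} : Finset (Fin d)) →
      ∀ a, Occ {u, v} s i a ↔ Occ {u, v} (mk u v j s) i a := by
    intro m
    induction m with
    | zero =>
      intro i hi a
      rw [Nat.cast_zero, add_zero] at hi
      exact ⟨fun h => absurd h.mem hi, fun h => absurd ((hm i).1 h.mem) hi⟩
    | succ m ih =>
      intro i hi a
      have ih' := ih (i + 1) (by rwa [Nat.cast_succ, add_comm (m : ℤ), ← add_assoc] at hi)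
      rw [occ_iff, occ_iff (s := mk u v j s), hm, ← ih']
      refine and_congr_right fun h0 => ?_
      by_cases hh : Hit u v j s i
      · have hk : ∀ k, i + 1 ≤ k → k ≤ i + j → s k = u := fun k a b => by
          have := hh.1 (k - i).toNat (by omega) (by omega)
          rwa [show i + ((k - i).toNat : ℤ) = k by omega] at this
        have hu : Occ {u, v} s (i + 1) u := ⟨i + 1, le_rfl, hk _ le_rfl (by omega),
          fun k a b => by simp [hk k a (by omega)]⟩
        have hv : Occ {u, v} s (i + 1) v := ⟨i + j + 1, by omega, hh.2, fun k a b => by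
          rcases b.eq_or_lt with rfl | c
          · simp [hh.2]
          · simp [hk k a (by omega)]⟩
        have : ∀ b ∈ ({u, v} : Finset (Fin d)), Occ {u, v} s (i + 1) b := fun b hb => by
          simp only [Finset.mem_insert, Finset.mem_singleton] at hb
          rcases hb with rfl | rfl
          exacts [hu, hv]
        exact ⟨fun h => .inr (h.elim (fun e => this a (e ▸ h0)) id),
          fun h => .inr (h.elim (fun e => this a (e ▸ (hm i).2 h0)) id)⟩
      · rw [ZSweep.mk_not hh]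
  refine fun i => ⟨fun a => ?_, let ⟨m, hm⟩ := hs i; key m i hm⟩
  simp only [Finset.mem_insert, Finset.mem_singleton, not_or] at a
  exact ZSweep.mk_oth a.1 a.2

end Pool.Agent.MP_9b2bac_nt.Z

end
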