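import Mathlib
import Pool.Agent.Mg.F43e117.G4b4065

section

/- Heads of words: the block after a longest run. -/

set_option autoImplicit false

namespace Pool.Agent.MP_9b2bac_nt.Z.VM

open Finset ZSweep

variable {d n J : ℕ} {t t' : Seq d} {c : Fin d} {p : ℤ} {T : Set (Seq d)}

theorem occE {y : Fin d} {i : ℤ} : Occ (univ.erase c) t i y ↔
    ∃ q, i ≤ q ∧ t q = y ∧ ∀ k, i ≤ k → k ≤ q → t k ≠ c := by simp [Occ]

theorem count {a b : ℤ} (hab : a < b) (hne : ∀ k, a < k → k < b → t k ≠ c)
    (hinj : ∀ i j, a < i → i < j → j < b → t i ≠ t j)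
    (hsur : ∀ y, y ≠ c → ∃ k, a < k ∧ k < b ∧ t k = y) : b = a + d := by
  have h : #(Ioo a b) = #(univ.erase c) := by
    refine card_bij (fun k _ => t k) (fun k hk => ?_) (fun i hi j hj e => ?_) (fun y hy => ?_)
    · rw [mem_Ioo] at hk
      exact mem_erase.2 ⟨hne k hk.1 hk.2, mem_univ _⟩
    · rw [mem_Ioo] at hi hj
      rcases lt_trichotomy i j with h | h | h
      · exact absurd e (hinj i j hi.1 h hj.2)
      · exact h
      · exact absurd e.symm (hinj j i hj.1 h hi.2)
    · obtain ⟨k, h1, h2, h3⟩ := hsur y (mem_erase.1 hy).1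
      exact ⟨k, mem_Ioo.2 ⟨h1, h2⟩, h3⟩
  rw [Int.card_Ioo, card_erase_of_mem (mem_univ _), card_univ, Fintype.card_fin] at h
  have := c.pos
  omega

theorem last_occ (h : Per n t) (c : Fin d) (i : ℤ) :
    ∃ p ≤ i, t (p - 1) = c ∧ ∀ k, p ≤ k → k < i → t k ≠ c := by
  classical
  have hex : ∃ m : ℕ, t (i - 1 - m) = c := by
    obtain ⟨x, rfl⟩ := h.2.2 c
    have hn : (0 : ℤ) < n := by exact_mod_cast h.1
    refine ⟨((i - 1 - x) % n).toNat, ?_⟩
    rw [Int.toNat_of_nonneg (Int.emod_nonneg _ hn.ne'), ← h.zper x ((i - 1 - x) / n)]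
    congr 1
    have := Int.emod_add_ediv_mul (i - 1 - x) n
    omega
  refine ⟨i - Nat.find hex, by omega, ?_, fun k h1 h2 e => ?_⟩
  · rw [show i - Nat.find hex - 1 = i - 1 - Nat.find hex by ring]
    exact Nat.find_spec hex
  · refine Nat.find_min hex (m := (i - 1 - k).toNat) (by omega) ?_
    rwa [show i - 1 - ((i - 1 - k).toNat : ℤ) = k by omega]

theorem first_occ (h : Per n t) (c : Fin d) (i : ℤ) :
    ∃ e, i < e ∧ t e = c ∧ ∀ k, i < k → k < e → t k ≠ c := by
  classical
  have hex : ∃ m : ℕ, t (i + 1 + m) = c := by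
    obtain ⟨m, hm⟩ := h.term (C := univ.erase c) (by simp) (i + 1)
    exact ⟨m, by simpa using hm⟩
  refine ⟨i + 1 + Nat.find hex, by omega, Nat.find_spec hex, fun k h1 h2 e => ?_⟩
  refine Nat.find_min hex (m := (k - i - 1).toNat) (by omega) ?_
  rwa [show i + 1 + ((k - i - 1).toNat : ℤ) = k by omega]

/-- A run of `J` letters `c` followed by a block with all other letters after its first place. -/
structure Head (t : Seq d) (c : Fin d) (p : ℤ) (J : ℕ) : Prop where
  run : ∀ k, p - J ≤ k → k < p → t k = c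
  ne : t p ≠ c
  occ : ∀ y, y ≠ c → Occ (univ.erase c) t (p + 1) y

theorem head_of_window (h : Per n t) {i e : ℤ} (hie : i < e) (h1 : ∀ k, i ≤ k → k < e → t k ≠ c)
    (h2 : ∀ y, y ≠ c → ∃ k, i < k ∧ k < e ∧ t k = y) :
    ∃ p ≤ i, Head t c p 1 ∧ ∀ k, p ≤ k → k < e → t k ≠ c := by
  obtain ⟨p, hp, a1, a2⟩ := last_occ h c i
  have a3 : ∀ k, p ≤ k → k < e → t k ≠ c := fun k b1 b2 => by
    by_cases b : k < i
    · exact a2 k b1 b
    · exact h1 k (by omega) b2
  refine ⟨p, hp, ⟨fun k b1 b2 => ?_, a3 p le_rfl (by omega), fun y hy => ?_⟩, a3⟩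
  · rwa [show k = p - 1 by omega]
  · obtain ⟨k, b1, b2, b3⟩ := h2 y hy
    exact occE.2 ⟨k, by omega, b3, fun l c1 c2 => a3 l (by omega) (by omega)⟩

theorem head_one {s : Seq d} (hn : d < n) (hs : Prim n s) : ∃ c p, Head s c p 1 := by
  by_contra hno
  have key : ∀ i y, y ≠ s i → Occ (univ.erase (s i)) s (i + 1) y := by
    intro i
    choose f f1 f2 f3 using fun y => first_occ hs.1 y i
    obtain ⟨g, -, hg⟩ := exists_max_image univ f ⟨s i, mem_univ _⟩
    have hlt : ∀ y, y ≠ g → f y < f g := fun y hy =>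
      (hg y (mem_univ _)).lt_of_ne fun e => hy (by rw [← f2 y, e, f2])
    have e : s i = g := by
      by_contra hne
      obtain ⟨p, -, hp, -⟩ := head_of_window (c := g) hs.1 (f1 g) (fun k a b => by
        rcases a.eq_or_lt with rfl | a
        · exact hne
        · exact f3 g k a b) fun y hy => ⟨f y, f1 y, hlt y hy, f2 y⟩
      exact hno ⟨g, p, hp⟩
    rw [e]
    intro y hy
    have := hlt y hy
    exact occE.2 ⟨f y, f1 y, f2 y, fun k a b => f3 g k (by omega) (by omega)⟩
  refine hs.2 d hn ⟨(s 0).pos, fun i => ?_, hs.1.2.2⟩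
  obtain ⟨e, e1, e2, e3⟩ := first_occ hs.1 (s i) i
  have := count e1 e3 (fun a b h1 h2 h3 hab => by
    obtain ⟨k, k1, k2, k3⟩ := occE.1 (key a (s i) (e3 a h1 (by omega)).symm)
    by_cases hk : k < b
    · exact e3 k (by omega) (by omega) k2
    · exact k3 b (by omega) (by omega) hab.symm) fun y hy => by
      obtain ⟨k, k1, k2, k3⟩ := occE.1 (key i y hy)
      refine ⟨k, k1, ?_, k2⟩
      by_contra hk
      exact k3 e (by omega) (by omega) e2
  rw [← this, e2]

theorem admc (h : Adm (univ.erase c) t t') (i : ℤ) : t' i = c ↔ t i = c := by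
  have := h.mem_iff i
  simp only [mem_erase, mem_univ, and_true] at this
  tauto

theorem Head.adm (h : Head t c p J) (a : Adm (univ.erase c) t t') : Head t' c p J :=
  ⟨fun k h1 h2 => (admc a k).2 (h.run k h1 h2), fun e => h.ne ((admc a p).1 e),
    fun y hy => ((a _).2 y).1 (h.occ y hy)⟩

theorem Head.ne1 (h : Head t c p J) : t (p + 1) ≠ c := (mem_erase.1 (h.occ _ h.ne).mem).1

/-- A class of words closed under the moves, with longest run `J` in front of a full block. -/
structure Cl (n J : ℕ) (T : Set (Seq d)) : Prop where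
  prim : ∀ t ∈ T, Prim n t
  mrk : ∀ u v j, ∀ t ∈ T, u ≠ v → 1 ≤ j → mk u v j t ∈ T
  mv : ∀ C, C ≠ univ → ∀ t ∈ T, ∀ i x, t i ∈ C → Occ C t (i + 1) (t i) → Occ C t (i + 1) x →
    ∃ t' ∈ T, Adm C t t' ∧ t' i = x ∧ Kp C t t' i
  pos : 1 ≤ J
  max : ∀ t ∈ T, ∀ c p, ¬ Head t c p (J + 1)

theorem Cl.write (H : Cl n J T) (ht : t ∈ T) (h : Head t c p J) {y : Fin d} (hy : y ≠ c) :
    ∃ t' ∈ T, Adm (univ.erase c) t t' ∧ t' p = y ∧ Kp (univ.erase c) t t' p :=
  H.mv _ (by simp) t ht p y (by simpa using h.ne) (h.occ _ h.ne) (h.occ _ hy)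

theorem Cl.x_ne (H : Cl n J T) (ht : t ∈ T) (h : Head t c p J) : t (p - J - 1) ≠ c := fun e =>
  H.max t ht c p ⟨fun k h1 h2 => by
    by_cases a : p - J ≤ k
    · exact h.run k a h2
    · rwa [show k = p - J - 1 by omega], h.ne, h.occ⟩

theorem Cl.x_fix (H : Cl n J T) (h : Head t c p J) (a : Adm (univ.erase c) t t') :
    t' (p - J - 1) = t (p - J - 1) := by
  have := H.pos
  refine a.fix fun o => (mem_erase.1 o.mem).1 (h.run _ (by omega) (by omega))

theorem Cl.hit (H : Cl n J T) (ht : t ∈ T) (h : Head t c p J) {q : ℤ} (hq : p < q)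
    (hb : ∀ k, p ≤ k → k ≤ q → t k ≠ c) (e : t q = t (p - J - 1)) (e' : t p = t (p - J - 1)) :
    Hit c (t (p - J - 1)) J t q := by
  by_contra hno
  have hx := H.x_ne ht h
  have hJ := H.pos
  refine H.max _ (H.mrk c _ J t ht hx.symm hJ) c p ⟨fun k h1 h2 => ?_, ?_, fun y hy => ?_⟩
  · by_cases a : p - J ≤ k
    · rw [mk_mid p h2 (by omega) h.ne]
      exact h.run k a h2
    · obtain rfl : k = p - J - 1 := by omega
      rw [mk_hit ⟨fun l a b => h.run _ (by omega) (by omega), by rw [← e']; congr 1; ring⟩,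
        Equiv.swap_apply_right]
  · rw [mk_mid (p + 1) (by omega) (by omega) h.ne1]
    exact h.ne
  · by_cases hyx : y = t (p - J - 1)
    · have k1 : ∀ k, p + 1 ≤ k → k ≤ q → Z.mk c (t (p - J - 1)) J t k = t k := fun k a b => by
        rcases b.eq_or_lt with rfl | b
        · exact mk_not hno
        · exact mk_mid (k + 1) (by omega) (by omega) (hb _ (by omega) (by omega))
      exact occE.2 ⟨q, hq, by rw [k1 q hq le_rfl, e, hyx], fun k a b => by
        rw [k1 k a b]; exact hb k (by omega) b⟩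
    · obtain ⟨r, r1, r2, r3⟩ := occE.1 (h.occ y hy)
      have k1 : ∀ k, p + 1 ≤ k → k ≤ r → Z.mk c (t (p - J - 1)) J t k = t k := fun k a b => by
        rcases b.eq_or_lt with rfl | b
        · exact mk_oth (r2 ▸ hy) (r2 ▸ hyx)
        · exact mk_mid (k + 1) (by omega) (by omega) (r3 _ (by omega) (by omega))
      exact occE.2 ⟨r, r1, by rw [k1 r r1 le_rfl, r2], fun k a b => by
        rw [k1 k a b]; exact r3 k a b⟩

theorem Cl.after (H : Cl n J T) (ht : t ∈ T) (h : Head t c p J) {q : ℤ} (hq : p < q)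
    (hb : ∀ k, p ≤ k → k ≤ q → t k ≠ c) (e : t q = t (p - J - 1)) :
    (∀ k, q < k → k ≤ q + J → t k = c) ∧ t (q + J + 1) ≠ c := by
  obtain ⟨u, hu, a, u1, u2⟩ := H.write ht h (H.x_ne ht h)
  have ex := H.x_fix h a
  have hh := H.hit hu (h.adm a) hq (fun k b1 b2 e => hb k b1 b2 ((admc a k).1 e))
    (by rw [ex, ← e]; exact u2 q hq fun k b1 b2 => by simpa using hb k b1 b2) (by rw [ex, u1])
  refine ⟨fun k b1 b2 => (admc a k).1 ?_, fun e => H.x_ne hu (h.adm a) ?_⟩
  · have := hh.1 (k - q).toNat (by omega) (by omega)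
    rwa [show q + ((k - q).toNat : ℤ) = k by omega] at this
  · rw [← hh.2]
    exact (admc a _).2 e

/-- The shape of the word after a head. -/
structure Blk (t : Seq d) (c : Fin d) (p : ℤ) (J : ℕ) : Prop where
  x : t (p + d - 1) = t (p - J - 1)
  nc : ∀ k, p ≤ k → k < p + d → t k ≠ c
  run : ∀ k, p + d ≤ k → k < p + d + J → t k = c
  ne : t (p + d + J) ≠ c
  ina : ∀ k, p < k → k < p + d → ¬ Occ (univ.erase c) t (k + 1) (t k)
  inj : ∀ i j, p < i → i < j → j < p + d → t i ≠ t j
  sur : ∀ y, y ≠ c → ∃ k, p < k ∧ k < p + d ∧ t k = y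

theorem Cl.blk (H : Cl n J T) (ht : t ∈ T) (h : Head t c p J) : Blk t c p J := by
  have hJ := H.pos
  obtain ⟨q, q1, q2, q3⟩ := occE.1 (h.occ _ (H.x_ne ht h))
  have hb : ∀ k, p ≤ k → k ≤ q → t k ≠ c := fun k a b => by
    rcases a.eq_or_lt with rfl | a
    · exact h.ne
    · exact q3 k a b
  obtain ⟨a1, a2⟩ := H.after ht h q1 hb q2
  have hq := a1 (q + 1) (by omega) (by omega)
  have ina : ∀ k, p < k → k < q + 1 → ¬ Occ (univ.erase c) t (k + 1) (t k) := by
    intro k b1 b2 o
    have b3 : k < q := by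
      by_contra b
      obtain rfl : k = q := by omega
      exact (mem_erase.1 o.mem).1 hq
    obtain ⟨u, hu, a, u1, -⟩ := H.mv _ (by simp) t ht k _ (by simpa using hb k b1.le b3.le) o
      (occE.2 ⟨q, b3, q2, fun l c1 c2 => hb l (by omega) c2⟩)
    have := (H.after hu (h.adm a) b1 (fun l c1 c2 e => hb l c1 (by omega) ((admc a l).1 e))
      (by rw [u1, H.x_fix h a])).1 (k + 1) (by omega) (by omega)
    exact hb (k + 1) (by omega) b3 ((admc a _).1 this)
  have inj : ∀ i j, p < i → i < j → j < q + 1 → t i ≠ t j := fun i j b1 b2 b3 e =>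
    ina i b1 (by omega) (occE.2 ⟨j, b2, e.symm, fun l c1 c2 => hb l (by omega) (by omega)⟩)
  have sur : ∀ y, y ≠ c → ∃ k, p < k ∧ k < q + 1 ∧ t k = y := fun y hy => by
    obtain ⟨k, k1, k2, k3⟩ := occE.1 (h.occ y hy)
    refine ⟨k, k1, ?_, k2⟩
    by_contra hk
    exact k3 (q + 1) (by omega) (by omega) hq
  have e := count (by omega : p < q + 1) (fun k b1 b2 => hb k b1.le (by omega)) inj sur
  obtain rfl : q = p + d - 1 := by omega
  refine ⟨q2, fun k b1 b2 => hb k b1 (by omega), fun k b1 b2 => a1 k (by omega) (by omega), ?_,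
    fun k b1 b2 => ina k b1 (by omega), fun i j b1 b2 b3 => inj i j b1 b2 (by omega), e ▸ sur⟩
  rwa [show p + d + J = p + d - 1 + J + 1 by ring]

theorem Blk.fix (h : Blk t c p J) (a : Adm (univ.erase c) t t') {k : ℤ} (h1 : p < k)
    (h2 : k < p + d) : t' k = t k := a.fix (h.ina k h1 h2)

end Pool.Agent.MP_9b2bac_nt.Z.VM

end

section

/- The longest run in front of a full block has length at least two. -/

set_option autoImplicit false

namespace Pool.Agent.MP_9b2bac_nt.Z.VM

open Finset ZSweep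

variable {d n : ℕ} {t : Seq d} {c : Fin d} {p P : ℤ} {T : Set (Seq d)}

theorem Cl.bd (H : Cl n 1 T) (ht : t ∈ T) {j : ℤ} {g : Fin d}
    (h1 : ∀ k, j ≤ k → k < j + d → t k ≠ g)
    (h2 : ∀ y, y ≠ g → ∃ k, j ≤ k ∧ k < j + d ∧ t k = y) : t (j - 1) = g := by
  by_contra hne
  obtain ⟨p, hp, h, a⟩ := head_of_window (c := g) (H.prim t ht).1 (by omega : j - 1 < j + d)
    (fun k b1 b2 => by
      by_cases b : j ≤ k
      · exact h1 k b b2
      · rwa [show k = j - 1 by omega]) fun y hy => by
      obtain ⟨k, k1, k2, k3⟩ := h2 y hy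
      exact ⟨k, by omega, k2, k3⟩
  exact a (p + d) (by omega) (by omega) ((H.blk ht h).run _ le_rfl (by omega))

/-- Two letters `c` followed by all other letters. -/
structure Pat (t : Seq d) (c : Fin d) (P : ℤ) : Prop where
  c0 : t P = c
  c1 : t (P + 1) = c
  inj : ∀ i j, P + 1 ≤ i → i < j → j ≤ P + d → t i ≠ t j
  sur : ∀ y, ∃ k, P + 1 ≤ k ∧ k ≤ P + d ∧ t k = y

theorem Pat.inj' (h : Pat t c P) {i j : ℤ} (h1 : P + 1 ≤ i) (h2 : i ≤ P + d) (h3 : P + 1 ≤ j)
    (h4 : j ≤ P + d) (h5 : i ≠ j) : t i ≠ t j := by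
  rcases lt_or_gt_of_ne h5 with a | a
  · exact h.inj i j h1 a h4
  · exact (h.inj j i h3 a h2).symm

theorem Cl.step (H : Cl n 1 T) (hd : 3 ≤ d) (ht : t ∈ T) (h : Pat t c P) :
    ∀ k, P - d - 1 ≤ k → k < P → t k = t (k + d + 1) := by
  have s1 : ∀ m : ℕ, m + 1 ≤ d → ∀ k, P - m ≤ k → k < P → t k = t (k + d + 1) := by
    intro m
    induction m with
    | zero => intro _ k a b; omega
    | succ m ih =>
      intro hm k a b
      have ih' := ih (by omega)
      by_cases hk : P - m ≤ k
      · exact ih' k hk b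
      obtain rfl : k = P - m - 1 := by omega
      rw [show P - m - 1 + d + 1 = P - m + d by ring]
      refine H.bd ht (fun k b1 b2 => ?_) fun y hy => ?_
      · rcases lt_trichotomy k P with e | rfl | e
        · rw [ih' k b1 e]
          exact h.inj' (by omega) (by omega) (by omega) (by omega) (by omega)
        · rw [h.c0, ← h.c1]
          exact h.inj' (by omega) (by omega) (by omega) (by omega) (by omega)
        · exact h.inj' (by omega) (by omega) (by omega) (by omega) (by omega)
      · obtain ⟨k, k1, k2, k3⟩ := h.sur y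
        rcases lt_trichotomy k (P - m + d) with e | rfl | e
        · exact ⟨k, by omega, e, k3⟩
        · exact absurd k3.symm hy
        · refine ⟨k - d - 1, by omega, by omega, ?_⟩
          rw [ih' _ (by omega) (by omega), ← k3]
          congr 1
          ring
  have s2 : ∀ k, P - d + 1 ≤ k → k < P → t k = t (k + d + 1) := fun k a b =>
    s1 (d - 1) (by omega) k (by omega) b
  have nc : ∀ k, P + 2 ≤ k → k ≤ P + d → t k ≠ c := fun k a b => by
    rw [← h.c1]
    exact h.inj' (by omega) (by omega) (by omega) (by omega) (by omega)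
  have nc' : ∀ k, P - d + 1 ≤ k → k < P → t k ≠ c := fun k a b => by
    rw [s2 k a b]
    exact nc _ (by omega) (by omega)
  have sur' : ∀ y, y ≠ c → ∃ k, P - d + 1 ≤ k ∧ k < P ∧ t k = y := fun y hy => by
    obtain ⟨k, k1, k2, k3⟩ := h.sur y
    have : k ≠ P + 1 := fun e => hy (by rw [← k3, e, h.c1])
    refine ⟨k - d - 1, by omega, by omega, ?_⟩
    rw [s2 _ (by omega) (by omega), ← k3]
    congr 1
    ring
  have s3 : t (P - d) = c := by
    by_contra hne
    obtain ⟨p, hp, hh, a⟩ := head_of_window (c := c) (H.prim t ht).1 (by omega : P - d < P)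
      (fun k b1 b2 => by
        rcases b1.eq_or_lt with rfl | b
        · exact hne
        · exact nc' k b b2) sur'
    have B := H.blk ht hh
    have e : p = P - d := by
      by_contra e
      exact a (p + d) (by omega) (by omega) (B.run _ le_rfl (by omega))
    refine B.ne ?_
    rw [← h.c1, e]
    congr 1
    push_cast
    ring
  have s4 : t (P - d - 1) = c := by
    have hx : t (P + 2) ≠ c := nc _ le_rfl (by omega)
    have ex : t (P - d + 1) = t (P + 2) := by
      rw [s2 _ le_rfl (by omega)]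
      congr 1
      ring
    have hu := H.mrk c _ 1 t ht hx.symm le_rfl
    have u0 : Z.mk c (t (P + 2)) 1 t P = t (P + 2) := by
      rw [mk_hit ⟨fun l a b => by obtain rfl : l = 1 := by omega
                                  exact h.c1, by congr 1; push_cast; ring⟩, h.c0,
        Equiv.swap_apply_left]
    have u1 : ∀ k, P - d + 2 ≤ k → k < P → Z.mk c (t (P + 2)) 1 t k = t k := fun k a b =>
      mk_oth (nc' k (by omega) b) (by
        rw [s2 k (by omega) b]
        exact h.inj' (by omega) (by omega) (by omega) (by omega) (by omega))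
    have hh : Head (Z.mk c (t (P + 2)) 1 t) c (P - d + 1) 1 := by
      refine ⟨fun k a b => ?_, ?_, fun y hy => ?_⟩
      · obtain rfl : k = P - d := by omega
        rw [mk_mid (P - d + 1) (by omega) (by omega) (ex ▸ hx), s3]
      · rw [mk_mid (P - d + 2) (by omega) (by omega) (nc' _ (by omega) (by omega)), ex]
        exact hx
      · have key : ∀ k, P - d + 1 + 1 ≤ k → k ≤ P → Z.mk c (t (P + 2)) 1 t k ≠ c := by
          intro k a b
          rcases b.eq_or_lt with rfl | b
          · rwa [u0]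
          · rw [u1 k (by omega) b]
            exact nc' k (by omega) b
        by_cases hyx : y = t (P + 2)
        · exact occE.2 ⟨P, by omega, by rw [u0, hyx], key⟩
        · obtain ⟨k, k1, k2, k3⟩ := sur' y hy
          have : k ≠ P - d + 1 := fun e => hyx (by rw [← k3, e, ex])
          exact occE.2 ⟨k, by omega, by rw [u1 k (by omega) k2, k3],
            fun l a b => key l a (by omega)⟩
    have B := (H.blk hu hh).x
    rw [show P - d + 1 + d - 1 = P by ring, u0,
      show P - d + 1 - (1 : ℕ) - 1 = P - d - 1 by push_cast; ring,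
      mk_hit ⟨fun l a b => by obtain rfl : l = 1 := by omega
                              rw [← s3]; congr 1; push_cast; ring,
        by rw [← ex]; congr 1; push_cast; ring⟩] at B
    have := Equiv.swap_apply_eq_iff.1 B.symm
    rwa [Equiv.swap_apply_right] at this
  intro k a b
  rcases lt_trichotomy k (P - d) with e | rfl | e
  · obtain rfl : k = P - d - 1 := by omega
    rw [s4, ← h.c0]
    congr 1
    ring
  · rw [s3, ← h.c1]
    congr 1
    ring
  · exact s2 k e b

theorem Cl.pat_false (H : Cl n 1 T) (hd : 3 ≤ d) (hn : d + 2 ≤ n) (ht : t ∈ T) (h : Pat t c P) :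
    False := by
  have key : ∀ m : ℕ, ∃ Q, Q ≤ P - m ∧ Pat t c Q ∧ ∀ k, Q ≤ k → k < P → t k = t (k + d + 1) := by
    intro m
    induction m with
    | zero => exact ⟨P, by omega, h, fun k a b => by omega⟩
    | succ m ih =>
      obtain ⟨Q, q1, q2, q3⟩ := ih
      have s := H.step hd ht q2
      refine ⟨Q - d - 1, by omega, ⟨?_, ?_, fun i j a b e => ?_, fun y => ?_⟩, fun k a b => ?_⟩
      · rw [s _ le_rfl (by omega), ← q2.c0]
        congr 1
        ring
      · rw [s _ (by omega) (by omega), ← q2.c1]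
        congr 1
        ring
      · rw [s i (by omega) (by omega), s j (by omega) (by omega)]
        exact q2.inj _ _ (by omega) (by omega) (by omega)
      · obtain ⟨k, k1, k2, k3⟩ := q2.sur y
        refine ⟨k - d - 1, by omega, by omega, ?_⟩
        rw [s _ (by omega) (by omega), ← k3]
        congr 1
        ring
      · by_cases hk : k < Q
        · exact s k a hk
        · exact q3 k (by omega) b
  have hp := H.prim t ht
  refine hp.2 (d + 1) (by omega) ⟨by omega, fun i => ?_, hp.1.2.2⟩
  have hn' : (1 : ℤ) ≤ n := by omega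
  have h1 : i + -(|i - P| + 1) * n < P := by
    have := le_abs_self (i - P)
    have := abs_nonneg (i - P)
    nlinarith
  obtain ⟨Q, q1, -, q3⟩ := key (P - (i + -(|i - P| + 1) * n)).toNat
  have := q3 _ (by omega) h1
  rw [hp.1.zper] at this
  rw [this, ← hp.1.zper _ (-(|i - P| + 1))]
  congr 1
  push_cast
  ring

theorem Cl.one_false (H : Cl n 1 T) (hd : 3 ≤ d) (hn : d + 2 ≤ n) (ht : t ∈ T)
    (h : Head t c p 1) : False := by
  obtain ⟨u, hu, a, u1, -⟩ := H.write ht h (H.x_ne ht h)
  rw [← H.x_fix h a] at u1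
  have h2 := h.adm a
  have B := H.blk hu h2
  have hx := h2.ne
  have hc : u (p - 1) = c := h2.run _ (by omega) (by omega)
  have hl : u (p + d - 1) = u p := B.x.trans u1.symm
  have v0 : Z.mk c (u p) 1 u (p - 2) = c := by
    rw [mk_hit ⟨fun l a b => by obtain rfl : l = 1 := by omega
                                rw [← hc]; congr 1; push_cast; ring,
      by congr 1; push_cast; ring⟩, show p - 2 = p - (1 : ℕ) - 1 by push_cast; ring, ← u1,
      Equiv.swap_apply_right]
  have v1 : Z.mk c (u p) 1 u (p - 1) = c := by rw [mk_mid p (by omega) (by omega) hx, hc]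
  have v2 : Z.mk c (u p) 1 u p = u p := mk_mid (p + 1) (by omega) (by omega) h2.ne1
  have nx : ∀ k, p < k → k < p + d - 1 → u k ≠ u p := fun k a b => by
    rw [← hl]
    exact B.inj _ _ a b (by omega)
  have v3 : ∀ k, p ≤ k → k < p + d - 1 → Z.mk c (u p) 1 u k = u k := fun k a b => by
    rcases a.eq_or_lt with rfl | a
    · exact v2
    · exact mk_oth (B.nc k a.le (by omega)) (nx k a b)
  refine H.pat_false hd hn (H.mrk c _ 1 u hu hx.symm le_rfl) (c := c) (P := p - 2)
    ⟨v0, by rwa [show p - 2 + 1 = p - 1 by ring], fun i j a b e => ?_, fun y => ?_⟩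
  · rw [v3 j (by omega) (by omega)]
    rcases lt_trichotomy i p with f | rfl | f
    · obtain rfl : i = p - 1 := by omega
      rw [v1]
      exact (B.nc j (by omega) (by omega)).symm
    · rw [v2]
      exact (nx j b (by omega)).symm
    · rw [v3 i f.le (by omega)]
      exact B.inj i j f b (by omega)
  · by_cases h1 : y = c
    · exact ⟨p - 1, by omega, by omega, by rw [v1, h1]⟩
    by_cases h3 : y = u p
    · exact ⟨p, by omega, by omega, by rw [v2, h3]⟩
    obtain ⟨k, k1, k2, k3⟩ := B.sur y h1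
    have : k ≠ p + d - 1 := fun e => h3 (by rw [← k3, e, hl])
    exact ⟨k, by omega, by omega, by rw [v3 k k1.le (by omega), k3]⟩

end Pool.Agent.MP_9b2bac_nt.Z.VM

end

section

/- Runs of length at least two: all blocks agree. -/

set_option autoImplicit false

namespace Pool.Agent.MP_9b2bac_nt.Z.VM

open Finset ZSweep

variable {d n J : ℕ} {t : Seq d} {c : Fin d} {p : ℤ} {T : Set (Seq d)}

theorem third (hd : 3 ≤ d) (a b : Fin d) : ∃ y, y ≠ a ∧ y ≠ b := by
  by_contra h
  push Not at h
  have h1 : (univ : Finset (Fin d)) ⊆ {a, b} := fun y _ => by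
    by_cases e : y = a
    · simp [e]
    · simp [h y e]
  have h2 := (card_le_card h1).trans card_le_two
  rw [card_univ, Fintype.card_fin] at h2
  omega

theorem Cl.u (H : Cl n J T) (hJ : 2 ≤ J) (ht : t ∈ T) (h : Head t c p J) :
    t p = t (p + d + J) := by
  by_contra hne
  have B := H.blk ht h
  have hz := B.ne
  obtain ⟨K, rfl⟩ : ∃ K, J = K + 1 := ⟨J - 1, by omega⟩
  have hu := H.mrk c _ K t ht hz.symm (by omega)
  have k1 : ∀ k, p ≤ k → k < p + d → Z.mk c (t (p + d + (K + 1 : ℕ))) K t k = t k := by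
    intro k a b
    by_cases e : k = p + d - 1
    · refine mk_last (k + K + 1) rfl ?_
      rw [B.run _ (by omega) (by omega)]
      exact hz.symm
    · exact mk_mid (k + 1) (by omega) (by omega) (B.nc _ (by omega) (by omega))
  have hp : p < p + d := by
    have := c.pos
    omega
  have h2 : Head (Z.mk c (t (p + d + (K + 1 : ℕ))) K t) c p (K + 1) := by
    refine ⟨fun k a b => ?_, by rw [k1 p le_rfl hp]; exact h.ne, fun y hy => ?_⟩
    · by_cases e : k = p - (K + 1 : ℕ)
      · rw [mk_last p (by omega) hne]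
        exact h.run k a b
      · rw [mk_mid p b (by omega) h.ne]
        exact h.run k a b
    · obtain ⟨k, a1, a2, a3⟩ := B.sur y hy
      exact occE.2 ⟨k, a1, by rw [k1 k a1.le a2, a3], fun l b1 b2 => by
        rw [k1 l (by omega) (by omega)]; exact B.nc l (by omega) (by omega)⟩
  have := (H.blk hu h2).run (p + d) le_rfl (by omega)
  rw [mk_hit ⟨fun l a b => B.run _ (by omega) (by omega), by congr 1; push_cast; ring⟩,
    B.run _ le_rfl (by omega), Equiv.swap_apply_left] at this
  exact hz this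

theorem Cl.next (H : Cl n J T) (hd : 3 ≤ d) (hJ : 2 ≤ J) (ht : t ∈ T) (h : Head t c p J) :
    Head t c (p + d + J) J := by
  have B := H.blk ht h
  refine ⟨fun k a b => B.run k (by omega) b, B.ne, fun y hy => ?_⟩
  by_contra hno
  by_cases e : y = t (p + d + J)
  · obtain ⟨w, w1, w2⟩ := third hd c y
    obtain ⟨u, hu, a, u1, -⟩ := H.write ht h w1
    have := H.u hJ hu (h.adm a)
    rw [u1, a.fix (e ▸ hno), ← e] at this
    exact w2 this
  · obtain ⟨u, hu, a, u1, -⟩ := H.write ht h hy
    have h1 := H.u hJ hu (h.adm a)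
    have h2 := a.occ (i := p + d + J) (by simpa using B.ne)
    rw [← h1, u1] at h2
    rcases (occ_iff.1 h2).2 with b | b
    · exact e b.symm
    · exact hno b

theorem Cl.same (H : Cl n J T) (hd : 3 ≤ d) (hJ : 2 ≤ J) (ht : t ∈ T) (h : Head t c p J) :
    ∀ r : ℕ, r < d → t (p + r) = t (p + d + J + r) := by
  intro r
  induction r using Nat.strong_induction_on with
  | _ r ih =>
  intro hr
  rcases Nat.eq_zero_or_pos r with rfl | r0
  · simpa using H.u hJ ht h
  by_contra hne
  have h' := H.next hd hJ ht h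
  have B := H.blk ht h
  have B' := H.blk ht h'
  have ha : t (p + r) ≠ c := B.nc _ (by omega) (by omega)
  obtain ⟨u, hu, a, u1, -⟩ := H.write ht h ha
  have u2 : u (p + d + J) = t (p + r) := by rw [← H.u hJ hu (h.adm a), u1]
  have f1 : ∀ k, p < k → k < p + d → u k = t k := fun k b1 b2 => B.fix a b1 b2
  have f2 : ∀ k, p + d + J < k → k < p + d + J + d → u k = t k := fun k b1 b2 => B'.fix a b1 b2
  by_cases r1 : r = 1
  · subst r1
    push_cast at *
    have h2 : t (p + 1) ≠ t (p + 2) := B.inj _ _ (by omega) (by omega) (by omega)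
    have h3 : t (p + 2) ≠ c := B.nc _ (by omega) (by omega)
    have hs : ({t (p + 1), t (p + 2)} : Finset (Fin d)) ⊆ univ.erase c := by
      intro y hy
      simp only [mem_insert, mem_singleton] at hy
      rcases hy with rfl | rfl
      · simpa using ha
      · simpa using h3
    have a2 := (mk_adm h2 le_rfl (((H.prim u hu).1.term (by simp)).mono hs)).mono hs
    have := H.u hJ (H.mrk _ _ 1 u hu h2 le_rfl) ((h.adm a).adm a2)
    rw [mk_mid (x := p + d + J) (p + d + J + 1) (by omega) (by omega)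
      (by rw [f2 _ (by omega) (by omega)]; exact fun e => hne e.symm), u2,
      mk_hit ⟨fun l b1 b2 => by obtain rfl : l = 1 := by omega
                                exact f1 _ (by omega) (by omega), by
        rw [f1 _ (by omega) (by omega)]; congr 1; push_cast; ring⟩, u1,
      Equiv.swap_apply_left] at this
    exact h2 this.symm
  · have ih' : ∀ k, p < k → k < p + r → t k = t (k + d + J) := fun k b1 b2 => by
      have := ih (k - p).toNat (by omega) (by omega)
      rwa [show p + ((k - p).toNat : ℤ) = k by omega,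
        show p + d + J + ((k - p).toNat : ℤ) = k + d + J by omega] at this
    have hm : ∀ k, p < k → k ≤ p + r → u k ∈ (univ.erase c).erase (t (p + d + J + r)) := by
      intro k b1 b2
      rw [f1 k b1 (by omega)]
      refine mem_erase.2 ⟨?_, by simpa using B.nc k b1.le (by omega)⟩
      rcases b2.eq_or_lt with rfl | b2
      · exact hne
      · rw [ih' k b1 b2]
        exact B'.inj _ _ (by omega) (by omega) (by omega)
    have hC : (univ.erase c).erase (t (p + d + J + r)) ≠ univ := fun e => by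
      have : c ∈ (univ.erase c).erase (t (p + d + J + r)) := e.symm ▸ mem_univ c
      simp at this
    obtain ⟨v, hv, a2, v1, -⟩ := H.mv _ hC u hu p (t (p + 1))
      (by rw [u1]; exact mem_erase.2 ⟨hne, by simpa using ha⟩)
      ⟨p + r, by omega, by rw [u1, f1 _ (by omega) (by omega)], fun k b1 b2 => hm k b1 b2⟩
      ⟨p + 1, le_rfl, f1 _ (by omega) (by omega), fun k b1 b2 => hm k b1 (by omega)⟩
    have v2 : v (p + d + J) = u (p + d + J) := by
      refine a2.fix ?_
      rintro ⟨q, q1, q2, q3⟩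
      have q4 : q < p + d + J + r := by
        by_contra q4
        exact (mem_erase.1 (q3 (p + d + J + r) (by omega) (by omega))).1
          (f2 _ (by omega) (by omega))
      rw [u2, f2 q (by omega) (by omega), show q = q - d - J + d + J by ring,
        ← ih' _ (by omega) (by omega)] at q2
      exact B.inj _ _ (by omega) (by omega) (by omega) q2
    have := H.u hJ hv ((h.adm a).adm (a2.mono (erase_subset _ _)))
    rw [v1, v2, u2] at this
    exact B.inj _ _ (by omega) (by omega) (by omega) this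

theorem Cl.len (H : Cl n J T) (hd : 3 ≤ d) (hJ : 2 ≤ J) (ht : t ∈ T) (h : Head t c p J) :
    n = d + J := by
  have hp := H.prim t ht
  have key : ∀ m : ℕ, ∃ q, p + m - (d + J) < q ∧ q ≤ p + m ∧ Head t c q J ∧
      (q = p ∨ p + (d + J) ≤ q) := by
    intro m
    induction m with
    | zero => exact ⟨p, by omega, by omega, h, .inl rfl⟩
    | succ m ih =>
      obtain ⟨q, q1, q2, q3, q4⟩ := ih
      by_cases e : q + d + J = p + (m + 1 : ℕ)
      · exact ⟨q + d + J, by omega, by omega, H.next hd hJ ht q3, .inr (by omega)⟩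
      · exact ⟨q, by omega, by omega, q3, q4⟩
  have per : ∀ i, p ≤ i → t (i + (d + J : ℕ)) = t i := by
    intro i hi
    obtain ⟨q, q1, q2, q3, -⟩ := key (i - p).toNat
    have B := H.blk ht q3
    by_cases e : i < q + d
    · have := H.same hd hJ ht q3 (i - q).toNat (by omega)
      rw [show q + ((i - q).toNat : ℤ) = i by omega] at this
      rw [this]
      congr 1
      omega
    · rw [B.run i (by omega) (by omega),
        (H.blk ht (H.next hd hJ ht q3)).run _ (by omega) (by omega)]
  have hn := hp.1.1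
  have h1 : n ≤ d + J := by
    by_contra hlt
    refine hp.2 (d + J) (by omega) ⟨by omega, fun i => ?_, hp.1.2.2⟩
    have hn' : (1 : ℤ) ≤ n := by omega
    have h1 : p ≤ i + |i - p| * n := by
      have := neg_abs_le (i - p)
      have := abs_nonneg (i - p)
      nlinarith
    have := per _ h1
    rw [hp.1.zper] at this
    rw [← this, ← hp.1.zper _ |i - p|]
    congr 1
    ring
  have B := H.blk ht h
  by_contra hne
  by_cases e : d ≤ n
  · exact h.ne (by rw [← hp.1.2.1 p]; exact B.run _ (by omega) (by omega))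
  · refine B.nc (p - 1 + n) (by omega) (by omega) ?_
    rw [hp.1.2.1]
    exact h.run _ (by omega) (by omega)

end Pool.Agent.MP_9b2bac_nt.Z.VM

end

section

/- Reduction of primitive words to canonical words. -/

set_option autoImplicit false

namespace Pool.Agent.MP_9b2bac_nt.Z

variable {d : ℕ}

/-- One block of length `d` that starts at `p`, with all letters other than `c` after its first
place; the letter `c` elsewhere. -/
def Can (n : ℕ) (c : Fin d) (p : ℤ) (s : Seq d) : Prop :=
  Per n s ∧ s p ≠ c ∧ (∀ y, y ≠ c → ∃ k : ℕ, 1 ≤ k ∧ k < d ∧ s (p + k) = y) ∧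
    ∀ k : ℕ, d ≤ k → k < n → s (p + k) = c

theorem head_exists (hd : 3 ≤ d) {n : ℕ} (hn : d < n) {s : Seq d} (hs : Prim n s) :
    ∃ c p, s (p - 1) = c ∧ s p ≠ c ∧ ∀ y, y ≠ c → Occ (Finset.univ.erase c) s (p + 1) y := by
  have _ := hd
  obtain ⟨c, p, h⟩ := VM.head_one hn hs
  exact ⟨c, p, h.run _ (by omega) (by omega), h.ne, h.occ⟩

theorem to_can (hd : 3 ≤ d) {n : ℕ} (hn : d + 2 ≤ n) (O : Set (Seq d))
    (hmk : ∀ u v j s, u ≠ v → 1 ≤ j → Prim n s → Prim n (mk u v j s) ∧ (s ∈ O ↔ mk u v j s ∈ O))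
    (hmv : ∀ C, C ≠ Finset.univ → MvO n O C) {s : Seq d} (hs : Prim n s) :
    ∃ t c p, Prim n t ∧ Can n c p t ∧ (s ∈ O ↔ t ∈ O) := by
  have hJ : ∃ J, 1 ≤ J ∧ (∃ t c p, (Prim n t ∧ (s ∈ O ↔ t ∈ O)) ∧ VM.Head t c p J) ∧
      ¬ ∃ t c p, (Prim n t ∧ (s ∈ O ↔ t ∈ O)) ∧ VM.Head t c p (J + 1) := by
    by_contra hno
    have key : ∀ J, 1 ≤ J → ∃ t c p, (Prim n t ∧ (s ∈ O ↔ t ∈ O)) ∧ VM.Head t c p J := by
      intro J hJ
      induction J, hJ using Nat.le_induction with
      | base =>
        obtain ⟨c, p, h⟩ := VM.head_one (by omega) hs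
        exact ⟨s, c, p, ⟨hs, Iff.rfl⟩, h⟩
      | succ J hJ ih =>
        by_contra h
        exact hno ⟨J, hJ, ih, h⟩
    obtain ⟨t, c, p, ht, h⟩ := key n (by omega)
    refine h.ne ?_
    rw [← h.run (p - n) le_rfl (by omega), ← ht.1.1.2.1 (p - n), sub_add_cancel]
  obtain ⟨J, J1, ⟨t, c, p, ht, h⟩, hmax⟩ := hJ
  have H : VM.Cl n J {t | Prim n t ∧ (s ∈ O ↔ t ∈ O)} := by
    refine ⟨fun t ht => ht.1, fun u v j t ht huv hj => ?_, fun C hC t ht i x a b e => ?_, J1,
      fun t ht c p h => hmax ⟨t, c, p, ht, h⟩⟩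
    · obtain ⟨a, b⟩ := hmk u v j t huv hj ht.1
      exact ⟨a, ht.2.trans b⟩
    · obtain ⟨u, u1, u2, u3, u4, u5⟩ := hmv C hC t i x ht.1 a b e
      exact ⟨u, ⟨u1, ht.2.trans u5⟩, u2, u3, u4⟩
  have J2 : 2 ≤ J := by
    by_contra hlt
    obtain rfl : J = 1 := by omega
    exact H.one_false hd hn ht h
  have e := H.len hd J2 ht h
  have B := H.blk ht h
  refine ⟨t, c, p, ht.1, ⟨ht.1.1, h.ne, fun y hy => ?_, fun k a b => ?_⟩, ht.2⟩
  · obtain ⟨k, k1, k2, k3⟩ := B.sur y hy
    exact ⟨(k - p).toNat, by omega, by omega, by rw [← k3]; congr 1; omega⟩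
  · exact B.run _ (by omega) (by omega)

end Pool.Agent.MP_9b2bac_nt.Z

end

section

/- The solutions attached to the blocks of a cluster. -/

set_option autoImplicit false

namespace Pool.Agent.MP_9b2bac_nt.Z

open Finset

variable {d : ℕ}

/-- Coefficients of the normal form of a cluster `C`. -/
structure Clu {R : Type} [CommRing R] (C : Finset (Fin d)) (lam : Fin d → R) (ε π : R)
    (t : Fin d → Fin d → R) : Prop where
  mem : ∀ j k, j ∈ C → k ∈ C → j ≠ k → (lam j - lam k) * t j k = ε
  out : ∀ j k, ¬(j ∈ C ∧ k ∈ C) → t j k = 0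
  dvd : ∀ j k, j ≠ k → π ∣ t j k
  haus : ∀ x : R, (∀ n, π ^ n ∣ x) → x = 0
  inj : Function.Injective lam
  eps : ε ≠ 0

/-- A state `w` with root `x` above the state `w'`. -/
structure Stp {R : Type} [CommRing R] (C : Finset (Fin d)) (lam : Fin d → R) (ε : R)
    (w' : Fin d → R) (x : R) (w : Fin d → R) : Prop where
  step : ∀ j ∈ C, ε * w' j = (lam j - x) * w j
  out : ∀ j, j ∉ C → w j = 0
  sum : ∑ j, w j = 1

/-- The polynomial whose roots lie above the state `w'`. -/
noncomputable def GP {R : Type} [CommRing R] (C : Finset (Fin d)) (lam : Fin d → R) (ε : R)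
    (w' : Fin d → R) : Polynomial R :=
  ∏ j ∈ C, (Polynomial.X - Polynomial.C (lam j)) + Polynomial.C ε *
    ∑ j ∈ C, Polynomial.C (w' j) * ∏ k ∈ C.erase j, (Polynomial.X - Polynomial.C (lam k))

section Abs

variable {R : Type} [CommRing R] {C : Finset (Fin d)} {lam : Fin d → R} {ε π : R}
  {t : Fin d → Fin d → R} {w : Seq d → Fin d → R} {ξ : Seq d → R} {s s' : Seq d}

theorem Stp.map {R' : Type} [CommRing R'] (f : R →+* R') {a b : Fin d → R} {x : R}
    (h : Stp C lam ε a x b) :
    Stp C (fun j => f (lam j)) (f ε) (fun j => f (a j)) (f x) (fun j => f (b j)) where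
  step j hj := by simpa using congrArg f (h.step j hj)
  out j hj := by simp [h.out j hj]
  sum := by rw [← map_sum, h.sum, map_one]

theorem Stp.sumC {a b : Fin d → R} {x : R} (h : Stp C lam ε a x b) : ∑ j ∈ C, b j = 1 := by
  rw [← h.sum]; exact sum_subset (subset_univ _) fun j _ hj => h.out j hj

theorem Stp.root {a b : Fin d → R} {x : R} (h : Stp C lam ε a x b) :
    (GP C lam ε a).eval x = 0 := by
  simp only [GP, Polynomial.eval_add, Polynomial.eval_mul, Polynomial.eval_prod,
    Polynomial.eval_finset_sum, Polynomial.eval_sub, Polynomial.eval_X, Polynomial.eval_C, mul_sum]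
  rw [sum_congr rfl (g := fun j => -(b j * ∏ k ∈ C, (x - lam k))) fun j hj => by
    rw [← mul_prod_erase C _ hj, ← mul_assoc, h.step j hj]; ring, sum_neg_distrib, ← sum_mul,
    h.sumC]
  ring

theorem Stp.x_eq {a b : Fin d → R} {x : R} (h : Stp C lam ε a x b) :
    x = ∑ j ∈ C, lam j * b j - ε * ∑ j ∈ C, a j := by
  have h1 : ∑ j ∈ C, ε * a j = ∑ j ∈ C, (lam j - x) * b j := sum_congr rfl h.step
  simp only [sub_mul, sum_sub_distrib, ← mul_sum, h.sumC] at h1
  linear_combination h1

theorem Stp.det [IsDomain R] (hl : Function.Injective lam) {a b b' : Fin d → R} {x : R}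
    (h : Stp C lam ε a x b) (h' : Stp C lam ε a x b') : b = b' := by
  have h1 : ∀ j, lam j ≠ x → b j = b' j := fun j hj => by
    by_cases hC : j ∈ C
    · exact mul_left_cancel₀ (sub_ne_zero.2 hj) ((h.step j hC).symm.trans (h'.step j hC))
    · rw [h.out j hC, h'.out j hC]
  funext j
  by_cases hj : lam j = x
  · have e := h.sum.trans h'.sum.symm
    rw [← add_sum_erase _ _ (mem_univ j), ← add_sum_erase _ b' (mem_univ j),
      sum_congr rfl fun k hk => h1 k fun e => ne_of_mem_erase hk (hl (e.trans hj.symm))] at e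
    exact add_right_cancel e
  · exact h1 j hj

theorem GP_map {R' : Type} [CommRing R'] (f : R →+* R') (a : Fin d → R) :
    (GP C lam ε a).map f = GP C (fun j => f (lam j)) (f ε) (fun j => f (a j)) := by
  simp [GP, Polynomial.map_prod, Polynomial.map_sum]

theorem GP_congr {a b : Fin d → R} (h : ∀ j ∈ C, a j = b j) : GP C lam ε a = GP C lam ε b := by
  unfold GP
  rw [sum_congr rfl fun j hj => by rw [h j hj]]

theorem GP_monic [Nontrivial R] (a : Fin d → R) :
    (GP C lam ε a).Monic ∧ (GP C lam ε a).natDegree = #C := by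
  have hm : ∀ D : Finset (Fin d), (∏ j ∈ D, (Polynomial.X - Polynomial.C (lam j))).Monic :=
    fun D => Polynomial.monic_prod_of_monic _ _ fun _ _ => Polynomial.monic_X_sub_C _
  have hd : ∀ D : Finset (Fin d), (∏ j ∈ D, (Polynomial.X - Polynomial.C (lam j))).natDegree = #D :=
    fun D => by rw [Polynomial.natDegree_prod_of_monic _ _ fun _ _ => Polynomial.monic_X_sub_C _]; simp
  have hlt : (Polynomial.C ε * ∑ j ∈ C, Polynomial.C (a j) *
      ∏ k ∈ C.erase j, (Polynomial.X - Polynomial.C (lam k))).degree <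
      (∏ j ∈ C, (Polynomial.X - Polynomial.C (lam j))).degree := by
    rw [Polynomial.degree_eq_natDegree (hm C).ne_zero, hd, mul_sum]
    refine (Polynomial.degree_sum_le _ _).trans_lt
      ((Finset.sup_lt_iff (WithBot.bot_lt_coe _)).2 fun j hj => ?_)
    rw [← mul_assoc, ← Polynomial.C_mul]
    refine Polynomial.degree_le_natDegree.trans_lt ?_
    exact_mod_cast (Polynomial.natDegree_C_mul_le _ _).trans_lt
      (by rw [hd]; exact card_erase_lt_of_mem hj)
  exact ⟨(hm C).add_of_left hlt, (Polynomial.natDegree_add_eq_left_of_degree_lt hlt).trans (hd C)⟩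

variable [IsDomain R] (h : Clu C lam ε π t) (nf : NF t w ξ)
include h nf

theorem Clu.out_val (hs : s 0 ∉ C) (j : Fin d) : w s j = if j = s 0 then 1 else 0 := by
  have h1 : ∀ j, j ≠ s 0 → w s j = 0 := fun j hj => by
    rw [nf.off s j hj, h.out j _ fun e => hs e.2, zero_mul]
  split_ifs with hj
  · rw [hj, nf.diag_eq, sum_eq_zero fun j hj => h1 j (ne_of_mem_erase hj), sub_zero]
  · exact h1 j hj

theorem Clu.stp (hs : s 0 ∈ C) : Stp C lam ε (w (sh s)) (lam (s 0) + ε * ξ s) (w s) where
  step j hC := by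
    by_cases hj : j = s 0
    · rw [hj]; linear_combination ε * nf.diag s
    · linear_combination (-(lam j - lam (s 0))) * nf.off s j hj -
        (w (sh s) j + ξ s * w s j) * h.mem j (s 0) hC hs hj
  out j hj := by rw [nf.off s j fun e => hj (e ▸ hs), h.out j _ fun e => hj e.1, zero_mul]
  sum := nf.sum s

theorem Clu.const (s : Seq d) (j : Fin d) : π ∣ w s j - if j = s 0 then 1 else 0 := by
  have h1 : ∀ j, j ≠ s 0 → π ∣ w s j := fun j hj => by
    rw [nf.off s j hj]; exact (h.dvd _ _ hj).mul_right _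
  split_ifs with hj
  · rw [hj, nf.diag_eq, sub_sub_cancel_left, dvd_neg]
    exact dvd_sum fun j hj => h1 j (ne_of_mem_erase hj)
  · rw [sub_zero]; exact h1 j hj

omit nf in
theorem Clu.nu : ¬ π ∣ 1 := fun e =>
  one_ne_zero (h.haus 1 fun n => by simpa using pow_dvd_pow_of_dvd e n)

theorem Clu.zero_eq (e : w s = w s') : s 0 = s' 0 := by
  by_contra hc
  have h1 := h.const nf s (s 0)
  have h2 := h.const nf s' (s 0)
  rw [if_pos rfl, e] at h1
  rw [if_neg hc] at h2
  exact h.nu (by simpa using dvd_sub h2 h1)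

theorem Clu.x_ne {a b : Fin d} (ha : a ∈ C) (hb : b ∈ C) (hab : a ≠ b) (x y : R) :
    lam a + ε * x ≠ lam b + ε * y := fun e => by
  have h1 : (lam a - lam b) * (1 + t a b * (x - y)) = 0 := by
    linear_combination e + (x - y) * h.mem a b ha hb hab
  have h2 := (mul_eq_zero.1 h1).resolve_left (sub_ne_zero.2 fun e => hab (h.inj e))
  exact h.nu (by
    rw [show (1 : R) = t a b * (y - x) by linear_combination h2]
    exact (h.dvd a b hab).mul_right _)

theorem Clu.step_eq (e0 : s 0 = s' 0) (e : ∀ j ∈ C, w (sh s) j = w (sh s') j) :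
    w s = w s' ∧ (s 0 ∈ C → ξ s = ξ s') := by
  by_cases hs : s 0 ∈ C
  swap
  · exact ⟨funext fun j => by rw [h.out_val nf hs, h.out_val nf (e0 ▸ hs), e0], fun a => absurd a hs⟩
  have key : ∀ n, (∀ j, π ^ n ∣ w s j - w s' j) ∧ π ^ n ∣ ξ s - ξ s' := by
    intro n
    induction n with
    | zero => simp
    | succ n ih =>
      have h1 : ∀ j, j ≠ s 0 → π ^ (n + 1) ∣ w s j - w s' j := by
        intro j hj
        by_cases hC : j ∈ C
        · have a := nf.off s' j (e0 ▸ hj)
          rw [← e0, ← e j hC] at a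
          have : w s j - w s' j = t j (s 0) * (ξ s * (w s j - w s' j) + (ξ s - ξ s') * w s' j) := by
            linear_combination nf.off s j hj - a
          rw [this, pow_succ']
          exact mul_dvd_mul (h.dvd _ _ hj) (dvd_add ((ih.1 _).mul_left _) (ih.2.mul_right _))
        · rw [(h.stp nf hs).out j hC, (h.stp nf (e0 ▸ hs)).out j hC]; simp
      have h2 : π ^ (n + 1) ∣ w s (s 0) - w s' (s 0) := by
        have a := nf.diag_eq s'
        rw [← e0] at a
        rw [a, nf.diag_eq s, sub_sub_sub_cancel_left, ← sum_sub_distrib]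
        exact dvd_sum fun j hj => dvd_sub_comm.1 (h1 j (ne_of_mem_erase hj))
      refine ⟨fun j => by by_cases hj : j = s 0; exacts [hj ▸ h2, h1 j hj], ?_⟩
      have a := nf.diag s'
      rw [← e0, ← e _ hs] at a
      have b := h.const nf s (s 0)
      rw [if_pos rfl] at b
      have : ξ s - ξ s' = -((ξ s - ξ s') * (w s (s 0) - 1)) - ξ s' * (w s (s 0) - w s' (s 0)) := by
        linear_combination nf.diag s - a
      rw [this, pow_succ]
      exact dvd_sub (dvd_neg.2 (mul_dvd_mul ih.2 b)) (by rw [← pow_succ]; exact h2.mul_left _)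
  exact ⟨funext fun j => sub_eq_zero.1 (h.haus _ fun n => (key n).1 j),
    fun _ => sub_eq_zero.1 (h.haus _ fun n => (key n).2)⟩

theorem Clu.loc (m : ℕ) (e : ∀ k : ℕ, k ≤ m → s k = s' k) (hs : s (m + 1) ∉ C)
    (hs' : s' (m + 1) ∉ C) : w s = w s' ∧ (s 0 ∈ C → ξ s = ξ s') := by
  induction m generalizing s s' with
  | zero =>
    refine h.step_eq nf (by simpa using e 0 le_rfl) fun j hj => ?_
    have a : sh s 0 ∉ C := by simpa [sh] using hs
    have b : sh s' 0 ∉ C := by simpa [sh] using hs'
    rw [h.out_val nf a, h.out_val nf b, if_neg fun e : j = sh s 0 => a (e ▸ hj),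
      if_neg fun e : j = sh s' 0 => b (e ▸ hj)]
  | succ m ih =>
    have := ih (s := sh s) (s' := sh s') (fun k hk => by simpa [sh] using e (k + 1) (by omega))
      (by simpa [sh] using hs) (by simpa [sh] using hs')
    exact h.step_eq nf (by simpa using e 0 (by omega)) fun j _ => by rw [this.1]

theorem Clu.sh_update (hs : Term C s) (b : Fin d) :
    w (sh (Function.update s 0 b)) = w (sh s) := by
  obtain ⟨m, hm⟩ := hs 2
  have a : ∀ k : ℤ, 0 ≤ k → sh (Function.update s 0 b) k = sh s k := fun k hk =>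
    Function.update_of_ne (by omega) _ _
  have c : sh s (m + 1) ∉ C := by rwa [sh, show (m : ℤ) + 1 + 1 = 2 + m by ring]
  exact (h.loc nf m (fun k _ => a k (by omega)) (by rwa [a _ (by omega)]) c).1

theorem Clu.stp_update (hs : Term C s) {b : Fin d} (hb : b ∈ C) : Stp C lam ε (w (sh s))
    (lam b + ε * ξ (Function.update s 0 b)) (w (Function.update s 0 b)) := by
  have := h.stp nf (s := Function.update s 0 b) (by simpa using hb)
  rwa [h.sh_update nf hs, Function.update_self] at this

theorem Clu.fac (hs : Term C s) : GP C lam ε (w (sh s)) =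
    ∏ b ∈ C, (Polynomial.X - Polynomial.C (lam b + ε * ξ (Function.update s 0 b))) := by
  have hm : (∏ b ∈ C, (Polynomial.X - Polynomial.C (lam b + ε * ξ (Function.update s 0 b)))).Monic :=
    Polynomial.monic_prod_of_monic _ _ fun _ _ => Polynomial.monic_X_sub_C _
  have hd : (∏ b ∈ C, (Polynomial.X - Polynomial.C (lam b + ε * ξ (Function.update s 0 b)))).natDegree
      = #C := by
    rw [Polynomial.natDegree_prod_of_monic _ _ fun _ _ => Polynomial.monic_X_sub_C _]
    simp only [Polynomial.natDegree_X_sub_C, sum_const, smul_eq_mul, mul_one]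
  obtain ⟨g1, g2⟩ := GP_monic (C := C) (lam := lam) (ε := ε) (w (sh s))
  refine Polynomial.eq_of_degree_sub_lt_of_eval_index_eq C
    (v := fun b => lam b + ε * ξ (Function.update s 0 b))
    (fun a ha b hb e => by_contra fun c => h.x_ne nf ha hb c _ _ e) ?_ fun b hb => ?_
  · rw [← g2, ← Polynomial.degree_eq_natDegree g1.ne_zero]
    refine Polynomial.degree_sub_lt ?_ g1.ne_zero (g1.leadingCoeff.trans hm.leadingCoeff.symm)
    rw [Polynomial.degree_eq_natDegree g1.ne_zero, Polynomial.degree_eq_natDegree hm.ne_zero, g2, hd]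
  · rw [(h.stp_update nf hs hb).root, Polynomial.eval_prod, prod_eq_zero hb (by simp)]

theorem Clu.occ (hs : Term C s) (j : Fin d) (hj : j ∈ C) : w s j ≠ 0 ↔ Occ C s 0 j := by
  obtain ⟨m, hm⟩ := hs 0
  rw [zero_add] at hm
  clear hs
  have h0 : ∀ s : Seq d, s 0 ∉ C → (w s j ≠ 0 ↔ Occ C s 0 j) := fun s a => by
    rw [h.out_val nf a, if_neg fun e : j = s 0 => a (e ▸ hj)]
    exact ⟨fun b => absurd rfl b, fun b => absurd b.mem a⟩
  induction m generalizing s with
  | zero => exact h0 s hm
  | succ m ih =>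
    by_cases a : s 0 ∈ C
    swap
    · exact h0 s a
    rw [occ_iff]
    by_cases b : s 0 = j
    · refine iff_of_true (fun e => h.nu ?_) ⟨a, .inl b⟩
      simpa [e, b] using h.const nf s j
    have c := (h.stp nf a).step j hj
    have c' : lam j - (lam (s 0) + ε * ξ s) ≠ 0 :=
      sub_ne_zero.2 (by simpa using h.x_ne nf hj a (Ne.symm b) 0 (ξ s))
    have i1 : w (sh s) j ≠ 0 ↔ Occ C (sh s) 0 j := ih (s := sh s) (by simpa [sh] using hm)
    have i2 : Occ C (sh s) 0 j ↔ Occ C s (0 + 1) j := occ_shf (s := s) (a := 1)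
    rw [← i2, ← i1]
    simp only [a, b, true_and, false_or]
    refine not_congr ⟨fun e => ?_, fun e => ?_⟩
    · rw [e, mul_zero] at c; exact (mul_eq_zero.1 c).resolve_left h.eps
    · rw [e, mul_zero] at c; exact (mul_eq_zero.1 c.symm).resolve_left c'

theorem Clu.fw (e : w s = w s') (h0 : s 0 ∈ C) (h1 : s 1 ∈ C) (h1' : s' 1 ∈ C) :
    w (sh s) = w (sh s') := by
  have e0 := h.zero_eq nf e
  have a := h.stp nf h0
  have b := h.stp nf (e0 ▸ h0)
  have a1 := h.stp nf (s := sh s) (by simpa [sh] using h1)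
  have b1 := h.stp nf (s := sh s') (by simpa [sh] using h1')
  have x := a.x_eq
  have y := b.x_eq
  rw [a1.sumC] at x
  rw [b1.sumC, ← e, ← x] at y
  rw [y, ← e] at b
  funext j
  by_cases hj : j ∈ C
  · exact mul_left_cancel₀ h.eps ((a.step j hj).trans (b.step j hj).symm)
  · rw [a1.out j hj, b1.out j hj]

end Abs

variable (A : Type) [CommRing A] [IsDomain A]

/-- The coefficients of the generic cluster. -/
noncomputable def tC (C : Finset (Fin d)) (j k : Fin d) : PowerSeries (BB A d) :=
  if j ∈ C ∧ k ∈ C then t0 A j k else 0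

theorem tC_dvd (C : Finset (Fin d)) (j k : Fin d) (h : j ≠ k) : PowerSeries.X ∣ tC A C j k := by
  unfold tC; split_ifs
  exacts [t0_dvd A j k h, dvd_zero _]

/-- The generic solution of a cluster. -/
noncomputable def wC (C : Finset (Fin d)) : Seq d → Fin d → PowerSeries (BB A d) :=
  (exists_NF (tC A C) (tC_dvd A C)).choose

/-- The generic solution of a cluster. -/
noncomputable def xiC (C : Finset (Fin d)) : Seq d → PowerSeries (BB A d) :=
  (exists_NF (tC A C) (tC_dvd A C)).choose_spec.choose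

theorem nfC (C : Finset (Fin d)) : NF (tC A C) (wC A C) (xiC A C) :=
  (exists_NF (tC A C) (tC_dvd A C)).choose_spec.choose_spec

theorem cluC (C : Finset (Fin d)) : Clu C (fun j => PowerSeries.C (lB A j)) PowerSeries.X
    PowerSeries.X (tC A C) where
  mem j k hj hk e := by rw [tC, if_pos ⟨hj, hk⟩, t0_spec A j k e]
  out j k e := if_neg e
  dvd := tC_dvd A C
  haus x hx := PowerSeries.ext fun n => by
    simpa using PowerSeries.X_pow_dvd_iff.1 (hx (n + 1)) n (by omega)
  inj j k e := by_contra fun c =>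
    (lB_unit (A := A) c).ne_zero (sub_eq_zero.2 (PowerSeries.C_injective e))
  eps := PowerSeries.X_ne_zero

theorem wC_univ : wC A (univ : Finset (Fin d)) = w0 A := by
  have e : tC A (univ : Finset (Fin d)) = t0 A := by funext j k; simp [tC]
  exact (NF.unique PowerSeries.X (cluC A (univ : Finset (Fin d))).haus (t0_dvd A)
    (e ▸ nfC A univ) (nf0 A)).1

/-- The ring generated by the solutions of a cluster. -/
noncomputable def RC (C : Finset (Fin d)) :
    Subalgebra (Polynomial (AA A d)) (PowerSeries (BB A d)) :=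
  Algebra.adjoin _ (Set.range fun p : Seq d × Fin d => wC A C p.1 p.2)

/-- The generators. -/
noncomputable def zC (C : Finset (Fin d)) (s : Seq d) (j : Fin d) : RC A C :=
  ⟨wC A C s j, Algebra.subset_adjoin ⟨(s, j), rfl⟩⟩

/-- Automorphisms over the generic roots and the scaling variable. -/
abbrev Gam (d : ℕ) := Om A d ≃ₐ[Polynomial (AA A d)] Om A d

/-- The states in the big field. -/
noncomputable def st (C : Finset (Fin d)) (s : Seq d) (j : Fin d) : Om A d := io A d (wC A C s j)

variable {A}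

/-- `γ` maps the states of the word `s` to the states of the word `t`. -/
def Act (C : Finset (Fin d)) (γ : Gam A d) (s t : Seq d) : Prop :=
  ∀ i j, γ (st A C (shf s i) j) = st A C (shf t i) j

variable {C : Finset (Fin d)} {γ δ : Gam A d} {s t r s' t' : Seq d}

theorem shf_shf (s : Seq d) (a i : ℤ) : Z.shf (Z.shf s a) i = Z.shf s (i + a) :=
  funext fun k => congrArg s (add_assoc _ _ _)

theorem gam_X (γ : Gam A d) : γ (io A d PowerSeries.X) = io A d PowerSeries.X := by
  rw [← alg_X, ← IsScalarTower.algebraMap_apply]; exact γ.commutes _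

theorem gam_l (γ : Gam A d) (j : Fin d) :
    γ (io A d (PowerSeries.C (lB A j))) = io A d (PowerSeries.C (lB A j)) := by
  rw [lB, ← alg_C, ← IsScalarTower.algebraMap_apply]; exact γ.commutes _

theorem st_inj (e : ∀ j, st A C s j = st A C t j) : wC A C s = wC A C t :=
  funext fun j => io_inj (e j)

theorem gam_out (γ : Gam A d) (hs : s 0 ∉ C) (j : Fin d) : γ (st A C s j) = st A C s j := by
  rw [st, (cluC A C).out_val (nfC A C) hs]
  split_ifs <;> simp

theorem alg_wC (hs : Term C s) (j : Fin d) : IsAlgebraic (Polynomial (AA A d)) (wC A C s j) := by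
  obtain ⟨m, hm⟩ := hs 0
  rw [zero_add] at hm
  clear hs
  have h := cluC A C
  have nf := nfC A C
  have h0 : ∀ s : Seq d, s 0 ∉ C → ∀ j, IsAlgebraic (Polynomial (AA A d)) (wC A C s j) :=
    fun s a j => by
      rw [h.out_val nf a]; split_ifs
      exacts [isAlgebraic_one, isAlgebraic_zero]
  induction m generalizing s j with
  | zero => exact h0 s hm j
  | succ m ih =>
    by_cases a : s 0 ∈ C
    swap
    · exact h0 s a j
    have i1 : ∀ j, IsAlgebraic (Polynomial (AA A d)) (wC A C (sh s) j) := fun j =>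
      ih (s := sh s) j (by simpa [sh] using hm)
    let T := Subalgebra.algebraicClosure (Polynomial (AA A d)) (PowerSeries (BB A d))
    have hX : PowerSeries.X ∈ T := alg_X (A := A) (d := d) ▸ T.algebraMap_mem _
    have hl : ∀ j, PowerSeries.C (lB A j) ∈ T := fun j => by
      rw [lB, ← alg_C]; exact T.algebraMap_mem _
    have b := h.stp nf a
    set x := PowerSeries.C (lB A (s 0)) + PowerSeries.X * xiC A C s with hx
    have c : x ∈ T := by
      refine IsIntegral.trans_isAlgebraic (S := T) _ ⟨GP C (fun j => ⟨_, hl j⟩) ⟨_, hX⟩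
        fun j => ⟨_, i1 j⟩, (GP_monic _).1, ?_⟩
      rw [← Polynomial.eval_map, GP_map]
      exact b.root
    have h1 : ∀ j, j ≠ s 0 → wC A C s j ∈ T := fun j hj => by
      by_cases hC : j ∈ C
      · have c' : PowerSeries.C (lB A j) - x ≠ 0 :=
          sub_ne_zero.2 (by simpa using h.x_ne nf hC a hj 0 (xiC A C s))
        exact IsAlgebraic.of_mul (mem_nonZeroDivisors_of_ne_zero c') (T.sub_mem (hl j) c)
          (b.step j hC ▸ T.mul_mem hX (i1 j))
      · rw [b.out j hC]; exact T.zero_mem
    by_cases hj : j = s 0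
    · rw [hj, nf.diag_eq]
      exact T.sub_mem T.one_mem (T.sum_mem fun j hj => h1 j (ne_of_mem_erase hj))
    · exact h1 j hj

theorem exists_actC (γ : Gam A d) (hs : Term C s) : ∃ t, Act C γ s t := by
  classical
  have h := cluC A C
  have nf := nfC A C
  let t : Seq d := fun i =>
    if e : ∃ u, ∀ j, γ (st A C (Z.shf s i) j) = st A C u j then e.choose 0 else s i
  have k1 : ∀ i u, (∀ j, γ (st A C (Z.shf s i) j) = st A C u j) → t i = u 0 := fun i u e => by
    have e' : ∃ u, ∀ j, γ (st A C (Z.shf s i) j) = st A C u j := ⟨u, e⟩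
    simp only [t, dif_pos e']
    exact h.zero_eq nf (st_inj fun j => (e'.choose_spec j).symm.trans (e j))
  have k2 : ∀ i, s i ∉ C → t i = s i := fun i a =>
    (k1 i _ (gam_out γ (by simpa using a))).trans (by simp)
  have ht : Term C t := fun i => let ⟨m, hm⟩ := hs i; ⟨m, by rwa [k2 _ hm]⟩
  have h0 : ∀ i, s i ∉ C → ∀ j, γ (st A C (Z.shf s i) j) = st A C (Z.shf t i) j := fun i a j => by
    rw [gam_out γ (by simpa using a), st, st, h.out_val nf (by simpa using a),
      h.out_val nf (by simpa [k2 i a] using a)]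
    simp [k2 i a]
  have key : ∀ m : ℕ, ∀ i, s (i + m) ∉ C →
      ∀ j, γ (st A C (Z.shf s i) j) = st A C (Z.shf t i) j := by
    intro m
    induction m with
    | zero => exact fun i a => h0 i (by simpa using a)
    | succ m ih =>
      intro i a
      by_cases b : s i ∈ C
      swap
      · exact h0 i b
      have i1 := ih (i + 1) (by rwa [Nat.cast_succ, add_comm (m : ℤ), ← add_assoc] at a)
      have c := ((h.stp nf (s := Z.shf s i) (by simpa using b)).map (io A d)).map
        (γ : Om A d →+* Om A d)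
      simp only [sh_shf, RingHom.coe_coe, gam_X, gam_l] at c
      have i2 : (fun j => γ (io A d (wC A C (Z.shf s (i + 1)) j))) =
        fun j => io A d (wC A C (sh (Z.shf t i)) j) := funext fun j => by rw [sh_shf]; exact i1 j
      rw [i2] at c
      have r := c.root
      rw [← GP_map, h.fac nf (ht.shf i), Polynomial.map_prod, Polynomial.eval_prod,
        prod_eq_zero_iff] at r
      obtain ⟨x, hx, r⟩ := r
      rw [Polynomial.map_sub, Polynomial.map_X, Polynomial.map_C, Polynomial.eval_sub,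
        Polynomial.eval_X, Polynomial.eval_C, sub_eq_zero] at r
      rw [r] at c
      have e := congrFun (Stp.det (io_inj.comp h.inj) c
        ((h.stp_update nf (ht.shf i) hx).map (io A d)))
      have f := k1 i _ e
      rw [Function.update_self] at f
      rw [← f, ← shf_apply_zero t i, Function.update_eq_self] at e
      exact e
  exact ⟨t, fun i => let ⟨m, hm⟩ := hs i; key m i hm⟩

theorem Act.adm (hs : Term C s) (h : Act C γ s t) : Adm C s t := by
  have hc := cluC A C
  have nf := nfC A C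
  have k2 : ∀ i, s i ∉ C → t i = s i := fun i a => by
    simpa using hc.zero_eq nf (st_inj fun j => (h i j).symm.trans
      (gam_out (s := Z.shf s i) γ (by simpa using a) j))
  have ht : Term C t := fun i => let ⟨m, hm⟩ := hs i; ⟨m, by rwa [k2 _ hm]⟩
  refine fun i => ⟨k2 i, fun j => ?_⟩
  by_cases hj : j ∈ C
  · have a := hc.occ nf (hs.shf i) j hj
    have b := hc.occ nf (ht.shf i) j hj
    rw [occ_shf, zero_add] at a b
    rw [← a, ← b, ← map_ne_zero_iff _ (io_inj (A := A) (d := d)), ← map_ne_zero_iff γ γ.injective,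
      ← map_ne_zero_iff (x := wC A C (Z.shf t i) j) _ (io_inj (A := A) (d := d))]
    exact iff_of_eq (congrArg (· ≠ 0) (h i j))
  · exact iff_of_false (fun a => hj a.mem') fun a => hj a.mem'

theorem Act.refl (C : Finset (Fin d)) (s : Seq d) : Act C (1 : Gam A d) s s := fun _ _ => rfl

theorem Act.symm (h : Act C γ s t) : Act C γ⁻¹ t s := fun i j =>
  (AlgEquiv.symm_apply_eq γ).2 (h i j).symm

theorem Act.trans (h : Act C γ s t) (h' : Act C δ t r) : Act C (δ * γ) s r := fun i j => by
  rw [AlgEquiv.mul_apply, h, h']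

theorem Act.shf (h : Act C γ s t) (a : ℤ) : Act C γ (Z.shf s a) (Z.shf t a) := fun i j => by
  rw [shf_shf, shf_shf, h]

theorem Act.eq (h : Act C γ s t) (h' : Act C γ s' t') {i i' : ℤ}
    (e : wC A C (Z.shf s i) = wC A C (Z.shf s' i')) : t i = t' i' := by
  simpa using (cluC A C).zero_eq (nfC A C) (s := Z.shf t i) (s' := Z.shf t' i')
    (st_inj fun j => by rw [← h i j, ← h' i' j, st, st, e])

/-- Locality: words with the same block have images with the same block. -/
theorem Act.loc (h : Act C γ s t) (h' : Act C γ s' t') (i : ℤ) (m : ℕ)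
    (e : ∀ k : ℕ, k ≤ m → s (i + k) = s' (i + k)) (hs : s (i + m + 1) ∉ C)
    (hs' : s' (i + m + 1) ∉ C) : t i = t' i :=
  h.eq h' ((cluC A C).loc (nfC A C) m (fun k hk => by simpa [Z.shf, add_comm] using e k hk)
    (by rwa [Z.shf, show (m : ℤ) + 1 + i = i + m + 1 by ring])
    (by rwa [Z.shf, show (m : ℤ) + 1 + i = i + m + 1 by ring])).1

theorem Act.of_eq (h : Act C γ s t) (hs : Term C s) (e : ∀ j, γ (st A C s j) = st A C s' j)
    (i : ℕ) (hi : ∀ k : ℕ, k ≤ i → s k ∈ C ∧ s' k ∈ C) : t i = s' i := by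
  have a := h.adm hs
  have key : ∀ k : ℕ, k ≤ i → wC A C (Z.shf t k) = wC A C (Z.shf s' k) := by
    intro k
    induction k with
    | zero => exact fun _ => st_inj fun j => by simpa using (h 0 j).symm.trans (by simpa using e j)
    | succ k ih =>
      intro hk
      have := (cluC A C).fw (nfC A C) (ih (by omega))
        (by simpa using (a.mem_iff _).2 (hi k (by omega)).1)
        (by simpa [Z.shf, add_comm] using (a.mem_iff _).2 (hi (k + 1) hk).1)
        (by simpa [Z.shf, add_comm] using (hi (k + 1) hk).2)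
      simpa only [sh_shf, Nat.cast_succ] using this
  simpa using (cluC A C).zero_eq (nfC A C) (key i le_rfl)

end Pool.Agent.MP_9b2bac_nt.Z

end

section

/- Clusters of two letters. -/

set_option autoImplicit false

namespace Pool.Agent.MP_9b2bac_nt.Z

variable {d : ℕ} {A : Type} [CommRing A] [IsDomain A]

namespace VBin

variable (A) in
/-- Substitution of `c` for the root of index `b`. -/
noncomputable def sub (b : Fin d) (c : AA A d) : Polynomial (AA A d) →+* Polynomial (AA A d) :=
  Polynomial.mapRingHom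
    (MvPolynomial.aeval (Function.update MvPolynomial.X b c) : AA A d →ₐ[A] AA A d).toRingHom

variable (A) in
/-- The elements that do not involve the root of index `b`. -/
def S0 (b : Fin d) : Subring (Polynomial (AA A d)) where
  carrier := {p | ∀ c, sub A b c p = p}
  mul_mem' := fun {x y} hx hy c => by rw [map_mul, hx c, hy c]
  one_mem' := fun c => map_one _
  add_mem' := fun {x y} hx hy c => by rw [map_add, hx c, hy c]
  zero_mem' := fun c => map_zero _
  neg_mem' := fun {x} hx c => by rw [map_neg, hx c]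

omit [IsDomain A] in
theorem C_mem (b : Fin d) (x : A) : Polynomial.C (MvPolynomial.C x) ∈ S0 A b := fun c => by
  simp [sub]

omit [IsDomain A] in
theorem lam_mem {b j : Fin d} (h : j ≠ b) : Polynomial.C (MvPolynomial.X j) ∈ S0 A b := fun c => by
  simp [sub, Function.update_of_ne h]

omit [IsDomain A] in
theorem X_mem (b : Fin d) : Polynomial.X ∈ S0 A b := fun c => by simp [sub]

theorem trans0 (b : Fin d) :
    Transcendental (S0 A b) (Polynomial.C (MvPolynomial.X b) : Polynomial (AA A d)) := by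
  rintro ⟨p, hp, h⟩
  have : Nonempty (Fin d) := ⟨b⟩
  refine hp (Polynomial.map_injective (algebraMap (S0 A b) (Polynomial (AA A d)))
    Subtype.val_injective ?_)
  rw [Polynomial.map_zero]
  refine Polynomial.eq_zero_of_infinite_isRoot _
    ((Set.infinite_range_of_injective Polynomial.C_injective).mono ?_)
  rintro _ ⟨c, rfl⟩
  have h1 := congrArg (sub A b c) h
  have h2 : (sub A b c).comp (algebraMap (S0 A b) (Polynomial (AA A d))) =
      algebraMap (S0 A b) (Polynomial (AA A d)) := RingHom.ext fun x => x.2 c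
  rw [Polynomial.aeval_def, Polynomial.hom_eval₂, h2, map_zero] at h1
  have h3 : sub A b c (Polynomial.C (MvPolynomial.X b)) = Polynomial.C c := by simp [sub]
  rw [h3] at h1
  rw [Set.mem_ofPred_eq, Polynomial.IsRoot, Polynomial.eval_map]
  exact h1

theorem ph_eq (p : Polynomial (AA A d)) : algebraMap (Polynomial (AA A d)) (Om A d) p =
    io A d (algebraMap (Polynomial (AA A d)) (PowerSeries (BB A d)) p) :=
  IsScalarTower.algebraMap_apply _ (PowerSeries (BB A d)) (Om A d) p

theorem ph_inj : Function.Injective (algebraMap (Polynomial (AA A d)) (Om A d)) := fun x y h =>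
  alg_inj (io_inj (by rw [← ph_eq, ← ph_eq, h]))

theorem gen {P Ω : Type} [CommRing P] [IsDomain P] [Field Ω] [IsAlgClosed Ω] [Algebra P Ω]
    (hi : Function.Injective (algebraMap P Ω)) (S : Subring P) (h2 : (2 : P) ≠ 0) {x a e : P}
    (hx : Transcendental S x) (ha : a ∈ S) (he : e ∈ S) {μ : Ω}
    (hμ : algebraMap P Ω x = algebraMap P Ω a + algebraMap P Ω e * μ)
    {c : Ω} (hc : c = μ + 1 ∨ c = 1) (M : ℕ) {y y' : Ω} (hy : (gq μ)^[M] y = c)
    (hy' : (gq μ)^[M] y' = c) : ∃ γ : Ω ≃+* Ω,
      (∀ z ∈ S, γ (algebraMap P Ω z) = algebraMap P Ω z) ∧ γ μ = μ ∧ γ y = y' := by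
  have : FaithfulSMul S Ω :=
    (faithfulSMul_iff_algebraMap_injective _ _).2 (hi.comp Subtype.val_injective)
  let k := AlgebraicClosure (FractionRing S)
  have : FaithfulSMul S k := (faithfulSMul_iff_algebraMap_injective _ _).2 (by
    rw [IsScalarTower.algebraMap_eq S (FractionRing S) k]
    exact (algebraMap (FractionRing S) k).injective.comp (IsFractionRing.injective S _))
  have : Algebra.IsAlgebraic S k :=
    (IsFractionRing.comap_isAlgebraic_iff (K := FractionRing S)).2 inferInstance
  let ι : k →ₐ[S] Ω := IsAlgClosed.lift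
  let : Algebra k Ω := ι.toRingHom.toAlgebra
  have : IsScalarTower S k Ω := IsScalarTower.of_algebraMap_eq fun x => (ι.commutes x).symm
  have hk : ∀ x ∈ S, ∃ z : k, algebraMap k Ω z = algebraMap P Ω x := fun x hx =>
    ⟨algebraMap S k ⟨x, hx⟩, ι.commutes ⟨x, hx⟩⟩
  have ht : Transcendental k (algebraMap P Ω x) :=
    ((transcendental_algebraMap_iff hi).2 hx).extendScalars k
  obtain ⟨za, hza⟩ := hk _ ha
  obtain ⟨ze, hze⟩ := hk _ he
  have htμ : Transcendental k μ := fun h => ht (by
    rw [hμ, ← hza, ← hze]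
    exact (isAlgebraic_algebraMap za).add ((isAlgebraic_algebraMap ze).mul h))
  have h2k : (2 : k) ≠ 0 := fun h => h2 (by
    have h3 := congrArg (algebraMap k Ω) h
    rw [map_ofNat, map_zero] at h3
    exact hi (by rw [map_ofNat, map_zero, h3]))
  obtain ⟨γ, hγ, h⟩ := ZTree.trans_level h2k htμ hc M y y' hy hy'
  refine ⟨γ, fun z hz => ?_, hγ.2, h⟩
  obtain ⟨z, hz⟩ := hk z hz
  rw [← hz, hγ.1]

/-- Transitivity on the levels of the trees over the generic roots. -/
theorem trans (h2 : (2 : A) ≠ 0) {a b : Fin d} (hab : a ≠ b) {μ : Om A d}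
    (hμ : io A d PowerSeries.X * μ =
      io A d (PowerSeries.C (lB A b)) - io A d (PowerSeries.C (lB A a)))
    {c : Om A d} (hc : c = μ + 1 ∨ c = 1) (M : ℕ) {y y' : Om A d} (hy : (gq μ)^[M] y = c)
    (hy' : (gq μ)^[M] y' = c) : ∃ γ : Gam A d, γ μ = μ ∧ γ y = y' := by
  have hl : ∀ j, algebraMap (Polynomial (AA A d)) (Om A d) (Polynomial.C (MvPolynomial.X j)) =
      io A d (PowerSeries.C (lB A j)) := fun j => by rw [ph_eq, alg_C]; rfl
  have he : algebraMap (Polynomial (AA A d)) (Om A d) Polynomial.X = io A d PowerSeries.X := by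
    rw [ph_eq, alg_X]
  have hb : algebraMap (Polynomial (AA A d)) (Om A d) (Polynomial.C (MvPolynomial.X b)) =
      algebraMap (Polynomial (AA A d)) (Om A d) (Polynomial.C (MvPolynomial.X a)) +
      algebraMap (Polynomial (AA A d)) (Om A d) Polynomial.X * μ := by
    rw [hl, hl, he, hμ]; ring
  have h2P : (2 : Polynomial (AA A d)) ≠ 0 := fun h => h2 (MvPolynomial.C_injective (Fin d) A
    (Polynomial.C_injective (by simpa only [map_ofNat, map_zero] using h)))
  obtain ⟨γ, hf, g1, g2⟩ := gen (ph_inj (A := A) (d := d)) (S0 A b) h2P (trans0 b) (lam_mem hab)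
    (X_mem b) hb hc M hy hy'
  have hall : γ.toRingHom.comp (algebraMap (Polynomial (AA A d)) (Om A d)) =
      algebraMap (Polynomial (AA A d)) (Om A d) := by
    refine Polynomial.ringHom_ext' (MvPolynomial.ringHom_ext (fun x => hf _ (C_mem b x))
      fun j => ?_) (hf _ (X_mem b))
    by_cases hj : j = b
    · change γ (algebraMap (Polynomial (AA A d)) (Om A d) (Polynomial.C (MvPolynomial.X j))) =
        algebraMap (Polynomial (AA A d)) (Om A d) (Polynomial.C (MvPolynomial.X j))
      rw [hj, hb, map_add, map_mul, hf _ (lam_mem hab), hf _ (X_mem b), g1]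
    · exact hf _ (lam_mem hj)
  exact ⟨AlgEquiv.ofRingEquiv (f := γ) fun x => RingHom.congr_fun hall x, g1, g2⟩

variable {a b : Fin d} {s : Seq d} {μ : Om A d}

theorem stp (h0 : s 0 ∈ ({a, b} : Finset (Fin d))) : ∃ x, Stp {a, b}
    (fun j => io A d (PowerSeries.C (lB A j))) (io A d PowerSeries.X) (st A {a, b} (sh s)) x
    (st A {a, b} s) :=
  ⟨_, ((cluC A {a, b}).stp (nfC A {a, b}) h0).map (io A d)⟩

theorem out (h0 : s 0 ∈ ({a, b} : Finset (Fin d))) {j : Fin d} (ha : j ≠ a) (hb : j ≠ b) :
    st A {a, b} s j = 0 :=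
  let ⟨_, h⟩ := stp (A := A) h0; h.out j (by simp [ha, hb])

theorem sum (hab : a ≠ b) (h0 : s 0 ∈ ({a, b} : Finset (Fin d))) :
    st A {a, b} s a + st A {a, b} s b = 1 := by
  obtain ⟨_, h⟩ := stp (A := A) h0
  rw [← h.sum, ← Finset.sum_pair hab]
  exact Finset.sum_subset (Finset.subset_univ _) fun j _ hj => h.out j hj

theorem step (hab : a ≠ b) (hμ : io A d PowerSeries.X * μ =
      io A d (PowerSeries.C (lB A b)) - io A d (PowerSeries.C (lB A a)))
    (h0 : s 0 ∈ ({a, b} : Finset (Fin d))) (h1 : s 1 ∈ ({a, b} : Finset (Fin d))) :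
    gq μ (μ * st A {a, b} s b) = μ * st A {a, b} (sh s) b := by
  obtain ⟨x, h⟩ := stp (A := A) h0
  have e1 := h.step a (by simp)
  have e2 := h.step b (by simp)
  have e3 := sum (A := A) hab h0
  have e4 := sum (A := A) (s := sh s) hab (by simpa [sh] using h1)
  have he : io A d PowerSeries.X ≠ 0 := (map_ne_zero_iff _ io_inj).2 PowerSeries.X_ne_zero
  refine mul_left_cancel₀ he ?_
  simp only [gq] at e1 e2 ⊢
  generalize io A d PowerSeries.X = ε at *
  generalize io A d (PowerSeries.C (lB A a)) = la at *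
  generalize io A d (PowerSeries.C (lB A b)) = lb at *
  generalize st A {a, b} s a = wa at *
  generalize st A {a, b} s b = wb at *
  generalize st A {a, b} (sh s) a = va at *
  generalize st A {a, b} (sh s) b = vb at *
  have e5 : lb - x = ε * (μ + 1 - μ * wb) := by
    linear_combination (1 - wb) * (-hμ) - e1 - e2 + ε * e4 - (la - x) * e3
  linear_combination (-μ) * e2 - μ * wb * e5

theorem occ (hs : Term {a, b} s) {j : Fin d} (hj : j ∈ ({a, b} : Finset (Fin d))) :
    st A {a, b} s j ≠ 0 ↔ Occ {a, b} s 0 j := by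
  rw [← (cluC A {a, b}).occ (nfC A {a, b}) hs j hj]
  exact map_ne_zero_iff _ io_inj

theorem occ_sh {C : Finset (Fin d)} {j : Fin d} : Occ C (sh s) 0 j ↔ Occ C s (0 + 1) j :=
  occ_shf (a := 1)

theorem level (hab : a ≠ b) (hμ : io A d PowerSeries.X * μ =
      io A d (PowerSeries.C (lB A b)) - io A d (PowerSeries.C (lB A a))) (h0 : μ ≠ 0) (N : ℕ) :
    ∀ s : Seq d, Term {a, b} s → s N ∉ ({a, b} : Finset (Fin d)) → Occ {a, b} s 0 a →
      Occ {a, b} s 0 b →
      ∃ m c, (c = μ + 1 ∨ c = 1) ∧ (gq μ)^[m] (μ * st A {a, b} s b) = c := by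
  induction N with
  | zero => exact fun s _ h ha _ => absurd ha.mem h
  | succ N ih =>
    intro s hs hN ha hb
    have hs' : Term {a, b} (sh s) := hs.shf 1
    have h1 : s 1 ∈ ({a, b} : Finset (Fin d)) := by
      rcases (occ_iff.1 ha).2 with h | h
      · rcases (occ_iff.1 hb).2 with h' | h'
        · exact absurd (h.symm.trans h') hab
        · simpa using h'.mem
      · simpa using h.mem
    have e := step hab hμ ha.mem h1
    have e3 := sum (A := A) hab ha.mem
    have e4 := sum (A := A) (s := sh s) hab (by simpa [sh] using h1)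
    have na := (occ (A := A) hs (by simp)).2 ha
    have nb := (occ (A := A) hs (by simp)).2 hb
    by_cases ha' : Occ {a, b} (sh s) 0 a
    · by_cases hb' : Occ {a, b} (sh s) 0 b
      · obtain ⟨m, c, hc, h⟩ := ih (sh s) hs' (by simpa [sh] using hN) ha' hb'
        exact ⟨m + 1, c, hc, by rw [Function.iterate_succ_apply, e, h]⟩
      · rw [← occ (A := A) hs' (by simp), not_not] at hb'
        rw [hb', mul_zero, gq] at e
        exact ⟨0, _, .inl rfl,
          (sub_eq_zero.1 ((mul_eq_zero.1 e).resolve_left (mul_ne_zero h0 nb))).symm⟩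
    · rw [← occ (A := A) hs' (by simp), not_not] at ha'
      rw [ha', zero_add] at e4
      rw [e4, gq] at e
      refine ⟨0, _, .inr rfl, mul_left_cancel₀ (mul_ne_zero h0 na) ?_⟩
      change _ * (μ * _) = _
      linear_combination e + μ * (μ * st A {a, b} s b - 1) * e3

end VBin

theorem bin (h2 : (2 : A) ≠ 0) {u v : Fin d} (huv : u ≠ v) {s : Seq d} (hs : Term {u, v} s)
    (hu : Occ {u, v} s 1 u) (hv : Occ {u, v} s 1 v) :
    ∃ γ : Gam A d, ∀ j, γ (st A {u, v} (Function.update s 0 u) j) =
      st A {u, v} (Function.update s 0 v) j := by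
  have he : io A d PowerSeries.X ≠ 0 := (map_ne_zero_iff _ io_inj).2 PowerSeries.X_ne_zero
  obtain ⟨μ, hμ⟩ : ∃ μ, io A d PowerSeries.X * μ =
      io A d (PowerSeries.C (lB A v)) - io A d (PowerSeries.C (lB A u)) :=
    ⟨_, mul_div_cancel₀ _ he⟩
  have h0 : μ ≠ 0 := by
    rintro rfl
    rw [mul_zero, eq_comm, sub_eq_zero] at hμ
    exact huv ((cluC A {u, v}).inj (io_inj hμ)).symm
  obtain ⟨N, hN⟩ := hs 1
  obtain ⟨m, c, hc, h⟩ := VBin.level huv hμ h0 N (sh s) (hs.shf 1)
    (by simpa [sh, add_comm] using hN) (VBin.occ_sh.2 (by simpa using hu))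
    (VBin.occ_sh.2 (by simpa using hv))
  have m0 : ∀ x ∈ ({u, v} : Finset (Fin d)), Function.update s 0 x 0 ∈ ({u, v} : Finset (Fin d)) :=
    fun x hx => by rwa [Function.update_self]
  have key : ∀ x ∈ ({u, v} : Finset (Fin d)),
      (gq μ)^[m + 1] (μ * st A {u, v} (Function.update s 0 x) v) = c := fun x hx => by
    rw [Function.iterate_succ_apply, VBin.step huv hμ (m0 x hx)
      (by rw [Function.update_of_ne one_ne_zero]; exact hu.mem), ← h, st, st,
      (cluC A {u, v}).sh_update (nfC A {u, v}) hs]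
  obtain ⟨γ, g1, g2⟩ := VBin.trans h2 huv hμ hc (m + 1) (key u (by simp)) (key v (by simp))
  rw [map_mul, g1] at g2
  have g3 := mul_left_cancel₀ h0 g2
  refine ⟨γ, fun j => ?_⟩
  by_cases hjv : j = v
  · rw [hjv, g3]
  by_cases hju : j = u
  · rw [hju, eq_sub_of_add_eq (VBin.sum (A := A) huv (m0 u (by simp))),
      eq_sub_of_add_eq (VBin.sum (A := A) huv (m0 v (by simp))), map_sub, map_one, g3]
  · rw [VBin.out (m0 u (by simp)) hju hjv, VBin.out (m0 v (by simp)) hju hjv, map_zero]

end Pool.Agent.MP_9b2bac_nt.Z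

end
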