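import Mathlib
import Pool.Agent.Mg.F43e117.G4b4065
import Pool.Agent.Mg.F43e117.Gb01801

section

/- Uniqueness of lifts in the degeneration where two roots collide. -/

set_option autoImplicit false

namespace Pool.Agent.MP_9b2bac_nt.Z

open Finset PowerSeries

variable {d : ℕ} {K : Type} [Field K]

theorem unit_of_c0 {f : K⟦X⟧} (h : constantCoeff f ≠ 0) : IsUnit f :=
  isUnit_iff_constantCoeff.2 (Ne.isUnit h)

theorem sum_two {C : Type} [AddCommMonoid C] {a b : Fin d} (hab : a ≠ b) (f : Fin d → C) :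
    ∑ j, f j = f a + f b + ∑ j ∈ (univ.erase a).erase b, f j := by
  rw [← add_sum_erase _ _ (mem_univ a), ← add_sum_erase _ _ (mem_erase.2 ⟨hab.symm, mem_univ b⟩),
    add_assoc]

theorem u2 {a b : Fin d} (hab : a ≠ b) {lam : Fin d → K⟦X⟧} {ν : K} (hν : ν ≠ 0)
    (hb : lam b = lam a + X)
    (hl : ∀ j k, j ≠ k → k ≠ a → k ≠ b → constantCoeff (lam j) ≠ constantCoeff (lam k))
    {x x' : ℤ → K⟦X⟧} {w w' : ℤ → Fin d → K⟦X⟧} (h : Sys lam (X * C ν) x w)
    (h' : Sys lam (X * C ν) x' w') (s : Seq d)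
    (hs : ∀ i, ∃ k : ℕ, s (i + k) ≠ a ∧ s (i + k) ≠ b)
    (he : ∀ i, s i ≠ a → s i ≠ b → X ∣ x i - lam (s i) ∧ X ∣ x' i - lam (s i))
    (hx : ∀ i, s i = a ∨ s i = b → X ∣ x i - lam a ∧ X ∣ x' i - lam a)
    (hw : ∀ i j, X ∣ w i j - w' i j)
    (hnd : ∀ i, s i = a ∨ s i = b →
      constantCoeff (w i a - w i b + C ν * (w (i + 1) a + w (i + 1) b)) ≠ 0) : w = w' := by
  classical
  have e : ∀ i j, (lam j - x i) * (w i j - w' i j) =
      X * C ν * (w (i + 1) j - w' (i + 1) j) + (x i - x' i) * w' i j := fun i j => by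
    linear_combination h'.step i j - h.step i j
  have hu : ∀ {y : K⟦X⟧} {j k : Fin d}, X ∣ y - lam k →
      constantCoeff (lam j) ≠ constantCoeff (lam k) → IsUnit (lam j - y) := fun {y j k} h1 h2 => by
    refine unit_of_c0 ?_
    have := X_dvd_iff.1 h1
    rw [map_sub, sub_eq_zero] at this
    rw [map_sub, this]; exact sub_ne_zero.2 h2
  have hfar : ∀ i j, IsUnit (lam j - x' i) → X ∣ w' i j := fun i j hj =>
    hj.dvd_mul_left.1 (h'.step i j ▸ (dvd_mul_right _ _).mul_right _)
  have key : ∀ r, (∀ i j, X ^ (r + 1) ∣ w i j - w' i j) ∧ ∀ i, X ^ (r + 1) ∣ x i - x' i := by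
    intro r
    induction r with
    | zero =>
      refine ⟨by simpa using hw, fun i => ?_⟩
      rw [zero_add, pow_one]
      by_cases hi : s i = a ∨ s i = b
      · simpa using dvd_sub (hx i hi).1 (hx i hi).2
      · push Not at hi
        simpa using dvd_sub (he i hi.1 hi.2).1 (he i hi.1 hi.2).2
    | succ r ih =>
      have hoff : ∀ i j, IsUnit (lam j - x i) → IsUnit (lam j - x' i) →
          X ^ (r + 1 + 1) ∣ w i j - w' i j := fun i j h1 h2 => by
        refine h1.dvd_mul_left.1 (e i j ▸ dvd_add ?_ ?_)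
        · rw [pow_succ', mul_assoc]; exact mul_dvd_mul_left _ ((ih.1 _ _).mul_left _)
        · rw [pow_succ]; exact mul_dvd_mul (ih.2 i) (hfar i j h2)
      have hE : ∀ i, s i ≠ a → s i ≠ b → ∀ j, X ^ (r + 1 + 1) ∣ w i j - w' i j := by
        intro i h1 h2
        have h3 : ∀ j, j ≠ s i → X ^ (r + 1 + 1) ∣ w i j - w' i j := fun j hj =>
          hoff i j (hu (he i h1 h2).1 (hl _ _ hj h1 h2)) (hu (he i h1 h2).2 (hl _ _ hj h1 h2))
        intro j
        by_cases hj : j = s i
        · have : w i j - w' i j = -∑ k ∈ univ.erase j, (w i k - w' i k) := by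
            have h3 := h.sum i
            have h4 := h'.sum i
            rw [← add_sum_erase _ _ (mem_univ j)] at h3 h4
            rw [sum_sub_distrib]; linear_combination h3 - h4
          rw [this, dvd_neg]
          exact dvd_sum fun k hk => h3 k (hj ▸ ne_of_mem_erase hk)
        · exact h3 j hj
      have hA : ∀ i, s i = a ∨ s i = b → (∀ j, X ^ (r + 1 + 1) ∣ w (i + 1) j - w' (i + 1) j) →
          ∀ j, X ^ (r + 1 + 1) ∣ w i j - w' i j := by
        intro i hi hn
        have h3 : ∀ j, j ≠ a → j ≠ b → IsUnit (lam j - x i) ∧ IsUnit (lam j - x' i) :=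
          fun j h1 h2 => ⟨hu (hx i hi).1 (hl _ _ h1.symm h1 h2).symm,
            hu (hx i hi).2 (hl _ _ h1.symm h1 h2).symm⟩
        have h4 : ∀ j, j ≠ a → j ≠ b → X ^ (r + 1 + 1) ∣ w i j - w' i j := fun j h1 h2 =>
          hoff i j (h3 j h1 h2).1 (h3 j h1 h2).2
        obtain ⟨η, hη⟩ := (hx i hi).1
        obtain ⟨η', hη'⟩ := (hx i hi).2
        set S := ∑ j ∈ (univ.erase a).erase b, w i j
        set S' := ∑ j ∈ (univ.erase a).erase b, w' i j
        have hS : X ^ (r + 1 + 1) ∣ S - S' := by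
          rw [← sum_sub_distrib]
          exact dvd_sum fun j hj => h4 j (ne_of_mem_erase (mem_of_mem_erase hj)) (ne_of_mem_erase hj)
        have hS' : X ∣ S' := dvd_sum fun j hj => hfar i j
          (h3 j (ne_of_mem_erase (mem_of_mem_erase hj)) (ne_of_mem_erase hj)).2
        have s1 := h.sum i
        have s2 := h'.sum i
        rw [sum_two hab] at s1 s2
        have ea : C ν * w (i + 1) a = -η * w i a := mul_left_cancel₀ X_ne_zero (by
          linear_combination h.step i a - w i a * hη)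
        have eb : C ν * w (i + 1) b = (1 - η) * w i b := mul_left_cancel₀ X_ne_zero (by
          linear_combination h.step i b - w i b * hη + w i b * hb)
        have ea' : C ν * w' (i + 1) a = -η' * w' i a := mul_left_cancel₀ X_ne_zero (by
          linear_combination h'.step i a - w' i a * hη')
        have eb' : C ν * w' (i + 1) b = (1 - η') * w' i b := mul_left_cancel₀ X_ne_zero (by
          linear_combination h'.step i b - w' i b * hη' + w' i b * hb)
        have hdet : IsUnit (w' i a - η * (1 - S')) := by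
          refine unit_of_c0 ?_
          have h5 := hnd i hi
          have h6 := X_dvd_iff.1 (hw i a)
          have h7 := X_dvd_iff.1 hS'
          have h8 := X_dvd_iff.1 ((dvd_pow_self X (Nat.succ_ne_zero _)).trans hS)
          have h9 := congrArg constantCoeff s1
          rw [mul_add, ea, eb] at h5
          simp only [map_sub, map_add, map_mul, map_neg, map_one] at h5 h6 h8 h9 ⊢
          intro hc
          apply h5
          linear_combination hc + h6 - constantCoeff η * h9 +
            constantCoeff η * h8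
        have hb2 : X ^ (r + 1 + 1) ∣ w i b - w' i b := by
          refine hdet.dvd_mul_left.1 ?_
          have : (w' i a - η * (1 - S')) * (w i b - w' i b) =
              w' i a * (C ν * (w (i + 1) b - w' (i + 1) b)) -
              w' i b * (C ν * (w (i + 1) a - w' (i + 1) a)) + η * w' i b * (S - S') := by
            linear_combination (-(w' i a)) * (eb - eb') + w' i b * (ea - ea') -
              η * w' i b * (s1 - s2) + η * (w i b - w' i b) * s2
          rw [this]
          exact dvd_add (dvd_sub (((hn b).mul_left _).mul_left _) (((hn a).mul_left _).mul_left _))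
            (hS.mul_left _)
        intro j
        by_cases h1 : j = a
        · have : w i a - w' i a = -(w i b - w' i b) - (S - S') := by linear_combination s1 - s2
          rw [h1, this]; exact dvd_sub (dvd_neg.2 hb2) hS
        · by_cases h2 : j = b
          · exact h2 ▸ hb2
          · exact h4 j h1 h2
      have hall : ∀ k : ℕ, ∀ i, s (i + k) ≠ a ∧ s (i + k) ≠ b →
          ∀ j, X ^ (r + 1 + 1) ∣ w i j - w' i j := by
        intro k
        induction k with
        | zero => intro i hi; simp only [Nat.cast_zero, add_zero] at hi; exact hE i hi.1 hi.2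
        | succ k ihk =>
          intro i hi
          by_cases hc : s i = a ∨ s i = b
          · exact hA i hc (ihk (i + 1) (by rwa [Nat.cast_succ, add_comm (k : ℤ), ← add_assoc] at hi))
          · push Not at hc; exact hE i hc.1 hc.2
      have h2 : ∀ i j, X ^ (r + 1 + 1) ∣ w i j - w' i j := fun i =>
        let ⟨k, hk⟩ := hs i; hall k i hk
      refine ⟨h2, fun i => ?_⟩
      rw [h.x_eq, h'.x_eq, sub_sub_sub_cancel_right, ← sum_sub_distrib]
      exact dvd_sum fun j _ => by rw [← mul_sub]; exact (h2 i j).mul_left _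
  exact funext fun i => funext fun j => sub_eq_zero.1
    (ps_haus _ fun r => (pow_dvd_pow X r.le_succ).trans ((key r).1 i j))

end Pool.Agent.MP_9b2bac_nt.Z

end

section

/- The reduced system when two roots collide: preimage trees of a quadratic map. -/

set_option autoImplicit false

namespace Pool.Agent.MP_9b2bac_nt.Z

open Finset PowerSeries

variable {d : ℕ} {k : Type} [Field k] {a b : Fin d}

/-- The reduced coefficients. -/
noncomputable def tb (k : Type) [Field k] (a b j i : Fin d) : k⟦X⟧ :=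
  if j = b ∧ i = a then X else if j = a ∧ i = b then -X else 0

theorem tb_dvd (j i : Fin d) (_ : j ≠ i) : X ∣ tb k a b j i := by
  unfold tb; split_ifs <;> simp

section red

variable (hab : a ≠ b) {w : Seq d → Fin d → k⟦X⟧} {ξ : Seq d → k⟦X⟧} (h : NF (tb k a b) w ξ)
include hab h

theorem red_off {s : Seq d} {j : Fin d} (hj : j ≠ s 0)
    (h1 : ¬((s 0 = a ∨ s 0 = b) ∧ (j = a ∨ j = b))) : w s j = 0 := by
  rw [h.off s j hj, tb, if_neg (by tauto), if_neg (by tauto), zero_mul]

theorem red_out {s : Seq d} (ha : s 0 ≠ a) (hb : s 0 ≠ b) (j : Fin d) :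
    w s j = if j = s 0 then 1 else 0 := by
  split_ifs with hj
  · rw [hj, h.diag_eq, sum_eq_zero fun j hj => red_off hab h (ne_of_mem_erase hj) (by tauto)]
    simp
  · exact red_off hab h hj (by tauto)

theorem red_in {s : Seq d} (hs : s 0 = a ∨ s 0 = b) {j : Fin d} (ha : j ≠ a) (hb : j ≠ b) :
    w s j = 0 :=
  red_off hab h (by rcases hs with hs | hs <;> rwa [hs]) (by tauto)

theorem red_sum {s : Seq d} (hs : s 0 = a ∨ s 0 = b) : w s a + w s b = 1 := by
  rw [← h.sum s, sum_two hab, sum_eq_zero fun j hj =>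
    red_in hab h hs (ne_of_mem_erase (mem_of_mem_erase hj)) (ne_of_mem_erase hj), add_zero]

theorem red_eq {s : Seq d} (hs : s 0 = a ∨ s 0 = b) : ∃ e : k⟦X⟧,
    constantCoeff e = (if s 0 = b then 1 else 0) ∧
    X * w (sh s) a = -e * w s a ∧ X * w (sh s) b = (1 - e) * w s b := by
  have h2 := h.diag s
  rcases hs with hs | hs
  · have h1 := h.off s b (hs ▸ hab.symm)
    rw [hs] at h1 h2
    rw [tb, if_pos ⟨rfl, rfl⟩] at h1
    exact ⟨X * ξ s, by simp [hs, hab], by linear_combination X * h2, by linear_combination -h1⟩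
  · have h1 := h.off s a (hs ▸ hab)
    rw [hs] at h1 h2
    rw [tb, if_neg fun h => hab h.1, if_pos ⟨rfl, rfl⟩] at h1
    exact ⟨X * ξ s + 1, by simp [hs], by linear_combination h1, by linear_combination X * h2⟩

theorem red_end {s : Seq d} (hs : s 0 = a ∨ s 0 = b) (ha : s 1 ≠ a) (hb : s 1 ≠ b) :
    w s b = if s 0 = b then 1 else 0 := by
  obtain ⟨e, he, h1, h2⟩ := red_eq hab h hs
  have h3 := red_sum hab h hs
  have ha' : sh s 0 ≠ a := by simpa [sh] using ha
  have hb' : sh s 0 ≠ b := by simpa [sh] using hb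
  rw [red_out hab h ha' hb', if_neg ha'.symm, mul_zero] at h1
  rw [red_out hab h ha' hb', if_neg hb'.symm, mul_zero] at h2
  split_ifs at he ⊢ with h4
  · have : e ≠ 0 := fun h => by simp [h] at he
    rw [(mul_eq_zero.1 h1.symm).resolve_left (neg_ne_zero.2 this), zero_add] at h3
    exact h3
  · have : 1 - e ≠ 0 := fun h => by simpa [he] using congrArg constantCoeff h
    exact (mul_eq_zero.1 h2.symm).resolve_left this

theorem red_step {s : Seq d} (hs : s 0 = a ∨ s 0 = b) (hs' : s 1 = a ∨ s 1 = b) :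
    X * w (sh s) b = w s b * (1 + X - w s b) := by
  obtain ⟨e, -, h1, h2⟩ := red_eq hab h hs
  have h3 := red_sum hab h hs
  have h4 := red_sum hab h (s := sh s) (by simpa [sh] using hs')
  have : e = w s b - X := by linear_combination h1 + h2 - X * h4 - e * h3
  rw [h2, this]; ring

theorem red_nd {s : Seq d} (hs : s 0 = a ∨ s 0 = b) :
    w s a - w s b + X * (w (sh s) a + w (sh s) b) ≠ 0 := by
  intro h0
  have := congrArg constantCoeff h0
  rw [map_add, map_sub, h.const tb_dvd, h.const tb_dvd] at this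
  rcases hs with hs | hs <;> simp [hs, hab, hab.symm] at this

end red

section lab

variable {Ω : Type} [Field Ω] (κ : k⟦X⟧ →+* Ω) (hκ : Function.Injective κ)

open Classical in
/-- The label of a vertex. -/
noncomputable def lab (z : Ω) : Bool :=
  decide (∃ f : k⟦X⟧, constantCoeff f = 1 ∧ z = (κ X)⁻¹ * κ f)

include hκ

theorem kX_ne : κ X ≠ 0 := (map_ne_zero_iff _ hκ).2 X_ne_zero

theorem lab_iff (f : k⟦X⟧) : lab κ ((κ X)⁻¹ * κ f) = true ↔ constantCoeff f = 1 := by
  classical
  rw [lab, decide_eq_true_iff]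
  refine ⟨fun ⟨g, hg, e⟩ => ?_, fun h => ⟨f, h, rfl⟩⟩
  rwa [hκ (mul_left_cancel₀ (inv_ne_zero (kX_ne κ hκ)) e)]

theorem gq_form {f g : k⟦X⟧} (h : X * g = f * (1 + X - f)) :
    gq (κ X)⁻¹ ((κ X)⁻¹ * κ f) = (κ X)⁻¹ * κ g := by
  have h1 := congrArg κ h
  have h0 := kX_ne κ hκ
  simp only [map_mul, map_sub, map_add, map_one] at h1
  rw [gq]; field_simp; linear_combination -h1

theorem children (g : k⟦X⟧) : ∃ f f' : k⟦X⟧, constantCoeff f = 0 ∧ constantCoeff f' = 1 ∧
    ∀ z, gq (κ X)⁻¹ z = (κ X)⁻¹ * κ g → z = (κ X)⁻¹ * κ f ∨ z = (κ X)⁻¹ * κ f' := by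
  obtain ⟨u, hu⟩ := exists_fixed (ι := Unit) (fun u _ => g - X * u () + X * u () ^ 2)
    fun n x y h _ => by
      have : g - X * x () + X * x () ^ 2 - (g - X * y () + X * y () ^ 2) =
        X * ((x () - y ()) * (x () + y () - 1)) := by ring
      rw [this, pow_succ']; exact mul_dvd_mul_left _ ((h ()).mul_right _)
  have h1 := congrFun hu ()
  have h2 := gq_form κ hκ (f := X * u ()) (g := g) (by linear_combination X * h1)
  refine ⟨X * u (), 1 + X - X * u (), by simp, by simp, fun z hz => ?_⟩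
  have h0 := kX_ne κ hκ
  have : (z - (κ X)⁻¹ * κ (X * u ())) * (z - (κ X)⁻¹ * κ (1 + X - X * u ())) = 0 := by
    rw [map_sub, map_add, map_one, mul_sub (κ X)⁻¹, mul_add, inv_mul_cancel₀ h0, mul_one]
    unfold gq at hz h2
    linear_combination h2 - hz
  exact (mul_eq_zero.1 this).imp sub_eq_zero.1 sub_eq_zero.1

theorem sib (g : k⟦X⟧) {z z' : Ω} (hz : gq (κ X)⁻¹ z = (κ X)⁻¹ * κ g)
    (hz' : gq (κ X)⁻¹ z' = (κ X)⁻¹ * κ g) (hl : lab κ z = lab κ z') : z = z' := by
  obtain ⟨f, f', h0, h1, h⟩ := children κ hκ g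
  have e0 : lab κ ((κ X)⁻¹ * κ f) = false := by
    rw [← Bool.not_eq_true, lab_iff κ hκ, h0]; exact zero_ne_one
  have e1 := (lab_iff κ hκ f').2 h1
  rcases h z hz with rfl | rfl <;> rcases h z' hz' with rfl | rfl
  · rfl
  · simp [e0, e1] at hl
  · simp [e0, e1] at hl
  · rfl

theorem vert_form {m : ℕ} {z : Ω} (hz : Vert (κ X)⁻¹ m z) : ∃ f, z = (κ X)⁻¹ * κ f := by
  have h0 := kX_ne κ hκ
  induction m generalizing z with
  | zero =>
    rcases hz with hz | hz
    · exact ⟨1 + X, by rw [map_add, map_one, mul_add, inv_mul_cancel₀ h0, mul_one]; exact hz⟩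
    · exact ⟨X, by rw [inv_mul_cancel₀ h0]; exact hz⟩
  | succ m ih =>
    obtain ⟨g, hg⟩ := ih (z := gq (κ X)⁻¹ z) hz
    obtain ⟨f, f', -, -, h⟩ := children κ hκ g
    exact (h z hg).elim (fun h => ⟨f, h⟩) fun h => ⟨f', h⟩

theorem lab_sib (m : ℕ) (v v' : Ω) (hv : Vert (κ X)⁻¹ (m + 1) v)
    (h : gq (κ X)⁻¹ v = gq (κ X)⁻¹ v') (hne : v ≠ v') : lab κ v ≠ lab κ v' := by
  obtain ⟨g, hg⟩ := vert_form κ hκ (m := m) (z := gq (κ X)⁻¹ v) hv
  exact fun hl => hne (sib κ hκ g hg (h ▸ hg) hl)

end lab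

end Pool.Agent.MP_9b2bac_nt.Z

end

section

/- The tree automorphism acts on the reduced solutions as the marker. -/

set_option autoImplicit false

namespace Pool.Agent.MP_9b2bac_nt.Z

open Finset PowerSeries

variable {d : ℕ} {k : Type} [Field k] {a b : Fin d}

/-- A block of letters `a`, `b` of length `L + 1` starts at `0`. -/
def Blk (a b : Fin d) (s : Seq d) (L : ℕ) : Prop :=
  (∀ i : ℕ, i ≤ L → s i = a ∨ s i = b) ∧ s (L + 1) ≠ a ∧ s (L + 1) ≠ b

theorem Blk.zero {s : Seq d} {L : ℕ} (h : Blk a b s L) : s 0 = a ∨ s 0 = b := h.1 0 L.zero_le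

theorem Blk.sh {s : Seq d} {L : ℕ} (h : Blk a b s (L + 1)) : Blk a b (sh s) L :=
  ⟨fun i hi => by simpa [Z.sh] using h.1 (i + 1) (by omega), by simpa [Z.sh] using h.2⟩

theorem mk_in {s : Seq d} {J : ℕ} {i : ℤ} :
    (mk a b J s i = a ∨ mk a b J s i = b) ↔ (s i = a ∨ s i = b) := by
  unfold mk
  split_ifs
  · rw [Equiv.swap_apply_eq_iff, Equiv.swap_apply_eq_iff]; simp [or_comm]
  · rfl

theorem mk_out {s : Seq d} {J : ℕ} {i : ℤ} (ha : s i ≠ a) (hb : s i ≠ b) : mk a b J s i = s i := by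
  unfold mk
  split_ifs
  · exact Equiv.swap_apply_of_ne_of_ne ha hb
  · rfl

theorem Blk.mk {s : Seq d} {L : ℕ} (h : Blk a b s L) (J : ℕ) : Blk a b (mk a b J s) L :=
  ⟨fun i hi => mk_in.2 (h.1 i hi), by rw [mk_out h.2.1 h.2.2]; exact h.2⟩

theorem mk_shf (s : Seq d) (J : ℕ) (i : ℤ) : mk a b J (shf s i) = shf (mk a b J s) i := by
  funext x
  have : Hit a b J (shf s i) x ↔ Hit a b J s (x + i) := by
    simp only [Hit, shf]
    rw [show x + J + 1 + i = x + i + J + 1 by ring]
    simp only [fun k : ℕ => show x + k + i = x + i + k by ring]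
  simp only [mk, shf] at this ⊢
  rw [this]

theorem mk_sh' (s : Seq d) (J : ℕ) : mk a b J (sh s) = sh (mk a b J s) := mk_shf s J 1

theorem exists_blk {s : Seq d} {M : ℕ} (h0 : s 0 = a ∨ s 0 = b)
    (h : ∃ i : ℕ, i ≤ M ∧ s i ≠ a ∧ s i ≠ b) : ∃ L, L ≤ M ∧ Blk a b s L := by
  classical
  have h1 := Nat.find_spec h
  have h2 : Nat.find h ≠ 0 := fun e => by rw [e] at h1; tauto
  obtain ⟨L, hL⟩ := Nat.exists_eq_succ_of_ne_zero h2
  refine ⟨L, by omega, fun i hi => ?_, by rw [hL] at h1; exact_mod_cast h1.2⟩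
  have := Nat.find_min h (m := i) (by omega)
  have : i ≤ M := by omega
  tauto

variable (hab : a ≠ b) {w : Seq d → Fin d → k⟦X⟧} {ξ : Seq d → k⟦X⟧} (h : NF (tb k a b) w ξ)
  {Ω : Type} [Field Ω] (κ : k⟦X⟧ →+* Ω) (hκ : Function.Injective κ)
include hab h hκ

theorem v_lab {s : Seq d} (hs : s 0 = a ∨ s 0 = b) :
    lab κ ((κ X)⁻¹ * κ (w s b)) = decide (s 0 = b) := by
  rw [Bool.eq_iff_iff, lab_iff κ hκ, h.const tb_dvd, decide_eq_true_iff]
  rcases hs with hs | hs <;> simp [hs, hab, hab.symm]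

theorem v_step {s : Seq d} {L : ℕ} (hs : Blk a b s (L + 1)) :
    gq (κ X)⁻¹ ((κ X)⁻¹ * κ (w s b)) = (κ X)⁻¹ * κ (w (sh s) b) :=
  gq_form κ hκ (red_step hab h hs.zero (by simpa using hs.1 1 (by omega)))

theorem v_end {s : Seq d} (hs : Blk a b s 0) :
    (κ X)⁻¹ * κ (w s b) = if s 0 = b then (κ X)⁻¹ else 0 := by
  rw [red_end hab h hs.zero (by simpa using hs.2.1) (by simpa using hs.2.2)]
  split_ifs <;> simp

theorem v_addr {L : ℕ} {s : Seq d} (hs : Blk a b s L) (i : ℕ) :
    lab κ ((gq (κ X)⁻¹)^[i] ((κ X)⁻¹ * κ (w s b))) = decide (s (min i L : ℕ) = b) := by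
  induction L generalizing s i with
  | zero =>
    rw [Function.iterate_fixed, v_lab hab h κ hκ hs.zero]
    · simp
    · rw [v_end hab h κ hκ hs]; split_ifs <;> simp [gq]
  | succ L ih =>
    cases i with
    | zero => simpa using v_lab hab h κ hκ hs.zero
    | succ i =>
      rw [Function.iterate_succ_apply, v_step hab h κ hκ hs, ih hs.sh, Nat.succ_min_succ]
      simp [sh]

theorem hit_iff {L J : ℕ} (hJ : 1 ≤ J) {s : Seq d} (hs : Blk a b s (L + 1)) :
    Hit a b J s 0 ↔ (∀ i < J, lab κ ((gq (κ X)⁻¹)^[i] ((κ X)⁻¹ * κ (w (sh s) b))) = false) ∧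
      lab κ ((gq (κ X)⁻¹)^[J] ((κ X)⁻¹ * κ (w (sh s) b))) = true := by
  simp only [v_addr hab h κ hκ hs.sh, decide_eq_false_iff_not, decide_eq_true_eq, Hit, sh,
    zero_add]
  constructor
  · rintro ⟨h1, h2⟩
    have hJL : J ≤ L := by
      by_contra hc
      rcases (show L + 1 = J ∨ L + 2 ≤ J by omega) with e | e
      · exact hs.2.2 (by rw [e]; exact h2)
      · exact hs.2.1 (by simpa [add_assoc] using h1 (L + 1 + 1) (by omega) e)
    refine ⟨fun i hi => ?_, by rwa [min_eq_left hJL]⟩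
    rw [min_eq_left (by omega)]
    have := h1 (i + 1) (by omega) hi
    push_cast at this
    rw [this]; exact hab
  · rintro ⟨h1, h2⟩
    have hJL : J ≤ L := by
      by_contra hc
      have := h1 (J - 1) (by omega)
      rw [min_eq_right (by omega)] at this h2
      exact this h2
    refine ⟨fun i hi hi' => ?_, by rwa [min_eq_left hJL] at h2⟩
    obtain ⟨i, rfl⟩ := Nat.exists_eq_add_of_le' hi
    have := h1 i hi'
    rw [min_eq_left (by omega)] at this
    exact (hs.1 (i + 1) (by omega)).resolve_right (by exact_mod_cast this)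

theorem red_match [IsAlgClosed k] (h2 : (2 : k) ≠ 0) [IsAlgClosed Ω] [Algebra k Ω]
    (hC : ∀ c, κ (C c) = algebraMap k Ω c) {J : ℕ} (hJ : 1 ≤ J) (M : ℕ) :
    ∃ γ : Ω ≃+* Ω, (∀ c : k, γ (algebraMap k Ω c) = algebraMap k Ω c) ∧ γ (κ X) = κ X ∧
      ∀ s : Seq d, (∃ i : ℕ, i ≤ M ∧ s i ≠ a ∧ s i ≠ b) →
        ∀ j, γ (κ (w s j)) = κ (w (mk a b J s) j) := by
  classical
  have h0 := kX_ne κ hκ
  have htr : Transcendental k (κ X)⁻¹ := by
    rw [Transcendental, IsAlgebraic.inv_iff]
    rintro ⟨p, hp, e⟩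
    have : (Polynomial.aeval (κ X) : Polynomial k →ₐ[k] Ω).toRingHom =
        κ.comp Polynomial.coeToPowerSeries.ringHom :=
      Polynomial.ringHom_ext (fun c => by simp [hC]) (by simp)
    have h1 : κ p = κ 0 := by rw [map_zero, ← e]; exact (DFunLike.congr_fun this p).symm
    exact hp (Polynomial.coe_eq_zero_iff.1 (hκ h1))
  obtain ⟨γ, hk, hμ, hγ⟩ := tree_odd k Ω h2 _ htr M (lab κ) (lab_sib κ hκ) fun x => decide
    ((∀ i < J, lab κ ((gq (κ X)⁻¹)^[i] x) = false) ∧ lab κ ((gq (κ X)⁻¹)^[J] x) = true)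
  have hν : γ (κ X) = κ X := by rwa [map_inv₀, inv_inj] at hμ
  have main : ∀ L, L ≤ M → ∀ s, Blk a b s L →
      γ ((κ X)⁻¹ * κ (w s b)) = (κ X)⁻¹ * κ (w (mk a b J s) b) ∧
      ((κ X)⁻¹ * κ (w s b) = 0 ∨ (κ X)⁻¹ * κ (w s b) = (κ X)⁻¹ ∨
        ∃ m < L, Vert (κ X)⁻¹ m ((κ X)⁻¹ * κ (w s b))) := by
    intro L
    induction L with
    | zero =>
      intro _ s hs
      have : mk a b J s 0 = s 0 := if_neg fun hh => hs.2.1 (by simpa using hh.1 1 le_rfl hJ)
      rw [v_end hab h κ hκ hs, v_end hab h κ hκ (hs.mk J), this]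
      split_ifs <;> simp [hμ]
    | succ L ih =>
      intro hL s hs
      obtain ⟨i1, i2⟩ := ih (by omega) _ hs.sh
      have e1 := v_step hab h κ hκ hs
      have e2 := v_step hab h κ hκ (hs.mk J)
      have e3 : gq (κ X)⁻¹ (γ ((κ X)⁻¹ * κ (w s b))) = (κ X)⁻¹ * κ (w (sh (mk a b J s)) b) := by
        rw [← mk_sh', ← i1, ← e1]; simp only [gq, map_mul, map_sub, map_add, map_one, hμ]
      have e4 := hit_iff hab h κ hκ hJ hs
      have l1 := v_lab hab h κ hκ hs.zero
      have l2 := v_lab hab h κ hκ (hs.mk J).zero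
      have fixd : gq (κ X)⁻¹ ((κ X)⁻¹ * κ (w (sh s) b)) = (κ X)⁻¹ * κ (w (sh s) b) →
          γ ((κ X)⁻¹ * κ (w s b)) = (κ X)⁻¹ * κ (w s b) →
          γ ((κ X)⁻¹ * κ (w s b)) = (κ X)⁻¹ * κ (w (mk a b J s) b) := fun f1 f2 => by
        have : mk a b J s 0 = s 0 := if_neg fun hh => by
          have := e4.1 hh
          simp only [Function.iterate_fixed f1] at this
          simpa [this.2] using this.1 0 hJ
        exact sib κ hκ _ e3 e2 (by rw [f2, l1, l2, this])
      rcases i2 with i2 | i2 | ⟨m, hm, i2⟩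
      · rw [i2] at e1
        rcases mul_eq_zero.1 e1 with e | e
        · exact ⟨fixd (by rw [i2]; simp [gq]) (by rw [e, map_zero]), Or.inl e⟩
        · rw [sub_eq_zero] at e
          exact ⟨fixd (by rw [i2]; simp [gq]) (by rw [← e, map_add, hμ, map_one]),
            Or.inr (Or.inr ⟨0, by omega, Or.inl e.symm⟩)⟩
      · rw [i2] at e1
        have : ((κ X)⁻¹ * κ (w s b) - (κ X)⁻¹) * ((κ X)⁻¹ * κ (w s b) - 1) = 0 := by
          unfold gq at e1; linear_combination -e1
        rcases mul_eq_zero.1 this with e | e <;> rw [sub_eq_zero] at e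
        · exact ⟨fixd (by rw [i2]; simp [gq]) (by rw [e, hμ]), Or.inr (Or.inl e)⟩
        · exact ⟨fixd (by rw [i2]; simp [gq]) (by rw [e, map_one]),
            Or.inr (Or.inr ⟨0, by omega, Or.inr e⟩)⟩
      · have hV : Vert (κ X)⁻¹ (m + 1) ((κ X)⁻¹ * κ (w s b)) := by
          rw [← e1] at i2; exact i2
        refine ⟨sib κ hκ _ e3 e2 ?_, Or.inr (Or.inr ⟨m + 1, by omega, hV⟩)⟩
        rw [hγ m (by omega) _ hV, l1, l2, e1, mk]
        by_cases hh : Hit a b J s 0
        · rw [decide_eq_true (e4.1 hh)]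
          rcases hs.zero with e | e <;> simp [hh, e, hab]
        · rw [decide_eq_false (mt e4.2 hh)]
          simp [hh]
  refine ⟨γ, hk, hν, fun s hs j => ?_⟩
  by_cases h1 : s 0 = a ∨ s 0 = b
  · obtain ⟨L, hL, hB⟩ := exists_blk h1 hs
    have hb := (main L hL s hB).1
    rw [map_mul, hμ] at hb
    replace hb := mul_left_cancel₀ (inv_ne_zero h0) hb
    have h1' := (hB.mk J).zero
    by_cases hja : j = a
    · rw [hja, eq_sub_of_add_eq (red_sum hab h h1), eq_sub_of_add_eq (red_sum hab h h1')]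
      simp [hb]
    · by_cases hjb : j = b
      · rwa [hjb]
      · simp [red_in hab h h1 hja hjb, red_in hab h h1' hja hjb]
  · push Not at h1
    have e := mk_out (J := J) h1.1 h1.2
    rw [red_out hab h h1.1 h1.2, red_out hab h (e ▸ h1.1) (e ▸ h1.2), e]
    split_ifs <;> simp

end Pool.Agent.MP_9b2bac_nt.Z

end

section

/- The marker acts on the solutions of the family in which two roots collide. -/

set_option autoImplicit false

namespace Pool.Agent.MP_9b2bac_nt.Z

open Finset PowerSeries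

variable {d : ℕ} {k : Type} [Field k] {a b : Fin d}

/-- Exchange of the two variables. -/
noncomputable def swp (k : Type) [CommRing k] : k⟦X⟧⟦X⟧ →+* k⟦X⟧⟦X⟧ where
  toFun f := PowerSeries.mk fun i => PowerSeries.mk fun j => coeff i (coeff j f)
  map_one' := by
    ext i j
    simp only [coeff_mk, coeff_one]
    split_ifs <;> simp [coeff_one, *]
  map_mul' f g := by
    ext i j
    simp only [coeff_mk, coeff_mul, map_sum]
    exact sum_comm
  map_zero' := by ext i j; simp
  map_add' f g := by ext i j; simp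

theorem coeff_swp (f : k⟦X⟧⟦X⟧) (i j : ℕ) :
    coeff j (coeff i (swp k f)) = coeff i (coeff j f) := by simp [swp]

theorem swp_swp (f : k⟦X⟧⟦X⟧) : swp k (swp k f) = f := by
  ext i j; rw [coeff_swp, coeff_swp]

theorem swp_inj : Function.Injective (swp k) := Function.LeftInverse.injective swp_swp

theorem swp_C (f : k⟦X⟧) : swp k (C f) = PowerSeries.map C f := by
  ext i j
  rw [coeff_swp, coeff_map, coeff_C, coeff_C]
  split_ifs <;> simp

theorem swp_X : swp k X = C X := by
  rw [← swp_swp (C X), swp_C, map_X]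

theorem const_swp (f : k⟦X⟧⟦X⟧) : constantCoeff (swp k f) = PowerSeries.map constantCoeff f := by
  ext j
  rw [← coeff_zero_eq_constantCoeff_apply, coeff_swp, coeff_map, coeff_zero_eq_constantCoeff_apply]

/-- The roots along the collision. -/
noncomputable def lamD (a b : Fin d) (l : Fin d → k) (j : Fin d) : k⟦X⟧ :=
  if j = b then C (l a) + X else C (l j)

theorem exists_cD (hab : a ≠ b) {l : Fin d → k} (hl : Function.Injective l) (j i : Fin d) :
    ∃ c : k⟦X⟧, j ≠ i → (lamD a b l j - lamD a b l i) * c = X ∧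
      X * C (constantCoeff c) = tb k a b j i := by
  by_cases h1 : j = b ∧ i = a
  · exact ⟨1, fun _ => by simp [lamD, tb, h1, hab]⟩
  by_cases h2 : j = a ∧ i = b
  · exact ⟨-1, fun _ => by simp [lamD, tb, h2, hab]⟩
  by_cases h3 : j = i
  · exact ⟨0, fun h => absurd h3 h⟩
  have : constantCoeff (lamD a b l j - lamD a b l i) ≠ 0 := by
    unfold lamD
    split_ifs with e1 e2 e2 <;> simp [sub_eq_zero, hl.eq_iff] <;> grind
  refine ⟨X * (lamD a b l j - lamD a b l i)⁻¹, fun _ => ⟨?_, ?_⟩⟩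
  · rw [mul_left_comm, PowerSeries.mul_inv_cancel _ this, mul_one]
  · simp [tb, h1, h2]

theorem core [IsAlgClosed k] (h2 : (2 : k) ≠ 0) (hab : a ≠ b) {l : Fin d → k}
    (hl : Function.Injective l) {c : Fin d → Fin d → k⟦X⟧}
    (hc : ∀ j i, j ≠ i → (lamD a b l j - lamD a b l i) * c j i = X ∧
      X * C (constantCoeff (c j i)) = tb k a b j i)
    {w : Seq d → Fin d → k⟦X⟧⟦X⟧} {ξ : Seq d → k⟦X⟧⟦X⟧} (h : NF (fun j i => X * C (c j i)) w ξ)
    {J : ℕ} (hJ : 1 ≤ J) (M : ℕ) :
    ∃ (S : Type) (_ : CommRing S) (β β' : k⟦X⟧⟦X⟧ →+* S), Function.Injective β ∧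
      Function.Injective β' ∧ (∀ x, β' (C (C x)) = β (C (C x))) ∧ β' (C X) = β (C X) ∧
      β' X = β X ∧ ∀ s : Seq d, (∀ i : ℤ, ∃ m : ℕ, m ≤ M ∧ s (i + m) ≠ a ∧ s (i + m) ≠ b) →
        ∀ j, β' (w s j) = β (w (mk a b J s) j) := by
  let K := AlgebraicClosure (FractionRing k⟦X⟧)
  let κ : k⟦X⟧ →+* K := algebraMap _ _
  have hκ : Function.Injective κ :=
    (algebraMap (FractionRing k⟦X⟧) K).injective.comp (IsFractionRing.injective k⟦X⟧ _)
  have hC : ∀ x, κ (C x) = algebraMap k K x := fun x =>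
    (IsScalarTower.algebraMap_apply k k⟦X⟧ K x).symm
  have hr := (h.map (PowerSeries.map constantCoeff)).congr (t' := tb k a b) fun j i hji => by
    simpa using (hc j i hji).2
  obtain ⟨γ, g1, g2, g3⟩ := red_match hab hr κ hκ h2 hC hJ M
  let β : k⟦X⟧⟦X⟧ →+* K⟦X⟧ := (PowerSeries.map κ).comp (swp k)
  let G : K⟦X⟧ →+* K⟦X⟧ := PowerSeries.map (γ : K →+* K)
  have hβ : Function.Injective β := (PowerSeries.map_injective _ hκ).comp swp_inj
  have b1 : ∀ x, β (C (C x)) = C (algebraMap k K x) := fun x => by simp [β, swp_C, hC]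
  have b2 : β (C X) = X := by simp [β, swp_C]
  have b3 : β X = C (κ X) := by simp [β, swp_X]
  have b4 : ∀ f, constantCoeff (β f) = κ (PowerSeries.map constantCoeff f) := fun f => by
    rw [← const_swp]; rfl
  have b5 : ∀ f, constantCoeff (G f) = γ (constantCoeff f) := fun f => rfl
  have c1 : ∀ x, G (β (C (C x))) = β (C (C x)) := fun x => by simp [b1, G, g1]
  have c2 : G (β (C X)) = β (C X) := by simp [b2, G]
  have c3 : G (β X) = β X := by simp [b3, G, g2]
  have c4 : ∀ j, G (β (C (lamD a b l j))) = β (C (lamD a b l j)) := fun j => by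
    unfold lamD; split_ifs <;> simp only [map_add, c1, c2]
  refine ⟨K⟦X⟧, inferInstance, β, G.comp β, hβ,
    (PowerSeries.map_injective (γ : K →+* K) γ.injective).comp hβ, c1, c2, c3, fun s hs j => ?_⟩
  have hsys := fun s => (h.sys (lam := fun j => C (lamD a b l j)) (ε := C X * X)
    (fun j i hji => by rw [mul_left_comm, ← map_sub, ← map_mul, (hc j i hji).1, mul_comm]) s).map β
  have he : β (C X * X) = X * C (κ X) := by rw [map_mul, b2, b3]
  have he' : G (X * C (κ X)) = X * C (κ X) := by rw [← he, map_mul, map_mul, c2, c3]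
  have hba : β (C (lamD a b l b)) = β (C (lamD a b l a)) + X := by simp [lamD, hab, b2]
  have s1 := hsys (mk a b J s)
  have s2 := (hsys s).map G
  simp only [he, he', c4] at s1 s2
  have hin : ∀ (t : Fin d), t = a ∨ t = b → ∀ y : K⟦X⟧,
      X ∣ β (C (lamD a b l t)) + X * C (κ X) * y - β (C (lamD a b l a)) := by
    rintro t (rfl | rfl) y
    · exact ⟨C (κ X) * y, by ring⟩
    · exact ⟨C (κ X) * y + 1, by rw [hba]; ring⟩
  have := u2 hab (kX_ne κ hκ) hba (fun j i hji hia hib => ?_) s1 s2 s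
    (fun i => let ⟨m, hm⟩ := hs i; ⟨m, hm.2⟩) (fun i ha hb => ?_) (fun i hi => ?_)
    (fun i j => ?_) (fun i hi => ?_)
  · simpa using (congrFun (congrFun this 0) j).symm
  · simp only [b4, map_C]
    refine hκ.ne (C_injective.ne ?_)
    unfold lamD
    split_ifs <;> simp [hl.eq_iff] <;> grind
  · simp only [mk_out ha hb, map_add, map_mul β, map_mul G, b2, b3, c4, add_sub_cancel_left]
    rw [← map_mul G, he']
    exact ⟨⟨_, mul_assoc _ _ _⟩, ⟨_, mul_assoc _ _ _⟩⟩
  · simp only [map_add, map_mul β _ (ξ _), map_mul G _ (β _), he, he', c4]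
    exact ⟨hin _ (mk_in.2 hi) _, hin _ hi _⟩
  · rw [X_dvd_iff, map_sub, b5, b4, b4, g3 _ (by simpa [shf, add_comm] using hs i), mk_shf, sub_self]
  · have := hκ.ne (red_nd hab hr (s := shf (mk a b J s) i) (by simpa using mk_in.2 hi))
    simpa [b4, sh_shf] using this

end Pool.Agent.MP_9b2bac_nt.Z

end

section

/- The markers are induced by automorphisms of the ring of solutions. -/

set_option autoImplicit false

namespace Pool.Agent.MP_9b2bac_nt.Z

open Finset PowerSeries

variable {d : ℕ} {I : Finset ℕ} {A : Type} [CommRing A] [IsDomain A]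

theorem exists_fac {R D E : Type} [NonAssocSemiring R] [NonAssocSemiring D] [NonAssocSemiring E]
    (f : R →+* E) (ι : D →+* E) (hι : Function.Injective ι) (h : ∀ r, ∃ y, ι y = f r) :
    ∃ α : R →+* D, ∀ r, ι (α r) = f r := by
  choose α hα using h
  exact ⟨⟨⟨⟨α, hι (by simp [hα])⟩, fun x y => hι (by simp [hα])⟩, hι (by simp [hα]),
    fun x y => hι (by simp [hα])⟩, hα⟩

theorem RR_mem {E : Type} [CommRing E] (f : RR A d I →+* E) (T : Subsemiring E)
    (h1 : ∀ a, f (algebraMap (Polynomial (AA A d)) _ a) ∈ T) (h2 : ∀ s j, f (zw A s j) ∈ T)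
    (r : RR A d I) : f r ∈ T := by
  obtain ⟨r, hr⟩ := r
  induction hr using Algebra.adjoin_induction with
  | mem x hx => obtain ⟨⟨s, j⟩, rfl⟩ := hx; exact h2 s j
  | algebraMap a => exact h1 a
  | add x y _ _ hx hy => exact map_add f ⟨x, _⟩ ⟨y, _⟩ ▸ add_mem hx hy
  | mul x y _ _ hx hy => exact map_mul f ⟨x, _⟩ ⟨y, _⟩ ▸ mul_mem hx hy

theorem aut_of_pair {E : Type} [CommRing E] (f f' : RR A d I →+* E) (hf : Function.Injective f)
    (hf' : Function.Injective f')
    (h1 : ∀ a, f' (algebraMap (Polynomial (AA A d)) _ a) = f (algebraMap (Polynomial (AA A d)) _ a))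
    (p : W d I → W d I) (h2 : ∀ s j, f' (zw A s j) = f (zw A (p s) j)) :
    ∃ g : GG A d I, ∀ s, g • s = p s := by
  obtain ⟨α, hα⟩ := exists_fac f' f hf
    (RR_mem f' f.rangeS (fun a => ⟨_, (h1 a).symm⟩) fun s j => ⟨_, (h2 s j).symm⟩)
  let g : RR A d I →ₐ[Polynomial (AA A d)] RR A d I := ⟨α, fun a => hf ((hα _).trans (h1 a))⟩
  have hp : ∀ s j, g (zw A s j) = zw A (p s) j := fun s j => hf ((hα _).trans (h2 s j))
  have hg : Function.Injective g := fun x y e => hf' (by rw [← hα, ← hα]; exact congrArg f e)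
  exact ⟨AlgEquiv.ofBijective g ⟨hg, RR_surj g p hp hg⟩, fun s => zw_inj (A := A)
    (funext fun j => by rw [← act_zw]; exact hp s j)⟩

variable {k : Type} [Field k] {a b : Fin d}

/-- Specialisation of the generic roots to the collision family. -/
noncomputable def phiD (a b : Fin d) (e : AA A d →+* k) : AA A d →+* k⟦X⟧ :=
  MvPolynomial.eval₂Hom (C.comp (e.comp MvPolynomial.C)) (lamD a b fun j => e (MvPolynomial.X j))

theorem phiD_inj (hab : a ≠ b) {e : AA A d →+* k} (he : Function.Injective e) :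
    Function.Injective (phiD a b e) := by
  let q : AA A d →+* Polynomial k := MvPolynomial.eval₂Hom (Polynomial.C.comp (e.comp MvPolynomial.C))
    fun j => if j = b then Polynomial.C (e (MvPolynomial.X a)) + Polynomial.X
      else Polynomial.C (e (MvPolynomial.X j))
  have h1 : phiD a b e = Polynomial.coeToPowerSeries.ringHom.comp q :=
    MvPolynomial.ringHom_ext (fun r => by simp [phiD, q]) fun j => by
      simp only [phiD, q, lamD, MvPolynomial.eval₂Hom_X', RingHom.comp_apply]
      split_ifs <;> simp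
  have h2 : (Polynomial.evalRingHom (e (MvPolynomial.X b) - e (MvPolynomial.X a))).comp q = e :=
    MvPolynomial.ringHom_ext (fun r => by simp [q]) fun j => by
      simp only [q, MvPolynomial.eval₂Hom_X', RingHom.comp_apply]
      split_ifs with h <;> simp [h]
  intro x y h
  rw [h1] at h
  apply he
  have h3 : q x = q y := Polynomial.coe_injective _ h
  rw [← h2, RingHom.comp_apply, RingHom.comp_apply, h3]

theorem exists_alpha (hab : a ≠ b) {e : AA A d →+* k} (he : Function.Injective e)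
    {c : Fin d → Fin d → k⟦X⟧}
    (hc : ∀ j i, j ≠ i → (phiD a b e (MvPolynomial.X j) - phiD a b e (MvPolynomial.X i)) * c j i = X)
    {w : Seq d → Fin d → k⟦X⟧⟦X⟧} {ξ : Seq d → k⟦X⟧⟦X⟧} (h : NF (fun j i => X * C (c j i)) w ξ) :
    ∃ α : RR A d I →+* k⟦X⟧⟦X⟧, Function.Injective α ∧
      (∀ x, α (algebraMap (Polynomial (AA A d)) _ (Polynomial.C x)) = C (phiD a b e x)) ∧
      α (algebraMap (Polynomial (AA A d)) _ Polynomial.X) = C X * X ∧
      ∀ s j, α (zw A s j) = w s.1 j := by
  let K := FractionRing k⟦X⟧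
  let κ : k⟦X⟧ →+* K := algebraMap _ _
  have hκ : Function.Injective κ := IsFractionRing.injective k⟦X⟧ _
  have hφ : Function.Injective (κ.comp (phiD a b e)) := hκ.comp (phiD_inj hab he)
  have hu : ∀ y : Submonoid.powers (Dl A d), IsUnit (κ.comp (phiD a b e) y) := fun y =>
    ((map_ne_zero_iff _ hφ).2 (nonZeroDivisors.ne_zero
      (powers_le_nonZeroDivisors_of_noZeroDivisors Dl_ne y.2))).isUnit
  let Φ : BB A d →+* K := IsLocalization.lift hu
  have hΦ : Function.Injective Φ := (IsLocalization.lift_injective_iff hu).2 fun x y => by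
    rw [AB_inj.eq_iff, hφ.eq_iff]
  have hΦa : ∀ x, Φ (algebraMap _ _ x) = κ (phiD a b e x) := IsLocalization.lift_eq hu
  have hX : κ X ≠ 0 := (map_ne_zero_iff _ hκ).2 X_ne_zero
  let J : (BB A d)⟦X⟧ →+* K⟦X⟧ := (rescale (κ X)).comp (PowerSeries.map Φ)
  have hJ : Function.Injective J := (rescale_injective hX).comp (PowerSeries.map_injective _ hΦ)
  have j1 : ∀ x, J (C x) = C (Φ x) := fun x => by
    ext n
    rw [RingHom.comp_apply, map_C, coeff_rescale, coeff_C]
    split_ifs with h <;> simp [h]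
  have j2 : J X = C (κ X) * X := by simp [J, rescale_X]
  have hι : Function.Injective (PowerSeries.map κ) := PowerSeries.map_injective _ hκ
  have hw := (NF.unique X ps_haus (fun j i _ => ⟨C (κ (c j i)), by simp⟩)
    (h.map (PowerSeries.map κ)) (((nf0 A).map J).congr
      (t' := fun j i => PowerSeries.map κ (X * C (c j i))) fun j i hji => by
      simp only [t0, map_mul, j1, j2, map_X, map_C]
      rw [map_inverse_of_unit _ (lB_unit hji), map_sub, lB, lB, hΦa, hΦa, ← hc j i hji, map_mul κ,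
        map_sub, mul_right_comm, ← map_mul, mul_right_comm, Ring.mul_inverse_cancel, one_mul,
        mul_comm]
      rw [← hΦa, ← hΦa, ← map_sub]
      exact (lB_unit hji).map Φ)).1
  let f : RR A d I →+* K⟦X⟧ := J.comp (RR A d I).val.toRingHom
  have f1 : ∀ x, f (algebraMap (Polynomial (AA A d)) _ (Polynomial.C x)) =
      PowerSeries.map κ (C (phiD a b e x)) := fun x => by
    rw [map_C, ← hΦa, ← j1, ← alg_C]; rfl
  have f2 : f (algebraMap (Polynomial (AA A d)) _ Polynomial.X) = PowerSeries.map κ (C X * X) := by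
    rw [map_mul, map_C, map_X, ← j2, ← alg_X]; rfl
  have f3 : ∀ s j, f (zw A s j) = PowerSeries.map κ (w s.1 j) := fun s j =>
    (congrFun (congrFun hw s.1) j).symm
  obtain ⟨α, hα⟩ := exists_fac f _ hι (RR_mem f (PowerSeries.map κ).rangeS (fun p => by
    induction p using Polynomial.induction_on with
    | C x => exact ⟨_, (f1 x).symm⟩
    | add p q hp hq => rw [map_add, map_add]; exact add_mem hp hq
    | monomial n x hp => rw [pow_succ, ← mul_assoc, map_mul, map_mul]; exact mul_mem hp ⟨_, f2.symm⟩)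
    fun s j => ⟨_, (f3 s j).symm⟩)
  exact ⟨α, fun x y e => Subtype.ext (hJ ((hα x).symm.trans (e ▸ hα y))),
    fun x => hι ((hα _).trans (f1 x)), hι ((hα _).trans f2), fun s j => hι ((hα _).trans (f3 s j))⟩

theorem marker (hd : 3 ≤ d) (h2 : (2 : A) ≠ 0) (hab : a ≠ b) {J : ℕ} (hJ : 1 ≤ J) :
    ∃ g : GG A d I, ∀ s : W d I, (g • s).1 = mk a b J s.1 := by
  let k := AlgebraicClosure (FractionRing (AA A d))
  let e : AA A d →+* k := algebraMap _ _
  have he : Function.Injective e :=
    (algebraMap (FractionRing (AA A d)) k).injective.comp (IsFractionRing.injective (AA A d) _)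
  have hk : (2 : k) ≠ 0 := fun h => h2 (MvPolynomial.C_injective (Fin d) A (he (by
    rw [map_ofNat, map_ofNat, h, map_zero, map_zero])))
  have hl : Function.Injective fun j => e (MvPolynomial.X j) := he.comp MvPolynomial.X_injective
  choose c hc using exists_cD hab hl
  obtain ⟨w, ξ, h⟩ := exists_NF (fun j i => X * C (c j i)) fun _ _ _ => Dvd.intro _ rfl
  obtain ⟨S, _, β, β', hβ, hβ', b1, b2, b3, b4⟩ := core hk hab hl hc h hJ (I.sup id)
  obtain ⟨α, hα, a1, a2, a3⟩ := exists_alpha (I := I) hab he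
    (fun j i hji => by simpa [phiD] using (hc j i hji).1) h
  let p : W d I → W d I := fun s => ⟨mk a b J s.1, let ⟨n, hn, h⟩ := s.2; ⟨n, hn, mk_per hd h hab hJ⟩⟩
  obtain ⟨g, hg⟩ := aut_of_pair (β.comp α) (β'.comp α) (hβ.comp hα) (hβ'.comp hα) (fun x => by
    have e1 : (β'.comp C).comp (phiD a b e) = (β.comp C).comp (phiD a b e) :=
      MvPolynomial.ringHom_ext (fun r => by simp [phiD, b1]) fun j => by
        simp only [phiD, lamD, MvPolynomial.eval₂Hom_X', RingHom.comp_apply]
        split_ifs <;> simp only [map_add, b1, b2]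
    have : (β'.comp α).comp (algebraMap (Polynomial (AA A d)) _) =
        (β.comp α).comp (algebraMap (Polynomial (AA A d)) _) :=
      Polynomial.ringHom_ext (fun x => by
        simp only [RingHom.comp_apply, a1]; exact DFunLike.congr_fun e1 x)
        (by simp only [RingHom.comp_apply, a2, map_mul, b2, b3])
    exact DFunLike.congr_fun this x) p fun s j => by
      simp only [RingHom.comp_apply, a3]
      refine b4 _ (fun i => ?_) j
      obtain ⟨n, hn, h⟩ := s.2
      obtain ⟨t, ht⟩ : ∃ t : Fin d, t ≠ a ∧ t ≠ b := by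
        by_contra hc
        push Not at hc
        have : (univ : Finset (Fin d)) ⊆ {a, b} := fun t _ => by
          by_cases h : t = a
          · simp [h]
          · simp [hc t h]
        have := (card_le_card this).trans card_le_two
        simp at this; omega
      obtain ⟨x, rfl⟩ := h.2.2 t
      have hn' : (0 : ℤ) < n := by exact_mod_cast h.1
      have h0 := Int.emod_nonneg (x - i) hn'.ne'
      have h1 := Int.emod_lt_of_pos (x - i) hn'
      have h3 : n ≤ I.sup id := le_sup (f := id) hn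
      refine ⟨((x - i) % n).toNat, by omega, ?_⟩
      rwa [Int.toNat_of_nonneg h0, ← h.zper _ ((x - i) / n), add_assoc, Int.emod_add_ediv_mul,
        add_sub_cancel]
  exact ⟨g, fun s => congrArg Subtype.val (hg s)⟩

end Pool.Agent.MP_9b2bac_nt.Z

end
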