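import Mathlib
import Pool.Agent.Mg.F43e117.Gb01801
import Pool.Agent.MP_9b2bac_nt.Carlitz
import Pool.Agent.Mg.F43e117.G4b4065

section

/- A Frobenius orbit solving the system gives a small prime factor. -/

set_option autoImplicit false

namespace Pool.Agent.MP_9b2bac_nt.Z

open Finset Polynomial

variable {d : ℕ} {F k : Type} [Field F] [Fintype F] [Field k] [Algebra F k]

theorem sys_root {lam : Fin d → k} {ε : k} (hε : ε ≠ 0) (hq : ε ^ Fintype.card F = ε) {x : ℤ → k}
    {w : ℤ → Fin d → k} (h : Sys lam ε x w) (hx : ∀ i, x i ^ Fintype.card F = x (i + 1))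
    {P : F[X]} (hP : ∀ j, aeval (ε⁻¹ * lam j) P = 0) : carlitz (ε⁻¹ * x 0) P 1 = 0 := by
  let Y : ℕ → ℤ → k := fun m i => ∑ j, (ε⁻¹ * lam j) ^ m * w i j
  have h0 : ∀ i, Y 0 i = 1 := fun i => by simp [Y, h.sum]
  have h1 : ∀ m i, Y (m + 1) i = ε⁻¹ * x i * Y m i + Y m (i + 1) := fun m i => by
    simp only [Y, mul_sum, ← sum_add_distrib]
    refine sum_congr rfl fun j _ => ?_
    have : w (i + 1) j = ε⁻¹ * ((lam j - x i) * w i j) := by
      rw [← h.step, inv_mul_cancel_left₀ hε]
    rw [this]; ring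
  have h2 : ∀ m i, Y m i ^ Fintype.card F = Y m (i + 1) := fun m => by
    induction m with
    | zero => simp [h0]
    | succ m ih =>
      intro i
      have := map_add (FiniteField.frobeniusAlgHom F k) (ε⁻¹ * x i * Y m i) (Y m (i + 1))
      simp only [FiniteField.coe_frobeniusAlgHom] at this
      rw [h1, this, mul_pow, mul_pow, inv_pow, hq, hx, ih, ih, h1]
  have h3 : ∀ m, (fun y => ε⁻¹ * x 0 * y + y ^ Fintype.card F)^[m] 1 = Y m 0 := fun m => by
    induction m with
    | zero => simp [h0]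
    | succ m ih => rw [Function.iterate_succ_apply', ih, h2, h1]
  simp only [carlitz, h3, Y, Polynomial.sum, smul_sum]
  rw [sum_comm]
  refine sum_eq_zero fun j _ => ?_
  have := hP j
  rw [aeval_def, eval₂_eq_sum, Polynomial.sum] at this
  simp only [Algebra.smul_def, ← mul_assoc]
  rw [← sum_mul, this, zero_mul]

theorem deg_one (hq : 2 < Fintype.card F) {P : F[X]} (hP : P.Monic) (hd : P.natDegree = d + 1) :
    (carlitz X P (1 : F[X])).natDegree = Fintype.card F ^ d := by
  have h1 : P.divX.natDegree = d := by rw [natDegree_divX_eq_natDegree_tsub_one, hd]; rfl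
  have h2 : P.divX.Monic := by
    rw [Monic, leadingCoeff, h1, coeff_divX, ← hd]; exact hP
  have h3 : carlitz X (X : F[X]) (1 : F[X]) = X + C 1 := by
    simpa [carlitz_one] using carlitz_X_mul (X : F[X]) (1 : F[X]) 1
  have h4 := (carlitz_degree (θ := X) (x := X + C (1 : F)) (X_add_C_ne_zero 1)
    (by rw [natDegree_X_add_C, natDegree_X]; omega) h2).1
  rw [← divX_mul_X_add P, carlitz_add, carlitz_mul, h3, carlitz_C, smul_eq_C_mul, mul_one,
    natDegree_add_C, h4, h1, natDegree_X_add_C, mul_one]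

/-- `C_P(1)` is composite with a prime factor of degree at most `N`. -/
def Sm (N : ℕ) (P : F[X]) : Prop := ∃ Q M : F[X], Irreducible Q ∧ Q.natDegree ≤ N ∧
  0 < M.natDegree ∧ carlitz X P 1 = Q * M

theorem Sm.mono {N N' : ℕ} {P : F[X]} (h : Sm N P) (hN : N ≤ N') : Sm N' P :=
  let ⟨Q, M, h1, h2, h3⟩ := h; ⟨Q, M, h1, h2.trans hN, h3⟩

theorem sm_of_root (hq : 2 < Fintype.card F) {P : F[X]} (hP : P.Monic) (hd : 2 ≤ P.natDegree)
    {n N : ℕ} (hn : 0 < n) (hN : n ≤ N) (hN' : N < Fintype.card F) {θ : k}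
    (hθ : θ ^ Fintype.card F ^ n = θ) (h : carlitz θ P 1 = 0) : Sm N P := by
  have h1 : aeval θ (X ^ Nat.card F ^ n - X : F[X]) = 0 := by simp [hθ]
  have hi : IsIntegral F θ := isAlgebraic_iff_isIntegral.1 ⟨_, by
    rw [Nat.card_eq_fintype_card]
    exact FiniteField.X_pow_card_pow_sub_X_ne_zero F hn.ne' (by omega), h1⟩
  have h2 := Nat.le_of_dvd hn
    ((minpoly.irreducible hi).natDegree_dvd_of_dvd_X_pow_card_pow_sub_X (minpoly.dvd F θ h1))
  obtain ⟨M, hM⟩ := minpoly.dvd F θ (p := carlitz X P 1) (by rw [map_carlitz]; simpa using h)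
  refine ⟨_, M, minpoly.irreducible hi, h2.trans hN, Nat.pos_of_ne_zero fun h0 => ?_, hM⟩
  obtain ⟨e, he⟩ := Nat.exists_eq_add_of_le' hd
  have h3 := deg_one hq hP (d := e + 1) he
  have h4 := natDegree_mul_le (p := minpoly F θ) (q := M)
  have h5 : Fintype.card F ≤ Fintype.card F ^ (e + 1) := Nat.le_self_pow (by omega) _
  rw [← hM] at h4
  omega

end Pool.Agent.MP_9b2bac_nt.Z

end

section

/- A root of `C_P(1)` gives a periodic solution of the system. -/

set_option autoImplicit false

namespace Pool.Agent.MP_9b2bac_nt.Z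

open Finset Polynomial

variable {d : ℕ} {F k : Type} [Field F] [Fintype F] [Field k] [Algebra F k]

theorem frob_trans {P : F[X]} (hm : P.Monic) (hi : Irreducible P) {μ : Fin d → k}
    (hμ : Function.Injective μ) (hP : P.map (algebraMap F k) = ∏ j, (X - C (μ j)))
    {π : Equiv.Perm (Fin d)} (hπ : ∀ j, μ j ^ Fintype.card F = μ (π j)) (j j' : Fin d) :
    ∃ m : ℕ, π^[m] j = j' := by
  have h1 : ∀ j, (P.map (algebraMap F k)).eval (μ j) = 0 := fun j => by
    rw [hP, eval_prod]; exact prod_eq_zero (mem_univ j) (by simp)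
  have h2 := h1 j'
  rw [map_eq_prod hm hi (z := μ j) (by rw [← eval_map_algebraMap, h1]), eval_prod,
    prod_eq_zero_iff] at h2
  obtain ⟨m, -, h2⟩ := h2
  refine ⟨m, hμ ?_⟩
  have : ∀ m : ℕ, μ (π^[m] j) = μ j ^ Fintype.card F ^ m := fun m => by
    induction m with
    | zero => simp
    | succ m ih => rw [Function.iterate_succ_apply', ← hπ, ih, ← pow_mul, pow_succ]
  rw [this]
  simpa [sub_eq_zero, eq_comm] using h2

theorem root_sys [Algebra.IsAlgebraic F k] {P : F[X]} (hm : P.Monic) (hi : Irreducible P)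
    {μ : Fin d → k} (hμ : Function.Injective μ) (hP : P.map (algebraMap F k) = ∏ j, (X - C (μ j)))
    {π : Equiv.Perm (Fin d)} (hπ : ∀ j, μ j ^ Fintype.card F = μ (π j)) {θ : k} {n : ℕ}
    (hθ : θ ^ Fintype.card F ^ n = θ) (h : carlitz θ P 1 = 0) :
    ∃ (x : ℤ → k) (w : ℤ → Fin d → k), Sys μ 1 x w ∧ x 0 = θ ∧ (∀ i, w (i + n) = w i) ∧
      (∀ j, ∃ i, w i j ≠ 0) ∧ ∀ j, w 0 j ^ Fintype.card F = w 1 (π j) := by
  classical
  let Φ := FiniteField.frobeniusAlgEquivOfAlgebraic F k
  have hΦ : ∀ y, Φ y = y ^ Fintype.card F := fun _ => rfl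
  let ev : ℤ → k[X] →ₗ[k] k := fun i =>
    lsum fun m => LinearMap.smulRight LinearMap.id ((Φ ^ i) ((lin F θ ^ m) 1))
  have e0 : ∀ i m c, ev i (monomial m c) = c * (Φ ^ i) ((lin F θ ^ m) 1) := fun i m c => by
    simp [ev, lsum_apply, sum_monomial_index]
  have e1 : ∀ i R, ev i (X * R) = (Φ ^ i) θ * ev i R + ev (i + 1) R := fun i R => by
    induction R using Polynomial.induction_on' with
    | add p q hp hq => simp only [mul_add, map_add, hp, hq]; ring
    | monomial m c =>
      rw [X_mul_monomial, e0, e0, e0, pow_succ', Module.End.mul_apply, lin_apply, ← hΦ, map_add,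
        map_mul, zpow_add_one, AlgEquiv.mul_apply]
      ring
  have e2 : ∀ i R, Φ (ev i R) = ev (i + 1) (R.map (Φ : k →+* k)) := fun i R => by
    induction R using Polynomial.induction_on' with
    | add p q hp hq => simp only [Polynomial.map_add, map_add, hp, hq]
    | monomial m c =>
      rw [map_monomial, e0, e0, map_mul, add_comm, zpow_one_add, AlgEquiv.mul_apply]; rfl
  have e3 : ∀ i (R : F[X]), ev i (R.map (algebraMap F k)) = (Φ ^ i) (carlitz θ R 1) := fun i R => by
    induction R using Polynomial.induction_on' with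
    | add p q hp hq => simp only [Polynomial.map_add, map_add, hp, hq, carlitz_add]
    | monomial m c =>
      rw [map_monomial, e0, carlitz_eq, aeval_monomial, Module.End.mul_apply,
        Module.algebraMap_end_apply, map_smul, Algebra.smul_def]
  have e4 : ∀ m, (Φ ^ n) ((lin F θ ^ m) 1) = (lin F θ ^ m) 1 := fun m => by
    have : (Φ ^ n) θ = θ := by
      rw [AlgEquiv.coe_pow, FiniteField.coe_frobeniusAlgEquivOfAlgebraic_iterate]; exact hθ
    induction m with
    | zero => simp
    | succ m ih => rw [pow_succ', Module.End.mul_apply, lin_apply, map_add, map_mul, map_pow, ih, this]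
  have e5 : ∀ i j, ev i (Lagrange.basis univ μ j) ^ Fintype.card F =
      ev (i + 1) (Lagrange.basis univ μ (π j)) := fun i j => by
    rw [← hΦ, e2, Lagrange.basis, Lagrange.basis, Polynomial.map_prod]
    congr 1
    refine prod_equiv π (by simp) fun l _ => ?_
    simp [Lagrange.basisDivisor, ← hΦ, ← hπ]
  have hs : ∀ i, ∑ j, ev i (Lagrange.basis univ μ j) = 1 := fun i => by
    have : (univ : Finset (Fin d)).Nonempty := by
      by_contra hc
      rw [not_nonempty_iff_eq_empty.1 hc, prod_empty, ← Polynomial.map_one (algebraMap F k)] at hP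
      exact hi.ne_one (map_injective _ (algebraMap F k).injective hP)
    rw [← map_sum, Lagrange.sum_basis hμ.injOn this, ← monomial_zero_one, e0]; simp
  refine ⟨fun i => (Φ ^ i) θ, fun i j => ev i (Lagrange.basis univ μ j), ⟨fun i j => ?_, hs⟩,
    by simp, fun i => funext fun j => ?_, fun j => ?_, fun j => e5 0 j⟩
  · have h1 : X * Lagrange.basis univ μ j = μ j • Lagrange.basis univ μ j +
        Lagrange.nodalWeight univ μ j • P.map (algebraMap F k) := by
      rw [hP, ← Lagrange.nodal_eq, Lagrange.nodal_eq_mul_nodal_erase (mem_univ j),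
        Lagrange.basis_eq_prod_sub_inv_mul_nodal_div (mem_univ j),
        ← Lagrange.nodal_erase_eq_nodal_div (mem_univ j), smul_eq_C_mul, smul_eq_C_mul]
      ring
    have h2 := e1 i (Lagrange.basis univ μ j)
    rw [h1, map_add, map_smul, map_smul, e3, h, map_zero, smul_zero, add_zero, smul_eq_mul] at h2
    linear_combination -h2
  · simp only [ev, zpow_add, zpow_natCast, AlgEquiv.mul_apply, e4]
  · by_contra hc
    push Not at hc
    have h1 : ∀ (m : ℕ) i, ev i (Lagrange.basis univ μ (π^[m] j)) = 0 := fun m => by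
      induction m with
      | zero => exact hc
      | succ m ih =>
        intro i
        rw [Function.iterate_succ_apply', ← sub_add_cancel i 1, ← e5, ih,
          zero_pow Fintype.card_ne_zero]
    have h2 := hs 0
    rw [sum_eq_zero fun j' _ => by
      obtain ⟨m, rfl⟩ := frob_trans hm hi hμ hP hπ j j'; exact h1 m 0] at h2
    exact zero_ne_one h2

end Pool.Agent.MP_9b2bac_nt.Z

end

section

/- Elements fixed by all automorphisms are fractions, in every characteristic. -/

set_option autoImplicit false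

namespace Pool.Agent.MP_9b2bac_nt.Z

open Polynomial

namespace ZFixP

theorem fix_field {F L Ω : Type} [Field F] [Field L] [Algebra F L] [Algebra.IsSeparable F L]
    [Field Ω] [IsAlgClosed Ω] [Algebra F Ω] [Algebra L Ω] [IsScalarTower F L Ω]
    (r : L) (hr : ∀ f : L →ₐ[F] Ω, f r = algebraMap L Ω r) : ∃ c : F, algebraMap F L c = r := by
  have hi : IsIntegral F r := Algebra.IsIntegral.isIntegral r
  have hs : (minpoly F r).Separable := Algebra.IsSeparable.isSeparable F r
  have h1 := card_rootSet_eq_natDegree (K := Ω) hs (IsAlgClosed.splits _)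
  have h2 : Fintype.card ((minpoly F r).rootSet Ω) ≤ 1 := Fintype.card_le_one_iff.2 (by
    have : ∀ y : (minpoly F r).rootSet Ω, (y : Ω) = algebraMap L Ω r := fun y => by
      obtain ⟨φ, hφ⟩ := IntermediateField.exists_algHom_of_splits_of_aeval (x := r) (y := (y : Ω))
        (fun s => ⟨Algebra.IsIntegral.isIntegral s, IsAlgClosed.splits _⟩)
        (aeval_eq_zero_of_mem_rootSet y.2)
      rw [← hφ, hr]
    exact fun a b => Subtype.ext ((this a).trans (this b).symm))
  have h3 : (minpoly F r).natDegree = 1 :=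
    le_antisymm (h1 ▸ h2) (minpoly.natDegree_pos hi)
  exact minpoly.natDegree_eq_one_iff.1 h3

theorem sep_of_der {F L : Type} [Field F] [Field L] [Algebra F L] [Algebra.EssFiniteType F L]
    (h : ∀ D : Derivation F L L, D = 0) : Algebra.IsSeparable F L := by
  haveI : Algebra.FormallyUnramified F L := ⟨subsingleton_of_forall_eq 0 fun x =>
    (Module.forall_dual_apply_eq_zero_iff L x).1 fun φ => by
      have := h (KaehlerDifferential.linearMapEquivDerivation F L φ)
      rw [LinearEquiv.map_eq_zero_iff] at this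
      simp [this]⟩
  exact Algebra.FormallyUnramified.isSeparable F L

theorem fix_abs {A R Ω : Type} [CommRing A] [IsDomain A] [CommRing R] [IsDomain R]
    [Algebra A R] [Algebra.FiniteType A R] (hinj : Function.Injective (algebraMap A R)) [Field Ω]
    [IsAlgClosed Ω] [Algebra A Ω] (e : R →ₐ[A] Ω) (he : Function.Injective e)
    (hD : ∀ D : R →+ Ω, (∀ a, D (algebraMap A R a) = 0) →
      (∀ x y, D (x * y) = e x * D y + e y * D x) → ∀ r, D r = 0)
    (h : ∀ f : R →ₐ[A] Ω, Function.Injective f → ∃ g : R ≃ₐ[A] R, ∀ r, f r = e (g r))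
    (r : R) (hr : ∀ g : R ≃ₐ[A] R, g r = r) :
    ∃ a b : A, a ≠ 0 ∧ a • r = algebraMap A R b := by
  letI : Algebra R Ω := e.toRingHom.toAlgebra
  haveI : IsScalarTower A R Ω := IsScalarTower.of_algebraMap_eq fun a => (e.commutes a).symm
  haveI : FaithfulSMul A R := (faithfulSMul_iff_algebraMap_injective _ _).2 hinj
  haveI : FaithfulSMul R Ω := (faithfulSMul_iff_algebraMap_injective _ _).2 he
  haveI : FaithfulSMul A Ω := FaithfulSMul.trans A R Ω
  haveI : FaithfulSMul A (FractionRing R) := FaithfulSMul.trans A R _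
  letI := FractionRing.liftAlgebra A (FractionRing R)
  letI := FractionRing.liftAlgebra A Ω
  letI := FractionRing.liftAlgebra R Ω
  haveI : IsScalarTower A (FractionRing R) Ω := IsScalarTower.of_algebraMap_eq fun a => by
    rw [IsScalarTower.algebraMap_apply A R (FractionRing R),
      ← IsScalarTower.algebraMap_apply R (FractionRing R) Ω, ← IsScalarTower.algebraMap_apply]
  haveI : IsScalarTower (FractionRing A) (FractionRing R) Ω :=
    IsScalarTower.of_algebraMap_eq' (IsFractionRing.ringHom_ext (A := A) fun a => by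
      rw [RingHom.comp_apply, ← IsScalarTower.algebraMap_apply,
        ← IsScalarTower.algebraMap_apply, ← IsScalarTower.algebraMap_apply])
  haveI : Algebra.EssFiniteType A (FractionRing R) := by
    haveI := Algebra.EssFiniteType.of_isLocalization (FractionRing R) (nonZeroDivisors R)
    exact Algebra.EssFiniteType.comp A R _
  haveI : Algebra.EssFiniteType (FractionRing A) (FractionRing R) :=
    Algebra.EssFiniteType.of_comp A _ _
  haveI : Algebra.IsSeparable (FractionRing A) (FractionRing R) := sep_of_der fun D => by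
    have h1 := hD ((algebraMap (FractionRing R) Ω).toAddMonoidHom.comp
      (D.toLinearMap.toAddMonoidHom.comp (algebraMap R (FractionRing R)).toAddMonoidHom))
      (fun a => by
        change algebraMap _ Ω (D (algebraMap R _ (algebraMap A R a))) = 0
        rw [← IsScalarTower.algebraMap_apply, IsScalarTower.algebraMap_apply A (FractionRing A),
          D.map_algebraMap, map_zero])
      (fun x y => by
        change algebraMap _ Ω (D (algebraMap R _ (x * y))) =
          algebraMap R Ω x * algebraMap _ Ω (D (algebraMap R _ y)) +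
            algebraMap R Ω y * algebraMap _ Ω (D (algebraMap R _ x))
        rw [map_mul, D.leibniz, smul_eq_mul, smul_eq_mul, map_add, map_mul, map_mul,
          ← IsScalarTower.algebraMap_apply, ← IsScalarTower.algebraMap_apply])
    have h2 : ∀ r : R, D (algebraMap R _ r) = 0 := fun r =>
      (algebraMap (FractionRing R) Ω).injective ((h1 r).trans (map_zero _).symm)
    ext x
    obtain ⟨b, a, ha, rfl⟩ := IsFractionRing.div_surjective (A := R) x
    simp [Derivation.leibniz_div, h2]
  have hres : ∀ f : FractionRing R →ₐ[FractionRing A] Ω, ∃ g : R ≃ₐ[A] R,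
      ∀ r, f (algebraMap R _ r) = e (g r) := fun f =>
    h ((f.restrictScalars A).comp (IsScalarTower.toAlgHom A R _))
      (f.injective.comp (IsFractionRing.injective R (FractionRing R)))
  choose G hG using hres
  obtain ⟨c, hc⟩ := fix_field (F := FractionRing A) (Ω := Ω) (algebraMap R (FractionRing R) r)
    fun f => by rw [hG, hr, ← IsScalarTower.algebraMap_apply]; rfl
  obtain ⟨b, a, ha, rfl⟩ := IsFractionRing.div_surjective (A := A) c
  have ha0 : a ≠ 0 := nonZeroDivisors.ne_zero ha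
  refine ⟨a, b, ha0, IsFractionRing.injective R (FractionRing R) ?_⟩
  have h0 : algebraMap A (FractionRing R) a ≠ 0 :=
    (map_ne_zero_iff _ (FaithfulSMul.algebraMap_injective A _)).2 ha0
  rw [map_div₀, ← IsScalarTower.algebraMap_apply, ← IsScalarTower.algebraMap_apply] at hc
  rw [Algebra.smul_def, map_mul, ← hc, ← IsScalarTower.algebraMap_apply,
    ← IsScalarTower.algebraMap_apply, mul_div_cancel₀ _ h0]

open Finset in
theorem tangent {d : ℕ} {Ω Γ : Type} [Field Ω] [LinearOrderedCommGroupWithZero Γ]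
    (v : Valuation Ω Γ) {lam : Fin d → Ω} {ε : Ω} {n : ℕ} (hε : v ε < 1)
    (hl : ∀ j k, j ≠ k → v (lam j - lam k) = 1) (hn : 0 < n) {x : ℤ → Ω} {w : ℤ → Fin d → Ω}
    (h : Sys lam ε x w) (hw : ∀ i, w (i + n) = w i) {a : ℤ → Ω} {b : ℤ → Fin d → Ω}
    (hb : ∀ i, b (i + n) = b i) (e : ∀ i j, a i * w i j = (lam j - x i) * b i j - ε * b (i + 1) j)
    (hs : ∀ i, ∑ j, b i j = 0) (i : ℤ) (j : Fin d) : b i j = 0 := by
  classical
  obtain ⟨hle, s, hs'⟩ := h.exists_word v hε hl hn hw
  haveI : Nonempty (Fin d) := ⟨j⟩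
  obtain ⟨i₀, j₀, hm⟩ := exists_max_per hn (fun i j => v (b i j)) fun i => by simp only [hb]
  set D := v (b i₀ j₀) with hD
  have hx : ∀ i, v (a i) ≤ D := fun i => by
    have := congrArg v (e i (s i))
    rw [v.map_mul, h.near_one v hε hl hle (hs' i), mul_one] at this
    rw [this]
    refine v.map_sub_le ?_ ?_ <;> rw [v.map_mul]
    · exact (mul_le_of_le_one_left' (hs' i).le).trans (hm _ _)
    · exact (mul_le_of_le_one_left' hε.le).trans (hm _ _)
  have h1 : ∀ i j, j ≠ s i → v (b i j) ≤ v ε * D := fun i j hj => by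
    have e2 : (lam j - x i) * b i j = a i * w i j + ε * b (i + 1) j := by rw [e]; ring
    have := congrArg v e2
    rw [v.map_mul, far_one v hl (hs' i) hj, one_mul] at this
    rw [this]
    refine v.map_add_le ?_ ?_ <;> rw [v.map_mul]
    · rw [mul_comm]
      exact mul_le_mul' ((h.far v (far_one v hl (hs' i) hj).ge).trans
        (mul_le_of_le_one_right' (hle _ _))) (hx i)
    · exact mul_le_mul_right (hm _ _) _
  have h2 : ∀ i j, v (b i j) ≤ v ε * D := fun i j => by
    by_cases hj : j = s i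
    · have : b i j = -∑ k ∈ univ.erase j, b i k := by
        have h3 := hs i
        rw [← add_sum_erase _ _ (mem_univ j)] at h3
        linear_combination h3
      rw [this, v.map_neg]
      exact v.map_sum_le fun k hk => h1 i k (hj ▸ ne_of_mem_erase hk)
    · exact h1 i j hj
  have hD0 : D = 0 := eq_zero_of_le_mul hε (h2 i₀ j₀)
  exact v.zero_iff.1 (le_zero_iff.1 (hD0 ▸ hm i j))

theorem der_zero {d : ℕ} {I : Finset ℕ} {A : Type} [CommRing A] [IsDomain A]
    (D : RR A d I →+ Om A d) (h0 : ∀ a, D (algebraMap (AA A d)[X] _ a) = 0)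
    (hm : ∀ x y : RR A d I, D (x * y) = io A d x * D y + io A d y * D x) (r : RR A d I) :
    D r = 0 := by
  have hz : ∀ (s : W d I) j, D (zw A s j) = 0 := by
    intro s j
    obtain ⟨V, h1, h2⟩ := exists_val (d := d) (A := A)
    obtain ⟨n, hnI, hn⟩ := s.2
    set E : RR A d I →+* Om A d := (io A d).comp (RR A d I).val.toRingHom with hE
    have hm' : ∀ x y : RR A d I, D (x * y) = E x * D y + E y * D x := hm
    have hS := (sysR A s).map E
    have hv : ∀ j k, j ≠ k → V.valuation (E (lR A I j) - E (lR A I k)) = 1 :=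
      fun j k h => by
      obtain ⟨u, hu⟩ := isUnit_iff_exists_inv.1 (lB_unit (A := A) h)
      have e : V.valuation (io A d (PowerSeries.C (lB A j - lB A k))) *
          V.valuation (io A d (PowerSeries.C u)) = 1 := by
        rw [← map_mul, ← map_mul, ← map_mul, hu]; simp
      have e' : ∀ j, E (lR A I j) = io A d (PowerSeries.C (lB A j)) := fun j =>
        congrArg (io A d) (lR_val (I := I) j)
      rw [e', e', ← map_sub, ← map_sub]
      exact le_antisymm (h1 _) (e ▸ mul_le_of_le_one_right' (h1 _))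
    have hp : ∀ i : ℤ, (shW d I ^ (i + n)) s = (shW d I ^ i) s := fun i =>
      Subtype.ext (by rw [shW_zpow, shW_zpow, shf_per hn])
    have := tangent V.valuation (ε := E (eR A d I)) (by rw [← eR_val (I := I)] at h2; exact h2) hv hn.1 hS
      (fun i => by simp only [hp]) (a := fun i => D (zx A ((shW d I ^ i) s)))
      (b := fun i j => D (zw A ((shW d I ^ i) s) j)) (fun i => by simp only [hp])
      (fun i j => by
        have := congrArg D ((sysR A s).step i j)
        rw [hm', hm', map_sub, map_sub, show D (eR A d I) = 0 from h0 _,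
          show D (lR A I j) = 0 from h0 _] at this
        linear_combination this)
      (fun i => by
        rw [← map_sum, (sysR A s).sum i, ← map_one (algebraMap (AA A d)[X] (RR A d I)), h0]) 0 j
    rwa [zpow_zero] at this
  obtain ⟨r, hr⟩ := r
  induction hr using Algebra.adjoin_induction with
  | mem x hx => obtain ⟨⟨s, j⟩, rfl⟩ := hx; exact hz s j
  | algebraMap a => exact h0 a
  | add x y _ _ hx hy => exact (map_add D ⟨x, _⟩ ⟨y, _⟩).trans (by rw [hx, hy, add_zero])
  | mul x y _ _ hx hy => exact (hm ⟨x, _⟩ ⟨y, _⟩).trans (by rw [hx, hy]; simp)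

end ZFixP

theorem hfixP {d : ℕ} {I : Finset ℕ} {A : Type} [CommRing A] [IsDomain A]
    (r : RR A d I) (hr : ∀ g : GG A d I, g r = r) :
    ∃ a b : (AA A d)[X], a ≠ 0 ∧ a • r = algebraMap _ (RR A d I) b :=
  haveI : Algebra.FiniteType (AA A d)[X] (RR A d I) := (Subalgebra.fg_iff_finiteType _).1 RR_fg
  ZFixP.fix_abs (Ω := Om A d) (fun _ _ h => alg_inj (congrArg Subtype.val h))
    ((IsScalarTower.toAlgHom _ (PowerSeries (BB A d)) (Om A d)).comp (RR A d I).val)
    (io_inj.comp Subtype.val_injective) ZFixP.der_zero exists_aut r hr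

end Pool.Agent.MP_9b2bac_nt.Z

end

section

set_option autoImplicit false

namespace Pool.Agent.MP_9b2bac_nt.Z

open Polynomial

namespace YSpread

/-- A property of ring maps to fields holds outside a proper closed subset. -/
def Gen (R : Type) [CommRing R] (P : ∀ (k : Type) [Field k], (R →+* k) → Prop) : Prop :=
  ∃ δ : R, δ ≠ 0 ∧ ∀ (k : Type) [Field k] (φ : R →+* k), φ δ ≠ 0 → P k φ

section gen

variable {R : Type} [CommRing R] [IsDomain R]

omit [IsDomain R] in
theorem Gen.mono {P Q : ∀ (k : Type) [Field k], (R →+* k) → Prop} (h : Gen R P)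
    (hPQ : ∀ (k : Type) [Field k] (φ : R →+* k), P k φ → Q k φ) : Gen R Q :=
  let ⟨δ, h0, h1⟩ := h
  ⟨δ, h0, fun k _ φ hφ => hPQ k φ (h1 k φ hφ)⟩

theorem Gen.all {ι : Type} [Finite ι] {P : ι → ∀ (k : Type) [Field k], (R →+* k) → Prop}
    (h : ∀ i, Gen R (P i)) : Gen R fun k _ φ => ∀ i, P i k φ := by
  haveI := Fintype.ofFinite ι
  choose δ h0 h1 using h
  refine ⟨∏ i, δ i, Finset.prod_ne_zero_iff.2 fun i _ => h0 i, fun k _ φ hφ i => h1 i k φ ?_⟩
  rw [map_prod] at hφ
  exact Finset.prod_ne_zero_iff.1 hφ i (Finset.mem_univ i)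

theorem Gen.and {P Q : ∀ (k : Type) [Field k], (R →+* k) → Prop} (h : Gen R P) (h' : Gen R Q) :
    Gen R fun k _ φ => P k φ ∧ Q k φ := by
  obtain ⟨a, a0, a1⟩ := h
  obtain ⟨b, b0, b1⟩ := h'
  refine ⟨a * b, mul_ne_zero a0 b0, fun k _ φ hφ => ?_⟩
  rw [map_mul] at hφ
  exact ⟨a1 k φ (left_ne_zero_of_mul hφ), b1 k φ (right_ne_zero_of_mul hφ)⟩

theorem Gen.imp {H : Prop} {P : ∀ (k : Type) [Field k], (R →+* k) → Prop} (h : H → Gen R P) :
    Gen R fun k _ φ => H → P k φ := by
  by_cases hH : H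
  · exact (h hH).mono fun k _ φ hP _ => hP
  · exact ⟨1, one_ne_zero, fun k _ φ _ h' => absurd h' hH⟩

theorem Gen.eq (a b : R) : Gen R fun _ _ φ => φ a = φ b → a = b := by
  by_cases h : a = b
  · exact ⟨1, one_ne_zero, fun k _ φ _ _ => h⟩
  · exact ⟨a - b, sub_ne_zero.2 h, fun k _ φ hφ h' => absurd (by rw [map_sub, h', sub_self]) hφ⟩

theorem spread {Ω V ι : Type} [Field Ω] [IsAlgClosed Ω] [Finite V] (e : R →+* Ω)
    (he : Function.Injective e) (F : ι → MvPolynomial V R) (g : MvPolynomial V R)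
    (h : ∀ p : V → Ω, (∀ i, MvPolynomial.eval₂Hom e p (F i) = 0) →
      MvPolynomial.eval₂Hom e p g = 0) :
    Gen R fun k _ φ => ∀ p : V → k, (∀ i, MvPolynomial.eval₂Hom φ p (F i) = 0) →
      MvPolynomial.eval₂Hom φ p g = 0 := by
  letI : Algebra R Ω := e.toAlgebra
  haveI : FaithfulSMul R Ω := (faithfulSMul_iff_algebraMap_injective _ _).2 he
  letI := FractionRing.liftAlgebra R Ω
  letI : Algebra (MvPolynomial V R) (MvPolynomial V (FractionRing R)) :=
    MvPolynomial.algebraMvPolynomial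
  have key : ∀ (p : V → Ω) (f : MvPolynomial V R),
      MvPolynomial.aeval p (algebraMap _ (MvPolynomial V (FractionRing R)) f) =
        MvPolynomial.eval₂Hom e p f := fun p f => by
    rw [MvPolynomial.algebraMap_def, MvPolynomial.aeval_map_algebraMap]
    rfl
  have h1 : algebraMap _ (MvPolynomial V (FractionRing R)) g ∈
      ((Ideal.span (Set.range F)).map (algebraMap _ (MvPolynomial V (FractionRing R)))).radical := by
    rw [← MvPolynomial.vanishingIdeal_zeroLocus_eq_radical (K := Ω)]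
    intro p hp
    rw [key]
    refine h p fun i => ?_
    rw [← key]
    exact hp _ (Ideal.mem_map_of_mem _ (Ideal.subset_span ⟨i, rfl⟩))
  obtain ⟨m, hm⟩ := h1
  rw [← map_pow, IsLocalization.algebraMap_mem_map_algebraMap_iff
    ((nonZeroDivisors R).map (MvPolynomial.C (σ := V)))] at hm
  obtain ⟨_, ⟨δ, hδ, rfl⟩, hm⟩ := hm
  refine ⟨δ, nonZeroDivisors.ne_zero hδ, fun k _ φ hφ p hp => ?_⟩
  have h2 : Ideal.span (Set.range F) ≤ RingHom.ker (MvPolynomial.eval₂Hom φ p) :=
    Ideal.span_le.2 (by rintro _ ⟨i, rfl⟩; exact hp i)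
  have h3 := h2 hm
  rw [RingHom.mem_ker, map_mul, map_pow, MvPolynomial.eval₂Hom_C] at h3
  exact eq_zero_of_pow_eq_zero ((mul_eq_zero.1 h3).resolve_left hφ)

end gen

section sys

variable {d : ℕ} {I : Finset ℕ} {A : Type} [CommRing A] [IsDomain A]

theorem generic {n : ℕ} (hnI : n ∈ I) (hn : 0 < n) {x : ℤ → Om A d} {w : ℤ → Fin d → Om A d}
    (hS : Sys (fun j => io A d (lR A I j)) (io A d (eR A d I)) x w) (hw : ∀ i, w (i + n) = w i)
    (hne : ∀ j, ∃ i, w i j ≠ 0) : ∃ s : W d I, Per n s.1 ∧ ∀ j, w 0 j = io A d (zw A s j) := by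
  obtain ⟨V, h1, h2⟩ := exists_val (d := d) (A := A)
  simp only [lR_val, eR_val] at hS
  have hv : ∀ j k, j ≠ k → V.valuation (io A d (PowerSeries.C (lB A j)) -
      io A d (PowerSeries.C (lB A k))) = 1 := fun j k h => by
    obtain ⟨u, hu⟩ := isUnit_iff_exists_inv.1 (lB_unit (A := A) h)
    have e : V.valuation (io A d (PowerSeries.C (lB A j - lB A k))) *
        V.valuation (io A d (PowerSeries.C u)) = 1 := by
      rw [← map_mul, ← map_mul, ← map_mul, hu]; simp
    rw [← map_sub, ← map_sub]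
    exact le_antisymm (h1 _) (e ▸ mul_le_of_le_one_right' (h1 _))
  have hx : ∀ i, x (i + n) = x i := fun i => by rw [hS.x_eq, hS.x_eq i, hw]
  obtain ⟨-, t, ht⟩ := hS.exists_word V.valuation h2 hv hn hw
  have htp : Per n t := ⟨hn, word_per V.valuation hv hx ht,
    hS.surj V.valuation h2 hv hn hw ht hne⟩
  have hT := (sys0 A t).map (io A d)
  have := (hS.unique V.valuation h2 hv hn hT hw
    (fun i => by simp only [shf_per htp]) ht fun i => by
      rw [map_add, sub_add_cancel_left, Valuation.map_neg, map_mul, map_mul]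
      exact (mul_le_of_le_one_right' (h1 _)).trans_lt h2).2
  refine ⟨⟨t, n, hnI, htp⟩, htp, fun j => ?_⟩
  have := congrFun (congrFun this 0) j
  simpa [zw] using this

/-- The equations of the periodic system. -/
noncomputable def eqs {R : Type} [CommRing R] (lam : Fin d → R) (ε : R) (n : ℕ) :
    (ZMod n × Fin d) ⊕ ZMod n → MvPolynomial (ZMod n × Fin d) R :=
  Sum.elim (fun q => MvPolynomial.C ε * MvPolynomial.X (q.1 + 1, q.2) -
      (MvPolynomial.C (lam q.2) - (∑ l, MvPolynomial.C (lam l) * MvPolynomial.X (q.1, l) -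
        MvPolynomial.C ε)) * MvPolynomial.X q)
    fun a => ∑ l, MvPolynomial.X (a, l) - 1

theorem eqs_iff {R k : Type} [CommRing R] [CommRing k] (φ : R →+* k) (lam : Fin d → R) (ε : R)
    (n : ℕ) (p : ZMod n × Fin d → k) :
    (∀ i, MvPolynomial.eval₂Hom φ p (eqs lam ε n i) = 0) ↔
      Sys (fun j => φ (lam j)) (φ ε) (fun i => ∑ l, φ (lam l) * p ((i : ZMod n), l) - φ ε)
        fun i j => p ((i : ZMod n), j) := by
  simp only [Sum.forall, eqs, Sum.elim_inl, Sum.elim_inr, map_sub, map_mul, map_sum, map_one,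
    MvPolynomial.eval₂Hom_C, MvPolynomial.eval₂Hom_X', Prod.forall, sub_eq_zero]
  constructor
  · rintro ⟨h1, h2⟩
    exact ⟨fun i j => by rw [Int.cast_add, Int.cast_one]; exact h1 _ j, fun i => h2 _⟩
  · intro h
    refine ⟨fun a j => ?_, fun a => ?_⟩
    · obtain ⟨i, rfl⟩ := ZMod.intCast_surjective a
      have := h.step i j
      rwa [Int.cast_add, Int.cast_one] at this
    · obtain ⟨i, rfl⟩ := ZMod.intCast_surjective a
      exact h.sum i

theorem exists_point {α : Type} {n : ℕ} {w : ℤ → α} (hw : ∀ i, w (i + n) = w i) :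
    ∃ p : ZMod n → α, ∀ i : ℤ, p (i : ZMod n) = w i := by
  refine ⟨fun a => w (ZMod.cast a), fun i => ?_⟩
  obtain ⟨c, hc⟩ := (ZMod.intCast_eq_intCast_iff_dvd_sub i (ZMod.cast (i : ZMod n)) n).1
    (ZMod.intCast_zmod_cast _).symm
  show w _ = _
  rw [sub_eq_iff_eq_add'.1 hc, mul_comm, zper hw]

theorem level_abs {R Ω S : Type} [CommRing R] [IsDomain R] [Field Ω] [IsAlgClosed Ω] [Finite S]
    (e : R →+* Ω) (he : Function.Injective e) (lam : Fin d → R) (ε : R) (z : S → Fin d → R)
    {n : ℕ} (hn : 0 < n) (H : ∀ (x : ℤ → Ω) (w : ℤ → Fin d → Ω),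
      Sys (fun j => e (lam j)) (e ε) x w → (∀ i, w (i + n) = w i) →
      (∀ j, ∃ i, w i j ≠ 0) → ∃ s, ∀ j, w 0 j = e (z s j)) :
    Gen R fun k _ φ => ∀ (x : ℤ → k) (w : ℤ → Fin d → k),
      Sys (fun j => φ (lam j)) (φ ε) x w → (∀ i, w (i + n) = w i) →
      (∀ j, ∃ i, w i j ≠ 0) → ∃ s, ∀ j, w 0 j = φ (z s j) := by
  haveI : NeZero n := ⟨hn.ne'⟩
  haveI := Fintype.ofFinite S
  have h := Gen.all fun c : (Fin d → ZMod n) × (S → Fin d) =>
    spread e he (eqs lam ε n) ((∏ j, MvPolynomial.X (c.1 j, j)) *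
        ∏ s, (MvPolynomial.X (0, c.2 s) - MvPolynomial.C (z s (c.2 s)))) (fun p hp => by
      simp only [map_mul, map_prod, map_sub, MvPolynomial.eval₂Hom_C, MvPolynomial.eval₂Hom_X']
      by_contra hc
      obtain ⟨s, hs⟩ := H _ _ ((eqs_iff _ _ _ _ _).1 hp)
        (fun i => by simp) fun j => by
          obtain ⟨i, hi⟩ := ZMod.intCast_surjective (c.1 j)
          exact ⟨i, hi ▸ Finset.prod_ne_zero_iff.1 (left_ne_zero_of_mul hc) j (Finset.mem_univ _)⟩
      refine Finset.prod_ne_zero_iff.1 (right_ne_zero_of_mul hc) s (Finset.mem_univ _) ?_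
      have := hs (c.2 s)
      rw [Int.cast_zero] at this
      exact sub_eq_zero.2 this)
  refine h.mono fun k _ φ h x w hS hw hne => ?_
  by_contra hc
  push Not at hc
  choose c hc using hc
  choose i hi using hne
  obtain ⟨p, hp⟩ := exists_point hw
  have h1 := h (fun j => (i j : ZMod n), c) (fun q => p q.1 q.2) ((eqs_iff _ _ _ _ _).2 (by
    simp only [hp]
    convert hS using 2 with i
    exact (hS.x_eq i).symm))
  simp only [map_mul, map_prod, map_sub, MvPolynomial.eval₂Hom_C, MvPolynomial.eval₂Hom_X',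
    hp] at h1
  refine mul_ne_zero (Finset.prod_ne_zero_iff.2 fun j _ => hi j)
    (Finset.prod_ne_zero_iff.2 fun s _ => sub_ne_zero.2 ?_) h1
  rw [← Int.cast_zero, hp]
  exact hc s

theorem level {n : ℕ} (hnI : n ∈ I) (hn : 0 < n) :
    Gen (RR A d I) fun k _ φ => ∀ (x : ℤ → k) (w : ℤ → Fin d → k),
      Sys (fun j => φ (lR A I j)) (φ (eR A d I)) x w → (∀ i, w (i + n) = w i) →
      (∀ j, ∃ i, w i j ≠ 0) → ∃ s : W d I, Per n s.1 ∧ ∀ j, w 0 j = φ (zw A s j) :=
  (level_abs ((io A d).comp (RR A d I).val.toRingHom) (io_inj.comp Subtype.val_injective)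
    (lR A I) (eR A d I) (fun s : {s : W d I // Per n s.1} => zw A s.1) hn fun _ _ hS hw hne =>
      let ⟨s, hs, h⟩ := generic hnI hn hS hw hne
      ⟨⟨s, hs⟩, h⟩).mono fun _ _ _ h x w hS hw hne =>
    let ⟨s, h⟩ := h x w hS hw hne
    ⟨s.1, s.2, h⟩

theorem zx_zero {s s' : W d I} (h : zx A s = zx A s') : s.1 0 = s'.1 0 := by
  by_contra hc
  have h1 := congrArg (fun r : RR A d I => PowerSeries.constantCoeff (r : PowerSeries (BB A d))) h
  simp only [zx_val, map_add, map_mul, PowerSeries.constantCoeff_C, PowerSeries.constantCoeff_X,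
    zero_mul, add_zero] at h1
  exact (lB_unit (A := A) hc).ne_zero (sub_eq_zero.2 h1)

theorem descend {P : ∀ (k : Type) [Field k], (RR A d I →+* k) → Prop} (h : Gen (RR A d I) P) :
    ∃ b : (AA A d)[X], b ≠ 0 ∧ ∀ (k : Type) [Field k] (φ : RR A d I →+* k),
      φ (algebraMap _ (RR A d I) b) ≠ 0 → P k φ := by
  obtain ⟨δ, h0, h1⟩ := h
  haveI := Fintype.ofFinite (GG A d I)
  have hN : ∏ g : GG A d I, g δ ≠ 0 :=
    Finset.prod_ne_zero_iff.2 fun g _ => (map_ne_zero_iff g g.injective).2 h0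
  obtain ⟨a, b, ha, hab⟩ := hfixP (∏ g : GG A d I, g δ) fun g => by
    rw [map_prod]
    exact Fintype.prod_equiv (Equiv.mulLeft g) _ _ fun g' => rfl
  rw [Algebra.smul_def] at hab
  refine ⟨b, fun hb => ?_, fun k _ φ hφ => h1 k φ ?_⟩
  · rw [hb, map_zero] at hab
    refine mul_ne_zero (fun h => ha (alg_inj ?_)) hN hab
    rw [map_zero]
    exact congrArg Subtype.val h
  · rw [← hab, map_mul, map_prod] at hφ
    exact Finset.prod_ne_zero_iff.1 (right_ne_zero_of_mul hφ) 1 (Finset.mem_univ _)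

end sys

end YSpread

theorem complete (d : ℕ) (I : Finset ℕ) (A : Type) [CommRing A] [IsDomain A] :
    ∃ b : (AA A d)[X], b ≠ 0 ∧ ∀ (k : Type) [Field k] (φ : RR A d I →+* k),
      φ (algebraMap _ (RR A d I) b) ≠ 0 →
      (∀ s s' : W d I, φ (zx A s) = φ (zx A s') → s.1 0 = s'.1 0) ∧
      (∀ s s' : W d I, (∀ j, φ (zw A s j) = φ (zw A s' j)) → s = s') ∧
      ∀ n ∈ I, 0 < n → ∀ (x : ℤ → k) (w : ℤ → Fin d → k),
        Sys (fun j => φ (lR A I j)) (φ (eR A d I)) x w → (∀ i, w (i + n) = w i) →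
        (∀ j, ∃ i, w i j ≠ 0) → ∃ s : W d I, Per n s.1 ∧ ∀ j, w 0 j = φ (zw A s j) := by
  have h1 := YSpread.Gen.all fun s : W d I => YSpread.Gen.all fun s' : W d I =>
    YSpread.Gen.eq (zx A s) (zx A s')
  have h2 := YSpread.Gen.all fun s : W d I => YSpread.Gen.all fun s' : W d I =>
    YSpread.Gen.all fun j : Fin d => YSpread.Gen.eq (zw A s j) (zw A s' j)
  have h3 := YSpread.Gen.all fun n : I => YSpread.Gen.imp fun hn : 0 < n.1 =>
    YSpread.level (A := A) (d := d) n.2 hn
  exact YSpread.descend ((h1.and (h2.and h3)).mono fun k _ φ h =>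
    ⟨fun s s' e => YSpread.zx_zero (h.1 s s' e),
      fun s s' e => zw_inj (funext fun j => h.2.1 s s' j (e j)),
      fun n hn => h.2.2 ⟨n, hn⟩⟩)

end Pool.Agent.MP_9b2bac_nt.Z

end
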