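import Mathlib
import Pool.Agent.Mg.F43e117.Gdca467
import Pool.Agent.Mg.F43e117.Gd774f7
import Pool.Agent.Mg.F43e117.Gb01801
import Pool.Agent.Mg.F43e117.G9ab808
import Pool.Agent.MP_9b2bac_nt.PntAp

section

/- The count along one scaling line. -/

set_option autoImplicit false

namespace Pool.Agent.MP_9b2bac_nt.Z

open Finset Polynomial

variable {d : ℕ}

theorem exists_frob {F k : Type} [Field F] [Fintype F] [Field k] [Algebra F k] {P : F[X]}
    {l : Fin d → k} (hl : Function.Injective l)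
    (hP : P.map (algebraMap F k) = ∏ j, (X - C (l j))) :
    ∃ π : Equiv.Perm (Fin d), ∀ j, l j ^ Fintype.card F = l (π j) := by
  have h1 : ∀ x : k, aeval x P = 0 ↔ ∃ j, x = l j := fun x => by
    rw [← eval_map_algebraMap, hP, eval_prod, prod_eq_zero_iff]; simp [sub_eq_zero]
  have h2 : ∀ j, ∃ i, l j ^ Fintype.card F = l i := fun j => (h1 _).1 (by
    have := aeval_algHom_apply (FiniteField.frobeniusAlgHom F k) (l j) P
    rwa [(h1 _).2 ⟨j, rfl⟩, map_zero] at this)
  choose f hf using h2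
  have : Function.Injective f := fun i j h => hl ((FiniteField.frobeniusAlgHom F k).injective
    ((hf i).trans (h ▸ (hf j).symm)))
  exact ⟨Equiv.ofBijective f (Finite.injective_iff_bijective.1 this), hf⟩

theorem one_line (hd : 3 ≤ d) (η : ℝ) (hη : 0 < η) : ∃ N : ℕ, ∀ (A : Type) [CommRing A]
    [IsDomain A], (2 : A) ≠ 0 → ∃ ν : AA A d, ν ≠ 0 ∧ ∃ D q₀ : ℕ, ∀ (F : Type) [Field F]
      [Fintype F], q₀ ≤ Fintype.card F → ∀ (ρ : A →+* F) (P : F[X])
      (l : Fin d → AlgebraicClosure F), P.map (algebraMap F _) = ∏ j, (X - C (l j)) →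
      MvPolynomial.eval₂Hom ((algebraMap F _).comp ρ) l ν ≠ 0 →
      ({ε : F | ε ≠ 0 ∧ ¬ Sm N (P.scaleRoots ε⁻¹)}.ncard : ℝ) ≤ 10 * Fintype.card F * η + D := by
  obtain ⟨I, hI⟩ := grp d hd η hη
  refine ⟨I.sup id, fun A _ _ h2 => ?_⟩
  obtain ⟨ν, hν, D, q₀, h⟩ := chebq (AA A d) (BB A d) (Dl A d) Dl_ne (RR A d I) RR_fg hfixP
    (Equiv.Perm (Fin d)) (th A I) (tauA A) (fun π => by simp [th_alg]) fun π a => by simp [th_alg]
  refine ⟨ν * Dl A d, mul_ne_zero hν Dl_ne, D, max q₀ (max 3 (I.sup id + 1)),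
    fun F _ _ hq ρ P l hP h0 => ?_⟩
  simp only [max_le_iff] at hq
  let k := AlgebraicClosure F
  let ψ : AA A d →+* k := MvPolynomial.eval₂Hom ((algebraMap F _).comp ρ) l
  obtain ⟨p, _, f, hp, hf⟩ := FiniteField.card' F
  haveI := Fact.mk hp
  rw [map_mul, mul_ne_zero_iff] at h0
  have hl : Function.Injective l := fun i j e => by
    by_contra hij
    refine h0.2 (zero_dvd_iff.1 ?_)
    simpa [ψ, e] using map_dvd ψ (dvd_Dl (A := A) hij)
  obtain ⟨π, hπ⟩ := exists_frob hl hP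
  have hψ : ∀ a, ψ a ^ p ^ (f : ℕ) = ψ (tauA A π a) := fun a => by
    have : (FiniteField.frobeniusAlgHom F k : k →+* k).comp ψ = ψ.comp (tauA A π : _ →+* _) :=
      MvPolynomial.ringHom_ext (fun r => by
        simp [ψ, tauA, ← map_pow, FiniteField.pow_card]) fun j => by simp [ψ, tauA_X, hπ]
    rw [← hf]
    exact DFunLike.congr_fun this a
  have hm : P.Monic ∧ P.natDegree = d := by
    rw [← natDegree_map (algebraMap F k), ← (algebraMap F k).injective.monic_map_iff.symm, hP]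
    exact ⟨monic_prod_of_monic _ _ fun j _ => monic_X_sub_C _, by
      rw [natDegree_prod_of_monic _ _ fun j _ => monic_X_sub_C _]; simp⟩
  have h3 := h p f k (hf ▸ hq.1) ψ h0.1 π hψ {g | ∀ w, g • relW I π w ≠ shW d I w}
    (algebraMap F k '' {ε : F | ε ≠ 0 ∧ ¬ Sm (I.sup id) (P.scaleRoots ε⁻¹)})
    (by rintro _ ⟨ε, -, rfl⟩; rw [← hf, ← map_pow, FiniteField.pow_card]) (by
      rintro _ ⟨ε, ⟨hε, hS⟩, rfl⟩ φ hX hC g hg s hs
      refine hS ?_
      have e1 : ∀ w, φ (zx A w) ^ Fintype.card F = φ (zx A (g • relW I π w)) := fun w => by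
        rw [hf, hg, th_zx, act_zx]
      have hc : Commute (MulAction.toPerm g * relW I π) (shW d I) := Equiv.ext fun w => by
        simp [relW_sh, act_sh]
      have e2 : ∀ i : ℤ, φ (zx A ((shW d I ^ i) s)) ^ Fintype.card F =
          φ (zx A ((shW d I ^ (i + 1)) s)) := fun i => by
        have := DFunLike.congr_fun (hc.zpow_right i).eq s
        simp only [Equiv.Perm.mul_apply, MulAction.toPerm_apply] at this
        rw [e1, this, hs, zpow_add_one, Equiv.Perm.mul_apply]
      have hsys := (sysR A s).map φ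
      simp only [eR, lR, hX, hC, ψ, MvPolynomial.eval₂Hom_X'] at hsys
      have hq' : algebraMap F k ε ^ Fintype.card F = algebraMap F k ε := by
        rw [← map_pow, FiniteField.pow_card]
      have := sys_root ((_root_.map_ne_zero _).2 hε) hq' hsys e2 (P := P.scaleRoots ε⁻¹) fun j => by
        rw [← map_inv₀]
        refine scaleRoots_aeval_eq_zero ?_
        rw [← eval_map_algebraMap, hP, eval_prod]
        exact prod_eq_zero (mem_univ j) (by simp)
      obtain ⟨n, hn, hper⟩ := s.2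
      refine sm_of_root (by omega) ((monic_scaleRoots_iff _).2 hm.1)
        (by rw [natDegree_scaleRoots]; omega) hper.1 (le_sup (f := id) hn) (by omega) ?_ this
      have e3 : ∀ m : ℕ, φ (zx A ((shW d I ^ (0 : ℤ)) s)) ^ Fintype.card F ^ m =
          φ (zx A ((shW d I ^ (m : ℤ)) s)) := fun m => by
        induction m with
        | zero => simp
        | succ m ih => rw [pow_succ, pow_mul, ih, e2, Nat.cast_succ]
      have e4 : (shW d I ^ (n : ℤ)) s = (shW d I ^ (0 : ℤ)) s := Subtype.ext (by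
        rw [shW_zpow, shW_zpow, ← shf_per hper 0, zero_add])
      rw [mul_pow, e3, e4, ← map_inv₀, ← map_pow, FiniteField.pow_card_pow])
  have h4 := hI (GG A d I) act_sh (fun u v j huv hj => marker hd h2 huv hj) (relW I π) (relW_sh π)
    (relW_norm π)
  rw [Set.ncard_image_of_injective _ (algebraMap F k).injective, ← hf] at h3
  have h5 : (0 : ℝ) < Nat.card (GG A d I) := by exact_mod_cast Nat.card_pos
  have h6 := (Nat.cast_le (α := ℝ)).2 h3
  push_cast at h6
  refine le_of_mul_le_mul_left (h6.trans ?_) h5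
  have h7 := mul_le_mul_of_nonneg_left h4 (show (0 : ℝ) ≤ 10 * Fintype.card F by positivity)
  linarith

end Pool.Agent.MP_9b2bac_nt.Z

end

section

/- Prime factors of degree `n` correspond to twisted fixed words of least period `n`. -/

set_option autoImplicit false

namespace Pool.Agent.MP_9b2bac_nt.Z

open Finset Polynomial

variable {d : ℕ} {I : Finset ℕ} {A : Type} [CommRing A] [IsDomain A]
  {F k : Type} [Field F] [Fintype F] [Field k] [Algebra F k]

/-- `C_P(1)` has no prime factor of degree in `[M, N]`. -/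
def NoF (M N : ℕ) (P : F[X]) : Prop :=
  ∀ Q : F[X], Irreducible Q → Q ∣ carlitz X P 1 → Q.natDegree < M ∨ N < Q.natDegree

theorem fix_pow (φ : RR A d I →+* k) (g : GG A d I) (π : Equiv.Perm (Fin d)) {q : ℕ}
    (hg : ∀ r, φ r ^ q = φ (g (th A I π r))) {s : W d I} (hs : g • relW I π s = shW d I s) (i : ℤ) :
    φ (zx A ((shW d I ^ i) s)) ^ q = φ (zx A ((shW d I ^ (i + 1)) s)) := by
  have hc : Commute (MulAction.toPerm g * relW I π) (shW d I) := Equiv.ext fun w => by
    simp [relW_sh, act_sh]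
  have := DFunLike.congr_fun (hc.zpow_right i).eq s
  simp only [Equiv.Perm.mul_apply, MulAction.toPerm_apply] at this
  rw [hg, th_zx, act_zx, this, hs, zpow_add_one, Equiv.Perm.mul_apply]

theorem fix_pow' (φ : RR A d I →+* k) (g : GG A d I) (π : Equiv.Perm (Fin d)) {q : ℕ}
    (hg : ∀ r, φ r ^ q = φ (g (th A I π r))) {s : W d I} (hs : g • relW I π s = shW d I s) (i : ℤ)
    (m : ℕ) : φ (zx A ((shW d I ^ i) s)) ^ q ^ m = φ (zx A ((shW d I ^ (i + m)) s)) := by
  induction m with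
  | zero => simp
  | succ m ih => rw [pow_succ, pow_mul, ih, fix_pow φ g π hg hs, Nat.cast_succ, add_assoc]

theorem per_pow {n : ℕ} {s : W d I} (h : Per n s.1) (i : ℤ) :
    (shW d I ^ (i + n)) s = (shW d I ^ i) s :=
  Subtype.ext (by rw [shW_zpow, shW_zpow, shf_per h])

theorem noF_iff [IsAlgClosed k] [Algebra.IsAlgebraic F k] {M N : ℕ}
    (hI : ∀ n, M ≤ n → n ≤ N → n ∈ I) {P : F[X]} (hm : P.Monic) (hi : Irreducible P)
    (φ : RR A d I →+* k) {ε : F} (hε : ε ≠ 0) (he : φ (eR A d I) = algebraMap F k ε)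
    (hl : Function.Injective fun j => φ (lR A I j))
    (hP : P.map (algebraMap F k) = ∏ j, (X - C ((algebraMap F k ε)⁻¹ * φ (lR A I j))))
    (π : Equiv.Perm (Fin d)) (hπ : ∀ j, φ (lR A I j) ^ Fintype.card F = φ (lR A I (π j)))
    (g : GG A d I) (hg : ∀ r, φ r ^ Fintype.card F = φ (g (th A I π r)))
    (c1 : ∀ s s' : W d I, φ (zx A s) = φ (zx A s') → s.1 0 = s'.1 0)
    (c2 : ∀ s s' : W d I, (∀ j, φ (zw A s j) = φ (zw A s' j)) → s = s')
    (c3 : ∀ n ∈ I, 0 < n → ∀ (x : ℤ → k) (w : ℤ → Fin d → k),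
        Sys (fun j => φ (lR A I j)) (φ (eR A d I)) x w → (∀ i, w (i + n) = w i) →
        (∀ j, ∃ i, w i j ≠ 0) → ∃ s : W d I, Per n s.1 ∧ ∀ j, w 0 j = φ (zw A s j)) :
    NoF M N P ↔ ∀ (w : W d I) (n : ℕ), M ≤ n → n ≤ N → Prim n w.1 →
      g • relW I π w ≠ shW d I w := by
  set e := algebraMap F k ε
  have he0 : e ≠ 0 := (_root_.map_ne_zero _).2 hε
  have heq : ∀ m, e ^ Fintype.card F ^ m = e := fun m => by
    rw [← map_pow, FiniteField.pow_card_pow]
  have heq1 : e ^ Fintype.card F = e := by simpa using heq 1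
  have hsys := fun s => (sysR A s).map φ
  have hper : ∀ {s : W d I} {m : ℕ}, g • relW I π s = shW d I s → Per m s.1 →
      (e⁻¹ * φ (zx A s)) ^ Fintype.card F ^ m = e⁻¹ * φ (zx A s) := fun {s m} hs h => by
    have := fix_pow' φ g π hg hs 0 m
    rw [per_pow h] at this
    simp only [zpow_zero, Equiv.Perm.one_apply] at this
    rw [mul_pow, inv_pow, heq, this]
  refine ⟨fun h s n h1 h2 hn hs => ?_, fun h Q hQ hd => ?_⟩
  · have h3 := sys_root (F := F) (he ▸ he0) (he ▸ heq1) (hsys s) (fix_pow φ g π hg hs) (P := P)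
      fun j => by
        rw [← eval_map_algebraMap, hP, eval_prod, he]
        exact prod_eq_zero (mem_univ j) (by simp)
    simp only [zpow_zero, Equiv.Perm.one_apply, he] at h3
    have h4 : IsIntegral F (e⁻¹ * φ (zx A s)) := Algebra.IsIntegral.isIntegral _
    have h5 := pow_card_pow_eq (minpoly.irreducible h4) (minpoly.aeval F _)
    have h6 := Nat.le_of_dvd hn.1.1 ((h5 n).1 (hper hs hn.1))
    have h7 := h _ (minpoly.irreducible h4) (minpoly.dvd F _ (by rw [map_carlitz]; simpa using h3))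
    have h8 := (h5 _).2 dvd_rfl
    generalize hmm : (minpoly F (e⁻¹ * φ (zx A s))).natDegree = m at *
    refine hn.2 m (by omega) ⟨hmm ▸ minpoly.natDegree_pos h4, fun i => ?_, hn.1.2.2⟩
    rw [mul_pow, inv_pow, heq, mul_right_inj' (inv_ne_zero he0)] at h8
    have h9 : ∀ j : ℕ, s.1 (j + m) = s.1 j := fun j => by
      have a1 := fix_pow' φ g π hg hs 0 j
      have a2 := fix_pow' φ g π hg hs 0 (m + j)
      simp only [zpow_zero, Equiv.Perm.one_apply] at a1 a2
      rw [pow_add, pow_mul, h8, a1] at a2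
      have := (c1 _ _ a2).symm
      rw [shW_zpow, shW_zpow] at this
      simpa [add_comm] using this
    have hn' : (0 : ℤ) < n := by exact_mod_cast hn.1.1
    have := h9 (i % n).toNat
    rwa [Int.toNat_of_nonneg (Int.emod_nonneg _ hn'.ne'), hn.1.emod, ← hn.1.emod,
      Int.emod_add_emod, hn.1.emod] at this
  · by_contra hc
    push Not at hc
    obtain ⟨θ, hθ⟩ := IsAlgClosed.exists_aeval_eq_zero k Q (degree_pos_of_irreducible hQ).ne'
    have h5 := pow_card_pow_eq hQ hθ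
    have h1 : carlitz θ P 1 = 0 := by
      obtain ⟨R, hR⟩ := hd
      have := congrArg (aeval θ) hR
      rw [map_carlitz, map_mul, hθ, zero_mul] at this
      simpa using this
    obtain ⟨x, w, s1, s2, s3, s4, s5⟩ := root_sys hm hi (μ := fun j => e⁻¹ * φ (lR A I j))
      ((mul_right_injective₀ (inv_ne_zero he0)).comp hl) hP (π := π)
      (fun j => by simp only [mul_pow, inv_pow, heq1, hπ]) ((h5 _).2 dvd_rfl) h1
    have s6 : Sys (fun j => φ (lR A I j)) (φ (eR A d I)) (fun i => e * x i) w :=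
      ⟨fun i j => by
        have := s1.step i j
        rw [he, ← mul_inv_cancel_left₀ he0 (φ (lR A I j))]
        linear_combination e * this, s1.sum⟩
    obtain ⟨s, t1, t2⟩ := c3 _ (hI _ hc.1 hc.2) hQ.natDegree_pos _ w s6 s3 s4
    have t3 : e * θ = φ (zx A s) := by
      have a1 := s6.x_eq 0
      have a2 := (hsys s).x_eq 0
      simp only [zpow_zero, Equiv.Perm.one_apply, ← t2, s2] at a1 a2
      rw [a1, a2]
    have t4 : g • relW I π s = shW d I s := c2 _ _ fun j => by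
      obtain ⟨j, rfl⟩ := π.surjective j
      have a1 := s6.step 0 (π j)
      have a2 := (hsys s).step 0 (π j)
      simp only [zpow_zero, Equiv.Perm.one_apply, ← t2, s2, t3, zero_add, zpow_one, he] at a1 a2
      rw [← act_zw, ← th_zw, ← hg, ← t2, s5]
      exact mul_left_cancel₀ he0 (a1.trans a2.symm)
    refine h s _ hc.1 hc.2 ⟨t1, fun m hm hm' => ?_⟩ t4
    have := hper t4 hm'
    rw [← t3, inv_mul_cancel_left₀ he0, h5] at this
    exact absurd (Nat.le_of_dvd hm'.1 this) (not_le.2 hm)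

omit [Fintype F] in
theorem irr_scale {P : F[X]} (h : Irreducible P) {u : F} (hu : u ≠ 0) :
    Irreducible (P.scaleRoots u) := by
  have e : ∀ (Q : F[X]) (v : F), IsUnit (Q.scaleRoots v) ↔ IsUnit Q := fun Q v => by
    rw [isUnit_iff_degree_eq_zero, isUnit_iff_degree_eq_zero, degree_scaleRoots]
  refine ⟨fun hu => h.not_isUnit ((e _ _).1 hu), fun a b hab => ?_⟩
  have := congrArg (scaleRoots · u⁻¹) hab
  simp only [← scaleRoots_mul, mul_inv_cancel₀ hu, scaleRoots_one,
    mul_scaleRoots_of_noZeroDivisors] at this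
  simpa only [e] using h.isUnit_or_isUnit this

theorem prod_scale (l : Fin d → k) (u : k) (s : Finset (Fin d)) :
    (∏ j ∈ s, (X - C (l j))).scaleRoots u = ∏ j ∈ s, (X - C (u * l j)) := by
  induction s using Finset.induction_on with
  | empty => simp
  | insert a s ha ih =>
    rw [prod_insert ha, prod_insert ha, mul_scaleRoots_of_noZeroDivisors, ih, X_sub_C_scaleRoots,
      mul_comm u]

theorem two_sided {M N : ℕ} (hI : ∀ n, M ≤ n → n ≤ N → n ∈ I) {lo hi δ : ℝ} (hδ : 0 < δ)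
    (hgrp : ∀ π : Equiv.Perm (Fin d), lo * Nat.card (GG A d I) ≤
      {g : GG A d I | ∀ (w : W d I) (n : ℕ), M ≤ n → n ≤ N → Prim n w.1 →
        g • relW I π w ≠ shW d I w}.ncard ∧
      ({g : GG A d I | ∀ (w : W d I) (n : ℕ), M ≤ n → n ≤ N → Prim n w.1 →
        g • relW I π w ≠ shW d I w}.ncard : ℝ) ≤ hi * Nat.card (GG A d I)) :
    ∃ ν : AA A d, ν ≠ 0 ∧ ∃ D q₀ : ℕ, ∀ (F : Type) [Field F]
      [Fintype F], q₀ ≤ Fintype.card F → ∀ (ρ : A →+* F) (P : F[X]), Irreducible P →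
      ∀ l : Fin d → AlgebraicClosure F, P.map (algebraMap F _) = ∏ j, (X - C (l j)) →
      MvPolynomial.eval₂Hom ((algebraMap F _).comp ρ) l ν ≠ 0 →
      ({ε : F | ε ≠ 0 ∧ NoF M N (P.scaleRoots ε⁻¹)}.ncard : ℝ) ≤
        (1 + δ) * Fintype.card F * hi + D ∧
      ({ε : F | ε ≠ 0 ∧ ¬ NoF M N (P.scaleRoots ε⁻¹)}.ncard : ℝ) ≤
        (1 + δ) * Fintype.card F * (1 - lo) + D := by
  classical
  obtain ⟨ν, hν, D, q₀, h⟩ := chebs (AA A d) (BB A d) (Dl A d) Dl_ne (RR A d I) RR_fg hfixP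
    (Equiv.Perm (Fin d)) (th A I) (tauA A) (fun π => by simp [th_alg]) (fun π a => by simp [th_alg])
    δ hδ
  obtain ⟨b, hb, hc⟩ := complete d I A
  refine ⟨ν * Dl A d * b.leadingCoeff, mul_ne_zero (mul_ne_zero hν Dl_ne) (by simpa using hb),
    D + b.natDegree, q₀, fun F _ _ hq ρ P hir l hP h0 => ?_⟩
  let k := AlgebraicClosure F
  let ψ : AA A d →+* k := MvPolynomial.eval₂Hom ((algebraMap F _).comp ρ) l
  obtain ⟨p, _, f, hp, hf⟩ := FiniteField.card' F
  haveI := Fact.mk hp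
  rw [map_mul, map_mul, mul_ne_zero_iff, mul_ne_zero_iff] at h0
  have hl : Function.Injective l := fun i j e => by
    by_contra hij
    refine h0.1.2 (zero_dvd_iff.1 ?_)
    simpa [ψ, e] using map_dvd ψ (dvd_Dl (A := A) hij)
  obtain ⟨π, hπ⟩ := exists_frob hl hP
  have hψ : ∀ a, ψ a ^ p ^ (f : ℕ) = ψ (tauA A π a) := fun a => by
    have : (FiniteField.frobeniusAlgHom F k : k →+* k).comp ψ = ψ.comp (tauA A π : _ →+* _) :=
      MvPolynomial.ringHom_ext (fun r => by
        simp [ψ, tauA, ← map_pow, FiniteField.pow_card]) fun j => by simp [ψ, tauA_X, hπ]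
    rw [← hf]
    exact DFunLike.congr_fun this a
  have hm : P.Monic := by
    rw [← (algebraMap F k).injective.monic_map_iff.symm, hP]
    exact monic_prod_of_monic _ _ fun j _ => monic_X_sub_C _
  have hbψ : b.map ψ ≠ 0 := fun e => h0.2 (by
    have := congrArg (fun p => p.coeff b.natDegree) e
    simpa [ψ] using this)
  have h5 : (0 : ℝ) < Nat.card (GG A d I) := by exact_mod_cast Nat.card_pos
  have key : ∀ (Q : Prop → Prop) (β : ℝ), ({g : GG A d I | Q (∀ (w : W d I) (n : ℕ), M ≤ n →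
      n ≤ N → Prim n w.1 → g • relW I π w ≠ shW d I w)}.ncard : ℝ) ≤ β * Nat.card (GG A d I) →
      ({ε : F | ε ≠ 0 ∧ Q (NoF M N (P.scaleRoots ε⁻¹))}.ncard : ℝ) ≤
        (1 + δ) * Fintype.card F * β + (D + b.natDegree : ℕ) := fun Q β hβ => by
    have h3 := h p f k (hf ▸ hq) ψ h0.1.1 π hψ {g : GG A d I | Q (∀ (w : W d I) (n : ℕ), M ≤ n →
      n ≤ N → Prim n w.1 → g • relW I π w ≠ shW d I w)}
      (algebraMap F k '' {ε : F | ε ≠ 0 ∧ Q (NoF M N (P.scaleRoots ε⁻¹))} \ (b.map ψ).roots.toFinset)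
      (by rintro _ ⟨⟨ε, -, rfl⟩, -⟩; rw [← hf, ← map_pow, FiniteField.pow_card]) (by
        rintro _ ⟨⟨ε, ⟨hε, hS⟩, rfl⟩, hr⟩ φ hX hC g hg
        have e1 : φ.comp (algebraMap (AA A d)[X] _) = eval₂RingHom ψ (algebraMap F k ε) :=
          Polynomial.ringHom_ext (fun a => by simp [hC]) (by simp [hX])
        obtain ⟨c1, c2, c3⟩ := hc k φ fun e => hr (by
          have := DFunLike.congr_fun e1 b
          rw [RingHom.comp_apply, e] at this
          rw [Finset.mem_coe, Multiset.mem_toFinset, mem_roots hbψ, IsRoot, eval_map]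
          exact this.symm)
        have e2 : ∀ j, φ (lR A I j) = l j := fun j => by simp [lR, hC, ψ]
        rw [Set.mem_setOf_eq, ← noF_iff hI (P := P.scaleRoots ε⁻¹) ((monic_scaleRoots_iff _).2 hm)
          (irr_scale hir (inv_ne_zero hε)) φ hε hX (by simpa only [e2] using hl) ?_ π (by simpa only [e2] using hπ) g
          (hf ▸ hg) c1 c2 c3]
        · exact hS
        · rw [map_scaleRoots _ _ _ (by simp [hm]), hP, prod_scale, map_inv₀]
          simp only [e2])
    have h4 : {ε : F | ε ≠ 0 ∧ Q (NoF M N (P.scaleRoots ε⁻¹))}.ncard ≤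
        (algebraMap F k '' {ε : F | ε ≠ 0 ∧ Q (NoF M N (P.scaleRoots ε⁻¹))} \
          (b.map ψ).roots.toFinset).ncard + b.natDegree := by
      rw [← Set.ncard_image_of_injective _ (algebraMap F k).injective]
      refine (Set.ncard_le_ncard_diff_add_ncard _ _ (b.map ψ).roots.toFinset.finite_toSet).trans
        (Nat.add_le_add_left ?_ _)
      rw [Set.ncard_coe_finset]
      exact (Multiset.toFinset_card_le _).trans ((card_roots' _).trans natDegree_map_le)
    have h6 := (Nat.cast_le (α := ℝ)).2 h4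
    have h7 := mul_le_mul_of_nonneg_left hβ (show (0 : ℝ) ≤ (1 + δ) * (p : ℝ) ^ (f : ℕ) by positivity)
    have h8 := mul_le_mul_of_nonneg_left h6 h5.le
    refine le_of_mul_le_mul_left ?_ h5
    rw [hf]
    push_cast at h8 ⊢
    linarith
  refine ⟨key id hi (hgrp π).2, key Not (1 - lo) ?_⟩
  have := Set.ncard_add_ncard_compl {g : GG A d I | ∀ (w : W d I) (n : ℕ), M ≤ n → n ≤ N →
    Prim n w.1 → g • relW I π w ≠ shW d I w}
  have h9 := (hgrp π).1
  have h10 := congrArg (Nat.cast : ℕ → ℝ) this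
  rw [Nat.cast_add, Set.compl_setOf] at h10
  linarith

end Pool.Agent.MP_9b2bac_nt.Z

end

section

/- The number of prime factors of degree `n` and the number of twisted fixed words. -/

set_option autoImplicit false

namespace Pool.Agent.MP_9b2bac_nt.Z

open Finset Polynomial

variable {d : ℕ} {I : Finset ℕ} {A : Type} [CommRing A] [IsDomain A]
  {F k : Type} [Field F] [Fintype F] [Field k] [Algebra F k]

theorem card_roots [IsAlgClosed k] [Algebra.IsAlgebraic F k] (f : F[X]) (n : ℕ) :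
    {θ : k | aeval θ f = 0 ∧ (minpoly F θ).natDegree = n}.ncard =
      n * {Q : F[X] | Q.Monic ∧ Irreducible Q ∧ Q.natDegree = n ∧ Q ∣ f}.ncard := by
  classical
  have h1 : {Q : F[X] | Q.Monic ∧ Irreducible Q ∧ Q.natDegree = n ∧ Q ∣ f}.Finite :=
    (Pnt.finite_mon n).subset fun Q h => ⟨h.1, h.2.2.1⟩
  have h2 : {θ : k | aeval θ f = 0 ∧ (minpoly F θ).natDegree = n} =
      (h1.toFinset.biUnion fun Q => (Q.rootSet k).toFinset) := by
    ext θ
    have hi : IsIntegral F θ := Algebra.IsIntegral.isIntegral θ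
    simp only [Set.mem_setOf_eq, coe_biUnion, Set.Finite.coe_toFinset, Set.coe_toFinset,
      Set.mem_iUnion, mem_rootSet]
    refine ⟨fun h => ⟨_, ⟨minpoly.monic hi, minpoly.irreducible hi, h.2, minpoly.dvd F θ h.1⟩,
      minpoly.ne_zero hi, minpoly.aeval F θ⟩, ?_⟩
    rintro ⟨Q, ⟨a, b, c, R, rfl⟩, -, e⟩
    exact ⟨by rw [map_mul, e, zero_mul], by rw [← minpoly.eq_of_irreducible_of_monic b e a, c]⟩
  rw [h2, Set.ncard_coe_finset, card_biUnion, Set.ncard_eq_toFinset_card _ h1, mul_comm,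
    ← smul_eq_mul, ← sum_const]
  · refine sum_congr rfl fun Q hQ => ?_
    obtain ⟨a, b, c, -⟩ := h1.mem_toFinset.1 hQ
    rw [Set.toFinset_card, card_rootSet_eq_natDegree (PerfectField.separable_of_irreducible b)
      (IsAlgClosed.splits _), c]
  · intro Q hQ R hR hne
    obtain ⟨a, b, -⟩ := h1.mem_toFinset.1 hQ
    obtain ⟨a', b', -⟩ := h1.mem_toFinset.1 hR
    refine disjoint_left.2 fun θ t1 t2 => hne ?_
    rw [Set.mem_toFinset, mem_rootSet] at t1 t2
    rw [minpoly.eq_of_irreducible_of_monic b t1.2 a, minpoly.eq_of_irreducible_of_monic b' t2.2 a']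

/-- The number of monic prime factors of degree `n` of `C_P(1)`. -/
noncomputable def nf (n : ℕ) (P : F[X]) : ℕ :=
  {Q : F[X] | Q.Monic ∧ Irreducible Q ∧ Q.natDegree = n ∧ Q ∣ carlitz X P 1}.ncard

theorem count_eq [IsAlgClosed k] [Algebra.IsAlgebraic F k] {n : ℕ}
    (hI : n ∈ I) {P : F[X]} (hm : P.Monic) (hi : Irreducible P)
    (φ : RR A d I →+* k) {ε : F} (hε : ε ≠ 0) (he : φ (eR A d I) = algebraMap F k ε)
    (hl : Function.Injective fun j => φ (lR A I j))
    (hP : P.map (algebraMap F k) = ∏ j, (X - C ((algebraMap F k ε)⁻¹ * φ (lR A I j))))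
    (π : Equiv.Perm (Fin d)) (hπ : ∀ j, φ (lR A I j) ^ Fintype.card F = φ (lR A I (π j)))
    (g : GG A d I) (hg : ∀ r, φ r ^ Fintype.card F = φ (g (th A I π r)))
    (c1 : ∀ s s' : W d I, φ (zx A s) = φ (zx A s') → s.1 0 = s'.1 0)
    (c2 : ∀ s s' : W d I, (∀ j, φ (zw A s j) = φ (zw A s' j)) → s = s')
    (c3 : ∀ n ∈ I, 0 < n → ∀ (x : ℤ → k) (w : ℤ → Fin d → k),
        Sys (fun j => φ (lR A I j)) (φ (eR A d I)) x w → (∀ i, w (i + n) = w i) →
        (∀ j, ∃ i, w i j ≠ 0) → ∃ s : W d I, Per n s.1 ∧ ∀ j, w 0 j = φ (zw A s j)) :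
    {w : W d I | Prim n w.1 ∧ g • relW I π w = shW d I w}.ncard = n * nf n P := by
  set e := algebraMap F k ε
  have he0 : e ≠ 0 := (_root_.map_ne_zero _).2 hε
  have heq : ∀ m, e ^ Fintype.card F ^ m = e := fun m => by
    rw [← map_pow, FiniteField.pow_card_pow]
  have heq1 : e ^ Fintype.card F = e := by simpa using heq 1
  have hsys := fun s => (sysR A s).map φ
  have hpow : ∀ {s : W d I} (m : ℕ), g • relW I π s = shW d I s →
      (e⁻¹ * φ (zx A s)) ^ Fintype.card F ^ m = e⁻¹ * φ (zx A ((shW d I ^ (m : ℤ)) s)) :=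
    fun {s} m hs => by
      have := fix_pow' φ g π hg hs 0 m
      simp only [zpow_zero, Equiv.Perm.one_apply, zero_add] at this
      rw [mul_pow, inv_pow, heq, this]
  have hper : ∀ {s : W d I} {m : ℕ}, g • relW I π s = shW d I s → Per m s.1 →
      (e⁻¹ * φ (zx A s)) ^ Fintype.card F ^ m = e⁻¹ * φ (zx A s) := fun {s m} hs h => by
    have := per_pow h 0
    rw [zero_add] at this
    rw [hpow m hs, this, zpow_zero, Equiv.Perm.one_apply]
  have hinj : ∀ {s s' : W d I}, g • relW I π s = shW d I s → g • relW I π s' = shW d I s' →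
      Per n s.1 → Per n s'.1 → e⁻¹ * φ (zx A s) = e⁻¹ * φ (zx A s') → s = s' :=
    fun {s s'} hs hs' h h' h1 => Subtype.ext (funext fun i => by
      have hn' : (0 : ℤ) < n := by exact_mod_cast h.1
      have a1 := hpow (i % n).toNat hs
      rw [h1, hpow _ hs', mul_right_inj' (inv_ne_zero he0)] at a1
      have := c1 _ _ a1
      rw [shW_zpow, shW_zpow, shf_apply_zero, shf_apply_zero,
        Int.toNat_of_nonneg (Int.emod_nonneg _ hn'.ne'), h.emod, h'.emod] at this
      exact this.symm)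
  have hev : ∀ θ : k, aeval θ (carlitz X P (1 : F[X])) = carlitz θ P 1 := fun θ => by
    rw [map_carlitz]; simp
  rw [nf, ← card_roots (k := k)]
  refine Set.ncard_congr (fun s _ => e⁻¹ * φ (zx A s)) (fun s ⟨hn, hs⟩ => ?_)
    (fun s s' h h' => hinj h.2 h'.2 h.1.1 h'.1.1) fun θ ⟨h1, hd⟩ => ?_
  · have h3 := sys_root (F := F) (he ▸ he0) (he ▸ heq1) (hsys s) (fix_pow φ g π hg hs) (P := P)
      fun j => by
        rw [← eval_map_algebraMap, hP, eval_prod, he]
        exact prod_eq_zero (mem_univ j) (by simp)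
    simp only [zpow_zero, Equiv.Perm.one_apply, he] at h3
    have h4 : IsIntegral F (e⁻¹ * φ (zx A s)) := Algebra.IsIntegral.isIntegral _
    have h5 := pow_card_pow_eq (minpoly.irreducible h4) (minpoly.aeval F _)
    have h6 := Nat.le_of_dvd hn.1.1 ((h5 n).1 (hper hs hn.1))
    have h8 := (h5 _).2 dvd_rfl
    refine ⟨(hev _).trans h3, le_antisymm h6 (not_lt.1 fun h7 => hn.2 _ h7
      ⟨minpoly.natDegree_pos h4, fun i => ?_, hn.1.2.2⟩)⟩
    rw [hpow _ hs] at h8
    have hc : Commute (MulAction.toPerm g * relW I π) (shW d I) := Equiv.ext fun w => by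
      simp [relW_sh, act_sh]
    generalize (minpoly F (e⁻¹ * φ (zx A s))).natDegree = m at *
    have a := DFunLike.congr_fun (hc.zpow_right m).eq s
    simp only [Equiv.Perm.mul_apply, MulAction.toPerm_apply] at a
    have := hinj (s := (shW d I ^ (m : ℤ)) s) (by
      rw [a, hs, ← Equiv.Perm.mul_apply, ← Equiv.Perm.mul_apply, ← zpow_add_one, ← zpow_one_add,
        add_comm]) hs ⟨hn.1.1, fun i => by rw [shW_zpow, shf, shf, add_right_comm, hn.1.2.1],
      fun c => by
        obtain ⟨x, hx⟩ := hn.1.2.2 c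
        exact ⟨x - m, by rwa [shW_zpow, shf, sub_add_cancel]⟩⟩ hn.1 h8
    have := congrFun (congrArg Subtype.val this) i
    rwa [shW_zpow] at this
  · have h4 : IsIntegral F θ := Algebra.IsIntegral.isIntegral _
    have h5 := pow_card_pow_eq (minpoly.irreducible h4) (minpoly.aeval F _)
    rw [hd] at h5
    obtain ⟨x, w, s1, s2, s3, s4, s5⟩ := root_sys hm hi (μ := fun j => e⁻¹ * φ (lR A I j))
      ((mul_right_injective₀ (inv_ne_zero he0)).comp hl) hP (π := π)
      (fun j => by simp only [mul_pow, inv_pow, heq1, hπ]) ((h5 _).2 dvd_rfl) ((hev θ).symm.trans h1)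
    have s6 : Sys (fun j => φ (lR A I j)) (φ (eR A d I)) (fun i => e * x i) w :=
      ⟨fun i j => by
        have := s1.step i j
        rw [he, ← mul_inv_cancel_left₀ he0 (φ (lR A I j))]
        linear_combination e * this, s1.sum⟩
    obtain ⟨s, t1, t2⟩ := c3 _ hI (hd ▸ minpoly.natDegree_pos h4) _ w s6 s3 s4
    have t3 : e * θ = φ (zx A s) := by
      have a1 := s6.x_eq 0
      have a2 := (hsys s).x_eq 0
      simp only [zpow_zero, Equiv.Perm.one_apply, ← t2, s2] at a1 a2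
      rw [a1, a2]
    have t4 : g • relW I π s = shW d I s := c2 _ _ fun j => by
      obtain ⟨j, rfl⟩ := π.surjective j
      have a1 := s6.step 0 (π j)
      have a2 := (hsys s).step 0 (π j)
      simp only [zpow_zero, Equiv.Perm.one_apply, ← t2, s2, t3, zero_add, zpow_one, he] at a1 a2
      rw [← act_zw, ← th_zw, ← hg, ← t2, s5]
      exact mul_left_cancel₀ he0 (a1.trans a2.symm)
    refine ⟨s, ⟨⟨t1, fun m hm hm' => ?_⟩, t4⟩, by rw [← t3, inv_mul_cancel_left₀ he0]⟩
    have := hper t4 hm'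
    rw [← t3, inv_mul_cancel_left₀ he0, h5] at this
    exact absurd (Nat.le_of_dvd hm'.1 this) (not_le.2 hm)

/-- Prescribed numbers of twisted fixed words. -/
def EvG (A : Type) [CommRing A] [IsDomain A] (I S : Finset ℕ) (κ : ℕ → ℕ) (π : Equiv.Perm (Fin d))
    (g : GG A d I) : Prop :=
  ∀ n ∈ S, {w : W d I | Prim n w.1 ∧ g • relW I π w = shW d I w}.ncard = n * κ n

theorem two_sidedP {S : Finset ℕ} (hI : S ⊆ I) (hS0 : ∀ n ∈ S, 0 < n) (κ : ℕ → ℕ) {lo hi δ : ℝ} (hδ : 0 < δ)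
    (hgrp : ∀ π : Equiv.Perm (Fin d), lo * Nat.card (GG A d I) ≤
      {g : GG A d I | EvG A I S κ π g}.ncard ∧
      ({g : GG A d I | EvG A I S κ π g}.ncard : ℝ) ≤ hi * Nat.card (GG A d I)) :
    ∃ ν : AA A d, ν ≠ 0 ∧ ∃ D q₀ : ℕ, ∀ (F : Type) [Field F]
      [Fintype F], q₀ ≤ Fintype.card F → ∀ (ρ : A →+* F) (P : F[X]), Irreducible P →
      ∀ l : Fin d → AlgebraicClosure F, P.map (algebraMap F _) = ∏ j, (X - C (l j)) →
      MvPolynomial.eval₂Hom ((algebraMap F _).comp ρ) l ν ≠ 0 →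
      ({ε : F | ε ≠ 0 ∧ (∀ n ∈ S, nf n (P.scaleRoots ε⁻¹) = κ n)}.ncard : ℝ) ≤
        (1 + δ) * Fintype.card F * hi + D ∧
      ({ε : F | ε ≠ 0 ∧ ¬ (∀ n ∈ S, nf n (P.scaleRoots ε⁻¹) = κ n)}.ncard : ℝ) ≤
        (1 + δ) * Fintype.card F * (1 - lo) + D := by
  classical
  obtain ⟨ν, hν, D, q₀, h⟩ := chebs (AA A d) (BB A d) (Dl A d) Dl_ne (RR A d I) RR_fg hfixP
    (Equiv.Perm (Fin d)) (th A I) (tauA A) (fun π => by simp [th_alg]) (fun π a => by simp [th_alg])
    δ hδ
  obtain ⟨b, hb, hc⟩ := complete d I A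
  refine ⟨ν * Dl A d * b.leadingCoeff, mul_ne_zero (mul_ne_zero hν Dl_ne) (by simpa using hb),
    D + b.natDegree, q₀, fun F _ _ hq ρ P hir l hP h0 => ?_⟩
  let k := AlgebraicClosure F
  let ψ : AA A d →+* k := MvPolynomial.eval₂Hom ((algebraMap F _).comp ρ) l
  obtain ⟨p, _, f, hp, hf⟩ := FiniteField.card' F
  haveI := Fact.mk hp
  rw [map_mul, map_mul, mul_ne_zero_iff, mul_ne_zero_iff] at h0
  have hl : Function.Injective l := fun i j e => by
    by_contra hij
    refine h0.1.2 (zero_dvd_iff.1 ?_)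
    simpa [ψ, e] using map_dvd ψ (dvd_Dl (A := A) hij)
  obtain ⟨π, hπ⟩ := exists_frob hl hP
  have hψ : ∀ a, ψ a ^ p ^ (f : ℕ) = ψ (tauA A π a) := fun a => by
    have : (FiniteField.frobeniusAlgHom F k : k →+* k).comp ψ = ψ.comp (tauA A π : _ →+* _) :=
      MvPolynomial.ringHom_ext (fun r => by
        simp [ψ, tauA, ← map_pow, FiniteField.pow_card]) fun j => by simp [ψ, tauA_X, hπ]
    rw [← hf]
    exact DFunLike.congr_fun this a
  have hm : P.Monic := by
    rw [← (algebraMap F k).injective.monic_map_iff.symm, hP]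
    exact monic_prod_of_monic _ _ fun j _ => monic_X_sub_C _
  have hbψ : b.map ψ ≠ 0 := fun e => h0.2 (by
    have := congrArg (fun p => p.coeff b.natDegree) e
    simpa [ψ] using this)
  have h5 : (0 : ℝ) < Nat.card (GG A d I) := by exact_mod_cast Nat.card_pos
  have key : ∀ (Q : Prop → Prop) (β : ℝ), ({g : GG A d I | Q (EvG A I S κ π g)}.ncard : ℝ) ≤ β * Nat.card (GG A d I) →
      ({ε : F | ε ≠ 0 ∧ Q ((∀ n ∈ S, nf n (P.scaleRoots ε⁻¹) = κ n))}.ncard : ℝ) ≤
        (1 + δ) * Fintype.card F * β + (D + b.natDegree : ℕ) := fun Q β hβ => by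
    have h3 := h p f k (hf ▸ hq) ψ h0.1.1 π hψ {g : GG A d I | Q (EvG A I S κ π g)}
      (algebraMap F k '' {ε : F | ε ≠ 0 ∧ Q ((∀ n ∈ S, nf n (P.scaleRoots ε⁻¹) = κ n))} \ (b.map ψ).roots.toFinset)
      (by rintro _ ⟨⟨ε, -, rfl⟩, -⟩; rw [← hf, ← map_pow, FiniteField.pow_card]) (by
        rintro _ ⟨⟨ε, ⟨hε, hS⟩, rfl⟩, hr⟩ φ hX hC g hg
        have e1 : φ.comp (algebraMap (AA A d)[X] _) = eval₂RingHom ψ (algebraMap F k ε) :=
          Polynomial.ringHom_ext (fun a => by simp [hC]) (by simp [hX])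
        obtain ⟨c1, c2, c3⟩ := hc k φ fun e => hr (by
          have := DFunLike.congr_fun e1 b
          rw [RingHom.comp_apply, e] at this
          rw [Finset.mem_coe, Multiset.mem_toFinset, mem_roots hbψ, IsRoot, eval_map]
          exact this.symm)
        have e2 : ∀ j, φ (lR A I j) = l j := fun j => by simp [lR, hC, ψ]
        have e3 : EvG A I S κ π g ↔ ∀ n ∈ S, nf n (P.scaleRoots ε⁻¹) = κ n :=
          forall₂_congr fun n hn => by
            rw [count_eq (hI hn) (P := P.scaleRoots ε⁻¹) ((monic_scaleRoots_iff _).2 hm)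
              (irr_scale hir (inv_ne_zero hε)) φ hε hX (by simpa only [e2] using hl) ?_ π
              (by simpa only [e2] using hπ) g (hf ▸ hg) c1 c2 c3, Nat.mul_right_inj (hS0 n hn).ne']
            rw [map_scaleRoots _ _ _ (by simp [hm]), hP, prod_scale, map_inv₀]
            simp only [e2]
        rw [Set.mem_setOf_eq, e3]
        exact hS)
    have h4 : {ε : F | ε ≠ 0 ∧ Q ((∀ n ∈ S, nf n (P.scaleRoots ε⁻¹) = κ n))}.ncard ≤
        (algebraMap F k '' {ε : F | ε ≠ 0 ∧ Q ((∀ n ∈ S, nf n (P.scaleRoots ε⁻¹) = κ n))} \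
          (b.map ψ).roots.toFinset).ncard + b.natDegree := by
      rw [← Set.ncard_image_of_injective _ (algebraMap F k).injective]
      refine (Set.ncard_le_ncard_diff_add_ncard _ _ (b.map ψ).roots.toFinset.finite_toSet).trans
        (Nat.add_le_add_left ?_ _)
      rw [Set.ncard_coe_finset]
      exact (Multiset.toFinset_card_le _).trans ((card_roots' _).trans natDegree_map_le)
    have h6 := (Nat.cast_le (α := ℝ)).2 h4
    have h7 := mul_le_mul_of_nonneg_left hβ (show (0 : ℝ) ≤ (1 + δ) * (p : ℝ) ^ (f : ℕ) by positivity)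
    have h8 := mul_le_mul_of_nonneg_left h6 h5.le
    refine le_of_mul_le_mul_left ?_ h5
    rw [hf]
    push_cast at h8 ⊢
    linarith
  refine ⟨key id hi (hgrp π).2, key Not (1 - lo) ?_⟩
  have := Set.ncard_add_ncard_compl {g : GG A d I | EvG A I S κ π g}
  have h9 := (hgrp π).1
  have h10 := congrArg (Nat.cast : ℕ → ℝ) this
  rw [Nat.cast_add, Set.compl_setOf] at h10
  linarith

end Pool.Agent.MP_9b2bac_nt.Z

end

section

/- The global count. -/

set_option autoImplicit false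

namespace Pool.Agent.MP_9b2bac_nt.Z

open Finset Polynomial Pnt Classical

variable {d : ℕ}

theorem exists_sym {A : Type} [CommRing A] [IsDomain A] {ν : AA A d} (hν : ν ≠ 0) :
    ∃ μ : MvPolynomial (Fin d) A, μ ≠ 0 ∧
      ν ∣ MvPolynomial.aeval (fun i : Fin d => MvPolynomial.esymm (Fin d) A (i + 1)) μ := by
  have hs : (∏ π : Equiv.Perm (Fin d), MvPolynomial.rename π ν).IsSymmetric := fun e => by
    rw [map_prod]
    refine Fintype.prod_equiv (Equiv.mulLeft e) _ _ fun π => ?_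
    rw [MvPolynomial.rename_rename]; rfl
  obtain ⟨μ, hμ⟩ := MvPolynomial.esymmAlgHom_surjective A (σ := Fin d) (n := d) (by simp) ⟨_, hs⟩
  have h1 := congrArg Subtype.val hμ
  rw [MvPolynomial.esymmAlgHom_apply] at h1
  refine ⟨μ, fun h => ?_, ?_⟩
  · rw [h, map_zero] at h1
    obtain ⟨π, -, h2⟩ := prod_eq_zero_iff.1 h1.symm
    exact hν (MvPolynomial.rename_injective _ π.injective (by rw [h2, map_zero]))
  · rw [h1]
    simpa using dvd_prod_of_mem (fun π : Equiv.Perm (Fin d) => MvPolynomial.rename π ν) (mem_univ 1)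

theorem exists_lin {k : Type} [Field k] [IsAlgClosed k] {P : k[X]} (hP : P.Monic)
    (hd : P.natDegree = d) : ∃ l : Fin d → k, P = ∏ j, (X - C (l j)) := by
  have h1 := (IsAlgClosed.splits P).eq_prod_roots_of_monic hP
  have h2 := (IsAlgClosed.splits P).natDegree_eq_card_roots
  obtain ⟨L, hL⟩ := Quotient.exists_rep P.roots
  rw [← hL] at h1 h2
  obtain rfl : d = L.length := hd.symm.trans h2
  exact ⟨fun j => L[j], h1.trans (Fin.prod_univ_fun_getElem L fun a => X - C a).symm⟩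

/-- The elementary symmetric functions of the roots. -/
noncomputable def esy {F : Type} [Field F] (d : ℕ) (P : F[X]) (i : Fin d) : F :=
  (-1) ^ (i + 1 : ℕ) * P.coeff (d - (i + 1))

theorem esy_inj {F : Type} [Field F] [Fintype F] : Set.InjOn (esy (F := F) d) (mon F d) := by
  intro P hP Q hQ h
  obtain ⟨h1, h2⟩ := mem_mon.1 hP
  obtain ⟨h3, h4⟩ := mem_mon.1 hQ
  ext n
  rcases lt_trichotomy n d with hn | rfl | hn
  · have := congrFun h ⟨d - (n + 1), by omega⟩
    simp only [esy, show d - (d - (n + 1) + 1) = n by omega] at this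
    exact mul_left_cancel₀ (by simp) this
  · rw [← h2, h1.coeff_natDegree, h2, ← h4, h3.coeff_natDegree]
  · rw [coeff_eq_zero_of_natDegree_lt (by omega), coeff_eq_zero_of_natDegree_lt (by omega)]

theorem esy_eval {A F k : Type} [CommRing A] [Field F] [Field k] [Algebra F k] (ρ : A →+* F)
    {P : F[X]} {l : Fin d → k} (hP : P.map (algebraMap F k) = ∏ j, (X - C (l j)))
    (μ : MvPolynomial (Fin d) A) :
    MvPolynomial.eval₂Hom ((algebraMap F k).comp ρ) l
      (MvPolynomial.aeval (fun i : Fin d => MvPolynomial.esymm (Fin d) A (i + 1)) μ) =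
      algebraMap F k (MvPolynomial.eval (esy d P) (μ.map ρ)) := by
  have : (MvPolynomial.eval₂Hom ((algebraMap F k).comp ρ) l).comp
      (MvPolynomial.aeval (fun i : Fin d => MvPolynomial.esymm (Fin d) A (i + 1))).toRingHom =
      ((algebraMap F k).comp (MvPolynomial.eval (esy d P))).comp (MvPolynomial.map ρ) :=
    MvPolynomial.ringHom_ext (fun r => by simp) fun i => by
      letI := ((algebraMap F k).comp ρ).toAlgebra
      have h1 := MvPolynomial.aeval_esymm_eq_multiset_esymm (Fin d) A (i + 1) l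
      have h2 := Multiset.prod_X_sub_C_coeff (univ.val.map l) (k := d - (i + 1)) (by simp)
      rw [Multiset.map_map, Multiset.card_map, card_val, card_fin,
        show d - (d - (i + 1)) = i + 1 by omega, ← h1] at h2
      have h3 := congrArg (fun p => p.coeff (d - (i + 1))) hP
      simp only [coeff_map] at h3
      simp only [RingHom.comp_apply, AlgHom.toRingHom_eq_coe, RingHom.coe_coe, MvPolynomial.aeval_X,
        MvPolynomial.map_X, MvPolynomial.eval_X, esy, map_mul, map_pow, map_neg, map_one, h3]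
      rw [prod_eq_multiset_prod]
      erw [h2]
      rw [← mul_assoc, ← mul_pow]
      simp only [mul_neg, mul_one, neg_neg, one_pow, one_mul]
      rfl
  exact DFunLike.congr_fun this μ

theorem count_base (hd : 3 ≤ d) (η : ℝ) (hη : 0 < η) : ∃ N : ℕ, ∀ (A : Type) [CommRing A]
    [IsDomain A], (2 : A) ≠ 0 → ∃ c : A, c ≠ 0 ∧ ∃ q₀ : ℕ, ∀ (F : Type) [Field F]
      [Fintype F], q₀ ≤ Fintype.card F → ∀ ρ : A →+* F, ρ c ≠ 0 →
      (#{P ∈ mon F d | ¬ Sm N P} : ℝ) ≤ 21 * η * Fintype.card F ^ d := by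
  obtain ⟨N, h⟩ := one_line hd η hη
  refine ⟨N, fun A _ _ h2 => ?_⟩
  obtain ⟨ν, hν, D, q₀, h⟩ := h A h2
  obtain ⟨μ, hμ, hνμ⟩ := exists_sym hν
  obtain ⟨m, hm⟩ := MvPolynomial.ne_zero_iff.1 hμ
  refine ⟨_, hm, max q₀ (max 2 ⌈2 * (D + μ.totalDegree : ℝ) / η⌉₊), fun F _ _ hq ρ hρ => ?_⟩
  simp only [max_le_iff, Nat.ceil_le] at hq
  obtain ⟨hq0, hq1, hq2⟩ := hq
  have hq3 : (2 : ℝ) ≤ Fintype.card F := by exact_mod_cast hq1
  have hμ' : μ.map ρ ≠ 0 := MvPolynomial.ne_zero_iff.2 ⟨m, by rwa [MvPolynomial.coeff_map]⟩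
  have hZ : (#{P ∈ mon F d | MvPolynomial.eval (esy d P) (μ.map ρ) = 0} : ℝ) * Fintype.card F ≤
      μ.totalDegree * Fintype.card F ^ d := by
    have h1 := MvPolynomial.schwartz_zippel_totalDegree hμ' univ
    rw [card_univ, div_le_div_iff₀ (by positivity) (by positivity)] at h1
    have h3 : #{P ∈ mon F d | MvPolynomial.eval (esy d P) (μ.map ρ) = 0} ≤ _ :=
      card_le_card_of_injOn (t := {f ∈ Fintype.piFinset fun _ : Fin d => (univ : Finset F) |
        MvPolynomial.eval f (μ.map ρ) = 0}) (esy d) (fun P hP => by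
          simpa using (mem_filter.1 hP).2) (esy_inj.mono fun P hP => (mem_filter.1 hP).1)
    have h4 : (μ.map ρ).totalDegree ≤ μ.totalDegree :=
      Finset.sup_mono (MvPolynomial.support_map_subset _ _)
    norm_cast at h1 ⊢
    exact (Nat.mul_le_mul_right _ h3).trans (h1.trans (Nat.mul_le_mul_right _ h4))
  have h1 : ∀ P ∈ mon F d, (#{ε ∈ univ.erase (0 : F) | ¬ Sm N (P.scaleRoots ε⁻¹)} : ℝ) ≤
      10 * Fintype.card F * η + D +
        if MvPolynomial.eval (esy d P) (μ.map ρ) = 0 then (Fintype.card F : ℝ) else 0 := by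
    intro P hP
    split_ifs with h0
    · have : (#{ε ∈ univ.erase (0 : F) | ¬ Sm N (P.scaleRoots ε⁻¹)} : ℝ) ≤ Fintype.card F := by
        exact_mod_cast card_le_univ _
      exact this.trans (le_add_of_nonneg_left (by positivity))
    · obtain ⟨l, hl⟩ := exists_lin ((mem_mon.1 hP).1.map (algebraMap F (AlgebraicClosure F)))
        ((natDegree_map _).trans (mem_mon.1 hP).2)
      have := h F hq0 ρ P l hl fun h3 => h0 (by
        have := map_dvd (MvPolynomial.eval₂Hom ((algebraMap F _).comp ρ) l) hνμ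
        rwa [h3, zero_dvd_iff, esy_eval ρ hl, map_eq_zero] at this)
      rw [add_zero, ← Set.ncard_coe_finset]
      convert this
      ext ε; simp
  have h3 : ∀ ε ∈ univ.erase (0 : F), #{P ∈ mon F d | ¬ Sm N P} ≤
      #{P ∈ mon F d | ¬ Sm N (P.scaleRoots ε⁻¹)} := fun ε hε => by
    have e : ∀ P : F[X], (P.scaleRoots ε).scaleRoots ε⁻¹ = P := fun P => by
      rw [← scaleRoots_mul, mul_inv_cancel₀ (ne_of_mem_erase hε), scaleRoots_one]
    refine card_le_card_of_injOn (fun P => P.scaleRoots ε) (fun P hP => ?_)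
      fun P _ Q _ h => by rw [← e P, ← e Q]; exact congrArg (scaleRoots · ε⁻¹) h
    simpa [mem_mon, monic_scaleRoots_iff, e] using hP
  have h4 := card_nsmul_le_sum _ _ _ h3
  simp only [card_filter _ (mon F d)] at h4
  rw [sum_comm] at h4
  simp only [← card_filter] at h4
  rw [card_erase_of_mem (mem_univ _), card_univ, smul_eq_mul] at h4
  have h5 := (Nat.cast_le (α := ℝ)).2 h4
  rw [Nat.cast_mul, Nat.cast_sub (by omega), Nat.cast_sum] at h5
  have h6 := h5.trans (sum_le_sum h1)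
  rw [sum_add_distrib, sum_const, card_mon, ← sum_filter, sum_const, nsmul_eq_mul, nsmul_eq_mul,
    Nat.cast_pow, Nat.cast_one] at h6
  rw [div_le_iff₀ hη] at hq2
  have h7 : (0 : ℝ) < Fintype.card F ^ d := by positivity
  have h8 := mul_le_mul_of_nonneg_left hq2 h7.le
  have h9 := mul_le_mul_of_nonneg_left hq3 (Nat.cast_nonneg (α := ℝ) #{P ∈ mon F d | ¬ Sm N P})
  refine le_of_mul_le_mul_left ?_ (show (0 : ℝ) < Fintype.card F by positivity)
  nlinarith

theorem irr_lower {F : Type} [Field F] [Fintype F] (hd : 2 ≤ d) (hq : 2 * d ≤ Fintype.card F) :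
    (Fintype.card F : ℝ) ^ d ≤ 2 * d * #(irr F d) := by
  have h1 := norm_cS_sub_le (1 : F[X] →* ℂ) (by simp) (d := d) (by omega)
  rw [cS_one (by omega)] at h1
  simp only [MonoidHom.one_apply, sum_const, nsmul_eq_mul, mul_one] at h1
  have h2 : |(Fintype.card F : ℝ) ^ d - d * #(irr F d)| ≤ d * (Fintype.card F : ℝ) ^ (d / 2) := by
    rw [← Real.norm_eq_abs, ← Complex.norm_real]; push_cast; exact h1
  have h3 : (2 * d : ℝ) ≤ Fintype.card F := by exact_mod_cast hq
  have h4 : (1 : ℝ) ≤ Fintype.card F := by exact_mod_cast Fintype.card_pos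
  have h5 := pow_le_pow_right₀ h4 (show d / 2 + 1 ≤ d by omega)
  have h6 := mul_le_mul_of_nonneg_left h3 (show (0 : ℝ) ≤ Fintype.card F ^ (d / 2) by positivity)
  rw [pow_succ] at h5
  linarith [(abs_le.1 h2).2]

theorem density (hd : 3 ≤ d) (η : ℝ) (hη : 0 < η) : ∃ N q₀ : ℕ, ∀ (F : Type) [Field F]
    [Fintype F], Odd (Fintype.card F) → q₀ ≤ Fintype.card F →
      (#{P ∈ mon F d | ¬ Sm N P} : ℝ) ≤ η * #(irr F d) := by
  have hd0 : (0 : ℝ) < d := by exact_mod_cast (by omega : 0 < d)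
  obtain ⟨N, h⟩ := count_base hd (η / (42 * d)) (by positivity)
  obtain ⟨c, hc, q₀, h0⟩ := h ℤ two_ne_zero
  have h1 : ∀ p : ℕ, ∃ q₁ : ℕ, p.Prime → p ≠ 2 → ∀ (F : Type) [Field F] [Fintype F] [CharP F p],
      q₁ ≤ Fintype.card F →
      (#{P ∈ mon F d | ¬ Sm N P} : ℝ) ≤ 21 * (η / (42 * d)) * Fintype.card F ^ d := fun p => by
    by_cases hp : p.Prime ∧ p ≠ 2
    · haveI := Fact.mk hp.1
      obtain ⟨c, hc, q₁, h1⟩ := h (ZMod p) (Ring.two_ne_zero (by rw [ZMod.ringChar_zmod_n]; exact hp.2))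
      exact ⟨q₁, fun _ _ F _ _ _ hq => h1 F hq (ZMod.castHom (dvd_refl p) F)
        ((_root_.map_ne_zero _).2 hc)⟩
    · exact ⟨0, fun a b => absurd ⟨a, b⟩ hp⟩
  choose Q hQ using h1
  refine ⟨N, max (max q₀ (2 * d)) ((range (c.natAbs + 1)).sup Q), fun F _ _ ho hq => ?_⟩
  simp only [max_le_iff] at hq
  have h2 : (#{P ∈ mon F d | ¬ Sm N P} : ℝ) ≤ 21 * (η / (42 * d)) * Fintype.card F ^ d := by
    by_cases hcF : (c : F) = 0
    · obtain ⟨p, _, f, hp, hf⟩ := FiniteField.card' F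
      have h3 : p ≤ c.natAbs := Nat.le_of_dvd (Int.natAbs_pos.2 hc)
        (Int.natCast_dvd.1 ((CharP.intCast_eq_zero_iff F p c).1 hcF))
      refine hQ p hp ?_ F ((le_sup (f := Q) (mem_range.2 (by omega))).trans hq.2)
      rintro rfl
      rw [hf, Nat.odd_pow_iff f.ne_zero] at ho
      exact absurd ho (by decide)
    · exact h0 F hq.1.1 (Int.castRingHom F) hcF
  refine h2.trans ((mul_le_mul_of_nonneg_left (irr_lower (by omega) hq.1.2)
    (by positivity)).trans_eq ?_)
  field_simp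
  ring

end Pool.Agent.MP_9b2bac_nt.Z

end
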