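import Pool.Agent.MP_51ecca_nt.LogDer
import Pool.Agent.MP_51ecca_nt.Defs
import Mathlib

section

set_option linter.unusedSectionVars false

namespace Pool.Agent.MP_51ecca_nt

open PowerSeries IsDedekindDomain

section

variable (k : Type*) [Field k] {R : Type*} [CommRing R] [Algebra k R]

/-- Degree of an ideal: the codimension over the constant field. -/
noncomputable def ideg (I : Ideal R) : ℕ := Module.finrank k (R ⧸ I)

lemma ideg_top : ideg k (⊤ : Ideal R) = 0 := by
  unfold ideg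
  exact Module.finrank_zero_of_subsingleton

variable [Finite k] [Ring.HasFiniteQuotients R]

lemma finiteDimensional_quot {I : Ideal R} (hI : I ≠ ⊥) : FiniteDimensional k (R ⧸ I) := by
  have := Ring.HasFiniteQuotients.finiteQuotient hI
  exact Module.Finite.of_finite

lemma card_quot_eq {I : Ideal R} (hI : I ≠ ⊥) : Nat.card (R ⧸ I) = Nat.card k ^ ideg k I := by
  have := finiteDimensional_quot k hI
  exact Module.natCard_eq_pow_finrank

omit [Finite k] [Ring.HasFiniteQuotients R] in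
lemma cardQuot_mul' [IsDedekindDomain R] [Infinite R] (I J : Ideal R) :
    Submodule.cardQuot (I * J) = Submodule.cardQuot I * Submodule.cardQuot J := by
  exact UniqueFactorizationMonoid.multiplicative_of_coprime Submodule.cardQuot I J
      (Submodule.cardQuot_bot _ _)
      (fun {I J} hI => by simp [Ideal.isUnit_iff.mp hI, Ideal.mul_top])
      (fun {I} i hI =>
        have : Ideal.IsPrime I := Ideal.isPrime_of_prime hI
        cardQuot_pow_of_prime hI.ne_zero)
      fun {I J} hIJ => cardQuot_mul_of_coprime <| Ideal.isCoprime_iff_sup_eq.mpr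
        (Ideal.isUnit_iff.mp
          (hIJ (Ideal.dvd_iff_le.mpr le_sup_left) (Ideal.dvd_iff_le.mpr le_sup_right)))

omit [Ring.HasFiniteQuotients R] in
lemma one_lt_card : 1 < Nat.card k := Finite.one_lt_card

lemma ideg_eq_zero_iff {I : Ideal R} (hI : I ≠ ⊥) : ideg k I = 0 ↔ I = ⊤ := by
  have := finiteDimensional_quot k hI
  unfold ideg
  rw [Module.finrank_zero_iff, Ideal.Quotient.subsingleton_iff]

lemma finite_ideg_le (d : ℕ) : {I : Ideal R | I ≠ ⊥ ∧ ideg k I ≤ d}.Finite := by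
  refine (Ring.HasFiniteQuotients.finite_cardQuot_le (R := R) (Nat.card k ^ d)).subset ?_
  rintro I ⟨hI, hd⟩
  rw [Set.mem_ofPred_eq, Submodule.cardQuot_apply, card_quot_eq k hI]
  exact Nat.pow_le_pow_right (one_lt_card k).le hd

variable (R) in
/-- The nonzero ideals of degree `d`. -/
noncomputable def idealsOfDeg (d : ℕ) : Finset (Ideal R) :=
  ((finite_ideg_le k (R := R) d).subset
    (show {I : Ideal R | I ≠ ⊥ ∧ ideg k I = d} ⊆ _ from fun _ h => ⟨h.1, h.2.le⟩)).toFinset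

lemma mem_idealsOfDeg {d : ℕ} {I : Ideal R} : I ∈ idealsOfDeg k R d ↔ I ≠ ⊥ ∧ ideg k I = d := by
  simp [idealsOfDeg]

/-- The generating series of a weight on ideals. -/
noncomputable def lser {Ω : Type*} [CommRing Ω] (ψ : Ideal R → Ω) : Ω⟦X⟧ :=
  PowerSeries.mk fun d => ∑ I ∈ idealsOfDeg k R d, ψ I

lemma coeff_lser {Ω : Type*} [CommRing Ω] (ψ : Ideal R → Ω) (d : ℕ) :
    coeff d (lser k ψ) = ∑ I ∈ idealsOfDeg k R d, ψ I := by
  simp [lser]

lemma map_lser {Ω Ω' : Type*} [CommRing Ω] [CommRing Ω'] (φ : Ω →+* Ω') (ψ : Ideal R → Ω) :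
    PowerSeries.map φ (lser k ψ) = lser k fun I => φ (ψ I) := by
  ext d
  simp [coeff_lser]

variable [IsDedekindDomain R] [Infinite R]

lemma ideg_mul {I J : Ideal R} (hI : I ≠ ⊥) (hJ : J ≠ ⊥) :
    ideg k (I * J) = ideg k I + ideg k J := by
  have hIJ : I * J ≠ ⊥ := mul_ne_zero hI hJ
  have := cardQuot_mul' I J
  rw [Submodule.cardQuot_apply, Submodule.cardQuot_apply, Submodule.cardQuot_apply,
    card_quot_eq k hI, card_quot_eq k hJ, card_quot_eq k hIJ, ← pow_add] at this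
  exact Nat.pow_right_injective (one_lt_card k) this

lemma ideg_pow {I : Ideal R} (hI : I ≠ ⊥) (m : ℕ) : ideg k (I ^ m) = m * ideg k I := by
  induction m with
  | zero => simp [ideg_top]
  | succ m ih => rw [pow_succ, ideg_mul k (pow_ne_zero m hI) hI, ih]; ring

omit [Infinite R] in
/-- Degree of a nonzero prime. -/
noncomputable def pdeg (v : HeightOneSpectrum R) : ℕ := ideg k v.asIdeal

omit [Infinite R] in
lemma pdeg_pos (v : HeightOneSpectrum R) : 0 < pdeg k v := by
  rw [Nat.pos_iff_ne_zero, pdeg, Ne, ideg_eq_zero_iff k v.ne_bot]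
  exact v.isPrime.ne_top

omit [Infinite R] in
lemma finite_pdeg_le (d : ℕ) : {v : HeightOneSpectrum R | pdeg k v ≤ d}.Finite := by
  refine (finite_ideg_le k (R := R) d).of_injOn (f := fun v => v.asIdeal) ?_ ?_
  · intro v hv
    exact ⟨v.ne_bot, hv⟩
  · intro v _ w _ h
    exact HeightOneSpectrum.ext h

end

section Euler

variable {R : Type*} [CommRing R]

/-- Multiplicativity of a weight on nonzero ideals. -/
structure IsMult {M : Type*} [Monoid M] (ψ : Ideal R → M) : Prop where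
  top : ψ ⊤ = 1
  mul : ∀ I J : Ideal R, I ≠ ⊥ → J ≠ ⊥ → ψ (I * J) = ψ I * ψ J

lemma IsMult.comp {M N : Type*} [Monoid M] [Monoid N] {ψ : Ideal R → M} (h : IsMult ψ)
    (χ : M →* N) : IsMult fun I => χ (ψ I) :=
  ⟨by simp [h.top], fun I J hI hJ => by simp [h.mul I J hI hJ]⟩

lemma IsMult.one {M : Type*} [Monoid M] : IsMult fun _ : Ideal R => (1 : M) :=
  ⟨rfl, fun _ _ _ _ => (mul_one _).symm⟩

lemma IsMult.pow [IsDomain R] {M : Type*} [Monoid M] {ψ : Ideal R → M} (h : IsMult ψ)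
    {I : Ideal R} (hI : I ≠ ⊥) (m : ℕ) : ψ (I ^ m) = ψ I ^ m := by
  induction m with
  | zero => simp [h.top]
  | succ m ih => rw [pow_succ, h.mul _ _ (pow_ne_zero m hI) hI, ih, pow_succ]

variable (k : Type*) [Field k] [Algebra k R] [Finite k] [Ring.HasFiniteQuotients R]
  [IsDedekindDomain R] [Infinite R] {Ω : Type*} [CommRing Ω]

open Classical in
lemma lser_mul_prod {ψ : Ideal R → Ω} (hψ : IsMult ψ) (T : Finset (HeightOneSpectrum R)) :
    lser k ψ * ∏ v ∈ T, (1 - C (ψ v.asIdeal) * X ^ pdeg k v) =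
      PowerSeries.mk fun d =>
        ∑ I ∈ (idealsOfDeg k R d).filter (fun I => ∀ v ∈ T, ¬ v.asIdeal ∣ I), ψ I := by
  induction T using Finset.induction_on with
  | empty => ext d; simp [coeff_lser]
  | insert v T hv ih =>
    rw [Finset.prod_insert hv, mul_left_comm, ih]
    ext d
    rw [sub_mul, one_mul, map_sub, mul_assoc, coeff_C_mul, coeff_X_pow_mul', coeff_mk, coeff_mk,
      coeff_mk, sub_eq_iff_eq_add,
      ← Finset.sum_filter_add_sum_filter_not _ (fun I => ¬ v.asIdeal ∣ I), Finset.filter_filter,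
      Finset.filter_filter]
    congr 1
    · refine Finset.sum_congr ?_ fun _ _ => rfl
      ext I
      simp only [Finset.mem_filter, Finset.forall_mem_insert]
      tauto
    · have hcop : ∀ w ∈ T, ∀ J : Ideal R, w.asIdeal ∣ v.asIdeal * J ↔ w.asIdeal ∣ J := by
        intro w hw J
        refine ⟨fun h => (w.prime.dvd_or_dvd h).resolve_left fun h' => hv ?_,
          fun h => h.mul_left _⟩
        have : w = v := by
          apply HeightOneSpectrum.ext
          exact (v.isMaximal.eq_of_le w.isPrime.ne_top (Ideal.dvd_iff_le.1 h')).symm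
        exact this ▸ hw
      split_ifs with hle
      · rw [Finset.mul_sum]
        symm
        refine Finset.sum_bij (fun J _ => v.asIdeal * J) ?_ ?_ ?_ ?_
        · intro J hJ
          rw [Finset.mem_filter, mem_idealsOfDeg] at hJ ⊢
          refine ⟨⟨mul_ne_zero v.ne_bot hJ.1.1, ?_⟩, fun w hw => ?_, ?_⟩
          · rw [ideg_mul k v.ne_bot hJ.1.1, hJ.1.2]
            unfold pdeg at hle ⊢
            omega
          · rw [hcop w hw]; exact hJ.2 w hw
          · simp
        · intro J _ J' _ h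
          exact mul_left_cancel₀ v.ne_bot h
        · intro I hI
          rw [Finset.mem_filter, mem_idealsOfDeg, not_not] at hI
          obtain ⟨⟨hI0, hId⟩, hIT, J, rfl⟩ := hI
          have hJ : J ≠ ⊥ := right_ne_zero_of_mul hI0
          refine ⟨J, ?_, rfl⟩
          rw [Finset.mem_filter, mem_idealsOfDeg]
          refine ⟨⟨hJ, ?_⟩, fun w hw => ?_⟩
          · rw [ideg_mul k v.ne_bot hJ] at hId
            unfold pdeg
            omega
          · rw [← hcop w hw]; exact hIT w hw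
        · intro J hJ
          rw [Finset.mem_filter, mem_idealsOfDeg] at hJ
          rw [hψ.mul _ _ v.ne_bot hJ.1.1]
      · rw [mul_zero]
        refine Finset.sum_eq_zero fun I hI => ?_
        exfalso
        rw [Finset.mem_filter, mem_idealsOfDeg, not_not] at hI
        obtain ⟨⟨hI0, hId⟩, -, J, rfl⟩ := hI
        have hJ : J ≠ ⊥ := right_ne_zero_of_mul hI0
        rw [ideg_mul k v.ne_bot hJ] at hId
        unfold pdeg at hle
        omega

theorem isEuler_lser {ψ : Ideal R → Ω} (hψ : IsMult ψ) :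
    IsEuler (pdeg k) (fun v : HeightOneSpectrum R => ψ v.asIdeal) (lser k ψ) := by
  classical
  intro d T hT
  rw [lser_mul_prod k hψ, X_pow_dvd_iff]
  intro m hm
  rw [map_sub, coeff_mk, coeff_one, sub_eq_zero]
  have key : ∀ I ∈ (idealsOfDeg k R m).filter (fun I => ∀ v ∈ T, ¬ v.asIdeal ∣ I), I = ⊤ := by
    intro I hI
    rw [Finset.mem_filter, mem_idealsOfDeg] at hI
    by_contra hne
    obtain ⟨P, hP, hIP⟩ := Ideal.exists_le_maximal I hne
    have hP0 : P ≠ ⊥ := fun h => hI.1.1 (le_bot_iff.1 (h ▸ hIP))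
    let v : HeightOneSpectrum R := ⟨P, hP.isPrime, hP0⟩
    obtain ⟨J, hJ⟩ : v.asIdeal ∣ I := Ideal.dvd_iff_le.2 hIP
    have hJ0 : J ≠ ⊥ := by
      rintro rfl
      exact hI.1.1 (by simpa using hJ)
    have := hI.1.2
    rw [hJ, ideg_mul k v.ne_bot hJ0] at this
    exact hI.2 v (hT v (by unfold pdeg; omega)) ⟨J, hJ⟩
  split_ifs with hm0
  · subst hm0
    rw [Finset.sum_eq_single_of_mem ⊤ _ fun I hI hne => absurd (key I hI) hne, hψ.top]
    rw [Finset.mem_filter, mem_idealsOfDeg]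
    refine ⟨⟨top_ne_bot, ideg_top k⟩, fun v _ h => v.isPrime.ne_top ?_⟩
    exact top_le_iff.1 (Ideal.dvd_iff_le.1 h)
  · refine Finset.sum_eq_zero fun I hI => ?_
    exfalso
    have := key I hI
    subst this
    rw [Finset.mem_filter, mem_idealsOfDeg, ideg_top] at hI
    exact hm0 hI.1.2.symm

theorem ld_lser {ψ : Ideal R → Ω} (hψ : IsMult ψ) :
    LD (lser k ψ) (psum (pdeg k) fun v : HeightOneSpectrum R => ψ v.asIdeal) :=
  (isEuler_lser k hψ).ld (pdeg_pos k) (finite_pdeg_le k)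

theorem constantCoeff_lser {ψ : Ideal R → Ω} (hψ : IsMult ψ) :
    constantCoeff (lser k ψ) = 1 :=
  (isEuler_lser k hψ).constantCoeff (pdeg_pos k)

end Euler

end Pool.Agent.MP_51ecca_nt

end

section

set_option linter.unusedSectionVars false

namespace Pool.Agent.MP_51ecca_nt

open IsDedekindDomain PowerSeries
open scoped PowerSeries.WithPiTopology

section Plc

variable (k : Type) {R : Type*} (K : Type) [Field k] [CommRing R] [IsDedekindDomain R] [Field K]
  [Algebra R K] [IsFractionRing R K] [Algebra k R] [Algebra k K] [IsScalarTower k R K]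

/-- The place attached to a nonzero prime. -/
noncomputable def plc (v : HeightOneSpectrum R) : Place k K :=
  ⟨v.valuationSubringAtPrime K, by
    rw [v.valuationSubringAtPrime_eq_valuationSubring]
    simp only [ne_eq, Valuation.valuationSubring_eq_top_iff, not_not]
    infer_instance, fun c => by
    rw [v.valuationSubringAtPrime_eq_valuationSubring, IsScalarTower.algebraMap_apply k R K]
    exact v.valuation_le_one (algebraMap k R c)⟩

variable {k K}

lemma mem_plc_iff {v : HeightOneSpectrum R} {x : K} : x ∈ (plc k K v).1 ↔ v.valuation K x ≤ 1 := by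
  change x ∈ v.valuationSubringAtPrime K ↔ _
  rw [v.valuationSubringAtPrime_eq_valuationSubring]
  rfl

lemma algebraMap_mem_plc (v : HeightOneSpectrum R) (r : R) : algebraMap R K r ∈ (plc k K v).1 :=
  mem_plc_iff.2 (v.valuation_le_one r)

lemma inv_mem_plc_iff {v : HeightOneSpectrum R} {r : R} (hr : r ≠ 0) :
    (algebraMap R K r)⁻¹ ∈ (plc k K v).1 ↔ r ∉ v.asIdeal := by
  have h0 : 0 < v.valuation K (algebraMap R K r) := by
    rw [Valuation.pos_iff]
    simpa using hr
  rw [mem_plc_iff, map_inv₀, inv_le_one₀ h0, ← not_lt]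
  exact (v.valuation_lt_one_iff_mem r).not

lemma plc_injective : Function.Injective (plc k K (R := R)) := by
  intro v w h
  ext r
  by_cases hr : r = 0
  · simp [hr]
  · rw [← not_iff_not, ← inv_mem_plc_iff (k := k) (K := K) hr, h, inv_mem_plc_iff hr]

lemma exists_plc_eq (O : Place k K) (h : ∀ r : R, algebraMap R K r ∈ O.1) :
    ∃ v : HeightOneSpectrum R, plc k K v = O := by
  let f : R →+* O.1 := (algebraMap R K).codRestrict O.1 h
  let P : Ideal R := (IsLocalRing.maximalIdeal O.1).comap f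
  have hP : ∀ s : R, s ∉ P → (algebraMap R K s)⁻¹ ∈ O.1 := by
    intro s hs
    by_contra hs'
    apply hs
    change f s ∈ IsLocalRing.maximalIdeal O.1
    rw [← ValuationSubring.coe_mem_nonunits_iff, ValuationSubring.mem_nonunits_iff_or]
    exact Or.inr hs'
  have hP0 : P ≠ ⊥ := by
    intro h0
    apply O.2.1
    rw [eq_top_iff]
    intro x _
    obtain ⟨a, b, hb, rfl⟩ := IsFractionRing.div_surjective (A := R) x
    rw [div_eq_mul_inv]
    exact mul_mem (h a) (hP b (by rw [h0]; exact nonZeroDivisors.ne_zero hb))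
  refine ⟨⟨P, inferInstance, hP0⟩, Subtype.ext ?_⟩
  refine ValuationSubring.eq_of_le_of_ne_top
    ((⟨P, inferInstance, hP0⟩ : HeightOneSpectrum R).valuationSubringAtPrime K) ?_ O.2.1
  rintro x ⟨a, s, hs, rfl⟩
  exact mul_mem (h a) (hP s hs)

lemma degree_plc [Finite k] [Ring.HasFiniteQuotients R] (v : HeightOneSpectrum R) :
    (plc k K v).degree = pdeg k v := by
  have := v.isMaximal
  have e : Nat.card (IsLocalRing.ResidueField (plc k K v).1) = Nat.card (R ⧸ v.asIdeal) :=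
    (Nat.card_congr (IsLocalization.AtPrime.equivQuotMaximalIdeal v.asIdeal
      (v.valuationSubringAtPrime K)).toEquiv).symm
  rw [Place.degree, e, card_quot_eq k v.ne_bot, Nat.log_pow (one_lt_card k)]
  rfl

open scoped Pointwise in
lemma inertia_eq_bot {K₀ G : Type*} [Field K₀] [Algebra K₀ K] [Group G] [MulSemiringAction G R]
    [MulSemiringAction G K] [SMulCommClass G K₀ K] [FaithfulSMul G K]
    (hact : ∀ (g : G) (r : R), algebraMap R K (g • r) = g • algebraMap R K r)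
    (w : HeightOneSpectrum R) (h : (plc k K w).1.inertiaSubgroup K₀ = ⊥) :
    w.asIdeal.inertia G = ⊥ := by
  have key : ∀ g ∈ w.asIdeal.inertia G, ∀ x : K, w.valuation K x ≤ 1 →
      w.valuation K (g • x - x) < 1 := by
    intro g hg x hx
    obtain ⟨n, d, hnd⟩ := w.exists_primeCompl_mul_eq_of_integer x hx
    have hd : (d : R) ∉ w.asIdeal := d.2
    have hd' : g • (d : R) ∉ w.asIdeal := fun h' => hd (by simpa using sub_mem h' (hg d))
    have h1 : (g • x - x) * algebraMap R K d * algebraMap R K (g • (d : R)) =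
        algebraMap R K ((g • n - n) * d - n * (g • (d : R) - d)) := by
      have h2 : g • x * algebraMap R K (g • (d : R)) = algebraMap R K (g • n) := by
        rw [hact, hact, ← smul_mul', hnd]
      simp only [map_sub, map_mul]
      rw [← hnd, ← h2]
      ring
    have h3 := congrArg (w.valuation K) h1
    rw [map_mul, map_mul, (w.valuation_eq_one_iff_notMem (K := K)).2 hd,
      (w.valuation_eq_one_iff_notMem (K := K)).2 hd', mul_one, mul_one] at h3
    rw [h3]
    exact (w.valuation_lt_one_iff_mem _).2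
      (sub_mem (Ideal.mul_mem_right _ _ (hg n)) (Ideal.mul_mem_left _ _ (hg d)))
  have key' : ∀ g ∈ w.asIdeal.inertia G, ∀ x : K, x ∈ (plc k K w).1 → g • x ∈ (plc k K w).1 := by
    intro g hg x hx
    have := add_mem (mem_plc_iff.2 (key g hg x (mem_plc_iff.1 hx)).le) hx
    rwa [sub_add_cancel] at this
  rw [eq_bot_iff]
  intro g hg
  let σ : K ≃ₐ[K₀] K := MulSemiringAction.toAlgEquiv K₀ K g
  have hσ : σ ∈ (plc k K w).1.decompositionSubgroup K₀ := by
    rw [MulAction.mem_stabilizer_iff]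
    ext x
    rw [ValuationSubring.mem_pointwise_smul_iff_inv_smul_mem]
    change g⁻¹ • x ∈ _ ↔ _
    refine ⟨fun h' => ?_, key' _ (inv_mem hg) x⟩
    simpa using key' g hg _ h'
  have h1 : (⟨σ, hσ⟩ : (plc k K w).1.decompositionSubgroup K₀) ∈
      (plc k K w).1.inertiaSubgroup K₀ := by
    rw [ValuationSubring.inertiaSubgroup, MonoidHom.mem_ker]
    ext y
    obtain ⟨x, rfl⟩ := IsLocalRing.residue_surjective y
    change (⟨σ, hσ⟩ : (plc k K w).1.decompositionSubgroup K₀) • IsLocalRing.residue _ x =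
      IsLocalRing.residue _ x
    rw [← IsLocalRing.ResidueField.residue_smul, ← sub_eq_zero, ← map_sub,
      IsLocalRing.residue_eq_zero_iff, ← ValuationSubring.coe_mem_nonunits_iff,
      ValuationSubring.mem_nonunits_iff_or, mem_plc_iff, map_inv₀, or_iff_not_imp_left]
    intro h0
    rw [not_le, one_lt_inv₀ ((Valuation.pos_iff _).2 h0)]
    exact key g hg x (mem_plc_iff.1 x.2)
  rw [h, Subgroup.mem_bot, Subtype.ext_iff] at h1
  rw [Subgroup.mem_bot]
  refine eq_of_smul_eq_smul (α := K) fun x => ?_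
  rw [one_smul]
  exact DFunLike.congr_fun h1 x

end Plc

section Euler

lemma hasProd_of_isEuler {ι : Type*} {deg : ι → ℕ} (hpos : ∀ i, 0 < deg i)
    (hfin : ∀ d, {i | deg i ≤ d}.Finite) {f : ℚ⟦X⟧} (h : IsEuler deg (fun _ => 1) f) :
    HasProd (fun i => (1 - X ^ deg i : ℚ⟦X⟧)⁻¹) f := by
  rw [HasProd, PowerSeries.WithPiTopology.tendsto_iff_coeff_tendsto]
  intro d
  refine tendsto_const_nhds.congr' ?_
  filter_upwards [Filter.eventually_ge_atTop (hfin d).toFinset] with T hT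
  have h1 := (h d T fun i hi => hT (by simpa using hi)).mul_right
    (∏ i ∈ T, (1 - X ^ deg i : ℚ⟦X⟧)⁻¹)
  rw [sub_mul, mul_assoc, ← Finset.prod_mul_distrib, Finset.prod_eq_one, mul_one, one_mul,
    X_pow_dvd_iff] at h1
  · have := h1 d (by omega)
    rwa [map_sub, sub_eq_zero] at this
  · intro i _
    rw [map_one, one_mul]
    exact PowerSeries.mul_inv_cancel _ (by simp [(hpos i).ne'])

lemma isEuler_of_injective {ι ι' : Type*} {deg : ι → ℕ} (hpos : ∀ i, 0 < deg i) {e : ι' → ι}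
    (he : Function.Injective e) (Pl : Finset ι) (hPl : ∀ x, x ∉ Pl ↔ x ∈ Set.range e)
    {f : ℚ⟦X⟧} (h : IsEuler (fun i => deg (e i)) (fun _ => 1) f) :
    IsEuler deg (fun _ => 1) (f * (∏ i ∈ Pl, (1 - X ^ deg i : ℚ⟦X⟧))⁻¹) := by
  classical
  intro d T hT
  set E := ∏ i ∈ Pl, (1 - X ^ deg i : ℚ⟦X⟧) with hE
  have hE1 : constantCoeff E = 1 := by
    simpa [hE] using constantCoeff_prod_factor hpos (fun _ => (1 : ℚ)) Pl
  have hEu : E * E⁻¹ = 1 := PowerSeries.mul_inv_cancel _ (by rw [hE1]; exact one_ne_zero)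
  have h1 := h d (T.preimage e he.injOn) fun i hi => by simpa using hT _ hi
  have h2 : ∏ i ∈ T.preimage e he.injOn, (1 - C (1 : ℚ) * X ^ deg (e i) : ℚ⟦X⟧) =
      ∏ i ∈ T.filter (· ∉ Pl), (1 - X ^ deg i : ℚ⟦X⟧) := by
    rw [Finset.prod_preimage' e T he.injOn fun i => (1 - C (1 : ℚ) * X ^ deg i : ℚ⟦X⟧)]
    refine Finset.prod_congr ?_ fun i _ => by simp
    ext i
    simp only [Finset.mem_filter, hPl]
  have h3 : (X : ℚ⟦X⟧) ^ (d + 1) ∣ ∏ i ∈ T.filter (· ∈ Pl), (1 - X ^ deg i : ℚ⟦X⟧) - E := by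
    have hsub : T.filter (· ∈ Pl) ⊆ Pl := fun i hi => (Finset.mem_filter.1 hi).2
    rw [hE, ← Finset.prod_sdiff hsub, ← Ideal.mem_span_singleton, ← Ideal.Quotient.eq, map_mul,
      map_prod _ _ (Pl \ _), Finset.prod_eq_one (s := Pl \ _), one_mul]
    intro i hi
    rw [map_sub, map_one, sub_eq_self, Ideal.Quotient.eq_zero_iff_mem, Ideal.mem_span_singleton]
    refine pow_dvd_pow _ ?_
    by_contra hlt
    rw [Finset.mem_sdiff, Finset.mem_filter] at hi
    exact hi.2 ⟨hT i (by omega), hi.1⟩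
  rw [h2] at h1
  simp only [map_one, one_mul]
  rw [← Finset.prod_filter_mul_prod_filter_not T (· ∈ Pl)]
  set A := ∏ i ∈ T.filter (· ∈ Pl), (1 - X ^ deg i : ℚ⟦X⟧)
  set B := ∏ i ∈ T.filter (· ∉ Pl), (1 - X ^ deg i : ℚ⟦X⟧)
  have := dvd_add h1 (h3.mul_left (f * E⁻¹ * B))
  convert this using 1
  linear_combination (f * B) * hEu

end Euler

end Pool.Agent.MP_51ecca_nt

end

section

set_option linter.unusedSectionVars false

namespace Pool.Agent.MP_51ecca_nt

open Polynomial WithZero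

/-- A degree filtration on the fraction field `K` of `R`, complementary to `R`. -/
structure Filt (k R K : Type*) [Field k] [CommRing R] [Field K] [Algebra k K] [Algebra R K] where
  Λ : ℤ → Submodule k K
  κ : ℕ
  ρ : ℕ
  mono : Monotone Λ
  exhaust : ∀ x, ∃ j, x ∈ Λ j
  mul_mem : ∀ {i j : ℤ} {x y : K}, x ∈ Λ i → y ∈ Λ j → x * y ∈ Λ (i + j + κ)
  decomp : ∀ x : K, ∃ r : R, x - algebraMap R K r ∈ Λ (-1)
  disj : ∀ r : R, algebraMap R K r ∈ Λ (-1) → r = 0
  card : ∀ m : ℕ, Nat.card {r : R // algebraMap R K r ∈ Λ ((m : ℤ) - 1)} = Nat.card k ^ (ρ * m)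
  scal : ∀ I : Ideal R, I ≠ ⊥ → ∃ t ∈ I, t ≠ 0 ∧ ∃ n : ℕ,
    ∀ (j : ℤ) (x : K), x ∈ Λ j ↔ algebraMap R K t * x ∈ Λ (j + n)
  exists_deg_one : ∃ t : R, t ≠ 0 ∧ ∀ (j : ℤ) (x : K), x ∈ Λ j ↔ algebraMap R K t * x ∈ Λ (j + 1)

section RatFunc

variable {k : Type*} [Field k] [DecidableEq (RatFunc k)]

lemma infty_poly {P : k[X]} (hP : P ≠ 0) :
    RatFunc.inftyValuation k (algebraMap k[X] (RatFunc k) P) = exp (P.natDegree : ℤ) :=
  RatFunc.inftyValuation.polynomial k hP

lemma infty_poly_le_iff (P : k[X]) (m : ℕ) :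
    RatFunc.inftyValuation k (algebraMap k[X] (RatFunc k) P) ≤ exp ((m : ℤ) - 1) ↔
      P ∈ degreeLT k m := by
  rw [mem_degreeLT]
  by_cases hP : P = 0
  · subst hP
    simp
  · rw [infty_poly hP, exp_le_exp, degree_eq_natDegree hP, Nat.cast_lt]
    omega

lemma exists_poly_approx (f : RatFunc k) :
    ∃ P : k[X], RatFunc.inftyValuation k (f - algebraMap k[X] (RatFunc k) P) ≤ exp (-1) := by
  refine ⟨f.num / f.denom, ?_⟩
  have hd := f.denom_ne_zero
  have hd' : algebraMap k[X] (RatFunc k) f.denom ≠ 0 := by simpa using hd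
  have e : f - algebraMap k[X] (RatFunc k) (f.num / f.denom) =
      algebraMap k[X] (RatFunc k) (f.num % f.denom) / algebraMap k[X] (RatFunc k) f.denom := by
    have e0 : f * algebraMap k[X] (RatFunc k) f.denom = algebraMap k[X] (RatFunc k) f.num :=
      ((div_eq_iff hd').1 f.num_div_denom).symm
    rw [eq_div_iff hd', sub_mul, ← map_mul, e0, ← map_sub]
    congr 1
    have := EuclideanDomain.div_add_mod f.num f.denom
    linear_combination (-1 : k[X]) * this
  rw [e]
  by_cases h0 : f.num % f.denom = 0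
  · rw [h0]; simp
  · rw [map_div₀, infty_poly h0, infty_poly hd, ← exp_sub, exp_le_exp]
    have := natDegree_lt_natDegree h0 (degree_mod_lt f.num hd)
    omega

lemma exists_le_exp (g : ℤᵐ⁰) : ∃ n : ℕ, g ≤ exp (n : ℤ) := by
  by_cases hg : g = 0
  · exact ⟨0, by simp [hg]⟩
  · refine ⟨(log g).toNat, ?_⟩
    conv_lhs => rw [← exp_log hg]
    rw [exp_le_exp]
    exact Int.self_le_toNat _

lemma exists_forall_le_exp {ι : Type*} [Finite ι] (g : ι → ℤᵐ⁰) :
    ∃ n : ℕ, ∀ i, g i ≤ exp (n : ℤ) := by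
  choose n hn using fun i => exists_le_exp (g i)
  obtain ⟨N, hN⟩ := (Set.finite_range n).bddAbove
  refine ⟨N, fun i => (hn i).trans ?_⟩
  rw [exp_le_exp]
  exact_mod_cast hN ⟨i, rfl⟩

end RatFunc

section Construction

variable (k R K : Type*) [Field k] [CommRing R] [Field K] [Algebra k K] [Algebra R K]
  [Algebra k[X] R] [Algebra k[X] K] [Algebra (RatFunc k) K] [IsScalarTower k[X] R K]
  [IsScalarTower k[X] (RatFunc k) K] [IsScalarTower k k[X] K] [IsIntegralClosure R k[X] K]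
  [FiniteDimensional (RatFunc k) K] [Algebra.IsSeparable (RatFunc k) K]

theorem exists_filt [Finite k] : ∃ F : Filt k R K, F.ρ = Module.finrank (RatFunc k) K ∧
    (∀ (j : ℤ) (x : K), x ∈ F.Λ j ↔ algebraMap k[X] K X * x ∈ F.Λ (j + 1)) ∧
    ∀ O : ValuationSubring K, (∀ c : k, algebraMap k K c ∈ O) → algebraMap k[X] K X ∉ O →
      ∀ x ∈ F.Λ (-F.κ), x ∈ O := by
  classical
  have : IsDomain R :=
    (IsIntegralClosure.equiv k[X] R K (integralClosure k[X] K)).toMulEquiv.isDomain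
      (integralClosure k[X] K)
  have : Module.IsTorsionFree k[X] K := .trans_faithfulSMul k[X] (RatFunc k) K
  have : Module.IsTorsionFree k[X] R := IsIntegralClosure.isTorsionFree k[X] K
  have : Module.Finite k[X] R := IsIntegralClosure.finite k[X] (RatFunc k) K R
  have : IsLocalization (Algebra.algebraMapSubmonoid R (nonZeroDivisors k[X])) K :=
    IsIntegralClosure.isLocalization k[X] (RatFunc k) K R
  have : IsScalarTower k (RatFunc k) K := .of_algebraMap_eq fun c => by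
    rw [IsScalarTower.algebraMap_apply k k[X] K, IsScalarTower.algebraMap_apply k[X] (RatFunc k) K,
      ← IsScalarTower.algebraMap_apply k k[X] (RatFunc k)]
  let ι := Module.Free.ChooseBasisIndex k[X] R
  let b : Module.Basis ι k[X] R := Module.Free.chooseBasis k[X] R
  let bK : Module.Basis ι (RatFunc k) K :=
    b.localizationLocalization (RatFunc k) (nonZeroDivisors k[X]) K
  let v := RatFunc.inftyValuation k
  let Λ : ℤ → Submodule k K := fun j =>
    { carrier := {x | ∀ i, v (bK.repr x i) ≤ exp j}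
      add_mem' := fun {x y} hx hy i => by
        rw [map_add, Finsupp.add_apply]
        exact v.map_add_le (hx i) (hy i)
      zero_mem' := fun i => by simp
      smul_mem' := fun c x hx i => by
        rw [← IsScalarTower.algebraMap_smul (RatFunc k) c x, map_smul, Finsupp.smul_apply,
          smul_eq_mul, map_mul]
        by_cases hc : c = 0
        · simp [hc]
        · rw [Valuation.IsTrivialOn.eq_one c hc, one_mul]
          exact hx i }
  have memΛ : ∀ j x, x ∈ Λ j ↔ ∀ i, v (bK.repr x i) ≤ exp j := fun j x => Iff.rfl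
  obtain ⟨κ, hκ⟩ := exists_forall_le_exp fun t : ι × ι × ι =>
    v (bK.repr (bK t.1 * bK t.2.1) t.2.2)
  have hrepr : ∀ (r : R) i,
      bK.repr (algebraMap R K r) i = algebraMap k[X] (RatFunc k) (b.repr r i) := fun r i =>
    b.localizationLocalization_repr_algebraMap (RatFunc k) (nonZeroDivisors k[X]) K r i
  have hscal : ∀ t : k[X], t ≠ 0 → ∀ (j : ℤ) (x : K),
      x ∈ Λ j ↔ algebraMap R K (algebraMap k[X] R t) * x ∈ Λ (j + t.natDegree) := by
    intro t ht j x
    rw [memΛ, memΛ]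
    refine forall_congr' fun i => ?_
    rw [← IsScalarTower.algebraMap_apply, IsScalarTower.algebraMap_apply k[X] (RatFunc k) K,
      ← Algebra.smul_def, map_smul, Finsupp.smul_apply, smul_eq_mul, map_mul, infty_poly ht,
      exp_add, mul_comm (exp j), mul_le_mul_iff_right₀ exp_pos]
  have hmul : ∀ {i j : ℤ} {x y : K}, x ∈ Λ i → y ∈ Λ j → x * y ∈ Λ (i + j + κ) := by
    intro i j x y hx hy l
    conv_lhs => rw [← bK.sum_repr x, ← bK.sum_repr y]
    rw [Finset.sum_mul_sum, map_sum, Finsupp.finsetSum_apply]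
    refine v.map_sum_le fun a _ => ?_
    rw [map_sum, Finsupp.finsetSum_apply]
    refine v.map_sum_le fun c _ => ?_
    rw [smul_mul_smul_comm, map_smul, Finsupp.smul_apply, smul_eq_mul, map_mul, map_mul, exp_add,
      exp_add]
    exact mul_le_mul' (mul_le_mul' (hx a) (hy c)) (hκ (a, c, l))
  refine ⟨⟨Λ, κ, Fintype.card ι, ?_, ?_, hmul, ?_, ?_, ?_, ?_, ?_⟩, ?_, ?_, ?_⟩
  · intro i j hij x hx l
    exact (hx l).trans (exp_le_exp.2 hij)
  · intro x
    obtain ⟨n, hn⟩ := exists_forall_le_exp fun i => v (bK.repr x i)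
    exact ⟨n, hn⟩
  · intro x
    choose P hP using fun i => exists_poly_approx (bK.repr x i)
    refine ⟨b.equivFun.symm P, fun i => ?_⟩
    rw [map_sub, Finsupp.sub_apply, hrepr, ← b.equivFun_apply, LinearEquiv.apply_symm_apply]
    exact hP i
  · intro r hr
    rw [← b.repr.map_eq_zero_iff]
    ext1 i
    have := hr i
    rw [hrepr] at this
    have h2 := (infty_poly_le_iff (b.repr r i) 0).1 (by simpa using this)
    rw [mem_degreeLT] at h2
    simpa using h2
  · intro m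
    have e : {r : R // algebraMap R K r ∈ Λ ((m : ℤ) - 1)} ≃ (ι → degreeLT k m) :=
      (b.equivFun.toEquiv.subtypeEquiv (q := fun P => ∀ i, P i ∈ degreeLT k m) fun r => by
        rw [memΛ]
        refine forall_congr' fun i => ?_
        rw [hrepr, infty_poly_le_iff]
        rfl).trans (Equiv.subtypePiEquivPi (p := fun _ P => P ∈ degreeLT k m))
    rw [Nat.card_congr e, Nat.card_fun, Nat.card_congr (degreeLTEquiv k m).toEquiv, Nat.card_fun,
      ← pow_mul, Nat.card_eq_fintype_card (α := Fin m), Fintype.card_fin,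
      Nat.card_eq_fintype_card (α := ι), mul_comm]
  · intro I hI
    obtain ⟨t, ht, ht0⟩ := Submodule.exists_mem_ne_zero_of_ne_bot (Ideal.under_ne_bot k[X] hI)
    refine ⟨algebraMap k[X] R t, ht, ?_, t.natDegree, hscal t ht0⟩
    simpa using ht0
  · refine ⟨algebraMap k[X] R X, by simp, fun j x => ?_⟩
    simpa using hscal X X_ne_zero j x
  · exact (Module.finrank_eq_card_basis bK).symm
  · intro j x
    simpa [← IsScalarTower.algebraMap_apply] using hscal X X_ne_zero j x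
  · intro O hO hX x hx
    let w := O.valuation.comap (algebraMap (RatFunc k) K)
    have : w.IsTrivialOn k := ⟨fun c hc => by
      have h1 : ∀ c : k, O.valuation (algebraMap k K c) ≤ 1 := fun c =>
        (O.valuation_le_one_iff _).2 (hO c)
      have h2 := h1 c⁻¹
      rw [map_inv₀, map_inv₀, inv_le_one₀ (by
        rw [Valuation.pos_iff]; simpa using hc)] at h2
      change O.valuation _ = 1
      rw [← IsScalarTower.algebraMap_apply]
      exact le_antisymm (h1 c) h2⟩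
    have hlt : 1 < w RatFunc.X := by
      change 1 < O.valuation _
      rw [← RatFunc.algebraMap_X, ← IsScalarTower.algebraMap_apply, ← not_le,
        O.valuation_le_one_iff]
      exact hX
    have heq := RatFunc.valuation_isEquiv_inftyValuation_of_one_lt_valuation_X hlt
    have : Nonempty ι := bK.index_nonempty
    obtain ⟨i₀, -, hi₀⟩ := Finset.exists_max_image Finset.univ (fun i => O.valuation (bK i))
      Finset.univ_nonempty
    have h0 : bK i₀ ∈ Λ (0 : ℤ) := fun l => by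
      rw [bK.repr_self, Finsupp.single_apply]
      split_ifs <;> simp
    have h1 := hmul hx h0
    simp only [add_zero, neg_add_cancel] at h1
    have h2 : O.valuation (x * bK i₀) ≤ O.valuation (bK i₀) := by
      conv_lhs => rw [← bK.sum_repr (x * bK i₀)]
      refine O.valuation.map_sum_le fun l _ => ?_
      rw [Algebra.smul_def, map_mul]
      have h3 : w (bK.repr (x * bK i₀) l) ≤ 1 := by
        rw [heq.le_one_iff_le_one]
        simpa using h1 l
      calc _ ≤ 1 * O.valuation (bK i₀) := mul_le_mul' h3 (hi₀ l (Finset.mem_univ _))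
        _ = _ := one_mul _
    rw [map_mul] at h2
    have h4 : 0 < O.valuation (bK i₀) := by
      rw [Valuation.pos_iff]; exact bK.ne_zero i₀
    rw [← O.valuation_le_one_iff]
    exact (mul_le_iff_le_one_left h4).1 h2

end Construction

end Pool.Agent.MP_51ecca_nt

end

section

set_option linter.unusedSectionVars false

namespace Pool.Agent.MP_51ecca_nt

open scoped nonZeroDivisors
open FractionalIdeal

namespace Filt

section Near

variable {k R K : Type*} [Field k] [CommRing R] [Nontrivial R] [Field K] [Algebra k K]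
  [Algebra R K] (F : Filt k R K)

/-- `u` is congruent to `1` to order `M` at infinity. -/
def Near (M : ℤ) (u : K) : Prop := u - 1 ∈ F.Λ (-M)

variable {F} {M : ℤ}

lemma Near.sub_one_mul {u : K} (hu : F.Near M u) {j : ℤ} {x : K} (hx : x ∈ F.Λ j) :
    (u - 1) * x ∈ F.Λ (j - M + F.κ) := by
  have := F.mul_mem hu hx
  rwa [show -M + j + F.κ = j - M + F.κ by ring] at this

lemma Near.mul_mem (hM : (F.κ : ℤ) < M) {u : K} (hu : F.Near M u) {j : ℤ} {x : K}
    (hx : x ∈ F.Λ j) : u * x ∈ F.Λ j := by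
  have h1 : (u - 1) * x ∈ F.Λ j := F.mono (by omega) (hu.sub_one_mul hx)
  have := add_mem h1 hx
  rwa [show (u - 1) * x + x = u * x by ring] at this

lemma Near.mem_of_mul_mem (hM : (F.κ : ℤ) < M) {u : K} (hu : F.Near M u) {j : ℤ} {x : K}
    (hx : u * x ∈ F.Λ j) : x ∈ F.Λ j := by
  obtain ⟨i, hi⟩ := F.exhaust x
  have key : ∀ n : ℕ, x ∈ F.Λ (j + n) → x ∈ F.Λ j := by
    intro n
    induction n with
    | zero => simp
    | succ n ih =>
      intro h
      apply ih
      have h1 : (u - 1) * x ∈ F.Λ (j + n) :=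
        F.mono (by push_cast; omega) (hu.sub_one_mul h)
      have h2 : u * x ∈ F.Λ (j + n) := F.mono (by omega) hx
      have := sub_mem h2 h1
      rwa [show u * x - (u - 1) * x = x by ring] at this
  exact key (i - j).toNat (F.mono (by omega) hi)

lemma Near.ne_zero (hM : (F.κ : ℤ) < M) {u : K} (hu : F.Near M u) : u ≠ 0 := by
  rintro rfl
  have : algebraMap R K 1 ∈ F.Λ (-1) := hu.mem_of_mul_mem hM (by simp)
  exact one_ne_zero (F.disj 1 this)

lemma Near.one : F.Near M 1 := by simp [Near]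

lemma Near.mul (hM : (F.κ : ℤ) < M) {u u' : K} (hu : F.Near M u) (hu' : F.Near M u') :
    F.Near M (u * u') := by
  have := add_mem (hu.mul_mem hM hu') hu
  unfold Near
  rwa [show u * (u' - 1) + (u - 1) = u * u' - 1 by ring] at this

lemma Near.inv (hM : (F.κ : ℤ) < M) {u : K} (hu : F.Near M u) : F.Near M u⁻¹ := by
  unfold Near
  apply hu.mem_of_mul_mem hM
  rw [mul_sub, mul_inv_cancel₀ (hu.ne_zero hM), mul_one, ← neg_sub]
  exact neg_mem hu

lemma Near.eq_one (hM : (F.κ : ℤ) < M) {r : R} (hr : F.Near M (algebraMap R K r)) : r = 1 := by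
  have : algebraMap R K (r - 1) ∈ F.Λ (-1) := by
    rw [map_sub, map_one]
    exact F.mono (by omega) hr
  exact sub_eq_zero.1 (F.disj _ this)

omit [Nontrivial R] in
lemma scal' [IsDomain R] (F : Filt k R K) {I : Ideal R} (hI : I ≠ ⊥) (N : ℕ) :
    ∃ t ∈ I, t ≠ 0 ∧ ∃ n : ℕ, N ≤ n ∧
      ∀ (j : ℤ) (x : K), x ∈ F.Λ j ↔ algebraMap R K t * x ∈ F.Λ (j + n) := by
  induction N with
  | zero =>
    obtain ⟨t, ht, ht0, n, hn⟩ := F.scal I hI
    exact ⟨t, ht, ht0, n, Nat.zero_le _, hn⟩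
  | succ N ih =>
    obtain ⟨t, ht, ht0, n, hN, hn⟩ := ih
    obtain ⟨s, hs0, hs⟩ := F.exists_deg_one
    refine ⟨s * t, I.mul_mem_left _ ht, mul_ne_zero hs0 ht0, n + 1, by omega, fun j x => ?_⟩
    rw [hn, hs, map_mul, mul_assoc]
    push_cast
    rw [add_assoc]

end Near

section Dim

variable {k R K : Type*} [Field k] [Finite k] [CommRing R] [IsDedekindDomain R] [Infinite R]
  [Ring.HasFiniteQuotients R] [Field K] [Algebra k K] [Algebra R K] [Algebra k R]
  [IsScalarTower k R K] [IsFractionRing R K] (F : Filt k R K)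

/-- The elements of `R` of degree less than `m`. -/
noncomputable def V (m : ℕ) : Submodule k R :=
  (F.Λ ((m : ℤ) - 1)).comap (IsScalarTower.toAlgHom k R K).toLinearMap

lemma mem_V {m : ℕ} {r : R} : r ∈ F.V m ↔ algebraMap R K r ∈ F.Λ ((m : ℤ) - 1) := Iff.rfl

lemma card_V (m : ℕ) : Nat.card (F.V m) = Nat.card k ^ (F.ρ * m) := F.card m

instance finite_V (m : ℕ) : Finite (F.V m) := by
  apply Nat.finite_of_card_ne_zero
  rw [card_V]
  exact pow_ne_zero _ Nat.card_pos.ne'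

instance fd_V (m : ℕ) : FiniteDimensional k (F.V m) := Module.Finite.of_finite

lemma finrank_V (m : ℕ) : Module.finrank k (F.V m) = F.ρ * m := by
  have := F.card_V m
  rw [Module.natCard_eq_pow_finrank (K := k)] at this
  exact Nat.pow_right_injective (one_lt_card k) this

/-- Reduction of bounded elements modulo an ideal. -/
noncomputable def red (J : Ideal R) (m : ℕ) : F.V m →ₗ[k] R ⧸ J :=
  (Ideal.Quotient.mkₐ k J).toLinearMap.domRestrict (F.V m)

lemma mem_ker_red {J : Ideal R} {m : ℕ} {r : F.V m} :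
    r ∈ LinearMap.ker (F.red J m) ↔ (r : R) ∈ J := by
  rw [LinearMap.mem_ker, ← Ideal.Quotient.eq_zero_iff_mem]
  rfl

lemma finrank_ker_red_ge {J : Ideal R} (hJ : J ≠ ⊥) (m : ℕ) :
    F.ρ * m ≤ Module.finrank k (LinearMap.ker (F.red J m)) + ideg k J := by
  have := finiteDimensional_quot k hJ
  rw [← F.finrank_V m, ← (F.red J m).finrank_range_add_finrank_ker, add_comm]
  gcongr
  exact Submodule.finrank_le _

lemma finrank_ker_red_eq {J : Ideal R} (m : ℕ)
    (h : ∀ r : R, ∃ s ∈ F.V m, r - s ∈ J) :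
    F.ρ * m = Module.finrank k (LinearMap.ker (F.red J m)) + ideg k J := by
  have hs : Function.Surjective (F.red J m) := by
    intro x
    obtain ⟨r, rfl⟩ := Ideal.Quotient.mk_surjective x
    obtain ⟨s, hs, hrs⟩ := h r
    exact ⟨⟨s, hs⟩, (Ideal.Quotient.eq.2 hrs).symm⟩
  rw [← F.finrank_V m, ← (F.red J m).finrank_range_add_finrank_ker, add_comm,
    LinearMap.range_eq_top.2 hs, finrank_top]
  rfl

lemma ideg_span {t : R} (ht : t ≠ 0) {n : ℕ}
    (hn : ∀ (j : ℤ) (x : K), x ∈ F.Λ j ↔ algebraMap R K t * x ∈ F.Λ (j + n)) :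
    ideg k (Ideal.span {t}) = F.ρ * n := by
  have ht' : algebraMap R K t ≠ 0 := by simpa using ht
  have h1 := F.finrank_ker_red_eq (J := Ideal.span {t}) n fun r => by
    obtain ⟨s, hs⟩ := F.decomp (algebraMap R K r / algebraMap R K t)
    refine ⟨r - t * s, ?_, by simp [Ideal.mem_span_singleton]⟩
    rw [hn, mul_sub, mul_div_cancel₀ _ ht', ← map_mul, ← map_sub] at hs
    rw [mem_V]
    convert hs using 2
    ring
  have h2 : LinearMap.ker (F.red (Ideal.span {t}) n) = ⊥ := by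
    rw [eq_bot_iff]
    rintro ⟨r, hr⟩ h
    rw [mem_ker_red, Ideal.mem_span_singleton] at h
    obtain ⟨s, rfl⟩ := h
    rw [mem_V, map_mul, show (n : ℤ) - 1 = -1 + n by ring, ← hn] at hr
    have := F.disj s hr
    simp [this]
  rw [h2, finrank_bot, zero_add] at h1
  exact h1.symm

variable (k K) in
/-- The inverse fractional ideal as a subspace of `K`. -/
noncomputable def _root_.Pool.Agent.MP_51ecca_nt.invSub (I : Ideal R) : Submodule k K :=
  (((I : FractionalIdeal R⁰ K)⁻¹ : FractionalIdeal R⁰ K) : Submodule R K).restrictScalars k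

lemma _root_.Pool.Agent.MP_51ecca_nt.mem_invSub {I : Ideal R} {u : K} :
    u ∈ invSub k K I ↔ u ∈ (I : FractionalIdeal R⁰ K)⁻¹ := Iff.rfl

lemma _root_.Pool.Agent.MP_51ecca_nt.mem_invSub_iff_le {I : Ideal R} (hI : I ≠ ⊥) {u : K} :
    u ∈ invSub k K I ↔ spanSingleton R⁰ u * (I : FractionalIdeal R⁰ K) ≤ 1 := by
  rw [mem_invSub, mem_inv_iff (coeIdeal_ne_zero.2 hI), spanSingleton_mul_le_iff]

lemma _root_.Pool.Agent.MP_51ecca_nt.mem_invSub_of_mul_eq {I J : Ideal R} {t : R} (ht : t ≠ 0)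
    (h : I * J = Ideal.span {t}) {u : K} :
    u ∈ invSub k K I ↔ ∃ r ∈ J, algebraMap R K r = algebraMap R K t * u := by
  have ht' : algebraMap R K t ≠ 0 := by simpa using ht
  have hI : I ≠ ⊥ := by
    rintro rfl
    rw [Ideal.bot_mul, eq_comm, Ideal.span_singleton_eq_bot] at h
    exact ht h
  have hI' : (I : FractionalIdeal R⁰ K) ≠ 0 := coeIdeal_ne_zero.2 hI
  have e : (I : FractionalIdeal R⁰ K)⁻¹ = spanSingleton R⁰ (algebraMap R K t)⁻¹ * J := by
    rw [eq_comm, ← mul_eq_one_iff_eq_inv₀ hI', mul_assoc, mul_comm (J : FractionalIdeal R⁰ K),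
      ← coeIdeal_mul, h, coeIdeal_span_singleton, spanSingleton_mul_spanSingleton,
      inv_mul_cancel₀ ht', spanSingleton_one]
  rw [mem_invSub, e, mem_singleton_mul]
  constructor
  · rintro ⟨y, hy, rfl⟩
    obtain ⟨r, hr, rfl⟩ := (mem_coeIdeal _).1 hy
    exact ⟨r, hr, by rw [mul_inv_cancel_left₀ ht']⟩
  · rintro ⟨r, hr, h⟩
    exact ⟨_, mem_coeIdeal_of_mem _ hr, by rw [h, inv_mul_cancel_left₀ ht']⟩

lemma _root_.Pool.Agent.MP_51ecca_nt.mul_mem_invSub {I : Ideal R} {u : K} (hu : u ∈ invSub k K I)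
    (r : R) : u * algebraMap R K r ∈ invSub k K I := by
  rw [mul_comm, ← Algebra.smul_def]
  exact Submodule.smul_mem _ r hu

lemma _root_.Pool.Agent.MP_51ecca_nt.one_mem_invSub {I : Ideal R} (hI : I ≠ ⊥) :
    (1 : K) ∈ invSub k K I := by
  rw [mem_invSub_iff_le hI, spanSingleton_one, one_mul]
  exact coeIdeal_le_one

lemma nonempty_equiv_ker {I J : Ideal R} {t : R} (ht : t ≠ 0) (h : I * J = Ideal.span {t})
    {n : ℕ} (hn : ∀ (j : ℤ) (x : K), x ∈ F.Λ j ↔ algebraMap R K t * x ∈ F.Λ (j + n))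
    {j : ℤ} {m : ℕ} (hm : (m : ℤ) = j + n + 1) :
    Nonempty (LinearMap.ker (F.red J m) ≃ₗ[k] ↥(invSub k K I ⊓ F.Λ j)) := by
  have ht' : algebraMap R K t ≠ 0 := by simpa using ht
  let g : LinearMap.ker (F.red J m) →ₗ[k] K :=
    (LinearMap.mulLeft k (algebraMap R K t)⁻¹) ∘ₗ (IsScalarTower.toAlgHom k R K).toLinearMap ∘ₗ
      (F.V m).subtype ∘ₗ (LinearMap.ker (F.red J m)).subtype
  have hg : ∀ x, g x = (algebraMap R K t)⁻¹ * algebraMap R K x.1.1 := fun x => rfl
  have hmem : ∀ x, g x ∈ invSub k K I ⊓ F.Λ j := by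
    intro x
    rw [hg]
    refine ⟨(mem_invSub_of_mul_eq ht h).2 ⟨x.1.1, F.mem_ker_red.1 x.2, ?_⟩, ?_⟩
    · rw [mul_inv_cancel_left₀ ht']
    · change _ ∈ F.Λ j
      rw [hn, mul_inv_cancel_left₀ ht', show j + n = (m : ℤ) - 1 by omega]
      exact x.1.2
  refine ⟨LinearEquiv.ofBijective (g.codRestrict _ hmem) ⟨?_, ?_⟩⟩
  · intro x y hxy
    have := congrArg Subtype.val hxy
    simp only [LinearMap.codRestrict_apply, hg] at this
    have := IsFractionRing.injective R K (mul_left_cancel₀ (inv_ne_zero ht') this)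
    exact Subtype.ext (Subtype.ext this)
  · rintro ⟨u, hu1, hu2⟩
    obtain ⟨r, hr, hr'⟩ := (mem_invSub_of_mul_eq ht h).1 hu1
    have hrV : r ∈ F.V m := by
      rw [mem_V, hr', show (m : ℤ) - 1 = j + n by omega, ← hn]
      exact hu2
    refine ⟨⟨⟨r, hrV⟩, F.mem_ker_red.2 hr⟩, Subtype.ext ?_⟩
    simp only [LinearMap.codRestrict_apply, hg]
    rw [hr', inv_mul_cancel_left₀ ht']

lemma finrank_inv {I : Ideal R} (hI : I ≠ ⊥) (j : ℤ) :
    FiniteDimensional k ↥(invSub k K I ⊓ F.Λ j) ∧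
    (F.ρ : ℤ) * (j + 1) + ideg k I ≤ Module.finrank k ↥(invSub k K I ⊓ F.Λ j) ∧
    ((∀ x : K, ∃ u ∈ invSub k K I, x - u ∈ F.Λ j) →
      (F.ρ : ℤ) * (j + 1) + ideg k I = Module.finrank k ↥(invSub k K I ⊓ F.Λ j)) := by
  obtain ⟨t, htI, ht, n, hN, hn⟩ := F.scal' hI (-j).toNat
  have ht' : algebraMap R K t ≠ 0 := by simpa using ht
  obtain ⟨J, hJ⟩ : I ∣ Ideal.span {t} := Ideal.dvd_iff_le.2 (by simpa using htI)
  have hJ0 : J ≠ ⊥ := by
    rintro rfl
    rw [Ideal.mul_bot, Ideal.span_singleton_eq_bot] at hJ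
    exact ht hJ
  obtain ⟨m, hm⟩ : ∃ m : ℕ, (m : ℤ) = j + n + 1 := ⟨(j + n + 1).toNat, by omega⟩
  obtain ⟨e⟩ := F.nonempty_equiv_ker ht hJ.symm hn hm
  have hdeg : ideg k I + ideg k J = F.ρ * n := by
    rw [← ideg_mul k hI hJ0, ← hJ, F.ideg_span ht hn]
  have hdeg' : (ideg k I : ℤ) + ideg k J = F.ρ * n := by exact_mod_cast hdeg
  have hm' : (F.ρ : ℤ) * m = F.ρ * (j + 1) + F.ρ * n := by rw [hm]; ring
  refine ⟨Module.Finite.equiv e, ?_, fun hs => ?_⟩
  · have := F.finrank_ker_red_ge hJ0 m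
    rw [e.finrank_eq] at this
    have : (F.ρ : ℤ) * m ≤ Module.finrank k ↥(invSub k K I ⊓ F.Λ j) + ideg k J := by
      exact_mod_cast this
    omega
  · have := F.finrank_ker_red_eq (J := J) m fun r => by
      obtain ⟨u, hu, hu'⟩ := hs (algebraMap R K r / algebraMap R K t)
      obtain ⟨s, hs, hs'⟩ := (mem_invSub_of_mul_eq ht hJ.symm).1 hu
      refine ⟨r - s, ?_, by simpa using hs⟩
      rw [hn, mul_sub, mul_div_cancel₀ _ ht', ← hs', ← map_sub] at hu'
      rw [mem_V, show (m : ℤ) - 1 = j + n by omega]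
      exact hu'
    rw [e.finrank_eq] at this
    have : (F.ρ : ℤ) * m = Module.finrank k ↥(invSub k K I ⊓ F.Λ j) + ideg k J := by
      exact_mod_cast this
    omega

lemma exists_ne_zero_inv {I : Ideal R} (hI : I ≠ ⊥) {j : ℤ}
    (h : 0 < (F.ρ : ℤ) * (j + 1) + ideg k I) : ∃ a ∈ invSub k K I, a ∈ F.Λ j ∧ a ≠ 0 := by
  obtain ⟨h1, h2, -⟩ := F.finrank_inv hI j
  have : 0 < Module.finrank k ↥(invSub k K I ⊓ F.Λ j) := by omega
  obtain ⟨⟨a, ha1, ha2⟩, ha⟩ := Module.finrank_pos_iff_exists_ne_zero.1 this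
  exact ⟨a, ha1, ha2, fun h => ha (Subtype.ext h)⟩

lemma exists_surj (j : ℤ) : ∃ d₀ : ℕ, ∀ I : Ideal R, I ≠ ⊥ → d₀ ≤ ideg k I →
    ∀ x : K, ∃ u ∈ invSub k K I, x - u ∈ F.Λ j := by
  refine ⟨(1 - (F.ρ : ℤ) * (j - F.κ + 1 + 1)).toNat, fun I hI hd x => ?_⟩
  obtain ⟨a, ha1, ha2, ha⟩ := F.exists_ne_zero_inv hI (j := j - F.κ + 1) (by omega)
  obtain ⟨r, hr⟩ := F.decomp (x / a)
  refine ⟨a * algebraMap R K r, mul_mem_invSub ha1 r, ?_⟩
  have := F.mul_mem ha2 hr
  rw [mul_sub, mul_div_cancel₀ _ ha] at this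
  convert this using 2
  ring

lemma finrank_inv_neg_one {I : Ideal R} (hI : I ≠ ⊥) :
    Module.finrank k ↥(invSub k K I ⊓ F.Λ (-1)) = ideg k I := by
  have := (F.finrank_inv hI (-1)).2.2 fun x => by
    obtain ⟨r, hr⟩ := F.decomp x
    exact ⟨_, by simpa using mul_mem_invSub (one_mem_invSub (k := k) (K := K) hI) r, hr⟩
  simp only [neg_add_cancel, mul_zero, zero_add, Nat.cast_inj] at this
  exact this.symm

end Dim

end Filt

end Pool.Agent.MP_51ecca_nt

end

section

set_option linter.unusedSectionVars false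

namespace Pool.Agent.MP_51ecca_nt

open scoped nonZeroDivisors
open FractionalIdeal

namespace Filt

variable {k R K : Type*} [Field k] [Finite k] [CommRing R] [IsDedekindDomain R] [Infinite R]
  [Ring.HasFiniteQuotients R] [Field K] [Algebra k K] [Algebra R K] [Algebra k R]
  [IsScalarTower k R K] [IsFractionRing R K] (F : Filt k R K)

/-- Ray class equivalence of ideals. -/
def Rel (M : ℤ) (I J : Ideal R) : Prop :=
  ∃ u : K, F.Near M u ∧ (J : FractionalIdeal R⁰ K) = spanSingleton R⁰ u * I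

variable {F} {M : ℤ}

lemma Rel.symm (hM : (F.κ : ℤ) < M) {I J : Ideal R} (h : F.Rel M I J) : F.Rel M J I := by
  obtain ⟨u, hu, h⟩ := h
  refine ⟨u⁻¹, hu.inv hM, ?_⟩
  rw [h, ← mul_assoc, spanSingleton_mul_spanSingleton, inv_mul_cancel₀ (hu.ne_zero hM),
    spanSingleton_one, one_mul]

lemma Rel.trans (hM : (F.κ : ℤ) < M) {I J J' : Ideal R} (h : F.Rel M I J) (h' : F.Rel M J J') :
    F.Rel M I J' := by
  obtain ⟨u, hu, h⟩ := h
  obtain ⟨u', hu', h'⟩ := h'
  refine ⟨u' * u, hu'.mul hM hu, ?_⟩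
  rw [h', h, ← mul_assoc, spanSingleton_mul_spanSingleton]

lemma Rel.ne_bot (hM : (F.κ : ℤ) < M) {I J : Ideal R} (h : F.Rel M I J) (hI : I ≠ ⊥) : J ≠ ⊥ := by
  obtain ⟨u, hu, h⟩ := h
  rw [← coeIdeal_ne_zero (K := K), h]
  exact mul_ne_zero (spanSingleton_ne_zero_iff.2 (hu.ne_zero hM)) (coeIdeal_ne_zero.2 hI)

lemma rel_mul_iff {I J A : Ideal R} (hA : A ≠ ⊥) : F.Rel M (I * A) (J * A) ↔ F.Rel M I J := by
  refine exists_congr fun u => and_congr_right fun _ => ?_
  rw [coeIdeal_mul, coeIdeal_mul, ← mul_assoc, mul_left_inj' (coeIdeal_ne_zero.2 hA)]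

lemma Rel.ideg_eq (hM : (F.κ : ℤ) < M) {I J : Ideal R} (h : F.Rel M I J) (hI : I ≠ ⊥) :
    ideg k J = ideg k I := by
  have hJ := h.ne_bot hM hI
  obtain ⟨u, hu, h⟩ := h
  have hu0 := hu.ne_zero hM
  rw [← F.finrank_inv_neg_one hI, ← F.finrank_inv_neg_one hJ]
  have key : ∀ x : K, x ∈ invSub k K J ⊓ F.Λ (-1) ↔ u * x ∈ invSub k K I ⊓ F.Λ (-1) := by
    intro x
    rw [Submodule.mem_inf, Submodule.mem_inf, mem_invSub_iff_le hI, mem_invSub_iff_le hJ, h,
      ← mul_assoc, spanSingleton_mul_spanSingleton, mul_comm x u]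
    exact and_congr_right fun _ => ⟨hu.mul_mem hM, hu.mem_of_mul_mem hM⟩
  refine LinearEquiv.finrank_eq (LinearEquiv.ofSubmodules
    (LinearEquiv.smulOfNeZero K K u hu0 |>.restrictScalars k) _ _ ?_)
  ext x
  rw [Submodule.mem_map_equiv, key]
  simp [LinearEquiv.smulOfNeZero, LinearEquiv.smulOfUnit, Units.smul_def, hu0]

lemma card_rel (hM : (F.κ : ℤ) < M) {I : Ideal R} (hI : I ≠ ⊥)
    (hs : ∀ x : K, ∃ u ∈ invSub k K I, x - u ∈ F.Λ (-M)) :
    Nat.card {J : Ideal R // F.Rel M I J} =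
      Nat.card k ^ ((F.ρ : ℤ) * (-M + 1) + ideg k I).toNat := by
  obtain ⟨h1, -, h3⟩ := F.finrank_inv hI (-M)
  rw [h3 hs, Int.toNat_natCast, ← Module.natCard_eq_pow_finrank]
  obtain ⟨u₀, hu₀, hu₀'⟩ := hs 1
  have hex : ∀ w : ↥(invSub k K I ⊓ F.Λ (-M)), ∃ J : Ideal R,
      (J : FractionalIdeal R⁰ K) = spanSingleton R⁰ (u₀ + w) * I := fun w =>
    le_one_iff_exists_coeIdeal.1 ((mem_invSub_iff_le hI).1 (add_mem hu₀ w.2.1))
  choose f hf using hex
  have hnear : ∀ w : ↥(invSub k K I ⊓ F.Λ (-M)), F.Near M (u₀ + w) := fun w => by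
    have := sub_mem w.2.2 hu₀'
    unfold Near
    convert this using 1
    ring
  symm
  refine Nat.card_congr (Equiv.ofBijective (fun w => ⟨f w, _, hnear w, hf w⟩) ⟨?_, ?_⟩)
  · intro w w' h
    have h' : f w = f w' := congrArg Subtype.val h
    have h2 := hf w
    rw [h', hf w', mul_left_inj' (coeIdeal_ne_zero.2 hI), spanSingleton_eq_spanSingleton] at h2
    obtain ⟨z, hz⟩ := h2
    have hz' : algebraMap R K z = (u₀ + w) * (u₀ + w')⁻¹ := by
      rw [← hz, Units.smul_def, Algebra.smul_def, mul_inv_cancel_right₀ ((hnear w').ne_zero hM)]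
    have hz1 : (z : R) = 1 := by
      apply Near.eq_one hM
      rw [hz']
      exact (hnear w).mul hM ((hnear w').inv hM)
    rw [Units.smul_def, hz1, one_smul, add_right_inj] at hz
    exact Subtype.ext hz.symm
  · rintro ⟨J, u, hu, hJ⟩
    have h1 : u ∈ invSub k K I := by
      rw [mem_invSub_iff_le hI, ← hJ]
      exact coeIdeal_le_one
    have h2 : u - u₀ ∈ F.Λ (-M) := by
      have := add_mem hu hu₀'
      convert this using 1
      ring
    refine ⟨⟨u - u₀, sub_mem h1 hu₀, h2⟩, Subtype.ext ?_⟩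
    apply coeIdeal_injective (K := K)
    simp only
    rw [hf, hJ]
    simp

lemma exists_rel_mul {A : Ideal R} (hA : A ≠ ⊥) : ∃ d₀ : ℕ, ∀ J : Ideal R, J ≠ ⊥ →
    d₀ ≤ ideg k J → ∃ I : Ideal R, F.Rel M J (I * A) := by
  obtain ⟨t, htA, ht, n, hn⟩ := F.scal A hA
  have ht' : algebraMap R K t ≠ 0 := by simpa using ht
  obtain ⟨d₀, hd₀⟩ := F.exists_surj (-M - n)
  refine ⟨d₀, fun J hJ hd => ?_⟩
  obtain ⟨u, hu, hu'⟩ := hd₀ J hJ hd (algebraMap R K t)⁻¹
  rw [hn, mul_sub, mul_inv_cancel₀ ht', sub_add_cancel] at hu'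
  obtain ⟨J', hJ'⟩ := le_one_iff_exists_coeIdeal.1 ((mem_invSub_iff_le hJ).1 hu)
  obtain ⟨B, hB⟩ : A ∣ Ideal.span {t} := Ideal.dvd_iff_le.2 (by simpa using htA)
  refine ⟨B * J', algebraMap R K t * u, ?_, ?_⟩
  · unfold Near
    rw [← neg_sub]
    exact neg_mem hu'
  · rw [show B * J' * A = A * B * J' by ring, ← hB, coeIdeal_mul, hJ', coeIdeal_span_singleton,
      ← mul_assoc, spanSingleton_mul_spanSingleton]

theorem coeff_lser_add {Ω : Type*} [CommRing Ω] [IsDomain Ω] [CharZero Ω]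
    (hM : (F.κ : ℤ) < M) {ψ : Ideal R → Ω} (hψ : IsMult ψ)
    (hrel : ∀ I J : Ideal R, I ≠ ⊥ → F.Rel M I J → ψ I = ψ J) {A : Ideal R} (hA : A ≠ ⊥) :
    ∃ d₀ : ℕ, ∀ d, d₀ ≤ d → PowerSeries.coeff (d + ideg k A) (lser k ψ) =
      (Nat.card k : Ω) ^ ideg k A * ψ A * PowerSeries.coeff d (lser k ψ) := by
  classical
  obtain ⟨d₁, hd₁⟩ := F.exists_surj (-M)
  obtain ⟨d₂, hd₂⟩ := F.exists_rel_mul (M := M) hA
  refine ⟨max (max d₁ d₂) (-((F.ρ : ℤ) * (-M + 1))).toNat, fun d hd => ?_⟩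
  have h1 : d₁ ≤ d := (le_max_left _ _).trans ((le_max_left _ _).trans hd)
  have h2 : d₂ ≤ d := (le_max_right _ _).trans ((le_max_left _ _).trans hd)
  have h3 : (-((F.ρ : ℤ) * (-M + 1))).toNat ≤ d := (le_max_right _ _).trans hd
  set δ := ideg k A with hδ
  set e := ((F.ρ : ℤ) * (-M + 1) + d).toNat with he
  have hcard : ∀ (I : Ideal R) (d' : ℕ), I ∈ idealsOfDeg k R d' → d ≤ d' →
      ((idealsOfDeg k R d').filter (F.Rel M I)).card = Nat.card k ^ (e + (d' - d)) := by
    intro I d' hI hd'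
    rw [mem_idealsOfDeg] at hI
    have := card_rel hM hI.1 (hd₁ I hI.1 (by omega))
    rw [show e + (d' - d) = ((F.ρ : ℤ) * (-M + 1) + ideg k I).toNat by omega, ← this,
      ← Nat.card_eq_finsetCard]
    refine Nat.card_congr (Equiv.subtypeEquivRight fun J => ?_)
    rw [Finset.mem_filter, mem_idealsOfDeg]
    exact ⟨fun h => h.2, fun h => ⟨⟨h.ne_bot hM hI.1, (h.ideg_eq hM hI.1).trans hI.2⟩, h⟩⟩
  have hsum : ∑ I ∈ idealsOfDeg k R d, ∑ J ∈ (idealsOfDeg k R (d + δ)).filter (F.Rel M (I * A)),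
      ψ J = ∑ J ∈ idealsOfDeg k R (d + δ),
        ∑ I ∈ (idealsOfDeg k R d).filter (fun I => F.Rel M (I * A) J), ψ J := by
    simp only [Finset.sum_filter]
    exact Finset.sum_comm
  have hL : ∀ I ∈ idealsOfDeg k R d,
      ∑ J ∈ (idealsOfDeg k R (d + δ)).filter (F.Rel M (I * A)), ψ J =
        (Nat.card k : Ω) ^ (e + δ) * (ψ A * ψ I) := by
    intro I hI
    have hI' := (mem_idealsOfDeg k).1 hI
    have hIA : I * A ≠ ⊥ := mul_ne_zero hI'.1 hA
    rw [Finset.sum_congr rfl (g := fun _ => ψ A * ψ I), Finset.sum_const,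
      hcard (I * A) (d + δ) ((mem_idealsOfDeg k).2 ⟨hIA, by rw [ideg_mul k hI'.1 hA, hI'.2]⟩)
        (by omega), nsmul_eq_mul, Nat.add_sub_cancel_left]
    · push_cast; rfl
    · intro J hJ
      rw [← hrel _ _ hIA (Finset.mem_filter.1 hJ).2, hψ.mul _ _ hI'.1 hA, mul_comm]
  have hR : ∀ J ∈ idealsOfDeg k R (d + δ),
      ∑ I ∈ (idealsOfDeg k R d).filter (fun I => F.Rel M (I * A) J), ψ J =
        (Nat.card k : Ω) ^ e * ψ J := by
    intro J hJ
    have hJ' := (mem_idealsOfDeg k).1 hJ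
    obtain ⟨I₀, hI₀⟩ := hd₂ J hJ'.1 (by omega)
    have hI₀A := hI₀.ne_bot hM hJ'.1
    have hI₀0 : I₀ ≠ ⊥ := left_ne_zero_of_mul hI₀A
    have hdeg := hI₀.ideg_eq hM hJ'.1
    rw [ideg_mul k hI₀0 hA, hJ'.2] at hdeg
    have : (idealsOfDeg k R d).filter (fun I => F.Rel M (I * A) J) =
        (idealsOfDeg k R d).filter (F.Rel M I₀) := by
      refine Finset.filter_congr fun I _ => ?_
      rw [← rel_mul_iff (I := I₀) hA]
      exact ⟨fun h => (h.trans hM hI₀).symm hM, fun h => (hI₀.trans hM h).symm hM⟩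
    rw [Finset.sum_const, this, hcard I₀ d ((mem_idealsOfDeg k).2 ⟨hI₀0, by omega⟩) le_rfl,
      nsmul_eq_mul]
    simp
  rw [Finset.sum_congr rfl hL, Finset.sum_congr rfl hR, ← Finset.mul_sum, ← Finset.mul_sum,
    ← Finset.mul_sum, pow_add, mul_assoc] at hsum
  have hq : (Nat.card k : Ω) ^ e ≠ 0 := pow_ne_zero _ (by exact_mod_cast Nat.card_pos.ne')
  rw [coeff_lser, coeff_lser, mul_assoc]
  exact (mul_left_cancel₀ hq hsum).symm

end Filt

end Pool.Agent.MP_51ecca_nt

end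

section

set_option linter.unusedSectionVars false

namespace Pool.Agent.MP_51ecca_nt

open PowerSeries IsDedekindDomain

lemma exists_poly_of_eventually_zero {Ω : Type*} [CommRing Ω] (f : Ω⟦X⟧) (d₀ : ℕ)
    (h : ∀ d, d₀ ≤ d → coeff d f = 0) : ∃ Q : Polynomial Ω, (Q : Ω⟦X⟧) = f := by
  refine ⟨trunc d₀ f, ?_⟩
  ext d
  rw [Polynomial.coeff_coe, coeff_trunc]
  split_ifs with hd
  · rfl
  · exact (h d (by omega)).symm

lemma constantCoeff_geom {Ω : Type*} [CommRing Ω] (a : Ω) (d : ℕ) :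
    constantCoeff (geom a d) = 0 := by
  rw [← coeff_zero_eq_constantCoeff_apply, coeff_geom]
  simp

namespace Filt

variable {k R K : Type*} [Field k] [Finite k] [CommRing R] [IsDedekindDomain R] [Infinite R]
  [Ring.HasFiniteQuotients R] [Field K] [Algebra k K] [Algebra R K] [Algebra k R]
  [IsScalarTower k R K] [IsFractionRing R K] (F : Filt k R K)

lemma rho_pos : 0 < F.ρ := by
  obtain ⟨j, hj⟩ := F.exhaust (algebraMap R K 1)
  have h1 : (1 : R) ∈ F.V (j.toNat + 1) := F.mem_V.2 (F.mono (by push_cast; omega) hj)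
  have : Nontrivial (F.V (j.toNat + 1)) := ⟨⟨⟨1, h1⟩, 0, by simp⟩⟩
  have h2 : 0 < Module.finrank k (F.V (j.toNat + 1)) := Module.finrank_pos
  rw [F.finrank_V] at h2
  exact Nat.pos_of_mul_pos_right h2

lemma exists_ideg_eq_rho : ∃ A : Ideal R, A ≠ ⊥ ∧ ideg k A = F.ρ := by
  obtain ⟨t, ht, h⟩ := F.exists_deg_one
  exact ⟨Ideal.span {t}, by simpa using ht, by simpa using F.ideg_span ht (n := 1) h⟩

lemma exists_poly_lser {Ω : Type*} [CommRing Ω] [IsDomain Ω] [CharZero Ω] {M : ℤ}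
    (hM : (F.κ : ℤ) < M) {ψ : Ideal R → Ω} (hψ : IsMult ψ)
    (hrel : ∀ I J : Ideal R, I ≠ ⊥ → F.Rel M I J → ψ I = ψ J) {A A' : Ideal R} (hA : A ≠ ⊥)
    (hA' : A' ≠ ⊥) (hd : ideg k A = ideg k A') (hne : ψ A ≠ ψ A') :
    ∃ L : Polynomial Ω, (L : Ω⟦X⟧) = lser k ψ := by
  obtain ⟨d₁, h₁⟩ := coeff_lser_add hM hψ hrel hA
  obtain ⟨d₂, h₂⟩ := coeff_lser_add hM hψ hrel hA'
  refine exists_poly_of_eventually_zero _ (max d₁ d₂) fun d hd' => ?_
  have e := (h₁ d (le_of_max_le_left hd')).symm.trans (hd ▸ h₂ d (le_of_max_le_right hd'))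
  have hq : (Nat.card k : Ω) ^ ideg k A ≠ 0 := pow_ne_zero _ (by exact_mod_cast Nat.card_pos.ne')
  rw [mul_assoc, mul_assoc, mul_right_inj' hq, mul_eq_mul_right_iff] at e
  exact e.resolve_left hne

include F in
lemma coeff_zeta_add {A : Ideal R} (hA : A ≠ ⊥) : ∃ d₀ : ℕ, ∀ d, d₀ ≤ d →
    coeff (d + ideg k A) (lser k fun _ : Ideal R => (1 : ℚ)) =
      (Nat.card k : ℚ) ^ ideg k A * coeff d (lser k fun _ : Ideal R => (1 : ℚ)) := by
  simpa using coeff_lser_add (F := F) (M := F.κ + 1) (by omega) (IsMult.one (M := ℚ))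
    (fun _ _ _ _ => rfl) hA

include F in
lemma exists_poly_zeta {A : Ideal R} (hA : A ≠ ⊥) (hpos : 0 < ideg k A) :
    ∃ Q : Polynomial ℚ, (Q : ℚ⟦X⟧) =
      (1 - C ((Nat.card k : ℚ) ^ ideg k A) * X ^ ideg k A) * lser k (fun _ : Ideal R => (1 : ℚ)) ∧
      Q.eval (Nat.card k : ℚ)⁻¹ ≠ 0 := by
  obtain ⟨d₀, hd₀⟩ := F.coeff_zeta_add hA
  set δ := ideg k A with hδ
  set Z := lser k (fun _ : Ideal R => (1 : ℚ)) with hZ
  set q : ℚ := (Nat.card k : ℚ) with hq
  have hq0 : 0 < q := by rw [hq]; exact_mod_cast Nat.card_pos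
  obtain ⟨Q, hQ⟩ := exists_poly_of_eventually_zero ((1 - C (q ^ δ) * X ^ δ) * Z) (d₀ + δ)
    fun d hd => by
      obtain ⟨d, rfl⟩ : ∃ d', d = d' + δ := ⟨d - δ, by omega⟩
      rw [sub_mul, one_mul, map_sub, mul_assoc, coeff_C_mul, coeff_X_pow_mul, hd₀ d (by omega),
        sub_self]
  refine ⟨Q, hQ, fun h0 => ?_⟩
  obtain ⟨Q₁, hQ₁⟩ := Polynomial.dvd_iff_isRoot.2 h0
  have hne : (X - C q⁻¹ : ℚ⟦X⟧) ≠ 0 := by
    intro h
    have := congrArg (coeff 1) h
    simp [coeff_one_X] at this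
  have h1 : (∑ i ∈ Finset.range δ, C (q ^ (i + 1)) * X ^ i) * Z = -(Q₁ : ℚ⟦X⟧) := by
    apply mul_left_cancel₀ hne
    rw [mul_neg, ← Polynomial.coe_X, ← Polynomial.coe_C, ← Polynomial.coe_sub, ← Polynomial.coe_mul,
      ← hQ₁, hQ, Polynomial.coe_sub, Polynomial.coe_X, Polynomial.coe_C, ← mul_assoc, ← neg_mul]
    congr 1
    have h2 := mul_geom_sum (C q * X : ℚ⟦X⟧) δ
    have h3 : (X - C q⁻¹ : ℚ⟦X⟧) * C q = C q * X - 1 := by
      rw [sub_mul, ← map_mul, inv_mul_cancel₀ hq0.ne', map_one, mul_comm]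
    rw [neg_sub, map_pow, ← mul_pow, ← h2, ← h3, mul_assoc (X - C q⁻¹ : ℚ⟦X⟧)]
    congr 1
    rw [Finset.mul_sum]
    refine Finset.sum_congr rfl fun i _ => ?_
    rw [mul_pow, map_pow, pow_succ', mul_assoc]
  have hnn : ∀ d, 0 ≤ coeff d Z := fun d => by
    rw [hZ, coeff_lser]
    positivity
  have h4 := congrArg (coeff ((Q₁.natDegree + 1) * δ)) h1
  rw [map_neg, Polynomial.coeff_coe, Polynomial.coeff_eq_zero_of_natDegree_lt (by nlinarith),
    neg_zero, Finset.sum_mul, map_sum, Finset.sum_eq_zero_iff_of_nonneg] at h4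
  · have h5 := h4 0 (Finset.mem_range.2 hpos)
    rw [pow_zero, mul_one, coeff_C_mul, mul_eq_zero, hZ, coeff_lser] at h5
    refine h5.elim (by positivity) fun h6 => ?_
    rw [Finset.sum_const, nsmul_eq_mul, mul_one, Nat.cast_eq_zero, Finset.card_eq_zero] at h6
    have : A ^ (Q₁.natDegree + 1) ∈ idealsOfDeg k R ((Q₁.natDegree + 1) * δ) :=
      (mem_idealsOfDeg k).2 ⟨pow_ne_zero _ hA, ideg_pow k hA _⟩
    simp [h6] at this
  · intro i _
    rw [mul_assoc, coeff_C_mul, coeff_X_pow_mul']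
    split_ifs
    · exact mul_nonneg (by positivity) (hnn _)
    · simp

end Filt

section Galois

variable (k : Type*) {R B G : Type*} [Field k] [Finite k] [CommRing R] [CommRing B]
  [IsDedekindDomain R] [IsDedekindDomain B] [Infinite R] [Infinite B]
  [Ring.HasFiniteQuotients R] [Ring.HasFiniteQuotients B]
  [Algebra R B] [Algebra.IsIntegral R B] [Algebra k R] [Algebra k B] [IsScalarTower k R B]

lemma pdeg_eq_mul (w : HeightOneSpectrum B) :
    pdeg k w = pdeg k (w.under R) * w.asIdeal.inertiaDeg R := by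
  have := w.isMaximal
  have : (w.asIdeal.under R).IsMaximal := (w.under R).isMaximal
  let : Field (R ⧸ w.asIdeal.under R) := Ideal.Quotient.field _
  rw [Ideal.inertiaDeg_eq_of_isMaximal (w.asIdeal.under R)]
  exact (Module.finrank_mul_finrank k (R ⧸ w.asIdeal.under R) (B ⧸ w.asIdeal)).symm

variable [FaithfulSMul R B]

variable (B) in
lemma finite_fiber (v : HeightOneSpectrum R) :
    {w : HeightOneSpectrum B | w.under R = v}.Finite := by
  obtain ⟨t, htv, ht⟩ := Submodule.exists_mem_ne_zero_of_ne_bot v.ne_bot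
  refine (Ring.HasFiniteQuotients.finite_setOfPred_mem (algebraMap R B t)
    (by simpa using ht)).of_injOn (f := fun w => w.asIdeal) ?_ ?_
  · rintro w rfl
    exact htv
  · intro v _ w _ h
    exact HeightOneSpectrum.ext h

variable (B) in
/-- The primes above a given prime. -/
noncomputable def fiber (v : HeightOneSpectrum R) : Finset (HeightOneSpectrum B) :=
  (finite_fiber B v).toFinset

lemma mem_fiber {v : HeightOneSpectrum R} {w : HeightOneSpectrum B} :
    w ∈ fiber B v ↔ w.under R = v := by simp [fiber]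

lemma card_fiber (v : HeightOneSpectrum R) :
    (fiber B v).card = (v.asIdeal.primesOver B).ncard := by
  rw [← Set.ncard_coe_finset]
  refine Set.ncard_congr (fun w _ => w.asIdeal) ?_ ?_ ?_
  · intro w hw
    rw [Finset.mem_coe, mem_fiber] at hw
    subst hw
    exact ⟨w.isPrime, ⟨rfl⟩⟩
  · intro v w _ _ h
    exact HeightOneSpectrum.ext h
  · rintro P ⟨h1, h2⟩
    refine ⟨⟨P, h1, Ideal.ne_bot_of_liesOver_of_ne_bot v.ne_bot P⟩, ?_, rfl⟩
    rw [Finset.mem_coe, mem_fiber]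
    exact HeightOneSpectrum.ext h2.over.symm

lemma coeff_psum_eq_sum_fiber {Ω : Type*} [CommRing Ω] {r : ℕ} (T : Finset (HeightOneSpectrum R))
    (hT : ∀ v, pdeg k v ≤ r → v ∈ T) :
    coeff r (psum (pdeg k) fun _ : HeightOneSpectrum B => (1 : Ω)) =
      ∑ v ∈ T, ∑ w ∈ fiber B v, coeff r (geom (1 : Ω) (pdeg k w)) := by
  classical
  rw [← Finset.sum_biUnion]
  · refine coeff_psum _ _ _ fun w hw => ?_
    refine Finset.mem_biUnion.2 ⟨w.under R, hT _ ?_, mem_fiber.2 rfl⟩
    have h1 := pdeg_eq_mul k (R := R) w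
    have h2 := pdeg_pos k w
    rw [h1] at h2 hw
    exact (Nat.le_mul_of_pos_right _ (Nat.pos_of_mul_pos_left h2)).trans hw
  · intro v _ v' _ hne
    rw [Function.onFun, Finset.disjoint_left]
    intro w h h'
    exact hne ((mem_fiber.1 h).symm.trans (mem_fiber.1 h'))

variable [Group G] [Finite G] [MulSemiringAction G B] [IsGaloisGroup G R B]

omit [Algebra k R] [Algebra k B] [IsScalarTower k R B] in
lemma frob_pow_eq_one_iff (w : HeightOneSpectrum B) (hin : w.asIdeal.inertia G = ⊥) {σ : G}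
    (hσ : IsArithFrobAt R σ w.asIdeal) (m : ℕ) : σ ^ m = 1 ↔ w.asIdeal.inertiaDeg R ∣ m := by
  have := w.isMaximal
  have : (w.asIdeal.under R).IsMaximal := (w.under R).isMaximal
  let : Field (R ⧸ w.asIdeal.under R) := Ideal.Quotient.field _
  let : Field (B ⧸ w.asIdeal) := Ideal.Quotient.field _
  have := Ring.HasFiniteQuotients.finiteQuotient w.ne_bot
  have : Finite (R ⧸ w.asIdeal.under R) :=
    Ring.HasFiniteQuotients.finiteQuotient (w.under R).ne_bot
  let := Fintype.ofFinite (R ⧸ w.asIdeal.under R)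
  have key : ∀ (m : ℕ) (x : B), Ideal.Quotient.mk w.asIdeal (σ ^ m • x) =
      (FiniteField.frobeniusAlgHom (R ⧸ w.asIdeal.under R) (B ⧸ w.asIdeal) ^ m)
        (Ideal.Quotient.mk w.asIdeal x) := by
    intro m x
    induction m with
    | zero => simp
    | succ m ih =>
      rw [pow_succ', pow_succ', mul_smul, AlgHom.mul_apply, ← ih,
        FiniteField.coe_frobeniusAlgHom, ← Nat.card_eq_fintype_card]
      exact hσ.mk_apply _
  rw [Ideal.inertiaDeg_eq_of_isMaximal (w.asIdeal.under R), ← FiniteField.orderOf_frobeniusAlgHom,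
    orderOf_dvd_iff_pow_eq_one]
  constructor
  · intro h
    ext1 x
    obtain ⟨x, rfl⟩ := Ideal.Quotient.mk_surjective x
    rw [← key, h, one_smul, AlgHom.one_apply]
  · intro h
    rw [← Subgroup.mem_bot, ← hin]
    intro x
    have := key m x
    rw [h, AlgHom.one_apply, Ideal.Quotient.eq] at this
    exact this

open Classical in
lemma sum_fiber_geom {Ω : Type*} [CommRing Ω] (v : HeightOneSpectrum R) {σ : G}
    (hin : ∀ w : HeightOneSpectrum B, w.under R = v → w.asIdeal.inertia G = ⊥)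
    (hσ : ∀ w : HeightOneSpectrum B, w.under R = v → IsArithFrobAt R σ w.asIdeal) (r : ℕ) :
    ∑ w ∈ fiber B v, coeff r (geom (1 : Ω) (pdeg k w)) =
      if σ ^ (r / pdeg k v) = 1 then (Nat.card G : Ω) * coeff r (geom (1 : Ω) (pdeg k v))
      else 0 := by
  have hf : ∀ w ∈ fiber B v, w.asIdeal.inertiaDeg R = orderOf σ := fun w hw =>
    Nat.dvd_antisymm
      ((frob_pow_eq_one_iff w (hin w (mem_fiber.1 hw)) (hσ w (mem_fiber.1 hw)) _).1
        (pow_orderOf_eq_one σ))
      (orderOf_dvd_of_pow_eq_one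
        ((frob_pow_eq_one_iff w (hin w (mem_fiber.1 hw)) (hσ w (mem_fiber.1 hw)) _).2 dvd_rfl))
  have hd : ∀ w ∈ fiber B v, pdeg k w = pdeg k v * orderOf σ := fun w hw => by
    rw [pdeg_eq_mul k (R := R) w, mem_fiber.1 hw, hf w hw]
  have hcard : (fiber B v).card * orderOf σ = Nat.card G := by
    have := v.isMaximal
    obtain ⟨P, hP, hPv⟩ := Ideal.exists_maximal_ideal_liesOver_of_isIntegral (S := B) v.asIdeal
    let w : HeightOneSpectrum B := ⟨P, hP.isPrime, Ideal.ne_bot_of_liesOver_of_ne_bot v.ne_bot P⟩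
    have hw : w.under R = v := HeightOneSpectrum.ext hPv.over.symm
    have := Ring.HasFiniteQuotients.finiteQuotient v.ne_bot
    have h1 := Ideal.ncard_primesOver_mul_card_inertia_mul_finrank (G := G) v.asIdeal P
    have h2 : P.inertia G = ⊥ := hin w hw
    have h3 : P.inertiaDeg R = orderOf σ := hf w (mem_fiber.2 hw)
    rw [h2, h3, Subgroup.card_bot, mul_one, ← card_fiber] at h1
    exact h1
  rw [Finset.sum_congr rfl fun w hw => by rw [hd w hw], Finset.sum_const, coeff_geom, coeff_geom,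
    ← hcard, ← orderOf_dvd_iff_pow_eq_one]
  by_cases h1 : r ≠ 0 ∧ pdeg k v ∣ r
  · rw [if_pos h1]
    by_cases h2 : orderOf σ ∣ r / pdeg k v
    · rw [if_pos h2, if_pos ⟨h1.1, (Nat.dvd_div_iff_mul_dvd h1.2).1 h2⟩]
      simp only [one_pow, nsmul_eq_mul]
      push_cast
      ring
    · rw [if_neg h2, if_neg fun h => h2 ((Nat.dvd_div_iff_mul_dvd h1.2).2 h.2), smul_zero]
  · rw [if_neg h1, if_neg fun h => h1 ⟨h.1, (Dvd.intro _ rfl).trans h.2⟩]
    simp

lemma eval_prod_ne_zero {ι : Type*} (T : Finset ι) {deg : ι → ℕ} (hpos : ∀ i, 0 < deg i) :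
    (∏ i ∈ T, (1 - Polynomial.X ^ deg i : Polynomial ℚ)).eval (Nat.card k : ℚ)⁻¹ ≠ 0 := by
  rw [Polynomial.eval_prod, Finset.prod_ne_zero_iff]
  intro i _
  have h1 : (1 : ℚ) < Nat.card k := by exact_mod_cast one_lt_card k
  have h2 : (Nat.card k : ℚ)⁻¹ ^ deg i < 1 :=
    pow_lt_one₀ (by positivity) (inv_lt_one_of_one_lt₀ h1) (hpos i).ne'
  simp only [Polynomial.eval_sub, Polynomial.eval_one, Polynomial.eval_pow, Polynomial.eval_X]
  exact (sub_pos.2 h2).ne'

lemma ld_prod_one_sub {ι Ω : Type*} [CommRing Ω] (T : Finset ι) {deg : ι → ℕ}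
    (hpos : ∀ i, 0 < deg i) :
    LD ((∏ i ∈ T, (1 - Polynomial.X ^ deg i : Polynomial Ω) : Polynomial Ω) : Ω⟦X⟧)
      (-∑ i ∈ T, geom 1 (deg i)) := by
  rw [← Polynomial.coeToPowerSeries.ringHom_apply, map_prod, ← Finset.sum_neg_distrib]
  refine LD.prod T _ _ fun i _ => ?_
  simpa using LD.factor (1 : Ω) (hpos i)

lemma constantCoeff_prod_one_sub {ι Ω : Type*} [CommRing Ω] (T : Finset ι) {deg : ι → ℕ}
    (hpos : ∀ i, 0 < deg i) :
    constantCoeff
      ((∏ i ∈ T, (1 - Polynomial.X ^ deg i : Polynomial Ω) : Polynomial Ω) : Ω⟦X⟧) = 1 := by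
  rw [← Polynomial.coeToPowerSeries.ringHom_apply, map_prod, map_prod]
  refine Finset.prod_eq_one fun i _ => ?_
  simp [(hpos i).ne']

theorem not_finite_nonsplit {K K' : Type*} [Field K] [Algebra k K] [Algebra R K]
    [IsScalarTower k R K] [IsFractionRing R K] [Field K'] [Algebra k K'] [Algebra B K']
    [IsScalarTower k B K'] [IsFractionRing B K'] (F : Filt k R K) (F' : Filt k B K')
    (hin : ∀ w : HeightOneSpectrum B, w.asIdeal.inertia G = ⊥) (hG : 1 < Nat.card G)
    (T : Finset (HeightOneSpectrum R))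
    (hT : ∀ w : HeightOneSpectrum B, w.under R ∉ T → IsArithFrobAt R (1 : G) w.asIdeal) :
    False := by
  classical
  obtain ⟨A, hA, hAd⟩ := F.exists_ideg_eq_rho
  obtain ⟨A', hA', hAd'⟩ := F'.exists_ideg_eq_rho
  have hd : ideg k (A ^ F'.ρ) = F'.ρ * F.ρ := by rw [ideg_pow k hA, hAd]
  have hd' : ideg k (A' ^ F.ρ) = F'.ρ * F.ρ := by rw [ideg_pow k hA', hAd', mul_comm]
  have hpos : 0 < F'.ρ * F.ρ := Nat.mul_pos F'.rho_pos F.rho_pos
  obtain ⟨Q, hQ, hQ0⟩ := F.exists_poly_zeta (pow_ne_zero F'.ρ hA) (hd ▸ hpos)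
  obtain ⟨Q', hQ', -⟩ := F'.exists_poly_zeta (pow_ne_zero F.ρ hA') (hd' ▸ hpos)
  rw [hd] at hQ
  rw [hd'] at hQ'
  set δ := F'.ρ * F.ρ
  set q : ℚ := (Nat.card k : ℚ) with hq
  set Z := lser k fun _ : Ideal R => (1 : ℚ)
  set Z' := lser k fun _ : Ideal B => (1 : ℚ)
  set E : Polynomial ℚ := ∏ v ∈ T, (1 - Polynomial.X ^ pdeg k v) with hE
  set E' : Polynomial ℚ := ∏ w ∈ T.biUnion (fiber B), (1 - Polynomial.X ^ pdeg k w) with hE'
  obtain ⟨m, hm⟩ : ∃ m, Nat.card G = m + 2 := ⟨Nat.card G - 2, by omega⟩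
  have h1 := (ld_lser k (R := B) (IsMult.one (M := ℚ))).mul
    (ld_prod_one_sub (T.biUnion (fiber B)) (pdeg_pos k))
  have h2 := ((ld_lser k (R := R) (IsMult.one (M := ℚ))).mul
    (ld_prod_one_sub T (pdeg_pos k))).pow (m + 2)
  have h3 : Z' * E' = (Z * E) ^ (m + 2) := by
    refine LD.unique_left ?_ h1 ?_ ?_
    · simp [constantCoeff_psum, constantCoeff_geom]
    · convert h2 using 1
      ext r
      let U := (finite_pdeg_le k (R := R) r).toFinset ∪ T
      have hU : ∀ v, pdeg k v ≤ r → v ∈ U := fun v hv => by simp [U, hv]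
      have hTU : T ⊆ U := Finset.subset_union_right
      rw [map_add, map_neg, map_sum, coeff_psum_eq_sum_fiber k U hU, Finset.sum_biUnion,
        map_nsmul, map_add, map_neg, map_sum, coeff_psum _ _ U hU, ← sub_eq_add_neg,
        ← sub_eq_add_neg, ← Finset.sum_sdiff_eq_sub hTU, ← Finset.sum_sdiff_eq_sub hTU,
        Finset.smul_sum]
      · refine Finset.sum_congr rfl fun v hv => ?_
        rw [sum_fiber_geom k v (σ := (1 : G)) (fun w _ => hin w)
          (fun w hw => hT w (hw ▸ (Finset.mem_sdiff.1 hv).2)), one_pow, if_pos rfl, hm,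
          nsmul_eq_mul]
      · intro v _ v' _ hne
        rw [Function.onFun, Finset.disjoint_left]
        intro w h h'
        exact hne ((mem_fiber.1 h).symm.trans (mem_fiber.1 h'))
    · rw [map_mul, map_pow, map_mul, constantCoeff_lser k IsMult.one,
        constantCoeff_lser k IsMult.one, constantCoeff_prod_one_sub _ (pdeg_pos k),
        constantCoeff_prod_one_sub _ (pdeg_pos k)]
      simp
  have h4 : Q' * E' * (1 - Polynomial.C (q ^ δ) * Polynomial.X ^ δ) ^ (m + 1) =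
      (Q * E) ^ (m + 2) := by
    apply Polynomial.coe_injective
    simp only [Polynomial.coe_mul, Polynomial.coe_pow, Polynomial.coe_sub, Polynomial.coe_one,
      Polynomial.coe_C, Polynomial.coe_X, hQ, hQ']
    rw [mul_assoc _ Z', h3, mul_assoc _ Z, mul_pow _ (Z * E)]
    ring
  have h5 := congrArg (Polynomial.eval q⁻¹) h4
  have hq0 : q ≠ 0 := by rw [hq]; exact_mod_cast Nat.card_pos.ne'
  simp only [Polynomial.eval_mul, Polynomial.eval_pow, Polynomial.eval_sub, Polynomial.eval_one,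
    Polynomial.eval_C, Polynomial.eval_X] at h5
  rw [← mul_pow, mul_inv_cancel₀ hq0, one_pow, sub_self, zero_pow (by omega), mul_zero] at h5
  exact pow_ne_zero _ (mul_ne_zero hQ0 (eval_prod_ne_zero k T (pdeg_pos k))) h5.symm

end Galois

end Pool.Agent.MP_51ecca_nt

end
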