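import Mathlib
import Pool.Agent.Mg.F43e117.G871b34
import Pool.Agent.MP_51ecca_nt.LogDer

section

set_option linter.unusedSectionVars false

namespace Pool.Agent.MP_51ecca_nt

open MonoidAlgebra
open scoped TensorProduct

section GDet

variable {k G : Type*} [Field k] [CommGroup G] [Fintype G]

lemma eq_sum_single {A : Type*} [Semiring A] (x : MonoidAlgebra A G) :
    x = ∑ g, single g (x.coeff g) := by
  conv_lhs => rw [← sum_coeff_single x]
  rw [Finsupp.sum_fintype _ _ (by simp)]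

lemma coeff_mul_fintype {A : Type*} [Semiring A] (x y : MonoidAlgebra A G) (g : G) :
    (x * y).coeff g = ∑ h, x.coeff h * y.coeff (h⁻¹ * g) := by
  rw [coeff_mul_apply_left, Finsupp.sum_fintype _ _ (by simp)]

variable {W : Type*} [AddCommGroup W] [Module k W]

/-- An element of the group ring over `End W` as an endomorphism over the group ring. -/
noncomputable def bc : MonoidAlgebra (Module.End k W) G →+*
    Module.End (MonoidAlgebra k G) (MonoidAlgebra k G ⊗[k] W) :=
  liftNCRingHom (Module.End.baseChangeHom k (MonoidAlgebra k G) W).toRingHom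
    ((algebraMap (MonoidAlgebra k G)
      (Module.End (MonoidAlgebra k G) (MonoidAlgebra k G ⊗[k] W))).toMonoidHom.comp (of k G))
    (fun _ y => (Algebra.commute_algebraMap_right (of k G y) _))

lemma bc_single (g : G) (T : Module.End k W) :
    bc (single g T) = (single g (1 : k)) • T.baseChange (MonoidAlgebra k G) := by
  rw [Algebra.smul_def]
  exact (liftNCRingHom_single _ _ _ _ _).trans (Algebra.commutes (of k G g) _).symm

/-- The determinant over the group ring. -/
noncomputable def gdet (T : MonoidAlgebra (Module.End k W) G) : MonoidAlgebra k G :=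
  LinearMap.det (bc T)

lemma gdet_one : gdet (1 : MonoidAlgebra (Module.End k W) G) = 1 := by
  simp [gdet]

lemma gdet_mul (T T' : MonoidAlgebra (Module.End k W) G) : gdet (T * T') = gdet T * gdet T' := by
  simp [gdet]

lemma gdet_eq_det {ι : Type*} [Fintype ι] [DecidableEq ι] (b : Module.Basis ι k W)
    (T : MonoidAlgebra (Module.End k W) G) :
    gdet T = (∑ g, (single g (1 : k)) •
      (LinearMap.toMatrix b b (T.coeff g)).map (algebraMap k (MonoidAlgebra k G))).det := by
  rw [gdet, ← LinearMap.det_toMatrix (Algebra.TensorProduct.basis (MonoidAlgebra k G) b)]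
  conv_lhs => rw [eq_sum_single T]
  rw [map_sum, map_sum]
  congr 1
  refine Finset.sum_congr rfl fun g _ => ?_
  rw [bc_single, map_smul, LinearMap.toMatrix_baseChange]

lemma gdet_exact {W₁ W₂ : Type*} [AddCommGroup W₁] [Module k W₁] [AddCommGroup W₂] [Module k W₂]
    [FiniteDimensional k W₁] [FiniteDimensional k W₂] (i : W₁ →ₗ[k] W) (π : W →ₗ[k] W₂)
    (hi : Function.Injective i) (hπ : Function.Surjective π) (hex : Function.Exact i π)
    (T₁ : MonoidAlgebra (Module.End k W₁) G) (T : MonoidAlgebra (Module.End k W) G)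
    (T₂ : MonoidAlgebra (Module.End k W₂) G)
    (h₁ : ∀ g x, T.coeff g (i x) = i (T₁.coeff g x))
    (h₂ : ∀ g x, π (T.coeff g x) = T₂.coeff g (π x)) : gdet T = gdet T₁ * gdet T₂ := by
  classical
  obtain ⟨s, hs⟩ := π.exists_rightInverse_of_surjective (LinearMap.range_eq_top.2 hπ)
  have hs' : ∀ x, π (s x) = x := fun x => LinearMap.congr_fun hs x
  have hπi : ∀ x, π (i x) = 0 := fun x => hex.apply_apply_eq_zero x
  let e : (W₁ × W₂) ≃ₗ[k] W := LinearEquiv.ofBijective (i.coprod s) ⟨by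
    rw [injective_iff_map_eq_zero]
    rintro ⟨x, y⟩ h
    rw [LinearMap.coprod_apply] at h
    have hy : y = 0 := by simpa [hπi, hs'] using congrArg π h
    subst hy
    have hx : x = 0 := hi (by simpa using h)
    simp [hx], by
    intro w
    obtain ⟨x, hx⟩ := (hex (w - s (π w))).1 (by simp [hs'])
    exact ⟨(x, π w), by simp [hx]⟩⟩
  have he : ∀ x y, e (x, y) = i x + s y := fun x y => rfl
  have he2 : ∀ w, (e.symm w).2 = π w := fun w => by
    obtain ⟨⟨x, y⟩, rfl⟩ := e.surjective w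
    rw [e.symm_apply_apply, he, map_add, hπi, hs', zero_add]
  have he1 : ∀ x, e.symm (i x) = (x, 0) := fun x => by
    rw [LinearEquiv.symm_apply_eq, he, map_zero, add_zero]
  let b₁ := Module.finBasis k W₁
  let b₂ := Module.finBasis k W₂
  let b := (b₁.prod b₂).map e
  have hbl : ∀ j, b (Sum.inl j) = i (b₁ j) := fun j => by
    simp [b, he]
  have hbr : ∀ j, π (b (Sum.inr j)) = b₂ j := fun j => by
    simp [b, he, hs']
  have hrep : ∀ w j, b.repr w j = (b₁.prod b₂).repr (e.symm w) j := fun w j => by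
    simp [b]
  rw [gdet_eq_det b, gdet_eq_det b₁, gdet_eq_det b₂, ← Matrix.det_fromBlocks_zero₂₁ _
    (Matrix.toBlocks₁₂ (∑ g, (single g (1 : k)) •
      (LinearMap.toMatrix b b (T.coeff g)).map (algebraMap k (MonoidAlgebra k G))))]
  congr 1
  ext1 u v
  rcases u with u | u <;> rcases v with v | v
  · simp only [Matrix.fromBlocks_apply₁₁, Matrix.sum_apply, Matrix.smul_apply, Matrix.map_apply,
      LinearMap.toMatrix_apply]
    refine Finset.sum_congr rfl fun g _ => ?_
    rw [hbl, h₁, hrep, he1, Module.Basis.prod_repr_inl]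
  · rfl
  · simp only [Matrix.fromBlocks_apply₂₁, Matrix.sum_apply, Matrix.smul_apply, Matrix.map_apply,
      LinearMap.toMatrix_apply, Matrix.zero_apply]
    refine Finset.sum_eq_zero fun g _ => ?_
    rw [hbl, h₁, hrep, he1, Module.Basis.prod_repr_inr]
    simp
  · simp only [Matrix.fromBlocks_apply₂₂, Matrix.sum_apply, Matrix.smul_apply, Matrix.map_apply,
      LinearMap.toMatrix_apply]
    refine Finset.sum_congr rfl fun g _ => ?_
    rw [hrep, Module.Basis.prod_repr_inr, he2, h₂, hbr]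

lemma gdet_equiv {W₁ : Type*} [AddCommGroup W₁] [Module k W₁] [FiniteDimensional k W₁]
    (e : W₁ ≃ₗ[k] W) (T₁ : MonoidAlgebra (Module.End k W₁) G)
    (T : MonoidAlgebra (Module.End k W) G)
    (h₁ : ∀ g x, T.coeff g (e x) = e (T₁.coeff g x)) : gdet T = gdet T₁ := by
  have := gdet_exact (W₂ := Unit) e.toLinearMap 0 e.injective
    (fun x => ⟨0, Subsingleton.elim _ _⟩) (fun x => by simp) T₁ T 1 h₁
    (fun _ _ => Subsingleton.elim _ _)
  rw [this, gdet_one, mul_one]

lemma gdet_unip [FiniteDimensional k W] (X : MonoidAlgebra (Module.End k W) G)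
    (W' : Submodule k W) (h₁ : ∀ g x, X.coeff g x ∈ W') (h₂ : ∀ g, ∀ x ∈ W', X.coeff g x = 0) :
    gdet (1 + X) = 1 := by
  classical
  have := gdet_exact W'.subtype W'.mkQ W'.subtype_injective W'.mkQ_surjective
    (LinearMap.exact_subtype_mkQ W') 1 (1 + X) 1 (fun g x => by
      rw [coeff_add, Finsupp.add_apply, LinearMap.add_apply, h₂ g (W'.subtype x) x.2, add_zero, one_def,
        one_def,
        coeff_single, coeff_single, Finsupp.single_apply, Finsupp.single_apply]
      split_ifs <;> simp) (fun g x => by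
      rw [coeff_add, Finsupp.add_apply, LinearMap.add_apply, map_add,
        (Submodule.Quotient.mk_eq_zero W').2 (h₁ g x) |> (W'.mkQ_apply _).trans, add_zero,
        one_def, one_def, coeff_single, coeff_single, Finsupp.single_apply, Finsupp.single_apply]
      split_ifs <;> simp)
  rw [this, gdet_one, gdet_one, mul_one]

lemma gdet_norm {F F' ι : Type*} [Field F] [Field F'] [Algebra k F] [Algebra k F']
    [FiniteDimensional k F] [Fintype ι] (σ : ι → (F →ₐ[k] F')) (hσ : Function.Injective σ)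
    (hι : Fintype.card ι = Module.finrank k F) (ω : MonoidAlgebra F G) :
    mapRingHom G (algebraMap k F') (gdet (mapRingHom G (Algebra.lmul k F).toRingHom ω)) =
      ∏ j, mapRingHom G (σ j).toRingHom ω := by
  classical
  let b : Module.Basis ι k F := (Module.finBasis k F).reindex
    (Fintype.equivFinOfCardEq hι).symm
  let P : Matrix ι ι F' := Matrix.of fun j i => σ j (b i)
  have hP : IsUnit P := by
    rw [← Matrix.linearIndependent_rows_iff_isUnit]
    have h1 := (linearIndependent_toLinearMap k F F').comp σ hσ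
    exact h1.map' (b.constr F').symm.toLinearMap (LinearEquiv.ker _)
  let P' := P.map (algebraMap F' (MonoidAlgebra F' G))
  have hP' : IsUnit P'.det := by
    have := (RingHom.map_det (algebraMap F' (MonoidAlgebra F' G)) P)
    rw [RingHom.mapMatrix_apply] at this
    rw [← this]
    exact ((Matrix.isUnit_iff_isUnit_det P).1 hP).map _
  rw [gdet_eq_det b, RingHom.map_det, ← Matrix.det_diagonal, ← hP'.mul_right_inj,
    ← Matrix.det_mul, mul_comm P'.det, ← Matrix.det_mul]
  congr 1
  ext1 j i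
  rw [Matrix.diagonal_mul, Matrix.mul_apply]
  conv_rhs => rw [eq_sum_single ω, map_sum, Finset.sum_mul]
  simp only [RingHom.mapMatrix_apply, Matrix.map_apply, Matrix.sum_apply, Matrix.smul_apply,
    map_sum, Finset.mul_sum, P', P, Matrix.of_apply, LinearMap.toMatrix_apply, coeff_mapRingHom]
  rw [Finset.sum_comm]
  refine Finset.sum_congr rfl fun g _ => ?_
  have h := congrArg (σ j) (b.sum_repr (ω.coeff g * b i))
  rw [map_sum, map_mul (σ j)] at h
  simp only [smul_eq_mul, mapRingHom_single, coe_algebraMap, Function.comp_apply,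
    single_mul_single, mul_one, one_mul, Algebra.algebraMap_self, RingHom.id_apply]
  erw [← h]
  rw [← singleAddHom_apply, map_sum]
  refine Finset.sum_congr rfl fun l _ => ?_
  rw [singleAddHom_apply, map_smul, Algebra.smul_def, mul_comm]
  rfl

end GDet

end Pool.Agent.MP_51ecca_nt

end

section

set_option linter.unusedSectionVars false

namespace Pool.Agent.MP_51ecca_nt

open MonoidAlgebra
open scoped nonZeroDivisors

section DD

variable (k : Type*) [Field k] {R : Type*} [CommRing R] [Algebra k R]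
  {G : Type*} [CommGroup G] [Fintype G]

/-- Multiplication action on a quotient ring. -/
noncomputable def actQ (I : Ideal R) : R →+* Module.End k (R ⧸ I) :=
  (Algebra.lsmul k k (R ⧸ I)).toRingHom

lemma actQ_mk (I : Ideal R) (r x : R) :
    actQ k I r (Ideal.Quotient.mk I x) = Ideal.Quotient.mk I (r * x) := rfl

/-- The determinant of `ω` acting on `R ⧸ I`. -/
noncomputable def DD (ω : MonoidAlgebra R G) (I : Ideal R) : MonoidAlgebra k G :=
  gdet (mapRingHom G (actQ k I) ω)

lemma DD_top (ω : MonoidAlgebra R G) : DD k ω ⊤ = 1 := by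
  have : Subsingleton (R ⧸ (⊤ : Ideal R)) := Ideal.Quotient.subsingleton_iff.2 rfl
  have h : mapRingHom G (actQ k ⊤) ω = 1 := by
    ext1
    exact Subsingleton.elim _ _
  rw [DD, h, gdet_one]

variable [Ring.HasFiniteQuotients R] [IsDedekindDomain R] [Finite k]

lemma DD_mul_prime (ω : MonoidAlgebra R G) {I P : Ideal R} (hI : I ≠ ⊥) (hP0 : P ≠ ⊥)
    (hP : P.IsPrime) : DD k ω (P * I) = DD k ω P * DD k ω I := by
  have := finiteDimensional_quot k hI
  have := finiteDimensional_quot k hP0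
  have hmax : P.IsMaximal := hP.isMaximal hP0
  have hlt : P * I < I := by
    refine lt_of_le_of_ne Ideal.mul_le_right fun h => hP.ne_top ?_
    have : P * I = ⊤ * I := by rw [h, Ideal.top_mul]
    exact mul_right_cancel₀ hI this
  obtain ⟨b, hbI, hb⟩ := SetLike.exists_of_lt hlt
  obtain ⟨C, hC⟩ : I ∣ Ideal.span {b} := Ideal.dvd_iff_le.2 (by simpa using hbI)
  have hPC : ¬ P ∣ C := fun h => hb (by
    rw [← Ideal.span_singleton_le_iff_mem, ← Ideal.dvd_iff_le, hC, mul_comm P]
    exact mul_dvd_mul_left I h)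
  have hker : ∀ x, b * x ∈ P * I ↔ x ∈ P := by
    intro x
    rw [← Ideal.span_singleton_le_iff_mem, ← Ideal.dvd_iff_le,
      ← Ideal.span_singleton_mul_span_singleton, hC, mul_comm P, mul_assoc,
      mul_dvd_mul_iff_left hI, (Ideal.prime_of_isPrime hP0 hP).dvd_mul, Ideal.dvd_iff_le,
      Ideal.dvd_iff_le, Ideal.span_singleton_le_iff_mem, ← Ideal.dvd_iff_le]
    exact or_iff_right hPC
  have hsup : Ideal.span {b} ⊔ P * I = I := by
    have : C ⊔ P = ⊤ := by
      rw [sup_comm]
      exact hmax.out.2 _ (left_lt_sup.2 fun h => hPC (Ideal.dvd_iff_le.2 h))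
    rw [hC, mul_comm P, ← Ideal.mul_sup, this, Ideal.mul_top]
  let i : (R ⧸ P) →ₗ[R] (R ⧸ P * I) :=
    Submodule.mapQ P (P * I) (LinearMap.mulLeft R b) fun x hx => (hker x).2 hx
  have hi : ∀ x, i (Ideal.Quotient.mk P x) = Ideal.Quotient.mk (P * I) (b * x) := fun x => rfl
  let π : (R ⧸ P * I) →ₗ[R] (R ⧸ I) :=
    Submodule.mapQ (P * I) I LinearMap.id fun x hx => hlt.le hx
  have hπ : ∀ x, π (Ideal.Quotient.mk (P * I) x) = Ideal.Quotient.mk I x := fun x => rfl
  refine gdet_exact (i.restrictScalars k) (π.restrictScalars k) ?_ ?_ ?_ _ _ _ ?_ ?_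
  · rw [injective_iff_map_eq_zero]
    intro x hx
    obtain ⟨x, rfl⟩ := Ideal.Quotient.mk_surjective x
    rw [LinearMap.restrictScalars_apply, hi, Ideal.Quotient.eq_zero_iff_mem, hker] at hx
    exact Ideal.Quotient.eq_zero_iff_mem.2 hx
  · intro x
    obtain ⟨x, rfl⟩ := Ideal.Quotient.mk_surjective x
    exact ⟨Ideal.Quotient.mk _ x, rfl⟩
  · intro x
    obtain ⟨x, rfl⟩ := Ideal.Quotient.mk_surjective x
    rw [LinearMap.restrictScalars_apply, hπ, Ideal.Quotient.eq_zero_iff_mem]
    constructor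
    · intro hx
      rw [← hsup, Ideal.mem_span_singleton_sup] at hx
      obtain ⟨y, z, hz, rfl⟩ := hx
      refine ⟨Ideal.Quotient.mk _ y, ?_⟩
      rw [LinearMap.restrictScalars_apply, hi, Ideal.Quotient.eq]
      simpa [mul_comm] using hz
    · rintro ⟨y, hy⟩
      obtain ⟨y, rfl⟩ := Ideal.Quotient.mk_surjective y
      rw [LinearMap.restrictScalars_apply, hi, Ideal.Quotient.eq] at hy
      have := sub_mem (I.mul_mem_right y hbI) (hlt.le hy)
      simpa using this
  · intro g x
    obtain ⟨x, rfl⟩ := Ideal.Quotient.mk_surjective x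
    simp only [coeff_mapRingHom, LinearMap.restrictScalars_apply, hi, actQ_mk, mul_left_comm]
  · intro g x
    obtain ⟨x, rfl⟩ := Ideal.Quotient.mk_surjective x
    simp only [coeff_mapRingHom, LinearMap.restrictScalars_apply, hπ, actQ_mk]

lemma isMult_DD (ω : MonoidAlgebra R G) : IsMult (DD k ω) := by
  refine ⟨DD_top k ω, fun I J hI hJ => ?_⟩
  induction I using UniqueFactorizationMonoid.induction_on_prime with
  | h₁ => exact absurd rfl hI
  | h₂ I hu => rw [Ideal.isUnit_iff.1 hu, Ideal.top_mul, DD_top, one_mul]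
  | h₃ I P hI' hP ih =>
    rw [mul_assoc, DD_mul_prime k ω (mul_ne_zero hI' hJ) hP.ne_zero (Ideal.isPrime_of_prime hP),
      DD_mul_prime k ω hI' hP.ne_zero (Ideal.isPrime_of_prime hP), ih hI', mul_assoc]

end DD

namespace Filt

variable {k R K : Type*} [Field k] [Finite k] [CommRing R] [IsDedekindDomain R] [Infinite R]
  [Ring.HasFiniteQuotients R] [Field K] [Algebra k K] [Algebra R K] [Algebra k R]
  [IsScalarTower k R K] [IsFractionRing R K] (F : Filt k R K)
  {G : Type*} [CommGroup G] [Fintype G]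

lemma exists_act {a : R} (ha : a ≠ 0) (U : Submodule k R)
    (hU : ∀ x, x ∈ U ↔ algebraMap R K x / algebraMap R K a ∈ F.Λ (-1)) :
    FiniteDimensional k U ∧ ∃ ρ : R →+* Module.End k U,
      (∀ (r : R) (x z : U), ρ r x = z ↔ a ∣ (z : R) - r * x) ∧
      ∀ ω : MonoidAlgebra R G, DD k ω (Ideal.span {a}) = gdet (mapRingHom G ρ ω) := by
  have ha' : algebraMap R K a ≠ 0 := by simpa using ha
  have := finiteDimensional_quot k (I := Ideal.span {a}) (by simpa using ha)
  let e : U ≃ₗ[k] R ⧸ Ideal.span {a} := LinearEquiv.ofBijective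
    ((Ideal.Quotient.mkₐ k (Ideal.span {a})).toLinearMap.domRestrict U) ⟨by
      rw [injective_iff_map_eq_zero]
      rintro ⟨x, hx⟩ h
      have h' : x ∈ Ideal.span {a} := Ideal.Quotient.eq_zero_iff_mem.1 h
      obtain ⟨y, rfl⟩ := Ideal.mem_span_singleton.1 h'
      rw [hU, map_mul, mul_div_cancel_left₀ _ ha'] at hx
      simp [F.disj y hx], by
      intro x
      obtain ⟨x, rfl⟩ := Ideal.Quotient.mk_surjective x
      obtain ⟨y, hy⟩ := F.decomp (algebraMap R K x / algebraMap R K a)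
      refine ⟨⟨x - a * y, ?_⟩, ?_⟩
      · rw [hU, map_sub, map_mul, sub_div, mul_div_cancel_left₀ _ ha']
        exact hy
      · exact Ideal.Quotient.eq.2 (by simp [Ideal.mem_span_singleton])⟩
  have he : ∀ x : U, e x = Ideal.Quotient.mk _ (x : R) := fun x => rfl
  have hfin : FiniteDimensional k U := Module.Finite.equiv e.symm
  refine ⟨hfin, (e.symm.conjRingEquiv).toRingHom.comp (actQ k _), fun r x z => ?_, fun ω => ?_⟩
  · change e.symm (actQ k _ r (e x)) = z ↔ _
    rw [LinearEquiv.symm_apply_eq, he, he, actQ_mk, eq_comm, Ideal.Quotient.eq,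
      Ideal.mem_span_singleton]
  · refine gdet_equiv e _ _ fun g x => ?_
    rw [coeff_mapRingHom, coeff_mapRingHom]
    exact (e.apply_symm_apply _).symm

theorem exists_DD_eq {ω ω' : MonoidAlgebra R G} (hω : ω * ω' = 1) :
    ∃ M : ℤ, (F.κ : ℤ) < M ∧ ∀ (a a' : R) (u : K), a ≠ 0 → F.Near M u →
      algebraMap R K a' = u * algebraMap R K a →
      DD k ω (Ideal.span {a}) = DD k ω (Ideal.span {a'}) := by
  classical
  obtain ⟨c, hc⟩ : ∃ c : ℕ, ∀ g, (∀ j x, x ∈ F.Λ j → algebraMap R K (ω.coeff g) * x ∈ F.Λ (j + c)) ∧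
      (∀ j x, x ∈ F.Λ j → algebraMap R K (ω'.coeff g) * x ∈ F.Λ (j + c)) := by
    choose j₁ hj₁ using fun g => F.exhaust (algebraMap R K (ω.coeff g))
    choose j₂ hj₂ using fun g => F.exhaust (algebraMap R K (ω'.coeff g))
    obtain ⟨N₁, hN₁⟩ := (Set.finite_range j₁).bddAbove
    obtain ⟨N₂, hN₂⟩ := (Set.finite_range j₂).bddAbove
    refine ⟨(max N₁ N₂).toNat + F.κ, fun g => ⟨fun j x hx => ?_, fun j x hx => ?_⟩⟩
    · have := hN₁ ⟨g, rfl⟩
      exact F.mono (by push_cast; omega) (F.mul_mem (hj₁ g) hx)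
    · have := hN₂ ⟨g, rfl⟩
      exact F.mono (by push_cast; omega) (F.mul_mem (hj₂ g) hx)
  refine ⟨3 * c + F.κ + 1, by omega, fun a a' u ha hu haa' => ?_⟩
  have hM : (F.κ : ℤ) < 3 * c + F.κ + 1 := by omega
  have ha0 : algebraMap R K a ≠ 0 := by simpa using ha
  have hu0 := hu.ne_zero hM
  have ha' : a' ≠ 0 := by
    rintro rfl
    rw [map_zero, eq_comm] at haa'
    exact mul_ne_zero hu0 ha0 haa'
  let dv : R →ₗ[k] K :=
    LinearMap.mulRight k (algebraMap R K a)⁻¹ ∘ₗ (IsScalarTower.toAlgHom k R K).toLinearMap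
  have hdv : ∀ x, dv x = algebraMap R K x / algebraMap R K a := fun x => (div_eq_mul_inv _ _).symm
  have hdvm : ∀ r x, dv (r * x) = algebraMap R K r * dv x := fun r x => by
    rw [hdv, hdv, map_mul, mul_div_assoc]
  let U : Submodule k R := (F.Λ (-1)).comap dv
  have hU : ∀ x, x ∈ U ↔ dv x ∈ F.Λ (-1) := fun x => Iff.rfl
  obtain ⟨hfin, ρ, hρ, hD⟩ := F.exists_act (G := G) ha U fun x => by rw [hU, hdv]
  obtain ⟨-, ρ', hρ', hD'⟩ := F.exists_act (G := G) ha' U fun x => by
    rw [hU, hdv, haa']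
    have : algebraMap R K x / algebraMap R K a =
        u * (algebraMap R K x / (u * algebraMap R K a)) := by field_simp
    rw [this]
    exact ⟨hu.mem_of_mul_mem hM, hu.mul_mem hM⟩
  have fa : ∀ r : R, (∀ j x, x ∈ F.Λ j → algebraMap R K r * x ∈ F.Λ (j + c)) →
      ∀ (j : ℤ) (x : U), dv x ∈ F.Λ j → dv (ρ r x : U) ∈ F.Λ (j + c) := by
    intro r hr j x hx
    by_cases hj : -1 ≤ j + c
    · exact F.mono hj (ρ r x).2
    · have h1 : dv (r * x) ∈ F.Λ (j + c) := by rw [hdvm]; exact hr _ _ hx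
      have h2 : ρ r x = ⟨r * x, F.mono (by omega) h1⟩ := (hρ _ _ _).2 (by simp)
      rw [h2]
      exact h1
  have fb : ∀ r : R, (∀ j x, x ∈ F.Λ j → algebraMap R K r * x ∈ F.Λ (j + c)) →
      ∀ x : U, dv x ∈ F.Λ (-1 - c) → ρ' r x - ρ r x = 0 := by
    intro r hr x hx
    have h1 : dv (r * x) ∈ F.Λ (-1) := by
      rw [hdvm]
      simpa using hr _ _ hx
    rw [(hρ r x ⟨r * x, h1⟩).2 (by simp), (hρ' r x ⟨r * x, h1⟩).2 (by simp), sub_self]
  have fc : ∀ r : R, (∀ j x, x ∈ F.Λ j → algebraMap R K r * x ∈ F.Λ (j + c)) →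
      ∀ x : U, dv (ρ' r x - ρ r x : U) ∈ F.Λ (-1 - 2 * c) := by
    intro r hr x
    obtain ⟨y, hy⟩ := (hρ r x _).1 rfl
    have h1 : algebraMap R K y ∈ F.Λ (-1 + c) := by
      have : algebraMap R K y = dv (ρ r x : U) - dv (r * x) := by
        rw [← map_sub, hy, hdv, map_mul, mul_div_cancel_left₀ _ ha0]
      rw [this, hdvm]
      exact sub_mem (F.mono (by omega) (ρ r x).2) (hr _ _ x.2)
    have h2 : dv ((a' - a) * y) ∈ F.Λ (-1 - 2 * c) := by
      have : dv ((a' - a) * y) = (u - 1) * algebraMap R K y := by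
        rw [hdv, map_mul, map_sub, haa']
        field_simp
      rw [this]
      exact F.mono (by omega) (hu.sub_one_mul h1)
    have h3 : (a' - a) * y ∈ U := F.mono (by omega) h2
    have h4 : ρ' r x = ρ r x + ⟨_, h3⟩ := (hρ' _ _ _).2 ⟨y, by
      rw [Submodule.coe_add]
      linear_combination hy⟩
    rw [h4, add_sub_cancel_left]
    exact h2
  rw [hD, hD']
  set T := mapRingHom G ρ ω
  set S := mapRingHom G ρ ω'
  set T' := mapRingHom G ρ' ω
  have hTS : T * S = 1 := by rw [← map_mul, hω, map_one]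
  let E : MonoidAlgebra (Module.End k U) G :=
    .ofCoeff (Finsupp.equivFunOnFinite.symm fun g => ρ' (ω.coeff g) - ρ (ω.coeff g))
  have hE : ∀ g x, E.coeff g x = ρ' (ω.coeff g) x - ρ (ω.coeff g) x := fun g x => rfl
  have hT' : T' = T * (1 + S * E) := by
    rw [mul_add, ← mul_assoc, hTS, mul_one, one_mul]
    ext g x
    rw [coeff_add, Finsupp.add_apply, LinearMap.add_apply, hE, coeff_mapRingHom, coeff_mapRingHom,
      add_sub_cancel]
  rw [hT', gdet_mul, gdet_unip _ ((F.Λ (-1 - c)).comap (dv ∘ₗ U.subtype)), mul_one]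
  · intro g x
    rw [coeff_mul_fintype, LinearMap.sum_apply]
    refine Submodule.sum_mem _ fun h _ => ?_
    rw [Module.End.mul_apply, hE, coeff_mapRingHom]
    have := fa _ (hc h).2 _ _ (fc _ (hc (h⁻¹ * g)).1 x)
    rw [show -1 - 2 * (c : ℤ) + c = -1 - c by ring] at this
    exact this
  · intro g x hx
    rw [coeff_mul_fintype, LinearMap.sum_apply]
    refine Finset.sum_eq_zero fun h _ => ?_
    rw [Module.End.mul_apply, hE, fb _ (hc _).1 x hx, map_zero]

theorem exists_rel_eq {ω ω' : MonoidAlgebra R G} (hω : ω * ω' = 1) {a : Ideal R → G}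
    (ha : IsMult a) (hD : ∀ I, I ≠ ⊥ → DD k ω I = of k G (a I)) :
    ∃ M : ℤ, (F.κ : ℤ) < M ∧ ∀ I J : Ideal R, I ≠ ⊥ → F.Rel M I J → a I = a J := by
  obtain ⟨M, hM, h⟩ := F.exists_DD_eq hω
  refine ⟨M, hM, fun I J hI hIJ => ?_⟩
  have hJ := hIJ.ne_bot hM hI
  obtain ⟨t, htI, ht⟩ := Submodule.exists_mem_ne_zero_of_ne_bot hI
  obtain ⟨C, hC⟩ : I ∣ Ideal.span {t} := Ideal.dvd_iff_le.2 (by simpa using htI)
  have hC0 : C ≠ ⊥ := by
    rintro rfl
    rw [Ideal.mul_bot, Ideal.span_singleton_eq_bot] at hC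
    exact ht hC
  obtain ⟨u, hu, hIJ⟩ := (rel_mul_iff hC0).2 hIJ
  rw [← hC, FractionalIdeal.coeIdeal_span_singleton,
    FractionalIdeal.spanSingleton_mul_spanSingleton] at hIJ
  obtain ⟨t', -, ht'⟩ := (FractionalIdeal.mem_coeIdeal R⁰).1
    (hIJ ▸ FractionalIdeal.mem_spanSingleton_self R⁰ (u * algebraMap R K t))
  rw [← ht', ← FractionalIdeal.coeIdeal_span_singleton, FractionalIdeal.coeIdeal_inj] at hIJ
  have h1 := h t t' u ht hu ht'
  rw [← hIJ, hC, hD _ (mul_ne_zero hI hC0), hD _ (mul_ne_zero hJ hC0), ha.mul _ _ hI hC0,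
    ha.mul _ _ hJ hC0] at h1
  exact mul_right_cancel (of_injective h1)

end Filt

end Pool.Agent.MP_51ecca_nt

end

section

set_option linter.unusedSectionVars false

namespace Pool.Agent.MP_51ecca_nt

open MonoidAlgebra

section

variable {R B G : Type*} [CommRing R] [CommRing B] [Algebra R B] [FaithfulSMul R B]
  [Group G] [Fintype G] [MulSemiringAction G B] [SMulCommClass G R B] [Algebra.IsInvariant R B G]

include R in
lemma exists_trace_eq_one (hin : ∀ P : Ideal B, P.IsMaximal → P.inertia G = ⊥) :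
    ∃ θ : B, ∑ g : G, g • θ = 1 := by
  have := Algebra.IsInvariant.isIntegral R B G
  let J : Ideal R :=
    { carrier := {r | ∃ b : B, algebraMap R B r = ∑ g : G, g • b}
      add_mem' := by
        rintro r s ⟨b, hb⟩ ⟨c, hc⟩
        exact ⟨b + c, by simp [hb, hc, Finset.sum_add_distrib]⟩
      zero_mem' := ⟨0, by simp⟩
      smul_mem' := by
        rintro r s ⟨b, hb⟩
        refine ⟨r • b, ?_⟩
        simp_rw [smul_comm _ r b]
        rw [← Finset.smul_sum, ← hb, smul_eq_mul, map_mul, Algebra.smul_def] }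
  by_contra hne
  have hJ : J ≠ ⊤ := by
    intro h
    obtain ⟨b, hb⟩ : (1 : R) ∈ J := h ▸ Submodule.mem_top
    exact hne ⟨b, by rw [← hb, map_one]⟩
  obtain ⟨m, hm, hJm⟩ := Ideal.exists_le_maximal J hJ
  obtain ⟨P, hP, hPm⟩ := Ideal.exists_maximal_ideal_liesOver_of_isIntegral (S := B) m
  let χ : G → (B →* B ⧸ P) := fun g =>
    ((Ideal.Quotient.mk P).comp (MulSemiringAction.toRingHom G B g)).toMonoidHom
  have hχ : Function.Injective χ := by
    intro g h hgh
    have : g * h⁻¹ ∈ P.inertia G := fun x => by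
      have := DFunLike.congr_fun hgh (h⁻¹ • x)
      change Ideal.Quotient.mk P (g • h⁻¹ • x) = Ideal.Quotient.mk P (h • h⁻¹ • x) at this
      rw [smul_inv_smul, Ideal.Quotient.eq] at this
      rwa [mul_smul]
    rw [hin P hP, Subgroup.mem_bot] at this
    exact mul_inv_eq_one.1 this
  have hli := (linearIndependent_monoidHom B (B ⧸ P)).comp χ hχ
  rw [Fintype.linearIndependent_iff] at hli
  refine one_ne_zero (hli (fun _ => 1) ?_ 1)
  ext b
  obtain ⟨r, hr⟩ := Algebra.IsInvariant.isInvariant (A := R) (G := G) (∑ g : G, g • b) fun h => by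
    rw [Finset.smul_sum]
    simp_rw [← mul_smul]
    exact Equiv.sum_comp (Equiv.mulLeft h) fun g => g • b
  have h1 : algebraMap R B r ∈ P := (Ideal.mem_of_liesOver P m r).1 (hJm ⟨b, hr⟩)
  rw [hr, ← Ideal.Quotient.eq_zero_iff_mem, map_sum] at h1
  simpa [χ] using h1

end

section

variable (k : Type*) {R B G : Type*} [Field k] [Fintype k] [CommRing R] [CommRing B]
  [Algebra R B] [FaithfulSMul R B] [Algebra k R] [Algebra k B] [IsScalarTower k R B]
  [CommGroup G] [Fintype G] [MulSemiringAction G B] [SMulCommClass G R B]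
  [Algebra.IsInvariant R B G]

lemma exists_eta [Nontrivial B] {p n : ℕ} [Fact p.Prime] [CharP k p] (hexp : ∀ g : G, g ^ p ^ n = 1)
    (hin : ∀ P : Ideal B, P.IsMaximal → P.inertia G = ⊥) :
    ∃ (η : MonoidAlgebra B G) (ω ω' : MonoidAlgebra R G), IsUnit η ∧ ω * ω' = 1 ∧
      (∀ σ : G, mapRingHom G (MulSemiringAction.toRingHom G B σ) η = of B G σ * η) ∧
      mapRingHom G (FiniteField.frobeniusAlgHom k B).toRingHom η =
        mapRingHom G (algebraMap R B) ω * η := by
  obtain ⟨θ, hθ⟩ := exists_trace_eq_one (R := R) hin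
  have : CharP B p := charP_of_injective_algebraMap (algebraMap k B).injective p
  have : CharP (MonoidAlgebra B G) p :=
    charP_of_injective_algebraMap (algebraMap k (MonoidAlgebra B G)).injective p
  let η : MonoidAlgebra B G := ∑ g : G, single g⁻¹ (g • θ)
  obtain ⟨N, hN⟩ : ∃ N, p ^ n = N + 1 :=
    ⟨p ^ n - 1, (Nat.sub_add_cancel (Nat.one_le_pow _ _ (Fact.out : p.Prime).pos)).symm⟩
  have hη : η ^ (N + 1) = 1 := by
    rw [← hN, sum_pow_char_pow]
    simp_rw [single_pow, hexp, ← singleAddHom_apply]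
    rw [← map_sum, ← sum_pow_char_pow, hθ, one_pow]
    rfl
  have hact : ∀ σ : G, mapRingHom G (MulSemiringAction.toRingHom G B σ) η = of B G σ * η := by
    intro σ
    rw [map_sum, Finset.mul_sum, ← Equiv.sum_comp (Equiv.mulLeft σ⁻¹)]
    refine Finset.sum_congr rfl fun g _ => ?_
    simp [single_mul_single, ← mul_smul, mul_comm]
  let φ := mapRingHom G (FiniteField.frobeniusAlgHom k B).toRingHom
  have hφ : ∀ σ : G, φ (of B G σ) = of B G σ := fun σ => by simp [φ]
  have hcomm : ∀ (σ : G) x, mapRingHom G (MulSemiringAction.toRingHom G B σ) (φ x) =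
      φ (mapRingHom G (MulSemiringAction.toRingHom G B σ) x) := by
    intro σ x
    ext g
    simp [φ, coeff_mapRingHom]
  have hinv : ∀ σ : G, mapRingHom G (MulSemiringAction.toRingHom G B σ) (φ η * η ^ N) =
      φ η * η ^ N := by
    intro σ
    have h1 : of B G σ ^ (N + 1) = 1 := by rw [← map_pow, ← hN, hexp, map_one]
    rw [map_mul, map_pow, hcomm, hact, map_mul, hφ, mul_pow]
    linear_combination (φ η * η ^ N) * h1
  have hcoeff : ∀ g, ∃ r : R, algebraMap R B r = (φ η * η ^ N).coeff g := fun g =>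
    Algebra.IsInvariant.isInvariant (G := G) _ fun σ => by
      have := congrArg (fun x => x.coeff g) (hinv σ)
      simp only [coeff_mapRingHom] at this
      exact this
  choose r hr using hcoeff
  let ω : MonoidAlgebra R G := .ofCoeff (Finsupp.equivFunOnFinite.symm r)
  have hω : mapRingHom G (algebraMap R B) ω = φ η * η ^ N := by
    ext g
    rw [coeff_mapRingHom, ← hr]
    rfl
  refine ⟨η, ω, ω ^ N, IsUnit.of_pow_eq_one hη (Nat.succ_ne_zero N), ?_, hact, ?_⟩
  · apply map_injective (algebraMap R B).toAddMonoidHom (FaithfulSMul.algebraMap_injective R B)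
    change mapRingHom G (algebraMap R B) _ = mapRingHom G (algebraMap R B) _
    rw [← pow_succ', map_pow, hω, map_one, mul_pow, ← map_pow, hη, map_one, one_mul, ← pow_mul,
      mul_comm N, pow_mul, hη, one_pow]
  · rw [hω, mul_assoc, ← pow_succ, hη, mul_one]

lemma DD_prime [Ring.HasFiniteQuotients R] {η : MonoidAlgebra B G} {ω : MonoidAlgebra R G}
    (hη : IsUnit η)
    (hact : ∀ σ : G, mapRingHom G (MulSemiringAction.toRingHom G B σ) η = of B G σ * η)
    (hφ : mapRingHom G (FiniteField.frobeniusAlgHom k B).toRingHom η =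
        mapRingHom G (algebraMap R B) ω * η)
    (P : Ideal B) [P.IsMaximal] (hP : P.under R ≠ ⊥) {σ : G} (hσ : IsArithFrobAt R σ P) :
    DD k ω (P.under R) = of k G σ := by
  have := Algebra.IsInvariant.isIntegral R B G
  have : (P.under R).IsMaximal := Ideal.IsMaximal.under R P
  let : Field (R ⧸ P.under R) := Ideal.Quotient.field _
  let : Field (B ⧸ P) := Ideal.Quotient.field _
  have := finiteDimensional_quot k hP
  have := Ring.HasFiniteQuotients.finiteQuotient hP
  let ι : (R ⧸ P.under R) →ₐ[k] (B ⧸ P) :=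
    Ideal.quotientMapₐ P (IsScalarTower.toAlgHom k R B) le_rfl
  have hι : ∀ x, ι (Ideal.Quotient.mk _ x) = Ideal.Quotient.mk _ (algebraMap R B x) :=
    fun x => rfl
  let s : Fin (Module.finrank k (R ⧸ P.under R)) → ((R ⧸ P.under R) →ₐ[k] (B ⧸ P)) := fun j =>
    ι.comp (FiniteField.frobeniusAlgHom k _ ^ j.1)
  have hs : Function.Injective s := by
    intro i j hij
    apply (FiniteField.bijective_frobeniusAlgHom_pow k (R ⧸ P.under R)).1
    ext1 x
    exact ι.injective (DFunLike.congr_fun hij x)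
  have h1 := gdet_norm s hs (by simp) (mapRingHom G (Ideal.Quotient.mk (P.under R)) ω)
  have h2 : mapRingHom G (Algebra.lmul k (R ⧸ P.under R)).toRingHom
      (mapRingHom G (Ideal.Quotient.mk (P.under R)) ω) = mapRingHom G (actQ k (P.under R)) ω := by
    ext1
    ext1 g
    rw [coeff_mapRingHom, coeff_mapRingHom, coeff_mapRingHom]
    rfl
  rw [h2] at h1
  let fr : ℕ → (MonoidAlgebra (B ⧸ P) G →+* MonoidAlgebra (B ⧸ P) G) := fun j =>
    mapRingHom G (FiniteField.frobeniusAlgHom k (B ⧸ P) ^ j).toRingHom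
  have hfr : ∀ j x g, (fr j x).coeff g = x.coeff g ^ Fintype.card k ^ j := fun j x g => by
    simp only [fr, coeff_mapRingHom]
    change (FiniteField.frobeniusAlgHom k (B ⧸ P) ^ j) _ = _
    rw [AlgHom.coe_pow, FiniteField.coe_frobeniusAlgHom, pow_iterate]
  let red := mapRingHom G (Ideal.Quotient.mk P)
  let w := red (mapRingHom G (algebraMap R B) ω)
  have h3 : ∀ j : Fin (Module.finrank k (R ⧸ P.under R)), mapRingHom G (s j).toRingHom
      (mapRingHom G (Ideal.Quotient.mk (P.under R)) ω) = fr j w := by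
    intro j
    ext g
    rw [hfr, coeff_mapRingHom, coeff_mapRingHom, coeff_mapRingHom, coeff_mapRingHom]
    change ι ((FiniteField.frobeniusAlgHom k _ ^ j.1) _) = _
    rw [AlgHom.coe_pow, FiniteField.coe_frobeniusAlgHom, pow_iterate, map_pow, hι]
  have h4 : fr 1 (red η) = w * red η := by
    rw [← map_mul, ← hφ]
    ext g
    rw [hfr, coeff_mapRingHom, coeff_mapRingHom, coeff_mapRingHom, pow_one, ← map_pow]
    rfl
  have h5 : ∀ m, fr m (red η) = (∏ j ∈ Finset.range m, fr j w) * red η := by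
    intro m
    induction m with
    | zero =>
      ext g
      rw [hfr]
      simp
    | succ m ih =>
      have : fr (m + 1) (red η) = fr m (fr 1 (red η)) := by
        ext g
        rw [hfr, hfr, hfr, ← pow_mul, pow_one, ← pow_succ']
      rw [this, h4, map_mul, ih, Finset.prod_range_succ]
      ring
  have h6 : fr (Module.finrank k (R ⧸ P.under R)) (red η) = of _ G σ * red η := by
    have : of (B ⧸ P) G σ = red (of B G σ) := by simp [red]
    rw [this, ← map_mul, ← hact]
    ext g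
    rw [hfr, coeff_mapRingHom, coeff_mapRingHom, coeff_mapRingHom, ← Nat.card_eq_fintype_card,
      ← Module.natCard_eq_pow_finrank]
    exact (hσ.mk_apply _).symm
  rw [h5, (hη.map red).mul_left_inj, Finset.prod_range] at h6
  rw [Finset.prod_congr rfl fun j _ => h3 j, h6] at h1
  apply map_injective (algebraMap k (B ⧸ P)).toAddMonoidHom (algebraMap k (B ⧸ P)).injective
  change mapRingHom G (algebraMap k (B ⧸ P)) _ = mapRingHom G (algebraMap k (B ⧸ P)) _
  rw [DD, h1]
  simp

theorem exists_artin {K : Type*} [IsDedekindDomain R] [Infinite R] [Ring.HasFiniteQuotients R]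
    [IsDomain B] [Ring.HasFiniteQuotients B] [Field K] [Algebra k K] [Algebra R K]
    [IsScalarTower k R K] [IsFractionRing R K] (F : Filt k R K)
    {p n : ℕ} [Fact p.Prime] [CharP k p] (hexp : ∀ g : G, g ^ p ^ n = 1)
    (hin : ∀ P : Ideal B, P.IsMaximal → P.inertia G = ⊥) :
    ∃ a : Ideal R → G, IsMult a ∧
      (∀ P : Ideal B, P.IsPrime → P ≠ ⊥ → IsArithFrobAt R (a (P.under R)) P) ∧
      ∃ M : ℤ, (F.κ : ℤ) < M ∧ ∀ I J : Ideal R, I ≠ ⊥ → F.Rel M I J → a I = a J := by
  classical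
  have := Algebra.IsInvariant.isIntegral R B G
  obtain ⟨η, ω, ω', hη, hω, hact, hφ⟩ := exists_eta k (R := R) hexp hin
  have hm := isMult_DD k ω
  have hprime : ∀ P : Ideal B, P.IsPrime → P ≠ ⊥ → ∃ σ : G, IsArithFrobAt R σ P ∧
      DD k ω (P.under R) = of k G σ := by
    intro P hP hP0
    have := Ring.HasFiniteQuotients.maximalOfPrime hP0
    have := Ring.HasFiniteQuotients.finiteQuotient hP0
    obtain ⟨σ, hσ⟩ := IsArithFrobAt.exists_of_isInvariant R G P
    exact ⟨σ, hσ, DD_prime k hη hact hφ P (Ideal.under_ne_bot R hP0) hσ⟩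
  have hex : ∀ I : Ideal R, I ≠ ⊥ → ∃ g, DD k ω I = of k G g := by
    intro I hI
    induction I using UniqueFactorizationMonoid.induction_on_prime with
    | h₁ => exact absurd rfl hI
    | h₂ I hu => exact ⟨1, by rw [Ideal.isUnit_iff.1 hu, hm.top, map_one]⟩
    | h₃ I Q hI' hQ ih =>
      obtain ⟨g, hg⟩ := ih hI'
      have : Q.IsMaximal := (Ideal.isPrime_of_prime hQ).isMaximal hQ.ne_zero
      obtain ⟨P, hP, hPQ⟩ := Ideal.exists_maximal_ideal_liesOver_of_isIntegral (S := B) Q
      obtain ⟨σ, -, hσ⟩ := hprime P hP.isPrime (Ideal.ne_bot_of_liesOver_of_ne_bot hQ.ne_zero P)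
      rw [← hPQ.over] at hσ
      exact ⟨σ * g, by rw [hm.mul _ _ hQ.ne_zero hI', hσ, hg, map_mul]⟩
  let a : Ideal R → G := fun I => if h : I ≠ ⊥ then (hex I h).choose else 1
  have ha : ∀ I, I ≠ ⊥ → DD k ω I = of k G (a I) := fun I hI => by
    simp only [a, dif_pos hI]
    exact (hex I hI).choose_spec
  have ham : IsMult a := by
    refine ⟨of_injective (R := k) ?_, fun I J hI hJ => of_injective (R := k) ?_⟩
    · rw [← ha _ top_ne_bot, hm.top, map_one]
    · rw [map_mul, ← ha _ hI, ← ha _ hJ, ← ha _ (mul_ne_zero hI hJ), hm.mul _ _ hI hJ]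
  refine ⟨a, ham, fun P hP hP0 => ?_, F.exists_rel_eq hω ham ha⟩
  obtain ⟨σ, hσ, h⟩ := hprime P hP hP0
  rw [ha _ (Ideal.under_ne_bot R hP0)] at h
  rwa [of_injective h]

end

end Pool.Agent.MP_51ecca_nt

end

section

set_option linter.unusedSectionVars false

namespace Pool.Agent.MP_51ecca_nt

open Polynomial

lemma le_card_of_sum_eq {Ω : Type*} [Field Ω] [CharZero Ω] (s : Multiset Ω)
    (hs : ∀ z ∈ s, IsOfFinOrder z) {m : ℕ} (h : s.sum = m) : m ≤ s.card := by
  let A := algebraicClosure ℚ Ω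
  have : Algebra.IsAlgebraic ℚ A := algebraicClosure.isAlgebraic ℚ Ω
  let φ : A →ₐ[ℚ] ℂ := IsAlgClosed.lift
  have hmem : ∀ z ∈ s, z ∈ A := fun z hz => by
    obtain ⟨n, hn, h1⟩ := (hs z hz).exists_pow_eq_one
    rw [mem_algebraicClosure_iff']
    exact IsIntegral.of_pow hn (h1 ▸ isIntegral_one)
  let t : Multiset A := s.attach.map fun z => ⟨z.1, hmem z.1 z.2⟩
  have ht : t.map (algebraMap A Ω) = s := by
    rw [Multiset.map_map]
    exact Multiset.attach_map_val s
  have h1 : t.sum = m := by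
    apply (algebraMap A Ω).injective
    rw [map_multiset_sum, ht, h, map_natCast]
  have h2 : (t.map φ).sum = m := by rw [← map_multiset_sum, h1, map_natCast]
  have h3 := norm_multiset_sum_le (t.map φ)
  rw [h2, Complex.norm_natCast, Multiset.map_map,
    Multiset.map_congr rfl (g := fun _ => (1 : ℝ)), Multiset.map_const', Multiset.sum_replicate,
    nsmul_eq_mul, mul_one, Nat.cast_le] at h3
  · rwa [← ht, Multiset.card_map]
  · intro z hz
    have hz' : IsOfFinOrder (algebraMap A Ω z) := hs _ (ht ▸ Multiset.mem_map_of_mem _ hz)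
    have : IsOfFinOrder z :=
      (Function.Injective.isOfFinOrder_iff (f := (algebraMap A Ω).toMonoidHom)
        (algebraMap A Ω).injective).1 hz'
    exact (φ.toRingHom.toMonoidHom.isOfFinOrder this).norm_eq_one

lemma isOfFinOrder_inv₀ {Ω : Type*} [Field Ω] {z : Ω} (h : IsOfFinOrder z) : IsOfFinOrder z⁻¹ := by
  obtain ⟨n, hn, h1⟩ := h.exists_pow_eq_one
  exact isOfFinOrder_iff_pow_eq_one.2 ⟨n, hn, by rw [inv_pow, h1, inv_one]⟩

lemma isOfFinOrder_neg' {Ω : Type*} [Field Ω] {z : Ω} (h : IsOfFinOrder z) : IsOfFinOrder (-z) := by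
  rw [← neg_one_mul]
  exact (isOfFinOrder_iff_pow_eq_one.2 ⟨2, two_pos, neg_one_sq⟩).mul h

lemma isOfFinOrder_addChar {Ω : Type*} [Field Ω] {N : ℕ} [NeZero N] (ψ : AddChar (ZMod N) Ω)
    (x : ZMod N) : IsOfFinOrder (ψ x) :=
  isOfFinOrder_iff_pow_eq_one.2 ⟨N, NeZero.pos N, by
    rw [← AddChar.map_nsmul_eq_pow, nsmul_eq_mul, ZMod.natCast_self, zero_mul,
      AddChar.map_zero_eq_one]⟩

theorem core {Ω : Type*} [Field Ω] [IsAlgClosed Ω] [CharZero Ω] {N : ℕ} [NeZero N]
    {ψ : AddChar (ZMod N) Ω} (hψ : ψ.IsPrimitive) {ι : Type*} {deg : ι → ℕ}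
    (hfin : ∀ d, {i | deg i ≤ d}.Finite) (α : ι → ZMod N) (L : ZMod N → Polynomial Ω)
    (hL0 : ∀ j, j ≠ 0 → (L j).coeff 0 = 1)
    (hL : ∀ j, j ≠ 0 → LD (L j : PowerSeries Ω) (psum deg fun v => ψ (j * α v)))
    {P E Q : Polynomial Ω} (hPE : P * E ≠ 0) (hid : P * E = Q * ∏ j ∈ Finset.univ.erase 0, L j)
    (hE : ∀ z ∈ E.roots, IsOfFinOrder z) {ρ : ℕ} (hEd : E.natDegree ≤ ρ * N)
    (τ : Ω →+* Ω) (hτ : ∀ z ∈ P.roots, τ z = z) {u : ZMod N} (hu : ∀ x, τ (ψ x) = ψ (u * x))
    (x : ι) (hx : 2 * ρ < deg x) :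
    ∃ v, deg v ≤ deg x ∧ u * ((deg x / deg v : ℕ) * α v) = α x := by
  classical
  by_contra! hne
  set r := deg x with hr
  have hr0 : r ≠ 0 := by omega
  let T := (hfin r).toFinset
  have hT : ∀ i, deg i ≤ r ↔ i ∈ T := fun i => by simp [T]
  let w : ι → ℕ := fun v => if deg v ∣ r then deg v else 0
  let β : ι → ZMod N := fun v => (r / deg v : ℕ) * α v
  let S : ZMod N → Ω := fun j => PowerSeries.coeff r (psum deg fun v => ψ (j * α v))
  have hS : ∀ j, S j = ∑ v ∈ T, (w v : Ω) * ψ (j * β v) := fun j => by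
    simp only [S]
    rw [coeff_psum _ _ T fun i => (hT i).1]
    refine Finset.sum_congr rfl fun v _ => ?_
    rw [coeff_geom]
    by_cases h : deg v ∣ r
    · rw [if_pos ⟨hr0, h⟩, ← AddChar.map_nsmul_eq_pow, nsmul_eq_mul]
      simp only [w, β, if_pos h]
      rw [mul_left_comm]
    · rw [if_neg fun h' => h h'.2]
      simp [w, h]
  let bad : ZMod N → Multiset Ω := fun j => (L j).roots.filter fun z => z ∉ P.roots
  have h1 : ∀ j, j ≠ 0 → S j - τ (S j) = ((bad j).map fun z => (τ z)⁻¹ ^ r - z⁻¹ ^ r).sum := by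
    intro j hj
    have e : S j = -((L j).roots.map fun z => z⁻¹ ^ r).sum :=
      LD.coeff_eq_roots (hL0 j hj) (hL j hj) hr0
    rw [e, map_neg, map_multiset_sum, Multiset.map_map, neg_sub_neg, ← Multiset.sum_map_sub,
      ← Multiset.filter_add_not (fun z => z ∉ P.roots) (L j).roots, Multiset.map_add,
      Multiset.sum_add, Multiset.sum_eq_zero (s := Multiset.map _ (Multiset.filter
        (fun z => ¬ z ∉ P.roots) _)), add_zero]
    · simp [bad]
    · intro y hy
      obtain ⟨z, hz, rfl⟩ := Multiset.mem_map.1 hy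
      rw [Multiset.mem_filter, not_not] at hz
      simp [hτ z hz.2]
  have h2 : ∑ j ∈ Finset.univ.erase 0, bad j ≤ E.roots := by
    have hQ : Q * ∏ j ∈ Finset.univ.erase 0, L j ≠ 0 := hid ▸ hPE
    have e := congrArg (fun f => f.roots.filter fun z => z ∉ P.roots) hid
    simp only [roots_mul hPE, roots_mul hQ, roots_prod _ _ (right_ne_zero_of_mul hQ),
      Multiset.filter_add] at e
    rw [Multiset.filter_eq_nil.2 fun a ha => not_not.2 ha, zero_add] at e
    refine le_trans ?_ (Multiset.filter_le (fun z => z ∉ P.roots) _)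
    rw [e]
    refine le_trans (le_of_eq ?_) (Multiset.le_add_left _ _)
    rw [Multiset.filter_bind]
    rfl
  have hbad : ∀ j ∈ Finset.univ.erase 0, ∀ z ∈ bad j, IsOfFinOrder z := fun j hj z hz =>
    hE z (Multiset.mem_of_le ((Finset.single_le_sum (f := bad) (fun _ _ => Multiset.zero_le _)
      hj).trans h2) hz)
  let s : Multiset Ω := ∑ j ∈ Finset.univ.erase 0,
    (((bad j).map fun z => ψ (j * -α x) * (τ z)⁻¹ ^ r) +
      (bad j).map fun z => -(ψ (j * -α x) * z⁻¹ ^ r))
  have hs : ∀ z ∈ s, IsOfFinOrder z := by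
    intro y hy
    obtain ⟨j, hj, hy⟩ := Multiset.mem_sum.1 hy
    rcases Multiset.mem_add.1 hy with hy | hy
    · obtain ⟨z, hz, rfl⟩ := Multiset.mem_map.1 hy
      exact (isOfFinOrder_addChar ψ _).mul
        (isOfFinOrder_inv₀ (τ.toMonoidHom.isOfFinOrder (hbad j hj z hz))).pow
    · obtain ⟨z, hz, rfl⟩ := Multiset.mem_map.1 hy
      exact isOfFinOrder_neg' ((isOfFinOrder_addChar ψ _).mul
        (isOfFinOrder_inv₀ (hbad j hj z hz)).pow)
  have hcard : s.card ≤ 2 * ρ * N := by
    have e := Multiset.card_le_card h2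
    rw [Multiset.card_sum] at e
    have e' := (card_roots' E).trans hEd
    simp only [s, Multiset.card_sum, Multiset.card_add, Multiset.card_map, Finset.sum_add_distrib]
    rw [mul_assoc]
    omega
  have hsum : s.sum = (N * ∑ v ∈ T.filter (fun v => β v = α x), w v : ℕ) := by
    have e1 : s.sum = ∑ j, ψ (j * -α x) * (S j - τ (S j)) := by
      rw [← Finset.sum_erase Finset.univ (a := 0), ← Multiset.coe_sumAddMonoidHom, map_sum]
      · refine Finset.sum_congr rfl fun j hj => ?_
        rw [h1 j (Finset.ne_of_mem_erase hj), Multiset.coe_sumAddMonoidHom, Multiset.sum_add,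
          ← Multiset.sum_map_add, ← Multiset.sum_map_mul_left]
        congr 1
        refine Multiset.map_congr rfl fun z _ => ?_
        ring
      · simp [hS]
    have e2 : ∀ j, ψ (j * -α x) * (S j - τ (S j)) =
        ∑ v ∈ T, (w v : Ω) * (ψ (j * (β v - α x)) - ψ (j * (u * β v - α x))) := by
      intro j
      rw [hS, map_sum, ← Finset.sum_sub_distrib, Finset.mul_sum]
      refine Finset.sum_congr rfl fun v _ => ?_
      rw [map_mul τ, map_natCast, hu, show j * (β v - α x) = j * -α x + j * β v by ring,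
        show j * (u * β v - α x) = j * -α x + u * (j * β v) by ring, AddChar.map_add_eq_mul,
        AddChar.map_add_eq_mul]
      ring
    rw [e1, Finset.sum_congr rfl fun j _ => e2 j, Finset.sum_comm, Finset.sum_filter]
    push_cast
    rw [Finset.mul_sum]
    refine Finset.sum_congr rfl fun v hv => ?_
    rw [← Finset.mul_sum, Finset.sum_sub_distrib, AddChar.sum_mulShift _ hψ,
      AddChar.sum_mulShift _ hψ, if_neg (c := u * β v - α x = 0)
        fun h => hne v ((hT v).2 hv) (sub_eq_zero.1 h), ZMod.card]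
    simp only [sub_eq_zero]
    split_ifs <;> simp [mul_comm]
  have h3 := (le_card_of_sum_eq s hs hsum).trans hcard
  have h4 : r ≤ ∑ v ∈ T.filter (fun v => β v = α x), w v := by
    refine le_trans (le_of_eq ?_) (Finset.single_le_sum (f := w) (fun _ _ => Nat.zero_le _)
      (a := x) ?_)
    · simp [w, hr]
    · rw [Finset.mem_filter, ← hT]
      refine ⟨le_rfl, ?_⟩
      simp [β, ← hr, Nat.div_self (Nat.pos_of_ne_zero hr0)]
  rw [mul_comm N] at h3
  have := Nat.le_of_mul_le_mul_right h3 (NeZero.pos N)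
  omega

end Pool.Agent.MP_51ecca_nt

end

section

set_option linter.unusedSectionVars false

namespace Pool.Agent.MP_51ecca_nt

open IsDedekindDomain PowerSeries

lemma exists_eq_mul_of_not_isUnit {p n : ℕ} [Fact p.Prime] {b : ZMod (p ^ n)} (hb : ¬ IsUnit b) :
    ∃ c, b = p * c := by
  have : NeZero (p ^ n) := ⟨pow_ne_zero _ (Fact.out : p.Prime).ne_zero⟩
  rw [← ZMod.natCast_zmod_val b, ZMod.isUnit_iff_coprime] at hb
  have h1 : p ∣ b.val := by
    by_contra h
    exact hb (((Nat.Prime.coprime_iff_not_dvd Fact.out).2 h).symm.pow_right n)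
  obtain ⟨c, hc⟩ := h1
  exact ⟨c, by rw [← ZMod.natCast_zmod_val b, hc, Nat.cast_mul]⟩

variable (k : Type*) {R B G : Type*} [Field k] [Finite k] [CommRing R] [CommRing B]
  [IsDedekindDomain R] [IsDedekindDomain B] [Infinite R] [Infinite B]
  [Ring.HasFiniteQuotients R] [Ring.HasFiniteQuotients B]
  [Algebra R B] [Algebra.IsIntegral R B] [Algebra k R] [Algebra k B] [IsScalarTower k R B]
  [FaithfulSMul R B] [CommGroup G] [Finite G] [MulSemiringAction G B] [IsGaloisGroup G R B]

lemma isMult_char {Ω : Type*} [Field Ω] {N : ℕ} (ψ : AddChar (ZMod N) Ω)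
    (e : G ≃* Multiplicative (ZMod N)) {a : Ideal R → G} (ha : IsMult a) (j : ZMod N) :
    IsMult fun I => ψ (j * (e (a I)).toAdd) :=
  ha.comp ((ψ.mulShift j).toMonoidHom.comp e.toMonoidHom)

theorem lser_eq_prod {Ω : Type*} [Field Ω] [CharZero Ω] {N : ℕ} [NeZero N]
    {ψ : AddChar (ZMod N) Ω} (hψ : ψ.IsPrimitive) (e : G ≃* Multiplicative (ZMod N))
    (hin : ∀ w : HeightOneSpectrum B, w.asIdeal.inertia G = ⊥) {a : Ideal R → G} (ha : IsMult a)
    (hfrob : ∀ w : HeightOneSpectrum B, IsArithFrobAt R (a (w.under R).asIdeal) w.asIdeal) :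
    lser k (fun _ : Ideal B => (1 : Ω)) =
      ∏ j : ZMod N, lser k fun I : Ideal R => ψ (j * (e (a I)).toAdd) := by
  classical
  refine LD.unique_left (constantCoeff_psum _ _) (ld_lser k IsMult.one) ?_ ?_
  · convert LD.prod Finset.univ _ _ fun j _ => ld_lser k (isMult_char ψ e ha j) using 1
    ext r
    let T := (finite_pdeg_le k (R := R) r).toFinset
    have hT : ∀ v, pdeg k v ≤ r → v ∈ T := fun v hv => by simp [T, hv]
    rw [coeff_psum_eq_sum_fiber k T hT, map_sum,
      Finset.sum_congr rfl fun j _ => coeff_psum _ _ T hT, Finset.sum_comm]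
    refine Finset.sum_congr rfl fun v _ => ?_
    rw [sum_fiber_geom k v (σ := a v.asIdeal) (fun w _ => hin w) fun w hw => hw ▸ hfrob w]
    simp only [coeff_geom]
    by_cases h : r ≠ 0 ∧ pdeg k v ∣ r
    · simp only [if_pos h]
      rw [← Finset.mul_sum]
      simp_rw [← AddChar.map_nsmul_eq_pow, ← mul_smul_comm]
      rw [AddChar.sum_mulShift _ hψ, ← toAdd_pow, ← map_pow, ZMod.card, Nat.card_congr e.toEquiv,
        Nat.card_eq_fintype_card, Fintype.card_multiplicative, ZMod.card]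
      simp only [toAdd_eq_zero, map_eq_one_iff _ e.injective]
      split_ifs <;> simp [mul_comm]
    · simp [h]
  · rw [map_prod, constantCoeff_lser k IsMult.one, Finset.prod_eq_one]
    exact fun j _ => constantCoeff_lser k (isMult_char ψ e ha j)

theorem ncard_le {K K₁ B₁ G₁ : Type*} [Field K] [Algebra k K] [Algebra R K]
    [IsScalarTower k R K] [IsFractionRing R K] [CommRing B₁] [IsDedekindDomain B₁] [Infinite B₁]
    [Ring.HasFiniteQuotients B₁] [Algebra R B₁] [Algebra.IsIntegral R B₁] [Algebra k B₁]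
    [IsScalarTower k R B₁] [FaithfulSMul R B₁] [Group G₁] [Finite G₁] [MulSemiringAction G₁ B₁]
    [IsGaloisGroup G₁ R B₁] [Field K₁] [Algebra k K₁] [Algebra B₁ K₁]
    [IsScalarTower k B₁ K₁] [IsFractionRing B₁ K₁] [Algebra B₁ B] [IsScalarTower R B₁ B]
    [FaithfulSMul B₁ B] (F : Filt k R K) (F₁ : Filt k B₁ K₁) {p n : ℕ} [Fact p.Prime] [CharP k p]
    (hin₁ : ∀ w : HeightOneSpectrum B₁, w.asIdeal.inertia G₁ = ⊥)
    (hin : ∀ w : HeightOneSpectrum B, w.asIdeal.inertia G = ⊥)
    (hG₁ : 1 < Nat.card G₁) (hexp₁ : ∀ g : G₁, g ^ p = 1) (e : G ≃* Multiplicative (ZMod (p ^ n)))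
    (hS₁ : ∃ y : HeightOneSpectrum B₁, ¬ p ∣ pdeg k y)
    (x₁ : HeightOneSpectrum B₁) (hx₁ : ¬ IsArithFrobAt R (1 : G₁) x₁.asIdeal) {ρ : ℕ}
    (hρ : 2 * ρ < pdeg k (x₁.under R)) {P E Q : Polynomial ℚ}
    (hP : ((P * E : Polynomial ℚ) : ℚ⟦X⟧) =
      (1 - X) * (1 - (Nat.card k : ℚ⟦X⟧) * X) * lser k fun _ : Ideal B => (1 : ℚ))
    (hQ : (Q : ℚ⟦X⟧) = (1 - (Nat.card k : ℚ⟦X⟧) * X) * lser k fun _ : Ideal R => (1 : ℚ))
    {Ω : Type*} [Field Ω] [IsAlgClosed Ω] [CharZero Ω]
    (hE : ∀ z ∈ (E.map (algebraMap ℚ Ω)).roots, IsOfFinOrder z) (hEd : E.natDegree ≤ ρ * p ^ n)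
    {ψ : AddChar (ZMod (p ^ n)) Ω} (hψ : ψ.IsPrimitive) :
    {u : ZMod (p ^ n) | ∃ τ : Ω →+* Ω, (∀ z ∈ (P.map (algebraMap ℚ Ω)).roots, τ z = z) ∧
      ∀ y, τ (ψ y) = ψ (u * y)}.ncard ≤
      {v : HeightOneSpectrum R | pdeg k v ≤ pdeg k (x₁.under R)}.ncard := by
  classical
  have : NeZero (p ^ n) := ⟨pow_ne_zero _ (Fact.out : p.Prime).ne_zero⟩
  let := Fintype.ofFinite k
  let := Fintype.ofFinite G
  have : Algebra.IsIntegral B₁ B := Algebra.IsIntegral.tower_top R
  obtain ⟨a, ha, hfrob, M, hM, hrel⟩ := exists_artin k (B := B) (G := G) F (p := p) (n := n)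
    (fun g => e.injective (by
      rw [map_pow, map_one, ← ofAdd_toAdd (e g), ← ofAdd_nsmul, nsmul_eq_mul, ZMod.natCast_self,
        zero_mul, ofAdd_zero]))
    (fun P hP => by
      by_cases hP0 : P = ⊥
      · rw [eq_bot_iff]
        intro σ hσ
        have := (IsGaloisGroup.faithful (G := G) (A := R) (B := B))
        refine eq_of_smul_eq_smul (α := B) fun x => ?_
        have := hσ x
        rw [hP0] at this
        rw [one_smul]
        exact sub_eq_zero.1 this
      · exact hin ⟨P, hP.isPrime, hP0⟩)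
  replace hfrob : ∀ w : HeightOneSpectrum B, IsArithFrobAt R (a (w.under R).asIdeal) w.asIdeal :=
    fun w => hfrob _ w.isPrime w.ne_bot
  let res := IsGaloisGroup.restrictHom G G₁ R B₁ B
  have hfrob₁ : ∀ w : HeightOneSpectrum B₁,
      IsArithFrobAt R (res (a (w.under R).asIdeal)) w.asIdeal := by
    intro w y
    have := w.isMaximal
    obtain ⟨P, hP, hPw⟩ := Ideal.exists_maximal_ideal_liesOver_of_isIntegral (S := B) w.asIdeal
    let w' : HeightOneSpectrum B := ⟨P, hP.isPrime, Ideal.ne_bot_of_liesOver_of_ne_bot w.ne_bot P⟩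
    have h1 : P.under R = w.asIdeal.under R := by rw [hPw.over, Ideal.under_under]
    have h2 := hfrob w' (algebraMap B₁ B y)
    change a (P.under R) • algebraMap B₁ B y - algebraMap B₁ B y ^ Nat.card (R ⧸ P.under R) ∈ P
      at h2
    rw [h1, ← IsGaloisGroup.algebraMap_restrictHom_smul G G₁ R B₁ B, ← map_pow, ← map_sub] at h2
    exact (Ideal.mem_of_liesOver P w.asIdeal _).2 h2
  have hunit : ∀ g : G, res g ≠ 1 → IsUnit (e g).toAdd := by
    intro g hg
    by_contra hu
    obtain ⟨c, hc⟩ := exists_eq_mul_of_not_isUnit hu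
    apply hg
    have : g = e.symm (Multiplicative.ofAdd c) ^ p := e.injective (by
      rw [map_pow, e.apply_symm_apply, ← ofAdd_nsmul, nsmul_eq_mul, ← hc, ofAdd_toAdd])
    rw [this, map_pow, hexp₁]
  obtain ⟨A, A', hA, hA', hd, hne⟩ : ∃ A A' : Ideal R, A ≠ ⊥ ∧ A' ≠ ⊥ ∧ ideg k A = ideg k A' ∧
      res (a A) ≠ res (a A') := by
    by_contra! hall
    obtain ⟨y, hy⟩ := hS₁
    rw [pdeg_eq_mul k (R := R) y] at hy
    have h1 : y.asIdeal.inertiaDeg R = 1 :=
      ((Nat.dvd_prime Fact.out).1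
        ((frob_pow_eq_one_iff y (hin₁ y) (hfrob₁ y) p).1 (hexp₁ _))).resolve_right
        fun h => hy (h ▸ Dvd.intro_left _ rfl)
    have h2 := (frob_pow_eq_one_iff y (hin₁ y) (hfrob₁ y) 1).2 (h1 ▸ dvd_rfl)
    rw [pow_one] at h2
    rw [h1, mul_one] at hy
    refine not_finite_nonsplit k F F₁ hin₁ hG₁ ∅ fun w _ => ?_
    have h3 := hall ((w.under R).asIdeal ^ pdeg k (y.under R))
      ((y.under R).asIdeal ^ pdeg k (w.under R)) (pow_ne_zero _ (w.under R).ne_bot)
      (pow_ne_zero _ (y.under R).ne_bot) (by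
        rw [ideg_pow k (w.under R).ne_bot, ideg_pow k (y.under R).ne_bot, mul_comm]
        rfl)
    rw [ha.pow (w.under R).ne_bot, ha.pow (y.under R).ne_bot, map_pow, map_pow, h2, one_pow] at h3
    have h4 : res (a (w.under R).asIdeal) = 1 := by
      rw [← orderOf_eq_one_iff]
      exact Nat.eq_one_of_dvd_coprimes ((Nat.Prime.coprime_iff_not_dvd Fact.out).2 hy)
        (orderOf_dvd_of_pow_eq_one (hexp₁ _)) (orderOf_dvd_of_pow_eq_one h3)
    exact h4 ▸ hfrob₁ w
  have hL : ∀ j : ZMod (p ^ n), ∃ L : Polynomial Ω, j ≠ 0 →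
      (L : Ω⟦X⟧) = lser k fun I : Ideal R => ψ (j * (e (a I)).toAdd) := by
    intro j
    by_cases hj : j = 0
    · exact ⟨0, fun h => absurd hj h⟩
    obtain ⟨L, hL⟩ := F.exists_poly_lser hM (isMult_char ψ e ha j)
      (fun I J hI h => by rw [hrel I J hI h]) hA hA' hd fun h => by
        have h1 := hunit (a A / a A') (by rwa [map_div, Ne, div_eq_one])
        have h2 : ψ (j * (e (a A / a A')).toAdd) = 1 := by
          rw [map_div, toAdd_div, mul_sub, AddChar.map_sub_eq_div, h,
            div_self (isOfFinOrder_addChar ψ _).isUnit.ne_zero]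
        rw [hψ.zmod_char_eq_one_iff, h1.mul_left_eq_zero] at h2
        exact hj h2
    exact ⟨L, fun _ => hL⟩
  choose L hL using hL
  have hmap : ∀ f : Polynomial ℚ, ((f.map (algebraMap ℚ Ω) : Polynomial Ω) : Ω⟦X⟧) =
      PowerSeries.map (algebraMap ℚ Ω) f := fun f => by
    ext d
    simp [Polynomial.coeff_coe]
  have hid : P.map (algebraMap ℚ Ω) * E.map (algebraMap ℚ Ω) =
      ((1 - Polynomial.X) * Q.map (algebraMap ℚ Ω)) * ∏ j ∈ Finset.univ.erase 0, L j := by
    apply Polynomial.coe_injective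
    rw [← Polynomial.map_mul, hmap, hP, Polynomial.coe_mul, Polynomial.coe_mul, hmap, hQ,
      ← Polynomial.coeToPowerSeries.ringHom_apply (φ := ∏ _ ∈ _, _), map_prod]
    simp only [map_mul, map_sub, map_one, map_natCast, map_X, map_lser,
      Polynomial.coeToPowerSeries.ringHom_apply, Polynomial.coe_sub, Polynomial.coe_one,
      Polynomial.coe_X]
    rw [lser_eq_prod k hψ e hin ha hfrob, ← Finset.mul_prod_erase _ _ (Finset.mem_univ 0),
      Finset.prod_congr rfl fun j hj => hL j (Finset.ne_of_mem_erase hj)]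
    simp only [zero_mul, AddChar.map_zero_eq_one]
    ring
  have hPE : P.map (algebraMap ℚ Ω) * E.map (algebraMap ℚ Ω) ≠ 0 := by
    rw [← Polynomial.map_mul, Polynomial.map_ne_zero_iff (algebraMap ℚ Ω).injective]
    intro h0
    have := congrArg constantCoeff hP
    rw [h0, map_mul, constantCoeff_lser k IsMult.one] at this
    simp at this
  have hx : IsUnit (e (a (x₁.under R).asIdeal)).toAdd :=
    hunit _ fun h => hx₁ (h ▸ hfrob₁ x₁)
  refine le_trans (Set.ncard_le_ncard ?_ ((finite_pdeg_le k (pdeg k (x₁.under R))).image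
    fun v : HeightOneSpectrum R => (e (a (x₁.under R).asIdeal)).toAdd * Ring.inverse
      (((pdeg k (x₁.under R) / pdeg k v : ℕ) : ZMod (p ^ n)) * (e (a v.asIdeal)).toAdd)))
    (Set.ncard_image_le (finite_pdeg_le k _))
  rintro u ⟨τ, hτ, hu⟩
  obtain ⟨v, hv, hv'⟩ := core hψ (finite_pdeg_le k (R := R))
    (fun v => (e (a v.asIdeal)).toAdd) L
    (fun j hj => by
      rw [← Polynomial.constantCoeff_coe, hL j hj, constantCoeff_lser k (isMult_char ψ e ha j)])
    (fun j hj => by rw [hL j hj]; exact ld_lser k (isMult_char ψ e ha j))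
    hPE hid hE (by rwa [Polynomial.natDegree_map]) τ hτ hu (x₁.under R) hρ
  refine ⟨v, hv, ?_⟩
  simp only
  rw [← hv'] at hx
  rw [← hv', mul_assoc, Ring.mul_inverse_cancel _ (isUnit_of_mul_isUnit_right hx), mul_one]

end Pool.Agent.MP_51ecca_nt

end
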