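import Pool.Agent.Mg.F43e117.G871b34
import Pool.Agent.Mg.F43e117.G644f4d
import Pool.Agent.MP_51ecca_nt.Padic

section

set_option linter.unusedSectionVars false

namespace Pool.Agent.MP_51ecca_nt

open IsDedekindDomain IntermediateField Polynomial

instance hasFiniteQuotients_polynomial (k : Type*) [Field k] [Finite k] :
    Ring.HasFiniteQuotients k[X] where
  finiteQuotient {I} hI := by
    obtain ⟨f, rfl⟩ := (IsPrincipalIdealRing.principal I).principal
    have hf : f ≠ 0 := by
      rintro rfl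
      simp at hI
    have : Module.Finite k (AdjoinRoot f) := (AdjoinRoot.powerBasis hf).finite
    exact Module.finite_of_finite k (M := AdjoinRoot f)

lemma mem_valuationSubring_of_isIntegral {A K : Type*} [CommRing A] [Field K] [Algebra A K]
    (O : ValuationSubring K) (hO : ∀ a : A, algebraMap A K a ∈ O) {x : K} (hx : IsIntegral A x) :
    x ∈ O := by
  let : Algebra A O := ((algebraMap A K).codRestrict O hO).toAlgebra
  have : IsScalarTower A O K := .of_algebraMap_eq fun _ => rfl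
  obtain ⟨y, rfl⟩ := IsIntegrallyClosed.isIntegral_iff.1 (hx.tower_top (A := O))
  exact y.2

variable (k : Type) {K : Type} [Field k] [Field K] [Algebra k K]

/-- A separating transcendental element. -/
structure IsChart (h : K) : Prop where
  tr : Transcendental k h
  fd : FiniteDimensional k⟮h⟯ K
  sep : Algebra.IsSeparable k⟮h⟯ K

/-- The properties of the affine ring attached to a chart. -/
structure IsModel (R : Type*) [CommRing R] [Algebra R K] (h : K) : Prop where
  ded : IsDedekindDomain R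
  frac : IsFractionRing R K
  finq : Ring.HasFiniteQuotients R
  inf : Infinite R
  mem_iff : ∀ O : Place k K, h ∈ O.1 ↔ ∀ r : R, algebraMap R K r ∈ O.1
  exists_eq : ∃ t : R, algebraMap R K t = h
  filt : ∃ F : Filt k R K, F.ρ = Module.finrank k⟮h⟯ K ∧
    (∀ (j : ℤ) (x : K), x ∈ F.Λ j ↔ h * x ∈ F.Λ (j + 1)) ∧
    ∀ O : Place k K, h ∉ O.1 → ∀ x ∈ F.Λ (-F.κ), x ∈ O.1

variable {k}

lemma Place.aeval_mem (O : Place k K) {h : K} (hh : h ∈ O.1) (f : k[X]) : aeval h f ∈ O.1 := by
  rw [aeval_eq_sum_range]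
  refine sum_mem fun i _ => ?_
  rw [Algebra.smul_def]
  exact mul_mem (O.2.2 _) (pow_mem hh _)

lemma Place.transcendental (O : Place k K) {h : K} (hh : h ∉ O.1) : Transcendental k h :=
  fun h' => hh (mem_valuationSubring_of_isIntegral O.1 O.2.2 h'.isIntegral)

theorem IsChart.isModel [Finite k] {h : K} (hh : IsChart k h) (R : Type*) [CommRing R]
    [Algebra R K] [Algebra k R] [IsScalarTower k R K]
    [IsIntegralClosure R (Algebra.adjoin k {h}) K] : IsModel k R h := by
  have := hh.fd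
  have := hh.sep
  let e := RatFunc.algEquivOfTranscendental h hh.tr
  let : Algebra (RatFunc k) K := ((algebraMap k⟮h⟯ K).comp e.toRingEquiv.toRingHom).toAlgebra
  let : Algebra k[X] K := (aeval h : k[X] →ₐ[k] K).toRingHom.toAlgebra
  have hX : ∀ f : k[X], algebraMap k[X] K f = aeval h f := fun _ => rfl
  have : IsScalarTower k[X] (RatFunc k) K := .of_algebraMap_eq fun f => by
    change aeval h f = algebraMap k⟮h⟯ K (e (algebraMap k[X] (RatFunc k) f))
    rw [RatFunc.algEquivOfTranscendental_algebraMap, ← aeval_algebraMap_apply]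
    rfl
  have : IsScalarTower k k[X] K := .of_algebraMap_eq fun c => by simp [hX]
  have he : (algebraMap (RatFunc k) K).comp (e.toRingEquiv.symm : k⟮h⟯ →+* RatFunc k) =
      (RingEquiv.refl K : K →+* K).comp (algebraMap k⟮h⟯ K) := by
    ext x
    change algebraMap k⟮h⟯ K (e (e.symm x)) = _
    simp
  have : FiniteDimensional (RatFunc k) K :=
    Module.Finite.of_equiv_equiv e.toRingEquiv.symm (RingEquiv.refl K) he
  have : Algebra.IsSeparable (RatFunc k) K :=
    Algebra.IsSeparable.of_equiv_equiv e.toRingEquiv.symm (RingEquiv.refl K) he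
  have hrank : Module.finrank k⟮h⟯ K = Module.finrank (RatFunc k) K :=
    Algebra.finrank_eq_of_equiv_equiv e.toRingEquiv.symm (RingEquiv.refl K) he
  let e' := Polynomial.algEquivOfTranscendental k h hh.tr
  let : Algebra k[X] (Algebra.adjoin k {h}) := e'.toRingEquiv.toRingHom.toAlgebra
  have : IsScalarTower k[X] (Algebra.adjoin k {h}) K := .of_algebraMap_eq fun f => by
    change aeval h f = (e' f : K)
    simp [e']
  have : Algebra.IsIntegral k[X] (Algebra.adjoin k {h}) :=
    Algebra.isIntegral_of_surjective e'.surjective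
  have : IsIntegralClosure R k[X] K :=
    ⟨IsIntegralClosure.algebraMap_injective R (Algebra.adjoin k {h}) K, fun {x} => by
      rw [← IsIntegralClosure.isIntegral_iff (R := Algebra.adjoin k {h})]
      exact ⟨fun hx => hx.tower_top, fun hx => isIntegral_trans x hx⟩⟩
  obtain ⟨t, ht⟩ : ∃ t : R, algebraMap R K t = h :=
    (IsIntegralClosure.isIntegral_iff (R := k[X])).1 (by
      simpa [hX] using isIntegral_algebraMap (R := k[X]) (A := K) (x := X))
  let : Algebra k[X] R := (aeval t : k[X] →ₐ[k] R).toRingHom.toAlgebra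
  have : IsScalarTower k[X] R K := .of_algebraMap_eq fun f => by
    change aeval h f = algebraMap R K (aeval t f)
    rw [← aeval_algebraMap_apply, ht]
  have : IsDomain R :=
    (IsIntegralClosure.algebraMap_injective R k[X] K).isDomain (algebraMap R K)
  have : Module.Finite k[X] R := IsIntegralClosure.finite k[X] (RatFunc k) K R
  have : Module.IsTorsionFree k[X] K := .trans_faithfulSMul k[X] (RatFunc k) K
  have : Module.IsTorsionFree k[X] R := IsIntegralClosure.isTorsionFree k[X] K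
  refine ⟨IsIntegralClosure.isDedekindDomain k[X] (RatFunc k) K R,
    IsIntegralClosure.isFractionRing_of_finite_extension k[X] (RatFunc k) K R,
    Ring.HasFiniteQuotients.of_module_finite k[X] R,
    Infinite.of_injective _ (FaithfulSMul.algebraMap_injective k[X] R),
    fun O => ⟨fun hO r => ?_, fun hO => ht ▸ hO t⟩, ⟨t, ht⟩, ?_⟩
  · exact mem_valuationSubring_of_isIntegral O.1 (A := k[X]) (O.aeval_mem hO)
      (IsIntegralClosure.isIntegral_iff.2 ⟨r, rfl⟩)
  · obtain ⟨F, h1, h2, h3⟩ := exists_filt k R K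
    refine ⟨F, h1.trans hrank.symm, by simpa [hX] using h2, fun O hO => h3 O.1 O.2.2 ?_⟩
    simpa [hX] using hO

variable (k) in
/-- The standard affine ring of a chart. -/
abbrev Rg (h : K) : Type := integralClosure (Algebra.adjoin k {h}) K

lemma IsChart.inv {h : K} (hh : IsChart k h) : IsChart k h⁻¹ := by
  have e : k⟮h⁻¹⟯ = k⟮h⟯ := by
    apply le_antisymm <;> rw [adjoin_simple_le_iff]
    · exact inv_mem (mem_adjoin_simple_self k h)
    · simpa using inv_mem (mem_adjoin_simple_self k h⁻¹)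
  refine ⟨fun h' => hh.tr (by simpa using h'.inv), e ▸ hh.fd, e ▸ hh.sep⟩

lemma sum_pdeg_le {R : Type*} [CommRing R] [Finite k] [Algebra k R] [IsDedekindDomain R]
    [Infinite R] [Ring.HasFiniteQuotients R] {I : Ideal R} (hI : I ≠ ⊥)
    (T : Finset (HeightOneSpectrum R)) (hT : ∀ v ∈ T, I ≤ v.asIdeal) :
    ∑ v ∈ T, pdeg k v ≤ ideg k I := by
  classical
  have h1 : ∏ v ∈ T, v.asIdeal ∣ I :=
    Finset.prod_dvd_of_coprime
      (fun v _ w _ hne => Ideal.isCoprime_iff_sup_eq.2
        (v.isMaximal.coprime_of_ne w.isMaximal fun h => hne (HeightOneSpectrum.ext h)))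
      fun v hv => Ideal.dvd_iff_le.2 (hT v hv)
  have h2 : ∀ T : Finset (HeightOneSpectrum R), ideg k (∏ v ∈ T, v.asIdeal) = ∑ v ∈ T, pdeg k v := by
    intro T
    induction T using Finset.induction_on with
    | empty => simp [ideg_top]
    | insert v T hv ih =>
      rw [Finset.prod_insert hv, Finset.sum_insert hv,
        ideg_mul k v.ne_bot (Finset.prod_ne_zero_iff.2 fun w _ => w.ne_bot), ih, pdeg]
  obtain ⟨J, rfl⟩ := h1
  rw [ideg_mul k (left_ne_zero_of_mul hI) (right_ne_zero_of_mul hI), h2]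
  exact Nat.le_add_right _ _

theorem IsChart.exists_poles [Finite k] {h : K} (hh : IsChart k h) :
    ∃ Pl : Finset (Place k K), (∀ O, O ∈ Pl ↔ h ∉ O.1) ∧ Pl.Nonempty ∧
      (∀ O ∈ Pl, 0 < O.degree) ∧ ∑ O ∈ Pl, O.degree ≤ Module.finrank k⟮h⟯ K := by
  classical
  have hM := hh.inv.isModel (Rg k h⁻¹)
  have := hM.ded
  have := hM.frac
  have := hM.finq
  have := hM.inf
  obtain ⟨t, ht⟩ := hM.exists_eq
  obtain ⟨F, h1, h2, -⟩ := hM.filt
  have h0 : h ≠ 0 := fun h0 => hh.tr (h0 ▸ isAlgebraic_zero)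
  have ht0 : t ≠ 0 := by
    rintro rfl
    rw [map_zero, eq_comm, inv_eq_zero] at ht
    exact h0 ht
  have e : k⟮h⁻¹⟯ = k⟮h⟯ := by
    apply le_antisymm <;> rw [adjoin_simple_le_iff]
    · exact inv_mem (mem_adjoin_simple_self k h)
    · simpa using inv_mem (mem_adjoin_simple_self k h⁻¹)
  have hd : ideg k (Ideal.span {t}) = Module.finrank k⟮h⟯ K := by
    rw [F.ideg_span ht0 (n := 1) (by simpa [ht] using h2), mul_one, h1, e]
  have hfin : {v : HeightOneSpectrum (Rg k h⁻¹) | t ∈ v.asIdeal}.Finite :=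
    (Ring.HasFiniteQuotients.finite_setOfPred_mem t ht0).of_injOn (f := fun w => w.asIdeal)
      (fun _ hw => hw) fun _ _ _ _ h => HeightOneSpectrum.ext h
  have hplc : ∀ v : HeightOneSpectrum (Rg k h⁻¹), h ∉ (plc k K v).1 ↔ t ∈ v.asIdeal := fun v => by
    have := inv_mem_plc_iff (k := k) (K := K) (v := v) ht0
    rw [ht, inv_inv] at this
    rw [this, not_not]
  refine ⟨hfin.toFinset.image (plc k K), fun O => ?_, ?_, ?_, ?_⟩
  · simp only [Finset.mem_image, Set.Finite.mem_toFinset, Set.mem_ofPred_eq]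
    constructor
    · rintro ⟨v, hv, rfl⟩
      exact (hplc v).2 hv
    · intro hO
      obtain ⟨v, rfl⟩ := exists_plc_eq O ((hM.mem_iff O).1 ((O.1.mem_or_inv_mem h).resolve_left hO))
      exact ⟨v, (hplc v).1 hO, rfl⟩
  · have hne : Ideal.span {t} ≠ ⊤ := by
      rw [Ne, ← ideg_eq_zero_iff k (by simpa using ht0), hd]
      have := hh.fd
      exact Module.finrank_pos.ne'
    obtain ⟨P, hP, hle⟩ := Ideal.exists_le_maximal _ hne
    have htP : t ∈ P := hle (Ideal.mem_span_singleton_self t)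
    refine ⟨plc k K ⟨P, hP.isPrime, fun h => ht0 (by simpa [h] using htP)⟩,
      Finset.mem_image_of_mem _ (by simpa using htP)⟩
  · intro O hO
    obtain ⟨v, -, rfl⟩ := Finset.mem_image.1 hO
    rw [degree_plc]
    exact pdeg_pos k v
  · rw [Finset.sum_image fun _ _ _ _ h => plc_injective h, ← hd]
    simp_rw [degree_plc]
    refine sum_pdeg_le (by simpa using ht0) _ fun v hv => ?_
    simpa using hv

end Pool.Agent.MP_51ecca_nt

end

section

set_option linter.unusedSectionVars false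

namespace Pool.Agent.MP_51ecca_nt

open IsDedekindDomain IntermediateField Polynomial

lemma isSeparable_of_adjoin_pow {E K : Type*} [Field E] [Field K] [Algebra E K]
    [FiniteDimensional E K] (p : ℕ) [Fact p.Prime] [CharP E p]
    (h : adjoin E (Set.range fun x : K => x ^ p) = ⊤) : Algebra.IsSeparable E K := by
  have : CharP K p := charP_of_injective_algebraMap (algebraMap E K).injective p
  have key : ∀ n, ∀ x : K, x ∈ adjoin E (Set.range fun x : K => x ^ p ^ n) := by
    intro n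
    induction n with
    | zero => exact fun x => subset_adjoin _ _ ⟨x, by simp⟩
    | succ n ih =>
      have h1 : ∀ y ∈ adjoin E (Set.range fun x : K => x ^ p ^ n),
          y ^ p ∈ adjoin E (Set.range fun x : K => x ^ p ^ (n + 1)) := by
        intro y hy
        induction hy using adjoin_induction with
        | mem x hx =>
          obtain ⟨z, rfl⟩ := hx
          exact subset_adjoin _ _ ⟨z, by simp [pow_succ, pow_mul]⟩
        | algebraMap x => exact pow_mem (IntermediateField.algebraMap_mem _ x) _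
        | add x y _ _ hx hy => rw [add_pow_char]; exact add_mem hx hy
        | inv x _ hx => rw [inv_pow]; exact inv_mem hx
        | mul x y _ _ hx hy => rw [mul_pow]; exact mul_mem hx hy
      intro x
      have : (⊤ : IntermediateField E K) ≤ adjoin E (Set.range fun x : K => x ^ p ^ (n + 1)) := by
        rw [← h, adjoin_le_iff]
        rintro _ ⟨y, rfl⟩
        exact h1 y (ih y)
      exact this mem_top
  rw [← separableClosure.eq_top_iff, eq_top_iff]
  intro x _
  have : CharP (separableClosure E K) p :=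
    charP_of_injective_algebraMap (algebraMap E _).injective p
  have : adjoin E (Set.range fun x : K =>
      x ^ p ^ IsPurelyInseparable.exponent (separableClosure E K) K) ≤ separableClosure E K := by
    rw [adjoin_le_iff]
    rintro _ ⟨y, rfl⟩
    obtain ⟨z, hz⟩ := IsPurelyInseparable.exponent_def' (separableClosure E K) p y
    simp only [← hz]
    exact z.2
  exact this (key _ x)

variable {k K : Type} [Field k] [Field K] [Algebra k K]

lemma exists_isChart [Finite k] [Algebra.EssFiniteType k K] (htr : Algebra.trdeg k K = 1) :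
    ∃ h : K, IsChart k h := by
  obtain ⟨s, hs, hsep⟩ := exists_isTranscendenceBasis_and_isSeparable_of_perfectField k K
  have h1 := hs.cardinalMk_eq_trdeg
  rw [htr, Cardinal.mk_coe_finset, Nat.cast_eq_one, Finset.card_eq_one] at h1
  obtain ⟨h, rfl⟩ := h1
  rw [Finset.coe_singleton] at hsep
  have : Algebra.EssFiniteType k⟮h⟯ K := Algebra.EssFiniteType.of_comp k k⟮h⟯ K
  exact ⟨h, hs.1.transcendental ⟨h, Finset.mem_singleton_self h⟩,
    Algebra.finite_of_essFiniteType_of_isAlgebraic, hsep⟩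

lemma IsChart.finiteDimensional {h₀ h : K} (hh : IsChart k h₀) (ht : Transcendental k h) :
    FiniteDimensional k⟮h⟯ K := by
  have := hh.fd
  let e := RatFunc.algEquivOfTranscendental h₀ hh.tr
  let : Algebra (RatFunc k) K := ((algebraMap k⟮h₀⟯ K).comp e.toRingEquiv.toRingHom).toAlgebra
  have he : (algebraMap (RatFunc k) K).comp (e.toRingEquiv.symm : k⟮h₀⟯ →+* RatFunc k) =
      (RingEquiv.refl K : K →+* K).comp (algebraMap k⟮h₀⟯ K) := by
    ext x
    change algebraMap k⟮h₀⟯ K (e (e.symm x)) = _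
    simp
  have : FiniteDimensional (RatFunc k) K :=
    Module.Finite.of_equiv_equiv e.toRingEquiv.symm (RingEquiv.refl K) he
  have : IsScalarTower k (RatFunc k) K := .of_algebraMap_eq fun c => by
    change _ = algebraMap k⟮h₀⟯ K (e _)
    rw [e.commutes, ← IsScalarTower.algebraMap_apply]
  exact FunctionField.finiteDimensional_of_adjoin_transcendental ht

lemma IsChart.of_mem (p : ℕ) [Fact p.Prime] [CharP k p] {h₀ h : K} (hh : IsChart k h₀)
    (ht : Transcendental k h) (hm : h₀ ∈ adjoin k⟮h⟯ (Set.range fun x : K => x ^ p)) :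
    IsChart k h := by
  have hfd := hh.finiteDimensional ht
  have := hh.sep
  have : CharP k⟮h⟯ p := charP_of_injective_algebraMap (algebraMap k _).injective p
  have : CharP k⟮h₀⟯ p := charP_of_injective_algebraMap (algebraMap k _).injective p
  refine ⟨ht, hfd, isSeparable_of_adjoin_pow p ?_⟩
  rw [eq_top_iff]
  intro x _
  have h1 := adjoin_eq_adjoin_pow_expChar_of_isSeparable' k⟮h₀⟯ K Set.univ p
  rw [adjoin_univ, Set.image_univ] at h1
  have h2 : x ∈ adjoin k⟮h₀⟯ (Set.range fun x : K => x ^ p) := h1 ▸ mem_top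
  have h3 : k⟮h₀⟯ ≤ (adjoin k⟮h⟯ (Set.range fun x : K => x ^ p)).restrictScalars k := by
    rwa [adjoin_simple_le_iff]
  induction h2 using adjoin_induction with
  | mem x hx => exact subset_adjoin _ _ hx
  | algebraMap x => exact h3 x.2
  | add x y _ _ hx hy => exact add_mem (hx mem_top) (hy mem_top)
  | inv x _ hx => exact inv_mem (hx mem_top)
  | mul x y _ _ hx hy => exact mul_mem (hx mem_top) (hy mem_top)

section Map

variable (K' : Type) [Field K'] [Algebra K K'] [Algebra k K'] [IsScalarTower k K K']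

lemma surjective_adjoin (h : K) :
    Function.Surjective (algebraMap k⟮h⟯ k⟮algebraMap K K' h⟯) := by
  rintro ⟨y, hy⟩
  have : k⟮algebraMap K K' h⟯ = k⟮h⟯.map (IsScalarTower.toAlgHom k K K') := by
    rw [adjoin_map, Set.image_singleton]
    rfl
  rw [this] at hy
  obtain ⟨x, hx, rfl⟩ := hy
  exact ⟨⟨x, hx⟩, rfl⟩

lemma IsChart.map [FiniteDimensional K K'] [Algebra.IsSeparable K K'] {h : K} (hh : IsChart k h) :
    IsChart k (algebraMap K K' h) := by
  have := hh.fd
  have := hh.sep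
  have : FiniteDimensional k⟮h⟯ K' := Module.Finite.trans K K'
  have : Algebra.IsSeparable k⟮h⟯ K' := Algebra.IsSeparable.trans k⟮h⟯ K K'
  exact ⟨(transcendental_algebraMap_iff (algebraMap K K').injective).2 hh.tr,
    .of_restrictScalars_finite k⟮h⟯ _ _,
    Algebra.isSeparable_tower_top_of_isSeparable k⟮h⟯ _ _⟩

lemma finrank_adjoin_map (h : K) :
    Module.finrank k⟮algebraMap K K' h⟯ K' = Module.finrank k⟮h⟯ K * Module.finrank K K' := by
  rw [Module.finrank_mul_finrank, ← Module.finrank_mul_finrank k⟮h⟯ k⟮algebraMap K K' h⟯ K',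
    Module.finrank_of_bijective_algebraMap
      ⟨(algebraMap k⟮h⟯ k⟮algebraMap K K' h⟯).injective, surjective_adjoin K' h⟩, one_mul]

lemma isIntegralClosure_map (h : K) (R B : Type*) [CommRing R] [CommRing B] [Algebra R K]
    [Algebra R K'] [IsScalarTower R K K'] [Algebra B K'] [IsIntegralClosure B R K']
    [IsIntegralClosure R (Algebra.adjoin k {h}) K] :
    IsIntegralClosure B (Algebra.adjoin k {algebraMap K K' h}) K' := by
  refine ⟨IsIntegralClosure.algebraMap_injective B R K', fun {x} => ?_⟩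
  rw [← IsIntegralClosure.isIntegral_iff (R := R)]
  let f : Algebra.adjoin k {h} →+* R :=
    { toFun := fun a => IsIntegralClosure.mk' R (a : K) (isIntegral_algebraMap (x := a))
      map_one' := IsIntegralClosure.algebraMap_injective R (Algebra.adjoin k {h}) K (by simp)
      map_zero' := IsIntegralClosure.algebraMap_injective R (Algebra.adjoin k {h}) K (by simp)
      map_mul' := fun _ _ =>
        IsIntegralClosure.algebraMap_injective R (Algebra.adjoin k {h}) K (by simp)
      map_add' := fun _ _ =>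
        IsIntegralClosure.algebraMap_injective R (Algebra.adjoin k {h}) K (by simp) }
  let : Algebra (Algebra.adjoin k {h}) R := f.toAlgebra
  have : IsScalarTower (Algebra.adjoin k {h}) R K := .of_algebraMap_eq fun a =>
    (IsIntegralClosure.algebraMap_mk' R (a : K) (isIntegral_algebraMap (x := a))).symm
  have : IsScalarTower (Algebra.adjoin k {h}) R K' := .of_algebraMap_eq fun a => by
    rw [IsScalarTower.algebraMap_apply R K K', ← IsScalarTower.algebraMap_apply _ R K,
      ← IsScalarTower.algebraMap_apply]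
  have : Algebra.IsIntegral (Algebra.adjoin k {h}) R :=
    IsIntegralClosure.isIntegral_algebra _ K
  have : Algebra.IsIntegral (Algebra.adjoin k {h}) (Algebra.adjoin k {algebraMap K K' h}) := by
    refine Algebra.isIntegral_of_surjective ?_
    rintro ⟨y, hy⟩
    have : Algebra.adjoin k {algebraMap K K' h} =
        (Algebra.adjoin k {h}).map (IsScalarTower.toAlgHom k K K') := by
      rw [AlgHom.map_adjoin, Set.image_singleton]
      rfl
    rw [this] at hy
    obtain ⟨x, hx, rfl⟩ := hy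
    exact ⟨⟨x, hx⟩, rfl⟩
  exact ⟨fun hx => (isIntegral_trans (R := Algebra.adjoin k {h}) x hx).tower_top,
    fun hx => (isIntegral_trans (R := Algebra.adjoin k {h}) x hx).tower_top⟩

end Map

lemma Place.mem_of_aeval_mem (O : Place k K) {h : K} {f : k[X]} (hf : f.Monic)
    (hd : f.natDegree ≠ 0) (hm : aeval h f ∈ O.1) : h ∈ O.1 := by
  refine mem_valuationSubring_of_isIntegral O.1 (A := O.1) (fun a => a.2) ?_
  refine IsIntegral.of_aeval_monic_of_isIntegral_coeff (p := f.map (algebraMap k K))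
    (hf.map _) (by rwa [natDegree_map]) ?_ fun i => ?_
  · rw [eval_map_algebraMap]
    exact isIntegral_algebraMap (R := O.1) (x := ⟨_, hm⟩)
  · rw [coeff_map]
    exact isIntegral_algebraMap (R := O.1) (x := ⟨_, O.2.2 _⟩)

lemma mem_of_pow_mem (O : ValuationSubring K) {x : K} {n : ℕ} (hn : 0 < n) (h : x ^ n ∈ O) :
    x ∈ O :=
  mem_valuationSubring_of_isIntegral O (A := O) (fun a => a.2)
    (IsIntegral.of_pow hn (isIntegral_algebraMap (R := O) (x := ⟨_, h⟩)))

theorem IsChart.exists_poles_superset (p : ℕ) [Fact p.Prime] [CharP k p] [Finite k] {h₀ : K}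
    (hh : IsChart k h₀) {S : Set (Place k K)} (hS : S.Finite) :
    ∃ h : K, IsChart k h ∧ ∀ x ∈ S, h ∉ x.1 := by
  classical
  have hM := hh.isModel (Rg k h₀)
  have := hM.ded
  have := hM.frac
  have := hM.finq
  obtain ⟨t, ht⟩ := hM.exists_eq
  have hex : ∀ x : Place k K, ∃ f : k[X], f.Monic ∧ (h₀ ∈ x.1 → (aeval h₀ f)⁻¹ ∉ x.1) := by
    intro x
    by_cases hx : h₀ ∈ x.1
    · obtain ⟨v, rfl⟩ := exists_plc_eq x ((hM.mem_iff x).1 hx)
      have := finiteDimensional_quot k v.ne_bot
      have hi : IsIntegral k (Ideal.Quotient.mkₐ k v.asIdeal t) := IsIntegral.of_finite k _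
      refine ⟨minpoly k (Ideal.Quotient.mkₐ k v.asIdeal t), minpoly.monic hi, fun _ => ?_⟩
      set f := minpoly k (Ideal.Quotient.mkₐ k v.asIdeal t) with hf
      have e : aeval h₀ f = algebraMap _ K (aeval t f) := by rw [← aeval_algebraMap_apply, ht]
      have h1 : aeval t f ≠ 0 := fun h0 =>
        hh.tr ⟨f, minpoly.ne_zero hi, by rw [e, h0, map_zero]⟩
      rw [e, inv_mem_plc_iff h1, not_not, ← Ideal.Quotient.eq_zero_iff_mem]
      have := minpoly.aeval k (Ideal.Quotient.mkₐ k v.asIdeal t)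
      rwa [aeval_algHom_apply] at this
    · exact ⟨1, monic_one, fun h => absurd h hx⟩
  choose f hf hf' using hex
  let g : k[X] := X * ∏ x ∈ hS.toFinset, f x
  have hg : g.Monic := monic_X.mul (monic_prod_of_monic _ _ fun x _ => hf x)
  have hgd : g.natDegree ≠ 0 := by
    rw [monic_X.natDegree_mul (monic_prod_of_monic _ _ fun x _ => hf x), natDegree_X]
    omega
  have hp := (Fact.out : p.Prime).pos
  have h1 : ∀ x : Place k K, h₀ ∉ x.1 → h₀ + (aeval h₀ g)⁻¹ ^ p ∉ x.1 := by
    intro x hx h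
    have : (aeval h₀ g)⁻¹ ∈ x.1 :=
      (x.1.mem_or_inv_mem _).resolve_left fun h => hx (x.mem_of_aeval_mem hg hgd h)
    exact hx (by simpa using sub_mem h (pow_mem this p))
  obtain ⟨Pl, hPl, ⟨y, hy⟩, -⟩ := hh.exists_poles
  refine ⟨h₀ + (aeval h₀ g)⁻¹ ^ p, hh.of_mem p (y.transcendental (h1 y ((hPl y).1 hy))) ?_,
    fun x hx => ?_⟩
  · have := sub_mem (IntermediateField.algebraMap_mem
      (adjoin k⟮h₀ + (aeval h₀ g)⁻¹ ^ p⟯ (Set.range fun x : K => x ^ p))
      (AdjoinSimple.gen k (h₀ + (aeval h₀ g)⁻¹ ^ p))) (subset_adjoin _ _ ⟨(aeval h₀ g)⁻¹, rfl⟩)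
    simpa using this
  · by_cases hx' : h₀ ∈ x.1
    · intro h
      have h2 : (aeval h₀ g)⁻¹ ∈ x.1 := mem_of_pow_mem x.1 hp (by simpa using sub_mem h hx')
      obtain ⟨g', hg'⟩ : f x ∣ g :=
        (Finset.dvd_prod_of_mem f (hS.mem_toFinset.2 hx)).mul_left X
      have h3 : aeval h₀ g' ≠ 0 := fun h0 =>
        hh.tr ⟨g, hg.ne_zero, by rw [hg', map_mul, h0, mul_zero]⟩
      have := mul_mem h2 (x.aeval_mem hx' g')
      rw [hg', map_mul, mul_inv, inv_mul_cancel_right₀ h3] at this
      exact hf' x hx' this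
    · exact h1 x hx'

theorem IsChart.exists_single_pole (p : ℕ) [Fact p.Prime] [CharP k p] [Finite k] {h₀ : K}
    (hh : IsChart k h₀) (x : Place k K) :
    ∃ h : K, IsChart k h ∧ ∀ y : Place k K, y ≠ x → h ∈ y.1 := by
  wlog hx : h₀ ∈ x.1 generalizing h₀
  · exact this hh.inv ((x.1.mem_or_inv_mem h₀).resolve_left hx)
  have hM := hh.isModel (Rg k h₀)
  have := hM.ded
  have := hM.frac
  have := hM.finq
  have := hM.inf
  obtain ⟨v, rfl⟩ := exists_plc_eq x ((hM.mem_iff x).1 hx)
  obtain ⟨F, -, h2, h3⟩ := hM.filt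
  have hv : v.asIdeal ^ (F.ρ * (F.κ + 1) + 1) ≠ ⊥ := pow_ne_zero _ v.ne_bot
  obtain ⟨w, hw1, hw2, hw0⟩ := F.exists_ne_zero_inv hv (j := -F.κ - 2) (by
    rw [ideg_pow k v.ne_bot]
    have h4 : 1 ≤ ideg k v.asIdeal := pdeg_pos k v
    have h5 := Nat.mul_le_mul_left (F.ρ * (F.κ + 1) + 1) h4
    zify at h5
    push_cast
    linarith)
  have h0 : h₀ ≠ 0 := fun h0 => hh.tr (h0 ▸ isAlgebraic_zero)
  obtain ⟨m, hm⟩ : ∃ m, p = m + 1 := ⟨p - 1, (Nat.sub_add_cancel (Fact.out : p.Prime).pos).symm⟩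
  have h4 : ∀ y : Place k K, h₀ ∉ y.1 → h₀ * w ^ p ∈ y.1 ∧ h₀ * (h₀ * w ^ p) ∈ y.1 := by
    intro y hy
    have a1 : w ∈ y.1 := h3 y hy w (F.mono (by omega) hw2)
    have a2 : h₀ * w ∈ y.1 := h3 y hy _ (F.mono (by omega) ((h2 _ _).1 hw2))
    have a3 : h₀ * (h₀ * w) ∈ y.1 := h3 y hy _ (F.mono (by omega) ((h2 _ _).1 ((h2 _ _).1 hw2)))
    rw [hm, pow_succ', ← mul_assoc h₀ w, ← mul_assoc h₀]
    exact ⟨mul_mem a2 (pow_mem a1 m), mul_mem a3 (pow_mem a1 m)⟩
  obtain ⟨Pl, hPl, ⟨y, hy⟩, -⟩ := hh.exists_poles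
  rw [hPl] at hy
  have h5 : (h₀ * w ^ p)⁻¹ ∉ y.1 := fun h => hy (by
    have := mul_mem (h4 y hy).2 h
    rwa [mul_inv_cancel_right₀ (mul_ne_zero h0 (pow_ne_zero _ hw0))] at this)
  refine ⟨h₀ * w ^ p, hh.of_mem p (fun h => y.transcendental h5 h.inv) ?_, fun z hz => ?_⟩
  · have := mul_mem (IntermediateField.algebraMap_mem
      (adjoin k⟮h₀ * w ^ p⟯ (Set.range fun x : K => x ^ p))
      (AdjoinSimple.gen k (h₀ * w ^ p))) (subset_adjoin _ _ ⟨w⁻¹, rfl⟩)
    simpa [pow_ne_zero _ hw0] using this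
  · by_cases hz' : h₀ ∈ z.1
    · refine mul_mem hz' (pow_mem ?_ p)
      obtain ⟨v', rfl⟩ := exists_plc_eq z ((hM.mem_iff z).1 hz')
      have h6 : ¬ v.asIdeal ^ (F.ρ * (F.κ + 1) + 1) ≤ v'.asIdeal := fun h => hz (by
        congr 1
        exact HeightOneSpectrum.ext
          (v.isMaximal.eq_of_le v'.isPrime.ne_top (v'.isPrime.le_of_pow_le h)).symm)
      obtain ⟨s, hs, hs'⟩ := SetLike.not_le_iff_exists.1 h6
      have hs0 : s ≠ 0 := fun h => hs' (h ▸ zero_mem _)
      obtain ⟨r, hr⟩ := (FractionalIdeal.mem_one_iff _).1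
        ((FractionalIdeal.mem_inv_iff (FractionalIdeal.coeIdeal_ne_zero.2 hv)).1
          (mem_invSub.1 hw1) _ (FractionalIdeal.mem_coeIdeal_of_mem _ hs))
      have := mul_mem (algebraMap_mem_plc (k := k) (K := K) v' r) ((inv_mem_plc_iff hs0).2 hs')
      rwa [hr, mul_inv_cancel_right₀ (by simpa using hs0)] at this
    · exact (h4 z hz').1

end Pool.Agent.MP_51ecca_nt

end

section

set_option linter.unusedSectionVars false

namespace Pool.Agent.MP_51ecca_nt

open IsDedekindDomain IntermediateField PowerSeries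
open scoped PowerSeries.WithPiTopology

variable {k K : Type} [Field k] [Finite k] [Field K] [Algebra k K]

theorem zeta_mul_eq {h : K} (hh : IsChart k h) {R : Type*} [CommRing R] [Algebra R K]
    [Algebra k R] [IsScalarTower k R K] [IsDedekindDomain R] [IsFractionRing R K]
    [Ring.HasFiniteQuotients R] [Infinite R] (hM : IsModel k R h) :
    ∃ Pl : Finset (Place k K), (∀ O, O ∈ Pl ↔ h ∉ O.1) ∧ Pl.Nonempty ∧
      (∀ O : Place k K, 0 < O.degree) ∧ ∑ O ∈ Pl, O.degree ≤ Module.finrank k⟮h⟯ K ∧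
      zetaSeries k K * ((∏ O ∈ Pl, (1 - Polynomial.X ^ O.degree) : Polynomial ℚ) : ℚ⟦X⟧) =
        lser k fun _ : Ideal R => (1 : ℚ) := by
  obtain ⟨Pl, h1, h2, h3, h4⟩ := hh.exists_poles
  have hrange : ∀ x, x ∉ Pl ↔ x ∈ Set.range (plc k K (R := R)) := fun x => by
    rw [h1, not_not, hM.mem_iff]
    refine ⟨exists_plc_eq x, ?_⟩
    rintro ⟨v, rfl⟩
    exact algebraMap_mem_plc v
  have hpos : ∀ O : Place k K, 0 < O.degree := fun O => by
    by_cases hO : O ∈ Pl
    · exact h3 O hO
    · obtain ⟨v, rfl⟩ := (hrange O).1 hO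
      rw [degree_plc]
      exact pdeg_pos k v
  have hfin : ∀ d, {O : Place k K | O.degree ≤ d}.Finite := fun d => by
    refine (Pl.finite_toSet.union ((finite_pdeg_le k (R := R) d).image (plc k K))).subset ?_
    intro O hO
    by_cases hO' : O ∈ Pl
    · exact Or.inl hO'
    · obtain ⟨v, rfl⟩ := (hrange O).1 hO'
      exact Or.inr ⟨v, by rwa [Set.mem_ofPred_eq, degree_plc] at hO, rfl⟩
  refine ⟨Pl, h1, h2, hpos, h4, ?_⟩
  have h5 := isEuler_of_injective hpos (plc_injective (k := k) (K := K) (R := R)) Pl hrange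
    (f := lser k fun _ : Ideal R => (1 : ℚ)) (by
      simp_rw [degree_plc]
      exact isEuler_lser k IsMult.one)
  have h6 : ((∏ O ∈ Pl, (1 - Polynomial.X ^ O.degree) : Polynomial ℚ) : ℚ⟦X⟧) =
      ∏ O ∈ Pl, (1 - X ^ O.degree) := by
    rw [← Polynomial.coeToPowerSeries.ringHom_apply, map_prod]
    simp
  rw [zetaSeries, (hasProd_of_isEuler hpos hfin h5).tprod_eq, h6, mul_assoc,
    PowerSeries.inv_mul_cancel, mul_one]
  rw [← h6, constantCoeff_prod_one_sub _ hpos]
  exact one_ne_zero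

/-- The ideal of polynomials that make a power series polynomial. -/
def denIdeal (W : ℚ⟦X⟧) : Ideal (Polynomial ℚ) where
  carrier := {f | ∃ Q : Polynomial ℚ, (Q : ℚ⟦X⟧) = f * W}
  add_mem' := by
    rintro f g ⟨Q, hQ⟩ ⟨Q', hQ'⟩
    exact ⟨Q + Q', by rw [Polynomial.coe_add, Polynomial.coe_add, hQ, hQ', add_mul]⟩
  zero_mem' := ⟨0, by simp⟩
  smul_mem' := by
    rintro c f ⟨Q, hQ⟩
    exact ⟨c * Q, by rw [smul_eq_mul, Polynomial.coe_mul, Polynomial.coe_mul, hQ, mul_assoc]⟩

lemma one_sub_mem_of_forall_prime {A : Type*} [CommRing A] (I : Ideal A) (y : A)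
    (h : ∀ l : ℕ, l.Prime → ∃ d, ¬ l ∣ d ∧ 1 - y ^ d ∈ I) : 1 - y ∈ I := by
  have h1 : orderOf (Ideal.Quotient.mk I y) = 1 := by
    by_contra hne
    obtain ⟨l, hl, hld⟩ := Nat.exists_prime_and_dvd hne
    obtain ⟨d, hd, hd'⟩ := h l hl
    rw [← Ideal.Quotient.eq, map_one, map_pow] at hd'
    exact hd (hld.trans (orderOf_dvd_of_pow_eq_one hd'.symm))
  rw [orderOf_eq_one_iff] at h1
  rw [← Ideal.Quotient.eq, map_one, h1]

end Pool.Agent.MP_51ecca_nt

end

section

set_option linter.unusedSectionVars false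

namespace Pool.Agent.MP_51ecca_nt

open IsDedekindDomain IntermediateField Polynomial

section Layer

variable {k K : Type} (K' : Type) [Field k] [Finite k] [Field K] [Algebra k K] [Field K']
  [Algebra K K'] [Algebra k K'] [IsScalarTower k K K'] {h : K} (R : Type) [CommRing R]
  [Algebra R K] [Algebra k R] [IsScalarTower k R K] [IsIntegralClosure R (Algebra.adjoin k {h}) K]
  [Algebra R K'] [IsScalarTower R K K'] [IsScalarTower k R K']

lemma IsChart.isModel_map [FiniteDimensional K K'] [Algebra.IsSeparable K K'] (hh : IsChart k h) :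
    IsModel k (integralClosure R K') (algebraMap K K' h) :=
  have := isIntegralClosure_map K' h R (integralClosure R K') (k := k)
  (hh.map K').isModel _

omit [Finite k] [IsIntegralClosure R (Algebra.adjoin k {h}) K] [IsScalarTower k R K']
  [Algebra k K] [Algebra k K'] [IsScalarTower k K K'] [Algebra k R] [IsScalarTower k R K] in
lemma smulCommClass_of_isGaloisGroup (G : Type*) [Group G] [MulSemiringAction G K']
    [IsGaloisGroup G K K'] : SMulCommClass G R K' :=
  ⟨fun g r x => by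
    rw [← IsScalarTower.algebraMap_smul K r, ← IsScalarTower.algebraMap_smul K r,
      (IsGaloisGroup.commutes (G := G) (A := K) (B := K')).smul_comm]⟩

omit [Finite k] [IsIntegralClosure R (Algebra.adjoin k {h}) K] [IsScalarTower k R K']
  [Algebra k K] [Algebra k K'] [IsScalarTower k K K'] [Algebra k R] [IsScalarTower k R K] in
lemma faithfulSMul_integralClosure [IsFractionRing R K] :
    FaithfulSMul R (integralClosure R K') := by
  rw [faithfulSMul_iff_algebraMap_injective]
  intro x y hxy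
  have := congrArg (algebraMap (integralClosure R K') K') hxy
  rw [← IsScalarTower.algebraMap_apply, ← IsScalarTower.algebraMap_apply,
    IsScalarTower.algebraMap_apply R K K', IsScalarTower.algebraMap_apply R K K'] at this
  exact IsFractionRing.injective R K ((algebraMap K K').injective this)

end Layer

theorem IsChart.exists_not_dvd {k K : Type} [Field k] [Finite k] [Field K] [Algebra k K] {h : K}
    (hh : IsChart k h) (hgeom : algebraicClosure k K = ⊥) (R : Type) [CommRing R]
    [Algebra R K] [Algebra k R] [IsScalarTower k R K]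
    [IsIntegralClosure R (Algebra.adjoin k {h}) K] {l : ℕ} (hl : l.Prime) :
    ∃ v : HeightOneSpectrum R, ¬ l ∣ pdeg k v := by
  by_contra! hdvd
  have hM := hh.isModel R
  have := hM.ded
  have := hM.frac
  have := hM.finq
  have := hM.inf
  let := Fintype.ofFinite k
  obtain ⟨p, hchar, n, hp, hq⟩ := FiniteField.card' k
  have := Fact.mk hp
  rw [← Nat.card_eq_fintype_card] at hq
  have : CharP K p := charP_of_injective_algebraMap (algebraMap k K).injective p
  set q := Nat.card k with hqdef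
  have hq1 : 1 < q := one_lt_card k
  let f : K[X] := X ^ q ^ l - X
  have hsep : f.Separable := galois_poly_separable p _
    (dvd_pow (hq ▸ dvd_pow_self p n.ne_zero) hl.ne_zero)
  have hf0 : f ≠ 0 := FiniteField.X_pow_card_pow_sub_X_ne_zero K hl.ne_zero hq1
  have hfd : f.natDegree = q ^ l := FiniteField.X_pow_card_pow_sub_X_natDegree_eq K hl.ne_zero hq1
  let K' := f.SplittingField
  have : CharP K' p := charP_of_injective_algebraMap (algebraMap K K').injective p
  have : IsGalois K K' := IsGalois.of_separable_splitting_field hsep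
  have : IsScalarTower k R K' := .of_algebraMap_eq fun c => by
    rw [IsScalarTower.algebraMap_apply k K K', IsScalarTower.algebraMap_apply R K K',
      ← IsScalarTower.algebraMap_apply k R K]
  have hroot : ∀ a : K', a ∈ f.rootSet K' ↔ a ^ q ^ l = a := fun a => by
    rw [mem_rootSet_of_ne hf0]
    simp [f, sub_eq_zero]
  let G := K' ≃ₐ[K] K'
  have := smulCommClass_of_isGaloisGroup (K := K) K' R G
  have := faithfulSMul_integralClosure (K := K) K' R
  let B := integralClosure R K'
  have hM' : IsModel k B _ := hh.isModel_map K' R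
  have := hM'.ded
  have := hM'.frac
  have := hM'.finq
  have := hM'.inf
  have : IsGaloisGroup G R B := IsGaloisGroup.of_isFractionRing G R B K K'
  have key : ∀ (σ : G) (w : HeightOneSpectrum B),
      (∀ a : B, a ^ q ^ l = a → σ • a - a ∈ w.asIdeal) → σ = 1 := by
    intro σ w hσ
    apply AlgEquiv.coe_toAlgHom_injective
    refine AlgHom.ext_of_adjoin_eq_top (IsSplittingField.adjoin_rootSet K' f) fun a ha => ?_
    rw [hroot] at ha
    have hi : IsIntegral R a := by
      refine ⟨X ^ q ^ l - X, monic_X_pow_sub ?_, by simp [ha]⟩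
      rw [degree_X]
      exact_mod_cast Nat.one_lt_pow hl.ne_zero hq1
    have h1 := hσ ⟨a, hi⟩ (Subtype.ext ha)
    set b : B := σ • (⟨a, hi⟩ : B) - ⟨a, hi⟩ with hb
    have h2 : b ^ q ^ l = b := by
      apply Subtype.ext
      change (σ a - a) ^ q ^ l = σ a - a
      rw [hq, ← pow_mul, sub_pow_char_pow, pow_mul, ← hq, ← map_pow, ha]
    have h3 : b = 0 := by
      by_contra hb0
      obtain ⟨m, hm⟩ : ∃ m, q ^ l = m + 2 :=
        ⟨q ^ l - 2, by have := Nat.one_lt_pow hl.ne_zero hq1; omega⟩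
      rw [hm, pow_succ, mul_left_eq_self₀, or_iff_left hb0] at h2
      exact w.isPrime.ne_top ((Ideal.eq_top_iff_one _).2
        (h2 ▸ Ideal.pow_mem_of_mem _ h1 _ (Nat.succ_pos m)))
    exact sub_eq_zero.1 (congrArg Subtype.val h3)
  have hin : ∀ w : HeightOneSpectrum B, w.asIdeal.inertia G = ⊥ := fun w =>
    eq_bot_iff.2 fun σ hσ => key σ w fun a _ => hσ a
  have hG : 1 < Nat.card G := by
    rw [Finite.one_lt_card_iff_nontrivial]
    by_contra hG
    rw [not_nontrivial_iff_subsingleton] at hG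
    have h1 : f.rootSet K' ⊆ Set.range (algebraMap k K') := by
      intro a ha
      rw [hroot] at ha
      obtain ⟨b, rfl⟩ := (IsGaloisGroup.isInvariant (G := G) (A := K) (B := K')).isInvariant a
        fun g => by rw [Subsingleton.elim g 1, one_smul]
      have hb : b ∈ algebraicClosure k K := by
        rw [mem_algebraicClosure_iff]
        refine ⟨X ^ q ^ l - X, FiniteField.X_pow_card_pow_sub_X_ne_zero k hl.ne_zero hq1, ?_⟩
        apply (algebraMap K K').injective
        simp [ha]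
      rw [hgeom, IntermediateField.mem_bot] at hb
      obtain ⟨c, rfl⟩ := hb
      exact ⟨c, IsScalarTower.algebraMap_apply k K K' c⟩
    have h2 := Set.ncard_le_ncard h1 (Set.finite_range _)
    rw [Set.ncard_range_of_injective (algebraMap k K').injective, ← Nat.card_coe_set_eq,
      Nat.card_eq_fintype_card, card_rootSet_eq_natDegree hsep (SplittingField.splits f), hfd]
      at h2
    exact absurd h2 (not_le.2 (lt_self_pow₀ hq1 hl.one_lt))
  obtain ⟨F, -⟩ := hM.filt
  obtain ⟨F', -⟩ := hM'.filt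
  refine not_finite_nonsplit k F F' hin hG ∅ fun w _ => ?_
  have := w.isPrime
  have := Ring.HasFiniteQuotients.finiteQuotient w.ne_bot
  obtain ⟨σ, hσ⟩ := IsArithFrobAt.exists_of_isInvariant R G w.asIdeal
  have h1 : σ = 1 := key σ w fun a ha => by
    have h2 := hσ a
    obtain ⟨m, hm⟩ := hdvd (w.under R)
    have h3 : Nat.card (R ⧸ w.asIdeal.under R) = (q ^ l) ^ m := by
      rw [← pow_mul, ← hm]
      exact card_quot_eq k (w.under R).ne_bot
    have h4 : ∀ m, a ^ (q ^ l) ^ m = a := fun m => by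
      induction m with
      | zero => simp
      | succ m ih => rw [pow_succ, pow_mul, ih, ha]
    rwa [h3, h4] at h2
  rwa [h1] at hσ

theorem IsChart.exists_poly_lser_one {k K : Type} [Field k] [Finite k] [Field K] [Algebra k K]
    {h : K} (hh : IsChart k h) (hgeom : algebraicClosure k K = ⊥) (R : Type) [CommRing R]
    [Algebra R K] [Algebra k R] [IsScalarTower k R K]
    [IsIntegralClosure R (Algebra.adjoin k {h}) K] [Ring.HasFiniteQuotients R] :
    ∃ Q : ℚ[X], (Q : PowerSeries ℚ) =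
      (1 - (Nat.card k : PowerSeries ℚ) * PowerSeries.X) * lser k fun _ : Ideal R => (1 : ℚ) := by
  have hM := hh.isModel R
  have := hM.ded
  have := hM.frac
  have := hM.inf
  obtain ⟨F, -⟩ := hM.filt
  obtain ⟨Q, hQ⟩ := one_sub_mem_of_forall_prime (denIdeal (lser k fun _ : Ideal R => (1 : ℚ)))
    (C (Nat.card k : ℚ) * X) fun l hl => by
      obtain ⟨v, hv⟩ := hh.exists_not_dvd hgeom R hl
      obtain ⟨Q, hQ, -⟩ := F.exists_poly_zeta v.ne_bot (pdeg_pos k v)
      refine ⟨_, hv, Q, ?_⟩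
      rw [hQ, mul_pow, ← map_pow, Polynomial.coe_sub, Polynomial.coe_one, Polynomial.coe_mul,
        Polynomial.coe_C, Polynomial.coe_pow, Polynomial.coe_X, pdeg]
  refine ⟨Q, ?_⟩
  rw [hQ, Polynomial.coe_sub, Polynomial.coe_one, Polynomial.coe_mul, Polynomial.coe_C,
    Polynomial.coe_X, map_natCast]

theorem IsChart.exists_poly_zetaSeries (p : ℕ) [Fact p.Prime] {k K : Type} [Field k] [Finite k]
    [CharP k p] [Field K] [Algebra k K] {h : K} (hh : IsChart k h)
    (hgeom : algebraicClosure k K = ⊥) :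
    ∃ P : ℚ[X], (P : PowerSeries ℚ) = (1 - PowerSeries.X) *
      (1 - (Nat.card k : PowerSeries ℚ) * PowerSeries.X) * zetaSeries k K := by
  obtain ⟨Q, hQ⟩ := one_sub_mem_of_forall_prime
    (denIdeal ((1 - (Nat.card k : PowerSeries ℚ) * PowerSeries.X) * zetaSeries k K))
    X fun l hl => by
      have hM := hh.isModel (Rg k h)
      have := hM.ded
      have := hM.frac
      have := hM.finq
      obtain ⟨v, hv⟩ := hh.exists_not_dvd hgeom (Rg k h) hl
      obtain ⟨h', hh', h1⟩ := hh.exists_single_pole p (plc k K v)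
      have hM' := hh'.isModel (Rg k h')
      have := hM'.ded
      have := hM'.frac
      have := hM'.finq
      have := hM'.inf
      obtain ⟨Pl, h2, h3, -, -, h4⟩ := zeta_mul_eq hh' hM'
      have h5 : Pl = {plc k K v} := h3.subset_singleton_iff.1 fun y hy => by
        rw [Finset.mem_singleton]
        by_contra hne
        exact (h2 y).1 hy (h1 y hne)
      obtain ⟨Q, hQ⟩ := hh'.exists_poly_lser_one hgeom (Rg k h')
      rw [h5, Finset.prod_singleton, degree_plc] at h4
      exact ⟨_, hv, Q, by rw [hQ, ← h4]; ring⟩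
  exact ⟨Q, by simp [hQ, mul_assoc]⟩

end Pool.Agent.MP_51ecca_nt

end

section

set_option linter.unusedSectionVars false

namespace Pool.Agent.MP_51ecca_nt

open IsDedekindDomain IntermediateField Polynomial

lemma isOfFinOrder_of_mem_roots {Ω ι : Type*} [Field Ω] [CharZero Ω] (T : Finset ι) {deg : ι → ℕ}
    (hpos : ∀ i, 0 < deg i) :
    ∀ z ∈ ((∏ i ∈ T, (1 - X ^ deg i : ℚ[X])).map (algebraMap ℚ Ω)).roots, IsOfFinOrder z := by
  intro z hz
  have h1 := (isRoot_of_mem_roots hz).eq_zero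
  rw [Polynomial.map_prod, eval_prod, Finset.prod_eq_zero_iff] at h1
  obtain ⟨i, -, hi⟩ := h1
  refine isOfFinOrder_iff_pow_eq_one.2 ⟨deg i, hpos i, ?_⟩
  symm
  simpa [sub_eq_zero] using hi

lemma natDegree_prod_one_sub_le {ι : Type*} (T : Finset ι) (deg : ι → ℕ) :
    (∏ i ∈ T, (1 - X ^ deg i : ℚ[X])).natDegree ≤ ∑ i ∈ T, deg i :=
  (natDegree_prod_le _ _).trans (Finset.sum_le_sum fun i _ =>
    (natDegree_sub_le _ _).trans (by simp))

theorem exists_bound (p : ℕ) [Fact p.Prime] {k K : Type} (K₁ : Type) [Field k] [Finite k]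
    [CharP k p] [Field K] [Algebra k K] [Field K₁] [Algebra K K₁] [Algebra k K₁]
    [IsScalarTower k K K₁] [FiniteDimensional K K₁] [IsGalois K K₁] {h : K} (hh : IsChart k h)
    (R : Type) [CommRing R] [Algebra R K] [Algebra k R] [IsScalarTower k R K]
    [IsIntegralClosure R (Algebra.adjoin k {h}) K]
    (hgeom : algebraicClosure k K = ⊥) (hgeom₁ : algebraicClosure k K₁ = ⊥)
    (hG₁ : 1 < Nat.card (K₁ ≃ₐ[K] K₁)) (hexp₁ : ∀ g : K₁ ≃ₐ[K] K₁, g ^ p = 1)
    (hun₁ : ∀ y : Place k K₁, algebraMap K K₁ h ∈ y.1 → y.1.inertiaSubgroup K = ⊥) :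
    ∃ N : ℕ, ∀ (n : ℕ) (K' : Type) [Field K'] [Algebra K K'] [Algebra K₁ K'] [Algebra k K']
      [IsScalarTower k K K'] [IsScalarTower K K₁ K'] [FiniteDimensional K K'] [IsGalois K K']
      (_ : (K' ≃ₐ[K] K') ≃* Multiplicative (ZMod (p ^ n)))
      (_ : ∀ y : Place k K', algebraMap K K' h ∈ y.1 → y.1.inertiaSubgroup K = ⊥)
      (P : ℚ[X]) (_ : (P : PowerSeries ℚ) = (1 - PowerSeries.X) *
        (1 - (Nat.card k : PowerSeries ℚ) * PowerSeries.X) * zetaSeries k K')
      (Ω : Type) [Field Ω] [IsAlgClosed Ω] [CharZero Ω] (ψ : AddChar (ZMod (p ^ n)) Ω)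
      (_ : ψ.IsPrimitive),
      {u : ZMod (p ^ n) | ∃ τ : Ω →+* Ω, (∀ z ∈ (P.map (algebraMap ℚ Ω)).roots, τ z = z) ∧
        ∀ y, τ (ψ y) = ψ (u * y)}.ncard ≤ N := by
  have hM := hh.isModel R
  have := hM.ded
  have := hM.frac
  have := hM.finq
  have := hM.inf
  let : Algebra R K₁ := ((algebraMap K K₁).comp (algebraMap R K)).toAlgebra
  have : IsScalarTower R K K₁ := .of_algebraMap_eq fun _ => rfl
  have : IsScalarTower k R K₁ := .of_algebraMap_eq fun c => by
    rw [IsScalarTower.algebraMap_apply k K K₁, IsScalarTower.algebraMap_apply R K K₁,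
      ← IsScalarTower.algebraMap_apply k R K]
  let G₁ := K₁ ≃ₐ[K] K₁
  have := smulCommClass_of_isGaloisGroup (K := K) K₁ R G₁
  have := faithfulSMul_integralClosure (K := K) K₁ R
  let B₁ := integralClosure R K₁
  have hM₁ : IsModel k B₁ _ := hh.isModel_map K₁ R
  have := hM₁.ded
  have := hM₁.frac
  have := hM₁.finq
  have := hM₁.inf
  have : IsGaloisGroup G₁ R B₁ := IsGaloisGroup.of_isFractionRing G₁ R B₁ K K₁
  have hin₁ : ∀ w : HeightOneSpectrum B₁, w.asIdeal.inertia G₁ = ⊥ := fun w =>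
    inertia_eq_bot (k := k) (K := K₁) (K₀ := K) (fun _ _ => rfl) w
      (hun₁ _ ((hM₁.mem_iff _).2 (algebraMap_mem_plc w)))
  obtain ⟨F, -⟩ := hM.filt
  obtain ⟨F₁, -⟩ := hM₁.filt
  obtain ⟨x₁, hρ, hx₁⟩ : ∃ x₁ : HeightOneSpectrum B₁,
      2 * Module.finrank k⟮h⟯ K < pdeg k (x₁.under R) ∧ ¬ IsArithFrobAt R (1 : G₁) x₁.asIdeal := by
    by_contra! hall
    refine not_finite_nonsplit k F F₁ hin₁ hG₁
      (finite_pdeg_le k (2 * Module.finrank k⟮h⟯ K)).toFinset fun w hw => hall w ?_
    simpa using hw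
  have hS₁ : ∃ y : HeightOneSpectrum B₁, ¬ p ∣ pdeg k y :=
    have := isIntegralClosure_map K₁ h R B₁ (k := k)
    (hh.map K₁).exists_not_dvd hgeom₁ B₁ Fact.out
  obtain ⟨Q, hQ⟩ := hh.exists_poly_lser_one hgeom R
  refine ⟨{v : HeightOneSpectrum R | pdeg k v ≤ pdeg k (x₁.under R)}.ncard, ?_⟩
  intro n K' _ _ _ _ _ _ _ _ e hun P hP Ω _ _ _ ψ hψ
  have : NeZero (p ^ n) := ⟨pow_ne_zero _ (Fact.out : p.Prime).ne_zero⟩
  let : Algebra R K' := ((algebraMap K K').comp (algebraMap R K)).toAlgebra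
  have : IsScalarTower R K K' := .of_algebraMap_eq fun _ => rfl
  have : IsScalarTower k R K' := .of_algebraMap_eq fun c => by
    rw [IsScalarTower.algebraMap_apply k K K', IsScalarTower.algebraMap_apply R K K',
      ← IsScalarTower.algebraMap_apply k R K]
  have : IsScalarTower R K₁ K' := .of_algebraMap_eq fun c => by
    rw [IsScalarTower.algebraMap_apply R K K', IsScalarTower.algebraMap_apply R K K₁,
      ← IsScalarTower.algebraMap_apply K K₁ K']
  let G := Multiplicative (ZMod (p ^ n))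
  let : MulSemiringAction G K' := MulSemiringAction.compHom K' e.symm.toMonoidHom
  have hGal : IsGaloisGroup G K K' := IsGaloisGroup.of_mulEquiv_algEquiv e.symm fun _ _ => rfl
  have := hGal.faithful
  have := smulCommClass_of_isGaloisGroup (K := K) K' R G
  have := faithfulSMul_integralClosure (K := K) K' R
  let B := integralClosure R K'
  have hM' : IsModel k B _ := hh.isModel_map K' R
  have := hM'.ded
  have := hM'.frac
  have := hM'.finq
  have := hM'.inf
  have : IsGaloisGroup G R B := IsGaloisGroup.of_isFractionRing G R B K K'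
  have hin : ∀ w : HeightOneSpectrum B, w.asIdeal.inertia G = ⊥ := fun w =>
    inertia_eq_bot (k := k) (K := K') (K₀ := K) (fun _ _ => rfl) w
      (hun _ ((hM'.mem_iff _).2 (algebraMap_mem_plc w)))
  let f := (IsScalarTower.toAlgHom R K₁ K').mapIntegralClosure
  let : Algebra B₁ B := f.toRingHom.toAlgebra
  have : IsScalarTower R B₁ B := .of_algebraMap_eq fun r => (f.commutes r).symm
  have : FaithfulSMul B₁ B := (faithfulSMul_iff_algebraMap_injective B₁ B).2 fun x y hxy =>
    Subtype.ext ((algebraMap K₁ K').injective (congrArg Subtype.val hxy))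
  obtain ⟨Pl, -, -, hpos, hdeg, hZ⟩ := zeta_mul_eq (hh.map K') hM'
  refine ncard_le k (B := B) (G := G) F F₁ hin₁ hin hG₁ hexp₁ (MulEquiv.refl _) hS₁ x₁ hx₁ hρ
    (E := ∏ O ∈ Pl, (1 - X ^ O.degree)) ?_ hQ (isOfFinOrder_of_mem_roots Pl hpos) ?_ hψ
  · rw [Polynomial.coe_mul, hP, mul_assoc, hZ]
  · refine (natDegree_prod_one_sub_le _ _).trans (hdeg.trans (le_of_eq ?_))
    rw [finrank_adjoin_map, ← IsGalois.card_aut_eq_finrank K K', Nat.card_congr e.toEquiv,
      Nat.card_eq_fintype_card, Fintype.card_multiplicative, ZMod.card]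

lemma finrank_adjoin_le (F Ω : Type*) [Field F] [CharZero F] [Field Ω] [Algebra F Ω]
    [IsAlgClosure F Ω] {N : ℕ} [NeZero N] {ζ : Ω} (hζ : IsPrimitiveRoot ζ N) :
    Module.finrank F F⟮ζ⟯ ≤ {u : ZMod N | ∃ τ : Ω ≃ₐ[F] Ω, τ ζ = ζ ^ u.val}.ncard := by
  have := IsAlgClosure.isAlgClosed F (K := Ω)
  have hi : IsIntegral F ζ := Algebra.IsIntegral.isIntegral ζ
  rw [adjoin.finrank hi, ← card_rootSet_eq_natDegree (K := Ω)
    (Algebra.IsSeparable.isSeparable F ζ) (IsAlgClosed.splits _), ← Nat.card_eq_fintype_card,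
    Nat.card_coe_set_eq]
  refine le_trans (Set.ncard_le_ncard ?_ ((Set.toFinite _).image fun u : ZMod N => ζ ^ u.val))
    (Set.ncard_image_le (Set.toFinite _))
  intro z hz
  obtain ⟨τ, hτ⟩ := minpoly.exists_algEquiv_of_root' hi.isAlgebraic (aeval_eq_zero_of_mem_rootSet hz)
  obtain ⟨i, hi, hi'⟩ := hζ.eq_pow_of_pow_eq_one (ξ := z) (by
    rw [← hτ, ← map_pow, hζ.pow_eq_one, map_one])
  refine ⟨i, ⟨τ, ?_⟩, ?_⟩
  · rw [ZMod.val_cast_of_lt hi, hi', hτ]
  · simp only
    rw [ZMod.val_cast_of_lt hi, hi']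

end Pool.Agent.MP_51ecca_nt

end

section

set_option linter.unusedSectionVars false

namespace Pool.Agent.MP_51ecca_nt

open IsDedekindDomain IntermediateField Polynomial

lemma totient_le_mul (p n : ℕ) [Fact p.Prime] (P : ℚ[X]) (hP : P ≠ 0) (N : ℕ)
    (hN : ∀ (Ω : Type) [Field Ω] [IsAlgClosed Ω] [CharZero Ω]
      (ψ : AddChar (ZMod (p ^ (n + 1))) Ω) (_ : ψ.IsPrimitive),
      {u : ZMod (p ^ (n + 1)) | ∃ τ : Ω →+* Ω, (∀ z ∈ (P.map (algebraMap ℚ Ω)).roots, τ z = z) ∧
        ∀ y, τ (ψ y) = ψ (u * y)}.ncard ≤ N) :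
    (p ^ (n + 1)).totient ≤ (IsLocalRing.maximalIdeal ℤ_[p]).ramificationIdxIn
      (integralClosure ℤ_[p] (P.map (algebraMap ℚ ℚ_[p])).SplittingField) * N := by
  have : NeZero (p ^ (n + 1)) := ⟨pow_ne_zero _ (Fact.out : p.Prime).ne_zero⟩
  let F := (P.map (algebraMap ℚ ℚ_[p])).SplittingField
  have : CharZero F := charZero_of_injective_algebraMap (algebraMap ℚ_[p] F).injective
  let Ω := AlgebraicClosure F
  obtain ⟨ζ, hζ⟩ := HasEnoughRootsOfUnity.exists_primitiveRoot Ω (p ^ (n + 1))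
  have hi : IsIntegral F ζ := Algebra.IsIntegral.isIntegral ζ
  have := adjoin.finiteDimensional hi
  have hζ' : IsPrimitiveRoot (AdjoinSimple.gen F ζ) (p ^ (n + 1)) :=
    IsPrimitiveRoot.of_map_of_injective (f := algebraMap F⟮ζ⟯ Ω) hζ (algebraMap F⟮ζ⟯ Ω).injective
  refine (totient_le_ram p n F F⟮ζ⟯ hζ').trans (Nat.mul_le_mul_left _ ?_)
  refine (finrank_adjoin_le F Ω hζ).trans (le_trans (Set.ncard_le_ncard ?_ (Set.toFinite _))
    (hN Ω _ (AddChar.zmodChar_primitive_of_primitive_root _ hζ)))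
  rintro u ⟨τ, hτ⟩
  refine ⟨τ.toRingEquiv.toRingHom, fun z hz => ?_, fun y => ?_⟩
  · have e : P.map (algebraMap ℚ Ω) =
        ((P.map (algebraMap ℚ ℚ_[p])).map (algebraMap ℚ_[p] F)).map (algebraMap F Ω) := by
      rw [Polynomial.map_map, Polynomial.map_map]
      congr 1
    rw [e] at hz
    obtain ⟨y, rfl⟩ := (SplittingField.splits (P.map (algebraMap ℚ ℚ_[p]))).mem_range_of_isRoot
      (map_ne_zero (map_ne_zero hP)) (isRoot_of_mem_roots hz)
    exact τ.commutes y
  · conv_rhs => rw [← ZMod.natCast_zmod_val u, ← ZMod.natCast_zmod_val y, ← Nat.cast_mul]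
    rw [AddChar.zmodChar_apply', AddChar.zmodChar_apply, map_pow, pow_mul, ← hτ]
    rfl

lemma IsChart.ne_zero_of_eq {k K : Type} [Field k] [Finite k] [Field K] [Algebra k K] {h : K}
    (hh : IsChart k h) {P : ℚ[X]} (hP : (P : PowerSeries ℚ) = (1 - PowerSeries.X) *
      (1 - (Nat.card k : PowerSeries ℚ) * PowerSeries.X) * zetaSeries k K) : P ≠ 0 := by
  intro h0
  have hM := hh.isModel (Rg k h)
  have := hM.ded
  have := hM.frac
  have := hM.finq
  have := hM.inf
  obtain ⟨Pl, -, -, -, -, hZ⟩ := zeta_mul_eq hh hM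
  have h1 := congrArg PowerSeries.constantCoeff hZ
  have h2 := congrArg PowerSeries.constantCoeff hP
  rw [map_mul, constantCoeff_lser k IsMult.one] at h1
  rw [h0] at h2
  simp only [Polynomial.coe_zero, map_zero, map_mul, map_sub, map_one,
    PowerSeries.constantCoeff_X, sub_zero, mul_zero, one_mul] at h2
  rw [← h2, zero_mul] at h1
  exact zero_ne_one h1

theorem wan (p : ℕ) [Fact p.Prime] (k K L : Type) [Field k] [Finite k] [CharP k p]
    [Field K] [Field L] [Algebra k K] [Algebra K L] [Algebra k L] [IsScalarTower k K L]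
    [Algebra.EssFiniteType k K] (htr : Algebra.trdeg k K = 1)
    (T : ℕ → IntermediateField K L) (hmono : Monotone T)
    (hgal : ∀ n, IsGalois K (T n))
    (hcyc : ∀ n, Nonempty ((T n ≃ₐ[K] T n) ≃* Multiplicative (ZMod (p ^ n))))
    (hgeom : ∀ n, algebraicClosure k (T n) = ⊥)
    (hS : (ramificationLocus k T).Finite) :
    ∃ P : ℕ → ℚ[X],
      (∀ n, (P n : PowerSeries ℚ) =
        (1 - PowerSeries.X) * (1 - (Nat.card k : PowerSeries ℚ) * PowerSeries.X) *
          zetaSeries k (T n)) ∧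
      ∃ c : ℝ, 0 < c ∧ ∀ᶠ n in Filter.atTop,
        c * (p : ℝ) ^ n ≤ ((IsLocalRing.maximalIdeal ℤ_[p]).ramificationIdxIn
          (integralClosure ℤ_[p] ((P n).map (algebraMap ℚ ℚ_[p])).SplittingField) : ℕ) := by
  have hp : p.Prime := Fact.out
  have hcard : ∀ n, Nat.card (T n ≃ₐ[K] T n) = p ^ n := fun n => by
    obtain ⟨e⟩ := hcyc n
    rw [Nat.card_congr e.toEquiv, Nat.card_congr Multiplicative.toAdd, Nat.card_zmod]
  have hfd : ∀ n, FiniteDimensional K (T n) := fun n => by
    have : Finite (T n ≃ₐ[K] T n) :=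
      Nat.finite_of_card_ne_zero (hcard n ▸ pow_ne_zero _ hp.ne_zero)
    exact IsGaloisGroup.finiteDimensional (T n ≃ₐ[K] T n) K (T n)
  have hgeom₀ : algebraicClosure k K = ⊥ := by
    rw [eq_bot_iff]
    intro x hx
    have : algebraMap K (T 0) x ∈ algebraicClosure k (T 0) :=
      mem_algebraicClosure_iff.2 ((mem_algebraicClosure_iff.1 hx).algebraMap)
    rw [hgeom 0, IntermediateField.mem_bot] at this
    obtain ⟨c, hc⟩ := this
    rw [IsScalarTower.algebraMap_apply k K (T 0)] at hc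
    exact ⟨c, (algebraMap K (T 0)).injective hc⟩
  obtain ⟨h₀, hh₀⟩ := exists_isChart htr
  obtain ⟨h, hh, hSh⟩ := hh₀.exists_poles_superset p hS
  have hun : ∀ n, ∀ y : Place k (T n), algebraMap K (T n) h ∈ y.1 →
      y.1.inertiaSubgroup K = ⊥ := by
    intro n y hy
    by_contra hne
    let x : Place k K := ⟨y.1.comap (algebraMap K (T n)), fun htop => y.2.1 (eq_top_iff.2
      fun z _ => mem_valuationSubring_of_isIntegral y.1 (A := K)
        (fun a => ValuationSubring.mem_comap.1 (htop ▸ ValuationSubring.mem_top a))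
        (Algebra.IsIntegral.isIntegral z)), fun c => by
      rw [ValuationSubring.mem_comap, ← IsScalarTower.algebraMap_apply]
      exact y.2.2 c⟩
    exact hSh x ⟨n, y, rfl, hne⟩ hy
  have hch : ∀ n, IsChart k (algebraMap K (T n) h) := fun n =>
    have := (hgal n).to_isSeparable
    hh.map (T n)
  choose P hP using fun n => (hch n).exists_poly_zetaSeries p (hgeom n)
  refine ⟨P, hP, ?_⟩
  obtain ⟨N, hN⟩ := exists_bound p (T 1) hh (Rg k h) hgeom₀ (hgeom 1)
    (by rw [hcard, pow_one]; exact hp.one_lt)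
    (fun g => by have := pow_card_eq_one' (x := g); rwa [hcard, pow_one] at this) (hun 1)
  refine ⟨1 / (2 * (N + 1)), by positivity, ?_⟩
  filter_upwards [Filter.eventually_ge_atTop 1] with n hn
  obtain ⟨n, rfl⟩ : ∃ m, n = m + 1 := ⟨n - 1, by omega⟩
  obtain ⟨e⟩ := hcyc (n + 1)
  let : Algebra (T 1) (T (n + 1)) := (IntermediateField.inclusion (hmono hn)).toRingHom.toAlgebra
  have : IsScalarTower K (T 1) (T (n + 1)) := .of_algebraMap_eq fun _ => rfl
  have hP0 : P (n + 1) ≠ 0 := (hch (n + 1)).ne_zero_of_eq (hP (n + 1))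
  have := hfd (n + 1)
  have := hgal (n + 1)
  have h1 := totient_le_mul p n (P (n + 1)) hP0 N
    (hN (n + 1) (T (n + 1)) e (hun (n + 1)) (P (n + 1)) (hP (n + 1)))
  generalize (IsLocalRing.maximalIdeal ℤ_[p]).ramificationIdxIn
    (integralClosure ℤ_[p] ((P (n + 1)).map (algebraMap ℚ ℚ_[p])).SplittingField) = r at h1 ⊢
  rw [Nat.totient_prime_pow_succ hp] at h1
  have h2 : p ^ (n + 1) ≤ 2 * (N + 1) * r := by
    have h3 : p ≤ 2 * (p - 1) := by have := hp.two_le; omega
    calc p ^ (n + 1) = p ^ n * p := pow_succ _ _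
      _ ≤ p ^ n * (2 * (p - 1)) := Nat.mul_le_mul_left _ h3
      _ = 2 * (p ^ n * (p - 1)) := by ring
      _ ≤ 2 * (r * N) := Nat.mul_le_mul_left _ h1
      _ ≤ 2 * (N + 1) * r := by nlinarith
  rw [div_mul_eq_mul_div, one_mul, div_le_iff₀ (by positivity), mul_comm]
  exact_mod_cast h2

end Pool.Agent.MP_51ecca_nt

end
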