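import Mathlib
import Pool.Agent.Mg.F43e117.Gb01801

section

set_option autoImplicit false

namespace Pool.Agent.MP_9b2bac_nt.Z

namespace YPair

open Finset Classical

variable {X K : Type} [Group K] [MulAction K X] {σ : Equiv.Perm X}

lemma zp {P : Equiv.Perm X} (h : ∀ x, P (σ x) = σ (P x)) (j : ℤ) (x : X) :
    P ((σ ^ j) x) = (σ ^ j) (P x) :=
  congrFun (congrArg DFunLike.coe (Commute.zpow_right (a := P) (b := σ) (Equiv.ext h) j).eq) x

lemma sc {P : Equiv.Perm X} (h : ∀ x, P (σ x) = σ (P x)) {x y : X} :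
    σ.SameCycle (P x) (P y) ↔ σ.SameCycle x y :=
  exists_congr fun j => by rw [← zp h, P.injective.eq_iff]

/-- `x` and `y` lie in different cycles and some group element exchanges just these cycles. -/
def E (K : Type) [Group K] [MulAction K X] (σ : Equiv.Perm X) (x y : X) : Prop :=
  ¬ σ.SameCycle x y ∧ ∃ h : K, h • x = y ∧ h • y = x ∧
    ∀ w, ¬ σ.SameCycle x w → ¬ σ.SameCycle y w → h • w = w

lemma E.symm {x y : X} (h : E K σ x y) : E K σ y x := by
  obtain ⟨h0, k, h1, h2, h3⟩ := h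
  exact ⟨fun h => h0 h.symm, k, h2, h1, fun w a b => h3 w b a⟩

section

variable (hc : ∀ (k : K) (x : X), k • σ x = σ (k • x))
include hc

lemma zk (k : K) (j : ℤ) (x : X) : k • (σ ^ j) x = (σ ^ j) (k • x) :=
  zp (P := MulAction.toPerm k) (hc k) j x

lemma sk (k : K) {x y : X} : σ.SameCycle (k • x) (k • y) ↔ σ.SameCycle x y :=
  sc (P := MulAction.toPerm k) (hc k)

lemma E.shift {x y : X} (h : E K σ x y) (j : ℤ) : E K σ ((σ ^ j) x) ((σ ^ j) y) := by
  obtain ⟨h0, k, h1, h2, h3⟩ := h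
  refine ⟨by simpa using h0, k, by rw [zk hc, h1], by rw [zk hc, h2], fun w a b => h3 w ?_ ?_⟩
  · simpa using a
  · simpa using b

lemma E.trans {x y z : X} (h : E K σ x y) (h' : E K σ y z) (hxz : ¬ σ.SameCycle x z) :
    E K σ x z := by
  obtain ⟨-, g, g1, g2, g3⟩ := h
  obtain ⟨h0, k, h1, h2, h3⟩ := h'
  have gz := g3 z hxz h0
  refine ⟨hxz, g * k * g⁻¹, ?_, ?_, fun w a b => ?_⟩
  · rw [mul_smul, mul_smul, ← g2, inv_smul_smul, h1, gz]
  · rw [mul_smul, mul_smul, ← gz, inv_smul_smul, h2, g2]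
  · rw [mul_smul, mul_smul, h3, smul_inv_smul]
    · rwa [← sk hc g, g2, smul_inv_smul]
    · rwa [← sk hc g, gz, smul_inv_smul]

lemma conn {T : Set K} (hsw : ∀ t ∈ T, ∃ x y : X, ¬ σ.SameCycle x y ∧ t • x = y ∧ t • y = x ∧
      ∀ w, ¬ σ.SameCycle x w → ¬ σ.SameCycle y w → t • w = w) {k : K}
    (hk : k ∈ Subgroup.closure T) : ∀ w, Relation.ReflTransGen (E K σ) w (k • w) := by
  induction hk using Subgroup.closure_induction with
  | mem t ht =>
    intro w
    obtain ⟨x, y, h0, h1, h2, h3⟩ := hsw t ht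
    have he : E K σ x y := ⟨h0, t, h1, h2, h3⟩
    by_cases a : σ.SameCycle x w
    · obtain ⟨j, rfl⟩ := a
      rw [zk hc, h1]
      exact .single (he.shift hc j)
    by_cases b : σ.SameCycle y w
    · obtain ⟨j, rfl⟩ := b
      rw [zk hc, h2]
      exact .single (he.symm.shift hc j)
    rw [h3 w a b]
  | one => intro w; rw [one_smul]
  | mul g h _ _ h1 h2 => intro w; rw [mul_smul]; exact (h2 w).trans (h1 _)
  | inv g _ h1 =>
    intro w
    have h2 := h1 (g⁻¹ • w)
    rw [smul_inv_smul] at h2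
    generalize g⁻¹ • w = v at h2
    induction h2 with
    | refl => rfl
    | tail _ h ih => exact .head h.symm ih

omit hc in
lemma third (h3 : ∃ x y z : X, ¬ σ.SameCycle x y ∧ ¬ σ.SameCycle x z ∧ ¬ σ.SameCycle y z)
    (x u : X) : ∃ v, ¬ σ.SameCycle x v ∧ ¬ σ.SameCycle u v := by
  obtain ⟨a, b, c, h1, h2, h3⟩ := h3
  by_contra h
  push Not at h
  by_cases ha : σ.SameCycle x a
  · exact h3 ((h b fun e => h1 (ha.symm.trans e)).symm.trans (h c fun e => h2 (ha.symm.trans e)))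
  by_cases hb : σ.SameCycle x b
  · exact h2 ((h a ha).symm.trans (h c fun e => h3 (hb.symm.trans e)))
  · exact h1 ((h a ha).symm.trans (h b hb))

lemma all_E (hcon : ∀ x y, Relation.ReflTransGen (E K σ) x y)
    (h3 : ∃ x y z : X, ¬ σ.SameCycle x y ∧ ¬ σ.SameCycle x z ∧ ¬ σ.SameCycle y z)
    {x y : X} (hxy : ¬ σ.SameCycle x y) : E K σ x y := by
  have out : ∀ z u, E K σ z u → ∃ v, E K σ z v ∧ ¬ σ.SameCycle u v := by
    intro z u hzu
    obtain ⟨v, v1, v2⟩ := third h3 z u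
    by_contra hn
    push Not at hn
    have key : ∀ w, Relation.ReflTransGen (E K σ) z w → σ.SameCycle z w ∨ σ.SameCycle u w := by
      intro w hw
      induction hw with
      | refl => exact Or.inl (.refl _ _)
      | tail _ h ih =>
        rcases ih with ih | ih
        · obtain ⟨j, rfl⟩ := ih.symm
          exact Or.inr (by simpa using hn _ (h.shift hc j))
        · obtain ⟨j, rfl⟩ := ih.symm
          by_contra e
          push Not at e
          exact e.2 (by simpa using hn _ (hzu.trans hc (h.shift hc j) (by simpa using e.1)))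
    exact (key v (hcon z v)).elim v1 v2
  have two : ∀ u z z', E K σ x u → E K σ u z → E K σ z z' → ¬ σ.SameCycle x z' → E K σ x z' := by
    intro u z z' h1 h2 h4 h5
    by_cases a : σ.SameCycle x z
    swap
    · exact (h1.trans hc h2 a).trans hc h4 h5
    by_cases b : σ.SameCycle u z'
    swap
    · exact h1.trans hc (h2.trans hc h4 b) h5
    obtain ⟨v, v1, v2⟩ := out z u h2.symm
    exact (h1.trans hc (h2.trans hc v1 v2) fun e => v1.1 (a.symm.trans e)).trans hc
      (v1.symm.trans hc h4 fun e => v2 (b.trans e.symm)) h5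
  have key : ∀ z, Relation.ReflTransGen (E K σ) x z →
      z = x ∨ E K σ x z ∨ ∃ u, E K σ x u ∧ E K σ u z := by
    intro z hz
    induction hz with
    | refl => exact Or.inl rfl
    | @tail z z' _ h ih =>
      rcases ih with rfl | ih | ⟨u, h1, h2⟩
      · exact Or.inr (Or.inl h)
      · exact Or.inr (Or.inr ⟨z, ih, h⟩)
      · by_cases a : σ.SameCycle x z'
        · exact Or.inr (Or.inr ⟨z, h1.trans hc h2 fun e => h.1 (e.symm.trans a), h⟩)
        · exact Or.inr (Or.inl (two u z z' h1 h2 h a))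
  rcases key y (hcon x y) with rfl | h | ⟨u, h1, h2⟩
  · exact absurd (.refl _ _) hxy
  · exact h
  · exact h1.trans hc h2 hxy

lemma tr2 (htr : ∀ x y : X, ∃ k : K, k • x = y)
    (hE : ∀ x y, ¬ σ.SameCycle x y → E K σ x y)
    (h3 : ∃ x y z : X, ¬ σ.SameCycle x y ∧ ¬ σ.SameCycle x z ∧ ¬ σ.SameCycle y z)
    {a b : X × X} (ha : ¬ σ.SameCycle a.1 a.2) (hb : ¬ σ.SameCycle b.1 b.2) :
    ∃ k : K, k • a = b := by
  have h1 : ∀ x y z, ¬ σ.SameCycle x y → ¬ σ.SameCycle x z → ¬ σ.SameCycle y z →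
      ∃ k : K, k • (x, y) = (x, z) := fun x y z h1 h2 h4 => by
    obtain ⟨-, k, k1, -, k2⟩ := hE y z h4
    exact ⟨k, Prod.ext (k2 x (fun e => h1 e.symm) fun e => h2 e.symm) k1⟩
  obtain ⟨x, y⟩ := a
  obtain ⟨x', z⟩ := b
  obtain ⟨g, rfl⟩ := htr x x'
  have ha' : ¬ σ.SameCycle (g • x) (g • y) := fun e => ha ((sk hc g).1 e)
  by_cases e : σ.SameCycle (g • y) z
  · obtain ⟨v, v1, v2⟩ := third h3 (g • x) z
    obtain ⟨k, hk⟩ := h1 _ _ _ ha' v1 fun e' => v2 (e.symm.trans e')
    obtain ⟨l, hl⟩ := h1 _ _ _ v1 hb fun e' => v2 e'.symm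
    exact ⟨l * k * g, by rw [mul_smul, mul_smul, ← hl, ← hk]; rfl⟩
  · obtain ⟨k, hk⟩ := h1 _ _ _ ha' hb e
    exact ⟨k * g, by rw [mul_smul, ← hk]; rfl⟩

end

lemma cnt [Fintype K] (S : Finset X) (h0 : S.Nonempty) (h1 : ∀ (k : K), ∀ a ∈ S, k • a ∈ S)
    (h2 : ∀ a ∈ S, ∀ b ∈ S, ∃ k : K, k • a = b) {f g : X → X} (hf : ∀ a ∈ S, f a ∈ S)
    (hg : ∀ a ∈ S, g a ∈ S) :
    ∑ k : K, (S.filter fun z => k • f z = g z).card = Fintype.card K := by
  have key : ∀ a ∈ S, ∀ b ∈ S, S.card * (univ.filter fun k : K => k • a = b).card =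
      Fintype.card K := by
    intro a ha b hb
    rw [← card_univ (α := K), card_eq_sum_card_fiberwise (s := univ) (t := S)
      (f := fun k : K => k • a) (fun k _ => h1 k a ha), ← smul_eq_mul, ← sum_const]
    refine sum_congr rfl fun c hc => ?_
    obtain ⟨l, rfl⟩ := h2 b hb c hc
    refine card_bij (fun k _ => l * k) (fun k hk => ?_) (fun _ _ _ _ h => mul_left_cancel h)
      fun k hk => ⟨l⁻¹ * k, ?_, by simp⟩
    · simp only [mem_filter, mem_univ, true_and] at hk ⊢
      rw [mul_smul, hk]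
    · simp only [mem_filter, mem_univ, true_and] at hk ⊢
      rw [mul_smul, hk, inv_smul_smul]
  refine Nat.eq_of_mul_eq_mul_left h0.card_pos ?_
  simp only [card_filter]
  rw [sum_comm, mul_sum, ← smul_eq_mul _ (Fintype.card K), ← sum_const]
  refine sum_congr rfl fun z hz => ?_
  rw [← card_filter, key _ (hf z hz) _ (hg z hz)]

lemma cyc [Fintype X] {n : ℕ} (hn : 0 < n) (hσ : ∀ (x : X) (k : ℤ), (σ ^ k) x = x ↔ (n : ℤ) ∣ k)
    (w : X) : (univ.filter fun v => σ.SameCycle w v).card = n := by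
  rw [← card_range n]
  symm
  refine card_bij (fun j _ => (σ ^ (j : ℤ)) w) (fun j _ => mem_filter.2 ⟨mem_univ _, _, rfl⟩)
    (fun i hi j hj h => ?_) fun v hv => ?_
  · have h1 : (σ ^ (-(j : ℤ) + i)) w = w := by
      rw [zpow_add, Equiv.Perm.mul_apply, h, ← Equiv.Perm.mul_apply, ← zpow_add]
      simp
    have := Int.eq_zero_of_abs_lt_dvd ((hσ _ _).1 h1) (by
      have := mem_range.1 hi
      have := mem_range.1 hj
      rw [abs_lt]
      omega)
    omega
  · obtain ⟨j, rfl⟩ := (mem_filter.1 hv).2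
    have h1 := Int.emod_nonneg j (show (n : ℤ) ≠ 0 by omega)
    have h2 := Int.emod_lt_of_pos j (show (0 : ℤ) < n by omega)
    refine ⟨(j % n).toNat, mem_range.2 (by omega), ?_⟩
    rw [Int.toNat_of_nonneg h1]
    conv_rhs => rw [← Int.emod_add_mul_ediv j n, zpow_add, Equiv.Perm.mul_apply,
      (hσ w _).2 (dvd_mul_right _ _)]

end YPair

open YPair Finset in
theorem pairs (n : ℕ) (hn : 0 < n) (X : Type) [Finite X] (K : Type) [Group K] [Finite K]
    [MulAction K X] (σ : Equiv.Perm X) (T : Set K)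
    (hσ : ∀ (x : X) (k : ℤ), (σ ^ k) x = x ↔ (n : ℤ) ∣ k)
    (hc : ∀ (k : K) (x : X), k • σ x = σ (k • x))
    (hT : ∀ t ∈ T, ∀ k : K, k * t * k⁻¹ ∈ T)
    (htr : ∀ x y : X, ∃ k ∈ Subgroup.closure T, k • x = y)
    (hsw : ∀ t ∈ T, ∃ x y : X, ¬ σ.SameCycle x y ∧ t • x = y ∧ t • y = x ∧
      ∀ w, ¬ σ.SameCycle x w → ¬ σ.SameCycle y w → t • w = w)
    (h3 : ∃ x y z : X, ¬ σ.SameCycle x y ∧ ¬ σ.SameCycle x z ∧ ¬ σ.SameCycle y z)
    (F : Equiv.Perm X) (hF : ∀ x, F (σ x) = σ (F x)) :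
    (1 - 1 / (n : ℝ)) * Nat.card K ≤ {k : K | ∀ x, k • F x ≠ σ x}.ncard ∧
      ({k : K | ∀ x, k • F x ≠ σ x}.ncard : ℝ) ≤ (1 - 1 / (n + 1 : ℝ)) * Nat.card K := by
  classical
  let _ := Fintype.ofFinite X
  let _ := Fintype.ofFinite K
  have htr' : ∀ x y : X, ∃ k : K, k • x = y := fun x y => (htr x y).imp fun _ h => h.2
  have hE : ∀ x y, ¬ σ.SameCycle x y → E K σ x y := fun x y => all_E hc (fun x y => by
    obtain ⟨k, hk, rfl⟩ := htr x y
    exact conn hc hsw hk x) h3
  let A : K → Finset X := fun k => univ.filter fun z => k • F z = σ z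
  let Y : Finset (X × X) := univ.filter fun p => ¬ σ.SameCycle p.1 p.2
  have hY : ∀ p, p ∈ Y ↔ ¬ σ.SameCycle p.1 p.2 := fun p => by simp [Y]
  obtain ⟨x0, y0, -, h0, -⟩ := id h3
  have h1 : ∑ k : K, (A k).card = Fintype.card K := by
    convert cnt (K := K) univ ⟨x0, mem_univ _⟩ (fun _ _ _ => mem_univ _)
      (fun a _ b _ => htr' a b) (f := F) (g := σ) (fun _ _ => mem_univ _) fun _ _ => mem_univ _
  have h2 : ∑ k : K, (Y.filter fun z => k • Prod.map F F z = Prod.map σ σ z).card =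
      Fintype.card K := by
    convert cnt (K := K) Y ⟨(x0, y0), (hY _).2 h0⟩
      (fun k a ha => (hY _).2 fun e => (hY _).1 ha ((sk hc k).1 e))
      (fun a ha b hb => tr2 hc htr' hE h3 ((hY _).1 ha) ((hY _).1 hb)) (f := Prod.map F F)
      (g := Prod.map σ σ) (fun a ha => (hY _).2 fun e => (hY _).1 ha ((sc hF).1 e))
      fun a ha => (hY _).2 fun e => (hY _).1 ha ((sc fun _ => rfl).1 e)
  have hA : ∀ k, ∀ w ∈ A k, ((A k).filter fun v => σ.SameCycle w v).card = n := by
    intro k w hw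
    rw [← cyc hn hσ w]
    congr 1
    ext v
    simp only [A, mem_filter, mem_univ, true_and, and_iff_right_iff_imp] at hw ⊢
    rintro ⟨j, rfl⟩
    rw [zp hF, zk hc, hw, zp (P := σ) fun _ => rfl]
  have h4 : ∀ k, (A k).card ^ 2 =
      (Y.filter fun z => k • Prod.map F F z = Prod.map σ σ z).card + n * (A k).card := by
    intro k
    rw [sq, ← card_product, ← card_filter_add_card_filter_not (s := A k ×ˢ A k)
      fun p => σ.SameCycle p.1 p.2, add_comm]
    congr 1
    · congr 1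
      ext p
      simp [A, Y, Prod.ext_iff, and_comm]
    · rw [card_filter, sum_product, mul_comm, ← smul_eq_mul, ← sum_const]
      exact sum_congr rfl fun w hw => by rw [← card_filter, hA k w hw]
  set s := univ.filter fun k : K => (A k).Nonempty with hs
  have h5 : ∑ k ∈ s, (A k).card = Fintype.card K := by
    rw [← h1]
    exact sum_subset (subset_univ s) fun k _ hk => by simpa [hs] using hk
  have h6 : s.card * n ≤ Fintype.card K := by
    rw [← h5, ← smul_eq_mul]
    refine card_nsmul_le_sum _ _ _ fun k hk => ?_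
    obtain ⟨w, hw⟩ := (mem_filter.1 hk).2
    exact (hA k w hw).ge.trans (card_filter_le _ _)
  have h7 : Fintype.card K ≤ s.card * (n + 1) := by
    have h8 := sq_sum_le_card_mul_sum_sq (s := s) (f := fun k => (A k).card)
    have h9 : ∑ k ∈ s, (A k).card ^ 2 ≤ (n + 1) * Fintype.card K := by
      refine (sum_le_sum_of_subset (subset_univ s)).trans_eq ?_
      simp only [h4, sum_add_distrib, ← mul_sum, h1, h2]
      ring
    rw [h5, sq] at h8
    exact Nat.le_of_mul_le_mul_right (h8.trans ((Nat.mul_le_mul_left _ h9).trans_eq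
      (mul_assoc _ _ _).symm)) Fintype.card_pos
  have h10 : {k : K | ∀ x, k • F x ≠ σ x}.ncard + s.card = Fintype.card K := by
    rw [← card_univ, ← card_filter_add_card_filter_not (s := univ) fun k : K => (A k).Nonempty,
      add_comm (card _), ← Set.ncard_coe_finset (univ.filter fun k : K => ¬ (A k).Nonempty)]
    congr 2
    ext k
    simp [A]
  rw [Nat.card_eq_fintype_card]
  have e6 : (s.card : ℝ) * n ≤ Fintype.card K := by exact_mod_cast h6
  have e7 : (Fintype.card K : ℝ) ≤ s.card * (n + 1) := by exact_mod_cast h7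
  have e10 : ({k : K | ∀ x, k • F x ≠ σ x}.ncard : ℝ) + s.card = Fintype.card K := by
    exact_mod_cast h10
  have hn' : (0 : ℝ) < n := by exact_mod_cast hn
  rw [← le_div_iff₀ hn'] at e6
  rw [← div_le_iff₀ (by linarith)] at e7
  rw [sub_mul, sub_mul, one_mul, one_div_mul_eq_div, one_div_mul_eq_div]
  constructor <;> linarith

end Pool.Agent.MP_9b2bac_nt.Z

end

section

set_option autoImplicit false

namespace Pool.Agent.MP_9b2bac_nt.Z

namespace YPois

open Finset Classical YPair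

variable {X K : Type} [Group K] [MulAction K X] {σ : Equiv.Perm X}

/-- the entries lie in pairwise different cycles -/
def Sep (σ : Equiv.Perm X) {j : ℕ} (a : Fin j → X) : Prop :=
  ∀ i i', σ.SameCycle (a i) (a i') → i = i'

lemma spare {j r : ℕ} (hj : j < r) {c : Fin r → X} (hc : Sep σ c) (b : Fin j → X) :
    ∃ z, ∀ i, ¬ σ.SameCycle (b i) z := by
  by_contra h
  push Not at h
  choose f hf using fun l => h (c l)
  have : Function.Injective f := fun l l' e =>
    hc l l' ((hf l).symm.trans (e ▸ hf l'))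
  have := Fintype.card_le_of_injective f this
  simp only [Fintype.card_fin] at this
  omega

lemma trj (hc : ∀ (k : K) (x : X), k • σ x = σ (k • x))
    (hE : ∀ x y, ¬ σ.SameCycle x y → E K σ x y) {j r : ℕ} (hj : j < r) {c : Fin r → X}
    (hcs : Sep σ c) {a b : Fin j → X} (ha : Sep σ a) (hb : Sep σ b) : ∃ k : K, k • a = b := by
  have mv : ∀ (s : Finset (Fin j)) (u v : X), ¬ σ.SameCycle u v →
      (∀ i ∈ s, ¬ σ.SameCycle u (b i)) → (∀ i ∈ s, ¬ σ.SameCycle v (b i)) →
      ∃ h : K, h • u = v ∧ ∀ i ∈ s, h • b i = b i := by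
    intro s u v h1 h2 h3
    obtain ⟨-, h, k1, -, k2⟩ := hE u v h1
    exact ⟨h, k1, fun i hi => k2 _ (h2 i hi) (h3 i hi)⟩
  have key : ∀ s : Finset (Fin j), ∃ k : K, ∀ i ∈ s, k • a i = b i := by
    intro s
    induction s using Finset.induction_on with
    | empty => exact ⟨1, by simp⟩
    | insert i₀ s hi ih =>
      obtain ⟨g, hg⟩ := ih
      have hu : ∀ i ∈ s, ¬ σ.SameCycle (g • a i₀) (b i) := fun i h e => by
        rw [← hg i h, sk hc] at e
        exact hi (ha _ _ e ▸ h)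
      have hv : ∀ i ∈ s, ¬ σ.SameCycle (b i₀) (b i) := fun i h e => hi (hb _ _ e ▸ h)
      obtain ⟨h, h1, h2⟩ : ∃ h : K, h • g • a i₀ = b i₀ ∧ ∀ i ∈ s, h • b i = b i := by
        by_cases e : σ.SameCycle (g • a i₀) (b i₀)
        · obtain ⟨z, hz⟩ := spare hj hcs b
          obtain ⟨h, h1, h2⟩ := mv s _ z (fun e' => hz i₀ (e.symm.trans e')) hu
            fun i _ e' => hz i e'.symm
          obtain ⟨h', h3, h4⟩ := mv s z (b i₀) (fun e' => hz i₀ e'.symm)
            (fun i _ e' => hz i e'.symm) hv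
          exact ⟨h' * h, by rw [mul_smul, h1, h3], fun i hi => by rw [mul_smul, h2 i hi, h4 i hi]⟩
        · exact mv s _ _ e hu hv
      refine ⟨h * g, fun i hi' => ?_⟩
      rcases mem_insert.1 hi' with rfl | hi'
      · rw [mul_smul, h1]
      · rw [mul_smul, hg i hi', h2 i hi']
  obtain ⟨k, hk⟩ := key univ
  exact ⟨k, funext fun i => hk i (mem_univ _)⟩

variable [Fintype X] {n : ℕ}

lemma clo_rem {A : Finset X} (hA : ∀ x ∈ A, ∀ y, σ.SameCycle x y → y ∈ A) (x : X) :
    ∀ z ∈ A.filter fun y => ¬ σ.SameCycle x y, ∀ y, σ.SameCycle z y →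
      y ∈ A.filter fun y => ¬ σ.SameCycle x y := fun z hz y h =>
  mem_filter.2 ⟨hA z (mem_filter.1 hz).1 y h, fun e => (mem_filter.1 hz).2 (e.trans h.symm)⟩

lemma card_rem (hn : 0 < n) (hσ : ∀ (x : X) (k : ℤ), (σ ^ k) x = x ↔ (n : ℤ) ∣ k) {A : Finset X}
    (hA : ∀ x ∈ A, ∀ y, σ.SameCycle x y → y ∈ A) {x : X} (hx : x ∈ A) :
    (A.filter fun y => ¬ σ.SameCycle x y).card + n = A.card := by
  rw [← card_filter_add_card_filter_not (s := A) (fun y => σ.SameCycle x y), add_comm,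
    ← cyc hn hσ x]
  congr 2
  ext y
  simp only [mem_filter, mem_univ, true_and, iff_and_self]
  exact hA x hx y

lemma card_dvd (hn : 0 < n) (hσ : ∀ (x : X) (k : ℤ), (σ ^ k) x = x ↔ (n : ℤ) ∣ k) (N : ℕ) :
    ∀ A : Finset X, A.card = N → (∀ x ∈ A, ∀ y, σ.SameCycle x y → y ∈ A) → ∃ m, N = n * m := by
  induction N using Nat.strong_induction_on with
  | _ N ih =>
  intro A hN hA
  rcases A.eq_empty_or_nonempty with rfl | ⟨x, hx⟩
  · exact ⟨0, by simp [← hN]⟩
  · have h := card_rem hn hσ hA hx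
    obtain ⟨m, hm⟩ := ih _ ((Nat.lt_add_of_pos_right hn).trans_eq (h.trans hN)) _ rfl (clo_rem hA x)
    exact ⟨m + 1, by rw [← hN, ← h, hm, mul_add, mul_one]⟩

lemma card_tup (hn : 0 < n) (hσ : ∀ (x : X) (k : ℤ), (σ ^ k) x = x ↔ (n : ℤ) ∣ k) (j : ℕ) :
    ∀ (m : ℕ) (A : Finset X), A.card = n * m → (∀ x ∈ A, ∀ y, σ.SameCycle x y → y ∈ A) →
      (univ.filter fun a : Fin j → X => Sep σ a ∧ ∀ i, a i ∈ A).card =
        n ^ j * m.descFactorial j := by
  induction j with
  | zero =>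
    intro m A _ _
    rw [filter_true_of_mem fun a _ => ⟨fun i => i.elim0, fun i => i.elim0⟩]
    simp
  | succ j ih =>
    intro m A hm hA
    rw [card_eq_sum_card_fiberwise (t := A) (f := fun a : Fin (j + 1) → X => a 0)
      fun a ha => (mem_filter.1 ha).2.2 0]
    rcases m with _ | m
    · rw [mul_zero, card_eq_zero] at hm
      simp [hm]
    have key : ∀ x ∈ A, ((univ.filter fun a : Fin (j + 1) → X => Sep σ a ∧ ∀ i, a i ∈ A).filter
        fun a => a 0 = x).card = n ^ j * m.descFactorial j := by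
      intro x hx
      have h := card_rem hn hσ hA hx
      rw [hm, mul_add, mul_one] at h
      rw [← ih m _ (Nat.add_right_cancel h) (clo_rem hA x)]
      refine card_bij (fun a _ => Fin.tail a) (fun a ha => ?_) (fun a ha b hb e => ?_)
        fun b hb => ⟨Fin.cons x b, ?_, by simp⟩
      · simp only [mem_filter, mem_univ, true_and] at ha ⊢
        obtain ⟨⟨h1, h2⟩, rfl⟩ := ha
        exact ⟨fun i i' e => Fin.succ_injective _ (h1 _ _ e),
          fun i => ⟨h2 _, fun e => (Fin.succ_ne_zero i).symm (h1 _ _ e)⟩⟩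
      · rw [← Fin.cons_self_tail a, ← Fin.cons_self_tail b, (mem_filter.1 ha).2,
          (mem_filter.1 hb).2, e]
      · simp only [mem_filter, mem_univ, true_and] at hb ⊢
        refine ⟨⟨fun i i' => ?_, fun i => ?_⟩, by simp⟩
        · refine Fin.cases ?_ (fun i => ?_) i <;> refine Fin.cases ?_ (fun i' => ?_) i'
          · exact fun _ => rfl
          · exact fun e => ((hb.2 i').2 e).elim
          · exact fun e => ((hb.2 i).2 e.symm).elim
          · exact fun e => congrArg Fin.succ (hb.1 _ _ e)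
        · refine Fin.cases hx (fun i => (hb.2 i).1) i
    rw [sum_congr rfl key, sum_const, hm, smul_eq_mul, Nat.succ_descFactorial_succ]
    ring

lemma bonf (m k J : ℕ) (hJ : 1 ≤ J) :
    |(if m = k then (1 : ℝ) else 0) -
        ∑ i ∈ range J, (-1 : ℝ) ^ i * ((k + i).choose k * m.choose (k + i) : ℕ)| ≤
      ((k + J).choose k * m.choose (k + J) : ℕ) := by
  have e : ∀ i, (k + i).choose k * m.choose (k + i) = m.choose k * (m - k).choose i := fun i => by
    rw [mul_comm, Nat.choose_mul (Nat.le_add_right k i), Nat.add_sub_cancel_left]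
  simp only [e]
  obtain ⟨J, rfl⟩ : ∃ J', J = J' + 1 := ⟨J - 1, by omega⟩
  rcases lt_trichotomy m k with h | rfl | h
  · simp [Nat.choose_eq_zero_of_lt h, h.ne]
  · simp [sum_range_succ']
  · obtain ⟨a, ha⟩ : ∃ a, m - k = a + 1 := ⟨m - k - 1, by omega⟩
    have h1 : (∑ i ∈ range (J + 1), ((-1) ^ i * (a + 1).choose i : ℝ)) = (-1) ^ J * a.choose J := by
      exact_mod_cast Int.alternating_sum_range_choose_eq_choose (n := a) (m := J)
    have h2 : ∑ i ∈ range (J + 1), (-1 : ℝ) ^ i * (m.choose k * (a + 1).choose i : ℕ) =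
        m.choose k * ((-1) ^ J * a.choose J) := by
      rw [← h1, mul_sum]
      refine sum_congr rfl fun i _ => ?_
      push_cast
      ring
    rw [ha, h2, if_neg h.ne', zero_sub, abs_neg, abs_mul, abs_mul, abs_pow, abs_neg, abs_one,
      one_pow, one_mul, Nat.abs_cast, Nat.abs_cast, Nat.choose_succ_succ']
    push_cast
    gcongr
    exact le_add_of_nonneg_right (Nat.cast_nonneg _)

end YPois

open YPair YPois Finset in
theorem pois (n : ℕ) (hn : 0 < n) (X : Type) [Finite X] (K : Type) [Group K] [Finite K]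
    [MulAction K X] (σ : Equiv.Perm X) (T : Set K)
    (hσ : ∀ (x : X) (k : ℤ), (σ ^ k) x = x ↔ (n : ℤ) ∣ k)
    (hc : ∀ (k : K) (x : X), k • σ x = σ (k • x))
    (htr : ∀ x y : X, ∃ k ∈ Subgroup.closure T, k • x = y)
    (hsw : ∀ t ∈ T, ∃ x y : X, ¬ σ.SameCycle x y ∧ t • x = y ∧ t • y = x ∧
      ∀ w, ¬ σ.SameCycle x w → ¬ σ.SameCycle y w → t • w = w)
    (k J : ℕ) (hJ : 2 ≤ J)
    (hr : ∃ c : Fin (k + J + 1) → X, ∀ i j, σ.SameCycle (c i) (c j) → i = j)
    (F : Equiv.Perm X) (hF : ∀ x, F (σ x) = σ (F x)) :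
    |({g : K | {x | g • F x = σ x}.ncard = n * k}.ncard : ℝ) -
        Real.exp (-1 / n) / (n ^ k * k.factorial) * Nat.card K| ≤
      3 / (n ^ (k + J) * k.factorial * J.factorial) * Nat.card K := by
  classical
  let _ := Fintype.ofFinite X
  let _ := Fintype.ofFinite K
  obtain ⟨c, hcs⟩ := hr
  have h3 : ∃ x y z : X, ¬ σ.SameCycle x y ∧ ¬ σ.SameCycle x z ∧ ¬ σ.SameCycle y z :=
    ⟨c ⟨0, by omega⟩, c ⟨1, by omega⟩, c ⟨2, by omega⟩, fun e => by simpa using hcs _ _ e,
      fun e => by simpa using hcs _ _ e, fun e => by simpa using hcs _ _ e⟩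
  have hE : ∀ x y, ¬ σ.SameCycle x y → E K σ x y := fun x y => all_E hc (fun x y => by
    obtain ⟨k, hk, rfl⟩ := htr x y
    exact conn hc hsw hk x) h3
  let A : K → Finset X := fun g => univ.filter fun z => g • F z = σ z
  have hA : ∀ g, ∀ x ∈ A g, ∀ y, σ.SameCycle x y → y ∈ A g := by
    rintro g w hw _ ⟨j, rfl⟩
    simp only [A, mem_filter, mem_univ, true_and] at hw ⊢
    rw [zp hF, zk hc, hw, zp (P := σ) fun _ => rfl]
  choose m hm using fun g => card_dvd hn hσ _ (A g) rfl (hA g)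
  have hn' : (0 : ℝ) < n := by exact_mod_cast hn
  have mom : ∀ j, j ≤ k + J → ∑ g, ((m g).choose j : ℝ) =
      Fintype.card K / (n ^ j * j.factorial) := by
    intro j hj
    let Y : Finset (Fin j → X) := univ.filter fun a => Sep σ a
    have hY : ∀ a, a ∈ Y ↔ Sep σ a := fun a => by simp [Y]
    have h1 : ∑ g : K, (Y.filter fun a => g • (F ∘ a) = σ ∘ a).card = Fintype.card K := by
      convert cnt (K := K) Y ⟨fun i => c (i.castLE (hj.trans (Nat.le_succ _))), (hY _).2 fun i i' e =>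
          Fin.castLE_injective (hj.trans (Nat.le_succ _)) (hcs _ _ e)⟩
        (fun g a ha => (hY _).2 fun i i' e => (hY _).1 ha i i' ((sk hc g).1 e))
        (fun a ha b hb => trj hc hE (Nat.lt_succ_of_le hj) hcs ((hY _).1 ha) ((hY _).1 hb))
        (f := fun a => F ∘ a) (g := fun a => σ ∘ a)
        (fun a ha => (hY _).2 fun i i' e => (hY _).1 ha i i' ((sc hF).1 e))
        fun a ha => (hY _).2 fun i i' e => (hY _).1 ha i i' ((sc fun _ => rfl).1 e)
    have h2 : ∀ g : K, (Y.filter fun a => g • (F ∘ a) = σ ∘ a).card =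
        n ^ j * j.factorial * (m g).choose j := by
      intro g
      rw [mul_assoc, ← Nat.descFactorial_eq_factorial_mul_choose,
        ← card_tup hn hσ j (m g) (A g) (hm g) (hA g)]
      congr 1
      ext a
      simp [Y, A, funext_iff]
    rw [eq_div_iff (by positivity), ← h1, sum_congr rfl fun g _ => h2 g, ← mul_sum]
    push_cast
    ring
  have mom' : ∀ i, i ≤ J → ∑ g, (((k + i).choose k * (m g).choose (k + i) : ℕ) : ℝ) =
      Fintype.card K / (n ^ (k + i) * k.factorial * i.factorial) := by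
    intro i hi
    push_cast
    have h1 : ((k + i).factorial : ℝ) = (k + i).choose k * i.factorial * k.factorial := by
      rw [add_comm k i]
      exact_mod_cast (Nat.add_choose_mul_factorial_mul_factorial i k).symm
    have h2 : (0 : ℝ) < (k + i).choose k := by
      exact_mod_cast Nat.choose_pos (Nat.le_add_right k i)
    rw [← mul_sum, mom _ (by omega), h1]
    field_simp
  have hN : ({g : K | {x | g • F x = σ x}.ncard = n * k}.ncard : ℝ) =
      ∑ g, if m g = k then (1 : ℝ) else 0 := by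
    rw [sum_boole, ← Set.ncard_coe_finset]
    congr 2
    ext g
    have : {x | g • F x = σ x} = (A g : Set X) := by
      ext x
      simp [A]
    simp [this, hm g, hn.ne']
  have hb : |(∑ g, if m g = k then (1 : ℝ) else 0) -
      (∑ i ∈ range J, (-1 / n : ℝ) ^ i / i.factorial) / (n ^ k * k.factorial) * Fintype.card K| ≤
      Fintype.card K / (n ^ (k + J) * k.factorial * J.factorial) := by
    have e : (∑ i ∈ range J, (-1 / n : ℝ) ^ i / i.factorial) / (n ^ k * k.factorial) *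
        Fintype.card K = ∑ g, ∑ i ∈ range J,
          (-1 : ℝ) ^ i * ((k + i).choose k * (m g).choose (k + i) : ℕ) := by
      rw [sum_comm, sum_div, sum_mul]
      refine sum_congr rfl fun i hi => ?_
      rw [← mul_sum, mom' i (mem_range.1 hi).le, div_pow, pow_add]
      field_simp
    rw [e, ← sum_sub_distrib, ← mom' J le_rfl]
    exact (abs_sum_le_sum_abs _ _).trans (sum_le_sum fun g _ => bonf _ _ _ (by omega))
  have he : |Real.exp (-1 / n) - ∑ i ∈ range J, (-1 / n : ℝ) ^ i / i.factorial| ≤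
      2 / (n ^ J * J.factorial) := by
    have h1 : |(-1 / n : ℝ)| = 1 / n := by
      rw [abs_div, abs_neg, abs_one, abs_of_pos hn']
    have h2 : (1 : ℝ) ≤ n := by exact_mod_cast hn
    have h4 : (1 : ℝ) ≤ J := by exact_mod_cast (by omega : 1 ≤ J)
    refine (Real.exp_bound (by rw [h1, div_le_one hn']; exact h2) (by omega : 0 < J)).trans ?_
    rw [h1, div_pow, one_pow, div_mul_div_comm, one_mul, ← mul_assoc,
      div_le_div_iff₀ (by positivity) (by positivity)]
    push_cast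
    have : (0 : ℝ) < n ^ J * J.factorial := by positivity
    nlinarith
  rw [hN, Nat.card_eq_fintype_card]
  set S := ∑ i ∈ range J, (-1 / n : ℝ) ^ i / i.factorial
  set N := ∑ g, if m g = k then (1 : ℝ) else 0
  have h5 : |S / (n ^ k * k.factorial) * Fintype.card K -
      Real.exp (-1 / n) / (n ^ k * k.factorial) * Fintype.card K| ≤
      2 * (Fintype.card K / (n ^ (k + J) * k.factorial * J.factorial)) := by
    rw [← sub_mul, ← sub_div, abs_mul, abs_div, abs_sub_comm, Nat.abs_cast,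
      abs_of_pos (by positivity : (0 : ℝ) < n ^ k * k.factorial)]
    calc _ ≤ 2 / (n ^ J * J.factorial) / (n ^ k * k.factorial) * (Fintype.card K : ℝ) := by gcongr
      _ = _ := by
        rw [pow_add]
        field_simp
  refine (abs_sub_le _ _ _).trans ((add_le_add hb h5).trans_eq ?_)
  ring

end Pool.Agent.MP_9b2bac_nt.Z

end

section

/- The Poisson law for groups generated by aligned three-cycles. -/

set_option autoImplicit false

namespace Pool.Agent.MP_9b2bac_nt.Z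

namespace VPois

open Finset Classical YPair YPois

variable {X K : Type} [Group K] [MulAction K X] {σ : Equiv.Perm X}

/-- three different cycles are rotated by some group element that fixes everything else -/
def E3 (K : Type) [Group K] [MulAction K X] (σ : Equiv.Perm X) (x y z : X) : Prop :=
  ¬ σ.SameCycle x y ∧ ¬ σ.SameCycle x z ∧ ¬ σ.SameCycle y z ∧ ∃ h : K, h • x = y ∧ h • y = z ∧
    h • z = x ∧ ∀ w, ¬ σ.SameCycle x w → ¬ σ.SameCycle y w → ¬ σ.SameCycle z w → h • w = w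

lemma E3.rot {x y z : X} (h : E3 K σ x y z) : E3 K σ y z x := by
  obtain ⟨a, b, c, k, h1, h2, h3, h4⟩ := h
  exact ⟨c, fun e => a e.symm, fun e => b e.symm, k, h2, h3, h1, fun w u v t => h4 w t u v⟩

lemma E3.flip {x y z : X} (h : E3 K σ x y z) : E3 K σ y x z := by
  obtain ⟨a, b, c, k, h1, h2, h3, h4⟩ := h
  refine ⟨fun e => a e.symm, c, b, k⁻¹, ?_, ?_, ?_, fun w u v t => ?_⟩
  · rw [inv_smul_eq_iff, h1]
  · rw [inv_smul_eq_iff, h3]
  · rw [inv_smul_eq_iff, h2]
  · rw [inv_smul_eq_iff, h4 w v u t]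

/-- the same for suitable points of the three cycles -/
def G3 (K : Type) [Group K] [MulAction K X] (σ : Equiv.Perm X) (a b c : X) : Prop :=
  ∃ x y z, σ.SameCycle a x ∧ σ.SameCycle b y ∧ σ.SameCycle c z ∧ E3 K σ x y z

lemma E3.g3 {x y z : X} (h : E3 K σ x y z) : G3 K σ x y z :=
  ⟨x, y, z, .refl _ _, .refl _ _, .refl _ _, h⟩

lemma G3.rot {a b c : X} (h : G3 K σ a b c) : G3 K σ b c a :=
  let ⟨x, y, z, h1, h2, h3, h4⟩ := h; ⟨y, z, x, h2, h3, h1, h4.rot⟩

lemma G3.flip {a b c : X} (h : G3 K σ a b c) : G3 K σ b a c :=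
  let ⟨x, y, z, h1, h2, h3, h4⟩ := h; ⟨y, x, z, h2, h1, h3, h4.flip⟩

lemma G3.congr {a b c a' b' c' : X} (h : G3 K σ a b c) (ha : σ.SameCycle a' a)
    (hb : σ.SameCycle b' b) (hc : σ.SameCycle c' c) : G3 K σ a' b' c' :=
  let ⟨x, y, z, h1, h2, h3, h4⟩ := h; ⟨x, y, z, ha.trans h1, hb.trans h2, hc.trans h3, h4⟩

lemma G3.ne {a b c : X} (h : G3 K σ a b c) : ¬ σ.SameCycle a b :=
  let ⟨_, _, _, h1, h2, _, h4⟩ := h; fun e => h4.1 ((h1.symm.trans e).trans h2)

/-- two points that are joined by a rotation -/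
def R2 (K : Type) [Group K] [MulAction K X] (σ : Equiv.Perm X) (x y : X) : Prop :=
  ∃ z, E3 K σ x y z

lemma R2.symm {x y : X} (h : R2 K σ x y) : R2 K σ y x :=
  let ⟨z, hz⟩ := h; ⟨z, hz.flip⟩

lemma R2.ne {x y : X} (h : R2 K σ x y) : ¬ σ.SameCycle x y :=
  let ⟨_, hz⟩ := h; hz.1

section

variable (hc : ∀ (k : K) (x : X), k • σ x = σ (k • x))
include hc

lemma E3.shift {x y z : X} (h : E3 K σ x y z) (j : ℤ) :
    E3 K σ ((σ ^ j) x) ((σ ^ j) y) ((σ ^ j) z) := by
  obtain ⟨a, b, c, k, h1, h2, h3, h4⟩ := h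
  refine ⟨by simpa using a, by simpa using b, by simpa using c, k, by rw [zk hc, h1],
    by rw [zk hc, h2], by rw [zk hc, h3], fun w u v t => h4 w ?_ ?_ ?_⟩
  · simpa using u
  · simpa using v
  · simpa using t

lemma E3.conj {x y z : X} (h : E3 K σ x y z) (g : K) : E3 K σ (g • x) (g • y) (g • z) := by
  obtain ⟨a, b, c, k, h1, h2, h3, h4⟩ := h
  refine ⟨by rwa [sk hc], by rwa [sk hc], by rwa [sk hc], g * k * g⁻¹, ?_, ?_, ?_,
    fun w u v t => ?_⟩
  · rw [mul_smul, mul_smul, inv_smul_smul, h1]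
  · rw [mul_smul, mul_smul, inv_smul_smul, h2]
  · rw [mul_smul, mul_smul, inv_smul_smul, h3]
  · rw [mul_smul, mul_smul, h4, smul_inv_smul]
    · rwa [← sk hc g, smul_inv_smul]
    · rwa [← sk hc g, smul_inv_smul]
    · rwa [← sk hc g, smul_inv_smul]

lemma G3.conj {a b c : X} (h : G3 K σ a b c) (g : K) : G3 K σ (g • a) (g • b) (g • c) :=
  let ⟨x, y, z, h1, h2, h3, h4⟩ := h
  ⟨g • x, g • y, g • z, (sk hc g).2 h1, (sk hc g).2 h2, (sk hc g).2 h3, h4.conj hc g⟩

lemma G3.elt {a b c : X} (h : G3 K σ a b c) : ∃ g : K, σ.SameCycle b (g • a) ∧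
    σ.SameCycle c (g • b) ∧
    ∀ w, ¬ σ.SameCycle a w → ¬ σ.SameCycle b w → ¬ σ.SameCycle c w → g • w = w := by
  obtain ⟨x, y, z, h1, h2, h3, -, -, -, g, g1, g2, -, g4⟩ := h
  refine ⟨g, h2.trans ?_, h3.trans ?_, fun w u v t =>
    g4 w (fun e => u (h1.trans e)) (fun e => v (h2.trans e)) fun e => t (h3.trans e)⟩
  · rw [← g1, sk hc]
    exact h1.symm
  · rw [← g2, sk hc]
    exact h2.symm

lemma G3.ruleA {a b c d e : X} (h : G3 K σ a b c) (h' : G3 K σ c d e) (h1 : ¬ σ.SameCycle d a)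
    (h2 : ¬ σ.SameCycle d b) (h3 : ¬ σ.SameCycle e a) (h4 : ¬ σ.SameCycle e b) :
    G3 K σ a b d := by
  obtain ⟨g, g1, -, g3⟩ := h'.elt hc
  have := h.conj hc g
  rw [g3 a h.rot.rot.ne h1 h3, g3 b h.rot.flip.ne h2 h4] at this
  exact this.congr (.refl _ _) (.refl _ _) g1

lemma G3.ruleB {a b c d : X} (h : G3 K σ a b c) (h' : G3 K σ c d a) (h2 : ¬ σ.SameCycle d b) :
    G3 K σ a b d := by
  obtain ⟨g, g1, g2, g3⟩ := h'.flip.rot.elt hc
  have := h.conj hc g
  rw [g3 b h.rot.flip.ne h.ne h2] at this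
  exact (this.congr g2 (.refl _ _) g1).flip.rot.rot

lemma R2.shift {x y : X} (h : R2 K σ x y) (j : ℤ) : R2 K σ ((σ ^ j) x) ((σ ^ j) y) :=
  let ⟨_, hz⟩ := h; ⟨_, hz.shift hc j⟩

lemma conn3 {T : Set K} (hsw : ∀ t ∈ T, ∃ x y z : X, ¬ σ.SameCycle x y ∧ ¬ σ.SameCycle x z ∧
      ¬ σ.SameCycle y z ∧ t • x = y ∧ t • y = z ∧ t • z = x ∧
      ∀ w, ¬ σ.SameCycle x w → ¬ σ.SameCycle y w → ¬ σ.SameCycle z w → t • w = w) {k : K}
    (hk : k ∈ Subgroup.closure T) : ∀ w, Relation.ReflTransGen (R2 K σ) w (k • w) := by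
  induction hk using Subgroup.closure_induction with
  | mem t ht =>
    intro w
    obtain ⟨x, y, z, a1, a2, a3, h1, h2, h3, h4⟩ := hsw t ht
    have he : E3 K σ x y z := ⟨a1, a2, a3, t, h1, h2, h3, h4⟩
    by_cases a : σ.SameCycle x w
    · obtain ⟨j, rfl⟩ := a
      rw [zk hc, h1]
      exact .single ⟨_, he.shift hc j⟩
    by_cases b : σ.SameCycle y w
    · obtain ⟨j, rfl⟩ := b
      rw [zk hc, h2]
      exact .single ⟨_, he.rot.shift hc j⟩
    by_cases c : σ.SameCycle z w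
    · obtain ⟨j, rfl⟩ := c
      rw [zk hc, h3]
      exact .single ⟨_, he.rot.rot.shift hc j⟩
    rw [h4 w a b c]
  | one => intro w; rw [one_smul]
  | mul g h _ _ h1 h2 => intro w; rw [mul_smul]; exact (h2 w).trans (h1 _)
  | inv g _ h1 =>
    intro w
    have h2 := h1 (g⁻¹ • w)
    rw [smul_inv_smul] at h2
    generalize g⁻¹ • w = v at h2
    induction h2 with
    | refl => rfl
    | tail _ h ih => exact .head h.symm ih

lemma step_first {a b r d e : X} (h : G3 K σ a b r) (h' : G3 K σ a d e)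
    (h2 : ¬ σ.SameCycle d b) : G3 K σ a b d := by
  by_cases h3 : σ.SameCycle e b
  · exact (h'.congr (.refl _ _) (.refl _ _) h3.symm).flip.rot
  by_cases h4 : σ.SameCycle d r
  · exact h.congr (.refl _ _) (.refl _ _) h4
  by_cases h5 : σ.SameCycle e r
  · exact h.ruleB hc (h'.congr (.refl _ _) (.refl _ _) h5.symm).rot.flip h2
  · have h6 := h.rot.ruleA hc h' h2 h4 h3 h5
    exact (h.flip.ruleB hc h6.rot h'.flip.ne).flip

lemma any_third (hcon : ∀ x y, Relation.ReflTransGen (R2 K σ) x y) {a b r d : X}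
    (h : G3 K σ a b r) (h1 : ¬ σ.SameCycle d a) (h2 : ¬ σ.SameCycle d b) : G3 K σ a b d := by
  have key : ∀ d, Relation.ReflTransGen (R2 K σ) r d →
      σ.SameCycle d a ∨ σ.SameCycle d b ∨ G3 K σ a b d := by
    intro d hd
    induction hd with
    | refl => exact .inr (.inr h)
    | @tail c d _ hcd ih =>
      obtain ⟨e, he⟩ := hcd
      have h' := he.g3
      by_cases a1 : σ.SameCycle d a
      · exact .inl a1
      by_cases a2 : σ.SameCycle d b
      · exact .inr (.inl a2)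
      refine .inr (.inr ?_)
      rcases ih with ih | ih | ih
      · exact step_first hc h (h'.congr ih.symm (.refl _ _) (.refl _ _)) a2
      · exact (step_first hc h.flip (h'.congr ih.symm (.refl _ _) (.refl _ _)) a1).flip
      · by_cases a3 : σ.SameCycle e a
        · exact ih.ruleB hc (h'.congr (.refl _ _) (.refl _ _) a3.symm) a2
        by_cases a4 : σ.SameCycle e b
        · exact (ih.flip.ruleB hc (h'.congr (.refl _ _) (.refl _ _) a4.symm) a1).flip
        · exact ih.ruleA hc h' a1 a2 a3 a4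
  exact ((key d (hcon r d)).resolve_left h1).resolve_left h2

lemma all_G3 (hcon : ∀ x y, Relation.ReflTransGen (R2 K σ) x y) {x y z : X} (h : G3 K σ x y z)
    {a b c : X} (h1 : ¬ σ.SameCycle b a) (h2 : ¬ σ.SameCycle c a) (h3 : ¬ σ.SameCycle c b) :
    G3 K σ a b c := by
  obtain ⟨u, v, h4⟩ : ∃ u v, G3 K σ a u v := by
    by_cases a1 : σ.SameCycle a x
    · exact ⟨y, z, h.congr a1 (.refl _ _) (.refl _ _)⟩
    by_cases a2 : σ.SameCycle a y
    · exact ⟨z, x, h.rot.congr a2 (.refl _ _) (.refl _ _)⟩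
    · exact ⟨x, y, (any_third hc hcon h a1 a2).rot.rot⟩
  by_cases a1 : σ.SameCycle b u
  · exact any_third hc hcon (h4.congr (.refl _ _) a1 (.refl _ _)) h2 h3
  · exact any_third hc hcon (any_third hc hcon h4 h1 a1).flip.rot h2 h3

variable (hG : ∀ a b c : X, ¬ σ.SameCycle b a → ¬ σ.SameCycle c a → ¬ σ.SameCycle c b →
    G3 K σ a b c)
  (h5 : ∀ a b c d : X, ∃ s, ¬ σ.SameCycle s a ∧ ¬ σ.SameCycle s b ∧ ¬ σ.SameCycle s c ∧
    ¬ σ.SameCycle s d)
include hG h5

lemma R2.free {p q c : X} (h : R2 K σ p q) (h1 : ¬ σ.SameCycle c p) (h2 : ¬ σ.SameCycle c q) :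
    ∃ r, σ.SameCycle c r ∧ E3 K σ p q r := by
  obtain ⟨r, hr⟩ := h
  by_cases a : σ.SameCycle c r
  · exact ⟨r, a, hr⟩
  obtain ⟨s, s1, s2, s3, s4⟩ := h5 p q r c
  obtain ⟨g, g1, -, g3⟩ := (hG r c s a s3 s4).elt hc
  have := hr.conj hc g
  rw [g3 p hr.rot.rot.1 h1 s1, g3 q hr.rot.flip.1 h2 s2] at this
  exact ⟨_, g1, this⟩

lemma R2.trans {x y z : X} (h : R2 K σ x y) (h' : R2 K σ y z) (hxz : ¬ σ.SameCycle x z) :
    R2 K σ x z := by
  obtain ⟨s, s1, s2, s3, -⟩ := h5 x y z z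
  obtain ⟨w, w1, -, -, -, g, g1, -, -, g4⟩ := h'.free hc hG h5 s2 s3
  obtain ⟨r, hr⟩ := h
  have := hr.conj hc g
  rw [g1, g4 x hr.flip.1 (fun e => hxz e.symm) fun e => s1 (w1.trans e)] at this
  exact ⟨_, this⟩

lemma exists_R2 {p b : X} (h : ¬ σ.SameCycle b p) : ∃ q, σ.SameCycle b q ∧ R2 K σ p q := by
  obtain ⟨s, s1, s2, -, -⟩ := h5 p b b b
  obtain ⟨x, y, z, h1, h2, -, h4⟩ := hG p b s h s1 s2
  obtain ⟨j, rfl⟩ := h1.symm
  exact ⟨(σ ^ j) y, by simpa using h2, _, h4.shift hc j⟩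

lemma all_R2 (hcon : ∀ x y, Relation.ReflTransGen (R2 K σ) x y) {x y : X}
    (hxy : ¬ σ.SameCycle x y) : R2 K σ x y := by
  have key : ∀ z, Relation.ReflTransGen (R2 K σ) x z → ∃ u, R2 K σ x u ∧ R2 K σ u z := by
    intro z hz
    induction hz with
    | refl =>
      obtain ⟨u, -, hu⟩ := exists_R2 hc hG h5 fun e => hxy e.symm
      exact ⟨u, hu, hu.symm⟩
    | @tail z z' _ h ih =>
      obtain ⟨u, h1, h2⟩ := ih
      obtain ⟨s, s1, s2, s3, s4⟩ := h5 x u z z'
      obtain ⟨v, v1, v2⟩ := exists_R2 hc hG h5 s1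
      exact ⟨v, v2, ((v2.symm.trans hc hG h5 h1 fun e => s2 (v1.trans e)).trans hc hG h5 h2
        fun e => s3 (v1.trans e)).trans hc hG h5 h fun e => s4 (v1.trans e)⟩
  obtain ⟨u, h1, h2⟩ := key y (hcon x y)
  exact h1.trans hc hG h5 h2 hxy

end

lemma trj3 (hc : ∀ (k : K) (x : X), k • σ x = σ (k • x))
    (hE : ∀ x y c, ¬ σ.SameCycle x y → ¬ σ.SameCycle c x → ¬ σ.SameCycle c y →
      ∃ r, σ.SameCycle c r ∧ E3 K σ x y r) {j r : ℕ} (hj2 : j + 2 < r) {c : Fin r → X}
    (hcs : Sep σ c) {a b : Fin j → X} (ha : Sep σ a) (hb : Sep σ b) : ∃ k : K, k • a = b := by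
  have hj : j < r := by omega
  have mv : ∀ (s : Finset (Fin j)) (u v : X), ¬ σ.SameCycle u v →
      (∀ i ∈ s, ¬ σ.SameCycle u (b i)) → (∀ i ∈ s, ¬ σ.SameCycle v (b i)) →
      ∃ h : K, h • u = v ∧ ∀ i ∈ s, h • b i = b i := by
    intro s u v h1 h2 h3
    obtain ⟨z, hz⟩ := spare hj2 hcs (Fin.cons u (Fin.cons v b : Fin (j + 1) → X))
    obtain ⟨w, w1, -, -, -, h, k1, -, -, k2⟩ := hE u v z h1 (fun e => hz 0 e.symm)
      fun e => hz 1 e.symm
    exact ⟨h, k1, fun i hi => k2 _ (h2 i hi) (h3 i hi) fun e =>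
      hz i.succ.succ (w1.trans e).symm⟩
  have key : ∀ s : Finset (Fin j), ∃ k : K, ∀ i ∈ s, k • a i = b i := by
    intro s
    induction s using Finset.induction_on with
    | empty => exact ⟨1, by simp⟩
    | insert i₀ s hi ih =>
      obtain ⟨g, hg⟩ := ih
      have hu : ∀ i ∈ s, ¬ σ.SameCycle (g • a i₀) (b i) := fun i h e => by
        rw [← hg i h, sk hc] at e
        exact hi (ha _ _ e ▸ h)
      have hv : ∀ i ∈ s, ¬ σ.SameCycle (b i₀) (b i) := fun i h e => hi (hb _ _ e ▸ h)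
      obtain ⟨h, h1, h2⟩ : ∃ h : K, h • g • a i₀ = b i₀ ∧ ∀ i ∈ s, h • b i = b i := by
        by_cases e : σ.SameCycle (g • a i₀) (b i₀)
        · obtain ⟨z, hz⟩ := spare hj hcs b
          obtain ⟨h, h1, h2⟩ := mv s _ z (fun e' => hz i₀ (e.symm.trans e')) hu
            fun i _ e' => hz i e'.symm
          obtain ⟨h', h3, h4⟩ := mv s z (b i₀) (fun e' => hz i₀ e'.symm)
            (fun i _ e' => hz i e'.symm) hv
          exact ⟨h' * h, by rw [mul_smul, h1, h3], fun i hi => by rw [mul_smul, h2 i hi, h4 i hi]⟩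
        · exact mv s _ _ e hu hv
      refine ⟨h * g, fun i hi' => ?_⟩
      rcases mem_insert.1 hi' with rfl | hi'
      · rw [mul_smul, h1]
      · rw [mul_smul, hg i hi', h2 i hi']
  obtain ⟨k, hk⟩ := key univ
  exact ⟨k, funext fun i => hk i (mem_univ _)⟩

theorem pois' (n : ℕ) (hn : 0 < n) (X : Type) [Finite X] (K : Type) [Group K] [Finite K]
    [MulAction K X] (σ : Equiv.Perm X)
    (hσ : ∀ (x : X) (k : ℤ), (σ ^ k) x = x ↔ (n : ℤ) ∣ k)
    (hc : ∀ (k : K) (x : X), k • σ x = σ (k • x)) (k J : ℕ) (hJ : 2 ≤ J)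
    (htj : ∀ j, j ≤ k + J → ∀ a b : Fin j → X, Sep σ a → Sep σ b → ∃ g : K, g • a = b)
    (hr : ∃ c : Fin (k + J + 1) → X, ∀ i j, σ.SameCycle (c i) (c j) → i = j)
    (F : Equiv.Perm X) (hF : ∀ x, F (σ x) = σ (F x)) :
    |({g : K | {x | g • F x = σ x}.ncard = n * k}.ncard : ℝ) -
        Real.exp (-1 / n) / (n ^ k * k.factorial) * Nat.card K| ≤
      3 / (n ^ (k + J) * k.factorial * J.factorial) * Nat.card K := by
  classical
  let _ := Fintype.ofFinite X
  let _ := Fintype.ofFinite K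
  obtain ⟨c, hcs⟩ := hr
  let A : K → Finset X := fun g => univ.filter fun z => g • F z = σ z
  have hA : ∀ g, ∀ x ∈ A g, ∀ y, σ.SameCycle x y → y ∈ A g := by
    rintro g w hw _ ⟨j, rfl⟩
    simp only [A, mem_filter, mem_univ, true_and] at hw ⊢
    rw [zp hF, zk hc, hw, zp (P := σ) fun _ => rfl]
  choose m hm using fun g => card_dvd hn hσ _ (A g) rfl (hA g)
  have hn' : (0 : ℝ) < n := by exact_mod_cast hn
  have mom : ∀ j, j ≤ k + J → ∑ g, ((m g).choose j : ℝ) =
      Fintype.card K / (n ^ j * j.factorial) := by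
    intro j hj
    let Y : Finset (Fin j → X) := univ.filter fun a => Sep σ a
    have hY : ∀ a, a ∈ Y ↔ Sep σ a := fun a => by simp [Y]
    have h1 : ∑ g : K, (Y.filter fun a => g • (F ∘ a) = σ ∘ a).card = Fintype.card K := by
      convert cnt (K := K) Y ⟨fun i => c (i.castLE (hj.trans (Nat.le_succ _))), (hY _).2 fun i i' e =>
          Fin.castLE_injective (hj.trans (Nat.le_succ _)) (hcs _ _ e)⟩
        (fun g a ha => (hY _).2 fun i i' e => (hY _).1 ha i i' ((sk hc g).1 e))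
        (fun a ha b hb => htj j hj a b ((hY _).1 ha) ((hY _).1 hb))
        (f := fun a => F ∘ a) (g := fun a => σ ∘ a)
        (fun a ha => (hY _).2 fun i i' e => (hY _).1 ha i i' ((sc hF).1 e))
        fun a ha => (hY _).2 fun i i' e => (hY _).1 ha i i' ((sc fun _ => rfl).1 e)
    have h2 : ∀ g : K, (Y.filter fun a => g • (F ∘ a) = σ ∘ a).card =
        n ^ j * j.factorial * (m g).choose j := by
      intro g
      rw [mul_assoc, ← Nat.descFactorial_eq_factorial_mul_choose,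
        ← card_tup hn hσ j (m g) (A g) (hm g) (hA g)]
      congr 1
      ext a
      simp [Y, A, funext_iff]
    rw [eq_div_iff (by positivity), ← h1, sum_congr rfl fun g _ => h2 g, ← mul_sum]
    push_cast
    ring
  have mom' : ∀ i, i ≤ J → ∑ g, (((k + i).choose k * (m g).choose (k + i) : ℕ) : ℝ) =
      Fintype.card K / (n ^ (k + i) * k.factorial * i.factorial) := by
    intro i hi
    push_cast
    have h1 : ((k + i).factorial : ℝ) = (k + i).choose k * i.factorial * k.factorial := by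
      rw [add_comm k i]
      exact_mod_cast (Nat.add_choose_mul_factorial_mul_factorial i k).symm
    have h2 : (0 : ℝ) < (k + i).choose k := by
      exact_mod_cast Nat.choose_pos (Nat.le_add_right k i)
    rw [← mul_sum, mom _ (by omega), h1]
    field_simp
  have hN : ({g : K | {x | g • F x = σ x}.ncard = n * k}.ncard : ℝ) =
      ∑ g, if m g = k then (1 : ℝ) else 0 := by
    rw [sum_boole, ← Set.ncard_coe_finset]
    congr 2
    ext g
    have : {x | g • F x = σ x} = (A g : Set X) := by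
      ext x
      simp [A]
    simp [this, hm g, hn.ne']
  have hb : |(∑ g, if m g = k then (1 : ℝ) else 0) -
      (∑ i ∈ range J, (-1 / n : ℝ) ^ i / i.factorial) / (n ^ k * k.factorial) * Fintype.card K| ≤
      Fintype.card K / (n ^ (k + J) * k.factorial * J.factorial) := by
    have e : (∑ i ∈ range J, (-1 / n : ℝ) ^ i / i.factorial) / (n ^ k * k.factorial) *
        Fintype.card K = ∑ g, ∑ i ∈ range J,
          (-1 : ℝ) ^ i * ((k + i).choose k * (m g).choose (k + i) : ℕ) := by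
      rw [sum_comm, sum_div, sum_mul]
      refine sum_congr rfl fun i hi => ?_
      rw [← mul_sum, mom' i (mem_range.1 hi).le, div_pow, pow_add]
      field_simp
    rw [e, ← sum_sub_distrib, ← mom' J le_rfl]
    exact (abs_sum_le_sum_abs _ _).trans (sum_le_sum fun g _ => bonf _ _ _ (by omega))
  have he : |Real.exp (-1 / n) - ∑ i ∈ range J, (-1 / n : ℝ) ^ i / i.factorial| ≤
      2 / (n ^ J * J.factorial) := by
    have h1 : |(-1 / n : ℝ)| = 1 / n := by
      rw [abs_div, abs_neg, abs_one, abs_of_pos hn']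
    have h2 : (1 : ℝ) ≤ n := by exact_mod_cast hn
    have h4 : (1 : ℝ) ≤ J := by exact_mod_cast (by omega : 1 ≤ J)
    refine (Real.exp_bound (by rw [h1, div_le_one hn']; exact h2) (by omega : 0 < J)).trans ?_
    rw [h1, div_pow, one_pow, div_mul_div_comm, one_mul, ← mul_assoc,
      div_le_div_iff₀ (by positivity) (by positivity)]
    push_cast
    have : (0 : ℝ) < n ^ J * J.factorial := by positivity
    nlinarith
  rw [hN, Nat.card_eq_fintype_card]
  set S := ∑ i ∈ range J, (-1 / n : ℝ) ^ i / i.factorial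
  set N := ∑ g, if m g = k then (1 : ℝ) else 0
  have h5 : |S / (n ^ k * k.factorial) * Fintype.card K -
      Real.exp (-1 / n) / (n ^ k * k.factorial) * Fintype.card K| ≤
      2 * (Fintype.card K / (n ^ (k + J) * k.factorial * J.factorial)) := by
    rw [← sub_mul, ← sub_div, abs_mul, abs_div, abs_sub_comm, Nat.abs_cast,
      abs_of_pos (by positivity : (0 : ℝ) < n ^ k * k.factorial)]
    calc _ ≤ 2 / (n ^ J * J.factorial) / (n ^ k * k.factorial) * (Fintype.card K : ℝ) := by gcongr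
      _ = _ := by
        rw [pow_add]
        field_simp
  refine (abs_sub_le _ _ _).trans ((add_le_add hb h5).trans_eq ?_)
  ring

end VPois

open YPair YPois VPois in
theorem pois3 (n : ℕ) (hn : 0 < n) {G X : Type} [Group G] [Finite G] [Finite X] [MulAction G X]
    (σ : Equiv.Perm X) (hσ : ∀ (x : X) (k : ℤ), (σ ^ k) x = x ↔ (n : ℤ) ∣ k)
    (hc : ∀ (g : G) (x : X), g • σ x = σ (g • x)) (K : Subgroup G) (hK : K.Normal) (t : G)
    (ht : t ∈ K) (htr : ∀ x y : X, ∃ k ∈ Subgroup.normalClosure ({t} : Set G), k • x = y)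
    (hsw : ∃ x y z : X, ¬ σ.SameCycle x y ∧ ¬ σ.SameCycle x z ∧ ¬ σ.SameCycle y z ∧
      t • x = y ∧ t • y = z ∧ t • z = x ∧
      ∀ w, ¬ σ.SameCycle x w → ¬ σ.SameCycle y w → ¬ σ.SameCycle z w → t • w = w)
    (k J : ℕ) (hJ : 2 ≤ J)
    (hr : ∃ c : Fin (k + J + 3) → X, ∀ i j, σ.SameCycle (c i) (c j) → i = j)
    (F : Equiv.Perm X) (hF : ∀ x, F (σ x) = σ (F x)) :
    |({g : K | {x | g • F x = σ x}.ncard = n * k}.ncard : ℝ) -
        Real.exp (-1 / n) / (n ^ k * k.factorial) * Nat.card K| ≤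
      3 / (n ^ (k + J) * k.factorial * J.factorial) * Nat.card K := by
  let T : Set K := {k | ∃ g : G, (k : G) = g * t * g⁻¹}
  have hNT : Subgroup.normalClosure ({t} : Set G) ≤ (Subgroup.closure T).map K.subtype := by
    refine (Subgroup.closure_le _).2 fun a ha => ?_
    obtain ⟨b, hb, hab⟩ := Group.mem_conjugatesOfSet_iff.1 ha
    obtain rfl : b = t := hb
    obtain ⟨g, rfl⟩ := isConj_iff.1 hab
    exact ⟨⟨_, hK.conj_mem _ ht g⟩, Subgroup.subset_closure ⟨g, rfl⟩, rfl⟩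
  have hc' : ∀ (g : K) (x : X), g • σ x = σ (g • x) := fun g x => hc g x
  obtain ⟨x, y, z, a1, a2, a3, h1, h2, h3, h4⟩ := hsw
  have hcon : ∀ x y, Relation.ReflTransGen (R2 K σ) x y := by
    intro u v
    obtain ⟨k, hk, rfl⟩ := htr u v
    obtain ⟨k', hk', rfl⟩ := hNT hk
    refine conn3 hc' (T := T) ?_ hk' u
    rintro s ⟨g, hg⟩
    have e : ∀ w : X, s • w = g • t • g⁻¹ • w := fun w => by
      rw [Subgroup.smul_def, hg, mul_smul, mul_smul]
    refine ⟨g • x, g • y, g • z, by rwa [sk hc], by rwa [sk hc], by rwa [sk hc], ?_, ?_, ?_,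
      fun w a b c => ?_⟩
    · rw [e, inv_smul_smul, h1]
    · rw [e, inv_smul_smul, h2]
    · rw [e, inv_smul_smul, h3]
    · rw [e, h4, smul_inv_smul]
      · rwa [← sk hc g, smul_inv_smul]
      · rwa [← sk hc g, smul_inv_smul]
      · rwa [← sk hc g, smul_inv_smul]
  have h0 : E3 K σ x y z := ⟨a1, a2, a3, ⟨t, ht⟩, h1, h2, h3, h4⟩
  obtain ⟨c, hcs⟩ := hr
  have hG : ∀ a b c : X, ¬ σ.SameCycle b a → ¬ σ.SameCycle c a → ¬ σ.SameCycle c b →
      G3 K σ a b c := fun a b c => all_G3 hc' hcon h0.g3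
  have h5 : ∀ a b c d : X, ∃ s, ¬ σ.SameCycle s a ∧ ¬ σ.SameCycle s b ∧ ¬ σ.SameCycle s c ∧
      ¬ σ.SameCycle s d := fun a b c' d => by
    obtain ⟨s, hs⟩ := spare (j := 4) (by omega) hcs ![a, b, c', d]
    exact ⟨s, fun e => hs 0 e.symm, fun e => hs 1 e.symm, fun e => hs 2 e.symm,
      fun e => hs 3 e.symm⟩
  refine pois' n hn X K σ hσ hc' k J hJ (fun j hj a b ha hb => trj3 hc'
    (fun u v w huv => (all_R2 hc' hG h5 hcon huv).free hc' hG h5) (by omega) hcs ha hb)
    ⟨fun i => c (i.castLE (by omega)), fun i j e => Fin.castLE_injective (by omega) (hcs _ _ e)⟩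
    F hF

end Pool.Agent.MP_9b2bac_nt.Z

end

section

/- Local moves on words with three letters. -/

set_option autoImplicit false

namespace Pool.Agent.MP_9b2bac_nt.Z

open ZSweep

namespace YTr

theorem tri {c x y : Fin 3} (hcx : c ≠ x) (hcy : c ≠ y) (hxy : x ≠ y) (a : Fin 3) :
    a = c ∨ a = x ∨ a = y := by
  revert c x y a; decide

theorem third (u v : Fin 3) : ∃ c, c ≠ u ∧ c ≠ v := by
  revert u v; decide

theorem mk_eq_iff {u v c : Fin 3} (hu : c ≠ u) (hv : c ≠ v) {j : ℕ} {s : Seq 3} (w : ℤ) :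
    mk u v j s w = c ↔ s w = c := by
  by_cases hh : Hit u v j s w
  · rw [mk_hit hh, Equiv.swap_apply_eq_iff, Equiv.swap_apply_of_ne_of_ne hu hv]
  · rw [mk_not hh]

theorem exists_ge {n : ℕ} {s : Seq 3} (h : Per n s) (a : Fin 3) (x : ℤ) :
    ∃ z, x ≤ z ∧ s z = a := by
  obtain ⟨y, hy⟩ := h.2.2 a
  have hn : (1 : ℤ) ≤ n := by exact_mod_cast h.1
  exact ⟨y + |x - y| * n, by nlinarith [le_abs_self (x - y), abs_nonneg (x - y)],
    by rw [h.zper, hy]⟩

theorem exists_first {P : ℤ → Prop} {x z : ℤ} (h1 : x ≤ z) (h2 : P z) :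
    ∃ z, x ≤ z ∧ P z ∧ ∀ w, x ≤ w → w < z → ¬ P w := by
  obtain ⟨z, hz, hmin⟩ := Int.exists_least_of_bdd (P := fun z => x ≤ z ∧ P z)
    ⟨x, fun z hz => hz.1⟩ ⟨z, h1, h2⟩
  exact ⟨z, hz.1, hz.2, fun w w1 w2 hw => absurd (hmin w ⟨w1, hw⟩) (by omega)⟩

theorem exists_lst {P : ℤ → Prop} {x z : ℤ} (h1 : z ≤ x) (h2 : P z) :
    ∃ z', z ≤ z' ∧ z' ≤ x ∧ P z' ∧ ∀ w, z' < w → w ≤ x → ¬ P w := by
  obtain ⟨z', hz, hmax⟩ := Int.exists_greatest_of_bdd (P := fun z => z ≤ x ∧ P z)
    ⟨x, fun z hz => hz.1⟩ ⟨z, h1, h2⟩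
  exact ⟨z', hmax z ⟨h1, h2⟩, hz.1, hz.2, fun w w1 w2 hw => absurd (hmax w ⟨w2, hw⟩) (by omega)⟩

theorem hit_at {u v : Fin 3} {j : ℕ} {s : Seq 3} {x : ℤ} (h : Hit u v j s x) (y : ℤ)
    (h1 : x < y) (h2 : y ≤ x + j) : s y = u := by
  have := h.1 (y - x).toNat (by omega) (by omega)
  rwa [show x + ((y - x).toNat : ℤ) = y by omega] at this

theorem mk_back {n m : ℕ} {s : Seq 3} (h : Per n s) {u v : Fin 3} {j : ℕ}
    (hm : ∀ i, mk u v j s (i + m) = mk u v j s i) (i : ℤ) : s (i + m) = s i := by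
  obtain ⟨c, hu, hv⟩ := third u v
  obtain ⟨q, hq1, hq⟩ := exists_ge h c i
  have hqm : s (q + m) = c := by
    rw [← mk_eq_iff hu hv (j := j), hm, mk_eq_iff hu hv, hq]
  have key : ∀ D : ℕ, ∀ w, q - D ≤ w → w ≤ q → s (w + m) = s w := by
    intro D
    induction D with
    | zero =>
      intro w w1 w2
      obtain rfl : w = q := by omega
      rw [hq, hqm]
    | succ D ih =>
      intro w w1 w2
      by_cases hw : q - D ≤ w
      · exact ih w hw w2
      have hmw := hm w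
      by_cases hj : w + j + 1 ≤ q
      · have e : Hit u v j s (w + m) ↔ Hit u v j s w := by
          constructor
          · intro hh
            refine hit_of (fun y y1 y2 => ?_) _ rfl ?_
            · rw [← ih y (by omega) (by omega)]
              exact hit_at hh _ (by omega) (by omega)
            · rw [← ih _ (by omega) (by omega), ← hh.2]
              congr 1; ring
          · intro hh
            refine hit_of (fun y y1 y2 => ?_) (w + j + 1 + m) (by ring) ?_
            · rw [show y = y - m + m by ring, ih _ (by omega) (by omega)]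
              exact hit_at hh _ (by omega) (by omega)
            · rw [ih _ (by omega) (by omega), hh.2]
        by_cases hh : Hit u v j s w
        · rw [mk_hit hh, mk_hit (e.2 hh)] at hmw
          exact (Equiv.swap u v).injective hmw
        · rwa [mk_not hh, mk_not (fun h' => hh (e.1 h'))] at hmw
      · rwa [mk_mid (x := w) q (by omega) (by omega) (hq ▸ hu),
          mk_mid (x := w + m) (q + m) (by omega) (by omega) (hqm ▸ hu)] at hmw
  exact key (q - i).toNat i (by omega) hq1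

/-- Reachability that keeps track of periods. -/
def Re (n : ℕ) (s t : Seq 3) : Prop := RelA n s t ∧ Per n t ∧ (Prim n s → Prim n t)

theorem Re.refl {n : ℕ} {s : Seq 3} (h : Per n s) : Re n s s :=
  ⟨Relation.EqvGen.refl _, h, id⟩

theorem Re.trans {n : ℕ} {s t w : Seq 3} (h : Re n s t) (h' : Re n t w) : Re n s w :=
  ⟨Relation.EqvGen.trans _ _ _ h.1 h'.1, h'.2.1, fun a => h'.2.2 (h.2.2 a)⟩

theorem re_mk {n : ℕ} {s : Seq 3} (h : Per n s) {u v : Fin 3} (huv : u ≠ v) {j : ℕ}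
    (hj : 1 ≤ j) : Re n s (mk u v j s) :=
  ⟨Relation.EqvGen.rel _ _ ⟨h, u, v, j, huv, hj, rfl⟩, mk_per le_rfl h huv hj, fun hp =>
    ⟨mk_per le_rfl h huv hj, fun m hm hh => hp.2 m hm ⟨hh.1, mk_back h hh.2.1, h.2.2⟩⟩⟩

/-- Same positions of `c`, same letters in front of `c`. -/
def Keep (c : Fin 3) (s t : Seq 3) : Prop :=
  (∀ w, t w = c ↔ s w = c) ∧ ∀ w, s (w + 1) = c → t w = s w

theorem Keep.refl (c : Fin 3) (s : Seq 3) : Keep c s s := ⟨fun _ => Iff.rfl, fun _ _ => rfl⟩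

theorem Keep.trans {c : Fin 3} {s t r : Seq 3} (h : Keep c s t) (h' : Keep c t r) :
    Keep c s r :=
  ⟨fun w => (h'.1 w).trans (h.1 w), fun w hw => (h'.2 w ((h.1 _).2 hw)).trans (h.2 w hw)⟩

theorem keep_mk {u v c : Fin 3} (hu : c ≠ u) (hv : c ≠ v) {j : ℕ} (hj : 1 ≤ j) (s : Seq 3) :
    Keep c s (mk u v j s) :=
  ⟨fun w => mk_eq_iff hu hv w, fun w hw => mk_mid (w + 1) (by omega) (by omega) (hw ▸ hu)⟩

/-- The tail `y x ... x c` with `y` at `z` and `c` at `e`. -/
def Tail (s : Seq 3) (c x y : Fin 3) (z e : ℤ) : Prop :=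
  s z = y ∧ (∀ w, z < w → w < e → s w = x) ∧ s e = c ∧ z + 1 < e

theorem Tail.ne {s : Seq 3} {c x y : Fin 3} {z e : ℤ} (h : Tail s c x y z e) (hcy : c ≠ y)
    (hxy : x ≠ y) (w : ℤ) (h1 : z < w) (h2 : w ≤ e) : s w ≠ y := by
  rcases h2.lt_or_eq with h3 | rfl
  · rw [h.2.1 w h1 h3]; exact hxy
  · rw [h.2.2.1]; exact hcy

theorem Tail.fix1 {s : Seq 3} {c x y : Fin 3} {z e : ℤ} (h : Tail s c x y z e)
    (hcy : c ≠ y) (hxy : x ≠ y) {j : ℕ} (hj : 1 ≤ j) (w : ℤ) (h1 : z ≤ w) (h2 : w < e) :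
    mk y x j s w = s w :=
  mk_mid (w + 1) (by omega) (by omega) (h.ne hcy hxy _ (by omega) (by omega))

theorem Tail.fix2 {s : Seq 3} {c x y : Fin 3} {z e : ℤ} (h : Tail s c x y z e) (hcx : c ≠ x)
    (hcy : c ≠ y) (hxy : x ≠ y) {j : ℕ} (w : ℤ) (h1 : z ≤ w) (h2 : w < e) :
    mk x y j s w = s w := by
  by_cases h3 : w + j + 1 ≤ e
  · exact mk_last _ rfl (h.ne hcy hxy _ (by omega) h3)
  · exact mk_mid e h2 (by omega) (h.2.2.1 ▸ hcx)

theorem Tail.of_fix {s t : Seq 3} {c x y : Fin 3} {z e : ℤ} (h : Tail s c x y z e)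
    (hk : Keep c s t) (hf : ∀ w, z ≤ w → w < e → t w = s w) : Tail t c x y z e :=
  ⟨(hf z le_rfl (by have := h.2.2.2; omega)).trans h.1,
    fun w w1 w2 => (hf w w1.le w2).trans (h.2.1 w w1 w2), (hk.1 _).2 h.2.2.1, h.2.2.2⟩

theorem norm {n : ℕ} {s : Seq 3} (hs : Per n s) {c x y : Fin 3} (hcx : c ≠ x) (hcy : c ≠ y)
    (hxy : x ≠ y) {p z e : ℤ} (hb : ∀ w, p ≤ w → w < z → s w ≠ c) (ht : Tail s c x y z e)
    {a : Fin 3} (ha : a = x ∨ a = y) :
    ∃ t, Re n s t ∧ Keep c s t ∧ Tail t c x y z e ∧ ∀ w, p ≤ w → w < z → t w = a := by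
  have key : ∀ D : ℕ, p ≤ z - D → ∃ t, Re n s t ∧ Keep c s t ∧ Tail t c x y z e ∧
      ∀ w, z - D ≤ w → w < z → t w = a := by
    intro D
    induction D with
    | zero => exact fun _ => ⟨s, Re.refl hs, Keep.refl _ _, ht, fun w w1 w2 => by omega⟩
    | succ D ih =>
      intro hD
      push_cast at hD
      obtain ⟨t, r, k, tl, hv⟩ := ih (by omega)
      have hz := tl.2.2.2
      by_cases h0 : t (z - D - 1) = a
      · refine ⟨t, r, k, tl, fun w w1 w2 => ?_⟩
        by_cases hw : z - D ≤ w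
        · exact hv w hw w2
        · rwa [show w = z - D - 1 by push_cast at w1; omega]
      have hc : t (z - D - 1) ≠ c := fun h => hb _ (by omega) (by omega) ((k.1 _).1 h)
      rcases ha with rfl | rfl
      · have hy : t (z - D - 1) = y := by
          rcases tri hcx hcy hxy (t (z - D - 1)) with h | h | h
          · exact absurd h hc
          · exact absurd h h0
          · exact h
        rcases Nat.eq_zero_or_pos D with rfl | hD0
        · have k' := keep_mk hcy hcx le_rfl t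
          refine ⟨_, r.trans (re_mk r.2.1 hxy.symm le_rfl), k.trans k',
            tl.of_fix k' (tl.fix1 hcy hxy le_rfl), fun w w1 w2 => ?_⟩
          obtain rfl : w = z - (0 : ℕ) - 1 := by push_cast at w1 ⊢; omega
          rw [mk_hit (hit_one z (z + 1) (by push_cast; omega) (by push_cast; omega) tl.1
            (tl.2.1 _ (by omega) hz)), hy, Equiv.swap_apply_left]
        · have k' := keep_mk hcx hcy hD0 t
          refine ⟨_, r.trans (re_mk r.2.1 hxy hD0), k.trans k',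
            tl.of_fix k' (tl.fix2 hcx hcy hxy), fun w w1 w2 => ?_⟩
          by_cases hw : z - D ≤ w
          · rw [mk_mid z w2 (by omega) (tl.1 ▸ hxy.symm)]
            exact hv w hw w2
          · obtain rfl : w = z - D - 1 := by push_cast at w1; omega
            rw [mk_hit (hit_of (fun y y1 y2 => hv y (by omega) (by omega)) z (by omega) tl.1),
              hy, Equiv.swap_apply_right]
      · have hx : t (z - D - 1) = x := by
          rcases tri hcx hcy hxy (t (z - D - 1)) with h | h | h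
          · exact absurd h hc
          · exact h
          · exact absurd h h0
        have k' := keep_mk hcy hcx (j := D + 1) (by omega) t
        have hz1 := tl.2.1 (z + 1) (by omega) hz
        refine ⟨_, r.trans (re_mk r.2.1 hxy.symm (j := D + 1) (by omega)), k.trans k',
          tl.of_fix k' (tl.fix1 hcy hxy (by omega)), fun w w1 w2 => ?_⟩
        by_cases hw : z - D ≤ w
        · rw [mk_mid (z + 1) (by omega) (by push_cast; omega) (hz1 ▸ hxy)]
          exact hv w hw w2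
        · obtain rfl : w = z - D - 1 := by push_cast at w1; omega
          rw [mk_hit (hit_of (fun y y1 y2 => ?_) (z + 1) (by push_cast; omega) hz1),
            hx, Equiv.swap_apply_right]
          by_cases hy : y < z
          · exact hv y (by omega) hy
          · rw [show y = z by push_cast at y2; omega]; exact tl.1
  by_cases hpz : p ≤ z
  · obtain ⟨t, r, k, tl, hv⟩ := key (z - p).toNat (by omega)
    exact ⟨t, r, k, tl, fun w w1 w2 => hv w (by omega) w2⟩
  · exact ⟨s, Re.refl hs, Keep.refl _ _, ht, fun w w1 w2 => by omega⟩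

/-- The letter `c` fills `[a, b)`. -/
def Run (s : Seq 3) (c : Fin 3) (a b : ℤ) : Prop := ∀ w, a ≤ w → w < b → s w = c

theorem Run.keep {s t : Seq 3} {c : Fin 3} {a b : ℤ} (h : Run s c a b) (k : Keep c s t) :
    Run t c a b := fun w w1 w2 => (k.1 w).2 (h w w1 w2)

theorem ext_run {s : Seq 3} {c x : Fin 3} (hcx : c ≠ x) {J : ℕ} {p : ℤ}
    (hr : Run s c (p - J) p) (h0 : s (p - J - 1) = x) (hp : s p = x) :
    Run (mk c x J s) c (p - J - 1) p := by
  intro w w1 w2
  by_cases hw : p - J ≤ w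
  · rw [mk_mid p w2 (by omega) (hp ▸ hcx.symm)]
    exact hr w hw w2
  · obtain rfl : w = p - J - 1 := by omega
    rw [mk_hit (hit_of (fun y y1 y2 => hr y (by omega) (by omega)) p (by omega) hp), h0,
      Equiv.swap_apply_right]

theorem ext_fix {s : Seq 3} {c x : Fin 3} {J : ℕ} (hJ : 1 ≤ J) (w : ℤ) (h : s (w + 1) ≠ c) :
    mk c x J s w = s w := mk_mid (w + 1) (by omega) (by omega) h

end YTr

end Pool.Agent.MP_9b2bac_nt.Z

end

section

/- Canonical words on three letters are all equivalent. -/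

set_option autoImplicit false

namespace Pool.Agent.MP_9b2bac_nt.Z

open ZSweep

namespace YTr

/-- The word with `x y x` at `p` and `c` elsewhere. -/
def Can (n : ℕ) (c x y : Fin 3) (p : ℤ) (t : Seq 3) : Prop :=
  Per n t ∧ t p = x ∧ t (p + 1) = y ∧ t (p + 2) = x ∧ Run t c (p + 3) (p + n)

theorem Can.uniq {n : ℕ} {c x y : Fin 3} {p : ℤ} {s t : Seq 3} (h : Can n c x y p s)
    (h' : Can n c x y p t) : s = t := by
  funext w
  have hn : (0 : ℤ) < n := by exact_mod_cast h.1.1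
  have h0 := Int.emod_nonneg (w - p) hn.ne'
  have h1 := Int.emod_lt_of_pos (w - p) hn
  have e : w = p + (w - p) % n + (w - p) / n * n := by
    have := Int.emod_add_ediv_mul (w - p) n
    omega
  generalize (w - p) % n = r at h0 h1 e
  rw [e, h.1.zper, h'.1.zper]
  by_cases r0 : r = 0
  · subst r0; rw [add_zero, h.2.1, h'.2.1]
  by_cases r1 : r = 1
  · subst r1; rw [h.2.2.1, h'.2.2.1]
  by_cases r2 : r = 2
  · subst r2; rw [h.2.2.2.1, h'.2.2.2.1]
  rw [h.2.2.2.2 _ (by omega) (by omega), h'.2.2.2.2 _ (by omega) (by omega)]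

/-- The word `s` is equivalent to a canonical word. -/
def G (n : ℕ) (s : Seq 3) (c x y : Fin 3) (p : ℤ) : Prop :=
  ∃ t, RelA n s t ∧ Can n c x y p t

theorem G.back {n : ℕ} {s t : Seq 3} {c x y : Fin 3} {p : ℤ} (h : RelA n s t)
    (g : G n t c x y p) : G n s c x y p :=
  let ⟨w, h1, h2⟩ := g; ⟨w, Relation.EqvGen.trans _ _ _ h h1, h2⟩

theorem G.link {n : ℕ} {w s : Seq 3} {c x y c' x' y' : Fin 3} {p p' : ℤ}
    (g1 : G n w c x y p) (g2 : G n w c' x' y' p') (g : G n s c x y p) : G n s c' x' y' p' := by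
  obtain ⟨t, r, k⟩ := g
  obtain ⟨t1, r1, k1⟩ := g1
  obtain rfl := k.uniq k1
  exact G.back (Relation.EqvGen.trans _ _ _ r (Relation.EqvGen.symm _ _ r1)) g2

theorem single {n : ℕ} {c x y : Fin 3} (hcx : c ≠ x) (hcy : c ≠ y) (hxy : x ≠ y) {p : ℤ}
    (k : ℕ) : ∀ (s : Seq 3) (e : ℤ), Per n s → e = p + 4 + k →
      (∀ w, p ≤ w → w < p + 2 → s w ≠ c) → Tail s c x y (p + 2) e → Run s c e (p + n) →
      e < p + n → G n s c y x p := by
  have step : ∀ (s : Seq 3) (e : ℤ), Per n s →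
      (∀ w, p ≤ w → w < p + 2 → s w ≠ c) → Tail s c x y (p + 2) e → Run s c e (p + n) →
      e < p + n → ∃ t, Re n s t ∧ t p = x ∧ t (p + 1) = x ∧ t (p + 2) = y ∧
        Run t x (p + 3) (e - 1) ∧ Run t c (e - 1) (p + n) := by
    intro s e hs hb ht hr he
    obtain ⟨t, r, kp, tl, hv⟩ := norm hs hcx hcy hxy hb ht (Or.inl rfl)
    have hz := tl.2.2.2
    obtain ⟨J, hJ⟩ : ∃ J : ℕ, (J : ℤ) = p + n - e := ⟨(p + n - e).toNat, by omega⟩
    have hJ1 : 1 ≤ J := by omega
    have hne : ∀ w, p ≤ w → w < e → t w ≠ c := by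
      intro w w1 w2
      rcases lt_trichotomy w (p + 2) with h | rfl | h
      · rw [hv w w1 h]; exact hcx.symm
      · rw [tl.1]; exact hcy.symm
      · rw [tl.2.1 w h w2]; exact hcx.symm
    have hf : ∀ w, p ≤ w → w < e - 1 → mk c x J t w = t w := fun w w1 w2 =>
      ext_fix hJ1 w (hne _ (by omega) (by omega))
    have hrun := ext_run (s := t) hcx (J := J) (p := p + n)
      (by rw [show p + n - J = e by omega]; exact hr.keep kp)
      (tl.2.1 _ (by omega) (by omega)) (by rw [r.2.1.2.1]; exact hv p le_rfl (by omega))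
    rw [show p + n - J - 1 = e - 1 by omega] at hrun
    refine ⟨_, r.trans (re_mk r.2.1 hcx hJ1), ?_, ?_, ?_, fun w w1 w2 => ?_, hrun⟩
    · rw [hf _ le_rfl (by omega)]; exact hv _ le_rfl (by omega)
    · rw [hf _ (by omega) (by omega)]; exact hv _ (by omega) (by omega)
    · rw [hf _ (by omega) (by omega)]; exact tl.1
    · rw [hf _ (by omega) w2]; exact tl.2.1 _ (by omega) (by omega)
  induction k with
  | zero =>
    intro s e hs he hb ht hr hn
    obtain ⟨t, r, h0, h1, h2, -, h4⟩ := step s e hs hb ht hr hn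
    rw [show e - 1 = p + 3 by push_cast at he; omega] at h4
    have tl : Tail t c y x (p + 1) (p + 3) :=
      ⟨h1, fun w w1 w2 => by rwa [show w = p + 2 by omega], h4 _ le_rfl (by omega), by omega⟩
    obtain ⟨t', r', kp, tl', hv⟩ := norm r.2.1 hcy hcx hxy.symm (p := p)
      (fun w w1 w2 => by rw [show w = p by omega, h0]; exact hcx.symm) tl (Or.inl rfl)
    exact ⟨t', (r.trans r').1, r'.2.1, hv _ le_rfl (by omega), tl'.1,
      tl'.2.1 _ (by omega) (by omega), h4.keep kp⟩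
  | succ k ih =>
    intro s e hs he hb ht hr hn
    push_cast at he
    obtain ⟨t, r, h0, h1, h2, h3, h4⟩ := step s e hs hb ht hr hn
    refine G.back r.1 (ih t (e - 1) r.2.1 (by omega) (fun w w1 w2 => ?_)
      ⟨h2, fun w w1 w2 => h3 w (by omega) w2, h4 _ le_rfl (by omega), by omega⟩ h4 (by omega))
    by_cases hw : w = p
    · rw [hw, h0]; exact hcx.symm
    · rw [show w = p + 1 by omega, h1]; exact hcx.symm

theorem single' {n : ℕ} {c x y : Fin 3} (hcx : c ≠ x) (hcy : c ≠ y) (hxy : x ≠ y) {p e : ℤ}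
    {s : Seq 3} (hs : Per n s) (h0 : s p ≠ c) (h1 : s (p + 1) ≠ c)
    (ht : Tail s c x y (p + 2) e) (hr : Run s c e (p + n)) (he : e < p + n) : G n s c y x p := by
  have := ht.2.2.2
  refine single hcx hcy hxy (e - p - 4).toNat s e hs (by omega) (fun w w1 w2 => ?_) ht hr he
  by_cases hw : w = p
  · rwa [hw]
  · rwa [show w = p + 1 by omega]

theorem exists_word {n : ℕ} (hn : 0 < n) (p : ℤ) (V : ℤ → Fin 3) :
    ∃ w : Seq 3, (∀ i, w (i + n) = w i) ∧ ∀ i, p ≤ i → i < p + n → w i = V i := by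
  refine ⟨fun i => V (p + (i - p) % n), fun i => ?_, fun i i1 i2 => ?_⟩
  · show V _ = V _
    rw [show i + n - p = i - p + n by ring, Int.add_emod_right]
  · show V _ = V _
    rw [Int.emod_eq_of_lt (by omega) (by omega)]
    congr 1; ring

theorem per_of {n : ℕ} (hn : 0 < n) {c x y : Fin 3} (hcx : c ≠ x) (hcy : c ≠ y) (hxy : x ≠ y)
    {w : Seq 3} (h : ∀ i, w (i + n) = w i) {i j k : ℤ} (h1 : w i = c) (h2 : w j = x)
    (h3 : w k = y) : Per n w := by
  refine ⟨hn, h, fun a => ?_⟩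
  rcases tri hcx hcy hxy a with rfl | rfl | rfl
  · exact ⟨i, h1⟩
  · exact ⟨j, h2⟩
  · exact ⟨k, h3⟩

theorem rel3 {n : ℕ} (hn : 8 ≤ n) {c x y : Fin 3} (hcx : c ≠ x) (hcy : c ≠ y) (hxy : x ≠ y)
    (p : ℤ) : ∃ w, G n w c y x p ∧ G n w x y c (p + 2) := by
  obtain ⟨w, hp, hw⟩ := exists_word (n := n) (by omega) p
    (fun i => if i < p + 2 then x else if i = p + 2 ∨ i = p + 4 then y else c)
  have w0 : w p = x := by rw [hw _ (by omega) (by omega), if_pos (by omega)]
  have w1 : w (p + 1) = x := by rw [hw _ (by omega) (by omega), if_pos (by omega)]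
  have w2 : w (p + 2) = y := by
    rw [hw _ (by omega) (by omega), if_neg (by omega), if_pos (by omega)]
  have w3 : w (p + 3) = c := by
    rw [hw _ (by omega) (by omega), if_neg (by omega), if_neg (by omega)]
  have w4 : w (p + 4) = y := by
    rw [hw _ (by omega) (by omega), if_neg (by omega), if_pos (by omega)]
  have w5 : Run w c (p + 5) (p + n) := fun i i1 i2 => by
    rw [hw _ (by omega) (by omega), if_neg (by omega), if_neg (by omega)]
  have hs : Per n w := per_of (by omega) hcx hcy hxy hp w3 w0 w2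
  refine ⟨w, ?_, ?_⟩
  · have tl : Tail w c y x (p + 1) (p + 3) :=
      ⟨w1, fun i i1 i2 => by rwa [show i = p + 2 by omega], w3, by omega⟩
    obtain ⟨t, r, kp, tl', hv⟩ := norm hs hcy hcx hxy.symm (p := p)
      (fun i i1 i2 => by rw [show i = p by omega, w0]; exact hcx.symm) tl (Or.inl rfl)
    have t0 : t p = y := hv _ le_rfl (by omega)
    have t2 : t (p + 2) = y := tl'.2.1 _ (by omega) (by omega)
    have t4 : t (p + 4) = y := (kp.2 _ (w5 _ (by omega) (by omega))).trans w4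
    obtain ⟨J, hJ⟩ : ∃ J : ℕ, (J : ℤ) = n - 5 := ⟨n - 5, by omega⟩
    have hJ1 : 1 ≤ J := by omega
    have hrun := ext_run (s := t) hcy (J := J) (p := p + n)
      (by rw [show p + n - J = p + 5 by omega]; exact w5.keep kp)
      (by rwa [show p + n - J - 1 = p + 4 by omega]) (by rwa [r.2.1.2.1])
    have r' := r.trans (re_mk r.2.1 hcy hJ1)
    refine ⟨_, r'.1, r'.2.1, ?_, ?_, ?_, fun i i1 i2 => ?_⟩
    · rw [ext_fix hJ1 _ (by rw [tl'.1]; exact hcx.symm), t0]
    · rw [ext_fix hJ1 _ (by rw [show p + 1 + 1 = p + 2 by ring, t2]; exact hcy.symm), tl'.1]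
    · rw [mk_mid (p + 4) (by omega) (by omega) (t4 ▸ hcy.symm), t2]
    · by_cases hi : i = p + 3
      · rw [hi, ext_fix hJ1 _ (by rw [show p + 3 + 1 = p + 4 by ring, t4]; exact hcy.symm)]
        exact tl'.2.2.1
      · exact hrun i (by omega) i2
  · refine single' hcx.symm hxy hcy hs (e := p + n) (w2 ▸ hxy.symm)
      (by rw [show p + 2 + 1 = p + 3 by ring, w3]; exact hcx)
      ⟨by rwa [show p + 2 + 2 = p + 4 by ring], fun i i1 i2 => w5 i (by omega) i2,
        by rwa [hp], by omega⟩ (fun i i1 i2 => ?_) (by omega)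
    rw [show i = i - n + n by ring, hp]
    by_cases hi : i - n = p
    · rwa [hi]
    · rwa [show i - n = p + 1 by omega]

theorem rel4 {n : ℕ} (hn : 8 ≤ n) {c x y : Fin 3} (hcx : c ≠ x) (hcy : c ≠ y) (hxy : x ≠ y)
    (p : ℤ) : ∃ w, G n w c x y p ∧ G n w x y c (p + 3) := by
  obtain ⟨w, hp, hw⟩ := exists_word (n := n) (by omega) p
    (fun i => if i < p + 3 then x else if i = p + 3 ∨ i = p + 5 then y else c)
  have w0 : Run w x p (p + 3) := fun i i1 i2 => by
    rw [hw _ (by omega) (by omega), if_pos (by omega)]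
  have w3 : w (p + 3) = y := by
    rw [hw _ (by omega) (by omega), if_neg (by omega), if_pos (by omega)]
  have w4 : w (p + 4) = c := by
    rw [hw _ (by omega) (by omega), if_neg (by omega), if_neg (by omega)]
  have w5 : w (p + 5) = y := by
    rw [hw _ (by omega) (by omega), if_neg (by omega), if_pos (by omega)]
  have w6 : Run w c (p + 6) (p + n) := fun i i1 i2 => by
    rw [hw _ (by omega) (by omega), if_neg (by omega), if_neg (by omega)]
  have hs : Per n w := per_of (by omega) hcx hcy hxy hp w4 (w0 p le_rfl (by omega)) w3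
  refine ⟨w, ?_, ?_⟩
  · have tl : Tail w c y x (p + 2) (p + 4) :=
      ⟨w0 _ (by omega) (by omega), fun i i1 i2 => by rwa [show i = p + 3 by omega], w4,
        by omega⟩
    obtain ⟨t, r, kp, tl', hv⟩ := norm hs hcy hcx hxy.symm (p := p)
      (fun i i1 i2 => by rw [w0 i i1 (by omega)]; exact hcx.symm) tl (Or.inl rfl)
    have t0 : t p = y := hv _ le_rfl (by omega)
    have t1 : t (p + 1) = y := hv _ (by omega) (by omega)
    have t3 : t (p + 3) = y := tl'.2.1 _ (by omega) (by omega)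
    have t5 : t (p + 5) = y := (kp.2 _ (w6 _ (by omega) (by omega))).trans w5
    obtain ⟨J, hJ⟩ : ∃ J : ℕ, (J : ℤ) = n - 6 := ⟨n - 6, by omega⟩
    have hJ1 : 1 ≤ J := by omega
    have hrun := ext_run (s := t) hcy (J := J) (p := p + n)
      (by rw [show p + n - J = p + 6 by omega]; exact w6.keep kp)
      (by rwa [show p + n - J - 1 = p + 5 by omega]) (by rwa [r.2.1.2.1])
    have r' := r.trans (re_mk r.2.1 hcy hJ1)
    have u4 : mk c y J t (p + 4) = c := by
      rw [ext_fix hJ1 _ (by rw [show p + 4 + 1 = p + 5 by ring, t5]; exact hcy.symm)]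
      exact tl'.2.2.1
    refine G.back r'.1 (single' hcy hcx hxy.symm r'.2.1 (e := p + 4) ?_ ?_
      ⟨?_, fun i i1 i2 => ?_, u4, by omega⟩ (fun i i1 i2 => ?_) (by omega))
    · rw [ext_fix hJ1 _ (by rw [t1]; exact hcy.symm), t0]; exact hcy.symm
    · rw [ext_fix hJ1 _ (by rw [show p + 1 + 1 = p + 2 by ring, tl'.1]; exact hcx.symm), t1]
      exact hcy.symm
    · rw [ext_fix hJ1 _ (by rw [show p + 2 + 1 = p + 3 by ring, t3]; exact hcy.symm), tl'.1]
    · rw [show i = p + 3 by omega, mk_mid (p + 5) (by omega) (by omega) (t5 ▸ hcy.symm), t3]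
    · by_cases hi : i = p + 4
      · rwa [hi]
      · exact hrun i (by omega) i2
  · refine single' hcx.symm hxy hcy hs (e := p + n) (w3 ▸ hxy.symm)
      (by rw [show p + 3 + 1 = p + 4 by ring, w4]; exact hcx)
      ⟨by rwa [show p + 3 + 2 = p + 5 by ring], fun i i1 i2 => w6 i (by omega) i2,
        by rw [hp]; exact w0 p le_rfl (by omega), by omega⟩ (fun i i1 i2 => ?_) (by omega)
    rw [show i = i - n + n by ring, hp]
    exact w0 _ (by omega) (by omega)

section Move

variable {n : ℕ} (hn : 8 ≤ n) {s : Seq 3} {a b c : Fin 3} (hab : a ≠ b) (hac : a ≠ c)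
  (hbc : b ≠ c)

include hn hab hac hbc

theorem mv3 (p : ℤ) : G n s a b c p ↔ G n s c b a (p + 2) :=
  let ⟨_, g1, g2⟩ := rel3 hn hac hab hbc.symm p
  ⟨G.link g1 g2, G.link g2 g1⟩

theorem mv4 (p : ℤ) : G n s a b c p ↔ G n s b c a (p + 3) :=
  let ⟨_, g1, g2⟩ := rel4 hn hab hac hbc p
  ⟨G.link g1 g2, G.link g2 g1⟩

theorem mv_four (p : ℤ) : G n s a b c p ↔ G n s a b c (p + 4) := by
  rw [mv3 hn hab hac hbc, mv3 hn hbc.symm hac.symm hab.symm, show p + 2 + 2 = p + 4 by ring]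

theorem mv_one (p : ℤ) : G n s a b c p ↔ G n s a b c (p + 1) := by
  rw [mv4 hn hab hac hbc, mv4 hn hbc hab.symm hac.symm, mv4 hn hac.symm hbc.symm hab,
    mv_four hn hab hac hbc (p + 1), mv_four hn hab hac hbc (p + 1 + 4),
    show p + 3 + 3 + 3 = p + 1 + 4 + 4 by ring]

theorem mv_all (p q : ℤ) : G n s a b c p ↔ G n s a b c q := by
  have key : ∀ p : ℤ, G n s a b c p ↔ G n s a b c 0 := by
    intro p
    induction p using Int.induction_on with
    | zero => exact Iff.rfl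
    | succ k ih => rw [← mv_one hn hab hac hbc, ih]
    | pred k ih => rw [mv_one hn hab hac hbc, sub_add_cancel, ih]
  rw [key p, key q]

theorem sw3 : G n s a b c 0 ↔ G n s c b a 0 := by
  rw [mv3 hn hab hac hbc, mv_all hn hbc.symm hac.symm hab.symm _ 0]

theorem sw4 : G n s a b c 0 ↔ G n s b c a 0 := by
  rw [mv4 hn hab hac hbc, mv_all hn hbc hab.symm hac.symm _ 0]

theorem to_std {p : ℤ} (g : G n s a b c p) : G n s 0 1 2 0 := by
  rw [mv_all hn hab hac hbc p 0] at g
  have g1 := (sw4 hn hab hac hbc).1 g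
  have g2 := (sw4 hn hbc hab.symm hac.symm).1 g1
  have g3 := (sw3 hn hab hac hbc).1 g
  have g4 := (sw3 hn hbc hab.symm hac.symm).1 g1
  have g5 := (sw3 hn hac.symm hbc.symm hab).1 g2
  have : (a = 0 ∧ b = 1 ∧ c = 2) ∨ (b = 0 ∧ c = 1 ∧ a = 2) ∨ (c = 0 ∧ a = 1 ∧ b = 2) ∨
      (c = 0 ∧ b = 1 ∧ a = 2) ∨ (a = 0 ∧ c = 1 ∧ b = 2) ∨ (b = 0 ∧ a = 1 ∧ c = 2) := by
    clear g g1 g2 g3 g4 g5
    revert a b c; decide
  rcases this with ⟨rfl, rfl, rfl⟩ | ⟨rfl, rfl, rfl⟩ | ⟨rfl, rfl, rfl⟩ | ⟨rfl, rfl, rfl⟩ |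
    ⟨rfl, rfl, rfl⟩ | ⟨rfl, rfl, rfl⟩ <;> assumption

end Move

end YTr

end Pool.Agent.MP_9b2bac_nt.Z

end

section

set_option autoImplicit false

namespace Pool.Agent.MP_9b2bac_nt.Z

open ZSweep

namespace YTr

/-- A run of `J` letters `c` followed by a block with a change of letter after its first place. -/
def Head (s : Seq 3) (c : Fin 3) (p : ℤ) (J : ℕ) : Prop :=
  1 ≤ J ∧ Run s c (p - J) p ∧
    ∃ q, p + 2 ≤ q ∧ (∀ w, p ≤ w → w ≤ q → s w ≠ c) ∧ s (q - 1) ≠ s q

theorem Head.blk {n : ℕ} {s : Seq 3} (hs : Per n s) {c : Fin 3} {p : ℤ} {J : ℕ}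
    (h : Head s c p J) : ∃ x y z e, c ≠ x ∧ c ≠ y ∧ x ≠ y ∧ p < z ∧
      (∀ w, p ≤ w → w < z → s w ≠ c) ∧ Tail s c x y z e := by
  obtain ⟨-, -, q, hq, hc, hd⟩ := h
  obtain ⟨e0, e1, e2⟩ := exists_ge hs c p
  obtain ⟨e, f1, f2, f3⟩ := exists_first (P := fun w => s w = c) e1 e2
  have hqe : q < e := by
    by_contra hh
    exact hc e f1 (by omega) f2
  obtain ⟨z0, z1, z2, z3⟩ : ∃ z0, p < z0 ∧ z0 ≤ e - 1 ∧ s z0 ≠ s (e - 1) := by
    by_cases hh : s q = s (e - 1)
    · exact ⟨q - 1, by omega, by omega, hh ▸ hd⟩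
    · exact ⟨q, by omega, by omega, hh⟩
  obtain ⟨z, g1, g2, g3, g4⟩ := exists_lst (P := fun w => s w ≠ s (e - 1)) z2 z3
  have hz : z ≠ e - 1 := fun hh => g3 (by rw [hh])
  exact ⟨s (e - 1), s z, z, e, Ne.symm (f3 _ (by omega) (by omega)),
    Ne.symm (f3 _ (by omega) (by omega)), Ne.symm g3, by omega,
    fun w w1 w2 => f3 w w1 (by omega), rfl,
    fun w w1 w2 => not_not.1 (g4 w w1 (by omega)), f2, by omega⟩

theorem head_of {n : ℕ} {s : Seq 3} (hs : Per n s) {i : ℤ} {c : Fin 3} (h0 : s i ≠ c)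
    (h1 : s (i + 1) ≠ c) (h2 : s (i + 2) ≠ c) (hd : s (i + 1) ≠ s (i + 2)) :
    ∃ p, Head s c p 1 := by
  obtain ⟨z, z1, z2, z3⟩ := exists_last hs c i
  have hz : z ≠ i := fun hh => h0 (hh ▸ z2)
  refine ⟨z + 1, le_rfl, fun w w1 w2 => by rwa [show w = z by push_cast at w1; omega],
    i + 2, by omega, fun w w1 w2 => ?_, by rwa [show i + 2 - 1 = i + 1 by ring]⟩
  by_cases hw : w ≤ i
  · exact z3 w (by omega) hw
  · by_cases hw1 : w = i + 1
    · rwa [hw1]
    · rwa [show w = i + 2 by omega]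

theorem exists_head {n : ℕ} (hn : 8 ≤ n) {s : Seq 3} (hs : Prim n s) :
    ∃ c p, Head s c p 1 := by
  by_contra hno
  push Not at hno
  have k1 : ∀ i, s (i + 1) ≠ s (i + 2) → s i ≠ s (i + 1) ∧ s i ≠ s (i + 2) := by
    intro i hd
    obtain ⟨c, c1, c2⟩ := third (s (i + 1)) (s (i + 2))
    by_cases h0 : s i = c
    · rw [h0]; exact ⟨c1, c2⟩
    · obtain ⟨p, hp⟩ := head_of hs.1 h0 c1.symm c2.symm hd
      exact absurd hp (hno c p)
  have k2 : ∀ i, s i ≠ s (i + 1) := by
    intro i hi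
    obtain ⟨b, hb, -⟩ := third (s i) (s i)
    obtain ⟨z0, z1, z2⟩ := exists_ge hs.1 b (i + 1)
    obtain ⟨z, y1, y2, y3⟩ := exists_first (P := fun w => s w ≠ s i) z1 (z2 ▸ hb)
    have hz : z ≠ i + 1 := fun hh => y2 (by rw [hh, hi])
    have e1 : s (z - 1) = s i := not_not.1 (y3 _ (by omega) (by omega))
    have e2 : s (z - 2) = s i := by
      by_cases hh : z - 2 = i
      · rw [hh]
      · exact not_not.1 (y3 _ (by omega) (by omega))
    have := k1 (z - 2) (by
      rw [show z - 2 + 1 = z - 1 by ring, show z - 2 + 2 = z by ring, e1]; exact y2.symm)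
    rw [show z - 2 + 1 = z - 1 by ring, e1, e2] at this
    exact this.1 rfl
  have k3 : ∀ i, s i ≠ s (i + 2) := fun i =>
    (k1 i (by have := k2 (i + 1); rwa [show i + 1 + 1 = i + 2 by ring] at this)).2
  refine hs.2 3 (by omega) ⟨by omega, fun i => ?_, hs.1.2.2⟩
  have a1 := k2 i
  have a2 := k3 i
  have a3 := k2 (i + 1)
  have a4 := k3 (i + 1)
  have a5 := k2 (i + 2)
  rw [show i + 1 + 1 = i + 2 by ring] at a3
  rw [show i + 1 + 2 = i + (3 : ℕ) by push_cast; ring] at a4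
  rw [show i + 2 + 1 = i + (3 : ℕ) by push_cast; ring] at a5
  rcases tri a1 a2 a3 (s (i + (3 : ℕ))) with h | h | h
  · exact h
  · exact absurd h.symm a4
  · exact absurd h.symm a5

/-- The configuration `x c ... c x y x c`. -/
def Conf (s : Seq 3) (c x y : Fin 3) (J : ℕ) (p : ℤ) : Prop :=
  s (p - J - 1) = x ∧ Run s c (p - J) p ∧ s p = x ∧ s (p + 1) = y ∧ s (p + 2) = x ∧
    s (p + 3) = c

section Step

variable {n J : ℕ} (hJ : 1 ≤ J)
  (IH : ∀ s c p, Prim n s → Head s c p (J + 1) → G n s 0 1 2 0)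
  {c x y : Fin 3} (hcx : c ≠ x) (hcy : c ≠ y) (hxy : x ≠ y)

include hJ IH hcx hcy hxy

theorem adv {s : Seq 3} (hs : Prim n s) {p z e : ℤ} (hr : Run s c (p - J) p) (hz : p < z)
    (hb : ∀ w, p ≤ w → w < z → s w ≠ c) (ht : Tail s c x y z e)
    (h0 : s (p - J - 1) = y ∨ (s (p - J - 1) = x ∧ ¬ (z = p + 1 ∧ e = p + 3))) :
    G n s 0 1 2 0 := by
  have hze := ht.2.2.2
  have hk : s (p - J - 1 + 1) = c := hr _ (by omega) (by omega)
  rcases h0 with h0 | ⟨h0, h1⟩
  · obtain ⟨t, r, kp, tl, hv⟩ := norm hs.1 hcx hcy hxy hb ht (Or.inr rfl)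
    have hrun := ext_run (s := t) hcy (hr.keep kp) ((kp.2 _ hk).trans h0) (hv p le_rfl hz)
    have r' := r.trans (re_mk r.2.1 hcy hJ)
    have t1 := tl.2.1 (z + 1) (by omega) hze
    have hy : ∀ w, p ≤ w → w ≤ z → t w = y := fun w w1 w2 => by
      rcases w2.lt_or_eq with h | rfl
      · exact hv w w1 h
      · exact tl.1
    have u1 : mk c y J t (z + 1) = x := by
      rw [mk_oth (t1 ▸ hcx.symm) (t1 ▸ hxy), t1]
    have u2 : ∀ w, p ≤ w → w ≤ z → mk c y J t w = y := fun w w1 w2 => by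
      rw [ext_fix hJ, hy w w1 w2]
      rcases w2.lt_or_eq with h | rfl
      · rw [hy _ (by omega) (by omega)]; exact hcy.symm
      · rw [t1]; exact hcx.symm
    refine G.back r'.1 (IH _ c p (r'.2.2 hs) ⟨by omega,
      fun w w1 w2 => hrun w (by push_cast at w1; omega) w2, z + 1, by omega,
      fun w w1 w2 => ?_, ?_⟩)
    · by_cases hw : w ≤ z
      · rw [u2 w w1 hw]; exact hcy.symm
      · rw [show w = z + 1 by omega, u1]; exact hcx.symm
    · rw [show z + 1 - 1 = z by ring, u1, u2 z hz.le le_rfl]; exact hxy.symm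
  · obtain ⟨t, r, kp, tl, hv⟩ := norm hs.1 hcx hcy hxy hb ht (Or.inl rfl)
    have hrun := ext_run (s := t) hcx (hr.keep kp) ((kp.2 _ hk).trans h0) (hv p le_rfl hz)
    have r' := r.trans (re_mk r.2.1 hcx hJ)
    have hne : ∀ w, p ≤ w → w < e → t w ≠ c := by
      intro w w1 w2
      rcases lt_trichotomy w z with h | rfl | h
      · rw [hv w w1 h]; exact hcx.symm
      · rw [tl.1]; exact hcy.symm
      · rw [tl.2.1 w h w2]; exact hcx.symm
    have hf : ∀ w, p ≤ w → w < e - 1 → mk c x J t w = t w := fun w w1 w2 =>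
      ext_fix hJ w (hne _ (by omega) (by omega))
    have fin : ∀ q, p + 2 ≤ q → q < e - 1 → t (q - 1) ≠ t q → G n s 0 1 2 0 := by
      intro q q1 q2 q3
      refine G.back r'.1 (IH _ c p (r'.2.2 hs) ⟨by omega,
        fun w w1 w2 => hrun w (by push_cast at w1; omega) w2, q, q1,
        fun w w1 w2 => ?_, ?_⟩)
      · rw [hf w w1 (by omega)]; exact hne w w1 (by omega)
      · rwa [hf _ (by omega) (by omega), hf _ (by omega) q2]
    by_cases hm : z = p + 1
    · refine fin (z + 1) (by omega) (by omega) ?_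
      rw [show z + 1 - 1 = z by ring, tl.1, tl.2.1 _ (by omega) hze]; exact hxy.symm
    · refine fin z (by omega) (by omega) ?_
      rw [tl.1, hv _ (by omega) (by omega)]; exact hxy

theorem conf_step {s : Seq 3} (hs : Prim n s) {p : ℤ} (h : Conf s c x y J p) :
    G n s 0 1 2 0 ∨ Conf s c x y J (p + J + 3) := by
  obtain ⟨h0, hr, a0, a1, a2, a3⟩ := h
  by_cases hh : Hit c x J s (p + 2)
  swap
  · left
    have hrun := ext_run hcx hr h0 a0
    have r' := re_mk hs.1 hcx hJ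
    have u0 : mk c x J s p = x := by rw [ext_fix hJ _ (a1 ▸ hcy.symm), a0]
    have u1 : mk c x J s (p + 1) = y := by
      rw [ext_fix hJ _ (by rw [show p + 1 + 1 = p + 2 by ring, a2]; exact hcx.symm), a1]
    have u2 : mk c x J s (p + 2) = x := by rw [mk_not hh, a2]
    refine G.back r'.1 (IH _ c p (r'.2.2 hs) ⟨by omega,
      fun w w1 w2 => hrun w (by push_cast at w1; omega) w2, p + 2, le_rfl,
      fun w w1 w2 => ?_, ?_⟩)
    · by_cases hw : w = p
      · rw [hw, u0]; exact hcx.symm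
      · by_cases hw1 : w = p + 1
        · rw [hw1, u1]; exact hcy.symm
        · rw [show w = p + 2 by omega, u2]; exact hcx.symm
    · rw [show p + 2 - 1 = p + 1 by ring, u1, u2]; exact hxy.symm
  have b1 : Run s c (p + 3) (p + J + 3) := fun w w1 w2 => hit_at hh w (by omega) (by omega)
  have b2 : s (p + J + 3) = x := by rw [← hh.2]; congr 1; ring
  by_cases h2 : Hit y x 1 s (p + J + 3)
  · have c1 : s (p + J + 3 + 1) = y := hit_at h2 _ (by omega) (by push_cast; omega)
    have c2 : s (p + J + 3 + 2) = x := by rw [← h2.2]; congr 1; push_cast; ring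
    have b1' : Run s c (p + J + 3 - J) (p + J + 3) := fun w w1 w2 => b1 w (by omega) w2
    have b0 : s (p + J + 3 - J - 1) = x := by rwa [show p + J + 3 - J - 1 = p + 2 by ring]
    by_cases c3 : s (p + J + 3 + 3) = c
    · exact Or.inr ⟨b0, b1', b2, c1, c2, c3⟩
    left
    have hd : Head s c (p + J + 3) J := by
      refine ⟨hJ, b1', p + J + 3 + 2, le_rfl, fun w w1 w2 => ?_, ?_⟩
      · by_cases hw : w = p + J + 3
        · rw [hw, b2]; exact hcx.symm
        · by_cases hw1 : w = p + J + 3 + 1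
          · rw [hw1, c1]; exact hcy.symm
          · rw [show w = p + J + 3 + 2 by omega, c2]; exact hcx.symm
      · rw [show p + J + 3 + 2 - 1 = p + J + 3 + 1 by ring, c1, c2]; exact hxy.symm
    obtain ⟨x', y', z, e, d1, d2, d3, d4, d5, d6⟩ := hd.blk hs.1
    refine adv hJ IH d1 d2 d3 hs b1' d4 d5 d6 ?_
    rcases tri d1 d2 d3 (s (p + J + 3 - J - 1)) with h | h | h
    · exact absurd (h.symm.trans b0) hcx
    · exact Or.inr ⟨h, fun he => c3 (he.2 ▸ d6.2.2.1)⟩
    · exact Or.inl h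
  left
  have r := re_mk hs.1 hxy.symm (j := 1) le_rfl
  have kp := keep_mk hcy hcx (j := 1) le_rfl s
  have u0 : mk y x 1 s p = y := by
    rw [mk_hit (hit_one _ _ rfl rfl a1 a2), a0, Equiv.swap_apply_right]
  have u1 : mk y x 1 s (p + 1) = y := by
    rw [mk_mid (p + 2) (by omega) (by push_cast; omega) (a2 ▸ hxy), a1]
  have u2 : mk y x 1 s (p + 2) = x :=
    (kp.2 _ (by rwa [show p + 2 + 1 = p + 3 by ring])).trans a2
  have u3 : mk y x 1 s (p + J + 3) = x := by rw [mk_not h2, b2]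
  have u4 : mk y x 1 s (p - J - 1) = x :=
    (kp.2 _ (hr _ (by omega) (by omega))).trans h0
  have u5 := hr.keep kp
  have u6 := b1.keep kp
  have pr := r.2.2 hs
  refine G.back r.1 ?_
  generalize mk y x 1 s = t at u0 u1 u2 u3 u4 u5 u6 pr
  by_cases hJ1 : J = 1
  · subst hJ1
    have v3 : t (p + 3) = c := u6 _ le_rfl (by push_cast; omega)
    have v4 : t (p + 4) = x := by rw [← u3]; congr 1; push_cast; ring
    refine IH _ y (p + 2) pr ⟨by omega, fun w w1 w2 => ?_, p + 4, by omega,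
      fun w w1 w2 => ?_, ?_⟩
    · by_cases hw : w = p
      · rwa [hw]
      · rwa [show w = p + 1 by push_cast at w1; omega]
    · by_cases hw : w = p + 2
      · rw [hw, u2]; exact hxy
      · by_cases hw1 : w = p + 3
        · rw [hw1, v3]; exact hcy
        · rw [show w = p + 4 by omega, v4]; exact hxy
    · rw [show p + 4 - 1 = p + 3 by ring, v3, v4]; exact hcx
  obtain ⟨K, hK⟩ : ∃ K : ℕ, (K : ℤ) = J - 1 := ⟨J - 1, by omega⟩
  have hK1 : 1 ≤ K := by omega
  have r' := re_mk pr.1 hcx hK1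
  have v0 : mk c x K t p = y := by rw [mk_oth (u0 ▸ hcy.symm) (u0 ▸ hxy.symm), u0]
  have v1 : mk c x K t (p + 1) = y := by rw [mk_oth (u1 ▸ hcy.symm) (u1 ▸ hxy.symm), u1]
  have v2 : mk c x K t (p + 2) = x := by
    rw [mk_last _ rfl (by rw [u6 _ (by omega) (by omega)]; exact hcx), u2]
  have v3 : mk c x K t (p + 3) = x := by
    rw [mk_hit (hit_of (fun w w1 w2 => u6 w (by omega) (by omega)) (p + J + 3) (by omega) u3),
      u6 _ le_rfl (by omega), Equiv.swap_apply_left]
  have v4 : mk c x K t (p + 4) = c := by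
    rw [mk_mid (p + J + 3) (by omega) (by omega) (u3 ▸ hcx.symm)]
    exact u6 _ (by omega) (by omega)
  have v5 : mk c x K t (p - J - 1) = x := by
    rw [mk_last _ rfl (by rw [u5 _ (by omega) (by omega)]; exact hcx), u4]
  have v6 : Run (mk c x K t) c (p - J) p := fun w w1 w2 => by
    by_cases hw : w = p - J
    · rw [mk_last p (by omega) (u0 ▸ hxy.symm)]; exact u5 w w1 w2
    · rw [mk_mid p w2 (by omega) (u0 ▸ hcy.symm)]; exact u5 w w1 w2
  refine G.back r'.1 (adv hJ IH hcx hcy hxy (r'.2.2 pr) (z := p + 1) (e := p + 4) v6 (by omega)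
    (fun w w1 w2 => by rw [show w = p by omega, v0]; exact hcy.symm)
    ⟨v1, fun w w1 w2 => ?_, v4, by omega⟩ (Or.inr ⟨v5, by omega⟩))
  by_cases hw : w = p + 2
  · rwa [hw]
  · rwa [show w = p + 3 by omega]

theorem conf_good (hn : 8 ≤ n) {s : Seq 3} (hs : Prim n s) {p : ℤ} (h : Conf s c x y J p) :
    G n s 0 1 2 0 := by
  by_contra hg
  have all : ∀ k : ℕ, Conf s c x y J (p + k * (J + 3)) := by
    intro k
    induction k with
    | zero => simpa using h
    | succ k ih =>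
      have := (conf_step hJ IH hcx hcy hxy hs ih).resolve_left hg
      rwa [show p + k * (J + 3) + J + 3 = p + ((k + 1 : ℕ) : ℤ) * (J + 3) by push_cast; ring]
        at this
  have loc : ∀ q, Conf s c x y J q → Conf s c x y J (q + (J + 3)) →
      Conf s c x y J (q + (J + 3) + (J + 3)) → ∀ r : ℤ, 0 ≤ r → r < J + 3 →
      s (q + r + (J + 3)) = s (q + r) := by
    intro q k0 k1 k2 r r0 r1
    rw [add_right_comm]
    by_cases e0 : r = 0
    · subst e0; rw [add_zero, add_zero, k0.2.2.1, k1.2.2.1]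
    by_cases e1 : r = 1
    · subst e1; rw [k0.2.2.2.1, k1.2.2.2.1]
    by_cases e2 : r = 2
    · subst e2; rw [k0.2.2.2.2.1, k1.2.2.2.2.1]
    rw [k2.2.1 _ (by omega) (by omega), k1.2.1 _ (by omega) (by omega)]
  have half : ∀ w, p ≤ w → s (w + (J + 3)) = s w := by
    intro w hw
    have hL : (0 : ℤ) < J + 3 := by omega
    have h0 := Int.emod_nonneg (w - p) hL.ne'
    have h1 := Int.emod_lt_of_pos (w - p) hL
    have h2 := Int.emod_add_ediv_mul (w - p) (J + 3)
    obtain ⟨k, hk⟩ := Int.eq_ofNat_of_zero_le (Int.ediv_nonneg (a := w - p) (by omega) hL.le)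
    rw [hk] at h2
    have k1 := all (k + 1)
    have k2 := all (k + 2)
    rw [show p + ((k + 1 : ℕ) : ℤ) * (J + 3) = p + k * (J + 3) + (J + 3) by push_cast; ring]
      at k1
    rw [show p + ((k + 2 : ℕ) : ℤ) * (J + 3) = p + k * (J + 3) + (J + 3) + (J + 3) by
      push_cast; ring] at k2
    have := loc _ (all k) k1 k2 _ h0 h1
    rwa [show p + k * (J + 3) + (w - p) % (J + 3) = w by omega] at this
  have hper : Per (J + 3) s := by
    refine ⟨by omega, fun i => ?_, hs.1.2.2⟩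
    have hn1 : (1 : ℤ) ≤ n := by omega
    have := half (i + |p - i| * n) (by nlinarith [le_abs_self (p - i), abs_nonneg (p - i)])
    rw [add_right_comm, hs.1.zper, hs.1.zper] at this
    rw [← this]; congr 1
  have hle : n ≤ J + 3 := by
    by_contra hlt
    exact hs.2 (J + 3) (by omega) hper
  have k1 := all 1
  have hrun : Run s c (p + 3) (p + J + 3) := fun w w1 w2 =>
    k1.2.1 w (by push_cast; omega) (by push_cast; omega)
  have hnJ : n = J + 3 := by
    by_contra hne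
    have e1 := hs.1.2.1 p
    rw [hrun _ (by omega) (by omega), h.2.2.1] at e1
    exact hcx e1
  exact hg (to_std hn hcx hcy hxy (p := p) ⟨s, Relation.EqvGen.refl _, hs.1, h.2.2.1,
    h.2.2.2.1, h.2.2.2.2.1, fun w w1 w2 => hrun w w1 (by omega)⟩)

end Step

theorem head_good {n : ℕ} (hn : 8 ≤ n) (D : ℕ) : ∀ J : ℕ, n ≤ J + D →
    ∀ s c p, Prim n s → Head s c p J → G n s 0 1 2 0 := by
  induction D with
  | zero =>
    intro J hJ s c p hs ⟨_, hr, q, q1, q2, _⟩
    have := hr (p - n) (by omega) (by omega)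
    rw [← hs.1.2.1, sub_add_cancel] at this
    exact absurd this (q2 p le_rfl (by omega))
  | succ D ih =>
    intro J hJ s c p hs h
    have IH := ih (J + 1) (by omega)
    have hJ1 := h.1
    by_cases h0 : s (p - J - 1) = c
    · refine IH s c p hs ⟨by omega, fun w w1 w2 => ?_, h.2.2⟩
      by_cases hw : p - J ≤ w
      · exact h.2.1 w hw w2
      · rwa [show w = p - J - 1 by push_cast at w1; omega]
    obtain ⟨x, y, z, e, hcx, hcy, hxy, hz, hb, ht⟩ := h.blk hs.1
    by_cases hd : s (p - J - 1) = x ∧ z = p + 1 ∧ e = p + 3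
    · obtain ⟨hx, rfl, rfl⟩ := hd
      obtain ⟨t, r, kp, tl, hv⟩ := norm hs.1 hcx hcy hxy hb ht (Or.inl rfl)
      exact G.back r.1 (conf_good hJ1 IH hcx hcy hxy hn (r.2.2 hs) (p := p)
        ⟨(kp.2 _ (h.2.1 _ (by omega) (by omega))).trans hx, h.2.1.keep kp, hv p le_rfl hz, tl.1,
          tl.2.1 _ (by omega) (by omega), tl.2.2.1⟩)
    · refine adv hJ1 IH hcx hcy hxy hs h.2.1 hz hb ht ?_
      rcases tri hcx hcy hxy (s (p - J - 1)) with k | k | k
      · exact absurd k h0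
      · exact Or.inr ⟨k, fun he => hd ⟨k, he⟩⟩
      · exact Or.inl k

theorem good {n : ℕ} (hn : 8 ≤ n) {s : Seq 3} (hs : Prim n s) : G n s 0 1 2 0 :=
  let ⟨c, p, h⟩ := exists_head hn hs
  head_good hn n 1 (by omega) s c p hs h

end YTr

theorem trans3 {n : ℕ} (hn : 8 ≤ n) {s t : Seq 3} (hs : Prim n s) (ht : Prim n t) :
    RelA n s t := by
  obtain ⟨a, r1, k1⟩ := YTr.good hn hs
  obtain ⟨b, r2, k2⟩ := YTr.good hn ht
  obtain rfl := k1.uniq k2
  exact Relation.EqvGen.trans _ _ _ r1 (Relation.EqvGen.symm _ _ r2)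

end Pool.Agent.MP_9b2bac_nt.Z

end

section

set_option autoImplicit false

namespace Pool.Agent.MP_9b2bac_nt.Z

open Classical

namespace YGrpX

open ZSweep

theorem sc_smul {G X : Type} [Group G] [MulAction G X] {σ : Equiv.Perm X}
    (hc : ∀ (g : G) (x : X), g • σ x = σ (g • x)) (g : G) {x y : X} (h : σ.SameCycle x y) :
    σ.SameCycle (g • x) (g • y) := by
  obtain ⟨k, rfl⟩ := h
  have h1 : Commute (MulAction.toPerm g : Equiv.Perm X) σ := Equiv.ext fun x => hc g x
  exact ⟨k, (DFunLike.congr_fun (h1.zpow_right k).eq x).symm⟩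

theorem abs_step (n : ℕ) (hn : 0 < n) {G X : Type} [Group G] [Finite G] [Finite X] [MulAction G X]
    (σ : Equiv.Perm X) (hσ : ∀ (x : X) (k : ℤ), (σ ^ k) x = x ↔ (n : ℤ) ∣ k)
    (hc : ∀ (g : G) (x : X), g • σ x = σ (g • x)) (K : Subgroup G) (hK : K.Normal) (t : G)
    (ht : t ∈ K) (htr : ∀ x y : X, ∃ k ∈ Subgroup.normalClosure ({t} : Set G), k • x = y)
    (hsw : ∃ x y : X, ¬ σ.SameCycle x y ∧ t • x = y ∧ t • y = x ∧
      ∀ w, ¬ σ.SameCycle x w → ¬ σ.SameCycle y w → t • w = w)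
    (h3 : ∃ x y z : X, ¬ σ.SameCycle x y ∧ ¬ σ.SameCycle x z ∧ ¬ σ.SameCycle y z)
    (F : Equiv.Perm X) (hF : ∀ x, F (σ x) = σ (F x)) :
    (1 - 1 / (n : ℝ)) * Nat.card K ≤ {k : K | ∀ x, k • F x ≠ σ x}.ncard ∧
      ({k : K | ∀ x, k • F x ≠ σ x}.ncard : ℝ) ≤ (1 - 1 / (n + 1 : ℝ)) * Nat.card K := by
  let T : Set K := {k | ∃ g : G, (k : G) = g * t * g⁻¹}
  have hNT : Subgroup.normalClosure ({t} : Set G) ≤ (Subgroup.closure T).map K.subtype := by
    refine (Subgroup.closure_le _).2 fun a ha => ?_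
    obtain ⟨b, hb, hab⟩ := Group.mem_conjugatesOfSet_iff.1 ha
    obtain rfl : b = t := hb
    obtain ⟨g, rfl⟩ := isConj_iff.1 hab
    exact ⟨⟨_, hK.conj_mem _ ht g⟩, Subgroup.subset_closure ⟨g, rfl⟩, rfl⟩
  refine pairs n hn X K σ T hσ (fun k x => hc k x) ?_ ?_ ?_ h3 F hF
  · rintro s ⟨g, hg⟩ k
    refine ⟨k * g, ?_⟩
    push_cast
    rw [hg]
    group
  · intro x y
    obtain ⟨k, hk, rfl⟩ := htr x y
    obtain ⟨k', hk', rfl⟩ := hNT hk
    exact ⟨k', hk', rfl⟩
  · rintro s ⟨g, hg⟩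
    obtain ⟨x, y, h1, h2, h3, h4⟩ := hsw
    have e : ∀ w : X, s • w = g • t • g⁻¹ • w := fun w => by
      rw [Subgroup.smul_def, hg, mul_smul, mul_smul]
    refine ⟨g • x, g • y, fun h => h1 ?_, ?_, ?_, fun w a b => ?_⟩
    · simpa using sc_smul hc g⁻¹ h
    · rw [e, inv_smul_smul, h2]
    · rw [e, inv_smul_smul, h3]
    · rw [e, h4 (g⁻¹ • w) (fun h => a (by simpa using sc_smul hc g h))
        (fun h => b (by simpa using sc_smul hc g h)), smul_inv_smul]

theorem count2 {G : Type} [Group G] [Finite G] (K : Subgroup G) (A Good : Set G) (c1 c2 : ℝ)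
    (hA : ∀ g ∈ A, ∀ k ∈ K, k * g ∈ A)
    (hG : ∀ h : G, c1 * Nat.card K ≤ {k : K | k * h ∈ Good}.ncard ∧
      ({k : K | k * h ∈ Good}.ncard : ℝ) ≤ c2 * Nat.card K) :
    c1 * A.ncard ≤ (A ∩ Good).ncard ∧ ((A ∩ Good).ncard : ℝ) ≤ c2 * A.ncard := by
  have := Fintype.ofFinite G
  have hK : (0 : ℝ) < Nat.card K := by exact_mod_cast (Nat.card_pos : 0 < Nat.card K)
  have e1 : A.ncard = (Finset.univ.filter fun g => g ∈ A).card := by
    rw [← Set.ncard_coe_finset]; congr 1; ext; simp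
  have e2 : (A ∩ Good).ncard = (Finset.univ.filter fun g => g ∈ A ∩ Good).card := by
    rw [← Set.ncard_coe_finset]; congr 1; ext; simp
  have e3 : ∀ h : G, {k : K | k * h ∈ Good}.ncard =
      ∑ k : K, if k * h ∈ Good then 1 else 0 := fun h => by
    rw [← Finset.card_filter, ← Set.ncard_coe_finset]; congr 1; ext; simp
  have e4 : ∀ k : K, ∑ h ∈ Finset.univ.filter (fun g => g ∈ A),
      (if k * h ∈ Good then 1 else 0) = (A ∩ Good).ncard := fun k => by
    rw [← Finset.card_filter, e2]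
    refine Finset.card_nbij' (fun h => k * h) (fun g => (k : G)⁻¹ * g) ?_ ?_ ?_ ?_
    · intro h hh
      simp only [Finset.coe_filter, Finset.mem_filter, Finset.mem_univ, true_and,
        Set.mem_ofPred_eq] at hh ⊢
      exact ⟨hA h hh.1 k k.2, hh.2⟩
    · intro h hh
      simp only [Finset.coe_filter, Finset.mem_filter, Finset.mem_univ, true_and,
        Set.mem_ofPred_eq] at hh ⊢
      exact ⟨hA h hh.1 _ (K.inv_mem k.2), by rw [mul_inv_cancel_left]; exact hh.2⟩
    · intro h _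
      exact inv_mul_cancel_left _ _
    · intro h _
      exact mul_inv_cancel_left _ _
  have e5 : ∑ h ∈ Finset.univ.filter (fun g => g ∈ A), {k : K | k * h ∈ Good}.ncard =
      (A ∩ Good).ncard * Nat.card K := by
    rw [Finset.sum_congr rfl fun h _ => e3 h, Finset.sum_comm, Finset.sum_congr rfl fun k _ => e4 k,
      Finset.sum_const, smul_eq_mul, Finset.card_univ, Nat.card_eq_fintype_card, mul_comm]
  have e6 : ∑ h ∈ Finset.univ.filter (fun g => g ∈ A), ({k : K | k * h ∈ Good}.ncard : ℝ) =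
      (A ∩ Good).ncard * Nat.card K := by exact_mod_cast e5
  have b1 := Finset.sum_le_sum (s := Finset.univ.filter fun g => g ∈ A) fun h _ => (hG h).1
  have b2 := Finset.sum_le_sum (s := Finset.univ.filter fun g => g ∈ A) fun h _ => (hG h).2
  rw [e6, Finset.sum_const, ← e1, nsmul_eq_mul] at b1 b2
  constructor
  · refine le_of_mul_le_mul_right ?_ hK
    linarith
  · refine le_of_mul_le_mul_right ?_ hK
    linarith

theorem zpow_val {X : Type} {d : ℕ} (val : X → Seq d) (σ : Equiv.Perm X)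
    (h : ∀ x i, val (σ x) i = val x (i + 1)) (k : ℤ) (x : X) (i : ℤ) :
    val ((σ ^ k) x) i = val x (i + k) := by
  induction k using Int.induction_on generalizing x i with
  | zero => simp
  | succ k ih => rw [zpow_add_one, Equiv.Perm.mul_apply, ih, h, add_assoc]
  | pred k ih =>
    have e := h (σ⁻¹ x) (i + (-(k : ℤ) - 1))
    have e2 : σ (σ⁻¹ x) = x := σ.apply_symm_apply x
    rw [e2] at e
    rw [zpow_sub_one, Equiv.Perm.mul_apply, ih, e]
    congr 1
    ring

theorem addmod {n : ℕ} (hn : 0 < n) (i k : ℤ) (h0 : 0 ≤ k) (h1 : k ≤ n) :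
    0 ≤ (i + k) % n ∧ (i + k) % n < n ∧ 0 ≤ i % n ∧ i % n < n ∧
      ((i + k) % n = i % n + k ∨ (i + k) % n = i % n + k - n) := by
  have hn' : (0 : ℤ) < n := by exact_mod_cast hn
  have a := Int.emod_nonneg i hn'.ne'
  have b := Int.emod_lt_of_pos i hn'
  refine ⟨Int.emod_nonneg _ hn'.ne', Int.emod_lt_of_pos _ hn', a, b, ?_⟩
  rw [← Int.emod_add_emod]
  by_cases h : i % n + k < n
  · exact Or.inl (Int.emod_eq_of_lt (by omega) h)
  · right
    rw [← Int.sub_emod_right]
    exact Int.emod_eq_of_lt (by omega) (by omega)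

/-- The word `a 0 ... 0 b 2`. -/
def zz (n : ℕ) (a b : Fin 3) : Seq 3 := fun i =>
  if i % n = n - 1 then 2 else if i % n = n - 2 then b else if i % n = 0 then a else 0

theorem zz_spec {n : ℕ} (hn : 8 ≤ n) (a b : Fin 3) (i : ℤ) :
    (i % n = n - 1 ∧ (zz n a b i).val = 2) ∨ (i % n = n - 2 ∧ (zz n a b i).val = b.val) ∨
      (i % n = 0 ∧ (zz n a b i).val = a.val) ∨
      (0 < i % n ∧ i % n < n - 2 ∧ (zz n a b i).val = 0) := by
  have := addmod (n := n) (by omega) i 0 le_rfl (by omega)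
  unfold zz
  split_ifs with h1 h2 h3
  · exact Or.inl ⟨h1, rfl⟩
  · exact Or.inr (Or.inl ⟨h2, rfl⟩)
  · exact Or.inr (Or.inr (Or.inl ⟨h3, rfl⟩))
  · exact Or.inr (Or.inr (Or.inr ⟨by omega, by omega, rfl⟩))

theorem small {n : ℕ} (k : ℤ) (h0 : 0 ≤ k) (h1 : k < n) : k % n = k := Int.emod_eq_of_lt h0 h1

theorem zz_per {n : ℕ} (hn : 8 ≤ n) (a b : Fin 3) (h : a = 1 ∨ b = 1) : Per n (zz n a b) := by
  refine ⟨by omega, fun i => by simp [zz], fun c => ?_⟩
  have s0 := zz_spec hn a b 0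
  have s1 := zz_spec hn a b 1
  have s2 := zz_spec hn a b (n - 2)
  have s3 := zz_spec hn a b (n - 1)
  rw [small _ (by omega) (by omega)] at s0 s1 s2 s3
  have hc := c.2
  by_cases c0 : c.val = 0
  · exact ⟨1, Fin.ext (by omega)⟩
  by_cases c2 : c.val = 2
  · exact ⟨n - 1, Fin.ext (by omega)⟩
  rcases h with h | h
  · have : a.val = 1 := congrArg Fin.val h
    exact ⟨0, Fin.ext (by omega)⟩
  · have : b.val = 1 := congrArg Fin.val h
    exact ⟨n - 2, Fin.ext (by omega)⟩

theorem zz_prim {n : ℕ} (hn : 8 ≤ n) : Prim n (zz n 0 1) := by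
  refine ⟨zz_per hn 0 1 (Or.inr rfl), fun m hm h => ?_⟩
  have h0 := h.1
  have e := congrArg Fin.val (h.2.1 (n - 1 - m))
  rw [sub_add_cancel] at e
  have s1 := zz_spec hn 0 1 (n - 1 - m)
  have s2 := zz_spec hn 0 1 (n - 1)
  rw [small _ (by omega) (by omega)] at s1 s2
  simp only [Fin.val_zero, Fin.val_one] at s1 s2
  omega

theorem mk_fix {d : ℕ} {u v : Fin d} {j : ℕ} {s : Seq d} (hj : 1 ≤ j)
    (h : ∀ y, s (y + 1) = u → s (y + 2) = v → s y ≠ u ∧ s y ≠ v) : mk u v j s = s := by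
  funext i
  by_cases hh : Hit u v j s i
  · have a := h (i + j - 1) (by rw [sub_add_cancel]; exact hh.1 j hj le_rfl)
      (by rw [show i + j - 1 + 2 = i + j + 1 by ring]; exact hh.2)
    rcases hj.eq_or_lt with rfl | h2
    · rw [show i + ((1 : ℕ) : ℤ) - 1 = i by push_cast; ring] at a
      exact mk_oth a.1 a.2
    · refine absurd ?_ a.1
      have := hh.1 (j - 1) (by omega) (by omega)
      rwa [show i + ((j - 1 : ℕ) : ℤ) = i + j - 1 by omega] at this
  · exact mk_not hh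

theorem fix_z {n : ℕ} (hn : 8 ≤ n) {u v : Fin 3} (huv : u ≠ v) (h : ¬(u = 0 ∧ v = 1)) {j : ℕ}
    (hj : 1 ≤ j) : mk u v j (zz n 0 1) = zz n 0 1 := by
  refine mk_fix hj fun y h1 h2 => ?_
  have a1 := addmod (n := n) (by omega) y 1 (by omega) (by omega)
  have a2 := addmod (n := n) (by omega) y 2 (by omega) (by omega)
  have s0 := zz_spec hn 0 1 y
  have s1 := zz_spec hn 0 1 (y + 1)
  have s2 := zz_spec hn 0 1 (y + 2)
  rw [h1] at s1
  rw [h2] at s2
  simp only [ne_eq, Fin.ext_iff, Fin.val_zero, Fin.val_one] at huv h s0 s1 s2 ⊢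
  omega

theorem fix_z2 {n : ℕ} (hn : 8 ≤ n) {j : ℕ} (hj : 1 ≤ j) : mk 0 1 j (zz n 1 2) = zz n 1 2 := by
  refine mk_fix hj fun y h1 h2 => ?_
  have a1 := addmod (n := n) (by omega) y 1 (by omega) (by omega)
  have a2 := addmod (n := n) (by omega) y 2 (by omega) (by omega)
  have s1 := zz_spec hn 1 2 (y + 1)
  have s2 := zz_spec hn 1 2 (y + 2)
  rw [h1] at s1
  rw [h2] at s2
  simp only [Fin.val_zero, Fin.val_one, Fin.val_two] at s1 s2
  omega

theorem mk_z1 {n : ℕ} (hn : 8 ≤ n) : mk 2 1 1 (zz n 1 1) = zz n 1 2 := by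
  funext i
  have a1 := addmod (n := n) (by omega) i 1 (by omega) (by omega)
  have a2 := addmod (n := n) (by omega) i 2 (by omega) (by omega)
  have s0 := zz_spec hn 1 1 i
  have s1 := zz_spec hn 1 1 (i + 1)
  have s2 := zz_spec hn 1 1 (i + 2)
  have s3 := zz_spec hn 1 2 i
  simp only [Fin.val_one, Fin.val_two] at s0 s1 s2 s3
  by_cases h : i % n = n - 2
  · have e : zz n 1 1 i = 1 := Fin.ext (by simp only [Fin.val_one]; omega)
    rw [mk_hit (hit_one (i + 1) (i + 2) rfl rfl (Fin.ext (by simp only [Fin.val_two]; omega))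
      (Fin.ext (by simp only [Fin.val_one]; omega))), e, Equiv.swap_apply_right]
    exact Fin.ext (by simp only [Fin.val_two]; omega)
  · rw [mk_mid (i + 1) (by omega) (by omega) fun e => by
      have := congrArg Fin.val e
      simp only [Fin.val_two] at this
      omega]
    exact Fin.ext (by omega)

theorem hit_iff {n : ℕ} (hn : 8 ≤ n) {a : Fin 3} (i : ℤ) :
    Hit 0 1 (n - 3) (zz n a 1) i ↔ i % n = 0 := by
  have a1 := addmod (n := n) (by omega) i (n - 3) (by omega) (by omega)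
  have a2 := addmod (n := n) (by omega) i (n - 2) (by omega) (by omega)
  have s1 := zz_spec hn a 1 (i + (n - 3))
  have s2 := zz_spec hn a 1 (i + (n - 2))
  constructor
  · rintro ⟨h1, h2⟩
    have h3 := h1 (n - 3) (by omega) le_rfl
    rw [show i + ((n - 3 : ℕ) : ℤ) + 1 = i + (n - 2) by omega] at h2
    rw [show i + ((n - 3 : ℕ) : ℤ) = i + (n - 3) by omega] at h3
    rw [h3] at s1
    rw [h2] at s2
    simp only [Fin.val_zero, Fin.val_one] at s1 s2
    omega
  · intro h
    refine hit_of (fun y y1 y2 => ?_) (i + (n - 2)) (by omega)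
      (Fin.ext (by simp only [Fin.val_one] at s2 ⊢; omega))
    have a3 := addmod (n := n) (by omega) i (y - i) (by omega) (by omega)
    rw [add_sub_cancel] at a3
    have s3 := zz_spec hn a 1 y
    exact Fin.ext (by simp only [Fin.val_zero]; omega)

theorem mk_z {n : ℕ} (hn : 8 ≤ n) (a : Fin 3) :
    mk 0 1 (n - 3) (zz n a 1) = zz n (Equiv.swap 0 1 a) 1 := by
  funext i
  have s0 := zz_spec hn a 1 i
  have s1 := zz_spec hn (Equiv.swap 0 1 a) 1 i
  by_cases h : i % n = 0
  · have e : zz n a 1 i = a := Fin.ext (by omega)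
    rw [mk_hit ((hit_iff hn i).2 h), e]
    exact Fin.ext (by omega)
  · rw [mk_not fun hh => h ((hit_iff hn i).1 hh)]
    exact Fin.ext (by omega)

theorem hit_two {n m : ℕ} (hn : 8 ≤ n) (hm : m ≤ n) {s : Seq 3} (h : Per m s)
    (hne : mk 0 1 (n - 3) s ≠ s) : m = n ∧ ∃ i : ℤ, ∃ a : Fin 3, (a = 0 ∨ a = 1) ∧
      ∀ x, s x = zz n a 1 (x + i) := by
  obtain ⟨i, hi⟩ := Function.ne_iff.1 hne
  have hh : Hit 0 1 (n - 3) s i := by
    by_contra hno
    exact hi (mk_not hno)
  have ha : s i = 0 ∨ s i = 1 := by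
    by_contra hno
    push Not at hno
    exact hi (mk_oth hno.1 hno.2)
  have h0 : ∀ k : ℕ, 1 ≤ k → k ≤ n - 3 → (s (i + k)).val = 0 := fun k k1 k2 =>
    congrArg Fin.val (hh.1 k k1 k2)
  have h1 : ∀ k : ℕ, k = n - 2 → (s (i + k)).val = 1 := fun k k1 => by
    rw [show i + k = i + ((n - 3 : ℕ) : ℤ) + 1 by omega, hh.2]
    rfl
  have h3 : ∀ k : ℕ, k = 0 → (s (i + k)).val = (s i).val := fun k k1 => by simp [k1]
  have h4 : (s i).val = 0 ∨ (s i).val = 1 := ha.imp (congrArg Fin.val) (congrArg Fin.val)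
  obtain ⟨x, hx⟩ := h.2.2 2
  obtain ⟨k, k1, k2, -⟩ := ZGiant.per_shift h i x
  have k3 : (s (i + k)).val = 2 := by rw [k2, hx]; rfl
  have k4 : k = n - 1 := by
    have := h0 k
    have := h1 k
    have := h3 k
    omega
  obtain rfl : m = n := by omega
  refine ⟨rfl, -i, s i, ha, ?_⟩
  have p := zz_per hn (s i) 1 (Or.inr rfl)
  have p2 : Per m fun x => zz m (s i) 1 (x + -i) := ⟨h.1, fun x => by
    show zz m (s i) 1 (x + m + -i) = zz m (s i) 1 (x + -i)
    rw [add_right_comm, p.2.1], fun c => by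
    obtain ⟨y, hy⟩ := p.2.2 c
    exact ⟨y + i, by simpa using hy⟩⟩
  refine congrFun (ZGiant.window h p2 i fun l hl => ?_)
  show s (i + l) = zz m (s i) 1 (i + l + -i)
  rw [show i + l + -i = l by ring]
  have s1 := zz_spec hn (s i) 1 l
  rw [small _ (by omega) (by omega)] at s1
  simp only [Fin.val_one] at s1
  have := h0 l
  have := h1 l
  have := h3 l
  have : l = k → (s (i + l)).val = 2 := fun e => e ▸ k3
  exact Fin.ext (by omega)

theorem nc01 {n : ℕ} (hn : 8 ≤ n) (k : ℤ) : ¬∀ i, zz n 0 1 (i + k) = zz n 1 1 i := by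
  intro h
  have e1 := congrArg Fin.val (h 0)
  have e2 := congrArg Fin.val (h (n - 1))
  rw [add_comm] at e1 e2
  have a1 := addmod (n := n) (by omega) k 0 (by omega) (by omega)
  have a2 := addmod (n := n) (by omega) k (n - 1) (by omega) (by omega)
  have s1 := zz_spec hn 0 1 (k + 0)
  have s2 := zz_spec hn 0 1 (k + (n - 1))
  have s3 := zz_spec hn 1 1 0
  have s4 := zz_spec hn 1 1 (n - 1)
  rw [small _ (by omega) (by omega)] at s3 s4
  simp only [Fin.val_zero, Fin.val_one] at s1 s2 s3 s4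
  omega

theorem nc2 {n : ℕ} (hn : 8 ≤ n) {a : Fin 3} (ha : a.val ≠ 2) (k : ℤ) :
    ¬∀ i, zz n a 1 (i + k) = zz n 1 2 i := by
  intro h
  have e1 := congrArg Fin.val (h (n - 2))
  have e2 := congrArg Fin.val (h (n - 1))
  rw [add_comm] at e1 e2
  have a1 := addmod (n := n) (by omega) k (n - 2) (by omega) (by omega)
  have a2 := addmod (n := n) (by omega) k (n - 1) (by omega) (by omega)
  have s1 := zz_spec hn a 1 (k + (n - 2))
  have s2 := zz_spec hn a 1 (k + (n - 1))
  have s3 := zz_spec hn 1 2 (n - 2)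
  have s4 := zz_spec hn 1 2 (n - 1)
  rw [small _ (by omega) (by omega)] at s3 s4
  simp only [Fin.val_two, Fin.val_one] at s1 s2 s3 s4
  omega

variable {I : Finset ℕ}

theorem prim_map {n : ℕ} (P : Equiv.Perm (W 3 I)) (hP : ∀ w, P (shW 3 I w) = shW 3 I (P w))
    (w : W 3 I) : Prim n (P w).1 ↔ Prim n w.1 := by
  have h : ∀ m, Per m (P w).1 ↔ Per m w.1 := fun m => ⟨fun h => by
    have := ZGrp.per_map P.symm (fun x => by
      rw [Equiv.symm_apply_eq, hP, Equiv.apply_symm_apply]) h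
    rwa [Equiv.symm_apply_apply] at this, ZGrp.per_map P hP⟩
  simp only [Prim, h]

/-- The elements that fix all words having a period below `n`. -/
def low (I : Finset ℕ) (G : Type) [Group G] [MulAction G (W 3 I)] (n : ℕ) : Subgroup G where
  carrier := {g | ∀ m, m < n → ∀ w : W 3 I, Per m w.1 → g • w = w}
  mul_mem' := fun {a b} ha hb m h w hw => by rw [mul_smul, hb m h w hw, ha m h w hw]
  one_mem' := fun _ _ w _ => one_smul G w
  inv_mem' := fun {a} ha m h w hw => by rw [inv_smul_eq_iff, ha m h w hw]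

theorem step {n : ℕ} (hn : 8 ≤ n) (hI : n ∈ I) (G : Type) [Group G] [Finite G]
    [MulAction G (W 3 I)] (hsh : ∀ (g : G) (w : W 3 I), g • shW 3 I w = shW 3 I (g • w))
    (hmk : ∀ (u v : Fin 3) (j : ℕ), u ≠ v → 1 ≤ j → ∃ g : G, ∀ w : W 3 I, (g • w).1 = mk u v j w.1)
    (F : Equiv.Perm (W 3 I)) (hF : ∀ w, F (shW 3 I w) = shW 3 I (F w)) :
    (1 - 1 / (n : ℝ)) * Nat.card (low I G n) ≤
      {k : low I G n | ∀ w : W 3 I, Prim n w.1 → (k : G) • F w ≠ shW 3 I w}.ncard ∧
    ({k : low I G n | ∀ w : W 3 I, Prim n w.1 → (k : G) • F w ≠ shW 3 I w}.ncard : ℝ) ≤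
      (1 - 1 / (n + 1 : ℝ)) * Nat.card (low I G n) := by
  have hper : ∀ {m : ℕ} (g : G) {w : W 3 I}, Per m w.1 → Per m (g • w).1 := fun g w hw =>
    ZGrp.per_map (fun w => g • w) (hsh g) hw
  let X : SubMulAction G (W 3 I) := ⟨{w | Prim n w.1}, fun g w hw =>
    (prim_map (MulAction.toPerm g) (hsh g) w).2 hw⟩
  let σ : Equiv.Perm X := (shW 3 I).subtypePerm fun w => prim_map (shW 3 I) (fun _ => rfl) w
  let F' : Equiv.Perm X := F.subtypePerm fun w => prim_map F hF w
  have hv : ∀ (k : ℤ) (x : X) (i : ℤ), ((σ ^ k) x).1.1 i = x.1.1 (i + k) :=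
    zpow_val (fun x : X => x.1.1) σ fun _ _ => rfl
  have hK : (low I G n).Normal := ⟨fun k hk g m hm w hw => by
    rw [mul_smul, mul_smul, hk m hm _ (hper _ hw), smul_inv_smul]⟩
  obtain ⟨t, ht⟩ := hmk 0 1 (n - 3) (by decide) (by omega)
  obtain ⟨c, hc⟩ := hmk 2 1 1 (by decide) le_rfl
  have htK : t ∈ low I G n := fun m hm w hw => Subtype.ext (by
    rw [ht]
    by_contra hne
    have := (hit_two hn hm.le hw hne).1
    omega)
  let z : X := ⟨⟨zz n 0 1, n, hI, (zz_prim hn).1⟩, zz_prim hn⟩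
  have e1 : (t • z).1.1 = zz n 1 1 := by
    have := mk_z hn 0
    rw [Equiv.swap_apply_left] at this
    exact (ht z.1).trans this
  have e0 : t • t • z = z := Subtype.ext (Subtype.ext (by
    have := mk_z hn 1
    rw [Equiv.swap_apply_right] at this
    refine (ht (t • z).1).trans ?_
    rw [e1]
    exact this))
  have e2 : (c • t • z).1.1 = zz n 1 2 := by
    refine (hc (t • z).1).trans ?_
    rw [e1]
    exact mk_z1 hn
  have n01 : ¬σ.SameCycle z (t • z) := by
    rintro ⟨k, hk⟩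
    exact nc01 hn k fun i => by rw [← e1, ← hk, hv]
  set N := Subgroup.normalClosure ({t} : Set G) with hN
  have hNn : N.Normal := Subgroup.normalClosure_normal
  have hall : ∀ x : X, x.1 ∈ MulAction.orbit N z.1 := by
    let Q : Seq 3 → Prop := fun s => ∃ w ∈ MulAction.orbit N z.1, w.1 = s
    have hQ : ∀ w : W 3 I, Q w.1 ↔ w ∈ MulAction.orbit N z.1 := fun w =>
      ⟨fun ⟨w', h1, h2⟩ => by rwa [← (Subtype.ext h2 : w' = w)], fun h => ⟨w, h, rfl⟩⟩
    have q0 : z.1 ∈ MulAction.orbit N z.1 := MulAction.mem_orbit_self _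
    have q1 : t • z.1 ∈ MulAction.orbit N z.1 := ⟨⟨t, Subgroup.subset_normalClosure rfl⟩, rfl⟩
    have q2 : c • t • z.1 ∈ MulAction.orbit N z.1 :=
      (ZGiant.orbit_iff N hNn z.1 q0 (Subtype.ext ((hc z.1).trans
        (fix_z hn (by decide) (by decide) le_rfl))) _).1 q1
    have hrel : ∀ s r, RelA n s r → (Q s ↔ Q r) := by
      intro s r h
      induction h with
      | rel s r h =>
        obtain ⟨hs, u, v, j, huv, hj, rfl⟩ := h
        obtain ⟨g, hg⟩ := hmk u v j huv hj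
        let w : W 3 I := ⟨s, n, hI, hs⟩
        show Q w.1 ↔ Q (mk u v j w.1)
        rw [← hg, hQ, hQ]
        by_cases h01 : u = 0 ∧ v = 1
        · obtain ⟨rfl, rfl⟩ := h01
          refine ZGiant.orbit_iff N hNn z.1 q2 (Subtype.ext ((hg _).trans ?_)) w
          have e3 : (c • t • z.1).1 = zz n 1 2 := e2
          rw [e3]
          exact fix_z2 hn hj
        · exact ZGiant.orbit_iff N hNn z.1 q0 (Subtype.ext ((hg _).trans (fix_z hn huv h01 hj))) w
      | refl s => rfl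
      | symm s t _ ih => exact ih.symm
      | trans s t r _ _ ih1 ih2 => exact ih1.trans ih2
    exact fun x => (hQ _).1 ((hrel _ _ (trans3 hn z.2 x.2)).1 ((hQ _).2 q0))
  have key := abs_step n (by omega) σ (fun x k => ?_) (fun g x => Subtype.ext (hsh g x.1))
    (low I G n) hK t htK (fun x y => ?_) ⟨z, t • z, n01, rfl, e0, fun w a b => ?_⟩
    ⟨z, t • z, c • t • z, n01, ?_, ?_⟩ F' fun x => Subtype.ext (hF x.1)
  · have e : {k : low I G n | ∀ w : W 3 I, Prim n w.1 → (k : G) • F w ≠ shW 3 I w} =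
        {k : low I G n | ∀ x, k • F' x ≠ σ x} := by
      ext k
      exact ⟨fun h x e => h x.1 x.2 (congrArg Subtype.val e),
        fun h w hw e => h ⟨w, hw⟩ (Subtype.ext e)⟩
    rw [e]
    exact key
  · have hp : Prim n x.1.1 := x.2
    have a := addmod (n := n) (by omega) k 0 le_rfl (by omega)
    constructor
    · intro h
      by_contra hd
      have h0 : k % n ≠ 0 := fun e => hd (Int.dvd_of_emod_eq_zero e)
      refine hp.2 (k % n).toNat (by omega) ⟨by omega, fun i => ?_, hp.1.2.2⟩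
      rw [Int.toNat_of_nonneg a.2.2.1, ← hp.1.zper _ (k / n), add_assoc, Int.emod_add_ediv_mul,
        ← hv, h]
    · rintro ⟨l, rfl⟩
      exact Subtype.ext (Subtype.ext (funext fun i => by rw [hv, mul_comm, hp.1.zper]))
  · obtain ⟨a, ha⟩ := hall x
    obtain ⟨b, hb⟩ := hall y
    refine ⟨b * a⁻¹, N.mul_mem b.2 (N.inv_mem a.2), Subtype.ext ?_⟩
    show ((b : G) * (a : G)⁻¹) • x.1 = y.1
    rw [← ha, ← hb, mul_smul]
    show (b : G) • (a : G)⁻¹ • (a : G) • z.1 = (b : G) • z.1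
    rw [inv_smul_smul]
  · refine Subtype.ext (Subtype.ext ((ht w.1).trans ?_))
    by_contra hne
    have hp : Prim n w.1.1 := w.2
    obtain ⟨-, i, l, rfl | rfl, hl⟩ := hit_two hn le_rfl hp.1 hne
    · exact a ⟨i, Subtype.ext (Subtype.ext (funext fun x => by rw [hv, hl]))⟩
    · exact b ⟨i, Subtype.ext (Subtype.ext (funext fun x => by rw [hv, hl, e1]))⟩
  · rintro ⟨k, hk⟩
    exact nc2 hn (a := 0) (by decide) k fun i => by rw [← e2, ← hk, hv]
  · rintro ⟨k, hk⟩
    exact nc2 hn (a := 1) (by decide) k fun i => by rw [← e2, ← hk, hv, e1]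

end YGrpX

open YGrpX in
theorem grp3 {M N : ℕ} (hM : 8 ≤ M) (hMN : M ≤ N) (I : Finset ℕ) (hI : ∀ n, M ≤ n → n ≤ N → n ∈ I)
    (G : Type) [Group G] [Finite G] [MulAction G (W 3 I)]
    (hsh : ∀ (g : G) (w : W 3 I), g • shW 3 I w = shW 3 I (g • w))
    (hmk : ∀ (u v : Fin 3) (j : ℕ), u ≠ v → 1 ≤ j → ∃ g : G, ∀ w : W 3 I, (g • w).1 = mk u v j w.1)
    (F : Equiv.Perm (W 3 I)) (hF : ∀ w, F (shW 3 I w) = shW 3 I (F w)) :
    ((M : ℝ) - 1) / N * Nat.card G ≤
      {g : G | ∀ (w : W 3 I) (n : ℕ), M ≤ n → n ≤ N → Prim n w.1 → g • F w ≠ shW 3 I w}.ncard ∧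
    ({g : G | ∀ (w : W 3 I) (n : ℕ), M ≤ n → n ≤ N → Prim n w.1 → g • F w ≠ shW 3 I w}.ncard : ℝ) ≤
      (M : ℝ) / (N + 1) * Nat.card G := by
  let Bad : ℕ → Set G := fun b =>
    {g | ∀ (w : W 3 I) (n : ℕ), M ≤ n → n < b → Prim n w.1 → g • F w ≠ shW 3 I w}
  have hM' : (8 : ℝ) ≤ M := by exact_mod_cast hM
  have key : ∀ b : ℕ, M ≤ b → b ≤ N + 1 → ((M : ℝ) - 1) / (b - 1) * Nat.card G ≤ (Bad b).ncard ∧
      ((Bad b).ncard : ℝ) ≤ (M : ℝ) / b * Nat.card G := by
    intro b hb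
    induction b, hb using Nat.le_induction with
    | base =>
      intro _
      have e : Bad M = Set.univ := Set.eq_univ_of_forall fun g w n h1 h2 => by omega
      rw [e, Set.ncard_univ, div_self (by linarith), div_self (by linarith), one_mul]
      exact ⟨le_rfl, le_rfl⟩
    | succ b hb ih =>
      intro hb2
      obtain ⟨i1, i2⟩ := ih (by omega)
      have hb' : (M : ℝ) ≤ b := by exact_mod_cast hb
      let Good : Set G := {g | ∀ w : W 3 I, Prim b w.1 → g • F w ≠ shW 3 I w}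
      have e : Bad (b + 1) = Bad b ∩ Good := by
        ext g
        refine ⟨fun h => ⟨fun w n h1 h2 => h w n h1 (by omega), fun w => h w b hb (by omega)⟩,
          fun h w n h1 h2 => ?_⟩
        rcases Nat.lt_succ_iff_lt_or_eq.1 h2 with h3 | rfl
        exacts [h.1 w n h1 h3, h.2 w]
      obtain ⟨c1, c2⟩ := count2 (low I G b) (Bad b) Good (1 - 1 / (b : ℝ)) (1 - 1 / (b + 1 : ℝ))
        (fun g hg k hk w n h1 h2 hw => by
          rw [mul_smul, hk n h2 _ (ZGrp.per_map (fun w => g • w) (hsh g)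
            (ZGrp.per_map F hF hw.1))]
          exact hg w n h1 h2 hw)
        fun h => by
          have := step (hM.trans hb) (hI b hb (by omega)) G hsh hmk (F.trans (MulAction.toPerm h))
            fun w => by
              show h • F (shW 3 I w) = shW 3 I (h • F w)
              rw [hF, hsh]
          have e2 : {k : low I G b | k * h ∈ Good} = {k : low I G b | ∀ w : W 3 I, Prim b w.1 →
              (k : G) • (F.trans (MulAction.toPerm h)) w ≠ shW 3 I w} := by
            ext k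
            show (∀ w : W 3 I, Prim b w.1 → ((k : G) * h) • F w ≠ shW 3 I w) ↔ _
            simp only [mul_smul]
            rfl
          rw [e2]
          exact this
      rw [e]
      push_cast
      have p0 : (0 : ℝ) < b - 1 := by linarith
      have p1 : (0 : ℝ) < b := by linarith
      have f1 : (0 : ℝ) ≤ 1 - 1 / (b : ℝ) := sub_nonneg.2 ((div_le_one p1).2 (by linarith))
      have f2 : (0 : ℝ) ≤ 1 - 1 / (b + 1 : ℝ) :=
        sub_nonneg.2 ((div_le_one (by linarith)).2 (by linarith))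
      constructor
      · refine le_trans (le_of_eq ?_) ((mul_le_mul_of_nonneg_left i1 f1).trans c1)
        rw [add_sub_cancel_right]
        field_simp
      · refine (c2.trans (mul_le_mul_of_nonneg_left i2 f2)).trans (le_of_eq ?_)
        field_simp
        ring
  have h := key (N + 1) (by omega) le_rfl
  have e : Bad (N + 1) = {g : G | ∀ (w : W 3 I) (n : ℕ), M ≤ n → n ≤ N → Prim n w.1 →
      g • F w ≠ shW 3 I w} := by
    ext g
    simp only [Bad, Set.mem_ofPred_eq, Nat.lt_succ_iff]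
  rw [e] at h
  push_cast at h
  rwa [add_sub_cancel_right] at h

end Pool.Agent.MP_9b2bac_nt.Z

end

section

set_option autoImplicit false

namespace Pool.Agent.MP_9b2bac_nt.Z

open Classical

namespace YGrpPX

open ZSweep YGrpX

theorem abs_stepP (n : ℕ) (hn : 0 < n) {G X : Type} [Group G] [Finite G] [Finite X] [MulAction G X]
    (σ : Equiv.Perm X) (hσ : ∀ (x : X) (k : ℤ), (σ ^ k) x = x ↔ (n : ℤ) ∣ k)
    (hc : ∀ (g : G) (x : X), g • σ x = σ (g • x)) (K : Subgroup G) (hK : K.Normal) (t : G)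
    (ht : t ∈ K) (htr : ∀ x y : X, ∃ k ∈ Subgroup.normalClosure ({t} : Set G), k • x = y)
    (hsw : ∃ x y : X, ¬ σ.SameCycle x y ∧ t • x = y ∧ t • y = x ∧
      ∀ w, ¬ σ.SameCycle x w → ¬ σ.SameCycle y w → t • w = w)
    (k J : ℕ) (hJ : 2 ≤ J)
    (hr : ∃ c : Fin (k + J + 1) → X, ∀ i j, σ.SameCycle (c i) (c j) → i = j)
    (F : Equiv.Perm X) (hF : ∀ x, F (σ x) = σ (F x)) :
    |({g : K | {x | g • F x = σ x}.ncard = n * k}.ncard : ℝ) -
        Real.exp (-1 / n) / (n ^ k * k.factorial) * Nat.card K| ≤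
      3 / (n ^ (k + J) * k.factorial * J.factorial) * Nat.card K := by
  let T : Set K := {k | ∃ g : G, (k : G) = g * t * g⁻¹}
  have hNT : Subgroup.normalClosure ({t} : Set G) ≤ (Subgroup.closure T).map K.subtype := by
    refine (Subgroup.closure_le _).2 fun a ha => ?_
    obtain ⟨b, hb, hab⟩ := Group.mem_conjugatesOfSet_iff.1 ha
    obtain rfl : b = t := hb
    obtain ⟨g, rfl⟩ := isConj_iff.1 hab
    exact ⟨⟨_, hK.conj_mem _ ht g⟩, Subgroup.subset_closure ⟨g, rfl⟩, rfl⟩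
  refine pois n hn X K σ T hσ (fun k x => hc k x) ?_ ?_ k J hJ hr F hF
  · intro x y
    obtain ⟨k, hk, rfl⟩ := htr x y
    obtain ⟨k', hk', rfl⟩ := hNT hk
    exact ⟨k', hk', rfl⟩
  · rintro s ⟨g, hg⟩
    obtain ⟨x, y, h1, h2, h3, h4⟩ := hsw
    have e : ∀ w : X, s • w = g • t • g⁻¹ • w := fun w => by
      rw [Subgroup.smul_def, hg, mul_smul, mul_smul]
    refine ⟨g • x, g • y, fun h => h1 ?_, ?_, ?_, fun w a b => ?_⟩
    · simpa using sc_smul hc g⁻¹ h
    · rw [e, inv_smul_smul, h2]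
    · rw [e, inv_smul_smul, h3]
    · rw [e, h4 (g⁻¹ • w) (fun h => a (by simpa using sc_smul hc g h))
        (fun h => b (by simpa using sc_smul hc g h)), smul_inv_smul]

/-- The word with a single `2` whose other letters are the binary digits of `l + 1`. -/
def yy (n l : ℕ) : Seq 3 := fun i =>
  if i % n = n - 1 then 2 else if (l + 1).testBit (i % n).toNat then 1 else 0

theorem lt_pow {n l : ℕ} (hn : 8 ≤ n) (hl : l ≤ 2 * n) : l + 1 < 2 ^ (n - 2) := by
  obtain ⟨m, rfl⟩ : ∃ m, n = m + 8 := ⟨n - 8, by omega⟩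
  have := Nat.lt_two_pow_self (n := m)
  rw [show m + 8 - 2 = m + 6 by omega, pow_add]
  omega

theorem bit_lt {n l p : ℕ} (hn : 8 ≤ n) (hl : l ≤ 2 * n) (hp : n - 2 ≤ p) :
    (l + 1).testBit p = false :=
  Nat.testBit_lt_two_pow ((lt_pow hn hl).trans_le (Nat.pow_le_pow_right (by omega) hp))

theorem yy_two {n l : ℕ} (i : ℤ) : yy n l i = 2 ↔ i % n = n - 1 := by
  unfold yy
  split_ifs with h1 h2
  · exact ⟨fun _ => h1, fun _ => rfl⟩
  · exact ⟨fun h => absurd h (by decide), fun h => absurd h h1⟩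
  · exact ⟨fun h => absurd h (by decide), fun h => absurd h h1⟩

theorem yy_nat {n l p : ℕ} (hp : p + 1 < n) :
    yy n l p = if (l + 1).testBit p then 1 else 0 := by
  unfold yy
  rw [small (p : ℤ) (by omega) (by omega), if_neg (by omega), Int.toNat_natCast]

theorem yy_prim {n l : ℕ} (hn : 8 ≤ n) (hl : l ≤ 2 * n) : Prim n (yy n l) := by
  have h2 : yy n l (n - 1) = 2 := (yy_two _).2 (small _ (by omega) (by omega))
  refine ⟨⟨by omega, fun i => by simp [yy], fun c => ?_⟩, fun m hm h => ?_⟩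
  · fin_cases c
    · refine ⟨((n - 2 : ℕ) : ℤ), ?_⟩
      rw [yy_nat (by omega), bit_lt hn hl le_rfl]
      rfl
    · obtain ⟨p, hp⟩ := Nat.exists_testBit_of_ne_zero (x := l + 1) (by omega)
      have : p < n - 2 := by
        by_contra hc
        rw [bit_lt hn hl (not_lt.1 hc)] at hp
        exact absurd hp (by decide)
      refine ⟨(p : ℤ), ?_⟩
      rw [yy_nat (by omega), hp]
      rfl
    · exact ⟨n - 1, h2⟩
  · have h0 := h.1
    have e := h.2.1 (n - 1 - m)
    rw [sub_add_cancel, h2] at e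
    have := (yy_two _).1 e.symm
    rw [small _ (by omega) (by omega)] at this
    omega

theorem yy_inj {n l l' : ℕ} (hn : 8 ≤ n) (hl : l ≤ 2 * n) (hl' : l' ≤ 2 * n) (k : ℤ)
    (h : ∀ i, yy n l (i + k) = yy n l' i) : l = l' := by
  have e := h (n - 1)
  rw [(yy_two _).2 (small _ (by omega) (by omega)), add_comm] at e
  have e1 := (yy_two _).1 e
  have a := addmod (n := n) (by omega) k (n - 1) (by omega) (by omega)
  have e2 : k % n = 0 := by omega
  have e3 : ∀ i, yy n l i = yy n l' i := fun i => by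
    rw [← h i]
    unfold yy
    rw [Int.add_emod i k, e2, add_zero, Int.emod_emod_of_dvd _ dvd_rfl]
  have e4 : l + 1 = l' + 1 := Nat.eq_of_testBit_eq fun p => by
    by_cases hp : n - 2 ≤ p
    · rw [bit_lt hn hl hp, bit_lt hn hl' hp]
    · have := e3 p
      rw [yy_nat (by omega), yy_nat (by omega)] at this
      revert this
      cases (l + 1).testBit p <;> cases (l' + 1).testBit p <;> simp
  omega

theorem stepP {I : Finset ℕ} {n : ℕ} (hn : 8 ≤ n) (hI : n ∈ I) (q : ℕ) (hq : q ≤ n) (G : Type) [Group G] [Finite G]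
    [MulAction G (W 3 I)] (hsh : ∀ (g : G) (w : W 3 I), g • shW 3 I w = shW 3 I (g • w))
    (hmk : ∀ (u v : Fin 3) (j : ℕ), u ≠ v → 1 ≤ j → ∃ g : G, ∀ w : W 3 I, (g • w).1 = mk u v j w.1)
    (F : Equiv.Perm (W 3 I)) (hF : ∀ w, F (shW 3 I w) = shW 3 I (F w)) :
    |({k : low I G n | {w : W 3 I | Prim n w.1 ∧ (k : G) • F w = shW 3 I w}.ncard = n * q}.ncard
        : ℝ) - Real.exp (-1 / n) / (n ^ q * q.factorial) * Nat.card (low I G n)| ≤
      3 / (n ^ (q + n) * q.factorial * n.factorial) * Nat.card (low I G n) := by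
  have hper : ∀ {m : ℕ} (g : G) {w : W 3 I}, Per m w.1 → Per m (g • w).1 := fun g w hw =>
    ZGrp.per_map (fun w => g • w) (hsh g) hw
  let X : SubMulAction G (W 3 I) := ⟨{w | Prim n w.1}, fun g w hw =>
    (prim_map (MulAction.toPerm g) (hsh g) w).2 hw⟩
  let σ : Equiv.Perm X := (shW 3 I).subtypePerm fun w => prim_map (shW 3 I) (fun _ => rfl) w
  let F' : Equiv.Perm X := F.subtypePerm fun w => prim_map F hF w
  have hv : ∀ (k : ℤ) (x : X) (i : ℤ), ((σ ^ k) x).1.1 i = x.1.1 (i + k) :=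
    zpow_val (fun x : X => x.1.1) σ fun _ _ => rfl
  have hK : (low I G n).Normal := ⟨fun k hk g m hm w hw => by
    rw [mul_smul, mul_smul, hk m hm _ (hper _ hw), smul_inv_smul]⟩
  obtain ⟨t, ht⟩ := hmk 0 1 (n - 3) (by decide) (by omega)
  obtain ⟨c, hc⟩ := hmk 2 1 1 (by decide) le_rfl
  have htK : t ∈ low I G n := fun m hm w hw => Subtype.ext (by
    rw [ht]
    by_contra hne
    have := (hit_two hn hm.le hw hne).1
    omega)
  let z : X := ⟨⟨zz n 0 1, n, hI, (zz_prim hn).1⟩, zz_prim hn⟩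
  have e1 : (t • z).1.1 = zz n 1 1 := by
    have := mk_z hn 0
    rw [Equiv.swap_apply_left] at this
    exact (ht z.1).trans this
  have e0 : t • t • z = z := Subtype.ext (Subtype.ext (by
    have := mk_z hn 1
    rw [Equiv.swap_apply_right] at this
    refine (ht (t • z).1).trans ?_
    rw [e1]
    exact this))
  have e2 : (c • t • z).1.1 = zz n 1 2 := by
    refine (hc (t • z).1).trans ?_
    rw [e1]
    exact mk_z1 hn
  have n01 : ¬σ.SameCycle z (t • z) := by
    rintro ⟨k, hk⟩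
    exact nc01 hn k fun i => by rw [← e1, ← hk, hv]
  set N := Subgroup.normalClosure ({t} : Set G) with hN
  have hNn : N.Normal := Subgroup.normalClosure_normal
  have hall : ∀ x : X, x.1 ∈ MulAction.orbit N z.1 := by
    let Q : Seq 3 → Prop := fun s => ∃ w ∈ MulAction.orbit N z.1, w.1 = s
    have hQ : ∀ w : W 3 I, Q w.1 ↔ w ∈ MulAction.orbit N z.1 := fun w =>
      ⟨fun ⟨w', h1, h2⟩ => by rwa [← (Subtype.ext h2 : w' = w)], fun h => ⟨w, h, rfl⟩⟩
    have q0 : z.1 ∈ MulAction.orbit N z.1 := MulAction.mem_orbit_self _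
    have q1 : t • z.1 ∈ MulAction.orbit N z.1 := ⟨⟨t, Subgroup.subset_normalClosure rfl⟩, rfl⟩
    have q2 : c • t • z.1 ∈ MulAction.orbit N z.1 :=
      (ZGiant.orbit_iff N hNn z.1 q0 (Subtype.ext ((hc z.1).trans
        (fix_z hn (by decide) (by decide) le_rfl))) _).1 q1
    have hrel : ∀ s r, RelA n s r → (Q s ↔ Q r) := by
      intro s r h
      induction h with
      | rel s r h =>
        obtain ⟨hs, u, v, j, huv, hj, rfl⟩ := h
        obtain ⟨g, hg⟩ := hmk u v j huv hj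
        let w : W 3 I := ⟨s, n, hI, hs⟩
        show Q w.1 ↔ Q (mk u v j w.1)
        rw [← hg, hQ, hQ]
        by_cases h01 : u = 0 ∧ v = 1
        · obtain ⟨rfl, rfl⟩ := h01
          refine ZGiant.orbit_iff N hNn z.1 q2 (Subtype.ext ((hg _).trans ?_)) w
          have e3 : (c • t • z.1).1 = zz n 1 2 := e2
          rw [e3]
          exact fix_z2 hn hj
        · exact ZGiant.orbit_iff N hNn z.1 q0 (Subtype.ext ((hg _).trans (fix_z hn huv h01 hj))) w
      | refl s => rfl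
      | symm s t _ ih => exact ih.symm
      | trans s t r _ _ ih1 ih2 => exact ih1.trans ih2
    exact fun x => (hQ _).1 ((hrel _ _ (trans3 hn z.2 x.2)).1 ((hQ _).2 q0))
  have key := abs_stepP n (by omega) σ (fun x k => ?_) (fun g x => Subtype.ext (hsh g x.1))
    (low I G n) hK t htK (fun x y => ?_) ⟨z, t • z, n01, rfl, e0, fun w a b => ?_⟩ q n (by omega)
    ⟨fun l => ⟨⟨yy n l, n, hI, (yy_prim hn (by omega)).1⟩, yy_prim hn (by omega)⟩, ?_⟩
    F' fun x => Subtype.ext (hF x.1)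
  · have e : ∀ k : low I G n, {w : W 3 I | Prim n w.1 ∧ (k : G) • F w = shW 3 I w}.ncard =
        {x | k • F' x = σ x}.ncard := fun k => by
      rw [← Set.ncard_image_of_injective {x | k • F' x = σ x} Subtype.val_injective]
      congr 1
      ext w
      constructor
      · rintro ⟨h1, h2⟩
        exact ⟨⟨w, h1⟩, Subtype.ext h2, rfl⟩
      · rintro ⟨x, h1, rfl⟩
        exact ⟨x.2, congrArg Subtype.val h1⟩
    simp only [e]
    exact key
  · have hp : Prim n x.1.1 := x.2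
    have a := addmod (n := n) (by omega) k 0 le_rfl (by omega)
    constructor
    · intro h
      by_contra hd
      have h0 : k % n ≠ 0 := fun e => hd (Int.dvd_of_emod_eq_zero e)
      refine hp.2 (k % n).toNat (by omega) ⟨by omega, fun i => ?_, hp.1.2.2⟩
      rw [Int.toNat_of_nonneg a.2.2.1, ← hp.1.zper _ (k / n), add_assoc, Int.emod_add_ediv_mul,
        ← hv, h]
    · rintro ⟨l, rfl⟩
      exact Subtype.ext (Subtype.ext (funext fun i => by rw [hv, mul_comm, hp.1.zper]))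
  · obtain ⟨a, ha⟩ := hall x
    obtain ⟨b, hb⟩ := hall y
    refine ⟨b * a⁻¹, N.mul_mem b.2 (N.inv_mem a.2), Subtype.ext ?_⟩
    show ((b : G) * (a : G)⁻¹) • x.1 = y.1
    rw [← ha, ← hb, mul_smul]
    show (b : G) • (a : G)⁻¹ • (a : G) • z.1 = (b : G) • z.1
    rw [inv_smul_smul]
  · refine Subtype.ext (Subtype.ext ((ht w.1).trans ?_))
    by_contra hne
    have hp : Prim n w.1.1 := w.2
    obtain ⟨-, i, l, rfl | rfl, hl⟩ := hit_two hn le_rfl hp.1 hne
    · exact a ⟨i, Subtype.ext (Subtype.ext (funext fun x => by rw [hv, hl]))⟩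
    · exact b ⟨i, Subtype.ext (Subtype.ext (funext fun x => by rw [hv, hl, e1]))⟩
  · rintro l l' ⟨k, hk⟩
    refine Fin.ext (yy_inj hn (l := l) (l' := l') (by omega) (by omega) k fun i => ?_)
    have := hv k ⟨⟨yy n l, n, hI, (yy_prim hn (by omega)).1⟩, yy_prim hn (by omega)⟩ i
    rw [hk] at this
    exact this.symm

theorem err_le {n : ℕ} (hn : 8 ≤ n) (q : ℕ) :
    3 / ((n : ℝ) ^ (q + n) * q.factorial * n.factorial) ≤
      256 / 10 ^ 11 * (1 / 2) ^ n * (Real.exp (-1 / n) / (n ^ q * q.factorial)) := by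
  have hn' : (8 : ℝ) ≤ n := by exact_mod_cast hn
  have h1 : (3 / 4 : ℝ) ≤ Real.exp (-1 / n) := by
    refine le_trans ?_ (Real.add_one_le_exp _)
    have : (1 : ℝ) / n ≤ 1 / 8 := one_div_le_one_div_of_le (by norm_num) hn'
    rw [neg_div]
    linarith
  have h2 : (40320 : ℝ) ≤ n.factorial := by exact_mod_cast Nat.factorial_le hn
  have h3 : (4 : ℝ) ^ 8 * 2 ^ n ≤ (n : ℝ) ^ n := by
    refine le_trans ?_ (pow_le_pow_left₀ (by norm_num) hn' n)
    rw [show (8 : ℝ) = 4 * 2 by norm_num, mul_pow]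
    gcongr
    norm_num
  have h4 : (0 : ℝ) < 2 ^ n := by positivity
  have h5 : (4 : ℝ) ^ 8 * 2 ^ n * 40320 ≤ (n : ℝ) ^ n * n.factorial := by gcongr
  have h6 : (0 : ℝ) < n ^ q * q.factorial := by positivity
  have h7 : 3 / ((n : ℝ) ^ n * n.factorial) ≤ 256 / 10 ^ 11 * (1 / 2) ^ n * (3 / 4) := by
    refine (div_le_div_of_nonneg_left (by norm_num) (by positivity) h5).trans ?_
    rw [one_div_pow, div_le_iff₀ (by positivity)]
    field_simp
    norm_num
  calc _ = 3 / ((n : ℝ) ^ n * n.factorial) / (n ^ q * q.factorial) := by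
        rw [pow_add]
        field_simp
    _ ≤ 256 / 10 ^ 11 * (1 / 2) ^ n * Real.exp (-1 / n) / (n ^ q * q.factorial) := by
        gcongr
        exact h7.trans (by gcongr)
    _ = _ := by ring

end YGrpPX

open YGrpX YGrpPX in
theorem grpP (S : Finset ℕ) (hS : ∀ n ∈ S, 8 ≤ n) (k : ℕ → ℕ) (hk : ∀ n ∈ S, k n ≤ n)
    (I : Finset ℕ) (hI : S ⊆ I) (G : Type) [Group G] [Finite G] [MulAction G (W 3 I)]
    (hsh : ∀ (g : G) (w : W 3 I), g • shW 3 I w = shW 3 I (g • w))
    (hmk : ∀ (u v : Fin 3) (j : ℕ), u ≠ v → 1 ≤ j → ∃ g : G, ∀ w : W 3 I, (g • w).1 = mk u v j w.1)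
    (F : Equiv.Perm (W 3 I)) (hF : ∀ w, F (shW 3 I w) = shW 3 I (F w)) :
    |({g : G | ∀ n ∈ S,
        {w : W 3 I | Prim n w.1 ∧ g • F w = shW 3 I w}.ncard = n * k n}.ncard : ℝ) -
        (∏ n ∈ S, Real.exp (-1 / n) / (n ^ k n * (k n).factorial)) * Nat.card G| ≤
      1 / 10 ^ 10 * (∏ n ∈ S, Real.exp (-1 / n) / (n ^ k n * (k n).factorial)) * Nat.card G := by
  let p : ℕ → ℝ := fun n => Real.exp (-1 / n) / (n ^ k n * (k n).factorial)
  let e : ℕ → ℝ := fun n => 256 / 10 ^ 11 * (1 / 2) ^ n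
  let Good : ℕ → Set G := fun n =>
    {g | {w : W 3 I | Prim n w.1 ∧ g • F w = shW 3 I w}.ncard = n * k n}
  have he0 : ∀ n, 0 < e n := fun n => by positivity
  have he1 : ∀ a b, a ≤ b → e b ≤ e a := fun a b h =>
    mul_le_mul_of_nonneg_left (pow_le_pow_of_le_one (by norm_num) (by norm_num) h) (by norm_num)
  have he2 : ∀ a, e (a + 1) = e a / 2 := fun a => by
    simp only [e, pow_succ]
    ring
  have he3 : e 8 = 1 / 10 ^ 11 := by
    simp only [e]
    norm_num
  have hp0 : ∀ n, 0 ≤ p n := fun n => by positivity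
  have key : ∀ S : Finset ℕ, (∀ n ∈ S, 8 ≤ n) → (∀ n ∈ S, k n ≤ n) → S ⊆ I → ∀ b, 8 ≤ b →
      (∀ n ∈ S, n < b) →
      (1 - (2 / 10 ^ 11 - 2 * e b)) * ((∏ n ∈ S, p n) * Nat.card G) ≤
        {g : G | ∀ n ∈ S, g ∈ Good n}.ncard ∧
      ({g : G | ∀ n ∈ S, g ∈ Good n}.ncard : ℝ) ≤
        (1 + 2 * (2 / 10 ^ 11 - 2 * e b)) * ((∏ n ∈ S, p n) * Nat.card G) := by
    intro S
    induction S using Finset.induction_on_max with
    | empty =>
      intro _ _ _ b hb _
      have h1 := he1 8 b hb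
      have h2 : (0 : ℝ) ≤ Nat.card G := Nat.cast_nonneg _
      have e0 : {g : G | ∀ n ∈ (∅ : Finset ℕ), g ∈ Good n} = Set.univ :=
        Set.eq_univ_of_forall fun g n h => absurd h (Finset.notMem_empty n)
      rw [he3] at h1
      have h3 := mul_nonneg (sub_nonneg.2 h1) h2
      rw [e0, Set.ncard_univ, Finset.prod_empty, one_mul]
      constructor <;> linarith
    | insert a S ha ih =>
      intro h8 hk hI b hb hlt
      have ha8 := h8 a (Finset.mem_insert_self a S)
      obtain ⟨i1, i2⟩ := ih (fun n h => h8 n (Finset.mem_insert_of_mem h))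
        (fun n h => hk n (Finset.mem_insert_of_mem h))
        ((Finset.subset_insert a S).trans hI) a ha8 ha
      have e0 : {g : G | ∀ n ∈ insert a S, g ∈ Good n} =
          {g : G | ∀ n ∈ S, g ∈ Good n} ∩ Good a := by
        ext g
        simp only [Finset.forall_mem_insert, Set.mem_inter_iff, Set.mem_ofPred_eq]
        exact and_comm
      obtain ⟨c1, c2⟩ := count2 (low I G a) {g : G | ∀ n ∈ S, g ∈ Good n} (Good a)
        ((1 - e a) * p a) ((1 + e a) * p a)
        (fun g hg c hc n hn => by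
          have := hg n hn
          simp only [Good, Set.mem_ofPred_eq] at this ⊢
          rw [← this]
          congr 1
          ext w
          refine and_congr_right fun hw => ?_
          rw [mul_smul, hc n (ha n hn) _ (ZGrp.per_map (fun w => g • w) (hsh g)
            (ZGrp.per_map F hF hw.1))])
        fun h => by
          have := stepP ha8 (hI (Finset.mem_insert_self a S)) (k a)
            (hk a (Finset.mem_insert_self a S)) G hsh hmk (F.trans (MulAction.toPerm h))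
            fun w => by
              show h • F (shW 3 I w) = shW 3 I (h • F w)
              rw [hF, hsh]
          have e2 : {c : low I G a | c * h ∈ Good a} = {c : low I G a | {w : W 3 I | Prim a w.1 ∧
              (c : G) • (F.trans (MulAction.toPerm h)) w = shW 3 I w}.ncard = a * k a} := by
            ext c
            show {w : W 3 I | Prim a w.1 ∧ ((c : G) * h) • F w = shW 3 I w}.ncard = a * k a ↔ _
            simp only [mul_smul]
            rfl
          rw [e2]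
          have h2 : (0 : ℝ) ≤ Nat.card (low I G a) := Nat.cast_nonneg _
          have h3 := abs_le.1 (this.trans (mul_le_mul_of_nonneg_right (err_le ha8 (k a)) h2))
          simp only [e, p]
          constructor
          · linarith [h3.1]
          · linarith [h3.2]
      rw [e0, Finset.prod_insert fun h => lt_irrefl a (ha a h)]
      have h1 := he1 8 a ha8
      have h2 := he1 (a + 1) b (hlt a (Finset.mem_insert_self a S))
      have h3 := he0 a
      have h4 := he0 b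
      rw [he2] at h2
      rw [he3] at h1
      have h5 : 0 ≤ (∏ n ∈ S, p n) * Nat.card G :=
        mul_nonneg (Finset.prod_nonneg fun n _ => hp0 n) (Nat.cast_nonneg _)
      have h6 : 0 ≤ p a * ((∏ n ∈ S, p n) * Nat.card G) := mul_nonneg (hp0 a) h5
      have f1 : 0 ≤ (1 - e a) * p a := mul_nonneg (by linarith) (hp0 a)
      have f2 : 0 ≤ (1 + e a) * p a := mul_nonneg (by linarith) (hp0 a)
      constructor
      · refine le_trans ?_ ((mul_le_mul_of_nonneg_left i1 f1).trans c1)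
        calc _ = (1 - (2 / 10 ^ 11 - 2 * e b)) * (p a * ((∏ n ∈ S, p n) * Nat.card G)) := by ring
          _ ≤ ((1 - e a) * (1 - (2 / 10 ^ 11 - 2 * e a))) *
              (p a * ((∏ n ∈ S, p n) * Nat.card G)) :=
            mul_le_mul_of_nonneg_right (by nlinarith) h6
          _ = _ := by ring
      · refine (c2.trans (mul_le_mul_of_nonneg_left i2 f2)).trans ?_
        calc _ = ((1 + e a) * (1 + 2 * (2 / 10 ^ 11 - 2 * e a))) *
              (p a * ((∏ n ∈ S, p n) * Nat.card G)) := by ring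
          _ ≤ (1 + 2 * (2 / 10 ^ 11 - 2 * e b)) * (p a * ((∏ n ∈ S, p n) * Nat.card G)) :=
            mul_le_mul_of_nonneg_right (by nlinarith) h6
          _ = _ := by ring
  obtain ⟨h1, h2⟩ := key S hS hk hI (S.sup id + 8) (by omega) fun n h => by
    have : n ≤ S.sup id := Finset.le_sup (f := id) h
    omega
  have h3 := he0 (S.sup id + 8)
  have h5 : 0 ≤ (∏ n ∈ S, p n) * Nat.card G :=
    mul_nonneg (Finset.prod_nonneg fun n _ => hp0 n) (Nat.cast_nonneg _)
  show |({g : G | ∀ n ∈ S, g ∈ Good n}.ncard : ℝ) - (∏ n ∈ S, p n) * Nat.card G| ≤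
    1 / 10 ^ 10 * (∏ n ∈ S, p n) * Nat.card G
  rw [abs_le, mul_assoc]
  constructor <;> nlinarith

end Pool.Agent.MP_9b2bac_nt.Z

end
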