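import Mathlib
import Pool.Agent.Mg.F43e117.G4f2145
import Pool.Agent.Mg.F43e117.Gf6882d

/- The prime polynomial theorem in short intervals below the square root, characteristic two. -/

set_option autoImplicit false

namespace Pool.Agent.MP_c853c5_nt

open Polynomial Finset Pool.Agent.MP_4fffd4_nt
open scoped BigOperators

universe u

theorem final_ineq {q x P : ℝ} (hq : 2 ≤ q) {n h z L c : ℕ} (hn : 1 ≤ n) (hz : 3 ≤ z)
    (h1 : 2 * n ≤ 2 ^ z) (h2 : (h + 1) / 2 + 2 * z ≤ h) (h3 : n / 3 + 3 * z ≤ h) (h4 : z ≤ L)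
    (h5 : 3 * z ≤ c)
    (hx : |n * x - P| ≤ n * (q ^ ((h + 1) / 2) + (n + 1) * q ^ (n / 3)))
    (hP : |P - q ^ h| ≤ (n + 1) * ((n + 2 * q ^ (10 * L)) * (q ^ h / q ^ (60 * L)) +
      n * (q ^ h / q ^ c))) : |x / q ^ h - 1 / n| ≤ 1 / q ^ z := by
  have hq1 : 1 ≤ q := by linarith
  have hn' : (1 : ℝ) ≤ n := by exact_mod_cast hn
  have e1 : 2 * (n : ℝ) ≤ q ^ z :=
    le_trans (by exact_mod_cast h1) (pow_le_pow_left₀ zero_le_two hq z)
  have e2 : (2 : ℝ) ^ 3 ≤ q ^ z :=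
    (pow_le_pow_left₀ zero_le_two hq 3).trans (pow_le_pow_right₀ hq1 hz)
  have key : ∀ a b : ℕ, a + 2 * z ≤ h + b → q ^ a / q ^ b ≤ q ^ h / q ^ (2 * z) := fun a b hab => by
    rw [div_le_div_iff₀ (by positivity) (by positivity), ← pow_add, ← pow_add]
    exact pow_le_pow_right₀ hq1 hab
  have t1 : q ^ ((h + 1) / 2) ≤ q ^ h / q ^ (2 * z) := by simpa using key _ 0 h2
  have t2 : (n + 1) * q ^ (n / 3) ≤ q ^ h / q ^ (2 * z) := by
    refine le_trans (b := q ^ z * q ^ (n / 3)) (by gcongr; linarith) ?_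
    simpa [pow_add] using key (z + n / 3) 0 (by omega)
  have t3 : (n + 1) * ((n + 2 * q ^ (10 * L)) * (q ^ h / q ^ (60 * L))) ≤
      3 * (q ^ h / q ^ (2 * z)) := by
    have : (n : ℝ) ≤ q ^ (10 * L) :=
      le_trans (by linarith) (pow_le_pow_right₀ hq1 (show z ≤ 10 * L by omega))
    calc _ ≤ q ^ z * ((3 * q ^ (10 * L)) * (q ^ h / q ^ (60 * L))) := by gcongr <;> linarith
      _ = 3 * (q ^ (z + 10 * L + h) / q ^ (60 * L)) := by rw [pow_add, pow_add]; ring
      _ ≤ _ := by gcongr 3 * ?_; exact key _ _ (by omega)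
  have t4 : (n + 1) * (q ^ h / q ^ c) ≤ q ^ h / q ^ (2 * z) := by
    calc _ ≤ q ^ z * (q ^ h / q ^ c) := by gcongr; linarith
      _ = q ^ (z + h) / q ^ c := by rw [pow_add]; ring
      _ ≤ _ := key _ _ (by omega)
  have t0 : 0 ≤ q ^ h / q ^ (2 * z) := by positivity
  have t5 : |n * x - q ^ h| ≤ n * (6 * (q ^ h / q ^ (2 * z))) := by
    refine (abs_sub_le _ P _).trans ?_
    have := mul_le_mul_of_nonneg_left (add_le_add t1 t2) (show (0 : ℝ) ≤ n by linarith)
    have := mul_le_mul_of_nonneg_left t4 (show (0 : ℝ) ≤ n by linarith)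
    nlinarith
  rw [show x / q ^ h - 1 / n = (n * x - q ^ h) / (n * q ^ h) by field_simp, abs_div,
    abs_of_pos (show 0 < n * q ^ h by positivity), div_le_iff₀ (by positivity)]
  refine t5.trans ?_
  rw [two_mul, pow_add]
  calc _ = 6 / q ^ z * (1 / q ^ z * (n * q ^ h)) := by field_simp
    _ ≤ 1 * (1 / q ^ z * (n * q ^ h)) := by
        gcongr
        rw [div_le_one (by positivity)]
        linarith
    _ = _ := one_mul _

theorem main_short : ∃ D : ℕ, 0 < D ∧ ∀ (F : Type u) [Field F] [Fintype F] [CharP F 2],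
    ∃ n₀ : ℕ, ∀ n, n₀ ≤ n → ∀ h, 2 * h ≤ n → n ≤ 2 * h + n / D → ∀ f : F[X], f.Monic →
      f.natDegree = n → |𝔼 y : degreeLT F h, ind (Irreducible (f + y.1)) - 1 / n| ≤
        1 / (Fintype.card F : ℝ) ^ (n / D) := by
  obtain ⟨C₁, hC₁, i₀, hlong⟩ := long_bound.{u}
  obtain ⟨C₂, hC₂, hsp⟩ := sparse_bound.{u} (400 * C₁) (by omega)
  have hD : 0 < 3 * C₂ * (200 * C₁) := by positivity
  obtain ⟨N₁, hN₁⟩ := poly_le 2 1 _ hD
  refine ⟨_, hD, fun F _ _ _ => ?_⟩
  obtain ⟨n₁, hn₁⟩ := hsp F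
  refine ⟨n₁ + N₁ + 3 * (3 * C₂ * (200 * C₁)) + 4 * i₀ + 100, fun n hn h h1 h2 f hf hd => ?_⟩
  have hq := card_pos' (F := F)
  have hq2 := two_le_card (F := F)
  have hq1 : (1 : ℝ) ≤ Fintype.card F := one_le_two.trans hq2
  have a1 := hN₁ n (by omega)
  rw [pow_one] at a1
  have a2 : 3 ≤ n / (3 * C₂ * (200 * C₁)) := (Nat.le_div_iff_mul_le hD).2 (by omega)
  have a3 : n / (3 * C₂ * (200 * C₁)) ≤ n / (200 * C₁) :=
    Nat.div_le_div_left (Nat.le_mul_of_pos_left _ (by omega)) (by omega)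
  have a4 : 3 * (n / (3 * C₂ * (200 * C₁))) ≤ n / C₂ := by
    have := Nat.div_mul_le_self n (3 * C₂ * (200 * C₁))
    exact (Nat.le_div_iff_mul_le hC₂).2 (by nlinarith)
  have a5 := Nat.div_mul_le_self n (200 * C₁)
  have a6 := Nat.lt_mul_div_succ n (b := 200 * C₁) (by omega)
  generalize n / (3 * C₂ * (200 * C₁)) = z at *
  generalize n / (200 * C₁) = L at *
  have a7 : L ≤ L * C₁ := Nat.le_mul_of_pos_right _ hC₁
  have a8 : L * (200 * C₁) = 200 * (L * C₁) := by ring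
  have a9 : n ≤ 400 * C₁ * L := by nlinarith
  rw [expect_LT]
  refine final_ineq hq2 (L := L) (c := n / C₂) (by omega) a2 a1 (by omega) (by omega) a3 a4
    (prime_of_psi hf hd (by omega)) (psi_bound (V := 10 * L) (t := 11 * L) hf hd (by omega)
      (by omega) (by omega) (by positivity) (by positivity) (fun i hi c hc hc' hi' => ?_)
      fun j hj hj' => ?_)
  · refine (long_to_sum (l := i / 2) hf hd hc hi'.le (by omega) (by omega)
      (hlong i (by omega) F)).trans ?_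
    have : 80 * L ≤ i / C₁ := (Nat.le_div_iff_mul_le hC₁).2 (by rw [mul_assoc]; omega)
    rw [mul_one_div, div_le_div_iff₀ (by positivity) (by positivity), ← pow_add, ← pow_add]
    exact pow_le_pow_right₀ hq1 (by omega)
  · have := hn₁ n (by omega) h j L a9 (by omega) h1 (by omega) hj (by omega) f hf hd
    simp only [expect_LT, abs_div] at this
    rw [← Finset.sum_div, div_div, abs_of_pos (by positivity), ← pow_add,
      show h - j + j = h by omega, div_le_iff₀ (by positivity), one_div_mul_eq_div] at this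
    rwa [sum_monF]

theorem main_all : ∃ D : ℕ, 0 < D ∧ ∀ (F : Type u) [Field F] [Fintype F] [CharP F 2],
    ∃ n₀ : ℕ, ∀ n, n₀ ≤ n → ∀ h, h ≤ n → n ≤ 2 * h + n / D → ∀ f : F[X], f.Monic →
      f.natDegree = n → |𝔼 y : degreeLT F h, ind (Irreducible (f + y.1)) - 1 / n| ≤
        1 / (Fintype.card F : ℝ) ^ (n / D) := by
  obtain ⟨D, hD, H⟩ := main_short.{u}
  refine ⟨D, hD, fun F _ _ _ => ?_⟩
  obtain ⟨n₀, hn₀⟩ := H F
  refine ⟨n₀ + D, fun n hn h h1 h2 f hf hd => ?_⟩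
  by_cases h3 : 2 * h ≤ n
  · exact hn₀ n (by omega) h h3 h2 f hf hd
  have a1 : 1 ≤ n / D := (Nat.le_div_iff_mul_le hD).2 (by omega)
  rw [expect_avg _ fun y : degreeLT F (n / 2) => (⟨y.1, mem_degreeLT.2
    ((mem_degreeLT.1 y.2).trans_le (by exact_mod_cast (by omega)))⟩ : degreeLT F h),
    ← Fintype.expect_const (ι := degreeLT F h) (1 / n : ℝ), ← Finset.expect_sub_distrib]
  refine (Finset.abs_expect_le _ _).trans (Finset.expect_le univ_nonempty fun y _ => ?_)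
  have hy : y.1.degree < f.degree := by
    rw [degree_eq_natDegree hf.ne_zero, hd]
    exact (mem_degreeLT.1 y.2).trans_le (by exact_mod_cast h1)
  simp only [Submodule.coe_add, ← add_assoc]
  exact hn₀ n (by omega) (n / 2) (by omega) (by omega) _ (hf.add_of_left hy)
    ((natDegree_add_eq_left_of_degree_lt hy).trans hd)

end Pool.Agent.MP_c853c5_nt
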