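import Mathlib
import Pool.Agent.Mg.F43e117.G3e7ce6
import Pool.Agent.Mg.F43e117.G4b4065
import Pool.Agent.Mg.F43e117.Gd774f7

section

/- Extension of isomorphisms between subrings, and specialisation of the solutions of a cluster. -/

set_option autoImplicit false

namespace Pool.Agent.MP_9b2bac_nt.Z

open PowerSeries

variable {d : ℕ} {A : Type} [CommRing A] [IsDomain A]

theorem vext_two {P D Ω : Type} [CommRing P] [IsDomain P] [CommRing D] [IsDomain D] [Field Ω]
    [IsAlgClosed Ω] [Algebra P D] [Algebra.IsAlgebraic P D]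
    (hP : Function.Injective (algebraMap P D)) (f g : D →+* Ω) (hf : Function.Injective f)
    (hg : Function.Injective g) (h : ∀ p, f (algebraMap P D p) = g (algebraMap P D p)) :
    ∃ γ : Ω ≃+* Ω, ∀ x, γ (f x) = g x := by
  let O := AlgebraicClosure (FractionRing D)
  have hi : Function.Injective (algebraMap D O) := by
    rw [IsScalarTower.algebraMap_eq D (FractionRing D) O, RingHom.coe_comp]
    exact (algebraMap (FractionRing D) O).injective.comp (IsFractionRing.injective D _)
  have : Algebra.IsAlgebraic D O := by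
    have : Algebra.IsAlgebraic D (FractionRing D) := IsLocalization.isAlgebraic _ (nonZeroDivisors D)
    exact Algebra.IsAlgebraic.trans D (FractionRing D) O
  have : Algebra.IsAlgebraic P O := Algebra.IsAlgebraic.trans P D O
  have hPO : Function.Injective (algebraMap P O) := by
    rw [IsScalarTower.algebraMap_eq P D O, RingHom.coe_comp]; exact hi.comp hP
  have : FaithfulSMul P O := (faithfulSMul_iff_algebraMap_injective P O).2 hPO
  let F := FractionRing P
  let : Algebra F O := FractionRing.liftAlgebra P O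
  have : IsScalarTower P F O := FractionRing.isScalarTower_liftAlgebra P O
  have : Algebra.IsAlgebraic F O :=
    Algebra.IsAlgebraic.extendScalars (R := P) (IsFractionRing.injective P F)
  have : IsAlgClosure F O := ⟨inferInstance, inferInstance⟩
  obtain ⟨ψ, hψ⟩ := ZTree.lift_hom hi f hf
  obtain ⟨ψ', hψ'⟩ := ZTree.lift_hom hi g hg
  let : Algebra O Ω := ψ.toAlgebra
  let : Algebra F Ω := (ψ.comp (algebraMap F O)).toAlgebra
  have : IsScalarTower F O Ω := IsScalarTower.of_algebraMap_eq fun _ => rfl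
  have hF : ψ'.comp (algebraMap F O) = algebraMap F Ω := by
    refine IsLocalization.ringHom_ext (nonZeroDivisors P) (RingHom.ext fun p => ?_)
    change ψ' (algebraMap F O (algebraMap P F p)) = ψ (algebraMap F O (algebraMap P F p))
    rw [← IsScalarTower.algebraMap_apply P F O, IsScalarTower.algebraMap_apply P D O, hψ, hψ', h]
  let θ : O →ₐ[F] Ω := { ψ' with commutes' := fun c => RingHom.congr_fun hF c }
  obtain ⟨γ, hγ⟩ := ZTree.ext_equiv ψ (θ.restrictNormal' O).toRingEquiv
  refine ⟨γ, fun x => ?_⟩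
  rw [← hψ, hγ, ← hψ']
  exact θ.restrictNormal_commutes O _

theorem vext_pair {P R S Ω ι : Type} [CommRing P] [IsDomain P] [CommRing R] [IsDomain R]
    [CommRing S] [Field Ω] [IsAlgClosed Ω] [Algebra P R] (hP : Function.Injective (algebraMap P R))
    (e : R →+* Ω) (he : Function.Injective e) (β β' : R →+* S) (hβ : Function.Injective β)
    (hβ' : Function.Injective β') (hb : ∀ p, β' (algebraMap P R p) = β (algebraMap P R p))
    (a b : ι → R) (hab : ∀ j, β' (a j) = β (b j)) (halg : ∀ j, IsAlgebraic P (a j)) :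
    ∃ γ : Ω ≃+* Ω, (∀ p, γ (e (algebraMap P R p)) = e (algebraMap P R p)) ∧
      ∀ j, γ (e (a j)) = e (b j) := by
  let D : Subalgebra P R := Algebra.adjoin _ (Set.range a)
  have : Algebra.IsAlgebraic P D := (Subalgebra.isAlgebraic_iff _).1
    (Algebra.isAlgebraic_adjoin_iff.2 (by rintro _ ⟨j, rfl⟩; exact halg j))
  obtain ⟨α, hα⟩ := exists_fac (β'.comp D.val.toRingHom) β hβ (by
    rintro ⟨r, hr⟩
    induction hr using Algebra.adjoin_induction with
    | mem x hx => obtain ⟨j, rfl⟩ := hx; exact ⟨b j, (hab j).symm⟩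
    | algebraMap p => exact ⟨_, (hb p).symm⟩
    | add x y _ _ hx hy =>
      obtain ⟨u, hu⟩ := hx; obtain ⟨v, hv⟩ := hy
      exact ⟨u + v, by rw [map_add, hu, hv, ← map_add]; rfl⟩
    | mul x y _ _ hx hy =>
      obtain ⟨u, hu⟩ := hx; obtain ⟨v, hv⟩ := hy
      exact ⟨u * v, by rw [map_mul, hu, hv, ← map_mul]; rfl⟩)
  have hαi : Function.Injective α := fun x y h =>
    Subtype.ext (hβ' ((hα x).symm.trans (h ▸ hα y)))
  have h1 : ∀ p, α (algebraMap P D p) = algebraMap P R p := fun p => hβ ((hα _).trans (hb p))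
  obtain ⟨γ, hγ⟩ := vext_two (P := P) (D := D) (fun x y h => hP (congrArg Subtype.val h))
    (e.comp D.val.toRingHom) (e.comp α) (he.comp Subtype.val_injective) (he.comp hαi)
    fun p => congrArg e (h1 p).symm
  refine ⟨γ, fun p => (hγ (algebraMap P D p)).trans (congrArg e (h1 p)), fun j => ?_⟩
  exact (hγ ⟨a j, Algebra.subset_adjoin ⟨j, rfl⟩⟩).trans (congrArg e (hβ ((hα _).trans (hab j))))

theorem ext_gam {S ι : Type} [CommRing S]
    (R : Subalgebra (Polynomial (AA A d)) (PowerSeries (BB A d))) (β β' : R →+* S)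
    (hβ : Function.Injective β) (hβ' : Function.Injective β')
    (hb : ∀ a, β' (algebraMap (Polynomial (AA A d)) R a) = β (algebraMap (Polynomial (AA A d)) R a))
    (a b : ι → R) (hab : ∀ j, β' (a j) = β (b j))
    (halg : ∀ j, IsAlgebraic (Polynomial (AA A d)) (a j : PowerSeries (BB A d))) :
    ∃ γ : Gam A d, ∀ j, γ (io A d (a j)) = io A d (b j) := by
  let e : R →+* Om A d := (io A d).comp R.val.toRingHom
  have h2 : ∀ p, e (algebraMap (Polynomial (AA A d)) R p) = algebraMap _ (Om A d) p := fun p =>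
    (IsScalarTower.algebraMap_apply _ (PowerSeries (BB A d)) (Om A d) p).symm
  obtain ⟨γ, h1, h3⟩ := vext_pair (P := Polynomial (AA A d)) (R := R)
    (fun x y h => alg_inj (congrArg Subtype.val h)) e (io_inj.comp Subtype.val_injective)
    β β' hβ hβ' hb a b hab fun j => Subalgebra.isAlgebraic_iff_isAlgebraic_val.2 (halg j)
  exact ⟨{ γ with commutes' := fun p => by rw [← h2]; exact h1 p }, h3⟩

theorem conj_root {F Ω : Type} [Field F] [Field Ω] [IsAlgClosed Ω] [Algebra F Ω] {S P : F}
    {a b : Ω} (hs : a + b = algebraMap F Ω S) (hp : a * b = algebraMap F Ω P)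
    (ha : a ∉ Set.range (algebraMap F Ω)) :
    ∃ γ : Ω ≃+* Ω, (∀ c, γ (algebraMap F Ω c) = algebraMap F Ω c) ∧ γ a = b := by
  let q : Polynomial F := Polynomial.X ^ 2 - Polynomial.C S * Polynomial.X + Polynomial.C P
  have hq : q.Monic := by simp only [q]; monicity!
  have hq2 : q.natDegree ≤ 2 := by simp only [q]; compute_degree
  have qa : Polynomial.aeval a q = 0 := by simp [q, ← hs, ← hp]; ring
  have qb : Polynomial.aeval b q = 0 := by simp [q, ← hs, ← hp]; ring
  have hi : IsIntegral F a := ⟨q, hq, qa⟩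
  have hm : q = minpoly F a := Polynomial.eq_of_monic_of_dvd_of_natDegree_le (minpoly.monic hi) hq
    (minpoly.dvd F a qa) (hq2.trans ((minpoly.two_le_natDegree_iff hi).2 ha))
  have : Fact (Irreducible q) := ⟨hm ▸ minpoly.irreducible hi⟩
  have := (AdjoinRoot.powerBasis hq.ne_zero).finite
  obtain ⟨γ, hγ⟩ := vext_two (P := F) (D := AdjoinRoot q) (RingHom.injective _)
    (AdjoinRoot.lift (algebraMap F Ω) a qa) (AdjoinRoot.lift (algebraMap F Ω) b qb)
    (RingHom.injective _) (RingHom.injective _) fun p => by simp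
  exact ⟨γ, fun c => by simpa using hγ (AdjoinRoot.of q c), by simpa using hγ (AdjoinRoot.root q)⟩

theorem vext_RC_mem {E : Type} [CommRing E] {C : Finset (Fin d)} (f : RC A C →+* E) (T : Subsemiring E)
    (h1 : ∀ a, f (algebraMap (Polynomial (AA A d)) _ a) ∈ T) (h2 : ∀ s j, f (zC A C s j) ∈ T)
    (r : RC A C) : f r ∈ T := by
  obtain ⟨r, hr⟩ := r
  induction hr using Algebra.adjoin_induction with
  | mem x hx => obtain ⟨⟨s, j⟩, rfl⟩ := hx; exact h2 s j
  | algebraMap a => exact h1 a
  | add x y _ _ hx hy => exact map_add f ⟨x, _⟩ ⟨y, _⟩ ▸ add_mem hx hy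
  | mul x y _ _ hx hy => exact map_mul f ⟨x, _⟩ ⟨y, _⟩ ▸ mul_mem hx hy

theorem exists_alphaC {k : Type} [Field k] (C : Finset (Fin d)) (φ : AA A d →+* k⟦X⟧)
    (hφ : Function.Injective φ) {c : Fin d → Fin d → k⟦X⟧}
    (hc : ∀ j i, j ∈ C → i ∈ C → j ≠ i →
      (φ (MvPolynomial.X j) - φ (MvPolynomial.X i)) * c j i = X)
    {w : Seq d → Fin d → k⟦X⟧⟦X⟧} {ξ : Seq d → k⟦X⟧⟦X⟧}
    (h : NF (fun j i => if j ∈ C ∧ i ∈ C then X * PowerSeries.C (c j i) else 0) w ξ) :
    ∃ α : RC A C →+* k⟦X⟧⟦X⟧, Function.Injective α ∧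
      (∀ x, α (algebraMap (Polynomial (AA A d)) _ (Polynomial.C x)) = PowerSeries.C (φ x)) ∧
      α (algebraMap (Polynomial (AA A d)) _ Polynomial.X) = PowerSeries.C X * X ∧
      ∀ s j, α (zC A C s j) = w s j := by
  let K := FractionRing k⟦X⟧
  let κ : k⟦X⟧ →+* K := algebraMap _ _
  have hκ : Function.Injective κ := IsFractionRing.injective k⟦X⟧ _
  have hφ' : Function.Injective (κ.comp φ) := hκ.comp hφ
  have hu : ∀ y : Submonoid.powers (Dl A d), IsUnit (κ.comp φ y) := fun y =>
    ((map_ne_zero_iff _ hφ').2 (nonZeroDivisors.ne_zero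
      (powers_le_nonZeroDivisors_of_noZeroDivisors Dl_ne y.2))).isUnit
  let Φ : BB A d →+* K := IsLocalization.lift hu
  have hΦ : Function.Injective Φ := (IsLocalization.lift_injective_iff hu).2 fun x y => by
    rw [AB_inj.eq_iff, hφ'.eq_iff]
  have hΦa : ∀ x, Φ (algebraMap _ _ x) = κ (φ x) := IsLocalization.lift_eq hu
  have hX : κ X ≠ 0 := (map_ne_zero_iff _ hκ).2 X_ne_zero
  let J : (BB A d)⟦X⟧ →+* K⟦X⟧ := (rescale (κ X)).comp (PowerSeries.map Φ)
  have hJ : Function.Injective J := (rescale_injective hX).comp (PowerSeries.map_injective _ hΦ)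
  have j1 : ∀ x, J (PowerSeries.C x) = PowerSeries.C (Φ x) := fun x => by
    ext n
    rw [RingHom.comp_apply, map_C, coeff_rescale, coeff_C]
    split_ifs with h <;> simp [h]
  have j2 : J X = PowerSeries.C (κ X) * X := by simp [J, rescale_X]
  have hι : Function.Injective (PowerSeries.map κ) := PowerSeries.map_injective _ hκ
  have hw := (NF.unique X ps_haus (fun j i _ => by
      split_ifs
      exacts [⟨PowerSeries.C (κ (c j i)), by simp⟩, by simp])
    (h.map (PowerSeries.map κ)) (((nfC A C).map J).congr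
      (t' := fun j i => PowerSeries.map κ
        (if j ∈ C ∧ i ∈ C then X * PowerSeries.C (c j i) else 0)) fun j i hji => by
      unfold tC
      split_ifs with hC
      swap
      · rw [map_zero, map_zero]
      simp only [t0, map_mul, j1, j2, map_X, map_C]
      rw [map_inverse_of_unit _ (lB_unit hji), map_sub, lB, lB, hΦa, hΦa, ← hc j i hC.1 hC.2 hji,
        map_mul κ, map_sub, mul_right_comm, ← map_mul, mul_right_comm, Ring.mul_inverse_cancel,
        one_mul, mul_comm]
      rw [← hΦa, ← hΦa, ← map_sub]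
      exact (lB_unit hji).map Φ)).1
  let f : RC A C →+* K⟦X⟧ := J.comp (RC A C).val.toRingHom
  have f1 : ∀ x, f (algebraMap (Polynomial (AA A d)) _ (Polynomial.C x)) =
      PowerSeries.map κ (PowerSeries.C (φ x)) := fun x => by
    rw [map_C, ← hΦa, ← j1, ← alg_C]; rfl
  have f2 : f (algebraMap (Polynomial (AA A d)) _ Polynomial.X) =
      PowerSeries.map κ (PowerSeries.C X * X) := by
    rw [map_mul, map_C, map_X, ← j2, ← alg_X]; rfl
  have f3 : ∀ s j, f (zC A C s j) = PowerSeries.map κ (w s j) := fun s j =>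
    (congrFun (congrFun hw s) j).symm
  obtain ⟨α, hα⟩ := exists_fac f _ hι (vext_RC_mem f (PowerSeries.map κ).rangeS (fun p => by
    induction p using Polynomial.induction_on with
    | C x => exact ⟨_, (f1 x).symm⟩
    | add p q hp hq => rw [map_add, map_add]; exact add_mem hp hq
    | monomial n x hp => rw [pow_succ, ← mul_assoc, map_mul, map_mul]; exact mul_mem hp ⟨_, f2.symm⟩)
    fun s j => ⟨_, (f3 s j).symm⟩)
  exact ⟨α, fun x y e => Subtype.ext (hJ ((hα x).symm.trans (e ▸ hα y))),
    fun x => hι ((hα _).trans (f1 x)), hι ((hα _).trans f2), fun s j => hι ((hα _).trans (f3 s j))⟩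

end Pool.Agent.MP_9b2bac_nt.Z

end

section

/- Uniqueness of lifts in the degeneration where the roots of a sub-cluster collide. -/

set_option autoImplicit false

namespace Pool.Agent.MP_9b2bac_nt.Z

open Finset

variable {d : ℕ} {K : Type} [Field K] {C C' : Finset (Fin d)}

theorem vclus_last {R : Type} [CommRing R] {π : R} {a b : Fin d → R} (ha : ∑ j, a j = 1)
    (hb : ∑ j, b j = 1) (h : ∀ j k, ¬ π ∣ a j - b j → ¬ π ∣ a k - b k → j = k) (j : Fin d) :
    π ∣ a j - b j := by
  by_contra hj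
  apply hj
  have : a j - b j = -∑ k ∈ univ.erase j, (a k - b k) := by
    rw [← add_sum_erase _ _ (mem_univ j)] at ha hb
    rw [sum_sub_distrib]; linear_combination ha - hb
  rw [this, dvd_neg]
  exact dvd_sum fun k hk => by_contra fun hc => ne_of_mem_erase hk (h k j hc hj)

theorem vclus_u {m : Fin d → K} (hm : Function.Injective m) (hm0 : ∀ j, m j ≠ 0) (h : C' ⊆ C)
    {lam : Fin d → PowerSeries K} {ν : K}
    (hl : ∀ j, lam j = if j ∈ C' then PowerSeries.X * PowerSeries.C (m j) else PowerSeries.C (m j))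
    {a b : ℤ → Fin d → PowerSeries K} {x y : ℤ → PowerSeries K} {s : Seq d} (hs : Term C' s)
    (ha : ∀ i, s i ∈ C → Stp C lam (PowerSeries.X * PowerSeries.C ν) (a (i + 1)) (x i) (a i))
    (hb : ∀ i, s i ∈ C → Stp C lam (PowerSeries.X * PowerSeries.C ν) (b (i + 1)) (y i) (b i))
    (ho : ∀ i, s i ∉ C → a i = b i) (hw : ∀ i j, PowerSeries.X ∣ a i j - b i j)
    (he : ∀ i, s i ∈ C → s i ∉ C' →
      PowerSeries.X ∣ x i - lam (s i) ∧ PowerSeries.X ∣ y i - lam (s i))
    (hx : ∀ i, s i ∈ C' → PowerSeries.X ∣ x i ∧ ∃ η, y i = PowerSeries.X * η ∧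
      ∑ j ∈ C', PowerSeries.constantCoeff (b i j) *
        ∏ k ∈ C'.erase j, (m k - PowerSeries.constantCoeff η) ≠ 0) : a = b := by
  classical
  have hc : ∀ j, PowerSeries.constantCoeff (lam j) = if j ∈ C' then 0 else m j := fun j => by
    rw [hl]; split_ifs <;> simp
  have hu : ∀ {z : PowerSeries K} {j : Fin d},
      PowerSeries.constantCoeff (lam j) ≠ PowerSeries.constantCoeff z → IsUnit (lam j - z) :=
    fun h2 => unit_of_c0 (by rw [map_sub]; exact sub_ne_zero.2 h2)
  have key : ∀ r, ∀ i j, PowerSeries.X ^ (r + 1) ∣ a i j - b i j := by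
    intro r
    induction r with
    | zero => simpa using hw
    | succ r ih =>
      have hoff : ∀ i j, s i ∈ C → IsUnit (lam j - x i) → IsUnit (lam j - y i) →
          PowerSeries.X ^ (r + 1 + 1) ∣ a i j - b i j := fun i j hi h1 h2 => by
        by_cases hj : j ∈ C
        · have e : (lam j - x i) * (a i j - b i j) = PowerSeries.X * PowerSeries.C ν *
              (a (i + 1) j - b (i + 1) j) + (x i - y i) * b i j := by
            linear_combination (hb i hi).step j hj - (ha i hi).step j hj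
          have hxy : PowerSeries.X ^ (r + 1) ∣ x i - y i := by
            have : x i - y i = ∑ j ∈ C, lam j * (a i j - b i j) - PowerSeries.X * PowerSeries.C ν *
                ∑ j ∈ C, (a (i + 1) j - b (i + 1) j) := by
              rw [(ha i hi).x_eq, (hb i hi).x_eq]
              simp only [mul_sub, sum_sub_distrib]
              ring
            rw [this]
            exact dvd_sub (dvd_sum fun j _ => (ih _ _).mul_left _)
              ((dvd_sum fun j _ => ih _ _).mul_left _)
          refine h1.dvd_mul_left.1 (e ▸ dvd_add ?_ ?_)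
          · rw [pow_succ', mul_assoc]; exact mul_dvd_mul_left _ ((ih _ _).mul_left _)
          · rw [pow_succ]
            exact mul_dvd_mul hxy (h2.dvd_mul_left.1
              ((hb i hi).step j hj ▸ (dvd_mul_right _ _).mul_right _))
        · rw [(ha i hi).out j hj, (hb i hi).out j hj, sub_self]
          exact dvd_zero _
      have hE : ∀ i, s i ∉ C' → ∀ j, PowerSeries.X ^ (r + 1 + 1) ∣ a i j - b i j := by
        intro i h1
        by_cases hi : s i ∈ C
        · have h3 : ∀ j, j ≠ s i → PowerSeries.X ^ (r + 1 + 1) ∣ a i j - b i j := fun j hj => by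
            have e1 := PowerSeries.X_dvd_iff.1 (he i hi h1).1
            have e2 := PowerSeries.X_dvd_iff.1 (he i hi h1).2
            rw [map_sub, sub_eq_zero, hc, if_neg h1] at e1 e2
            have e3 : PowerSeries.constantCoeff (lam j) ≠ m (s i) := by
              rw [hc]; split_ifs
              exacts [(hm0 _).symm, hm.ne hj]
            exact hoff i j hi (hu (e1 ▸ e3)) (hu (e2 ▸ e3))
          refine vclus_last (ha i hi).sum (hb i hi).sum fun j k hj hk => ?_
          rw [by_contra fun e => hj (h3 j e), by_contra fun e => hk (h3 k e)]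
        · intro j
          rw [ho i hi, sub_self]
          exact dvd_zero _
      have hA : ∀ i, s i ∈ C' → (∀ j, PowerSeries.X ^ (r + 1 + 1) ∣ a (i + 1) j - b (i + 1) j) →
          ∀ j, PowerSeries.X ^ (r + 1 + 1) ∣ a i j - b i j := by
        intro i hi hn
        obtain ⟨⟨η, hη⟩, η', hη', hnd⟩ := hx i hi
        have h4 : ∀ j, j ∉ C' → PowerSeries.X ^ (r + 1 + 1) ∣ a i j - b i j := fun j hj =>
          hoff i j (h hi) (hu (by simpa [hc, hj, hη] using hm0 j))
            (hu (by simpa [hc, hj, hη'] using hm0 j))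
        have e : ∀ j ∈ C', (PowerSeries.C (m j) - η') * (a i j - b i j) =
            PowerSeries.C ν * (a (i + 1) j - b (i + 1) j) + (η - η') * a i j := fun j hj => by
          have e1 := (ha i (h hi)).step j (h hj)
          have e2 := (hb i (h hi)).step j (h hj)
          rw [hl, if_pos hj] at e1 e2
          rw [hη] at e1
          rw [hη'] at e2
          refine mul_left_cancel₀ PowerSeries.X_ne_zero ?_
          linear_combination e2 - e1
        have hS : PowerSeries.X ^ (r + 1 + 1) ∣ ∑ j ∈ C', (a i j - b i j) := by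
          have : ∑ j ∈ C', (a i j - b i j) = -∑ j ∈ C'ᶜ, (a i j - b i j) := by
            rw [eq_neg_iff_add_eq_zero, sum_add_sum_compl, sum_sub_distrib, (ha i (h hi)).sum,
              (hb i (h hi)).sum, sub_self]
          rw [this, dvd_neg]
          exact dvd_sum fun j hj => h4 j (mem_compl.1 hj)
        have hD : IsUnit (∑ j ∈ C', a i j * ∏ k ∈ C'.erase j, (PowerSeries.C (m k) - η')) := by
          refine unit_of_c0 ?_
          convert hnd using 1
          rw [map_sum]
          refine sum_congr rfl fun j _ => ?_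
          have := PowerSeries.X_dvd_iff.1 (hw i j)
          rw [map_sub, sub_eq_zero] at this
          simp [this]
        have hθ : PowerSeries.X ^ (r + 1 + 1) ∣ η - η' := by
          refine hD.dvd_mul_left.1 ?_
          have : (∑ j ∈ C', a i j * ∏ k ∈ C'.erase j, (PowerSeries.C (m k) - η')) * (η - η') =
              (∏ k ∈ C', (PowerSeries.C (m k) - η')) * ∑ j ∈ C', (a i j - b i j) -
              ∑ j ∈ C', (∏ k ∈ C'.erase j, (PowerSeries.C (m k) - η')) * PowerSeries.C ν *
                (a (i + 1) j - b (i + 1) j) := by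
            rw [sum_mul, mul_sum, ← sum_sub_distrib]
            refine sum_congr rfl fun j hj => ?_
            rw [← mul_prod_erase _ _ hj]
            linear_combination (-∏ k ∈ C'.erase j, (PowerSeries.C (m k) - η')) * e j hj
          rw [this]
          exact dvd_sub (hS.mul_left _) (dvd_sum fun j _ => (hn j).mul_left _)
        have h5 : ∀ j, ¬ PowerSeries.X ^ (r + 1 + 1) ∣ a i j - b i j →
            m j = PowerSeries.constantCoeff η' := fun j hj => by
          by_contra hc
          have hj' : j ∈ C' := by_contra fun e => hj (h4 j e)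
          have : IsUnit (PowerSeries.C (m j) - η') := unit_of_c0 (by simpa [sub_eq_zero] using hc)
          exact hj (this.dvd_mul_left.1 (e j hj' ▸ dvd_add ((hn j).mul_left _) (hθ.mul_right _)))
        exact vclus_last (ha i (h hi)).sum (hb i (h hi)).sum fun j k hj hk =>
          hm ((h5 j hj).trans (h5 k hk).symm)
      have hall : ∀ k : ℕ, ∀ i, s (i + k) ∉ C' →
          ∀ j, PowerSeries.X ^ (r + 1 + 1) ∣ a i j - b i j := by
        intro k
        induction k with
        | zero => intro i hi; simp only [Nat.cast_zero, add_zero] at hi; exact hE i hi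
        | succ k ihk =>
          intro i hi
          by_cases hc : s i ∈ C'
          · exact hA i hc (ihk (i + 1) (by rwa [Nat.cast_succ, add_comm (k : ℤ), ← add_assoc] at hi))
          · exact hE i hc
      exact fun i => let ⟨k, hk⟩ := hs i; hall k i hk
  exact funext fun i => funext fun j => sub_eq_zero.1
    (ps_haus _ fun r => (pow_dvd_pow PowerSeries.X r.le_succ).trans (key r i j))

end Pool.Agent.MP_9b2bac_nt.Z

end

section

/- Lifting automorphisms from a smaller cluster. -/

set_option autoImplicit false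

namespace Pool.Agent.MP_9b2bac_nt.Z

variable {d : ℕ} {A : Type} [CommRing A] [IsDomain A] {C C' : Finset (Fin d)}

section

variable {k : Type} [Field k]

/-- The roots along the collision of the letters of `C'`. -/
noncomputable def vclusL (C' : Finset (Fin d)) (l : Fin d → k) (j : Fin d) : PowerSeries k :=
  if j ∈ C' then PowerSeries.X * PowerSeries.C (l j) else PowerSeries.C (l j)

theorem vclus_c {l : Fin d → k} (hl : Function.Injective l) (hl0 : ∀ j, l j ≠ 0) (j i : Fin d) :
    ∃ c : PowerSeries k, j ≠ i → (vclusL C' l j - vclusL C' l i) * c = PowerSeries.X ∧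
      PowerSeries.constantCoeff c = if j ∈ C' ∧ i ∈ C' then (l j - l i)⁻¹ else 0 := by
  by_cases h3 : j = i
  · exact ⟨0, fun h => absurd h3 h⟩
  by_cases h1 : j ∈ C' ∧ i ∈ C'
  · refine ⟨PowerSeries.C (l j - l i)⁻¹, fun _ => ⟨?_, by simp [h1]⟩⟩
    rw [vclusL, vclusL, if_pos h1.1, if_pos h1.2, ← mul_sub, ← map_sub, mul_assoc, ← map_mul,
      mul_inv_cancel₀ (sub_ne_zero.2 (hl.ne h3)), map_one, mul_one]
  have : PowerSeries.constantCoeff (vclusL C' l j - vclusL C' l i) ≠ 0 := by
    unfold vclusL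
    split_ifs with e1 e2 e2
    · exact absurd ⟨e1, e2⟩ h1
    · simpa using hl0 i
    · simpa using hl0 j
    · simpa [sub_eq_zero] using hl.ne h3
  refine ⟨PowerSeries.X * (vclusL C' l j - vclusL C' l i)⁻¹, fun _ => ⟨?_, by simp [h1]⟩⟩
  rw [mul_left_comm, PowerSeries.mul_inv_cancel _ this, mul_one]

/-- Specialisation of the generic roots to the collision family. -/
noncomputable def vclusP (C' : Finset (Fin d)) (e : AA A d →+* k) : AA A d →+* PowerSeries k :=
  MvPolynomial.eval₂Hom (PowerSeries.C.comp (e.comp MvPolynomial.C))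
    (vclusL C' fun j => e (MvPolynomial.X j))

omit [IsDomain A] in
theorem vclusP_inj {e : AA A d →+* k} (he : Function.Injective e) :
    Function.Injective (vclusP C' e) := by
  let q : AA A d →+* Polynomial k := MvPolynomial.eval₂Hom
    (Polynomial.C.comp (e.comp MvPolynomial.C))
    fun j => if j ∈ C' then Polynomial.X * Polynomial.C (e (MvPolynomial.X j))
      else Polynomial.C (e (MvPolynomial.X j))
  have h1 : vclusP C' e = Polynomial.coeToPowerSeries.ringHom.comp q :=
    MvPolynomial.ringHom_ext (fun r => by simp [vclusP, q]) fun j => by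
      simp only [vclusP, q, vclusL, MvPolynomial.eval₂Hom_X', RingHom.comp_apply]
      split_ifs
      · rw [map_mul]; simp
      · simp
  have h2 : (Polynomial.evalRingHom 1).comp q = e :=
    MvPolynomial.ringHom_ext (fun r => by simp [q]) fun j => by
      simp only [q, MvPolynomial.eval₂Hom_X', RingHom.comp_apply]
      split_ifs with h <;> simp
  intro x y h
  rw [h1] at h
  apply he
  have h3 : q x = q y := Polynomial.coe_injective _ h
  rw [← h2, RingHom.comp_apply, RingHom.comp_apply, h3]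

open PowerSeries in
theorem vclus_b {K : Type} [Field K] (κ : k⟦X⟧ →+* K) :
    (∀ x, PowerSeries.map κ (swp k (PowerSeries.C (PowerSeries.C x))) =
      PowerSeries.C (κ (PowerSeries.C x))) ∧ PowerSeries.map κ (swp k (PowerSeries.C X)) = X ∧
      PowerSeries.map κ (swp k X) = PowerSeries.C (κ X) :=
  ⟨fun x => by simp [swp_C], by simp [swp_C], by simp [swp_X]⟩

open PowerSeries in
theorem vclus_core (h : C' ⊆ C) {l : Fin d → k} (hl : Function.Injective l) (hl0 : ∀ j, l j ≠ 0)
    {c : Fin d → Fin d → k⟦X⟧}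
    (hc : ∀ j i, j ≠ i → (vclusL C' l j - vclusL C' l i) * c j i = X)
    {w : Seq d → Fin d → k⟦X⟧⟦X⟧} {ξ : Seq d → k⟦X⟧⟦X⟧}
    (nf : NF (fun j i => if j ∈ C ∧ i ∈ C then X * PowerSeries.C (c j i) else 0) w ξ)
    {K : Type} [Field K] (κ : k⟦X⟧ →+* K) (hκ : Function.Injective κ) (g : K →+* K)
    (g1 : ∀ j, g (κ (PowerSeries.C (l j))) = κ (PowerSeries.C (l j))) (g2 : g (κ X) = κ X)
    {s t : Seq d} (hs : Term C' s) (ha : Adm C' s t)
    (g3 : ∀ i j, g (κ (PowerSeries.map constantCoeff (w (shf s i) j))) =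
      κ (PowerSeries.map constantCoeff (w (shf t i) j))) (j : Fin d) :
    PowerSeries.map g (PowerSeries.map κ (swp k (w s j))) = PowerSeries.map κ (swp k (w t j)) := by
  let β : k⟦X⟧⟦X⟧ →+* K⟦X⟧ := (PowerSeries.map κ).comp (swp k)
  let G : K⟦X⟧ →+* K⟦X⟧ := PowerSeries.map g
  let m : Fin d → K := fun j => κ (PowerSeries.C (l j))
  let lam : Fin d → K⟦X⟧ := fun j =>
    if j ∈ C' then X * PowerSeries.C (m j) else PowerSeries.C (m j)
  have b1 : ∀ j, β (PowerSeries.C (vclusL C' l j)) = lam j := fun j => by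
    simp only [vclusL, lam, m]
    split_ifs <;> simp [β, swp_C]
  have b2 : β (PowerSeries.C X * X) = X * PowerSeries.C (κ X) := by simp [β, swp_C, swp_X]
  have b4 : ∀ f, constantCoeff (β f) = κ (PowerSeries.map constantCoeff f) := fun f => by
    rw [← const_swp]; rfl
  have b5 : ∀ f, constantCoeff (G f) = g (constantCoeff f) := fun f => rfl
  have c1 : ∀ j, G (lam j) = lam j := fun j => by
    simp only [lam, m]
    split_ifs <;> simp [G, g1]
  have c2 : G (X * PowerSeries.C (κ X)) = X * PowerSeries.C (κ X) := by simp [G, g2]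
  have hX : (PowerSeries.C X * X : k⟦X⟧⟦X⟧) ≠ 0 :=
    mul_ne_zero ((map_ne_zero_iff _ C_injective).2 X_ne_zero) X_ne_zero
  have clu : Clu C (fun j => PowerSeries.C (vclusL C' l j)) (PowerSeries.C X * X) X
      (fun j i => if j ∈ C ∧ i ∈ C then X * PowerSeries.C (c j i) else 0 :
        Fin d → Fin d → k⟦X⟧⟦X⟧) := by
    refine ⟨fun j i hj hi hji => ?_, fun j i hji => if_neg hji, fun j i _ => ?_, ps_haus,
      fun j i e => ?_, hX⟩
    · rw [if_pos ⟨hj, hi⟩, mul_left_comm, ← map_sub, ← map_mul, hc j i hji, mul_comm]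
    · split_ifs
      exacts [Dvd.intro _ rfl, dvd_zero _]
    · by_contra hji
      have := hc j i hji
      rw [C_injective e, sub_self, zero_mul] at this
      exact X_ne_zero this.symm
  have stp : ∀ (u : Seq d) (i : ℤ), u i ∈ C → Stp C lam (X * PowerSeries.C (κ X))
      (fun j => β (w (shf u (i + 1)) j)) (lam (u i) + X * PowerSeries.C (κ X) * β (ξ (shf u i)))
      (fun j => β (w (shf u i) j)) := fun u i hi => by
    have := (clu.stp nf (s := shf u i) (by simpa using hi)).map β
    simpa only [sh_shf, shf_apply_zero, map_add, map_mul β _ (ξ _), b1, b2] using this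
  have hm : ∀ i, t i ∈ C ↔ s i ∈ C := (ha.mono h).mem_iff
  have := vclus_u (m := m) (lam := lam) (ν := κ X)
    (hκ.comp (C_injective.comp hl)) (fun j => (map_ne_zero_iff _ hκ).2
      ((map_ne_zero_iff _ C_injective).2 (hl0 j))) h (fun _ => rfl)
    (a := fun i j => G (β (w (shf s i) j))) (b := fun i j => β (w (shf t i) j))
    (x := fun i => lam (s i) + X * PowerSeries.C (κ X) * G (β (ξ (shf s i))))
    (y := fun i => lam (t i) + X * PowerSeries.C (κ X) * β (ξ (shf t i))) hs
    (fun i hi => ?_) (fun i hi => stp t i ((hm i).2 hi)) (fun i hi => ?_) (fun i j => ?_)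
    (fun i _ hi => ?_) (fun i hi => ⟨?_, PowerSeries.C (m (t i)) +
      PowerSeries.C (κ X) * β (ξ (shf t i)), ?_, ?_⟩)
  · simpa [G, β] using congrFun (congrFun this 0) j
  · have := (stp s i hi).map G
    simpa only [map_add, map_mul G _ (β _), c1, c2] using this
  · funext j
    have e : t i = s i := (ha i).1 fun e => hi (h e)
    rw [clu.out_val nf (by simpa using hi), clu.out_val nf (by simpa [e] using hi)]
    simp only [shf_apply_zero, e]
    split_ifs <;> simp
  · rw [X_dvd_iff, map_sub, b5, b4, b4, g3, sub_self]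
  · rw [(ha i).1 hi, add_sub_cancel_left, add_sub_cancel_left]
    exact ⟨⟨_, mul_assoc _ _ _⟩, ⟨_, mul_assoc _ _ _⟩⟩
  · simp only [lam, if_pos hi]
    exact dvd_add (Dvd.intro _ rfl) ⟨_, mul_assoc _ _ _⟩
  · simp only [lam, if_pos ((ha.mem_iff i).2 hi)]
    ring
  · have hi' := (ha.mem_iff i).2 hi
    have hD : (∑ j ∈ C', PowerSeries.map constantCoeff (w (shf t i) j) * ∏ k ∈ C'.erase j,
        (PowerSeries.C (l k) - (PowerSeries.C (l (t i)) +
          X * PowerSeries.map constantCoeff (ξ (shf t i))))) ≠ 0 := by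
      intro e
      have e1 := congrArg constantCoeff e
      have e2 : ∀ j, constantCoeff (PowerSeries.map constantCoeff (w (shf t i) j)) =
          if j = t i then (1 : k) else 0 := fun j => by
        have := nf.const clu.dvd (shf t i) j
        change constantCoeff (constantCoeff (w (shf t i) j)) = _
        rw [this, shf_apply_zero]
        split_ifs <;> simp
      simp only [map_sum, map_mul, e2, ite_mul, one_mul, zero_mul, Finset.sum_ite_eq', if_pos hi',
        map_prod, map_sub, map_add, constantCoeff_C, constantCoeff_X, add_zero, map_zero,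
        Finset.prod_eq_zero_iff, sub_eq_zero] at e1
      obtain ⟨j, hj, e3⟩ := e1
      exact Finset.ne_of_mem_erase hj (hl e3)
    have := hκ.ne hD
    simpa [b4, m] using this

end

theorem clus (h : C' ⊆ C) (γ : Gam A d) :
    ∃ (S : Type) (_ : CommRing S) (β β' : RC A C →+* S), Function.Injective β ∧
      Function.Injective β' ∧
      (∀ a, β' (algebraMap (Polynomial (AA A d)) _ a) = β (algebraMap (Polynomial (AA A d)) _ a)) ∧
      ∀ s t, Term C' s → Act C' γ s t → ∀ j, β' (zC A C s j) = β (zC A C t j) := by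
  let k := FractionRing (AA A d)
  let e : AA A d →+* k := algebraMap _ _
  have he : Function.Injective e := IsFractionRing.injective (AA A d) _
  have hl : Function.Injective fun j => e (MvPolynomial.X j) := he.comp MvPolynomial.X_injective
  have hl0 : ∀ j, e (MvPolynomial.X j) ≠ 0 := fun j =>
    (map_ne_zero_iff _ he).2 (MvPolynomial.X_ne_zero j)
  choose c hc using vclus_c (C' := C') hl hl0
  obtain ⟨w, ξ, nf⟩ := exists_NF (fun j i => if j ∈ C ∧ i ∈ C then
      PowerSeries.X * PowerSeries.C (c j i) else 0) fun _ _ _ => by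
    split_ifs
    exacts [Dvd.intro _ rfl, dvd_zero _]
  obtain ⟨α, hα, a1, a2, a3⟩ := exists_alphaC C (vclusP C' e) (vclusP_inj he)
    (fun j i _ _ hji => by simpa [vclusP] using (hc j i hji).1) nf
  have hu : ∀ y : Submonoid.powers (Dl A d), IsUnit (e y) := fun y =>
    ((map_ne_zero_iff _ he).2 (nonZeroDivisors.ne_zero
      (powers_le_nonZeroDivisors_of_noZeroDivisors Dl_ne y.2))).isUnit
  let Φ : BB A d →+* k := IsLocalization.lift hu
  have hΦ : Function.Injective Φ := (IsLocalization.lift_injective_iff hu).2 fun x y => by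
    rw [AB_inj.eq_iff, he.eq_iff]
  have hΦa : ∀ x, Φ (algebraMap _ _ x) = e x := IsLocalization.lift_eq hu
  have hw := (NF.unique PowerSeries.X ps_haus
    (fun j i hji => by simpa using map_dvd (PowerSeries.map Φ) (tC_dvd A C' j i hji))
    ((nf.map (PowerSeries.map PowerSeries.constantCoeff)).congr
      (t' := fun j i => PowerSeries.map Φ (tC A C' j i)) fun j i hji => by
        by_cases h1 : j ∈ C' ∧ i ∈ C'
        · have h2 := (hc j i hji).2
          rw [if_pos h1] at h2
          rw [if_pos ⟨h h1.1, h h1.2⟩, tC, if_pos h1, t0, map_mul, map_mul, PowerSeries.map_X,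
            PowerSeries.map_X, PowerSeries.map_C, PowerSeries.map_C, h2,
            map_inverse_of_unit _ (lB_unit hji), map_sub, lB, lB, hΦa, hΦa, Ring.inverse_eq_inv']
        · have h2 := (hc j i hji).2
          rw [if_neg h1] at h2
          rw [tC, if_neg h1]
          split_ifs <;> simp [h2])
    ((nfC A C').map (PowerSeries.map Φ))).1
  let K := AlgebraicClosure (FractionRing (PowerSeries k))
  let κ : PowerSeries k →+* K := algebraMap _ _
  have hκ : Function.Injective κ :=
    (algebraMap (FractionRing (PowerSeries k)) K).injective.comp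
      (IsFractionRing.injective (PowerSeries k) _)
  have : Algebra.IsAlgebraic (PowerSeries (BB A d)) (Om A d) := by
    have : Algebra.IsAlgebraic (PowerSeries (BB A d)) (FractionRing (PowerSeries (BB A d))) :=
      IsLocalization.isAlgebraic _ (nonZeroDivisors (PowerSeries (BB A d)))
    exact Algebra.IsAlgebraic.trans _ (FractionRing (PowerSeries (BB A d))) _
  obtain ⟨ψ, hψ⟩ := ZTree.lift_hom (S := Om A d) io_inj (κ.comp (PowerSeries.map Φ))
    (hκ.comp (PowerSeries.map_injective _ hΦ))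
  obtain ⟨g, hg⟩ := ZTree.ext_equiv ψ γ.toRingEquiv
  have g0 : ∀ p : Polynomial (AA A d), g (κ (PowerSeries.map Φ (algebraMap _ _ p))) =
      κ (PowerSeries.map Φ (algebraMap _ _ p)) := fun p => by
    have h1 := hψ (algebraMap _ _ p)
    rw [RingHom.comp_apply] at h1
    rw [← h1, hg, ← IsScalarTower.algebraMap_apply]
    exact congrArg ψ (γ.commutes p)
  have g1 : ∀ a, g (κ (PowerSeries.C (e a))) = κ (PowerSeries.C (e a)) := fun a => by
    simpa only [alg_C, PowerSeries.map_C, hΦa] using g0 (Polynomial.C a)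
  have g2 : g (κ PowerSeries.X) = κ PowerSeries.X := by
    simpa only [alg_X, PowerSeries.map_X] using g0 Polynomial.X
  let β : PowerSeries (PowerSeries k) →+* PowerSeries K := (PowerSeries.map κ).comp (swp k)
  let G : PowerSeries K →+* PowerSeries K := PowerSeries.map (g : K →+* K)
  have hβ : Function.Injective β := (PowerSeries.map_injective _ hκ).comp swp_inj
  have c1 : ∀ a, G (β (PowerSeries.C (PowerSeries.C (e a)))) =
      β (PowerSeries.C (PowerSeries.C (e a))) := fun a => by
    have h1 : β _ = _ := (vclus_b κ).1 (e a)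
    rw [h1]
    exact (PowerSeries.map_C _ _).trans (congrArg _ (g1 a))
  have c2 : G (β (PowerSeries.C PowerSeries.X)) = β (PowerSeries.C PowerSeries.X) := by
    have h1 : β _ = _ := (vclus_b κ).2.1
    rw [h1]
    exact PowerSeries.map_X _
  have c3 : G (β PowerSeries.X) = β PowerSeries.X := by
    have h1 : β _ = _ := (vclus_b κ).2.2
    rw [h1]
    exact (PowerSeries.map_C _ _).trans (congrArg _ g2)
  refine ⟨PowerSeries K, inferInstance, β.comp α, (G.comp β).comp α, hβ.comp hα,
    ((PowerSeries.map_injective (g : K →+* K) g.injective).comp hβ).comp hα, fun x => ?_,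
    fun s t hs ha j => ?_⟩
  · have e1 : ((G.comp β).comp PowerSeries.C).comp (vclusP C' e) =
        (β.comp PowerSeries.C).comp (vclusP C' e) :=
      MvPolynomial.ringHom_ext (fun r => by simp [vclusP, c1]) fun j => by
        simp only [vclusP, vclusL, MvPolynomial.eval₂Hom_X', RingHom.comp_apply]
        split_ifs <;> simp only [map_mul, c1, c2]
    have : ((G.comp β).comp α).comp (algebraMap (Polynomial (AA A d)) _) =
        (β.comp α).comp (algebraMap (Polynomial (AA A d)) _) :=
      Polynomial.ringHom_ext (fun x => by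
        simp only [RingHom.comp_apply, a1]; exact DFunLike.congr_fun e1 x)
        (by simp only [RingHom.comp_apply, a2, map_mul, c2, c3])
    exact DFunLike.congr_fun this x
  · simp only [RingHom.comp_apply, a3]
    refine vclus_core h hl hl0 (fun j i hji => (hc j i hji).1) nf κ hκ (g : K →+* K)
      (fun j => g1 _) g2 hs (ha.adm hs) (fun i j => ?_) j
    have e : ∀ u, κ (PowerSeries.map PowerSeries.constantCoeff (w u j)) = ψ (st A C' u j) :=
      fun u => by rw [congrFun (congrFun hw u) j]; exact (hψ _).symm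
    rw [e, e, ← ha i j]
    exact hg _

theorem clus_tree (h : C' ⊆ C) {γ : Gam A d} {s t : Seq d} (hs : Term C s) (ha : Act C' γ s t) :
    ∃ δ : Gam A d, Act C δ s t := by
  obtain ⟨S, _, β, β', hβ, hβ', hb, hz⟩ := clus h γ
  obtain ⟨δ, hδ⟩ := ext_gam (RC A C) β β' hβ hβ' hb
    (fun p : ℤ × Fin d => zC A C (shf s p.1) p.2) (fun p => zC A C (shf t p.1) p.2)
    (fun p => hz _ _ ((hs.mono h).shf p.1) (ha.shf p.1) p.2) fun p => alg_wC (hs.shf p.1) p.2
  exact ⟨δ, fun i j => hδ (i, j)⟩

theorem clus_per (I : Finset ℕ) (h : C' ≠ Finset.univ) (γ : Gam A d) :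
    ∃ g : GG A d I, ∀ w : W d I, Act C' γ w.1 (g • w).1 := by
  obtain ⟨S, _, β, β', hβ, hβ', hb, hz⟩ := clus (C := Finset.univ) (Finset.subset_univ C') γ
  have hT : ∀ w : W d I, Term C' w.1 := fun w => let ⟨_, _, hn⟩ := w.2; hn.term h
  have hp : ∀ w : W d I, ∃ u : W d I, Act C' γ w.1 u.1 := fun w => by
    obtain ⟨t, ht⟩ := exists_actC γ (hT w)
    obtain ⟨n, hI, hn⟩ := w.2
    refine ⟨⟨t, n, hI, hn.1, fun i => ht.eq ht (by rw [shf_per hn]), fun j => ?_⟩, ht⟩
    obtain ⟨i, rfl⟩ := hn.2.2 j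
    by_cases hi : w.1 i ∈ C'
    · obtain ⟨i', -, e, -⟩ := ((ht.adm (hT w) i).2 _).1 (occ_self hi)
      exact ⟨i', e⟩
    · exact ⟨i, (ht.adm (hT w) i).1 hi⟩
  choose p hp using hp
  have hle : RR A d I ≤ RC A Finset.univ := Algebra.adjoin_mono (by
    rintro _ ⟨⟨s, j⟩, rfl⟩
    exact ⟨(s.1, j), by rw [wC_univ]⟩)
  have hz' : ∀ s j, Subalgebra.inclusion hle (zw A s j) = zC A Finset.univ s.1 j := fun s j =>
    Subtype.ext (congrFun (congrFun (wC_univ A) s.1) j).symm
  obtain ⟨g, hg⟩ := aut_of_pair (β.comp (Subalgebra.inclusion hle).toRingHom)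
    (β'.comp (Subalgebra.inclusion hle).toRingHom)
    (hβ.comp (Subalgebra.inclusion_injective hle)) (hβ'.comp (Subalgebra.inclusion_injective hle))
    (fun a => hb a) p fun s j => by
      change β' (Subalgebra.inclusion hle _) = β (Subalgebra.inclusion hle _)
      rw [hz', hz']
      exact hz _ _ (hT s) (hp s) j
  exact ⟨g, fun w => by rw [hg]; exact hp w⟩

end Pool.Agent.MP_9b2bac_nt.Z

end

section

/- One step of the normal form: existence, uniqueness, descent to a subring. -/

set_option autoImplicit false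

namespace Pool.Agent.MP_9b2bac_nt.Z

open Finset

variable {d : ℕ}

theorem fn_one {B : Type} [CommRing B] (y : Fin d) (a : PowerSeries B)
    (b σ : Fin d → PowerSeries B) (hb : ∀ j, j ≠ y → PowerSeries.X ∣ b j)
    (hσ : ∀ j, j ≠ y → PowerSeries.X ∣ σ j) :
    ∃ (w : Fin d → PowerSeries B) (z : PowerSeries B), (∀ j, j ≠ y → w j = b j + σ j * z * w j) ∧
      ∑ j, w j = 1 ∧ z * w y = -a := by
  classical
  let o : (Option (Fin d) → PowerSeries B) → Fin d → PowerSeries B := fun x j =>
    b j + σ j * x none * x (some j)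
  let T : (Option (Fin d) → PowerSeries B) → Option (Fin d) → PowerSeries B := fun x i =>
    i.elim (-a + x none * ∑ j ∈ univ.erase y, o x j) fun j => if j = y then 0 else o x j
  obtain ⟨x, hx⟩ := exists_fixed T (by
    intro n x x' h
    have h1 : ∀ j, j ≠ y → (PowerSeries.X : PowerSeries B) ^ (n + 1) ∣ o x j - o x' j := by
      intro j hj
      have : o x j - o x' j = σ j * (x none * (x (some j) - x' (some j)) +
          (x none - x' none) * x' (some j)) := by simp only [o]; ring
      rw [this, pow_succ']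
      exact mul_dvd_mul (hσ _ hj) (dvd_add ((h _).mul_left _) ((h _).mul_right _))
    rintro (_ | j)
    · have h2 : (PowerSeries.X : PowerSeries B) ^ (n + 1) ∣
          ∑ j ∈ univ.erase y, o x j - ∑ j ∈ univ.erase y, o x' j := by
        rw [← sum_sub_distrib]; exact dvd_sum fun j hj => h1 j (ne_of_mem_erase hj)
      have h3 : PowerSeries.X ∣ ∑ j ∈ univ.erase y, o x' j := dvd_sum fun j hj =>
        dvd_add (hb _ (ne_of_mem_erase hj))
          (((hσ _ (ne_of_mem_erase hj)).mul_right _).mul_right _)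
      have : T x none - T x' none =
          x none * (∑ j ∈ univ.erase y, o x j - ∑ j ∈ univ.erase y, o x' j) +
          (x none - x' none) * ∑ j ∈ univ.erase y, o x' j := by
        simp only [T, Option.elim]; ring
      rw [this]
      refine dvd_add (h2.mul_left _) ?_
      rw [pow_succ]; exact mul_dvd_mul (h _) h3
    · simp only [T, Option.elim]
      split_ifs with hj
      · simp
      · exact h1 j hj)
  have e1 : ∀ j, j ≠ y → x (some j) = o x j := fun j hj => by
    have := congrFun hx (some j)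
    simp only [T, Option.elim, if_neg hj] at this
    exact this.symm
  have e2 : x none = -a + x none * ∑ j ∈ univ.erase y, o x j := (congrFun hx none).symm
  refine ⟨fun j => if j = y then 1 - ∑ j ∈ univ.erase y, o x j else x (some j), x none,
    fun j hj => ?_, ?_, ?_⟩
  · simp only [if_neg hj]; exact e1 j hj
  · rw [← add_sum_erase _ _ (mem_univ y), if_pos rfl,
      sum_congr rfl fun j hj => (if_neg (ne_of_mem_erase hj)).trans (e1 j (ne_of_mem_erase hj))]
    ring
  · simp only [if_true]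
    linear_combination e2

theorem fn_uniq {R : Type} [CommRing R] {π : R} (hH : ∀ x : R, (∀ n, π ^ n ∣ x) → x = 0)
    (y : Fin d) {τ w' w₁ w₂ : Fin d → R} {ξ₁ ξ₂ : R} (hτ : ∀ j, j ≠ y → π ∣ τ j)
    (o1 : ∀ j, j ≠ y → w₁ j = τ j * (w' j + ξ₁ * w₁ j)) (s1 : ∑ j, w₁ j = 1)
    (d1 : ξ₁ * w₁ y = - w' y)
    (o2 : ∀ j, j ≠ y → w₂ j = τ j * (w' j + ξ₂ * w₂ j)) (s2 : ∑ j, w₂ j = 1)
    (d2 : ξ₂ * w₂ y = - w' y) : w₁ = w₂ ∧ ξ₁ = ξ₂ := by
  have t1 : w₁ y = 1 - ∑ j ∈ univ.erase y, w₁ j := by
    rw [← s1, ← add_sum_erase _ _ (mem_univ y)]; ring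
  have t2 : w₂ y = 1 - ∑ j ∈ univ.erase y, w₂ j := by
    rw [← s2, ← add_sum_erase _ _ (mem_univ y)]; ring
  have key : ∀ n, (∀ j, π ^ n ∣ w₁ j - w₂ j) ∧ π ^ n ∣ ξ₁ - ξ₂ := by
    intro n
    induction n with
    | zero => simp
    | succ n ih =>
      have h1 : ∀ j, j ≠ y → π ^ (n + 1) ∣ w₁ j - w₂ j := by
        intro j hj
        have : w₁ j - w₂ j = τ j * (ξ₁ * (w₁ j - w₂ j) + (ξ₁ - ξ₂) * w₂ j) := by
          linear_combination o1 j hj - o2 j hj
        rw [this, pow_succ']
        exact mul_dvd_mul (hτ _ hj) (dvd_add ((ih.1 _).mul_left _) (ih.2.mul_right _))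
      have h2 : ∀ j, π ^ (n + 1) ∣ w₁ j - w₂ j := by
        intro j
        by_cases hj : j = y
        · subst hj
          rw [t1, t2, sub_sub_sub_cancel_left, ← neg_sub, dvd_neg, ← sum_sub_distrib]
          exact dvd_sum fun j hj => h1 j (ne_of_mem_erase hj)
        · exact h1 j hj
      refine ⟨h2, ?_⟩
      have h3 : π ∣ ∑ j ∈ univ.erase y, w₁ j := dvd_sum fun j hj => by
        rw [o1 j (ne_of_mem_erase hj)]
        exact (hτ _ (ne_of_mem_erase hj)).mul_right _
      have : ξ₁ - ξ₂ = - ξ₂ * (w₁ y - w₂ y) + (ξ₁ - ξ₂) * ∑ j ∈ univ.erase y, w₁ j := by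
        linear_combination d1 - d2 - (ξ₁ - ξ₂) * t1
      rw [this]
      refine dvd_add ((h2 _).mul_left _) ?_
      rw [pow_succ]; exact mul_dvd_mul ih.2 h3
  exact ⟨funext fun j => sub_eq_zero.1 (hH _ fun n => (key n).1 j),
    sub_eq_zero.1 (hH _ fun n => (key n).2)⟩

section Ev

variable {R : Type} [CommRing R] [IsDomain R] {C : Finset (Fin d)} {lam : Fin d → R} {ε π : R}
  {t : Fin d → Fin d → R} {w : Seq d → Fin d → R} {ξ : Seq d → R} {s : Seq d}

/-- Evaluation of the factorisation at one of the roots. -/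
theorem Clu.fn_ev (h : Clu C lam ε π t) (nf : NF t w ξ) (hs : Term C s) {a : Fin d} (ha : a ∈ C) :
    -ξ (Function.update s 0 a) * ∏ b ∈ C.erase a, (1 - t a b * ξ (Function.update s 0 b)) =
      w (sh s) a := by
  have h1 := congrArg (Polynomial.eval (lam a)) (h.fac nf hs)
  simp only [GP, Polynomial.eval_add, Polynomial.eval_mul, Polynomial.eval_prod,
    Polynomial.eval_finsetSum, Polynomial.eval_sub, Polynomial.eval_X, Polynomial.eval_C] at h1
  rw [prod_eq_zero ha (sub_self _), zero_add, ← add_sum_erase _ _ ha,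
    sum_eq_zero (s := C.erase a) fun j hj => by
      rw [prod_eq_zero (mem_erase.2 ⟨(ne_of_mem_erase hj).symm, ha⟩) (sub_self _), mul_zero],
    add_zero, ← mul_prod_erase _ _ ha,
    prod_congr (f := fun b => lam a - (lam b + ε * ξ (Function.update s 0 b)))
      (g := fun b => (lam a - lam b) * (1 - t a b * ξ (Function.update s 0 b))) rfl
      fun b hb => by
        linear_combination ξ (Function.update s 0 b) *
          h.mem a b ha (mem_of_mem_erase hb) (ne_of_mem_erase hb).symm,
    prod_mul_distrib] at h1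
  have h2 : ε * ∏ k ∈ C.erase a, (lam a - lam k) ≠ 0 := mul_ne_zero h.eps
    (prod_ne_zero_iff.2 fun k hk => sub_ne_zero.2 (h.inj.ne (ne_of_mem_erase hk).symm))
  apply mul_left_cancel₀ h2
  linear_combination -h1

end Ev

section Lift

variable {P R : Type} [CommRing P] [CommRing R] (ι : P →+* R) {C : Finset (Fin d)}
  {lam : Fin d → R} {ε π : R} {t : Fin d → Fin d → P} {w : Seq d → Fin d → R} {ξ : Seq d → R}

theorem Clu.fn_lift (h : Clu C lam ε π fun j i => ι (t j i)) (nf : NF (fun j i => ι (t j i)) w ξ)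
    (s : Seq d) {a' a : Fin d → P} {z : P} (ha' : ∀ j, ι (a' j) = w (sh s) j)
    (o : ∀ j, j ≠ s 0 → a j = t j (s 0) * (a' j + z * a j)) (hs : ∑ j, a j = 1)
    (hd : z * a (s 0) = - a' (s 0)) : (∀ j, ι (a j) = w s j) ∧ ι z = ξ s := by
  have := fn_uniq h.haus (s 0) (τ := fun j => ι (t j (s 0))) (w' := w (sh s))
    (w₁ := fun j => ι (a j)) (w₂ := w s) (ξ₁ := ι z) (ξ₂ := ξ s) (fun j hj => h.dvd _ _ hj)
    (fun j hj => by rw [← ha', ← map_mul, ← map_add, ← map_mul, ← o j hj])
    (by rw [← map_sum, hs, map_one]) (by rw [← map_mul, hd, map_neg, ha'])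
    (fun j hj => nf.off s j hj) (nf.sum s) (nf.diag s)
  exact ⟨congrFun this.1, this.2⟩

end Lift

end Pool.Agent.MP_9b2bac_nt.Z

end

section

/- Descent of the states of the word to the small ring along the collision of two roots. -/

set_option autoImplicit false

namespace Pool.Agent.MP_9b2bac_nt.Z

open Finset

variable {d : ℕ} {B R k : Type} [CommRing B] [CommRing R] [Field k]

/-- The shape of the coefficients along the collision. -/
structure FCol (C : Finset (Fin d)) (u v : Fin d) (ν : B) (e : B →+* k)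
    (ι : PowerSeries B →+* R) (t : Fin d → Fin d → PowerSeries B) : Prop where
  uv : t u v = PowerSeries.C ν
  vu : t v u = - PowerSeries.C ν
  oth : ∀ j i, j ≠ i → ¬(j = u ∧ i = v) → ¬(j = v ∧ i = u) → PowerSeries.X ∣ t j i
  nz : ∀ y ∈ C, y ≠ u → y ≠ v → ∃ p, t v y = PowerSeries.X * p ∧
    e (PowerSeries.constantCoeff p) ≠ 0
  ev : e ν = 1
  inj : Function.Injective ι
  dvd : ∀ a, ι PowerSeries.X ∣ ι a → PowerSeries.X ∣ a

/-- The leading coefficient does not vanish under `e`. -/
def FNz (e : B →+* k) (a : PowerSeries B) : Prop :=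
  ∃ (K : ℕ) (p : PowerSeries B), a = PowerSeries.X ^ K * p ∧ e (PowerSeries.constantCoeff p) ≠ 0

theorem FNz.mul {e : B →+* k} {a b : PowerSeries B} (ha : FNz e a) (hb : FNz e b) :
    FNz e (a * b) := by
  obtain ⟨K, p, rfl, hp⟩ := ha
  obtain ⟨L, q, rfl, hq⟩ := hb
  exact ⟨K + L, p * q, by ring, by rw [map_mul, map_mul]; exact mul_ne_zero hp hq⟩

theorem fn_unit {U : PowerSeries B} (hU : PowerSeries.X ∣ U - 1) :
    ∃ V, U * V = 1 ∧ PowerSeries.X ∣ V - 1 := by
  have h1 : PowerSeries.constantCoeff U = 1 := by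
    have := PowerSeries.X_dvd_iff.1 hU
    rwa [map_sub, map_one, sub_eq_zero] at this
  obtain ⟨V, hV⟩ := (PowerSeries.isUnit_iff_constantCoeff.2 (h1 ▸ isUnit_one)).exists_right_inv
  refine ⟨V, hV, PowerSeries.X_dvd_iff.2 ?_⟩
  have := congrArg PowerSeries.constantCoeff hV
  rw [map_mul, h1, one_mul] at this
  rw [map_sub, this, sub_self]

theorem FNz.of_one {e : B →+* k} {V : PowerSeries B} (hV : PowerSeries.X ∣ V - 1) : FNz e V := by
  have := PowerSeries.X_dvd_iff.1 hV
  rw [map_sub, map_one, sub_eq_zero] at this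
  exact ⟨0, V, by simp, by simp [this]⟩

theorem FNz.cancel {e : B →+* k} {a U : PowerSeries B} (h : FNz e (a * U))
    (hU : PowerSeries.X ∣ U - 1) : FNz e a := by
  obtain ⟨V, hV, hV'⟩ := fn_unit hU
  have := h.mul (FNz.of_one hV')
  rwa [mul_assoc, hV, mul_one] at this

/-- The quadratic polynomial has no root of the given shape. -/
theorem fn_noroot [IsDomain B] {e : B →+* k} {ν : B} (he : e ν = 1) {a b : PowerSeries B}
    (hs : PowerSeries.constantCoeff (a + b) = 1 - ν) (hp : PowerSeries.X ∣ a * b)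
    (hz : FNz e (a * b)) (ha : PowerSeries.constantCoeff a ≠ 1 - ν) : False := by
  have h1 := PowerSeries.X_dvd_iff.1 hp
  rw [map_mul] at h1
  rw [map_add] at hs
  have hb : PowerSeries.constantCoeff b ≠ 0 := fun h => ha (by rw [← hs, h, add_zero])
  have ha0 := (mul_eq_zero.1 h1).resolve_right hb
  rw [ha0, zero_add] at hs
  obtain ⟨K, p, hK, hp'⟩ := hz
  obtain ⟨a', rfl⟩ : PowerSeries.X ^ K ∣ a := PowerSeries.X_prime.pow_dvd_of_dvd_mul_right K
    (fun h => hb (PowerSeries.X_dvd_iff.1 h)) ⟨p, hK⟩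
  rw [mul_assoc] at hK
  have := mul_left_cancel₀ (pow_ne_zero K PowerSeries.X_ne_zero) hK
  apply hp'
  rw [← this, map_mul, map_mul, hs, map_sub, he, map_one, sub_self, mul_zero]

variable {C : Finset (Fin d)} {u v : Fin d} {ν : B} {e : B →+* k} {ι : PowerSeries B →+* R}
  {t : Fin d → Fin d → PowerSeries B} {lam : Fin d → R} {ε π : R} {w : Seq d → Fin d → R}
  {ξ : Seq d → R} (c : FCol C u v ν e ι t) (h : Clu C lam ε π fun j i => ι (t j i))
  (nf : NF (fun j i => ι (t j i)) w ξ)

include c h nf in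
theorem fn_A (r : Seq d) (hw : ∀ j, ∃ a, ι a = w (sh r) j)
    (hτ : ∀ j, j ≠ r 0 → PowerSeries.X ∣ t j (r 0) ∨ w (sh r) j = 0) :
    (∀ j, ∃ a, ι a = w r j) ∧ ∃ z, ι z = ξ r := by
  classical
  choose a' ha' using hw
  let τ : Fin d → PowerSeries B := fun j => if PowerSeries.X ∣ t j (r 0) then t j (r 0) else 0
  have hτ' : ∀ j, PowerSeries.X ∣ τ j := fun j => by
    simp only [τ]; split_ifs with hj
    exacts [hj, dvd_zero _]
  obtain ⟨a, z, h1, h2, h3⟩ := fn_one (r 0) (a' (r 0)) (fun j => τ j * a' j) τ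
    (fun j _ => (hτ' j).mul_right _) fun j _ => hτ' j
  have := h.fn_lift ι nf r ha' (a := a) (z := z) (fun j hj => ?_) h2 h3
  · exact ⟨fun j => ⟨_, this.1 j⟩, _, this.2⟩
  · have h4 := h1 j hj
    simp only [τ] at h4
    split_ifs at h4 with hj'
    · linear_combination h4
    · have h5 : a' j = 0 := c.inj (by rw [ha', (hτ j hj).resolve_left hj', map_zero])
      rw [zero_mul, zero_mul, zero_mul, add_zero] at h4
      rw [h4, h5]; ring

include c h nf in
theorem fn_B (r : Seq d) (hw : ∀ j, ∃ a, ι a = w (sh r) j) (h0 : w (sh r) (r 0) = 0) :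
    (∀ j, ∃ a, ι a = w r j) ∧ ∃ z, ι (PowerSeries.X * z) = ξ r := by
  classical
  choose a' ha' using hw
  have := h.fn_lift ι nf r ha' (z := 0)
    (a := fun j => if j = r 0 then 1 - ∑ j ∈ univ.erase (r 0), t j (r 0) * a' j
      else t j (r 0) * a' j) (fun j hj => by simp only [if_neg hj]; ring) (by
      rw [← add_sum_erase _ _ (mem_univ (r 0)), if_pos rfl,
        sum_congr rfl fun j hj => if_neg (ne_of_mem_erase hj)]
      ring) (by rw [c.inj (by rw [ha', h0, map_zero] : ι (a' (r 0)) = ι 0)]; ring)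
  exact ⟨fun j => ⟨_, this.1 j⟩, 0, by rw [mul_zero]; exact this.2⟩

include c h nf in
theorem fn_C (r : Seq d) (hw : ∀ j, ∃ a, ι a = w (sh r) j)
    (h0 : ι PowerSeries.X ∣ w (sh r) (r 0))
    (hτ : ∀ j, j ≠ r 0 → PowerSeries.X ∣ t j (r 0) ∨ ι PowerSeries.X ∣ w (sh r) j) :
    (∀ j, ∃ a, ι a = w r j) ∧ ∃ z, ι (PowerSeries.X * z) = ξ r := by
  choose a' ha' using hw
  obtain ⟨a0, ha0⟩ := c.dvd _ (ha' _ ▸ h0)
  obtain ⟨a, z, h1, h2, h3⟩ := fn_one (r 0) a0 (fun j => t j (r 0) * a' j)
    (fun j => t j (r 0) * PowerSeries.X)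
    (fun j hj => (hτ j hj).elim (fun h => h.mul_right _) fun h => (c.dvd _ (ha' _ ▸ h)).mul_left _)
    fun j _ => Dvd.intro_left _ rfl
  have := h.fn_lift ι nf r ha' (a := a) (z := PowerSeries.X * z)
    (fun j hj => by linear_combination h1 j hj) h2
    (by rw [ha0]; linear_combination PowerSeries.X * h3)
  exact ⟨fun j => ⟨_, this.1 j⟩, _, this.2⟩

include c nf in
theorem fn_dvd (r : Seq d) {j : Fin d} (hj : j ≠ r 0) (h1 : ¬(j = u ∧ r 0 = v))
    (h2 : ¬(j = v ∧ r 0 = u)) : ι PowerSeries.X ∣ w r j := by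
  rw [nf.off r j hj]
  exact (map_dvd ι (c.oth _ _ hj h1 h2)).mul_right _

variable [IsDomain R] {s : Seq d} {q : ℤ} (huv : u ≠ v) (hs : Term C s)
  (hC : ∀ i : ℤ, 1 ≤ i → i ≤ q → s i ∈ C) (hv : s q = v)
  (hv' : ∀ i : ℤ, 1 ≤ i → i < q → s i ≠ v) (hu : ¬ Occ C s q u)
  (huu : ∀ i : ℤ, 1 ≤ i → i < q → s i = u → s (i + 1) ≠ u) (hq : 3 ≤ q) (h1 : s 1 = u)

include h nf hs hu hq h1 hC in
theorem fn_occ {i : ℤ} (hi : q ≤ i) (hk : ∀ k, 1 ≤ k → k < i → s k ∈ C) : w (shf s i) u = 0 := by
  by_contra h0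
  obtain ⟨i', a1, a2, a3⟩ := occ_shf.1
    ((h.occ nf (hs.shf i) u (h1 ▸ hC 1 le_rfl (by omega))).1 h0)
  refine hu ⟨i', by omega, a2, fun k b1 b2 => ?_⟩
  by_cases b : k < i
  · exact hk k (by omega) b
  · exact a3 k (by omega) b2

include c h nf huv hs hC hv' hu huu hq h1 in
theorem fn_F1 (m : ℕ) : ∀ i : ℤ, 1 ≤ i → (∀ k, 1 ≤ k → k < i → s k ∈ C) → s (i + m) ∉ C →
    (∀ j, ∃ a, ι a = w (shf s i) j) ∧ (s i ∈ C → ∃ z, ι z = ξ (shf s i)) ∧
      (s i = u → ∃ z, ι (PowerSeries.X * z) = ξ (shf s i)) := by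
  have huC : u ∈ C := h1 ▸ hC 1 le_rfl (by omega)
  have base : ∀ i : ℤ, s i ∉ C → (∀ j, ∃ a, ι a = w (shf s i) j) ∧
      (s i ∈ C → ∃ z, ι z = ξ (shf s i)) ∧
      (s i = u → ∃ z, ι (PowerSeries.X * z) = ξ (shf s i)) := fun i hi => by
    refine ⟨fun j => ?_, fun a => absurd a hi, fun a => absurd (a ▸ huC) hi⟩
    rw [h.out_val nf (by simpa using hi)]
    split_ifs
    exacts [⟨1, map_one _⟩, ⟨0, map_zero _⟩]
  induction m with
  | zero => intro i _ _ hi; exact base i (by simpa using hi)
  | succ m ih =>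
    intro i hi hk hm
    by_cases hiC : s i ∈ C
    swap
    · exact base i hiC
    have hk' : ∀ k, 1 ≤ k → k < i + 1 → s k ∈ C := fun k a b => by
      rcases (Int.lt_add_one_iff.1 b).eq_or_lt with rfl | b'
      exacts [hiC, hk k a b']
    have hw := (ih (i + 1) (by omega) hk'
      (by rwa [Nat.cast_succ, add_comm (m : ℤ), ← add_assoc] at hm)).1
    have hz : q ≤ i + 1 → w (shf s (i + 1)) u = 0 := fun a => fn_occ h nf hs hC hu hq h1 a hk'
    rw [← sh_shf] at hw hz
    by_cases hy : s i = u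
    · have hiq : i < q := by
        by_contra a
        exact hu ⟨i, by omega, hy, fun k b1 b2 => hk' k (by omega) (by omega)⟩
      have : (∀ j, ∃ a, ι a = w (shf s i) j) ∧ ∃ z, ι (PowerSeries.X * z) = ξ (shf s i) := by
        by_cases hy' : s (i + 1) = v
        · refine fn_B c h nf _ hw ?_
          rw [shf_apply_zero, hy]
          exact hz (by by_contra a; exact hv' (i + 1) (by omega) (by omega) hy')
        · have hy'' := huu i hi hiq hy
          have e0 : sh (shf s i) 0 = s (i + 1) := by rw [sh_shf, shf_apply_zero]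
          refine fn_C c h nf _ hw ?_ fun j hj => ?_
          · rw [shf_apply_zero, hy]
            exact fn_dvd c nf _ (by rw [e0]; exact hy''.symm) (by rw [e0]; exact fun a => hy' a.2)
              fun a => huv a.1
          · rw [shf_apply_zero, hy] at hj ⊢
            by_cases hjv : j = v
            · right
              exact fn_dvd c nf _ (by rw [e0, hjv]; exact Ne.symm hy') (fun a => hj a.1)
                (by rw [e0]; exact fun a => hy'' a.2)
            · exact .inl (c.oth _ _ hj (fun a => hj a.1) fun a => hjv a.1)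
      exact ⟨this.1, fun _ => let ⟨z, hz⟩ := this.2; ⟨_, hz⟩, fun _ => this.2⟩
    · have := fn_A c h nf (shf s i) hw fun j hj => by
        rw [shf_apply_zero] at hj ⊢
        by_cases a : j = u ∧ s i = v
        · right
          rw [a.1]
          exact hz (by by_contra b; exact hv' i hi (by omega) a.2)
        · exact .inl (c.oth _ _ hj a fun b => hy b.2)
      exact ⟨this.1, fun _ => this.2, fun a => absurd a hy⟩

include c h nf huv hs hC hv' hu huu hq h1 in
theorem fn_F1' {i : ℤ} (hi : 1 ≤ i) (hi' : i ≤ q) :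
    (∀ j, ∃ a, ι a = w (shf s i) j) ∧ (∃ z, ι z = ξ (shf s i)) ∧
      (s i = u → ∃ z, ι (PowerSeries.X * z) = ξ (shf s i)) := by
  obtain ⟨m, hm⟩ := hs i
  have := fn_F1 c h nf huv hs hC hv' hu huu hq h1 m i hi (fun k a b => hC k a (by omega)) hm
  exact ⟨this.1, this.2.1 (hC i hi hi'), this.2.2⟩

include c h nf huv hs hC hv hv' hu huu hq h1 in
theorem fn_F2 (m : ℕ) : ∀ i : ℤ, 1 ≤ i → i + m = q → ∀ a, ι a = w (shf s i) v → FNz e a := by
  induction m with
  | zero =>
    intro i hi hm a ha
    obtain rfl : i = q := by simpa using hm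
    refine FNz.of_one (c.dvd _ ?_)
    have e0 : shf s i 0 = v := by rw [shf_apply_zero, hv]
    have := nf.diag_eq (shf s i)
    rw [e0] at this
    rw [map_sub, ha, this, map_one, sub_sub_cancel_left, dvd_neg]
    refine dvd_sum fun j hj => ?_
    by_cases hju : j = u
    · rw [hju, fn_occ h nf hs hC hu hq h1 le_rfl fun k a b => hC k a b.le]
      exact dvd_zero _
    · exact fn_dvd c nf _ (e0 ▸ ne_of_mem_erase hj) (fun a => hju a.1)
        fun a => ne_of_mem_erase hj a.1
  | succ m ih =>
    intro i hi hm a ha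
    push_cast at hm
    obtain ⟨a', ha'⟩ := (fn_F1' c h nf huv hs hC hv' hu huu hq h1 (i := i + 1) (by omega)
      (by omega)).1 v
    have hz := ih (i + 1) (by omega) (by omega) a' ha'
    obtain ⟨-, ⟨z, z1⟩, z2⟩ := fn_F1' c h nf huv hs hC hv' hu huu hq h1 hi (by omega)
    have hy := hv' i hi (by omega)
    have e1 := nf.off (shf s i) v (by rw [shf_apply_zero]; exact hy.symm)
    rw [shf_apply_zero, sh_shf, ← ha, ← ha', ← z1, ← map_mul, ← map_add, ← map_mul] at e1
    have e2 : a * (1 - t v (s i) * z) = t v (s i) * a' := by linear_combination c.inj e1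
    have e3 : FNz e (t v (s i)) ∧ PowerSeries.X ∣ t v (s i) * z := by
      by_cases hyu : s i = u
      · obtain ⟨z', hz'⟩ := z2 hyu
        rw [c.inj (z1.trans hz'.symm), hyu, c.vu]
        exact ⟨⟨0, - PowerSeries.C ν, by simp, by simp [c.ev]⟩, (Dvd.intro _ rfl).mul_left _⟩
      · obtain ⟨p, p1, p2⟩ := c.nz _ (hC i hi (by omega)) hyu hy
        rw [p1]
        exact ⟨⟨1, p, by simp, p2⟩, (Dvd.intro _ rfl).mul_right _⟩
    refine FNz.cancel (U := 1 - t v (s i) * z) (e2 ▸ e3.1.mul hz) ?_
    rw [sub_sub_cancel_left, dvd_neg]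
    exact e3.2

theorem fn_prod {T : Finset (Fin d)} {f : Fin d → PowerSeries B}
    (hf : ∀ b ∈ T, PowerSeries.X ∣ f b) : PowerSeries.X ∣ ∏ b ∈ T, (1 - f b) - 1 := by
  rw [PowerSeries.X_dvd_iff, map_sub, map_prod, prod_eq_one fun b hb => by
    rw [map_sub, PowerSeries.X_dvd_iff.1 (hf b hb), map_one, sub_zero], map_one, sub_self]

include c h nf huv hs hC hv hv' hu huu hq h1 in
theorem fn_F3 : (∀ j, ∃ a, ι a = w (sh s) j) ∧ ∃ S Q : PowerSeries B,
    ι (PowerSeries.C ν) * ξ (Function.update s 0 v) +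
      (1 + ι (PowerSeries.C ν) * ξ (Function.update s 0 u)) = ι S ∧
    ι (PowerSeries.C ν) * ξ (Function.update s 0 v) *
      (1 + ι (PowerSeries.C ν) * ξ (Function.update s 0 u)) = ι Q ∧
    PowerSeries.constantCoeff S = 1 - ν ∧ PowerSeries.X ∣ Q ∧ FNz e Q := by
  classical
  have huC : u ∈ C := h1 ▸ hC 1 le_rfl (by omega)
  have hvC : v ∈ C := hv ▸ hC q (by omega) le_rfl
  have e1 : sh s = shf s 1 := rfl
  have e2 : sh (sh s) = shf s 2 := by rw [e1, sh_shf]; rfl
  have e3 : sh s 0 = u := by rw [e1, shf_apply_zero, h1]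
  obtain ⟨hw, -, hξ⟩ := fn_F1' c h nf huv hs hC hv' hu huu hq h1 (i := 1) le_rfl (by omega)
  rw [← e1] at hw hξ
  refine ⟨hw, ?_⟩
  obtain ⟨z1, hz1⟩ := hξ h1
  have hx : ∀ b, ∃ z, b ≠ u → b ≠ v → ι z = ξ (Function.update s 0 b) := fun b => by
    by_cases hb : b ≠ u ∧ b ≠ v
    · obtain ⟨z, hz⟩ := (fn_A c h nf (Function.update s 0 b) (by rwa [h.sh_update nf hs])
        fun j hj => by
          rw [Function.update_self] at hj ⊢
          exact .inl (c.oth _ _ hj (fun a => hb.2 a.2) fun a => hb.1 a.2)).2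
      exact ⟨z, fun _ _ => hz⟩
    · exact ⟨0, fun a b => absurd ⟨a, b⟩ hb⟩
  choose x hx using hx
  choose a ha using hw
  have hnz : FNz e (a v) := fn_F2 c h nf huv hs hC hv hv' hu huu hq h1 (q - 1).toNat 1 le_rfl
    (by omega) _ (ha v)
  have d1 : PowerSeries.X ∣ a v := by
    have s2u : s 2 ≠ u := huu 1 le_rfl (by omega) h1
    have s2v : s 2 ≠ v := hv' 2 (by omega) (by omega)
    have d2 : ι PowerSeries.X ∣ w (sh (sh s)) v := by
      rw [e2]
      exact fn_dvd c nf _ (by rw [shf_apply_zero]; exact s2v.symm) (fun a => huv a.1.symm)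
        (by rw [shf_apply_zero]; exact fun a => s2u a.2)
    refine c.dvd _ ?_
    rw [ha, nf.off _ v (e3 ▸ huv.symm), ← hz1, map_mul]
    exact (dvd_add d2 ((Dvd.intro _ rfl).mul_right _)).mul_left _
  have d3 : PowerSeries.X ∣ a u - 1 := by
    refine c.dvd _ ?_
    have := nf.diag_eq (sh s)
    rw [e3] at this
    rw [map_sub, ha, this, map_one, sub_sub_cancel_left, dvd_neg]
    refine dvd_sum fun j hj => ?_
    by_cases hjv : j = v
    · rw [hjv, ← ha]; exact map_dvd ι d1
    · exact fn_dvd c nf _ (e3 ▸ ne_of_mem_erase hj) (fun a => ne_of_mem_erase hj a.1)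
        fun a => hjv a.1
  have ev : ∀ y y' : Fin d, y ∈ C → y' ∈ C → y ≠ y' → (y = u ∧ y' = v ∨ y = v ∧ y' = u) →
      ∃ V, PowerSeries.X ∣ V - 1 ∧ -ξ (Function.update s 0 y) *
        (1 - ι (t y y') * ξ (Function.update s 0 y')) = ι (a y * V) := by
    intro y y' hy hy' hyy' hor
    have f1 := h.fn_ev nf hs hy
    have f2 : ∀ b ∈ (C.erase y).erase y', b ≠ u ∧ b ≠ v := fun b hb => by
      have b1 := ne_of_mem_erase hb
      have b2 := ne_of_mem_erase (mem_of_mem_erase hb)
      rcases hor with ⟨rfl, rfl⟩ | ⟨rfl, rfl⟩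
      exacts [⟨b2, b1⟩, ⟨b1, b2⟩]
    rw [← mul_prod_erase _ _ (mem_erase.2 ⟨hyy'.symm, hy'⟩),
      prod_congr (s₁ := (C.erase y).erase y') (g := fun b => ι (1 - t y b * x b)) rfl
        fun b hb => by rw [map_sub, map_one, map_mul, hx b (f2 b hb).1 (f2 b hb).2],
      ← map_prod, ← ha] at f1
    obtain ⟨V, V1, V2⟩ := fn_unit (fn_prod (T := (C.erase y).erase y') (f := fun b => t y b * x b)
      fun b hb => (c.oth _ _ (ne_of_mem_erase (mem_of_mem_erase hb)).symm
        (fun a => (f2 b hb).2 a.2) fun a => (f2 b hb).1 a.2).mul_right _)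
    refine ⟨V, V2, ?_⟩
    rw [map_mul, ← f1, mul_assoc, mul_assoc, ← map_mul, V1, map_one, mul_one]
  obtain ⟨V, V1, V2⟩ := ev u v huC hvC huv (.inl ⟨rfl, rfl⟩)
  obtain ⟨W, W1, W2⟩ := ev v u hvC huC huv.symm (.inr ⟨rfl, rfl⟩)
  rw [c.uv] at V2
  rw [c.vu, map_neg] at W2
  refine ⟨1 + - PowerSeries.C ν * (a v * W) - PowerSeries.C ν * (a u * V),
    - PowerSeries.C ν * (a v * W), ?_, ?_, ?_, (d1.mul_right _).mul_left _, ?_⟩
  · simp only [map_sub, map_add, map_one, map_mul ι (- PowerSeries.C ν), map_neg,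
      map_mul ι (PowerSeries.C ν), ← V2, ← W2]
    ring
  · simp only [map_mul ι (- PowerSeries.C ν), map_neg, ← W2]
    ring
  · have g1 := PowerSeries.X_dvd_iff.1 d1
    have g2 := PowerSeries.X_dvd_iff.1 d3
    have g3 := PowerSeries.X_dvd_iff.1 V1
    rw [map_sub, map_one, sub_eq_zero] at g2 g3
    simp [g1, g2, g3]
  · exact FNz.mul ⟨0, - PowerSeries.C ν, by simp, by simp [c.ev]⟩ (hnz.mul (FNz.of_one W1))

end Pool.Agent.MP_9b2bac_nt.Z

end
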