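import Mathlib
import Pool.Agent.Mg.F43e117.G71f1d1

section

/- The exchange of the next letter with a later letter. -/

set_option autoImplicit false

namespace Pool.Agent.MP_9b2bac_nt.Z

variable {d : ℕ} {A : Type} [CommRing A] [IsDomain A]

/-- A conjugation over the fraction field of an integrally closed subring. -/
theorem fn_conj {P E : Type} [CommRing P] [IsDomain P] [IsIntegrallyClosed P] [CommRing E]
    [IsDomain E] (ι : P →+* E) (hι : Function.Injective ι) {a b : E} {S Q : P}
    (hs : a + b = ι S) (hp : a * b = ι Q) (ha : ∀ x, ι x ≠ a) :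
    ∃ (Ω : Type) (_ : Field Ω) (κ : E →+* Ω) (γ : Ω ≃+* Ω), Function.Injective κ ∧
      (∀ x, γ (κ (ι x)) = κ (ι x)) ∧ γ (κ a) = κ b := by
  let Ω := AlgebraicClosure (FractionRing E)
  let κ : E →+* Ω := algebraMap _ _
  have hκ : Function.Injective κ :=
    (algebraMap (FractionRing E) Ω).injective.comp (IsFractionRing.injective E _)
  let F := FractionRing P
  have hg : Function.Injective (κ.comp ι) := hκ.comp hι
  let ψ : F →+* Ω := IsFractionRing.lift hg
  have hψ : ∀ x, ψ (algebraMap P F x) = κ (ι x) := IsFractionRing.lift_algebraMap hg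
  let _ : Algebra F Ω := ψ.toAlgebra
  have h1 : κ a + κ b = ψ (algebraMap P F S) := by rw [hψ, ← hs, map_add]
  have h2 : κ a * κ b = ψ (algebraMap P F Q) := by rw [hψ, ← hp, map_mul]
  obtain ⟨γ, g1, g2⟩ := conj_root (F := F) (Ω := Ω) h1 h2 (by
    rintro ⟨x, hx⟩
    have hx' : ψ x = κ a := hx
    have h3 : IsIntegral P x := by
      refine ⟨Polynomial.X ^ 2 - Polynomial.C S * Polynomial.X + Polynomial.C Q, by monicity!, ?_⟩
      apply ψ.injective
      simp only [Polynomial.eval₂_add, Polynomial.eval₂_sub, Polynomial.eval₂_mul,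
        Polynomial.eval₂_pow, Polynomial.eval₂_X, Polynomial.eval₂_C, map_add, map_sub, map_mul,
        map_pow, map_zero, hx', ← h1, ← h2]
      ring
    obtain ⟨y, rfl⟩ := IsIntegrallyClosed.algebraMap_eq_of_integral h3
    exact ha y (hκ (by rw [← hψ, hx'])))
  exact ⟨Ω, inferInstance, κ, γ, hκ, fun x => by rw [← hψ]; exact g1 _, g2⟩

theorem fn_core {k : Type} [Field k] {C : Finset (Fin d)} {u v : Fin d} (huv : u ≠ v)
    {l : Fin d → k} (hl : Function.Injective l) {c : Fin d → Fin d → PowerSeries k}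
    (hc : ∀ j i, j ≠ i → (lamD v u l j - lamD v u l i) * c j i = PowerSeries.X ∧
      PowerSeries.X * PowerSeries.C (PowerSeries.constantCoeff (c j i)) = tb k v u j i)
    {w : Seq d → Fin d → PowerSeries (PowerSeries k)} {ξ : Seq d → PowerSeries (PowerSeries k)}
    (nf0 : NF (fun j i => if j ∈ C ∧ i ∈ C then PowerSeries.X * PowerSeries.C (c j i) else 0) w ξ)
    {s : Seq d} {q : ℤ} (hs : Term C s)
    (hC : ∀ i : ℤ, 1 ≤ i → i ≤ q → s i ∈ C) (hv : s q = v)
    (hv' : ∀ i : ℤ, 1 ≤ i → i < q → s i ≠ v) (hu : ¬ Occ C s q u)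
    (huu : ∀ i : ℤ, 1 ≤ i → i < q → s i = u → s (i + 1) ≠ u) (hq : 3 ≤ q) (h1 : s 1 = u) :
    ∃ (S : Type) (_ : CommRing S) (β β' : PowerSeries (PowerSeries k) →+* S),
      Function.Injective β ∧ Function.Injective β' ∧
      (∀ x, β' (PowerSeries.C x) = β (PowerSeries.C x)) ∧ β' PowerSeries.X = β PowerSeries.X ∧
      ∀ j, β' (w (Function.update s 0 u) j) = β (w (Function.update s 0 v) j) := by
  have huC : u ∈ C := h1 ▸ hC 1 le_rfl (by omega)
  have hvC : v ∈ C := hv ▸ hC q (by omega) le_rfl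
  let ι : PowerSeries (Polynomial k) →+* PowerSeries (PowerSeries k) :=
    PowerSeries.map Polynomial.coeToPowerSeries.ringHom
  have hι : Function.Injective ι := PowerSeries.map_injective _ (Polynomial.coe_injective k)
  have i1 : ι PowerSeries.X = PowerSeries.X := PowerSeries.map_X _
  have i2 : ι (PowerSeries.C Polynomial.X) = PowerSeries.C PowerSeries.X := by simp [ι]
  have i3 : ∀ x : PowerSeries k, ι (PowerSeries.map Polynomial.C x) =
      swp k (PowerSeries.C x) := fun x => by
    rw [swp_C]; ext n; simp [ι]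
  have i4 : ∀ a, PowerSeries.constantCoeff (ι a) =
      ((PowerSeries.constantCoeff a : Polynomial k) : PowerSeries k) := fun a => rfl
  let t : Fin d → Fin d → PowerSeries (Polynomial k) := fun j i =>
    if j ∈ C ∧ i ∈ C then PowerSeries.C Polynomial.X * PowerSeries.map Polynomial.C (c j i) else 0
  have ht : ∀ j i, swp k (if j ∈ C ∧ i ∈ C then PowerSeries.X * PowerSeries.C (c j i) else 0) =
      ι (t j i) := fun j i => by
    simp only [t]
    split_ifs
    · rw [map_mul, map_mul, i2, i3, swp_X]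
    · rw [map_zero, map_zero]
  have nf := nf0.map (swp k)
  simp only [ht] at nf
  have l1 : lamD v u l u - lamD v u l v = PowerSeries.X := by simp [lamD, huv.symm]
  have col : FCol C u v Polynomial.X (Polynomial.evalRingHom (1 : k)) ι t := by
    refine ⟨?_, ?_, fun j i hji a b => ?_, fun y hy a b => ?_, by simp, hι, fun a ha => ?_⟩
    · have := (hc u v huv).1
      rw [l1, mul_right_eq_self₀] at this
      simp [t, huC, hvC, this.resolve_right PowerSeries.X_ne_zero]
    · have : c v u = -1 := mul_left_cancel₀ PowerSeries.X_ne_zero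
        (by linear_combination - (hc v u huv.symm).1 - c v u * l1)
      simp [t, huC, hvC, this]
    · simp only [t]
      split_ifs
      · have := (hc j i hji).2
        rw [tb, if_neg a, if_neg b, mul_eq_zero, or_iff_right PowerSeries.X_ne_zero,
          map_eq_zero] at this
        have h2 := map_dvd (PowerSeries.map (Polynomial.C : k →+* Polynomial k))
          (PowerSeries.X_dvd_iff.2 this)
        rw [PowerSeries.map_X] at h2
        exact h2.mul_left _
      · exact dvd_zero _
    · have h2 : l v - l y ≠ 0 := sub_ne_zero.2 (hl.ne (Ne.symm b))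
      have h3 := (hc v y (Ne.symm b)).1
      rw [lamD, lamD, if_neg huv.symm, if_neg a, ← map_sub] at h3
      have h4 : c v y = PowerSeries.X * PowerSeries.C (l v - l y)⁻¹ := by
        rw [← h3, mul_right_comm, ← map_mul, mul_inv_cancel₀ h2, map_one, one_mul]
      refine ⟨PowerSeries.C (Polynomial.X * Polynomial.C (l v - l y)⁻¹), ?_, by simpa using h2⟩
      simp only [t, hvC, hy, and_self, if_true, h4, map_mul, PowerSeries.map_X, PowerSeries.map_C]
      ring
    · rw [i1, PowerSeries.X_dvd_iff, i4] at ha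
      exact PowerSeries.X_dvd_iff.2 (Polynomial.coe_eq_zero_iff.1 ha)
  have clu : Clu C (fun j => swp k (PowerSeries.C (lamD v u l j)))
      (PowerSeries.X * PowerSeries.C PowerSeries.X) (PowerSeries.C PowerSeries.X)
      fun j i => ι (t j i) := by
    refine ⟨fun j i hj hi hji => ?_, fun j i a => ?_, fun j i _ => ?_, fun x hx => ?_,
      fun j i a => ?_, ?_⟩
    · rw [← ht, if_pos ⟨hj, hi⟩, ← map_sub, ← map_mul, mul_left_comm, ← map_sub, ← map_mul,
        (hc j i hji).1, map_mul, swp_X, swp_C, PowerSeries.map_X, mul_comm]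
    · rw [← ht, if_neg a, map_zero]
    · simp only [t]
      split_ifs
      · rw [map_mul, i2]; exact Dvd.intro _ rfl
      · rw [map_zero]; exact dvd_zero _
    · refine swp_inj ((ps_haus _ fun n => ?_).trans (map_zero _).symm)
      have := map_dvd (swp k) (hx n)
      rwa [map_pow, swp_C, PowerSeries.map_X] at this
    · by_contra b
      have := (hc j i b).1
      rw [PowerSeries.C_injective (swp_inj a), sub_self, zero_mul] at this
      exact PowerSeries.X_ne_zero this.symm
    · exact mul_ne_zero PowerSeries.X_ne_zero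
        ((map_ne_zero_iff _ PowerSeries.C_injective).2 PowerSeries.X_ne_zero)
  obtain ⟨hw, S, Q, f1, f2, f3, f4, f5⟩ := fn_F3 col clu nf huv hs hC hv hv' hu huu hq h1
  obtain ⟨Ω, _, κ, γ, hκ, g1, g2⟩ := fn_conj ι hι f1 f2 fun a ha => by
    have e1 : a * (S - a) = Q := hι (by rw [map_mul, map_sub, ← f1, ← f2, ha]; ring)
    refine fn_noroot (e := Polynomial.evalRingHom (1 : k)) (ν := Polynomial.X) (a := a)
      (b := S - a) (by simp) (by rw [add_sub_cancel, f3]) (e1 ▸ f4) (e1 ▸ f5) fun e2 => ?_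
    have := congrArg (fun x => PowerSeries.constantCoeff (PowerSeries.constantCoeff x)) ha
    simp only [i4, i2, e2] at this
    simp at this
  let G : PowerSeries (PowerSeries k) →+* Ω := (γ : Ω →+* Ω).comp κ
  have G1 : ∀ x, G (swp k (PowerSeries.C x)) = κ (swp k (PowerSeries.C x)) := fun x => by
    rw [← i3]; exact g1 _
  have G2 : G (PowerSeries.C PowerSeries.X) = κ (PowerSeries.C PowerSeries.X) := by
    rw [← i2]; exact g1 _
  have G3 : G PowerSeries.X = κ PowerSeries.X := by rw [← i1]; exact g1 _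
  refine ⟨Ω, inferInstance, G.comp (swp k), κ.comp (swp k),
    (γ.injective.comp hκ).comp swp_inj, hκ.comp swp_inj, fun x => (G1 x).symm,
    by simp only [RingHom.comp_apply, swp_X, G2], fun j => ?_⟩
  have s1 := (clu.stp nf (s := Function.update s 0 u) (by simpa using huC)).map κ
  have s2 := (clu.stp nf (s := Function.update s 0 v) (by simpa using hvC)).map G
  have up : ∀ b j, swp k (w (sh (Function.update s 0 b)) j) = swp k (w (sh s) j) :=
    fun b => congrFun (clu.sh_update nf hs b)
  simp only [up, Function.update_self] at s1 s2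
  have G4 : ∀ j, G (swp k (w (sh s) j)) = κ (swp k (w (sh s) j)) := fun j => by
    obtain ⟨a, ha⟩ := hw j
    rw [← ha]; exact g1 _
  have G5 : G (swp k (PowerSeries.C (lamD v u l v)) + PowerSeries.X * PowerSeries.C PowerSeries.X *
      swp k (ξ (Function.update s 0 v))) = κ (swp k (PowerSeries.C (lamD v u l u)) +
      PowerSeries.X * PowerSeries.C PowerSeries.X * swp k (ξ (Function.update s 0 u))) := by
    have : G _ = _ := g2
    rw [i2] at this
    rw [map_add, G1, mul_assoc, map_mul, G3, this, ← map_mul, ← map_add, eq_add_of_sub_eq l1,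
      map_add PowerSeries.C, map_add (swp k), swp_C PowerSeries.X, PowerSeries.map_X]
    congr 1; ring
  simp only [G1, G4, G5, map_mul G PowerSeries.X, G2, G3, ← map_mul κ] at s2
  exact congrFun (Stp.det (hκ.comp clu.inj) s1 s2) j

theorem fine {C : Finset (Fin d)} {u v : Fin d} (huv : u ≠ v) {s : Seq d} (hs : Term C s)
    (q : ℕ) (hq : 3 ≤ q) (h1 : s 1 = u) (hC : ∀ i : ℕ, 1 ≤ i → i ≤ q → s i ∈ C) (hv : s q = v)
    (hv' : ∀ i : ℕ, 1 ≤ i → i < q → s i ≠ v) (hu : ¬ Occ C s q u)
    (huu : ∀ i : ℕ, 1 ≤ i → i < q → s i = u → s (i + 1) ≠ u) :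
    ∃ γ : Gam A d, ∀ j, γ (st A C (Function.update s 0 u) j) =
      st A C (Function.update s 0 v) j := by
  let k := FractionRing (AA A d)
  let e : AA A d →+* k := algebraMap _ _
  have he : Function.Injective e := IsFractionRing.injective (AA A d) _
  have hl : Function.Injective fun j => e (MvPolynomial.X j) := he.comp MvPolynomial.X_injective
  choose c hc using exists_cD huv.symm hl
  obtain ⟨w, ξ, h⟩ := exists_NF
    (fun j i => if j ∈ C ∧ i ∈ C then PowerSeries.X * PowerSeries.C (c j i) else 0) fun _ _ _ => by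
      split_ifs
      exacts [Dvd.intro _ rfl, dvd_zero _]
  obtain ⟨α, hα, a1, a2, a3⟩ := exists_alphaC C (phiD v u e) (phiD_inj huv.symm he)
    (fun j i _ _ hji => by simpa [phiD] using (hc j i hji).1) h
  obtain ⟨S, _, β, β', hβ, hβ', b1, b2, b3⟩ := fn_core huv hl hc h hs (q := q)
    (fun i a b => by lift i to ℕ using (by omega); exact hC i (by omega) (by omega)) hv
    (fun i a b => by lift i to ℕ using (by omega); exact hv' i (by omega) (by omega)) hu
    (fun i a b => by lift i to ℕ using (by omega); exact huu i (by omega) (by omega))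
    (by omega) h1
  exact ext_gam (RC A C) (β.comp α) (β'.comp α) (hβ.comp hα) (hβ'.comp hα) (fun x => by
    have : (β'.comp α).comp (algebraMap (Polynomial (AA A d)) _) =
        (β.comp α).comp (algebraMap (Polynomial (AA A d)) _) :=
      Polynomial.ringHom_ext (fun x => by simp only [RingHom.comp_apply, a1, b1])
        (by simp only [RingHom.comp_apply, a2, map_mul, b1, b2])
    exact DFunLike.congr_fun this x) (zC A C (Function.update s 0 u))
    (zC A C (Function.update s 0 v)) (fun j => by simp only [RingHom.comp_apply, a3, b3])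
    fun j => alg_wC (hs.update 0 u) j

end Pool.Agent.MP_9b2bac_nt.Z

end

section

/- Two roots of a perturbed product of linear factors are exchanged by an automorphism. -/

set_option autoImplicit false

namespace Pool.Agent.MP_9b2bac_nt.Z.TLevX

open Finset PowerSeries

variable {d : ℕ}

theorem deg_prod {R : Type} [CommRing R] [IsDomain R] (x : Fin d → R) :
    (∏ k, (Polynomial.X - Polynomial.C (x k))).degree = (d : WithBot ℕ) := by
  rw [Polynomial.degree_prod]
  simp

theorem mon_prod {R : Type} [CommRing R] (x : Fin d → R) :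
    (∏ k, (Polynomial.X - Polynomial.C (x k))).Monic :=
  Polynomial.monic_prod_of_monic _ _ fun _ _ => Polynomial.monic_X_sub_C _

theorem fac {R : Type} [CommRing R] [IsDomain R] (hd : 0 < d) {lam x : Fin d → R}
    (hl : Function.Injective lam) {c : R} (h : ∀ j, ∏ k, (lam j - x k) = c) :
    ∏ k, (Polynomial.X - Polynomial.C (x k)) =
      ∏ j, (Polynomial.X - Polynomial.C (lam j)) + Polynomial.C c := by
  refine Polynomial.eq_of_degree_sub_lt_of_eval_index_eq univ (v := lam) hl.injOn ?_ fun j _ => ?_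
  · rw [← sub_sub, card_univ, Fintype.card_fin]
    refine (Polynomial.degree_sub_le _ _).trans_lt (max_lt ?_ ?_)
    · exact (Polynomial.degree_sub_lt_left ((deg_prod x).trans (deg_prod lam).symm) (mon_prod x).ne_zero
        ((mon_prod x).leadingCoeff.trans (mon_prod lam).leadingCoeff.symm)).trans_eq (deg_prod x)
    · exact Polynomial.degree_C_le.trans_lt (by exact_mod_cast hd)
  · simp only [Polynomial.eval_add, Polynomial.eval_prod, Polynomial.eval_sub, Polynomial.eval_X,
      Polynomial.eval_C, h j]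
    rw [prod_eq_zero (mem_univ j) (sub_self _), zero_add]

theorem prod_eq {R : Type} [CommRing R] [IsDomain R] (hd : 0 < d) {lam x : Fin d → R}
    (hl : Function.Injective lam) {c : R} (h : ∀ j, ∏ k, (lam j - x k) = c) (y : R) :
    ∏ k, (y - x k) = ∏ j, (y - lam j) + c := by
  simpa [Polynomial.eval_prod] using congrArg (Polynomial.eval y) (fac hd hl h)

theorem sum_eq {R : Type} [CommRing R] [IsDomain R] (hd : 1 < d) {lam x : Fin d → R}
    (hl : Function.Injective lam) {c : R} (h : ∀ j, ∏ k, (lam j - x k) = c) :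
    ∑ k, x k = ∑ j, lam j := by
  have h1 := congrArg (fun p => Polynomial.coeff p (#(univ : Finset (Fin d)) - 1))
    (fac (by omega) hl h)
  have h2 : 0 < #(univ : Finset (Fin d)) := by simp; omega
  simp only [Polynomial.coeff_add, Polynomial.prod_X_sub_C_coeff_card_pred _ _ h2] at h1
  rw [Polynomial.coeff_C, if_neg (by simp; omega)] at h1
  linear_combination -h1

theorem hens {D : Type} [CommRing D] [IsDomain D] (l : Fin d → D) (j : Fin d)
    (hu : ∀ i, i ≠ j → IsUnit (l j - l i)) :
    ∃ z : D⟦X⟧, constantCoeff z = l j ∧ ∏ i, (z - C (l i)) + X ^ d = 0 := by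
  have hd : 0 < d := j.pos
  let f : Polynomial D⟦X⟧ := ∏ i, (Polynomial.X - Polynomial.C (C (l i))) + Polynomial.C (X ^ d)
  have hf : f.Monic := (mon_prod _).add_of_left (by
    rw [deg_prod]; exact Polynomial.degree_C_le.trans_lt (by exact_mod_cast hd))
  have e : ∀ z, f.eval z = ∏ i, (z - C (l i)) + X ^ d := fun z => by
    simp [f, Polynomial.eval_prod]
  obtain ⟨z, h1, h2⟩ := HenselianRing.is_henselian (I := Ideal.span {(X : D⟦X⟧)}) f hf (C (l j))
    (by
      rw [e, prod_eq_zero (mem_univ j) (sub_self _), zero_add, Ideal.mem_span_singleton]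
      exact dvd_pow_self _ hd.ne')
    (by
      refine IsUnit.map _ ?_
      simp only [f]
      rw [← mul_prod_erase _ _ (mem_univ j)]
      simp only [map_add, Polynomial.derivative_mul, Polynomial.derivative_C, add_zero,
        Polynomial.derivative_sub, Polynomial.derivative_X, sub_zero, one_mul, Polynomial.eval_add,
        Polynomial.eval_mul, Polynomial.eval_sub, Polynomial.eval_X, Polynomial.eval_C, sub_self,
        zero_mul, Polynomial.eval_prod]
      refine IsUnit.prod_iff.2 fun i hi => ?_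
      rw [← map_sub]
      exact (hu i (ne_of_mem_erase hi)).map _)
  refine ⟨z, ?_, by rw [← e]; exact h1⟩
  rw [Ideal.mem_span_singleton, X_dvd_iff, map_sub, constantCoeff_C, sub_eq_zero] at h2
  exact h2

theorem core0 {D K : Type} [CommRing D] [IsDomain D] [IsPrincipalIdealRing D] [Field K]
    (κ : D →+* K) (hκ : Function.Injective κ) {l : Fin d → D} (hl : Function.Injective l)
    {u v : Fin d} (huv : u ≠ v) (hu : ∀ j i, i ≠ j → j ≠ u → j ≠ v → IsUnit (l j - l i))
    (hn : ¬ IsUnit (l u - l v)) {ρ : Fin d → K⟦X⟧} (h0 : ∀ j, constantCoeff (ρ j) = κ (l j))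
    (h1 : ∀ j, ∏ i, (C (κ (l j)) - ρ i) = X ^ d) :
    ∃ (Ω : Type) (_ : Field Ω) (σ : K⟦X⟧ →+* Ω) (γ : Ω ≃+* Ω), Function.Injective σ ∧
      (∀ x, γ (σ (PowerSeries.map κ x)) = σ (PowerSeries.map κ x)) ∧
      ∀ j, γ (σ (ρ j)) = σ (ρ (Equiv.swap u v j)) := by
  have hd : 1 < d := by have := u.2; have := v.2; have := Fin.val_ne_of_ne huv; omega
  let ι : D⟦X⟧ →+* K⟦X⟧ := PowerSeries.map κ
  have hι : Function.Injective ι := PowerSeries.map_injective _ hκ
  have i1 : ∀ x, ι (C x) = C (κ x) := fun x => map_C _ _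
  have i2 : ι X = X := map_X _
  have i3 : ∀ x, constantCoeff (ι x) = κ (constantCoeff x) := fun _ => rfl
  have hl' : Function.Injective fun j => (C (κ (l j)) : K⟦X⟧) :=
    C_injective.comp (hκ.comp hl)
  have hz : ∀ j, ∃ z : D⟦X⟧, j ≠ u → j ≠ v → ι z = ρ j ∧ constantCoeff z = l j := fun j => by
    by_cases hj : j ≠ u ∧ j ≠ v
    swap
    · exact ⟨0, fun a b => absurd ⟨a, b⟩ hj⟩
    obtain ⟨z, z1, z2⟩ := hens l j fun i hi => hu j i hi hj.1 hj.2
    refine ⟨z, fun _ _ => ⟨?_, z1⟩⟩
    have e := congrArg ι z2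
    simp only [map_add, map_prod, map_sub, map_pow, i1, i2, map_zero] at e
    rw [← prod_eq (by omega) hl' h1, prod_eq_zero_iff] at e
    obtain ⟨i, -, e⟩ := e
    rw [sub_eq_zero] at e
    have e2 := congrArg constantCoeff e
    rw [i3, z1, h0] at e2
    rw [e, hl (hκ e2)]
  choose z hz using hz
  let T : Finset (Fin d) := (univ.erase u).erase v
  have hT : ∀ j ∈ T, j ≠ u ∧ j ≠ v := fun j hj =>
    ⟨ne_of_mem_erase (mem_of_mem_erase hj), ne_of_mem_erase hj⟩
  have hv : v ∈ univ.erase u := mem_erase.2 ⟨huv.symm, mem_univ _⟩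
  have s1 : (C (κ (l u)) - ρ u) + (C (κ (l u)) - ρ v) =
      ι (2 * C (l u) - ∑ j, C (l j) + ∑ j ∈ T, z j) := by
    have e := sum_eq hd hl' h1
    rw [← add_sum_erase _ _ (mem_univ u), ← add_sum_erase _ _ hv] at e
    simp only [map_add, map_sub, map_mul, map_sum, i1, map_ofNat]
    rw [sum_congr rfl fun j hj => (hz j (hT j hj).1 (hT j hj).2).1]
    linear_combination -e
  have hh : IsUnit (∏ j ∈ T, (C (l u) - z j)) := IsUnit.prod_iff.2 fun j hj => by
    rw [isUnit_iff_constantCoeff, map_sub, constantCoeff_C, (hz j (hT j hj).1 (hT j hj).2).2,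
      ← neg_sub]
    exact (hu j u (hT j hj).1.symm (hT j hj).1 (hT j hj).2).neg
  obtain ⟨c, hc⟩ := hh.exists_right_inv
  have s2 : (C (κ (l u)) - ρ u) * (C (κ (l u)) - ρ v) = ι (X ^ d * c) := by
    have e := h1 u
    rw [← mul_prod_erase _ _ (mem_univ u), ← mul_prod_erase _ _ hv] at e
    have e2 := congrArg ι hc
    simp only [map_mul, map_prod, map_sub, i1, map_one] at e2
    rw [prod_congr rfl fun j hj => by rw [(hz j (hT j hj).1 (hT j hj).2).1]] at e2
    rw [map_mul, map_pow, i2, ← e]
    linear_combination -(C (κ (l u)) - ρ u) * (C (κ (l u)) - ρ v) * e2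
  obtain ⟨Ω, _, σ, γ, hσ, g1, g2⟩ := fn_conj ι hι s1 s2 fun a ha => by
    obtain ⟨b, hb⟩ : ∃ b, ι b = C (κ (l u)) - ρ v :=
      ⟨_, by rw [map_sub ι _ a, ← s1, ha, add_sub_cancel_left]⟩
    have e1 : b * a = X ^ d * c := hι (by rw [map_mul, ha, hb, ← s2, mul_comm])
    have e2 : constantCoeff b = l u - l v := hκ (by
      rw [← i3, hb, map_sub, map_sub, constantCoeff_C, h0])
    have e3 : ¬ (X : D⟦X⟧) ∣ b := by
      rw [X_dvd_iff, e2, sub_eq_zero]; exact hl.ne huv
    obtain ⟨a', rfl⟩ : (X : D⟦X⟧) ^ d ∣ a :=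
      X_prime.pow_dvd_of_dvd_mul_left d e3 ⟨c, e1⟩
    have e4 : b * a' = c := mul_left_cancel₀ (pow_ne_zero d X_ne_zero) (by rw [← e1]; ring)
    have e5 : IsUnit b := isUnit_of_dvd_one ⟨a' * ∏ j ∈ T, (C (l u) - z j), by
      rw [← mul_assoc, e4, mul_comm, hc]⟩
    exact hn (e2 ▸ isUnit_iff_constantCoeff.1 e5)
  have g3 : γ (σ (C (κ (l u)))) = σ (C (κ (l u))) := by rw [← i1]; exact g1 _
  have g4 := g1 (2 * C (l u) - ∑ j, C (l j) + ∑ j ∈ T, z j)
  rw [← s1] at g4
  simp only [map_add, map_sub, g3] at g2 g4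
  refine ⟨Ω, inferInstance, σ, γ, hσ, g1, fun j => ?_⟩
  by_cases a : j = u
  · rw [a, Equiv.swap_apply_left]; linear_combination -g2
  by_cases b : j = v
  · rw [b, Equiv.swap_apply_right]; linear_combination g2 - g4
  rw [Equiv.swap_apply_of_ne_of_ne a b, ← (hz j a b).1]
  exact g1 _

end Pool.Agent.MP_9b2bac_nt.Z.TLevX

end

section

/- The action on the words that use every letter once. -/

set_option autoImplicit false

namespace Pool.Agent.MP_9b2bac_nt.Z

variable {d : ℕ} {A : Type} [CommRing A] [IsDomain A]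

namespace TLevX

open Finset PowerSeries

variable (A) in
/-- The root coordinate as a power series. -/
noncomputable def xs (s : Seq d) : (BB A d)⟦X⟧ := C (lB A (s 0)) + X * xi0 A s

theorem xs_const (s : Seq d) : constantCoeff (xs A s) = lB A (s 0) := by simp [xs]

theorem lB_inj : Function.Injective (lB A : Fin d → BB A d) := fun _ _ h =>
  by_contra fun c => (lB_unit c).ne_zero (sub_eq_zero.2 h)

theorem lam_inj : Function.Injective fun j : Fin d => (C (lB A j) : (BB A d)⟦X⟧) :=
  C_injective.comp lB_inj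

theorem iter (s : Seq d) (j : Fin d) (m : ℕ) : X ^ m * w0 A (shf s m) j =
    (∏ k ∈ range m, (C (lB A j) - xs A (shf s k))) * w0 A s j := by
  induction m with
  | zero => simp
  | succ m ih =>
    have := (sys0 A s).step m j
    rw [prod_range_succ, xs, shf_apply_zero, Nat.cast_succ]
    linear_combination X ^ m * this + (C (lB A j) - (C (lB A (s m)) + X * xi0 A (shf s m))) * ih

theorem prod_per {s : Seq d} (hs : Per d s) (j : Fin d) :
    ∏ k : Fin d, (C (lB A j) - xs A (shf s (k : ℕ))) = X ^ d := by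
  have h0 : w0 A s j ≠ 0 := fun h => by
    obtain ⟨i, hi⟩ := w0_ne A hs.2.2 j
    have hn : (0 : ℤ) < d := by exact_mod_cast hs.1
    have e := iter (A := A) s j (i % d).toNat
    rw [h, mul_zero, Int.toNat_of_nonneg (Int.emod_nonneg i hn.ne'),
      ← zper (f := shf s) (shf_per hs) (i % d) (i / d), Int.emod_add_ediv_mul] at e
    exact hi ((mul_eq_zero.1 e).resolve_left (pow_ne_zero _ X_ne_zero))
  have e := iter (A := A) s j d
  have e2 := shf_per hs 0
  rw [zero_add, shf_zero] at e2
  rw [e2, prod_range] at e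
  exact (mul_right_cancel₀ h0 e).symm

theorem exists_r {s : Seq d} (hs : Per d s) : ∃ r : Fin d → (BB A d)⟦X⟧,
    (∀ j, constantCoeff (r j) = lB A j) ∧ (∀ j, ∏ i, (C (lB A j) - r i) = X ^ d) ∧
      ∀ t, Per d t → xs A t = r (t 0) := by
  have hn : (0 : ℤ) < d := by exact_mod_cast hs.1
  have h1 : Function.Surjective fun k : Fin d => s (k : ℕ) := fun j => by
    obtain ⟨i, rfl⟩ := hs.2.2 j
    have a := Int.emod_nonneg i hn.ne'
    have b := Int.emod_lt_of_pos i hn
    exact ⟨⟨(i % d).toNat, by omega⟩, by simp only [Int.toNat_of_nonneg a, hs.emod]⟩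
  let e : Fin d ≃ Fin d := Equiv.ofBijective _ (Finite.surjective_iff_bijective.1 h1)
  have h2 : ∀ j, constantCoeff (xs A (shf s (e.symm j : ℕ))) = lB A j := fun j => by
    rw [xs_const, shf_apply_zero]
    exact congrArg _ (e.apply_symm_apply j)
  have h3 : ∀ j, ∏ i, (C (lB A j) - xs A (shf s (e.symm i : ℕ))) = X ^ d := fun j => by
    rw [← prod_per hs j]
    exact e.symm.prod_comp fun k => C (lB A j) - xs A (shf s (k : ℕ))
  refine ⟨_, h2, h3, fun t ht => ?_⟩
  have hd : 0 < d := hs.1
  have h4 := prod_eq hd lam_inj h3 (xs A t)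
  have h6 : ∏ k : Fin d, (xs A t - xs A (shf t (k : ℕ))) = 0 :=
    prod_eq_zero (mem_univ (⟨0, hd⟩ : Fin d)) (by simp)
  rw [← prod_eq hd lam_inj (prod_per ht), h6, prod_eq_zero_iff] at h4
  obtain ⟨i, -, h4⟩ := h4
  rw [sub_eq_zero] at h4
  have h5 := congrArg constantCoeff h4
  rw [xs_const, h2] at h5
  rw [h4, lB_inj h5]

theorem core {u v : Fin d} (huv : u ≠ v) {r : Fin d → (BB A d)⟦X⟧}
    (h0 : ∀ j, constantCoeff (r j) = lB A j) (h1 : ∀ j, ∏ i, (C (lB A j) - r i) = X ^ d) :
    ∃ γ : Gam A d, ∀ j, γ (io A d (r j)) = io A d (r (Equiv.swap u v j)) := by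
  let k := FractionRing (AA A d)
  let e : AA A d →+* k := algebraMap _ _
  have he : Function.Injective e := IsFractionRing.injective (AA A d) _
  have hl : Function.Injective fun j => e (MvPolynomial.X j) := he.comp MvPolynomial.X_injective
  let φ := phiD v u e
  let l : Fin d → k⟦X⟧ := lamD v u fun j => e (MvPolynomial.X j)
  have f1 : ∀ j, φ (MvPolynomial.X j) = l j := fun j => by simp [φ, phiD, l]
  let K := FractionRing k⟦X⟧
  let κ : k⟦X⟧ →+* K := algebraMap _ _
  have hκ : Function.Injective κ := IsFractionRing.injective k⟦X⟧ _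
  have hφ : Function.Injective (κ.comp φ) := hκ.comp (phiD_inj huv.symm he)
  have hu : ∀ y : Submonoid.powers (Dl A d), IsUnit (κ.comp φ y) := fun y =>
    ((map_ne_zero_iff _ hφ).2 (nonZeroDivisors.ne_zero
      (powers_le_nonZeroDivisors_of_noZeroDivisors Dl_ne y.2))).isUnit
  let Φ : BB A d →+* K := IsLocalization.lift hu
  have hΦ : Function.Injective Φ := (IsLocalization.lift_injective_iff hu).2 fun x y => by
    rw [AB_inj.eq_iff, hφ.eq_iff]
  have hΦa : ∀ x, Φ (algebraMap _ _ x) = κ (φ x) := IsLocalization.lift_eq hu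
  have f2 : ∀ j, Φ (lB A j) = κ (l j) := fun j => by rw [lB, hΦa, f1]
  let α : (BB A d)⟦X⟧ →+* K⟦X⟧ := PowerSeries.map Φ
  have hα : Function.Injective α := PowerSeries.map_injective _ hΦ
  obtain ⟨Ω, _, σ, γ, hσ, g1, g2⟩ := core0 κ hκ (l := l)
    (fun i j h => MvPolynomial.X_injective (phiD_inj huv.symm he ((f1 i).trans (h.trans (f1 j).symm))))
    huv (fun j i a b c => by
      rw [isUnit_iff_constantCoeff, isUnit_iff_ne_zero]
      simp only [l, lamD, if_neg b]
      split_ifs with e1
      · simpa [sub_eq_zero, hl.eq_iff] using hl.ne c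
      · simpa [sub_eq_zero, hl.eq_iff] using hl.ne a.symm)
    (by rw [isUnit_iff_constantCoeff]; simp [l, lamD, huv.symm]) (ρ := fun j => α (r j))
    (fun j => by rw [← f2, ← h0]; rfl) fun j => by
      have := congrArg α (h1 j)
      simpa only [map_prod, map_sub, map_pow, α, map_C, map_X, f2] using this
  let G : K⟦X⟧ →+* Ω := (γ : Ω →+* Ω).comp σ
  let val : (⊤ : Subalgebra (Polynomial (AA A d)) (BB A d)⟦X⟧) →+* (BB A d)⟦X⟧ :=
    (Subalgebra.val _).toRingHom
  refine ext_gam ⊤ ((σ.comp α).comp val) ((G.comp α).comp val)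
    ((hσ.comp hα).comp Subtype.val_injective)
    (((γ.injective.comp hσ).comp hα).comp Subtype.val_injective) (fun x => ?_)
    (fun j => ⟨r j, trivial⟩) (fun j => ⟨r (Equiv.swap u v j), trivial⟩) g2 fun j => ?_
  · have : (G.comp α).comp (algebraMap (Polynomial (AA A d)) _) =
        (σ.comp α).comp (algebraMap (Polynomial (AA A d)) _) :=
      Polynomial.ringHom_ext (fun x => by
        have := g1 (C (φ x))
        simp only [RingHom.comp_apply, alg_C, α, map_C, hΦa] at this ⊢
        exact this) (by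
        have := g1 X
        simp only [RingHom.comp_apply, alg_X, α, map_X] at this ⊢
        exact this)
    exact DFunLike.congr_fun this x
  · refine ⟨∏ i, (Polynomial.X - Polynomial.C (Polynomial.C (MvPolynomial.X i))) +
      Polynomial.C (Polynomial.X ^ d), fun h => ?_, ?_⟩
    · have := congrArg (Polynomial.eval (Polynomial.C (MvPolynomial.X j))) h
      rw [Polynomial.eval_add, Polynomial.eval_prod, prod_eq_zero (mem_univ j) (by simp)] at this
      simp at this
    · have := prod_eq j.pos lam_inj h1 (r j)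
      rw [prod_eq_zero (mem_univ j) (sub_self _)] at this
      simp only [map_add, map_prod, map_sub, Polynomial.aeval_X, Polynomial.aeval_C, alg_C,
        map_pow, alg_X]
      exact this.symm

theorem act_zx {I : Finset ℕ} (g : GG A d I) (w : W d I) : g (zx A w) = zx A (g • w) := by
  have h1 : ∀ j, g (lR A I j) = lR A I j := fun j => g.commutes _
  have h2 : g (eR A d I) = eR A d I := g.commutes _
  rw [zx, zx, map_sub g, map_sum g, h2]
  exact congrArg (· - _) (sum_congr rfl fun j _ => by rw [map_mul g, h1, act_zw])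

theorem zx_xs {I : Finset ℕ} (w : W d I) : (zx A w : (BB A d)⟦X⟧) = xs A w.1 := zx_val w

theorem act_pow {I : Finset ℕ} (g : GG A d I) (w : W d I) (i : ℤ) :
    g • (shW d I ^ i) w = (shW d I ^ i) (g • w) := by
  have : Commute (MulAction.toPerm g) (shW d I) := Equiv.ext fun s => act_sh g s
  exact Equiv.congr_fun (this.zpow_right i).eq w

theorem per_pow {I : Finset ℕ} {w : W d I} (h : Per d w.1) (i : ℤ) :
    Per d ((shW d I ^ i) w).1 := by
  rw [shW_zpow]
  refine ⟨h.1, fun k => ?_, fun a => ?_⟩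
  · simp only [shf]; rw [add_right_comm, h.2.1]
  · obtain ⟨k, hk⟩ := h.2.2 a
    exact ⟨k - i, by simpa [shf] using hk⟩

theorem all_of_zero {I : Finset ℕ} (g : GG A d I) (ρ : Fin d → Fin d)
    (h : ∀ w : W d I, Per d w.1 → (g • w).1 0 = ρ (w.1 0)) (w : W d I) (hw : Per d w.1) :
    (g • w).1 = ρ ∘ w.1 := funext fun i => by
  have := h _ (per_pow hw i)
  rwa [act_pow, shW_zpow, shW_zpow, shf_apply_zero, shf_apply_zero] at this

end TLevX

theorem lev_rel (I : Finset ℕ) (g : GG A d I) :
    ∃ ρ : Fin d → Fin d, ∀ w : W d I, Per d w.1 → (g • w).1 = ρ ∘ w.1 := by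
  classical
  refine ⟨fun j => if h : ∃ w : W d I, Per d w.1 ∧ w.1 0 = j then (g • h.choose).1 0 else j,
    TLevX.all_of_zero g _ fun w hw => ?_⟩
  have h : ∃ w' : W d I, Per d w'.1 ∧ w'.1 0 = w.1 0 := ⟨w, hw, rfl⟩
  rw [dif_pos h]
  obtain ⟨r, -, -, hr⟩ := TLevX.exists_r (A := A) hw
  have e : zx A w = zx A h.choose := Subtype.ext (by
    rw [TLevX.zx_xs, TLevX.zx_xs, hr _ hw, hr _ h.choose_spec.1, h.choose_spec.2])
  have e2 := congrArg (fun x : RR A d I => PowerSeries.constantCoeff (g x : PowerSeries (BB A d))) e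
  simp only [TLevX.act_zx, TLevX.zx_xs, TLevX.xs_const] at e2
  exact TLevX.lB_inj e2

theorem lev_swap (I : Finset ℕ) {u v : Fin d} (huv : u ≠ v) :
    ∃ g : GG A d I, ∀ w : W d I, Per d w.1 → (g • w).1 = Equiv.swap u v ∘ w.1 := by
  by_cases h : ∃ w : W d I, Per d w.1
  swap
  · exact ⟨1, fun w hw => absurd ⟨w, hw⟩ h⟩
  obtain ⟨s, hs⟩ := h
  obtain ⟨r, h0, h1, hr⟩ := TLevX.exists_r (A := A) hs
  obtain ⟨γ, hγ⟩ := TLevX.core huv h0 h1
  obtain ⟨g, hg⟩ := exists_aut (I := I) (γ.toAlgHom.comp ((IsScalarTower.toAlgHom _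
    (PowerSeries (BB A d)) (Om A d)).comp (RR A d I).val))
    (γ.injective.comp (io_inj.comp Subtype.val_injective))
  refine ⟨g, TLevX.all_of_zero g _ fun w hw => ?_⟩
  have e : γ (io A d (zx A w)) = _ := hg (zx A w)
  rw [TLevX.act_zx, TLevX.zx_xs, TLevX.zx_xs, hr _ hw, hγ] at e
  have e2 := congrArg PowerSeries.constantCoeff (io_inj e)
  rw [h0, TLevX.xs_const] at e2
  exact (TLevX.lB_inj e2).symm

end Pool.Agent.MP_9b2bac_nt.Z

end
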