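import Mathlib
import Pool.Agent.Mg.F43e117.G4b4065
import Pool.Agent.Mg.F43e117.Gb01801

section

/- Isolation of a three-cycle by commutators. -/

set_option autoImplicit false

namespace Pool.Agent.MP_9b2bac_nt.Z

namespace VIsoX

open Equiv

theorem swap_of_pair {Y : Type} [DecidableEq Y] {x y x' y' : Y} (h : x ≠ y)
    (e : ({x, y} : Finset Y) = {x', y'}) : swap x y = swap x' y' := by
  have h1 : x ∈ ({x', y'} : Finset Y) := e ▸ by simp
  have h2 : y ∈ ({x', y'} : Finset Y) := e ▸ by simp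
  simp only [Finset.mem_insert, Finset.mem_singleton] at h1 h2
  rcases h1 with rfl | rfl <;> rcases h2 with rfl | rfl
  · exact absurd rfl h
  · rfl
  · exact swap_comm _ _
  · exact absurd rfl h

theorem pair_of_swap {Y : Type} [DecidableEq Y] {x y x' y' : Y} (h : x ≠ y)
    (e : swap x y = swap x' y') : ({x, y} : Finset Y) = {x', y'} := by
  have h1 : swap x' y' x = y := by rw [← e, swap_apply_left]
  by_cases a : x = x'
  · subst a
    rw [swap_apply_left] at h1
    rw [h1]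
  by_cases b : x = y'
  · subst b
    rw [swap_apply_right] at h1
    rw [h1, Finset.pair_comm]
  · rw [swap_apply_of_ne_of_ne a b] at h1
    exact absurd h1 h

theorem two_trans {M Y : Type} [Group M] (φ : M →* Perm Y) (K : Subgroup M) (Q : Y → Prop)
    (c : Y) (hc : Q c) (h0 : ∀ g ∈ K, ∀ x, Q x → Q (φ g x))
    (h1 : ∀ x y, Q x → Q y → ∃ g ∈ K, φ g x = y)
    (h2 : ∀ x y, Q x → Q y → x ≠ c → y ≠ c → ∃ g ∈ K, φ g c = c ∧ φ g x = y)
    {x x' y y' : Y} (hx : Q x) (hx' : Q x') (hy : Q y) (hy' : Q y') (a : x ≠ x') (b : y ≠ y') :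
    ∃ g ∈ K, φ g x = y ∧ φ g x' = y' := by
  obtain ⟨g1, k1, e1⟩ := h1 x c hx hc
  obtain ⟨g2, k2, e2⟩ := h1 y c hy hc
  obtain ⟨g3, k3, e3, e4⟩ := h2 (φ g1 x') (φ g2 y') (h0 g1 k1 _ hx') (h0 g2 k2 _ hy')
    (fun h => a ((φ g1).injective (e1.trans h.symm)))
    (fun h => b ((φ g2).injective (e2.trans h.symm)))
  refine ⟨g2⁻¹ * g3 * g1, K.mul_mem (K.mul_mem (K.inv_mem k2) k3) k1, ?_, ?_⟩
  · simp only [map_mul, map_inv, Perm.mul_apply, e1, e3]
    rw [← e2]
    exact (φ g2).symm_apply_apply y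
  · simp only [map_mul, map_inv, Perm.mul_apply, e4]
    exact (φ g2).symm_apply_apply y'

theorem sep {M Y : Type} [Group M] [DecidableEq Y] (φ0 φ : M →* Perm Y) (H K : Subgroup M)
    (hKH : K ≤ H) (P : Finset Y) (a o f1 f2 : Y) (ha : a ∉ P) (ho : o ∉ insert a P)
    (h1 : f1 ∈ P) (h2 : f2 ∈ P) (h12 : f1 ≠ f2) (μ : M) (hμ : μ ∈ H) (m0 : φ0 μ = swap f1 f2)
    (m1 : φ μ = swap f1 f2) (hK : ∀ g ∈ K, ∀ x ∈ P, φ g x ∈ P)
    (ht : ∀ x ∈ insert a P, ∀ y ∈ insert a P, x ≠ y → ∃ g ∈ K, φ0 g f1 = x ∧ φ0 g f2 = y) :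
    ∃ δ ∈ H, φ δ = 1 ∧ φ0 δ o = o ∧ ∃ q, φ0 δ q ≠ q := by
  have ex : ∀ T ∈ Finset.powersetCard 2 (insert a P), ∃ g ∈ K, {φ0 g f1, φ0 g f2} = T := by
    intro T hT
    obtain ⟨hs, hc⟩ := Finset.mem_powersetCard.1 hT
    obtain ⟨x, y, hxy, rfl⟩ := Finset.card_eq_two.1 hc
    obtain ⟨g, k, e1, e2⟩ := ht x (hs (by simp)) y (hs (by simp)) hxy
    exact ⟨g, k, by rw [e1, e2]⟩
  choose! g k e using ex
  have hcard : (Finset.powersetCard 2 P).card < (Finset.powersetCard 2 (insert a P)).card := by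
    rw [Finset.card_powersetCard, Finset.card_powersetCard, Finset.card_insert_of_notMem ha,
      Nat.choose_succ_succ', Nat.choose_one_right]
    exact Nat.lt_add_of_pos_left (Finset.card_pos.2 ⟨f1, h1⟩)
  obtain ⟨T, hT, T', hT', hne, heq⟩ := Finset.exists_ne_map_eq_of_card_lt_of_maps_to hcard
    (f := fun T => ({φ (g T) f1, φ (g T) f2} : Finset Y)) (fun T hT => by
      refine Finset.mem_coe.2 (Finset.mem_powersetCard.2 ⟨?_, Finset.card_pair
        fun h => h12 ((φ (g T)).injective h)⟩)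
      intro x hx
      simp only [Finset.mem_insert, Finset.mem_singleton] at hx
      rcases hx with rfl | rfl
      exacts [hK _ (k T hT) _ h1, hK _ (k T hT) _ h2])
  have c0 : ∀ u : M, φ0 (u * μ * u⁻¹) = swap (φ0 u f1) (φ0 u f2) := fun u => by
    rw [map_mul, map_mul, map_inv, m0, swap_apply_apply]
  have c1 : ∀ u : M, φ (u * μ * u⁻¹) = swap (φ u f1) (φ u f2) := fun u => by
    rw [map_mul, map_mul, map_inv, m1, swap_apply_apply]
  have hm : ∀ u ∈ K, u * μ * u⁻¹ ∈ H := fun u hu =>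
    H.mul_mem (H.mul_mem (hKH hu) hμ) (H.inv_mem (hKH hu))
  have fo : ∀ U ∈ Finset.powersetCard 2 (insert a P),
      swap (φ0 (g U) f1) (φ0 (g U) f2) o = o := by
    intro U hU
    have hs := (Finset.mem_powersetCard.1 hU).1
    rw [← e U hU] at hs
    exact swap_apply_of_ne_of_ne (fun h => ho (hs (by simp [h]))) fun h => ho (hs (by simp [h]))
  refine ⟨g T * μ * (g T)⁻¹ * (g T' * μ * (g T')⁻¹), H.mul_mem (hm _ (k T hT)) (hm _ (k T' hT')),
    ?_, ?_, ?_⟩
  · rw [map_mul, c1, c1, swap_of_pair (fun h => h12 ((φ (g T)).injective h)) heq, swap_mul_self]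
  · rw [map_mul, c0, c0, Perm.mul_apply, fo T' hT', fo T hT]
  · by_contra hq
    push Not at hq
    have h3 : φ0 (g T * μ * (g T)⁻¹ * (g T' * μ * (g T')⁻¹)) = 1 := Equiv.ext hq
    rw [map_mul, c0, c0, mul_eq_one_iff_eq_inv, swap_inv] at h3
    refine hne ?_
    rw [← e T hT, ← e T' hT']
    exact pair_of_swap (fun h => h12 ((φ0 (g T)).injective h)) h3

variable {G X ι Y : Type} [Group G] [MulAction G X]

variable (G) in
/-- The elements that preserve all the labelled families. -/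
def MM (B : ι → Y → X) : Subgroup G where
  carrier := {g | ∀ e, ∃ π : Perm Y, ∀ y, g • B e y = B e (π y)}
  mul_mem' := fun {a b} ha hb e => by
    obtain ⟨π, h⟩ := ha e
    obtain ⟨ρ, h'⟩ := hb e
    exact ⟨π * ρ, fun y => by rw [mul_smul, h', h, Perm.mul_apply]⟩
  one_mem' := fun _ => ⟨1, fun y => by simp⟩
  inv_mem' := fun {a} ha e => by
    obtain ⟨π, h⟩ := ha e
    exact ⟨π⁻¹, fun y => by rw [inv_smul_eq_iff, h]; simp⟩

theorem mem_MM [Finite Y] {B : ι → Y → X} (hB : ∀ e, Function.Injective (B e)) {g : G}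
    (h : ∀ e y, ∃ y', g • B e y = B e y') : g ∈ MM G B := by
  intro e
  choose f hf using h e
  have hi : Function.Injective f := fun x y hxy =>
    hB e (MulAction.injective g (by
      show g • B e x = g • B e y
      rw [hf, hf, hxy]))
  exact ⟨Equiv.ofBijective f (Finite.injective_iff_bijective.1 hi), hf⟩

variable (G) in
/-- The action on the labels. -/
noncomputable def psi {B : ι → Y → X} (hB : ∀ e, Function.Injective (B e)) (e : ι) :
    MM G B →* Perm Y :=
  MonoidHom.mk' (fun g => (g.2 e).choose) fun a b => Equiv.ext fun y => hB e (by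
    rw [← ((a * b).2 e).choose_spec, Perm.mul_apply, ← (a.2 e).choose_spec,
      ← (b.2 e).choose_spec, Subgroup.coe_mul, mul_smul])

theorem psi_spec {B : ι → Y → X} (hB : ∀ e, Function.Injective (B e)) (e : ι) (g : MM G B)
    (y : Y) : (g : G) • B e y = B e (psi G hB e g y) := (g.2 e).choose_spec y

theorem psi_eq {B : ι → Y → X} (hB : ∀ e, Function.Injective (B e)) {e : ι} {g : MM G B}
    {y y' : Y} (h : (g : G) • B e y = B e y') : psi G hB e g y = y' :=
  hB e ((psi_spec hB e g y).symm.trans h)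

theorem iso_abs [Finite ι] [DecidableEq Y] {B : ι → Y → X} (hB : ∀ e, Function.Injective (B e))
    (σ : Perm X) (hσ : ∀ (g : G) (x : X), g • σ x = σ (g • x)) (Pn : X → Prop)
    (hP : ∀ (g : G) x, Pn x → Pn (g • x)) (N : Subgroup G) (hN : N.Normal) (e0 : ι) (o x1 x2 : Y)
    (h1 : x1 ≠ o) (h2 : x2 ≠ o) (h12 : x1 ≠ x2) (t : MM G B) (htN : (t : G) ∈ N)
    (ht : psi G hB e0 t = swap o x1)
    (ht' : ∀ w, Pn w → (∀ e y (k : ℤ), w ≠ (σ ^ k) (B e y)) → (t : G) • w = w)
    (H : Subgroup (MM G B)) (hH : ∀ g ∈ H, psi G hB e0 g o = o)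
    (h2t : ∀ x x' y y', x ≠ o → x' ≠ o → y ≠ o → y' ≠ o → x ≠ x' → y ≠ y' →
      ∃ g ∈ H, psi G hB e0 g x = y ∧ psi G hB e0 g x' = y')
    (hsep : ∀ e, e ≠ e0 → ∃ δ ∈ H, psi G hB e δ = 1 ∧ ∃ p q, p ≠ o ∧ psi G hB e0 δ p = p ∧
      psi G hB e0 δ q ≠ q) :
    ∃ τ : MM G B, (τ : G) ∈ N ∧ ∃ y1 y2, y1 ≠ o ∧ y2 ≠ o ∧ y1 ≠ y2 ∧
      psi G hB e0 τ = swap o y2 * swap o y1 ∧
      ∀ w, Pn w → (∀ y (k : ℤ), w ≠ (σ ^ k) (B e0 y)) → (τ : G) • w = w := by
  classical
  have := Fintype.ofFinite ι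
  have hz : ∀ (g : G) (k : ℤ) (x : X), g • (σ ^ k) x = (σ ^ k) (g • x) := fun g k x => by
    have h : Commute (MulAction.toPerm g : Perm X) σ := Equiv.ext fun x => hσ g x
    exact DFunLike.congr_fun (h.zpow_right k).eq x
  have out : ∀ (g : MM G B) (w : X) (e : ι), (∀ y (k : ℤ), w ≠ (σ ^ k) (B e y)) →
      ∀ y (k : ℤ), (g : G) • w ≠ (σ ^ k) (B e y) := by
    intro g w e h y k h'
    refine h (psi G hB e g⁻¹ y) k ?_
    rw [← psi_spec hB, ← hz, ← h', Subgroup.coe_inv, inv_smul_smul]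
  have ind : ∀ S : Finset ι, e0 ∉ S → ∃ τ : MM G B, (τ : G) ∈ N ∧ ∃ y1 y2, y1 ≠ o ∧ y2 ≠ o ∧
      y1 ≠ y2 ∧ psi G hB e0 τ = swap o y2 * swap o y1 ∧
      ∀ w, Pn w → (∀ e, e ∉ S → ∀ y (k : ℤ), w ≠ (σ ^ k) (B e y)) → (τ : G) • w = w := by
    intro S
    induction S using Finset.induction_on with
    | empty =>
      intro _
      obtain ⟨g, hg, e1, -⟩ := h2t x1 x2 x2 x1 h1 h2 h2 h1 h12 h12.symm
      refine ⟨t * (g * t * g⁻¹), N.mul_mem htN (hN.conj_mem _ htN g), x2, x1, h2, h1, h12.symm,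
        ?_, fun w hw h => ?_⟩
      · rw [map_mul, map_mul, map_mul, map_inv, ht, ← swap_apply_apply, hH g hg, e1]
      · have h' := fun e => h e (Finset.notMem_empty e)
        simp only [Subgroup.coe_mul, mul_smul]
        rw [ht' _ (hP _ _ hw) fun e => out g⁻¹ w e (h' e), Subgroup.coe_inv, smul_inv_smul,
          ht' w hw h']
    | insert e S _ ih =>
      intro h0
      obtain ⟨τ, hτ, y1, y2, a1, a2, a12, e1, e2⟩ := ih fun h => h0 (Finset.mem_insert_of_mem h)
      obtain ⟨δ0, d1, d2, p, q, d3, d4, d5⟩ := hsep e fun h => h0 (h ▸ Finset.mem_insert_self _ _)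
      obtain ⟨g, hg, g1, g2⟩ := h2t p q y1 y2 d3 (fun h => d5 (h ▸ hH δ0 d1)) a1 a2
        (fun h => d5 (h ▸ d4)) a12
      set δ := g * δ0 * g⁻¹ with hδ
      have b0 : δ ∈ H := H.mul_mem (H.mul_mem hg d1) (H.inv_mem hg)
      have b1 : psi G hB e δ = 1 := by
        rw [hδ, map_mul, map_mul, d2, mul_one, map_inv, mul_inv_cancel]
      have b2 : psi G hB e0 δ y1 = y1 := by
        rw [hδ, map_mul, map_mul, map_inv, ← g1]
        simp [d4]
      have b3 : psi G hB e0 δ y2 ≠ y2 := by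
        rw [hδ, map_mul, map_mul, map_inv, ← g2]
        simpa using d5
      refine ⟨τ * (δ * τ⁻¹ * δ⁻¹), N.mul_mem hτ (hN.conj_mem _ (N.inv_mem hτ) δ),
        psi G hB e0 δ y2, y2, fun h => a2 ((psi G hB e0 δ).injective (h.trans (hH δ b0).symm)),
        a2, b3, ?_, fun w hw h => ?_⟩
      · have c : psi G hB e0 (δ * τ⁻¹ * δ⁻¹) = swap o y1 * swap o (psi G hB e0 δ y2) := by
          conv_rhs => rw [← hH δ b0, ← b2, swap_apply_apply, swap_apply_apply]
          rw [map_mul, map_mul, map_inv, map_inv, e1, mul_inv_rev, swap_inv, swap_inv]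
          group
        rw [map_mul, c, e1, mul_assoc, ← mul_assoc (swap o y1), swap_mul_self, one_mul]
      · by_cases hw' : ∀ y (k : ℤ), w ≠ (σ ^ k) (B e y)
        · have h' : ∀ e', e' ∉ S → ∀ y (k : ℤ), w ≠ (σ ^ k) (B e' y) := fun e' he' => by
            by_cases c : e' = e
            · exact c ▸ hw'
            · exact h e' fun c' => (Finset.mem_insert.1 c').elim c he'
          have c := e2 _ (hP _ _ hw) fun e' he' => out δ⁻¹ w e' (h' e' he')
          simp only [Subgroup.coe_mul, mul_smul, Subgroup.coe_inv] at c ⊢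
          rw [inv_smul_eq_iff.2 c.symm, smul_inv_smul, e2 w hw h']
        · push Not at hw'
          obtain ⟨y, k, rfl⟩ := hw'
          rw [hz, psi_spec hB, map_mul, map_mul, map_mul, map_inv, map_inv, b1]
          simp
  obtain ⟨τ, hτ, y1, y2, a1, a2, a12, e1, e2⟩ := ind (Finset.univ.erase e0) (by simp)
  refine ⟨τ, hτ, y1, y2, a1, a2, a12, e1, fun w hw h => e2 w hw fun e he => ?_⟩
  obtain rfl : e = e0 := by simpa using he
  exact h

end VIsoX

end Pool.Agent.MP_9b2bac_nt.Z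

end

section

/- An aligned three-cycle on one level. -/

set_option autoImplicit false

namespace Pool.Agent.MP_9b2bac_nt.Z

variable {d : ℕ}

/-- The word `y 2 3 ... (d-1) 1 0 ... 0` of period `n`. -/
def ad (d : ℕ) [NeZero d] (n : ℕ) (y : Fin d) : Seq d := fun i =>
  if i % n = 0 then y else if i % n = ((d - 1 : ℕ) : ℤ) then L d 0 else zd d n i

namespace VIsoX

open ZSweep Equiv

theorem addmod {n : ℕ} (hn : 0 < n) (i k : ℤ) (h0 : 0 ≤ k) (h1 : k ≤ n) :
    0 ≤ (i + k) % n ∧ (i + k) % n < n ∧ 0 ≤ i % n ∧ i % n < n ∧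
      ((i + k) % n = i % n + k ∨ (i + k) % n = i % n + k - n) := by
  have hn' : (0 : ℤ) < n := by exact_mod_cast hn
  have a := Int.emod_nonneg i hn'.ne'
  have b := Int.emod_lt_of_pos i hn'
  refine ⟨Int.emod_nonneg _ hn'.ne', Int.emod_lt_of_pos _ hn', a, b, ?_⟩
  rw [← Int.emod_add_emod]
  by_cases h : i % n + k < n
  · exact Or.inl (Int.emod_eq_of_lt (by omega) h)
  · right
    rw [← Int.sub_emod_right]
    exact Int.emod_eq_of_lt (by omega) (by omega)

theorem small {n : ℕ} (k : ℤ) (h0 : 0 ≤ k) (h1 : k < n) : k % n = k := Int.emod_eq_of_lt h0 h1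

theorem mk_fix {u v : Fin d} {j : ℕ} {s : Seq d} (hj : 1 ≤ j)
    (h : ∀ y, s (y + 1) = u → s (y + 2) = v → s y ≠ u ∧ s y ≠ v) : mk u v j s = s := by
  funext i
  by_cases hh : Hit u v j s i
  · have a := h (i + j - 1) (by rw [sub_add_cancel]; exact hh.1 j hj le_rfl)
      (by rw [show i + j - 1 + 2 = i + j + 1 by ring]; exact hh.2)
    rcases hj.eq_or_lt with rfl | h2
    · rw [show i + ((1 : ℕ) : ℤ) - 1 = i by push_cast; ring] at a
      exact mk_oth a.1 a.2
    · refine absurd ?_ a.1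
      have := hh.1 (j - 1) (by omega) (by omega)
      rwa [show i + ((j - 1 : ℕ) : ℤ) = i + j - 1 by omega] at this
  · exact mk_not hh

theorem mk_comp (σ : Perm (Fin d)) (u v : Fin d) (j : ℕ) (s : Seq d) :
    mk (σ u) (σ v) j (fun i => σ (s i)) = fun i => σ (mk u v j s i) := by
  funext i
  have h : Hit (σ u) (σ v) j (fun i => σ (s i)) i ↔ Hit u v j s i := by
    simp [Hit]
  by_cases hh : Hit u v j s i
  · rw [mk_hit (h.2 hh), mk_hit hh, σ.injective.swap_apply]
  · rw [mk_not fun a => hh (h.1 a), mk_not hh]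

theorem per_comp {n : ℕ} {s : Seq d} (h : Per n s) (σ : Perm (Fin d)) :
    Per n fun i => σ (s i) :=
  ⟨h.1, fun i => congrArg σ (h.2.1 i), σ.surjective.comp h.2.2⟩

theorem per_shf {n : ℕ} {s : Seq d} (h : Per n s) (k : ℤ) : Per n (shf s k) :=
  ⟨h.1, fun i => by
    show s (i + n + k) = s (i + k)
    rw [add_right_comm, h.2.1], fun c => by
    obtain ⟨y, hy⟩ := h.2.2 c
    exact ⟨y - k, by simpa [shf] using hy⟩⟩

variable [NeZero d] {n : ℕ}

theorem one_val (hd : 3 ≤ d) : (L d 0).val = 1 := L_val (m := d - 1) (by omega) (by omega)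

theorem zd_spec (hd : 3 ≤ d) (hn : d < n) (i : ℤ) :
    (0 ≤ i % n ∧ i % n < d - 1 ∧ ((zd d n i).val : ℤ) = i % n + 1) ∨
      (d - 1 ≤ i % n ∧ i % n < n ∧ (zd d n i).val = 0) := by
  have a := addmod (n := n) (by omega) i 0 le_rfl (by omega)
  unfold zd
  by_cases h : (i % n).toNat < d - 1
  · rw [min_eq_left h.le, L_val (m := d - 1) (by omega) h]
    omega
  · rw [min_eq_right (not_lt.1 h), L_top (m := d - 1) (by omega), Fin.val_zero]
    omega

theorem ad_spec (hd : 3 ≤ d) (hn : d < n) (y : Fin d) (i : ℤ) :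
    (i % n = 0 ∧ (ad d n y i).val = y.val) ∨
      (0 < i % n ∧ i % n < d - 1 ∧ ((ad d n y i).val : ℤ) = i % n + 1) ∨
      (i % n = d - 1 ∧ (ad d n y i).val = 1) ∨
      (d ≤ i % n ∧ i % n < n ∧ (ad d n y i).val = 0) := by
  have a := zd_spec hd hn i
  unfold ad
  split_ifs with h1 h2
  · exact Or.inl ⟨h1, rfl⟩
  · rw [one_val hd]
    omega
  · omega

theorem ad_zero (y : Fin d) : ad d n y 0 = y := by simp [ad]

theorem zd_per (hd : 3 ≤ d) (hn : d < n) : Per n (zd d n) := by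
  refine ⟨by omega, fun i => by simp [zd], fun c => ?_⟩
  have hc := c.2
  by_cases c0 : c.val = 0
  · have s := zd_spec hd hn (n - 1)
    rw [small _ (by omega) (by omega)] at s
    exact ⟨n - 1, Fin.ext (by omega)⟩
  · have s := zd_spec hd hn (c.val - 1)
    rw [small _ (by omega) (by omega)] at s
    exact ⟨c.val - 1, Fin.ext (by omega)⟩

theorem ad_per (hd : 3 ≤ d) (hn : d < n) (y : Fin d) : Per n (ad d n y) := by
  refine ⟨by omega, fun i => by simp [ad, zd], fun c => ?_⟩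
  have hc := c.2
  by_cases c0 : c.val = 0
  · have s := ad_spec hd hn y (n - 1)
    rw [small _ (by omega) (by omega)] at s
    exact ⟨n - 1, Fin.ext (by omega)⟩
  by_cases c1 : c.val = 1
  · have s := ad_spec hd hn y (d - 1)
    rw [small _ (by omega) (by omega)] at s
    exact ⟨d - 1, Fin.ext (by omega)⟩
  · have s := ad_spec hd hn y (c.val - 1)
    rw [small _ (by omega) (by omega)] at s
    exact ⟨c.val - 1, Fin.ext (by omega)⟩

theorem val_ne {y : Fin d} (hy : y ≠ 0) : y.val ≠ 0 := fun h => hy (Fin.ext h)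

theorem no_zd (hd : 3 ≤ d) (hn : d < n) {i i' : ℤ} (h1 : i + 1 ≤ i') (h2 : zd d n i' = zd d n i)
    (h3 : ∀ k, i + 1 ≤ k → k ≤ i' → zd d n k ≠ 0) : False := by
  have s0 := zd_spec hd hn i
  have s1 := zd_spec hd hn i'
  have n1 := val_ne (h3 i' h1 le_rfl)
  have e := congrArg Fin.val h2
  by_cases c : i + (d - 1 - i % n) ≤ i'
  · have a := addmod (n := n) (by omega) i (d - 1 - i % n) (by omega) (by omega)
    have s2 := zd_spec hd hn (i + (d - 1 - i % n))
    have n2 := val_ne (h3 _ (by omega) c)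
    omega
  · have a := addmod (n := n) (by omega) i (i' - i) (by omega) (by omega)
    rw [add_sub_cancel] at a
    omega

theorem no_ad (hd : 3 ≤ d) (hn : d < n) {y : Fin d} {i i' : ℤ} (h0 : i % n ≠ 0) (h1 : i + 1 ≤ i')
    (h2 : ad d n y i' = ad d n y i) (h3 : ∀ k, i + 1 ≤ k → k ≤ i' → ad d n y k ≠ 0) : False := by
  have s0 := ad_spec hd hn y i
  have s1 := ad_spec hd hn y i'
  have n1 := val_ne (h3 i' h1 le_rfl)
  have e := congrArg Fin.val h2
  by_cases c : i + (d - i % n) ≤ i'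
  · have a := addmod (n := n) (by omega) i (d - i % n) (by omega) (by omega)
    have s2 := ad_spec hd hn y (i + (d - i % n))
    have n2 := val_ne (h3 _ (by omega) c)
    omega
  · have a := addmod (n := n) (by omega) i (i' - i) (by omega) (by omega)
    rw [add_sub_cancel] at a
    omega

variable (d) in
/-- The arrangements of the letters other than `0` and `1`. -/
abbrev Arr : Type := {σ : Perm (Fin d) // σ 0 = 0 ∧ σ (L d 0) = L d 0}

/-- The labelled words of an arrangement. -/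
def Bs (n : ℕ) (σ : Perm (Fin d)) (y : Fin d) : Seq d :=
  if y = 0 then fun i => σ (zd d n i) else fun i => σ (ad d n (σ.symm y) i)

theorem Bs_zero (σ : Perm (Fin d)) : Bs n σ 0 = fun i => σ (zd d n i) := if_pos rfl

theorem Bs_ne (σ : Perm (Fin d)) {y : Fin d} (hy : y ≠ 0) :
    Bs n σ y = fun i => σ (ad d n (σ.symm y) i) := if_neg hy

theorem Bs_at (σ : Perm (Fin d)) {y : Fin d} (hy : y ≠ 0) : Bs n σ y 0 = y := by
  rw [Bs_ne σ hy]
  simp [ad_zero]

theorem Bs_per (hd : 3 ≤ d) (hn : d < n) (σ : Perm (Fin d)) (y : Fin d) : Per n (Bs n σ y) := by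
  unfold Bs
  split_ifs
  exacts [per_comp (zd_per hd hn) σ, per_comp (ad_per hd hn _) σ]

theorem Bs_inj (hd : 3 ≤ d) (hn : d < n) (σ : Perm (Fin d)) : Function.Injective (Bs n σ) := by
  have key : ∀ y, y ≠ 0 → Bs n σ 0 ≠ Bs n σ y := fun y hy h => by
    rw [Bs_zero, Bs_ne σ hy] at h
    have e := congrArg Fin.val (σ.injective (congrFun h (d - 1)))
    have s1 := zd_spec hd hn (d - 1)
    have s2 := ad_spec hd hn (σ.symm y) (d - 1)
    rw [small _ (by omega) (by omega)] at s1 s2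
    omega
  intro x y h
  by_cases hx : x = 0 <;> by_cases hy : y = 0
  · rw [hx, hy]
  · exact absurd (hx ▸ h) (key y hy)
  · exact absurd (hy ▸ h).symm (key x hx)
  · rw [← Bs_at (n := n) σ hx, h, Bs_at σ hy]

theorem rigid (hd : 3 ≤ d) (hn : d < n) {σ : Perm (Fin d)} (h0 : σ 0 = 0) {C : Finset (Fin d)}
    (hC : 0 ∉ C) {t : Seq d} (h : Adm C (Bs n σ 0) t) : t = Bs n σ 0 := by
  rw [Bs_zero] at h ⊢
  funext i
  refine h.fix ?_
  rintro ⟨i', h1, h2, h3⟩
  exact no_zd hd hn h1 (σ.injective h2) fun k a b c => hC (by simpa [c, h0] using h3 k a b)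

theorem semi (hd : 3 ≤ d) (hn : d < n) {σ : Perm (Fin d)} (h0 : σ 0 = 0) {C : Finset (Fin d)}
    (hC : 0 ∉ C) {y : Fin d} (hy : y ≠ 0) {t : Seq d} (ht : Per n t) (h : Adm C (Bs n σ y) t) :
    t = Bs n σ (t 0) := by
  have hne : t 0 ≠ 0 := by
    by_cases a : Bs n σ y 0 ∈ C
    · exact fun e => hC (e ▸ (h.mem_iff 0).2 a)
    · rwa [(h 0).1 a, Bs_at σ hy]
  rw [Bs_ne σ hy] at h
  rw [Bs_ne σ hne]
  funext i
  by_cases hi : i % n = 0
  · rw [← ht.emod, hi]
    simp [ad, hi]
  · rw [h.fix (i := i)]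
    · simp only [ad, if_neg hi]
    · rintro ⟨i', h1, h2, h3⟩
      exact no_ad hd hn hi h1 (σ.injective h2) fun k a b c => hC (by simpa [c, h0] using h3 k a b)

theorem hit_conv (hd : 3 ≤ d) (hn : d < n) {s : Seq d} (h0 : ∀ x : ℤ, (d : ℤ) ≤ x % n → s x = 0)
    (h1 : ∀ x : ℤ, x % n = 0 → s x = L d 0) {i : ℤ} (hi : i % n = d - 1) :
    Hit 0 (L d 0) (n - d) s i := by
  refine hit_of (fun y y1 y2 => h0 y ?_) (i + (n - d + 1)) (by omega) (h1 _ ?_)
  · have a := addmod (n := n) (by omega) i (y - i) (by omega) (by omega)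
    rw [add_sub_cancel] at a
    omega
  · have a := addmod (n := n) (by omega) i (n - d + 1) (by omega) (by omega)
    omega

theorem hit_zd (hd : 3 ≤ d) (hn : d < n) (i : ℤ) :
    Hit 0 (L d 0) (n - d) (zd d n) i ↔ i % n = d - 1 := by
  have o := one_val hd
  refine ⟨fun h => ?_, hit_conv hd hn (fun x hx => Fin.ext ?_) fun x hx => Fin.ext ?_⟩
  · have h2 := congrArg Fin.val h.2
    rw [show i + ((n - d : ℕ) : ℤ) + 1 = i + (n - d + 1) by omega] at h2
    have a := addmod (n := n) (by omega) i (n - d + 1) (by omega) (by omega)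
    have s := zd_spec hd hn (i + (n - d + 1))
    omega
  · have s := zd_spec hd hn x
    rw [Fin.val_zero]
    omega
  · have s := zd_spec hd hn x
    omega

theorem hit_ad (hd : 3 ≤ d) (hn : d < n) {y : Fin d} (hy : y ≠ 0) (i : ℤ) :
    Hit 0 (L d 0) (n - d) (ad d n y) i ↔ i % n = d - 1 ∧ y = L d 0 := by
  have o := one_val hd
  have hy' := val_ne hy
  refine ⟨fun h => ?_, fun h =>
    hit_conv hd hn (fun x hx => Fin.ext ?_) (fun x hx => Fin.ext ?_) h.1⟩
  · have h2 := congrArg Fin.val h.2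
    have h3 := congrArg Fin.val (h.1 (n - d) (by omega) le_rfl)
    rw [show i + ((n - d : ℕ) : ℤ) + 1 = i + (n - d + 1) by omega] at h2
    rw [show i + ((n - d : ℕ) : ℤ) = i + (n - d) by omega, Fin.val_zero] at h3
    have a := addmod (n := n) (by omega) i (n - d + 1) (by omega) (by omega)
    have b := addmod (n := n) (by omega) i (n - d) (by omega) (by omega)
    have s := ad_spec hd hn y (i + (n - d + 1))
    have s' := ad_spec hd hn y (i + (n - d))
    rw [Fin.ext_iff]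
    omega
  · have s := ad_spec hd hn y x
    rw [Fin.val_zero]
    omega
  · have s := ad_spec hd hn y x
    have e := congrArg Fin.val h.2
    omega

theorem mk_zd (hd : 3 ≤ d) (hn : d < n) : mk 0 (L d 0) (n - d) (zd d n) = ad d n (L d 0) := by
  funext i
  have o := one_val hd
  have s := zd_spec hd hn i
  have s' := ad_spec hd hn (L d 0) i
  by_cases h : i % n = d - 1
  · rw [mk_hit ((hit_zd hd hn i).2 h), show zd d n i = 0 from Fin.ext (by rw [Fin.val_zero]; omega),
      swap_apply_left]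
    exact Fin.ext (by omega)
  · rw [mk_not fun a => h ((hit_zd hd hn i).1 a)]
    exact Fin.ext (by omega)

theorem one_ne (hd : 3 ≤ d) : L d 0 ≠ 0 := L_ne (m := d - 1) (by omega) (by omega)

theorem mk_ad (hd : 3 ≤ d) (hn : d < n) : mk 0 (L d 0) (n - d) (ad d n (L d 0)) = zd d n := by
  funext i
  have o := one_val hd
  have s := zd_spec hd hn i
  have s' := ad_spec hd hn (L d 0) i
  by_cases h : i % n = d - 1
  · rw [mk_hit ((hit_ad hd hn (one_ne hd) i).2 ⟨h, rfl⟩),
      show ad d n (L d 0) i = L d 0 from Fin.ext (by omega), swap_apply_right]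
    exact Fin.ext (by rw [Fin.val_zero]; omega)
  · rw [mk_not fun a => h ((hit_ad hd hn (one_ne hd) i).1 a).1]
    exact Fin.ext (by omega)

theorem mk_Bs (hd : 3 ≤ d) (hn : d < n) (σ : Arr d) (y : Fin d) :
    mk 0 (L d 0) (n - d) (Bs n σ.1 y) = Bs n σ.1 (swap 0 (L d 0) y) := by
  have key : ∀ s : Seq d, mk 0 (L d 0) (n - d) (fun i => σ.1 (s i)) =
      fun i => σ.1 (mk 0 (L d 0) (n - d) s i) := fun s => by
    have := mk_comp σ.1 0 (L d 0) (n - d) s
    rwa [σ.2.1, σ.2.2] at this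
  have e : σ.1.symm (L d 0) = L d 0 := by rw [symm_apply_eq, σ.2.2]
  by_cases h0 : y = 0
  · rw [h0, swap_apply_left, Bs_zero, Bs_ne _ (one_ne hd), key, mk_zd hd hn, e]
  by_cases h1 : y = L d 0
  · rw [h1, swap_apply_right, Bs_zero, Bs_ne _ (one_ne hd), key, e, mk_ad hd hn]
  · rw [swap_apply_of_ne_of_ne h0 h1, Bs_ne _ h0, key]
    funext i
    rw [mk_not fun a => h1 ?_]
    have := ((hit_ad hd hn (fun b => h0 (by rwa [symm_apply_eq, σ.2.1] at b)) i).1 a).2
    rwa [symm_apply_eq, σ.2.2] at this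

theorem hit_cls (hd : 3 ≤ d) (hn : d < n) {m : ℕ} (hm : m ≤ n) {s : Seq d} (h : Per m s)
    (hne : mk 0 (L d 0) (n - d) s ≠ s) :
    m = n ∧ ∃ (σ : Arr d) (y : Fin d) (k : ℤ), s = shf (Bs n σ.1 y) k := by
  obtain ⟨i, hi⟩ := Function.ne_iff.1 hne
  have hh : Hit 0 (L d 0) (n - d) s i := by
    by_contra hno
    exact hi (mk_not hno)
  have ha : s i = 0 ∨ s i = L d 0 := by
    by_contra hno
    push Not at hno
    exact hi (mk_oth hno.1 hno.2)
  have o := one_val hd
  let f : Fin d → Fin d := fun x => if x = 0 then 0 else s (i + (n - d) + x.val)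
  have f0 : f 0 = 0 := if_pos rfl
  have fv : ∀ x : Fin d, x.val ≠ 0 → f x = s (i + (n - d) + x.val) := fun x hx =>
    if_neg fun e => hx (by rw [e, Fin.val_zero])
  have f1 : f (L d 0) = L d 0 := by
    rw [fv _ (by omega), o, ← hh.2]
    exact congrArg s (by omega)
  have key : ∀ c, c ≠ 0 → c ≠ L d 0 → ∃ x : Fin d, x.val + (n - d) < m ∧ f x = c := by
    intro c c0 c1
    obtain ⟨x, hx⟩ := h.2.2 c
    obtain ⟨k, k1, k2, -⟩ := ZGiant.per_shift h i x
    rw [hx] at k2
    have k3 : n - d + 2 ≤ k := by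
      by_contra hk
      rcases Nat.eq_zero_or_pos k with rfl | k4
      · rw [Nat.cast_zero, add_zero] at k2
        exact ha.elim (fun e => c0 (k2 ▸ e)) fun e => c1 (k2 ▸ e)
      by_cases k5 : k ≤ n - d
      · exact c0 (k2 ▸ hh.1 k k4 k5)
      · refine c1 ?_
        rw [← k2, ← hh.2]
        exact congrArg s (by omega)
    refine ⟨⟨k - (n - d), by omega⟩, by simp only; omega, ?_⟩
    rw [fv _ (by simp only; omega), ← k2]
    exact congrArg s (by simp only; omega)
  have hs : Function.Surjective f := fun c => by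
    by_cases c0 : c = 0
    · exact ⟨0, c0 ▸ f0⟩
    by_cases c1 : c = L d 0
    · exact ⟨L d 0, c1 ▸ f1⟩
    · exact (key c c0 c1).imp fun _ hx => hx.2
  have hb := Finite.surjective_iff_bijective.1 hs
  obtain rfl : m = n := by
    obtain ⟨x, hx, e⟩ := key (f ⟨d - 1, by omega⟩)
      (fun e => by
        have := congrArg Fin.val (hb.1 (e.trans f0.symm))
        simp only [Fin.val_zero] at this
        omega)
      (fun e => by
        have := congrArg Fin.val (hb.1 (e.trans f1.symm))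
        simp only at this
        omega)
    have := congrArg Fin.val (hb.1 e)
    simp only at this
    omega
  refine ⟨rfl, ⟨ofBijective f hb, f0, f1⟩, s i, -(i + (m - d) + 1), ?_⟩
  refine ZGiant.window h (per_shf (Bs_per hd hn _ _) _) (i + (m - d) + 1) fun k hk => ?_
  simp only [shf]
  rw [show i + (m - d) + 1 + k + -(i + (m - d) + 1) = k by ring]
  have gen : ∀ r : Seq d, (∀ x : ℤ, 0 ≤ x → x < d - 1 → ((r x).val : ℤ) = x + 1) →
      r (d - 1) = s i → (∀ x : ℤ, d ≤ x → x < m → r x = 0) →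
      s (i + (m - d) + 1 + k) = f (r k) := by
    intro r r1 r2 r3
    rcases lt_trichotomy (k : ℤ) (d - 1) with c | c | c
    · have := r1 k (by omega) c
      rw [fv _ (by omega)]
      exact congrArg s (by omega)
    · rw [c, r2, show i + (m - d) + 1 + (d - 1) = i + m by ring, h.2.1]
      rcases ha with e | e <;> rw [e]
      exacts [f0.symm, f1.symm]
    · rw [r3 k (by omega) (by omega), f0, ← hh.1 (k + 1 - d) (by omega) (by omega), ← h.2.1]
      rw [← h.2.1 (i + ((k + 1 - d : ℕ) : ℤ)), ← h.2.1 (i + ((k + 1 - d : ℕ) : ℤ) + m)]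
      exact congrArg s (by omega)
  rcases ha with e | e
  · rw [e, Bs_zero]
    refine gen (zd d m) (fun x a b => ?_) (Eq.trans (Fin.ext ?_) e.symm) fun x a b => Fin.ext ?_
    · have s1 := zd_spec hd hn x
      rw [small _ a (by omega)] at s1
      omega
    · have s1 := zd_spec hd hn (d - 1)
      rw [small _ (by omega) (by omega)] at s1
      rw [Fin.val_zero]
      omega
    · have s1 := zd_spec hd hn x
      rw [small _ (by omega) b] at s1
      rw [Fin.val_zero]
      omega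
  · rw [e, Bs_ne _ (one_ne hd), show (ofBijective f hb).symm (L d 0) = L d 0 from
      (symm_apply_eq _).2 f1.symm]
    refine gen (ad d m (L d 0)) (fun x a b => ?_) (Eq.trans (Fin.ext ?_) e.symm) fun x a b => Fin.ext ?_
    · have s1 := ad_spec hd hn (L d 0) x
      rw [small _ a (by omega)] at s1
      omega
    · have s1 := ad_spec hd hn (L d 0) (d - 1)
      rw [small _ (by omega) (by omega)] at s1
      omega
    · have s1 := ad_spec hd hn (L d 0) x
      rw [small _ (by omega) b] at s1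
      rw [Fin.val_zero]
      omega

theorem occ_ad (hd : 3 ≤ d) (hn : d < n) {C : Finset (Fin d)} {x : Fin d} (hx : 2 ≤ x.val)
    (hC : ∀ u : Fin d, 2 ≤ u.val → u.val ≤ x.val → u ∈ C) (y : Fin d) :
    Occ C (ad d n y) (0 + 1) x := by
  have := x.2
  refine ⟨x.val - 1, by omega, Fin.ext ?_, fun k a b => ?_⟩
  · have s := ad_spec hd hn y (x.val - 1)
    rw [small _ (by omega) (by omega)] at s
    omega
  · have s := ad_spec hd hn y k
    rw [small _ (by omega) (by omega)] at s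
    exact hC _ (by omega) (by omega)

theorem occ_all (hd : 3 ≤ d) (hn : d < n) {x : Fin d} (hx : x ≠ 0) (y : Fin d) :
    Occ (Finset.univ.erase 0) (ad d n y) (0 + 1) x := by
  have h0 := val_ne hx
  have hm : ∀ u : Fin d, u.val ≠ 0 → u ∈ (Finset.univ.erase 0 : Finset (Fin d)) := fun u hu =>
    Finset.mem_erase.2 ⟨fun e => hu (by rw [e, Fin.val_zero]), Finset.mem_univ _⟩
  by_cases h : 2 ≤ x.val
  · exact occ_ad hd hn h (fun u a _ => hm u (by omega)) y
  refine ⟨d - 1, by omega, Fin.ext ?_, fun k a b => ?_⟩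
  · have s := ad_spec hd hn y (d - 1)
    rw [small _ (by omega) (by omega)] at s
    omega
  · have s := ad_spec hd hn y k
    rw [small _ (by omega) (by omega)] at s
    exact hm _ (by omega)

end VIsoX

open VIsoX ZSweep

theorem zd_prim [NeZero d] (hd : 3 ≤ d) {n : ℕ} (hn : d < n) : Prim n (zd d n) := by
  refine ⟨zd_per hd hn, fun m hm h => ?_⟩
  have h0 := h.1
  have e := congrArg Fin.val (h.2.1 0)
  rw [zero_add] at e
  have s1 := zd_spec hd hn m
  have s2 := zd_spec hd hn 0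
  rw [small _ (by omega) (by omega)] at s1 s2
  omega

theorem ad_prim [NeZero d] (hd : 3 ≤ d) {n : ℕ} (hn : d < n) {y : Fin d} (hy : y ≠ 0) :
    Prim n (ad d n y) := by
  refine ⟨ad_per hd hn y, fun m hm h => ?_⟩
  have h0 := h.1
  have hy' := val_ne hy
  have e1 := congrArg Fin.val (h.2.1 (d - 1))
  have e2 := congrArg Fin.val (h.2.1 d)
  rw [add_comm] at e1 e2
  have a1 := addmod (n := n) (by omega) m (d - 1) (by omega) (by omega)
  have a2 := addmod (n := n) (by omega) m d (by omega) (by omega)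
  rw [small (n := n) m (by omega) (by omega)] at a1 a2
  have s1 := ad_spec hd hn y (m + (d - 1))
  have s2 := ad_spec hd hn y (m + d)
  have s3 := ad_spec hd hn y (d - 1)
  have s4 := ad_spec hd hn y d
  rw [small _ (by omega) (by omega)] at s3 s4
  omega

theorem zd_rigid [NeZero d] (hd : 3 ≤ d) {n : ℕ} (hn : d < n) (t : Seq d)
    (h : Adm (Finset.univ.erase 0) (zd d n) t) : t = zd d n := by
  have := rigid hd hn (σ := 1) rfl (Finset.notMem_erase 0 Finset.univ) (t := t)
  rw [Bs_zero] at this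
  exact this h

theorem mk_fix_ad [NeZero d] (hd : 3 ≤ d) {n : ℕ} (hn : d < n) {u v : Fin d} (huv : u ≠ v) {j : ℕ}
    (hj : 1 ≤ j) : mk u v j (zd d n) = zd d n ∨ ∃ y, y ≠ 0 ∧ mk u v j (ad d n y) = ad d n y := by
  by_cases h : u.val = 0 ∧ v.val = 1
  · refine Or.inr ⟨⟨2, by omega⟩, fun e => by simpa using congrArg Fin.val e,
      mk_fix hj fun y h1 h2 => ?_⟩
    have a1 := addmod (n := n) (by omega) y 1 (by omega) (by omega)
    have a2 := addmod (n := n) (by omega) y 2 (by omega) (by omega)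
    have s1 := ad_spec hd hn ⟨2, by omega⟩ (y + 1)
    have s2 := ad_spec hd hn ⟨2, by omega⟩ (y + 2)
    rw [h1] at s1
    rw [h2] at s2
    simp only at s1 s2
    omega
  · refine Or.inl (mk_fix hj fun y h1 h2 => ?_)
    have a1 := addmod (n := n) (by omega) y 1 (by omega) (by omega)
    have a2 := addmod (n := n) (by omega) y 2 (by omega) (by omega)
    have s0 := zd_spec hd hn y
    have s1 := zd_spec hd hn (y + 1)
    have s2 := zd_spec hd hn (y + 2)
    rw [h1] at s1
    rw [h2] at s2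
    simp only [ne_eq, Fin.ext_iff] at huv ⊢
    omega

theorem ad_nc [NeZero d] (hd : 3 ≤ d) {n : ℕ} (hn : d < n) {y y' : Fin d} (hy : y ≠ 0) (hy' : y' ≠ 0)
    (k : ℤ) : shf (zd d n) k ≠ ad d n y ∧ (y ≠ y' → shf (ad d n y) k ≠ ad d n y') := by
  have h0 := val_ne hy
  refine ⟨fun h => ?_, fun hne h => hne (Fin.ext ?_)⟩
  · have e1 := congrArg Fin.val (congrFun h 0)
    have e2 := congrArg Fin.val (congrFun h (d - 1 - k % n))
    simp only [shf] at e1 e2
    rw [zero_add, ad_zero] at e1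
    rw [add_comm] at e2
    have s1 := zd_spec hd hn k
    have a := addmod (n := n) (by omega) k (d - 1 - k % n) (by omega) (by omega)
    have s2 := zd_spec hd hn (k + (d - 1 - k % n))
    have s3 := ad_spec hd hn y (d - 1 - k % n)
    rw [small _ (by omega) (by omega)] at s3
    omega
  · have e0 := congrArg Fin.val (congrFun h 0)
    have e1 := congrArg Fin.val (congrFun h (d - 1))
    have e2 := congrArg Fin.val (congrFun h d)
    simp only [shf] at e0 e1 e2
    rw [zero_add, ad_zero] at e0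
    rw [add_comm] at e1 e2
    have a1 := addmod (n := n) (by omega) k (d - 1) (by omega) (by omega)
    have a2 := addmod (n := n) (by omega) k d (by omega) (by omega)
    have s0 := ad_spec hd hn y k
    have s1 := ad_spec hd hn y (k + (d - 1))
    have s2 := ad_spec hd hn y (k + d)
    have s3 := ad_spec hd hn y' (d - 1)
    have s4 := ad_spec hd hn y' d
    rw [small _ (by omega) (by omega)] at s3 s4
    omega

namespace VIsoX

open Equiv

variable [NeZero d] {n : ℕ} {I : Finset ℕ}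

/-- The labelled words as points. -/
def Bw (hd : 3 ≤ d) (hn : d < n) (hI : n ∈ I) (σ : Arr d) (y : Fin d) : W d I :=
  ⟨Bs n σ.1 y, n, hI, Bs_per hd hn σ.1 y⟩

theorem Bw_inj (hd : 3 ≤ d) (hn : d < n) (hI : n ∈ I) (σ : Arr d) :
    Function.Injective (Bw hd hn hI σ) := fun _ _ h => Bs_inj hd hn σ.1 (congrArg Subtype.val h)

variable (d) in
/-- The standard arrangement. -/
def e0 : Arr d := ⟨1, rfl, rfl⟩

theorem Bs_e0 {y : Fin d} (hy : y ≠ 0) : Bs n (e0 d).1 y = ad d n y := Bs_ne _ hy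

/-- The admissible elements. -/
def HC {d : ℕ} (I : Finset ℕ) (G : Type) [Group G] [MulAction G (W d I)] (C : Finset (Fin d)) :
    Subgroup G where
  carrier := {g | ∀ w : W d I, Adm C w.1 (g • w).1}
  mul_mem' := fun {a b} ha hb w => by
    rw [mul_smul]
    exact (hb w).trans (ha _)
  one_mem' := fun w => by
    rw [one_smul]
    exact Adm.refl _ _
  inv_mem' := fun {a} ha w => by
    have := (ha (a⁻¹ • w)).symm
    rwa [smul_inv_smul] at this

variable {G : Type} [Group G] [MulAction G (W d I)] {C C' : Finset (Fin d)}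

omit [NeZero d] in
theorem HC_mono (h : C' ⊆ C) {g : G} (hg : g ∈ HC I G C') : g ∈ HC I G C := fun w => (hg w).mono h

variable (hd : 3 ≤ d) (hn : d < n) (hI : n ∈ I)
  (hsh : ∀ (g : G) (w : W d I), g • shW d I w = shW d I (g • w))

theorem hc_zero (hC : 0 ∉ C) {g : G} (hg : g ∈ HC I G C) (σ : Arr d) :
    g • Bw hd hn hI σ 0 = Bw hd hn hI σ 0 := 
  Subtype.ext (rigid hd hn σ.2.1 hC (hg (Bw hd hn hI σ 0)))

include hsh

theorem hc_ne (hC : 0 ∉ C) {g : G} (hg : g ∈ HC I G C) (σ : Arr d) {y : Fin d} (hy : y ≠ 0) :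
    g • Bw hd hn hI σ y = Bw hd hn hI σ ((g • Bw hd hn hI σ y).1 0) :=
  Subtype.ext (semi hd hn σ.2.1 hC hy
    (ZGrp.per_map (fun w => g • w) (hsh g) (w := Bw hd hn hI σ y) (Bs_per hd hn _ _))
    (hg (Bw hd hn hI σ y)))

theorem hc_MM (hC : 0 ∉ C) {g : G} (hg : g ∈ HC I G C) : g ∈ MM G (Bw hd hn hI) :=
  mem_MM (Bw_inj hd hn hI) fun σ y => by
    by_cases hy : y = 0
    · exact ⟨0, hy ▸ hc_zero hd hn hI hC hg σ⟩
    · exact ⟨_, hc_ne hd hn hI hsh hC hg σ hy⟩

theorem pres (hC : 0 ∉ C) {g : MM G (Bw hd hn hI)} (hg : (g : G) ∈ HC I G C) (σ : Arr d)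
    (y : Fin d) : (y ∉ C → psi G (Bw_inj hd hn hI) σ g y = y) ∧
      ∀ b : Fin d, 2 ≤ b.val → σ.1 b ∉ C → psi G (Bw_inj hd hn hI) σ g y = y ∨
        ∃ x : Fin d, 2 ≤ x.val ∧ x.val < b.val ∧ psi G (Bw_inj hd hn hI) σ g y = σ.1 x := by
  have h1 : y ∉ C → psi G (Bw_inj hd hn hI) σ g y = y := fun hy => by
    by_cases h0 : y = 0
    · exact h0 ▸ psi_eq _ (hc_zero hd hn hI hC hg σ)
    · rw [psi_eq _ (hc_ne hd hn hI hsh hC hg σ h0)]
      have e : (Bw hd hn hI σ y).1 0 = y := Bs_at _ h0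
      rw [(hg _ 0).1 (e.symm ▸ hy), e]
  refine ⟨h1, fun b hb hbC => ?_⟩
  by_cases hy : y ∈ C
  swap
  · exact Or.inl (h1 hy)
  have h0 : y ≠ 0 := fun e => hC (e ▸ hy)
  rw [psi_eq _ (hc_ne hd hn hI hsh hC hg σ h0)]
  have e : (Bw hd hn hI σ y).1 0 = y := Bs_at _ h0
  obtain ⟨i, i0, i1, i2⟩ := (hg (Bw hd hn hI σ y)).occ (i := 0) (e.symm ▸ hy)
  rw [← i1]
  rcases i0.eq_or_lt with rfl | i3
  · exact Or.inl e
  have e' : (Bw hd hn hI σ y).1 = fun i => σ.1 (ad d n (σ.1.symm y) i) := Bs_ne _ h0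
  have hb' := b.2
  have i4 : i < b.val - 1 := by
    by_contra c
    have := i2 (b.val - 1) (by omega) (by omega)
    have s := ad_spec hd hn (σ.1.symm y) (b.val - 1)
    rw [small _ (by omega) (by omega)] at s
    rw [e'] at this
    simp only at this
    rw [show ad d n (σ.1.symm y) (b.val - 1) = b from Fin.ext (by omega)] at this
    exact hbC this
  have s := ad_spec hd hn (σ.1.symm y) i
  rw [small _ (by omega) (by omega)] at s
  exact Or.inr ⟨ad d n (σ.1.symm y) i, by omega, by omega, by rw [e']⟩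

theorem mv (hmv : MvG (d := d) I G) (hC : 0 ∉ C) {x y : Fin d} (hy : y ∈ C)
    (ox : Occ C (ad d n y) (0 + 1) x) (oy : Occ C (ad d n y) (0 + 1) y) :
    ∃ g : MM G (Bw hd hn hI), (g : G) ∈ HC I G C ∧ psi G (Bw_inj hd hn hI) (e0 d) g y = x := by
  have h0 : y ≠ 0 := fun e => hC (e ▸ hy)
  have e : (Bw hd hn hI (e0 d) y).1 = ad d n y := Bs_e0 h0
  obtain ⟨g, h1, h2, -⟩ := hmv C (Bw hd hn hI (e0 d) y) 0 x
    (fun h => hC (h ▸ Finset.mem_univ _)) (by rwa [e, ad_zero]) (by rwa [e, ad_zero])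
    (by rwa [e])
  exact ⟨⟨g, hc_MM hd hn hI hsh hC h1⟩, h1,
    (psi_eq _ (hc_ne hd hn hI hsh hC h1 _ h0)).trans h2⟩

theorem mv2 (hmv : MvG (d := d) I G) (hC : 0 ∉ C) {r : ℕ}
    (hr : ∀ u : Fin d, 2 ≤ u.val → u.val < r → u ∈ C) {x y : Fin d}
    (hx : 2 ≤ x.val ∧ x.val < r) (hy : 2 ≤ y.val ∧ y.val < r) :
    ∃ g : MM G (Bw hd hn hI), (g : G) ∈ HC I G C ∧ psi G (Bw_inj hd hn hI) (e0 d) g x = y :=
  mv hd hn hI hsh hmv hC (hr x hx.1 hx.2) (occ_ad hd hn hy.1 (fun u a b => hr u a (by omega)) x)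
    (occ_ad hd hn hx.1 (fun u a b => hr u a (by omega)) x)

theorem psi_mu {f1 f2 : Fin d} (h1 : f1.val = 2) (h2 : f2.val = 3) {μ : G}
    (hμ : ∀ w : W d I, (μ • w).1 = mk f1 f2 1 w.1) :
    ∃ h : μ ∈ MM G (Bw hd hn hI), μ ∈ HC (d := d) I G (Finset.univ.erase 0) ∧ ∀ σ : Arr d,
      psi G (Bw_inj hd hn hI) σ ⟨μ, h⟩ = if σ.1 f1 = f1 ∧ σ.1 f2 = f2 then swap f1 f2 else 1 := by
  have n1 : f1 ≠ 0 := fun e => by simp [e] at h1
  have n2 : f2 ≠ 0 := fun e => by simp [e] at h2
  have hC : (0 : Fin d) ∉ Finset.univ.erase 0 := Finset.notMem_erase _ _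
  have hH : μ ∈ HC (d := d) I G (Finset.univ.erase 0) := fun w => by
    obtain ⟨m, -, hm⟩ := w.2
    rw [hμ]
    refine (mk_adm (fun e => by rw [e] at h1; omega) le_rfl (hm.term fun e => ?_)).mono ?_
    · have : (0 : Fin d) ∈ ({f1, f2} : Finset (Fin d)) := e ▸ Finset.mem_univ _
      simp [n1.symm, n2.symm] at this
    · intro x hx
      simp only [Finset.mem_insert, Finset.mem_singleton] at hx
      rcases hx with rfl | rfl <;> simp [n1, n2]
  refine ⟨hc_MM hd hn hI hsh hC hH, hH, fun σ => Equiv.ext fun y => ?_⟩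
  by_cases h0 : y = 0
  · rw [h0, psi_eq _ (hc_zero hd hn hI hC hH σ)]
    split_ifs
    · exact (swap_apply_of_ne_of_ne n1.symm n2.symm).symm
    · rfl
  rw [psi_eq _ (hc_ne hd hn hI hsh hC hH σ h0), hμ]
  have e : (Bw hd hn hI σ y).1 0 = y := Bs_at _ h0
  have e' : (Bw hd hn hI σ y).1 = fun i => σ.1 (ad d n (σ.1.symm y) i) := Bs_ne _ h0
  have hf := f2.2
  have s1 := ad_spec hd hn (σ.1.symm y) 1
  have s2 := ad_spec hd hn (σ.1.symm y) 2
  rw [small _ (by omega) (by omega)] at s1 s2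
  have e1 : (Bw hd hn hI σ y).1 1 = σ.1 f1 := by
    rw [e']
    exact congrArg σ.1 (Fin.ext (by omega))
  have e2 : (Bw hd hn hI σ y).1 2 = σ.1 f2 := by
    rw [e']
    exact congrArg σ.1 (Fin.ext (by omega))
  split_ifs with c
  · rw [mk_hit (hit_one 1 2 rfl rfl (e1.trans c.1) (e2.trans c.2)), e]
  · rw [mk_not fun a => c ⟨e1.symm.trans (a.1 1 le_rfl le_rfl), e2.symm.trans a.2⟩, e]
    rfl

theorem sep_arr
    (hmk : ∀ (u v : Fin d) (j : ℕ), u ≠ v → 1 ≤ j → ∃ g : G, ∀ w : W d I, (g • w).1 = mk u v j w.1)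
    (hmv : MvG (d := d) I G) (σ : Arr d) (hσ : σ ≠ e0 d) :
    ∃ δ ∈ (HC (d := d) I G (Finset.univ.erase 0)).subgroupOf (MM G (Bw hd hn hI)),
      psi G (Bw_inj hd hn hI) σ δ = 1 ∧ ∃ p q, p ≠ 0 ∧ psi G (Bw_inj hd hn hI) (e0 d) δ p = p ∧
        psi G (Bw_inj hd hn hI) (e0 d) δ q ≠ q := by
  have o := one_val hd
  obtain ⟨a, ha, hmin⟩ := Finset.exists_min_image (Finset.univ.filter fun x => σ.1 x ≠ x)
    (fun x => x.val) (by
      by_contra h
      refine hσ (Subtype.ext (Equiv.ext fun x => ?_))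
      by_contra c
      exact h ⟨x, Finset.mem_filter.2 ⟨Finset.mem_univ _, c⟩⟩)
  have ha' : σ.1 a ≠ a := (Finset.mem_filter.1 ha).2
  have hlt : ∀ x : Fin d, x.val < a.val → σ.1 x = x := fun x hx => by
    by_contra c
    exact absurd (hmin x (Finset.mem_filter.2 ⟨Finset.mem_univ _, c⟩)) (by omega)
  have a2 : 2 ≤ a.val := by
    by_contra c
    rcases (by omega : a.val = 0 ∨ a.val = 1) with e | e
    · rw [show a = 0 from Fin.ext e] at ha'
      exact ha' σ.2.1
    · rw [show a = L d 0 from Fin.ext (by omega)] at ha'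
      exact ha' σ.2.2
  set b := σ.1 a with hb
  have ab : a.val < b.val := by
    rcases lt_trichotomy a.val b.val with c | c | c
    · exact c
    · exact absurd (Fin.ext c.symm) ha'
    · exact absurd (σ.1.injective (hlt b c)) ha'
  have hb' := b.2
  let f1 : Fin d := ⟨2, by omega⟩
  let f2 : Fin d := ⟨3, by omega⟩
  have h12 : f1 ≠ f2 := fun e => by simpa [f1, f2] using congrArg Fin.val e
  obtain ⟨μ, hμ⟩ := hmk f1 f2 1 h12 le_rfl
  obtain ⟨hM, hH, hp⟩ := psi_mu hd hn hI hsh (f1 := f1) (f2 := f2) rfl rfl hμ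
  have m0 : psi G (Bw_inj hd hn hI) (e0 d) ⟨μ, hM⟩ = swap f1 f2 := by
    rw [hp, if_pos ⟨rfl, rfl⟩]
  by_cases c : a.val ≤ 3
  · refine ⟨⟨μ, hM⟩, hH, ?_, L d 0, f1, one_ne hd, ?_, ?_⟩
    · rw [hp, if_neg]
      rintro ⟨c1, c2⟩
      rcases (by omega : a.val = 2 ∨ a.val = 3) with e | e
      · exact ha' (by rw [hb, show a = f1 from Fin.ext e, c1])
      · exact ha' (by rw [hb, show a = f2 from Fin.ext e, c2])
    · rw [m0]
      exact swap_apply_of_ne_of_ne (fun e => by simp [e, f1] at o) fun e => by simp [e, f2] at o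
    · rw [m0, swap_apply_left]
      exact h12.symm
  have hC : (0 : Fin d) ∉ (Finset.univ.erase 0).erase b := by simp
  have hm : ∀ u : Fin d, 2 ≤ u.val → u.val < b.val → u ∈ (Finset.univ.erase 0).erase b :=
    fun u u1 u2 => by
      simp only [Finset.mem_erase, Finset.mem_univ, ne_eq, Fin.ext_iff, Fin.val_zero, and_true]
      omega
  obtain ⟨δ, d1, d2, d3, q, d4⟩ := sep (psi G (Bw_inj hd hn hI) (e0 d)) (psi G (Bw_inj hd hn hI) σ)
    ((HC (d := d) I G (Finset.univ.erase 0)).subgroupOf (MM G (Bw hd hn hI)))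
    ((HC I G ((Finset.univ.erase 0).erase b)).subgroupOf (MM G (Bw hd hn hI)))
    (fun g hg => HC_mono (Finset.erase_subset _ _) hg)
    (Finset.univ.filter fun x : Fin d => 2 ≤ x.val ∧ x.val < a.val) a (L d 0) f1 f2 (by simp)
    (by
      simp only [Finset.mem_insert, Finset.mem_filter, Finset.mem_univ, true_and, Fin.ext_iff]
      omega)
    (by simp only [Finset.mem_filter, Finset.mem_univ, true_and, f1]; omega)
    (by simp only [Finset.mem_filter, Finset.mem_univ, true_and, f2]; omega) h12 ⟨μ, hM⟩ hH m0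
    (by rw [hp, if_pos ⟨hlt f1 (by simp only [f1]; omega), hlt f2 (by simp only [f2]; omega)⟩])
    (fun g hg x hx => by
      rcases (pres hd hn hI hsh hC hg σ x).2 a a2 (by simp [hb]) with e | ⟨z, z1, z2, e⟩
      · rwa [e]
      · rw [e, hlt z z2]
        exact Finset.mem_filter.2 ⟨Finset.mem_univ _, z1, z2⟩)
    (fun x hx y hy hxy => by
      simp only [Finset.mem_insert, Finset.mem_filter, Finset.mem_univ, true_and,
        Fin.ext_iff] at hx hy
      refine two_trans _ _ (fun x : Fin d => 2 ≤ x.val ∧ x.val < b.val) ⟨b.val - 1, by omega⟩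
        (by simp only; omega) (fun g hg u hu => ?_)
        (fun u v hu hv => mv2 hd hn hI hsh hmv hC hm hu hv) (fun u v hu hv u1 v1 => ?_)
        (by simp only [f1]; omega) (by simp only [f2]; omega) (by omega) (by omega) h12 hxy
      · rcases (pres hd hn hI hsh hC hg (e0 d) u).2 b (by omega) (Finset.notMem_erase _ _) with
          e | ⟨z, z1, z2, e⟩
        · rwa [e]
        · rw [e]
          exact ⟨z1, z2⟩
      · have hC' : (0 : Fin d) ∉ ((Finset.univ.erase 0).erase b).erase ⟨b.val - 1, by omega⟩ :=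
          fun h => hC (Finset.mem_of_mem_erase h)
        simp only [ne_eq, Fin.ext_iff] at u1 v1
        obtain ⟨g, g1, g2⟩ := mv2 hd hn hI hsh hmv hC' (r := b.val - 1)
          (fun z z1 z2 => Finset.mem_erase.2 ⟨by simp only [ne_eq, Fin.ext_iff]; omega,
            hm z z1 (by omega)⟩) (x := u) (y := v) (by omega) (by omega)
        exact ⟨g, HC_mono (Finset.erase_subset _ _) g1,
          (pres hd hn hI hsh hC' g1 (e0 d) _).1 (Finset.notMem_erase _ _), g2⟩)
  exact ⟨δ, d1, d2, L d 0, q, one_ne hd, d3, d4⟩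

end VIsoX

theorem iso [NeZero d] (hd : 3 ≤ d) {n : ℕ} (hn' : d < n) {I : Finset ℕ} (hI : n ∈ I) (G : Type)
    [Group G] [Finite G] [MulAction G (W d I)]
    (hsh : ∀ (g : G) (w : W d I), g • shW d I w = shW d I (g • w))
    (hmk : ∀ (u v : Fin d) (j : ℕ), u ≠ v → 1 ≤ j → ∃ g : G, ∀ w : W d I, (g • w).1 = mk u v j w.1)
    (hmv : MvG (d := d) I G) :
    ∃ τ ∈ lowD (d := d) I G n, ∃ y y' : Fin d, y ≠ 0 ∧ y' ≠ 0 ∧ y ≠ y' ∧ ∀ w : W d I, Per n w.1 →
      (w.1 = zd d n → (τ • w).1 = ad d n y) ∧ (w.1 = ad d n y → (τ • w).1 = ad d n y') ∧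
      (w.1 = ad d n y' → (τ • w).1 = zd d n) ∧
      ((∀ k, w.1 ≠ shf (zd d n) k ∧ w.1 ≠ shf (ad d n y) k ∧ w.1 ≠ shf (ad d n y') k) →
        τ • w = w) := by
  have o := one_val hd
  have hP : ∀ (m : ℕ) (g : G) (w : W d I), Per m w.1 → Per m (g • w).1 := fun m g w hw =>
    ZGrp.per_map (fun w => g • w) (hsh g) hw
  have hN : (lowD (d := d) I G n).Normal := ⟨fun k hk g m hm w hw => by
    rw [mul_smul, mul_smul, hk m hm _ (hP m g⁻¹ w hw), smul_inv_smul]⟩
  obtain ⟨t, ht⟩ := hmk 0 (L d 0) (n - d) (one_ne hd).symm (by omega)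
  have t1 : ∀ σ y, t • Bw hd hn' hI σ y = Bw hd hn' hI σ (Equiv.swap 0 (L d 0) y) := fun σ y =>
    Subtype.ext ((ht _).trans (mk_Bs hd hn' σ y))
  have hC : (0 : Fin d) ∉ Finset.univ.erase 0 := Finset.notMem_erase _ _
  have hH : ∀ g ∈ (HC (d := d) I G (Finset.univ.erase 0)).subgroupOf (MM G (Bw hd hn' hI)),
      psi G (Bw_inj hd hn' hI) (e0 d) g 0 = 0 := fun g hg => psi_eq _ (hc_zero hd hn' hI hC hg _)
  obtain ⟨τ, hτ, y, y', h1, h2, h3, h4, h5⟩ := iso_abs (Bw_inj hd hn' hI) (shW d I) hsh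
    (fun w => Per n w.1) (hP n) _ hN (e0 d) 0 (L d 0) ⟨2, by omega⟩ (one_ne hd)
    (fun e => by simpa using congrArg Fin.val e) (fun e => by simp [e] at o)
    ⟨t, mem_MM (Bw_inj hd hn' hI) fun σ y => ⟨_, t1 σ y⟩⟩
    (fun m hm w hw => Subtype.ext (by
      by_contra c
      rw [ht] at c
      exact absurd (hit_cls hd hn' hm.le hw c).1 hm.ne))
    (Equiv.ext fun y => psi_eq _ (t1 _ y))
    (fun w hw h => Subtype.ext (by
      by_contra c
      rw [ht] at c
      obtain ⟨-, σ, y, k, e⟩ := hit_cls hd hn' le_rfl hw c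
      exact h σ y k (Subtype.ext (e.trans (shW_zpow (Bw hd hn' hI σ y) k).symm))))
    _ hH
    (fun x x' y y' a b c e f g => by
      refine two_trans _ _ (fun x : Fin d => x ≠ 0) (L d 0) (one_ne hd)
        (fun g hg u hu e => hu ((psi G _ _ g).injective (e.trans (hH g hg).symm)))
        (fun u v hu hv => mv hd hn' hI hsh hmv hC (by simp [hu]) (occ_all hd hn' hv u)
          (occ_all hd hn' hu u)) (fun u v hu hv u1 v1 => ?_) a b c e f g
      have hC' : (0 : Fin d) ∉ (Finset.univ.erase 0).erase (L d 0) := by simp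
      have := u.2
      have := v.2
      simp only [ne_eq, Fin.ext_iff, Fin.val_zero] at hu hv u1 v1
      obtain ⟨g, g1, g2⟩ := mv2 hd hn' hI hsh hmv hC' (r := d) (fun z z1 _ => by
        simp only [Finset.mem_erase, Finset.mem_univ, ne_eq, Fin.ext_iff, Fin.val_zero, and_true]
        omega) (x := u) (y := v) (by omega) (by omega)
      exact ⟨g, HC_mono (Finset.erase_subset _ _) g1,
        (pres hd hn' hI hsh hC' g1 (e0 d) _).1 (Finset.notMem_erase _ _), g2⟩)
    (sep_arr hd hn' hI hsh hmk hmv)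
  have z0 : (Bw hd hn' hI (e0 d) 0).1 = zd d n := Bs_zero _
  have z1 : ∀ u, u ≠ 0 → (Bw hd hn' hI (e0 d) u).1 = ad d n u := fun u hu => Bs_e0 hu
  refine ⟨τ, hτ, y, y', h1, h2, h3, fun w hw => ⟨fun e => ?_, fun e => ?_, fun e => ?_, fun h => ?_⟩⟩
  · rw [show w = Bw hd hn' hI (e0 d) 0 from Subtype.ext (e.trans z0.symm),
      psi_spec (Bw_inj hd hn' hI), h4, Equiv.Perm.mul_apply, Equiv.swap_apply_left,
      Equiv.swap_apply_of_ne_of_ne h1 h3, z1 y h1]
  · rw [show w = Bw hd hn' hI (e0 d) y from Subtype.ext (e.trans (z1 y h1).symm),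
      psi_spec (Bw_inj hd hn' hI), h4, Equiv.Perm.mul_apply, Equiv.swap_apply_right,
      Equiv.swap_apply_left, z1 y' h2]
  · rw [show w = Bw hd hn' hI (e0 d) y' from Subtype.ext (e.trans (z1 y' h2).symm),
      psi_spec (Bw_inj hd hn' hI), h4, Equiv.Perm.mul_apply,
      Equiv.swap_apply_of_ne_of_ne h2 h3.symm, Equiv.swap_apply_right, z0]
  · by_cases c : ∀ u (k : ℤ), w ≠ (shW d I ^ k) (Bw hd hn' hI (e0 d) u)
    · exact h5 w hw c
    push Not at c
    obtain ⟨u, k, rfl⟩ := c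
    obtain ⟨a1, a2, a3⟩ := h k
    rw [shW_zpow] at a1 a2 a3
    have b1 : u ≠ 0 := fun e => a1 (by rw [e, z0])
    have b2 : u ≠ y := fun e => a2 (by rw [e, z1 y h1])
    have b3 : u ≠ y' := fun e => a3 (by rw [e, z1 y' h2])
    have hc : Commute (MulAction.toPerm (τ : G) : Equiv.Perm (W d I)) (shW d I) :=
      Equiv.ext fun x => hsh _ x
    refine (DFunLike.congr_fun (hc.zpow_right k).eq _).trans ?_
    show (shW d I ^ k) ((τ : G) • _) = _
    rw [psi_spec (Bw_inj hd hn' hI), h4, Equiv.Perm.mul_apply,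
      Equiv.swap_apply_of_ne_of_ne b1 b2, Equiv.swap_apply_of_ne_of_ne b1 b3]

end Pool.Agent.MP_9b2bac_nt.Z

end

section

/- Many cycles on the two lowest levels, and the count on the level of the letters. -/

set_option autoImplicit false

namespace Pool.Agent.MP_9b2bac_nt.Z

variable {d : ℕ}

namespace TManyX

open VIsoX

theorem shift_eq [NeZero d] (hd : 3 ≤ d) {n : ℕ} (hn : d < n) {σ τ : Equiv.Perm (Fin d)} {k : ℤ}
    (h : shf (σ ∘ zd d n) k = τ ∘ zd d n) : σ = τ := by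
  have hk : k % n = 0 := by
    have p := zd_per hd hn
    have e : ∀ i j : ℤ, zd d n (k + i) = zd d n (k + j) ↔ zd d n i = zd d n j := fun i j => by
      have a := congrFun h i
      have b := congrFun h j
      simp only [shf, Function.comp] at a b
      rw [add_comm k, add_comm k, ← σ.injective.eq_iff, a, b, τ.injective.eq_iff]
    have e1 := e (n - 1) (n - 2)
    have e2 := e (n - 1) 0
    have s1 := zd_spec hd hn (n - 1)
    have s2 := zd_spec hd hn (n - 2)
    have s3 := zd_spec hd hn 0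
    rw [small _ (by omega) (by omega)] at s1 s2 s3
    have t1 := zd_spec hd hn (k + (n - 1))
    have t2 := zd_spec hd hn (k + (n - 2))
    have t3 := zd_spec hd hn (k + 0)
    have a1 := addmod (n := n) (by omega) k (n - 1) (by omega) (by omega)
    have a2 := addmod (n := n) (by omega) k (n - 2) (by omega) (by omega)
    have a3 := addmod (n := n) (by omega) k 0 (by omega) (by omega)
    simp only [Fin.ext_iff] at e1 e2
    omega
  ext c
  obtain ⟨i, rfl⟩ := (zd_per hd hn).2.2 c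
  have a := congrFun h i
  simp only [shf, Function.comp] at a
  rw [← a, ← (zd_per hd hn).emod (i + k), ← Int.add_emod_emod, hk, add_zero, (zd_per hd hn).emod]

theorem surj_fin {m : ℕ} {s : Seq d} (h : Per m s) :
    Function.Surjective fun x : Fin m => s (x : ℕ) := fun c => by
  obtain ⟨x, rfl⟩ := h.2.2 c
  obtain ⟨k, k1, k2, -⟩ := ZGiant.per_shift h 0 x
  exact ⟨⟨k, k1⟩, by simpa using k2⟩

theorem prim_of {s : Seq d} (h : Per d s) : Prim d s :=
  ⟨h, fun m hm h' => by
    have := Fintype.card_le_of_surjective _ (surj_fin h')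
    simp only [Fintype.card_fin] at this
    omega⟩

theorem exists_perm {s t : Seq d} (hs : Per d s) (ht : Per d t) :
    ∃ σ : Equiv.Perm (Fin d), t = σ ∘ s := by
  have bs := Finite.surjective_iff_bijective.1 (surj_fin hs)
  have bt := Finite.surjective_iff_bijective.1 (surj_fin ht)
  refine ⟨(Equiv.ofBijective _ bs).symm.trans (Equiv.ofBijective _ bt),
    ZGiant.window ht (hs.comp _) 0 fun k hk => ?_⟩
  have := (Equiv.ofBijective _ bs).symm_apply_apply ⟨k, hk⟩
  simp only [Equiv.ofBijective_apply] at this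
  simp only [zero_add, Function.comp, Equiv.trans_apply, this, Equiv.ofBijective_apply]

theorem sol_card {I : Finset ℕ} (hI : d ∈ I) (τ : Fin d → Fin d) :
    {w : W d I | Per d w.1 ∧ τ ∘ w.1 = sh w.1}.ncard = 0 ∨
      {w : W d I | Per d w.1 ∧ τ ∘ w.1 = sh w.1}.ncard = d := by
  rcases Set.eq_empty_or_nonempty {w : W d I | Per d w.1 ∧ τ ∘ w.1 = sh w.1} with e | ⟨w, h1, h2⟩
  · left
    rw [e, Set.ncard_empty]
  right
  have hb : Set.BijOn (fun w : W d I => w.1 0) {w : W d I | Per d w.1 ∧ τ ∘ w.1 = sh w.1}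
      Set.univ := by
    refine ⟨Set.mapsTo_univ _ _, fun a ha b hb e => Subtype.ext ?_, fun c _ => ?_⟩
    · refine ZGiant.window ha.1 hb.1 0 fun k hk => ?_
      clear hk
      induction k with
      | zero => simpa using e
      | succ k ih =>
        have x := congrFun ha.2 (0 + k)
        have y := congrFun hb.2 (0 + k)
        simp only [Function.comp, sh] at x y
        push_cast
        rw [← add_assoc, ← x, ← y, ih]
    · obtain ⟨j, rfl⟩ := h1.2.2 c
      refine ⟨⟨shf w.1 j, d, hI, per_shf h1 j⟩, ⟨per_shf h1 j, funext fun i => ?_⟩, by simp⟩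
      have x := congrFun h2 (i + j)
      simp only [Function.comp, sh, shf] at x ⊢
      rw [x, add_right_comm]
  rw [hb.ncard_eq, Set.ncard_univ, Nat.card_eq_fintype_card, Fintype.card_fin]

theorem fiber_card {G Y : Type} [Group G] [Fintype G] [DecidableEq Y] [MulAction G Y]
    (X : Finset Y) (h1 : ∀ g : G, ∀ a ∈ X, g • a ∈ X) (h2 : ∀ a ∈ X, ∀ b ∈ X, ∃ g : G, g • a = b)
    {a b : Y} (ha : a ∈ X) (hb : b ∈ X) :
    X.card * (Finset.univ.filter fun g : G => g • a = b).card = Fintype.card G := by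
  rw [← Finset.card_univ, Finset.card_eq_sum_card_fiberwise (s := Finset.univ)
    (f := fun g : G => g • a) (t := X) (fun g _ => h1 g a ha)]
  refine (Finset.sum_const_nat fun c hc => Eq.symm ?_).symm
  obtain ⟨h, rfl⟩ := h2 b hb c hc
  refine Finset.card_nbij' (fun g => h * g) (fun g => h⁻¹ * g) (fun g hg => ?_) (fun g hg => ?_)
    (fun g _ => by simp) fun g _ => by simp
  · simp only [Finset.coe_filter, Finset.mem_univ, true_and, Set.mem_ofPred_eq] at hg ⊢
    rw [mul_smul, hg]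
  · simp only [Finset.coe_filter, Finset.mem_univ, true_and, Set.mem_ofPred_eq] at hg ⊢
    rw [mul_smul, hg, inv_smul_smul]

theorem sum_card {G Y : Type} [Group G] [Fintype G] [DecidableEq Y] [MulAction G Y]
    (X : Finset Y) (h0 : X.Nonempty) (h1 : ∀ g : G, ∀ a ∈ X, g • a ∈ X)
    (h2 : ∀ a ∈ X, ∀ b ∈ X, ∃ g : G, g • a = b) (p q : Y → Y) (hp : ∀ a ∈ X, p a ∈ X)
    (hq : ∀ a ∈ X, q a ∈ X) :
    ∑ g : G, (X.filter fun w => g • p w = q w).card = Fintype.card G := by
  have e : ∑ g : G, (X.filter fun w => g • p w = q w).card =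
      ∑ w ∈ X, (Finset.univ.filter fun g : G => g • p w = q w).card := by
    simp only [Finset.card_filter]
    exact Finset.sum_comm
  refine Nat.eq_of_mul_eq_mul_left h0.card_pos ?_
  rw [e, Finset.mul_sum, Finset.sum_congr rfl fun w hw => fiber_card X h1 h2 (hp w hw) (hq w hw),
    Finset.sum_const, smul_eq_mul]

theorem final {G : Type} [Fintype G] (hd : 2 ≤ d) (c : G → ℕ) (hc : ∀ g, c g = 0 ∨ c g = d)
    (hs : ∑ g, c g = Fintype.card G) (k : ℕ) :
    ({g : G | c g = d * k}.ncard : ℝ) =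
      (if k = 0 then 1 - 1 / (d : ℝ) else if k = 1 then 1 / (d : ℝ) else 0) * Nat.card G := by
  classical
  have d0 : (d : ℝ) ≠ 0 := by
    have : d ≠ 0 := by omega
    exact_mod_cast this
  have hA : d * (Finset.univ.filter fun g => c g = d).card = Fintype.card G := by
    rw [← hs, Finset.card_filter, Finset.mul_sum]
    refine Finset.sum_congr rfl fun g _ => ?_
    rcases hc g with e | e
    · rw [if_neg (by omega), e, mul_zero]
    · rw [if_pos e, e, mul_one]
  have hB : (Finset.univ.filter fun g => c g = d).card +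
      (Finset.univ.filter fun g => ¬ c g = d).card = Fintype.card G := by
    rw [Finset.card_filter_add_card_filter_not, Finset.card_univ]
  have hA' : (d : ℝ) * (Finset.univ.filter fun g => c g = d).card = Fintype.card G := by
    exact_mod_cast hA
  have hB' : ((Finset.univ.filter fun g => c g = d).card : ℝ) +
      (Finset.univ.filter fun g => ¬ c g = d).card = Fintype.card G := by
    exact_mod_cast hB
  rw [Nat.card_eq_fintype_card]
  split_ifs with k0 k1
  · have : {g : G | c g = d * k} = ↑(Finset.univ.filter fun g => ¬ c g = d) := by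
      ext g
      have := hc g
      simp only [k0, mul_zero, Set.mem_ofPred_eq, Finset.coe_filter, Finset.mem_univ, true_and]
      omega
    rw [this, Set.ncard_coe_finset]
    field_simp
    linear_combination d * hB' - hA'
  · have : {g : G | c g = d * k} = ↑(Finset.univ.filter fun g => c g = d) := by
      ext g
      simp [k1]
    rw [this, Set.ncard_coe_finset]
    field_simp
    linear_combination hA'
  · have : {g : G | c g = d * k} = ∅ := by
      ext g
      have h2 : d * 2 ≤ d * k := Nat.mul_le_mul_left _ (by omega)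
      have := hc g
      simp only [Set.mem_ofPred_eq, Set.mem_empty_iff_false, iff_false]
      omega
    rw [this]
    simp

end TManyX

theorem manyE (hd : 6 ≤ d) {n : ℕ} (hn : d < n) (hn' : n ≤ d + 2) :
    ∃ c : Fin (2 * n + 3) → Seq d, (∀ i, Prim n (c i)) ∧ ∀ i j k, shf (c i) k = c j → i = j := by
  have : NeZero d := ⟨by omega⟩
  have hc : Fintype.card (Fin (2 * n + 3)) ≤ Fintype.card (Equiv.Perm (Fin d)) := by
    rw [Fintype.card_perm, Fintype.card_fin, Fintype.card_fin]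
    obtain ⟨m, rfl⟩ : ∃ m, d = m + 1 := ⟨d - 1, by omega⟩
    have h1 : Nat.factorial 3 ≤ m.factorial := Nat.factorial_le (by omega)
    have h2 : (m + 1) * 6 ≤ (m + 1) * m.factorial := Nat.mul_le_mul_left _ h1
    rw [Nat.factorial_succ]
    omega
  obtain ⟨e⟩ := Function.Embedding.nonempty_of_card_le hc
  have p := zd_prim (d := d) (by omega) hn
  refine ⟨fun i => e i ∘ zd d n, fun i => ⟨p.1.comp _, fun m hm h => p.2 m hm ?_⟩,
    fun i j k h => e.injective (TManyX.shift_eq (by omega) hn h)⟩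
  have := h.comp (e i).symm
  rwa [← Function.comp_assoc, Equiv.symm_comp_self, Function.id_comp] at this

theorem lev_count (hd : 2 ≤ d) {I : Finset ℕ} (hI : d ∈ I) (G : Type) [Group G] [Finite G]
    [MulAction G (W d I)]
    (hrel : ∀ g : G, ∃ ρ : Fin d → Fin d, ∀ w : W d I, Per d w.1 → (g • w).1 = ρ ∘ w.1)
    (hsw : ∀ u v : Fin d, u ≠ v → ∃ g : G, ∀ w : W d I, Per d w.1 →
      (g • w).1 = Equiv.swap u v ∘ w.1) (π : Equiv.Perm (Fin d)) (k : ℕ) :
    ({g : G | {w : W d I | Prim d w.1 ∧ g • relW I π w = shW d I w}.ncard = d * k}.ncard : ℝ) =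
      (if k = 0 then 1 - 1 / (d : ℝ) else if k = 1 then 1 / (d : ℝ) else 0) * Nat.card G := by
  classical
  have := Fintype.ofFinite G
  have := Fintype.ofFinite (W d I)
  have hP : ∀ (g : G) (w : W d I), Per d w.1 → Per d (g • w).1 := fun g w hw => by
    obtain ⟨ρ, hρ⟩ := hrel g
    obtain ⟨m, -, hm⟩ := (g • w).2
    refine ⟨hw.1, fun i => ?_, hm.2.2⟩
    rw [hρ w hw]
    exact congrArg ρ (hw.2.1 i)
  have hall : ∀ σ : Equiv.Perm (Fin d), ∃ g : G, ∀ w : W d I, Per d w.1 → (g • w).1 = σ ∘ w.1 := by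
    intro σ
    induction σ using Equiv.Perm.swap_induction_on with
    | one => exact ⟨1, fun w _ => by simp⟩
    | swap_mul σ u v huv ih =>
      obtain ⟨g, hg⟩ := ih
      obtain ⟨h, hh⟩ := hsw u v huv
      exact ⟨h * g, fun w hw => by rw [mul_smul, hh _ (hP g w hw), hg w hw]; rfl⟩
  have h0 : ∃ s : Seq d, Per d s := by
    have d0 : (0 : ℤ) < d := by omega
    refine ⟨fun i => ⟨(i % d).toNat, by
      have := Int.emod_lt_of_pos i d0
      omega⟩, by omega, fun i => by simp, fun c => ⟨c.val, Fin.ext ?_⟩⟩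
    have := c.2
    simp only
    rw [Int.emod_eq_of_lt (by omega) (by omega)]
    simp
  obtain ⟨s0, hs0⟩ := h0
  refine TManyX.final hd _ (fun g => ?_) ?_ k
  · obtain ⟨ρ, hρ⟩ := hrel g
    have e : {w : W d I | Prim d w.1 ∧ g • relW I π w = shW d I w} =
        {w : W d I | Per d w.1 ∧ (ρ ∘ π) ∘ w.1 = sh w.1} := by
      ext w
      simp only [Set.mem_ofPred_eq]
      refine ⟨fun h => ⟨h.1.1, ?_⟩, fun h => ⟨TManyX.prim_of h.1, Subtype.ext ?_⟩⟩
      · have := congrArg Subtype.val h.2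
        rwa [hρ _ (h.1.1.comp π)] at this
      · rw [hρ _ (h.1.comp π)]
        exact h.2
    rw [e]
    exact TManyX.sol_card hI _
  · rw [← TManyX.sum_card (G := G) (Finset.univ.filter fun w : W d I => Per d w.1)
      ⟨⟨s0, d, hI, hs0⟩, by simpa using hs0⟩ (fun g a ha => by simpa using hP g a (by simpa using ha))
      (fun a ha b hb => by
        simp only [Finset.mem_filter, Finset.mem_univ, true_and] at ha hb
        obtain ⟨σ, hσ⟩ := TManyX.exists_perm ha hb
        obtain ⟨g, hg⟩ := hall σ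
        exact ⟨g, Subtype.ext ((hg a ha).trans hσ.symm)⟩) (relW I π) (shW d I)
      (fun a ha => by
        simp only [Finset.mem_filter, Finset.mem_univ, true_and] at ha ⊢
        exact ha.comp π)
      (fun a ha => by
        simp only [Finset.mem_filter, Finset.mem_univ, true_and] at ha ⊢
        exact ha.sh)]
    refine Finset.sum_congr rfl fun g _ => ?_
    rw [← Set.ncard_coe_finset]
    congr 1
    ext w
    simp only [Set.mem_ofPred_eq, Finset.coe_filter, Finset.mem_filter, Finset.mem_univ, true_and]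
    exact ⟨fun h => ⟨h.1.1, h.2⟩, fun h => ⟨TManyX.prim_of h.1, h.2⟩⟩

end Pool.Agent.MP_9b2bac_nt.Z

end
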