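import Mathlib
import Pool.Agent.Mg.F43e117.G4b4065
import Pool.Agent.Mg.F43e117.G3e7ce6
import Pool.Agent.Mg.F43e117.Gf584d0
import Pool.Agent.Mg.F43e117.G5525a5
import Pool.Agent.MP_9b2bac_nt.TDefs
import Pool.Agent.Mg.F43e117.G71f1d1
import Pool.Agent.Mg.F43e117.Gc6abf9
import Pool.Agent.Mg.F43e117.G464d08

section

/- Words with a single run of one letter. -/

set_option autoImplicit false

namespace Pool.Agent.MP_9b2bac_nt.Z

variable {d n : ℕ} {O : Set (Seq d)} {c : Fin d} {W W' : List (Fin d)} {p : ℤ}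

/-- The block `W` at position `p`, the letter `c` elsewhere, period `n`. -/
def blk (n : ℕ) (c : Fin d) (W : List (Fin d)) (p : ℤ) : Seq d :=
  fun i => W.getD ((i - p) % n).toNat c

/-- The block uses exactly the letters other than `c` and is shorter than `n`. -/
def Gd (n : ℕ) (c : Fin d) (W : List (Fin d)) : Prop := (∀ y, y ∈ W ↔ y ≠ c) ∧ W.length < n

theorem blk_at {i : ℤ} (k : ℕ) (q : ℤ) (hk : k < n) (h : i = p + k + q * n) :
    blk n c W p i = W.getD k c := by
  unfold blk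
  rw [h, show p + k + q * n - p = k + q * n by ring, Int.add_mul_emod_self_right,
    Int.emod_eq_of_lt (by omega) (by omega), Int.toNat_natCast]

theorem pos_dec (hn : 0 < n) (p i : ℤ) : ∃ (k : ℕ) (q : ℤ), k < n ∧ i = p + k + q * n := by
  have h0 := Int.emod_nonneg (i - p) (show (n : ℤ) ≠ 0 by omega)
  have h1 := Int.emod_lt_of_pos (i - p) (show (0 : ℤ) < n by omega)
  refine ⟨((i - p) % n).toNat, (i - p) / n, by omega, ?_⟩
  rw [Int.toNat_of_nonneg h0, add_assoc, Int.emod_add_ediv_mul]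
  ring

theorem getD_mem {k : ℕ} (hk : k < W.length) : W.getD k c ∈ W := by
  rw [List.getD_eq_getElem _ _ hk]
  exact List.getElem_mem hk

theorem Gd.ne (h : Gd n c W) {k : ℕ} (hk : k < W.length) : W.getD k c ≠ c :=
  (h.1 _).1 (getD_mem hk)

theorem Gd.per (h : Gd n c W) (p : ℤ) : Per n (blk n c W p) := by
  have hn : 0 < n := by have := h.2; omega
  refine ⟨hn, fun i => ?_, fun y => ?_⟩
  · obtain ⟨k, q, hk, rfl⟩ := pos_dec hn p i
    rw [blk_at k q hk rfl, blk_at k (q + 1) hk (by ring)]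
  · by_cases hy : y = c
    · exact ⟨p + W.length, by
        rw [blk_at W.length 0 h.2 (by ring), List.getD_eq_default _ _ le_rfl, hy]⟩
    · obtain ⟨k, hk, rfl⟩ := List.getElem_of_mem ((h.1 y).2 hy)
      exact ⟨p + k, by rw [blk_at k 0 (hk.trans h.2) (by ring), List.getD_eq_getElem _ _ hk]⟩

theorem Gd.prim (h : Gd n c W) (hW : W ≠ []) (p : ℤ) : Prim n (blk n c W p) := by
  refine ⟨h.per p, fun m hm hp => ?_⟩
  have hl := h.2
  have h0 : 0 < W.length := List.length_pos_iff.2 hW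
  have h1 := hp.2.1 p
  have h2 := hp.2.1 (p - 1)
  have hm0 := hp.1
  rw [blk_at m 0 hm (by ring), blk_at 0 0 (by omega) (by simp)] at h1
  rw [blk_at (m - 1) 0 (by omega) (by omega), blk_at (n - 1) (-1) (by omega) (by omega),
    List.getD_eq_default W c (n := n - 1) (by omega)] at h2
  by_cases hc : m < W.length
  · exact h.ne (by omega) h2
  · rw [List.getD_eq_default _ _ (by omega)] at h1
    exact h.ne h0 h1.symm

theorem Gd.occ (h : Gd n c W) {i : ℤ} (k : ℕ) (q : ℤ) (hk : k < n) (hi : i = p + k + q * n)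
    (j : Fin d) : Occ (Finset.univ.erase c) (blk n c W p) i j ↔ j ∈ W.drop k := by
  have hl := h.2
  constructor
  · rintro ⟨i', h1, h2, h3⟩
    obtain ⟨r, rfl⟩ : ∃ r : ℕ, i' = i + r := ⟨(i' - i).toNat, by omega⟩
    have h4 : k + r < W.length := by
      by_contra hc
      have := h3 (p + (max k W.length : ℕ) + q * n) (by omega) (by omega)
      rw [blk_at (max k W.length) q (by omega) rfl, List.getD_eq_default _ _ (by omega)] at this
      simp at this
    rw [blk_at (k + r) q (by omega) (by push_cast; omega), List.getD_eq_getElem _ _ h4] at h2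
    rw [← h2, List.mem_drop_iff_getElem]
    exact ⟨r, by omega, rfl⟩
  · intro hj
    obtain ⟨r, h4, h5⟩ := List.mem_drop_iff_getElem.1 hj
    refine ⟨i + r, by omega, ?_, fun x a b => ?_⟩
    · rw [blk_at (k + r) q (by omega) (by push_cast; omega), List.getD_eq_getElem _ _ (by omega), h5]
    · rw [blk_at (k + (x - i).toNat) q (by omega) (by push_cast; omega)]
      simpa using h.ne (k := k + (x - i).toNat) (by omega)

/-- Two admissible words with a single block are equivalent. -/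
theorem one_block {C : Finset (Fin d)} (hmv : MvO n O C) {s t : Seq d} (hs : Prim n s)
    (ht : Per n t) (h : Adm C s t) (L : ℕ) (h1 : ∀ k : ℕ, k < L → s (p + k) ∈ C)
    (h2 : ∀ k : ℕ, L ≤ k → k < n → s (p + k) ∉ C) : s ∈ O ↔ t ∈ O := by
  have key : ∀ m : ℕ, m ≤ L → ∃ r, Prim n r ∧ Adm C r t ∧ (s ∈ O ↔ r ∈ O) ∧
      ∀ x, p + L - m ≤ x → x < p + L → r x = t x := by
    intro m
    induction m with
    | zero => exact fun _ => ⟨s, hs, h, Iff.rfl, fun x a b => by omega⟩
    | succ m ih =>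
      intro hm
      obtain ⟨r, a1, a2, a3, a4⟩ := ih (by omega)
      have hC : ∀ x, p ≤ x → x < p + L → r x ∈ C := fun x a b => by
        rw [← a2.mem_iff, h.mem_iff, show x = p + ((x - p).toNat : ℕ) by omega]
        exact h1 _ (by omega)
      set i := p + L - m - 1 with hi
      by_cases he : r i = t i
      · refine ⟨r, a1, a2, a3, fun x a b => ?_⟩
        by_cases hx : x = i
        · rw [hx, he]
        · exact a4 x (by push_cast at a; omega) b
      · have hri : r i ∈ C := hC i (by omega) (by omega)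
        have b1 : Occ C r (i + 1) (r i) :=
          ((a2 (i + 1)).2 _).2 ((occ_iff.1 (((a2 i).2 _).1 (occ_self hri))).2.resolve_left
            fun e => he e.symm)
        have b2 : Occ C r (i + 1) (t i) := (occ_iff.1 (a2.occ hri)).2.resolve_left he
        obtain ⟨r', c1, c2, c3, c4, c5⟩ := hmv r i (t i) a1 hri b1 b2
        refine ⟨r', c1, c2.symm.trans a2, a3.trans c5, fun x a b => ?_⟩
        by_cases hx : x = i
        · rw [hx, c3]
        · push_cast at a
          rw [c4 x (by omega) fun k e f => hC k (by omega) (by omega)]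
          exact a4 x (by omega) b
  obtain ⟨r, a1, a2, a3, a4⟩ := key L le_rfl
  suffices r = t by rwa [this] at a3
  funext i
  obtain ⟨k, q, hk, rfl⟩ := pos_dec hs.1.1 p i
  rw [a1.1.zper, ht.zper]
  by_cases hc : k < L
  · exact a4 _ (by omega) (by omega)
  · refine ((a2 _).1 ?_).symm
    rw [← a2.mem_iff, h.mem_iff]
    exact h2 k (by omega) hk

theorem Gd.r0 (hmv : MvO n O (Finset.univ.erase c)) (h : Gd n c W) (h' : Gd n c W') (hW : W ≠ [])
    (hl : W.length = W'.length) (hd : ∀ k j, j ∈ W.drop k ↔ j ∈ W'.drop k) :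
    blk n c W p ∈ O ↔ blk n c W' p ∈ O := by
  have hn := h.2
  refine one_block (p := p) hmv (h.prim hW p) (h'.per p) (fun i => ?_) W.length (fun k hk => ?_)
    fun k a b => ?_
  · obtain ⟨k, q, hk, hi⟩ := pos_dec (show 0 < n by omega) p i
    refine ⟨fun a => ?_, fun j => by rw [h.occ k q hk hi, h'.occ k q hk hi, hd]⟩
    rw [blk_at k q hk hi] at a ⊢
    rw [blk_at k q hk hi]
    by_cases hc : k < W.length
    · exact absurd (by simpa using h.ne hc) a
    · rw [List.getD_eq_default _ _ (by omega), List.getD_eq_default _ _ (by omega)]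
  · rw [blk_at k 0 (by omega) (by ring)]
    simpa using h.ne hk
  · rw [blk_at k 0 b (by ring), List.getD_eq_default _ _ a]
    simp

/-- The part of a block before a complete tail is free. -/
theorem Gd.pre (hmv : MvO n O (Finset.univ.erase c)) {U U' G : List (Fin d)} (hG : Gd n c G)
    (hW : G ≠ []) (hU : c ∉ U) (hU' : c ∉ U') (hl : U.length = U'.length)
    (hn : U.length + G.length < n) : blk n c (U ++ G) p ∈ O ↔ blk n c (U' ++ G) p ∈ O := by
  have g : ∀ V : List (Fin d), c ∉ V → ∀ y, y ∈ V ++ G ↔ y ≠ c := fun V hV y => by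
    rw [List.mem_append, hG.1]
    exact ⟨fun a => a.elim (fun b e => hV (e ▸ b)) id, .inr⟩
  refine Gd.r0 hmv ⟨g U hU, by simpa using hn⟩ ⟨g U' hU', by simpa [← hl] using hn⟩ (by simp [hW])
    (by simp [hl]) fun k j => ?_
  rw [List.drop_append, List.drop_append, hl]
  by_cases hk : k ≤ U'.length
  · rw [Nat.sub_eq_zero_of_le hk, List.drop_zero, g _ fun a => hU (List.mem_of_mem_drop a),
      g _ fun a => hU' (List.mem_of_mem_drop a)]
  · rw [List.drop_eq_nil_of_le (by omega), List.drop_eq_nil_of_le (as := U') (by omega)]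

/-- A last letter equal to the first letter can be removed. -/
theorem Gd.r1
    (hmk : ∀ u v j s, u ≠ v → 1 ≤ j → Prim n s → Prim n (mk u v j s) ∧ (s ∈ O ↔ mk u v j s ∈ O))
    {x : Fin d} (h : Gd n c (x :: W ++ [x])) :
    blk n c (x :: W ++ [x]) p ∈ O ↔ blk n c (x :: W) p ∈ O := by
  have hl : W.length + 2 < n := by simpa using h.2
  have hx : x ≠ c := (h.1 x).1 (by simp)
  obtain ⟨J, hJ⟩ : ∃ J, n = W.length + 2 + J := ⟨n - (W.length + 2), by omega⟩
  have hlen : (x :: W ++ [x]).length = W.length + 2 := by simp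
  suffices e : mk c x J (blk n c (x :: W ++ [x]) p) = blk n c (x :: W) p by
    rw [← e]
    exact (hmk c x J _ hx.symm (by omega) (h.prim (by simp) p)).2
  funext i
  obtain ⟨k, q, hk, hi⟩ := pos_dec (show 0 < n by omega) p i
  have h0 : blk n c (x :: W ++ [x]) p (p + (q + 1) * n) = x := by
    rw [blk_at 0 (q + 1) (by omega) (by simp)]
    rfl
  rw [blk_at k q hk hi]
  rcases lt_trichotomy k (W.length + 1) with hc | hc | hc
  · rw [ZSweep.mk_mid (i + 1) (by omega) (by omega), blk_at k q hk hi,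
      List.getD_append _ _ _ _ (by simpa using hc)]
    rw [blk_at (k + 1) q (by omega) (by push_cast; omega)]
    exact h.ne (by omega)
  · rw [ZSweep.mk_hit, blk_at k q hk hi, List.getD_append_right _ _ _ _ (by simp [hc]),
      List.getD_eq_default (x :: W) _ (by simp [hc])]
    · simp [hc]
    · refine ⟨fun r a b => ?_, ?_⟩
      · rw [blk_at (k + r) q (by omega) (by push_cast; omega), List.getD_eq_default _ _ (by omega)]
      · rw [show i + J + 1 = p + (q + 1) * n by rw [add_mul]; omega, h0]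
  · rw [ZSweep.mk_mid (p + (q + 1) * n) (by rw [add_mul]; omega) (by rw [add_mul]; omega),
      blk_at k q hk hi, List.getD_eq_default _ _ (by omega),
      List.getD_eq_default _ _ (by simp; omega)]
    rw [h0]
    exact hx

/-- The same word read with another background letter. -/
theorem blk_turn {a : Fin d} {K J : ℕ} (hn : 0 < n) (h : n = K + W.length + J) :
    blk n c (List.replicate K a ++ W) p = blk n a (W ++ List.replicate J c) (p + K) := by
  funext i
  obtain ⟨k, q, hk, hi⟩ := pos_dec hn p i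
  rw [blk_at k q hk hi]
  by_cases hc : k < K
  · rw [blk_at (k + n - K) (q - 1) (by omega) (by rw [sub_mul]; omega),
      List.getD_append _ _ _ _ (by simpa using hc), List.getD_eq_default _ a (by simp; omega),
      List.getD_eq_getElem _ _ (by simpa using hc), List.getElem_replicate]
  · rw [blk_at (k - K) q (by omega) (by omega), List.getD_append_right _ _ _ _ (by simp; omega),
      List.length_replicate]
    by_cases hc' : k - K < W.length
    · rw [List.getD_append _ _ _ _ hc', List.getD_eq_getElem _ _ hc', List.getD_eq_getElem _ _ hc']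
    · rw [List.getD_eq_default _ _ (by omega), List.getD_append_right _ _ _ _ (by omega),
        List.getD_eq_getElem _ _ (by simp; omega), List.getElem_replicate]

/-- Rigid words. -/
theorem Gd.rigid {a : Fin d} {J : ℕ} (h : Gd n c (W ++ List.replicate J a)) (hW : W.Nodup)
    (ha : J = 0 ∨ a ∉ W) (t : Seq d)
    (ht : Adm (Finset.univ.erase c) (blk n c (W ++ List.replicate J a) p) t) :
    t = blk n c (W ++ List.replicate J a) p := by
  funext i
  have hl : W.length + J < n := by simpa using h.2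
  obtain ⟨k, q, hk, hi⟩ := pos_dec (show 0 < n by omega) p i
  by_cases h1 : k < W.length
  · refine ht.fix ?_
    rw [h.occ (k + 1) q (by omega) (by push_cast; omega), blk_at k q hk hi,
      List.getD_append _ _ _ _ h1, List.getD_eq_getElem _ _ h1, List.drop_append, List.mem_append]
    rintro (h2 | h2)
    · obtain ⟨r, h3, h4⟩ := List.mem_drop_iff_getElem.1 h2
      have := (hW.getElem_inj_iff).1 h4
      omega
    · have h3 := List.mem_replicate.1 (List.mem_of_mem_drop h2)
      rcases ha with ha | ha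
      · exact h3.1 ha
      · exact ha (h3.2 ▸ List.getElem_mem h1)
  · by_cases h2 : k < W.length + J
    · have h3 : blk n c (W ++ List.replicate J a) p i ∈ Finset.univ.erase c := by
        rw [blk_at k q hk hi]
        simpa using h.ne (k := k) (by simpa using h2)
      have h4 := (h.occ k q hk hi _).1 (ht.occ h3)
      have h5 := (h.occ k q hk hi _).1 (occ_self h3)
      rw [List.drop_append, List.drop_eq_nil_of_le (by omega), List.nil_append] at h4 h5
      rw [(List.mem_replicate.1 (List.mem_of_mem_drop h4)).2,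
        (List.mem_replicate.1 (List.mem_of_mem_drop h5)).2]
    · refine (ht i).1 ?_
      rw [blk_at k q hk hi, List.getD_eq_default _ _ (by simp; omega)]
      simp

end Pool.Agent.MP_9b2bac_nt.Z

end

section

/- Classes of words with a single block that ends with an arrangement of the letters. -/

set_option autoImplicit false

namespace Pool.Agent.MP_9b2bac_nt.Z

variable {d n : ℕ} {O : Set (Seq d)} {c a b f g : Fin d} {F F' U : List (Fin d)} {p : ℤ}

/-- An arrangement of the letters other than `c`. -/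
def Arr (c : Fin d) (F : List (Fin d)) : Prop := F.Nodup ∧ ∀ y, y ∈ F ↔ y ≠ c

/-- A word whose block is `k` letters followed by `F` lies in `O`. -/
def Cl (n : ℕ) (O : Set (Seq d)) (c : Fin d) (k : ℕ) (F : List (Fin d)) (p : ℤ) : Prop :=
  ∃ U : List (Fin d), U.length = k ∧ c ∉ U ∧ blk n c (U ++ F) p ∈ O

/-- The markers preserve `O`. -/
def HM (n : ℕ) (O : Set (Seq d)) : Prop :=
  ∀ u v j s, u ≠ v → 1 ≤ j → Prim n s → Prim n (mk u v j s) ∧ (s ∈ O ↔ mk u v j s ∈ O)

theorem Arr.len (h : Arr c F) : F.length + 1 = d := by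
  have h1 : F.toFinset = Finset.univ.erase c := by
    ext y
    simp [h.2]
  have h2 := List.toFinset_card_of_nodup h.1
  rw [h1, Finset.card_erase_of_mem (Finset.mem_univ _), Finset.card_univ, Fintype.card_fin] at h2
  have := c.pos
  omega

theorem Arr.perm (h : Arr c F) (e : F.Perm F') : Arr c F' :=
  ⟨e.nodup_iff.1 h.1, fun y => e.mem_iff.symm.trans (h.2 y)⟩

theorem Arr.ne (h : Arr c F) (ha : a ∈ F) : a ≠ c := (h.2 a).1 ha

theorem Arr.gd (h : Arr c F) {V : List (Fin d)} (hU : c ∉ U) (hV : c ∉ V)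
    (hn : U.length + V.length + d ≤ n) : Gd n c (U ++ F ++ V) := by
  refine ⟨fun y => ?_, ?_⟩
  · rw [List.mem_append, List.mem_append, h.2]
    exact ⟨fun a => a.elim (fun b => b.elim (fun b e => hU (e ▸ b)) id) fun b e => hV (e ▸ b),
      fun a => .inl (.inr a)⟩
  · have := h.len
    simp only [List.length_append]
    omega

theorem cl_iff (hd : 3 ≤ d) (hc : MvO n O (Finset.univ.erase c)) (h : Arr c F) (hU : c ∉ U) {k : ℕ}
    (hk : U.length = k) (hn : k + d ≤ n) : blk n c (U ++ F) p ∈ O ↔ Cl n O c k F p := by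
  have hl := h.len
  refine ⟨fun a => ⟨U, hk, hU, a⟩, fun ⟨U', h1, h2, h3⟩ => ?_⟩
  refine (Gd.pre hc ⟨h.2, by omega⟩ ?_ hU h2 (hk.trans h1.symm) (by omega)).2 h3
  rintro rfl
  simp at hl
  omega

theorem cl_rot (hd : 3 ≤ d) (hm : HM n O) (hc : MvO n O (Finset.univ.erase c)) (h : Arr c (f :: F))
    {k : ℕ} (hn : k + 2 + d ≤ n) :
    Cl n O c (k + 1) (f :: F) p ↔ Cl n O c (k + 2) (F ++ [f]) p := by
  have hf : c ≠ f := (h.ne (by simp)).symm
  have h' : Arr c (F ++ [f]) := h.perm (List.perm_append_singleton f F).symm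
  rw [← cl_iff hd hc h (U := f :: List.replicate k f) (by simp [hf]) (by simp) (by omega),
    ← cl_iff hd hc h' (U := f :: List.replicate k f ++ [f]) (by simp [hf]) (by simp) (by omega),
    List.cons_append, ← Gd.r1 hm]
  · simp
  · exact h.gd (U := f :: List.replicate k f) (by simp [hf]) (by simp [hf]) (by simp; omega)

theorem cl_swap (hd : 3 ≤ d) (hm : HM n O) (hc : MvO n O (Finset.univ.erase c))
    (h : Arr c (a :: b :: F)) (hn : d + 3 ≤ n) :
    Cl n O c 1 (a :: b :: F) p ↔ Cl n O c 1 (b :: a :: F) p := by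
  have ha : c ≠ a := (h.ne (by simp)).symm
  have hb : c ≠ b := (h.ne (by simp)).symm
  have hl := h.len
  have h1 : Arr c (b :: a :: F) := h.perm (List.Perm.swap _ _ _)
  have h2 : Arr c (a :: (F ++ [b])) := h1.perm (List.perm_append_singleton b (a :: F)).symm
  have h3 : Arr c (F ++ [b] ++ [a]) := h2.perm (List.perm_append_singleton a _).symm
  rw [cl_rot hd hm hc h1 (k := 0) (by omega), List.cons_append, cl_rot hd hm hc h2 (k := 1) (by omega),
    ← cl_iff hd hc h (U := [b]) (k := 1) (by simp [hb]) rfl (by omega),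
    ← cl_iff hd hc h3 (U := [a, a, b]) (k := 1 + 2) (by simp [ha, hb]) rfl (by omega)]
  have e1 := Gd.r1 (p := p) (W := a :: b :: F) (x := b) hm
    (h.gd (U := [b]) (V := [b]) (by simp [hb]) (by simp [hb]) (by simp; omega))
  have e2 := Gd.pre (p := p) hc (U := [b]) (U' := [a])
    (h.gd (U := []) (V := [b]) (by simp) (by simp [hb]) (by simp; omega)) (by simp) (by simp [hb])
    (by simp [ha]) rfl (by simp at hl ⊢; omega)
  have e3 := Gd.r1 (p := p) (W := a :: b :: F ++ [b]) (x := a) hm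
    (by simpa using h.gd (U := [a]) (V := [b, a]) (n := n) (by simp [ha]) (by simp [ha, hb]) (by simp; omega))
  simp only [List.cons_append, List.nil_append, List.append_assoc] at e1 e2 e3 ⊢
  rw [← e1, e2, e3]

theorem Arr.turn (h : Arr c (a :: F)) : Arr a (F ++ [c]) := by
  have h1 := List.nodup_cons.1 h.1
  have ha : a ≠ c := h.ne (by simp)
  refine ⟨List.nodup_append.2 ⟨h1.2, by simp, fun x hx y hy => ?_⟩, fun y => ?_⟩
  · rw [List.mem_singleton.1 hy]
    exact h.ne (List.mem_cons_of_mem _ hx)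
  · have := h.2 y
    rw [List.mem_cons] at this
    rw [List.mem_append, List.mem_singleton]
    refine ⟨fun e => e.elim (fun e e' => h1.1 (e' ▸ e)) fun e => e ▸ ha.symm, fun e => ?_⟩
    by_cases hy : y = c
    · exact .inr hy
    · exact .inl ((this.2 hy).resolve_left e)

theorem cl_short (hm : HM n O) (h : Arr a (F ++ [c])) (J : ℕ) (hn : J + 1 + d ≤ n) :
    blk n a (c :: (F ++ [c] ++ List.replicate J c)) p ∈ O ↔ blk n a (c :: (F ++ [c])) p ∈ O := by
  have hc : a ≠ c := (h.ne (by simp)).symm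
  induction J with
  | zero => simp
  | succ J ih =>
    refine Iff.trans ?_ (ih (by omega))
    rw [List.replicate_succ', ← List.append_assoc, ← List.cons_append]
    refine Gd.r1 hm ?_
    have := h.gd (U := [c]) (V := List.replicate J c ++ [c]) (n := n) (by simp [hc]) (by simp [hc])
      (by simp; omega)
    simpa using this

theorem cl_turn (hd : 3 ≤ d) (hm : HM n O) (hc : MvO n O (Finset.univ.erase c))
    (ha : MvO n O (Finset.univ.erase a)) (h : Arr c (a :: g :: F)) {k : ℕ} (hn : k + 2 + d ≤ n) :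
    Cl n O c (k + 1) (a :: g :: F) p ↔ Cl n O a 1 (F ++ [g] ++ [c]) (p + (k + 2 : ℕ)) := by
  have hac : c ≠ a := (h.ne (by simp)).symm
  have hgc : c ≠ g := (h.ne (by simp)).symm
  have hag : a ≠ g := by
    have := (List.nodup_cons.1 h.1).1
    rintro rfl
    simp at this
  have hl := h.len
  have h1 : Arr a (F ++ [g] ++ [c]) :=
    Arr.turn (h.perm (List.Perm.cons _ (List.perm_append_singleton g F).symm))
  obtain ⟨J, hJ⟩ : ∃ J, n = k + 2 + d + J := ⟨n - (k + 2 + d), by omega⟩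
  rw [← cl_iff hd hc h (U := g :: List.replicate k a) (by simp [hac, hgc]) (by simp) (by omega),
    ← cl_iff hd ha h1 (U := [c]) (k := 1) (by simp [hac.symm]) rfl (by omega)]
  have e1 := Gd.r1 (p := p) (W := List.replicate k a ++ a :: g :: F) (x := g) hm
    (h.gd (U := g :: List.replicate k a) (V := [g]) (by simp [hac, hgc]) (by simp [hgc])
      (by simp; omega))
  have e2 := Gd.pre (p := p) hc (U := [g]) (U' := [a])
    (h.gd (U := List.replicate k a) (V := [g]) (by simp [hac]) (by simp [hgc]) (by simp; omega))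
    (by simp) (by simp [hgc]) (by simp [hac]) rfl (by simp at hl ⊢; omega)
  have e3 := blk_turn (n := n) (c := c) (p := p) (a := a) (W := g :: (F ++ [g])) (K := k + 2)
    (J := J + 1) (by omega) (by simp at hl ⊢; omega)
  have e4 := Gd.pre (p := p + (k + 2 : ℕ)) ha (U := [g]) (U' := [c])
    (h1.gd (U := []) (V := List.replicate J c) (by simp) (by simp [hac.symm]) (by simp; omega))
    (by simp) (by simp [hag]) (by simp [hac.symm]) rfl (by simp at hl ⊢; omega)
  have e5 := cl_short (p := p + (k + 2 : ℕ)) hm h1 J (by omega)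
  have e6 : List.replicate (k + 2) a ++ g :: (F ++ [g]) =
      a :: (List.replicate k a ++ a :: g :: (F ++ [g])) := by
    rw [List.replicate_succ, List.replicate_succ']
    simp
  rw [e6, List.replicate_succ] at e3
  simp only [List.cons_append, List.nil_append, List.append_assoc] at e1 e2 e3 e4 e5 ⊢
  rw [← e1, e2, e3, e4, e5]

/-- Rigid words give the moves. -/
def HR (n : ℕ) (O : Set (Seq d)) : Prop :=
  ∀ o : Fin d, (∃ z ∈ O, Prim n z ∧ ∀ t, Adm (Finset.univ.erase o) z t → t = z) →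
    ∀ C, o ∉ C → MvO n O C

theorem cl_head (hd : 3 ≤ d) (hn : d + 3 ≤ n) (hR : HR n O) (hc : MvO n O (Finset.univ.erase c))
    (h : Arr c (a :: F)) (h0 : Cl n O c 1 (a :: F) p) : ∀ C, a ∉ C → MvO n O C := by
  have hac : c ≠ a := (h.ne (by simp)).symm
  have hl := h.len
  obtain ⟨J, hJ⟩ : ∃ J, n = 1 + d + J := ⟨n - (1 + d), by omega⟩
  rw [← cl_iff hd hc h (U := [a]) (k := 1) (by simp [hac]) rfl (by omega)] at h0
  have e := blk_turn (n := n) (c := c) (p := p) (a := a) (W := F) (K := 2) (J := J + 1) (by omega)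
    (by simp at hl; omega)
  have g : Gd n a (F ++ List.replicate (J + 1) c) := by
    have := h.turn.gd (U := []) (V := List.replicate J c) (n := n) (by simp) (by simp [hac.symm])
      (by simp; omega)
    simpa [List.replicate_succ] using this
  refine hR a ⟨_, e ▸ h0, g.prim (by simp) _, g.rigid (List.nodup_cons.1 h.1).2 (.inr fun hF => ?_)⟩
  exact h.ne (List.mem_cons_of_mem _ hF) rfl

theorem cl_step (hd : 3 ≤ d) (hn : d + 3 ≤ n) (hm : HM n O) (hR : HR n O)
    (hc : MvO n O (Finset.univ.erase c)) (h : Arr c (f :: F)) :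
    Cl n O c 1 (f :: F) p ↔ Cl n O c 1 (F ++ [f]) (p + 1) := by
  have hl := h.len
  obtain ⟨a, F1, rfl⟩ := List.exists_cons_of_ne_nil (l := F) (by rintro rfl; simp at hl; omega)
  have h' : Arr c (a :: F1 ++ [f]) := h.perm (List.perm_append_singleton f _).symm
  have key : MvO n O (Finset.univ.erase a) →
      (Cl n O c 1 (f :: a :: F1) p ↔ Cl n O c 1 (a :: F1 ++ [f]) (p + 1)) := fun ha => by
    rw [cl_rot hd hm hc h (k := 0) (by omega)]
    obtain ⟨g, F2, e⟩ := List.exists_cons_of_ne_nil (l := F1 ++ [f]) (by simp)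
    rw [List.cons_append, e] at h' ⊢
    rw [cl_turn hd hm hc ha h' (k := 1) (by omega), cl_turn hd hm hc ha h' (k := 0) (by omega),
      add_assoc]
    rfl
  refine ⟨fun e => (key ?_).1 e, fun e => (key ?_).2 e⟩
  · exact cl_head hd hn hR hc (h.perm (List.Perm.swap _ _ _)) ((cl_swap hd hm hc h hn).1 e) _
      (by simp)
  · exact cl_head hd hn hR hc h' e _ (by simp)

theorem cl_cyc (hd : 3 ≤ d) (hn : d + 3 ≤ n) (hm : HM n O) (hR : HR n O)
    (hc : MvO n O (Finset.univ.erase c)) (U : List (Fin d)) : ∀ (F : List (Fin d)) (p : ℤ),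
    Arr c (U ++ F) → (Cl n O c 1 (U ++ F) p ↔ Cl n O c 1 (F ++ U) (p + U.length)) := by
  induction U with
  | nil => simp
  | cons u U ih =>
    intro F p h
    rw [List.cons_append] at h
    rw [List.cons_append, cl_step hd hn hm hR hc h, List.append_assoc,
      ih _ _ (by simpa using h.perm (List.perm_append_singleton u _).symm), List.length_cons,
      show p + 1 + U.length = p + (U.length + 1 : ℕ) by push_cast; ring]
    simp

theorem cl_perm (hd : 3 ≤ d) (hn : d + 3 ≤ n) (hm : HM n O) (hR : HR n O)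
    (hc : MvO n O (Finset.univ.erase c)) (e : F.Perm F') :
    ∀ U, Arr c (U ++ F) → (Cl n O c 1 (U ++ F) p ↔ Cl n O c 1 (U ++ F') p) := by
  induction e with
  | nil => exact fun _ _ => Iff.rfl
  | cons x _ ih =>
    intro U h
    simpa using ih (U ++ [x]) (by simpa using h)
  | swap x y l =>
    intro U h
    rw [cl_cyc hd hn hm hR hc _ _ _ h,
      cl_cyc hd hn hm hR hc _ _ _ (h.perm ((List.Perm.swap _ _ _).append_left U))]
    exact cl_swap hd hm hc (h.perm List.perm_append_comm) hn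
  | trans e1 _ ih1 ih2 => exact fun U h => (ih1 U h).trans (ih2 U (h.perm (e1.append_left U)))

theorem cl_all (hd : 3 ≤ d) (hn : d + 3 ≤ n) (hm : HM n O) (hR : HR n O)
    (hc : MvO n O (Finset.univ.erase c)) (h : Arr c F) (h' : Arr c F') (h0 : Cl n O c 1 F p)
    (q : ℤ) : Cl n O c 1 F' q := by
  have hl := h.len
  have s : ∀ q, Cl n O c 1 F q ↔ Cl n O c 1 F (q + 1) := fun q => by
    obtain ⟨f, F1, rfl⟩ := List.exists_cons_of_ne_nil (l := F) (by rintro rfl; simp at hl; omega)
    rw [cl_step hd hn hm hR hc h]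
    exact (cl_perm hd hn hm hR hc (List.perm_append_singleton f F1).symm [] h).symm
  have e : F.Perm F' := (List.perm_ext_iff_of_nodup h.1 h'.1).2 fun y => (h.2 y).trans (h'.2 y).symm
  refine (cl_perm hd hn hm hR hc e [] h).1 ?_
  induction q using Int.inductionOn' (b := p) with
  | zero => exact h0
  | succ k _ ih => exact (s k).1 ih
  | pred k _ ih => exact (s _).2 (by rwa [sub_add_cancel])

end Pool.Agent.MP_9b2bac_nt.Z

end

section

/- All canonical words are equivalent. -/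

set_option autoImplicit false

namespace Pool.Agent.MP_9b2bac_nt.Z

variable {d : ℕ}

theorem arr_zero [NeZero d] {m : ℕ} (hm : d = m + 1) : Arr 0 ((List.range m).map (L d)) := by
  refine ⟨List.Nodup.map_on (fun a ha b hb e => ?_) List.nodup_range, fun y => ?_⟩
  · by_contra hc
    exact ZSweep.L_ne' hm (List.mem_range.1 ha) (List.mem_range.1 hb) hc e
  · rw [List.mem_map]
    refine ⟨?_, fun h => ?_⟩
    · rintro ⟨a, ha, rfl⟩
      exact ZSweep.L_ne hm (List.mem_range.1 ha)
    · obtain ⟨t, h1, h2⟩ := ZSweep.exists_L hm h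
      exact ⟨t, List.mem_range.2 h1, h2.symm⟩

theorem zd_eq [NeZero d] {m : ℕ} (hm : d = m + 1) (n : ℕ) :
    zd d n = blk n 0 ((List.range m).map (L d)) 0 := by
  funext i
  unfold zd blk
  rw [sub_zero, show d - 1 = m by omega]
  by_cases h : (i % n).toNat < m
  · rw [min_eq_left h.le, List.getD_eq_getElem _ _ (by simpa using h)]
    simp
  · rw [min_eq_right (by omega), ZSweep.L_top hm, List.getD_eq_default _ _ (by simpa using h)]

theorem Can.eq_blk {n : ℕ} {c : Fin d} {p : ℤ} {t : Seq d} (h : Can n c p t) :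
    ∃ F, Arr c F ∧ t = blk n c ([t p] ++ F) p := by
  obtain ⟨m, hm⟩ : ∃ m, d = m + 1 := ⟨d - 1, by have := c.pos; omega⟩
  obtain ⟨h1, -, h3, h4⟩ := h
  set F := (List.range m).map fun k : ℕ => t (p + (k + 1 : ℕ)) with hF
  have hs : Finset.univ.erase c ⊆ F.toFinset := fun y hy => by
    obtain ⟨k, a, b, e⟩ := h3 y (Finset.ne_of_mem_erase hy)
    rw [List.mem_toFinset, hF, List.mem_map]
    exact ⟨k - 1, List.mem_range.2 (by omega), by rwa [show k - 1 + 1 = k by omega]⟩
  have hl : F.length = m := by simp [hF]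
  have hc : (Finset.univ.erase c).card = m := by
    rw [Finset.card_erase_of_mem (Finset.mem_univ _), Finset.card_univ, Fintype.card_fin]
    omega
  have h5 := List.toFinset_card_le F
  have h6 := Finset.card_le_card hs
  have h7 := Finset.eq_of_subset_of_card_le hs (by omega)
  refine ⟨F, ⟨?_, fun y => ?_⟩, ?_⟩
  · have : (F : Multiset (Fin d)).Nodup :=
      Multiset.toFinset_card_eq_card_iff_nodup.1 (by
        rw [Multiset.coe_card]
        show F.toFinset.card = _
        omega)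
    exact this
  · rw [← List.mem_toFinset, ← h7]
    simp
  · funext i
    obtain ⟨k, q, hk, hi⟩ := pos_dec h1.1 p i
    rw [blk_at k q hk hi, hi, h1.zper]
    rcases k with _ | k
    · simp
    · by_cases h8 : k < m
      · rw [List.singleton_append, List.getD_cons_succ, List.getD_eq_getElem _ _ (by omega)]
        simp [hF]
      · rw [List.getD_eq_default _ _ (by simp; omega)]
        exact h4 _ (by omega) hk

theorem all_can [NeZero d] (hd : 3 ≤ d) {n : ℕ} (hn : d + 3 ≤ n) (O : Set (Seq d))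
    (hmk : ∀ u v j s, u ≠ v → 1 ≤ j → Prim n s → Prim n (mk u v j s) ∧ (s ∈ O ↔ mk u v j s ∈ O))
    (hR : ∀ o : Fin d, (∃ z ∈ O, Prim n z ∧ ∀ t, Adm (Finset.univ.erase o) z t → t = z) →
      ∀ C, o ∉ C → MvO n O C)
    (h0 : zd d n ∈ O) :
    (∀ C, C ≠ Finset.univ → MvO n O C) ∧ ∀ t c p, Can n c p t → t ∈ O := by
  obtain ⟨m, hm⟩ : ∃ m, d = m + 1 := ⟨d - 1, by omega⟩
  have hA := arr_zero hm
  rw [zd_eq hm] at h0
  generalize (List.range m).map (L d) = F at hA h0
  have hl := hA.len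
  obtain ⟨x, W, rfl⟩ := List.exists_cons_of_ne_nil (l := F) (by rintro rfl; simp at hl; omega)
  have hx : (0 : Fin d) ≠ x := (hA.ne (by simp)).symm
  have g : Gd n 0 (x :: W ++ List.replicate 0 x) :=
    hA.gd (U := []) (by simp) (by simp) (by simp; omega)
  have H0 : ∀ C, 0 ∉ C → MvO n O C :=
    hR 0 ⟨_, by simpa using h0, g.prim (by simp) 0, g.rigid hA.1 (.inl rfl)⟩
  have hA' : Arr 0 (W ++ [x]) := hA.perm (List.perm_append_singleton x W).symm
  have c0 : Cl n O 0 1 (W ++ [x]) 0 :=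
    ⟨[x], rfl, by simp [hx], (Gd.r1 hmk (hA.gd (U := []) (by simp) (by simp [hx])
      (by simp; omega))).2 h0⟩
  have key : ∀ c : Fin d, (∀ C, c ∉ C → MvO n O C) ∧ ∃ F p, Arr c F ∧ Cl n O c 1 F p := by
    intro c
    by_cases hc : c = 0
    · exact hc ▸ ⟨H0, _, _, hA', c0⟩
    · have h1 := hA.perm (List.perm_cons_erase ((hA.2 c).2 hc))
      have h2 := h1.len
      obtain ⟨y, V, e⟩ := List.exists_cons_of_ne_nil (l := (x :: W).erase c)
        (fun e => by rw [e] at h2; simp at h2; omega)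
      rw [e] at h1
      have h3 := cl_all hd hn hmk hR (H0 _ (by simp)) hA' h1 c0 0
      have h4 := cl_head hd hn hR (H0 _ (by simp)) h1 h3
      exact ⟨h4, _, _, Arr.turn (h1.perm (List.Perm.cons _ (List.perm_append_singleton y V).symm)),
        (cl_turn hd hmk (H0 _ (by simp)) (h4 _ (by simp)) h1 (k := 0) (by omega)).1 h3⟩
  refine ⟨fun C hC => ?_, fun t c p ht => ?_⟩
  · obtain ⟨o, ho⟩ : ∃ o, o ∉ C := by
      by_contra hc
      push Not at hc
      exact hC (Finset.eq_univ_of_forall hc)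
    exact (key o).1 C ho
  · obtain ⟨h1, F, q, h2, h3⟩ := key c
    obtain ⟨F', h4, h5⟩ := ht.eq_blk
    rw [h5]
    exact (cl_iff hd (h1 _ (by simp)) h4 (k := 1) (by simpa using ht.2.1.symm) rfl (by omega)).2
      (cl_all hd hn hmk hR (h1 _ (by simp)) h2 h4 h3 p)

theorem transD [NeZero d] (hd : 3 ≤ d) {n : ℕ} (hn : d + 3 ≤ n) (O : Set (Seq d))
    (hmk : ∀ u v j s, u ≠ v → 1 ≤ j → Prim n s → Prim n (mk u v j s) ∧ (s ∈ O ↔ mk u v j s ∈ O))
    (hR : ∀ o : Fin d, (∃ z ∈ O, Prim n z ∧ ∀ t, Adm (Finset.univ.erase o) z t → t = z) →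
      ∀ C, o ∉ C → MvO n O C)
    (h0 : zd d n ∈ O) {s : Seq d} (hs : Prim n s) : s ∈ O := by
  obtain ⟨h1, h2⟩ := all_can hd hn O hmk hR h0
  obtain ⟨t, c, p, -, hc, e⟩ := to_can hd (by omega) O hmk h1 hs
  exact e.2 (h2 t c p hc)

end Pool.Agent.MP_9b2bac_nt.Z

end

section

/- Canonical words on the two lowest levels above the number of letters. -/

set_option autoImplicit false

namespace Pool.Agent.MP_9b2bac_nt.Z

variable {d : ℕ}

namespace TPuzX

variable {n : ℕ} {O : Set (Seq d)} {c c' u v y : Fin d} {p a : ℤ} {A B F F' U V W : List (Fin d)}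

theorem blk_pad (j : ℕ) : blk n c (W ++ List.replicate j c) p = blk n c W p := by
  funext i
  unfold blk
  generalize ((i - p) % n).toNat = k
  by_cases h : k < W.length
  · rw [List.getD_append _ _ _ _ h]
  · rw [List.getD_append_right _ _ _ _ (by omega), List.getD_eq_default W _ (by omega)]
    by_cases h' : k - W.length < j
    · rw [List.getD_eq_getElem _ _ (by simpa using h'), List.getElem_replicate]
    · rw [List.getD_eq_default _ _ (by simp; omega)]

theorem blk_rot (c' : Fin d) (hn : 0 < n) (h : n = U.length + V.length) :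
    blk n c (U ++ V) p = blk n c' (V ++ U) (p + U.length) := by
  funext i
  obtain ⟨k, q, hk, hi⟩ := pos_dec hn p i
  rw [blk_at k q hk hi]
  by_cases hc : k < U.length
  · rw [blk_at (k + V.length) (q - 1) (by omega) (by rw [sub_mul]; push_cast; omega),
      List.getD_append _ _ _ _ hc, List.getD_append_right _ _ _ _ (by omega),
      Nat.add_sub_cancel, List.getD_eq_getElem _ _ hc, List.getD_eq_getElem _ _ hc]
  · have h1 : k - U.length < V.length := by omega
    rw [blk_at (k - U.length) q (by omega) (by omega), List.getD_append_right _ _ _ _ (by omega),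
      List.getD_append _ _ _ _ h1, List.getD_eq_getElem _ _ h1, List.getD_eq_getElem _ _ h1]

theorem rigid2 (hn : d < n) (h : Arr c F) (hy : y ≠ c) (t : Seq d)
    (ht : Adm (Finset.univ.erase y) (blk n c (y :: F) p) t) : t = blk n c (y :: F) p := by
  funext i
  have hl := h.len
  obtain ⟨k, q, hk, hi⟩ := pos_dec (show 0 < n by omega) p i
  have key : ∀ i0 j, i ≤ i0 → i0 ≤ i + 1 → Occ (Finset.univ.erase y) (blk n c (y :: F) p) i0 j →
      ∃ k' : ℕ, k' < n ∧ i0 ≤ p + k' + q * n ∧ j = (y :: F).getD k' c ∧ j ≠ y := by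
    rintro i0 j h1 h2 ⟨i', a1, a2, a3⟩
    have h3 : i' < p + (q + 1) * n := by
      by_contra hc
      have := a3 (p + (q + 1) * n) (by rw [add_mul]; omega) (by omega)
      rw [blk_at 0 (q + 1) (by omega) (by simp)] at this
      simp at this
    rw [add_mul] at h3
    refine ⟨(i' - p - q * n).toNat, by omega, by omega, ?_, ?_⟩
    · rw [← a2]
      exact blk_at _ q (by omega) (by omega)
    · have := a3 i' a1 le_rfl
      rw [a2] at this
      simpa using this
  by_cases h1 : k < d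
  · refine ht.fix fun ho => ?_
    obtain ⟨k', b1, b2, b3, b4⟩ := key _ _ (by omega) le_rfl ho
    rw [blk_at k q hk hi] at b3 b4
    rcases k with _ | k
    · exact b4 rfl
    · obtain ⟨k', rfl⟩ : ∃ m, k' = m + 1 := ⟨k' - 1, by omega⟩
      have h2 : k < F.length := by omega
      rw [List.getD_cons_succ, List.getD_cons_succ, List.getD_eq_getElem _ _ h2] at b3
      by_cases h3 : k' < F.length
      · rw [List.getD_eq_getElem _ _ h3] at b3
        have := (h.1.getElem_inj_iff).1 b3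
        omega
      · rw [List.getD_eq_default _ _ (by omega)] at b3
        exact h.ne (List.getElem_mem h2) b3
  · have e : blk n c (y :: F) p i = c := by
      rw [blk_at k q hk hi, List.getD_eq_default _ _ (by simp; omega)]
    obtain ⟨k', b1, b2, b3, -⟩ := key _ _ le_rfl (by omega) (ht.occ (by rw [e]; simpa using hy.symm))
    rw [e, b3, List.getD_eq_default _ _ (by simp; omega)]

/-- All moves are available. -/
def AM (n : ℕ) (O : Set (Seq d)) : Prop := ∀ y, MvO n O (Finset.univ.erase y)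

theorem fill (hd : 3 ≤ d) (hn : d < n) (hm : AM n O) (h : Arr c (A ++ B)) (hu : u ≠ c)
    (hu' : A.getLast? ≠ some u) (hv : v ≠ c) (hv' : A.getLast? ≠ some v) :
    blk n c (A ++ u :: B) a ∈ O ↔ blk n c (A ++ v :: B) a ∈ O := by
  have hl := h.len
  rcases List.eq_nil_or_concat' A with rfl | ⟨A', y, rfl⟩
  · exact (cl_iff hd (hm c) h (U := [u]) (k := 1) (by simpa using hu.symm) rfl (by omega)).trans
      (cl_iff hd (hm c) h (U := [v]) (k := 1) (by simpa using hv.symm) rfl (by omega)).symm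
  · obtain ⟨J, hJ⟩ : ∃ J, n = d + 1 + J := ⟨n - (d + 1), by omega⟩
    simp only [List.length_append, List.length_singleton] at hl
    have e : ∀ w : Fin d, blk n c (A' ++ [y] ++ w :: B) a =
        blk n y ([w] ++ (B ++ List.replicate (J + 1) c ++ A')) (a + (A' ++ [y]).length) := by
      intro w
      rw [← blk_pad (J + 1), List.append_assoc, blk_rot y (by omega) (by simp; omega),
        ← blk_pad (W := [w] ++ (B ++ List.replicate (J + 1) c ++ A')) 1]
      simp
    have hy : y ≠ c := h.ne (by simp)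
    have hG : Gd n y (B ++ List.replicate (J + 1) c ++ A') := by
      refine ⟨fun z => ?_, by simp; omega⟩
      have h1 := h.2 z
      have h2 := h.1
      simp only [List.nodup_append, List.mem_append, List.mem_singleton, List.mem_replicate] at h1 h2 ⊢
      constructor
      · rintro ((b | b) | b) rfl
        · exact h2.2.2 z (.inr rfl) z b rfl
        · exact hy b.2
        · exact h2.1.2.2 z b z rfl rfl
      · intro b
        by_cases hz : z = c
        · exact .inl (.inr ⟨by omega, hz⟩)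
        · rcases h1.2 hz with (e | e) | e
          exacts [.inr e, absurd e b, .inl (.inl e)]
    rw [e, e]
    simp only [List.getLast?_append, List.getLast?_singleton, Option.some_or, ne_eq,
      Option.some.injEq] at hu' hv'
    exact Gd.pre (hm y) hG (by simp) (by simpa using hu') (by simpa using hv') rfl (by simp; omega)

/-- The word with the letters `A`, a gap and the letters `B` lies in `O`. -/
def St (n : ℕ) (O : Set (Seq d)) (c : Fin d) (a : ℤ) (A B : List (Fin d)) : Prop :=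
  Arr c (A ++ B) ∧ ∃ u, u ≠ c ∧ A.getLast? ≠ some u ∧ blk n c (A ++ u :: B) a ∈ O

theorem st_iff (hd : 3 ≤ d) (hn : d < n) (hm : AM n O) (h : Arr c (A ++ B)) (hu : u ≠ c)
    (hu' : A.getLast? ≠ some u) : St n O c a A B ↔ blk n c (A ++ u :: B) a ∈ O :=
  ⟨fun ⟨_, _, h1, h2, h3⟩ => (fill hd hn hm h h1 h2 hu hu').1 h3, fun e => ⟨h, u, hu, hu', e⟩⟩

theorem last_ne (h : u ∉ A) : A.getLast? ≠ some u := fun e => h (List.mem_of_getLast? e)

theorem jump (hd : 3 ≤ d) (hn : d < n) (hm : AM n O) (A : List (Fin d)) (u : Fin d)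
    (U B : List (Fin d)) (hU : U ≠ []) :
    St n O c a A (U ++ u :: B) ↔ St n O c a (A ++ u :: U) B := by
  have pe : (A ++ (U ++ u :: B)).Perm (A ++ u :: U ++ B) := by
    rw [List.append_assoc]
    exact List.Perm.append_left A List.perm_middle
  have key : Arr c (A ++ (U ++ u :: B)) →
      (St n O c a A (U ++ u :: B) ↔ St n O c a (A ++ u :: U) B) := fun h => by
    have hu : u ≠ c := h.ne (by simp)
    have h2 := h.1
    simp only [List.nodup_append, List.mem_append, List.mem_cons] at h2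
    rw [st_iff hd hn hm h hu (last_ne fun b => h2.2.2 u b u (.inr (.inl rfl)) rfl),
      st_iff hd hn hm (h.perm pe) hu]
    · simp
    · obtain ⟨U', z, rfl⟩ := (List.eq_nil_or_concat' U).resolve_left hU
      have : z ≠ u := h2.2.1.2.2 z (by simp) u (.inl rfl)
      rw [← List.cons_append, ← List.append_assoc, List.getLast?_append]
      simpa using this
  exact ⟨fun e => (key e.1).1 e, fun e => (key (e.1.perm pe.symm)).2 e⟩

section
variable (hd : 3 ≤ d) (hn : d < n) (hm : AM n O)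
include hd hn hm

theorem sw1 (U : List (Fin d)) (u : Fin d) (M : List (Fin d)) (v : Fin d) (B : List (Fin d))
    (hU : U ≠ []) (hM : M ≠ []) (h : St n O c a [] (U ++ u :: (M ++ v :: B))) :
    St n O c a [] (U ++ v :: (M ++ u :: B)) := by
  rw [jump hd hn hm _ _ _ _ hU, jump hd hn hm _ _ _ _ hM] at h
  have := (jump hd hn hm [] u (U ++ v :: M) B (by simp)).2 (by simpa using h)
  simpa using this

theorem sw0 (u x v z w : Fin d) (B : List (Fin d))
    (h : St n O c a [] (u :: x :: v :: z :: (B ++ [w]))) :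
    St n O c a [] (v :: x :: u :: z :: (B ++ [w])) := by
  have h1 := (jump hd hn hm [] w (u :: x :: v :: z :: B) [] (by simp)).1 h
  have h2 := (jump hd hn hm [w, u, x] v (z :: B) [] (by simp)).2 (by simpa using h1)
  have h3 := (jump hd hn hm [w] u [x] (z :: B ++ [v]) (by simp)).2 (by simpa using h2)
  have h4 := (jump hd hn hm [w] v (x :: u :: z :: B) [] (by simp)).1 (by simpa using h3)
  exact (jump hd hn hm [] w (v :: x :: u :: z :: B) [] (by simp)).2 (by simpa using h4)

theorem adjA (U : List (Fin d)) (x y z w : Fin d) (B : List (Fin d)) (hU : U ≠ [])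
    (h : St n O c a [] (U ++ x :: y :: z :: w :: B)) : St n O c a [] (U ++ y :: x :: z :: w :: B) := by
  have h1 := sw1 hd hn hm U x [y, z] w B hU (by simp) h
  have h2 := sw1 hd hn hm (U ++ [w]) y [z] x B (by simp) (by simp) (by simpa using h1)
  exact sw1 hd hn hm U w [x, z] y B hU (by simp) (by simpa using h2)

theorem adjB (U : List (Fin d)) (w z x y : Fin d) (B : List (Fin d)) (hU : U ≠ [])
    (h : St n O c a [] (U ++ w :: z :: x :: y :: B)) : St n O c a [] (U ++ w :: z :: y :: x :: B) := by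
  have h1 := sw1 hd hn hm U w [z, x] y B hU (by simp) h
  have h2 := sw1 hd hn hm U y [z] x (w :: B) hU (by simp) h1
  exact sw1 hd hn hm U x [z, y] w B hU (by simp) h2

theorem adjC (U : List (Fin d)) (b x y z : Fin d) (B : List (Fin d)) (hU : U ≠ [])
    (h : St n O c a [] (U ++ b :: x :: y :: z :: B)) : St n O c a [] (U ++ b :: y :: x :: z :: B) := by
  have h1 := adjA hd hn hm U b x y z B hU h
  have h2 := sw1 hd hn hm U x [b] y (z :: B) hU (by simp) h1
  exact adjA hd hn hm U y b x z B hU h2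

theorem adjD (x y z w v : Fin d) (B : List (Fin d))
    (h : St n O c a [] (x :: y :: z :: w :: (B ++ [v]))) :
    St n O c a [] (y :: x :: z :: w :: (B ++ [v])) := by
  obtain ⟨v', B', e⟩ := List.exists_cons_of_ne_nil (l := B ++ [v]) (by simp)
  have h1 : St n O c a [] (x :: z :: y :: w :: (B ++ [v])) := by
    rw [e] at h ⊢
    exact adjA hd hn hm [x] y z w v' B' (by simp) h
  have h2 := sw0 hd hn hm x z y w v B h1
  rw [e] at h2 ⊢
  exact adjA hd hn hm [y] z x w v' B' (by simp) h2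

end

theorem adj (hd : 6 ≤ d) (hn : d < n) (hm : AM n O) (U : List (Fin d)) (x y : Fin d)
    (B : List (Fin d)) (h : St n O c a [] (U ++ x :: y :: B)) :
    St n O c a [] (U ++ y :: x :: B) := by
  have hl := h.1.len
  have hd' : 3 ≤ d := by omega
  simp only [List.nil_append, List.length_append, List.length_cons] at hl
  rcases B with _ | ⟨z, _ | ⟨w, B⟩⟩
  · rcases List.eq_nil_or_concat' U with rfl | ⟨U1, z, rfl⟩
    · simp at hl
      omega
    rcases List.eq_nil_or_concat' U1 with rfl | ⟨U2, w, rfl⟩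
    · simp at hl
      omega
    have := adjB hd' hn hm U2 w z x y [] (by rintro rfl; simp at hl; omega) (by simpa using h)
    simpa using this
  · rcases List.eq_nil_or_concat' U with rfl | ⟨U1, b, rfl⟩
    · simp at hl
      omega
    have := adjC hd' hn hm U1 b x y z [] (by rintro rfl; simp at hl; omega) (by simpa using h)
    simpa using this
  · by_cases hU : U = []
    · subst hU
      rcases List.eq_nil_or_concat' B with rfl | ⟨B1, v, rfl⟩
      · simp at hl
        omega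
      exact adjD hd' hn hm x y z w v B1 h
    · exact adjA hd' hn hm U x y z w B hU h

theorem st_perm (hd : 6 ≤ d) (hn : d < n) (hm : AM n O) (e : F.Perm F') :
    ∀ U, St n O c a [] (U ++ F) → St n O c a [] (U ++ F') := by
  induction e with
  | nil => exact fun _ h => h
  | cons x _ ih =>
    intro U h
    simpa using ih (U ++ [x]) (by simpa using h)
  | swap x y l => exact fun U h => adj hd hn hm U y x l h
  | trans _ _ ih1 ih2 => exact fun U h => ih2 U (ih1 U h)

/-- The class of the words with background `c` at `a`. -/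
def E (n : ℕ) (O : Set (Seq d)) (c : Fin d) (a : ℤ) : Prop := ∃ F, St n O c a [] F

theorem e_nil (hd : 6 ≤ d) (hn : d < n) (hm : AM n O) (h : Arr c F) :
    St n O c a [] F ↔ E n O c a :=
  ⟨fun e => ⟨F, e⟩, fun ⟨_, e⟩ => st_perm hd hn hm
    ((List.perm_ext_iff_of_nodup e.1.1 h.1).2 fun y => (e.1.2 y).trans (h.2 y).symm) [] e⟩

theorem e_one (hd : 6 ≤ d) (hn : d < n) (hm : AM n O) {w : Fin d} (h : Arr c (w :: B)) :
    St n O c a [w] B ↔ E n O c a := by
  have hl := h.len
  have hd' : 3 ≤ d := by omega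
  rcases B with _ | ⟨b, _ | ⟨u, B⟩⟩
  · simp at hl
    omega
  · simp at hl
    omega
  have e1 := jump (c := c) (a := a) hd' hn hm [w] u [b] B (by simp)
  have e2 := jump (c := c) (a := a) hd' hn hm [] w [u, b] B (by simp)
  refine (e1.trans e2.symm).trans (e_nil hd hn hm (h.perm ?_))
  exact ((List.Perm.swap u b B).cons w).trans (List.perm_middle (l₁ := [u, b])).symm

theorem e_all (hd : 6 ≤ d) (hn : d < n) (hm : AM n O) (h : Arr c (A ++ B)) :
    St n O c a A B ↔ E n O c a := by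
  rcases A with _ | ⟨w, _ | ⟨z, U⟩⟩
  · exact e_nil hd hn hm h
  · exact e_one hd hn hm h
  · exact (jump (by omega) hn hm [] w (z :: U) B (by simp)).symm.trans
      (e_nil hd hn hm (h.perm List.perm_middle.symm))

theorem exists_arr (hd : 6 ≤ d) {x y : Fin d} (hx : x ≠ c) (hy : y ≠ c) (hxy : y ≠ x) :
    ∃ B, Arr c (x :: y :: B) := by
  have h0 : Arr c (Finset.univ.erase c).toList := ⟨Finset.nodup_toList _, fun y => by simp⟩
  have _ := hd
  have h1 := h0.perm (List.perm_cons_erase ((h0.2 x).2 hx))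
  have h2 : y ∈ (Finset.univ.erase c).toList.erase x :=
    (List.mem_cons.1 ((h1.2 y).2 hy)).resolve_left hxy
  exact ⟨_, h1.perm ((List.perm_cons_erase h2).cons x)⟩

theorem third (hd : 6 ≤ d) (x y : Fin d) : ∃ z, z ≠ x ∧ z ≠ y := by
  by_contra hc
  push Not at hc
  have : (Finset.univ : Finset (Fin d)) ⊆ {x, y} := fun z _ => by
    by_cases h : z = x
    · simp [h]
    · simp [hc z h]
  have h1 := Finset.card_le_card this
  have h2 : ({x, y} : Finset (Fin d)).card ≤ 2 := Finset.card_le_two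
  rw [Finset.card_univ, Fintype.card_fin] at h1
  omega

theorem step1 (hd : 6 ≤ d) (hn : n = d + 1) (hm : AM n O) (h : c' ≠ c) :
    E n O c a ↔ E n O c' (a + 1) := by
  obtain ⟨u, h1, h2⟩ := third hd c c'
  obtain ⟨B, hB⟩ := exists_arr hd h h1 h2
  have hl := hB.len
  have hB' : Arr c' (u :: B ++ [c]) := hB.turn
  rw [← e_one hd (by omega) hm hB, ← e_nil hd (by omega) hm hB',
    st_iff (by omega) (by omega) hm hB h1 (by simpa using h2.symm),
    st_iff (A := []) (B := u :: B ++ [c]) (by omega) (by omega) hm hB' h2 (by simp), ← blk_pad 1, List.append_assoc,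
    blk_rot c' (by omega) (by simp at hl ⊢; omega), ← blk_pad (W := [] ++ u :: (u :: B ++ [c])) 1]
  simp

theorem step2 (hd : 6 ≤ d) (hn : n = d + 2) (hm : AM n O) (h : Arr c (A ++ u :: B)) :
    E n O c a ↔ E n O u (a + (A.length + 2 : ℕ)) := by
  have hl := h.len
  have hu : u ≠ c := h.ne (by simp)
  have h1 : Arr u (B ++ c :: A) := by
    have := (h.perm (List.perm_middle.trans (List.perm_append_comm.cons u))).turn
    refine this.perm ?_
    rw [List.append_assoc]
    exact List.Perm.append_left B (List.perm_append_singleton c A)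
  have h2 := h.1
  simp only [List.nodup_append, List.mem_cons] at h2
  rw [← e_all hd (by omega) hm h, ← e_all hd (by omega) hm h1,
    st_iff (by omega) (by omega) hm h hu (last_ne fun b => h2.2.2 u b u (.inl rfl) rfl),
    st_iff (by omega) (by omega) hm h1 hu.symm (last_ne fun b => h.ne (by simp [b]) rfl),
    ← blk_pad 2, show A ++ u :: u :: B ++ List.replicate 2 c = (A ++ [u, u]) ++ (B ++ [c, c]) by simp,
    blk_rot u (by omega) (by simp at hl ⊢; omega), ← blk_pad (W := B ++ c :: c :: A) 2]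
  simp

theorem e_step (hd : 6 ≤ d) (hn : d < n) (hn' : n ≤ d + 2) (hm : AM n O) :
    (∀ c c' a, E n O c a ↔ E n O c' a) ∧ ∀ c a, E n O c a ↔ E n O c (a + 1) := by
  have key : ∀ k : ℤ, (∀ c c' a, c' ≠ c → (E n O c a ↔ E n O c' (a + k))) →
      (∀ c c' a, E n O c a ↔ E n O c' a) ∧ ∀ c a, E n O c a ↔ E n O c (a + k) := by
    intro k hk
    have h1 : ∀ c c' a, E n O c a ↔ E n O c' a := fun c c' a => by
      obtain ⟨z, a1, a2⟩ := third hd c c'
      exact (hk c z a a1).trans (hk c' z a a2).symm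
    refine ⟨h1, fun c a => ?_⟩
    obtain ⟨z, a1, -⟩ := third hd c c
    exact (hk c z a a1).trans (h1 _ _ _)
  rcases (show n = d + 1 ∨ n = d + 2 by omega) with e | e
  · exact key 1 fun c c' a h => step1 hd e hm h
  · obtain ⟨k1, k2⟩ := key 2 fun c c' a h => by
      obtain ⟨u, h1, h2⟩ := third hd c c'
      obtain ⟨B, hB⟩ := exists_arr hd h h1 h2
      exact step2 (A := []) hd e hm hB
    obtain ⟨-, k3⟩ := key 3 fun c c' a h => by
      obtain ⟨u, h1, h2⟩ := third hd c c'
      obtain ⟨B, hB⟩ := exists_arr hd h1 h h2.symm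
      exact step2 (A := [u]) hd e hm hB
    refine ⟨k1, fun c a => ?_⟩
    rw [k3 c a, k2 c (a + 1), add_assoc]
    rfl

end TPuzX

open TPuzX

theorem all_canE [NeZero d] (hd : 6 ≤ d) {n : ℕ} (hn : d < n) (hn' : n ≤ d + 2) (O : Set (Seq d))
    (hmk : ∀ u v j s, u ≠ v → 1 ≤ j → Prim n s → Prim n (mk u v j s) ∧ (s ∈ O ↔ mk u v j s ∈ O))
    (hR : ∀ o : Fin d, (∃ z ∈ O, Prim n z ∧ ∀ t, Adm (Finset.univ.erase o) z t → t = z) →
      ∀ C, o ∉ C → MvO n O C)
    (h0 : zd d n ∈ O) :
    (∀ C, C ≠ Finset.univ → MvO n O C) ∧ ∀ t c p, Can n c p t → t ∈ O := by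
  obtain ⟨m, hm⟩ : ∃ m, d = m + 1 := ⟨d - 1, by omega⟩
  have hd' : 3 ≤ d := by omega
  have hA := arr_zero hm
  rw [zd_eq hm] at h0
  generalize (List.range m).map (L d) = F at hA h0
  have hl := hA.len
  obtain ⟨x, W, rfl⟩ := List.exists_cons_of_ne_nil (l := F) (by rintro rfl; simp at hl; omega)
  have hx : (0 : Fin d) ≠ x := (hA.ne (by simp)).symm
  have g : Gd n 0 (x :: W ++ List.replicate 0 x) :=
    hA.gd (U := []) (by simp) (by simp) (by simp; omega)
  have H0 : ∀ C, 0 ∉ C → MvO n O C :=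
    hR 0 ⟨_, by simpa using h0, g.prim (by simp) 0, g.rigid hA.1 (.inl rfl)⟩
  have hA' : Arr 0 (W ++ [x]) := hA.perm (List.perm_append_singleton x W).symm
  have c0 : Cl n O 0 1 (W ++ [x]) 0 :=
    ⟨[x], rfl, by simp [hx], (Gd.r1 hmk (hA.gd (U := []) (by simp) (by simp [hx])
      (by simp; omega))).2 h0⟩
  have c1 : ∀ y : Fin d, y ≠ 0 → blk n 0 (y :: (W ++ [x])) 0 ∈ O := fun y hy =>
    (cl_iff hd' (H0 _ (by simp)) hA' (U := [y]) (k := 1) (by simpa using hy.symm) rfl (by omega)).2 c0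
  have key : ∀ c : Fin d, ∀ C, c ∉ C → MvO n O C := by
    intro c
    by_cases hc : c = 0
    · exact hc ▸ H0
    · have g' : Gd n 0 (c :: (W ++ [x])) := by
        simpa using hA'.gd (U := [c]) (V := []) (n := n) (by simpa using Ne.symm hc) (by simp)
          (by simp; omega)
      exact hR c ⟨_, c1 c hc, g'.prim (by simp) 0, rigid2 hn hA' hc⟩
  have am : AM n O := fun y => key y _ (by simp)
  refine ⟨fun C hC => ?_, fun t c p ht => ?_⟩
  · obtain ⟨o, ho⟩ : ∃ o, o ∉ C := by
      by_contra hc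
      push Not at hc
      exact hC (Finset.eq_univ_of_forall hc)
    exact key o C ho
  · obtain ⟨k1, k2⟩ := e_step hd hn hn' am
    have e0 : E n O c 0 := (k1 0 c 0).1 ⟨W ++ [x], hA', x, hx.symm, by simp, c1 x hx.symm⟩
    have e1 : ∀ q : ℤ, E n O c q := fun q => by
      induction q using Int.inductionOn' (b := 0) with
      | zero => exact e0
      | succ k _ ih => exact (k2 c k).1 ih
      | pred k _ ih => exact (k2 c _).2 (by rwa [sub_add_cancel])
    obtain ⟨F', h4, h5⟩ := ht.eq_blk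
    rw [h5]
    exact (st_iff (A := []) (B := F') hd' hn am h4 ht.2.1 (by simp)).1
      ((e_nil hd hn am h4).2 (e1 p))

end Pool.Agent.MP_9b2bac_nt.Z

end

section

/- The Poisson law in the group. -/

set_option autoImplicit false

namespace Pool.Agent.MP_9b2bac_nt.Z

variable {d : ℕ}

namespace VGrpX

open ZGiant YGrpX

/-- Letter values: a run of `m` letters `1` inserted at slot `p` of `0 ... 0 2 3 ... (d-1)`. -/
def Fm (d n p m a : ℕ) : ℕ :=
  if p ≤ a ∧ a < p + m then 1 else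
    if a < p then (if n + 2 ≤ a + m + d then a + m + d - n else 0)
    else (if n + 2 ≤ a + d then a + d - n else 0)

theorem Fm_spec (d n p m a : ℕ) :
    (p ≤ a ∧ a < p + m ∧ Fm d n p m a = 1) ∨
    (a < p ∧ n + 2 ≤ a + m + d ∧ Fm d n p m a + n = a + m + d) ∨
    (a < p ∧ a + m + d < n + 2 ∧ Fm d n p m a = 0) ∨
    (p + m ≤ a ∧ n + 2 ≤ a + d ∧ Fm d n p m a + n = a + d) ∨
    (p + m ≤ a ∧ a + d < n + 2 ∧ Fm d n p m a = 0) := by
  unfold Fm
  split_ifs <;> omega

variable [NeZero d] {n p m : ℕ}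

theorem wd_val (hd : 3 ≤ d) (hp : p + m < n) (i : ℤ) :
    (wd d n (Fm d n p m) i).val = Fm d n p m (i % n).toNat := by
  have h := toNat_lt (n := n) (by omega) i
  have := Fm_spec d n p m (i % n).toNat
  exact Nat.mod_eq_of_lt (by omega)

theorem wd_nat (hd : 3 ≤ d) (hp : p + m < n) {a : ℕ} (ha : a < n) :
    (wd d n (Fm d n p m) a).val = Fm d n p m a := by
  rw [wd_val hd hp, small (a : ℤ) (by omega) (by omega), Int.toNat_natCast]

theorem wd_top (hd : 3 ≤ d) (hp : p + m < n) (i : ℤ) :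
    (wd d n (Fm d n p m) i).val = d - 1 ↔ i % n = n - 1 := by
  have h := toNat_lt (n := n) (by omega) i
  have h0 := Int.emod_nonneg i (b := n) (by omega)
  have := Fm_spec d n p m (i % n).toNat
  rw [wd_val hd hp]
  omega

theorem wd_prim (hd : 3 ≤ d) (hn : d + 3 ≤ n) (hp : p + m < n) (hm : 1 ≤ m) (hm4 : m ≤ 4) :
    Prim n (wd d n (Fm d n p m)) := by
  have h2 : (wd d n (Fm d n p m) (n - 1)).val = d - 1 :=
    (wd_top hd hp _).2 (small _ (by omega) (by omega))
  refine ⟨⟨by omega, fun i => by simp [wd], fun c => ?_⟩, fun l hl h => ?_⟩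
  · have hc := c.2
    have key : ∃ a, a < n ∧ Fm d n p m a = c := by
      by_cases h1 : c.val = 1
      · have := Fm_spec d n p m p
        exact ⟨p, by omega, by omega⟩
      by_cases h0 : c.val = 0
      · by_cases hp0 : p = 0
        · have := Fm_spec d n p m m
          exact ⟨m, by omega, by omega⟩
        · have := Fm_spec d n p m 0
          exact ⟨0, by omega, by omega⟩
      by_cases hx : n + c - d < p + m
      · have := Fm_spec d n p m (n + c - d - m)
        exact ⟨n + c - d - m, by omega, by omega⟩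
      · have := Fm_spec d n p m (n + c - d)
        exact ⟨n + c - d, by omega, by omega⟩
    obtain ⟨a, ha, e⟩ := key
    exact ⟨a, Fin.ext ((wd_nat hd hp ha).trans e)⟩
  · have h0 := h.1
    have e := h.2.1 (n - 1 - l)
    rw [sub_add_cancel] at e
    have := (wd_top hd hp _).1 (e ▸ h2)
    rw [small _ (by omega) (by omega)] at this
    omega

theorem wd_inj {p' m' : ℕ} (hd : 3 ≤ d) (hp : p + m < n) (hm : 1 ≤ m) (hp' : p' + m' < n)
    (hm' : 1 ≤ m') (k : ℤ) (h : shf (wd d n (Fm d n p m)) k = wd d n (Fm d n p' m')) :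
    p = p' ∧ m = m' := by
  have e := congrArg Fin.val (congrFun h (n - 1))
  rw [(wd_top hd hp' _).2 (small _ (by omega) (by omega))] at e
  have e1 := (wd_top hd hp _).1 e
  rw [add_comm] at e1
  have a := addmod (n := n) (by omega) k (n - 1) (by omega) (by omega)
  have e2 : k % n = 0 := by omega
  have e3 : ∀ a : ℕ, a < n → Fm d n p m a = Fm d n p' m' a := fun a ha => by
    rw [← wd_nat hd hp ha, ← wd_nat hd hp' ha, ← h]
    simp only [shf, wd]
    rw [Int.add_emod (a : ℤ) k, e2, add_zero, Int.emod_emod_of_dvd _ dvd_rfl]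
  have e4 : ∀ a : ℕ, a < n → ((p ≤ a ∧ a < p + m) ↔ (p' ≤ a ∧ a < p' + m')) := fun a ha => by
    have := e3 a ha
    have := Fm_spec d n p m a
    have := Fm_spec d n p' m' a
    omega
  have := e4 p (by omega)
  have := e4 p' (by omega)
  have := e4 (p + m) hp
  have := e4 (p' + m') hp'
  omega

end VGrpX

theorem many (hd : 3 ≤ d) {n : ℕ} (hn : d + 3 ≤ n) (h8 : 8 ≤ n) :
    ∃ c : Fin (2 * n + 3) → Seq d, (∀ i, Prim n (c i)) ∧ ∀ i j k, shf (c i) k = c j → i = j := by
  have : NeZero d := ⟨by omega⟩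
  have hb : ∀ l : Fin (2 * n + 3), l.val / 4 + (l.val % 4 + 1) < n := fun l => by omega
  refine ⟨fun l => ZGiant.wd d n (VGrpX.Fm d n (l.val / 4) (l.val % 4 + 1)),
    fun l => VGrpX.wd_prim hd hn (hb l) (by omega) (by omega), fun i j k h => ?_⟩
  have := VGrpX.wd_inj hd (hb i) (by omega) (hb j) (by omega) k h
  omega

theorem manyF (hd : 3 ≤ d) {n : ℕ} (hn : d < n) (h8 : 8 ≤ n) :
    ∃ c : Fin (2 * n + 3) → Seq d, (∀ i, Prim n (c i)) ∧ ∀ i j k, shf (c i) k = c j → i = j := by
  by_cases h : d + 3 ≤ n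
  exacts [many hd h h8, manyE (by omega) hn (by omega)]

theorem transE [NeZero d] (hd : 3 ≤ d) {n : ℕ} (hn : d < n) (h8 : 8 ≤ n) (O : Set (Seq d))
    (hmk : ∀ u v j s, u ≠ v → 1 ≤ j → Prim n s → Prim n (mk u v j s) ∧ (s ∈ O ↔ mk u v j s ∈ O))
    (hR : ∀ o : Fin d, (∃ z ∈ O, Prim n z ∧ ∀ t, Adm (Finset.univ.erase o) z t → t = z) →
      ∀ C, o ∉ C → MvO n O C)
    (h0 : zd d n ∈ O) {s : Seq d} (hs : Prim n s) : s ∈ O := by
  by_cases h : d + 3 ≤ n
  · exact transD hd h O hmk hR h0 hs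
  obtain ⟨h1, h2⟩ := all_canE (by omega) hn (by omega) O hmk hR h0
  by_cases h' : d + 2 ≤ n
  · obtain ⟨t, c, p, -, hc, e⟩ := to_can hd h' O hmk h1 hs
    exact e.2 (h2 t c p hc)
  obtain ⟨c, p, a1, a2, a3⟩ := head_exists hd hn hs
  have a4 : s (p + d) = c := by
    rw [← a1, ← hs.1.2.1 (p - 1)]; congr 1; omega
  refine h2 s c p ⟨hs.1, a2, fun y hy => ?_, fun k b1 b2 => by rwa [show k = d by omega]⟩
  obtain ⟨i, b1, b2, b3⟩ := a3 y hy
  have b4 : i < p + d := by
    by_contra b
    simpa [a4] using b3 (p + d) (by omega) (by omega)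
  exact ⟨(i - p).toNat, by omega, by omega, by rw [← b2]; congr 1; omega⟩

namespace VGrpX

open YGrpX

theorem prim_mapD {I : Finset ℕ} {n : ℕ} (P : Equiv.Perm (W d I))
    (hP : ∀ w, P (shW d I w) = shW d I (P w)) (w : W d I) : Prim n (P w).1 ↔ Prim n w.1 := by
  have h : ∀ m, Per m (P w).1 ↔ Per m w.1 := fun m => ⟨fun h => by
    have := ZGrp.per_map P.symm (fun x => by
      rw [Equiv.symm_apply_eq, hP, Equiv.apply_symm_apply]) h
    rwa [Equiv.symm_apply_apply] at this, ZGrp.per_map P hP⟩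
  simp only [Prim, h]

theorem ad_val [NeZero d] (hd : 3 ≤ d) {n : ℕ} (y : Fin d) (i : ℤ) (h0 : 0 < i)
    (h1 : i < n) : ((ad d n y i).val : ℤ) = if i < d - 1 then i + 1 else if i = d - 1 then 1 else 0 := by
  unfold ad zd
  rw [small i h0.le h1, if_neg h0.ne']
  have e : ((d - 1 : ℕ) : ℤ) = d - 1 := by omega
  rw [e]
  by_cases h2 : i < d - 1
  · rw [if_neg h2.ne, if_pos h2, ZSweep.L_val (m := d - 1) (by omega) (by omega)]
    omega
  · rw [if_neg h2]
    split_ifs with h3
    · rw [ZSweep.L_val (m := d - 1) (by omega) (by omega)]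
      rfl
    · rw [min_eq_right (by omega), ZSweep.L_top (m := d - 1) (by omega)]
      rfl

theorem ad_zero [NeZero d] (n : ℕ) (y : Fin d) : ad d n y 0 = y := by simp [ad]

theorem ad_mem [NeZero d] (hd : 3 ≤ d) {n : ℕ} (hn : d < n) {y : Fin d} (hy : y ≠ 0) (i : ℤ)
    (h0 : 0 ≤ i) (h1 : i < n) : ad d n y i ∈ Finset.univ.erase 0 ↔ i < d := by
  rw [Finset.mem_erase, and_iff_left (Finset.mem_univ _)]
  rcases h0.eq_or_lt with rfl | h0
  · rw [ad_zero]
    exact ⟨fun _ => by omega, fun _ => hy⟩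
  · have := ad_val hd y i h0 h1
    rw [Ne, Fin.ext_iff, Fin.val_zero]
    split_ifs at this <;> omega

theorem ad_occ [NeZero d] (hd : 3 ≤ d) {n : ℕ} (hn : d < n) {y : Fin d} (hy : y ≠ 0) {c : Fin d}
    (hc : c ≠ 0) : Occ (Finset.univ.erase 0) (ad d n y) (0 + 1) c := by
  have h1 := c.2
  have h2 : c.val ≠ 0 := fun h => hc (Fin.ext h)
  by_cases h : c.val = 1
  · refine ⟨d - 1, by omega, Fin.ext ?_, fun k a b =>
      (ad_mem hd hn hy k (by omega) (by omega)).2 (by omega)⟩
    have := ad_val hd (n := n) y (d - 1) (by omega) (by omega)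
    split_ifs at this <;> omega
  · refine ⟨c - 1, by omega, Fin.ext ?_, fun k a b =>
      (ad_mem hd hn hy k (by omega) (by omega)).2 (by omega)⟩
    have := ad_val hd (n := n) y (c - 1) (by omega) (by omega)
    split_ifs at this <;> omega

theorem eq_ad [NeZero d] (hd : 3 ≤ d) {n : ℕ} (hn : d < n) {y c : Fin d} (hy : y ≠ 0) (hc : c ≠ 0)
    {t : Seq d} (ht : Per n t) (h1 : Adm (Finset.univ.erase 0) (ad d n y) t) (h2 : t 0 = c)
    (h3 : Kp (Finset.univ.erase 0) (ad d n y) t 0) : t = ad d n c := by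
  funext i
  have hn' : (0 : ℤ) < n := by omega
  have a0 := Int.emod_nonneg i hn'.ne'
  have a1 := Int.emod_lt_of_pos i hn'
  rw [← ht.emod, ← (ad_prim hd hn hc).1.emod i]
  generalize i % n = x at a0 a1
  rcases a0.eq_or_lt with rfl | a0
  · rw [h2, ad_zero]
  · have e : ad d n y x = ad d n c x := Fin.ext (by
      have := ad_val hd y x a0 a1
      have := ad_val hd c x a0 a1
      omega)
    rw [← e]
    by_cases h : x < d
    · exact h3 x a0 fun k a b => (ad_mem hd hn hy k a (by omega)).2 (by omega)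
    · exact (h1 x).1 fun a => h ((ad_mem hd hn hy x a0.le a1).1 a)

theorem stepD (hd : 3 ≤ d) {I : Finset ℕ} {n : ℕ} (hn : 8 ≤ n) (hdn : d < n) (hI : n ∈ I)
    (q : ℕ) (hq : q ≤ n) (G : Type) [Group G] [Finite G]
    [MulAction G (W d I)] (hsh : ∀ (g : G) (w : W d I), g • shW d I w = shW d I (g • w))
    (hmk : ∀ (u v : Fin d) (j : ℕ), u ≠ v → 1 ≤ j → ∃ g : G, ∀ w : W d I, (g • w).1 = mk u v j w.1)
    (hmv : MvG (d := d) I G)
    (F : Equiv.Perm (W d I)) (hF : ∀ w, F (shW d I w) = shW d I (F w)) :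
    |({k : lowD (d := d) I G n |
        {w : W d I | Prim n w.1 ∧ (k : G) • F w = shW d I w}.ncard = n * q}.ncard
        : ℝ) - Real.exp (-1 / n) / (n ^ q * q.factorial) * Nat.card (lowD (d := d) I G n)| ≤
      3 / (n ^ (q + n) * q.factorial * n.factorial) * Nat.card (lowD (d := d) I G n) := by
  have : NeZero d := ⟨by omega⟩
  have hper : ∀ {m : ℕ} (g : G) {w : W d I}, Per m w.1 → Per m (g • w).1 := fun g w hw =>
    ZGrp.per_map (fun w => g • w) (hsh g) hw
  have hpr : ∀ (g : G) (w : W d I), Prim n w.1 → Prim n (g • w).1 := fun g w hw =>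
    (prim_mapD (MulAction.toPerm g) (hsh g) w).2 hw
  let X : SubMulAction G (W d I) := ⟨{w | Prim n w.1}, fun g w hw => hpr g w hw⟩
  let σ : Equiv.Perm X := (shW d I).subtypePerm fun w => prim_mapD (shW d I) (fun _ => rfl) w
  let F' : Equiv.Perm X := F.subtypePerm fun w => prim_mapD F hF w
  have hv : ∀ (k : ℤ) (x : X) (i : ℤ), ((σ ^ k) x).1.1 i = x.1.1 (i + k) :=
    zpow_val (fun x : X => x.1.1) σ fun _ _ => rfl
  have hv' : ∀ (k : ℤ) (x : X), ((σ ^ k) x).1.1 = shf x.1.1 k := fun k x => funext (hv k x)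
  have hK : (lowD (d := d) I G n).Normal := ⟨fun k hk g m hm w hw => by
    rw [mul_smul, mul_smul, hk m hm _ (hper _ hw), smul_inv_smul]⟩
  obtain ⟨t, htK, y, y', hy, hy', hyy, ht⟩ := iso hd hdn hI G hsh hmk hmv
  let z : X := ⟨⟨zd d n, n, hI, (zd_prim hd hdn).1⟩, zd_prim hd hdn⟩
  let a : ∀ c : Fin d, c ≠ 0 → X := fun c hc =>
    ⟨⟨ad d n c, n, hI, (ad_prim hd hdn hc).1⟩, ad_prim hd hdn hc⟩
  have e1 : t • z = a y hy := Subtype.ext (Subtype.ext ((ht z.1 z.2.1).1 rfl))
  have e2 : t • a y hy = a y' hy' := Subtype.ext (Subtype.ext ((ht _ (a y hy).2.1).2.1 rfl))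
  have e3 : t • a y' hy' = z := Subtype.ext (Subtype.ext ((ht _ (a y' hy').2.1).2.2.1 rfl))
  have nz : ∀ c hc, ¬σ.SameCycle z (a c hc) := by
    rintro c hc ⟨k, hk⟩
    exact (ad_nc hd hdn hc hc k).1 ((hv' k z).symm.trans (congrArg (fun x : X => x.1.1) hk))
  have na : ¬σ.SameCycle (a y hy) (a y' hy') := by
    rintro ⟨k, hk⟩
    exact (ad_nc hd hdn hy hy' k).2 hyy
      ((hv' k (a y hy)).symm.trans (congrArg (fun x : X => x.1.1) hk))
  set N := Subgroup.normalClosure ({t} : Set G) with hN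
  have hNn : N.Normal := Subgroup.normalClosure_normal
  have hall : ∀ x : X, x.1 ∈ MulAction.orbit N z.1 := by
    let O : Set (Seq d) := {s | ∃ w ∈ MulAction.orbit N z.1, w.1 = s}
    have hQ : ∀ w : W d I, w.1 ∈ O ↔ w ∈ MulAction.orbit N z.1 := fun w =>
      ⟨fun ⟨w', h1, h2⟩ => by rwa [← (Subtype.ext h2 : w' = w)], fun h => ⟨w, h, rfl⟩⟩
    have q0 : z.1 ∈ MulAction.orbit N z.1 := MulAction.mem_orbit_self _
    have q1 : (a y hy).1 ∈ MulAction.orbit N z.1 :=
      ⟨⟨t, Subgroup.subset_normalClosure rfl⟩, congrArg Subtype.val e1⟩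
    have q2 : ∀ c hc, (a c hc).1 ∈ MulAction.orbit N z.1 := fun c hc => by
      obtain ⟨g, g1, g2, g3⟩ := hmv (Finset.univ.erase 0) (a y hy).1 0 c
        (fun h => (Finset.mem_erase.1 (h ▸ Finset.mem_univ (0 : Fin d))).1 rfl)
        ((ad_mem hd hdn hy 0 le_rfl (by omega)).2 (by omega))
        (ad_occ hd hdn hy (by rw [show (a y hy).1.1 0 = y from ad_zero n y]; exact hy))
        (ad_occ hd hdn hy hc)
      have e : g • (a y hy).1 = (a c hc).1 :=
        Subtype.ext (eq_ad hd hdn hy hc (hper g (a y hy).2.1) (g1 (a y hy).1) g2 g3)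
      rw [← e]
      exact (ZGiant.orbit_iff N hNn z.1 q0 (Subtype.ext (zd_rigid hd hdn _ (g1 z.1))) _).1 q1
    refine fun x => (hQ _).1 (transE hd hdn hn O ?_ ?_ ((hQ z.1).2 q0) x.2)
    · intro u v j s huv hj hs
      obtain ⟨g, hg⟩ := hmk u v j huv hj
      let w : W d I := ⟨s, n, hI, hs.1⟩
      show Prim n (mk u v j w.1) ∧ (w.1 ∈ O ↔ mk u v j w.1 ∈ O)
      rw [← hg, hQ, hQ]
      refine ⟨hpr g w hs, ?_⟩
      rcases mk_fix_ad hd hdn huv hj with h | ⟨c, hc, h⟩
      · exact ZGiant.orbit_iff N hNn z.1 q0 (Subtype.ext ((hg _).trans h)) w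
      · exact ZGiant.orbit_iff N hNn z.1 (q2 c hc) (Subtype.ext ((hg _).trans h)) w
    · rintro o ⟨-, ⟨w0, hw0, rfl⟩, -, hr⟩ C hC s i x hs h0 h1 h2
      let w : W d I := ⟨s, n, hI, hs.1⟩
      obtain ⟨g, g1, g2, g3⟩ := hmv C w i x (fun h => hC (h ▸ Finset.mem_univ o)) h0 h1 h2
      refine ⟨(g • w).1, hpr g w hs, g1 w, g2, g3, ?_⟩
      show w.1 ∈ O ↔ _
      rw [hQ, hQ]
      exact ZGiant.orbit_iff N hNn z.1 hw0 (Subtype.ext (hr _ ((g1 w0).mono fun c hc =>
        Finset.mem_erase.2 ⟨fun h => hC (h ▸ hc), Finset.mem_univ c⟩))) w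
  obtain ⟨c, hc1, hc2⟩ := manyF hd hdn hn
  let c' : Fin (q + n + 3) → X := fun l =>
    ⟨⟨c (l.castLE (by omega)), n, hI, (hc1 _).1⟩, hc1 _⟩
  have key := pois3 n (by omega) σ (fun x k => ?_) (fun g x => Subtype.ext (hsh g x.1))
    (lowD (d := d) I G n) hK t htK (fun x y => ?_)
    ⟨z, a y hy, a y' hy', nz y hy, nz y' hy', na, e1, e2, e3, fun w b1 b2 b3 => ?_⟩ q n (by omega)
    ⟨c', ?_⟩ F' fun x => Subtype.ext (hF x.1)
  · have e : ∀ k : lowD (d := d) I G n,
        {w : W d I | Prim n w.1 ∧ (k : G) • F w = shW d I w}.ncard =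
        {x | k • F' x = σ x}.ncard := fun k => by
      rw [← Set.ncard_image_of_injective {x | k • F' x = σ x} Subtype.val_injective]
      congr 1
      ext w
      constructor
      · rintro ⟨h1, h2⟩
        exact ⟨⟨w, h1⟩, Subtype.ext h2, rfl⟩
      · rintro ⟨x, h1, rfl⟩
        exact ⟨x.2, congrArg Subtype.val h1⟩
    simp only [e]
    exact key
  · have hp : Prim n x.1.1 := x.2
    have a := addmod (n := n) (by omega) k 0 le_rfl (by omega)
    constructor
    · intro h
      by_contra hd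
      have h0 : k % n ≠ 0 := fun e => hd (Int.dvd_of_emod_eq_zero e)
      refine hp.2 (k % n).toNat (by omega) ⟨by omega, fun i => ?_, hp.1.2.2⟩
      rw [Int.toNat_of_nonneg a.2.2.1, ← hp.1.zper _ (k / n), add_assoc, Int.emod_add_ediv_mul,
        ← hv, h]
    · rintro ⟨l, rfl⟩
      exact Subtype.ext (Subtype.ext (funext fun i => by rw [hv, mul_comm, hp.1.zper]))
  · obtain ⟨a, ha⟩ := hall x
    obtain ⟨b, hb⟩ := hall y
    refine ⟨b * a⁻¹, N.mul_mem b.2 (N.inv_mem a.2), Subtype.ext ?_⟩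
    show ((b : G) * (a : G)⁻¹) • x.1 = y.1
    rw [← ha, ← hb, mul_smul]
    show (b : G) • (a : G)⁻¹ • (a : G) • z.1 = (b : G) • z.1
    rw [inv_smul_smul]
  · have hp : Prim n w.1.1 := w.2
    exact Subtype.ext ((ht w.1 hp.1).2.2.2 fun k =>
      ⟨fun h => b1 ⟨k, Subtype.ext (Subtype.ext ((hv' k _).trans h.symm))⟩,
        fun h => b2 ⟨k, Subtype.ext (Subtype.ext ((hv' k _).trans h.symm))⟩,
        fun h => b3 ⟨k, Subtype.ext (Subtype.ext ((hv' k _).trans h.symm))⟩⟩)
  · rintro l l' ⟨k, hk⟩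
    exact Fin.castLE_injective _
      (hc2 _ _ k ((hv' k (c' l)).symm.trans (congrArg (fun x : X => x.1.1) hk)))

end VGrpX

open YGrpX YGrpPX in
theorem grpD (hd : 3 ≤ d) (S : Finset ℕ) (hS : ∀ n ∈ S, 8 ≤ n ∧ d < n) (k : ℕ → ℕ)
    (hk : ∀ n ∈ S, k n ≤ n) (I : Finset ℕ) (hI : S ⊆ I) (G : Type) [Group G] [Finite G]
    [MulAction G (W d I)] (hsh : ∀ (g : G) (w : W d I), g • shW d I w = shW d I (g • w))
    (hmk : ∀ (u v : Fin d) (j : ℕ), u ≠ v → 1 ≤ j → ∃ g : G, ∀ w : W d I, (g • w).1 = mk u v j w.1)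
    (hmv : MvG (d := d) I G)
    (F : Equiv.Perm (W d I)) (hF : ∀ w, F (shW d I w) = shW d I (F w)) (B : Set G)
    (hB : ∀ g ∈ B, ∀ c ∈ lowD (d := d) I G (d + 1), c * g ∈ B) :
    |({g : G | g ∈ B ∧ ∀ n ∈ S,
        {w : W d I | Prim n w.1 ∧ g • F w = shW d I w}.ncard = n * k n}.ncard : ℝ) -
        (∏ n ∈ S, Real.exp (-1 / n) / (n ^ k n * (k n).factorial)) * B.ncard| ≤
      1 / 10 ^ 10 * (∏ n ∈ S, Real.exp (-1 / n) / (n ^ k n * (k n).factorial)) * B.ncard := by
  let p : ℕ → ℝ := fun n => Real.exp (-1 / n) / (n ^ k n * (k n).factorial)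
  let e : ℕ → ℝ := fun n => 256 / 10 ^ 11 * (1 / 2) ^ n
  let Good : ℕ → Set G := fun n =>
    {g | {w : W d I | Prim n w.1 ∧ g • F w = shW d I w}.ncard = n * k n}
  have he0 : ∀ n, 0 < e n := fun n => by positivity
  have he1 : ∀ a b, a ≤ b → e b ≤ e a := fun a b h =>
    mul_le_mul_of_nonneg_left (pow_le_pow_of_le_one (by norm_num) (by norm_num) h) (by norm_num)
  have he2 : ∀ a, e (a + 1) = e a / 2 := fun a => by
    simp only [e, pow_succ]
    ring
  have he3 : e 8 = 1 / 10 ^ 11 := by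
    simp only [e]
    norm_num
  have hp0 : ∀ n, 0 ≤ p n := fun n => by positivity
  have key : ∀ S : Finset ℕ, (∀ n ∈ S, 8 ≤ n ∧ d < n) → (∀ n ∈ S, k n ≤ n) → S ⊆ I → ∀ b, 8 ≤ b →
      (∀ n ∈ S, n < b) →
      (1 - (2 / 10 ^ 11 - 2 * e b)) * ((∏ n ∈ S, p n) * B.ncard) ≤
        {g : G | g ∈ B ∧ ∀ n ∈ S, g ∈ Good n}.ncard ∧
      ({g : G | g ∈ B ∧ ∀ n ∈ S, g ∈ Good n}.ncard : ℝ) ≤
        (1 + 2 * (2 / 10 ^ 11 - 2 * e b)) * ((∏ n ∈ S, p n) * B.ncard) := by
    intro S
    induction S using Finset.induction_on_max with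
    | empty =>
      intro _ _ _ b hb _
      have h1 := he1 8 b hb
      have h2 : (0 : ℝ) ≤ B.ncard := Nat.cast_nonneg _
      have e0 : {g : G | g ∈ B ∧ ∀ n ∈ (∅ : Finset ℕ), g ∈ Good n} = B :=
        Set.ext fun g => and_iff_left fun n h => absurd h (Finset.notMem_empty n)
      rw [he3] at h1
      have h3 := mul_nonneg (sub_nonneg.2 h1) h2
      rw [e0, Finset.prod_empty, one_mul]
      constructor <;> linarith
    | insert a S ha ih =>
      intro h8 hk hI b hb hlt
      obtain ⟨ha8, had⟩ := h8 a (Finset.mem_insert_self a S)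
      obtain ⟨i1, i2⟩ := ih (fun n h => h8 n (Finset.mem_insert_of_mem h))
        (fun n h => hk n (Finset.mem_insert_of_mem h))
        ((Finset.subset_insert a S).trans hI) a ha8 ha
      have e0 : {g : G | g ∈ B ∧ ∀ n ∈ insert a S, g ∈ Good n} =
          {g : G | g ∈ B ∧ ∀ n ∈ S, g ∈ Good n} ∩ Good a := by
        ext g
        simp only [Finset.forall_mem_insert, Set.mem_inter_iff, Set.mem_ofPred_eq]
        rw [and_comm (a := g ∈ Good a), and_assoc]
      obtain ⟨c1, c2⟩ := count2 (lowD (d := d) I G a) {g : G | g ∈ B ∧ ∀ n ∈ S, g ∈ Good n} (Good a)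
        ((1 - e a) * p a) ((1 + e a) * p a)
        (fun g hg c hc => ⟨hB g hg.1 c fun m hm => hc m (by omega), fun n hn => by
          have := hg.2 n hn
          simp only [Good, Set.mem_ofPred_eq] at this ⊢
          rw [← this]
          congr 1
          ext w
          refine and_congr_right fun hw => ?_
          rw [mul_smul, hc n (ha n hn) _ (ZGrp.per_map (fun w => g • w) (hsh g)
            (ZGrp.per_map F hF hw.1))]⟩)
        fun h => by
          have := VGrpX.stepD hd ha8 had (hI (Finset.mem_insert_self a S)) (k a)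
            (hk a (Finset.mem_insert_self a S)) G hsh hmk hmv (F.trans (MulAction.toPerm h))
            fun w => by
              show h • F (shW d I w) = shW d I (h • F w)
              rw [hF, hsh]
          have e2 : {c : lowD (d := d) I G a | c * h ∈ Good a} = {c : lowD (d := d) I G a | {w : W d I | Prim a w.1 ∧
              (c : G) • (F.trans (MulAction.toPerm h)) w = shW d I w}.ncard = a * k a} := by
            ext c
            show {w : W d I | Prim a w.1 ∧ ((c : G) * h) • F w = shW d I w}.ncard = a * k a ↔ _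
            simp only [mul_smul]
            rfl
          rw [e2]
          have h2 : (0 : ℝ) ≤ Nat.card (lowD (d := d) I G a) := Nat.cast_nonneg _
          have h3 := abs_le.1 (this.trans (mul_le_mul_of_nonneg_right (err_le ha8 (k a)) h2))
          simp only [e, p]
          constructor
          · linarith [h3.1]
          · linarith [h3.2]
      rw [e0, Finset.prod_insert fun h => lt_irrefl a (ha a h)]
      have h1 := he1 8 a ha8
      have h2 := he1 (a + 1) b (hlt a (Finset.mem_insert_self a S))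
      have h3 := he0 a
      have h4 := he0 b
      rw [he2] at h2
      rw [he3] at h1
      have h5 : 0 ≤ (∏ n ∈ S, p n) * B.ncard :=
        mul_nonneg (Finset.prod_nonneg fun n _ => hp0 n) (Nat.cast_nonneg _)
      have h6 : 0 ≤ p a * ((∏ n ∈ S, p n) * B.ncard) := mul_nonneg (hp0 a) h5
      have f1 : 0 ≤ (1 - e a) * p a := mul_nonneg (by linarith) (hp0 a)
      have f2 : 0 ≤ (1 + e a) * p a := mul_nonneg (by linarith) (hp0 a)
      constructor
      · refine le_trans ?_ ((mul_le_mul_of_nonneg_left i1 f1).trans c1)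
        calc _ = (1 - (2 / 10 ^ 11 - 2 * e b)) * (p a * ((∏ n ∈ S, p n) * B.ncard)) := by ring
          _ ≤ ((1 - e a) * (1 - (2 / 10 ^ 11 - 2 * e a))) *
              (p a * ((∏ n ∈ S, p n) * B.ncard)) :=
            mul_le_mul_of_nonneg_right (by nlinarith) h6
          _ = _ := by ring
      · refine (c2.trans (mul_le_mul_of_nonneg_left i2 f2)).trans ?_
        calc _ = ((1 + e a) * (1 + 2 * (2 / 10 ^ 11 - 2 * e a))) *
              (p a * ((∏ n ∈ S, p n) * B.ncard)) := by ring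
          _ ≤ (1 + 2 * (2 / 10 ^ 11 - 2 * e b)) * (p a * ((∏ n ∈ S, p n) * B.ncard)) :=
            mul_le_mul_of_nonneg_right (by nlinarith) h6
          _ = _ := by ring
  obtain ⟨h1, h2⟩ := key S hS hk hI (S.sup id + 8) (by omega) fun n h => by
    have : n ≤ S.sup id := Finset.le_sup (f := id) h
    omega
  have h3 := he0 (S.sup id + 8)
  have h5 : 0 ≤ (∏ n ∈ S, p n) * B.ncard :=
    mul_nonneg (Finset.prod_nonneg fun n _ => hp0 n) (Nat.cast_nonneg _)
  show |({g : G | g ∈ B ∧ ∀ n ∈ S, g ∈ Good n}.ncard : ℝ) - (∏ n ∈ S, p n) * B.ncard| ≤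
    1 / 10 ^ 10 * (∏ n ∈ S, p n) * B.ncard
  rw [abs_le, mul_assoc]
  constructor <;> nlinarith

theorem Per.le {n : ℕ} {s : Seq d} (h : Per n s) : d ≤ n := by
  have : Function.Surjective fun k : Fin n => s (k : ℕ) := fun y => by
    obtain ⟨i, rfl⟩ := h.2.2 y
    have hn : (0 : ℤ) < n := by exact_mod_cast h.1
    have h0 := Int.emod_nonneg i hn.ne'
    have h1 := Int.emod_lt_of_pos i hn
    exact ⟨⟨(i % n).toNat, by omega⟩, by simp only [Int.toNat_of_nonneg h0, h.emod]⟩
  simpa using Fintype.card_le_of_surjective _ this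

theorem grpE (hd : 3 ≤ d) (S : Finset ℕ) (hS : ∀ n ∈ S, 1 ≤ n ∧ (n ≤ d ∨ 8 ≤ n)) (k : ℕ → ℕ)
    (hk : ∀ n ∈ S, k n ≤ n) (I : Finset ℕ) (hI : S ⊆ I) (G : Type) [Group G] [Finite G]
    [MulAction G (W d I)] (hsh : ∀ (g : G) (w : W d I), g • shW d I w = shW d I (g • w))
    (hmk : ∀ (u v : Fin d) (j : ℕ), u ≠ v → 1 ≤ j → ∃ g : G, ∀ w : W d I, (g • w).1 = mk u v j w.1)
    (hmv : MvG (d := d) I G)
    (hrel : ∀ g : G, ∃ ρ : Fin d → Fin d, ∀ w : W d I, Per d w.1 → (g • w).1 = ρ ∘ w.1)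
    (hsw : ∀ u v : Fin d, u ≠ v → ∃ g : G, ∀ w : W d I, Per d w.1 →
      (g • w).1 = Equiv.swap u v ∘ w.1) (π : Equiv.Perm (Fin d)) :
    |({g : G | ∀ n ∈ S,
        {w : W d I | Prim n w.1 ∧ g • relW I π w = shW d I w}.ncard = n * k n}.ncard : ℝ) -
        (∏ n ∈ S, plaw d n (k n)) * Nat.card G| ≤
      1 / 10 ^ 10 * (∏ n ∈ S, plaw d n (k n)) * Nat.card G := by
  classical
  let Good : ℕ → G → Prop := fun n g =>
    {w : W d I | Prim n w.1 ∧ g • relW I π w = shW d I w}.ncard = n * k n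
  let B : Set G := {g | ∀ n ∈ S.filter (· ≤ d), Good n g}
  have h1 := grpD hd (S.filter (¬ · ≤ d)) (fun n hn => by
      have := Finset.mem_filter.1 hn
      have := hS n this.1
      omega) k (fun n hn => hk n (Finset.mem_filter.1 hn).1) I
    ((Finset.filter_subset _ _).trans hI) G hsh hmk hmv (relW I π) (relW_sh π) B
    fun g hg c hc n hn => by
      have := hg n hn
      simp only [Good] at this ⊢
      rw [← this]
      congr 1
      ext w
      refine and_congr_right fun hw => ?_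
      rw [mul_smul, hc n (by have := (Finset.mem_filter.1 hn).2; omega) _
        (ZGrp.per_map (fun w => g • w) (hsh g) (ZGrp.per_map (relW I π) (relW_sh π) hw.1))]
  have h2 : ∀ n ∈ S, n < d → ∀ g, Good n g ↔ k n = 0 := fun n hn h g => by
    have e : {w : W d I | Prim n w.1 ∧ g • relW I π w = shW d I w} = ∅ :=
      Set.eq_empty_of_forall_notMem fun w hw => absurd hw.1.1.le h.not_ge
    have := (hS n hn).1
    simp only [Good, e, Set.ncard_empty]
    exact ⟨fun a => (mul_eq_zero.1 a.symm).resolve_left (by omega), fun a => by simp [a]⟩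
  have h3 : (B.ncard : ℝ) = (∏ n ∈ S.filter (· ≤ d), plaw d n (k n)) * Nat.card G := by
    by_cases a : ∀ n ∈ S, n < d → k n = 0
    swap
    · push Not at a
      obtain ⟨n, a1, a2, a3⟩ := a
      have m : n ∈ S.filter (· ≤ d) := Finset.mem_filter.2 ⟨a1, a2.le⟩
      rw [Finset.prod_eq_zero m (by simp [plaw, a2, a3]), zero_mul,
        Set.eq_empty_of_forall_notMem (s := B) fun g hg => a3 ((h2 n a1 a2 g).1 (hg n m))]
      simp
    have b : ∀ n ∈ S.filter (· ≤ d), n ≠ d → plaw d n (k n) = 1 := fun n hn e => by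
      have m := Finset.mem_filter.1 hn
      have c : n < d := lt_of_le_of_ne m.2 e
      simp [plaw, c, a n m.1 c]
    have b' : ∀ g, ∀ n ∈ S.filter (· ≤ d), n ≠ d → Good n g := fun g n hn e => by
      have m := Finset.mem_filter.1 hn
      have c : n < d := lt_of_le_of_ne m.2 e
      exact (h2 n m.1 c g).2 (a n m.1 c)
    by_cases c : d ∈ S
    · have m : d ∈ S.filter (· ≤ d) := Finset.mem_filter.2 ⟨c, le_rfl⟩
      have e : B = {g | Good d g} := Set.ext fun g => ⟨fun h => h d m, fun h n hn => by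
        by_cases e : n = d
        exacts [e ▸ h, b' g n hn e]⟩
      rw [Finset.prod_eq_single_of_mem d m b, e, lev_count (by omega) (hI c) G hrel hsw π (k d)]
      simp [plaw]
    · have c' : ∀ n ∈ S.filter (· ≤ d), n ≠ d := fun n hn e => c (e ▸ (Finset.mem_filter.1 hn).1)
      rw [Finset.prod_eq_one fun n hn => b n hn (c' n hn), one_mul,
        Set.eq_univ_of_forall (s := B) fun g n hn => b' g n hn (c' n hn), Set.ncard_univ]
  have h4 : ∏ n ∈ S.filter (¬ · ≤ d), Real.exp (-1 / n) / (n ^ k n * (k n).factorial) =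
      ∏ n ∈ S.filter (¬ · ≤ d), plaw d n (k n) := Finset.prod_congr rfl fun n hn => by
    have := (Finset.mem_filter.1 hn).2
    rw [plaw, if_neg (by omega), if_neg (by omega)]
  have h5 : {g : G | ∀ n ∈ S, Good n g} = {g : G | g ∈ B ∧ ∀ n ∈ S.filter (¬ · ≤ d), Good n g} :=
    Set.ext fun g => ⟨fun h => ⟨fun n hn => h n (Finset.mem_filter.1 hn).1,
      fun n hn => h n (Finset.mem_filter.1 hn).1⟩, fun h n hn => by
        by_cases e : n ≤ d
        exacts [h.1 n (Finset.mem_filter.2 ⟨hn, e⟩), h.2 n (Finset.mem_filter.2 ⟨hn, e⟩)]⟩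
  rw [h3, h4, ← mul_assoc, ← mul_assoc, mul_assoc (1 / 10 ^ 10), mul_comm (∏ n ∈ S.filter _, _),
    Finset.prod_filter_mul_prod_filter_not] at h1
  change |(Set.ncard {g : G | ∀ n ∈ S, Good n g} : ℝ) - _| ≤ _
  rw [h5]
  exact h1

end Pool.Agent.MP_9b2bac_nt.Z

end

section

/- Every active letter can be replaced by every active letter. -/

set_option autoImplicit false

namespace Pool.Agent.MP_9b2bac_nt.Z

variable {d : ℕ} {A : Type} [CommRing A] [IsDomain A]

namespace VInd

open Function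

variable {C : Finset (Fin d)} {L : ℕ} {a b c s : Seq d}

theorem occ_congr {k : ℤ} {j : Fin d} (h : ∀ m, k ≤ m → a m = b m) (ha : Occ C a k j) :
    Occ C b k j :=
  let ⟨i, h1, h2, h3⟩ := ha
  ⟨i, h1, (h i h1).symm.trans h2, fun m h4 h5 => h m h4 ▸ h3 m h4 h5⟩

theorem occ_back {k k' : ℤ} {j : Fin d} (hk : k ≤ k') (h : ∀ m, k ≤ m → m < k' → a m ∈ C)
    (ha : Occ C a k' j) : Occ C a k j :=
  let ⟨i, h1, h2, h3⟩ := ha
  ⟨i, hk.trans h1, h2, fun m h4 h5 => if h6 : m < k' then h m h4 h6 else h3 m (by omega) h5⟩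

theorem term_congr (K : ℤ) (h : ∀ m, K ≤ m → a m = b m) (ha : Term C a) : Term C b := by
  intro i
  obtain ⟨m, hm⟩ := ha (max i K)
  refine ⟨(max i K - i).toNat + m, ?_⟩
  rwa [show i + (((max i K - i).toNat + m : ℕ) : ℤ) = max i K + m by omega, ← h _ (by omega)]

variable (A) in
/-- `a` is moved to a word that agrees with `b` on `0, ..., L` -/
def Mt (C : Finset (Fin d)) (L : ℕ) (a b : Seq d) : Prop :=
  ∃ (γ : Gam A d) (t : Seq d), Act C γ a t ∧ ∀ k : ℤ, 0 ≤ k → k ≤ L → t k = b k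

/-- the block after position `0` ends at `L` -/
structure Blk (C : Finset (Fin d)) (L : ℕ) (a : Seq d) : Prop where
  term : Term C a
  mem : ∀ k : ℤ, 1 ≤ k → k ≤ L → a k ∈ C
  out : a (L + 1) ∉ C

theorem Blk.upd (h : Blk C L a) (y : Fin d) : Blk C L (update a 0 y) :=
  ⟨h.term.update _ _, fun k h1 h2 => by rw [update_of_ne (by omega)]; exact h.mem k h1 h2,
    by rw [update_of_ne (by omega)]; exact h.out⟩

theorem Blk.adm (h : Blk C L a) (h' : Adm C a b) : Blk C L b :=
  ⟨h.term.adm h', fun k h1 h2 => (h'.mem_iff k).2 (h.mem k h1 h2),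
    fun e => h.out ((h'.mem_iff _).1 e)⟩

theorem loc {γ : Gam A d} {a' b' : Seq d} (h : Act C γ a a') (h' : Act C γ b b') (i : ℤ)
    (e : ∀ k : ℤ, i ≤ k → k ≤ L → a k = b k) (ha : a (L + 1) ∉ C) (hb : b (L + 1) ∉ C)
    (k : ℤ) (h1 : i ≤ k) (h2 : k ≤ L) : a' k = b' k := by
  have e1 : k + ((L - k).toNat : ℤ) + 1 = L + 1 := by omega
  exact h.loc h' k (L - k).toNat (fun m hm => e _ (by omega) (by omega)) (by rwa [e1])
    (by rwa [e1])

theorem Mt.refl (a : Seq d) : Mt A C L a a := ⟨1, a, Act.refl C a, fun _ _ _ => rfl⟩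

theorem Mt.symm (h : Mt A C L a b) (ha : Blk C L a) (hb : Blk C L b) : Mt A C L b a := by
  obtain ⟨γ, t, h1, h2⟩ := h
  obtain ⟨t', h3⟩ := exists_actC γ⁻¹ hb.term
  exact ⟨γ⁻¹, t', h3, loc h3 h1.symm 0 (fun k e1 e2 => (h2 k e1 e2).symm) hb.out
    (ha.adm (h1.adm ha.term)).out⟩

theorem Mt.trans (h : Mt A C L a b) (h' : Mt A C L b c) (ha : Blk C L a) (hb : Blk C L b) :
    Mt A C L a c := by
  obtain ⟨γ, t, h1, h2⟩ := h
  obtain ⟨δ, r, h3, h4⟩ := h'
  have ht := ha.adm (h1.adm ha.term)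
  obtain ⟨r', h5⟩ := exists_actC δ ht.term
  exact ⟨δ * γ, r', h1.trans h5, fun k e1 e2 =>
    (loc h5 h3 0 h2 ht.out hb.out k e1 e2).trans (h4 k e1 e2)⟩

variable (A d) in
/-- the statement for blocks of length below `n` -/
def TP (n : ℕ) : Prop := ∀ (C : Finset (Fin d)) (s : Seq d), Term C s → ∀ (i : ℤ) (x : Fin d),
  (∃ m : ℕ, m < n ∧ s (i + m + 1) ∉ C) → s i ∈ C → Occ C s (i + 1) (s i) → Occ C s (i + 1) x →
    ∃ (γ : Gam A d) (t : Seq d), Act C γ s t ∧ t i = x ∧ Kp C s t i

theorem orb {n : ℕ} (ih : TP d A n) (hL : L ≤ n) (ha : Blk C L a)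
    (e : ∀ k : ℤ, 1 ≤ k → ∀ j, Occ C a k j ↔ Occ C b k j) :
    ∃ (γ : Gam A d) (t : Seq d), Act C γ a t ∧ ∀ k : ℤ, 1 ≤ k → k ≤ L → t k = b k := by
  have key : ∀ m : ℕ, m ≤ L → ∃ (γ : Gam A d) (t : Seq d), Act C γ a t ∧
      ∀ k : ℤ, (L : ℤ) - m < k → k ≤ L → t k = b k := by
    intro m
    induction m with
    | zero => exact fun _ => ⟨1, a, Act.refl C a, fun k h1 h2 => by omega⟩
    | succ m ihm =>
      intro hm
      obtain ⟨γ, t, h1, h2⟩ := ihm (by omega)
      have h3 := h1.adm ha.term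
      have ht := ha.adm h3
      obtain ⟨p, hp⟩ : ∃ p : ℤ, p = L - m := ⟨_, rfl⟩
      have e' : ∀ k : ℤ, 1 ≤ k → ∀ j, Occ C t k j ↔ Occ C b k j := fun k hk j =>
        ((h3 k).2 j).symm.trans (e k hk j)
      have h4 : t p ∈ C := ht.mem p (by omega) (by omega)
      have h5 := (e' p (by omega) _).1 (occ_self h4)
      by_cases h6 : t p = b p
      · refine ⟨γ, t, h1, fun k e1 e2 => ?_⟩
        by_cases h7 : k = p
        · rwa [h7]
        · exact h2 k (by push_cast at e1; omega) e2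
      · have h7 : Occ C t (p + 1) (t p) :=
          (e' _ (by omega) _).2 ((occ_iff.1 h5).2.resolve_left (Ne.symm h6))
        have h8 : Occ C t (p + 1) (b p) :=
          (occ_iff.1 ((e' p (by omega) _).2 (occ_self h5.mem))).2.resolve_left h6
        obtain ⟨δ, r, h9, h10, h11⟩ := ih C t ht.term p (b p)
          ⟨m, by omega, by rw [show p + m + 1 = L + 1 by omega]; exact ht.out⟩ h4 h7 h8
        refine ⟨δ * γ, r, h1.trans h9, fun k e1 e2 => ?_⟩
        by_cases h12 : k = p
        · rwa [h12]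
        · push_cast at e1
          rw [h11 k (by omega) fun k' e3 e4 => ht.mem k' (by omega) (by omega)]
          exact h2 k (by omega) e2
  obtain ⟨γ, t, h1, h2⟩ := key L le_rfl
  exact ⟨γ, t, h1, fun k e1 e2 => h2 k (by omega) e2⟩

variable (A) in
/-- all letters of the block are equivalent at position `0` -/
def Tot (C : Finset (Fin d)) (L : ℕ) (a : Seq d) : Prop :=
  ∀ y x, Occ C a 1 y → Occ C a 1 x → Mt A C L (update a 0 y) (update a 0 x)

theorem Tot.of_one (ha : Blk C L a) (u : Fin d)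
    (h : ∀ y, Occ C a 1 y → Mt A C L (update a 0 u) (update a 0 y)) : Tot A C L a :=
  fun y x hy hx => ((h y hy).symm (ha.upd _) (ha.upd _)).trans (h x hx) (ha.upd _) (ha.upd _)

theorem Tot.transfer {n : ℕ} (ih : TP d A n) (hL : L ≤ n) (ha : Blk C L a) (hb : Blk C L b)
    (e : ∀ k : ℤ, 1 ≤ k → ∀ j, Occ C a k j ↔ Occ C b k j) (h : Tot A C L b) : Tot A C L a := by
  obtain ⟨γ, t, h1, h2⟩ := orb ih hL ha e
  have key : ∀ y, Occ C a 1 y → ∃ y', Occ C b 1 y' ∧ Mt A C L (update a 0 y) (update b 0 y') := by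
    intro y hy
    obtain ⟨r, h3⟩ := exists_actC γ (ha.upd y).term
    have h4 := (h3.adm (ha.upd y).term).occ (i := 0) (by rw [update_self]; exact hy.mem')
    refine ⟨r 0, (e 1 le_rfl _).1 ?_, γ, r, h3, fun k e1 e2 => ?_⟩
    · rcases (occ_iff.1 h4).2 with h5 | h5
      · rw [update_self] at h5
        exact h5 ▸ hy
      · exact occ_congr (fun m hm => update_of_ne (by omega) _ _) h5
    · by_cases h5 : k = 0
      · rw [h5, update_self]
      · rw [update_of_ne h5, ← h2 k (by omega) e2]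
        exact loc h3 h1 1 (fun m e3 _ => update_of_ne (by omega) _ _) (ha.upd y).out ha.out k
          (by omega) e2
  intro y x hy hx
  obtain ⟨y', h3, h4⟩ := key y hy
  obtain ⟨x', h5, h6⟩ := key x hx
  exact (h4.trans (h y' x' h3 h5) (ha.upd _) (hb.upd _)).trans (h6.symm (ha.upd _) (hb.upd _))
    (ha.upd _) (hb.upd _)

theorem two (h2 : (2 : A) ≠ 0) (ha : Blk C L a) {p : ℕ} (hp : 1 ≤ p) (hpL : p + 1 ≤ L)
    {w v : Fin d} (hw : a p = w) (hv : a (p + 1) = v)
    (hm : ∀ k : ℤ, 1 ≤ k → k ≤ p + 1 → a k = w ∨ a k = v) (hn : ¬ Occ C a (p + 1) w) :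
    Mt A C L (update a 0 w) (update a 0 v) := by
  have hwC : w ∈ C := hw ▸ ha.mem p (by omega) (by omega)
  have hvC : v ∈ C := hv ▸ ha.mem (p + 1) (by omega) (by omega)
  have hwv : w ≠ v := fun e => hn (by rw [e, ← hv]; exact occ_self (hv ▸ hvC))
  have hs : ({w, v} : Finset (Fin d)) ⊆ C := by
    intro j hj
    simp only [Finset.mem_insert, Finset.mem_singleton] at hj
    rcases hj with rfl | rfl <;> assumption
  have hm' : ∀ k : ℤ, 1 ≤ k → k ≤ p + 1 → a k ∈ ({w, v} : Finset (Fin d)) := fun k e1 e2 => by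
    simpa using hm k e1 e2
  obtain ⟨γ, hγ⟩ := bin (A := A) h2 hwv (ha.term.mono hs)
    ⟨p, by omega, hw, fun k e1 e2 => hm' k e1 (by omega)⟩ ⟨p + 1, by omega, hv, hm'⟩
  have hT := (ha.upd w).term.mono hs
  obtain ⟨t, ht⟩ := exists_actC γ hT
  obtain ⟨δ, hδ⟩ := clus_tree hs (ha.upd w).term ht
  refine ⟨δ, t, hδ, fun k e1 e2 => ?_⟩
  by_cases h3 : k ≤ p + 1
  · obtain ⟨k, rfl⟩ := Int.eq_ofNat_of_zero_le e1
    refine ht.of_eq hT hγ k fun m hm => ?_
    by_cases h4 : (m : ℤ) = 0
    · rw [h4]; simp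
    · rw [update_of_ne h4, update_of_ne h4, and_self]
      exact hm' m (by omega) (by omega)
  · have h4 := ht.adm hT
    have h5 : update a 0 w k = a k := update_of_ne (by omega) _ _
    rw [update_of_ne (by omega)]
    by_cases h6 : a k ∈ ({w, v} : Finset (Fin d))
    · have h7 : ∀ j, Occ {w, v} (update a 0 w) k j → j = v := by
        rintro j ⟨i, e3, e4, e5⟩
        have h8 := e5 i e3 le_rfl
        rw [e4] at h8
        simp only [Finset.mem_insert, Finset.mem_singleton] at h8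
        refine h8.resolve_left fun h9 => hn (occ_back (k' := k) (by omega)
          (fun m e6 e7 => ha.mem m (by omega) (by omega)) (occ_congr
            (a := update a 0 w) (fun m e6 => update_of_ne (by omega) _ _)
            ⟨i, e3, e4.trans h9, fun m e6 e7 => hs (e5 m e6 e7)⟩))
      rw [h7 _ (h4.occ (h5 ▸ h6)), ← h5, h7 _ (occ_self (h5 ▸ h6))]
    · rw [(h4 k).1 (h5 ▸ h6), h5]

/-- the word with the letters `g` at the positions `1, ..., p + 1` -/
def md (s : Seq d) (p : ℕ) (g : ℤ → Fin d) : Seq d :=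
  fun k => if 1 ≤ k ∧ k ≤ p + 1 then g k else s k

theorem md_in {p : ℕ} {g : ℤ → Fin d} {k : ℤ} (h1 : 1 ≤ k) (h2 : k ≤ p + 1) :
    md s p g k = g k := if_pos ⟨h1, h2⟩

theorem md_out {p : ℕ} {g : ℤ → Fin d} {k : ℤ} (h : p + 1 < k) : md s p g k = s k :=
  if_neg (by omega)

theorem md_spec (hs : Blk C L s) {p : ℕ} (hp : 1 ≤ p) (hpL : p + 1 ≤ L) {g : ℤ → Fin d}
    (hD : ∀ j, Occ C s 1 j → Occ C s p j) (hg : ∀ k : ℤ, 1 ≤ k → k ≤ p + 1 → Occ C s 1 (g k))
    (hw : g p = s p) (hc : ∀ j, Occ C s (p + 1) j ↔ g (p + 1) = j ∨ Occ C s (p + 1 + 1) j) :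
    Blk C L (md s p g) ∧ ∀ k : ℤ, 1 ≤ k → ∀ j, Occ C s k j ↔ Occ C (md s p g) k j := by
  have hb : Blk C L (md s p g) := by
    refine ⟨term_congr (p + 2) (fun m hm => (md_out (by omega)).symm) hs.term, fun k e1 e2 => ?_,
      by rw [md_out (by omega)]; exact hs.out⟩
    by_cases h : k ≤ p + 1
    · rw [md_in e1 h]; exact (hg k e1 h).mem'
    · rw [md_out (by omega)]; exact hs.mem k e1 e2
  have h1 : ∀ k : ℤ, p + 1 < k → ∀ j, Occ C s k j ↔ Occ C (md s p g) k j := fun k hk j =>
    ⟨occ_congr fun m hm => (md_out (by omega)).symm, occ_congr fun m hm => md_out (by omega)⟩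
  have h2 : ∀ j, Occ C s (p + 1) j ↔ Occ C (md s p g) (p + 1) j := fun j => by
    rw [hc, occ_iff (s := md s p g), ← h1 _ (by omega), md_in (by omega) le_rfl,
      and_iff_right (hg _ (by omega) le_rfl).mem']
  refine ⟨hb, fun k hk j => ?_⟩
  rcases lt_trichotomy k (p + 1) with h | rfl | h
  · constructor
    · intro h3
      have h4 := hD j (occ_back hk (fun m e1 e2 => hs.mem m e1 (by omega)) h3)
      refine occ_back (k' := p) (by omega) (fun m e1 e2 => hb.mem m (by omega) (by omega)) ?_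
      rw [occ_iff] at h4 ⊢
      rw [← h2, md_in (by omega) (by omega), hw]
      exact h4
    · rintro ⟨i, e1, e2, e3⟩
      refine occ_back (k' := p) (by omega) (fun m e4 e5 => hs.mem m (by omega) (by omega))
        (hD j ?_)
      by_cases h3 : i ≤ p + 1
      · rw [md_in (by omega) h3] at e2
        exact e2 ▸ hg i (by omega) h3
      · exact occ_back (k' := p + 1 + 1) (by omega) (fun m e4 e5 => hs.mem m e4 (by omega))
          ((h1 _ (by omega) j).2 ⟨i, by omega, e2, fun m e4 e5 => e3 m (by omega) e5⟩)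
  · exact h2 j
  · exact h1 k h j

theorem case1 (h2 : (2 : A) ≠ 0) {n : ℕ} (ih : TP d A n) (hL : L ≤ n) (hs : Blk C L s) {p : ℕ}
    (hp : 1 ≤ p) (hpL : p + 1 ≤ L) (hD : ∀ j, Occ C s 1 j → Occ C s p j)
    (hn : ¬ Occ C s (p + 1) (s p)) (hc : Occ C s (p + 1 + 1) (s (p + 1))) : Tot A C L s := by
  let g : Fin d → ℤ → Fin d := fun v k => if k = p + 1 then v else s p
  have g1 : ∀ v, g v (p + 1) = v := fun v => if_pos rfl
  have g2 : ∀ v (k : ℤ), k ≤ p → g v k = s p := fun v k hk => if_neg (by omega)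
  have hbk : ∀ {j}, Occ C s (p + 1) j → Occ C s 1 j :=
    occ_back (by omega) fun m e1 e2 => hs.mem m e1 (by omega)
  have hw : Occ C s 1 (s p) := occ_back (k' := p) (by omega)
    (fun m e1 e2 => hs.mem m e1 (by omega)) (occ_self (hs.mem p (by omega) (by omega)))
  have hf : ∀ {j}, Occ C s (p + 1) j → Occ C s (p + 1 + 1) j := fun h =>
    (occ_iff.1 h).2.elim (fun e => e ▸ hc) id
  have sp : ∀ v, Occ C s (p + 1) v → Blk C L (md s p (g v)) ∧
      ∀ k : ℤ, 1 ≤ k → ∀ j, Occ C s k j ↔ Occ C (md s p (g v)) k j := by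
    intro v hv
    refine md_spec hs hp hpL hD (fun k e1 e2 => ?_) (g2 v p le_rfl) fun j => ?_
    · by_cases h : k = p + 1
      · rw [h, g1]; exact hbk hv
      · rw [g2 v k (by omega)]; exact hw
    · rw [g1]
      exact ⟨fun h => .inr (hf h), fun h => h.elim (fun e => e ▸ hv) fun e =>
        occ_iff.2 ⟨hv.mem, .inr e⟩⟩
  have hv0 : Occ C s (p + 1) (s (p + 1)) := occ_self (hs.mem _ (by omega) (by omega))
  have her : ∀ {j}, Occ C s (p + 1 + 1) j → Occ (C.erase (s p)) s (p + 1 + 1) j := by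
    rintro j ⟨i, e1, e2, e3⟩
    refine ⟨i, e1, e2, fun k e4 e5 => Finset.mem_erase.2 ⟨fun e6 => hn ?_, e3 k e4 e5⟩⟩
    exact occ_iff.2 ⟨hv0.mem, .inr ⟨k, e4, e6, fun m e7 e8 => e3 m e7 (by omega)⟩⟩
  have mv : ∀ v y, Occ C s (p + 1) v → Mt A C L (update (md s p (g v)) 0 y)
      (update (md s p (g (s (p + 1)))) 0 y) := by
    intro v y hv
    have hb := (sp v hv).1.upd y
    have hT := hb.term.mono (Finset.erase_subset (s p) C)
    have e0 : ∀ v (m : ℤ), p + 1 + 1 ≤ m → s m = update (md s p (g v)) 0 y m := fun v m hm => by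
      rw [update_of_ne (by omega), md_out (by omega)]
    have e1 : ∀ v, update (md s p (g v)) 0 y (p + 1) = v := fun v => by
      rw [update_of_ne (by omega), md_in (by omega) le_rfl, g1]
    have e2 : ∀ v (m : ℤ), 1 ≤ m → m ≤ p → update (md s p (g v)) 0 y m = s p := fun v m a b => by
      rw [update_of_ne (by omega), md_in a (by omega), g2 v m b]
    obtain ⟨γ, t, h3, h4, h5⟩ := ih _ _ hT (p + 1) (s (p + 1))
      ⟨L - (p + 1), by omega, fun h => hb.out (by
        rw [show (L : ℤ) + 1 = p + 1 + (L - (p + 1) : ℕ) + 1 by omega]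
        exact Finset.mem_of_mem_erase h)⟩
      (by rw [e1]; exact (her (hf hv)).mem') (by rw [e1]; exact occ_congr (e0 v) (her (hf hv)))
      (occ_congr (e0 v) (her hc))
    obtain ⟨δ, hδ⟩ := clus_tree (Finset.erase_subset (s p) C) hb.term h3
    have h6 := h3.adm hT
    refine ⟨δ, t, hδ, fun k a b => ?_⟩
    rcases lt_trichotomy k (p + 1) with h | rfl | h
    · by_cases h7 : k = 0
      · subst h7
        rw [h6.fix fun h8 => ?_, update_self, update_self]
        have h9 := h8.mem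
        rw [e2 v _ (by omega) (by omega)] at h9
        exact Finset.notMem_erase _ _ h9
      · rw [(h6 k).1 (by rw [e2 v k (by omega) (by omega)]; exact Finset.notMem_erase _ _),
          e2 v k (by omega) (by omega), e2 _ k (by omega) (by omega)]
    · rw [h4, e1]
    · rw [h5 k h fun m a' b' => ?_, ← e0 v k (by omega), ← e0 _ k (by omega)]
      by_cases h7 : m = p + 1
      · rw [h7, e1]; exact (her (hf hv)).mem'
      · rw [← e0 v m (by omega)]
        exact (her ⟨m, by omega, rfl, fun m' _ _ => hs.mem m' (by omega) (by omega)⟩).mem'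
  obtain ⟨hb0, ho0⟩ := sp _ hv0
  refine Tot.transfer ih hL hs hb0 ho0 (Tot.of_one hb0 (s p) fun y hy => ?_)
  rcases (occ_iff.1 (hD y ((ho0 1 le_rfl y).2 hy))).2 with rfl | hy'
  · exact Mt.refl _
  · obtain ⟨hb, ho⟩ := sp y hy'
    have h3 : Mt A C L (update (md s p (g y)) 0 (s p)) (update (md s p (g y)) 0 y) := by
      refine two h2 hb hp hpL (by rw [md_in (by omega) (by omega), g2 y p le_rfl])
        (by rw [md_in (by omega) le_rfl, g1]) (fun k a b => ?_)
        fun h => hn ((ho _ (by omega) _).2 h)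
      rw [md_in a b]
      by_cases h : k = p + 1
      · rw [h, g1]; exact .inr rfl
      · rw [g2 y k (by omega)]; exact .inl rfl
    exact (((mv y _ hy').symm (hb.upd _) (hb0.upd _)).trans h3 (hb0.upd _) (hb.upd _)).trans
      (mv y y hy') (hb0.upd _) (hb.upd _)

theorem case2 (h2 : (2 : A) ≠ 0) {n : ℕ} (ih : TP d A n) (hL : L ≤ n) (hs : Blk C L s) {p : ℕ}
    (hp : 1 ≤ p) (hpL : p + 1 ≤ L) (hD : ∀ j, Occ C s 1 j → Occ C s p j)
    (hn : ¬ Occ C s (p + 1) (s p)) (hc : ¬ Occ C s (p + 1 + 1) (s (p + 1))) : Tot A C L s := by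
  classical
  let g : ℤ → Fin d := fun k => if (k - p) % 2 = 0 then s p else s (p + 1)
  have g1 : g (p + 1) = s (p + 1) := if_neg (by omega)
  have g2 : g p = s p := if_pos (by omega)
  have g3 : ∀ k, g k = s p ∨ g k = s (p + 1) := fun k => by
    simp only [g]; split_ifs <;> simp
  have hv0 : Occ C s (p + 1) (s (p + 1)) := occ_self (hs.mem _ (by omega) (by omega))
  have hne : s p ≠ s (p + 1) := fun e => hn (e ▸ hv0)
  have g4 : ∀ k, g (k + 1) ≠ g k := fun k => by
    simp only [g]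
    split_ifs
    · omega
    · exact hne
    · exact hne.symm
    · omega
  have hbk : ∀ {j}, Occ C s (p + 1) j → Occ C s 1 j :=
    occ_back (by omega) fun m e1 e2 => hs.mem m e1 (by omega)
  have hw : Occ C s 1 (s p) := occ_back (k' := p) (by omega)
    (fun m e1 e2 => hs.mem m e1 (by omega)) (occ_self (hs.mem p (by omega) (by omega)))
  have hg : ∀ k, Occ C s 1 (g k) := fun k =>
    (g3 k).elim (fun e => e ▸ hw) fun e => e ▸ hbk hv0
  obtain ⟨hb, ho⟩ := md_spec hs hp hpL hD (g := g) (fun k _ _ => hg k) g2 fun j => by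
    rw [g1, occ_iff, and_iff_right hv0.mem]
  have hn' : ∀ k, ¬ Occ C s (p + 1 + 1) (g k) := fun k h =>
    (g3 k).elim (fun e => hn (occ_iff.2 ⟨hv0.mem, .inr (e ▸ h)⟩)) fun e => hc (e ▸ h)
  have h3 : Mt A C L (update (md s p g) 0 (s p)) (update (md s p g) 0 (s (p + 1))) :=
    two h2 hb hp hpL (by rw [md_in (by omega) (by omega), g2])
      (by rw [md_in (by omega) le_rfl, g1]) (fun k a b => by rw [md_in a b]; exact g3 k)
      fun h => hn ((ho _ (by omega) _).2 h)
  refine Tot.transfer ih hL hs hb ho (Tot.of_one hb (g 1) fun y hy => ?_)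
  rcases (occ_iff.1 (hD y ((ho 1 le_rfl y).2 hy))).2 with rfl | hy'
  · rcases g3 1 with e | e <;> rw [e]
    exacts [Mt.refl _, h3.symm (hb.upd _) (hb.upd _)]
  rcases (occ_iff.1 hy').2 with rfl | hy''
  · rcases g3 1 with e | e <;> rw [e]
    exacts [h3, Mt.refl _]
  have hex : ∃ q : ℕ, 1 ≤ q ∧ md s p g q = y := by
    obtain ⟨i, e1, e2, -⟩ := hy
    obtain ⟨i, rfl⟩ := Int.eq_ofNat_of_zero_le (a := i) (by omega)
    exact ⟨i, by omega, e2⟩
  obtain ⟨q1, q2⟩ := Nat.find_spec hex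
  have q3 : ∀ i : ℕ, 1 ≤ i → i < Nat.find hex → md s p g i ≠ y := fun i a b e =>
    Nat.find_min hex b ⟨a, e⟩
  have q4 : Nat.find hex ≤ L := by
    obtain ⟨i, e1, e2, e3⟩ := hy
    obtain ⟨i, rfl⟩ := Int.eq_ofNat_of_zero_le (a := i) (by omega)
    have := Nat.find_min' hex (m := i) ⟨by omega, e2⟩
    by_contra h
    exact hb.out (e3 _ (by omega) (by omega))
  generalize Nat.find hex = q at q1 q2 q3 q4
  have q5 : p + 1 < q := by
    by_contra h
    rw [md_in (by omega) (by omega)] at q2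
    exact hn' _ (q2 ▸ hy'')
  have q6 : ∀ m : ℤ, p + 1 < m → m ≤ L → ¬ Occ C (md s p g) m (g 1) := fun m a b h =>
    hn' 1 (occ_back (by omega) (fun m' a' b' => hs.mem m' (by omega) (by omega))
      ((ho m (by omega) _).2 h))
  obtain ⟨γ, hγ⟩ := fine (A := A) (u := g 1) (v := y) (fun e => hn' 1 (e ▸ hy'')) hb.term q
    (by omega) (md_in le_rfl (by omega)) (fun i a b => hb.mem i (by omega) (by omega)) q2 q3
    (q6 q (by omega) (by omega)) (fun i a b e e' => by
      by_cases h : (i : ℤ) + 1 ≤ p + 1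
      · rw [md_in (by omega) (by omega)] at e e'
        exact g4 i (e'.trans e.symm)
      · exact q6 (i + 1) (by omega) (by omega)
          (e' ▸ occ_self (hb.mem _ (by omega) (by omega))))
  obtain ⟨t, ht⟩ := exists_actC γ (hb.upd (g 1)).term
  refine ⟨γ, t, ht, fun k a b => ?_⟩
  obtain ⟨k, rfl⟩ := Int.eq_ofNat_of_zero_le a
  refine ht.of_eq (hb.upd _).term hγ k fun m hm => ?_
  by_cases h4 : (m : ℤ) = 0
  · rw [h4, update_self, update_self]
    exact ⟨(hg 1).mem', hy.mem'⟩
  · rw [update_of_ne h4, update_of_ne h4, and_self]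
    exact hb.mem m (by omega) (by omega)

theorem tot (h2 : (2 : A) ≠ 0) {n : ℕ} (ih : TP d A n) (hL : L ≤ n) (hs : Blk C L s) :
    Tot A C L s := by
  classical
  intro y x hy hx
  by_cases hyx : y = x
  · rw [hyx]; exact Mt.refl _
  have hex : ∃ p : ℕ, ∃ j, Occ C s 1 j ∧ ¬ Occ C s (p + 1) j :=
    ⟨L, y, hy, fun h => hs.out h.mem⟩
  obtain ⟨w, h3, h4⟩ := Nat.find_spec hex
  have h5 : Nat.find hex ≤ L := Nat.find_min' hex ⟨y, hy, fun h => hs.out h.mem⟩
  have h6 : ∀ m : ℕ, m < Nat.find hex → ∀ j, Occ C s 1 j → Occ C s (m + 1) j := fun m hm j hj =>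
    by_contra fun h => Nat.find_min hex hm ⟨j, hj, h⟩
  generalize Nat.find hex = p at h4 h5 h6
  have hp : 1 ≤ p := by
    by_contra h
    obtain rfl : p = 0 := by omega
    exact h4 (by simpa using h3)
  have hD : ∀ j, Occ C s 1 j → Occ C s p j := fun j hj => by
    have := h6 (p - 1) (by omega) j hj
    rwa [show ((p - 1 : ℕ) : ℤ) + 1 = p by omega] at this
  obtain rfl : s p = w := (occ_iff.1 (hD w h3)).2.resolve_right h4
  have hpL : p + 1 ≤ L := by
    have h7 : s (p + 1) ∈ C := by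
      rcases (occ_iff.1 (hD y hy)).2 with e | e
      · rcases (occ_iff.1 (hD x hx)).2 with e' | e'
        · exact absurd (e.symm.trans e') hyx
        · exact e'.mem
      · exact e.mem
    by_contra h
    obtain rfl : p = L := by omega
    exact hs.out h7
  by_cases hc : Occ C s (p + 1 + 1) (s (p + 1))
  · exact case1 h2 ih hL hs hp hpL hD h4 hc y x hy hx
  · exact case2 h2 ih hL hs hp hpL hD h4 hc y x hy hx

theorem tp (h2 : (2 : A) ≠ 0) (n : ℕ) : TP d A n := by
  classical
  induction n with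
  | zero => rintro C s _ i x ⟨m, hm, -⟩; omega
  | succ n ih =>
    intro C s hs i x hm h0 h1 hx
    have hex : ∃ m : ℕ, s (i + m + 1) ∉ C := let ⟨m, _, h⟩ := hm; ⟨m, h⟩
    have hL : Nat.find hex ≤ n := by
      obtain ⟨m, h3, h4⟩ := hm
      have := Nat.find_min' hex h4
      omega
    have hb : Blk C (Nat.find hex) (shf s i) := by
      refine ⟨hs.shf i, fun k a b => ?_, ?_⟩
      · have := Nat.find_min hex (m := (k - 1).toNat) (by omega)
        rwa [not_not, show i + ((k - 1).toNat : ℤ) + 1 = k + i by omega] at this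
      · have := Nat.find_spec hex
        rwa [show i + (Nat.find hex : ℤ) + 1 = Nat.find hex + 1 + i by omega] at this
    generalize Nat.find hex = L at hL hb
    obtain ⟨γ, t, h3, h4⟩ := tot h2 ih hL hb (shf s i 0) x
      (occ_shf.2 (by rwa [shf_apply_zero, add_comm])) (occ_shf.2 (by rwa [add_comm]))
    rw [update_eq_self] at h3
    have h5 := h3.shf (-i)
    rw [shf_shf, neg_add_cancel, shf_zero] at h5
    refine ⟨γ, _, h5, ?_, fun k a b => ?_⟩
    · show t (i + -i) = x
      rw [add_neg_cancel, h4 0 le_rfl (by omega), update_self]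
    · show t (k + -i) = s k
      have h6 : k + -i ≤ L := by
        by_contra h
        exact hb.out (b (L + 1 + i) (by omega) (by omega))
      rw [h4 _ (by omega) h6, update_of_ne (by omega), shf, neg_add_cancel_right]

end VInd

theorem tpC (h2 : (2 : A) ≠ 0) (C : Finset (Fin d)) (s : Seq d) (hs : Term C s) (i : ℤ)
    (x : Fin d) (h0 : s i ∈ C) (h1 : Occ C s (i + 1) (s i)) (hx : Occ C s (i + 1) x) :
    ∃ (γ : Gam A d) (t : Seq d), Act C γ s t ∧ t i = x ∧ Kp C s t i := by
  obtain ⟨m, hm⟩ := hs (i + 1)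
  exact VInd.tp h2 (m + 1) C s hs i x ⟨m, by omega, by rwa [add_right_comm]⟩ h0 h1 hx

theorem mvG (h2 : (2 : A) ≠ 0) (I : Finset ℕ) : MvG (d := d) I (GG A d I) := by
  intro C w i x hC h0 h1 hx
  have hT : ∀ w : W d I, Term C w.1 := fun w => let ⟨_, _, h⟩ := w.2; h.term hC
  obtain ⟨γ, t, ha, e, hk⟩ := tpC (A := A) h2 C w.1 (hT w) i x h0 h1 hx
  obtain ⟨g, hg⟩ := clus_per (A := A) I hC γ
  have : t = (g • w).1 := funext fun i => ha.eq (hg w) rfl
  exact ⟨g, fun w' => (hg w').adm (hT w'), this ▸ e, this ▸ hk⟩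

end Pool.Agent.MP_9b2bac_nt.Z

end

section

/- The sharp sieve law for cubic exponents. -/

set_option autoImplicit false

namespace Pool.Agent.MP_9b2bac_nt.Z

open Finset Polynomial Pnt Classical

variable {d : ℕ}

theorem all_odd (Φ : ∀ (F : Type) [Field F] [Fintype F], Prop)
    (h : ∀ (A : Type) [CommRing A] [IsDomain A], (2 : A) ≠ 0 → ∃ c : A, c ≠ 0 ∧ ∃ q₀ : ℕ,
      ∀ (F : Type) [Field F] [Fintype F], q₀ ≤ Fintype.card F → ∀ ρ : A →+* F, ρ c ≠ 0 → Φ F) :
    ∃ q₀ : ℕ, ∀ (F : Type) [Field F] [Fintype F], Odd (Fintype.card F) → q₀ ≤ Fintype.card F →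
      Φ F := by
  obtain ⟨c, hc, q₀, h0⟩ := h ℤ two_ne_zero
  have h1 : ∀ p : ℕ, ∃ q₁ : ℕ, p.Prime → p ≠ 2 → ∀ (F : Type) [Field F] [Fintype F] [CharP F p],
      q₁ ≤ Fintype.card F → Φ F := fun p => by
    by_cases hp : p.Prime ∧ p ≠ 2
    · haveI := Fact.mk hp.1
      obtain ⟨c, hc, q₁, h1⟩ := h (ZMod p) (Ring.two_ne_zero (by rw [ZMod.ringChar_zmod_n]; exact hp.2))
      exact ⟨q₁, fun _ _ F _ _ _ hq => h1 F hq (ZMod.castHom (dvd_refl p) F)
        ((_root_.map_ne_zero _).2 hc)⟩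
    · exact ⟨0, fun a b => absurd ⟨a, b⟩ hp⟩
  choose Q hQ using h1
  refine ⟨max q₀ ((range (c.natAbs + 1)).sup Q), fun F _ _ ho hq => ?_⟩
  simp only [max_le_iff] at hq
  by_cases hcF : (c : F) = 0
  · obtain ⟨p, _, f, hp, hf⟩ := FiniteField.card' F
    have h3 : p ≤ c.natAbs := Nat.le_of_dvd (Int.natAbs_pos.2 hc)
      (Int.natCast_dvd.1 ((CharP.intCast_eq_zero_iff F p c).1 hcF))
    refine hQ p hp ?_ F ((le_sup (f := Q) (mem_range.2 (by omega))).trans hq.2)
    rintro rfl
    rw [hf, Nat.odd_pow_iff f.ne_zero] at ho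
    exact absurd ho (by decide)
  · exact h0 F hq.1 (Int.castRingHom F) hcF

theorem zero_count {F : Type} [Field F] [Fintype F] {μ : MvPolynomial (Fin d) F} (hμ : μ ≠ 0) :
    #{P ∈ mon F d | MvPolynomial.eval (esy d P) μ = 0} * Fintype.card F ≤
      μ.totalDegree * Fintype.card F ^ d := by
  have h1 := MvPolynomial.schwartz_zippel_totalDegree hμ univ
  rw [card_univ, div_le_div_iff₀ (by positivity) (by positivity)] at h1
  have h3 : #{P ∈ mon F d | MvPolynomial.eval (esy d P) μ = 0} ≤ _ :=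
    card_le_card_of_injOn (t := {f ∈ Fintype.piFinset fun _ : Fin d => (univ : Finset F) |
      MvPolynomial.eval f μ = 0}) (esy d) (fun P hP => by
        simpa using (mem_filter.1 hP).2) (esy_inj.mono fun P hP => (mem_filter.1 hP).1)
  norm_cast at h1
  exact (Nat.mul_le_mul_right _ h3).trans h1

theorem count_irr {F : Type} [Field F] [Fintype F] (hd : 2 ≤ d) {μ : MvPolynomial (Fin d) F}
    (hμ : μ ≠ 0) (R : F[X] → Prop) {β δ : ℝ} {D E : ℕ} (hβ : 0 ≤ β) (hβ' : β ≤ 1) (hδ : 0 < δ)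
    (hE : μ.totalDegree ≤ E) (hq : 2 * d ≤ Fintype.card F)
    (hq' : 2 * (D + 2 * d * E + 1 + δ) / δ ≤ Fintype.card F)
    (h : ∀ P ∈ irr F d, MvPolynomial.eval (esy d P) μ ≠ 0 →
      ({ε : F | ε ≠ 0 ∧ R (P.scaleRoots ε⁻¹)}.ncard : ℝ) ≤ (1 + δ / 2) * Fintype.card F * β + D) :
    (#{P ∈ irr F d | R P} : ℝ) ≤ (β + δ) * #(irr F d) := by
  have h1 : ∀ P ∈ irr F d, (#{ε ∈ univ.erase (0 : F) | R (P.scaleRoots ε⁻¹)} : ℝ) ≤
      (1 + δ / 2) * Fintype.card F * β + D +
        if MvPolynomial.eval (esy d P) μ = 0 then (Fintype.card F : ℝ) else 0 := by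
    intro P hP
    split_ifs with h0
    · have : (#{ε ∈ univ.erase (0 : F) | R (P.scaleRoots ε⁻¹)} : ℝ) ≤ Fintype.card F := by
        exact_mod_cast card_le_univ _
      exact this.trans (le_add_of_nonneg_left (by positivity))
    · rw [add_zero, ← Set.ncard_coe_finset]
      convert h P hP h0
      ext ε; simp
  have h3 : ∀ ε ∈ univ.erase (0 : F), #{P ∈ irr F d | R P} ≤
      #{P ∈ irr F d | R (P.scaleRoots ε⁻¹)} := fun ε hε => by
    have e : ∀ P : F[X], (P.scaleRoots ε).scaleRoots ε⁻¹ = P := fun P => by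
      rw [← scaleRoots_mul, mul_inv_cancel₀ (ne_of_mem_erase hε), scaleRoots_one]
    refine card_le_card_of_injOn (fun P => P.scaleRoots ε) (fun P hP => ?_)
      fun P _ Q _ h => by rw [← e P, ← e Q]; exact congrArg (scaleRoots · ε⁻¹) h
    simp only [coe_filter, mem_irr, Set.mem_setOf_eq, monic_scaleRoots_iff, natDegree_scaleRoots,
      e] at hP ⊢
    exact ⟨⟨hP.1.1, irr_scale hP.1.2.1 (ne_of_mem_erase hε), hP.1.2.2⟩, hP.2⟩
  have h4 := card_nsmul_le_sum _ _ _ h3
  simp only [card_filter _ (irr F d)] at h4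
  rw [sum_comm] at h4
  simp only [← card_filter] at h4
  rw [card_erase_of_mem (mem_univ _), card_univ, smul_eq_mul] at h4
  have h5 := (Nat.cast_le (α := ℝ)).2 h4
  rw [Nat.cast_mul, Nat.cast_sub (by omega), Nat.cast_sum] at h5
  have h6 := h5.trans (sum_le_sum h1)
  rw [sum_add_distrib, sum_const, ← sum_filter, sum_const, nsmul_eq_mul, nsmul_eq_mul,
    Nat.cast_one] at h6
  have h7 : (#{P ∈ irr F d | MvPolynomial.eval (esy d P) μ = 0} : ℝ) * Fintype.card F ≤
      E * Fintype.card F ^ d := by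
    exact_mod_cast (Nat.mul_le_mul_right _ (card_le_card (filter_subset_filter _
      (filter_subset _ _)))).trans ((zero_count hμ).trans (Nat.mul_le_mul_right _ hE))
  have h8 := mul_le_mul_of_nonneg_left (irr_lower hd hq) (Nat.cast_nonneg (α := ℝ) E)
  rw [div_le_iff₀ hδ] at hq'
  have h9 : (1 : ℝ) < Fintype.card F := by exact_mod_cast Fintype.one_lt_card
  have h10 : (1 + δ / 2) * Fintype.card F * β + D + 2 * d * E ≤ (Fintype.card F - 1) * (β + δ) := by
    nlinarith [mul_le_mul_of_nonneg_left hβ' (show 0 ≤ δ * Fintype.card F by positivity)]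
  have h11 := mul_le_mul_of_nonneg_right h10 (Nat.cast_nonneg (α := ℝ) #(irr F d))
  refine le_of_mul_le_mul_left ?_ (sub_pos.2 h9)
  linarith

theorem law3 {M N : ℕ} (hM : 8 ≤ M) (hMN : M ≤ N) (δ : ℝ) (hδ : 0 < δ) : ∃ q₀ : ℕ,
    ∀ (F : Type) [Field F] [Fintype F], Odd (Fintype.card F) → q₀ ≤ Fintype.card F →
      ((M - 1 : ℝ) / N - δ) * #(irr F 3) ≤ #{P ∈ irr F 3 | NoF M N P} ∧
      (#{P ∈ irr F 3 | NoF M N P} : ℝ) ≤ (M / (N + 1) + δ) * #(irr F 3) := by
  refine all_odd _ fun A _ _ h2 => ?_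
  have hI : ∀ n, M ≤ n → n ≤ N → n ∈ Icc M N := fun n a b => mem_Icc.2 ⟨a, b⟩
  obtain ⟨ν, hν, D, q₀, h⟩ := two_sided (A := A) hI (half_pos hδ) fun π =>
    grp3 hM hMN _ hI (GG A 3 (Icc M N)) act_sh (fun u v j huv hj => marker le_rfl h2 huv hj)
      (relW _ π) (relW_sh π)
  obtain ⟨μ, hμ, hνμ⟩ := exists_sym hν
  obtain ⟨m, hm⟩ := MvPolynomial.ne_zero_iff.1 hμ
  refine ⟨_, hm, max q₀ (max (2 * 3) ⌈2 * (D + 2 * (3 : ℕ) * μ.totalDegree + 1 + δ) / δ⌉₊),
    fun F _ _ hq ρ hρ => ?_⟩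
  simp only [max_le_iff, Nat.ceil_le] at hq
  have hμ' : μ.map ρ ≠ 0 := MvPolynomial.ne_zero_iff.2 ⟨m, by rwa [MvPolynomial.coeff_map]⟩
  have h4 : (μ.map ρ).totalDegree ≤ μ.totalDegree :=
    Finset.sup_mono (MvPolynomial.support_map_subset _ _)
  have h1 := fun P (hP : P ∈ irr F 3) (h0 : MvPolynomial.eval (esy 3 P) (μ.map ρ) ≠ 0) =>
    let ⟨l, hl⟩ := exists_lin ((mem_irr.1 hP).1.map (algebraMap F (AlgebraicClosure F)))
      ((natDegree_map _).trans (mem_irr.1 hP).2.2)
    h F hq.1 ρ P (mem_irr.1 hP).2.1 l hl fun h3 => h0 (by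
      have := map_dvd (MvPolynomial.eval₂Hom ((algebraMap F _).comp ρ) l) hνμ
      rwa [h3, zero_dvd_iff, esy_eval ρ hl, map_eq_zero] at this)
  have a1 : (8 : ℝ) ≤ M := by exact_mod_cast hM
  have a2 : (M : ℝ) ≤ N := by exact_mod_cast hMN
  refine ⟨?_, count_irr (by omega) hμ' _ (by positivity) ((div_le_one (by linarith)).2 (by linarith))
    hδ h4 hq.2.1 hq.2.2 fun P hP h0 => (h1 P hP h0).1⟩
  have h2 := count_irr (by omega) hμ' (fun P => ¬ NoF M N P)
    (sub_nonneg.2 ((div_le_one (by linarith)).2 (by linarith)))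
    (sub_le_self _ (div_nonneg (by linarith) (by linarith))) hδ h4 hq.2.1 hq.2.2
    fun P hP h0 => (h1 P hP h0).2
  have h3 := congrArg (Nat.cast : ℕ → ℝ) (card_filter_add_card_filter_not (s := irr F 3) (NoF M N))
  rw [Nat.cast_add] at h3
  have h5 : (#{P ∈ irr F 3 | ¬ NoF M N P} : ℝ) ≤ (1 - (M - 1) / N + δ) * #(irr F 3) := by
    convert h2
  linarith

end Pool.Agent.MP_9b2bac_nt.Z

end

section

/- The Poisson law for exponents of every degree. -/

set_option autoImplicit false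

namespace Pool.Agent.MP_9b2bac_nt.Z

open Finset Polynomial Pnt Classical

theorem lawD {d : ℕ} (hd : 3 ≤ d) (S : Finset ℕ) (hS : ∀ n ∈ S, 1 ≤ n ∧ (n ≤ d ∨ 8 ≤ n))
    (κ : ℕ → ℕ) (hκ : ∀ n ∈ S, κ n ≤ n) (δ : ℝ) (hδ : 0 < δ) : ∃ q₀ : ℕ,
    ∀ (F : Type) [Field F] [Fintype F], Odd (Fintype.card F) → q₀ ≤ Fintype.card F →
      |(#{P ∈ irr F d | ∀ n ∈ S, nf n P = κ n} : ℝ) -
        (∏ n ∈ S, plaw d n (κ n)) * #(irr F d)| ≤
      (δ + 1 / 10 ^ 10 * ∏ n ∈ S, plaw d n (κ n)) * #(irr F d) := by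
  set p := ∏ n ∈ S, plaw d n (κ n) with hp
  have p2 : ∀ n ∈ S, 0 ≤ plaw d n (κ n) ∧ plaw d n (κ n) ≤ 1 := fun n hn => by
    have a : (1 : ℝ) ≤ n := by exact_mod_cast (hS n hn).1
    have b : (1 : ℝ) ≤ (κ n).factorial := by exact_mod_cast (κ n).factorial_pos
    have c : (1 : ℝ) ≤ d := by exact_mod_cast (by omega : 1 ≤ d)
    have c1 : 1 / (d : ℝ) ≤ 1 := div_le_one_of_le₀ c (by positivity)
    have c2 : 0 ≤ 1 / (d : ℝ) := by positivity
    unfold plaw
    split_ifs
    exacts [⟨zero_le_one, le_rfl⟩, ⟨le_rfl, zero_le_one⟩, ⟨by linarith, by linarith⟩, ⟨c2, c1⟩,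
      ⟨le_rfl, zero_le_one⟩, ⟨by positivity, div_le_one_of_le₀ ((Real.exp_le_one_iff.2
        (div_nonpos_of_nonpos_of_nonneg (by norm_num) (by positivity))).trans
        (one_le_mul_of_one_le_of_one_le (one_le_pow₀ a) b)) (by positivity)⟩]
  have p0 : 0 ≤ p := prod_nonneg fun n hn => (p2 n hn).1
  have p1 : p ≤ 1 := prod_le_one (fun n hn => (p2 n hn).1) fun n hn => (p2 n hn).2
  refine all_odd _ fun A _ _ h2 => ?_
  obtain ⟨ν, hν, D, q₀, h⟩ := two_sidedP (A := A) (d := d) (subset_refl S)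
    (fun n hn => (hS n hn).1) κ (lo := p - 1 / 10 ^ 10 * p)
    (hi := min 1 (p + 1 / 10 ^ 10 * p)) (half_pos hδ) fun π => by
      have := abs_le.1 (grpE hd S hS κ hκ S (subset_refl S) (GG A d S) act_sh
        (fun u v j huv hj => marker hd h2 huv hj) (mvG h2 S) (lev_rel S)
        (fun u v huv => lev_swap S huv) π)
      rw [← hp] at this
      refine ⟨by unfold EvG; linarith [this.1], ?_⟩
      rw [min_mul_of_nonneg _ _ (Nat.cast_nonneg _), one_mul]
      exact le_min (by exact_mod_cast Set.ncard_le_card _) (by unfold EvG; linarith [this.2])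
  obtain ⟨μ, hμ, hνμ⟩ := exists_sym hν
  obtain ⟨m, hm⟩ := MvPolynomial.ne_zero_iff.1 hμ
  refine ⟨_, hm, max q₀ (max (2 * d) ⌈2 * (D + 2 * (d : ℕ) * μ.totalDegree + 1 + δ) / δ⌉₊),
    fun F _ _ hq ρ hρ => ?_⟩
  simp only [max_le_iff, Nat.ceil_le] at hq
  have hμ' : μ.map ρ ≠ 0 := MvPolynomial.ne_zero_iff.2 ⟨m, by rwa [MvPolynomial.coeff_map]⟩
  have h4 : (μ.map ρ).totalDegree ≤ μ.totalDegree :=
    Finset.sup_mono (MvPolynomial.support_map_subset _ _)
  have h1 := fun P (hP : P ∈ irr F d) (h0 : MvPolynomial.eval (esy d P) (μ.map ρ) ≠ 0) =>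
    let ⟨l, hl⟩ := exists_lin ((mem_irr.1 hP).1.map (algebraMap F (AlgebraicClosure F)))
      ((natDegree_map _).trans (mem_irr.1 hP).2.2)
    h F hq.1 ρ P (mem_irr.1 hP).2.1 l hl fun h3 => h0 (by
      have := map_dvd (MvPolynomial.eval₂Hom ((algebraMap F _).comp ρ) l) hνμ
      rwa [h3, zero_dvd_iff, esy_eval ρ hl, map_eq_zero] at this)
  have h6 := count_irr (by omega) hμ' (fun P => ∀ n ∈ S, nf n P = κ n)
    (le_min zero_le_one (by positivity)) (min_le_left _ _) hδ h4 hq.2.1 hq.2.2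
    fun P hP h0 => (h1 P hP h0).1
  have h2 := count_irr (by omega) hμ' (fun P => ¬ ∀ n ∈ S, nf n P = κ n)
    (β := 1 - (p - 1 / 10 ^ 10 * p)) (by linarith) (by linarith) hδ h4 hq.2.1 hq.2.2
    fun P hP h0 => (h1 P hP h0).2
  have h3 := congrArg (Nat.cast : ℕ → ℝ) (card_filter_add_card_filter_not (s := irr F d)
    fun P => ∀ n ∈ S, nf n P = κ n)
  rw [Nat.cast_add] at h3
  have h5 : (#{P ∈ irr F d | ¬ ∀ n ∈ S, nf n P = κ n} : ℝ) ≤
      (1 - (p - 1 / 10 ^ 10 * p) + δ) * #(irr F d) := by convert h2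
  have h7 : (#{P ∈ irr F d | ∀ n ∈ S, nf n P = κ n} : ℝ) ≤
      (min 1 (p + 1 / 10 ^ 10 * p) + δ) * #(irr F d) := by convert h6
  have h8 := mul_le_mul_of_nonneg_right (min_le_right 1 (p + 1 / 10 ^ 10 * p))
    (Nat.cast_nonneg (α := ℝ) #(irr F d))
  exact abs_le.2 ⟨by linarith, by linarith⟩

end Pool.Agent.MP_9b2bac_nt.Z

end
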