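import Mathlib
import Pool.Agent.MP_9b2bac_nt.Carlitz
import Pool.Agent.MP_4fffd4_nt.Stick

section

/- The parity obstruction for Carlitz-Mersenne polynomials when the derivative of `θ` vanishes. -/

set_option autoImplicit false

namespace Pool.Agent.MP_9b2bac_nt

open Polynomial Finset Pool.Agent.MP_4fffd4_nt

variable {F K : Type*} [Field F] [Fintype F] [Field K] [Algebra F K] [IsAlgClosed K]

theorem sgn_eq_one {n : ℕ} (hn : 4 ∣ n) : sgn n = 1 := by
  unfold sgn
  simp only [Finset.prod_const, Fin.card_Ioi]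
  rw [Finset.prod_pow_eq_pow_sum, Fin.sum_univ_eq_sum_range (fun i => n - 1 - i),
    Finset.sum_range_reflect (fun i => i)]
  refine Even.neg_one_pow ?_
  have h := Finset.sum_range_id_mul_two n
  obtain ⟨k, rfl⟩ := hn
  refine ⟨k * (4 * k - 1), ?_⟩
  have : 4 * k * (4 * k - 1) = (k * (4 * k - 1) + k * (4 * k - 1)) * 2 := by ring
  omega

omit [Fintype F] in
theorem liou_irreducible {M : F[X]} (hi : Irreducible M) : liou M = -1 := by
  unfold liou
  rw [UniqueFactorizationMonoid.card_factors_of_irreducible hi]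
  simp

omit [IsAlgClosed K] in
theorem not_square (h2 : ringChar F ≠ 2) {M : F[X]} (hM : M.Monic) (hi : Irreducible M) {n : ℕ}
    (hn : 4 ∣ n) (α : Fin n → K) (hα : Function.Injective α)
    (hMα : M.map (algebraMap F K) = ∏ i, (X - C (α i))) (c : F) :
    ∏ i, aeval (α i) (derivative M) ≠ algebraMap F K c ^ 2 := by
  classical
  intro h
  have hs : M.Separable := PerfectField.separable_of_irreducible hi
  have hroot : ∀ z : K, aeval z M = 0 ↔ ∃ i, α i = z := by
    intro z
    rw [← eval_map_algebraMap, hMα, eval_prod, Finset.prod_eq_zero_iff]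
    simp only [mem_univ, true_and, eval_sub, eval_X, eval_C, sub_eq_zero, eq_comm]
  let φ := FiniteField.frobeniusAlgHom F K
  have hφ : ∀ i, ∃ j, α j = φ (α i) := fun i =>
    (hroot _).1 (by rw [aeval_algHom_apply, (hroot _).2 ⟨i, rfl⟩, map_zero])
  choose s hs' using hφ
  have hsinj : Function.Injective s := fun i j hij =>
    hα (φ.injective (show φ (α i) = φ (α j) by rw [← hs', ← hs', hij]))
  let σ : Equiv.Perm (Fin n) := Equiv.ofBijective s (Finite.injective_iff_bijective.1 hsinj)
  have hσ := sign_frob hM hs α hα hMα σ (fun i => hs' i)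
  rw [liou_irreducible hi, Even.neg_one_pow (even_iff_two_dvd.2 (Dvd.dvd.trans ⟨2, rfl⟩ hn))] at hσ
  set δ := (Matrix.vandermonde α).det with hδ
  have h1 : φ δ = -δ := by
    have : φ δ = (((Equiv.Perm.sign σ : ℤˣ) : ℤ) : K) * δ := by
      rw [hδ, ← Matrix.det_permute, AlgHom.map_det]
      congr 1
      ext i j
      simp [Matrix.vandermonde_apply, σ, hs']
    rw [this, hσ]; simp
  have h3 : δ ^ 2 = algebraMap F K c ^ 2 := by
    have := prod_deriv_eq α
    rw [sgn_eq_one hn, ← hMα, derivative_map] at this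
    simp only [eval_map_algebraMap] at this
    rw [← h, this]; simp [hδ]
  have h4 : φ δ = δ := by
    rcases sq_eq_sq_iff_eq_or_eq_neg.1 h3 with e | e <;> rw [e] <;> simp
  have h5 : δ ≠ 0 := Matrix.det_vandermonde_ne_zero_iff.2 hα
  have h6 : (2 : K) ≠ 0 := by
    have := Ring.two_ne_zero (R := F) h2
    rw [← map_ofNat (algebraMap F K)]
    exact (_root_.map_ne_zero _).2 this
  apply mul_ne_zero h6 h5
  linear_combination h1 - h4

omit [Fintype F] in
theorem recip {M : F[X]} {n : ℕ} (hn : Even n) (α : Fin n → K)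
    (hMα : M.map (algebraMap F K) = ∏ i, (X - C (α i))) (g : F[X]) :
    ∏ i, aeval (α i) g = algebraMap F K g.leadingCoeff ^ n *
      ((g.map (algebraMap F K)).roots.map fun β => aeval β M).prod := by
  have hsp := (IsAlgClosed.splits (g.map (algebraMap F K))).eq_prod_roots
  have h1 : ∀ i, aeval (α i) g = algebraMap F K g.leadingCoeff *
      ((g.map (algebraMap F K)).roots.map fun β => α i - β).prod := by
    intro i
    rw [← eval_map_algebraMap]
    conv_lhs => rw [hsp]
    simp [eval_multiset_prod, Multiset.map_map]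
  simp only [h1]
  rw [Finset.prod_mul_distrib, Finset.prod_const, card_univ, Fintype.card_fin]
  congr 1
  generalize (g.map (algebraMap F K)).roots = s
  induction s using Multiset.induction_on with
  | empty => simp
  | cons β s IH =>
    simp only [Multiset.map_cons, Multiset.prod_cons]
    rw [Finset.prod_mul_distrib, IH, ← eval_map_algebraMap, hMα, eval_prod]
    congr 1
    have : ∀ i, α i - β = (-1) * eval β (X - C (α i)) := fun i => by simp
    simp only [this]
    rw [Finset.prod_mul_distrib, Finset.prod_const, card_univ, Fintype.card_fin, hn.neg_one_pow,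
      one_mul]

omit [Fintype F] in
theorem prod_roots_mem (G b : F[X]) :
    ∃ r : F, ((G.map (algebraMap F K)).roots.map fun β => aeval β b).prod = algebraMap F K r := by
  by_cases hG : G = 0
  · exact ⟨1, by simp [hG]⟩
  have h := resultant_eq_prod_eval (G.map (algebraMap F K)) (b.map (algebraMap F K)) b.natDegree
    (natDegree_map_le) (IsAlgClosed.splits _)
  rw [natDegree_map, resultant_map_map] at h
  refine ⟨resultant G b G.natDegree b.natDegree / G.leadingCoeff ^ b.natDegree, ?_⟩
  have h0 : algebraMap F K G.leadingCoeff ≠ 0 := (_root_.map_ne_zero _).2 (leadingCoeff_ne_zero.2 hG)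
  rw [map_div₀, h, map_pow, leadingCoeff_map, mul_div_cancel_left₀ _ (pow_ne_zero _ h0)]
  simp only [eval_map_algebraMap]

theorem core (h2 : ringChar F ≠ 2) {θ b P M : F[X]} (hθ : derivative θ = 0) (hP : P.Monic)
    (hPi : Irreducible P) (hM : M.Monic) (hi : Irreducible M) (hE : carlitz θ P b = b * M)
    (hD : b ∣ M - aeval θ P) {n : ℕ} (hn : 4 ∣ n) (α : Fin n → K) (hα : Function.Injective α)
    (hMα : M.map (algebraMap F K) = ∏ i, (X - C (α i))) {y z : F} (hy : y ≠ 0)
    (h1 : ∏ i, aeval (α i) b = algebraMap F K y ^ 2)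
    (h3 : ∏ i, aeval (α i) (derivative b) = algebraMap F K z ^ 2) : False := by
  have hn2 : Even n := even_iff_two_dvd.2 (Dvd.dvd.trans ⟨2, rfl⟩ hn)
  have hq : Odd (Fintype.card F ^ P.natDegree) :=
    (FiniteField.odd_card_of_char_ne_two h2 |> Nat.odd_iff.2).pow
  obtain ⟨m, hm⟩ := hq
  have hm0 : m ≠ 0 := by
    rintro rfl
    have := Nat.one_lt_pow hPi.natDegree_pos.ne' (Fintype.one_lt_card (α := F))
    omega
  set G := aeval θ P with hG
  have hroot : ∀ i, aeval (α i) M = 0 := by
    intro i
    rw [← eval_map_algebraMap, hMα, eval_prod]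
    exact Finset.prod_eq_zero (mem_univ i) (by simp)
  have e1 : ∀ i, aeval (α i) (derivative M) * aeval (α i) b =
      aeval (α i) G * aeval (α i) (derivative b) := by
    intro i
    have := congrArg (aeval (α i)) (derivative_carlitz hθ P b)
    rw [hE, derivative_mul] at this
    simp only [map_add, map_mul, hroot, mul_zero, zero_add] at this
    rw [← this, mul_comm]
  have e2 : ∀ β ∈ (G.map (algebraMap F K)).roots, aeval β M = aeval β b ^ (2 * m) := by
    intro β hβ
    have hβ' : aeval β G = 0 := by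
      rw [← eval_map_algebraMap]; exact (mem_roots'.1 hβ).2
    by_cases hb : aeval β b = 0
    · obtain ⟨k, hk⟩ := hD
      have := congrArg (aeval β) hk
      simp only [map_sub, map_mul, hβ', hb, zero_mul, sub_zero] at this
      rw [this, hb, zero_pow (by omega)]
    · have := map_carlitz (aeval β) θ P b
      rw [hE, carlitz_root hP hPi (by rw [aeval_algHom_apply, hβ']), hm, map_mul, pow_succ'] at this
      exact mul_left_cancel₀ hb this
  obtain ⟨r, hr⟩ := prod_roots_mem (K := K) G b
  obtain ⟨k, hk⟩ := hn2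
  have e3 : ∏ i, aeval (α i) G = algebraMap F K (G.leadingCoeff ^ k * r ^ m) ^ 2 := by
    rw [recip ⟨k, hk⟩ α hMα, Multiset.map_congr rfl e2, Multiset.prod_map_pow, hr, hk]
    simp only [map_mul, map_pow]
    ring
  refine not_square h2 hM hi hn α hα hMα (G.leadingCoeff ^ k * r ^ m * z / y) ?_
  have e4 := Finset.prod_congr rfl fun i (_ : i ∈ (univ : Finset (Fin n))) => e1 i
  rw [Finset.prod_mul_distrib, Finset.prod_mul_distrib, h1, h3, e3] at e4
  have hy' : algebraMap F K y ≠ 0 := (_root_.map_ne_zero _).2 hy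
  rw [map_div₀, map_mul, div_pow, eq_div_iff (pow_ne_zero _ hy'), e4]
  ring

omit [Fintype F] in
theorem exists_split {M : F[X]} (h0 : 0 < M.natDegree) (hi : ¬ Irreducible M) :
    ∃ M₁ M₂ : F[X], 0 < M₁.natDegree ∧ 0 < M₂.natDegree ∧ M = M₁ * M₂ := by
  have hM : M ≠ 0 := by rintro rfl; simp at h0
  have hu : ¬ IsUnit M := fun h => by
    rw [natDegree_eq_zero_of_isUnit h] at h0; exact lt_irrefl _ h0
  rw [irreducible_iff, not_and] at hi
  have := hi hu
  push Not at this
  obtain ⟨a, b, hab, ha, hb⟩ := this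
  have key : ∀ g : F[X], g ≠ 0 → ¬ IsUnit g → 0 < g.natDegree := fun g hg hu =>
    natDegree_pos_iff_degree_pos.2 (degree_pos_of_ne_zero_of_nonunit hg hu)
  exact ⟨a, b, key a (by rintro rfl; simp [hM] at hab) ha, key b (by rintro rfl; simp [hM] at hab) hb,
    hab⟩

theorem quot_data {θ b : F[X]} (h : θ.natDegree + b.natDegree < Fintype.card F * b.natDegree)
    {P : F[X]} (hP : P.Monic) :
    ∃ M : F[X], M.Monic ∧ M.natDegree = (Fintype.card F ^ P.natDegree - 1) * b.natDegree ∧
      carlitz θ P b = b * M ∧ b ∣ M - aeval θ P := by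
  have hb : b ≠ 0 := by rintro rfl; simp at h
  obtain ⟨M, h1, h2⟩ := exists_quot θ P b
  obtain ⟨h3, h4⟩ := carlitz_degree hb h hP
  rw [h1, leadingCoeff_mul] at h4
  have hM : M.Monic := by
    have := leadingCoeff_ne_zero.2 hb
    exact mul_left_cancel₀ this (by rw [h4, mul_one])
  refine ⟨M, hM, ?_, h1, h2⟩
  rw [h1, natDegree_mul hb hM.ne_zero] at h3
  rw [Nat.sub_mul]; omega

end Pool.Agent.MP_9b2bac_nt

end

section

/- Translation invariant exponents give composite Carlitz-Mersenne numbers. -/

set_option autoImplicit false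

namespace Pool.Agent.MP_9b2bac_nt

open Polynomial Finset

variable {F : Type*} [Field F] [Fintype F]

theorem carlitz_shift {R : Type*} [CommRing R] [Algebra F R] (θ : R) (c : F) (a : F[X]) (x : R) :
    carlitz (θ + algebraMap F R c) a x = carlitz θ (a.comp (X + C c)) x := by
  have : lin F (θ + algebraMap F R c) = aeval (lin F θ) (X + C c) := by
    ext y
    simp [lin_apply, Module.algebraMap_end_apply, Algebra.smul_def]
    ring
  rw [carlitz_eq, carlitz_eq, aeval_comp, this]

omit [Fintype F] in
theorem divX_monic {a : F[X]} (ha : a.Monic) (h : 0 < a.natDegree) :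
    a.divX.Monic ∧ a.divX.natDegree = a.natDegree - 1 := by
  have h1 := natDegree_divX_eq_natDegree_tsub_one (p := a)
  refine ⟨?_, h1⟩
  rw [Monic, leadingCoeff, h1, coeff_divX, Nat.sub_add_cancel h, ha.coeff_natDegree]

theorem one_degree (hq : 3 ≤ Fintype.card F) {a : F[X]} (ha : a.Monic) (h : 0 < a.natDegree) :
    (carlitz (X : F[X]) a 1).Monic ∧
      (carlitz (X : F[X]) a 1).natDegree = Fintype.card F ^ (a.natDegree - 1) := by
  obtain ⟨h1, h2⟩ := divX_monic ha h
  have m2 : (X + 1 : F[X]).Monic := monic_X_add_C 1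
  have d2 : (X + 1 : F[X]).natDegree = 1 := natDegree_X_add_C 1
  have e : carlitz (X : F[X]) a 1 = carlitz (X : F[X]) a.divX (X + 1) + C (a.coeff 0) := by
    conv_lhs => rw [← divX_mul_X_add a]
    rw [carlitz_add, carlitz_mul, carlitz_C, smul_eq_C_mul, mul_one]
    congr 2
    have := carlitz_X_mul (X : F[X]) (1 : F[X]) (1 : F[X])
    rw [mul_one, carlitz_one] at this
    simpa using this
  obtain ⟨h3, h4⟩ := carlitz_degree (θ := (X : F[X])) m2.ne_zero
    (by rw [natDegree_X, d2]; omega) h1
  rw [d2, mul_one, h2] at h3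
  have h5 : (carlitz (X : F[X]) a.divX (X + 1)).Monic := h4.trans m2
  have h6 : 0 < (carlitz (X : F[X]) a.divX (X + 1)).natDegree := by rw [h3]; positivity
  rw [e]
  exact ⟨h5.add_of_left (degree_C_le.trans_lt (natDegree_pos_iff_degree_pos.1 h6)),
    by rw [natDegree_add_C, h3]⟩

theorem deriv_degree (hq : 3 ≤ Fintype.card F) {a : F[X]} (ha : a.Monic) (h : 2 ≤ a.natDegree) :
    (derivative (carlitz (X : F[X]) a 1)).natDegree ≤ Fintype.card F ^ (a.natDegree - 2) := by
  obtain ⟨h1, h2⟩ := divX_monic ha (by omega)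
  obtain ⟨-, h3⟩ := one_degree hq h1 (by omega)
  have hq0 : ((Fintype.card F : ℕ) : F) = 0 := FiniteField.cast_card_eq_zero F
  rw [h2, Nat.sub_sub] at h3
  set y := carlitz (X : F[X]) a.divX 1 with hy
  have e : derivative (carlitz (X : F[X]) a 1) = y + X * derivative y := by
    conv_lhs => rw [← X_mul_divX_add a]
    rw [carlitz_add, carlitz_X_mul, carlitz_C, smul_eq_C_mul, mul_one, ← hy]
    simp [derivative_pow, hq0]
  rw [e]
  refine natDegree_add_le_of_degree_le h3.le (natDegree_mul_le.trans ?_)
  have := natDegree_derivative_le y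
  have hpos : 0 < Fintype.card F ^ (a.natDegree - (1 + 1)) := by positivity
  rw [natDegree_X]
  norm_num at *
  omega

theorem telescope {K : Type*} [Field K] (p : ℕ) [Fact p.Prime] [CharP K p] (α : K) (m : ℕ) :
    ∑ s ∈ range m, (α ^ p - α) ^ p ^ s = α ^ p ^ m - α := by
  induction m with
  | zero => simp
  | succ m IH => rw [Finset.sum_range_succ, IH, sub_pow_char_pow, ← pow_mul, ← pow_succ']; ring

theorem sum_range_mul' {M : Type*} [AddCommMonoid M] (f : ℕ → M) (e D : ℕ) :
    ∑ s ∈ range (e * D), f s = ∑ r ∈ range e, ∑ i ∈ range D, f (e * i + r) := by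
  rw [Finset.sum_comm]
  induction D with
  | zero => simp
  | succ D IH => rw [Nat.mul_succ, Finset.sum_range_add, IH, Finset.sum_range_succ]

theorem shift_not_irreducible (hq : 3 ≤ Fintype.card F) (p : ℕ) [CharP F p] {c : F} (hc : c ≠ 0)
    (hcp : c ^ p = c) {P : F[X]} (hP : P.Monic) (hd : 4 ≤ P.natDegree)
    (hs : P.comp (X + C c) = P) : ¬ Irreducible (carlitz (X : F[X]) P 1) := by
  intro hi
  have hpp : p.Prime := CharP.char_is_prime F p
  have : Fact p.Prime := ⟨hpp⟩
  obtain ⟨e, -, he⟩ := FiniteField.card F p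
  let K := AlgebraicClosure F
  have : CharP K p := charP_of_injective_algebraMap (algebraMap F K).injective p
  obtain ⟨hf, hn⟩ := one_degree hq hP (by omega)
  have hf' := deriv_degree hq hP (by omega)
  set f := carlitz (X : F[X]) P 1 with hfd
  obtain ⟨α, hα⟩ := IsAlgClosed.exists_aeval_eq_zero K f (degree_pos_of_irreducible hi).ne'
  have hα1 : aeval (α + algebraMap F K c) f = 0 := by
    have h1 := map_carlitz (aeval (α + algebraMap F K c)) (X : F[X]) P 1
    have h2 := map_carlitz (aeval α) (X : F[X]) P 1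
    rw [aeval_X, map_one] at h1 h2
    rw [hfd, h1, carlitz_shift, hs, ← h2]
    exact hα
  obtain ⟨j, hj, hjα⟩ : ∃ j < f.natDegree, α + algebraMap F K c = α ^ Fintype.card F ^ j := by
    rw [← eval_map_algebraMap, map_eq_prod hf hi hα, eval_prod, Finset.prod_eq_zero_iff] at hα1
    obtain ⟨j, hj, h⟩ := hα1
    exact ⟨j, mem_range.1 hj, by simpa [sub_eq_zero] using h⟩
  have hj0 : j ≠ 0 := by
    rintro rfl
    simp [hc] at hjα
  set η := α ^ p - α with hη
  have hfr : ∀ m, η ^ Fintype.card F ^ m = (α ^ Fintype.card F ^ m) ^ p - α ^ Fintype.card F ^ m := by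
    intro m
    have := map_sub (FiniteField.frobeniusAlgHom F K ^ m) (α ^ p) α
    simp only [AlgHom.coe_pow, FiniteField.coe_frobeniusAlgHom, pow_iterate] at this
    rw [hη, this, ← pow_mul, ← pow_mul, mul_comm]
  have hint : IsIntegral F η := Algebra.IsIntegral.isIntegral η
  set g := minpoly F η with hg
  have hgi : Irreducible g := minpoly.irreducible hint
  have hgm : g.Monic := minpoly.monic hint
  have hgη : aeval η g = 0 := minpoly.aeval F η
  have h1 : g.natDegree ∣ j := (pow_card_pow_eq hgi hgη j).1 (by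
    rw [hfr, ← hjα, add_pow_char, ← map_pow, hcp, hη]; ring)
  have h2 : g.natDegree ∣ f.natDegree := (pow_card_pow_eq hgi hgη _).1 (by
    rw [hfr, (pow_card_pow_eq hi hα _).2 dvd_rfl])
  have hp1 := hpp.one_lt
  have mA : (X ^ p - X : F[X]).Monic := by
    apply Monic.sub_of_left (monic_X_pow _)
    rw [degree_X_pow, degree_X]; exact_mod_cast hp1
  have dA : (X ^ p - X : F[X]).natDegree = p := FiniteField.X_pow_card_sub_X_natDegree_eq F hp1
  have hcm : (g.comp (X ^ p - X)).Monic := hgm.comp mA (by rw [dA]; omega)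
  have hdv : f ∣ g.comp (X ^ p - X) := by
    rw [minpoly.eq_of_irreducible_of_monic hi hα hf]
    refine minpoly.dvd F α ?_
    rw [aeval_comp]; simpa using hgη
  have h3 : f.natDegree ≤ g.natDegree * p := by
    have := natDegree_le_of_dvd hdv hcm.ne_zero
    rwa [natDegree_comp, dA] at this
  have h4 : g.natDegree * p = f.natDegree := by
    have hlt : g.natDegree < f.natDegree := (Nat.le_of_dvd (Nat.pos_of_ne_zero hj0) h1).trans_lt hj
    rw [hn, he, ← pow_mul] at h2 h3 hlt ⊢
    obtain ⟨t, -, ht⟩ := (Nat.dvd_prime_pow hpp).1 h2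
    rw [ht] at h3 hlt ⊢
    rw [← pow_succ] at h3 ⊢
    have a1 := (Nat.pow_lt_pow_iff_right hp1).1 hlt
    have a2 := (Nat.pow_le_pow_iff_right hp1).1 h3
    congr 1; omega
  have h5 : g.comp (X ^ p - X) = f :=
    eq_of_monic_of_dvd_of_natDegree_le hf hcm hdv (by rw [natDegree_comp, dA, h4])
  have hp0 : (p : F) = 0 := CharP.cast_eq_zero F p
  have h6 : (derivative g).natDegree * p ≤ Fintype.card F ^ (P.natDegree - 2) := by
    rw [← h5, derivative_comp] at hf'
    have : derivative (X ^ p - X : F[X]) = -1 := by simp [derivative_X_pow]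
    rwa [this, neg_one_mul, natDegree_neg, natDegree_comp, dA] at hf'
  obtain ⟨d, hd'⟩ : ∃ d, P.natDegree = d + 4 := ⟨P.natDegree - 4, by omega⟩
  have hpq : p ≤ Fintype.card F := by
    rw [he]; exact Nat.le_self_pow e.ne_zero p
  obtain ⟨q', hq'⟩ : p ∣ Fintype.card F := by rw [he]; exact dvd_pow_self p e.ne_zero
  have e1 : Fintype.card F ^ (P.natDegree - 1) =
      Fintype.card F ^ (d + 2) * Fintype.card F := by rw [hd', ← pow_succ]; rfl
  have e2 : Fintype.card F ^ (P.natDegree - 2) = Fintype.card F ^ (d + 2) := by rw [hd']; rfl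
  have e3 : Fintype.card F * Fintype.card F ≤ Fintype.card F ^ (d + 2) := by
    rw [← pow_two]; exact Nat.pow_le_pow_right (by omega) (by omega)
  rw [hn, e1] at h4
  rw [e2] at h6
  have h7 : (derivative g).natDegree + 2 < g.natDegree := by
    by_contra hcon
    have : g.natDegree * p ≤ ((derivative g).natDegree + 2) * p :=
      Nat.mul_le_mul_right _ (by omega)
    nlinarith
  have h8 : p ∣ g.natDegree := by
    have : g.natDegree * p = (p * (q' * Fintype.card F ^ (d + 1) * q')) * p := by
      rw [h4, pow_succ _ (d + 1)]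
      generalize Fintype.card F ^ (d + 1) = w
      rw [hq']; ring
    exact ⟨_, Nat.eq_of_mul_eq_mul_right hpp.pos this⟩
  have h9 : g.nextCoeff = 0 := by
    obtain ⟨r, hr⟩ : ∃ r, g.natDegree = r + 2 := ⟨g.natDegree - 2, by omega⟩
    have a1 : (derivative g).coeff r = 0 := coeff_eq_zero_of_natDegree_lt (by omega)
    have a2 : ((r : F) + 1) = -1 := by
      have := (CharP.cast_eq_zero_iff F p _).2 h8
      rw [hr] at this
      push_cast at this
      linear_combination this
    rw [coeff_derivative, a2] at a1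
    rw [nextCoeff_of_natDegree_pos (by omega), hr]
    simpa using a1
  have h10 : ∑ i ∈ range g.natDegree, η ^ Fintype.card F ^ i = 0 := by
    have a1 := nextCoeff_map (algebraMap F K).injective g
    rw [map_eq_prod hgm hgi hgη, prod_X_sub_C_nextCoeff, h9, map_zero, neg_eq_zero] at a1
    exact a1
  have h11 : α ^ Fintype.card F ^ g.natDegree = α := by
    have a1 := telescope p α (e * g.natDegree)
    rw [sum_range_mul', pow_mul, ← he] at a1
    rw [← sub_eq_zero, ← a1]
    refine Finset.sum_eq_zero fun r _ => ?_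
    have a2 := congrArg (iterateFrobenius K p r) h10
    rw [map_sum, map_zero] at a2
    rw [← a2]
    refine Finset.sum_congr rfl fun i _ => ?_
    rw [iterateFrobenius_def, ← pow_mul, he, ← pow_mul, ← pow_add]
  have h12 := Nat.le_of_dvd (by omega) ((pow_card_pow_eq hi hα _).1 h11)
  rw [hn, e1, ← h4] at h12
  nlinarith

end Pool.Agent.MP_9b2bac_nt

end

section

/- Factors of the smallest possible degree of Carlitz-Mersenne numbers. -/

set_option autoImplicit false

namespace Pool.Agent.MP_9b2bac_nt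

open Polynomial Finset

variable {F : Type*} [Field F] [Fintype F]

theorem carlitz_pred_root {K : Type*} [Field K] [Algebra F K] {Q : F[X]} (hQ : Q.Monic)
    (hi : Irreducible Q) {z : K} (hz : aeval z Q = 0) (b : F[X]) :
    carlitz z (Q - 1) (aeval z b) = 0 := by
  have h1 := carlitz_root hQ hi hz (aeval z b)
  have h2 := aeval_algHom_apply (FiniteField.frobeniusAlgHom F K ^ Q.natDegree) z b
  simp only [AlgHom.coe_pow, FiniteField.coe_frobeniusAlgHom, pow_iterate] at h2
  rw [(pow_card_pow_eq hi hz _).2 dvd_rfl] at h2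
  have h3 := carlitz_add z (Q - 1) 1 (aeval z b)
  rw [sub_add_cancel, carlitz_one, h1, ← h2] at h3
  exact left_eq_add.1 (h3.trans (add_comm _ _))

omit [Fintype F] in
theorem exists_root_dvd {Q : F[X]} (hQ : Q.Monic) (hi : Irreducible Q) :
    ∃ z : AlgebraicClosure F, aeval z Q = 0 ∧ ∀ g : F[X], aeval z g = 0 → Q ∣ g := by
  obtain ⟨z, hz⟩ := IsAlgClosed.exists_aeval_eq_zero (AlgebraicClosure F) Q
    (degree_pos_of_irreducible hi).ne'
  refine ⟨z, hz, fun g hg => ?_⟩
  rw [minpoly.eq_of_irreducible_of_monic hi hz hQ]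
  exact minpoly.dvd F z hg

theorem big_degree (hq : 2 < Fintype.card F) {b P : F[X]} (hb : b ≠ 0) (hP : P.Monic)
    (hd : 2 ≤ P.natDegree) : b.natDegree + P.natDegree < (carlitz (X : F[X]) P b).natDegree := by
  have h3 : ∀ n : ℕ, n + 2 < Fintype.card F ^ (n + 1) := fun n => by
    have h1 : 3 ^ (n + 1) ≤ Fintype.card F ^ (n + 1) := Nat.pow_le_pow_left hq _
    have h2 : n < 3 ^ n := Nat.lt_pow_self (by norm_num)
    rw [pow_succ] at h1
    omega
  obtain ⟨n, hn⟩ : ∃ n, P.natDegree = n + 2 := ⟨P.natDegree - 2, by omega⟩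
  rcases Nat.eq_zero_or_pos b.natDegree with h0 | h0
  · have e : carlitz (X : F[X]) P b = C (b.coeff 0) * carlitz (X : F[X]) P 1 := by
      rw [carlitz_eq, carlitz_eq, ← smul_eq_C_mul, ← map_smul, smul_eq_C_mul, mul_one,
        ← eq_C_of_natDegree_eq_zero h0]
    have hc : b.coeff 0 ≠ 0 := fun h => hb (by rw [eq_C_of_natDegree_eq_zero h0, h, C_0])
    rw [e, natDegree_C_mul hc, (one_degree hq hP (by omega)).2, h0, hn, zero_add]
    exact h3 n
  · rw [(carlitz_degree hb (by rw [natDegree_X]; nlinarith) hP).1, hn]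
    have := h3 (n + 1)
    nlinarith

theorem small_factor_iff (hq : 2 < Fintype.card F) {b P : F[X]} (hb : b ≠ 0) (hP : P.Monic)
    (hi : Irreducible P) (hd : b.natDegree + 2 ≤ P.natDegree) :
    (∃ Q M : F[X], Irreducible Q ∧ Q.natDegree ≤ P.natDegree ∧ 0 < M.natDegree ∧
      carlitz (X : F[X]) P b = b * Q * M) ↔ Irreducible (P + 1) := by
  classical
  obtain ⟨M₀, h1, h2⟩ := exists_quot (X : F[X]) P b
  rw [aeval_X_left_apply] at h2
  have hdeg : (1 : F[X]).degree < P.degree := by
    rw [degree_one]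
    exact degree_pos_of_irreducible hi
  constructor
  · rintro ⟨Q, M, hQ, hQd, -, e⟩
    have hm : (normalize Q).Monic := monic_normalize hQ.ne_zero
    have ha : Associated Q (normalize Q) := associated_normalize Q
    have hQi := ha.irreducible hQ
    have hQn : (normalize Q).natDegree = Q.natDegree :=
      natDegree_eq_of_degree_eq (degree_eq_degree_of_associated ha).symm
    obtain ⟨z, hz, hzd⟩ := exists_root_dvd hm hQi
    have hM : M₀ = Q * M := mul_left_cancel₀ hb (by rw [← h1, e, mul_assoc])
    have hzQ : aeval z Q = 0 := by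
      obtain ⟨c, hc⟩ := ha.symm.dvd
      rw [hc, map_mul, hz, zero_mul]
    have hy : aeval z b ≠ 0 := fun h => by
      have a1 := hzd b h
      have a2 : normalize Q ∣ P := by
        have a3 : normalize Q ∣ M₀ := hM ▸ ha.symm.dvd.mul_right M
        simpa using a3.sub (a1.trans h2)
      have a4 := natDegree_eq_of_degree_eq
        (degree_eq_degree_of_associated (hQi.associated_of_dvd hi a2))
      have a5 := natDegree_le_of_dvd a1 hb
      omega
    have a1 : carlitz z P (aeval z b) = 0 := by
      have := map_carlitz (aeval z) (X : F[X]) P b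
      rw [aeval_X, e, map_mul, map_mul, hzQ, mul_zero, zero_mul] at this
      exact this.symm
    have a2 := carlitz_pred_root hm hQi hz b
    have a3 : P ∣ normalize Q - 1 := by
      by_contra hn
      obtain ⟨u, v, huv⟩ := (hi.coprime_iff_not_dvd).2 hn
      have := carlitz_one (F := F) z (aeval z b)
      rw [← huv, carlitz_add, carlitz_mul, carlitz_mul, a1, a2, carlitz_zero_right,
        carlitz_zero_right, add_zero] at this
      exact hy this.symm
    have a4 : (1 : F[X]).degree < (normalize Q).degree := by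
      rw [degree_one]
      exact degree_pos_of_irreducible hQi
    have a5 : normalize Q - 1 = P :=
      eq_of_monic_of_dvd_of_natDegree_le hP (hm.sub_of_left a4) a3 (by
        rw [natDegree_sub_eq_left_of_natDegree_lt (by simpa using hQi.natDegree_pos), hQn]
        exact hQd)
    rw [← a5, sub_add_cancel]
    exact hQi
  · intro hQi
    have hm : (P + 1).Monic := hP.add_of_left hdeg
    have hQn : (P + 1).natDegree = P.natDegree := natDegree_add_eq_left_of_degree_lt hdeg
    obtain ⟨z, hz, hzd⟩ := exists_root_dvd hm hQi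
    have a1 := carlitz_pred_root hm hQi hz b
    rw [add_sub_cancel_right] at a1
    have a2 : P + 1 ∣ b * M₀ := by
      refine hzd _ ?_
      rw [← h1, map_carlitz, aeval_X, a1]
    have a3 : ¬ P + 1 ∣ b := fun h => by
      have := natDegree_le_of_dvd h hb
      omega
    obtain ⟨M, hM⟩ := (hQi.prime.dvd_or_dvd a2).resolve_left a3
    have e : carlitz (X : F[X]) P b = b * (P + 1) * M := by rw [h1, hM, mul_assoc]
    refine ⟨P + 1, M, hQi, hQn.le, ?_, e⟩
    have a4 := big_degree hq hb hP (by omega)
    have a5 : (b * (P + 1) * M).natDegree ≤ b.natDegree + (P + 1).natDegree + M.natDegree :=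
      natDegree_mul_le.trans (Nat.add_le_add_right natDegree_mul_le _)
    rw [e] at a4
    omega

end Pool.Agent.MP_9b2bac_nt

end
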