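import Mathlib
import Pool.Agent.Mg.F43e117.Gf80e43
import Pool.Agent.Mg.F43e117.G892fb5
import Pool.Agent.MP_4fffd4_nt.Stick

section

/- Definitions for Chowla's conjecture over finite fields of odd characteristic. -/

set_option autoImplicit false

namespace Pool.Agent.MP_4fffd4_nt.Odd

open Polynomial Finset Filter Topology
open scoped BigOperators

section Basic

variable {F : Type*} [Field F]

/-- The Liouville function with real values. -/
noncomputable def lam (g : F[X]) : ℝ := (liou g : ℝ)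

theorem abs_lam (g : F[X]) : |lam g| = 1 := by
  rcases liou_cases g with h | h <;> simp [lam, h]

theorem lam_mul {f g : F[X]} (hf : f ≠ 0) (hg : g ≠ 0) : lam (f * g) = lam f * lam g := by
  rw [lam, liou_mul hf hg, Int.cast_mul, lam, lam]

theorem lam_mul_self (g : F[X]) : lam g * lam g = 1 := by
  rcases liou_cases g with h | h <;> simp [lam, h]

theorem abs_ind_le (P : Prop) : |ind P| ≤ 1 := by
  rw [abs_of_nonneg (ind_nonneg P)]; exact ind_le_one P

theorem ind_congr {P Q : Prop} (h : P ↔ Q) : ind P = ind Q := by rw [propext h]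

theorem ind_and (P Q : Prop) : ind (P ∧ Q) = ind P * ind Q := by
  by_cases hP : P
  · rw [ind_pos hP, one_mul]; exact ind_congr (and_iff_right hP)
  · rw [ind_neg hP, zero_mul, ind_neg fun h => hP h.1]

/-- `u` is a unitary divisor of `z` with squarefree cofactor. -/
def Dec (u z : F[X]) : Prop := ∃ w, z = u * w ∧ IsCoprime u w ∧ Squarefree w

/-- squarefull polynomials -/
def Full (u : F[X]) : Prop := ∀ P : F[X], Irreducible P → P ∣ u → P ^ 2 ∣ u

/-- the part of the Liouville function with squarefull part `u` -/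
noncomputable def piece (u z : F[X]) : ℝ := ind (Dec u z) * lam z

/-- `W` has a private prime factor of degree above `4 * lo` and at most `hi + lo`, and the rest
splits into pieces of degree at most `hi`. -/
def GoodW (ι : Type) [Fintype ι] (lo hi : ℕ) (W : F[X]) : Prop :=
  ∃ (l : F) (P : F[X]) (m : ι → F[X]), l ≠ 0 ∧ P.Monic ∧ Irreducible P ∧
    W = C l * P * ∏ j, m j ∧ 4 * lo < P.natDegree ∧ P.natDegree ≤ hi + lo ∧
    ∀ j, (m j).Monic ∧ (m j).natDegree ≤ hi ∧ ¬ P ∣ m j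

/-- bounded functions of two polynomials, each invariant along a line -/
def Adm {J : Type*} (α β : J → F[X]) (G : J → F[X] → F[X] → ℝ) : Prop :=
  ∀ j, (∀ y d, |G j y d| ≤ 1) ∧ ∀ y d v, G j (y + α j * v) (d + β j * v) = G j y d

/-- the directions -/
noncomputable def BB (p e : ℕ) (t : F[X]) : F[X] := X ^ e * (X + t ^ p)

/-- derivatives of polynomials of degree below `ν` represent every class modulo `e` -/
def Onto (ν : ℕ) (e : F[X]) : Prop :=
  ∀ x : F[X], ∃ v : F[X], v.degree < ν ∧ e ∣ x - derivative v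

end Basic

section Fin

variable (F : Type*) [Field F] [Fintype F]

open Classical in
/-- Monic irreducible polynomials of degree `d`. -/
noncomputable def prm (d : ℕ) : Finset F[X] := (monF F d).filter Irreducible

open Classical in
/-- Monic polynomials of degree at most `K`. -/
noncomputable def monLE (K : ℕ) : Finset F[X] := (range (K + 1)).biUnion (monF F)

open Classical in
/-- Monic squarefull polynomials of degree at most `K`. -/
noncomputable def fullLE (K : ℕ) : Finset F[X] := (monLE F K).filter Full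

open Classical in
/-- Monic irreducible polynomials with degree in the interval from `lo` (excluded) to `hi`. -/
noncomputable def prmI (lo hi : ℕ) : Finset F[X] := (Ioc lo hi).biUnion (prm F)

variable {F}

theorem mem_prm {d : ℕ} {P : F[X]} :
    P ∈ prm F d ↔ P.Monic ∧ Irreducible P ∧ P.natDegree = d := by
  classical
  rw [prm, mem_filter, mem_monF]; tauto

theorem mem_monLE {K : ℕ} {f : F[X]} : f ∈ monLE F K ↔ f.Monic ∧ f.natDegree ≤ K := by
  simp only [monLE, mem_biUnion, mem_range, mem_monF]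
  exact ⟨fun ⟨d, h1, h2, h3⟩ => ⟨h2, by omega⟩, fun ⟨h1, h2⟩ => ⟨_, by omega, h1, rfl⟩⟩

theorem mem_fullLE {K : ℕ} {f : F[X]} :
    f ∈ fullLE F K ↔ f.Monic ∧ f.natDegree ≤ K ∧ Full f := by
  classical
  rw [fullLE, mem_filter, mem_monLE]; tauto

theorem mem_prmI {lo hi : ℕ} {P : F[X]} :
    P ∈ prmI F lo hi ↔ P.Monic ∧ Irreducible P ∧ lo < P.natDegree ∧ P.natDegree ≤ hi := by
  simp only [prmI, mem_biUnion, mem_Ioc, mem_prm]
  exact ⟨fun ⟨d, h1, h2, h3, h4⟩ => ⟨h2, h3, by omega⟩,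
    fun ⟨h1, h2, h3⟩ => ⟨_, h3, h1, h2, rfl⟩⟩

theorem sum_monLE {B : Type*} [AddCommMonoid B] (K : ℕ) (φ : F[X] → B) :
    ∑ f ∈ monLE F K, φ f = ∑ d ∈ range (K + 1), ∑ f ∈ monF F d, φ f := by
  classical
  refine sum_biUnion fun a _ b _ hab => disjoint_left.2 fun f h1 h2 => hab ?_
  rw [← (mem_monF.1 h1).2, ← (mem_monF.1 h2).2]

theorem sum_prmI {B : Type*} [AddCommMonoid B] (lo hi : ℕ) (φ : F[X] → B) :
    ∑ f ∈ prmI F lo hi, φ f = ∑ d ∈ Ioc lo hi, ∑ f ∈ prm F d, φ f := by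
  classical
  refine sum_biUnion fun a _ b _ hab => disjoint_left.2 fun f h1 h2 => hab ?_
  rw [← (mem_prm.1 h1).2.2, ← (mem_prm.1 h2).2.2]

theorem card_monLE (K : ℕ) : (monLE F K).card ≤ Fintype.card F ^ (K + 1) := by
  rw [← card_ltF]
  refine card_le_card fun f hf => mem_ltF.2 ?_
  obtain ⟨h1, h2⟩ := mem_monLE.1 hf
  rw [degree_eq_natDegree h1.ne_zero]
  exact_mod_cast Nat.lt_succ_of_le h2

theorem sum_ltF {M : Type*} [AddCommMonoid M] (n : ℕ) (G : F[X] → M) :
    ∑ g ∈ ltF F n, G g = ∑ y : degreeLT F n, G y.1 := Finset.sum_map _ _ _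

theorem expect_monF (n : ℕ) (G : F[X] → ℝ) :
    𝔼 g ∈ monF F n, G g = 𝔼 y : degreeLT F n, G (X ^ n + y.1) := by
  rw [expect_eq_sum_div_card, Fintype.expect_eq_sum_div_card, sum_monF, card_monF, card_degreeLT]

theorem expect_ltF (n : ℕ) (G : F[X] → ℝ) :
    𝔼 g ∈ ltF F n, G g = 𝔼 y : degreeLT F n, G y.1 := by
  rw [expect_eq_sum_div_card, Fintype.expect_eq_sum_div_card, sum_ltF, card_ltF, card_degreeLT]

theorem expect_monF_eq (n : ℕ) (G : F[X] → ℝ) :
    𝔼 g ∈ monF F n, G g = (∑ g ∈ monF F n, G g) / (Fintype.card F : ℝ) ^ n := by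
  rw [expect_eq_sum_div_card, card_monF, Nat.cast_pow]

theorem expect_ltF_eq (n : ℕ) (G : F[X] → ℝ) :
    𝔼 g ∈ ltF F n, G g = (∑ g ∈ ltF F n, G g) / (Fintype.card F : ℝ) ^ n := by
  rw [expect_eq_sum_div_card, card_ltF, Nat.cast_pow]

theorem sum_monF_add {M : Type*} [AddCommMonoid M] {n : ℕ} {v : F[X]} (hv : v.degree < n)
    (G : F[X] → M) : ∑ g ∈ monF F n, G (g + v) = ∑ g ∈ monF F n, G g := by
  rw [sum_monF, sum_monF]
  refine Fintype.sum_equiv (Equiv.addRight ⟨v, mem_degreeLT.2 hv⟩) _ _ fun y => ?_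
  simp [add_assoc]

theorem sum_ltF_add {M : Type*} [AddCommMonoid M] {n : ℕ} {v : F[X]} (hv : v.degree < n)
    (G : F[X] → M) : ∑ g ∈ ltF F n, G (g + v) = ∑ g ∈ ltF F n, G g := by
  rw [sum_ltF, sum_ltF]
  exact Fintype.sum_equiv (Equiv.addRight ⟨v, mem_degreeLT.2 hv⟩) _ _ fun y => rfl

theorem expect_monF_add {n : ℕ} {v : F[X]} (hv : v.degree < n) (G : F[X] → ℝ) :
    𝔼 g ∈ monF F n, G (g + v) = 𝔼 g ∈ monF F n, G g := by
  rw [expect_monF_eq, expect_monF_eq, sum_monF_add hv]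

theorem monF_nonempty (n : ℕ) : (monF F n).Nonempty :=
  ⟨X ^ n, mem_monF.2 ⟨monic_X_pow n, natDegree_X_pow n⟩⟩

theorem ltF_nonempty (n : ℕ) : (ltF F n).Nonempty :=
  ⟨0, mem_ltF.2 (WithBot.bot_lt_coe _)⟩

open Classical in
/-- The Jacobi symbol with real values (for monic `f`). -/
noncomputable def jr (D f : F[X]) : ℝ := ((quadraticChar F (resultant f D) : ℤ) : ℝ)

/-- the averages that control Chowla's conjecture -/
noncomputable def TT {J : Type*} [Fintype J] (n D : ℕ) (φ : F[X] → ℝ)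
    (G : J → F[X] → F[X] → ℝ) : ℝ :=
  𝔼 d ∈ monF F D, 𝔼 y ∈ monF F n, φ y * ∏ j, G j y d

/-- a weight supported on good polynomials and equidistributed among derivatives -/
structure Weight (p : ℕ) (ι : Type) [Fintype ι] (g : ℕ → F[X] → ℝ) (ρ : ℕ → ℝ) (ρ₀ : ℝ)
    (lo hi : ℕ → ℕ) : Prop where
  pos : 0 < ρ₀
  good : ∀ (M : ℕ) (W : F[X]), W ≠ 0 → W.natDegree = M →
    0 ≤ g M W ∧ g M W ≤ 1 ∧ (g M W ≠ 0 → GoodW ι (lo M) (hi M) W)
  rho : ∀ᶠ M in atTop, ρ₀ ≤ ρ M ∧ ρ M ≤ 1
  lo_top : Tendsto lo atTop atTop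
  hi_le : ∀ c : ℕ, ∀ᶠ M in atTop, hi M + c ≤ M / p
  equi : ∀ (Q : F[X]) (c : ℕ), Q ≠ 0 → ∀ᶠ M in atTop, ∀ (D₀ : F[X]) (ν : ℕ), M ≤ ν + c →
    𝔼 v ∈ ltF F ν, g M (D₀ + Q ^ p * derivative v) = ρ M

/-- the index set of the pieces -/
abbrev WI (p : ℕ) : Type := Fin (p - 1) ⊕ Bool

/-- the width of the windows -/
def tt (p M : ℕ) : ℕ := M / (100 * p ^ 3)

variable (F) in
/-- the window number `j` -/
noncomputable def win (p M j : ℕ) : Finset F[X] :=
  prmI F (M / p - (j + 2) * tt p M) (M / p - (j + 1) * tt p M)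

variable (F) in
/-- one prime from each window -/
noncomputable def TW (p M : ℕ) : Finset (Fin (p - 1) → F[X]) :=
  Fintype.piFinset fun j => win F p M j

/-- the weight -/
noncomputable def gw (p M : ℕ) (W : F[X]) : ℝ :=
  (∑ P ∈ TW F p M, ind (Onto (M - tt p M) (∏ j, P j)) * ind (∏ j, P j ∣ W)) / (2 * p) ^ p

variable (F) in
/-- the mean value of the weight -/
noncomputable def rw0 (p M : ℕ) : ℝ :=
  (∑ P ∈ TW F p M, ind (Onto (M - tt p M) (∏ j, P j)) /
    (Fintype.card F : ℝ) ^ (∏ j, P j).natDegree) / (2 * p) ^ p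

/-- the lower parameter of the good polynomials -/
def low (p M : ℕ) : ℕ := 10 * p ^ 2 * tt p M

/-- upper bound for the degrees in the windows -/
def high (p M : ℕ) : ℕ := M / p - tt p M

/-- the entropy of the pattern of labels on an interval -/
noncomputable def entP {α : Type*} (ℓ : F[X] → α) (m H : ℕ) : ℝ :=
  𝔼 y ∈ monF F m, -Real.log (𝔼 y' ∈ monF F m,
    ind (∀ v : F[X], v.degree < H → ℓ (y' + v) = ℓ (y + v)))

end Fin

/-- the entropy of the pattern of labels along a family of shifts -/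
noncomputable def entI {G A α : Type*} [AddCommGroup G] [Fintype G] (ℓ : G → α) (i : A → G) : ℝ :=
  𝔼 y : G, -Real.log (𝔼 y' : G, ind (∀ v, ℓ (y' + i v) = ℓ (y + i v)))

/-- small on average over all long intervals -/
def BZ (u : ℕ → ℝ) : Prop :=
  ∀ ε : ℝ, 0 < ε → ∃ M₀ : ℕ, ∀ M, M₀ ≤ M → ∀ N : ℕ, ∑ n ∈ Ico N (N + M), |u n| ≤ ε * M

end Pool.Agent.MP_4fffd4_nt.Odd

end

section

/- Definitions for the two-point Chowla conjecture in every degree. -/

set_option autoImplicit false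

namespace Pool.Agent.MP_4fffd4_nt.Odd

open Polynomial Finset Filter Topology
open scoped BigOperators

variable {F : Type*} [Field F]

/-- `W` splits into pieces of degree at most `hi`, one of which is a private prime of degree
above `4 * lo`. -/
def GoodS (ι : Type) [Fintype ι] (lo hi : ℕ) (W : F[X]) : Prop :=
  ∃ (l : F) (P : F[X]) (m : ι → F[X]), l ≠ 0 ∧ P.Monic ∧ Irreducible P ∧
    W = C l * P * ∏ j, m j ∧ 4 * lo < P.natDegree ∧ P.natDegree ≤ hi ∧
    ∀ j, (m j).Monic ∧ (m j).natDegree ≤ hi ∧ ¬ P ∣ m j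

/-- the derivative attached to the form `A * z + h` and the direction `B` -/
noncomputable def WA (p : ℕ) (B A h z : F[X]) : F[X] :=
  derivative (A ^ (p - 1) * B * (A * z + h))

variable [Fintype F]

variable (F) in
/-- good polynomials have positive density in every coset of derivatives -/
structure PosW (p : ℕ) (ι : Type) [Fintype ι] (δ : ℝ) (lo hi : ℕ → ℕ) : Prop where
  pos : 0 < δ
  lo_top : Tendsto lo atTop atTop
  hi_le : ∀ c : ℕ, ∀ᶠ M in atTop, hi M + c ≤ M / p
  dens : ∀ (Q : F[X]) (c : ℕ), Q ≠ 0 → ∀ᶠ M in atTop, ∀ (D₀ : F[X]) (ν : ℕ),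
    D₀.natDegree = M → ν + p * Q.natDegree ≤ M → M ≤ ν + c →
    δ ≤ 𝔼 v ∈ ltF F ν, ind (GoodS ι (lo M) (hi M) (D₀ + Q ^ p * derivative v))

/-- the error in the probability that `e` divides -/
noncomputable def er (ν : ℕ) (Q D₀ e : F[X]) : ℝ :=
  |(𝔼 v ∈ ltF F ν, ind (e ∣ D₀ + Q * derivative v)) - 1 / (Fintype.card F : ℝ) ^ e.natDegree|

variable (F) in
/-- the sum of the reciprocals of the norms of the primes in an interval of degrees -/
noncomputable def LL (a b : ℕ) : ℝ := ∑ P ∈ prmI F a b, 1 / (Fintype.card F : ℝ) ^ P.natDegree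

/-- the width of the narrow windows -/
def yy (K p M : ℕ) : ℕ := tt p M / K

variable (F) in
/-- one prime from each of the first `r` wide windows -/
noncomputable def T3 (p M r : ℕ) : Finset (Fin r → F[X]) :=
  Fintype.piFinset fun j => prmI F (M / p / 3 - (j + 2) * tt p M) (M / p / 3 - (j + 1) * tt p M)

variable (F) in
/-- the narrow window for the last prime -/
noncomputable def lastW (K p M S : ℕ) : Finset F[X] :=
  prmI F (M - M / p - 3 * yy K p M - S) (M - M / p - 2 * yy K p M - S)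

variable (F) in
/-- the narrow window for the large prime -/
noncomputable def bigW (K p M : ℕ) : Finset F[X] :=
  prmI F (M / p - yy K p M) (M / p + 3 * yy K p M)

/-- the index set of the pieces -/
abbrev SI (p : ℕ) : Type := Fin (3 * p - 4) ⊕ Fin 3

end Pool.Agent.MP_4fffd4_nt.Odd

end

section

/- The real Jacobi symbol. -/

set_option autoImplicit false

namespace Pool.Agent.MP_4fffd4_nt.Odd

open Polynomial Finset Filter Topology
open scoped BigOperators

variable {F : Type*} [Field F] [Fintype F] {p : ℕ} [Fact p.Prime] [CharP F p]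

open Classical in
/-- the quadratic character with real values -/
noncomputable def xjacEta (a : F) : ℝ := ((quadraticChar F a : ℤ) : ℝ)

theorem xjacEta_coe (a : F) : (xjacEta a : ℂ) = MP_dd7250_nt.eta F a := by
  simp [xjacEta, MP_dd7250_nt.eta]

theorem xjacEta_tri (a : F) : xjacEta a = 0 ∨ xjacEta a = 1 ∨ xjacEta a = -1 := by
  classical
  unfold xjacEta
  rcases quadraticChar_isQuadratic F a with h | h | h <;> rw [h] <;> simp

theorem xjacEta_abs (a : F) : |xjacEta a| ≤ 1 := by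
  rcases xjacEta_tri a with h | h | h <;> rw [h] <;> simp

theorem xjacEta_zero_iff (a : F) : xjacEta a = 0 ↔ a = 0 := by
  classical
  unfold xjacEta
  rw [Int.cast_eq_zero, quadraticChar_eq_zero_iff]

omit [Fintype F] in
theorem xjac_char (hp : p ≠ 2) : ringChar F ≠ 2 := by
  rw [ringChar.eq F p]; exact hp

theorem xjac_coe (hp : p ≠ 2) (D : F[X]) {f : F[X]} (hf : f.Monic) :
    (jr D f : ℂ) = MP_dd7250_nt.jac D f := by
  rw [MP_dd7250_nt.jac_eq_eta (xjac_char hp) D hf, ← xjacEta_coe]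
  rfl

theorem abs_jr_le (D f : F[X]) : |jr D f| ≤ 1 := by
  exact xjacEta_abs _

theorem jr_mul_left (hp : p ≠ 2) (D E : F[X]) {f : F[X]} (hf : f.Monic) :
    jr (D * E) f = jr D f * jr E f := by
  apply Complex.ofReal_injective
  rw [Complex.ofReal_mul, xjac_coe hp _ hf, xjac_coe hp _ hf, xjac_coe hp _ hf,
    MP_dd7250_nt.jac_mul_left (xjac_char hp) D E hf]

theorem xjac_one (hp : p ≠ 2) {f : F[X]} (hf : f.Monic) : jr 1 f = 1 := by
  apply Complex.ofReal_injective
  rw [xjac_coe hp _ hf, MP_dd7250_nt.jac_one_left hf, Complex.ofReal_one]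

theorem jr_prod_left (hp : p ≠ 2) {ι : Type*} (s : Finset ι) (D : ι → F[X]) {f : F[X]}
    (hf : f.Monic) : jr (∏ i ∈ s, D i) f = ∏ i ∈ s, jr (D i) f := by
  classical
  induction s using Finset.induction_on with
  | empty => simpa using xjac_one hp hf
  | insert a s ha ih => rw [prod_insert ha, prod_insert ha, jr_mul_left hp _ _ hf, ih]

theorem jr_congr (hp : p ≠ 2) {D E f : F[X]} (hf : f.Monic) (h : f ∣ D - E) :
    jr D f = jr E f := by
  apply Complex.ofReal_injective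
  rw [xjac_coe hp _ hf, xjac_coe hp _ hf, MP_dd7250_nt.jac_congr hf h]

theorem jr_pow_char (hp : p ≠ 2) (D : F[X]) {f : F[X]} (hf : f.Monic) :
    jr (D ^ p) f = jr D f := by
  have h1 : jr (D ^ p) f = jr D f ^ p := by
    have := jr_prod_left hp (range p) (fun _ => D) hf
    rwa [prod_const, prod_const, card_range] at this
  have hpp : p.Prime := Fact.out
  have ho : Odd p := hpp.odd_of_ne_two hp
  have h2 : jr D f = xjacEta (resultant f D) := rfl
  rw [h1, h2]
  rcases xjacEta_tri (resultant f D) with h | h | h <;> rw [h]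
  · exact zero_pow hpp.ne_zero
  · exact one_pow _
  · exact ho.neg_one_pow

theorem jr_mul_self (hp : p ≠ 2) {D f : F[X]} (hf : f.Monic) :
    jr D f * jr D f = ind (IsCoprime D f) := by
  have _ := hp
  have h2 : jr D f = xjacEta (resultant f D) := rfl
  have h3 : xjacEta (resultant f D) = 0 ↔ ¬ IsCoprime D f := by
    rw [xjacEta_zero_iff, resultant_eq_zero_iff, isCoprime_comm]
    exact and_iff_right (Or.inl hf.ne_zero)
  rw [h2]
  by_cases hc : IsCoprime D f
  · rw [ind_pos hc]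
    rcases xjacEta_tri (resultant f D) with h | h | h
    · exact absurd hc (h3.1 h)
    · rw [h, one_mul]
    · rw [h, neg_mul_neg, one_mul]
  · rw [ind_neg hc, h3.2 hc, zero_mul]

/-- constants -/
theorem jr_C (hp : p ≠ 2) (c : F) : ∃ s : ℕ → ℝ, (∀ n, |s n| ≤ 1) ∧
    ∀ f : F[X], f.Monic → jr (C c) f = s f.natDegree := by
  refine ⟨fun n => xjacEta c ^ n, fun n => ?_, fun f hf => ?_⟩
  · rw [abs_pow]; exact pow_le_one₀ (abs_nonneg _) (xjacEta_abs c)
  · apply Complex.ofReal_injective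
    rw [xjac_coe hp _ hf, MP_dd7250_nt.jac_C (xjac_char hp) c hf, Complex.ofReal_pow, xjacEta_coe]

/-- reciprocity -/
theorem jr_recip (hp : p ≠ 2) : ∃ s : ℕ → ℕ → ℝ, (∀ m n, |s m n| ≤ 1) ∧
    ∀ D f : F[X], D.Monic → f.Monic → jr D f = s D.natDegree f.natDegree * jr f D := by
  refine ⟨fun m n => xjacEta (-1 : F) ^ (m * n), fun m n => ?_, fun D f hD hf => ?_⟩
  · rw [abs_pow]; exact pow_le_one₀ (abs_nonneg _) (xjacEta_abs _)
  · apply Complex.ofReal_injective
    rw [Complex.ofReal_mul, xjac_coe hp _ hf, xjac_coe hp _ hD,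
      MP_dd7250_nt.jac_recip (xjac_char hp) hD hf, Complex.ofReal_pow, xjacEta_coe]

end Pool.Agent.MP_4fffd4_nt.Odd

end

section

/- Complete character sums and the number of primes. -/

set_option autoImplicit false

namespace Pool.Agent.MP_4fffd4_nt.Odd

open Polynomial Finset Filter Topology
open scoped BigOperators

theorem xweil_avg {G K : Type*} [AddCommGroup G] [Fintype G] [AddCommGroup K] [Fintype K]
    (φ : G →+ K) (hφ : Function.Surjective φ) (f : K → ℝ) : 𝔼 v, f (φ v) = 𝔼 x, f x := by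
  have h1 : ∀ x, 𝔼 v, f (φ v) = 𝔼 v, f (φ v + x) := fun x => by
    obtain ⟨w, rfl⟩ := hφ x
    exact (Fintype.expect_equiv (Equiv.addRight w) _ _ fun v => by simp).symm
  have h2 : ∀ y, 𝔼 x, f (y + x) = 𝔼 x, f x := fun y =>
    Fintype.expect_equiv (Equiv.addLeft y) _ _ fun v => rfl
  calc 𝔼 v, f (φ v) = 𝔼 x, 𝔼 v, f (φ v + x) := by simp only [← h1, Fintype.expect_const]
    _ = _ := by rw [expect_comm]; simp only [h2, Fintype.expect_const]

open MP_dd7250_nt (eta prD mem_prD jac weil_sqfree jac_eq_eta qp jac_leg_eta leg weil_full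
  weil_rest)
open MP_d232b3_nt (VV card_VV)

theorem xweil_field {K : Type*} [Field K] [Fintype K] (hK : ringChar K ≠ 2) {ι : Type*}
    [Fintype ι] [Nonempty ι] {c : ι → K} (hc : Function.Injective c) :
    ‖∑ a : K, ∏ i, eta K (a + c i)‖ ≤ Fintype.card ι * √(Fintype.card K : ℝ) := by
  classical
  have hm : (∏ i, (X - C (-c i)) : K[X]).Monic := monic_prod_of_monic _ _ fun _ _ => monic_X_sub_C _
  have hd : (∏ i, (X - C (-c i)) : K[X]).natDegree = Fintype.card ι := by
    rw [natDegree_prod_of_monic _ _ fun _ _ => monic_X_sub_C _]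
    simp only [natDegree_X_sub_C, sum_const, card_univ, smul_eq_mul, mul_one]
  have h := weil_sqfree hK hm (separable_prod_X_sub_C_iff.2 (neg_injective.comp hc)).squarefree
    (hd ▸ Fintype.card_pos) 1
  have e : prD K 1 = univ.image fun a : K => X - C a := by
    ext f
    simp only [mem_prD, mem_image, mem_univ, true_and]
    refine ⟨fun ⟨h1, _, h2⟩ => ⟨-f.coeff 0, ?_⟩, ?_⟩
    · rw [map_neg, sub_neg_eq_add, ← h1.eq_X_add_C h2]
    · rintro ⟨a, rfl⟩
      exact ⟨monic_X_sub_C a, irreducible_X_sub_C a, natDegree_X_sub_C a⟩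
  rw [e, sum_image fun a _ b _ h => C_injective (sub_right_injective h), hd, qp, Nat.cast_one,
    ← Real.sqrt_eq_rpow] at h
  refine le_of_eq_of_le (congrArg _ (sum_congr rfl fun a _ => ?_)) h
  rw [jac_eq_eta hK _ (monic_X_sub_C a), natDegree_X_sub_C, resultant_X_sub_C_left _ _ _ le_rfl]
  simp [MP_dd7250_nt.eta, eval_prod]

variable {F : Type*} [Field F] [Fintype F] {p : ℕ} [Fact p.Prime] [CharP F p]

theorem weil_box (hp : p ≠ 2) {ι : Type*} [Fintype ι] [Nonempty ι] {P : F[X]} (hP : P.Monic)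
    (hPi : Irreducible P) {N : ℕ} (hN : P.natDegree ≤ N) (c : ι → F[X])
    (hc : ∀ i j, P ∣ c i - c j → i = j) :
    |𝔼 v : degreeLT F N, ∏ i, jr (v.1 + c i) P| ≤
      Fintype.card ι / √((Fintype.card F : ℝ) ^ P.natDegree) := by
  classical
  have hF : ringChar F ≠ 2 := by rwa [ringChar.eq F p]
  have : Fact (Irreducible P) := ⟨hPi⟩
  let pb := AdjoinRoot.powerBasis' hP
  have : Module.Finite F (AdjoinRoot P) := pb.finite
  have : Finite (AdjoinRoot P) := Module.finite_of_finite F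
  let _ : Fintype (AdjoinRoot P) := Fintype.ofFinite _
  have hcard : Fintype.card (AdjoinRoot P) = Fintype.card F ^ P.natDegree := by
    rw [Module.card_eq_pow_finrank (K := F), pb.finrank]
    rfl
  have hL : ringChar (AdjoinRoot P) ≠ 2 := by rwa [← Algebra.ringChar_eq F (AdjoinRoot P)]
  have h1 : ∀ D, jr D P = (eta (AdjoinRoot P) (AdjoinRoot.mk P D)).re := fun D => by
    have e1 : jr D P = (eta F (resultant P D)).re := by
      simp only [jr, MP_dd7250_nt.eta, Complex.intCast_re]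
    have e2 : IsSquare (AdjoinRoot.mk P D) ↔ ∃ y : F[X], P ∣ y ^ 2 - D := by
      constructor
      · rintro ⟨z, hz⟩
        obtain ⟨y, rfl⟩ := AdjoinRoot.mk_surjective z
        exact ⟨y, AdjoinRoot.mk_eq_mk.1 (by rw [pow_two, map_mul, hz])⟩
      · rintro ⟨y, hy⟩
        exact ⟨AdjoinRoot.mk P y, by
          rw [← map_mul, ← pow_two]; exact (AdjoinRoot.mk_eq_mk.2 hy).symm⟩
    rw [e1, ← jac_leg_eta hF D hP hPi, leg, MP_dd7250_nt.eta, quadraticChar_apply,
      quadraticCharFun]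
    simp only [AdjoinRoot.mk_eq_zero, e2]
    split_ifs <;> simp
  have h2 := xweil_avg (G := degreeLT F N)
    ((AdjoinRoot.mk P).toAddMonoidHom.comp (degreeLT F N).subtype.toAddMonoidHom)
    (fun x => by
      obtain ⟨x, rfl⟩ := AdjoinRoot.mk_surjective x
      refine ⟨⟨x %ₘ P, mem_degreeLT.2 ((degree_modByMonic_lt x hP).trans_le
        (degree_le_natDegree.trans (Nat.cast_le.2 hN)))⟩, AdjoinRoot.mk_eq_mk.2 ?_⟩
      exact ⟨-(x /ₘ P), by
        change x %ₘ P - x = _
        linear_combination modByMonic_add_div x P⟩)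
    fun a => ∏ i, (eta (AdjoinRoot P) (a + AdjoinRoot.mk P (c i))).re
  have h3 := xweil_field hL (c := fun i => AdjoinRoot.mk P (c i))
    fun i j h => hc i j (AdjoinRoot.mk_eq_mk.1 h)
  have h4 : ∀ a, ∏ i, (eta (AdjoinRoot P) (a + AdjoinRoot.mk P (c i))).re =
      (∏ i, eta (AdjoinRoot P) (a + AdjoinRoot.mk P (c i))).re := fun a => by
    simp only [MP_dd7250_nt.eta, Complex.intCast_re, ← Int.cast_prod]
  have h5 : (0 : ℝ) < Fintype.card (AdjoinRoot P) := Nat.cast_pos.2 Fintype.card_pos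
  simp only [h1, map_add]
  refine (congrArg _ h2).trans_le ?_
  simp only [h4]
  rw [Fintype.expect_eq_sum_div_card, ← Complex.re_sum, abs_div, abs_of_pos h5, ← Nat.cast_pow,
    ← hcard, div_le_iff₀ h5]
  refine ((Complex.abs_re_le_norm _).trans h3).trans_eq ?_
  rw [div_mul_eq_mul_div, mul_div_assoc, Real.div_sqrt]

/-- `p`-th roots modulo a prime -/
theorem exists_root_mod {P : F[X]} (hP : P.Monic) (hPi : Irreducible P) (z : F[X]) :
    ∃ ρ : F[X], P ∣ z - ρ ^ p := by
  have : Fact (Irreducible P) := ⟨hPi⟩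
  have : Module.Finite F (AdjoinRoot P) := (AdjoinRoot.powerBasis' hP).finite
  have : Finite (AdjoinRoot P) := Module.finite_of_finite F
  have : CharP (AdjoinRoot P) p :=
    charP_of_injective_algebraMap (algebraMap F (AdjoinRoot P)).injective p
  obtain ⟨r, hr⟩ := Finite.injective_iff_surjective.1 (frobenius (AdjoinRoot P) p).injective
    (AdjoinRoot.mk P z)
  obtain ⟨ρ, rfl⟩ := AdjoinRoot.mk_surjective r
  exact ⟨ρ, AdjoinRoot.mk_eq_mk.1 (by rw [← hr, map_pow, frobenius_def])⟩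

open Classical in
theorem xweil_card {d : ℕ} (hd : d ≠ 0) : d * (prm F d).card +
    ((VV F d).filter fun x => ¬ (minpoly F x).natDegree = d).card = Fintype.card F ^ d := by
  have e : prD F d = prm F d := by ext; rw [mem_prD, mem_prm]
  have h := weil_full (F := F) (fun _ => 1) hd
  simp only [sum_const, nsmul_one, e] at h
  rw [← card_VV hd, ← card_filter_add_card_filter_not (s := VV F d)
    fun x => (minpoly F x).natDegree = d, add_left_inj]
  exact_mod_cast h.symm

omit [Fact p.Prime] [CharP F p] in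
theorem card_prm_le {d : ℕ} (hd : d ≠ 0) : d * (prm F d).card ≤ Fintype.card F ^ d :=
  Nat.le.intro (xweil_card hd)

omit [Fact p.Prime] [CharP F p] in
theorem card_prm_ge : ∀ᶠ d in atTop, Fintype.card F ^ d ≤ 2 * d * (prm F d).card := by
  have h0 := (tendsto_pow_const_div_const_pow_of_one_lt 2 (one_lt_two (α := ℝ))).eventually_lt_const
    (show (0 : ℝ) < 1 / 4 by norm_num)
  filter_upwards [h0, eventually_ne_atTop 0] with d h1 hd
  have h2 := xweil_card (F := F) hd
  have h3 := weil_rest (F := F) hd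
  have h4 : qp F (d / 2) ^ 2 = (Fintype.card F : ℝ) ^ d := by
    rw [MP_dd7250_nt.qp_pow, ← MP_dd7250_nt.qp_nat]; congr 1; push_cast; ring
  have h5 : (2 : ℝ) ^ d ≤ (Fintype.card F : ℝ) ^ d := pow_le_pow_left₀ two_pos.le two_le_card d
  have h6 := MP_dd7250_nt.qp_pos (F := F) (d / 2)
  rw [div_lt_iff₀ (by positivity)] at h1
  have h7 : 2 * (d : ℝ) ≤ qp F (d / 2) := abs_le_of_sq_le_sq' (by nlinarith) h6.le |>.2
  have h8 := congrArg (Nat.cast : ℕ → ℝ) h2
  rw [← Nat.cast_le (α := ℝ)]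
  push_cast at h8 ⊢
  nlinarith

end Pool.Agent.MP_4fffd4_nt.Odd

end

section

/- Short character sums modulo a prime. -/

set_option autoImplicit false

namespace Pool.Agent.MP_4fffd4_nt.Odd

open Polynomial Finset Filter Topology
open scoped BigOperators

variable {F : Type*} [Field F] [Fintype F] {p : ℕ} [Fact p.Prime] [CharP F p]

omit [Fact p.Prime] [CharP F p] in
theorem xshort_cnt {P : F[X]} (hP : P.Monic) (t : F[X]) {N m : ℕ} (hm : m ≤ N)
    (hd : m ≤ P.natDegree) :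
    ∑ k ∈ ltF F N, ind (P ∣ t - k) ≤ (Fintype.card F : ℝ) ^ N / Fintype.card F ^ m := by
  have hq := card_pos' (F := F)
  have h1 : ∀ s : F[X], ∑ w ∈ ltF F m, ind (P ∣ s - w) ≤ 1 := fun s => by
    rw [sum_ltF]
    refine (sum_ind_le ({()} : Finset Unit) (fun _ => ()) (fun x y hx hy _ => ?_)
      fun _ _ => mem_singleton_self _).trans_eq (by simp)
    have h2 : P ∣ (x - y).1 := by simpa using dvd_sub hy hx
    refine sub_eq_zero.1 (Subtype.ext (eq_zero_of_dvd_of_degree_lt h2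
      ((mem_degreeLT.1 (x - y).2).trans_le ?_)))
    rw [degree_eq_natDegree hP.ne_zero]
    exact_mod_cast hd
  rw [le_div_iff₀ (by positivity)]
  calc _ = ∑ w ∈ ltF F m, ∑ k ∈ ltF F N, ind (P ∣ t - (k + w)) := by
        rw [Finset.sum_congr rfl fun w hw => sum_ltF_add ((mem_ltF.1 hw).trans_le
          (by exact_mod_cast hm)) fun k => ind (P ∣ t - k), Finset.sum_const, card_ltF,
          nsmul_eq_mul, Nat.cast_pow, mul_comm]
    _ ≤ ∑ k ∈ ltF F N, (1 : ℝ) := by
        rw [Finset.sum_comm]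
        refine Finset.sum_le_sum fun k _ => ?_
        simp only [← sub_sub]
        exact h1 _
    _ = _ := by rw [Finset.sum_const, card_ltF, nsmul_eq_mul, Nat.cast_pow, mul_one]

omit [Fact p.Prime] [CharP F p] in
theorem xshort_sq (f : F[X] → ℝ) {N N' : ℕ} (h : N ≤ N') :
    (∑ v ∈ ltF F N, f v) ^ 2 ≤ ∑ k ∈ ltF F N, ∑ x ∈ ltF F N', f x * f (x + k) := by
  have hq := card_pos' (F := F)
  refine le_of_mul_le_mul_left (a := (Fintype.card F : ℝ) ^ N) ?_ (by positivity)
  calc _ = ∑ x ∈ ltF F N, (∑ v ∈ ltF F N, f (v + x)) ^ 2 := by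
        symm
        rw [Finset.sum_congr rfl fun x hx => by rw [sum_ltF_add (mem_ltF.1 hx) f],
          Finset.sum_const, card_ltF, nsmul_eq_mul, Nat.cast_pow]
    _ ≤ ∑ x ∈ ltF F N', (∑ v ∈ ltF F N, f (v + x)) ^ 2 :=
        Finset.sum_le_sum_of_subset_of_nonneg (fun x hx => mem_ltF.2 ((mem_ltF.1 hx).trans_le
          (by exact_mod_cast h))) fun _ _ _ => sq_nonneg _
    _ = ∑ v ∈ ltF F N, ∑ k ∈ ltF F N, ∑ x ∈ ltF F N', f x * f (x + k) := by
        simp only [sq, Finset.sum_mul_sum]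
        rw [Finset.sum_comm]
        refine Finset.sum_congr rfl fun v hv => ?_
        rw [Finset.sum_comm, ← sum_ltF_add (mem_ltF.1 hv)]
        refine Finset.sum_congr rfl fun k _ => ?_
        rw [← sum_ltF_add ((mem_ltF.1 hv).trans_le (by exact_mod_cast h))
          fun x => f x * f (x + k)]
        refine Finset.sum_congr rfl fun x _ => ?_
        congr 2 <;> ring
    _ = _ := by rw [Finset.sum_const, card_ltF, nsmul_eq_mul, Nat.cast_pow]

theorem xshort_T (hp : p ≠ 2) {ι : Type*} [Fintype ι] [Nonempty ι] {P : F[X]} (hP : P.Monic)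
    (hPi : Irreducible P) {N : ℕ} (hN : P.natDegree ≤ N)
    (c : ι → F[X]) (hc : ∀ i j, P ∣ c i - c j → i = j) (k : F[X]) :
    ∑ x ∈ ltF F N, (∏ i, jr (x + c i) P) * ∏ i, jr (x + k + c i) P ≤ (Fintype.card F : ℝ) ^ N *
      (2 * Fintype.card ι / √((Fintype.card F : ℝ) ^ P.natDegree) +
        ∑ ij : ι × ι, ind (P ∣ c ij.1 - c ij.2 - k)) := by
  have hq := card_pos' (F := F)
  have h0 : 0 ≤ ∑ ij : ι × ι, ind (P ∣ c ij.1 - c ij.2 - k) :=
    Finset.sum_nonneg fun _ _ => ind_nonneg _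
  rw [mul_comm, ← div_le_iff₀ (by positivity), ← expect_ltF_eq]
  by_cases h : ∃ ij : ι × ι, P ∣ c ij.1 - c ij.2 - k
  · have h1 := ind_le_sum (s := univ) (P := True) (Q := fun ij : ι × ι => P ∣ c ij.1 - c ij.2 - k)
      fun _ => by simpa only [mem_univ, true_and] using h
    rw [ind_pos trivial] at h1
    refine (expect_le (ltF_nonempty N) (a := 1) fun x _ => (le_abs_self _).trans ?_).trans
      (h1.trans (le_add_of_nonneg_left (by positivity)))
    rw [abs_mul, Finset.abs_prod, Finset.abs_prod]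
    exact mul_le_one₀ (Finset.prod_le_one (fun _ _ => abs_nonneg _) fun _ _ => abs_jr_le _ _)
      (Finset.prod_nonneg fun _ _ => abs_nonneg _)
      (Finset.prod_le_one (fun _ _ => abs_nonneg _) fun _ _ => abs_jr_le _ _)
  · have h1 := weil_box hp hP hPi hN (Sum.elim c fun i => k + c i) (by
      rintro (i | i) (j | j) hij
      · rw [hc i j hij]
      · exact absurd ⟨(i, j), by convert hij using 1; simp only [Sum.elim_inl, Sum.elim_inr]; ring⟩ h
      · exact absurd ⟨(j, i), by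
          convert hij.neg_right using 1; simp only [Sum.elim_inl, Sum.elim_inr]; ring⟩ h
      · rw [hc i j (by simpa using hij)])
    simp only [Fintype.prod_sum_type, Sum.elim_inl, Sum.elim_inr, Fintype.card_sum, ← add_assoc,
      ← two_mul, Nat.cast_mul, Nat.cast_ofNat] at h1
    rw [expect_ltF]
    exact ((le_abs_self _).trans h1).trans (le_add_of_nonneg_right h0)

theorem weil_short (hp : p ≠ 2) {ι : Type*} [Fintype ι] [Nonempty ι] {P : F[X]} (hP : P.Monic)
    (hPi : Irreducible P) {N lo : ℕ} (hN : P.natDegree ≤ N + lo) (hlo : 4 * lo < P.natDegree)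
    (c : ι → F[X]) (hc : ∀ i j, P ∣ c i - c j → i = j) :
    |𝔼 v : degreeLT F N, ∏ i, jr (v.1 + c i) P| ≤
      2 * Fintype.card ι / √((Fintype.card F : ℝ) ^ lo) := by
  have hq := card_pos' (F := F)
  have hn : (1 : ℝ) ≤ Fintype.card ι := by exact_mod_cast Fintype.card_pos
  have h1 := xshort_sq (fun x => ∏ i, jr (x + c i) P) (Nat.le_add_right N lo)
  have h2 := h1.trans (Finset.sum_le_sum fun k _ => xshort_T hp hP hPi hN c hc k)
  rw [← Finset.mul_sum, Finset.sum_add_distrib, Finset.sum_comm, Finset.sum_const, card_ltF,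
    nsmul_eq_mul, Nat.cast_pow] at h2
  have h3 := Finset.sum_le_card_nsmul univ _ _ fun (ij : ι × ι) _ =>
    xshort_cnt hP (c ij.1 - c ij.2) (N := N) (m := 2 * lo) (by omega) (by omega)
  rw [card_univ, Fintype.card_prod, nsmul_eq_mul, Nat.cast_mul] at h3
  have h4 : 2 * (Fintype.card ι : ℝ) / √((Fintype.card F : ℝ) ^ P.natDegree) ≤
      2 * Fintype.card ι / (Fintype.card F : ℝ) ^ (2 * lo) := by
    refine div_le_div_of_nonneg_left (by positivity) (by positivity) (Real.le_sqrt_of_sq_le ?_)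
    rw [← pow_mul]
    exact pow_le_pow_right₀ (one_le_two.trans two_le_card) (by omega)
  rw [← expect_ltF N fun x => ∏ i, jr (x + c i) P, expect_ltF_eq]
  refine abs_le_of_sq_le_sq ?_ (by positivity)
  rw [div_pow, div_pow, Real.sq_sqrt (by positivity), div_le_iff₀ (by positivity)]
  refine h2.trans ?_
  generalize (Fintype.card ι : ℝ) = n at *
  calc _ ≤ (Fintype.card F : ℝ) ^ (N + lo) * ((Fintype.card F : ℝ) ^ N *
          (2 * n / (Fintype.card F : ℝ) ^ (2 * lo)) +
        n * n * ((Fintype.card F : ℝ) ^ N / (Fintype.card F : ℝ) ^ (2 * lo))) := by gcongr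
    _ = (2 * n + n * n) / (Fintype.card F : ℝ) ^ lo * ((Fintype.card F : ℝ) ^ N) ^ 2 := by
        field_simp
        ring
    _ ≤ _ := by
        gcongr
        nlinarith

end Pool.Agent.MP_4fffd4_nt.Odd

end

section

/- The box inequality and the box sum of a quadratic character. -/

set_option autoImplicit false

namespace Pool.Agent.MP_4fffd4_nt.Odd

open Polynomial Finset Filter Topology
open scoped BigOperators

theorem xbox_jensen {α : Type*} [Fintype α] [Nonempty α] (f : α → ℝ) (hf : ∀ x, 0 ≤ f x)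
    (k : ℕ) : (𝔼 x, f x) ^ 2 ^ k ≤ 𝔼 x, f x ^ 2 ^ k := by
  induction k with
  | zero => simp
  | succ k ih =>
    simp only [pow_succ 2 k, pow_mul]
    exact (pow_le_pow_left₀ (pow_nonneg (Finset.expect_nonneg fun x _ => hf x) _) ih 2).trans
      (sq_expect_le _)

theorem xbox_step {G H : Type*} [AddCommGroup G] [Fintype G] [AddCommGroup H] [Fintype H]
    (θ : H →+ G) (g t : G → ℝ) (ht : ∀ x, |t x| ≤ 1) (hinv : ∀ x h, t (x + θ h) = t x) :
    (𝔼 x, g x * t x) ^ 2 ≤ 𝔼 u, 𝔼 x, g x * g (x + θ u) := by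
  rw [expect_avg (fun x => g x * t x) θ]
  simp only [hinv, ← Finset.expect_mul]
  refine (sq_expect_le _).trans ((Finset.expect_le_expect
    (g := fun x => (𝔼 u, g (x + θ u)) ^ 2) fun x _ => ?_).trans_eq ?_)
  · rw [mul_pow]
    exact mul_le_of_le_one_right (sq_nonneg _) ((sq_le_one_iff_abs_le_one _).2 (ht x))
  simp only [sq, Fintype.expect_mul_expect]
  rw [Finset.expect_comm]
  have : ∀ u, 𝔼 x, 𝔼 u', g (x + θ u) * g (x + θ u') = 𝔼 u', 𝔼 x, g x * g (x + θ u') := by
    intro u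
    rw [Finset.expect_comm, ← expect_shift (fun u' => 𝔼 x, g (x + θ u) * g (x + θ u')) u]
    refine Finset.expect_congr rfl fun u' _ => ?_
    rw [← expect_shift (fun x => g x * g (x + θ u')) (θ u)]
    simp only [map_add, add_assoc, add_comm (θ u)]
  simp only [this]
  rw [Fintype.expect_const]

theorem xbox_ineq {G H J : Type*} [AddCommGroup G] [Fintype G] [AddCommGroup H] [Fintype H]
    [Fintype J] [DecidableEq J] (θ : J → H →+ G) (s : Finset J) :
    ∀ (T₀ : G → ℝ) (T : J → G → ℝ), (∀ j x, |T j x| ≤ 1) → (∀ j x h, T j (x + θ j h) = T j x) →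
    |𝔼 x, T₀ x * ∏ j ∈ s, T j x| ^ 2 ^ s.card ≤
      𝔼 h : J → H, |𝔼 x, ∏ ω ∈ s.powerset, T₀ (x + ∑ j ∈ ω, θ j (h j))| := by
  induction s using Finset.induction with
  | empty => intro T₀ T _ _; simp
  | insert a s ha IH =>
    intro T₀ T hT hinv
    have h1 := xbox_step (θ a) (fun x => T₀ x * ∏ j ∈ s, T j x) (T a) (hT a) (hinv a)
    have h2 : 𝔼 x, T₀ x * ∏ j ∈ insert a s, T j x = 𝔼 x, (T₀ x * ∏ j ∈ s, T j x) * T a x :=
      Finset.expect_congr rfl fun x _ => by rw [prod_insert ha]; ring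
    rw [card_insert_of_notMem ha, pow_succ', pow_mul, sq_abs, h2]
    refine (pow_le_pow_left₀ (sq_nonneg _) (h1.trans (Finset.expect_le_expect fun u _ =>
      le_abs_self _)) _).trans ((xbox_jensen _ (fun u => abs_nonneg _) _).trans ?_)
    have h3 : ∀ u, |𝔼 x, (T₀ x * ∏ j ∈ s, T j x) * (T₀ (x + θ a u) * ∏ j ∈ s, T j (x + θ a u))| ^
        2 ^ s.card ≤ 𝔼 h : J → H, |𝔼 x, ∏ ω ∈ s.powerset,
          T₀ (x + ∑ j ∈ ω, θ j (h j)) * T₀ (x + ∑ j ∈ ω, θ j (h j) + θ a u)| := by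
      intro u
      refine le_trans (le_of_eq ?_) (IH (fun x => T₀ x * T₀ (x + θ a u))
        (fun j x => T j x * T j (x + θ a u)) (fun j x => ?_) fun j x h => ?_)
      · congr 2
        refine Finset.expect_congr rfl fun x _ => ?_
        rw [prod_mul_distrib]
        ring
      · rw [abs_mul]
        exact mul_le_one₀ (hT _ _) (abs_nonneg _) (hT _ _)
      · rw [hinv, add_right_comm, hinv]
    refine (Finset.expect_le_expect fun u _ => h3 u).trans_eq ?_
    rw [Finset.expect_comm, expect_avg (fun h : J → H => |𝔼 x, ∏ ω ∈ (insert a s).powerset,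
      T₀ (x + ∑ j ∈ ω, θ j (h j))|) (fun u : H => Pi.single a u)]
    refine Finset.expect_congr rfl fun h _ => ?_
    rw [← expect_shift (fun u => |𝔼 x, ∏ ω ∈ s.powerset,
      T₀ (x + ∑ j ∈ ω, θ j (h j)) * T₀ (x + ∑ j ∈ ω, θ j (h j) + θ a u)|) (h a)]
    refine Finset.expect_congr rfl fun u _ => ?_
    congr 1
    refine Finset.expect_congr rfl fun x _ => ?_
    rw [prod_powerset_insert ha, ← prod_mul_distrib]
    refine prod_congr rfl fun ω hω => ?_
    have h4 : a ∉ ω := fun e => ha (mem_powerset.1 hω e)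
    have h5 : ∑ j ∈ ω, θ j ((h + Pi.single a u : J → H) j) = ∑ j ∈ ω, θ j (h j) :=
      sum_congr rfl fun j hj => by
        rw [Pi.add_apply, Pi.single_eq_of_ne (fun e : j = a => h4 (e ▸ hj)), add_zero]
    rw [sum_insert h4, h5, Pi.add_apply, Pi.single_eq_same, add_comm u, add_assoc,
      add_comm (θ a _)]

theorem box_ineq {G H J : Type*} [AddCommGroup G] [Fintype G] [AddCommGroup H] [Fintype H]
    [Fintype J] [DecidableEq J] (θ : J → H →+ G) (T₀ : G → ℝ) (T : J → G → ℝ)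
    (hT : ∀ j x, |T j x| ≤ 1) (hinv : ∀ j x h, T j (x + θ j h) = T j x) :
    |𝔼 x, T₀ x * ∏ j, T j x| ^ 2 ^ Fintype.card J ≤
      𝔼 h : J → H, |𝔼 x, ∏ ω ∈ (univ : Finset J).powerset, T₀ (x + ∑ j ∈ ω, θ j (h j))| := by
  exact xbox_ineq θ univ T₀ T hT hinv

theorem xbox_one {α : Type*} [Fintype α] {Q : α → Prop} (h : ∀ x y, Q x → Q y → x = y) :
    𝔼 x, ind (Q x) ≤ 1 / Fintype.card α := by
  rw [Fintype.expect_eq_sum_div_card]
  refine div_le_div_of_nonneg_right ?_ (Nat.cast_nonneg _)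
  simpa using sum_ind_le {()} (fun _ => ()) (fun x y hx hy _ => h x y hx hy) fun _ _ => by simp

variable {F : Type*} [Field F] [Fintype F] {p : ℕ} [Fact p.Prime] [CharP F p]

theorem xbox_prob {J : Type*} [Fintype J] [DecidableEq J] {P : F[X]} (hPi : Irreducible P)
    {L : ℕ} (hL : L ≤ P.natDegree) (μ : J → F[X]) (hμ : ∀ j, ¬ P ∣ μ j) (ω ω' : Finset J) :
    𝔼 h : J → degreeLT F L,
      ind (ω ≠ ω' ∧ P ∣ ∑ j ∈ ω, μ j * (h j).1 - ∑ j ∈ ω', μ j * (h j).1) ≤
      1 / (Fintype.card F : ℝ) ^ L := by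
  by_cases hω : ω = ω'
  · simp only [hω, ne_eq, not_true, false_and, ind_neg, not_false_iff, expect_const_zero]
    positivity
  obtain ⟨a, ha⟩ : ∃ a, ¬ (a ∈ ω ↔ a ∈ ω') := not_forall.1 fun h => hω (Finset.ext h)
  rw [expect_avg (fun h : J → degreeLT F L =>
    ind (ω ≠ ω' ∧ P ∣ ∑ j ∈ ω, μ j * (h j).1 - ∑ j ∈ ω', μ j * (h j).1))
    (fun u : degreeLT F L => Pi.single a u)]
  refine Finset.expect_le univ_nonempty fun h _ => ?_
  have h1 : ∀ (u : degreeLT F L) (s : Finset J),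
      ∑ j ∈ s, μ j * ((h + Pi.single a u : J → degreeLT F L) j).1 =
        ∑ j ∈ s, μ j * (h j).1 + if a ∈ s then μ a * u.1 else 0 := by
    intro u s
    rw [← sum_ite_eq' s a fun _ => μ a * u.1, ← sum_add_distrib]
    refine sum_congr rfl fun j _ => ?_
    by_cases hj : j = a
    · simp [hj, mul_add]
    · simp [hj]
  refine (xbox_one fun u u' hu hu' => ?_).trans_eq (by rw [card_degreeLT, Nat.cast_pow])
  have h2 := dvd_sub hu.2 hu'.2
  simp only [h1] at h2
  have h3 : P ∣ μ a * (u - u').1 := by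
    by_cases h4 : a ∈ ω
    · have h5 : a ∉ ω' := fun h5 => ha (iff_of_true h4 h5)
      simp only [h4, h5, if_true, if_false] at h2
      convert h2 using 1
      rw [Submodule.coe_sub]
      ring
    · have h5 : a ∈ ω' := by_contra fun h5 => ha (iff_of_false h4 h5)
      simp only [h4, h5, if_true, if_false] at h2
      convert h2.neg_right using 1
      rw [Submodule.coe_sub]
      ring
  have h6 := eq_zero_of_dvd_of_degree_lt ((hPi.prime.dvd_or_dvd h3).resolve_left (hμ a))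
    ((mem_degreeLT.1 (u - u').2).trans_le (by
      rw [degree_eq_natDegree hPi.ne_zero]
      exact_mod_cast hL))
  exact sub_eq_zero.1 (Subtype.ext h6)

theorem local_box (hp : p ≠ 2) {J : Type*} [Fintype J] [DecidableEq J] {P : F[X]} (hP : P.Monic)
    (hPi : Irreducible P) {N L lo : ℕ} (hN : P.natDegree ≤ N + lo) (hlo : 4 * lo < P.natDegree)
    (hL : L ≤ P.natDegree) (ρ c : F[X]) (hc : ¬ P ∣ c) (μ : J → F[X]) (hμ : ∀ j, ¬ P ∣ μ j) :
    𝔼 h : J → degreeLT F L, |𝔼 v : degreeLT F N, ∏ ω ∈ (univ : Finset J).powerset,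
        jr (ρ + c * (v.1 + ∑ j ∈ ω, μ j * (h j).1)) P| ≤
      4 ^ Fintype.card J / (Fintype.card F : ℝ) ^ L +
        2 ^ (Fintype.card J + 1) / √((Fintype.card F : ℝ) ^ lo) := by
  obtain ⟨a, b, hab⟩ := hPi.coprime_iff_not_dvd.2 hc
  have h1 : ∀ y, jr (ρ + c * y) P = jr c P * jr (y + b * ρ) P := fun y => by
    rw [← jr_mul_left hp _ _ hP]
    exact jr_congr hp hP ⟨a * ρ, by linear_combination (-ρ) * hab⟩
  have key : ∀ h : J → degreeLT F L, |𝔼 v : degreeLT F N, ∏ ω ∈ (univ : Finset J).powerset,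
      jr (ρ + c * (v.1 + ∑ j ∈ ω, μ j * (h j).1)) P| ≤
      ∑ w : Finset J × Finset J,
        ind (w.1 ≠ w.2 ∧ P ∣ ∑ j ∈ w.1, μ j * (h j).1 - ∑ j ∈ w.2, μ j * (h j).1) +
        2 ^ (Fintype.card J + 1) / √((Fintype.card F : ℝ) ^ lo) := by
    intro h
    by_cases hbad : ∃ w ∈ (univ : Finset (Finset J × Finset J)),
        w.1 ≠ w.2 ∧ P ∣ ∑ j ∈ w.1, μ j * (h j).1 - ∑ j ∈ w.2, μ j * (h j).1
    · refine le_trans ?_ (add_le_add ((ind_pos trivial).symm.le.trans (ind_le_sum fun _ => hbad))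
        (show 0 ≤ _ by positivity))
      rw [add_zero]
      refine (Finset.abs_expect_le _ _).trans (Finset.expect_le univ_nonempty fun v _ => ?_)
      rw [abs_prod]
      exact prod_le_one (fun _ _ => abs_nonneg _) fun _ _ => abs_jr_le _ _
    refine le_trans ?_ (le_add_of_nonneg_left (Finset.sum_nonneg fun _ _ => ind_nonneg _))
    have h2 := weil_short hp hP hPi hN hlo (fun ω : Finset J => ∑ j ∈ ω, μ j * (h j).1 + b * ρ)
      fun ω ω' hd => by_contra fun hne => hbad ⟨(ω, ω'), mem_univ _, hne, by simpa using hd⟩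
    rw [Fintype.card_finset, Nat.cast_pow, Nat.cast_ofNat, ← pow_succ'] at h2
    simp only [h1, prod_mul_distrib, ← Finset.mul_expect, powerset_univ, add_assoc]
    rw [abs_mul, abs_prod]
    exact (mul_le_of_le_one_left (abs_nonneg _)
      (prod_le_one (fun _ _ => abs_nonneg _) fun _ _ => abs_jr_le _ _)).trans h2
  refine (Finset.expect_le_expect fun h _ => key h).trans ?_
  rw [Finset.expect_add_distrib, Fintype.expect_const, Finset.expect_sum_comm]
  refine add_le_add ((Finset.sum_le_card_nsmul _ _ _ fun w _ =>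
    xbox_prob hPi hL μ hμ w.1 w.2).trans_eq ?_) le_rfl
  rw [card_univ, Fintype.card_prod, Fintype.card_finset, nsmul_eq_mul, ← mul_pow]
  push_cast
  ring

end Pool.Agent.MP_4fffd4_nt.Odd

end

section

/- The formula of Pellet. -/

set_option autoImplicit false

namespace Pool.Agent.MP_4fffd4_nt.Odd

open Polynomial Finset Filter Topology
open scoped BigOperators

variable {F : Type*} [Field F] [Fintype F] {p : ℕ} [Fact p.Prime] [CharP F p]

theorem xpel_perm {K : Type*} [Field K] [Algebra F K] {w : F[X]} {n : ℕ} (a : Fin n → K)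
    (ha : Function.Injective a) (hw : w.map (algebraMap F K) = ∏ i, (X - C (a i))) :
    ∃ σ : Equiv.Perm (Fin n), ∀ i, a (σ i) = a i ^ Fintype.card F := by
  have h0 : ∀ x : K, aeval x w = 0 ↔ ∃ j, a j = x := fun x => by
    rw [← eval_map_algebraMap, hw, eval_prod, prod_eq_zero_iff]
    simp [sub_eq_zero, eq_comm]
  have h1 : ∀ i, ∃ j, a j = a i ^ Fintype.card F := fun i => (h0 _).1 (by
    have := aeval_algHom_apply (FiniteField.frobeniusAlgHom F K) (a i) w
    rw [(h0 _).2 ⟨i, rfl⟩, map_zero] at this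
    exact this)
  choose s hs using h1
  have hi : Function.Injective s := fun i j h =>
    ha ((FiniteField.frobeniusAlgHom F K).toRingHom.injective
      (show a i ^ Fintype.card F = a j ^ Fintype.card F by rw [← hs, ← hs, h]))
  exact ⟨Equiv.ofBijective s (Finite.injective_iff_bijective.1 hi), hs⟩

open Classical in
theorem xpel_int (hF : ringChar F ≠ 2) {w : F[X]} (hm : w.Monic) (hs : Squarefree w) :
    quadraticChar F ((sgn w.natDegree : F) * resultant w (derivative w)) =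
      (-1) ^ w.natDegree * liou w := by
  let K := AlgebraicClosure F
  have hsep : w.Separable := PerfectField.separable_iff_squarefree.2 hs
  obtain ⟨a, ha, hw⟩ := exists_roots (K := K) hm hsep rfl
  obtain ⟨σ, hσ⟩ := xpel_perm a ha hw
  rw [← sign_frob hm hsep a ha hw σ hσ]
  set δ := (Matrix.vandermonde a).det with hδ
  have h0 : δ ≠ 0 := Matrix.det_vandermonde_ne_zero_iff.2 ha
  have h1 : δ ^ Fintype.card F = ((Equiv.Perm.sign σ : ℤˣ) : ℤ) * δ := by
    rw [hδ, ← Matrix.det_permute]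
    refine ((FiniteField.frobeniusAlgHom F K).toRingHom.map_det _).trans ?_
    congr 1
    ext i j
    simp [Matrix.vandermonde_apply, hσ, ← pow_mul, mul_comm]
  have h2 : algebraMap F K (resultant w (derivative w)) = sgn w.natDegree * δ ^ 2 := by
    have e : (w.map (algebraMap F K)).natDegree = w.natDegree := natDegree_map _
    rw [← resultant_map_map, ← e, resultant_eq_prod_eval _ _ _ natDegree_map_le
      (IsAlgClosed.splits _), (hm.map _).leadingCoeff, one_pow, one_mul, e, ← prod_deriv_eq,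
      ← derivative_map, hw, prod_eq_multiset_prod univ fun i => X - C (a i),
      show (fun i => X - C (a i)) = (fun x => X - C x) ∘ a from rfl, ← Multiset.map_map,
      roots_multiset_prod_X_sub_C, Multiset.map_map]
    rfl
  have h3 : algebraMap F K ((sgn w.natDegree : F) * resultant w (derivative w)) = δ ^ 2 := by
    rw [map_mul, h2, map_intCast, ← mul_assoc, ← Int.cast_mul, sgn_sq, Int.cast_one, one_mul]
  have hq : 2 * (Fintype.card F / 2) + 1 = Fintype.card F := by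
    have := FiniteField.odd_card_of_char_ne_two hF
    omega
  refine Int.cast_injOn_of_ringChar_ne_two hF (quadraticChar_isQuadratic F _) ?_ ?_
  · rcases Int.units_eq_one_or (Equiv.Perm.sign σ) with h | h <;> simp [h]
  · apply (algebraMap F K).injective
    apply mul_right_cancel₀ h0
    rw [quadraticChar_eq_pow_of_char_ne_two' hF, map_pow, h3, ← pow_mul, ← pow_succ, hq, h1,
      map_intCast]

/-- the formula of Pellet -/
theorem pellet (hp : p ≠ 2) : ∃ s : ℕ → ℝ, (∀ n, |s n| ≤ 1) ∧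
    ∀ w : F[X], w.Monic → Squarefree w → lam w = s w.natDegree * jr (derivative w) w := by
  classical
  have hF : ringChar F ≠ 2 := by rwa [ringChar.eq F p]
  refine ⟨fun n => (((-1) ^ n * quadraticChar F (sgn n : F) : ℤ) : ℝ), fun n => ?_,
    fun w hm hs => ?_⟩
  · rcases quadraticChar_isQuadratic F (sgn n : F) with h | h | h <;> simp [h, abs_pow]
  · have h := xpel_int hF hm hs
    rw [map_mul] at h
    rw [lam, jr, ← Int.cast_mul, mul_assoc]
    congr 1
    refine Eq.trans ?_ (congrArg _ h.symm)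
    rw [← mul_assoc, ← mul_pow]
    simp

end Pool.Agent.MP_4fffd4_nt.Odd

end

section

/- Decomposition of the Liouville function along the squarefull part. -/

set_option autoImplicit false

namespace Pool.Agent.MP_4fffd4_nt.Odd

open Polynomial Finset Filter Topology
open scoped BigOperators

variable {F : Type*} [Field F] [Fintype F] {p : ℕ} [Fact p.Prime] [CharP F p]

omit [Fintype F] in
theorem xpiece_dec {u w : F[X]} (hu : u ≠ 0) : Dec u (u * w) ↔ IsCoprime u w ∧ Squarefree w := by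
  refine ⟨?_, fun h => ⟨w, rfl, h⟩⟩
  rintro ⟨w', e, h⟩
  rwa [mul_left_cancel₀ hu e]

omit [Fintype F] in
theorem xpiece_dvd {z u₁ u₂ : F[X]} (hz : z ≠ 0) (h1 : Full u₁) (d1 : Dec u₁ z) (d2 : Dec u₂ z) :
    u₁ ∣ u₂ := by
  obtain ⟨w₁, e1, -, -⟩ := d1
  obtain ⟨w₂, e2, c2, s2⟩ := d2
  have hu : u₁ ≠ 0 := fun h => hz (by rw [e1, h, zero_mul])
  have hc : IsCoprime u₁ w₂ := by
    refine (WfDvdMonoid.isRelPrime_of_no_irreducible_factors (fun h => hu h.1)
      fun P hP a1 a2 => ?_).isCoprime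
    have a3 : P ^ 2 ∣ u₂ * w₂ := by
      rw [← e2, e1]
      exact (h1 P hP a1).mul_right _
    have a4 : IsCoprime (P ^ 2) u₂ := (c2.symm.of_isCoprime_of_dvd_left a2).pow_left
    exact hP.not_isUnit (s2 P (by rw [← pow_two]; exact a4.dvd_of_dvd_mul_left a3))
  exact hc.dvd_of_dvd_mul_right (by rw [← e2, e1]; exact dvd_mul_right _ _)

omit [Fintype F] in
theorem xpiece_sq {z : F[X]} (hz : z ≠ 0) : ∃ a b : F[X], b ^ 2 * a = z ∧ Squarefree a := by
  induction z using (wellFounded_dvdNotUnit (α := F[X])).induction with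
  | _ z ih =>
  by_cases hs : Squarefree z
  · exact ⟨z, 1, by simp, hs⟩
  rw [Squarefree] at hs
  push Not at hs
  obtain ⟨x, ⟨y, hy⟩, hx⟩ := hs
  have hy0 : y ≠ 0 := fun h => hz (by rw [hy, h, mul_zero])
  obtain ⟨a, b, e, ha⟩ := ih y ⟨hy0, x * x, fun h => hx (isUnit_of_mul_isUnit_left h),
    by rw [hy, mul_comm]⟩ hy0
  exact ⟨a, x * b, by rw [hy, ← e]; ring, ha⟩

omit [Fintype F] in
theorem xpiece_ex {z : F[X]} (hz : z.Monic) : ∃ σ u : F[X], σ.Monic ∧ σ ^ 2 ∣ z ∧ u.Monic ∧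
    u.natDegree ≤ 3 * σ.natDegree ∧ Full u ∧ Dec u z := by
  classical
  obtain ⟨a, b, e, ha⟩ := xpiece_sq hz.ne_zero
  have hb : b ≠ 0 := fun h => hz.ne_zero (by rw [← e, h]; simp)
  obtain ⟨c, hc⟩ := associated_normalize b
  set σ := normalize b with hσ
  have hm : σ.Monic := monic_normalize hb
  set τ : F[X] := a * (↑c⁻¹ : F[X]) ^ 2 with hτ
  have e' : z = σ ^ 2 * τ := by
    rw [← e, ← hc, hτ, mul_pow, mul_mul_mul_comm, ← mul_pow, Units.mul_inv, one_pow, mul_one]
  have hs : Squarefree τ :=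
    ha.squarefree_of_dvd (((Units.isUnit c⁻¹).pow 2).mul_right_dvd.2 dvd_rfl)
  set γ := gcd σ τ with hγ
  have hγ0 : γ ≠ 0 := fun h => hm.ne_zero ((gcd_eq_zero_iff _ _).1 h).1
  have hγm : γ.Monic := by
    rw [hγ, ← _root_.normalize_gcd]
    exact monic_normalize hγ0
  have h1 : γ ∣ σ := gcd_dvd_left _ _
  obtain ⟨w, hw⟩ : γ ∣ τ := gcd_dvd_right _ _
  have h2 := hs
  rw [hw, squarefree_mul_iff] at h2
  have h3 : IsRelPrime σ w := fun d d1 d2 =>
    h2.1 (dvd_gcd d1 (by rw [hw]; exact d2.mul_left _)) d2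
  refine ⟨σ, σ ^ 2 * γ, hm, ⟨τ, e'⟩, (hm.pow 2).mul hγm, ?_, fun P hP h => ?_,
    w, by rw [e', hw, mul_assoc], h3.isCoprime.pow_left.mul_left h2.1.isCoprime, h2.2.2⟩
  · have := natDegree_le_of_dvd h1 hm.ne_zero
    rw [(hm.pow 2).natDegree_mul hγm, hm.natDegree_pow]
    omega
  · have h4 : P ∣ σ := (hP.prime.dvd_or_dvd h).elim hP.prime.dvd_of_dvd_pow fun h => h.trans h1
    exact (pow_dvd_pow_of_dvd h4 2).mul_right _

omit [Fintype F] [Fact p.Prime] [CharP F p] in
theorem abs_piece_le (u z : F[X]) : |piece u z| ≤ 1 := by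
  rw [piece, abs_mul, abs_lam, mul_one]
  exact abs_ind_le _

omit [Fintype F] [Fact p.Prime] [CharP F p] in
theorem piece_of_not_dvd {u z : F[X]} (h : ¬ u ∣ z) : piece u z = 0 := by
  rw [piece, ind_neg, zero_mul]
  rintro ⟨w, e, -⟩
  exact h ⟨w, e⟩

theorem piece_eq (hp : p ≠ 2) : ∃ s : ℕ → ℝ, (∀ n, |s n| ≤ 1) ∧
    ∀ u w : F[X], u.Monic → w.Monic →
      piece u (u * w) = lam u * s w.natDegree * jr u w * jr (derivative (u * w)) w := by
  obtain ⟨s, hs, h⟩ := pellet (F := F) hp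
  refine ⟨s, hs, fun u w hu hw => ?_⟩
  have e : jr (derivative (u * w)) w = jr u w * jr (derivative w) w := by
    rw [← jr_mul_left hp _ _ hw]
    exact jr_congr hp hw ⟨derivative u, by rw [derivative_mul]; ring⟩
  have e2 := jr_mul_self hp (D := u) hw
  rw [piece, ind_congr (xpiece_dec hu.ne_zero), ind_and, lam_mul hu.ne_zero hw.ne_zero, e, ← e2]
  by_cases hq : Squarefree w
  · rw [ind_pos hq, h w hw hq]
    ring
  · have e3 := jr_mul_self hp (D := derivative w) hw
    rw [ind_neg fun hc : IsCoprime (derivative w) w =>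
      hq (Separable.squarefree ((separable_def w).2 hc.symm)), mul_self_eq_zero] at e3
    rw [ind_neg hq, e3]
    ring

omit [Fact p.Prime] [CharP F p] in
theorem lam_decomp {z : F[X]} (hz : z.Monic) (K : ℕ) :
    |lam z - ∑ u ∈ fullLE F (3 * K), piece u z| ≤
      ind (∃ δ : F[X], δ.Monic ∧ K < δ.natDegree ∧ δ ^ 2 ∣ z) := by
  have hone : ∀ u ∈ fullLE F (3 * K), Dec u z → ∑ u ∈ fullLE F (3 * K), piece u z = lam z := by
    intro u hu hd
    rw [sum_eq_single_of_mem u hu, piece, ind_pos hd, one_mul]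
    intro u' hu' hne
    rw [piece, ind_neg, zero_mul]
    intro hd'
    obtain ⟨m1, -, f1⟩ := mem_fullLE.1 hu
    obtain ⟨m2, -, f2⟩ := mem_fullLE.1 hu'
    exact hne (eq_of_monic_of_associated m2 m1 (associated_of_dvd_dvd
      (xpiece_dvd hz.ne_zero f2 hd' hd) (xpiece_dvd hz.ne_zero f1 hd hd')))
  by_cases hex : ∃ u ∈ fullLE F (3 * K), Dec u z
  · obtain ⟨u, hu, hd⟩ := hex
    rw [hone u hu hd, sub_self, abs_zero]
    exact ind_nonneg _
  · obtain ⟨σ, u, h1, h2, h3, h4, h5, h6⟩ := xpiece_ex hz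
    have hK : K < σ.natDegree := by
      by_contra hK
      exact hex ⟨u, mem_fullLE.2 ⟨h3, by omega, h5⟩, h6⟩
    rw [sum_eq_zero fun u hu => by rw [piece, ind_neg fun hd => hex ⟨u, hu, hd⟩, zero_mul],
      sub_zero, abs_lam, ind_pos ⟨σ, h1, hK, h2⟩]

end Pool.Agent.MP_4fffd4_nt.Odd

end

section

/- The span of the directions. -/

set_option autoImplicit false

namespace Pool.Agent.MP_4fffd4_nt.Odd

open Polynomial Finset Filter Topology
open scoped BigOperators

variable {F : Type*} [Field F] [Fintype F] {p : ℕ} [Fact p.Prime] [CharP F p]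

theorem xspan_root (a : F) : ∃ b : F, b ^ p = a := surjective_frobenius F p a

theorem xspan_decomp (x : F[X]) : ∃ y : Fin p → F[X],
    (∀ r, p * (y r).natDegree ≤ x.natDegree) ∧ x = ∑ r : Fin p, X ^ (r : ℕ) * y r ^ p := by
  classical
  have hp : 0 < p := (Fact.out : p.Prime).pos
  choose b hb using xspan_root (F := F) (p := p)
  let k : ℕ → Fin p := fun n => ⟨n % p, Nat.mod_lt n hp⟩
  refine ⟨fun r => ∑ n ∈ x.support with k n = r, monomial (n / p) (b (x.coeff n)),
    fun r => ?_, ?_⟩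
  · refine le_trans (Nat.mul_le_mul_left p (natDegree_sum_le_of_forall_le _ _
      (n := x.natDegree / p) fun n hn => ?_)) (Nat.mul_div_le _ _)
    exact (natDegree_monomial_le _).trans
      (Nat.div_le_div_right (le_natDegree_of_mem_supp n (mem_filter.1 hn).1))
  · conv_lhs => rw [x.as_sum_support, ← sum_fiberwise x.support k]
    refine sum_congr rfl fun r _ => ?_
    rw [sum_pow_char, mul_sum]
    refine sum_congr rfl fun n hn => ?_
    have h1 : n % p = r := congrArg Fin.val (mem_filter.1 hn).2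
    rw [monomial_pow, hb, X_pow_mul_monomial, ← h1, Nat.div_add_mod']

theorem xspan_pow (τ : Fin p → F[X]) (r : Fin p) : ∃ u : Fin p → F[X],
    (Matrix.vandermonde τ).det ^ p * X ^ (r : ℕ) = ∑ i, (X + τ i ^ p) ^ (p - 1) * u i ^ p := by
  classical
  have hp : p.Prime := Fact.out
  have hs : (r.rev : ℕ) ≤ p - 1 := by
    have := r.rev.2
    omega
  have hc : (((p - 1).choose r.rev : ℕ) : F) ≠ 0 := by
    rw [Ne, CharP.cast_eq_zero_iff F p]
    exact hp.coprime_iff_not_dvd.1 (hp.coprime_choose_of_lt (by have := hp.pos; omega) hs)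
  obtain ⟨c, hc'⟩ := xspan_root (p := p) (((p - 1).choose r.rev : ℕ) : F)⁻¹
  refine ⟨fun i => C c * (Matrix.vandermonde τ).adjugate r.rev i, ?_⟩
  have h1 : ∀ i, (X + τ i ^ p) ^ (p - 1) =
      ∑ m : Fin p, (τ i ^ (m : ℕ)) ^ p * X ^ (p - 1 - m) * (((p - 1).choose m : ℕ) : F[X]) := by
    intro i
    rw [add_comm, add_pow, Nat.sub_add_cancel hp.pos, sum_range]
    refine sum_congr rfl fun m _ => ?_
    rw [← pow_mul, ← pow_mul, mul_comm p]
  have h2 : ∀ m : Fin p, ∑ i, (Matrix.vandermonde τ).adjugate r.rev i * τ i ^ (m : ℕ) =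
      if r.rev = m then (Matrix.vandermonde τ).det else 0 := by
    intro m
    have := congrFun (congrFun (Matrix.adjugate_mul (Matrix.vandermonde τ)) r.rev) m
    rw [Matrix.mul_apply, Matrix.smul_apply, Matrix.one_apply] at this
    simp only [Matrix.vandermonde_apply] at this
    rw [this]
    split_ifs <;> simp
  simp only [h1, sum_mul]
  rw [sum_comm]
  have h3 : ∀ m : Fin p, ∑ i, (τ i ^ (m : ℕ)) ^ p * X ^ (p - 1 - m) *
      (((p - 1).choose m : ℕ) : F[X]) * (C c * (Matrix.vandermonde τ).adjugate r.rev i) ^ p =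
      X ^ (p - 1 - m) * (((p - 1).choose m : ℕ) : F[X]) * C c ^ p *
        (if r.rev = m then (Matrix.vandermonde τ).det else 0) ^ p := by
    intro m
    rw [← h2, sum_pow_char, mul_sum]
    refine sum_congr rfl fun i _ => ?_
    rw [mul_pow, mul_pow]
    ring
  rw [sum_congr rfl fun m _ => h3 m, sum_eq_single r.rev]
  · have h4 : p - 1 - r.rev = r := by
      rw [Fin.val_rev]
      have := r.2
      omega
    rw [if_pos rfl, h4, ← C_pow, hc', ← C_eq_natCast, mul_assoc (X ^ (r : ℕ)), ← C_mul,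
      mul_inv_cancel₀ hc, C_1, mul_one, mul_comm]
  · intro m _ hm
    rw [if_neg (Ne.symm hm), zero_pow hp.ne_zero, mul_zero]
  · intro h
    exact absurd (mem_univ _) h

theorem xspan_one (τ : Fin p → F[X]) (w : F[X]) : ∃ c : ℕ, ∀ x : F[X],
    ∃ u : Fin p → F[X], (∀ i, p * (u i).natDegree ≤ x.natDegree + c) ∧
      ((Matrix.vandermonde τ).det * w) ^ p * x = ∑ i, (X + τ i ^ p) ^ (p - 1) * u i ^ p := by
  choose v hv using xspan_pow τ
  refine ⟨p * (w.natDegree + ∑ r, ∑ i, (v r i).natDegree), fun x => ?_⟩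
  obtain ⟨y, hy, hx⟩ := xspan_decomp (p := p) x
  refine ⟨fun i => ∑ r, w * v r i * y r, fun i => ?_, ?_⟩
  · refine le_trans (Nat.mul_le_mul_left p (natDegree_sum_le_of_forall_le _ _
      (n := x.natDegree / p + (w.natDegree + ∑ r, ∑ i, (v r i).natDegree)) fun r _ => ?_)) ?_
    · have h1 : (v r i).natDegree ≤ ∑ r, ∑ i, (v r i).natDegree :=
        (single_le_sum (f := fun i => (v r i).natDegree) (fun _ _ => Nat.zero_le _)
          (mem_univ i)).trans (single_le_sum (f := fun r => ∑ i, (v r i).natDegree)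
          (fun _ _ => Nat.zero_le _) (mem_univ r))
      have h2 : (y r).natDegree ≤ x.natDegree / p :=
        (Nat.le_div_iff_mul_le (Fact.out : p.Prime).pos).2 (by rw [mul_comm]; exact hy r)
      have h3 := natDegree_mul_le (p := w * v r i) (q := y r)
      have h4 := natDegree_mul_le (p := w) (q := v r i)
      omega
    · rw [mul_add]
      exact Nat.add_le_add_right (Nat.mul_div_le _ _) _
  · conv_lhs => rw [hx]
    simp only [sum_pow_char, mul_sum]
    rw [sum_comm]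
    refine sum_congr rfl fun r _ => ?_
    calc ((Matrix.vandermonde τ).det * w) ^ p * (X ^ (r : ℕ) * y r ^ p)
        = ((Matrix.vandermonde τ).det ^ p * X ^ (r : ℕ)) * (w * y r) ^ p := by ring
      _ = _ := by
        rw [hv r, sum_mul]
        refine sum_congr rfl fun i _ => ?_
        ring

theorem exists_span (T : Finset F[X]) : ∃ (Ω : F[X]) (c : ℕ), Ω ≠ 0 ∧
    ∀ τ : Fin p → F[X], Function.Injective τ → (∀ i, τ i ∈ T) → ∀ x : F[X],
      ∃ u : Fin p → F[X], (∀ i, p * (u i).natDegree ≤ x.natDegree + c) ∧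
        Ω ^ p * x = ∑ i, (X + τ i ^ p) ^ (p - 1) * u i ^ p := by
  classical
  let S : Finset (Fin p → F[X]) := (Fintype.piFinset fun _ => T).filter Function.Injective
  choose c hc using fun τ : Fin p → F[X] =>
    xspan_one τ (∏ σ ∈ S.erase τ, (Matrix.vandermonde σ).det)
  refine ⟨∏ σ ∈ S, (Matrix.vandermonde σ).det, ∑ σ ∈ S, c σ,
    prod_ne_zero_iff.2 fun σ hσ => Matrix.det_vandermonde_ne_zero_iff.2 (mem_filter.1 hσ).2,
    fun τ h1 h2 x => ?_⟩
  have hτ : τ ∈ S := mem_filter.2 ⟨Fintype.mem_piFinset.2 h2, h1⟩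
  obtain ⟨u, hu, hx⟩ := hc τ x
  refine ⟨u, fun i => (hu i).trans (Nat.add_le_add_left
    (single_le_sum (f := c) (fun _ _ => Nat.zero_le _) hτ) _), ?_⟩
  rw [← hx, mul_prod_erase S (fun σ => (Matrix.vandermonde σ).det) hτ]

end Pool.Agent.MP_4fffd4_nt.Odd

end

section

/- A maximal inequality for almost orthogonal bounded variables. -/

set_option autoImplicit false

namespace Pool.Agent.MP_4fffd4_nt.Odd

open Polynomial Finset Filter Topology
open scoped BigOperators

variable {F : Type*} [Field F] [Fintype F]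

theorem xsubg_exp (a : ℝ) {z : ℝ} (hz : |z| ≤ 1) :
    Real.exp (a * z) ≤ Real.sinh a * z + Real.cosh a := by
  obtain ⟨h1, h2⟩ := abs_le.1 hz
  have h := convexOn_exp.2 (Set.mem_univ a) (Set.mem_univ (-a))
    (show 0 ≤ (1 + z) / 2 by linarith) (show 0 ≤ (1 - z) / 2 by linarith) (by ring)
  simp only [smul_eq_mul] at h
  rw [show (1 + z) / 2 * a + (1 - z) / 2 * -a = a * z by ring] at h
  rw [Real.sinh_eq, Real.cosh_eq]
  linarith

theorem xsubg_mgf {Ψ X : Type*} (T : Finset Ψ) (a : Ψ → ℝ) :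
    ∃ K : ℝ, 0 ≤ K ∧ ∀ (η : ℝ), 0 ≤ η → ∀ (s : Finset X), s.Nonempty → ∀ Z : Ψ → X → ℝ,
      (∀ ψ ∈ T, ∀ x, |Z ψ x| ≤ 1) → (∀ S ⊆ T, S.Nonempty → |𝔼 x ∈ s, ∏ ψ ∈ S, Z ψ x| ≤ η) →
      𝔼 x ∈ s, Real.exp (∑ ψ ∈ T, a ψ * Z ψ x) ≤ Real.exp ((∑ ψ ∈ T, a ψ ^ 2) / 2) + η * K := by
  classical
  set k : Finset Ψ → ℝ := fun S => (∏ ψ ∈ S, Real.sinh (a ψ)) * ∏ ψ ∈ T \ S, Real.cosh (a ψ)
    with hk
  refine ⟨∑ S ∈ T.powerset, |k S|, sum_nonneg fun _ _ => abs_nonneg _, ?_⟩
  intro η hη s hs Z hZ hS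
  calc _ ≤ 𝔼 x ∈ s, ∑ S ∈ T.powerset, k S * ∏ ψ ∈ S, Z ψ x := by
        refine expect_le_expect fun x _ => ?_
        rw [Real.exp_sum]
        refine (prod_le_prod (fun _ _ => (Real.exp_pos _).le)
          fun ψ hψ => xsubg_exp (a ψ) (hZ ψ hψ x)).trans_eq ?_
        rw [prod_add]
        refine sum_congr rfl fun S _ => ?_
        rw [prod_mul_distrib, hk]
        ring
    _ = ∑ S ∈ T.powerset, k S * 𝔼 x ∈ s, ∏ ψ ∈ S, Z ψ x := by
        rw [expect_sum_comm]
        exact sum_congr rfl fun S _ => (mul_expect _ _ _).symm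
    _ ≤ ∑ S ∈ T.powerset, ((if S = ∅ then k S else 0) + η * |k S|) := by
        refine sum_le_sum fun S hS' => ?_
        split_ifs with h
        · subst h
          simp only [prod_empty, expect_const hs, mul_one, le_add_iff_nonneg_right]
          positivity
        · rw [zero_add, mul_comm η]
          refine (le_abs_self _).trans ?_
          rw [abs_mul]
          exact mul_le_mul_of_nonneg_left
            (hS S (mem_powerset.1 hS') (nonempty_iff_ne_empty.2 h)) (abs_nonneg _)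
    _ ≤ _ := by
        rw [sum_add_distrib, ← mul_sum, sum_ite_eq', if_pos (empty_mem_powerset T), hk]
        simp only [prod_empty, sdiff_empty, one_mul]
        rw [sum_div, Real.exp_sum]
        exact add_le_add_left (prod_le_prod (fun _ _ => (Real.cosh_pos _).le)
          fun ψ _ => Real.cosh_le_exp_half_sq _) _

theorem xsubg_pt {E w : ℝ} (hE : 0 < E) (hw : 0 < w) (y : ℝ) :
    |y| ≤ 2 * w + w / E * Real.exp (-2 * E) *
      (Real.exp (E / w * y) + Real.exp (-(E / w) * y)) := by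
  have h1 : Real.exp (E / w * |y|) ≤ Real.exp (E / w * y) + Real.exp (-(E / w) * y) := by
    rcases abs_cases y with ⟨h, _⟩ | ⟨h, _⟩
    · rw [h]
      exact le_add_of_nonneg_right (Real.exp_pos _).le
    · rw [h, mul_neg, neg_mul]
      exact le_add_of_nonneg_left (Real.exp_pos _).le
  have h2 : -2 * E + E / w * |y| ≤ Real.exp (-2 * E) * Real.exp (E / w * |y|) := by
    rw [← Real.exp_add]
    linarith [Real.add_one_le_exp (-2 * E + E / w * |y|)]
  have h3 := mul_le_mul_of_nonneg_left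
    (h2.trans (mul_le_mul_of_nonneg_left h1 (Real.exp_pos _).le)) (div_pos hw hE).le
  have h4 : w / E * (-2 * E + E / w * |y|) = |y| - 2 * w := by field_simp; ring
  rw [h4, ← mul_assoc] at h3
  linarith

theorem max_subg {Ψ : Type*} (T : Finset Ψ) (Sg : Finset (Ψ → ℝ)) {V E w ε : ℝ} (hE : 1 ≤ E)
    (hw : 0 < w) (hVE : V * E ≤ w ^ 2) (hS : (Sg.card : ℝ) ≤ Real.exp E)
    (hV : ∀ c ∈ Sg, ∑ ψ ∈ T, c ψ ^ 2 ≤ V) (hε : 0 < ε) :
    ∃ η : ℝ, 0 < η ∧ ∀ (n : ℕ) (Z : Ψ → F[X] → ℝ), (∀ ψ ∈ T, ∀ x, |Z ψ x| ≤ 1) →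
      (∀ S ⊆ T, S.Nonempty → |𝔼 x ∈ monF F n, ∏ ψ ∈ S, Z ψ x| ≤ η) →
      ∀ c : F[X] → Ψ → ℝ, (∀ x, c x ∈ Sg) →
        𝔼 x ∈ monF F n, |∑ ψ ∈ T, c x ψ * Z ψ x| ≤ 4 * w + ε := by
  have hE0 : 0 < E := by linarith
  choose K hK0 hK using fun a : Ψ → ℝ => xsubg_mgf (X := F[X]) T a
  set B : ℝ := w / E * Real.exp (-2 * E) with hB
  have hB0 : 0 < B := by positivity
  set M : ℝ := ∑ c ∈ Sg, (K (fun ψ => E / w * c ψ) + K fun ψ => -(E / w) * c ψ) with hM
  have hM0 : 0 ≤ M := sum_nonneg fun _ _ => add_nonneg (hK0 _) (hK0 _)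
  refine ⟨ε / (B * M + 1), by positivity, fun n Z hZ hη c hc => ?_⟩
  set η : ℝ := ε / (B * M + 1) with hη'
  have hη0 : 0 ≤ η := by positivity
  have hs : (monF F n).Nonempty := by
    rw [← card_pos, card_monF]
    positivity
  have key : ∀ c ∈ Sg, ∀ θ : ℝ, θ ^ 2 = (E / w) ^ 2 →
      𝔼 x ∈ monF F n, Real.exp (θ * ∑ ψ ∈ T, c ψ * Z ψ x) ≤
        Real.exp (E / 2) + η * K fun ψ => θ * c ψ := by
    intro c hc θ hθ
    have h := hK (fun ψ => θ * c ψ) η hη0 _ hs Z hZ hη
    simp only [mul_assoc, ← mul_sum, mul_pow] at h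
    refine h.trans (add_le_add_left (Real.exp_le_exp.2 ?_) _)
    have h1 : (E / w) ^ 2 * V ≤ E := by
      rw [div_pow, div_mul_eq_mul_div, div_le_iff₀ (by positivity)]
      nlinarith
    have h2 := mul_le_mul_of_nonneg_left (hV c hc) (sq_nonneg (E / w))
    rw [hθ]
    linarith
  calc _ ≤ 𝔼 x ∈ monF F n, (2 * w + B * ∑ c ∈ Sg, (Real.exp (E / w * ∑ ψ ∈ T, c ψ * Z ψ x) +
          Real.exp (-(E / w) * ∑ ψ ∈ T, c ψ * Z ψ x))) := by
        refine expect_le_expect fun x _ => (xsubg_pt hE0 hw _).trans ?_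
        refine add_le_add_right (mul_le_mul_of_nonneg_left ?_ hB0.le) _
        exact single_le_sum (f := fun c : Ψ → ℝ => Real.exp (E / w * ∑ ψ ∈ T, c ψ * Z ψ x) +
          Real.exp (-(E / w) * ∑ ψ ∈ T, c ψ * Z ψ x)) (fun _ _ => by positivity) (hc x)
    _ ≤ 2 * w + B * ∑ c ∈ Sg, (2 * Real.exp (E / 2) +
          η * (K (fun ψ => E / w * c ψ) + K fun ψ => -(E / w) * c ψ)) := by
        rw [expect_add_distrib, expect_const hs, ← mul_expect, expect_sum_comm]
        refine add_le_add_right (mul_le_mul_of_nonneg_left (sum_le_sum fun c hc => ?_) hB0.le) _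
        rw [expect_add_distrib]
        linarith [key c hc (E / w) rfl, key c hc (-(E / w)) (by ring)]
    _ ≤ _ := by
        rw [sum_add_distrib, ← mul_sum _ _ η, ← hM, sum_const, nsmul_eq_mul, mul_add]
        have h1 : B * (η * M) ≤ ε := by
          rw [hη', mul_left_comm, div_mul_eq_mul_div, div_le_iff₀ (by positivity)]
          nlinarith
        have h2 : B * (Sg.card * (2 * Real.exp (E / 2))) ≤ 2 * w := by
          have h3 : Real.exp (-2 * E) * Real.exp E * Real.exp (E / 2) ≤ 1 := by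
            rw [← Real.exp_add, ← Real.exp_add, Real.exp_le_one_iff]
            linarith
          have h4 : w / E ≤ w := div_le_self hw.le hE
          calc _ ≤ B * (Real.exp E * (2 * Real.exp (E / 2))) := by gcongr
            _ = 2 * (w / E) * (Real.exp (-2 * E) * Real.exp E * Real.exp (E / 2)) := by
              rw [hB]; ring
            _ ≤ 2 * w * 1 := by gcongr
            _ = _ := mul_one _
        linarith

end Pool.Agent.MP_4fffd4_nt.Odd

end

section

/- Moduli onto which the derivatives map surjectively. -/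

set_option autoImplicit false

namespace Pool.Agent.MP_4fffd4_nt.Odd

open Polynomial Finset Filter Topology
open scoped BigOperators

variable {F : Type*} [Field F] [Fintype F] {p : ℕ} [Fact p.Prime] [CharP F p]

omit [Fintype F] [Fact p.Prime] [CharP F p] in
theorem Onto.mono {ν ν' : ℕ} {e : F[X]} (h : Onto ν e) (hν : ν ≤ ν') : Onto ν' e := fun x =>
  let ⟨v, h1, h2⟩ := h x
  ⟨v, h1.trans_le (by exact_mod_cast hν), h2⟩

omit [Fintype F] [Fact p.Prime] [CharP F p] in
theorem xsurj_mod {e : F[X]} (he : e.Monic) (x : F[X]) : (x %ₘ e).degree < e.natDegree := by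
  rw [← degree_eq_natDegree he.ne_zero]; exact degree_modByMonic_lt x he

omit [Fintype F] [Fact p.Prime] [CharP F p] in
theorem xsurj_dvd (e x : F[X]) (he : e.Monic) : e ∣ x - x %ₘ e :=
  ⟨x /ₘ e, by rw [sub_eq_iff_eq_add', modByMonic_add_div]⟩

omit [Fintype F] [Fact p.Prime] [CharP F p] in
theorem xsurj_zero {e x : F[X]} (he : e.Monic) (h : e ∣ x) (hx : x.degree < e.natDegree) :
    x = 0 :=
  eq_zero_of_dvd_of_degree_lt h (by rwa [degree_eq_natDegree he.ne_zero])

omit [Fact p.Prime] [CharP F p] in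
theorem expect_dvd {e Q : F[X]} (he : e.Monic) (hQ : IsCoprime Q e) {ν : ℕ} (h : Onto ν e)
    (D₀ : F[X]) : 𝔼 v ∈ ltF F ν, ind (e ∣ D₀ + Q * derivative v) =
      1 / (Fintype.card F : ℝ) ^ e.natDegree := by
  classical
  let f : degreeLT F ν →+ degreeLT F e.natDegree :=
    { toFun := fun v => ⟨(Q * derivative v.1) %ₘ e, mem_degreeLT.2 (xsurj_mod he _)⟩
      map_zero' := Subtype.ext (by simp)
      map_add' := fun v w => Subtype.ext (by simp [mul_add, add_modByMonic]) }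
  have hf : Function.Surjective f := by
    intro x
    obtain ⟨a, b, hab⟩ := hQ
    obtain ⟨v, h1, h2⟩ := h (a * x.1)
    refine ⟨⟨v, mem_degreeLT.2 h1⟩, Subtype.ext ?_⟩
    refine sub_eq_zero.1 (xsurj_zero he ?_ (mem_degreeLT.1 (sub_mem (f _).2 x.2)))
    have h3 := xsurj_dvd e (Q * derivative v) he
    have : (Q * derivative v) %ₘ e - x.1 = -(Q * derivative v - (Q * derivative v) %ₘ e) -
        Q * (a * x.1 - derivative v) - e * (b * x.1) := by
      linear_combination (x.1) * hab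
    change e ∣ (Q * derivative v) %ₘ e - x.1
    rw [this]
    exact dvd_sub (dvd_sub (dvd_neg.2 h3) (h2.mul_left Q)) (dvd_mul_right _ _)
  let y₀ : degreeLT F e.natDegree := ⟨(-D₀) %ₘ e, mem_degreeLT.2 (xsurj_mod he _)⟩
  have key : ∀ y : degreeLT F e.natDegree, e ∣ D₀ + y.1 ↔ y = y₀ := by
    intro y
    have h3 := xsurj_dvd e (-D₀) he
    have h4 : D₀ + y.1 = (y.1 - y₀.1) - (-D₀ - (-D₀) %ₘ e) := by simp [y₀]; ring
    rw [h4, dvd_sub_left h3]
    exact ⟨fun h5 => Subtype.ext (sub_eq_zero.1 (xsurj_zero he h5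
      (mem_degreeLT.1 (sub_mem y.2 y₀.2)))), fun h5 => by simp [h5]⟩
  have h5 : ∀ v : degreeLT F ν, ind (e ∣ D₀ + Q * derivative v.1) = ind (f v = y₀) := by
    intro v
    refine ind_congr (Iff.trans ?_ (key _))
    have h3 := xsurj_dvd e (Q * derivative v.1) he
    have h4 : D₀ + Q * derivative v.1 = D₀ + (f v).1 +
        (Q * derivative v.1 - (Q * derivative v.1) %ₘ e) := by simp [f]
    rw [h4, dvd_add_left h3]
  rw [expect_ltF, Finset.expect_congr rfl fun v _ => h5 v,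
    expect_surj f hf fun y => ind (y = y₀), Fintype.expect_eq_sum_div_card, card_degreeLT,
    Finset.sum_eq_single y₀ (fun y _ hy => ind_neg hy) (by simp), ind_pos rfl, Nat.cast_pow]

/-- `β` has annihilator `e` and vanishes on derivatives -/
def XPrim (ν : ℕ) (e : F[X]) (β : F[X] →ₗ[F] F) : Prop :=
  (∀ s, (∀ x, β (s * x) = 0) ↔ e ∣ s) ∧ ∀ v : F[X], v.degree < ν → β (derivative v) = 0

omit [Fintype F] [Fact p.Prime] [CharP F p] in
theorem xsurj_exists {ν : ℕ} {e : F[X]} (he : e ≠ 0) (h : ¬ Onto ν e) :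
    ∃ (d : F[X]) (β : F[X] →ₗ[F] F), d.Monic ∧ d ∣ e ∧ 0 < d.natDegree ∧ XPrim ν d β := by
  simp only [Onto, not_forall, not_exists, not_and] at h
  obtain ⟨x, hx⟩ := h
  let S : Submodule F F[X] := (degreeLT F ν).map derivative ⊔ LinearMap.range (LinearMap.mulLeft F e)
  have hxS : x ∉ S := by
    intro h
    obtain ⟨_, ⟨v, hv, rfl⟩, _, ⟨w, rfl⟩, h1⟩ := Submodule.mem_sup.1 h
    exact hx v (mem_degreeLT.1 hv) ⟨w, by rw [← h1]; simp⟩
  obtain ⟨β, h1, h2⟩ := Submodule.exists_le_ker_of_notMem hxS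
  let I : Ideal F[X] :=
    { carrier := {s | ∀ x, β (s * x) = 0}
      add_mem' := fun {a b} ha hb x => by rw [add_mul, map_add, ha x, hb x, add_zero]
      zero_mem' := fun x => by simp
      smul_mem' := fun c s hs x => by rw [smul_eq_mul, mul_comm c, mul_assoc]; exact hs _ }
  have heI : e ∈ I := fun x => h2 (Submodule.mem_sup_right ⟨x, rfl⟩)
  set g := Submodule.IsPrincipal.generator I
  have hg : ∀ s, s ∈ I ↔ g ∣ s := fun s => Submodule.IsPrincipal.mem_iff_generator_dvd I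
  have hg0 : g ≠ 0 := ne_zero_of_dvd_ne_zero he ((hg e).1 heI)
  have hm : (g * C g.leadingCoeff⁻¹).Monic := monic_mul_leadingCoeff_inv hg0
  have hd : ∀ s, s ∈ I ↔ g * C g.leadingCoeff⁻¹ ∣ s := fun s => by
    rw [hg, IsUnit.mul_right_dvd
      (isUnit_C.2 (inv_ne_zero (leadingCoeff_ne_zero.2 hg0)).isUnit)]
  refine ⟨_, β, hm, (hd e).1 heI, Nat.pos_of_ne_zero fun h0 => h1 ?_, hd,
    fun v hv => h2 (Submodule.mem_sup_left ⟨v, mem_degreeLT.2 hv, rfl⟩)⟩
  have := (hd 1).2 (by rw [hm.natDegree_eq_zero.1 h0]) x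
  rwa [one_mul] at this

omit [Fact p.Prime] [CharP F p] in
theorem xsurj_lt {ν : ℕ} {e : F[X]} {β : F[X] →ₗ[F] F} (he : e.Monic) (hs : Squarefree e)
    (h0 : 0 < e.natDegree) (h : XPrim ν e β) : ν < 2 * e.natDegree := by
  by_contra hν
  have he0 : ∀ x, β (e * x) = 0 := (h.1 e).2 dvd_rfl
  have h1 : e ∣ derivative e := by
    refine (h.1 _).1 fun x => ?_
    have h2 : (e * (x %ₘ e)).degree < ν := by
      rw [degree_mul, degree_eq_natDegree he.ne_zero]
      refine (WithBot.add_lt_add_left (by simp) (xsurj_mod he x)).trans_le ?_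
      exact_mod_cast (by omega : e.natDegree + e.natDegree ≤ ν)
    have h3 := h.2 _ h2
    rw [derivative_mul, map_add, he0, add_zero] at h3
    conv_lhs => rw [← modByMonic_add_div x e, mul_add, map_add, h3, mul_left_comm, he0, add_zero]
  have h2 : IsUnit e := (PerfectField.separable_iff_squarefree.2 hs).isUnit_of_dvd' dvd_rfl h1
  rw [he.isUnit_iff.1 h2] at h0
  simp at h0

omit [Fact p.Prime] [CharP F p] in
open Classical in
theorem xsurj_ker {e : F[X]} {β : F[X] →ₗ[F] F} (he : e.Monic)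
    (h : ∀ s, (∀ x, β (s * x) = 0) ↔ e ∣ s) {r : ℕ} (hr : r ≤ e.natDegree) :
    ((ltF F e.natDegree).filter fun δ => ∀ x : F[X], x.degree < r → β (δ * x) = 0).card =
      Fintype.card F ^ (e.natDegree - r) := by
  set D := e.natDegree
  let B : degreeLT F D →ₗ[F] degreeLT F r →ₗ[F] F :=
    ((LinearMap.mul F F[X]).compr₂ β).compl₁₂ (degreeLT F D).subtype (degreeLT F r).subtype
  have hB : ∀ a b, B a b = β (a.1 * b.1) := fun a b => rfl
  haveI : ∀ n, FiniteDimensional F (degreeLT F n) := fun n => Module.Finite.of_finite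
  have hfr : ∀ n, Module.finrank F (degreeLT F n) = n := fun n => by
    rw [(degreeLTEquiv F n).finrank_eq]; simp
  have hinj : Function.Injective B.flip := by
    rw [injective_iff_map_eq_zero]
    intro x hx
    refine Subtype.ext (xsurj_zero he ((h _).1 fun y => ?_)
      ((mem_degreeLT.1 x.2).trans_le (by exact_mod_cast hr)))
    have h1 := LinearMap.congr_fun hx ⟨y %ₘ e, mem_degreeLT.2 (xsurj_mod he y)⟩
    rw [LinearMap.flip_apply, hB, LinearMap.zero_apply, mul_comm] at h1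
    conv_lhs => rw [← modByMonic_add_div y e, mul_add, map_add, h1, mul_left_comm,
      (h e).2 dvd_rfl, add_zero]
  have hs := LinearMap.flip_injective_iff₁.1 hinj
  have h2 := B.finrank_range_add_finrank_ker
  rw [LinearMap.range_eq_top.2 hs, finrank_top, hfr] at h2
  have h3 : Module.finrank F (degreeLT F r →ₗ[F] F) = r := by
    rw [Module.finrank_linearMap, hfr, Module.finrank_self, mul_one]
  have h4 : Module.finrank F (LinearMap.ker B) = D - r := by omega
  rw [← h4, ← Module.card_eq_pow_finrank (K := F) (V := LinearMap.ker B), Fintype.card_subtype]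
  symm
  refine card_bij (fun δ _ => δ.1) (fun δ hδ => ?_) (fun _ _ _ _ => Subtype.ext) fun δ hδ => ?_
  · refine mem_filter.2 ⟨mem_ltF.2 (mem_degreeLT.1 δ.2), fun x hx => ?_⟩
    exact LinearMap.congr_fun (LinearMap.mem_ker.1 (mem_filter.1 hδ).2) ⟨x, mem_degreeLT.2 hx⟩
  · obtain ⟨h5, h6⟩ := mem_filter.1 hδ
    exact ⟨⟨δ, mem_degreeLT.2 (mem_ltF.1 h5)⟩, mem_filter.2 ⟨mem_univ _,
      LinearMap.mem_ker.2 (LinearMap.ext fun x => h6 x.1 (mem_degreeLT.1 x.2))⟩, rfl⟩

omit [Fintype F] in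
theorem xsurj_agree {ν : ℕ} {β γ : F[X] →ₗ[F] F}
    (hβ : ∀ v : F[X], v.degree < ν → β (derivative v) = 0)
    (hγ : ∀ v : F[X], v.degree < ν → γ (derivative v) = 0)
    (h : ∀ i : Fin (ν / p), β (X ^ (p * (i + 1) - 1)) = γ (X ^ (p * (i + 1) - 1)))
    {x : F[X]} (hx : x.degree < (ν - 1 : ℕ)) : β x = γ x := by
  have hp := (Fact.out : p.Prime).pos
  have key : ∀ j, j < ν - 1 → β (X ^ j) = γ (X ^ j) := by
    intro j hj
    by_cases hd : p ∣ j + 1
    · obtain ⟨i, hi⟩ := hd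
      obtain ⟨i, rfl⟩ : ∃ k, i = k + 1 := ⟨i - 1, by rcases i with _ | i <;> simp at hi ⊢⟩
      have h1 : i < ν / p := by
        rw [Nat.lt_iff_add_one_le, Nat.le_div_iff_mul_le hp, mul_comm]; omega
      have := h ⟨i, h1⟩
      rwa [show p * (i + 1) - 1 = j by omega] at this
    · have h1 : ((j + 1 : ℕ) : F) ≠ 0 := fun h0 => hd ((CharP.cast_eq_zero_iff F p _).1 h0)
      have h2 : (X ^ (j + 1) : F[X]).degree < ν := by
        rw [degree_X_pow]; exact_mod_cast (by omega : j + 1 < ν)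
      have h3 : derivative (X ^ (j + 1) : F[X]) = ((j + 1 : ℕ) : F) • X ^ j := by
        rw [derivative_X_pow, Nat.add_sub_cancel, smul_eq_C_mul]
      have h4 := hβ _ h2
      have h5 := hγ _ h2
      rw [h3, map_smul, smul_eq_mul, mul_eq_zero] at h4 h5
      rw [h4.resolve_left h1, h5.resolve_left h1]
  by_cases h0 : x = 0
  · simp [h0]
  rw [as_sum_range' x _ ((natDegree_lt_iff_degree_lt h0).2 hx), map_sum, map_sum]
  refine sum_congr rfl fun j hj => ?_
  rw [← smul_X_eq_monomial, map_smul, map_smul, key j (mem_range.1 hj)]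

open Classical in
theorem xsurj_card {ν D : ℕ} (h1 : D < ν) (h2 : ν < 2 * D) :
    ((monF F D).filter fun e => ∃ β, XPrim ν e β).card ≤
      Fintype.card F ^ (ν / p) * Fintype.card F ^ (2 * D + 1 - ν) := by
  set S := (monF F D).filter fun e => ∃ β, XPrim ν e β
  have hS : ∀ e ∈ S, ∃ β, XPrim ν e β := fun e he => (mem_filter.1 he).2
  choose! β hβ using hS
  let τ : F[X] → Fin (ν / p) → F := fun e i => β e (X ^ (p * (i + 1) - 1))
  have := card_le_mul_card_image_of_maps_to (s := S) (t := univ) (f := τ) (fun _ _ => mem_univ _)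
    (Fintype.card F ^ (2 * D + 1 - ν)) fun c _ => ?_
  · rwa [card_univ, Fintype.card_fun, Fintype.card_fin, mul_comm] at this
  rcases (S.filter fun e => τ e = c).eq_empty_or_nonempty with h | ⟨e₀, h₀⟩
  · simp [h]
  obtain ⟨h3, h4⟩ := mem_filter.1 h₀
  obtain ⟨h5, h6⟩ := mem_monF.1 (mem_filter.1 h3).1
  have h7 := xsurj_ker h5 (hβ e₀ h3).1 (r := ν - 1 - D) (by omega)
  rw [h6, show D - (ν - 1 - D) = 2 * D + 1 - ν by omega] at h7
  rw [← h7]
  refine card_le_card_of_injOn (fun e => e - e₀) (fun e he => ?_) fun a _ b _ h =>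
    sub_left_injective h
  obtain ⟨h8, h9⟩ := mem_filter.1 he
  obtain ⟨h10, h11⟩ := mem_monF.1 (mem_filter.1 h8).1
  have hd : e.degree = D := by rw [degree_eq_natDegree h10.ne_zero, h11]
  refine mem_filter.2 ⟨mem_ltF.2 ?_, fun x hx => ?_⟩
  · rw [← hd]
    exact degree_sub_lt (by rw [hd, degree_eq_natDegree h5.ne_zero, h6]) h10.ne_zero
      (by rw [h10, h5])
  · have h12 : (e * x).degree < (ν - 1 : ℕ) := by
      rw [degree_mul, hd]
      refine (WithBot.add_lt_add_left (by simp) hx).trans_le ?_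
      exact_mod_cast (by omega : D + (ν - 1 - D) ≤ ν - 1)
    rw [sub_mul, map_sub, ((hβ e₀ h3).1 e₀).2 dvd_rfl, sub_zero,
      ← xsurj_agree (p := p) (hβ e h8).2 (hβ e₀ h3).2 (fun i => congrFun (h9.trans h4.symm) i) h12]
    exact ((hβ e h8).1 e).2 dvd_rfl x

theorem card_bad {ν D : ℕ} (hD : D < ν) :
    ∑ e ∈ monF F D, ind (Squarefree e ∧ ¬ Onto ν e) ≤
      (D + 1) * (Fintype.card F : ℝ) ^ (ν / p + 1 + 2 * D) / (Fintype.card F : ℝ) ^ ν := by
  classical
  have hq := card_pos' (F := F)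
  have hq1 : (1 : ℝ) ≤ Fintype.card F := one_le_two.trans two_le_card
  let S : ℕ → Finset F[X] := fun k =>
    if ν < 2 * k then (monF F k).filter fun e => ∃ β, XPrim ν e β else ∅
  calc _ ≤ ∑ e ∈ monF F D, ∑ k ∈ range (D + 1), ∑ d ∈ S k, ind (d ∣ e) := by
        refine sum_le_sum fun e he => ?_
        obtain ⟨h1, h2⟩ := mem_monF.1 he
        rw [sum_sigma']
        refine ind_le_sum fun ⟨h3, h4⟩ => ?_
        obtain ⟨d, β, h5, h6, h7, h8⟩ := xsurj_exists h1.ne_zero h4
        have h9 := natDegree_le_of_dvd h6 h1.ne_zero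
        refine ⟨⟨d.natDegree, d⟩, mem_sigma.2 ⟨mem_range.2 (by simp only; omega), ?_⟩, h6⟩
        simp only [S, if_pos (xsurj_lt h5 (h3.squarefree_of_dvd h6) h7 h8)]
        exact mem_filter.2 ⟨mem_monF.2 ⟨h5, rfl⟩, β, h8⟩
    _ ≤ ∑ k ∈ range (D + 1),
          (Fintype.card F : ℝ) ^ (ν / p + 1 + 2 * D) / (Fintype.card F : ℝ) ^ ν := by
        rw [sum_comm]
        refine sum_le_sum fun k hk => ?_
        have hk' := mem_range.1 hk
        rw [sum_comm]
        by_cases h : ν < 2 * k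
        swap
        · simp only [S, if_neg h, sum_empty]; positivity
        have h1 : ∀ d ∈ S k, ∑ e ∈ monF F D, ind (d ∣ e) ≤
            (Fintype.card F : ℝ) ^ D / Fintype.card F ^ k := by
          intro d hd
          simp only [S, if_pos h] at hd
          obtain ⟨h2, h3⟩ := mem_monF.1 (mem_filter.1 hd).1
          rw [sum_monF, ← h3]
          exact sum_dvd_monic (fun y : degreeLT F D => X ^ D + y.1)
            (fun _ _ h => Subtype.ext (add_left_cancel h)) monic_add_LT h2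
        refine (sum_le_card_nsmul _ _ _ h1).trans ?_
        have h2 : ((S k).card : ℝ) ≤ Fintype.card F ^ (ν / p) * Fintype.card F ^ (2 * k + 1 - ν) := by
          simp only [S, if_pos h]
          exact_mod_cast xsurj_card (F := F) (p := p) (by omega) h
        rw [nsmul_eq_mul]
        refine (mul_le_mul_of_nonneg_right h2 (by positivity)).trans ?_
        rw [← mul_div_assoc, div_le_div_iff₀ (by positivity) (by positivity), ← pow_add, ← pow_add,
          ← pow_add, ← pow_add]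
        exact pow_le_pow_right₀ hq1 (by omega)
    _ = _ := by rw [sum_const, card_range, nsmul_eq_mul, Nat.cast_add_one, mul_div_assoc]

end Pool.Agent.MP_4fffd4_nt.Odd

end

section

/- The windows: degrees and good polynomials. -/

set_option autoImplicit false

namespace Pool.Agent.MP_4fffd4_nt.Odd

open Polynomial Finset Filter Topology
open scoped BigOperators

variable {F : Type*} [Field F] [Fintype F] {p M : ℕ}

theorem xwin1_tt (hp : 3 ≤ p) : 100 * p ^ 2 * tt p M ≤ M / p := by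
  rw [Nat.le_div_iff_mul_le (by omega)]
  have := Nat.div_mul_le_self M (100 * p ^ 3)
  calc 100 * p ^ 2 * tt p M * p = M / (100 * p ^ 3) * (100 * p ^ 3) := by rw [tt]; ring
    _ ≤ M := this

theorem xwin1_pt (hp : 3 ≤ p) : 3 * (p * tt p M) ≤ p ^ 2 * tt p M ∧ 3 * tt p M ≤ p * tt p M := by
  refine ⟨?_, Nat.mul_le_mul_right _ hp⟩
  rw [sq, mul_assoc]
  exact Nat.mul_le_mul_right _ hp

theorem xwin1_mem (hp : 3 ≤ p) {j : ℕ} (hj : j < p - 1) {R : F[X]} (hR : R ∈ win F p M j) :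
    R.Monic ∧ Irreducible R ∧ M / p < R.natDegree + (j + 2) * tt p M ∧
      R.natDegree + (j + 1) * tt p M ≤ M / p ∧ (j + 2) * tt p M ≤ p * tt p M := by
  obtain ⟨h1, h2, h3, h4⟩ := mem_prmI.1 hR
  have h5 : (j + 2) * tt p M ≤ p * tt p M := Nat.mul_le_mul_right _ (by omega)
  have h6 : (j + 1) * tt p M ≤ (j + 2) * tt p M := Nat.mul_le_mul_right _ (by omega)
  have h7 := xwin1_tt (M := M) hp
  have h8 := xwin1_pt (M := M) hp
  rw [mul_assoc] at h7
  exact ⟨h1, h2, by omega, by omega, h5⟩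

theorem xwin1_memTW (hp : 3 ≤ p) {P : Fin (p - 1) → F[X]} (hP : P ∈ TW F p M) (j : Fin (p - 1)) :
    (P j).Monic ∧ Irreducible (P j) ∧ M / p < (P j).natDegree + (j + 2) * tt p M ∧
      (P j).natDegree + (j + 1) * tt p M ≤ M / p ∧ (j + 2) * tt p M ≤ p * tt p M :=
  xwin1_mem hp j.2 (Fintype.mem_piFinset.1 hP j)

omit [Fintype F] in
theorem xwin1_coprime {R S : F[X]} (hR : R.Monic) (hR' : Irreducible R) (hS : S.Monic)
    (hS' : Irreducible S) (h : R ≠ S) : IsCoprime R S :=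
  hR'.coprime_iff_not_dvd.2 fun hd =>
    h (eq_of_monic_of_associated hR hS (hR'.associated_of_dvd hS' hd))

theorem xwin1_ne (hp : 3 ≤ p) {P : Fin (p - 1) → F[X]} (hP : P ∈ TW F p M) {i j : Fin (p - 1)}
    (h : i ≠ j) : IsCoprime (P i) (P j) := by
  obtain ⟨a1, a2, a3, a4, -⟩ := xwin1_memTW hp hP i
  obtain ⟨b1, b2, b3, b4, -⟩ := xwin1_memTW hp hP j
  refine xwin1_coprime a1 a2 b1 b2 fun e => ?_
  rw [e] at a3 a4
  rcases lt_or_gt_of_ne (fun e' => h (Fin.ext e') : (i : ℕ) ≠ j) with hl | hl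
  · have : (i + 2) * tt p M ≤ (j + 1) * tt p M := Nat.mul_le_mul_right _ (by omega)
    omega
  · have : (j + 2) * tt p M ≤ (i + 1) * tt p M := Nat.mul_le_mul_right _ (by omega)
    omega

theorem xwin1_sum {k : ℕ} (hk : 2 ≤ k) : 3 ≤ ∑ j : Fin k, ((j : ℕ) + 1) := by
  obtain ⟨n, rfl⟩ := Nat.exists_eq_add_of_le' hk
  rw [Fin.sum_univ_succ, Fin.sum_univ_succ]
  simp only [Fin.val_zero, Fin.val_succ]
  omega

theorem xwin1_lt (hp : 3 ≤ p) : M < p * (M / p + 1) := Nat.lt_mul_div_succ M (by omega)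

theorem xwin1_count (hp : 3 ≤ p) {W : F[X]} (h0 : W ≠ 0) (hW : W.natDegree ≤ M) {j : ℕ}
    (hj : j < p - 1) : ∑ R ∈ win F p M j, ind (R ∣ W) ≤ (2 * p : ℝ) := by
  classical
  have e : ∑ R ∈ win F p M j, ind (R ∣ W) = (((win F p M j).filter (· ∣ W)).card : ℝ) := by
    rw [card_filter]
    push_cast
    refine sum_congr rfl fun R _ => ?_
    by_cases h : R ∣ W
    · rw [ind_pos h, if_pos h]
    · rw [ind_neg h, if_neg h]
  rw [e]
  set S := (win F p M j).filter (· ∣ W) with hS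
  have hm : ∀ R ∈ S, R.Monic ∧ Irreducible R ∧ M / p - p * tt p M + 1 ≤ R.natDegree ∧ R ∣ W := by
    intro R hR
    obtain ⟨h1, h2⟩ := mem_filter.1 hR
    obtain ⟨a1, a2, a3, a4, a5⟩ := xwin1_mem hp hj h1
    have h7 := xwin1_tt (M := M) hp
    have h8 := xwin1_pt (M := M) hp
    rw [mul_assoc] at h7
    exact ⟨a1, a2, by omega, h2⟩
  have hd : (∏ R ∈ S, R) ∣ W := prod_dvd_of_coprime (fun R hR T hT hne =>
    xwin1_coprime (hm R hR).1 (hm R hR).2.1 (hm T hT).1 (hm T hT).2.1 hne)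
    fun R hR => (hm R hR).2.2.2
  have h1 := natDegree_le_of_dvd hd h0
  rw [natDegree_prod_of_monic _ _ fun R hR => (hm R hR).1] at h1
  have h2 : S.card * (M / p - p * tt p M + 1) ≤ ∑ R ∈ S, R.natDegree := by
    rw [← smul_eq_mul]
    exact card_nsmul_le_sum _ _ _ fun R hR => (hm R hR).2.2.1
  have h7 := xwin1_tt (M := M) hp
  have h8 := xwin1_pt (M := M) hp
  rw [mul_assoc] at h7
  have h3 : p * (M / p + 1) ≤ 2 * p * (M / p - p * tt p M + 1) := by
    rw [mul_comm 2 p, mul_assoc]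
    exact Nat.mul_le_mul_left _ (by omega)
  have h4 := xwin1_lt (M := M) hp
  have h5 : S.card ≤ 2 * p := Nat.le_of_mul_le_mul_right (c := M / p - p * tt p M + 1)
    (by omega) (Nat.succ_pos _)
  exact_mod_cast h5

theorem mem_TW (hp : 3 ≤ p) {P : Fin (p - 1) → F[X]} (hP : P ∈ TW F p M) (j : Fin (p - 1)) :
    (P j).Monic ∧ Irreducible (P j) ∧ M / p - p * tt p M < (P j).natDegree ∧
      (P j).natDegree ≤ high p M := by
  obtain ⟨a1, a2, a3, a4, a5⟩ := xwin1_memTW hp hP j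
  have h7 := xwin1_tt (M := M) hp
  have h8 := xwin1_pt (M := M) hp
  rw [mul_assoc] at h7
  have h6 : tt p M ≤ (j + 1) * tt p M := Nat.le_mul_of_pos_left _ (Nat.succ_pos _)
  refine ⟨a1, a2, by omega, ?_⟩
  rw [high]
  omega

theorem deg_TW (hp : 3 ≤ p) {P : Fin (p - 1) → F[X]} (hP : P ∈ TW F p M) :
    (∏ j, P j).natDegree + 3 * tt p M ≤ (p - 1) * (M / p) ∧
      M ≤ (∏ j, P j).natDegree + high p M + low p M := by
  rw [natDegree_prod_of_monic _ _ fun j _ => (xwin1_memTW hp hP j).1]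
  have hc : ∀ b : ℕ, ∑ _j : Fin (p - 1), b = (p - 1) * b := fun b => by simp
  constructor
  · have h1 : ∑ j : Fin (p - 1), ((P j).natDegree + (j + 1) * tt p M) ≤
        ∑ _j : Fin (p - 1), M / p := sum_le_sum fun j _ => (xwin1_memTW hp hP j).2.2.2.1
    rw [hc, sum_add_distrib, ← sum_mul] at h1
    have h2 := Nat.mul_le_mul_right (tt p M) (xwin1_sum (k := p - 1) (by omega))
    omega
  · have h1 : ∑ _j : Fin (p - 1), (M / p + 1) ≤
        ∑ j : Fin (p - 1), ((P j).natDegree + p * tt p M) := sum_le_sum fun j _ => by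
      obtain ⟨-, -, a3, -, a5⟩ := xwin1_memTW hp hP j
      omega
    rw [hc, sum_add_distrib, hc] at h1
    have h4 := xwin1_lt (M := M) hp
    have h7 := xwin1_tt (M := M) hp
    have h8 := xwin1_pt (M := M) hp
    rw [mul_assoc] at h7
    have h5 : p * (M / p + 1) = (p - 1) * (M / p + 1) + (M / p + 1) := by
      obtain ⟨n, rfl⟩ : ∃ n, p = n + 1 := ⟨p - 1, by omega⟩
      rw [Nat.add_sub_cancel]; ring
    have h6 : (p - 1) * (p * tt p M) ≤ p ^ 2 * tt p M := by
      rw [sq, mul_assoc]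
      exact Nat.mul_le_mul_right _ (by omega)
    rw [high, low, mul_assoc]
    omega

theorem sqf_TW (hp : 3 ≤ p) {P : Fin (p - 1) → F[X]} (hP : P ∈ TW F p M) :
    (∏ j, P j).Monic ∧ Squarefree (∏ j, P j) := by
  exact ⟨monic_prod_of_monic _ _ fun j _ => (xwin1_memTW hp hP j).1,
    squarefree_prod_of_pairwise_isCoprime (fun i _ j _ h => (xwin1_ne hp hP h).isRelPrime)
      fun j _ => (xwin1_memTW hp hP j).2.1.squarefree⟩

theorem count_TW (hp : 3 ≤ p) {W : F[X]} (h0 : W ≠ 0) (hW : W.natDegree ≤ M) :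
    ∑ P ∈ TW F p M, ind (∏ j, P j ∣ W) ≤ (2 * p : ℝ) ^ p := by
  have hp' : (1 : ℝ) ≤ 2 * p := by
    have : (3 : ℝ) ≤ p := by exact_mod_cast hp
    linarith
  calc ∑ P ∈ TW F p M, ind (∏ j, P j ∣ W)
      ≤ ∑ P ∈ TW F p M, ∏ j, ind (P j ∣ W) := sum_le_sum fun P _ => by
        by_cases h : ∏ j, P j ∣ W
        · rw [ind_pos h, prod_eq_one fun j _ => ind_pos ((dvd_prod_of_mem P (mem_univ j)).trans h)]
        · rw [ind_neg h]
          exact prod_nonneg fun j _ => ind_nonneg _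
    _ = ∏ j : Fin (p - 1), ∑ R ∈ win F p M j, ind (R ∣ W) :=
        (prod_univ_sum (fun j : Fin (p - 1) => win F p M j) fun _ R => ind (R ∣ W)).symm
    _ ≤ ∏ _j : Fin (p - 1), (2 * p : ℝ) := prod_le_prod
        (fun j _ => sum_nonneg fun R _ => ind_nonneg _) fun j _ => xwin1_count hp h0 hW j.2
    _ = (2 * p : ℝ) ^ (p - 1) := by simp
    _ ≤ (2 * p : ℝ) ^ p := pow_le_pow_right₀ hp' (Nat.sub_le _ _)

omit [Fintype F] in
theorem split_two {c : F[X]} (hc : c.Monic) {lo hi : ℕ} (h2 : 2 * lo ≤ hi)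
    (hd : c.natDegree ≤ hi + lo) (hs : ∀ R : F[X], Irreducible R → R ∣ c → R.natDegree ≤ hi) :
    ∃ c₁ c₂ : F[X], c₁.Monic ∧ c₂.Monic ∧ c = c₁ * c₂ ∧ c₁.natDegree ≤ hi ∧
      c₂.natDegree ≤ hi := by
  classical
  by_cases h : c.natDegree ≤ hi
  · exact ⟨c, 1, hc, monic_one, (mul_one c).symm, h, by simp⟩
  have hex : ∃ n, ∃ d : F[X], d.Monic ∧ d ∣ c ∧ lo ≤ d.natDegree ∧ d.natDegree = n :=
    ⟨_, c, hc, dvd_rfl, by omega, rfl⟩
  obtain ⟨c₁, m1, ⟨c₂, e⟩, hl, hn⟩ := Nat.find_spec hex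
  have hmin : ∀ d : F[X], d.Monic → d ∣ c → lo ≤ d.natDegree → c₁.natDegree ≤ d.natDegree :=
    fun d h1 h2 h3 => hn ▸ Nat.find_min' hex ⟨d, h1, h2, h3, rfl⟩
  have m2 : c₂.Monic := m1.of_mul_monic_left (e ▸ hc)
  have hdeg : c.natDegree = c₁.natDegree + c₂.natDegree := by rw [e, m1.natDegree_mul m2]
  refine ⟨c₁, c₂, m1, m2, e, ?_, by omega⟩
  by_contra hlt
  have hu : ¬ IsUnit c₁ := fun hu => by
    have := natDegree_eq_zero_of_isUnit hu
    omega
  obtain ⟨R, r1, r2, d, e'⟩ := exists_monic_irreducible_factor c₁ hu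
  have m3 : d.Monic := r1.of_mul_monic_left (e' ▸ m1)
  have hdeg' : c₁.natDegree = R.natDegree + d.natDegree := by rw [e', r1.natDegree_mul m3]
  have hR : R ∣ c := ⟨d * c₂, by rw [e, e', mul_assoc]⟩
  have hd' : d ∣ c := ⟨R * c₂, by rw [e, e']; ring⟩
  have h3 := hs R r2 hR
  have h4 := r2.natDegree_pos
  have h5 := hmin R r1 hR
  have h6 := hmin d m3 hd'
  omega

theorem gw_good (hp : 3 ≤ p) {W : F[X]} (h0 : W ≠ 0) (hW : W.natDegree = M) :
    0 ≤ gw p M W ∧ gw p M W ≤ 1 ∧ (gw p M W ≠ 0 → GoodW (WI p) (low p M) (high p M) W) := by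
  classical
  have hp' : (0 : ℝ) < (2 * p) ^ p := by
    have : (0 : ℝ) < p := by exact_mod_cast (show 0 < p by omega)
    positivity
  refine ⟨div_nonneg (sum_nonneg fun P _ => mul_nonneg (ind_nonneg _) (ind_nonneg _)) hp'.le,
    ?_, fun hne => ?_⟩
  · rw [gw, div_le_one hp']
    refine le_trans (sum_le_sum fun P _ => ?_) (count_TW hp h0 hW.le)
    exact mul_le_of_le_one_left (ind_nonneg _) (ind_le_one _)
  obtain ⟨P, hP, hz⟩ := exists_ne_zero_of_sum_ne_zero (div_ne_zero_iff.1 hne).1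
  have hd : ∏ j, P j ∣ W := by
    by_contra h
    exact hz (by rw [ind_neg h, mul_zero])
  obtain ⟨W', e⟩ := hd
  have h0' : W' ≠ 0 := fun h => h0 (by rw [e, h, mul_zero])
  have hl : W'.leadingCoeff ≠ 0 := leadingCoeff_ne_zero.2 h0'
  obtain ⟨c, hc, ec, hcd⟩ : ∃ c : F[X], c.Monic ∧ W' = C W'.leadingCoeff * c ∧
      c.natDegree = W'.natDegree := by
    refine ⟨W' * C W'.leadingCoeff⁻¹, monic_mul_leadingCoeff_inv h0', ?_,
      natDegree_mul_leadingCoeff_inv _ h0'⟩
    rw [mul_left_comm, ← C_mul, mul_inv_cancel₀ hl, C_1, mul_one]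
  have hm := (sqf_TW hp hP).1
  have hdeg : (∏ j, P j).natDegree + c.natDegree = M := by
    rw [← hW, e, natDegree_mul hm.ne_zero h0', hcd]
  have hcl : c.natDegree ≤ high p M + low p M := by
    have := (deg_TW hp hP).2
    omega
  have h7 := xwin1_tt (M := M) hp
  have h8 := xwin1_pt (M := M) hp
  rw [mul_assoc] at h7
  have hlow : low p M = 10 * (p ^ 2 * tt p M) := by rw [low, mul_assoc]
  have hhigh : high p M = M / p - tt p M := rfl
  by_cases hA : ∃ R : F[X], R.Monic ∧ Irreducible R ∧ R ∣ c ∧ high p M < R.natDegree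
  · obtain ⟨R, r1, r2, ⟨d, ed⟩, r4⟩ := hA
    have md : d.Monic := r1.of_mul_monic_left (ed ▸ hc)
    have hdd : c.natDegree = R.natDegree + d.natDegree := by rw [ed, r1.natDegree_mul md]
    have key : ∀ g : F[X], g.Monic → g.natDegree ≤ high p M →
        g.Monic ∧ g.natDegree ≤ high p M ∧ ¬ R ∣ g := fun g g1 g2 =>
      ⟨g1, g2, fun h => by have := natDegree_le_of_dvd h g1.ne_zero; omega⟩
    refine ⟨W'.leadingCoeff, R, Sum.elim P fun b => cond b d 1, hl, r1, r2, ?_, by omega,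
      by omega, ?_⟩
    · rw [Fintype.prod_sum_type, Fintype.prod_bool]
      simp only [Sum.elim_inl, Sum.elim_inr, cond_true, cond_false]
      rw [e]
      conv_lhs => rw [ec, ed]
      ring
    · rintro (j | b)
      · exact key _ (mem_TW hp hP j).1 (mem_TW hp hP j).2.2.2
      · cases b
        · exact key _ monic_one (by simp)
        · exact key d md (by omega)
  · have hs : ∀ R : F[X], Irreducible R → R ∣ c → R.natDegree ≤ high p M := by
      intro R r1 r2
      obtain ⟨S, s1, s2, s3⟩ := exists_monic_irreducible_factor R r1.not_isUnit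
      have h1 : R.natDegree ≤ S.natDegree :=
        natDegree_le_of_dvd (s2.associated_of_dvd r1 s3).symm.dvd s1.ne_zero
      by_contra h
      exact hA ⟨S, s1, s2, s3.trans r2, by omega⟩
    obtain ⟨c₁, c₂, m1, m2, e12, d1, d2⟩ := split_two hc (lo := low p M) (by omega) hcl hs
    obtain ⟨j₀, hj₀⟩ : ∃ j₀, ¬ P j₀ ∣ c := by
      by_contra h
      push Not at h
      let i₀ : Fin (p - 1) := ⟨0, by omega⟩
      let i₁ : Fin (p - 1) := ⟨1, by omega⟩
      have hne' : i₀ ≠ i₁ := fun h => absurd (congrArg Fin.val h) (by simp [i₀, i₁])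
      have h1 := natDegree_le_of_dvd ((xwin1_ne hp hP hne').mul_dvd (h i₀) (h i₁)) hc.ne_zero
      rw [(mem_TW hp hP i₀).1.natDegree_mul (mem_TW hp hP i₁).1] at h1
      have h2 := (mem_TW hp hP i₀).2.2.1
      have h3 := (mem_TW hp hP i₁).2.2.1
      omega
    obtain ⟨a1, a2, a3, a4⟩ := mem_TW hp hP j₀
    refine ⟨W'.leadingCoeff, P j₀, Sum.elim (fun j => if j = j₀ then 1 else P j)
      fun b => cond b c₁ c₂, hl, a1, a2, ?_, by omega, by omega, ?_⟩
    · rw [Fintype.prod_sum_type, Fintype.prod_bool]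
      simp only [Sum.elim_inl, Sum.elim_inr, cond_true, cond_false]
      have e1 : ∏ j, P j = P j₀ * ∏ j, (if j = j₀ then 1 else P j) := by
        have : P j₀ = ∏ j, (if j = j₀ then P j else 1) := by simp
        rw [this, ← prod_mul_distrib]
        refine prod_congr rfl fun j _ => ?_
        split_ifs <;> simp
      rw [e, e1]
      conv_lhs => rw [ec, e12]
      ring
    · rintro (j | b)
      · simp only [Sum.elim_inl]
        split_ifs with hj
        · exact ⟨monic_one, by simp, fun h => a2.not_isUnit (isUnit_of_dvd_one h)⟩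
        · exact ⟨(mem_TW hp hP j).1, (mem_TW hp hP j).2.2.2,
            a2.coprime_iff_not_dvd.1 (xwin1_ne hp hP (Ne.symm hj))⟩
      · cases b
        · exact ⟨m2, d2, fun h => hj₀ (e12 ▸ dvd_mul_of_dvd_right h _)⟩
        · exact ⟨m1, d1, fun h => hj₀ (e12 ▸ dvd_mul_of_dvd_left h _)⟩

end Pool.Agent.MP_4fffd4_nt.Odd

end

section

/- Existence of the weight. -/

set_option autoImplicit false

namespace Pool.Agent.MP_4fffd4_nt.Odd

open Polynomial Finset Filter Topology
open scoped BigOperators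

variable {F : Type*} [Field F] [Fintype F] {p : ℕ} [Fact p.Prime] [CharP F p]

omit [Fact p.Prime] in
theorem xwin2_t (hp : 3 ≤ p) (M : ℕ) :
    100 * p ^ 2 * tt p M ≤ M / p ∧ M / p < 100 * p ^ 2 * (tt p M + 1) := by
  have e : tt p M = M / p / (100 * p ^ 2) := by
    rw [tt, Nat.div_div_eq_div_mul]
    congr 1
    ring
  have h : 0 < 100 * p ^ 2 := by positivity
  rw [e]
  exact ⟨Nat.mul_div_le _ _, Nat.lt_mul_div_succ _ h⟩

omit [Fact p.Prime] in
theorem xwin2_low (hp : 3 ≤ p) (M : ℕ) : p * tt p M + tt p M ≤ M / p := by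
  refine le_trans ?_ (xwin2_t hp M).1
  rw [← Nat.succ_mul]
  refine Nat.mul_le_mul_right _ ?_
  nlinarith

omit [Fact p.Prime] in
theorem xwin2_top (hp : 3 ≤ p) : Tendsto (tt p) atTop atTop :=
  Nat.tendsto_div_const_atTop (by positivity)

omit [Fact p.Prime] [CharP F p] in
theorem xwin2_win (hp : 3 ≤ p) : ∀ᶠ M in atTop, ∀ j : ℕ, j + 2 ≤ p →
    1 / (400 * (p : ℝ) ^ 2) ≤ ∑ R ∈ win F p M j, 1 / (Fintype.card F : ℝ) ^ R.natDegree ∧
      ∑ R ∈ win F p M j, 1 / (Fintype.card F : ℝ) ^ R.natDegree ≤ 1 := by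
  obtain ⟨d₀, hd₀⟩ := eventually_atTop.1 (card_prm_ge (F := F))
  filter_upwards [(xwin2_top hp).eventually_ge_atTop (d₀ + 1)] with M hM j hj
  have hq := card_pos' (F := F)
  have h1 := xwin2_low hp M
  have h2 := (xwin2_t hp M).2
  have h3 : (j + 2) * tt p M ≤ p * tt p M := Nat.mul_le_mul_right _ hj
  have h4 : (j + 2) * tt p M = (j + 1) * tt p M + tt p M := by ring
  have hc : (Ioc (M / p - (j + 2) * tt p M) (M / p - (j + 1) * tt p M)).card = tt p M := by
    rw [Nat.card_Ioc]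
    omega
  have e : ∑ R ∈ win F p M j, 1 / (Fintype.card F : ℝ) ^ R.natDegree =
      ∑ d ∈ Ioc (M / p - (j + 2) * tt p M) (M / p - (j + 1) * tt p M),
        ((prm F d).card : ℝ) / (Fintype.card F : ℝ) ^ d := by
    rw [win, sum_prmI]
    refine sum_congr rfl fun d _ => ?_
    rw [sum_congr rfl fun R hR => by rw [(mem_prm.1 hR).2.2], sum_const, nsmul_eq_mul, mul_one_div]
  have ht : (1 : ℝ) ≤ tt p M := by exact_mod_cast (by omega : 1 ≤ tt p M)
  have hp' : (0 : ℝ) < p := by exact_mod_cast (by omega : 0 < p)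
  rw [e]
  constructor
  · refine le_trans ?_ (card_nsmul_le_sum _ _ (1 / (400 * (p : ℝ) ^ 2 * tt p M)) fun d hd => ?_)
    · rw [hc, nsmul_eq_mul]
      apply le_of_eq
      field_simp
    · rw [mem_Ioc] at hd
      have a : (Fintype.card F : ℝ) ^ d ≤ 2 * d * (prm F d).card := by
        exact_mod_cast hd₀ d (by omega)
      have b : (d : ℝ) ≤ 100 * p ^ 2 * (tt p M + 1) := by
        exact_mod_cast (by omega : d ≤ 100 * p ^ 2 * (tt p M + 1))
      have c : 2 * (d : ℝ) ≤ 400 * p ^ 2 * tt p M := by nlinarith [sq_nonneg (p : ℝ)]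
      rw [div_le_div_iff₀ (by positivity) (by positivity), one_mul]
      refine a.trans ?_
      rw [mul_comm]
      gcongr
  · refine (sum_le_card_nsmul _ _ (1 / (tt p M : ℝ)) fun d hd => ?_).trans_eq ?_
    · rw [mem_Ioc] at hd
      have a : (d : ℝ) * (prm F d).card ≤ (Fintype.card F : ℝ) ^ d := by
        exact_mod_cast card_prm_le (F := F) (d := d) (by omega)
      have b : (tt p M : ℝ) ≤ d := by exact_mod_cast (by omega : tt p M ≤ d)
      rw [div_le_div_iff₀ (by positivity) (by positivity), one_mul]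
      refine le_trans ?_ a
      rw [mul_comm]
      gcongr
    · rw [hc, nsmul_eq_mul]
      field_simp

omit [Fact p.Prime] [CharP F p] in
theorem sum_TW (hp : 3 ≤ p) : ∀ᶠ M in atTop,
    (1 / (400 * (p : ℝ) ^ 2)) ^ (p - 1) ≤
        ∑ P ∈ TW F p M, 1 / (Fintype.card F : ℝ) ^ (∏ j, P j).natDegree ∧
      ∑ P ∈ TW F p M, 1 / (Fintype.card F : ℝ) ^ (∏ j, P j).natDegree ≤ 1 := by
  filter_upwards [xwin2_win (F := F) hp] with M hM
  have hq := card_pos' (F := F)
  have e : ∑ P ∈ TW F p M, 1 / (Fintype.card F : ℝ) ^ (∏ j, P j).natDegree =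
      ∏ j : Fin (p - 1), ∑ R ∈ win F p M j, 1 / (Fintype.card F : ℝ) ^ R.natDegree := by
    rw [prod_univ_sum]
    refine sum_congr rfl fun P hP => ?_
    rw [natDegree_prod_of_monic _ _ fun j _ => (mem_TW hp hP j).1, ← prod_pow_eq_pow_sum,
      prod_div_distrib, prod_const_one]
  have h : ∀ j : Fin (p - 1), (j : ℕ) + 2 ≤ p := fun j => by
    have := j.2
    omega
  rw [e]
  constructor
  · refine le_trans (le_of_eq ?_) (prod_le_prod (f := fun _ => 1 / (400 * (p : ℝ) ^ 2))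
      (fun _ _ => by positivity) fun j _ => (hM j (h j)).1)
    rw [prod_const, card_univ, Fintype.card_fin]
  · exact prod_le_one (fun j _ => sum_nonneg fun _ _ => by positivity) fun j _ => (hM j (h j)).2

omit [Fact p.Prime] [CharP F p] in
theorem xwin2_group (hp : 3 ≤ p) (M ν : ℕ) : ∑ P ∈ TW F p M,
    ind (¬ Onto ν (∏ j, P j)) / (Fintype.card F : ℝ) ^ (∏ j, P j).natDegree ≤
      (2 * p : ℝ) ^ p * ∑ D ∈ range ((p - 1) * (M / p) - 3 * tt p M + 1),
        (∑ e ∈ monF F D, ind (Squarefree e ∧ ¬ Onto ν e)) / (Fintype.card F : ℝ) ^ D := by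
  classical
  have hq := card_pos' (F := F)
  have hK : (p - 1) * (M / p) ≤ M :=
    (Nat.mul_le_mul_right _ (Nat.sub_le p 1)).trans (Nat.mul_div_le M p)
  have e : ∑ D ∈ range ((p - 1) * (M / p) - 3 * tt p M + 1),
      (∑ e ∈ monF F D, ind (Squarefree e ∧ ¬ Onto ν e)) / (Fintype.card F : ℝ) ^ D =
      ∑ e ∈ monLE F ((p - 1) * (M / p) - 3 * tt p M),
        ind (Squarefree e ∧ ¬ Onto ν e) / (Fintype.card F : ℝ) ^ e.natDegree := by
    rw [sum_monLE]
    refine sum_congr rfl fun D _ => ?_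
    rw [sum_div]
    exact sum_congr rfl fun e he => by rw [(mem_monF.1 he).2]
  rw [e, mul_sum, ← sum_fiberwise_of_maps_to (s := TW F p M)
    (t := monLE F ((p - 1) * (M / p) - 3 * tt p M)) (g := fun P => ∏ j, P j) fun P hP =>
      mem_monLE.2 ⟨(sqf_TW hp hP).1, by have := (deg_TW hp hP).1; omega⟩]
  refine sum_le_sum fun e he => ?_
  obtain ⟨h1, h2⟩ := mem_monLE.1 he
  refine le_trans ?_ (mul_le_mul_of_nonneg_right (count_TW (M := M) hp h1.ne_zero (by omega))
    (div_nonneg (ind_nonneg _) (by positivity)))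
  rw [sum_mul, sum_filter]
  refine sum_le_sum fun P hP => ?_
  split_ifs with h
  · rw [ind_pos (h ▸ dvd_rfl : ∏ j, P j ∣ e), one_mul, h,
      ind_congr (and_iff_right (h ▸ (sqf_TW hp hP).2 : Squarefree e))]
  · exact mul_nonneg (ind_nonneg _) (div_nonneg (ind_nonneg _) (by positivity))

theorem xwin2_bound (hp : 3 ≤ p) {M : ℕ} (hM : 1 ≤ tt p M) : ∑ P ∈ TW F p M,
    ind (¬ Onto (M - tt p M) (∏ j, P j)) / (Fintype.card F : ℝ) ^ (∏ j, P j).natDegree ≤
      (2 * p : ℝ) ^ p * (100 * p ^ 3) ^ 2 * Fintype.card F * 2 *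
        (((tt p M + 1 : ℕ) : ℝ) ^ 2 / 2 ^ (tt p M + 1)) := by
  have hq := card_pos' (F := F)
  have hq2 := two_le_card (F := F)
  have h1 := xwin2_low hp M
  have h2 : (p - 1) * (M / p) + M / p ≤ M := by
    rw [← Nat.succ_mul, Nat.succ_eq_add_one, Nat.sub_add_cancel (by omega)]
    exact Nat.mul_div_le M p
  have h3 : M < 100 * p ^ 3 * (tt p M + 1) := Nat.lt_mul_div_succ _ (by positivity)
  have h4 : (M - tt p M) / p ≤ M / p := Nat.div_le_div_right (Nat.sub_le _ _)
  have h5 : 3 * tt p M ≤ p * tt p M := Nat.mul_le_mul_right _ hp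
  have h6 : M / p ≤ (p - 1) * (M / p) := Nat.le_mul_of_pos_left _ (by omega)
  have hK : (((p - 1) * (M / p) - 3 * tt p M + 1 : ℕ) : ℝ) ≤
      100 * p ^ 3 * ((tt p M + 1 : ℕ) : ℝ) := by
    exact_mod_cast (by omega : (p - 1) * (M / p) - 3 * tt p M + 1 ≤ 100 * p ^ 3 * (tt p M + 1))
  refine (xwin2_group hp M _).trans ?_
  rw [mul_assoc, mul_assoc, mul_assoc]
  refine mul_le_mul_of_nonneg_left ?_ (by positivity)
  refine (sum_le_card_nsmul _ _ (100 * p ^ 3 * ((tt p M + 1 : ℕ) : ℝ) *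
    (Fintype.card F / 2 ^ tt p M)) fun D hD => ?_).trans ?_
  · rw [mem_range] at hD
    have a := card_bad (F := F) (p := p) (ν := M - tt p M) (D := D) (by omega)
    have b : (D : ℝ) + 1 ≤ 100 * p ^ 3 * ((tt p M + 1 : ℕ) : ℝ) := by
      refine le_trans ?_ hK
      exact_mod_cast (by omega : D + 1 ≤ (p - 1) * (M / p) - 3 * tt p M + 1)
    refine (div_le_div_of_nonneg_right a (by positivity)).trans ?_
    rw [mul_div_assoc, mul_div_assoc]
    refine mul_le_mul b ?_ (by positivity) (by positivity)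
    rw [div_div, div_le_div_iff₀ (by positivity) (by positivity), ← pow_add, ← pow_succ']
    calc (Fintype.card F : ℝ) ^ ((M - tt p M) / p + 1 + 2 * D) * 2 ^ tt p M
        ≤ (Fintype.card F : ℝ) ^ ((M - tt p M) / p + 1 + 2 * D) *
          (Fintype.card F : ℝ) ^ tt p M := by gcongr
      _ ≤ _ := by
        rw [← pow_add]
        exact pow_le_pow_right₀ (by linarith) (by omega)
  · rw [card_range, nsmul_eq_mul]
    refine (mul_le_mul_of_nonneg_right hK (by positivity)).trans_eq ?_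
    rw [pow_succ (2 : ℝ)]
    field_simp

theorem bad_TW (hp : 3 ≤ p) : Tendsto (fun M : ℕ => ∑ P ∈ TW F p M,
    ind (¬ Onto (M - tt p M) (∏ j, P j)) / (Fintype.card F : ℝ) ^ (∏ j, P j).natDegree)
    atTop (𝓝 0) := by
  have hq := card_pos' (F := F)
  have h := ((tendsto_pow_const_div_const_pow_of_one_lt 2 (r := 2) one_lt_two).comp
    ((tendsto_add_atTop_nat 1).comp (xwin2_top hp))).const_mul
    ((2 * p : ℝ) ^ p * (100 * p ^ 3) ^ 2 * Fintype.card F * 2)
  rw [mul_zero] at h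
  refine squeeze_zero' (Eventually.of_forall fun M => sum_nonneg fun _ _ =>
    div_nonneg (ind_nonneg _) (by positivity)) ?_ h
  filter_upwards [(xwin2_top hp).eventually_ge_atTop 1] with M hM
  exact xwin2_bound hp hM

omit [Fact p.Prime] [CharP F p] in
theorem equi_gw (hp : 3 ≤ p) {Q : F[X]} (c : ℕ) (hQ : Q ≠ 0) :
    ∀ᶠ M in atTop, ∀ (D₀ : F[X]) (ν : ℕ), M ≤ ν + c →
      𝔼 v ∈ ltF F ν, gw p M (D₀ + Q ^ p * derivative v) = rw0 F p M := by
  filter_upwards [(xwin2_top hp).eventually_ge_atTop c,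
    (xwin2_top hp).eventually_ge_atTop Q.natDegree] with M h1 h2 D₀ ν hν
  have h3 := xwin2_low hp M
  simp only [gw, rw0]
  rw [← expect_div, expect_sum_comm]
  congr 1
  refine sum_congr rfl fun P hP => ?_
  rw [← mul_expect]
  by_cases h : Onto (M - tt p M) (∏ j, P j)
  · rw [expect_dvd (sqf_TW hp hP).1 (IsCoprime.pow_left (IsCoprime.prod_right fun j _ => ?_))
      (h.mono (by omega)), mul_one_div]
    obtain ⟨-, a, b, -⟩ := mem_TW hp hP j
    refine (a.coprime_iff_not_dvd.2 fun hd => ?_).symm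
    have := natDegree_le_of_dvd hd hQ
    omega
  · rw [ind_neg h, zero_mul, zero_div]

theorem exists_weight (hp : p ≠ 2) :
    ∃ ρ₀ : ℝ, Weight p (WI p) (gw p : ℕ → F[X] → ℝ) (rw0 F p) ρ₀ (low p) (high p) := by
  have h3 : 3 ≤ p := by
    have := (Fact.out : p.Prime).two_le
    omega
  have hq := card_pos' (F := F)
  have hp' : (3 : ℝ) ≤ p := by exact_mod_cast h3
  have hc : (0 : ℝ) < (1 / (400 * (p : ℝ) ^ 2)) ^ (p - 1) / 2 := by positivity
  refine ⟨(1 / (400 * (p : ℝ) ^ 2)) ^ (p - 1) / 2 / (2 * p) ^ p, by positivity,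
    fun M W h0 hW => gw_good h3 h0 hW, ?_, ?_, fun c => ?_, fun Q c hQ => equi_gw h3 c hQ⟩
  · filter_upwards [sum_TW (F := F) h3, (bad_TW (F := F) h3).eventually (gt_mem_nhds hc)]
      with M h1 h2
    have e : ∑ P ∈ TW F p M, ind (Onto (M - tt p M) (∏ j, P j)) /
        (Fintype.card F : ℝ) ^ (∏ j, P j).natDegree + ∑ P ∈ TW F p M,
        ind (¬ Onto (M - tt p M) (∏ j, P j)) / (Fintype.card F : ℝ) ^ (∏ j, P j).natDegree =
        ∑ P ∈ TW F p M, 1 / (Fintype.card F : ℝ) ^ (∏ j, P j).natDegree := by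
      rw [← sum_add_distrib]
      refine sum_congr rfl fun P _ => ?_
      by_cases h : Onto (M - tt p M) (∏ j, P j)
      · rw [ind_pos h, ind_neg (not_not.2 h), zero_div, add_zero]
      · rw [ind_neg h, ind_pos h, zero_div, zero_add]
    have n : 0 ≤ ∑ P ∈ TW F p M,
        ind (¬ Onto (M - tt p M) (∏ j, P j)) / (Fintype.card F : ℝ) ^ (∏ j, P j).natDegree :=
      sum_nonneg fun _ _ => div_nonneg (ind_nonneg _) (by positivity)
    have o : (1 : ℝ) ≤ (2 * p) ^ p := one_le_pow₀ (by linarith)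
    rw [rw0]
    exact ⟨div_le_div_of_nonneg_right (by linarith [h1.1]) (by positivity),
      (div_le_one (by positivity)).2 (by linarith [h1.2])⟩
  · exact tendsto_atTop_mono (fun M => Nat.le_mul_of_pos_left _ (by positivity)) (xwin2_top h3)
  · filter_upwards [(xwin2_top h3).eventually_ge_atTop c] with M hM
    have := xwin2_low h3 M
    rw [high]
    omega

end Pool.Agent.MP_4fffd4_nt.Odd

end

section

/- Sequences that are small on average. -/

set_option autoImplicit false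

namespace Pool.Agent.MP_4fffd4_nt.Odd

open Polynomial Finset Filter Topology
open scoped BigOperators

theorem xbz_zero : BZ fun _ => 0 := fun ε hε => ⟨0, fun M _ N => by
  simp only [abs_zero, sum_const_zero]
  positivity⟩

theorem xbz_key {v : ℕ → ℝ}
    (h : ∀ ε : ℝ, 0 < ε → ∃ w, BZ w ∧ ∀ᶠ n in atTop, |v n| ≤ ε + |w n|) : BZ v := by
  intro ε hε
  obtain ⟨w, hw, hv⟩ := h (ε / 3) (by positivity)
  obtain ⟨n₀, hn₀⟩ := eventually_atTop.1 hv
  obtain ⟨M₀, hM₀⟩ := hw (ε / 3) (by positivity)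
  obtain ⟨M₁, hM₁⟩ := exists_nat_ge ((∑ n ∈ range n₀, |v n|) / (ε / 3))
  refine ⟨max M₀ M₁, fun M hM N => ?_⟩
  have h1 := hM₀ M (le_of_max_le_left hM) N
  have h2 : ∑ n ∈ range n₀, |v n| ≤ ε / 3 * M := by
    rw [div_le_iff₀ (by positivity)] at hM₁
    have h3 : (M₁ : ℝ) ≤ M := by exact_mod_cast le_of_max_le_right hM
    nlinarith
  have h3 : ∑ n ∈ Ico N (N + M), (if n < n₀ then |v n| else 0) ≤ ∑ n ∈ range n₀, |v n| := by
    rw [← sum_filter]
    exact sum_le_sum_of_subset_of_nonneg (fun n hn => mem_range.2 (mem_filter.1 hn).2)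
      fun _ _ _ => abs_nonneg _
  have h4 : ∑ n ∈ Ico N (N + M), |v n| ≤
      ∑ n ∈ Ico N (N + M), (ε / 3 + |w n| + if n < n₀ then |v n| else 0) := by
    refine sum_le_sum fun n _ => ?_
    split_ifs with hn
    · have := abs_nonneg (w n)
      linarith
    · rw [add_zero]
      exact hn₀ n (not_lt.1 hn)
  rw [sum_add_distrib, sum_add_distrib, sum_const, Nat.card_Ico, Nat.add_sub_cancel_left,
    nsmul_eq_mul] at h4
  linarith

theorem BZ.add {u v : ℕ → ℝ} (hu : BZ u) (hv : BZ v) : BZ fun n => u n + v n := by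
  intro ε hε
  obtain ⟨M₀, h₀⟩ := hu (ε / 2) (by positivity)
  obtain ⟨M₁, h₁⟩ := hv (ε / 2) (by positivity)
  refine ⟨max M₀ M₁, fun M hM N => ?_⟩
  have h2 := h₀ M (le_of_max_le_left hM) N
  have h3 := h₁ M (le_of_max_le_right hM) N
  have h4 : ∑ n ∈ Ico N (N + M), |u n + v n| ≤ ∑ n ∈ Ico N (N + M), (|u n| + |v n|) :=
    sum_le_sum fun n _ => abs_add_le _ _
  rw [sum_add_distrib] at h4
  linarith

theorem BZ.const_mul {u : ℕ → ℝ} (hu : BZ u) (c : ℝ) : BZ fun n => c * u n := by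
  intro ε hε
  have hc : 0 < |c| + 1 := by positivity
  obtain ⟨M₀, h₀⟩ := hu (ε / (|c| + 1)) (by positivity)
  refine ⟨M₀, fun M hM N => ?_⟩
  calc ∑ n ∈ Ico N (N + M), |c * u n| ≤ ∑ n ∈ Ico N (N + M), (|c| + 1) * |u n| := by
        refine sum_le_sum fun n _ => ?_
        rw [abs_mul]
        exact mul_le_mul_of_nonneg_right (by linarith) (abs_nonneg _)
    _ = (|c| + 1) * ∑ n ∈ Ico N (N + M), |u n| := (mul_sum _ _ _).symm
    _ ≤ (|c| + 1) * (ε / (|c| + 1) * M) := mul_le_mul_of_nonneg_left (h₀ M hM N) hc.le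
    _ = ε * M := by field_simp

theorem BZ.sum {ι : Type*} (s : Finset ι) {u : ι → ℕ → ℝ} (hu : ∀ i ∈ s, BZ (u i)) :
    BZ fun n => ∑ i ∈ s, u i n := by
  classical
  induction s using Finset.induction_on with
  | empty => simpa using xbz_zero
  | insert a s ha ih =>
    simp only [sum_insert ha]
    exact (hu a (mem_insert_self _ _)).add (ih fun i hi => hu i (mem_insert_of_mem hi))

theorem BZ.shift {u : ℕ → ℝ} (hu : BZ u) (k : ℕ) : BZ fun n => u (n + k) := by
  intro ε hε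
  obtain ⟨M₀, h₀⟩ := hu ε hε
  refine ⟨M₀, fun M hM N => ?_⟩
  have h1 := h₀ M hM (N + k)
  rwa [Nat.add_right_comm, ← sum_Ico_add' (fun n => |u n|)] at h1

theorem BZ.of_tendsto {u : ℕ → ℝ} (hu : Tendsto u atTop (𝓝 0)) : BZ u := by
  refine xbz_key fun ε hε => ⟨_, xbz_zero, ?_⟩
  have h : Tendsto (fun n => |u n|) atTop (𝓝 0) := by simpa using hu.abs
  filter_upwards [h.eventually (Iic_mem_nhds hε)] with n hn
  rw [abs_zero, add_zero]
  exact hn

theorem BZ.of_le {u v : ℕ → ℝ} (hu : BZ u) (h : ∀ᶠ n in atTop, |v n| ≤ |u n|) : BZ v :=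
  xbz_key fun ε hε => ⟨u, hu, h.mono fun n hn => by linarith⟩

theorem BZ.of_ind {u : ℕ → ℝ} {c : ℝ} (hb : ∀ n, |u n| ≤ c)
    (h : ∀ ε : ℝ, 0 < ε → BZ fun n => ind (ε ≤ |u n|)) : BZ u := by
  refine xbz_key fun ε hε => ⟨_, (h ε hε).const_mul c, Eventually.of_forall fun n => ?_⟩
  by_cases hn : ε ≤ |u n|
  · rw [ind_pos hn, mul_one]
    have := le_abs_self c
    have := hb n
    linarith
  · rw [ind_neg hn, mul_zero, abs_zero, add_zero]
    exact (not_le.1 hn).le

end Pool.Agent.MP_4fffd4_nt.Odd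

end

section

/- Summation over scales. -/

set_option autoImplicit false

namespace Pool.Agent.MP_4fffd4_nt.Odd

open Polynomial Finset Filter Topology
open scoped BigOperators

theorem xscale_block (f : ℕ → ℝ) (a g : ℕ) (hg : g ≤ a)
    (anti : ∀ D D', D ≤ D' → D' ≤ 4 * a → f D' ≤ f D) :
    ∑ D ∈ Ico a (2 * a), (f D - f (D + g)) ≤ g * (f a - f (4 * a)) := by
  rw [sum_sub_distrib, sum_Ico_add' f a (2 * a) g,
    ← sum_Ico_consecutive f (show a ≤ a + g by omega) (show a + g ≤ 2 * a by omega),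
    ← sum_Ico_consecutive f (show a + g ≤ 2 * a by omega) (show 2 * a ≤ 2 * a + g by omega)]
  have h1 : ∑ D ∈ Ico a (a + g), f D ≤ g * f a := by
    have := sum_le_card_nsmul (Ico a (a + g)) f (f a) fun D hD => by
      rw [mem_Ico] at hD; exact anti _ _ hD.1 (by omega)
    simpa using this
  have h2 : g * f (4 * a) ≤ ∑ D ∈ Ico (2 * a) (2 * a + g), f D := by
    have := card_nsmul_le_sum (Ico (2 * a) (2 * a + g)) f (f (4 * a)) fun D hD => by
      rw [mem_Ico] at hD; exact anti _ _ (by omega) le_rfl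
    simpa using this
  linarith

theorem xscale_shift (u : ℕ → ℝ) (h0 : ∀ n, 0 ≤ u n) (h1 : ∀ n, u n ≤ 1) (N M T D : ℕ)
    (hD : D ≤ T) :
    ∑ n ∈ Ico N (N + M), u n - T ≤ ∑ m ∈ Ico (N + T) (N + T + M), u (m - D) := by
  obtain ⟨s, rfl⟩ := Nat.exists_eq_add_of_le hD
  have e1 : ∑ m ∈ Ico (N + (D + s)) (N + (D + s) + M), u (m - D)
      = ∑ n ∈ Ico (N + s) (N + s + M), u n := by
    rw [show N + (D + s) = N + s + D by ring, show N + s + D + M = N + s + M + D by ring,
      ← sum_Ico_add' (fun m => u (m - D))]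
    simp
  have e2 : ∑ n ∈ Ico N (N + M), u n ≤ ∑ n ∈ Ico N (N + s + M), u n :=
    sum_le_sum_of_subset_of_nonneg (Ico_subset_Ico le_rfl (by omega)) fun n _ _ => h0 n
  have e3 : ∑ n ∈ Ico N (N + s), u n ≤ s := by
    have := sum_le_card_nsmul (Ico N (N + s)) u 1 fun n _ => h1 n
    simpa using this
  rw [← sum_Ico_consecutive u (show N ≤ N + s by omega) (show N + s ≤ N + s + M by omega)] at e2
  rw [e1]
  push_cast
  have : (0 : ℝ) ≤ D := Nat.cast_nonneg D
  linarith

theorem xscale_pow (i : ℕ) : 3 * i + 1 ≤ 4 ^ i := by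
  induction i with
  | zero => simp
  | succ i ih => rw [pow_succ]; omega

theorem scale_lemma (h : ℕ → ℕ → ℝ) (bad : ℕ → Prop) {Λ c A : ℝ} (h₀ : ℕ) (hc : 0 < c)
    (hb : ∀ m H, H ≤ m → 0 ≤ h m H ∧ h m H ≤ Λ)
    (anti : ∀ m H H', H ≤ H' → H' ≤ m → h m H' ≤ h m H)
    (step : ∀ᶠ D : ℕ in atTop, ∀ᶠ m in atTop, bad (m - D) → ∀ H, D + h₀ ≤ H → H ≤ m →
      h m H ≤ h m (D + h₀) - c / D + A / 2 ^ (H - D)) :
    BZ fun n => ind (bad n) := by
  intro ε hε
  obtain ⟨D0, hD0⟩ := eventually_atTop.1 step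
  obtain ⟨g0, hg0⟩ : ∃ g0 : ℕ, 2 * |A| / c ≤ 2 ^ g0 :=
    (pow_unbounded_of_one_lt (2 * |A| / c) (one_lt_two (α := ℝ))).imp fun _ h => h.le
  obtain ⟨i0, hi1, hi2⟩ : ∃ i0 : ℕ, D0 ≤ i0 ∧ g0 + 2 ≤ i0 :=
    ⟨max D0 (g0 + 2), le_max_left _ _, le_max_right _ _⟩
  obtain ⟨G, hG⟩ : ∃ G : ℕ, G = 2 * i0 + 2 + g0 := ⟨_, rfl⟩
  have hG0 : (0 : ℝ) < G := by exact_mod_cast (show 0 < G by omega)
  have hp0 := xscale_pow i0
  have hΛ : 0 ≤ Λ := (hb 0 0 le_rfl).1.trans (hb 0 0 le_rfl).2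
  obtain ⟨J, hJ⟩ : ∃ J : ℕ, 8 * G * Λ / (c * ε) < ∑ j ∈ range J, (1 / ((j : ℝ) + 1)) :=
    (Real.tendsto_sum_range_one_div_nat_succ_atTop.eventually (eventually_gt_atTop _)).exists
  obtain ⟨K, hK⟩ : ∃ K : ℝ, K = ∑ j ∈ range J, (1 / ((j : ℝ) + 1)) := ⟨_, rfl⟩
  rw [← hK] at hJ
  have hK0 : 0 < K := lt_of_le_of_lt (by positivity) hJ
  obtain ⟨T0, hT0⟩ := eventually_atTop.1 ((eventually_all_finset (Ico D0 (4 ^ (i0 + J)))).2
    fun D hD => hD0 D (mem_Ico.1 hD).1)
  obtain ⟨T, hT1, hT2⟩ : ∃ T : ℕ, T0 ≤ T ∧ 4 ^ (i0 + J) + h₀ ≤ T :=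
    ⟨max _ _, le_max_left _ _, le_max_right _ _⟩
  have hle : ∀ j < J, 4 * 4 ^ (i0 + j) ≤ 4 ^ (i0 + J) := fun j hj => by
    rw [← pow_succ']; exact Nat.pow_le_pow_right (by norm_num) (by omega)
  have key : ∀ m, T ≤ m → ∑ j ∈ range J, c / (4 * G * 4 ^ (i0 + j)) * (1 / ((j : ℝ) + 1)) *
      ∑ D ∈ Ico (4 ^ (i0 + j)) (2 * 4 ^ (i0 + j)), ind (bad (m - D)) ≤ Λ := by
    intro m hm
    have h1 : ∀ j ∈ range J, c / (4 * G * 4 ^ (i0 + j)) * (1 / ((j : ℝ) + 1)) *
        ∑ D ∈ Ico (4 ^ (i0 + j)) (2 * 4 ^ (i0 + j)), ind (bad (m - D)) ≤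
        h m (4 ^ (i0 + j) + h₀) - h m (4 ^ (i0 + (j + 1)) + h₀) := by
      intro j hj
      have hj' := hle j (mem_range.1 hj)
      have hpj := xscale_pow j
      have hg : G * (j + 1) ≤ 4 ^ (i0 + j) := by
        rw [pow_add]; exact Nat.mul_le_mul (by omega) (by omega)
      have hg2 : 2 * (i0 + j) + 2 + g0 ≤ G * (j + 1) := by
        have : 2 * j ≤ G * j := Nat.mul_le_mul_right j (by omega)
        rw [mul_add G j 1]; omega
      have hi0 : 4 ^ i0 ≤ 4 ^ (i0 + j) := Nat.pow_le_pow_right (by norm_num) (by omega)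
      have hbl := xscale_block (fun D => h m (D + h₀)) (4 ^ (i0 + j)) (G * (j + 1)) hg
        fun D D' h1 h2 => anti m _ _ (by omega) (by omega)
      have hlow : ∀ D ∈ Ico (4 ^ (i0 + j)) (2 * 4 ^ (i0 + j)),
          c / (4 * 4 ^ (i0 + j)) * ind (bad (m - D)) ≤
            h m (D + h₀) - h m (D + G * (j + 1) + h₀) := by
        intro D hD
        rw [mem_Ico] at hD
        by_cases hbad : bad (m - D)
        · rw [ind_pos hbad, mul_one]
          have h2 := hT0 m (hT1.trans hm) D (mem_Ico.2 ⟨by omega, by omega⟩) hbad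
            (D + G * (j + 1) + h₀) (by omega) (by omega)
          have hD1 : (0 : ℝ) < D := by exact_mod_cast (show 0 < D by omega)
          have hD2 : (D : ℝ) ≤ 2 * 4 ^ (i0 + j) := by exact_mod_cast hD.2.le
          have h3 : c / (2 * 4 ^ (i0 + j)) ≤ c / D := div_le_div_of_nonneg_left hc.le hD1 hD2
          have h4 : (4 : ℝ) * 4 ^ (i0 + j) * 2 ^ g0 ≤ 2 ^ (D + G * (j + 1) + h₀ - D) := by
            have : (4 : ℝ) * 4 ^ (i0 + j) * 2 ^ g0 = 2 ^ (2 * (i0 + j) + 2 + g0) := by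
              rw [pow_add (2 : ℝ) _ g0, pow_add (2 : ℝ) _ 2, pow_mul]; norm_num; ring
            rw [this]
            exact pow_le_pow_right₀ (by norm_num) (by omega)
          have h5 : A / 2 ^ (D + G * (j + 1) + h₀ - D) ≤ c / (8 * 4 ^ (i0 + j)) := by
            rw [div_le_div_iff₀ (by positivity) (by positivity)]
            rw [div_le_iff₀ hc] at hg0
            have h6 : A ≤ |A| := le_abs_self A
            have h7 : (0 : ℝ) < 4 ^ (i0 + j) := by positivity
            calc A * (8 * 4 ^ (i0 + j)) ≤ |A| * (8 * 4 ^ (i0 + j)) := by gcongr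
              _ = 2 * |A| * (4 * 4 ^ (i0 + j)) := by ring
              _ ≤ 2 ^ g0 * c * (4 * 4 ^ (i0 + j)) := by gcongr
              _ = c * (4 * 4 ^ (i0 + j) * 2 ^ g0) := by ring
              _ ≤ _ := by gcongr
          have h8 : c / (2 * 4 ^ (i0 + j)) = 4 * (c / (8 * 4 ^ (i0 + j))) := by
            field_simp; ring
          have h9 : c / (4 * 4 ^ (i0 + j)) = 2 * (c / (8 * 4 ^ (i0 + j))) := by
            field_simp; ring
          have h10 : 0 ≤ c / (8 * 4 ^ (i0 + j)) := by positivity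
          linarith
        · rw [ind_neg hbad, mul_zero, sub_nonneg]
          exact anti m _ _ (by omega) (by omega)
      have h2 := (sum_le_sum hlow).trans hbl
      rw [← mul_sum] at h2
      have e : 4 ^ (i0 + (j + 1)) = 4 * 4 ^ (i0 + j) := by rw [← add_assoc, pow_succ']
      rw [e]
      have hj0 : (0 : ℝ) < G * (j + 1) := by positivity
      refine le_of_mul_le_mul_left ?_ hj0
      refine le_of_eq_of_le ?_ (h2.trans_eq ?_)
      · field_simp
      · push_cast; ring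
    refine (sum_le_sum h1).trans ?_
    rw [sum_range_sub' (fun j => h m (4 ^ (i0 + j) + h₀))]
    have hi0 : 4 ^ (i0 + 0) ≤ 4 ^ (i0 + J) := Nat.pow_le_pow_right (by norm_num) (by omega)
    linarith [(hb m (4 ^ (i0 + 0) + h₀) (by omega)).2, (hb m (4 ^ (i0 + J) + h₀) (by omega)).1]
  obtain ⟨M₀, hM₀⟩ := exists_nat_ge (2 * T / ε)
  refine ⟨M₀, fun M hM N => ?_⟩
  simp only [abs_of_nonneg (ind_nonneg _)]
  obtain ⟨S, hS⟩ : ∃ S, S = ∑ n ∈ Ico N (N + M), ind (bad n) := ⟨_, rfl⟩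
  rw [← hS]
  have h1 := sum_le_card_nsmul (Ico (N + T) (N + T + M)) _ Λ fun m hm =>
    key m (by rw [mem_Ico] at hm; omega)
  rw [sum_comm] at h1
  have h2 : ∀ j ∈ range J, c / (4 * G) * (S - T) * (1 / ((j : ℝ) + 1)) ≤
      ∑ m ∈ Ico (N + T) (N + T + M), c / (4 * G * 4 ^ (i0 + j)) * (1 / ((j : ℝ) + 1)) *
        ∑ D ∈ Ico (4 ^ (i0 + j)) (2 * 4 ^ (i0 + j)), ind (bad (m - D)) := by
    intro j hj
    have hj' := hle j (mem_range.1 hj)
    rw [← mul_sum, sum_comm]
    have h3 := card_nsmul_le_sum (Ico (4 ^ (i0 + j)) (2 * 4 ^ (i0 + j)))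
      (fun D => ∑ m ∈ Ico (N + T) (N + T + M), ind (bad (m - D))) (S - T) fun D hD => by
        rw [mem_Ico] at hD
        rw [hS]
        exact xscale_shift (fun n => ind (bad n)) (fun _ => ind_nonneg _) (fun _ => ind_le_one _)
          N M T D (by omega)
    rw [Nat.card_Ico, show 2 * 4 ^ (i0 + j) - 4 ^ (i0 + j) = 4 ^ (i0 + j) by omega,
      nsmul_eq_mul] at h3
    refine le_of_eq_of_le ?_ (mul_le_mul_of_nonneg_left h3 (by positivity))
    push_cast
    field_simp
  have h3 := (sum_le_sum h2).trans h1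
  rw [← mul_sum, ← hK, Nat.card_Ico, show N + T + M - (N + T) = M by omega, nsmul_eq_mul] at h3
  have hM' : (M₀ : ℝ) ≤ M := by exact_mod_cast hM
  have hM0 : (0 : ℝ) ≤ M := Nat.cast_nonneg M
  rw [div_le_iff₀ hε] at hM₀
  rw [div_lt_iff₀ (by positivity)] at hJ
  have h4 : c * K * (S - T) ≤ 4 * G * Λ * M := by
    have : c / (4 * G) * (S - T) * K = c * K * (S - T) / (4 * G) := by field_simp
    rw [this, div_le_iff₀ (by positivity)] at h3
    linarith
  have h5 : c * K * (S - T) ≤ c * K * (ε * M / 2) := by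
    nlinarith [mul_le_mul_of_nonneg_right hJ.le hM0]
  have h6 := le_of_mul_le_mul_left h5 (by positivity)
  nlinarith [mul_le_mul_of_nonneg_right hM' hε.le]

end Pool.Agent.MP_4fffd4_nt.Odd

end
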