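import Mathlib
import Pool.Agent.Mg.F43e117.Ge19e10
import Pool.Agent.Mg.F43e117.Geaf9ec

section

/- An abstract variance bound. -/

set_option autoImplicit false

namespace Pool.Agent.MP_4fffd4_nt.Odd

open Polynomial Finset Filter Topology
open scoped BigOperators

/-- The Fourier transform. -/
noncomputable def xvarah {G : Type*} [AddCommGroup G] [Fintype G] (f : G → ℝ) (ξ : AddChar G ℂ) :
    ℂ := ∑ x, (f x : ℂ) * ξ x

theorem xvara_parseval {G : Type*} [AddCommGroup G] [Fintype G] (f : G → ℝ) :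
    ∑ ξ : AddChar G ℂ, ‖xvarah f ξ‖ ^ 2 = Fintype.card G * ∑ x, f x ^ 2 := by
  classical
  have h1 : ∀ ξ : AddChar G ℂ, ((‖xvarah f ξ‖ ^ 2 : ℝ) : ℂ) =
      ∑ x, ∑ y, (f x : ℂ) * f y * ξ (x - y) := fun ξ => by
    rw [Complex.ofReal_pow, ← Complex.mul_conj', xvarah, map_sum, Finset.sum_mul_sum]
    refine Finset.sum_congr rfl fun x _ => Finset.sum_congr rfl fun y _ => ?_
    rw [map_mul, Complex.conj_ofReal, ← AddChar.map_neg_eq_conj, sub_eq_add_neg,
      AddChar.map_add_eq_mul]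
    ring
  apply Complex.ofReal_injective
  rw [Complex.ofReal_sum]
  simp only [h1]
  rw [Finset.sum_comm]
  push_cast
  rw [Finset.mul_sum]
  refine Finset.sum_congr rfl fun x _ => ?_
  rw [Finset.sum_comm]
  simp only [← Finset.mul_sum, AddChar.sum_apply_eq_ite, sub_eq_zero, mul_ite, mul_zero]
  rw [Finset.sum_ite_eq]
  simp only [Finset.mem_univ, if_true]
  ring

theorem xvara_shift {G : Type*} [AddCommGroup G] [Fintype G] (f : G → ℝ) (ξ : AddChar G ℂ)
    (u : G) : xvarah (fun x => f (x + u)) ξ * ξ u = xvarah f ξ := by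
  rw [xvarah, xvarah, Finset.sum_mul, ← Equiv.sum_comp (Equiv.addRight u)
    fun x => (f x : ℂ) * ξ x]
  refine Finset.sum_congr rfl fun x _ => ?_
  rw [Equiv.coe_addRight, AddChar.map_add_eq_mul, mul_assoc]

theorem xvara_sum {G T : Type*} [AddCommGroup G] [Fintype G] [Fintype T] (φ : T → G → ℝ)
    (ξ : AddChar G ℂ) : xvarah (fun x => ∑ t, φ t x) ξ = ∑ t, xvarah (φ t) ξ := by
  simp only [xvarah]
  rw [Finset.sum_comm]
  refine Finset.sum_congr rfl fun x _ => ?_
  rw [Complex.ofReal_sum, Finset.sum_mul]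

theorem var_abstract {G A T : Type*} [AddCommGroup G] [Fintype G] [AddCommGroup A] [Fintype A]
    [Fintype T] [Nonempty T] (k : ℕ) (U : T → AddSubgroup G) (θ : T → A →+ G) (φ : T → G → ℝ)
    (hφ : ∀ t x, |φ t x| ≤ 1) (hU : ∀ t x, ∀ u ∈ U t, φ t (x + u) = φ t x)
    (hθ : ∀ t x, 𝔼 v : A, φ t (x + θ t v) = 0)
    (hsp : ∀ τ : Fin k → T, Function.Injective τ → ∀ t v,
      ∃ u : Fin k → G, (∀ i, u i ∈ U (τ i)) ∧ θ t v = ∑ i, u i) :
    𝔼 x, (𝔼 t, φ t x) ^ 2 ≤ k / Fintype.card T := by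
  classical
  have h1 : ∀ t ξ, xvarah (φ t) ξ ≠ 0 → ∀ u ∈ U t, ξ u = 1 := fun t ξ h u hu => by
    have := xvara_shift (φ t) ξ u
    simp only [hU t _ u hu] at this
    exact mul_left_cancel₀ h (this.trans (mul_one _).symm)
  have h2 : ∀ t (ξ : AddChar G ℂ), (∀ v, ξ (θ t v) = 1) → xvarah (φ t) ξ = 0 := fun t ξ h => by
    have e : ∀ x, ∑ v : A, φ t (x + θ t v) = 0 := fun x => by
      rw [← Fintype.card_mul_expect, hθ, mul_zero]
    have e2 := xvara_sum (fun (v : A) x => φ t (x + θ t v)) ξ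
    have e3 : ∀ v : A, xvarah (fun x => φ t (x + θ t v)) ξ = xvarah (φ t) ξ := fun v => by
      rw [← xvara_shift (φ t) ξ (θ t v), h, mul_one]
    simp only [e, e3, Finset.sum_const, Finset.card_univ, nsmul_eq_mul] at e2
    have e4 : xvarah (fun _ : G => (0 : ℝ)) ξ = 0 := by simp [xvarah]
    rw [e4] at e2
    exact (mul_eq_zero.1 e2.symm).resolve_left (Nat.cast_ne_zero.2 Fintype.card_ne_zero)
  have h3 : ∀ ξ : AddChar G ℂ, (Finset.univ.filter fun t => xvarah (φ t) ξ ≠ 0).card ≤ k := by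
    intro ξ
    by_contra hc
    set S := Finset.univ.filter fun t => xvarah (φ t) ξ ≠ 0 with hS
    obtain ⟨e⟩ := Function.Embedding.nonempty_of_card_le (α := Fin k) (β := S)
      (by rw [Fintype.card_fin, Fintype.card_coe]; omega)
    obtain ⟨t, ht⟩ := Finset.card_pos.1 (by omega : 0 < S.card)
    refine (Finset.mem_filter.1 ht).2 (h2 t ξ fun v => ?_)
    obtain ⟨u, hu, e'⟩ := hsp (fun i => (e i).1) (Subtype.val_injective.comp e.injective) t v
    rw [e']
    refine Finset.sum_induction u (fun g => ξ g = 1) (fun a b ha hb => ?_) ξ.map_zero_eq_one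
      fun i _ => h1 _ ξ (Finset.mem_filter.1 (e i).2).2 _ (hu i)
    rw [AddChar.map_add_eq_mul, ha, hb, mul_one]
  have h4 : ∀ ξ : AddChar G ℂ, ‖xvarah (fun x => ∑ t, φ t x) ξ‖ ^ 2 ≤
      k * ∑ t, ‖xvarah (φ t) ξ‖ ^ 2 := fun ξ => by
    rw [xvara_sum, ← Finset.sum_filter_ne_zero]
    set S := Finset.univ.filter fun t => xvarah (φ t) ξ ≠ 0 with hS
    calc ‖∑ t ∈ S, xvarah (φ t) ξ‖ ^ 2 ≤ (∑ t ∈ S, ‖xvarah (φ t) ξ‖) ^ 2 := by
          gcongr; exact norm_sum_le _ _
      _ ≤ S.card * ∑ t ∈ S, ‖xvarah (φ t) ξ‖ ^ 2 := sq_sum_le_card_mul_sum_sq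
      _ ≤ k * ∑ t, ‖xvarah (φ t) ξ‖ ^ 2 := by
          gcongr
          · exact h3 ξ
          · exact Finset.subset_univ _
  have hG : (0 : ℝ) < Fintype.card G := Nat.cast_pos.2 Fintype.card_pos
  have hT : (0 : ℝ) < Fintype.card T := Nat.cast_pos.2 Fintype.card_pos
  have h5 : ∑ x, (∑ t, φ t x) ^ 2 ≤ k * (Fintype.card T * Fintype.card G) := by
    refine le_of_mul_le_mul_left ?_ hG
    rw [← xvara_parseval]
    refine (Finset.sum_le_sum fun ξ _ => h4 ξ).trans ?_
    rw [← Finset.mul_sum, Finset.sum_comm]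
    simp only [xvara_parseval]
    have : ∀ t, ∑ x, φ t x ^ 2 ≤ (Fintype.card G : ℝ) := fun t => by
      refine (Finset.sum_le_sum fun x _ => (sq_le_one_iff_abs_le_one _).2 (hφ t x)).trans ?_
      simp
    calc (k : ℝ) * ∑ t, (Fintype.card G : ℝ) * ∑ x, φ t x ^ 2
        ≤ k * ∑ _t : T, (Fintype.card G : ℝ) * Fintype.card G := by
          gcongr with t; exact this t
      _ = _ := by simp only [Finset.sum_const, Finset.card_univ, nsmul_eq_mul]; ring
  simp only [Fintype.expect_eq_sum_div_card, div_pow]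
  rw [← Finset.sum_div, div_div, div_le_div_iff₀ (by positivity) hT]
  calc (∑ x, (∑ t, φ t x) ^ 2) * (Fintype.card T : ℝ)
      ≤ k * (Fintype.card T * Fintype.card G) * Fintype.card T := by gcongr
    _ = _ := by ring

end Pool.Agent.MP_4fffd4_nt.Odd

end

section

/- The variance of the weight over the directions. -/

set_option autoImplicit false

namespace Pool.Agent.MP_4fffd4_nt.Odd

open Polynomial Finset Filter Topology
open scoped BigOperators

variable {F : Type*} [Field F] [Fintype F] {p : ℕ} [Fact p.Prime] [CharP F p]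

omit [Fintype F] [Fact p.Prime] [CharP F p] in
theorem xvar_coeff {z : F[X]} (hz : z.Monic) (h : (z.natDegree : F) ≠ 0) :
    (derivative z).coeff (z.natDegree - 1) ≠ 0 := by
  have h0 : z.natDegree ≠ 0 := fun e => h (by rw [e, Nat.cast_zero])
  have e : z.natDegree - 1 + 1 = z.natDegree := by omega
  rw [coeff_derivative, e, hz.coeff_natDegree, one_mul, ← Nat.cast_add_one, e]
  exact h

omit [Fintype F] [CharP F p] in
theorem xvar_pow (B : F[X]) : B * B ^ (p - 1) = B ^ p := by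
  rw [← pow_succ', Nat.sub_add_cancel (Fact.out : p.Prime).one_le]

omit [Fintype F] [Fact p.Prime] in
theorem xvar_dpow (B : F[X]) : derivative (B ^ p) = 0 := by
  rw [derivative_pow, CharP.cast_eq_zero F p, C_0, zero_mul, zero_mul]

omit [Fintype F] in
theorem xvar_deg {f : F[X]} {n : ℕ} (h : f.natDegree < n) : f.degree < n :=
  degree_le_natDegree.trans_lt (by exact_mod_cast h)

omit [Fintype F] in
theorem xvar_nat {f : F[X]} {n : ℕ} (hn : 0 < n) (h : f.degree < n) : f.natDegree < n := by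
  by_cases h0 : f = 0
  · rwa [h0, natDegree_zero]
  · exact (natDegree_lt_iff_degree_lt h0).2 h

theorem xvar_coe {α : Type*} (s : Finset α) (f : α → ℝ) : 𝔼 t ∈ s, f t = 𝔼 t : s, f t.1 := by
  rw [expect_eq_sum_div_card, Fintype.expect_eq_sum_div_card, Fintype.card_coe, sum_coe_sort]

theorem monic_BB (hp : p ≠ 2) (e : ℕ) {b : ℕ} (hb : 1 ≤ b) {t : F[X]} (ht : t ∈ monF F b) :
    (BB p e t).Monic ∧ (BB p e t).natDegree = p * b + e := by
  obtain ⟨hm, hd⟩ := mem_monF.1 ht
  have h2 : 2 ≤ p := (Fact.out : p.Prime).two_le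
  have hd' : (t ^ p).natDegree = p * b := by rw [hm.natDegree_pow, hd]
  have hlt : (X : F[X]).natDegree < (t ^ p).natDegree := by
    rw [natDegree_X, hd']
    nlinarith
  have hm' : (X + t ^ p).Monic := (hm.pow p).add_of_right (degree_lt_degree hlt)
  refine ⟨(monic_X_pow e).mul hm', ?_⟩
  rw [BB, (monic_X_pow e).natDegree_mul hm', natDegree_add_eq_right_of_natDegree_lt hlt, hd',
    natDegree_X_pow, add_comm]

omit [Fintype F] [Fact p.Prime] [CharP F p] in
theorem natDegree_deriv {z : F[X]} (hz : z.Monic) (h : (z.natDegree : F) ≠ 0) :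
    (derivative z).natDegree = z.natDegree - 1 := by
  exact le_antisymm (natDegree_derivative_le z) (le_natDegree_of_ne_zero (xvar_coeff hz h))

omit [Fintype F] [Fact p.Prime] [CharP F p] in
theorem deriv_ne_zero {z : F[X]} (hz : z.Monic) (h : (z.natDegree : F) ≠ 0) :
    derivative z ≠ 0 := by
  intro e
  apply xvar_coeff hz h
  rw [e, coeff_zero]

omit [Fintype F] in
theorem deriv_shift (B y s : F[X]) :
    derivative (B * (y + B ^ (p - 1) * s ^ p)) = derivative (B * y) := by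
  have e : B * (y + B ^ (p - 1) * s ^ p) = B * y + (B * s) ^ p := by
    rw [mul_pow, mul_add, ← mul_assoc, xvar_pow]
  rw [e, derivative_add, xvar_dpow, add_zero]

theorem variance (hp : p ≠ 2) {ι : Type} [Fintype ι] {g : ℕ → F[X] → ℝ} {ρ : ℕ → ℝ} {ρ₀ : ℝ}
    {lo hi : ℕ → ℕ} (hw : Weight p ι g ρ ρ₀ lo hi) {b : ℕ} (hb : 1 ≤ b) (e : ℕ) :
    ∀ᶠ n in atTop, ((n + (p * b + e) : ℕ) : F) ≠ 0 →
      𝔼 y ∈ monF F n, (𝔼 t ∈ monF F b,
        (g (n + (p * b + e) - 1) (derivative (BB p e t * y)) - ρ (n + (p * b + e) - 1))) ^ 2 ≤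
      p / (Fintype.card F : ℝ) ^ b := by
  obtain ⟨Ω, c, hΩ, hspan⟩ := exists_span (p := p) (monF F b)
  set D := p * b + e with hD
  set K := (p - 1) * D with hK
  set c' := 2 * K + e + c + p * (e + Ω.natDegree) with hc'
  have hp1 : 1 ≤ p := (Fact.out : p.Prime).one_le
  have htend : Tendsto (fun n : ℕ => n + D - 1) atTop atTop :=
    tendsto_atTop_atTop.2 fun N => ⟨N + 1, fun n hn => by omega⟩
  have hB0 : ∀ t ∈ monF F b, BB p e t ≠ 0 := fun t ht => (monic_BB hp e hb ht).1.ne_zero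
  have hBK : ∀ t ∈ monF F b, (BB p e t ^ (p - 1)).natDegree = K := fun t ht => by
    rw [natDegree_pow, (monic_BB hp e hb ht).2]
  have hev : ∀ᶠ M in atTop, ∀ t ∈ monF F b, ∀ (D₀ : F[X]) (ν : ℕ), M ≤ ν + (D + c') →
      𝔼 v ∈ ltF F ν, g M (D₀ + (X ^ e * Ω * BB p e t) ^ p * derivative v) = ρ M :=
    (eventually_all_finset _).2 fun t ht => hw.equi _ _
      (mul_ne_zero (mul_ne_zero (pow_ne_zero _ X_ne_zero) hΩ) (hB0 t ht))
  filter_upwards [htend.eventually hev, htend.eventually hw.rho, eventually_gt_atTop c']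
    with n hequi hrho hn hne
  set M := n + D - 1 with hM
  have hv : ∀ v : degreeLT F (n - c'), v.1.natDegree < n - c' := fun v =>
    xvar_nat (by omega) (mem_degreeLT.1 v.2)
  have hXΩ : ((X ^ e * Ω) ^ p).natDegree ≤ p * (e + Ω.natDegree) :=
    natDegree_pow_le.trans (Nat.mul_le_mul_left p
      (natDegree_mul_le.trans (by rw [natDegree_X_pow])))
  have hθm : ∀ (t : monF F b) (v : degreeLT F (n - c')),
      (X ^ e * Ω) ^ p * BB p e t.1 ^ (p - 1) * v.1 ∈ degreeLT F n := by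
    intro t v
    refine mem_degreeLT.2 (xvar_deg ?_)
    have h1 := natDegree_mul_le (p := (X ^ e * Ω) ^ p * BB p e t.1 ^ (p - 1)) (q := v.1)
    have h2 := natDegree_mul_le (p := (X ^ e * Ω) ^ p) (q := BB p e t.1 ^ (p - 1))
    have h3 := hBK t.1 t.2
    have h4 := hv v
    omega
  let θ : monF F b → degreeLT F (n - c') →+ degreeLT F n := fun t =>
    { toFun := fun v => ⟨_, hθm t v⟩
      map_zero' := Subtype.ext (by simp)
      map_add' := fun v w => Subtype.ext (by simp [mul_add]) }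
  let U : monF F b → AddSubgroup (degreeLT F n) := fun t =>
    { carrier := {x | ∃ s : F[X], x.1 = BB p e t.1 ^ (p - 1) * s ^ p}
      zero_mem' := ⟨0, by simp [zero_pow (by omega : p ≠ 0)]⟩
      add_mem' := by
        rintro x y ⟨s, hs⟩ ⟨s', hs'⟩
        exact ⟨s + s', by rw [Submodule.coe_add, hs, hs', add_pow_char, mul_add]⟩
      neg_mem' := by
        rintro x ⟨s, hs⟩
        exact ⟨-s, by rw [Submodule.coe_neg, hs, neg_pow, neg_one_pow_char]; ring⟩ }
  let φ : monF F b → degreeLT F n → ℝ := fun t x =>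
    g M (derivative (BB p e t.1 * (X ^ n + x.1))) - ρ M
  have : Nonempty (monF F b) := (monF_nonempty b).coe_sort
  have key := var_abstract p U θ φ ?_ ?_ ?_ ?_
  · rw [expect_monF]
    rw [Fintype.card_coe, card_monF, Nat.cast_pow] at key
    refine le_of_eq_of_le (expect_congr rfl fun x _ => ?_) key
    rw [xvar_coe]
  · intro t x
    obtain ⟨h1, h2⟩ := monic_BB hp e hb t.2
    obtain ⟨h3, h4⟩ := monic_add_LT x
    have h5 : (BB p e t.1 * (X ^ n + x.1)).natDegree = n + D := by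
      rw [h1.natDegree_mul h3, h2, h4, add_comm]
    have h6 : ((BB p e t.1 * (X ^ n + x.1)).natDegree : F) ≠ 0 := by rwa [h5]
    obtain ⟨g0, g1, -⟩ := hw.good M _ (deriv_ne_zero (h1.mul h3) h6)
      (by rw [natDegree_deriv (h1.mul h3) h6, h5])
    have := hw.pos
    rw [abs_le]
    constructor <;> simp only [φ] <;> linarith [hrho.1, hrho.2]
  · rintro t x u ⟨s, hs⟩
    simp only [φ]
    rw [Submodule.coe_add, hs, ← add_assoc, deriv_shift]
  · intro t x
    have e1 : ∀ v : degreeLT F (n - c'), φ t (x + θ t v) =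
        g M (derivative (BB p e t.1 * (X ^ n + x.1)) +
          (X ^ e * Ω * BB p e t.1) ^ p * derivative v.1) - ρ M := by
      intro v
      have e2 : BB p e t.1 * (X ^ n + (x + θ t v).1) = BB p e t.1 * (X ^ n + x.1) +
          (X ^ e * Ω * BB p e t.1) ^ p * v.1 := by
        change BB p e t.1 * (X ^ n + (x.1 + (X ^ e * Ω) ^ p * BB p e t.1 ^ (p - 1) * v.1)) = _
        rw [mul_pow (X ^ e * Ω), ← xvar_pow (p := p) (BB p e t.1)]
        ring
      simp only [φ]
      rw [e2, derivative_add, derivative_mul (f := _ ^ p), xvar_dpow, zero_mul, zero_add]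
    simp only [e1]
    rw [expect_sub_distrib, Fintype.expect_const,
      ← expect_ltF (n - c') fun v => g M (derivative (BB p e t.1 * (X ^ n + x.1)) +
          (X ^ e * Ω * BB p e t.1) ^ p * derivative v),
      hequi t.1 t.2 _ _ (by omega), sub_self]
  · intro τ hτ t v
    obtain ⟨u, hu, hsum⟩ := hspan (fun i => (τ i).1) (Subtype.val_injective.comp hτ)
      (fun i => (τ i).2) (X ^ e * BB p e t.1 ^ (p - 1) * v.1)
    have hx : (X ^ e * BB p e t.1 ^ (p - 1) * v.1).natDegree ≤ e + K + v.1.natDegree := by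
      have h1 := natDegree_mul_le (p := X ^ e * BB p e t.1 ^ (p - 1)) (q := v.1)
      have h2 := natDegree_mul_le (p := (X ^ e : F[X])) (q := BB p e t.1 ^ (p - 1))
      have h3 := hBK t.1 t.2
      rw [natDegree_X_pow] at h2
      omega
    have hm : ∀ i, BB p e (τ i).1 ^ (p - 1) * u i ^ p ∈ degreeLT F n := by
      intro i
      refine mem_degreeLT.2 (xvar_deg ?_)
      have h1 := natDegree_mul_le (p := BB p e (τ i).1 ^ (p - 1)) (q := u i ^ p)
      have h2 : (u i ^ p).natDegree ≤ p * (u i).natDegree := natDegree_pow_le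
      have h3 := hBK (τ i).1 (τ i).2
      have h4 := hv v
      have h5 := hu i
      omega
    refine ⟨fun i => ⟨_, hm i⟩, fun i => ⟨u i, rfl⟩, Subtype.ext ?_⟩
    rw [Submodule.coe_sum]
    change (X ^ e * Ω) ^ p * BB p e t.1 ^ (p - 1) * v.1 =
      ∑ i, BB p e (τ i).1 ^ (p - 1) * u i ^ p
    have e1 : ∀ i, BB p e (τ i).1 ^ (p - 1) * u i ^ p =
        (X ^ e) ^ (p - 1) * ((X + (τ i).1 ^ p) ^ (p - 1) * u i ^ p) := fun i => by
      rw [BB, mul_pow, mul_assoc]
    simp only [e1]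
    rw [← mul_sum, ← hsum, mul_pow, ← xvar_pow (p := p) (X ^ e)]
    ring

end Pool.Agent.MP_4fffd4_nt.Odd

end

section

/- Cancellation on a coset with a good derivative. -/

set_option autoImplicit false

namespace Pool.Agent.MP_4fffd4_nt.Odd

open Polynomial Finset Filter Topology
open scoped BigOperators

variable {F : Type*} [Field F] [Fintype F] {p : ℕ} [Fact p.Prime] [CharP F p]

omit [Fintype F] in
theorem xcoset_deg {γ h : F[X]} {k L D : ℕ} (hk : k ≠ 0) (hD : γ.natDegree + k * L ≤ D)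
    (hh : h.degree < L) : (γ * h ^ k).degree < D := by
  by_cases h0 : h = 0
  · rw [h0, zero_pow hk, mul_zero, degree_zero]
    exact WithBot.bot_lt_coe _
  have h₁ := (natDegree_lt_iff_degree_lt h0).2 hh
  have h₂ : (γ * h ^ k).natDegree ≤ γ.natDegree + k * h.natDegree :=
    natDegree_mul_le.trans (Nat.add_le_add_left natDegree_pow_le _)
  have h₃ := Nat.mul_lt_mul_of_pos_left (k := k) h₁ (Nat.pos_of_ne_zero hk)
  exact degree_le_natDegree.trans_lt (by exact_mod_cast (by omega))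

omit [Fintype F] in
theorem xcoset_theta {N D L : ℕ} {μ γ : F[X]} (hμ : μ.natDegree + L ≤ N)
    (hγ : ∀ h : F[X], h.degree < L → (γ * h ^ p).degree < D) :
    ∃ θ : degreeLT F L →+ degreeLT F N × degreeLT F D,
      ∀ h, (θ h).1.1 = μ * h.1 ∧ (θ h).2.1 = γ * h.1 ^ p :=
  ⟨AddMonoidHom.mk' (fun h => (⟨μ * h.1, mem_degreeLT.2 (by
      simpa using xcoset_deg (γ := μ) (k := 1) one_ne_zero (by omega) (mem_degreeLT.1 h.2))⟩,
    ⟨γ * h.1 ^ p, mem_degreeLT.2 (hγ _ (mem_degreeLT.1 h.2))⟩)) fun a b =>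
      Prod.ext (Subtype.ext (mul_add _ _ _)) (Subtype.ext (by
        simp only [Submodule.coe_add, Prod.snd_add, add_pow_char, mul_add])),
    fun _ => ⟨rfl, rfl⟩⟩

omit [Fintype F] [Fact p.Prime] [CharP F p] in
theorem xcoset_ndvd {P a : F[X]} (ha : a ≠ 0) (h : a.natDegree < P.natDegree) : ¬ P ∣ a :=
  fun e => (natDegree_le_of_dvd e ha).not_gt h

theorem xcoset_piece (hp : p ≠ 2) {ι : Type} [Fintype ι] {B u y w₀ P ρ : F[X]} {l : F}
    {m : ι → F[X]} (hB : B.Monic) (hu : u.Monic) (hy : y.Monic) (hw : B * y = u * w₀)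
    (hP : P.Monic) (hPi : Irreducible P) (hPu : ¬ P ∣ u) (hρ : P ∣ B * y - ρ ^ p)
    (hm : ∀ i, (m i).Monic) (hW : derivative (B * y) = C l * P * ∏ j, m j) {N : ℕ}
    (hN : (p - 1) * B.natDegree + p * (u.natDegree + N) ≤ y.natDegree) :
    ∃ c : ℝ, |c| ≤ 1 ∧ ∀ v : F[X], v.degree < N →
      piece u (B * (y + B ^ (p - 1) * (u * v) ^ p)) =
        c * (jr (ρ + B * u * v) P * ∏ i, jr (w₀ + u ^ (p - 1) * (B * v) ^ p) (m i)) := by
  have h2 := (Fact.out : p.Prime).two_le
  have pw : ∀ x : F[X], x * x ^ (p - 1) = x ^ p := fun x => mul_pow_sub_one (by omega) x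
  obtain ⟨s, hs, e₁⟩ := piece_eq (F := F) hp
  obtain ⟨s', hs', e₂⟩ := jr_C hp l
  obtain ⟨r, hr, e₃⟩ := jr_recip (F := F) hp
  set n := B.natDegree + y.natDegree - u.natDegree
  refine ⟨lam u * s n * (r u.natDegree n * jr w₀ u) * (s' n * (r P.natDegree n * jr u P) *
    ∏ i, r (m i).natDegree n), ?_, fun v hv => ?_⟩
  · have k : ∀ {a b : ℝ}, |a| ≤ 1 → |b| ≤ 1 → |a * b| ≤ 1 := fun ha hb =>
      (abs_mul _ _).trans_le (mul_le_one₀ ha (abs_nonneg _) hb)
    exact k (k (k (abs_lam u).le (hs _)) (k (hr _ _) (abs_jr_le _ _)))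
      (k (k (hs' _) (k (hr _ _) (abs_jr_le _ _)))
        ((abs_prod _ _).trans_le (prod_le_one (fun _ _ => abs_nonneg _) fun _ _ => hr _ _)))
  set w := w₀ + u ^ (p - 1) * (B * v) ^ p with hwd
  have f₁ : B * (y + B ^ (p - 1) * (u * v) ^ p) = u * w := by
    rw [hwd, mul_pow, mul_pow]
    linear_combination hw + u ^ p * v ^ p * pw B - B ^ p * v ^ p * pw u
  have f₂ : (B ^ (p - 1) * (u * v) ^ p).degree < y.degree := by
    rw [degree_eq_natDegree hy.ne_zero, mul_pow, ← mul_assoc]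
    refine xcoset_deg (by omega) (le_trans ?_ hN) hv
    rw [(hB.pow _).natDegree_mul (hu.pow _), hB.natDegree_pow, hu.natDegree_pow, mul_add,
      add_assoc]
  have f₃ : (u * w).Monic := f₁ ▸ hB.mul (hy.add_of_left f₂)
  have f₄ : w.Monic := hu.of_mul_monic_left f₃
  have f₅ : w.natDegree = n := by
    have := congrArg natDegree f₁
    rw [hB.natDegree_mul (hy.add_of_left f₂), hu.natDegree_mul f₄,
      natDegree_add_eq_left_of_degree_lt f₂] at this
    omega
  have f₆ : jr w u = jr w₀ u := jr_congr hp hu (by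
    rw [hwd, add_sub_cancel_left]
    exact (dvd_pow_self u (by omega)).mul_right _)
  have f₇ : jr w P = jr u P * jr (ρ + B * u * v) P := by
    have g₁ : jr u P * jr u P = 1 := by
      rw [jr_mul_self hp hP, ind_pos (hPi.coprime_iff_not_dvd.2 hPu).symm]
    have g₂ : jr (u * w) P = jr ((ρ + B * u * v) ^ p) P := jr_congr hp hP (by
      convert hρ using 1
      rw [← f₁, add_pow_char, mul_pow, mul_pow, mul_pow]
      linear_combination u ^ p * v ^ p * pw B)
    rw [jr_mul_left hp _ _ hP, jr_pow_char hp _ hP] at g₂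
    rw [← g₂, ← mul_assoc, g₁, one_mul]
  have f₈ : derivative (u * w) = C l * P * ∏ j, m j := by rw [← f₁, deriv_shift, hW]
  rw [f₁, e₁ u w hu f₄, f₈, jr_mul_left hp _ _ f₄, jr_mul_left hp _ _ f₄, jr_prod_left hp _ _ f₄,
    e₂ w f₄, e₃ u w hu f₄, e₃ P w hP f₄, prod_congr rfl fun i _ => e₃ (m i) w (hm i) f₄,
    prod_mul_distrib, f₅, f₆, f₇]
  ring

theorem coset_bound (hp : p ≠ 2) {J : Type*} {ι : Type} [Fintype J] [Fintype ι]
    {α β : J → F[X]} (hα : ∀ j, α j ≠ 0) {G : J → F[X] → F[X] → ℝ} (hG : Adm α β G)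
    {B u y : F[X]} (d : F[X]) (hB : B.Monic) (hu : u.Monic) (hy : y.Monic) {lo hi N L D : ℕ}
    (hW : GoodW ι lo hi (derivative (B * y)))
    (hN : (p - 1) * B.natDegree + p * (u.natDegree + N) ≤ y.natDegree)
    (hhi : hi + L ≤ N) (hL : L ≤ lo) (hBlo : B.natDegree ≤ lo) (hulo : u.natDegree ≤ lo)
    (hαlo : ∀ j, (α j).natDegree ≤ lo)
    (hD : ∀ j, (β j).natDegree + (p - 1) * ((α j).natDegree + B.natDegree) +
      p * (u.natDegree + L) ≤ D) :
    |𝔼 v ∈ ltF F N, 𝔼 e ∈ ltF F D, piece u (B * (y + B ^ (p - 1) * (u * v) ^ p)) *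
        ∏ j, G j (y + B ^ (p - 1) * (u * v) ^ p) (d + e)| ^
        2 ^ (Fintype.card J + Fintype.card ι) ≤
      4 ^ (Fintype.card J + Fintype.card ι) / (Fintype.card F : ℝ) ^ L +
        2 ^ (Fintype.card J + Fintype.card ι + 1) / √((Fintype.card F : ℝ) ^ lo) := by
  classical
  have h2 := (Fact.out : p.Prime).two_le
  have pw : ∀ x : F[X], x * x ^ (p - 1) = x ^ p := fun x => mul_pow_sub_one (by omega) x
  by_cases hw : ¬ u ∣ B * y
  · have : ∀ v, piece u (B * (y + B ^ (p - 1) * (u * v) ^ p)) = 0 := fun v =>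
      piece_of_not_dvd fun h => hw (by
        rw [mul_add] at h
        exact (dvd_add_left ((((dvd_mul_right u v).trans
          (dvd_pow_self _ (by omega))).mul_left _).mul_left _)).1 h)
    simp only [this, zero_mul, expect_const_zero, abs_zero]
    rw [zero_pow (by positivity)]
    positivity
  obtain ⟨w₀, hw⟩ := not_not.1 hw
  obtain ⟨l, P, m, -, hP, hPi, hW, hlo, hPhi, hm⟩ := hW
  obtain ⟨ρ, hρ⟩ := exists_root_mod (p := p) hP hPi (B * y)
  have hPu := xcoset_ndvd (P := P) hu.ne_zero (by omega)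
  obtain ⟨c, hc, e⟩ := xcoset_piece hp hB hu hy hw hP hPi hPu hρ (fun i => (hm i).1) hW hN
  have hθ : ∀ j : J ⊕ ι, ∃ θ : degreeLT F L →+ degreeLT F N × degreeLT F D, ∀ h,
      (θ h).1.1 = Sum.elim α m j * h.1 ∧ (θ h).2.1 = Sum.elim
        (fun j => β j * (α j ^ (p - 1) * B ^ (p - 1) * u ^ p)) (fun _ => 0) j * h.1 ^ p := by
    rintro (j | i)
    · refine xcoset_theta (by have := hαlo j; simp only [Sum.elim_inl]; omega) fun h hh =>
        xcoset_deg (by omega) (le_trans ?_ (hD j)) hh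
      have k₁ := natDegree_mul_le (p := β j) (q := α j ^ (p - 1) * B ^ (p - 1) * u ^ p)
      have k₂ := natDegree_mul_le (p := α j ^ (p - 1) * B ^ (p - 1)) (q := u ^ p)
      have k₃ := natDegree_mul_le (p := α j ^ (p - 1)) (q := B ^ (p - 1))
      rw [natDegree_pow] at k₂
      rw [natDegree_pow, natDegree_pow] at k₃
      simp only [Sum.elim_inl, mul_add]
      omega
    · refine xcoset_theta (by have := (hm i).2.1; simp only [Sum.elim_inr]; omega) fun h _ => ?_
      simp only [Sum.elim_inr, zero_mul, degree_zero]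
      exact WithBot.bot_lt_coe _
  choose θ hθ using hθ
  have key := box_ineq θ (fun x => jr (ρ + B * u * x.1.1) P)
    (Sum.elim (fun j x => G j (y + B ^ (p - 1) * (u * x.1.1) ^ p) (d + x.2.1))
      fun i x => jr (w₀ + u ^ (p - 1) * (B * x.1.1) ^ p) (m i))
    (by
      rintro (j | i) x
      exacts [(hG j).1 _ _, abs_jr_le _ _])
    (by
      rintro (j | i) x h
      · simp only [Sum.elim_inl, Prod.fst_add, Prod.snd_add, Submodule.coe_add, (hθ _ h).1,
          (hθ _ h).2]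
        rw [← (hG j).2 (y + B ^ (p - 1) * (u * x.1.1) ^ p) (d + x.2.1)
          (α j ^ (p - 1) * B ^ (p - 1) * u ^ p * h.1 ^ p)]
        congr 1
        · simp only [mul_add, add_pow_char, mul_pow]
          linear_combination -(B ^ (p - 1) * u ^ p * h.1 ^ p) * pw (α j)
        · ring
      · simp only [Sum.elim_inr, Prod.fst_add, Submodule.coe_add, (hθ _ h).1]
        refine jr_congr hp (hm i).1 ?_
        simp only [mul_add, add_pow_char, add_sub_add_left_eq_sub, add_sub_cancel_left]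
        exact ((((dvd_mul_right (m i) h.1).mul_left B).trans (dvd_pow_self _ (by omega))).mul_left
          _))
  have loc := local_box hp (J := J ⊕ ι) hP hPi (N := N) (L := L) (lo := lo) (by omega) hlo
    (by omega) ρ (B * u) (fun h => (hPi.prime.dvd_or_dvd h).elim
      (xcoset_ndvd hB.ne_zero (by omega)) hPu) (Sum.elim α m) (by
      rintro (j | i)
      exacts [xcoset_ndvd (a := α j) (hα j) (by have := hαlo j; omega), (hm i).2.2])
  rw [Fintype.card_sum] at key loc
  refine le_trans ?_ (key.trans (le_trans (le_of_eq ?_) loc))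
  · refine pow_le_pow_left₀ (abs_nonneg _) ?_ _
    refine le_trans (le_of_eq ?_) ((abs_mul c _).trans_le
      (mul_le_of_le_one_left (abs_nonneg _) hc))
    rw [expect_ltF, mul_expect, ← univ_product_univ, expect_product]
    refine congrArg _ (expect_congr rfl fun v _ => ?_)
    rw [expect_ltF, e _ (mem_degreeLT.1 v.2)]
    refine expect_congr rfl fun x _ => ?_
    simp only [Fintype.prod_sum_type, Sum.elim_inl, Sum.elim_inr]
    ring
  · refine expect_congr rfl fun h _ => congrArg _ ?_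
    rw [← univ_product_univ, expect_product]
    refine expect_congr rfl fun v _ => ?_
    simp only [Prod.fst_add, Prod.fst_sum, Submodule.coe_add, AddSubmonoidClass.coe_finsetSum,
      (hθ _ _).1]
    exact Fintype.expect_const _

end Pool.Agent.MP_4fffd4_nt.Odd

end

section

/- Cancellation on a coset with two good derivatives. -/

set_option autoImplicit false

namespace Pool.Agent.MP_4fffd4_nt.Odd

open Polynomial Finset Filter Topology
open scoped BigOperators

variable {F : Type*} [Field F] [Fintype F] {p : ℕ} [Fact p.Prime] [CharP F p]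

omit [Fintype F] in
theorem xcoset2_theta {N L : ℕ} {μ : F[X]} (hμ : μ.natDegree + L ≤ N) :
    ∃ θ : degreeLT F L →+ degreeLT F N, ∀ h, (θ h).1 = μ * h.1 :=
  ⟨AddMonoidHom.mk' (fun h => ⟨μ * h.1, mem_degreeLT.2 (by
      simpa using xcoset_deg (γ := μ) (k := 1) one_ne_zero (by omega) (mem_degreeLT.1 h.2))⟩)
    fun _ _ => Subtype.ext (mul_add _ _ _), fun _ => rfl⟩

omit [Fintype F] [CharP F p] in
theorem xcoset2_zero {B u y : F[X]} (hw : ¬ u ∣ B * y) (v : F[X]) :
    piece u (B * (y + B ^ (p - 1) * (u * v) ^ p)) = 0 :=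
  piece_of_not_dvd fun h => hw (by
    rw [mul_add] at h
    exact (dvd_add_left ((((dvd_mul_right u v).trans
      (dvd_pow_self _ (Fact.out : p.Prime).ne_zero)).mul_left _).mul_left _)).1 h)

omit [Fintype F] in
theorem xcoset2_deg (κ : F[X]) {v : F[X]} {N : ℕ} (hv : v.degree < N) :
    (κ * v).degree < (κ.natDegree + N : ℕ) := by
  simpa using xcoset_deg (γ := κ) (k := 1) (D := κ.natDegree + N) one_ne_zero (by omega) hv

theorem xcoset2_inv (hp : p ≠ 2) {m : F[X]} (hm : m.Monic) (w a B κ v h : F[X]) :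
    jr (w + a * (B * (κ * (v + m * h))) ^ p) m = jr (w + a * (B * (κ * v)) ^ p) m := by
  refine jr_congr hp hm ?_
  simp only [mul_add, add_pow_char, add_sub_add_left_eq_sub, add_sub_cancel_left]
  exact (((((dvd_mul_right m h).mul_left κ).mul_left B).trans
    (dvd_pow_self _ (Fact.out : p.Prime).ne_zero)).mul_left _)

theorem coset_two (hp : p ≠ 2) {ι : Type} [Fintype ι] {B B' u u' y y' κ κ' : F[X]}
    (hB : B.Monic) (hB' : B'.Monic) (hu : u.Monic) (hu' : u'.Monic) (hy : y.Monic)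
    (hy' : y'.Monic) (hκ : κ.Monic) {lo hi N L : ℕ}
    (hW : GoodS ι lo hi (derivative (B * y))) (hW' : GoodS ι lo hi (derivative (B' * y')))
    (hR : ∀ P : F[X], Irreducible P → lo < P.natDegree → P ∣ derivative (B * y) →
      ¬ P ∣ derivative (B' * y'))
    (hN : (p - 1) * B.natDegree + p * (u.natDegree + (κ.natDegree + N)) ≤ y.natDegree)
    (hN' : (p - 1) * B'.natDegree + p * (u'.natDegree + (κ'.natDegree + N)) ≤ y'.natDegree)
    (hhi : hi + L ≤ N) (hL : L ≤ lo) (hBlo : B.natDegree ≤ lo) (hulo : u.natDegree ≤ lo)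
    (hulo' : u'.natDegree ≤ lo) (hκlo : κ.natDegree ≤ lo) :
    |𝔼 v ∈ ltF F N, piece u (B * (y + B ^ (p - 1) * (u * (κ * v)) ^ p)) *
        piece u' (B' * (y' + B' ^ (p - 1) * (u' * (κ' * v)) ^ p))| ^
        2 ^ (2 * Fintype.card ι + 1) ≤
      4 ^ (2 * Fintype.card ι + 1) / (Fintype.card F : ℝ) ^ L +
        2 ^ (2 * Fintype.card ι + 1 + 1) / √((Fintype.card F : ℝ) ^ lo) := by
  classical
  by_cases hw : ¬ u ∣ B * y
  · simp only [xcoset2_zero hw, zero_mul, expect_const_zero, abs_zero]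
    rw [zero_pow (by positivity)]
    positivity
  by_cases hw' : ¬ u' ∣ B' * y'
  · simp only [xcoset2_zero hw', mul_zero, expect_const_zero, abs_zero]
    rw [zero_pow (by positivity)]
    positivity
  obtain ⟨w₀, hw⟩ := not_not.1 hw
  obtain ⟨w₀', hw'⟩ := not_not.1 hw'
  obtain ⟨l, P, m, -, hP, hPi, hW, hlo, hPhi, hm⟩ := hW
  obtain ⟨l', P', m', -, hP', hPi', hW', hlo', hPhi', hm'⟩ := hW'
  obtain ⟨ρ, hρ⟩ := exists_root_mod (p := p) hP hPi (B * y)
  obtain ⟨ρ', hρ'⟩ := exists_root_mod (p := p) hP' hPi' (B' * y')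
  have hPu := xcoset_ndvd (P := P) hu.ne_zero (by omega)
  have hPu' := xcoset_ndvd (P := P') hu'.ne_zero (by omega)
  obtain ⟨c, hc, e⟩ := xcoset_piece hp hB hu hy hw hP hPi hPu hρ (fun i => (hm i).1) hW hN
  obtain ⟨c', hc', e'⟩ :=
    xcoset_piece hp hB' hu' hy' hw' hP' hPi' hPu' hρ' (fun i => (hm' i).1) hW' hN'
  have hPW := hR P hPi (by omega) (hW ▸ (dvd_mul_left P (C l)).mul_right _)
  rw [hW'] at hPW
  set μ : ι ⊕ Option ι → F[X] := Sum.elim m fun o => o.elim P' m' with hμ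
  have hθ : ∀ j : ι ⊕ Option ι, ∃ θ : degreeLT F L →+ degreeLT F N, ∀ h, (θ h).1 = μ j * h.1 := by
    rintro (i | _ | i)
    · exact xcoset2_theta (μ := m i) (by have := (hm i).2.1; omega)
    · exact xcoset2_theta (μ := P') (by omega)
    · exact xcoset2_theta (μ := m' i) (by have := (hm' i).2.1; omega)
  choose θ hθ using hθ
  have key := box_ineq θ (fun x => jr (ρ + B * u * (κ * x.1)) P)
    (Sum.elim (fun i x => jr (w₀ + u ^ (p - 1) * (B * (κ * x.1)) ^ p) (m i))
      fun o x => o.elim (jr (ρ' + B' * u' * (κ' * x.1)) P')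
        fun i => jr (w₀' + u' ^ (p - 1) * (B' * (κ' * x.1)) ^ p) (m' i))
    (by
      rintro (i | _ | i) x
      exacts [abs_jr_le _ _, abs_jr_le _ _, abs_jr_le _ _])
    (by
      rintro (i | _ | i) x h
      · simp only [Sum.elim_inl, Submodule.coe_add, hθ, hμ]
        exact xcoset2_inv hp (hm i).1 ..
      · simp only [Sum.elim_inr, Submodule.coe_add, hθ, hμ, Option.elim_none]
        exact jr_congr hp hP' ⟨B' * u' * κ' * h.1, by ring⟩
      · simp only [Sum.elim_inr, Submodule.coe_add, hθ, hμ, Option.elim_some]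
        exact xcoset2_inv hp (hm' i).1 ..)
  have loc := local_box hp (J := ι ⊕ Option ι) hP hPi (N := N) (L := L) (lo := lo) (by omega) hlo
    (by omega) ρ (B * u * κ) (fun h => (hPi.prime.dvd_or_dvd h).elim
      (fun h => (hPi.prime.dvd_or_dvd h).elim (xcoset_ndvd hB.ne_zero (by omega)) hPu)
      (xcoset_ndvd hκ.ne_zero (by omega))) μ (by
      rintro (i | _ | i)
      exacts [(hm i).2.2, fun h => hPW ((Dvd.dvd.mul_left h _).mul_right _),
        fun h => hPW ((Dvd.dvd.trans h (dvd_prod_of_mem m' (mem_univ i))).mul_left _)])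
  have hcard : Fintype.card (ι ⊕ Option ι) = 2 * Fintype.card ι + 1 := by
    rw [Fintype.card_sum, Fintype.card_option]
    ring
  rw [hcard] at key loc
  refine le_trans ?_ (key.trans (le_trans (le_of_eq ?_) loc))
  · refine pow_le_pow_left₀ (abs_nonneg _) ?_ _
    refine le_trans (le_of_eq ?_) ((abs_mul (c * c') _).trans_le
      (mul_le_of_le_one_left (abs_nonneg _)
        ((abs_mul _ _).trans_le (mul_le_one₀ hc (abs_nonneg _) hc'))))
    rw [expect_ltF, mul_expect]
    refine congrArg _ (expect_congr rfl fun v _ => ?_)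
    rw [e _ (xcoset2_deg κ (mem_degreeLT.1 v.2)), e' _ (xcoset2_deg κ' (mem_degreeLT.1 v.2))]
    simp only [Fintype.prod_sum_type, Fintype.prod_option, Sum.elim_inl, Sum.elim_inr,
      Option.elim_none, Option.elim_some]
    ring
  · refine expect_congr rfl fun h _ => congrArg _ ?_
    refine expect_congr rfl fun v _ => ?_
    simp only [Submodule.coe_add, AddSubmonoidClass.coe_finsetSum, hθ, mul_assoc]

end Pool.Agent.MP_4fffd4_nt.Odd

end

section

/- Many forms on one coset. -/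

set_option autoImplicit false

namespace Pool.Agent.MP_4fffd4_nt.Odd

open Polynomial Finset Filter Topology
open scoped BigOperators

variable {F : Type*} [Field F] [Fintype F] {p : ℕ} [Fact p.Prime] [CharP F p]

theorem coset_many (hp : p ≠ 2) {ι : Type} [Fintype ι] {I : Type*} [Fintype I] (i₀ : I)
    {B u y κ : I → F[X]} (hB : ∀ i, (B i).Monic) (hu : ∀ i, (u i).Monic) (hy : ∀ i, (y i).Monic)
    (hκ : (κ i₀).Monic) {lo hi N L : ℕ} (hW : ∀ i, GoodS ι lo hi (derivative (B i * y i)))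
    (hR : ∀ i, i ≠ i₀ → ∀ P : F[X], Irreducible P → lo < P.natDegree →
      P ∣ derivative (B i₀ * y i₀) → ¬ P ∣ derivative (B i * y i))
    (hN : ∀ i, (p - 1) * (B i).natDegree + p * ((u i).natDegree + ((κ i).natDegree + N)) ≤
      (y i).natDegree)
    (hhi : hi + L ≤ N) (hL : L ≤ lo) (hBlo : (B i₀).natDegree ≤ lo)
    (hulo : ∀ i, (u i).natDegree ≤ lo) (hκlo : (κ i₀).natDegree ≤ lo) :
    |𝔼 v ∈ ltF F N, ∏ i, piece (u i) (B i * (y i + B i ^ (p - 1) * (u i * (κ i * v)) ^ p))| ^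
        2 ^ (Fintype.card I * (Fintype.card ι + 1)) ≤
      4 ^ (Fintype.card I * (Fintype.card ι + 1)) / (Fintype.card F : ℝ) ^ L +
        2 ^ (Fintype.card I * (Fintype.card ι + 1) + 1) / √((Fintype.card F : ℝ) ^ lo) := by
  classical
  by_cases hw : ∃ i, ¬ u i ∣ B i * y i
  · obtain ⟨i, hi⟩ := hw
    have h0 : ∀ v : F[X],
        ∏ i, piece (u i) (B i * (y i + B i ^ (p - 1) * (u i * (κ i * v)) ^ p)) = 0 := fun v =>
      prod_eq_zero (mem_univ i) (xcoset2_zero hi _)
    simp only [h0, expect_const_zero, abs_zero]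
    rw [zero_pow (by positivity)]
    positivity
  have hw' : ∀ i, ∃ w, B i * y i = u i * w := fun i => not_not.1 fun h => hw ⟨i, h⟩
  choose w₀ hw₀ using hw'
  choose l P m hl hP hPi hW hlo hPhi hm using hW
  choose ρ hρ using fun i => exists_root_mod (p := p) (hP i) (hPi i) (B i * y i)
  have hPu : ∀ i, ¬ P i ∣ u i := fun i =>
    xcoset_ndvd (hu i).ne_zero (by have := hulo i; have := hlo i; omega)
  choose c hc e using fun i => xcoset_piece hp (hB i) (hu i) (hy i) (hw₀ i) (hP i) (hPi i) (hPu i)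
    (hρ i) (fun j => (hm i j).1) (hW i) (hN i)
  have hlo₀ := hlo i₀
  have hPhi₀ := hPhi i₀
  have hPW : ∀ i, i ≠ i₀ → ¬ P i₀ ∣ C (l i) * P i * ∏ j, m i j := fun i hi => by
    rw [← hW i]
    exact hR i hi (P i₀) (hPi i₀) (by omega)
      (hW i₀ ▸ (dvd_mul_left (P i₀) (C (l i₀))).mul_right _)
  set μ : I × Option ι → F[X] := fun z =>
    z.2.elim (if z.1 = i₀ then 1 else P z.1) (m z.1) with hμ
  have hθ : ∀ j : I × Option ι, ∃ θ : degreeLT F L →+ degreeLT F N,
      ∀ h, (θ h).1 = μ j * h.1 := by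
    rintro ⟨i, _ | j⟩
    · refine xcoset2_theta ?_
      simp only [hμ, Option.elim_none]
      split_ifs
      · rw [natDegree_one]
        omega
      · have := hPhi i
        omega
    · exact xcoset2_theta (μ := m i j) (by have := (hm i j).2.1; omega)
  choose θ hθ using hθ
  have key := box_ineq θ (fun x => jr (ρ i₀ + B i₀ * u i₀ * (κ i₀ * x.1)) (P i₀))
    (fun z x => z.2.elim
      (if z.1 = i₀ then 1 else jr (ρ z.1 + B z.1 * u z.1 * (κ z.1 * x.1)) (P z.1))
        fun j => jr (w₀ z.1 + u z.1 ^ (p - 1) * (B z.1 * (κ z.1 * x.1)) ^ p) (m z.1 j))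
    (by
      rintro ⟨i, _ | j⟩ x
      · simp only [Option.elim_none]
        split_ifs
        · exact abs_one.le
        · exact abs_jr_le _ _
      · exact abs_jr_le _ _)
    (by
      rintro ⟨i, _ | j⟩ x h
      · simp only [Submodule.coe_add, hθ, hμ, Option.elim_none]
        split_ifs
        · rfl
        · exact jr_congr hp (hP i) ⟨B i * u i * κ i * h.1, by ring⟩
      · simp only [Submodule.coe_add, hθ, hμ, Option.elim_some]
        exact xcoset2_inv hp (hm i j).1 ..)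
  have loc := local_box hp (J := I × Option ι) (hP i₀) (hPi i₀) (N := N) (L := L) (lo := lo)
    (by omega) hlo₀ (by omega) (ρ i₀) (B i₀ * u i₀ * κ i₀)
    (fun h => ((hPi i₀).prime.dvd_or_dvd h).elim
      (fun h => ((hPi i₀).prime.dvd_or_dvd h).elim
        (xcoset_ndvd (hB i₀).ne_zero (by omega)) (hPu i₀))
      (xcoset_ndvd hκ.ne_zero (by omega))) μ (by
      rintro ⟨i, _ | j⟩
      · simp only [hμ, Option.elim_none]
        split_ifs with hi
        · exact (hPi i₀).not_dvd_one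
        · exact fun h => hPW i hi ((Dvd.dvd.mul_left h _).mul_right _)
      · simp only [hμ, Option.elim_some]
        by_cases hi : i = i₀
        · rw [hi]
          exact (hm i₀ j).2.2
        · exact fun h => hPW i hi
            ((Dvd.dvd.trans h (dvd_prod_of_mem (m i) (mem_univ j))).mul_left _))
  have hcard : Fintype.card (I × Option ι) = Fintype.card I * (Fintype.card ι + 1) := by
    rw [Fintype.card_prod, Fintype.card_option]
  rw [hcard] at key loc
  have hcc : |∏ i, c i| ≤ 1 := by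
    rw [abs_prod]
    exact prod_le_one (fun i _ => abs_nonneg _) fun i _ => hc i
  refine le_trans ?_ (key.trans (le_trans (le_of_eq ?_) loc))
  · refine pow_le_pow_left₀ (abs_nonneg _) ?_ _
    refine le_trans (le_of_eq ?_) ((abs_mul (∏ i, c i) _).trans_le
      (mul_le_of_le_one_left (abs_nonneg _) hcc))
    rw [expect_ltF, mul_expect]
    refine congrArg _ (expect_congr rfl fun v _ => ?_)
    rw [prod_congr rfl fun i _ => e i _ (xcoset2_deg (κ i) (mem_degreeLT.1 v.2))]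
    simp only [Fintype.prod_prod_type, Fintype.prod_option, Option.elim_none, Option.elim_some,
      prod_mul_distrib]
    congr 1
    rw [← mul_assoc]
    congr 1
    rw [← mul_prod_erase univ _ (mem_univ i₀), ← mul_prod_erase univ (fun i => if i = i₀ then 1
      else jr (ρ i + B i * u i * (κ i * v.1)) (P i)) (mem_univ i₀), if_pos rfl, one_mul]
    congr 1
    exact prod_congr rfl fun i hi => (if_neg (ne_of_mem_erase hi)).symm
  · refine expect_congr rfl fun h _ => congrArg _ ?_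
    refine expect_congr rfl fun v _ => ?_
    simp only [Submodule.coe_add, AddSubmonoidClass.coe_finsetSum, hθ, mul_assoc]

end Pool.Agent.MP_4fffd4_nt.Odd

end

section

/- The contribution of one direction. -/

set_option autoImplicit false

namespace Pool.Agent.MP_4fffd4_nt.Odd

open Polynomial Finset Filter Topology
open scoped BigOperators

variable {F : Type*} [Field F] [Fintype F] {p : ℕ} [Fact p.Prime] [CharP F p]

omit [Fact p.Prime] [CharP F p] in
/-- averaging over shifts does not change the average -/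
theorem xloc1_shift {n N D : ℕ} (Φ : F[X] → F[X] → ℝ) (s : F[X] → F[X])
    (hs : ∀ v ∈ ltF F N, (s v).degree < n) :
    𝔼 d ∈ monF F D, 𝔼 y ∈ monF F n, Φ y d =
      𝔼 d ∈ monF F D, 𝔼 y ∈ monF F n, 𝔼 v ∈ ltF F N, 𝔼 e ∈ ltF F D, Φ (y + s v) (d + e) := by
  have h1 : ∀ v ∈ ltF F N, ∀ e ∈ ltF F D,
      𝔼 d ∈ monF F D, 𝔼 y ∈ monF F n, Φ (y + s v) (d + e) =
        𝔼 d ∈ monF F D, 𝔼 y ∈ monF F n, Φ y d := by
    intro v hv e he
    rw [← expect_monF_add (mem_ltF.1 he) fun d => 𝔼 y ∈ monF F n, Φ y d]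
    refine expect_congr rfl fun d _ => ?_
    exact expect_monF_add (hs v hv) fun y => Φ y (d + e)
  symm
  calc 𝔼 d ∈ monF F D, 𝔼 y ∈ monF F n, 𝔼 v ∈ ltF F N, 𝔼 e ∈ ltF F D, Φ (y + s v) (d + e)
      = 𝔼 d ∈ monF F D, 𝔼 v ∈ ltF F N, 𝔼 e ∈ ltF F D, 𝔼 y ∈ monF F n,
          Φ (y + s v) (d + e) := by
        refine expect_congr rfl fun d _ => ?_
        rw [expect_comm]
        exact expect_congr rfl fun v _ => expect_comm _ _ _
    _ = 𝔼 v ∈ ltF F N, 𝔼 e ∈ ltF F D, 𝔼 d ∈ monF F D, 𝔼 y ∈ monF F n,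
          Φ (y + s v) (d + e) := by
        rw [expect_comm]
        exact expect_congr rfl fun v _ => expect_comm _ _ _
    _ = 𝔼 v ∈ ltF F N, 𝔼 e ∈ ltF F D, 𝔼 d ∈ monF F D, 𝔼 y ∈ monF F n, Φ y d :=
        expect_congr rfl fun v hv => expect_congr rfl fun e he => h1 v hv e he
    _ = _ := by rw [expect_const (ltF_nonempty N), expect_const (ltF_nonempty D)]

omit [Field F] [Fintype F] [Fact p.Prime] [CharP F p] in
/-- an average of numbers bounded by `x` is bounded by `x` -/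
theorem xloc1_abs_le {α : Type*} {s : Finset α} (hs : s.Nonempty) {f : α → ℝ} {x : ℝ}
    (h : ∀ a ∈ s, |f a| ≤ x) : |𝔼 a ∈ s, f a| ≤ x :=
  (abs_expect_le _ _).trans (expect_le hs h)

omit [Fintype F] [CharP F p] in
theorem xloc1_deg {B u v : F[X]} {n N : ℕ}
    (hN : (p - 1) * B.natDegree + p * (u.natDegree + N) ≤ n) (hv : v.degree < N) :
    (B ^ (p - 1) * (u * v) ^ p).degree < n := by
  have hp : 0 < p := (Fact.out : p.Prime).pos
  rcases eq_or_ne v 0 with rfl | h0
  · rw [mul_zero, zero_pow hp.ne', mul_zero, degree_zero]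
    exact WithBot.bot_lt_coe _
  have h1 : v.natDegree < N := (natDegree_lt_iff_degree_lt h0).2 hv
  refine degree_le_natDegree.trans_lt ?_
  have h2 : (B ^ (p - 1) * (u * v) ^ p).natDegree ≤
      (p - 1) * B.natDegree + p * (u.natDegree + v.natDegree) :=
    natDegree_mul_le.trans (add_le_add natDegree_pow_le
      (natDegree_pow_le.trans (Nat.mul_le_mul_left _ natDegree_mul_le)))
  have h3 : p * (u.natDegree + v.natDegree) < p * (u.natDegree + N) :=
    Nat.mul_lt_mul_of_pos_left (by omega) hp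
  exact_mod_cast (by omega : (B ^ (p - 1) * (u * v) ^ p).natDegree < n)

omit [Fintype F] [Fact p.Prime] [CharP F p] in
theorem xloc1_prod {J : Type*} [Fintype J] {α β : J → F[X]} {G : J → F[X] → F[X] → ℝ}
    (hG : Adm α β G) (y d : F[X]) : |∏ j, G j y d| ≤ 1 := by
  rw [Finset.abs_prod]
  exact Finset.prod_le_one (fun j _ => abs_nonneg _) fun j _ => (hG j).1 y d

/-- one direction, one squarefull part -/
theorem piece_avg (hp : p ≠ 2) {J : Type*} {ι : Type} [Fintype J] [Fintype ι]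
    {α β : J → F[X]} (hα : ∀ j, α j ≠ 0) {G : J → F[X] → F[X] → ℝ} (hG : Adm α β G)
    {B u : F[X]} (hB : B.Monic) (hu : u.Monic) {n lo hi N L D : ℕ} (g : F[X] → ℝ)
    (hg : ∀ y ∈ monF F n, |g (derivative (B * y))| ≤ 1 ∧
      (g (derivative (B * y)) ≠ 0 → GoodW ι lo hi (derivative (B * y))))
    (hn : 0 < N) (hN : (p - 1) * B.natDegree + p * (u.natDegree + N) ≤ n)
    (hhi : hi + L ≤ N) (hL : L ≤ lo) (hBlo : B.natDegree ≤ lo) (hulo : u.natDegree ≤ lo)
    (hαlo : ∀ j, (α j).natDegree ≤ lo)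
    (hD : ∀ j, (β j).natDegree + (p - 1) * ((α j).natDegree + B.natDegree) +
      p * (u.natDegree + L) ≤ D) {x : ℝ} (hx : 0 ≤ x)
    (hxx : 4 ^ (Fintype.card J + Fintype.card ι) / (Fintype.card F : ℝ) ^ L +
        2 ^ (Fintype.card J + Fintype.card ι + 1) / √((Fintype.card F : ℝ) ^ lo) ≤
      x ^ 2 ^ (Fintype.card J + Fintype.card ι)) :
    |TT n D (fun y => g (derivative (B * y)) * piece u (B * y)) G| ≤ x := by
  unfold TT
  rw [xloc1_shift (N := N)
    (fun y d => g (derivative (B * y)) * piece u (B * y) * ∏ j, G j y d)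
    (fun v => B ^ (p - 1) * (u * v) ^ p) fun v hv => xloc1_deg hN (mem_ltF.1 hv)]
  refine xloc1_abs_le (monF_nonempty D) fun d _ => xloc1_abs_le (monF_nonempty n) fun y hy => ?_
  obtain ⟨hy1, hy2⟩ := mem_monF.1 hy
  simp only [deriv_shift, mul_assoc (g _), ← mul_expect _ _ (g _)]
  by_cases h0 : g (derivative (B * y)) = 0
  · rw [h0, zero_mul, abs_zero]; exact hx
  have h1 := coset_bound hp hα hG d hB hu hy1 ((hg y hy).2 h0) (hy2.symm ▸ hN) hhi hL hBlo hulo
    hαlo hD
  have h2 := (pow_le_pow_iff_left₀ (abs_nonneg _) hx (by positivity)).1 (h1.trans hxx)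
  rw [abs_mul]
  exact (mul_le_mul (hg y hy).1 h2 (abs_nonneg _) zero_le_one).trans_eq (one_mul x)

/-- one direction -/
theorem dir_avg (hp : p ≠ 2) {J : Type*} {ι : Type} [Fintype J] [Fintype ι]
    {α β : J → F[X]} (hα : ∀ j, α j ≠ 0) {G : J → F[X] → F[X] → ℝ} (hG : Adm α β G)
    {B : F[X]} (hB : B.Monic) {n lo hi N K L D : ℕ} (g : F[X] → ℝ)
    (hg : ∀ y ∈ monF F n, |g (derivative (B * y))| ≤ 1 ∧
      (g (derivative (B * y)) ≠ 0 → GoodW ι lo hi (derivative (B * y))))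
    (hn : 0 < N) (hN : (p - 1) * B.natDegree + p * (3 * K + N) ≤ n)
    (hhi : hi + L ≤ N) (hL : L ≤ lo) (hBlo : B.natDegree ≤ lo) (hK : 3 * K ≤ lo)
    (hαlo : ∀ j, (α j).natDegree ≤ lo)
    (hD : ∀ j, (β j).natDegree + (p - 1) * ((α j).natDegree + B.natDegree) +
      p * (3 * K + L) ≤ D) {x : ℝ} (hx : 0 ≤ x)
    (hxx : 4 ^ (Fintype.card J + Fintype.card ι) / (Fintype.card F : ℝ) ^ L +
        2 ^ (Fintype.card J + Fintype.card ι + 1) / √((Fintype.card F : ℝ) ^ lo) ≤
      x ^ 2 ^ (Fintype.card J + Fintype.card ι)) :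
    |TT n D (fun y => g (derivative (B * y)) * lam y) G| ≤
      (Fintype.card F : ℝ) ^ (3 * K + 1) * x + (Fintype.card F : ℝ) ^ B.natDegree / 2 ^ K := by
  have hq := card_pos' (F := F)
  set E : F[X] → ℝ := fun z => ind (∃ δ : F[X], δ.Monic ∧ K < δ.natDegree ∧ δ ^ 2 ∣ z) with hE
  set R : F[X] → ℝ := fun z => lam z - ∑ u ∈ fullLE F (3 * K), piece u z with hR
  have h1 : TT n D (fun y => g (derivative (B * y)) * lam y) G =
      lam B * (∑ u ∈ fullLE F (3 * K),
        TT n D (fun y => g (derivative (B * y)) * piece u (B * y)) G +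
        TT n D (fun y => g (derivative (B * y)) * R (B * y)) G) := by
    unfold TT
    simp only [← expect_sum_comm, ← expect_add_distrib, mul_expect]
    refine expect_congr rfl fun d _ => expect_congr rfl fun y hy => ?_
    have h2 : lam y = lam B * lam (B * y) := by
      rw [lam_mul hB.ne_zero (mem_monF.1 hy).1.ne_zero, ← mul_assoc, lam_mul_self, one_mul]
    rw [← Finset.sum_mul, ← Finset.mul_sum, hR, h2]
    ring
  have h3 : |∑ u ∈ fullLE F (3 * K),
      TT n D (fun y => g (derivative (B * y)) * piece u (B * y)) G| ≤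
      (Fintype.card F : ℝ) ^ (3 * K + 1) * x := by
    refine (abs_sum_le_sum_abs _ _).trans ((sum_le_card_nsmul _ _ x fun u hu => ?_).trans ?_)
    · obtain ⟨hu1, hu2, -⟩ := mem_fullLE.1 hu
      refine piece_avg hp hα hG hB hu1 g hg hn (le_trans ?_ hN) hhi hL hBlo (hu2.trans hK) hαlo
        (fun j => le_trans ?_ (hD j)) hx hxx
      · gcongr
      · gcongr
    · rw [nsmul_eq_mul]
      refine mul_le_mul_of_nonneg_right ?_ hx
      have h4 : (fullLE F (3 * K)).card ≤ Fintype.card F ^ (3 * K + 1) := by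
        classical
        exact (card_filter_le _ _).trans (card_monLE _)
      exact_mod_cast h4
  have h5 : 𝔼 y ∈ monF F n, E (B * y) ≤ (Fintype.card F : ℝ) ^ B.natDegree / 2 ^ K := by
    rw [expect_monF_eq, sum_monF, div_le_iff₀ (by positivity)]
    refine (sum_sq_dvd (fun y : degreeLT F n => B * (X ^ n + y.1)) (m := B.natDegree + n)
      (fun a b hab => ?_) (fun y => ?_) K).trans_eq ?_
    · exact Subtype.ext (add_left_cancel (mul_left_cancel₀ hB.ne_zero hab))
    · obtain ⟨h6, h7⟩ := monic_add_LT y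
      exact ⟨hB.mul h6, by rw [hB.natDegree_mul h6, h7]⟩
    · rw [pow_add]; ring
  have h8 : |TT n D (fun y => g (derivative (B * y)) * R (B * y)) G| ≤
      (Fintype.card F : ℝ) ^ B.natDegree / 2 ^ K := by
    unfold TT
    refine xloc1_abs_le (monF_nonempty D) fun d _ => (abs_expect_le _ _).trans
      ((expect_le_expect fun y hy => ?_).trans h5)
    have h9 : |R (B * y)| ≤ E (B * y) := lam_decomp (hB.mul (mem_monF.1 hy).1) K
    rw [abs_mul, abs_mul]
    calc |g (derivative (B * y))| * |R (B * y)| * |∏ j, G j y d| ≤ 1 * E (B * y) * 1 :=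
          mul_le_mul (mul_le_mul (hg y hy).1 h9 (abs_nonneg _) zero_le_one) (xloc1_prod hG y d)
            (abs_nonneg _) (by rw [one_mul]; exact ind_nonneg _)
      _ = E (B * y) := by ring
  rw [h1, abs_mul, abs_lam, one_mul]
  exact (abs_add_le _ _).trans (add_le_add h3 h8)

end Pool.Agent.MP_4fffd4_nt.Odd

end

section

/- Local uniformity of the Liouville function. -/

set_option autoImplicit false

namespace Pool.Agent.MP_4fffd4_nt.Odd

open Polynomial Finset Filter Topology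
open scoped BigOperators

section Aux

variable {F : Type*} [Field F] [Fintype F] {J : Type*} [Fintype J]

theorem xloc2_bound {α β : J → F[X]} {G : J → F[X] → F[X] → ℝ} (hG : Adm α β G) (n D : ℕ)
    (φ : F[X] → ℝ) : |TT n D φ G| ≤ 𝔼 y ∈ monF F n, |φ y| := by
  refine (abs_expect_le _ _).trans (expect_le (monF_nonempty D) fun d _ => ?_)
  refine (abs_expect_le _ _).trans (expect_le_expect fun y _ => ?_)
  rw [abs_mul, Finset.abs_prod]
  refine mul_le_of_le_one_right (abs_nonneg _) ?_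
  exact prod_le_one (fun j _ => abs_nonneg _) fun j _ => (hG j).1 y d

theorem xloc2_split (G : J → F[X] → F[X] → ℝ) (n D b : ℕ) (γ : F[X] → F[X] → ℝ) (r : ℝ) :
    r * TT n D lam G = 𝔼 t ∈ monF F b, TT n D (fun y => γ t y * lam y) G -
      TT n D (fun y => (𝔼 t ∈ monF F b, (γ t y - r)) * lam y) G := by
  unfold TT
  rw [expect_comm (monF F b), ← expect_sub_distrib, mul_expect]
  refine expect_congr rfl fun d _ => ?_
  rw [expect_comm (monF F b), ← expect_sub_distrib, mul_expect]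
  refine expect_congr rfl fun y _ => ?_
  beta_reduce
  rw [← expect_mul, ← expect_mul, expect_sub_distrib, expect_const (monF_nonempty b)]
  ring

theorem xloc2_amgm (n : ℕ) (f : F[X] → ℝ) {s : ℝ} (hs : 0 < s)
    (h : 𝔼 y ∈ monF F n, f y ^ 2 ≤ s ^ 2) : 𝔼 y ∈ monF F n, |f y| ≤ s := by
  have h1 : 𝔼 y ∈ monF F n, |f y| ≤ 𝔼 y ∈ monF F n, (f y ^ 2 / (2 * s) + s / 2) := by
    refine expect_le_expect fun y _ => ?_
    rw [← sq_abs, div_add' _ _ _ (by positivity), le_div_iff₀ (by positivity)]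
    nlinarith [sq_nonneg (|f y| - s)]
  rw [expect_add_distrib, ← expect_div, expect_const (monF_nonempty n)] at h1
  have h2 : (𝔼 y ∈ monF F n, f y ^ 2) / (2 * s) ≤ s / 2 := by
    rw [div_le_iff₀ (by positivity)]
    nlinarith
  linarith

theorem xloc2_pow (Q a c : ℕ) (h : Q * a ≤ c) : (Q : ℝ) ^ a ≤ 2 ^ c := by
  have h1 : (Q : ℝ) ≤ 2 ^ Q := by exact_mod_cast Nat.lt_two_pow_self.le
  calc (Q : ℝ) ^ a ≤ (2 ^ Q) ^ a := pow_le_pow_left₀ (Nat.cast_nonneg _) h1 a
    _ = 2 ^ (Q * a) := by rw [← pow_mul]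
    _ ≤ 2 ^ c := pow_le_pow_right₀ one_le_two h

theorem xloc2_hxx {Q : ℝ} (hQ : 2 ≤ Q) (j m L lo : ℕ) (hL : m + 2 * j + 1 ≤ L)
    (hlo : 2 * (m + j + 2) ≤ lo) : 4 ^ j / Q ^ L + 2 ^ (j + 1) / √(Q ^ lo) ≤ 1 / 2 ^ m := by
  have h1 : (2 : ℝ) ^ (m + 2 * j + 1) ≤ Q ^ L :=
    (pow_le_pow_right₀ one_le_two hL).trans (pow_le_pow_left₀ two_pos.le hQ L)
  have h2 : (2 : ℝ) ^ (m + j + 2) ≤ √(Q ^ lo) := by
    refine Real.le_sqrt_of_sq_le ?_
    rw [← pow_mul, mul_comm]
    exact (pow_le_pow_right₀ one_le_two hlo).trans (pow_le_pow_left₀ two_pos.le hQ lo)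
  have h3 : (4 : ℝ) ^ j / Q ^ L ≤ 4 ^ j / 2 ^ (m + 2 * j + 1) :=
    div_le_div_of_nonneg_left (by positivity) (by positivity) h1
  have h4 : (2 : ℝ) ^ (j + 1) / √(Q ^ lo) ≤ 2 ^ (j + 1) / 2 ^ (m + j + 2) :=
    div_le_div_of_nonneg_left (by positivity) (by positivity) h2
  have h5 : (4 : ℝ) ^ j / 2 ^ (m + 2 * j + 1) = 1 / 2 ^ m / 2 := by
    rw [show (4 : ℝ) = 2 ^ 2 by norm_num, ← pow_mul]
    field_simp
    ring
  have h6 : (2 : ℝ) ^ (j + 1) / 2 ^ (m + j + 2) = 1 / 2 ^ m / 2 := by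
    field_simp
    ring
  linarith

theorem xloc2_half (b : ℕ) : (1 : ℝ) / 2 ^ b ≤ (3 / 4) ^ b := by
  rw [← one_div_pow]
  exact pow_le_pow_left₀ (by norm_num) (by norm_num) b

theorem xloc2_var {Q : ℝ} (hQ : 2 ≤ Q) {p : ℝ} (hp : 1 ≤ p) (b : ℕ) :
    p / Q ^ b ≤ (p * (3 / 4) ^ b) ^ 2 := by
  have h1 : 1 / Q ^ b ≤ ((3 / 4) ^ b) ^ 2 := by
    rw [← pow_mul, mul_comm, pow_mul, ← one_div_pow]
    refine pow_le_pow_left₀ (by positivity) ?_ b
    rw [div_le_iff₀ (by positivity)]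
    nlinarith
  have h2 : p ≤ p ^ 2 := by nlinarith
  rw [mul_pow, div_eq_mul_one_div]
  exact mul_le_mul h2 h1 (by positivity) (by positivity)

end Aux

variable {F : Type*} [Field F] [Fintype F] {p : ℕ} [Fact p.Prime] [CharP F p]

theorem xloc2_dir (hp : p ≠ 2) {ι : Type} [Fintype ι] {g : ℕ → F[X] → ℝ} {ρ : ℕ → ℝ} {ρ₀ : ℝ}
    {lo hi : ℕ → ℕ} (hw : Weight p ι g ρ ρ₀ lo hi) {J : Type*} [Fintype J] (α β : J → F[X])
    (hα : ∀ j, α j ≠ 0) : ∃ c₁ : ℕ, 0 < c₁ ∧ ∀ b, 1 ≤ b → ∀ D, c₁ * b ≤ D → ∀ e ≤ 1,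
      ∀ᶠ n in atTop, ((n + (p * b + e) : ℕ) : F) ≠ 0 → ∀ G : J → F[X] → F[X] → ℝ, Adm α β G →
        ∀ t ∈ monF F b, |TT n D (fun y => g (n + (p * b + e) - 1) (derivative (BB p e t * y)) *
          lam y) G| ≤ 2 * (3 / 4) ^ b := by
  obtain ⟨A, hA⟩ : ∃ A : ℕ, ∀ j, (α j).natDegree ≤ A ∧ (β j).natDegree ≤ A :=
    ⟨univ.sup fun j => (α j).natDegree + (β j).natDegree, fun j =>
      ⟨le_self_add.trans (le_sup (f := fun j => (α j).natDegree + (β j).natDegree) (mem_univ j)),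
       le_add_self.trans (le_sup (f := fun j => (α j).natDegree + (β j).natDegree) (mem_univ j))⟩⟩
  set q := Fintype.card F with hq
  set j' := Fintype.card J + Fintype.card ι with hj'
  obtain ⟨k₀, hk₀⟩ : ∃ k₀, k₀ = q * (p + 1) + 1 := ⟨_, rfl⟩
  obtain ⟨a₀, ha₀⟩ : ∃ a₀, a₀ = q * (3 * k₀ + 1) + 1 := ⟨_, rfl⟩
  obtain ⟨l₀, hl₀⟩ : ∃ l₀, l₀ = a₀ * 2 ^ j' + 2 * j' + 1 := ⟨_, rfl⟩
  refine ⟨A + p * (A + (p + 1)) + p * (3 * k₀ + l₀) + 1, Nat.succ_pos _, fun b hb D hD e he => ?_⟩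
  have hT : Tendsto (fun n => n + (p * b + e) - 1) atTop atTop :=
    (tendsto_sub_atTop_nat 1).comp (tendsto_add_atTop_nat _)
  have hs : p * b + e ≤ (p + 1) * b := by nlinarith
  have hp0 : 0 < p := (Fact.out : p.Prime).pos
  filter_upwards [hT.eventually (hw.hi_le (l₀ * b + 3 * (k₀ * b) + (p * b + e) + 1)),
    (hw.lo_top.comp hT).eventually_ge_atTop
      (l₀ * b + 3 * (k₀ * b) + (p * b + e) + A + 2 * (a₀ * b * 2 ^ j' + j' + 2)),
    eventually_ge_atTop 1] with n h1 h2 h3 hne G hG t ht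
  simp only [Function.comp] at h2
  obtain ⟨hB, hBd⟩ := monic_BB hp e hb ht
  set M := n + (p * b + e) - 1 with hM
  obtain ⟨N, hN⟩ : ∃ N, M / p = N + (p * b + e) + 3 * (k₀ * b) :=
    ⟨M / p - (p * b + e) - 3 * (k₀ * b), by omega⟩
  have hMp : p * (M / p) ≤ M := Nat.mul_div_le M p
  have h4 : (p - 1) * (p * b + e) + p * (3 * (k₀ * b) + N) ≤ n := by
    obtain ⟨r, hr⟩ : ∃ r, p = r + 1 := ⟨p - 1, by omega⟩
    have e1 : p - 1 = r := by omega
    have e2 : p * (N + (p * b + e) + 3 * (k₀ * b)) =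
        r * (p * b + e) + p * (3 * (k₀ * b) + N) + (p * b + e) := by
      generalize p * b + e = s
      rw [hr]
      ring
    rw [hN, e2] at hMp
    rw [e1]
    omega
  have hQ : (2 : ℝ) ≤ q := two_le_card
  have key := dir_avg (ι := ι) hp hα hG hB (n := n) (lo := lo M) (hi := hi M) (N := N)
    (K := k₀ * b) (L := l₀ * b) (D := D) (g M) (fun y hy => ?_) (by omega)
    (by rw [hBd]; exact h4) (by omega) (by omega) (by omega) (by omega)
    (fun j => by have := (hA j).1; omega) (fun j => ?_) (x := 1 / 2 ^ (a₀ * b)) (by positivity) ?_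
  · refine key.trans ?_
    have e1 : (q : ℝ) ^ (3 * (k₀ * b) + 1) ≤ 2 ^ (q * (3 * k₀ + 1) * b) :=
      xloc2_pow _ _ _ (by rw [mul_assoc]; exact Nat.mul_le_mul_left _ (by nlinarith))
    have e2 : (q : ℝ) ^ (BB p e t).natDegree ≤ 2 ^ (q * (p + 1) * b) :=
      xloc2_pow _ _ _ (by rw [mul_assoc, hBd]; exact Nat.mul_le_mul_left _ hs)
    have e3 : (q : ℝ) ^ (3 * (k₀ * b) + 1) * (1 / 2 ^ (a₀ * b)) ≤ 1 / 2 ^ b := by
      rw [mul_one_div, div_le_div_iff₀ (by positivity) (by positivity), one_mul, ha₀, add_mul,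
        one_mul, pow_add 2]
      exact mul_le_mul_of_nonneg_right e1 (by positivity)
    have e4 : (q : ℝ) ^ (BB p e t).natDegree / 2 ^ (k₀ * b) ≤ 1 / 2 ^ b := by
      rw [div_le_div_iff₀ (by positivity) (by positivity), one_mul, hk₀, add_mul,
        one_mul, pow_add 2]
      exact mul_le_mul_of_nonneg_right e2 (by positivity)
    have := xloc2_half b
    linarith
  · obtain ⟨hy1, hy2⟩ := mem_monF.1 hy
    have hz : (BB p e t * y).Monic := hB.mul hy1
    have hzd : (BB p e t * y).natDegree = n + (p * b + e) := by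
      rw [hB.natDegree_mul hy1, hBd, hy2, add_comm]
    have hne' : (((BB p e t * y).natDegree : ℕ) : F) ≠ 0 := by rw [hzd]; exact hne
    obtain ⟨g0, g1, g2⟩ := hw.good M _ (deriv_ne_zero hz hne') (by rw [natDegree_deriv hz hne', hzd])
    exact ⟨by rw [abs_of_nonneg g0]; exact g1, g2⟩
  · rw [hBd]
    refine le_trans ?_ hD
    have e1 : (p - 1) * ((α j).natDegree + (p * b + e)) ≤ p * ((A + (p + 1)) * b) :=
      Nat.mul_le_mul (Nat.sub_le _ _) (by have := (hA j).1; nlinarith)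
    have e2 : (β j).natDegree ≤ A * b := (hA j).2.trans (Nat.le_mul_of_pos_right _ hb)
    have e3 : (A + p * (A + (p + 1)) + p * (3 * k₀ + l₀) + 1) * b =
        A * b + p * ((A + (p + 1)) * b) + p * (3 * (k₀ * b) + l₀ * b) + b := by ring
    omega
  · rw [one_div_pow, ← pow_mul]
    refine xloc2_hxx hQ j' _ _ _ ?_ (le_add_self.trans h2)
    rw [hl₀]
    nlinarith

theorem loc_exp (hp : p ≠ 2) {ι : Type} [Fintype ι] {g : ℕ → F[X] → ℝ} {ρ : ℕ → ℝ} {ρ₀ : ℝ}
    {lo hi : ℕ → ℕ} (hw : Weight p ι g ρ ρ₀ lo hi) {J : Type*} [Fintype J] (α β : J → F[X])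
    (hα : ∀ j, α j ≠ 0) : ∃ (c₁ : ℕ) (c₂ : ℝ), 0 < c₁ ∧ ∀ b, 1 ≤ b → ∀ D, c₁ * b ≤ D →
      ∀ᶠ n in atTop, ∀ G : J → F[X] → F[X] → ℝ, Adm α β G →
        |TT n D lam G| ≤ c₂ * (3 / 4) ^ b := by
  obtain ⟨c₁, hc₁, hdir⟩ := xloc2_dir hp hw α β hα
  refine ⟨c₁, (2 + p) / ρ₀, hc₁, fun b hb D hD => ?_⟩
  have hp1 : (1 : ℝ) ≤ p := by exact_mod_cast (Fact.out : p.Prime).one_le
  have main : ∀ e ≤ 1, ∀ᶠ n in atTop, ((n + (p * b + e) : ℕ) : F) ≠ 0 →
      ∀ G : J → F[X] → F[X] → ℝ, Adm α β G → |TT n D lam G| ≤ (2 + p) / ρ₀ * (3 / 4) ^ b := by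
    intro e he
    have hT : Tendsto (fun n => n + (p * b + e) - 1) atTop atTop :=
      (tendsto_sub_atTop_nat 1).comp (tendsto_add_atTop_nat _)
    filter_upwards [hdir b hb D hD e he, variance hp hw hb e, hT.eventually hw.rho] with
      n h1 h2 h3 hne G hG
    set M := n + (p * b + e) - 1 with hM
    have e0 := xloc2_split G n D b (fun t y => g M (derivative (BB p e t * y))) (ρ M)
    have e1 : |𝔼 t ∈ monF F b, TT n D (fun y => g M (derivative (BB p e t * y)) * lam y) G| ≤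
        2 * (3 / 4) ^ b :=
      (abs_expect_le _ _).trans (expect_le (monF_nonempty b) (h1 hne G hG))
    have e2 : |TT n D (fun y => (𝔼 t ∈ monF F b, (g M (derivative (BB p e t * y)) - ρ M)) *
        lam y) G| ≤ p * (3 / 4) ^ b := by
      refine (xloc2_bound hG n D _).trans ?_
      simp only [abs_mul, abs_lam, mul_one]
      exact xloc2_amgm n _ (by positivity) ((h2 hne).trans (xloc2_var two_le_card hp1 b))
    have e3 : |ρ M * TT n D lam G| ≤ (2 + p) * (3 / 4) ^ b := by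
      rw [e0]
      refine (abs_sub _ _).trans ?_
      linarith
    rw [abs_mul, abs_of_pos (hw.pos.trans_le h3.1)] at e3
    rw [div_mul_eq_mul_div, le_div_iff₀ hw.pos, mul_comm]
    exact (mul_le_mul_of_nonneg_right h3.1 (abs_nonneg _)).trans e3
  filter_upwards [main 0 zero_le_one, main 1 le_rfl] with n h0 h1
  by_cases h : ((n + (p * b + 0) : ℕ) : F) = 0
  · refine h1 ?_
    rw [← add_assoc, Nat.cast_add, Nat.cast_one, show n + p * b = n + (p * b + 0) from rfl, h,
      zero_add]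
    exact one_ne_zero
  · exact h0 h

theorem loc_unif (hp : p ≠ 2) {ι : Type} [Fintype ι] {g : ℕ → F[X] → ℝ} {ρ : ℕ → ℝ} {ρ₀ : ℝ}
    {lo hi : ℕ → ℕ} (hw : Weight p ι g ρ ρ₀ lo hi) {J : Type*} [Fintype J] (α β : J → F[X])
    (hα : ∀ j, α j ≠ 0) {ε : ℝ} (hε : 0 < ε) : ∀ᶠ D : ℕ in atTop, ∀ᶠ n in atTop,
      ∀ G : J → F[X] → F[X] → ℝ, Adm α β G → D * |TT n D lam G| ≤ ε := by
  obtain ⟨c₁, c₂, hc₁, h⟩ := loc_exp hp hw α β hα
  have h0 : Tendsto (fun b : ℕ => (c₁ * c₂ : ℝ) * (b * (3 / 4) ^ b + (3 / 4) ^ b)) atTop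
      (𝓝 ((c₁ * c₂ : ℝ) * (0 + 0))) :=
    ((tendsto_self_mul_const_pow_of_lt_one (by norm_num) (by norm_num)).add
      (tendsto_pow_atTop_nhds_zero_of_lt_one (by norm_num) (by norm_num))).const_mul _
  rw [add_zero, mul_zero] at h0
  have hT := Nat.tendsto_div_const_atTop hc₁.ne'
  filter_upwards [hT.eventually (h0.eventually (ge_mem_nhds hε)), hT.eventually_ge_atTop 1] with
    D h1 h2
  filter_upwards [h (D / c₁) h2 D (Nat.mul_div_le D c₁)] with n h3 G hG
  have h4 : (D : ℝ) ≤ c₁ * ((D / c₁ : ℕ) + 1) := by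
    exact_mod_cast (Nat.lt_mul_div_succ D hc₁).le
  calc (D : ℝ) * |TT n D lam G| ≤ c₁ * ((D / c₁ : ℕ) + 1) * |TT n D lam G| :=
        mul_le_mul_of_nonneg_right h4 (abs_nonneg _)
    _ ≤ c₁ * ((D / c₁ : ℕ) + 1) * (c₂ * (3 / 4) ^ (D / c₁)) :=
        mul_le_mul_of_nonneg_left (h3 G hG) (by positivity)
    _ ≤ ε := by
        refine le_of_eq_of_le ?_ h1
        ring

end Pool.Agent.MP_4fffd4_nt.Odd

end

section

/- Orthogonality of two weighted forms. -/

set_option autoImplicit false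

namespace Pool.Agent.MP_4fffd4_nt.Odd

open Polynomial Finset Filter Topology
open scoped BigOperators

variable {F : Type*} [Field F] [Fintype F] {p : ℕ} [Fact p.Prime] [CharP F p]

omit [Fintype F] in
theorem xpair_monic {A h z : F[X]} (hA : A.Monic) (hz : z.Monic) (hh : h.natDegree < z.natDegree) :
    (A * z + h).Monic ∧ (A * z + h).natDegree = A.natDegree + z.natDegree := by
  have h1 := hA.natDegree_mul hz
  have h2 : h.natDegree < (A * z).natDegree := by omega
  exact ⟨(hA.mul hz).add_of_left (degree_lt_degree h2),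
    by rw [natDegree_add_eq_left_of_natDegree_lt h2, h1]⟩

theorem xpair_err {B A h : F[X]} (hB : B.Monic) (hA : A.Monic) {n : ℕ} (hh : h.natDegree < n)
    (K : ℕ) : 𝔼 z ∈ monF F n, ind (∃ δ : F[X], δ.Monic ∧ K < δ.natDegree ∧ δ ^ 2 ∣ B * (A * z + h))
      ≤ (Fintype.card F : ℝ) ^ (B.natDegree + A.natDegree) / 2 ^ K := by
  have hq := card_pos' (F := F)
  rw [expect_monF_eq, sum_monF, div_le_iff₀ (by positivity)]
  refine (sum_sq_dvd (fun y : degreeLT F n => B * (A * (X ^ n + y.1) + h))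
    (m := B.natDegree + A.natDegree + n) (fun a b hab => ?_) (fun y => ?_) K).trans_eq ?_
  · exact Subtype.ext (add_left_cancel (mul_left_cancel₀ hA.ne_zero
      (add_right_cancel (mul_left_cancel₀ hB.ne_zero hab))))
  · obtain ⟨h6, h7⟩ := monic_add_LT y
    obtain ⟨h8, h9⟩ := xpair_monic hA h6 (h7.symm ▸ hh)
    exact ⟨hB.mul h8, by rw [hB.natDegree_mul h8, h9, h7, add_assoc]⟩
  · rw [pow_add _ _ n]; ring

omit [Fintype F] [CharP F p] in
theorem xpair_id (hp : p ≠ 2) (A A' B u u' a v z h : F[X]) :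
    A * (z + B ^ (p - 1) * (u * u' * a * (A * A') ^ (p - 2) * v) ^ p) + h =
      A * z + h + (A ^ (p - 1) * B) ^ (p - 1) * (u * (u' * a * A' ^ (p - 2) * v)) ^ p := by
  have h2 := (Fact.out : p.Prime).two_le
  obtain ⟨s, hs⟩ : ∃ s, p = s + 2 := ⟨p - 2, by omega⟩
  have e1 : p - 1 = s + 1 := by omega
  have e2 : p - 2 = s := by omega
  rw [e1, e2, hs]
  ring

omit [Fintype F] in
theorem xpair_res (A A' B h z : F[X]) :
    A' ^ p * derivative (A ^ (p - 1) * B * (A * z + h)) -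
      A ^ p * derivative (A' ^ (p - 1) * B * (A' * z + h)) =
      derivative ((A * A') ^ (p - 1) * B * h * (A' - A)) := by
  have h0 : ∀ x y : F[X], x ^ p * derivative y = derivative (x ^ p * y) := fun x y => by
    rw [derivative_mul, xvar_dpow, zero_mul, zero_add]
  rw [h0, h0, ← derivative_sub]
  congr 1
  have h2 := (Fact.out : p.Prime).two_le
  obtain ⟨s, hs⟩ : ∃ s, p = s + 1 := ⟨p - 1, by omega⟩
  have e1 : p - 1 = s := by omega
  rw [e1, hs]
  ring

theorem xpair_piece (hp : p ≠ 2) {ι : Type} [Fintype ι] {A A' B h a u u' : F[X]} (hA : A.Monic)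
    (hA' : A'.Monic) (hB : B.Monic) (ha : a.Monic) (hu : u.Monic) (hu' : u'.Monic)
    (hR : derivative ((A * A') ^ (p - 1) * B * h * (A' - A)) ≠ 0) {n lo hi N L T : ℕ}
    {G G' Φ : F[X] → ℝ} (hG : ∀ W, |G W| ≤ 1 ∧ (G W ≠ 0 → GoodS ι lo hi W))
    (hG' : ∀ W, |G' W| ≤ 1 ∧ (G' W ≠ 0 → GoodS ι lo hi W)) (hΦ : ∀ z, |Φ z| ≤ 1)
    (hΦ' : ∀ z v, Φ (z + a * v) = Φ z) (hh : h.natDegree < n)
    (hRlo : (derivative ((A * A') ^ (p - 1) * B * h * (A' - A))).natDegree ≤ lo)
    (hT : p * (A.natDegree + A'.natDegree) + B.natDegree + u.natDegree + u'.natDegree +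
      a.natDegree ≤ T) (hN : p * (3 * T + N) ≤ n) (hTlo : T ≤ lo) (hhi : hi + L ≤ N)
    (hL : L ≤ lo) {x : ℝ} (hx : 0 ≤ x)
    (hxx : 4 ^ (2 * Fintype.card ι + 1) / (Fintype.card F : ℝ) ^ L +
        2 ^ (2 * Fintype.card ι + 1 + 1) / √((Fintype.card F : ℝ) ^ lo) ≤
      x ^ 2 ^ (2 * Fintype.card ι + 1)) :
    |𝔼 z ∈ monF F n, Φ z * G (WA p B A h z) * G' (WA p B A' h z) *
      (piece u (A ^ (p - 1) * B * (A * z + h)) * piece u' (A' ^ (p - 1) * B * (A' * z + h)))| ≤
      x := by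
  have hp0 : 0 < p := (Fact.out : p.Prime).pos
  have d1 : ∀ {A : F[X]} (k : ℕ), A.Monic → (A ^ (p - k)).natDegree ≤ p * A.natDegree :=
    fun k h => by rw [h.natDegree_pow]; exact Nat.mul_le_mul_right _ (Nat.sub_le _ _)
  have e0 := mul_add p A.natDegree A'.natDegree
  have hB1 : (A ^ (p - 1) * B).natDegree ≤ T :=
    natDegree_mul_le.trans (by have := d1 1 hA; omega)
  have hB2 : (A' ^ (p - 1) * B).natDegree ≤ T :=
    natDegree_mul_le.trans (by have := d1 1 hA'; omega)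
  have hκ1 : (u' * a * A' ^ (p - 2)).natDegree ≤ T :=
    natDegree_mul_le.trans (by
      have := d1 2 hA'; have : (u' * a).natDegree ≤ _ := natDegree_mul_le; omega)
  have hκ2 : (u * a * A ^ (p - 2)).natDegree ≤ T :=
    natDegree_mul_le.trans (by
      have := d1 2 hA; have : (u * a).natDegree ≤ _ := natDegree_mul_le; omega)
  have hr : (u * u' * a * (A * A') ^ (p - 2)).natDegree ≤ T :=
    natDegree_mul_le.trans (by
      have h1 := d1 2 (hA.mul hA')
      rw [hA.natDegree_mul hA'] at h1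
      have : (u * u' * a).natDegree ≤ _ := natDegree_mul_le
      have : (u * u').natDegree ≤ _ := natDegree_mul_le
      omega)
  have key : ∀ b c d : ℕ, b ≤ T → c ≤ T → d ≤ T → (p - 1) * b + p * (c + (d + N)) ≤ n := by
    intro b c d h1 h2 h3
    refine le_trans ?_ hN
    have h4 : (p - 1) * b ≤ p * T := Nat.mul_le_mul (Nat.sub_le _ _) h1
    have h5 : p * (c + (d + N)) ≤ p * (T + (T + N)) := Nat.mul_le_mul_left _ (by omega)
    have h6 : p * (3 * T + N) = p * T + p * (T + (T + N)) := by ring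
    omega
  set r := u * u' * a * (A * A') ^ (p - 2) with hrdef
  set Ψ : F[X] → ℝ := fun z => Φ z * G (WA p B A h z) * G' (WA p B A' h z) *
      (piece u (A ^ (p - 1) * B * (A * z + h)) * piece u' (A' ^ (p - 1) * B * (A' * z + h)))
    with hΨ
  have h1 : 𝔼 z ∈ monF F n, Ψ z =
      𝔼 z ∈ monF F n, 𝔼 v ∈ ltF F N, Ψ (z + B ^ (p - 1) * (r * v) ^ p) := by
    rw [expect_comm, ← expect_const (ltF_nonempty (F := F) N) (𝔼 z ∈ monF F n, Ψ z)]
    refine expect_congr rfl fun v hv => (expect_monF_add (xloc1_deg ?_ (mem_ltF.1 hv)) Ψ).symm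
    have := key B.natDegree 0 r.natDegree (by omega) (Nat.zero_le _) hr
    rwa [zero_add] at this
  change |𝔼 z ∈ monF F n, Ψ z| ≤ x
  rw [h1]
  refine xloc1_abs_le (monF_nonempty n) fun z hz => ?_
  obtain ⟨hz1, hz2⟩ := mem_monF.1 hz
  obtain ⟨hy1, hd1⟩ := xpair_monic hA hz1 (hz2.symm ▸ hh)
  obtain ⟨hy2, hd2⟩ := xpair_monic hA' hz1 (hz2.symm ▸ hh)
  have h2 : ∀ v, Ψ (z + B ^ (p - 1) * (r * v) ^ p) =
      Φ z * G (WA p B A h z) * G' (WA p B A' h z) *
      (piece u (A ^ (p - 1) * B * (A * z + h + (A ^ (p - 1) * B) ^ (p - 1) *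
        (u * (u' * a * A' ^ (p - 2) * v)) ^ p)) *
       piece u' (A' ^ (p - 1) * B * (A' * z + h + (A' ^ (p - 1) * B) ^ (p - 1) *
        (u' * (u * a * A ^ (p - 2) * v)) ^ p))) := by
    intro v
    have i1 := xpair_id hp A A' B u u' a v z h
    have i2 := xpair_id hp A' A B u' u a v z h
    rw [mul_comm u' u, mul_comm A' A] at i2
    have i3 : a ∣ B ^ (p - 1) * (r * v) ^ p :=
      (((((dvd_mul_left a (u * u')).mul_right _).mul_right v).trans
        (dvd_pow_self _ hp0.ne')).mul_left _)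
    obtain ⟨w, hw⟩ := i3
    have i4 : Φ (z + B ^ (p - 1) * (r * v) ^ p) = Φ z := by rw [hw, hΦ']
    simp only [hΨ, WA, i4]
    rw [hrdef, i1, i2, deriv_shift, deriv_shift]
  simp only [h2, ← mul_expect]
  by_cases g1 : G (WA p B A h z) = 0
  · rw [g1, mul_zero, zero_mul, zero_mul, abs_zero]; exact hx
  by_cases g2 : G' (WA p B A' h z) = 0
  · rw [g2, mul_zero, zero_mul, abs_zero]; exact hx
  have h3 := coset_two hp (κ' := u * a * A ^ (p - 2)) ((hA.pow _).mul hB) ((hA'.pow _).mul hB)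
    hu hu' hy1 hy2 ((hu'.mul ha).mul (hA'.pow (p - 2))) ((hG _).2 g1) ((hG' _).2 g2)
    (fun P hP hlo c1 c2 => by
      have c3 : P ∣ derivative ((A * A') ^ (p - 1) * B * h * (A' - A)) := by
        rw [← xpair_res A A' B h z]
        exact (c1.mul_left _).sub (c2.mul_left _)
      have := natDegree_le_of_dvd c3 hR
      omega)
    ((key _ _ _ hB1 (by omega) hκ1).trans (by omega))
    ((key _ _ _ hB2 (by omega) hκ2).trans (by omega)) hhi hL (hB1.trans hTlo) (by omega)
    (by omega) (hκ1.trans hTlo)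
  have h4 := (pow_le_pow_iff_left₀ (abs_nonneg _) hx (by positivity)).1 (h3.trans hxx)
  rw [abs_mul, abs_mul, abs_mul]
  refine (mul_le_mul ?_ h4 (abs_nonneg _) zero_le_one).trans_eq (one_mul x)
  exact mul_le_one₀ (mul_le_one₀ (hΦ z) (abs_nonneg _) (hG _).1) (abs_nonneg _) (hG' _).1

theorem pair_avg (hp : p ≠ 2) {ι : Type} [Fintype ι] {lo hi : ℕ → ℕ}
    (hlo : Tendsto lo atTop atTop) (hhi : ∀ c : ℕ, ∀ᶠ M in atTop, hi M + c ≤ M / p)
    {A A' B h a : F[X]} (hA : A.Monic) (hA' : A'.Monic) (hB : B.Monic) (ha : a.Monic)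
    (hD : A'.natDegree = A.natDegree)
    (hR : derivative ((A * A') ^ (p - 1) * B * h * (A' - A)) ≠ 0) {ε : ℝ} (hε : 0 < ε) :
    ∀ᶠ n in atTop, ∀ G G' Φ : F[X] → ℝ,
      (∀ W, |G W| ≤ 1 ∧ (G W ≠ 0 → GoodS ι (lo (n + p * A.natDegree + B.natDegree - 1))
        (hi (n + p * A.natDegree + B.natDegree - 1)) W)) →
      (∀ W, |G' W| ≤ 1 ∧ (G' W ≠ 0 → GoodS ι (lo (n + p * A.natDegree + B.natDegree - 1))
        (hi (n + p * A.natDegree + B.natDegree - 1)) W)) →
      (∀ z, |Φ z| ≤ 1) → (∀ z v, Φ (z + a * v) = Φ z) →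
      |𝔼 z ∈ monF F n, Φ z * (G (WA p B A h z) * lam (A * z + h)) *
        (G' (WA p B A' h z) * lam (A' * z + h))| ≤ ε := by
  have hq := card_pos' (F := F)
  have hp0 : 0 < p := (Fact.out : p.Prime).pos
  set q : ℝ := (Fintype.card F : ℝ) with hqdef
  set B1 := A ^ (p - 1) * B with hB1
  set B2 := A' ^ (p - 1) * B with hB2
  have mB1 : B1.Monic := (hA.pow _).mul hB
  have mB2 : B2.Monic := (hA'.pow _).mul hB
  have half : Tendsto (fun k : ℕ => (1 : ℝ) / 2 ^ k) atTop (𝓝 0) := by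
    simpa using tendsto_pow_atTop_nhds_zero_of_lt_one (r := (1 / 2 : ℝ)) (by norm_num)
      (by norm_num)
  set c := q ^ (B1.natDegree + A.natDegree) + 2 * q ^ (B2.natDegree + A'.natDegree) with hc
  obtain ⟨K, hK⟩ := (half.eventually (ge_mem_nhds (show 0 < ε / 2 / c by positivity))).exists
  set x := ε / 2 / (q ^ (3 * K + 1) * q ^ (3 * K + 1)) with hx
  have hx0 : 0 < x := by positivity
  set j := 2 * Fintype.card ι + 1 with hj
  obtain ⟨m, hm⟩ := (half.eventually (ge_mem_nhds (show 0 < x ^ 2 ^ j by positivity))).exists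
  obtain ⟨T, hT⟩ : ∃ T, T = p * (A.natDegree + A'.natDegree) + B.natDegree + 3 * K + 3 * K +
    a.natDegree := ⟨_, rfl⟩
  have hM : Tendsto (fun n => n + p * A.natDegree + B.natDegree - 1) atTop atTop :=
    (tendsto_sub_atTop_nat 1).comp ((tendsto_add_atTop_nat _).comp (tendsto_add_atTop_nat _))
  filter_upwards [hM.eventually (hhi (m + 2 * j + 1 + 3 * T + A.natDegree + B.natDegree)),
    (hlo.comp hM).eventually_ge_atTop (m + 2 * j + 1 + T + 2 * (m + j + 2) +
      (derivative ((A * A') ^ (p - 1) * B * h * (A' - A))).natDegree),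
    eventually_gt_atTop h.natDegree] with n h1 h2 h3 G G' Φ hG hG' hΦ hΦ'
  simp only [Function.comp] at h2
  set M := n + p * A.natDegree + B.natDegree - 1 with hMdef
  have h4 : M / p ≤ n / p + (A.natDegree + B.natDegree) := by
    rw [← Nat.add_mul_div_left _ _ hp0]
    refine Nat.div_le_div_right ?_
    have := Nat.le_mul_of_pos_left B.natDegree hp0
    rw [mul_add]
    omega
  obtain ⟨N, hN⟩ : ∃ N, n / p = 3 * T + N := ⟨n / p - 3 * T, by omega⟩
  have h5 : p * (3 * T + N) ≤ n := hN ▸ Nat.mul_div_le n p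
  set E : F[X] → ℝ := fun z => ind (∃ δ : F[X], δ.Monic ∧ K < δ.natDegree ∧ δ ^ 2 ∣ z) with hE
  set S : F[X] → ℝ := fun z => ∑ u ∈ fullLE F (3 * K), piece u z with hS
  set Θ : F[X] → ℝ := fun z => Φ z * G (WA p B A h z) * G' (WA p B A' h z) with hΘ
  have hΘ1 : ∀ z, |Θ z| ≤ 1 := fun z => by
    simp only [hΘ, abs_mul]
    exact mul_le_one₀ (mul_le_one₀ (hΦ z) (abs_nonneg _) (hG _).1) (abs_nonneg _) (hG' _).1
  have e1 : 𝔼 z ∈ monF F n, Φ z * (G (WA p B A h z) * lam (A * z + h)) *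
        (G' (WA p B A' h z) * lam (A' * z + h)) = lam B1 * lam B2 *
      (∑ u ∈ fullLE F (3 * K), ∑ u' ∈ fullLE F (3 * K), 𝔼 z ∈ monF F n,
        Θ z * (piece u (B1 * (A * z + h)) * piece u' (B2 * (A' * z + h))) +
       𝔼 z ∈ monF F n, Θ z * (lam (B1 * (A * z + h)) * lam (B2 * (A' * z + h)) -
        S (B1 * (A * z + h)) * S (B2 * (A' * z + h)))) := by
    simp only [← expect_sum_comm, ← expect_add_distrib, mul_expect]
    refine expect_congr rfl fun z hz => ?_
    obtain ⟨hz1, hz2⟩ := mem_monF.1 hz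
    have a1 := (xpair_monic hA hz1 (hz2.symm ▸ h3)).1.ne_zero
    have a2 := (xpair_monic hA' hz1 (hz2.symm ▸ h3)).1.ne_zero
    simp only [← Finset.mul_sum, ← Finset.sum_mul, hS, hΘ]
    rw [lam_mul mB1.ne_zero a1, lam_mul mB2.ne_zero a2]
    have b1 := lam_mul_self B1
    have b2 := lam_mul_self B2
    linear_combination (-(Φ z * G (WA p B A h z) * G' (WA p B A' h z) * lam (A * z + h) *
      lam (A' * z + h))) * (lam B2 * lam B2 * b1 + b2)
  have hcard : ((fullLE F (3 * K)).card : ℝ) ≤ q ^ (3 * K + 1) := by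
    have h4 : (fullLE F (3 * K)).card ≤ Fintype.card F ^ (3 * K + 1) := by
      classical
      exact (card_filter_le _ _).trans (card_monLE _)
    rw [hqdef]
    exact_mod_cast h4
  have e2 : |∑ u ∈ fullLE F (3 * K), ∑ u' ∈ fullLE F (3 * K), 𝔼 z ∈ monF F n,
      Θ z * (piece u (B1 * (A * z + h)) * piece u' (B2 * (A' * z + h)))| ≤ ε / 2 := by
    refine (abs_sum_le_sum_abs _ _).trans
      ((sum_le_card_nsmul _ _ (q ^ (3 * K + 1) * x) fun u hu => ?_).trans ?_)
    · refine (abs_sum_le_sum_abs _ _).trans ((sum_le_card_nsmul _ _ x fun u' hu' => ?_).trans ?_)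
      · obtain ⟨hu1, hu2, -⟩ := mem_fullLE.1 hu
        obtain ⟨hu1', hu2', -⟩ := mem_fullLE.1 hu'
        exact xpair_piece hp hA hA' hB ha hu1 hu1' hR (L := m + 2 * j + 1) (T := T) hG hG' hΦ hΦ'
          h3 (by omega) (by omega) h5 (by omega) (by omega) (by omega) hx0.le
          ((xloc2_hxx two_le_card j m _ _ le_rfl (by omega)).trans hm)
      · rw [nsmul_eq_mul]
        exact mul_le_mul_of_nonneg_right hcard hx0.le
    · rw [nsmul_eq_mul]
      refine (mul_le_mul_of_nonneg_right hcard (by positivity)).trans_eq ?_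
      rw [hx]
      field_simp
  have e3 : |𝔼 z ∈ monF F n, Θ z * (lam (B1 * (A * z + h)) * lam (B2 * (A' * z + h)) -
        S (B1 * (A * z + h)) * S (B2 * (A' * z + h)))| ≤ ε / 2 := by
    have f1 := xpair_err mB1 hA h3 K
    have f2 := xpair_err mB2 hA' h3 K
    refine (abs_expect_le _ _).trans ((expect_le_expect (g := fun z =>
      E (B1 * (A * z + h)) + 2 * E (B2 * (A' * z + h))) fun z hz => ?_).trans ?_)
    · obtain ⟨hz1, hz2⟩ := mem_monF.1 hz
      have a1 : |lam (B1 * (A * z + h)) - S (B1 * (A * z + h))| ≤ E (B1 * (A * z + h)) :=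
        lam_decomp (mB1.mul (xpair_monic hA hz1 (hz2.symm ▸ h3)).1) K
      have a2 : |lam (B2 * (A' * z + h)) - S (B2 * (A' * z + h))| ≤ E (B2 * (A' * z + h)) :=
        lam_decomp (mB2.mul (xpair_monic hA' hz1 (hz2.symm ▸ h3)).1) K
      have a3 : E (B1 * (A * z + h)) ≤ 1 := ind_le_one _
      have a4 := abs_lam (B1 * (A * z + h))
      have a5 := abs_lam (B2 * (A' * z + h))
      generalize lam (B1 * (A * z + h)) = l1 at *
      generalize lam (B2 * (A' * z + h)) = l2 at *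
      generalize S (B1 * (A * z + h)) = s1 at *
      generalize S (B2 * (A' * z + h)) = s2 at *
      have a6 : |s1| ≤ 2 := by
        have := abs_sub_abs_le_abs_sub s1 l1
        rw [abs_sub_comm] at this
        linarith
      rw [abs_mul, show l1 * l2 - s1 * s2 = (l1 - s1) * l2 + s1 * (l2 - s2) by ring]
      refine (mul_le_of_le_one_left (abs_nonneg _) (hΘ1 z)).trans ((abs_add_le _ _).trans ?_)
      rw [abs_mul, abs_mul, a5, mul_one]
      exact add_le_add a1 (mul_le_mul a6 a2 (abs_nonneg _) two_pos.le)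
    · rw [expect_add_distrib, ← mul_expect]
      have f3 : c * (1 / 2 ^ K) ≤ ε / 2 := by
        rw [le_div_iff₀ (by positivity)] at hK
        linarith
      refine le_trans ?_ f3
      rw [hc, add_mul, mul_one_div, mul_assoc, mul_one_div]
      exact add_le_add f1 (mul_le_mul_of_nonneg_left f2 two_pos.le)
  rw [e1, abs_mul, abs_mul, abs_lam, abs_lam, one_mul, one_mul]
  exact (abs_add_le _ _).trans ((add_le_add e2 e3).trans_eq (add_halves ε))

end Pool.Agent.MP_4fffd4_nt.Odd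

end

section

/- Many weighted forms, fixed squarefull parts. -/

set_option autoImplicit false

namespace Pool.Agent.MP_4fffd4_nt.Odd

open Polynomial Finset Filter Topology
open scoped BigOperators

variable {F : Type*} [Field F] [Fintype F] {p : ℕ} [Fact p.Prime] [CharP F p]

omit [Fintype F] [CharP F p] in
theorem xmanya_id (hp : p ≠ 2) (A B u κ v z h : F[X]) :
    A * (z + B ^ (p - 1) * (u * A ^ (p - 2) * κ * v) ^ p) + h =
      A * z + h + (A ^ (p - 1) * B) ^ (p - 1) * (u * (κ * v)) ^ p := by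
  have h2 := (Fact.out : p.Prime).two_le
  obtain ⟨s, hs⟩ : ∃ s, p = s + 2 := ⟨p - 2, by omega⟩
  have e1 : p - 1 = s + 1 := by omega
  have e2 : p - 2 = s := by omega
  rw [e1, e2, hs]
  ring

omit [Fintype F] in
theorem xmanya_res (A A' B h h' z : F[X]) :
    A' ^ p * derivative (A ^ (p - 1) * B * (A * z + h)) -
      A ^ p * derivative (A' ^ (p - 1) * B * (A' * z + h')) =
      derivative ((A * A') ^ (p - 1) * B * (A' * h - A * h')) := by
  have h0 : ∀ x y : F[X], x ^ p * derivative y = derivative (x ^ p * y) := fun x y => by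
    rw [derivative_mul, xvar_dpow, zero_mul, zero_add]
  rw [h0, h0, ← derivative_sub]
  congr 1
  have h2 := (Fact.out : p.Prime).two_le
  obtain ⟨s, hs⟩ : ∃ s, p = s + 1 := ⟨p - 1, by omega⟩
  have e1 : p - 1 = s := by omega
  rw [e1, hs]
  ring

theorem many_piece (hp : p ≠ 2) {ι : Type} [Fintype ι] {I : Type*} [Fintype I] (i₀ : I)
    {A h u : I → F[X]} {B : F[X]} (hA : ∀ i, (A i).Monic) (hB : B.Monic) (hu : ∀ i, (u i).Monic)
    {n lo hi N L T : ℕ}
    (hR : ∀ i, i ≠ i₀ →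
      derivative ((A i₀ * A i) ^ (p - 1) * B * (A i * h i₀ - A i₀ * h i)) ≠ 0 ∧
      (derivative ((A i₀ * A i) ^ (p - 1) * B * (A i * h i₀ - A i₀ * h i))).natDegree ≤ lo)
    {G : I → F[X] → ℝ} (hG : ∀ i W, |G i W| ≤ 1 ∧ (G i W ≠ 0 → GoodS ι lo hi W))
    (hh : ∀ i, (h i).natDegree < n)
    (hT : p * ∑ i, (A i).natDegree + B.natDegree + ∑ i, (u i).natDegree ≤ T)
    (hN : p * (3 * T + N) ≤ n) (hTlo : T ≤ lo) (hhi : hi + L ≤ N) (hL : L ≤ lo) {x : ℝ}
    (hx : 0 ≤ x)
    (hxx : 4 ^ (Fintype.card I * (Fintype.card ι + 1)) / (Fintype.card F : ℝ) ^ L +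
        2 ^ (Fintype.card I * (Fintype.card ι + 1) + 1) / √((Fintype.card F : ℝ) ^ lo) ≤
      x ^ 2 ^ (Fintype.card I * (Fintype.card ι + 1))) :
    |𝔼 z ∈ monF F n, ∏ i, G i (WA p B (A i) (h i) z) *
      piece (u i) (A i ^ (p - 1) * B * (A i * z + h i))| ≤ x := by
  classical
  have hp0 : 0 < p := (Fact.out : p.Prime).pos
  have d1 : ∀ {A : F[X]} (k : ℕ), A.Monic → (A ^ (p - k)).natDegree ≤ p * A.natDegree :=
    fun k h => by rw [h.natDegree_pow]; exact Nat.mul_le_mul_right _ (Nat.sub_le _ _)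
  have sA : ∀ i, p * (A i).natDegree ≤ p * ∑ i, (A i).natDegree := fun i =>
    Nat.mul_le_mul_left _ (single_le_sum (f := fun i => (A i).natDegree)
      (fun _ _ => Nat.zero_le _) (mem_univ i))
  have su : ∀ i, (u i).natDegree ≤ T := fun i => by
    have := single_le_sum (f := fun i => (u i).natDegree) (fun _ _ => Nat.zero_le _) (mem_univ i)
    omega
  have hB1 : ∀ i, (A i ^ (p - 1) * B).natDegree ≤ T := fun i =>
    natDegree_mul_le.trans (by have := d1 1 (hA i); have := sA i; omega)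
  have hc : ∀ i, (u i * A i ^ (p - 2)).Monic := fun i => (hu i).mul ((hA i).pow _)
  have hs : ∀ s : Finset I, (∏ j ∈ s, u j * A j ^ (p - 2)).natDegree ≤ T := fun s => by
    refine (natDegree_prod_le _ _).trans ((sum_le_sum_of_subset (subset_univ s)).trans
      ((sum_le_sum (g := fun j => p * (A j).natDegree + (u j).natDegree) fun j _ => ?_).trans ?_))
    · exact natDegree_mul_le.trans (by have := d1 2 (hA j); omega)
    · rw [sum_add_distrib, ← mul_sum]; omega
  have key : ∀ b c d : ℕ, b ≤ T → c ≤ T → d ≤ T → (p - 1) * b + p * (c + (d + N)) ≤ n := by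
    intro b c d h1 h2 h3
    refine le_trans ?_ hN
    have h4 : (p - 1) * b ≤ p * T := Nat.mul_le_mul (Nat.sub_le _ _) h1
    have h5 : p * (c + (d + N)) ≤ p * (T + (T + N)) := Nat.mul_le_mul_left _ (by omega)
    have h6 : p * (3 * T + N) = p * T + p * (T + (T + N)) := by ring
    omega
  set r := ∏ j, u j * A j ^ (p - 2) with hrdef
  set κ : I → F[X] := fun i => ∏ j ∈ univ.erase i, u j * A j ^ (p - 2) with hκ
  have hrκ : ∀ i, r = u i * A i ^ (p - 2) * κ i := fun i =>
    (mul_prod_erase univ (fun j => u j * A j ^ (p - 2)) (mem_univ i)).symm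
  set Ψ : F[X] → ℝ := fun z => ∏ i, G i (WA p B (A i) (h i) z) *
      piece (u i) (A i ^ (p - 1) * B * (A i * z + h i)) with hΨ
  have h1 : 𝔼 z ∈ monF F n, Ψ z =
      𝔼 z ∈ monF F n, 𝔼 v ∈ ltF F N, Ψ (z + B ^ (p - 1) * (r * v) ^ p) := by
    rw [expect_comm, ← expect_const (ltF_nonempty (F := F) N) (𝔼 z ∈ monF F n, Ψ z)]
    refine expect_congr rfl fun v hv => (expect_monF_add (xloc1_deg ?_ (mem_ltF.1 hv)) Ψ).symm
    have := key B.natDegree 0 r.natDegree (by omega) (Nat.zero_le _) (hs univ)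
    rwa [zero_add] at this
  change |𝔼 z ∈ monF F n, Ψ z| ≤ x
  rw [h1]
  refine xloc1_abs_le (monF_nonempty n) fun z hz => ?_
  obtain ⟨hz1, hz2⟩ := mem_monF.1 hz
  have hy := fun i => xpair_monic (hA i) hz1 (hz2.symm ▸ hh i)
  have h2 : ∀ v, Ψ (z + B ^ (p - 1) * (r * v) ^ p) =
      (∏ i, G i (WA p B (A i) (h i) z)) *
      ∏ i, piece (u i) (A i ^ (p - 1) * B * (A i * z + h i + (A i ^ (p - 1) * B) ^ (p - 1) *
        (u i * (κ i * v)) ^ p)) := by
    intro v
    rw [← prod_mul_distrib]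
    refine prod_congr rfl fun i _ => ?_
    simp only [WA]
    rw [hrκ i, xmanya_id hp, deriv_shift]
  simp only [h2, ← mul_expect]
  by_cases g1 : ∏ i, G i (WA p B (A i) (h i) z) = 0
  · rw [g1, zero_mul, abs_zero]; exact hx
  have h3 := coset_many hp i₀ (B := fun i => A i ^ (p - 1) * B) (y := fun i => A i * z + h i)
    (κ := κ) (fun i => ((hA i).pow _).mul hB) hu (fun i => (hy i).1)
    (monic_prod_of_monic _ _ fun j _ => hc j)
    (fun i => (hG i _).2 (prod_ne_zero_iff.1 g1 i (mem_univ i)))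
    (fun i hi P hP hlo c1 c2 => by
      have c3 : P ∣ derivative ((A i₀ * A i) ^ (p - 1) * B * (A i * h i₀ - A i₀ * h i)) := by
        rw [← xmanya_res (A i₀) (A i) B (h i₀) (h i) z]
        exact (c1.mul_left _).sub (c2.mul_left _)
      have := natDegree_le_of_dvd c3 (hR i hi).1
      have := (hR i hi).2
      omega)
    (fun i => (key _ _ _ (hB1 i) (su i) (hs _)).trans (by have := (hy i).2; omega))
    hhi hL ((hB1 i₀).trans hTlo) (fun i => (su i).trans hTlo) ((hs _).trans hTlo)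
  have h4 := (pow_le_pow_iff_left₀ (abs_nonneg _) hx (by positivity)).1 (h3.trans hxx)
  rw [abs_mul]
  refine (mul_le_mul ?_ h4 (abs_nonneg _) zero_le_one).trans_eq (one_mul x)
  rw [abs_prod]
  exact prod_le_one (fun _ _ => abs_nonneg _) fun i _ => (hG i _).1

end Pool.Agent.MP_4fffd4_nt.Odd

end

section

/- Correlations of many weighted forms. -/

set_option autoImplicit false

namespace Pool.Agent.MP_4fffd4_nt.Odd

open Polynomial Finset Filter Topology
open scoped BigOperators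

theorem xmanyb_prod {I : Type*} [Fintype I] (l s : I → ℝ) (P : I → Prop) (hl : ∀ i, |l i| = 1)
    (h : ∀ i, |l i - s i| ≤ ind (P i)) :
    |∏ i, l i - ∏ i, s i| ≤ (1 + 2 ^ Fintype.card I) * ∑ i, ind (P i) := by
  by_cases hP : ∃ i, P i
  · obtain ⟨k, hk⟩ := hP
    have h1 : (1 : ℝ) ≤ ∑ i, ind (P i) := by
      rw [← ind_pos hk]
      exact single_le_sum (f := fun i => ind (P i)) (fun i _ => ind_nonneg _) (mem_univ k)
    have h2 : |∏ i, l i| = 1 := by
      rw [abs_prod]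
      exact prod_eq_one fun i _ => hl i
    have h3 : |∏ i, s i| ≤ 2 ^ Fintype.card I := by
      rw [abs_prod, ← card_univ, ← prod_const]
      refine prod_le_prod (fun i _ => abs_nonneg _) fun i _ => ?_
      have h4 := abs_sub_abs_le_abs_sub (s i) (l i)
      rw [abs_sub_comm, hl i] at h4
      have h5 := h i
      have h6 := ind_le_one (P i)
      linarith
    refine (abs_sub _ _).trans ?_
    rw [h2]
    exact (add_le_add le_rfl h3).trans (le_mul_of_one_le_right (by positivity) h1)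
  · have h1 : l = s := funext fun i => by
      have h2 := h i
      rw [ind_neg fun hi => hP ⟨i, hi⟩] at h2
      exact sub_eq_zero.1 (abs_nonpos_iff.1 h2)
    rw [h1, sub_self, abs_zero]
    exact mul_nonneg (by positivity) (sum_nonneg fun i _ => ind_nonneg _)

variable {F : Type*} [Field F] [Fintype F] {p : ℕ} [Fact p.Prime] [CharP F p]

theorem many_avg (hp : p ≠ 2) {ι : Type} [Fintype ι] {lo hi : ℕ → ℕ}
    (hlo : Tendsto lo atTop atTop) (hhi : ∀ c : ℕ, ∀ᶠ M in atTop, hi M + c ≤ M / p)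
    {I : Type*} [Fintype I] (i₀ : I) {A h : I → F[X]} {B : F[X]} {D : ℕ}
    (hA : ∀ i, A i ∈ monF F D) (hB : B.Monic)
    (hR : ∀ i, i ≠ i₀ →
      derivative ((A i₀ * A i) ^ (p - 1) * B * (A i * h i₀ - A i₀ * h i)) ≠ 0)
    {ε : ℝ} (hε : 0 < ε) :
    ∀ᶠ n in atTop, ∀ G : I → F[X] → ℝ,
      (∀ i W, |G i W| ≤ 1 ∧ (G i W ≠ 0 → GoodS ι (lo (n + p * D + B.natDegree - 1))
        (hi (n + p * D + B.natDegree - 1)) W)) →
      |𝔼 z ∈ monF F n, ∏ i, G i (WA p B (A i) (h i) z) * lam (A i * z + h i)| ≤ ε := by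
  classical
  have hq := card_pos' (F := F)
  have hp0 : 0 < p := (Fact.out : p.Prime).pos
  set q : ℝ := (Fintype.card F : ℝ) with hqdef
  have mA : ∀ i, (A i).Monic := fun i => (mem_monF.1 (hA i)).1
  have dA : ∀ i, (A i).natDegree = D := fun i => (mem_monF.1 (hA i)).2
  have mB : ∀ i, (A i ^ (p - 1) * B).Monic := fun i => ((mA i).pow _).mul hB
  have half : Tendsto (fun k : ℕ => (1 : ℝ) / 2 ^ k) atTop (𝓝 0) := by
    simpa using tendsto_pow_atTop_nhds_zero_of_lt_one (r := (1 / 2 : ℝ)) (by norm_num)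
      (by norm_num)
  obtain ⟨c, hc⟩ : ∃ c : ℝ, c = (1 + 2 ^ Fintype.card I) *
    ∑ i, q ^ ((A i ^ (p - 1) * B).natDegree + (A i).natDegree) := ⟨_, rfl⟩
  have hc0 : 0 < c := by
    rw [hc]
    exact mul_pos (by positivity) (sum_pos (fun i _ => pow_pos hq _) ⟨i₀, mem_univ _⟩)
  obtain ⟨K, hK⟩ := (half.eventually (ge_mem_nhds (show 0 < ε / 2 / c by positivity))).exists
  obtain ⟨x, hx⟩ : ∃ x : ℝ, x = ε / 2 / (q ^ (3 * K + 1)) ^ Fintype.card I := ⟨_, rfl⟩
  have hx0 : 0 < x := by rw [hx]; positivity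
  obtain ⟨j, hj⟩ : ∃ j, j = Fintype.card I * (Fintype.card ι + 1) := ⟨_, rfl⟩
  obtain ⟨m, hm⟩ := (half.eventually (ge_mem_nhds (show 0 < x ^ 2 ^ j by positivity))).exists
  obtain ⟨T, hT⟩ : ∃ T, T = p * ∑ i, (A i).natDegree + B.natDegree + Fintype.card I * (3 * K) :=
    ⟨_, rfl⟩
  obtain ⟨R, hRdef⟩ : ∃ R, R = ∑ i,
    (derivative ((A i₀ * A i) ^ (p - 1) * B * (A i * h i₀ - A i₀ * h i))).natDegree := ⟨_, rfl⟩
  have hRle : ∀ i,
      (derivative ((A i₀ * A i) ^ (p - 1) * B * (A i * h i₀ - A i₀ * h i))).natDegree ≤ R :=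
    fun i => hRdef ▸ single_le_sum (f := fun i =>
      (derivative ((A i₀ * A i) ^ (p - 1) * B * (A i * h i₀ - A i₀ * h i))).natDegree)
      (fun _ _ => Nat.zero_le _) (mem_univ i)
  have hM : Tendsto (fun n => n + p * D + B.natDegree - 1) atTop atTop :=
    (tendsto_sub_atTop_nat 1).comp ((tendsto_add_atTop_nat _).comp (tendsto_add_atTop_nat _))
  filter_upwards [hM.eventually (hhi (m + 2 * j + 1 + 3 * T + D + B.natDegree)),
    (hlo.comp hM).eventually_ge_atTop (m + 2 * j + 1 + T + 2 * (m + j + 2) + R),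
    eventually_gt_atTop (∑ i, (h i).natDegree)] with n h1 h2 h3 G hG
  simp only [Function.comp] at h2
  have hh : ∀ i, (h i).natDegree < n := fun i =>
    (single_le_sum (f := fun i => (h i).natDegree) (fun _ _ => Nat.zero_le _)
      (mem_univ i)).trans_lt h3
  set M := n + p * D + B.natDegree - 1 with hMdef
  have h4 : M / p ≤ n / p + (D + B.natDegree) := by
    rw [← Nat.add_mul_div_left _ _ hp0]
    refine Nat.div_le_div_right ?_
    have := Nat.le_mul_of_pos_left B.natDegree hp0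
    rw [mul_add]
    omega
  obtain ⟨N, hN⟩ : ∃ N, n / p = 3 * T + N := ⟨n / p - 3 * T, by omega⟩
  have h5 : p * (3 * T + N) ≤ n := hN ▸ Nat.mul_div_le n p
  set S : F[X] → ℝ := fun z => ∑ u ∈ fullLE F (3 * K), piece u z with hS
  have e1 : 𝔼 z ∈ monF F n, ∏ i, G i (WA p B (A i) (h i) z) * lam (A i * z + h i) =
      (∏ i, lam (A i ^ (p - 1) * B)) *
      (∑ u ∈ Fintype.piFinset fun _ : I => fullLE F (3 * K), 𝔼 z ∈ monF F n,
        ∏ i, G i (WA p B (A i) (h i) z) * piece (u i) (A i ^ (p - 1) * B * (A i * z + h i)) +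
       𝔼 z ∈ monF F n, (∏ i, G i (WA p B (A i) (h i) z)) *
        (∏ i, lam (A i ^ (p - 1) * B * (A i * z + h i)) -
          ∏ i, S (A i ^ (p - 1) * B * (A i * z + h i)))) := by
    rw [← expect_sum_comm, ← expect_add_distrib, mul_expect]
    refine expect_congr rfl fun z hz => ?_
    obtain ⟨hz1, hz2⟩ := mem_monF.1 hz
    rw [← prod_univ_sum (fun _ : I => fullLE F (3 * K)) fun i u =>
      G i (WA p B (A i) (h i) z) * piece u (A i ^ (p - 1) * B * (A i * z + h i))]
    simp only [← Finset.mul_sum, hS]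
    rw [prod_mul_distrib (f := fun i => G i (WA p B (A i) (h i) z))
      (g := fun i => ∑ u ∈ fullLE F (3 * K), piece u (A i ^ (p - 1) * B * (A i * z + h i))),
      ← mul_add, add_sub_cancel, ← prod_mul_distrib, ← prod_mul_distrib]
    refine prod_congr rfl fun i _ => ?_
    rw [lam_mul (mB i).ne_zero (xpair_monic (mA i) hz1 (hz2.symm ▸ hh i)).1.ne_zero]
    linear_combination (-(G i (WA p B (A i) (h i) z) * lam (A i * z + h i))) *
      lam_mul_self (A i ^ (p - 1) * B)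
  have hcard : ((fullLE F (3 * K)).card : ℝ) ≤ q ^ (3 * K + 1) := by
    have h4 : (fullLE F (3 * K)).card ≤ Fintype.card F ^ (3 * K + 1) :=
      (card_filter_le _ _).trans (card_monLE _)
    rw [hqdef]
    exact_mod_cast h4
  have e2 : |∑ u ∈ Fintype.piFinset fun _ : I => fullLE F (3 * K), 𝔼 z ∈ monF F n,
      ∏ i, G i (WA p B (A i) (h i) z) * piece (u i) (A i ^ (p - 1) * B * (A i * z + h i))| ≤
      ε / 2 := by
    refine (abs_sum_le_sum_abs _ _).trans ((sum_le_card_nsmul _ _ x fun u hu => ?_).trans ?_)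
    · have hu' := fun i => mem_fullLE.1 (Fintype.mem_piFinset.1 hu i)
      have hs : ∑ i, (u i).natDegree ≤ Fintype.card I * (3 * K) :=
        (sum_le_card_nsmul _ _ _ fun i _ => (hu' i).2.1).trans_eq (by rw [card_univ, smul_eq_mul])
      refine many_piece hp i₀ mA hB (fun i => (hu' i).1) (L := m + 2 * j + 1) (T := T) (N := N)
        (fun i hi => ⟨hR i hi, (hRle i).trans (by omega)⟩) hG hh (by omega) h5 (by omega)
        (by omega) (by omega) hx0.le ?_
      rw [← hj]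
      exact (xloc2_hxx two_le_card j m _ _ le_rfl (by omega)).trans hm
    · rw [nsmul_eq_mul, Fintype.card_piFinset, prod_const, card_univ, Nat.cast_pow]
      refine (mul_le_mul_of_nonneg_right
        (pow_le_pow_left₀ (Nat.cast_nonneg _) hcard _) hx0.le).trans_eq ?_
      rw [hx, mul_div_cancel₀ _ (by positivity)]
  have e3 : |𝔼 z ∈ monF F n, (∏ i, G i (WA p B (A i) (h i) z)) *
        (∏ i, lam (A i ^ (p - 1) * B * (A i * z + h i)) -
          ∏ i, S (A i ^ (p - 1) * B * (A i * z + h i)))| ≤ ε / 2 := by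
    refine (abs_expect_le _ _).trans ((expect_le_expect (g := fun z =>
      (1 + 2 ^ Fintype.card I) * ∑ i, ind (∃ δ : F[X], δ.Monic ∧ K < δ.natDegree ∧
        δ ^ 2 ∣ A i ^ (p - 1) * B * (A i * z + h i))) fun z hz => ?_).trans ?_)
    · obtain ⟨hz1, hz2⟩ := mem_monF.1 hz
      have a1 : |∏ i, G i (WA p B (A i) (h i) z)| ≤ 1 := by
        rw [abs_prod]
        exact prod_le_one (fun i _ => abs_nonneg _) fun i _ => (hG i _).1
      rw [abs_mul]
      refine (mul_le_of_le_one_left (abs_nonneg _) a1).trans ?_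
      exact xmanyb_prod _ _ _ (fun i => abs_lam _) fun i =>
        lam_decomp ((mB i).mul (xpair_monic (mA i) hz1 (hz2.symm ▸ hh i)).1) K
    · rw [← mul_expect, expect_sum_comm]
      have f3 : c * (1 / 2 ^ K) ≤ ε / 2 := by
        rw [le_div_iff₀ hc0] at hK
        linarith
      refine le_trans ?_ f3
      rw [hc, mul_assoc, sum_mul]
      refine mul_le_mul_of_nonneg_left (sum_le_sum fun i _ => ?_) (by positivity)
      rw [mul_one_div]
      exact xpair_err (mB i) (mA i) (hh i) K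
  have e4 : |∏ i, lam (A i ^ (p - 1) * B)| = 1 := by
    rw [abs_prod]
    exact prod_eq_one fun i _ => abs_lam _
  rw [e1, abs_mul, e4, one_mul]
  exact (abs_add_le _ _).trans ((add_le_add e2 e3).trans_eq (add_halves ε))

end Pool.Agent.MP_4fffd4_nt.Odd

end

section

/- The variance of the normalised weight over the directions. -/

set_option autoImplicit false

namespace Pool.Agent.MP_4fffd4_nt.Odd

open Polynomial Finset Filter Topology
open scoped BigOperators

variable {F : Type*} [Field F] [Fintype F] {p : ℕ} [Fact p.Prime] [CharP F p]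

omit [Fintype F] in
theorem xvar2_add (B A h z w : F[X]) :
    WA p B A h (z + w) = WA p B A h z + A ^ p * derivative (B * w) := by
  have e : A ^ (p - 1) * B * (A * (z + w) + h) =
      A ^ (p - 1) * B * (A * z + h) + A ^ p * (B * w) := by
    rw [← xvar_pow (p := p) A]
    ring
  rw [WA, WA, e, derivative_add, derivative_mul (f := A ^ p), xvar_dpow, zero_mul, zero_add]

omit [Fintype F] in
theorem xvar2_deg {B A h z : F[X]} (hB : B.Monic) (hA : A.Monic) (hz : z.Monic)
    (hh : h.natDegree < z.natDegree) (hne : ((z.natDegree + B.natDegree : ℕ) : F) ≠ 0) :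
    (WA p B A h z).natDegree = z.natDegree + p * A.natDegree + B.natDegree - 1 := by
  have h1 : h.natDegree < (A * z).natDegree := by rw [hA.natDegree_mul hz]; omega
  have h2 : (A * z + h).Monic := (hA.mul hz).add_of_left (degree_lt_degree h1)
  have h3 := ((hA.pow (p - 1)).mul hB).mul h2
  have h4 : (A ^ (p - 1) * B * (A * z + h)).natDegree =
      z.natDegree + p * A.natDegree + B.natDegree := by
    rw [((hA.pow (p - 1)).mul hB).natDegree_mul h2, (hA.pow (p - 1)).natDegree_mul hB,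
      hA.natDegree_pow, natDegree_add_eq_left_of_natDegree_lt h1, hA.natDegree_mul hz]
    obtain ⟨k, rfl⟩ := Nat.exists_eq_add_of_le' (Fact.out : p.Prime).one_le
    rw [Nat.add_sub_cancel]
    ring
  rw [WA, natDegree_deriv h3, h4]
  rw [h4, add_right_comm, Nat.cast_add, Nat.cast_mul, CharP.cast_eq_zero F p, zero_mul, add_zero]
  exact hne

theorem variance_two (hp : p ≠ 2) {ι : Type} [Fintype ι] {δ : ℝ} {lo hi : ℕ → ℕ}
    (hw : PosW F p ι δ lo hi) {b : ℕ} (hb : 1 ≤ b) (e : ℕ) {A : F[X]} (hA : A.Monic) (h : F[X]) :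
    ∀ᶠ n in atTop, ((n + (p * b + e) : ℕ) : F) ≠ 0 → ∃ G : F[X] → F[X] → ℝ,
      (∀ t W, |G t W| ≤ 1 ∧ (G t W ≠ 0 → GoodS ι (lo (n + p * A.natDegree + (p * b + e) - 1))
        (hi (n + p * A.natDegree + (p * b + e) - 1)) W)) ∧
      𝔼 z ∈ monF F n, (𝔼 t ∈ monF F b, (G t (WA p (BB p e t) A h z) - δ)) ^ 2 ≤
        p / (Fintype.card F : ℝ) ^ b := by
  obtain ⟨Ω, c, hΩ, hspan⟩ := exists_span (p := p) (monF F b)
  set D := p * b + e with hD
  set K := (p - 1) * D with hK
  set c' := 2 * K + e + c + p * (e + Ω.natDegree) + 1 with hc'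
  have hp1 : 1 ≤ p := (Fact.out : p.Prime).one_le
  have htend : Tendsto (fun n : ℕ => n + p * A.natDegree + D - 1) atTop atTop :=
    tendsto_atTop_atTop.2 fun N => ⟨N + 1, fun n hn => by omega⟩
  have hB0 : ∀ t ∈ monF F b, BB p e t ≠ 0 := fun t ht => (monic_BB hp e hb ht).1.ne_zero
  have hBK : ∀ t ∈ monF F b, (BB p e t ^ (p - 1)).natDegree = K := fun t ht => by
    rw [natDegree_pow, (monic_BB hp e hb ht).2]
  have hev := (eventually_all_finset (monF F b)).2 fun t ht =>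
    hw.dens (A * (X ^ e * Ω * BB p e t)) (p * A.natDegree + D + c')
      (mul_ne_zero hA.ne_zero (mul_ne_zero (mul_ne_zero (pow_ne_zero _ X_ne_zero) hΩ) (hB0 t ht)))
  filter_upwards [htend.eventually hev, eventually_gt_atTop c', eventually_gt_atTop h.natDegree]
    with n hdens hn hnh hne
  set M := n + p * A.natDegree + D - 1 with hM
  let ρ : F[X] → F[X] → ℝ := fun t W => 𝔼 v ∈ ltF F (n - c'),
    ind (GoodS ι (lo M) (hi M) (W + (A * (X ^ e * Ω * BB p e t)) ^ p * derivative v))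
  let G : F[X] → F[X] → ℝ := fun t W => ind (GoodS ι (lo M) (hi M) W) * min 1 (δ / ρ t W)
  have hρ0 : ∀ t W, 0 ≤ ρ t W := fun t W => expect_nonneg fun _ _ => ind_nonneg _
  have hρ1 : ∀ t W, ρ t W ≤ 1 := fun t W => expect_le (ltF_nonempty _) fun _ _ => ind_le_one _
  have hG : ∀ t W, 0 ≤ G t W ∧ G t W ≤ 1 := fun t W =>
    have h0 := le_min zero_le_one (div_nonneg hw.pos.le (hρ0 t W))
    ⟨mul_nonneg (ind_nonneg _) h0, mul_le_one₀ (ind_le_one _) h0 (min_le_left _ _)⟩
  have hδ : ∀ (t : monF F b) (x : degreeLT F n),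
      δ ≤ ρ t.1 (WA p (BB p e t.1) A h (X ^ n + x.1)) := fun t x => by
    obtain ⟨h1, h2⟩ := monic_BB hp e hb t.2
    obtain ⟨h3, h4⟩ := monic_add_LT x
    refine hdens t.1 t.2 _ _ ?_ ?_ (by omega)
    · rw [xvar2_deg h1 hA h3 (by omega) (by rwa [h2, h4]), h2, h4]
    · have a1 := natDegree_mul_le (p := A) (q := X ^ e * Ω * BB p e t.1)
      have a2 := natDegree_mul_le (p := X ^ e * Ω) (q := BB p e t.1)
      have a3 := natDegree_mul_le (p := (X ^ e : F[X])) (q := Ω)
      rw [natDegree_X_pow] at a3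
      have a4 := Nat.mul_le_mul_left p (show (A * (X ^ e * Ω * BB p e t.1)).natDegree ≤
        A.natDegree + (e + Ω.natDegree) + D by omega)
      have a5 : p * D = K + D := by
        rw [hK, ← Nat.succ_mul, Nat.succ_eq_add_one, Nat.sub_add_cancel hp1]
      rw [mul_add, mul_add p A.natDegree] at a4
      omega
  refine ⟨G, fun t W => ⟨abs_le.2 ⟨by linarith [(hG t W).1], (hG t W).2⟩, fun h0 => ?_⟩, ?_⟩
  · by_contra h1
    exact h0 (by simp only [G]; rw [ind_neg h1, zero_mul])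
  have hv : ∀ v : degreeLT F (n - c'), v.1.natDegree < n - c' := fun v =>
    xvar_nat (by omega) (mem_degreeLT.1 v.2)
  have hXΩ : ((X ^ e * Ω) ^ p).natDegree ≤ p * (e + Ω.natDegree) :=
    natDegree_pow_le.trans (Nat.mul_le_mul_left p
      (natDegree_mul_le.trans (by rw [natDegree_X_pow])))
  have hθm : ∀ (t : monF F b) (v : degreeLT F (n - c')),
      (X ^ e * Ω) ^ p * BB p e t.1 ^ (p - 1) * v.1 ∈ degreeLT F n := by
    intro t v
    refine mem_degreeLT.2 (xvar_deg ?_)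
    have h1 := natDegree_mul_le (p := (X ^ e * Ω) ^ p * BB p e t.1 ^ (p - 1)) (q := v.1)
    have h2 := natDegree_mul_le (p := (X ^ e * Ω) ^ p) (q := BB p e t.1 ^ (p - 1))
    have h3 := hBK t.1 t.2
    have h4 := hv v
    omega
  let θ : monF F b → degreeLT F (n - c') →+ degreeLT F n := fun t =>
    { toFun := fun v => ⟨_, hθm t v⟩
      map_zero' := Subtype.ext (by simp)
      map_add' := fun v w => Subtype.ext (by simp [mul_add]) }
  let U : monF F b → AddSubgroup (degreeLT F n) := fun t =>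
    { carrier := {x | ∃ s : F[X], x.1 = BB p e t.1 ^ (p - 1) * s ^ p}
      zero_mem' := ⟨0, by simp [zero_pow (by omega : p ≠ 0)]⟩
      add_mem' := by
        rintro x y ⟨s, hs⟩ ⟨s', hs'⟩
        exact ⟨s + s', by rw [Submodule.coe_add, hs, hs', add_pow_char, mul_add]⟩
      neg_mem' := by
        rintro x ⟨s, hs⟩
        exact ⟨-s, by rw [Submodule.coe_neg, hs, neg_pow, neg_one_pow_char]; ring⟩ }
  let φ : monF F b → degreeLT F n → ℝ := fun t x =>
    G t.1 (WA p (BB p e t.1) A h (X ^ n + x.1)) - δ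
  have : Nonempty (monF F b) := (monF_nonempty b).coe_sort
  have key := var_abstract p U θ φ ?_ ?_ ?_ ?_
  · rw [expect_monF]
    rw [Fintype.card_coe, card_monF, Nat.cast_pow] at key
    refine le_of_eq_of_le (expect_congr rfl fun x _ => ?_) key
    rw [xvar_coe]
  · intro t x
    have h1 := (hδ t x).trans (hρ1 _ _)
    have h2 := hG t.1 (WA p (BB p e t.1) A h (X ^ n + x.1))
    have := hw.pos
    rw [abs_le]
    constructor <;> simp only [φ] <;> linarith [h2.1, h2.2]
  · rintro t x u ⟨s, hs⟩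
    simp only [φ]
    rw [Submodule.coe_add, hs, ← add_assoc, xvar2_add, ← mul_assoc, xvar_pow, ← mul_pow, xvar_dpow,
      mul_zero, add_zero]
  · intro t x
    set W := WA p (BB p e t.1) A h (X ^ n + x.1) with hW
    have e1 : ∀ v : degreeLT F (n - c'), φ t (x + θ t v) = ind (GoodS ι (lo M) (hi M)
        (W + (A * (X ^ e * Ω * BB p e t.1)) ^ p * derivative v.1)) * (δ / ρ t.1 W) - δ := by
      intro v
      have e2 : BB p e t.1 * (θ t v).1 = (X ^ e * Ω * BB p e t.1) ^ p * v.1 := by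
        change BB p e t.1 * ((X ^ e * Ω) ^ p * BB p e t.1 ^ (p - 1) * v.1) = _
        rw [mul_pow (X ^ e * Ω), ← xvar_pow (p := p) (BB p e t.1)]
        ring
      have e3 : ρ t.1 (W + (A * (X ^ e * Ω * BB p e t.1)) ^ p * derivative v.1) = ρ t.1 W := by
        simp only [ρ]
        rw [expect_ltF_eq, expect_ltF_eq, ← sum_ltF_add (mem_degreeLT.1 v.2) fun w =>
          ind (GoodS ι (lo M) (hi M) (W + (A * (X ^ e * Ω * BB p e t.1)) ^ p * derivative w))]
        simp only [derivative_add, mul_add, add_assoc, add_comm (_ * derivative v.1)]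
      simp only [φ, G]
      rw [Submodule.coe_add, ← add_assoc, xvar2_add, e2, derivative_mul (f := _ ^ p), xvar_dpow,
        zero_mul, zero_add, ← mul_assoc, ← mul_pow, ← hW, e3,
        min_eq_right (div_le_one_of_le₀ (hδ t x) (hρ0 _ _))]
    simp only [e1]
    rw [expect_sub_distrib, Fintype.expect_const, ← expect_mul,
      ← expect_ltF (n - c') fun v => ind (GoodS ι (lo M) (hi M)
        (W + (A * (X ^ e * Ω * BB p e t.1)) ^ p * derivative v))]
    exact sub_eq_zero.2 (mul_div_cancel₀ δ (hw.pos.trans_le (hδ t x)).ne')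
  · intro τ hτ t v
    obtain ⟨u, hu, hsum⟩ := hspan (fun i => (τ i).1) (Subtype.val_injective.comp hτ)
      (fun i => (τ i).2) (X ^ e * BB p e t.1 ^ (p - 1) * v.1)
    have hx : (X ^ e * BB p e t.1 ^ (p - 1) * v.1).natDegree ≤ e + K + v.1.natDegree := by
      have h1 := natDegree_mul_le (p := X ^ e * BB p e t.1 ^ (p - 1)) (q := v.1)
      have h2 := natDegree_mul_le (p := (X ^ e : F[X])) (q := BB p e t.1 ^ (p - 1))
      have h3 := hBK t.1 t.2
      rw [natDegree_X_pow] at h2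
      omega
    have hm : ∀ i, BB p e (τ i).1 ^ (p - 1) * u i ^ p ∈ degreeLT F n := by
      intro i
      refine mem_degreeLT.2 (xvar_deg ?_)
      have h1 := natDegree_mul_le (p := BB p e (τ i).1 ^ (p - 1)) (q := u i ^ p)
      have h2 : (u i ^ p).natDegree ≤ p * (u i).natDegree := natDegree_pow_le
      have h3 := hBK (τ i).1 (τ i).2
      have h4 := hv v
      have h5 := hu i
      omega
    refine ⟨fun i => ⟨_, hm i⟩, fun i => ⟨u i, rfl⟩, Subtype.ext ?_⟩
    rw [Submodule.coe_sum]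
    change (X ^ e * Ω) ^ p * BB p e t.1 ^ (p - 1) * v.1 =
      ∑ i, BB p e (τ i).1 ^ (p - 1) * u i ^ p
    have e1 : ∀ i, BB p e (τ i).1 ^ (p - 1) * u i ^ p =
        (X ^ e) ^ (p - 1) * ((X + (τ i).1 ^ p) ^ (p - 1) * u i ^ p) := fun i => by
      rw [BB, mul_pow, mul_assoc]
    simp only [e1]
    rw [← mul_sum, ← hsum, mul_pow, ← xvar_pow (p := p) (X ^ e)]
    ring

end Pool.Agent.MP_4fffd4_nt.Odd

end

section

/- Almost orthogonality of linear forms. -/

set_option autoImplicit false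

namespace Pool.Agent.MP_4fffd4_nt.Odd

open Polynomial Finset Filter Topology
open scoped BigOperators

section Aux

variable {F : Type*} [Field F] [Fintype F]

theorem xgram_mul_le {x y : ℝ} (hx : |x| ≤ 1) (hy : |y| ≤ 1) : |x * y| ≤ 1 := by
  rw [abs_mul]
  exact mul_le_one₀ hx (abs_nonneg _) hy

/-- The first moment of a sum of almost orthogonal functions. -/
theorem xgram_first (n : ℕ) (S : Finset F[X]) (f : F[X] → F[X] → ℝ) {s : ℝ} (hs : 0 < s)
    (hf : ∀ A ∈ S, ∀ z, |f A z| ≤ 1)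
    (h : ∀ A ∈ S, ∀ A' ∈ S, A ≠ A' → |𝔼 z ∈ monF F n, f A z * f A' z| ≤ s ^ 2) :
    𝔼 z ∈ monF F n, |∑ A ∈ S, f A z| ≤ √S.card + (S.card + 1) * s := by
  classical
  have hN : (0 : ℝ) ≤ S.card := Nat.cast_nonneg _
  refine xloc2_amgm n _ (by positivity) ?_
  have e1 : 𝔼 z ∈ monF F n, (∑ A ∈ S, f A z) ^ 2 =
      ∑ A ∈ S, ∑ A' ∈ S, 𝔼 z ∈ monF F n, f A z * f A' z := by
    simp only [sq, sum_mul_sum, expect_sum_comm]
  have e2 : ∀ A ∈ S, ∑ A' ∈ S, 𝔼 z ∈ monF F n, f A z * f A' z ≤ 1 + S.card * s ^ 2 := by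
    intro A hA
    have e3 : ∀ A' ∈ S, 𝔼 z ∈ monF F n, f A z * f A' z ≤
        (if A = A' then 1 else 0) + s ^ 2 := by
      intro A' hA'
      by_cases k : A = A'
      · rw [if_pos k]
        refine le_add_of_le_of_nonneg (expect_le (monF_nonempty n) fun z _ => ?_) (sq_nonneg s)
        exact (le_abs_self _).trans (xgram_mul_le (hf A hA z) (hf A' hA' z))
      · rw [if_neg k, zero_add]
        exact (le_abs_self _).trans (h A hA A' hA' k)
    refine (sum_le_sum e3).trans_eq ?_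
    rw [sum_add_distrib, sum_ite_eq, if_pos hA, sum_const, nsmul_eq_mul]
  rw [e1]
  refine (sum_le_card_nsmul _ _ _ e2).trans ?_
  rw [nsmul_eq_mul, add_sq, Real.sq_sqrt hN]
  have e4 : 0 ≤ 2 * √(S.card : ℝ) * ((S.card + 1) * s) := by positivity
  have e5 : 0 ≤ (2 * (S.card : ℝ) + 1) * s ^ 2 := by positivity
  nlinarith

theorem xgram_split (n b : ℕ) (u : F[X] → ℝ) (γ : F[X] → F[X] → ℝ) (δ : ℝ) :
    δ * 𝔼 z ∈ monF F n, u z = 𝔼 t ∈ monF F b, 𝔼 z ∈ monF F n, u z * γ t z -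
      𝔼 z ∈ monF F n, u z * 𝔼 t ∈ monF F b, (γ t z - δ) := by
  rw [expect_comm (monF F b), ← expect_sub_distrib, mul_expect]
  refine expect_congr rfl fun z _ => ?_
  rw [← mul_expect, expect_sub_distrib, expect_const (monF_nonempty b)]
  ring

theorem xgram_core (n b : ℕ) (S : Finset F[X]) (φ : F[X] → ℝ) (u : F[X] → F[X] → ℝ)
    (γ : F[X] → F[X] → F[X] → ℝ) {δ s : ℝ} (hs : 0 < s) (hφ : ∀ z, |φ z| ≤ 1)
    (hu : ∀ A z, |u A z| ≤ 1) (hγ : ∀ A ∈ S, ∀ t z, |γ A t z| ≤ 1)
    (h1 : ∀ A ∈ S, 𝔼 z ∈ monF F n, (𝔼 t ∈ monF F b, (γ A t z - δ)) ^ 2 ≤ s ^ 2)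
    (h2 : ∀ t ∈ monF F b, ∀ A ∈ S, ∀ A' ∈ S, A ≠ A' →
      |𝔼 z ∈ monF F n, (u A z * γ A t z) * (u A' z * γ A' t z)| ≤ s ^ 2) :
    |δ * ∑ A ∈ S, 𝔼 z ∈ monF F n, φ z * u A z| ≤ √S.card + (2 * S.card + 1) * s := by
  have e0 : δ * ∑ A ∈ S, 𝔼 z ∈ monF F n, φ z * u A z =
      𝔼 t ∈ monF F b, 𝔼 z ∈ monF F n, φ z * ∑ A ∈ S, u A z * γ A t z -
        ∑ A ∈ S, 𝔼 z ∈ monF F n, φ z * u A z * 𝔼 t ∈ monF F b, (γ A t z - δ) := by
    rw [mul_sum, sum_congr rfl fun A _ => xgram_split n b (fun z => φ z * u A z) (γ A) δ,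
      sum_sub_distrib]
    simp only [mul_sum, expect_sum_comm, mul_assoc]
  have e1 : |𝔼 t ∈ monF F b, 𝔼 z ∈ monF F n, φ z * ∑ A ∈ S, u A z * γ A t z| ≤
      √S.card + (S.card + 1) * s := by
    refine (abs_expect_le _ _).trans (expect_le (monF_nonempty b) fun t ht => ?_)
    refine (abs_expect_le _ _).trans (le_trans (expect_le_expect fun z _ => ?_)
      (xgram_first n S (fun A z => u A z * γ A t z) hs
        (fun A hA z => xgram_mul_le (hu A z) (hγ A hA t z)) (h2 t ht)))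
    rw [abs_mul]
    exact mul_le_of_le_one_left (abs_nonneg _) (hφ z)
  have e2 : |∑ A ∈ S, 𝔼 z ∈ monF F n, φ z * u A z * 𝔼 t ∈ monF F b, (γ A t z - δ)| ≤
      S.card * s := by
    rw [← nsmul_eq_mul]
    refine (abs_sum_le_sum_abs _ _).trans (sum_le_card_nsmul _ _ _ fun A hA => ?_)
    refine (abs_expect_le _ _).trans (le_trans (expect_le_expect fun z _ => ?_)
      (xloc2_amgm n _ hs (h1 A hA)))
    rw [abs_mul]
    exact mul_le_of_le_one_left (abs_nonneg _) (xgram_mul_le (hφ z) (hu A z))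
  rw [e0]
  refine (abs_sub _ _).trans ?_
  linarith

theorem xgram_small (x : ℝ) {y : ℝ} (hy : 0 < y) :
    ∀ᶠ b : ℕ in atTop, x / (Fintype.card F : ℝ) ^ b ≤ y :=
  ((tendsto_pow_atTop_atTop_of_one_lt (one_lt_two.trans_le two_le_card)).const_div_atTop
    x).eventually (ge_mem_nhds hy)

end Aux

variable {F : Type*} [Field F] [Fintype F] {p : ℕ} [Fact p.Prime] [CharP F p]

omit [Fintype F] in
theorem deriv_mul_ne {R t : F[X]} (hR : R ≠ 0) (h : R.natDegree < (X + t ^ p).natDegree) :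
    derivative (R * (X + t ^ p)) ≠ 0 := by
  intro h0
  have h1 : derivative (X + t ^ p : F[X]) = 1 := by
    rw [derivative_add, derivative_X, derivative_pow, CharP.cast_eq_zero F p]
    simp
  rw [derivative_mul, h1, mul_one] at h0
  exact (natDegree_le_of_dvd ⟨-derivative R, by linear_combination h0⟩ hR).not_gt h

theorem xgram_ne (hp : p ≠ 2) {A A' h t : F[X]} {D b e : ℕ} (hA : A ∈ monF F D)
    (hA' : A' ∈ monF F D) (hne : A ≠ A') (hh : h ≠ 0) (ht : t ∈ monF F b) (he : e ≤ 1)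
    (hb : 3 * D + h.natDegree + 2 ≤ b) :
    derivative ((A * A') ^ (p - 1) * BB p e t * h * (A' - A)) ≠ 0 := by
  obtain ⟨a1, a2⟩ := mem_monF.1 hA
  obtain ⟨b1, b2⟩ := mem_monF.1 hA'
  have h0 := (monic_BB hp 0 (by omega) ht).2
  rw [BB, pow_zero, one_mul, add_zero] at h0
  have hm : ((A * A') ^ (p - 1) * X ^ e).Monic := ((a1.mul b1).pow _).mul (monic_X_pow e)
  have hs : A' - A ≠ 0 := sub_ne_zero.2 hne.symm
  have e1 : (A * A') ^ (p - 1) * BB p e t * h * (A' - A) =
      (A * A') ^ (p - 1) * X ^ e * h * (A' - A) * (X + t ^ p) := by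
    rw [BB]
    ring
  rw [e1]
  refine deriv_mul_ne (mul_ne_zero (mul_ne_zero hm.ne_zero hh) hs) ?_
  have e2 : (A' - A).natDegree ≤ D := (natDegree_sub_le _ _).trans (by rw [a2, b2, max_self])
  rw [h0, natDegree_mul (mul_ne_zero hm.ne_zero hh) hs, natDegree_mul hm.ne_zero hh,
    ((a1.mul b1).pow _).natDegree_mul (monic_X_pow e), natDegree_X_pow,
    (a1.mul b1).natDegree_pow, a1.natDegree_mul b1, a2, b2]
  obtain ⟨r, hr⟩ : ∃ r, p = r + 1 := ⟨p - 1, by have := (Fact.out : p.Prime).pos; omega⟩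
  have e3 : r * (D + D) ≤ r * b := Nat.mul_le_mul_left _ (by omega)
  rw [hr, Nat.add_sub_cancel, add_mul r 1 b]
  omega

theorem gram (hp : p ≠ 2) {ι : Type} [Fintype ι] {δ : ℝ} {lo hi : ℕ → ℕ}
    (hw : PosW F p ι δ lo hi) (S : Finset F[X]) {D : ℕ} (hS : S ⊆ monF F D) {h a : F[X]}
    (hh : h ≠ 0) (ha : a.Monic) {ε : ℝ} (hε : 0 < ε) :
    ∀ᶠ n in atTop, ∀ (φ : F[X] → ℝ) (κ : F[X] → F[X] → ℝ), (∀ z, |φ z| ≤ 1) →
      (∀ A z, |κ A z| ≤ 1) → (∀ A z v, κ A (z + a * v) = κ A z) →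
      |∑ A ∈ S, 𝔼 z ∈ monF F n, φ z * (κ A z * lam (A * z + h))| ≤ √S.card / δ + ε := by
  have hδ := hw.pos
  obtain ⟨s, hs, hs'⟩ : ∃ s : ℝ, 0 < s ∧ (2 * S.card + 1) * s = δ * ε :=
    ⟨δ * ε / (2 * S.card + 1), by positivity, by field_simp⟩
  obtain ⟨b, hb1, hb2⟩ := ((xgram_small (F := F) p (pow_pos hs 2)).and
    (eventually_ge_atTop (3 * D + h.natDegree + 2))).exists
  have hb : 1 ≤ b := by omega
  have main : ∀ e ≤ 1, ∀ᶠ n in atTop, ((n + (p * b + e) : ℕ) : F) ≠ 0 →
      ∀ (φ : F[X] → ℝ) (κ : F[X] → F[X] → ℝ), (∀ z, |φ z| ≤ 1) →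
      (∀ A z, |κ A z| ≤ 1) → (∀ A z v, κ A (z + a * v) = κ A z) →
      |∑ A ∈ S, 𝔼 z ∈ monF F n, φ z * (κ A z * lam (A * z + h))| ≤ √S.card / δ + ε := by
    intro e he
    have V := (eventually_all_finset S).2 fun A hA =>
      variance_two hp hw hb e (mem_monF.1 (hS hA)).1 h
    have P := (eventually_all_finset (monF F b)).2 fun t ht =>
      (eventually_all_finset S).2 fun A hA => (eventually_all_finset S).2 fun A' hA' =>
        eventually_all.2 fun hne : A ≠ A' =>
          pair_avg (ι := ι) hp hw.lo_top hw.hi_le (mem_monF.1 (hS hA)).1 (mem_monF.1 (hS hA')).1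
            (monic_BB hp e hb ht).1 ha
            ((mem_monF.1 (hS hA')).2.trans (mem_monF.1 (hS hA)).2.symm)
            (xgram_ne hp (hS hA) (hS hA') hne hh ht he hb2) (pow_pos hs 2)
    filter_upwards [V, P] with n hV hP hne φ κ hφ hκ hκ'
    choose! G hG hG' using fun A hA => hV A hA hne
    have key := xgram_core n b S φ (fun A z => κ A z * lam (A * z + h))
      (fun A t z => G A t (WA p (BB p e t) A h z)) (δ := δ) hs hφ
      (fun A z => xgram_mul_le (hκ A z) (abs_lam _).le) (fun A hA t z => (hG A hA t _).1)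
      (fun A hA => (hG' A hA).trans hb1) (fun t ht A hA A' hA' hAA => by
        have k := hP t ht A hA A' hA' hAA (G A t) (G A' t) (fun z => κ A z * κ A' z)
          (by rw [(monic_BB hp e hb ht).2]; exact hG A hA t)
          (by
            rw [(monic_BB hp e hb ht).2, (mem_monF.1 (hS hA)).2, ← (mem_monF.1 (hS hA')).2]
            exact hG A' hA' t)
          (fun z => xgram_mul_le (hκ A z) (hκ A' z)) (fun z v => by rw [hκ', hκ'])
        refine le_of_eq_of_le (congrArg _ (expect_congr rfl fun z _ => ?_)) k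
        ring)
    rw [abs_mul, abs_of_pos hδ, hs'] at key
    rw [div_add' _ _ _ hδ.ne', le_div_iff₀ hδ]
    linarith
  filter_upwards [main 0 zero_le_one, main 1 le_rfl] with n h0 h1
  by_cases h : ((n + (p * b + 0) : ℕ) : F) = 0
  · refine h1 ?_
    rw [← add_assoc, Nat.cast_add, Nat.cast_one, show n + p * b = n + (p * b + 0) from rfl, h,
      zero_add]
    exact one_ne_zero
  · exact h0 h

end Pool.Agent.MP_4fffd4_nt.Odd

end

section

/- Entropy of patterns. -/

set_option autoImplicit false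

namespace Pool.Agent.MP_4fffd4_nt.Odd

open Polynomial Finset Filter Topology
open scoped BigOperators

variable {G A α : Type*} [AddCommGroup G] [Fintype G]

/-- the probability of a pattern -/
noncomputable def xent0pr {β : Type*} (pat : G → β) (c : β) : ℝ := 𝔼 y' : G, ind (pat y' = c)

theorem xent0pr_nonneg {β : Type*} (pat : G → β) (c : β) : 0 ≤ xent0pr pat c :=
  expect_nonneg fun _ _ => ind_nonneg _

theorem xent0pr_le {β : Type*} (pat : G → β) (c : β) : xent0pr pat c ≤ 1 :=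
  expect_le univ_nonempty fun _ _ => ind_le_one _

theorem xent0pr_pos {β : Type*} (pat : G → β) (y : G) : 0 < xent0pr pat (pat y) := by
  rw [xent0pr, Fintype.expect_eq_sum_div_card]
  refine div_pos (sum_pos' (fun _ _ => ind_nonneg _) ⟨y, mem_univ _, ?_⟩) ?_
  · rw [ind_pos rfl]; exact one_pos
  · exact_mod_cast Fintype.card_pos

theorem xent0_fiber {β : Type*} [DecidableEq β] (pat : G → β) (φ : β → ℝ) :
    𝔼 y : G, φ (pat y) = ∑ c ∈ univ.image pat, xent0pr pat c * φ c := by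
  have h : ∀ y : G, φ (pat y) = ∑ c ∈ univ.image pat, ind (pat y = c) * φ c := fun y => by
    rw [sum_eq_single_of_mem (pat y) (mem_image_of_mem _ (mem_univ y)), ind_pos rfl, one_mul]
    intro c _ hc
    rw [ind_neg (Ne.symm hc), zero_mul]
  simp_rw [h]
  rw [expect_sum_comm]
  exact sum_congr rfl fun c _ => by rw [xent0pr, expect_mul]

theorem xent0_gibbs {β : Type*} [DecidableEq β] (pat : G → β) (f : β → ℝ)
    (hf : ∀ y, 0 < f (pat y)) (hs : ∑ c ∈ univ.image pat, f c ≤ 1) :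
    𝔼 y : G, -Real.log (xent0pr pat (pat y)) ≤ 𝔼 y : G, -Real.log (f (pat y)) := by
  have h1 : 𝔼 y : G, f (pat y) / xent0pr pat (pat y) = ∑ c ∈ univ.image pat, f c := by
    rw [xent0_fiber pat fun c => f c / xent0pr pat c]
    refine sum_congr rfl fun c hc => ?_
    obtain ⟨y, -, rfl⟩ := mem_image.1 hc
    exact mul_div_cancel₀ _ (xent0pr_pos pat y).ne'
  have h2 : 𝔼 y : G, -Real.log (xent0pr pat (pat y)) ≤
      𝔼 y : G, (-Real.log (f (pat y)) + (f (pat y) / xent0pr pat (pat y) - 1)) := by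
    refine expect_le_expect fun y _ => ?_
    have := Real.log_le_sub_one_of_pos (div_pos (hf y) (xent0pr_pos pat y))
    rw [Real.log_div (hf y).ne' (xent0pr_pos pat y).ne'] at this
    linarith
  rw [expect_add_distrib, expect_sub_distrib, h1, expect_const univ_nonempty] at h2
  linarith

theorem xent0_eq (ℓ : G → α) (i : A → G) : entI ℓ i =
    𝔼 y : G, -Real.log (xent0pr (fun y v => ℓ (y + i v)) fun v => ℓ (y + i v)) := by
  refine expect_congr rfl fun y _ => ?_
  rw [xent0pr]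
  congr 2
  exact expect_congr rfl fun y' _ => ind_congr funext_iff.symm

theorem xent0_shift (φ : G → ℝ) (g : G) : 𝔼 y : G, φ (y + g) = 𝔼 y : G, φ y :=
  Fintype.expect_equiv (Equiv.addRight g) _ _ fun _ => rfl

theorem xent0_unif {R : Type*} [AddCommGroup R] [Fintype R] (r : G →+ R)
    (hr : Function.Surjective r) (φ : R → ℝ) : 𝔼 y : G, φ (r y) = 𝔼 ρ : R, φ ρ := by
  have h1 : ∀ ρ : R, 𝔼 y : G, φ (r y) = 𝔼 y : G, φ (ρ + r y) := fun ρ => by
    obtain ⟨g, rfl⟩ := hr ρ
    rw [← xent0_shift (fun y => φ (r y)) g]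
    exact expect_congr rfl fun y _ => by rw [map_add, add_comm]
  calc 𝔼 y : G, φ (r y) = 𝔼 _ρ : R, 𝔼 y : G, φ (r y) := (expect_const univ_nonempty _).symm
    _ = 𝔼 ρ : R, 𝔼 y : G, φ (ρ + r y) := expect_congr rfl fun ρ _ => h1 ρ
    _ = 𝔼 y : G, 𝔼 ρ : R, φ (ρ + r y) := expect_comm _ _ _
    _ = 𝔼 _y : G, 𝔼 ρ : R, φ ρ := expect_congr rfl fun y _ => xent0_shift φ _
    _ = _ := expect_const univ_nonempty _

theorem entI_nonneg (ℓ : G → α) (i : A → G) : 0 ≤ entI ℓ i := by
  rw [xent0_eq]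
  exact expect_nonneg fun y _ =>
    neg_nonneg.2 (Real.log_nonpos (xent0pr_nonneg _ _) (xent0pr_le _ _))

theorem entI_le [Fintype A] [Fintype α] (ℓ : G → α) (i : A → G) :
    entI ℓ i ≤ Fintype.card A * Real.log (Fintype.card α) := by
  classical
  have : Nonempty α := ⟨ℓ 0⟩
  have hc : (0 : ℝ) < (Fintype.card α : ℝ) ^ Fintype.card A := by
    have : (0 : ℝ) < Fintype.card α := by exact_mod_cast Fintype.card_pos
    positivity
  rw [xent0_eq]
  refine (xent0_gibbs (fun y v => ℓ (y + i v))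
    (fun _ => ((Fintype.card α : ℝ) ^ Fintype.card A)⁻¹) (fun _ => inv_pos.2 hc) ?_).trans_eq ?_
  · rw [sum_const, nsmul_eq_mul, mul_inv_le_iff₀ hc, one_mul]
    have := card_le_univ (univ.image fun (y : G) (v : A) => ℓ (y + i v))
    rw [Fintype.card_fun] at this
    exact_mod_cast this
  · rw [expect_const univ_nonempty, Real.log_inv, neg_neg, Real.log_pow]

theorem entI_equiv {A' : Type*} (e : A' ≃ A) (ℓ : G → α) (i : A → G) :
    entI ℓ (fun v => i (e v)) = entI ℓ i := by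
  refine expect_congr rfl fun y _ => ?_
  congr 2
  exact expect_congr rfl fun y' _ =>
    ind_congr (e.forall_congr_right (q := fun v => ℓ (y' + i v) = ℓ (y + i v)))

/-- the entropy decrement -/
theorem entI_step {U R : Type*} [Fintype U] [AddCommGroup R] [Fintype R] (ℓ : G → α) (i : A → G)
    (s : U → G) (r : G →+ R) (hr : Function.Surjective r) (σ : G → R → ℝ)
    (hσ : ∀ y y', (∀ v, ℓ (y + i v) = ℓ (y' + i v)) → σ y = σ y') {Λ : ℝ}
    (hΛ : ∀ y, 𝔼 ρ, Real.exp (σ y ρ) ≤ Real.exp Λ) :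
    entI ℓ (fun z : A × U => i z.1 + s z.2) ≤ Real.log (Fintype.card R) +
      Fintype.card U * (entI ℓ i - (𝔼 y, σ y (r y)) + Λ) := by
  classical
  set pat : G → A → α := fun y v => ℓ (y + i v) with hpat
  set P : G → U → A → α := fun y u => pat (y + s u) with hP
  obtain ⟨sg, hsg⟩ : ∃ sg : (A → α) → R → ℝ, ∀ y, sg (pat y) = σ y := by
    refine ⟨fun c => if h : ∃ y, pat y = c then σ h.choose else 0, fun y => ?_⟩
    have h : ∃ y', pat y' = pat y := ⟨y, rfl⟩
    simp only [dif_pos h]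
    exact hσ _ _ fun v => congrFun h.choose_spec v
  set Z : R → ℝ := fun ρ => 𝔼 y, Real.exp (σ y ρ) with hZ
  have hZ0 : ∀ ρ, 0 < Z ρ := fun ρ => expect_pos (fun _ _ => Real.exp_pos _) univ_nonempty
  set π : R → (A → α) → ℝ := fun ρ c => xent0pr pat c * Real.exp (sg c ρ) / Z ρ with hπ
  have hπ0 : ∀ ρ c, 0 ≤ π ρ c := fun ρ c =>
    div_nonneg (mul_nonneg (xent0pr_nonneg _ _) (Real.exp_pos _).le) (hZ0 ρ).le
  have hπp : ∀ ρ y, 0 < π ρ (pat y) := fun ρ y =>
    div_pos (mul_pos (xent0pr_pos _ _) (Real.exp_pos _)) (hZ0 ρ)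
  have hπ1 : ∀ ρ, ∑ c ∈ univ.image pat, π ρ c = 1 := fun ρ => by
    simp only [hπ]
    rw [← sum_div, ← xent0_fiber pat fun c => Real.exp (sg c ρ), div_eq_one_iff_eq (hZ0 ρ).ne']
    exact expect_congr rfl fun y _ => by rw [hsg]
  have hR : (0 : ℝ) < Fintype.card R := by exact_mod_cast Fintype.card_pos
  set f : (U → A → α) → ℝ := fun c => (∑ ρ, ∏ u, π (ρ + r (s u)) (c u)) / Fintype.card R with hf
  have hf0 : ∀ c, 0 ≤ f c := fun c =>
    div_nonneg (sum_nonneg fun _ _ => prod_nonneg fun _ _ => hπ0 _ _) hR.le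
  have hlow : ∀ y, (∏ u, π (r (y + s u)) (pat (y + s u))) / Fintype.card R ≤ f (P y) := fun y => by
    refine div_le_div_of_nonneg_right ?_ hR.le
    have := single_le_sum (f := fun ρ => ∏ u, π (ρ + r (s u)) (P y u))
      (fun _ _ => prod_nonneg fun _ _ => hπ0 _ _) (mem_univ (r y))
    simpa only [map_add] using this
  have hpos : ∀ y, 0 < (∏ u, π (r (y + s u)) (pat (y + s u))) / Fintype.card R := fun y =>
    div_pos (prod_pos fun _ _ => hπp _ _) hR
  have hsum : ∑ c ∈ univ.image P, f c ≤ 1 := by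
    refine (sum_le_sum_of_subset_of_nonneg (t := Fintype.piFinset fun _ => univ.image pat) ?_
      fun c _ _ => hf0 c).trans_eq ?_
    · intro c hc
      obtain ⟨y, -, rfl⟩ := mem_image.1 hc
      exact Fintype.mem_piFinset.2 fun u => mem_image_of_mem _ (mem_univ _)
    · simp only [hf]
      rw [← sum_div, sum_comm, div_eq_one_iff_eq hR.ne']
      simp only [← prod_univ_sum, hπ1, prod_const_one, sum_const, card_univ, nsmul_eq_mul, mul_one]
  have e1 : entI ℓ (fun z : A × U => i z.1 + s z.2) =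
      𝔼 y : G, -Real.log (xent0pr P (P y)) := by
    refine expect_congr rfl fun y _ => ?_
    rw [xent0pr]
    congr 2
    refine expect_congr rfl fun y' _ => ind_congr ⟨fun h => ?_, fun h z => ?_⟩
    · funext u v
      have := h (v, u)
      simp only [hP, hpat]
      rwa [add_assoc, add_assoc, add_comm (s u)]
    · have := congrFun (congrFun h z.2) z.1
      simp only [hP, hpat] at this
      rwa [add_assoc, add_assoc, add_comm (s z.2)] at this
  set h : G → ℝ := fun y => -Real.log (xent0pr pat (pat y)) - σ y (r y) + Real.log (Z (r y))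
    with hh
  have e2 : ∀ y, -Real.log (f (P y)) ≤ Real.log (Fintype.card R) + ∑ u, h (y + s u) := fun y => by
    have h1 := Real.log_le_log (hpos y) (hlow y)
    rw [Real.log_div (prod_pos fun _ _ => hπp _ _).ne' hR.ne',
      Real.log_prod fun _ _ => (hπp _ _).ne'] at h1
    have h2 : ∑ u, h (y + s u) = -∑ u, Real.log (π (r (y + s u)) (pat (y + s u))) := by
      rw [← sum_neg_distrib]
      refine sum_congr rfl fun u _ => ?_
      simp only [hh, hπ]
      rw [Real.log_div (mul_pos (xent0pr_pos _ _) (Real.exp_pos _)).ne' (hZ0 _).ne',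
        Real.log_mul (xent0pr_pos _ _).ne' (Real.exp_pos _).ne', Real.log_exp, hsg]
      ring
    linarith
  have e3 : 𝔼 y : G, Real.log (Z (r y)) ≤ Λ := by
    have h1 : 𝔼 y : G, Z (r y) ≤ Real.exp Λ := by
      rw [xent0_unif r hr Z]
      simp only [hZ]
      rw [expect_comm]
      exact expect_le univ_nonempty fun y _ => hΛ y
    have h2 : 𝔼 y : G, Real.log (Z (r y)) ≤ 𝔼 y : G, (Z (r y) / Real.exp Λ + (Λ - 1)) := by
      refine expect_le_expect fun y _ => ?_
      have := Real.log_le_sub_one_of_pos (div_pos (hZ0 (r y)) (Real.exp_pos Λ))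
      rw [Real.log_div (hZ0 _).ne' (Real.exp_pos _).ne', Real.log_exp] at this
      linarith
    rw [expect_add_distrib, expect_const univ_nonempty, ← expect_div] at h2
    have h3 := (div_le_one (Real.exp_pos Λ)).2 h1
    linarith
  have e4 : 𝔼 y : G, h y ≤ entI ℓ i - (𝔼 y, σ y (r y)) + Λ := by
    simp only [hh]
    rw [expect_add_distrib, expect_sub_distrib, xent0_eq]
    linarith
  rw [e1]
  refine (xent0_gibbs P f (fun y => (hpos y).trans_le (hlow y)) hsum).trans ?_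
  refine (expect_le_expect fun y _ => e2 y).trans ?_
  rw [expect_add_distrib, expect_const univ_nonempty, expect_sum_comm]
  simp only [xent0_shift h, sum_const, card_univ, nsmul_eq_mul]
  gcongr

end Pool.Agent.MP_4fffd4_nt.Odd

end

section

/- Entropy of patterns of polynomials. -/

set_option autoImplicit false

namespace Pool.Agent.MP_4fffd4_nt.Odd

open Polynomial Finset Filter Topology
open scoped BigOperators

variable {F : Type*} [Field F] [Fintype F]

theorem xent1_eq {α A : Type*} (ℓ : F[X] → α) {m H : ℕ} (i : A → degreeLT F m)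
    (h1 : ∀ a, (i a).1.degree < H) (h2 : ∀ v : F[X], v.degree < H → ∃ a, (i a).1 = v) :
    entP ℓ m H = entI (fun y : degreeLT F m => ℓ (X ^ m + y.1)) i := by
  unfold entP entI
  rw [expect_monF]
  refine Finset.expect_congr rfl fun y _ => ?_
  rw [expect_monF]
  congr 2
  refine Finset.expect_congr rfl fun y' _ => ind_congr ?_
  simp only [Submodule.coe_add, ← add_assoc]
  refine ⟨fun h a => h _ (h1 a), fun h v hv => ?_⟩
  obtain ⟨a, rfl⟩ := h2 v hv
  exact h a

omit [Fintype F] in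
theorem xent1_inc {m H : ℕ} (h : H ≤ m) :
    ∃ i : degreeLT F H → degreeLT F m, ∀ v, (i v).1 = v.1 :=
  ⟨fun v => ⟨v.1, mem_degreeLT.2 ((mem_degreeLT.1 v.2).trans_le (by exact_mod_cast h))⟩,
    fun _ => Subtype.coe_mk _ _⟩

theorem xent1_eq_inc {α : Type*} (ℓ : F[X] → α) {m H : ℕ} {i : degreeLT F H → degreeLT F m}
    (hi : ∀ v, (i v).1 = v.1) :
    entP ℓ m H = entI (fun y : degreeLT F m => ℓ (X ^ m + y.1)) i :=
  xent1_eq ℓ _ (fun a => by rw [hi]; exact mem_degreeLT.1 a.2)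
    fun v hv => ⟨⟨v, mem_degreeLT.2 hv⟩, by rw [hi]⟩

omit [Fintype F] in
theorem xent1_deg {H₁ H₂ : ℕ} (h12 : H₁ ≤ H₂) {u : F[X]} (hu : u.degree < (H₂ - H₁ : ℕ)) :
    (X ^ H₁ * u : F[X]).degree < (H₂ : ℕ) := by
  by_cases h0 : u = 0
  · rw [h0, mul_zero, degree_zero]
    exact WithBot.bot_lt_coe _
  have h1 := (natDegree_lt_iff_degree_lt h0).2 hu
  refine (natDegree_lt_iff_degree_lt (mul_ne_zero (pow_ne_zero _ X_ne_zero) h0)).1 ?_
  rw [(monic_X_pow H₁).natDegree_mul' h0, natDegree_X_pow]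
  omega

omit [Fintype F] in
theorem xent1_div {H₁ H₂ : ℕ} {v : F[X]} (hv : v.degree < H₂) :
    (v /ₘ X ^ H₁).degree < (H₂ - H₁ : ℕ) := by
  by_cases h0 : v /ₘ X ^ H₁ = 0
  · rw [h0, degree_zero]
    exact WithBot.bot_lt_coe _
  have hv0 : v ≠ 0 := by
    rintro rfl
    exact h0 (zero_divByMonic _)
  have h1 := (natDegree_lt_iff_degree_lt hv0).2 hv
  have h2 : ¬ v.degree < (X ^ H₁ : F[X]).degree := fun h =>
    h0 ((divByMonic_eq_zero_iff (monic_X_pow H₁)).2 h)
  rw [degree_X_pow, ← natDegree_lt_iff_degree_lt hv0] at h2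
  refine (natDegree_lt_iff_degree_lt h0).1 ?_
  rw [natDegree_divByMonic _ (monic_X_pow H₁), natDegree_X_pow]
  omega

theorem entP_step {α R : Type*} [AddCommGroup R] [Fintype R] (ℓ : F[X] → α) {m H₁ H₂ : ℕ}
    (h12 : H₁ ≤ H₂) (h2 : H₂ ≤ m) (r : F[X] →+ R)
    (hr : ∀ ρ, ∃ g : F[X], g.degree < m ∧ r g = ρ) (σ : F[X] → R → ℝ)
    (hσ : ∀ y y', (∀ v : F[X], v.degree < H₁ → ℓ (y + v) = ℓ (y' + v)) → σ y = σ y') {Λ : ℝ}
    (hΛ : ∀ y, 𝔼 ρ, Real.exp (σ y ρ) ≤ Real.exp Λ) :
    entP ℓ m H₂ ≤ Real.log (Fintype.card R) + (Fintype.card F : ℝ) ^ (H₂ - H₁) *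
      (entP ℓ m H₁ - (𝔼 y ∈ monF F m, σ y (r y)) + Λ) := by
  have hm : (H₂ : WithBot ℕ) ≤ m := by exact_mod_cast h2
  have hm' : (H₁ : WithBot ℕ) ≤ H₂ := by exact_mod_cast h12
  obtain ⟨s, hs⟩ : ∃ s : degreeLT F (H₂ - H₁) → degreeLT F m, ∀ u, (s u).1 = X ^ H₁ * u.1 :=
    ⟨fun u => ⟨X ^ H₁ * u.1, mem_degreeLT.2 ((xent1_deg h12 (mem_degreeLT.1 u.2)).trans_le hm)⟩,
      fun _ => Subtype.coe_mk _ _⟩
  obtain ⟨i, hi⟩ := xent1_inc (F := F) (h12.trans h2)
  obtain ⟨r', hr'⟩ : ∃ r' : degreeLT F m →+ R, ∀ y, r' y = r y.1 :=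
    ⟨r.comp (degreeLT F m).subtype.toAddMonoidHom, fun _ => rfl⟩
  have key := entI_step (fun y : degreeLT F m => ℓ (X ^ m + y.1)) i s r'
    (fun ρ => by
      obtain ⟨g, h1, h3⟩ := hr ρ
      exact ⟨⟨g, mem_degreeLT.2 h1⟩, by rw [hr', h3]⟩)
    (fun y ρ => σ (X ^ m + y.1) (r (X ^ m) + ρ))
    (fun y y' h => by
      rw [hσ (X ^ m + y.1) (X ^ m + y'.1) fun v hv => ?_]
      have := h ⟨v, mem_degreeLT.2 hv⟩
      simp only [Submodule.coe_add, ← add_assoc, hi] at this
      exact this) (Λ := Λ)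
    (fun y => by
      refine le_of_eq_of_le ?_ (hΛ (X ^ m + y.1))
      exact Fintype.expect_equiv (Equiv.addLeft (r (X ^ m))) _ _ fun ρ => rfl)
  rw [← xent1_eq_inc ℓ hi, card_degreeLT, Nat.cast_pow, ← xent1_eq ℓ (H := H₂)] at key
  · rw [expect_monF]
    simp only [map_add]
    simp only [hr'] at key
    exact key
  · rintro ⟨a, u⟩
    rw [Submodule.coe_add, hi, hs]
    exact (degree_add_le _ _).trans_lt (max_lt ((mem_degreeLT.1 a.2).trans_le hm')
      (xent1_deg h12 (mem_degreeLT.1 u.2)))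
  · intro v hv
    have h3 := degree_modByMonic_lt v (monic_X_pow (R := F) H₁)
    rw [degree_X_pow] at h3
    refine ⟨(⟨v %ₘ X ^ H₁, mem_degreeLT.2 h3⟩, ⟨v /ₘ X ^ H₁, mem_degreeLT.2 (xent1_div hv)⟩), ?_⟩
    rw [Submodule.coe_add, hi, hs]
    exact modByMonic_add_div v _

theorem entP_mem {α : Type*} [Fintype α] (ℓ : F[X] → α) {m H : ℕ} (h : H ≤ m) :
    0 ≤ entP ℓ m H / (Fintype.card F : ℝ) ^ H ∧
      entP ℓ m H / (Fintype.card F : ℝ) ^ H ≤ Real.log (Fintype.card α) := by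
  have hq : (0 : ℝ) < (Fintype.card F : ℝ) ^ H := pow_pos card_pos' H
  obtain ⟨i, hi⟩ := xent1_inc (F := F) h
  rw [xent1_eq_inc ℓ hi]
  refine ⟨div_nonneg (entI_nonneg _ _) hq.le, ?_⟩
  have := entI_le (fun y : degreeLT F m => ℓ (X ^ m + y.1)) i
  rw [card_degreeLT, Nat.cast_pow] at this
  rwa [div_le_iff₀' hq]

theorem entP_anti {α : Type*} (ℓ : F[X] → α) {m H H' : ℕ} (h : H ≤ H') (h' : H' ≤ m) :
    entP ℓ m H' / (Fintype.card F : ℝ) ^ H' ≤ entP ℓ m H / (Fintype.card F : ℝ) ^ H := by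
  have hq : (0 : ℝ) < (Fintype.card F : ℝ) := card_pos'
  have key := entP_step (R := Unit) ℓ h h' 0
    (fun ρ => ⟨0, by rw [degree_zero]; exact WithBot.bot_lt_coe _, rfl⟩) (fun _ _ => 0)
    (fun _ _ _ => rfl) (Λ := 0) (fun _ => by simp)
  simp only [Fintype.card_punit, Nat.cast_one, Real.log_one, zero_add, expect_const_zero,
    sub_zero, add_zero] at key
  rw [div_le_iff₀ (pow_pos hq _)]
  refine key.trans_eq ?_
  rw [pow_sub₀ _ hq.ne' h]
  field_simp

end Pool.Agent.MP_4fffd4_nt.Odd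

end

section

/- The entropy decrement for divisibility by primes. -/

set_option autoImplicit false

namespace Pool.Agent.MP_4fffd4_nt.Odd

open Polynomial Finset Filter Topology
open scoped BigOperators

variable {F : Type*} [Field F] [Fintype F]

theorem xent2_pi {ι A : Type*} [Fintype ι] [DecidableEq ι] [Fintype A] (f : ι → A → ℝ) :
    𝔼 ρ : ι → A, ∏ i, f i (ρ i) = ∏ i, 𝔼 a, f i a := by
  simp only [Fintype.expect_eq_sum_div_card]
  rw [prod_div_distrib, prod_univ_sum, Fintype.piFinset_univ, prod_const, card_univ,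
    Fintype.card_fun, Nat.cast_pow]

theorem xent2_exp {A : Type*} [Fintype A] [Nonempty A] (Z : A → ℝ) (hZ : ∀ a, |Z a| ≤ 2)
    (h0 : 𝔼 a, Z a = 0) {θ : ℝ} (hθ : |θ| ≤ 1 / 2) :
    𝔼 a, Real.exp (θ * Z a) ≤ Real.exp (4 * θ ^ 2) := by
  calc _ ≤ 𝔼 a, (θ * Z a + (4 * θ ^ 2 + 1)) := by
        refine expect_le_expect fun a _ => ?_
        have h1 : |θ * Z a| ≤ 1 := by
          rw [abs_mul]
          nlinarith [hZ a, abs_nonneg θ, abs_nonneg (Z a)]
        have h2 := (abs_le.1 (Real.abs_exp_sub_one_sub_id_le h1)).2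
        have h3 : Z a ^ 2 ≤ 4 := by
          rw [← sq_abs]
          nlinarith [hZ a, abs_nonneg (Z a)]
        nlinarith [sq_nonneg θ]
    _ = 4 * θ ^ 2 + 1 := by
        rw [expect_add_distrib, ← mul_expect, h0, mul_zero, zero_add, Fintype.expect_const]
    _ ≤ _ := Real.add_one_le_exp _

theorem xent2_div {P : F[X]} (hP : P.Monic) {D m : ℕ} (hD : P.natDegree = D) (h : D ≤ m)
    (G : F[X] → ℝ) : 𝔼 y ∈ monF F m, G (y /ₘ P) = 𝔼 x ∈ monF F (m - D), G x := by
  have hd : P.degree = D := by rw [degree_eq_natDegree hP.ne_zero, hD]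
  have hq := card_pos' (F := F)
  have e : ∑ y ∈ monF F m, G (y /ₘ P) = ∑ z ∈ monF F (m - D) ×ˢ ltF F D, G z.1 := by
    refine sum_nbij' (fun y => (y /ₘ P, y %ₘ P)) (fun z => z.2 + P * z.1) ?_ ?_ ?_ ?_ fun _ _ => rfl
    · intro y hy
      obtain ⟨h1, h2⟩ := mem_monF.1 hy
      refine mem_product.2 ⟨mem_monF.2 ⟨?_, ?_⟩, mem_ltF.2 (hd ▸ degree_modByMonic_lt y hP)⟩
      · refine (leadingCoeff_divByMonic_of_monic hP ?_).trans h1
        rw [hd, degree_eq_natDegree h1.ne_zero, h2]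
        exact_mod_cast h
      · rw [natDegree_divByMonic _ hP, h2, hD]
    · rintro ⟨x, w⟩ hz
      obtain ⟨h1, h2⟩ := mem_product.1 hz
      obtain ⟨h3, h4⟩ := mem_monF.1 h1
      have h5 : (P * x).natDegree = m := by
        rw [hP.natDegree_mul h3, hD, h4]
        omega
      have h6 : w.degree < (P * x).degree := by
        rw [degree_eq_natDegree (hP.mul h3).ne_zero, h5]
        exact (mem_ltF.1 h2).trans_le (by exact_mod_cast h)
      exact mem_monF.2 ⟨(hP.mul h3).add_of_right h6,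
        (natDegree_add_eq_right_of_degree_lt h6).trans h5⟩
    · intro y _
      exact modByMonic_add_div y P
    · rintro ⟨x, w⟩ hz
      have := div_modByMonic_unique x w hP ⟨rfl, hd ▸ mem_ltF.1 (mem_product.1 hz).2⟩
      exact Prod.ext this.1 this.2
  rw [expect_monF_eq, expect_monF_eq, e, sum_product]
  simp only [sum_const, card_ltF, nsmul_eq_mul]
  rw [← mul_sum, pow_sub₀ _ hq.ne' h]
  push_cast
  field_simp

/-- The residues modulo the primes of degree `D`. -/
noncomputable def xent2_r (D : ℕ) : F[X] →+ (prm F D → degreeLT F D) where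
  toFun y P := ⟨y %ₘ P.1, mem_degreeLT.2 (by
    obtain ⟨h1, -, h2⟩ := mem_prm.1 P.2
    exact (degree_modByMonic_lt y h1).trans_eq (by rw [degree_eq_natDegree h1.ne_zero, h2]))⟩
  map_zero' := funext fun P => Subtype.ext (zero_modByMonic _)
  map_add' a b := funext fun P => Subtype.ext (add_modByMonic a b)

open Classical in
theorem xent2_card (D : ℕ) :
    Fintype.card (prm F D → degreeLT F D) = Fintype.card F ^ (D * (prm F D).card) := by
  rw [Fintype.card_fun, card_degreeLT, Fintype.card_coe, pow_mul]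

theorem xent2_surj (D : ℕ) (ρ : prm F D → degreeLT F D) :
    ∃ g : F[X], g.degree < (D * (prm F D).card : ℕ) ∧ xent2_r D g = ρ := by
  classical
  let f : degreeLT F (D * (prm F D).card) →+ (prm F D → degreeLT F D) :=
    (xent2_r D).comp (degreeLT F _).subtype.toAddMonoidHom
  have hf : Function.Injective f := (injective_iff_map_eq_zero f).2 fun y hy => by
    have h1 : ∏ P ∈ prm F D, P ∣ y.1 := by
      refine prod_dvd_of_coprime (fun P hP Q hQ hPQ => ?_) fun P hP => ?_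
      · obtain ⟨a1, a2, a3⟩ := mem_prm.1 hP
        obtain ⟨b1, -, b3⟩ := mem_prm.1 hQ
        exact a2.coprime_iff_not_dvd.2 fun h =>
          hPQ (eq_of_monic_of_dvd_of_natDegree_le a1 b1 h (by omega)).symm
      · exact (modByMonic_eq_zero_iff_dvd (mem_prm.1 hP).1).1
          (congrArg Subtype.val (congrFun hy ⟨P, hP⟩))
    refine Subtype.ext (eq_zero_of_dvd_of_degree_lt h1 ((mem_degreeLT.1 y.2).trans_eq ?_))
    have hm : ∀ P ∈ prm F D, P.Monic := fun P hP => (mem_prm.1 hP).1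
    rw [degree_eq_natDegree (monic_prod_of_monic _ _ hm).ne_zero, natDegree_prod_of_monic _ _ hm,
      sum_congr rfl fun P hP => (mem_prm.1 hP).2.2, sum_const, smul_eq_mul, mul_comm]
  obtain ⟨y, hy⟩ := ((Fintype.bijective_iff_injective_and_card f).2
    ⟨hf, by rw [card_degreeLT, xent2_card]⟩).2 ρ
  exact ⟨y.1, mem_degreeLT.1 y.2, hy⟩

theorem ent_step {α : Type*} (ℓ : F[X] → α) {m D H₁ H₂ : ℕ} (hD : D ≤ H₁) (h12 : H₁ ≤ H₂)
    (h2 : H₂ ≤ m) (hm : D * (prm F D).card ≤ m) (Φ : F[X] → F[X] → ℝ) (hb : ∀ P y, |Φ P y| ≤ 1)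
    (hloc : ∀ P ∈ prm F D, ∀ y y', (∀ w : F[X], w.degree < H₁ → ℓ (y + w) = ℓ (y' + w)) →
      ∀ v : F[X], v.degree < D → Φ P (y + v) = Φ P (y' + v)) {θ : ℝ} (hθ : |θ| ≤ 1 / 2) :
    entP ℓ m H₂ / (Fintype.card F : ℝ) ^ H₂ ≤ entP ℓ m H₁ / (Fintype.card F : ℝ) ^ H₁ -
      (θ * ∑ P ∈ prm F D, ((𝔼 x ∈ monF F (m - D), Φ P (P * x)) - 𝔼 y ∈ monF F m, Φ P y) -
        4 * θ ^ 2 * (prm F D).card) / (Fintype.card F : ℝ) ^ H₁ +
      D * (prm F D).card * Real.log (Fintype.card F) / (Fintype.card F : ℝ) ^ H₂ := by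
  classical
  have hq := card_pos' (F := F)
  have hDm : D ≤ m := by omega
  have key := entP_step ℓ h12 h2 (xent2_r D) (fun ρ => by
      obtain ⟨g, h1, h2⟩ := xent2_surj D ρ
      exact ⟨g, h1.trans_le (by exact_mod_cast hm), h2⟩)
    (fun y ρ => ∑ P : prm F D, θ * (Φ P (y + (-ρ P).1) - 𝔼 v : degreeLT F D, Φ P (y + v.1)))
    (fun y y' h => funext fun ρ => sum_congr rfl fun P _ => by
      simp only [fun v : degreeLT F D => hloc P P.2 y y' h v.1 (mem_degreeLT.1 v.2)])
    (Λ := 4 * θ ^ 2 * (prm F D).card) fun y => by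
      simp only [Real.exp_sum]
      rw [xent2_pi fun (P : prm F D) (w : degreeLT F D) => Real.exp
        (θ * (Φ P (y + (-w).1) - 𝔼 v : degreeLT F D, Φ P (y + v.1)))]
      refine (prod_le_prod (fun P _ => expect_nonneg fun _ _ => (Real.exp_pos _).le)
        fun P _ => xent2_exp _ (fun w => ?_) ?_ hθ).trans_eq ?_
      · have h1 := abs_le.1 (hb P (y + (-w).1))
        have h2 : 𝔼 v : degreeLT F D, Φ P (y + v.1) ≤ 1 :=
          expect_le univ_nonempty fun v _ => (abs_le.1 (hb _ _)).2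
        have h3 : -1 ≤ 𝔼 v : degreeLT F D, Φ P (y + v.1) :=
          le_expect univ_nonempty fun v _ => (abs_le.1 (hb _ _)).1
        rw [abs_le]
        constructor <;> linarith
      · rw [expect_sub_distrib, Fintype.expect_const, sub_eq_zero]
        exact Fintype.expect_equiv (Equiv.neg _) _ _ fun _ => rfl
      · rw [prod_const, card_univ, Fintype.card_coe, ← Real.exp_nat_mul, mul_comm]
  have e : 𝔼 y ∈ monF F m, ∑ P : prm F D, θ * (Φ P (y + (-xent2_r D y P).1) -
      𝔼 v : degreeLT F D, Φ P (y + v.1)) =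
      θ * ∑ P ∈ prm F D, ((𝔼 x ∈ monF F (m - D), Φ P (P * x)) - 𝔼 y ∈ monF F m, Φ P y) := by
    rw [expect_sum_comm, ← sum_coe_sort (prm F D), mul_sum]
    refine sum_congr rfl fun P _ => ?_
    obtain ⟨h1, -, h3⟩ := mem_prm.1 P.2
    rw [← mul_expect, expect_sub_distrib, expect_comm, ← xent2_div h1 h3 hDm fun x => Φ P (P * x)]
    congr 2
    · refine expect_congr rfl fun y _ => congrArg _ ?_
      have := modByMonic_add_div y P.1
      show y + -(y %ₘ P.1) = _
      linear_combination -this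
    · rw [expect_congr rfl fun (v : degreeLT F D) _ => expect_monF_add
        ((mem_degreeLT.1 v.2).trans_le (by exact_mod_cast hDm)) (Φ P), Fintype.expect_const]
  rw [e, xent2_card, Nat.cast_pow, Real.log_pow, pow_sub₀ _ hq.ne' h12] at key
  refine (div_le_div_of_nonneg_right key (by positivity)).trans_eq ?_
  push_cast
  field_simp
  ring

end Pool.Agent.MP_4fffd4_nt.Odd

end

section

/- Correlations in odd characteristic. -/

set_option autoImplicit false

namespace Pool.Agent.MP_4fffd4_nt.Odd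

open Polynomial Finset Filter Topology
open scoped BigOperators

variable {F : Type*} [Field F] [Fintype F] {p : ℕ} [Fact p.Prime] [CharP F p]

omit [Fintype F] in
theorem xcorr_lam_irr {P : F[X]} (hP : Irreducible P) : lam P = -1 := by
  simp [lam, liou, UniqueFactorizationMonoid.card_factors_of_irreducible hP]

omit [Fintype F] in
theorem xcorr_abs {I : Type*} [Fintype I] (Q : Prop) (f : I → F[X]) :
    |ind Q * ∏ i, lam (f i)| ≤ 1 := by
  rw [abs_mul, Finset.abs_prod, Finset.prod_congr rfl fun i _ => abs_lam (f i), prod_const_one,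
    mul_one]
  exact abs_ind_le Q

omit [Fintype F] in
theorem xcorr_deg {I : Type*} [Fintype I] (h : I → F[X]) :
    ∃ h₀ : ℕ, ∀ i, (h i).natDegree < h₀ :=
  ⟨univ.sup (fun i => (h i).natDegree) + 1, fun i =>
    Nat.lt_succ_of_le (le_sup (f := fun i => (h i).natDegree) (mem_univ i))⟩

omit [Fintype F] in
theorem xcorr_deg_mul {P g : F[X]} {D k m : ℕ} (hP : P.natDegree = D) (hg : g.natDegree < k)
    (hm : D + k ≤ m) : (P * g).degree < m := by
  refine degree_le_natDegree.trans_lt ?_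
  have := natDegree_mul_le (p := P) (q := g)
  exact_mod_cast (by omega : (P * g).natDegree < m)

theorem xcorr_sum_prm (D : ℕ) (φ : F[X] → ℝ) :
    ∑ P ∈ prm F D, φ P = ∑ d ∈ monF F D, ind (Irreducible d) * φ d := by
  classical
  rw [prm, sum_filter]
  refine sum_congr rfl fun d _ => ?_
  split_ifs with hd
  · rw [ind_pos hd, one_mul]
  · rw [ind_neg hd, zero_mul]

/-- the correlations averaged over prime dilations of the shifts -/
theorem prime_avg (hp : p ≠ 2) {ι : Type} [Fintype ι] {g : ℕ → F[X] → ℝ} {ρ : ℕ → ℝ} {ρ₀ : ℝ}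
    {lo hi : ℕ → ℕ} (hw : Weight p ι g ρ ρ₀ lo hi) {I : Type*} [Fintype I] (i₀ : I) {a : F[X]}
    (ha : a ≠ 0) {h : I → F[X]} (hh : Function.Injective h) {ε : ℝ} (hε : 0 < ε) :
    ∀ᶠ D in atTop, ∀ᶠ m in atTop,
      |∑ P ∈ prm F D, 𝔼 y ∈ monF F m, ind (a ∣ y) * ∏ i, lam (y + P * h i)| ≤
        ε * (prm F D).card := by
  classical
  obtain ⟨h₀, hh₀⟩ := xcorr_deg h
  let α : I → F[X] := fun j => if j = i₀ then a else h j - h i₀
  let β : I → F[X] := fun j => if j = i₀ then 0 else -1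
  let G : I → F[X] → F[X] → ℝ := fun j y d =>
    if j = i₀ then ind (Irreducible d) * ind (a ∣ y - d * h i₀) else lam (y + d * (h j - h i₀))
  have hα : ∀ j, α j ≠ 0 := fun j => by
    simp only [α]
    split_ifs with hj
    · exact ha
    · exact sub_ne_zero.2 fun e => hj (hh e)
  have hG : Adm α β G := fun j => by
    simp only [α, β, G]
    split_ifs with hj
    · refine ⟨fun y d => ?_, fun y d v => ?_⟩
      · rw [← ind_and]
        exact abs_ind_le _
      · rw [zero_mul, add_zero, add_sub_right_comm]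
        exact congrArg _ (ind_congr (dvd_add_left (dvd_mul_right a v)))
    · refine ⟨fun y d => (abs_lam _).le, fun y d v => congrArg lam ?_⟩
      ring
  filter_upwards [loc_unif hp hw α β hα (half_pos hε), card_prm_ge (F := F)] with D h1 h2
  filter_upwards [h1, eventually_ge_atTop (D + h₀)] with m h3 hm
  have h4 := h3 G hG
  have hq := card_pos' (F := F)
  have key : ∑ P ∈ prm F D, 𝔼 y ∈ monF F m, ind (a ∣ y) * ∏ i, lam (y + P * h i) =
      (Fintype.card F : ℝ) ^ D * TT m D lam G := by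
    rw [xcorr_sum_prm, TT, expect_monF_eq D, mul_div_cancel₀ _ (pow_pos hq D).ne']
    refine sum_congr rfl fun d hd => ?_
    have hv : (-(d * h i₀)).degree < m := by
      rw [degree_neg]
      exact xcorr_deg_mul (mem_monF.1 hd).2 (hh₀ i₀) hm
    rw [← expect_monF_add hv, mul_expect]
    refine expect_congr rfl fun y _ => ?_
    rw [← mul_prod_erase univ _ (mem_univ i₀), ← mul_prod_erase univ _ (mem_univ i₀)]
    have e1 : ∏ j ∈ univ.erase i₀, G j y d =
        ∏ j ∈ univ.erase i₀, lam (y + -(d * h i₀) + d * h j) := by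
      refine prod_congr rfl fun j hj => ?_
      simp only [G, if_neg (ne_of_mem_erase hj)]
      congr 1
      ring
    rw [e1]
    simp only [G, if_pos, ← sub_eq_add_neg, sub_add_cancel]
    ring
  have h5 : (Fintype.card F : ℝ) ^ D ≤ 2 * D * (prm F D).card := by exact_mod_cast h2
  rw [key, abs_mul, abs_of_pos (pow_pos hq D)]
  calc _ ≤ 2 * D * (prm F D).card * |TT m D lam G| := by gcongr
    _ = 2 * (prm F D).card * (D * |TT m D lam G|) := by ring
    _ ≤ 2 * (prm F D).card * (ε / 2) := by gcongr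
    _ = _ := by ring

omit [Fintype F] in
theorem xcorr_dil {I : Type*} [Fintype I] {a P x : F[X]} (ha : a ≠ 0) (hP : Irreducible P)
    (hd : a.natDegree < P.natDegree) {h : I → F[X]} (hx : x.Monic)
    (hh : ∀ i, (h i).natDegree < x.natDegree) :
    ind (a ∣ P * x) * ∏ i, lam (P * x + P * h i) =
      (-1) ^ Fintype.card I * (ind (a ∣ x) * ∏ i, lam (x + h i)) := by
  have hc : IsCoprime a P := (hP.coprime_iff_not_dvd.2 fun hd' =>
    (natDegree_le_of_dvd hd' ha).not_gt hd).symm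
  have e : ∀ i, lam (P * x + P * h i) = -1 * lam (x + h i) := fun i => by
    rw [← mul_add, lam_mul hP.ne_zero ?_, xcorr_lam_irr hP]
    exact (hx.add_of_left (degree_lt_degree (hh i))).ne_zero
  rw [ind_congr (⟨hc.dvd_of_dvd_mul_left, fun h' => h'.mul_left P⟩ : a ∣ P * x ↔ a ∣ x),
    prod_congr rfl fun i _ => e i, prod_mul_distrib, prod_const, card_univ]
  ring

theorem corr_BZ (hp : p ≠ 2) {ι : Type} [Fintype ι] {g : ℕ → F[X] → ℝ} {ρ : ℕ → ℝ} {ρ₀ : ℝ}
    {lo hi : ℕ → ℕ} (hw : Weight p ι g ρ ρ₀ lo hi) {I : Type*} [Fintype I] (i₀ : I) {a : F[X]}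
    (ha : a ≠ 0) {h : I → F[X]} (hh : Function.Injective h) :
    BZ fun n => 𝔼 x ∈ monF F n, ind (a ∣ x) * ∏ i, lam (x + h i) := by
  obtain ⟨h₀, hh₀⟩ := xcorr_deg h
  have hq := card_pos' (F := F)
  have hq2 := two_le_card (F := F)
  obtain ⟨u, hu⟩ : ∃ u : ℕ → ℝ, u = fun n => 𝔼 x ∈ monF F n, ind (a ∣ x) * ∏ i, lam (x + h i) :=
    ⟨_, rfl⟩
  have hb : ∀ n, |u n| ≤ 1 := fun n => by
    rw [hu]
    exact (abs_expect_le _ _).trans (expect_le (monF_nonempty n) fun x _ => xcorr_abs _ _)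
  rw [← hu]
  refine BZ.of_ind hb fun ε hε => ?_
  let ℓ : F[X] → Prop × Prop := fun y => (liou y = 1, a ∣ y)
  refine scale_lemma (fun m H => entP ℓ m H / (Fintype.card F : ℝ) ^ H) (fun n => ε ≤ |u n|)
    (c := ε ^ 2 / (128 * (Fintype.card F : ℝ) ^ h₀)) (A := Real.log (Fintype.card F)) h₀
    (by positivity) (fun m H hH => entP_mem ℓ hH) (fun m H H' h1 h2 => entP_anti ℓ h1 h2) ?_
  filter_upwards [prime_avg hp hw i₀ ha hh (half_pos hε), card_prm_ge (F := F),
    eventually_gt_atTop a.natDegree] with D h1 h2 h3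
  filter_upwards [h1, eventually_ge_atTop (Fintype.card F ^ D), eventually_ge_atTop (D + h₀)]
    with m h4 h5 h6 hbad H h7 h8
  have hD : D ≠ 0 := by omega
  have h9 := card_prm_le (F := F) hD
  obtain ⟨s, hs, hs'⟩ : ∃ s : ℝ, |s| = 1 ∧ s * ((-1) ^ Fintype.card I * u (m - D)) = |u (m - D)| := by
    have e : |(-1) ^ Fintype.card I * u (m - D)| = |u (m - D)| := by
      rw [abs_mul, abs_pow, abs_neg, abs_one, one_pow, one_mul]
    rw [← e]
    rcases le_total 0 ((-1) ^ Fintype.card I * u (m - D)) with k | k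
    · exact ⟨1, abs_one, by rw [one_mul, abs_of_nonneg k]⟩
    · exact ⟨-1, by rw [abs_neg, abs_one], by rw [neg_one_mul, abs_of_nonpos k]⟩
  have hε1 : ε ≤ 1 := hbad.trans (hb _)
  have hθ : |s * (ε / 16)| ≤ 1 / 2 := by
    rw [abs_mul, hs, one_mul, abs_of_pos (by positivity)]
    linarith
  have main := ent_step ℓ (m := m) (D := D) (H₁ := D + h₀) (H₂ := H) (Nat.le_add_right _ _) h7 h8
    (h9.trans h5) (fun P y => ind (a ∣ y) * ∏ i, lam (y + P * h i)) (fun P y => xcorr_abs _ _)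
    (fun P hP y y' e v hv => by
      have hv' : v.degree < (D + h₀ : ℕ) :=
        hv.trans_le (by exact_mod_cast Nat.le_add_right D h₀)
      have e1 : (a ∣ y + v) = (a ∣ y' + v) := congrArg Prod.snd (e v hv')
      rw [e1]
      refine congrArg _ (prod_congr rfl fun i _ => ?_)
      have e2 : (liou (y + (v + P * h i)) = 1) = (liou (y' + (v + P * h i)) = 1) :=
        congrArg Prod.fst (e _ ((degree_add_le _ _).trans_lt
          (max_lt hv' (xcorr_deg_mul (mem_prm.1 hP).2.2 (hh₀ i) le_rfl))))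
      rw [add_assoc, add_assoc, lam, lam]
      rcases liou_cases (y + (v + P * h i)) with k | k <;>
        rcases liou_cases (y' + (v + P * h i)) with k' | k'
      · rw [k, k']
      · rw [k, k'] at e2
        simp at e2
      · rw [k, k'] at e2
        simp at e2
      · rw [k, k']) hθ
  have e3 : ∀ P ∈ prm F D, 𝔼 x ∈ monF F (m - D), ind (a ∣ P * x) * ∏ i, lam (P * x + P * h i) =
      (-1) ^ Fintype.card I * u (m - D) := fun P hP => by
    obtain ⟨-, k1, k2⟩ := mem_prm.1 hP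
    rw [hu, mul_expect]
    refine expect_congr rfl fun x hx => ?_
    obtain ⟨k3, k4⟩ := mem_monF.1 hx
    refine xcorr_dil ha k1 (k2 ▸ h3) k3 fun i => ?_
    have := hh₀ i
    omega
  rw [sum_sub_distrib, sum_congr rfl e3, sum_const, nsmul_eq_mul] at main
  refine main.trans (add_le_add (sub_le_sub_left ?_ _) ?_)
  · obtain ⟨S, hS⟩ : ∃ S : ℝ,
        S = ∑ P ∈ prm F D, 𝔼 y ∈ monF F m, ind (a ∣ y) * ∏ i, lam (y + P * h i) := ⟨_, rfl⟩
    rw [← hS] at h4 ⊢
    obtain ⟨N, hN⟩ : ∃ N : ℝ, N = (prm F D).card := ⟨_, rfl⟩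
    have k0 : (Fintype.card F : ℝ) ^ D ≤ 2 * D * N := by
      rw [hN]
      exact_mod_cast h2
    have hN0 : 0 ≤ N := hN ▸ Nat.cast_nonneg _
    rw [← hN] at h4 ⊢
    have hD0 : (0 : ℝ) < D := by positivity
    have k1 : s * S ≤ ε / 2 * N := (le_abs_self _).trans (by rwa [abs_mul, hs, one_mul])
    have k2 : s ^ 2 = 1 := by rw [← sq_abs, hs, one_pow]
    have k3 : ε ^ 2 / 64 * N ≤ s * (ε / 16) * (N * ((-1) ^ Fintype.card I * u (m - D)) - S) -
        4 * (s * (ε / 16)) ^ 2 * N := by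
      have k4 : s * (ε / 16) * (N * ((-1) ^ Fintype.card I * u (m - D)) - S) =
          ε / 16 * (N * |u (m - D)| - s * S) := by
        rw [← hs']
        ring
      have k5 : N * ε ≤ N * |u (m - D)| := mul_le_mul_of_nonneg_left hbad hN0
      have k6 : ε / 16 * (ε / 2 * N) ≤ ε / 16 * (N * |u (m - D)| - s * S) :=
        mul_le_mul_of_nonneg_left (by linarith) (by positivity)
      rw [k4, mul_pow, k2]
      linarith
    refine le_trans ?_ (div_le_div_of_nonneg_right k3 (by positivity))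
    rw [div_div, div_le_div_iff₀ (by positivity) (by positivity), pow_add]
    calc _ = ε ^ 2 * (Fintype.card F : ℝ) ^ h₀ * (Fintype.card F : ℝ) ^ D := by ring
      _ ≤ ε ^ 2 * (Fintype.card F : ℝ) ^ h₀ * (2 * D * N) := by gcongr
      _ = _ := by ring
  · have k0 : (D : ℝ) * (prm F D).card ≤ (Fintype.card F : ℝ) ^ D := by exact_mod_cast h9
    have k1 : 0 ≤ Real.log (Fintype.card F) := Real.log_nonneg (by linarith)
    obtain ⟨k, rfl⟩ : ∃ k, H = D + k := ⟨H - D, by omega⟩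
    rw [Nat.add_sub_cancel_left, div_le_div_iff₀ (by positivity) (by positivity), pow_add]
    calc _ ≤ (Fintype.card F : ℝ) ^ D * Real.log (Fintype.card F) * (Fintype.card F : ℝ) ^ k := by
          gcongr
      _ = _ := by ring

end Pool.Agent.MP_4fffd4_nt.Odd

end

section

/- Chowla on average over the degree, for every finite field. -/

set_option autoImplicit false

namespace Pool.Agent.MP_4fffd4_nt.Odd

open Polynomial Finset Filter Topology
open scoped BigOperators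

variable {F : Type*} [Field F] [Fintype F]

theorem xfin_sum {a : F[X]} (ha : a.Monic) (n : ℕ) (G : F[X] → ℝ) :
    ∑ x ∈ monF F (n + a.natDegree), ind (a ∣ x) * G x = ∑ f ∈ monF F n, G (a * f) := by
  classical
  rw [← sum_filter_add_sum_filter_not _ (a ∣ ·),
    sum_eq_zero (s := filter (fun x => ¬ a ∣ x) _) fun x hx => by
      rw [ind_neg (mem_filter.1 hx).2, zero_mul], add_zero]
  symm
  refine sum_bij (fun f _ => a * f) (fun f hf => ?_) (fun f _ g _ => mul_left_cancel₀ ha.ne_zero)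
    (fun x hx => ?_) fun f _ => by rw [ind_pos (dvd_mul_right _ _), one_mul]
  · obtain ⟨h1, h2⟩ := mem_monF.1 hf
    exact mem_filter.2 ⟨mem_monF.2 ⟨ha.mul h1, by rw [ha.natDegree_mul h1, h2, add_comm]⟩,
      dvd_mul_right _ _⟩
  · obtain ⟨h1, f, rfl⟩ := mem_filter.1 hx
    obtain ⟨h2, h3⟩ := mem_monF.1 h1
    have h4 := ha.of_mul_monic_left h2
    rw [ha.natDegree_mul h4] at h3
    exact ⟨f, mem_monF.2 ⟨h4, by omega⟩, rfl⟩

theorem chowla_BZ {I : Type*} [Fintype I] (i₀ : I) (a h : I → F[X]) (ha : ∀ i, a i ≠ 0)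
    (hind : ∀ i j, i ≠ j → a i * h j ≠ a j * h i) :
    BZ fun n => (∑ f ∈ monF F n, ∏ i, (liou (a i * f + h i) : ℝ)) / Fintype.card F ^ n := by
  obtain ⟨p, hp⟩ := CharP.exists F
  haveI : Fact p.Prime := ⟨CharP.char_is_prime F p⟩
  by_cases h2 : p = 2
  · subst h2
    exact BZ.of_tendsto (chowla i₀ a h ha fun i hi => hind i i₀ hi)
  obtain ⟨ρ₀, hw⟩ := exists_weight (F := F) h2
  have hA : ∏ i, a i ≠ 0 := prod_ne_zero_iff.2 fun i _ => ha i
  set A := (∏ i, a i) * C (∏ i, a i).leadingCoeff⁻¹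
  have hm : A.Monic := monic_mul_leadingCoeff_inv hA
  choose c hc using fun i => show a i ∣ A from (dvd_prod_of_mem a (mem_univ i)).mul_right _
  have hc0 : ∀ i, c i ≠ 0 := fun i h0 => hm.ne_zero (by rw [hc i, h0, mul_zero])
  have hinj : Function.Injective fun i => c i * h i := by
    intro i j e
    by_contra hij
    refine hind i j hij (mul_left_cancel₀ hm.ne_zero ?_)
    simp only at e
    linear_combination (a i * h j) * hc j - (a j * h i) * hc i - (a i * a j) * e
  have hq := card_pos' (F := F)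
  refine (((corr_BZ h2 hw i₀ hm.ne_zero hinj).shift A.natDegree).const_mul
    ((∏ i, lam (c i)) * Fintype.card F ^ A.natDegree)).of_le ?_
  filter_upwards [eventually_gt_atTop (∑ i, (h i).natDegree)] with n hn
  refine le_of_eq (congrArg _ ?_)
  rw [expect_monF_eq, xfin_sum hm n fun x => ∏ i, lam (x + c i * h i), pow_add]
  have : ∑ f ∈ monF F n, ∏ i, (liou (a i * f + h i) : ℝ) =
      (∏ i, lam (c i)) * ∑ f ∈ monF F n, ∏ i, lam (A * f + c i * h i) := by
    rw [mul_sum]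
    refine sum_congr rfl fun f hf => ?_
    obtain ⟨h3, h4⟩ := mem_monF.1 hf
    rw [← prod_mul_distrib]
    refine prod_congr rfl fun i _ => ?_
    have := single_le_sum (f := fun i => (h i).natDegree) (fun _ _ => Nat.zero_le _) (mem_univ i)
    rw [show A * f + c i * h i = c i * (a i * f + h i) by rw [hc i]; ring,
      lam_mul (hc0 i) (lin_ne_zero (ha i) h3 (by omega)), ← mul_assoc, lam_mul_self, one_mul, lam]
  rw [this]
  field_simp

theorem pattern_BZ {I : Type*} [Fintype I] (a h : I → F[X]) (ha : ∀ i, a i ≠ 0)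
    (hind : ∀ i j, i ≠ j → a i * h j ≠ a j * h i) (ε : I → ℤ) (hε : ∀ i, ε i = 1 ∨ ε i = -1) :
    BZ fun n => (Set.ncard {f : F[X] | f.Monic ∧ f.natDegree = n ∧
      ∀ i, a i * f + h i ≠ 0 ∧ liou (a i * f + h i) = ε i} : ℝ) / Fintype.card F ^ n -
        1 / 2 ^ Fintype.card I := by
  classical
  have hq := card_pos' (F := F)
  have h1 : BZ fun n : ℕ => 1 / 2 ^ Fintype.card I *
      ∑ S ∈ (univ : Finset I).powerset.erase ∅, (∏ i ∈ S, (ε i : ℝ)) *
        ((∑ f ∈ monF F n, ∏ i ∈ S, (liou (a i * f + h i) : ℝ)) / Fintype.card F ^ n) := by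
    refine (BZ.sum _ fun S hS => ?_).const_mul _
    obtain ⟨i₀, hi₀⟩ := nonempty_iff_ne_empty.2 (mem_erase.1 hS).1
    refine ((chowla_BZ (I := S) ⟨i₀, hi₀⟩ (fun i => a i) (fun i => h i) (fun i => ha i)
      fun i j hi => hind _ _ fun e => hi (Subtype.ext e)).const_mul
        (∏ i ∈ S, (ε i : ℝ))).of_le (Eventually.of_forall fun n => le_of_eq ?_)
    congr 3
    exact sum_congr rfl fun f _ =>
      (prod_coe_sort S fun i => (liou (a i * f + h i) : ℝ)).symm
  refine h1.of_le ?_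
  filter_upwards [eventually_gt_atTop (∑ i, (h i).natDegree)] with n hn
  refine le_of_eq (congrArg _ ?_)
  have h2 : {f : F[X] | f.Monic ∧ f.natDegree = n ∧
      ∀ i, a i * f + h i ≠ 0 ∧ liou (a i * f + h i) = ε i} =
      ((monF F n).filter fun f => ∀ i, liou (a i * f + h i) = ε i : Finset F[X]) := by
    ext f
    simp only [Set.mem_setOf_eq, coe_filter, mem_monF]
    refine ⟨fun ⟨x, y, z⟩ => ⟨⟨x, y⟩, fun i => (z i).2⟩, fun ⟨⟨x, y⟩, z⟩ =>
      ⟨x, y, fun i => ⟨lin_ne_zero (ha i) x ?_, z i⟩⟩⟩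
    have := single_le_sum (f := fun i => (h i).natDegree) (fun _ _ => Nat.zero_le _) (mem_univ i)
    omega
  have h3 : (1 : ℝ) = (∏ i ∈ (∅ : Finset I), (ε i : ℝ)) *
      ((∑ f ∈ monF F n, ∏ i ∈ (∅ : Finset I), (liou (a i * f + h i) : ℝ)) /
        Fintype.card F ^ n) := by
    simp only [prod_empty, sum_const, card_monF, nsmul_eq_mul]
    push_cast
    field_simp
  rw [sub_eq_iff_eq_add, ← mul_add_one]
  conv_rhs => rw [h3]; rw [← h3]; congr; rfl; congr; rfl; rw [h3]
  rw [sum_erase_add _ _ (empty_mem_powerset _), h2, Set.ncard_coe_finset, card_filter]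
  simp only [← mul_div_assoc, ← sum_div, mul_sum, ← prod_mul_distrib]
  congr 1
  rw [sum_comm]
  push_cast
  refine sum_congr rfl fun f _ => ?_
  rw [← mul_sum, ← prod_one_add]
  split_ifs with hf
  · rw [prod_congr rfl (g := fun _ => 2), prod_const, card_univ]
    · field_simp
    · intro i _
      rw [hf i]
      rcases hε i with e | e <;> rw [e] <;> norm_num
  · push Not at hf
    obtain ⟨i, hi⟩ := hf
    rw [prod_eq_zero (mem_univ i), mul_zero]
    rcases hε i with e | e <;> rcases liou_cases (a i * f + h i) with e' | e' <;>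
      rw [e, e'] at hi ⊢ <;> simp at hi ⊢

end Pool.Agent.MP_4fffd4_nt.Odd

end
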