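import Mathlib
import Pool.Agent.Mg.F43e117.Ge19e10
import Pool.Agent.Mg.F43e117.Gf0c885

section

/- The total error over squarefree moduli. -/

set_option autoImplicit false

namespace Pool.Agent.MP_4fffd4_nt.Odd

open Polynomial Finset Filter Topology
open scoped BigOperators

variable {F : Type*} [Field F] [Fintype F] {p : ℕ} [Fact p.Prime] [CharP F p]

omit [Fintype F] [Fact p.Prime] [CharP F p] in
theorem xerr_ann {e : F[X]} (he : e ≠ 0) {β : F[X] →ₗ[F] F} (h2 : ∀ x, β (e * x) = 0)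
    (h1 : β ≠ 0) : ∃ d : F[X], d.Monic ∧ d ∣ e ∧ 0 < d.natDegree ∧
      ∀ s, (∀ x, β (s * x) = 0) ↔ d ∣ s := by
  let I : Ideal F[X] :=
    { carrier := {s | ∀ x, β (s * x) = 0}
      add_mem' := fun {a b} ha hb x => by rw [add_mul, map_add, ha x, hb x, add_zero]
      zero_mem' := fun x => by simp
      smul_mem' := fun c s hs x => by rw [smul_eq_mul, mul_comm c, mul_assoc]; exact hs _ }
  have heI : e ∈ I := h2
  set g := Submodule.IsPrincipal.generator I
  have hg : ∀ s, s ∈ I ↔ g ∣ s := fun s => Submodule.IsPrincipal.mem_iff_generator_dvd I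
  have hg0 : g ≠ 0 := ne_zero_of_dvd_ne_zero he ((hg e).1 heI)
  have hm : (g * C g.leadingCoeff⁻¹).Monic := monic_mul_leadingCoeff_inv hg0
  have hd : ∀ s, s ∈ I ↔ g * C g.leadingCoeff⁻¹ ∣ s := fun s => by
    rw [hg, IsUnit.mul_right_dvd
      (isUnit_C.2 (inv_ne_zero (leadingCoeff_ne_zero.2 hg0)).isUnit)]
  refine ⟨_, hm, (hd e).1 heI, Nat.pos_of_ne_zero fun h0 => h1 (LinearMap.ext fun x => ?_), hd⟩
  have := (hd 1).2 (by rw [hm.natDegree_eq_zero.1 h0]) x
  rwa [one_mul] at this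

/-- a primitive functional with prescribed truncation -/
def XTr (p ν : ℕ) (d : F[X]) (τ : Fin (ν / p) → F) : Prop :=
  ∃ γ, XPrim ν d γ ∧ ∀ i : Fin (ν / p), γ (X ^ (p * (i + 1) - 1)) = τ i

theorem xerr_fib {ν D : ℕ} (h1 : D < ν) (h2 : ν < 2 * D) (τ : Fin (ν / p) → F) :
    ∑ d ∈ monF F D, ind (XTr p ν d τ) ≤ (Fintype.card F : ℝ) ^ (2 * D + 1 - ν) := by
  classical
  have e0 : ∑ d ∈ monF F D, ind (XTr p ν d τ) =
      (((monF F D).filter fun d => XTr p ν d τ).card : ℝ) := by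
    rw [card_filter]
    push_cast
    exact sum_congr rfl fun d _ => by unfold ind; congr
  rw [e0, ← Nat.cast_pow, Nat.cast_le]
  rcases ((monF F D).filter fun d => XTr p ν d τ).eq_empty_or_nonempty with h | ⟨e₀, h₀⟩
  · simp [h]
  obtain ⟨h3, β₀, hβ₀, h4⟩ := mem_filter.1 h₀
  obtain ⟨h5, h6⟩ := mem_monF.1 h3
  have h7 := xsurj_ker h5 hβ₀.1 (r := ν - 1 - D) (by omega)
  rw [h6, show D - (ν - 1 - D) = 2 * D + 1 - ν by omega] at h7
  rw [← h7]
  refine card_le_card_of_injOn (fun e => e - e₀) (fun e he => ?_) fun a _ b _ h =>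
    sub_left_injective h
  obtain ⟨h8, β, hβ, h9⟩ := mem_filter.1 he
  obtain ⟨h10, h11⟩ := mem_monF.1 h8
  have hd : e.degree = D := by rw [degree_eq_natDegree h10.ne_zero, h11]
  refine mem_filter.2 ⟨mem_ltF.2 ?_, fun x hx => ?_⟩
  · rw [← hd]
    exact degree_sub_lt (by rw [hd, degree_eq_natDegree h5.ne_zero, h6]) h10.ne_zero
      (by rw [h10, h5])
  · have h12 : (e * x).degree < (ν - 1 : ℕ) := by
      rw [degree_mul, hd]
      refine (WithBot.add_lt_add_left (by simp) hx).trans_le ?_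
      exact_mod_cast (by omega : D + (ν - 1 - D) ≤ ν - 1)
    rw [sub_mul, map_sub, (hβ₀.1 e₀).2 dvd_rfl, sub_zero,
      ← xsurj_agree (p := p) hβ.2 hβ₀.2 (fun i => (h9 i).trans (h4 i).symm) h12]
    exact (hβ.1 e).2 dvd_rfl x

omit [Fact p.Prime] [CharP F p] in
theorem xerr_lin {U V : Type*} [AddCommGroup U] [Module F U] [Fintype U] [AddCommGroup V]
    [Module F V] [Fintype V] (f : U →ₗ[F] V) (y₀ : V) :
    |(𝔼 v, ind (f v = y₀)) - 1 / Fintype.card V| ≤
      ((Nat.card (LinearMap.range f).dualAnnihilator : ℝ) - 1) / Fintype.card V := by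
  classical
  set I := LinearMap.range f
  haveI : FiniteDimensional F V := Module.Finite.of_finite
  haveI : Finite (Module.Dual F V) := Module.finite_of_finite F
  letI : Fintype I.dualAnnihilator := Fintype.ofFinite _
  have hq := card_pos' (F := F)
  have h1 := Subspace.finrank_add_finrank_dualAnnihilator_eq I
  have h2 : (Fintype.card I : ℝ) * Nat.card I.dualAnnihilator = Fintype.card V := by
    rw [Nat.card_eq_fintype_card, Module.card_eq_pow_finrank (K := F) (V := I),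
      Module.card_eq_pow_finrank (K := F) (V := I.dualAnnihilator),
      Module.card_eq_pow_finrank (K := F) (V := V), ← h1]
    push_cast
    rw [pow_add]
  have hI : (0 : ℝ) < Fintype.card I := by exact_mod_cast Fintype.card_pos
  have hV : (0 : ℝ) < Fintype.card V := by exact_mod_cast Fintype.card_pos
  have h3 : 𝔼 v, ind (f v = y₀) = 𝔼 y : I, ind (y.1 = y₀) :=
    expect_surj f.rangeRestrict.toAddMonoidHom f.surjective_rangeRestrict fun y => ind (y.1 = y₀)
  rw [h3]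
  by_cases h : y₀ ∈ I
  · rw [Fintype.expect_eq_sum_div_card, Finset.sum_eq_single ⟨y₀, h⟩
      (fun y _ hy => ind_neg fun e => hy (Subtype.ext e)) (by simp), ind_pos rfl]
    have h4 : (1 : ℝ) ≤ Nat.card I.dualAnnihilator := by exact_mod_cast Nat.card_pos
    have h5 : 1 / (Fintype.card I : ℝ) - 1 / Fintype.card V =
        (Nat.card I.dualAnnihilator - 1) / Fintype.card V := by
      rw [← h2]; field_simp
    rw [h5, abs_of_nonneg (div_nonneg (by linarith) hV.le)]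
  · rw [Finset.expect_congr rfl fun (y : I) _ => ind_neg fun e : y.1 = y₀ => h (e ▸ y.2),
      expect_const_zero,
      zero_sub, abs_neg, abs_of_pos (by positivity)]
    have h4 : Nontrivial I.dualAnnihilator := by
      rw [Submodule.nontrivial_iff_ne_bot]
      intro h0
      exact h (by rw [Submodule.dualAnnihilator_eq_bot_iff.1 h0]; trivial)
    have h5 : (2 : ℝ) ≤ Nat.card I.dualAnnihilator := by
      exact_mod_cast Finite.one_lt_card
    exact div_le_div_of_nonneg_right (by linarith) hV.le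

theorem xerr_one {ν : ℕ} {e Q : F[X]} (he : e.Monic) (hs : Squarefree e) (hQ : IsCoprime Q e)
    (hν : e.natDegree < ν) (D₀ : F[X]) :
    er ν Q D₀ e ≤ (∑ τ : Fin (ν / p) → F, ∑ k ∈ range (e.natDegree + 1), ∑ d ∈ monF F k,
      ind (ν < 2 * k ∧ XTr p ν d τ ∧ d ∣ e)) / (Fintype.card F : ℝ) ^ e.natDegree := by
  classical
  let g : F[X] →ₗ[F] degreeLT F e.natDegree :=
    { toFun := fun v => ⟨(Q * v) %ₘ e, mem_degreeLT.2 (xsurj_mod he _)⟩
      map_add' := fun v w => Subtype.ext (by simp [mul_add, add_modByMonic])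
      map_smul' := fun c v => Subtype.ext (by simp [smul_modByMonic]) }
  have hg : Function.Surjective g := by
    intro x
    obtain ⟨a, b, hab⟩ := hQ
    refine ⟨a * x.1, Subtype.ext ?_⟩
    refine sub_eq_zero.1 (xsurj_zero he ?_ (mem_degreeLT.1 (sub_mem (g _).2 x.2)))
    have h3 := xsurj_dvd e (Q * (a * x.1)) he
    have : (Q * (a * x.1)) %ₘ e - x.1 = -(Q * (a * x.1) - (Q * (a * x.1)) %ₘ e) -
        e * (b * x.1) := by
      linear_combination (x.1) * hab
    change e ∣ (Q * (a * x.1)) %ₘ e - x.1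
    rw [this]
    exact dvd_sub (dvd_neg.2 h3) (dvd_mul_right _ _)
  have hg0 : ∀ x, g (e * x) = 0 := fun x => Subtype.ext
    ((modByMonic_eq_zero_iff_dvd he).2 ((dvd_mul_right e x).mul_left Q))
  let f : degreeLT F ν →ₗ[F] degreeLT F e.natDegree :=
    g ∘ₗ derivative ∘ₗ (degreeLT F ν).subtype
  let y₀ : degreeLT F e.natDegree := ⟨(-D₀) %ₘ e, mem_degreeLT.2 (xsurj_mod he _)⟩
  have key : ∀ y : degreeLT F e.natDegree, e ∣ D₀ + y.1 ↔ y = y₀ := by
    intro y
    have h3 := xsurj_dvd e (-D₀) he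
    have h4 : D₀ + y.1 = (y.1 - y₀.1) - (-D₀ - (-D₀) %ₘ e) := by simp [y₀]; ring
    rw [h4, dvd_sub_left h3]
    exact ⟨fun h5 => Subtype.ext (sub_eq_zero.1 (xsurj_zero he h5
      (mem_degreeLT.1 (sub_mem y.2 y₀.2)))), fun h5 => by simp [h5]⟩
  have h5 : ∀ v : degreeLT F ν, ind (e ∣ D₀ + Q * derivative v.1) = ind (f v = y₀) := by
    intro v
    refine ind_congr (Iff.trans ?_ (key _))
    have h3 := xsurj_dvd e (Q * derivative v.1) he
    have h4 : D₀ + Q * derivative v.1 = D₀ + (f v).1 +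
        (Q * derivative v.1 - (Q * derivative v.1) %ₘ e) := by simp [f, g]
    rw [h4, dvd_add_left h3]
  have h6 := xerr_lin f y₀
  rw [card_degreeLT, Nat.cast_pow] at h6
  rw [er, expect_ltF, Finset.expect_congr rfl fun v _ => h5 v]
  refine h6.trans (div_le_div_of_nonneg_right ?_ (pow_pos card_pos' _).le)
  set A := (LinearMap.range f).dualAnnihilator
  haveI : FiniteDimensional F (degreeLT F e.natDegree) := Module.Finite.of_finite
  haveI : Finite (Module.Dual F (degreeLT F e.natDegree)) := Module.finite_of_finite F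
  letI : Fintype A := Fintype.ofFinite _
  have hA : ∀ β : A, ∀ v : F[X], v.degree < ν → (β.1 ∘ₗ g) (derivative v) = 0 := fun β v hv =>
    (Submodule.mem_dualAnnihilator _).1 β.2 _ ⟨⟨v, mem_degreeLT.2 hv⟩, rfl⟩
  let τ : A → Fin (ν / p) → F := fun β i => (β.1 ∘ₗ g) (X ^ (p * (i + 1) - 1))
  have hτ : Function.Injective τ := by
    intro β γ h
    refine Subtype.ext (LinearMap.ext fun y => ?_)
    obtain ⟨x, rfl⟩ := hg y
    have h7 : g x = g (x %ₘ e) := by
      conv_lhs => rw [← modByMonic_add_div x e, map_add, hg0, add_zero]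
    rw [h7]
    exact xsurj_agree (p := p) (hA β) (hA γ) (congrFun h)
      ((xsurj_mod he x).trans_le (by exact_mod_cast (by omega : e.natDegree ≤ ν - 1)))
  have h7 : (Nat.card A : ℝ) - 1 = ∑ β ∈ (univ : Finset A).erase 0, (1 : ℝ) := by
    rw [sum_const, card_erase_of_mem (mem_univ _), card_univ, Nat.card_eq_fintype_card,
      nsmul_eq_mul, mul_one, Nat.cast_sub Fintype.card_pos, Nat.cast_one]
  rw [h7]
  refine le_trans (sum_le_sum fun β hβ => ?_) ((sum_image (s := univ.erase 0) (g := τ)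
    (f := fun τ => ∑ k ∈ range (e.natDegree + 1), ∑ d ∈ monF F k,
      ind (ν < 2 * k ∧ XTr p ν d τ ∧ d ∣ e)) fun _ _ _ _ h => hτ h).symm.trans_le
    (sum_le_sum_of_subset_of_nonneg (subset_univ _) fun _ _ _ =>
      sum_nonneg fun _ _ => sum_nonneg fun _ _ => ind_nonneg _))
  have h8 : β.1 ∘ₗ g ≠ 0 := fun h0 => (mem_erase.1 hβ).1 (Subtype.ext (LinearMap.ext fun y => by
    obtain ⟨x, rfl⟩ := hg y
    exact LinearMap.congr_fun h0 x))
  obtain ⟨d, h9, h10, h11, h12⟩ := xerr_ann he.ne_zero (β := β.1 ∘ₗ g)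
    (fun x => by rw [LinearMap.comp_apply, hg0, map_zero]) h8
  have h13 := natDegree_le_of_dvd h10 he.ne_zero
  rw [← ind_pos trivial, sum_sigma']
  exact ind_le_sum fun _ => ⟨⟨d.natDegree, d⟩, mem_sigma.2 ⟨mem_range.2 (by simp only; omega),
    mem_monF.2 ⟨h9, rfl⟩⟩, xsurj_lt h9 (hs.squarefree_of_dvd h10) h11 ⟨h12, hA β⟩,
    ⟨_, ⟨h12, hA β⟩, fun _ => rfl⟩, h10⟩

theorem sum_er {ν D : ℕ} (hD : D < ν) (Q D₀ : F[X]) :
    ∑ e ∈ monF F D, ind (Squarefree e ∧ IsCoprime Q e) * er ν Q D₀ e ≤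
      (D + 1) * (Fintype.card F : ℝ) ^ (ν / p + 1 + D) / (Fintype.card F : ℝ) ^ ν := by
  have hq := card_pos' (F := F)
  have hq1 : (1 : ℝ) ≤ Fintype.card F := one_le_two.trans two_le_card
  calc _ ≤ ∑ e ∈ monF F D, (∑ τ : Fin (ν / p) → F, ∑ k ∈ range (D + 1), ∑ d ∈ monF F k,
          ind (ν < 2 * k ∧ XTr p ν d τ ∧ d ∣ e)) / (Fintype.card F : ℝ) ^ D := by
        refine sum_le_sum fun e he => ?_
        obtain ⟨h1, rfl⟩ := mem_monF.1 he
        by_cases h : Squarefree e ∧ IsCoprime Q e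
        · rw [ind_pos h, one_mul]
          exact xerr_one h1 h.1 h.2 hD D₀
        · rw [ind_neg h, zero_mul]
          exact div_nonneg (sum_nonneg fun _ _ => sum_nonneg fun _ _ => sum_nonneg fun _ _ =>
            ind_nonneg _) (by positivity)
    _ ≤ (∑ τ : Fin (ν / p) → F, ∑ k ∈ range (D + 1),
          (Fintype.card F : ℝ) ^ (1 + 2 * D) / (Fintype.card F : ℝ) ^ ν) /
          (Fintype.card F : ℝ) ^ D := by
        rw [← sum_div, sum_comm]
        refine div_le_div_of_nonneg_right (sum_le_sum fun τ _ => ?_) (by positivity)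
        rw [sum_comm]
        refine sum_le_sum fun k hk => ?_
        have hk' := mem_range.1 hk
        rw [sum_comm]
        by_cases h : ν < 2 * k
        swap
        · rw [sum_eq_zero fun _ _ => sum_eq_zero fun _ _ => ind_neg fun h' => h h'.1]
          positivity
        have h1 : ∀ d ∈ monF F k, ∑ e ∈ monF F D, ind (ν < 2 * k ∧ XTr p ν d τ ∧ d ∣ e) ≤
            ind (XTr p ν d τ) * ((Fintype.card F : ℝ) ^ D / Fintype.card F ^ k) := by
          intro d hd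
          obtain ⟨h2, h3⟩ := mem_monF.1 hd
          simp only [ind_and, ind_pos h, one_mul, ← mul_sum]
          refine mul_le_mul_of_nonneg_left ?_ (ind_nonneg _)
          rw [sum_monF, ← h3]
          exact sum_dvd_monic (fun y : degreeLT F D => X ^ D + y.1)
            (fun _ _ h => Subtype.ext (add_left_cancel h)) monic_add_LT h2
        refine (sum_le_sum h1).trans ?_
        rw [← sum_mul]
        refine (mul_le_mul_of_nonneg_right (xerr_fib (by omega) h τ) (by positivity)).trans ?_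
        rw [← mul_div_assoc, div_le_div_iff₀ (by positivity) (by positivity), ← pow_add, ← pow_add,
          ← pow_add]
        exact pow_le_pow_right₀ hq1 (by omega)
    _ = _ := by
        rw [sum_const, sum_const, card_range, card_univ, Fintype.card_fun, Fintype.card_fin,
          nsmul_eq_mul, nsmul_eq_mul, two_mul]
        push_cast
        simp only [pow_add]
        field_simp

end Pool.Agent.MP_4fffd4_nt.Odd

end

section

/- The total error over products of tuples of primes. -/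

set_option autoImplicit false

namespace Pool.Agent.MP_4fffd4_nt.Odd

open Polynomial Finset Filter Topology
open scoped BigOperators

variable {F : Type*} [Field F] [Fintype F] {p : ℕ} [Fact p.Prime] [CharP F p]

omit [Fintype F] [Fact p.Prime] [CharP F p] in
theorem xtup_coprime {R S : F[X]} (hR : R.Monic) (hR' : Irreducible R) (hS : S.Monic)
    (hS' : Irreducible S) (h : R ≠ S) : IsCoprime R S :=
  hR'.coprime_iff_not_dvd.2 fun hd =>
    h (eq_of_monic_of_associated hR hS (hR'.associated_of_dvd hS' hd))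

omit [Fintype F] [Fact p.Prime] [CharP F p] in
open Classical in
theorem xtup_card (S : Finset F[X]) (W : F[X]) :
    ∑ R ∈ S, ind (R ∣ W) = ((S.filter (· ∣ W)).card : ℝ) := by
  rw [card_filter]
  push_cast
  refine sum_congr rfl fun R _ => ?_
  by_cases h : R ∣ W
  · rw [ind_pos h, if_pos h]
  · rw [ind_neg h, if_neg h]

omit [Fact p.Prime] [CharP F p] in
/-- the number of prime divisors of degree above `a` -/
theorem card_prime_dvd (S : Finset F[X]) {a : ℕ} {W : F[X]} (h0 : W ≠ 0)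
    (hS : ∀ R ∈ S, R.Monic ∧ Irreducible R ∧ a < R.natDegree) :
    (a + 1) * ∑ R ∈ S, ind (R ∣ W) ≤ W.natDegree := by
  classical
  rw [xtup_card]
  have hm : ∀ R ∈ S.filter (· ∣ W), R.Monic ∧ Irreducible R ∧ a < R.natDegree :=
    fun R hR => hS R (mem_filter.1 hR).1
  have hd : ∏ R ∈ S.filter (· ∣ W), R ∣ W :=
    Finset.prod_dvd_of_coprime (fun R hR T hT hne =>
      xtup_coprime (hm R hR).1 (hm R hR).2.1 (hm T hT).1 (hm T hT).2.1 hne)
      fun R hR => (mem_filter.1 hR).2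
  have h1 := natDegree_le_of_dvd hd h0
  rw [natDegree_prod_of_monic _ _ fun R hR => (hm R hR).1] at h1
  have h2 : (S.filter (· ∣ W)).card * (a + 1) ≤ ∑ R ∈ S.filter (· ∣ W), R.natDegree := by
    rw [← smul_eq_mul]
    exact card_nsmul_le_sum _ _ _ fun R hR => (hm R hR).2.2
  have h3 := h2.trans h1
  rw [mul_comm] at h3
  exact_mod_cast h3

omit [Fact p.Prime] [CharP F p] in
open Classical in
theorem xtup_fib {σ κ : Type*} [Fintype κ] (T : Finset σ) (tup : σ → κ → F[X])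
    (hinj : Set.InjOn tup T) {D : ℕ} (Q : F[X])
    (hT : ∀ s ∈ T, Function.Injective (tup s) ∧
      (∀ i, (tup s i).Monic ∧ Irreducible (tup s i) ∧ ¬ tup s i ∣ Q) ∧
      (∏ i, tup s i).natDegree ≤ D) (e : F[X]) :
    ((T.filter fun s => ∏ i, tup s i = e).card : ℝ) ≤
      (D + 1) ^ Fintype.card κ * ind (Squarefree e ∧ IsCoprime Q e) := by
  rcases (T.filter fun s => ∏ i, tup s i = e).eq_empty_or_nonempty with h | ⟨s₀, h⟩
  · rw [h, card_empty, Nat.cast_zero]
    exact mul_nonneg (by positivity) (ind_nonneg _)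
  obtain ⟨hs₀, he⟩ := mem_filter.1 h
  obtain ⟨h1, h2, h3⟩ := hT s₀ hs₀
  have hsq : Squarefree e := by
    rw [← he]
    refine Finset.squarefree_prod_of_pairwise_isCoprime (fun i _ j _ hij => ?_)
      fun i _ => (h2 i).2.1.squarefree
    exact (xtup_coprime (h2 i).1 (h2 i).2.1 (h2 j).1 (h2 j).2.1 fun e' => hij (h1 e')).isRelPrime
  have hco : IsCoprime Q e := by
    rw [← he]
    exact IsCoprime.prod_right fun i _ => ((h2 i).2.1.coprime_iff_not_dvd.2 (h2 i).2.2).symm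
  rw [ind_pos ⟨hsq, hco⟩, mul_one]
  have hD : e.natDegree ≤ D := he ▸ h3
  have hc : (((prmI F 0 D).filter (· ∣ e)).card : ℝ) ≤ D + 1 := by
    have := card_prime_dvd (prmI F 0 D) (a := 0) hsq.ne_zero fun R hR =>
      ⟨(mem_prmI.1 hR).1, (mem_prmI.1 hR).2.1, (mem_prmI.1 hR).2.2.1⟩
    rw [xtup_card] at this
    have h4 : (e.natDegree : ℝ) ≤ D := by exact_mod_cast hD
    push_cast at this
    linarith
  have hle : (T.filter fun s => ∏ i, tup s i = e).card ≤
      (Fintype.piFinset fun _ : κ => (prmI F 0 D).filter (· ∣ e)).card := by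
    refine card_le_card_of_injOn tup (fun s hs => ?_)
      (hinj.mono fun s hs => (mem_filter.1 hs).1)
    obtain ⟨hs1, hs2⟩ := mem_filter.1 hs
    refine Fintype.mem_piFinset.2 fun i => ?_
    obtain ⟨a1, a2, -⟩ := (hT s hs1).2.1 i
    have hd : tup s i ∣ e := hs2 ▸ dvd_prod_of_mem _ (mem_univ i)
    exact mem_filter.2 ⟨mem_prmI.2 ⟨a1, a2, a2.natDegree_pos,
      (natDegree_le_of_dvd hd hsq.ne_zero).trans hD⟩, hd⟩
  rw [Fintype.card_piFinset, prod_const, card_univ] at hle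
  calc ((T.filter fun s => ∏ i, tup s i = e).card : ℝ)
      ≤ (((prmI F 0 D).filter (· ∣ e)).card : ℝ) ^ Fintype.card κ := by exact_mod_cast hle
    _ ≤ _ := pow_le_pow_left₀ (Nat.cast_nonneg _) hc _

theorem sum_er_tup {σ κ : Type*} [Fintype κ] (T : Finset σ) (tup : σ → κ → F[X])
    (hinj : Set.InjOn tup T) {ν D : ℕ} (hD : D < ν) (Q D₀ : F[X])
    (hT : ∀ s ∈ T, Function.Injective (tup s) ∧
      (∀ i, (tup s i).Monic ∧ Irreducible (tup s i) ∧ ¬ tup s i ∣ Q) ∧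
      (∏ i, tup s i).natDegree ≤ D) :
    ∑ s ∈ T, er ν Q D₀ (∏ i, tup s i) ≤ (D + 1) ^ (Fintype.card κ + 2) *
      (Fintype.card F : ℝ) ^ (ν / p + 1 + D) / (Fintype.card F : ℝ) ^ ν := by
  classical
  have hq : (1 : ℝ) ≤ Fintype.card F := by exact_mod_cast Fintype.card_pos
  have hmap : ∀ s ∈ T, ∏ i, tup s i ∈ monLE F D := fun s hs =>
    mem_monLE.2 ⟨monic_prod_of_monic _ _ fun i _ => ((hT s hs).2.1 i).1, (hT s hs).2.2⟩
  rw [← sum_fiberwise_of_maps_to hmap]
  calc ∑ e ∈ monLE F D, ∑ s ∈ T with ∏ i, tup s i = e, er ν Q D₀ (∏ i, tup s i)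
      ≤ ∑ e ∈ monLE F D, (D + 1) ^ Fintype.card κ *
          (ind (Squarefree e ∧ IsCoprime Q e) * er ν Q D₀ e) := by
        refine sum_le_sum fun e _ => ?_
        rw [sum_congr rfl fun s hs => by rw [(mem_filter.1 hs).2], sum_const, nsmul_eq_mul,
          ← mul_assoc]
        refine mul_le_mul_of_nonneg_right ?_ (abs_nonneg _)
        convert xtup_fib T tup hinj Q hT e
    _ = (D + 1) ^ Fintype.card κ * ∑ k ∈ range (D + 1), ∑ e ∈ monF F k,
          ind (Squarefree e ∧ IsCoprime Q e) * er ν Q D₀ e := by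
        rw [← mul_sum, sum_monLE]
    _ ≤ (D + 1) ^ Fintype.card κ * ∑ _k ∈ range (D + 1),
          (D + 1) * (Fintype.card F : ℝ) ^ (ν / p + 1 + D) / (Fintype.card F : ℝ) ^ ν := by
        refine mul_le_mul_of_nonneg_left (sum_le_sum fun k hk => ?_) (by positivity)
        have hk' : k ≤ D := Nat.lt_succ_iff.1 (mem_range.1 hk)
        refine (sum_er (p := p) (hk'.trans_lt hD) Q D₀).trans ?_
        have h1 : (k : ℝ) ≤ D := by exact_mod_cast hk'
        gcongr
    _ = _ := by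
        rw [sum_const, card_range, nsmul_eq_mul]
        push_cast
        ring

end Pool.Agent.MP_4fffd4_nt.Odd

end

section

/- The windows for smooth polynomials: degrees. -/

set_option autoImplicit false

namespace Pool.Agent.MP_4fffd4_nt.Odd

open Polynomial Finset Filter Topology
open scoped BigOperators

variable {F : Type*} [Field F] [Fintype F] {K p M : ℕ}

theorem xposa_mem (hp : 3 ≤ p) {r : ℕ} (hr : r ≤ 3 * p - 4)
    {P : Fin r → F[X]} (hP : P ∈ T3 F p M r) (j : Fin r) :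
    (P j).Monic ∧ Irreducible (P j) ∧ M / p / 3 < (P j).natDegree + (j + 2) * tt p M ∧
      (P j).natDegree + (j + 1) * tt p M ≤ M / p / 3 ∧ (j + 2) * tt p M ≤ 3 * (p * tt p M) := by
  obtain ⟨h1, h2, h3, h4⟩ := mem_prmI.1 (Fintype.mem_piFinset.1 hP j)
  have hj := j.2
  have h5 : (j + 2) * tt p M ≤ 3 * (p * tt p M) := by
    rw [← mul_assoc]
    exact Nat.mul_le_mul_right _ (by omega)
  have h6 : (j + 1) * tt p M ≤ (j + 2) * tt p M := Nat.mul_le_mul_right _ (by omega)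
  have h7 := xwin1_tt (M := M) hp
  have h8 := xwin1_pt (M := M) hp
  rw [mul_assoc] at h7
  exact ⟨h1, h2, by omega, by omega, h5⟩

theorem xposa_y (hK : 4 ≤ K) : 4 * yy K p M ≤ tt p M := by
  have h1 := Nat.mul_div_le (tt p M) K
  have h2 : 4 * (tt p M / K) ≤ K * (tt p M / K) := Nat.mul_le_mul_right _ hK
  rw [yy]
  omega

theorem mem_T3 (hp : 3 ≤ p) (hM : 100 ≤ tt p M) {r : ℕ} (hr : r ≤ 3 * p - 4)
    {P : Fin r → F[X]} (hP : P ∈ T3 F p M r) : Function.Injective P ∧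
      ∀ j, (P j).Monic ∧ Irreducible (P j) ∧ M / p / 4 < (P j).natDegree ∧
        (P j).natDegree + tt p M ≤ M / p / 3 := by
  constructor
  · intro i j e
    by_contra h
    obtain ⟨-, -, a3, a4, -⟩ := xposa_mem hp hr hP i
    obtain ⟨-, -, b3, b4, -⟩ := xposa_mem hp hr hP j
    rw [e] at a3 a4
    rcases lt_or_gt_of_ne (fun e' => h (Fin.ext e') : (i : ℕ) ≠ j) with hl | hl
    · have : (i + 2) * tt p M ≤ (j + 1) * tt p M := Nat.mul_le_mul_right _ (by omega)
      omega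
    · have : (j + 2) * tt p M ≤ (i + 1) * tt p M := Nat.mul_le_mul_right _ (by omega)
      omega
  · intro j
    obtain ⟨a1, a2, a3, a4, a5⟩ := xposa_mem hp hr hP j
    have h7 := xwin1_tt (M := M) hp
    have h8 := xwin1_pt (M := M) hp
    rw [mul_assoc] at h7
    have h6 : tt p M ≤ (j + 1) * tt p M := Nat.le_mul_of_pos_left _ (Nat.succ_pos _)
    exact ⟨a1, a2, by omega, by omega⟩

theorem mem_lastW (hp : 3 ≤ p) (hM : 100 ≤ tt p M) (hK : 4 ≤ K) {P : Fin (3 * p - 4) → F[X]}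
    (hP : P ∈ T3 F p M (3 * p - 4)) :
    M / p / 3 + 3 * yy K p M + (∏ j, P j).natDegree ≤ M - M / p ∧
      M - M / p ≤ M / p / 2 + (∏ j, P j).natDegree := by
  rw [natDegree_prod_of_monic _ _ fun j _ => (xposa_mem hp le_rfl hP j).1]
  have hc : ∀ b : ℕ, ∑ _j : Fin (3 * p - 4), b = (3 * p - 4) * b := fun b => by simp
  have hy := xposa_y (p := p) (M := M) hK
  have h7 := xwin1_tt (M := M) hp
  have h8 := xwin1_pt (M := M) hp
  rw [mul_assoc] at h7
  have hpl : p * (M / p) ≤ M := Nat.mul_div_le M p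
  have h4 := xwin1_lt (M := M) hp
  obtain ⟨n, hn⟩ : ∃ n, p = n + 3 := ⟨p - 3, by omega⟩
  have hr : 3 * p - 4 = 3 * n + 5 := by omega
  have e1 : p * (M / p) = n * (M / p) + 3 * (M / p) := by
    generalize M / p = l
    rw [hn]; ring
  constructor
  · have h1 : ∑ j : Fin (3 * p - 4), ((P j).natDegree + tt p M) ≤
        ∑ _j : Fin (3 * p - 4), M / p / 3 :=
      sum_le_sum fun j _ => ((mem_T3 hp hM le_rfl hP).2 j).2.2.2
    rw [hc, sum_add_distrib, hc] at h1
    have h2 : 5 * tt p M ≤ (3 * p - 4) * tt p M := Nat.mul_le_mul_right _ (by omega)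
    have h3 : (3 * p - 4) * (M / p / 3) = n * (3 * (M / p / 3)) + 5 * (M / p / 3) := by
      rw [hr]; ring
    have h5 : n * (3 * (M / p / 3)) ≤ n * (M / p) := Nat.mul_le_mul_left _ (by omega)
    omega
  · have h1 : ∑ _j : Fin (3 * p - 4), (M / p / 3 + 1) ≤
        ∑ j : Fin (3 * p - 4), ((P j).natDegree + 3 * (p * tt p M)) := sum_le_sum fun j _ => by
      obtain ⟨-, -, a3, -, a5⟩ := xposa_mem hp le_rfl hP j
      omega
    rw [hc, sum_add_distrib, hc] at h1
    have h3 : (3 * p - 4) * (M / p / 3 + 1) =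
        n * (3 * (M / p / 3 + 1)) + 5 * (M / p / 3 + 1) := by
      rw [hr]; ring
    have h5 : n * (M / p + 1) ≤ n * (3 * (M / p / 3 + 1)) := Nat.mul_le_mul_left _ (by omega)
    have h6 : (3 * p - 4) * (3 * (p * tt p M)) ≤ 9 * (p ^ 2 * tt p M) :=
      calc (3 * p - 4) * (3 * (p * tt p M)) ≤ (3 * p) * (3 * (p * tt p M)) :=
            Nat.mul_le_mul_right _ (by omega)
        _ = 9 * (p ^ 2 * tt p M) := by ring
    have e2 : p * (M / p + 1) = n * (M / p + 1) + 3 * (M / p + 1) := by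
      generalize M / p + 1 = l
      rw [hn]; ring
    omega

theorem xposa_count (hp : 3 ≤ p) {W : F[X]} (h0 : W ≠ 0) (hW : W.natDegree = M)
    (S : Finset F[X]) (hS : ∀ R ∈ S, R.Monic ∧ Irreducible R ∧ M / p / 4 < R.natDegree) :
    ∑ R ∈ S, ind (R ∣ W) ≤ (4 * p : ℝ) := by
  have h1 := card_prime_dvd S h0 hS
  have h4 := xwin1_lt (M := M) hp
  have h2 : p * (M / p + 1) ≤ (M / p / 4 + 1) * (4 * p) := by
    rw [mul_comm p, ← mul_assoc]
    exact Nat.mul_le_mul_right _ (by omega)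
  have h3 : (W.natDegree : ℝ) ≤ (((M / p / 4 : ℕ) : ℝ) + 1) * (4 * p) := by
    rw [hW]
    exact_mod_cast h4.le.trans h2
  have h5 : (0 : ℝ) < ((M / p / 4 : ℕ) : ℝ) + 1 := by positivity
  exact le_of_mul_le_mul_left (h1.trans h3) h5

theorem xposa_last (hp : 3 ≤ p) (hM : 100 ≤ tt p M) (hK : 4 ≤ K) {P : Fin (3 * p - 4) → F[X]}
    (hP : P ∈ T3 F p M (3 * p - 4)) {R : F[X]} (hR : R ∈ lastW F K p M (∏ j, P j).natDegree) :
    R.Monic ∧ Irreducible R ∧ M / p / 3 < R.natDegree ∧ R.natDegree ≤ M / p / 2 ∧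
      M < M / p + 3 * yy K p M + (∏ j, P j).natDegree + R.natDegree := by
  obtain ⟨h1, h2, h3, h4⟩ := mem_prmI.1 hR
  obtain ⟨h5, h6⟩ := mem_lastW hp hM hK hP
  exact ⟨h1, h2, by omega, by omega, by omega⟩

theorem xposa_lhs (hp : 3 ≤ p) (hM : 100 ≤ tt p M) (hK : 4 ≤ K) {W : F[X]} (h0 : W ≠ 0)
    (hW : W.natDegree = M) :
    ∑ P ∈ T3 F p M (3 * p - 4), ∑ R ∈ lastW F K p M (∏ j, P j).natDegree,
        ind ((∏ j, P j) * R ∣ W) ≤ (4 * p : ℝ) ^ (3 * p) := by
  have hp' : (1 : ℝ) ≤ 4 * p := by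
    have : (3 : ℝ) ≤ p := by exact_mod_cast hp
    linarith
  have h7 := xwin1_tt (M := M) hp
  have h8 := xwin1_pt (M := M) hp
  rw [mul_assoc] at h7
  calc ∑ P ∈ T3 F p M (3 * p - 4), ∑ R ∈ lastW F K p M (∏ j, P j).natDegree,
        ind ((∏ j, P j) * R ∣ W)
      ≤ ∑ P ∈ T3 F p M (3 * p - 4), (∏ j, ind (P j ∣ W)) * (4 * p : ℝ) :=
        sum_le_sum fun P hP => by
          have hn : 0 ≤ ∏ j, ind (P j ∣ W) := prod_nonneg fun j _ => ind_nonneg _
          refine le_trans ?_ (mul_le_mul_of_nonneg_left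
            (xposa_count hp h0 hW (lastW F K p M (∏ j, P j).natDegree) fun R hR => ?_) hn)
          · rw [mul_sum]
            refine sum_le_sum fun R _ => ?_
            by_cases h : (∏ j, P j) * R ∣ W
            · rw [ind_pos h, prod_eq_one fun j _ => ind_pos
                ((dvd_prod_of_mem P (mem_univ j)).trans ((dvd_mul_right _ _).trans h)),
                ind_pos ((dvd_mul_left _ _).trans h), mul_one]
            · rw [ind_neg h]
              exact mul_nonneg hn (ind_nonneg _)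
          · obtain ⟨a1, a2, a3, -⟩ := xposa_last hp hM hK hP hR
            exact ⟨a1, a2, by omega⟩
    _ = (∏ j : Fin (3 * p - 4), ∑ R ∈ prmI F (M / p / 3 - (j + 2) * tt p M)
          (M / p / 3 - (j + 1) * tt p M), ind (R ∣ W)) * (4 * p : ℝ) := by
        rw [← sum_mul, prod_univ_sum]
        rfl
    _ ≤ (∏ _j : Fin (3 * p - 4), (4 * p : ℝ)) * (4 * p : ℝ) := by
        refine mul_le_mul_of_nonneg_right (prod_le_prod
          (fun j _ => sum_nonneg fun R _ => ind_nonneg _) fun j _ =>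
            xposa_count hp h0 hW _ fun R hR => ?_) (by linarith)
        obtain ⟨h1, h2, h3, -⟩ := mem_prmI.1 hR
        have hj := j.2
        have h5 : (j + 2) * tt p M ≤ 3 * (p * tt p M) := by
          rw [← mul_assoc]
          exact Nat.mul_le_mul_right _ (by omega)
        exact ⟨h1, h2, by omega⟩
    _ = (4 * p : ℝ) ^ (3 * p - 4 + 1) := by simp [pow_succ]
    _ ≤ (4 * p : ℝ) ^ (3 * p) := pow_le_pow_right₀ hp' (by omega)

omit [Fintype F] in
theorem xposa_deg {S R : F[X]} (hS : Irreducible S) (hR : Irreducible R) (h : S ∣ R) :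
    R.natDegree ≤ S.natDegree :=
  natDegree_le_of_dvd (hS.associated_of_dvd hR h).symm.dvd hS.ne_zero

theorem xposa_one (hp : 3 ≤ p) (hM : 100 ≤ tt p M) (hK : 4 ≤ K) {W : F[X]} (h0 : W ≠ 0)
    (hW : W.natDegree = M) {P : Fin (3 * p - 4) → F[X]} (hP : P ∈ T3 F p M (3 * p - 4))
    {R : F[X]} (hR : R ∈ lastW F K p M (∏ j, P j).natDegree) (hd : (∏ j, P j) * R ∣ W) :
    GoodS (SI p) (tt p M) (M / p - yy K p M) W ∨
      ∃ P' ∈ T3 F p M (3 * p - 7), ∃ R' ∈ bigW F K p M,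
        (∏ j, P' j) * R' ∣ W ∧ ∀ S ∈ prmI F (4 * yy K p M) (tt p M), ¬ S ∣ W := by
  classical
  obtain ⟨W', e⟩ := hd
  have h0' : W' ≠ 0 := fun h => h0 (by rw [e, h, mul_zero])
  have hl : W'.leadingCoeff ≠ 0 := leadingCoeff_ne_zero.2 h0'
  obtain ⟨c, hc, ec, hcd⟩ : ∃ c : F[X], c.Monic ∧ W' = C W'.leadingCoeff * c ∧
      c.natDegree = W'.natDegree := by
    refine ⟨W' * C W'.leadingCoeff⁻¹, monic_mul_leadingCoeff_inv h0', ?_,
      natDegree_mul_leadingCoeff_inv _ h0'⟩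
    rw [mul_left_comm, ← C_mul, mul_inv_cancel₀ hl, C_1, mul_one]
  obtain ⟨hinj, hPj⟩ := mem_T3 hp hM le_rfl hP
  obtain ⟨r1, r2, r3, r4, r5⟩ := xposa_last hp hM hK hP hR
  have hm : (∏ j, P j).Monic := monic_prod_of_monic _ _ fun j _ => (hPj j).1
  have hdeg : (∏ j, P j).natDegree + R.natDegree + c.natDegree = M := by
    rw [← hW, e, natDegree_mul (hm.mul r1).ne_zero h0', hm.natDegree_mul r1, hcd]
  have hy := xposa_y (p := p) (M := M) hK
  have h7 := xwin1_tt (M := M) hp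
  have h8 := xwin1_pt (M := M) hp
  rw [mul_assoc] at h7
  have hcop : ∀ i j, i ≠ j → IsCoprime (P i) (P j) := fun i j h =>
    xwin1_coprime (hPj i).1 (hPj i).2.1 (hPj j).1 (hPj j).2.1 fun e => h (hinj e)
  by_cases hA : ∃ R' : F[X], R'.Monic ∧ Irreducible R' ∧ R' ∣ c ∧
      M / p - yy K p M < R'.natDegree
  · obtain ⟨R', s1, s2, ⟨d, ed⟩, s4⟩ := hA
    have md : d.Monic := s1.of_mul_monic_left (ed ▸ hc)
    have hdd : c.natDegree = R'.natDegree + d.natDegree := by rw [ed, s1.natDegree_mul md]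
    have hle : 3 * p - 7 ≤ 3 * p - 4 := by omega
    refine Or.inr ⟨fun j => P (Fin.castLE hle j), Fintype.mem_piFinset.2 fun j =>
      Fintype.mem_piFinset.1 hP (Fin.castLE hle j), R', mem_prmI.2 ⟨s1, s2, s4, by omega⟩,
      ?_, fun S hS hSW => ?_⟩
    · have h1 : (∏ j : Fin (3 * p - 7), P (Fin.castLE hle j)) ∣ ∏ j, P j := by
        have h2 := prod_dvd_prod_of_subset (univ.map (Fin.castLEEmb hle)) univ P (subset_univ _)
        rwa [prod_map] at h2
      rw [e, mul_assoc]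
      refine mul_dvd_mul h1 (Dvd.dvd.mul_left ?_ _)
      rw [ec, ed]
      exact Dvd.dvd.mul_left (dvd_mul_right _ _) _
    · obtain ⟨t1, t2, t3, t4⟩ := mem_prmI.1 hS
      have hpr := t2.prime
      rw [e] at hSW
      rcases hpr.dvd_or_dvd hSW with h | h
      · rcases hpr.dvd_or_dvd h with h | h
        · obtain ⟨j, -, hj⟩ := (Prime.dvd_finsetProd_iff hpr _).1 h
          have h1 := xposa_deg t2 (hPj j).2.1 hj
          have h2 := (hPj j).2.2.1
          omega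
        · have h1 := xposa_deg t2 r2 h
          omega
      · rw [ec] at h
        rcases hpr.dvd_or_dvd h with h | h
        · exact t2.not_isUnit (isUnit_of_dvd_unit h (isUnit_C.2 hl.isUnit))
        · rw [ed] at h
          rcases hpr.dvd_or_dvd h with h | h
          · have h1 := xposa_deg t2 s2 h
            omega
          · have h1 := natDegree_le_of_dvd h md.ne_zero
            omega
  · have hs : ∀ R' : F[X], Irreducible R' → R' ∣ c → R'.natDegree ≤ M / p - yy K p M := by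
      intro R' s1 s2
      obtain ⟨S, t1, t2, t3⟩ := exists_monic_irreducible_factor R' s1.not_isUnit
      have h1 := xposa_deg t2 s1 t3
      by_contra h
      exact hA ⟨S, t1, t2, t3.trans s2, by omega⟩
    obtain ⟨c₁, c₂, m1, m2, e12, d1, d2⟩ :=
      split_two hc (lo := 4 * yy K p M) (by omega) (by omega) hs
    obtain ⟨j₀, hj₀⟩ : ∃ j₀, ¬ P j₀ ∣ c := by
      by_contra h
      push Not at h
      have h1 := natDegree_le_of_dvd
        (prod_dvd_of_coprime (fun i _ j _ hij => hcop i j hij) fun j (_ : j ∈ univ) => h j)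
        hc.ne_zero
      have h2 := (mem_lastW hp hM hK hP).2
      have hpl : p * (M / p) ≤ M := Nat.mul_div_le M p
      have h3 : 3 * (M / p) ≤ p * (M / p) := Nat.mul_le_mul_right _ hp
      omega
    obtain ⟨a1, a2, a3, a4⟩ := hPj j₀
    refine Or.inl ⟨W'.leadingCoeff, P j₀, Sum.elim (fun j => if j = j₀ then 1 else P j)
      ![R, c₁, c₂], hl, a1, a2, ?_, by omega, by omega, ?_⟩
    · rw [Fintype.prod_sum_type, Fin.prod_univ_three]
      simp only [Sum.elim_inl, Sum.elim_inr, Matrix.cons_val_zero, Matrix.cons_val_one,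
        Matrix.cons_val]
      have e1 : ∏ j, P j = P j₀ * ∏ j, (if j = j₀ then 1 else P j) := by
        have : P j₀ = ∏ j, (if j = j₀ then P j else 1) := by simp
        rw [this, ← prod_mul_distrib]
        refine prod_congr rfl fun j _ => ?_
        split_ifs <;> simp
      rw [e, e1]
      conv_lhs => rw [ec, e12]
      ring
    · rintro (j | b)
      · simp only [Sum.elim_inl]
        split_ifs with hj
        · exact ⟨monic_one, by simp, fun h => a2.not_isUnit (isUnit_of_dvd_one h)⟩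
        · have h1 := (hPj j).2.2.2
          exact ⟨(hPj j).1, by omega, a2.coprime_iff_not_dvd.1 (hcop _ _ (Ne.symm hj))⟩
      · have k0 : R.Monic ∧ R.natDegree ≤ M / p - yy K p M ∧ ¬ P j₀ ∣ R :=
          ⟨r1, by omega, fun h => by have h1 := xposa_deg a2 r2 h; omega⟩
        have k1 : c₁.Monic ∧ c₁.natDegree ≤ M / p - yy K p M ∧ ¬ P j₀ ∣ c₁ :=
          ⟨m1, d1, fun h => hj₀ (e12 ▸ dvd_mul_of_dvd_left h _)⟩
        have k2 : c₂.Monic ∧ c₂.natDegree ≤ M / p - yy K p M ∧ ¬ P j₀ ∣ c₂ :=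
          ⟨m2, d2, fun h => hj₀ (e12 ▸ dvd_mul_of_dvd_right h _)⟩
        fin_cases b
        · exact k0
        · exact k1
        · exact k2

theorem raw_le (hp : 3 ≤ p) (hM : 100 ≤ tt p M) (hK : 4 ≤ K) {W : F[X]} (h0 : W ≠ 0)
    (hW : W.natDegree = M) :
    ∑ P ∈ T3 F p M (3 * p - 4), ∑ R ∈ lastW F K p M (∏ j, P j).natDegree,
        ind ((∏ j, P j) * R ∣ W) ≤
      (4 * p : ℝ) ^ (3 * p) * (ind (GoodS (SI p) (tt p M) (M / p - yy K p M) W) +
        ∑ P ∈ T3 F p M (3 * p - 7), ∑ R ∈ bigW F K p M,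
          ind ((∏ j, P j) * R ∣ W ∧ ∀ S ∈ prmI F (4 * yy K p M) (tt p M), ¬ S ∣ W)) := by
  have hp' : (0 : ℝ) ≤ (4 * p) ^ (3 * p) := by positivity
  have hn : 0 ≤ ∑ P ∈ T3 F p M (3 * p - 7), ∑ R ∈ bigW F K p M,
      ind ((∏ j, P j) * R ∣ W ∧ ∀ S ∈ prmI F (4 * yy K p M) (tt p M), ¬ S ∣ W) :=
    sum_nonneg fun P _ => sum_nonneg fun R _ => ind_nonneg _
  have hg := ind_nonneg (GoodS (SI p) (tt p M) (M / p - yy K p M) W)
  by_cases hz : ∃ P ∈ T3 F p M (3 * p - 4), ∃ R ∈ lastW F K p M (∏ j, P j).natDegree,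
      (∏ j, P j) * R ∣ W
  · obtain ⟨P, hP, R, hR, hd⟩ := hz
    refine (xposa_lhs hp hM hK h0 hW).trans (le_mul_of_one_le_right hp' ?_)
    rcases xposa_one hp hM hK h0 hW hP hR hd with h | ⟨P', hP', R', hR', h⟩
    · rw [ind_pos h]
      linarith
    · have h1 : (1 : ℝ) ≤ ∑ R ∈ bigW F K p M,
          ind ((∏ j, P' j) * R ∣ W ∧ ∀ S ∈ prmI F (4 * yy K p M) (tt p M), ¬ S ∣ W) := by
        rw [← ind_pos h]
        exact single_le_sum (f := fun R => ind ((∏ j, P' j) * R ∣ W ∧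
          ∀ S ∈ prmI F (4 * yy K p M) (tt p M), ¬ S ∣ W)) (fun R _ => ind_nonneg _) hR'
      have h2 := single_le_sum (f := fun P : Fin (3 * p - 7) → F[X] => ∑ R ∈ bigW F K p M,
          ind ((∏ j, P j) * R ∣ W ∧ ∀ S ∈ prmI F (4 * yy K p M) (tt p M), ¬ S ∣ W))
        (fun P _ => sum_nonneg fun R _ => ind_nonneg _) hP'
      linarith
  · rw [sum_eq_zero fun P hP => sum_eq_zero fun R hR => ind_neg fun h => hz ⟨P, hP, R, hR, h⟩]
    exact mul_nonneg hp' (add_nonneg hg hn)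

end Pool.Agent.MP_4fffd4_nt.Odd

end

section

/- The windows for smooth polynomials: mean values. -/

set_option autoImplicit false

namespace Pool.Agent.MP_4fffd4_nt.Odd

open Polynomial Finset Filter Topology
open scoped BigOperators

variable {F : Type*} [Field F] [Fintype F] {K p M : ℕ}

theorem xposb_eq (a b : ℕ) : LL F a b =
    ∑ d ∈ Ioc a b, ((prm F d).card : ℝ) / (Fintype.card F : ℝ) ^ d := by
  rw [LL, sum_prmI]
  refine sum_congr rfl fun d _ => ?_
  rw [sum_congr rfl fun R hR => by rw [(mem_prm.1 hR).2.2], sum_const, nsmul_eq_mul, mul_one_div]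

theorem xposb_nonneg (a b : ℕ) : 0 ≤ LL F a b :=
  sum_nonneg fun _ _ => by positivity

theorem xposb_add {a b c : ℕ} (h1 : a ≤ b) (h2 : b ≤ c) : LL F a c = LL F a b + LL F b c := by
  rw [xposb_eq, xposb_eq, xposb_eq, sum_Ioc_consecutive _ h1 h2]

theorem xposb_mono {a b c : ℕ} (h1 : a ≤ b) (h2 : b ≤ c) : LL F a b ≤ LL F a c := by
  rw [xposb_add h1 h2]
  exact le_add_of_nonneg_right (xposb_nonneg _ _)

theorem LL_ge : ∀ᶠ a : ℕ in atTop, ∀ b : ℕ, a ≤ b → ((b : ℝ) - a) / (2 * b) ≤ LL F a b := by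
  obtain ⟨d₀, hd₀⟩ := eventually_atTop.1 (card_prm_ge (F := F))
  filter_upwards [eventually_ge_atTop (d₀ + 1)] with a ha b hb
  have hq := card_pos' (F := F)
  have hb0 : (0 : ℝ) < b := by exact_mod_cast (by omega : 0 < b)
  rw [xposb_eq]
  refine le_trans ?_ (card_nsmul_le_sum _ _ (1 / (2 * (b : ℝ))) fun d hd => ?_)
  · rw [Nat.card_Ioc, nsmul_eq_mul, Nat.cast_sub hb, mul_one_div]
  · rw [mem_Ioc] at hd
    have h1 : (Fintype.card F : ℝ) ^ d ≤ 2 * d * (prm F d).card := by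
      exact_mod_cast hd₀ d (by omega)
    have h2 : (d : ℝ) ≤ b := by exact_mod_cast hd.2
    rw [div_le_div_iff₀ (by positivity) (by positivity), one_mul]
    refine h1.trans ?_
    rw [mul_comm]
    gcongr

theorem LL_le (a b : ℕ) : LL F a b ≤ ((b - a : ℕ) : ℝ) / (a + 1) := by
  have hq := card_pos' (F := F)
  rw [xposb_eq]
  refine (sum_le_card_nsmul _ _ (1 / ((a : ℝ) + 1)) fun d hd => ?_).trans_eq ?_
  · rw [mem_Ioc] at hd
    have h1 : (d : ℝ) * (prm F d).card ≤ (Fintype.card F : ℝ) ^ d := by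
      exact_mod_cast card_prm_le (F := F) (d := d) (by omega)
    have h2 : (a : ℝ) + 1 ≤ d := by exact_mod_cast hd.1
    rw [div_le_div_iff₀ (by positivity) (by positivity), one_mul]
    refine le_trans ?_ h1
    rw [mul_comm]
    gcongr
  · rw [Nat.card_Ioc, nsmul_eq_mul, mul_one_div]

/-- harmonic lower bound along multiples of `y` -/
theorem xposb_harm : ∀ᶠ a : ℕ in atTop, ∀ y c : ℕ, 1 ≤ y → a ≤ c * y → ∀ k : ℕ, c ≤ k →
    (∑ i ∈ range k, (1 / ((i : ℝ) + 1)) - ∑ i ∈ range c, (1 / ((i : ℝ) + 1))) / 2 ≤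
      LL F (c * y) (k * y) := by
  obtain ⟨a₀, ha₀⟩ := eventually_atTop.1 (LL_ge (F := F))
  filter_upwards [eventually_ge_atTop a₀] with a ha y c hy hc k hk
  induction k, hk using Nat.le_induction with
  | base => rw [sub_self, zero_div]; exact xposb_nonneg _ _
  | succ k hk ih =>
    have h1 : c * y ≤ k * y := Nat.mul_le_mul_right _ hk
    have h2 : k * y ≤ (k + 1) * y := Nat.mul_le_mul_right _ (Nat.le_succ k)
    have h3 := ha₀ (k * y) (by omega) _ h2
    have hy' : (0 : ℝ) < y := by exact_mod_cast hy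
    have h4 : ((((k + 1) * y : ℕ) : ℝ) - (k * y : ℕ)) / (2 * ((k + 1) * y : ℕ)) =
        1 / ((k : ℝ) + 1) / 2 := by
      push_cast
      field_simp
      ring
    rw [xposb_add h1 h2, sum_range_succ]
    rw [h4] at h3
    linarith

theorem LL_top (a : ℕ) : Tendsto (LL F a) atTop atTop := by
  obtain ⟨c, hc, hac⟩ := ((xposb_harm (F := F)).and (eventually_ge_atTop a)).exists
  have h0 := (tendsto_atTop_add_const_right _ (-∑ i ∈ range c, (1 / ((i : ℝ) + 1)))
    Real.tendsto_sum_range_one_div_nat_succ_atTop).atTop_div_const (two_pos (α := ℝ))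
  refine tendsto_atTop_mono' _ ?_ h0
  filter_upwards [eventually_ge_atTop c] with k hk
  have h1 := hc 1 c le_rfl (by omega) k hk
  rw [mul_one, mul_one] at h1
  rw [xposb_add hac hk, ← sub_eq_add_neg]
  have := xposb_nonneg (F := F) a c
  linarith

theorem yy_top (hp : 3 ≤ p) (hK : 0 < K) : Tendsto (yy K p) atTop atTop :=
  (Nat.tendsto_div_const_atTop hK.ne').comp (xwin2_top hp)

theorem xposb_win (hp : 3 ≤ p) : ∀ᶠ M in atTop, ∀ j : ℕ, j + 2 ≤ 3 * p →
    1 / (400 * (p : ℝ) ^ 2) ≤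
        LL F (M / p / 3 - (j + 2) * tt p M) (M / p / 3 - (j + 1) * tt p M) ∧
      LL F (M / p / 3 - (j + 2) * tt p M) (M / p / 3 - (j + 1) * tt p M) ≤ 1 := by
  obtain ⟨a₀, ha₀⟩ := eventually_atTop.1 (LL_ge (F := F))
  filter_upwards [(xwin2_top hp).eventually_ge_atTop (a₀ + 1)] with M hM j hj
  obtain ⟨h1, h2⟩ := xwin2_t hp M
  have h3 : (j + 2) * tt p M ≤ 3 * p * tt p M := Nat.mul_le_mul_right _ hj
  have h4 : (j + 2) * tt p M = (j + 1) * tt p M + tt p M := by ring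
  have h5 : (9 * p + 6) * tt p M ≤ 100 * p ^ 2 * tt p M :=
    Nat.mul_le_mul_right _ (by nlinarith)
  have h6 : (9 * p + 6) * tt p M = 3 * (3 * p * tt p M) + 6 * tt p M := by ring
  set t := tt p M
  set l := M / p
  have e : l / 3 - (j + 1) * t = (l / 3 - (j + 2) * t) + t := by omega
  have ha : t ≤ l / 3 - (j + 2) * t := by omega
  have hb : 2 * (l / 3 - (j + 2) * t + t) ≤ 100 * p ^ 2 * (t + 1) := by omega
  rw [e]
  generalize l / 3 - (j + 2) * t = a at ha hb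
  have ht : (1 : ℝ) ≤ t := by exact_mod_cast (by omega : 1 ≤ t)
  have hp' : (0 : ℝ) < p := by exact_mod_cast (by omega : 0 < p)
  have ha' : (t : ℝ) ≤ a := by exact_mod_cast ha
  have hb' : 2 * ((a : ℝ) + t) ≤ 100 * p ^ 2 * (t + 1) := by exact_mod_cast hb
  constructor
  · refine le_trans ?_ (ha₀ a (by omega) _ (Nat.le_add_right _ _))
    push_cast
    rw [div_le_div_iff₀ (by positivity) (by linarith), add_sub_cancel_left]
    nlinarith [sq_nonneg (p : ℝ)]
  · refine (LL_le _ _).trans ?_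
    rw [Nat.add_sub_cancel_left, div_le_one (by positivity)]
    linarith

theorem xposb_mon {r : ℕ} {P : Fin r → F[X]} (hP : P ∈ T3 F p M r) (j : Fin r) : (P j).Monic :=
  (mem_prmI.1 (Fintype.mem_piFinset.1 hP j)).1

theorem xposb_T3 (hp : 3 ≤ p) : ∀ᶠ M in atTop, ∀ r : ℕ, r ≤ 3 * p - 4 →
    (1 / (400 * (p : ℝ) ^ 2)) ^ r ≤
        ∑ P ∈ T3 F p M r, 1 / (Fintype.card F : ℝ) ^ (∏ j, P j).natDegree ∧
      ∑ P ∈ T3 F p M r, 1 / (Fintype.card F : ℝ) ^ (∏ j, P j).natDegree ≤ 1 := by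
  filter_upwards [xposb_win (F := F) hp] with M hM r hr
  have hq := card_pos' (F := F)
  have e : ∑ P ∈ T3 F p M r, 1 / (Fintype.card F : ℝ) ^ (∏ j, P j).natDegree =
      ∏ j : Fin r, LL F (M / p / 3 - (j + 2) * tt p M) (M / p / 3 - (j + 1) * tt p M) := by
    simp only [LL]
    rw [prod_univ_sum]
    refine sum_congr rfl fun P hP => ?_
    rw [natDegree_prod_of_monic _ _ fun j _ => xposb_mon hP j, ← prod_pow_eq_pow_sum,
      prod_div_distrib, prod_const_one]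
  have h : ∀ j : Fin r, (j : ℕ) + 2 ≤ 3 * p := fun j => by
    have := j.2
    omega
  rw [e]
  constructor
  · refine le_trans (le_of_eq ?_) (prod_le_prod (f := fun _ => 1 / (400 * (p : ℝ) ^ 2))
      (fun _ _ => by positivity) fun j _ => (hM j (h j)).1)
    rw [prod_const, card_univ, Fintype.card_fin]
  · exact prod_le_one (fun j _ => xposb_nonneg _ _) fun j _ => (hM j (h j)).2

theorem xposb_split {G : F[X]} (hG : G.Monic) (a b : ℕ) :
    ∑ R ∈ prmI F a b, 1 / (Fintype.card F : ℝ) ^ (G * R).natDegree =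
      1 / (Fintype.card F : ℝ) ^ G.natDegree * LL F a b := by
  rw [LL, mul_sum]
  refine sum_congr rfl fun R hR => ?_
  rw [hG.natDegree_mul (mem_prmI.1 hR).1, pow_add, one_div_mul_one_div]

theorem xposb_y (hK : 0 < K) (p M : ℕ) :
    K * yy K p M ≤ tt p M ∧ tt p M < K * (yy K p M + 1) :=
  ⟨Nat.mul_div_le _ _, Nat.lt_mul_div_succ _ hK⟩

theorem main_ge (hp : 3 ≤ p) (hK : 4 ≤ K) : ∀ᶠ M in atTop,
    (1 / (400 * (p : ℝ) ^ 2)) ^ (3 * p) / K ≤
      ∑ P ∈ T3 F p M (3 * p - 4), ∑ R ∈ lastW F K p M (∏ j, P j).natDegree,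
        1 / (Fintype.card F : ℝ) ^ ((∏ j, P j) * R).natDegree := by
  obtain ⟨a₀, ha₀⟩ := eventually_atTop.1 (LL_ge (F := F))
  filter_upwards [xposb_T3 (F := F) hp, (xwin2_top hp).eventually_ge_atTop (a₀ + 100),
    (yy_top hp (by omega : 0 < K)).eventually_ge_atTop 1] with M hT hM hy
  have hq := card_pos' (F := F)
  have hp' : (3 : ℝ) ≤ p := by exact_mod_cast hp
  have hK' : (4 : ℝ) ≤ K := by exact_mod_cast hK
  obtain ⟨h1, h2⟩ := xwin2_t hp M
  obtain ⟨-, h4⟩ := xposb_y (by omega : 0 < K) p M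
  have h5 : 6 * tt p M ≤ 100 * p ^ 2 * tt p M := Nat.mul_le_mul_right _ (by nlinarith)
  have h6 : M / p ≤ 100 * p ^ 2 * (K * (2 * yy K p M)) :=
    h2.le.trans (Nat.mul_le_mul_left _ (le_trans h4 (Nat.mul_le_mul_left _ (by omega))))
  have key : ∀ P ∈ T3 F p M (3 * p - 4),
      1 / (Fintype.card F : ℝ) ^ (∏ j, P j).natDegree * (1 / (400 * (p : ℝ) ^ 2) / K) ≤
        ∑ R ∈ lastW F K p M (∏ j, P j).natDegree,
          1 / (Fintype.card F : ℝ) ^ ((∏ j, P j) * R).natDegree := by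
    intro P hP
    obtain ⟨h7, h8⟩ := mem_lastW hp (by omega) hK hP
    rw [lastW, xposb_split (monic_prod_of_monic _ _ fun j _ => xposb_mon hP j)]
    refine mul_le_mul_of_nonneg_left ?_ (by positivity)
    generalize (∏ j, P j).natDegree = S at h7 h8
    have e : M - M / p - 2 * yy K p M - S = (M - M / p - 3 * yy K p M - S) + yy K p M := by omega
    have ha : a₀ + 1 ≤ M - M / p - 3 * yy K p M - S := by omega
    have hb : 2 * (M - M / p - 3 * yy K p M - S + yy K p M) ≤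
      100 * p ^ 2 * (K * (2 * yy K p M)) := by omega
    rw [e]
    generalize M - M / p - 3 * yy K p M - S = a at ha hb
    generalize yy K p M = y at hb hy
    have hy' : (1 : ℝ) ≤ y := by exact_mod_cast hy
    have hb' : 2 * ((a : ℝ) + y) ≤ 100 * p ^ 2 * (K * (2 * y)) := by exact_mod_cast hb
    refine le_trans ?_ (ha₀ a (by omega) _ (Nat.le_add_right _ _))
    push_cast
    rw [div_div, div_le_div_iff₀ (by positivity) (by positivity), add_sub_cancel_left]
    have : (0 : ℝ) ≤ p ^ 2 * K * y := by positivity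
    nlinarith
  refine le_trans ?_ (sum_le_sum key)
  rw [← sum_mul]
  refine le_trans ?_ (mul_le_mul_of_nonneg_right (hT _ le_rfl).1 (by positivity))
  rw [← mul_div_assoc, ← pow_succ]
  refine div_le_div_of_nonneg_right ?_ (by positivity)
  refine pow_le_pow_of_le_one (by positivity) ?_ (by omega)
  rw [div_le_one (by positivity)]
  nlinarith

theorem bad_le (hp : 3 ≤ p) (hK : 4 ≤ K) : ∀ᶠ M in atTop,
    ∑ P ∈ T3 F p M (3 * p - 7), ∑ R ∈ bigW F K p M,
        1 / (Fintype.card F : ℝ) ^ ((∏ j, P j) * R).natDegree ≤ 1 / K := by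
  filter_upwards [xposb_T3 (F := F) hp] with M hT
  have hK' : (4 : ℝ) ≤ K := by exact_mod_cast hK
  obtain ⟨h1, -⟩ := xwin2_t hp M
  obtain ⟨h3, -⟩ := xposb_y (by omega : 0 < K) p M
  have h5 : 6 * tt p M ≤ 100 * p ^ 2 * tt p M := Nat.mul_le_mul_right _ (by nlinarith)
  have h6 : 1 * yy K p M ≤ K * yy K p M := Nat.mul_le_mul_right _ (by omega)
  rw [sum_congr rfl fun P hP => by
    rw [bigW, xposb_split (monic_prod_of_monic _ _ fun j _ => xposb_mon hP j)], ← sum_mul]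
  refine (mul_le_of_le_one_left (xposb_nonneg _ _) (hT _ (by omega)).2).trans
    ((LL_le _ _).trans ?_)
  have e : M / p + 3 * yy K p M - (M / p - yy K p M) = 4 * yy K p M := by omega
  have hb : 4 * (K * yy K p M) ≤ M / p - yy K p M := by omega
  rw [e]
  generalize M / p - yy K p M = a at hb
  have hb' : 4 * ((K : ℝ) * yy K p M) ≤ a := by exact_mod_cast hb
  rw [div_le_div_iff₀ (by positivity) (by positivity)]
  push_cast
  linarith

theorem LL_big (hp : 3 ≤ p) (A : ℝ) :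
    ∃ K, 4 ≤ K ∧ ∀ᶠ M in atTop, A ≤ LL F (4 * yy K p M) (tt p M) := by
  obtain ⟨c, hc⟩ := (xposb_harm (F := F)).exists
  have h0 := (tendsto_atTop_add_const_right _ (-∑ i ∈ range 4, (1 / ((i : ℝ) + 1)))
    Real.tendsto_sum_range_one_div_nat_succ_atTop).atTop_div_const (two_pos (α := ℝ))
  obtain ⟨K, hK, hA⟩ := ((eventually_ge_atTop 4).and (h0.eventually_ge_atTop A)).exists
  refine ⟨K, hK, ?_⟩
  filter_upwards [(yy_top hp (by omega : 0 < K)).eventually_ge_atTop (c + 1)] with M hy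
  have h1 := hc (yy K p M) 4 (by omega) (by omega) K hK
  rw [← sub_eq_add_neg] at hA
  exact hA.trans (h1.trans (xposb_mono (Nat.mul_le_mul_right _ hK)
    (xposb_y (by omega : 0 < K) p M).1))

end Pool.Agent.MP_4fffd4_nt.Odd

end

section

/- The inequality of Turan and Kubilius with a modulus. -/

set_option autoImplicit false

namespace Pool.Agent.MP_4fffd4_nt.Odd

open Polynomial Finset Filter Topology
open scoped BigOperators

variable {F : Type*} [Field F] [Fintype F] {p : ℕ} [Fact p.Prime] [CharP F p]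

omit [Fact p.Prime] [CharP F p] in
theorem xtkm_sum {a : F[X]} (ha : a.Monic) (n : ℕ) (G : F[X] → ℝ) :
    ∑ x ∈ monF F (n + a.natDegree), ind (a ∣ x) * G x = ∑ f ∈ monF F n, G (a * f) := by
  classical
  rw [← sum_filter_add_sum_filter_not _ (a ∣ ·),
    sum_eq_zero (s := filter (fun x => ¬ a ∣ x) _) fun x hx => by
      rw [ind_neg (mem_filter.1 hx).2, zero_mul], add_zero]
  symm
  refine sum_bij (fun f _ => a * f) (fun f hf => ?_) (fun f _ g _ => mul_left_cancel₀ ha.ne_zero)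
    (fun x hx => ?_) fun f _ => by rw [ind_pos (dvd_mul_right _ _), one_mul]
  · obtain ⟨h1, h2⟩ := mem_monF.1 hf
    exact mem_filter.2 ⟨mem_monF.2 ⟨ha.mul h1, by rw [ha.natDegree_mul h1, h2, add_comm]⟩,
      dvd_mul_right _ _⟩
  · obtain ⟨h1, f, rfl⟩ := mem_filter.1 hx
    obtain ⟨h2, h3⟩ := mem_monF.1 h1
    have h4 := ha.of_mul_monic_left h2
    rw [ha.natDegree_mul h4] at h3
    exact ⟨f, mem_monF.2 ⟨h4, by omega⟩, rfl⟩

omit [Fintype F] [Fact p.Prime] [CharP F p] in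
theorem xtkm_cop {R P : F[X]} (h1 : R.Monic) (h2 : Irreducible R) (h3 : P.Monic)
    (h4 : Irreducible P) (h : R ≠ P) : IsCoprime R P :=
  h2.coprime_iff_not_dvd.2 fun hd => h (eq_of_monic_of_associated h1 h3 (h2.associated_of_dvd h4 hd))

omit [Fintype F] [Fact p.Prime] [CharP F p] in
theorem xtkm_ind {R m : F[X]} (h : IsCoprime R m) (W : F[X]) :
    ind (R * m ∣ W) = ind (R ∣ W) * ind (m ∣ W) := by
  rw [← ind_and]
  exact ind_congr ⟨fun h' => ⟨dvd_of_mul_right_dvd h', dvd_of_mul_left_dvd h'⟩,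
    fun h' => h.mul_dvd h'.1 h'.2⟩

/-- the reciprocal of the norm -/
noncomputable def xtkmW (e : F[X]) : ℝ := 1 / (Fintype.card F : ℝ) ^ e.natDegree

omit [Fact p.Prime] [CharP F p] in
theorem xtkmW_nonneg (e : F[X]) : 0 ≤ xtkmW e := by unfold xtkmW; positivity

omit [Fact p.Prime] [CharP F p] in
theorem xtkmW_mul {e f : F[X]} (he : e.Monic) (hf : f.Monic) :
    xtkmW (e * f) = xtkmW e * xtkmW f := by
  rw [xtkmW, he.natDegree_mul hf, pow_add, xtkmW, xtkmW, one_div_mul_one_div]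

omit [Fact p.Prime] [CharP F p] in
open Classical in
theorem xtkm_var {α : Type*} (U : Finset α) (W : α → F[X]) (S : Finset F[X])
    (hS : ∀ R ∈ S, R.Monic ∧ Irreducible R) {m : F[X]} (hm : m.Monic)
    (hc : ∀ R ∈ S, IsCoprime R m) (E : F[X] → ℝ)
    (hE : ∀ e, E e = |(𝔼 v ∈ U, ind (e ∣ W v)) - xtkmW e|) {L : ℝ} (hL : L = ∑ R ∈ S, xtkmW R) :
    𝔼 v ∈ U, ind (m ∣ W v) * ((∑ R ∈ S, ind (R ∣ W v)) - L) ^ 2 ≤ xtkmW m * L +
      ((∑ R ∈ S, ∑ R' ∈ S, if R' ≠ R then E (R' * (R * m)) else 0) +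
        (1 + 2 * L) * ∑ R ∈ S, E (R * m) + L ^ 2 * E m) := by
  have hL0 : 0 ≤ L := hL ▸ sum_nonneg fun R _ => xtkmW_nonneg R
  have hpt : ∀ Z : F[X], ind (m ∣ Z) * ((∑ R ∈ S, ind (R ∣ Z)) - L) ^ 2 =
      (∑ R ∈ S, ∑ R' ∈ S, if R' ≠ R then ind (R' * (R * m) ∣ Z) else 0) +
        (1 - 2 * L) * ∑ R ∈ S, ind (R * m ∣ Z) + L ^ 2 * ind (m ∣ Z) := by
    intro Z
    have h1 : ∑ R ∈ S, ind (R * m ∣ Z) = (∑ R ∈ S, ind (R ∣ Z)) * ind (m ∣ Z) := by
      rw [sum_mul]
      exact sum_congr rfl fun R hR => xtkm_ind (hc R hR) Z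
    have h2 : ∀ R ∈ S, (∑ R' ∈ S, if R' ≠ R then ind (R' * (R * m) ∣ Z) else 0) +
        ind (R * m ∣ Z) = (∑ R' ∈ S, ind (R' ∣ Z)) * ind (R * m ∣ Z) := by
      intro R hR
      have h3 : ind (R * m ∣ Z) = ∑ R' ∈ S, if R' = R then ind (R * m ∣ Z) else 0 := by
        rw [sum_ite_eq', if_pos hR]
      rw [sum_mul]
      conv_lhs => rw [h3]
      rw [← sum_add_distrib]
      refine sum_congr rfl fun R' hR' => ?_
      by_cases h : R' = R
      · rw [if_neg (not_not.2 h), if_pos h, zero_add, h, xtkm_ind (hc R hR), ← mul_assoc,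
          ← ind_and (R ∣ Z) (R ∣ Z), and_self]
      · rw [if_pos h, if_neg h, add_zero]
        exact xtkm_ind ((xtkm_cop (hS _ hR').1 (hS _ hR').2 (hS _ hR).1 (hS _ hR).2 h).mul_right
          (hc R' hR')) Z
    have h4 := sum_congr rfl h2
    rw [sum_add_distrib, ← mul_sum, h1] at h4
    rw [h1]
    linear_combination -h4
  set P : F[X] → ℝ := fun e => 𝔼 v ∈ U, ind (e ∣ W v) with hP
  have hex : 𝔼 v ∈ U, ind (m ∣ W v) * ((∑ R ∈ S, ind (R ∣ W v)) - L) ^ 2 =
      (∑ R ∈ S, ∑ R' ∈ S, if R' ≠ R then P (R' * (R * m)) else 0) +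
        ∑ R ∈ S, (1 - 2 * L) * P (R * m) + L ^ 2 * P m := by
    simp only [hpt, expect_add_distrib, ← mul_expect, expect_sum_comm, ← mul_sum, hP]
    congr 2
    refine sum_congr rfl fun R _ => sum_congr rfl fun R' _ => ?_
    split_ifs
    · rfl
    · simp
  have hle : ∀ e, P e ≤ xtkmW e + E e := fun e => by
    have := le_abs_self (P e - xtkmW e)
    rw [hE]
    linarith
  have hge : ∀ e, xtkmW e - E e ≤ P e := fun e => by
    have := neg_abs_le (P e - xtkmW e)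
    rw [hE]
    linarith
  have a2 : (∑ R ∈ S, ∑ R' ∈ S, if R' ≠ R then P (R' * (R * m)) else 0) ≤ L ^ 2 * xtkmW m +
      ∑ R ∈ S, ∑ R' ∈ S, if R' ≠ R then E (R' * (R * m)) else 0 := by
    rw [hL, sq, sum_mul_sum, sum_mul, ← sum_add_distrib]
    refine sum_le_sum fun R hR => ?_
    rw [sum_mul, ← sum_add_distrib]
    refine sum_le_sum fun R' hR' => ?_
    split_ifs
    · refine (hle _).trans_eq ?_
      rw [xtkmW_mul (hS _ hR').1 ((hS _ hR).1.mul hm), xtkmW_mul (hS _ hR).1 hm]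
      ring
    · rw [add_zero]
      exact mul_nonneg (mul_nonneg (xtkmW_nonneg _) (xtkmW_nonneg _)) (xtkmW_nonneg _)
  have a1 : ∑ R ∈ S, (1 - 2 * L) * P (R * m) ≤
      (1 - 2 * L) * (L * xtkmW m) + (1 + 2 * L) * ∑ R ∈ S, E (R * m) := by
    have : L * xtkmW m = ∑ R ∈ S, xtkmW (R * m) := by
      rw [hL, sum_mul]
      exact sum_congr rfl fun R hR => (xtkmW_mul (hS _ hR).1 hm).symm
    rw [this, mul_sum, mul_sum, ← sum_add_distrib]
    refine sum_le_sum fun R _ => ?_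
    have h1 := hle (R * m)
    have h2 := mul_le_mul_of_nonneg_left (hge (R * m)) hL0
    linarith
  have a0 := mul_le_mul_of_nonneg_left (hle m) (sq_nonneg L)
  rw [hex]
  linarith

omit [Fintype F] [Fact p.Prime] [CharP F p] in
theorem xtkm_ext {κ : Type*} {t : κ → F[X]} {Q R : F[X]} (h1 : Function.Injective t)
    (h2 : ∀ i, (t i).Monic ∧ Irreducible (t i) ∧ ¬ t i ∣ Q)
    (h3 : R.Monic ∧ Irreducible R ∧ ¬ R ∣ Q) (h4 : ∀ i, t i ≠ R) :
    Function.Injective (fun o : Option κ => o.elim R t) ∧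
      ∀ o : Option κ, (o.elim R t).Monic ∧ Irreducible (o.elim R t) ∧ ¬ o.elim R t ∣ Q := by
  refine ⟨?_, ?_⟩
  · rintro (_ | i) (_ | j) h
    · rfl
    · exact absurd h.symm (h4 j)
    · exact absurd h (h4 i)
    · exact congrArg some (h1 h)
  · rintro (_ | i)
    · exact h3
    · exact h2 i

omit [Fintype F] [Fact p.Prime] [CharP F p] in
theorem xtkm_inj {σ κ : Type*} {T : Finset σ} {tup : σ → κ → F[X]} (hinj : Set.InjOn tup T)
    {T' : Finset (σ × F[X])} (h : ∀ x ∈ T', x.1 ∈ T) :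
    Set.InjOn (fun (x : σ × F[X]) (o : Option κ) => o.elim x.2 (tup x.1)) T' :=
  fun x hx y hy e => Prod.ext (hinj (h x hx) (h y hy) (funext fun i => congrFun e (some i)))
    (congrFun e none)

theorem tk_mod {σ κ : Type*} [Fintype κ] (T : Finset σ) (tup : σ → κ → F[X])
    (hinj : Set.InjOn tup T) {ν D a b : ℕ} (hD : D < ν) (Q D₀ : F[X])
    (hQ : ∀ R : F[X], Irreducible R → R ∣ Q → R.natDegree ≤ a) (hab : a ≤ b)
    (hL : 1 ≤ LL F a b)
    (hT : ∀ s ∈ T, Function.Injective (tup s) ∧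
      (∀ i, (tup s i).Monic ∧ Irreducible (tup s i) ∧ b < (tup s i).natDegree) ∧
      (∏ i, tup s i).natDegree + 2 * b ≤ D) :
    ∑ s ∈ T, 𝔼 v ∈ ltF F ν, ind (∏ i, tup s i ∣ D₀ + Q * derivative v ∧
        ∀ R ∈ prmI F a b, ¬ R ∣ D₀ + Q * derivative v) ≤
      (∑ s ∈ T, 1 / (Fintype.card F : ℝ) ^ (∏ i, tup s i).natDegree) / LL F a b +
        5 * ((D + 1) ^ (Fintype.card κ + 4) *
          (Fintype.card F : ℝ) ^ (ν / p + 1 + D) / (Fintype.card F : ℝ) ^ ν) := by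
  classical
  set S := prmI F a b with hS
  set L := LL F a b with hLL
  set B : ℝ := (Fintype.card F : ℝ) ^ (ν / p + 1 + D) / (Fintype.card F : ℝ) ^ ν with hB
  have hB0 : 0 ≤ B := by positivity
  have hL0 : 0 < L := one_pos.trans_le hL
  have hSm : ∀ R ∈ S, (R.Monic ∧ Irreducible R ∧ ¬ R ∣ Q) ∧ R.natDegree ≤ b := fun R hR => by
    obtain ⟨h1, h2, h3, h4⟩ := mem_prmI.1 hR
    exact ⟨⟨h1, h2, fun h => absurd (hQ R h2 h) (by omega)⟩, h4⟩
  have hTm : ∀ s ∈ T, ∀ i, (tup s i).Monic ∧ Irreducible (tup s i) ∧ ¬ tup s i ∣ Q :=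
    fun s hs i => by
      obtain ⟨h1, h2, h3⟩ := (hT s hs).2.1 i
      exact ⟨h1, h2, fun h => absurd (hQ _ h2 h) (by omega)⟩
  have hne : ∀ s ∈ T, ∀ R ∈ S, ∀ i, tup s i ≠ R := fun s hs R hR i e => by
    have h1 := ((hT s hs).2.1 i).2.2
    have h2 := (hSm R hR).2
    rw [e] at h1
    omega
  have hpow : ∀ k : ℕ, k ≤ Fintype.card κ + 4 →
      ((D : ℝ) + 1) ^ k * (Fintype.card F : ℝ) ^ (ν / p + 1 + D) / (Fintype.card F : ℝ) ^ ν ≤
        ((D : ℝ) + 1) ^ (Fintype.card κ + 4) * B := fun k hk => by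
    rw [mul_div_assoc]
    exact mul_le_mul_of_nonneg_right
      (pow_le_pow_right₀ (le_add_of_nonneg_left (Nat.cast_nonneg D)) hk) hB0
  have e0 := (sum_er_tup (p := p) T tup hinj hD Q D₀ fun s hs =>
    ⟨(hT s hs).1, hTm s hs, by have := (hT s hs).2.2; omega⟩).trans (hpow _ (by omega))
  have hinj1 := xtkm_inj hinj (T' := T ×ˢ S) fun x hx => (mem_product.1 hx).1
  have hdeg : ∀ f g : F[X], (f * g).natDegree ≤ f.natDegree + g.natDegree :=
    fun _ _ => natDegree_mul_le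
  have hok1 : ∀ x ∈ T ×ˢ S, _ := fun x hx => xtkm_ext (hT x.1 (mem_product.1 hx).1).1
    (hTm x.1 (mem_product.1 hx).1) (hSm x.2 (mem_product.1 hx).2).1
    (hne x.1 (mem_product.1 hx).1 x.2 (mem_product.1 hx).2)
  have e1 := (sum_er_tup (p := p) (T ×ˢ S) _ hinj1 hD Q D₀ fun x hx =>
    ⟨(hok1 x hx).1, (hok1 x hx).2, by
      have h1 := (hT x.1 (mem_product.1 hx).1).2.2
      have h2 := (hSm x.2 (mem_product.1 hx).2).2
      have h3 := hdeg x.2 (∏ i, tup x.1 i)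
      simp only [Fintype.prod_option, Option.elim_none, Option.elim_some]
      omega⟩).trans (hpow _ (by rw [Fintype.card_option]; omega))
  have hinj2 := xtkm_inj hinj1 (T' := ((T ×ˢ S) ×ˢ S).filter fun x => x.2 ≠ x.1.2)
    fun x hx => (mem_product.1 (mem_filter.1 hx).1).1
  have e2 := (sum_er_tup (p := p) _ _ hinj2 hD Q D₀ fun x hx => by
    obtain ⟨h1, h2⟩ := mem_filter.1 hx
    obtain ⟨h3, h4⟩ := mem_product.1 h1
    obtain ⟨h5, h6⟩ := mem_product.1 h3
    have h7 := xtkm_ext (hok1 _ h3).1 (hok1 _ h3).2 (hSm _ h4).1 (by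
      rintro (_ | i)
      · exact h2.symm
      · exact hne _ h5 _ h4 i)
    refine ⟨h7.1, h7.2, ?_⟩
    have h8 := (hT _ h5).2.2
    have h9 := (hSm _ h4).2
    have h10 := (hSm _ h6).2
    have h11 := hdeg x.1.2 (∏ i, tup x.1.1 i)
    have h12 := hdeg x.2 (x.1.2 * ∏ i, tup x.1.1 i)
    simp only [Fintype.prod_option, Option.elim_none, Option.elim_some]
    omega).trans (hpow _ (by rw [Fintype.card_option, Fintype.card_option]))
  simp only [Fintype.prod_option, Option.elim_none, Option.elim_some, sum_filter,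
    sum_product] at e1 e2
  have key : ∀ s ∈ T, L ^ 2 * 𝔼 v ∈ ltF F ν, ind (∏ i, tup s i ∣ D₀ + Q * derivative v ∧
      ∀ R ∈ S, ¬ R ∣ D₀ + Q * derivative v) ≤ _ := fun s hs => le_trans (by
        rw [mul_expect]
        refine expect_le_expect fun v _ => ?_
        by_cases h : ∏ i, tup s i ∣ D₀ + Q * derivative v ∧
            ∀ R ∈ S, ¬ R ∣ D₀ + Q * derivative v
        · rw [ind_pos h, ind_pos h.1, sum_eq_zero fun R hR => ind_neg (h.2 R hR)]
          exact le_of_eq (by ring)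
        · rw [ind_neg h, mul_zero]
          exact mul_nonneg (ind_nonneg _) (sq_nonneg _))
      (xtkm_var (ltF F ν) (fun v => D₀ + Q * derivative v) S
        (fun R hR => ⟨(hSm R hR).1.1, (hSm R hR).1.2.1⟩)
        (monic_prod_of_monic _ _ fun i _ => (hTm s hs i).1)
        (fun R hR => IsCoprime.prod_right fun i _ => xtkm_cop (hSm R hR).1.1 (hSm R hR).1.2.1
          (hTm s hs i).1 (hTm s hs i).2.1 (hne s hs R hR i).symm)
        (er ν Q D₀) (fun _ => rfl) (L := L) rfl)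
  have tot := sum_le_sum key
  simp only [sum_add_distrib, ← mul_sum, ← sum_mul] at tot
  set C : ℝ := ((D : ℝ) + 1) ^ (Fintype.card κ + 4) * B with hC
  have hC0 : 0 ≤ C := by positivity
  rw [mul_div_assoc, ← hC]
  refine le_of_mul_le_mul_left (tot.trans ?_) (pow_pos hL0 2)
  have b1 := mul_le_mul_of_nonneg_left e1 (by linarith : 0 ≤ 1 + 2 * L)
  have b0 := mul_le_mul_of_nonneg_left e0 (sq_nonneg L)
  have b3 : L ^ 2 * ((∑ s ∈ T, xtkmW (∏ i, tup s i)) / L) =
      (∑ s ∈ T, xtkmW (∏ i, tup s i)) * L := by field_simp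
  have b4 : C ≤ L * C := le_mul_of_one_le_left hC0 hL
  have b5 : L * C ≤ L * (L * C) := mul_le_mul_of_nonneg_left b4 hL0.le
  rw [mul_add]
  change _ ≤ L ^ 2 * ((∑ s ∈ T, xtkmW (∏ i, tup s i)) / L) + _
  rw [b3]
  nlinarith

omit [Fact p.Prime] [CharP F p] in
/-- the inequality for monic polynomials of fixed degree -/
theorem tk_fix {a b n : ℕ} (hn : 2 * b ≤ n) :
    𝔼 y ∈ monF F n, ((∑ R ∈ prmI F a b, ind (R ∣ y)) - LL F a b) ^ 2 ≤ LL F a b := by
  classical
  have hq := card_pos' (F := F)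
  have hE : ∀ e : F[X], e.Monic → e.natDegree ≤ n →
      |(𝔼 y ∈ monF F n, ind (e ∣ y)) - xtkmW e| = 0 := by
    intro e he hd
    obtain ⟨k, rfl⟩ : ∃ k, n = k + e.natDegree := ⟨n - e.natDegree, by omega⟩
    have h := xtkm_sum he k fun _ => 1
    simp only [mul_one, sum_const, card_monF, nsmul_eq_mul, Nat.cast_pow] at h
    rw [expect_monF_eq, h, xtkmW, pow_add, abs_eq_zero]
    field_simp
    ring
  have hS : ∀ R ∈ prmI F a b, R.Monic ∧ R.natDegree ≤ b := fun R hR =>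
    ⟨(mem_prmI.1 hR).1, (mem_prmI.1 hR).2.2.2⟩
  have h := xtkm_var (monF F n) (fun y => y) (prmI F a b)
    (fun R hR => ⟨(mem_prmI.1 hR).1, (mem_prmI.1 hR).2.1⟩) monic_one
    (fun R _ => isCoprime_one_right) _ (fun _ => rfl) (L := LL F a b) rfl
  rw [hE 1 monic_one (by simp), sum_eq_zero (s := prmI F a b) (f := fun R => |_ - xtkmW (R * 1)|)
    fun R hR => hE _ ((hS R hR).1.mul monic_one) (by
      have := (hS R hR).2
      rw [mul_one]
      omega), sum_eq_zero fun R hR => sum_eq_zero fun R' hR' => by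
        rw [hE _ ((hS R' hR').1.mul ((hS R hR).1.mul monic_one)) (by
          have h1 := (hS R hR).2
          have h2 := (hS R' hR').2
          rw [mul_one, (hS R' hR').1.natDegree_mul (hS R hR).1]
          omega), ite_self]] at h
  simpa [xtkmW, ind_pos] using h

end Pool.Agent.MP_4fffd4_nt.Odd

end

section

/- Positive density of smooth derivatives. -/

set_option autoImplicit false

namespace Pool.Agent.MP_4fffd4_nt.Odd

open Polynomial Finset Filter Topology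
open scoped BigOperators

variable {F : Type*} [Field F] [Fintype F] {p : ℕ} [Fact p.Prime] [CharP F p]

omit [Fact p.Prime] in
theorem xpos_num (hp : 3 ≤ p) {K : ℕ} (hK : 4 ≤ K) (M : ℕ) :
    900 * tt p M ≤ M / p ∧ 4 * yy K p M ≤ tt p M ∧ 3 * (M / p) ≤ M ∧ p * (M / p) ≤ M ∧
      M + 1 ≤ 100 * p ^ 3 * K * (yy K p M + 1) := by
  have h1 := (xwin2_t hp M).1
  have h2 : 900 ≤ 100 * p ^ 2 := by nlinarith
  have h3 : p * (M / p) ≤ M := Nat.mul_div_le M p
  refine ⟨(Nat.mul_le_mul_right _ h2).trans h1,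
    (Nat.mul_le_mul_right _ hK).trans (Nat.mul_div_le _ K),
    (Nat.mul_le_mul_right _ hp).trans h3, h3, ?_⟩
  have e : yy K p M = M / (100 * p ^ 3 * K) := by rw [yy, tt, Nat.div_div_eq_div_mul]
  rw [e]
  exact Nat.lt_mul_div_succ M (by positivity)

omit [Fact p.Prime] [CharP F p] in
theorem xpos_err_top (hp : 3 ≤ p) {K : ℕ} (hK : 4 ≤ K) (c : ℕ) :
    Tendsto (fun M : ℕ => ((M : ℝ) + 1) ^ (3 * p) * (Fintype.card F : ℝ) ^ (c + 1) /
      (Fintype.card F : ℝ) ^ (2 * yy K p M)) atTop (𝓝 0) := by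
  have hq := card_pos' (F := F)
  have hq2 := two_le_card (F := F)
  have hy := yy_top (K := K) hp (by omega)
  have h := ((tendsto_pow_const_div_const_pow_of_one_lt (3 * p) (r := 2) one_lt_two).comp
    ((tendsto_add_atTop_nat 1).comp hy)).const_mul
    ((100 * (p : ℝ) ^ 3 * K) ^ (3 * p) * (Fintype.card F : ℝ) ^ (c + 1))
  rw [mul_zero] at h
  refine squeeze_zero' (Eventually.of_forall fun M => by positivity) ?_ h
  filter_upwards [hy.eventually_ge_atTop 1] with M hM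
  have h1 : (M : ℝ) + 1 ≤ 100 * (p : ℝ) ^ 3 * K * ((yy K p M + 1 : ℕ) : ℝ) := by
    exact_mod_cast (xpos_num hp hK M).2.2.2.2
  have h2 : (2 : ℝ) ^ (yy K p M + 1) ≤ (Fintype.card F : ℝ) ^ (2 * yy K p M) :=
    (pow_le_pow_right₀ one_le_two (by omega)).trans (pow_le_pow_left₀ zero_le_two hq2 _)
  calc ((M : ℝ) + 1) ^ (3 * p) * (Fintype.card F : ℝ) ^ (c + 1) /
        (Fintype.card F : ℝ) ^ (2 * yy K p M)
      ≤ (100 * (p : ℝ) ^ 3 * K * ((yy K p M + 1 : ℕ) : ℝ)) ^ (3 * p) *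
          (Fintype.card F : ℝ) ^ (c + 1) / 2 ^ (yy K p M + 1) := by gcongr
    _ = _ := by
        simp only [Function.comp]
        rw [mul_pow _ ((yy K p M + 1 : ℕ) : ℝ)]
        ring

omit [Fact p.Prime] [CharP F p] in
theorem xpos_err_le {M ν c y D k : ℕ} (hD : D ≤ M) (hk : k ≤ 3 * p)
    (he : ν / p + 1 + D + 2 * y ≤ ν + (c + 1)) :
    ((D : ℝ) + 1) ^ k * (Fintype.card F : ℝ) ^ (ν / p + 1 + D) / (Fintype.card F : ℝ) ^ ν ≤
      ((M : ℝ) + 1) ^ (3 * p) * (Fintype.card F : ℝ) ^ (c + 1) /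
        (Fintype.card F : ℝ) ^ (2 * y) := by
  have hq := card_pos' (F := F)
  have hq2 := two_le_card (F := F)
  have hD' : (D : ℝ) ≤ M := by exact_mod_cast hD
  have h1 : ((D : ℝ) + 1) ^ k ≤ ((M : ℝ) + 1) ^ (3 * p) :=
    (pow_le_pow_left₀ (by positivity) (by linarith) _).trans
      (pow_le_pow_right₀ (by linarith [(Nat.cast_nonneg M : (0 : ℝ) ≤ M)]) hk)
  rw [mul_div_assoc, mul_div_assoc]
  refine mul_le_mul h1 ?_ (by positivity) (by positivity)
  rw [div_le_div_iff₀ (by positivity) (by positivity), ← pow_add, ← pow_add]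
  exact pow_le_pow_right₀ (by linarith) (by omega)

omit [Fintype F] [Fact p.Prime] [CharP F p] in
theorem xpos_deg {Q D₀ v : F[X]} {M ν : ℕ} (hD : D₀.natDegree = M)
    (h1 : ν + p * Q.natDegree ≤ M) (hν : 0 < ν) (hv : v.degree < ν) :
    D₀ + Q ^ p * derivative v ≠ 0 ∧ (D₀ + Q ^ p * derivative v).natDegree = M := by
  have h2 : v.natDegree < ν := by
    by_cases h : v = 0
    · rw [h, natDegree_zero]; exact hν
    · exact (natDegree_lt_iff_degree_lt h).2 hv
  have h3 : (Q ^ p * derivative v).natDegree < D₀.natDegree := by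
    have a := natDegree_mul_le (p := Q ^ p) (q := derivative v)
    have b := natDegree_pow_le (p := Q) (n := p)
    have c := natDegree_derivative_le v
    omega
  have h4 := natDegree_add_eq_left_of_natDegree_lt h3
  refine ⟨fun h => ?_, h4.trans hD⟩
  rw [h, natDegree_zero] at h4
  omega

omit [Fintype F] in
theorem xpos_inj {ι : Type*} {P : ι → F[X]} {R : F[X]} (hP : Function.Injective P)
    (hR : ∀ j, (P j).natDegree < R.natDegree) :
    Function.Injective fun o : Option ι => o.elim R P := by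
  rintro (_ | i) (_ | j) h
  · rfl
  · have := hR j
    simp only [Option.elim] at h
    rw [h] at this
    omega
  · have := hR i
    simp only [Option.elim] at h
    rw [h] at this
    omega
  · exact congrArg some (hP h)

omit [Fintype F] in
theorem xpos_prod {ι : Type*} [Fintype ι] (P : ι → F[X]) (R : F[X]) :
    ∏ o : Option ι, o.elim R P = (∏ j, P j) * R := by
  rw [Fintype.prod_option, mul_comm]
  rfl

omit [Fintype F] [Fact p.Prime] [CharP F p] in
theorem xpos_dvd {Q R : F[X]} (hQ : Q ≠ 0) (hR : Irreducible R) (h : R ∣ Q ^ p) :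
    R.natDegree ≤ Q.natDegree :=
  natDegree_le_of_dvd (hR.prime.dvd_of_dvd_pow h) hQ

theorem xpos_raw (hp : 3 ≤ p) {K M ν : ℕ} (hM : 100 ≤ tt p M) (hK : 4 ≤ K) {Q : F[X]}
    (hQ : Q ≠ 0) (hQy : Q.natDegree ≤ yy K p M) (D₀ : F[X])
    (hD : M - M / p - 2 * yy K p M < ν) :
    ∑ P ∈ T3 F p M (3 * p - 4), ∑ R ∈ lastW F K p M (∏ j, P j).natDegree,
        1 / (Fintype.card F : ℝ) ^ ((∏ j, P j) * R).natDegree -
      (((M - M / p - 2 * yy K p M : ℕ) : ℝ) + 1) ^ (3 * p - 4 + 1 + 2) *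
        (Fintype.card F : ℝ) ^ (ν / p + 1 + (M - M / p - 2 * yy K p M)) /
          (Fintype.card F : ℝ) ^ ν ≤
      𝔼 v ∈ ltF F ν, ∑ P ∈ T3 F p M (3 * p - 4), ∑ R ∈ lastW F K p M (∏ j, P j).natDegree,
        ind ((∏ j, P j) * R ∣ D₀ + Q ^ p * derivative v) := by
  obtain ⟨n1, n2, n3, n4, -⟩ := xpos_num hp hK M
  have h := sum_er_tup (p := p) ((T3 F p M (3 * p - 4)).sigma
      fun P => lastW F K p M (∏ j, P j).natDegree)
    (fun z (o : Option (Fin (3 * p - 4))) => o.elim z.2 z.1) ?_ hD (Q ^ p) D₀ ?_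
  · rw [Fintype.card_option, Fintype.card_fin, sum_sigma] at h
    simp only [xpos_prod] at h
    rw [sub_le_iff_le_add]
    refine le_trans ?_ (add_le_add_right h _)
    rw [expect_sum_comm, ← sum_add_distrib]
    refine sum_le_sum fun P _ => ?_
    rw [expect_sum_comm, ← sum_add_distrib]
    refine sum_le_sum fun R _ => ?_
    have := neg_abs_le ((𝔼 v ∈ ltF F ν, ind ((∏ j, P j) * R ∣ D₀ + Q ^ p * derivative v)) -
      1 / (Fintype.card F : ℝ) ^ ((∏ j, P j) * R).natDegree)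
    rw [er]
    linarith
  · rintro ⟨P, R⟩ - ⟨P', R'⟩ - h
    have h1 : R = R' := congrFun h none
    have h2 : P = P' := funext fun j => congrFun h (some j)
    rw [h1, h2]
  · rintro ⟨P, R⟩ hz
    obtain ⟨hP, hR⟩ := mem_sigma.1 hz
    obtain ⟨a1, a2⟩ := mem_T3 hp hM le_rfl hP
    obtain ⟨b1, b2⟩ := mem_lastW hp hM hK hP
    obtain ⟨r1, r2, r3, r4⟩ := mem_prmI.1 hR
    dsimp only at *
    refine ⟨xpos_inj a1 fun j => ?_, ?_, ?_⟩
    · have := (a2 j).2.2.2
      omega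
    · rintro (_ | j)
      · refine ⟨r1, r2, fun hd => ?_⟩
        have := xpos_dvd hQ r2 hd
        omega
      · refine ⟨(a2 j).1, (a2 j).2.1, fun hd => ?_⟩
        have := xpos_dvd hQ (a2 j).2.1 hd
        have := (a2 j).2.2.1
        omega
    · rw [xpos_prod, (monic_prod_of_monic _ _ fun j _ => (a2 j).1).natDegree_mul r1]
      omega

theorem xpos_bad (hp : 3 ≤ p) {K M ν : ℕ} (hM : 100 ≤ tt p M) (hK : 4 ≤ K) {Q : F[X]}
    (hQ : Q ≠ 0) (hQy : Q.natDegree ≤ yy K p M) (D₀ : F[X])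
    (hD : M - M / p - 2 * yy K p M < ν) (hL : 1 ≤ LL F (4 * yy K p M) (tt p M)) :
    𝔼 v ∈ ltF F ν, ∑ P ∈ T3 F p M (3 * p - 7), ∑ R ∈ bigW F K p M,
        ind ((∏ j, P j) * R ∣ D₀ + Q ^ p * derivative v ∧
          ∀ S ∈ prmI F (4 * yy K p M) (tt p M), ¬ S ∣ D₀ + Q ^ p * derivative v) ≤
      (∑ P ∈ T3 F p M (3 * p - 7), ∑ R ∈ bigW F K p M,
        1 / (Fintype.card F : ℝ) ^ ((∏ j, P j) * R).natDegree) / LL F (4 * yy K p M) (tt p M) +
      5 * ((((M - M / p - 2 * yy K p M : ℕ) : ℝ) + 1) ^ (3 * p - 7 + 1 + 4) *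
        (Fintype.card F : ℝ) ^ (ν / p + 1 + (M - M / p - 2 * yy K p M)) /
          (Fintype.card F : ℝ) ^ ν) := by
  obtain ⟨n1, n2, n3, n4, -⟩ := xpos_num hp hK M
  have h := tk_mod (p := p) (T3 F p M (3 * p - 7) ×ˢ bigW F K p M)
    (fun z (o : Option (Fin (3 * p - 7))) => o.elim z.2 z.1) ?_ hD (Q ^ p) D₀
    (fun R hR hd => (xpos_dvd hQ hR hd).trans (by omega)) n2 hL ?_
  · rw [Fintype.card_option, Fintype.card_fin, sum_product, sum_product] at h
    simp only [xpos_prod] at h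
    refine le_trans (le_of_eq ?_) h
    rw [expect_sum_comm]
    exact sum_congr rfl fun P _ => expect_sum_comm _ _ _
  · rintro ⟨P, R⟩ - ⟨P', R'⟩ - h
    have h1 : R = R' := congrFun h none
    have h2 : P = P' := funext fun j => congrFun h (some j)
    rw [h1, h2]
  · rintro ⟨P, R⟩ hz
    obtain ⟨hP, hR⟩ := mem_product.1 hz
    obtain ⟨a1, a2⟩ := mem_T3 hp hM (by omega) hP
    obtain ⟨r1, r2, r3, r4⟩ := mem_prmI.1 hR
    dsimp only at *
    refine ⟨xpos_inj a1 fun j => ?_, ?_, ?_⟩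
    · have := (a2 j).2.2.2
      omega
    · rintro (_ | j)
      · exact ⟨r1, r2, by dsimp only [Option.elim]; omega⟩
      · refine ⟨(a2 j).1, (a2 j).2.1, ?_⟩
        have := (a2 j).2.2.1
        dsimp only [Option.elim]
        omega
    · rw [xpos_prod, (monic_prod_of_monic _ _ fun j _ => (a2 j).1).natDegree_mul r1,
        natDegree_prod_of_monic _ _ fun j _ => (a2 j).1]
      have h1 : ∑ j, (P j).natDegree ≤ (3 * p - 7) * (M / p / 3) := by
        refine (sum_le_card_nsmul _ _ (M / p / 3) fun j _ => ?_).trans_eq (by simp)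
        have := (a2 j).2.2.2
        omega
      have h2 : (3 * p - 7) * (M / p / 3) + 7 * (M / p / 3) = p * (3 * (M / p / 3)) := by
        rw [← Nat.add_mul, Nat.sub_add_cancel (by omega)]
        ring
      have h3 : p * (3 * (M / p / 3)) ≤ p * (M / p) :=
        Nat.mul_le_mul_left _ (Nat.mul_div_le _ 3)
      omega

theorem exists_posW (hp : p ≠ 2) : ∃ (δ : ℝ) (hi : ℕ → ℕ), PosW F p (SI p) δ (tt p) hi := by
  have h3 : 3 ≤ p := by
    have := (Fact.out : p.Prime).two_le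
    omega
  have hq := card_pos' (F := F)
  have hp' : (3 : ℝ) ≤ p := by exact_mod_cast h3
  obtain ⟨B, hB, hB0⟩ : ∃ B : ℝ, B = (4 * p : ℝ) ^ (3 * p) ∧ 0 < B := ⟨_, rfl, by positivity⟩
  obtain ⟨a, ha, ha0⟩ : ∃ a : ℝ, a = (1 / (400 * (p : ℝ) ^ 2)) ^ (3 * p) ∧ 0 < a :=
    ⟨_, rfl, by positivity⟩
  obtain ⟨K, hK, hL⟩ := LL_big (F := F) h3 (max 1 (2 * B / a))
  have hK0 : (0 : ℝ) < K := by exact_mod_cast (by omega : 0 < K)
  have hy := yy_top (K := K) h3 (by omega)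
  refine ⟨a / (4 * B * K), fun M => M / p - yy K p M, by positivity, xwin2_top h3,
    fun c => ?_, fun Q c hQ => ?_⟩
  · filter_upwards [hy.eventually_ge_atTop c] with M hM
    obtain ⟨n1, n2, -⟩ := xpos_num h3 hK M
    omega
  have hε : 0 < a / (4 * K) / (1 + 5 * B) := by positivity
  filter_upwards [hL, main_ge (F := F) h3 hK, bad_le (F := F) h3 hK,
    (xwin2_top h3).eventually_ge_atTop 100, hy.eventually_ge_atTop (c + 1),
    hy.eventually_ge_atTop Q.natDegree,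
    (xpos_err_top (F := F) h3 hK c).eventually (ge_mem_nhds hε)]
    with M l1 l2 l3 l4 l5 l6 l7 D₀ ν hD h1 h2
  obtain ⟨n1, n2, n3, n4, -⟩ := xpos_num h3 hK M
  have hDν : M - M / p - 2 * yy K p M < ν := by omega
  have hνp : ν / p ≤ M / p := Nat.div_le_div_right (by omega)
  have r1 := xpos_raw h3 l4 hK hQ l6 D₀ hDν
  have r2 := xpos_bad h3 l4 hK hQ l6 D₀ hDν ((le_max_left _ _).trans l1)
  have e1 := (xpos_err_le (F := F) (p := p) (M := M) (ν := ν) (c := c) (y := yy K p M)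
    (D := M - M / p - 2 * yy K p M) (k := 3 * p - 4 + 1 + 2) (by omega) (by omega)
    (by omega)).trans l7
  have e2 := (xpos_err_le (F := F) (p := p) (M := M) (ν := ν) (c := c) (y := yy K p M)
    (D := M - M / p - 2 * yy K p M) (k := 3 * p - 7 + 1 + 4) (by omega) (by omega)
    (by omega)).trans l7
  have r3 := expect_le_expect (s := ltF F ν) fun v hv =>
    raw_le (K := K) h3 l4 hK (xpos_deg hD h1 (by omega) (mem_ltF.1 hv)).1
      (xpos_deg hD h1 (by omega) (mem_ltF.1 hv)).2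
  rw [← mul_expect, expect_add_distrib, ← hB] at r3
  rw [← ha] at l2
  have hL2 : 2 * B / a ≤ LL F (4 * yy K p M) (tt p M) := (le_max_right _ _).trans l1
  have r4 : (∑ P ∈ T3 F p M (3 * p - 7), ∑ R ∈ bigW F K p M,
      1 / (Fintype.card F : ℝ) ^ ((∏ j, P j) * R).natDegree) / LL F (4 * yy K p M) (tt p M) ≤
      1 / K / (2 * B / a) := div_le_div₀ (by positivity) l3 (by positivity) hL2
  have r5 := mul_le_mul_of_nonneg_left (r2.trans (add_le_add r4
    (mul_le_mul_of_nonneg_left e2 (by norm_num)))) hB0.le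
  have f1 : B * (1 / K / (2 * B / a) + 5 * (a / (4 * K) / (1 + 5 * B))) +
      a / (4 * K) / (1 + 5 * B) + B * (a / (4 * B * K)) = a / K := by
    field_simp
    ring
  rw [mul_add] at r3
  exact le_of_mul_le_mul_left (by linarith) hB0

end Pool.Agent.MP_4fffd4_nt.Odd

end

section

/- Definitions for Chowla's conjecture in every degree. -/

set_option autoImplicit false

namespace Pool.Agent.MP_4fffd4_nt.Odd

open Polynomial Finset Filter Topology
open scoped BigOperators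

variable {F : Type*} [Field F]

open Classical in
/-- the monic greatest common divisor -/
noncomputable def gc (α u : F[X]) : F[X] := GCDMonoid.gcd α u

theorem gc_dvd_left (α u : F[X]) : gc α u ∣ α := by
  classical
  exact GCDMonoid.gcd_dvd_left α u

theorem gc_dvd_right (α u : F[X]) : gc α u ∣ u := by
  classical
  exact GCDMonoid.gcd_dvd_right α u

theorem dvd_gc {d α u : F[X]} (h1 : d ∣ α) (h2 : d ∣ u) : d ∣ gc α u := by
  classical
  exact GCDMonoid.dvd_gcd h1 h2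

theorem gc_monic {α : F[X]} (hα : α ≠ 0) (u : F[X]) : (gc α u).Monic := by
  classical
  have h0 : gc α u ≠ 0 := fun e => hα (zero_dvd_iff.1 (e ▸ gc_dvd_left α u))
  have h1 : normalize (gc α u) = gc α u := normalize_gcd α u
  rw [← h1]
  exact monic_normalize h0

/-- a monic common divisor that is divisible by all common divisors is the gcd -/
theorem gc_eq {α u d : F[X]} (hα : α ≠ 0) (hd : d.Monic) (h1 : d ∣ α) (h2 : d ∣ u)
    (h : ∀ e, e ∣ α → e ∣ u → e ∣ d) : gc α u = d :=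
  eq_of_monic_of_associated (gc_monic hα u) hd
    (associated_of_dvd_dvd (h _ (gc_dvd_left α u) (gc_dvd_right α u)) (dvd_gc h1 h2))

/-- the degree of the gcd -/
noncomputable def sg (α u : F[X]) : ℕ := (gc α u).natDegree

/-- the primitive form attached to the form `α * x + u` -/
noncomputable def rt (α u : F[X]) : F[X] × F[X] := (α /ₘ gc α u, u /ₘ gc α u)

theorem rt_fst {α : F[X]} (hα : α ≠ 0) (u : F[X]) : gc α u * (rt α u).1 = α := by
  have h := modByMonic_add_div α (gc α u)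
  rwa [(modByMonic_eq_zero_iff_dvd (gc_monic hα u)).2 (gc_dvd_left α u), zero_add] at h

theorem rt_snd {α : F[X]} (hα : α ≠ 0) (u : F[X]) : gc α u * (rt α u).2 = u := by
  have h := modByMonic_add_div u (gc α u)
  rwa [(modByMonic_eq_zero_iff_dvd (gc_monic hα u)).2 (gc_dvd_right α u), zero_add] at h

/-- the form number `i₀` has the gcd of least degree `s`, with a gap `Δ` -/
def Low {I : Type*} (h : I → F[X]) (Δ : ℕ) (i₀ : I) (s : ℕ) (α β : F[X]) : Prop :=
  sg α (β + h i₀) = s ∧ ∀ j, j ≠ i₀ → s + Δ ≤ sg α (β + h j)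

variable [Fintype F]

open Classical in
/-- the primitive forms obtained by removing a gcd of degree at least `r` -/
noncomputable def rts (𝒜 : Finset F[X]) (A r : ℕ) : Finset (F[X] × F[X]) :=
  ((𝒜 ×ˢ ltF F A).filter fun z => r ≤ sg z.1 z.2).image fun z => rt z.1 z.2

/-- a family of moduli with many prime factors and few divisors -/
structure Fam (a : F[X]) (D₀ D₁ A : ℕ) (Λ : ℝ) (𝒜 : Finset F[X]) : Prop where
  ne : 𝒜.Nonempty
  mon : ∀ α ∈ 𝒜, α ∈ monF F A
  shape : ∀ α ∈ 𝒜, ∃ T ⊆ prmI F D₀ D₁, ∃ j : ℕ, α = a * X ^ j * ∏ P ∈ T, P ∧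
    LL F D₀ D₁ ≤ 2 * ∑ P ∈ T, 1 / (Fintype.card F : ℝ) ^ P.natDegree
  divs : ∀ r, ∑ α' ∈ monF F r, ind (∃ α ∈ 𝒜, α' ∣ α) ≤ Λ * 𝒜.card

variable (F) in
/-- the values of the Liouville function at independent forms behave like random signs -/
def Rnd (δ : ℝ) : Prop :=
  ∀ (T : Finset (F[X] × F[X])) (D : ℕ), (∀ ψ ∈ T, ψ.1 ∈ monF F D) →
    (∀ ψ ∈ T, ∀ ψ' ∈ T, ψ ≠ ψ' → ψ.1 * ψ'.2 ≠ ψ'.1 * ψ.2) →
    ∀ (Sg : Finset (F[X] × F[X] → ℝ)) (V E w ε : ℝ), 1 ≤ E → 0 < w → V * E ≤ w ^ 2 →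
      (Sg.card : ℝ) ≤ Real.exp E → (∀ c ∈ Sg, ∑ ψ ∈ T, c ψ ^ 2 ≤ V) → 0 < ε →
      ∀ᶠ n in atTop, ∀ c : F[X] → F[X] × F[X] → ℝ, (∀ x, c x ∈ Sg) →
        𝔼 x ∈ monF F n, |∑ ψ ∈ T, c x ψ * lam (ψ.1 * x + ψ.2)| ≤ 4 * w / δ + ε

end Pool.Agent.MP_4fffd4_nt.Odd

end

section

/- The Liouville function at independent forms behaves like random signs. -/

set_option autoImplicit false

namespace Pool.Agent.MP_4fffd4_nt.Odd

open Polynomial Finset Filter Topology
open scoped BigOperators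

section Aux

variable {F : Type*} [Field F] [Fintype F]

theorem xrnd_core {Ψ : Type*} (n b : ℕ) (T : Finset Ψ) (c : F[X] → Ψ → ℝ) (u : Ψ → F[X] → ℝ)
    (γ : Ψ → F[X] → F[X] → ℝ) {δ s K R : ℝ} (hδ : 0 < δ) (hs : 0 < s) (hK : 0 ≤ K)
    (hc : ∀ x, ∀ ψ ∈ T, |c x ψ| ≤ K) (hu : ∀ ψ x, |u ψ x| ≤ 1)
    (h1 : ∀ ψ ∈ T, 𝔼 x ∈ monF F n, (𝔼 t ∈ monF F b, (γ ψ t x - δ)) ^ 2 ≤ s ^ 2)
    (h2 : ∀ t ∈ monF F b, 𝔼 x ∈ monF F n, |∑ ψ ∈ T, c x ψ * (γ ψ t x * u ψ x)| ≤ R) :
    δ * 𝔼 x ∈ monF F n, |∑ ψ ∈ T, c x ψ * u ψ x| ≤ R + T.card * (K * s) := by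
  have e0 : ∀ x, δ * ∑ ψ ∈ T, c x ψ * u ψ x =
      𝔼 t ∈ monF F b, ∑ ψ ∈ T, c x ψ * (γ ψ t x * u ψ x) -
        ∑ ψ ∈ T, c x ψ * u ψ x * 𝔼 t ∈ monF F b, (γ ψ t x - δ) := fun x => by
    rw [expect_sum_comm, ← sum_sub_distrib, mul_sum]
    refine sum_congr rfl fun ψ _ => ?_
    rw [← mul_expect, ← expect_mul, expect_sub_distrib, expect_const (monF_nonempty b)]
    ring
  have e1 : ∀ x, δ * |∑ ψ ∈ T, c x ψ * u ψ x| ≤
      𝔼 t ∈ monF F b, |∑ ψ ∈ T, c x ψ * (γ ψ t x * u ψ x)| +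
        ∑ ψ ∈ T, K * |𝔼 t ∈ monF F b, (γ ψ t x - δ)| := fun x => by
    rw [← abs_of_pos hδ, ← abs_mul, abs_of_pos hδ, e0]
    refine (abs_sub _ _).trans (add_le_add (abs_expect_le _ _) ?_)
    refine (abs_sum_le_sum_abs _ _).trans (sum_le_sum fun ψ hψ => ?_)
    rw [abs_mul, abs_mul]
    exact mul_le_mul_of_nonneg_right
      ((mul_le_of_le_one_right (abs_nonneg _) (hu ψ x)).trans (hc x ψ hψ)) (abs_nonneg _)
  rw [mul_expect]
  refine (expect_le_expect fun x _ => e1 x).trans ?_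
  rw [expect_add_distrib, expect_comm, expect_sum_comm, ← nsmul_eq_mul]
  refine add_le_add (expect_le (monF_nonempty b) h2) (sum_le_card_nsmul _ _ _ fun ψ hψ => ?_)
  rw [← mul_expect]
  exact mul_le_mul_of_nonneg_left (xloc2_amgm n _ hs (h1 ψ hψ)) hK

end Aux

variable {F : Type*} [Field F] [Fintype F] {p : ℕ} [Fact p.Prime] [CharP F p]

theorem xrnd_ne (hp : p ≠ 2) {A A' h h' t : F[X]} {D H b e : ℕ} (hA : A ∈ monF F D)
    (hA' : A' ∈ monF F D) (hne : A' * h ≠ A * h') (hh : h.natDegree ≤ H) (hh' : h'.natDegree ≤ H)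
    (ht : t ∈ monF F b) (he : e ≤ 1) (hb : 3 * D + H + 2 ≤ b) :
    derivative ((A * A') ^ (p - 1) * BB p e t * (A' * h - A * h')) ≠ 0 := by
  obtain ⟨a1, a2⟩ := mem_monF.1 hA
  obtain ⟨b1, b2⟩ := mem_monF.1 hA'
  have h0 := (monic_BB hp 0 (by omega) ht).2
  rw [BB, pow_zero, one_mul, add_zero] at h0
  have hm : ((A * A') ^ (p - 1) * X ^ e).Monic := ((a1.mul b1).pow _).mul (monic_X_pow e)
  have hs : A' * h - A * h' ≠ 0 := sub_ne_zero.2 hne
  have e1 : (A * A') ^ (p - 1) * BB p e t * (A' * h - A * h') =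
      (A * A') ^ (p - 1) * X ^ e * (A' * h - A * h') * (X + t ^ p) := by
    rw [BB]
    ring
  rw [e1]
  refine deriv_mul_ne (mul_ne_zero hm.ne_zero hs) ?_
  have e2 : (A' * h - A * h').natDegree ≤ D + H := (natDegree_sub_le _ _).trans (max_le
    (natDegree_mul_le.trans (by omega)) (natDegree_mul_le.trans (by omega)))
  rw [h0, natDegree_mul hm.ne_zero hs,
    ((a1.mul b1).pow _).natDegree_mul (monic_X_pow e), natDegree_X_pow,
    (a1.mul b1).natDegree_pow, a1.natDegree_mul b1, a2, b2]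
  obtain ⟨r, hr⟩ : ∃ r, p = r + 1 := ⟨p - 1, by have := (Fact.out : p.Prime).pos; omega⟩
  have e3 : r * (D + D) ≤ r * b := Nat.mul_le_mul_left _ (by omega)
  rw [hr, Nat.add_sub_cancel, add_mul r 1 b]
  omega

theorem exists_rnd (hp : p ≠ 2) : ∃ δ : ℝ, 0 < δ ∧ Rnd F δ := by
  classical
  obtain ⟨δ, hi, hw⟩ := exists_posW (F := F) hp
  have hδ := hw.pos
  refine ⟨δ, hδ, fun T D hT hT' Sg V E w ε hE hw0 hVE hS hV hε => ?_⟩
  obtain ⟨η, hη, hmax⟩ := max_subg (F := F) T Sg hE hw0 hVE hS hV (half_pos (mul_pos hδ hε))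
  have hK : 0 ≤ 1 + |V| := by positivity
  obtain ⟨s, hs, hs'⟩ : ∃ s : ℝ, 0 < s ∧ (T.card * (1 + |V|) + 1) * s = δ * ε / 2 :=
    ⟨δ * ε / 2 / (T.card * (1 + |V|) + 1), by positivity, by field_simp⟩
  obtain ⟨H, hH⟩ : ∃ H : ℕ, ∀ ψ ∈ T, ψ.2.natDegree ≤ H :=
    ⟨T.sup fun ψ => ψ.2.natDegree, fun ψ hψ => le_sup (f := fun ψ : F[X] × F[X] => ψ.2.natDegree) hψ⟩
  obtain ⟨b, hb1, hb2⟩ := ((xgram_small (F := F) p (pow_pos hs 2)).and
    (eventually_ge_atTop (3 * D + H + 2))).exists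
  have hb : 1 ≤ b := by omega
  have main : ∀ e ≤ 1, ∀ᶠ n in atTop, ((n + (p * b + e) : ℕ) : F) ≠ 0 →
      ∀ c : F[X] → F[X] × F[X] → ℝ, (∀ x, c x ∈ Sg) →
        𝔼 x ∈ monF F n, |∑ ψ ∈ T, c x ψ * lam (ψ.1 * x + ψ.2)| ≤ 4 * w / δ + ε := by
    intro e he
    have Vr := (eventually_all_finset T).2 fun ψ hψ =>
      variance_two hp hw hb e (mem_monF.1 (hT ψ hψ)).1 ψ.2
    have P := (eventually_all_finset (monF F b)).2 fun t ht =>
      (eventually_all_finset T.powerset).2 fun S hS => (eventually_all_finset S).2 fun ψ hψ =>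
        eventually_all.2 fun hψ' : ψ ∈ S =>
          many_avg (ι := SI p) hp hw.lo_top hw.hi_le (I := S) ⟨ψ, hψ'⟩ (A := fun i => i.1.1)
            (h := fun i => i.1.2) (fun i => hT _ (mem_powerset.1 hS i.2))
            (monic_BB hp e hb ht).1
            (fun i hi => xrnd_ne hp (hT _ (mem_powerset.1 hS hψ)) (hT _ (mem_powerset.1 hS i.2))
              (hT' _ (mem_powerset.1 hS i.2) _ (mem_powerset.1 hS hψ) fun k => hi (Subtype.ext k))
              (hH _ (mem_powerset.1 hS hψ)) (hH _ (mem_powerset.1 hS i.2)) ht he hb2) hη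
    filter_upwards [Vr, P] with n hV' hP hne c hc
    choose! G hG hG' using fun ψ hψ => hV' ψ hψ hne
    have key := xrnd_core n b T c (fun ψ x => lam (ψ.1 * x + ψ.2))
      (fun ψ t x => G ψ t (WA p (BB p e t) ψ.1 ψ.2 x)) hδ hs hK
      (fun x ψ hψ => by
        have k := (single_le_sum (fun ψ _ => sq_nonneg (c x ψ)) hψ).trans (hV _ (hc x))
        nlinarith [sq_abs (c x ψ), sq_nonneg (|c x ψ| - 1), le_abs_self V, abs_nonneg V])
      (fun ψ x => (abs_lam _).le) (fun ψ hψ => (hG' ψ hψ).trans hb1)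
      (fun t ht => hmax n
        (fun ψ x => G ψ t (WA p (BB p e t) ψ.1 ψ.2 x) * lam (ψ.1 * x + ψ.2))
        (fun ψ hψ x => xgram_mul_le (hG ψ hψ t _).1 (abs_lam _).le)
        (fun S hS ⟨ψ, hψ⟩ => by
          have k := hP t ht S (mem_powerset.2 hS) ψ hψ hψ (fun i => G i.1 t) fun i => by
            rw [(monic_BB hp e hb ht).2, ← (mem_monF.1 (hT _ (hS i.2))).2]
            exact hG _ (hS i.2) t
          refine le_of_eq_of_le (congrArg _ (expect_congr rfl fun z _ => ?_)) k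
          exact (prod_coe_sort S _).symm) c hc)
    rw [div_add' _ _ _ hδ.ne', le_div_iff₀ hδ]
    nlinarith
  filter_upwards [main 0 zero_le_one, main 1 le_rfl] with n h0 h1
  by_cases h : ((n + (p * b + 0) : ℕ) : F) = 0
  · refine h1 ?_
    rw [← add_assoc, Nat.cast_add, Nat.cast_one, show n + p * b = n + (p * b + 0) from rfl, h,
      zero_add]
    exact one_ne_zero
  · exact h0 h

end Pool.Agent.MP_4fffd4_nt.Odd

end

section

/- Families of moduli with few divisors. -/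

set_option autoImplicit false

namespace Pool.Agent.MP_4fffd4_nt.Odd

open Polynomial Finset Filter Topology
open scoped BigOperators

variable {F : Type*} [Field F] [Fintype F]

omit [Fintype F] in
theorem xfam_prod (T : Finset F[X]) (hT : ∀ P ∈ T, P.Monic ∧ Irreducible P) :
    ∀ d : F[X], d.Monic → d ∣ ∏ P ∈ T, P → ∃ T' ⊆ T, d = ∏ P ∈ T', P := by
  classical
  induction T using Finset.induction_on with
  | empty =>
    intro d hd h
    rw [prod_empty] at h
    exact ⟨∅, Subset.refl _, by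
      rw [prod_empty]; exact hd.isUnit_iff.1 (isUnit_of_dvd_one h)⟩
  | insert P T hP ih =>
    intro d hd h
    have ih' := ih fun Q hQ => hT Q (mem_insert_of_mem hQ)
    obtain ⟨hPm, hPi⟩ := hT P (mem_insert_self _ _)
    rw [prod_insert hP] at h
    by_cases hPd : P ∣ d
    · obtain ⟨e, rfl⟩ := hPd
      obtain ⟨T', h1, h2⟩ := ih' e (hPm.of_mul_monic_left hd)
        ((mul_dvd_mul_iff_left hPm.ne_zero).1 h)
      refine ⟨insert P T', insert_subset_insert _ h1, ?_⟩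
      rw [prod_insert fun hh => hP (h1 hh), h2]
    · have hc : IsCoprime d P := (hPi.coprime_iff_not_dvd.2 hPd).symm
      obtain ⟨T', h1, h2⟩ := ih' d hd (hc.dvd_of_dvd_mul_left h)
      exact ⟨T', h1.trans (subset_insert _ _), h2⟩

omit [Fintype F] in
theorem xfam_split {d x y : F[X]} (hd : d.Monic) (h : d ∣ x * y) :
    ∃ d₁ d₂ : F[X], d₁.Monic ∧ d₂.Monic ∧ d₁ ∣ x ∧ d₂ ∣ y ∧ d = d₁ * d₂ := by
  classical
  obtain ⟨e₁, e₂, h1, h2, rfl⟩ := exists_dvd_and_dvd_of_dvd_mul h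
  have hl : e₁.leadingCoeff * e₂.leadingCoeff = 1 := by
    rw [← leadingCoeff_mul]; exact hd
  have u1 : IsUnit (C e₁.leadingCoeff) :=
    isUnit_C.2 (IsUnit.mk0 _ (left_ne_zero_of_mul_eq_one hl))
  have u2 : IsUnit (C e₂.leadingCoeff) :=
    isUnit_C.2 (IsUnit.mk0 _ (right_ne_zero_of_mul_eq_one hl))
  refine ⟨e₁ * C e₂.leadingCoeff, e₂ * C e₁.leadingCoeff, ?_, ?_, u2.mul_right_dvd.2 h1,
    u1.mul_right_dvd.2 h2, ?_⟩
  · rw [Monic.def, leadingCoeff_mul, leadingCoeff_C, hl]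
  · rw [Monic.def, leadingCoeff_mul, leadingCoeff_C, mul_comm, hl]
  · have : C e₂.leadingCoeff * C e₁.leadingCoeff = 1 := by
      rw [← C_mul, mul_comm, hl, C_1]
    linear_combination (-(e₁ * e₂)) * this

omit [Fintype F] in
theorem xfam_pow {d : F[X]} (hd : d.Monic) {j : ℕ} (h : d ∣ X ^ j) : ∃ i : ℕ, d = X ^ i := by
  obtain ⟨i, -, hi⟩ := (dvd_prime_pow prime_X j).1 h
  exact ⟨i, eq_of_monic_of_associated hd (monic_X_pow i) hi⟩

omit [Fintype F] in
theorem xfam_mem {a : F[X]} (ha : a.Monic) {D₀ : ℕ} (h0 : a.natDegree ≤ D₀) (h1 : 1 ≤ D₀)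
    {T : Finset F[X]} (hT : ∀ P ∈ T, P.Monic ∧ Irreducible P) {P : F[X]} (hm : P.Monic)
    (hi : Irreducible P) (hP : D₀ < P.natDegree) {j : ℕ} (h : P ∣ a * X ^ j * ∏ Q ∈ T, Q) :
    P ∈ T := by
  have hp : Prime P := hi.prime
  rcases hp.dvd_or_dvd h with h | h
  · rcases hp.dvd_or_dvd h with h | h
    · have := natDegree_le_of_dvd h ha.ne_zero
      omega
    · have := natDegree_le_of_dvd (hp.dvd_of_dvd_pow h) X_ne_zero
      rw [natDegree_X] at this
      omega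
  · obtain ⟨Q, hQ, hPQ⟩ := (hp.dvd_finsetProd_iff _).1 h
    rwa [eq_of_monic_of_associated hm (hT Q hQ).1 (hi.associated_of_dvd (hT Q hQ).2 hPQ)]

open Classical in
theorem xfam_half {ι : Type*} (U : Finset ι) (w : ι → ℝ) :
    2 ^ U.card ≤ 2 * (U.powerset.filter fun T => ∑ P ∈ U, w P ≤ 2 * ∑ P ∈ T, w P).card := by
  have h1 := card_filter_add_card_filter_not (s := U.powerset)
    (fun T => ∑ P ∈ U, w P ≤ 2 * ∑ P ∈ T, w P)
  have h2 : (U.powerset.filter fun T => ¬ ∑ P ∈ U, w P ≤ 2 * ∑ P ∈ T, w P).card ≤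
      (U.powerset.filter fun T => ∑ P ∈ U, w P ≤ 2 * ∑ P ∈ T, w P).card := by
    refine card_le_card_of_injOn (fun T => U \ T) (fun T hT => ?_) (fun T hT T' hT' e => ?_)
    · obtain ⟨h3, h4⟩ := mem_filter.1 (mem_coe.1 hT)
      refine mem_coe.2 (mem_filter.2 ⟨mem_powerset.2 sdiff_subset, ?_⟩)
      have := sum_sdiff (f := w) (mem_powerset.1 h3)
      linarith [not_le.1 h4]
    · have h3 := mem_powerset.1 (mem_filter.1 (mem_coe.1 hT)).1
      have h4 := mem_powerset.1 (mem_filter.1 (mem_coe.1 hT')).1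
      have e' : U \ T = U \ T' := e
      rw [← Finset.sdiff_sdiff_eq_self h3, e', Finset.sdiff_sdiff_eq_self h4]
  rw [card_powerset] at h1
  omega

theorem exists_fam {a : F[X]} (ha : a.Monic) {D₀ : ℕ} (h0 : a.natDegree ≤ D₀) (h1 : 1 ≤ D₀)
    (D₁ N : ℕ) : ∃ (A : ℕ) (𝒜 : Finset F[X]), N ≤ A ∧
      Fam a D₀ D₁ A (2 * (Fintype.card F : ℝ) ^ (a.natDegree + 1)) 𝒜 := by
  classical
  obtain ⟨U, hU⟩ : ∃ U, U = prmI F D₀ D₁ := ⟨_, rfl⟩
  have hUm : ∀ P ∈ U, P.Monic ∧ Irreducible P ∧ D₀ < P.natDegree := fun P hP => by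
    obtain ⟨h2, h3, h4, -⟩ := mem_prmI.1 (hU ▸ hP)
    exact ⟨h2, h3, h4⟩
  have hsub : ∀ T ⊆ U, ∀ P ∈ T, P.Monic ∧ Irreducible P := fun T hT P hP =>
    ⟨(hUm P (hT hP)).1, (hUm P (hT hP)).2.1⟩
  have hmon : ∀ T ⊆ U, (∏ P ∈ T, P).Monic := fun T hT =>
    monic_prod_of_monic _ _ fun P hP => (hsub T hT P hP).1
  obtain ⟨N₀, hN₀⟩ : ∃ N₀, N₀ = N + (∏ P ∈ U, P).natDegree := ⟨_, rfl⟩
  have hdeg : ∀ T ⊆ U, (∏ P ∈ T, P).natDegree ≤ N₀ := fun T hT => by
    have := natDegree_le_of_dvd (prod_dvd_prod_of_subset T U (fun P => P) hT)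
      (hmon U (Subset.refl _)).ne_zero
    omega
  obtain ⟨f, hf⟩ : ∃ f : Finset F[X] → F[X],
      ∀ T, f T = a * X ^ (N₀ - (∏ P ∈ T, P).natDegree) * ∏ P ∈ T, P := ⟨_, fun _ => rfl⟩
  obtain ⟨G, hG⟩ : ∃ G, G = U.powerset.filter fun T =>
      ∑ P ∈ U, 1 / (Fintype.card F : ℝ) ^ P.natDegree ≤
        2 * ∑ P ∈ T, 1 / (Fintype.card F : ℝ) ^ P.natDegree := ⟨_, rfl⟩
  have hGU : ∀ T ∈ G, T ⊆ U := fun T hT => mem_powerset.1 (mem_filter.1 (hG ▸ hT)).1
  have hhalf : 2 ^ U.card ≤ 2 * G.card := by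
    rw [hG]
    convert xfam_half U fun P => 1 / (Fintype.card F : ℝ) ^ P.natDegree
  have hinj : Set.InjOn f G := by
    have key : ∀ T ⊆ U, ∀ T' ⊆ U, f T = f T' → T ⊆ T' := fun T hT T' hT' e P hP => by
      have h2 : P ∣ f T' := by
        rw [← e, hf]
        exact (dvd_prod_of_mem (fun P => P) hP).mul_left _
      rw [hf] at h2
      exact xfam_mem ha h0 h1 (hsub T' hT') (hUm P (hT hP)).1 (hUm P (hT hP)).2.1
        (hUm P (hT hP)).2.2 h2
    intro T hT T' hT' e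
    exact Subset.antisymm (key T (hGU T hT) T' (hGU T' hT') e)
      (key T' (hGU T' hT') T (hGU T hT) e.symm)
  have hcard : (G.image f).card = G.card := card_image_of_injOn hinj
  refine ⟨a.natDegree + N₀, G.image f, by omega, ?_, ?_, ?_, ?_⟩
  · rw [← card_pos, hcard]
    have : 0 < 2 ^ U.card := by positivity
    omega
  · intro α hα
    obtain ⟨T, hT, rfl⟩ := mem_image.1 hα
    have h2 := hmon T (hGU T hT)
    have h3 := hdeg T (hGU T hT)
    rw [hf, mem_monF]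
    refine ⟨(ha.mul (monic_X_pow _)).mul h2, ?_⟩
    rw [(ha.mul (monic_X_pow _)).natDegree_mul h2, ha.natDegree_mul (monic_X_pow _),
      natDegree_X_pow]
    omega
  · intro α hα
    obtain ⟨T, hT, rfl⟩ := mem_image.1 hα
    refine ⟨T, hU ▸ hGU T hT, _, hf T, ?_⟩
    rw [LL, ← hU]
    rw [hG] at hT
    have h2 := mem_filter.1 hT
    exact h2.2
  · intro r
    have h2 : ∑ α' ∈ monF F r, ind (∃ α ∈ G.image f, α' ∣ α) =
        (((monF F r).filter fun α' => ∃ α ∈ G.image f, α' ∣ α).card : ℝ) := by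
      rw [card_filter, Nat.cast_sum]
      refine sum_congr rfl fun α' _ => ?_
      by_cases h : ∃ α ∈ G.image f, α' ∣ α
      · rw [ind_pos h, if_pos h, Nat.cast_one]
      · rw [ind_neg h, if_neg h, Nat.cast_zero]
    have h3 : ((monF F r).filter fun α' => ∃ α ∈ G.image f, α' ∣ α) ⊆
        (monLE F a.natDegree ×ˢ U.powerset).image fun z =>
          z.1 * X ^ (r - z.1.natDegree - (∏ P ∈ z.2, P).natDegree) * ∏ P ∈ z.2, P := by
      intro α' hα'
      obtain ⟨h4, α, hα, h5⟩ := mem_filter.1 hα'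
      obtain ⟨T, hT, rfl⟩ := mem_image.1 hα
      obtain ⟨h6, h7⟩ := mem_monF.1 h4
      rw [hf] at h5
      obtain ⟨d₁, d₂, m1, m2, e1, e2, rfl⟩ := xfam_split h6 h5
      obtain ⟨d₃, d₄, m3, m4, e3, e4, rfl⟩ := xfam_split m1 e1
      obtain ⟨i, rfl⟩ := xfam_pow m4 e4
      obtain ⟨T', hT', rfl⟩ := xfam_prod T (hsub T (hGU T hT)) d₂ m2 e2
      refine mem_image.2 ⟨(d₃, T'), mem_product.2 ⟨mem_monLE.2
        ⟨m3, natDegree_le_of_dvd e3 ha.ne_zero⟩, mem_powerset.2 (hT'.trans (hGU T hT))⟩, ?_⟩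
      rw [m1.natDegree_mul m2, m3.natDegree_mul m4, natDegree_X_pow] at h7
      have : r - d₃.natDegree - (∏ P ∈ T', P).natDegree = i := by omega
      simp only [this]
    have h4 := (card_le_card h3).trans card_image_le
    rw [card_product, card_powerset] at h4
    have h5 : ((monF F r).filter fun α' => ∃ α ∈ G.image f, α' ∣ α).card ≤
        2 * Fintype.card F ^ (a.natDegree + 1) * (G.image f).card := by
      refine h4.trans ((Nat.mul_le_mul (card_monLE _) hhalf).trans (le_of_eq ?_))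
      rw [hcard]; ring
    rw [h2]
    exact_mod_cast h5

end Pool.Agent.MP_4fffd4_nt.Odd

end

section

/- First and second moments for divisibility in a residue system. -/

set_option autoImplicit false

namespace Pool.Agent.MP_4fffd4_nt.Odd

open Polynomial Finset Filter Topology
open scoped BigOperators

variable {F : Type*} [Field F] [Fintype F]

theorem prob_dvd {e : F[X]} (he : e.Monic) {A : ℕ} (hA : e.natDegree ≤ A) (h : F[X]) :
    𝔼 β ∈ ltF F A, ind (e ∣ β + h) = 1 / (Fintype.card F : ℝ) ^ e.natDegree := by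
  have hq := card_pos' (F := F)
  have hv : ((h - X ^ A) %ₘ e).degree < A :=
    (degree_modByMonic_lt _ he).trans_le (by
      rw [degree_eq_natDegree he.ne_zero]
      exact_mod_cast hA)
  have h1 : 𝔼 β ∈ ltF F A, ind (e ∣ β + h) = 𝔼 x ∈ monF F A, ind (e ∣ x) := by
    rw [expect_monF, ← expect_ltF A fun β => ind (e ∣ X ^ A + β), expect_ltF_eq, expect_ltF_eq,
      ← sum_ltF_add hv fun β => ind (e ∣ X ^ A + β)]
    congr 1
    refine sum_congr rfl fun β _ => ind_congr ?_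
    have h3 : β + h = X ^ A + (β + (h - X ^ A) %ₘ e) + e * ((h - X ^ A) /ₘ e) := by
      linear_combination -modByMonic_add_div (h - X ^ A) e
    rw [h3]
    exact dvd_add_left (dvd_mul_right _ _)
  obtain ⟨k, rfl⟩ : ∃ k, A = k + e.natDegree := ⟨A - e.natDegree, by omega⟩
  have h2 := xtkm_sum he k fun _ => 1
  simp only [mul_one, sum_const, card_monF, nsmul_eq_mul, Nat.cast_pow] at h2
  rw [h1, expect_monF_eq, h2, pow_add]
  field_simp

theorem none_le (T : Finset F[X]) (hT : ∀ P ∈ T, P.Monic ∧ Irreducible P) {A : ℕ}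
    (hA : (∏ P ∈ T, P).natDegree ≤ A) (h : F[X]) {L : ℝ} (hL : 0 < L)
    (hLT : L ≤ ∑ P ∈ T, 1 / (Fintype.card F : ℝ) ^ P.natDegree) :
    𝔼 β ∈ ltF F A, ind (∀ P ∈ T, ¬ P ∣ β + h) ≤ 1 / L := by
  classical
  have h0 : (∏ P ∈ T, P) ≠ 0 := (monic_prod_of_monic _ _ fun P hP => (hT P hP).1).ne_zero
  have hE : ∀ e : F[X], e.Monic → e ∣ ∏ P ∈ T, P →
      |(𝔼 β ∈ ltF F A, ind (e ∣ β + h)) - xtkmW e| = 0 := fun e he hd => by
    rw [prob_dvd he ((natDegree_le_of_dvd hd h0).trans hA), xtkmW, sub_self, abs_zero]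
  set M : ℝ := ∑ P ∈ T, 1 / (Fintype.card F : ℝ) ^ P.natDegree with hM
  have hM0 : 0 < M := hL.trans_le hLT
  have hv := xtkm_var (ltF F A) (fun β => β + h) T hT monic_one
    (fun R _ => isCoprime_one_right) _ (fun _ => rfl) (L := M) rfl
  rw [hE 1 monic_one (one_dvd _), sum_eq_zero (s := T) (f := fun R => |_ - xtkmW (R * 1)|)
    fun R hR => hE _ ((hT R hR).1.mul monic_one) (by
      rw [mul_one]
      exact dvd_prod_of_mem _ hR), sum_eq_zero fun R hR => sum_eq_zero fun R' hR' => by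
        split_ifs with hne
        · refine hE _ ((hT R' hR').1.mul ((hT R hR).1.mul monic_one)) ?_
          rw [mul_one]
          exact (xtkm_cop (hT R' hR').1 (hT R' hR').2 (hT R hR).1 (hT R hR).2 hne).mul_dvd
            (dvd_prod_of_mem _ hR') (dvd_prod_of_mem _ hR)
        · rfl] at hv
  have key : M ^ 2 * 𝔼 β ∈ ltF F A, ind (∀ P ∈ T, ¬ P ∣ β + h) ≤ M := by
    refine le_trans ?_ (hv.trans_eq (by simp [xtkmW]))
    rw [mul_expect]
    refine expect_le_expect fun β _ => ?_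
    by_cases hb : ∀ P ∈ T, ¬ P ∣ β + h
    · rw [ind_pos hb, ind_pos (one_dvd _), sum_eq_zero fun R hR => ind_neg (hb R hR)]
      exact le_of_eq (by ring)
    · rw [ind_neg hb, mul_zero]
      exact mul_nonneg (ind_nonneg _) (sq_nonneg _)
  refine le_trans ?_ (one_div_le_one_div_of_le hL hLT)
  rw [le_div_iff₀ hM0]
  refine le_of_mul_le_mul_left ?_ hM0
  nlinarith

omit [Fintype F] in
theorem xmom_le {α : F[X]} (hα : α ≠ 0) (u : F[X]) : sg α u ≤ α.natDegree :=
  natDegree_le_of_dvd (gc_dvd_left α u) hα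

omit [Fintype F] in
theorem xmom_mul {α γ : F[X]} (hα : α ≠ 0) (hγ : γ ≠ 0) (u : F[X]) :
    sg (α * γ) u ≤ sg α u + sg γ u := by
  obtain ⟨d₁, d₂, h1, h2, h3⟩ := exists_dvd_and_dvd_of_dvd_mul (gc_dvd_left (α * γ) u)
  have h4 : d₁ * d₂ ∣ u := h3 ▸ gc_dvd_right (α * γ) u
  rw [sg, h3]
  exact natDegree_mul_le.trans (add_le_add
    (natDegree_le_of_dvd (dvd_gc h1 (dvd_of_mul_right_dvd h4)) (gc_monic hα u).ne_zero)
    (natDegree_le_of_dvd (dvd_gc h2 (dvd_of_mul_left_dvd h4)) (gc_monic hγ u).ne_zero))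

omit [Fintype F] in
theorem xmom_irr {P : F[X]} (hP : Irreducible P) (u : F[X]) :
    (sg P u : ℝ) ≤ P.natDegree * ind (P ∣ u) := by
  by_cases h : P ∣ u
  · rw [ind_pos h, mul_one]
    exact_mod_cast xmom_le hP.ne_zero u
  · rw [ind_neg h, mul_zero, sg, natDegree_eq_zero_of_isUnit
      ((hP.coprime_iff_not_dvd.2 h).isUnit_of_dvd' (gc_dvd_left P u) (gc_dvd_right P u)),
      Nat.cast_zero]

omit [Fintype F] in
theorem xmom_prod (T : Finset F[X]) (hT : ∀ P ∈ T, Irreducible P) (u : F[X]) :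
    (sg (∏ P ∈ T, P) u : ℝ) ≤ ∑ P ∈ T, P.natDegree * ind (P ∣ u) := by
  classical
  induction T using Finset.induction_on with
  | empty =>
    have := xmom_le (one_ne_zero (α := F[X])) u
    rw [natDegree_one] at this
    rw [prod_empty, sum_empty]
    exact_mod_cast this
  | insert P T hP ih =>
    have h1 := ih fun R hR => hT R (mem_insert_of_mem hR)
    have h2 := xmom_irr (hT P (mem_insert_self _ _)) u
    have h3 : (sg (P * ∏ R ∈ T, R) u : ℝ) ≤ sg P u + sg (∏ R ∈ T, R) u := by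
      exact_mod_cast xmom_mul (hT P (mem_insert_self _ _)).ne_zero
        (prod_ne_zero_iff.2 fun R hR => (hT R (mem_insert_of_mem hR)).ne_zero) u
    rw [prod_insert hP, sum_insert hP]
    linarith

omit [Fintype F] in
theorem xmom_pow (j : ℕ) (u : F[X]) :
    (sg (X ^ j) u : ℝ) ≤ ∑ i ∈ Ico (0 + 1) (j + 1), ind (X ^ i ∣ u) := by
  obtain ⟨i, hi, h⟩ := (dvd_prime_pow prime_X j).1 (gc_dvd_left (X ^ j) u)
  have h1 : X ^ i ∣ u := h.symm.dvd.trans (gc_dvd_right _ u)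
  rw [sg, natDegree_eq_of_degree_eq (degree_eq_degree_of_associated h), natDegree_X_pow]
  refine le_trans (le_of_eq ?_) (sum_le_sum_of_subset_of_nonneg
    (Ico_subset_Ico_right (Nat.succ_le_succ hi)) fun _ _ _ => ind_nonneg _)
  rw [sum_congr rfl fun k hk => ind_pos
    ((pow_dvd_pow X (Nat.le_of_lt_succ (mem_Ico.1 hk).2)).trans h1)]
  simp

theorem xmom_sum (D₀ D₁ : ℕ) :
    ∑ P ∈ prmI F D₀ D₁, (P.natDegree : ℝ) * (1 / (Fintype.card F : ℝ) ^ P.natDegree) ≤ D₁ := by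
  have hq := card_pos' (F := F)
  rw [sum_prmI]
  refine (sum_le_card_nsmul _ _ 1 fun d hd => ?_).trans ?_
  · have h1 : (d : ℝ) * (prm F d).card ≤ (Fintype.card F : ℝ) ^ d := by
      exact_mod_cast card_prm_le (F := F) (d := d) (by have := (mem_Ioc.1 hd).1; omega)
    rw [sum_congr rfl fun P hP => by rw [(mem_prm.1 hP).2.2], sum_const, nsmul_eq_mul,
      mul_one_div, ← mul_div_assoc, div_le_one (by positivity), mul_comm]
    exact h1
  · rw [Nat.card_Ioc, nsmul_eq_mul, mul_one]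
    exact_mod_cast Nat.sub_le _ _

theorem mean_le {a : F[X]} (ha : a.Monic) {D₀ D₁ : ℕ} {T : Finset F[X]} (hT : T ⊆ prmI F D₀ D₁)
    (j : ℕ) {A : ℕ} (hA : (a * X ^ j * ∏ P ∈ T, P).natDegree = A) (h : F[X]) :
    𝔼 β ∈ ltF F A, (sg (a * X ^ j * ∏ P ∈ T, P) (β + h) : ℝ) ≤ a.natDegree + 1 + D₁ := by
  have hP : ∀ P ∈ T, P.Monic ∧ Irreducible P := fun P h =>
    ⟨(mem_prmI.1 (hT h)).1, (mem_prmI.1 (hT h)).2.1⟩
  have hm : (∏ P ∈ T, P).Monic := monic_prod_of_monic _ _ fun P h => (hP P h).1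
  have hX : (X ^ j : F[X]).Monic := monic_X_pow j
  rw [(ha.mul hX).natDegree_mul hm, ha.natDegree_mul hX, natDegree_X_pow] at hA
  have hpt : ∀ u : F[X], (sg (a * X ^ j * ∏ P ∈ T, P) u : ℝ) ≤ a.natDegree +
      ∑ i ∈ Ico (0 + 1) (j + 1), ind (X ^ i ∣ u) + ∑ P ∈ T, P.natDegree * ind (P ∣ u) := by
    intro u
    have h1 := xmom_mul (ha.mul hX).ne_zero hm.ne_zero u
    have h2 := xmom_mul ha.ne_zero hX.ne_zero u
    have h3 := xmom_le ha.ne_zero u
    have h4 : (sg (a * X ^ j * ∏ P ∈ T, P) u : ℝ) ≤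
        a.natDegree + sg (X ^ j) u + sg (∏ P ∈ T, P) u := by
      exact_mod_cast h1.trans (by omega)
    have h5 := xmom_pow j u
    have h6 := xmom_prod T (fun P h => (hP P h).2) u
    linarith
  refine (expect_le_expect fun β _ => hpt (β + h)).trans ?_
  rw [expect_add_distrib, expect_add_distrib, expect_const (ltF_nonempty A), expect_sum_comm,
    expect_sum_comm]
  refine add_le_add (add_le_add le_rfl ?_) ?_
  · refine (le_of_eq (sum_congr rfl fun i hi => ?_)).trans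
      ((geom_tail (F := F) 0 (j + 1)).trans_eq (by simp))
    have := (mem_Ico.1 hi).2
    rw [prob_dvd (monic_X_pow i) (by rw [natDegree_X_pow]; omega), natDegree_X_pow]
  · refine (le_of_eq (sum_congr rfl fun P hPT => ?_)).trans ((sum_le_sum_of_subset_of_nonneg hT
      fun _ _ _ => by positivity).trans (xmom_sum D₀ D₁))
    have := natDegree_le_of_dvd (dvd_prod_of_mem (fun P => P) hPT) hm.ne_zero
    rw [← mul_expect, prob_dvd (hP P hPT).1 (by omega)]

end Pool.Agent.MP_4fffd4_nt.Odd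

end

section

/- Two gcds rarely have almost the same degree. -/

set_option autoImplicit false

namespace Pool.Agent.MP_4fffd4_nt.Odd

open Polynomial Finset Filter Topology
open scoped BigOperators

variable {F : Type*} [Field F] [Fintype F]

omit [Fintype F] in
theorem xtie_pos {P a u : F[X]} (hP : P.Monic) (hPi : Irreducible P) (ha : a ≠ 0)
    (hc : ¬ P ∣ a) (hu : P ∣ u) : sg (P * a) u = sg a u + P.natDegree := by
  have h1 : gc (P * a) u = P * gc a u := by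
    refine gc_eq (mul_ne_zero hP.ne_zero ha) (hP.mul (gc_monic ha u))
      (mul_dvd_mul_left P (gc_dvd_left a u)) (IsCoprime.mul_dvd ?_ hu (gc_dvd_right a u))
      fun e h1 h2 => ?_
    · exact hPi.coprime_iff_not_dvd.2 fun h => hc (h.trans (gc_dvd_left a u))
    · obtain ⟨e1, e2, h3, h4, rfl⟩ := exists_dvd_and_dvd_of_dvd_mul h1
      exact mul_dvd_mul h3 (dvd_gc h4 ((dvd_mul_left e2 e1).trans h2))
  rw [sg, h1, hP.natDegree_mul (gc_monic ha u), add_comm, sg]

omit [Fintype F] in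
theorem xtie_neg {P a u : F[X]} (hP : P.Monic) (hPi : Irreducible P) (ha : a ≠ 0)
    (hu : ¬ P ∣ u) : sg (P * a) u = sg a u := by
  have h1 : gc (P * a) u = gc a u := by
    refine gc_eq (mul_ne_zero hP.ne_zero ha) (gc_monic ha u)
      ((gc_dvd_left a u).mul_left P) (gc_dvd_right a u) fun e h1 h2 => ?_
    obtain ⟨e1, e2, h3, h4, rfl⟩ := exists_dvd_and_dvd_of_dvd_mul h1
    have h5 : IsUnit e1 := (hPi.coprime_iff_not_dvd.2 hu).isUnit_of_dvd' h3
      ((dvd_mul_right e1 e2).trans h2)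
    exact (h5.mul_left_dvd).2 (dvd_gc h4 ((dvd_mul_left e2 e1).trans h2))
  rw [sg, h1, sg]

omit [Fintype F] in
theorem xtie_mod {a : F[X]} (ha : a ≠ 0) (β c h : F[X]) :
    sg a (β + a * c + h) = sg a (β + h) := by
  have e : β + a * c + h = β + h + a * c := by ring
  have h1 : gc a (β + a * c + h) = gc a (β + h) := by
    rw [e]
    exact gc_eq ha (gc_monic ha _) (gc_dvd_left _ _)
      ((gc_dvd_right _ _).add ((gc_dvd_left _ _).mul_right c))
      fun e h1 h2 => dvd_gc h1 ((dvd_add_left (h1.mul_right c)).1 h2)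
  rw [sg, h1, sg]

theorem xtie_shift {a : F[X]} {t A : ℕ} (hA : a.natDegree + t ≤ A) (f : F[X] → ℝ) :
    𝔼 β ∈ ltF F A, f β = 𝔼 β ∈ ltF F A, 𝔼 c ∈ ltF F t, f (β + a * c) := by
  rw [expect_comm, ← expect_const (ltF_nonempty (F := F) t) (𝔼 β ∈ ltF F A, f β)]
  refine expect_congr rfl fun c hc => ?_
  rw [expect_ltF_eq, expect_ltF_eq, sum_ltF_add]
  by_cases h0 : c = 0
  · rw [h0, mul_zero, degree_zero]
    exact WithBot.bot_lt_coe _
  have h1 := (natDegree_lt_iff_degree_lt h0).2 (mem_ltF.1 hc)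
  have h2 : (a * c).natDegree ≤ _ := natDegree_mul_le
  exact degree_le_natDegree.trans_lt (by exact_mod_cast (by omega))

theorem xtie_prob {P a : F[X]} (hP : P.Monic) (hPi : Irreducible P) (hc : ¬ P ∣ a) (β h : F[X]) :
    𝔼 c ∈ ltF F P.natDegree, ind (P ∣ β + a * c + h) =
      1 / (Fintype.card F : ℝ) ^ P.natDegree := by
  obtain ⟨r, s, hrs⟩ := hPi.coprime_iff_not_dvd.2 hc
  rw [← prob_dvd hP le_rfl (s * (β + h))]
  refine expect_congr rfl fun c _ => ind_congr ⟨fun h1 => ?_, fun h1 => ?_⟩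
  · have e : c + s * (β + h) = s * (β + a * c + h) + P * (r * c) := by
      linear_combination (-c) * hrs
    rw [e]
    exact (h1.mul_left s).add (dvd_mul_right _ _)
  · have e : β + a * c + h = a * (c + s * (β + h)) + P * (r * (β + h)) := by
      linear_combination (-(β + h)) * hrs
    rw [e]
    exact (h1.mul_left a).add (dvd_mul_right _ _)

theorem xtie_one {P a h h' : F[X]} (hP : P.Monic) (hPi : Irreducible P) (ha : a.Monic)
    (hc : ¬ P ∣ a) (hh : ¬ P ∣ h - h') (ht : 2 ≤ P.natDegree) (Δ : ℕ) :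
    𝔼 β ∈ ltF F (P * a).natDegree, ind (P ∣ β + h ∧
        sg (P * a) (β + h) < sg (P * a) (β + h') + Δ ∧
        sg (P * a) (β + h') < sg (P * a) (β + h) + Δ) ≤
      2 / (Fintype.card F : ℝ) ^ P.natDegree * 𝔼 β ∈ ltF F (P * a).natDegree,
        ind (sg (P * a) (β + h) + P.natDegree < sg (P * a) (β + h') + Δ ∧
          sg (P * a) (β + h') < sg (P * a) (β + h) + P.natDegree + Δ) := by
  have hq := card_pos' (F := F)
  have ha0 := ha.ne_zero
  have hA : a.natDegree + P.natDegree ≤ (P * a).natDegree := by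
    rw [hP.natDegree_mul ha, add_comm]
  set Y : F[X] → ℝ := fun β => ind (sg a (β + h) + P.natDegree < sg a (β + h') + Δ ∧
    sg a (β + h') < sg a (β + h) + P.natDegree + Δ) with hY
  have hY0 : 0 ≤ 𝔼 β ∈ ltF F (P * a).natDegree, Y β := expect_nonneg fun β _ => ind_nonneg _
  set x : ℝ := 1 / (Fintype.card F : ℝ) ^ P.natDegree with hx
  have hx0 : 0 ≤ x := by positivity
  have hx4 : x ≤ 1 / 4 := by
    refine one_div_le_one_div_of_le (by norm_num) ?_
    calc (4 : ℝ) = 2 ^ 2 := by norm_num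
      _ ≤ 2 ^ P.natDegree := pow_le_pow_right₀ one_le_two ht
      _ ≤ _ := pow_le_pow_left₀ two_pos.le two_le_card _
  have h1 : 𝔼 β ∈ ltF F (P * a).natDegree, ind (P ∣ β + h ∧
      sg (P * a) (β + h) < sg (P * a) (β + h') + Δ ∧
      sg (P * a) (β + h') < sg (P * a) (β + h) + Δ) ≤
      x * 𝔼 β ∈ ltF F (P * a).natDegree, Y β := by
    rw [xtie_shift hA, mul_expect]
    refine expect_le_expect fun β _ => ?_
    rw [hx, ← xtie_prob hP hPi hc β h, expect_mul]
    refine expect_le_expect fun c _ => ?_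
    rw [← ind_and]
    refine ind_mono fun ⟨k1, k2⟩ => ⟨k1, ?_⟩
    have k3 : ¬ P ∣ β + a * c + h' := fun k => hh (by simpa using k1.sub k)
    rwa [xtie_pos hP hPi ha0 k1 (hc := hc), xtie_neg hP hPi ha0 k3, xtie_mod ha0,
      xtie_mod ha0] at k2
  have h2 : (1 - 2 * x) * 𝔼 β ∈ ltF F (P * a).natDegree, Y β ≤
      𝔼 β ∈ ltF F (P * a).natDegree,
        ind (sg (P * a) (β + h) + P.natDegree < sg (P * a) (β + h') + Δ ∧
          sg (P * a) (β + h') < sg (P * a) (β + h) + P.natDegree + Δ) := by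
    rw [xtie_shift hA (fun β => ind (sg (P * a) (β + h) + P.natDegree < _ ∧ _)), mul_expect]
    refine expect_le_expect fun β _ => ?_
    have e : (1 - 2 * x) * Y β = 𝔼 c ∈ ltF F P.natDegree,
        (1 - ind (P ∣ β + a * c + h) - ind (P ∣ β + a * c + h')) * Y β := by
      rw [← expect_mul, expect_sub_distrib, expect_sub_distrib, xtie_prob hP hPi hc,
        xtie_prob hP hPi hc, expect_const (ltF_nonempty _), hx]
      ring
    rw [e]
    refine expect_le_expect fun c _ => ?_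
    have y0 : 0 ≤ Y β := ind_nonneg _
    by_cases k1 : P ∣ β + a * c + h
    · refine le_trans (mul_nonpos_of_nonpos_of_nonneg ?_ y0) (ind_nonneg _)
      rw [ind_pos k1]
      linarith [ind_nonneg (P ∣ β + a * c + h')]
    by_cases k2 : P ∣ β + a * c + h'
    · refine le_trans (mul_nonpos_of_nonpos_of_nonneg ?_ y0) (ind_nonneg _)
      rw [ind_pos k2]
      linarith [ind_nonneg (P ∣ β + a * c + h)]
    rw [ind_neg k1, ind_neg k2, xtie_neg hP hPi ha0 k1, xtie_neg hP hPi ha0 k2, xtie_mod ha0,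
      xtie_mod ha0, sub_zero, sub_zero, one_mul]
  refine h1.trans (le_trans ?_ (mul_le_mul_of_nonneg_left h2 (by positivity)))
  rw [← mul_one_div 2, ← hx, ← mul_assoc]
  refine mul_le_mul_of_nonneg_right ?_ hY0
  nlinarith

theorem xtie_count (s : Finset ℕ) (x y Δ : ℕ) :
    ∑ t ∈ s, ind (x + t < y + Δ ∧ y < x + t + Δ) ≤ 2 * Δ := by
  classical
  have h1 : ∑ t ∈ s, ind (x + t < y + Δ ∧ y < x + t + Δ) =
      ((s.filter fun t => x + t < y + Δ ∧ y < x + t + Δ).card : ℝ) := by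
    rw [card_filter]
    push_cast
    exact sum_congr rfl fun t _ => by unfold ind; congr
  have h2 : (s.filter fun t => x + t < y + Δ ∧ y < x + t + Δ) ⊆
      Ico (y - (x + Δ)) (y - (x + Δ) + 2 * Δ) := fun t ht => by
    have := (mem_filter.1 ht).2
    exact mem_Ico.2 (by omega)
  have h3 := card_le_card h2
  rw [Nat.card_Ico, Nat.add_sub_cancel_left] at h3
  rw [h1]
  exact_mod_cast h3

theorem tie_le {α : F[X]} (hα : α.Monic) {D₀ : ℕ} (hD : 2 ≤ D₀) (T : Finset F[X]) (h h' : F[X])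
    (hT : ∀ P ∈ T, P.Monic ∧ Irreducible P ∧ D₀ < P.natDegree ∧ P ∣ α ∧ ¬ P ^ 2 ∣ α ∧
      ¬ P ∣ h - h') (Δ : ℕ) :
    𝔼 β ∈ ltF F α.natDegree, ind ((∃ P ∈ T, P ∣ β + h) ∧ sg α (β + h) < sg α (β + h') + Δ ∧
      sg α (β + h') < sg α (β + h) + Δ) ≤ 4 * Δ / D₀ := by
  have hq := card_pos' (F := F)
  have hD0 : (0 : ℝ) < D₀ := by exact_mod_cast (by omega : 0 < D₀)
  set Z : ℕ → ℝ := fun t => 𝔼 β ∈ ltF F α.natDegree,
    ind (sg α (β + h) + t < sg α (β + h') + Δ ∧ sg α (β + h') < sg α (β + h) + t + Δ) with hZ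
  have hZ0 : ∀ t, 0 ≤ Z t := fun t => expect_nonneg fun β _ => ind_nonneg _
  have h1 : ∀ P ∈ T, 𝔼 β ∈ ltF F α.natDegree, ind (P ∣ β + h ∧
      sg α (β + h) < sg α (β + h') + Δ ∧ sg α (β + h') < sg α (β + h) + Δ) ≤
      2 / (Fintype.card F : ℝ) ^ P.natDegree * Z P.natDegree := by
    intro P hP
    obtain ⟨a1, a2, a3, ⟨a, rfl⟩, a5, a6⟩ := hT P hP
    exact xtie_one a1 a2 (a1.of_mul_monic_left hα)
      (fun k => a5 (by rw [sq]; exact mul_dvd_mul_left P k)) a6 (by omega) Δ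
  have h2 : T ⊆ prmI F D₀ α.natDegree := fun P hP => by
    obtain ⟨a1, a2, a3, a4, -⟩ := hT P hP
    exact mem_prmI.2 ⟨a1, a2, a3, natDegree_le_of_dvd a4 hα.ne_zero⟩
  calc _ ≤ 𝔼 β ∈ ltF F α.natDegree, ∑ P ∈ T, ind (P ∣ β + h ∧
        sg α (β + h) < sg α (β + h') + Δ ∧ sg α (β + h') < sg α (β + h) + Δ) :=
        expect_le_expect fun β _ => ind_le_sum fun ⟨⟨P, k1, k2⟩, k3⟩ => ⟨P, k1, k2, k3⟩
    _ ≤ ∑ P ∈ T, 2 / (Fintype.card F : ℝ) ^ P.natDegree * Z P.natDegree := by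
        rw [expect_sum_comm]
        exact sum_le_sum h1
    _ ≤ ∑ P ∈ prmI F D₀ α.natDegree, 2 / (Fintype.card F : ℝ) ^ P.natDegree * Z P.natDegree :=
        sum_le_sum_of_subset_of_nonneg h2 fun P _ _ => mul_nonneg (by positivity) (hZ0 _)
    _ ≤ ∑ t ∈ Ioc D₀ α.natDegree, 2 / D₀ * Z t := by
        rw [sum_prmI]
        refine sum_le_sum fun t ht => ?_
        have k1 := (mem_Ioc.1 ht).1
        rw [sum_congr rfl fun P hP => by rw [(mem_prm.1 hP).2.2], sum_const, nsmul_eq_mul,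
          ← mul_assoc]
        refine mul_le_mul_of_nonneg_right ?_ (hZ0 t)
        have k2 : (t : ℝ) * (prm F t).card ≤ (Fintype.card F : ℝ) ^ t := by
          exact_mod_cast card_prm_le (F := F) (d := t) (by omega)
        have k3 : (D₀ : ℝ) ≤ t := by exact_mod_cast k1.le
        have k4 : (0 : ℝ) ≤ (prm F t).card := Nat.cast_nonneg _
        rw [← mul_div_assoc, div_le_div_iff₀ (by positivity) hD0]
        nlinarith
    _ ≤ 4 * Δ / D₀ := by
        rw [← mul_sum, hZ, ← expect_sum_comm]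
        refine (mul_le_mul_of_nonneg_left (expect_le (ltF_nonempty _) fun β _ =>
          xtie_count _ _ _ Δ) (by positivity)).trans_eq ?_
        ring

end Pool.Agent.MP_4fffd4_nt.Odd

end

section

/- The exceptional residues. -/

set_option autoImplicit false

namespace Pool.Agent.MP_4fffd4_nt.Odd

open Polynomial Finset Filter Topology
open scoped BigOperators

variable {F : Type*} [Field F] [Fintype F]

theorem xbad_pt {I : Type*} [Fintype I] (i₁ : I) (g : I → ℕ) (N : I → Prop) {Δ S : ℕ}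
    (hΔ : 0 < Δ) (hS : 0 < S) :
    |1 - ∑ i₀, ∑ s ∈ range S, ind (g i₀ = s ∧ ∀ j, j ≠ i₀ → s + Δ ≤ g j)| ≤
      ∑ i, ∑ j, (ind (¬ N i) + ind (i ≠ j ∧ N i ∧ g i < g j + Δ ∧ g j < g i + Δ)) + g i₁ / S := by
  have hnn : ∀ i j, 0 ≤ ind (¬ N i) + ind (i ≠ j ∧ N i ∧ g i < g j + Δ ∧ g j < g i + Δ) :=
    fun i j => add_nonneg (ind_nonneg _) (ind_nonneg _)
  have h1 : 0 ≤ ∑ i, ∑ j, (ind (¬ N i) + ind (i ≠ j ∧ N i ∧ g i < g j + Δ ∧ g j < g i + Δ)) :=
    sum_nonneg fun i _ => sum_nonneg fun j _ => hnn i j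
  have h2 : (0 : ℝ) ≤ g i₁ / S := by positivity
  by_cases hex : ∃ i₀, ∃ s < S, g i₀ = s ∧ ∀ j, j ≠ i₀ → s + Δ ≤ g j
  · obtain ⟨i₀, s, hs, e1, e2⟩ := hex
    have h3 : ∑ i, ∑ s ∈ range S, ind (g i = s ∧ ∀ j, j ≠ i → s + Δ ≤ g j) = 1 := by
      rw [sum_eq_single i₀, sum_eq_single s, ind_pos ⟨e1, e2⟩]
      · exact fun s' _ hne => ind_neg fun h => hne (h.1.symm.trans e1)
      · exact fun h => absurd (mem_range.2 hs) h
      · refine fun i _ hne => sum_eq_zero fun s' _ => ind_neg fun h => ?_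
        have h4 := e2 i hne
        have h5 := h.2 i₀ hne.symm
        have h6 := h.1
        omega
      · exact fun h => absurd (mem_univ _) h
    rw [h3, sub_self, abs_zero]
    linarith
  · have h3 : ∑ i, ∑ s ∈ range S, ind (g i = s ∧ ∀ j, j ≠ i → s + Δ ≤ g j) = 0 :=
      sum_eq_zero fun i _ => sum_eq_zero fun s hs => ind_neg fun h =>
        hex ⟨i, s, mem_range.1 hs, h⟩
    rw [h3, sub_zero, abs_one]
    obtain ⟨i₀, -, hmin⟩ := exists_min_image univ g ⟨i₁, mem_univ _⟩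
    by_cases hs : g i₀ < S
    · obtain ⟨j, hj, hj'⟩ : ∃ j, j ≠ i₀ ∧ g j < g i₀ + Δ := by
        by_contra hc
        push Not at hc
        exact hex ⟨i₀, g i₀, hs, rfl, hc⟩
      have h4 : 1 ≤ ind (¬ N i₀) + ind (i₀ ≠ j ∧ N i₀ ∧ g i₀ < g j + Δ ∧ g j < g i₀ + Δ) := by
        rw [← ind_pos trivial]
        refine ind_le_add fun _ => ?_
        have := hmin j (mem_univ _)
        by_cases hN : N i₀
        · exact Or.inr ⟨hj.symm, hN, by omega, hj'⟩
        · exact Or.inl hN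
      have h5 := single_le_sum (fun j _ => hnn i₀ j) (mem_univ j)
      have h6 := single_le_sum (fun i _ => sum_nonneg fun j (_ : j ∈ univ) => hnn i j) (mem_univ i₀)
      linarith
    · have h4 : (1 : ℝ) ≤ g i₁ / S := by
        rw [one_le_div (by exact_mod_cast hS)]
        have := hmin i₁ (mem_univ _)
        exact_mod_cast (by omega : S ≤ g i₁)
      linarith

omit [Fintype F] in
theorem xbad_ndvd {P u : F[X]} (hu : u ≠ 0) (h : u.natDegree < P.natDegree) : ¬ P ∣ u :=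
  fun hd => absurd (natDegree_le_of_dvd hd hu) (by omega)

theorem xbad_sq {a : F[X]} (ha : a.Monic) {D₀ D₁ : ℕ} (hD : 2 ≤ D₀) (haD : a.natDegree ≤ D₀)
    {T : Finset F[X]} (hT : T ⊆ prmI F D₀ D₁) (j : ℕ) {P : F[X]} (hP : P ∈ T) :
    ¬ P ^ 2 ∣ a * X ^ j * ∏ Q ∈ T, Q := by
  classical
  obtain ⟨h1, h2, h3, -⟩ := mem_prmI.1 (hT hP)
  intro hd
  rw [← mul_prod_erase T _ hP, mul_left_comm, pow_two, mul_dvd_mul_iff_left h1.ne_zero] at hd
  have hp := h2.prime
  rcases hp.dvd_or_dvd hd with hd | hd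
  · rcases hp.dvd_or_dvd hd with hd | hd
    · exact xbad_ndvd ha.ne_zero (by omega) hd
    · exact xbad_ndvd X_ne_zero (by rw [natDegree_X]; omega) (hp.dvd_of_dvd_pow hd)
  · obtain ⟨Q, hQ, hPQ⟩ := (Prime.dvd_finsetProd_iff hp _).1 hd
    obtain ⟨h4, h5, -⟩ := mem_prmI.1 (hT (mem_of_mem_erase hQ))
    exact (mem_erase.1 hQ).1
      (eq_of_monic_of_associated h1 h4 (h2.associated_of_dvd h5 hPQ)).symm

theorem bad_all {I : Type*} [Fintype I] (i₁ : I) {h : I → F[X]} (hh : Function.Injective h)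
    {a : F[X]} (ha : a.Monic) {D₀ D₁ A : ℕ} {Λ : ℝ} {𝒜 : Finset F[X]} (hF : Fam a D₀ D₁ A Λ 𝒜)
    (hD : 2 ≤ D₀) (haD : a.natDegree ≤ D₀) (hhD : ∀ i, (h i).natDegree ≤ D₀)
    (hL : 0 < LL F D₀ D₁) {Δ S : ℕ} (hΔ : 0 < Δ) (hS : 0 < S) {α : F[X]} (hα : α ∈ 𝒜) :
    𝔼 β ∈ ltF F A, |1 - ∑ i₀, ∑ s ∈ range S, ind (Low h Δ i₀ s α β)| ≤
      (Fintype.card I : ℝ) ^ 2 * (2 / LL F D₀ D₁ + 4 * Δ / D₀) +
        (a.natDegree + 1 + D₁) / S := by
  obtain ⟨hm, hA⟩ := mem_monF.1 (hF.mon α hα)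
  obtain ⟨T, hT, j, hαe, hLT⟩ := hF.shape α hα
  have hTm : ∀ P ∈ T, P.Monic ∧ Irreducible P := fun P hP =>
    ⟨(mem_prmI.1 (hT hP)).1, (mem_prmI.1 (hT hP)).2.1⟩
  have hTd : (∏ P ∈ T, P).natDegree ≤ A := by
    rw [← hA]
    exact natDegree_le_of_dvd (hαe ▸ dvd_mul_left _ _) hm.ne_zero
  have h1 : ∀ i, 𝔼 β ∈ ltF F A, ind (¬ ∃ P ∈ T, P ∣ β + h i) ≤ 2 / LL F D₀ D₁ := by
    intro i
    have h2 := none_le T hTm hTd (h i) (L := LL F D₀ D₁ / 2) (by linarith) (by linarith)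
    rw [one_div_div] at h2
    refine le_trans (le_of_eq (expect_congr rfl fun β _ => ind_congr ?_)) h2
    push Not
    rfl
  have h2 : ∀ i i', 𝔼 β ∈ ltF F A, ind (i ≠ i' ∧ (∃ P ∈ T, P ∣ β + h i) ∧
      sg α (β + h i) < sg α (β + h i') + Δ ∧ sg α (β + h i') < sg α (β + h i) + Δ) ≤
      4 * Δ / D₀ := by
    intro i i'
    by_cases hi : i = i'
    · refine expect_le (ltF_nonempty A) fun β _ => ?_
      rw [ind_neg fun hc => hc.1 hi]
      positivity
    · have h3 := tie_le hm hD T (h i) (h i') (fun P hP => ?_) Δ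
      · rw [hA] at h3
        exact le_trans (expect_le_expect fun β _ => ind_mono fun hc => hc.2) h3
      · obtain ⟨h4, h5, h6, -⟩ := mem_prmI.1 (hT hP)
        refine ⟨h4, h5, h6, hαe ▸ (dvd_prod_of_mem _ hP).mul_left _,
          hαe ▸ xbad_sq ha hD haD hT j hP, xbad_ndvd (sub_ne_zero.2 fun e => hi (hh e)) ?_⟩
        have h7 := natDegree_sub_le (h i) (h i')
        have := hhD i
        have := hhD i'
        omega
  have h3 : 𝔼 β ∈ ltF F A, (sg α (β + h i₁) : ℝ) ≤ a.natDegree + 1 + D₁ := by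
    have h4 := mean_le ha hT j (hαe ▸ hA) (h i₁)
    rwa [← hαe] at h4
  refine le_trans (expect_le_expect fun β _ => xbad_pt i₁ (fun i => sg α (β + h i))
    (fun i => ∃ P ∈ T, P ∣ β + h i) hΔ hS) ?_
  rw [expect_add_distrib, expect_sum_comm, ← expect_div]
  refine add_le_add ?_ (div_le_div_of_nonneg_right h3 (Nat.cast_nonneg _))
  calc _ ≤ ∑ _i : I, ∑ _j : I, (2 / LL F D₀ D₁ + 4 * Δ / D₀) := by
        refine sum_le_sum fun i _ => ?_
        rw [expect_sum_comm]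
        refine sum_le_sum fun i' _ => ?_
        rw [expect_add_distrib]
        exact add_le_add (h1 i) (h2 i i')
    _ = _ := by
        simp only [sum_const, card_univ, nsmul_eq_mul]
        ring

end Pool.Agent.MP_4fffd4_nt.Odd

end

section

/- Counting primitive forms. -/

set_option autoImplicit false

namespace Pool.Agent.MP_4fffd4_nt.Odd

open Polynomial Finset Filter Topology
open scoped BigOperators

variable {F : Type*} [Field F] [Fintype F]

omit [Fintype F] in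
theorem xroots_monic {α : F[X]} (hα : α.Monic) (u : F[X]) : (rt α u).1.Monic :=
  (gc_monic hα.ne_zero u).of_mul_monic_left (by rwa [rt_fst hα.ne_zero])

omit [Fintype F] in
theorem xroots_rel {α : F[X]} (hα : α ≠ 0) (u : F[X]) : IsRelPrime (rt α u).1 (rt α u).2 := by
  intro e h1 h2
  have h3 : gc α u * e ∣ gc α u * 1 := by
    rw [mul_one]
    refine dvd_gc ?_ ?_
    · conv_rhs => rw [← rt_fst hα u]
      exact mul_dvd_mul_left _ h1
    · conv_rhs => rw [← rt_snd hα u]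
      exact mul_dvd_mul_left _ h2
  exact isUnit_of_dvd_one ((mul_dvd_mul_iff_left (gc_monic hα u).ne_zero).1 h3)

theorem xroots_sum_ind {ι : Type*} (s : Finset ι) (P : ι → Prop) [DecidablePred P] :
    ∑ i ∈ s, ind (P i) = ((s.filter P).card : ℝ) := by
  rw [← Finset.sum_boole]
  refine Finset.sum_congr rfl fun i _ => ?_
  split_ifs with h
  · exact ind_pos h
  · exact ind_neg h

omit [Fintype F] in
theorem sg_le {α : F[X]} (hα : α ≠ 0) (u : F[X]) : sg α u ≤ α.natDegree :=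
  natDegree_le_of_dvd (gc_dvd_left α u) hα

theorem rt_mon {α : F[X]} (hα : α.Monic) (u : F[X]) :
    (rt α u).1 ∈ monF F (α.natDegree - sg α u) := by
  refine mem_monF.2 ⟨xroots_monic hα u, ?_⟩
  have h := (gc_monic hα.ne_zero u).natDegree_mul (xroots_monic hα u)
  rw [rt_fst hα.ne_zero] at h
  rw [sg]
  omega

omit [Fintype F] in
theorem rt_deg {α u : F[X]} (hα : α.Monic) (hu : u.degree < α.natDegree) :
    (rt α u).2.degree < (α.natDegree - sg α u : ℕ) := by
  by_cases hb : (rt α u).2 = 0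
  · rw [hb, degree_zero]
    exact WithBot.bot_lt_coe _
  have hg := (gc_monic hα.ne_zero u).ne_zero
  have h := natDegree_mul hg hb
  have hu0 : u ≠ 0 := by
    rw [← rt_snd hα.ne_zero u]
    exact mul_ne_zero hg hb
  rw [rt_snd hα.ne_zero] at h
  rw [← natDegree_lt_iff_degree_lt hu0] at hu
  rw [← natDegree_lt_iff_degree_lt hb, sg]
  omega

omit [Fintype F] in
theorem rt_cross {α α' u u' : F[X]} (hα : α.Monic) (hα' : α'.Monic) (hne : rt α u ≠ rt α' u') :
    (rt α u).1 * (rt α' u').2 ≠ (rt α' u').1 * (rt α u).2 := by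
  intro e
  have h1 : (rt α u).1 ∣ (rt α' u').1 :=
    (xroots_rel hα.ne_zero u).dvd_of_dvd_mul_right ⟨_, e.symm⟩
  have h2 : (rt α' u').1 ∣ (rt α u).1 :=
    (xroots_rel hα'.ne_zero u').dvd_of_dvd_mul_right ⟨_, e⟩
  have h3 := eq_of_monic_of_associated (xroots_monic hα u) (xroots_monic hα' u')
    (associated_of_dvd_dvd h1 h2)
  rw [← h3] at e
  exact hne (Prod.ext h3 (mul_left_cancel₀ (xroots_monic hα u).ne_zero e).symm)

omit [Fintype F] in
theorem lam_rt {α u x : F[X]} (hα : α.Monic) (hu : u.degree < α.natDegree) (hx : x.Monic) :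
    lam (α * x + u) = lam (gc α u) * lam ((rt α u).1 * x + (rt α u).2) := by
  have e : α * x + u = gc α u * ((rt α u).1 * x + (rt α u).2) := by
    rw [mul_add, ← mul_assoc, rt_fst hα.ne_zero, rt_snd hα.ne_zero]
  have h0 : α * x + u ≠ 0 := by
    refine ((hα.mul hx).add_of_left (hu.trans_le ?_)).ne_zero
    rw [← degree_eq_natDegree hα.ne_zero]
    exact degree_le_of_dvd (dvd_mul_right α x) (hα.mul hx).ne_zero
  rw [e] at h0 ⊢
  exact lam_mul (left_ne_zero_of_mul h0) (right_ne_zero_of_mul h0)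

theorem xroots_geom (r A : ℕ) : ∑ s ∈ Icc r A, (Fintype.card F : ℝ) ^ (A - s) ≤
    2 * (Fintype.card F : ℝ) ^ A / (Fintype.card F : ℝ) ^ r := by
  have h2 := two_le_card (F := F)
  have h0 := card_pos' (F := F)
  generalize (Fintype.card F : ℝ) = q at h2 h0 ⊢
  have hq : q⁻¹ ≤ 1 / 2 := by
    rw [one_div]
    exact inv_anti₀ two_pos h2
  have e : ∑ s ∈ Icc r A, q ^ (A - s) = q ^ A * ∑ s ∈ Ico r (A + 1), q⁻¹ ^ s := by
    rw [Finset.mul_sum, Finset.Ico_add_one_right_eq_Icc]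
    refine Finset.sum_congr rfl fun s hs => ?_
    rw [pow_sub₀ _ h0.ne' (mem_Icc.1 hs).2, inv_pow]
  have h3 := geom_sum_Ico_le_of_lt_one (m := r) (n := A + 1) (inv_pos.2 h0).le
    (hq.trans_lt (by norm_num))
  have h4 : q⁻¹ ^ r / (1 - q⁻¹) ≤ 2 * q⁻¹ ^ r := by
    have := pow_pos (inv_pos.2 h0) r
    rw [div_le_iff₀ (by linarith)]
    nlinarith
  rw [e]
  refine (mul_le_mul_of_nonneg_left (h3.trans h4) (pow_pos h0 A).le).trans_eq ?_
  rw [inv_pow, div_eq_mul_inv]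
  ring

theorem card_rts {𝒜 : Finset F[X]} {A : ℕ} {Λ : ℝ} (hmon : ∀ α ∈ 𝒜, α ∈ monF F A)
    (hdiv : ∀ r, ∑ α' ∈ monF F r, ind (∃ α ∈ 𝒜, α' ∣ α) ≤ Λ * 𝒜.card) (r : ℕ) :
    ((rts 𝒜 A r).card : ℝ) ≤
      2 * Λ * (𝒜.card * (Fintype.card F : ℝ) ^ A) / (Fintype.card F : ℝ) ^ r := by
  classical
  have hsub : rts 𝒜 A r ⊆ (Icc r A).biUnion fun s =>
      ((monF F (A - s)).filter fun α' => ∃ α ∈ 𝒜, α' ∣ α) ×ˢ ltF F (A - s) := by
    intro ψ hψ
    rw [rts, mem_image] at hψ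
    obtain ⟨⟨α, u⟩, hz, rfl⟩ := hψ
    rw [mem_filter, mem_product] at hz
    obtain ⟨⟨hα, hu⟩, hr⟩ := hz
    obtain ⟨hm, hd⟩ := mem_monF.1 (hmon α hα)
    refine mem_biUnion.2 ⟨sg α u, mem_Icc.2 ⟨hr, hd ▸ sg_le hm.ne_zero u⟩,
      mem_product.2 ⟨mem_filter.2 ⟨hd ▸ rt_mon hm u, α, hα, ?_⟩, mem_ltF.2 ?_⟩⟩
    · exact Dvd.intro_left _ (rt_fst hm.ne_zero u)
    · exact hd ▸ rt_deg hm (hd.symm ▸ mem_ltF.1 hu)
  have h0 : 0 ≤ Λ * 𝒜.card := (Finset.sum_nonneg fun _ _ => ind_nonneg _).trans (hdiv 0)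
  have h1 := (card_le_card hsub).trans card_biUnion_le
  have h2 : ((rts 𝒜 A r).card : ℝ) ≤
      ∑ s ∈ Icc r A, Λ * 𝒜.card * (Fintype.card F : ℝ) ^ (A - s) := by
    refine (Nat.cast_le.2 h1).trans ?_
    rw [Nat.cast_sum]
    refine Finset.sum_le_sum fun s _ => ?_
    rw [card_product, card_ltF, Nat.cast_mul, Nat.cast_pow]
    refine mul_le_mul_of_nonneg_right ?_ (pow_pos card_pos' _).le
    have := hdiv (A - s)
    rwa [xroots_sum_ind] at this
  rw [← Finset.mul_sum] at h2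
  refine h2.trans ((mul_le_mul_of_nonneg_left (xroots_geom r A) h0).trans_eq ?_)
  ring

theorem fibre_le {𝒜 : Finset F[X]} (hmon : ∀ α ∈ 𝒜, α.Monic) (h : F[X]) (ψ : F[X] × F[X])
    (s A : ℕ) : ∑ α ∈ 𝒜, ∑ β ∈ ltF F A, ind (sg α (β + h) = s ∧ rt α (β + h) = ψ) ≤
      (Fintype.card F : ℝ) ^ s := by
  classical
  rw [← Finset.sum_product', xroots_sum_ind, ← Nat.cast_pow, ← card_monF, Nat.cast_le]
  refine card_le_card_of_injOn (fun z => gc z.1 (z.2 + h)) (fun z hz => ?_) fun z hz z' hz' e => ?_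
  · rw [mem_coe, mem_filter, mem_product] at hz
    exact mem_coe.2 (mem_monF.2 ⟨gc_monic (hmon _ hz.1.1).ne_zero _, hz.2.1⟩)
  · rw [mem_coe, mem_filter, mem_product] at hz hz'
    have e' : gc z.1 (z.2 + h) = gc z'.1 (z'.2 + h) := e
    have a1 := rt_fst (hmon _ hz.1.1).ne_zero (z.2 + h)
    have a2 := rt_snd (hmon _ hz.1.1).ne_zero (z.2 + h)
    have b1 := rt_fst (hmon _ hz'.1.1).ne_zero (z'.2 + h)
    have b2 := rt_snd (hmon _ hz'.1.1).ne_zero (z'.2 + h)
    rw [hz.2.2, e'] at a1 a2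
    rw [hz'.2.2] at b1 b2
    exact Prod.ext (a1.symm.trans b1) (add_right_cancel (a2.symm.trans b2))

end Pool.Agent.MP_4fffd4_nt.Odd

end

section

/- Compression: the forms with a large gcd carry little information. -/

set_option autoImplicit false

namespace Pool.Agent.MP_4fffd4_nt.Odd

open Polynomial Finset Filter Topology
open scoped BigOperators

variable {F : Type*} [Field F] [Fintype F]

theorem xcomp_one {Ψ : Type*} (T : Finset Ψ) (a : Ψ) : ∑ ψ ∈ T, ind (a = ψ) ≤ 1 := by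
  by_cases ha : a ∈ T
  · rw [Finset.sum_eq_single_of_mem a ha fun b _ hb => ind_neg fun e => hb e.symm, ind_pos rfl]
  · rw [Finset.sum_eq_zero fun b hb => ind_neg fun e : a = b => ha (e ▸ hb)]
    exact zero_le_one

theorem xcomp_sq {Y Ψ : Type*} (Z : Finset Y) (hZ : Z.Nonempty) (T : Finset Ψ) (ρ : Y → Ψ)
    (P : Y → Prop) (u : Y → ℝ) (hu : ∀ z, |u z| ≤ ind (P z)) {B : ℝ}
    (hB : ∀ ψ, ∑ z ∈ Z, ind (P z ∧ ρ z = ψ) ≤ B) :
    ∑ ψ ∈ T, ((∑ z ∈ Z, ind (ρ z = ψ) * u z) / Z.card) ^ 2 ≤ B / Z.card := by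
  have hK : (0 : ℝ) < Z.card := by exact_mod_cast hZ.card_pos
  obtain ⟨z₀, _⟩ := hZ
  have hB0 : 0 ≤ B := (Finset.sum_nonneg fun _ _ => ind_nonneg _).trans (hB (ρ z₀))
  have h1 : ∀ ψ, |∑ z ∈ Z, ind (ρ z = ψ) * u z| ≤ B := fun ψ => by
    refine (Finset.abs_sum_le_sum_abs _ _).trans (le_trans (Finset.sum_le_sum fun z _ => ?_) (hB ψ))
    rw [abs_mul, abs_of_nonneg (ind_nonneg _), ind_and, mul_comm]
    exact mul_le_mul_of_nonneg_right (hu z) (ind_nonneg _)
  have h2 : ∑ ψ ∈ T, |∑ z ∈ Z, ind (ρ z = ψ) * u z| ≤ Z.card := by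
    refine (Finset.sum_le_sum (g := fun ψ => ∑ z ∈ Z, ind (ρ z = ψ)) fun ψ _ => ?_).trans ?_
    · refine (Finset.abs_sum_le_sum_abs _ _).trans (Finset.sum_le_sum fun z _ => ?_)
      rw [abs_mul, abs_of_nonneg (ind_nonneg _)]
      exact mul_le_of_le_one_right (ind_nonneg _) ((hu z).trans (ind_le_one _))
    · rw [Finset.sum_comm]
      refine (Finset.sum_le_card_nsmul _ _ 1 fun z _ => xcomp_one T (ρ z)).trans_eq ?_
      rw [nsmul_eq_mul, mul_one]
  calc _ ≤ ∑ ψ ∈ T, |∑ z ∈ Z, ind (ρ z = ψ) * u z| * (B / Z.card ^ 2) := by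
        refine Finset.sum_le_sum fun ψ _ => ?_
        rw [div_pow, ← sq_abs, sq, mul_div_assoc]
        exact mul_le_mul_of_nonneg_left (div_le_div_of_nonneg_right (h1 ψ) (by positivity))
          (abs_nonneg _)
    _ ≤ Z.card * (B / Z.card ^ 2) := by
        rw [← Finset.sum_mul]
        exact mul_le_mul_of_nonneg_right h2 (by positivity)
    _ = _ := by field_simp

theorem xcomp_sum {Y Ψ : Type*} (Z : Finset Y) (T : Finset Ψ) (ρ : Y → Ψ) (u : Y → ℝ)
    (hT : ∀ z ∈ Z, u z ≠ 0 → ρ z ∈ T) (g : Ψ → ℝ) :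
    ∑ ψ ∈ T, (∑ z ∈ Z, ind (ρ z = ψ) * u z) / Z.card * g ψ = 𝔼 z ∈ Z, u z * g (ρ z) := by
  rw [expect_eq_sum_div_card]
  simp only [div_mul_eq_mul_div, ← Finset.sum_div, Finset.sum_mul]
  congr 1
  rw [Finset.sum_comm]
  refine Finset.sum_congr rfl fun z hz => ?_
  by_cases h0 : u z = 0
  · simp [h0]
  · rw [Finset.sum_eq_single_of_mem (ρ z) (hT z hz h0) fun b _ hb => by
      rw [ind_neg fun e => hb e.symm, zero_mul, zero_mul], ind_pos rfl, one_mul]

/-- the weight of a pair, given the signs at the forms with a large gcd -/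
noncomputable def xcompW {I : Type*} [Fintype I] (h : I → F[X]) (κ : F[X] → ℝ) (i₀ : I)
    (s Δ : ℕ) (σ : Finset (F[X] × F[X])) (z : F[X] × F[X]) : ℝ :=
  κ z.2 * ind (Low h Δ i₀ s z.1 z.2) * ∏ j, lam (gc z.1 (z.2 + h j)) *
    (2 * ind (j = i₀ ∨ rt z.1 (z.2 + h j) ∈ σ) - 1)

omit [Fintype F] in
theorem xcomp_abs {I : Type*} [Fintype I] (h : I → F[X]) {κ : F[X] → ℝ} (hκ : ∀ β, |κ β| ≤ 1)
    (i₀ : I) (s Δ : ℕ) (σ : Finset (F[X] × F[X])) (z : F[X] × F[X]) :
    |xcompW h κ i₀ s Δ σ z| ≤ ind (sg z.1 (z.2 + h i₀) = s) := by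
  have h1 : ∀ P : Prop, |2 * ind P - 1| = 1 := fun P => by
    by_cases hP : P
    · rw [ind_pos hP]; norm_num
    · rw [ind_neg hP]; norm_num
  rw [xcompW, abs_mul, abs_mul, Finset.abs_prod]
  simp only [abs_mul, abs_lam, h1, mul_one, Finset.prod_const_one]
  rw [abs_of_nonneg (ind_nonneg _)]
  exact (mul_le_of_le_one_left (ind_nonneg _) (hκ _)).trans (ind_mono fun hL => hL.1)

theorem xcomp_eq {I : Type*} [Fintype I] {h : I → F[X]} {𝒜 : Finset F[X]} {A : ℕ}
    (hmon : ∀ α ∈ 𝒜, α ∈ monF F A) (hh : ∀ i, (h i).degree < A) (κ : F[X] → ℝ) (i₀ : I)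
    (s Δ : ℕ) {x : F[X]} (hx : x.Monic) {σ : Finset (F[X] × F[X])}
    (hσ : ∀ ρ ∈ rts 𝒜 A (s + Δ), ρ ∈ σ ↔ lam (ρ.1 * x + ρ.2) = 1) {α β : F[X]} (hα : α ∈ 𝒜)
    (hβ : β ∈ ltF F A) :
    κ β * ind (Low h Δ i₀ s α β) * ∏ i, lam (α * x + (β + h i)) =
      xcompW h κ i₀ s Δ σ (α, β) *
        lam ((rt α (β + h i₀)).1 * x + (rt α (β + h i₀)).2) := by
  classical
  rw [xcompW]
  by_cases hL : Low h Δ i₀ s α β
  swap
  · simp only [ind_neg hL, mul_zero, zero_mul]
  obtain ⟨h1, h2⟩ := mem_monF.1 (hmon α hα)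
  have hd : ∀ j, (β + h j).degree < A := fun j =>
    (degree_add_le _ _).trans_lt (max_lt (mem_ltF.1 hβ) (hh j))
  rw [mul_assoc (κ β * _), ← Finset.mul_prod_erase _ _ (mem_univ i₀),
    ← Finset.mul_prod_erase _ _ (mem_univ i₀), lam_rt h1 (h2 ▸ hd i₀) hx,
    ind_pos (Or.inl rfl : i₀ = i₀ ∨ _)]
  have h3 : ∀ j ∈ univ.erase i₀, lam (α * x + (β + h j)) = lam (gc α (β + h j)) *
      (2 * ind (j = i₀ ∨ rt α (β + h j) ∈ σ) - 1) := fun j hj => by
    have hj' := ne_of_mem_erase hj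
    have hm : rt α (β + h j) ∈ rts 𝒜 A (s + Δ) := by
      rw [rts]
      exact mem_image.2 ⟨(α, β + h j), mem_filter.2
        ⟨mem_product.2 ⟨hα, mem_ltF.2 (hd j)⟩, hL.2 j hj'⟩, rfl⟩
    rw [lam_rt h1 (h2 ▸ hd j) hx, ind_congr (or_iff_right hj'), ind_congr (hσ _ hm)]
    congr 1
    rcases liou_cases ((rt α (β + h j)).1 * x + (rt α (β + h j)).2) with e | e
    · have : lam ((rt α (β + h j)).1 * x + (rt α (β + h j)).2) = 1 := by simp [lam, e]
      rw [ind_pos this, this]; norm_num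
    · have : lam ((rt α (β + h j)).1 * x + (rt α (β + h j)).2) = -1 := by simp [lam, e]
      rw [this, ind_neg (by norm_num)]; norm_num
  rw [Finset.prod_congr rfl h3]
  ring

theorem compress {δ : ℝ} (hR : Rnd F δ) {I : Type*} [Fintype I] (h : I → F[X])
    {𝒜 : Finset F[X]} {A : ℕ} {Λ : ℝ} (hne : 𝒜.Nonempty) (hmon : ∀ α ∈ 𝒜, α ∈ monF F A)
    (hdiv : ∀ r, ∑ α' ∈ monF F r, ind (∃ α ∈ 𝒜, α' ∣ α) ≤ Λ * 𝒜.card)
    (hh : ∀ i, (h i).degree < A) (κ : F[X] → ℝ) (hκ : ∀ β, |κ β| ≤ 1) (i₀ : I) {s Δ : ℕ}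
    (hs : s + Δ ≤ A) {w ε : ℝ} (hw : 0 < w)
    (hwΛ : (1 + 2 * Λ) / (Fintype.card F : ℝ) ^ Δ ≤ w ^ 2) (hε : 0 < ε) :
    ∀ᶠ n in atTop, |𝔼 α ∈ 𝒜, 𝔼 β ∈ ltF F A, 𝔼 x ∈ monF F n,
      κ β * ind (Low h Δ i₀ s α β) * ∏ i, lam (α * x + (β + h i))| ≤ 4 * w / δ + ε := by
  classical
  have hq := card_pos' (F := F)
  have hq1 : (1 : ℝ) ≤ Fintype.card F := one_le_two.trans two_le_card
  set Z := 𝒜 ×ˢ ltF F A with hZ
  have hZne : Z.Nonempty := hne.product (ltF_nonempty A)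
  have hK : (Z.card : ℝ) = 𝒜.card * (Fintype.card F : ℝ) ^ A := by
    rw [hZ, card_product, card_ltF]; push_cast; rfl
  have hA1 : (1 : ℝ) ≤ 𝒜.card := by exact_mod_cast hne.card_pos
  set ρ : F[X] × F[X] → F[X] × F[X] := fun z => rt z.1 (z.2 + h i₀) with hρ
  set T := (Z.filter fun z => sg z.1 (z.2 + h i₀) = s).image ρ with hT
  set R := rts 𝒜 A (s + Δ) with hRd
  set c : Finset (F[X] × F[X]) → F[X] × F[X] → ℝ := fun σ ψ =>
    (∑ z ∈ Z, ind (ρ z = ψ) * xcompW h κ i₀ s Δ σ z) / Z.card with hc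
  have hTm : ∀ ψ ∈ T, ∃ α u : F[X], α.Monic ∧ α.natDegree = A ∧ sg α u = s ∧ ψ = rt α u := by
    intro ψ hψ
    obtain ⟨z, hz, rfl⟩ := mem_image.1 hψ
    obtain ⟨h1, h2⟩ := mem_filter.1 hz
    obtain ⟨h3, h4⟩ := mem_monF.1 (hmon _ (mem_product.1 h1).1)
    exact ⟨z.1, z.2 + h i₀, h3, h4, h2, rfl⟩
  have hVE : (Fintype.card F : ℝ) ^ s / Z.card * (1 + R.card) ≤ w ^ 2 := by
    refine le_trans ?_ hwΛ
    have h1 : (Fintype.card F : ℝ) ^ s / Z.card ≤ 1 / (Fintype.card F : ℝ) ^ Δ := by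
      rw [hK, div_le_div_iff₀ (by positivity) (by positivity), ← pow_add, one_mul]
      exact (pow_le_pow_right₀ hq1 hs).trans (le_mul_of_one_le_left (by positivity) hA1)
    have h2 : (Fintype.card F : ℝ) ^ s / Z.card * R.card ≤ 2 * Λ / (Fintype.card F : ℝ) ^ Δ := by
      refine (mul_le_mul_of_nonneg_left (card_rts hmon hdiv (s + Δ)) (by positivity)).trans_eq ?_
      rw [hK, pow_add]
      field_simp
    rw [mul_add, mul_one, add_div]
    exact add_le_add h1 h2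
  have hS : ((R.powerset.image c).card : ℝ) ≤ Real.exp (1 + R.card) := by
    have h1 : ((R.powerset.image c).card : ℝ) ≤ 2 ^ R.card := by
      exact_mod_cast card_image_le.trans_eq (card_powerset R)
    refine h1.trans (le_trans ?_ (Real.exp_le_exp.2 (le_add_of_nonneg_left zero_le_one)))
    rw [← mul_one (R.card : ℝ), Real.exp_nat_mul]
    refine pow_le_pow_left₀ zero_le_two ?_ _
    have := Real.add_one_le_exp 1
    linarith
  have hV : ∀ c' ∈ R.powerset.image c, ∑ ψ ∈ T, c' ψ ^ 2 ≤ (Fintype.card F : ℝ) ^ s / Z.card := by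
    intro c' hc'
    obtain ⟨σ, -, rfl⟩ := mem_image.1 hc'
    refine xcomp_sq Z hZne T ρ (fun z => sg z.1 (z.2 + h i₀) = s) _
      (xcomp_abs h hκ i₀ s Δ σ) fun ψ => ?_
    rw [hZ, Finset.sum_product]
    exact fibre_le (fun α hα => (mem_monF.1 (hmon α hα)).1) (h i₀) ψ s A
  have key := hR T (A - s) (fun ψ hψ => by
      obtain ⟨α, u, h1, h2, h3, rfl⟩ := hTm ψ hψ
      rw [← h2, ← h3]
      exact rt_mon h1 u)
    (fun ψ hψ ψ' hψ' hne' => by
      obtain ⟨α, u, h1, -, -, rfl⟩ := hTm ψ hψ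
      obtain ⟨α', u', h1', -, -, rfl⟩ := hTm ψ' hψ'
      exact rt_cross h1 h1' hne')
    (R.powerset.image c) _ (1 + R.card) w ε (le_add_of_nonneg_right (Nat.cast_nonneg _)) hw hVE
    hS hV hε
  filter_upwards [key] with n hn
  refine le_trans ?_ (hn (fun x => c (R.filter fun r => lam (r.1 * x + r.2) = 1)) fun x =>
    mem_image_of_mem _ (mem_powerset.2 (filter_subset _ _)))
  rw [← Finset.expect_product' (s := 𝒜) (t := ltF F A), Finset.expect_comm]
  refine (Finset.abs_expect_le _ _).trans (Finset.expect_le_expect fun x hx => le_of_eq ?_)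
  congr 1
  rw [hc, xcomp_sum Z T ρ _ (fun z hz h0 => mem_image_of_mem _ (mem_filter.2 ⟨hz, ?_⟩))
    fun ψ => lam (ψ.1 * x + ψ.2)]
  · refine Finset.expect_congr rfl fun z hz => ?_
    exact xcomp_eq hmon hh κ i₀ s Δ (mem_monF.1 hx).1
      (fun r hr => by rw [mem_filter, and_iff_right hr]) (mem_product.1 hz).1 (mem_product.1 hz).2
  · by_contra e
    have := xcomp_abs h hκ i₀ s Δ (R.filter fun r => lam (r.1 * x + r.2) = 1) z
    rw [ind_neg e] at this
    exact h0 (abs_nonpos_iff.1 this)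

end Pool.Agent.MP_4fffd4_nt.Odd

end

section

/- Correlations of at most two values in every degree. -/

set_option autoImplicit false

namespace Pool.Agent.MP_4fffd4_nt.Odd

open Polynomial Finset Filter Topology
open scoped BigOperators

variable {F : Type*} [Field F] [Fintype F] {p : ℕ} [Fact p.Prime] [CharP F p]

theorem xtwopt_tend {u : ℕ → ℝ} (h : ∀ ε : ℝ, 0 < ε → ∀ᶠ n in atTop, |u n| ≤ ε) :
    Tendsto u atTop (𝓝 0) := by
  rw [Metric.tendsto_nhds]
  intro ε hε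
  filter_upwards [h _ (half_pos hε)] with n hn
  rw [Real.dist_eq, sub_zero]
  linarith

omit [Fintype F] in
theorem xtwopt_deg {h : F[X]} {n : ℕ} (hn : h.natDegree < n) : h.degree < n :=
  degree_le_natDegree.trans_lt (by exact_mod_cast hn)

theorem xtwopt_dil {P : F[X]} {d : ℕ} (hP : P ∈ prm F d) (m : ℕ) (Ψ : F[X] → ℝ) :
    𝔼 y ∈ monF F (m + d), ind (P ∣ y) * (lam y * Ψ y) =
      -(𝔼 z ∈ monF F m, lam z * Ψ (P * z)) / (Fintype.card F : ℝ) ^ d := by
  obtain ⟨h1, h2, rfl⟩ := mem_prm.1 hP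
  have hq := card_pos' (F := F)
  rw [expect_monF_eq, expect_monF_eq, xfin_sum h1 m fun y => lam y * Ψ y,
    sum_congr rfl (g := fun z => -(lam z * Ψ (P * z))) fun z hz => by
      rw [lam_mul h1.ne_zero (mem_monF.1 hz).1.ne_zero, xcorr_lam_irr h2]
      ring,
    sum_neg_distrib, pow_add]
  field_simp

theorem xtwopt_num {δ : ℝ} (hδ : 0 < δ) (d : ℕ) :
    (√(prm F d).card / δ + 1) / (Fintype.card F : ℝ) ^ d ≤ (1 / δ + 1) * (3 / 4) ^ d := by
  classical
  have hq := two_le_card (F := F)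
  obtain ⟨r, hr, hr'⟩ : ∃ r : ℝ, 4 / 3 ≤ r ∧ (Fintype.card F : ℝ) = r * r :=
    ⟨√(Fintype.card F), Real.le_sqrt_of_sq_le (by linarith),
      (Real.mul_self_sqrt (by linarith)).symm⟩
  have h1 : ((prm F d).card : ℝ) ≤ (r ^ d) ^ 2 := by
    rw [sq, ← mul_pow, ← hr', ← Nat.cast_pow, ← card_monF]
    exact_mod_cast card_le_card (filter_subset _ _)
  have h0 : 0 < r ^ d := by positivity
  have h2 : √(prm F d).card ≤ r ^ d := Real.sqrt_le_iff.2 ⟨h0.le, h1⟩
  have h3 : 1 ≤ r ^ d := one_le_pow₀ (by linarith)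
  have h4 : 1 ≤ (3 / 4) ^ d * r ^ d := by
    rw [← mul_pow]
    exact one_le_pow₀ (by linarith)
  rw [hr', mul_pow, div_le_iff₀ (by positivity)]
  calc √(prm F d).card / δ + 1 ≤ r ^ d / δ + r ^ d := by gcongr
    _ = (1 / δ + 1) * 1 * r ^ d := by ring
    _ ≤ (1 / δ + 1) * ((3 / 4) ^ d * r ^ d) * r ^ d := by gcongr
    _ = _ := by ring

theorem xtwopt_geom (b : ℕ) : ∑ d ∈ Ioc 0 b, (3 / 4 : ℝ) ^ d ≤ 4 := by
  have h := (hasSum_geometric_of_lt_one (r := (3 / 4 : ℝ)) (by norm_num) (by norm_num))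
  exact (sum_le_hasSum _ (fun _ _ => by positivity) h).trans (by norm_num)

theorem xtwopt_main (hp : p ≠ 2) {a : F[X]} (ha : a.Monic) (h₁ : F[X]) {h : F[X]} (hh : h ≠ 0) :
    Tendsto (fun n => 𝔼 y ∈ monF F n, lam y * (ind (a ∣ y - h₁) * lam (y + h))) atTop (𝓝 0) := by
  classical
  obtain ⟨δ, hi, hw⟩ := exists_posW (F := F) hp
  have hδ := hw.pos
  have hq := card_pos' (F := F)
  obtain ⟨Φ, hΦ⟩ : ∃ Φ : F[X] → ℝ, Φ = fun y => lam y * (ind (a ∣ y - h₁) * lam (y + h)) :=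
    ⟨_, rfl⟩
  have hb : ∀ y, |Φ y| ≤ 1 := fun y => by
    rw [hΦ, abs_mul, abs_mul, abs_lam, abs_lam, one_mul, mul_one]
    exact abs_ind_le _
  have key : ∀ d, ∀ᶠ n in atTop,
      |∑ P ∈ prm F d, 𝔼 y ∈ monF F n, ind (P ∣ y) * Φ y| ≤ (1 / δ + 1) * (3 / 4) ^ d := by
    intro d
    obtain ⟨m₀, hm⟩ := eventually_atTop.1
      (gram hp hw (prm F d) (D := d) (filter_subset _ _) hh ha one_pos)
    filter_upwards [eventually_ge_atTop (m₀ + d)] with n hn
    obtain ⟨m, rfl⟩ : ∃ m, n = m + d := ⟨n - d, by omega⟩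
    have h1 := hm m (by omega) lam (fun A z => ind (a ∣ A * z - h₁)) (fun z => (abs_lam z).le)
      (fun A z => abs_ind_le _) fun A z v => ind_congr (by
        rw [mul_add, add_sub_right_comm, mul_left_comm]
        exact dvd_add_left (dvd_mul_right a _))
    rw [hΦ, sum_congr rfl fun P hP =>
      xtwopt_dil hP m fun y => ind (a ∣ y - h₁) * lam (y + h), ← sum_div, sum_neg_distrib,
      abs_div, abs_neg, abs_of_pos (pow_pos hq d)]
    exact (div_le_div_of_nonneg_right h1 (pow_pos hq d).le).trans (xtwopt_num hδ d)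
  simp only [← show ∀ y, Φ y = lam y * (ind (a ∣ y - h₁) * lam (y + h)) from fun y => by rw [hΦ]]
  refine xtwopt_tend fun ε hε => ?_
  obtain ⟨b, hb1, hb2⟩ := (((LL_top (F := F) 0).eventually_ge_atTop ((2 / ε) ^ 2)).and
    ((LL_top (F := F) 0).eventually_ge_atTop (8 * (1 / δ + 1) / ε))).exists
  obtain ⟨L, hL⟩ : ∃ L, L = LL F 0 b := ⟨_, rfl⟩
  rw [← hL] at hb1 hb2
  have hL0 : 0 < L := lt_of_lt_of_le (by positivity) hb1
  have hs : 0 < √L := Real.sqrt_pos.2 hL0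
  filter_upwards [(eventually_all_finset (Ioc 0 b)).2 fun d _ => key d,
    eventually_ge_atTop (2 * b)] with n h1 h2
  have h3 : 𝔼 y ∈ monF F n, |(∑ R ∈ prmI F 0 b, ind (R ∣ y)) - L| ≤ √L :=
    xloc2_amgm n _ hs (by rw [Real.sq_sqrt hL0.le, hL]; exact tk_fix h2)
  have h4 : |𝔼 y ∈ monF F n, ((∑ R ∈ prmI F 0 b, ind (R ∣ y)) - L) * Φ y| ≤ √L := by
    refine (abs_expect_le _ _).trans ((expect_le_expect fun y _ => ?_).trans h3)
    rw [abs_mul]
    exact mul_le_of_le_one_right (abs_nonneg _) (hb y)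
  have h5 : |𝔼 y ∈ monF F n, (∑ R ∈ prmI F 0 b, ind (R ∣ y)) * Φ y| ≤ 4 * (1 / δ + 1) := by
    simp only [sum_mul]
    rw [expect_sum_comm, sum_prmI]
    refine (abs_sum_le_sum_abs _ _).trans ((sum_le_sum h1).trans ?_)
    rw [← mul_sum, mul_comm]
    exact mul_le_mul_of_nonneg_right (xtwopt_geom b) (by positivity)
  have h6 : L * 𝔼 y ∈ monF F n, Φ y =
      (𝔼 y ∈ monF F n, (∑ R ∈ prmI F 0 b, ind (R ∣ y)) * Φ y) -
        𝔼 y ∈ monF F n, ((∑ R ∈ prmI F 0 b, ind (R ∣ y)) - L) * Φ y := by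
    rw [mul_expect, ← expect_sub_distrib]
    exact expect_congr rfl fun y _ => by ring
  have h7 : L * |𝔼 y ∈ monF F n, Φ y| ≤ 4 * (1 / δ + 1) + √L := by
    rw [← abs_of_pos hL0, ← abs_mul, h6, abs_of_pos hL0]
    exact (abs_sub _ _).trans (add_le_add h5 h4)
  have h8 : 2 ≤ √L * ε := by
    rw [← div_le_iff₀ hε]
    exact Real.le_sqrt_of_sq_le hb1
  have h9 : 2 * √L ≤ L * ε := by
    calc 2 * √L ≤ √L * ε * √L := by gcongr
      _ = √L * √L * ε := by ring
      _ = L * ε := by rw [Real.mul_self_sqrt hL0.le]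
  rw [div_le_iff₀ hε] at hb2
  exact le_of_mul_le_mul_left (by linarith) hL0

theorem one_pt (hp : p ≠ 2) {a : F[X]} (ha : a.Monic) (h : F[X]) :
    Tendsto (fun n => 𝔼 x ∈ monF F n, ind (a ∣ x) * lam (x + h)) atTop (𝓝 0) := by
  obtain ⟨ρ₀, hw⟩ := exists_weight (F := F) hp
  refine xtwopt_tend fun ε hε => ?_
  obtain ⟨D, h1, hD⟩ := ((loc_unif hp hw (fun _ : Unit => a) (fun _ => 0) (fun _ => ha.ne_zero)
    hε).and (eventually_ge_atTop 1)).exists
  filter_upwards [h1, eventually_gt_atTop h.natDegree] with n h2 hn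
  have h3 := h2 (fun _ y _ => ind (a ∣ y - h)) fun _ => ⟨fun y d => abs_ind_le _,
    fun y d v => ind_congr (by
      rw [add_sub_right_comm]
      exact dvd_add_left (dvd_mul_right a v))⟩
  have e : TT n D lam (fun (_ : Unit) y _ => ind (a ∣ y - h)) =
      𝔼 x ∈ monF F n, ind (a ∣ x) * lam (x + h) := by
    rw [TT, expect_const (monF_nonempty D), ← expect_monF_add (xtwopt_deg hn)]
    refine expect_congr rfl fun y _ => ?_
    rw [Fintype.prod_unique, add_sub_cancel_right, mul_comm]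
  rw [e] at h3
  exact (le_mul_of_one_le_left (abs_nonneg _) (by exact_mod_cast hD)).trans h3

theorem two_pt (hp : p ≠ 2) {a : F[X]} (ha : a.Monic) {h₁ h₂ : F[X]} (hh : h₁ ≠ h₂) :
    Tendsto (fun n => 𝔼 x ∈ monF F n, ind (a ∣ x) * (lam (x + h₁) * lam (x + h₂))) atTop
      (𝓝 0) := by
  refine (xtwopt_main hp ha h₁ (sub_ne_zero.2 hh.symm)).congr' ?_
  filter_upwards [eventually_gt_atTop h₁.natDegree] with n hn
  rw [← expect_monF_add (xtwopt_deg hn)]
  refine expect_congr rfl fun y _ => ?_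
  rw [add_sub_cancel_right, add_assoc, add_sub_cancel]
  ring

end Pool.Agent.MP_4fffd4_nt.Odd

end

section

/- Chowla's conjecture in every degree. -/

set_option autoImplicit false

namespace Pool.Agent.MP_4fffd4_nt.Odd

open Polynomial Finset Filter Topology
open scoped BigOperators

variable {F : Type*} [Field F] [Fintype F]

theorem xall_div {α : F[X]} (hα : α.Monic) (n : ℕ) (f : F[X] → ℝ) :
    𝔼 z ∈ monF F (n + α.natDegree), f z =
      𝔼 β ∈ ltF F α.natDegree, 𝔼 x ∈ monF F n, f (α * x + β) := by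
  classical
  have hq := card_pos' (F := F)
  have h1 : ∑ z ∈ monF F (n + α.natDegree), f z =
      ∑ y ∈ ltF F α.natDegree ×ˢ monF F n, f (α * y.2 + y.1) := by
    symm
    refine sum_bij' (fun y _ => α * y.2 + y.1) (fun z _ => (z %ₘ α, z /ₘ α)) ?_ ?_ ?_ ?_ ?_
    · intro y hy
      obtain ⟨h2, h3⟩ := mem_product.1 hy
      obtain ⟨h4, h5⟩ := mem_monF.1 h3
      have h6 : y.1.degree < (α * y.2).degree := by
        refine (mem_ltF.1 h2).trans_le ?_
        rw [degree_eq_natDegree (hα.mul h4).ne_zero, hα.natDegree_mul h4]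
        exact_mod_cast Nat.le_add_right _ _
      refine mem_monF.2 ⟨(hα.mul h4).add_of_left h6, ?_⟩
      rw [natDegree_add_eq_left_of_degree_lt h6, hα.natDegree_mul h4, h5, add_comm]
    · intro z hz
      obtain ⟨h4, h5⟩ := mem_monF.1 hz
      refine mem_product.2 ⟨mem_ltF.2 ?_, mem_monF.2 ⟨?_, ?_⟩⟩
      · rw [← degree_eq_natDegree hα.ne_zero]
        exact degree_modByMonic_lt z hα
      · have h6 : α.degree ≤ z.degree := by
          rw [degree_eq_natDegree hα.ne_zero, degree_eq_natDegree h4.ne_zero, h5]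
          exact_mod_cast Nat.le_add_left _ _
        rw [Monic, leadingCoeff_divByMonic_of_monic hα h6]
        exact h4
      · rw [natDegree_divByMonic z hα, h5, Nat.add_sub_cancel]
    · intro y hy
      have h2 := mem_ltF.1 (mem_product.1 hy).1
      rw [← degree_eq_natDegree hα.ne_zero] at h2
      obtain ⟨h3, h4⟩ := div_modByMonic_unique y.2 y.1 hα ⟨add_comm _ _, h2⟩
      exact Prod.ext h4 h3
    · intro z _
      rw [add_comm]
      exact modByMonic_add_div z α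
    · intro y _
      rfl
  rw [expect_monF_eq, h1, sum_product, expect_ltF_eq]
  simp only [expect_monF_eq]
  rw [← sum_div, pow_add]
  field_simp

theorem xall_LL (L : ℝ) : ∃ K : ℕ, ∀ᶠ y : ℕ in atTop, L ≤ LL F y (K * y) := by
  obtain ⟨c, hc⟩ := (xposb_harm (F := F)).exists
  have h0 := (tendsto_atTop_add_const_right _ (-∑ i ∈ range 1, (1 / ((i : ℝ) + 1)))
    Real.tendsto_sum_range_one_div_nat_succ_atTop).atTop_div_const (two_pos (α := ℝ))
  obtain ⟨K, h1, h2⟩ := ((h0.eventually_ge_atTop L).and (eventually_ge_atTop 1)).exists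
  refine ⟨K, ?_⟩
  filter_upwards [eventually_ge_atTop c, eventually_ge_atTop 1] with y h3 h4
  have h5 := hc y 1 h4 (by omega) K h2
  rw [one_mul] at h5
  exact h1.trans (by rwa [← sub_eq_add_neg])

theorem xall_small (c : ℝ) {y : ℝ} (hy : 0 < y) :
    ∀ᶠ Δ : ℕ in atTop, c * (Δ : ℝ) ^ 2 / (Fintype.card F : ℝ) ^ Δ ≤ y := by
  have h0 := (tendsto_pow_const_div_const_pow_of_one_lt 2
    (one_lt_two.trans_le (two_le_card (F := F)))).const_mul c
  rw [mul_zero] at h0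
  simp only [mul_div_assoc]
  exact h0.eventually (ge_mem_nhds hy)

theorem xall_main {δ : ℝ} (hδ : 0 < δ) (hR : Rnd F δ) {I : Type*} [Fintype I] (i₁ : I)
    {a : F[X]} (ha : a.Monic) {h : I → F[X]} (hh : Function.Injective h) :
    Tendsto (fun n => 𝔼 x ∈ monF F n, ind (a ∣ x) * ∏ i, lam (x + h i)) atTop (𝓝 0) := by
  classical
  refine xtwopt_tend fun ε hε => ?_
  have hq := card_pos' (F := F)
  have hk : (0 : ℝ) < Fintype.card I := by exact_mod_cast Fintype.card_pos_iff.2 ⟨i₁⟩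
  set k : ℝ := (Fintype.card I : ℝ) with hkdef
  set Λ : ℝ := 2 * (Fintype.card F : ℝ) ^ (a.natDegree + 1) with hΛ
  obtain ⟨K, hK⟩ := xall_LL (F := F) (10 * k ^ 2 / ε)
  obtain ⟨R, hR1, hR2⟩ := ((tendsto_natCast_atTop_atTop (R := ℝ).eventually_ge_atTop
    (20 * k ^ 2 / ε)).and (eventually_ge_atTop 1)).exists
  obtain ⟨U, hU1, hU2⟩ := ((tendsto_natCast_atTop_atTop (R := ℝ).eventually_ge_atTop
    (5 * (1 + K * R) / ε)).and (eventually_ge_atTop 1)).exists
  obtain ⟨h₀, hh₀⟩ := xcorr_deg h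
  have hRT : Tendsto (fun Δ : ℕ => R * Δ) atTop atTop :=
    tendsto_atTop_mono (fun Δ => Nat.le_mul_of_pos_left Δ hR2) tendsto_id
  obtain ⟨Δ, ⟨d1, d2⟩, d3⟩ := (((hRT.eventually hK).and
    (xall_small (F := F) ((1 + 2 * Λ) * (20 * k * U / (ε * δ)) ^ 2) one_pos)).and
    (eventually_ge_atTop (a.natDegree + h₀ + 2))).exists
  have hΔ : 0 < Δ := by omega
  have hΔR : Δ ≤ R * Δ := Nat.le_mul_of_pos_left Δ hR2
  have hΔ' : (0 : ℝ) < Δ := by exact_mod_cast hΔ
  have hU' : (0 : ℝ) < U := by exact_mod_cast hU2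
  have hR' : (0 : ℝ) < R := by exact_mod_cast hR2
  have hL0 : 0 < LL F (R * Δ) (K * (R * Δ)) := lt_of_lt_of_le (by positivity) d1
  obtain ⟨A, 𝒜, hA, hF⟩ := exists_fam ha (D₀ := R * Δ) (by omega) (by omega) (K * (R * Δ))
    (U * Δ + Δ + h₀)
  set w : ℝ := ε * δ / (20 * k * U * Δ) with hw
  have hw0 : 0 < w := by positivity
  have hwΛ : (1 + 2 * Λ) / (Fintype.card F : ℝ) ^ Δ ≤ w ^ 2 := by
    rw [div_le_one (by positivity)] at d2
    rw [div_le_iff₀ (by positivity), hw, div_pow, div_mul_eq_mul_div, le_div_iff₀ (by positivity)]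
    have e : (1 + 2 * Λ) * (20 * k * U * Δ) ^ 2 =
        (ε * δ) ^ 2 * ((1 + 2 * Λ) * (20 * k * U / (ε * δ)) ^ 2 * (Δ : ℝ) ^ 2) := by
      field_simp
    rw [e]
    exact mul_le_mul_of_nonneg_left d2 (by positivity)
  have hhA : ∀ i, (h i).degree < A := fun i => xtwopt_deg (by have := hh₀ i; omega)
  have key : ∀ᶠ n in atTop, ∀ i₀ ∈ (univ : Finset I), ∀ s ∈ range (U * Δ),
      |𝔼 α ∈ 𝒜, 𝔼 β ∈ ltF F A, 𝔼 x ∈ monF F n, ind (a ∣ β) * ind (Low h Δ i₀ s α β) *
        ∏ i, lam (α * x + (β + h i))| ≤ 4 * w / δ + ε / (5 * k * U * Δ) :=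
    (eventually_all_finset _).2 fun i₀ _ => (eventually_all_finset _).2 fun s hs =>
      compress hR h hF.ne hF.mon hF.divs hhA (fun β => ind (a ∣ β)) (fun β => abs_ind_le _) i₀
        (by have := mem_range.1 hs; omega) hw0 hwΛ (by positivity)
  obtain ⟨n₀, hn₀⟩ := eventually_atTop.1 key
  filter_upwards [eventually_ge_atTop (n₀ + A)] with m hm
  obtain ⟨n, rfl⟩ : ∃ n, m = n + A := ⟨m - A, by omega⟩
  have h1 := hn₀ n (by omega)
  set Φ : F[X] → F[X] → F[X] → ℝ := fun α β x => ind (a ∣ β) * ∏ i, lam (α * x + (β + h i))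
    with hΦ
  set g : F[X] → F[X] → ℝ := fun α β => ∑ i₀, ∑ s ∈ range (U * Δ), ind (Low h Δ i₀ s α β)
    with hg
  have e1 : 𝔼 x ∈ monF F (n + A), ind (a ∣ x) * ∏ i, lam (x + h i) =
      𝔼 α ∈ 𝒜, 𝔼 β ∈ ltF F A, 𝔼 x ∈ monF F n, Φ α β x := by
    rw [← expect_const hF.ne (𝔼 x ∈ monF F (n + A), ind (a ∣ x) * ∏ i, lam (x + h i))]
    refine expect_congr rfl fun α hα => ?_
    obtain ⟨a1, a2⟩ := mem_monF.1 (hF.mon α hα)
    obtain ⟨T, -, j, a3, -⟩ := hF.shape α hα
    have a4 : a ∣ α := ⟨X ^ j * ∏ P ∈ T, P, by rw [a3, mul_assoc]⟩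
    rw [← a2, xall_div a1]
    refine expect_congr rfl fun β _ => expect_congr rfl fun x _ => ?_
    simp only [hΦ, add_assoc]
    rw [ind_congr (dvd_add_right (a4.mul_right x))]
  have e2 : 𝔼 α ∈ 𝒜, 𝔼 β ∈ ltF F A, 𝔼 x ∈ monF F n, Φ α β x =
      (∑ i₀, ∑ s ∈ range (U * Δ), 𝔼 α ∈ 𝒜, 𝔼 β ∈ ltF F A, 𝔼 x ∈ monF F n,
        ind (a ∣ β) * ind (Low h Δ i₀ s α β) * ∏ i, lam (α * x + (β + h i))) +
      𝔼 α ∈ 𝒜, 𝔼 β ∈ ltF F A, (1 - g α β) * 𝔼 x ∈ monF F n, Φ α β x := by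
    simp only [← expect_sum_comm, ← expect_add_distrib, mul_expect]
    refine expect_congr rfl fun α _ => expect_congr rfl fun β _ => expect_congr rfl fun x _ => ?_
    simp only [hΦ, hg, ← sum_mul, ← mul_sum]
    ring
  have e3 : |∑ i₀, ∑ s ∈ range (U * Δ), 𝔼 α ∈ 𝒜, 𝔼 β ∈ ltF F A, 𝔼 x ∈ monF F n,
      ind (a ∣ β) * ind (Low h Δ i₀ s α β) * ∏ i, lam (α * x + (β + h i))| ≤ 2 * ε / 5 := by
    refine (abs_sum_le_sum_abs _ _).trans ((sum_le_sum fun i₀ hi =>
      (abs_sum_le_sum_abs _ _).trans (sum_le_sum (h1 i₀ hi))).trans_eq ?_)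
    rw [sum_const, sum_const, card_range, card_univ, nsmul_eq_mul, nsmul_eq_mul, hw]
    push_cast
    field_simp
    ring
  have e4 : |𝔼 α ∈ 𝒜, 𝔼 β ∈ ltF F A, (1 - g α β) * 𝔼 x ∈ monF F n, Φ α β x| ≤ 3 * ε / 5 := by
    refine xloc1_abs_le hF.ne fun α hα => (abs_expect_le _ _).trans
      ((expect_le_expect (g := fun β => |1 - g α β|) fun β _ => ?_).trans
        ((bad_all i₁ hh ha hF (by omega) (by omega) (fun i => by have := hh₀ i; omega) hL0 hΔ
          (S := U * Δ) (Nat.mul_pos hU2 hΔ) hα).trans ?_))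
    · rw [abs_mul]
      exact mul_le_of_le_one_right (abs_nonneg _)
        (xloc1_abs_le (monF_nonempty n) fun x _ => xcorr_abs _ _)
    · have b1 : k ^ 2 * (2 / LL F (R * Δ) (K * (R * Δ))) ≤ ε / 5 := by
        rw [div_le_iff₀ hε] at d1
        rw [← mul_div_assoc, div_le_div_iff₀ hL0 (by norm_num)]
        linarith
      have b2 : k ^ 2 * (4 * Δ / (R * Δ : ℕ)) ≤ ε / 5 := by
        rw [div_le_iff₀ hε] at hR1
        push_cast
        rw [mul_div_mul_right _ _ hΔ'.ne', ← mul_div_assoc, div_le_div_iff₀ hR' (by norm_num)]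
        linarith
      have b3 : ((a.natDegree : ℝ) + 1 + (K * (R * Δ) : ℕ)) / (U * Δ : ℕ) ≤ ε / 5 := by
        rw [div_le_iff₀ hε] at hU1
        have c1 : (a.natDegree : ℝ) + 1 ≤ Δ := by exact_mod_cast (by omega : a.natDegree + 1 ≤ Δ)
        push_cast
        rw [div_le_div_iff₀ (by positivity) (by norm_num)]
        have c2 := mul_le_mul_of_nonneg_right hU1 hΔ'.le
        nlinarith
      rw [mul_add]
      linarith
  rw [e1, e2]
  refine (abs_add_le _ _).trans ?_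
  linarith

theorem corr_all {p : ℕ} [Fact p.Prime] [CharP F p] (hp : p ≠ 2) {I : Type*} [Fintype I]
    (i₀ : I) {a : F[X]} (ha : a.Monic) {h : I → F[X]} (hh : Function.Injective h) :
    Tendsto (fun n => 𝔼 x ∈ monF F n, ind (a ∣ x) * ∏ i, lam (x + h i)) atTop (𝓝 0) := by
  obtain ⟨δ, hδ, hR⟩ := exists_rnd (F := F) hp
  exact xall_main hδ hR i₀ ha hh

end Pool.Agent.MP_4fffd4_nt.Odd

end

section

/- Chowla's conjecture in every degree, for every finite field. -/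

set_option autoImplicit false

namespace Pool.Agent.MP_4fffd4_nt.Odd

open Polynomial Finset Filter Topology
open scoped BigOperators

variable {F : Type*} [Field F] [Fintype F]

theorem chowla_all {I : Type*} [Fintype I] (i₀ : I) (a h : I → F[X])
    (ha : ∀ i, a i ≠ 0) (hind : ∀ i j, i ≠ j → a i * h j ≠ a j * h i) :
    Tendsto (fun n => (∑ f ∈ monF F n, ∏ i, (liou (a i * f + h i) : ℝ)) / Fintype.card F ^ n)
      atTop (𝓝 0) := by
  obtain ⟨p, hp⟩ := CharP.exists F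
  haveI : Fact p.Prime := ⟨CharP.char_is_prime F p⟩
  by_cases h2 : p = 2
  · subst h2
    exact chowla i₀ a h ha fun i hi => hind i i₀ hi
  have hA : ∏ i, a i ≠ 0 := prod_ne_zero_iff.2 fun i _ => ha i
  set A := (∏ i, a i) * C (∏ i, a i).leadingCoeff⁻¹
  have hm : A.Monic := monic_mul_leadingCoeff_inv hA
  choose c hc using fun i => show a i ∣ A from (dvd_prod_of_mem a (mem_univ i)).mul_right _
  have hc0 : ∀ i, c i ≠ 0 := fun i h0 => hm.ne_zero (by rw [hc i, h0, mul_zero])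
  have hinj : Function.Injective fun i => c i * h i := by
    intro i j e
    by_contra hij
    refine hind i j hij (mul_left_cancel₀ hm.ne_zero ?_)
    simp only at e
    linear_combination (a i * h j) * hc j - (a j * h i) * hc i - (a i * a j) * e
  have hq := card_pos' (F := F)
  have h0 := ((corr_all h2 i₀ hm hinj).comp (tendsto_add_atTop_nat A.natDegree)).const_mul
    ((∏ i, lam (c i)) * Fintype.card F ^ A.natDegree)
  rw [mul_zero] at h0
  refine h0.congr' ?_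
  filter_upwards [eventually_gt_atTop (∑ i, (h i).natDegree)] with n hn
  rw [Function.comp_apply, expect_monF_eq, xfin_sum hm n fun x => ∏ i, lam (x + c i * h i),
    pow_add]
  have : ∑ f ∈ monF F n, ∏ i, (liou (a i * f + h i) : ℝ) =
      (∏ i, lam (c i)) * ∑ f ∈ monF F n, ∏ i, lam (A * f + c i * h i) := by
    rw [mul_sum]
    refine sum_congr rfl fun f hf => ?_
    obtain ⟨h3, h4⟩ := mem_monF.1 hf
    rw [← prod_mul_distrib]
    refine prod_congr rfl fun i _ => ?_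
    have := single_le_sum (f := fun i => (h i).natDegree) (fun _ _ => Nat.zero_le _) (mem_univ i)
    rw [show A * f + c i * h i = c i * (a i * f + h i) by rw [hc i]; ring,
      lam_mul (hc0 i) (lin_ne_zero (ha i) h3 (by omega)), ← mul_assoc, lam_mul_self, one_mul, lam]
  rw [this]
  field_simp

theorem pattern_all {I : Type*} [Fintype I] (a h : I → F[X])
    (ha : ∀ i, a i ≠ 0) (hind : ∀ i j, i ≠ j → a i * h j ≠ a j * h i) (ε : I → ℤ)
    (hε : ∀ i, ε i = 1 ∨ ε i = -1) :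
    Tendsto (fun n : ℕ => (Set.ncard {f : F[X] | f.Monic ∧ f.natDegree = n ∧
      ∀ i, a i * f + h i ≠ 0 ∧ liou (a i * f + h i) = ε i} : ℝ) / Fintype.card F ^ n)
      atTop (𝓝 (1 / 2 ^ Fintype.card I)) := by
  classical
  have hq := card_pos' (F := F)
  have h1 : Tendsto (fun n : ℕ => 1 / 2 ^ Fintype.card I * ∑ S ∈ (univ : Finset I).powerset,
      (∏ i ∈ S, (ε i : ℝ)) *
        ((∑ f ∈ monF F n, ∏ i ∈ S, (liou (a i * f + h i) : ℝ)) / Fintype.card F ^ n)) atTop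
      (𝓝 (1 / 2 ^ Fintype.card I * ∑ S ∈ (univ : Finset I).powerset,
        if S = ∅ then 1 else 0)) := by
    refine (tendsto_finset_sum _ fun S _ => ?_).const_mul _
    split_ifs with hS
    · subst hS
      refine tendsto_const_nhds.congr fun n => ?_
      simp only [prod_empty, sum_const, card_monF, nsmul_eq_mul]
      push_cast
      field_simp
    · obtain ⟨i₀, hi₀⟩ := nonempty_iff_ne_empty.2 hS
      have := (chowla_all (I := S) ⟨i₀, hi₀⟩
        (fun i => a i) (fun i => h i) (fun i => ha i)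
        (fun i j hi => hind _ _ fun e => hi (Subtype.ext e))).const_mul (∏ i ∈ S, (ε i : ℝ))
      rw [mul_zero] at this
      refine this.congr fun n => ?_
      congr 2
      exact sum_congr rfl fun f _ => prod_coe_sort S fun i => (liou (a i * f + h i) : ℝ)
  rw [sum_ite_eq', if_pos (empty_mem_powerset _), mul_one] at h1
  refine h1.congr' ?_
  filter_upwards [eventually_gt_atTop (∑ i, (h i).natDegree)] with n hn
  have h2 : {f : F[X] | f.Monic ∧ f.natDegree = n ∧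
      ∀ i, a i * f + h i ≠ 0 ∧ liou (a i * f + h i) = ε i} =
      ((monF F n).filter fun f => ∀ i, liou (a i * f + h i) = ε i : Finset F[X]) := by
    ext f
    simp only [Set.mem_setOf_eq, coe_filter, mem_monF]
    refine ⟨fun ⟨x, y, z⟩ => ⟨⟨x, y⟩, fun i => (z i).2⟩, fun ⟨⟨x, y⟩, z⟩ =>
      ⟨x, y, fun i => ⟨lin_ne_zero (ha i) x ?_, z i⟩⟩⟩
    have := single_le_sum (f := fun i => (h i).natDegree) (fun _ _ => Nat.zero_le _) (mem_univ i)
    omega
  rw [h2, Set.ncard_coe_finset, card_filter]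
  simp only [← mul_div_assoc, ← sum_div, mul_sum, ← prod_mul_distrib]
  congr 1
  rw [sum_comm]
  push_cast
  refine sum_congr rfl fun f _ => ?_
  rw [← mul_sum, ← prod_one_add]
  split_ifs with hf
  · rw [prod_congr rfl (g := fun _ => 2), prod_const, card_univ]
    · field_simp
    · intro i _
      rw [hf i]
      rcases hε i with e | e <;> rw [e] <;> norm_num
  · push Not at hf
    obtain ⟨i, hi⟩ := hf
    rw [prod_eq_zero (mem_univ i), mul_zero]
    rcases hε i with e | e <;> rcases liou_cases (a i * f + h i) with e' | e' <;>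
      rw [e, e'] at hi ⊢ <;> simp at hi ⊢

end Pool.Agent.MP_4fffd4_nt.Odd

end
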