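import Mathlib
import Pool.Agent.Mg.F43e117.G789a6f
import Pool.Agent.Mg.F43e117.G3ec2aa

section

/- A lower bound sieve of bounded dimension. -/

set_option autoImplicit false

namespace Pool.Agent.MP_f37147_nt

open Finset

namespace QSieve

variable {P : Type*} [DecidableEq P]

/-- `f` is a multilinear polynomial on `B` with small coefficients and small support. -/
def Rep (dg : P → ℕ) (B : Finset P) (f : (P → ℝ) → ℝ) (c D : ℝ) : Prop :=
  ∃ l : Finset P → ℝ, (∀ x, f x = ∑ S ∈ B.powerset, l S * ∏ p ∈ S, x p) ∧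
    ∀ S ⊆ B, |l S| ≤ c ∧ (l S ≠ 0 → ∑ p ∈ S, (dg p : ℝ) ≤ D)

variable {dg : P → ℕ} {B C : Finset P} {f f' : (P → ℝ) → ℝ} {c c' D D' : ℝ}

omit [DecidableEq P] in
theorem Rep.add (h : Rep dg B f c D) (h' : Rep dg B f' c' D) (e : ℝ) (he : |e| = 1) :
    Rep dg B (fun x => f x + e * f' x) (c + c') D := by
  obtain ⟨l, h1, h2⟩ := h
  obtain ⟨l', h1', h2'⟩ := h'
  refine ⟨fun S => l S + e * l' S, fun x => ?_, fun S hS => ⟨?_, fun h => ?_⟩⟩
  · beta_reduce
    rw [h1, h1', mul_sum, ← sum_add_distrib]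
    exact sum_congr rfl fun S _ => by ring
  · refine (abs_add_le _ _).trans (add_le_add (h2 S hS).1 ?_)
    rw [abs_mul, he, one_mul]; exact (h2' S hS).1
  · by_cases h0 : l S = 0
    · exact (h2' S hS).2 fun h3 => h (by simp [h0, h3])
    · exact (h2 S hS).2 h0

theorem Rep.mul (h : Rep dg B f c D) (h' : Rep dg C f' 1 D') (hd : Disjoint B C) :
    Rep dg (B ∪ C) (fun x => f x * f' x) c (D + D') := by
  obtain ⟨l, h1, h2⟩ := h
  obtain ⟨l', h1', h2'⟩ := h'
  have hu : ∀ S ⊆ B ∪ C, S ∩ B ∪ S ∩ C = S := fun S hS => by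
    rw [← inter_union_distrib_left, inter_eq_left.2 hS]
  have hdd : ∀ S : Finset P, Disjoint (S ∩ B) (S ∩ C) := fun S =>
    hd.mono inter_subset_right inter_subset_right
  refine ⟨fun S => l (S ∩ B) * l' (S ∩ C), fun x => ?_, fun S hS => ⟨?_, fun h => ?_⟩⟩
  · beta_reduce
    rw [h1, h1', sum_mul_sum, ← sum_product']
    symm
    refine sum_nbij' (fun S => (S ∩ B, S ∩ C)) (fun q => q.1 ∪ q.2) ?_ ?_ ?_ ?_ ?_
    · intro S _
      simp
    · intro q hq
      simp only [mem_product, mem_powerset] at hq ⊢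
      exact union_subset_union hq.1 hq.2
    · intro S hS
      exact hu S (mem_powerset.1 hS)
    · intro q hq
      simp only [mem_product, mem_powerset] at hq
      rw [union_inter_distrib_right, union_inter_distrib_right, inter_eq_left.2 hq.1,
        inter_eq_left.2 hq.2, disjoint_iff_inter_eq_empty.1 (hd.symm.mono_left hq.2),
        disjoint_iff_inter_eq_empty.1 (hd.mono_left hq.1), union_empty, empty_union]
    · intro S hS
      nth_rewrite 3 [← hu S (mem_powerset.1 hS)]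
      rw [prod_union (hdd S)]
      ring
  · have a := (h2 _ (inter_subset_right (s₁ := S))).1
    have b := (h2' _ (inter_subset_right (s₁ := S))).1
    rw [abs_mul]
    nlinarith [abs_nonneg (l (S ∩ B)), abs_nonneg (l' (S ∩ C))]
  · rw [← hu S hS, sum_union (hdd S)]
    exact add_le_add ((h2 _ inter_subset_right).2 (left_ne_zero_of_mul h))
      ((h2' _ inter_subset_right).2 (right_ne_zero_of_mul h))

/-- Truncated inclusion and exclusion. -/
def Ut (B : Finset P) (k : ℕ) (x : P → ℝ) : ℝ :=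
  ∑ S ∈ B.powerset, (if S.card ≤ k then (-1) ^ S.card else 0) * ∏ p ∈ S, x p

/-- Elementary symmetric function. -/
def Vt (B : Finset P) (k : ℕ) (x : P → ℝ) : ℝ :=
  ∑ S ∈ B.powerset, (if S.card = k then 1 else 0) * ∏ p ∈ S, x p

omit [DecidableEq P] in
theorem Ut_zero (B : Finset P) (x : P → ℝ) : Ut B 0 x = 1 := by
  rw [Ut, sum_eq_single ∅]
  · simp
  · intro S _ hS
    rw [if_neg (by simpa using hS), zero_mul]
  · simp

theorem Ut_insert {a : P} (ha : a ∉ B) (k : ℕ) (x : P → ℝ) :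
    Ut (insert a B) (k + 1) x = Ut B (k + 1) x - x a * Ut B k x := by
  rw [Ut, sum_powerset_insert ha, Ut, Ut, mul_sum, sub_eq_add_neg, ← sum_neg_distrib]
  congr 1
  refine sum_congr rfl fun S hS => ?_
  have : a ∉ S := fun h => ha (mem_powerset.1 hS h)
  rw [card_insert_of_notMem this, prod_insert this]
  simp only [Nat.add_le_add_iff_right]
  split_ifs <;> ring

theorem bonf (x : P → ℝ) (B : Finset P) (hx : ∀ p ∈ B, 0 ≤ x p ∧ x p ≤ 1) (k : ℕ) :
    0 ≤ (-1) ^ k * (Ut B k x - ∏ p ∈ B, (1 - x p)) := by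
  induction B using Finset.induction_on generalizing k with
  | empty => simp [Ut]
  | insert a B ha ih =>
    rcases k with _ | k
    · rw [Ut_zero, pow_zero, one_mul, sub_nonneg]
      exact prod_le_one (fun p hp => sub_nonneg.2 (hx p hp).2) fun p hp => by linarith [(hx p hp).1]
    · have h1 := ih (fun p hp => hx p (mem_insert_of_mem hp))
      have h2 := mul_nonneg (hx a (mem_insert_self _ _)).1 (h1 k)
      have h3 := h1 (k + 1)
      rw [Ut_insert ha, prod_insert ha]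
      rw [pow_succ] at h3 ⊢
      linarith

omit [DecidableEq P] in
theorem Ut_odd (B : Finset P) (k : ℕ) (x : P → ℝ) :
    Ut B (2 * k + 1) x = Ut B (2 * k) x - Vt B (2 * k + 1) x := by
  rw [Ut, Ut, Vt, ← sum_sub_distrib]
  refine sum_congr rfl fun S _ => ?_
  rcases lt_trichotomy S.card (2 * k + 1) with h | h | h
  · rw [if_pos h.le, if_pos (by omega), if_neg h.ne]; ring
  · rw [if_pos h.le, if_neg (by omega), if_pos h, h, pow_succ, pow_mul]; ring
  · rw [if_neg (by omega), if_neg (by omega), if_neg h.ne']; ring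

omit [DecidableEq P] in
theorem Vt_nonneg {x : P → ℝ} (hx : ∀ p ∈ B, 0 ≤ x p) (k : ℕ) : 0 ≤ Vt B k x :=
  sum_nonneg fun S hS => mul_nonneg (by split_ifs <;> norm_num)
    (prod_nonneg fun p hp => hx p (mem_powerset.1 hS hp))

omit [DecidableEq P] in
theorem Vt_le {x : P → ℝ} (hx : ∀ p ∈ B, 0 ≤ x p) (hs : ∑ p ∈ B, x p ≤ 2) (k : ℕ) :
    4 ^ k * Vt B k x ≤ 4096 := by
  have h1 : 4 ^ k * Vt B k x ≤ ∏ p ∈ B, (1 + 4 * x p) := by
    rw [prod_one_add, Vt, mul_sum]
    refine sum_le_sum fun S hS => ?_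
    rw [prod_mul_distrib, prod_const]
    have : 0 ≤ ∏ p ∈ S, x p := prod_nonneg fun p hp => hx p (mem_powerset.1 hS hp)
    split_ifs with h
    · rw [h, one_mul]
    · rw [zero_mul, mul_zero]; positivity
  have h2 : ∏ p ∈ B, (1 + 4 * x p) ≤ Real.exp (∑ p ∈ B, 4 * x p) := by
    rw [Real.exp_sum]
    exact prod_le_prod (fun p hp => by linarith [hx p hp]) fun p _ => by
      linarith [Real.add_one_le_exp (4 * x p)]
  have h3 : Real.exp (∑ p ∈ B, 4 * x p) ≤ Real.exp 1 ^ 8 := by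
    rw [← Real.exp_nat_mul, ← mul_sum]
    exact Real.exp_le_exp.2 (by push_cast; linarith)
  have h4 : Real.exp 1 ^ 8 ≤ 2.7182818286 ^ 8 :=
    pow_le_pow_left₀ (Real.exp_pos _).le Real.exp_one_lt_d9.le 8
  have h5 : (2.7182818286 : ℝ) ^ 8 ≤ 4096 := by norm_num
  linarith

omit [DecidableEq P] in
theorem prod_ge {x : P → ℝ} (hx : ∀ p ∈ B, 0 ≤ x p ∧ x p ≤ 1 / 2) (hs : ∑ p ∈ B, x p ≤ 2) :
    1 / 16 ≤ ∏ p ∈ B, (1 - x p) := by
  have h1 : ∏ p ∈ B, (1 / 2 : ℝ) ^ (2 * x p) ≤ ∏ p ∈ B, (1 - x p) :=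
    prod_le_prod (fun p _ => by positivity) fun p hp => by
      have := rpow_one_add_le_one_add_mul_self (s := -1 / 2) (by norm_num) (p := 2 * x p)
        (by linarith [(hx p hp).1]) (by linarith [(hx p hp).2])
      rw [show (1 : ℝ) + -1 / 2 = 1 / 2 by norm_num] at this
      linarith
  rw [← Real.rpow_sum_of_pos (by norm_num), ← mul_sum] at h1
  refine le_trans ?_ h1
  have h2 : (1 / 2 : ℝ) ^ ((4 : ℕ) : ℝ) ≤ (1 / 2 : ℝ) ^ (2 * ∑ p ∈ B, x p) :=
    Real.rpow_le_rpow_of_exponent_ge (by norm_num) (by norm_num) (by push_cast; linarith)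
  rw [Real.rpow_natCast] at h2
  linarith

omit [DecidableEq P] in
theorem sum_dg_le {d : ℝ} (hd : ∀ p ∈ B, (dg p : ℝ) ≤ d) (d0 : 0 ≤ d) {S : Finset P} (hS : S ⊆ B)
    {k : ℕ} (hk : S.card ≤ k) : ∑ p ∈ S, (dg p : ℝ) ≤ k * d := by
  refine (sum_le_card_nsmul S _ d fun p hp => hd p (hS hp)).trans ?_
  rw [nsmul_eq_mul]
  exact mul_le_mul_of_nonneg_right (by exact_mod_cast hk) d0

theorem blocks (Ps : Finset P) (dg : P → ℕ) (g : P → ℝ) (z : ℕ)
    (h1 : ∀ p ∈ Ps, 1 ≤ dg p ∧ dg p ≤ z ∧ 0 ≤ g p ∧ g p ≤ 1 / 2)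
    (h2 : ∀ y : ℕ, ∑ p ∈ Ps with y ≤ dg p ∧ dg p < 2 * y, g p ≤ 2) (j : ℕ) :
    ∃ up er : (P → ℝ) → ℝ,
      Rep dg (Ps.filter fun p => z < 2 ^ j * dg p) up 1 (z * (22 - (4 * j + 22) / 2 ^ j)) ∧
      Rep dg (Ps.filter fun p => z < 2 ^ j * dg p) er j (z * (22 - (4 * j + 22) / 2 ^ j)) ∧
      (∀ x : P → ℝ, (∀ p ∈ Ps, 0 ≤ x p ∧ x p ≤ 1) →
        ∏ p ∈ Ps with z < 2 ^ j * dg p, (1 - x p) ≤ up x ∧
        up x - er x ≤ ∏ p ∈ Ps with z < 2 ^ j * dg p, (1 - x p)) ∧
      1 / 16 ^ j ≤ up g ∧ er g ≤ up g * (1 / 2 - 1 / 2 ^ (j + 1)) := by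
  induction j with
  | zero =>
    have e : (Ps.filter fun p => z < 2 ^ 0 * dg p) = ∅ :=
      filter_eq_empty_iff.2 fun p hp => by have := (h1 p hp).2.1; omega
    rw [e]
    refine ⟨fun _ => 1, fun _ => 0, ⟨fun _ => 1, by simp, ?_⟩, ⟨fun _ => 0, by simp, by simp⟩,
      by simp, by simp, by simp⟩
    intro S hS
    rw [subset_empty.1 hS]
    simp
  | succ j ih =>
    obtain ⟨up, er, r1, r2, r3, r4, r5⟩ := ih
    set C := Ps.filter fun p => z < 2 ^ j * dg p with hC
    set B := Ps.filter fun p => 2 ^ j * dg p ≤ z ∧ z < 2 ^ (j + 1) * dg p with hB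
    have e : (Ps.filter fun p => z < 2 ^ (j + 1) * dg p) = C ∪ B := by
      ext p
      simp only [hB, hC, mem_union, mem_filter, pow_succ', mul_assoc]
      constructor
      · rintro ⟨a, b⟩
        rcases lt_or_ge z (2 ^ j * dg p) with h | h
        · exact Or.inl ⟨a, h⟩
        · exact Or.inr ⟨a, h, b⟩
      · rintro (⟨a, b⟩ | ⟨a, b⟩)
        · exact ⟨a, by omega⟩
        · exact ⟨a, b.2⟩
    have hd : Disjoint C B := disjoint_filter.2 fun p _ h h' => by omega
    have hBP : B ⊆ Ps := filter_subset _ _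
    have hdg : ∀ p ∈ B, (dg p : ℝ) ≤ z / 2 ^ j := fun p hp => by
      rw [le_div_iff₀ (by positivity), mul_comm]
      exact_mod_cast (mem_filter.1 hp).2.1
    have hs : ∑ p ∈ B, g p ≤ 2 := by
      refine le_trans (sum_le_sum_of_subset_of_nonneg ?_ fun p hp _ => (h1 p (mem_filter.1 hp).1).2.2.1)
        (h2 (z / 2 ^ (j + 1) + 1))
      intro p hp
      obtain ⟨a, b, c⟩ := mem_filter.1 hp
      refine mem_filter.2 ⟨a, (Nat.div_lt_iff_lt_mul (by positivity)).2 (by rwa [mul_comm]), ?_⟩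
      have b' : dg p ≤ z / 2 ^ j := (Nat.le_div_iff_mul_le (by positivity)).2 (by rwa [mul_comm])
      rw [pow_succ, ← Nat.div_div_eq_div_mul]
      omega
    have u1 : Rep dg B (Ut B (2 * (j + 4))) 1 ((2 * (j + 4) + 1 : ℕ) * (z / 2 ^ j)) :=
      ⟨_, fun _ => rfl, fun S hS => ⟨by split_ifs <;> simp, fun h =>
        sum_dg_le hdg (by positivity) hS (by by_contra h'; exact h (if_neg (by omega)))⟩⟩
    have u2 : Rep dg B (Vt B (2 * (j + 4) + 1)) 1 ((2 * (j + 4) + 1 : ℕ) * (z / 2 ^ j)) :=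
      ⟨_, fun _ => rfl, fun S hS => ⟨by split_ifs <;> simp, fun h =>
        sum_dg_le hdg (by positivity) hS (by by_contra h'; exact h (if_neg (by omega)))⟩⟩
    have eD : (z : ℝ) * (22 - (4 * (j + 1 : ℕ) + 22) / 2 ^ (j + 1)) =
        z * (22 - (4 * j + 22) / 2 ^ j) + (2 * (j + 4) + 1 : ℕ) * (z / 2 ^ j) := by
      push_cast; field_simp; ring
    have key : ∀ x : P → ℝ, (∀ p ∈ Ps, 0 ≤ x p ∧ x p ≤ 1) →
        ∏ p ∈ B, (1 - x p) ≤ Ut B (2 * (j + 4)) x ∧
        Ut B (2 * (j + 4)) x - Vt B (2 * (j + 4) + 1) x ≤ ∏ p ∈ B, (1 - x p) := by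
      intro x hx
      have a := bonf x B (fun p hp => hx p (hBP hp)) (2 * (j + 4))
      have b := bonf x B (fun p hp => hx p (hBP hp)) (2 * (j + 4) + 1)
      rw [Ut_odd, pow_succ, pow_mul] at b
      rw [pow_mul] at a
      simp only [neg_one_sq, one_pow] at a b
      constructor <;> linarith
    rw [e, eD]
    refine ⟨fun x => up x * Ut B (2 * (j + 4)) x,
      fun x => er x * Ut B (2 * (j + 4)) x + 1 * (up x * Vt B (2 * (j + 4) + 1) x),
      r1.mul u1 hd, ?_, fun x hx => ?_, ?_⟩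
    · rw [Nat.cast_succ]
      exact (r2.mul u1 hd).add (r1.mul u2 hd) 1 abs_one
    · obtain ⟨a1, a2⟩ := r3 x hx
      obtain ⟨b1, b2⟩ := key x hx
      have c1 : 0 ≤ ∏ p ∈ C, (1 - x p) :=
        prod_nonneg fun p hp => sub_nonneg.2 (hx p (mem_filter.1 hp).1).2
      have c2 : 0 ≤ ∏ p ∈ B, (1 - x p) := prod_nonneg fun p hp => sub_nonneg.2 (hx p (hBP hp)).2
      have c3 := Vt_nonneg (fun p hp => (hx p (hBP hp)).1) (2 * (j + 4) + 1)
      rw [prod_union hd]
      refine ⟨mul_le_mul a1 b1 c2 (c1.trans a1), ?_⟩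
      nlinarith [mul_le_mul_of_nonneg_right a2 (c2.trans b1), mul_le_mul_of_nonneg_right a1 c3,
        mul_le_mul_of_nonneg_left b2 c1]
    · have a1 := (prod_ge (fun p hp => (h1 p (hBP hp)).2.2) hs).trans
        (key g fun p hp => ⟨(h1 p hp).2.2.1, by linarith [(h1 p hp).2.2.2]⟩).1
      have a2 := Vt_le (fun p hp => (h1 p (hBP hp)).2.2.1) hs (2 * (j + 4) + 1)
      have a3 : 0 ≤ up g := le_trans (by positivity) r4
      have a4 : Vt B (2 * (j + 4) + 1) g ≤ 1 / 2 ^ (j + 1 + 1) * (1 / 16) := by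
        have b1 : (2 : ℝ) ^ j ≤ 16 ^ j := pow_le_pow_left₀ (by norm_num) (by norm_num) j
        have b2 : (4 : ℝ) ^ (2 * (j + 4) + 1) = 16 ^ j * 262144 := by
          rw [pow_succ, pow_mul, pow_add]; norm_num; ring
        have b3 := Vt_nonneg (fun p hp => (h1 p (hBP hp)).2.2.1) (2 * (j + 4) + 1)
        rw [b2] at a2
        rw [div_mul_div_comm, le_div_iff₀ (by positivity), pow_succ, pow_succ]
        nlinarith
      refine ⟨?_, ?_⟩
      · rw [pow_succ, ← one_div_mul_one_div]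
        exact mul_le_mul r4 a1 (by norm_num) a3
      · have a5 : Vt B (2 * (j + 4) + 1) g ≤ 1 / 2 ^ (j + 1 + 1) * Ut B (2 * (j + 4)) g :=
          a4.trans (mul_le_mul_of_nonneg_left a1 (by positivity))
        have a6 : (1 : ℝ) / 2 ^ (j + 1) = 2 * (1 / 2 ^ (j + 1 + 1)) := by field_simp; ring
        rw [a6] at r5
        nlinarith [mul_le_mul_of_nonneg_right r5 (le_trans (by norm_num) a1),
          mul_le_mul_of_nonneg_left a5 a3]

end QSieve

open QSieve in
theorem sieve_exists {P Ω : Type*} [DecidableEq P] (Ps : Finset P) (dg : P → ℕ) (g : P → ℝ) (z : ℕ)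
    (A : Finset Ω) (T : Ω → Finset P) (Xm : ℝ)
    (h1 : ∀ p ∈ Ps, 1 ≤ dg p ∧ dg p ≤ z ∧ 0 ≤ g p ∧ g p ≤ 1 / 2)
    (h2 : ∀ y : ℕ, ∑ p ∈ Ps with y ≤ dg p ∧ dg p < 2 * y, g p ≤ 2)
    (h3 : ∀ t ∈ A, T t ⊆ Ps) (h4 : 0 ≤ Xm)
    (h5 : (z + 1) * ∑ S ∈ Ps.powerset with ∑ p ∈ S, dg p ≤ 32 * z,
      |((A.filter fun t => S ⊆ T t).card : ℝ) - Xm * ∏ p ∈ S, g p| < Xm / (32 * (z + 1) ^ 4)) :
    ∃ t ∈ A, T t = ∅ := by
  by_contra hne
  push Not at hne
  obtain ⟨up, er, r1, r2, r3, r4, r5⟩ := blocks Ps dg g z h1 h2 z.size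
  have e : (Ps.filter fun p => z < 2 ^ z.size * dg p) = Ps := filter_true_of_mem fun p hp =>
    (Nat.lt_size_self z).trans_le (Nat.le_mul_of_pos_right _ (h1 p hp).1)
  rw [e] at r1 r2 r3
  obtain ⟨l, l1, l2⟩ := r1.add r2 (-1) (by simp)
  have s1 : z.size ≤ z := Nat.size_le.2 Nat.lt_two_pow_self
  have s2 : 2 ^ z.size ≤ 2 * (z + 1) := by
    rcases Nat.eq_zero_or_pos z.size with h | h
    · rw [h]; omega
    · obtain ⟨k, hk⟩ := Nat.exists_eq_succ_of_ne_zero h.ne'
      have : 2 ^ k ≤ z := Nat.lt_size.1 (by omega)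
      rw [hk, pow_succ]; omega
  have s3 : (16 : ℝ) ^ z.size ≤ 16 * (z + 1) ^ 4 := by
    have : ((2 : ℝ) ^ z.size) ^ 4 ≤ (2 * (z + 1)) ^ 4 :=
      pow_le_pow_left₀ (by positivity) (by exact_mod_cast s2) 4
    rw [← pow_mul, mul_comm, pow_mul, mul_pow] at this
    norm_num at this ⊢
    exact this
  have m1 : 1 / (32 * ((z : ℝ) + 1) ^ 4) ≤ up g + -1 * er g := by
    have a1 : 1 / (16 * ((z : ℝ) + 1) ^ 4) ≤ up g :=
      (one_div_le_one_div_of_le (by positivity) s3).trans r4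
    have a2 : 1 / (16 * ((z : ℝ) + 1) ^ 4) = 2 * (1 / (32 * ((z : ℝ) + 1) ^ 4)) := by
      field_simp; norm_num
    have a3 : 0 ≤ up g := le_trans (by positivity) r4
    have a4 : 0 ≤ up g * (1 / 2 ^ (z.size + 1)) := by positivity
    nlinarith
  have m2 : ∑ S ∈ Ps.powerset, l S * ((A.filter fun t => S ⊆ T t).card : ℝ) ≤ 0 := by
    have a1 : ∀ t ∈ A, ∑ S ∈ Ps.powerset, l S * (if S ⊆ T t then 1 else 0) ≤ 0 := by
      intro t ht
      have b1 := (r3 (fun p => if p ∈ T t then 1 else 0) fun p _ => by split_ifs <;> norm_num).2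
      obtain ⟨p, hp⟩ := hne t ht
      rw [prod_eq_zero (h3 t ht hp) (by simp [hp])] at b1
      have b2 := l1 fun p => if p ∈ T t then 1 else 0
      simp only [prod_boole, ← subset_iff] at b2
      linarith
    have a2 := sum_nonpos a1
    rw [sum_comm] at a2
    simpa only [← mul_sum, sum_boole] using a2
  have m3 : ∑ S ∈ Ps.powerset, l S * (Xm * ∏ p ∈ S, g p - (A.filter fun t => S ⊆ T t).card) ≤
      (z + 1) * ∑ S ∈ Ps.powerset with ∑ p ∈ S, dg p ≤ 32 * z,
        |((A.filter fun t => S ⊆ T t).card : ℝ) - Xm * ∏ p ∈ S, g p| := by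
    rw [mul_sum, sum_filter]
    refine sum_le_sum fun S hS => ?_
    obtain ⟨b1, b2⟩ := l2 S (mem_powerset.1 hS)
    split_ifs with h
    · refine (le_abs_self _).trans ?_
      rw [abs_mul, abs_sub_comm]
      have : (z.size : ℝ) ≤ z := by exact_mod_cast s1
      exact mul_le_mul_of_nonneg_right (by linarith) (abs_nonneg _)
    · by_cases h0 : l S = 0
      · rw [h0, zero_mul]
      · refine absurd ?_ h
        have b3 := b2 h0
        have b4 : (0 : ℝ) ≤ z * ((4 * z.size + 22) / 2 ^ z.size) := by positivity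
        have b5 : (0 : ℝ) ≤ z := Nat.cast_nonneg z
        exact_mod_cast (by nlinarith : ∑ p ∈ S, (dg p : ℝ) ≤ 32 * z)
  have m4 : ∑ S ∈ Ps.powerset, l S * (Xm * ∏ p ∈ S, g p - (A.filter fun t => S ⊆ T t).card) =
      Xm * (up g + -1 * er g) - ∑ S ∈ Ps.powerset, l S * ((A.filter fun t => S ⊆ T t).card : ℝ) := by
    have := l1 g
    simp only at this
    rw [this, mul_sum, ← sum_sub_distrib]
    exact sum_congr rfl fun S _ => by ring
  have m5 := mul_le_mul_of_nonneg_left m1 h4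
  rw [mul_one_div] at m5
  linarith

end Pool.Agent.MP_f37147_nt

end

section

/- Almost primes P such that a P ^ 2 + c is d times a prime. -/

set_option autoImplicit false

namespace Pool.Agent.MP_f37147_nt

open Polynomial Finset Pool.Agent.MP_4fffd4_nt Pool.Agent.MP_c853c5_nt
open scoped BigOperators

variable {F : Type*} [Field F] [Fintype F] [CharP F 2]

namespace QPairB

omit [CharP F 2] in
theorem two_le_pow {R : F[X]} (hR : Irreducible R) :
    (2 : ℝ) ≤ (Fintype.card F : ℝ) ^ R.natDegree :=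
  two_le_card.trans (le_self_pow₀ (one_le_two.trans two_le_card) hR.natDegree_pos.ne')

omit [CharP F 2] in
theorem gl_nonneg (a : F[X]) {R : F[X]} (hR : Irreducible R) : 0 ≤ gl a R := by
  have := two_le_pow hR
  unfold gl
  split_ifs
  · positivity
  · exact div_nonneg zero_le_one (by linarith)

omit [CharP F 2] in
theorem gl_le_two (a : F[X]) {R : F[X]} (hR : Irreducible R) :
    gl a R ≤ 2 / (Fintype.card F : ℝ) ^ R.natDegree := by
  have := two_le_pow hR
  unfold gl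
  split_ifs
  · exact div_le_div_of_nonneg_right one_le_two (by positivity)
  · rw [div_le_div_iff₀ (by linarith) (by linarith)]
    linarith

theorem gl_le_half {a c d x₀ y₀ : F[X]}
    (h2 : Fintype.card F = 2 → IsCoprime (x₀ * y₀) (X * (X + 1)))
    (heq : a * x₀ ^ 2 + c = d * y₀) {R : F[X]} (hm : R.Monic) (hR : Irreducible R)
    (hcd : ¬ R ∣ c * d) : gl a R ≤ 1 / 2 := by
  have h := two_le_pow hR
  unfold gl
  split_ifs with ha
  · exact one_div_le_one_div_of_le two_pos h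
  refine one_div_le_one_div_of_le two_pos ?_
  by_contra hlt
  have h3 : Fintype.card F ^ R.natDegree < 3 := by
    have : (Fintype.card F : ℝ) ^ R.natDegree < 3 := by linarith
    exact_mod_cast this
  have hq : 2 ≤ Fintype.card F := Fintype.one_lt_card
  have hd1 : R.natDegree = 1 := by
    by_contra hne
    have h4 : 2 ≤ R.natDegree := by have := hR.natDegree_pos; omega
    have h5 : 2 ^ 2 ≤ Fintype.card F ^ R.natDegree :=
      (Nat.pow_le_pow_left hq 2).trans (Nat.pow_le_pow_right (by omega) h4)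
    omega
  rw [hd1, pow_one] at h3
  have hq2 : Fintype.card F = 2 := by omega
  have hone : ∀ t : F, t ≠ 0 → t = 1 := fun t ht => by
    have := FiniteField.pow_card_sub_one_eq_one t ht
    rwa [hq2, show 2 - 1 = 1 from rfl, pow_one] at this
  have htwo : (2 : F) = 0 := by exact_mod_cast CharP.cast_eq_zero F 2
  obtain ⟨r, hr⟩ : ∃ r : F, R = X - C r :=
    ⟨- R.coeff 0, by rw [C_neg, sub_neg_eq_add]; exact hm.eq_X_add_C hd1⟩
  subst hr
  rw [dvd_iff_isRoot, IsRoot.def] at ha hcd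
  rw [eval_mul] at hcd
  have hX : (X - C r) ∣ (X * (X + 1) : F[X]) := by
    rw [dvd_iff_isRoot, IsRoot.def]
    simp only [eval_mul, eval_X, eval_add, eval_one]
    by_cases hr : r = 0
    · rw [hr, zero_mul]
    · rw [hone r hr]; linear_combination htwo
  have hxy : eval r x₀ * eval r y₀ ≠ 0 := fun h0 => by
    have h5 : (X - C r) ∣ x₀ * y₀ := by rw [dvd_iff_isRoot, IsRoot.def, eval_mul, h0]
    exact hR.not_isUnit ((h2 hq2).isUnit_of_dvd' h5 hX)
  have h6 := congrArg (eval r) heq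
  rw [eval_add, eval_mul, eval_mul, eval_pow, hone _ ha, hone _ (left_ne_zero_of_mul hcd),
    hone _ (right_ne_zero_of_mul hcd), hone _ (left_ne_zero_of_mul hxy),
    hone _ (right_ne_zero_of_mul hxy)] at h6
  exact one_ne_zero (α := F) (by linear_combination h6)

theorem block_le (a : F[X]) (Ps : Finset F[X]) (hPs : ∀ R ∈ Ps, R.Monic ∧ Irreducible R) (y : ℕ) :
    ∑ p ∈ Ps with y ≤ p.natDegree ∧ p.natDegree < 2 * y, gl a p ≤ 2 := by
  classical
  have hq := card_pos' (F := F)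
  rcases Nat.eq_zero_or_pos y with rfl | hy
  · simp
  have hy' : (0 : ℝ) < y := by exact_mod_cast hy
  calc ∑ p ∈ Ps with y ≤ p.natDegree ∧ p.natDegree < 2 * y, gl a p
      ≤ ∑ p ∈ Ps with y ≤ p.natDegree ∧ p.natDegree < 2 * y,
          2 / (Fintype.card F : ℝ) ^ p.natDegree :=
        sum_le_sum fun p hp => gl_le_two a (hPs p (mem_filter.1 hp).1).2
    _ ≤ ∑ p ∈ (Ico y (2 * y)).biUnion (irrF F), 2 / (Fintype.card F : ℝ) ^ p.natDegree := by
        refine sum_le_sum_of_subset_of_nonneg (fun p hp => ?_) fun _ _ _ => by positivity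
        obtain ⟨h1, h2⟩ := mem_filter.1 hp
        exact mem_biUnion.2 ⟨_, mem_Ico.2 h2, mem_irrF.2 ⟨(hPs p h1).1, rfl, (hPs p h1).2⟩⟩
    _ ≤ ∑ j ∈ Ico y (2 * y), ∑ p ∈ irrF F j, 2 / (Fintype.card F : ℝ) ^ p.natDegree := by
        refine le_of_eq (sum_biUnion fun i _ j _ hij => disjoint_left.2 fun p h1 h2 => hij ?_)
        rw [← (mem_irrF.1 h1).2.1, (mem_irrF.1 h2).2.1]
    _ ≤ ∑ _j ∈ Ico y (2 * y), 2 / (y : ℝ) := by
        refine sum_le_sum fun j hj => ?_
        rw [sum_congr rfl (g := fun _ => 2 / (Fintype.card F : ℝ) ^ j)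
          (fun p hp => by rw [(mem_irrF.1 hp).2.1]), sum_const, nsmul_eq_mul, ← mul_div_assoc,
          div_le_div_iff₀ (by positivity) hy']
        have h1 := SConv.card_irrF_le (F := F) j
        have h2 : (y : ℝ) ≤ j := by exact_mod_cast (mem_Ico.1 hj).1
        have h3 : (0 : ℝ) ≤ (irrF F j).card := by positivity
        nlinarith
    _ = 2 := by
        rw [sum_const, Nat.card_Ico, nsmul_eq_mul, show 2 * y - y = y by omega]
        field_simp

omit [CharP F 2] in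
theorem subsets_le (Ps : Finset F[X]) (z : ℕ) (hPs : ∀ R ∈ Ps, R.Monic ∧ R.natDegree ≤ z) :
    ∑ S ∈ Ps.powerset, 1 / (Fintype.card F : ℝ) ^ (∑ R ∈ S, R.natDegree) ≤ 4 ^ (z + 1) := by
  classical
  have hq := card_pos' (F := F)
  have h1 : ∑ R ∈ Ps, 1 / (Fintype.card F : ℝ) ^ R.natDegree ≤ (z + 1 : ℕ) := by
    calc ∑ R ∈ Ps, 1 / (Fintype.card F : ℝ) ^ R.natDegree
        ≤ ∑ R ∈ (range (z + 1)).biUnion (monF F), 1 / (Fintype.card F : ℝ) ^ R.natDegree := by
          refine sum_le_sum_of_subset_of_nonneg (fun p hp => ?_) fun _ _ _ => by positivity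
          exact mem_biUnion.2 ⟨_, mem_range.2 (Nat.lt_succ_of_le (hPs p hp).2),
            mem_monF.2 ⟨(hPs p hp).1, rfl⟩⟩
      _ = ∑ j ∈ range (z + 1), ∑ R ∈ monF F j, 1 / (Fintype.card F : ℝ) ^ R.natDegree := by
          refine sum_biUnion fun i _ j _ hij => disjoint_left.2 fun p h1 h2 => hij ?_
          rw [← (mem_monF.1 h1).2, (mem_monF.1 h2).2]
      _ = ∑ _j ∈ range (z + 1), (1 : ℝ) := by
          refine sum_congr rfl fun j _ => ?_
          rw [sum_congr rfl (g := fun _ => 1 / (Fintype.card F : ℝ) ^ j)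
            (fun p hp => by rw [(mem_monF.1 hp).2]), sum_const, nsmul_eq_mul, card_monF]
          push_cast
          field_simp
      _ = (z + 1 : ℕ) := by simp
  calc ∑ S ∈ Ps.powerset, 1 / (Fintype.card F : ℝ) ^ (∑ R ∈ S, R.natDegree)
      = ∏ R ∈ Ps, (1 + 1 / (Fintype.card F : ℝ) ^ R.natDegree) := by
        rw [prod_one_add]
        refine sum_congr rfl fun S _ => ?_
        rw [prod_div_distrib, prod_const_one, prod_pow_eq_pow_sum]
    _ ≤ ∏ R ∈ Ps, Real.exp (1 / (Fintype.card F : ℝ) ^ R.natDegree) :=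
        prod_le_prod (fun _ _ => by positivity) fun _ _ => by
          rw [add_comm]; exact Real.add_one_le_exp _
    _ ≤ Real.exp (z + 1 : ℕ) := by rw [← Real.exp_sum]; exact Real.exp_le_exp.2 h1
    _ ≤ 4 ^ (z + 1) := by
        rw [← Real.exp_one_pow]
        exact pow_le_pow_left₀ (Real.exp_pos 1).le (Real.exp_one_lt_three.le.trans (by norm_num)) _

theorem num_lt {z : ℕ} (hz : 1 ≤ z) : 32 * (z + 1) ^ 5 * 4 ^ (z + 1) < 2 ^ (128 * z) := by
  have h1 : z + 1 ≤ 2 ^ z := Nat.lt_two_pow_self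
  calc 32 * (z + 1) ^ 5 * 4 ^ (z + 1) ≤ 32 * (2 ^ z) ^ 5 * 4 ^ (z + 1) := by gcongr
    _ = 2 ^ (7 * z + 7) := by
        rw [show (4 : ℕ) = 2 ^ 2 from rfl, show (32 : ℕ) = 2 ^ 5 from rfl, ← pow_mul, ← pow_mul,
          ← pow_add, ← pow_add]
        congr 1; ring
    _ < 2 ^ (128 * z) := Nat.pow_lt_pow_right one_lt_two (by omega)

end QPairB

open QPairB in
theorem pair_of_core {C n₀ : ℕ} (hC : 0 < C) (hcore : CoreSt F C n₀) {a c d x₀ y₀ : F[X]}
    (hd : d ≠ 0) (hsq : ¬ IsSquare (a * c)) (hcop : IsCoprime (x₀ * y₀) (a * d))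
    (h2 : Fintype.card F = 2 → IsCoprime (x₀ * y₀) (X * (X + 1)))
    (heq : a * x₀ ^ 2 + c = d * y₀) :
    ∃ n₁ : ℕ, ∀ n, n₁ ≤ n → ∃ P Q : F[X], P.Monic ∧ P.natDegree = n ∧
      (∀ R : F[X], Irreducible R → R ∣ P → n ≤ 256 * C * R.natDegree) ∧ Irreducible Q ∧
      a * P ^ 2 + c = d * Q := by
  classical
  have ha : a ≠ 0 := fun h => hsq (by rw [h, zero_mul]; exact IsSquare.zero)
  have hq := card_pos' (F := F)
  refine ⟨2 * n₀ + 256 * C * (a.natDegree + d.natDegree + c.natDegree + 1), fun n hn => ?_⟩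
  obtain ⟨z, hz⟩ : ∃ z, z = n / (256 * C) := ⟨_, rfl⟩
  have hz1 : a.natDegree + d.natDegree + c.natDegree + 1 ≤ z := by
    rw [hz, Nat.le_div_iff_mul_le (by positivity), mul_comm]; omega
  have hz2 : 256 * (C * z) ≤ n := by
    rw [hz, ← mul_assoc]; exact Nat.mul_div_le _ _
  have hz3 : n < 256 * C * (z + 1) := by
    rw [hz]; exact Nat.lt_mul_div_succ _ (by positivity)
  have hz4 : z ≤ C * z := Nat.le_mul_of_pos_left _ hC
  set Ps : Finset F[X] := ((range (z + 1)).biUnion (irrF F)).filter fun R => ¬ R ∣ c * d with hPs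
  have hmem : ∀ R, R ∈ Ps ↔ R.Monic ∧ Irreducible R ∧ R.natDegree ≤ z ∧ ¬ R ∣ c * d := fun R => by
    simp only [hPs, mem_filter, mem_biUnion, mem_range, mem_irrF]
    exact ⟨fun ⟨⟨j, h1, h2, h3, h4⟩, h5⟩ => ⟨h2, h4, by omega, h5⟩,
      fun ⟨h1, h2, h3, h4⟩ => ⟨⟨_, by omega, h1, rfl, h2⟩, h4⟩⟩
  set L : ℝ := 2 * n + a.natDegree - d.natDegree with hL
  have hL0 : 0 < L := by
    have h1 : d.natDegree < 2 * n + a.natDegree := by omega
    have h2 : (d.natDegree : ℝ) < 2 * n + a.natDegree := by exact_mod_cast h1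
    linarith
  have hs := one_le_sing (mul_ne_zero ha hd)
  set Y : ℝ := (Fintype.card F : ℝ) ^ (n - d.natDegree) with hY
  have hY0 : 0 < Y := by positivity
  obtain ⟨P, hP, hT⟩ := sieve_exists Ps natDegree (gl a) z (om a c d x₀ n)
    (fun P => Ps.filter (· ∣ P)) (Y * sing (a * d) / L)
    (fun R hR => by
      obtain ⟨h1, h3, h4, h5⟩ := (hmem R).1 hR
      exact ⟨h3.natDegree_pos, h4, gl_nonneg a h3, gl_le_half h2 heq h1 h3 h5⟩)
    (block_le a Ps fun R hR => ⟨((hmem R).1 hR).1, ((hmem R).1 hR).2.1⟩)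
    (fun _ _ => filter_subset _ _) (by positivity) (by
      have hterm : ∀ S ∈ Ps.powerset.filter (fun S => ∑ p ∈ S, p.natDegree ≤ 32 * z),
          |(((om a c d x₀ n).filter fun t => S ⊆ Ps.filter (· ∣ t)).card : ℝ) -
            Y * sing (a * d) / L * ∏ p ∈ S, gl a p| ≤
          Y / (L * 2 ^ (128 * z)) * (1 / (Fintype.card F : ℝ) ^ (∑ R ∈ S, R.natDegree)) := by
        intro S hS
        obtain ⟨hS1, hS2⟩ := mem_filter.1 hS
        rw [mem_powerset] at hS1
        obtain ⟨s, hs'⟩ : ∃ s, s = ∑ R ∈ S, R.natDegree := ⟨_, rfl⟩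
        obtain ⟨n', hn'⟩ : ∃ n', n = n' + d.natDegree + s := ⟨n - d.natDegree - s, by omega⟩
        have hw : 128 * z ≤ n' / C := by
          rw [Nat.le_div_iff_mul_le hC, mul_assoc, mul_comm z]; omega
        have h3 := count_class hcore hd hsq hcop heq S
          (fun R hR => ⟨((hmem R).1 (hS1 hR)).1, ((hmem R).1 (hS1 hR)).2.1,
            ((hmem R).1 (hS1 hR)).2.2.2⟩) (n := n) (n' := n') (hs' ▸ hn') (by omega)
          (by omega) (by omega)
        have h4 : ((om a c d x₀ n).filter fun t => S ⊆ Ps.filter (· ∣ t)) =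
            (om a c d x₀ n).filter fun P => ∀ R ∈ S, R ∣ P :=
          filter_congr fun t _ => ⟨fun h R hR => (mem_filter.1 (h hR)).2,
            fun h R hR => mem_filter.2 ⟨hS1 hR, h R hR⟩⟩
        rw [h4, ← hs']
        have h5 : Y = (Fintype.card F : ℝ) ^ n' * (Fintype.card F : ℝ) ^ s := by
          rw [hY, ← pow_add]; congr 1; omega
        have h6 : (2 : ℝ) ^ (128 * z) ≤ (Fintype.card F : ℝ) ^ (n' / C) :=
          (pow_le_pow_left₀ zero_le_two two_le_card _).trans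
            (pow_le_pow_right₀ (one_le_two.trans two_le_card) hw)
        have h7 : (Fintype.card F : ℝ) ^ n' / (Fintype.card F : ℝ) ^ (n' / C) ≤
            (Fintype.card F : ℝ) ^ n' / 2 ^ (128 * z) :=
          div_le_div_of_nonneg_left (by positivity) (by positivity) h6
        have h8 := h3.trans h7
        rw [← hL, ← hY] at h8
        refine le_of_mul_le_mul_left ?_ hL0
        rw [← abs_of_pos hL0, ← abs_mul, abs_of_pos hL0]
        convert h8 using 1
        · congr 1; field_simp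
        · rw [h5]; field_simp
      have h9 := (sum_le_sum hterm).trans (sum_le_sum_of_subset_of_nonneg (filter_subset _ _)
        fun _ _ _ => by positivity)
      rw [← mul_sum] at h9
      have h10 := h9.trans (mul_le_mul_of_nonneg_left
        (subsets_le Ps z fun R hR => ⟨((hmem R).1 hR).1, ((hmem R).1 hR).2.2.1⟩) (by positivity))
      refine (mul_le_mul_of_nonneg_left h10 (by positivity)).trans_lt ?_
      have h11 : (32 : ℝ) * (z + 1) ^ 5 * 4 ^ (z + 1) < 2 ^ (128 * z) := by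
        exact_mod_cast num_lt (z := z) (by omega)
      calc ((z : ℝ) + 1) * (Y / (L * 2 ^ (128 * z)) * 4 ^ (z + 1))
          = Y / L / (32 * (z + 1) ^ 4) * (32 * (z + 1) ^ 5 * 4 ^ (z + 1) / 2 ^ (128 * z)) := by
            field_simp
        _ < Y / L / (32 * (z + 1) ^ 4) * 1 :=
            mul_lt_mul_of_pos_left ((div_lt_one (by positivity)).2 h11) (by positivity)
        _ ≤ Y * sing (a * d) / L / (32 * (z + 1) ^ 4) := by
            rw [mul_one]
            gcongr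
            exact le_mul_of_one_le_right hY0.le hs)
  obtain ⟨hP1, hP2, Q, hQ, hPQ⟩ := mem_filter.1 hP
  obtain ⟨hP3, hP4⟩ := mem_monF.1 hP1
  refine ⟨P, Q, hP3, hP4, fun R hR hRP => ?_, hQ, hPQ⟩
  by_contra hlt
  have hRz : R.natDegree ≤ z := by
    by_contra h
    exact hlt (hz3.le.trans (Nat.mul_le_mul_left _ (by omega)))
  have hRcd : R ∣ c * d := by
    by_contra h
    have h1 : normalize R ∈ Ps.filter (· ∣ P) := mem_filter.2 ⟨(hmem _).2
      ⟨monic_normalize hR.ne_zero, (associated_normalize R).irreducible hR,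
        by rwa [natDegree_eq_of_degree_eq (degree_normalize (p := R))],
        by rwa [normalize_dvd_iff]⟩, by rwa [normalize_dvd_iff]⟩
    rw [show Ps.filter (· ∣ P) = ∅ from hT] at h1
    exact notMem_empty _ h1
  have hRd : ¬ R ∣ d := fun h => by
    have h1 : R ∣ x₀ := (dvd_sub_right hRP).1 (h.trans hP2)
    exact hR.not_isUnit (hcop.isUnit_of_dvd' (h1.mul_right _) (h.mul_left _))
  have hRc : R ∣ c := (hR.prime.dvd_or_dvd hRcd).resolve_right hRd
  have hRQ : R ∣ Q := by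
    refine (hR.prime.dvd_or_dvd ?_).resolve_left hRd
    rw [← hPQ]
    exact dvd_add ((dvd_pow hRP two_ne_zero).mul_left _) hRc
  have h1 : R.natDegree = Q.natDegree :=
    natDegree_eq_of_degree_eq (degree_eq_degree_of_associated (hR.associated_of_dvd hQ hRQ))
  have h3 : (a * P ^ 2).natDegree = a.natDegree + 2 * n := by
    rw [natDegree_mul ha (pow_ne_zero _ hP3.ne_zero), natDegree_pow, hP4]
  have h4 := congrArg natDegree hPQ
  rw [natDegree_add_eq_left_of_natDegree_lt (by omega), h3, natDegree_mul hd hQ.ne_zero] at h4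
  omega

end Pool.Agent.MP_f37147_nt

end
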